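import Mathlib
import Pool.Agent.Work.MP_392c8e_co_red.Glue3

/-!
# Colourings with 3 n colours: arithmetic and gluing over two edges

A colouring at level `n` is a map to the integers such that the differences along edges lie in
`[n + 1, 2 n - 1]` modulo `3 n`; this is a `(3 n, n + 1)`-colouring.
-/

namespace Pool.Agent.CutN

open Pool.Agent.Red (side side_le)

/-- The allowed differences. -/
def Jn (n x : ℤ) : Prop := ∃ k : ℤ, n + 1 ≤ x + 3 * n * k ∧ x + 3 * n * k ≤ 2 * n - 1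

/-- At distance at most `n - 2` modulo `3 n`. -/
def Near (n x : ℤ) : Prop := ∃ k : ℤ, -(n - 2) ≤ x + 3 * n * k ∧ x + 3 * n * k ≤ n - 2

/-- At distance at least `3` modulo `3 n`. -/
def Far (n x : ℤ) : Prop := ∃ k : ℤ, 3 ≤ x + 3 * n * k ∧ x + 3 * n * k ≤ 3 * n - 3

/-- Colourings at level `n`. -/
def IsCol {V : Type*} (n : ℤ) (G : SimpleGraph V) (c : V → ℤ) : Prop :=
  ∀ u v, G.Adj u v → Jn n (c v - c u)

/-- The graph has a colouring at level `n`. -/
def ColN {V : Type*} (n : ℤ) (G : SimpleGraph V) : Prop := ∃ c : V → ℤ, IsCol n G c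

variable {n x y : ℤ}

theorem Jn.neg (h : Jn n x) : Jn n (-x) := by
  obtain ⟨k, h1, h2⟩ := h
  exact ⟨1 - k, by linarith, by linarith⟩

theorem Near.neg (h : Near n x) : Near n (-x) := by
  obtain ⟨k, h1, h2⟩ := h
  exact ⟨-k, by linarith, by linarith⟩

theorem Far.neg (h : Far n x) : Far n (-x) := by
  obtain ⟨k, h1, h2⟩ := h
  exact ⟨1 - k, by linarith, by linarith⟩

theorem Jn.sub (h : Jn n x) (h' : Jn n y) : Near n (x - y) := by
  obtain ⟨k, h1, h2⟩ := h
  obtain ⟨l, h3, h4⟩ := h'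
  exact ⟨k - l, by linarith, by linarith⟩

theorem Jn.add3 {z : ℤ} (h : Jn n x) (h' : Jn n y) (h'' : Jn n z) : Far n (x + y + z) := by
  obtain ⟨k, h1, h2⟩ := h
  obtain ⟨l, h3, h4⟩ := h'
  obtain ⟨m, h5, h6⟩ := h''
  exact ⟨k + l + m - 1, by linarith, by linarith⟩

/-- Two small differences, up to a reflection. -/
theorem Near.pair (h : Near n x) (h' : Near n y) : Near n (y - x) ∨ Near n (-y - x) := by
  obtain ⟨k, h1, h2⟩ := h
  obtain ⟨l, h3, h4⟩ := h'
  rcases le_total 0 (x + 3 * n * k) with h5 | h5 <;> rcases le_total 0 (y + 3 * n * l) with h6 | h6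
  · exact Or.inl ⟨l - k, by linarith, by linarith⟩
  · exact Or.inr ⟨-l - k, by linarith, by linarith⟩
  · exact Or.inr ⟨-l - k, by linarith, by linarith⟩
  · exact Or.inl ⟨l - k, by linarith, by linarith⟩

/-- A large difference is close to `n + 1`, up to a reflection. -/
theorem Far.rung (h : Far n x) : Near n (x - (n + 1)) ∨ Near n (-x - (n + 1)) := by
  obtain ⟨k, h1, h2⟩ := h
  rcases le_total (x + 3 * n * k) (2 * n - 1) with h3 | h3
  · exact Or.inl ⟨k, by linarith, by linarith⟩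
  · exact Or.inr ⟨1 - k, by linarith, by linarith⟩

theorem Jn.of_eq (hn : 2 ≤ n) : Jn n (n + 1) := ⟨0, by linarith, by linarith⟩

variable {V : Type*} {G H : SimpleGraph V} {c : V → ℤ}

theorem IsCol.neg (h : IsCol n G c) : IsCol n G (fun v => -c v) := by
  intro u v huv
  have := (h u v huv).neg
  have e : -c v - -c u = -(c v - c u) := by ring
  show Jn n (-c v - -c u)
  rw [e]
  exact this

theorem IsCol.add (h : IsCol n G c) (t : ℤ) : IsCol n G (fun v => c v + t) := by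
  intro u v huv
  have := h u v huv
  have e : c v + t - (c u + t) = c v - c u := by ring
  show Jn n (c v + t - (c u + t))
  rw [e]
  exact this

theorem IsCol.mono (h : IsCol n G c) (hle : H ≤ G) : IsCol n H c := fun u v huv => h u v (hle huv)

theorem ColN.mono (h : ColN n G) (hle : H ≤ G) : ColN n H := by
  obtain ⟨c, h⟩ := h
  exact ⟨c, h.mono hle⟩

/-- Two colourings of the two sides, cut edges satisfied. -/
theorem glue_col (X : V → Prop) {c1 c2 : V → ℤ} (h1 : IsCol n (side G X) c1)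
    (h2 : IsCol n (side G fun v => ¬ X v) c2)
    (hcut : ∀ u v, X u → ¬ X v → G.Adj u v → Jn n (c2 v - c1 u)) :
    ∃ c, IsCol n G c ∧ (∀ v, X v → c v = c1 v) ∧ ∀ v, ¬ X v → c v = c2 v := by
  classical
  refine ⟨fun v => if X v then c1 v else c2 v, ?_, fun v hv => if_pos hv, fun v hv => if_neg hv⟩
  intro u v huv
  by_cases hu : X u <;> by_cases hv : X v
  · simp only [if_pos hu, if_pos hv]
    exact h1 u v ⟨huv, hu, hv⟩
  · simp only [if_pos hu, if_neg hv]
    exact hcut u v hu hv huv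
  · simp only [if_neg hu, if_pos hv]
    have := (hcut v u hv hu huv.symm).neg
    rwa [neg_sub] at this
  · simp only [if_neg hu, if_neg hv]
    exact h2 u v ⟨huv, hu, hv⟩

/-- **Gluing over two edges.** -/
theorem glueN2 (hn : 2 ≤ n) (X : V → Prop) {a1 a2 b1 b2 : V} {c1 c2 : V → ℤ}
    (h1 : IsCol n (side G X) c1) (h2 : IsCol n (side G fun v => ¬ X v) c2)
    (hcut : ∀ u v, X u → ¬ X v → G.Adj u v → (u = a1 ∧ v = b1) ∨ (u = a2 ∧ v = b2))
    (hd : Near n ((c2 b2 - c2 b1) - (c1 a2 - c1 a1))) :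
    ∃ c, IsCol n G c ∧ ∀ v, X v → c v = c1 v := by
  obtain ⟨k, hk1, hk2⟩ := hd
  obtain ⟨j, hj1, hj2, hj3, hj4⟩ : ∃ j : ℤ, n + 1 ≤ j ∧ j ≤ 2 * n - 1 ∧
      n + 1 ≤ j + ((c2 b2 - c2 b1) - (c1 a2 - c1 a1) + 3 * n * k) ∧
      j + ((c2 b2 - c2 b1) - (c1 a2 - c1 a1) + 3 * n * k) ≤ 2 * n - 1 := by
    rcases le_total 0 ((c2 b2 - c2 b1) - (c1 a2 - c1 a1) + 3 * n * k) with h5 | h5
    · exact ⟨n + 1, by linarith, by linarith, by linarith, by linarith⟩
    · exact ⟨2 * n - 1, by linarith, by linarith, by linarith, by linarith⟩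
  obtain ⟨c, g1, g2, -⟩ := glue_col X h1 (h2.add (c1 a1 - c2 b1 + j)) (by
    intro u v hu hv huv
    rcases hcut u v hu hv huv with ⟨rfl, rfl⟩ | ⟨rfl, rfl⟩
    · exact ⟨0, by linarith, by linarith⟩
    · exact ⟨k, by linarith, by linarith⟩)
  exact ⟨c, g1, g2⟩

/-- Gluing over one edge. -/
theorem glueN1 (hn : 2 ≤ n) (X : V → Prop) {a b : V} (h1 : ColN n (side G X))
    (h2 : ColN n (side G fun v => ¬ X v))
    (hcut : ∀ u v, X u → ¬ X v → G.Adj u v → u = a ∧ v = b) : ColN n G := by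
  obtain ⟨c1, h1⟩ := h1
  obtain ⟨c2, h2⟩ := h2
  obtain ⟨c, g1, -⟩ := glueN2 hn X (a1 := a) (a2 := a) (b1 := b) (b2 := b) h1 h2
    (fun u v hu hv huv => Or.inl (hcut u v hu hv huv)) ⟨0, by linarith, by linarith⟩
  exact ⟨c, g1⟩

end Pool.Agent.CutN
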