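import Mathlib
import Pool.Agent.Work.MP_392c8e_co_uni.ColN

/-!
# The vectors of colours which a side accepts

Let `X` be a side of a cut with ends `a i`.  `Acc s G X a y` says that the side has a strict
colouring with heights in `[0, s)` in which the end `a i` has the colour `y i`.  Colourings at
level `n` of the side with a claw, with a claw with a subdivided edge, and with an edge between two
of the three ends give all vectors of colours, with heights less than `2 n`.
-/

namespace Pool.Agent.CutN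

open Pool.Agent.Red (side side_le)

variable {V : Type*} {G H : SimpleGraph V} {n s : ℤ}

/-- Strict colourings with integer heights. -/
def StrZ (H : SimpleGraph V) (c : V → ZMod 3) (t : V → ℤ) : Prop :=
  ∀ u v, H.Adj u v → (c v = c u + 1 ∧ t u < t v) ∨ (c u = c v + 1 ∧ t v < t u)

theorem StrZ.mono {c : V → ZMod 3} {t : V → ℤ} (h : StrZ H c t) (hle : G ≤ H) : StrZ G c t :=
  fun u v huv => h u v (hle huv)

theorem StrZ.addc {c : V → ZMod 3} {t : V → ℤ} (h : StrZ H c t) (x : ZMod 3) :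
    StrZ H (fun v => c v + x) t := by
  intro u v huv
  rcases h u v huv with ⟨h1, h2⟩ | ⟨h1, h2⟩
  · exact Or.inl ⟨by show c v + x = c u + x + 1; rw [h1]; ring, h2⟩
  · exact Or.inr ⟨by show c u + x = c v + x + 1; rw [h1]; ring, h2⟩

theorem StrZ.refl {c : V → ZMod 3} {t : V → ℤ} (h : StrZ H c t) (x : ℤ) :
    StrZ H (fun v => - c v) (fun v => x - t v) := by
  intro u v huv
  rcases h u v huv with ⟨h1, h2⟩ | ⟨h1, h2⟩
  · refine Or.inr ⟨?_, ?_⟩
    · show - c u = - c v + 1
      rw [h1]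
      ring
    · show x - t v < x - t u
      linarith
  · refine Or.inl ⟨?_, ?_⟩
    · show - c v = - c u + 1
      rw [h1]
      ring
    · show x - t u < x - t v
      linarith

/-- Adjacent vertices have different colours. -/
theorem StrZ.ne {c : V → ZMod 3} {t : V → ℤ} (h : StrZ H c t) {u v : V} (huv : H.Adj u v) :
    c u ≠ c v := by
  intro h3
  have key : ∀ x : ZMod 3, x ≠ x + 1 := by decide
  rcases h u v huv with ⟨h1, -⟩ | ⟨h1, -⟩
  · rw [← h3] at h1
    exact key _ h1
  · rw [h3] at h1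
    exact key _ h1

/-- **Cutting the circle at `p`.** -/
theorem IsCol.strZ (hn : 0 < n) {q : V → ℤ} (h : IsCol n H q) (p : ℤ) :
    StrZ H (fun v => (((q v - p) / n : ℤ) : ZMod 3)) (fun v => (q v - p) % n) := by
  intro u v huv
  obtain ⟨k, h1, h2⟩ := h u v huv
  have e1 := Int.emod_add_mul_ediv (q u - p) n
  have e2 := Int.emod_add_mul_ediv (q v - p) n
  have f1 := Int.emod_nonneg (q u - p) hn.ne'
  have f2 := Int.emod_lt_of_pos (q u - p) hn
  have f3 := Int.emod_nonneg (q v - p) hn.ne'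
  have f4 := Int.emod_lt_of_pos (q v - p) hn
  have hcast : ∀ (a b : ℤ) (m : ℤ), b = a + 1 - 3 * m →
      ((b : ℤ) : ZMod 3) = (a : ZMod 3) + 1 := by
    intro a b m hab
    rw [hab]
    push_cast
    have h3 : (3 : ZMod 3) = 0 := by decide
    rw [h3]
    ring
  have d1 : q v - q u = (q v - p) - (q u - p) := by ring
  rw [d1] at h1 h2
  simp only
  generalize (q u - p) / n = a at *
  generalize (q v - p) / n = b at *
  generalize (q u - p) % n = r at *
  generalize (q v - p) % n = w at *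
  have h3 : n + 1 ≤ (w - r) + n * (b - a + 3 * k) := by
    rw [← e1, ← e2] at h1
    linarith
  have h4 : (w - r) + n * (b - a + 3 * k) ≤ 2 * n - 1 := by
    rw [← e1, ← e2] at h2
    linarith
  have h5 : b - a + 3 * k = 1 ∨ b - a + 3 * k = 2 := by
    have h6 : 0 < b - a + 3 * k := by
      by_contra h7
      have h8 : n * (b - a + 3 * k) ≤ 0 := mul_nonpos_of_nonneg_of_nonpos hn.le (by omega)
      linarith
    have h7 : b - a + 3 * k < 3 := by
      by_contra h8
      have h9 : n * 3 ≤ n * (b - a + 3 * k) := mul_le_mul_of_nonneg_left (by omega) hn.le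
      linarith
    omega
  rcases h5 with h5 | h5
  · left
    rw [h5] at h3 h4
    exact ⟨hcast a b k (by omega), by linarith⟩
  · right
    rw [h5] at h3 h4
    exact ⟨hcast b a (1 - k) (by omega), by linarith⟩

/-- A neighbour of the point at which the circle is cut has colour one. -/
theorem colour_one (hn : 0 < n) {x : ℤ} (h : Jn n x) : ((x / n : ℤ) : ZMod 3) = 1 := by
  obtain ⟨k, h1, h2⟩ := h
  have e1 := Int.emod_add_mul_ediv x n
  have f1 := Int.emod_nonneg x hn.ne'
  have f2 := Int.emod_lt_of_pos x hn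
  generalize x / n = a at *
  generalize x % n = r at *
  have h3 : n + 1 ≤ r + n * (a + 3 * k) := by
    rw [← e1] at h1
    linarith
  have h4 : r + n * (a + 3 * k) ≤ 2 * n - 1 := by
    rw [← e1] at h2
    linarith
  have h5 : a + 3 * k = 1 := by
    have h6 : 0 < a + 3 * k := by
      by_contra h7
      have h8 : n * (a + 3 * k) ≤ 0 := mul_nonpos_of_nonneg_of_nonpos hn.le (by omega)
      linarith
    have h7 : a + 3 * k < 2 := by
      by_contra h8
      have h9 : n * 2 ≤ n * (a + 3 * k) := mul_le_mul_of_nonneg_left (by omega) hn.le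
      linarith
    omega
  have h6 : a = 1 + 3 * (-k) := by omega
  rw [h6]
  push_cast
  have h3 : (3 : ZMod 3) = 0 := by decide
  rw [h3]
  ring

/-- The side `X` has a strict colouring with heights in `[0, s)` and with the colours `y` at the
ends. -/
def Acc (s : ℤ) (G : SimpleGraph V) (X : V → Prop) {k : ℕ} (a : Fin k → V) (y : Fin k → ZMod 3) :
    Prop :=
  ∃ (c : V → ZMod 3) (t : V → ℤ), StrZ (side G X) c t ∧ (∀ v, 0 ≤ t v ∧ t v < s) ∧
    ∀ i, c (a i) = y i

section

variable {X : V → Prop} {k : ℕ} {a : Fin k → V} {y : Fin k → ZMod 3}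

theorem Acc.mono (h : Acc n G X a y) (hns : n ≤ s) : Acc s G X a y := by
  obtain ⟨c, t, h1, h2, h3⟩ := h
  exact ⟨c, t, h1, fun v => ⟨(h2 v).1, (h2 v).2.trans_le hns⟩, h3⟩

theorem Acc.addc (h : Acc s G X a y) (x : ZMod 3) : Acc s G X a fun i => y i + x := by
  obtain ⟨c, t, h1, h2, h3⟩ := h
  exact ⟨_, t, h1.addc x, h2, fun i => by show c (a i) + x = _; rw [h3]⟩

theorem Acc.refl (h : Acc s G X a y) : Acc s G X a fun i => - y i := by
  obtain ⟨c, t, h1, h2, h3⟩ := h
  refine ⟨_, _, h1.refl (s - 1), fun v => ?_, fun i => by show - c (a i) = _; rw [h3]⟩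
  have := h2 v
  constructor
  · show 0 ≤ s - 1 - t v
    linarith
  · show s - 1 - t v < s
    linarith

theorem Acc.congr {y' : Fin k → ZMod 3} (h : Acc s G X a y) (e : ∀ i, y' i = y i) :
    Acc s G X a y' := by
  have : y' = y := funext e
  rw [this]
  exact h

/-- The colours at the ends after cutting a colouring of a larger graph. -/
theorem acc_of_isCol (hn : 0 < n) {q : V → ℤ} (h : IsCol n H q) (hle : side G X ≤ H) (p : ℤ) :
    Acc n G X a fun i => (((q (a i) - p) / n : ℤ) : ZMod 3) :=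
  ⟨_, _, (h.strZ hn p).mono hle, fun v => ⟨Int.emod_nonneg _ hn.ne', Int.emod_lt_of_pos _ hn⟩,
    fun i => rfl⟩

/-- **Claw**: the constant vectors. -/
theorem acc_claw (hn : 0 < n) {q : V → ℤ} (h : IsCol n H q) (hle : side G X ≤ H) {z : V}
    (hz : ∀ i, H.Adj z (a i)) (x : ZMod 3) : Acc n G X a fun _ => x := by
  refine ((acc_of_isCol hn h hle (q z) (a := a)).addc (x - 1)).congr fun i => ?_
  rw [colour_one hn (h z (a i) (hz i))]
  ring

end

section

variable {X : V → Prop} {a : Fin 3 → V} {y : Fin 3 → ZMod 3}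

theorem fin3_all {i j k : Fin 3} (hij : i ≠ j) (hik : i ≠ k) (hjk : j ≠ k) :
    ∀ l : Fin 3, l = i ∨ l = j ∨ l = k := by
  revert i j k
  decide

/-- **Claw with a subdivided edge**: the vectors with two equal entries. -/
theorem acc_V (hn : 0 < n) {q : V → ℤ} (h : IsCol n H q) (hle : side G X ≤ H) {z u : V}
    {i j k : Fin 3} (hij : i ≠ j) (hik : i ≠ k) (hjk : j ≠ k)
    (hj : H.Adj z (a j)) (hk : H.Adj z (a k)) (hu : H.Adj z u) (hi : H.Adj u (a i))
    (h1 : y i ≠ y j) (h2 : y j = y k) : Acc n G X a y := by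
  have hall := fin3_all hij hik hjk
  have hR := acc_of_isCol hn h hle (q z) (a := a)
  have ej := colour_one hn (h z _ hj)
  have ek := colour_one hn (h z _ hk)
  have eu := colour_one hn (h z _ hu)
  have ei := (h.strZ hn (q z)).ne hi
  rw [eu] at ei
  have e1 : ∀ p x r : ZMod 3, 1 ≠ p → x ≠ r →
      (x = p + (r - 1) ∧ r = 1 + (r - 1)) ∨ (x = - p + (r + 1) ∧ r = - 1 + (r + 1)) := by decide
  rcases e1 _ (y i) (y j) ei h1 with ⟨e2, e3⟩ | ⟨e2, e3⟩
  · refine (hR.addc (y j - 1)).congr fun l => ?_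
    rcases hall l with rfl | rfl | rfl
    · exact e2
    · rw [ej]
      exact e3
    · rw [ek, ← h2]
      exact e3
  · refine (hR.refl.addc (y j + 1)).congr fun l => ?_
    rcases hall l with rfl | rfl | rfl
    · exact e2
    · rw [ej]
      exact e3
    · rw [ek, ← h2]
      exact e3

/-- Among three different integers, every number of smaller ones occurs. -/
theorem exists_rank {r0 r1 r2 : ℤ} (h01 : r0 ≠ r1) (h02 : r0 ≠ r2) (h12 : r1 ≠ r2) (x : ZMod 3) :
    ∃ p : ℤ, (p = r0 ∨ p = r1 ∨ p = r2) ∧ ((if r0 < p then (1 : ZMod 3) else 0) +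
      (if r1 < p then 1 else 0) + (if r2 < p then 1 else 0) = x) := by
  have key : ∀ x : ZMod 3, x = 0 ∨ x = 1 ∨ x = 2 := by decide
  -- the values in increasing order
  have main : ∀ (f : ℤ → ZMod 3) (s0 s1 s2 : ℤ), f s0 = 0 → f s1 = 1 → f s2 = 2 →
      ∃ p : ℤ, (p = s0 ∨ p = s1 ∨ p = s2) ∧ f p = x := by
    intro f s0 s1 s2 e0 e1 e2
    rcases key x with rfl | rfl | rfl
    · exact ⟨s0, Or.inl rfl, e0⟩
    · exact ⟨s1, Or.inr (Or.inl rfl), e1⟩
    · exact ⟨s2, Or.inr (Or.inr rfl), e2⟩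
  set f : ℤ → ZMod 3 := fun p => (if r0 < p then (1 : ZMod 3) else 0) +
      (if r1 < p then 1 else 0) + (if r2 < p then 1 else 0) with hf
  have hfp : ∀ p, f p = (if r0 < p then (1 : ZMod 3) else 0) +
      (if r1 < p then 1 else 0) + (if r2 < p then 1 else 0) := fun p => rfl
  have one : (1 : ZMod 3) + 1 = 2 := by decide
  rcases lt_or_gt_of_ne h01 with g1 | g1 <;> rcases lt_or_gt_of_ne h02 with g2 | g2 <;>
    rcases lt_or_gt_of_ne h12 with g3 | g3
  · obtain ⟨p, hp, e⟩ := main f r0 r1 r2 (by rw [hfp]; simp [g1.le, g2.le, not_lt.2 g1.le, not_lt.2 g2.le])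
      (by rw [hfp]; simp [g1, not_lt.2 g3.le]) (by rw [hfp]; simp [g2, g3, one])
    exact ⟨p, by tauto, e⟩
  · obtain ⟨p, hp, e⟩ := main f r0 r2 r1 (by rw [hfp]; simp [not_lt.2 g1.le, not_lt.2 g2.le])
      (by rw [hfp]; simp [g2, not_lt.2 g3.le]) (by rw [hfp]; simp [g1, g3, one])
    exact ⟨p, by tauto, e⟩
  · exact absurd (g2.trans (g1.trans g3)) (lt_irrefl _)
  · obtain ⟨p, hp, e⟩ := main f r2 r0 r1 (by rw [hfp]; simp [not_lt.2 g2.le, not_lt.2 g3.le])
      (by rw [hfp]; simp [g2, not_lt.2 g1.le]) (by rw [hfp]; simp [g1, g3, one])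
    exact ⟨p, by tauto, e⟩
  · obtain ⟨p, hp, e⟩ := main f r1 r0 r2 (by rw [hfp]; simp [not_lt.2 g1.le, not_lt.2 g3.le])
      (by rw [hfp]; simp [g1, not_lt.2 g2.le]) (by rw [hfp]; simp [g2, g3, one])
    exact ⟨p, by tauto, e⟩
  · exact absurd (g1.trans (g2.trans g3)) (lt_irrefl _)
  · obtain ⟨p, hp, e⟩ := main f r1 r2 r0 (by rw [hfp]; simp [not_lt.2 g1.le, not_lt.2 g3.le])
      (by rw [hfp]; simp [g3, not_lt.2 g2.le]) (by rw [hfp]; simp [g1, g2, one])
    exact ⟨p, by tauto, e⟩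
  · obtain ⟨p, hp, e⟩ := main f r2 r1 r0 (by rw [hfp]; simp [not_lt.2 g2.le, not_lt.2 g3.le])
      (by rw [hfp]; simp [g3, not_lt.2 g1.le]) (by rw [hfp]; simp [g1, g2, one])
    exact ⟨p, by tauto, e⟩

/-- The quotient after a translation. -/
theorem div_shift {m : ℤ} (hm : 0 < m) (x : ℤ) {p : ℤ} (h0 : 0 ≤ p) (h1 : p < m) :
    (x - p) / m = x / m - if x % m < p then 1 else 0 := by
  have e1 := Int.emod_add_mul_ediv x m
  have f1 := Int.emod_nonneg x hm.ne'
  have f2 := Int.emod_lt_of_pos x hm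
  by_cases h : x % m < p
  · rw [if_pos h]
    have e : x - p = (x % m - p + m) + (x / m - 1) * m := by linarith
    rw [e, Int.add_mul_ediv_right _ _ hm.ne', Int.ediv_eq_zero_of_lt (by linarith) (by linarith)]
    ring
  · rw [if_neg h]
    have e : x - p = (x % m - p) + (x / m) * m := by linarith
    rw [e, Int.add_mul_ediv_right _ _ hm.ne', Int.ediv_eq_zero_of_lt (by linarith) (by linarith)]
    ring

/-- Doubling the heights gives one vertex its own height. -/
theorem isCol_double {q : V → ℤ} (h : IsCol n H q) (w : V) [DecidableEq V] :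
    IsCol (2 * n) H fun v => 2 * q v + if v = w then 1 else 0 := by
  intro u v huv
  obtain ⟨k, h1, h2⟩ := h u v huv
  have e1 : (0 : ℤ) ≤ (if u = w then 1 else 0) ∧ (if u = w then (1 : ℤ) else 0) ≤ 1 := by
    split_ifs <;> constructor <;> norm_num
  have e2 : (0 : ℤ) ≤ (if v = w then 1 else 0) ∧ (if v = w then (1 : ℤ) else 0) ≤ 1 := by
    split_ifs <;> constructor <;> norm_num
  refine ⟨k, ?_, ?_⟩
  · show 2 * n + 1 ≤ 2 * q v + _ - (2 * q u + _) + 3 * (2 * n) * k
    linarith [e1.1, e1.2, e2.1, e2.2]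
  · show 2 * q v + _ - (2 * q u + _) + 3 * (2 * n) * k ≤ 2 * (2 * n) - 1
    linarith [e1.1, e1.2, e2.1, e2.2]

/-- **An edge between two ends**: the vectors with three different entries. -/
theorem acc_X (hn : 0 < n) {q : V → ℤ} (h : IsCol n H q) (hle : side G X ≤ H)
    {i j k : Fin 3} (hij : i ≠ j) (hik : i ≠ k) (hjk : j ≠ k) (ia : Function.Injective a)
    (hadj : H.Adj (a i) (a j)) (h1 : y i ≠ y j) (h2 : y i ≠ y k) (h3 : y j ≠ y k) :
    Acc (2 * n) G X a y := by
  classical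
  have hall := fin3_all hij hik hjk
  have hm : (0 : ℤ) < 2 * n := by linarith
  set q' : V → ℤ := fun v => 2 * q v + if v = a k then 1 else 0 with hq'
  have hc : IsCol (2 * n) H q' := isCol_double h (a k)
  have ei : q' (a i) = 2 * q (a i) := by
    show 2 * q (a i) + _ = _
    rw [if_neg fun h5 => hik (ia h5)]
    ring
  have ej : q' (a j) = 2 * q (a j) := by
    show 2 * q (a j) + _ = _
    rw [if_neg fun h5 => hjk (ia h5)]
    ring
  have ek : q' (a k) = 2 * q (a k) + 1 := by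
    show 2 * q (a k) + _ = _
    rw [if_pos rfl]
  -- the residues
  have dv : ∀ x : ℤ, x % (2 * n) + 2 * n * (x / (2 * n)) = x := fun x =>
    Int.emod_add_mul_ediv x (2 * n)
  have rij : q' (a i) % (2 * n) ≠ q' (a j) % (2 * n) := by
    intro h5
    have d1 := dv (q' (a i))
    have d2 := dv (q' (a j))
    rw [h5] at d1
    obtain ⟨l, g1, g2⟩ := h _ _ hadj
    have d3 : 2 * n * (q' (a j) / (2 * n) - q' (a i) / (2 * n)) = 2 * (q (a j) - q (a i)) := by
      linarith
    have d4 : n * (q' (a j) / (2 * n) - q' (a i) / (2 * n)) = q (a j) - q (a i) := by linarith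
    rw [← d4] at g1 g2
    have d5 : n * 1 < n * (q' (a j) / (2 * n) - q' (a i) / (2 * n) + 3 * l) := by linarith
    have d6 : n * (q' (a j) / (2 * n) - q' (a i) / (2 * n) + 3 * l) < n * 2 := by linarith
    have d7 := lt_of_mul_lt_mul_left d5 hn.le
    have d8 := lt_of_mul_lt_mul_left d6 hn.le
    omega
  have par : ∀ x z : ℤ, (2 * x) % (2 * n) ≠ (2 * z + 1) % (2 * n) := by
    intro x z h5
    have d1 := dv (2 * x)
    have d2 := dv (2 * z + 1)
    rw [h5] at d1
    have d3 : 2 * (n * ((2 * z + 1) / (2 * n)) - n * ((2 * x) / (2 * n)) + x - z) = 1 := by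
      linarith
    omega
  have rik : q' (a i) % (2 * n) ≠ q' (a k) % (2 * n) := by
    rw [ei, ek]
    exact par _ _
  have rjk : q' (a j) % (2 * n) ≠ q' (a k) % (2 * n) := by
    rw [ej, ek]
    exact par _ _
  -- the threshold
  obtain ⟨p, hp, hsum⟩ := exists_rank rij rik rjk
    (((q' (a i) / (2 * n) + q' (a j) / (2 * n) + q' (a k) / (2 * n) : ℤ) : ZMod 3))
  have hp0 : 0 ≤ p ∧ p < 2 * n := by
    rcases hp with rfl | rfl | rfl
    · exact ⟨Int.emod_nonneg _ hm.ne', Int.emod_lt_of_pos _ hm⟩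
    · exact ⟨Int.emod_nonneg _ hm.ne', Int.emod_lt_of_pos _ hm⟩
    · exact ⟨Int.emod_nonneg _ hm.ne', Int.emod_lt_of_pos _ hm⟩
  have hR := acc_of_isCol hm hc hle p (a := a)
  have cv : ∀ x : ℤ, (((x - p) / (2 * n) : ℤ) : ZMod 3) =
      ((x / (2 * n) : ℤ) : ZMod 3) - if x % (2 * n) < p then 1 else 0 := by
    intro x
    rw [div_shift hm x hp0.1 hp0.2]
    push_cast
    rfl
  have s0 : (((q' (a i) - p) / (2 * n) : ℤ) : ZMod 3) + (((q' (a j) - p) / (2 * n) : ℤ) : ZMod 3) +
      (((q' (a k) - p) / (2 * n) : ℤ) : ZMod 3) = 0 := by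
    rw [cv, cv, cv]
    push_cast at hsum
    linear_combination -hsum
  have hne := (hc.strZ hm p).ne hadj
  -- the rest is a finite check
  have fin : ∀ x0 x1 x2 y0 y1 y2 : ZMod 3, x0 + x1 + x2 = 0 → x0 ≠ x1 → y0 ≠ y1 → y0 ≠ y2 →
      y1 ≠ y2 → (y0 = x0 + (y0 - x0) ∧ y1 = x1 + (y0 - x0) ∧ y2 = x2 + (y0 - x0)) ∨
        (y0 = - x0 + (y0 + x0) ∧ y1 = - x1 + (y0 + x0) ∧ y2 = - x2 + (y0 + x0)) := by
    decide +kernel
  rcases fin _ _ _ _ _ _ s0 hne h1 h2 h3 with ⟨g1, g2, g3⟩ | ⟨g1, g2, g3⟩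
  · refine (hR.addc (y i - (((q' (a i) - p) / (2 * n) : ℤ) : ZMod 3))).congr fun l => ?_
    rcases hall l with e | e | e <;> rw [e]
    · exact g1
    · exact g2
    · exact g3
  · refine (hR.refl.addc (y i + (((q' (a i) - p) / (2 * n) : ℤ) : ZMod 3))).congr fun l => ?_
    rcases hall l with e | e | e <;> rw [e]
    · exact g1
    · exact g2
    · exact g3

/-- Every vector is constant, or has exactly two equal entries, or three different ones. -/
theorem vec_cases (y : Fin 3 → ZMod 3) : (∀ l, y l = y 0) ∨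
    (∃ i j k : Fin 3, i ≠ j ∧ i ≠ k ∧ j ≠ k ∧ y i ≠ y j ∧ y j = y k) ∨
    ∀ i j : Fin 3, i ≠ j → y i ≠ y j := by
  by_cases h01 : y 0 = y 1 <;> by_cases h02 : y 0 = y 2 <;> by_cases h12 : y 1 = y 2
  · left
    intro l
    fin_cases l
    · rfl
    · exact h01.symm
    · exact h02.symm
  · exact absurd (h01.symm.trans h02) h12
  · exact absurd (h01.trans h12) h02
  · exact Or.inr (Or.inl ⟨2, 0, 1, by decide, by decide, by decide, fun h => h02 h.symm, h01⟩)
  · exact absurd (h02.trans h12.symm) h01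
  · exact Or.inr (Or.inl ⟨1, 0, 2, by decide, by decide, by decide, fun h => h01 h.symm, h02⟩)
  · exact Or.inr (Or.inl ⟨0, 1, 2, by decide, by decide, by decide, h01, h12⟩)
  · right
    right
    intro i j hij
    fin_cases i <;> fin_cases j
    · exact absurd rfl hij
    · exact h01
    · exact h02
    · exact fun h => h01 h.symm
    · exact absurd rfl hij
    · exact h12
    · exact fun h => h02 h.symm
    · exact fun h => h12 h.symm
    · exact absurd rfl hij

/-- **All vectors.** -/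
theorem acc_all (hn : 0 < n) (ia : Function.Injective a)
    (h0 : ∃ (H : SimpleGraph V) (q : V → ℤ) (z : V), IsCol n H q ∧ side G X ≤ H ∧
      ∀ i, H.Adj z (a i))
    (h1 : ∀ i j k : Fin 3, i ≠ j → i ≠ k → j ≠ k → ∃ (H : SimpleGraph V) (q : V → ℤ) (z u : V),
      IsCol n H q ∧ side G X ≤ H ∧ H.Adj z (a j) ∧ H.Adj z (a k) ∧ H.Adj z u ∧ H.Adj u (a i))
    (h2 : ∃ (H : SimpleGraph V) (q : V → ℤ) (i j : Fin 3), IsCol n H q ∧ side G X ≤ H ∧
      H.Adj (a i) (a j)) (y : Fin 3 → ZMod 3) : Acc (2 * n) G X a y := by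
  rcases vec_cases y with h | ⟨i, j, k, hij, hik, hjk, g1, g2⟩ | h
  · obtain ⟨H, q, z, g1, g2, g3⟩ := h0
    exact ((acc_claw hn g1 g2 g3 (y 0)).mono (by linarith)).congr h
  · obtain ⟨H, q, z, u, e1, e2, e3, e4, e5, e6⟩ := h1 i j k hij hik hjk
    exact (acc_V hn e1 e2 hij hik hjk e3 e4 e5 e6 g1 g2).mono (by linarith)
  · obtain ⟨H, q, i, j, e1, e2, e3⟩ := h2
    have hij : i ≠ j := by
      rintro rfl
      exact e3.ne rfl
    obtain ⟨k, hik, hjk⟩ : ∃ k : Fin 3, i ≠ k ∧ j ≠ k := by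
      revert hij
      clear e3
      revert i j
      decide
    exact acc_X hn e1 e2 hij hik hjk ia e3 (h i j hij) (h i k hik) (h j k hjk)

end

end Pool.Agent.CutN
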