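import Mathlib
import Pool.Agent.Work.MP_392c8e_co_uni.ColN

/-!
# Four alternating rungs

Three strands leave one side of a cut with three edges.  A rung between two strands is an edge whose
ends subdivide the two strands.  Consider a word of four rungs, between the strands `1, 2`, `2, 3`,
`1, 2`, `2, 3` (from the outside to the inside), in a colouring at level `N`.  Then the eight ends
of the rungs can be recoloured, without any change outside, so that the colours of the inner ends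
of the strands `1` and `2` are at distance at least `K`; here `N` is large compared to `K`.
-/

namespace Pool.Agent.CutN

/-- The residue modulo `3 N` is at distance at least `M` from zero. -/
def Apart (N M x : ℤ) : Prop := ∀ k : ℤ, M ≤ x + 3 * N * k ∨ x + 3 * N * k ≤ -M

variable {N M K x y : ℤ}

theorem Apart.neg (h : Apart N M x) : Apart N M (-x) := by
  intro k
  rcases h (-k) with h1 | h1
  · exact Or.inr (by linarith)
  · exact Or.inl (by linarith)

theorem Apart.mono {M' : ℤ} (h : Apart N M x) (hM : M' ≤ M) : Apart N M' x := by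
  intro k
  rcases h k with h1 | h1
  · exact Or.inl (by linarith)
  · exact Or.inr (by linarith)

theorem Apart.shift (h : Apart N M x) (j : ℤ) : Apart N M (x + 3 * N * j) := by
  intro k
  have := h (j + k)
  have e : x + 3 * N * (j + k) = x + 3 * N * j + 3 * N * k := by ring
  rwa [e] at this

theorem Jn.shift (h : Jn N x) (j : ℤ) : Jn N (x + 3 * N * j) := by
  obtain ⟨k, h1, h2⟩ := h
  exact ⟨k - j, by linarith, by linarith⟩

theorem Jn.shift_iff (j : ℤ) : Jn N (x + 3 * N * j) ↔ Jn N x := by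
  refine ⟨fun h => ?_, fun h => h.shift j⟩
  have := h.shift (-j)
  have e : x + 3 * N * j + 3 * N * -j = x := by ring
  rwa [e] at this

theorem Jn.of_mem (h1 : N + 1 ≤ x) (h2 : x ≤ 2 * N - 1) : Jn N x := ⟨0, by linarith, by linarith⟩

theorem Jn.of_neg (h1 : N + 1 ≤ -x) (h2 : -x ≤ 2 * N - 1) : Jn N x := by
  have := (Jn.of_mem h1 h2).neg
  rwa [neg_neg] at this

/-- A colour can be lifted next to a given neighbour. -/
theorem Jn.lift (h : Jn N (x - y)) : ∃ x' j : ℤ, x = x' + 3 * N * j ∧ N + 1 ≤ x' - y ∧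
    x' - y ≤ 2 * N - 1 := by
  obtain ⟨k, h1, h2⟩ := h
  exact ⟨x + 3 * N * k, -k, by ring, by linarith, by linarith⟩

/-- Adjacent colours at distance less than three turns. -/
theorem Jn.cases (hN : 2 ≤ N) (h : Jn N x) (h1 : -(4 * N) ≤ x) (h2 : x ≤ 4 * N) :
    (N + 1 ≤ x ∧ x ≤ 2 * N - 1) ∨ (N + 1 ≤ -x ∧ -x ≤ 2 * N - 1) ∨
      (x = 4 * N ∧ False) := by
  obtain ⟨k, h3, h4⟩ := h
  have k1 : k < 2 := by
    by_contra hk
    push Not at hk
    nlinarith
  have k2 : -2 < k := by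
    by_contra hk
    push Not at hk
    nlinarith
  obtain rfl | rfl | rfl : k = -1 ∨ k = 0 ∨ k = 1 := by omega
  · exact absurd h3 (by linarith)
  · exact Or.inl ⟨by linarith, by linarith⟩
  · exact Or.inr (Or.inl ⟨by linarith, by linarith⟩)

/-- Every residue has a small representative. -/
theorem exists_small (hN : 0 < N) (x : ℤ) : ∃ j : ℤ, -(3 * N) ≤ 2 * (x + 3 * N * j) ∧
    2 * (x + 3 * N * j) ≤ 3 * N := by
  have h1 := Int.emod_add_mul_ediv x (3 * N)
  have h2 := Int.emod_nonneg x (b := 3 * N) (by linarith)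
  have h3 := Int.emod_lt_of_pos x (b := 3 * N) (by linarith)
  by_cases h : 2 * (x % (3 * N)) ≤ 3 * N
  · refine ⟨-(x / (3 * N)), ?_, ?_⟩
    · have e : x + 3 * N * -(x / (3 * N)) = x % (3 * N) := by linarith
      rw [e]; linarith
    · have e : x + 3 * N * -(x / (3 * N)) = x % (3 * N) := by linarith
      rw [e]; linarith
  · push Not at h
    refine ⟨-(x / (3 * N)) - 1, ?_, ?_⟩
    · have e : x + 3 * N * (-(x / (3 * N)) - 1) = x % (3 * N) - 3 * N := by linarith
      rw [e]; linarith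
    · have e : x + 3 * N * (-(x / (3 * N)) - 1) = x % (3 * N) - 3 * N := by linarith
      rw [e]; linarith

/-- Of two positions at distance between `2 M` and `N` one is apart from a given one. -/
theorem apart_or (hN : 2 * M ≤ N) (hM : 0 ≤ M) {y1 y2 w : ℤ} (h1 : 2 * M ≤ y2 - y1)
    (h2 : y2 - y1 ≤ N) : Apart N M (y1 - w) ∨ Apart N M (y2 - w) := by
  by_contra hc
  push Not at hc
  obtain ⟨c1, c2⟩ := hc
  unfold Apart at c1 c2
  push Not at c1 c2
  obtain ⟨k1, a1, a2⟩ := c1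
  obtain ⟨k2, a3, a4⟩ := c2
  rcases lt_trichotomy k1 k2 with h | h | h
  · nlinarith
  · subst h
    linarith
  · nlinarith

/-- **A rung between two strands which are not close has freedom.**  The strands have the outer
colours `u`, `v`; the inner colour `y` of the second strand can be chosen apart from `w`. -/
theorem rung_free (hN : 2 * M + 4 ≤ N) (hM : 0 ≤ M) {u v : ℤ} (h : Apart N (2 * M + 3) (v - u))
    (w : ℤ) : ∃ x y : ℤ, Jn N (x - u) ∧ Jn N (y - v) ∧ Jn N (x - y) ∧ Apart N M (y - w) := by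
  -- reduction to the case of a small positive difference
  have main : ∀ u v w : ℤ, 2 * M + 3 ≤ v - u → 2 * (v - u) ≤ 3 * N →
      ∃ x y : ℤ, Jn N (x - u) ∧ Jn N (y - v) ∧ Jn N (x - y) ∧ Apart N M (y - w) := by
    intro u v w h1 h2
    by_cases h3 : v - u ≤ N + 1
    · rcases apart_or (N := N) (M := M) (y1 := u + 2 * N + 2) (y2 := v + 2 * N - 1) (w := w)
        (by linarith) hM (by linarith) (by linarith) with h4 | h4
      · exact ⟨u + N + 1, u + 2 * N + 2, Jn.of_mem (by linarith) (by linarith),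
          Jn.of_mem (by linarith) (by linarith), Jn.of_neg (by linarith) (by linarith), h4⟩
      · exact ⟨v + N - 2, v + 2 * N - 1, Jn.of_mem (by linarith) (by linarith),
          Jn.of_mem (by linarith) (by linarith), Jn.of_neg (by linarith) (by linarith), h4⟩
    · push Not at h3
      rcases apart_or (N := N) (M := M) (y1 := v + N + 1) (y2 := v + 2 * N - 1) (w := w)
        (by linarith) hM (by linarith) (by linarith) with h4 | h4
      · exact ⟨v, v + N + 1, Jn.of_mem (by linarith) (by linarith),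
          Jn.of_mem (by linarith) (by linarith), Jn.of_neg (by linarith) (by linarith), h4⟩
      · exact ⟨u + 2 * N - 1, v + 2 * N - 1, Jn.of_mem (by linarith) (by linarith),
          Jn.of_mem (by linarith) (by linarith), Jn.of_neg (by linarith) (by linarith), h4⟩
  obtain ⟨j, h1, h2⟩ := exists_small (N := N) (by linarith) (v - u)
  rcases h j with h3 | h3
  · obtain ⟨x, y, g1, g2, g3, g4⟩ := main u (v + 3 * N * j) w (by linarith) (by linarith)
    refine ⟨x, y, g1, ?_, g3, g4⟩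
    have := g2.shift j
    have e : y - (v + 3 * N * j) + 3 * N * j = y - v := by ring
    rwa [e] at this
  · obtain ⟨x, y, g1, g2, g3, g4⟩ := main (-u) (-(v + 3 * N * j)) (-w) (by linarith)
      (by linarith)
    refine ⟨-x, -y, ?_, ?_, ?_, ?_⟩
    · have := g1.neg
      have e : -(x - -u) = -x - u := by ring
      rwa [e] at this
    · have := g2.neg.shift j
      have e : -(y - -(v + 3 * N * j)) + 3 * N * j = -y - v := by ring
      rwa [e] at this
    · have := g3.neg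
      have e : -(x - y) = -x - -y := by ring
      rwa [e] at this
    · have := g4.neg
      have e : -(y - -w) = -y - w := by ring
      rwa [e] at this

/-- A rung between two strands with the outer colours `u`, `v`; the ends `x`, `y` of the rung are
the new inner colours. -/
def Rung (N u v x y : ℤ) : Prop := Jn N (x - u) ∧ Jn N (y - v) ∧ Jn N (x - y)

theorem Jn.modEq (h : Jn N x) (j : ℤ) (e : x = y + 3 * N * j) : Jn N y := by
  rw [e] at h
  exact (Jn.shift_iff j).1 h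

theorem Apart.modEq (h : Apart N M x) (j : ℤ) (e : x = y + 3 * N * j) : Apart N M y := by
  rw [e] at h
  have := h.shift (-j)
  have e' : y + 3 * N * j + 3 * N * -j = y := by ring
  rwa [e'] at this

theorem Rung.neg {u v x y : ℤ} (h : Rung N u v x y) : Rung N (-u) (-v) (-x) (-y) := by
  obtain ⟨h1, h2, h3⟩ := h
  refine ⟨?_, ?_, ?_⟩
  · have := h1.neg
    have e : -(x - u) = -x - -u := by ring
    rwa [e] at this
  · have := h2.neg
    have e : -(y - v) = -y - -v := by ring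
    rwa [e] at this
  · have := h3.neg
    have e : -(x - y) = -x - -y := by ring
    rwa [e] at this

/-- The four rungs. -/
def Alt (N b1 b2 b3 p1 p2 q2 q3 r1 r2 s2 s3 : ℤ) : Prop :=
  Rung N b1 b2 p1 p2 ∧ Rung N b3 p2 q3 q2 ∧ Rung N p1 q2 r1 r2 ∧ Rung N q3 r2 s3 s2

/-- A number which is not apart from zero is close to a multiple of `3 N`. -/
theorem not_apart (h : ¬ Apart N M x) : ∃ k : ℤ, -M < x + 3 * N * k ∧ x + 3 * N * k < M := by
  unfold Apart at h
  push Not at h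
  obtain ⟨k, h1, h2⟩ := h
  exact ⟨k, h2, h1⟩

/-- Numbers far from the multiples of `3 N`. -/
theorem apart_of (hM : 0 ≤ M) (hMN : M ≤ N) (k : ℤ) (h1 : 3 * N * k + M ≤ x)
    (h2 : x + M ≤ 3 * N * (k + 1)) : Apart N M x := by
  intro l
  rcases lt_trichotomy (k + l) (-1) with h | h | h
  · right
    nlinarith
  · right
    have : l = -1 - k := by linarith
    subst this
    linarith
  · left
    nlinarith

/-- **The tight case.**  All four rungs connect two close strands.  Then the outer colours leave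
room for seven heights, or the two inner colours are apart. -/
theorem tight {b1 b2 b3 p1 p2 q2 q3 r1 r2 s2 s3 M1 M2 M3 M4 : ℤ}
    (hK : 0 ≤ K) (hM1 : 0 ≤ M1) (hM2 : 0 ≤ M2) (hM3 : 0 ≤ M3) (hM4 : 0 ≤ M4)
    (hN : 2 * (M1 + M2 + M3 + M4 + K) + 20 ≤ N)
    (b0 : 0 ≤ b2 - b1) (b1' : b2 - b1 < M1)
    (p11 : N + 1 ≤ p1 - b1) (p12 : p1 - b1 ≤ 2 * N - 1)
    (p21 : N + 1 ≤ p2 - b2) (p22 : p2 - b2 ≤ 2 * N - 1) (pp : Jn N (p1 - p2))
    (c1 : -M2 < b3 - p2) (c2 : b3 - p2 < M2)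
    (q31 : N + 1 ≤ q3 - b3) (q32 : q3 - b3 ≤ 2 * N - 1)
    (q21 : N + 1 ≤ q2 - p2) (q22 : q2 - p2 ≤ 2 * N - 1) (qq : Jn N (q3 - q2))
    (t3 : ¬ Apart N M3 (q2 - p1))
    (r11 : N + 1 ≤ r1 - p1) (r12 : r1 - p1 ≤ 2 * N - 1)
    (r21 : N + 1 ≤ r2 - q2) (r22 : r2 - q2 ≤ 2 * N - 1) (rr : Jn N (r1 - r2))
    (t4 : ¬ Apart N M4 (r2 - q3))
    (s31 : N + 1 ≤ s3 - q3) (s32 : s3 - q3 ≤ 2 * N - 1)
    (s21 : N + 1 ≤ s2 - r2) (s22 : s2 - r2 ≤ 2 * N - 1) (ss : Jn N (s3 - s2)) :
    (3 ≤ b2 - b1 ∧ b3 ≤ b2 + 2 * N - 7 ∧ b2 + 2 * N - (M1 + M2) ≤ b3) ∨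
      Apart N K (s2 - r1) := by
  -- the first rung
  have e1 : N + 1 ≤ p2 - p1 := by
    rcases pp.cases (by linarith) (by linarith) (by linarith) with h | h | h
    · exact absurd h.1 (by linarith)
    · linarith [h.1]
    · exact h.2.elim
  -- the second rung
  have e2 : N + 1 ≤ q2 - q3 := by
    rcases qq.cases (by linarith) (by linarith) (by linarith) with h | h | h
    · exfalso
      exact t3 (apart_of hM3 (by linarith) 0 (by linarith) (by linarith))
    · linarith [h.1]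
    · exact h.2.elim
  -- the third rung
  obtain ⟨k, k1, k2⟩ := not_apart t3
  have kk : k = -1 := by
    have h1 : k < 0 := by
      by_contra hk
      push Not at hk
      nlinarith
    have h2 : -2 < k := by
      by_contra hk
      push Not at hk
      nlinarith
    omega
  subst kk
  have rr' : Jn N (r1 - (r2 - 3 * N)) := rr.modEq (-1) (by ring)
  have e3 : N + 1 ≤ (r2 - 3 * N) - r1 := by
    rcases rr'.cases (by linarith) (by linarith) (by linarith) with h | h | h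
    · exfalso
      exact t4 (apart_of hM4 (by linarith) 0 (by linarith) (by linarith))
    · linarith [h.1]
    · exact h.2.elim
  -- the fourth rung
  obtain ⟨l, l1, l2⟩ := not_apart t4
  have ll : l = -1 := by
    have h1 : l < 0 := by
      by_contra hk
      push Not at hk
      nlinarith
    have h2 : -2 < l := by
      by_contra hk
      push Not at hk
      nlinarith
    omega
  subst ll
  have ss' : Jn N (s3 - (s2 - 3 * N)) := ss.modEq (-1) (by ring)
  rcases ss'.cases (by linarith) (by linarith) (by linarith) with h | h | h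
  · right
    exact apart_of hK (by linarith) 1 (by linarith) (by linarith)
  · left
    exact ⟨by linarith, by linarith, by linarith⟩
  · exact h.2.elim

/-- **The escape.**  With room for seven heights the four rungs can be coloured such that the two
inner colours are apart. -/
theorem escape {b1 b2 b3 : ℤ} {M : ℤ} (hK : 0 ≤ K) (hN : 2 * (M + K) + 20 ≤ N)
    (h1 : 3 ≤ b2 - b1) (h1' : b2 - b1 ≤ M) (h2 : b3 ≤ b2 + 2 * N - 7) (h3 : b2 + 2 * N - M ≤ b3) :
    ∃ p1 p2 q2 q3 r1 r2 s2 s3 : ℤ, Alt N b1 b2 b3 p1 p2 q2 q3 r1 r2 s2 s3 ∧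
      Apart N K (s2 - r1) := by
  refine ⟨b2 + N - 2, b2 + 2 * N - 1, b3 + 2 * N + 2, b3 + N + 1, b2 + 3 * N - 3,
    b3 + 3 * N + 3, b2 + 3 * N - 3 + K, b2 + 4 * N - 2 + K,
    ⟨⟨?_, ?_, ?_⟩, ⟨?_, ?_, ?_⟩, ⟨?_, ?_, ?_⟩, ⟨?_, ?_, ?_⟩⟩, ?_⟩
  · exact Jn.of_mem (by linarith) (by linarith)
  · exact Jn.of_mem (by linarith) (by linarith)
  · exact Jn.of_neg (by linarith) (by linarith)
  · exact Jn.of_mem (by linarith) (by linarith)
  · exact Jn.of_mem (by linarith) (by linarith)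
  · exact Jn.of_neg (by linarith) (by linarith)
  · exact Jn.of_mem (by linarith) (by linarith)
  · exact Jn.of_mem (by linarith) (by linarith)
  · exact ⟨1, by linarith, by linarith⟩
  · exact ⟨0, by linarith, by linarith⟩
  · exact ⟨1, by linarith, by linarith⟩
  · exact Jn.of_mem (by linarith) (by linarith)
  · have e : b2 + 3 * N - 3 + K - (b2 + 3 * N - 3) = K := by ring
    rw [e]
    exact apart_of hK (by linarith) 0 (by linarith) (by linarith)

/-- The tight case, positive orientation, arbitrary representatives. -/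
theorem alt_pos {b1 b2 b3 p1 p2 q2 q3 r1 r2 s2 s3 : ℤ} (hK : 0 ≤ K) (hN : 64 * K + 200 ≤ N)
    (h : Alt N b1 b2 b3 p1 p2 q2 q3 r1 r2 s2 s3)
    (b0 : 0 ≤ b2 - b1) (b1' : b2 - b1 < 16 * K + 45)
    (t2 : ¬ Apart N (8 * K + 21) (p2 - b3)) (t3 : ¬ Apart N (4 * K + 9) (q2 - p1))
    (t4 : ¬ Apart N (2 * K + 3) (r2 - q3)) :
    ∃ p1' p2' q2' q3' r1' r2' s2' s3' : ℤ, Alt N b1 b2 b3 p1' p2' q2' q3' r1' r2' s2' s3' ∧
      Apart N K (s2' - r1') := by
  by_cases t5 : Apart N K (s2 - r1)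
  · exact ⟨p1, p2, q2, q3, r1, r2, s2, s3, h, t5⟩
  obtain ⟨⟨hp1, hp2, pp⟩, ⟨hq3, hq2, qq⟩, ⟨hr1, hr2, rr⟩, ⟨hs3, hs2, ss⟩⟩ := h
  obtain ⟨P1, a1, ep1, p11, p12⟩ := hp1.lift
  obtain ⟨P2, a2, ep2, p21, p22⟩ := hp2.lift
  subst ep1 ep2
  -- the representative of the third outer colour
  obtain ⟨k, k1, k2⟩ := not_apart t2
  obtain ⟨B3, hB3⟩ : ∃ B3, B3 = b3 + 3 * N * (a2 * -1 - k + 2 * a2 - 2 * a2) := ⟨_, rfl⟩
  have eB3 : b3 = B3 + 3 * N * (a2 + k) := by rw [hB3]; ring
  have hq3' : Jn N (q3 - B3) := hq3.modEq (-(a2 + k)) (by rw [hB3]; ring)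
  obtain ⟨Q3, a3, eq3, q31, q32⟩ := hq3'.lift
  have hq2' : Jn N (q2 - P2) := hq2.modEq (-a2) (by ring)
  obtain ⟨Q2, a4, eq2, q21, q22⟩ := hq2'.lift
  subst eq3 eq2
  have hr1' : Jn N (r1 - P1) := hr1.modEq (-a1) (by ring)
  obtain ⟨R1, a5, er1, r11, r12⟩ := hr1'.lift
  have hr2' : Jn N (r2 - Q2) := hr2.modEq (-a4) (by ring)
  obtain ⟨R2, a6, er2, r21, r22⟩ := hr2'.lift
  subst er1 er2
  have hs3' : Jn N (s3 - Q3) := hs3.modEq (-a3) (by ring)
  obtain ⟨S3, a7, es3, s31, s32⟩ := hs3'.lift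
  have hs2' : Jn N (s2 - R2) := hs2.modEq (-a6) (by ring)
  obtain ⟨S2, a8, es2, s21, s22⟩ := hs2'.lift
  subst es3 es2
  have main := tight (N := N) (K := K) (b1 := b1) (b2 := b2) (b3 := B3) (p1 := P1) (p2 := P2)
    (q2 := Q2) (q3 := Q3) (r1 := R1) (r2 := R2) (s2 := S2) (s3 := S3) (M1 := 16 * K + 45)
    (M2 := 8 * K + 21) (M3 := 4 * K + 9) (M4 := 2 * K + 3) hK (by linarith) (by linarith)
    (by linarith) (by linarith) (by linarith) b0 b1' p11 p12 p21 p22
    (pp.modEq (a1 - a2) (by ring)) (by linarith) (by linarith) q31 q32 q21 q22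
    (qq.modEq (a3 - a4) (by ring)) (fun h => t3 (h.modEq (a1 - a4) (by ring)))
    r11 r12 r21 r22 (rr.modEq (a5 - a6) (by ring)) (fun h => t4 (h.modEq (a3 - a6) (by ring)))
    s31 s32 s21 s22 (ss.modEq (a7 - a8) (by ring))
  rcases main with ⟨m1, m2, m3⟩ | m
  · obtain ⟨p1', p2', q2', q3', r1', r2', s2', s3', ⟨g1, g2, g3, g4⟩, g5⟩ :=
      escape (K := K) (M := 24 * K + 66) hK (by linarith) m1 (by linarith) m2 (by linarith)
    obtain ⟨v1, v2, v3⟩ := g2
    refine ⟨p1', p2', q2', q3', r1', r2', s2', s3', ⟨g1, ⟨?_, v2, v3⟩, g3, g4⟩, g5⟩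
    exact v1.modEq (a2 + k) (by rw [eB3]; ring)
  · exact absurd (m.modEq (a5 - a8) (by ring)) t5

/-- **Four alternating rungs.**  The rungs connect the strands `1, 2`, then `2, 3`, `1, 2` and
`2, 3`.  The inner colours of the strands `1` and `2` can be made apart. -/
theorem alt4 {b1 b2 b3 p1 p2 q2 q3 r1 r2 s2 s3 : ℤ} (hK : 0 ≤ K) (hN : 64 * K + 200 ≤ N)
    (h : Alt N b1 b2 b3 p1 p2 q2 q3 r1 r2 s2 s3) :
    ∃ p1' p2' q2' q3' r1' r2' s2' s3' : ℤ, Alt N b1 b2 b3 p1' p2' q2' q3' r1' r2' s2' s3' ∧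
      Apart N K (s2' - r1') := by
  by_cases t4 : Apart N (2 * K + 3) (r2 - q3)
  · obtain ⟨h1, h2, h3, h4⟩ := h
    obtain ⟨s3', s2', g1, g2, g3, g4⟩ := rung_free (by linarith) hK t4 r1
    exact ⟨p1, p2, q2, q3, r1, r2, s2', s3', ⟨h1, h2, h3, g1, g2, g3⟩, g4⟩
  by_cases t3 : Apart N (4 * K + 9) (q2 - p1)
  · obtain ⟨h1, h2, h3, h4⟩ := h
    obtain ⟨r1', r2', f1, f2, f3, f4⟩ := rung_free (M := 2 * K + 3) (by linarith) (by linarith)
      (t3.mono (by linarith)) q3
    obtain ⟨s3', s2', g1, g2, g3, g4⟩ := rung_free (by linarith) hK f4 r1'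
    exact ⟨p1, p2, q2, q3, r1', r2', s2', s3', ⟨h1, h2, ⟨f1, f2, f3⟩, g1, g2, g3⟩, g4⟩
  by_cases t2 : Apart N (8 * K + 21) (p2 - b3)
  · obtain ⟨h1, h2, h3, h4⟩ := h
    obtain ⟨q3', q2', e1, e2, e3, e4⟩ := rung_free (M := 4 * K + 9) (by linarith) (by linarith)
      (t2.mono (by linarith)) p1
    obtain ⟨r1', r2', f1, f2, f3, f4⟩ := rung_free (M := 2 * K + 3) (by linarith) (by linarith)
      (e4.mono (by linarith)) q3'
    obtain ⟨s3', s2', g1, g2, g3, g4⟩ := rung_free (by linarith) hK f4 r1'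
    exact ⟨p1, p2, q2', q3', r1', r2', s2', s3', ⟨h1, ⟨e1, e2, e3⟩, ⟨f1, f2, f3⟩, g1, g2, g3⟩, g4⟩
  by_cases t1 : Apart N (16 * K + 45) (b2 - b1)
  · obtain ⟨p1', p2', d1, d2, d3, d4⟩ := rung_free (M := 8 * K + 21) (by linarith) (by linarith)
      (t1.mono (by linarith)) b3
    obtain ⟨q3', q2', e1, e2, e3, e4⟩ := rung_free (M := 4 * K + 9) (by linarith) (by linarith)
      (d4.mono (by linarith)) p1'
    obtain ⟨r1', r2', f1, f2, f3, f4⟩ := rung_free (M := 2 * K + 3) (by linarith) (by linarith)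
      (e4.mono (by linarith)) q3'
    obtain ⟨s3', s2', g1, g2, g3, g4⟩ := rung_free (by linarith) hK f4 r1'
    exact ⟨p1', p2', q2', q3', r1', r2', s2', s3',
      ⟨⟨d1, d2, d3⟩, ⟨e1, e2, e3⟩, ⟨f1, f2, f3⟩, g1, g2, g3⟩, g4⟩
  obtain ⟨k, k1, k2⟩ := not_apart t1
  obtain ⟨⟨p01, p02, p03⟩, h2, h3, h4⟩ := h
  have p02' : Jn N (p2 - (b2 + 3 * N * k)) := p02.modEq k (by ring)
  rcases le_total 0 (b2 + 3 * N * k - b1) with s | s
  · obtain ⟨p1', p2', q2', q3', r1', r2', s2', s3', ⟨⟨g1, g2, g3⟩, g4⟩, g5⟩ :=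
      alt_pos (b2 := b2 + 3 * N * k) hK hN ⟨⟨p01, p02', p03⟩, h2, h3, h4⟩ s (by linarith) t2 t3 t4
    exact ⟨p1', p2', q2', q3', r1', r2', s2', s3', ⟨⟨g1, g2.modEq (-k) (by ring), g3⟩, g4⟩, g5⟩
  · have neg : ∀ M x y : ℤ, ¬ Apart N M (x - y) → ¬ Apart N M (-x - -y) := by
      intro M x y h1 h2
      have := h2.neg
      have e : -(-x - -y) = x - y := by ring
      rw [e] at this
      exact h1 this
    have r0 : Rung N (-b1) (-(b2 + 3 * N * k)) (-p1) (-p2) :=
      Rung.neg (v := b2 + 3 * N * k) ⟨p01, p02', p03⟩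
    obtain ⟨p1', p2', q2', q3', r1', r2', s2', s3', ⟨g1, g2, g3, g4⟩, g5⟩ :=
      alt_pos (b1 := -b1) (b2 := -(b2 + 3 * N * k)) (b3 := -b3) hK hN
        ⟨r0, h2.neg, h3.neg, h4.neg⟩ (by linarith) (by linarith) (neg _ _ _ t2) (neg _ _ _ t3)
        (neg _ _ _ t4)
    obtain ⟨g11, g12, g13⟩ := g1.neg
    have n2 := g2.neg
    have n3 := g3.neg
    have n4 := g4.neg
    rw [neg_neg] at g11 g12 n2
    refine ⟨-p1', -p2', -q2', -q3', -r1', -r2', -s2', -s3',
      ⟨⟨g11, g12.modEq (-k) (by ring), g13⟩, n2, n3, n4⟩, ?_⟩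
    have := g5.neg
    have e : -(s2' - r1') = -s2' - -r1' := by ring
    rwa [e] at this

end Pool.Agent.CutN
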