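import Mathlib
import Pool.Agent.Work.MP_392c8e_co_red.Cuts

/-!
# One side of a small cut, with the other side contracted

`CutK G X a b`: the edges leaving `X` are exactly `a i`, `b i` (`i : Fin k`) with distinct ends on
both sides.  `starK`: the side `X` together with one vertex `z` joined to all `a i`.
`pathK` (`k = 2`): the side `X` together with a path `a 0`, `u`, `z`, `a 1`.
-/

namespace Pool.Agent.CutN

open Pool.Agent.Red

set_option linter.unusedSectionVars false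

variable {V : Type} [Fintype V] [DecidableEq V] {G : SimpleGraph V} {k : ℕ}

/-- A cut with exactly `k` edges with distinct ends on both sides. -/
structure CutK (G : SimpleGraph V) (X : V → Prop) (a b : Fin k → V) : Prop where
  hX : ∀ i, X (a i)
  hY : ∀ i, ¬ X (b i)
  adj : ∀ i, G.Adj (a i) (b i)
  ia : Function.Injective a
  ib : Function.Injective b
  cut : ∀ u v, X u → ¬ X v → G.Adj u v → ∃ i, u = a i ∧ v = b i

theorem CutK.compl {X : V → Prop} {a b : Fin k → V} (h : CutK G X a b) :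
    CutK G (fun v => ¬ X v) b a where
  hX := h.hY
  hY i := not_not.2 (h.hX i)
  adj i := (h.adj i).symm
  ia := h.ib
  ib := h.ia
  cut u v hu hv huv := by
    obtain ⟨i, h1, h2⟩ := h.cut v u (not_not.1 hv) hu huv.symm
    exact ⟨i, h2, h1⟩

/-- The other side is connected, in the form used by contractions. -/
def ConnF (G : SimpleGraph V) (X : V → Prop) : Prop :=
  ∀ φ : V → ℚ, (∀ u v, G.Adj u v → ¬ X u → ¬ X v → φ u = φ v) →
    ∀ u v, ¬ X u → ¬ X v → φ u = φ v

/-- The side `X` with the other side contracted to the vertex `z`. -/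
def starK (G : SimpleGraph V) (X : V → Prop) (a : Fin k → V) (z : V) (hX : ∀ i, X (a i))
    (hz : ¬ X z) : SimpleGraph V where
  Adj x y := (G.Adj x y ∧ X x ∧ X y) ∨ ∃ i, (x = a i ∧ y = z) ∨ (x = z ∧ y = a i)
  symm := ⟨fun x y h => by
    rcases h with ⟨h1, h2, h3⟩ | ⟨i, h1 | h1⟩
    · exact Or.inl ⟨h1.symm, h3, h2⟩
    · exact Or.inr ⟨i, Or.inr ⟨h1.2, h1.1⟩⟩
    · exact Or.inr ⟨i, Or.inl ⟨h1.2, h1.1⟩⟩⟩
  loopless := ⟨fun x h => by
    rcases h with ⟨h1, -, -⟩ | ⟨i, ⟨h1, h2⟩ | ⟨h1, h2⟩⟩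
    · exact h1.ne rfl
    · exact hz (h2 ▸ h1 ▸ hX i)
    · exact hz (h1 ▸ h2 ▸ hX i)⟩

theorem pl_starK (hpl : Pl G) {X : V → Prop} {a b : Fin k → V} (hc : CutK G X a b)
    (hcon : ConnF G X) (z : V) (hz : ¬ X z) : Pl (starK G X a z hc.hX hz) := by
  classical
  set π : V → V := fun x => if X x then x else z with hπ
  have p1 : ∀ x, X x → π x = x := fun x hx => if_pos hx
  have p2 : ∀ x, ¬ X x → π x = z := fun x hx => if_neg hx
  have hzX : ∀ x, X x → x ≠ z := fun x hx h5 => hz (h5 ▸ hx)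
  refine hpl.contract π ?_ ?_ ?_ ?_
  · intro u v huv hne
    by_cases hu : X u <;> by_cases hv : X v
    · rw [p1 u hu, p1 v hv]
      exact Or.inl ⟨huv, hu, hv⟩
    · rw [p1 u hu, p2 v hv]
      obtain ⟨i, h1, h2⟩ := hc.cut u v hu hv huv
      exact Or.inr ⟨i, Or.inl ⟨h1, rfl⟩⟩
    · rw [p2 u hu, p1 v hv]
      obtain ⟨i, h1, h2⟩ := hc.cut v u hv hu huv.symm
      exact Or.inr ⟨i, Or.inr ⟨rfl, h1⟩⟩
    · rw [p2 u hu, p2 v hv] at hne
      exact absurd rfl hne
  · rintro x y (⟨h1, h2, h3⟩ | ⟨i, ⟨rfl, rfl⟩ | ⟨rfl, rfl⟩⟩)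
    · exact ⟨x, y, h1, p1 x h2, p1 y h3⟩
    · exact ⟨a i, b i, hc.adj i, p1 _ (hc.hX i), p2 _ (hc.hY i)⟩
    · exact ⟨b i, a i, (hc.adj i).symm, p2 _ (hc.hY i), p1 _ (hc.hX i)⟩
  · intro u v u' v' huv huv' e1 e2 hne
    by_cases hu : X u
    · have hu' : X u' := by
        by_contra h5
        rw [p1 u hu, p2 u' h5] at e1
        exact hzX u hu e1
      rw [p1 u hu, p1 u' hu'] at e1
      refine ⟨e1, ?_⟩
      by_cases hv : X v
      · have hv' : X v' := by
          by_contra h5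
          rw [p1 v hv, p2 v' h5] at e2
          exact hzX v hv e2
        rw [p1 v hv, p1 v' hv'] at e2
        exact e2
      · have hv' : ¬ X v' := by
          intro h5
          rw [p2 v hv, p1 v' h5] at e2
          exact hzX v' h5 e2.symm
        obtain ⟨i, h1, h2⟩ := hc.cut u v hu hv huv
        obtain ⟨j, h3, h4⟩ := hc.cut u' v' hu' hv' huv'
        have : i = j := hc.ia (by rw [← h1, ← h3, e1])
        rw [h2, h4, this]
    · have hu' : ¬ X u' := by
        intro h5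
        rw [p2 u hu, p1 u' h5] at e1
        exact hzX u' h5 e1.symm
      have hv : X v := by
        by_contra h5
        rw [p2 u hu, p2 v h5] at hne
        exact hne rfl
      have hv' : X v' := by
        by_contra h5
        rw [p1 v hv, p2 v' h5] at e2
        exact hzX v hv e2
      rw [p1 v hv, p1 v' hv'] at e2
      obtain ⟨i, h1, h2⟩ := hc.cut v u hv hu huv.symm
      obtain ⟨j, h3, h4⟩ := hc.cut v' u' hv' hu' huv'.symm
      have : i = j := hc.ia (by rw [← h1, ← h3, e2])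
      exact ⟨by rw [h2, h4, this], e2⟩
  · intro φ hφ u v huv
    by_cases hu : X u
    · have hv : X v := by
        by_contra h5
        rw [p1 u hu, p2 v h5] at huv
        exact hzX u hu huv
      rw [p1 u hu, p1 v hv] at huv
      rw [huv]
    · have hv : ¬ X v := by
        intro h5
        rw [p2 u hu, p1 v h5] at huv
        exact hzX v h5 huv.symm
      refine hcon φ (fun x y hxy hx hy => hφ x y hxy ?_) u v hu hv
      rw [p2 x hx, p2 y hy]

/-- Degrees in the star graph. -/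
theorem deg_starK (hd : ∀ v, (G.neighborSet v).ncard ≤ 3) {X : V → Prop} {a b : Fin k → V}
    (hk : k ≤ 3) (hc : CutK G X a b) (z : V) (hz : ¬ X z) (v : V) :
    ((starK G X a z hc.hX hz).neighborSet v).ncard ≤ 3 := by
  by_cases hv : X v
  · -- `z` is replaced by the neighbour on the other side
    by_cases hvi : ∃ i, v = a i
    · obtain ⟨i, rfl⟩ := hvi
      have h1 : (starK G X a z hc.hX hz).neighborSet (a i) ⊆
          insert z (G.neighborSet (a i) \ {b i}) := by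
        rintro w (⟨h1, h2, h3⟩ | ⟨j, ⟨h1, h2⟩ | ⟨h1, h2⟩⟩)
        · refine Or.inr ⟨h1, ?_⟩
          intro h4
          have : w = b i := h4
          exact hc.hY i (this ▸ h3)
        · exact Or.inl h2
        · exact absurd (h1 ▸ hc.hX i) hz
      have h2 := Set.ncard_le_ncard h1 (Set.toFinite _)
      have h3 := Set.ncard_insert_le z (G.neighborSet (a i) \ {b i})
      have h4 : b i ∈ G.neighborSet (a i) := hc.adj i
      have h5 := Set.ncard_sdiff_singleton_add_one h4 (Set.toFinite _)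
      have h6 := hd (a i)
      omega
    · refine le_trans (Set.ncard_le_ncard ?_ (Set.toFinite _)) (hd v)
      rintro w (⟨h1, h2, h3⟩ | ⟨j, ⟨h1, h2⟩ | ⟨h1, h2⟩⟩)
      · exact h1
      · exact absurd ⟨j, h1⟩ hvi
      · exact absurd (h1 ▸ hv) hz
  · have h1 : (starK G X a z hc.hX hz).neighborSet v ⊆ Set.range a := by
      rintro w (⟨h1, h2, h3⟩ | ⟨j, ⟨h1, h2⟩ | ⟨h1, h2⟩⟩)
      · exact absurd h2 hv
      · exact absurd (h1 ▸ hc.hX j) hv
      · exact ⟨j, h2.symm⟩
    have h2 := Set.ncard_le_ncard h1 (Set.toFinite _)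
    have h3 : (Set.range a).ncard ≤ k := by
      rw [← Set.image_univ]
      refine (Set.ncard_image_le (Set.toFinite _)).trans ?_
      rw [Set.ncard_univ, Nat.card_eq_fintype_card, Fintype.card_fin]
    omega

/-- The star graph has no triangles if the ends are pairwise not adjacent. -/
theorem tri_starK (ht : G.CliqueFree 3) {X : V → Prop} {a : Fin k → V} (hX : ∀ i, X (a i))
    (z : V) (hz : ¬ X z) (hna : ∀ i j, ¬ G.Adj (a i) (a j)) :
    (starK G X a z hX hz).CliqueFree 3 := by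
  intro s hs
  rw [SimpleGraph.is3Clique_iff] at hs
  obtain ⟨x, y, w, hxy, hxw, hyw, rfl⟩ := hs
  have key : ∀ x y w, (starK G X a z hX hz).Adj x y → (starK G X a z hX hz).Adj x w →
      (starK G X a z hX hz).Adj y w → x ≠ z := by
    intro x y w hxy hxw hyw hx
    subst hx
    rcases hxy with ⟨h1, h2, h3⟩ | ⟨i, ⟨h1, h2⟩ | ⟨h1, h2⟩⟩
    · exact hz h2
    · exact hz (h1 ▸ hX i)
    rcases hxw with ⟨h3, h4, h5⟩ | ⟨j, ⟨h3, h4⟩ | ⟨h3, h4⟩⟩
    · exact hz h4
    · exact hz (h3 ▸ hX j)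
    subst h2; subst h4
    rcases hyw with ⟨h5, h6, h7⟩ | ⟨l, ⟨h5, h6⟩ | ⟨h5, h6⟩⟩
    · exact hna _ _ h5
    · exact hz (h6 ▸ hX j)
    · exact hz (h5 ▸ hX i)
  have hx := key x y w hxy hxw hyw
  have hy := key y x w hxy.symm hyw hxw
  have hw := key w x y hxw.symm hyw.symm hxy
  have back : ∀ x y, (starK G X a z hX hz).Adj x y → x ≠ z → y ≠ z → G.Adj x y := by
    rintro x y (⟨h1, h2, h3⟩ | ⟨i, ⟨h1, h2⟩ | ⟨h1, h2⟩⟩) g1 g2
    · exact h1
    · exact absurd h2 g2
    · exact absurd h1 g1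
  exact ht {x, y, w} (SimpleGraph.is3Clique_iff.2
    ⟨x, y, w, back x y hxy hx hy, back x w hxw hx hw, back y w hyw hy hw, rfl⟩)

/-- The number of edges of the star graph. -/
theorem edges_starK {X : V → Prop} {a b : Fin k → V} (hc : CutK G X a b) (z : V) (hz : ¬ X z)
    {x y : V} (hx : ¬ X x) (hy : ¬ X y) (hxy : G.Adj x y) :
    (starK G X a z hc.hX hz).edgeSet.ncard < G.edgeSet.ncard := by
  classical
  -- edges of the star graph are mapped to edges of `G`
  set π : Sym2 V → Sym2 V := fun e => if h : ∃ i, e = s(a i, z) then s(a h.choose, b h.choose)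
    else e with hπ
  have q1 : ∀ i, π s(a i, z) = s(a i, b i) := by
    intro i
    have h : ∃ j, s(a i, z) = s(a j, z) := ⟨i, rfl⟩
    have h1 : π s(a i, z) = s(a h.choose, b h.choose) := dif_pos h
    have h2 : i = h.choose := by
      rcases Sym2.eq_iff.1 h.choose_spec with ⟨h3, -⟩ | ⟨h3, -⟩
      · exact hc.ia h3
      · exact absurd (h3 ▸ hc.hX i) hz
    rw [h1, ← h2]
  have q2 : ∀ u v, X u → X v → π s(u, v) = s(u, v) := by
    intro u v hu hv
    refine dif_neg ?_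
    rintro ⟨i, hi⟩
    rcases Sym2.eq_iff.1 hi with ⟨-, h3⟩ | ⟨h3, -⟩
    · exact hz (h3 ▸ hv)
    · exact hz (h3 ▸ hu)
  have hE : ∀ e ∈ (starK G X a z hc.hX hz).edgeSet, (∃ u v, X u ∧ X v ∧ G.Adj u v ∧ e = s(u, v)) ∨
      ∃ i, e = s(a i, z) := by
    intro e he
    induction e using Sym2.ind with
    | _ u v =>
      rcases he with ⟨h1, h2, h3⟩ | ⟨i, ⟨h1, h2⟩ | ⟨h1, h2⟩⟩
      · exact Or.inl ⟨u, v, h2, h3, h1, rfl⟩
      · have h1' : u = a i := h1
        have h2' : v = z := h2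
        exact Or.inr ⟨i, by rw [h1', h2']⟩
      · have h1' : u = z := h1
        have h2' : v = a i := h2
        exact Or.inr ⟨i, by rw [h1', h2']; exact Sym2.eq_swap⟩
  have h1 : π '' (starK G X a z hc.hX hz).edgeSet ⊆ G.edgeSet \ {s(x, y)} := by
    rintro _ ⟨e, he, rfl⟩
    rcases hE e he with ⟨u, v, hu, hv, huv, rfl⟩ | ⟨i, rfl⟩
    · rw [q2 u v hu hv]
      refine ⟨huv, ?_⟩
      intro h5
      rcases Sym2.eq_iff.1 h5 with ⟨h3, -⟩ | ⟨h3, -⟩
      · exact hx (h3 ▸ hu)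
      · exact hy (h3 ▸ hu)
    · rw [q1 i]
      refine ⟨hc.adj i, ?_⟩
      intro h5
      rcases Sym2.eq_iff.1 h5 with ⟨h3, -⟩ | ⟨h3, -⟩
      · exact hx (h3 ▸ hc.hX i)
      · exact hy (h3 ▸ hc.hX i)
  have h2 : Set.InjOn π (starK G X a z hc.hX hz).edgeSet := by
    intro e he f hf hef
    rcases hE e he with ⟨u, v, hu, hv, huv, rfl⟩ | ⟨i, rfl⟩ <;>
      rcases hE f hf with ⟨u', v', hu', hv', huv', rfl⟩ | ⟨j, rfl⟩
    · rwa [q2 u v hu hv, q2 u' v' hu' hv'] at hef
    · rw [q2 u v hu hv, q1 j] at hef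
      rcases Sym2.eq_iff.1 hef with ⟨-, h3⟩ | ⟨h3, -⟩
      · exact absurd (h3 ▸ hv) (hc.hY j)
      · exact absurd (h3 ▸ hu) (hc.hY j)
    · rw [q2 u' v' hu' hv', q1 i] at hef
      rcases Sym2.eq_iff.1 hef with ⟨-, h3⟩ | ⟨-, h3⟩
      · exact absurd (h3.symm ▸ hv') (hc.hY i)
      · exact absurd (h3.symm ▸ hu') (hc.hY i)
    · rw [q1 i, q1 j] at hef
      rcases Sym2.eq_iff.1 hef with ⟨h3, -⟩ | ⟨h3, -⟩
      · rw [hc.ia h3]
      · exact absurd (h3 ▸ hc.hX i) (hc.hY j)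
  have h3 := Set.ncard_le_ncard h1 (Set.toFinite _)
  rw [Set.ncard_image_of_injOn h2] at h3
  have h4 : s(x, y) ∈ G.edgeSet := hxy
  have h5 := Set.ncard_sdiff_singleton_add_one h4 (Set.toFinite _)
  omega

end Pool.Agent.CutN
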