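import Mathlib
import Pool.Agent.Work.MP_392c8e_co_uni.SideStar

/-!
# Sides of 3-edge-cuts all of whose parts are bad

A side of a 3-edge-cut is bad if two of its ends are adjacent or if every two of its ends have a
common neighbour.  If all sides inside a side are bad, then the side is a word of rungs and rings.
-/

set_option autoImplicit false
set_option linter.unusedSectionVars false

namespace Pool.Agent.Bad59

open Pool.Agent.Red Pool.Agent.CutN

variable {V : Type} [Fintype V] [DecidableEq V] {G : SimpleGraph V}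

/-- The degree. -/
noncomputable def dg (G : SimpleGraph V) (v : V) : ℕ := (G.neighborSet v).ncard

/-- The third neighbour. -/
theorem third {v x y : V} (h : dg G v = 3) (hx : G.Adj v x) (hy : G.Adj v y) (hxy : x ≠ y) :
    ∃ z, z ≠ x ∧ z ≠ y ∧ G.Adj v z ∧ ∀ w, G.Adj v w → w = x ∨ w = y ∨ w = z := by
  unfold dg at h
  obtain ⟨p, q, r, h1, h2, h3, h4⟩ := Set.ncard_eq_three.1 h
  have hmem : ∀ w, G.Adj v w ↔ w = p ∨ w = q ∨ w = r := by
    intro w
    have : w ∈ G.neighborSet v ↔ w ∈ ({p, q, r} : Set V) := by rw [h4]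
    simpa using this
  have ep := (hmem p).2 (Or.inl rfl)
  have eq' := (hmem q).2 (Or.inr (Or.inl rfl))
  have er := (hmem r).2 (Or.inr (Or.inr rfl))
  rcases (hmem x).1 hx with rfl | rfl | rfl <;> rcases (hmem y).1 hy with rfl | rfl | rfl
  · exact absurd rfl hxy
  · exact ⟨r, h2.symm, h3.symm, er, fun w hw => (hmem w).1 hw⟩
  · exact ⟨q, h1.symm, h3, eq', fun w hw => by have := (hmem w).1 hw; tauto⟩
  · exact ⟨r, h3.symm, h2.symm, er, fun w hw => by have := (hmem w).1 hw; tauto⟩
  · exact absurd rfl hxy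
  · exact ⟨p, h1, h2, ep, fun w hw => by have := (hmem w).1 hw; tauto⟩
  · exact ⟨q, h3, h1.symm, eq', fun w hw => by have := (hmem w).1 hw; tauto⟩
  · exact ⟨p, h2, h1, ep, fun w hw => by have := (hmem w).1 hw; tauto⟩
  · exact absurd rfl hxy

/-- The second neighbour of a vertex of degree two. -/
theorem second {v x : V} (h : dg G v = 2) (hx : G.Adj v x) :
    ∃ z, z ≠ x ∧ G.Adj v z ∧ ∀ w, G.Adj v w → w = x ∨ w = z := by
  unfold dg at h
  obtain ⟨p, q, h1, h4⟩ := Set.ncard_eq_two.1 h
  have hmem : ∀ w, G.Adj v w ↔ w = p ∨ w = q := by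
    intro w
    have : w ∈ G.neighborSet v ↔ w ∈ ({p, q} : Set V) := by rw [h4]
    simpa using this
  have ep := (hmem p).2 (Or.inl rfl)
  have eq' := (hmem q).2 (Or.inr rfl)
  rcases (hmem x).1 hx with rfl | rfl
  · exact ⟨q, h1.symm, eq', fun w hw => (hmem w).1 hw⟩
  · exact ⟨p, h1, ep, fun w hw => by have := (hmem w).1 hw; tauto⟩

/-- A side: the set, the inner and the outer ends of its three leaving edges. -/
structure Sd (V : Type) where
  Y : V → Prop
  a : Fin 3 → V
  b : Fin 3 → V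

/-- The hypotheses: inside `X0` all sides are bad. -/
structure Hyp (G : SimpleGraph V) (X0 : V → Prop) : Prop where
  tri : ∀ u v w, G.Adj u v → G.Adj v w → G.Adj u w → False
  deg : ∀ v, X0 v → dg G v = 2 ∨ dg G v = 3
  /-- a set with at most two leaving edges has only vertices of degree two -/
  two : ∀ Y : V → Prop, (∀ v, Y v → X0 v) → (leave G {v | Y v}).ncard ≤ 2 → ∀ v, Y v → dg G v = 2
  bad : ∀ s : Sd V, (∀ v, s.Y v → X0 v) → CutK G s.Y s.a s.b →
    (∃ u v, s.Y u ∧ s.Y v ∧ u ≠ v ∧ dg G u = 3 ∧ dg G v = 3) →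
    (∃ i j, i ≠ j ∧ G.Adj (s.a i) (s.a j)) ∨
      ∀ i j, i ≠ j → ∃ u, s.Y u ∧ G.Adj (s.a i) u ∧ G.Adj (s.a j) u
  /-- no vertex is adjacent to the three ends -/
  hub : ∀ s : Sd V, (∀ v, s.Y v → X0 v) → CutK G s.Y s.a s.b → (∀ i, dg G (s.a i) = 3) →
    ¬ ∃ u, s.Y u ∧ ∀ i, G.Adj (s.a i) u

/-- The leaving edges of a set, if all of them are among two given ones. -/
theorem leave_le_two {Y : V → Prop} {x y x' y' : V}
    (h : ∀ u v, Y u → ¬ Y v → G.Adj u v → (u = x ∧ v = y) ∨ (u = x' ∧ v = y')) :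
    (leave G {v | Y v}).ncard ≤ 2 := by
  have h1 : leave G {v | Y v} ⊆ ({(x, y), (x', y')} : Set (V × V)) := by
    rintro ⟨u, v⟩ ⟨h1, h2, h3⟩
    rcases h u v h1 h2 h3 with ⟨rfl, rfl⟩ | ⟨rfl, rfl⟩ <;> simp
  refine (Set.ncard_le_ncard h1 (Set.toFinite _)).trans ?_
  exact (Set.ncard_insert_le _ _).trans (by rw [Set.ncard_singleton])

section cut

variable {s : Sd V} (hc : CutK G s.Y s.a s.b)

include hc

/-- The only leaving edge at an end. -/
theorem only {i : Fin 3} {v : V} (h : G.Adj (s.a i) v) (hv : ¬ s.Y v) : v = s.b i := by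
  obtain ⟨j, h1, h2⟩ := hc.cut _ _ (hc.hX i) hv h
  rw [h2, hc.ia h1]

theorem in_of {u v : V} (hu : s.Y u) (h : G.Adj u v) (hn : ∀ i, u ≠ s.a i) : s.Y v := by
  by_contra hv
  obtain ⟨j, h1, -⟩ := hc.cut _ _ hu hv h
  exact hn j h1

theorem in_of_end {i : Fin 3} {v : V} (h : G.Adj (s.a i) v) (hn : v ≠ s.b i) : s.Y v := by
  by_contra hv
  exact hn (only hc h hv)

theorem a_ne_b (i j : Fin 3) : s.a i ≠ s.b j := fun h => hc.hY j (h ▸ hc.hX i)

end cut

theorem f1 : ∀ l : Fin 3, l + 1 ≠ l := by decide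
theorem f2 : ∀ l : Fin 3, l + 2 ≠ l := by decide
theorem f12 : ∀ l : Fin 3, l + 1 ≠ l + 2 := by decide
theorem fcase : ∀ l i : Fin 3, i = l ∨ i = l + 1 ∨ i = l + 2 := by decide

/-- The next side after removing a rung. -/
def rsd (s : Sd V) (l : Fin 3) (r1 r2 : V) : Sd V where
  Y v := s.Y v ∧ v ≠ s.a (l + 1) ∧ v ≠ s.a (l + 2)
  a i := if i = l + 1 then r1 else if i = l + 2 then r2 else s.a i
  b i := if i = l + 1 then s.a (l + 1) else if i = l + 2 then s.a (l + 2) else s.b i

section

variable {s : Sd V} {l : Fin 3} {r1 r2 : V}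

theorem rsd_a0 : (rsd s l r1 r2).a l = s.a l := by
  show (if l = l + 1 then r1 else if l = l + 2 then r2 else s.a l) = _
  rw [if_neg (f1 l).symm, if_neg (f2 l).symm]

theorem rsd_a1 : (rsd s l r1 r2).a (l + 1) = r1 := if_pos rfl

theorem rsd_a2 : (rsd s l r1 r2).a (l + 2) = r2 := by
  show (if l + 2 = l + 1 then r1 else if l + 2 = l + 2 then r2 else _) = _
  rw [if_neg (f12 l).symm, if_pos rfl]

theorem rsd_b0 : (rsd s l r1 r2).b l = s.b l := by
  show (if l = l + 1 then _ else if l = l + 2 then _ else s.b l) = _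
  rw [if_neg (f1 l).symm, if_neg (f2 l).symm]

theorem rsd_b1 : (rsd s l r1 r2).b (l + 1) = s.a (l + 1) := if_pos rfl

theorem rsd_b2 : (rsd s l r1 r2).b (l + 2) = s.a (l + 2) := by
  show (if l + 2 = l + 1 then _ else if l + 2 = l + 2 then s.a (l + 2) else _) = _
  rw [if_neg (f12 l).symm, if_pos rfl]

end

variable {X0 : V → Prop}

/-- **Removing a rung.** -/
theorem rung_step (H : Hyp G X0) {s : Sd V} (hs : ∀ v, s.Y v → X0 v) (hc : CutK G s.Y s.a s.b)
    {l : Fin 3} (hr : G.Adj (s.a (l + 1)) (s.a (l + 2))) (h1 : dg G (s.a (l + 1)) = 3)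
    (h2 : dg G (s.a (l + 2)) = 3) :
    ∃ r1 r2, G.Adj (s.a (l + 1)) r1 ∧ G.Adj (s.a (l + 2)) r2 ∧ r1 ≠ r2 ∧ s.Y r1 ∧ s.Y r2 ∧
      r1 ≠ s.a (l + 2) ∧ r2 ≠ s.a (l + 1) ∧
      (∀ w, G.Adj (s.a (l + 1)) w → w = s.b (l + 1) ∨ w = s.a (l + 2) ∨ w = r1) ∧
      (∀ w, G.Adj (s.a (l + 2)) w → w = s.b (l + 2) ∨ w = s.a (l + 1) ∨ w = r2) ∧
      ((r1 ≠ s.a l ∧ r2 ≠ s.a l ∨ dg G r1 = 3 ∧ dg G r2 = 3) →
        CutK G (rsd s l r1 r2).Y (rsd s l r1 r2).a (rsd s l r1 r2).b) := by
  obtain ⟨r1, x1, x2, x3, x4⟩ := third h1 (hc.adj (l + 1)) hr (a_ne_b hc _ _).symm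
  obtain ⟨r2, y1, y2, y3, y4⟩ := third h2 (hc.adj (l + 2)) hr.symm (a_ne_b hc _ _).symm
  have hne : r1 ≠ r2 := by
    rintro rfl
    exact H.tri _ _ _ hr y3 x3
  have z1 : s.Y r1 := in_of_end hc x3 x1
  have z2 : s.Y r2 := in_of_end hc y3 y1
  refine ⟨r1, r2, x3, y3, hne, z1, z2, x2, y2, x4, y4, fun hcase => ?_⟩
  have w1 : r1 ≠ s.a (l + 1) := x3.ne'
  have w2 : r2 ≠ s.a (l + 2) := y3.ne'
  have l1 : s.a l ≠ s.a (l + 1) := fun h => f1 l (hc.ia h).symm
  have l2 : s.a l ≠ s.a (l + 2) := fun h => f2 l (hc.ia h).symm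
  -- the leaving edges
  have hcut : ∀ u v, (rsd s l r1 r2).Y u → ¬ (rsd s l r1 r2).Y v → G.Adj u v →
      (u = r1 ∧ v = s.a (l + 1)) ∨ (u = r2 ∧ v = s.a (l + 2)) ∨ (u = s.a l ∧ v = s.b l) := by
    rintro u v ⟨u1, u2, u3⟩ hv huv
    by_cases hY : s.Y v
    · have : v = s.a (l + 1) ∨ v = s.a (l + 2) := by
        by_contra hcon
        push Not at hcon
        exact hv ⟨hY, hcon⟩
      rcases this with rfl | rfl
      · rcases x4 u huv.symm with h | h | h
        · exact absurd u1 (h ▸ hc.hY _)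
        · exact absurd h u3
        · exact Or.inl ⟨h, rfl⟩
      · rcases y4 u huv.symm with h | h | h
        · exact absurd u1 (h ▸ hc.hY _)
        · exact absurd h u2
        · exact Or.inr (Or.inl ⟨h, rfl⟩)
    · obtain ⟨j, e1, e2⟩ := hc.cut u v u1 hY huv
      rcases fcase l j with rfl | rfl | rfl
      · exact Or.inr (Or.inr ⟨e1, e2⟩)
      · exact absurd e1 u2
      · exact absurd e1 u3
  -- the ends are different
  have hends : r1 ≠ s.a l ∧ r2 ≠ s.a l := by
    rcases hcase with h | ⟨d1, d2⟩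
    · exact h
    · -- otherwise one has a set with two leaving edges
      have key : ∀ (r r' : V) (m m' : Fin 3), (r = r1 ∧ m = l + 1 ∧ r' = r2 ∧ m' = l + 2) ∨
          (r = r2 ∧ m = l + 2 ∧ r' = r1 ∧ m' = l + 1) → r = s.a l → False := by
        intro r r' m m' hrr hr0
        have hadj : G.Adj (s.a m) r := by
          rcases hrr with ⟨rfl, rfl, -⟩ | ⟨rfl, rfl, -⟩
          · exact x3
          · exact y3
        have hr'ne : r' ≠ s.a l := by
          rw [← hr0]
          rcases hrr with ⟨rfl, -, rfl, -⟩ | ⟨rfl, -, rfl, -⟩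
          · exact hne.symm
          · exact hne
        have hr'3 : dg G r' = 3 := by
          rcases hrr with ⟨-, -, rfl, -⟩ | ⟨-, -, rfl, -⟩
          · exact d2
          · exact d1
        have hr3 : dg G (s.a l) = 3 := by
          rw [← hr0]
          rcases hrr with ⟨rfl, -⟩ | ⟨rfl, -⟩
          · exact d1
          · exact d2
        have hbm : s.b l ≠ s.a m := (a_ne_b hc _ _).symm
        rw [hr0] at hadj
        obtain ⟨t, t1, t2, t3, t4⟩ := third hr3 (hc.adj l) hadj.symm hbm
        have hY : ∀ v, ((rsd s l r1 r2).Y v ∧ v ≠ s.a l) → X0 v := fun v hv => hs v hv.1.1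
        have hle : (leave G {v | (rsd s l r1 r2).Y v ∧ v ≠ s.a l}).ncard ≤ 2 := by
          refine leave_le_two (x := t) (y := s.a l) (x' := r') (y' := s.a m') ?_
          rintro u v ⟨u1, u2⟩ hv huv
          by_cases hv0 : v = s.a l
          · subst hv0
            rcases t4 u huv.symm with h | h | h
            · exact absurd u1.1 (h ▸ hc.hY l)
            · exfalso
              rcases hrr with ⟨-, e, -⟩ | ⟨-, e, -⟩
              · rw [e] at h
                exact u1.2.1 h
              · rw [e] at h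
                exact u1.2.2 h
            · exact Or.inl ⟨h, rfl⟩
          · have hv' : ¬ (rsd s l r1 r2).Y v := fun h => hv ⟨h, hv0⟩
            rcases hcut u v u1 hv' huv with ⟨h, h'⟩ | ⟨h, h'⟩ | ⟨h, h'⟩
            · rcases hrr with ⟨e, -, -, -⟩ | ⟨-, -, e, e'⟩
              · exact absurd (h.trans (e.symm.trans hr0)) u2
              · exact Or.inr ⟨h.trans e.symm, by rw [h', e']⟩
            · rcases hrr with ⟨-, -, e, e'⟩ | ⟨e, -, -, -⟩
              · exact Or.inr ⟨h.trans e.symm, by rw [h', e']⟩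
              · exact absurd (h.trans (e.symm.trans hr0)) u2
            · exact absurd h u2
        have hr'Y : (rsd s l r1 r2).Y r' ∧ r' ≠ s.a l := by
          refine ⟨?_, hr'ne⟩
          rcases hrr with ⟨-, -, rfl, -⟩ | ⟨-, -, rfl, -⟩
          · exact ⟨z2, y2, w2⟩
          · exact ⟨z1, w1, x2⟩
        have := H.two _ hY hle r' hr'Y
        omega
      exact ⟨fun h => key r1 r2 (l + 1) (l + 2) (Or.inl ⟨rfl, rfl, rfl, rfl⟩) h,
        fun h => key r2 r1 (l + 2) (l + 1) (Or.inr ⟨rfl, rfl, rfl, rfl⟩) h⟩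
  refine ⟨fun i => ?_, fun i => ?_, fun i => ?_, fun i j hij => ?_, fun i j hij => ?_,
    fun u v hu hv huv => ?_⟩
  · rcases fcase l i with rfl | rfl | rfl
    · rw [rsd_a0]
      exact ⟨hc.hX _, l1, l2⟩
    · rw [rsd_a1]
      exact ⟨z1, w1, x2⟩
    · rw [rsd_a2]
      exact ⟨z2, y2, w2⟩
  · rcases fcase l i with rfl | rfl | rfl
    · rw [rsd_b0]
      exact fun h => hc.hY _ h.1
    · rw [rsd_b1]
      exact fun h => h.2.1 rfl
    · rw [rsd_b2]
      exact fun h => h.2.2 rfl
  · rcases fcase l i with rfl | rfl | rfl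
    · rw [rsd_a0, rsd_b0]
      exact hc.adj _
    · rw [rsd_a1, rsd_b1]
      exact x3.symm
    · rw [rsd_a2, rsd_b2]
      exact y3.symm
  · rcases fcase l i with h | h | h <;> rcases fcase l j with h' | h' | h' <;>
      rw [h, h'] at hij ⊢ <;> simp only [rsd_a0, rsd_a1, rsd_a2] at hij <;> first
      | exact absurd hij.symm hends.1
      | exact absurd hij.symm hends.2
      | exact absurd hij hends.1
      | exact absurd hij hends.2
      | exact absurd hij hne
      | exact absurd hij.symm hne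
  · rcases fcase l i with h | h | h <;> rcases fcase l j with h' | h' | h' <;>
      rw [h, h'] at hij ⊢ <;> simp only [rsd_b0, rsd_b1, rsd_b2] at hij <;> first
      | exact absurd hij (a_ne_b hc _ _)
      | exact absurd hij.symm (a_ne_b hc _ _)
      | exact absurd (hc.ia hij) (f12 l)
      | exact absurd (hc.ia hij) (f12 l).symm
  · rcases hcut u v hu hv huv with ⟨h, h'⟩ | ⟨h, h'⟩ | ⟨h, h'⟩
    · exact ⟨l + 1, by rw [rsd_a1, h], by rw [rsd_b1, h']⟩
    · exact ⟨l + 2, by rw [rsd_a2, h], by rw [rsd_b2, h']⟩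
    · exact ⟨l, by rw [rsd_a0, h], by rw [rsd_b0, h']⟩

/-- The next side after removing a ring. -/
def hsd (s : Sd V) (u r : Fin 3 → V) : Sd V where
  Y v := s.Y v ∧ (∀ i, v ≠ s.a i) ∧ ∀ i, v ≠ u i
  a := r
  b := u

theorem fthird : ∀ i j : Fin 3, i ≠ j → i = j + 1 ∨ i = j + 2 := by decide
theorem fother : ∀ i j : Fin 3, i ≠ j → ∃ k, k ≠ i ∧ k ≠ j := by decide
theorem fall : ∀ i j k m : Fin 3, i ≠ j → k ≠ i → k ≠ j → m = i ∨ m = j ∨ m = k := by decide

/-- **Removing a ring.** -/
theorem ring_step (H : Hyp G X0) {s : Sd V} (hs : ∀ v, s.Y v → X0 v) (hc : CutK G s.Y s.a s.b)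
    (h3 : ∀ i, dg G (s.a i) = 3) (hna : ∀ i j, ¬ G.Adj (s.a i) (s.a j))
    (hcom : ∀ i j, i ≠ j → ∃ u, s.Y u ∧ G.Adj (s.a i) u ∧ G.Adj (s.a j) u) :
    ∃ u : Fin 3 → V, (∀ i, s.Y (u i)) ∧ Function.Injective u ∧
      (∀ i j, i ≠ j → G.Adj (s.a i) (u j)) ∧ (∀ i, ¬ G.Adj (s.a i) (u i)) ∧
      (∀ i j, ¬ G.Adj (u i) (u j)) ∧ (∀ i j, u i ≠ s.a j) ∧
      ((∀ i, dg G (u i) = 3) → ∃ r : Fin 3 → V, (∀ i, G.Adj (u i) (r i)) ∧ (∀ i, s.Y (r i)) ∧
        (∀ i j, r i ≠ s.a j) ∧ (∀ i j, r i ≠ u j) ∧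
        ((∀ i, dg G (r i) = 3) → (r 0 = r 1 ∨ CutK G (hsd s u r).Y (hsd s u r).a (hsd s u r).b))) := by
  have hu : ∀ i : Fin 3, ∃ u, s.Y u ∧ G.Adj (s.a (i + 1)) u ∧ G.Adj (s.a (i + 2)) u := fun i =>
    hcom _ _ (f12 i)
  choose u u1 u2 u3 using hu
  have hadj : ∀ i j, i ≠ j → G.Adj (s.a i) (u j) := by
    intro i j hij
    rcases fthird i j hij with h | h
    · rw [h]; exact u2 j
    · rw [h]; exact u3 j
  have hne : ∀ i j, u i ≠ s.a j := by
    intro i j h
    have := u2 i
    rw [h] at this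
    exact hna _ _ this
  have hhub : ∀ i, ¬ G.Adj (s.a i) (u i) := by
    intro i h
    refine H.hub s hs hc h3 ⟨u i, u1 i, fun j => ?_⟩
    by_cases hj : j = i
    · rw [hj]; exact h
    · exact hadj j i hj
  have hinj : Function.Injective u := by
    intro i j hij
    by_contra hne'
    exact hhub i (by rw [hij]; exact hadj i j hne')
  have huu : ∀ i j, ¬ G.Adj (u i) (u j) := by
    intro i j h
    by_cases hij : i = j
    · rw [hij] at h
      exact G.loopless.irrefl _ h
    · obtain ⟨k, k1, k2⟩ := fother i j hij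
      exact H.tri _ _ _ (hadj k i k1) h (hadj k j k2)
  have hnb : ∀ i w, G.Adj (s.a i) w → w = s.b i ∨ ∃ j, j ≠ i ∧ w = u j := by
    intro i w hw
    have e1 : s.b i ≠ u (i + 1) := fun h => hc.hY i (h ▸ u1 _)
    have n1 : i ≠ i + 1 := (f1 i).symm
    have n2 : i ≠ i + 2 := (f2 i).symm
    obtain ⟨z, z1, z2, z3, z4⟩ := third (h3 i) (hc.adj i) (hadj i (i + 1) n1) e1
    have hz : u (i + 2) = z := by
      rcases z4 _ (hadj i (i + 2) n2) with h | h | h
      · exact absurd (u1 (i + 2)) (h ▸ hc.hY i)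
      · exact absurd (hinj h) (f12 i).symm
      · exact h
    rcases z4 w hw with h | h | h
    · exact Or.inl h
    · exact Or.inr ⟨i + 1, f1 i, h⟩
    · exact Or.inr ⟨i + 2, f2 i, h.trans hz.symm⟩
  refine ⟨u, u1, hinj, hadj, hhub, huu, hne, fun hu3 => ?_⟩
  have hr : ∀ i : Fin 3, ∃ r, r ≠ s.a (i + 1) ∧ r ≠ s.a (i + 2) ∧ G.Adj (u i) r ∧
      ∀ w, G.Adj (u i) w → w = s.a (i + 1) ∨ w = s.a (i + 2) ∨ w = r := fun i =>
    third (hu3 i) (u2 i).symm (u3 i).symm fun h => f12 i (hc.ia h)
  choose r r1 r2 r3 r4 using hr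
  have hrY : ∀ i, s.Y (r i) := fun i => in_of hc (u1 i) (r3 i) (hne i)
  have hra : ∀ i j, r i ≠ s.a j := by
    intro i j h
    rcases fcase i j with hj | hj | hj
    · rw [hj] at h
      exact hhub i (by rw [← h]; exact (r3 i).symm)
    · exact r1 i (by rw [h, hj])
    · exact r2 i (by rw [h, hj])
  have hru : ∀ i j, r i ≠ u j := by
    intro i j h
    exact huu i j (by rw [← h]; exact r3 i)
  refine ⟨r, r3, hrY, hra, hru, fun hr3 => ?_⟩
  have hcut : ∀ x v, (hsd s u r).Y x → ¬ (hsd s u r).Y v → G.Adj x v → ∃ i, x = r i ∧ v = u i := by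
    rintro x v ⟨x1, x2, x3⟩ hv hxv
    by_cases hY : s.Y v
    · by_cases hva : ∃ i, v = s.a i
      · obtain ⟨i, rfl⟩ := hva
        rcases hnb i x hxv.symm with h | ⟨j, -, h⟩
        · exact absurd x1 (h ▸ hc.hY i)
        · exact absurd h (x3 j)
      · by_cases hvu : ∃ i, v = u i
        · obtain ⟨i, rfl⟩ := hvu
          rcases r4 i x hxv.symm with h | h | h
          · exact absurd h (x2 _)
          · exact absurd h (x2 _)
          · exact ⟨i, h, rfl⟩
        · push Not at hva hvu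
          exact absurd ⟨hY, hva, hvu⟩ hv
    · obtain ⟨j, e1, -⟩ := hc.cut x v x1 hY hxv
      exact absurd e1 (x2 j)
  by_cases hinjr : Function.Injective r
  · right
    refine ⟨fun i => ⟨hrY i, hra i, hru i⟩, fun i h => h.2.2 i rfl, fun i => (r3 i).symm, hinjr,
      hinj, hcut⟩
  · left
    have hex : ∃ i j, r i = r j ∧ i ≠ j := by
      unfold Function.Injective at hinjr
      push Not at hinjr
      exact hinjr
    obtain ⟨i, j, hij, hne'⟩ := hex
    obtain ⟨k, k1, k2⟩ := fother i j hne'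
    have hk : r k = r i := by
      by_contra hk
      obtain ⟨t, t1, t2, t3, t4⟩ := third (hr3 i) (r3 i).symm
        (show G.Adj (r i) (u j) by rw [hij]; exact (r3 j).symm) fun h => hne' (hinj h)
      have hle : (leave G {v | (hsd s u r).Y v ∧ v ≠ r i}).ncard ≤ 2 := by
        refine leave_le_two (x := t) (y := r i) (x' := r k) (y' := u k) ?_
        rintro x v ⟨x1, x2⟩ hv hxv
        by_cases hv0 : v = r i
        · rw [hv0] at hxv ⊢
          rcases t4 x hxv.symm with h | h | h
          · exact absurd h (x1.2.2 i)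
          · exact absurd h (x1.2.2 j)
          · exact Or.inl ⟨h, rfl⟩
        · have hv' : ¬ (hsd s u r).Y v := fun h => hv ⟨h, hv0⟩
          obtain ⟨m, m1, m2⟩ := hcut x v x1 hv' hxv
          rcases fall i j k m hne' k1 k2 with h | h | h
          · exact absurd (by rw [m1, h]) x2
          · exact absurd (by rw [m1, h, hij]) x2
          · exact Or.inr ⟨by rw [m1, h], by rw [m2, h]⟩
      have h2 := H.two _ (fun v hv => hs v hv.1.1) hle (r k) ⟨⟨hrY k, hra k, hru k⟩, hk⟩
      have h3' := hr3 k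
      omega
    have hall : ∀ m, r m = r i := by
      intro m
      rcases fall i j k m hne' k1 k2 with h | h | h
      · rw [h]
      · rw [h, hij]
      · rw [h, hk]
    rw [hall 0, hall 1]

/-- The next side after removing a vertex of degree two. -/
def psd (s : Sd V) (l : Fin 3) (y : V) : Sd V where
  Y v := s.Y v ∧ v ≠ s.a l
  a i := if i = l then y else s.a i
  b i := if i = l then s.a l else s.b i

/-- **Removing a vertex of degree two.** -/
theorem pass_step {s : Sd V} (hc : CutK G s.Y s.a s.b) {l : Fin 3} (h2 : dg G (s.a l) = 2) :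
    ∃ y, G.Adj (s.a l) y ∧ s.Y y ∧ y ≠ s.a l ∧
      ((∀ j, j ≠ l → y ≠ s.a j) → CutK G (psd s l y).Y (psd s l y).a (psd s l y).b) := by
  obtain ⟨y, y1, y2, y3⟩ := second h2 (hc.adj l)
  have y4 : s.Y y := in_of_end hc y2 y1
  refine ⟨y, y2, y4, y2.ne', fun hy => ?_⟩
  have hne : ∀ i, i ≠ l → s.a i ≠ s.a l := fun i hi h => hi (hc.ia h)
  have ea : ∀ i, i ≠ l → (psd s l y).a i = s.a i := fun i hi => if_neg hi
  have ea' : (psd s l y).a l = y := if_pos rfl
  have eb : ∀ i, i ≠ l → (psd s l y).b i = s.b i := fun i hi => if_neg hi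
  have eb' : (psd s l y).b l = s.a l := if_pos rfl
  refine ⟨fun i => ?_, fun i => ?_, fun i => ?_, fun i j hij => ?_, fun i j hij => ?_,
    fun u v hu hv huv => ?_⟩
  · by_cases hi : i = l
    · rw [hi, ea']
      exact ⟨y4, y2.ne'⟩
    · rw [ea i hi]
      exact ⟨hc.hX i, hne i hi⟩
  · by_cases hi : i = l
    · rw [hi, eb']
      exact fun h => h.2 rfl
    · rw [eb i hi]
      exact fun h => hc.hY i h.1
  · by_cases hi : i = l
    · rw [hi, ea', eb']
      exact y2.symm
    · rw [ea i hi, eb i hi]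
      exact hc.adj i
  · by_cases hi : i = l <;> by_cases hj : j = l
    · rw [hi, hj]
    · rw [hi, ea', ea j hj] at hij
      exact absurd hij (hy j hj)
    · rw [hj, ea', ea i hi] at hij
      exact absurd hij.symm (hy i hi)
    · rw [ea i hi, ea j hj] at hij
      exact hc.ia hij
  · by_cases hi : i = l <;> by_cases hj : j = l
    · rw [hi, hj]
    · rw [hi, eb', eb j hj] at hij
      exact absurd hij (a_ne_b hc _ _)
    · rw [hj, eb', eb i hi] at hij
      exact absurd hij.symm (a_ne_b hc _ _)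
    · rw [eb i hi, eb j hj] at hij
      exact hc.ib hij
  · by_cases hv0 : v = s.a l
    · rw [hv0] at huv
      rcases y3 u huv.symm with h | h
      · exact absurd hu.1 (h ▸ hc.hY l)
      · exact ⟨l, by rw [ea', h], by rw [eb', hv0]⟩
    · have hv' : ¬ s.Y v := fun h => hv ⟨h, hv0⟩
      obtain ⟨j, e1, e2⟩ := hc.cut u v hu.1 hv' huv
      have hj : j ≠ l := fun h => hu.2 (by rw [e1, h])
      exact ⟨j, by rw [ea j hj, e1], by rw [eb j hj, e2]⟩

/-- The letters: a rung between the two strands different from `l`, or a ring. -/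
inductive Let : Type
  | rung (l : Fin 3)
  | ring
  deriving DecidableEq

/-- One letter is removed from the side. -/
def Stp (G : SimpleGraph V) : Let → Sd V → Sd V → Prop
  | .rung l, s, s' => G.Adj (s.a (l + 1)) (s.a (l + 2)) ∧ ∃ r1 r2, s' = rsd s l r1 r2
  | .ring, s, s' => ∃ u r, s' = hsd s u r ∧ (∀ i, s.Y (u i)) ∧ Function.Injective u ∧
      (∀ i j, i ≠ j → G.Adj (s.a i) (u j)) ∧ (∀ i, ¬ G.Adj (s.a i) (u i)) ∧
      (∀ i j, ¬ G.Adj (s.a i) (s.a j)) ∧ (∀ i j, ¬ G.Adj (u i) (u j)) ∧ ∀ i j, u i ≠ s.a j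

/-- A chain of letters. -/
def Chn (G : SimpleGraph V) : List Let → Sd V → Sd V → Prop
  | [], s, s' => s' = s
  | x :: w, s, s' => ∃ s1, Stp G x s s1 ∧ CutK G s1.Y s1.a s1.b ∧ Chn G w s1 s'

/-- The rung `p` is not followed by itself. -/
def NoRep : Option Let → List Let → Prop
  | _, [] => True
  | p, x :: w => (∀ l, x = .rung l → p ≠ some (.rung l)) ∧ NoRep (some x) w

/-- Near. -/
def Nr (G : SimpleGraph V) (n : ℕ) (u v : V) : Prop := ∃ p : G.Walk u v, p.length ≤ n

theorem Nr.rfl' {v : V} : Nr G 0 v v := ⟨SimpleGraph.Walk.nil, le_rfl⟩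

theorem Nr.step {n : ℕ} {u v w : V} (h : Nr G n u v) (hv : G.Adj v w) : Nr G (n + 1) u w := by
  obtain ⟨p, hp⟩ := h
  exact ⟨p.concat hv, by rw [SimpleGraph.Walk.length_concat]; omega⟩

theorem Nr.mono {n m : ℕ} {u v : V} (h : Nr G n u v) (hm : n ≤ m) : Nr G m u v := by
  obtain ⟨p, hp⟩ := h
  exact ⟨p, hp.trans hm⟩

/-- A vertex of degree two or a cycle of length four is near. -/
def Gn (G : SimpleGraph V) (n : ℕ) (α : V) : Prop :=
  (∃ v, Nr G n α v ∧ dg G v = 2) ∨ ∃ x y z w, Nr G n α x ∧ G.Adj x y ∧ G.Adj y z ∧ G.Adj z w ∧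
    G.Adj w x ∧ x ≠ z ∧ y ≠ w

theorem Gn.mono {n m : ℕ} {α : V} (h : Gn G n α) (hm : n ≤ m) : Gn G m α := by
  rcases h with ⟨v, h1, h2⟩ | ⟨x, y, z, w, h1, h2⟩
  · exact Or.inl ⟨v, h1.mono hm, h2⟩
  · exact Or.inr ⟨x, y, z, w, h1.mono hm, h2⟩

theorem fpair : ∀ i j : Fin 3, i ≠ j → ∃ l, (i = l + 1 ∧ j = l + 2) ∨ (i = l + 2 ∧ j = l + 1) := by
  decide

/-- **The third phase**: all outer ends are near. -/
theorem phase3 (H : Hyp G X0) {α : V} : ∀ (n : ℕ) (s : Sd V) (D : ℕ) (p : Option Let),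
    (∀ v, s.Y v → X0 v) → CutK G s.Y s.a s.b → (∀ i, dg G (s.a i) = 3) →
    (∀ i, Nr G D α (s.b i)) → (∀ l, p = some (.rung l) → G.Adj (s.b (l + 1)) (s.b (l + 2))) →
    Gn G (D + 3 * n + 3) α ∨ ∃ w s', w.length = n ∧ Chn G w s s' ∧ NoRep p w := by
  intro n
  induction n with
  | zero => exact fun s D p _ _ _ _ _ => Or.inr ⟨[], s, rfl, rfl, trivial⟩
  | succ n ih =>
    intro s D p hs hc h3 hb hp
    have ha : ∀ i, Nr G (D + 1) α (s.a i) := fun i => (hb i).step (hc.adj i).symm
    by_cases hadj : ∃ i j, i ≠ j ∧ G.Adj (s.a i) (s.a j)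
    · obtain ⟨i, j, hij, hadj⟩ := hadj
      obtain ⟨l, hl⟩ := fpair i j hij
      have hr : G.Adj (s.a (l + 1)) (s.a (l + 2)) := by
        rcases hl with ⟨rfl, rfl⟩ | ⟨rfl, rfl⟩
        · exact hadj
        · exact hadj.symm
      by_cases hpl : p = some (.rung l)
      · left
        right
        exact ⟨s.b (l + 1), s.a (l + 1), s.a (l + 2), s.b (l + 2), (hb _).mono (by omega),
          (hc.adj _).symm, hr, hc.adj _, (hp l hpl).symm, (a_ne_b hc _ _).symm, a_ne_b hc _ _⟩
      · obtain ⟨r1, r2, x1, x2, -, z1, z2, -, -, -, -, hcut⟩ :=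
          rung_step H hs hc hr (h3 _) (h3 _)
        rcases H.deg r1 (hs _ z1) with d1 | d1
        · exact Or.inl (Or.inl ⟨r1, ((ha _).step x1).mono (by omega), d1⟩)
        rcases H.deg r2 (hs _ z2) with d2 | d2
        · exact Or.inl (Or.inl ⟨r2, ((ha _).step x2).mono (by omega), d2⟩)
        have hc1 := hcut (Or.inr ⟨d1, d2⟩)
        have := ih (rsd s l r1 r2) (D + 1) (some (.rung l)) (fun v hv => hs v hv.1) hc1
          (fun i => by
            rcases fcase l i with h | h | h
            · rw [h, rsd_a0]; exact h3 l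
            · rw [h, rsd_a1]; exact d1
            · rw [h, rsd_a2]; exact d2)
          (fun i => by
            rcases fcase l i with h | h | h
            · rw [h, rsd_b0]; exact (hb l).mono (by omega)
            · rw [h, rsd_b1]; exact ha _
            · rw [h, rsd_b2]; exact ha _)
          (fun l' hl' => by
            have : l = l' := by
              injection hl' with h
              injection h
            subst this
            rw [rsd_b1, rsd_b2]
            exact hr)
        rcases this with h | ⟨w, s', h1, h2, h4⟩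
        · exact Or.inl (h.mono (by omega))
        · refine Or.inr ⟨.rung l :: w, s', by simp [h1], ⟨_, ⟨hr, r1, r2, rfl⟩, hc1, h2⟩,
            fun l' hl' => ?_, h4⟩
          have : l = l' := by injection hl'
          subst this
          exact hpl
    · push Not at hadj
      have hna : ∀ i j, ¬ G.Adj (s.a i) (s.a j) := by
        intro i j h
        by_cases hij : i = j
        · rw [hij] at h
          exact G.loopless.irrefl _ h
        · exact hadj i j hij h
      have hcom : ∀ i j, i ≠ j → ∃ u, s.Y u ∧ G.Adj (s.a i) u ∧ G.Adj (s.a j) u := by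
        rcases H.bad s hs hc ⟨s.a 0, s.a 1, hc.hX 0, hc.hX 1, fun h => by
          have := hc.ia h
          revert this
          decide, h3 0, h3 1⟩ with ⟨i, j, hij, h⟩ | h
        · exact absurd h (hna i j)
        · exact h
      obtain ⟨u, u1, u2, u3, u4, u5, u6, hu⟩ := ring_step H hs hc h3 hna hcom
      have hun : ∀ i, Nr G (D + 2) α (u i) := by
        intro i
        exact (ha (i + 1)).step (u3 (i + 1) i (f1 i))
      by_cases hu3 : ∀ i, dg G (u i) = 3
      · obtain ⟨r, r1, r2, r3, r4, hr⟩ := hu hu3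
        by_cases hr3 : ∀ i, dg G (r i) = 3
        · rcases hr hr3 with h | hc1
          · left
            right
            refine ⟨s.a 2, u 0, r 0, u 1, (ha 2).mono (by omega), u3 2 0 (by decide), r1 0, ?_,
              (u3 2 1 (by decide)).symm, (r3 0 2).symm, fun h' => ?_⟩
            · rw [h]
              exact (r1 1).symm
            · have := u2 h'
              revert this
              decide
          · have := ih (hsd s u r) (D + 2) (some .ring) (fun v hv => hs v hv.1) hc1 hr3 hun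
              (fun l hl => by injection hl with h; cases h)
            rcases this with h | ⟨w, s', h1, h2, h4⟩
            · exact Or.inl (h.mono (by omega))
            · exact Or.inr ⟨.ring :: w, s', by simp [h1],
                ⟨_, ⟨u, r, rfl, u1, u2, u3, u4, hna, u5, u6⟩, hc1, h2⟩,
                (fun l hl => by cases hl), h4⟩
        · push Not at hr3
          obtain ⟨i, hi⟩ := hr3
          rcases H.deg _ (hs _ (r2 i)) with d | d
          · exact Or.inl (Or.inl ⟨r i, ((hun i).step (r1 i)).mono (by omega), d⟩)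
          · exact absurd d hi
      · push Not at hu3
        obtain ⟨i, hi⟩ := hu3
        rcases H.deg _ (hs _ (u1 i)) with d | d
        · exact Or.inl (Or.inl ⟨u i, (hun i).mono (by omega), d⟩)
        · exact absurd d hi

/-- The conclusion. -/
def Con (G : SimpleGraph V) (n D : ℕ) (α : V) (Y : V → Prop) : Prop :=
  Gn G (D + 3 * n + 10) α ∨ ∃ w s s', w.length = n ∧ (∀ v, s.Y v → Y v) ∧ (∀ i, Y (s.b i)) ∧
    CutK G s.Y s.a s.b ∧ (∀ i, Nr G (D + 5) α (s.b i)) ∧ Chn G w s s' ∧ NoRep none w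

theorem NoRep.none {p : Option Let} {w : List Let} (h : NoRep p w) : NoRep none w := by
  cases w with
  | nil => trivial
  | cons x w => exact ⟨(fun l _ h => by cases h), h.2⟩

theorem Con.mono {n D D' : ℕ} {α : V} {Y Y' : V → Prop} (h : Con G n D α Y) (hD : D ≤ D')
    (hY : ∀ v, Y v → Y' v) : Con G n D' α Y' := by
  rcases h with h | ⟨w, s, s', h1, h2, h3, h4, h5, h6⟩
  · exact Or.inl (h.mono (by omega))
  · exact Or.inr ⟨w, s, s', h1, fun v hv => hY v (h2 v hv), fun i => hY _ (h3 i), h4,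
      fun i => (h5 i).mono (by omega), h6⟩

/-- From the third phase. -/
theorem con_of3 (H : Hyp G X0) {α : V} (n : ℕ) {s : Sd V} {D : ℕ} {Y : V → Prop} (p : Option Let)
    (hY0 : ∀ v, Y v → X0 v)
    (hs : ∀ v, s.Y v → Y v) (hbY : ∀ i, Y (s.b i)) (hc : CutK G s.Y s.a s.b)
    (h3 : ∀ i, dg G (s.a i) = 3) (hb : ∀ i, Nr G (D + 5) α (s.b i))
    (hp : ∀ l, p = some (.rung l) → G.Adj (s.b (l + 1)) (s.b (l + 2))) : Con G n D α Y := by
  rcases phase3 H n s (D + 5) p (fun v hv => hY0 v (hs v hv)) hc h3 hb hp with h | ⟨w, s', h1, h2, h3'⟩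
  · exact Or.inl (h.mono (by omega))
  · exact Or.inr ⟨w, s, s', h1, hs, hbY, hc, hb, h2, h3'.none⟩

open Classical in
theorem card_lt {Y Y' : V → Prop} (h : ∀ v, Y' v → Y v) {x : V} (hx : Y x) (hx' : ¬ Y' x) :
    (Finset.univ.filter Y').card < (Finset.univ.filter Y).card := by
  refine Finset.card_lt_card ⟨fun v hv => ?_, fun h' => ?_⟩
  · rw [Finset.mem_filter] at hv ⊢
    exact ⟨hv.1, h v hv.2⟩
  · have := h' (Finset.mem_filter.2 ⟨Finset.mem_univ x, hx⟩)
    rw [Finset.mem_filter] at this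
    exact hx' this.2

theorem fne : ∀ l : Fin 3, l + 1 ≠ l ∧ l + 2 ≠ l ∧ l + 1 ≠ l + 2 ∧ l + 1 + 1 = l + 2 ∧
    l + 1 + 2 = l ∧ l + 2 + 1 = l ∧ l + 2 + 2 = l + 1 := by decide

open Classical in
/-- **The second phase**: the outer ends of two strands are near and form a rung. -/
theorem phase2 (H : Hyp G X0) {α : V} (n D : ℕ) (Y : V → Prop) (hY0 : ∀ v, Y v → X0 v) :
    ∀ (m : ℕ) (s : Sd V) (l : Fin 3), (Finset.univ.filter s.Y).card = m →
    (∀ v, s.Y v → Y v) → Y (s.b (l + 1)) → Y (s.b (l + 2)) → CutK G s.Y s.a s.b →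
    G.Adj (s.b (l + 1)) (s.b (l + 2)) → Nr G D α (s.b (l + 1)) → Nr G D α (s.b (l + 2)) →
    dg G (s.a (l + 1)) = 3 → dg G (s.a (l + 2)) = 3 → Con G n D α Y := by
  intro m
  induction m using Nat.strong_induction_on with
  | _ m ih =>
  intro s l hm hs hY1 hY2 hc hbb hb1 hb2 d1 d2
  have ha1 : Nr G (D + 1) α (s.a (l + 1)) := hb1.step (hc.adj _).symm
  have ha2 : Nr G (D + 1) α (s.a (l + 2)) := hb2.step (hc.adj _).symm
  have hsX : ∀ v, s.Y v → X0 v := fun v hv => hY0 v (hs v hv)
  rcases H.deg (s.a l) (hsX _ (hc.hX l)) with d0 | d0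
  · -- a vertex of degree two
    obtain ⟨y, y1, y2, y3, y4⟩ := pass_step hc d0
    by_cases e1 : y = s.a (l + 1)
    · exact Or.inl (Or.inl ⟨s.a l, (ha1.step (e1 ▸ y1.symm)).mono (by omega), d0⟩)
    by_cases e2 : y = s.a (l + 2)
    · exact Or.inl (Or.inl ⟨s.a l, (ha2.step (e2 ▸ y1.symm)).mono (by omega), d0⟩)
    have hc1 := y4 fun j hj => by
      rcases fcase l j with h | h | h
      · exact absurd h hj
      · rw [h]; exact e1
      · rw [h]; exact e2
    have n1 := f1 l
    have n2 := f2 l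
    refine ih _ (by
      rw [← hm]
      exact card_lt (Y := s.Y) (Y' := (psd s l y).Y) (fun v hv => hv.1) (hc.hX l) fun h => h.2 rfl)
      (psd s l y) l rfl (fun v hv => hs v hv.1) ?_ ?_ hc1 ?_ ?_ ?_ ?_ ?_
    · show Y (if l + 1 = l then _ else s.b (l + 1))
      rw [if_neg n1]; exact hY1
    · show Y (if l + 2 = l then _ else s.b (l + 2))
      rw [if_neg n2]; exact hY2
    · show G.Adj (if l + 1 = l then _ else s.b (l + 1)) (if l + 2 = l then _ else s.b (l + 2))
      rw [if_neg n1, if_neg n2]; exact hbb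
    · show Nr G D α (if l + 1 = l then _ else s.b (l + 1))
      rw [if_neg n1]; exact hb1
    · show Nr G D α (if l + 2 = l then _ else s.b (l + 2))
      rw [if_neg n2]; exact hb2
    · show dg G (if l + 1 = l then _ else s.a (l + 1)) = 3
      rw [if_neg n1]; exact d1
    · show dg G (if l + 2 = l then _ else s.a (l + 2)) = 3
      rw [if_neg n2]; exact d2
  -- all ends have degree three
  have h3 : ∀ i, dg G (s.a i) = 3 := fun i => by
    rcases fcase l i with h | h | h
    · rw [h]; exact d0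
    · rw [h]; exact d1
    · rw [h]; exact d2
  by_cases hadj12 : G.Adj (s.a (l + 1)) (s.a (l + 2))
  · left
    right
    exact ⟨s.b (l + 1), s.a (l + 1), s.a (l + 2), s.b (l + 2), hb1.mono (by omega),
      (hc.adj _).symm, hadj12, hc.adj _, hbb.symm, (a_ne_b hc _ _).symm, a_ne_b hc _ _⟩
  by_cases hadj : ∃ i j, i ≠ j ∧ G.Adj (s.a i) (s.a j)
  · -- a rung at the strand `l`
    have hk : ∃ k, k ≠ l ∧ G.Adj (s.a (k + 1)) (s.a (k + 2)) := by
      obtain ⟨i, j, hij, h⟩ := hadj
      obtain ⟨k, hk⟩ := fpair i j hij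
      have h' : G.Adj (s.a (k + 1)) (s.a (k + 2)) := by
        rcases hk with ⟨rfl, rfl⟩ | ⟨rfl, rfl⟩
        · exact h
        · exact h.symm
      exact ⟨k, fun e => hadj12 (e ▸ h'), h'⟩
    obtain ⟨k, hkl, hr⟩ := hk
    obtain ⟨r1, r2, x1, x2, -, z1, z2, -, -, -, -, hcut⟩ := rung_step H hsX hc hr (h3 _) (h3 _)
    have hnear : ∀ i, i ≠ l → Nr G (D + 1) α (s.a i) := by
      intro i hi
      rcases fcase l i with h | h | h
      · exact absurd h hi
      · rw [h]; exact ha1
      · rw [h]; exact ha2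
    have hbnear : ∀ i, i ≠ l → Nr G D α (s.b i) ∧ Y (s.b i) := by
      intro i hi
      rcases fcase l i with h | h | h
      · exact absurd h hi
      · rw [h]; exact ⟨hb1, hY1⟩
      · rw [h]; exact ⟨hb2, hY2⟩
    have hboth : Nr G (D + 2) α (s.a (k + 1)) ∧ Nr G (D + 2) α (s.a (k + 2)) := by
      by_cases h1 : k + 1 = l
      · have h2 : k + 2 ≠ l := fun h => f12 k (h1.trans h.symm)
        exact ⟨(hnear _ h2).step hr.symm, (hnear _ h2).mono (by omega)⟩
      · exact ⟨(hnear _ h1).mono (by omega), (hnear _ h1).step hr⟩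
    rcases H.deg r1 (hsX _ z1) with e1 | e1
    · exact Or.inl (Or.inl ⟨r1, (hboth.1.step x1).mono (by omega), e1⟩)
    rcases H.deg r2 (hsX _ z2) with e2 | e2
    · exact Or.inl (Or.inl ⟨r2, (hboth.2.step x2).mono (by omega), e2⟩)
    have hc1 := hcut (Or.inr ⟨e1, e2⟩)
    refine con_of3 H n (s := rsd s k r1 r2) (D := D) (some (.rung k)) hY0
      (fun v hv => hs v hv.1) (fun i => ?_) hc1 (fun i => ?_) (fun i => ?_) (fun l' hl' => ?_)
    · rcases fcase k i with h | h | h
      · rw [h, rsd_b0]; exact (hbnear k hkl).2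
      · rw [h, rsd_b1]; exact hs _ (hc.hX _)
      · rw [h, rsd_b2]; exact hs _ (hc.hX _)
    · rcases fcase k i with h | h | h
      · rw [h, rsd_a0]; exact h3 k
      · rw [h, rsd_a1]; exact e1
      · rw [h, rsd_a2]; exact e2
    · rcases fcase k i with h | h | h
      · rw [h, rsd_b0]; exact (hbnear k hkl).1.mono (by omega)
      · rw [h, rsd_b1]; exact hboth.1.mono (by omega)
      · rw [h, rsd_b2]; exact hboth.2.mono (by omega)
    · have : k = l' := by
        injection hl' with h
        injection h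
      subst this
      rw [rsd_b1, rsd_b2]
      exact hr
  · -- a ring
    push Not at hadj
    have hna : ∀ i j, ¬ G.Adj (s.a i) (s.a j) := by
      intro i j h
      by_cases hij : i = j
      · rw [hij] at h
        exact G.loopless.irrefl _ h
      · exact hadj i j hij h
    have hcom : ∀ i j, i ≠ j → ∃ u, s.Y u ∧ G.Adj (s.a i) u ∧ G.Adj (s.a j) u := by
      rcases H.bad s hsX hc ⟨s.a 0, s.a 1, hc.hX 0, hc.hX 1, fun h => by
        have := hc.ia h
        revert this
        decide, h3 0, h3 1⟩ with ⟨i, j, hij, h⟩ | h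
      · exact absurd h (hna i j)
      · exact h
    obtain ⟨u, u1, u2, u3, u4, u5, u6, hu⟩ := ring_step H hsX hc h3 hna hcom
    have hun : ∀ i, Nr G (D + 2) α (u i) := by
      intro i
      by_cases hi : i = l + 1
      · exact ha2.step (u3 (l + 2) i (by rw [hi]; exact (f12 l).symm))
      · exact ha1.step (u3 (l + 1) i (Ne.symm hi))
    by_cases hu3 : ∀ i, dg G (u i) = 3
    · obtain ⟨r, r1, r2, r3, r4, hr⟩ := hu hu3
      by_cases hr3 : ∀ i, dg G (r i) = 3
      · rcases hr hr3 with h | hc1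
        · left
          right
          refine ⟨r 0, u 0, s.a 2, u 1, ((hun 0).step (r1 0)).mono (by omega), (r1 0).symm,
            (u3 2 0 (by decide)).symm, u3 2 1 (by decide), ?_, r3 0 2, fun h' => ?_⟩
          · rw [h]
            exact r1 1
          · have := u2 h'
            revert this
            decide
        · exact con_of3 H n (s := hsd s u r) (D := D) (some .ring) hY0
            (fun v hv => hs v hv.1) (fun i => hs _ (u1 i)) hc1 hr3
            (fun i => (hun i).mono (by omega)) (fun l hl => by injection hl with h; cases h)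
      · push Not at hr3
        obtain ⟨i, hi⟩ := hr3
        rcases H.deg _ (hsX _ (r2 i)) with d | d
        · exact Or.inl (Or.inl ⟨r i, ((hun i).step (r1 i)).mono (by omega), d⟩)
        · exact absurd d hi
    · push Not at hu3
      obtain ⟨i, hi⟩ := hu3
      rcases H.deg _ (hsX _ (u1 i)) with d | d
      · exact Or.inl (Or.inl ⟨u i, (hun i).mono (by omega), d⟩)
      · exact absurd d hi

open Classical in
/-- **The first phase**: near one leaving edge. -/
theorem phase1 (H : Hyp G X0) {α : V} (n : ℕ) (Y : V → Prop) (hY0 : ∀ v, Y v → X0 v) :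
    ∀ (m : ℕ) (s : Sd V) (k : Fin 3), (Finset.univ.filter s.Y).card = m →
    (∀ v, s.Y v → Y v) → CutK G s.Y s.a s.b → s.a k = α → Con G n 5 α Y := by
  intro m
  induction m using Nat.strong_induction_on with
  | _ m ih =>
  intro s k hm hs hc hk
  have hsX : ∀ v, s.Y v → X0 v := fun v hv => hY0 v (hs v hv)
  have hα : Nr G 0 α (s.a k) := by rw [hk]; exact Nr.rfl'
  rcases H.deg (s.a k) (hsX _ (hc.hX k)) with dk | dk
  · exact Or.inl (Or.inl ⟨s.a k, hα.mono (by omega), dk⟩)
  -- a vertex of degree two next to `α`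
  by_cases hnb2 : ∃ v, G.Adj (s.a k) v ∧ dg G v = 2
  · obtain ⟨v, v1, v2⟩ := hnb2
    exact Or.inl (Or.inl ⟨v, (hα.step v1).mono (by omega), v2⟩)
  push Not at hnb2
  -- another end of degree two
  by_cases h2 : ∃ i, i ≠ k ∧ dg G (s.a i) = 2
  · obtain ⟨i, hik, d2⟩ := h2
    obtain ⟨y, y1, y2, y3, y4⟩ := pass_step hc d2
    have hyk : y ≠ s.a k := fun h => hnb2 _ (by rw [← h]; exact y1.symm) d2
    have hc1 := y4 fun j hj hyj => by
      -- the end `a j` is next to the vertex of degree two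
      have hjk : j ≠ k := fun h => hyk (by rw [hyj, h])
      have hle : (leave G {v | (s.Y v ∧ v ≠ s.a i) ∧ v ≠ s.a j}).ncard ≤ 2 := by
        rcases H.deg (s.a j) (hsX _ (hc.hX j)) with dj | dj
        · -- both of degree two: only one leaving edge
          refine leave_le_two (x := s.a k) (y := s.b k) (x' := s.a k) (y' := s.b k) ?_
          rintro u v ⟨⟨w1, w2⟩, w3⟩ hv huv
          obtain ⟨z, z1, z2, z3⟩ := second dj (hc.adj j)
          obtain ⟨t, t1, t2, t3⟩ := second d2 (hc.adj i)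
          have hz : z = s.a i := by
            rcases z3 (s.a i) (by rw [← hyj]; exact y1.symm) with h | h
            · exact absurd h (a_ne_b hc _ _)
            · exact h.symm
          have ht : t = s.a j := by
            rcases t3 (s.a j) (by rw [← hyj]; exact y1) with h | h
            · exact absurd h (a_ne_b hc _ _)
            · exact h.symm
          by_cases hvj : v = s.a j
          · rw [hvj] at huv
            rcases z3 u huv.symm with h | h
            · exact absurd w1 (h ▸ hc.hY j)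
            · exact absurd (h.trans hz) w2
          · by_cases hvi : v = s.a i
            · rw [hvi] at huv
              rcases t3 u huv.symm with h | h
              · exact absurd w1 (h ▸ hc.hY i)
              · exact absurd (h.trans ht) w3
            · have hvY : ¬ s.Y v := fun h => hv ⟨⟨h, hvi⟩, hvj⟩
              obtain ⟨q, q1, q2⟩ := hc.cut u v w1 hvY huv
              rcases fall i j k q (Ne.symm hj) hik.symm hjk.symm with h | h | h
              · exact absurd (by rw [q1, h]) w2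
              · exact absurd (by rw [q1, h]) w3
              · exact Or.inl ⟨by rw [q1, h], by rw [q2, h]⟩
        · obtain ⟨z, z1, z2, z3, z4⟩ := third dj (hc.adj j)
            (show G.Adj (s.a j) (s.a i) by rw [← hyj]; exact y1.symm) (a_ne_b hc _ _).symm
          refine leave_le_two (x := s.a k) (y := s.b k) (x' := z) (y' := s.a j) ?_
          rintro u v ⟨⟨w1, w2⟩, w3⟩ hv huv
          obtain ⟨t, t1, t2, t3⟩ := second d2 (hc.adj i)
          have ht : t = s.a j := by
            rcases t3 (s.a j) (by rw [← hyj]; exact y1) with h | h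
            · exact absurd h (a_ne_b hc _ _)
            · exact h.symm
          by_cases hvj : v = s.a j
          · rw [hvj] at huv
            rcases z4 u huv.symm with h | h | h
            · exact absurd w1 (h ▸ hc.hY j)
            · exact absurd h w2
            · exact Or.inr ⟨h, hvj⟩
          · by_cases hvi : v = s.a i
            · rw [hvi] at huv
              rcases t3 u huv.symm with h | h
              · exact absurd w1 (h ▸ hc.hY i)
              · exact absurd (h.trans ht) w3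
            · have hvY : ¬ s.Y v := fun h => hv ⟨⟨h, hvi⟩, hvj⟩
              obtain ⟨q, q1, q2⟩ := hc.cut u v w1 hvY huv
              rcases fall i j k q (Ne.symm hj) hik.symm hjk.symm with h | h | h
              · exact absurd (by rw [q1, h]) w2
              · exact absurd (by rw [q1, h]) w3
              · exact Or.inl ⟨by rw [q1, h], by rw [q2, h]⟩
      have h0 := H.two _ (fun v hv => hsX v hv.1.1) hle (s.a k)
        ⟨⟨hc.hX k, fun h => hik (hc.ia h).symm⟩, fun h => hjk (hc.ia h).symm⟩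
      omega
    have e1 : (psd s i y).a k = s.a k := if_neg (Ne.symm hik)
    exact ih _ (by
      rw [← hm]
      exact card_lt (Y := s.Y) (Y' := (psd s i y).Y) (fun v hv => hv.1) (hc.hX i) fun h => h.2 rfl)
      (psd s i y) k rfl (fun v hv => hs v hv.1) hc1 (e1.trans hk)
  push Not at h2
  have h3 : ∀ i, dg G (s.a i) = 3 := fun i => by
    by_cases hi : i = k
    · rw [hi]; exact dk
    · rcases H.deg (s.a i) (hsX _ (hc.hX i)) with h | h
      · exact absurd h (h2 i hi)
      · exact h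
  by_cases hadj : ∃ i j, i ≠ j ∧ G.Adj (s.a i) (s.a j)
  · by_cases hk1 : ∃ l, l ≠ k ∧ G.Adj (s.a (l + 1)) (s.a (l + 2))
    · -- a rung at the strand `k`
      obtain ⟨l, hlk, hr⟩ := hk1
      obtain ⟨r1, r2, x1, x2, -, z1, z2, -, -, -, -, hcut⟩ :=
        rung_step H hsX hc hr (h3 _) (h3 _)
      have hboth : Nr G 1 α (s.a (l + 1)) ∧ Nr G 1 α (s.a (l + 2)) := by
        rcases fcase l k with h | h | h
        · exact absurd h.symm hlk
        · rw [h] at hα
          exact ⟨hα.mono (by omega), hα.step hr⟩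
        · rw [h] at hα
          exact ⟨hα.step hr.symm, hα.mono (by omega)⟩
      rcases H.deg r1 (hsX _ z1) with e1 | e1
      · exact Or.inl (Or.inl ⟨r1, (hboth.1.step x1).mono (by omega), e1⟩)
      rcases H.deg r2 (hsX _ z2) with e2 | e2
      · exact Or.inl (Or.inl ⟨r2, (hboth.2.step x2).mono (by omega), e2⟩)
      have hc1 := hcut (Or.inr ⟨e1, e2⟩)
      refine (phase2 H n 1 Y hY0 _ (rsd s l r1 r2) l rfl (fun v hv => hs v hv.1) ?_ ?_ hc1 ?_ ?_ ?_
        ?_ ?_).mono (by omega) fun v hv => hv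
      · rw [rsd_b1]; exact hs _ (hc.hX _)
      · rw [rsd_b2]; exact hs _ (hc.hX _)
      · rw [rsd_b1, rsd_b2]; exact hr
      · rw [rsd_b1]; exact hboth.1
      · rw [rsd_b2]; exact hboth.2
      · rw [rsd_a1]; exact e1
      · rw [rsd_a2]; exact e2
    · -- a rung at the two other strands
      push Not at hk1
      have hr : G.Adj (s.a (k + 1)) (s.a (k + 2)) := by
        obtain ⟨i, j, hij, h⟩ := hadj
        obtain ⟨l, hl⟩ := fpair i j hij
        have h' : G.Adj (s.a (l + 1)) (s.a (l + 2)) := by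
          rcases hl with ⟨rfl, rfl⟩ | ⟨rfl, rfl⟩
          · exact h
          · exact h.symm
        by_cases hlk : l = k
        · rw [← hlk]; exact h'
        · exact absurd h' (hk1 l hlk)
      obtain ⟨r1, r2, x1, x2, -, z1, z2, -, -, -, -, hcut⟩ :=
        rung_step H hsX hc hr (h3 _) (h3 _)
      obtain ⟨q1, q2, q3, q4, q5, q6, q7⟩ := fne k
      have e1 : r1 ≠ s.a k := fun h => by
        have := hk1 (k + 2) q2
        rw [q6, q7] at this
        exact this (by rw [← h]; exact x1.symm)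
      have e2 : r2 ≠ s.a k := fun h => by
        have := hk1 (k + 1) q1
        rw [q4, q5] at this
        exact this (by rw [← h]; exact x2)
      have hc1 := hcut (Or.inl ⟨e1, e2⟩)
      exact ih _ (by
        rw [← hm]
        exact card_lt (Y := s.Y) (Y' := (rsd s k r1 r2).Y) (fun v hv => hv.1) (hc.hX (k + 1))
          fun h => h.2.1 rfl)
        (rsd s k r1 r2) k rfl (fun v hv => hs v hv.1) hc1 (rsd_a0.trans hk)
  · -- a ring
    push Not at hadj
    have hna : ∀ i j, ¬ G.Adj (s.a i) (s.a j) := by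
      intro i j h
      by_cases hij : i = j
      · rw [hij] at h
        exact G.loopless.irrefl _ h
      · exact hadj i j hij h
    have hcom : ∀ i j, i ≠ j → ∃ u, s.Y u ∧ G.Adj (s.a i) u ∧ G.Adj (s.a j) u := by
      rcases H.bad s hsX hc ⟨s.a 0, s.a 1, hc.hX 0, hc.hX 1, fun h => by
        have := hc.ia h
        revert this
        decide, h3 0, h3 1⟩ with ⟨i, j, hij, h⟩ | h
      · exact absurd h (hna i j)
      · exact h
    obtain ⟨u, u1, u2, u3, u4, u5, u6, hu⟩ := ring_step H hsX hc h3 hna hcom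
    obtain ⟨q1, q2, q3, q4, q5, q6, q7⟩ := fne k
    have hu0 : ∀ i, i ≠ k → Nr G 1 α (u i) := fun i hi => hα.step (u3 k i (Ne.symm hi))
    have hun : ∀ i, Nr G 3 α (u i) := by
      intro i
      by_cases hi : i = k
      · have h1 := hu0 (k + 1) q1
        have h2' := (h1.step (u3 (k + 2) (k + 1) q3.symm).symm).step (u3 (k + 2) k q2)
        rw [hi]
        exact h2'
      · exact (hu0 i hi).mono (by omega)
    by_cases hu3 : ∀ i, dg G (u i) = 3
    · obtain ⟨r, r1, r2, r3, r4, hr⟩ := hu hu3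
      by_cases hr3 : ∀ i, dg G (r i) = 3
      · rcases hr hr3 with h | hc1
        · left
          right
          refine ⟨r 0, u 0, s.a 2, u 1, ((hun 0).step (r1 0)).mono (by omega), (r1 0).symm,
            (u3 2 0 (by decide)).symm, u3 2 1 (by decide), ?_, r3 0 2, fun h' => ?_⟩
          · rw [h]
            exact r1 1
          · have := u2 h'
            revert this
            decide
        · exact con_of3 H n (s := hsd s u r) (D := 5) (some .ring) hY0
            (fun v hv => hs v hv.1) (fun i => hs _ (u1 i)) hc1 hr3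
            (fun i => (hun i).mono (by omega)) (fun l hl => by injection hl with h; cases h)
      · push Not at hr3
        obtain ⟨i, hi⟩ := hr3
        rcases H.deg _ (hsX _ (r2 i)) with d | d
        · exact Or.inl (Or.inl ⟨r i, ((hun i).step (r1 i)).mono (by omega), d⟩)
        · exact absurd d hi
    · push Not at hu3
      obtain ⟨i, hi⟩ := hu3
      rcases H.deg _ (hsX _ (u1 i)) with d | d
      · exact Or.inl (Or.inl ⟨u i, (hun i).mono (by omega), d⟩)
      · exact absurd d hi

/-- **The chain of a hereditarily bad side.**  Near every inner end of a side there is a vertex of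
degree two, a cycle of length four, or a chain of `n` letters. -/
theorem chain_near (H : Hyp G X0) (n : ℕ) {s : Sd V} (hs : ∀ v, s.Y v → X0 v)
    (hc : CutK G s.Y s.a s.b) (k : Fin 3) : Con G n 5 (s.a k) s.Y :=
  phase1 H n s.Y hs _ s k rfl (fun _ h => h) hc rfl

end Pool.Agent.Bad59
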