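import Mathlib
import Pool.Agent.Work.MP_392c8e_co_uni.AccN

/-!
# The leaf lemma

Let `X` be one side of a cut with three edges.  If the side `X` accepts all vectors of colours at
its ends with heights in `[0, s)` and `3 s < N`, then every colouring of the other side at level
`N` extends to the whole graph: the ends on the other side leave a gap of length at least `N / 3`,
and the whole side `X` is put into the gap.
-/

namespace Pool.Agent.CutN

open Pool.Agent.Red (side side_le)

variable {N s : ℤ}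

/-- Lifts of colours and heights to the integers. -/
theorem jn_of_lift {x y t t' : ℤ} (h : (y : ZMod 3) = (x : ZMod 3) + 1) (ht : t < t')
    (h0 : 0 ≤ t) (h1 : t' < N) : Jn N ((N * y + t') - (N * x + t)) := by
  have h2 : ((y - (x + 1) : ℤ) : ZMod 3) = 0 := by
    push_cast
    rw [h]
    ring
  obtain ⟨m, hm⟩ := (ZMod.intCast_zmod_eq_zero_iff_dvd _ 3).1 h2
  have h3 : y = x + 1 + 3 * m := by
    push_cast at hm
    linarith
  refine ⟨-m, ?_, ?_⟩ <;> rw [h3] <;> linarith

/-- **The gap.**  Three points on a circle of length `N` leave a gap of length `N / 3`. -/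
theorem exists_gap (hs0 : 0 ≤ s) (hs : 3 * s < N) (x : Fin 3 → ℤ) :
    ∃ p : ℤ, ∀ i, s ≤ (x i - p) % N := by
  have hN : 0 < N := by linarith
  -- the residues
  set r : Fin 3 → ℤ := fun i => x i % N with hr
  have r0 : ∀ i, 0 ≤ r i ∧ r i < N := fun i =>
    ⟨Int.emod_nonneg _ hN.ne', Int.emod_lt_of_pos _ hN⟩
  have key : ∀ p : ℤ, ∀ i, (x i - p) % N = (r i - p) % N := by
    intro p i
    show (x i - p) % N = (x i % N - p) % N
    rw [Int.sub_emod, Int.sub_emod (x i % N) p, Int.emod_emod_of_dvd _ dvd_rfl]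
  have val : ∀ (p : ℤ) (i : Fin 3), 0 ≤ p → p ≤ N →
      (p + s ≤ r i ∨ (r i < p ∧ p + s ≤ r i + N)) → s ≤ (x i - p) % N := by
    intro p i hp0 hp1 h
    rw [key]
    rcases h with h | ⟨h, h'⟩
    · rw [Int.emod_eq_of_lt (by linarith) (by linarith [(r0 i).2])]
      linarith
    · have e : (r i - p) % N = (r i - p + N) % N := (Int.add_emod_right _ _).symm
      rw [e, Int.emod_eq_of_lt (by linarith [(r0 i).1]) (by linarith)]
      linarith
  have main : ∀ a b c : Fin 3, (∀ i, i = a ∨ i = b ∨ i = c) → r a ≤ r b → r b ≤ r c →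
      ∃ p : ℤ, ∀ i, s ≤ (x i - p) % N := by
    intro a b c hall hab hbc
    have a0 := r0 a
    have b0 := r0 b
    have c0 := r0 c
    by_cases g1 : s < r b - r a
    · refine ⟨r a + 1, fun i => ?_⟩
      refine val _ i (by linarith) (by linarith) ?_
      rcases hall i with rfl | rfl | rfl
      · exact Or.inr ⟨by linarith, by linarith⟩
      · exact Or.inl (by linarith)
      · exact Or.inl (by linarith)
    · by_cases g2 : s < r c - r b
      · refine ⟨r b + 1, fun i => ?_⟩
        refine val _ i (by linarith) (by linarith) ?_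
        rcases hall i with rfl | rfl | rfl
        · exact Or.inr ⟨by linarith, by linarith⟩
        · exact Or.inr ⟨by linarith, by linarith⟩
        · exact Or.inl (by linarith)
      · refine ⟨r c + 1, fun i => ?_⟩
        refine val _ i (by linarith) (by linarith) ?_
        rcases hall i with rfl | rfl | rfl
        · exact Or.inr ⟨by linarith, by linarith⟩
        · exact Or.inr ⟨by linarith, by linarith⟩
        · exact Or.inr ⟨by linarith, by linarith⟩
  rcases le_total (r 0) (r 1) with h1 | h1 <;> rcases le_total (r 1) (r 2) with h2 | h2 <;>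
    rcases le_total (r 0) (r 2) with h3 | h3
  · exact main 0 1 2 (by decide) h1 h2
  · exact main 0 1 2 (by decide) h1 h2
  · exact main 0 2 1 (by decide) h3 h2
  · exact main 2 0 1 (by decide) h3 h1
  · exact main 1 0 2 (by decide) h1 h3
  · exact main 1 2 0 (by decide) h2 h3
  · exact main 2 1 0 (by decide) h2 h1
  · exact main 2 1 0 (by decide) h2 h1

variable {V : Type*} {G : SimpleGraph V} {X : V → Prop} {a b : Fin 3 → V}

/-- A side which accepts the vector seen at a cut point of the circle can be deleted. -/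
theorem leafN_aux (hN : 0 < N) (hsN : s ≤ N)
    (hcut : ∀ u v, X u → ¬ X v → G.Adj u v → ∃ i, u = a i ∧ v = b i) {c2 : V → ℤ}
    (h2 : IsCol N (side G fun v => ¬ X v) c2) {p : ℤ} (hp : ∀ i, s ≤ (c2 (b i) - p) % N)
    (hacc : Acc s G X a fun i => (((c2 (b i) - p) / N : ℤ) : ZMod 3) - 1) :
    ∃ c, IsCol N G c ∧ ∀ v, ¬ X v → c v = c2 v := by
  obtain ⟨c, t, g1, g2, g3⟩ := hacc
  have dv : ∀ x : ℤ, x % N + N * (x / N) = x := fun x => Int.emod_add_mul_ediv x N
  have lift : ∀ x : ZMod 3, (((x.val : ℤ) : ℤ) : ZMod 3) = x := by decide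
  set c1 : V → ℤ := fun v => p + (N * ((c v).val : ℤ) + t v) with hc1
  have up : ∀ u v, c v = c u + 1 → t u < t v → Jn N (c1 v - c1 u) := by
    intro u v h3 h4
    have h5 := jn_of_lift (N := N) (x := ((c u).val : ℤ)) (y := ((c v).val : ℤ))
      (by rw [lift, lift, h3]) h4 (g2 u).1 (by linarith [(g2 v).2])
    have e : c1 v - c1 u = (N * ((c v).val : ℤ) + t v) - (N * ((c u).val : ℤ) + t u) := by
      show p + (N * ((c v).val : ℤ) + t v) - (p + (N * ((c u).val : ℤ) + t u)) = _
      ring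
    rw [e]
    exact h5
  have h1 : IsCol N (side G X) c1 := by
    intro u v huv
    rcases g1 u v huv with ⟨h3, h4⟩ | ⟨h3, h4⟩
    · exact up u v h3 h4
    · have := (up v u h3 h4).neg
      rwa [neg_sub] at this
  obtain ⟨c', k1, -, k3⟩ := glue_col X h1 h2 (by
    intro u v hu hv huv
    obtain ⟨i, rfl, rfl⟩ := hcut u v hu hv huv
    have h5 := jn_of_lift (N := N) (x := ((c (a i)).val : ℤ)) (y := (c2 (b i) - p) / N)
      (t := t (a i)) (t' := (c2 (b i) - p) % N)
      (by rw [lift, g3]; ring) (lt_of_lt_of_le (g2 _).2 (hp i)) (g2 _).1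
      (Int.emod_lt_of_pos _ hN)
    have e : c2 (b i) - c1 (a i) = (N * ((c2 (b i) - p) / N) + (c2 (b i) - p) % N) -
        (N * ((c (a i)).val : ℤ) + t (a i)) := by
      have := dv (c2 (b i) - p)
      show c2 (b i) - (p + (N * ((c (a i)).val : ℤ) + t (a i))) = _
      linarith
    rw [e]
    exact h5)
  exact ⟨c', k1, k3⟩

/-- **The leaf lemma.**  A side which accepts all vectors can be deleted. -/
theorem leafN (hs0 : 0 ≤ s) (hs : 3 * s < N)
    (hcut : ∀ u v, X u → ¬ X v → G.Adj u v → ∃ i, u = a i ∧ v = b i)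
    (hacc : ∀ y : Fin 3 → ZMod 3, Acc s G X a y) {c2 : V → ℤ}
    (h2 : IsCol N (side G fun v => ¬ X v) c2) :
    ∃ c, IsCol N G c ∧ ∀ v, ¬ X v → c v = c2 v := by
  obtain ⟨p, hp⟩ := exists_gap hs0 hs fun i => c2 (b i)
  exact leafN_aux (by linarith) (by linarith) hcut h2 hp (hacc _)

/-- Neighbours of one vertex have at most two colours, wherever the circle is cut. -/
theorem two_colours (hN : 0 < N) {x z : ℤ} (h : Jn N (x - z)) (p : ℤ) :
    ((((x - p) / N : ℤ) : ZMod 3) = (((z + N + 1 - p) / N : ℤ) : ZMod 3)) ∨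
    ((((x - p) / N : ℤ) : ZMod 3) = (((z + N + 1 - p) / N : ℤ) : ZMod 3) + 1) := by
  obtain ⟨k, h1, h2⟩ := h
  have three : (3 : ZMod 3) = 0 := by decide
  obtain ⟨d, hd⟩ : ∃ d, x - p = (z + N + 1 - p) + d - 3 * k * N := ⟨x - z - N - 1 + 3 * k * N, by
    ring⟩
  have d0 : 0 ≤ d ∧ d ≤ N - 2 := ⟨by linarith, by linarith⟩
  have e1 := Int.emod_add_mul_ediv (z + N + 1 - p) N
  have f1 := Int.emod_nonneg (z + N + 1 - p) hN.ne'
  have f2 := Int.emod_lt_of_pos (z + N + 1 - p) hN
  set w := z + N + 1 - p with hw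
  by_cases h3 : w % N + d < N
  · left
    have e : x - p = (w % N + d) + (w / N - 3 * k) * N := by linarith
    rw [e, Int.add_mul_ediv_right _ _ hN.ne', Int.ediv_eq_zero_of_lt (by linarith) h3]
    push_cast
    rw [three]
    ring
  · right
    have e : x - p = (w % N + d - N) + (w / N + 1 - 3 * k) * N := by linarith
    rw [e, Int.add_mul_ediv_right _ _ hN.ne', Int.ediv_eq_zero_of_lt (by linarith) (by linarith)]
    push_cast
    rw [three]
    ring

/-- **The leaf lemma for the neighbours of a vertex.**  Only the vectors with two equal entries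
are needed. -/
theorem leafN_claw (hs0 : 0 ≤ s) (hs : 3 * s < N)
    (hcut : ∀ u v, X u → ¬ X v → G.Adj u v → ∃ i, u = a i ∧ v = b i)
    (hacc : ∀ y : Fin 3 → ZMod 3, (∃ i j, i ≠ j ∧ y i = y j) → Acc s G X a y) {c2 : V → ℤ}
    (h2 : IsCol N (side G fun v => ¬ X v) c2) {z : ℤ} (hz : ∀ i, Jn N (c2 (b i) - z)) :
    ∃ c, IsCol N G c ∧ ∀ v, ¬ X v → c v = c2 v := by
  obtain ⟨p, hp⟩ := exists_gap hs0 hs fun i => c2 (b i)
  have hN : 0 < N := by linarith
  refine leafN_aux hN (by linarith) hcut h2 hp (hacc _ ?_)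
  have h0 := two_colours hN (hz 0) p
  have h1 := two_colours hN (hz 1) p
  have h3 := two_colours hN (hz 2) p
  rcases h0 with h0 | h0 <;> rcases h1 with h1 | h1
  · exact ⟨0, 1, by decide, by show _ - 1 = _ - 1; rw [h0, h1]⟩
  · rcases h3 with h3 | h3
    · exact ⟨0, 2, by decide, by show _ - 1 = _ - 1; rw [h0, h3]⟩
    · exact ⟨1, 2, by decide, by show _ - 1 = _ - 1; rw [h1, h3]⟩
  · rcases h3 with h3 | h3
    · exact ⟨1, 2, by decide, by show _ - 1 = _ - 1; rw [h1, h3]⟩
    · exact ⟨0, 2, by decide, by show _ - 1 = _ - 1; rw [h0, h3]⟩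
  · exact ⟨0, 1, by decide, by show _ - 1 = _ - 1; rw [h0, h1]⟩

/-- The closures with a claw and with a claw with a subdivided edge give all vectors with two equal
entries. -/
theorem acc_two {n : ℤ} (hn : 0 < n)
    (h0 : ∃ (H : SimpleGraph V) (q : V → ℤ) (z : V), IsCol n H q ∧ side G X ≤ H ∧
      ∀ i, H.Adj z (a i))
    (h1 : ∀ i j k : Fin 3, i ≠ j → i ≠ k → j ≠ k → ∃ (H : SimpleGraph V) (q : V → ℤ) (z u : V),
      IsCol n H q ∧ side G X ≤ H ∧ H.Adj z (a j) ∧ H.Adj z (a k) ∧ H.Adj z u ∧ H.Adj u (a i))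
    (y : Fin 3 → ZMod 3) (hy : ∃ i j, i ≠ j ∧ y i = y j) : Acc n G X a y := by
  rcases vec_cases y with h | ⟨i, j, k, hij, hik, hjk, g1, g2⟩ | h
  · obtain ⟨H, q, z, g1, g2, g3⟩ := h0
    exact (acc_claw hn g1 g2 g3 (y 0)).congr h
  · obtain ⟨H, q, z, u, e1, e2, e3, e4, e5, e6⟩ := h1 i j k hij hik hjk
    exact acc_V hn e1 e2 hij hik hjk e3 e4 e5 e6 g1 g2
  · obtain ⟨i, j, hij, e⟩ := hy
    exact absurd e (h i j hij)

end Pool.Agent.CutN
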