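import Mathlib
import Pool.Agent.Work.MP_392c8e_co_uni.LeafN

/-!
# Sides with two adjacent ends

If the ends `a p` and `a q` of a side are adjacent, then the two closures with a claw in which the
edge at `a p`, or the edge at `a q`, is subdivided give all vectors of colours with `y p ≠ y q`.
Such a side accepts every state of the outside in which the neighbours of `a p` and `a q` are not
close to each other.
-/

namespace Pool.Agent.CutN

open Pool.Agent.Red (side side_le)

variable {N s n : ℤ}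

section

variable {V : Type*} {G : SimpleGraph V} {X : V → Prop} {a b : Fin 3 → V}

/-- **The vectors with `y p ≠ y q`.** -/
theorem acc_K (hn : 0 < n) (ia : Function.Injective a) {p q r : Fin 3} (hpq : p ≠ q) (hpr : p ≠ r)
    (hqr : q ≠ r) (hadj : G.Adj (a p) (a q)) (hX : ∀ i, X (a i))
    (hp : ∃ (H : SimpleGraph V) (c : V → ℤ) (z u : V), IsCol n H c ∧ side G X ≤ H ∧
      H.Adj z (a q) ∧ H.Adj z (a r) ∧ H.Adj z u ∧ H.Adj u (a p))
    (hq : ∃ (H : SimpleGraph V) (c : V → ℤ) (z u : V), IsCol n H c ∧ side G X ≤ H ∧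
      H.Adj z (a p) ∧ H.Adj z (a r) ∧ H.Adj z u ∧ H.Adj u (a q))
    (y : Fin 3 → ZMod 3) (hy : y p ≠ y q) : Acc (2 * n) G X a y := by
  obtain ⟨H, c, z, u, e1, e2, e3, e4, e5, e6⟩ := hp
  by_cases h1 : y q = y r
  · exact (acc_V hn e1 e2 hpq hpr hqr e3 e4 e5 e6 hy h1).mono (by linarith)
  · by_cases h2 : y p = y r
    · obtain ⟨H', c', z', u', f1, f2, f3, f4, f5, f6⟩ := hq
      exact (acc_V hn f1 f2 hpq.symm hqr hpr f3 f4 f5 f6 hy.symm h2).mono (by linarith)
    · exact acc_X hn e1 e2 hpq hpr hqr ia (e2 ⟨hadj, hX p, hX q⟩) hy h2 h1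

end

/-- The quotient by `N` modulo three of a number in `[N, 3 N)`. -/
theorem div_mid (hN : 0 < N) {x : ℤ} (h1 : N ≤ x) (h2 : x < 3 * N) : x / N = 1 ∨ x / N = 2 := by
  have h3 : 1 ≤ x / N := by
    rw [Int.le_ediv_iff_mul_le hN]
    linarith
  have h4 : x / N < 3 := by
    rw [Int.ediv_lt_iff_lt_mul hN]
    linarith
  omega

/-- **The gap between two points.** -/
theorem gap_between (hs0 : 0 ≤ s) (hs : 3 * s < N) {x y w : ℤ} {D m : ℤ}
    (hD : y = x + D + 3 * N * m) (h1 : 2 * s + 2 ≤ D) (h2 : D < N) :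
    ∃ t : ℤ, s ≤ (x - t) % N ∧ s ≤ (y - t) % N ∧ s ≤ (w - t) % N ∧
      (((y - t) / N : ℤ) : ZMod 3) = (((x - t) / N : ℤ) : ZMod 3) + 1 := by
  have hN : 0 < N := by linarith
  have three : (3 : ZMod 3) = 0 := by decide
  -- the value for a threshold `x + e + 1`
  have key : ∀ e : ℤ, 0 ≤ e → e ≤ s → (x - (x + e + 1)) % N = N - e - 1 ∧
      (x - (x + e + 1)) / N = -1 ∧ (y - (x + e + 1)) % N = D - e - 1 ∧
      (y - (x + e + 1)) / N = 3 * m := by
    intro e h3 h4
    have e1 : x - (x + e + 1) = (N - e - 1) + N * (-1) := by ring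
    have e2 : y - (x + e + 1) = (D - e - 1) + N * (3 * m) := by
      rw [hD]
      ring
    refine ⟨?_, ?_, ?_, ?_⟩
    · rw [e1, Int.add_mul_emod_self_left, Int.emod_eq_of_lt (by linarith) (by linarith)]
    · rw [e1, Int.add_mul_ediv_left _ _ hN.ne', Int.ediv_eq_zero_of_lt (by linarith)
        (by linarith)]
      ring
    · rw [e2, Int.add_mul_emod_self_left, Int.emod_eq_of_lt (by linarith) (by linarith)]
    · rw [e2, Int.add_mul_ediv_left _ _ hN.ne', Int.ediv_eq_zero_of_lt (by linarith)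
        (by linarith)]
      ring
  have fin : ∀ e : ℤ, 0 ≤ e → e ≤ s → s ≤ (w - (x + e + 1)) % N →
      ∃ t : ℤ, s ≤ (x - t) % N ∧ s ≤ (y - t) % N ∧ s ≤ (w - t) % N ∧
      (((y - t) / N : ℤ) : ZMod 3) = (((x - t) / N : ℤ) : ZMod 3) + 1 := by
    intro e h3 h4 h5
    obtain ⟨k1, k2, k3, k4⟩ := key e h3 h4
    refine ⟨x + e + 1, ?_, ?_, h5, ?_⟩
    · rw [k1]
      linarith
    · rw [k3]
      linarith
    · rw [k2, k4]
      push_cast
      rw [three]
      ring
  -- the third point
  have d1 := Int.emod_add_mul_ediv (w - x) N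
  have f1 := Int.emod_nonneg (w - x) hN.ne'
  have f2 := Int.emod_lt_of_pos (w - x) hN
  by_cases h3 : 1 ≤ (w - x) % N ∧ (w - x) % N ≤ s
  · refine fin ((w - x) % N) (by linarith) h3.2 ?_
    have e1 : w - (x + (w - x) % N + 1) = (N - 1) + N * ((w - x) / N - 1) := by linarith
    rw [e1, Int.add_mul_emod_self_left, Int.emod_eq_of_lt (by linarith) (by linarith)]
    linarith
  · refine fin 0 le_rfl hs0 ?_
    by_cases h4 : (w - x) % N = 0
    · have e1 : w - (x + 0 + 1) = (N - 1) + N * ((w - x) / N - 1) := by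
        rw [h4] at d1
        linarith
      rw [e1, Int.add_mul_emod_self_left, Int.emod_eq_of_lt (by linarith) (by linarith)]
      linarith
    · have h5 : s < (w - x) % N := by
        by_contra h6
        exact h3 ⟨by omega, not_lt.1 h6⟩
      have e1 : w - (x + 0 + 1) = ((w - x) % N - 1) + N * ((w - x) / N) := by linarith
      rw [e1, Int.add_mul_emod_self_left, Int.emod_eq_of_lt (by linarith) (by linarith)]
      linarith

variable {V : Type*} {G : SimpleGraph V} {X : V → Prop} {a b : Fin 3 → V}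

/-- **Sides with two adjacent ends.** -/
theorem leafN_K (hs0 : 0 ≤ s) (hs : 3 * s < N)
    (hcut : ∀ u v, X u → ¬ X v → G.Adj u v → ∃ i, u = a i ∧ v = b i) {p q : Fin 3} (hpq : p ≠ q)
    (hacc : ∀ y : Fin 3 → ZMod 3, y p ≠ y q → Acc s G X a y) {c2 : V → ℤ}
    (h2 : IsCol N (side G fun v => ¬ X v) c2)
    (hfar : ∀ m : ℤ, 2 * s + 2 ≤ |c2 (b p) - c2 (b q) + 3 * N * m|) :
    ∃ c, IsCol N G c ∧ ∀ v, ¬ X v → c v = c2 v := by
  have hN : 0 < N := by linarith
  have h3N : 0 < 3 * N := by linarith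
  obtain ⟨r, hpr, hqr⟩ : ∃ r : Fin 3, p ≠ r ∧ q ≠ r := by
    revert hpq
    clear hacc hfar
    revert p q
    decide
  have hall := fin3_all hpq hpr hqr
  -- a threshold with different classes is enough
  have fin : ∀ t : ℤ, s ≤ (c2 (b p) - t) % N → s ≤ (c2 (b q) - t) % N →
      s ≤ (c2 (b r) - t) % N →
      (((c2 (b p) - t) / N : ℤ) : ZMod 3) ≠ (((c2 (b q) - t) / N : ℤ) : ZMod 3) →
      ∃ c, IsCol N G c ∧ ∀ v, ¬ X v → c v = c2 v := by
    intro t g1 g2 g3 g4
    refine leafN_aux hN (by linarith) hcut h2 (p := t) (fun i => ?_) (hacc _ ?_)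
    · rcases hall i with rfl | rfl | rfl
      · exact g1
      · exact g2
      · exact g3
    · show (((c2 (b p) - t) / N : ℤ) : ZMod 3) - 1 ≠ (((c2 (b q) - t) / N : ℤ) : ZMod 3) - 1
      intro h
      exact g4 (sub_left_injective h)
  have one : ∀ z : ZMod 3, z ≠ z + 1 := by decide
  -- the difference
  have key : ∀ x y : ℤ, (∀ m : ℤ, 2 * s + 2 ≤ |x - y + 3 * N * m|) →
      2 * s + 2 ≤ (y - x) % (3 * N) := by
    intro x y h
    have d := Int.emod_add_mul_ediv (y - x) (3 * N)
    have f1 := Int.emod_nonneg (y - x) h3N.ne'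
    have h4 := h ((y - x) / (3 * N))
    have e : x - y + 3 * N * ((y - x) / (3 * N)) = - ((y - x) % (3 * N)) := by linarith
    rw [e, abs_neg, abs_of_nonneg f1] at h4
    exact h4
  have kpq := key _ _ hfar
  have kqp := key (c2 (b q)) (c2 (b p)) fun m => by
    have h4 := hfar (-m)
    have e : c2 (b q) - c2 (b p) + 3 * N * m = - (c2 (b p) - c2 (b q) + 3 * N * (-m)) := by ring
    rw [e, abs_neg]
    exact h4
  have dpq := Int.emod_add_mul_ediv (c2 (b q) - c2 (b p)) (3 * N)
  have dqp := Int.emod_add_mul_ediv (c2 (b p) - c2 (b q)) (3 * N)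
  have upq := Int.emod_lt_of_pos (c2 (b q) - c2 (b p)) h3N
  have uqp := Int.emod_lt_of_pos (c2 (b p) - c2 (b q)) h3N
  by_cases h3 : (c2 (b q) - c2 (b p)) % (3 * N) < N
  · obtain ⟨t, g1, g2, g3, g4⟩ := gap_between hs0 hs (x := c2 (b p)) (y := c2 (b q))
      (w := c2 (b r)) (D := (c2 (b q) - c2 (b p)) % (3 * N))
      (m := (c2 (b q) - c2 (b p)) / (3 * N)) (by linarith) kpq h3
    refine fin t g1 g2 g3 ?_
    rw [g4]
    exact one _
  · by_cases h4 : (c2 (b p) - c2 (b q)) % (3 * N) < N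
    · obtain ⟨t, g1, g2, g3, g4⟩ := gap_between hs0 hs (x := c2 (b q)) (y := c2 (b p))
        (w := c2 (b r)) (D := (c2 (b p) - c2 (b q)) % (3 * N))
        (m := (c2 (b p) - c2 (b q)) / (3 * N)) (by linarith) kqp h4
      refine fin t g2 g1 g3 ?_
      rw [g4]
      exact (one _).symm
    · -- the difference is in the middle
      obtain ⟨t, ht⟩ := exists_gap hs0 hs fun i => c2 (b i)
      refine fin t (ht p) (ht q) (ht r) ?_
      set D := (c2 (b q) - c2 (b p)) % (3 * N) with hD
      have hD2 : D ≤ 2 * N := by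
        -- the two residues add up to `3 N`
        have h5 : (c2 (b p) - c2 (b q)) % (3 * N) = 3 * N - D := by
          have e : c2 (b p) - c2 (b q) = (3 * N - D) +
              3 * N * (-((c2 (b q) - c2 (b p)) / (3 * N)) - 1) := by linarith
          rw [e, Int.add_mul_emod_self_left, Int.emod_eq_of_lt (by linarith) (by linarith)]
        rw [h5] at h4
        linarith
      have d1 := Int.emod_add_mul_ediv (c2 (b p) - t) N
      have f1 := Int.emod_nonneg (c2 (b p) - t) hN.ne'
      have f2 := Int.emod_lt_of_pos (c2 (b p) - t) hN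
      set u := (c2 (b p) - t) % N with hu
      have e : c2 (b q) - t = (u + D) + N * ((c2 (b p) - t) / N +
          3 * ((c2 (b q) - c2 (b p)) / (3 * N))) := by linarith
      have e2 : (c2 (b q) - t) / N = (u + D) / N + ((c2 (b p) - t) / N +
          3 * ((c2 (b q) - c2 (b p)) / (3 * N))) := by
        rw [e, Int.add_mul_ediv_left _ _ hN.ne']
      rw [e2]
      push_cast
      have three : (3 : ZMod 3) = 0 := by decide
      rw [three]
      rcases div_mid hN (x := u + D) (by linarith) (by linarith) with h5 | h5 <;> rw [h5]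
      · intro h6
        have : ∀ z w : ZMod 3, z ≠ ((1 : ℤ) : ZMod 3) + (z + 0 * w) := by decide
        exact this _ _ h6
      · intro h6
        have : ∀ z w : ZMod 3, z ≠ ((2 : ℤ) : ZMod 3) + (z + 0 * w) := by decide
        exact this _ _ h6

end Pool.Agent.CutN
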