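import Mathlib
import Pool.Agent.Work.MP_392c8e_co_uni.LeafN
import Pool.Agent.Work.MP_392c8e_co_uni.LeafK12

/-!
# A side with two adjacent ends

A side which accepts all vectors of colours with `y i ≠ y j`, with heights in `[0, s)`, can be
deleted if the colours of the outer neighbours at `i` and `j` have distance at least `2 s + 2` on
the circle of length `3 N`.
-/

namespace Pool.Agent.CutN

open Pool.Agent.Red (side side_le)

variable {N s : ℤ}

/-- A cut point on an arc of length at least `2 s + 2` which avoids one more height. -/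
theorem arc_point (hs0 : 0 ≤ s) {L : ℤ} (hL : 2 * s + 2 ≤ L) (hLN : L ≤ N) (x z : ℤ) :
    ∃ t : ℤ, 1 ≤ t ∧ t + s ≤ L ∧ s ≤ (z - (x + t)) % N := by
  have hN : 0 < N := by linarith
  have w0 := Int.emod_nonneg (z - x) hN.ne'
  have w1 := Int.emod_lt_of_pos (z - x) hN
  have key : ∀ t : ℤ, (z - (x + t)) % N = ((z - x) % N - t) % N := by
    intro t
    rw [show z - (x + t) = (z - x) - t by ring, Int.sub_emod, Int.sub_emod ((z - x) % N) t,
      Int.emod_emod_of_dvd _ dvd_rfl]
  by_cases h0 : (z - x) % N = 0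
  · refine ⟨1, le_refl _, by linarith, ?_⟩
    rw [key, h0, show (0 : ℤ) - 1 = -1 by ring, ← Int.add_emod_right (-1) N,
      Int.emod_eq_of_lt (by linarith) (by linarith)]
    linarith
  · by_cases h1 : s + 1 ≤ (z - x) % N
    · refine ⟨1, le_refl _, by linarith, ?_⟩
      rw [key, Int.emod_eq_of_lt (by linarith) (by linarith)]
      linarith
    · have h2 : 1 ≤ (z - x) % N := by omega
      refine ⟨(z - x) % N + 1, by linarith, by linarith, ?_⟩
      rw [key, show (z - x) % N - ((z - x) % N + 1) = -1 by ring, ← Int.add_emod_right (-1) N,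
        Int.emod_eq_of_lt (by linarith) (by linarith)]
      linarith

variable {V : Type*} {G : SimpleGraph V} {X : V → Prop} {a b : Fin 3 → V}

/-- The cut point on the arc above the height of the outer neighbour at `i`. -/
theorem leafN_arc (hs0 : 0 ≤ s)
    (hcut : ∀ u v, X u → ¬ X v → G.Adj u v → ∃ i, u = a i ∧ v = b i) {i j : Fin 3} (hij : i ≠ j)
    (hacc : ∀ y : Fin 3 → ZMod 3, y i ≠ y j → Acc s G X a y) {c2 : V → ℤ}
    (h2 : IsCol N (side G fun v => ¬ X v) c2) {k L : ℤ}
    (hk : c2 (b j) - c2 (b i) = N * k + L) (hL : 2 * s + 2 ≤ L) (hLN : L ≤ N)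
    (hk3 : ((k : ℤ) : ZMod 3) ≠ -1) :
    ∃ c, IsCol N G c ∧ ∀ v, ¬ X v → c v = c2 v := by
  have hN : 0 < N := by linarith
  have third : ∀ i j : Fin 3, i ≠ j → ∃ l : Fin 3, ∀ m : Fin 3, m = i ∨ m = j ∨ m = l := by
    decide
  obtain ⟨l, hl⟩ := third i j hij
  obtain ⟨t, t1, t2, t3⟩ := arc_point hs0 hL hLN (c2 (b i)) (c2 (b l))
  have e1 : c2 (b i) - (c2 (b i) + t) = (N - t) + N * (-1) := by ring
  have e2 : c2 (b j) - (c2 (b i) + t) = (L - t) + N * k := by linarith
  have hp : ∀ m : Fin 3, s ≤ (c2 (b m) - (c2 (b i) + t)) % N := by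
    intro m
    rcases hl m with rfl | rfl | rfl
    · rw [e1, Int.add_mul_emod_self_left, Int.emod_eq_of_lt (by linarith) (by linarith)]
      linarith
    · rw [e2, Int.add_mul_emod_self_left, Int.emod_eq_of_lt (by linarith) (by linarith)]
      linarith
    · exact t3
  refine leafN_aux hN (by linarith) hcut h2 hp (hacc _ ?_)
  have f1 : (c2 (b i) - (c2 (b i) + t)) / N = -1 := by
    rw [e1, Int.add_mul_ediv_left _ _ hN.ne', Int.ediv_eq_zero_of_lt (by linarith) (by linarith)]
    ring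
  have f2 : (c2 (b j) - (c2 (b i) + t)) / N = k := by
    rw [e2, Int.add_mul_ediv_left _ _ hN.ne', Int.ediv_eq_zero_of_lt (by linarith) (by linarith)]
    ring
  show (((c2 (b i) - (c2 (b i) + t)) / N : ℤ) : ZMod 3) - 1 ≠
    (((c2 (b j) - (c2 (b i) + t)) / N : ℤ) : ZMod 3) - 1
  rw [f1, f2]
  intro h
  apply hk3
  have := sub_left_injective h
  rw [← this]
  push_cast
  ring

/-- **A side with two adjacent ends.**  If the outer neighbours at `i` and `j` are not near each
other on the circle of length `3 N`, the side can be deleted. -/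
theorem leafN_edge (hs0 : 0 ≤ s) (hN4 : 4 * s + 4 ≤ N)
    (hcut : ∀ u v, X u → ¬ X v → G.Adj u v → ∃ i, u = a i ∧ v = b i) {i j : Fin 3} (hij : i ≠ j)
    (hacc : ∀ y : Fin 3 → ZMod 3, y i ≠ y j → Acc s G X a y) {c2 : V → ℤ}
    (h2 : IsCol N (side G fun v => ¬ X v) c2)
    (hD : ∀ m : ℤ, 2 * s + 2 ≤ |c2 (b j) - c2 (b i) - 3 * N * m|) :
    ∃ c, IsCol N G c ∧ ∀ v, ¬ X v → c v = c2 v := by
  have hN : 0 < N := by linarith
  have e := Int.emod_add_mul_ediv (c2 (b j) - c2 (b i)) N
  have r0 := Int.emod_nonneg (c2 (b j) - c2 (b i)) hN.ne'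
  have r1 := Int.emod_lt_of_pos (c2 (b j) - c2 (b i)) hN
  have hk1 : c2 (b j) - c2 (b i) =
      N * ((c2 (b j) - c2 (b i)) / N) + (c2 (b j) - c2 (b i)) % N := by linarith
  have hk2 : c2 (b i) - c2 (b j) =
      N * (-((c2 (b j) - c2 (b i)) / N) - 1) + (N - (c2 (b j) - c2 (b i)) % N) := by
    linarith
  have hacc' : ∀ y : Fin 3 → ZMod 3, y j ≠ y i → Acc s G X a y := fun y hy => hacc y hy.symm
  generalize (c2 (b j) - c2 (b i)) / N = k at *
  generalize (c2 (b j) - c2 (b i)) % N = r at *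
  obtain ⟨m, hm⟩ : ∃ m, k = 3 * m ∨ k = 3 * m + 1 ∨ k = 3 * m + 2 := ⟨k / 3, by omega⟩
  have three : (3 : ZMod 3) = 0 := by decide
  rcases hm with hm | hm | hm
  · -- the arc from `i` to `j`
    have h3 : 2 * s + 2 ≤ r := by
      have h4 := hD m
      have e4 : c2 (b j) - c2 (b i) - 3 * N * m = r := by rw [hk1, hm]; ring
      rw [e4, abs_of_nonneg r0] at h4
      exact h4
    refine leafN_arc hs0 hcut hij hacc h2 hk1 h3 r1.le ?_
    rw [hm]
    push_cast
    rw [three]
    simp only [zero_mul]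
    decide
  · by_cases h3 : 2 * s + 2 ≤ r
    · refine leafN_arc hs0 hcut hij hacc h2 hk1 h3 r1.le ?_
      rw [hm]
      push_cast
      rw [three]
      simp only [zero_mul]
      decide
    · refine leafN_arc hs0 hcut hij.symm hacc' h2 hk2 (by linarith) (by linarith) ?_
      rw [hm]
      push_cast
      rw [three]
      simp only [zero_mul]
      decide
  · have h3 : 2 * s + 2 ≤ N - r := by
      have h4 := hD (m + 1)
      have e4 : c2 (b j) - c2 (b i) - 3 * N * (m + 1) = -(N - r) := by rw [hk1, hm]; ring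
      rw [e4, abs_neg, abs_of_nonneg (by linarith)] at h4
      exact h4
    refine leafN_arc hs0 hcut hij.symm hacc' h2 hk2 h3 (by linarith) ?_
    rw [hm]
    push_cast
    rw [three]
    simp only [zero_mul]
    decide

/-- The outer neighbours at `i` and `j` are adjacent. -/
theorem far_of_jn (hs : 2 * s + 2 ≤ N) {x y : ℤ} (h : Jn N (y - x)) (m : ℤ) :
    2 * s + 2 ≤ |y - x - 3 * N * m| := by
  obtain ⟨k, h1, h2⟩ := h
  have hN : 0 < N := by linarith
  rcases lt_or_ge (-k) m with hk | hk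
  · have h3 : 3 * N * (-k + 1) ≤ 3 * N * m := mul_le_mul_of_nonneg_left (by omega) (by linarith)
    have h4 : y - x - 3 * N * m ≤ -(2 * s + 2) := by linarith
    rw [abs_of_nonpos (by linarith)]
    linarith
  · have h3 : 3 * N * m ≤ 3 * N * (-k) := mul_le_mul_of_nonneg_left (by omega) (by linarith)
    have h4 : 2 * s + 2 ≤ y - x - 3 * N * m := by linarith
    exact h4.trans (le_abs_self _)

/-- **The vectors of a side with two adjacent ends** `a i`, `a j`: the closures with a claw whose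
edge to `a i` or to `a j` is subdivided give all vectors with `y i ≠ y j`. -/
theorem acc_rung {n : ℤ} (hn : 0 < n) (ia : Function.Injective a) {i j k : Fin 3} (hij : i ≠ j)
    (hik : i ≠ k) (hjk : j ≠ k) (hadj : G.Adj (a i) (a j)) (hX : ∀ l, X (a l))
    (h1 : ∃ (H : SimpleGraph V) (q : V → ℤ) (z u : V),
      IsCol n H q ∧ side G X ≤ H ∧ H.Adj z (a j) ∧ H.Adj z (a k) ∧ H.Adj z u ∧ H.Adj u (a i))
    (h2 : ∃ (H : SimpleGraph V) (q : V → ℤ) (z u : V),
      IsCol n H q ∧ side G X ≤ H ∧ H.Adj z (a i) ∧ H.Adj z (a k) ∧ H.Adj z u ∧ H.Adj u (a j))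
    (y : Fin 3 → ZMod 3) (hy : y i ≠ y j) : Acc (2 * n) G X a y := by
  by_cases hjk' : y j = y k
  · obtain ⟨H, q, z, u, e1, e2, e3, e4, e5, e6⟩ := h1
    exact (acc_V hn e1 e2 hij hik hjk e3 e4 e5 e6 hy hjk').mono (by linarith)
  · by_cases hik' : y i = y k
    · obtain ⟨H, q, z, u, e1, e2, e3, e4, e5, e6⟩ := h2
      exact (acc_V hn e1 e2 hij.symm hjk hik e3 e4 e5 e6 hy.symm hik').mono (by linarith)
    · obtain ⟨H, q, z, u, e1, e2, -, -, -, -⟩ := h1
      have hs : (side G X).Adj (a i) (a j) := ⟨hadj, hX i, hX j⟩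
      exact acc_X hn e1 e2 hij hik hjk ia (e2 hs) hy hik' hjk'

end Pool.Agent.CutN
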