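import Mathlib
import Pool.Agent.Work.MP_392c8e_co_uni.ColN

/-!
# A ring of six edges spreads

The ring: three vertices `s i` on the side of the outer ends `p i`, and three vertices `u i`, where
`u i` is adjacent to the `s j` with `j ≠ i`.  If the outer ends extend to the ring, they extend in
such a way that the heights of the `u i` are pairwise far apart on the circle of length `N`
(`ring_spread`), and also in such a way that the `u i` have a common neighbour (`ring_centre`).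
-/

namespace Pool.Agent.CutN

variable {N g x y : ℤ}

/-- At distance at least `g` on the circle of length `N`. -/
def Dst (N g x : ℤ) : Prop := ∃ k : ℤ, g ≤ x + N * k ∧ x + N * k ≤ N - g

theorem Dst.neg (h : Dst N g x) : Dst N g (-x) := by
  obtain ⟨k, h1, h2⟩ := h
  exact ⟨1 - k, by linarith, by linarith⟩

theorem Dst.mono {g' : ℤ} (h : Dst N g x) (hg : g' ≤ g) : Dst N g' x := by
  obtain ⟨k, h1, h2⟩ := h
  exact ⟨k, by linarith, by linarith⟩

/-- The value of a near difference in a window. -/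
theorem Near.val (hN : 6 < N) (h : Near N x) (h0 : -4 ≤ x) (h1 : x ≤ 2 * N + 1) : x ≤ N - 2 := by
  obtain ⟨k, h2, h3⟩ := h
  rcases lt_trichotomy k 0 with hk | rfl | hk
  · exfalso
    have h4 : N * k ≤ N * (-1) := mul_le_mul_of_nonneg_left (by omega) (by linarith)
    linarith
  · linarith
  · exfalso
    have h4 : N * 1 ≤ N * k := mul_le_mul_of_nonneg_left (by omega) (by linarith)
    linarith

/-- Three arcs of length at most `N + 3`: the ring has no colouring. -/
theorem ring_no (hN : 6 < N) {q1 q2 q3 s1 s2 s3 : ℤ} (h1 : Jn N (s1 - q1)) (h2 : Jn N (s2 - q2))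
    (h3 : Jn N (s3 - q3)) (h12 : Near N (s2 - s1)) (h23 : Near N (s3 - s2))
    (h13 : Near N (s1 - s3)) (e1 : q2 - q1 ≤ N + 3) (e2 : q3 - q2 ≤ N + 3)
    (e3 : 3 * N - (q3 - q1) ≤ N + 3) : False := by
  obtain ⟨k1, a1, b1⟩ := h1
  obtain ⟨k2, a2, b2⟩ := h2
  obtain ⟨k3, a3, b3⟩ := h3
  have c1 : Near N ((s2 + 3 * N * k2) - (s1 + 3 * N * k1)) := by
    obtain ⟨k, u, v⟩ := h12
    exact ⟨k - k2 + k1, by linarith, by linarith⟩
  have c2 : Near N ((s3 + 3 * N * k3) - (s2 + 3 * N * k2)) := by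
    obtain ⟨k, u, v⟩ := h23
    exact ⟨k - k3 + k2, by linarith, by linarith⟩
  have c3 : Near N ((s1 + 3 * N * k1 + 3 * N) - (s3 + 3 * N * k3)) := by
    obtain ⟨k, u, v⟩ := h13
    exact ⟨k - k1 + k3 - 1, by linarith, by linarith⟩
  have d1 := c1.val hN (by linarith) (by linarith)
  have d2 := c2.val hN (by linarith) (by linarith)
  have d3 := c3.val hN (by linarith) (by linarith)
  linarith

/-- The colouring of the ring when the longest arc is known. -/
theorem ring_core (hg : 0 ≤ g) (hN : 6 * g + 14 ≤ N) {q1 q2 q3 : ℤ} (h12 : q1 ≤ q2) (h23 : q2 ≤ q3)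
    (hD : q3 - q1 ≤ 2 * N - 4) (hl1 : q2 - q1 ≤ 3 * N - (q3 - q1))
    (hl2 : q3 - q2 ≤ 3 * N - (q3 - q1)) :
    ∃ s1 s2 s3 u1 u2 u3 : ℤ,
      ((N + 1 ≤ s1 - q1 ∧ s1 - q1 ≤ 2 * N - 1) ∧ (N + 1 ≤ s2 - q2 ∧ s2 - q2 ≤ 2 * N - 1) ∧
        (N + 1 ≤ s3 - q3 ∧ s3 - q3 ≤ 2 * N - 1)) ∧
      ((N + 1 ≤ u1 - s2 ∧ u1 - s2 ≤ 2 * N - 1) ∧ (N + 1 ≤ u1 - s3 ∧ u1 - s3 ≤ 2 * N - 1) ∧
        (N + 1 ≤ u2 - s1 ∧ u2 - s1 ≤ 2 * N - 1) ∧ (N + 1 ≤ u2 - s3 ∧ u2 - s3 ≤ 2 * N - 1) ∧
        (N + 1 ≤ u3 - s1 ∧ u3 - s1 ≤ 2 * N - 1) ∧ (N + 1 ≤ u3 - s2 ∧ u3 - s2 ≤ 2 * N - 1)) ∧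
      ((g ≤ u1 - u2 ∧ u1 - u2 ≤ N - g) ∧ (g ≤ u2 - u3 ∧ u2 - u3 ≤ N - g) ∧
        (g ≤ u1 - u3 ∧ u1 - u3 ≤ N - g)) := by
  by_cases c1 : q3 - q1 ≤ N - 2
  · exact ⟨q3 + N + 1, q3 + N + 1, q3 + N + 1, q3 + 2 * N + 2 + 2 * g, q3 + 2 * N + 2 + g,
      q3 + 2 * N + 2, by omega⟩
  · by_cases c2 : 2 * g ≤ 2 * N - 4 - (q3 - q1)
    · exact ⟨q1 + 2 * N - 1, max (q1 + 2 * N - 1) (q2 + N + 1), q3 + N + 1,
        q3 + 2 * N + 2 + 2 * g, q3 + 2 * N + 2 + g, q3 + 2 * N + 2, by omega⟩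
    · exact ⟨q1 + 2 * N - 1, q1 + 2 * N - 1 + (2 * g + 6), q3 + N + 1,
        q1 + 4 * N - 2 + g, q1 + 4 * N - 2, q1 + 4 * N - 2 - g, by omega⟩

/-- The colouring of the ring for ends in cyclic order, up to multiples of `3 N`. -/
theorem ring_lift (hg : 0 ≤ g) (hN : 6 * g + 14 ≤ N) {p s : Fin 3 → ℤ}
    (h1 : ∀ i, Jn N (s i - p i)) (h2 : ∀ i j, i ≠ j → Near N (s i - s j)) {a b c : Fin 3}
    (hab : a ≠ b) (hac : a ≠ c) (hbc : b ≠ c) (hall : ∀ i, i = a ∨ i = b ∨ i = c)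
    {q1 q2 q3 : ℤ} (ha : ∃ k : ℤ, q1 = p a + 3 * N * k) (hb : ∃ k : ℤ, q2 = p b + 3 * N * k)
    (hc : ∃ k : ℤ, q3 = p c + 3 * N * k) (h12 : q1 ≤ q2) (h23 : q2 ≤ q3)
    (hl1 : q2 - q1 ≤ 3 * N - (q3 - q1)) (hl2 : q3 - q2 ≤ 3 * N - (q3 - q1)) :
    ∃ s' u' : Fin 3 → ℤ, (∀ i, Jn N (s' i - p i)) ∧ (∀ i j, i ≠ j → Jn N (u' i - s' j)) ∧
      ∀ i j, i ≠ j → Dst N g (u' i - u' j) := by
  have hN6 : 6 < N := by linarith
  obtain ⟨ka, hka⟩ := ha
  obtain ⟨kb, hkb⟩ := hb
  obtain ⟨kc, hkc⟩ := hc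
  have ja : Jn N (s a - q1) := by
    obtain ⟨m, u, v⟩ := h1 a
    exact ⟨m + ka, by linarith, by linarith⟩
  have jb : Jn N (s b - q2) := by
    obtain ⟨m, u, v⟩ := h1 b
    exact ⟨m + kb, by linarith, by linarith⟩
  have jc : Jn N (s c - q3) := by
    obtain ⟨m, u, v⟩ := h1 c
    exact ⟨m + kc, by linarith, by linarith⟩
  have hD : q3 - q1 ≤ 2 * N - 4 := by
    by_contra hD
    have hD' : 2 * N - 3 ≤ q3 - q1 := by linarith [not_le.1 hD]
    exact ring_no hN6 ja jb jc (h2 b a hab.symm) (h2 c b hbc.symm) (h2 a c hac)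
      (by linarith) (by linarith) (by linarith)
  obtain ⟨s1, s2, s3, u1, u2, u3, ⟨e1, e2, e3⟩, ⟨f1, f2, f3, f4, f5, f6⟩, ⟨d1, d2, d3⟩⟩ :=
    ring_core hg hN h12 h23 hD hl1 hl2
  have jn : ∀ {x : ℤ}, N + 1 ≤ x ∧ x ≤ 2 * N - 1 → Jn N x := by
    rintro x ⟨u, v⟩
    exact ⟨0, by linarith, by linarith⟩
  have dn : ∀ {x : ℤ}, g ≤ x ∧ x ≤ N - g → Dst N g x := by
    rintro x ⟨u, v⟩
    exact ⟨0, by linarith, by linarith⟩
  have ea : ∀ (x y z : ℤ), (fun i : Fin 3 => if i = a then x else if i = b then y else z) a = x :=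
    fun x y z => if_pos rfl
  have eb : ∀ (x y z : ℤ), (fun i : Fin 3 => if i = a then x else if i = b then y else z) b = y :=
    fun x y z => by
      show (if b = a then x else if b = b then y else z) = y
      rw [if_neg hab.symm, if_pos rfl]
  have ec : ∀ (x y z : ℤ), (fun i : Fin 3 => if i = a then x else if i = b then y else z) c = z :=
    fun x y z => by
      show (if c = a then x else if c = b then y else z) = z
      rw [if_neg hac.symm, if_neg hbc.symm]
  refine ⟨fun i => if i = a then s1 else if i = b then s2 else s3,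
    fun i => if i = a then u1 else if i = b then u2 else u3, fun i => ?_, fun i j hij => ?_,
    fun i j hij => ?_⟩
  · have back : ∀ {x y z k : ℤ}, Jn N (x - y) → y = z + 3 * N * k → Jn N (x - z) := by
      rintro x y z k ⟨m, u, v⟩ rfl
      exact ⟨m - k, by linarith, by linarith⟩
    rcases hall i with rfl | rfl | rfl
    · rw [ea]; exact back (jn e1) hka
    · rw [eb]; exact back (jn e2) hkb
    · rw [ec]; exact back (jn e3) hkc
  · rcases hall i with rfl | rfl | rfl <;> rcases hall j with rfl | rfl | rfl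
    · exact absurd rfl hij
    · rw [ea, eb]; exact jn f1
    · rw [ea, ec]; exact jn f2
    · rw [eb, ea]; exact jn f3
    · exact absurd rfl hij
    · rw [eb, ec]; exact jn f4
    · rw [ec, ea]; exact jn f5
    · rw [ec, eb]; exact jn f6
    · exact absurd rfl hij
  · have ng : ∀ {x y : ℤ}, Dst N g (x - y) → Dst N g (y - x) := by
      intro x y h
      have := h.neg
      rwa [neg_sub] at this
    rcases hall i with rfl | rfl | rfl <;> rcases hall j with rfl | rfl | rfl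
    · exact absurd rfl hij
    · rw [ea, eb]; exact dn d1
    · rw [ea, ec]; exact dn d3
    · rw [eb, ea]; exact ng (dn d1)
    · exact absurd rfl hij
    · rw [eb, ec]; exact dn d2
    · rw [ec, ea]; exact ng (dn d3)
    · rw [ec, eb]; exact ng (dn d2)
    · exact absurd rfl hij

/-- **One ring spreads** (SP2).  If the outer ends `p` extend to the ring, they extend in such a
way that the inner ends are pairwise at distance at least `g` on the circle of length `N`. -/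
theorem ring_spread (hg : 0 ≤ g) (hN : 6 * g + 14 ≤ N) {p s u : Fin 3 → ℤ}
    (h1 : ∀ i, Jn N (s i - p i)) (h2 : ∀ i j, i ≠ j → Jn N (u i - s j)) :
    ∃ s' u' : Fin 3 → ℤ, (∀ i, Jn N (s' i - p i)) ∧ (∀ i j, i ≠ j → Jn N (u' i - s' j)) ∧
      ∀ i j, i ≠ j → Dst N g (u' i - u' j) := by
  have hN0 : 0 < 3 * N := by linarith
  have hs : ∀ i j, i ≠ j → Near N (s i - s j) := by
    intro i j hij
    have third : ∀ i j : Fin 3, i ≠ j → ∃ k, k ≠ i ∧ k ≠ j := by decide
    obtain ⟨k, hki, hkj⟩ := third i j hij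
    have := (h2 k j hkj).sub (h2 k i hki)
    have e : u k - s j - (u k - s i) = s i - s j := by ring
    rwa [e] at this
  set r : Fin 3 → ℤ := fun i => p i % (3 * N) with hr
  have r0 : ∀ i, 0 ≤ r i ∧ r i < 3 * N := fun i =>
    ⟨Int.emod_nonneg _ hN0.ne', Int.emod_lt_of_pos _ hN0⟩
  have rp : ∀ i, ∃ k : ℤ, r i = p i + 3 * N * k := fun i => by
    refine ⟨-(p i / (3 * N)), ?_⟩
    have := Int.emod_add_mul_ediv (p i) (3 * N)
    show p i % (3 * N) = _
    linarith
  have rp' : ∀ i, ∃ k : ℤ, r i + 3 * N = p i + 3 * N * k := fun i => by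
    obtain ⟨k, hk⟩ := rp i
    exact ⟨k + 1, by linarith⟩
  have main : ∀ a b c : Fin 3, a ≠ b → a ≠ c → b ≠ c → (∀ i, i = a ∨ i = b ∨ i = c) →
      r a ≤ r b → r b ≤ r c →
      ∃ s' u' : Fin 3 → ℤ, (∀ i, Jn N (s' i - p i)) ∧ (∀ i j, i ≠ j → Jn N (u' i - s' j)) ∧
        ∀ i j, i ≠ j → Dst N g (u' i - u' j) := by
    intro a b c hab hac hbc hall g1 g2
    have a0 := r0 a
    have b0 := r0 b
    have c0 := r0 c
    by_cases w1 : r b - r a ≤ 3 * N - (r c - r a) ∧ r c - r b ≤ 3 * N - (r c - r a)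
    · exact ring_lift hg hN h1 hs hab hac hbc hall (rp a) (rp b) (rp c) g1 g2 w1.1 w1.2
    · by_cases w2 : r c - r b ≤ r b - r a
      · have w3 : 3 * N - (r c - r a) ≤ r b - r a := by
          rcases not_and_or.1 w1 with h | h
          · linarith [not_le.1 h]
          · linarith [not_le.1 h]
        exact ring_lift hg hN h1 hs hbc hab.symm hac.symm
          (fun i => by rcases hall i with h | h | h <;> tauto) (rp b) (rp c) (rp' a) g2
          (by linarith) (by linarith) (by linarith)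
      · have w2' := not_le.1 w2
        have w3 : 3 * N - (r c - r a) ≤ r c - r b := by
          rcases not_and_or.1 w1 with h | h
          · linarith [not_le.1 h]
          · linarith [not_le.1 h]
        exact ring_lift hg hN h1 hs hac.symm hbc.symm hab
          (fun i => by rcases hall i with h | h | h <;> tauto) (rp c) (rp' a) (rp' b)
          (by linarith) (by linarith) (by linarith) (by linarith)
  rcases le_total (r 0) (r 1) with g1 | g1 <;> rcases le_total (r 1) (r 2) with g2 | g2 <;>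
    rcases le_total (r 0) (r 2) with g3 | g3
  · exact main 0 1 2 (by decide) (by decide) (by decide) (by decide) g1 g2
  · exact main 0 1 2 (by decide) (by decide) (by decide) (by decide) g1 g2
  · exact main 0 2 1 (by decide) (by decide) (by decide) (by decide) g3 g2
  · exact main 2 0 1 (by decide) (by decide) (by decide) (by decide) g3 g1
  · exact main 1 0 2 (by decide) (by decide) (by decide) (by decide) g1 g3
  · exact main 1 2 0 (by decide) (by decide) (by decide) (by decide) g2 g3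
  · exact main 2 1 0 (by decide) (by decide) (by decide) (by decide) g2 g1
  · exact main 2 1 0 (by decide) (by decide) (by decide) (by decide) g2 g1

/-- **The centre of a ring** (SP3).  Three positions which are pairwise near have a common
neighbour, and that neighbour has a neighbour. -/
theorem near_centre (hN : 1 < N) {s : Fin 3 → ℤ} (h : ∀ i j, i ≠ j → Near N (s i - s j)) :
    ∃ b : ℤ, ∀ j, Jn N (b - s j) := by
  obtain ⟨k1, a1, b1⟩ := h 1 0 (by decide)
  obtain ⟨k2, a2, b2⟩ := h 2 0 (by decide)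
  obtain ⟨k3, a3, b3⟩ := h 2 1 (by decide)
  -- lifts
  set t0 := s 0 with ht0
  set t1 := s 1 + 3 * N * k1 with ht1
  set t2 := s 2 + 3 * N * k2 with ht2
  have e : s 2 - s 1 + 3 * N * k3 = t2 - t1 + 3 * N * (k3 - k2 + k1) := by
    rw [ht1, ht2]
    ring
  rw [e] at a3 b3
  have hk : k3 - k2 + k1 = 0 := by
    rcases lt_trichotomy (k3 - k2 + k1) 0 with hk | hk | hk
    · exfalso
      have h4 : N * (k3 - k2 + k1) ≤ N * (-1) :=
        mul_le_mul_of_nonneg_left (by omega) (by linarith)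
      linarith
    · exact hk
    · exfalso
      have h4 : N * 1 ≤ N * (k3 - k2 + k1) :=
        mul_le_mul_of_nonneg_left (by omega) (by linarith)
      linarith
  rw [hk, mul_zero, add_zero] at a3 b3
  obtain ⟨b, c0, c1, c2, c3, c4, c5⟩ : ∃ b : ℤ, N + 1 ≤ b - t0 ∧ b - t0 ≤ 2 * N - 1 ∧
      N + 1 ≤ b - t1 ∧ b - t1 ≤ 2 * N - 1 ∧ N + 1 ≤ b - t2 ∧ b - t2 ≤ 2 * N - 1 := by
    refine ⟨max t0 (max t1 t2) + N + 1, ?_⟩
    omega
  refine ⟨b, fun j => ?_⟩
  fin_cases j
  · exact ⟨0, by show N + 1 ≤ b - s 0 + 3 * N * 0; linarith,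
      by show b - s 0 + 3 * N * 0 ≤ 2 * N - 1; linarith⟩
  · exact ⟨-k1, by show N + 1 ≤ b - s 1 + 3 * N * (-k1); linarith,
      by show b - s 1 + 3 * N * (-k1) ≤ 2 * N - 1; linarith⟩
  · exact ⟨-k2, by show N + 1 ≤ b - s 2 + 3 * N * (-k2); linarith,
      by show b - s 2 + 3 * N * (-k2) ≤ 2 * N - 1; linarith⟩

/-- **Ring and centre** (SP3).  If the outer ends extend to the ring, the same colours of the
`s j` extend to the cube minus a vertex: one colour `b` for all three `u i`, and a colour `z` for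
their common neighbour. -/
theorem ring_centre (hN : 1 < N) {s u : Fin 3 → ℤ} (h2 : ∀ i j, i ≠ j → Jn N (u i - s j)) :
    ∃ b z : ℤ, (∀ j, Jn N (b - s j)) ∧ Jn N (z - b) := by
  have hs : ∀ i j, i ≠ j → Near N (s i - s j) := by
    intro i j hij
    have third : ∀ i j : Fin 3, i ≠ j → ∃ k, k ≠ i ∧ k ≠ j := by decide
    obtain ⟨k, hki, hkj⟩ := third i j hij
    have := (h2 k j hkj).sub (h2 k i hki)
    have e : u k - s j - (u k - s i) = s i - s j := by ring
    rwa [e] at this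
  obtain ⟨b, hb⟩ := near_centre hN hs
  exact ⟨b, b + N + 1, hb, ⟨0, by linarith, by linarith⟩⟩

end Pool.Agent.CutN
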