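import Mathlib
import Pool.Agent.Work.MP_392c8e_co_uni.LeafN

/-!
# Spread states

If the heights of the three outer neighbours of a side have pairwise distance more than `s` on the
circle of length `N`, then a side which accepts all vectors with `y i ≠ y j` (for instance a side
with adjacent ends `i`, `j`), or all vectors with two equal entries, with heights in `[0, s)`, can
be deleted.
-/

namespace Pool.Agent.CutN

open Pool.Agent.Red (side side_le)

variable {N s : ℤ}

/-- The heights have pairwise distance more than `s`. -/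
def Spread (N s : ℤ) (x : Fin 3 → ℤ) : Prop := ∀ i j, i ≠ j → s < (x i - x j) % N

theorem Spread.mono {t : ℤ} {x : Fin 3 → ℤ} (h : Spread N s x) (hts : t ≤ s) : Spread N t x :=
  fun i j hij => lt_of_le_of_lt hts (h i j hij)

theorem ediv_pred (hN : 0 < N) {D : ℤ} (h : 0 < D % N) : (D - 1) / N = D / N := by
  have e := Int.emod_add_mul_ediv D N
  have h2 := Int.emod_lt_of_pos D hN
  rw [Int.ediv_eq_iff_of_pos hN]
  constructor
  · nlinarith [e]
  · nlinarith [e]

theorem emod_pred (hN : 0 < N) {D : ℤ} (h : 0 < D % N) : (D - 1) % N = D % N - 1 := by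
  have e := Int.emod_add_mul_ediv D N
  have e' := Int.emod_add_mul_ediv (D - 1) N
  rw [ediv_pred hN h] at e'
  linarith

/-- Just above one of the heights there is a gap. -/
theorem Spread.gap (hs0 : 0 ≤ s) (hsN : s < N) {x : Fin 3 → ℤ} (h : Spread N s x) (i l : Fin 3) :
    s ≤ (x l - (x i + 1)) % N := by
  have hN : 0 < N := by linarith
  by_cases hil : l = i
  · subst hil
    have e : x l - (x l + 1) = -1 := by ring
    rw [e, show (-1 : ℤ) % N = N - 1 from ?_]
    · linarith
    · rw [← Int.add_emod_right (-1) N, Int.emod_eq_of_lt (by linarith) (by linarith)]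
      ring
  · have h1 := h l i hil
    have e : x l - (x i + 1) = (x l - x i) - 1 := by ring
    rw [e, emod_pred hN (by linarith)]
    linarith

/-- The classes seen just above a height. -/
theorem Spread.cls (hs0 : 0 ≤ s) (hsN : s < N) {x : Fin 3 → ℤ} (h : Spread N s x) (i l : Fin 3) :
    (x l - (x i + 1)) / N = if l = i then -1 else (x l - x i) / N := by
  have hN : 0 < N := by linarith
  split_ifs with hil
  · subst hil
    have e : x l - (x l + 1) = -1 := by ring
    rw [e, Int.ediv_eq_iff_of_pos hN]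
    constructor <;> linarith
  · have h1 := h l i hil
    have e : x l - (x i + 1) = (x l - x i) - 1 := by ring
    rw [e, ediv_pred hN (by linarith)]

theorem Spread.neg_div (hs0 : 0 ≤ s) (hsN : s < N) {x : Fin 3 → ℤ} (h : Spread N s x) {i j : Fin 3}
    (hij : i ≠ j) : (x j - x i) / N = - ((x i - x j) / N) - 1 := by
  have hN : 0 < N := by linarith
  have h1 := h i j hij
  have e := Int.emod_add_mul_ediv (x i - x j) N
  have h2 := Int.emod_lt_of_pos (x i - x j) hN
  rw [Int.ediv_eq_iff_of_pos hN]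
  generalize (x i - x j) / N = q at *
  generalize (x i - x j) % N = r at *
  constructor
  · have : x j - x i = -(r + N * q) := by rw [e]; ring
    rw [this]
    nlinarith
  · have : x j - x i = -(r + N * q) := by rw [e]; ring
    rw [this]
    nlinarith

section

variable {V : Type*} {G : SimpleGraph V} {X : V → Prop} {a b : Fin 3 → V}

/-- **Spread states, a side with a rung.** -/
theorem leafN_rung (hs0 : 0 ≤ s) (hsN : s < N)
    (hcut : ∀ u v, X u → ¬ X v → G.Adj u v → ∃ i, u = a i ∧ v = b i) {i j : Fin 3} (hij : i ≠ j)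
    (hacc : ∀ y : Fin 3 → ZMod 3, y i ≠ y j → Acc s G X a y) {c2 : V → ℤ}
    (h2 : IsCol N (side G fun v => ¬ X v) c2) (hsp : Spread N s fun l => c2 (b l)) :
    ∃ c, IsCol N G c ∧ ∀ v, ¬ X v → c v = c2 v := by
  have hN : 0 < N := by linarith
  have key : ∀ k l : Fin 3, k ≠ l →
      ((((c2 (b l) - c2 (b k)) / N : ℤ) : ZMod 3) ≠ -1) → (k = i ∧ l = j ∨ k = j ∧ l = i) →
      ∃ c, IsCol N G c ∧ ∀ v, ¬ X v → c v = c2 v := by
    intro k l hkl hne hc
    refine leafN_aux hN hsN.le hcut h2 (p := c2 (b k) + 1)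
      (fun m => hsp.gap hs0 hsN k m) (hacc _ ?_)
    have e1 := hsp.cls hs0 hsN k k
    have e2 := hsp.cls hs0 hsN k l
    rw [if_pos rfl] at e1
    rw [if_neg hkl.symm] at e2
    have h3 : (((c2 (b k) - (c2 (b k) + 1)) / N : ℤ) : ZMod 3) - 1 ≠
        (((c2 (b l) - (c2 (b k) + 1)) / N : ℤ) : ZMod 3) - 1 := by
      rw [e1, e2]
      intro h
      apply hne
      have := sub_left_injective h
      rw [← this]
      push_cast
      ring
    rcases hc with ⟨rfl, rfl⟩ | ⟨rfl, rfl⟩
    · exact h3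
    · exact h3.symm
  by_cases h1 : (((c2 (b j) - c2 (b i)) / N : ℤ) : ZMod 3) = -1
  · refine key j i hij.symm ?_ (Or.inr ⟨rfl, rfl⟩)
    have e := hsp.neg_div hs0 hsN (i := j) (j := i) hij.symm
    rw [e]
    push_cast
    rw [h1]
    decide
  · exact key i j hij h1 (Or.inl ⟨rfl, rfl⟩)

/-- **Spread states, a side which accepts all vectors with two equal entries.** -/
theorem leafN_two (hs0 : 0 ≤ s) (hsN : s < N)
    (hcut : ∀ u v, X u → ¬ X v → G.Adj u v → ∃ i, u = a i ∧ v = b i)
    (hacc : ∀ y : Fin 3 → ZMod 3, (∃ i j, i ≠ j ∧ y i = y j) → Acc s G X a y) {c2 : V → ℤ}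
    (h2 : IsCol N (side G fun v => ¬ X v) c2) (hsp : Spread N s fun l => c2 (b l)) :
    ∃ c, IsCol N G c ∧ ∀ v, ¬ X v → c v = c2 v := by
  have hN : 0 < N := by linarith
  by_contra hcon
  -- all classes are one
  have key : ∀ k l : Fin 3, k ≠ l → (((c2 (b l) - c2 (b k)) / N : ℤ) : ZMod 3) ≠ -1 := by
    intro k l hkl h1
    apply hcon
    refine leafN_aux hN hsN.le hcut h2 (p := c2 (b k) + 1)
      (fun m => hsp.gap hs0 hsN k m) (hacc _ ⟨k, l, hkl, ?_⟩)
    have e1 := hsp.cls hs0 hsN k k
    have e2 := hsp.cls hs0 hsN k l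
    rw [if_pos rfl] at e1
    rw [if_neg hkl.symm] at e2
    show (((c2 (b k) - (c2 (b k) + 1)) / N : ℤ) : ZMod 3) - 1 =
        (((c2 (b l) - (c2 (b k) + 1)) / N : ℤ) : ZMod 3) - 1
    rw [e1, e2, h1]
    push_cast
    rfl
  have one : ∀ k l : Fin 3, k ≠ l → (((c2 (b l) - c2 (b k)) / N : ℤ) : ZMod 3) = 1 := by
    intro k l hkl
    have h3 := key k l hkl
    have h4 := key l k hkl.symm
    have e := hsp.neg_div hs0 hsN (i := l) (j := k) hkl.symm
    rw [e] at h4
    push_cast at h4
    have : ∀ z : ZMod 3, z ≠ -1 → - z - 1 ≠ -1 → z = 1 := by decide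
    exact this _ h3 h4
  have h01 := one 0 1 (by decide)
  have h12 := one 1 2 (by decide)
  have h02 := one 0 2 (by decide)
  -- the sum of two classes
  have hsum : (c2 (b 2) - c2 (b 0)) / N = (c2 (b 1) - c2 (b 0)) / N + (c2 (b 2) - c2 (b 1)) / N ∨
      (c2 (b 2) - c2 (b 0)) / N = (c2 (b 1) - c2 (b 0)) / N + (c2 (b 2) - c2 (b 1)) / N + 1 := by
    have e1 := Int.emod_add_mul_ediv (c2 (b 1) - c2 (b 0)) N
    have e2 := Int.emod_add_mul_ediv (c2 (b 2) - c2 (b 1)) N
    have f1 := Int.emod_nonneg (c2 (b 1) - c2 (b 0)) hN.ne'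
    have f2 := Int.emod_lt_of_pos (c2 (b 1) - c2 (b 0)) hN
    have f3 := Int.emod_nonneg (c2 (b 2) - c2 (b 1)) hN.ne'
    have f4 := Int.emod_lt_of_pos (c2 (b 2) - c2 (b 1)) hN
    have e : c2 (b 2) - c2 (b 0) = (c2 (b 1) - c2 (b 0)) + (c2 (b 2) - c2 (b 1)) := by ring
    rw [e]
    generalize (c2 (b 1) - c2 (b 0)) / N = q1 at *
    generalize (c2 (b 2) - c2 (b 1)) / N = q2 at *
    generalize (c2 (b 1) - c2 (b 0)) % N = r1 at *
    generalize (c2 (b 2) - c2 (b 1)) % N = r2 at *
    rw [← e1, ← e2]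
    by_cases h : r1 + r2 < N
    · left
      rw [Int.ediv_eq_iff_of_pos hN]
      constructor <;> nlinarith
    · right
      rw [Int.ediv_eq_iff_of_pos hN]
      replace h := not_lt.1 h
      constructor <;> nlinarith
  rcases hsum with h | h
  · rw [h] at h02
    push_cast at h02
    rw [h01, h12] at h02
    exact absurd h02 (by decide)
  · rw [h] at h02
    push_cast at h02
    rw [h01, h12] at h02
    exact absurd h02 (by decide)

end

end Pool.Agent.CutN
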