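import Mathlib
import Pool.Agent.Work.MP_392c8e_co_uni.Ring6
import Pool.Agent.Work.MP_392c8e_co_uni.SpreadN

/-!
# A side behind a ring can be deleted

`ring_kill`: `Y` is a side with outer ends `b i`, and `b i` is adjacent outside `Y` to the `sv j`
with `j ≠ i` only, `sv i` has one more neighbour `pv i`.  A colouring of the graph without `Y` is
changed on the ring such that the `b i` are spread, and then extended to `Y`.

`ring_centre_kill`: the same for a single vertex in place of `Y`.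

`k13_far`: the neighbours of one vertex can be moved apart.
-/

namespace Pool.Agent.CutN

open Pool.Agent.Red (side side_le)

variable {N g s x : ℤ}

/-- The distance on the circle of length `N` in terms of residues. -/
theorem Dst.emod (hg : 0 < g) (h : Dst N g x) : g ≤ x % N ∧ x % N ≤ N - g := by
  obtain ⟨k, h1, h2⟩ := h
  have e : x % N = x + N * k := by
    rw [← Int.add_mul_emod_self_left x N k, Int.emod_eq_of_lt (by linarith) (by linarith)]
  rw [e]
  exact ⟨h1, h2⟩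

/-- Changing a colouring on a set of vertices. -/
theorem IsCol.recolour {V : Type*} {H : SimpleGraph V} {c c' : V → ℤ} {R : V → Prop}
    (h : IsCol N H c) (hoff : ∀ v, ¬ R v → c' v = c v)
    (hon : ∀ u v, R u → H.Adj u v → Jn N (c' v - c' u)) : IsCol N H c' := by
  intro u v huv
  by_cases hu : R u
  · exact hon u v hu huv
  · by_cases hv : R v
    · have := (hon v u hv huv.symm).neg
      rwa [neg_sub] at this
    · rw [hoff u hu, hoff v hv]
      exact h u v huv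

/-- A ring above the set `Y`. -/
structure RingOver {V : Type*} (G : SimpleGraph V) (Y : V → Prop) (b sv pv : Fin 3 → V) :
    Prop where
  injb : Function.Injective b
  injs : Function.Injective sv
  disj : ∀ i j, sv i ≠ b j
  pb : ∀ i j, pv i ≠ b j
  ps : ∀ i j, pv i ≠ sv j
  yb : ∀ i, ¬ Y (b i)
  ys : ∀ i, ¬ Y (sv i)
  yp : ∀ i, ¬ Y (pv i)
  adjp : ∀ i, G.Adj (pv i) (sv i)
  adjb : ∀ i j, i ≠ j → G.Adj (sv j) (b i)
  nbs : ∀ i v, G.Adj (sv i) v → v = pv i ∨ ∃ j, j ≠ i ∧ v = b j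
  nbb : ∀ i v, ¬ Y v → G.Adj (b i) v → ∃ j, j ≠ i ∧ v = sv j

section

variable {V : Type*} {G : SimpleGraph V} {Y : V → Prop} {b sv pv : Fin 3 → V}

/-- The colouring after a change on the ring. -/
theorem RingOver.isCol (h : RingOver G Y b sv pv) {H : SimpleGraph V} {c2 : V → ℤ}
    (hH : ∀ u v, H.Adj u v → G.Adj u v ∧ ¬ Y u ∧ ¬ Y v) (h2 : IsCol N H c2) {s' u' : Fin 3 → ℤ}
    (g1 : ∀ i, Jn N (s' i - c2 (pv i))) (g2 : ∀ i j, i ≠ j → Jn N (u' i - s' j)) :
    ∃ c3 : V → ℤ, IsCol N H c3 ∧ (∀ i, c3 (b i) = u' i) ∧ (∀ i, c3 (sv i) = s' i) ∧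
      ∀ v, (∀ i, v ≠ b i) → (∀ i, v ≠ sv i) → c3 v = c2 v := by
  classical
  set c3 : V → ℤ := Function.extend sv s' (Function.extend b u' c2) with hc3
  have es : ∀ i, c3 (sv i) = s' i := fun i => h.injs.extend_apply _ _ _
  have eb : ∀ i, c3 (b i) = u' i := fun i => by
    rw [hc3, Function.extend_apply' _ _ _ (by rintro ⟨j, hj⟩; exact h.disj j i hj)]
    exact h.injb.extend_apply _ _ _
  have eo : ∀ v, (∀ i, v ≠ b i) → (∀ i, v ≠ sv i) → c3 v = c2 v := fun v hb hs => by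
    rw [hc3, Function.extend_apply' _ _ _ (by rintro ⟨j, hj⟩; exact hs j hj.symm),
      Function.extend_apply' _ _ _ (by rintro ⟨j, hj⟩; exact hb j hj.symm)]
  refine ⟨c3, ?_, eb, es, eo⟩
  have neg : ∀ {x y : ℤ}, Jn N (x - y) → Jn N (y - x) := by
    intro x y h
    have := h.neg
    rwa [neg_sub] at this
  refine h2.recolour (R := fun v => (∃ i, v = sv i) ∨ ∃ i, v = b i) (fun v hv => ?_) ?_
  · exact eo v (fun i e => hv (Or.inr ⟨i, e⟩)) (fun i e => hv (Or.inl ⟨i, e⟩))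
  · rintro u v (⟨i, rfl⟩ | ⟨i, rfl⟩) huv
    · obtain ⟨h3, -, -⟩ := hH _ _ huv
      rcases h.nbs i v h3 with rfl | ⟨j, hj, rfl⟩
      · rw [es, eo _ (fun j => h.pb i j) (fun j => h.ps i j)]
        exact neg (g1 i)
      · rw [es, eb]
        exact g2 j i hj
    · obtain ⟨h3, -, h4⟩ := hH _ _ huv
      obtain ⟨j, hj, rfl⟩ := h.nbb i v h4 h3
      rw [es, eb]
      exact neg (g2 i j hj.symm)

/-- The colours on the ring. -/
theorem RingOver.data (h : RingOver G Y b sv pv) {H : SimpleGraph V} {c2 : V → ℤ}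
    (hH : ∀ u v, G.Adj u v → ¬ Y u → ¬ Y v → H.Adj u v) (h2 : IsCol N H c2) :
    (∀ i, Jn N (c2 (sv i) - c2 (pv i))) ∧ ∀ i j, i ≠ j → Jn N (c2 (b i) - c2 (sv j)) :=
  ⟨fun i => h2 _ _ (hH _ _ (h.adjp i) (h.yp i) (h.ys i)),
    fun i j hij => h2 _ _ (hH _ _ (h.adjb i j hij) (h.ys j) (h.yb i))⟩

/-- **Behind a ring: the spread colouring.** -/
theorem RingOver.spread (hs0 : 0 ≤ s) (hN : 6 * s + 20 ≤ N) (h : RingOver G Y b sv pv) {c2 : V → ℤ}
    (h2 : IsCol N (side G fun v => ¬ Y v) c2) :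
    ∃ c3 : V → ℤ, IsCol N (side G fun v => ¬ Y v) c3 ∧ (Spread N s fun l => c3 (b l)) ∧
      ∀ v, (∀ i, v ≠ b i) → (∀ i, v ≠ sv i) → c3 v = c2 v := by
  obtain ⟨d1, d2⟩ := h.data (H := side G fun v => ¬ Y v) (fun u v huv hu hv => ⟨huv, hu, hv⟩) h2
  obtain ⟨s', u', g1, g2, g3⟩ := ring_spread (g := s + 1) (by linarith) (by linarith) d1 d2
  obtain ⟨c3, k1, k2, -, k4⟩ := h.isCol (fun u v huv => huv) h2 g1 g2
  refine ⟨c3, k1, fun i j hij => ?_, k4⟩
  show s < (c3 (b i) - c3 (b j)) % N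
  rw [k2, k2]
  have := ((g3 i j hij).emod (by linarith)).1
  linarith

/-- **A side with a rung behind a ring can be deleted.** -/
theorem ring_kill_rung (hs0 : 0 ≤ s) (hN : 6 * s + 20 ≤ N) {a : Fin 3 → V}
    (hcut : ∀ u v, Y u → ¬ Y v → G.Adj u v → ∃ i, u = a i ∧ v = b i)
    (h : RingOver G Y b sv pv) {i j : Fin 3} (hij : i ≠ j)
    (hacc : ∀ y : Fin 3 → ZMod 3, y i ≠ y j → Acc s G Y a y) {c2 : V → ℤ}
    (h2 : IsCol N (side G fun v => ¬ Y v) c2) :
    ∃ c, IsCol N G c ∧ ∀ v, ¬ Y v → (∀ i, v ≠ b i) → (∀ i, v ≠ sv i) → c v = c2 v := by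
  obtain ⟨c3, k1, k2, k3⟩ := h.spread hs0 hN h2
  obtain ⟨c, e1, e2⟩ := leafN_rung hs0 (by linarith) hcut hij hacc k1 k2
  exact ⟨c, e1, fun v hv hb hs => by rw [e2 v hv, k3 v hb hs]⟩

/-- **A side which accepts the vectors with two equal entries can be deleted behind a ring.** -/
theorem ring_kill_two (hs0 : 0 ≤ s) (hN : 6 * s + 20 ≤ N) {a : Fin 3 → V}
    (hcut : ∀ u v, Y u → ¬ Y v → G.Adj u v → ∃ i, u = a i ∧ v = b i)
    (h : RingOver G Y b sv pv)
    (hacc : ∀ y : Fin 3 → ZMod 3, (∃ i j, i ≠ j ∧ y i = y j) → Acc s G Y a y) {c2 : V → ℤ}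
    (h2 : IsCol N (side G fun v => ¬ Y v) c2) :
    ∃ c, IsCol N G c ∧ ∀ v, ¬ Y v → (∀ i, v ≠ b i) → (∀ i, v ≠ sv i) → c v = c2 v := by
  obtain ⟨c3, k1, k2, k3⟩ := h.spread hs0 hN h2
  obtain ⟨c, e1, e2⟩ := leafN_two hs0 (by linarith) hcut hacc k1 k2
  exact ⟨c, e1, fun v hv hb hs => by rw [e2 v hv, k3 v hb hs]⟩

/-- **A single vertex behind a ring can be deleted.** -/
theorem ring_centre_kill (hN : 1 < N) {z : V} (hz : ∀ v, G.Adj z v → ∃ i, v = b i)
    (h : RingOver G (fun v => v = z) b sv pv) {c2 : V → ℤ}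
    (h2 : IsCol N (side G fun v => ¬ v = z) c2) :
    ∃ c, IsCol N G c ∧ ∀ v, v ≠ z → (∀ i, v ≠ b i) → c v = c2 v := by
  classical
  obtain ⟨d1, d2⟩ := h.data (H := side G fun v => ¬ v = z) (fun u v huv hu hv => ⟨huv, hu, hv⟩) h2
  obtain ⟨b0, z0, e1, e2⟩ := ring_centre hN d2
  obtain ⟨c3, k1, k2, k3, k4⟩ := h.isCol (fun u v huv => huv) h2 (u' := fun _ => b0) d1
    (fun i j _ => e1 j)
  have neg : ∀ {x y : ℤ}, Jn N (x - y) → Jn N (y - x) := by
    intro x y h
    have := h.neg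
    rwa [neg_sub] at this
  refine ⟨Function.update c3 z z0, fun u v huv => ?_, fun v hv hb => ?_⟩
  · by_cases hu : u = z
    · subst hu
      obtain ⟨i, rfl⟩ := hz v huv
      rw [Function.update_self, Function.update_of_ne (h.yb i), k2]
      exact neg e2
    · by_cases hv : v = z
      · subst hv
        obtain ⟨i, rfl⟩ := hz u huv.symm
        rw [Function.update_self, Function.update_of_ne (h.yb i), k2]
        exact e2
      · rw [Function.update_of_ne hu, Function.update_of_ne hv]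
        exact k1 u v ⟨huv, hu, hv⟩
  · rw [Function.update_of_ne hv]
    by_cases hs : ∃ i, v = sv i
    · obtain ⟨i, rfl⟩ := hs
      exact k3 i
    · exact k4 v hb (fun i e => hs ⟨i, e⟩)

end

end Pool.Agent.CutN
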