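import Mathlib
import Pool.Agent.Work.MP_392c8e_co_uni.Alt4
import Pool.Agent.Work.MP_392c8e_co_uni.LeafK
import Pool.Agent.Work.MP_392c8e_co_uni.RingKill
import Pool.Agent.Work.MP_392c8e_co_uni.BadSide

/-!
# A side with two adjacent ends behind four alternating rungs can be deleted

`RSt G s s' i j k`: the side `s'` is the side `s` without the rung `s.a i`, `s.a j`; the third
strand is `k`.  `alt_kill`: four steps with the rungs on the strands `i j`, `k j`, `i j`, `k j`,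
and the innermost side accepts all vectors of colours with `y i ≠ y j`.  Then every colouring of
the graph without the innermost side can be changed on the eight ends of the rungs and extended.
-/

namespace Pool.Agent.CutN

open Pool.Agent.Red (side side_le)
open Pool.Agent.Bad59 (Sd rsd)

variable {V : Type} {G : SimpleGraph V} {N : ℤ}

/-- Removing a rung between the strands `i` and `j`. -/
structure RSt (G : SimpleGraph V) (s s' : Sd V) (i j k : Fin 3) : Prop where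
  Y' : ∀ v, s'.Y v ↔ s.Y v ∧ v ≠ s.a i ∧ v ≠ s.a j
  rung : G.Adj (s.a i) (s.a j)
  bi : s'.b i = s.a i
  bj : s'.b j = s.a j
  bk : s'.b k = s.b k
  ak : s'.a k = s.a k
  ni : ∀ w, G.Adj (s.a i) w → w = s.b i ∨ w = s.a j ∨ w = s'.a i
  nj : ∀ w, G.Adj (s.a j) w → w = s.b j ∨ w = s.a i ∨ w = s'.a j

theorem RSt.symm {s s' : Sd V} {i j k : Fin 3} (h : RSt G s s' i j k) : RSt G s s' j i k where
  Y' v := by rw [h.Y']; tauto
  rung := h.rung.symm
  bi := h.bj
  bj := h.bi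
  bk := h.bk
  ak := h.ak
  ni := h.nj
  nj := h.ni

theorem RSt.outi {s s' : Sd V} {i j k : Fin 3} (h : RSt G s s' i j k) : ¬ s'.Y (s.a i) :=
  fun h1 => ((h.Y' _).1 h1).2.1 rfl

theorem RSt.outj {s s' : Sd V} {i j k : Fin 3} (h : RSt G s s' i j k) : ¬ s'.Y (s.a j) :=
  fun h1 => ((h.Y' _).1 h1).2.2 rfl

theorem RSt.le {s s' : Sd V} {i j k : Fin 3} (h : RSt G s s' i j k) {v : V} (hv : s'.Y v) :
    s.Y v := ((h.Y' _).1 hv).1

theorem RSt.mem {s s' : Sd V} {i j k : Fin 3} (h : RSt G s s' i j k) {v : V} (hv : s.Y v)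
    (hv' : ¬ s'.Y v) : v = s.a i ∨ v = s.a j := by
  by_contra hc
  push Not at hc
  exact hv' ((h.Y' _).2 ⟨hv, hc.1, hc.2⟩)

/-- **A side with two adjacent ends behind four alternating rungs can be deleted.** -/
theorem alt_kill {t : ℤ} (ht : 0 ≤ t) (hN : 128 * t + 328 ≤ N) {s0 s1 s2 s3 s4 : Sd V}
    {i j k : Fin 3} (hij : i ≠ j)
    (h0 : RSt G s0 s1 i j k) (h1 : RSt G s1 s2 k j i) (h2 : RSt G s2 s3 i j k)
    (h3 : RSt G s3 s4 k j i)
    (c0 : CutK G s0.Y s0.a s0.b) (c1 : CutK G s1.Y s1.a s1.b) (c2 : CutK G s2.Y s2.a s2.b)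
    (c3 : CutK G s3.Y s3.a s3.b) (c4 : CutK G s4.Y s4.a s4.b)
    (hacc : ∀ y : Fin 3 → ZMod 3, y i ≠ y j → Acc t G s4.Y s4.a y) {q : V → ℤ}
    (hq : IsCol N (side G fun v => ¬ s4.Y v) q) :
    ∃ c, IsCol N G c ∧ ∀ v, ¬ s0.Y v → c v = q v := by
  classical
  -- positions of the vertices in the chain of sides
  have p1Y : s0.Y (s0.a i) := c0.hX i
  have p2Y : s0.Y (s0.a j) := c0.hX j
  have p1n : ¬ s1.Y (s0.a i) := h0.outi
  have p2n : ¬ s1.Y (s0.a j) := h0.outj
  have q3Y : s1.Y (s1.a k) := c1.hX k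
  have q2Y : s1.Y (s1.a j) := c1.hX j
  have q3n : ¬ s2.Y (s1.a k) := h1.outi
  have q2n : ¬ s2.Y (s1.a j) := h1.outj
  have r1Y : s2.Y (s2.a i) := c2.hX i
  have r2Y : s2.Y (s2.a j) := c2.hX j
  have r1n : ¬ s3.Y (s2.a i) := h2.outi
  have r2n : ¬ s3.Y (s2.a j) := h2.outj
  have s3Y : s3.Y (s3.a k) := c3.hX k
  have s2Y : s3.Y (s3.a j) := c3.hX j
  have s3n : ¬ s4.Y (s3.a k) := h3.outi
  have s2n : ¬ s4.Y (s3.a j) := h3.outj
  have d10 : ∀ v, ¬ s0.Y v → ¬ s1.Y v := fun v hv h => hv (h0.le h)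
  have d21 : ∀ v, ¬ s1.Y v → ¬ s2.Y v := fun v hv h => hv (h1.le h)
  have d32 : ∀ v, ¬ s2.Y v → ¬ s3.Y v := fun v hv h => hv (h2.le h)
  have d43 : ∀ v, ¬ s3.Y v → ¬ s4.Y v := fun v hv h => hv (h3.le h)
  -- edges
  have col : ∀ {u v : V}, G.Adj u v → ¬ s4.Y u → ¬ s4.Y v → Jn N (q u - q v) :=
    fun h5 hu hv => hq _ _ ⟨h5.symm, hv, hu⟩
  have np1 : ¬ s4.Y (s0.a i) := d43 _ (d32 _ (d21 _ p1n))
  have np2 : ¬ s4.Y (s0.a j) := d43 _ (d32 _ (d21 _ p2n))
  have nq3 : ¬ s4.Y (s1.a k) := d43 _ (d32 _ q3n)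
  have nq2 : ¬ s4.Y (s1.a j) := d43 _ (d32 _ q2n)
  have nr1 : ¬ s4.Y (s2.a i) := d43 _ r1n
  have nr2 : ¬ s4.Y (s2.a j) := d43 _ r2n
  have nB : ∀ m, ¬ s4.Y (s0.b m) := fun m => d43 _ (d32 _ (d21 _ (d10 _ (c0.hY m))))
  -- identifications
  have i1 : s1.b i = s0.a i := h0.bi
  have i2 : s1.b j = s0.a j := h0.bj
  have i3 : s1.b k = s0.b k := h0.bk
  have j1 : s2.b k = s1.a k := h1.bi
  have j2 : s2.b j = s1.a j := h1.bj
  have j3 : s2.b i = s0.a i := by rw [h1.bk, i1]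
  have j4 : s1.a i = s2.a i := h1.ak.symm
  have l1 : s3.b i = s2.a i := h2.bi
  have l2 : s3.b j = s2.a j := h2.bj
  have l3 : s3.b k = s1.a k := by rw [h2.bk, j1]
  have l4 : s2.a k = s3.a k := h2.ak.symm
  have m1 : s4.b k = s3.a k := h3.bi
  have m2 : s4.b j = s3.a j := h3.bj
  have m3 : s4.b i = s2.a i := by rw [h3.bk, l1]
  -- the rungs in the given colouring
  have hAlt : Alt N (q (s0.b i)) (q (s0.b j)) (q (s0.b k)) (q (s0.a i)) (q (s0.a j))
      (q (s1.a j)) (q (s1.a k)) (q (s2.a i)) (q (s2.a j)) (q (s3.a j)) (q (s3.a k)) := by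
    refine ⟨⟨?_, ?_, ?_⟩, ⟨?_, ?_, ?_⟩, ⟨?_, ?_, ?_⟩, ⟨?_, ?_, ?_⟩⟩
    · exact col (c0.adj i) np1 (nB i)
    · exact col (c0.adj j) np2 (nB j)
    · exact col h0.rung np1 np2
    · have := c1.adj k
      rw [i3] at this
      exact col this nq3 (nB k)
    · have := c1.adj j
      rw [i2] at this
      exact col this nq2 np2
    · exact col h1.rung nq3 nq2
    · have := c2.adj i
      rw [j3] at this
      exact col this nr1 np1
    · have := c2.adj j
      rw [j2] at this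
      exact col this nr2 nq2
    · exact col h2.rung nr1 nr2
    · have := c3.adj k
      rw [l3] at this
      exact col this s3n nq3
    · have := c3.adj j
      rw [l2] at this
      exact col this s2n nr2
    · exact col h3.rung s3n s2n
  obtain ⟨P1, P2, Q2, Q3, R1, R2, S2, S3, ⟨⟨a1, a2, a3⟩, ⟨a4, a5, a6⟩, ⟨a7, a8, a9⟩,
    ⟨a10, a11, a12⟩⟩, far⟩ := alt4 (K := 2 * t + 2) (by linarith) (by linarith) hAlt
  -- the new colouring
  set c' : V → ℤ := fun v =>
    if s3.Y v then (if v = s3.a k then S3 else S2)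
    else if s2.Y v then (if v = s2.a i then R1 else R2)
    else if s1.Y v then (if v = s1.a k then Q3 else Q2)
    else if s0.Y v then (if v = s0.a i then P1 else P2)
    else q v with hc'
  have eB : ∀ v, ¬ s0.Y v → c' v = q v := by
    intro v hv
    simp only [hc', if_neg hv, if_neg (d10 _ hv), if_neg (d21 _ (d10 _ hv)),
      if_neg (d32 _ (d21 _ (d10 _ hv)))]
  have ep1 : c' (s0.a i) = P1 := by
    simp only [hc', if_pos p1Y, if_neg p1n, if_neg (d21 _ p1n), if_neg (d32 _ (d21 _ p1n)),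
      if_true]
  have ep2 : c' (s0.a j) = P2 := by
    simp only [hc', if_pos p2Y, if_neg p2n, if_neg (d21 _ p2n), if_neg (d32 _ (d21 _ p2n)),
      if_neg h0.rung.ne']
  have eq3 : c' (s1.a k) = Q3 := by
    simp only [hc', if_pos q3Y, if_neg q3n, if_neg (d32 _ q3n), if_true]
  have eq2 : c' (s1.a j) = Q2 := by
    simp only [hc', if_pos q2Y, if_neg q2n, if_neg (d32 _ q2n), if_neg h1.rung.ne']
  have er1 : c' (s2.a i) = R1 := by
    simp only [hc', if_pos r1Y, if_neg r1n, if_true]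
  have er2 : c' (s2.a j) = R2 := by
    simp only [hc', if_pos r2Y, if_neg r2n, if_neg h2.rung.ne']
  have es3 : c' (s3.a k) = S3 := by
    simp only [hc', if_pos s3Y, if_true]
  have es2 : c' (s3.a j) = S2 := by
    simp only [hc', if_pos s2Y, if_neg h3.rung.ne']
  have sw : ∀ {x y : ℤ}, Jn N (x - y) → Jn N (y - x) := by
    intro x y h
    have := h.neg
    rwa [neg_sub] at this
  have hcol : IsCol N (side G fun v => ¬ s4.Y v) c' := by
    refine hq.recolour (R := fun v => s0.Y v) eB ?_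
    rintro u v hu ⟨huv, hu4, hv4⟩
    by_cases u3 : s3.Y u
    · rcases h3.mem u3 hu4 with rfl | rfl
      · rcases h3.ni v huv with rfl | rfl | rfl
        · rw [l3, es3, eq3]; exact sw a10
        · rw [es3, es2]; exact sw a12
        · exact absurd (c4.hX k) hv4
      · rcases h3.nj v huv with rfl | rfl | rfl
        · rw [l2, es2, er2]; exact sw a11
        · rw [es3, es2]; exact a12
        · exact absurd (c4.hX j) hv4
    by_cases u2 : s2.Y u
    · rcases h2.mem u2 u3 with rfl | rfl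
      · rcases h2.ni v huv with rfl | rfl | rfl
        · rw [j3, er1, ep1]; exact sw a7
        · rw [er1, er2]; exact sw a9
        · exfalso
          apply hv4
          rw [← h3.ak]
          exact c4.hX i
      · rcases h2.nj v huv with rfl | rfl | rfl
        · rw [j2, er2, eq2]; exact sw a8
        · rw [er1, er2]; exact a9
        · rw [er2, es2]; exact a11
    by_cases u1 : s1.Y u
    · rcases h1.mem u1 u2 with rfl | rfl
      · rcases h1.ni v huv with rfl | rfl | rfl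
        · rw [i3, eq3, eB _ (c0.hY k)]; exact sw a4
        · rw [eq3, eq2]; exact sw a6
        · rw [l4, eq3, es3]; exact a10
      · rcases h1.nj v huv with rfl | rfl | rfl
        · rw [i2, eq2, ep2]; exact sw a5
        · rw [eq3, eq2]; exact a6
        · rw [eq2, er2]; exact a8
    · rcases h0.mem hu u1 with rfl | rfl
      · rcases h0.ni v huv with rfl | rfl | rfl
        · rw [ep1, eB _ (c0.hY i)]; exact sw a1
        · rw [ep1, ep2]; exact sw a3
        · rw [j4, ep1, er1]; exact a7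
      · rcases h0.nj v huv with rfl | rfl | rfl
        · rw [ep2, eB _ (c0.hY j)]; exact sw a2
        · rw [ep1, ep2]; exact a3
        · rw [ep2, eq2]; exact a5
  obtain ⟨c, g1, g2⟩ := leafN_edge ht (by linarith) c4.cut hij hacc hcol (by
    intro m
    rw [m2, m3, es2, er1]
    rcases far (-m) with h5 | h5
    · have e : S2 - R1 + 3 * N * -m = S2 - R1 - 3 * N * m := by ring
      rw [e] at h5
      exact h5.trans (le_abs_self _)
    · have e : S2 - R1 + 3 * N * -m = S2 - R1 - 3 * N * m := by ring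
      rw [e] at h5
      have := neg_abs_le (S2 - R1 - 3 * N * m)
      linarith)
  refine ⟨c, g1, fun v hv => ?_⟩
  rw [g2 v (d43 _ (d32 _ (d21 _ (d10 _ hv)))), eB v hv]

/-- The step of `Pool.Agent.Bad59.rsd`. -/
theorem RSt.of_rsd [Fintype V] [DecidableEq V] {s : Sd V} {l : Fin 3} {r1 r2 : V} (hr : G.Adj (s.a (l + 1)) (s.a (l + 2)))
    (n1 : ∀ w, G.Adj (s.a (l + 1)) w → w = s.b (l + 1) ∨ w = s.a (l + 2) ∨ w = r1)
    (n2 : ∀ w, G.Adj (s.a (l + 2)) w → w = s.b (l + 2) ∨ w = s.a (l + 1) ∨ w = r2) :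
    RSt G s (rsd s l r1 r2) (l + 1) (l + 2) l where
  Y' _ := Iff.rfl
  rung := hr
  bi := Bad59.rsd_b1
  bj := Bad59.rsd_b2
  bk := Bad59.rsd_b0
  ak := Bad59.rsd_a0
  ni := by rw [Bad59.rsd_a1]; exact n1
  nj := by rw [Bad59.rsd_a2]; exact n2

/-- The two strands of a rung in any order. -/
theorem RSt.arr {s s' : Sd V} {l i j : Fin 3} (h : RSt G s s' (l + 1) (l + 2) l) (hij : i ≠ j)
    (hi : i ≠ l) (hj : j ≠ l) : RSt G s s' i j l := by
  have key : ∀ l i j : Fin 3, i ≠ j → i ≠ l → j ≠ l →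
      (i = l + 1 ∧ j = l + 2) ∨ (i = l + 2 ∧ j = l + 1) := by decide
  rcases key l i j hij hi hj with ⟨rfl, rfl⟩ | ⟨rfl, rfl⟩
  · exact h
  · exact h.symm

/-- **A side with two adjacent ends behind four alternating rungs can be deleted**: the letters
`la`, `lb`, `la`, `lb` above a side whose first letter is `la` again. -/
theorem alt_kill_l {t : ℤ} (ht : 0 ≤ t) (hN : 128 * t + 328 ≤ N) {s0 s1 s2 s3 s4 : Sd V}
    {la lb : Fin 3} (hne : la ≠ lb)
    (h0 : RSt G s0 s1 (la + 1) (la + 2) la) (h1 : RSt G s1 s2 (lb + 1) (lb + 2) lb)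
    (h2 : RSt G s2 s3 (la + 1) (la + 2) la) (h3 : RSt G s3 s4 (lb + 1) (lb + 2) lb)
    (c0 : CutK G s0.Y s0.a s0.b) (c1 : CutK G s1.Y s1.a s1.b) (c2 : CutK G s2.Y s2.a s2.b)
    (c3 : CutK G s3.Y s3.a s3.b) (c4 : CutK G s4.Y s4.a s4.b)
    (hacc : ∀ y : Fin 3 → ZMod 3, y (la + 1) ≠ y (la + 2) → Acc t G s4.Y s4.a y) {q : V → ℤ}
    (hq : IsCol N (side G fun v => ¬ s4.Y v) q) :
    ∃ c, IsCol N G c ∧ ∀ v, ¬ s0.Y v → c v = q v := by
  have key : ∀ la lb : Fin 3, la ≠ lb → ∃ j : Fin 3, j ≠ la ∧ j ≠ lb ∧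
      ((lb = la + 1 ∧ j = la + 2) ∨ (lb = la + 2 ∧ j = la + 1)) := by decide
  obtain ⟨j, j1, j2, hj⟩ := key la lb hne
  refine alt_kill ht hN (i := lb) (j := j) (k := la) j2.symm (h0.arr j2.symm hne.symm j1)
    (h1.arr j1.symm hne j2) (h2.arr j2.symm hne.symm j1) (h3.arr j1.symm hne j2)
    c0 c1 c2 c3 c4 (fun y hy => hacc y ?_) hq
  rcases hj with ⟨h4, h5⟩ | ⟨h4, h5⟩
  · rw [← h4, ← h5]
    exact hy
  · rw [← h4, ← h5]
    exact hy.symm

end Pool.Agent.CutN
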