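import Mathlib

/-!
# Three faces of length five in a chain: one of the reducers with gain applies

Abstract form: `D` darts, `al` reversal, `n` next dart, `p` previous dart of the face, `s d` the
length of the face of `d`, all vertices of degree three.  The statement is symmetric in `n` and `p`.

`CC n p d`: the faces of `al d`, `d`, `al (n (n d))` form a chain `P1 P2 P3` around the face
`F = al (n d)`; the face `O0 = al (n (n (al d)))` has not length five and not both `F` and
`O2 = al (p (p d))` have length five.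

`ZZ n p d`: zigzag of the four faces `al (n (n d))`, `d`, `al d`, `al (n (n (al d)))`.

`FF n p d`: the face of `d` and its five neighbours have length five.
-/

namespace Pool.Agent.U2Chain

section Defs

variable {D : Type*} (al n p : D → D) (s : D → ℕ)

/-- The maps of a plane cubic graph. -/
structure Mp : Prop where
  al_al : ∀ d, al (al d) = d
  n_p : ∀ d, n (p d) = d
  p_n : ∀ d, p (n d) = d
  T : ∀ d, n (al (n (al d))) = al (p d)
  T' : ∀ d, p (al (p (al d))) = al (n d)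
  s_n : ∀ d, s (n d) = s d
  s_p : ∀ d, s (p d) = s d
  five : ∀ d, s d = 5 → n (n (n d)) = p (p d)
  five' : ∀ d, s d = 5 → p (p (p d)) = n (n d)

/-- Chain. -/
def CC (d : D) : Prop :=
  s d = 5 ∧ s (al d) = 5 ∧ s (al (n (n d))) = 5 ∧ s (al (n (n (al d)))) ≠ 5 ∧
    (s (al (n d)) = 5 → s (al (p (p d))) ≠ 5)

/-- Zigzag. -/
def ZZ (d : D) : Prop :=
  s d = 5 ∧ s (al d) = 5 ∧ s (al (n (n d))) = 5 ∧ s (al (n (n (al d)))) = 5 ∧
    (s (al (n d)) = 5 → s (al (p (p d))) ≠ 5) ∧
    (s (al (n (al d))) = 5 → s (al (p (p (al d)))) ≠ 5)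

/-- Flower. -/
def FF (d : D) : Prop :=
  s d = 5 ∧ s (al d) = 5 ∧ s (al (n d)) = 5 ∧ s (al (n (n d))) = 5 ∧ s (al (p (p d))) = 5 ∧
    s (al (p d)) = 5

/-- Some reducer applies at `d`. -/
def Red (d : D) : Prop := CC al n p s d ∨ CC al p n s d ∨ ZZ al n p s d ∨ ZZ al p n s d ∨
  FF al n p s d

/-- The dart `e` is reached from `d` by at most `k` moves. -/
def Nr : ℕ → D → D → Prop
  | 0, d, e => e = d
  | k + 1, d, e => ∃ x, Nr k d x ∧ (e = x ∨ e = n x ∨ e = p x ∨ e = al x)

end Defs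

variable {D : Type*} {al n p : D → D} {s : D → ℕ}

theorem Mp.swap (h : Mp al n p s) : Mp al p n s where
  al_al := h.al_al
  n_p := h.p_n
  p_n := h.n_p
  T := h.T'
  T' := h.T
  s_n := h.s_p
  s_p := h.s_n
  five := h.five'
  five' := h.five

theorem Red.swap {d : D} (h : Red al n p s d) : Red al p n s d := by
  rcases h with h | h | h | h | h
  · exact Or.inr (Or.inl h)
  · exact Or.inl h
  · exact Or.inr (Or.inr (Or.inr (Or.inl h)))
  · exact Or.inr (Or.inr (Or.inl h))
  · obtain ⟨h1, h2, h3, h4, h5, h6⟩ := h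
    exact Or.inr (Or.inr (Or.inr (Or.inr ⟨h1, h2, h6, h5, h4, h3⟩)))

theorem nr_refl (k : ℕ) (d : D) : Nr al n p k d d := by
  induction k with
  | zero => rfl
  | succ k ih => exact ⟨d, ih, Or.inl rfl⟩

theorem nr_mono {k l : ℕ} {d e : D} (h : Nr al n p k d e) (hkl : k ≤ l) : Nr al n p l d e := by
  induction hkl with
  | refl => exact h
  | step _ ih => exact ⟨e, ih, Or.inl rfl⟩

theorem nr_n {k : ℕ} {d e : D} (h : Nr al n p k d e) : Nr al n p (k + 1) d (n e) :=
  ⟨e, h, Or.inr (Or.inl rfl)⟩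

theorem nr_p {k : ℕ} {d e : D} (h : Nr al n p k d e) : Nr al n p (k + 1) d (p e) :=
  ⟨e, h, Or.inr (Or.inr (Or.inl rfl))⟩

theorem nr_al {k : ℕ} {d e : D} (h : Nr al n p k d e) : Nr al n p (k + 1) d (al e) :=
  ⟨e, h, Or.inr (Or.inr (Or.inr rfl))⟩

theorem nr_trans {k l : ℕ} {d e f : D} (h : Nr al n p k d e) (h' : Nr al n p l e f) :
    Nr al n p (k + l) d f := by
  induction l generalizing f with
  | zero => have : f = e := h'; rw [this]; exact h
  | succ l ih =>
    obtain ⟨x, hx, h1⟩ := h'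
    exact ⟨x, ih hx, h1⟩

theorem nr_swap {k : ℕ} {d e : D} (h : Nr al n p k d e) : Nr al p n k d e := by
  induction k generalizing e with
  | zero => exact h
  | succ k ih =>
    obtain ⟨x, hx, h1⟩ := h
    refine ⟨x, ih hx, ?_⟩
    rcases h1 with h1 | h1 | h1 | h1
    · exact Or.inl h1
    · exact Or.inr (Or.inr (Or.inl h1))
    · exact Or.inr (Or.inl h1)
    · exact Or.inr (Or.inr (Or.inr h1))

namespace Mp

variable (h : Mp al n p s)

include h

theorem Tn (d : D) : n (al (n d)) = al (p (al d)) := by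
  have := h.T (al d)
  rwa [h.al_al] at this

theorem s1 (d : D) : s (al (n (al d))) = s (al (p d)) := by
  rw [← h.T, h.s_n]

theorem s2 (d : D) : s (al (p (al d))) = s (al (n d)) := h.swap.s1 d

/-- `L` from the face `F`. -/
theorem gL (e : D) : s (al (n (n (al (n e))))) = s (al (p (p (al e)))) := by
  rw [h.Tn, h.s1]

/-- `R` from the face `F`. -/
theorem gR (e : D) : s (al (p (p (al (n e))))) = s (al (n (n (al (n (n e)))))) := by
  have := h.swap.gL (n (n e))
  rwa [h.p_n] at this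

/-- `O3` from the face `O2`. -/
theorem z2 {e : D} (h5 : s e = 5) :
    s (al (n (n (al (p (p e)))))) = s (al (p (p (al (n (n e)))))) := by
  have := h.gL (p (p (p e)))
  rw [h.n_p, h.five' e h5] at this
  exact this

end Mp

/-- Case `O0 ≠ 5`. -/
theorem caseA (h : Mp al n p s) {e : D} (h5 : s e = 5) (h0 : s (al e) = 5)
    (h2 : s (al (n (n e))) = 5) (hO : s (al (n (n (al e)))) ≠ 5) :
    ∃ d, Nr al n p 4 e d ∧ Red al n p s d := by
  by_cases hF : s (al (n e)) = 5 ∧ s (al (p (p e))) = 5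
  · obtain ⟨hF, hO2⟩ := hF
    by_cases hO1 : s (al (p e)) = 5
    · exact ⟨e, nr_refl _ _, Or.inr (Or.inr (Or.inr (Or.inr ⟨h5, h0, hF, h2, hO2, hO1⟩)))⟩
    have gL := h.gL e
    have gR := h.gR e
    by_cases hL : s (al (p (p (al e)))) = 5
    · by_cases hO3 : s (al (p (p (al (n (n e)))))) = 5
      · by_cases hR : s (al (n (n (al (n (n e)))))) = 5
        · -- flower at P3
          refine ⟨al (n (n e)), nr_mono (nr_al (nr_n (nr_n (nr_refl 0 e)))) (by norm_num),
            Or.inr (Or.inr (Or.inr (Or.inr ⟨h2, ?_, ?_, hR, hO3, ?_⟩)))⟩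
          · rw [h.al_al, h.s_n, h.s_n]; exact h5
          · rw [h.s1, h.p_n]; exact hF
          · rw [h.s2, h.five e h5]; exact hO2
        · -- chain L, F, P3 around R
          have e3 := h.five (al (n e)) hF
          refine ⟨n (n (al (n e))), nr_n (nr_n (nr_al (nr_n (nr_refl 0 e)))), Or.inl ⟨?_, ?_, ?_,
            ?_, ?_⟩⟩
          · rw [h.s_n, h.s_n]; exact hF
          · rw [gL]; exact hL
          · rw [e3, h.n_p, h.s2]; exact h2
          · have e1 : n (al (n (n (al (n e))))) = al (p (p (al e))) := by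
              rw [h.Tn, h.Tn, h.al_al]
            have hx : s (al e) = 5 := h0
            rw [e1, h.s1, h.five' _ hx]
            exact hO
          · intro h6
            exfalso
            apply hR
            rw [← gR, ← e3]
            exact h6
      · -- chain O2, P2, P1 around O1
        refine ⟨p (p e), nr_mono (nr_p (nr_p (nr_refl 0 e))) (by norm_num), Or.inl ⟨?_, hO2, ?_,
          ?_, ?_⟩⟩
        · rw [h.s_p, h.s_p]; exact h5
        · rw [h.n_p, h.n_p]; exact h0
        · rw [h.z2 h5]; exact hO3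
        · intro h6
          rw [h.n_p] at h6
          exact absurd h6 hO1
    · -- chain F, P2, O2 around P3
      refine ⟨n e, nr_mono (nr_n (nr_refl 0 e)) (by norm_num), Or.inl ⟨?_, hF, ?_, ?_, ?_⟩⟩
      · rw [h.s_n]; exact h5
      · rw [h.five e h5]; exact hO2
      · rw [gL]; exact hL
      · intro _
        rw [h.p_n]
        exact hO1
  · refine ⟨e, nr_refl _ _, Or.inl ⟨h5, h0, h2, hO, fun h1 h3 => hF ⟨h1, h3⟩⟩⟩

/-- Case `O0 = O3 = 5`. -/
theorem caseB (h : Mp al n p s) {e : D} (h5 : s e = 5) (h0 : s (al e) = 5)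
    (h2 : s (al (n (n e))) = 5) (hO0 : s (al (n (n (al e)))) = 5)
    (hO3 : s (al (p (p (al (n (n e)))))) = 5) :
    ∃ d, Nr al n p 4 e d ∧ Red al n p s d := by
  -- the zigzag P3 P2 P1 O0
  by_cases z1 : (s (al (n e)) = 5 → s (al (p (p e))) ≠ 5) ∧
      (s (al (n (al e))) = 5 → s (al (p (p (al e)))) ≠ 5)
  · exact ⟨e, nr_refl _ _, Or.inr (Or.inr (Or.inl ⟨h5, h0, h2, hO0, z1.1, z1.2⟩))⟩
  -- the zigzag P1 P2 P3 O3
  have n4 : n (n (n (n e))) = p e := by rw [h.five e h5, h.n_p]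
  by_cases z2 : (s (al (n e)) = 5 → s (al (p e)) ≠ 5) ∧
      (s (al (p (p e))) = 5 → s (al (n (n (al (n (n e)))))) ≠ 5)
  · refine ⟨n (n e), nr_mono (nr_n (nr_n (nr_refl 0 e))) (by norm_num),
      Or.inr (Or.inr (Or.inr (Or.inl ⟨?_, h2, ?_, hO3, ?_, ?_⟩)))⟩
    · rw [h.s_n, h.s_n]; exact h5
    · rw [h.p_n, h.p_n]; exact h0
    · intro h6
      rw [h.p_n] at h6
      rw [n4]
      exact z2.1 h6
    · intro h6
      rw [h.s2, h.five e h5] at h6
      exact z2.2 h6
  rw [h.s1] at z1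
  -- flowers
  have fe : s (al (n e)) = 5 → s (al (p (p e))) = 5 → s (al (p e)) = 5 →
      ∃ d, Nr al n p 4 e d ∧ Red al n p s d := fun a b c =>
    ⟨e, nr_refl _ _, Or.inr (Or.inr (Or.inr (Or.inr ⟨h5, h0, a, h2, b, c⟩)))⟩
  have fy : s (al (n e)) = 5 → s (al (p (p e))) = 5 → s (al (n (n (al (n (n e)))))) = 5 →
      ∃ d, Nr al n p 4 e d ∧ Red al n p s d := by
    intro a b c
    refine ⟨al (n (n e)), nr_mono (nr_al (nr_n (nr_n (nr_refl 0 e)))) (by norm_num),
      Or.inr (Or.inr (Or.inr (Or.inr ⟨h2, ?_, ?_, c, hO3, ?_⟩)))⟩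
    · rw [h.al_al, h.s_n, h.s_n]; exact h5
    · rw [h.s1, h.p_n]; exact a
    · rw [h.s2, h.five e h5]; exact b
  have fx : s (al (n e)) = 5 → s (al (p e)) = 5 → s (al (p (p (al e)))) = 5 →
      ∃ d, Nr al n p 4 e d ∧ Red al n p s d := by
    intro a b c
    refine ⟨al e, nr_mono (nr_al (nr_refl 0 e)) (by norm_num),
      Or.inr (Or.inr (Or.inr (Or.inr ⟨h0, ?_, ?_, hO0, c, ?_⟩)))⟩
    · rw [h.al_al]; exact h5
    · rw [h.s1]; exact b
    · rw [h.s2]; exact a
  by_cases hF : s (al (n e)) = 5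
  · by_cases hO2 : s (al (p (p e))) = 5
    · by_cases hO1 : s (al (p e)) = 5
      · exact fe hF hO2 hO1
      · by_cases hR : s (al (n (n (al (n (n e)))))) = 5
        · exact fy hF hO2 hR
        · exact absurd ⟨fun _ => hO1, fun _ => hR⟩ z2
    · by_cases hO1 : s (al (p e)) = 5
      · by_cases hL : s (al (p (p (al e)))) = 5
        · exact fx hF hO1 hL
        · exact absurd ⟨fun _ => hO2, fun _ => hL⟩ z1
      · exact absurd ⟨fun _ => hO2, fun hh => absurd hh hO1⟩ z1
  · -- `O1 = L = O2 = R = 5`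
    have hO1 : s (al (p e)) = 5 := by
      by_contra hh
      exact z1 ⟨fun h6 => absurd h6 hF, fun h6 => absurd h6 hh⟩
    have hO2 : s (al (p (p e))) = 5 := by
      by_contra hh
      exact z2 ⟨fun h6 => absurd h6 hF, fun h6 => absurd h6 hh⟩
    have w0 : s (p (p e)) = 5 := by rw [h.s_p, h.s_p]; exact h5
    have w1 : s (al (n (al (p (p e))))) = 5 := by rw [h.s1, h.five' e h5]; exact h2
    have w2 : s (al (n (n (al (p (p e)))))) = 5 := by rw [h.z2 h5]; exact hO3
    have w4 : s (al (p (al (p (p e))))) = 5 := by rw [h.s2, h.n_p]; exact hO1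
    by_cases w3 : s (al (p (p (al (p (p e)))))) = 5
    · exact ⟨al (p (p e)), nr_mono (nr_al (nr_p (nr_p (nr_refl 0 e)))) (by norm_num),
        Or.inr (Or.inr (Or.inr (Or.inr ⟨hO2, by rw [h.al_al]; exact w0, w1, w2, w3, w4⟩)))⟩
    · refine ⟨p (p e), nr_mono (nr_p (nr_p (nr_refl 0 e))) (by norm_num),
        Or.inr (Or.inr (Or.inl ⟨w0, hO2, ?_, w2, ?_, fun _ => w3⟩))⟩
      · rw [h.n_p, h.n_p]; exact h0
      · intro _
        rw [h.five' e h5, h.p_n]
        exact hF

/-- **Three faces of length five in a chain: a reducer with gain applies near by.** -/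
theorem chain_closure (h : Mp al n p s) {e : D} (h5 : s e = 5) (h0 : s (al e) = 5)
    (h2 : s (al (n (n e))) = 5) : ∃ d, Nr al n p 6 e d ∧ Red al n p s d := by
  by_cases hO0 : s (al (n (n (al e)))) = 5
  · by_cases hO3 : s (al (p (p (al (n (n e)))))) = 5
    · obtain ⟨d, h6, h7⟩ := caseB h h5 h0 h2 hO0 hO3
      exact ⟨d, nr_mono h6 (by norm_num), h7⟩
    · obtain ⟨d, h6, h7⟩ := caseA h.swap (e := n (n e)) (by rw [h.s_n, h.s_n]; exact h5) h2
        (by rw [h.p_n, h.p_n]; exact h0) hO3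
      exact ⟨d, nr_mono (nr_trans (nr_n (nr_n (nr_refl 0 e))) (nr_swap h6)) (by norm_num),
        h7.swap⟩
  · obtain ⟨d, h6, h7⟩ := caseA h h5 h0 h2 hO0
    exact ⟨d, nr_mono h6 (by norm_num), h7⟩

end Pool.Agent.U2Chain
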