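import Mathlib
import Pool.Agent.Work.MP_392c8e_co_t1.FaceBase

/-!
# Discharging in plane graphs: local rules, corners and boundaries

Every corner (dart) `d` has the curvature `6 / size - 1`.  Faces of length five send `7/20` across
every edge to faces of length at least seven; then the charge is spread inside every face.  The
charge that results is negative at every good dart which is not in a hexagon.
-/

namespace Pool.Agent.Disch392

open Finset Pool.Agent.Sub392 Pool.Agent.T392

set_option linter.unusedSectionVars false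

variable {V : Type} [Fintype V] [DecidableEq V] {G : SimpleGraph V} [DecidableRel G.Adj]

/-- The preceding dart of the face. -/
def prev (R : Rot G) (d : G.Dart) : G.Dart := R.next.symm d

theorem next_prev (R : Rot G) (d : G.Dart) : R.next (prev R d) = d := R.next.apply_symm_apply d

theorem prev_next (R : Rot G) (d : G.Dart) : prev R (R.next d) = d := R.next.symm_apply_apply d

theorem snd_prev (R : Rot G) (d : G.Dart) : (prev R d).snd = d.fst := by
  rw [← R.fst_next, next_prev]

theorem sz_prev (R : Rot G) (d : G.Dart) : sz R (prev R d) = sz R d := by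
  rw [← sz_next, next_prev]

theorem sz_iter (R : Rot G) (d : G.Dart) (i : ℕ) : sz R (R.next^[i] d) = sz R d := by
  induction i with
  | zero => rfl
  | succ i ih => rw [Function.iterate_succ_apply', sz_next, ih]

theorem iter_prev (R : Rot G) (d : G.Dart) (i : ℕ) :
    R.next^[i + 1] (prev R d) = R.next^[i] d := by
  rw [Function.iterate_succ_apply, next_prev]

/-- The curvature of a corner. -/
noncomputable def kap (R : Rot G) (d : G.Dart) : ℝ := 6 / (sz R d : ℝ) - 1

/-- The good darts: no faces of length at most four; a face of length five has at least three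
neighbours of length at least seven; a face of length seven has at most two neighbours of length
five; a longer face has no three consecutive neighbours of length five. -/
structure Good (R : Rot G) (d : G.Dart) : Prop where
  five_le : 5 ≤ sz R d
  five : sz R d = 5 → 3 ≤ #{i ∈ range 5 | 7 ≤ sz R (R.next^[i] d).symm}
  seven : sz R d = 7 → #{i ∈ range 7 | sz R (R.next^[i] d).symm = 5} ≤ 2
  eight : 8 ≤ sz R d → ¬ (sz R d.symm = 5 ∧ sz R (prev R d).symm = 5 ∧
    sz R (prev R (prev R d)).symm = 5)

/-- The charge sent across an edge. -/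
noncomputable def tr (R : Rot G) (d : G.Dart) : ℝ :=
  if sz R d = 5 ∧ 7 ≤ sz R d.symm then 7 / 20 else 0

theorem tr_nonneg (R : Rot G) (d : G.Dart) : 0 ≤ tr R d := by
  unfold tr; split_ifs <;> norm_num

theorem tr_le (R : Rot G) (d : G.Dart) : tr R d ≤ 7 / 20 := by
  unfold tr; split_ifs <;> norm_num

/-- The charge after the exchange across the edges. -/
noncomputable def xx (R : Rot G) (d : G.Dart) : ℝ := kap R d - tr R d + tr R d.symm

/-- The charge carried to the next dart of the face. -/
noncomputable def aa (R : Rot G) (d : G.Dart) : ℝ :=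
  if sz R d = 5 ∨ sz R d = 7 then
    ∑ j ∈ range (sz R d), (((j : ℝ) + 1) / (sz R d : ℝ)) * xx R (R.next^[j + 1] d)
  else if 8 ≤ sz R d then
    (if sz R d.symm = 5 then (if sz R (prev R d).symm = 5 then 7 / 30 else 7 / 60) else 0)
  else 0

/-- The final charge. -/
noncomputable def mu (R : Rot G) (d : G.Dart) : ℝ := xx R d + aa R (prev R d) - aa R d

theorem kap_five {R : Rot G} {d : G.Dart} (h : sz R d = 5) : kap R d = 1 / 5 := by
  unfold kap; rw [h]; norm_num

theorem kap_six {R : Rot G} {d : G.Dart} (h : sz R d = 6) : kap R d = 0 := by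
  unfold kap; rw [h]; norm_num

theorem kap_seven {R : Rot G} {d : G.Dart} (h : sz R d = 7) : kap R d = - (1 / 7) := by
  unfold kap; rw [h]; norm_num

theorem kap_eight {R : Rot G} {d : G.Dart} (h : 8 ≤ sz R d) : kap R d ≤ - (1 / 4) := by
  unfold kap
  have h1 : (8 : ℝ) ≤ sz R d := by exact_mod_cast h
  have h2 : 6 / (sz R d : ℝ) ≤ 6 / 8 := div_le_div_of_nonneg_left (by norm_num) (by norm_num) h1
  linarith

theorem sz_pos (R : Rot G) (d : G.Dart) : 1 ≤ sz R d := by
  rw [sz_eq]
  apply Nat.one_le_iff_ne_zero.2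
  apply Nat.pos_iff_ne_zero.1
  rw [Function.minimalPeriod_pos_iff_mem_periodicPts]
  refine ⟨orderOf R.next, orderOf_pos R.next, ?_⟩
  show R.next^[orderOf R.next] d = d
  rw [← Equiv.Perm.coe_pow, pow_orderOf_eq_one]
  rfl

theorem kap_le (R : Rot G) (d : G.Dart) : kap R d ≤ 5 := by
  unfold kap
  have h1 : (1 : ℝ) ≤ sz R d := by exact_mod_cast sz_pos R d
  have h2 : 6 / (sz R d : ℝ) ≤ 6 / 1 := div_le_div_of_nonneg_left (by norm_num) (by norm_num) h1
  linarith

theorem kap_ge (R : Rot G) (d : G.Dart) : -1 ≤ kap R d := by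
  unfold kap
  have h1 : 0 ≤ 6 / (sz R d : ℝ) := by positivity
  linarith

theorem xx_five {R : Rot G} {d : G.Dart} (h : sz R d = 5) :
    xx R d = 1 / 5 - (if 7 ≤ sz R d.symm then 7 / 20 else 0) := by
  unfold xx
  rw [kap_five h]
  have h1 : tr R d.symm = 0 := by
    unfold tr
    rw [if_neg]
    rintro ⟨-, h2⟩
    rw [SimpleGraph.Dart.symm_symm, h] at h2
    omega
  rw [h1]
  unfold tr
  simp only [h, true_and]
  ring

theorem xx_big {R : Rot G} {d : G.Dart} (h : 7 ≤ sz R d) :
    xx R d = kap R d + (if sz R d.symm = 5 then 7 / 20 else 0) := by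
  unfold xx
  have h1 : tr R d = 0 := by
    unfold tr
    rw [if_neg]
    rintro ⟨h2, -⟩
    omega
  rw [h1]
  unfold tr
  rw [SimpleGraph.Dart.symm_symm]
  simp only [h, and_true]
  ring

theorem xx_six {R : Rot G} {d : G.Dart} (h : sz R d = 6) : xx R d = 0 := by
  unfold xx tr
  rw [kap_six h, SimpleGraph.Dart.symm_symm]
  simp [h]

/-- Inside faces of length five and seven the charge is averaged. -/
theorem mu_five {R : Rot G} {d : G.Dart} (h : sz R d = 5) :
    mu R d = (∑ i ∈ range 5, xx R (R.next^[i] d)) / 5 := by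
  have h5 : R.next^[5] d = d := by have := next_sz R d; rwa [h] at this
  unfold mu aa
  rw [sz_prev, h]
  simp only [true_or, if_true, iter_prev]
  simp only [sum_range_succ, sum_range_zero, Function.iterate_zero, id_eq, zero_add, h5]
  push_cast
  ring

theorem mu_seven {R : Rot G} {d : G.Dart} (h : sz R d = 7) :
    mu R d = (∑ i ∈ range 7, xx R (R.next^[i] d)) / 7 := by
  have h5 : R.next^[7] d = d := by have := next_sz R d; rwa [h] at this
  unfold mu aa
  rw [sz_prev, h]
  simp only [or_true, if_true, iter_prev]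
  simp only [sum_range_succ, sum_range_zero, Function.iterate_zero, id_eq, zero_add, h5]
  push_cast
  ring

theorem aa_big {R : Rot G} {d : G.Dart} (h : 8 ≤ sz R d) : aa R d =
    if sz R d.symm = 5 then (if sz R (prev R d).symm = 5 then 7 / 30 else 7 / 60) else 0 := by
  unfold aa
  rw [if_neg (by omega), if_pos h]

theorem mu_six {R : Rot G} {d : G.Dart} (h : sz R d = 6) : mu R d = 0 := by
  unfold mu aa
  rw [sz_prev, h, xx_six h]
  norm_num

theorem mu_small {R : Rot G} {d : G.Dart} (h : sz R d ≤ 4) : mu R d = xx R d := by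
  unfold mu aa
  rw [sz_prev]
  rw [if_neg (by omega), if_neg (by omega), if_neg (by omega), if_neg (by omega)]
  ring

theorem sum_ite_card {s : Finset ℕ} (p : ℕ → Prop) [DecidablePred p] (c : ℝ) :
    ∑ i ∈ s, (if p i then c else 0) = #{i ∈ s | p i} * c := by
  rw [← sum_filter, sum_const, nsmul_eq_mul]

theorem sum_five {R : Rot G} {d : G.Dart} (h : sz R d = 5) :
    ∑ i ∈ range 5, xx R (R.next^[i] d) =
      1 - #{i ∈ range 5 | 7 ≤ sz R (R.next^[i] d).symm} * (7 / 20) := by
  rw [sum_congr rfl fun i _ => xx_five (by rw [sz_iter, h]), sum_sub_distrib, sum_ite_card]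
  simp

theorem sum_seven {R : Rot G} {d : G.Dart} (h : sz R d = 7) :
    ∑ i ∈ range 7, xx R (R.next^[i] d) =
      -1 + #{i ∈ range 7 | sz R (R.next^[i] d).symm = 5} * (7 / 20) := by
  have e : ∀ i ∈ range 7, xx R (R.next^[i] d) =
      - (1 / 7) + (if sz R (R.next^[i] d).symm = 5 then 7 / 20 else 0) := by
    intro i _
    have h1 : sz R (R.next^[i] d) = 7 := by rw [sz_iter, h]
    rw [xx_big (by omega), kap_seven h1]
  rw [sum_congr rfl e, sum_add_distrib, sum_ite_card]
  simp

/-- The charge at good darts. -/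
theorem mu_good {R : Rot G} {d : G.Dart} (h : Good R d) (h6 : sz R d ≠ 6) :
    mu R d ≤ - (1 / 100) := by
  have h0 := h.five_le
  rcases (by omega : sz R d = 5 ∨ sz R d = 7 ∨ 8 ≤ sz R d) with h1 | h1 | h1
  · rw [mu_five h1, sum_five h1]
    have h2 : (3 : ℝ) ≤ #{i ∈ range 5 | 7 ≤ sz R (R.next^[i] d).symm} := by
      exact_mod_cast h.five h1
    linarith
  · rw [mu_seven h1, sum_seven h1]
    have h2 : (#{i ∈ range 7 | sz R (R.next^[i] d).symm = 5} : ℝ) ≤ 2 := by
      exact_mod_cast h.seven h1
    linarith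
  · have h2 := h.eight h1
    have h3 := kap_eight h1
    unfold mu
    rw [xx_big (by omega), aa_big h1, aa_big (by rw [sz_prev]; exact h1)]
    by_cases e1 : sz R d.symm = 5
    · by_cases e2 : sz R (prev R d).symm = 5
      · have e3 : sz R (prev R (prev R d)).symm ≠ 5 := fun e3 => h2 ⟨e1, e2, e3⟩
        rw [if_pos e1, if_pos e2, if_neg e3, if_pos e1, if_pos e2]
        linarith
      · rw [if_pos e1, if_neg e2, if_pos e1, if_neg e2]
        linarith
    · rw [if_neg e1, if_neg e1]
      split_ifs <;> linarith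

/-- The charge at all darts. -/
theorem mu_le (R : Rot G) (d : G.Dart) : mu R d ≤ 6 := by
  rcases (by omega : sz R d ≤ 4 ∨ sz R d = 5 ∨ sz R d = 6 ∨ sz R d = 7 ∨ 8 ≤ sz R d) with
    h1 | h1 | h1 | h1 | h1
  · rw [mu_small h1]
    unfold xx
    have h2 := kap_le R d
    have h3 := tr_nonneg R d
    have h4 := tr_le R d.symm
    linarith
  · rw [mu_five h1, sum_five h1]
    have h2 : (0 : ℝ) ≤ #{i ∈ range 5 | 7 ≤ sz R (R.next^[i] d).symm} := by positivity
    linarith
  · rw [mu_six h1]; norm_num
  · rw [mu_seven h1, sum_seven h1]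
    have h2 : (#{i ∈ range 7 | sz R (R.next^[i] d).symm = 5} : ℝ) ≤ 7 := by
      have := card_filter_le (range 7) fun i => sz R (R.next^[i] d).symm = 5
      rw [card_range] at this
      exact_mod_cast this
    linarith
  · have h3 := kap_eight h1
    unfold mu
    rw [xx_big (by omega), aa_big h1, aa_big (by rw [sz_prev]; exact h1)]
    split_ifs <;> linarith

theorem xx_abs {R : Rot G} {d : G.Dart} (h : sz R d = 5 ∨ sz R d = 7) : |xx R d| ≤ 1 := by
  rcases h with h | h
  · rw [xx_five h, abs_le]
    split_ifs <;> constructor <;> norm_num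
  · rw [xx_big (by omega), kap_seven h, abs_le]
    split_ifs <;> constructor <;> norm_num

theorem aa_abs (R : Rot G) (d : G.Dart) : |aa R d| ≤ 7 := by
  unfold aa
  split_ifs with h1 h2 h3 h4
  · have h2 : ∀ j ∈ range (sz R d),
        |(((j : ℝ) + 1) / (sz R d : ℝ)) * xx R (R.next^[j + 1] d)| ≤ 1 := by
      intro j hj
      rw [mem_range] at hj
      have h3 : (0 : ℝ) < sz R d := by
        have := sz_pos R d
        exact_mod_cast this
      have h4 : ((j : ℝ) + 1) / (sz R d : ℝ) ≤ 1 := by
        rw [div_le_one h3]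
        exact_mod_cast hj
      have h5 : 0 ≤ ((j : ℝ) + 1) / (sz R d : ℝ) := by positivity
      have h6 := xx_abs (R := R) (d := R.next^[j + 1] d) (by rw [sz_iter]; exact h1)
      rw [abs_mul, abs_of_nonneg h5]
      calc ((j : ℝ) + 1) / (sz R d : ℝ) * |xx R (R.next^[j + 1] d)| ≤ 1 * 1 :=
            mul_le_mul h4 h6 (abs_nonneg _) (by norm_num)
        _ = 1 := by norm_num
    refine (abs_sum_le_sum_abs _ _).trans ((sum_le_sum h2).trans ?_)
    rw [sum_const, card_range, nsmul_eq_mul, mul_one]
    rcases h1 with h1 | h1 <;> rw [h1] <;> norm_num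
  all_goals norm_num [abs_le]

/-- The darts leaving a set of vertices. -/
def bd (U : Finset V) : Finset G.Dart := {d | d.fst ∈ U ∧ d.snd ∉ U}

theorem card_bd' (U : Finset V) :
    #{d : G.Dart | d.snd ∈ U ∧ d.fst ∉ U} = #(bd (G := G) U) := by
  refine card_bij' (fun d _ => d.symm) (fun d _ => d.symm) ?_ ?_ ?_ ?_
  · intro d hd
    simpa [bd] using hd
  · intro d hd
    simpa [bd] using hd
  · intro d _
    exact SimpleGraph.Dart.symm_symm d
  · intro d _
    exact SimpleGraph.Dart.symm_symm d

/-- The exchange across the boundary of a set of vertices. -/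
theorem sum_fst_snd (U : Finset V) (F : G.Dart → ℝ) (M : ℝ) (hF : ∀ d, |F d| ≤ M) :
    ∑ d ∈ univ.filter (fun d : G.Dart => d.fst ∈ U), F d -
      ∑ d ∈ univ.filter (fun d : G.Dart => d.snd ∈ U), F d ≤ 2 * M * #(bd (G := G) U) := by
  have h1 : ∑ d ∈ univ.filter (fun d : G.Dart => d.fst ∈ U), F d =
      ∑ d ∈ univ.filter (fun d : G.Dart => d.fst ∈ U ∧ d.snd ∈ U), F d +
      ∑ d ∈ bd U, F d := by
    rw [bd, ← sum_filter_add_sum_filter_not (univ.filter fun d : G.Dart => d.fst ∈ U)
      (fun d : G.Dart => d.snd ∈ U), filter_filter, filter_filter]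
  have h2 : ∑ d ∈ univ.filter (fun d : G.Dart => d.snd ∈ U), F d =
      ∑ d ∈ univ.filter (fun d : G.Dart => d.fst ∈ U ∧ d.snd ∈ U), F d +
      ∑ d ∈ univ.filter (fun d : G.Dart => d.snd ∈ U ∧ d.fst ∉ U), F d := by
    rw [← sum_filter_add_sum_filter_not (univ.filter fun d : G.Dart => d.snd ∈ U)
      (fun d : G.Dart => d.fst ∈ U), filter_filter, filter_filter]
    congr 2
    ext d
    simp [and_comm]
  have h3 : ∑ d ∈ bd U, F d ≤ M * #(bd (G := G) U) := by
    have := sum_le_card_nsmul (bd (G := G) U) F M fun d _ => (le_abs_self _).trans (hF d)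
    rw [nsmul_eq_mul] at this
    linarith
  have h4 : - (M * #(bd (G := G) U)) ≤
      ∑ d ∈ univ.filter (fun d : G.Dart => d.snd ∈ U ∧ d.fst ∉ U), F d := by
    have := card_nsmul_le_sum (univ.filter (fun d : G.Dart => d.snd ∈ U ∧ d.fst ∉ U)) F (-M)
      fun d _ => by
        have := (abs_le.1 (hF d)).1
        linarith
    rw [nsmul_eq_mul, card_bd'] at this
    linarith
  rw [h1, h2]
  linarith

theorem sum_symm (U : Finset V) (F : G.Dart → ℝ) :
    ∑ d ∈ univ.filter (fun d : G.Dart => d.fst ∈ U), F d.symm =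
      ∑ d ∈ univ.filter (fun d : G.Dart => d.snd ∈ U), F d := by
  refine sum_bij' (fun d _ => d.symm) (fun d _ => d.symm) ?_ ?_ ?_ ?_ ?_
  · intro d hd; simpa using hd
  · intro d hd; simpa using hd
  · intro d _; exact SimpleGraph.Dart.symm_symm d
  · intro d _; exact SimpleGraph.Dart.symm_symm d
  · intro d _; rfl

theorem sum_prev (R : Rot G) (U : Finset V) (F : G.Dart → ℝ) :
    ∑ d ∈ univ.filter (fun d : G.Dart => d.fst ∈ U), F (prev R d) =
      ∑ d ∈ univ.filter (fun d : G.Dart => d.snd ∈ U), F d := by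
  refine sum_bij' (fun d _ => prev R d) (fun d _ => R.next d) ?_ ?_ ?_ ?_ ?_
  · intro d hd
    simp only [mem_filter, mem_univ, true_and] at hd ⊢
    rw [snd_prev]; exact hd
  · intro d hd
    simp only [mem_filter, mem_univ, true_and] at hd ⊢
    rw [R.fst_next]; exact hd
  · intro d _; exact next_prev R d
  · intro d _; exact prev_next R d
  · intro d _; rfl

open Classical in
/-- **Discharging for a set of vertices.**  The curvature of the corners in `U` is at most
`- 1/100` for every corner which is not in a hexagon, up to a constant for every dart which is not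
good and for every edge that leaves `U`. -/
theorem disch (R : Rot G) (U : Finset V) :
    ∑ d ∈ univ.filter (fun d : G.Dart => d.fst ∈ U), kap R d ≤
      - (1 / 100) * #{d : G.Dart | d.fst ∈ U ∧ sz R d ≠ 6} +
        7 * #{d : G.Dart | d.fst ∈ U ∧ ¬ Good R d} + 15 * #(bd (G := G) U) := by
  have h1 : ∑ d ∈ univ.filter (fun d : G.Dart => d.fst ∈ U), kap R d =
      ∑ d ∈ univ.filter (fun d : G.Dart => d.fst ∈ U), mu R d +
      (∑ d ∈ univ.filter (fun d : G.Dart => d.fst ∈ U), tr R d -
        ∑ d ∈ univ.filter (fun d : G.Dart => d.snd ∈ U), tr R d) +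
      (∑ d ∈ univ.filter (fun d : G.Dart => d.fst ∈ U), aa R d -
        ∑ d ∈ univ.filter (fun d : G.Dart => d.snd ∈ U), aa R d) := by
    rw [← sum_symm U (tr R), ← sum_prev R U (aa R)]
    rw [← sum_sub_distrib, ← sum_sub_distrib, ← sum_add_distrib, ← sum_add_distrib]
    refine sum_congr rfl fun d _ => ?_
    unfold mu xx
    ring
  have h2 := sum_fst_snd U (tr R) (7 / 20) fun d => by
    rw [abs_of_nonneg (tr_nonneg R d)]; exact tr_le R d
  have h3 := sum_fst_snd U (aa R) 7 (aa_abs R)
  have h4 : ∑ d ∈ univ.filter (fun d : G.Dart => d.fst ∈ U), mu R d ≤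
      ∑ d ∈ univ.filter (fun d : G.Dart => d.fst ∈ U),
        ((if sz R d ≠ 6 then (- (1 / 100) : ℝ) else 0) + (if ¬ Good R d then 7 else 0)) := by
    refine sum_le_sum fun d _ => ?_
    by_cases e1 : Good R d
    · by_cases e2 : sz R d = 6
      · rw [mu_six e2]; simp [e1, e2]
      · have := mu_good e1 e2
        rw [if_pos e2, if_neg (by simpa using e1)]
        linarith
    · have := mu_le R d
      rw [if_pos e1]
      split_ifs <;> linarith
  have h5 : ∑ d ∈ univ.filter (fun d : G.Dart => d.fst ∈ U),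
        ((if sz R d ≠ 6 then (- (1 / 100) : ℝ) else 0) + (if ¬ Good R d then 7 else 0)) =
      - (1 / 100) * #{d : G.Dart | d.fst ∈ U ∧ sz R d ≠ 6} +
        7 * #{d : G.Dart | d.fst ∈ U ∧ ¬ Good R d} := by
    rw [sum_add_distrib, ← sum_filter, ← sum_filter, sum_const, sum_const, nsmul_eq_mul,
      nsmul_eq_mul, filter_filter, filter_filter]
    ring
  have h6 : (0 : ℝ) ≤ #(bd (G := G) U) := by positivity
  rw [h1]
  linarith

end Pool.Agent.Disch392
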