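import Mathlib
import Pool.Agent.Work.MP_392c8e_co_uni.Disch

/-!
# Good darts from forbidden configurations
-/

namespace Pool.Agent.Disch392

open Finset Pool.Agent.Sub392 Pool.Agent.T392

set_option linter.unusedSectionVars false

/-- The neighbours of a face of length five. -/
theorem three_big (n : ℕ → ℕ) (h1 : ∀ i < 5, 5 ≤ n i)
    (h2 : ∀ i < 5, n i = 5 → n ((i + 2) % 5) ≠ 5)
    (h3 : ∀ i < 5, ∀ j < 5, n i = 5 → n j ≠ 6)
    (h4 : ∀ i < 5, n i = 6 → n ((i + 1) % 5) ≠ 6) : 3 ≤ #{i ∈ range 5 | 7 ≤ n i} := by
  have key : ∀ p q : Fin 5 → Bool,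
      (∀ i, ¬ (p i = true ∧ q i = true)) →
      (∀ i, p i = true → p (i + 2) = false) →
      (∀ i j, p i = true → q j = false) →
      (∀ i, q i = true → q (i + 1) = false) →
      3 ≤ #{i : Fin 5 | p i = false ∧ q i = false} := by decide
  have := key (fun i => decide (n i = 5)) (fun i => decide (n i = 6)) ?_ ?_ ?_ ?_
  · refine this.trans ?_
    refine card_le_card_of_injOn (fun i : Fin 5 => (i : ℕ)) ?_ ?_
    · intro i hi
      have hi' : i ∈ ({i : Fin 5 | decide (n i = 5) = false ∧ decide (n i = 6) = false} :
        Finset (Fin 5)) := hi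
      simp only [mem_filter, mem_univ, true_and, decide_eq_false_iff_not] at hi'
      have := h1 i i.2
      simp only [coe_filter, mem_range, Set.mem_ofPred_eq]
      exact ⟨i.2, by omega⟩
    · intro i _ j _ hij
      exact Fin.ext hij
  · intro i
    simp only [decide_eq_true_eq]
    omega
  · intro i hi
    rw [decide_eq_true_eq] at hi
    rw [decide_eq_false_iff_not]
    have := h2 i i.2 hi
    rwa [Fin.val_add]
  · intro i j hi
    rw [decide_eq_true_eq] at hi
    rw [decide_eq_false_iff_not]
    exact h3 i i.2 j j.2 hi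
  · intro i hi
    rw [decide_eq_true_eq] at hi
    rw [decide_eq_false_iff_not]
    have := h4 i i.2 hi
    rwa [Fin.val_add]

variable {V : Type} [Fintype V] [DecidableEq V] {G : SimpleGraph V} [DecidableRel G.Adj]

/-- The configurations around a face of length five: all neighbours have length at least five; no
two neighbours at distance two have length five; with a neighbour of length five there is no
neighbour of length six; no two consecutive neighbours have length six. -/
structure Cfg5 (R : Rot G) (d : G.Dart) : Prop where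
  four : ∀ i < 5, 5 ≤ sz R (R.next^[i] d).symm
  two : ∀ i < 5, sz R (R.next^[i] d).symm = 5 → sz R (R.next^[(i + 2) % 5] d).symm ≠ 5
  six : ∀ i < 5, ∀ j < 5, sz R (R.next^[i] d).symm = 5 → sz R (R.next^[j] d).symm ≠ 6
  hex : ∀ i < 5, sz R (R.next^[i] d).symm = 6 → sz R (R.next^[(i + 1) % 5] d).symm ≠ 6

theorem Cfg5.three {R : Rot G} {d : G.Dart} (h : Cfg5 R d) :
    3 ≤ #{i ∈ range 5 | 7 ≤ sz R (R.next^[i] d).symm} :=
  three_big (fun i => sz R (R.next^[i] d).symm) h.four h.two h.six h.hex

/-- The third dart at a vertex of degree three. -/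
theorem rot_rot_symm {R : Rot G} {d : G.Dart} (h : G.degree d.fst = 3) :
    R.rot (R.rot d) = (prev R d).symm := by
  have h1 : R.rot (prev R d).symm = d := by rw [← next_eq, next_prev]
  have h2 : (prev R d).symm.fst = d.fst := snd_prev R d
  have h3 := rot_three R (d := (prev R d).symm) (by rw [h2]; exact h)
  rw [h1] at h3
  exact h3

/-- Across the edge that precedes the reversed edge. -/
theorem sz_prev_symm {R : Rot G} {d : G.Dart} (h : G.degree d.fst = 3) :
    sz R (prev R (prev R d).symm).symm = sz R d.symm := by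
  -- the dart before `(prev d).symm` is the reverse of `rot d`
  have h1 : prev R (prev R d).symm = (R.rot d).symm := by
    rw [← rot_rot_symm h]
    have h2 : R.next (R.rot d).symm = R.rot (R.rot d) := by
      rw [next_eq, SimpleGraph.Dart.symm_symm]
    rw [← h2, prev_next]
  rw [h1, SimpleGraph.Dart.symm_symm, sz_rot]

/-- Across the edge that follows the reversed edge. -/
theorem sz_next_symm {R : Rot G} {d : G.Dart} (h : G.degree d.fst = 3) :
    sz R (R.next d.symm).symm = sz R (prev R d).symm := by
  have h1 : R.next d.symm = R.rot d := by rw [next_eq, SimpleGraph.Dart.symm_symm]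
  rw [h1, ← sz_rot, rot_rot_symm h]

/-- Three consecutive neighbours of length five: the middle one has two neighbours of length five
at distance two. -/
theorem eight_of {R : Rot G} {d : G.Dart} (h1 : G.degree d.fst = 3)
    (h2 : G.degree (prev R d).fst = 3)
    (h : sz R (prev R d).symm = 5 → Cfg5 R (prev R (prev R d).symm)) :
    ¬ (sz R d.symm = 5 ∧ sz R (prev R d).symm = 5 ∧ sz R (prev R (prev R d)).symm = 5) := by
  rintro ⟨e1, e2, e3⟩
  have h3 := (h e2).two 0 (by norm_num)
  simp only [Function.iterate_zero, id_eq] at h3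
  rw [sz_prev_symm h1] at h3
  refine h3 e1 ?_
  show sz R (R.next (R.next (prev R (prev R d).symm))).symm = 5
  rw [next_prev, sz_next_symm h2]
  exact e3

/-- Good darts. -/
theorem good_of {R : Rot G} {d : G.Dart} (h1 : G.degree d.fst = 3)
    (h2 : G.degree (prev R d).fst = 3) (h4 : 5 ≤ sz R d) (h5 : sz R d = 5 → Cfg5 R d)
    (h7 : sz R d = 7 → #{i ∈ range 7 | sz R (R.next^[i] d).symm = 5} ≤ 2)
    (h8 : 8 ≤ sz R d → sz R (prev R d).symm = 5 → Cfg5 R (prev R (prev R d).symm)) :
    Good R d where
  five_le := h4
  five := fun h => (h5 h).three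
  seven := h7
  eight := fun h => eight_of h1 h2 (h8 h)

end Pool.Agent.Disch392
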