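import Mathlib
import Pool.Agent.Work.MP_392c8e_co_uni.Disch

/-!
# Discharging in plane graphs with a general rule

Faces of length five send the amount `t d` across the edge `d` to a face of length at least seven;
then the charge is spread inside every face.
-/

namespace Pool.Agent.Disch392

open Finset Pool.Agent.Sub392 Pool.Agent.T392

set_option linter.unusedSectionVars false

variable {V : Type} [Fintype V] [DecidableEq V] {G : SimpleGraph V} [DecidableRel G.Adj]

/-- A rule: what is sent across an edge. -/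
structure Rule (R : Rot G) (t : G.Dart → ℝ) : Prop where
  nonneg : ∀ d, 0 ≤ t d
  le : ∀ d, t d ≤ 73 / 200
  zero : ∀ d, ¬ (sz R d = 5 ∧ 7 ≤ sz R d.symm) → t d = 0

/-- The good darts for a rule. -/
structure GoodT (R : Rot G) (t : G.Dart → ℝ) (d : G.Dart) : Prop where
  five_le : 5 ≤ sz R d
  five : sz R d = 5 → 201 / 200 ≤ ∑ i ∈ range 5, t (R.next^[i] d)
  seven : sz R d = 7 → ∑ i ∈ range 7, t (R.next^[i] d).symm ≤ 24 / 25
  eight : 8 ≤ sz R d → ¬ (sz R d.symm = 5 ∧ sz R (prev R d).symm = 5 ∧
    sz R (prev R (prev R d)).symm = 5)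

/-- The charge after the exchange across the edges. -/
noncomputable def xt (R : Rot G) (t : G.Dart → ℝ) (d : G.Dart) : ℝ := kap R d - t d + t d.symm

/-- The charge carried to the next dart of the face. -/
noncomputable def at' (R : Rot G) (t : G.Dart → ℝ) (d : G.Dart) : ℝ :=
  if sz R d = 5 ∨ sz R d = 7 then
    ∑ j ∈ range (sz R d), (((j : ℝ) + 1) / (sz R d : ℝ)) * xt R t (R.next^[j + 1] d)
  else if 8 ≤ sz R d then
    (if sz R d.symm = 5 then (if sz R (prev R d).symm = 5 then 73 / 300 else 73 / 600) else 0)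
  else 0

/-- The final charge. -/
noncomputable def mt (R : Rot G) (t : G.Dart → ℝ) (d : G.Dart) : ℝ :=
  xt R t d + at' R t (prev R d) - at' R t d

section

variable {R : Rot G} {t : G.Dart → ℝ} (ht : Rule R t)

include ht

theorem xt_five {d : G.Dart} (h : sz R d = 5) : xt R t d = 1 / 5 - t d := by
  unfold xt
  rw [kap_five h, ht.zero d.symm (by rw [SimpleGraph.Dart.symm_symm, h]; omega)]
  ring

theorem xt_big {d : G.Dart} (h : 7 ≤ sz R d) : xt R t d = kap R d + t d.symm := by
  unfold xt
  rw [ht.zero d (by omega)]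
  ring

theorem xt_six {d : G.Dart} (h : sz R d = 6) : xt R t d = 0 := by
  unfold xt
  rw [kap_six h, ht.zero d (by omega), ht.zero d.symm (by rw [SimpleGraph.Dart.symm_symm, h]; omega)]
  ring

omit ht in
theorem mt_five {d : G.Dart} (h : sz R d = 5) :
    mt R t d = (∑ i ∈ range 5, xt R t (R.next^[i] d)) / 5 := by
  have h5 : R.next^[5] d = d := by have := next_sz R d; rwa [h] at this
  unfold mt at'
  rw [sz_prev, h]
  simp only [true_or, if_true, iter_prev]
  simp only [sum_range_succ, sum_range_zero, Function.iterate_zero, id_eq, zero_add, h5]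
  push_cast
  ring

omit ht in
theorem mt_seven {d : G.Dart} (h : sz R d = 7) :
    mt R t d = (∑ i ∈ range 7, xt R t (R.next^[i] d)) / 7 := by
  have h5 : R.next^[7] d = d := by have := next_sz R d; rwa [h] at this
  unfold mt at'
  rw [sz_prev, h]
  simp only [or_true, if_true, iter_prev]
  simp only [sum_range_succ, sum_range_zero, Function.iterate_zero, id_eq, zero_add, h5]
  push_cast
  ring

theorem mt_six {d : G.Dart} (h : sz R d = 6) : mt R t d = 0 := by
  unfold mt at'
  rw [sz_prev, h, xt_six ht h]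
  norm_num

omit ht in
theorem mt_small {d : G.Dart} (h : sz R d ≤ 4) : mt R t d = xt R t d := by
  unfold mt at'
  rw [sz_prev]
  rw [if_neg (by omega), if_neg (by omega), if_neg (by omega), if_neg (by omega)]
  ring

theorem sumt_five {d : G.Dart} (h : sz R d = 5) :
    ∑ i ∈ range 5, xt R t (R.next^[i] d) = 1 - ∑ i ∈ range 5, t (R.next^[i] d) := by
  rw [sum_congr rfl fun i _ => xt_five ht (by rw [sz_iter, h]), sum_sub_distrib]
  simp

theorem sumt_seven {d : G.Dart} (h : sz R d = 7) :
    ∑ i ∈ range 7, xt R t (R.next^[i] d) = -1 + ∑ i ∈ range 7, t (R.next^[i] d).symm := by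
  have e : ∀ i ∈ range 7, xt R t (R.next^[i] d) = - (1 / 7) + t (R.next^[i] d).symm := by
    intro i _
    have h1 : sz R (R.next^[i] d) = 7 := by rw [sz_iter, h]
    rw [xt_big ht (by omega), kap_seven h1]
  rw [sum_congr rfl e, sum_add_distrib]
  simp

omit ht in
theorem at_big {d : G.Dart} (h : 8 ≤ sz R d) : at' R t d =
    if sz R d.symm = 5 then (if sz R (prev R d).symm = 5 then 73 / 300 else 73 / 600) else 0 := by
  unfold at'
  rw [if_neg (by omega), if_pos h]

/-- The charge at good darts. -/
theorem mt_good {d : G.Dart} (h : GoodT R t d) (h6 : sz R d ≠ 6) :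
    mt R t d ≤ - (1 / 1000) := by
  have h0 := h.five_le
  rcases (by omega : sz R d = 5 ∨ sz R d = 7 ∨ 8 ≤ sz R d) with h1 | h1 | h1
  · rw [mt_five h1, sumt_five ht h1]
    have h2 := h.five h1
    linarith
  · rw [mt_seven h1, sumt_seven ht h1]
    have h2 := h.seven h1
    linarith
  · have h2 := h.eight h1
    have h3 := kap_eight h1
    have h4 := ht.le d.symm
    have h5 : sz R d.symm ≠ 5 → t d.symm = 0 := fun h5 => ht.zero _ fun h6 => h5 h6.1
    unfold mt
    rw [xt_big ht (by omega), at_big h1, at_big (by rw [sz_prev]; exact h1)]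
    by_cases e1 : sz R d.symm = 5
    · by_cases e2 : sz R (prev R d).symm = 5
      · have e3 : sz R (prev R (prev R d)).symm ≠ 5 := fun e3 => h2 ⟨e1, e2, e3⟩
        rw [if_pos e2, if_neg e3, if_pos e1, if_pos e2]
        linarith
      · rw [if_neg e2, if_pos e1, if_neg e2]
        linarith
    · rw [if_neg e1, h5 e1]
      split_ifs <;> linarith

/-- The charge at all darts. -/
theorem mt_le (d : G.Dart) : mt R t d ≤ 6 := by
  have h0 := ht.nonneg d
  have h4 := ht.le d.symm
  rcases (by omega : sz R d ≤ 4 ∨ sz R d = 5 ∨ sz R d = 6 ∨ sz R d = 7 ∨ 8 ≤ sz R d) with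
    h1 | h1 | h1 | h1 | h1
  · rw [mt_small h1]
    unfold xt
    have h2 := kap_le R d
    linarith
  · rw [mt_five h1, sumt_five ht h1]
    have h2 : 0 ≤ ∑ i ∈ range 5, t (R.next^[i] d) := sum_nonneg fun i _ => ht.nonneg _
    linarith
  · rw [mt_six ht h1]; norm_num
  · rw [mt_seven h1, sumt_seven ht h1]
    have h2 : ∑ i ∈ range 7, t (R.next^[i] d).symm ≤ ∑ i ∈ range 7, (73 / 200 : ℝ) :=
      sum_le_sum fun i _ => ht.le _
    simp only [sum_const, card_range, nsmul_eq_mul] at h2
    push_cast at h2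
    linarith
  · have h3 := kap_eight h1
    unfold mt
    rw [xt_big ht (by omega), at_big h1, at_big (by rw [sz_prev]; exact h1)]
    split_ifs <;> linarith

theorem xt_abs {d : G.Dart} (h : sz R d = 5 ∨ sz R d = 7) : |xt R t d| ≤ 1 := by
  have h1 := ht.nonneg d
  have h2 := ht.le d
  have h3 := ht.nonneg d.symm
  have h4 := ht.le d.symm
  rcases h with h | h
  · rw [xt_five ht h, abs_le]
    constructor <;> linarith
  · rw [xt_big ht (by omega), kap_seven h, abs_le]
    constructor <;> linarith

theorem at_abs (d : G.Dart) : |at' R t d| ≤ 7 := by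
  unfold at'
  split_ifs with h1 h2 h3 h4
  · have h2 : ∀ j ∈ range (sz R d),
        |(((j : ℝ) + 1) / (sz R d : ℝ)) * xt R t (R.next^[j + 1] d)| ≤ 1 := by
      intro j hj
      rw [mem_range] at hj
      have h3 : (0 : ℝ) < sz R d := by
        have := sz_pos R d
        exact_mod_cast this
      have h4 : ((j : ℝ) + 1) / (sz R d : ℝ) ≤ 1 := by
        rw [div_le_one h3]
        exact_mod_cast hj
      have h5 : 0 ≤ ((j : ℝ) + 1) / (sz R d : ℝ) := by positivity
      have h6 := xt_abs ht (d := R.next^[j + 1] d) (by rw [sz_iter]; exact h1)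
      rw [abs_mul, abs_of_nonneg h5]
      calc ((j : ℝ) + 1) / (sz R d : ℝ) * |xt R t (R.next^[j + 1] d)| ≤ 1 * 1 :=
            mul_le_mul h4 h6 (abs_nonneg _) (by norm_num)
        _ = 1 := by norm_num
    refine (abs_sum_le_sum_abs _ _).trans ((sum_le_sum h2).trans ?_)
    rw [sum_const, card_range, nsmul_eq_mul, mul_one]
    rcases h1 with h1 | h1 <;> rw [h1] <;> norm_num
  all_goals norm_num [abs_le]

open Classical in
/-- **Discharging for a set of vertices and a rule.**  The curvature of the corners in `U` is at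
most `- 1/1000` for every corner which is not in a hexagon, up to a constant for every dart which is
not good and for every edge that leaves `U`. -/
theorem disch_rule (U : Finset V) :
    ∑ d ∈ univ.filter (fun d : G.Dart => d.fst ∈ U), kap R d ≤
      - (1 / 1000) * #{d : G.Dart | d.fst ∈ U ∧ sz R d ≠ 6} +
        7 * #{d : G.Dart | d.fst ∈ U ∧ ¬ GoodT R t d} + 15 * #(bd (G := G) U) := by
  have h1 : ∑ d ∈ univ.filter (fun d : G.Dart => d.fst ∈ U), kap R d =
      ∑ d ∈ univ.filter (fun d : G.Dart => d.fst ∈ U), mt R t d +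
      (∑ d ∈ univ.filter (fun d : G.Dart => d.fst ∈ U), t d -
        ∑ d ∈ univ.filter (fun d : G.Dart => d.snd ∈ U), t d) +
      (∑ d ∈ univ.filter (fun d : G.Dart => d.fst ∈ U), at' R t d -
        ∑ d ∈ univ.filter (fun d : G.Dart => d.snd ∈ U), at' R t d) := by
    rw [← sum_symm U t, ← sum_prev R U (at' R t)]
    rw [← sum_sub_distrib, ← sum_sub_distrib, ← sum_add_distrib, ← sum_add_distrib]
    refine sum_congr rfl fun d _ => ?_
    unfold mt xt
    ring
  have h2 := sum_fst_snd U t (73 / 200) fun d => by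
    rw [abs_of_nonneg (ht.nonneg d)]; exact ht.le d
  have h3 := sum_fst_snd U (at' R t) 7 (at_abs ht)
  have h4 : ∑ d ∈ univ.filter (fun d : G.Dart => d.fst ∈ U), mt R t d ≤
      ∑ d ∈ univ.filter (fun d : G.Dart => d.fst ∈ U),
        ((if sz R d ≠ 6 then (- (1 / 1000) : ℝ) else 0) + (if ¬ GoodT R t d then 7 else 0)) := by
    refine sum_le_sum fun d _ => ?_
    by_cases e1 : GoodT R t d
    · by_cases e2 : sz R d = 6
      · rw [mt_six ht e2]; simp [e1, e2]
      · have := mt_good ht e1 e2
        rw [if_pos e2, if_neg (by simpa using e1)]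
        linarith
    · have := mt_le ht d
      rw [if_pos e1]
      split_ifs <;> linarith
  have h5 : ∑ d ∈ univ.filter (fun d : G.Dart => d.fst ∈ U),
        ((if sz R d ≠ 6 then (- (1 / 1000) : ℝ) else 0) + (if ¬ GoodT R t d then 7 else 0)) =
      - (1 / 1000) * #{d : G.Dart | d.fst ∈ U ∧ sz R d ≠ 6} +
        7 * #{d : G.Dart | d.fst ∈ U ∧ ¬ GoodT R t d} := by
    rw [sum_add_distrib, ← sum_filter, ← sum_filter, sum_const, sum_const, nsmul_eq_mul,
      nsmul_eq_mul, filter_filter, filter_filter]
    ring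
  have h6 : (0 : ℝ) ≤ #(bd (G := G) U) := by positivity
  rw [h1]
  linarith

end

end Pool.Agent.Disch392
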