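import Mathlib
import Pool.Agent.Work.MP_392c8e_co_uni.Disch2
import Pool.Agent.Work.MP_392c8e_co_uni.Cfg

/-!
# The rule, the local configurations and the good darts
-/

namespace Pool.Agent.Disch392

open Finset Pool.Agent.Sub392 Pool.Agent.T392

set_option linter.unusedSectionVars false

/-! ### Finite checks -/

/-- What is sent by a face of length five: `0` a neighbour of length five, `1` of length six, `2` a
longer one; `c` is the number of neighbours of length five. -/
def w5 (c : ℕ) (x y z : Fin 3) : ℕ :=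
  if y = 2 then (if c = 0 then 67 else if c = 1 then 52 else if x = 0 ∨ z = 0 then 73 else 56)
  else 0

/-- The number of neighbours of length five. -/
def n5 (a b c d e : Fin 3) : ℕ :=
  (if a = 0 then 1 else 0) + (if b = 0 then 1 else 0) + (if c = 0 then 1 else 0) +
    (if d = 0 then 1 else 0) + (if e = 0 then 1 else 0)

/-- The configuration test at a face of length five. -/
def cond5 (a b c d e : Fin 3) : Bool :=
  !(decide (a = 0) && decide (c = 0)) && !(decide (a = 1) && decide (b = 1)) &&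
  !(decide (a = 0) && (decide (b = 1) || decide (c = 1) || decide (d = 1) || decide (e = 1)))

theorem five_check : ∀ a b c d e : Fin 3,
    (cond5 a b c d e && cond5 b c d e a && cond5 c d e a b && cond5 d e a b c &&
      cond5 e a b c d) = true →
    201 ≤ w5 (n5 a b c d e) e a b + w5 (n5 a b c d e) a b c + w5 (n5 a b c d e) b c d +
      w5 (n5 a b c d e) c d e + w5 (n5 a b c d e) d e a := by
  decide +kernel

/-- The configuration test at a face of length seven: `0` a neighbour of length not five, `1` an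
isolated one, `2` one in a pair, `3` one with at least two neighbours of length five. -/
def cond7 (a b c d e f : Fin 4) : Bool :=
  !(decide (a ≠ 0) && decide (b ≠ 0) && decide (c ≠ 0)) &&
  !(decide (a ≠ 0) && decide (b ≠ 0) && (decide (a = 1) || decide (b = 1))) &&
  !(decide (a = 3) && decide (b = 3) && (decide (d ≠ 0) || decide (e ≠ 0) || decide (f ≠ 0))) &&
  !(decide (a ≠ 0) && decide (b ≠ 0) && decide (d ≠ 0) && decide (e ≠ 0)) &&
  !(decide (a ≠ 0) && decide (b ≠ 0) && decide (d ≠ 0) && decide (f ≠ 0)) &&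
  !(decide (a = 1) && decide (c = 1) && decide (e = 1))

/-- What is received. -/
def w7 (x y z : Fin 4) : ℕ :=
  if y = 0 then 0 else if y = 1 then 67 else if y = 2 then 52 else
    if x ≠ 0 ∨ z ≠ 0 then 73 else 56

theorem seven_check : ∀ a b c d e f g : Fin 4,
    (cond7 a b c d e f && cond7 b c d e f g && cond7 c d e f g a && cond7 d e f g a b &&
      cond7 e f g a b c && cond7 f g a b c d && cond7 g a b c d e) = true →
    w7 g a b + w7 a b c + w7 b c d + w7 c d e + w7 d e f + w7 e f g + w7 f g a ≤ 192 := by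
  decide +kernel

variable {V : Type} [Fintype V] [DecidableEq V] {G : SimpleGraph V} [DecidableRel G.Adj]

/-! ### The rule -/

/-- The number of neighbours of length five of a face of length five. -/
noncomputable def c5 (R : Rot G) (d : G.Dart) : ℕ := #{i ∈ range 5 | sz R (R.next^[i] d).symm = 5}

/-- The rule. -/
noncomputable def rule (R : Rot G) (d : G.Dart) : ℝ :=
  if sz R d = 5 ∧ 7 ≤ sz R d.symm then
    (if c5 R d = 0 then 67 / 200 else if c5 R d = 1 then 52 / 200 else
      if sz R (prev R d).symm = 5 ∨ sz R (R.next d).symm = 5 then 73 / 200 else 56 / 200)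
  else 0

theorem rule_rule (R : Rot G) : Rule R (rule R) where
  nonneg := fun d => by unfold rule; split_ifs <;> norm_num
  le := fun d => by unfold rule; split_ifs <;> norm_num
  zero := fun d h => by unfold rule; rw [if_neg h]

/-- The local configurations at a dart of a face of length five. -/
structure Loc5 (R : Rot G) (e : G.Dart) : Prop where
  four : 5 ≤ sz R e.symm
  two : sz R e.symm = 5 → sz R (R.next^[2] e).symm ≠ 5
  six : sz R e.symm = 5 → ∀ j < 5, sz R (R.next^[j] e).symm ≠ 6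
  hex : sz R e.symm = 6 → sz R (R.next e).symm ≠ 6

/-- The local configurations at a dart `e` of a face of length seven. -/
structure Loc7 (R : Rot G) (e : G.Dart) : Prop where
  t3 : sz R e.symm = 5 → sz R (R.next e).symm = 5 → 2 ≤ c5 R e.symm → 2 ≤ c5 R (R.next e).symm →
    sz R (R.next^[3] e).symm ≠ 5
  t4 : sz R e.symm = 5 → sz R (R.next e).symm = 5 → 2 ≤ c5 R e.symm → 2 ≤ c5 R (R.next e).symm →
    sz R (R.next^[4] e).symm ≠ 5
  t5 : sz R e.symm = 5 → sz R (R.next e).symm = 5 → 2 ≤ c5 R e.symm → 2 ≤ c5 R (R.next e).symm →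
    sz R (R.next^[5] e).symm ≠ 5
  p1 : ¬ (sz R e.symm = 5 ∧ sz R (R.next e).symm = 5 ∧ sz R (R.next^[3] e).symm = 5 ∧
    sz R (R.next^[4] e).symm = 5)
  p2 : ¬ (sz R e.symm = 5 ∧ sz R (R.next e).symm = 5 ∧ sz R (R.next^[3] e).symm = 5 ∧
    sz R (R.next^[5] e).symm = 5)
  g3 : ¬ (sz R e.symm = 5 ∧ sz R (R.next^[2] e).symm = 5 ∧ sz R (R.next^[4] e).symm = 5 ∧
    c5 R e.symm = 0 ∧ c5 R (R.next^[2] e).symm = 0 ∧ c5 R (R.next^[4] e).symm = 0)

/-- The class of the neighbour across a dart of a face of length five. -/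
noncomputable def cl5 (R : Rot G) (e : G.Dart) : Fin 3 :=
  if sz R e.symm = 5 then 0 else if sz R e.symm = 6 then 1 else 2

theorem cl5_zero {R : Rot G} {e : G.Dart} : cl5 R e = 0 ↔ sz R e.symm = 5 := by
  unfold cl5; split_ifs with h1 h2 <;> simp [h1]

theorem cl5_one {R : Rot G} {e : G.Dart} : cl5 R e = 1 ↔ sz R e.symm = 6 := by
  unfold cl5; split_ifs with h1 h2
  · simp; omega
  · simp [h2]
  · simp [h2]

theorem cl5_two {R : Rot G} {e : G.Dart} (h : 5 ≤ sz R e.symm) :
    cl5 R e = 2 ↔ 7 ≤ sz R e.symm := by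
  unfold cl5; split_ifs with h1 h2
  · simp; omega
  · simp; omega
  · simp; omega

theorem c5_eq {R : Rot G} {d : G.Dart} : c5 R d = n5 (cl5 R d) (cl5 R (R.next d))
    (cl5 R (R.next^[2] d)) (cl5 R (R.next^[3] d)) (cl5 R (R.next^[4] d)) := by
  unfold c5 n5
  rw [card_filter]
  simp only [sum_range_succ, sum_range_zero, cl5_zero, zero_add, Function.iterate_zero, id_eq,
    Function.iterate_one]
  congr

theorem c5_next {R : Rot G} {d : G.Dart} (h : sz R d = 5) : c5 R (R.next d) = c5 R d := by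
  have h5 : R.next^[5] d = d := by have := next_sz R d; rwa [h] at this
  unfold c5
  rw [card_filter, card_filter]
  simp only [← Function.iterate_succ_apply]
  simp only [sum_range_succ, sum_range_zero, zero_add, h5, Function.iterate_zero, id_eq]
  ring_nf

theorem c5_iter {R : Rot G} {d : G.Dart} (h : sz R d = 5) (i : ℕ) :
    c5 R (R.next^[i] d) = c5 R d := by
  induction i with
  | zero => rfl
  | succ i ih => rw [Function.iterate_succ_apply', c5_next (by rw [sz_iter, h]), ih]

theorem rule_five {R : Rot G} {d : G.Dart} (h : sz R d = 5) (h1 : 5 ≤ sz R d.symm) :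
    rule R d = (w5 (c5 R d) (cl5 R (prev R d)) (cl5 R d) (cl5 R (R.next d)) : ℝ) / 200 := by
  unfold rule w5
  simp only [h, true_and, cl5_two h1, cl5_zero]
  split_ifs <;> norm_num

/-- Faces of length five send enough. -/
theorem five_of {R : Rot G} {d : G.Dart} (h : sz R d = 5) (hL : ∀ i < 5, Loc5 R (R.next^[i] d)) :
    201 / 200 ≤ ∑ i ∈ range 5, rule R (R.next^[i] d) := by
  have h5 : R.next^[5] d = d := by have := next_sz R d; rwa [h] at this
  have hp : prev R d = R.next^[4] d := by
    have e1 : R.next (R.next^[4] d) = d := by rw [← Function.iterate_succ_apply' R.next, h5]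
    rw [← prev_next R (R.next^[4] d), e1]
  have hs : ∀ i, sz R (R.next^[i] d) = 5 := fun i => by rw [sz_iter, h]
  -- the sum in terms of the classes
  have e : ∀ i < 5, rule R (R.next^[i] d) = (w5 (c5 R d) (cl5 R (prev R (R.next^[i] d)))
      (cl5 R (R.next^[i] d)) (cl5 R (R.next^[i + 1] d)) : ℝ) / 200 := by
    intro i hi
    rw [rule_five (hs i) (hL i hi).four, c5_iter h, Function.iterate_succ_apply']
  have hpi : ∀ i, prev R (R.next^[i + 1] d) = R.next^[i] d := fun i => by
    rw [Function.iterate_succ_apply', prev_next]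
  have hsum : ∑ i ∈ range 5, rule R (R.next^[i] d) =
      ((w5 (c5 R d) (cl5 R (R.next^[4] d)) (cl5 R d) (cl5 R (R.next d)) +
        w5 (c5 R d) (cl5 R d) (cl5 R (R.next d)) (cl5 R (R.next^[2] d)) +
        w5 (c5 R d) (cl5 R (R.next d)) (cl5 R (R.next^[2] d)) (cl5 R (R.next^[3] d)) +
        w5 (c5 R d) (cl5 R (R.next^[2] d)) (cl5 R (R.next^[3] d)) (cl5 R (R.next^[4] d)) +
        w5 (c5 R d) (cl5 R (R.next^[3] d)) (cl5 R (R.next^[4] d)) (cl5 R d) : ℕ) : ℝ) / 200 := by
    simp only [sum_range_succ, sum_range_zero]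
    rw [e 0 (by norm_num), e 1 (by norm_num), e 2 (by norm_num), e 3 (by norm_num),
      e 4 (by norm_num), hpi 0, hpi 1, hpi 2, hpi 3]
    simp only [Function.iterate_zero, id_eq, hp, Nat.reduceAdd, h5, Function.iterate_one]
    push_cast
    ring
  rw [hsum]
  have hcond : ∀ i < 5, cond5 (cl5 R (R.next^[i] d)) (cl5 R (R.next^[i + 1] d))
      (cl5 R (R.next^[i + 2] d)) (cl5 R (R.next^[i + 3] d)) (cl5 R (R.next^[i + 4] d)) = true := by
    intro i hi
    have hl := hL i hi
    have k : ∀ j, R.next^[j] (R.next^[i] d) = R.next^[i + j] d := fun j => by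
      rw [← Function.iterate_add_apply, Nat.add_comm]
    unfold cond5
    simp only [Bool.and_eq_true, Bool.not_eq_true', Bool.and_eq_false_iff, Bool.or_eq_false_iff,
      decide_eq_false_iff_not, cl5_zero, cl5_one]
    refine ⟨⟨?_, ?_⟩, ?_⟩
    · by_cases h1 : sz R (R.next^[i] d).symm = 5
      · right
        have := hl.two h1
        rwa [k] at this
      · left; exact h1
    · by_cases h1 : sz R (R.next^[i] d).symm = 6
      · right
        have := hl.hex h1
        rwa [← Function.iterate_succ_apply' R.next] at this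
      · left; exact h1
    · by_cases h1 : sz R (R.next^[i] d).symm = 5
      · right
        have := hl.six h1
        simp only [k] at this
        exact ⟨⟨⟨this 1 (by norm_num), this 2 (by norm_num)⟩, this 3 (by norm_num)⟩,
          this 4 (by norm_num)⟩
      · left; exact h1
  have h6 : ∀ j, R.next^[j + 5] d = R.next^[j] d := fun j => by
    rw [Function.iterate_add_apply, h5]
  have c0 := hcond 0 (by norm_num)
  have c1 := hcond 1 (by norm_num)
  have c2 := hcond 2 (by norm_num)
  have c3 := hcond 3 (by norm_num)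
  have c4 := hcond 4 (by norm_num)
  simp only [Nat.reduceAdd, h5, h6 1, h6 2, h6 3, Function.iterate_zero, id_eq,
    Function.iterate_one] at c0 c1 c2 c3 c4
  have key := five_check (cl5 R d) (cl5 R (R.next d)) (cl5 R (R.next^[2] d))
    (cl5 R (R.next^[3] d)) (cl5 R (R.next^[4] d)) (by
      simp only [Bool.and_eq_true]
      exact ⟨⟨⟨⟨c0, c1⟩, c2⟩, c3⟩, c4⟩)
  rw [← c5_eq] at key
  have key' : (201 : ℝ) ≤ ((w5 (c5 R d) (cl5 R (R.next^[4] d)) (cl5 R d) (cl5 R (R.next d)) +
        w5 (c5 R d) (cl5 R d) (cl5 R (R.next d)) (cl5 R (R.next^[2] d)) +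
        w5 (c5 R d) (cl5 R (R.next d)) (cl5 R (R.next^[2] d)) (cl5 R (R.next^[3] d)) +
        w5 (c5 R d) (cl5 R (R.next^[2] d)) (cl5 R (R.next^[3] d)) (cl5 R (R.next^[4] d)) +
        w5 (c5 R d) (cl5 R (R.next^[3] d)) (cl5 R (R.next^[4] d)) (cl5 R d) : ℕ) : ℝ) := by
    exact_mod_cast key
  linarith

/-! ### Faces of length seven -/

/-- The class of the neighbour across a dart of a face of length seven. -/
noncomputable def cl7 (R : Rot G) (e : G.Dart) : Fin 4 :=
  if sz R e.symm = 5 then (if c5 R e.symm = 0 then 1 else if c5 R e.symm = 1 then 2 else 3) else 0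

theorem cl7_ne {R : Rot G} {e : G.Dart} : cl7 R e ≠ 0 ↔ sz R e.symm = 5 := by
  unfold cl7; split_ifs with h1 h2 h3 <;> simp [h1]

theorem cl7_one {R : Rot G} {e : G.Dart} : cl7 R e = 1 ↔ sz R e.symm = 5 ∧ c5 R e.symm = 0 := by
  unfold cl7; split_ifs with h1 h2 h3 <;> simp [*]

theorem cl7_three {R : Rot G} {e : G.Dart} :
    cl7 R e = 3 ↔ sz R e.symm = 5 ∧ 2 ≤ c5 R e.symm := by
  unfold cl7
  split_ifs with h1 h2 h3
  · simp; omega
  · simp; omega
  · simp; omega
  · simp [h1]

/-- What a face receives across a dart. -/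
theorem rule_symm {R : Rot G} {d : G.Dart} (h : 7 ≤ sz R d) (h1 : G.degree d.fst = 3)
    (h2 : G.degree d.snd = 3) :
    rule R d.symm = (w7 (cl7 R (prev R d)) (cl7 R d) (cl7 R (R.next d)) : ℝ) / 200 := by
  have e1 : sz R (R.next d.symm).symm = sz R (prev R d).symm := sz_next_symm h1
  have e2 : sz R (prev R d.symm).symm = sz R (R.next d).symm := by
    have := sz_prev_symm (R := R) (d := R.next d) (by rw [R.fst_next]; exact h2)
    rwa [prev_next] at this
  unfold rule w7
  rw [SimpleGraph.Dart.symm_symm, e1, e2]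
  simp only [h, and_true, cl7_ne]
  by_cases h3 : sz R d.symm = 5
  · have h4 : cl7 R d ≠ 0 := cl7_ne.2 h3
    rw [if_pos h3, if_neg h4]
    by_cases h5 : c5 R d.symm = 0
    · rw [if_pos h5, if_pos (cl7_one.2 ⟨h3, h5⟩)]
      norm_num
    · have h6 : cl7 R d ≠ 1 := fun h6 => h5 (cl7_one.1 h6).2
      rw [if_neg h5, if_neg h6]
      by_cases h7 : c5 R d.symm = 1
      · have h8 : cl7 R d = 2 := by unfold cl7; rw [if_pos h3, if_neg h5, if_pos h7]
        rw [if_pos h7, if_pos h8]
        norm_num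
      · have h8 : cl7 R d ≠ 2 := by unfold cl7; rw [if_pos h3, if_neg h5, if_neg h7]; decide
        rw [if_neg h7, if_neg h8]
        by_cases h9 : sz R (R.next d).symm = 5 ∨ sz R (prev R d).symm = 5
        · rw [if_pos h9, if_pos h9.symm]
          norm_num
        · rw [if_neg h9, if_neg fun h => h9 h.symm]
          norm_num
  · have h4 : cl7 R d = 0 := by
      by_contra h4
      exact h3 (cl7_ne.1 h4)
    rw [if_neg h3, if_pos h4]
    norm_num

/-- A neighbour of length five next to another one is not isolated. -/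
theorem c5_pos_next {R : Rot G} {d : G.Dart} (h1 : G.degree d.fst = 3)
    (h3 : sz R (prev R d).symm = 5) : c5 R d.symm ≠ 0 := by
  unfold c5
  intro h
  rw [card_eq_zero, filter_eq_empty_iff] at h
  have := h (x := 1) (by simp)
  rw [Function.iterate_one, sz_next_symm h1] at this
  exact this h3

theorem c5_pos_prev {R : Rot G} {d : G.Dart} (h1 : G.degree d.snd = 3)
    (h2 : sz R d.symm = 5) (h3 : sz R (R.next d).symm = 5) : c5 R d.symm ≠ 0 := by
  unfold c5
  intro h
  rw [card_eq_zero, filter_eq_empty_iff] at h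
  have := h (x := 4) (by simp)
  have h5 : R.next^[5] d.symm = d.symm := by have := next_sz R d.symm; rwa [h2] at this
  have h4 : R.next^[4] d.symm = prev R d.symm := by
    have e1 : R.next (R.next^[4] d.symm) = d.symm := by
      rw [← Function.iterate_succ_apply' R.next, h5]
    rw [← prev_next R (R.next^[4] d.symm), e1]
  rw [h4] at this
  have e2 : sz R (prev R d.symm).symm = sz R (R.next d).symm := by
    have := sz_prev_symm (R := R) (d := R.next d) (by rw [R.fst_next]; exact h1)
    rwa [prev_next] at this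
  rw [e2] at this
  exact this h3

/-- Faces of length seven do not receive too much. -/
theorem seven_of {R : Rot G} {d : G.Dart} (h : sz R d = 7)
    (h3 : ∀ i < 7, G.degree (R.next^[i] d).fst = 3)
    (hL : ∀ i < 7, Loc7 R (R.next^[i] d))
    (ht : ∀ i < 7, ¬ (sz R (R.next^[i] d).symm = 5 ∧ sz R (R.next^[i + 1] d).symm = 5 ∧
      sz R (R.next^[i + 2] d).symm = 5)) :
    ∑ i ∈ range 7, rule R (R.next^[i] d).symm ≤ 24 / 25 := by
  have h7 : R.next^[7] d = d := by have := next_sz R d; rwa [h] at this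
  have h6 : ∀ j, R.next^[j + 7] d = R.next^[j] d := fun j => by
    rw [Function.iterate_add_apply, h7]
  have hd : ∀ i, G.degree (R.next^[i] d).fst = 3 := by
    intro i
    induction i using Nat.strong_induction_on with
    | _ i ih =>
      by_cases hi : i < 7
      · exact h3 i hi
      · have := ih (i - 7) (by omega)
        rwa [← h6, Nat.sub_add_cancel (by omega)] at this
  have hs : ∀ i, G.degree (R.next^[i] d).snd = 3 := fun i => by
    have := hd (i + 1)
    rwa [Function.iterate_succ_apply', R.fst_next] at this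
  have hp : prev R d = R.next^[6] d := by
    have e1 : R.next (R.next^[6] d) = d := by rw [← Function.iterate_succ_apply' R.next, h7]
    rw [← prev_next R (R.next^[6] d), e1]
  have hpi : ∀ i, prev R (R.next^[i + 1] d) = R.next^[i] d := fun i => by
    rw [Function.iterate_succ_apply', prev_next]
  have e : ∀ i, rule R (R.next^[i] d).symm = (w7 (cl7 R (prev R (R.next^[i] d)))
      (cl7 R (R.next^[i] d)) (cl7 R (R.next^[i + 1] d)) : ℝ) / 200 := by
    intro i
    rw [rule_symm (by rw [sz_iter, h]) (hd i) (hs i), Function.iterate_succ_apply']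
  have hsum : ∑ i ∈ range 7, rule R (R.next^[i] d).symm =
      ((w7 (cl7 R (R.next^[6] d)) (cl7 R d) (cl7 R (R.next d)) +
        w7 (cl7 R d) (cl7 R (R.next d)) (cl7 R (R.next^[2] d)) +
        w7 (cl7 R (R.next d)) (cl7 R (R.next^[2] d)) (cl7 R (R.next^[3] d)) +
        w7 (cl7 R (R.next^[2] d)) (cl7 R (R.next^[3] d)) (cl7 R (R.next^[4] d)) +
        w7 (cl7 R (R.next^[3] d)) (cl7 R (R.next^[4] d)) (cl7 R (R.next^[5] d)) +
        w7 (cl7 R (R.next^[4] d)) (cl7 R (R.next^[5] d)) (cl7 R (R.next^[6] d)) +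
        w7 (cl7 R (R.next^[5] d)) (cl7 R (R.next^[6] d)) (cl7 R d) : ℕ) : ℝ) / 200 := by
    simp only [sum_range_succ, sum_range_zero]
    rw [e 0, e 1, e 2, e 3, e 4, e 5, e 6, hpi 0, hpi 1, hpi 2, hpi 3, hpi 4, hpi 5]
    simp only [Function.iterate_zero, id_eq, hp, Nat.reduceAdd, h7, Function.iterate_one]
    push_cast
    ring
  have k : ∀ i j, R.next^[j] (R.next^[i] d) = R.next^[i + j] d := fun i j => by
    rw [← Function.iterate_add_apply, Nat.add_comm]
  have k1 : ∀ i, R.next (R.next^[i] d) = R.next^[i + 1] d := fun i => by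
    rw [Function.iterate_succ_apply']
  have hcond : ∀ i < 7, cond7 (cl7 R (R.next^[i] d)) (cl7 R (R.next^[i + 1] d))
      (cl7 R (R.next^[i + 2] d)) (cl7 R (R.next^[i + 3] d)) (cl7 R (R.next^[i + 4] d))
      (cl7 R (R.next^[i + 5] d)) = true := by
    intro i hi
    have hl := hL i hi
    have g1 := hl.t3
    have g2 := hl.t4
    have g3 := hl.t5
    have g4 := hl.p1
    have g5 := hl.p2
    have g6 := hl.g3
    have g7 := ht i hi
    simp only [k, k1] at g1 g2 g3 g4 g5 g6
    have g8 : ∀ j, sz R (R.next^[j] d).symm = 5 → sz R (R.next^[j + 1] d).symm = 5 →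
        c5 R (R.next^[j] d).symm ≠ 0 ∧ c5 R (R.next^[j + 1] d).symm ≠ 0 := by
      intro j e1 e2
      refine ⟨c5_pos_prev (hs j) e1 (by rw [k1]; exact e2), c5_pos_next (hd _) ?_⟩
      rw [hpi]; exact e1
    have g9 := g8 i
    unfold cond7
    simp only [Bool.and_eq_true, Bool.not_eq_true', ← Bool.not_eq_true, Bool.or_eq_true,
      decide_eq_true_eq, cl7_ne, cl7_one, cl7_three]
    refine ⟨⟨⟨⟨⟨?_, ?_⟩, ?_⟩, ?_⟩, ?_⟩, ?_⟩
    · exact fun ⟨⟨a, b⟩, c⟩ => g7 ⟨a, b, c⟩
    · rintro ⟨⟨a, b⟩, ⟨-, c⟩ | ⟨-, c⟩⟩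
      · exact (g9 a b).1 c
      · exact (g9 a b).2 c
    · rintro ⟨⟨⟨a, ta⟩, b, tb⟩, (d | d) | d⟩
      · exact g1 a b ta tb d
      · exact g2 a b ta tb d
      · exact g3 a b ta tb d
    · exact fun ⟨⟨⟨a, b⟩, c⟩, d⟩ => g4 ⟨a, b, c, d⟩
    · exact fun ⟨⟨⟨a, b⟩, c⟩, d⟩ => g5 ⟨a, b, c, d⟩
    · exact fun ⟨⟨⟨a, a'⟩, b, b'⟩, c, c'⟩ => g6 ⟨a, b, c, a', b', c'⟩
  have c0 := hcond 0 (by norm_num)
  have c1 := hcond 1 (by norm_num)
  have c2 := hcond 2 (by norm_num)
  have c3 := hcond 3 (by norm_num)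
  have c4 := hcond 4 (by norm_num)
  have c5 := hcond 5 (by norm_num)
  have c6 := hcond 6 (by norm_num)
  simp only [Nat.reduceAdd, h7, h6 1, h6 2, h6 3, h6 4, Function.iterate_zero, id_eq,
    Function.iterate_one] at c0 c1 c2 c3 c4 c5 c6
  have key := seven_check (cl7 R d) (cl7 R (R.next d)) (cl7 R (R.next^[2] d))
    (cl7 R (R.next^[3] d)) (cl7 R (R.next^[4] d)) (cl7 R (R.next^[5] d))
    (cl7 R (R.next^[6] d)) (by
      simp only [Bool.and_eq_true]
      exact ⟨⟨⟨⟨⟨⟨c0, c1⟩, c2⟩, c3⟩, c4⟩, c5⟩, c6⟩)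
  rw [hsum]
  have key' : ((w7 (cl7 R (R.next^[6] d)) (cl7 R d) (cl7 R (R.next d)) +
        w7 (cl7 R d) (cl7 R (R.next d)) (cl7 R (R.next^[2] d)) +
        w7 (cl7 R (R.next d)) (cl7 R (R.next^[2] d)) (cl7 R (R.next^[3] d)) +
        w7 (cl7 R (R.next^[2] d)) (cl7 R (R.next^[3] d)) (cl7 R (R.next^[4] d)) +
        w7 (cl7 R (R.next^[3] d)) (cl7 R (R.next^[4] d)) (cl7 R (R.next^[5] d)) +
        w7 (cl7 R (R.next^[4] d)) (cl7 R (R.next^[5] d)) (cl7 R (R.next^[6] d)) +
        w7 (cl7 R (R.next^[5] d)) (cl7 R (R.next^[6] d)) (cl7 R d) : ℕ) : ℝ) ≤ 192 := by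
    exact_mod_cast key
  linarith

end Pool.Agent.Disch392
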