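import Mathlib
import Pool.Agent.Work.MP_392c8e_co_uni.Cfg2

/-!
# Good darts of cubic plane graphs: no configuration near the dart
-/

namespace Pool.Agent.Disch392

open Finset Pool.Agent.Sub392 Pool.Agent.T392

set_option linter.unusedSectionVars false

variable {V : Type} [Fintype V] [DecidableEq V] {G : SimpleGraph V} [DecidableRel G.Adj]

/-- The dart `e` is reached from `d` by at most `k` moves along faces and across edges. -/
def Near (R : Rot G) : ℕ → G.Dart → G.Dart → Prop
  | 0, d, e => e = d
  | k + 1, d, e => ∃ x, Near R k d x ∧ (e = x ∨ e = R.next x ∨ e = prev R x ∨ e = x.symm)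

theorem Near.refl (R : Rot G) (k : ℕ) (d : G.Dart) : Near R k d d := by
  induction k with
  | zero => rfl
  | succ k ih => exact ⟨d, ih, Or.inl rfl⟩

theorem Near.succ {R : Rot G} {k : ℕ} {d e : G.Dart} (h : Near R k d e) : Near R (k + 1) d e :=
  ⟨e, h, Or.inl rfl⟩

theorem Near.mono {R : Rot G} {k l : ℕ} {d e : G.Dart} (h : Near R k d e) (hkl : k ≤ l) :
    Near R l d e := by
  induction hkl with
  | refl => exact h
  | step _ ih => exact ih.succ

theorem Near.next {R : Rot G} {k : ℕ} {d e : G.Dart} (h : Near R k d e) :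
    Near R (k + 1) d (R.next e) := ⟨e, h, Or.inr (Or.inl rfl)⟩

theorem Near.prev {R : Rot G} {k : ℕ} {d e : G.Dart} (h : Near R k d e) :
    Near R (k + 1) d (prev R e) := ⟨e, h, Or.inr (Or.inr (Or.inl rfl))⟩

theorem Near.symm' {R : Rot G} {k : ℕ} {d e : G.Dart} (h : Near R k d e) :
    Near R (k + 1) d e.symm := ⟨e, h, Or.inr (Or.inr (Or.inr rfl))⟩

theorem Near.iter {R : Rot G} {k : ℕ} {d e : G.Dart} (h : Near R k d e) (i : ℕ) :
    Near R (k + i) d (R.next^[i] e) := by
  induction i with
  | zero => exact h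
  | succ i ih =>
    rw [Function.iterate_succ_apply']
    exact ih.next

/-- Near darts start at near vertices. -/
theorem Near.walk {R : Rot G} {k : ℕ} {d e : G.Dart} (h : Near R k d e) :
    ∃ p : G.Walk d.fst e.fst, p.length ≤ k := by
  induction k generalizing e with
  | zero =>
    obtain rfl : e = d := h
    exact ⟨SimpleGraph.Walk.nil, le_rfl⟩
  | succ k ih =>
    obtain ⟨x, hx, h1⟩ := h
    obtain ⟨p, hp⟩ := ih hx
    rcases h1 with rfl | rfl | rfl | rfl
    · exact ⟨p, by omega⟩
    · refine ⟨(p.concat x.adj).copy rfl (R.fst_next x).symm, ?_⟩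
      rw [SimpleGraph.Walk.length_copy, SimpleGraph.Walk.length_concat]
      omega
    · have h2 : G.Adj x.fst (Pool.Agent.Disch392.prev R x).fst := by
        have := (Pool.Agent.Disch392.prev R x).adj
        rw [snd_prev] at this
        exact this.symm
      refine ⟨p.concat h2, ?_⟩
      rw [SimpleGraph.Walk.length_concat]
      omega
    · refine ⟨(p.concat x.adj).copy rfl rfl, ?_⟩
      rw [SimpleGraph.Walk.length_copy, SimpleGraph.Walk.length_concat]
      omega

/-- There is no configuration at the dart. -/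
def LocOK (R : Rot G) (e : G.Dart) : Prop :=
  5 ≤ sz R e ∧ (sz R e = 5 → Loc5 R e) ∧ (sz R e = 7 → Loc7 R e)

/-- Three consecutive neighbours of length five. -/
theorem not_three {R : Rot G} (h3 : ∀ v, G.degree v = 3) {x : G.Dart}
    (h : LocOK R (prev R x.symm)) :
    ¬ (sz R (R.next x).symm = 5 ∧ sz R x.symm = 5 ∧ sz R (prev R x).symm = 5) := by
  rintro ⟨e1, e2, e3⟩
  have h4 : sz R (prev R x.symm) = 5 := by rw [sz_prev]; exact e2
  have h5 := (h.2.1 h4).two
  have e4 : sz R (prev R x.symm).symm = sz R (R.next x).symm := by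
    have := sz_prev_symm (R := R) (d := R.next x) (h3 _)
    rwa [prev_next] at this
  rw [e4] at h5
  refine h5 e1 ?_
  show sz R (R.next (R.next (prev R x.symm))).symm = 5
  rw [next_prev, sz_next_symm (h3 _)]
  exact e3

/-- A dart of a cubic graph without configurations near it is good. -/
theorem goodT_of {R : Rot G} (h3 : ∀ v, G.degree v = 3) {d : G.Dart}
    (h : ∀ e, Near R 9 d e → LocOK R e) : GoodT R (rule R) d where
  five_le := (h d (Near.refl R 9 d)).1
  five := fun h1 => five_of h1 fun i hi => by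
    have h2 : Near R 9 d (R.next^[i] d) := ((Near.refl R 0 d).iter i).mono (by omega)
    exact (h _ h2).2.1 (by rw [sz_iter, h1])
  seven := fun h1 => by
    refine seven_of h1 (fun i _ => h3 _) (fun i hi => ?_) (fun i hi => ?_)
    · have h2 : Near R 9 d (R.next^[i] d) := ((Near.refl R 0 d).iter i).mono (by omega)
      exact (h _ h2).2.2 (by rw [sz_iter, h1])
    · have h2 : Near R 9 d (prev R (R.next^[i + 1] d).symm) :=
        (((Near.refl R 0 d).iter (i + 1)).symm'.prev).mono (by omega)
      have h5 := not_three h3 (h _ h2)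
      rintro ⟨e1, e2, e3⟩
      refine h5 ⟨?_, e2, ?_⟩
      · rwa [← Function.iterate_succ_apply' R.next]
      · rwa [Function.iterate_succ_apply', prev_next]
  eight := fun _ => by
    have h2 : Near R 9 d (prev R (prev R d).symm) :=
      ((((Near.refl R 0 d).prev).symm').prev).mono (by omega)
    have h5 := not_three h3 (h _ h2)
    rintro ⟨e1, e2, e3⟩
    refine h5 ⟨?_, e2, e3⟩
    rw [next_prev]
    exact e1

open Classical in
/-- **Discharging in cubic graphs.** -/
theorem disch_loc (R : Rot G) (h3 : ∀ v, G.degree v = 3) (U : Finset V) :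
    ∑ d ∈ univ.filter (fun d : G.Dart => d.fst ∈ U), kap R d ≤
      - (1 / 1000) * #{d : G.Dart | d.fst ∈ U ∧ sz R d ≠ 6} +
        7 * #{d : G.Dart | d.fst ∈ U ∧ ∃ e, Near R 9 d e ∧ ¬ LocOK R e} +
        15 * #(bd (G := G) U) := by
  refine (disch_rule (rule_rule R) U).trans ?_
  have h1 : (#{d : G.Dart | d.fst ∈ U ∧ ¬ GoodT R (rule R) d} : ℝ) ≤
      #{d : G.Dart | d.fst ∈ U ∧ ∃ e, Near R 9 d e ∧ ¬ LocOK R e} := by
    norm_cast
    refine card_le_card fun d hd => ?_
    simp only [mem_filter, mem_univ, true_and] at hd ⊢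
    refine ⟨hd.1, ?_⟩
    by_contra hcon
    push Not at hcon
    exact hd.2 (goodT_of h3 hcon)
  linarith

end Pool.Agent.Disch392
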