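import Mathlib
import Pool.Agent.Work.MP_392c8e_co_uni.Near
import Pool.Agent.Work.MP_392c8e_co_uni.ChainClosure

/-!
# The closure for chains of faces of length five in a cubic graph
-/

namespace Pool.Agent.U2Chain

open Finset Pool.Agent.Sub392 Pool.Agent.T392 Pool.Agent.Disch392

set_option linter.unusedSectionVars false

variable {V : Type} [Fintype V] [DecidableEq V] {G : SimpleGraph V} [DecidableRel G.Adj]
  {R : Rot G}

/-- The maps of a rotation system of a cubic graph. -/
theorem mp (h3 : ∀ v, G.degree v = 3) :
    Mp (SimpleGraph.Dart.symm) R.next (prev R) (sz R) := by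
  have hT : ∀ d : G.Dart, R.next (R.next d.symm).symm = (prev R d).symm := by
    intro d
    have h1 : R.next d.symm = R.rot d := by rw [next_eq, SimpleGraph.Dart.symm_symm]
    have h2 : R.next (R.rot d).symm = R.rot (R.rot d) := by
      rw [next_eq, SimpleGraph.Dart.symm_symm]
    rw [h1, h2, rot_rot_symm (h3 _)]
  have h5 : ∀ d, sz R d = 5 → R.next (R.next (R.next d)) = prev R (prev R d) := by
    intro d hd
    have h1 : R.next^[5] d = d := by have := next_sz R d; rwa [hd] at this
    have h2 : R.next (R.next (R.next (R.next (R.next d)))) = d := h1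
    have h3 := congrArg (fun x => prev R (prev R x)) h2
    simpa only [prev_next] using h3
  refine ⟨SimpleGraph.Dart.symm_symm, next_prev R, prev_next R, hT, ?_, fun d => ?_, fun d => ?_,
    h5, ?_⟩
  · intro d
    have h1 := hT (R.next d.symm).symm
    rw [SimpleGraph.Dart.symm_symm] at h1
    have h2 := hT d
    -- T for `next d`
    have h4 : R.next (R.next d).symm = (prev R d.symm).symm := by
      have := hT d.symm
      rwa [SimpleGraph.Dart.symm_symm] at this
    rw [← h4, prev_next]
  · rw [sz_next]
  · rw [sz_prev]
  · intro d hd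
    have h1 := h5 (prev R (prev R (prev R d))) (by rw [sz_prev, sz_prev, sz_prev, hd])
    rw [next_prev, next_prev, next_prev] at h1
    have h2 := congrArg (fun x => R.next (R.next x)) h1
    simp only [next_prev] at h2
    exact h2.symm

/-- Near darts. -/
theorem near_of_nr {k : ℕ} {d e : G.Dart}
    (h : Nr SimpleGraph.Dart.symm R.next (prev R) k d e) : Near R k d e := by
  induction k generalizing e with
  | zero => exact h
  | succ k ih =>
    obtain ⟨x, hx, h1⟩ := h
    exact ⟨x, ih hx, h1⟩

/-- A chain of three faces of length five at `e` gives a reducer near `e`. -/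
theorem chain_rot (h3 : ∀ v, G.degree v = 3) {e : G.Dart} (h5 : sz R e = 5)
    (h0 : sz R e.symm = 5) (h2 : sz R (R.next^[2] e).symm = 5) :
    ∃ d, Near R 6 e d ∧ Red SimpleGraph.Dart.symm R.next (prev R) (sz R) d := by
  obtain ⟨d, h6, h7⟩ := chain_closure (mp (R := R) h3) h5 h0 h2
  exact ⟨d, near_of_nr h6, h7⟩

end Pool.Agent.U2Chain
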