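import Mathlib
import Pool.Agent.Work.MP_392c8e_co_t1.Corners
import Pool.Agent.Work.MP_392c8e_co_t1.Maps

/-!
# Cyclically 5-edge-connected cubic plane graphs: short closed walks
-/

namespace Pool.Agent.U2Geo

open Finset Pool.Agent.Sub392 Pool.T1Side Pool.Agent.T392 Pool.Agent.T1FF

set_option linter.unusedSectionVars false

variable {V : Type} [Fintype V] [DecidableEq V] {G : SimpleGraph V} [DecidableRel G.Adj]

/-- The number of darts leaving a set. -/
def out (G : SimpleGraph V) [DecidableRel G.Adj] (A : Finset V) : ℕ :=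
  #{d : G.Dart | d.fst ∈ A ∧ d.snd ∉ A}

/-- A plane cubic graph in which every set of vertices with at most four leaving edges or its
complement has at most two elements. -/
structure C5 (R : Rot G) : Prop where
  plane : R.Plane
  cub : ∀ v, G.degree v = 3
  cut : ∀ A : Finset V, out G A ≤ 4 → #A ≤ 2 ∨ #Aᶜ ≤ 2
  big : 7 ≤ Fintype.card V

/-- The darts at a set. -/
theorem out_add (hc : ∀ v, G.degree v = 3) (A : Finset V) :
    out G A + #{d : G.Dart | d.fst ∈ A ∧ d.snd ∈ A} = 3 * #A := by
  classical
  have h1 : #{d : G.Dart | d.fst ∈ A} = 3 * #A := by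
    have h2 : (univ.filter fun d : G.Dart => d.fst ∈ A) =
        A.biUnion fun v => univ.filter fun d : G.Dart => d.fst = v := by
      ext d; simp
    rw [h2, card_biUnion]
    · rw [sum_congr rfl fun v _ => (G.dart_fst_fiber_card_eq_degree v).trans (hc v), sum_const,
        smul_eq_mul, mul_comm]
    · intro x _ y _ hxy
      rw [Function.onFun, disjoint_filter]
      intro d _ h3 h4
      exact hxy (h3.symm.trans h4)
  rw [← h1, out, ← card_union_of_disjoint]
  · congr 1
    ext d
    simp only [mem_union, mem_filter, mem_univ, true_and]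
    tauto
  · rw [disjoint_filter]
    intro d _ h3 h4
    exact h3.2 h4.2

/-- Every vertex of the set has two neighbours in the set. -/
theorem out_le (hc : ∀ v, G.degree v = 3) (A : Finset V)
    (h : ∀ v ∈ A, ∃ x y, x ≠ y ∧ G.Adj v x ∧ G.Adj v y ∧ x ∈ A ∧ y ∈ A) : out G A ≤ #A := by
  classical
  have h1 : 2 * #A ≤ #{d : G.Dart | d.fst ∈ A ∧ d.snd ∈ A} := by
    have h2 : (A.biUnion fun v => univ.filter fun d : G.Dart => d.fst = v ∧ d.snd ∈ A) ⊆
        (univ.filter fun d : G.Dart => d.fst ∈ A ∧ d.snd ∈ A) := by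
      intro d hd
      simp only [mem_biUnion, mem_filter, mem_univ, true_and] at hd ⊢
      obtain ⟨v, hv, h3, h4⟩ := hd
      exact ⟨h3 ▸ hv, h4⟩
    refine le_trans ?_ (card_le_card h2)
    rw [card_biUnion]
    · rw [mul_comm, ← smul_eq_mul, ← sum_const]
      refine sum_le_sum fun v hv => ?_
      obtain ⟨x, y, hxy, hx, hy, hxA, hyA⟩ := h v hv
      have h3 : ({(⟨(v, x), hx⟩ : G.Dart), (⟨(v, y), hy⟩ : G.Dart)} : Finset G.Dart) ⊆
          univ.filter fun d : G.Dart => d.fst = v ∧ d.snd ∈ A := by
        intro d hd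
        simp only [mem_insert, mem_singleton, mem_filter, mem_univ, true_and] at hd ⊢
        rcases hd with rfl | rfl
        · exact ⟨rfl, hxA⟩
        · exact ⟨rfl, hyA⟩
      refine le_trans (le_of_eq ?_) (card_le_card h3)
      rw [card_pair]
      intro h4
      exact hxy (congrArg (fun d : G.Dart => d.snd) h4)
    · intro x _ y _ hxy
      rw [Function.onFun, disjoint_filter]
      intro d _ h3 h4
      exact hxy (h3.1.symm.trans h4.1)
  have h2 := out_add hc A
  omega

/-- One or two vertices have at least three leaving edges. -/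
theorem three_le_out (hc : ∀ v, G.degree v = 3) (A : Finset V) (h1 : 1 ≤ #A) (h2 : #A ≤ 2) :
    3 ≤ out G A := by
  classical
  have h3 := out_add hc A
  have h4 : #{d : G.Dart | d.fst ∈ A ∧ d.snd ∈ A} + #A ≤ #A * #A := by
    have h5 : #{d : G.Dart | d.fst ∈ A ∧ d.snd ∈ A} ≤ #A.offDiag := by
      refine card_le_card_of_injOn (fun d : G.Dart => (d.fst, d.snd)) ?_ ?_
      · intro d hd
        simp only [coe_filter, mem_univ, true_and, Set.mem_ofPred_eq] at hd
        simp only [coe_offDiag, Set.mem_offDiag, mem_coe]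
        exact ⟨hd.1, hd.2, d.adj.ne⟩
      · intro d _ d' _ h
        exact SimpleGraph.Dart.ext _ _ h
    rw [offDiag_card] at h5
    have h6 : #A ≤ #A * #A := Nat.le_mul_self _
    omega
  interval_cases h : #A
  · omega
  · omega

theorem out_compl (A : Finset V) : out G Aᶜ = out G A := by
  classical
  refine Finset.card_bij (fun d _ => d.symm) ?_ ?_ ?_
  · intro d hd
    simp only [mem_filter, mem_univ, true_and, mem_compl, not_not] at hd ⊢
    exact ⟨hd.2, hd.1⟩
  · intro d _ d' _ h
    have := congrArg SimpleGraph.Dart.symm h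
    simpa using this
  · intro d hd
    refine ⟨d.symm, ?_, by simp⟩
    simp only [mem_filter, mem_univ, true_and, mem_compl, not_not] at hd ⊢
    exact ⟨hd.2, hd.1⟩

variable {R : Rot G}

namespace C5

/-- No triangles. -/
theorem tri (h : C5 R) : G.CliqueFree 3 := by
  classical
  intro s hs
  rw [SimpleGraph.is3Clique_iff] at hs
  obtain ⟨a, b, c, hab, hac, hbc, rfl⟩ := hs
  have h1 : #({a, b, c} : Finset V) = 3 := by
    rw [card_insert_of_notMem, card_pair hbc.ne]
    simp [hab.ne, hac.ne]
  have h2 := out_le h.cub {a, b, c} (by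
    intro v hv
    simp only [mem_insert, mem_singleton] at hv
    rcases hv with rfl | rfl | rfl
    · exact ⟨b, c, hbc.ne, hab, hac, by simp, by simp⟩
    · exact ⟨a, c, hac.ne, hab.symm, hbc, by simp, by simp⟩
    · exact ⟨a, b, hab.ne, hac.symm, hbc.symm, by simp, by simp⟩)
  have h3 := h.big
  have h4 := card_compl ({a, b, c} : Finset V)
  rcases h.cut {a, b, c} (by omega) with h5 | h5 <;> omega

/-- No cycles of length four. -/
theorem no_four (h : C5 R) {a b c e : V} (hab : G.Adj a b) (hbc : G.Adj b c) (hce : G.Adj c e)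
    (hea : G.Adj e a) (hac : a ≠ c) (hbe : b ≠ e) : False := by
  classical
  have h1 : #({a, b, c, e} : Finset V) = 4 := by
    rw [card_insert_of_notMem, card_insert_of_notMem, card_pair hce.ne]
    · simp [hbc.ne, hbe]
    · simp [hab.ne, hac, hea.ne']
  have h2 := out_le h.cub {a, b, c, e} (by
    intro v hv
    simp only [mem_insert, mem_singleton] at hv
    rcases hv with rfl | rfl | rfl | rfl
    · exact ⟨b, e, hbe, hab, hea.symm, by simp, by simp⟩
    · exact ⟨a, c, hac, hab.symm, hbc, by simp, by simp⟩
    · exact ⟨b, e, hbe, hbc.symm, hce, by simp, by simp⟩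
    · exact ⟨a, c, hac, hea, hce.symm, by simp, by simp⟩)
  have h3 := h.big
  have h4 := card_compl ({a, b, c, e} : Finset V)
  rcases h.cut {a, b, c, e} (by omega) with h5 | h5 <;> omega

/-- The geometric facts. -/
theorem geo (h : C5 R) : Geo R where
  plane := h.plane
  tri := h.tri
  deg3 := fun v => (h.cub v).le
  deg2 := fun v => by rw [h.cub v]; norm_num
  br := by
    classical
    refine face_ne_of_nobridge R h.plane fun S u v hu hv huv => ?_
    by_contra hcon
    push Not at hcon
    have h1 : out G (univ.filter fun x => S x) ≤ 1 := by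
      unfold out
      rw [card_le_one]
      intro d hd d' hd'
      simp only [mem_filter, mem_univ, true_and] at hd hd'
      have key : ∀ d : G.Dart, S d.fst ∧ ¬ S d.snd → d = ⟨(u, v), huv⟩ := by
        intro d hd
        have h4 := hcon d.fst d.snd hd.1 hd.2 d.adj
        rcases Sym2.eq_iff.1 h4 with ⟨h5, h6⟩ | ⟨h5, h6⟩
        · exact SimpleGraph.Dart.ext _ _ (Prod.ext h5 h6)
        · exact absurd (h5 ▸ hd.1) hv
      rw [key d hd, key d' hd']
    have e1 : 1 ≤ #(univ.filter fun x => S x) := by
      rw [Nat.one_le_iff_ne_zero, card_ne_zero]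
      exact ⟨u, by simpa using hu⟩
    have e2 : 1 ≤ #(univ.filter fun x => S x)ᶜ := by
      rw [Nat.one_le_iff_ne_zero, card_ne_zero]
      exact ⟨v, by simpa using hv⟩
    rcases h.cut (univ.filter fun x => S x) (by omega) with h2 | h2
    · have := three_le_out h.cub _ e1 h2
      omega
    · have := three_le_out h.cub _ e2 h2
      rw [out_compl] at this
      omega
  cut := fun A hA => h.cut A (le_trans hA (by norm_num))
  no22 := fun u _ _ hu => by rw [h.cub u] at hu; omega

/-- The faces have length at least five. -/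
theorem five_le (h : C5 R) (d : G.Dart) : 5 ≤ sz R d := by
  have g := h.geo
  have h1 := g.four_le_sz d
  by_contra hcon
  have h2 : sz R d = 4 := by omega
  have h3 : R.next^[4] d = d := by rw [← h2]; exact next_sz R d
  have e0 : (R.next^[0] d) = d := rfl
  have e1 : (R.next^[1] d) = R.next d := rfl
  have e2 : (R.next^[2] d) = R.next (R.next d) := rfl
  have e3 : (R.next^[3] d) = R.next (R.next (R.next d)) := rfl
  have e4 : R.next (R.next (R.next (R.next d))) = d := h3
  have a0 : G.Adj d.fst (R.next d).fst := by rw [R.fst_next]; exact d.adj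
  have a1 : G.Adj (R.next d).fst (R.next (R.next d)).fst := by
    rw [R.fst_next (R.next d)]; exact (R.next d).adj
  have a2 : G.Adj (R.next (R.next d)).fst (R.next (R.next (R.next d))).fst := by
    rw [R.fst_next (R.next (R.next d))]; exact (R.next (R.next d)).adj
  have a3 : G.Adj (R.next (R.next (R.next d))).fst d.fst := by
    have := (R.next (R.next (R.next d))).adj
    rw [← R.fst_next, e4] at this
    exact this
  have nb : ∀ x : G.Dart, x.fst ≠ (R.next (R.next x)).fst := by
    intro x hx
    have h5 : (R.next x).fst = x.snd := R.fst_next x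
    have h6 : (R.next x).snd = x.fst := by rw [hx, R.fst_next (R.next x)]
    refine g.next_ne_symm x ?_
    exact SimpleGraph.Dart.ext _ _ (Prod.ext h5 h6)
  exact h.no_four a0 a1 a2 a3 (nb d) (nb (R.next d))

theorem not_bad (h : C5 R) : ¬ Bad R 7 := by
  have h5 := h.five_le
  rintro (⟨t, h1⟩ | ⟨t, h1, h2⟩ | ⟨t, h1, h2⟩ | ⟨t, h1, h2, h3⟩)
  · have := h5 t
    have := h5 t.symm
    omega
  · rw [h.cub] at h1; omega
  · have := h5 t
    have := h5 (R.rot t)
    have := h5 (R.rot (R.rot t))
    omega
  · rw [h.cub] at h2; omega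

/-- Every dart of a face gives good data. -/
theorem good (h : C5 R) {d : G.Dart} {L : ℕ} (hd : sz R d = L) : Good R d L :=
  ⟨hd, fun _ => h.cub _⟩

end C5

/-- Closed walks of length at most seven are determined by a corner. -/
def AA (k l : ℕ) : Bool := Nat.ble k 4 && Nat.ble l 4

/-- **The rules.** -/
theorem C5.rules (h : C5 R) : Rules G AA (fun _ _ => false) := by
  refine ⟨h.tri, ?_, ?_⟩
  · intro a v b l l' h1 h2 hA
    simp only [AA, Bool.and_eq_true, Nat.ble_eq] at hA
    exact h.geo.cornerEq (by norm_num) h.not_bad h1 h2 (by omega) (by omega) (h.cub v)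
  · intro a v l l' _ _ hB
    simp at hB

/-- **A closed walk through the corner of a face with length at most seven has its length.** -/
theorem C5.corner_len (h : C5 R) {a v b : V} {l l' : List V} (h1 : NB G (a :: v :: b :: l))
    (h2 : NB G (a :: v :: b :: l')) (hl : l.length ≤ 4) (hl' : l'.length ≤ 4) :
    l.length = l'.length := by
  rw [h.geo.cornerEq (by norm_num) h.not_bad h1 h2 (by omega) (by omega) (h.cub v)]

end Pool.Agent.U2Geo
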