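import Mathlib
import Pool.Agent.Work.MP_392c8e_co_uni.Near
import Pool.Agent.Work.MP_392c8e_co_uni.GeoBase

/-!
# The mirror image of a rotation
-/

namespace Pool.Agent.Disch392

open Finset Pool.Agent.Sub392 Pool.Agent.T392

set_option linter.unusedSectionVars false

variable {V : Type} {G : SimpleGraph V}

/-- The mirror image. -/
def mir (R : Rot G) : Rot G where
  rot := R.rot.symm
  fst_rot := fun d => by
    have := R.fst_rot (R.rot.symm d)
    rw [Equiv.apply_symm_apply] at this
    exact this.symm
  cyc := fun d d' h => by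
    have := R.cyc d d' h
    exact Equiv.Perm.sameCycle_inv.2 this

theorem mir_rot (R : Rot G) (d : G.Dart) : (mir R).rot d = R.rot.symm d := rfl

theorem mir_mir (R : Rot G) : mir (mir R) = R := rfl

theorem next_def (R : Rot G) (d : G.Dart) : R.next d = R.rot d.symm := rfl

theorem rot_symm_eq (R : Rot G) (d : G.Dart) : R.rot.symm d = (prev R d).symm := by
  rw [Equiv.symm_apply_eq]
  have h : R.next (prev R d) = d := R.next.apply_symm_apply d
  exact h.symm

/-- The next dart in the mirror image. -/
theorem mir_next (R : Rot G) (d : G.Dart) : (mir R).next d = (prev R d.symm).symm := by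
  show (mir R).rot d.symm = _
  rw [mir_rot, rot_symm_eq]

theorem mir_iter (R : Rot G) (d : G.Dart) (i : ℕ) :
    (mir R).next^[i] d = ((prev R)^[i] d.symm).symm := by
  induction i with
  | zero => simp
  | succ i ih =>
    rw [Function.iterate_succ_apply', ih, mir_next, SimpleGraph.Dart.symm_symm,
      Function.iterate_succ_apply']

theorem mir_prev (R : Rot G) (d : G.Dart) : prev (mir R) d = (R.next d.symm).symm := by
  have h : (mir R).next (R.next d.symm).symm = d := by
    rw [mir_next, SimpleGraph.Dart.symm_symm]
    have h2 : prev R (R.next d.symm) = d.symm := R.next.symm_apply_apply d.symm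
    rw [h2, SimpleGraph.Dart.symm_symm]
  have h3 : prev (mir R) ((mir R).next (R.next d.symm).symm) = (R.next d.symm).symm :=
    (mir R).next.symm_apply_apply _
  rw [h] at h3
  exact h3

theorem mir_conj (R : Rot G) : (mir R).next = flip G * R.next⁻¹ * (flip G)⁻¹ := by
  ext1 d
  rw [mir_next]
  rfl

theorem mir_same (R : Rot G) (x y : G.Dart) :
    (mir R).next.SameCycle x y ↔ R.next.SameCycle x.symm y.symm := by
  rw [mir_conj, Equiv.Perm.sameCycle_conj, Equiv.Perm.sameCycle_inv]
  rfl

/-- The faces. -/
noncomputable def mirFace (R : Rot G) : (mir R).Face ≃ R.Face :=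
  Quotient.congr (flip G) fun x y => mir_same R x y

variable [Fintype V] [DecidableEq V] [DecidableRel G.Adj]

/-- The sizes. -/
theorem sz_mir (R : Rot G) (d : G.Dart) : sz (mir R) d = sz R d.symm := by
  unfold sz Rot.size
  refine card_bij' (fun x _ => x.symm) (fun x _ => x.symm) ?_ ?_ ?_ ?_
  · intro x hx
    simp only [mem_filter, mem_univ, true_and] at hx ⊢
    rw [face_eq_iff] at hx ⊢
    exact (mir_same R _ _).1 hx
  · intro x hx
    simp only [mem_filter, mem_univ, true_and] at hx ⊢
    rw [face_eq_iff] at hx ⊢
    rw [mir_same, SimpleGraph.Dart.symm_symm]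
    exact hx
  · intro x _; exact SimpleGraph.Dart.symm_symm x
  · intro x _; exact SimpleGraph.Dart.symm_symm x

theorem sz_mir_symm (R : Rot G) (d : G.Dart) : sz (mir R) d.symm = sz R d := by
  rw [sz_mir, SimpleGraph.Dart.symm_symm]

theorem mir_plane {R : Rot G} (h : R.Plane) : (mir R).Plane := by
  refine ⟨h.1, ?_⟩
  rw [Fintype.card_congr (mirFace R)]
  exact h.2

theorem mir_C5 {R : Rot G} (h : Pool.Agent.U2Geo.C5 R) : Pool.Agent.U2Geo.C5 (mir R) :=
  ⟨mir_plane h.plane, h.cub, h.cut, h.big⟩

theorem prev_iter (R : Rot G) {d : G.Dart} {n i : ℕ} (h : sz R d = n) (hi : i ≤ n) :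
    (prev R)^[i] d = R.next^[n - i] d := by
  induction i with
  | zero =>
    have := next_sz R d
    rw [h] at this
    rw [Nat.sub_zero, this]
    rfl
  | succ i ih =>
    rw [Function.iterate_succ_apply', ih (by omega)]
    have e : n - i = (n - (i + 1)) + 1 := by omega
    rw [e, Function.iterate_succ_apply', prev_next]

/-- The neighbours of a face in the mirror image. -/
theorem sz_mir_iter (R : Rot G) {d : G.Dart} {n i : ℕ} (h : sz R d = n) (hi : i ≤ n) :
    sz (mir R) ((mir R).next^[i] d.symm).symm = sz R (R.next^[n - i] d).symm := by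
  rw [mir_iter, SimpleGraph.Dart.symm_symm, SimpleGraph.Dart.symm_symm, sz_mir, prev_iter R h hi]

/-- Near darts in the mirror image. -/
theorem near_mir {R : Rot G} {k : ℕ} {d e : G.Dart} (h : Near (mir R) k d e) :
    Near R k d.symm e.symm := by
  induction k generalizing e with
  | zero =>
    obtain rfl : e = d := h
    exact Near.refl R 0 _
  | succ k ih =>
    obtain ⟨x, hx, h1⟩ := h
    have h2 := ih hx
    rcases h1 with rfl | rfl | rfl | rfl
    · exact h2.succ
    · rw [mir_next, SimpleGraph.Dart.symm_symm]
      exact h2.prev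
    · rw [mir_prev, SimpleGraph.Dart.symm_symm]
      exact h2.next
    · exact h2.symm'

end Pool.Agent.Disch392
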