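import Mathlib
import Pool.Agent.Work.MP_392c8e_co_uni.Mirror

/-!
# Two neighbours of length five at distance two: a legal place is near
-/

namespace Pool.Agent.Disch392

open Finset Pool.Agent.Sub392 Pool.Agent.T392

set_option linter.unusedSectionVars false

variable {V : Type} [Fintype V] [DecidableEq V] {G : SimpleGraph V} [DecidableRel G.Adj]

/-- The size of the face across the `i`-th edge of the face of `d`. -/
noncomputable def nb (R : Rot G) (d : G.Dart) (i : ℕ) : ℕ := sz R (R.next^[i] d).symm

/-- The dart of the neighbouring face. -/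
def ad (R : Rot G) (d : G.Dart) (i : ℕ) : G.Dart := (R.next^[i] d).symm

theorem sz_ad (R : Rot G) (d : G.Dart) (i : ℕ) : sz R (ad R d i) = nb R d i := rfl

theorem nb_ad_zero (R : Rot G) (d : G.Dart) (i : ℕ) : nb R (ad R d i) 0 = sz R d := by
  unfold nb ad
  rw [Function.iterate_zero, id, SimpleGraph.Dart.symm_symm, sz_iter]

theorem iter_add (R : Rot G) (d : G.Dart) (i j : ℕ) :
    R.next^[j] (R.next^[i] d) = R.next^[i + j] d := by
  rw [← Function.iterate_add_apply, Nat.add_comm]

theorem nb_iter (R : Rot G) (d : G.Dart) (i j : ℕ) : nb R (R.next^[i] d) j = nb R d (i + j) := by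
  unfold nb
  rw [iter_add]

theorem ad_iter (R : Rot G) (d : G.Dart) (i j : ℕ) : ad R (R.next^[i] d) j = ad R d (i + j) := by
  unfold ad
  rw [iter_add]

theorem iter_per (R : Rot G) {d : G.Dart} {n : ℕ} (h : sz R d = n) (i : ℕ) :
    R.next^[i + n] d = R.next^[i] d := by
  have := next_sz R d
  rw [h] at this
  rw [Function.iterate_add_apply, this]

theorem nb_per (R : Rot G) {d : G.Dart} {n : ℕ} (h : sz R d = n) (i : ℕ) :
    nb R d (i + n) = nb R d i := by
  unfold nb
  rw [iter_per R h]

theorem ad_per (R : Rot G) {d : G.Dart} {n : ℕ} (h : sz R d = n) (i : ℕ) :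
    ad R d (i + n) = ad R d i := by
  unfold ad
  rw [iter_per R h]

/-- The second neighbour of a neighbour is the preceding neighbour. -/
theorem nb_ad_one {R : Rot G} (h3 : ∀ v, G.degree v = 3) (d : G.Dart) (i : ℕ) :
    nb R (ad R d (i + 1)) 1 = nb R d i := by
  unfold nb ad
  rw [Function.iterate_one, sz_next_symm (h3 _), Function.iterate_succ_apply', prev_next]

/-- The last neighbour of a neighbour is the following neighbour. -/
theorem nb_ad_last {R : Rot G} (h3 : ∀ v, G.degree v = 3) (d : G.Dart) {i n : ℕ}
    (h : nb R d i = n + 1) : nb R (ad R d i) n = nb R d (i + 1) := by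
  have hs : sz R (ad R d i) = n + 1 := h
  have h1 : R.next^[n] (ad R d i) = prev R (ad R d i) := by
    have h2 := next_sz R (ad R d i)
    rw [hs, Function.iterate_succ_apply'] at h2
    rw [← prev_next R (R.next^[n] (ad R d i)), h2]
  unfold nb
  rw [h1]
  unfold ad
  have := sz_prev_symm (R := R) (d := R.next (R.next^[i] d)) (h3 _)
  rw [prev_next] at this
  rw [this, Function.iterate_succ_apply']

/-! ### Mirror images -/

theorem nb_mir (R : Rot G) {d : G.Dart} {n i : ℕ} (h : sz R d = n) (hi : i ≤ n) :
    nb (mir R) d.symm i = nb R d (n - i) := sz_mir_iter R h hi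

theorem ad_mir (R : Rot G) {d : G.Dart} {n i : ℕ} (h : sz R d = n) (hi : i ≤ n) :
    ad (mir R) d.symm i = (ad R d (n - i)).symm := by
  unfold ad
  rw [mir_iter, SimpleGraph.Dart.symm_symm, SimpleGraph.Dart.symm_symm, prev_iter R h hi,
    SimpleGraph.Dart.symm_symm]

/-! ### The lines of the table for clusters

The dart `d` is a dart of `P2`; across `d` there is `F`, across the next edges `P3`, `O2`, `O1`,
`P1`.  The darts `ad R d 1` and `ad R d 4` belong to `P3` and `P1`; the neighbours of `P3` are
`P2, F, Rr, O3, O2` and the neighbours of `P1` are `P2, O1, O0, L, F`. -/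

/-- Three faces of length five in a chain. -/
structure Chain (R : Rot G) (d : G.Dart) : Prop where
  p2 : sz R d = 5
  p3 : nb R d 1 = 5
  p1 : nb R d 4 = 5

/-- The lines of the table for clusters: `P v` says that there is a legal place near `v`. -/
structure TabC (R : Rot G) (P : V → Prop) : Prop where
  m3 : ∀ d, Chain R d → nb R (ad R d 4) 2 ≠ 5 → nb R (ad R d 1) 3 ≠ 5 → P d.fst
  m2 : ∀ d, Chain R d → nb R (ad R d 4) 2 ≠ 5 → nb R (ad R d 1) 3 = 5 →
    ¬ (nb R d 0 = 5 ∧ nb R d 2 = 5) → P d.fst
  m6 : ∀ d, Chain R d → nb R (ad R d 4) 2 ≠ 5 → nb R (ad R d 1) 3 = 5 →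
    nb R d 0 = 5 → nb R d 2 = 5 → nb R (ad R d 1) 2 ≠ 5 → P d.fst
  flower : ∀ d, sz R d = 5 → (∀ i < 5, nb R d i = 5) → P d.fst
  z4 : ∀ d, Chain R d → nb R (ad R d 4) 2 = 5 → ¬ (nb R d 0 = 5 ∧ nb R d 2 = 5) →
    ¬ (nb R d 3 = 5 ∧ nb R (ad R d 4) 3 = 5) → P d.fst

theorem Chain.mir {R : Rot G} {d : G.Dart} (h : Chain R d) : Chain (mir R) d.symm where
  p2 := by rw [sz_mir_symm]; exact h.p2
  p3 := by rw [nb_mir R h.p2 (by norm_num)]; exact h.p1
  p1 := by rw [nb_mir R h.p2 (by norm_num)]; exact h.p3

/-- One side is not of length five. -/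
theorem TabC.side {R : Rot G} {P : V → Prop} (hT : TabC R P) (h3 : ∀ v, G.degree v = 3)
    {d : G.Dart} (h : Chain R d) (h0 : nb R (ad R d 4) 2 ≠ 5) :
    ∃ e, Near R 9 d e ∧ P e.fst := by
  by_cases h1 : nb R (ad R d 1) 3 = 5
  · by_cases h2 : nb R d 0 = 5 ∧ nb R d 2 = 5
    · by_cases h4 : nb R (ad R d 1) 2 = 5
      · -- the face `P3` is a flower
        refine ⟨ad R d 1, ?_, hT.flower _ h.p3 fun i hi => ?_⟩
        · exact (((Near.refl R 0 d).iter 1).symm').mono (by norm_num)
        · interval_cases i
          · rw [nb_ad_zero]; exact h.p2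
          · rw [nb_ad_one h3 d 0]; exact h2.1
          · exact h4
          · exact h1
          · rw [nb_ad_last h3 d h.p3]; exact h2.2
      · exact ⟨d, Near.refl R 9 d, hT.m6 d h h0 h1 h2.1 h2.2 h4⟩
    · exact ⟨d, Near.refl R 9 d, hT.m2 d h h0 h1 h2⟩
  · exact ⟨d, Near.refl R 9 d, hT.m3 d h h0 h1⟩

/-- Near darts with a symmetric statement. -/
theorem near_of_mir {R : Rot G} {P : V → Prop} {d : G.Dart} {k : ℕ}
    (h : ∃ e, Near (mir R) k d.symm e ∧ P e.fst) : ∃ e, Near R (k + 1) d e ∧ P e.fst := by
  obtain ⟨e, he, hP⟩ := h
  have h1 := near_mir he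
  rw [SimpleGraph.Dart.symm_symm] at h1
  exact ⟨e, by simpa using h1.symm', hP⟩

/-- **A legal place near a chain of three faces of length five.** -/
theorem TabC.chain {R : Rot G} {P : V → Prop} (hT : TabC R P) (hT' : TabC (mir R) P)
    (h3 : ∀ v, G.degree v = 3) {d : G.Dart} (h : Chain R d) :
    ∃ e, Near R 10 d e ∧ P e.fst := by
  have n1 : Near R 10 d d := Near.refl R 10 d
  by_cases h0 : nb R (ad R d 4) 2 = 5
  · by_cases h1 : nb R (ad R d 1) 3 = 5
    · -- `O0` and `O3` have length five
      have hx : sz R (ad R d 1) = 5 := h.p3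
      have hy : sz R (ad R d 4) = 5 := h.p1
      -- the neighbours of the neighbours
      have x0 : nb R (ad R d 1) 0 = 5 := by rw [nb_ad_zero]; exact h.p2
      have x1 : nb R (ad R d 1) 1 = nb R d 0 := nb_ad_one h3 d 0
      have x4 : nb R (ad R d 1) 4 = nb R d 2 := nb_ad_last h3 d h.p3
      have y0 : nb R (ad R d 4) 0 = 5 := by rw [nb_ad_zero]; exact h.p2
      have y1 : nb R (ad R d 4) 1 = nb R d 3 := nb_ad_one h3 d 3
      have y4 : nb R (ad R d 4) 4 = nb R d 0 := by
        rw [nb_ad_last h3 d h.p1, show (4 + 1) = 0 + 5 from rfl, nb_per R h.p2]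
      by_cases a : nb R d 0 = 5
      · by_cases b : nb R d 2 = 5
        · by_cases c : nb R d 3 = 5
          · -- the face `P2` is a flower
            refine ⟨d, n1, hT.flower d h.p2 fun i hi => ?_⟩
            interval_cases i
            · exact a
            · exact h.p3
            · exact b
            · exact c
            · exact h.p1
          · by_cases e : nb R (ad R d 1) 2 = 5
            · -- the face `P3` is a flower
              refine ⟨ad R d 1, ?_, hT.flower _ hx fun i hi => ?_⟩
              · exact (((Near.refl R 0 d).iter 1).symm').mono (by norm_num)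
              · interval_cases i
                · exact x0
                · rw [x1]; exact a
                · exact e
                · exact h1
                · rw [x4]; exact b
            · -- the mirrored zigzag
              refine near_of_mir (k := 9) ⟨d.symm, Near.refl _ 9 _, hT'.z4 _ h.mir ?_ ?_ ?_⟩
              · rw [ad_mir R h.p2 (by norm_num)]
                show nb (mir R) (ad R d 1).symm 2 = 5
                rw [nb_mir R hx (by norm_num)]
                exact h1
              · rw [nb_mir R h.p2 (by norm_num), nb_mir R h.p2 (by norm_num)]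
                show ¬ (nb R d (0 + 5) = 5 ∧ nb R d 3 = 5)
                exact fun hh => c hh.2
              · rw [nb_mir R h.p2 (by norm_num), ad_mir R h.p2 (by norm_num)]
                show ¬ (nb R d 2 = 5 ∧ nb (mir R) (ad R d 1).symm 3 = 5)
                rw [nb_mir R hx (by norm_num)]
                exact fun hh => e hh.2
        · by_cases c : nb R d 3 = 5 ∧ nb R (ad R d 4) 3 = 5
          · -- the face `P1` is a flower
            refine ⟨ad R d 4, ?_, hT.flower _ hy fun i hi => ?_⟩
            · exact (((Near.refl R 0 d).iter 4).symm').mono (by norm_num)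
            · interval_cases i
              · exact y0
              · rw [y1]; exact c.1
              · exact h0
              · exact c.2
              · rw [y4]; exact a
          · exact ⟨d, n1, hT.z4 d h h0 (fun hh => b hh.2) c⟩
      · -- `F` is not of length five
        by_cases c : nb R d 3 = 5 ∧ nb R (ad R d 4) 3 = 5
        · by_cases e : nb R d 2 = 5 ∧ nb R (ad R d 1) 2 = 5
          · -- the face `O2`
            have hz : sz R (ad R d 2) = 5 := e.1
            have z0 : nb R (ad R d 2) 0 = 5 := by rw [nb_ad_zero]; exact h.p2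
            have z1 : nb R (ad R d 2) 1 = 5 := by rw [nb_ad_one h3 d 1]; exact h.p3
            have z4 : nb R (ad R d 2) 4 = 5 := by rw [nb_ad_last h3 d e.1]; exact c.1
            -- `O3` is the second neighbour of `O2`
            have z2 : nb R (ad R d 2) 2 = 5 := by
              -- the dart `ad R d 2` follows the reversed dart `R.next^[4] (ad R d 1)`
              have k1 : R.next (ad R d 2) = ad R (ad R d 1) 4 := by
                unfold ad
                have k2 : R.next^[4] (R.next^[1] d).symm = prev R (R.next^[1] d).symm := by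
                  have h2 := next_sz R (ad R d 1)
                  rw [hx, Function.iterate_succ_apply'] at h2
                  have h4 := prev_next R (R.next^[4] (ad R d 1))
                  rw [h2] at h4
                  exact h4.symm
                rw [k2]
                have k3 : R.next^[2] d = R.next (R.next^[1] d) := Function.iterate_succ_apply' _ _ _
                rw [k3, ← rot_rot_symm (d := (R.next^[1] d).symm) (h3 _)]
                have k4 : R.rot (R.next^[1] d).symm = R.next (R.next^[1] d) := rfl
                rw [k4]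
                rfl
              have k2 : nb R (ad R d 2) 2 = nb R (ad R (ad R d 1) 4) 1 := by
                rw [← k1]
                show _ = nb R (R.next^[1] (ad R d 2)) 1
                rw [nb_iter]
              rw [k2, nb_ad_one h3 _ 3]
              exact h1
            by_cases s : nb R (ad R d 2) 3 = 5
            · refine ⟨ad R d 2, ?_, hT.flower _ hz fun i hi => ?_⟩
              · exact (((Near.refl R 0 d).iter 2).symm').mono (by norm_num)
              · interval_cases i <;> assumption
            · -- the zigzag across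
              have hc : Chain R (R.next^[3] d) := by
                refine ⟨by rw [sz_iter]; exact h.p2, ?_, ?_⟩
                · rw [nb_iter]; exact h.p1
                · rw [nb_iter, show 3 + 4 = 2 + 5 from rfl, nb_per R h.p2]; exact e.1
              refine ⟨R.next^[3] d, ((Near.refl R 0 d).iter 3).mono (by norm_num),
                hT.z4 _ hc ?_ ?_ ?_⟩
              · rw [ad_iter, show 3 + 4 = 2 + 5 from rfl, ad_per R h.p2]; exact z2
              · rw [nb_iter, nb_iter, show 3 + 2 = 0 + 5 from rfl, nb_per R h.p2]
                exact fun hh => a hh.2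
              · rw [ad_iter, show 3 + 4 = 2 + 5 from rfl, ad_per R h.p2]
                exact fun hh => s hh.2
          · -- the mirrored zigzag
            refine near_of_mir (k := 9) ⟨d.symm, Near.refl _ 9 _, hT'.z4 _ h.mir ?_ ?_ ?_⟩
            · rw [ad_mir R h.p2 (by norm_num)]
              show nb (mir R) (ad R d 1).symm 2 = 5
              rw [nb_mir R hx (by norm_num)]
              exact h1
            · rw [nb_mir R h.p2 (by norm_num), nb_mir R h.p2 (by norm_num)]
              show ¬ (nb R d (0 + 5) = 5 ∧ nb R d 3 = 5)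
              rw [nb_per R h.p2]
              exact fun hh => a hh.1
            · rw [nb_mir R h.p2 (by norm_num), ad_mir R h.p2 (by norm_num)]
              show ¬ (nb R d 2 = 5 ∧ nb (mir R) (ad R d 1).symm 3 = 5)
              rw [nb_mir R hx (by norm_num)]
              exact e
        · exact ⟨d, n1, hT.z4 d h h0 (fun hh => a hh.1) c⟩
    · -- the mirror image of the first case
      refine near_of_mir (hT'.side h3 h.mir ?_)
      rw [ad_mir R h.p2 (by norm_num)]
      show nb (mir R) (ad R d 1).symm 2 ≠ 5
      have hx : sz R (ad R d 1) = 5 := h.p3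
      rw [nb_mir R hx (by norm_num)]
      exact h1
  · obtain ⟨e, he, hP⟩ := hT.side h3 h h0
    exact ⟨e, he.succ, hP⟩

end Pool.Agent.Disch392
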