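import Mathlib
import Pool.Agent.Work.MP_392c8e_co_uni.Cluster
import Pool.Agent.Work.MP_392c8e_co_uni.ChainRot

/-!
# Chains of faces of length five: the lines M3 and M6 are not needed
-/

namespace Pool.Agent.Disch392

open Finset Pool.Agent.Sub392 Pool.Agent.T392 Pool.Agent.U2Chain

set_option linter.unusedSectionVars false

variable {V : Type} [Fintype V] [DecidableEq V] {G : SimpleGraph V} [DecidableRel G.Adj]

/-- The three lines of the table for clusters. -/
structure TabD (R : Rot G) (P : V → Prop) : Prop where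
  m2 : ∀ d, Chain R d → nb R (ad R d 4) 2 ≠ 5 → ¬ (nb R d 0 = 5 ∧ nb R d 2 = 5) → P d.fst
  flower : ∀ d, sz R d = 5 → (∀ i < 5, nb R d i = 5) → P d.fst
  z4 : ∀ d, Chain R d → nb R (ad R d 4) 2 = 5 → ¬ (nb R d 0 = 5 ∧ nb R d 2 = 5) →
    ¬ (nb R d 3 = 5 ∧ nb R (ad R d 4) 3 = 5) → P d.fst

/-- The darts of a face of length five. -/
theorem next5 {R : Rot G} {d : G.Dart} (h : sz R d = 5) :
    R.next (R.next (R.next (R.next (R.next d)))) = d := by
  have := next_sz R d
  rw [h] at this
  exact this

theorem prev5 {R : Rot G} {d : G.Dart} (h : sz R d = 5) :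
    R.next (R.next (R.next (R.next d))) = prev R d := by
  have := congrArg (prev R) (next5 h)
  rwa [prev_next] at this

theorem prev25 {R : Rot G} {d : G.Dart} (h : sz R d = 5) :
    R.next (R.next (R.next d)) = prev R (prev R d) := by
  have := congrArg (prev R) (prev5 h)
  rwa [prev_next] at this

/-- The line `m2` in the form of the closure. -/
theorem TabD.cc {R : Rot G} {P : V → Prop} (hT : TabD R P) {d : G.Dart}
    (h : CC SimpleGraph.Dart.symm R.next (prev R) (sz R) d) : P (R.next d).fst := by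
  obtain ⟨h5, h0, h2, hO, hF⟩ := h
  have e4 : ad R (R.next d) 4 = d.symm := by
    show (R.next (R.next (R.next (R.next (R.next d))))).symm = _
    rw [next5 h5]
  refine hT.m2 (R.next d) ⟨by rw [sz_next]; exact h5, h2, ?_⟩ ?_ ?_
  · show sz R (ad R (R.next d) 4) = 5
    rw [e4]; exact h0
  · rw [e4]; exact hO
  · rintro ⟨a, b⟩
    refine hF a ?_
    rw [← prev25 h5]
    exact b

/-- The line `z4` in the form of the closure. -/
theorem TabD.zz {R : Rot G} {P : V → Prop} (hT : TabD R P) (h3 : ∀ v, G.degree v = 3)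
    {d : G.Dart} (h : ZZ SimpleGraph.Dart.symm R.next (prev R) (sz R) d) :
    P (R.next d).fst := by
  obtain ⟨h5, h0, h2, hO, hF, hL⟩ := h
  have e4 : ad R (R.next d) 4 = d.symm := by
    show (R.next (R.next (R.next (R.next (R.next d))))).symm = _
    rw [next5 h5]
  refine hT.z4 (R.next d) ⟨by rw [sz_next]; exact h5, h2, ?_⟩ ?_ ?_ ?_
  · show sz R (ad R (R.next d) 4) = 5
    rw [e4]; exact h0
  · rw [e4]; exact hO
  · rintro ⟨a, b⟩
    refine hF a ?_
    rw [← prev25 h5]
    exact b
  · rintro ⟨a, b⟩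
    rw [e4] at b
    refine hL ?_ ?_
    · rw [(mp h3).s1, ← prev5 h5]
      exact a
    · rw [← prev25 h0]
      exact b

theorem cc_mir {R : Rot G} {d : G.Dart}
    (h : CC SimpleGraph.Dart.symm (prev R) R.next (sz R) d) :
    CC SimpleGraph.Dart.symm (mir R).next (prev (mir R)) (sz (mir R)) d.symm := by
  unfold CC at h ⊢
  simp only [mir_next, mir_prev, sz_mir, SimpleGraph.Dart.symm_symm] at h ⊢
  exact h

theorem zz_mir {R : Rot G} {d : G.Dart}
    (h : ZZ SimpleGraph.Dart.symm (prev R) R.next (sz R) d) :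
    ZZ SimpleGraph.Dart.symm (mir R).next (prev (mir R)) (sz (mir R)) d.symm := by
  unfold ZZ at h ⊢
  simp only [mir_next, mir_prev, sz_mir, SimpleGraph.Dart.symm_symm] at h ⊢
  exact h

/-- **A legal place near a chain of three faces of length five.** -/
theorem TabD.chain {R : Rot G} {P : V → Prop} (hT : TabD R P) (hT' : TabD (mir R) P)
    (h3 : ∀ v, G.degree v = 3) {d : G.Dart} (h : Chain R d) :
    ∃ e, Near R 10 d e ∧ P e.fst := by
  -- the dart of `P2` across which there is `P1`
  have h5 := h.p2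
  obtain ⟨x, hx, hr⟩ := chain_rot (R := R) h3 (e := R.next^[4] d) (by rw [sz_iter]; exact h5) h.p1 (by
    rw [iter_add]
    show nb R d (1 + 5) = 5
    rw [nb_per R h5]
    exact h.p3)
  have hn : R.next^[4] d = prev R d := prev5 h5
  rw [hn] at hx
  have key : ∀ k y, Near R k (prev R d) y → Near R (1 + k) d y := by
    intro k
    induction k with
    | zero =>
      intro y hy
      have hy' : y = prev R d := hy
      rw [hy']
      exact (Near.refl R 0 d).prev
    | succ k ih =>
      intro y hy
      obtain ⟨z, hz, h1⟩ := hy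
      exact ⟨z, ih z hz, h1⟩
  have hx' : Near R 7 d x := key 6 x hx
  have hmir : ∀ z, Near R 7 d z → P ((mir R).next z.symm).fst → ∃ e, Near R 10 d e ∧ P e.fst := by
    intro z hz hP
    refine ⟨(mir R).next z.symm, ?_, hP⟩
    rw [mir_next, SimpleGraph.Dart.symm_symm]
    exact (hz.prev.symm').mono (by norm_num)
  rcases hr with hr | hr | hr | hr | hr
  · exact ⟨R.next x, (hx'.next).mono (by norm_num), hT.cc hr⟩
  · exact hmir x hx' (hT'.cc (cc_mir hr))
  · exact ⟨R.next x, (hx'.next).mono (by norm_num), hT.zz h3 hr⟩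
  · exact hmir x hx' (hT'.zz h3 (zz_mir hr))
  · refine ⟨x, hx'.mono (by norm_num), hT.flower x hr.1 fun i hi => ?_⟩
    obtain ⟨f0, f1, f2, f3, f4, f5⟩ := hr
    interval_cases i
    · exact f1
    · exact f2
    · exact f3
    · show sz R (R.next (R.next (R.next x))).symm = 5
      rw [prev25 f0]; exact f4
    · show sz R (R.next (R.next (R.next (R.next x)))).symm = 5
      rw [prev5 f0]; exact f5

end Pool.Agent.Disch392
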