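import Mathlib
import Pool.Agent.Work.MP_392c8e_co_uni.ClusterM2

/-!
# A configuration gives a legal place or a pattern
-/

namespace Pool.Agent.Disch392

open Finset Pool.Agent.Sub392 Pool.Agent.T392

set_option linter.unusedSectionVars false

variable {V : Type} [Fintype V] [DecidableEq V] {G : SimpleGraph V} [DecidableRel G.Adj]

theorem Near.trans {R : Rot G} {k l : ℕ} {d e f : G.Dart} (h : Near R k d e) (h' : Near R l e f) :
    Near R (k + l) d f := by
  induction l generalizing f with
  | zero =>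
    obtain rfl : f = e := h'
    exact h
  | succ l ih =>
    obtain ⟨x, hx, h1⟩ := h'
    exact ⟨x, ih hx, h1⟩

/-- No chain of three faces of length five near the dart. -/
def NoC (R : Rot G) (d : G.Dart) : Prop := ∀ e, Near R 12 d e → ¬ Chain R e

/-- No face of length five near the dart has a neighbour of length five and one of length six. -/
def No6 (R : Rot G) (d : G.Dart) : Prop := ∀ e, Near R 12 d e → sz R e = 5 → nb R e 0 = 5 →
  ∀ j < 5, nb R e j ≠ 6

theorem near_mir' {R : Rot G} {k : ℕ} {d e : G.Dart} (h : Near (mir R) k d.symm e) :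
    Near R k d e.symm := by
  have := near_mir h
  rwa [SimpleGraph.Dart.symm_symm] at this

theorem NoC.mir {R : Rot G} {d : G.Dart} (h : NoC R d) : NoC (mir R) d.symm := by
  intro e he hc
  exact h e.symm (near_mir' he) hc.mir

theorem No6.mir {R : Rot G} {d : G.Dart} (h : No6 R d) : No6 (mir R) d.symm := by
  intro e he h1 h2 j hj
  rw [sz_mir] at h1
  have e1 : ∀ i ≤ 5, nb (Disch392.mir R) e i = nb R e.symm (5 - i) := fun i hi => by
    have := nb_mir R h1 hi
    rwa [SimpleGraph.Dart.symm_symm] at this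
  have h3 : nb R e.symm 0 = 5 := by
    rw [e1 0 (by norm_num), show 5 - 0 = 0 + 5 from rfl, nb_per R h1] at h2
    exact h2
  rw [e1 j (by omega)]
  have h4 := h e.symm (near_mir' he) h1 h3
  rcases Nat.eq_zero_or_pos j with rfl | hj0
  · rw [show 5 - 0 = 0 + 5 from rfl, nb_per R h1, h3]
    norm_num
  · exact h4 (5 - j) (by omega)

/-- The other lines of the table: `P v` says that there is a legal place near `v`.  In the lines
for faces of length five no chain of three faces of length five is near; in the lines for faces of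
length seven moreover no face of length five has neighbours of lengths five and six. -/
structure Tab (R : Rot G) (P : V → Prop) : Prop extends TabD R P where
  /-- two faces of length five and one of length six, mutually adjacent -/
  r2 : ∀ d, NoC R d → sz R d = 5 → nb R d 0 = 5 → nb R d 1 = 6 → P d.fst
  /-- two faces of length five and one of length six, adjacent to the first one only -/
  l2 : ∀ d, NoC R d → sz R d = 5 → nb R d 0 = 5 → nb R d 2 = 6 → P d.fst
  t3 : ∀ d, NoC R d → No6 R d → sz R d = 7 → nb R d 0 = 5 → nb R d 1 = 5 →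
    2 ≤ c5 R (ad R d 0) → 2 ≤ c5 R (ad R d 1) → nb R d 3 = 5 → P d.fst
  t4 : ∀ d, NoC R d → No6 R d → sz R d = 7 → nb R d 0 = 5 → nb R d 1 = 5 →
    2 ≤ c5 R (ad R d 0) → 2 ≤ c5 R (ad R d 1) → nb R d 4 = 5 → P d.fst
  p1 : ∀ d, NoC R d → No6 R d → sz R d = 7 → nb R d 0 = 5 → nb R d 1 = 5 → nb R d 3 = 5 →
    nb R d 4 = 5 → P d.fst
  p2 : ∀ d, NoC R d → No6 R d → sz R d = 7 → nb R d 0 = 5 → nb R d 1 = 5 → nb R d 3 = 5 →
    nb R d 5 = 5 → P d.fst
  g3 : ∀ d, NoC R d → No6 R d → sz R d = 7 → nb R d 0 = 5 → nb R d 2 = 5 → nb R d 4 = 5 →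
    c5 R (ad R d 0) = 0 → c5 R (ad R d 2) = 0 → c5 R (ad R d 4) = 0 → P d.fst

/-- The number of neighbours of length five in the mirror image. -/
theorem c5_mir (R : Rot G) {d : G.Dart} (h : sz R d = 5) : c5 (mir R) d.symm = c5 R d := by
  have e1 : ∀ i ≤ 5, nb (mir R) d.symm i = nb R d (5 - i) := fun i hi => nb_mir R h hi
  have e2 : c5 (mir R) d.symm = #{i ∈ range 5 | nb (mir R) d.symm i = 5} := rfl
  have e3 : c5 R d = #{i ∈ range 5 | nb R d i = 5} := rfl
  rw [e2, e3, card_filter, card_filter]
  simp only [sum_range_succ, sum_range_zero]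
  rw [e1 0 (by norm_num), e1 1 (by norm_num), e1 2 (by norm_num), e1 3 (by norm_num),
    e1 4 (by norm_num)]
  rw [show 5 - 0 = 0 + 5 from rfl, nb_per R h]
  simp only [Nat.add_one_sub_one, Nat.reduceSub]
  ring

/-- The pattern of two consecutive hexagons at an isolated face of length five. -/
def Pat7 (R : Rot G) (e : G.Dart) : Prop :=
  sz R e = 5 ∧ nb R e 0 = 6 ∧ nb R e 1 = 6 ∧ ∀ i < 5, nb R e i ≠ 5

/-- **A configuration gives a legal place or a pattern.** -/
theorem Tab.occ {R : Rot G} {P : V → Prop} (hT : Tab R P) (hT' : Tab (mir R) P)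
    (h3 : ∀ v, G.degree v = 3) (h5 : ∀ d, 5 ≤ sz R d) {e : G.Dart} (h : ¬ LocOK R e) :
    (∃ x, Near R 40 e x ∧ P x.fst) ∨ Pat7 R e := by
  by_contra hcon
  push Not at hcon
  obtain ⟨hno, hpat⟩ := hcon
  -- no chain near
  have hC : ∀ k ≤ 30, ∀ x, Near R k e x → ¬ Chain R x := by
    intro k hk x hx hc
    obtain ⟨y, hy, hP⟩ := hT.toTabD.chain hT'.toTabD h3 hc
    exact hno y ((hx.trans hy).mono (by omega)) hP
  have hNoC : ∀ x, Near R 18 e x → NoC R x := fun x hx y hy =>
    hC 30 (by norm_num) y ((hx.trans hy).mono (by norm_num))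
  -- no neighbours of lengths five and six
  have h6 : ∀ x, Near R 17 e x → sz R x = 5 → nb R x 0 = 5 → ∀ j < 5, nb R x j ≠ 6 := by
    intro x hx h1 h2 j hj hj6
    have hn : NoC R x := hNoC x hx.succ
    have e1 : ∀ i ≤ 5, nb (mir R) x.symm i = nb R x (5 - i) := fun i hi => nb_mir R h1 hi
    have m0 : nb (mir R) x.symm 0 = 5 := by
      rw [e1 0 (by norm_num), show 5 - 0 = 0 + 5 from rfl, nb_per R h1]; exact h2
    have ms : sz (mir R) x.symm = 5 := by rw [sz_mir_symm]; exact h1
    have hx' : Near R 40 e x.symm := hx.symm'.mono (by norm_num)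
    interval_cases j
    · omega
    · exact hno x (hx.mono (by norm_num)) (hT.r2 x hn h1 h2 hj6)
    · exact hno x (hx.mono (by norm_num)) (hT.l2 x hn h1 h2 hj6)
    · exact hno x.symm hx' (hT'.l2 x.symm hn.mir ms m0 (by rw [e1 2 (by norm_num)]; exact hj6))
    · exact hno x.symm hx' (hT'.r2 x.symm hn.mir ms m0 (by rw [e1 1 (by norm_num)]; exact hj6))
  apply h
  refine ⟨h5 e, fun hs => ?_, fun hs => ?_⟩
  · -- faces of length five
    refine ⟨h5 _, fun h0 h2 => ?_, fun h0 => h6 e (Near.refl R 17 e) hs h0, fun h0 h1 => ?_⟩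
    · -- a chain
      refine hC 30 le_rfl (R.next e) ?_ ⟨by rw [sz_next]; exact hs, ?_, ?_⟩
      · exact ((Near.refl R 0 e).next).mono (by norm_num)
      · exact h2
      · have := nb_iter R e 1 4
        rw [Function.iterate_one] at this
        rw [this, show 1 + 4 = 0 + 5 from rfl, nb_per R hs]
        exact h0
    · -- the pattern
      apply hpat
      refine ⟨hs, h0, h1, fun i hi h5' => ?_⟩
      have h7 : Near R 17 e (R.next^[i] e) := ((Near.refl R 0 e).iter i).mono (by omega)
      have h8 := h6 _ h7 (by rw [sz_iter]; exact hs) (by rw [nb_iter]; exact h5') (5 - i)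
      rcases Nat.eq_zero_or_pos i with rfl | hi0
      · have h9 : nb R e 0 = 6 := h0
        omega
      · have h9 := h8 (by omega)
        rw [nb_iter, show i + (5 - i) = 0 + 5 by omega, nb_per R hs] at h9
        exact h9 h0
  · -- faces of length seven
    have hn : ∀ k ≤ 1, NoC R (R.next^[k] e) := fun k hk =>
      hNoC _ (((Near.refl R 0 e).iter k).mono (by omega))
    have hm : ∀ k ≤ 1, No6 R (R.next^[k] e) := fun k hk y hy =>
      h6 y ((((Near.refl R 0 e).iter k).trans hy).mono (by omega))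
    have nR : Near R 40 e e := Near.refl R 40 e
    refine ⟨?_, ?_, ?_, ?_, ?_, ?_⟩
    · intro a b c d f
      exact hno e nR (hT.t3 e (hn 0 (by norm_num)) (hm 0 (by norm_num)) hs a b c d f)
    · intro a b c d f
      exact hno e nR (hT.t4 e (hn 0 (by norm_num)) (hm 0 (by norm_num)) hs a b c d f)
    · intro a b c d f
      -- the mirror image of the first line
      have hx : sz R (R.next e) = 7 := by rw [sz_next]; exact hs
      have e1 : ∀ i ≤ 7, nb (mir R) (R.next e).symm i = nb R (R.next e) (7 - i) :=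
        fun i hi => nb_mir R hx hi
      have e2 : ∀ j, nb R (R.next e) j = nb R e (1 + j) := fun j => nb_iter R e 1 j
      have e3 : ∀ i ≤ 7, ad (mir R) (R.next e).symm i = (ad R (R.next e) (7 - i)).symm :=
        fun i hi => ad_mir R hx hi
      have e4 : ∀ j, ad R (R.next e) j = ad R e (1 + j) := fun j => ad_iter R e 1 j
      refine hno (R.next e).symm ?_ (hT'.t3 _ (hn 1 le_rfl).mir (hm 1 le_rfl).mir
        (by rw [sz_mir_symm]; exact hx) ?_ ?_ ?_ ?_ ?_)
      · exact (((Near.refl R 0 e).next).symm').mono (by norm_num)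
      · rw [e1 0 (by norm_num), e2, show 1 + (7 - 0) = 1 + 7 from rfl, nb_per R hs]; exact b
      · rw [e1 1 (by norm_num), e2, show 1 + (7 - 1) = 0 + 7 from rfl, nb_per R hs]; exact a
      · rw [e3 0 (by norm_num), e4, show 1 + (7 - 0) = 1 + 7 from rfl, ad_per R hs, c5_mir R]
        · exact d
        · exact b
      · rw [e3 1 (by norm_num), e4, show 1 + (7 - 1) = 0 + 7 from rfl, ad_per R hs, c5_mir R]
        · exact c
        · exact a
      · rw [e1 3 (by norm_num), e2]; exact f
    · rintro ⟨a, b, c, d⟩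
      exact hno e nR (hT.p1 e (hn 0 (by norm_num)) (hm 0 (by norm_num)) hs a b c d)
    · rintro ⟨a, b, c, d⟩
      exact hno e nR (hT.p2 e (hn 0 (by norm_num)) (hm 0 (by norm_num)) hs a b c d)
    · rintro ⟨a, b, c, d, f, k⟩
      exact hno e nR (hT.g3 e (hn 0 (by norm_num)) (hm 0 (by norm_num)) hs a b c d f k)

end Pool.Agent.Disch392
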