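import Mathlib
import Pool.Agent.Work.MP_392c8e_co_uni.Occ

/-!
# Long faces: senders, exceptional darts and local configurations (stage B)

`K` is the threshold: a face is long if its length is at least `K`.
-/

namespace Pool.Agent.DischB

open Finset Pool.Agent.Sub392 Pool.Agent.T392 Pool.Agent.Disch392

set_option linter.unusedSectionVars false

variable {V : Type} [Fintype V] [DecidableEq V] {G : SimpleGraph V} [DecidableRel G.Adj]

/-- The dart is in a face of length five all of whose neighbours are short. -/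
def Bf (R : Rot G) (K : ℕ) (d : G.Dart) : Prop := sz R d = 5 ∧ ∀ i < 5, nb R d i < K

/-- The exceptional dart `d` of a face `p` of length five without long neighbour: across it is a
face `q` of length five, and round `q` at distance two from `p` a face `t` of length five with three
consecutive long neighbours, the last of them adjacent to `q`. -/
def X1 (R : Rot G) (K : ℕ) (d : G.Dart) : Prop :=
  Bf R K d ∧ nb R d 0 = 5 ∧ nb R (ad R d 0) 2 = 5 ∧ K ≤ nb R (ad R (ad R d 0) 2) 2 ∧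
    K ≤ nb R (ad R (ad R d 0) 2) 3 ∧ K ≤ nb R (ad R (ad R d 0) 2) 4

/-- The mirror image. -/
def X2 (R : Rot G) (K : ℕ) (d : G.Dart) : Prop :=
  Bf R K d ∧ nb R d 0 = 5 ∧ nb R (ad R d 0) 3 = 5 ∧ K ≤ nb R (ad R (ad R d 0) 3) 1 ∧
    K ≤ nb R (ad R (ad R d 0) 3) 2 ∧ K ≤ nb R (ad R (ad R d 0) 3) 3

/-- The senders: faces of length five without long neighbour and without exceptional dart. -/
def Snd (R : Rot G) (K : ℕ) (d : G.Dart) : Prop :=
  Bf R K d ∧ ∀ i < 5, ¬ X1 R K (R.next^[i] d) ∧ ¬ X2 R K (R.next^[i] d)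

/-- The dart is in a face of length five, the face across it is long, and it is the only long
neighbour. -/
def One (R : Rot G) (K : ℕ) (d : G.Dart) : Prop :=
  sz R d = 5 ∧ K ≤ nb R d 0 ∧ ∀ i, 1 ≤ i → i < 5 → nb R d i < K

/-- The local conditions at a dart of a face of length five. -/
structure LocB5 (R : Rot G) (K : ℕ) (e : G.Dart) : Prop where
  two : Bf R K e → nb R e 0 = 5 → nb R e 2 ≠ 5
  end1 : Bf R K e → nb R e 0 = 5 → nb R (ad R e 0) 2 = 5 → X1 R K e
  end2 : Bf R K e → nb R e 0 = 5 → nb R (ad R e 0) 3 = 5 → X2 R K e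
  six : Snd R K e → nb R e 0 = 5 → ∀ j < 5, nb R e j ≠ 6
  hex : Snd R K e → nb R e 0 = 6 → nb R e 1 ≠ 6

/-- The local conditions at a dart of a face of length seven. -/
structure LocB7 (R : Rot G) (K : ℕ) (e : G.Dart) : Prop where
  t3 : Snd R K (ad R e 0) → Snd R K (ad R e 1) → 2 ≤ c5 R (ad R e 0) → 2 ≤ c5 R (ad R e 1) →
    ¬ Snd R K (ad R e 3)
  t4 : Snd R K (ad R e 0) → Snd R K (ad R e 1) → 2 ≤ c5 R (ad R e 0) → 2 ≤ c5 R (ad R e 1) →
    ¬ Snd R K (ad R e 4)
  t5 : Snd R K (ad R e 0) → Snd R K (ad R e 1) → 2 ≤ c5 R (ad R e 0) → 2 ≤ c5 R (ad R e 1) →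
    ¬ Snd R K (ad R e 5)
  p1 : ¬ (Snd R K (ad R e 0) ∧ Snd R K (ad R e 1) ∧ Snd R K (ad R e 3) ∧ Snd R K (ad R e 4))
  p2a : ¬ (Snd R K (ad R e 0) ∧ nb R e 1 = 5 ∧ Snd R K (ad R e 3) ∧ Snd R K (ad R e 5))
  p2b : ¬ (nb R e 0 = 5 ∧ Snd R K (ad R e 1) ∧ Snd R K (ad R e 3) ∧ Snd R K (ad R e 5))
  g3 : ¬ (Snd R K (ad R e 0) ∧ Snd R K (ad R e 2) ∧ Snd R K (ad R e 4) ∧
    c5 R (ad R e 0) = 0 ∧ c5 R (ad R e 2) = 0 ∧ c5 R (ad R e 4) = 0)

/-- There is no configuration at the dart. -/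
structure LocB (R : Rot G) (K : ℕ) (e : G.Dart) : Prop where
  five_le : 5 ≤ sz R e
  five : sz R e = 5 → LocB5 R K e
  seven : sz R e = 7 → LocB7 R K e
  long : K ≤ sz R e → ¬ ∀ i < 8, One R K (ad R e i)

end Pool.Agent.DischB
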