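import Pool.Agent.Work.MP_392c8e_co_t1.Inst.Split
import Pool.Agent.Work.MP_392c8e_co_t1.Apply

/-!
# Reducers with gain: a face of length seven with four neighbours of length five

`P1`: neighbours of length five across the edges 0, 1, 3, 4 (one free terminal); `P2 x y`: across the
edges 0, 1, 3, 5, with nine gadgets (two free terminals).
-/

namespace Pool.Agent.T1Red

set_option synthInstance.maxSize 200000

/-- A face of length seven with neighbours of length five across 0, 1, 3, 4; terminal 0 is free. -/
def P1 : Red where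
  t := 9
  m := 17
  ed :=
    [(9, 10), (9, 15), (9, 16), (10, 11), (10, 18), (11, 12), (11, 20), (12, 13), (12, 21),
    (13, 14), (13, 23), (14, 15), (14, 25), (16, 17), (17, 18), (18, 19), (19, 20), (21, 22),
    (22, 23), (23, 24), (24, 25), (15, 0), (16, 1), (17, 2), (19, 3), (20, 4), (21, 5), (22,
    6), (24, 7), (25, 8)]
  nw := [(1, 2), (3, 4), (5, 6), (7, 8)]
  ne := [0, 0, 0, 0, 0, 0, 0, 0, 0]

/-- A face of length seven with neighbours of length five across 0, 1, 3, 5; `x` joins two of the
terminals 4, 5, 6 and `y` joins two of the terminals 7, 8, 9. -/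
def P2 (x y : ℕ × ℕ) : Red where
  t := 10
  m := 18
  ed :=
    [(10, 11), (10, 16), (10, 17), (11, 12), (11, 19), (12, 13), (12, 21), (13, 14), (13, 22),
    (14, 15), (14, 24), (15, 16), (15, 25), (16, 27), (17, 18), (18, 19), (19, 20), (20, 21),
    (22, 23), (23, 24), (25, 26), (26, 27), (17, 0), (18, 1), (20, 2), (21, 3), (22, 4), (23,
    5), (24, 6), (25, 7), (26, 8), (27, 9)]
  nw := [(0, 1), (2, 3), x, y]
  ne := [512, 512, 512, 512, 32, 80, 32, 256, 640, 271]

theorem P1_data : Data P1 []
    [(1, [16, 17], 2), (3, [19, 20], 4), (5, [21, 22], 6), (7, [24, 25], 8)] [] []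
    [(1, 2), (3, 4), (5, 6), (7, 8)] [] := by
  constructor <;> decide

/-- The first choice. -/
def P2x : List (ℕ × ℕ) := [(4, 5), (5, 6), (4, 6)]

/-- The second choice. -/
def P2y : List (ℕ × ℕ) := [(7, 8), (8, 9), (7, 9)]

/-- The path of a new edge. -/
def P2p (x : ℕ × ℕ) : ℕ × List ℕ × ℕ :=
  (x.1, if x = (4, 5) then [22, 23] else if x = (5, 6) then [23, 24] else
    if x = (4, 6) then [22, 23, 24] else if x = (7, 8) then [25, 26] else
    if x = (8, 9) then [26, 27] else [25, 26, 27], x.2)

theorem P2_data : ∀ x ∈ P2x, ∀ y ∈ P2y, Data (P2 x y) []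
    [(0, [17, 18], 1), (2, [20, 21], 3), P2p x, P2p y] [] [] [(0, 1), (2, 3), x, y] [] := by
  intro x hx y hy
  simp only [P2x, P2y, List.mem_cons, List.not_mem_nil, or_false] at hx hy
  rcases hx with rfl | rfl | rfl <;> rcases hy with rfl | rfl | rfl <;> constructor <;> decide

end Pool.Agent.T1Red
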