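import Pool.Agent.Work.MP_392c8e_co_uni.SideL

/-!
# The check of side conditions on lists of facts

(The checker of `SideL` before the bit masks; `SideC` and `SideN` use it.)
-/

namespace Pool.Agent.U2Geo

open Pool.T1Side Pool.Agent.T1Red Pool.Agent.T1FF Pool.Agent.Sub392

set_option linter.unusedSectionVars false

variable {V : Type} {G : SimpleGraph V}

/-- The check of a contradiction. -/
def refL (F : List (ℕ × ℕ × ℕ)) (s : St) : CertL → Bool
  | .base c => s.ref AA (fun _ _ => false) c
  | .four a b c d => s.nbB [a, b, c, d]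
  | .five a v b x y => s.nbB [a, v, b, x, y] && hasF F a v b
  | .long a v b l l' => s.nbB (a :: v :: b :: l) && s.nbB (a :: v :: b :: l') &&
      Nat.beq l.length 5 && Nat.ble l'.length 4 &&
      (List.range 4).all fun i => has s.na ((a :: v :: b :: l).getD i a)
        ((a :: v :: b :: l).getD (i + 4) a)

theorem refL_sound (hG : Cls G) {F : List (ℕ × ℕ × ℕ)} {I : List ℕ} {f : ℕ → V} {s : St}
    (hF : No5 G F f) (h : s.Ok G I f) {c : CertL} (hc : refL F s c = true) : False := by
  cases c with
  | base c => exact h.ref hG.rules hc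
  | four a b c d => exact hG.no4 (f a) (f b) (f c) (f d) (h.nbB hc)
  | five a v b x y =>
    simp only [refL, Bool.and_eq_true] at hc
    obtain ⟨h1, h2⟩ := hc
    have h3 := h.nbB h1
    unfold hasF at h2
    rw [List.any_eq_true] at h2
    obtain ⟨e, he, h4⟩ := h2
    simp only [Bool.or_eq_true, Bool.and_eq_true, beq_iff_eq] at h4
    rcases h4 with ⟨⟨h5, h6⟩, h7⟩ | ⟨⟨h5, h6⟩, h7⟩
    · refine hF e he (f x) (f y) ?_
      rw [h5, h6, h7]
      exact h3
    · refine hF e he (f y) (f x) ?_
      rw [h5, h6, h7]
      exact nb5_reverse h3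
  | long a v b l l' =>
    simp only [refL, Bool.and_eq_true, List.all_eq_true] at hc
    obtain ⟨⟨⟨⟨h1, h2⟩, h3⟩, h4⟩, h5⟩ := hc
    have e3 : l.length = 5 := Nat.eq_of_beq_eq_true h3
    have e4 : l'.length ≤ 4 := by simpa using h4
    obtain ⟨i, hi, h6⟩ := hG.w8 (f a) (f v) (f b) (l.map f) (l'.map f) (h.nbB h1) (h.nbB h2)
      (by rw [List.length_map]; exact e3) (by rw [List.length_map]; exact e4)
    have key : ∀ k, k < 8 → (f a :: f v :: f b :: l.map f).getD k (f a) =
        f ((a :: v :: b :: l).getD k a) := by
      intro k hk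
      have : f a :: f v :: f b :: l.map f = (a :: v :: b :: l).map f := rfl
      rw [this, List.getD_map]
    rw [key i (by omega), key (i + 4) (by omega)] at h6
    exact h.na (h5 i (List.mem_range.2 hi)) h6

/-- One step. -/
def stepL (F : List (ℕ × ℕ × ℕ)) (I : List ℕ) (s : St) : StepL → Option St
  | .ne i j c => cond (refL F (s.ident i j) c) (some ⟨s.adj, (i, j) :: s.ne, s.na, s.cn⟩) none
  | .na i j c => cond (refL F (s.join i j) c) (some ⟨s.adj, s.ne, (i, j) :: s.na, s.cn⟩) none
  | .cn i j n c =>
    cond (below n s.adj && below n s.ne && below n s.na && (I.all fun k => Nat.blt k n) &&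
      Nat.blt i n && Nat.blt j n && belowF n F && refL F (s.common I n i j) c)
      (some ⟨s.adj, s.ne, s.na, (i, j) :: s.cn⟩) none

theorem stepL_sound (hG : Cls G) {F : List (ℕ × ℕ × ℕ)} {I : List ℕ} {f : ℕ → V} {s s' : St}
    (hF : No5 G F f) (h : s.Ok G I f) {t : StepL} (hs : stepL F I s t = some s') :
    s'.Ok G I f := by
  cases t with
  | ne i j c =>
    unfold stepL at hs
    cases hc : refL F (s.ident i j) c
    · simp [hc] at hs
    · simp only [hc, cond_true, Option.some.injEq] at hs
      subst hs
      refine ⟨h.1, fun e he => ?_, h.2.2.1, h.2.2.2⟩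
      rcases List.mem_cons.1 he with rfl | he
      · exact fun hij => refL_sound hG hF (h.ident hij) hc
      · exact h.2.1 _ he
  | na i j c =>
    unfold stepL at hs
    cases hc : refL F (s.join i j) c
    · simp [hc] at hs
    · simp only [hc, cond_true, Option.some.injEq] at hs
      subst hs
      refine ⟨h.1, h.2.1, fun e he => ?_, h.2.2.2⟩
      rcases List.mem_cons.1 he with rfl | he
      · exact fun hij => refL_sound hG hF (h.join hij) hc
      · exact h.2.2.1 _ he
  | cn i j n c =>
    unfold stepL at hs
    cases hc : (below n s.adj && below n s.ne && below n s.na && (I.all fun k => Nat.blt k n) &&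
      Nat.blt i n && Nat.blt j n && belowF n F && refL F (s.common I n i j) c)
    · simp [hc] at hs
    · simp only [hc, cond_true, Option.some.injEq] at hs
      subst hs
      simp only [Bool.and_eq_true, List.all_eq_true] at hc
      obtain ⟨⟨⟨⟨⟨⟨⟨h1, h2⟩, h3⟩, h4⟩, h5⟩, h6⟩, h7⟩, h8⟩ := hc
      refine ⟨h.1, h.2.1, h.2.2.1, fun e he => ?_⟩
      rcases List.mem_cons.1 he with rfl | he
      · intro w hw hiw hjw
        refine refL_sound hG (F := F) (f := fun x => if x = n then w else f x) ?_
          (h.common h1 h2 h3 (fun k hk => by simpa using h4 k hk) (by simpa using h5)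
          (by simpa using h6) hw hiw hjw) h8
        intro e he x y
        unfold belowF at h7
        rw [List.all_eq_true] at h7
        have h9 := h7 e he
        simp only [Bool.and_eq_true, Nat.blt_eq] at h9
        obtain ⟨⟨k1, k2⟩, k3⟩ := h9
        show ¬ NB G [if e.1 = n then w else f e.1, if e.2.1 = n then w else f e.2.1,
          if e.2.2 = n then w else f e.2.2, x, y]
        rw [if_neg (by omega), if_neg (by omega), if_neg (by omega)]
        exact hF e he x y
      · exact h.2.2.2 _ he

/-- All steps. -/
def runL (F : List (ℕ × ℕ × ℕ)) (I : List ℕ) : List StepL → St → Option St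
  | [], s => some s
  | t :: ts, s => match stepL F I s t with
    | none => none
    | some s' => runL F I ts s'

theorem runL_sound (hG : Cls G) {F : List (ℕ × ℕ × ℕ)} {I : List ℕ} {f : ℕ → V}
    (hF : No5 G F f) :
    ∀ (ts : List StepL) (s s' : St), s.Ok G I f → runL F I ts s = some s' → s'.Ok G I f
  | [], s, s', h, hs => by
    have : s = s' := by simpa [runL] using hs
    exact this ▸ h
  | t :: ts, s, s', h, hs => by
    unfold runL at hs
    split at hs
    · exact absurd hs (by simp)
    · rename_i s1 h1
      exact runL_sound hG hF ts s1 s' (stepL_sound hG hF h h1) hs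

end Pool.Agent.U2Geo
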