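import Mathlib
import Pool.Agent.Work.MP_392c8e_co_uni.SideOld

/-!
# Further side conditions of patches in which all labels are different
-/

namespace Pool.Agent.U2Geo

open Finset Pool.Agent.Sub392 Pool.T1Side Pool.Agent.T392 Pool.Agent.T1FF Pool.Agent.T1Red

set_option linter.unusedSectionVars false

variable {V : Type} {G : SimpleGraph V}

/-- The check of further pairs without common neighbours outside, when all labels are different. -/
def finC (R : Red) (nl com : List (ℕ × ℕ)) (F : List (ℕ × ℕ × ℕ)) (ts : List StepL) : Bool :=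
  match runL F (inner R) ts ⟨R.ed, pairs (olds R nl), [], []⟩ with
  | none => false
  | some s' => com.all fun e => has s'.cn e.1 e.2

theorem pairs_lt : ∀ {l : List ℕ}, l.Pairwise (· < ·) → ∀ e ∈ pairs l, e.1 ∈ l ∧ e.2 ∈ l ∧ e.1 < e.2
  | [], _, e, he => by simp [pairs] at he
  | a :: l, hp, e, he => by
    rw [List.pairwise_cons] at hp
    unfold pairs at he
    rw [List.mem_append, List.mem_map] at he
    rcases he with ⟨b, hb, rfl⟩ | he
    · exact ⟨List.mem_cons_self, List.mem_cons_of_mem _ hb, hp.1 b hb⟩
    · obtain ⟨h1, h2, h3⟩ := pairs_lt hp.2 e he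
      exact ⟨List.mem_cons_of_mem _ h1, List.mem_cons_of_mem _ h2, h3⟩

theorem real_of_olds {R : Red} {nl : List (ℕ × ℕ)} {i : ℕ} (h : i ∈ olds R nl) : Real R nl [] i := by
  unfold olds at h
  rw [List.mem_filter, List.mem_range, List.all_eq_true] at h
  refine ⟨h.1, by simp, fun p hp hpi => ?_⟩
  have h1 := h.2 p hp
  rw [hpi] at h1
  simp at h1

/-- **Further pairs without common neighbours outside.** -/
theorem Patch.more (hG : Cls G) {R : Red} {nl bad com com' : List (ℕ × ℕ)} {F : List (ℕ × ℕ × ℕ)}
    {ts : List StepL} {f : ℕ → V} (h : Patch G R nl [] com bad f) (hF : No5 G F f)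
    (hf : finC R nl com' F ts = true) : Patch G R nl [] com' bad f := by
  unfold finC at hf
  split at hf
  · exact absurd hf (by simp)
  · rename_i s' hs
    rw [List.all_eq_true] at hf
    have h0 : (St.mk R.ed (pairs (olds R nl)) [] []).Ok G (inner R) f := by
      refine ⟨h.adj, fun e he hne => ?_, fun e he => by simp at he, fun e he => by simp at he⟩
      obtain ⟨h1, h2, h3⟩ := pairs_lt (List.Pairwise.filter _ List.pairwise_lt_range) e he
      rcases h.inj e.1 e.2 (real_of_olds h1) (real_of_olds h2) hne with h4 | h4 | h4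
      · omega
      · simp at h4
      · simp at h4
    have h' := runL_sound hG hF ts _ s' h0 hs
    refine ⟨h.inj, h.adj, h.nbr, ?_, h.hT⟩
    intro p hp w hw ⟨h3, h4⟩
    refine h'.cn (hf p hp) w (fun k hk h5 => hw ?_) h3 h4.symm
    obtain ⟨h6, h7⟩ := mem_inner.1 hk
    exact ⟨k, h6, h7, h5.symm⟩

end Pool.Agent.U2Geo
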