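import Mathlib
import Pool.Agent.Work.MP_392c8e_co_uni.SideC

/-!
# Side conditions of patches: a fast checker

The facts about the labels are kept in bit masks, so that a look-up costs a few steps.  The
certificates are the same as for `finL`.
-/

namespace Pool.Agent.U2Geo

open Pool.T1Side Pool.Agent.T1Red Pool.Agent.T1FF Pool.Agent.Sub392

set_option linter.unusedSectionVars false

/-- The tests. -/
structure Tst where
  adj : ℕ → ℕ → Bool
  ne : ℕ → ℕ → Bool
  na : ℕ → ℕ → Bool

variable {V : Type} {G : SimpleGraph V}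

/-- The tests are sound. -/
structure Tst.Ok (G : SimpleGraph V) (f : ℕ → V) (T : Tst) : Prop where
  adj : ∀ a b, T.adj a b = true → G.Adj (f a) (f b)
  ne : ∀ a b, T.ne a b = true → f a ≠ f b
  na : ∀ a b, T.na a b = true → ¬ G.Adj (f a) (f b)

/-- The test of a walk. -/
def Tst.tr (T : Tst) : List ℕ → Bool
  | a :: b :: c :: l => T.adj a b && T.ne a c && T.tr (b :: c :: l)
  | _ => true

/-- The test of a closed walk. -/
def Tst.nb (T : Tst) (l : List ℕ) : Bool := T.tr (l ++ l.take 2)

/-- The lists are different. -/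
def Tst.dif (T : Tst) : List ℕ → List ℕ → Bool
  | [], [] => false
  | [], _ :: _ => true
  | _ :: _, [] => true
  | a :: l, b :: l' => T.ne a b || T.dif l l'

theorem Tst.Ok.tr {f : ℕ → V} {T : Tst} (h : T.Ok G f) :
    ∀ l : List ℕ, T.tr l = true → Tr G (l.map f)
  | [], _ => trivial
  | [_], _ => trivial
  | [_, _], _ => trivial
  | a :: b :: c :: l, hl => by
    unfold Tst.tr at hl
    rw [Bool.and_eq_true, Bool.and_eq_true] at hl
    exact ⟨h.adj _ _ hl.1.1, h.ne _ _ hl.1.2, Tst.Ok.tr h (b :: c :: l) hl.2⟩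

theorem Tst.Ok.nb {f : ℕ → V} {T : Tst} (h : T.Ok G f) {l : List ℕ} (hl : T.nb l = true) :
    NB G (l.map f) := by
  have := h.tr _ hl
  rw [List.map_append, List.map_take] at this
  exact this

theorem Tst.Ok.dif {f : ℕ → V} {T : Tst} (h : T.Ok G f) :
    ∀ l l' : List ℕ, T.dif l l' = true → l.map f ≠ l'.map f
  | [], [], hd => by simp [Tst.dif] at hd
  | [], _ :: _, _ => by simp
  | _ :: _, [], _ => by simp
  | a :: l, b :: l', hd => by
    unfold Tst.dif at hd
    rw [Bool.or_eq_true] at hd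
    intro he
    rw [List.map_cons, List.map_cons, List.cons.injEq] at he
    rcases hd with hd | hd
    · exact h.ne _ _ hd he.1
    · exact Tst.Ok.dif h l l' hd he.2

/-- The check of a contradiction. -/
def Tst.ref (F : List (ℕ × ℕ × ℕ)) (T : Tst) : CertL → Bool
  | .base (.corner a v b l l') => T.nb (a :: v :: b :: l) && T.nb (a :: v :: b :: l') &&
      AA l.length l'.length && T.dif l l'
  | .base (.edge _ _ _ _) => false
  | .base (.tri a b c) => T.adj a b && T.adj b c && T.adj a c
  | .base (.self a) => T.ne a a || T.adj a a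
  | .base (.nadj a b) => T.adj a b && T.na a b
  | .four a b c d => T.nb [a, b, c, d]
  | .five a v b x y => T.nb [a, v, b, x, y] && hasF F a v b
  | .long a v b l l' => T.nb (a :: v :: b :: l) && T.nb (a :: v :: b :: l') &&
      Nat.beq l.length 5 && Nat.ble l'.length 4 &&
      (List.range 4).all fun i => T.na ((a :: v :: b :: l).getD i a)
        ((a :: v :: b :: l).getD (i + 4) a)

theorem Tst.Ok.ref (hG : Cls G) {F : List (ℕ × ℕ × ℕ)} {f : ℕ → V} {T : Tst}
    (hF : No5 G F f) (h : T.Ok G f) {c : CertL} (hc : T.ref F c = true) : False := by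
  cases c with
  | base c =>
    cases c with
    | corner a v b l l' =>
      simp only [Tst.ref, Bool.and_eq_true] at hc
      obtain ⟨⟨⟨h1, h2⟩, h3⟩, h4⟩ := hc
      refine h.dif l l' h4 (hG.rules.corner (f a) (f v) (f b) (l.map f) (l'.map f) (h.nb h1)
        (h.nb h2) ?_)
      rw [List.length_map, List.length_map]
      exact h3
    | edge a v l l' => simp [Tst.ref] at hc
    | tri a b c =>
      simp only [Tst.ref, Bool.and_eq_true] at hc
      exact no_tri hG.rules.tri (h.adj _ _ hc.1.1) (h.adj _ _ hc.1.2) (h.adj _ _ hc.2)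
    | self a =>
      simp only [Tst.ref, Bool.or_eq_true] at hc
      rcases hc with hc | hc
      · exact h.ne _ _ hc rfl
      · exact (h.adj _ _ hc).ne rfl
    | nadj a b =>
      simp only [Tst.ref, Bool.and_eq_true] at hc
      exact h.na _ _ hc.2 (h.adj _ _ hc.1)
  | four a b c d => exact hG.no4 (f a) (f b) (f c) (f d) (h.nb hc)
  | five a v b x y =>
    simp only [Tst.ref, Bool.and_eq_true] at hc
    obtain ⟨h1, h2⟩ := hc
    have h3 := h.nb h1
    unfold hasF at h2
    rw [List.any_eq_true] at h2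
    obtain ⟨e, he, h4⟩ := h2
    simp only [Bool.or_eq_true, Bool.and_eq_true, beq_iff_eq] at h4
    rcases h4 with ⟨⟨h5, h6⟩, h7⟩ | ⟨⟨h5, h6⟩, h7⟩
    · refine hF e he (f x) (f y) ?_
      rw [h5, h6, h7]
      exact h3
    · refine hF e he (f y) (f x) ?_
      rw [h5, h6, h7]
      exact nb5_reverse h3
  | long a v b l l' =>
    simp only [Tst.ref, Bool.and_eq_true, List.all_eq_true] at hc
    obtain ⟨⟨⟨⟨h1, h2⟩, h3⟩, h4⟩, h5⟩ := hc
    have e3 : l.length = 5 := Nat.eq_of_beq_eq_true h3
    have e4 : l'.length ≤ 4 := by simpa using h4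
    obtain ⟨i, hi, h6⟩ := hG.w8 (f a) (f v) (f b) (l.map f) (l'.map f) (h.nb h1) (h.nb h2)
      (by rw [List.length_map]; exact e3) (by rw [List.length_map]; exact e4)
    have key : ∀ k, k < 8 → (f a :: f v :: f b :: l.map f).getD k (f a) =
        f ((a :: v :: b :: l).getD k a) := by
      intro k hk
      have : f a :: f v :: f b :: l.map f = (a :: v :: b :: l).map f := rfl
      rw [this, List.getD_map]
    rw [key i (by omega), key (i + 4) (by omega)] at h6
    exact h.na _ _ (h5 i (List.mem_range.2 hi)) h6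

/-- The test after the identification of the labels `i`, `j`. -/
def idt (i j : ℕ) (t : ℕ → ℕ → Bool) (a b : ℕ) : Bool :=
  t a b || (Nat.beq a i && t j b) || (Nat.beq b i && t a j)

theorem idt_spec {f : ℕ → V} {i j : ℕ} (hij : f i = f j) {t : ℕ → ℕ → Bool} {Q : V → V → Prop}
    (h : ∀ a b, t a b = true → Q (f a) (f b)) (a b : ℕ) (hab : idt i j t a b = true) :
    Q (f a) (f b) := by
  unfold idt at hab
  simp only [Bool.or_eq_true, Bool.and_eq_true] at hab
  rcases hab with (h1 | ⟨h1, h2⟩) | ⟨h1, h2⟩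
  · exact h a b h1
  · rw [Nat.eq_of_beq_eq_true h1, hij]
    exact h j b h2
  · rw [Nat.eq_of_beq_eq_true h1, hij]
    exact h a j h2

/-- The labels `i` and `j` are identified. -/
def Tst.ident (T : Tst) (i j : ℕ) : Tst := ⟨idt i j T.adj, idt i j T.ne, idt i j T.na⟩

theorem Tst.Ok.ident {f : ℕ → V} {T : Tst} (h : T.Ok G f) {i j : ℕ} (hij : f i = f j) :
    (T.ident i j).Ok G f :=
  ⟨idt_spec hij (Q := fun x y => G.Adj x y) h.adj, idt_spec hij (Q := fun x y => x ≠ y) h.ne,
    idt_spec hij (Q := fun x y => ¬ G.Adj x y) h.na⟩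

/-- The pair is `{i, j}`. -/
def isP (i j a b : ℕ) : Bool := (Nat.beq a i && Nat.beq b j) || (Nat.beq a j && Nat.beq b i)

theorem isP_spec {i j a b : ℕ} (h : isP i j a b = true) : (a = i ∧ b = j) ∨ (a = j ∧ b = i) := by
  unfold isP at h
  simp only [Bool.or_eq_true, Bool.and_eq_true] at h
  rcases h with ⟨h1, h2⟩ | ⟨h1, h2⟩
  · exact Or.inl ⟨Nat.eq_of_beq_eq_true h1, Nat.eq_of_beq_eq_true h2⟩
  · exact Or.inr ⟨Nat.eq_of_beq_eq_true h1, Nat.eq_of_beq_eq_true h2⟩

/-- The labels `i` and `j` are adjacent. -/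
def Tst.join (T : Tst) (i j : ℕ) : Tst :=
  ⟨fun a b => T.adj a b || isP i j a b, fun a b => T.ne a b || isP i j a b, T.na⟩

theorem Tst.Ok.join {f : ℕ → V} {T : Tst} (h : T.Ok G f) {i j : ℕ} (hij : G.Adj (f i) (f j)) :
    (T.join i j).Ok G f := by
  refine ⟨fun a b hab => ?_, fun a b hab => ?_, h.na⟩
  · simp only [Tst.join, Bool.or_eq_true] at hab
    rcases hab with h1 | h1
    · exact h.adj a b h1
    · rcases isP_spec h1 with ⟨rfl, rfl⟩ | ⟨rfl, rfl⟩
      · exact hij
      · exact hij.symm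
  · simp only [Tst.join, Bool.or_eq_true] at hab
    rcases hab with h1 | h1
    · exact h.ne a b h1
    · rcases isP_spec h1 with ⟨rfl, rfl⟩ | ⟨rfl, rfl⟩
      · exact hij.ne
      · exact hij.ne'

/-- The labels are below `n` and the test is true. -/
def low (n : ℕ) (t : ℕ → ℕ → Bool) (a b : ℕ) : Bool := Nat.blt a n && Nat.blt b n && t a b

/-- A new label `n` adjacent to `i` and `j`, different from the labels `t, …, n - 1`. -/
def Tst.common (T : Tst) (t n i j : ℕ) : Tst :=
  ⟨fun a b => low n T.adj a b || isP i n a b || isP j n a b,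
    fun a b => low n T.ne a b || isP i n a b || isP j n a b ||
      (Nat.beq a n && Nat.ble t b && Nat.blt b n) || (Nat.beq b n && Nat.ble t a && Nat.blt a n),
    low n T.na⟩

theorem Tst.Ok.common {f : ℕ → V} {T : Tst} (h : T.Ok G f) {t n i j : ℕ} (hi : i < n) (hj : j < n)
    {w : V} (hw : ∀ k, t ≤ k → k < n → w ≠ f k) (hiw : G.Adj (f i) w) (hjw : G.Adj (f j) w) :
    (T.common t n i j).Ok G (fun x => if x = n then w else f x) := by
  have hf : ∀ x, x < n → (if x = n then w else f x) = f x := fun x hx => if_neg (by omega)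
  have hn : (if n = n then w else f n) = w := if_pos rfl
  have hlow : ∀ (t' : ℕ → ℕ → Bool) (Q : V → V → Prop), (∀ a b, t' a b = true → Q (f a) (f b)) →
      ∀ a b, low n t' a b = true →
      Q (if a = n then w else f a) (if b = n then w else f b) := by
    intro t' Q hQ a b hab
    unfold low at hab
    simp only [Bool.and_eq_true, Nat.blt_eq] at hab
    rw [hf a hab.1.1, hf b hab.1.2]
    exact hQ a b hab.2
  have hP : ∀ k, k < n → ∀ (Q : V → V → Prop), Q (f k) w → Q w (f k) → ∀ a b,
      isP k n a b = true → Q (if a = n then w else f a) (if b = n then w else f b) := by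
    intro k hk Q h1 h2 a b hab
    rcases isP_spec hab with ⟨rfl, rfl⟩ | ⟨rfl, rfl⟩
    · rw [hf _ hk, if_pos rfl]; exact h1
    · rw [hf _ hk, if_pos rfl]; exact h2
  refine ⟨fun a b hab => ?_, fun a b hab => ?_, fun a b hab => ?_⟩
  · simp only [Tst.common, Bool.or_eq_true] at hab
    rcases hab with (h1 | h1) | h1
    · exact hlow T.adj (fun x y => G.Adj x y) h.adj a b h1
    · exact hP i hi (fun x y => G.Adj x y) hiw hiw.symm a b h1
    · exact hP j hj (fun x y => G.Adj x y) hjw hjw.symm a b h1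
  · simp only [Tst.common, Bool.or_eq_true, Bool.and_eq_true, Nat.ble_eq, Nat.blt_eq] at hab
    rcases hab with (((h1 | h1) | h1) | ⟨⟨h1, h2⟩, h3⟩) | ⟨⟨h1, h2⟩, h3⟩
    · exact hlow T.ne (fun x y => x ≠ y) h.ne a b h1
    · exact hP i hi (fun x y => x ≠ y) hiw.ne hiw.ne' a b h1
    · exact hP j hj (fun x y => x ≠ y) hjw.ne hjw.ne' a b h1
    · have := Nat.eq_of_beq_eq_true h1
      subst this
      show (if a = a then w else f a) ≠ (if b = a then w else f b)
      rw [if_pos rfl, hf b h3]
      exact hw b h2 h3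
    · have := Nat.eq_of_beq_eq_true h1
      subst this
      show (if a = b then w else f a) ≠ (if b = b then w else f b)
      rw [if_pos rfl, hf a h3]
      exact (hw a h2 h3).symm
  · exact hlow T.na (fun x y => ¬ G.Adj x y) h.na a b hab

/-! ### Masks -/

/-- The bit of a pair. -/
def bit (M a b : ℕ) : Bool := Nat.blt b 32 && M.testBit (32 * a + b)

/-- The bit of a pair in either order. -/
def bit2 (M a b : ℕ) : Bool := bit M a b || bit M b a

/-- Insert a pair. -/
def ins (M : ℕ) (a b : ℕ) : ℕ := M ||| 2 ^ (32 * a + b)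

/-- All pairs of the mask have the property. -/
def MOk (Q : ℕ → ℕ → Prop) (M : ℕ) : Prop := ∀ a b, bit M a b = true → Q a b

theorem MOk.two {Q : ℕ → ℕ → Prop} {M : ℕ} (h : MOk Q M) (hs : ∀ a b, Q a b → Q b a) (a b : ℕ)
    (hab : bit2 M a b = true) : Q a b := by
  unfold bit2 at hab
  rw [Bool.or_eq_true] at hab
  rcases hab with h1 | h1
  · exact h a b h1
  · exact hs _ _ (h b a h1)

theorem MOk.zero (Q : ℕ → ℕ → Prop) : MOk Q 0 := by
  intro a b h
  unfold bit at h
  simp at h

theorem MOk.ins {Q : ℕ → ℕ → Prop} {M : ℕ} (h : MOk Q M) {i j : ℕ} (hj : j < 32) (hij : Q i j) :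
    MOk Q (ins M i j) := by
  intro a b hab
  unfold bit Pool.Agent.U2Geo.ins at hab
  rw [Bool.and_eq_true, Nat.testBit_or, Bool.or_eq_true, Nat.testBit_two_pow, decide_eq_true_eq,
    Nat.blt_eq] at hab
  obtain ⟨h1, h2 | h2⟩ := hab
  · exact h a b (by unfold bit; rw [Bool.and_eq_true, Nat.blt_eq]; exact ⟨h1, h2⟩)
  · have e1 : i = a := by omega
    have e2 : j = b := by omega
    exact e1 ▸ e2 ▸ hij

/-- The mask of a list. -/
def mk : List (ℕ × ℕ) → ℕ → ℕ
  | [], M => M
  | e :: l, M => mk l (ins M e.1 e.2)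

theorem MOk.mk {Q : ℕ → ℕ → Prop} : ∀ (l : List (ℕ × ℕ)) (M : ℕ), MOk Q M →
    (∀ e ∈ l, Q e.1 e.2) → (l.all fun e => Nat.blt e.2 32) = true → MOk Q (mk l M)
  | [], _, h, _, _ => h
  | e :: l, M, h, h1, h2 => by
    rw [List.all_cons, Bool.and_eq_true, Nat.blt_eq] at h2
    exact MOk.mk l _ (h.ins h2.1 (h1 e List.mem_cons_self))
      (fun e' he' => h1 e' (List.mem_cons_of_mem _ he')) h2.2

/-- The facts about the labels. -/
structure MSt where
  adj : ℕ
  ne : ℕ
  na : ℕ
  cn : List (ℕ × ℕ)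

/-- The tests of the state. -/
def MSt.tst (s : MSt) : Tst := ⟨bit2 s.adj, bit2 s.ne, bit2 s.na⟩

/-- The facts are true. -/
structure MSt.Ok (G : SimpleGraph V) (t n : ℕ) (f : ℕ → V) (s : MSt) : Prop where
  adj : MOk (fun a b => G.Adj (f a) (f b)) s.adj
  ne : MOk (fun a b => f a ≠ f b) s.ne
  na : MOk (fun a b => ¬ G.Adj (f a) (f b)) s.na
  cn : ∀ e ∈ s.cn, ∀ w, (∀ k, t ≤ k → k < n → w ≠ f k) → G.Adj (f e.1) w → G.Adj (f e.2) w → False

theorem MSt.Ok.tst {t n : ℕ} {f : ℕ → V} {s : MSt} (h : s.Ok G t n f) : s.tst.Ok G f :=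
  ⟨h.adj.two fun _ _ h => h.symm, h.ne.two fun _ _ h => h.symm,
    h.na.two fun _ _ h h' => h h'.symm⟩

/-- One step. -/
def stepM (F : List (ℕ × ℕ × ℕ)) (t n : ℕ) (s : MSt) : StepL → Option MSt
  | .ne i j c => cond (Nat.blt j 32 && (s.tst.ident i j).ref F c)
      (some ⟨s.adj, ins s.ne i j, s.na, s.cn⟩) none
  | .na i j c => cond (Nat.blt j 32 && (s.tst.join i j).ref F c)
      (some ⟨s.adj, s.ne, ins s.na i j, s.cn⟩) none
  | .cn i j _ c => cond (Nat.blt i n && Nat.blt j n && belowF n F &&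
      (s.tst.common t n i j).ref F c) (some ⟨s.adj, s.ne, s.na, (i, j) :: s.cn⟩) none

theorem stepM_sound (hG : Cls G) {F : List (ℕ × ℕ × ℕ)} {t n : ℕ} {f : ℕ → V} {s s' : MSt}
    (hF : No5 G F f) (h : s.Ok G t n f) {x : StepL} (hs : stepM F t n s x = some s') :
    s'.Ok G t n f := by
  cases x with
  | ne i j c =>
    unfold stepM at hs
    cases hc : (Nat.blt j 32 && (s.tst.ident i j).ref F c)
    · simp [hc] at hs
    · simp only [hc, cond_true, Option.some.injEq] at hs
      subst hs
      rw [Bool.and_eq_true, Nat.blt_eq] at hc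
      exact ⟨h.adj, h.ne.ins hc.1 fun hij => (h.tst.ident hij).ref hG hF hc.2, h.na, h.cn⟩
  | na i j c =>
    unfold stepM at hs
    cases hc : (Nat.blt j 32 && (s.tst.join i j).ref F c)
    · simp [hc] at hs
    · simp only [hc, cond_true, Option.some.injEq] at hs
      subst hs
      rw [Bool.and_eq_true, Nat.blt_eq] at hc
      exact ⟨h.adj, h.ne, h.na.ins hc.1 fun hij => (h.tst.join hij).ref hG hF hc.2, h.cn⟩
  | cn i j m c =>
    unfold stepM at hs
    cases hc : (Nat.blt i n && Nat.blt j n && belowF n F && (s.tst.common t n i j).ref F c)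
    · simp [hc] at hs
    · simp only [hc, cond_true, Option.some.injEq] at hs
      subst hs
      simp only [Bool.and_eq_true, Nat.blt_eq] at hc
      obtain ⟨⟨⟨h5, h6⟩, h7⟩, h8⟩ := hc
      refine ⟨h.adj, h.ne, h.na, fun e he => ?_⟩
      rcases List.mem_cons.1 he with rfl | he
      · intro w hw hiw hjw
        refine Tst.Ok.ref hG (F := F) (f := fun x => if x = n then w else f x) ?_
          (h.tst.common h5 h6 hw hiw hjw) h8
        intro e he x y
        unfold belowF at h7
        rw [List.all_eq_true] at h7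
        have h9 := h7 e he
        simp only [Bool.and_eq_true, Nat.blt_eq] at h9
        obtain ⟨⟨k1, k2⟩, k3⟩ := h9
        show ¬ NB G [if e.1 = n then w else f e.1, if e.2.1 = n then w else f e.2.1,
          if e.2.2 = n then w else f e.2.2, x, y]
        rw [if_neg (by omega), if_neg (by omega), if_neg (by omega)]
        exact hF e he x y
      · exact h.cn _ he

/-- All steps. -/
def runM (F : List (ℕ × ℕ × ℕ)) (t n : ℕ) : List StepL → MSt → Option MSt
  | [], s => some s
  | x :: xs, s => match stepM F t n s x with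
    | none => none
    | some s' => runM F t n xs s'

theorem runM_sound (hG : Cls G) {F : List (ℕ × ℕ × ℕ)} {t n : ℕ} {f : ℕ → V}
    (hF : No5 G F f) :
    ∀ (ts : List StepL) (s s' : MSt), s.Ok G t n f → runM F t n ts s = some s' → s'.Ok G t n f
  | [], s, s', h, hs => by
    have : s = s' := by simpa [runM] using hs
    exact this ▸ h
  | x :: xs, s, s', h, hs => by
    unfold runM at hs
    split at hs
    · exact absurd hs (by simp)
    · rename_i s1 h1
      exact runM_sound hG hF xs s1 s' (stepM_sound hG hF h h1) hs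

/-- The initial state. -/
def startM (R : Red) : MSt := ⟨mk R.ed 0, mk (St.start R.ed (inner R)).ne 0, 0, []⟩

/-- The whole check. -/
def finM (R : Red) (nl co com bad : List (ℕ × ℕ)) (F : List (ℕ × ℕ × ℕ)) (ts : List StepL) :
    Bool :=
  (R.ed.all fun e => Nat.blt e.2 32) &&
  ((St.start R.ed (inner R)).ne.all fun e => Nat.blt e.2 32) &&
  match runM F R.t (R.t + R.m) ts (startM R) with
  | none => false
  | some s' => ((pairs (olds R nl)).all fun e => bit2 s'.ne e.1 e.2 || has co e.1 e.2) &&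
      (com.all fun e => has s'.cn e.1 e.2) && (bad.all fun e => bit2 s'.na e.1 e.2)

/-- **Patches from tables and certificates**, fast check. -/
theorem patch_ofM (hG : Cls G) {R : Red} {nl co com bad : List (ℕ × ℕ)}
    {F : List (ℕ × ℕ × ℕ)} {ts : List StepL} {f : ℕ → V} {N : List (ℕ × ℕ × ℕ × ℕ)}
    (ht : TabOk G f N) (hc : chk R.ed (inner R) N = true) (hF : No5 G F f)
    (hf : finM R nl co com bad F ts = true) : Patch G R nl co com bad f := by
  obtain ⟨h1, h2⟩ := copy_of_tab ht hc
  unfold finM at hf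
  rw [Bool.and_eq_true, Bool.and_eq_true] at hf
  obtain ⟨⟨hb1, hb2⟩, hf⟩ := hf
  have h0 : (startM R).Ok G R.t (R.t + R.m) f :=
    ⟨MOk.mk _ _ (MOk.zero _) h1.start.1 hb1, MOk.mk _ _ (MOk.zero _) h1.start.2.1 hb2,
      MOk.zero _, fun e he => by simp [startM] at he⟩
  split at hf
  · exact absurd hf (by simp)
  · rename_i s' hs
    rw [Bool.and_eq_true, Bool.and_eq_true, List.all_eq_true, List.all_eq_true,
      List.all_eq_true] at hf
    have h' := runM_sound hG hF ts _ s' h0 hs
    obtain ⟨⟨k1, k2⟩, k3⟩ := hf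
    have key : ∀ i j, Real R nl [] i → Real R nl [] j → i < j → f i = f j → Same co i j := by
      intro i j hi hj hij hfij
      have h3 := k1 (i, j) (mem_pairs (List.Pairwise.filter _ List.pairwise_lt_range)
        (mem_olds hi) (mem_olds hj) hij)
      rw [Bool.or_eq_true] at h3
      rcases h3 with h3 | h3
      · exact absurd hfij (h'.tst.ne _ _ h3)
      · rcases has_spec h3 with h4 | h4
        · exact Or.inr (Or.inl h4)
        · exact Or.inr (Or.inr h4)
    refine ⟨?_, h1.adj, ?_, ?_, fun e he => h'.tst.na _ _ (k3 e he)⟩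
    · intro i j hi hj hij
      rcases lt_trichotomy i j with h3 | h3 | h3
      · exact key i j hi hj h3 hij
      · exact Or.inl h3
      · exact (key j i hj hi h3 hij.symm).symm
    · intro i hi hi' w hw
      obtain ⟨j, hj, hwj⟩ := h2 i (mem_inner.2 ⟨hi, hi'⟩) w hw
      exact ⟨j, nbs_mem hj, hwj⟩
    · intro p hp w hw ⟨h3, h4⟩
      have h5 := k2 p hp
      have h6 : ∀ k, R.t ≤ k → k < R.t + R.m → w ≠ f k := fun k hk hk' h7 =>
        hw ⟨k, hk, hk', h7.symm⟩
      rcases has_spec h5 with h8 | h8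
      · exact h'.cn _ h8 w h6 h3 h4.symm
      · exact h'.cn _ h8 w h6 h4.symm h3

end Pool.Agent.U2Geo
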