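import Pool.Agent.Work.MP_392c8e_co_uni.Tab7

/-!
# Labelled copies: further faces of length seven with neighbours of length five

`G2`: faces of length five across the edges 0, 1, 4, `G2m`: its mirror image (faces across 4, 3, 0),
`P1`: across 0, 1, 3, 4, `P2`: across 0, 1, 3, 5.
-/

namespace Pool.Agent.T1FF

open Pool.Agent.Sub392 Pool.T1Side

variable {V : Type} [Fintype V] [DecidableEq V] {G : SimpleGraph V} [DecidableRel G.Adj]
variable {R : Rot G} {d : G.Dart}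

/-- The labels of the patch G2: terminals 0, …, 8, interior 9, …, 23. -/
def fG2 (R : Rot G) (d : G.Dart) (n : ℕ) : V :=
  [Y R d 6, Y R (ac R d 0) 2, Y R (ac R d 0) 3, Y R (ac R d 1) 3, Y R (ac R d 1) 4, Y R d 3, Y
  R (ac R d 4) 2, Y R (ac R d 4) 3, Y R (ac R d 4) 4, X R d 0, X R d 1, X R d 2, X R d 3, X R d
  4, X R d 5, X R d 6, Y R d 0, X R (ac R d 0) 3, Y R d 1, X R (ac R d 1) 3, Y R d 2, Y R d 4,
  X R (ac R d 4) 3, Y R d 5].getD n (X R d 0)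

/-- The table. -/
def tG2 : List (ℕ × ℕ × ℕ × ℕ) :=
  [(9, 10, 15, 16), (10, 11, 9, 18), (11, 12, 10, 20), (12, 13, 11, 5), (13, 14, 12, 21), (14,
  15, 13, 23), (15, 9, 14, 0), (16, 17, 9, 1), (17, 18, 16, 2), (18, 10, 17, 19), (19, 20, 18,
  3), (20, 11, 19, 4), (21, 22, 13, 6), (22, 23, 21, 7), (23, 14, 22, 8)]

theorem tabG2 (h : Good R d 7) (g0 : Good R (ac R d 0) 5) (g1 : Good R (ac R d 1) 5) (g4 :
    Good R (ac R d 4) 5) :
    TabOk G (fG2 R d) tG2 := by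
  obtain ⟨a0, a1, a2, a3, a4, a5, a6⟩ := h.stars7
  obtain ⟨f0_2, f0_3, f0_4⟩ := h.outer5 0 g0
  obtain ⟨f1_2, f1_3, f1_4⟩ := h.outer5 1 g1
  obtain ⟨f4_2, f4_3, f4_4⟩ := h.outer5 4 g4
  rw [h.ac_Ylast 0 g0 (by norm_num)] at f0_4
  intro e he
  simp only [tG2, List.mem_cons, List.not_mem_nil, or_false] at he
  rcases he with rfl | rfl | rfl | rfl | rfl | rfl | rfl | rfl | rfl | rfl | rfl | rfl | rfl
    | rfl | rfl
  · exact a0
  · exact a1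
  · exact a2
  · exact a3
  · exact a4
  · exact a5
  · exact a6
  · exact f0_2
  · exact f0_3
  · exact f0_4
  · exact f1_3
  · exact f1_4
  · exact f4_2
  · exact f4_3
  · exact f4_4

/-- The labels of the mirror image of the patch G2. -/
def fG2m (R : Rot G) (d : G.Dart) (n : ℕ) : V :=
  [Y R d 6, Y R (ac R d 4) 4, Y R (ac R d 4) 3, Y R (ac R d 3) 3, Y R (ac R d 3) 2, Y R d 2, Y
  R (ac R d 0) 4, Y R (ac R d 0) 3, Y R (ac R d 0) 2, X R d 5, X R d 4, X R d 3, X R d 2, X R d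
  1, X R d 0, X R d 6, Y R d 5, X R (ac R d 4) 3, Y R d 4, X R (ac R d 3) 3, Y R d 3, Y R d 1,
  X R (ac R d 0) 3, Y R d 0].getD n (X R d 0)

/-- The table. -/
def tG2m : List (ℕ × ℕ × ℕ × ℕ) :=
  [(9, 15, 10, 16), (10, 9, 11, 18), (11, 10, 12, 20), (12, 11, 13, 5), (13, 12, 14, 21), (14,
  13, 15, 23), (15, 14, 9, 0), (16, 9, 17, 1), (17, 16, 18, 2), (18, 10, 19, 17), (19, 18, 20,
  3), (20, 19, 11, 4), (21, 13, 22, 6), (22, 21, 23, 7), (23, 22, 14, 8)]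

theorem tabG2m (h : Good R d 7) (g0 : Good R (ac R d 0) 5) (g3 : Good R (ac R d 3) 5) (g4 :
    Good R (ac R d 4) 5) :
    TabOk G (fG2m R d) tG2m := by
  obtain ⟨a0, a1, a2, a3, a4, a5, a6⟩ := h.stars7
  obtain ⟨f0_2, f0_3, f0_4⟩ := h.outer5 0 g0
  obtain ⟨f3_2, f3_3, f3_4⟩ := h.outer5 3 g3
  obtain ⟨f4_2, f4_3, f4_4⟩ := h.outer5 4 g4
  rw [h.ac_Ylast 3 g3 (by norm_num)] at f3_4
  intro e he
  simp only [tG2m, List.mem_cons, List.not_mem_nil, or_false] at he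
  rcases he with rfl | rfl | rfl | rfl | rfl | rfl | rfl | rfl | rfl | rfl | rfl | rfl | rfl
    | rfl | rfl
  · exact a5
  · exact a4
  · exact a3
  · exact a2
  · exact a1
  · exact a0
  · exact a6
  · exact f4_4
  · exact f4_3
  · exact f3_4
  · exact f3_3
  · exact f3_2
  · exact f0_4
  · exact f0_3
  · exact f0_2

/-- The labels of the patch P1: terminals 0, …, 8, interior 9, …, 25. -/
def fP1 (R : Rot G) (d : G.Dart) (n : ℕ) : V :=
  [Y R d 6, Y R (ac R d 0) 2, Y R (ac R d 0) 3, Y R (ac R d 1) 3, Y R (ac R d 1) 4, Y R (ac R d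
  3) 2, Y R (ac R d 3) 3, Y R (ac R d 4) 3, Y R (ac R d 4) 4, X R d 0, X R d 1, X R d 2, X R d
  3, X R d 4, X R d 5, X R d 6, Y R d 0, X R (ac R d 0) 3, Y R d 1, X R (ac R d 1) 3, Y R d 2,
  Y R d 3, X R (ac R d 3) 3, Y R d 4, X R (ac R d 4) 3, Y R d 5].getD n (X R d 0)

/-- The table. -/
def tP1 : List (ℕ × ℕ × ℕ × ℕ) :=
  [(9, 10, 15, 16), (10, 11, 9, 18), (11, 12, 10, 20), (12, 13, 11, 21), (13, 14, 12, 23), (14,
  15, 13, 25), (15, 9, 14, 0), (16, 17, 9, 1), (17, 18, 16, 2), (18, 10, 17, 19), (19, 20, 18,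
  3), (20, 11, 19, 4), (21, 22, 12, 5), (22, 23, 21, 6), (23, 13, 22, 24), (24, 25, 23, 7),
  (25, 14, 24, 8)]

theorem tabP1 (h : Good R d 7) (g0 : Good R (ac R d 0) 5) (g1 : Good R (ac R d 1) 5) (g3 :
    Good R (ac R d 3) 5) (g4 : Good R (ac R d 4) 5) :
    TabOk G (fP1 R d) tP1 := by
  obtain ⟨a0, a1, a2, a3, a4, a5, a6⟩ := h.stars7
  obtain ⟨f0_2, f0_3, f0_4⟩ := h.outer5 0 g0
  obtain ⟨f1_2, f1_3, f1_4⟩ := h.outer5 1 g1
  obtain ⟨f3_2, f3_3, f3_4⟩ := h.outer5 3 g3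
  obtain ⟨f4_2, f4_3, f4_4⟩ := h.outer5 4 g4
  rw [h.ac_Ylast 0 g0 (by norm_num)] at f0_4
  rw [h.ac_Ylast 3 g3 (by norm_num)] at f3_4
  intro e he
  simp only [tP1, List.mem_cons, List.not_mem_nil, or_false] at he
  rcases he with rfl | rfl | rfl | rfl | rfl | rfl | rfl | rfl | rfl | rfl | rfl | rfl | rfl
    | rfl | rfl | rfl | rfl
  · exact a0
  · exact a1
  · exact a2
  · exact a3
  · exact a4
  · exact a5
  · exact a6
  · exact f0_2
  · exact f0_3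
  · exact f0_4
  · exact f1_3
  · exact f1_4
  · exact f3_2
  · exact f3_3
  · exact f3_4
  · exact f4_3
  · exact f4_4

/-- The labels of the patch P2: terminals 0, …, 9, interior 10, …, 27. -/
def fP2 (R : Rot G) (d : G.Dart) (n : ℕ) : V :=
  [Y R (ac R d 0) 2, Y R (ac R d 0) 3, Y R (ac R d 1) 3, Y R (ac R d 1) 4, Y R (ac R d 3) 2, Y
  R (ac R d 3) 3, Y R (ac R d 3) 4, Y R (ac R d 5) 2, Y R (ac R d 5) 3, Y R (ac R d 5) 4, X R d
  0, X R d 1, X R d 2, X R d 3, X R d 4, X R d 5, X R d 6, Y R d 0, X R (ac R d 0) 3, Y R d 1,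
  X R (ac R d 1) 3, Y R d 2, Y R d 3, X R (ac R d 3) 3, Y R d 4, Y R d 5, X R (ac R d 5) 3, Y R
  d 6].getD n (X R d 0)

/-- The table. -/
def tP2 : List (ℕ × ℕ × ℕ × ℕ) :=
  [(10, 11, 16, 17), (11, 12, 10, 19), (12, 13, 11, 21), (13, 14, 12, 22), (14, 15, 13, 24),
  (15, 16, 14, 25), (16, 10, 15, 27), (17, 18, 10, 0), (18, 19, 17, 1), (19, 11, 18, 20), (20,
  21, 19, 2), (21, 12, 20, 3), (22, 23, 13, 4), (23, 24, 22, 5), (24, 14, 23, 6), (25, 26, 15,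
  7), (26, 27, 25, 8), (27, 16, 26, 9)]

theorem tabP2 (h : Good R d 7) (g0 : Good R (ac R d 0) 5) (g1 : Good R (ac R d 1) 5) (g3 :
    Good R (ac R d 3) 5) (g5 : Good R (ac R d 5) 5) :
    TabOk G (fP2 R d) tP2 := by
  obtain ⟨a0, a1, a2, a3, a4, a5, a6⟩ := h.stars7
  obtain ⟨f0_2, f0_3, f0_4⟩ := h.outer5 0 g0
  obtain ⟨f1_2, f1_3, f1_4⟩ := h.outer5 1 g1
  obtain ⟨f3_2, f3_3, f3_4⟩ := h.outer5 3 g3
  obtain ⟨f5_2, f5_3, f5_4⟩ := h.outer5 5 g5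
  rw [h.ac_Ylast 0 g0 (by norm_num)] at f0_4
  intro e he
  simp only [tP2, List.mem_cons, List.not_mem_nil, or_false] at he
  rcases he with rfl | rfl | rfl | rfl | rfl | rfl | rfl | rfl | rfl | rfl | rfl | rfl | rfl
    | rfl | rfl | rfl | rfl | rfl
  · exact a0
  · exact a1
  · exact a2
  · exact a3
  · exact a4
  · exact a5
  · exact a6
  · exact f0_2
  · exact f0_3
  · exact f0_4
  · exact f1_3
  · exact f1_4
  · exact f3_2
  · exact f3_3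
  · exact f3_4
  · exact f5_2
  · exact f5_3
  · exact f5_4

end Pool.Agent.T1FF
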