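import Mathlib
import Pool.Agent.Work.MP_392c8e_co_uni.SideM
import Pool.Agent.Work.MP_392c8e_co_uni.TabP
import Pool.Agent.Work.MP_392c8e_co_uni.RedP

/-!
# The certificate of the patch P2
-/

namespace Pool.Agent.U2Geo

open Finset Pool.Agent.Sub392 Pool.T1Side Pool.Agent.T392 Pool.Agent.T1FF Pool.Agent.T1Red

set_option linter.unusedSectionVars false

/-- Certificate. -/
def P2_steps : List StepL := [
  .ne 0 1 (.base (.tri 17 18 0)), .ne 0 11 (.base (.tri 0 17 10)),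
  .ne 0 16 (.base (.tri 0 17 10)), .ne 0 19 (.base (.tri 17 18 0)),
  .ne 1 10 (.base (.tri 17 18 1)), .ne 1 11 (.base (.tri 1 18 19)),
  .ne 1 20 (.base (.tri 1 18 19)), .ne 2 3 (.base (.tri 2 20 21)),
  .ne 2 11 (.base (.tri 2 20 19)), .ne 2 12 (.base (.tri 2 20 21)),
  .ne 2 18 (.base (.tri 2 20 19)), .ne 3 11 (.base (.tri 12 21 3)),
  .ne 3 13 (.base (.tri 12 21 3)), .ne 3 19 (.base (.tri 3 21 20)),
  .ne 4 5 (.base (.tri 22 23 4)), .ne 4 12 (.base (.tri 13 22 4)),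
  .ne 4 14 (.base (.tri 13 22 4)), .ne 4 24 (.base (.tri 22 23 4)),
  .ne 5 6 (.base (.tri 23 24 5)), .ne 5 13 (.base (.tri 22 23 5)),
  .ne 5 14 (.base (.tri 23 24 5)), .ne 6 13 (.base (.tri 6 24 14)),
  .ne 6 15 (.base (.tri 6 24 14)), .ne 6 22 (.base (.tri 6 24 23)),
  .ne 7 8 (.base (.tri 7 26 25)), .ne 7 14 (.base (.tri 7 25 15)),
  .ne 7 16 (.base (.tri 7 25 15)), .ne 7 27 (.base (.tri 7 26 25)),
  .ne 8 9 (.base (.tri 26 27 8)), .ne 8 15 (.base (.tri 8 26 25)),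
  .ne 8 16 (.base (.tri 26 27 8)), .ne 9 10 (.base (.tri 9 16 27)),
  .ne 9 15 (.base (.tri 9 16 27)), .ne 9 25 (.base (.tri 26 27 9)),
  .ne 10 13 (.base (.tri 10 12 11)), .ne 10 14 (.base (.tri 10 15 16)),
  .ne 10 20 (.base (.tri 10 11 19)), .ne 10 21 (.base (.tri 10 12 11)),
  .ne 10 25 (.base (.tri 10 15 16)), .ne 10 26 (.base (.tri 10 27 16)),
  .ne 11 14 (.base (.tri 12 13 11)), .ne 11 15 (.base (.tri 10 11 16)),
  .ne 11 22 (.base (.tri 12 13 11)), .ne 11 27 (.base (.tri 10 11 16)),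
  .ne 12 15 (.base (.tri 12 13 14)), .ne 12 16 (.base (.tri 10 12 11)),
  .ne 12 17 (.base (.tri 10 12 11)), .ne 12 18 (.base (.tri 12 19 11)),
  .ne 12 23 (.base (.tri 12 13 22)), .ne 12 24 (.base (.tri 12 13 14)),
  .ne 13 16 (.base (.tri 13 14 15)), .ne 13 19 (.base (.tri 12 13 11)),
  .ne 13 20 (.base (.tri 12 13 21)), .ne 13 25 (.base (.tri 13 14 15)),
  .ne 14 21 (.base (.tri 12 13 14)), .ne 14 26 (.base (.tri 14 25 15)),
  .ne 14 27 (.base (.tri 14 16 15)), .ne 15 17 (.base (.tri 10 15 16)),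
  .ne 15 22 (.base (.tri 13 14 15)), .ne 15 23 (.base (.tri 15 24 14)),
  .ne 16 18 (.base (.tri 10 17 16)), .ne 16 19 (.base (.tri 10 11 16)),
  .ne 16 24 (.base (.tri 14 16 15)), .ne 17 20 (.base (.tri 17 18 19)),
  .ne 17 27 (.base (.tri 10 17 16)), .ne 18 21 (.base (.tri 18 20 19)),
  .ne 21 22 (.base (.tri 12 13 21)), .ne 24 25 (.base (.tri 15 24 14)),
  .ne 0 12 (.base (.corner 17 18 19 [11, 0] [11, 10])),
  .ne 0 15 (.base (.corner 17 18 19 [11, 10] [11, 10, 16, 0])),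
  .ne 0 20 (.base (.corner 17 0 19 [18] [11, 10])),
  .ne 0 27 (.base (.corner 17 18 19 [11, 10] [11, 10, 16, 0])),
  .ne 1 2 (.base (.corner 21 12 11 [19, 20] [19, 18, 1, 20])),
  .ne 1 12 (.base (.corner 18 17 10 [11, 1] [11, 19])),
  .ne 1 16 (.base (.corner 18 17 10 [1] [11, 19])),
  .ne 1 21 (.base (.corner 1 12 11 [19, 18] [19, 20])),
  .ne 2 10 (.base (.corner 21 12 11 [2, 20] [19, 20])),
  .ne 2 13 (.base (.corner 20 2 12 [21] [11, 19])),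
  .ne 2 17 (.base (.corner 21 12 11 [19, 20] [10, 2, 20])),
  .ne 3 10 (.base (.corner 21 12 11 [3] [19, 20])),
  .ne 3 14 (.base (.corner 11 12 13 [3, 21, 20, 19] [3, 15, 16, 10])),
  .ne 3 18 (.base (.corner 21 12 11 [19, 3] [19, 20])),
  .ne 3 22 (.base (.corner 21 3 13 [12] [12, 11, 19, 20])),
  .ne 4 6 (.base (.corner 14 13 22 [4, 24] [23, 24])),
  .ne 4 11 (.base (.corner 14 24 23 [22, 13] [22, 4, 12, 13])),
  .ne 4 15 (.base (.corner 14 24 23 [22, 4] [22, 13])),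
  .ne 4 21 (.base (.corner 12 4 22 [13] [23, 24, 14, 13])),
  .ne 5 12 (.base (.corner 14 24 23 [5, 13] [22, 13])),
  .ne 5 15 (.base (.corner 14 24 23 [5] [22, 13])),
  .ne 6 12 (.base (.corner 24 6 13 [14] [22, 23])),
  .ne 6 16 (.base (.corner 24 6 15 [14] [14, 13, 22, 23])),
  .ne 6 25 (.base (.corner 24 6 15 [14] [14, 13, 22, 23])),
  .ne 7 9 (.base (.corner 25 26 27 [7] [16, 15])),
  .ne 7 10 (.base (.corner 16 7 25 [15] [26, 27])),
  .ne 7 13 (.base (.corner 25 26 27 [16, 15] [16, 15, 14, 7])),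
  .ne 7 24 (.base (.corner 25 7 14 [15] [15, 16, 27, 26])),
  .ne 8 10 (.base (.corner 16 27 26 [8] [25, 15])),
  .ne 8 14 (.base (.corner 16 27 26 [8, 15] [25, 15])),
  .ne 9 11 (.base (.corner 25 26 27 [16, 15] [9, 10, 16, 15])),
  .ne 9 14 (.base (.corner 25 26 27 [16, 15] [9, 15])),
  .ne 9 17 (.base (.corner 25 26 27 [16, 15] [9, 10, 16, 15])),
  .ne 10 22 (.base (.corner 11 12 13 [10] [14, 15, 16, 10])),
  .ne 10 24 (.base (.corner 25 26 27 [16, 15] [16, 10, 14, 15])),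
  .ne 11 23 (.base (.corner 11 24 14 [13, 12] [13, 22])),
  .ne 11 24 (.base (.corner 11 12 13 [14] [22, 23])), .ne 11 25 (.five 27 16 10 11 26),
  .ne 11 26 (.base (.corner 11 25 15 [16, 10] [16, 27])),
  .ne 12 25 (.base (.corner 27 26 12 [15, 16] [11, 10, 16])),
  .ne 12 27 (.base (.corner 11 12 16 [10] [10, 17, 18, 19])),
  .ne 13 17 (.base (.corner 21 12 13 [18, 19, 20] [10, 11, 19, 20])),
  .ne 13 18 (.five 21 12 13 19 20), .ne 13 26 (.base (.corner 16 27 13 [14, 15] [25, 15])),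
  .ne 13 27 (.base (.corner 11 12 13 [16, 10] [14, 15, 16, 10])),
  .ne 14 17 (.base (.corner 25 26 27 [16, 15] [16, 10, 14, 15])),
  .ne 14 19 (.five 21 12 13 14 20),
  .ne 14 20 (.base (.corner 11 12 13 [14, 19] [14, 15, 16, 10])),
  .ne 15 18 (.base (.corner 11 12 13 [14, 15, 19] [14, 15, 16, 10])),
  .ne 15 19 (.base (.corner 25 26 27 [16, 15] [16, 10, 11, 15])),
  .ne 15 21 (.base (.corner 14 24 23 [22, 13] [22, 13, 12, 15])),
  .ne 16 20 (.base (.corner 21 12 11 [10, 16] [19, 16])),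
  .ne 16 21 (.base (.corner 10 16 12 [11] [11, 19, 18, 17])), .ne 16 22 (.five 24 14 15 16 23),
  .ne 16 23 (.base (.corner 16 24 14 [15] [13, 22])),
  .ne 17 21 (.base (.corner 17 12 11 [10] [19, 18])), .ne 17 25 (.five 27 16 10 17 26),
  .ne 17 26 (.base (.corner 16 27 17 [10] [25, 15])),
  .ne 18 27 (.base (.corner 25 26 18 [16, 15] [17, 10, 16, 15])),
  .ne 19 22 (.five 21 12 13 19 20),
  .ne 19 27 (.base (.corner 21 12 11 [19, 20] [10, 16, 19, 20])),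
  .ne 20 22 (.base (.corner 11 12 13 [20, 19] [14, 15, 16, 10])),
  .ne 21 23 (.five 21 12 13 14 24), .ne 21 24 (.five 21 12 13 22 23),
  .ne 22 25 (.five 24 14 15 22 23), .ne 23 25 (.base (.corner 14 24 23 [15] [22, 13])),
  .ne 24 26 (.five 24 14 15 16 27), .ne 24 27 (.five 24 14 15 25 26),
  .ne 0 2 (.base (.corner 21 12 11 [19, 20] [10, 17, 0, 20])), .ne 0 9 (.five 27 16 10 17 0),
  .ne 0 13 (.base (.corner 0 17 18 [19, 11, 12] [19, 20, 21, 12])),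
  .ne 0 14 (.base (.corner 11 12 13 [0, 17, 10] [0, 17, 18, 19])),
  .ne 0 21 (.base (.corner 0 12 11 [10, 17] [19, 20])),
  .ne 0 25 (.base (.corner 0 26 27 [16, 15] [16, 10, 17])), .ne 0 26 (.five 27 16 10 17 0),
  .ne 1 3 (.base (.corner 21 12 11 [19, 20] [19, 18, 1])),
  .ne 1 13 (.base (.corner 18 17 10 [11, 19] [11, 12, 1])),
  .ne 1 15 (.base (.corner 18 17 10 [16, 1] [11, 19])),
  .ne 1 27 (.base (.corner 18 17 10 [16, 1] [11, 19])), .ne 2 14 (.five 21 12 13 2 20),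
  .ne 2 16 (.base (.corner 10 2 20 [19, 11] [19, 18, 17])), .ne 2 22 (.five 21 12 13 2 20),
  .ne 3 4 (.five 21 12 13 22 3), .ne 3 15 (.five 21 12 13 14 3),
  .ne 3 16 (.base (.corner 21 12 11 [10, 3] [19, 20])),
  .ne 3 17 (.base (.corner 21 12 11 [10, 3] [19, 20])), .ne 3 23 (.five 21 12 13 22 3),
  .ne 3 24 (.five 21 12 13 14 3), .ne 4 10 (.base (.corner 14 24 23 [22, 13] [22, 4, 16, 15])),
  .ne 4 16 (.base (.corner 14 24 23 [22, 13] [22, 4, 15])),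
  .ne 4 19 (.base (.corner 11 12 13 [22, 4] [14, 15, 16, 10])), .ne 4 20 (.five 21 12 13 22 4),
  .ne 4 25 (.base (.corner 14 24 23 [22, 13] [22, 4, 15])),
  .ne 5 11 (.base (.corner 14 24 23 [22, 13] [5, 12, 13])), .ne 5 16 (.five 24 14 15 5 23),
  .ne 5 21 (.base (.corner 14 24 23 [22, 13] [5, 12, 13])), .ne 5 25 (.five 24 14 15 5 23),
  .ne 6 7 (.five 24 14 15 25 6), .ne 6 10 (.five 24 14 15 16 6),
  .ne 6 11 (.base (.corner 24 6 12 [13, 14] [13, 22, 23])),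
  .ne 6 21 (.base (.corner 24 6 12 [13, 14] [13, 22, 23])), .ne 6 26 (.five 24 14 15 25 6),
  .ne 6 27 (.five 24 14 15 16 6), .ne 7 11 (.base (.corner 25 26 27 [16, 15] [16, 10, 7])),
  .ne 7 12 (.base (.corner 25 26 27 [16, 15] [16, 10, 11, 7])),
  .ne 7 17 (.base (.corner 25 26 27 [16, 15] [16, 10, 7])),
  .ne 7 22 (.base (.corner 24 23 7 [13, 14] [25, 15, 14])), .ne 7 23 (.five 24 14 15 25 7),
  .ne 8 11 (.five 27 16 10 8 26), .ne 8 13 (.base (.corner 16 27 26 [25, 15] [8, 14, 15])),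
  .ne 8 17 (.five 27 16 10 8 26), .ne 8 24 (.base (.corner 16 27 26 [25, 15] [8, 14, 15])),
  .ne 9 12 (.five 27 16 10 11 9), .ne 9 13 (.base (.corner 25 26 27 [16, 15] [9, 14, 15])),
  .ne 9 18 (.five 27 16 10 17 9), .ne 9 19 (.five 27 16 10 11 9),
  .ne 9 24 (.base (.corner 25 26 27 [16, 15] [9, 14, 15])), .ne 10 23 (.five 24 14 15 16 10),
  .ne 12 26 (.five 27 16 10 11 12), .ne 14 18 (.base (.corner 11 12 13 [14, 19] [14, 17, 10])),
  .ne 15 20 (.five 21 12 13 14 15),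
  .ne 17 22 (.base (.corner 14 24 23 [17, 13] [17, 10, 16, 15])),
  .ne 17 24 (.base (.corner 11 12 13 [14, 17, 10] [14, 17, 18, 19])),
  .ne 18 22 (.base (.corner 13 18 17 [10, 11, 12] [10, 16, 15, 14])),
  .ne 18 25 (.base (.corner 18 26 27 [16, 15] [16, 10, 17])), .ne 18 26 (.five 27 16 10 17 18),
  .ne 19 23 (.base (.corner 19 24 14 [13, 22] [13, 12, 11])),
  .ne 19 24 (.base (.corner 11 12 13 [14, 19] [22, 23, 19])),
  .ne 19 25 (.base (.corner 19 26 27 [16, 15] [16, 10, 11])), .ne 19 26 (.five 27 16 10 11 19),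
  .ne 20 23 (.five 21 12 13 22 20), .ne 20 24 (.five 21 12 13 14 20),
  .ne 20 27 (.base (.corner 10 16 20 [19, 11] [19, 18, 17])), .ne 21 25 (.five 21 12 13 14 15),
  .ne 21 27 (.base (.corner 21 12 11 [10, 16] [19, 20])),
  .ne 22 26 (.base (.corner 14 24 23 [22, 13] [22, 25, 15])),
  .ne 22 27 (.base (.corner 14 24 23 [22, 13] [22, 16, 15])), .ne 23 26 (.five 24 14 15 25 23),
  .ne 23 27 (.five 24 14 15 16 23), .ne 0 3 (.base (.corner 21 12 11 [19, 20] [10, 17, 0])),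
  .ne 0 7 (.base (.corner 25 26 27 [16, 15] [16, 10, 17, 0])),
  .ne 0 8 (.base (.corner 16 27 26 [25, 15] [0, 17, 10])),
  .ne 0 22 (.base (.corner 11 12 13 [0, 17, 10] [0, 17, 18, 19])),
  .ne 0 24 (.base (.corner 11 12 13 [14, 0, 17, 10] [14, 15, 16, 10])),
  .ne 1 9 (.base (.corner 16 27 1 [18, 17, 10] [18, 19, 11, 10])),
  .ne 1 14 (.base (.corner 11 12 13 [1, 18, 19] [1, 18, 17, 10])),
  .ne 1 22 (.base (.corner 11 12 13 [1, 18, 19] [1, 18, 17, 10])),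
  .ne 1 25 (.base (.corner 1 26 27 [16, 15] [16, 10, 17, 18])),
  .ne 1 26 (.base (.corner 18 17 10 [11, 19] [16, 27, 1])),
  .ne 2 4 (.base (.corner 11 12 13 [14, 15, 16, 10] [22, 2, 20, 19])),
  .ne 2 15 (.base (.corner 21 12 11 [19, 20] [10, 16, 2, 20])),
  .ne 2 23 (.base (.corner 2 24 14 [13, 22] [13, 12, 21, 20])),
  .ne 2 24 (.base (.corner 21 12 13 [14, 2, 20] [22, 23, 2, 20])),
  .ne 2 27 (.base (.corner 21 12 11 [19, 20] [10, 16, 2, 20])),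
  .ne 3 5 (.base (.corner 14 24 23 [22, 13] [3, 21, 12, 13])),
  .ne 3 6 (.base (.corner 21 12 13 [14, 24, 3] [22, 23, 24, 3])),
  .ne 3 25 (.base (.corner 15 3 21 [12, 13, 14] [12, 11, 10, 16])),
  .ne 3 27 (.base (.corner 21 12 11 [19, 20] [10, 16, 3])),
  .ne 4 7 (.base (.corner 14 24 23 [22, 13] [22, 4, 25, 15])),
  .ne 4 17 (.base (.corner 11 12 13 [22, 4, 10] [14, 15, 16, 10])),
  .ne 4 18 (.base (.corner 11 12 13 [22, 4, 19] [14, 15, 16, 10])),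
  .ne 4 26 (.base (.corner 14 24 23 [22, 13] [22, 4, 25, 15])),
  .ne 4 27 (.base (.corner 16 4 22 [13, 14, 15] [13, 12, 11, 10])),
  .ne 5 7 (.base (.corner 14 24 23 [22, 13] [5, 25, 15])),
  .ne 5 10 (.base (.corner 14 24 23 [22, 13] [5, 16, 15])),
  .ne 5 19 (.base (.corner 14 24 23 [22, 13] [5, 11, 12, 13])),
  .ne 5 20 (.base (.corner 14 24 23 [22, 13] [5, 21, 12, 13])),
  .ne 5 26 (.base (.corner 14 24 23 [22, 13] [5, 25, 15])),
  .ne 5 27 (.base (.corner 14 24 23 [22, 13] [5, 16, 15])),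
  .ne 6 8 (.base (.corner 16 27 26 [25, 15] [6, 24, 14, 15])),
  .ne 6 9 (.base (.corner 25 26 27 [16, 15] [6, 24, 14, 15])),
  .ne 6 17 (.base (.corner 24 6 10 [16, 15, 14] [11, 12, 13, 14])),
  .ne 6 19 (.base (.corner 24 6 11 [12, 13, 14] [10, 16, 15, 14])),
  .ne 6 20 (.base (.corner 24 6 21 [12, 13, 14] [12, 13, 22, 23])),
  .ne 7 18 (.base (.corner 17 7 25 [15, 16, 10] [26, 27, 16, 10])),
  .ne 7 19 (.base (.corner 25 7 11 [10, 16, 15] [10, 16, 27, 26])),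
  .ne 7 21 (.base (.corner 25 7 12 [13, 14, 15] [11, 10, 16, 15])),
  .ne 8 12 (.base (.corner 8 26 25 [15, 14, 13] [15, 16, 10, 11])),
  .ne 8 18 (.base (.corner 8 26 27 [16, 10, 17] [16, 10, 11, 19])),
  .ne 8 19 (.base (.corner 8 26 27 [16, 10, 11] [16, 10, 17, 18])),
  .ne 8 22 (.base (.corner 8 26 25 [15, 14, 13] [15, 14, 24, 23])),
  .ne 8 23 (.base (.corner 8 26 25 [15, 14, 24] [15, 14, 13, 22])),
  .ne 9 20 (.base (.corner 16 27 9 [19, 11, 10] [19, 18, 17, 10])),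
  .ne 9 21 (.base (.corner 16 27 9 [12, 11, 10] [20, 19, 11, 10])),
  .ne 9 22 (.base (.corner 25 26 27 [16, 15] [9, 13, 14, 15])),
  .ne 9 23 (.base (.corner 25 26 27 [16, 15] [9, 24, 14, 15])),
  .ne 17 23 (.base (.corner 17 24 14 [13, 22] [15, 16, 10])),
  .ne 18 23 (.base (.corner 18 24 14 [13, 22] [13, 12, 11, 19])),
  .ne 18 24 (.base (.corner 14 18 17 [10, 16, 15] [10, 11, 12, 13])),
  .ne 20 25 (.base (.corner 15 20 19 [11, 10, 16] [18, 17, 10, 16])),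
  .ne 20 26 (.base (.corner 21 12 11 [19, 20] [10, 16, 27, 20])),
  .ne 21 26 (.base (.corner 21 12 11 [19, 20] [10, 16, 27])),
  .ne 0 4 (.base (.corner 11 12 13 [14, 15, 16, 10] [22, 0, 17, 10])),
  .ne 0 6 (.base (.corner 16 15 14 [24, 0, 17, 10] [13, 12, 11, 10])),
  .ne 0 23 (.base (.corner 0 24 14 [13, 22] [15, 16, 10, 17])),
  .ne 1 4 (.base (.corner 11 12 13 [14, 15, 16, 10] [22, 1, 18, 19])),
  .ne 1 7 (.base (.corner 18 17 10 [11, 19] [16, 15, 25, 1])),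
  .ne 1 8 (.base (.corner 16 27 26 [25, 15] [1, 18, 17, 10])),
  .ne 1 23 (.base (.corner 11 12 13 [14, 15, 16, 10] [22, 1, 18, 19])),
  .ne 1 24 (.base (.corner 11 12 13 [14, 1, 18, 19] [14, 15, 16, 10])),
  .ne 2 5 (.base (.corner 13 22 23 [24, 14] [2, 20, 21, 12])),
  .ne 2 6 (.base (.corner 12 13 14 [24, 2, 20, 21] [15, 16, 10, 11])),
  .ne 2 9 (.base (.corner 11 19 20 [21, 12] [2, 27, 16, 10])),
  .ne 2 25 (.base (.corner 12 13 14 [15, 16, 10, 11] [15, 2, 20, 21])),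
  .ne 2 26 (.base (.corner 16 27 2 [25, 15] [20, 19, 11, 10])),
  .ne 3 7 (.base (.corner 12 13 14 [15, 16, 10, 11] [15, 25, 3, 21])),
  .ne 3 9 (.base (.corner 21 12 11 [19, 20] [10, 16, 27, 3])),
  .ne 3 26 (.base (.corner 21 12 11 [19, 20] [10, 16, 27, 3])),
  .ne 4 8 (.base (.corner 14 13 22 [23, 24] [4, 26, 25, 15])),
  .ne 4 9 (.base (.corner 14 13 22 [23, 24] [4, 27, 16, 15])),
  .ne 5 8 (.base (.corner 14 24 23 [22, 13] [5, 26, 25, 15])),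
  .ne 5 9 (.base (.corner 14 24 23 [22, 13] [5, 27, 16, 15])),
  .ne 5 17 (.base (.corner 14 24 23 [22, 13] [5, 10, 16, 15])),
  .ne 5 18 (.base (.corner 11 12 13 [14, 15, 16, 10] [22, 23, 5, 19])),
  .ne 6 18 (.base (.corner 14 24 6 [19, 11, 12, 13] [17, 10, 16, 15])),
  .ne 7 20 (.base (.corner 12 13 14 [15, 16, 10, 11] [15, 25, 7, 21])),
  .ne 8 20 (.base (.corner 16 27 26 [25, 15] [8, 19, 11, 10])),
  .ne 8 21 (.base (.corner 16 27 26 [25, 15] [8, 12, 11, 10])),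
  .na 0 15 (.base (.corner 10 16 15 [0, 17] [14, 13, 12, 11])),
  .na 1 12 (.base (.corner 1 12 11 [19, 18] [10, 17, 18])),
  .na 2 10 (.base (.corner 21 12 11 [19, 20] [10, 2, 20])), .na 2 13 (.five 21 12 13 2 20),
  .na 3 10 (.base (.corner 21 12 11 [10, 3] [19, 20])), .na 10 24 (.five 24 14 15 16 10),
  .na 11 23 (.base (.corner 14 24 23 [22, 13] [11, 12, 13])),
  .na 11 24 (.base (.corner 11 24 14 [13, 12] [15, 16, 10])), .na 11 26 (.five 27 16 10 11 26),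
  .na 12 25 (.base (.corner 25 26 27 [16, 15] [16, 10, 11, 12])),
  .na 12 27 (.five 27 16 10 11 12), .na 13 18 (.base (.corner 11 12 13 [18, 19] [18, 17, 10])),
  .na 14 17 (.base (.corner 11 12 13 [14, 17, 10] [14, 17, 18, 19])),
  .na 14 19 (.base (.corner 11 12 13 [14, 19] [14, 15, 16, 10])),
  .na 14 20 (.five 21 12 13 14 20), .na 15 21 (.five 21 12 13 14 15),
  .na 16 20 (.base (.corner 10 16 20 [19, 11] [19, 18, 17])),
  .na 16 21 (.base (.corner 21 12 11 [10, 16] [19, 20])), .na 16 23 (.five 24 14 15 16 23),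
  .na 19 22 (.base (.corner 11 12 13 [22, 19] [14, 15, 16, 10])),
  .na 19 27 (.five 27 16 10 11 19), .ne 0 5 (.long 14 24 23 [0, 17, 10, 16, 15] [22, 13]),
  .ne 1 5 (.long 11 12 13 [22, 23, 1, 18, 19] [14, 15, 16, 10]),
  .ne 1 6 (.long 11 12 13 [14, 24, 1, 18, 19] [14, 15, 16, 10]),
  .ne 2 7 (.long 12 13 14 [15, 25, 2, 20, 21] [15, 16, 10, 11]),
  .ne 2 8 (.long 16 27 26 [2, 20, 19, 11, 10] [25, 15]),
  .ne 3 8 (.long 16 27 26 [3, 21, 12, 11, 10] [25, 15])]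

theorem P2_chk : chk (P2 (4, 5) (7, 8)).ed (inner (P2 (4, 5) (7, 8))) tP2 = true := by
  decide +kernel

theorem P2_base : finM (P2 (4, 5) (7, 8)) [] [] [] [] [(13, 12, 21), (15, 14, 24), (10, 16, 27)]
    P2_steps = true := by
  decide +kernel

end Pool.Agent.U2Geo
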