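import Pool.Agent.Work.MP_392c8e_co_t1.Strict

/-!
# Lifting colourings of bounded height

A strict colouring of height less than `n` is a strict colouring whose values of `τ` are natural
numbers less than `n`.  It is the same as a `(p, q)`-colouring with `p / q` at most `3 - a`, up to
the size of `a`.  If the graph `G` arises from a graph `G'` by changing many small clusters, and
every strict colouring of `G'` extends to `G` without changing the heights outside the clusters,
then a bound for the height of `G'` gives a bound for the height of `G`.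
-/

namespace Pool.Agent.Uni392

open Finset
open Pool.Agent.T1Red (Str Strict HasStrict HasPQ)

/-- A strict colouring with natural heights less than `n`. -/
def StrictN {V : Type*} (G : SimpleGraph V) (n : ℕ) : Prop :=
  ∃ (c : V → ZMod 3) (τ : V → ℕ), (∀ v, τ v < n) ∧ ∀ u v, G.Adj u v → Str c τ u v

theorem StrictN.mono {V : Type*} {G H : SimpleGraph V} {n m : ℕ} (h : StrictN G n) (hle : H ≤ G)
    (hnm : n ≤ m) : StrictN H m := by
  obtain ⟨c, τ, h1, h2⟩ := h
  exact ⟨c, τ, fun v => (h1 v).trans_le hnm, fun u v huv => h2 u v (hle huv)⟩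

/-- Heights less than `n` give a `(3 n, n + 1)`-colouring. -/
theorem StrictN.hasPQ {V : Type*} {G : SimpleGraph V} {n : ℕ} (h : StrictN G n) :
    HasPQ G (3 * n) (n + 1) := by
  obtain ⟨c, τ, hτ, h⟩ := h
  have hc : ∀ v, (c v).val < 3 := fun v => ZMod.val_lt _
  have key : ∀ a b : ZMod 3, b = a + 1 → (a.val = 0 ∧ b.val = 1) ∨ (a.val = 1 ∧ b.val = 2) ∨
      (a.val = 2 ∧ b.val = 0) := by decide
  have main : ∀ u v, c v = c u + 1 → τ u < τ v →
      ((n + 1 : ℕ) : ℤ) ≤ |((n * (c u).val + τ u : ℕ) : ℤ) - ((n * (c v).val + τ v : ℕ) : ℤ)| ∧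
      |((n * (c u).val + τ u : ℕ) : ℤ) - ((n * (c v).val + τ v : ℕ) : ℤ)| ≤
        ((3 * n : ℕ) : ℤ) - ((n + 1 : ℕ) : ℤ) := by
    intro u v h1 h2
    have h4 := hτ u
    have h5 := hτ v
    rcases key _ _ h1 with ⟨h6, h7⟩ | ⟨h6, h7⟩ | ⟨h6, h7⟩
    · rw [h6, h7]
      push_cast
      rw [abs_of_nonpos (by omega)]
      constructor <;> omega
    · rw [h6, h7]
      push_cast
      rw [abs_of_nonpos (by omega)]
      constructor <;> omega
    · rw [h6, h7]
      push_cast
      rw [abs_of_nonneg (by omega)]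
      constructor <;> omega
  refine ⟨fun v => n * (c v).val + τ v, fun v => ?_, fun u v huv => ?_⟩
  · have h4 := hτ v
    have h5 := hc v
    have : n * (c v).val ≤ n * 2 := Nat.mul_le_mul_left _ (by omega)
    show n * (c v).val + τ v < 3 * n
    omega
  · rcases h u v huv with ⟨h1, h2⟩ | ⟨h1, h2⟩
    · exact main u v h1 h2
    · have := main v u h1 h2
      rw [abs_sub_comm] at this
      exact this

/-- A `(p, q)`-colouring with `p < 3 q` gives heights at most `p / (3 q - p)`. -/
theorem StrictN.of_hasPQ {V : Type*} {G : SimpleGraph V} {p q : ℕ} (h : HasPQ G p q)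
    (hpq : p < 3 * q) : StrictN G (p / (3 * q - p) + 1) := by
  obtain ⟨c, hc, h⟩ := h
  set g : ℕ := 3 * q - p with hg
  have hg0 : 0 < g := by omega
  have hmain : ∀ a b : ℕ, a < p → b < p → (q : ℤ) ≤ (b : ℤ) - a → (b : ℤ) - a ≤ (p : ℤ) - q →
      (3 * b / p = 3 * a / p + 1 ∧ 3 * a % p + g ≤ 3 * b % p) ∨
      (3 * b / p = 2 ∧ 3 * a / p = 0 ∧ 3 * b % p + g ≤ 3 * a % p) := by
    intro a b ha hb h1 h2
    have hp : 0 < p := by omega
    have e1 := Nat.div_add_mod (3 * a) p
    have e2 := Nat.div_add_mod (3 * b) p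
    have f1 := Nat.mod_lt (3 * a) hp
    have f2 := Nat.mod_lt (3 * b) hp
    have g1 : 3 * a / p < 3 := Nat.div_lt_of_lt_mul (by omega)
    have g2 : 3 * b / p < 3 := Nat.div_lt_of_lt_mul (by omega)
    generalize 3 * a / p = x at *
    generalize 3 * b / p = y at *
    generalize 3 * a % p = s at *
    generalize 3 * b % p = r at *
    interval_cases x <;> interval_cases y <;> omega
  have hcast : ∀ a b : ℕ, b = a + 1 → ((b : ℕ) : ZMod 3) = (a : ZMod 3) + 1 := by
    intro a b hab
    rw [hab]
    push_cast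
    rfl
  have hdiv : ∀ a b : ℕ, a + g ≤ b → a / g < b / g := by
    intro a b hab
    have h1 : (a + g) / g ≤ b / g := Nat.div_le_div_right hab
    rw [Nat.add_div_right _ hg0] at h1
    exact h1
  have hdir : ∀ u v, (q : ℤ) ≤ (c v : ℤ) - c u → (c v : ℤ) - c u ≤ (p : ℤ) - q →
      Str (fun v => ((3 * c v / p : ℕ) : ZMod 3)) (fun v => 3 * c v % p / g) u v := by
    intro u v h1 h2
    rcases hmain (c u) (c v) (hc u) (hc v) h1 h2 with ⟨h3, h4⟩ | ⟨h3, h4, h5⟩
    · exact Or.inl ⟨hcast _ _ h3, hdiv _ _ h4⟩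
    · refine Or.inr ⟨?_, hdiv _ _ h5⟩
      show ((3 * c u / p : ℕ) : ZMod 3) = ((3 * c v / p : ℕ) : ZMod 3) + 1
      rw [h3, h4]
      decide
  refine ⟨fun v => ((3 * c v / p : ℕ) : ZMod 3), fun v => 3 * c v % p / g, fun v => ?_,
    fun u v huv => ?_⟩
  · have hp : 0 < p := lt_of_le_of_lt (Nat.zero_le _) (hc v)
    exact Nat.lt_succ_of_le (Nat.div_le_div_right (Nat.mod_lt _ hp).le)
  · obtain ⟨h1, h2⟩ := h u v huv
    rcases le_total 0 ((c v : ℤ) - c u) with h3 | h3
    · rw [abs_sub_comm, abs_of_nonneg h3] at h1 h2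
      exact hdir u v h1 h2
    · rw [abs_sub_comm, abs_of_nonpos h3] at h1 h2
      exact (hdir v u (by omega) (by omega)).symm

/-- The heights can be made different on the sets where a given colouring is injective. -/
theorem StrictN.spread {V : Type*} {G : SimpleGraph V} {n R : ℕ} (h : StrictN G n) (ρ : V → ℕ)
    (hρ : ∀ v, ρ v < R) : ∃ (c : V → ZMod 3) (τ : V → ℕ), (∀ v, τ v < R * n) ∧
      (∀ u v, G.Adj u v → Str c τ u v) ∧ ∀ u v, τ u = τ v → ρ u = ρ v := by
  obtain ⟨c, τ, h1, h2⟩ := h
  have hlt : ∀ u v, τ u < τ v → R * τ u + ρ u < R * τ v + ρ v := by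
    intro u v huv
    have h3 := hρ u
    have h4 : R * (τ u + 1) ≤ R * τ v := Nat.mul_le_mul_left _ huv
    rw [mul_add] at h4
    omega
  refine ⟨c, fun v => R * τ v + ρ v, fun v => ?_, fun u v huv => ?_, fun u v huv => ?_⟩
  · have h3 := hρ v
    have h4 : R * (τ v + 1) ≤ R * n := Nat.mul_le_mul_left _ (h1 v)
    rw [mul_add] at h4
    show R * τ v + ρ v < R * n
    omega
  · rcases h2 u v huv with ⟨h3, h4⟩ | ⟨h3, h4⟩
    · exact Or.inl ⟨h3, hlt u v h4⟩
    · exact Or.inr ⟨h3, hlt v u h4⟩
  · have huv' : R * τ u + ρ u = R * τ v + ρ v := huv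
    rcases lt_trichotomy (τ u) (τ v) with h3 | h3 | h3
    · exact absurd huv' (hlt u v h3).ne
    · rw [h3] at huv'
      omega
    · exact absurd huv' (hlt v u h3).ne'

/-- The level of a real height, relative to the integers `0, …, M - 1`: the number of these
integers that are at most the height. -/
noncomputable def fl (M : ℕ) (r : ℝ) : ℕ := min (Int.toNat (⌊r⌋ + 1)) M

theorem fl_mono {M : ℕ} {r r' : ℝ} (h : r ≤ r') : fl M r ≤ fl M r' := by
  unfold fl
  have h1 : ⌊r⌋ ≤ ⌊r'⌋ := Int.floor_mono h
  have h2 : Int.toNat (⌊r⌋ + 1) ≤ Int.toNat (⌊r'⌋ + 1) := Int.toNat_le_toNat (by omega)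
  exact min_le_min h2 le_rfl

theorem fl_le {M : ℕ} (r : ℝ) : fl M r ≤ M := min_le_right _ _

theorem fl_le_of_lt {M : ℕ} {r : ℝ} {h : ℕ} (hr : r < h) : fl M r ≤ h := by
  unfold fl
  have h1 : ⌊r⌋ < (h : ℤ) := Int.floor_lt.2 (by exact_mod_cast hr)
  refine (min_le_left _ _).trans ?_
  omega

theorem lt_fl_of_lt {M : ℕ} {r : ℝ} {h : ℕ} (hr : (h : ℝ) < r) (hM : h < M) : h < fl M r := by
  unfold fl
  have h1 : (h : ℤ) ≤ ⌊r⌋ := Int.le_floor.2 (by exact_mod_cast hr.le)
  rw [lt_min_iff]
  refine ⟨?_, hM⟩
  omega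

/-- **Rounding.**  A strict colouring with integral heights outside small clusters which are not
adjacent to each other gives a strict colouring of bounded height. -/
theorem round {V I : Type*} [Fintype V] {G : SimpleGraph V} (cl : V → Option I) (s M : ℕ)
    (hs : ∀ i, {v | cl v = some i}.ncard ≤ s)
    (hadj : ∀ u v, G.Adj u v → ∀ i j, cl u = some i → cl v = some j → i = j)
    {c : V → ZMod 3} {τ : V → ℝ} (h : Strict G c τ) (h0 : V → ℕ)
    (hout : ∀ v, cl v = none → τ v = h0 v) (hM : ∀ v, h0 v < M) :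
    StrictN G ((s + 1) * (M + 1)) := by
  classical
  let P : V → Finset V := fun v =>
    univ.filter fun u => cl u = cl v ∧ fl M (τ u) = fl M (τ v) ∧ τ u ≤ τ v
  have hP : ∀ v, cl v ≠ none → 1 ≤ (P v).card ∧ (P v).card ≤ s := by
    intro v hv
    refine ⟨Finset.card_pos.2 ⟨v, by simp [P]⟩, ?_⟩
    obtain ⟨i, hi⟩ := Option.ne_none_iff_exists'.1 hv
    refine le_trans ?_ (hs i)
    rw [← Set.ncard_coe_finset]
    refine Set.ncard_le_ncard ?_ (Set.toFinite _)
    intro u hu
    have hu' : cl u = cl v ∧ fl M (τ u) = fl M (τ v) ∧ τ u ≤ τ v := by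
      simpa [P] using hu
    exact hu'.1.trans hi
  let H : V → ℕ := fun v =>
    if cl v = none then (s + 1) * (h0 v + 1) else (s + 1) * fl M (τ v) + (P v).card
  -- the main comparison
  have key : ∀ u v, G.Adj u v → τ u < τ v → H u < H v := by
    intro u v huv hlt
    by_cases hu : cl u = none
    · by_cases hv : cl v = none
      · have h1 : (h0 u : ℝ) < h0 v := by
          rw [← hout u hu, ← hout v hv]
          exact hlt
        have h2 : h0 u < h0 v := by exact_mod_cast h1
        show (if cl u = none then _ else _) < (if cl v = none then _ else _)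
        rw [if_pos hu, if_pos hv]
        exact Nat.mul_lt_mul_of_pos_left (by omega) (Nat.succ_pos s)
      · obtain ⟨h3, h4⟩ := hP v hv
        have h5 : h0 u < fl M (τ v) := by
          apply lt_fl_of_lt _ (hM u)
          rw [← hout u hu]
          exact hlt
        show (if cl u = none then _ else _) < (if cl v = none then _ else _)
        rw [if_pos hu, if_neg hv]
        have h6 : (s + 1) * (h0 u + 1) ≤ (s + 1) * fl M (τ v) := Nat.mul_le_mul_left _ h5
        omega
    · obtain ⟨h3, h4⟩ := hP u hu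
      by_cases hv : cl v = none
      · have h5 : fl M (τ u) ≤ h0 v := by
          apply fl_le_of_lt
          rw [← hout v hv]
          exact hlt
        show (if cl u = none then _ else _) < (if cl v = none then _ else _)
        rw [if_neg hu, if_pos hv, mul_add]
        have h6 : (s + 1) * fl M (τ u) ≤ (s + 1) * h0 v := Nat.mul_le_mul_left _ h5
        omega
      · obtain ⟨h3', h4'⟩ := hP v hv
        obtain ⟨i, hi⟩ := Option.ne_none_iff_exists'.1 hu
        obtain ⟨j, hj⟩ := Option.ne_none_iff_exists'.1 hv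
        have hij := hadj u v huv i j hi hj
        subst hij
        show (if cl u = none then _ else _) < (if cl v = none then _ else _)
        rw [if_neg hu, if_neg hv]
        rcases (fl_mono (M := M) hlt.le).lt_or_eq with h5 | h5
        · have h6 : (s + 1) * (fl M (τ u) + 1) ≤ (s + 1) * fl M (τ v) :=
            Nat.mul_le_mul_left _ h5
          rw [mul_add] at h6
          omega
        · have h6 : (P u).card < (P v).card := by
            refine Finset.card_lt_card ⟨fun x hx => ?_, fun hsub => ?_⟩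
            · have hx' : cl x = cl u ∧ fl M (τ x) = fl M (τ u) ∧ τ x ≤ τ u := by
                simpa [P] using hx
              have : cl x = cl v ∧ fl M (τ x) = fl M (τ v) ∧ τ x ≤ τ v :=
                ⟨hx'.1.trans (hi.trans hj.symm), hx'.2.1.trans h5, hx'.2.2.trans hlt.le⟩
              simpa [P] using this
            · have hv' : v ∈ P u := hsub (by simp [P])
              have : cl v = cl u ∧ fl M (τ v) = fl M (τ u) ∧ τ v ≤ τ u := by
                simpa [P] using hv'
              exact absurd this.2.2 (not_le.2 hlt)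
          rw [h5]
          omega
  refine ⟨c, H, fun v => ?_, fun u v huv => ?_⟩
  · by_cases hv : cl v = none
    · show (if cl v = none then _ else _) < _
      rw [if_pos hv]
      exact Nat.mul_lt_mul_of_pos_left (by have := hM v; omega) (Nat.succ_pos s)
    · obtain ⟨h3, h4⟩ := hP v hv
      show (if cl v = none then _ else _) < _
      rw [if_neg hv, mul_add]
      have h6 : (s + 1) * fl M (τ v) ≤ (s + 1) * M := Nat.mul_le_mul_left _ (fl_le _)
      omega
  · rcases h u v huv with ⟨h1, h2⟩ | ⟨h1, h2⟩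
    · exact Or.inl ⟨h1, key u v huv h2⟩
    · exact Or.inr ⟨h1, key v u huv.symm h2⟩

/-- **The lift.**  The vertices with `cl v = some i` form the cluster `i`; it has at most `s`
vertices, and there are no edges of `G` between different clusters.  The map `ρ` to `0, …, R - 1`
is injective on every set `Lab i`.  If every strict colouring of `G'` with different heights on
every set `Lab i` gives a strict colouring of `G` with the same heights outside the clusters, then
a colouring of `G'` of height less than `n` gives a colouring of `G` of height less than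
`(s + 1) (R n + 1)`. -/
theorem lift {V I : Type*} [Fintype V] {G G' : SimpleGraph V} (cl : V → Option I)
    (Lab : I → Set V) (s R n : ℕ) (hs : ∀ i, {v | cl v = some i}.ncard ≤ s)
    (hadj : ∀ u v, G.Adj u v → ∀ i j, cl u = some i → cl v = some j → i = j)
    (ρ : V → ℕ) (hρ : ∀ v, ρ v < R) (hinj : ∀ i, Set.InjOn ρ (Lab i))
    (hext : ∀ (c : V → ZMod 3) (τ : V → ℝ), Strict G' c τ → (∀ i, Set.InjOn τ (Lab i)) →
      ∃ (c' : V → ZMod 3) (τ' : V → ℝ), Strict G c' τ' ∧ ∀ v, cl v = none → τ' v = τ v)
    (h : StrictN G' n) : StrictN G ((s + 1) * (R * n + 1)) := by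
  obtain ⟨c, τ, h1, h2, h3⟩ := h.spread ρ hρ
  obtain ⟨c', τ', h4, h5⟩ := hext c (fun v => (τ v : ℝ)) (fun u v huv => by
    rcases h2 u v huv with ⟨h6, h7⟩ | ⟨h6, h7⟩
    · exact Or.inl ⟨h6, Nat.cast_lt.2 h7⟩
    · exact Or.inr ⟨h6, Nat.cast_lt.2 h7⟩) (fun i u hu v hv huv =>
      hinj i hu hv (h3 u v (Nat.cast_injective huv)))
  exact round cl s (R * n) hs hadj h4 τ h5 h1

/-- The lift with local extensions: every cluster is treated separately. -/
theorem lift_local {V I : Type*} [Fintype V] {G G' : SimpleGraph V} (cl : V → Option I)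
    (Lab : I → Set V) (s R n : ℕ) (hs : ∀ i, {v | cl v = some i}.ncard ≤ s)
    (hadj : ∀ u v, G.Adj u v → ∀ i j, cl u = some i → cl v = some j → i = j)
    (hout : ∀ u v, G.Adj u v → cl u = none → cl v = none → G'.Adj u v)
    (ρ : V → ℕ) (hρ : ∀ v, ρ v < R) (hinj : ∀ i, Set.InjOn ρ (Lab i))
    (hext : ∀ (i : I) (c : V → ZMod 3) (τ : V → ℝ), Strict G' c τ → Set.InjOn τ (Lab i) →
      ∃ (c' : V → ZMod 3) (τ' : V → ℝ), (∀ v, cl v = none → c' v = c v ∧ τ' v = τ v) ∧
        ∀ u v, G.Adj u v → cl u = some i → Str c' τ' u v)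
    (h : StrictN G' n) : StrictN G ((s + 1) * (R * n + 1)) := by
  refine lift cl Lab s R n hs hadj ρ hρ hinj (fun c τ hst hin => ?_) h
  choose c1 τ1 h1 h2 using fun i => hext i c τ hst (hin i)
  refine ⟨fun v => (cl v).elim (c v) fun i => c1 i v, fun v => (cl v).elim (τ v) fun i => τ1 i v,
    ?_, fun v hv => by
      show (cl v).elim (τ v) _ = τ v
      rw [hv]
      rfl⟩
  have hin : ∀ u v, G.Adj u v → cl u ≠ none → Str (fun v => (cl v).elim (c v) fun i => c1 i v)
      (fun v => (cl v).elim (τ v) fun i => τ1 i v) u v := by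
    intro u v huv hu
    obtain ⟨i, hi⟩ := Option.ne_none_iff_exists'.1 hu
    refine (h2 i u v huv hi).of_eq ?_ ?_ ?_ ?_
    · show (cl u).elim (c u) _ = _
      rw [hi]
      rfl
    · show (cl u).elim (τ u) _ = _
      rw [hi]
      rfl
    · show (cl v).elim (c v) _ = _
      cases hv : cl v with
      | none => exact (h1 i v hv).1.symm
      | some j =>
        have := hadj u v huv i j hi hv
        subst this
        rfl
    · show (cl v).elim (τ v) _ = _
      cases hv : cl v with
      | none => exact (h1 i v hv).2.symm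
      | some j =>
        have := hadj u v huv i j hi hv
        subst this
        rfl
  intro u v huv
  by_cases hu : cl u = none
  · by_cases hv : cl v = none
    · refine (hst u v (hout u v huv hu hv)).of_eq ?_ ?_ ?_ ?_
      · show (cl u).elim (c u) _ = _
        rw [hu]
        rfl
      · show (cl u).elim (τ u) _ = _
        rw [hu]
        rfl
      · show (cl v).elim (c v) _ = _
        rw [hv]
        rfl
      · show (cl v).elim (τ v) _ = _
        rw [hv]
        rfl
    · exact (hin v u huv.symm hv).symm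
  · exact hin u v huv hu

end Pool.Agent.Uni392
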