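import Mathlib
import Pool.Agent.Work.MP_392c8e_co_arb.PlaneG
import Pool.Agent.Work.MP_392c8e_co_t1.Strict
import Pool.Agent.Work.MP_974d84_co.MHoffman

/-!
# Potentials from charges of the faces

Integral charges `w` of the faces of a plane graph, with `|w S|` at most the weight of the boundary
of `S` for every set `S` of faces, give a real potential `y` on the vertices whose differences along
the edges are near integers `p` of prescribed parities.  Pairs of vertices whose difference is near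
an odd integer satisfy the strict relation for a colouring with bounded heights.
-/

namespace Pool.Agent.Uni91

open Finset Pool.Agent.Sub392 Pool.Agent.Circ

set_option linter.unusedSectionVars false

variable {V : Type} [Fintype V] [DecidableEq V] {G : SimpleGraph V} [DecidableRel G.Adj]

section flow

variable {W E : Type*} [Fintype W] [DecidableEq W] [Fintype E] [DecidableEq E]

/-- The capacity of a cut with symmetric bounds. -/
theorem cap_symm (s t : E → W) (a : E → ℤ) (Z : Finset W) :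
    ∑ e, MP974d84.cap s t (fun e => -a e) a Z e = ∑ e ∈ cut s t Z, a e := by
  unfold cut
  rw [sum_filter]
  refine sum_congr rfl fun e _ => ?_
  unfold MP974d84.cap
  by_cases h1 : s e ∈ Z <;> by_cases h2 : t e ∈ Z <;> simp [h1, h2]

/-- The divergence through a set without boundary. -/
theorem sum_D_of_cut (s t : E → W) (f : E → ℤ) {Z : Finset W} (h : cut s t Z = ∅) :
    ∑ a ∈ Z, MP974d84.D s t f a = 0 := by
  rw [MP974d84.D_cut]
  refine sum_eq_zero fun e _ => ?_
  have h1 : (s e ∈ Z ↔ t e ∈ Z) := by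
    by_contra hcon
    have : e ∈ cut s t Z := by
      unfold cut
      rw [mem_filter]
      exact ⟨mem_univ e, hcon⟩
    rw [h] at this
    exact notMem_empty e this
  unfold MP974d84.ov
  by_cases h2 : s e ∈ Z
  · rw [if_pos h2, if_pos (h1.1 h2), sub_self]
  · rw [if_neg h2, if_neg (fun h3 => h2 (h1.2 h3)), sub_self]

/-- Integral flows with prescribed divergence and parities. -/
theorem exists_int_flow (s t : E → W) (w : W → ℤ) (b : E → ℤ)
    (hpar : ∀ f, (2 : ℤ) ∣ w f - MP974d84.D s t b f)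
    (h0 : ∀ Z : Finset W, cut s t Z = ∅ → ∑ f ∈ Z, w f = 0) :
    ∃ p : E → ℤ, (∀ e, (2 : ℤ) ∣ p e - b e) ∧ ∀ f, MP974d84.D s t p f = w f := by
  classical
  choose q hq using hpar
  set M : ℤ := ∑ f, |q f| with hM
  have hM0 : 0 ≤ M := sum_nonneg fun f _ => abs_nonneg _
  have hle : ∀ Z : Finset W, ∑ f ∈ Z, q f ≤ M := fun Z =>
    (sum_le_sum fun f _ => le_abs_self (q f)).trans
      (sum_le_sum_of_subset_of_nonneg (subset_univ Z) fun f _ _ => abs_nonneg _)
  have hz : ∀ Z : Finset W, cut s t Z = ∅ → ∑ f ∈ Z, q f = 0 := by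
    intro Z hZ
    have h1 : ∑ f ∈ Z, (w f - MP974d84.D s t b f) = 2 * ∑ f ∈ Z, q f := by
      rw [mul_sum]
      exact sum_congr rfl fun f _ => hq f
    rw [sum_sub_distrib, h0 Z hZ, sum_D_of_cut s t b hZ] at h1
    omega
  obtain ⟨g, hg, hgD⟩ := MP974d84.hoffmanE s t (fun _ => -M) (fun _ => M) (fun _ => by omega) q
    (hz univ (by
      unfold cut
      rw [filter_eq_empty_iff]
      intro e _
      simp)) (by
      intro Z
      rw [cap_symm s t (fun _ => M) Z]
      rcases (cut s t Z).eq_empty_or_nonempty with h1 | h1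
      · rw [h1, sum_empty, hz Z h1]
      · rw [sum_const, nsmul_eq_mul]
        refine (hle Z).trans ?_
        have h2 : (1 : ℤ) ≤ ((cut s t Z).card : ℤ) := by
          exact_mod_cast card_pos.2 h1
        nlinarith)
  refine ⟨fun e => b e + (g e + g e), fun e => ⟨g e, by ring⟩, fun f => ?_⟩
  rw [MP974d84.D_add, MP974d84.D_add, hgD]
  have := hq f
  omega

/-- Flows with divergence `w` modulo errors of at most the weights: an integral flow of prescribed
parities with divergence `w` and a real circulation near it. -/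
theorem exists_circ (s t : E → W) (w : W → ℤ) (b : E → ℤ) {N : ℕ} (hN : 0 < N) (om : E → ℕ)
    (hpar : ∀ f, (2 : ℤ) ∣ w f - MP974d84.D s t b f)
    (h : ∀ Z : Finset W, (N : ℤ) * |∑ f ∈ Z, w f| ≤ ∑ e ∈ cut s t Z, (om e : ℤ)) :
    ∃ (p : E → ℤ) (x : E → ℝ), (∀ e, (2 : ℤ) ∣ p e - b e) ∧ (∀ f, dv s t x f = 0) ∧
      ∀ e, |x e - p e| ≤ (om e : ℝ) / N := by
  classical
  have hN0 : (0 : ℝ) < N := by exact_mod_cast hN
  have h0 : ∀ Z : Finset W, cut s t Z = ∅ → ∑ f ∈ Z, w f = 0 := by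
    intro Z hZ
    have h1 := h Z
    rw [hZ, sum_empty] at h1
    have h2 := abs_nonneg (∑ f ∈ Z, w f)
    have h3 : (0 : ℤ) < N := by exact_mod_cast hN
    have h4 : |∑ f ∈ Z, w f| = 0 := by nlinarith
    exact abs_eq_zero.1 h4
  obtain ⟨p, hp, hpD⟩ := exists_int_flow s t w b hpar h0
  obtain ⟨g, hg, hgD⟩ := MP974d84.hoffmanE s t (fun e => -(om e : ℤ)) (fun e => (om e : ℤ))
    (fun e => by
      have : (0 : ℤ) ≤ om e := Nat.cast_nonneg _
      omega) (fun v => -((N : ℤ) * w v)) (by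
      rw [sum_neg_distrib, ← mul_sum, h0 univ (by
        unfold cut
        rw [filter_eq_empty_iff]
        intro e _
        simp), mul_zero, neg_zero]) (by
      intro Z
      rw [cap_symm s t (fun e => (om e : ℤ)) Z]
      refine le_trans ?_ (h Z)
      rw [sum_neg_distrib, ← mul_sum, ← mul_neg]
      exact mul_le_mul_of_nonneg_left (neg_le_abs _) (by positivity))
  refine ⟨p, fun e => p e + (g e : ℝ) / N, hp, fun f => ?_, fun e => ?_⟩
  · have h1 : dv s t (fun e => (p e : ℝ) + (g e : ℝ) / N) f =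
        ((MP974d84.D s t p f : ℤ) : ℝ) + ((MP974d84.D s t g f : ℤ) : ℝ) / N := by
      unfold dv MP974d84.D
      push_cast
      rw [Finset.sum_div, ← sum_add_distrib]
      refine sum_congr rfl fun e _ => ?_
      split_ifs <;> ring
    rw [h1, hpD, hgD]
    push_cast
    field_simp
    ring
  · have h1 : (-(om e : ℝ)) ≤ g e := by exact_mod_cast (hg e).1
    have h2 : (g e : ℝ) ≤ om e := by exact_mod_cast (hg e).2
    have e1 : (p e : ℝ) + (g e : ℝ) / N - p e = (g e : ℝ) / N := by ring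
    rw [e1, abs_div, abs_of_pos hN0]
    exact div_le_div_of_nonneg_right (abs_le.2 ⟨h1, h2⟩) hN0.le

end flow

/-- **Potentials from charges.** -/
theorem exists_pot (R : Rot G) (hP : R.Plane) (w : R.Face → ℤ) (b : Up G → ℤ) {N : ℕ}
    (hN : 0 < N) (om : Up G → ℕ)
    (hpar : ∀ f, (2 : ℤ) ∣ w f -
      MP974d84.D (fun e : Up G => R.face e.1) (fun e : Up G => R.face e.1.symm) b f)
    (h : ∀ Z : Finset R.Face, (N : ℤ) * |∑ f ∈ Z, w f| ≤
      ∑ e ∈ cut (fun e : Up G => R.face e.1) (fun e : Up G => R.face e.1.symm) Z, (om e : ℤ)) :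
    ∃ (y : V → ℝ) (p : Up G → ℤ), (∀ e, (2 : ℤ) ∣ p e - b e) ∧
      ∀ e : Up G, |y e.1.snd - y e.1.fst - p e| ≤ (om e : ℝ) / N := by
  classical
  obtain ⟨p, f, hp, hf, hb⟩ := exists_circ _ _ w b hN om hpar h
  set x : G.Dart → ℝ := fun d =>
    if h : (Fintype.equivFin V d.fst : ℕ) < Fintype.equivFin V d.snd then f ⟨d, h⟩
    else -(f ⟨d.symm, (up_or d).resolve_left h⟩) with hxdef
  have hx1 : ∀ a : Up G, x a.1 = f a := by
    intro a
    rw [hxdef]
    simp only
    rw [dif_pos a.2]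
    rfl
  have hx2 : ∀ a : Up G, x a.1.symm = -f a := by
    intro a
    have ha := a.2
    rw [hxdef]
    simp only
    rw [dif_neg (by
      intro h
      have h' : (Fintype.equivFin V a.1.snd : ℕ) < Fintype.equivFin V a.1.fst := h
      omega)]
    congr 2
  have hx : ∀ d, x d.symm = -x d := by
    intro d
    rcases up_or d with h | h
    · rw [hx2 ⟨d, h⟩, hx1 ⟨d, h⟩]
    · have := hx2 ⟨d.symm, h⟩
      simp only [SimpleGraph.Dart.symm_symm] at this
      rw [this, hx1 ⟨d.symm, h⟩, neg_neg]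
  obtain ⟨y, hy⟩ := R.exact hP x hx (by
    intro F
    rw [sum_filter, sum_dart]
    have h1 := hf F
    rw [Circ.dv] at h1
    refine Eq.trans ?_ h1
    refine sum_congr rfl fun a _ => ?_
    rw [hx1, hx2]
    split_ifs <;> simp)
  refine ⟨y, p, hp, fun e => ?_⟩
  have h1 := hy e.1
  rw [hx1] at h1
  rw [← h1]
  exact hb e

/-- Potentials from charges, real form of the cut condition. -/
theorem exists_pot_real (R : Rot G) (hP : R.Plane) (w : R.Face → ℤ) (b : Up G → ℤ) {N : ℕ}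
    (hN : 0 < N) (om : Up G → ℕ)
    (hpar : ∀ f, (2 : ℤ) ∣ w f -
      MP974d84.D (fun e : Up G => R.face e.1) (fun e : Up G => R.face e.1.symm) b f)
    (h : ∀ Z : Finset R.Face, |((∑ f ∈ Z, w f : ℤ) : ℝ)| ≤
      ∑ e ∈ cut (fun e : Up G => R.face e.1) (fun e : Up G => R.face e.1.symm) Z,
        (om e : ℝ) / N) :
    ∃ (y : V → ℝ) (p : Up G → ℤ), (∀ e, (2 : ℤ) ∣ p e - b e) ∧
      ∀ e : Up G, |y e.1.snd - y e.1.fst - p e| ≤ (om e : ℝ) / N := by
  refine exists_pot R hP w b hN om hpar fun Z => ?_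
  have hN0 : (0 : ℝ) < N := by exact_mod_cast hN
  have h1 := h Z
  rw [← sum_div, le_div_iff₀ hN0] at h1
  have h2 : (((N : ℤ) * |∑ f ∈ Z, w f| : ℤ) : ℝ) ≤ ((∑ e ∈ cut (fun e : Up G => R.face e.1)
      (fun e : Up G => R.face e.1.symm) Z, (om e : ℤ) : ℤ) : ℝ) := by
    push_cast at h1 ⊢
    linarith
  exact_mod_cast h2

/-! ## Bounded heights from a potential -/

/-- The pair is near an odd integer. -/
def NearOdd (y : V → ℝ) (θ : ℝ) (u v : V) : Prop :=
  ∃ k : ℤ, Odd k ∧ |y v - y u - k| ≤ θ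

theorem NearOdd.symm {y : V → ℝ} {θ : ℝ} {u v : V} (h : NearOdd y θ u v) :
    NearOdd y θ v u := by
  obtain ⟨k, hk, h⟩ := h
  refine ⟨-k, hk.neg, ?_⟩
  rw [← abs_neg]
  refine le_trans (le_of_eq ?_) h
  congr 1
  push_cast
  ring

/-- Strict relations for positions in the three arcs of a circle of length two. -/
theorem str_of_near {x x' θ : ℝ} (hθ : θ < 1 / 3) {i i' : ℕ} (hi : i < 3) (hi' : i' < 3)
    {a a' : ℝ} (ha0 : 0 ≤ a) (ha : a < 2 / 3) (ha0' : 0 ≤ a') (ha' : a' < 2 / 3)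
    {k k' : ℤ} (hx : x = 2 * k + 2 / 3 * i + a) (hx' : x' = 2 * k' + 2 / 3 * i' + a')
    {m : ℤ} (hm : Odd m) (h : |x' - x - m| ≤ θ) :
    (((i' : ℕ) : ZMod 3) = (i : ZMod 3) + 1 ∧ a + (1 / 3 - θ) ≤ a') ∨
      (((i : ℕ) : ZMod 3) = (i' : ZMod 3) + 1 ∧ a' + (1 / 3 - θ) ≤ a) := by
  obtain ⟨j, hj⟩ := hm
  rw [abs_le] at h
  obtain ⟨h1, h2⟩ := h
  rw [hx, hx', hj] at h1 h2
  push_cast at h1 h2
  -- the integer `2 (k' - k - j) - 1`
  set n : ℤ := k' - k - j with hn
  have hn' : (n : ℝ) = k' - k - j := by rw [hn]; push_cast; ring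
  have e1 : 2 * (k' : ℝ) + 2 / 3 * i' + a' - (2 * k + 2 / 3 * i + a) - (2 * j + 1) =
      2 * n - 1 + 2 / 3 * ((i' : ℝ) - i) + (a' - a) := by
    rw [hn']
    ring
  rw [e1] at h1 h2
  have hn3 : (-2 : ℝ) < n ∧ (n : ℝ) < 3 := by
    have e2 : (0 : ℝ) ≤ i := Nat.cast_nonneg _
    have e3 : (0 : ℝ) ≤ i' := Nat.cast_nonneg _
    have e4 : (i : ℝ) ≤ 2 := by exact_mod_cast Nat.lt_succ_iff.1 hi
    have e5 : (i' : ℝ) ≤ 2 := by exact_mod_cast Nat.lt_succ_iff.1 hi'
    constructor <;> nlinarith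
  have hn4 : -2 < n ∧ n < 3 := by
    constructor
    · exact_mod_cast hn3.1
    · exact_mod_cast hn3.2
  obtain ⟨h5, h6⟩ := hn4
  clear hn hn' hj hx hx' e1 hn3
  interval_cases i <;> interval_cases i' <;> interval_cases n <;> push_cast at h1 h2 ⊢ <;>
    first
    | (exfalso; linarith)
    | (left; exact ⟨by decide, by linarith⟩)
    | (right; exact ⟨by decide, by linarith⟩)

/-- **Colours and bounded heights from a potential.** -/
theorem exists_bounded (y : V → ℝ) {θ : ℝ} (hθ : θ < 1 / 3) (H : ℕ)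
    (hH : 2 / 3 ≤ (1 / 3 - θ) * (H + 1)) :
    ∃ (c : V → ZMod 3) (h : V → ℕ), (∀ v, h v ≤ H) ∧
      ∀ u v, NearOdd y θ u v → T1Red.Str c h u v := by
  have hη : 0 < 1 / 3 - θ := by linarith
  -- the arcs
  let k : V → ℤ := fun v => ⌊y v / 2⌋
  let r : V → ℝ := fun v => y v - 2 * k v
  have hr0 : ∀ v, 0 ≤ r v := fun v => by
    have := Int.floor_le (y v / 2)
    show 0 ≤ y v - 2 * (⌊y v / 2⌋ : ℝ)
    linarith
  have hr2 : ∀ v, r v < 2 := fun v => by
    have := Int.lt_floor_add_one (y v / 2)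
    show y v - 2 * (⌊y v / 2⌋ : ℝ) < 2
    linarith
  let i : V → ℕ := fun v => ⌊r v * (3 / 2)⌋₊
  let a : V → ℝ := fun v => r v - 2 / 3 * i v
  have hi : ∀ v, i v < 3 := fun v => by
    show ⌊r v * (3 / 2)⌋₊ < 3
    rw [Nat.floor_lt (by have := hr0 v; positivity)]
    have := hr2 v
    push_cast
    linarith
  have ha0 : ∀ v, 0 ≤ a v := fun v => by
    have := Nat.floor_le (show 0 ≤ r v * (3 / 2) by have := hr0 v; positivity)
    show 0 ≤ r v - 2 / 3 * (⌊r v * (3 / 2)⌋₊ : ℝ)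
    linarith
  have ha : ∀ v, a v < 2 / 3 := fun v => by
    have := Nat.lt_floor_add_one (r v * (3 / 2))
    show r v - 2 / 3 * (⌊r v * (3 / 2)⌋₊ : ℝ) < 2 / 3
    linarith
  have hx : ∀ v, y v = 2 * k v + 2 / 3 * i v + a v := fun v => by
    show y v = 2 * k v + 2 / 3 * i v + (y v - 2 * k v - 2 / 3 * i v)
    ring
  have hmono : ∀ u v, a u + (1 / 3 - θ) ≤ a v →
      ⌊a u / (1 / 3 - θ)⌋₊ < ⌊a v / (1 / 3 - θ)⌋₊ := by
    intro u v h
    have h1 : a u / (1 / 3 - θ) + 1 ≤ a v / (1 / 3 - θ) := by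
      have e : a u / (1 / 3 - θ) + 1 = (a u + (1 / 3 - θ)) / (1 / 3 - θ) := by
        rw [add_div, div_self hη.ne']
      rw [e]
      exact div_le_div_of_nonneg_right h hη.le
    have h2 : ⌊a u / (1 / 3 - θ) + 1⌋₊ = ⌊a u / (1 / 3 - θ)⌋₊ + 1 :=
      Nat.floor_add_one (div_nonneg (ha0 u) hη.le)
    have h3 := Nat.floor_mono h1
    omega
  refine ⟨fun v => (i v : ZMod 3), fun v => ⌊a v / (1 / 3 - θ)⌋₊, fun v => ?_, fun u v huv => ?_⟩
  · rw [← Nat.lt_succ_iff, Nat.floor_lt (div_nonneg (ha0 v) hη.le), div_lt_iff₀ hη]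
    have := ha v
    push_cast
    linarith
  · obtain ⟨m, hm, h⟩ := huv
    rcases str_of_near hθ (hi u) (hi v) (ha0 u) (ha u) (ha0 v) (ha v) (hx u) (hx v) hm h with
      ⟨h1, h2⟩ | ⟨h1, h2⟩
    · exact Or.inl ⟨h1, hmono u v h2⟩
    · exact Or.inr ⟨h1, hmono v u h2⟩

end Pool.Agent.Uni91
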