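import Mathlib
import Pool.Agent.Work.MP_392c8e_co_uni.Pot
import Pool.Agent.Work.MP_392c8e_co_uni.Lift
import Pool.Agent.Work.MP_392c8e_co_t1.Surgery

/-!
# Virtual surgery

The new graph `newG G I N`, in which the vertices of `I` are isolated and the ends of disjoint paths
are joined, is represented by weights and parities on the edges of `G` itself: weight `θ` and
parity one on the kept edges, weight `θ / (k + 1)` on the edges of a path with `k` inner vertices,
the first one with parity one and the others with parity zero, and a large weight on the deleted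
edges.
-/

namespace Pool.Agent.Uni91

open Finset Pool.Agent.Sub392 Pool.Agent.Circ
open Pool.Agent.T1Red (newG Str)
open Pool.Agent.Uni392 (StrictN)

set_option linter.unusedSectionVars false

/-- `u`, `v` are consecutive in the list. -/
def Cs {A : Type*} (L : List A) (u v : A) : Prop := ∃ l₁ l₂, L = l₁ ++ u :: v :: l₂

theorem Cs.mem {A : Type*} {L : List A} {u v : A} (h : Cs L u v) : u ∈ L ∧ v ∈ L := by
  obtain ⟨l₁, l₂, rfl⟩ := h
  simp

theorem cs_cons {A : Type*} {a : A} {L : List A} {u v : A} :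
    Cs (a :: L) u v ↔ (u = a ∧ ∃ l, L = v :: l) ∨ Cs L u v := by
  constructor
  · rintro ⟨l₁, l₂, h⟩
    cases l₁ with
    | nil =>
      rw [List.nil_append, List.cons.injEq] at h
      exact Or.inl ⟨h.1.symm, l₂, h.2⟩
    | cons b l₁ =>
      rw [List.cons_append, List.cons.injEq] at h
      exact Or.inr ⟨l₁, l₂, h.2⟩
  · rintro (⟨rfl, l, rfl⟩ | ⟨l₁, l₂, rfl⟩)
    · exact ⟨[], l, rfl⟩
    · exact ⟨a :: l₁, l₂, rfl⟩

/-- Sums of near even numbers along a list. -/
theorem sum_chain {A : Type*} (y : A → ℝ) (ε : ℝ) : ∀ (L : List A) (a : A),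
    (∀ u v, Cs (a :: L) u v → ∃ m : ℤ, Even m ∧ |y v - y u - m| ≤ ε) →
    ∃ m : ℤ, Even m ∧ |y ((a :: L).getLast (List.cons_ne_nil _ _)) - y a - m| ≤ ε * L.length := by
  intro L
  induction L with
  | nil =>
    intro a _
    exact ⟨0, by simp, by simp⟩
  | cons b L ih =>
    intro a h
    obtain ⟨m1, hm1, h1⟩ := h a b (cs_cons.2 (Or.inl ⟨rfl, L, rfl⟩))
    obtain ⟨m2, hm2, h2⟩ := ih b fun u v huv => h u v (cs_cons.2 (Or.inr huv))
    refine ⟨m1 + m2, hm1.add hm2, ?_⟩
    rw [List.getLast_cons (List.cons_ne_nil _ _)]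
    have e1 : y ((b :: L).getLast (List.cons_ne_nil _ _)) - y a - ((m1 + m2 : ℤ) : ℝ) =
        (y ((b :: L).getLast (List.cons_ne_nil _ _)) - y b - m2) + (y b - y a - m1) := by
      push_cast
      ring
    rw [e1]
    refine (abs_add_le _ _).trans ?_
    rw [List.length_cons]
    push_cast
    linarith

/-- The vertices of a path. -/
def full {V : Type} (p : V × List V × V) : List V := p.1 :: (p.2.1 ++ [p.2.2])

/-- The pair is an edge of the path. -/
def OnP {V : Type} (p : V × List V × V) (u v : V) : Prop := Cs (full p) u v ∨ Cs (full p) v u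

theorem OnP.symm {V : Type} {p : V × List V × V} {u v : V} (h : OnP p u v) : OnP p v u := Or.symm h

/-- The pair is the first edge of the path. -/
def IsFst {V : Type} (p : V × List V × V) (u v : V) : Prop :=
  (u = p.1 ∧ ∃ l, p.2.1 ++ [p.2.2] = v :: l) ∨ (v = p.1 ∧ ∃ l, p.2.1 ++ [p.2.2] = u :: l)

theorem IsFst.symm {V : Type} {p : V × List V × V} {u v : V} (h : IsFst p u v) : IsFst p v u :=
  Or.symm h

/-- **The data of a virtual surgery.** -/
structure VD {V : Type} (G : SimpleGraph V) (I : V → Prop) (P : List (V × List V × V)) :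
    Prop where
  chain : ∀ p ∈ P, List.IsChain G.Adj (full p) ∧ (full p).Nodup
  disj : P.Pairwise fun p q => (∀ x ∈ p.2.1, x ∉ full q) ∧ ∀ x ∈ q.2.1, x ∉ full p
  int : ∀ p ∈ P, ∀ x ∈ p.2.1, I x
  edge : ∀ p ∈ P, ∀ u v, OnP p u v → I u ∨ I v
  edisj : P.Pairwise fun p q => ∀ u v, OnP p u v → ¬ OnP q u v

/-- The new edges. -/
def ends {V : Type} (P : List (V × List V × V)) : List (V × V) := P.map fun p => (p.1, p.2.2)

open Classical in
/-- The weights. -/
noncomputable def omV {V : Type} (I : V → Prop) (P : List (V × List V × V)) (θ M : ℝ) (u v : V) :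
    ℝ :=
  if h : ∃ p ∈ P, OnP p u v then θ / (h.choose.2.1.length + 1) else if I u ∨ I v then M else θ

open Classical in
/-- The parities. -/
noncomputable def parV {V : Type} (I : V → Prop) (P : List (V × List V × V)) (u v : V) : ℤ :=
  if ∃ p ∈ P, OnP p u v then (if ∃ p ∈ P, IsFst p u v then 1 else 0)
  else if I u ∨ I v then 0 else 1

theorem exists_onP_symm {V : Type} {P : List (V × List V × V)} {u v : V} :
    (∃ p ∈ P, OnP p u v) ↔ ∃ p ∈ P, OnP p v u :=
  ⟨fun ⟨p, hp, h⟩ => ⟨p, hp, h.symm⟩, fun ⟨p, hp, h⟩ => ⟨p, hp, h.symm⟩⟩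

theorem parV_symm {V : Type} (I : V → Prop) (P : List (V × List V × V)) (u v : V) :
    parV I P u v = parV I P v u := by
  classical
  unfold parV
  have h2 : (∃ p ∈ P, IsFst p u v) ↔ ∃ p ∈ P, IsFst p v u :=
    ⟨fun ⟨p, hp, h⟩ => ⟨p, hp, h.symm⟩, fun ⟨p, hp, h⟩ => ⟨p, hp, h.symm⟩⟩
  simp only [exists_onP_symm (u := u), h2, or_comm (a := I u)]

theorem isFst_onP {V : Type} {p : V × List V × V} {u v : V} (h : IsFst p u v) : OnP p u v := by
  rcases h with ⟨rfl, l, hl⟩ | ⟨rfl, l, hl⟩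
  · left
    unfold full
    rw [hl]
    exact ⟨[], l, rfl⟩
  · right
    unfold full
    rw [hl]
    exact ⟨[], l, rfl⟩

section

variable {V : Type} {G : SimpleGraph V} {I : V → Prop} {P : List (V × List V × V)}

theorem pw_unique {A : Type*} {r : A → A → Prop} (hr : ∀ x y, r x y → r y x) {L : List A}
    (h : L.Pairwise r) {a b : A} (ha : a ∈ L) (hb : b ∈ L) (hn : ¬ r a b) : a = b := by
  induction L with
  | nil => simp at ha
  | cons c L ih =>
    rw [List.pairwise_cons] at h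
    rcases List.mem_cons.1 ha with rfl | ha'
    · rcases List.mem_cons.1 hb with rfl | hb'
      · rfl
      · exact absurd (h.1 b hb') hn
    · rcases List.mem_cons.1 hb with rfl | hb'
      · exact absurd (hr _ _ (h.1 a ha')) hn
      · exact ih h.2 ha' hb'

theorem VD.unique (hd : VD G I P) {p q : V × List V × V} (hp : p ∈ P) (hq : q ∈ P) {u v : V}
    (h1 : OnP p u v) (h2 : OnP q u v) : p = q :=
  pw_unique (fun _ _ h u v h1 h2 => h u v h2 h1) hd.edisj hp hq fun h => h u v h1 h2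

theorem VD.omV_path (hd : VD G I P) {p : V × List V × V} (hp : p ∈ P) {u v : V}
    (h : OnP p u v) (θ M : ℝ) : omV I P θ M u v = θ / (p.2.1.length + 1) := by
  classical
  unfold omV
  have hex : ∃ p ∈ P, OnP p u v := ⟨p, hp, h⟩
  rw [dif_pos hex]
  obtain ⟨h1, h2⟩ := hex.choose_spec
  rw [hd.unique h1 hp h2 h]

theorem VD.omV_symm (hd : VD G I P) (θ M : ℝ) (u v : V) :
    omV I P θ M u v = omV I P θ M v u := by
  classical
  by_cases h : ∃ p ∈ P, OnP p u v
  · obtain ⟨p, hp, h⟩ := h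
    rw [hd.omV_path hp h, hd.omV_path hp h.symm]
  · unfold omV
    rw [dif_neg h, dif_neg (fun h' => h (exists_onP_symm.1 h'))]
    simp only [or_comm (a := I u)]

theorem omV_kept {u v : V} (hd : VD G I P) (hu : ¬ I u) (hv : ¬ I v) (θ M : ℝ) :
    omV I P θ M u v = θ := by
  classical
  unfold omV
  rw [dif_neg, if_neg]
  · tauto
  · rintro ⟨p, hp, h⟩
    rcases hd.edge p hp u v h with h1 | h1
    · exact hu h1
    · exact hv h1

theorem omV_del {u v : V} (h : ∀ p ∈ P, ¬ OnP p u v) (hI : I u ∨ I v) (θ M : ℝ) :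
    omV I P θ M u v = M := by
  classical
  unfold omV
  rw [dif_neg, if_pos hI]
  rintro ⟨p, hp, h1⟩
  exact h p hp h1

theorem parV_kept {u v : V} (hd : VD G I P) (hu : ¬ I u) (hv : ¬ I v) :
    parV I P u v = 1 := by
  classical
  unfold parV
  rw [if_neg, if_neg]
  · tauto
  · rintro ⟨p, hp, h⟩
    rcases hd.edge p hp u v h with h1 | h1
    · exact hu h1
    · exact hv h1

theorem VD.parV_fst {p : V × List V × V} (hp : p ∈ P) {u v : V}
    (h : IsFst p u v) : parV I P u v = 1 := by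
  classical
  unfold parV
  rw [if_pos ⟨p, hp, isFst_onP h⟩, if_pos ⟨p, hp, h⟩]

theorem VD.parV_rest (hd : VD G I P) {p : V × List V × V} (hp : p ∈ P) {u v : V}
    (h : OnP p u v) (h1 : ¬ IsFst p u v) : parV I P u v = 0 := by
  classical
  unfold parV
  rw [if_pos ⟨p, hp, h⟩, if_neg]
  rintro ⟨q, hq, h2⟩
  rw [hd.unique hq hp (isFst_onP h2) h] at h2
  exact h1 h2

/-- The rest of a path: the consecutive pairs after the first edge. -/
theorem cs_rest {p : V × List V × V} (hn : (full p).Nodup) {u v : V}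
    (h : Cs (p.2.1 ++ [p.2.2]) u v) : OnP p u v ∧ ¬ IsFst p u v := by
  have h0 : OnP p u v := by
    left
    unfold full
    exact cs_cons.2 (Or.inr h)
  refine ⟨h0, ?_⟩
  have hn' : p.1 ∉ p.2.1 ++ [p.2.2] := by
    unfold full at hn
    exact (List.nodup_cons.1 hn).1
  rintro (⟨rfl, -⟩ | ⟨rfl, -⟩)
  · exact hn' h.mem.1
  · exact hn' h.mem.2

/-- **A path behaves as one edge.** -/
theorem VD.near_path (hd : VD G I P) {y : V → ℝ} {θ M η : ℝ} (hη : 0 ≤ η)
    (h : ∀ u v, G.Adj u v → ∃ m : ℤ, (2 : ℤ) ∣ m - parV I P u v ∧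
      |y v - y u - m| ≤ omV I P θ M u v + η) {p : V × List V × V} (hp : p ∈ P) {k : ℕ}
    (hk : p.2.1.length ≤ k) : NearOdd y (θ + (k + 1) * η) p.1 p.2.2 := by
  obtain ⟨hc, hn⟩ := hd.chain p hp
  obtain ⟨z, l, hl⟩ : ∃ z l, p.2.1 ++ [p.2.2] = z :: l := by
    cases h1 : p.2.1 with
    | nil => exact ⟨p.2.2, [], rfl⟩
    | cons z l => exact ⟨z, l ++ [p.2.2], rfl⟩
  have hlen : l.length = p.2.1.length := by
    have := congrArg List.length hl
    simp only [List.length_append, List.length_cons, List.length_nil] at this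
    omega
  have hadj : ∀ u v, Cs (full p) u v → G.Adj u v := by
    rintro u v ⟨l₁, l₂, h1⟩
    rw [h1] at hc
    have h2 := (List.isChain_append.1 hc).2.1
    rw [List.isChain_cons_cons] at h2
    exact h2.1
  have hf : IsFst p p.1 z := Or.inl ⟨rfl, l, hl⟩
  have hfc : Cs (full p) p.1 z := by
    unfold full
    rw [hl]
    exact ⟨[], l, rfl⟩
  obtain ⟨m1, hm1, h1⟩ := h p.1 z (hadj _ _ hfc)
  rw [VD.parV_fst hp hf] at hm1
  rw [hd.omV_path hp (isFst_onP hf)] at h1
  obtain ⟨m2, hm2, h2⟩ := sum_chain y (θ / (p.2.1.length + 1) + η) l z (by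
    intro u v huv
    rw [← hl] at huv
    obtain ⟨h3, h4⟩ := cs_rest hn huv
    obtain ⟨m, hm, h5⟩ := h u v (hadj u v (by
      unfold full
      exact cs_cons.2 (Or.inr huv)))
    rw [hd.parV_rest hp h3 h4, sub_zero] at hm
    rw [hd.omV_path hp h3] at h5
    exact ⟨m, even_iff_two_dvd.2 hm, h5⟩)
  have hlast : (z :: l).getLast (List.cons_ne_nil _ _) = p.2.2 := by
    have : ∀ (L : List V) (hL : L ≠ []), L = p.2.1 ++ [p.2.2] → L.getLast hL = p.2.2 := by
      rintro L hL rfl
      simp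
    exact this _ _ hl.symm
  rw [hlast] at h2
  refine ⟨m1 + m2, ?_, ?_⟩
  · obtain ⟨q, hq⟩ := hm1
    refine Odd.add_even ⟨q, by omega⟩ hm2
  · have e1 : y p.2.2 - y p.1 - ((m1 + m2 : ℤ) : ℝ) =
        (y z - y p.1 - m1) + (y p.2.2 - y z - m2) := by
      push_cast
      ring
    rw [e1]
    refine (abs_add_le _ _).trans ((add_le_add h1 h2).trans ?_)
    rw [hlen]
    have h3 : (0 : ℝ) < (p.2.1.length : ℝ) + 1 := by positivity
    have e2 : θ / ((p.2.1.length : ℝ) + 1) + η + (θ / ((p.2.1.length : ℝ) + 1) + η) *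
        (p.2.1.length : ℝ) = θ + ((p.2.1.length : ℝ) + 1) * η := by
      field_simp
      ring
    rw [e2]
    have h4 : (p.2.1.length : ℝ) ≤ k := by exact_mod_cast hk
    have := mul_le_mul_of_nonneg_right h4 hη
    linarith

/-- **The potential gives bounded heights on the new graph.** -/
theorem VD.strictN [Fintype V] [DecidableEq V] (hd : VD G I P) {y : V → ℝ} {θ M η : ℝ} (hη : 0 ≤ η)
    (h : ∀ u v, G.Adj u v → ∃ m : ℤ, (2 : ℤ) ∣ m - parV I P u v ∧
      |y v - y u - m| ≤ omV I P θ M u v + η) {k : ℕ} (hk : ∀ p ∈ P, p.2.1.length ≤ k)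
    (hθ : θ + (k + 1) * η < 1 / 3) (H : ℕ) (hH : 2 / 3 ≤ (1 / 3 - (θ + (k + 1) * η)) * (H + 1)) :
    StrictN (newG G I (ends P)) (H + 1) := by
  obtain ⟨c, τ, hτ, hs⟩ := exists_bounded y hθ H hH
  refine ⟨c, τ, fun v => Nat.lt_succ_of_le (hτ v), fun u v huv => hs u v ?_⟩
  have key : ∀ u v, (u, v) ∈ ends P → NearOdd y (θ + (k + 1) * η) u v := by
    intro u v huv
    unfold ends at huv
    rw [List.mem_map] at huv
    obtain ⟨p, hp, h1⟩ := huv
    rw [Prod.mk.injEq] at h1
    rw [← h1.1, ← h1.2]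
    exact hd.near_path hη h hp (hk p hp)
  rcases huv with ⟨h1, h2, h3⟩ | ⟨h1, h2 | h2⟩
  · obtain ⟨m, hm, h4⟩ := h u v h1
    rw [parV_kept hd h2 h3] at hm
    rw [omV_kept hd h2 h3] at h4
    obtain ⟨q, hq⟩ := hm
    refine ⟨m, ⟨q, by omega⟩, h4.trans ?_⟩
    have h5 : (0 : ℝ) ≤ k := Nat.cast_nonneg k
    nlinarith
  · exact key u v h2
  · exact (key v u h2).symm

end

end Pool.Agent.Uni91
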