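import Mathlib
import Pool.Agent.Work.MP_392c8e_co_uni.VData

/-!
# Potentials and charges from strict colourings of the new graph
-/

namespace Pool.Agent.Uni91

open Finset Pool.Agent.Sub392 Pool.Agent.Circ
open Pool.Agent.T1Red (newG Str Strict HasStrict)
open Pool.Agent.Uni392 (StrictN)

set_option linter.unusedSectionVars false

/-- The potential of a colouring with bounded heights. -/
noncomputable def pot {V : Type*} (c : V → ZMod 3) (τ : V → ℕ) (n : ℕ) (v : V) : ℝ :=
  2 / 3 * ((c v).val : ℝ) + 2 / (3 * n) * τ v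

theorem pot_bounds {V : Type*} {c : V → ZMod 3} {τ : V → ℕ} {n : ℕ} {v : V} (h : τ v < n) :
    0 ≤ pot c τ n v ∧ pot c τ n v < 2 := by
  have hn : 0 < n := by omega
  have hn0 : (0 : ℝ) < n := by exact_mod_cast hn
  have h1 : (c v).val < 3 := ZMod.val_lt _
  have h2 : ((c v).val : ℝ) ≤ 2 := by exact_mod_cast Nat.lt_succ_iff.1 h1
  have h3 : (0 : ℝ) ≤ ((c v).val : ℝ) := Nat.cast_nonneg _
  have h4 : (τ v : ℝ) < n := by exact_mod_cast h
  have h5 : 2 / (3 * (n : ℝ)) * τ v < 2 / 3 := by
    rw [div_mul_eq_mul_div, div_lt_iff₀ (by positivity)]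
    linarith
  have h6 : 0 ≤ 2 / (3 * (n : ℝ)) * τ v := by positivity
  unfold pot
  constructor
  · positivity
  · linarith

/-- Strict pairs are near `1` or `-1`. -/
theorem near_of_str {V : Type*} {c : V → ZMod 3} {τ : V → ℕ} {n : ℕ} {u v : V} (hu : τ u < n)
    (hv : τ v < n) (h : Str c τ u v) :
    ∃ m : ℤ, (m = 1 ∨ m = -1) ∧ |pot c τ n v - pot c τ n u - m| ≤ 1 / 3 - 2 / (3 * n) := by
  have hn : 0 < n := by omega
  have hn0 : (0 : ℝ) < n := by exact_mod_cast hn
  have key : ∀ u v : V, τ u < n → τ v < n → c v = c u + 1 → τ u < τ v →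
      ∃ m : ℤ, (m = 1 ∨ m = -1) ∧ |pot c τ n v - pot c τ n u - m| ≤ 1 / 3 - 2 / (3 * n) := by
    intro u v hu hv hc hτ
    have h1 : (1 : ℝ) ≤ (τ v : ℝ) - τ u := by
      have : ((τ u + 1 : ℕ) : ℝ) ≤ τ v := by exact_mod_cast hτ
      push_cast at this
      linarith
    have h2 : (τ v : ℝ) - τ u ≤ n - 1 := by
      have : ((τ v + 1 : ℕ) : ℝ) ≤ n := by exact_mod_cast hv
      push_cast at this
      have h3 : (0 : ℝ) ≤ τ u := Nat.cast_nonneg _
      linarith
    set δ : ℝ := 2 / (3 * n) * ((τ v : ℝ) - τ u) with hδ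
    have hpos : 0 < 2 / (3 * (n : ℝ)) := by positivity
    have h3 : 2 / (3 * (n : ℝ)) ≤ δ := by
      rw [hδ]
      exact le_mul_of_one_le_right hpos.le h1
    have h4 : δ ≤ 2 / 3 - 2 / (3 * (n : ℝ)) := by
      have h5 : δ ≤ 2 / (3 * (n : ℝ)) * (n - 1) := mul_le_mul_of_nonneg_left h2 hpos.le
      have e1 : 2 / (3 * (n : ℝ)) * (n - 1) = 2 / 3 - 2 / (3 * (n : ℝ)) := by
        field_simp
      linarith
    have e0 : pot c τ n v - pot c τ n u = 2 / 3 * (((c v).val : ℝ) - (c u).val) + δ := by
      rw [hδ]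
      unfold pot
      ring
    have hcv : ((c v).val = (c u).val + 1) ∨ ((c v).val + 2 = (c u).val) := by
      rw [hc]
      generalize c u = a
      revert a
      decide
    rcases hcv with h5 | h5
    · refine ⟨1, Or.inl rfl, ?_⟩
      have h6 : ((c v).val : ℝ) - (c u).val = 1 := by
        rw [h5]
        push_cast
        ring
      rw [e0, h6, abs_le]
      push_cast
      constructor <;> linarith
    · refine ⟨-1, Or.inr rfl, ?_⟩
      have h6 : ((c v).val : ℝ) - (c u).val = -2 := by
        rw [← h5]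
        push_cast
        ring
      rw [e0, h6, abs_le]
      push_cast
      constructor <;> linarith
  rcases h with ⟨h1, h2⟩ | ⟨h1, h2⟩
  · exact key u v hu hv h1 h2
  · obtain ⟨m, hm, h3⟩ := key v u hv hu h1 h2
    refine ⟨-m, by omega, ?_⟩
    rw [← abs_neg]
    refine le_trans (le_of_eq ?_) h3
    congr 1
    push_cast
    ring

/-- The heights of a strict colouring of a finite graph are bounded. -/
theorem strictN_of_hasStrict {V : Type*} [Fintype V] {G : SimpleGraph V} (h : HasStrict G) :
    StrictN G (Fintype.card V) := by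
  classical
  obtain ⟨c, τ, h⟩ := h
  let r : V → ℕ := fun v => (univ.filter fun u => τ u < τ v).card
  have hlt : ∀ u v, τ u < τ v → r u < r v := by
    intro u v huv
    refine card_lt_card ⟨fun x hx => ?_, fun hsub => ?_⟩
    · rw [mem_filter] at hx ⊢
      exact ⟨hx.1, hx.2.trans huv⟩
    · have : u ∈ univ.filter fun x => τ x < τ u := hsub (by
        rw [mem_filter]
        exact ⟨mem_univ u, huv⟩)
      rw [mem_filter] at this
      exact lt_irrefl _ this.2
  refine ⟨c, r, fun v => ?_, fun u v huv => ?_⟩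
  · refine card_lt_card ⟨subset_univ _, fun hsub => ?_⟩
    have := hsub (mem_univ v)
    rw [mem_filter] at this
    exact lt_irrefl _ this.2
  · rcases h u v huv with ⟨h1, h2⟩ | ⟨h1, h2⟩
    · exact Or.inl ⟨h1, hlt _ _ h2⟩
    · exact Or.inr ⟨h1, hlt _ _ h2⟩

section

variable {V : Type} {G : SimpleGraph V} {I : V → Prop} {P : List (V × List V × V)}

/-- The place of an inner vertex. -/
theorem VD.uniq_inner (hd : VD G I P) {p q : V × List V × V} (hp : p ∈ P) (hq : q ∈ P) {x : V}
    (h1 : x ∈ p.2.1) (h2 : x ∈ full q) : p = q :=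
  pw_unique (fun _ _ h => h.symm) hd.disj hp hq fun h => h.1 x h1 h2

theorem full_inner {p : V × List V × V} {x : V} (h : x ∈ p.2.1) : x ∈ full p := by
  unfold full
  simp [h]

theorem full_get_succ (p : V × List V × V) (j : ℕ) (h : j + 1 < (full p).length)
    (h' : j < (p.2.1 ++ [p.2.2]).length) : (full p)[j + 1] = (p.2.1 ++ [p.2.2])[j] := rfl

/-- Consecutive pairs and positions. -/
theorem cs_iff_get {A : Type*} {L : List A} {u v : A} :
    Cs L u v ↔ ∃ (i : ℕ) (h : i + 1 < L.length), L[i] = u ∧ L[i + 1] = v := by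
  constructor
  · rintro ⟨l₁, l₂, rfl⟩
    refine ⟨l₁.length, by simp, ?_, ?_⟩
    · simp
    · simp
  · rintro ⟨i, h, rfl, rfl⟩
    refine ⟨L.take i, L.drop (i + 2), ?_⟩
    rw [← List.drop_eq_getElem_cons (by omega), ← List.drop_eq_getElem_cons (by omega)]
    exact (List.take_append_drop i L).symm

open Classical in
/-- **Potentials from strict colourings of the new graph.** -/
theorem VD.exists_pot (hd : VD G I P) {n : ℕ} (h : StrictN (newG G I (ends P)) n) :
    ∃ y : V → ℝ, (∀ v, -2 ≤ y v ∧ y v ≤ 4) ∧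
      ∀ u v, G.Adj u v → ∀ M : ℝ, 6 ≤ M → ∃ m : ℤ, (2 : ℤ) ∣ m - parV I P u v ∧
        |y v - y u - m| ≤ omV I P (1 / 3 - 2 / (3 * n)) M u v := by
  obtain ⟨c, τ, hτ, hs⟩ := h
  set θ : ℝ := 1 / 3 - 2 / (3 * n) with hθ
  -- the steps of the paths
  have hstep : ∀ p ∈ P, ∃ m : ℤ, (m = 1 ∨ m = -1) ∧
      |pot c τ n p.2.2 - pot c τ n p.1 - m| ≤ θ := by
    intro p hp
    refine near_of_str (hτ _) (hτ _) (hs _ _ (Or.inr ⟨?_, Or.inl ?_⟩))
    · have h1 := (hd.chain p hp).2
      unfold full at h1
      rw [List.nodup_cons] at h1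
      exact fun h => h1.1 (by rw [h]; simp)
    · unfold ends
      exact List.mem_map.2 ⟨p, hp, rfl⟩
  choose! m hm hmε using hstep
  -- the potential
  let y : V → ℝ := fun x =>
    if hx : ∃ p ∈ P, x ∈ p.2.1 then
      pot c τ n hx.choose.1 + m hx.choose + ((full hx.choose).idxOf x : ℝ) *
        ((pot c τ n hx.choose.2.2 - pot c τ n hx.choose.1 - m hx.choose) /
          (hx.choose.2.1.length + 1))
    else pot c τ n x
  have hy0 : ∀ x, (∀ p ∈ P, x ∉ p.2.1) → y x = pot c τ n x := by
    intro x hx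
    show (if hx : ∃ p ∈ P, x ∈ p.2.1 then _ else _) = _
    rw [dif_neg]
    rintro ⟨p, hp, h1⟩
    exact hx p hp h1
  have hy1 : ∀ p ∈ P, ∀ x ∈ p.2.1, y x = pot c τ n p.1 + m p + ((full p).idxOf x : ℝ) *
      ((pot c τ n p.2.2 - pot c τ n p.1 - m p) / (p.2.1.length + 1)) := by
    intro p hp x hx
    have hex : ∃ p ∈ P, x ∈ p.2.1 := ⟨p, hp, hx⟩
    show (if hx : ∃ p ∈ P, x ∈ p.2.1 then _ else _) = _
    rw [dif_pos hex]
    obtain ⟨h1, h2⟩ := hex.choose_spec
    have h3 : hex.choose = p := hd.uniq_inner h1 hp h2 (full_inner hx)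
    rw [h3]
  have hend : ∀ p ∈ P, ∀ q ∈ P, p.1 ∉ q.2.1 ∧ p.2.2 ∉ q.2.1 := by
    intro p hp q hq
    have hn := (hd.chain p hp).2
    have h1 : p.1 ∈ full p := by
      unfold full
      simp
    have h2 : p.2.2 ∈ full p := by
      unfold full
      simp
    constructor
    · intro h
      have h3 := hd.uniq_inner hq hp h h1
      rw [h3] at h
      unfold full at hn
      rw [List.nodup_cons] at hn
      exact hn.1 (by simp [h])
    · intro h
      have h3 := hd.uniq_inner hq hp h h2
      rw [h3] at h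
      unfold full at hn
      rw [List.nodup_cons, List.nodup_append] at hn
      exact hn.2.2.2 _ h _ (List.mem_singleton_self _) rfl
  have hbd : ∀ v, -2 ≤ y v ∧ y v ≤ 4 := by
    intro v
    by_cases hv : ∃ p ∈ P, v ∈ p.2.1
    · obtain ⟨p, hp, hv⟩ := hv
      rw [hy1 p hp v hv]
      obtain ⟨h1, h2⟩ := pot_bounds (c := c) (hτ p.1)
      have h3 := hmε p hp
      have h4 : (((full p).idxOf v : ℕ) : ℝ) ≤ p.2.1.length + 1 := by
        have h5 : (full p).idxOf v < (full p).length :=
          List.idxOf_lt_length_of_mem (full_inner hv)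
        have h6 : (full p).length = p.2.1.length + 2 := by
          unfold full
          simp
        rw [h6] at h5
        have h7 : (full p).idxOf v ≤ p.2.1.length + 1 := by omega
        exact_mod_cast h7
      have h5 : |(((full p).idxOf v : ℕ) : ℝ) *
          ((pot c τ n p.2.2 - pot c τ n p.1 - m p) / (p.2.1.length + 1))| ≤ 1 / 3 := by
        have h6 : (0 : ℝ) < (p.2.1.length : ℝ) + 1 := by positivity
        rw [abs_mul, abs_div, abs_of_pos h6, Nat.abs_cast, mul_div_assoc', div_le_iff₀ h6]
        have h7 : θ ≤ 1 / 3 := by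
          rw [hθ]
          have : (0 : ℝ) ≤ 2 / (3 * n) := by positivity
          linarith
        have h8 : |pot c τ n p.2.2 - pot c τ n p.1 - m p| ≤ 1 / 3 := h3.trans h7
        have h9 := mul_le_mul h4 h8 (abs_nonneg _) h6.le
        linarith
      rw [abs_le] at h5
      rcases hm p hp with h6 | h6 <;> rw [h6] at h5 ⊢ <;> push_cast at h5 ⊢ <;>
        constructor <;> linarith [h5.1, h5.2]
    · push Not at hv
      rw [hy0 v hv]
      obtain ⟨h1, h2⟩ := pot_bounds (c := c) (hτ v)
      constructor <;> linarith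
  refine ⟨y, hbd, fun u v huv M hM => ?_⟩
  by_cases hP : ∃ p ∈ P, OnP p u v
  · -- the edges of the paths
    have key : ∀ p ∈ P, ∀ u v, Cs (full p) u v → ∃ k : ℤ, (2 : ℤ) ∣ k - parV I P u v ∧
        |y v - y u - k| ≤ omV I P θ M u v := by
      intro p hp u v h1
      obtain ⟨hc, hn⟩ := hd.chain p hp
      have hlen : (full p).length = p.2.1.length + 2 := by
        unfold full
        simp
      set ε : ℝ := (pot c τ n p.2.2 - pot c τ n p.1 - m p) / (p.2.1.length + 1) with hε
      have h0 : (0 : ℝ) < (p.2.1.length : ℝ) + 1 := by positivity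
      -- the values on the path
      have hval : ∀ (i : ℕ) (hi : i < (full p).length), 1 ≤ i →
          y ((full p)[i]) = pot c τ n p.1 + m p + i * ε := by
        intro i hi hi1
        rcases Nat.lt_or_ge i (p.2.1.length + 1) with h2 | h2
        · have h3 : (full p)[i] ∈ p.2.1 := by
            obtain ⟨j, rfl⟩ : ∃ j, i = j + 1 := ⟨i - 1, by omega⟩
            rw [full_get_succ p j hi (by simp; omega), List.getElem_append_left (by omega)]
            exact List.getElem_mem _
          rw [hy1 p hp _ h3, List.Nodup.idxOf_getElem hn]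
        · have h3 : i = p.2.1.length + 1 := by omega
          have h4 : (full p)[i] = p.2.2 := by
            subst h3
            rw [full_get_succ p _ hi (by simp), List.getElem_append_right (le_refl _)]
            simp
          rw [h4, hy0 _ fun q hq => (hend p hp q hq).2, h3, hε]
          push_cast
          field_simp
          ring
      have hε' : |ε| ≤ θ / (p.2.1.length + 1) := by
        rw [hε, abs_div, abs_of_pos h0]
        exact div_le_div_of_nonneg_right (hmε p hp) h0.le
      have hon : OnP p u v := Or.inl h1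
      rw [hd.omV_path hp hon]
      obtain ⟨i, hi, rfl, rfl⟩ := cs_iff_get.1 h1
      rcases Nat.eq_zero_or_pos i with rfl | hi0
      · have e0 : (full p)[0] = p.1 := by
          unfold full
          rfl
        have hf : IsFst p (full p)[0] (full p)[0 + 1] := by
          refine Or.inl ⟨e0, (p.2.1 ++ [p.2.2]).tail, ?_⟩
          rw [full_get_succ p 0 hi (by simp)]
          exact (List.cons_head_tail (by simp)).symm.trans (by rw [List.head_eq_getElem])
        rw [VD.parV_fst hp hf]
        refine ⟨m p, ?_, ?_⟩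
        · rcases hm p hp with h2 | h2 <;> rw [h2] <;> norm_num
        · rw [hval 1 (by omega) le_rfl, e0, hy0 _ fun q hq => (hend p hp q hq).1]
          have e2 : pot c τ n p.1 + m p + ((1 : ℕ) : ℝ) * ε - pot c τ n p.1 - m p = ε := by
            push_cast
            ring
          rw [e2]
          exact hε'
      · have hnf : ¬ IsFst p (full p)[i] (full p)[i + 1] := by
          have h2 : Cs (p.2.1 ++ [p.2.2]) (full p)[i] (full p)[i + 1] := by
            rw [cs_iff_get]
            obtain ⟨j, rfl⟩ : ∃ j, i = j + 1 := ⟨i - 1, by omega⟩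
            refine ⟨j, ?_, rfl, rfl⟩
            simp only [List.length_append, List.length_cons, List.length_nil]
            omega
          exact (cs_rest hn h2).2
        rw [hd.parV_rest hp hon hnf]
        refine ⟨0, by simp, ?_⟩
        rw [hval i (by omega) hi0, hval (i + 1) hi (by omega)]
        have e2 : pot c τ n p.1 + m p + ((i + 1 : ℕ) : ℝ) * ε -
            (pot c τ n p.1 + m p + (i : ℝ) * ε) - ((0 : ℤ) : ℝ) = ε := by
          push_cast
          ring
        rw [e2]
        exact hε'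
    obtain ⟨p, hp, h1 | h1⟩ := hP
    · exact key p hp u v h1
    · obtain ⟨k, hk, h2⟩ := key p hp v u h1
      refine ⟨-k, ?_, ?_⟩
      · rw [parV_symm]
        obtain ⟨q, hq⟩ := hk
        exact ⟨-q - parV I P v u, by
          have : k = 2 * q + parV I P v u := by omega
          rw [this]
          ring⟩
      · rw [hd.omV_symm, ← abs_neg]
        refine le_trans (le_of_eq ?_) h2
        congr 1
        push_cast
        ring
  · push Not at hP
    by_cases hI : I u ∨ I v
    · rw [omV_del hP hI]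
      refine ⟨0, ?_, ?_⟩
      · have : parV I P u v = 0 := by
          unfold parV
          rw [if_neg, if_pos hI]
          rintro ⟨p, hp, h1⟩
          exact hP p hp h1
        rw [this]
        simp
      · obtain ⟨h1, h2⟩ := hbd u
        obtain ⟨h3, h4⟩ := hbd v
        rw [Int.cast_zero, sub_zero, abs_le]
        constructor <;> linarith
    · push Not at hI
      obtain ⟨hu, hv⟩ := hI
      rw [omV_kept hd hu hv, parV_kept hd hu hv,
        hy0 u fun p hp h1 => hu (hd.int p hp u h1), hy0 v fun p hp h1 => hv (hd.int p hp v h1)]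
      obtain ⟨k, hk, h1⟩ := near_of_str (hτ u) (hτ v) (hs u v (Or.inl ⟨huv, hu, hv⟩))
      refine ⟨k, ?_, h1⟩
      rcases hk with h2 | h2 <;> rw [h2] <;> norm_num

/-- The weights are monotone. -/
theorem omV_lt {θ θ' M M' : ℝ} (h1 : θ < θ') (h2 : M < M') (u v : V) :
    omV I P θ M u v < omV I P θ' M' u v := by
  classical
  unfold omV
  split_ifs
  · exact div_lt_div_of_pos_right h1 (by positivity)
  · exact h2
  · exact h1

theorem omV_div (θ M k : ℝ) (u v : V) : omV I P (θ / k) (M / k) u v = omV I P θ M u v / k := by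
  classical
  unfold omV
  split_ifs
  · rw [div_div, div_div, mul_comm]
  · rfl
  · rfl

theorem omV_nonneg {θ M : ℝ} (h1 : 0 ≤ θ) (h2 : 0 ≤ M) (u v : V) : 0 ≤ omV I P θ M u v := by
  classical
  unfold omV
  split_ifs
  · positivity
  · exact h2
  · exact h1

/-- Potentials of strict colourings of the new graph on the edges. -/
theorem VD.exists_pot_up [Fintype V] (hd : VD G I P) {n : ℕ}
    (h : StrictN (newG G I (ends P)) n) {M : ℝ} (hM : 6 ≤ M) :
    ∃ (y : V → ℝ) (p : Up G → ℤ), (∀ e : Up G, (2 : ℤ) ∣ p e - parV I P e.1.fst e.1.snd) ∧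
      ∀ e : Up G, |y e.1.snd - y e.1.fst - p e| ≤
        omV I P (1 / 3 - 2 / (3 * n)) M e.1.fst e.1.snd := by
  obtain ⟨y, -, hy⟩ := hd.exists_pot h
  choose p hp hb using fun e : Up G => hy e.1.fst e.1.snd e.1.adj M hM
  exact ⟨y, p, hp, hb⟩

/-- The same with strict inequalities. -/
theorem VD.exists_pot_lt [Fintype V] (hd : VD G I P) (h : HasStrict (newG G I (ends P)))
    {M : ℝ} (hM : 18 < M) :
    ∃ (y : V → ℝ) (p : Up G → ℤ), (∀ e : Up G, (2 : ℤ) ∣ p e - parV I P e.1.fst e.1.snd) ∧
      ∀ e : Up G, |y e.1.snd - y e.1.fst - p e| < omV I P 1 M e.1.fst e.1.snd / 3 := by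
  obtain ⟨y, p, hp, hb⟩ := hd.exists_pot_up (strictN_of_hasStrict h) (le_refl 6)
  refine ⟨y, p, hp, fun e => (hb e).trans_lt ?_⟩
  rw [← omV_div]
  have hV : 0 < Fintype.card V := Fintype.card_pos_iff.2 ⟨e.1.fst⟩
  have hV0 : (0 : ℝ) < Fintype.card V := by exact_mod_cast hV
  refine omV_lt ?_ (by linarith) _ _
  have : 0 < 2 / (3 * (Fintype.card V : ℝ)) := by positivity
  linarith

end

/-! ## Charges of potentials -/

section

variable {V : Type} [Fintype V] [DecidableEq V] {G : SimpleGraph V} [DecidableRel G.Adj]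

/-- The divergence of differences of potentials on the faces is zero. -/
theorem dv_pot (R : Rot G) (y : V → ℝ) (f : R.Face) :
    dv (fun e : Up G => R.face e.1) (fun e : Up G => R.face e.1.symm)
      (fun e => y e.1.snd - y e.1.fst) f = 0 := by
  classical
  have h1 : dv (fun e : Up G => R.face e.1) (fun e : Up G => R.face e.1.symm)
      (fun e => y e.1.snd - y e.1.fst) f =
      ∑ d : G.Dart, if R.face d = f then y d.snd - y d.fst else 0 := by
    rw [sum_dart]
    unfold dv
    refine sum_congr rfl fun e _ => ?_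
    have e1 : (e.1.symm).snd = e.1.fst := rfl
    have e2 : (e.1.symm).fst = e.1.snd := rfl
    rw [e1, e2]
    split_ifs <;> ring
  rw [h1, ← sum_filter, sum_sub_distrib, sub_eq_zero]
  refine sum_nbij' (fun d => R.next d) (fun d => R.next.symm d) ?_ ?_ ?_ ?_ ?_
  · intro d hd
    rw [mem_filter] at hd ⊢
    exact ⟨mem_univ _, by rw [R.face_next]; exact hd.2⟩
  · intro d hd
    rw [mem_filter] at hd ⊢
    refine ⟨mem_univ _, ?_⟩
    rw [← hd.2, ← R.face_next (R.next.symm d), Equiv.apply_symm_apply]
  · intro d _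
    simp
  · intro d _
    simp
  · intro d _
    rw [R.fst_next]

/-- **The charges of a potential.** -/
theorem charges_of_pot (R : Rot G) {y : V → ℝ} {p : Up G → ℤ} {om : Up G → ℝ}
    (h : ∀ e : Up G, |y e.1.snd - y e.1.fst - p e| ≤ om e) (Z : Finset R.Face) :
    |((∑ f ∈ Z, MP974d84.D (fun e : Up G => R.face e.1) (fun e : Up G => R.face e.1.symm) p f :
      ℤ) : ℝ)| ≤
      ∑ e ∈ cut (fun e : Up G => R.face e.1) (fun e : Up G => R.face e.1.symm) Z, om e := by
  classical
  set s : Up G → R.Face := fun e => R.face e.1 with hs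
  set t : Up G → R.Face := fun e => R.face e.1.symm with ht
  have h1 : ∀ f, (((MP974d84.D s t p f : ℤ)) : ℝ) =
      MP974d84.D s t (fun e => (p e : ℝ) - (y e.1.snd - y e.1.fst)) f := by
    intro f
    have h2 := dv_pot R y f
    have h3 : dv s t (fun e : Up G => y e.1.snd - y e.1.fst) f =
        MP974d84.D s t (fun e : Up G => y e.1.snd - y e.1.fst) f := rfl
    rw [← hs, ← ht, h3] at h2
    have h4 : (fun e : Up G => (p e : ℝ)) =
        fun e => ((p e : ℝ) - (y e.1.snd - y e.1.fst)) + (y e.1.snd - y e.1.fst) := by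
      funext e
      ring
    have h5 : ((MP974d84.D s t p f : ℤ) : ℝ) = MP974d84.D s t (fun e : Up G => (p e : ℝ)) f := by
      unfold MP974d84.D
      push_cast
      rfl
    rw [h5, h4, MP974d84.D_add, h2, add_zero]
  rw [Int.cast_sum, sum_congr rfl fun f _ => h1 f, MP974d84.D_cut]
  refine (abs_sum_le_sum_abs _ _).trans ?_
  unfold cut
  rw [sum_filter]
  refine sum_le_sum fun e _ => ?_
  have h2 := h e
  unfold MP974d84.ov
  by_cases h3 : s e ∈ Z <;> by_cases h4 : t e ∈ Z
  · simp [h3, h4]
  · simp only [h3, h4, if_true, if_false, sub_zero, iff_false, not_true, not_false_eq_true]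
    rw [abs_sub_comm]
    exact h2
  · simp only [h3, h4, if_true, if_false, zero_sub, iff_true, not_false_eq_true, abs_neg]
    rw [abs_sub_comm]
    exact h2
  · simp [h3, h4]

/-- The parity of the charges. -/
theorem charges_parity {W E : Type*} [Fintype W] [DecidableEq W] [Fintype E] [DecidableEq E]
    (s t : E → W) {p b : E → ℤ} (h : ∀ e, (2 : ℤ) ∣ p e - b e) (f : W) :
    (2 : ℤ) ∣ MP974d84.D s t p f - MP974d84.D s t b f := by
  unfold MP974d84.D
  rw [← sum_sub_distrib]
  refine dvd_sum fun e _ => ?_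
  have := h e
  split_ifs
  · simp
  · simpa using this
  · have h2 : (0 : ℤ) - p e - (0 - b e) = -(p e - b e) := by ring
    rw [h2]
    exact this.neg_right
  · simp

end

end Pool.Agent.Uni91
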