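import Pool.Agent.Work.MP_392c8e_co_uni.Lift

/-!
# A sequence of replacements

Greedy colourings of the labels, and the lift for a sequence of replacements with disjoint
interiors.
-/

namespace Pool.Agent.Uni392

open Finset
open Pool.Agent.T1Red (Str Strict)

/-- **Greedy colouring.**  If every vertex shares a set of labels with less than `R` other
vertices, there is a map to `0, …, R - 1` injective on all sets of labels. -/
theorem exists_rho {V I : Type*} [Fintype V] (Lab : I → Set V) (R : ℕ)
    (hR : ∀ v, {u | u ≠ v ∧ ∃ i, u ∈ Lab i ∧ v ∈ Lab i}.ncard < R) :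
    ∃ ρ : V → ℕ, (∀ v, ρ v < R) ∧ ∀ i, Set.InjOn ρ (Lab i) := by
  classical
  have key : ∀ S : Finset V, ∃ ρ : V → ℕ, (∀ v, ρ v < R) ∧
      ∀ u ∈ S, ∀ v ∈ S, u ≠ v → (∃ i, u ∈ Lab i ∧ v ∈ Lab i) → ρ u ≠ ρ v := by
    intro S
    induction S using Finset.induction_on with
    | empty =>
      refine ⟨fun _ => 0, fun v => lt_of_le_of_lt (Nat.zero_le _) (hR v), ?_⟩
      intro u hu
      exact absurd hu (Finset.notMem_empty u)
    | insert v S hv ih =>
      obtain ⟨ρ, h1, h2⟩ := ih
      have h3 : ((univ.filter fun u => u ≠ v ∧ ∃ i, u ∈ Lab i ∧ v ∈ Lab i).image ρ).card < R := by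
        refine lt_of_le_of_lt Finset.card_image_le ?_
        have := hR v
        rwa [Set.ncard_eq_toFinset_card', Set.toFinset_ofPred] at this
      obtain ⟨r, hr, hr'⟩ : ∃ r, r < R ∧
          r ∉ (univ.filter fun u => u ≠ v ∧ ∃ i, u ∈ Lab i ∧ v ∈ Lab i).image ρ := by
        by_contra hcon
        push Not at hcon
        have h4 : Finset.range R ⊆
            (univ.filter fun u => u ≠ v ∧ ∃ i, u ∈ Lab i ∧ v ∈ Lab i).image ρ :=
          fun x hx => hcon x (Finset.mem_range.1 hx)
        have h5 := Finset.card_le_card h4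
        rw [Finset.card_range] at h5
        omega
      have hfree : ∀ u, u ≠ v → (∃ i, u ∈ Lab i ∧ v ∈ Lab i) → ρ u ≠ r := by
        intro u hu hi he
        apply hr'
        rw [← he]
        exact Finset.mem_image_of_mem _ (Finset.mem_filter.2 ⟨Finset.mem_univ _, hu, hi⟩)
      refine ⟨Function.update ρ v r, fun u => ?_, fun u hu w hw huw hi => ?_⟩
      · by_cases h6 : u = v
        · rw [h6, Function.update_self]
          exact hr
        · rw [Function.update_of_ne h6]
          exact h1 u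
      · by_cases h6 : u = v
        · by_cases h7 : w = v
          · exact absurd (h6.trans h7.symm) huw
          · rw [h6, Function.update_self, Function.update_of_ne h7]
            obtain ⟨i, h8, h9⟩ := hi
            exact (hfree w h7 ⟨i, h9, h6 ▸ h8⟩).symm
        · by_cases h7 : w = v
          · rw [h7, Function.update_self, Function.update_of_ne h6]
            obtain ⟨i, h8, h9⟩ := hi
            exact hfree u h6 ⟨i, h8, h7 ▸ h9⟩
          · rw [Function.update_of_ne h6, Function.update_of_ne h7]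
            exact h2 u (Finset.mem_of_mem_insert_of_ne hu h6) w
              (Finset.mem_of_mem_insert_of_ne hw h7) huw hi
  obtain ⟨ρ, h1, h2⟩ := key univ
  refine ⟨ρ, h1, fun i u hu v hv huv => ?_⟩
  by_contra hne
  exact h2 u (Finset.mem_univ _) v (Finset.mem_univ _) hne ⟨i, hu, hv⟩ huv

/-- The extensions of a sequence of replacements compose. -/
theorem ext_seq {V : Type*} (Gs : ℕ → SimpleGraph V) (In Lab : ℕ → Set V) (k : ℕ)
    (hlab : ∀ i j, i < k → j < k → i ≠ j → Disjoint (Lab j) (In i))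
    (hstep : ∀ j, j < k → ∀ (c : V → ZMod 3) (τ : V → ℝ), Strict (Gs (j + 1)) c τ →
      Set.InjOn τ (Lab j) → ∃ (c' : V → ZMod 3) (τ' : V → ℝ), Strict (Gs j) c' τ' ∧
        ∀ v, v ∉ In j → c' v = c v ∧ τ' v = τ v)
    (c : V → ZMod 3) (τ : V → ℝ) (hst : Strict (Gs k) c τ)
    (hin : ∀ j, j < k → Set.InjOn τ (Lab j)) :
    ∃ (c' : V → ZMod 3) (τ' : V → ℝ), Strict (Gs 0) c' τ' ∧
      ∀ v, (∀ j, j < k → v ∉ In j) → c' v = c v ∧ τ' v = τ v := by
  have key : ∀ m, m ≤ k → ∃ (c' : V → ZMod 3) (τ' : V → ℝ), Strict (Gs (k - m)) c' τ' ∧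
      ∀ v, (∀ j, k - m ≤ j → j < k → v ∉ In j) → c' v = c v ∧ τ' v = τ v := by
    intro m
    induction m with
    | zero => exact fun _ => ⟨c, τ, hst, fun _ _ => ⟨rfl, rfl⟩⟩
    | succ m ih =>
      intro hm
      obtain ⟨c1, τ1, h1, h2⟩ := ih (by omega)
      have h3 : k - m = (k - (m + 1)) + 1 := by omega
      rw [h3] at h1
      obtain ⟨c2, τ2, h4, h5⟩ := hstep (k - (m + 1)) (by omega) c1 τ1 h1 (by
        have h6 : ∀ v ∈ Lab (k - (m + 1)), τ1 v = τ v := by
          intro v hv
          refine (h2 v fun j hj hjk hvj => ?_).2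
          exact Set.disjoint_left.1 (hlab j (k - (m + 1)) hjk (by omega) (by omega)) hv hvj
        intro u hu v hv huv
        rw [h6 u hu, h6 v hv] at huv
        exact hin _ (by omega) hu hv huv)
      refine ⟨c2, τ2, h4, fun v hv => ?_⟩
      obtain ⟨h7, h8⟩ := h5 v (hv _ le_rfl (by omega))
      obtain ⟨h9, h10⟩ := h2 v fun j hj hjk => hv j (by omega) hjk
      exact ⟨h7.trans h9, h8.trans h10⟩
  obtain ⟨c', τ', h1, h2⟩ := key k le_rfl
  rw [Nat.sub_self] at h1
  exact ⟨c', τ', h1, fun v hv => h2 v fun j _ hjk => hv j hjk⟩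

/-- **The lift for a sequence of replacements.**  The graph `Gs (j + 1)` arises from `Gs j` by a
replacement with interior `In j` and labels `Lab j`, every strict colouring of `Gs (j + 1)` with
different heights on `Lab j` extends to `Gs j` without a change outside `In j`; the interiors are
pairwise disjoint and have at most `s` vertices, there are no edges of `Gs 0` between two different
interiors, and no label lies in the interior of another replacement. -/
theorem lift_seq {V : Type*} [Fintype V] (Gs : ℕ → SimpleGraph V) (In Lab : ℕ → Set V)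
    (k s R n : ℕ) (hs : ∀ j, j < k → (In j).ncard ≤ s)
    (hdisj : ∀ i j, i < k → j < k → i ≠ j → Disjoint (In i) (In j))
    (hadj : ∀ u v, (Gs 0).Adj u v → ∀ i j, i < k → j < k → u ∈ In i → v ∈ In j → i = j)
    (hlab : ∀ i j, i < k → j < k → i ≠ j → Disjoint (Lab j) (In i))
    (hR : ∀ v, {u | u ≠ v ∧ ∃ i, i < k ∧ u ∈ Lab i ∧ v ∈ Lab i}.ncard < R)
    (hstep : ∀ j, j < k → ∀ (c : V → ZMod 3) (τ : V → ℝ), Strict (Gs (j + 1)) c τ →
      Set.InjOn τ (Lab j) → ∃ (c' : V → ZMod 3) (τ' : V → ℝ), Strict (Gs j) c' τ' ∧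
        ∀ v, v ∉ In j → c' v = c v ∧ τ' v = τ v)
    (h : StrictN (Gs k) n) : StrictN (Gs 0) ((s + 1) * (R * n + 1)) := by
  classical
  -- the clusters
  let cl : V → Option (Fin k) := fun v =>
    if hv : ∃ j : Fin k, v ∈ In j then some hv.choose else none
  have hcl : ∀ v (i : Fin k), cl v = some i ↔ v ∈ In i := by
    intro v i
    constructor
    · intro h1
      by_cases hv : ∃ j : Fin k, v ∈ In j
      · have h2 : cl v = some hv.choose := dif_pos hv
        rw [h2] at h1
        rw [← Option.some.inj h1]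
        exact hv.choose_spec
      · have h2 : cl v = none := dif_neg hv
        rw [h2] at h1
        exact absurd h1 (by simp)
    · intro h1
      have hv : ∃ j : Fin k, v ∈ In j := ⟨i, h1⟩
      have h2 : cl v = some hv.choose := dif_pos hv
      rw [h2]
      by_contra hne
      have h3 : (hv.choose : ℕ) ≠ (i : ℕ) := fun h4 => hne (congrArg some (Fin.ext h4))
      exact Set.disjoint_left.1 (hdisj _ _ hv.choose.2 i.2 h3) hv.choose_spec h1
  have hcl0 : ∀ v, cl v = none → ∀ j, j < k → v ∉ In j := by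
    intro v hv j hj hvj
    have := (hcl v ⟨j, hj⟩).2 hvj
    rw [hv] at this
    exact absurd this (by simp)
  obtain ⟨ρ, hρ, hinj⟩ := exists_rho (fun i : Fin k => Lab i) R (by
    intro v
    refine lt_of_le_of_lt (Set.ncard_le_ncard ?_ (Set.toFinite _)) (hR v)
    rintro u ⟨hu, i, h1, h2⟩
    exact ⟨hu, i, i.2, h1, h2⟩)
  refine lift (G := Gs 0) (G' := Gs k) cl (fun i : Fin k => Lab i) s R n ?_ ?_ ρ hρ hinj ?_ h
  · intro i
    have : {v | cl v = some i} = In i := by
      ext v
      exact hcl v i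
    rw [this]
    exact hs i i.2
  · intro u v huv i j hi hj
    exact Fin.ext (hadj u v huv i j i.2 j.2 ((hcl u i).1 hi) ((hcl v j).1 hj))
  · intro c τ hst hin
    obtain ⟨c', τ', h1, h2⟩ := ext_seq Gs In Lab k hlab hstep c τ hst fun j hj => hin ⟨j, hj⟩
    exact ⟨c', τ', h1, fun v hv => (h2 v (hcl0 v hv)).2⟩

end Pool.Agent.Uni392
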