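import Pool.Agent.Work.MP_392c8e_co_t1.Apply
import Pool.Agent.Work.MP_392c8e_co_uni.LiftSeq

/-!
# The lift for the reducers

The extension theorem of the reducers, without a change outside the interior, and the lift for a
sequence of reductions with disjoint interiors.
-/

namespace Pool.Agent.T1Red

open Finset

set_option linter.unusedSectionVars false

variable {R : Red} {nl : List (ℕ × ℕ)} {ps : List (ℕ × List ℕ × ℕ)} {miss : List ℕ}
  {co com bad : List (ℕ × ℕ)}

section

variable {V : Type} [Fintype V] [DecidableEq V] {G : SimpleGraph V}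

/-- The present labels, new vertices included. -/
def labs (R : Red) (nl : List (ℕ × ℕ)) (miss : List ℕ) (f : ℕ → V) : Set V :=
  {v | ∃ i, i < R.t ∧ i ∉ miss ∧ f (rho nl i) = v}

/-- **Strict colourings of the new graph extend**, without a change outside the interior.  Only the
heights of the present labels have to be different. -/
theorem ext_of_newG (h : R.Ext co)
    (hd : Data R nl ps miss co com bad) (f : ℕ → V)
    (hinj : ∀ i j, Real R nl miss i → Real R nl miss j → f i = f j → Same co i j)
    (hnbr : ∀ i, R.t ≤ i → i < R.t + R.m → ∀ w, G.Adj (f i) w →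
      ∃ j, ((i, j) ∈ R.ed ∨ (j, i) ∈ R.ed) ∧ j ∉ miss ∧ w = f j)
    {c : V → ZMod 3} {τ : V → ℝ}
    (hs : Strict (newG G (Int R f) (nedges R nl miss f)) c τ)
    (hτ : Set.InjOn τ (labs R nl miss f)) :
    ∃ (c' : V → ZMod 3) (τ' : V → ℝ), Strict G c' τ' ∧
      ∀ v, ¬ Int R f v → c' v = c v ∧ τ' v = τ v := by
  classical
  have hlab : ∀ i j, i < R.t → j < R.t → i ∉ miss → j ∉ miss → f (rho nl i) = f (rho nl j) →
      Same co i j := by
    intro i j hi hj hi' hj' h
    exact hd.same_rho hi hj (hinj _ _ (hd.real_rho hi hi') (hd.real_rho hj hj') h)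
  -- a bound for the heights
  obtain ⟨B, hB⟩ : ∃ B : ℝ, ∀ v, τ v < B := by
    refine ⟨∑ v, |τ v| + 1, fun v => ?_⟩
    have h1 : |τ v| ≤ ∑ v, |τ v| := single_le_sum (fun v _ => abs_nonneg (τ v)) (mem_univ v)
    have h2 := le_abs_self (τ v)
    linarith
  -- the values of the labels
  set cl : ℕ → ZMod 3 := fun j => if j ∈ miss then (par R j).elim 0 (fun k => c (f (rho nl k)) + 1)
    else c (f (rho nl j)) with hcl
  set tl : ℕ → ℝ := fun j => if j ∈ miss then B + j else τ (f (rho nl j)) with htl
  have htinj : ∀ i j, i < R.t → j < R.t → tl i = tl j → Same co i j := by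
    intro i j hi hj hij
    simp only [htl] at hij
    by_cases m1 : i ∈ miss
    · by_cases m2 : j ∈ miss
      · rw [if_pos m1, if_pos m2] at hij
        have : (i : ℝ) = j := by linarith
        exact Or.inl (by exact_mod_cast this)
      · rw [if_pos m1, if_neg m2] at hij
        have h1 := hB (f (rho nl j))
        have h2 : (0 : ℝ) ≤ i := Nat.cast_nonneg i
        linarith
    · by_cases m2 : j ∈ miss
      · rw [if_neg m1, if_pos m2] at hij
        have h1 := hB (f (rho nl i))
        have h2 : (0 : ℝ) ≤ j := Nat.cast_nonneg j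
        linarith
      · rw [if_neg m1, if_neg m2] at hij
        exact hlab i j hi hj m1 m2 (hτ ⟨i, hi, m1, rfl⟩ ⟨j, hj, m2, rfl⟩ hij)
  have hnw : ∀ e ∈ R.nw, Str cl tl e.1 e.2 := by
    intro e he
    obtain ⟨a1, a2, a3⟩ := hd.nw_lt e he
    by_cases m1 : e.1 ∈ miss
    · have m2 : e.2 ∉ miss := fun m2 => hd.nw_miss e he ⟨m1, m2⟩
      have h1 := hd.nw_deg e.1 (List.mem_range.2 a1)
      rw [if_pos (hd.miss_lt _ m1).2] at h1
      have h2 : par R e.1 = some e.2 := by
        unfold par
        rw [find_unique h1 he (by simp)]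
        simp [oth]
      refine Or.inr ⟨?_, ?_⟩
      · simp only [hcl]
        rw [if_pos m1, if_neg m2, h2]
        rfl
      · simp only [htl]
        rw [if_pos m1, if_neg m2]
        have h3 := hB (f (rho nl e.2))
        have h4 : (0 : ℝ) ≤ e.1 := Nat.cast_nonneg _
        linarith
    · by_cases m2 : e.2 ∈ miss
      · have h1 := hd.nw_deg e.2 (List.mem_range.2 a2)
        rw [if_pos (hd.miss_lt _ m2).2] at h1
        have h2 : par R e.2 = some e.1 := by
          unfold par
          rw [find_unique h1 he (by simp)]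
          simp [oth, a3]
        refine Or.inl ⟨?_, ?_⟩
        · simp only [hcl]
          rw [if_pos m2, if_neg m1, h2]
          rfl
        · simp only [htl]
          rw [if_pos m2, if_neg m1]
          have h3 := hB (f (rho nl e.1))
          have h4 : (0 : ℝ) ≤ e.2 := Nat.cast_nonneg _
          linarith
      · have h1 : Str c τ (f (rho nl e.1)) (f (rho nl e.2)) := by
          refine hs _ _ (newG_adj.2 (Or.inr ⟨fun h4 => hd.nw_co e he (hlab _ _ a1 a2 m1 m2 h4), e.1, e.2,
            ⟨Or.inl he, m1, m2⟩, rfl, rfl⟩))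
        refine h1.of_eq ?_ ?_ ?_ ?_
        · simp only [hcl, if_neg m1]
        · simp only [htl, if_neg m1]
        · simp only [hcl, if_neg m2]
        · simp only [htl, if_neg m2]
  obtain ⟨c1, τ1, h1, h2⟩ := h cl tl htinj hnw
  let g : V → Option ℕ := fun v =>
    if hv : ∃ i, R.t ≤ i ∧ i < R.t + R.m ∧ f i = v then some hv.choose else none
  have hreal : ∀ i, R.t ≤ i → i < R.t + R.m → Real R nl miss i := fun i hi hi' =>
    hd.real_int hi hi'
  have hg1 : ∀ i, R.t ≤ i → i < R.t + R.m → g (f i) = some i := by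
    intro i hi hi'
    have hv : ∃ j, R.t ≤ j ∧ j < R.t + R.m ∧ f j = f i := ⟨i, hi, hi', rfl⟩
    show (if hv : ∃ j, R.t ≤ j ∧ j < R.t + R.m ∧ f j = f i then some hv.choose else none) = some i
    rw [dif_pos hv]
    obtain ⟨k1, k2, k3⟩ := hv.choose_spec
    rw [hd.same_int (hinj _ _ (hreal _ k1 k2) (hreal _ hi hi') k3) k1]
  have hg2 : ∀ v, ¬ Int R f v → g v = none := fun v hv => dif_neg hv
  refine ⟨fun v => (g v).elim (c v) c1, fun v => (g v).elim (τ v) τ1, ?_, fun v hv => by
    show (g v).elim (c v) c1 = c v ∧ (g v).elim (τ v) τ1 = τ v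
    rw [hg2 v hv]
    exact ⟨rfl, rfl⟩⟩
  -- the values at the vertices of the configuration
  have hval : ∀ j, Real R nl miss j →
      (g (f j)).elim (c (f j)) c1 = c1 j ∧ (g (f j)).elim (τ (f j)) τ1 = τ1 j := by
    intro j hj
    rcases lt_or_ge j R.t with h3 | h3
    · have h4 : ¬ Int R f (f j) := by
        rintro ⟨i, k1, k2, k3⟩
        have := hd.same_int (hinj _ _ (hreal _ k1 k2) hj k3) k1
        omega
      rw [hg2 _ h4]
      obtain ⟨h5, h6⟩ := h1 j h3
      rw [h5, h6]
      simp only [hcl, htl, if_neg hj.2.1, rho_old hj.2.2]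
      exact ⟨rfl, rfl⟩
    · rw [hg1 j h3 hj.1]
      exact ⟨rfl, rfl⟩
  have hin : ∀ i, R.t ≤ i → i < R.t + R.m → ∀ w, G.Adj (f i) w →
      Str (fun v => (g v).elim (c v) c1) (fun v => (g v).elim (τ v) τ1) (f i) w := by
    intro i hi hi' w hw
    obtain ⟨j, hj, hjm, rfl⟩ := hnbr i hi hi' w hw
    have hjr : Real R nl miss j := by
      rcases hj with hj | hj
      · exact ⟨(hd.ed_lt _ hj).2.1, hjm, (hd.ed_new _ hj).2⟩
      · exact ⟨(hd.ed_lt _ hj).1, hjm, (hd.ed_new _ hj).1⟩
    obtain ⟨a1, a2⟩ := hval i (hreal i hi hi')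
    obtain ⟨b1, b2⟩ := hval j hjr
    have hs : Str c1 τ1 i j := by
      rcases hj with hj | hj
      · exact h2 _ hj
      · exact (h2 _ hj).symm
    exact hs.of_eq a1 a2 b1 b2
  intro u v huv
  by_cases hu : Int R f u
  · obtain ⟨i, hi, hi', rfl⟩ := hu
    exact hin i hi hi' v huv
  · by_cases hv : Int R f v
    · obtain ⟨i, hi, hi', rfl⟩ := hv
      exact (hin i hi hi' u huv.symm).symm
    · refine (hs u v (newG_adj.2 (Or.inl ⟨huv, hu, hv⟩))).of_eq ?_ ?_ ?_ ?_
      · show (g u).elim (c u) c1 = c u
        rw [hg2 u hu]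
        rfl
      · show (g u).elim (τ u) τ1 = τ u
        rw [hg2 u hu]
        rfl
      · show (g v).elim (c v) c1 = c v
        rw [hg2 v hv]
        rfl
      · show (g v).elim (τ v) τ1 = τ v
        rw [hg2 v hv]
        rfl


end

end Pool.Agent.T1Red

namespace Pool.Agent.Uni392

open Finset
open Pool.Agent.T1Red

/-- The number of interior vertices. -/
theorem ncard_int_le {V : Type} (R : Red) (f : ℕ → V) : {v | Int R f v}.ncard ≤ R.m := by
  classical
  have h1 : {v | Int R f v} ⊆ (((Finset.range R.m).image fun i => f (R.t + i) : Finset V) : Set V) := by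
    rintro v ⟨i, hi, hi', rfl⟩
    rw [Finset.mem_coe, Finset.mem_image]
    refine ⟨i - R.t, Finset.mem_range.2 (by omega), ?_⟩
    congr 1
    omega
  refine (Set.ncard_le_ncard h1 (Finset.finite_toSet _)).trans ?_
  rw [Set.ncard_coe_finset]
  refine Finset.card_image_le.trans ?_
  rw [Finset.card_range]

/-- The number of labels. -/
theorem ncard_labs_le {V : Type} (R : Red) (nl : List (ℕ × ℕ)) (miss : List ℕ) (f : ℕ → V) :
    (labs R nl miss f).ncard ≤ R.t := by
  classical
  have h1 : labs R nl miss f ⊆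
      (((Finset.range R.t).image fun i => f (rho nl i) : Finset V) : Set V) := by
    rintro v ⟨i, hi, -, rfl⟩
    rw [Finset.mem_coe, Finset.mem_image]
    exact ⟨i, Finset.mem_range.2 hi, rfl⟩
  refine (Set.ncard_le_ncard h1 (Finset.finite_toSet _)).trans ?_
  rw [Set.ncard_coe_finset]
  refine Finset.card_image_le.trans ?_
  rw [Finset.card_range]

/-- An occurrence of a reducer. -/
structure Place (V : Type) where
  /-- the reducer -/
  R : Red
  /-- the new labels -/
  nl : List (ℕ × ℕ)
  /-- the paths -/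
  ps : List (ℕ × List ℕ × ℕ)
  /-- the missing labels -/
  miss : List ℕ
  /-- the pairs of labels which may be the same vertex -/
  co : List (ℕ × ℕ)
  /-- the pairs which may not have a common neighbour -/
  com : List (ℕ × ℕ)
  /-- the pairs which may not be adjacent -/
  bad : List (ℕ × ℕ)
  /-- the vertices -/
  f : ℕ → V

/-- The graph after the reduction. -/
def Place.app {V : Type} (p : Place V) (G : SimpleGraph V) : SimpleGraph V :=
  newG G (Int p.R p.f) (nedges p.R p.nl p.miss p.f)

/-- The interior. -/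
def Place.In {V : Type} (p : Place V) : Set V := {v | Int p.R p.f v}

/-- The labels. -/
def Place.Lab {V : Type} (p : Place V) : Set V := labs p.R p.nl p.miss p.f

/-- The reducer really occurs in the graph. -/
structure Place.Ok {V : Type} (p : Place V) (G : SimpleGraph V) : Prop where
  ext : p.R.Ext p.co
  data : Data p.R p.nl p.ps p.miss p.co p.com p.bad
  inj : ∀ i j, Real p.R p.nl p.miss i → Real p.R p.nl p.miss j → p.f i = p.f j → Same p.co i j
  nbr : ∀ i, p.R.t ≤ i → i < p.R.t + p.R.m → ∀ w, G.Adj (p.f i) w →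
    ∃ j, ((i, j) ∈ p.R.ed ∨ (j, i) ∈ p.R.ed) ∧ j ∉ p.miss ∧ w = p.f j

theorem Place.Ok.lift {V : Type} [Fintype V] {p : Place V} {G : SimpleGraph V} (h : p.Ok G)
    (c : V → ZMod 3) (τ : V → ℝ) (hs : Strict (p.app G) c τ) (hτ : Set.InjOn τ p.Lab) :
    ∃ (c' : V → ZMod 3) (τ' : V → ℝ), Strict G c' τ' ∧
      ∀ v, v ∉ p.In → c' v = c v ∧ τ' v = τ v := by
  classical
  exact ext_of_newG h.ext h.data p.f h.inj h.nbr hs hτ

/-- The graphs after the first reductions. -/
def graphs {V : Type} (G : SimpleGraph V) (p : ℕ → Place V) : ℕ → SimpleGraph V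
  | 0 => G
  | j + 1 => (p j).app (graphs G p j)

/-- **One round of reductions.**  The places `p 0, …, p (k - 1)` occur one after the other, the
interiors are pairwise disjoint, have at most `s` vertices and no edges of `G` between them, the
labels of a place are not in the interior of another one, and a vertex shares a place with less
than `R` other labels.  Then a bound for the height of the last graph gives a bound for `G`. -/
theorem lift_round {V : Type} [Fintype V] {G : SimpleGraph V} (p : ℕ → Place V) (k s R n : ℕ)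
    (hok : ∀ j, j < k → (p j).Ok (graphs G p j))
    (hs : ∀ j, j < k → (p j).R.m ≤ s)
    (hdisj : ∀ i j, i < k → j < k → i ≠ j → Disjoint (p i).In (p j).In)
    (hadj : ∀ u v, G.Adj u v → ∀ i j, i < k → j < k → u ∈ (p i).In → v ∈ (p j).In → i = j)
    (hlab : ∀ i j, i < k → j < k → i ≠ j → Disjoint (p j).Lab (p i).In)
    (hR : ∀ v, {u | u ≠ v ∧ ∃ i, i < k ∧ u ∈ (p i).Lab ∧ v ∈ (p i).Lab}.ncard < R)
    (h : StrictN (graphs G p k) n) : StrictN G ((s + 1) * (R * n + 1)) :=
  lift_seq (graphs G p) (fun j => (p j).In) (fun j => (p j).Lab) k s R n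
    (fun j hj => (ncard_int_le _ _).trans (hs j hj)) hdisj hadj hlab hR
    (fun j hj c τ hst hin => (hok j hj).lift c τ hst hin) h

end Pool.Agent.Uni392
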