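import Mathlib
import Pool.Agent.Work.MP_392c8e_co_uni.Inv
import Pool.Agent.Work.MP_392c8e_co_uni.LiftRed

/-!
# Families of disjoint places

Finitely many occurrences of reducers with disjoint vertex sets give the data of one virtual
surgery; the new graph has degrees at most three, no triangles and an algebraic dual, and bounded
heights on the new graph give bounded heights on the old one.
-/

namespace Pool.Agent.Uni91

open Finset Pool.Agent.Sub392 Pool.Agent.Circ
open Pool.Agent.T1Red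
open Pool.Agent.Red (Pl)
open Pool.Agent.Uni392 (StrictN Place)

set_option linter.unusedSectionVars false

variable {V : Type} [Fintype V] [DecidableEq V] {G : SimpleGraph V}

/-- The vertices of a place. -/
def _root_.Pool.Agent.Uni392.Place.Vert (p : Place V) : Set V :=
  {v | ∃ i, Real p.R p.nl p.miss i ∧ p.f i = v}

/-- The paths of a place. -/
def _root_.Pool.Agent.Uni392.Place.pth (p : Place V) : List (V × List V × V) :=
  p.ps.map fun q => (p.f q.1, q.2.1.map p.f, p.f q.2.2)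

/-- A place with all side conditions. -/
structure Good (p : Place V) (G : SimpleGraph V) : Prop where
  ok : p.Ok G
  adj : ∀ e ∈ p.R.ed, e.1 ∉ p.miss → e.2 ∉ p.miss → G.Adj (p.f e.1) (p.f e.2)
  hC : ∀ q ∈ p.com, ∀ w, ¬ Int p.R p.f w → ¬ (G.Adj (p.f q.1) w ∧ G.Adj w (p.f q.2))
  hT : ∀ q ∈ p.bad, ¬ G.Adj (p.f q.1) (p.f q.2)
  back : ∀ q ∈ p.ps, ∃ e ∈ p.R.nw, e.1 ∉ p.miss ∧ e.2 ∉ p.miss ∧
    ((q.1 = rho p.nl e.1 ∧ q.2.2 = rho p.nl e.2) ∨ (q.1 = rho p.nl e.2 ∧ q.2.2 = rho p.nl e.1))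
  dup : p.ps.Pairwise fun q q' => ¬ ((Same p.co q.1 q'.1 ∧ Same p.co q.2.2 q'.2.2) ∨
    (Same p.co q.1 q'.2.2 ∧ Same p.co q.2.2 q'.1))

/-- The interior vertices of a family. -/
def FI {ι : Type} (p : ι → Place V) (v : V) : Prop := ∃ i, Int (p i).R (p i).f v

/-- The paths of a family. -/
noncomputable def FP {ι : Type} [Fintype ι] (p : ι → Place V) : List (V × List V × V) :=
  (univ : Finset ι).toList.flatMap fun i => (p i).pth

/-- A family of disjoint places. -/
structure Fam {ι : Type} (p : ι → Place V) (G : SimpleGraph V) : Prop where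
  good : ∀ i, Good (p i) G
  far : ∀ i j, i ≠ j → Disjoint (p i).Vert (p j).Vert

theorem mem_FP {ι : Type} [Fintype ι] {p : ι → Place V} {q : V × List V × V} :
    q ∈ FP p ↔ ∃ i, q ∈ (p i).pth := by
  unfold FP
  rw [List.mem_flatMap]
  constructor
  · rintro ⟨i, _, h⟩
    exact ⟨i, h⟩
  · rintro ⟨i, h⟩
    exact ⟨i, by simp, h⟩

section

variable {p : Place V}

theorem Good.full_map {q : ℕ × List ℕ × ℕ} :
    full (p.f q.1, q.2.1.map p.f, p.f q.2.2) = (q.1 :: (q.2.1 ++ [q.2.2])).map p.f := by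
  unfold full
  simp

theorem Good.mem_full (h : Good p G) {q : V × List V × V} (hq : q ∈ p.pth) {x : V}
    (hx : x ∈ full q) : x ∈ p.Vert := by
  unfold Place.pth at hq
  rw [List.mem_map] at hq
  obtain ⟨q', hq', rfl⟩ := hq
  rw [Good.full_map, List.mem_map] at hx
  obtain ⟨i, hi, rfl⟩ := hx
  exact ⟨i, h.ok.data.rng q' hq' i hi, rfl⟩

theorem Good.int_vert (h : Good p G) {v : V} (hv : Int p.R p.f v) : v ∈ p.Vert := by
  obtain ⟨i, hi, hi', rfl⟩ := hv
  exact ⟨i, h.ok.data.real_int hi hi', rfl⟩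

/-- Neighbours of interior vertices are vertices of the place. -/
theorem Good.nbr_vert (h : Good p G) {v w : V} (hv : Int p.R p.f v) (hw : G.Adj v w) :
    w ∈ p.Vert := by
  obtain ⟨i, hi, hi', rfl⟩ := hv
  obtain ⟨j, hj, hjm, rfl⟩ := h.ok.nbr i hi hi' w hw
  refine ⟨j, ?_, rfl⟩
  rcases hj with hj | hj
  · exact ⟨(h.ok.data.ed_lt _ hj).2.1, hjm, (h.ok.data.ed_new _ hj).2⟩
  · exact ⟨(h.ok.data.ed_lt _ hj).1, hjm, (h.ok.data.ed_new _ hj).1⟩

theorem cs_map {A B : Type*} (f : A → B) {L : List A} {u v : B} (h : Cs (L.map f) u v) :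
    ∃ a b, Cs L a b ∧ f a = u ∧ f b = v := by
  obtain ⟨i, hi, rfl, rfl⟩ := cs_iff_get.1 h
  rw [List.length_map] at hi
  refine ⟨L[i], L[i + 1], cs_iff_get.2 ⟨i, hi, rfl, rfl⟩, ?_, ?_⟩
  · rw [List.getElem_map]
  · rw [List.getElem_map]

theorem cs_chain {A : Type*} {r : A → A → Prop} {L : List A} (h : List.IsChain r L) {u v : A}
    (hc : Cs L u v) : r u v := by
  obtain ⟨l₁, l₂, rfl⟩ := hc
  have h2 := (List.isChain_append.1 h).2.1
  rw [List.isChain_cons_cons] at h2
  exact h2.1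

/-- **The data of one place.** -/
theorem Good.vd (h : Good p G) : VD G (Int p.R p.f) p.pth := by
  have hd := h.ok.data
  have hinj := h.ok.inj
  refine ⟨?_, ?_, ?_, ?_, ?_⟩
  · intro q hq
    unfold Place.pth at hq
    rw [List.mem_map] at hq
    obtain ⟨q, hq, rfl⟩ := hq
    rw [Good.full_map]
    constructor
    · rw [List.isChain_map]
      refine List.IsChain.imp_of_mem_imp ?_ (hd.chain q hq)
      intro a b ha hb hab
      have h1 := hd.rng q hq a ha
      have h2 := hd.rng q hq b hb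
      rcases hab with h3 | h3
      · exact h.adj _ h3 h1.2.1 h2.2.1
      · exact (h.adj _ h3 h2.2.1 h1.2.1).symm
    · rw [List.Nodup, List.pairwise_map]
      refine List.Pairwise.imp_of_mem ?_ (hd.nodup q hq)
      intro a b ha hb hne hab
      exact hne (hinj _ _ (hd.rng q hq a ha) (hd.rng q hq b hb) hab)
  · unfold Place.pth
    rw [List.pairwise_map]
    refine List.Pairwise.imp_of_mem ?_ hd.disj
    intro q q' hq hq' hpq
    simp only
    rw [Good.full_map, Good.full_map]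
    constructor
    · intro x hx hx'
      obtain ⟨a, ha, rfl⟩ := List.mem_map.1 hx
      obtain ⟨b, hb, hab⟩ := List.mem_map.1 hx'
      have h1 := hd.same_int (hinj _ _ (hd.rng q' hq' b hb) (hd.rng q hq a (by simp [ha])) hab).symm
        (hd.inner q hq a ha)
      subst h1
      exact hpq.1 _ ha hb
    · intro x hx hx'
      obtain ⟨a, ha, rfl⟩ := List.mem_map.1 hx
      obtain ⟨b, hb, hab⟩ := List.mem_map.1 hx'
      have h1 := hd.same_int (hinj _ _ (hd.rng q hq b hb) (hd.rng q' hq' a (by simp [ha])) hab).symm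
        (hd.inner q' hq' a ha)
      subst h1
      exact hpq.2 _ ha hb
  · intro q hq x hx
    unfold Place.pth at hq
    obtain ⟨q', hq', rfl⟩ := List.mem_map.1 hq
    obtain ⟨a, ha, rfl⟩ := List.mem_map.1 hx
    exact ⟨a, hd.inner q' hq' a ha, (hd.rng q' hq' a (by simp [ha])).1, rfl⟩
  · intro q hq u v huv
    unfold Place.pth at hq
    obtain ⟨q', hq', rfl⟩ := List.mem_map.1 hq
    have key : ∀ u v, Cs (full (p.f q'.1, q'.2.1.map p.f, p.f q'.2.2)) u v →
        Int p.R p.f u ∨ Int p.R p.f v := by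
      intro u v h1
      rw [Good.full_map] at h1
      obtain ⟨a, b, h2, rfl, rfl⟩ := cs_map _ h1
      have h3 := cs_chain (hd.chain q' hq') h2
      have ha := (hd.rng q' hq' a h2.mem.1).1
      have hb := (hd.rng q' hq' b h2.mem.2).1
      rcases h3 with h4 | h4
      · rcases hd.ed_int _ h4 with h5 | h5
        · exact Or.inl ⟨a, h5, ha, rfl⟩
        · exact Or.inr ⟨b, h5, hb, rfl⟩
      · rcases hd.ed_int _ h4 with h5 | h5
        · exact Or.inr ⟨b, h5, hb, rfl⟩
        · exact Or.inl ⟨a, h5, ha, rfl⟩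
    rcases huv with h1 | h1
    · exact key u v h1
    · exact (key v u h1).symm
  · unfold Place.pth
    rw [List.pairwise_map]
    refine List.Pairwise.imp_of_mem ?_ (hd.disj.and h.dup)
    rintro q q' hq hq' ⟨hpq, hne⟩ u v h1 h2
    -- an edge of both paths has no inner end
    have key : ∀ (q : ℕ × List ℕ × ℕ), q ∈ p.ps → ∀ u v,
        OnP (p.f q.1, q.2.1.map p.f, p.f q.2.2) u v →
        ∃ a b, p.f a = u ∧ p.f b = v ∧ (Cs (q.1 :: (q.2.1 ++ [q.2.2])) a b ∨
          Cs (q.1 :: (q.2.1 ++ [q.2.2])) b a) := by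
      intro q hq u v h
      rcases h with h | h
      · rw [Good.full_map] at h
        obtain ⟨a, b, h2, rfl, rfl⟩ := cs_map _ h
        exact ⟨a, b, rfl, rfl, Or.inl h2⟩
      · rw [Good.full_map] at h
        obtain ⟨a, b, h2, rfl, rfl⟩ := cs_map _ h
        exact ⟨b, a, rfl, rfl, Or.inr h2⟩
    obtain ⟨a, b, rfl, rfl, h3⟩ := key q hq u v h1
    obtain ⟨a', b', ha', hb', h4⟩ := key q' hq' _ _ h2
    have hm : ∀ {q : ℕ × List ℕ × ℕ} {a b : ℕ}, (Cs (q.1 :: (q.2.1 ++ [q.2.2])) a b ∨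
        Cs (q.1 :: (q.2.1 ++ [q.2.2])) b a) → a ∈ q.1 :: (q.2.1 ++ [q.2.2]) ∧
        b ∈ q.1 :: (q.2.1 ++ [q.2.2]) := by
      rintro q a b (h | h)
      · exact h.mem
      · exact h.mem.symm
    have s1 : Same p.co a a' := hinj _ _ (hd.rng q hq a (hm h3).1) (hd.rng q' hq' a' (hm h4).1)
      ha'.symm
    have s2 : Same p.co b b' := hinj _ _ (hd.rng q hq b (hm h3).2) (hd.rng q' hq' b' (hm h4).2)
      hb'.symm
    have hi : ∀ {a a' : ℕ}, Same p.co a a' → a ∈ q.1 :: (q.2.1 ++ [q.2.2]) →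
        a' ∈ q'.1 :: (q'.2.1 ++ [q'.2.2]) → (a = q.1 ∨ a = q.2.2) ∧ (a' = q'.1 ∨ a' = q'.2.2) := by
      intro a a' hs ha ha'
      constructor
      · by_contra hcon
        have h5 : a ∈ q.2.1 := by
          simp only [List.mem_cons, List.mem_append, List.not_mem_nil, or_false] at ha
          tauto
        have h6 := hd.same_int hs (hd.inner q hq a h5)
        exact hpq.1 a h5 (h6 ▸ ha')
      · by_contra hcon
        have h5 : a' ∈ q'.2.1 := by
          simp only [List.mem_cons, List.mem_append, List.not_mem_nil, or_false] at ha'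
          tauto
        have h6 := hd.same_int hs.symm (hd.inner q' hq' a' h5)
        exact hpq.2 a' h5 (h6 ▸ ha)
    obtain ⟨e1, e2⟩ := hi s1 (hm h3).1 (hm h4).1
    obtain ⟨e3, e4⟩ := hi s2 (hm h3).2 (hm h4).2
    have n1 : ¬ Same p.co a b := by
      rcases h3 with h3 | h3
      · obtain ⟨i, hi, r1, r2⟩ := cs_iff_get.1 h3
        have := List.pairwise_iff_getElem.1 (hd.nodup q hq) i (i + 1) (by omega) hi (by omega)
        rwa [r1, r2] at this
      · obtain ⟨i, hi, r1, r2⟩ := cs_iff_get.1 h3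
        have := List.pairwise_iff_getElem.1 (hd.nodup q hq) i (i + 1) (by omega) hi (by omega)
        rw [r1, r2] at this
        exact fun h => this h.symm
    have n2 : ¬ Same p.co a' b' := by
      rcases h4 with h3 | h3
      · obtain ⟨i, hi, r1, r2⟩ := cs_iff_get.1 h3
        have := List.pairwise_iff_getElem.1 (hd.nodup q' hq') i (i + 1) (by omega) hi (by omega)
        rwa [r1, r2] at this
      · obtain ⟨i, hi, r1, r2⟩ := cs_iff_get.1 h3
        have := List.pairwise_iff_getElem.1 (hd.nodup q' hq') i (i + 1) (by omega) hi (by omega)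
        rw [r1, r2] at this
        exact fun h => this h.symm
    apply hne
    rcases e1 with rfl | rfl <;> rcases e3 with rfl | rfl
    · exact absurd (Or.inl rfl) n1
    · rcases e2 with rfl | rfl <;> rcases e4 with rfl | rfl
      · exact absurd (Or.inl rfl) n2
      · exact Or.inl ⟨s1, s2⟩
      · exact Or.inr ⟨s1, s2⟩
      · exact absurd (Or.inl rfl) n2
    · rcases e2 with rfl | rfl <;> rcases e4 with rfl | rfl
      · exact absurd (Or.inl rfl) n2
      · exact Or.inr ⟨s2, s1⟩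
      · exact Or.inl ⟨s2, s1⟩
      · exact absurd (Or.inl rfl) n2
    · exact absurd (Or.inl rfl) n1

/-- New edges of a place have labels as ends. -/
theorem Good.ends_iff (h : Good p G) {u v : V} :
    ((u, v) ∈ ends p.pth ∨ (v, u) ∈ ends p.pth) ↔
      ((u, v) ∈ nedges p.R p.nl p.miss p.f ∨ (v, u) ∈ nedges p.R p.nl p.miss p.f) := by
  have key1 : ∀ u v, (u, v) ∈ ends p.pth →
      ((u, v) ∈ nedges p.R p.nl p.miss p.f ∨ (v, u) ∈ nedges p.R p.nl p.miss p.f) := by
    intro u v h1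
    unfold ends Place.pth at h1
    rw [List.map_map, List.mem_map] at h1
    obtain ⟨q, hq, h2⟩ := h1
    simp only [Function.comp, Prod.mk.injEq] at h2
    obtain ⟨rfl, rfl⟩ := h2
    obtain ⟨e, he, m1, m2, h3 | h3⟩ := h.back q hq
    · left
      rw [h3.1, h3.2]
      exact mem_nedges.2 ⟨e, he, m1, m2, rfl, rfl⟩
    · right
      rw [h3.1, h3.2]
      exact mem_nedges.2 ⟨e, he, m1, m2, rfl, rfl⟩
  have key2 : ∀ u v, (u, v) ∈ nedges p.R p.nl p.miss p.f →
      ((u, v) ∈ ends p.pth ∨ (v, u) ∈ ends p.pth) := by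
    intro u v h1
    obtain ⟨e, he, m1, m2, rfl, rfl⟩ := mem_nedges.1 h1
    obtain ⟨q, hq, h3 | h3⟩ := h.ok.data.path e he m1 m2
    · left
      unfold ends Place.pth
      rw [List.map_map, List.mem_map]
      exact ⟨q, hq, by simp only [Function.comp, h3.1, h3.2]⟩
    · right
      unfold ends Place.pth
      rw [List.map_map, List.mem_map]
      exact ⟨q, hq, by simp only [Function.comp, h3.1, h3.2]⟩
  constructor
  · rintro (h1 | h1)
    · exact key1 u v h1
    · exact (key1 v u h1).symm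
  · rintro (h1 | h1)
    · exact key2 u v h1
    · exact (key2 v u h1).symm

theorem Good.ends_vert (h : Good p G) {u v : V} (h1 : (u, v) ∈ ends p.pth) :
    u ∈ p.Vert ∧ v ∈ p.Vert := by
  unfold ends at h1
  rw [List.mem_map] at h1
  obtain ⟨q, hq, h2⟩ := h1
  rw [Prod.mk.injEq] at h2
  obtain ⟨rfl, rfl⟩ := h2
  constructor
  · exact h.mem_full hq (by unfold full; simp)
  · exact h.mem_full hq (by unfold full; simp)

end

section

variable {ι : Type} [Fintype ι] {p : ι → Place V}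

theorem Fam.eq_of_vert (hp : Fam p G) {i j : ι} {v : V} (hi : v ∈ (p i).Vert)
    (hj : v ∈ (p j).Vert) : i = j := by
  by_contra hne
  exact Set.disjoint_left.1 (hp.far i j hne) hi hj

/-- **The data of a family.** -/
theorem Fam.vd (hp : Fam p G) : VD G (FI p) (FP p) := by
  have hcross : ∀ i j, i ≠ j → ∀ q ∈ (p i).pth, ∀ q' ∈ (p j).pth, ∀ x ∈ full q, x ∉ full q' := by
    intro i j hij q hq q' hq' x hx hx'
    exact hij (hp.eq_of_vert ((hp.good i).mem_full hq hx) ((hp.good j).mem_full hq' hx'))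
  have hpw : ∀ (r : V × List V × V → V × List V × V → Prop),
      (∀ i, (p i).pth.Pairwise r) →
      (∀ i j, i ≠ j → ∀ q ∈ (p i).pth, ∀ q' ∈ (p j).pth, r q q') → (FP p).Pairwise r := by
    intro r h1 h2
    unfold FP
    rw [List.pairwise_flatMap]
    refine ⟨fun i _ => h1 i, ?_⟩
    refine (Finset.nodup_toList (univ : Finset ι)).imp ?_
    intro i j hij q hq q' hq'
    exact h2 i j hij q hq q' hq'
  refine ⟨?_, ?_, ?_, ?_, ?_⟩
  · intro q hq
    obtain ⟨i, hq⟩ := mem_FP.1 hq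
    exact (hp.good i).vd.chain q hq
  · refine hpw _ (fun i => (hp.good i).vd.disj) ?_
    intro i j hij q hq q' hq'
    exact ⟨fun x hx => hcross i j hij q hq q' hq' x (full_inner hx),
      fun x hx h => hcross j i (Ne.symm hij) q' hq' q hq x (full_inner hx) h⟩
  · intro q hq x hx
    obtain ⟨i, hq⟩ := mem_FP.1 hq
    exact ⟨i, (hp.good i).vd.int q hq x hx⟩
  · intro q hq u v huv
    obtain ⟨i, hq⟩ := mem_FP.1 hq
    rcases (hp.good i).vd.edge q hq u v huv with h1 | h1
    · exact Or.inl ⟨i, h1⟩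
    · exact Or.inr ⟨i, h1⟩
  · refine hpw _ (fun i => (hp.good i).vd.edisj) ?_
    intro i j hij q hq q' hq' u v h1 h2
    have m1 : u ∈ full q := by
      rcases h1 with h1 | h1
      · exact h1.mem.1
      · exact h1.mem.2
    have m2 : u ∈ full q' := by
      rcases h2 with h2 | h2
      · exact h2.mem.1
      · exact h2.mem.2
    exact hcross i j hij q hq q' hq' u m1 m2

/-- The new graph of the family. -/
noncomputable def FG (p : ι → Place V) (G : SimpleGraph V) : SimpleGraph V :=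
  newG G (FI p) (ends (FP p))

theorem mem_ends_FP {u v : V} : (u, v) ∈ ends (FP p) ↔ ∃ i, (u, v) ∈ ends (p i).pth := by
  unfold ends
  constructor
  · intro h
    obtain ⟨q, hq, h1⟩ := List.mem_map.1 h
    obtain ⟨i, hq⟩ := mem_FP.1 hq
    exact ⟨i, List.mem_map.2 ⟨q, hq, h1⟩⟩
  · rintro ⟨i, h⟩
    obtain ⟨q, hq, h1⟩ := List.mem_map.1 h
    exact List.mem_map.2 ⟨q, mem_FP.2 ⟨i, hq⟩, h1⟩

/-- The edges of the new graph: kept edges and edges of one place. -/
theorem Fam.adj_cases (hp : Fam p G) {u v : V} (h : (FG p G).Adj u v) :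
    (G.Adj u v ∧ ∀ i, ((p i).app G).Adj u v) ∨
      ∃ i, ((p i).app G).Adj u v ∧ u ∈ (p i).Vert ∧ v ∈ (p i).Vert := by
  rcases h with ⟨h1, h2, h3⟩ | ⟨h1, h2⟩
  · exact Or.inl ⟨h1, fun i => Or.inl ⟨h1, fun h => h2 ⟨i, h⟩, fun h => h3 ⟨i, h⟩⟩⟩
  · right
    rcases h2 with h2 | h2
    · obtain ⟨i, hi⟩ := mem_ends_FP.1 h2
      refine ⟨i, Or.inr ⟨h1, (hp.good i).ends_iff.1 (Or.inl hi)⟩, (hp.good i).ends_vert hi⟩
    · obtain ⟨i, hi⟩ := mem_ends_FP.1 h2
      refine ⟨i, Or.inr ⟨h1, (hp.good i).ends_iff.1 (Or.inr hi)⟩,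
        ((hp.good i).ends_vert hi).symm⟩

theorem Fam.adj_place (hp : Fam p G) {u v : V} (h : (FG p G).Adj u v) {i : ι}
    (hu : u ∈ (p i).Vert) : ((p i).app G).Adj u v := by
  rcases hp.adj_cases h with h1 | ⟨j, h1, h2, h3⟩
  · exact h1.2 i
  · rwa [hp.eq_of_vert hu h2]

/-- **The degrees of the new graph.** -/
theorem Fam.deg (hp : Fam p G) (hdeg : Deg3 G) : Deg3 (FG p G) := by
  intro v A hA
  by_cases hv : ∃ i, v ∈ (p i).Vert
  · obtain ⟨i, hi⟩ := hv
    have hg := hp.good i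
    exact deg_newG hg.ok.data hdeg (p i).f hg.ok.inj hg.adj v A fun w hw =>
      hp.adj_place (hA w hw) hi
  · refine hdeg v A fun w hw => ?_
    rcases hA w hw with ⟨h1, -, -⟩ | ⟨-, h2⟩
    · exact h1
    · exfalso
      rcases h2 with h2 | h2
      · obtain ⟨i, hi⟩ := mem_ends_FP.1 h2
        exact hv ⟨i, ((hp.good i).ends_vert hi).1⟩
      · obtain ⟨i, hi⟩ := mem_ends_FP.1 h2
        exact hv ⟨i, ((hp.good i).ends_vert hi).2⟩

/-- **The new graph has no triangles.** -/
theorem Fam.cliqueFree (hp : Fam p G) (hG : G.CliqueFree 3) : (FG p G).CliqueFree 3 := by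
  classical
  intro S hS
  rw [SimpleGraph.is3Clique_iff] at hS
  obtain ⟨a, b, c, hab, hac, hbc, -⟩ := hS
  have key : (∃ i, ((p i).app G).Adj a b ∧ ((p i).app G).Adj a c ∧ ((p i).app G).Adj b c) ∨
      (G.Adj a b ∧ G.Adj a c ∧ G.Adj b c) := by
    rcases hp.adj_cases hab with h1 | ⟨i, h1, h2, h3⟩
    · rcases hp.adj_cases hac with h4 | ⟨i, h4, h5, h6⟩
      · rcases hp.adj_cases hbc with h7 | ⟨i, h7, h8, h9⟩
        · exact Or.inr ⟨h1.1, h4.1, h7.1⟩
        · exact Or.inl ⟨i, (hp.adj_place hab.symm h8).symm, (hp.adj_place hac.symm h9).symm, h7⟩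
      · exact Or.inl ⟨i, hp.adj_place hab h5, h4, (hp.adj_place hbc.symm h6).symm⟩
    · exact Or.inl ⟨i, h1, hp.adj_place hac h2, hp.adj_place hbc h3⟩
  rcases key with ⟨i, h⟩ | h
  · have hg := hp.good i
    exact cliqueFree_newG hg.ok.data hG (p i).f hg.ok.inj hg.hC hg.hT {a, b, c}
      (SimpleGraph.is3Clique_triple_iff.2 ⟨h.1, h.2.1, h.2.2⟩)
  · exact hG {a, b, c} (SimpleGraph.is3Clique_triple_iff.2 ⟨h.1, h.2.1, h.2.2⟩)

/-- **The new graph has an algebraic dual.** -/
theorem Fam.pl (hp : Fam p G) (h : Pl G) : Pl (FG p G) := by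
  have hd := hp.vd
  refine pl_newG h _ _ (FP p) hd.chain hd.disj hd.int fun e he => ?_
  unfold ends at he
  obtain ⟨q, hq, h1⟩ := List.mem_map.1 he
  exact ⟨q, hq, Or.inl ⟨by rw [← h1], by rw [← h1]⟩⟩

/-- The edges of `G` at the interior of a place. -/
def atI (q : Place V) (G : SimpleGraph V) : SimpleGraph V where
  Adj u v := G.Adj u v ∧ (Int q.R q.f u ∨ Int q.R q.f v)
  symm := ⟨fun _ _ h => ⟨h.1.symm, h.2.symm⟩⟩
  loopless := ⟨fun _ h => G.loopless.irrefl _ h.1⟩

/-- The local extension of colourings. -/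
theorem Fam.ext (hp : Fam p G) (i : ι) (c : V → ZMod 3) (τ : V → ℝ) (hs : Strict (FG p G) c τ)
    (hτ : Set.InjOn τ (p i).Lab) : ∃ (c' : V → ZMod 3) (τ' : V → ℝ),
      (∀ v, v ∉ (p i).In → c' v = c v ∧ τ' v = τ v) ∧
        ∀ u v, G.Adj u v → u ∈ (p i).In → Str c' τ' u v := by
  have hg := hp.good i
  have hok : (p i).Ok (atI (p i) G) :=
    ⟨hg.ok.ext, hg.ok.data, hg.ok.inj, fun j hj hj' w hw => hg.ok.nbr j hj hj' w hw.1⟩
  obtain ⟨c', τ', h1, h2⟩ := hok.lift c τ (by
    rintro u v (⟨h1, h2, h3⟩ | ⟨h1, h2⟩)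
    · exfalso
      rcases h1.2 with h4 | h4
      · exact h2 h4
      · exact h3 h4
    · refine hs u v (Or.inr ⟨h1, ?_⟩)
      rcases hg.ends_iff.2 h2 with h3 | h3
      · exact Or.inl (mem_ends_FP.2 ⟨i, h3⟩)
      · exact Or.inr (mem_ends_FP.2 ⟨i, h3⟩)) hτ
  exact ⟨c', τ', h2, fun u v huv hu => h1 u v ⟨huv, Or.inl hu⟩⟩

/-- **The lift of a family.** -/
theorem Fam.lift [DecidableEq ι] (hp : Fam p G) {s t n : ℕ} (hs : ∀ i, (p i).R.m ≤ s)
    (ht : ∀ i, (p i).R.t ≤ t) (h : StrictN (FG p G) n) :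
    StrictN G ((s + 1) * ((t + 1) * n + 1)) := by
  classical
  have hin : ∀ i v, v ∈ (p i).In → v ∈ (p i).Vert := fun i v hv => (hp.good i).int_vert hv
  have hlab : ∀ i v, v ∈ (p i).Lab → v ∈ (p i).Vert := by
    rintro i v ⟨j, hj, hm, rfl⟩
    exact ⟨_, (hp.good i).ok.data.real_rho hj hm, rfl⟩
  let cl : V → Option ι := fun v => if hv : ∃ i, v ∈ (p i).In then some hv.choose else none
  have hcl : ∀ v i, cl v = some i ↔ v ∈ (p i).In := by
    intro v i
    constructor
    · intro h1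
      by_cases hv : ∃ j, v ∈ (p j).In
      · have h2 : cl v = some hv.choose := dif_pos hv
        rw [h2] at h1
        rw [← Option.some.inj h1]
        exact hv.choose_spec
      · have h2 : cl v = none := dif_neg hv
        rw [h2] at h1
        exact absurd h1 (by simp)
    · intro h1
      have hv : ∃ j, v ∈ (p j).In := ⟨i, h1⟩
      have h2 : cl v = some hv.choose := dif_pos hv
      rw [h2, hp.eq_of_vert (hin _ _ hv.choose_spec) (hin _ _ h1)]
  have hcl0 : ∀ v, cl v = none ↔ ∀ i, v ∉ (p i).In := by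
    intro v
    constructor
    · intro hv i hi
      have := (hcl v i).2 hi
      rw [hv] at this
      exact absurd this (by simp)
    · intro hv
      by_contra hne
      obtain ⟨i, hi⟩ := Option.ne_none_iff_exists'.1 hne
      exact hv i ((hcl v i).1 hi)
  obtain ⟨ρ, hρ, hinj⟩ := Pool.Agent.Uni392.exists_rho (fun i : ι => (p i).Lab) (t + 1) (by
    intro v
    by_cases hv : ∃ i, v ∈ (p i).Lab
    · obtain ⟨i, hi⟩ := hv
      refine Nat.lt_succ_of_le (le_trans (Set.ncard_le_ncard ?_ (Set.toFinite _))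
        ((Pool.Agent.Uni392.ncard_labs_le (p i).R (p i).nl (p i).miss (p i).f).trans (ht i)))
      rintro u ⟨hu, j, h1, h2⟩
      have h3 : i = j := hp.eq_of_vert (hlab _ _ hi) (hlab _ _ h2)
      rw [h3]
      exact h1
    · have : {u | u ≠ v ∧ ∃ i, u ∈ (p i).Lab ∧ v ∈ (p i).Lab} = ∅ := by
        ext u
        simp only [Set.mem_ofPred_eq, Set.mem_empty_iff_false, iff_false]
        rintro ⟨-, i, -, h2⟩
        exact hv ⟨i, h2⟩
      rw [this, Set.ncard_empty]
      omega)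
  refine Pool.Agent.Uni392.lift_local (G := G) (G' := FG p G) cl (fun i => (p i).Lab) s (t + 1) n
    ?_ ?_ ?_ ρ hρ hinj ?_ h
  · intro i
    have : {v | cl v = some i} = (p i).In := by
      ext v
      exact hcl v i
    rw [this]
    exact (Pool.Agent.Uni392.ncard_int_le (p i).R (p i).f).trans (hs i)
  · intro u v huv i j hi hj
    have h1 := (hcl u i).1 hi
    have h2 := (hcl v j).1 hj
    exact hp.eq_of_vert ((hp.good i).nbr_vert h1 huv) (hin _ _ h2)
  · intro u v huv hu hv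
    refine Or.inl ⟨huv, fun h1 => ?_, fun h1 => ?_⟩
    · obtain ⟨i, hi⟩ := h1
      exact (hcl0 u).1 hu i hi
    · obtain ⟨i, hi⟩ := h1
      exact (hcl0 v).1 hv i hi
  · intro i c τ hst hinj'
    obtain ⟨c', τ', h1, h2⟩ := hp.ext i c τ hst hinj'
    exact ⟨c', τ', fun v hv => h1 v ((hcl0 v).1 hv i), fun u v huv hu =>
      h2 u v huv ((hcl u i).1 hu)⟩

end

end Pool.Agent.Uni91
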