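import Mathlib
import Pool.Agent.Work.MP_392c8e_co_uni.Fam

/-!
# Maximal families of places at pairwise large distance
-/

namespace Pool.Agent.Uni392

open Finset

/-- Every walk from `A` to `B` has length at least `D`. -/
def FarS {V : Type*} (G : SimpleGraph V) (D : ℕ) (A B : Set V) : Prop :=
  ∀ a ∈ A, ∀ b ∈ B, ∀ w : G.Walk a b, D ≤ w.length

theorem FarS.symm {V : Type*} {G : SimpleGraph V} {D : ℕ} {A B : Set V} (h : FarS G D A B) :
    FarS G D B A := by
  intro b hb a ha w
  have := h a ha b hb w.reverse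
  rwa [SimpleGraph.Walk.length_reverse] at this

theorem FarS.mono {V : Type*} {G : SimpleGraph V} {D D' : ℕ} {A B : Set V} (h : FarS G D A B)
    (hD : D' ≤ D) : FarS G D' A B := fun a ha b hb w => hD.trans (h a ha b hb w)

theorem FarS.disjoint {V : Type*} {G : SimpleGraph V} {D : ℕ} {A B : Set V} (h : FarS G D A B)
    (hD : 1 ≤ D) : Disjoint A B := by
  rw [Set.disjoint_left]
  intro v hv hv'
  have := h v hv v hv' SimpleGraph.Walk.nil
  simp only [SimpleGraph.Walk.length_nil] at this
  omega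

theorem not_farS {V : Type*} {G : SimpleGraph V} {D : ℕ} {A B : Set V} (h : ¬ FarS G D A B) :
    ∃ a ∈ A, ∃ b ∈ B, ∃ w : G.Walk a b, w.length < D := by
  unfold FarS at h
  push Not at h
  exact h

/-- **Maximal far families.** -/
theorem exists_far_family {V O : Type*} [Fintype V] (G : SimpleGraph V) (S : O → Set V)
    (Cat : O → Prop) (hne : ∀ q, Cat q → (S q).Nonempty) (D : ℕ) (hD : 1 ≤ D) :
    ∃ (k : ℕ) (p : Fin k → O), (∀ i, Cat (p i)) ∧
      (∀ i j, i ≠ j → FarS G D (S (p i)) (S (p j))) ∧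
      ∀ q, Cat q → ∃ i, ¬ FarS G D (S q) (S (p i)) := by
  classical
  let P : ℕ → Prop := fun k => ∃ p : Fin k → O, (∀ i, Cat (p i)) ∧
    ∀ i j, i ≠ j → FarS G D (S (p i)) (S (p j))
  have h0 : P 0 := ⟨fun i => i.elim0, fun i => i.elim0, fun i => i.elim0⟩
  have hb : ∀ k, P k → k ≤ Fintype.card V := by
    rintro k ⟨p, h1, h2⟩
    choose v hv using fun i => hne (p i) (h1 i)
    have hinj : Function.Injective v := by
      intro i j hij
      by_contra hne
      exact Set.disjoint_left.1 ((h2 i j hne).disjoint hD) (hv i) (hij ▸ hv j)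
    have := Fintype.card_le_of_injective v hinj
    rwa [Fintype.card_fin] at this
  set k := Nat.findGreatest P (Fintype.card V) with hk
  have hPk : P k := Nat.findGreatest_spec (m := 0) (Nat.zero_le _) h0
  obtain ⟨p, h1, h2⟩ := hPk
  refine ⟨k, p, h1, h2, fun q hq => ?_⟩
  by_contra hcon
  push Not at hcon
  have h3 : P (k + 1) := by
    refine ⟨Fin.cons q p, ?_, ?_⟩
    · intro i
      refine Fin.cases ?_ (fun j => ?_) i
      · exact hq
      · exact h1 j
    · intro i j
      refine Fin.cases (fun hij => ?_) (fun i' hij => ?_) i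
      · revert hij
        refine Fin.cases (fun hij => absurd rfl hij) (fun j' _ => ?_) j
        exact hcon j'
      · revert hij
        refine Fin.cases (fun _ => ?_) (fun j' hij => ?_) j
        · exact (hcon i').symm
        · exact h2 i' j' fun h => hij (by rw [h])
  have h4 := hb _ h3
  have h5 := Nat.le_findGreatest h4 h3
  omega

/-- **A maximal far family of places.**  `Cat` is the catalogue. -/
theorem exists_fam {V : Type} [Fintype V] [DecidableEq V] (G : SimpleGraph V)
    (Cat : Place V → Prop) (hg : ∀ q, Cat q → Uni91.Good q G) (hne : ∀ q, Cat q → q.Vert.Nonempty)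
    (D : ℕ) (hD : 1 ≤ D) :
    ∃ (k : ℕ) (p : Fin k → Place V), Uni91.Fam p G ∧ (∀ i, Cat (p i)) ∧
      (∀ i j, i ≠ j → FarS G D (p i).Vert (p j).Vert) ∧
      ∀ q, Cat q → ∃ i, ∃ a ∈ q.Vert, ∃ b ∈ (p i).Vert, ∃ w : G.Walk a b, w.length < D := by
  obtain ⟨k, p, h1, h2, h3⟩ := exists_far_family G Place.Vert Cat hne D hD
  refine ⟨k, p, ⟨fun i => hg _ (h1 i), fun i j hij => (h2 i j hij).disjoint hD⟩, h1, h2,
    fun q hq => ?_⟩
  obtain ⟨i, hi⟩ := h3 q hq
  exact ⟨i, not_farS hi⟩

/-- The vertices of a place are within distance `r` of each other. -/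
def Place.Diam {V : Type} (p : Place V) (G : SimpleGraph V) (r : ℕ) : Prop :=
  ∀ a ∈ p.Vert, ∀ b ∈ p.Vert, ∃ w : G.Walk a b, w.length ≤ r

/-- Every place of the catalogue is near the family: all pairs of vertices. -/
theorem near_fam {V : Type} {G : SimpleGraph V} {q p : Place V} {r D : ℕ} (hq : q.Diam G r)
    (hp : p.Diam G r) (h : ∃ a ∈ q.Vert, ∃ b ∈ p.Vert, ∃ w : G.Walk a b, w.length < D)
    {a b : V} (ha : a ∈ q.Vert) (hb : b ∈ p.Vert) :
    ∃ w : G.Walk a b, w.length < D + 2 * r := by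
  obtain ⟨a', ha', b', hb', w, hw⟩ := h
  obtain ⟨w1, h1⟩ := hq a ha a' ha'
  obtain ⟨w2, h2⟩ := hp b' hb' b hb
  refine ⟨(w1.append w).append w2, ?_⟩
  rw [SimpleGraph.Walk.length_append, SimpleGraph.Walk.length_append]
  omega

end Pool.Agent.Uni392
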