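import Pool.Agent.Work.MP_392c8e_co_uni.GrowthLoc
import Pool.Agent.Work.MP_392c8e_co_uni.FarFam

/-!
# The sets of vertices around the places without a deleted edge at a kept vertex

For a family of disjoint places, a walk from a vertex outside all interiors to one of the places
starts with a chain of the new graph to a kept vertex of a place.  The vertices from which the kept
vertices of one place are reached in this way form a bounded set, and any two of them are joined by
a bounded chain if this holds for the kept vertices of the place itself.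
-/

set_option autoImplicit false
set_option linter.unusedSectionVars false

namespace Pool.Agent.Uni392

open Finset Pool.Agent.Sub392
open Pool.Agent.Uni91 (VD ends full FI FP Fam Good mem_FP)
open Pool.Agent.T1Red (newG Deg3 Int Real)

section steps

variable {V : Type*}

/-- Chains can be reversed. -/
theorem Steps.rev {nb : V → Finset V} (hsymm : ∀ x y, y ∈ nb x → x ∈ nb y) {n : ℕ} {x y : V}
    (h : Steps nb n x y) : Steps nb n y x := by
  induction h with
  | refl x => exact Steps.refl x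
  | cons hxy _ ih => exact ih.trans (Steps.cons (hsymm _ _ hxy) (Steps.refl _))

/-- The ball of a walk. -/
theorem walk_mem_bal [DecidableEq V] {G : SimpleGraph V} {nb : V → Finset V}
    (hnb : ∀ x y, G.Adj x y → x ∈ nb y) {x y : V} (w : G.Walk x y) :
    x ∈ bal nb w.length y := by
  induction w with
  | nil => exact mem_bal_self nb 0 _
  | cons h w ih => exact mem_bal_succ ih (hnb _ _ h)

end steps

variable {V : Type} [Fintype V] [DecidableEq V] {G : SimpleGraph V} [DecidableRel G.Adj]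

theorem nbN_symm {I : V → Prop} {P : List (V × List V × V)} (x y : V) (h : y ∈ nbN G I P x) :
    x ∈ nbN G I P y := mem_nbN.2 (mem_nbN.1 h).symm

/-- The number of vertices of a place. -/
theorem ncard_vert_le (q : Place V) : q.Vert.ncard ≤ q.R.t + q.R.m := by
  classical
  have h1 : q.Vert ⊆ (((Finset.range (q.R.t + q.R.m)).image q.f : Finset V) : Set V) := by
    rintro v ⟨i, hi, rfl⟩
    rw [Finset.mem_coe, Finset.mem_image]
    exact ⟨i, Finset.mem_range.2 hi.1, rfl⟩
  refine (Set.ncard_le_ncard h1 (Finset.finite_toSet _)).trans ?_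
  rw [Set.ncard_coe_finset]
  refine Finset.card_image_le.trans ?_
  rw [Finset.card_range]

variable {ι : Type} [Fintype ι] {p : ι → Place V}

/-- The vertices outside all interiors from which a kept vertex of the `j`-th place is reached in at
most `D` steps of the new graph. -/
noncomputable def SJ (G : SimpleGraph V) (p : ι → Place V) (D : ℕ) (j : ι) : Finset V := by
  classical
  exact univ.filter fun v => ¬ FI p v ∧ ∃ t ∈ (p j).Vert, ¬ FI p t ∧
    ∃ n, n ≤ D ∧ Steps (nbN G (FI p) (FP p)) n v t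

theorem mem_SJ {D : ℕ} {j : ι} {v : V} :
    v ∈ SJ G p D j ↔ ¬ FI p v ∧ ∃ t ∈ (p j).Vert, ¬ FI p t ∧
      ∃ n, n ≤ D ∧ Steps (nbN G (FI p) (FP p)) n v t := by
  classical
  unfold SJ
  simp

/-- **The size.** -/
theorem card_SJ (hdeg : Deg3 (newG G (FI p) (ends (FP p)))) {N D : ℕ} {j : ι}
    (hN : (p j).R.t + (p j).R.m ≤ N) : (SJ G p D j).card ≤ 4 ^ D * N := by
  classical
  have h1 : SJ G p D j ⊆ ((univ.filter fun a => a ∈ (p j).Vert).biUnion
      fun a => bal (nbN G (FI p) (FP p)) D a) := by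
    intro v hv
    obtain ⟨-, a, ha, -, n, hn, h⟩ := mem_SJ.1 hv
    exact Finset.mem_biUnion.2 ⟨a, by simpa using ha, bal_mono _ _ hn (h.mem_bal nbN_symm)⟩
  refine (Finset.card_le_card h1).trans ?_
  refine (Finset.card_biUnion_le_card_mul _ _ (4 ^ D) fun a _ => ?_).trans ?_
  · exact card_bal (m := 3) (fun v => hdeg v _ fun w hw => mem_nbN.1 hw) D a
  · rw [mul_comm]
    refine Nat.mul_le_mul_left _ (le_trans (le_of_eq ?_) ((ncard_vert_le (p j)).trans hN))
    rw [← Set.ncard_coe_finset]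
    congr 1
    ext a
    simp

/-- **The first vertex of a place** on a walk which starts outside all interiors: the part of the
walk before it is a chain of the new graph. -/
theorem first_hit (hp : Fam p G) {v a : V} (w : G.Walk v a) (ha : ∃ i, a ∈ (p i).Vert)
    (hv : ¬ FI p v) : ∃ i, ∃ t ∈ (p i).Vert, ¬ FI p t ∧
      ∃ k, k ≤ w.length ∧ Steps (nbN G (FI p) (FP p)) k v t := by
  induction w with
  | nil =>
    obtain ⟨i, hi⟩ := ha
    exact ⟨i, _, hi, hv, 0, le_rfl, Steps.refl _⟩
  | @cons v u a h w ih =>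
    by_cases hvj : ∃ i, v ∈ (p i).Vert
    · obtain ⟨i, hi⟩ := hvj
      exact ⟨i, v, hi, hv, 0, Nat.zero_le _, Steps.refl _⟩
    · have hu : ¬ FI p u := by
        rintro ⟨i, hi⟩
        exact hvj ⟨i, (hp.good i).nbr_vert hi h.symm⟩
      obtain ⟨i, t, h1, h2, k, h3, h4⟩ := ih ha hu
      refine ⟨i, t, h1, h2, k + 1, ?_, Steps.cons (mem_nbN.2 (Or.inl ⟨h, hv, hu⟩)) h4⟩
      rw [SimpleGraph.Walk.length_cons]
      omega

/-- **Any two vertices of `SJ` are joined by a bounded chain** of the new graph, if this is true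
for the vertices of the place outside the interior. -/
theorem SJ_joined {D1 r : ℕ} {j : ι}
    (hring : ∀ t ∈ (p j).Vert, ∀ t' ∈ (p j).Vert, ¬ FI p t → ¬ FI p t' →
      ∃ k, k ≤ r ∧ Steps (nbN G (FI p) (FP p)) k t t') {v w : V}
    (hv : v ∈ SJ G p D1 j) (hw : w ∈ SJ G p D1 j) :
    ∃ n, n ≤ D1 + r + D1 ∧ Steps (nbN G (FI p) (FP p)) n v w := by
  obtain ⟨hv1, t, t1, t2, k, k1, k2⟩ := mem_SJ.1 hv
  obtain ⟨hw1, t', t3, t4, k', k3, k4⟩ := mem_SJ.1 hw
  obtain ⟨l, l1, l2⟩ := hring t t1 t' t3 t2 t4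
  exact ⟨k + l + k', by omega, (k2.trans l2).trans (k4.rev nbN_symm)⟩

/-- The interior vertices are inner vertices of paths: a test on the reducer. -/
theorem inn_of_test {j : ι} (ht : ∀ i ∈ List.range (p j).R.m, ∃ q ∈ (p j).ps,
      (p j).R.t + i ∈ q.2.1) {v : V} (hv : Int (p j).R (p j).f v) : Inn (FP p) v := by
  obtain ⟨i, h1, h2, rfl⟩ := hv
  obtain ⟨q, hq, h3⟩ := ht (i - (p j).R.t) (List.mem_range.2 (by omega))
  rw [Nat.add_sub_cancel' h1] at h3
  refine ⟨((p j).f q.1, q.2.1.map (p j).f, (p j).f q.2.2), mem_FP.2 ⟨j, ?_⟩, ?_⟩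
  · exact List.mem_map.2 ⟨q, hq, rfl⟩
  · exact List.mem_map.2 ⟨i, h3, rfl⟩

/-- **Near a place.**  A vertex which is not an inner vertex of a path and has no deleted edge, at
distance at most `D1` from some place: either a deleted edge is reached in the new graph, or the
vertex belongs to the set `SJ` of a place without gain. -/
theorem near_or_SJ (hp : Fam p G) (gain : ι → Prop) {D1 D : ℕ}
    (h1 : ∀ i, gain i → ∀ v, ¬ FI p v → ∀ t ∈ (p i).Vert, ¬ FI p t → ∀ n, n ≤ D1 →
      Steps (nbN G (FI p) (FP p)) n v t → NearG G (FI p) (FP p) D v)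
    (h2 : ∀ i, gain i → ∀ v, Int (p i).R (p i).f v → (∀ u, ¬ Del G (FI p) (FP p) v u) →
      ¬ Inn (FP p) v → NearG G (FI p) (FP p) D v)
    (h3 : ∀ i, ¬ gain i → ∀ v, Int (p i).R (p i).f v →
      Inn (FP p) v ∨ ∃ u, Del G (FI p) (FP p) v u)
    {v a : V} (w : G.Walk v a) (ha : ∃ i, a ∈ (p i).Vert) (hw : w.length ≤ D1)
    (hfree : ∀ u, ¬ Del G (FI p) (FP p) v u) (hinn : ¬ Inn (FP p) v) :
    NearG G (FI p) (FP p) D v ∨ ∃ i, ¬ gain i ∧ v ∈ SJ G p D1 i := by
  classical
  by_cases hv : FI p v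
  · obtain ⟨i, hi⟩ := hv
    by_cases hg : gain i
    · exact Or.inl (h2 i hg v hi hfree hinn)
    · rcases h3 i hg v hi with h4 | ⟨u, h4⟩
      · exact absurd h4 hinn
      · exact absurd h4 (hfree u)
  · obtain ⟨i, t, t1, t2, k, k1, k2⟩ := first_hit hp w ha hv
    by_cases hg : gain i
    · exact Or.inl (h1 i hg v hv t t1 t2 k (k1.trans hw) k2)
    · exact Or.inr ⟨i, hg, mem_SJ.2 ⟨hv, t, t1, t2, k, k1.trans hw, k2⟩⟩

/-- The inner vertices of the paths belong to places. -/
theorem inn_place (hp : Fam p G) {v : V} (hv : Inn (FP p) v) : ∃ j, Int (p j).R (p j).f v := by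
  obtain ⟨q, hq, h1⟩ := hv
  obtain ⟨j, hj⟩ := mem_FP.1 hq
  exact ⟨j, (hp.good j).vd.int q hj v h1⟩

/-- The neighbours of the inner vertices of the paths. -/
theorem near_of_inn (hp : Fam p G) {v u : V} (huv : G.Adj v u) (hu : Inn (FP p) u) :
    ∃ i, v ∈ (p i).Vert := by
  obtain ⟨j, hj⟩ := inn_place hp hu
  exact ⟨j, (hp.good j).nbr_vert hj huv.symm⟩

end Pool.Agent.Uni392
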