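import Mathlib
import Pool.Agent.Work.MP_392c8e_co_uni.SjF55

/-!
# Chains of the new graph of one place in the new graph of a family

If the places are far apart, a chain of the new graph of one place which starts near the place is a
chain of the new graph of the family.
-/

set_option autoImplicit false
set_option linter.unusedSectionVars false

namespace Pool.Agent.Uni91

open Finset Pool.Agent.Sub392
open Pool.Agent.Uni392 (Place FarS Steps nbN mem_nbN NearG Del Inn SJ first_hit)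
open Pool.Agent.T1Red (newG Deg3 Int Real)

variable {V : Type} [Fintype V] [DecidableEq V] {G : SimpleGraph V} [DecidableRel G.Adj]
variable {ι : Type} [Fintype ι] {p : ι → Place V}

/-- A vertex near a place does not belong to the other places. -/
theorem Fam.not_vert (hp : Fam p G) {i : ι} {B : ℕ}
    (hfar : ∀ j, j ≠ i → FarS G (B + 1) (p i).Vert (p j).Vert) {a t : V} (ha : a ∈ (p i).Vert)
    (w : G.Walk a t) (hw : w.length ≤ B) {j : ι} (hj : t ∈ (p j).Vert) : j = i := by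
  by_contra hne
  have := hfar j hne a ha t hj w
  omega

/-- A vertex near a place is interior for the family if and only if it is interior for the
place. -/
theorem Fam.fi_iff (hp : Fam p G) {i : ι} {B : ℕ}
    (hfar : ∀ j, j ≠ i → FarS G (B + 1) (p i).Vert (p j).Vert) {a t : V} (ha : a ∈ (p i).Vert)
    (w : G.Walk a t) (hw : w.length ≤ B) : FI p t ↔ Int (p i).R (p i).f t := by
  constructor
  · rintro ⟨j, hj⟩
    obtain rfl := hp.not_vert hfar ha w hw ((hp.good j).int_vert hj)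
    exact hj
  · exact fun h => ⟨i, h⟩

/-- **Chains.** -/
theorem Fam.steps_single (hp : Fam p G) {i : ι} {B : ℕ}
    (hfar : ∀ j, j ≠ i → FarS G (B + 1) (p i).Vert (p j).Vert) {n : ℕ} {t z : V}
    (h : Steps (nbN G (Int (p i).R (p i).f) (p i).pth) n t z)
    (ht : ∃ a ∈ (p i).Vert, ∃ w : G.Walk a t, w.length + n ≤ B) :
    Steps (nbN G (FI p) (FP p)) n t z ∧ ∃ a ∈ (p i).Vert, ∃ w : G.Walk a z, w.length ≤ B := by
  induction h with
  | refl x =>
    obtain ⟨a, ha, w, hw⟩ := ht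
    exact ⟨Steps.refl x, a, ha, w, by omega⟩
  | @cons n x y z hxy _ ih =>
    obtain ⟨a, ha, w, hw⟩ := ht
    rcases mem_nbN.1 hxy with ⟨h1, h2, h3⟩ | ⟨h1, h2⟩
    · have hw' : (w.concat h1).length ≤ B := by
        rw [SimpleGraph.Walk.length_concat]
        omega
      obtain ⟨h4, h5⟩ := ih ⟨a, ha, w.concat h1, by
        rw [SimpleGraph.Walk.length_concat]
        omega⟩
      refine ⟨Steps.cons (mem_nbN.2 (Or.inl ⟨h1, ?_, ?_⟩)) h4, h5⟩
      · rw [hp.fi_iff hfar ha w (by omega)]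
        exact h2
      · rw [hp.fi_iff hfar ha (w.concat h1) hw']
        exact h3
    · have hy : y ∈ (p i).Vert := by
        rcases h2 with h2 | h2
        · exact ((hp.good i).ends_vert h2).2
        · exact ((hp.good i).ends_vert h2).1
      obtain ⟨h4, h5⟩ := ih ⟨y, hy, SimpleGraph.Walk.nil, by simp; omega⟩
      refine ⟨Steps.cons (mem_nbN.2 (Or.inr ⟨h1, ?_⟩)) h4, h5⟩
      rcases h2 with h2 | h2
      · exact Or.inl (mem_ends_FP.2 ⟨i, h2⟩)
      · exact Or.inr (mem_ends_FP.2 ⟨i, h2⟩)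

/-- **Deleted edges.** -/
theorem Fam.del_single (hp : Fam p G) {i : ι} {B : ℕ}
    (hfar : ∀ j, j ≠ i → FarS G (B + 1) (p i).Vert (p j).Vert) {z w : V}
    (hz : ∃ a ∈ (p i).Vert, ∃ w : G.Walk a z, w.length ≤ B)
    (h : Del G (Int (p i).R (p i).f) (p i).pth z w) : Del G (FI p) (FP p) z w := by
  obtain ⟨h1, h2, h3⟩ := h
  refine ⟨h1, ?_, ?_⟩
  · rcases h2 with h2 | h2
    · exact Or.inl ⟨i, h2⟩
    · exact Or.inr ⟨i, h2⟩
  · intro q hq hon
    obtain ⟨j, hj⟩ := mem_FP.1 hq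
    obtain ⟨a, ha, w', hw'⟩ := hz
    have hzf : z ∈ full q := by
      rcases hon with hon | hon
      · exact hon.mem.1
      · exact hon.mem.2
    obtain rfl := hp.not_vert hfar ha w' hw' ((hp.good j).mem_full hj hzf)
    exact h3 q hj hon

/-- **From one place to the family.** -/
theorem Fam.nearG_single (hp : Fam p G) {i : ι} {B D : ℕ}
    (hfar : ∀ j, j ≠ i → FarS G (B + 1) (p i).Vert (p j).Vert) {t : V}
    (ht : ∃ a ∈ (p i).Vert, ∃ w : G.Walk a t, w.length + D ≤ B)
    (h : NearG G (Int (p i).R (p i).f) (p i).pth D t) : NearG G (FI p) (FP p) D t := by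
  obtain ⟨n, hn, z, w, hd, hs⟩ := h
  obtain ⟨a, ha, w', hw'⟩ := ht
  obtain ⟨h1, h2⟩ := hp.steps_single hfar hs ⟨a, ha, w', by omega⟩
  exact ⟨n, hn, z, w, hp.del_single hfar h2 hd, h1⟩

/-- A place with gain: from every kept vertex of the place and from every interior vertex without
deleted edge which is not an inner vertex of a path a deleted edge is reached in the new graph of
the place. -/
structure GainP (G : SimpleGraph V) (q : Place V) (r : ℕ) : Prop where
  ter : ∀ t ∈ q.Vert, ¬ Int q.R q.f t → NearG G (Int q.R q.f) q.pth r t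
  int : ∀ v, Int q.R q.f v → (∀ u, ¬ Del G (Int q.R q.f) q.pth v u) → ¬ Inn q.pth v →
    NearG G (Int q.R q.f) q.pth r v

/-- A place without gain whose kept vertices are joined in the new graph of the place and whose
interior vertices are inner vertices of paths or have a deleted edge. -/
structure JoinP (G : SimpleGraph V) (q : Place V) (r : ℕ) : Prop where
  ter : ∀ t ∈ q.Vert, ∀ t' ∈ q.Vert, ¬ Int q.R q.f t → ¬ Int q.R q.f t' →
    ∃ n, n ≤ r ∧ Steps (nbN G (Int q.R q.f) q.pth) n t t'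
  int : ∀ v, Int q.R q.f v → Inn q.pth v ∨ ∃ u, Del G (Int q.R q.f) q.pth v u

/-- The conclusion for a family: the hypothesis `h1` of `near_or_SJ`. -/
theorem Fam.near_ter (hp : Fam p G) {i : ι} {r D1 : ℕ} (hq : GainP G (p i) r)
    (hfar : ∀ j, j ≠ i → FarS G (r + 1) (p i).Vert (p j).Vert) {v t : V}
    (ht : t ∈ (p i).Vert) (ht' : ¬ FI p t) {n : ℕ} (hn : n ≤ D1)
    (h : Steps (nbN G (FI p) (FP p)) n v t) : NearG G (FI p) (FP p) (D1 + r) v := by
  have h1 := hq.ter t ht fun h2 => ht' ⟨i, h2⟩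
  obtain ⟨m, hm, z, w, hd, hs⟩ := hp.nearG_single hfar
    ⟨t, ht, SimpleGraph.Walk.nil, by simp⟩ h1
  exact ⟨n + m, by omega, z, w, hd, h.trans hs⟩

/-- The conclusion for a family: the hypothesis `h2` of `near_or_SJ`. -/
theorem Fam.near_int (hp : Fam p G) {i : ι} {r D : ℕ} (hrD : r ≤ D) (hq : GainP G (p i) r)
    (hfar : ∀ j, j ≠ i → FarS G (r + 1) (p i).Vert (p j).Vert) {v : V}
    (hv : Int (p i).R (p i).f v) (h1 : ∀ u, ¬ Del G (FI p) (FP p) v u) (h2 : ¬ Inn (FP p) v) :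
    NearG G (FI p) (FP p) D v := by
  have hvv := (hp.good i).int_vert hv
  obtain ⟨m, hm, z, w, hd, hs⟩ := hp.nearG_single hfar
    ⟨v, hvv, SimpleGraph.Walk.nil, by simp⟩ (hq.int v hv (fun u hu => h1 u (hp.del_single hfar
      ⟨v, hvv, SimpleGraph.Walk.nil, by simp⟩ hu)) fun h => h2 (by
        obtain ⟨q, hq, hx⟩ := h
        exact ⟨q, mem_FP.2 ⟨i, hq⟩, hx⟩))
  exact ⟨m, by omega, z, w, hd, hs⟩

/-- The conclusion for a family: the hypothesis `hring` of `SJ_joined`. -/
theorem Fam.join_ter (hp : Fam p G) {i : ι} {r : ℕ} (hq : JoinP G (p i) r)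
    (hfar : ∀ j, j ≠ i → FarS G (r + 1) (p i).Vert (p j).Vert) {t t' : V}
    (ht : t ∈ (p i).Vert) (ht' : t' ∈ (p i).Vert) (h1 : ¬ FI p t) (h2 : ¬ FI p t') :
    ∃ n, n ≤ r ∧ Steps (nbN G (FI p) (FP p)) n t t' := by
  obtain ⟨n, hn, hs⟩ := hq.ter t ht t' ht' (fun h3 => h1 ⟨i, h3⟩) fun h3 => h2 ⟨i, h3⟩
  exact ⟨n, hn, (hp.steps_single hfar hs ⟨t, ht, SimpleGraph.Walk.nil, by simp; omega⟩).1⟩

/-- The conclusion for a family: the hypothesis `h3` of `near_or_SJ`. -/
theorem Fam.join_int (hp : Fam p G) {i : ι} {r : ℕ} (hq : JoinP G (p i) r)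
    (hfar : ∀ j, j ≠ i → FarS G (r + 1) (p i).Vert (p j).Vert) {v : V}
    (hv : Int (p i).R (p i).f v) : Inn (FP p) v ∨ ∃ u, Del G (FI p) (FP p) v u := by
  rcases hq.int v hv with h | ⟨u, h⟩
  · obtain ⟨q, hq, hx⟩ := h
    exact Or.inl ⟨q, mem_FP.2 ⟨i, hq⟩, hx⟩
  · exact Or.inr ⟨u, hp.del_single hfar
      ⟨v, (hp.good i).int_vert hv, SimpleGraph.Walk.nil, by simp⟩ h⟩

end Pool.Agent.Uni91
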