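import Mathlib
import Pool.Agent.Work.MP_392c8e_co_uni.SingleP
import Pool.Agent.Work.MP_392c8e_co_uni.FarFam

/-!
# A base surgery together with a family of places far away from it
-/

set_option autoImplicit false
set_option linter.unusedSectionVars false

namespace Pool.Agent.Uni392

open Finset Pool.Agent.Sub392
open Pool.Agent.Uni91 (VD ends full FI FP Fam Good mem_FP GainP JoinP OnP Cs cs_iff_get)
open Pool.Agent.T1Red (newG Deg3 Int Real)

variable {V : Type} [Fintype V] [DecidableEq V] {G : SimpleGraph V} [DecidableRel G.Adj]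

/-- The interior vertices of a surgery and their neighbours. -/
def BV (G : SimpleGraph V) (I : V → Prop) : Set V := {v | I v ∨ ∃ w, G.Adj v w ∧ I w}

/-- **The base surgery.**  Near its interior there is always a deleted edge. -/
structure BaseS (G : SimpleGraph V) (I : V → Prop) (P : List (V × List V × V)) (D0 : ℕ) :
    Prop where
  vd : VD G I P
  int : ∀ v, I v → Inn P v ∨ ∃ w, Del G I P v w
  ter : ∀ v, ¬ I v → (∃ w, G.Adj v w ∧ I w) → NearG G I P D0 v

/-- The vertices of the paths. -/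
theorem full_BV {I : V → Prop} {P : List (V × List V × V)} (h : VD G I P)
    {q : V × List V × V} (hq : q ∈ P) {x : V} (hx : x ∈ full q) : x ∈ BV G I := by
  have key : ∃ y, OnP q x y := by
    have hl : (full q).length = q.2.1.length + 2 := by
      unfold full
      simp
    obtain ⟨i, hi, rfl⟩ := List.getElem_of_mem hx
    by_cases hi' : i + 1 < (full q).length
    · exact ⟨(full q)[i + 1], Or.inl (cs_iff_get.2 ⟨i, hi', rfl, rfl⟩)⟩
    · obtain ⟨j, rfl⟩ : ∃ j, i = j + 1 := ⟨i - 1, by omega⟩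
      exact ⟨(full q)[j], Or.inr (cs_iff_get.2 ⟨j, hi, rfl, rfl⟩)⟩
  obtain ⟨y, hy⟩ := key
  have hadj : G.Adj x y := by
    rcases hy with hy | hy
    · exact chain_cs (h.chain q hq).1 hy
    · exact (chain_cs (h.chain q hq).1 hy).symm
  rcases h.edge q hq x y hy with h1 | h1
  · exact Or.inl h1
  · exact Or.inr ⟨y, hadj, h1⟩

theorem ends_BV {I : V → Prop} {P : List (V × List V × V)} (h : VD G I P) {u v : V}
    (huv : (u, v) ∈ ends P) : u ∈ BV G I ∧ v ∈ BV G I := by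
  unfold ends at huv
  rw [List.mem_map] at huv
  obtain ⟨q, hq, h1⟩ := huv
  rw [Prod.mk.injEq] at h1
  obtain ⟨rfl, rfl⟩ := h1
  constructor
  · exact full_BV h hq (by unfold full; simp)
  · exact full_BV h hq (by unfold full; simp)

/-- **Two surgeries away from each other.** -/
theorem vd_append {I J : V → Prop} {P Q : List (V × List V × V)} (h : VD G I P) (h' : VD G J Q)
    (hdis : ∀ q ∈ P, ∀ q' ∈ Q, ∀ x ∈ full q, x ∉ full q') :
    VD G (fun v => I v ∨ J v) (P ++ Q) := by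
  refine ⟨?_, ?_, ?_, ?_, ?_⟩
  · intro q hq
    rcases List.mem_append.1 hq with hq | hq
    · exact h.chain q hq
    · exact h'.chain q hq
  · rw [List.pairwise_append]
    refine ⟨h.disj, h'.disj, fun q hq q' hq' => ⟨fun x hx => hdis q hq q' hq' x
      (Uni91.full_inner hx), fun x hx hx' => hdis q hq q' hq' x hx' (Uni91.full_inner hx)⟩⟩
  · intro q hq x hx
    rcases List.mem_append.1 hq with hq | hq
    · exact Or.inl (h.int q hq x hx)
    · exact Or.inr (h'.int q hq x hx)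
  · intro q hq u v huv
    rcases List.mem_append.1 hq with hq | hq
    · rcases h.edge q hq u v huv with h1 | h1
      · exact Or.inl (Or.inl h1)
      · exact Or.inr (Or.inl h1)
    · rcases h'.edge q hq u v huv with h1 | h1
      · exact Or.inl (Or.inr h1)
      · exact Or.inr (Or.inr h1)
  · rw [List.pairwise_append]
    refine ⟨h.edisj, h'.edisj, fun q hq q' hq' u v h1 h2 => ?_⟩
    have m1 : u ∈ full q := by
      rcases h1 with h1 | h1
      · exact h1.mem.1
      · exact h1.mem.2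
    have m2 : u ∈ full q' := by
      rcases h2 with h2 | h2
      · exact h2.mem.1
      · exact h2.mem.2
    exact hdis q hq q' hq' u m1 m2

theorem mem_ends_append {P Q : List (V × List V × V)} {e : V × V} :
    e ∈ ends (P ++ Q) ↔ e ∈ ends P ∨ e ∈ ends Q := by
  unfold ends
  rw [List.map_append, List.mem_append]

/-- **The surgery in two steps.** -/
theorem newG_append {I J : V → Prop} {P Q : List (V × List V × V)}
    (hdis : ∀ u v, (u, v) ∈ ends P → ¬ J u ∧ ¬ J v) :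
    newG (newG G I (ends P)) J (ends Q) = newG G (fun v => I v ∨ J v) (ends (P ++ Q)) := by
  ext u v
  constructor
  · rintro (⟨⟨h1, h2, h3⟩ | ⟨h1, h2⟩, h4, h5⟩ | ⟨h1, h2⟩)
    · exact Or.inl ⟨h1, fun h => h.elim h2 h4, fun h => h.elim h3 h5⟩
    · refine Or.inr ⟨h1, ?_⟩
      rcases h2 with h2 | h2
      · exact Or.inl (mem_ends_append.2 (Or.inl h2))
      · exact Or.inr (mem_ends_append.2 (Or.inl h2))
    · refine Or.inr ⟨h1, ?_⟩
      rcases h2 with h2 | h2
      · exact Or.inl (mem_ends_append.2 (Or.inr h2))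
      · exact Or.inr (mem_ends_append.2 (Or.inr h2))
  · rintro (⟨h1, h2, h3⟩ | ⟨h1, h2⟩)
    · push Not at h2 h3
      exact Or.inl ⟨Or.inl ⟨h1, h2.1, h3.1⟩, h2.2, h3.2⟩
    · rcases h2 with h2 | h2
      · rcases mem_ends_append.1 h2 with h3 | h3
        · exact Or.inl ⟨Or.inr ⟨h1, Or.inl h3⟩, (hdis u v h3).1, (hdis u v h3).2⟩
        · exact Or.inr ⟨h1, Or.inl h3⟩
      · rcases mem_ends_append.1 h2 with h3 | h3
        · exact Or.inl ⟨Or.inr ⟨h1, Or.inr h3⟩, (hdis v u h3).2, (hdis v u h3).1⟩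
        · exact Or.inr ⟨h1, Or.inr h3⟩

section

variable {I0 : V → Prop} {P0 : List (V × List V × V)} {D0 : ℕ}
  {ι : Type} [Fintype ι] {p : ι → Place V}

/-- The interiors: the base surgery and the places. -/
def BI (I0 : V → Prop) (p : ι → Place V) (v : V) : Prop := I0 v ∨ FI p v

/-- The paths: the base surgery and the places. -/
noncomputable def BP (P0 : List (V × List V × V)) (p : ι → Place V) : List (V × List V × V) :=
  P0 ++ FP p

theorem not_BV_of_far {A : Set V} {D : ℕ} (hfar : FarS G D A (BV G I0)) {a t : V} (ha : a ∈ A)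
    (w : G.Walk a t) (hw : w.length < D) : t ∉ BV G I0 := by
  intro ht
  have := hfar a ha t ht w
  omega

theorem base_vd (h0 : VD G I0 P0) (hp : Fam p G) (hfar : ∀ i, FarS G 1 (p i).Vert (BV G I0)) :
    VD G (BI I0 p) (BP P0 p) := by
  refine vd_append h0 hp.vd ?_
  intro q hq q' hq' x hx hx'
  obtain ⟨i, hi⟩ := mem_FP.1 hq'
  exact not_BV_of_far (hfar i) ((hp.good i).mem_full hi hx') SimpleGraph.Walk.nil (by simp)
    (full_BV h0 hq hx)

theorem base_newG (h0 : VD G I0 P0) (hp : Fam p G)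
    (hfar : ∀ i, FarS G 1 (p i).Vert (BV G I0)) :
    newG (newG G I0 (ends P0)) (FI p) (ends (FP p)) = newG G (BI I0 p) (ends (BP P0 p)) := by
  refine newG_append ?_
  intro u v huv
  have key : ∀ x, x ∈ BV G I0 → ¬ FI p x := by
    rintro x hx ⟨i, hi⟩
    exact not_BV_of_far (hfar i) ((hp.good i).int_vert hi) SimpleGraph.Walk.nil (by simp) hx
  exact ⟨key _ (ends_BV h0 huv).1, key _ (ends_BV h0 huv).2⟩

/-- A place with the side conditions on its vertices only. -/
noncomputable def _root_.Pool.Agent.Uni392.Place.trim (q : Place V) : Place V := by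
  classical
  exact
  { q with
    com := q.com.filter fun e => decide (Real q.R q.nl q.miss e.1 ∧ Real q.R q.nl q.miss e.2)
    bad := q.bad.filter fun e => decide (Real q.R q.nl q.miss e.1 ∧ Real q.R q.nl q.miss e.2) }

theorem mem_com_trim {q : Place V} {e : ℕ × ℕ} : e ∈ q.trim.com ↔ e ∈ q.com ∧
    Real q.R q.nl q.miss e.1 ∧ Real q.R q.nl q.miss e.2 := by
  classical
  show e ∈ q.com.filter _ ↔ _
  rw [List.mem_filter, decide_eq_true_eq]

theorem mem_bad_trim {q : Place V} {e : ℕ × ℕ} : e ∈ q.trim.bad ↔ e ∈ q.bad ∧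
    Real q.R q.nl q.miss e.1 ∧ Real q.R q.nl q.miss e.2 := by
  classical
  show e ∈ q.bad.filter _ ↔ _
  rw [List.mem_filter, decide_eq_true_eq]

/-- The conditions of the trimmed place. -/
theorem data_trim {q : Place V} (h : Pool.Agent.T1Red.Data q.R q.nl q.ps q.miss q.co q.com q.bad) :
    Pool.Agent.T1Red.Data q.R q.nl q.ps q.miss q.co q.trim.com q.trim.bad := by
  have hr : ∀ e ∈ q.R.nw, ∀ j, j = e.1 ∨ j = e.2 → j ∉ q.miss → Pool.Agent.T1Red.Old q.nl j →
      Real q.R q.nl q.miss j := by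
    intro e he j hj hm ho
    have h1 := h.nw_lt e he
    refine ⟨?_, hm, ho⟩
    rcases hj with rfl | rfl
    · omega
    · omega
  have hr2 : ∀ e ∈ Pool.Agent.T1Red.nwD q.R q.miss, Pool.Agent.T1Red.Old q.nl e.2 →
      Real q.R q.nl q.miss e.2 := by
    rintro ⟨i, j⟩ he ho
    obtain ⟨h1, -, h3⟩ := Pool.Agent.T1Red.mem_nwD.1 he
    rcases h1 with h1 | h1
    · exact hr _ h1 j (Or.inr rfl) h3 ho
    · exact hr _ h1 j (Or.inl rfl) h3 ho
  exact
  { h with
    com_mem := by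
      intro e he h1 h2 h3 h4
      have r1 := hr e he e.1 (Or.inl rfl) h1 h3
      have r2 := hr e he e.2 (Or.inr rfl) h2 h4
      rcases h.com_mem e he h1 h2 h3 h4 with h5 | h5
      · exact Or.inl (mem_com_trim.2 ⟨h5, r1, r2⟩)
      · exact Or.inr (mem_com_trim.2 ⟨h5, r2, r1⟩)
    bad_mem := by
      intro e₁ h1 e₂ h2 h3 h4 h5 h6
      have r1 := hr2 e₁ h1 h5
      have r2 := hr2 e₂ h2 h6
      rcases h.bad_mem e₁ h1 e₂ h2 h3 h4 h5 h6 with h7 | h7
      · exact Or.inl (mem_bad_trim.2 ⟨h7, r1, r2⟩)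
      · exact Or.inr (mem_bad_trim.2 ⟨h7, r2, r1⟩) }

/-- **The places are places of the graph after the base surgery.** -/
theorem base_fam (h0 : VD G I0 P0) (hp : Fam p G) (hfar : ∀ i, FarS G 1 (p i).Vert (BV G I0)) :
    Fam (fun i => (p i).trim) (newG G I0 (ends P0)) := by
  have hin : ∀ i, ∀ x ∈ (p i).Vert, x ∉ BV G I0 := fun i x hx =>
    not_BV_of_far (hfar i) hx SimpleGraph.Walk.nil (by simp)
  have hI : ∀ i, ∀ x ∈ (p i).Vert, ¬ I0 x := fun i x hx h => hin i x hx (Or.inl h)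
  -- the edges at a vertex of a place
  have hadj : ∀ i, ∀ x ∈ (p i).Vert, ∀ y, (newG G I0 (ends P0)).Adj x y → G.Adj x y := by
    rintro i x hx y (⟨h1, -, -⟩ | ⟨-, h1 | h1⟩)
    · exact h1
    · exact absurd (ends_BV h0 h1).1 (hin i x hx)
    · exact absurd (ends_BV h0 h1).2 (hin i x hx)
  refine ⟨fun i => ?_, hp.far⟩
  have hg := hp.good i
  refine ⟨⟨hg.ok.ext, data_trim hg.ok.data, hg.ok.inj, ?_⟩, ?_, ?_, ?_, hg.back, hg.dup⟩
  · intro j hj hj' w hw
    exact hg.ok.nbr j hj hj' w (hadj i _ (hg.int_vert ⟨j, hj, hj', rfl⟩) w hw)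
  · intro e he h1 h2
    have h3 := hg.ok.data.ed_lt e he
    have h4 := hg.ok.data.ed_new e he
    refine Or.inl ⟨hg.adj e he h1 h2, ?_, ?_⟩
    · exact hI i _ ⟨e.1, ⟨h3.1, h1, h4.1⟩, rfl⟩
    · exact hI i _ ⟨e.2, ⟨h3.2.1, h2, h4.2⟩, rfl⟩
  · intro q hq w hw hcon
    obtain ⟨h1, r1, r2⟩ := mem_com_trim.1 hq
    exact hg.hC q h1 w hw ⟨hadj i _ ⟨q.1, r1, rfl⟩ _ hcon.1,
      (hadj i _ ⟨q.2, r2, rfl⟩ _ hcon.2.symm).symm⟩
  · intro q hq hcon
    obtain ⟨h1, r1, r2⟩ := mem_bad_trim.1 hq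
    exact hg.hT q h1 (hadj i _ ⟨q.1, r1, rfl⟩ _ hcon)

/-- A vertex near a place is interior if and only if it is interior for the place. -/
theorem bi_iff (hp : Fam p G) {i : ι} {B : ℕ}
    (hfar : ∀ j, j ≠ i → FarS G (B + 1) (p i).Vert (p j).Vert)
    (hfar0 : FarS G (B + 1) (p i).Vert (BV G I0)) {a t : V} (ha : a ∈ (p i).Vert)
    (w : G.Walk a t) (hw : w.length ≤ B) : BI I0 p t ↔ Int (p i).R (p i).f t := by
  constructor
  · rintro (h | h)
    · exact absurd (Or.inl h : t ∈ BV G I0) (not_BV_of_far hfar0 ha w (by omega))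
    · exact (hp.fi_iff hfar ha w hw).1 h
  · exact fun h => Or.inr ⟨i, h⟩

/-- **Chains near a place.** -/
theorem steps_place (hp : Fam p G) {i : ι} {B : ℕ}
    (hfar : ∀ j, j ≠ i → FarS G (B + 1) (p i).Vert (p j).Vert)
    (hfar0 : FarS G (B + 1) (p i).Vert (BV G I0)) {n : ℕ} {t z : V}
    (h : Steps (nbN G (Int (p i).R (p i).f) (p i).pth) n t z)
    (ht : ∃ a ∈ (p i).Vert, ∃ w : G.Walk a t, w.length + n ≤ B) :
    Steps (nbN G (BI I0 p) (BP P0 p)) n t z ∧ ∃ a ∈ (p i).Vert, ∃ w : G.Walk a z,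
      w.length ≤ B := by
  induction h with
  | refl x =>
    obtain ⟨a, ha, w, hw⟩ := ht
    exact ⟨Steps.refl x, a, ha, w, by omega⟩
  | @cons n x y z hxy _ ih =>
    obtain ⟨a, ha, w, hw⟩ := ht
    rcases mem_nbN.1 hxy with ⟨h1, h2, h3⟩ | ⟨h1, h2⟩
    · have hw' : (w.concat h1).length ≤ B := by
        rw [SimpleGraph.Walk.length_concat]
        omega
      obtain ⟨h4, h5⟩ := ih ⟨a, ha, w.concat h1, by
        rw [SimpleGraph.Walk.length_concat]
        omega⟩
      refine ⟨Steps.cons (mem_nbN.2 (Or.inl ⟨h1, ?_, ?_⟩)) h4, h5⟩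
      · rw [bi_iff hp hfar hfar0 ha w (by omega)]
        exact h2
      · rw [bi_iff hp hfar hfar0 ha (w.concat h1) hw']
        exact h3
    · have hy : y ∈ (p i).Vert := by
        rcases h2 with h2 | h2
        · exact ((hp.good i).ends_vert h2).2
        · exact ((hp.good i).ends_vert h2).1
      obtain ⟨h4, h5⟩ := ih ⟨y, hy, SimpleGraph.Walk.nil, by simp; omega⟩
      refine ⟨Steps.cons (mem_nbN.2 (Or.inr ⟨h1, ?_⟩)) h4, h5⟩
      rcases h2 with h2 | h2
      · exact Or.inl (mem_ends_append.2 (Or.inr (Uni91.mem_ends_FP.2 ⟨i, h2⟩)))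
      · exact Or.inr (mem_ends_append.2 (Or.inr (Uni91.mem_ends_FP.2 ⟨i, h2⟩)))

/-- **Deleted edges near a place.** -/
theorem del_place (h0 : VD G I0 P0) (hp : Fam p G) {i : ι} {B : ℕ}
    (hfar : ∀ j, j ≠ i → FarS G (B + 1) (p i).Vert (p j).Vert)
    (hfar0 : FarS G (B + 1) (p i).Vert (BV G I0)) {z w : V}
    (hz : ∃ a ∈ (p i).Vert, ∃ w : G.Walk a z, w.length ≤ B)
    (h : Del G (Int (p i).R (p i).f) (p i).pth z w) : Del G (BI I0 p) (BP P0 p) z w := by
  obtain ⟨h1, h2, h3⟩ := hp.del_single hfar hz h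
  refine ⟨h1, ?_, ?_⟩
  · rcases h2 with h2 | h2
    · exact Or.inl (Or.inr h2)
    · exact Or.inr (Or.inr h2)
  · intro q hq hon
    rcases List.mem_append.1 hq with hq | hq
    · obtain ⟨a, ha, w', hw'⟩ := hz
      have hzf : z ∈ full q := by
        rcases hon with hon | hon
        · exact hon.mem.1
        · exact hon.mem.2
      exact not_BV_of_far hfar0 ha w' (by omega) (full_BV h0 hq hzf)
    · exact h3 q hq hon

/-- **From one place to everything.** -/
theorem nearG_place (h0 : VD G I0 P0) (hp : Fam p G) {i : ι} {B D : ℕ}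
    (hfar : ∀ j, j ≠ i → FarS G (B + 1) (p i).Vert (p j).Vert)
    (hfar0 : FarS G (B + 1) (p i).Vert (BV G I0)) {t : V}
    (ht : ∃ a ∈ (p i).Vert, ∃ w : G.Walk a t, w.length + D ≤ B)
    (h : NearG G (Int (p i).R (p i).f) (p i).pth D t) : NearG G (BI I0 p) (BP P0 p) D t := by
  obtain ⟨n, hn, z, w, hd, hs⟩ := h
  obtain ⟨a, ha, w', hw'⟩ := ht
  obtain ⟨h1, h2⟩ := steps_place (P0 := P0) hp hfar hfar0 hs ⟨a, ha, w', by omega⟩
  exact ⟨n, hn, z, w, del_place h0 hp hfar hfar0 h2 hd, h1⟩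

/-- **Chains near the base surgery.** -/
theorem steps_base (h0 : VD G I0 P0) (hp : Fam p G) {B : ℕ}
    (hfar0 : ∀ i, FarS G (B + 1) (p i).Vert (BV G I0)) {n : ℕ} {t z : V}
    (h : Steps (nbN G I0 P0) n t z)
    (ht : ∃ a ∈ BV G I0, ∃ w : G.Walk a t, w.length + n ≤ B) :
    Steps (nbN G (BI I0 p) (BP P0 p)) n t z ∧ ∃ a ∈ BV G I0, ∃ w : G.Walk a z,
      w.length ≤ B := by
  have hnot : ∀ {a t : V}, a ∈ BV G I0 → ∀ w : G.Walk a t, w.length ≤ B → ¬ FI p t := by
    rintro a t ha w hw ⟨i, hi⟩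
    have := hfar0 i t ((hp.good i).int_vert hi) a ha w.reverse
    rw [SimpleGraph.Walk.length_reverse] at this
    omega
  induction h with
  | refl x =>
    obtain ⟨a, ha, w, hw⟩ := ht
    exact ⟨Steps.refl x, a, ha, w, by omega⟩
  | @cons n x y z hxy _ ih =>
    obtain ⟨a, ha, w, hw⟩ := ht
    rcases mem_nbN.1 hxy with ⟨h1, h2, h3⟩ | ⟨h1, h2⟩
    · have hw' : (w.concat h1).length ≤ B := by
        rw [SimpleGraph.Walk.length_concat]
        omega
      obtain ⟨h4, h5⟩ := ih ⟨a, ha, w.concat h1, by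
        rw [SimpleGraph.Walk.length_concat]
        omega⟩
      refine ⟨Steps.cons (mem_nbN.2 (Or.inl ⟨h1, ?_, ?_⟩)) h4, h5⟩
      · rintro (h | h)
        · exact h2 h
        · exact hnot ha w (by omega) h
      · rintro (h | h)
        · exact h3 h
        · exact hnot ha _ hw' h
    · have hy : y ∈ BV G I0 := by
        rcases h2 with h2 | h2
        · exact (ends_BV h0 h2).2
        · exact (ends_BV h0 h2).1
      obtain ⟨h4, h5⟩ := ih ⟨y, hy, SimpleGraph.Walk.nil, by simp; omega⟩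
      refine ⟨Steps.cons (mem_nbN.2 (Or.inr ⟨h1, ?_⟩)) h4, h5⟩
      rcases h2 with h2 | h2
      · exact Or.inl (mem_ends_append.2 (Or.inl h2))
      · exact Or.inr (mem_ends_append.2 (Or.inl h2))

/-- **Deleted edges of the base surgery.** -/
theorem del_base (hp : Fam p G) (hfar0 : ∀ i, FarS G 1 (p i).Vert (BV G I0)) {z w : V}
    (h : Del G I0 P0 z w) : Del G (BI I0 p) (BP P0 p) z w := by
  obtain ⟨h1, h2, h3⟩ := h
  have hz : z ∈ BV G I0 := by
    rcases h2 with h2 | h2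
    · exact Or.inl h2
    · exact Or.inr ⟨w, h1, h2⟩
  refine ⟨h1, ?_, ?_⟩
  · rcases h2 with h2 | h2
    · exact Or.inl (Or.inl h2)
    · exact Or.inr (Or.inl h2)
  · intro q hq hon
    rcases List.mem_append.1 hq with hq | hq
    · exact h3 q hq hon
    · obtain ⟨i, hi⟩ := mem_FP.1 hq
      have hzf : z ∈ full q := by
        rcases hon with hon | hon
        · exact hon.mem.1
        · exact hon.mem.2
      exact not_BV_of_far (hfar0 i) ((hp.good i).mem_full hi hzf) SimpleGraph.Walk.nil (by simp) hz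

/-- **Near the base surgery.** -/
theorem nearG_base (h0 : BaseS G I0 P0 D0) (hp : Fam p G)
    (hfar0 : ∀ i, FarS G (D0 + 1) (p i).Vert (BV G I0)) {b : V} (hb : b ∈ BV G I0)
    (hb' : ¬ I0 b) : NearG G (BI I0 p) (BP P0 p) D0 b := by
  obtain ⟨n, hn, z, w, hd, hs⟩ := h0.ter b hb' (hb.resolve_left hb')
  obtain ⟨h1, -⟩ := steps_base h0.vd hp hfar0 hs ⟨b, hb, SimpleGraph.Walk.nil, by simpa using hn⟩
  exact ⟨n, hn, z, w, del_base hp (fun i => (hfar0 i).mono (by omega)) hd, h1⟩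

/-- **The first vertex of a place or of the base surgery** on a walk which starts outside all
interiors. -/
theorem first_hitB (hp : Fam p G) {v a : V} (w : G.Walk v a)
    (ha : (∃ i, a ∈ (p i).Vert) ∨ a ∈ BV G I0) (hv : ¬ BI I0 p v) :
    (∃ i, ∃ t ∈ (p i).Vert, ¬ BI I0 p t ∧
      ∃ k, k ≤ w.length ∧ Steps (nbN G (BI I0 p) (BP P0 p)) k v t) ∨
    ∃ b ∈ BV G I0, ¬ BI I0 p b ∧ ∃ k, k ≤ w.length ∧
      Steps (nbN G (BI I0 p) (BP P0 p)) k v b := by
  induction w with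
  | nil =>
    rcases ha with ⟨i, hi⟩ | ha
    · exact Or.inl ⟨i, _, hi, hv, 0, le_rfl, Steps.refl _⟩
    · exact Or.inr ⟨_, ha, hv, 0, le_rfl, Steps.refl _⟩
  | @cons v u a h w ih =>
    by_cases hvj : ∃ i, v ∈ (p i).Vert
    · obtain ⟨i, hi⟩ := hvj
      exact Or.inl ⟨i, v, hi, hv, 0, Nat.zero_le _, Steps.refl _⟩
    by_cases hvb : v ∈ BV G I0
    · exact Or.inr ⟨v, hvb, hv, 0, Nat.zero_le _, Steps.refl _⟩
    have hu : ¬ BI I0 p u := by
      rintro (h1 | ⟨i, hi⟩)
      · exact hvb (Or.inr ⟨u, h, h1⟩)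
      · exact hvj ⟨i, (hp.good i).nbr_vert hi h.symm⟩
    rcases ih ha hu with ⟨i, t, h1, h2, k, h3, h4⟩ | ⟨b, h1, h2, k, h3, h4⟩
    · refine Or.inl ⟨i, t, h1, h2, k + 1, ?_, Steps.cons (mem_nbN.2 (Or.inl ⟨h, hv, hu⟩)) h4⟩
      rw [SimpleGraph.Walk.length_cons]
      omega
    · refine Or.inr ⟨b, h1, h2, k + 1, ?_, Steps.cons (mem_nbN.2 (Or.inl ⟨h, hv, hu⟩)) h4⟩
      rw [SimpleGraph.Walk.length_cons]
      omega

/-- The vertices outside all interiors from which a kept vertex of `T` is reached in at most `D`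
steps of the new graph. -/
noncomputable def SB (G : SimpleGraph V) (I : V → Prop) (P : List (V × List V × V)) (T : Set V)
    (D : ℕ) : Finset V := by
  classical
  exact univ.filter fun v => ¬ I v ∧ ∃ t ∈ T, ¬ I t ∧ ∃ n, n ≤ D ∧ Steps (nbN G I P) n v t

theorem mem_SB {I : V → Prop} {P : List (V × List V × V)} {T : Set V} {D : ℕ} {v : V} :
    v ∈ SB G I P T D ↔ ¬ I v ∧ ∃ t ∈ T, ¬ I t ∧ ∃ n, n ≤ D ∧ Steps (nbN G I P) n v t := by
  classical
  unfold SB
  simp

theorem card_SB {I : V → Prop} {P : List (V × List V × V)} (hdeg : Deg3 (newG G I (ends P)))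
    {T : Set V} {N D : ℕ} (hN : T.ncard ≤ N) : (SB G I P T D).card ≤ 4 ^ D * N := by
  classical
  have h1 : SB G I P T D ⊆ ((univ.filter fun a => a ∈ T).biUnion
      fun a => bal (nbN G I P) D a) := by
    intro v hv
    obtain ⟨-, a, ha, -, n, hn, h⟩ := mem_SB.1 hv
    exact Finset.mem_biUnion.2 ⟨a, by simpa using ha, bal_mono _ _ hn (h.mem_bal nbN_symm)⟩
  refine (Finset.card_le_card h1).trans ?_
  refine (Finset.card_biUnion_le_card_mul _ _ (4 ^ D) fun a _ => ?_).trans ?_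
  · exact card_bal (m := 3) (fun v => hdeg v _ fun w hw => mem_nbN.1 hw) D a
  · rw [mul_comm]
    refine Nat.mul_le_mul_left _ (le_trans (le_of_eq ?_) hN)
    rw [← Set.ncard_coe_finset]
    congr 1
    ext a
    simp

theorem SB_joined {I : V → Prop} {P : List (V × List V × V)} {T : Set V} {D1 r : ℕ}
    (hT : ∀ t ∈ T, ∀ t' ∈ T, ¬ I t → ¬ I t' → ∃ k, k ≤ r ∧ Steps (nbN G I P) k t t') {v w : V}
    (hv : v ∈ SB G I P T D1) (hw : w ∈ SB G I P T D1) :
    ∃ n, n ≤ D1 + r + D1 ∧ Steps (nbN G I P) n v w := by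
  obtain ⟨hv1, t, t1, t2, k, k1, k2⟩ := mem_SB.1 hv
  obtain ⟨hw1, t', t3, t4, k', k3, k4⟩ := mem_SB.1 hw
  obtain ⟨l, l1, l2⟩ := hT t t1 t' t3 t2 t4
  exact ⟨k + l + k', by omega, (k2.trans l2).trans (k4.rev nbN_symm)⟩

/-- **Near a place or the base surgery.** -/
theorem near_or_SB (h0 : BaseS G I0 P0 D0) (hp : Fam p G) (gain : ι → Prop) {r D1 : ℕ}
    (hg : ∀ i, gain i → GainP G (p i) r) (hj : ∀ i, ¬ gain i → JoinP G (p i) r)
    (hfar : ∀ i, ∀ j, j ≠ i → FarS G (r + 1) (p i).Vert (p j).Vert)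
    (hfar0 : ∀ i, FarS G (r + D0 + 1) (p i).Vert (BV G I0))
    {v a : V} (w : G.Walk v a) (ha : (∃ i, a ∈ (p i).Vert) ∨ a ∈ BV G I0)
    (hw : w.length ≤ D1) (hfree : ∀ u, ¬ Del G (BI I0 p) (BP P0 p) v u)
    (hinn : ¬ Inn (BP P0 p) v) :
    NearG G (BI I0 p) (BP P0 p) (D1 + r + D0) v ∨
      ∃ i, ¬ gain i ∧ v ∈ SB G (BI I0 p) (BP P0 p) (p i).Vert D1 := by
  classical
  have hf0 : ∀ i, FarS G (r + 1) (p i).Vert (BV G I0) := fun i => (hfar0 i).mono (by omega)
  by_cases hv : BI I0 p v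
  · rcases hv with hv | ⟨i, hv⟩
    · rcases h0.int v hv with h | ⟨u, h⟩
      · obtain ⟨q, hq, hx⟩ := h
        exact absurd ⟨q, List.mem_append_left _ hq, hx⟩ hinn
      · exact absurd (del_base hp (fun i => (hf0 i).mono (by omega)) h) (hfree u)
    · have hvv := (hp.good i).int_vert hv
      by_cases hgi : gain i
      · obtain ⟨m, hm, z, w', hd, hs⟩ := nearG_place (P0 := P0) h0.vd hp (hfar i) (hf0 i)
          ⟨v, hvv, SimpleGraph.Walk.nil, by simp⟩ ((hg i hgi).int v hv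
            (fun u hu => hfree u (del_place h0.vd hp (hfar i) (hf0 i)
              ⟨v, hvv, SimpleGraph.Walk.nil, by simp⟩ hu)) fun h => hinn (by
                obtain ⟨q, hq, hx⟩ := h
                exact ⟨q, List.mem_append_right _ (mem_FP.2 ⟨i, hq⟩), hx⟩))
        exact Or.inl ⟨m, by omega, z, w', hd, hs⟩
      · rcases (hj i hgi).int v hv with h | ⟨u, h⟩
        · obtain ⟨q, hq, hx⟩ := h
          exact absurd ⟨q, List.mem_append_right _ (mem_FP.2 ⟨i, hq⟩), hx⟩ hinn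
        · exact absurd (del_place h0.vd hp (hfar i) (hf0 i)
            ⟨v, hvv, SimpleGraph.Walk.nil, by simp⟩ h) (hfree u)
  · rcases first_hitB (P0 := P0) hp w ha hv with ⟨i, t, t1, t2, k, k1, k2⟩ |
      ⟨b, b1, b2, k, k1, k2⟩
    · by_cases hgi : gain i
      · obtain ⟨m, hm, z, w', hd, hs⟩ := nearG_place (P0 := P0) h0.vd hp (hfar i) (hf0 i)
          ⟨t, t1, SimpleGraph.Walk.nil, by simp⟩ ((hg i hgi).ter t t1 fun h2 =>
            t2 (Or.inr ⟨i, h2⟩))
        exact Or.inl ⟨k + m, by omega, z, w', hd, k2.trans hs⟩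
      · exact Or.inr ⟨i, hgi, mem_SB.2 ⟨hv, t, t1, t2, k, k1.trans hw, k2⟩⟩
    · obtain ⟨m, hm, z, w', hd, hs⟩ := nearG_base h0 hp
        (fun i => (hfar0 i).mono (by omega)) b1 fun h => b2 (Or.inl h)
      exact Or.inl ⟨k + m, by omega, z, w', hd, k2.trans hs⟩

end

end Pool.Agent.Uni392
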