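import Mathlib
import Pool.Agent.Work.MP_392c8e_co_uni.BaseS

/-!
# A base surgery with a bounded set of exceptional vertices

From the vertices of the exceptional set a deleted edge need not be reached; the set is used as one
more pattern.
-/

set_option autoImplicit false
set_option linter.unusedSectionVars false

namespace Pool.Agent.Uni392

open Finset Pool.Agent.Sub392
open Pool.Agent.Uni91 (VD ends full FI FP Fam Good mem_FP GainP JoinP OnP Cs cs_iff_get)
open Pool.Agent.T1Red (newG Deg3 Int Real)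

variable {V : Type} [Fintype V] [DecidableEq V] {G : SimpleGraph V} [DecidableRel G.Adj]

/-- **The base surgery** with the exceptional set `T`. -/
structure BaseT (G : SimpleGraph V) (I : V → Prop) (P : List (V × List V × V)) (D0 : ℕ)
    (T : Finset V) : Prop where
  vd : VD G I P
  int : ∀ v, I v → Inn P v ∨ ∃ w, Del G I P v w
  ter : ∀ v, ¬ I v → (∃ w, G.Adj v w ∧ I w) → NearG G I P D0 v ∨ v ∈ T
  sub : ∀ v ∈ T, v ∈ BV G I ∧ ¬ I v
  card : T.card ≤ 598
  joined : ∀ v ∈ T, ∀ w ∈ T, ∃ n, n ≤ D0 ∧ Steps (nbN G I P) n v w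

theorem BaseS.toT {I : V → Prop} {P : List (V × List V × V)} {D0 : ℕ} (h : BaseS G I P D0) :
    BaseT G I P D0 ∅ where
  vd := h.vd
  int := h.int
  ter := fun v h1 h2 => Or.inl (h.ter v h1 h2)
  sub := fun v hv => absurd hv (Finset.notMem_empty v)
  card := by simp
  joined := fun v hv => absurd hv (Finset.notMem_empty v)

variable {I0 : V → Prop} {P0 : List (V × List V × V)} {D0 : ℕ} {T : Finset V}
  {ι : Type} [Fintype ι] {p : ι → Place V}

/-- **Near the base surgery.** -/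
theorem nearG_baseT (h0 : BaseT G I0 P0 D0 T) (hp : Fam p G)
    (hfar0 : ∀ i, FarS G (D0 + 1) (p i).Vert (BV G I0)) {b : V} (hb : b ∈ BV G I0)
    (hb' : ¬ I0 b) : NearG G (BI I0 p) (BP P0 p) D0 b ∨ b ∈ T := by
  rcases h0.ter b hb' (hb.resolve_left hb') with ⟨n, hn, z, w, hd, hs⟩ | h
  · obtain ⟨h1, -⟩ := steps_base h0.vd hp hfar0 hs
      ⟨b, hb, SimpleGraph.Walk.nil, by simpa using hn⟩
    exact Or.inl ⟨n, hn, z, w, del_base hp (fun i => (hfar0 i).mono (by omega)) hd, h1⟩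
  · exact Or.inr h

/-- The exceptional vertices are joined. -/
theorem BaseT.join (h0 : BaseT G I0 P0 D0 T) (hp : Fam p G)
    (hfar0 : ∀ i, FarS G (D0 + 1) (p i).Vert (BV G I0)) {v w : V} (hv : v ∈ T) (hw : w ∈ T) :
    ∃ n, n ≤ D0 ∧ Steps (nbN G (BI I0 p) (BP P0 p)) n v w := by
  obtain ⟨n, hn, hs⟩ := h0.joined v hv w hw
  exact ⟨n, hn, (steps_base h0.vd hp hfar0 hs
    ⟨v, (h0.sub v hv).1, SimpleGraph.Walk.nil, by simpa using hn⟩).1⟩

theorem BaseT.not_BI (h0 : BaseT G I0 P0 D0 T) (hp : Fam p G)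
    (hfar0 : ∀ i, FarS G 1 (p i).Vert (BV G I0)) {v : V} (hv : v ∈ T) : ¬ BI I0 p v := by
  rintro (h | ⟨i, hi⟩)
  · exact (h0.sub v hv).2 h
  · exact not_BV_of_far (hfar0 i) ((hp.good i).int_vert hi) SimpleGraph.Walk.nil (by simp)
      (h0.sub v hv).1

/-- **Near a place or the base surgery.** -/
theorem near_or_SBT (h0 : BaseT G I0 P0 D0 T) (hp : Fam p G) (gain : ι → Prop) {r D1 : ℕ}
    (hg : ∀ i, gain i → GainP G (p i) r) (hj : ∀ i, ¬ gain i → JoinP G (p i) r)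
    (hfar : ∀ i, ∀ j, j ≠ i → FarS G (r + 1) (p i).Vert (p j).Vert)
    (hfar0 : ∀ i, FarS G (r + D0 + 1) (p i).Vert (BV G I0))
    {v a : V} (w : G.Walk v a) (ha : (∃ i, a ∈ (p i).Vert) ∨ a ∈ BV G I0)
    (hw : w.length ≤ D1) (hfree : ∀ u, ¬ Del G (BI I0 p) (BP P0 p) v u)
    (hinn : ¬ Inn (BP P0 p) v) :
    NearG G (BI I0 p) (BP P0 p) (D1 + r + D0) v ∨
      (∃ i, ¬ gain i ∧ v ∈ SB G (BI I0 p) (BP P0 p) (p i).Vert D1) ∨
        v ∈ SB G (BI I0 p) (BP P0 p) (T : Set V) D1 := by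
  classical
  have hf0 : ∀ i, FarS G (r + 1) (p i).Vert (BV G I0) := fun i => (hfar0 i).mono (by omega)
  by_cases hv : BI I0 p v
  · rcases hv with hv | ⟨i, hv⟩
    · rcases h0.int v hv with h | ⟨u, h⟩
      · obtain ⟨q, hq, hx⟩ := h
        exact absurd ⟨q, List.mem_append_left _ hq, hx⟩ hinn
      · exact absurd (del_base hp (fun i => (hf0 i).mono (by omega)) h) (hfree u)
    · have hvv := (hp.good i).int_vert hv
      by_cases hgi : gain i
      · obtain ⟨m, hm, z, w', hd, hs⟩ := nearG_place (P0 := P0) h0.vd hp (hfar i) (hf0 i)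
          ⟨v, hvv, SimpleGraph.Walk.nil, by simp⟩ ((hg i hgi).int v hv
            (fun u hu => hfree u (del_place h0.vd hp (hfar i) (hf0 i)
              ⟨v, hvv, SimpleGraph.Walk.nil, by simp⟩ hu)) fun h => hinn (by
                obtain ⟨q, hq, hx⟩ := h
                exact ⟨q, List.mem_append_right _ (mem_FP.2 ⟨i, hq⟩), hx⟩))
        exact Or.inl ⟨m, by omega, z, w', hd, hs⟩
      · rcases (hj i hgi).int v hv with h | ⟨u, h⟩
        · obtain ⟨q, hq, hx⟩ := h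
          exact absurd ⟨q, List.mem_append_right _ (mem_FP.2 ⟨i, hq⟩), hx⟩ hinn
        · exact absurd (del_place h0.vd hp (hfar i) (hf0 i)
            ⟨v, hvv, SimpleGraph.Walk.nil, by simp⟩ h) (hfree u)
  · rcases first_hitB (P0 := P0) hp w ha hv with ⟨i, t, t1, t2, k, k1, k2⟩ |
      ⟨b, b1, b2, k, k1, k2⟩
    · by_cases hgi : gain i
      · obtain ⟨m, hm, z, w', hd, hs⟩ := nearG_place (P0 := P0) h0.vd hp (hfar i) (hf0 i)
          ⟨t, t1, SimpleGraph.Walk.nil, by simp⟩ ((hg i hgi).ter t t1 fun h2 =>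
            t2 (Or.inr ⟨i, h2⟩))
        exact Or.inl ⟨k + m, by omega, z, w', hd, k2.trans hs⟩
      · exact Or.inr (Or.inl ⟨i, hgi, mem_SB.2 ⟨hv, t, t1, t2, k, k1.trans hw, k2⟩⟩)
    · rcases nearG_baseT h0 hp (fun i => (hfar0 i).mono (by omega)) b1
        (fun h => b2 (Or.inl h)) with ⟨m, hm, z, w', hd, hs⟩ | hbT
      · exact Or.inl ⟨k + m, by omega, z, w', hd, k2.trans hs⟩
      · exact Or.inr (Or.inr (mem_SB.2 ⟨hv, b, hbT, b2, k, k1.trans hw, k2⟩))

end Pool.Agent.Uni392
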