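import Mathlib
import Pool.Agent.Work.MP_392c8e_co_uni.GeoBase

/-!
# Cyclically 4-edge-connected cubic plane graphs: short closed walks far from the faces of length four

`Lt R (a, v, b)`: the walk `a v b` follows the face on the left of the dart from `a` to `v`.
`tps L` are the corners of the closed walk `L`.
-/

namespace Pool.Agent.U2Geo

open Finset Pool.Agent.Sub392 Pool.T1Side Pool.Agent.T392 Pool.Agent.T1FF

set_option linter.unusedSectionVars false

/-- All triples of consecutive elements. -/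
def tp3 {α : Type} : List α → List (α × α × α)
  | a :: b :: c :: l => (a, b, c) :: tp3 (b :: c :: l)
  | _ => []

/-- The corners of a closed walk; the corner number `i` is at the vertex number `i + 1`. -/
def tps {α : Type} (L : List α) : List (α × α × α) := tp3 (L ++ L.take 2)

/-- The reverse corner. -/
def rv {α : Type} (t : α × α × α) : α × α × α := (t.2.2, t.2.1, t.1)

theorem tp3_map {α β : Type} (f : α → β) : ∀ L : List α,
    tp3 (L.map f) = (tp3 L).map fun t => (f t.1, f t.2.1, f t.2.2)
  | [] => rfl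
  | [_] => rfl
  | [_, _] => rfl
  | a :: b :: c :: l => by
    show (f a, f b, f c) :: tp3 ((b :: c :: l).map f) = _
    rw [tp3_map f (b :: c :: l)]
    rfl

theorem tps_map {α β : Type} (f : α → β) (L : List α) :
    tps (L.map f) = (tps L).map fun t => (f t.1, f t.2.1, f t.2.2) := by
  unfold tps
  rw [← List.map_take, ← List.map_append, tp3_map]

variable {V : Type} [Fintype V] [DecidableEq V] {G : SimpleGraph V} [DecidableRel G.Adj]

/-- The walk turns left at the middle vertex. -/
def Lt (R : Rot G) (t : V × V × V) : Prop :=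
  ∃ d : G.Dart, d.fst = t.1 ∧ d.snd = t.2.1 ∧ (R.next d).snd = t.2.2

/-- There is no face of length four at distance at most `n`. -/
def N4 (R : Rot G) (n : ℕ) (v : V) : Prop :=
  ∀ d : G.Dart, (∃ p : G.Walk v d.fst, p.length ≤ n) → sz R d ≠ 4

theorem N4.mono {R : Rot G} {n m : ℕ} {v : V} (h : N4 R n v) (hmn : m ≤ n) : N4 R m v :=
  fun d ⟨p, hp⟩ => h d ⟨p, hp.trans hmn⟩

theorem N4.adj {R : Rot G} {n : ℕ} {v w : V} (h : N4 R (n + 1) v) (hvw : G.Adj v w) :
    N4 R n w :=
  fun d ⟨p, hp⟩ => h d ⟨SimpleGraph.Walk.cons hvw p, by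
    rw [SimpleGraph.Walk.length_cons]; omega⟩

theorem N4.walk {R : Rot G} {n m : ℕ} {v w : V} (h : N4 R (n + m) v) (p : G.Walk v w)
    (hp : p.length ≤ m) : N4 R n w :=
  fun d ⟨q, hq⟩ => h d ⟨p.append q, by rw [SimpleGraph.Walk.length_append]; omega⟩

/-- A plane cubic graph in which every set of vertices with at most three leaving edges or its
complement has at most one element. -/
structure C4 (R : Rot G) : Prop where
  plane : R.Plane
  cub : ∀ v, G.degree v = 3
  cut : ∀ A : Finset V, out G A ≤ 3 → #A ≤ 1 ∨ #Aᶜ ≤ 1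
  big : 7 ≤ Fintype.card V

/-- The facts about closed walks in the set `S`. -/
structure ClsT (R : Rot G) (S : V → Prop) : Prop where
  cub : ∀ v, G.degree v = 3
  tri : G.CliqueFree 3
  /-- exactly one of the two directions of a corner turns left -/
  lr : ∀ t : V × V × V, G.Adj t.1 t.2.1 → G.Adj t.2.1 t.2.2 → t.1 ≠ t.2.2 →
    (Lt R (rv t) ↔ ¬ Lt R t)
  /-- no closed walks of length four -/
  four : ∀ a b c d : V, S a → ¬ NB G [a, b, c, d]
  /-- closed walks of length at most seven are faces -/
  seven : ∀ L : List V, (∃ x ∈ L, S x) → NB G L → 3 ≤ L.length → L.length ≤ 7 →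
    (∀ t ∈ tps L, Lt R t) ∨ (∀ t ∈ tps L, Lt R (rv t))
  /-- two closed walks through a common corner -/
  corner : ∀ (a v b : V) (l l' : List V), S a → NB G (a :: v :: b :: l) →
    NB G (a :: v :: b :: l') → l.length ≤ 4 → l'.length ≤ 4 → l = l'
  /-- a closed walk of length five through a corner of a face -/
  five : ∀ (d : G.Dart) (x y : V), S d.fst → sz R d ≠ 5 →
    ¬ NB G [d.fst, d.snd, (R.next d).snd, x, y]
  /-- closed walks of length eight with five left turns and a right turn which is not at the end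
  of a chord -/
  eight : ∀ L : List V, (∃ x ∈ L, S x) → NB G L → L.length = 8 →
    ∀ P : List ℕ, P.Nodup → 5 ≤ P.length → 
      (∀ i ∈ P, ∃ t : V × V × V, (tps L)[i]? = some t ∧ Lt R t) →
    ∀ (q : ℕ) (t : V × V × V), (tps L)[q]? = some t → Lt R (rv t) →
    ((∃ u : V × V × V, (tps L)[(q + 4) % 8]? = some u ∧ ¬ G.Adj t.2.1 u.2.1) ∨
      (q + 4) % 8 ∈ P ∨
      ∃ (q' : ℕ) (u : V × V × V), (tps L)[q']? = some u ∧ Lt R (rv u) ∧ q' ≠ q ∧
        q' ≠ (q + 4) % 8) → False
  /-- a path from the right side to the left side of a cycle meets the cycle -/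
  cross : ∀ L : List V, NB G L → 3 ≤ L.length → L.Nodup →
    ∀ (i : ℕ) (t : V × V × V), (tps L)[i]? = some t → Lt R t →
    ∀ (j : ℕ) (u : V × V × V), (tps L)[j]? = some u → Lt R (rv u) →
    ∀ p : List V, List.IsChain G.Adj (t.2.1 :: p ++ [u.2.1]) → (∀ x ∈ p, x ∉ L) →
    (p = [] → u.2.1 ≠ t.1 ∧ u.2.1 ≠ t.2.2) → False

end Pool.Agent.U2Geo
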