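import Mathlib
import Pool.Agent.Work.MP_392c8e_co_uni.GeoBase

/-!
# Closed walks of length eight in cyclically 5-edge-connected cubic plane graphs
-/

namespace Pool.Agent.U2Geo

open Finset Pool.Agent.Sub392 Pool.T1Side Pool.Agent.T392 Pool.Agent.T1FF Pool.Agent.OddFlow

set_option linter.unusedSectionVars false

variable {V : Type} [Fintype V] [DecidableEq V] {G : SimpleGraph V} [DecidableRel G.Adj]

/-- Two vertices have at least four leaving edges. -/
theorem four_le_out (hc : ∀ v, G.degree v = 3) (A : Finset V) (h1 : #A = 2) :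
    4 ≤ out G A := by
  classical
  have h3 := out_add hc A
  have h5 : #{d : G.Dart | d.fst ∈ A ∧ d.snd ∈ A} ≤ #A.offDiag := by
    refine card_le_card_of_injOn (fun d : G.Dart => (d.fst, d.snd)) ?_ ?_
    · intro d hd
      simp only [coe_filter, mem_univ, true_and, Set.mem_ofPred_eq] at hd
      simp only [coe_offDiag, Set.mem_offDiag, mem_coe]
      exact ⟨hd.1, hd.2, d.adj.ne⟩
    · intro d _ d' _ h
      exact SimpleGraph.Dart.ext _ _ h
  rw [offDiag_card, h1] at h5
  omega

variable {R : Rot G}

/-- **The left side of a cycle of length at most eight**: it is a face or has a chord. -/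
theorem C5.left8 {l : ℕ} [NeZero l] (hh : C5 R) (h13 : 13 ≤ Fintype.card V) (hl : l ≤ 8)
    (w : ZMod l → V) (ha : ∀ i, G.Adj (w i) (w (i + 1)))
    (hb : ∀ i, w i ≠ w (i + 2)) (hinj : Function.Injective w) (hl4 : 4 ≤ l)
    (hN : #{i : ZMod l | R.next (ed w ha i) ≠ ed w ha (i + 1)} ≤ 4) :
    (∀ i, R.next (ed w ha i) = ed w ha (i + 1)) ∨
    ∃ i j, G.Adj (w i) (w j) ∧ j ≠ i + 1 ∧ i ≠ j + 1 := by
  classical
  set e := ed w ha with he
  have efst : ∀ i, (e i).fst = w i := fun i => rfl
  have esnd : ∀ i, (e i).snd = w (i + 1) := fun i => rfl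
  have einj : ∀ i j, e i = e j → i = j := fun i j h => hinj (by
    have := congrArg (fun d : G.Dart => d.fst) h
    exact this)
  have ens : ∀ i j, e i ≠ (e j).symm := by
    intro i j h
    have h1 : (e i).fst = (e j).symm.fst := by rw [h]
    have h2 : (e i).snd = (e j).symm.snd := by rw [h]
    have h3 : w i = w (j + 1) := h1
    have h4 : w (i + 1) = w j := h2
    have h5 := hinj h3
    subst h5
    exact hb j (by rw [← h4]; congr 1; ring)
  have essy : ∀ i, (e i).symm.symm = e i := fun i => SimpleGraph.Dart.symm_symm _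
  -- the flow along the cycle
  set y : G.Dart → ℚ := fun d => ∑ i, ((if d = e i then 1 else 0) - (if d = (e i).symm then 1 else 0))
    with hy
  have hsymm : ∀ d d' : G.Dart, d.symm = d' ↔ d = d'.symm := by
    intro d d'
    constructor
    · rintro rfl; simp
    · rintro rfl; simp
  obtain ⟨a, hya⟩ := exact_dual R hh.plane (k := ℚ) y (by
    intro d
    rw [hy]
    simp only
    rw [← Finset.sum_neg_distrib]
    refine sum_congr rfl fun i _ => ?_
    simp only [hsymm, essy]
    ring) (by
    intro v
    rw [hy]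
    simp only
    rw [sum_comm]
    simp only [sum_sub_distrib]
    rw [sub_eq_zero]
    have h1 : ∀ i, ∑ d : G.Dart with d.fst = v, (if d = e i then (1 : ℚ) else 0) =
        if w i = v then 1 else 0 := by
      intro i
      rw [Finset.sum_ite_eq']
      simp only [mem_filter, mem_univ, true_and, efst]
    have h2 : ∀ i, ∑ d : G.Dart with d.fst = v, (if d = (e i).symm then (1 : ℚ) else 0) =
        if w (i + 1) = v then 1 else 0 := by
      intro i
      rw [Finset.sum_ite_eq']
      simp only [mem_filter, mem_univ, true_and]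
      rfl
    simp only [h1, h2]
    exact (Equiv.sum_comp (Equiv.addRight (1 : ZMod l))
      (fun i => if w i = v then (1 : ℚ) else 0)).symm)
  have hye : ∀ i, y (e i) = 1 := by
    intro i
    rw [hy]
    simp only
    rw [sum_sub_distrib]
    have h1 : ∀ j, (if e i = (e j).symm then (1 : ℚ) else 0) = 0 := fun j => if_neg (ens i j)
    have h2 : ∀ j, (if e i = e j then (1 : ℚ) else 0) = if i = j then 1 else 0 := by
      intro j
      by_cases hij : i = j
      · rw [if_pos hij, hij, if_pos rfl]
      · rw [if_neg hij, if_neg fun h => hij (einj i j h)]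
    simp only [h1, h2, sum_const_zero, sub_zero, sum_ite_eq, mem_univ, if_true]
  have hy0 : ∀ d : G.Dart, (∀ i, d ≠ e i) → (∀ i, d ≠ (e i).symm) → y d = 0 := by
    intro d h1 h2
    rw [hy]
    simp only
    refine sum_eq_zero fun i _ => ?_
    rw [if_neg (h1 i), if_neg (h2 i), sub_self]
  -- a dart at a vertex of the cycle
  have atv : ∀ i (x : G.Dart), x.fst = w (i + 1) → x ≠ (e i).symm → x ≠ e (i + 1) →
      (∀ j, x ≠ e j) ∧ (∀ j, x ≠ (e j).symm) := by
    intro i x hx h1 h2
    constructor
    · rintro j rfl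
      have := hinj (show w j = w (i + 1) from hx)
      subst this
      exact h2 rfl
    · rintro j rfl
      have := hinj (show w (j + 1) = w (i + 1) from hx)
      have h3 : j = i := add_right_cancel this
      subst h3
      exact h1 rfl
  have aoff : ∀ x : G.Dart, (∀ j, x ≠ e j) → (∀ j, x ≠ (e j).symm) →
      a (R.face x.symm) = a (R.face x) := by
    intro x h1 h2
    have h3 := hya x
    rw [hy0 x h1 h2] at h3
    linarith
  have hPQ : ∀ i, (e i).symm ≠ e (i + 1) := fun i h => ens (i + 1) i h.symm
  -- the third dart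
  have thr : ∀ i, R.next (e i) ≠ e (i + 1) →
      (∀ j, R.next (e i) ≠ e j) ∧ (∀ j, R.next (e i) ≠ (e j).symm) ∧
        R.rot (R.next (e i)) = e (i + 1) := by
    intro i hi
    have hf : (R.next (e i)).fst = w (i + 1) := R.fst_next _
    have hn : R.next (e i) ≠ (e i).symm := hh.geo.next_ne_symm _
    obtain ⟨h1, h2⟩ := atv i _ hf hn hi
    refine ⟨h1, h2, ?_⟩
    set x := R.rot.symm (e (i + 1)) with hx
    have hrx : R.rot x = e (i + 1) := by rw [hx, Equiv.apply_symm_apply]
    have hxf : x.fst = w (i + 1) := by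
      have := R.fst_rot x
      rw [hrx] at this
      exact this.symm
    have hx1 : x ≠ e (i + 1) := by
      intro h
      rw [h] at hrx
      exact hh.geo.rot_ne _ hrx
    have hx2 : x ≠ (e i).symm := by
      intro h
      rw [h] at hrx
      exact hi hrx
    have h3 : x = R.next (e i) := third_unique hh.geo.deg3 (hPQ i) rfl hxf hf hx2 hx1 hn hi
    rw [← h3, hrx]
  have aconst : ∀ i, a (R.face (e i)) = a (R.face (e (i + 1))) := by
    intro i
    by_cases hi : R.next (e i) = e (i + 1)
    · rw [← hi, R.face_next]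
    · obtain ⟨h1, h2, h3⟩ := thr i hi
      rw [← h3, R.face_rot, aoff _ h1 h2, R.face_next]
  set α := a (R.face (e 0)) with hα
  have hL : ∀ i, a (R.face (e i)) = α :=
    zind _ rfl fun i hi => by rw [← aconst i]; exact hi
  have hR : ∀ i, a (R.face (e i).symm) = α - 1 := by
    intro i
    have := hya (e i)
    rw [hye, hL] at this
    linarith
  -- the darts on the left
  set DL : Finset G.Dart := univ.filter fun d => a (R.face d) = α with hDL
  have mDL : ∀ d, d ∈ DL ↔ a (R.face d) = α := fun d => by
    rw [hDL, mem_filter]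
    exact and_iff_right (mem_univ _)
  have offC : ∀ x : G.Dart, (∀ i, x.fst ≠ w i) → (∀ j, x ≠ e j) ∧ (∀ j, x ≠ (e j).symm) :=
    fun x hx => ⟨fun j h => hx j (by rw [h, efst]), fun j h => hx (j + 1) (by rw [h]; rfl)⟩
  set A : Finset V := univ.filter fun x => (∀ i, x ≠ w i) ∧ ∃ d : G.Dart, d.fst = x ∧ d ∈ DL with hA
  have mA : ∀ x, x ∈ A ↔ (∀ i, x ≠ w i) ∧ ∃ d : G.Dart, d.fst = x ∧ d ∈ DL := fun x => by
    rw [hA, mem_filter]
    exact and_iff_right (mem_univ _)
  -- all darts at a vertex of `A` are on the left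
  have hAall : ∀ d : G.Dart, d.fst ∈ A → d ∈ DL := by
    intro d hd
    rw [mA] at hd
    obtain ⟨h1, d', h2, h3⟩ := hd
    have h4 := R.cyc d' d h2
    have h5 := sameCycle_inv (f := R.rot)
      (h := fun x : G.Dart => if (∀ i, x.fst ≠ w i) then a (R.face x) else 0) (by
        intro x
        simp only [R.fst_rot]
        by_cases hx : ∀ i, x.fst ≠ w i
        · rw [if_pos hx, if_pos hx, R.face_rot]
          obtain ⟨h6, h7⟩ := offC x hx
          exact aoff x h6 h7
        · rw [if_neg hx, if_neg hx]) h4
    simp only [h2] at h5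
    rw [if_pos h1, if_pos h1] at h5
    rw [mDL, ← h5]
    exact (mDL d').1 h3
  -- the inner darts at the cycle
  set I : Finset G.Dart := DL.filter fun d => (∃ i, d.fst = w i) ∧ ∀ i, d ≠ e i with hI
  have mI : ∀ d, d ∈ I ↔ d ∈ DL ∧ (∃ i, d.fst = w i) ∧ ∀ i, d ≠ e i := fun d => by
    rw [hI, mem_filter]
  have Ins : ∀ d ∈ I, ∀ i, d ≠ (e i).symm := by
    intro d hd i h
    rw [mI, mDL] at hd
    have h1 := hd.1
    rw [h, hR] at h1
    linarith
  have Isy : ∀ d ∈ I, d.symm ∈ DL := by
    intro d hd
    have h1 := Ins d hd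
    rw [mI] at hd
    rw [mDL, aoff d hd.2.2 h1]
    exact (mDL d).1 hd.1
  have Isn : ∀ d ∈ I, d.snd ∉ A → d.symm ∈ I := by
    intro d hd hA'
    have h0 := Isy d hd
    have h1 := Ins d hd
    rw [mI] at hd ⊢
    refine ⟨h0, ?_, fun i h => ?_⟩
    · by_contra hcon
      push Not at hcon
      exact hA' ((mA _).2 ⟨hcon, d.symm, rfl, h0⟩)
    · exact h1 i ((hsymm _ _).1 h)
  have hIN : I ⊆ (univ.filter fun i : ZMod l => R.next (e i) ≠ e (i + 1)).image
      fun i => R.next (e i) := by
    intro d hd
    have hs := Ins d hd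
    rw [mI] at hd
    obtain ⟨hdL, ⟨j, hj⟩, hne⟩ := hd
    have hj' : d.fst = w ((j - 1) + 1) := by rw [hj]; congr 1; ring
    set i := j - 1 with hi
    have hn : R.next (e i) ≠ (e i).symm := hh.geo.next_ne_symm _
    have hc : R.next (e i) ≠ e (i + 1) := by
      intro h
      -- then the third dart is on the right
      set x := R.rot.symm d with hx
      have hrx : R.rot x = d := by rw [hx, Equiv.apply_symm_apply]
      have hxf : x.fst = w (i + 1) := by
        have := R.fst_rot x
        rw [hrx] at this
        rw [← this]; exact hj'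
      have hx1 : x ≠ (e i).symm := by
        intro h2
        rw [h2] at hrx
        exact hne (i + 1) (hrx.symm.trans h)
      have hx2 : x ≠ d := by
        intro h2
        rw [h2] at hrx
        exact hh.geo.rot_ne _ hrx
      have hx3 : x = e (i + 1) := by
        by_contra hx3
        exact hx2 (third_unique hh.geo.deg3 (hPQ i) rfl hxf hj' hx1 hx3 (hs i) (hne (i + 1)))
      have h2 : R.face d = R.face (e (i + 1)).symm := by
        rw [← hrx, hx3, R.face_rot]
      have h3 := (mDL d).1 hdL
      rw [h2, hR] at h3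
      linarith
    rw [mem_image]
    refine ⟨i, by simpa using hc, ?_⟩
    exact (third_unique hh.geo.deg3 (hPQ i) rfl (R.fst_next _) hj' hn hc (hs i) (hne (i + 1)))
  have hI3 : #I ≤ 4 := ((card_le_card hIN).trans card_image_le).trans hN
  -- the two kinds of inner darts
  set IA := I.filter fun d => d.snd ∈ A with hIA
  set IC := I.filter fun d => d.snd ∉ A with hIC
  have hsplit : #IA + #IC = #I := by
    rw [hIA, hIC]
    exact card_filter_add_card_filter_not (s := I) (fun d => d.snd ∈ A)
  have hAC : ∀ d : G.Dart, d.fst ∈ A → ∀ i, d.fst ≠ w i := fun d hd i h =>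
    ((mA _).1 hd).1 i h
  have hout : #{d : G.Dart | d.fst ∈ A ∧ d.snd ∉ A} = #IA := by
    refine Finset.card_bij (fun d _ => d.symm) ?_ ?_ ?_
    · intro d hd
      simp only [mem_filter, mem_univ, true_and] at hd
      rw [hIA, mem_filter, mI]
      have h1 : d ∈ DL := hAall d hd.1
      obtain ⟨h2, h3⟩ := offC d (hAC d hd.1)
      have h4 : d.symm ∈ DL := by
        rw [mDL, aoff d h2 h3]
        exact (mDL d).1 h1
      refine ⟨⟨h4, ?_, fun i h => h3 i ((hsymm _ _).1 h)⟩, hd.1⟩
      by_contra hcon
      push Not at hcon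
      exact hd.2 ((mA _).2 ⟨hcon, d.symm, rfl, h4⟩)
    · intro d _ d' _ h
      have := congrArg SimpleGraph.Dart.symm h
      simpa using this
    · intro d hd
      rw [hIA, mem_filter] at hd
      refine ⟨d.symm, ?_, by simp⟩
      simp only [mem_filter, mem_univ, true_and]
      refine ⟨hd.2, fun h => ?_⟩
      have h1 := ((mI d).1 hd.1).2.1
      obtain ⟨i, hi⟩ := h1
      exact ((mA _).1 h).1 i hi

  -- the number of darts on the left
  have hDLc : #DL ≤ l + #I + ∑ x ∈ A, G.degree x := by
    have h1 : DL ⊆ (univ.image e ∪ I) ∪ A.biUnion fun x => univ.filter fun d : G.Dart =>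
        d.fst = x := by
      intro d hd
      simp only [mem_union, mem_image, mem_univ, true_and, mem_biUnion, mem_filter]
      by_cases hc : ∃ i, d.fst = w i
      · left
        by_cases hd' : ∃ i, e i = d
        · exact Or.inl hd'
        · right
          rw [mI]
          exact ⟨hd, hc, fun i h => hd' ⟨i, h.symm⟩⟩
      · right
        push Not at hc
        exact ⟨d.fst, (mA _).2 ⟨hc, d, rfl, hd⟩, rfl⟩
    refine (card_le_card h1).trans ((card_union_le _ _).trans (add_le_add
      ((card_union_le _ _).trans (add_le_add (card_image_le.trans ?_) le_rfl))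
      (card_biUnion_le.trans (sum_le_sum fun x _ => ?_))))
    · rw [card_univ, ZMod.card]
    · exact (G.dart_fst_fiber_card_eq_degree x).le
  -- faces on the left
  have hsub : ∀ d ∈ DL, (univ.filter fun x : G.Dart => R.face x = R.face d) ⊆ DL := by
    intro d hd x hx
    simp only [mem_filter, mem_univ, true_and] at hx
    rw [mDL, hx]
    exact (mDL d).1 hd
  have two : ∀ d d' : G.Dart, d ∈ DL → d' ∈ DL → R.face d ≠ R.face d' →
      sz R d + sz R d' ≤ #DL := by
    intro d d' h1 h2 h3
    unfold sz Rot.size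
    rw [← card_union_of_disjoint]
    · exact card_le_card (union_subset (hsub d h1) (hsub d' h2))
    · rw [disjoint_filter]
      intro x _ h4 h5
      exact h3 (h4.symm.trans h5)
  have three : ∀ d d' d'' : G.Dart, d ∈ DL → d' ∈ DL → d'' ∈ DL → R.face d ≠ R.face d' →
      R.face d ≠ R.face d'' → R.face d' ≠ R.face d'' →
      sz R d + sz R d' + sz R d'' ≤ #DL := by
    intro d d' d'' h1 h2 h3 h4 h5 h6
    unfold sz Rot.size
    rw [← card_union_of_disjoint, ← card_union_of_disjoint]
    · exact card_le_card (union_subset (union_subset (hsub d h1) (hsub d' h2)) (hsub d'' h3))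
    · rw [disjoint_union_left, disjoint_filter, disjoint_filter]
      exact ⟨fun x _ h7 h8 => h5 (h7.symm.trans h8), fun x _ h7 h8 => h6 (h7.symm.trans h8)⟩
    · rw [disjoint_filter]
      intro x _ h7 h8
      exact h4 (h7.symm.trans h8)
  have rotne : ∀ d : G.Dart, R.face (R.rot d) ≠ R.face d := fun d => by
    rw [R.face_rot]
    exact (hh.geo.br d).symm
  have degA : ∀ x ∈ A, ∀ d : G.Dart, d.fst = x → d ∈ DL := fun x hx d hd =>
    hAall d (by rw [hd]; exact hx)
  have exd : ∀ x : V, ∃ d : G.Dart, d.fst = x := by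
    intro x
    have h1 : 0 < G.degree x := by have := hh.geo.deg2 x; omega
    rw [← G.dart_fst_fiber_card_eq_degree x, card_pos] at h1
    obtain ⟨d, hd⟩ := h1
    exact ⟨d, by simpa using hd⟩
  have threeAt : ∀ x ∈ A, ∀ d : G.Dart, d.fst = x → G.degree x = 3 →
      sz R d + sz R (R.rot d) + sz R (R.rot (R.rot d)) ≤ #DL := by
    intro x hx d hd h3
    have hd3 : G.degree d.fst = 3 := by rw [hd]; exact h3
    refine three _ _ _ (degA x hx d hd) (degA x hx _ (by rw [R.fst_rot, hd]))
      (degA x hx _ (by rw [R.fst_rot, R.fst_rot, hd])) (rotne d).symm ?_ (rotne _).symm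
    have h4 := rotne (R.rot (R.rot d))
    rw [rot_three R hd3] at h4
    exact h4
  by_cases hA0 : A = ∅
  · -- nothing inside
    by_cases hfac : ∀ i, R.next (e i) = e (i + 1)
    · exact Or.inl hfac
    right
    push Not at hfac
    obtain ⟨i, hi⟩ := hfac
    obtain ⟨h3, h4, -⟩ := thr i hi
    have h5 : R.next (e i) ∈ I := by
      rw [mI, mDL, R.face_next]
      exact ⟨hL i, ⟨i + 1, R.fst_next _⟩, h3⟩
    have h6 := Isn _ h5 (by rw [hA0]; exact notMem_empty _)
    obtain ⟨j, hj⟩ := ((mI _).1 h6).2.1
    have h7 : (R.next (e i)).fst = w (i + 1) := R.fst_next _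
    have h8 : (R.next (e i)).snd = w j := hj
    refine ⟨i + 1, j, ?_, ?_, ?_⟩
    · rw [← h7, ← h8]
      exact (R.next (e i)).adj
    · rintro rfl
      exact h3 (i + 1) (SimpleGraph.Dart.ext _ _ (Prod.ext h7 h8))
    · intro h9
      have h10 : i = j := add_right_cancel h9
      subst h10
      exact h4 i (SimpleGraph.Dart.ext _ _ (Prod.ext h7 h8))
  · exfalso
    have hA1 : 1 ≤ #A := by
      rw [Nat.one_le_iff_ne_zero, card_ne_zero]
      exact nonempty_iff_ne_empty.2 hA0
    have hoA : out G A ≤ 4 := by
      rw [out, hout]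
      exact (Nat.le_add_right _ _).trans (hsplit.le.trans hI3)
    have hcyc : ∀ B : Finset V, (∀ x ∈ B, ∀ i, x ≠ w i) → #B ≤ 2 ∨ #Bᶜ ≤ 2 → #B ≤ 2 := by
      intro B hB h1
      rcases h1 with h1 | h1
      · exact h1
      · exfalso
        have h2 : univ.image w ⊆ Bᶜ := by
          intro x hx
          rw [mem_image] at hx
          obtain ⟨i, -, rfl⟩ := hx
          rw [mem_compl]
          exact fun h3 => hB _ h3 i rfl
        have h3 := card_le_card h2
        rw [card_image_of_injective _ hinj, card_univ, ZMod.card] at h3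
        omega
    have hA2 : #A ≤ 2 := hcyc A (fun x hx => ((mA x).1 hx).1) (hh.cut A hoA)
    -- the other side
    set B : Finset V := univ.filter fun x => (∀ i, x ≠ w i) ∧ x ∉ A with hB
    have mB : ∀ x, x ∈ B ↔ (∀ i, x ≠ w i) ∧ x ∉ A := fun x => by
      rw [hB, mem_filter]
      exact and_iff_right (mem_univ _)
    have hcard : Fintype.card V ≤ l + #A + #B := by
      have h1 : (univ : Finset V) ⊆ (univ.image w ∪ A) ∪ B := by
        intro x _
        rw [mem_union, mem_union]
        by_cases h2 : ∀ i, x ≠ w i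
        · by_cases h3 : x ∈ A
          · exact Or.inl (Or.inr h3)
          · exact Or.inr ((mB x).2 ⟨h2, h3⟩)
        · push Not at h2
          obtain ⟨i, hi⟩ := h2
          exact Or.inl (Or.inl (mem_image.2 ⟨i, mem_univ _, hi.symm⟩))
      have h2 := card_le_card h1
      have h3 := card_union_le (univ.image w ∪ A) B
      have h4 := card_union_le (univ.image w) A
      rw [card_image_of_injective _ hinj, card_univ (α := ZMod l), ZMod.card] at h4
      rw [card_univ] at h2
      omega
    by_cases hN4 : #{i : ZMod l | R.next (e i) ≠ e (i + 1)} ≤ 3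
    · -- at most three inner darts: the set `A` is one vertex
      have hI3' : #I ≤ 3 := ((card_le_card hIN).trans card_image_le).trans hN4
      have hoA3 : out G A ≤ 3 := by
        rw [out, hout]
        exact (Nat.le_add_right _ _).trans (hsplit.le.trans hI3')
      have hA3 : #A = 1 := by
        rcases (by omega : #A = 1 ∨ #A = 2) with h1 | h1
        · exact h1
        · exfalso
          have h2 := four_le_out hh.cub A h1
          omega
      obtain ⟨x, hx⟩ := card_eq_one.1 hA3
      have hxA : x ∈ A := by rw [hx]; exact mem_singleton_self x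
      obtain ⟨d, hd⟩ := exd x
      have h1 := threeAt x hxA d hd (hh.cub x)
      rw [hx, sum_singleton, hh.cub] at hDLc
      have := hh.five_le d
      have := hh.five_le (R.rot d)
      have := hh.five_le (R.rot (R.rot d))
      omega
    · -- both sides are small
      have hoB : out G B ≤ 4 := by
        have h1 : ∀ d : G.Dart, d.fst ∈ B ∧ d.snd ∉ B → ∃ j, d.snd = w (j + 1) ∧
            R.next (e j) = e (j + 1) := by
          rintro d ⟨h1, h2⟩
          rw [mB] at h1
          obtain ⟨h4, h5⟩ := offC d h1.1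
          have h6 : d ∉ DL := fun h7 => h1.2 ((mA _).2 ⟨h1.1, d, rfl, h7⟩)
          have h7 : d.symm ∉ DL := by
            intro h7
            rw [mDL, aoff d h4 h5] at h7
            exact h6 ((mDL d).2 h7)
          have h8 : ∃ i, d.snd = w i := by
            by_contra hcon
            push Not at hcon
            refine h2 ((mB _).2 ⟨hcon, fun h9 => h7 (hAall d.symm h9)⟩)
          obtain ⟨i, hi⟩ := h8
          refine ⟨i - 1, by rw [sub_add_cancel]; exact hi, ?_⟩
          by_contra hcon
          obtain ⟨k1, k2, -⟩ := thr (i - 1) hcon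
          have h9 : d.symm = R.next (e (i - 1)) := by
            refine third_unique hh.geo.deg3 (hPQ (i - 1)) rfl ?_ (R.fst_next _) ?_ ?_ (k2 _) (k1 _)
            · show d.snd = w (i - 1 + 1)
              rw [sub_add_cancel]
              exact hi
            · intro h10
              exact h4 (i - 1) (by have := congrArg SimpleGraph.Dart.symm h10; simpa using this)
            · intro h10
              exact h5 (i - 1 + 1) ((hsymm _ _).1 h10)
          apply h7
          rw [h9, mDL, R.face_next]
          exact hL _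
        choose! g hg1 hg2 using h1
        have h2 : out G B ≤ #{i : ZMod l | R.next (e i) = e (i + 1)} := by
          unfold out
          refine card_le_card_of_injOn g ?_ ?_
          · intro d hd
            simp only [coe_filter, mem_univ, true_and, Set.mem_ofPred_eq] at hd ⊢
            exact hg2 d hd
          · intro d hd d' hd' hgg
            simp only [coe_filter, mem_univ, true_and, Set.mem_ofPred_eq] at hd hd'
            have k1 := hg1 d hd
            have k2 := hg1 d' hd'
            obtain ⟨h4, h5⟩ := offC d ((mB _).1 hd.1).1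
            obtain ⟨h4', h5'⟩ := offC d' ((mB _).1 hd'.1).1
            have h9 : d.symm = d'.symm := by
              refine third_unique hh.geo.deg3 (hPQ (g d)) rfl ?_ ?_ ?_ ?_ ?_ ?_
              · exact k1
              · show d'.snd = w (g d + 1)
                rw [hgg]
                exact k2
              · intro h10
                exact h4 (g d) (by have := congrArg SimpleGraph.Dart.symm h10; simpa using this)
              · intro h10
                exact h5 (g d + 1) ((hsymm _ _).1 h10)
              · intro h10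
                exact h4' (g d) (by have := congrArg SimpleGraph.Dart.symm h10; simpa using this)
              · intro h10
                exact h5' (g d + 1) ((hsymm _ _).1 h10)
            have := congrArg SimpleGraph.Dart.symm h9
            simpa using this
        have h3 := card_filter_add_card_filter_not (s := (univ : Finset (ZMod l)))
          (fun i => R.next (e i) = e (i + 1))
        rw [card_univ, ZMod.card] at h3
        have h4 : #{i : ZMod l | ¬ R.next (e i) = e (i + 1)} =
          #{i : ZMod l | R.next (e i) ≠ e (i + 1)} := rfl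
        omega
      have hB2 : #B ≤ 2 := hcyc B (fun x hx => ((mB x).1 hx).1) (hh.cut B hoB)
      omega

/-- Closed walks of length eight have no repeated vertices. -/
theorem C5.inj8 (h : C5 R) (w : ZMod 8 → V) (ha : ∀ i, G.Adj (w i) (w (i + 1)))
    (hb : ∀ i, w i ≠ w (i + 2)) : Function.Injective w := by
  have h1 : ∀ i, w i ≠ w (i + 1) := fun i => (ha i).ne
  have h3 : ∀ i, w i ≠ w (i + 3) := by
    intro i hi
    have a1 := ha i
    have a2 := ha (i + 1)
    have a3 := ha (i + 2)
    rw [add_assoc, show (1 + 1 : ZMod 8) = 2 by decide] at a2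
    rw [add_assoc, show (2 + 1 : ZMod 8) = 3 by decide, ← hi] at a3
    exact no_tri h.tri a1 a2 a3.symm
  have h4 : ∀ i, w i ≠ w (i + 4) := by
    intro i hi
    have a1 := ha i
    have a2 := ha (i + 1)
    have a3 := ha (i + 2)
    have a4 := ha (i + 3)
    have b1 := hb i
    have b2 := hb (i + 1)
    rw [add_assoc, show (1 + 1 : ZMod 8) = 2 by decide] at a2
    rw [add_assoc, show (2 + 1 : ZMod 8) = 3 by decide] at a3
    rw [add_assoc, show (3 + 1 : ZMod 8) = 4 by decide, ← hi] at a4
    rw [add_assoc, show (1 + 2 : ZMod 8) = 3 by decide] at b2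
    exact h.no_four a1 a2 a3 a4 b1 b2
  intro i j hij
  by_contra hne
  obtain ⟨k, rfl⟩ : ∃ k, j = i + k := ⟨j - i, by ring⟩
  have key : ∀ k : ZMod 8, k = 0 ∨ k = 1 ∨ k = 2 ∨ k = 3 ∨ k = 4 ∨ k = -3 ∨ k = -2 ∨ k = -1 := by
    decide
  rcases key k with rfl | rfl | rfl | rfl | rfl | rfl | rfl | rfl
  · exact hne (by ring)
  · exact h1 _ hij
  · exact hb _ hij
  · exact h3 _ hij
  · exact h4 _ hij
  · refine h3 (i + -3) ?_
    rw [← hij]; congr 1; ring
  · refine hb (i + -2) ?_
    rw [← hij]; congr 1; ring
  · refine h1 (i + -1) ?_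
    rw [← hij]; congr 1; ring

/-- A chord of a closed walk of length eight joins opposite vertices. -/
theorem C5.chord8 (h : C5 R) (w : ZMod 8 → V) (ha : ∀ i, G.Adj (w i) (w (i + 1)))
    (hb : ∀ i, w i ≠ w (i + 2)) {i j : ZMod 8} (hij : G.Adj (w i) (w j)) (h1 : j ≠ i + 1)
    (h2 : i ≠ j + 1) : ∃ i, G.Adj (w i) (w (i + 4)) := by
  obtain ⟨k, rfl⟩ : ∃ k, j = i + k := ⟨j - i, by ring⟩
  have t2 : ∀ i, ¬ G.Adj (w i) (w (i + 2)) := by
    intro i hi
    have a1 := ha i
    have a2 := ha (i + 1)
    rw [add_assoc, show (1 + 1 : ZMod 8) = 2 by decide] at a2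
    exact no_tri h.tri a1 a2 hi
  have t3 : ∀ i, ¬ G.Adj (w i) (w (i + 3)) := by
    intro i hi
    have a1 := ha i
    have a2 := ha (i + 1)
    have a3 := ha (i + 2)
    have b1 := hb i
    have b2 := hb (i + 1)
    rw [add_assoc, show (1 + 1 : ZMod 8) = 2 by decide] at a2
    rw [add_assoc, show (2 + 1 : ZMod 8) = 3 by decide] at a3
    rw [add_assoc, show (1 + 2 : ZMod 8) = 3 by decide] at b2
    exact h.no_four a1 a2 a3 hi.symm b1 b2
  have key : ∀ k : ZMod 8, k = 0 ∨ k = 1 ∨ k = 2 ∨ k = 3 ∨ k = 4 ∨ k = -3 ∨ k = -2 ∨ k = -1 := by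
    decide
  rcases key k with rfl | rfl | rfl | rfl | rfl | rfl | rfl | rfl
  · rw [add_zero] at hij
    exact absurd rfl hij.ne
  · exact absurd rfl h1
  · exact absurd hij (t2 i)
  · exact absurd hij (t3 i)
  · exact ⟨i, hij⟩
  · exfalso
    refine t3 (i + -3) ?_
    have := hij.symm
    rwa [show i + -3 + 3 = i by ring]
  · exfalso
    refine t2 (i + -2) ?_
    have := hij.symm
    rwa [show i + -2 + 2 = i by ring]
  · exfalso
    exact h2 (by ring)

/-- **The two sides of a closed walk of length eight.** -/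
theorem C5.sides8 (h : C5 R) (h13 : 13 ≤ Fintype.card V) (w : ZMod 8 → V)
    (ha : ∀ i, G.Adj (w i) (w (i + 1))) (hb : ∀ i, w i ≠ w (i + 2)) :
    (∀ i, R.next (ed w ha i) = ed w ha (i + 1)) ∨
      (∀ i, R.rot (ed w ha (i + 1)) = (ed w ha i).symm) ∨ ∃ i, G.Adj (w i) (w (i + 4)) := by
  classical
  have g := h.geo
  have hinj := h.inj8 w ha hb
  -- the reversed walk
  set w' : ZMod 8 → V := fun i => w (-i) with hw'
  have ha' : ∀ i, G.Adj (w' i) (w' (i + 1)) := by
    intro i
    have h1 := ha (-(i + 1))
    rw [show -(i + 1) + 1 = -i by ring] at h1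
    exact h1.symm
  have hb' : ∀ i, w' i ≠ w' (i + 2) := by
    intro i h
    have h1 := hb (-(i + 2))
    rw [show -(i + 2) + 2 = -i by ring] at h1
    exact h1 h.symm
  have hinj' : Function.Injective w' := fun i j h => neg_injective (hinj h)
  have hed : ∀ i, ed w' ha' (-(i + 2)) = (ed w ha (i + 1)).symm := by
    intro i
    refine SimpleGraph.Dart.ext _ _ (Prod.ext ?_ ?_)
    · show w (- -(i + 2)) = w (i + 1 + 1)
      congr 1
      ring
    · show w (-(-(i + 2) + 1)) = w (i + 1)
      congr 1
      ring
  have hed2 : ∀ i, ed w' ha' (-(i + 2) + 1) = (ed w ha i).symm := by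
    intro i
    refine SimpleGraph.Dart.ext _ _ (Prod.ext ?_ ?_)
    · show w (-(-(i + 2) + 1)) = w (i + 1)
      congr 1
      ring
    · show w (-(-(i + 2) + 1 + 1)) = w i
      congr 1
      ring
  have hPQ : ∀ i, (ed w ha i).symm ≠ ed w ha (i + 1) := by
    intro i h
    have h1 : (ed w ha i).symm.snd = (ed w ha (i + 1)).snd := by rw [h]
    have h2 : w i = w (i + 1 + 1) := h1
    exact hb i (by rw [h2]; congr 1; ring)
  have hcount : #{i : ZMod 8 | R.next (ed w ha i) ≠ ed w ha (i + 1)} +
      #{i : ZMod 8 | R.next (ed w' ha' i) ≠ ed w' ha' (i + 1)} ≤ 8 := by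
    have h1 : #{i : ZMod 8 | R.next (ed w' ha' i) ≠ ed w' ha' (i + 1)} =
        #{i : ZMod 8 | R.rot (ed w ha (i + 1)) ≠ (ed w ha i).symm} := by
      symm
      refine Finset.card_bij (fun i _ => -(i + 2)) ?_ ?_ ?_
      · intro i hi
        simp only [mem_filter, mem_univ, true_and] at hi ⊢
        rw [hed, hed2, next_eq, SimpleGraph.Dart.symm_symm]
        exact hi
      · intro i _ j _ h
        have := neg_injective h
        exact add_right_cancel this
      · intro j hj
        refine ⟨-j - 2, ?_, by ring⟩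
        simp only [mem_filter, mem_univ, true_and] at hj ⊢
        have e1 := hed (-j - 2)
        have e2 := hed2 (-j - 2)
        rw [show -(-j - 2 + 2) = j by ring] at e1 e2
        rw [e1, e2, next_eq, SimpleGraph.Dart.symm_symm] at hj
        exact hj
    rw [h1, ← card_union_of_disjoint]
    · refine (card_le_univ _).trans ?_
      rw [ZMod.card]
    · rw [disjoint_filter]
      intro i _ h2 h3
      have h4 : R.next (ed w ha i) = R.rot (ed w ha (i + 1)) := by
        refine third_unique g.deg3 (hPQ i) rfl (R.fst_next _) (R.fst_rot _)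
          (g.next_ne_symm _) h2 h3 (g.rot_ne _)
      rw [next_eq] at h4
      exact hPQ i (R.rot.injective h4)
  rcases (by omega : #{i : ZMod 8 | R.next (ed w ha i) ≠ ed w ha (i + 1)} ≤ 4 ∨
    #{i : ZMod 8 | R.next (ed w' ha' i) ≠ ed w' ha' (i + 1)} ≤ 4) with h1 | h1
  · rcases h.left8 h13 le_rfl w ha hb hinj (by norm_num) h1 with h2 | ⟨i, j, h2, h3, h4⟩
    · exact Or.inl h2
    · exact Or.inr (Or.inr (h.chord8 w ha hb h2 h3 h4))
  · rcases h.left8 h13 le_rfl w' ha' hb' hinj' (by norm_num) h1 with h2 | ⟨i, j, h2, h3, h4⟩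
    · right; left
      intro i
      have h3 := h2 (-(i + 2))
      rw [hed, hed2, next_eq, SimpleGraph.Dart.symm_symm] at h3
      exact h3
    · right; right
      obtain ⟨k, hk⟩ := h.chord8 w' ha' hb' h2 h3 h4
      refine ⟨-(k + 4), ?_⟩
      rw [show -(k + 4) + 4 = -k by ring]
      exact hk.symm

/-- **A closed walk of length eight through a corner of a shorter one has a chord.** -/
theorem C5.corner8 (h : C5 R) (h13 : 13 ≤ Fintype.card V) {m : ℕ} [NeZero m] (hm : m ≤ 7)
    (w : ZMod 8 → V) (w' : ZMod m → V)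
    (ha : ∀ i, G.Adj (w i) (w (i + 1))) (hb : ∀ i, w i ≠ w (i + 2))
    (ha' : ∀ i, G.Adj (w' i) (w' (i + 1))) (hb' : ∀ i, w' i ≠ w' (i + 2))
    (h0 : w 0 = w' 0) (h1 : w 1 = w' 1) (h2 : w 2 = w' 2) :
    ∃ i, G.Adj (w i) (w (i + 4)) := by
  have g := h.geo
  have hbm : ¬ Bad R m := fun hB => h.not_bad (hB.mono hm)
  have fin : ∀ d : G.Dart, R.next^[8] d = d → sz R d = m → False := by
    intro d h3 h4
    have h5 := sz_le R (by norm_num) h3
    have h6 := h.five_le d
    rw [h4] at h5 h6
    interval_cases m <;> omega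
  rcases h.sides8 h13 w ha hb with h3 | h3 | h3
  · exfalso
    set d := ed w ha 0 with hd
    have key : ∀ i : ℕ, R.next^[i] d = ed w ha i := by
      intro i
      induction i with
      | zero => simp [hd]
      | succ n ih => rw [Function.iterate_succ_apply', ih, h3]; congr 1; push_cast; rfl
    have e1 : d.snd = w 1 := by
      show w (0 + 1) = w 1
      rw [zero_add]
    have e2 : (R.next d).snd = w 2 := by
      rw [hd, h3, zero_add]
      show w (1 + 1) = w 2
      rw [one_add_one_eq_two]
    obtain ⟨e3, -⟩ := g.corner hm hbm w' ha' hb' d h0 (e1.trans h1) (e2.trans h2)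
      (h.cub _)
    refine fin d ?_ e3
    rw [key]
    congr 1
  · exfalso
    set d := (ed w ha 1).symm with hd
    have key : ∀ i : ℕ, R.next^[i] d = (ed w ha (1 - i)).symm := by
      intro i
      induction i with
      | zero => simp [hd]
      | succ n ih =>
        rw [Function.iterate_succ_apply', ih, next_eq, SimpleGraph.Dart.symm_symm]
        have := h3 (1 - n - 1)
        rw [sub_add_cancel] at this
        rw [this]
        congr 2
        push_cast
        ring
    have e0 : d.fst = w 2 := by
      show w (1 + 1) = w 2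
      rw [one_add_one_eq_two]
    have e1 : d.snd = w 1 := rfl
    have e2 : (R.next d).snd = w 0 := by
      have := key 1
      rw [Function.iterate_one, Nat.cast_one, sub_self] at this
      rw [this]
      rfl
    obtain ⟨e3, -⟩ := g.corner' hm hbm w' ha' hb' d (e0.trans h2) (e1.trans h1) (e2.trans h0)
      (h.cub _)
    refine fin d ?_ e3
    rw [key]
    rw [hd]
    congr 1
  · exact h3

/-- **A closed walk of length eight through a corner of a shorter one has a chord**, lists. -/
theorem C5.walk8 (h : C5 R) (h13 : 13 ≤ Fintype.card V) {a v b : V} {l l' : List V}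
    (h1 : NB G (a :: v :: b :: l)) (h2 : NB G (a :: v :: b :: l')) (hl : l.length = 5)
    (hl' : l'.length ≤ 4) :
    ∃ i < 4, G.Adj ((a :: v :: b :: l).getD i a) ((a :: v :: b :: l).getD (i + 4) a) := by
  obtain ⟨c0, c1, c2, c3, c4, rfl⟩ : ∃ c0 c1 c2 c3 c4, l = [c0, c1, c2, c3, c4] := by
    match l, hl with
    | [c0, c1, c2, c3, c4], _ => exact ⟨_, _, _, _, _, rfl⟩
  set L' := a :: v :: b :: l' with hL'
  have e2 : L'.length = l'.length + 3 := rfl
  have : NeZero L'.length := ⟨by rw [e2]; omega⟩
  obtain ⟨ha, hb⟩ := cw_spec (L := [a, v, b, c0, c1, c2, c3, c4]) (by norm_num) h1 a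
  obtain ⟨ha', hb'⟩ := cw_spec (L := L') (by omega) h2 a
  have g0' : cw L' a 0 = a := by
    have := cw_nat (L := L') a (i := 0) (by omega)
    rw [Nat.cast_zero] at this
    exact this
  have g1' : cw L' a 1 = v := by
    have := cw_nat (L := L') a (i := 1) (by omega)
    rw [Nat.cast_one] at this
    exact this
  have g2' : cw L' a 2 = b := by
    have := cw_nat (L := L') a (i := 2) (by omega)
    rw [Nat.cast_ofNat] at this
    exact this
  obtain ⟨i, hi⟩ := h.corner8 h13 (m := L'.length) (by omega)
    (cw [a, v, b, c0, c1, c2, c3, c4] a) (cw L' a) ha hb ha' hb'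
    (by rw [g0']; rfl) (by rw [g1']; rfl) (by rw [g2']; rfl)
  have key : ∀ i : ZMod 8, G.Adj (cw [a, v, b, c0, c1, c2, c3, c4] a i)
      (cw [a, v, b, c0, c1, c2, c3, c4] a (i + 4)) → ∃ k < 4,
      G.Adj ([a, v, b, c0, c1, c2, c3, c4].getD k a)
        ([a, v, b, c0, c1, c2, c3, c4].getD (k + 4) a) := by
    intro i hi
    have hi8 : i.val < 8 := ZMod.val_lt i
    have h5 : (i + 4).val = (i.val + 4) % 8 := by
      rw [ZMod.val_add]
      rfl
    unfold cw at hi
    change G.Adj ([a, v, b, c0, c1, c2, c3, c4].getD i.val a)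
      ([a, v, b, c0, c1, c2, c3, c4].getD (i + 4).val a) at hi
    rw [h5] at hi
    rcases lt_or_ge i.val 4 with h6 | h6
    · exact ⟨i.val, h6, by rwa [Nat.mod_eq_of_lt (by omega)] at hi⟩
    · refine ⟨i.val - 4, by omega, ?_⟩
      rw [show i.val - 4 + 4 = i.val by omega]
      rw [show (i.val + 4) % 8 = i.val - 4 by omega] at hi
      exact hi.symm
  exact key i hi

end Pool.Agent.U2Geo
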