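import Mathlib
import Pool.Agent.Work.MP_392c8e_co_t1.SideR
import Pool.Agent.Work.MP_392c8e_co_t1.Apply
import Pool.Agent.Work.MP_392c8e_co_uni.GeoEight

/-!
# Side conditions of patches in cyclically 5-edge-connected cubic plane graphs

The check of the certificates keeps the facts in three numbers (sets of pairs of labels below 32).
-/

namespace Pool.Agent.U2Geo

open Pool.T1Side Pool.Agent.T1Red Pool.Agent.T1FF Pool.Agent.Sub392

set_option linter.unusedSectionVars false

/-- The facts about short closed walks. -/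
structure Cls {V : Type} (G : SimpleGraph V) : Prop where
  rules : Rules G AA (fun _ _ => false)
  no4 : ∀ a b c d : V, ¬ NB G [a, b, c, d]
  w8 : ∀ (a v b : V) (l l' : List V), NB G (a :: v :: b :: l) → NB G (a :: v :: b :: l') →
    l.length = 5 → l'.length ≤ 4 →
    ∃ i < 4, G.Adj ((a :: v :: b :: l).getD i a) ((a :: v :: b :: l).getD (i + 4) a)

theorem C5.cls {V : Type} [Fintype V] [DecidableEq V] {G : SimpleGraph V} [DecidableRel G.Adj]
    {R : Rot G} (h : C5 R) (h13 : 13 ≤ Fintype.card V) : Cls G :=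
  ⟨h.rules, fun _ _ _ _ h1 => h.no_four h1.1 h1.2.2.1 h1.2.2.2.2.1 h1.2.2.2.2.2.2.1 h1.2.1
    h1.2.2.2.1, fun _ _ _ _ _ h1 h2 h3 h4 => h.walk8 h13 h1 h2 h3 h4⟩

variable {V : Type} {G : SimpleGraph V}

/-- The faces at the corners of the list have not length five. -/
def No5 (G : SimpleGraph V) (F : List (ℕ × ℕ × ℕ)) (f : ℕ → V) : Prop :=
  ∀ e ∈ F, ∀ x y, ¬ NB G [f e.1, f e.2.1, f e.2.2, x, y]

theorem nb5_reverse {a v b x y : V} (h : NB G [b, v, a, x, y]) : NB G [a, v, b, y, x] := by
  obtain ⟨h1, h2, h3, h4, h5, h6, h7, h8, h9, h10, -⟩ := h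
  exact ⟨h3.symm, h2.symm, h1.symm, h10.symm, h9.symm, h8.symm, h7.symm, h6.symm, h5.symm,
    h4.symm, trivial⟩

/-- Certificates of contradictions. -/
inductive CertL
  /-- the old certificates -/
  | base (c : Cert)
  /-- a closed walk of length four -/
  | four (a b c d : ℕ)
  /-- a closed walk of length five through the corner of a face which has not length five -/
  | five (a v b x y : ℕ)
  /-- a closed walk of length eight without chords through a corner of a shorter one -/
  | long (a v b : ℕ) (l l' : List ℕ)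

/-- The corner is in the list. -/
def hasF (F : List (ℕ × ℕ × ℕ)) (a v b : ℕ) : Bool :=
  F.any fun e => (e.1 == a && e.2.1 == v && e.2.2 == b) || (e.1 == b && e.2.1 == v && e.2.2 == a)

/-- The steps. -/
inductive StepL
  /-- the labels are different -/
  | ne (i j : ℕ) (c : CertL)
  /-- the labels are not adjacent -/
  | na (i j : ℕ) (c : CertL)
  /-- the labels have no common neighbour outside; the new label is `n` -/
  | cn (i j n : ℕ) (c : CertL)

/-- All labels of the corners are below `n`. -/
def belowF (n : ℕ) (F : List (ℕ × ℕ × ℕ)) : Bool :=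
  F.all fun e => Nat.blt e.1 n && Nat.blt e.2.1 n && Nat.blt e.2.2 n

/-- The old labels. -/
def olds (R : Red) (nl : List (ℕ × ℕ)) : List ℕ :=
  (List.range (R.t + R.m)).filter fun i => nl.all fun p => !(Nat.beq p.1 i)

theorem mem_olds {R : Red} {nl : List (ℕ × ℕ)} {i : ℕ} (h : Real R nl [] i) : i ∈ olds R nl := by
  unfold olds
  rw [List.mem_filter, List.mem_range, List.all_eq_true]
  refine ⟨h.1, fun p hp => ?_⟩
  have h1 := h.2.2 p hp
  rw [Bool.not_eq_true']
  by_contra hcon
  rw [Bool.not_eq_false] at hcon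
  exact h1 (Nat.eq_of_beq_eq_true hcon)

/-- A copy of the cluster of a reducer with all side conditions. -/
structure Patch (G : SimpleGraph V) (R : Red) (nl co com bad : List (ℕ × ℕ)) (f : ℕ → V) :
    Prop where
  inj : ∀ i j, Real R nl [] i → Real R nl [] j → f i = f j → Same co i j
  adj : ∀ e ∈ R.ed, G.Adj (f e.1) (f e.2)
  nbr : ∀ i, R.t ≤ i → i < R.t + R.m → ∀ w, G.Adj (f i) w →
    ∃ j, ((i, j) ∈ R.ed ∨ (j, i) ∈ R.ed) ∧ w = f j
  hC : ∀ p ∈ com, ∀ w, ¬ Int R f w → ¬ (G.Adj (f p.1) w ∧ G.Adj w (f p.2))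
  hT : ∀ p ∈ bad, ¬ G.Adj (f p.1) (f p.2)

theorem nbs_mem {ed : List (ℕ × ℕ)} {i j : ℕ} (h : j ∈ nbs ed i) : (i, j) ∈ ed ∨ (j, i) ∈ ed := by
  unfold nbs at h
  rw [List.mem_append, List.mem_map, List.mem_map] at h
  rcases h with ⟨e, he, rfl⟩ | ⟨e, he, rfl⟩
  · rw [List.mem_filter] at he
    left
    have : e.1 = i := by simpa using he.2
    rw [← this]
    exact he.1
  · rw [List.mem_filter] at he
    right
    have : e.2 = i := by simpa using he.2
    rw [← this]
    exact he.1

namespace Msk

/-! ### Sets of pairs of labels below 32 as numbers -/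

/-- The pair is in the set. -/
def bt (m i j : ℕ) : Bool :=
  Nat.beq (Nat.land (Nat.shiftRight m (Nat.add (Nat.mul 32 i) j)) 1) 1

/-- The pair is put into the set, in both orders. -/
def stP (m i j : ℕ) : ℕ :=
  Nat.lor (Nat.lor m (Nat.shiftLeft 1 (Nat.add (Nat.mul 32 i) j)))
    (Nat.shiftLeft 1 (Nat.add (Nat.mul 32 j) i))

theorem bt_eq (m i j : ℕ) : bt m i j = m.testBit (32 * i + j) := by
  have h1 : (Nat.land (Nat.shiftRight m (Nat.add (Nat.mul 32 i) j)) 1)
      = m / 2 ^ (32 * i + j) % 2 := by
    show (m >>> (32 * i + j)) &&& 1 = _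
    rw [Nat.and_one_is_mod, Nat.shiftRight_eq_div_pow]
  unfold bt
  rw [h1, Nat.testBit_eq_decide_div_mod_eq, Bool.eq_iff_iff, Nat.beq_eq, decide_eq_true_iff]

theorem stP_eq (m i j n : ℕ) : (stP m i j).testBit n
    = (m.testBit n || decide (32 * i + j = n) || decide (32 * j + i = n)) := by
  have h1 : stP m i j = (m ||| 2 ^ (32 * i + j)) ||| 2 ^ (32 * j + i) := by
    show (m ||| (1 <<< (32 * i + j))) ||| (1 <<< (32 * j + i)) = _
    rw [Nat.one_shiftLeft, Nat.one_shiftLeft]
  rw [h1, Nat.testBit_or, Nat.testBit_or, Nat.testBit_two_pow, Nat.testBit_two_pow]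

theorem bt_stP {m a b i j : ℕ} (ha : a < 32) (hb : b < 32) (hj : j < 32)
    (h : bt (stP m a b) i j = true) :
    bt m i j = true ∨ (i = a ∧ j = b) ∨ (i = b ∧ j = a) := by
  rw [bt_eq, stP_eq, Bool.or_eq_true, Bool.or_eq_true, decide_eq_true_iff,
    decide_eq_true_iff] at h
  rw [bt_eq]
  rcases h with (h | h) | h
  · exact Or.inl h
  · right; left; omega
  · right; right; omega

theorem bt_zero (i j : ℕ) : bt 0 i j = false := by
  rw [bt_eq, Nat.zero_testBit]

/-- The set of the pairs of a list. -/
def maskP (l : List (ℕ × ℕ)) (m : ℕ) : ℕ := l.foldl (fun m e => stP m e.1 e.2) m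

theorem bt_maskP : ∀ (l : List (ℕ × ℕ)) (m : ℕ), below 32 l = true → ∀ {i j : ℕ}, j < 32 →
    bt (maskP l m) i j = true → bt m i j = true ∨ (i, j) ∈ l ∨ (j, i) ∈ l
  | [], m, _, i, j, _, h => Or.inl h
  | e :: l, m, hb, i, j, hj, h => by
    have he := below_spec hb (List.mem_cons_self)
    have hl : below 32 l = true := by
      unfold below at hb ⊢
      rw [List.all_cons, Bool.and_eq_true] at hb
      exact hb.2
    rcases bt_maskP l (stP m e.1 e.2) hl hj h with h1 | h1 | h1
    · rcases bt_stP he.1 he.2 hj h1 with h2 | ⟨h2, h3⟩ | ⟨h2, h3⟩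
      · exact Or.inl h2
      · right; left
        rw [h2, h3]; exact List.mem_cons_self
      · right; right
        rw [h2, h3]; exact List.mem_cons_self
    · exact Or.inr (Or.inl (List.mem_cons_of_mem _ h1))
    · exact Or.inr (Or.inr (List.mem_cons_of_mem _ h1))

/-- The pair is in the set and its labels are below `b`. -/
def lk (b m i j : ℕ) : Bool := Nat.ble (Nat.succ i) b && (Nat.ble (Nat.succ j) b && bt m i j)

theorem lk_spec {b m i j : ℕ} (h : lk b m i j = true) : i < b ∧ j < b ∧ bt m i j = true := by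
  unfold lk at h
  rw [Bool.and_eq_true, Bool.and_eq_true, Nat.ble_eq, Nat.ble_eq] at h
  exact ⟨h.1, h.2.1, h.2.2⟩

/-! ### The check of a contradiction -/

/-- The test of a walk. -/
def trP (A N : ℕ → ℕ → Bool) : ℕ → ℕ → List ℕ → Bool
  | _, _, [] => true
  | a, b, c :: l => A a b && (N a c && trP A N b c l)

/-- The test of a walk. -/
def trQ (A N : ℕ → ℕ → Bool) : List ℕ → Bool
  | [] => true
  | a :: l => match l with
    | [] => true
    | b :: l => trP A N a b l

/-- The test of a closed walk. -/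
def nbP (A N : ℕ → ℕ → Bool) (l : List ℕ) : Bool := trQ A N (l ++ l.take 2)

/-- The lists are different. -/
def difP (N : ℕ → ℕ → Bool) : List ℕ → List ℕ → Bool
  | [], [] => false
  | [], _ :: _ => true
  | _ :: _, [] => true
  | a :: l, b :: l' => N a b || difP N l l'

/-- The check of a contradiction. -/
def refP (F : List (ℕ × ℕ × ℕ)) (A N Q : ℕ → ℕ → Bool) : CertL → Bool
  | .base (.corner a v b l l') => nbP A N (a :: v :: b :: l) && (nbP A N (a :: v :: b :: l') &&
      (AA l.length l'.length && difP N l l'))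
  | .base (.edge _ _ _ _) => false
  | .base (.tri a b c) => A a b && (A b c && A a c)
  | .base (.self a) => N a a || A a a
  | .base (.nadj a b) => A a b && Q a b
  | .four a b c d => nbP A N [a, b, c, d]
  | .five a v b x y => nbP A N [a, v, b, x, y] && hasF F a v b
  | .long a v b l l' => nbP A N (a :: v :: b :: l) && (nbP A N (a :: v :: b :: l') &&
      (Nat.beq l.length 5 && (Nat.ble l'.length 4 &&
      (List.range 4).all fun i => Q ((a :: v :: b :: l).getD i a)
        ((a :: v :: b :: l).getD (i + 4) a))))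

section sound

variable {V : Type} {G : SimpleGraph V} {A N Q : ℕ → ℕ → Bool} {f : ℕ → V}

theorem trP_sound (hA : ∀ x y, A x y = true → G.Adj (f x) (f y))
    (hN : ∀ x y, N x y = true → f x ≠ f y) :
    ∀ (a b : ℕ) (l : List ℕ), trP A N a b l = true → Tr G ((a :: b :: l).map f)
  | _, _, [], _ => trivial
  | a, b, c :: l, h => by
    unfold trP at h
    rw [Bool.and_eq_true, Bool.and_eq_true] at h
    exact ⟨hA _ _ h.1, hN _ _ h.2.1, trP_sound hA hN b c l h.2.2⟩

theorem nbP_sound (hA : ∀ x y, A x y = true → G.Adj (f x) (f y))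
    (hN : ∀ x y, N x y = true → f x ≠ f y) {l : List ℕ} (h : nbP A N l = true) :
    NB G (l.map f) := by
  have key : ∀ l : List ℕ, trQ A N l = true → Tr G (l.map f) := by
    intro l hl
    match l, hl with
    | [], _ => trivial
    | [_], _ => trivial
    | a :: b :: l, hl => exact trP_sound hA hN a b l hl
  have := key _ h
  rw [List.map_append, List.map_take] at this
  exact this

theorem difP_sound (hN : ∀ x y, N x y = true → f x ≠ f y) :
    ∀ l l' : List ℕ, difP N l l' = true → l.map f ≠ l'.map f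
  | [], [], hd => by simp [difP] at hd
  | [], _ :: _, _ => by simp
  | _ :: _, [], _ => by simp
  | a :: l, b :: l', hd => by
    unfold difP at hd
    rw [Bool.or_eq_true] at hd
    intro he
    rw [List.map_cons, List.map_cons, List.cons.injEq] at he
    rcases hd with hd | hd
    · exact hN _ _ hd he.1
    · exact difP_sound hN l l' hd he.2

theorem refP_sound (hG : Cls G) {F : List (ℕ × ℕ × ℕ)} (hF : No5 G F f)
    (hA : ∀ x y, A x y = true → G.Adj (f x) (f y))
    (hN : ∀ x y, N x y = true → f x ≠ f y) (hQ : ∀ x y, Q x y = true → ¬ G.Adj (f x) (f y))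
    {c : CertL} (hc : refP F A N Q c = true) : False := by
  cases c with
  | base c =>
    cases c with
    | corner a v b l l' =>
      simp only [refP, Bool.and_eq_true] at hc
      obtain ⟨h1, h2, h3, h4⟩ := hc
      refine difP_sound hN l l' h4 (hG.rules.corner (f a) (f v) (f b) (l.map f) (l'.map f)
        (nbP_sound hA hN h1) (nbP_sound hA hN h2) ?_)
      rw [List.length_map, List.length_map]
      exact h3
    | edge a v l l' => exact absurd hc (by simp [refP])
    | tri a b c =>
      simp only [refP, Bool.and_eq_true] at hc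
      exact no_tri hG.rules.tri (hA _ _ hc.1) (hA _ _ hc.2.1) (hA _ _ hc.2.2)
    | self a =>
      simp only [refP, Bool.or_eq_true] at hc
      rcases hc with hc | hc
      · exact hN _ _ hc rfl
      · exact (hA _ _ hc).ne rfl
    | nadj a b =>
      simp only [refP, Bool.and_eq_true] at hc
      exact hQ _ _ hc.2 (hA _ _ hc.1)
  | four a b c d => exact hG.no4 (f a) (f b) (f c) (f d) (nbP_sound hA hN hc)
  | five a v b x y =>
    simp only [refP, Bool.and_eq_true] at hc
    obtain ⟨h1, h2⟩ := hc
    have h3 := nbP_sound hA hN h1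
    unfold hasF at h2
    rw [List.any_eq_true] at h2
    obtain ⟨e, he, h4⟩ := h2
    simp only [Bool.or_eq_true, Bool.and_eq_true, beq_iff_eq] at h4
    rcases h4 with ⟨⟨h5, h6⟩, h7⟩ | ⟨⟨h5, h6⟩, h7⟩
    · refine hF e he (f x) (f y) ?_
      rw [h5, h6, h7]
      exact h3
    · refine hF e he (f y) (f x) ?_
      rw [h5, h6, h7]
      exact nb5_reverse h3
  | long a v b l l' =>
    simp only [refP, Bool.and_eq_true, List.all_eq_true] at hc
    obtain ⟨h1, h2, h3, h4, h5⟩ := hc
    have e3 : l.length = 5 := Nat.eq_of_beq_eq_true h3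
    have e4 : l'.length ≤ 4 := by simpa using h4
    obtain ⟨i, hi, h6⟩ := hG.w8 (f a) (f v) (f b) (l.map f) (l'.map f) (nbP_sound hA hN h1)
      (nbP_sound hA hN h2) (by rw [List.length_map]; exact e3) (by rw [List.length_map]; exact e4)
    have key : ∀ k, k < 8 → (f a :: f v :: f b :: l.map f).getD k (f a) =
        f ((a :: v :: b :: l).getD k a) := by
      intro k hk
      have : f a :: f v :: f b :: l.map f = (a :: v :: b :: l).map f := rfl
      rw [this, List.getD_map]
    rw [key i (by omega), key (i + 4) (by omega)] at h6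
    exact hQ _ _ (h5 i (List.mem_range.2 hi)) h6

end sound

/-! ### Steps -/

/-- The facts after the identification of `i` and `j`. -/
def idP (b m i j x y : ℕ) : Bool :=
  lk b m x y || ((Nat.beq x i && lk b m j y) || (Nat.beq y i && lk b m x j))

/-- The facts and the pair. -/
def adP (b m i j x y : ℕ) : Bool :=
  lk b m x y || ((Nat.beq x i && Nat.beq y j) || (Nat.beq x j && Nat.beq y i))

/-- The facts and two pairs. -/
def cmP (b m i j n x y : ℕ) : Bool :=
  lk b m x y || ((Nat.beq x n && (Nat.beq y i || Nat.beq y j)) ||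
    (Nat.beq y n && (Nat.beq x i || Nat.beq x j)))

/-- The label `n` and a label of `I`. -/
def inP (I : List ℕ) (n x y : ℕ) : Bool :=
  (Nat.beq x n && I.any (Nat.beq y)) || (Nat.beq y n && I.any (Nat.beq x))

/-- The state. -/
structure StM where
  adj : ℕ
  ne : ℕ
  na : ℕ
  cn : List (ℕ × ℕ)

/-- The facts are true. -/
structure StM.Ok {V : Type} (G : SimpleGraph V) (I : List ℕ) (b : ℕ) (f : ℕ → V) (s : StM) :
    Prop where
  adj : ∀ x y, lk b s.adj x y = true → G.Adj (f x) (f y)
  ne : ∀ x y, lk b s.ne x y = true → f x ≠ f y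
  na : ∀ x y, lk b s.na x y = true → ¬ G.Adj (f x) (f y)
  cn : ∀ e ∈ s.cn, ∀ w, (∀ k ∈ I, w ≠ f k) → G.Adj (f e.1) w → G.Adj (f e.2) w → False

/-- One step. -/
def stepM (F : List (ℕ × ℕ × ℕ)) (I : List ℕ) (b : ℕ) (s : StM) : StepL → Option StM
  | .ne i j c => cond (Nat.ble (Nat.succ i) b && (Nat.ble (Nat.succ j) b &&
      refP F (idP b s.adj i j) (idP b s.ne i j) (idP b s.na i j) c))
      (some ⟨s.adj, stP s.ne i j, s.na, s.cn⟩) none
  | .na i j c => cond (Nat.ble (Nat.succ i) b && (Nat.ble (Nat.succ j) b &&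
      refP F (adP b s.adj i j) (adP b s.ne i j) (lk b s.na) c))
      (some ⟨s.adj, s.ne, stP s.na i j, s.cn⟩) none
  | .cn i j n c => cond (Nat.ble (Nat.succ i) b && (Nat.ble (Nat.succ j) b && (Nat.beq n b &&
      (belowF b F && refP F (cmP b s.adj i j n)
        (fun x y => cmP b s.ne i j n x y || inP I n x y) (lk b s.na) c))))
      (some ⟨s.adj, s.ne, s.na, (i, j) :: s.cn⟩) none

section sound

variable {V : Type} {G : SimpleGraph V} {f : ℕ → V} {I : List ℕ} {b : ℕ}

theorem idP_sound {m i j : ℕ} {P : V → V → Prop} (h : ∀ x y, lk b m x y = true → P (f x) (f y))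
    (hij : f i = f j) (x y : ℕ) (hx : idP b m i j x y = true) : P (f x) (f y) := by
  unfold idP at hx
  rw [Bool.or_eq_true, Bool.or_eq_true, Bool.and_eq_true, Bool.and_eq_true] at hx
  rcases hx with h1 | ⟨h1, h2⟩ | ⟨h1, h2⟩
  · exact h _ _ h1
  · rw [Nat.eq_of_beq_eq_true h1, hij]
    exact h _ _ h2
  · rw [Nat.eq_of_beq_eq_true h1, hij]
    exact h _ _ h2

theorem adP_sound {m i j : ℕ} {P : V → V → Prop} (h : ∀ x y, lk b m x y = true → P (f x) (f y))
    (h1 : P (f i) (f j)) (h2 : P (f j) (f i)) (x y : ℕ) (hx : adP b m i j x y = true) :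
    P (f x) (f y) := by
  unfold adP at hx
  rw [Bool.or_eq_true, Bool.or_eq_true, Bool.and_eq_true, Bool.and_eq_true] at hx
  rcases hx with h3 | ⟨h3, h4⟩ | ⟨h3, h4⟩
  · exact h _ _ h3
  · rw [Nat.eq_of_beq_eq_true h3, Nat.eq_of_beq_eq_true h4]
    exact h1
  · rw [Nat.eq_of_beq_eq_true h3, Nat.eq_of_beq_eq_true h4]
    exact h2

theorem cmP_sound {m i j : ℕ} {P : V → V → Prop} (hP : ∀ u v, P u v → P v u)
    (h : ∀ x y, lk b m x y = true → P (f x) (f y)) (hi : i < b) (hj : j < b) {w : V}
    (h1 : P (f i) w) (h2 : P (f j) w) (x y : ℕ) (hx : cmP b m i j b x y = true) :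
    P (if x = b then w else f x) (if y = b then w else f y) := by
  unfold cmP at hx
  simp only [Bool.or_eq_true, Bool.and_eq_true] at hx
  rcases hx with h3 | ⟨h3, h4 | h4⟩ | ⟨h3, h4 | h4⟩
  · have h5 := lk_spec h3
    rw [if_neg (by omega), if_neg (by omega)]
    exact h _ _ h3
  · rw [Nat.eq_of_beq_eq_true h3, Nat.eq_of_beq_eq_true h4, if_pos rfl, if_neg (by omega)]
    exact hP _ _ h1
  · rw [Nat.eq_of_beq_eq_true h3, Nat.eq_of_beq_eq_true h4, if_pos rfl, if_neg (by omega)]
    exact hP _ _ h2
  · rw [Nat.eq_of_beq_eq_true h3, Nat.eq_of_beq_eq_true h4, if_pos rfl, if_neg (by omega)]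
    exact h1
  · rw [Nat.eq_of_beq_eq_true h3, Nat.eq_of_beq_eq_true h4, if_pos rfl, if_neg (by omega)]
    exact h2

theorem lk_stP {m i j x y : ℕ} (hb : b ≤ 32) (hi : i < b) (hj : j < b)
    (h : lk b (stP m i j) x y = true) :
    lk b m x y = true ∨ (x = i ∧ y = j) ∨ (x = j ∧ y = i) := by
  obtain ⟨h1, h2, h3⟩ := lk_spec h
  rcases bt_stP (by omega) (by omega) (by omega) h3 with h4 | h4
  · left
    unfold lk
    rw [Bool.and_eq_true, Bool.and_eq_true, Nat.ble_eq, Nat.ble_eq]
    exact ⟨h1, h2, h4⟩
  · exact Or.inr h4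

theorem stepM_sound (hG : Cls G) {F : List (ℕ × ℕ × ℕ)} (hI : ∀ k ∈ I, k < b) (hb : b ≤ 32)
    {s s' : StM} (hF : No5 G F f) (h : s.Ok G I b f) {t : StepL}
    (hs : stepM F I b s t = some s') : s'.Ok G I b f := by
  cases t with
  | ne i j c =>
    unfold stepM at hs
    cases hc : (Nat.ble (Nat.succ i) b && (Nat.ble (Nat.succ j) b &&
      refP F (idP b s.adj i j) (idP b s.ne i j) (idP b s.na i j) c))
    · simp [hc] at hs
    · simp only [hc, cond_true, Option.some.injEq] at hs
      subst hs
      rw [Bool.and_eq_true, Bool.and_eq_true, Nat.ble_eq, Nat.ble_eq] at hc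
      obtain ⟨h1, h2, h3⟩ := hc
      have h4 : f i ≠ f j := fun hij => refP_sound hG hF
        (idP_sound (P := fun u v => G.Adj u v) h.adj hij)
        (idP_sound (P := fun u v => u ≠ v) h.ne hij)
        (idP_sound (P := fun u v => ¬ G.Adj u v) h.na hij) h3
      refine ⟨h.adj, fun x y hx => ?_, h.na, h.cn⟩
      rcases lk_stP hb h1 h2 hx with h5 | ⟨rfl, rfl⟩ | ⟨rfl, rfl⟩
      · exact h.ne _ _ h5
      · exact h4
      · exact h4.symm
  | na i j c =>
    unfold stepM at hs
    cases hc : (Nat.ble (Nat.succ i) b && (Nat.ble (Nat.succ j) b &&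
      refP F (adP b s.adj i j) (adP b s.ne i j) (lk b s.na) c))
    · simp [hc] at hs
    · simp only [hc, cond_true, Option.some.injEq] at hs
      subst hs
      rw [Bool.and_eq_true, Bool.and_eq_true, Nat.ble_eq, Nat.ble_eq] at hc
      obtain ⟨h1, h2, h3⟩ := hc
      have h4 : ¬ G.Adj (f i) (f j) := fun hij => refP_sound hG hF
        (adP_sound (P := fun u v => G.Adj u v) h.adj hij hij.symm)
        (adP_sound (P := fun u v => u ≠ v) h.ne hij.ne hij.ne.symm) h.na h3
      refine ⟨h.adj, h.ne, fun x y hx => ?_, h.cn⟩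
      rcases lk_stP hb h1 h2 hx with h5 | ⟨rfl, rfl⟩ | ⟨rfl, rfl⟩
      · exact h.na _ _ h5
      · exact h4
      · exact fun h5 => h4 h5.symm
  | cn i j n c =>
    unfold stepM at hs
    cases hc : (Nat.ble (Nat.succ i) b && (Nat.ble (Nat.succ j) b && (Nat.beq n b &&
      (belowF b F && refP F (cmP b s.adj i j n)
        (fun x y => cmP b s.ne i j n x y || inP I n x y) (lk b s.na) c))))
    · simp [hc] at hs
    · simp only [hc, cond_true, Option.some.injEq] at hs
      subst hs
      simp only [Bool.and_eq_true, Nat.ble_eq] at hc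
      obtain ⟨h1, h2, h3, h7, h8⟩ := hc
      have hn := Nat.eq_of_beq_eq_true h3
      subst hn
      refine ⟨h.adj, h.ne, h.na, fun e he => ?_⟩
      rcases List.mem_cons.1 he with rfl | he
      · intro w hw hiw hjw
        refine refP_sound hG (F := F) (f := fun x => if x = n then w else f x) ?_ ?_ ?_ ?_ h8
        · intro e he x y
          unfold belowF at h7
          rw [List.all_eq_true] at h7
          have h9 := h7 e he
          simp only [Bool.and_eq_true, Nat.blt_eq] at h9
          obtain ⟨⟨k1, k2⟩, k3⟩ := h9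
          show ¬ NB G [if e.1 = n then w else f e.1, if e.2.1 = n then w else f e.2.1,
            if e.2.2 = n then w else f e.2.2, x, y]
          rw [if_neg (by omega), if_neg (by omega), if_neg (by omega)]
          exact hF e he x y
        · exact cmP_sound (P := fun u v => G.Adj u v) (fun _ _ k => SimpleGraph.Adj.symm k) h.adj h1 h2 hiw
            hjw
        · intro x y hx
          rw [Bool.or_eq_true] at hx
          rcases hx with hx | hx
          · exact cmP_sound (P := fun u v => u ≠ v) (fun _ _ k => Ne.symm k) h.ne h1 h2 hiw.ne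
              hjw.ne x y hx
          · unfold inP at hx
            rw [Bool.or_eq_true, Bool.and_eq_true, Bool.and_eq_true, List.any_eq_true,
              List.any_eq_true] at hx
            rcases hx with ⟨k1, k, hk, k2⟩ | ⟨k1, k, hk, k2⟩
            · have k3 := hI k hk
              rw [Nat.eq_of_beq_eq_true k1, Nat.eq_of_beq_eq_true k2]
              show (if n = n then w else f n) ≠ (if k = n then w else f k)
              rw [if_pos rfl, if_neg (by omega)]
              exact hw k hk
            · have k3 := hI k hk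
              rw [Nat.eq_of_beq_eq_true k1, Nat.eq_of_beq_eq_true k2]
              show (if k = n then w else f k) ≠ (if n = n then w else f n)
              rw [if_pos rfl, if_neg (by omega)]
              exact (hw k hk).symm
        · intro x y hx
          have h5 := lk_spec hx
          show ¬ G.Adj (if x = n then w else f x) (if y = n then w else f y)
          rw [if_neg (by omega), if_neg (by omega)]
          exact h.na _ _ hx
      · exact h.cn _ he

/-- All steps. -/
def runM (F : List (ℕ × ℕ × ℕ)) (I : List ℕ) (b : ℕ) : List StepL → StM → Option StM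
  | [], s => some s
  | t :: ts, s => match stepM F I b s t with
    | none => none
    | some s' => runM F I b ts s'

theorem runM_sound (hG : Cls G) {F : List (ℕ × ℕ × ℕ)} (hI : ∀ k ∈ I, k < b) (hb : b ≤ 32)
    (hF : No5 G F f) :
    ∀ (ts : List StepL) (s s' : StM), s.Ok G I b f → runM F I b ts s = some s' → s'.Ok G I b f
  | [], s, s', h, hs => by
    have : s = s' := by simpa [runM] using hs
    exact this ▸ h
  | t :: ts, s, s', h, hs => by
    unfold runM at hs
    split at hs
    · exact absurd hs (by simp)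
    · rename_i s1 h1
      exact runM_sound hG hI hb hF ts s1 s' (stepM_sound hG hI hb hF h h1) hs

end sound

/-- The initial state. -/
def startM (ed : List (ℕ × ℕ)) (I : List ℕ) : StM :=
  ⟨maskP ed 0, maskP (St.start ed I).ne 0, 0, []⟩

theorem startM_ok {V : Type} {G : SimpleGraph V} {ed : List (ℕ × ℕ)} {I : List ℕ} {f : ℕ → V}
    (h : Copy G ed I f) {b : ℕ} (hb : b ≤ 32) (h1 : below 32 (St.start ed I).ne = true) :
    (startM ed I).Ok G I b f := by
  have h2 : below 32 ed = true := by
    unfold below St.start at h1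
    rw [List.all_append, Bool.and_eq_true] at h1
    exact h1.1
  refine ⟨fun x y hx => ?_, fun x y hx => ?_, fun x y hx => ?_, fun e he => ?_⟩
  · obtain ⟨k1, k2, k3⟩ := lk_spec hx
    rcases bt_maskP ed 0 h2 (by omega) k3 with k4 | k4 | k4
    · rw [bt_zero] at k4
      exact absurd k4 (by simp)
    · exact h.adj _ k4
    · exact (h.adj _ k4).symm
  · obtain ⟨k1, k2, k3⟩ := lk_spec hx
    rcases bt_maskP _ 0 h1 (by omega) k3 with k4 | k4 | k4
    · rw [bt_zero] at k4
      exact absurd k4 (by simp)
    · exact h.start.2.1 _ k4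
    · exact (h.start.2.1 _ k4).symm
  · have k3 := (lk_spec hx).2.2
    rw [show (startM ed I).na = 0 from rfl, bt_zero] at k3
    exact absurd k3 (by simp)
  · simp [startM] at he

end Msk

open Msk

/-- The whole check: all steps succeed, then all old labels are different except for the pairs of
`co`, the pairs `com` have no common neighbour outside and the pairs `bad` are not adjacent. -/
def finL (R : Red) (nl co com bad : List (ℕ × ℕ)) (F : List (ℕ × ℕ × ℕ)) (ts : List StepL) :
    Bool :=
  Nat.ble (R.t + R.m) 32 && (below 32 (St.start R.ed (inner R)).ne &&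
  match runM F (inner R) (R.t + R.m) ts (startM R.ed (inner R)) with
  | none => false
  | some s' => ((pairs (olds R nl)).all fun e => lk (R.t + R.m) s'.ne e.1 e.2 || has co e.1 e.2) &&
      ((com.all fun e => has s'.cn e.1 e.2) && (bad.all fun e => lk (R.t + R.m) s'.na e.1 e.2)))

/-- **Patches from tables and certificates.** -/
theorem patch_of (hG : Cls G) {R : Red}
    {nl co com bad : List (ℕ × ℕ)} {F : List (ℕ × ℕ × ℕ)} {ts : List StepL} {f : ℕ → V}
    {N : List (ℕ × ℕ × ℕ × ℕ)} (ht : TabOk G f N) (hc : chk R.ed (inner R) N = true)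
    (hF : No5 G F f) (hf : finL R nl co com bad F ts = true) : Patch G R nl co com bad f := by
  obtain ⟨h1, h2⟩ := copy_of_tab ht hc
  unfold finL at hf
  rw [Bool.and_eq_true, Bool.and_eq_true, Nat.ble_eq] at hf
  obtain ⟨hb, hbel, hf⟩ := hf
  split at hf
  · exact absurd hf (by simp)
  · rename_i s' hs
    rw [Bool.and_eq_true, Bool.and_eq_true, List.all_eq_true, List.all_eq_true,
      List.all_eq_true] at hf
    have h' := runM_sound hG (fun k hk => (mem_inner.1 hk).2) hb hF ts _ s'
      (startM_ok h1 hb hbel) hs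
    obtain ⟨k1, k2, k3⟩ := hf
    have key : ∀ i j, Real R nl [] i → Real R nl [] j → i < j → f i = f j → Same co i j := by
      intro i j hi hj hij hfij
      have h3 := k1 (i, j) (mem_pairs (List.Pairwise.filter _ List.pairwise_lt_range)
        (mem_olds hi) (mem_olds hj) hij)
      rw [Bool.or_eq_true] at h3
      rcases h3 with h3 | h3
      · exact absurd hfij (h'.ne _ _ h3)
      · rcases has_spec h3 with h4 | h4
        · exact Or.inr (Or.inl h4)
        · exact Or.inr (Or.inr h4)
    refine ⟨?_, h1.adj, ?_, ?_, fun e he => h'.na _ _ (k3 e he)⟩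
    · intro i j hi hj hij
      rcases lt_trichotomy i j with h3 | h3 | h3
      · exact key i j hi hj h3 hij
      · exact Or.inl h3
      · exact (key j i hj hi h3 hij.symm).symm
    · intro i hi hi' w hw
      obtain ⟨j, hj, hwj⟩ := h2 i (mem_inner.2 ⟨hi, hi'⟩) w hw
      exact ⟨j, nbs_mem hj, hwj⟩
    · intro p hp w hw ⟨h3, h4⟩
      have h5 := k2 p hp
      have h6 : ∀ k ∈ inner R, w ≠ f k := fun k hk h7 => hw (by
        obtain ⟨h8, h9⟩ := mem_inner.1 hk
        exact ⟨k, h8, h9, h7.symm⟩)
      rcases has_spec h5 with h7 | h7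
      · exact h'.cn _ h7 w h6 h3 h4.symm
      · exact h'.cn _ h7 w h6 h4.symm h3

end Pool.Agent.U2Geo
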