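import Mathlib
import Pool.Agent.Work.MP_392c8e_co_uni.SideL

/-!
# Corners of faces which have not length five
-/

namespace Pool.Agent.U2Geo

open Finset Pool.Agent.Sub392 Pool.T1Side Pool.Agent.T392 Pool.Agent.T1FF Pool.Agent.T1Red

set_option linter.unusedSectionVars false

variable {V : Type} [Fintype V] [DecidableEq V] {G : SimpleGraph V} [DecidableRel G.Adj]
  {R : Rot G}

/-- A closed walk of length at most seven through a corner of a face has the length of the face. -/
theorem C5.corner_sz (h : C5 R) (d : G.Dart) {l : List V}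
    (h1 : NB G (X R d 0 :: X R d 1 :: X R d 2 :: l)) (hl : l.length ≤ 4) :
    sz R d = l.length + 3 := by
  set L := X R d 0 :: X R d 1 :: X R d 2 :: l with hL
  have e1 : L.length = l.length + 3 := rfl
  have : NeZero L.length := ⟨by rw [e1]; omega⟩
  obtain ⟨ha, hb⟩ := cw_spec (by omega) h1 (X R d 0)
  have g0 : cw L (X R d 0) 0 = X R d 0 := by
    have := cw_nat (L := L) (X R d 0) (i := 0) (by omega)
    rw [Nat.cast_zero] at this
    exact this
  have g1 : cw L (X R d 0) 1 = X R d 1 := by
    have := cw_nat (L := L) (X R d 0) (i := 1) (by omega)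
    rw [Nat.cast_one] at this
    exact this
  have g2 : cw L (X R d 0) 2 = X R d 2 := by
    have := cw_nat (L := L) (X R d 0) (i := 2) (by omega)
    rw [Nat.cast_ofNat] at this
    exact this
  obtain ⟨h3, -⟩ := h.geo.corner (by omega) (fun hB => h.not_bad (hB.mono (by omega)))
    (cw L (X R d 0)) ha hb d (by rw [g0]; rfl) (by
      rw [g1, ← snd_pow]; rfl) (by
      rw [g2, ← snd_pow]
      rw [pow_one]) (h.cub _)
  rw [h3, e1]

/-- No closed walk of length five through the corner at the first end. -/
theorem C5.no5 (h : C5 R) (d : G.Dart) (hd : sz R d ≠ 5) (x y : V) :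
    ¬ NB G [X R d 0, X R d 1, X R d 2, x, y] := fun h1 => hd (h.corner_sz d (l := [x, y]) h1 (by simp))

/-- The corner of the face across an edge, at the first end of the edge. -/
theorem C5.no5a (h : C5 R) (p : G.Dart) (k : ℕ) (hd : sz R (ac R p k) ≠ 5) (x y : V) :
    ¬ NB G [X R p (k + 1), X R p k, Y R p k, x, y] := by
  have := h.no5 (ac R p k) hd x y
  rwa [ac_X0, ac_X1, ac_X2] at this

/-- The corner of the face across an edge, at the second end of the edge. -/
theorem C5.no5b (h : C5 R) (p : G.Dart) (k : ℕ) (hd : sz R (ac R p k) ≠ 5) (x y : V) :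
    ¬ NB G [Y R p (k + 1), X R p (k + 1), X R p k, x, y] := by
  -- the previous dart of the face across
  set q : G.Dart := (R.rot ((R.next ^ (k + 1)) p)).symm with hq
  have h1 : R.next q = ac R p k := by
    have h2 : R.next q = R.rot (R.rot ((R.next ^ (k + 1)) p)) := by
      rw [R.rot_eq (R.rot ((R.next ^ (k + 1)) p))]
    rw [h2]
    have h3 : (R.next ^ (k + 1)) p = R.next ((R.next ^ k) p) := by
      rw [pow_succ', Equiv.Perm.mul_apply]
    rw [h3, next_rot2 R (h.cub _)]
    rfl
  have h2 : sz R q ≠ 5 := by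
    rw [← sz_next, h1]
    exact hd
  have h3 := h.no5 q h2 x y
  have e0 : X R q 0 = Y R p (k + 1) := rfl
  have e1 : X R q 1 = X R p (k + 1) := by
    rw [← snd_pow R q 0]
    show (R.rot ((R.next ^ (k + 1)) p)).fst = _
    rw [R.fst_rot]
    rfl
  have e2 : X R q 2 = X R p k := by
    rw [← snd_pow R q 1, pow_one, h1]
    rfl
  rwa [e0, e1, e2] at h3

end Pool.Agent.U2Geo
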