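import Mathlib
import Pool.Agent.Work.MP_392c8e_co_uni.ClusterM2

/-!
# Chains of three faces of length five and long faces

Abstract form as in `ChainClosure`; a face is long when its length is at least `K`.  A line of the
table carries the condition that the place is good: no two long faces are merged (for the zigzag
one pair may be).
-/

namespace Pool.Agent.U2Chain

section Defs

variable {D : Type*} (K : ℕ) (al n p : D → D) (s : D → ℕ)

/-- Chain, good for the long faces (`m2`). -/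
def GC2 (d : D) : Prop :=
  CC al n p s d ∧
    ¬ (K ≤ s (al (p (p (al d)))) ∧ K ≤ s (al (p d))) ∧
    ¬ (K ≤ s (al (p (p (al (n (n d)))))) ∧ K ≤ s (al (n (n (al (n (n d))))))) ∧
    ¬ (K ≤ s (al (p (p d))) ∧ K ≤ s (al (n d)))

/-- Chain, `m3`; the faces `F`, `O1`, `O2` are not long. -/
def GC3 (d : D) : Prop :=
  (s d = 5 ∧ s (al d) = 5 ∧ s (al (n (n d))) = 5 ∧ s (al (n (n (al d)))) ≠ 5 ∧
    s (al (p (p (al (n (n d)))))) ≠ 5) ∧
    s (al (n d)) < K ∧ s (al (p d)) < K ∧ s (al (p (p d))) < K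

/-- Chain, `m6`; the faces `F`, `O1`, `O2`, `O3` are not long. -/
def GC6 (d : D) : Prop :=
  (s d = 5 ∧ s (al d) = 5 ∧ s (al (n (n d))) = 5 ∧ s (al (n (n (al d)))) ≠ 5 ∧
    s (al (n (n (al (n (n d)))))) ≠ 5) ∧
    s (al (n d)) < K ∧ s (al (p d)) < K ∧ s (al (p (p d))) < K ∧
    s (al (p (p (al (n (n d)))))) < K

/-- The long pairs of a zigzag: `F` and `O2`. -/
def pA (d : D) : Prop := K ≤ s (al (n d)) ∧ K ≤ s (al (p (p d)))

/-- The long pairs of a zigzag: `R` and `O3`. -/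
def pB (d : D) : Prop :=
  K ≤ s (al (n (n (al (n (n d)))))) ∧ K ≤ s (al (p (p (al (n (n d))))))

/-- The long pairs of a zigzag: `O1` and `L`. -/
def pC (d : D) : Prop := K ≤ s (al (p d)) ∧ K ≤ s (al (p (p (al d))))

/-- The long pairs of a zigzag: the two outer faces of `O0`. -/
def pE (d : D) : Prop :=
  K ≤ s (al (n (n (al (n (n (al d))))))) ∧ K ≤ s (al (p (p (al (n (n (al d)))))))

/-- Zigzag, good for the long faces: at most one of the four pairs is long. -/
def GZ (d : D) : Prop :=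
  ZZ al n p s d ∧ ¬ (pA K al n p s d ∧ pB K al n p s d) ∧ ¬ (pA K al n p s d ∧ pC K al p s d) ∧
    ¬ (pA K al n p s d ∧ pE K al n p s d) ∧ ¬ (pB K al n p s d ∧ pC K al p s d) ∧
    ¬ (pB K al n p s d ∧ pE K al n p s d) ∧ ¬ (pC K al p s d ∧ pE K al n p s d)

/-- Some good reducer applies at `d`. -/
def GRed (d : D) : Prop :=
  (GC2 K al n p s d ∨ GC2 K al p n s d) ∨ (GC3 K al n p s d ∨ GC3 K al p n s d) ∨
    (GC6 K al n p s d ∨ GC6 K al p n s d) ∨ (GZ K al n p s d ∨ GZ K al p n s d) ∨ FF al n p s d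

end Defs

variable {D : Type*} {K : ℕ} {al n p : D → D} {s : D → ℕ}

theorem GRed.swap {d : D} (h : GRed K al n p s d) : GRed K al p n s d := by
  rcases h with h | h | h | h | h
  · exact Or.inl h.symm
  · exact Or.inr (Or.inl h.symm)
  · exact Or.inr (Or.inr (Or.inl h.symm))
  · exact Or.inr (Or.inr (Or.inr (Or.inl h.symm)))
  · obtain ⟨h1, h2, h3, h4, h5, h6⟩ := h
    exact Or.inr (Or.inr (Or.inr (Or.inr ⟨h1, h2, h6, h5, h4, h3⟩)))

theorem GC2.red {d : D} (h : GC2 K al n p s d) : GRed K al n p s d := Or.inl (Or.inl h)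

theorem GC2.red' {d : D} (h : GC2 K al p n s d) : GRed K al n p s d := Or.inl (Or.inr h)

theorem GC3.red {d : D} (h : GC3 K al n p s d) : GRed K al n p s d := Or.inr (Or.inl (Or.inl h))

theorem GC6.red {d : D} (h : GC6 K al n p s d) : GRed K al n p s d :=
  Or.inr (Or.inr (Or.inl (Or.inl h)))

theorem GZ.red {d : D} (h : GZ K al n p s d) : GRed K al n p s d :=
  Or.inr (Or.inr (Or.inr (Or.inl (Or.inl h))))

theorem GZ.red' {d : D} (h : GZ K al p n s d) : GRed K al n p s d :=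
  Or.inr (Or.inr (Or.inr (Or.inl (Or.inr h))))

theorem FF.gred {d : D} (h : FF al n p s d) : GRed K al n p s d :=
  Or.inr (Or.inr (Or.inr (Or.inr h)))

/-- At least two of the three pairs of conditions. -/
def Two (a b c : Prop) : Prop := (a ∧ b) ∨ (a ∧ c) ∨ (b ∧ c)

/-- The zigzags for a chain with `O0 = O3 = 5`, when `O1`, `O2` are not long. -/
theorem gcaseB (h : Mp al n p s) (hK : 6 ≤ K) {e : D} (h5 : s e = 5) (h0 : s (al e) = 5)
    (h2 : s (al (n (n e))) = 5) (hO0 : s (al (n (n (al e)))) = 5)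
    (hO3 : s (al (p (p (al (n (n e)))))) = 5)
    (k1 : s (al (p e)) < K) (k2 : s (al (p (p e))) < K) :
    ∃ d, Nr al n p 4 e d ∧ GRed K al n p s d := by
  have n4 : n (n (n (n e))) = p e := by rw [h.five e h5, h.n_p]
  -- the zigzag P3 P2 P1 O0
  by_cases z1 : (s (al (n e)) = 5 → s (al (p (p e))) ≠ 5) ∧
      (s (al (n (al e))) = 5 → s (al (p (p (al e)))) ≠ 5)
  · refine ⟨e, nr_refl _ _, GZ.red ⟨⟨h5, h0, h2, hO0, z1.1, z1.2⟩, ?_, ?_, ?_, ?_, ?_, ?_⟩⟩ <;>
      simp only [pA, pB, pC, pE] <;> omega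
  -- the zigzag P1 P2 P3 O3
  by_cases z2 : (s (al (n e)) = 5 → s (al (p e)) ≠ 5) ∧
      (s (al (p (p e))) = 5 → s (al (n (n (al (n (n e)))))) ≠ 5)
  · have c1 : s (al (p (n (n e)))) = s (al (n e)) := by rw [h.p_n]
    have c2 : s (al (n (n (n (n e))))) = s (al (p e)) := by rw [n4]
    have c3 : s (al (p (p (n (n e))))) = 5 := by rw [h.p_n, h.p_n]; exact h0
    have c4 : s (al (n (n (al (p (p (n (n e)))))))) = 5 := by rw [h.p_n, h.p_n]; exact hO0
    have c5 : s (al (n (n (n e)))) = s (al (p (p e))) := by rw [h.five e h5]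
    have c6 : s (al (p (al (n (n e))))) = s (al (p (p e))) := by rw [h.s2, h.five e h5]
    refine ⟨n (n e), nr_mono (nr_n (nr_n (nr_refl 0 e))) (by norm_num),
      GZ.red' ⟨⟨?_, h2, c3, hO3, ?_, ?_⟩, ?_, ?_, ?_, ?_, ?_, ?_⟩⟩
    · rw [h.s_n, h.s_n]; exact h5
    · intro h6
      rw [c1] at h6
      rw [c2]
      exact z2.1 h6
    · intro h6
      rw [c6] at h6
      exact z2.2 h6
    all_goals
      simp only [pA, pB, pC, pE, c1, c2, c4, c5]
      omega
  rw [h.s1] at z1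
  -- flowers
  have fe : s (al (n e)) = 5 → s (al (p (p e))) = 5 → s (al (p e)) = 5 →
      ∃ d, Nr al n p 4 e d ∧ GRed K al n p s d := fun a b c =>
    ⟨e, nr_refl _ _, FF.gred ⟨h5, h0, a, h2, b, c⟩⟩
  have fy : s (al (n e)) = 5 → s (al (p (p e))) = 5 → s (al (n (n (al (n (n e)))))) = 5 →
      ∃ d, Nr al n p 4 e d ∧ GRed K al n p s d := by
    intro a b c
    refine ⟨al (n (n e)), nr_mono (nr_al (nr_n (nr_n (nr_refl 0 e)))) (by norm_num),
      FF.gred ⟨h2, ?_, ?_, c, hO3, ?_⟩⟩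
    · rw [h.al_al, h.s_n, h.s_n]; exact h5
    · rw [h.s1, h.p_n]; exact a
    · rw [h.s2, h.five e h5]; exact b
  have fx : s (al (n e)) = 5 → s (al (p e)) = 5 → s (al (p (p (al e)))) = 5 →
      ∃ d, Nr al n p 4 e d ∧ GRed K al n p s d := by
    intro a b c
    refine ⟨al e, nr_mono (nr_al (nr_refl 0 e)) (by norm_num),
      FF.gred ⟨h0, ?_, ?_, hO0, c, ?_⟩⟩
    · rw [h.al_al]; exact h5
    · rw [h.s1]; exact b
    · rw [h.s2]; exact a
  by_cases hF : s (al (n e)) = 5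
  · by_cases hO2 : s (al (p (p e))) = 5
    · by_cases hO1 : s (al (p e)) = 5
      · exact fe hF hO2 hO1
      · by_cases hR : s (al (n (n (al (n (n e)))))) = 5
        · exact fy hF hO2 hR
        · exact absurd ⟨fun _ => hO1, fun _ => hR⟩ z2
    · by_cases hO1 : s (al (p e)) = 5
      · by_cases hL : s (al (p (p (al e)))) = 5
        · exact fx hF hO1 hL
        · exact absurd ⟨fun _ => hO2, fun _ => hL⟩ z1
      · exact absurd ⟨fun _ => hO2, fun hh => absurd hh hO1⟩ z1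
  · -- `O1 = L = O2 = R = 5`
    have hO1 : s (al (p e)) = 5 := by
      by_contra hh
      exact z1 ⟨fun h6 => absurd h6 hF, fun h6 => absurd h6 hh⟩
    have hO2 : s (al (p (p e))) = 5 := by
      by_contra hh
      exact z2 ⟨fun h6 => absurd h6 hF, fun h6 => absurd h6 hh⟩
    have w0 : s (p (p e)) = 5 := by rw [h.s_p, h.s_p]; exact h5
    have w1 : s (al (n (al (p (p e))))) = 5 := by rw [h.s1, h.five' e h5]; exact h2
    have w2 : s (al (n (n (al (p (p e)))))) = 5 := by rw [h.z2 h5]; exact hO3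
    have w4 : s (al (p (al (p (p e))))) = 5 := by rw [h.s2, h.n_p]; exact hO1
    by_cases w3 : s (al (p (p (al (p (p e)))))) = 5
    · exact ⟨al (p (p e)), nr_mono (nr_al (nr_p (nr_p (nr_refl 0 e)))) (by norm_num),
        FF.gred ⟨hO2, by rw [h.al_al]; exact w0, w1, w2, w3, w4⟩⟩
    · have c1 : s (al (n (p (p e)))) = 5 := by rw [h.n_p]; exact hO1
      have c2 : s (al (n (n (p (p e))))) = 5 := by rw [h.n_p, h.n_p]; exact h0
      have c3 : s (al (n (n (al (n (n (p (p e)))))))) = 5 := by rw [h.n_p, h.n_p]; exact hO0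
      have c4 : s (al (p (p (p e)))) = 5 := by rw [h.five' e h5]; exact h2
      refine ⟨p (p e), nr_mono (nr_p (nr_p (nr_refl 0 e))) (by norm_num),
        GZ.red ⟨⟨w0, hO2, c2, w2, ?_, fun _ => w3⟩, ?_, ?_, ?_, ?_, ?_, ?_⟩⟩
      · intro _
        rw [h.five' e h5, h.p_n]
        exact hF
      all_goals
        simp only [pA, pB, pC, pE, c1, c3, c4]
        omega

/-- Case `O0 ≠ 5`, no long neighbour of `P2`. -/
theorem gcaseA (h : Mp al n p s) (hK : 6 ≤ K) {e : D} (h5 : s e = 5) (h0 : s (al e) = 5)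
    (h2 : s (al (n (n e))) = 5) (hO : s (al (n (n (al e)))) ≠ 5)
    (k0 : s (al (n e)) < K) (k1 : s (al (p e)) < K) (k2 : s (al (p (p e))) < K) :
    ∃ d, Nr al n p 4 e d ∧ GRed K al n p s d := by
  by_cases hO3 : s (al (p (p (al (n (n e)))))) = 5
  · by_cases hF : s (al (n e)) = 5 ∧ s (al (p (p e))) = 5
    · obtain ⟨hF, hO2⟩ := hF
      by_cases hR : s (al (n (n (al (n (n e)))))) = 5
      · refine ⟨al (n (n e)), nr_mono (nr_al (nr_n (nr_n (nr_refl 0 e)))) (by norm_num),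
          FF.gred ⟨h2, ?_, ?_, hR, hO3, ?_⟩⟩
        · rw [h.al_al, h.s_n, h.s_n]; exact h5
        · rw [h.s1, h.p_n]; exact hF
        · rw [h.s2, h.five e h5]; exact hO2
      · exact ⟨e, nr_refl _ _, GC6.red ⟨⟨h5, h0, h2, hO, hR⟩, k0, k1, k2, by omega⟩⟩
    · exact ⟨e, nr_refl _ _, GC2.red ⟨⟨h5, h0, h2, hO, fun h1 h3 => hF ⟨h1, h3⟩⟩, by omega,
        by omega, by omega⟩⟩
  · exact ⟨e, nr_refl _ _, GC3.red ⟨⟨h5, h0, h2, hO, hO3⟩, k0, k1, k2⟩⟩

/-- **A chain whose middle face has no long neighbour.** -/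
theorem chain_two (h : Mp al n p s) (hK : 6 ≤ K) {e : D} (h5 : s e = 5) (h0 : s (al e) = 5)
    (h2 : s (al (n (n e))) = 5)
    (k0 : s (al (n e)) < K) (k1 : s (al (p e)) < K) (k2 : s (al (p (p e))) < K) :
    ∃ d, Nr al n p 6 e d ∧ GRed K al n p s d := by
  by_cases hO0 : s (al (n (n (al e)))) = 5
  · by_cases hO3 : s (al (p (p (al (n (n e)))))) = 5
    · obtain ⟨d, h6, h7⟩ := gcaseB h hK h5 h0 h2 hO0 hO3 k1 k2
      exact ⟨d, nr_mono h6 (by norm_num), h7⟩
    · have n4 : n (n (n (n e))) = p e := by rw [h.five e h5, h.n_p]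
      obtain ⟨d, h6, h7⟩ := gcaseA h.swap hK (e := n (n e)) (by rw [h.s_n, h.s_n]; exact h5) h2
        (by rw [h.p_n, h.p_n]; exact h0) hO3 (by rw [h.p_n]; exact k0)
        (by rw [h.five e h5]; exact k2) (by rw [n4]; exact k1)
      exact ⟨d, nr_mono (nr_trans (nr_n (nr_n (nr_refl 0 e))) (nr_swap h6)) (by norm_num),
        h7.swap⟩
  · obtain ⟨d, h6, h7⟩ := gcaseA h hK h5 h0 h2 hO0 k0 k1 k2
    exact ⟨d, nr_mono h6 (by norm_num), h7⟩

/-- **A chain whose end `P1` has no long neighbour**: a good reducer applies near by or the other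
end has three long neighbours. -/
theorem chain_end (h : Mp al n p s) (hK : 6 ≤ K) {e : D} (h5 : s e = 5) (h0 : s (al e) = 5)
    (h2 : s (al (n (n e))) = 5)
    (k0 : s (al (n e)) < K) (k1 : s (al (p e)) < K) (kL : s (al (p (p (al e)))) < K) :
    (∃ d, Nr al n p 8 e d ∧ GRed K al n p s d) ∨
      (K ≤ s (al (p (p e))) ∧ K ≤ s (al (n (n (al (n (n e)))))) ∧
        K ≤ s (al (p (p (al (n (n e))))))) := by
  by_cases k2 : s (al (p (p e))) < K
  · obtain ⟨d, h6, h7⟩ := chain_two h hK h5 h0 h2 k0 k1 k2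
    exact Or.inl ⟨d, nr_mono h6 (by norm_num), h7⟩
  · by_cases hO0 : s (al (n (n (al e)))) = 5
    · -- the chain `P2 P1 O0`
      left
      have a1 : s (al (n (al e))) = s (al (p e)) := h.s1 e
      have a2 : s (al (p (al e))) = s (al (n e)) := h.s2 e
      obtain ⟨d, h6, h7⟩ := chain_two h hK (e := al e) h0 (by rw [h.al_al]; exact h5) hO0
        (by rw [a1]; exact k1) (by rw [a2]; exact k0) kL
      exact ⟨d, nr_mono (nr_trans (nr_al (nr_refl 0 e)) h6) (by norm_num), h7⟩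
    · by_cases h3 : K ≤ s (al (n (n (al (n (n e)))))) ∧ K ≤ s (al (p (p (al (n (n e))))))
      · right
        exact ⟨by omega, h3.1, h3.2⟩
      · left
        exact ⟨e, nr_refl _ _, GC2.red ⟨⟨h5, h0, h2, hO0, fun _ => by omega⟩, by omega, by omega,
          by omega⟩⟩

/-- The case `O0 ≠ 5`, `F` long. -/
theorem glongA (h : Mp al n p s) (hK : 6 ≤ K) {e : D} (h5 : s e = 5) (h0 : s (al e) = 5)
    (h2 : s (al (n (n e))) = 5) (hF : K ≤ s (al (n e))) (hO : s (al (n (n (al e)))) ≠ 5) :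
    (∃ d, Nr al n p 4 e d ∧ GRed K al n p s d) ∨
      Two (K ≤ s (al (p (p (al e)))) ∨ K ≤ s (al (n (n (al e)))) ∨ K ≤ s (al (p e)))
        (K ≤ s (al (p e)) ∨ K ≤ s (al (p (p e))))
        (K ≤ s (al (p (p e))) ∨ K ≤ s (al (p (p (al (n (n e)))))) ∨
          K ≤ s (al (n (n (al (n (n e))))))) := by
  by_cases hg : GC2 K al n p s e
  · exact Or.inl ⟨e, nr_refl _ _, hg.red⟩
  by_cases hg' : GC2 K al p n s (n (n e))
  · exact Or.inl ⟨n (n e), nr_mono (nr_n (nr_n (nr_refl 0 e))) (by norm_num), hg'.red'⟩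
  right
  have n4 : n (n (n (n e))) = p e := by rw [h.five e h5, h.n_p]
  have n3 : n (n (n e)) = p (p e) := h.five e h5
  unfold GC2 CC at hg hg'
  simp only [h.p_n, n3, h.n_p, h.s_n] at hg'
  unfold Two
  by_contra hcon
  by_cases k3 : s (al (p (p (al (n (n e)))))) = 5
  · apply hg
    refine ⟨⟨h5, h0, h2, hO, fun h1 => by omega⟩, ?_, ?_, ?_⟩ <;> omega
  · by_cases k4 : K ≤ s (al (p (p (al (n (n e)))))) ∧ K ≤ s (al (n (n (al (n (n e))))))
    · apply hg'
      refine ⟨⟨h5, h2, h0, k3, fun h1 => by omega⟩, ?_, ?_, ?_⟩ <;> omega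
    · apply hg
      refine ⟨⟨h5, h0, h2, hO, fun h1 => by omega⟩, ?_, ?_, ?_⟩ <;> omega

/-- **A chain along a long face**: a good reducer applies near by or at least two of the three faces
have a second long neighbour. -/
theorem chain_long (h : Mp al n p s) (hK : 6 ≤ K) {e : D} (h5 : s e = 5) (h0 : s (al e) = 5)
    (h2 : s (al (n (n e))) = 5) (hF : K ≤ s (al (n e))) :
    (∃ d, Nr al n p 6 e d ∧ GRed K al n p s d) ∨
      Two (K ≤ s (al (p (p (al e)))) ∨ K ≤ s (al (n (n (al e)))) ∨ K ≤ s (al (p e)))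
        (K ≤ s (al (p e)) ∨ K ≤ s (al (p (p e))))
        (K ≤ s (al (p (p e))) ∨ K ≤ s (al (p (p (al (n (n e)))))) ∨
          K ≤ s (al (n (n (al (n (n e))))))) := by
  by_cases hO0 : s (al (n (n (al e)))) = 5
  · by_cases hO3 : s (al (p (p (al (n (n e)))))) = 5
    · by_cases k1 : s (al (p e)) < K
      · by_cases k2 : s (al (p (p e))) < K
        · obtain ⟨d, h6, h7⟩ := gcaseB h hK h5 h0 h2 hO0 hO3 k1 k2
          exact Or.inl ⟨d, nr_mono h6 (by norm_num), h7⟩
        · right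
          unfold Two
          omega
      · right
        unfold Two
        omega
    · have n4 : n (n (n (n e))) = p e := by rw [h.five e h5, h.n_p]
      have n3 : n (n (n e)) = p (p e) := h.five e h5
      rcases glongA h.swap hK (e := n (n e)) (by rw [h.s_n, h.s_n]; exact h5) h2
        (by rw [h.p_n, h.p_n]; exact h0) (by rw [h.p_n]; exact hF) hO3 with ⟨d, h6, h7⟩ | hr
      · exact Or.inl ⟨d, nr_mono (nr_trans (nr_n (nr_n (nr_refl 0 e))) (nr_swap h6)) (by norm_num),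
          h7.swap⟩
      · right
        simp only [h.p_n, n3, h.n_p] at hr
        unfold Two at hr ⊢
        omega
  · rcases glongA h hK h5 h0 h2 hF hO0 with ⟨d, h6, h7⟩ | hr
    · exact Or.inl ⟨d, nr_mono h6 (by norm_num), h7⟩
    · exact Or.inr hr

end Pool.Agent.U2Chain
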