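import Mathlib
import Pool.Agent.Work.MP_392c8e_co_uni.ChainB
import Pool.Agent.Work.MP_392c8e_co_uni.BDefs

/-!
# Chains of three faces of length five and long faces: the lines of the table

The closure of `ChainB` for the darts of a cubic plane graph.  Notation of `Cluster`: the dart `d`
is a dart of `P2`; across it there is `F`, across the next edges `P3`, `O2`, `O1`, `P1`; the
neighbours of `P3` (dart `ad R d 1`) are `P2, F, Rr, O3, O2`, those of `P1` (dart `ad R d 4`) are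
`P2, O1, O0, L, F`.
-/

namespace Pool.Agent.DischB

open Finset Pool.Agent.Sub392 Pool.Agent.T392 Pool.Agent.Disch392 Pool.Agent.U2Chain

set_option linter.unusedSectionVars false

variable {V : Type} [Fintype V] [DecidableEq V] {G : SimpleGraph V} [DecidableRel G.Adj]

/-- No two of the four. -/
def One4 (a b c e : Prop) : Prop :=
  ¬ (a ∧ b) ∧ ¬ (a ∧ c) ∧ ¬ (a ∧ e) ∧ ¬ (b ∧ c) ∧ ¬ (b ∧ e) ∧ ¬ (c ∧ e)

/-- The lines of the table for chains, with the conditions for the long faces. -/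
structure TabBC (R : Rot G) (K : ℕ) (P : V → Prop) : Prop where
  m2 : ∀ d, Chain R d → nb R (ad R d 4) 2 ≠ 5 → ¬ (nb R d 0 = 5 ∧ nb R d 2 = 5) →
    ¬ (K ≤ nb R (ad R d 4) 3 ∧ K ≤ nb R d 3) →
    ¬ (K ≤ nb R (ad R d 1) 3 ∧ K ≤ nb R (ad R d 1) 2) →
    ¬ (K ≤ nb R d 2 ∧ K ≤ nb R d 0) → P d.fst
  m3 : ∀ d, Chain R d → nb R (ad R d 4) 2 ≠ 5 → nb R (ad R d 1) 3 ≠ 5 →
    nb R d 0 < K → nb R d 2 < K → nb R d 3 < K → P d.fst
  m6 : ∀ d, Chain R d → nb R (ad R d 4) 2 ≠ 5 → nb R (ad R d 1) 2 ≠ 5 →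
    nb R d 0 < K → nb R d 2 < K → nb R d 3 < K → nb R (ad R d 1) 3 < K → P d.fst
  flower : ∀ d, sz R d = 5 → (∀ i < 5, nb R d i = 5) → P d.fst
  z4 : ∀ d, Chain R d → nb R (ad R d 4) 2 = 5 → ¬ (nb R d 0 = 5 ∧ nb R d 2 = 5) →
    ¬ (nb R d 3 = 5 ∧ nb R (ad R d 4) 3 = 5) →
    One4 (K ≤ nb R d 0 ∧ K ≤ nb R d 2) (K ≤ nb R (ad R d 1) 2 ∧ K ≤ nb R (ad R d 1) 3)
      (K ≤ nb R d 3 ∧ K ≤ nb R (ad R d 4) 3)
      (K ≤ nb R (ad R (ad R d 4) 2) 2 ∧ K ≤ nb R (ad R (ad R d 4) 2) 3) → P d.fst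

variable {R : Rot G} {K : ℕ} {P : V → Prop}

section

variable {d : G.Dart}

theorem ad_next_four (h5 : sz R d = 5) : ad R (R.next d) 4 = d.symm := by
  show (R.next (R.next (R.next (R.next (R.next d))))).symm = _
  rw [next5 h5]

theorem chain_next (h5 : sz R d = 5) (h0 : sz R d.symm = 5)
    (h2 : sz R (R.next (R.next d)).symm = 5) : Chain R (R.next d) :=
  ⟨by rw [sz_next]; exact h5, h2, by
    show sz R (ad R (R.next d) 4) = 5
    rw [ad_next_four h5]; exact h0⟩

theorem nb_next_two (h5 : sz R d = 5) : nb R (R.next d) 2 = sz R (prev R (prev R d)).symm := by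
  rw [← prev25 h5]; rfl

theorem nb_next_three (h5 : sz R d = 5) : nb R (R.next d) 3 = sz R (prev R d).symm := by
  rw [← prev5 h5]; rfl

theorem nb_three (h5 : sz R d = 5) : nb R d 3 = sz R (prev R (prev R d)).symm := by
  rw [← prev25 h5]; rfl

theorem nb_four (h5 : sz R d = 5) : nb R d 4 = sz R (prev R d).symm := by
  rw [← prev5 h5]; rfl

end

theorem TabBC.g2 (hT : TabBC R K P) {d : G.Dart}
    (h : GC2 K SimpleGraph.Dart.symm R.next (prev R) (sz R) d) : P (R.next d).fst := by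
  obtain ⟨⟨h5, h0, h2, hO, hF⟩, k1, k2, k3⟩ := h
  refine hT.m2 (R.next d) (chain_next h5 h0 h2) ?_ ?_ ?_ ?_ ?_
  · rw [ad_next_four h5]; exact hO
  · rintro ⟨a, b⟩
    rw [nb_next_two h5] at b
    exact hF a b
  · rw [ad_next_four h5, nb_three h0, nb_next_three h5]
    exact k1
  · rw [nb_three (show sz R (ad R (R.next d) 1) = 5 from h2)]
    exact k2
  · rw [nb_next_two h5]
    exact k3

theorem TabBC.g3 (hT : TabBC R K P) {d : G.Dart}
    (h : GC3 K SimpleGraph.Dart.symm R.next (prev R) (sz R) d) : P (R.next d).fst := by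
  obtain ⟨⟨h5, h0, h2, hO, hO3⟩, k0, k3, k2⟩ := h
  refine hT.m3 (R.next d) (chain_next h5 h0 h2) ?_ ?_ k0 ?_ ?_
  · rw [ad_next_four h5]; exact hO
  · rw [nb_three (show sz R (ad R (R.next d) 1) = 5 from h2)]; exact hO3
  · rw [nb_next_two h5]; exact k2
  · rw [nb_next_three h5]; exact k3

theorem TabBC.g6 (hT : TabBC R K P) {d : G.Dart}
    (h : GC6 K SimpleGraph.Dart.symm R.next (prev R) (sz R) d) : P (R.next d).fst := by
  obtain ⟨⟨h5, h0, h2, hO, hR⟩, k0, k3, k2, k4⟩ := h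
  refine hT.m6 (R.next d) (chain_next h5 h0 h2) ?_ hR k0 ?_ ?_ ?_
  · rw [ad_next_four h5]; exact hO
  · rw [nb_next_two h5]; exact k2
  · rw [nb_next_three h5]; exact k3
  · rw [nb_three (show sz R (ad R (R.next d) 1) = 5 from h2)]; exact k4

theorem TabBC.gz (hT : TabBC R K P) (h3 : ∀ v, G.degree v = 3) {d : G.Dart}
    (h : GZ K SimpleGraph.Dart.symm R.next (prev R) (sz R) d) : P (R.next d).fst := by
  obtain ⟨⟨h5, h0, h2, hO, hF, hL⟩, q1, q2, q3, q4, q5, q6⟩ := h
  have x1 : nb R (R.next d) 2 = sz R (prev R (prev R d)).symm := nb_next_two h5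
  have x2 : nb R (R.next d) 3 = sz R (prev R d).symm := nb_next_three h5
  have x3 : nb R (ad R (R.next d) 4) 3 = sz R (prev R (prev R d.symm)).symm := by
    rw [ad_next_four h5, nb_three h0]
  have x4 : nb R (ad R (R.next d) 1) 3 =
      sz R (prev R (prev R (R.next (R.next d)).symm)).symm :=
    nb_three (show sz R (ad R (R.next d) 1) = 5 from h2)
  have x5 : nb R (ad R (ad R (R.next d) 4) 2) 3 =
      sz R (prev R (prev R (R.next (R.next d.symm)).symm)).symm := by
    rw [ad_next_four h5]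
    exact nb_three hO
  have x6 : nb R (ad R (ad R (R.next d) 4) 2) 2 =
      sz R (R.next (R.next (R.next (R.next d.symm)).symm)).symm := by
    rw [ad_next_four h5]; rfl
  have x7 : nb R (R.next d) 0 = sz R (R.next d).symm := rfl
  have x8 : nb R (ad R (R.next d) 1) 2 =
      sz R (R.next (R.next (R.next (R.next d)).symm)).symm := rfl
  simp only [pA, pB, pC, pE] at q1 q2 q3 q4 q5 q6
  refine hT.z4 (R.next d) (chain_next h5 h0 h2) ?_ ?_ ?_ ?_
  · rw [ad_next_four h5]; exact hO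
  · rintro ⟨a, b⟩
    rw [x1] at b
    exact hF a b
  · rintro ⟨a, b⟩
    rw [x2] at a
    rw [x3] at b
    exact hL (by rw [(mp h3).s1]; exact a) b
  · unfold One4
    rw [x1, x2, x3, x4, x5, x6, x7, x8]
    exact ⟨q1, q2, q3, q4, q5, q6⟩

/-! ### Mirror images -/

theorem gc2_mir {d : G.Dart}
    (h : GC2 K SimpleGraph.Dart.symm (prev R) R.next (sz R) d) :
    GC2 K SimpleGraph.Dart.symm (mir R).next (prev (mir R)) (sz (mir R)) d.symm := by
  unfold GC2 CC at h ⊢
  simp only [mir_next, mir_prev, sz_mir, SimpleGraph.Dart.symm_symm] at h ⊢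
  exact h

theorem gc3_mir {d : G.Dart}
    (h : GC3 K SimpleGraph.Dart.symm (prev R) R.next (sz R) d) :
    GC3 K SimpleGraph.Dart.symm (mir R).next (prev (mir R)) (sz (mir R)) d.symm := by
  unfold GC3 at h ⊢
  simp only [mir_next, mir_prev, sz_mir, SimpleGraph.Dart.symm_symm] at h ⊢
  exact h

theorem gc6_mir {d : G.Dart}
    (h : GC6 K SimpleGraph.Dart.symm (prev R) R.next (sz R) d) :
    GC6 K SimpleGraph.Dart.symm (mir R).next (prev (mir R)) (sz (mir R)) d.symm := by
  unfold GC6 at h ⊢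
  simp only [mir_next, mir_prev, sz_mir, SimpleGraph.Dart.symm_symm] at h ⊢
  exact h

theorem gz_mir {d : G.Dart}
    (h : GZ K SimpleGraph.Dart.symm (prev R) R.next (sz R) d) :
    GZ K SimpleGraph.Dart.symm (mir R).next (prev (mir R)) (sz (mir R)) d.symm := by
  unfold GZ ZZ pA pB pC pE at h ⊢
  simp only [mir_next, mir_prev, sz_mir, SimpleGraph.Dart.symm_symm] at h ⊢
  exact h

/-- **A good reducer gives a place.** -/
theorem TabBC.red (hT : TabBC R K P) (hT' : TabBC (mir R) K P) (h3 : ∀ v, G.degree v = 3)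
    {d : G.Dart} (hr : GRed K SimpleGraph.Dart.symm R.next (prev R) (sz R) d) :
    ∃ e, Near R 2 d e ∧ P e.fst := by
  have hn : Near R 2 d (R.next d) := ((Near.refl R 0 d).next).mono (by norm_num)
  have hmir : P ((mir R).next d.symm).fst → ∃ e, Near R 2 d e ∧ P e.fst := by
    intro hP
    refine ⟨(mir R).next d.symm, ?_, hP⟩
    rw [mir_next, SimpleGraph.Dart.symm_symm]
    exact (Near.refl R 0 d).prev.symm'
  rcases hr with (hr | hr) | (hr | hr) | (hr | hr) | (hr | hr) | hr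
  · exact ⟨_, hn, hT.g2 hr⟩
  · exact hmir (hT'.g2 (gc2_mir hr))
  · exact ⟨_, hn, hT.g3 hr⟩
  · exact hmir (hT'.g3 (gc3_mir hr))
  · exact ⟨_, hn, hT.g6 hr⟩
  · exact hmir (hT'.g6 (gc6_mir hr))
  · exact ⟨_, hn, hT.gz h3 hr⟩
  · exact hmir (hT'.gz (by exact h3) (gz_mir hr))
  · refine ⟨d, Near.refl R 2 d, hT.flower d hr.1 fun i hi => ?_⟩
    obtain ⟨f0, f1, f2, f3, f4, f5⟩ := hr
    interval_cases i
    · exact f1
    · exact f2
    · exact f3
    · rw [nb_three f0]; exact f4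
    · rw [nb_four f0]; exact f5

/-- **(C2)** Two neighbours of length five at distance two of a face of length five without long
neighbour. -/
theorem TabBC.two (hT : TabBC R K P) (hT' : TabBC (mir R) K P) (h3 : ∀ v, G.degree v = 3)
    (hK : 6 ≤ K) {e : G.Dart} (hB : Bf R K e) (h0 : nb R e 0 = 5) (h2 : nb R e 2 = 5) :
    ∃ x, Near R 12 e x ∧ P x.fst := by
  obtain ⟨h5, hs⟩ := hB
  obtain ⟨d, h6, h7⟩ := chain_two (mp (R := R) h3) hK h5 h0 h2 (hs 1 (by norm_num))
    (by rw [← nb_four h5]; exact hs 4 (by norm_num))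
    (by rw [← nb_three h5]; exact hs 3 (by norm_num))
  obtain ⟨x, hx, hP⟩ := hT.red hT' h3 h7
  exact ⟨x, ((near_of_nr h6).trans hx).mono (by norm_num), hP⟩

/-- **(C1)** A face of length five without long neighbour at the end of a chain. -/
theorem TabBC.fin (hT : TabBC R K P) (hT' : TabBC (mir R) K P) (h3 : ∀ v, G.degree v = 3)
    (hK : 6 ≤ K) {e : G.Dart} (hB : Bf R K e) (h0 : nb R e 0 = 5)
    (h2 : nb R (ad R e 0) 2 = 5) : X1 R K e ∨ ∃ x, Near R 12 e x ∧ P x.fst := by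
  have hB' := hB
  obtain ⟨h5, hs⟩ := hB
  have hq : sz R e.symm = 5 := h0
  have hqq : sz R e.symm.symm = 5 := by rw [SimpleGraph.Dart.symm_symm]; exact h5
  have hm := mp (R := R) h3
  have e1 : sz R (R.next e.symm).symm = nb R e 4 := by rw [hm.s1, nb_four h5]
  have e2 : sz R (prev R e.symm).symm = nb R e 1 := hm.s2 e
  have e3 : sz R (prev R (prev R e.symm.symm)).symm = nb R e 3 := by
    rw [SimpleGraph.Dart.symm_symm, nb_three h5]
  rcases chain_end hm hK hq hqq h2 (by rw [e1]; exact hs 4 (by norm_num))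
    (by rw [e2]; exact hs 1 (by norm_num)) (by rw [e3]; exact hs 3 (by norm_num)) with
    ⟨d, h6, h7⟩ | ⟨k1, k2, k3⟩
  · right
    obtain ⟨x, hx, hP⟩ := hT.red hT' h3 h7
    exact ⟨x, ((((Near.refl R 0 e).symm').trans (near_of_nr h6)).trans hx).mono (by norm_num), hP⟩
  · left
    refine ⟨hB', h0, h2, k2, ?_, ?_⟩
    · rw [nb_three (show sz R (ad R (ad R e 0) 2) = 5 from h2)]
      exact k3
    · rw [nb_ad_last h3 (ad R e 0) (i := 2) (n := 4) h2]
      rw [show 2 + 1 = 3 from rfl, nb_three (show sz R (ad R e 0) = 5 from h0)]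
      exact k1

/-- **(CL)** Three consecutive faces of length five with one long neighbour each. -/
theorem TabBC.long (hT : TabBC R K P) (hT' : TabBC (mir R) K P) (h3 : ∀ v, G.degree v = 3)
    (hK : 6 ≤ K) {e : G.Dart} (hF : K ≤ sz R e) (ho : ∀ i < 3, One R K (ad R e i)) :
    ∃ x, Near R 20 e x ∧ P x.fst := by
  have hm := mp (R := R) h3
  obtain ⟨a0, -, -⟩ := ho 0 (by norm_num)
  obtain ⟨a1, -, b1⟩ := ho 1 (by norm_num)
  obtain ⟨a2, -, b2⟩ := ho 2 (by norm_num)
  change sz R e.symm = 5 at a0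
  change sz R (R.next e).symm = 5 at a1
  change sz R (R.next (R.next e)).symm = 5 at a2
  -- the dart of the middle face
  have hx : (prev R (R.next e).symm).symm = R.next (R.next (R.next e)).symm :=
    (hm.Tn (R.next e)).symm
  have hn : R.next (prev R (R.next e).symm) = (R.next e).symm := next_prev R _
  have h5 : sz R (prev R (R.next e).symm) = 5 := by rw [sz_prev]; exact a1
  have h0 : sz R (prev R (R.next e).symm).symm = 5 := by rw [hx, sz_next]; exact a2
  have h2 : sz R (R.next (R.next (prev R (R.next e).symm))).symm = 5 := by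
    rw [hn, hm.s1, prev_next]; exact a0
  have hF' : K ≤ sz R (R.next (prev R (R.next e).symm)).symm := by
    rw [hn, SimpleGraph.Dart.symm_symm, sz_next]; exact hF
  have e1 : sz R (prev R (prev R (R.next e).symm)).symm = nb R (ad R e 1) 3 :=
    (nb_three (d := (R.next e).symm) a1).symm
  have e2 : sz R (prev R (prev R (prev R (R.next e).symm))).symm = nb R (ad R e 1) 2 := by
    rw [← prev25 h5, hn]; rfl
  have e3 : sz R (prev R (prev R (prev R (R.next e).symm).symm)).symm = nb R (ad R e 2) 4 := by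
    rw [hx, prev_next]
    exact (nb_four (d := (R.next (R.next e)).symm) a2).symm
  have e4 : sz R (R.next (R.next (prev R (R.next e).symm).symm)).symm = nb R (ad R e 2) 3 := by
    rw [hx]; rfl
  rcases chain_long hm hK h5 h0 h2 hF' with ⟨d, h6, h7⟩ | h
  · obtain ⟨x, hx, hP⟩ := hT.red hT' h3 h7
    have hp : Near R 3 e (prev R (R.next e).symm) := ((Near.refl R 0 e).next).symm'.prev
    exact ⟨x, ((hp.trans (near_of_nr h6)).trans hx).mono (by norm_num), hP⟩
  · exfalso
    have c1 := b1 3 (by norm_num) (by norm_num)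
    have c2 := b1 2 (by norm_num) (by norm_num)
    have c3 := b2 4 (by norm_num) (by norm_num)
    have c4 := b2 3 (by norm_num) (by norm_num)
    unfold Two at h
    rw [e1, e2, e3, e4] at h
    omega

end Pool.Agent.DischB
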