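import Mathlib
import Pool.Agent.Work.MP_392c8e_co_uni.Occ

/-!
# No two neighbours of length five at distance two
-/

namespace Pool.Agent.Disch392

open Finset Pool.Agent.Sub392 Pool.Agent.T392

set_option linter.unusedSectionVars false

variable {V : Type} [Fintype V] [DecidableEq V] {G : SimpleGraph V} [DecidableRel G.Adj]

/-- Two neighbours of length five at distance two form a chain. -/
theorem chain_of_two {R : Rot G} {x : G.Dart} (hs : sz R x = 5) {i : ℕ} (h0 : nb R x i = 5)
    (h2 : nb R x (i + 2) = 5) : Chain R (R.next^[i + 1] x) := by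
  refine ⟨by rw [sz_iter]; exact hs, ?_, ?_⟩
  · rw [nb_iter, show i + 1 + 1 = i + 2 from rfl]
    exact h2
  · rw [nb_iter, show i + 1 + 4 = i + 5 from rfl, nb_per R hs]
    exact h0

/-- Near darts of neighbouring faces. -/
theorem Near.ad' {R : Rot G} {k : ℕ} {d e : G.Dart} (h : Near R k d e) (i : ℕ) :
    Near R (k + i + 1) d (ad R e i) := (h.iter i).symm'

/-- No two neighbours of length five at distance two, for a face near the dart. -/
theorem NoC.two {R : Rot G} {d x : G.Dart} (h : NoC R d) {k : ℕ} (hx : Near R k d x)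
    (hs : sz R x = 5) {i : ℕ} (hk : k + (i + 1) ≤ 12) (h0 : nb R x i = 5) :
    nb R x (i + 2) ≠ 5 := fun h2 =>
  h _ ((hx.iter (i + 1)).mono hk) (chain_of_two hs h0 h2)

/-- The same for the distance three. -/
theorem NoC.three {R : Rot G} {d x : G.Dart} (h : NoC R d) {k : ℕ} (hx : Near R k d x)
    (hs : sz R x = 5) {i : ℕ} (hk : k + (i + 4) ≤ 12) (h0 : nb R x i = 5) :
    nb R x (i + 3) ≠ 5 := fun h3 => by
  refine h.two hx hs (i := i + 3) (by omega) h3 ?_
  rw [show i + 3 + 2 = i + 5 from rfl, nb_per R hs]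
  exact h0

end Pool.Agent.Disch392
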