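import Mathlib
import Pool.Agent.Work.MP_392c8e_co_uni.BDefs
import Pool.Agent.Work.MP_392c8e_co_uni.NoTwo
import Pool.Agent.Work.MP_392c8e_co_t1.FF

/-!
# Clusters of senders (stage B)

From the local conditions near a dart to the faces which have not length five at the patches.
-/

namespace Pool.Agent.DischB

open Finset Pool.Agent.Sub392 Pool.Agent.T392 Pool.Agent.Disch392

set_option linter.unusedSectionVars false

variable {V : Type} [Fintype V] [DecidableEq V] {G : SimpleGraph V} [DecidableRel G.Adj]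
  {R : Rot G} {K : ℕ}

/-- The conditions on clusters at a dart of a face of length five. -/
structure ClB (R : Rot G) (K : ℕ) (e : G.Dart) : Prop where
  two : Bf R K e → nb R e 0 = 5 → nb R e 2 ≠ 5
  end1 : Bf R K e → nb R e 0 = 5 → nb R (ad R e 0) 2 = 5 → X1 R K e
  end2 : Bf R K e → nb R e 0 = 5 → nb R (ad R e 0) 3 = 5 → X2 R K e

/-- The conditions on clusters near a dart. -/
def NoB (R : Rot G) (K r : ℕ) (d : G.Dart) : Prop :=
  ∀ e, Near R r d e → sz R e = 5 → ClB R K e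

/-- No sender near the dart has neighbours of lengths five and six. -/
def No6B (R : Rot G) (K r : ℕ) (d : G.Dart) : Prop :=
  ∀ e, Near R r d e → Snd R K e → nb R e 0 = 5 → ∀ j < 5, nb R e j ≠ 6

theorem iter_mod (R : Rot G) {d : G.Dart} {n : ℕ} (h : sz R d = n) (i : ℕ) :
    R.next^[i] d = R.next^[i % n] d := by
  conv_lhs => rw [← Nat.mod_add_div i n]
  induction i / n with
  | zero => rw [Nat.mul_zero, Nat.add_zero]
  | succ k ih => rw [Nat.mul_succ, ← Nat.add_assoc, iter_per R h, ih]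

theorem nb_mod (R : Rot G) {d : G.Dart} {n : ℕ} (h : sz R d = n) (i : ℕ) :
    nb R d i = nb R d (i % n) := by
  unfold nb
  rw [iter_mod R h]

theorem Bf.nb_lt {d : G.Dart} (h : Bf R K d) (i : ℕ) : nb R d i < K := by
  rw [nb_mod R h.1]
  exact h.2 _ (Nat.mod_lt _ (by norm_num))

theorem Bf.iter {d : G.Dart} (h : Bf R K d) (n : ℕ) : Bf R K (R.next^[n] d) :=
  ⟨by rw [sz_iter]; exact h.1, fun i _ => by rw [nb_iter]; exact h.nb_lt _⟩

theorem Snd.notX {d : G.Dart} (h : Snd R K d) (i : ℕ) :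
    ¬ X1 R K (R.next^[i] d) ∧ ¬ X2 R K (R.next^[i] d) := by
  rw [iter_mod R h.1.1]
  exact h.2 _ (Nat.mod_lt _ (by norm_num))

/-- All darts of the face of a sender. -/
theorem Snd.iter {d : G.Dart} (h : Snd R K d) (n : ℕ) : Snd R K (R.next^[n] d) :=
  ⟨h.1.iter n, fun i _ => by rw [iter_add]; exact h.notX _⟩

/-- **At a face without long neighbours** two neighbours of length five are consecutive. -/
theorem NoB.s1 {r : ℕ} {d x : G.Dart} (hN : NoB R K r d) {k : ℕ} (hx : Near R k d x)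
    (hs : Bf R K x) {i : ℕ} (hk : k + i + 3 ≤ r) (hi : nb R x i = 5) :
    nb R x (i + 2) ≠ 5 ∧ nb R x (i + 3) ≠ 5 := by
  constructor
  · intro h2
    refine (hN (R.next^[i] x) ((hx.iter i).mono (by omega)) ?_).two (hs.iter i) ?_ ?_
    · rw [sz_iter]; exact hs.1
    · rw [nb_iter]; exact hi
    · rw [nb_iter]; exact h2
  · intro h2
    refine (hN (R.next^[i + 3] x) ((hx.iter (i + 3)).mono (by omega)) ?_).two (hs.iter _) ?_ ?_
    · rw [sz_iter]; exact hs.1
    · rw [nb_iter]; exact h2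
    · rw [nb_iter, show i + 3 + 2 = i + 5 from rfl, nb_per R hs.1]; exact hi

/-- **At a neighbour of length five of a sender** the two outer neighbours have not length
five. -/
theorem NoB.s2 {r : ℕ} {d x : G.Dart} (hN : NoB R K r d) {k : ℕ} (hx : Near R k d x)
    (hs : Snd R K x) {i : ℕ} (hk : k + i ≤ r) (hi : nb R x i = 5) :
    nb R (ad R x i) 2 ≠ 5 ∧ nb R (ad R x i) 3 ≠ 5 := by
  have hc := hN (R.next^[i] x) ((hx.iter i).mono hk) (by rw [sz_iter]; exact hs.1.1)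
  have e0 : nb R (R.next^[i] x) 0 = 5 := by rw [nb_iter]; exact hi
  have e1 : ad R (R.next^[i] x) 0 = ad R x i := by rw [ad_iter]; rfl
  constructor
  · intro h2
    exact (hs.notX i).1 (hc.end1 (hs.1.iter i) e0 (by rw [e1]; exact h2))
  · intro h2
    exact (hs.notX i).2 (hc.end2 (hs.1.iter i) e0 (by rw [e1]; exact h2))

/-! ### Darts round a cubic vertex -/

theorem symm_prev_symm {R : Rot G} (h3 : ∀ v, G.degree v = 3) (e : G.Dart) :
    (prev R e.symm).symm = R.next (R.next e).symm := by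
  apply R.rot.injective
  rw [← T392.next_eq, next_prev, T392.next_eq, T392.next_eq, SimpleGraph.Dart.symm_symm]
  exact (rot_three R (h3 _)).symm

theorem ad_ad_one {R : Rot G} (h3 : ∀ v, G.degree v = 3) (d : G.Dart) (i : ℕ) :
    ad R (ad R d (i + 1)) 1 = prev R (ad R d i) := by
  unfold ad
  rw [Function.iterate_one, Function.iterate_succ_apply', ← symm_prev_symm h3,
    SimpleGraph.Dart.symm_symm]

theorem next_last {R : Rot G} {d : G.Dart} {n : ℕ} (h : sz R d = n + 1) :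
    R.next^[n] d = prev R d := by
  have h2 := next_sz R d
  rw [h, Function.iterate_succ_apply'] at h2
  rw [← prev_next R (R.next^[n] d), h2]

theorem ad_ad_last {R : Rot G} (h3 : ∀ v, G.degree v = 3) (d : G.Dart) {i n : ℕ}
    (h : nb R d i = n + 1) : ad R (ad R d i) n = R.next (ad R d (i + 1)) := by
  have h1 : R.next^[n] (ad R d i) = prev R (ad R d i) := next_last h
  unfold ad at h1 ⊢
  rw [h1, symm_prev_symm h3, ← Function.iterate_succ_apply' R.next]

/-- The preceding neighbour of a face of length seven. -/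
theorem nb1_seven {R : Rot G} (h3 : ∀ v, G.degree v = 3) {d : G.Dart} (hs : sz R d = 7) (i : ℕ) :
    nb R (ad R d i) 1 = nb R d (i + 6) := by
  have := nb_ad_one (R := R) h3 d (i + 6)
  rw [show i + 6 + 1 = i + 7 from rfl, ad_per R hs] at this
  exact this

/-- **Two consecutive contacts of length five**, the first one is a sender. -/
theorem NoB.pair1 {r : ℕ} {d : G.Dart} (h3 : ∀ v, G.degree v = 3) (hN : NoB R K r d)
    (hs : sz R d = 7) {i : ℕ} (hk : i + 8 ≤ r) (h0 : Snd R K (ad R d i))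
    (h1 : nb R d (i + 1) = 5) :
    nb R d (i + 2) ≠ 5 ∧ nb R d (i + 6) ≠ 5 ∧ nb R (ad R d i) 2 ≠ 5 ∧
      nb R (ad R d (i + 1)) 3 ≠ 5 := by
  have hx : Near R (i + 1) d (ad R d i) := by
    have := (Near.refl R 0 d).ad' i
    rwa [Nat.zero_add] at this
  have ha : sz R (ad R d i) = 5 := h0.1.1
  have hb : sz R (ad R d (i + 1)) = 5 := h1
  have e4 : nb R (ad R d i) 4 = 5 := by
    rw [nb_ad_last (R := R) h3 d (n := 4) ha]; exact h1
  have e1 := nb1_seven (R := R) h3 hs i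
  have f := hN.s1 hx h0.1 (i := 4) (by omega) e4
  rw [show 4 + 2 = 1 + 5 from rfl, nb_per R ha, show 4 + 3 = 2 + 5 from rfl, nb_per R ha] at f
  have g := hN.s2 hx h0 (i := 4) (by omega) e4
  rw [ad_ad_last (R := R) h3 d (n := 4) ha, ← Function.iterate_one R.next, nb_iter, nb_iter] at g
  have l4 : nb R (ad R d (i + 1)) 4 = nb R d (i + 2) := nb_ad_last (R := R) h3 d (n := 4) hb
  refine ⟨?_, ?_, f.2, g.1⟩
  · rw [← l4]; exact g.2
  · rw [← e1]; exact f.1

/-- **Two consecutive contacts of length five**, the second one is a sender. -/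
theorem NoB.pair2 {r : ℕ} {d : G.Dart} (h3 : ∀ v, G.degree v = 3) (hN : NoB R K r d)
    (hs : sz R d = 7) {i : ℕ} (hk : i + 6 ≤ r) (h0 : nb R d i = 5)
    (h1 : Snd R K (ad R d (i + 1))) :
    nb R d (i + 2) ≠ 5 ∧ nb R d (i + 6) ≠ 5 ∧ nb R (ad R d i) 2 ≠ 5 ∧
      nb R (ad R d (i + 1)) 3 ≠ 5 := by
  have hx : Near R (i + 1 + 1) d (ad R d (i + 1)) := by
    have := (Near.refl R 0 d).ad' (i + 1)
    rwa [Nat.zero_add] at this
  have ha : sz R (ad R d i) = 5 := h0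
  have hb : sz R (ad R d (i + 1)) = 5 := h1.1.1
  have e1 : nb R (ad R d (i + 1)) 1 = 5 := by rw [nb_ad_one (R := R) h3 d i]; exact h0
  have f := hN.s1 hx h1.1 (i := 1) (by omega) e1
  have g := hN.s2 hx h1 (i := 1) (by omega) e1
  rw [ad_ad_one (R := R) h3 d i, ← next_last (R := R) (n := 4) ha, nb_iter, nb_iter,
    show 4 + 2 = 1 + 5 from rfl, nb_per R ha, show 4 + 3 = 2 + 5 from rfl, nb_per R ha,
    nb1_seven (R := R) h3 hs i] at g
  have l4 : nb R (ad R d (i + 1)) 4 = nb R d (i + 2) := nb_ad_last (R := R) h3 d (n := 4) hb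
  refine ⟨?_, g.1, g.2, f.1⟩
  rw [← l4]
  exact f.2

/-! ### The lines for faces of length seven -/

theorem near_ad0 (R : Rot G) (d : G.Dart) (i : ℕ) : Near R (i + 1) d (ad R d i) := by
  have := (Near.refl R 0 d).ad' i
  rwa [Nat.zero_add] at this

/-- Contacts 0, 1 of length five and the faces which have not length five. -/
structure Pair7 (R : Rot G) (d : G.Dart) : Prop where
  s : sz R d = 7
  s0 : nb R d 0 = 5
  s1 : nb R d 1 = 5
  n2 : nb R d 2 ≠ 5
  n6 : nb R d 6 ≠ 5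
  n02 : nb R (ad R d 0) 2 ≠ 5
  n13 : nb R (ad R d 1) 3 ≠ 5

theorem NoB.pair7 {r : ℕ} {d : G.Dart} (h3 : ∀ v, G.degree v = 3) (hN : NoB R K r d)
    (hr : 8 ≤ r) (hs : sz R d = 7) (h0 : nb R d 0 = 5) (h1 : nb R d 1 = 5)
    (h : Snd R K (ad R d 0) ∨ Snd R K (ad R d 1)) : Pair7 R d := by
  rcases h with h | h
  · obtain ⟨a, b, c, e⟩ := hN.pair1 h3 hs (i := 0) (by omega) h h1
    exact ⟨hs, h0, h1, a, b, c, e⟩
  · obtain ⟨a, b, c, e⟩ := hN.pair2 h3 hs (i := 0) (by omega) h0 h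
    exact ⟨hs, h0, h1, a, b, c, e⟩

/-- The hypotheses of the place P2 (contacts 0, 1, 3, 5). -/
structure HypP2 (R : Rot G) (d : G.Dart) : Prop extends Pair7 R d where
  s3 : nb R d 3 = 5
  s5 : nb R d 5 = 5
  n4 : nb R d 4 ≠ 5

/-- The hypotheses of the place P1 (contacts 0, 1, 3, 4). -/
structure HypP1 (R : Rot G) (d : G.Dart) : Prop extends Pair7 R d where
  s3 : nb R d 3 = 5
  s4 : nb R d 4 = 5
  n5 : nb R d 5 ≠ 5
  n32 : nb R (ad R d 3) 2 ≠ 5
  n43 : nb R (ad R d 4) 3 ≠ 5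

/-- Contacts 3 and 5 of length five, one of them a sender: the contact 4 has not length five. -/
theorem NoB.n4 {r : ℕ} {d : G.Dart} (h3 : ∀ v, G.degree v = 3) (hN : NoB R K r d)
    (hr : 11 ≤ r) (hs : sz R d = 7) (h3' : nb R d 3 = 5) (h5 : nb R d 5 = 5)
    (h : Snd R K (ad R d 3) ∨ Snd R K (ad R d 5)) : nb R d 4 ≠ 5 := by
  intro h4
  rcases h with h | h
  · exact (hN.pair1 h3 hs (i := 3) (by omega) h h4).1 h5
  · have := (hN.pair2 h3 hs (i := 4) (by omega) h4 h).2.1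
    rw [show 4 + 6 = 3 + 7 from rfl, nb_per R hs] at this
    exact this h3'

/-- **The line t3**: contacts 0, 1, 3 senders. -/
theorem NoB.t3 {r : ℕ} {d : G.Dart} (h3 : ∀ v, G.degree v = 3) (hN : NoB R K r d)
    (hr : 11 ≤ r) (hs : sz R d = 7) (a0 : Snd R K (ad R d 0)) (a1 : Snd R K (ad R d 1))
    (a3 : Snd R K (ad R d 3)) :
    (nb R d 5 ≠ 5 ∧ nb R d 3 = 5 ∧ Pair7 R d) ∨ HypP2 R d := by
  have hp := hN.pair7 h3 (by omega) hs a0.1.1 a1.1.1 (Or.inl a0)
  by_cases h5 : nb R d 5 = 5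
  · exact Or.inr ⟨hp, a3.1.1, h5, hN.n4 h3 hr hs a3.1.1 h5 (Or.inl a3)⟩
  · exact Or.inl ⟨h5, a3.1.1, hp⟩

/-- **The lines p2a, p2b**: contacts 0, 1, 3, 5 of length five, 3, 5 and one of 0, 1 senders. -/
theorem NoB.p2 {r : ℕ} {d : G.Dart} (h3 : ∀ v, G.degree v = 3) (hN : NoB R K r d)
    (hr : 11 ≤ r) (hs : sz R d = 7) (h0 : nb R d 0 = 5) (h1 : nb R d 1 = 5)
    (h : Snd R K (ad R d 0) ∨ Snd R K (ad R d 1)) (a3 : Snd R K (ad R d 3))
    (h5 : nb R d 5 = 5) : HypP2 R d :=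
  ⟨hN.pair7 h3 (by omega) hs h0 h1 h, a3.1.1, h5, hN.n4 h3 hr hs a3.1.1 h5 (Or.inl a3)⟩

/-- **The line p1**: contacts 0, 1, 3, 4 of length five, one of 0, 1 and one of 3, 4 senders. -/
theorem NoB.p1 {r : ℕ} {d : G.Dart} (h3 : ∀ v, G.degree v = 3) (hN : NoB R K r d)
    (hr : 11 ≤ r) (hs : sz R d = 7) (h0 : nb R d 0 = 5) (h1 : nb R d 1 = 5)
    (h : Snd R K (ad R d 0) ∨ Snd R K (ad R d 1)) (h3' : nb R d 3 = 5) (h4 : nb R d 4 = 5)
    (h' : Snd R K (ad R d 3) ∨ Snd R K (ad R d 4)) : HypP1 R d := by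
  have hp := hN.pair7 h3 (by omega) hs h0 h1 h
  rcases h' with h' | h'
  · obtain ⟨a, b, c, e⟩ := hN.pair1 h3 hs (i := 3) (by omega) h' h4
    exact ⟨hp, h3', h4, a, c, e⟩
  · obtain ⟨a, b, c, e⟩ := hN.pair2 h3 hs (i := 3) (by omega) h3' h'
    exact ⟨hp, h3', h4, a, c, e⟩

/-- The hypotheses of the place G2 (contacts 0, 1, 4). -/
structure HypG2 (R : Rot G) (d : G.Dart) : Prop extends Pair7 R d where
  s4 : nb R d 4 = 5
  n42 : nb R (ad R d 4) 2 ≠ 5

/-- The hypotheses of the mirror image of the place G2 (contacts 0, 3, 4). -/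
structure HypG2m (R : Rot G) (d : G.Dart) : Prop where
  s : sz R d = 7
  s0 : nb R d 0 = 5
  s3 : nb R d 3 = 5
  s4 : nb R d 4 = 5
  n43 : nb R (ad R d 4) 3 ≠ 5
  n32 : nb R (ad R d 3) 2 ≠ 5
  n03 : nb R (ad R d 0) 3 ≠ 5

/-- The hypotheses of the place G2'' (contacts 0, 1, 4, both outer neighbours of the last one). -/
structure HypG2R (R : Rot G) (d : G.Dart) : Prop extends Pair7 R d where
  s4 : nb R d 4 = 5
  s42 : nb R (ad R d 4) 2 = 5
  s43 : nb R (ad R d 4) 3 = 5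
  n3 : nb R d 3 ≠ 5
  n5 : nb R d 5 ≠ 5
  n422 : nb R (ad R (ad R d 4) 2) 2 ≠ 5
  n423 : nb R (ad R (ad R d 4) 2) 3 ≠ 5
  n432 : nb R (ad R (ad R d 4) 3) 2 ≠ 5
  n433 : nb R (ad R (ad R d 4) 3) 3 ≠ 5

/-- **The line t4**: contacts 0, 1, 4 senders. -/
theorem NoB.t4 {r : ℕ} {d : G.Dart} (h3 : ∀ v, G.degree v = 3) (hN : NoB R K r d)
    (hr : 11 ≤ r) (hs : sz R d = 7) (a0 : Snd R K (ad R d 0)) (a1 : Snd R K (ad R d 1))
    (a4 : Snd R K (ad R d 4)) :
    HypG2 R d ∨ HypG2m R (R.next^[4] d) ∨ HypG2R R d := by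
  have hp := hN.pair7 h3 (by omega) hs a0.1.1 a1.1.1 (Or.inl a0)
  have h4 : nb R d 4 = 5 := a4.1.1
  by_cases e2 : nb R (ad R d 4) 2 = 5
  · by_cases e3 : nb R (ad R d 4) 3 = 5
    · have hx := near_ad0 R d 4
      have f2 := hN.s1 hx a4.1 (i := 2) (by omega) e2
      have f3 := hN.s1 hx a4.1 (i := 3) (by omega) e3
      have g2 := hN.s2 hx a4 (i := 2) (by omega) e2
      have g3 := hN.s2 hx a4 (i := 3) (by omega) e3
      rw [show 3 + 3 = 1 + 5 from rfl, nb_per R a4.1.1 1] at f3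
      refine Or.inr (Or.inr ⟨hp, h4, e2, e3, ?_, ?_, g2.1, g2.2, g3.1, g3.2⟩)
      · rw [← nb_ad_one (R := R) h3 d 3]; exact f3.2
      · rw [← nb_ad_last (R := R) h3 d (i := 4) (n := 4) h4]; exact f2.1
    · refine Or.inr (Or.inl ⟨by rw [sz_iter]; exact hs, ?_, ?_, ?_, ?_, ?_, ?_⟩)
      · rw [nb_iter]; exact h4
      · rw [nb_iter, show 4 + 3 = 0 + 7 from rfl, nb_per R hs]; exact hp.s0
      · rw [nb_iter, show 4 + 4 = 1 + 7 from rfl, nb_per R hs]; exact hp.s1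
      · rw [ad_iter, show 4 + 4 = 1 + 7 from rfl, ad_per R hs]; exact hp.n13
      · rw [ad_iter, show 4 + 3 = 0 + 7 from rfl, ad_per R hs]; exact hp.n02
      · rw [ad_iter]; exact e3
  · exact Or.inl ⟨hp, h4, e2⟩

/-! ### The lines for faces of length five -/

/-- A sender with a neighbour of length five across its dart. -/
structure PairS (R : Rot G) (d : G.Dart) : Prop where
  s : sz R d = 5
  s0 : nb R d 0 = 5
  n2 : nb R d 2 ≠ 5
  n3 : nb R d 3 ≠ 5
  n02 : nb R (ad R d 0) 2 ≠ 5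
  n03 : nb R (ad R d 0) 3 ≠ 5

/-- **The lines r2 and l2**: a sender and its neighbour. -/
theorem NoB.pairS {r : ℕ} {d : G.Dart} (hN : NoB R K r d) (hr : 3 ≤ r)
    (a : Snd R K d) (h0 : nb R d 0 = 5) : PairS R d := by
  have hx : Near R 0 d d := Near.refl R 0 d
  have f := hN.s1 hx a.1 (i := 0) (by omega) h0
  have g := hN.s2 hx a (i := 0) (by omega) h0
  exact ⟨a.1.1, h0, f.1, f.2, g.1, g.2⟩

/-- A neighbour of length six of a sender: not both next to it are of length five. -/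
theorem PairS.triple {d : G.Dart} (h3 : ∀ v, G.degree v = 3) (h : PairS R d)
    (h4 : nb R d 4 = 5) : nb R (ad R d 0) 1 = 5 := by
  have := nb_ad_one (R := R) h3 d 4
  rw [show 4 + 1 = 0 + 5 from rfl, ad_per R h.s] at this
  rw [this]
  exact h4

end Pool.Agent.DischB
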