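import Mathlib
import Pool.Agent.Work.MP_392c8e_co_uni.LinesB

/-!
# Mirror images of the local configurations of stage B
-/

namespace Pool.Agent.DischB

open Finset Pool.Agent.Sub392 Pool.Agent.T392 Pool.Agent.Disch392

set_option linter.unusedSectionVars false

variable {V : Type} [Fintype V] [DecidableEq V] {G : SimpleGraph V} [DecidableRel G.Adj]

/-- The neighbours in the mirror image. -/
theorem nb5_mir {R : Rot G} {d : G.Dart} (h : sz R d = 5) {i : ℕ} (hi : i ≤ 5) :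
    nb (mir R) d.symm i = nb R d (5 - i) := nb_mir R h hi

theorem nb5_mir0 {R : Rot G} {d : G.Dart} (h : sz R d = 5) :
    nb (mir R) d.symm 0 = nb R d 0 := by
  rw [nb5_mir h (by norm_num), show 5 - 0 = 0 + 5 from rfl, nb_per R h]

theorem ad5_mir0 {R : Rot G} {d : G.Dart} (h : sz R d = 5) :
    ad (mir R) d.symm 0 = (ad R d 0).symm := by
  rw [ad_mir R h (by norm_num), show 5 - 0 = 0 + 5 from rfl, ad_per R h]

theorem Bf.mir {R : Rot G} {K : ℕ} {d : G.Dart} (h : Bf R K d) :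
    Bf (Disch392.mir R) K d.symm := by
  obtain ⟨h5, h1⟩ := h
  refine ⟨by rw [sz_mir_symm]; exact h5, fun i hi => ?_⟩
  rcases Nat.eq_zero_or_pos i with rfl | hi0
  · rw [nb5_mir0 h5]
    exact h1 0 (by norm_num)
  · rw [nb5_mir h5 (by omega)]
    exact h1 _ (by omega)

theorem Bf.of_mir {R : Rot G} {K : ℕ} {d : G.Dart} (h : Bf (Disch392.mir R) K d.symm) :
    Bf R K d := by
  have h1 := h.mir
  rw [mir_mir, SimpleGraph.Dart.symm_symm] at h1
  exact h1

theorem X1.mir {R : Rot G} {K : ℕ} {d : G.Dart} (h : X1 R K d) :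
    X2 (Disch392.mir R) K d.symm := by
  obtain ⟨hB, h0, h2, k2, k3, k4⟩ := h
  have s0 : sz R (ad R d 0) = 5 := h0
  have s1 : sz R (ad R (ad R d 0) 2) = 5 := h2
  refine ⟨hB.mir, by rw [nb5_mir0 hB.1]; exact h0, ?_, ?_, ?_, ?_⟩
  · rw [ad5_mir0 hB.1, nb5_mir s0 (by norm_num)]; exact h2
  · rw [ad5_mir0 hB.1, ad_mir R s0 (by norm_num), nb5_mir s1 (by norm_num)]; exact k4
  · rw [ad5_mir0 hB.1, ad_mir R s0 (by norm_num), nb5_mir s1 (by norm_num)]; exact k3
  · rw [ad5_mir0 hB.1, ad_mir R s0 (by norm_num), nb5_mir s1 (by norm_num)]; exact k2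

theorem X2.mir {R : Rot G} {K : ℕ} {d : G.Dart} (h : X2 R K d) :
    X1 (Disch392.mir R) K d.symm := by
  obtain ⟨hB, h0, h3, k1, k2, k3⟩ := h
  have s0 : sz R (ad R d 0) = 5 := h0
  have s1 : sz R (ad R (ad R d 0) 3) = 5 := h3
  refine ⟨hB.mir, by rw [nb5_mir0 hB.1]; exact h0, ?_, ?_, ?_, ?_⟩
  · rw [ad5_mir0 hB.1, nb5_mir s0 (by norm_num)]; exact h3
  · rw [ad5_mir0 hB.1, ad_mir R s0 (by norm_num), nb5_mir s1 (by norm_num)]; exact k3
  · rw [ad5_mir0 hB.1, ad_mir R s0 (by norm_num), nb5_mir s1 (by norm_num)]; exact k2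
  · rw [ad5_mir0 hB.1, ad_mir R s0 (by norm_num), nb5_mir s1 (by norm_num)]; exact k1

theorem X1.of_mir {R : Rot G} {K : ℕ} {d : G.Dart} (h : X1 (Disch392.mir R) K d.symm) :
    X2 R K d := by
  have h1 := h.mir
  rw [mir_mir, SimpleGraph.Dart.symm_symm] at h1
  exact h1

theorem X2.of_mir {R : Rot G} {K : ℕ} {d : G.Dart} (h : X2 (Disch392.mir R) K d.symm) :
    X1 R K d := by
  have h1 := h.mir
  rw [mir_mir, SimpleGraph.Dart.symm_symm] at h1
  exact h1

/-- The darts of a face of length five in the mirror image. -/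
theorem mir_iter5 {R : Rot G} {d : G.Dart} (h : sz R d = 5) {i : ℕ} (hi : i ≤ 5) :
    (mir R).next^[i] d.symm = (R.next^[5 - i] d).symm := by
  rw [mir_iter, SimpleGraph.Dart.symm_symm, prev_iter R h hi]

theorem Snd.mir {R : Rot G} {K : ℕ} {d : G.Dart} (h : Snd R K d) :
    Snd (Disch392.mir R) K d.symm := by
  obtain ⟨hB, hX⟩ := h
  have key : ∀ i ≤ 5, ¬ X1 R K (R.next^[i] d) ∧ ¬ X2 R K (R.next^[i] d) := by
    intro i hi
    rcases Nat.lt_or_ge i 5 with h1 | h1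
    · exact hX i h1
    · have h2 : i = 0 + 5 := by omega
      rw [h2, iter_per R hB.1]
      exact hX 0 (by norm_num)
  refine ⟨hB.mir, fun i hi => ?_⟩
  rw [mir_iter5 hB.1 hi.le]
  obtain ⟨h1, h2⟩ := key (5 - i) (by omega)
  exact ⟨fun h => h2 h.of_mir, fun h => h1 h.of_mir⟩

theorem Snd.of_mir {R : Rot G} {K : ℕ} {d : G.Dart} (h : Snd (Disch392.mir R) K d.symm) :
    Snd R K d := by
  have h1 := h.mir
  rw [mir_mir, SimpleGraph.Dart.symm_symm] at h1
  exact h1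

/-- The mirror image of the conditions on chains. -/
theorem ClB.mir {R : Rot G} {K : ℕ} {d : G.Dart} (hs : sz R d = 5)
    (h : ∀ i ≤ 5, ClB R K (R.next^[i] d)) : ClB (Disch392.mir R) K d.symm where
  two := fun hB h0 h2 => by
    rw [nb5_mir0 hs] at h0
    rw [nb5_mir hs (by norm_num)] at h2
    have hB' := hB.of_mir
    refine (h 3 (by norm_num)).two (hB'.iter 3) ?_ ?_
    · rw [nb_iter]; exact h2
    · rw [nb_iter, show 3 + 2 = 0 + 5 from rfl, nb_per R hs]; exact h0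
  end1 := fun hB h0 h2 => by
    rw [nb5_mir0 hs] at h0
    have s0 : sz R (ad R d 0) = 5 := h0
    rw [ad5_mir0 hs, nb5_mir s0 (by norm_num)] at h2
    exact ((h 0 (by norm_num)).end2 hB.of_mir h0 h2).mir
  end2 := fun hB h0 h2 => by
    rw [nb5_mir0 hs] at h0
    have s0 : sz R (ad R d 0) = 5 := h0
    rw [ad5_mir0 hs, nb5_mir s0 (by norm_num)] at h2
    exact ((h 0 (by norm_num)).end1 hB.of_mir h0 h2).mir

end Pool.Agent.DischB
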