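import Mathlib
import Pool.Agent.Work.MP_392c8e_co_uni.MirB
import Pool.Agent.Work.MP_392c8e_co_uni.ChainB2

/-!
# A configuration of stage B gives a legal place or a pattern
-/

namespace Pool.Agent.DischB

open Finset Pool.Agent.Sub392 Pool.Agent.T392 Pool.Agent.Disch392

set_option linter.unusedSectionVars false

variable {V : Type} [Fintype V] [DecidableEq V] {G : SimpleGraph V} [DecidableRel G.Adj]
  {R : Rot G} {K : ℕ} {P : V → Prop}

/-- The lines of the table of stage B. -/
structure TabB (R : Rot G) (K : ℕ) (P : V → Prop) : Prop extends TabBC R K P where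
  r2 : ∀ d, Snd R K d → PairS R d → nb R d 1 = 6 → P d.fst
  l2 : ∀ d, Snd R K d → PairS R d → nb R d 2 = 6 → P d.fst
  g1 : ∀ d, Pair7 R d → nb R d 3 = 5 → nb R d 5 ≠ 5 → Snd R K (ad R d 0) → Snd R K (ad R d 1) →
    Snd R K (ad R d 3) → P d.fst
  p2 : ∀ d, HypP2 R d → Snd R K (ad R d 3) →
    ((Snd R K (ad R d 0) ∧ Snd R K (ad R d 1)) ∨
      (Snd R K (ad R d 5) ∧ (Snd R K (ad R d 0) ∨ Snd R K (ad R d 1)))) → P d.fst
  p1 : ∀ d, HypP1 R d → Snd R K (ad R d 0) → Snd R K (ad R d 1) → Snd R K (ad R d 3) →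
    Snd R K (ad R d 4) → P d.fst
  g2 : ∀ d, HypG2 R d → Snd R K (ad R d 0) → Snd R K (ad R d 1) → Snd R K (ad R d 4) → P d.fst
  g2r : ∀ d, HypG2R R d → Snd R K (ad R d 0) → Snd R K (ad R d 1) → Snd R K (ad R d 4) → P d.fst
  g3 : ∀ d, sz R d = 7 → Snd R K (ad R d 0) → Snd R K (ad R d 2) → Snd R K (ad R d 4) →
    c5 R (ad R d 0) = 0 → c5 R (ad R d 2) = 0 → c5 R (ad R d 4) = 0 → P d.fst

/-! ### Mirror images at faces of length seven -/

theorem nb7_mir {d : G.Dart} (h : sz R d = 7) {i : ℕ} (hi : i ≤ 7) :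
    nb (mir R) (R.next d).symm i = nb R d (8 - i) := by
  have h1 : sz R (R.next d) = 7 := by rw [sz_next]; exact h
  rw [nb_mir R h1 hi]
  have := nb_iter R d 1 (7 - i)
  rw [Function.iterate_one] at this
  rw [this, show 1 + (7 - i) = 8 - i by omega]

theorem ad7_mir {d : G.Dart} (h : sz R d = 7) {i : ℕ} (hi : i ≤ 7) :
    ad (mir R) (R.next d).symm i = (ad R d (8 - i)).symm := by
  have h1 : sz R (R.next d) = 7 := by rw [sz_next]; exact h
  rw [ad_mir R h1 hi]
  have := ad_iter R d 1 (7 - i)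
  rw [Function.iterate_one] at this
  rw [this, show 1 + (7 - i) = 8 - i by omega]

theorem ad7_mir0 {d : G.Dart} (h : sz R d = 7) :
    ad (mir R) (R.next d).symm 0 = (ad R d 1).symm := by
  rw [ad7_mir h (by norm_num), show 8 - 0 = 1 + 7 from rfl, ad_per R h]

theorem ad7_mir1 {d : G.Dart} (h : sz R d = 7) :
    ad (mir R) (R.next d).symm 1 = (ad R d 0).symm := by
  rw [ad7_mir h (by norm_num), show 8 - 1 = 0 + 7 from rfl, ad_per R h]

theorem nb7_mir0 {d : G.Dart} (h : sz R d = 7) :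
    nb (mir R) (R.next d).symm 0 = nb R d 1 := by
  rw [nb7_mir h (by norm_num), show 8 - 0 = 1 + 7 from rfl, nb_per R h]

theorem nb7_mir1 {d : G.Dart} (h : sz R d = 7) :
    nb (mir R) (R.next d).symm 1 = nb R d 0 := by
  rw [nb7_mir h (by norm_num), show 8 - 1 = 0 + 7 from rfl, nb_per R h]

theorem Pair7.mir {d : G.Dart} (h : Pair7 R d) : Pair7 (mir R) (R.next d).symm where
  s := by rw [sz_mir_symm, sz_next]; exact h.s
  s0 := by rw [nb7_mir0 h.s]; exact h.s1
  s1 := by rw [nb7_mir1 h.s]; exact h.s0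
  n2 := by rw [nb7_mir h.s (by norm_num)]; exact h.n6
  n6 := by rw [nb7_mir h.s (by norm_num)]; exact h.n2
  n02 := by
    have s1 : sz R (ad R d 1) = 5 := h.s1
    rw [ad7_mir0 h.s, nb5_mir s1 (by norm_num)]; exact h.n13
  n13 := by
    have s0 : sz R (ad R d 0) = 5 := h.s0
    rw [ad7_mir1 h.s, nb5_mir s0 (by norm_num)]; exact h.n02

theorem g2_mir {d : G.Dart} (h : Pair7 R d) (h4 : nb R d 4 = 5) (h43 : nb R (ad R d 4) 3 ≠ 5) :
    HypG2 (mir R) (R.next d).symm where
  toPair7 := h.mir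
  s4 := by rw [nb7_mir h.s (by norm_num)]; exact h4
  n42 := by
    have s4 : sz R (ad R d 4) = 5 := h4
    rw [ad7_mir h.s (by norm_num), nb5_mir s4 (by norm_num)]; exact h43

theorem NoB.mono {r s : ℕ} {d : G.Dart} (h : NoB R K s d) (hrs : r ≤ s) : NoB R K r d :=
  fun e he => h e (he.mono hrs)

theorem NoB.mir {r : ℕ} {d : G.Dart} (h : NoB R K (r + 5) d) : NoB (mir R) K r d.symm := by
  intro e he hs
  rw [sz_mir] at hs
  have := ClB.mir (R := R) (K := K) (d := e.symm) hs fun i hi =>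
    h _ (((near_mir' he).iter i).mono (by omega)) (by rw [sz_iter]; exact hs)
  rwa [SimpleGraph.Dart.symm_symm] at this

/-- **A configuration of stage B gives a legal place or a pattern** (the length of the face is only
needed at the dart). -/
theorem TabB.occ' (hT : TabB R K P) (hT' : TabB (mir R) K P) (h3 : ∀ v, G.degree v = 3)
    (hK : 6 ≤ K) {e : G.Dart} (h5 : 5 ≤ sz R e) (h : ¬ LocB R K e) :
    (∃ x, Near R 60 e x ∧ P x.fst) ∨ Pat7 R e := by
  by_contra hcon
  push Not at hcon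
  obtain ⟨hno, hpat⟩ := hcon
  -- the chains
  have hC : ∀ x, Near R 45 e x → sz R x = 5 → ClB R K x := by
    intro x hx hs
    refine ⟨fun hB h0 h2 => ?_, fun hB h0 h2 => ?_, fun hB h0 h2 => ?_⟩
    · obtain ⟨y, hy, hP⟩ := hT.toTabBC.two hT'.toTabBC h3 hK hB h0 h2
      exact hno y ((hx.trans hy).mono (by norm_num)) hP
    · rcases hT.toTabBC.fin hT'.toTabBC h3 hK hB h0 h2 with h6 | ⟨y, hy, hP⟩
      · exact h6
      · exact absurd hP (hno y ((hx.trans hy).mono (by norm_num)))
    · have s0 : sz R (ad R x 0) = 5 := h0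
      rcases TabBC.fin (R := mir R) hT'.toTabBC hT.toTabBC h3 hK hB.mir
        (by rw [nb5_mir0 hs]; exact h0)
        (by rw [ad5_mir0 hs, nb5_mir s0 (by norm_num)]; exact h2) with h6 | ⟨y, hy, hP⟩
      · exact h6.of_mir
      · have hy' := near_mir' hy
        exact absurd hP (hno y (((hx.trans hy').symm').mono (by norm_num)) ∘ fun h => h)
  have hNB : ∀ x, Near R 20 e x → NoB R K 25 x := fun x hx y hy =>
    hC y ((hx.trans hy).mono (by norm_num))
  -- no neighbours of lengths five and six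
  have h6 : ∀ x, Near R 17 e x → Snd R K x → nb R x 0 = 5 → ∀ j < 5, nb R x j ≠ 6 := by
    intro x hx hS h0 j hj hj6
    have hs := hS.1.1
    have hn := hNB x (hx.mono (by norm_num))
    have hp : PairS R x := hn.pairS (by norm_num) hS h0
    have hp' : PairS (mir R) x.symm := by
      have hn' : NoB (mir R) K 20 x.symm := NoB.mir hn
      exact hn'.pairS (by norm_num) hS.mir (by rw [nb5_mir0 hs]; exact h0)
    have hx' : Near R 60 e x.symm := hx.symm'.mono (by norm_num)
    interval_cases j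
    · omega
    · exact hno x (hx.mono (by norm_num)) (hT.r2 x hS hp hj6)
    · exact hno x (hx.mono (by norm_num)) (hT.l2 x hS hp hj6)
    · exact hno x.symm hx' (hT'.l2 x.symm hS.mir hp' (by
        rw [nb5_mir hs (by norm_num)]; exact hj6))
    · exact hno x.symm hx' (hT'.r2 x.symm hS.mir hp' (by
        rw [nb5_mir hs (by norm_num)]; exact hj6))
  have nR : Near R 60 e e := Near.refl R 60 e
  have hn0 : NoB R K 25 e := hNB e (Near.refl R 20 e)
  apply h
  refine ⟨h5, fun hs => ?_, fun hs => ?_, fun hs ho => ?_⟩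
  · -- faces of length five
    have hc := hC e (Near.refl R 45 e) hs
    refine ⟨hc.two, hc.end1, hc.end2, fun hS h0 => h6 e (Near.refl R 17 e) hS h0,
      fun hS h0 h1 => ?_⟩
    apply hpat
    refine ⟨hs, h0, h1, fun i hi h5' => ?_⟩
    have h7 : Near R 17 e (R.next^[i] e) := ((Near.refl R 0 e).iter i).mono (by omega)
    have h8 := h6 _ h7 (hS.iter i) (by rw [nb_iter]; exact h5') (5 - i)
    rcases Nat.eq_zero_or_pos i with rfl | hi0
    · have h9 : nb R e 0 = 6 := h0
      omega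
    · have h9 := h8 (by omega)
      rw [nb_iter, show i + (5 - i) = 0 + 5 by omega, nb_per R hs] at h9
      exact h9 h0
  · -- faces of length seven
    have hx' : Near R 60 e (R.next e).symm := (((Near.refl R 0 e).next).symm').mono (by norm_num)
    have n1 : NoB R K 25 (R.next e) := hNB _ (((Near.refl R 0 e).next).mono (by norm_num))
    have hs1 : sz R (R.next e) = 7 := by rw [sz_next]; exact hs
    have hs' : sz (mir R) (R.next e).symm = 7 := by rw [sz_mir_symm]; exact hs1
    have n1' : NoB (mir R) K 20 (R.next e).symm := NoB.mir n1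
    refine ⟨?_, ?_, ?_, ?_, ?_, ?_, ?_⟩
    · intro a b _ _ f
      rcases hn0.t3 h3 (by norm_num) hs a b f with ⟨k5, k3, hp⟩ | hp
      · exact hno e nR (hT.g1 e hp k3 k5 a b f)
      · exact hno e nR (hT.p2 e hp f (Or.inl ⟨a, b⟩))
    · intro a b _ _ f
      have hp := hn0.pair7 h3 (by norm_num) hs a.1.1 b.1.1 (Or.inl a)
      rcases hn0.t4 h3 (by norm_num) hs a b f with k | - | k
      · exact hno e nR (hT.g2 e k a b f)
      · by_cases e3 : nb R (ad R e 4) 3 = 5
        · by_cases e2 : nb R (ad R e 4) 2 = 5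
          · rcases hn0.t4 h3 (by norm_num) hs a b f with k | k | k
            · exact hno e nR (hT.g2 e k a b f)
            · have := k.n03
              rw [ad_iter, show 4 + 0 = 4 from rfl] at this
              exact this e3
            · exact hno e nR (hT.g2r e k a b f)
          · exact hno e nR (hT.g2 e ⟨hp, f.1.1, e2⟩ a b f)
        · refine hno _ hx' (hT'.g2 _ (g2_mir hp f.1.1 e3) ?_ ?_ ?_)
          · rw [ad7_mir0 hs]; exact b.mir
          · rw [ad7_mir1 hs]; exact a.mir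
          · rw [ad7_mir hs (by norm_num)]; exact f.mir
      · exact hno e nR (hT.g2r e k a b f)
    · intro a b _ _ f
      have a' : Snd (mir R) K (ad (mir R) (R.next e).symm 0) := by rw [ad7_mir0 hs]; exact b.mir
      have b' : Snd (mir R) K (ad (mir R) (R.next e).symm 1) := by rw [ad7_mir1 hs]; exact a.mir
      have f' : Snd (mir R) K (ad (mir R) (R.next e).symm 3) := by
        rw [ad7_mir hs (by norm_num)]; exact f.mir
      rcases n1'.t3 h3 (by norm_num) hs' a' b' f' with ⟨k5, k3, hp⟩ | hp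
      · exact hno _ hx' (hT'.g1 _ hp k3 k5 a' b' f')
      · exact hno _ hx' (hT'.p2 _ hp f' (Or.inl ⟨a', b'⟩))
    · rintro ⟨a, b, c, d⟩
      exact hno e nR (hT.p1 e (hn0.p1 h3 (by norm_num) hs a.1.1 b.1.1 (Or.inl a) c.1.1 d.1.1
        (Or.inl c)) a b c d)
    · rintro ⟨a, b, c, d⟩
      exact hno e nR (hT.p2 e (hn0.p2 h3 (by norm_num) hs a.1.1 b (Or.inl a) c d.1.1) c
        (Or.inr ⟨d, Or.inl a⟩))
    · rintro ⟨a, b, c, d⟩
      exact hno e nR (hT.p2 e (hn0.p2 h3 (by norm_num) hs a b.1.1 (Or.inr b) c d.1.1) c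
        (Or.inr ⟨d, Or.inr b⟩))
    · rintro ⟨a, b, c, d, f, k⟩
      exact hno e nR (hT.g3 e hs a b c d f k)
  · -- long faces
    obtain ⟨y, hy, hP⟩ := hT.toTabBC.long hT'.toTabBC h3 hK hs fun i hi => ho i (by omega)
    exact hno y (hy.mono (by norm_num)) hP

/-- **A configuration of stage B gives a legal place or a pattern.** -/
theorem TabB.occ (hT : TabB R K P) (hT' : TabB (mir R) K P) (h3 : ∀ v, G.degree v = 3)
    (h5 : ∀ d, 5 ≤ sz R d) (hK : 6 ≤ K) {e : G.Dart} (h : ¬ LocB R K e) :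
    (∃ x, Near R 60 e x ∧ P x.fst) ∨ Pat7 R e :=
  hT.occ' hT' h3 hK (h5 e) h

end Pool.Agent.DischB
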