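import Pool.Agent.Work.MP_392c8e_co_uni.GaussBonnet
import Pool.Agent.Work.MP_392c8e_co_uni.Disch
import Pool.Agent.Work.MP_392c8e_co_red.PlG

/-!
# The inequality of Gauss and Bonnet for plane cubic graphs

Together with the discharging: a nonempty set of vertices of a plane cubic graph has few corners
that are not in hexagons, compared with the number of its bad corners and of the darts leaving it.
-/

set_option autoImplicit false
set_option linter.unusedSectionVars false

namespace Pool.Agent.Uni392

open Finset Pool.Agent.Sub392 Pool.Agent.T392 Pool.Agent.Disch392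
open Pool.Agent.Red (inc Full Orth Conn full_of_euler euler_le ind)

variable {V : Type} [Fintype V] [DecidableEq V] {G : SimpleGraph V} [DecidableRel G.Adj]

theorem conn_up (hc : G.Connected) :
    Conn (fun e : Up G => e.1.fst) (fun e : Up G => e.1.snd) := by
  intro φ hφ u v
  have h1 : ∀ x y, G.Adj x y → φ x = φ y := by
    intro x y hxy
    rcases up_or (⟨(x, y), hxy⟩ : G.Dart) with h3 | h3
    · exact hφ ⟨⟨(x, y), hxy⟩, h3⟩
    · exact (hφ ⟨_, h3⟩).symm
  obtain ⟨w⟩ := hc.preconnected u v
  induction w with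
  | nil => rfl
  | cons h _ ih => exact (h1 _ _ h).trans ih

theorem orth_up (R : Rot G) : Orth (fun e : Up G => e.1.fst) (fun e : Up G => e.1.snd)
    (fun e => R.face e.1) (fun e => R.face e.1.symm) := by
  intro v x
  have h1 : ∑ d : G.Dart, ind d.fst v * (ind (R.face d) x - ind (R.face d.symm) x) = 0 := by
    simp only [mul_sub]
    rw [sum_sub_distrib, sub_eq_zero]
    refine (Equiv.sum_comp R.rot (fun d => ind d.fst v * ind (R.face d) x)).symm.trans ?_
    refine sum_congr rfl fun d _ => ?_
    rw [R.fst_rot, R.face_rot]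
  rw [sum_dart] at h1
  rw [← neg_eq_zero, ← sum_neg_distrib, ← h1]
  refine sum_congr rfl fun e _ => ?_
  show -((ind e.1.snd v - ind e.1.fst v) * (ind (R.face e.1) x - ind (R.face e.1.symm) x)) =
    ind e.1.fst v * (ind (R.face e.1) x - ind (R.face e.1.symm) x) +
      ind e.1.snd v * (ind (R.face e.1.symm) x - ind (R.face e.1.symm.symm) x)
  rw [SimpleGraph.Dart.symm_symm]
  ring

theorem conn_face (R : Rot G) (hc : G.Connected) :
    Conn (fun e : Up G => R.face e.1.symm) (fun e : Up G => R.face e.1) := by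
  intro φ hφ x y
  have h2 : ∀ d : G.Dart, φ (R.face d.symm) = φ (R.face d) := by
    intro d
    rcases up_or d with h3 | h3
    · exact hφ ⟨d, h3⟩
    · have := hφ ⟨_, h3⟩
      simp only [SimpleGraph.Dart.symm_symm] at this
      exact this.symm
  have h3 := R.const hc (fun d => φ (R.face d)) (fun d => by rw [R.face_next]) h2
  obtain ⟨d, rfl⟩ := R.face_surj x
  obtain ⟨d', rfl⟩ := R.face_surj y
  exact h3 d d'

theorem full_up (R : Rot G) (hP : R.Plane) (hD : Nonempty G.Dart) :
    Full (fun e : Up G => e.1.fst) (fun e : Up G => e.1.snd)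
      (fun e => R.face e.1) (fun e => R.face e.1.symm) := by
  have h0 : Nonempty V := hP.1.nonempty
  have h1 : Nonempty R.Face := hD.map R.face
  refine full_of_euler (orth_up R) (conn_up hP.1) (conn_face R hP.1) ?_
  have := hP.2
  rw [← card_up] at this
  exact this

theorem around_up (R : Rot G) : Around (fun e : Up G => e.1.fst) (fun e : Up G => e.1.snd)
    (fun e => R.face e.1) (fun e => R.face e.1.symm) := by
  intro x Q hQ
  have h1 : ∀ d : G.Dart, d.fst = x → Q (R.face d) (R.face d.symm) := by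
    intro d hd
    rcases up_or d with h3 | h3
    · exact hQ ⟨d, h3⟩ (Or.inl hd)
    · have := hQ ⟨_, h3⟩ (Or.inr hd)
      simp only [SimpleGraph.Dart.symm_symm] at this
      exact Q.symm this
  have h2 : ∀ (n : ℕ) (d : G.Dart), d.fst = x →
      ((R.rot ^ n) d).fst = x ∧ Q (R.face d) (R.face ((R.rot ^ n) d)) := by
    intro n
    induction n with
    | zero => exact fun d hd => ⟨hd, Q.refl _⟩
    | succ n ih =>
      intro d hd
      obtain ⟨h3, h4⟩ := ih d hd
      rw [pow_succ', Equiv.Perm.mul_apply]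
      refine ⟨(R.fst_rot _).trans h3, Q.trans h4 ?_⟩
      rw [R.face_rot]
      exact h1 _ h3
  have h3 : ∀ d d' : G.Dart, d.fst = x → d'.fst = x → Q (R.face d) (R.face d') := by
    intro d d' hd hd'
    obtain ⟨i, -, hi⟩ := (R.cyc d d' (hd.trans hd'.symm)).exists_pow_eq'
    rw [← hi]
    exact (h2 i d hd).2
  have h4 : ∀ e : Up G, (e.1.fst = x ∨ e.1.snd = x) → ∃ d : G.Dart, d.fst = x ∧
      Q (R.face e.1) (R.face d) := by
    rintro e (he | he)
    · exact ⟨e.1, he, Q.refl _⟩
    · exact ⟨e.1.symm, he, hQ e (Or.inr he)⟩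
  intro e e' he he'
  obtain ⟨d, hd, h5⟩ := h4 e he
  obtain ⟨d', hd', h6⟩ := h4 e' he'
  exact Q.trans h5 (Q.trans (h3 d d' hd hd') (Q.symm h6))

theorem card_dart (P : G.Dart → Prop) [DecidablePred P] : (univ.filter P).card =
    (univ.filter fun e : Up G => P e.1).card + (univ.filter fun e : Up G => P e.1.symm).card := by
  rw [Finset.card_filter, Finset.card_filter, Finset.card_filter, sum_dart, sum_add_distrib]

theorem len_up (R : Rot G) (f : R.Face) :
    len (fun e : Up G => R.face e.1) (fun e : Up G => R.face e.1.symm) f = R.size f := by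
  unfold len Rot.size
  exact (card_dart (fun d => R.face d = f)).symm

/-- **The inequality of Gauss and Bonnet** for a nonempty set of vertices of degree three in a
plane graph. -/
theorem gauss_bonnet_rot (R : Rot G) (hP : R.Plane) (U : Finset V) (hU : U.Nonempty)
    (hdeg : ∀ v ∈ U, G.degree v = 3) :
    12 - 9 * (#(bd (G := G) U) : ℝ) ≤
      ∑ d ∈ univ.filter (fun d : G.Dart => d.fst ∈ U), kap R d := by
  classical
  obtain ⟨u, hu⟩ := hU
  have hD : Nonempty G.Dart := by
    have h1 : 0 < G.degree u := by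
      rw [hdeg u hu]
      norm_num
    obtain ⟨w, hw⟩ := (G.degree_pos_iff_exists_adj u).1 h1
    exact ⟨⟨(u, w), hw⟩⟩
  have hE : Nonempty (Up G) := by
    obtain ⟨d⟩ := hD
    rcases up_or d with h3 | h3
    · exact ⟨⟨d, h3⟩⟩
    · exact ⟨⟨_, h3⟩⟩
  have hdeg' : ∀ v, (univ.filter fun e : Up G => e.1.fst = v).card +
      (univ.filter fun e : Up G => e.1.snd = v).card = G.degree v := by
    intro v
    rw [← G.dart_fst_fiber_card_eq_degree v]
    exact (card_dart (fun d : G.Dart => d.fst = v)).symm
  have key := gauss_bonnet (full_up R hP hD) (conn_up hP.1) (around_up R) (by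
    intro f
    obtain ⟨d, rfl⟩ := R.face_surj f
    rcases up_or d with h3 | h3
    · exact ⟨⟨d, h3⟩, Or.inl rfl⟩
    · refine ⟨⟨_, h3⟩, Or.inr ?_⟩
      show R.face d.symm.symm = R.face d
      rw [SimpleGraph.Dart.symm_symm]) hE U ⟨u, hu⟩ (fun v hv => (hdeg' v).trans (hdeg v hv))
  -- the boundary
  have hbd : ((univ.filter fun e : Up G => ¬ (e.1.fst ∈ U ↔ e.1.snd ∈ U)).card : ℕ) =
      #(bd (G := G) U) := by
    have h1 : #(bd (G := G) U) =
        (univ.filter fun d : G.Dart => d.fst ∈ U ∧ d.snd ∉ U).card := rfl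
    rw [h1, card_dart]
    rw [Finset.card_filter, Finset.card_filter, Finset.card_filter, ← Finset.sum_add_distrib]
    refine Finset.sum_congr rfl fun e _ => ?_
    show (if ¬ (e.1.fst ∈ U ↔ e.1.snd ∈ U) then 1 else 0) =
      (if e.1.fst ∈ U ∧ e.1.snd ∉ U then 1 else 0) +
      (if e.1.snd ∈ U ∧ e.1.fst ∉ U then 1 else 0)
    by_cases h2 : e.1.fst ∈ U <;> by_cases h3 : e.1.snd ∈ U <;> simp [h2, h3]
  -- the corners
  have hcor : (∑ e : Up G, ((if e.1.fst ∈ U then
        1 / (len (fun e : Up G => R.face e.1) (fun e : Up G => R.face e.1.symm)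
          (R.face e.1) : ℚ) else 0) +
      (if e.1.snd ∈ U then 1 / (len (fun e : Up G => R.face e.1)
        (fun e : Up G => R.face e.1.symm) (R.face e.1.symm) : ℚ) else 0))) =
      ∑ d : G.Dart, (if d.fst ∈ U then 1 / (sz R d : ℚ) else 0) := by
    rw [sum_dart]
    refine Finset.sum_congr rfl fun e _ => ?_
    rw [len_up, len_up]
    rfl
  rw [hcor, hbd] at key
  have key' : (U.card : ℝ) / 2 + 2 - 3 / 2 * (#(bd (G := G) U) : ℝ) ≤
      ∑ d : G.Dart, (if d.fst ∈ U then 1 / (sz R d : ℝ) else 0) := by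
    have h1 : (((U.card : ℚ) / 2 + 2 - 3 / 2 * (#(bd (G := G) U) : ℚ) : ℚ) : ℝ) ≤
        ((∑ d : G.Dart, (if d.fst ∈ U then 1 / (sz R d : ℚ) else 0) : ℚ) : ℝ) := by
      exact_mod_cast key
    rw [Rat.cast_sum] at h1
    have h2 : ∀ d : G.Dart, (((if d.fst ∈ U then 1 / (sz R d : ℚ) else 0) : ℚ) : ℝ) =
        if d.fst ∈ U then 1 / (sz R d : ℝ) else 0 := by
      intro d
      split_ifs
      · push_cast
        rfl
      · exact Rat.cast_zero
    simp only [h2] at h1
    push_cast at h1
    exact h1
  rw [← Finset.sum_filter] at key'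
  -- the number of corners
  have hnum : ((univ.filter (fun d : G.Dart => d.fst ∈ U)).card : ℝ) = 3 * U.card := by
    have h1 : (univ.filter (fun d : G.Dart => d.fst ∈ U)).card = 3 * U.card := by
      rw [Finset.card_eq_sum_card_fiberwise (f := fun d : G.Dart => d.fst) (t := U) (by
        intro d hd
        simpa using hd)]
      rw [Finset.sum_congr rfl (g := fun _ => 3) (fun v hv => ?_), Finset.sum_const, smul_eq_mul,
        mul_comm]
      rw [← hdeg v hv, ← G.dart_fst_fiber_card_eq_degree v]
      congr 1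
      ext d
      simp only [Finset.mem_filter, Finset.mem_univ, true_and]
      constructor
      · exact fun h => h.2
      · rintro rfl
        exact ⟨hv, rfl⟩
    exact_mod_cast h1
  have hkap : ∑ d ∈ univ.filter (fun d : G.Dart => d.fst ∈ U), kap R d =
      6 * ∑ d ∈ univ.filter (fun d : G.Dart => d.fst ∈ U), 1 / (sz R d : ℝ) -
      ((univ.filter (fun d : G.Dart => d.fst ∈ U)).card : ℝ) := by
    rw [Finset.mul_sum, Finset.cast_card, ← Finset.sum_sub_distrib]
    refine Finset.sum_congr rfl fun d _ => ?_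
    unfold kap
    ring
  rw [hkap, hnum]
  linarith

open Classical in
/-- **The linear inequality.**  In a plane cubic graph every nonempty set of vertices has many bad
corners or many darts leaving it, compared with its corners outside the hexagons. -/
theorem corners_le (R : Rot G) (hP : R.Plane) (U : Finset V) (hU : U.Nonempty)
    (hdeg : ∀ v ∈ U, G.degree v = 3) :
    12 + (1 / 100) * (#{d : G.Dart | d.fst ∈ U ∧ sz R d ≠ 6} : ℝ) ≤
      7 * #{d : G.Dart | d.fst ∈ U ∧ ¬ Good R d} + 24 * #(bd (G := G) U) := by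
  have h1 := gauss_bonnet_rot R hP U hU hdeg
  have h2 := disch R U
  linarith

end Pool.Agent.Uni392
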