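import Mathlib
import Pool.Agent.Work.MP_392c8e_co_uni.GBRot
import Pool.Agent.Work.MP_392c8e_co_uni.GeoBase
import Pool.Agent.Work.MP_392c8e_co_t1.PlRot

/-!
# The ring around a set of vertices

The darts leaving a connected set `U` of vertices of a plane cubic graph, in the order in which the
faces come back to `U`.  An orbit of this permutation is a cut of the graph, so in a cyclically
5-edge-connected graph an orbit has at least five elements (up to small exceptions), and all darts
leaving `U` form one orbit if there are at most nine of them.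
-/

namespace Pool.Agent.Ring392

open Finset Pool.Agent.Sub392 Pool.Agent.T392 Pool.Agent.Disch392 Pool.Agent.Uni392 Pool.Agent.U2Geo
open Pool.Agent.Red (inc Full Orth Conn ind)

set_option linter.unusedSectionVars false

variable {V : Type} [Fintype V] [DecidableEq V] {G : SimpleGraph V} [DecidableRel G.Adj]

/-- Antisymmetric functions on the darts with sum zero on every face are potential differences. -/
theorem exact_rot (R : Rot G) (hP : R.Plane) (hD : Nonempty G.Dart) (x : G.Dart → ℚ)
    (ha : ∀ d, x d.symm = -x d)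
    (h0 : ∀ f : R.Face, ∑ d : G.Dart, (if R.face d = f then x d else 0) = 0) :
    ∃ g : V → ℚ, ∀ d : G.Dart, x d = g d.snd - g d.fst := by
  classical
  obtain ⟨g, hg⟩ := Full.exact (full_up R hP hD) (fun e => x e.1) (by
    intro f
    have h1 := h0 f
    rw [sum_dart] at h1
    rw [← h1]
    refine sum_congr rfl fun e _ => ?_
    unfold inc
    rw [ha]
    split_ifs <;> ring)
  refine ⟨g, fun d => ?_⟩
  rcases up_or d with h | h
  · exact hg ⟨d, h⟩
  · have h2 := hg ⟨d.symm, h⟩
    simp only [ha] at h2
    have h3 : x d = -(g d.symm.snd - g d.symm.fst) := by linarith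
    rw [h3]
    show -(g d.fst - g d.snd) = _
    ring

/-- Darts leaving a set. -/
def Ex (U : V → Prop) (d : G.Dart) : Prop := U d.fst ∧ ¬ U d.snd

/-- The number of steps to the return to the set. -/
noncomputable def rn (R : Rot G) (U : V → Prop) (d : G.Dart) : ℕ :=
  sInf {k | 1 ≤ k ∧ U (R.next^[k] d).snd}

theorem fst_iter (R : Rot G) (d : G.Dart) (k : ℕ) :
    (R.next^[k + 1] d).fst = (R.next^[k] d).snd := by
  rw [Function.iterate_succ_apply', R.fst_next]

theorem face_iter (R : Rot G) (d : G.Dart) (k : ℕ) : R.face (R.next^[k] d) = R.face d := by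
  induction k with
  | zero => rfl
  | succ k ih => rw [Function.iterate_succ_apply', R.face_next, ih]

variable {U : V → Prop}

theorem rn_set (R : Rot G) {d : G.Dart} (hd : Ex U d) :
    ∃ k, 1 ≤ k ∧ k + 1 ≤ sz R d ∧ U (R.next^[k] d).snd := by
  have h1 := next_sz R d
  have h2 : sz R d ≠ 0 := by
    have : 0 < sz R d := by
      rw [sz, Rot.size]
      exact Finset.card_pos.2 ⟨d, by simp⟩
    omega
  obtain ⟨k, hk⟩ := Nat.exists_eq_succ_of_ne_zero h2
  rw [hk] at h1
  have h3 : U (R.next^[k] d).snd := by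
    rw [← fst_iter, h1]
    exact hd.1
  refine ⟨k, ?_, by omega, h3⟩
  by_contra hcon
  have hk0 : k = 0 := by omega
  subst hk0
  exact hd.2 h3

theorem rn_spec (R : Rot G) {d : G.Dart} (hd : Ex U d) :
    1 ≤ rn R U d ∧ U (R.next^[rn R U d] d).snd := by
  obtain ⟨k, h1, -, h2⟩ := rn_set R hd
  exact Nat.sInf_mem (s := {k | 1 ≤ k ∧ U (R.next^[k] d).snd}) ⟨k, h1, h2⟩

theorem rn_lt (R : Rot G) {d : G.Dart} (hd : Ex U d) : rn R U d < sz R d := by
  obtain ⟨k, h1, h3, h2⟩ := rn_set R hd
  have := Nat.sInf_le (s := {k | 1 ≤ k ∧ U (R.next^[k] d).snd}) (m := k) ⟨h1, h2⟩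
  unfold rn
  omega

theorem rn_out (R : Rot G) {d : G.Dart} (hd : Ex U d) {i : ℕ} (hi : i < rn R U d) :
    ¬ U (R.next^[i] d).snd := by
  rcases Nat.eq_zero_or_pos i with rfl | h
  · exact hd.2
  · intro hcon
    have := Nat.sInf_le (s := {k | 1 ≤ k ∧ U (R.next^[k] d).snd}) (m := i) ⟨h, hcon⟩
    unfold rn at hi
    omega

/-- The next dart leaving the set. -/
noncomputable def sg (R : Rot G) (U : V → Prop) (d : {d : G.Dart // Ex U d}) :
    {d : G.Dart // Ex U d} :=
  ⟨(R.next^[rn R U d.1] d.1).symm, (rn_spec R d.2).2, by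
    show ¬ U (R.next^[rn R U d.1] d.1).fst
    obtain ⟨k, hk⟩ := Nat.exists_eq_succ_of_ne_zero (n := rn R U d.1)
      (by have := (rn_spec R d.2).1; omega)
    rw [hk]
    show ¬ U (R.next^[k + 1] d.1).fst
    rw [fst_iter]
    exact rn_out R d.2 (by omega)⟩

theorem sg_inj (R : Rot G) (U : V → Prop) : Function.Injective (sg R U) := by
  -- two darts reaching the same dart
  have key : ∀ d e : {d : G.Dart // Ex U d}, rn R U d.1 ≤ rn R U e.1 → sg R U d = sg R U e →
      d = e := by
    intro d e hle h
    have h1 : R.next^[rn R U d.1] d.1 = R.next^[rn R U e.1] e.1 := by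
      have := congrArg (fun x => x.1.symm) h
      simpa [sg] using this
    obtain ⟨i, hi⟩ := Nat.exists_eq_add_of_le hle
    rw [hi, Function.iterate_add_apply] at h1
    have h2 : d.1 = R.next^[i] e.1 := (R.next.injective.iterate _) h1
    rcases Nat.eq_zero_or_pos i with rfl | h3
    · exact Subtype.ext h2
    · exfalso
      obtain ⟨j, rfl⟩ := Nat.exists_eq_succ_of_ne_zero h3.ne'
      have h4 : U (R.next^[j + 1] e.1).fst := h2 ▸ d.2.1
      rw [fst_iter] at h4
      have h5 := (rn_spec R d.2).1
      exact rn_out R e.2 (by omega) h4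
  intro d e h
  rcases le_total (rn R U d.1) (rn R U e.1) with h1 | h1
  · exact key d e h1 h
  · exact (key e d h1 h.symm).symm

/-- The permutation of the darts leaving the set. -/
noncomputable def ring (R : Rot G) (U : V → Prop) : Equiv.Perm {d : G.Dart // Ex U d} :=
  Equiv.ofBijective (sg R U) (Finite.injective_iff_bijective.1 (sg_inj R U))

theorem ring_apply (R : Rot G) (U : V → Prop) (d : {d : G.Dart // Ex U d}) :
    ring R U d = sg R U d := rfl

/-- The orbit of a dart. -/
def Orb (R : Rot G) (U : V → Prop) (e : {d : G.Dart // Ex U d}) (d : G.Dart) : Prop :=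
  ∃ h : Ex U d, (ring R U).SameCycle e ⟨d, h⟩

theorem Orb.ex {R : Rot G} {e : {d : G.Dart // Ex U d}} {d : G.Dart} (h : Orb R U e d) : Ex U d :=
  h.1

theorem Orb.next {R : Rot G} {e : {d : G.Dart // Ex U d}} {d : G.Dart} (h : Orb R U e d) :
    Orb R U e (sg R U ⟨d, h.1⟩).1 := by
  obtain ⟨h1, h2⟩ := h
  refine ⟨(sg R U ⟨d, h1⟩).2, ?_⟩
  rw [show (⟨(sg R U ⟨d, h1⟩).1, (sg R U ⟨d, h1⟩).2⟩ : {d : G.Dart // Ex U d}) =
    ring R U ⟨d, h1⟩ from rfl]
  exact Equiv.Perm.sameCycle_apply_right.2 h2

/-- On every face as many darts of an orbit leave the set as come back. -/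
theorem orb_face (R : Rot G) (U : V → Prop) (e : {d : G.Dart // Ex U d}) (f : R.Face)
    [DecidablePred (Orb R U e)] :
    #{d : G.Dart | R.face d = f ∧ Orb R U e d} = #{d : G.Dart | R.face d = f ∧ Orb R U e d.symm} := by
  classical
  refine Finset.card_bij (fun d _ => R.next^[rn R U d] d) ?_ ?_ ?_
  · intro d hd
    simp only [mem_filter, mem_univ, true_and] at hd ⊢
    refine ⟨?_, hd.2.next⟩
    rw [← hd.1]
    exact face_iter R _ _
  · intro d hd d' hd' h
    simp only [mem_filter, mem_univ, true_and] at hd hd'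
    have := sg_inj R U (a₁ := ⟨d, hd.2.1⟩) (a₂ := ⟨d', hd'.2.1⟩) (Subtype.ext (by
      show (R.next^[rn R U d] d).symm = (R.next^[rn R U d'] d').symm
      rw [h]))
    exact congrArg Subtype.val this
  · intro b hb
    simp only [mem_filter, mem_univ, true_and] at hb
    obtain ⟨hb1, hb2, hb3⟩ := hb
    obtain ⟨a, h2⟩ := (ring R U).surjective ⟨b.symm, hb2⟩
    have h1 : (ring R U).SameCycle e a := by
      rw [← h2] at hb3
      exact Equiv.Perm.sameCycle_apply_right.1 hb3
    have h3 : R.next^[rn R U a.1] a.1 = b := by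
      have := congrArg (fun x => x.1.symm) h2
      simpa [ring_apply, sg] using this
    refine ⟨a.1, ?_, h3⟩
    simp only [mem_filter, mem_univ, true_and]
    refine ⟨?_, a.2, h1⟩
    rw [← hb1, ← h3]
    exact (face_iter R _ _).symm

/-- **An orbit is a cut.** -/
theorem orb_cut (R : Rot G) (hP : R.Plane) (hU : ∀ g : V → ℚ,
    (∀ u v, U u → U v → G.Adj u v → g u = g v) → ∀ u v, U u → U v → g u = g v)
    (e : {d : G.Dart // Ex U d}) : ∃ K : Finset V, (∀ v ∈ K, ¬ U v) ∧
      (∀ d : G.Dart, d.fst ∉ K → d.snd ∈ K → Orb R U e d) ∧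
      ∀ d : G.Dart, Orb R U e d → d.snd ∈ K := by
  classical
  obtain ⟨g, hg⟩ := exact_rot R hP ⟨e.1⟩
    (fun d => (if Orb R U e d then 1 else 0) - (if Orb R U e d.symm then 1 else 0)) (by
      intro d
      rw [SimpleGraph.Dart.symm_symm]
      ring) (by
      intro f
      have h1 := orb_face R U e f
      have h2 : ∀ d : G.Dart, (if R.face d = f then
          ((if Orb R U e d then (1 : ℚ) else 0) - (if Orb R U e d.symm then 1 else 0)) else 0) =
          (if R.face d = f ∧ Orb R U e d then (1 : ℚ) else 0) -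
          (if R.face d = f ∧ Orb R U e d.symm then (1 : ℚ) else 0) := by
        intro d
        by_cases h3 : R.face d = f <;> simp [h3]
      rw [sum_congr rfl fun d _ => h2 d, sum_sub_distrib, sum_boole, sum_boole, h1, sub_self])
  have hno : ∀ d : G.Dart, ¬ (Orb R U e d ∧ Orb R U e d.symm) := by
    rintro d ⟨h1, h2⟩
    exact h1.1.2 h2.1.1
  have hin : ∀ u v, U u → U v → g u = g v := by
    refine hU g fun u v hu hv huv => ?_
    have h1 := hg ⟨(u, v), huv⟩
    have h2 : ¬ Orb R U e ⟨(u, v), huv⟩ := fun h => h.1.2 hv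
    have h3 : ¬ Orb R U e (⟨(u, v), huv⟩ : G.Dart).symm := fun h => h.1.2 hu
    simp only [h2, h3, if_false] at h1
    linarith
  refine ⟨univ.filter fun v => ¬ U v ∧ g v ≠ g e.1.fst, ?_, ?_, ?_⟩
  · intro v hv
    exact ((mem_filter.1 hv).2).1
  · intro d h1 h2
    simp only [mem_filter, mem_univ, true_and] at h1 h2
    have h3 := hg d
    have h4 : g d.snd ≠ g d.fst := by
      by_cases h5 : U d.fst
      · rw [hin d.fst e.1.fst h5 e.2.1]
        exact h2.2
      · have h6 : g d.fst = g e.1.fst := by
          by_contra h7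
          exact h1 ⟨h5, h7⟩
        rw [h6]
        exact h2.2
    by_contra h5
    have h6 : ¬ Orb R U e d.symm := fun h => h2.1 h.1.1
    simp only [h5, h6, if_false] at h3
    exact h4 (by linarith)
  · intro d h1
    simp only [mem_filter, mem_univ, true_and]
    have h2 : ¬ Orb R U e d.symm := fun h => hno d ⟨h1, h⟩
    have h3 := hg d
    simp only [h1, h2, if_true, if_false] at h3
    refine ⟨h1.1.2, fun h4 => ?_⟩
    rw [h4, hin d.fst e.1.fst h1.1.1 e.2.1] at h3
    linarith

open Classical in
/-- The number of leaving darts of the cut of an orbit. -/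
theorem orb_out (R : Rot G) {e : {d : G.Dart // Ex U d}} {K : Finset V} (h1 : ∀ v ∈ K, ¬ U v)
    (h2 : ∀ d : G.Dart, d.fst ∉ K → d.snd ∈ K → Orb R U e d)
    (h3 : ∀ d : G.Dart, Orb R U e d → d.snd ∈ K) :
    out G K = #{d : G.Dart | Orb R U e d} := by
  unfold out
  refine Finset.card_bij (fun d _ => d.symm) ?_ ?_ ?_
  · intro d hd
    simp only [mem_filter, mem_univ, true_and] at hd ⊢
    exact h2 d.symm hd.2 hd.1
  · intro d _ d' _ h
    have := congrArg SimpleGraph.Dart.symm h
    simpa using this
  · intro d hd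
    simp only [mem_filter, mem_univ, true_and] at hd
    refine ⟨d.symm, ?_, SimpleGraph.Dart.symm_symm d⟩
    simp only [mem_filter, mem_univ, true_and]
    exact ⟨h3 d hd, fun h => h1 _ h hd.1.1⟩

open Classical in
/-- Small orbits. -/
theorem small_orb {R : Rot G} (hC : C5 R) (hU : ∀ g : V → ℚ,
    (∀ u v, U u → U v → G.Adj u v → g u = g v) → ∀ u v, U u → U v → g u = g v)
    (hU3 : 3 ≤ #{v : V | U v}) (H1 : ∀ v, ¬ U v → ∃ w, G.Adj v w ∧ ¬ U w)
    (e : {d : G.Dart // Ex U d}) (he : #{d : G.Dart | Orb R U e d} ≤ 4) :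
    ∃ u v, G.Adj u v ∧ ¬ U u ∧ ¬ U v ∧ (∀ w, G.Adj u w → w = v ∨ U w) ∧
      (∀ w, G.Adj v w → w = u ∨ U w) ∧ (∀ d : G.Dart, Orb R U e d → d.snd = u ∨ d.snd = v) ∧
      #{d : G.Dart | Orb R U e d} = 4 := by
  obtain ⟨K, h1, h2, h3⟩ := orb_cut R hC.plane hU e
  have h4 := orb_out R h1 h2 h3
  have h5 : #K ≤ 2 := by
    rcases hC.cut K (by omega) with h5 | h5
    · exact h5
    · exfalso
      have h6 : (univ.filter fun v => U v) ⊆ Kᶜ := by
        intro v hv
        rw [mem_compl]
        exact fun h => h1 v h (mem_filter.1 hv).2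
      have := card_le_card h6
      omega
  have hu : e.1.snd ∈ K := h3 _ ⟨e.2, Equiv.Perm.SameCycle.refl _ _⟩
  obtain ⟨w, hw, hw'⟩ := H1 _ e.2.2
  have hcl : ∀ x y, G.Adj x y → y ∈ K → ¬ U x → x ∈ K := by
    intro x y hxy hy hx
    by_contra hcon
    exact hx (h2 ⟨(x, y), hxy⟩ hcon hy).1.1
  have hwK : w ∈ K := hcl _ _ hw.symm hu hw'
  have hK : K = {e.1.snd, w} := by
    refine (Finset.eq_of_subset_of_card_le ?_ ?_).symm
    · intro x hx
      rw [mem_insert, mem_singleton] at hx
      rcases hx with rfl | rfl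
      · exact hu
      · exact hwK
    · rw [card_pair hw.ne]
      exact h5
  have hnb : ∀ x ∈ K, ∀ y, G.Adj x y → y ∈ K ∨ U y := by
    intro x hx y hxy
    by_cases h6 : U y
    · exact Or.inr h6
    · exact Or.inl (hcl _ _ hxy.symm hx h6)
  refine ⟨e.1.snd, w, hw, e.2.2, hw', ?_, ?_, ?_, ?_⟩
  · intro x hx
    rcases hnb _ hu x hx with h6 | h6
    · rw [hK, mem_insert, mem_singleton] at h6
      rcases h6 with h6 | h6
      · exact absurd h6.symm hx.ne
      · exact Or.inl h6
    · exact Or.inr h6
  · intro x hx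
    rcases hnb _ hwK x hx with h6 | h6
    · rw [hK, mem_insert, mem_singleton] at h6
      rcases h6 with h6 | h6
      · exact Or.inl h6
      · exact absurd h6.symm hx.ne
    · exact Or.inr h6
  · intro d hd
    have := h3 d hd
    rwa [hK, mem_insert, mem_singleton] at this
  · have h6 := out_add hC.cub K
    have h7 : #K = 2 := by rw [hK, card_pair hw.ne]
    have h8 : #{d : G.Dart | d.fst ∈ K ∧ d.snd ∈ K} ≤ 2 := by
      have h9 : (univ.filter fun d : G.Dart => d.fst ∈ K ∧ d.snd ∈ K) ⊆
          {⟨(e.1.snd, w), hw⟩, ⟨(w, e.1.snd), hw.symm⟩} := by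
        intro d hd
        simp only [mem_filter, mem_univ, true_and, hK, mem_insert, mem_singleton] at hd
        rw [mem_insert, mem_singleton]
        rcases hd with ⟨h10 | h10, h11 | h11⟩
        · exact absurd (h10.trans h11.symm) d.adj.ne
        · exact Or.inl (SimpleGraph.Dart.ext _ _ (Prod.ext h10 h11))
        · exact Or.inr (SimpleGraph.Dart.ext _ _ (Prod.ext h10 h11))
        · exact absurd (h10.trans h11.symm) d.adj.ne
      refine (card_le_card h9).trans ?_
      exact Finset.card_le_two
    omega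

open Classical in
theorem orb_disj (R : Rot G) {e e' : {d : G.Dart // Ex U d}} (h : ¬ (ring R U).SameCycle e e') :
    #{d : G.Dart | Orb R U e d} + #{d : G.Dart | Orb R U e' d} ≤ #{d : G.Dart | Ex U d} := by
  rw [← card_union_of_disjoint]
  · refine card_le_card fun d hd => ?_
    simp only [mem_union, mem_filter, mem_univ, true_and] at hd ⊢
    rcases hd with hd | hd
    · exact hd.1
    · exact hd.1
  · rw [disjoint_filter]
    intro d _ h1 h2
    obtain ⟨h3, h4⟩ := h1
    obtain ⟨_, h5⟩ := h2
    exact h (h4.trans h5.symm)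

open Classical in
/-- **All darts leaving the set form one orbit.** -/
theorem one_orbit {R : Rot G} (hC : C5 R) (hU : ∀ g : V → ℚ,
    (∀ u v, U u → U v → G.Adj u v → g u = g v) → ∀ u v, U u → U v → g u = g v)
    (hU3 : 3 ≤ #{v : V | U v}) (H1 : ∀ v, ¬ U v → ∃ w, G.Adj v w ∧ ¬ U w)
    (hk : #{d : G.Dart | Ex U d} ≤ 9)
    (H2 : (∀ u v, G.Adj u v → ¬ U u → ¬ U v → (∀ w, G.Adj u w → w = v ∨ U w) →
      (∀ w, G.Adj v w → w = u ∨ U w) → False) ∨
      (#{d : G.Dart | Ex U d} ≤ 8 ∧ #{v : V | U v} + 4 < Fintype.card V))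
    (e e' : {d : G.Dart // Ex U d}) : (ring R U).SameCycle e e' := by
  by_contra hcon
  have hd := orb_disj R hcon
  have main : ∀ e e' : {d : G.Dart // Ex U d}, ¬ (ring R U).SameCycle e e' →
      #{d : G.Dart | Orb R U e d} ≤ 4 → False := by
    clear hd hcon e e'
    intro e e' hcon he
    have hd := orb_disj R hcon
    obtain ⟨u, v, huv, hu, hv, a1, a2, a3, a4⟩ := small_orb hC hU hU3 H1 e he
    rcases H2 with H2 | ⟨H2, H3⟩
    · exact H2 u v huv hu hv a1 a2
    · obtain ⟨u', v', huv', hu', hv', b1, b2, b3, b4⟩ := small_orb hC hU hU3 H1 e' (by omega)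
      -- every leaving dart is in one of the two orbits
      have h1 : ∀ d : G.Dart, Ex U d → Orb R U e d ∨ Orb R U e' d := by
        intro d hdx
        have h2 : (univ.filter fun d : G.Dart => Orb R U e d) ∪
            (univ.filter fun d : G.Dart => Orb R U e' d) =
            univ.filter fun d : G.Dart => Ex U d := by
          refine Finset.eq_of_subset_of_card_le ?_ ?_
          · intro d hd
            simp only [mem_union, mem_filter, mem_univ, true_and] at hd ⊢
            rcases hd with hd | hd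
            · exact hd.1
            · exact hd.1
          · rw [card_union_of_disjoint]
            · omega
            · rw [disjoint_filter]
              intro d _ h1 h2
              obtain ⟨h3, h4⟩ := h1
              obtain ⟨_, h5⟩ := h2
              exact hcon (h4.trans h5.symm)
        have h3 : d ∈ univ.filter fun d : G.Dart => Ex U d := by simpa using hdx
        rw [← h2] at h3
        simpa using h3
      -- the set is closed
      have h4 : ∀ x y, G.Adj x y → (U x ∨ x = u ∨ x = v ∨ x = u' ∨ x = v') →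
          (U y ∨ y = u ∨ y = v ∨ y = u' ∨ y = v') := by
        intro x y hxy hx
        rcases hx with hx | rfl | rfl | rfl | rfl
        · by_cases hy : U y
          · exact Or.inl hy
          · rcases h1 ⟨(x, y), hxy⟩ ⟨hx, hy⟩ with h5 | h5
            · have := a3 _ h5
              simp only at this
              tauto
            · have := b3 _ h5
              simp only at this
              tauto
        · have := a1 y hxy
          tauto
        · have := a2 y hxy
          tauto
        · have := b1 y hxy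
          tauto
        · have := b2 y hxy
          tauto
      have h5 : ∀ y, U y ∨ y = u ∨ y = v ∨ y = u' ∨ y = v' := by
        intro y
        obtain ⟨w⟩ := hC.plane.1.preconnected u y
        have h6 : ∀ x y (w : G.Walk x y), (U x ∨ x = u ∨ x = v ∨ x = u' ∨ x = v') →
            (U y ∨ y = u ∨ y = v ∨ y = u' ∨ y = v') := by
          intro x y w
          induction w with
          | nil => exact fun h => h
          | cons hxy _ ih => exact fun h => ih (h4 _ _ hxy h)
        exact h6 _ _ w (Or.inr (Or.inl rfl))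
      have h6 : (univ : Finset V) ⊆ (univ.filter fun v => U v) ∪ {u, v, u', v'} := by
        intro y _
        have := h5 y
        simp only [mem_union, mem_filter, mem_univ, true_and, mem_insert, mem_singleton]
        exact this
      have h7 := card_le_card h6
      have h8 := card_union_le (univ.filter fun v => U v) {u, v, u', v'}
      have h9 : #({u, v, u', v'} : Finset V) ≤ 4 := Finset.card_le_four
      rw [card_univ] at h7
      omega
  rcases Nat.lt_or_ge 4 #{d : G.Dart | Orb R U e d} with h1 | h1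
  · exact main e' e (fun h => hcon h.symm) (by omega)
  · exact main e e' hcon h1

/-- There is a walk of length at most `n` which avoids the set. -/
def OW (G : SimpleGraph V) (U : V → Prop) (n : ℕ) (x y : V) : Prop :=
  ∃ w : G.Walk x y, w.length ≤ n ∧ ∀ z ∈ w.support, ¬ U z

theorem OW.nil {n : ℕ} {x : V} (h : ¬ U x) : OW G U n x x := by
  refine ⟨SimpleGraph.Walk.nil, by simp, ?_⟩
  intro z hz
  rw [SimpleGraph.Walk.support_nil, List.mem_singleton] at hz
  subst hz
  exact h

theorem OW.snoc {n : ℕ} {x y z : V} (h : OW G U n x y) (h1 : G.Adj y z) (h2 : ¬ U z) :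
    OW G U (n + 1) x z := by
  obtain ⟨w, hw1, hw2⟩ := h
  refine ⟨w.concat h1, ?_, ?_⟩
  · rw [SimpleGraph.Walk.length_concat]
    omega
  · intro a ha
    rw [SimpleGraph.Walk.support_concat] at ha
    simp only [List.mem_append, List.mem_singleton] at ha
    rcases ha with ha | rfl
    · exact hw2 a ha
    · exact h2

theorem OW.trans {n m : ℕ} {x y z : V} (h : OW G U n x y) (h' : OW G U m y z) :
    OW G U (n + m) x z := by
  obtain ⟨w, hw1, hw2⟩ := h
  obtain ⟨w', hw3, hw4⟩ := h'
  refine ⟨w.append w', ?_, ?_⟩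
  · rw [SimpleGraph.Walk.length_append]
    omega
  · intro a ha
    rw [SimpleGraph.Walk.mem_support_append_iff] at ha
    rcases ha with ha | ha
    · exact hw2 a ha
    · exact hw4 a ha

theorem OW.mono {n m : ℕ} {x y : V} (h : OW G U n x y) (hnm : n ≤ m) : OW G U m x y := by
  obtain ⟨w, hw1, hw2⟩ := h
  exact ⟨w, hw1.trans hnm, hw2⟩

theorem OW.symm {n : ℕ} {x y : V} (h : OW G U n x y) : OW G U n y x := by
  obtain ⟨w, hw1, hw2⟩ := h
  refine ⟨w.reverse, ?_, ?_⟩
  · rwa [SimpleGraph.Walk.length_reverse]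
  · intro a ha
    rw [SimpleGraph.Walk.support_reverse, List.mem_reverse] at ha
    exact hw2 a ha

/-- One step of the ring. -/
theorem step_walk (R : Rot G) {L : ℕ} (hL : ∀ d, sz R d ≤ L) (e : {d : G.Dart // Ex U d}) :
    OW G U L e.1.snd (ring R U e).1.snd := by
  have h1 := rn_lt R e.2
  have h2 := (rn_spec R e.2).1
  have h3 := hL e.1
  -- the walk of `i` steps
  have key : ∀ i, i < rn R U e.1 → OW G U i e.1.snd (R.next^[i] e.1).snd := by
    intro i
    induction i with
    | zero => exact fun _ => OW.nil e.2.2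
    | succ i ih =>
      intro hi
      have h4 : G.Adj (R.next^[i] e.1).snd (R.next^[i + 1] e.1).snd := by
        have := (R.next^[i + 1] e.1).adj
        rwa [fst_iter] at this
      exact (ih (by omega)).snoc h4 (rn_out R e.2 hi)
  obtain ⟨i, hi⟩ := Nat.exists_eq_succ_of_ne_zero (n := rn R U e.1) (by omega)
  have h5 : (ring R U e).1.snd = (R.next^[i] e.1).snd := by
    show (R.next^[rn R U e.1] e.1).fst = _
    rw [hi]
    exact fst_iter R e.1 i
  rw [h5]
  exact (key i (by omega)).mono (by omega)

open Classical in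
/-- **The walk along the ring.** -/
theorem ring_walk (R : Rot G) {L k : ℕ} (hL : ∀ d, sz R d ≤ L) (hk : #{d : G.Dart | Ex U d} ≤ k)
    {e e' : {d : G.Dart // Ex U d}} (h : (ring R U).SameCycle e e') :
    OW G U (k * L) e.1.snd e'.1.snd := by
  have key : ∀ i, OW G U (i * L) e.1.snd ((ring R U)^[i] e).1.snd := by
    intro i
    induction i with
    | zero => exact OW.nil e.2.2
    | succ i ih =>
      rw [Function.iterate_succ_apply', Nat.succ_mul]
      exact ih.trans (step_walk R hL ((ring R U)^[i] e))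
  have h1 := card_class (ring R U) e (fun x => (ring R U).SameCycle e x) fun _ => Iff.rfl
  have h2 : #{x : {d : G.Dart // Ex U d} | (ring R U).SameCycle e x} ≤ k := by
    refine (card_le_univ _).trans ?_
    rw [Fintype.card_subtype]
    exact hk
  have hpos : 0 < Function.minimalPeriod (ring R U) e := by
    rw [← h1]
    exact Finset.card_pos.2 ⟨e, by simp [Equiv.Perm.SameCycle.refl]⟩
  obtain ⟨i, hi⟩ := h.exists_nat_pow_eq
  rw [Equiv.Perm.coe_pow] at hi
  have h4 := key (i % Function.minimalPeriod (ring R U) e)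
  rw [Function.iterate_mod_minimalPeriod_eq, hi] at h4
  refine h4.mono (Nat.mul_le_mul_right _ ?_)
  have := Nat.mod_lt i hpos
  omega

end Pool.Agent.Ring392
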