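import Mathlib
import Pool.Agent.Work.MP_392c8e_co_uni.Ring

/-!
# Faces come back to a patch at the neighbouring dart

`U` is the interior of a patch.  If a face met the patch in two different places, a closed walk of
faces through the patch would separate the outside.  So the permutation `ring` of the leaving darts
is the cyclic order around the patch.
-/

namespace Pool.Agent.Once392

open Finset Pool.Agent.Sub392 Pool.Agent.T392 Pool.Agent.U2Geo Pool.Agent.Ring392

set_option linter.unusedSectionVars false

variable {V : Type} [Fintype V] [DecidableEq V] {G : SimpleGraph V} [DecidableRel G.Adj]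

/-! ## Closed walks of faces -/

/-- The signed number of occurrences of a dart. -/
def cnt (l : List G.Dart) (d : G.Dart) : ℚ := (l.count d : ℚ) - l.count d.symm

theorem cnt_symm (l : List G.Dart) (d : G.Dart) : cnt l d.symm = -cnt l d := by
  unfold cnt
  rw [SimpleGraph.Dart.symm_symm]
  ring

theorem symm_eq_iff {a b : G.Dart} : a.symm = b ↔ a = b.symm := by
  constructor
  · rintro rfl
    rw [SimpleGraph.Dart.symm_symm]
  · rintro rfl
    rw [SimpleGraph.Dart.symm_symm]

theorem count_symm (l : List G.Dart) (d : G.Dart) :
    (l.map SimpleGraph.Dart.symm).count d = l.count d.symm := by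
  induction l with
  | nil => rfl
  | cons a l ih =>
    rw [List.map_cons, List.count_cons, List.count_cons, ih]
    have : (a.symm == d) = (a == d.symm) := by
      rw [Bool.eq_iff_iff, beq_iff_eq, beq_iff_eq, symm_eq_iff]
    rw [this]

theorem cnt_append_symm (l l' : List G.Dart) (d : G.Dart) :
    cnt (l ++ l'.map SimpleGraph.Dart.symm) d = cnt l d - cnt l' d := by
  unfold cnt
  rw [List.count_append, List.count_append, count_symm, count_symm, SimpleGraph.Dart.symm_symm]
  push_cast
  ring

theorem sum_count (l : List G.Dart) (P : G.Dart → Prop) [DecidablePred P] :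
    ∑ d with P d, (l.count d : ℚ) = (l.countP fun d => decide (P d) : ℚ) := by
  induction l with
  | nil => simp
  | cons a l ih =>
    have h1 : ∀ d, ((a :: l).count d : ℚ) = (l.count d : ℚ) + if a = d then 1 else 0 := by
      intro d
      rw [List.count_cons]
      by_cases h : a = d
      · simp [h]
      · simp [h]
    simp only [h1]
    rw [sum_add_distrib, ih, List.countP_cons]
    push_cast
    congr 1
    rw [sum_ite_eq]
    simp

/-- A walk of faces: the darts of the list cross from face to face. -/
def FW (R : Rot G) : R.Face → List G.Dart → R.Face → Prop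
  | φ, [], ψ => φ = ψ
  | φ, d :: l, ψ => R.face d = φ ∧ FW R (R.face d.symm) l ψ

theorem FW.count {R : Rot G} {ψ : R.Face} {l : List G.Dart} {φ : R.Face} (h : FW R φ l ψ)
    (f : R.Face) :
    (l.countP (fun d => decide (R.face d = f)) : ℚ) + (if ψ = f then 1 else 0) =
      (l.countP (fun d => decide (R.face d.symm = f)) : ℚ) + (if φ = f then 1 else 0) := by
  induction l generalizing φ with
  | nil =>
    obtain rfl : φ = ψ := h
    simp
  | cons d l ih =>
    obtain ⟨h1, h2⟩ := h
    have h3 := ih h2
    rw [List.countP_cons, List.countP_cons]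
    subst h1
    simp only [decide_eq_true_eq]
    push_cast
    split_ifs at h3 ⊢ <;> linarith

/-- **Closed walks of faces have potentials.** -/
theorem exists_pot (R : Rot G) (hP : R.Plane) {φ ψ : R.Face} {l l' : List G.Dart}
    (h : FW R φ l ψ) (h' : FW R φ l' ψ) :
    ∃ p : V → ℚ, ∀ d : G.Dart, cnt (l ++ l'.map SimpleGraph.Dart.symm) d = p d.snd - p d.fst := by
  classical
  refine R.exact hP _ (cnt_symm _) fun f => ?_
  have e1 : ∀ s : List G.Dart, ∑ d with R.face d = f, cnt s d =
      (s.countP (fun d => decide (R.face d = f)) : ℚ) -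
        s.countP (fun d => decide (R.face d.symm = f)) := by
    intro s
    unfold cnt
    rw [sum_sub_distrib, sum_count]
    congr 1
    rw [← sum_count s (fun d => R.face d.symm = f)]
    refine Finset.sum_bij (fun d _ => d.symm) ?_ ?_ ?_ ?_
    · intro d hd
      simp only [mem_filter, mem_univ, true_and] at hd ⊢
      rw [SimpleGraph.Dart.symm_symm]
      exact hd
    · intro d _ d' _ hdd
      have := congrArg SimpleGraph.Dart.symm hdd
      simpa using this
    · intro d hd
      simp only [mem_filter, mem_univ, true_and] at hd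
      exact ⟨d.symm, by simpa using hd, SimpleGraph.Dart.symm_symm d⟩
    · intro d _
      rfl
  have e2 : ∑ d with R.face d = f, cnt (l ++ l'.map SimpleGraph.Dart.symm) d =
      (∑ d with R.face d = f, cnt l d) - ∑ d with R.face d = f, cnt l' d := by
    rw [← sum_sub_distrib]
    exact sum_congr rfl fun d _ => cnt_append_symm l l' d
  rw [e2, e1, e1]
  have h1 := h.count f
  have h2 := h'.count f
  linarith

/-- Darts which are not crossed. -/
theorem cnt_zero {l : List G.Dart} {d : G.Dart} (h1 : d ∉ l) (h2 : d.symm ∉ l) : cnt l d = 0 := by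
  unfold cnt
  rw [List.count_eq_zero_of_not_mem h1, List.count_eq_zero_of_not_mem h2]
  simp

variable {R : Rot G} {U : V → Prop}

/-- The list has all ends in the set. -/
def Ins (U : V → Prop) (l : List G.Dart) : Prop := ∀ d ∈ l, U d.fst ∧ U d.snd

theorem Ins.cnt_zero {l : List G.Dart} (h : Ins U l) {d : G.Dart} (hd : ¬ U d.fst ∨ ¬ U d.snd) :
    cnt l d = 0 := by
  refine Once392.cnt_zero (fun h1 => ?_) fun h1 => ?_
  · have := h _ h1
    tauto
  · have := h _ h1
    have h2 : U d.snd ∧ U d.fst := this
    tauto

theorem Ins.append_symm {l l' : List G.Dart} (h : Ins U l) (h' : Ins U l') :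
    Ins U (l ++ l'.map SimpleGraph.Dart.symm) := by
  intro d hd
  rw [List.mem_append, List.mem_map] at hd
  rcases hd with hd | ⟨e, he, rfl⟩
  · exact h d hd
  · exact (h' e he).symm

/-- **At most four crossed edges inside the set do not separate the outside.** -/
theorem const_out (hR : C5 R) {l : List G.Dart} (hl : l.length ≤ 4) (hU : Ins U l) {p : V → ℚ}
    (hp : ∀ d : G.Dart, cnt l d = p d.snd - p d.fst) {x y : V} (hx : ¬ U x) (hy : ¬ U y) :
    p x = p y := by
  classical
  -- four vertices with the same value
  have key : ∀ x, ¬ U x → ∃ S : Finset V, #S = 4 ∧ ∀ v ∈ S, p v = p x := by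
    intro x hx
    refine ⟨insert x (G.neighborFinset x), ?_, ?_⟩
    · rw [card_insert_of_notMem (by simp), SimpleGraph.card_neighborFinset_eq_degree, hR.cub]
    · intro v hv
      rw [mem_insert, SimpleGraph.mem_neighborFinset] at hv
      rcases hv with rfl | hv
      · rfl
      · have h1 := hp ⟨(x, v), hv⟩
        rw [hU.cnt_zero (Or.inl hx)] at h1
        simp only at h1
        linarith
  have main : ∀ x y, ¬ U x → ¬ U y → ¬ p x < p y := by
    intro x y hx hy hlt
    obtain ⟨S, hS, hS'⟩ := key x hx
    obtain ⟨T, hT, hT'⟩ := key y hy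
    set A : Finset V := univ.filter fun v => p v ≤ p x with hA
    have h1 : out G A ≤ 4 := by
      refine le_trans ?_ hl
      refine le_trans ?_ (List.toFinset_card_le l)
      unfold out
      refine card_le_card fun d hd => ?_
      simp only [hA, mem_filter, mem_univ, true_and, not_le] at hd
      rw [List.mem_toFinset]
      by_contra hcon
      have h2 := hp d
      unfold cnt at h2
      rw [List.count_eq_zero_of_not_mem hcon] at h2
      have h3 : (0 : ℚ) ≤ l.count d.symm := Nat.cast_nonneg _
      push_cast at h2
      linarith [hd.1, hd.2]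
    have h2 : S ⊆ A := by
      intro v hv
      rw [hA, mem_filter]
      exact ⟨mem_univ _, (hS' v hv).le⟩
    have h3 : T ⊆ Aᶜ := by
      intro v hv
      rw [mem_compl, hA, mem_filter]
      rintro ⟨-, h4⟩
      rw [hT' v hv] at h4
      linarith
    have h4 := card_le_card h2
    have h5 := card_le_card h3
    rcases hR.cut A h1 with h6 | h6 <;> omega
  rcases lt_trichotomy (p x) (p y) with h | h | h
  · exact absurd h (main x y hx hy)
  · exact h
  · exact absurd h (main y x hy hx)

/-- If all leaving darts form one orbit, the outside is not separated either. -/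
theorem const_ring (hone : ∀ e e' : {d : G.Dart // Ex U d}, (ring R U).SameCycle e e')
    {l : List G.Dart} (hU : Ins U l) {p : V → ℚ}
    (hp : ∀ d : G.Dart, cnt l d = p d.snd - p d.fst) (e e' : {d : G.Dart // Ex U d}) :
    p e.1.snd = p e'.1.snd := by
  classical
  obtain ⟨w, -, hw⟩ := ring_walk R (L := Fintype.card G.Dart) (k := Fintype.card G.Dart)
    (fun d => by
      unfold sz Rot.size
      exact card_le_univ _) (card_le_univ _) (hone e e')
  have key : ∀ x y (w : G.Walk x y), (∀ z ∈ w.support, ¬ U z) → p x = p y := by
    intro x y w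
    induction w with
    | nil => exact fun _ => rfl
    | @cons a b c hab w ih =>
      intro hw
      have h1 := hp ⟨(a, b), hab⟩
      rw [hU.cnt_zero (Or.inl (hw a (by simp)))] at h1
      simp only at h1
      have h2 := ih fun z hz => hw z (by
        rw [SimpleGraph.Walk.support_cons]
        exact List.mem_cons_of_mem _ hz)
      linarith
  exact key _ _ w hw

/-! ## Gaps -/

/-- The darts of the list follow one another on a face. -/
def Cn (R : Rot G) : G.Dart → List G.Dart → G.Dart → Prop
  | a, [], b => R.next a = b
  | a, c :: l, b => R.next a = c ∧ Cn R c l b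

theorem Cn.face {a b : G.Dart} {l : List G.Dart} (h : Cn R a l b) : R.face b = R.face a := by
  induction l generalizing a with
  | nil =>
    obtain rfl : R.next a = b := h
    exact R.face_next a
  | cons c l ih =>
    obtain ⟨h1, h2⟩ := h
    rw [ih h2, ← h1, R.face_next]

theorem Cn.sum {a b : G.Dart} {l : List G.Dart} (h : Cn R a l b) (p : V → ℚ) :
    (l.map fun d => p d.snd - p d.fst).sum = p b.fst - p a.snd := by
  induction l generalizing a with
  | nil =>
    obtain rfl : R.next a = b := h
    rw [R.fst_next]
    simp
  | cons c l ih =>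
    obtain ⟨h1, h2⟩ := h
    rw [List.map_cons, List.sum_cons, ih h2, ← h1, R.fst_next]
    ring

/-- **Two gaps in one face.** -/
theorem face_ne (hR : C5 R) {a b c : {d : G.Dart // Ex U d}} {B s s' : List G.Dart} {ρ : R.Face}
    (hB : Cn R a.1.symm B b.1) (hs : FW R (R.face a.1.symm) s ρ)
    (hs' : FW R (R.face c.1.symm) s' ρ) (hsU : Ins U s) (hsU' : Ins U s')
    (hlen : s.length + s'.length ≤ 4 ∨ ∀ e e' : {d : G.Dart // Ex U d}, (ring R U).SameCycle e e')
    (h : (B.map fun d => cnt s d - cnt s' d).sum ≠ 0) :
    R.face a.1.symm ≠ R.face c.1.symm := by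
  intro hf
  rw [← hf] at hs'
  obtain ⟨p, hp⟩ := exists_pot R hR.plane hs hs'
  have hU := hsU.append_symm hsU'
  have h1 : p a.1.snd = p b.1.snd := by
    rcases hlen with h2 | h2
    · refine const_out hR ?_ hU hp a.2.2 b.2.2
      rw [List.length_append, List.length_map]
      exact h2
    · exact const_ring h2 hU hp a b
  have h2 : ∀ e : {d : G.Dart // Ex U d}, p e.1.snd = p e.1.fst := by
    intro e
    have := hp e.1
    rw [hU.cnt_zero (Or.inr e.2.2)] at this
    linarith
  apply h
  have h3 := hB.sum p
  have h4 : ∀ d, cnt s d - cnt s' d = p d.snd - p d.fst := by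
    intro d
    rw [← hp, cnt_append_symm]
  simp only [h4]
  rw [h3]
  show p b.1.fst - p a.1.fst = 0
  rw [← h2 a, ← h2 b, h1, sub_self]

/-- **The next leaving dart on the face is the one before.** -/
theorem ring_eq {a b : {d : G.Dart // Ex U d}} {B : List G.Dart} (hB : Cn R a.1.symm B b.1)
    (h : ∀ c : {d : G.Dart // Ex U d}, c ≠ a → R.face a.1.symm ≠ R.face c.1.symm) :
    ring R U b = a := by
  by_contra hcon
  refine h _ hcon ?_
  have h1 : R.face ((ring R U b).1.symm) = R.face b.1 := by
    show R.face ((R.next^[rn R U b.1] b.1).symm.symm) = _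
    rw [SimpleGraph.Dart.symm_symm, face_iter]
  rw [h1, hB.face]

end Pool.Agent.Once392
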