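import Mathlib
import Pool.Agent.Work.MP_392c8e_co_uni.Once
import Pool.Agent.Work.MP_392c8e_co_t1.FF

/-!
# Faces come back at the neighbouring dart: labelled patches

The rows `(x, a, b, c)` list the neighbours `a`, `b`, `c` of an interior label `x`; in the rotation
`b` is followed by `a`, `a` by `c` and `c` by `b`.
-/

namespace Pool.Agent.Once392

open Finset Pool.Agent.Sub392 Pool.Agent.T392 Pool.Agent.U2Geo Pool.Agent.Ring392

set_option linter.unusedSectionVars false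

variable {V : Type} [Fintype V] [DecidableEq V] {G : SimpleGraph V} [DecidableRel G.Adj]

/-- The neighbours of a vertex in the order of the rotation. -/
def NbR (R : Rot G) (p a b c : V) : Prop :=
  ∃ x : G.Dart, x.fst = p ∧ x.snd = b ∧ (R.rot x).snd = a ∧ (R.rot (R.rot x)).snd = c ∧
    R.rot (R.rot (R.rot x)) = x

/-- All rows are correct. -/
def RotOk (R : Rot G) (f : ℕ → V) (N : List (ℕ × ℕ × ℕ × ℕ)) : Prop :=
  ∀ e ∈ N, NbR R (f e.1) (f e.2.1) (f e.2.2.1) (f e.2.2.2)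

/-- The dart between two labels. -/
def Dt (f : ℕ → V) (q : ℕ × ℕ) (d : G.Dart) : Prop := d.fst = f q.1 ∧ d.snd = f q.2

/-- The next dart, in labels. -/
def nx (N : List (ℕ × ℕ × ℕ × ℕ)) (q : ℕ × ℕ) : Option (ℕ × ℕ) :=
  (N.find? fun e => e.1 == q.2).bind fun e =>
    if q.1 = e.2.2.1 then some (q.2, e.2.1)
    else if q.1 = e.2.1 then some (q.2, e.2.2.2)
    else if q.1 = e.2.2.2 then some (q.2, e.2.2.1) else none

/-- Adjacency in labels. -/
def nbr (N : List (ℕ × ℕ × ℕ × ℕ)) (q : ℕ × ℕ) : Bool :=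
  N.any fun e => e.1 == q.1 && (q.2 == e.2.1 || q.2 == e.2.2.1 || q.2 == e.2.2.2)

/-- The interior labels. -/
def ins (N : List (ℕ × ℕ × ℕ × ℕ)) : List ℕ := N.map fun e => e.1

/-- All labels. -/
def lbs (N : List (ℕ × ℕ × ℕ × ℕ)) : List ℕ := N.flatMap fun e => [e.1, e.2.1, e.2.2.1, e.2.2.2]

section

variable {R : Rot G} {f : ℕ → V} {N : List (ℕ × ℕ × ℕ × ℕ)}

theorem Dt.eq {q : ℕ × ℕ} {d d' : G.Dart} (h : Dt f q d) (h' : Dt f q d') : d = d' :=
  SimpleGraph.Dart.ext _ _ (Prod.ext (h.1.trans h'.1.symm) (h.2.trans h'.2.symm))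

theorem Dt.swap {q : ℕ × ℕ} {d : G.Dart} (h : Dt f q d) : Dt f q.swap d.symm := ⟨h.2, h.1⟩

theorem nx_ok (hN : RotOk R f N) {q q' : ℕ × ℕ} (h : nx N q = some q') {d : G.Dart}
    (hd : Dt f q d) : Dt f q' (R.next d) := by
  unfold nx at h
  obtain ⟨e, he, h1⟩ := Option.bind_eq_some_iff.1 h
  have h2 : e ∈ N := List.mem_of_find?_eq_some he
  have h3 : e.1 = q.2 := by
    have := List.find?_some he
    simpa using this
  obtain ⟨x, x1, x2, x3, x4, x5⟩ := hN e h2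
  have f1 : (R.rot x).fst = x.fst := R.fst_rot x
  have f2 : (R.rot (R.rot x)).fst = x.fst := (R.fst_rot _).trans f1
  have hfst : (R.next d).fst = f q.2 := by rw [R.fst_next, hd.2]
  have hn : R.next d = R.rot d.symm := rfl
  split_ifs at h1 with c1 c2 c3
  · obtain rfl := Option.some.inj h1
    have h4 : d.symm = x := SimpleGraph.Dart.ext _ _ (Prod.ext
      (by show d.snd = x.fst; rw [hd.2, x1, h3]) (by show d.fst = x.snd; rw [hd.1, x2, c1]))
    refine ⟨hfst, ?_⟩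
    rw [hn, h4]
    exact x3
  · obtain rfl := Option.some.inj h1
    have h4 : d.symm = R.rot x := SimpleGraph.Dart.ext _ _ (Prod.ext
      (by show d.snd = (R.rot x).fst; rw [f1, hd.2, x1, h3])
      (by show d.fst = (R.rot x).snd; rw [hd.1, x3, c2]))
    refine ⟨hfst, ?_⟩
    rw [hn, h4]
    exact x4
  · obtain rfl := Option.some.inj h1
    have h4 : d.symm = R.rot (R.rot x) := SimpleGraph.Dart.ext _ _ (Prod.ext
      (by show d.snd = (R.rot (R.rot x)).fst; rw [f2, hd.2, x1, h3])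
      (by show d.fst = (R.rot (R.rot x)).snd; rw [hd.1, x4, c3]))
    refine ⟨hfst, ?_⟩
    rw [hn, h4, x5]
    exact x2

theorem nbr_adj (hN : RotOk R f N) {q : ℕ × ℕ} (h : nbr N q = true) : G.Adj (f q.1) (f q.2) := by
  unfold nbr at h
  rw [List.any_eq_true] at h
  obtain ⟨e, he, h1⟩ := h
  simp only [Bool.and_eq_true, Bool.or_eq_true, beq_iff_eq] at h1
  obtain ⟨h2, h3⟩ := h1
  obtain ⟨x, x1, x2, x3, x4, x5⟩ := hN e he
  have f1 : (R.rot x).fst = x.fst := R.fst_rot x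
  have f2 : (R.rot (R.rot x)).fst = x.fst := (R.fst_rot _).trans f1
  rw [← h2]
  rcases h3 with (h3 | h3) | h3
  · rw [h3, ← x3, ← x1, ← f1]
    exact (R.rot x).adj
  · rw [h3, ← x2, ← x1]
    exact x.adj
  · rw [h3, ← x4, ← x1, ← f2]
    exact (R.rot (R.rot x)).adj

/-- The darts of the labels. -/
def dk (f : ℕ → V) (d0 : G.Dart) (q : ℕ × ℕ) : G.Dart :=
  if h : G.Adj (f q.1) (f q.2) then ⟨(f q.1, f q.2), h⟩ else d0

theorem dk_dt {d0 : G.Dart} {q : ℕ × ℕ} (h : G.Adj (f q.1) (f q.2)) : Dt f q (dk f d0 q) := by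
  unfold dk
  rw [dif_pos h]
  exact ⟨rfl, rfl⟩

theorem Dt.adj {q : ℕ × ℕ} {d : G.Dart} (h : Dt f q d) : G.Adj (f q.1) (f q.2) := by
  rw [← h.1, ← h.2]
  exact d.adj

theorem Dt.dk {d0 : G.Dart} {q : ℕ × ℕ} {d : G.Dart} (h : Dt f q d) : Once392.dk f d0 q = d :=
  (dk_dt h.adj).eq h

theorem dk_symm {d0 : G.Dart} {q : ℕ × ℕ} (h : G.Adj (f q.1) (f q.2)) :
    (dk f d0 q).symm = dk f d0 q.swap :=
  ((dk_dt (d0 := d0) h).swap.dk (d0 := d0)).symm

/-- A gap: the leaving dart `a`, the darts of the boundary, the leaving dart `b`, and a walk of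
faces to the central face. -/
structure Gp where
  /-- the first leaving dart -/
  a : ℕ × ℕ
  /-- the boundary darts -/
  B : List (ℕ × ℕ)
  /-- the second leaving dart -/
  b : ℕ × ℕ
  /-- the walk of faces -/
  s : List (ℕ × ℕ)

/-- The darts follow one another. -/
def cnL (N : List (ℕ × ℕ × ℕ × ℕ)) : ℕ × ℕ → List (ℕ × ℕ) → ℕ × ℕ → Bool
  | a, [], b => nx N a == some b
  | a, c :: l, b => nx N a == some c && cnL N c l b

theorem cnL_ok (hN : RotOk R f N) {d0 : G.Dart} {l : List (ℕ × ℕ)} {a b : ℕ × ℕ} {x y : G.Dart}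
    (ha : Dt f a x) (hb : Dt f b y) (h : cnL N a l b = true) : Cn R x (l.map (dk f d0)) y := by
  induction l generalizing a x with
  | nil =>
    have h1 : nx N a = some b := by simpa [cnL] using h
    exact (nx_ok hN h1 ha).eq hb
  | cons c l ih =>
    simp only [cnL, Bool.and_eq_true, beq_iff_eq] at h
    have h1 := nx_ok hN h.1 ha
    refine ⟨?_, ?_⟩
    · exact (h1.dk).symm
    · rw [h1.dk]
      exact ih h1 h.2

/-- Iteration. -/
def itN (N : List (ℕ × ℕ × ℕ × ℕ)) : ℕ → ℕ × ℕ → Option (ℕ × ℕ)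
  | 0, q => some q
  | n + 1, q => (nx N q).bind (itN N n)

theorem itN_ok (hN : RotOk R f N) {n : ℕ} {q q' : ℕ × ℕ} (h : itN N n q = some q') {d : G.Dart}
    (hd : Dt f q d) : Dt f q' (R.next^[n] d) := by
  induction n generalizing q d with
  | zero =>
    obtain rfl := Option.some.inj h
    exact hd
  | succ n ih =>
    obtain ⟨e, he, h1⟩ := Option.bind_eq_some_iff.1 h
    rw [Function.iterate_succ_apply]
    exact ih h1 (nx_ok hN he hd)

/-- The second dart lies on the face of the first. -/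
def sF (N : List (ℕ × ℕ × ℕ × ℕ)) (q q' : ℕ × ℕ) : Bool :=
  (List.range 9).any fun n => itN N n q == some q'

theorem sF_ok (hN : RotOk R f N) {q q' : ℕ × ℕ} (h : sF N q q' = true) {d d' : G.Dart}
    (hd : Dt f q d) (hd' : Dt f q' d') : R.face d' = R.face d := by
  unfold sF at h
  rw [List.any_eq_true] at h
  obtain ⟨n, -, h1⟩ := h
  rw [beq_iff_eq] at h1
  rw [← (itN_ok hN h1 hd).eq hd', face_iter]

/-- A walk of faces, in labels. -/
def fwL (N : List (ℕ × ℕ × ℕ × ℕ)) : ℕ × ℕ → List (ℕ × ℕ) → ℕ × ℕ → Bool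
  | a, [], r => sF N a r
  | a, c :: l, r => sF N a c && nbr N c && fwL N c.swap l r

theorem fwL_ok (hN : RotOk R f N) {d0 : G.Dart} {l : List (ℕ × ℕ)} {a r : ℕ × ℕ} {x y : G.Dart}
    (ha : Dt f a x) (hr : Dt f r y) (h : fwL N a l r = true) :
    FW R (R.face x) (l.map (dk f d0)) (R.face y) := by
  induction l generalizing a x with
  | nil => exact (sF_ok hN h ha hr).symm
  | cons c l ih =>
    simp only [fwL, Bool.and_eq_true] at h
    have hc := dk_dt (d0 := d0) (nbr_adj hN h.1.2)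
    exact ⟨sF_ok hN h.1.1 ha hc, ih hc.swap h.2⟩

/-- The signed number of occurrences, in labels. -/
def dif (s : List (ℕ × ℕ)) (q : ℕ × ℕ) : ℤ := (s.count q : ℤ) - s.count q.swap

theorem count_dk {d0 : G.Dart} {s : List (ℕ × ℕ)} {q : ℕ × ℕ}
    (h : ∀ q' ∈ s, dk f d0 q' = dk f d0 q → q' = q) :
    (s.map (dk f d0)).count (dk f d0 q) = s.count q := by
  induction s with
  | nil => rfl
  | cons a s ih =>
    rw [List.map_cons, List.count_cons, List.count_cons,
      ih fun q' hq' => h q' (List.mem_cons_of_mem _ hq')]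
    have : (dk f d0 a == dk f d0 q) = (a == q) := by
      rw [Bool.eq_iff_iff, beq_iff_eq, beq_iff_eq]
      exact ⟨h a (List.mem_cons_self ..), fun e => by rw [e]⟩
    rw [this]

/-- Conditions on one gap. -/
def gp1 (N : List (ℕ × ℕ × ℕ × ℕ)) (r : ℕ × ℕ) (g : Gp) : Bool :=
  cnL N g.a.swap g.B g.b && fwL N g.a.swap g.s r &&
    nbr N g.a && nbr N g.b && !(ins N).contains g.a.2 && !(ins N).contains g.b.2 &&
    (g.B.all fun q => nbr N q && (ins N).contains q.1 && (ins N).contains q.2) &&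
    g.s.all fun q => nbr N q && (ins N).contains q.1 && (ins N).contains q.2

/-- Conditions on two gaps. -/
def gp2 (g g' : Gp) : Bool :=
  g.a == g'.a || (g.B.map fun q => dif g.s q - dif g'.s q).sum != 0

/-- **The check.** -/
def gps (N : List (ℕ × ℕ × ℕ × ℕ)) (r : ℕ × ℕ) (D : List Gp) : Bool :=
  nbr N r && (D.all fun g => gp1 N r g && D.all fun g' => gp2 g g') &&
    (N.all fun e => [e.2.1, e.2.2.1, e.2.2.2].all fun c =>
      (ins N).contains c || D.any fun g => g.a == (e.1, c)) &&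
    (D.zip D.tail).all fun p => p.1.b == p.2.a

end

/-- A labelled patch with all side conditions. -/
structure Lab (R : Rot G) (U : V → Prop) (f : ℕ → V) (N : List (ℕ × ℕ × ℕ × ℕ)) : Prop where
  rot : RotOk R f N
  inj : ∀ i ∈ ins N, ∀ j ∈ lbs N, f i = f j → i = j
  mem : ∀ v, U v ↔ ∃ i ∈ ins N, f i = v

section

variable {R : Rot G} {U : V → Prop} {f : ℕ → V} {N : List (ℕ × ℕ × ℕ × ℕ)}

theorem lbs_of_nbr {q : ℕ × ℕ} (h : nbr N q = true) : q.1 ∈ ins N ∧ q.2 ∈ lbs N := by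
  unfold nbr at h
  rw [List.any_eq_true] at h
  obtain ⟨e, he, h1⟩ := h
  simp only [Bool.and_eq_true, Bool.or_eq_true, beq_iff_eq] at h1
  obtain ⟨h2, h3⟩ := h1
  unfold ins lbs
  rw [List.mem_map, List.mem_flatMap]
  refine ⟨⟨e, he, h2⟩, e, he, ?_⟩
  rcases h3 with (h3 | h3) | h3 <;> simp [h3]

theorem lbs_of_ins {i : ℕ} (h : i ∈ ins N) : i ∈ lbs N := by
  unfold ins at h
  unfold lbs
  rw [List.mem_map] at h
  obtain ⟨e, he, rfl⟩ := h
  rw [List.mem_flatMap]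
  exact ⟨e, he, by simp⟩

theorem Lab.u_of (h : Lab R U f N) {i : ℕ} (hi : i ∈ ins N) : U (f i) := (h.mem _).2 ⟨i, hi, rfl⟩

theorem Lab.not_u (h : Lab R U f N) {i : ℕ} (hi : i ∈ lbs N) (hi' : i ∉ ins N) : ¬ U (f i) := by
  intro hu
  obtain ⟨j, hj, hji⟩ := (h.mem _).1 hu
  exact hi' (h.inj j hj i hi hji ▸ hj)

/-- Leaving darts have labels. -/
theorem Lab.ex_lab (h : Lab R U f N) (hR : C5 R) {d : G.Dart} (hd : Ex U d) :
    ∃ e ∈ N, ∃ c ∈ [e.2.1, e.2.2.1, e.2.2.2], c ∉ ins N ∧ Dt f (e.1, c) d := by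
  obtain ⟨i, hi, hfi⟩ := (h.mem _).1 hd.1
  unfold ins at hi
  rw [List.mem_map] at hi
  obtain ⟨e, he, rfl⟩ := hi
  obtain ⟨x, x1, x2, x3, x4, x5⟩ := h.rot e he
  have h1 := (Pool.Agent.T1FF.nbr3 R (d := x) (hR.cub _)).2 d.snd (by
    rw [x1, hfi]
    exact d.adj)
  rw [x2, x3, x4] at h1
  have key : ∀ c, f c = d.snd → c ∉ ins N := fun c hc hc' => hd.2 (hc ▸ h.u_of hc')
  rcases h1 with h1 | h1 | h1
  · exact ⟨e, he, e.2.2.1, by simp, key _ h1.symm, hfi.symm, h1⟩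
  · exact ⟨e, he, e.2.1, by simp, key _ h1.symm, hfi.symm, h1⟩
  · exact ⟨e, he, e.2.2.2, by simp, key _ h1.symm, hfi.symm, h1⟩

variable {r : ℕ × ℕ} {D : List Gp}

/-- The length condition or one orbit. -/
def Cond (R : Rot G) (U : V → Prop) (D : List Gp) : Prop :=
  (D.all fun g => g.s.length ≤ 2) = true ∨
    ∀ e e' : {d : G.Dart // Ex U d}, (ring R U).SameCycle e e'

theorem Lab.ex_gp (h : Lab R U f N) (hR : C5 R) (hc : gps N r D = true) {d : G.Dart}
    (hd : Ex U d) : ∃ g ∈ D, Dt f g.a d := by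
  obtain ⟨e, he, c, hc1, hc2, hdt⟩ := h.ex_lab hR hd
  unfold gps at hc
  simp only [Bool.and_eq_true] at hc
  have h1 := List.all_eq_true.1 hc.1.2 e he
  have h2 := List.all_eq_true.1 h1 c hc1
  rw [Bool.or_eq_true] at h2
  rcases h2 with h2 | h2
  · exact absurd (by simpa using h2) hc2
  · rw [List.any_eq_true] at h2
    obtain ⟨g, hg, h3⟩ := h2
    rw [beq_iff_eq] at h3
    exact ⟨g, hg, h3 ▸ hdt⟩

theorem Lab.ex_of (h : Lab R U f N) {q : ℕ × ℕ} (h1 : nbr N q = true) (h2 : q.2 ∉ ins N)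
    {d : G.Dart} (hd : Dt f q d) : Ex U d := by
  have h3 := lbs_of_nbr h1
  refine ⟨?_, ?_⟩
  · rw [hd.1]
    exact h.u_of h3.1
  · rw [hd.2]
    exact h.not_u h3.2 h2

theorem Lab.ins_dk (h : Lab R U f N) {d0 : G.Dart} {s : List (ℕ × ℕ)}
    (hs : (s.all fun q => nbr N q && (ins N).contains q.1 && (ins N).contains q.2) = true) :
    Ins U (s.map (dk f d0)) := by
  intro d hd
  rw [List.mem_map] at hd
  obtain ⟨q, hq, rfl⟩ := hd
  have h1 := List.all_eq_true.1 hs q hq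
  simp only [Bool.and_eq_true, List.contains_iff_mem] at h1
  have h2 := dk_dt (d0 := d0) (nbr_adj h.rot h1.1.1)
  rw [h2.1, h2.2]
  exact ⟨h.u_of h1.1.2, h.u_of h1.2⟩

theorem Lab.dk_inj (h : Lab R U f N) {d0 : G.Dart} {q q' : ℕ × ℕ} (ha : G.Adj (f q.1) (f q.2))
    (ha' : G.Adj (f q'.1) (f q'.2)) (h1 : q.1 ∈ ins N) (h2 : q.2 ∈ ins N) (h3 : q'.1 ∈ ins N)
    (h4 : q'.2 ∈ ins N) (he : dk f d0 q' = dk f d0 q) : q' = q := by
  have e1 := dk_dt (d0 := d0) ha
  have e2 := dk_dt (d0 := d0) ha'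
  rw [he] at e2
  refine Prod.ext ?_ ?_
  · exact h.inj _ h3 _ (lbs_of_ins h1) (e2.1.symm.trans e1.1)
  · exact h.inj _ h4 _ (lbs_of_ins h2) (e2.2.symm.trans e1.2)

theorem Lab.cnt_dk (h : Lab R U f N) {d0 : G.Dart} {s : List (ℕ × ℕ)} {q : ℕ × ℕ}
    (hs : (s.all fun q => nbr N q && (ins N).contains q.1 && (ins N).contains q.2) = true)
    (hq : (nbr N q && (ins N).contains q.1 && (ins N).contains q.2) = true) :
    cnt (s.map (dk f d0)) (dk f d0 q) = (dif s q : ℚ) := by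
  simp only [Bool.and_eq_true, List.contains_iff_mem] at hq
  have hqa := nbr_adj h.rot hq.1.1
  have key : ∀ q' ∈ s, G.Adj (f q'.1) (f q'.2) ∧ q'.1 ∈ ins N ∧ q'.2 ∈ ins N := by
    intro q' hq'
    have h1 := List.all_eq_true.1 hs q' hq'
    simp only [Bool.and_eq_true, List.contains_iff_mem] at h1
    exact ⟨nbr_adj h.rot h1.1.1, h1.1.2, h1.2⟩
  unfold cnt dif
  rw [dk_symm hqa, count_dk, count_dk]
  · push_cast
    rfl
  · intro q' hq' he
    obtain ⟨k1, k2, k3⟩ := key q' hq'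
    exact h.dk_inj (q := q.swap) hqa.symm k1 hq.2 hq.1.2 k2 k3 he
  · intro q' hq' he
    obtain ⟨k1, k2, k3⟩ := key q' hq'
    exact h.dk_inj hqa k1 hq.1.2 hq.2 k2 k3 he

/-- **Faces come back at the neighbouring dart.** -/
theorem Lab.ring_eq (h : Lab R U f N) (hR : C5 R) (hc : gps N r D = true) (hD : Cond R U D)
    {g : Gp} (hg : g ∈ D) {a b : {d : G.Dart // Ex U d}} (ha : Dt f g.a a.1)
    (hb : Dt f g.b b.1) : ring R U b = a := by
  have hc0 := hc
  unfold gps at hc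
  simp only [Bool.and_eq_true] at hc
  obtain ⟨⟨⟨hr, hall⟩, -⟩, -⟩ := hc
  have k1 : ∀ g ∈ D, gp1 N r g = true ∧ ∀ g' ∈ D, gp2 g g' = true := by
    intro g hg
    have h1 := List.all_eq_true.1 hall g hg
    rw [Bool.and_eq_true, List.all_eq_true] at h1
    exact h1
  have hrd := dk_dt (d0 := a.1) (nbr_adj h.rot hr)
  have e1 := (k1 g hg).1
  unfold gp1 at e1
  simp only [Bool.and_eq_true, Bool.not_eq_true'] at e1
  obtain ⟨⟨⟨⟨⟨⟨⟨c1, c2⟩, c3⟩, c4⟩, c5⟩, c6⟩, c7⟩, c8⟩ := e1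
  have hCn : Cn R a.1.symm (g.B.map (dk f a.1)) b.1 := cnL_ok h.rot ha.swap hb c1
  refine Once392.ring_eq hCn ?_
  intro c hca
  obtain ⟨g', hg', hdt⟩ := h.ex_gp hR hc0 c.2
  have e2 := (k1 g' hg').1
  unfold gp1 at e2
  simp only [Bool.and_eq_true, Bool.not_eq_true'] at e2
  obtain ⟨⟨⟨⟨⟨⟨⟨d1, d2⟩, d3⟩, d4⟩, d5⟩, d6⟩, d7⟩, d8⟩ := e2
  have hne : g.a ≠ g'.a := by
    intro he
    rw [← he] at hdt
    exact hca (Subtype.ext (hdt.eq ha))
  have h2 := (k1 g hg).2 g' hg'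
  unfold gp2 at h2
  rw [Bool.or_eq_true, beq_iff_eq, bne_iff_ne] at h2
  have h3 := h2.resolve_left hne
  refine face_ne hR hCn (fwL_ok h.rot (d0 := a.1) ha.swap hrd c2)
    (fwL_ok h.rot (d0 := a.1) hdt.swap hrd d2) (h.ins_dk c8) (h.ins_dk d8) ?_ ?_
  · rcases hD with hD | hD
    · left
      have h4 := List.all_eq_true.1 hD g hg
      have h5 := List.all_eq_true.1 hD g' hg'
      simp only [decide_eq_true_eq] at h4 h5
      rw [List.length_map, List.length_map]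
      omega
    · exact Or.inr hD
  · rw [List.map_map]
    have h4 : (g.B.map ((fun d => cnt (g.s.map (dk f a.1)) d - cnt (g'.s.map (dk f a.1)) d) ∘
        dk f a.1)) = (g.B.map fun q => dif g.s q - dif g'.s q).map fun z : ℤ => (z : ℚ) := by
      rw [List.map_map]
      refine List.map_congr_left fun q hq => ?_
      have hq' := List.all_eq_true.1 c7 q hq
      show cnt _ (dk f a.1 q) - cnt _ (dk f a.1 q) = ((dif g.s q - dif g'.s q : ℤ) : ℚ)
      rw [h.cnt_dk c8 hq', h.cnt_dk d8 hq']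
      push_cast
      rfl
    rw [h4]
    have h5 : ∀ l : List ℤ, (l.map fun z : ℤ => (z : ℚ)).sum = ((l.sum : ℤ) : ℚ) := by
      intro l
      induction l with
      | nil => simp
      | cons z l ih => rw [List.map_cons, List.sum_cons, List.sum_cons, ih]; push_cast; rfl
    rw [h5]
    exact_mod_cast h3

/-- **All leaving darts form one orbit.** -/
theorem Lab.same (h : Lab R U f N) (hR : C5 R) (hc : gps N r D = true) (hD : Cond R U D)
    (e e' : {d : G.Dart // Ex U d}) : (ring R U).SameCycle e e' := by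
  have hc0 := hc
  unfold gps at hc
  simp only [Bool.and_eq_true] at hc
  obtain ⟨⟨⟨-, hall⟩, -⟩, hz⟩ := hc
  have k1 : ∀ g ∈ D, nbr N g.a = true ∧ nbr N g.b = true ∧ g.a.2 ∉ ins N ∧ g.b.2 ∉ ins N := by
    intro g hg
    have h1 := List.all_eq_true.1 hall g hg
    rw [Bool.and_eq_true] at h1
    have e1 := h1.1
    unfold gp1 at e1
    simp only [Bool.and_eq_true, Bool.not_eq_true'] at e1
    obtain ⟨⟨⟨⟨⟨⟨⟨c1, c2⟩, c3⟩, c4⟩, c5⟩, c6⟩, c7⟩, c8⟩ := e1
    exact ⟨c3, c4, by simpa using c5, by simpa using c6⟩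
  -- all first darts are in one cycle
  have key : ∀ (l : List Gp) (g0 : Gp), (∀ g ∈ g0 :: l, g ∈ D) →
      (((g0 :: l).zip l).all fun p => p.1.b == p.2.a) = true → ∀ g ∈ g0 :: l,
      ∀ x y : {d : G.Dart // Ex U d}, Dt f g0.a x.1 → Dt f g.a y.1 →
      (ring R U).SameCycle x y := by
    intro l
    induction l with
    | nil =>
      intro g0 _ _ g hg x y hx hy
      rw [List.mem_singleton] at hg
      subst hg
      rw [Subtype.ext (hx.eq hy)]
    | cons g1 l ih =>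
      intro g0 hsub hall' g hg x y hx hy
      rw [List.zip_cons_cons, List.all_cons, Bool.and_eq_true, beq_iff_eq] at hall'
      rw [List.mem_cons] at hg
      rcases hg with rfl | hg
      · rw [Subtype.ext (hx.eq hy)]
      · obtain ⟨n1, n2, n3, n4⟩ := k1 g1 (hsub g1 (by simp))
        have hz1 := dk_dt (d0 := x.1) (nbr_adj h.rot n1)
        set z : {d : G.Dart // Ex U d} := ⟨dk f x.1 g1.a, h.ex_of n1 n3 hz1⟩ with hz
        have h1 : ring R U z = x := h.ring_eq hR hc0 hD (hsub g0 (by simp)) hx (b := z) (by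
          rw [hall'.1]
          exact hz1)
        have h2 := ih g1 (fun g hg => hsub g (List.mem_cons_of_mem _ hg)) hall'.2 g hg z y hz1 hy
        refine Equiv.Perm.SameCycle.trans ?_ h2
        rw [← h1]
        exact (Equiv.Perm.sameCycle_apply_left.2 (Equiv.Perm.SameCycle.refl _ _))
  obtain ⟨g, hg, hga⟩ := h.ex_gp hR hc0 e.2
  obtain ⟨g', hg', hga'⟩ := h.ex_gp hR hc0 e'.2
  cases D with
  | nil => simp at hg
  | cons g0 l =>
    obtain ⟨n1, n2, n3, n4⟩ := k1 g0 (by simp)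
    have hz1 := dk_dt (d0 := e.1) (nbr_adj h.rot n1)
    set z : {d : G.Dart // Ex U d} := ⟨dk f e.1 g0.a, h.ex_of n1 n3 hz1⟩ with hz'
    have h1 := key l g0 (fun _ hg => hg) hz g hg z e hz1 hga
    have h2 := key l g0 (fun _ hg => hg) hz g' hg' z e' hz1 hga'
    exact h1.symm.trans h2

end

end Pool.Agent.Once392
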