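import Mathlib
import Pool.Agent.Work.MP_392c8e_co_uni.Ring
import Pool.Agent.Work.MP_392c8e_co_uni.FarFam
import Pool.Agent.Work.MP_392c8e_co_uni.GrowthB

/-!
# The rings of the places of a family

Any two vertices of a place which are not interior are joined by a walk of bounded length of the
new graph, and a deleted edge is near to them.
-/

namespace Pool.Agent.Ring392

open Finset Pool.Agent.Sub392 Pool.Agent.T392 Pool.Agent.Disch392 Pool.Agent.Uni392
  Pool.Agent.U2Geo Pool.Agent.Uni91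
open Pool.Agent.T1Red (Red Int Same Real Old Data rho newG)

set_option linter.unusedSectionVars false

variable {V : Type} [Fintype V] [DecidableEq V] {G : SimpleGraph V} [DecidableRel G.Adj]

open Classical in
/-- The ring of a place. -/
structure RingP (R : Rot G) (q : Place V) (k : ℕ) : Prop where
  one : ∀ e e' : {d : G.Dart // Ex (Int q.R q.f) d}, (ring R (Int q.R q.f)).SameCycle e e'
  card : #{d : G.Dart | Ex (Int q.R q.f) d} ≤ k
  stub : ∀ t ∈ q.Vert, ¬ Int q.R q.f t → ∃ b, Int q.R q.f b ∧ G.Adj b t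

variable {ι : Type} [Fintype ι] {p : ι → Place V}

theorem steps_of_walk {I : V → Prop} {P : List (V × List V × V)} :
    ∀ {x y : V} (w : G.Walk x y), (∀ z ∈ w.support, ¬ I z) → Steps (nbN G I P) w.length x y := by
  intro x y w
  induction w with
  | nil => exact fun _ => Steps.refl _
  | @cons x y z h w ih =>
    intro hw
    rw [SimpleGraph.Walk.length_cons]
    refine Steps.cons ?_ (ih fun a ha => hw a (by
      rw [SimpleGraph.Walk.support_cons]
      exact List.mem_cons_of_mem _ ha))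
    rw [mem_nbN]
    refine Or.inl ⟨h, hw x (SimpleGraph.Walk.start_mem_support _), hw y ?_⟩
    rw [SimpleGraph.Walk.support_cons]
    exact List.mem_cons_of_mem _ (SimpleGraph.Walk.start_mem_support _)

/-- **Walks around a place in the new graph.** -/
theorem RingP.steps {R : Rot G} {i : ι} {k L : ℕ} (hr : RingP R (p i) k)
    (hL : ∀ d, sz R d ≤ L)
    (hfar : ∀ j, j ≠ i → FarS G (k * L + 1) (p i).Vert (p j).Vert) {t t' : V}
    (hgood : ∀ j, Good (p j) G) (ht : t ∈ (p i).Vert) (ht' : t' ∈ (p i).Vert) (h : ¬ FI p t)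
    (h' : ¬ FI p t') : ∃ n, n ≤ k * L ∧ Steps (nbN G (FI p) (FP p)) n t t' := by
  obtain ⟨b, hb, hbt⟩ := hr.stub t ht fun h1 => h ⟨i, h1⟩
  obtain ⟨b', hb', hbt'⟩ := hr.stub t' ht' fun h1 => h' ⟨i, h1⟩
  have e1 : Ex (Int (p i).R (p i).f) (⟨(b, t), hbt⟩ : G.Dart) := ⟨hb, fun h1 => h ⟨i, h1⟩⟩
  have e2 : Ex (Int (p i).R (p i).f) (⟨(b', t'), hbt'⟩ : G.Dart) := ⟨hb', fun h1 => h' ⟨i, h1⟩⟩
  obtain ⟨w, hw1, hw2⟩ := ring_walk R hL hr.card (hr.one ⟨_, e1⟩ ⟨_, e2⟩)
  refine ⟨w.length, hw1, steps_of_walk (x := t) (y := t') w fun z hz => ?_⟩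
  rintro ⟨j, hj⟩
  by_cases hij : j = i
  · subst hij
    exact hw2 z hz hj
  · have h1 : z ∈ (p j).Vert := (hgood j).int_vert hj
    obtain ⟨n, hn, hzn⟩ := (SimpleGraph.Walk.mem_support_iff_exists_append (p := w)).1 hz
    have h2 := hfar j hij t ht z h1 n
    have h3 := congrArg SimpleGraph.Walk.length hzn
    rw [SimpleGraph.Walk.length_append] at h3
    omega

/-- The edges between the interior and the terminals, the interior end first. -/
def stubs (R : Red) : List (ℕ × ℕ) :=
  (R.ed ++ R.ed.map Prod.swap).filter fun e => Nat.ble R.t e.1 && Nat.blt e.2 R.t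

theorem mem_stubs {R : Red} {a b : ℕ} :
    (a, b) ∈ stubs R ↔ ((a, b) ∈ R.ed ∨ (b, a) ∈ R.ed) ∧ R.t ≤ a ∧ b < R.t := by
  unfold stubs
  rw [List.mem_filter, List.mem_append, List.mem_map]
  simp only [Bool.and_eq_true, Nat.ble_eq, Nat.blt_eq]
  constructor
  · rintro ⟨h1 | ⟨⟨c, d⟩, hc, h1⟩, h2, h3⟩
    · exact ⟨Or.inl h1, h2, h3⟩
    · rw [Prod.swap_prod_mk, Prod.mk.injEq] at h1
      obtain ⟨rfl, rfl⟩ := h1
      exact ⟨Or.inr hc, h2, h3⟩
  · rintro ⟨h1 | h1, h2, h3⟩
    · exact ⟨Or.inl h1, h2, h3⟩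
    · exact ⟨Or.inr ⟨_, h1, rfl⟩, h2, h3⟩

/-- One step of the search for the interior labels joined to the first one. -/
def step1 (R : Red) (S : List ℕ) (e : ℕ × ℕ) : List ℕ :=
  if Nat.ble R.t e.1 && Nat.ble R.t e.2 && (S.elem e.1 || S.elem e.2) then
    (S.insert e.1).insert e.2 else S

/-- The interior labels joined to the first one. -/
def clos (R : Red) : ℕ → List ℕ
  | 0 => [R.t]
  | n + 1 => R.ed.foldl (step1 R) (clos R n)

/-- The interior is connected. -/
def connB (R : Red) : Bool := (List.range R.m).all fun i => (clos R R.m).elem (R.t + i)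

theorem foldl_inv {R : Red} {Q : ℕ → Prop} (hQ : ∀ e ∈ R.ed, R.t ≤ e.1 → R.t ≤ e.2 →
    (Q e.1 ∨ Q e.2) → Q e.1 ∧ Q e.2) : ∀ (l : List (ℕ × ℕ)), (∀ e ∈ l, e ∈ R.ed) →
    ∀ S : List ℕ, (∀ a ∈ S, Q a) → ∀ a ∈ l.foldl (step1 R) S, Q a := by
  intro l
  induction l with
  | nil => exact fun _ S hS => hS
  | cons e l ih =>
    intro hl S hS
    rw [List.foldl_cons]
    refine ih (fun x hx => hl x (List.mem_cons_of_mem _ hx)) _ ?_
    unfold step1
    split_ifs with h1
    · simp only [Bool.and_eq_true, Nat.ble_eq, Bool.or_eq_true, List.elem_eq_mem,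
        decide_eq_true_eq] at h1
      have h2 := hQ e (hl e List.mem_cons_self) h1.1.1 h1.1.2 (h1.2.imp (hS _) (hS _))
      intro a ha
      rw [List.mem_insert_iff, List.mem_insert_iff] at ha
      rcases ha with rfl | rfl | ha
      · exact h2.2
      · exact h2.1
      · exact hS a ha
    · exact hS

theorem clos_inv {R : Red} {Q : ℕ → Prop} (h0 : Q R.t) (hQ : ∀ e ∈ R.ed, R.t ≤ e.1 → R.t ≤ e.2 →
    (Q e.1 ∨ Q e.2) → Q e.1 ∧ Q e.2) (n : ℕ) : ∀ a ∈ clos R n, Q a := by
  induction n with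
  | zero =>
    intro a ha
    unfold clos at ha
    rw [List.mem_singleton] at ha
    subst ha
    exact h0
  | succ n ih => exact foldl_inv hQ _ (fun e he => he) _ ih

/-- The check for the ring of a place with at most nine terminals. -/
def ringB (R : Red) (co : List (ℕ × ℕ)) : Bool :=
  connB R && Nat.ble 3 R.m && Nat.ble (stubs R).length 9 &&
    ((stubs R).all fun a => (stubs R).all fun b => (stubs R).all fun c =>
      !(decide (Same co a.2 b.2) && decide (Same co a.2 c.2) && decide (Same co b.2 c.2) &&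
        decide (a.1 ≠ b.1) && decide (a.1 ≠ c.1) && decide (b.1 ≠ c.1))) &&
    (Nat.ble (stubs R).length 8 || (stubs R).all fun a => (stubs R).all fun b =>
      !(decide (Same co a.2 b.2) && decide (a.1 ≠ b.1)))

section

variable {q : Place V}

/-- A neighbour of an interior vertex which is not interior belongs to a terminal. -/
theorem stub_of (hg : Good q G) {v w : V} (hw : Int q.R q.f w) (hv : ¬ Int q.R q.f v)
    (h : G.Adj w v) : ∃ b j, (b, j) ∈ stubs q.R ∧ q.f b = w ∧ q.f j = v ∧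
      Real q.R q.nl q.miss b ∧ Real q.R q.nl q.miss j := by
  obtain ⟨b, hb1, hb2, rfl⟩ := hw
  obtain ⟨j, hj, hjm, rfl⟩ := hg.ok.nbr b hb1 hb2 v h
  have h1 : j < q.R.t + q.R.m ∧ Old q.nl j := by
    rcases hj with hj | hj
    · exact ⟨(hg.ok.data.ed_lt _ hj).2.1, (hg.ok.data.ed_new _ hj).2⟩
    · exact ⟨(hg.ok.data.ed_lt _ hj).1, (hg.ok.data.ed_new _ hj).1⟩
  have h2 : j < q.R.t := by
    by_contra hcon
    exact hv ⟨j, by omega, h1.1, rfl⟩
  exact ⟨b, j, mem_stubs.2 ⟨hj, hb1, h2⟩, rfl, rfl, hg.ok.data.real_int hb1 hb2, h1.1, hjm, h1.2⟩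

theorem conn_of (hg : Good q G) (hm : q.miss = []) (h : connB q.R = true) (g : V → ℚ)
    (hgc : ∀ u v, Int q.R q.f u → Int q.R q.f v → G.Adj u v → g u = g v) :
    ∀ u v, Int q.R q.f u → Int q.R q.f v → g u = g v := by
  have h1 : ∀ a ∈ clos q.R q.R.m, g (q.f a) = g (q.f q.R.t) := by
    refine clos_inv (Q := fun a => g (q.f a) = g (q.f q.R.t)) rfl ?_ _
    intro e he h1 h2 h3
    have h4 := hg.adj e he (by rw [hm]; exact List.not_mem_nil) (by rw [hm]; exact List.not_mem_nil)
    have h5 := hg.ok.data.ed_lt e he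
    have h6 := hgc _ _ ⟨e.1, h1, h5.1, rfl⟩ ⟨e.2, h2, h5.2.1, rfl⟩ h4
    rcases h3 with h3 | h3
    · exact ⟨h3, h6 ▸ h3⟩
    · exact ⟨h6.trans h3, h3⟩
  have h2 : ∀ u, Int q.R q.f u → g u = g (q.f q.R.t) := by
    rintro u ⟨a, h2, h3, rfl⟩
    refine h1 a ?_
    unfold connB at h
    rw [List.all_eq_true] at h
    have h4 := h (a - q.R.t) (List.mem_range.2 (by omega))
    rw [List.elem_eq_mem, decide_eq_true_eq] at h4
    rwa [show q.R.t + (a - q.R.t) = a by omega] at h4
  intro u v hu hv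
  rw [h2 u hu, h2 v hv]

open Classical in
theorem card_ex (hg : Good q G) :
    #{d : G.Dart | Ex (Int q.R q.f) d} ≤ (stubs q.R).length := by
  have h1 : (univ.filter fun d : G.Dart => Ex (Int q.R q.f) d).image (fun d => (d.fst, d.snd)) ⊆
      ((stubs q.R).map fun s => (q.f s.1, q.f s.2)).toFinset := by
    intro x hx
    rw [mem_image] at hx
    obtain ⟨d, hd, rfl⟩ := hx
    simp only [mem_filter, mem_univ, true_and] at hd
    obtain ⟨b, j, h1, h2, h3, -⟩ := stub_of hg hd.1 hd.2 d.adj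
    rw [List.mem_toFinset, List.mem_map]
    exact ⟨(b, j), h1, by rw [h2, h3]⟩
  have h2 := card_le_card h1
  rw [card_image_of_injective] at h2
  · refine h2.trans ((List.toFinset_card_le _).trans ?_)
    rw [List.length_map]
  · intro d d' h
    exact SimpleGraph.Dart.ext _ _ h

open Classical in
theorem card_int_le (q : Place V) : #{v : V | Int q.R q.f v} ≤ q.R.m := by
  have h1 : (univ.filter fun v : V => Int q.R q.f v) ⊆
      (Finset.range q.R.m).image fun i => q.f (q.R.t + i) := by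
    intro v hv
    simp only [mem_filter, mem_univ, true_and] at hv
    obtain ⟨a, h2, h3, rfl⟩ := hv
    rw [mem_image]
    exact ⟨a - q.R.t, mem_range.2 (by omega), by rw [show q.R.t + (a - q.R.t) = a by omega]⟩
  refine (card_le_card h1).trans (card_image_le.trans ?_)
  rw [card_range]

open Classical in
theorem card_int_ge (hg : Good q G) : q.R.m ≤ #{v : V | Int q.R q.f v} := by
  have h1 : (Finset.range q.R.m).image (fun i => q.f (q.R.t + i)) ⊆
      (univ.filter fun v : V => Int q.R q.f v) := by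
    intro v hv
    rw [mem_image] at hv
    obtain ⟨i, hi, rfl⟩ := hv
    rw [mem_range] at hi
    simp only [mem_filter, mem_univ, true_and]
    exact ⟨q.R.t + i, by omega, by omega, rfl⟩
  have h2 := card_le_card h1
  rw [card_image_of_injOn, card_range] at h2
  · exact h2
  · intro i hi j hj hij
    simp only [coe_range, Set.mem_Iio] at hi hj
    have h3 := hg.ok.inj _ _ (hg.ok.data.real_int (i := q.R.t + i) (by omega) (by omega))
      (hg.ok.data.real_int (i := q.R.t + j) (by omega) (by omega)) hij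
    have h4 := hg.ok.data.same_int h3 (by omega)
    omega

/-- Three neighbours. -/
theorem three_nb (hc : ∀ v, G.degree v = 3) (v : V) : ∃ x y z, x ≠ y ∧ x ≠ z ∧ y ≠ z ∧
    ∀ w, G.Adj v w ↔ w = x ∨ w = y ∨ w = z := by
  obtain ⟨x, y, z, h1, h2, h3, h4⟩ := Finset.card_eq_three.1 (hc v)
  refine ⟨x, y, z, h1, h2, h3, fun w => ?_⟩
  rw [← SimpleGraph.mem_neighborFinset, h4]
  simp

/-- **The ring of a place with at most nine terminals.** -/
theorem ringP_of {R : Rot G} (hC : C5 R) (hg : Good q G) (hm : q.miss = [])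
    (h : ringB q.R q.co = true) (hbig : q.R.m + 4 < Fintype.card V) :
    RingP R q (stubs q.R).length := by
  classical
  unfold ringB at h
  simp only [Bool.and_eq_true, Bool.or_eq_true, Nat.ble_eq, List.all_eq_true, Bool.not_eq_true',
    Bool.and_eq_false_iff, decide_eq_false_iff_not] at h
  obtain ⟨⟨⟨⟨h1, h2⟩, h3⟩, h4⟩, h5⟩ := h
  have hconn := conn_of hg hm h1
  have hcard := card_ex hg
  refine ⟨?_, hcard, ?_⟩
  · refine one_orbit hC hconn (h2.trans (card_int_ge hg)) ?_ (hcard.trans h3) ?_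
    · -- a vertex with three interior neighbours
      intro v hv
      by_contra hcon
      push Not at hcon
      obtain ⟨x, y, z, n1, n2, n3, hn⟩ := three_nb hC.cub v
      have a1 := (hn x).2 (Or.inl rfl)
      have a2 := (hn y).2 (Or.inr (Or.inl rfl))
      have a3 := (hn z).2 (Or.inr (Or.inr rfl))
      obtain ⟨b1, j1, s1, e1, f1, r1, r1'⟩ := stub_of hg (hcon x a1) hv a1.symm
      obtain ⟨b2, j2, s2, e2, f2, r2, r2'⟩ := stub_of hg (hcon y a2) hv a2.symm
      obtain ⟨b3, j3, s3, e3, f3, r3, r3'⟩ := stub_of hg (hcon z a3) hv a3.symm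
      have c1 : Same q.co j1 j2 := hg.ok.inj _ _ r1' r2' (f1.trans f2.symm)
      have c2 : Same q.co j1 j3 := hg.ok.inj _ _ r1' r3' (f1.trans f3.symm)
      have c3 : Same q.co j2 j3 := hg.ok.inj _ _ r2' r3' (f2.trans f3.symm)
      have d1 : b1 ≠ b2 := fun hh => n1 (by rw [← e1, ← e2, hh])
      have d2 : b1 ≠ b3 := fun hh => n2 (by rw [← e1, ← e3, hh])
      have d3 : b2 ≠ b3 := fun hh => n3 (by rw [← e2, ← e3, hh])
      have := h4 _ s1 _ s2 _ s3
      tauto
    · rcases h5 with h5 | h5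
      · right
        refine ⟨hcard.trans h5, ?_⟩
        have := card_int_le q
        omega
      · left
        intro u v huv hu hv hu' _
        obtain ⟨x, y, z, n1, n2, n3, hn⟩ := three_nb hC.cub u
        -- two neighbours different from `v`
        obtain ⟨a, b, hab, ha, hb, hav, hbv⟩ : ∃ a b, a ≠ b ∧ G.Adj u a ∧ G.Adj u b ∧ a ≠ v ∧
            b ≠ v := by
          have a1 := (hn x).2 (Or.inl rfl)
          have a2 := (hn y).2 (Or.inr (Or.inl rfl))
          have a3 := (hn z).2 (Or.inr (Or.inr rfl))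
          rcases (hn v).1 huv with rfl | rfl | rfl
          · exact ⟨y, z, n3, a2, a3, n1.symm, n2.symm⟩
          · exact ⟨x, z, n2, a1, a3, n1, n3.symm⟩
          · exact ⟨x, y, n1, a1, a2, n2, n3⟩
        have ha' : Int q.R q.f a := (hu' a ha).resolve_left hav
        have hb' : Int q.R q.f b := (hu' b hb).resolve_left hbv
        obtain ⟨b1, j1, s1, e1, f1, r1, r1'⟩ := stub_of hg ha' hu ha.symm
        obtain ⟨b2, j2, s2, e2, f2, r2, r2'⟩ := stub_of hg hb' hu hb.symm
        have c1 : Same q.co j1 j2 := hg.ok.inj _ _ r1' r2' (f1.trans f2.symm)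
        have d1 : b1 ≠ b2 := fun hh => hab (by rw [← e1, ← e2, hh])
        have := h5 _ s1 _ s2
        tauto
  · rintro t ⟨j, ⟨hj1, hj2, hj3⟩, rfl⟩ ht
    have hjt : j < q.R.t := by
      by_contra hcon
      exact ht ⟨j, by omega, hj1, rfl⟩
    obtain ⟨e, he, he'⟩ := hg.ok.data.att j (List.mem_range.2 hjt) hj3
    have hadj := hg.adj e he (by rw [hm]; exact List.not_mem_nil)
      (by rw [hm]; exact List.not_mem_nil)
    have hlt := hg.ok.data.ed_lt e he
    rcases hg.ok.data.ed_int e he with h6 | h6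
    · rcases he' with rfl | rfl
      · omega
      · exact ⟨q.f e.1, ⟨e.1, h6, hlt.1, rfl⟩, hadj⟩
    · rcases he' with rfl | rfl
      · exact ⟨q.f e.2, ⟨e.2, h6, hlt.2.1, rfl⟩, hadj.symm⟩
      · omega

end

end Pool.Agent.Ring392
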