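import Mathlib
import Pool.Agent.Work.MP_392c8e_co_uni.RingFam

/-!
# Deleted edges near the vertices of a place
-/

namespace Pool.Agent.Ring392

open Finset Pool.Agent.Sub392 Pool.Agent.T392 Pool.Agent.Disch392 Pool.Agent.Uni392
  Pool.Agent.U2Geo
open Pool.Agent.Uni91 (Good Fam FI FP VD OnP Cs ends full cs_cons cs_map mem_FP mem_ends_FP)
open Pool.Agent.T1Red (Red Int Same Real Old Data rho newG)

set_option linter.unusedSectionVars false

/-- Consecutive elements. -/
def cons2 (l : List ℕ) : List (ℕ × ℕ) := l.zip l.tail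

theorem mem_cons2 : ∀ {l : List ℕ} {a b : ℕ}, Cs l a b → (a, b) ∈ cons2 l := by
  intro l
  induction l with
  | nil =>
    rintro a b ⟨l₁, l₂, h⟩
    simp at h
  | cons c l ih =>
    intro a b h
    rcases cs_cons.1 h with ⟨rfl, l', rfl⟩ | h
    · unfold cons2
      simp
    · have h1 := ih h
      cases l with
      | nil =>
        unfold cons2 at h1
        simp at h1
      | cons d l =>
        unfold cons2 at h1 ⊢
        simp only [List.tail_cons] at h1 ⊢
        rw [List.zip_cons_cons]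
        exact List.mem_cons_of_mem _ h1

/-- The edge is on no path. -/
def offB (ps : List (ℕ × List ℕ × ℕ)) (co : List (ℕ × ℕ)) (a b : ℕ) : Bool :=
  ps.all fun q => (cons2 (q.1 :: (q.2.1 ++ [q.2.2]))).all fun c =>
    !((decide (Same co c.1 a) && decide (Same co c.2 b)) ||
      (decide (Same co c.1 b) && decide (Same co c.2 a)))

/-- There is a deleted edge at the label. -/
def delB (R : Red) (ps : List (ℕ × List ℕ × ℕ)) (co : List (ℕ × ℕ)) (a : ℕ) : Bool :=
  R.ed.any fun e => (e.1 == a || e.2 == a) && offB ps co e.1 e.2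

/-- The labels are the ends of a path. -/
def joinB (ps : List (ℕ × List ℕ × ℕ)) (a b : ℕ) : Bool :=
  ps.any fun q => (q.1 == a && q.2.2 == b) || (q.1 == b && q.2.2 == a)

/-- There is a deleted edge at a terminal or at a label joined to a terminal. -/
def gainB (R : Red) (ps : List (ℕ × List ℕ × ℕ)) (co : List (ℕ × ℕ)) : Bool :=
  (List.range (R.t + R.m)).any fun z => delB R ps co z &&
    (Nat.blt z R.t || (List.range R.t).any fun a => joinB ps a z)

/-- Every interior label is an inner vertex of a path, or has a deleted edge, or is joined to a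
terminal or to a label with a deleted edge. -/
def intB (R : Red) (ps : List (ℕ × List ℕ × ℕ)) (co : List (ℕ × ℕ)) : Bool :=
  (List.range R.m).all fun i => (ps.any fun q => q.2.1.elem (R.t + i)) ||
    delB R ps co (R.t + i) || (List.range (R.t + R.m)).any fun b => joinB ps (R.t + i) b &&
      (Nat.blt b R.t || delB R ps co b)

theorem NearG.mono {V : Type} [Fintype V] {G : SimpleGraph V} {I : V → Prop}
    {P : List (V × List V × V)} {D D' : ℕ} {v : V} (h : NearG G I P D v) (hD : D ≤ D') :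
    NearG G I P D' v := by
  obtain ⟨n, hn, h⟩ := h
  exact ⟨n, hn.trans hD, h⟩

theorem NearG.steps {V : Type} [Fintype V] {G : SimpleGraph V} {I : V → Prop}
    {P : List (V × List V × V)} {D n : ℕ} {u v : V} (h : NearG G I P D v)
    (hs : Steps (nbN G I P) n u v) : NearG G I P (n + D) u := by
  obtain ⟨k, hk, z, w, h1, h2⟩ := h
  exact ⟨n + k, by omega, z, w, h1, hs.trans h2⟩

variable {V : Type} [Fintype V] [DecidableEq V] {G : SimpleGraph V} [DecidableRel G.Adj]
variable {ι : Type} [Fintype ι] {p : ι → Place V} {i : ι}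

/-- A label with a deleted edge. -/
theorem del_of (hp : Fam p G) (hm : (p i).miss = []) {a : ℕ}
    (h : delB (p i).R (p i).ps (p i).co a = true) :
    Real (p i).R (p i).nl (p i).miss a ∧ ∃ w, Del G (FI p) (FP p) ((p i).f a) w := by
  have hg := hp.good i
  unfold delB at h
  rw [List.any_eq_true] at h
  obtain ⟨e, he, h1⟩ := h
  simp only [Bool.and_eq_true, Bool.or_eq_true, beq_iff_eq] at h1
  obtain ⟨h1, h2⟩ := h1
  have hlt := hg.ok.data.ed_lt e he
  have hold := hg.ok.data.ed_new e he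
  have hr1 : Real (p i).R (p i).nl (p i).miss e.1 :=
    ⟨hlt.1, by rw [hm]; exact List.not_mem_nil, hold.1⟩
  have hr2 : Real (p i).R (p i).nl (p i).miss e.2 :=
    ⟨hlt.2.1, by rw [hm]; exact List.not_mem_nil, hold.2⟩
  have hadj := hg.adj e he hr1.2.1 hr2.2.1
  have hI : FI p ((p i).f e.1) ∨ FI p ((p i).f e.2) := by
    rcases hg.ok.data.ed_int e he with h3 | h3
    · exact Or.inl ⟨i, e.1, h3, hlt.1, rfl⟩
    · exact Or.inr ⟨i, e.2, h3, hlt.2.1, rfl⟩
  have hoff : ∀ π ∈ FP p, ¬ OnP π ((p i).f e.1) ((p i).f e.2) := by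
    intro π hπ hon
    obtain ⟨j, hj⟩ := mem_FP.1 hπ
    have hmem : (p i).f e.1 ∈ full π := by
      rcases hon with h3 | h3
      · exact h3.mem.1
      · exact h3.mem.2
    have hji : j = i := hp.eq_of_vert ((hp.good j).mem_full hj hmem) ⟨e.1, hr1, rfl⟩
    subst hji
    unfold Place.pth at hj
    obtain ⟨q, hq, rfl⟩ := List.mem_map.1 hj
    unfold offB at h2
    simp only [List.all_eq_true, Bool.not_eq_true', Bool.or_eq_false_iff, Bool.and_eq_false_iff,
      decide_eq_false_iff_not] at h2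
    have key : ∀ u v, Cs (full ((p j).f q.1, q.2.1.map (p j).f, (p j).f q.2.2)) u v →
        ∃ a b, (a, b) ∈ cons2 (q.1 :: (q.2.1 ++ [q.2.2])) ∧ (p j).f a = u ∧ (p j).f b = v ∧
          Real (p j).R (p j).nl (p j).miss a ∧ Real (p j).R (p j).nl (p j).miss b := by
      intro u v h3
      rw [Good.full_map] at h3
      obtain ⟨a, b, h4, rfl, rfl⟩ := cs_map _ h3
      exact ⟨a, b, mem_cons2 h4, rfl, rfl, hg.ok.data.rng q hq a h4.mem.1,
        hg.ok.data.rng q hq b h4.mem.2⟩
    rcases hon with h3 | h3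
    · obtain ⟨a', b', h4, h5, h6, h7, h8⟩ := key _ _ h3
      have := (h2 q hq _ h4).1
      have c1 := hg.ok.inj _ _ h7 hr1 h5
      have c2 := hg.ok.inj _ _ h8 hr2 h6
      tauto
    · obtain ⟨a', b', h4, h5, h6, h7, h8⟩ := key _ _ h3
      have := (h2 q hq _ h4).2
      have c1 := hg.ok.inj _ _ h7 hr2 h5
      have c2 := hg.ok.inj _ _ h8 hr1 h6
      tauto
  have hdel : Del G (FI p) (FP p) ((p i).f e.1) ((p i).f e.2) := ⟨hadj, hI, hoff⟩
  rcases h1 with rfl | rfl
  · exact ⟨hr1, _, hdel⟩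
  · exact ⟨hr2, _, hdel.symm⟩

/-- Labels joined by a path are adjacent in the new graph. -/
theorem join_of (hp : Fam p G) {a b : ℕ} (h : joinB (p i).ps a b = true) :
    Real (p i).R (p i).nl (p i).miss a ∧ Real (p i).R (p i).nl (p i).miss b ∧
      (p i).f b ∈ nbN G (FI p) (FP p) ((p i).f a) := by
  have hg := hp.good i
  unfold joinB at h
  rw [List.any_eq_true] at h
  obtain ⟨q, hq, h1⟩ := h
  simp only [Bool.and_eq_true, Bool.or_eq_true, beq_iff_eq] at h1
  have r1 := hg.ok.data.rng q hq q.1 List.mem_cons_self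
  have r2 := hg.ok.data.rng q hq q.2.2 (by simp)
  have hne : (p i).f q.1 ≠ (p i).f q.2.2 := by
    intro h2
    have h3 := hg.ok.inj _ _ r1 r2 h2
    have h4 := List.pairwise_cons.1 (hg.ok.data.nodup q hq)
    exact h4.1 q.2.2 (by simp) h3
  have hmem : ((p i).f q.1, (p i).f q.2.2) ∈ ends (FP p) := by
    rw [mem_ends_FP]
    refine ⟨i, ?_⟩
    unfold ends Place.pth
    rw [List.map_map, List.mem_map]
    exact ⟨q, hq, rfl⟩
  rcases h1 with ⟨rfl, rfl⟩ | ⟨rfl, rfl⟩
  · exact ⟨r1, r2, mem_nbN.2 (Or.inr ⟨hne, Or.inl hmem⟩)⟩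
  · exact ⟨r2, r1, mem_nbN.2 (Or.inr ⟨hne.symm, Or.inr hmem⟩)⟩

/-- Terminals are not interior. -/
theorem ter_not_FI (hp : Fam p G) {a : ℕ} (ha : Real (p i).R (p i).nl (p i).miss a)
    (hat : a < (p i).R.t) : ¬ FI p ((p i).f a) := by
  rintro ⟨j, hj⟩
  have hji : j = i := hp.eq_of_vert ((hp.good j).int_vert hj) ⟨a, ha, rfl⟩
  subst hji
  obtain ⟨b, h1, h2, h3⟩ := hj
  have h4 := (hp.good j).ok.inj _ _ ((hp.good j).ok.data.real_int h1 h2) ha h3
  have h5 := (hp.good j).ok.data.same_int h4 h1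
  omega

/-- **A deleted edge is near to the ring.** -/
theorem near_of_steps {R : Rot G} {k L n : ℕ} (hp : Fam p G) (hr : RingP R (p i) k)
    (hL : ∀ d, sz R d ≤ L) (hfar : ∀ j, j ≠ i → FarS G (k * L + 1) (p i).Vert (p j).Vert)
    (hm : (p i).miss = []) (h : gainB (p i).R (p i).ps (p i).co = true) {v t : V}
    (ht : t ∈ (p i).Vert) (ht' : ¬ FI p t) (hs : Steps (nbN G (FI p) (FP p)) n v t) :
    NearG G (FI p) (FP p) (n + (k * L + 1)) v := by
  refine NearG.steps ?_ hs
  unfold gainB at h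
  rw [List.any_eq_true] at h
  obtain ⟨z, -, h1⟩ := h
  simp only [Bool.and_eq_true, Bool.or_eq_true, Nat.blt_eq, List.any_eq_true] at h1
  obtain ⟨h1, h2⟩ := h1
  obtain ⟨hz, w, hw⟩ := del_of hp hm h1
  rcases h2 with h2 | ⟨a, ha, h2⟩
  · obtain ⟨l, hl1, hl2⟩ := hr.steps hL hfar hp.good ht ⟨z, hz, rfl⟩ ht' (ter_not_FI hp hz h2)
    exact ⟨l, by omega, _, w, hw, hl2⟩
  · obtain ⟨h3, -, h4⟩ := join_of hp h2
    obtain ⟨l, hl1, hl2⟩ := hr.steps hL hfar hp.good ht ⟨a, h3, rfl⟩ ht'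
      (ter_not_FI hp h3 (List.mem_range.1 ha))
    exact ⟨l + 1, by omega, _, w, hw, hl2.trans (Steps.cons h4 (Steps.refl _))⟩

/-- **A deleted edge is near to the interior vertices with none.** -/
theorem near_of_int {R : Rot G} {k L : ℕ} (hp : Fam p G) (hr : RingP R (p i) k)
    (hL : ∀ d, sz R d ≤ L) (hfar : ∀ j, j ≠ i → FarS G (k * L + 1) (p i).Vert (p j).Vert)
    (hm : (p i).miss = []) (h : gainB (p i).R (p i).ps (p i).co = true)
    (h' : intB (p i).R (p i).ps (p i).co = true) {v : V} (hv : Int (p i).R (p i).f v)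
    (hdel : ∀ w, ¬ Del G (FI p) (FP p) v w) (hinn : ¬ Inn (FP p) v) :
    NearG G (FI p) (FP p) (1 + (k * L + 1)) v := by
  obtain ⟨a, ha1, ha2, rfl⟩ := hv
  unfold intB at h'
  rw [List.all_eq_true] at h'
  have h1 := h' (a - (p i).R.t) (List.mem_range.2 (by omega))
  rw [show (p i).R.t + (a - (p i).R.t) = a by omega] at h1
  simp only [Bool.or_eq_true, Bool.and_eq_true, Nat.blt_eq, List.any_eq_true, List.elem_eq_mem,
    decide_eq_true_eq] at h1
  rcases h1 with (⟨q, hq, h1⟩ | h1) | ⟨b, -, h1, h2⟩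
  · exfalso
    refine hinn ⟨((p i).f q.1, q.2.1.map (p i).f, (p i).f q.2.2), mem_FP.2 ⟨i, ?_⟩, ?_⟩
    · unfold Place.pth
      exact List.mem_map.2 ⟨q, hq, rfl⟩
    · exact List.mem_map.2 ⟨a, h1, rfl⟩
  · obtain ⟨-, w, hw⟩ := del_of hp hm h1
    exact absurd hw (hdel w)
  · obtain ⟨-, h3, h4⟩ := join_of hp h1
    rcases h2 with h2 | h2
    · exact near_of_steps hp hr hL hfar hm h ⟨b, h3, rfl⟩ (ter_not_FI hp h3 h2)
        (Steps.cons h4 (Steps.refl _))
    · obtain ⟨-, w, hw⟩ := del_of hp hm h2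
      exact ⟨1, by omega, _, w, hw, Steps.cons h4 (Steps.refl _)⟩

end Pool.Agent.Ring392
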