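import Mathlib
import Pool.Agent.Work.MP_392c8e_co_uni.RingGain
import Pool.Agent.Work.MP_392c8e_co_uni.OnceLab
import Pool.Agent.Work.MP_392c8e_co_uni.SjF55

/-!
# Places with long outer faces

If every terminal of a place is joined to a label with a deleted edge by new edges and by short
outer faces, then a deleted edge is near to every vertex near the place.
-/

namespace Pool.Agent.RingB

open Finset Pool.Agent.Sub392 Pool.Agent.T392 Pool.Agent.Disch392 Pool.Agent.Uni392
  Pool.Agent.U2Geo Pool.Agent.Ring392 Pool.Agent.Once392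
open Pool.Agent.Uni91 (Good Fam FI FP VD OnP Cs ends full mem_FP mem_ends_FP)
open Pool.Agent.T1Red (Red Int Same Real Old Data rho newG)

set_option linter.unusedSectionVars false

variable {V : Type} [Fintype V] [DecidableEq V] {G : SimpleGraph V} [DecidableRel G.Adj]

/-! ## Short outer faces -/

/-- The labels of every pair of the list are joined by a walk of length at most `K` outside the
interior of the place. -/
def Gaps (G : SimpleGraph V) (q : Place V) (K : ℕ) (gs : List (ℕ × ℕ)) : Prop :=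
  ∀ e ∈ gs, Real q.R q.nl q.miss e.1 ∧ Real q.R q.nl q.miss e.2 ∧
    OW G (Int q.R q.f) K (q.f e.1) (q.f e.2)

/-- One step of the ring along a short face. -/
theorem step_short (R : Rot G) {U : V → Prop} {K : ℕ} (e : {d : G.Dart // Ex U d})
    (hK : sz R e.1 ≤ K) : OW G U K e.1.snd (ring R U e).1.snd := by
  have h1 := rn_lt R e.2
  have h2 := (rn_spec R e.2).1
  have key : ∀ i, i < rn R U e.1 → OW G U i e.1.snd (R.next^[i] e.1).snd := by
    intro i
    induction i with
    | zero => exact fun _ => OW.nil e.2.2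
    | succ i ih =>
      intro hi
      have h4 : G.Adj (R.next^[i] e.1).snd (R.next^[i + 1] e.1).snd := by
        have := (R.next^[i + 1] e.1).adj
        rwa [fst_iter] at this
      exact (ih (by omega)).snoc h4 (rn_out R e.2 hi)
  obtain ⟨i, hi⟩ := Nat.exists_eq_succ_of_ne_zero (n := rn R U e.1) (by omega)
  have h5 : (ring R U e).1.snd = (R.next^[i] e.1).snd := by
    show (R.next^[rn R U e.1] e.1).fst = _
    rw [hi]
    exact fst_iter R e.1 i
  rw [h5]
  exact (key i (by omega)).mono (by omega)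

/-- The table is the table of the place. -/
def labB (R : Red) (nl : List (ℕ × ℕ)) (N : List (ℕ × ℕ × ℕ × ℕ)) : Bool :=
  (List.range R.m).all (fun i => (ins N).elem (R.t + i)) &&
    (ins N).all (fun i => Nat.ble R.t i) &&
    (lbs N).all fun j => Nat.blt j (R.t + R.m) && decide (Old nl j)

/-- **The labels of a place.** -/
theorem lab_of {R : Rot G} {q : Place V} (hg : Good q G) (hm : q.miss = [])
    {N : List (ℕ × ℕ × ℕ × ℕ)} (hN : RotOk R q.f N) (h : labB q.R q.nl N = true) :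
    Lab R (Int q.R q.f) q.f N ∧ ∀ j ∈ lbs N, Real q.R q.nl q.miss j := by
  unfold labB at h
  simp only [Bool.and_eq_true, List.all_eq_true, List.elem_eq_mem, decide_eq_true_eq,
    Nat.ble_eq, Nat.blt_eq] at h
  obtain ⟨⟨h1, h2⟩, h3⟩ := h
  have hreal : ∀ j ∈ lbs N, Real q.R q.nl q.miss j := fun j hj =>
    ⟨(h3 j hj).1, by rw [hm]; exact List.not_mem_nil, (h3 j hj).2⟩
  refine ⟨⟨hN, ?_, ?_⟩, hreal⟩
  · intro i hi j hj hij
    have h4 := hg.ok.inj _ _ (hreal i (lbs_of_ins hi)) (hreal j hj) hij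
    exact (hg.ok.data.same_int h4 (h2 i hi))
  · intro v
    constructor
    · rintro ⟨a, ha, ha', rfl⟩
      refine ⟨a, ?_, rfl⟩
      have := h1 (a - q.R.t) (List.mem_range.2 (by omega))
      rwa [show q.R.t + (a - q.R.t) = a by omega] at this
    · rintro ⟨a, ha, rfl⟩
      exact ⟨a, h2 a ha, (hreal a (lbs_of_ins ha)).1, rfl⟩

/-- The pairs of consecutive terminals at the gaps whose face contains one of the given darts. -/
def gsOf (N : List (ℕ × ℕ × ℕ × ℕ)) (D : List Gp) (sh : List (ℕ × ℕ)) : List (ℕ × ℕ) :=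
  (D.filter fun g => sh.any fun c => sF N g.a.swap c).map fun g => (g.a.2, g.b.2)

/-- **Short outer faces.** -/
theorem gaps_of {R : Rot G} {q : Place V} {K : ℕ} (hR : C5 R) (hg : Good q G)
    (hm : q.miss = []) {N : List (ℕ × ℕ × ℕ × ℕ)} (hN : RotOk R q.f N)
    (hl : labB q.R q.nl N = true) {r : ℕ × ℕ} {D : List Gp} (hD : gps N r D = true)
    (hc : Cond R (Int q.R q.f) D) {sh : List (ℕ × ℕ)}
    (hsh : ∀ c ∈ sh, ∃ d : G.Dart, Dt q.f c d ∧ sz R d ≤ K) : Gaps G q K (gsOf N D sh) := by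
  obtain ⟨hL, hreal⟩ := lab_of hg hm hN hl
  intro e he
  unfold gsOf at he
  rw [List.mem_map] at he
  obtain ⟨g, hgD, rfl⟩ := he
  rw [List.mem_filter, List.any_eq_true] at hgD
  obtain ⟨hgD, c, hcs, hF⟩ := hgD
  have hD0 := hD
  unfold gps at hD
  simp only [Bool.and_eq_true] at hD
  obtain ⟨⟨⟨hr, hall⟩, -⟩, -⟩ := hD
  have h1 := List.all_eq_true.1 hall g hgD
  rw [Bool.and_eq_true] at h1
  have e1 := h1.1
  unfold gp1 at e1
  simp only [Bool.and_eq_true, Bool.not_eq_true'] at e1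
  obtain ⟨⟨⟨⟨⟨⟨⟨c1, c2⟩, c3⟩, c4⟩, c5⟩, c6⟩, c7⟩, c8⟩ := e1
  obtain ⟨d, hd1, hd2⟩ := hsh c hcs
  have ha := dk_dt (d0 := d) (nbr_adj hN c3)
  have hb := dk_dt (d0 := d) (nbr_adj hN c4)
  set a : {d : G.Dart // Ex (Int q.R q.f) d} := ⟨dk q.f d g.a, hL.ex_of c3 (by simpa using c5) ha⟩
  set b : {d : G.Dart // Ex (Int q.R q.f) d} := ⟨dk q.f d g.b, hL.ex_of c4 (by simpa using c6) hb⟩
  have h2 : ring R (Int q.R q.f) b = a := hL.ring_eq hR hD0 hc hgD ha hb
  have hCn : Cn R a.1.symm (g.B.map (dk q.f d)) b.1 := cnL_ok hN ha.swap hb c1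
  have h3 : R.face b.1 = R.face d := by
    rw [hCn.face]
    exact (sF_ok hN hF ha.swap hd1).symm
  have h4 : sz R b.1 ≤ K := by
    unfold sz
    rw [h3]
    exact hd2
  have h5 := step_short R b h4
  rw [h2] at h5
  refine ⟨hreal _ (lbs_of_nbr c3).2, hreal _ (lbs_of_nbr c4).2, ?_⟩
  have e2 : a.1.snd = q.f g.a.2 := ha.2
  have e3 : b.1.snd = q.f g.b.2 := hb.2
  rw [← e2, ← e3]
  exact h5.symm

/-! ## Chains of labels -/

/-- The labels are joined by a new edge or by a short outer face. -/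
def lkB (ps : List (ℕ × List ℕ × ℕ)) (gs : List (ℕ × ℕ)) (a b : ℕ) : Bool :=
  joinB ps a b || gs.any fun e => (e.1 == a && e.2 == b) || (e.1 == b && e.2 == a)

/-- The labels reached from the given ones. -/
def rch (R : Red) (ps : List (ℕ × List ℕ × ℕ)) (gs : List (ℕ × ℕ)) (S0 : List ℕ) : ℕ → List ℕ
  | 0 => S0
  | n + 1 => rch R ps gs S0 n ++ (List.range (R.t + R.m)).filter fun a =>
      !(rch R ps gs S0 n).elem a && (rch R ps gs S0 n).any fun b => lkB ps gs a b

/-- **The check**: every terminal is joined to a label with a deleted edge, and every interior label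
is an inner vertex of a path or joined to such a label. -/
def goodB (R : Red) (nl : List (ℕ × ℕ)) (ps : List (ℕ × List ℕ × ℕ)) (co gs : List (ℕ × ℕ)) :
    Bool :=
  (List.range R.t).all (fun j => !decide (Old nl j) ||
    (rch R ps gs ((List.range (R.t + R.m)).filter fun a => delB R ps co a) 10).elem j) &&
    (List.range R.m).all fun i => (ps.any fun q => q.2.1.elem (R.t + i)) ||
      (rch R ps gs ((List.range (R.t + R.m)).filter fun a => delB R ps co a) 10).elem (R.t + i)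

/-- The check that all terminals are joined. -/
def connT (R : Red) (nl : List (ℕ × ℕ)) (ps : List (ℕ × List ℕ × ℕ)) (gs : List (ℕ × ℕ)) : Bool :=
  (List.range R.t).all (fun j => !decide (Old nl j) || (rch R ps gs [0] 10).elem j) &&
    decide (Old nl 0)

section

variable {ι : Type} [Fintype ι] {p : ι → Place V} {i : ι}

/-- Walks outside the interior are chains of the new graph. -/
theorem steps_gap {K : ℕ} (hgood : ∀ j, Good (p j) G)
    (hfar : ∀ j, j ≠ i → FarS G (K + 1) (p i).Vert (p j).Vert) {x y : V}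
    (hx : x ∈ (p i).Vert) (h : OW G (Int (p i).R (p i).f) K x y) :
    ∃ n, n ≤ K ∧ Steps (nbN G (FI p) (FP p)) n x y := by
  obtain ⟨w, hw1, hw2⟩ := h
  refine ⟨w.length, hw1, steps_of_walk (x := x) (y := y) w fun z hz => ?_⟩
  rintro ⟨j, hj⟩
  by_cases hij : j = i
  · subst hij
    exact hw2 z hz hj
  · have h1 : z ∈ (p j).Vert := (hgood j).int_vert hj
    obtain ⟨n, hn, hzn⟩ := (SimpleGraph.Walk.mem_support_iff_exists_append (p := w)).1 hz
    have h2 := hfar j hij x hx z h1 n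
    have h3 := congrArg SimpleGraph.Walk.length hzn
    rw [SimpleGraph.Walk.length_append] at h3
    omega

/-- One link. -/
theorem steps_lk {K : ℕ} {gs : List (ℕ × ℕ)} (hp : Fam p G)
    (hfar : ∀ j, j ≠ i → FarS G (K + 1) (p i).Vert (p j).Vert) (hG : Gaps G (p i) K gs)
    {a b : ℕ} (h : lkB (p i).ps gs a b = true) :
    ∃ n, n ≤ K + 1 ∧ Steps (nbN G (FI p) (FP p)) n ((p i).f a) ((p i).f b) := by
  unfold lkB at h
  rw [Bool.or_eq_true, List.any_eq_true] at h
  rcases h with h | ⟨e, he, h⟩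
  · obtain ⟨h1, h2, h3⟩ := join_of hp h
    exact ⟨1, by omega, Steps.cons h3 (Steps.refl _)⟩
  · obtain ⟨h1, h2, h3⟩ := hG e he
    simp only [Bool.or_eq_true, Bool.and_eq_true, beq_iff_eq] at h
    rcases h with ⟨rfl, rfl⟩ | ⟨rfl, rfl⟩
    · obtain ⟨n, hn, h4⟩ := steps_gap hp.good hfar ⟨_, h1, rfl⟩ h3
      exact ⟨n, by omega, h4⟩
    · obtain ⟨n, hn, h4⟩ := steps_gap hp.good hfar ⟨_, h2, rfl⟩ h3.symm
      exact ⟨n, by omega, h4⟩

/-- Chains to the given labels. -/
theorem steps_rch {K : ℕ} {gs : List (ℕ × ℕ)} (hp : Fam p G)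
    (hfar : ∀ j, j ≠ i → FarS G (K + 1) (p i).Vert (p j).Vert) (hG : Gaps G (p i) K gs)
    {S0 : List ℕ} (n : ℕ) : ∀ a ∈ rch (p i).R (p i).ps gs S0 n, ∃ b ∈ S0, ∃ k,
      k ≤ n * (K + 1) ∧ Steps (nbN G (FI p) (FP p)) k ((p i).f a) ((p i).f b) := by
  induction n with
  | zero => exact fun a ha => ⟨a, ha, 0, by omega, Steps.refl _⟩
  | succ n ih =>
    intro a ha
    unfold rch at ha
    rw [List.mem_append] at ha
    rcases ha with ha | ha
    · obtain ⟨b, hb, k, hk, h⟩ := ih a ha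
      refine ⟨b, hb, k, hk.trans ?_, h⟩
      rw [Nat.succ_mul]
      omega
    · rw [List.mem_filter, Bool.and_eq_true, List.any_eq_true] at ha
      obtain ⟨-, -, c, hc, hlk⟩ := ha
      obtain ⟨b, hb, k, hk, h⟩ := ih c hc
      obtain ⟨l, hl, h2⟩ := steps_lk hp hfar hG hlk
      refine ⟨b, hb, l + k, ?_, h2.trans h⟩
      rw [Nat.succ_mul]
      omega

/-- A deleted edge is near to the reached labels. -/
theorem near_rch {K : ℕ} {gs : List (ℕ × ℕ)} (hp : Fam p G)
    (hfar : ∀ j, j ≠ i → FarS G (K + 1) (p i).Vert (p j).Vert) (hm : (p i).miss = [])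
    (hG : Gaps G (p i) K gs) {a : ℕ}
    (ha : a ∈ rch (p i).R (p i).ps gs ((List.range ((p i).R.t + (p i).R.m)).filter fun a =>
      delB (p i).R (p i).ps (p i).co a) 10) :
    NearG G (FI p) (FP p) (10 * (K + 1)) ((p i).f a) := by
  obtain ⟨b, hb, k, hk, h⟩ := steps_rch hp hfar hG 10 a ha
  rw [List.mem_filter] at hb
  obtain ⟨-, w, hw⟩ := del_of hp hm hb.2
  exact ⟨k, hk, _, w, hw, h⟩

/-- **A deleted edge is near to the vertices near a good place.** -/
theorem near_good {K n : ℕ} {gs : List (ℕ × ℕ)} (hp : Fam p G)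
    (hfar : ∀ j, j ≠ i → FarS G (K + 1) (p i).Vert (p j).Vert) (hm : (p i).miss = [])
    (hG : Gaps G (p i) K gs) (h : goodB (p i).R (p i).nl (p i).ps (p i).co gs = true) {v t : V}
    (ht : t ∈ (p i).Vert) (ht' : ¬ FI p t) (hs : Steps (nbN G (FI p) (FP p)) n v t) :
    NearG G (FI p) (FP p) (n + 10 * (K + 1)) v := by
  refine NearG.steps ?_ hs
  obtain ⟨j, ⟨hj1, hj2, hj3⟩, rfl⟩ := ht
  unfold goodB at h
  simp only [Bool.and_eq_true, List.all_eq_true, Bool.or_eq_true, Bool.not_eq_true',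
    decide_eq_false_iff_not, List.elem_eq_mem, decide_eq_true_eq] at h
  have hjt : j < (p i).R.t := by
    by_contra hcon
    exact ht' ⟨i, j, by omega, hj1, rfl⟩
  have h1 := (h.1 j (List.mem_range.2 hjt)).resolve_left (fun h2 => h2 hj3)
  exact near_rch hp hfar hm hG h1

/-- **A deleted edge is near to the interior vertices of a good place** which are not inner vertices
of a path. -/
theorem near_goodI {K : ℕ} {gs : List (ℕ × ℕ)} (hp : Fam p G)
    (hfar : ∀ j, j ≠ i → FarS G (K + 1) (p i).Vert (p j).Vert) (hm : (p i).miss = [])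
    (hG : Gaps G (p i) K gs) (h : goodB (p i).R (p i).nl (p i).ps (p i).co gs = true) {v : V}
    (hv : Int (p i).R (p i).f v) (hinn : ¬ Inn (FP p) v) :
    NearG G (FI p) (FP p) (10 * (K + 1)) v := by
  obtain ⟨a, ha1, ha2, rfl⟩ := hv
  unfold goodB at h
  simp only [Bool.and_eq_true, List.all_eq_true, Bool.or_eq_true, Bool.not_eq_true',
    decide_eq_false_iff_not, List.elem_eq_mem, decide_eq_true_eq, List.any_eq_true] at h
  have h1 := h.2 (a - (p i).R.t) (List.mem_range.2 (by omega))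
  rw [show (p i).R.t + (a - (p i).R.t) = a by omega] at h1
  rcases h1 with ⟨q, hq, h1⟩ | h1
  · exfalso
    refine hinn ⟨((p i).f q.1, q.2.1.map (p i).f, (p i).f q.2.2), mem_FP.2 ⟨i, ?_⟩, ?_⟩
    · unfold Place.pth
      exact List.mem_map.2 ⟨q, hq, rfl⟩
    · exact List.mem_map.2 ⟨a, h1, rfl⟩
  · exact near_rch hp hfar hm hG h1

/-- **All terminals of a place are joined in the new graph.** -/
theorem steps_conn {K : ℕ} {gs : List (ℕ × ℕ)} (hp : Fam p G)
    (hfar : ∀ j, j ≠ i → FarS G (K + 1) (p i).Vert (p j).Vert)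
    (hG : Gaps G (p i) K gs) (h : connT (p i).R (p i).nl (p i).ps gs = true) {t t' : V}
    (ht : t ∈ (p i).Vert) (ht' : t' ∈ (p i).Vert) (hn : ¬ FI p t) (hn' : ¬ FI p t') :
    ∃ n, n ≤ 20 * (K + 1) ∧ Steps (nbN G (FI p) (FP p)) n t t' := by
  unfold connT at h
  simp only [Bool.and_eq_true, List.all_eq_true, Bool.or_eq_true, Bool.not_eq_true',
    decide_eq_false_iff_not, List.elem_eq_mem, decide_eq_true_eq] at h
  have key : ∀ t ∈ (p i).Vert, ¬ FI p t → ∃ n, n ≤ 10 * (K + 1) ∧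
      Steps (nbN G (FI p) (FP p)) n t ((p i).f 0) := by
    rintro t ⟨j, ⟨hj1, hj2, hj3⟩, rfl⟩ hn
    have hjt : j < (p i).R.t := by
      by_contra hcon
      exact hn ⟨i, j, by omega, hj1, rfl⟩
    have h1 := (h.1 j (List.mem_range.2 hjt)).resolve_left (fun h2 => h2 hj3)
    obtain ⟨b, hb, k, hk, h3⟩ := steps_rch hp hfar hG 10 j h1
    rw [List.mem_singleton] at hb
    subst hb
    exact ⟨k, hk, h3⟩
  obtain ⟨k, hk, h1⟩ := key t ht hn
  obtain ⟨l, hl, h2⟩ := key t' ht' hn'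
  exact ⟨k + l, by omega, h1.trans (h2.rev nbN_symm)⟩

/-! ## The categories -/

/-- A good place with a gain vertex: a deleted edge is near to all its vertices. -/
def CatB (G : SimpleGraph V) (K : ℕ) (q : Place V) : Prop :=
  Good q G ∧ q.miss = [] ∧ ∃ gs, Gaps G q K gs ∧ goodB q.R q.nl q.ps q.co gs = true

/-- A good place all whose terminals are joined. -/
def CatC (G : SimpleGraph V) (K : ℕ) (q : Place V) : Prop :=
  Good q G ∧ q.miss = [] ∧ ∃ gs, Gaps G q K gs ∧ connT q.R q.nl q.ps gs = true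

theorem CatB.near {K D1 D : ℕ} (hp : Fam p G)
    (hfar : ∀ j, j ≠ i → FarS G (K + 1) (p i).Vert (p j).Vert) (h : CatB G K (p i))
    (hD : D1 + 10 * (K + 1) ≤ D) (v : V) (t : V) (ht : t ∈ (p i).Vert) (ht' : ¬ FI p t) (n : ℕ)
    (hn : n ≤ D1) (hs : Steps (nbN G (FI p) (FP p)) n v t) : NearG G (FI p) (FP p) D v := by
  obtain ⟨-, hm, gs, hG, h1⟩ := h
  exact NearG.mono (near_good hp hfar hm hG h1 ht ht' hs) (by omega)

theorem CatB.nearI {K D : ℕ} (hp : Fam p G)
    (hfar : ∀ j, j ≠ i → FarS G (K + 1) (p i).Vert (p j).Vert) (h : CatB G K (p i))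
    (hD : 10 * (K + 1) ≤ D) (v : V) (hv : Int (p i).R (p i).f v) (hinn : ¬ Inn (FP p) v) :
    NearG G (FI p) (FP p) D v := by
  obtain ⟨-, hm, gs, hG, h1⟩ := h
  exact NearG.mono (near_goodI hp hfar hm hG h1 hv hinn) hD

theorem CatC.steps {K : ℕ} (hp : Fam p G)
    (hfar : ∀ j, j ≠ i → FarS G (K + 1) (p i).Vert (p j).Vert) (h : CatC G K (p i)) (t : V)
    (ht : t ∈ (p i).Vert) (t' : V) (ht' : t' ∈ (p i).Vert) (hn : ¬ FI p t) (hn' : ¬ FI p t') :
    ∃ n, n ≤ 20 * (K + 1) ∧ Steps (nbN G (FI p) (FP p)) n t t' := by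
  obtain ⟨-, hm, gs, hG, h1⟩ := h
  exact steps_conn hp hfar hG h1 ht ht' hn hn'

end

end Pool.Agent.RingB
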