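import Mathlib
import Pool.Agent.Work.MP_392c8e_co_uni.RingB
import Pool.Agent.Work.MP_392c8e_co_uni.SingleP

/-!
# Single places with long outer faces

The statements for the new graph of one place.
-/

namespace Pool.Agent.RingB

open Finset Pool.Agent.Sub392 Pool.Agent.T392 Pool.Agent.Disch392 Pool.Agent.Uni392
  Pool.Agent.U2Geo Pool.Agent.Ring392 Pool.Agent.Once392
open Pool.Agent.Uni91 (Good Fam FI FP GainP JoinP)
open Pool.Agent.T1Red (Red Int Same Real Old)

set_option linter.unusedSectionVars false

variable {V : Type} [Fintype V] [DecidableEq V] {G : SimpleGraph V} [DecidableRel G.Adj]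
  {q : Place V} {K : ℕ} {gs : List (ℕ × ℕ)}

theorem FI_unit (q : Place V) : FI (fun _ : Unit => q) = Int q.R q.f := by
  funext v
  exact propext ⟨fun ⟨_, h⟩ => h, fun h => ⟨(), h⟩⟩

theorem FP_unit (q : Place V) : FP (fun _ : Unit => q) = q.pth := by
  unfold FP
  rw [Finset.univ_unique, Finset.toList_singleton, List.flatMap_cons, List.flatMap_nil,
    List.append_nil]

theorem fam_unit (hg : Good q G) : Fam (fun _ : Unit => q) G :=
  ⟨fun _ => hg, fun _ _ h => absurd rfl h⟩

/-- Every interior label is an inner vertex of a path or has a deleted edge. -/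
def intZ (R : Red) (ps : List (ℕ × List ℕ × ℕ)) (co : List (ℕ × ℕ)) : Bool :=
  (List.range R.m).all fun i => (ps.any fun q => q.2.1.elem (R.t + i)) || delB R ps co (R.t + i)

/-- **A good place has a gain.** -/
theorem gainP_of (hg : Good q G) (hm : q.miss = []) (hG : Gaps G q K gs)
    (h : goodB q.R q.nl q.ps q.co gs = true) : GainP G q (10 * (K + 1)) := by
  have hp := fam_unit hg
  have hfar : ∀ j : Unit, j ≠ () → FarS G (K + 1) q.Vert q.Vert := fun j hj => absurd rfl hj
  refine ⟨fun t ht ht' => ?_, fun v hv _ hinn => ?_⟩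
  · have h1 := near_good (p := fun _ : Unit => q) (i := ()) hp hfar hm hG h ht (by
      rw [FI_unit]
      exact ht') (Steps.refl t)
    rw [FI_unit, FP_unit, Nat.zero_add] at h1
    exact h1
  · have h1 := near_goodI (p := fun _ : Unit => q) (i := ()) hp hfar hm hG h hv (by
      rw [FP_unit]
      exact hinn)
    rw [FI_unit, FP_unit] at h1
    exact h1

/-- **A place all whose terminals are joined.** -/
theorem joinP_of (hg : Good q G) (hm : q.miss = []) (hG : Gaps G q K gs)
    (h : connT q.R q.nl q.ps gs = true) (h' : intZ q.R q.ps q.co = true) :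
    JoinP G q (20 * (K + 1)) := by
  have hp := fam_unit hg
  have hfar : ∀ j : Unit, j ≠ () → FarS G (K + 1) q.Vert q.Vert := fun j hj => absurd rfl hj
  refine ⟨fun t ht t' ht' hn hn' => ?_, ?_⟩
  · have h1 := steps_conn (p := fun _ : Unit => q) (i := ()) hp hfar hG h ht ht' (by
      rw [FI_unit]
      exact hn) (by
      rw [FI_unit]
      exact hn')
    rw [FI_unit, FP_unit] at h1
    exact h1
  · rintro v ⟨a, ha1, ha2, rfl⟩
    unfold intZ at h'
    rw [List.all_eq_true] at h'
    have h1 := h' (a - q.R.t) (List.mem_range.2 (by omega))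
    rw [show q.R.t + (a - q.R.t) = a by omega] at h1
    simp only [Bool.or_eq_true, List.any_eq_true, List.elem_eq_mem, decide_eq_true_eq] at h1
    rcases h1 with ⟨s, hs, h1⟩ | h1
    · left
      refine ⟨(q.f s.1, s.2.1.map q.f, q.f s.2.2), ?_, ?_⟩
      · unfold Place.pth
        exact List.mem_map.2 ⟨s, hs, rfl⟩
      · exact List.mem_map.2 ⟨a, h1, rfl⟩
    · right
      obtain ⟨-, w, hw⟩ := del_of (p := fun _ : Unit => q) (i := ()) hp hm h1
      rw [FI_unit, FP_unit] at hw
      exact ⟨w, hw⟩

/-- The categories of `RingB`. -/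
theorem CatB.gainP (h : CatB G K q) : GainP G q (10 * (K + 1)) := by
  obtain ⟨hg, hm, gs, hG, h1⟩ := h
  exact gainP_of hg hm hG h1

end Pool.Agent.RingB
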