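import Mathlib
import Pool.Agent.Work.MP_392c8e_co_uni.RingBP

/-!
# Patches in cyclically 4-edge-connected graphs

At most one outer face comes back to a patch with at most eleven leaving darts in two gaps.  Then
the leaving darts form two orbits; the values of a potential distinguish them.
-/

namespace Pool.Agent.RingTwo

open Finset Pool.Agent.Sub392 Pool.Agent.T392 Pool.Agent.Disch392 Pool.Agent.Uni392
  Pool.Agent.U2Geo Pool.Agent.Ring392 Pool.Agent.Once392 Pool.Agent.RingB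
open Pool.Agent.Uni91 (Good)
open Pool.Agent.T1Red (Red Int Same Real Old)

set_option linter.unusedSectionVars false

variable {V : Type} [Fintype V] [DecidableEq V] {G : SimpleGraph V} [DecidableRel G.Adj]

/-- A plane cubic graph whose cuts with at most three edges, one of them at the set `U`, are
trivial. -/
structure Cut3 (R : Rot G) (U : V → Prop) : Prop where
  cub : ∀ v, G.degree v = 3
  plane : R.Plane
  cut : ∀ A : Finset V, out G A ≤ 3 →
    (∃ d : G.Dart, d.fst ∈ A ∧ d.snd ∉ A ∧ (U d.fst ∨ U d.snd)) → #A ≤ 1 ∨ #Aᶜ ≤ 1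

variable {R : Rot G} {U : V → Prop}

/-- The set is joined and no vertex outside has only neighbours inside. -/
structure Disc (G : SimpleGraph V) (U : V → Prop) : Prop where
  conn : ∀ g : V → ℚ, (∀ u v, U u → U v → G.Adj u v → g u = g v) → ∀ u v, U u → U v → g u = g v
  two : ∃ u v, u ≠ v ∧ U u ∧ U v
  out : ∀ v, ¬ U v → ∃ w, G.Adj v w ∧ ¬ U w

open Classical in
/-- **Every orbit has at least four darts.** -/
theorem orb_ge (hC : Cut3 R U) (hU : Disc G U) (e : {d : G.Dart // Ex U d}) :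
    4 ≤ #{d : G.Dart | Orb R U e d} := by
  by_contra hcon
  obtain ⟨K, h1, h2, h3⟩ := orb_cut R hC.plane hU.conn e
  have h4 := orb_out R h1 h2 h3
  have hu : e.1.snd ∈ K := h3 _ ⟨e.2, Equiv.Perm.SameCycle.refl _ _⟩
  rcases hC.cut K (by omega) ⟨e.1.symm, hu, fun h => h1 _ h e.2.1, Or.inr e.2.1⟩ with h5 | h5
  · obtain ⟨w, hw, hw'⟩ := hU.out _ e.2.2
    have hwK : w ∈ K := by
      by_contra hcon'
      exact hw' (h2 ⟨(w, e.1.snd), hw.symm⟩ hcon' hu).1.1
    have := Finset.card_le_one.1 h5 _ hu _ hwK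
    exact hw.ne this
  · obtain ⟨u, v, huv, hu, hv⟩ := hU.two
    refine huv (Finset.card_le_one.1 h5 u ?_ v ?_)
    · rw [mem_compl]
      exact fun h => h1 _ h hu
    · rw [mem_compl]
      exact fun h => h1 _ h hv

/-- A function which is constant along the edges outside is constant on walks outside. -/
theorem const_walk {α : Type} {c : V → α}
    (hc : ∀ u v, G.Adj u v → ¬ U u → ¬ U v → c u = c v) : ∀ x y (w : G.Walk x y),
    (∀ z ∈ w.support, ¬ U z) → c x = c y := by
  intro x y w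
  induction w with
  | nil => exact fun _ => rfl
  | @cons a b d hab w ih =>
    intro hw
    have h1 := hc a b hab (hw a (by simp)) (hw b (by
      rw [SimpleGraph.Walk.support_cons]
      exact List.mem_cons_of_mem _ w.start_mem_support))
    rw [h1]
    exact ih fun z hz => hw z (by
      rw [SimpleGraph.Walk.support_cons]
      exact List.mem_cons_of_mem _ hz)

/-- Such a function is constant on the orbits. -/
theorem const_same {α : Type} {c : V → α}
    (hc : ∀ u v, G.Adj u v → ¬ U u → ¬ U v → c u = c v) {e e' : {d : G.Dart // Ex U d}}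
    (h : (ring R U).SameCycle e e') : c e.1.snd = c e'.1.snd := by
  classical
  obtain ⟨w, -, hw⟩ := ring_walk R (L := Fintype.card G.Dart) (k := Fintype.card G.Dart)
    (fun d => by
      unfold sz Rot.size
      exact card_le_univ _) (card_le_univ _) h
  exact const_walk hc _ _ w hw

theorem const_ring1 {α : Type} {c : V → α}
    (hc : ∀ u v, G.Adj u v → ¬ U u → ¬ U v → c u = c v) (e : {d : G.Dart // Ex U d}) :
    c (ring R U e).1.snd = c e.1.snd :=
  (const_same hc (Equiv.Perm.sameCycle_apply_right.2 (Equiv.Perm.SameCycle.refl _ e))).symm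

variable {f : ℕ → V} {N : List (ℕ × ℕ × ℕ × ℕ)} {r : ℕ × ℕ} {D : List Gp}

/-- Leaving darts have labels. -/
theorem ex_lab (h : Lab R U f N) (hC : Cut3 R U) {d : G.Dart} (hd : Ex U d) :
    ∃ e ∈ N, ∃ c ∈ [e.2.1, e.2.2.1, e.2.2.2], c ∉ ins N ∧ Dt f (e.1, c) d := by
  obtain ⟨i, hi, hfi⟩ := (h.mem _).1 hd.1
  unfold ins at hi
  rw [List.mem_map] at hi
  obtain ⟨e, he, rfl⟩ := hi
  obtain ⟨x, x1, x2, x3, x4, x5⟩ := h.rot e he
  have h1 := (Pool.Agent.T1FF.nbr3 R (d := x) (hC.cub _)).2 d.snd (by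
    rw [x1, hfi]
    exact d.adj)
  rw [x2, x3, x4] at h1
  have key : ∀ c, f c = d.snd → c ∉ ins N := fun c hc hc' => hd.2 (hc ▸ h.u_of hc')
  rcases h1 with h1 | h1 | h1
  · exact ⟨e, he, e.2.2.1, by simp, key _ h1.symm, hfi.symm, h1⟩
  · exact ⟨e, he, e.2.1, by simp, key _ h1.symm, hfi.symm, h1⟩
  · exact ⟨e, he, e.2.2.2, by simp, key _ h1.symm, hfi.symm, h1⟩

/-- The conditions on the single gaps. -/
def gpw (N : List (ℕ × ℕ × ℕ × ℕ)) (r : ℕ × ℕ) (D : List Gp) : Bool :=
  nbr N r && (D.all fun g => gp1 N r g) &&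
    N.all fun e => [e.2.1, e.2.2.1, e.2.2.2].all fun c =>
      (ins N).contains c || D.any fun g => g.a == (e.1, c)

/-- The gaps follow one another. -/
def chn (D : List Gp) : Bool := (D.zip D.tail).all fun q => q.1.b == q.2.a

theorem gpw_of (hc : gps N r D = true) : gpw N r D = true := by
  unfold gps at hc
  unfold gpw
  simp only [Bool.and_eq_true, List.all_eq_true] at hc ⊢
  exact ⟨⟨hc.1.1.1, fun g hg => (hc.1.1.2 g hg).1⟩, hc.1.2⟩

theorem chn_of (hc : gps N r D = true) : chn D = true := by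
  unfold gps at hc
  simp only [Bool.and_eq_true] at hc
  exact hc.2

theorem ex_gp (h : Lab R U f N) (hC : Cut3 R U) (hc : gpw N r D = true) {d : G.Dart}
    (hd : Ex U d) : ∃ g ∈ D, Dt f g.a d := by
  obtain ⟨e, he, c, hc1, hc2, hdt⟩ := ex_lab h hC hd
  unfold gpw at hc
  simp only [Bool.and_eq_true] at hc
  have h1 := List.all_eq_true.1 hc.2 e he
  have h2 := List.all_eq_true.1 h1 c hc1
  rw [Bool.or_eq_true] at h2
  rcases h2 with h2 | h2
  · exact absurd (by simpa using h2) hc2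
  · rw [List.any_eq_true] at h2
    obtain ⟨g, hg, h3⟩ := h2
    rw [beq_iff_eq] at h3
    exact ⟨g, hg, h3 ▸ hdt⟩

/-- The data of one gap. -/
structure GpOk (R : Rot G) (U : V → Prop) (f : ℕ → V) (N : List (ℕ × ℕ × ℕ × ℕ)) (r : ℕ × ℕ)
    (g : Gp) : Prop where
  cn : cnL N g.a.swap g.B g.b = true
  fw : fwL N g.a.swap g.s r = true
  na : nbr N g.a = true
  nb : nbr N g.b = true
  ia : g.a.2 ∉ ins N
  ib : g.b.2 ∉ ins N
  iB : (g.B.all fun q => nbr N q && (ins N).contains q.1 && (ins N).contains q.2) = true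
  is : (g.s.all fun q => nbr N q && (ins N).contains q.1 && (ins N).contains q.2) = true

theorem gpOk (hc : gpw N r D = true) {g : Gp} (hg : g ∈ D) : GpOk R U f N r g := by
  unfold gpw at hc
  simp only [Bool.and_eq_true] at hc
  have e1 := List.all_eq_true.1 hc.1.2 g hg
  unfold gp1 at e1
  simp only [Bool.and_eq_true, Bool.not_eq_true'] at e1
  obtain ⟨⟨⟨⟨⟨⟨⟨c1, c2⟩, c3⟩, c4⟩, c5⟩, c6⟩, c7⟩, c8⟩ := e1
  exact ⟨c1, c2, c3, c4, by simpa using c5, by simpa using c6, c7, c8⟩

theorem gp_two (hc : gps N r D = true) {g g' : Gp} (hg : g ∈ D) (hg' : g' ∈ D)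
    (hne : g.a ≠ g'.a) : (g.B.map fun q => dif g.s q - dif g'.s q).sum ≠ 0 := by
  unfold gps at hc
  simp only [Bool.and_eq_true] at hc
  obtain ⟨⟨⟨hr, hall⟩, -⟩, -⟩ := hc
  have h1 := List.all_eq_true.1 hall g hg
  rw [Bool.and_eq_true, List.all_eq_true] at h1
  have h2 := h1.2 g' hg'
  unfold gp2 at h2
  rw [Bool.or_eq_true, beq_iff_eq, bne_iff_ne] at h2
  exact h2.resolve_left hne

/-- The change of the potential of two gaps at a gap. -/
def dl (g h e : Gp) : ℤ := (e.B.map fun q => dif g.s q - dif h.s q).sum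

/-- The values of the potential of two gaps at the leaving darts. -/
def vl (g h : Gp) : ℤ → List Gp → List ℤ
  | _, [] => []
  | z, e :: l => z :: vl g h (z + dl g h e) l

theorem sum_cast (l : List ℤ) : (l.map fun z : ℤ => (z : ℚ)).sum = ((l.sum : ℤ) : ℚ) := by
  induction l with
  | nil => simp
  | cons z l ih => rw [List.map_cons, List.sum_cons, List.sum_cons, ih]; push_cast; rfl

/-- The change of a potential at a gap. -/
theorem pot_gap (h : Lab R U f N) {d0 : G.Dart} {g g' e : Gp} (hg : GpOk R U f N r g)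
    (hg' : GpOk R U f N r g') (he : GpOk R U f N r e) {p : V → ℚ}
    (hp : ∀ d : G.Dart, cnt (g.s.map (dk f d0) ++ (g'.s.map (dk f d0)).map SimpleGraph.Dart.symm) d =
      p d.snd - p d.fst) : p (f e.b.2) = p (f e.a.2) + (dl g g' e : ℚ) := by
  have hsU := h.ins_dk (d0 := d0) hg.is
  have hsU' := h.ins_dk (d0 := d0) hg'.is
  have hU := hsU.append_symm hsU'
  have ha := dk_dt (d0 := d0) (nbr_adj h.rot he.na)
  have hb := dk_dt (d0 := d0) (nbr_adj h.rot he.nb)
  have hxa := h.ex_of he.na he.ia ha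
  have hxb := h.ex_of he.nb he.ib hb
  have hCn : Cn R (dk f d0 e.a).symm (e.B.map (dk f d0)) (dk f d0 e.b) :=
    cnL_ok h.rot ha.swap hb he.cn
  have h3 := hCn.sum p
  have h2 : ∀ d : G.Dart, Ex U d → p d.snd = p d.fst := by
    intro d hd
    have := hp d
    rw [hU.cnt_zero (Or.inr hd.2)] at this
    linarith
  have h4 : ((e.B.map (dk f d0)).map fun d => p d.snd - p d.fst) =
      (e.B.map fun q => dif g.s q - dif g'.s q).map fun z : ℤ => (z : ℚ) := by
    rw [List.map_map, List.map_map]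
    refine List.map_congr_left fun q hq => ?_
    have hq' := List.all_eq_true.1 he.iB q hq
    show p (dk f d0 q).snd - p (dk f d0 q).fst = ((dif g.s q - dif g'.s q : ℤ) : ℚ)
    rw [← hp, cnt_append_symm, h.cnt_dk hg.is hq', h.cnt_dk hg'.is hq']
    push_cast
    rfl
  rw [h4, sum_cast] at h3
  have e1 : p (dk f d0 e.b).fst = p (f e.b.2) := by rw [← h2 _ hxb, hb.2]
  have e2 : p (dk f d0 e.a).symm.snd = p (f e.a.2) := by
    show p (dk f d0 e.a).fst = _
    rw [← h2 _ hxa, ha.2]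
  rw [e1, e2] at h3
  unfold dl
  linarith

/-- The values of the potential along a chain of gaps. -/
theorem vl_map {g g' : Gp} {p : V → ℚ} : ∀ (l : List Gp),
    (∀ e ∈ l, p (f e.b.2) = p (f e.a.2) + (dl g g' e : ℚ)) →
    ((l.zip l.tail).all fun q => q.1.b == q.2.a) = true → ∀ (z : ℤ) (C : ℚ),
    (∀ e ∈ l.head?, p (f e.a.2) = C + z) →
    l.map (fun e => p (f e.a.2)) = (vl g g' z l).map fun x : ℤ => C + (x : ℚ) := by
  intro l
  induction l with
  | nil => exact fun _ _ _ _ _ => rfl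
  | cons e l ih =>
    intro h1 h2 z C h3
    have h4 := h3 e (by simp)
    have h5 := h1 e List.mem_cons_self
    unfold vl
    rw [List.map_cons, List.map_cons, h4]
    congr 1
    refine ih (fun x hx => h1 x (List.mem_cons_of_mem _ hx)) ?_ _ _ ?_
    · cases l with
      | nil => rfl
      | cons e' l =>
        rw [List.tail_cons, List.zip_cons_cons, List.all_cons, Bool.and_eq_true] at h2
        exact h2.2
    · intro x hx
      cases l with
      | nil => simp at hx
      | cons e' l =>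
        rw [List.tail_cons, List.zip_cons_cons, List.all_cons, Bool.and_eq_true, beq_iff_eq] at h2
        obtain rfl : e' = x := by simpa using hx
        rw [← h2.1, h5, h4]
        push_cast
        ring

/-- **At most three crossed edges inside the set do not separate the outside.** -/
theorem const_out3 (hC : Cut3 R U) {l : List G.Dart} (hl : l.length ≤ 3) (hU : Ins U l)
    {p : V → ℚ}
    (hp : ∀ d : G.Dart, cnt l d = p d.snd - p d.fst) {x y : V} (hx : ¬ U x) (hy : ¬ U y) :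
    p x = p y := by
  classical
  -- four vertices with the same value
  have key : ∀ x, ¬ U x → ∃ S : Finset V, #S = 4 ∧ ∀ v ∈ S, p v = p x := by
    intro x hx
    refine ⟨insert x (G.neighborFinset x), ?_, ?_⟩
    · rw [card_insert_of_notMem (by simp), SimpleGraph.card_neighborFinset_eq_degree, hC.cub]
    · intro v hv
      rw [mem_insert, SimpleGraph.mem_neighborFinset] at hv
      rcases hv with rfl | hv
      · rfl
      · have h1 := hp ⟨(x, v), hv⟩
        rw [hU.cnt_zero (Or.inl hx)] at h1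
        simp only at h1
        linarith
  have main : ∀ x y, ¬ U x → ¬ U y → ¬ p x < p y := by
    intro x y hx hy hlt
    obtain ⟨S, hS, hS'⟩ := key x hx
    obtain ⟨T, hT, hT'⟩ := key y hy
    set A : Finset V := univ.filter fun v => p v ≤ p x with hA
    have h1 : out G A ≤ 3 := by
      refine le_trans ?_ hl
      refine le_trans ?_ (List.toFinset_card_le l)
      unfold out
      refine card_le_card fun d hd => ?_
      simp only [hA, mem_filter, mem_univ, true_and, not_le] at hd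
      rw [List.mem_toFinset]
      by_contra hcon
      have h2 := hp d
      unfold cnt at h2
      rw [List.count_eq_zero_of_not_mem hcon] at h2
      have h3 : (0 : ℚ) ≤ l.count d.symm := Nat.cast_nonneg _
      push_cast at h2
      linarith [hd.1, hd.2]
    have h2 : S ⊆ A := by
      intro v hv
      rw [hA, mem_filter]
      exact ⟨mem_univ _, (hS' v hv).le⟩
    have h3 : T ⊆ Aᶜ := by
      intro v hv
      rw [mem_compl, hA, mem_filter]
      rintro ⟨-, h4⟩
      rw [hT' v hv] at h4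
      linarith
    have h4 := card_le_card h2
    have h5 := card_le_card h3
    obtain ⟨d, hd1, hd2⟩ : ∃ d : G.Dart, d.fst ∈ A ∧ d.snd ∉ A := by
      by_contra hcon
      push Not at hcon
      obtain ⟨w⟩ := hC.plane.1.preconnected x y
      have h7 : ∀ a b (w : G.Walk a b), a ∈ A → b ∈ A := by
        intro a b w
        induction w with
        | nil => exact fun h => h
        | cons hab _ ih => exact fun h => ih (hcon ⟨(_, _), hab⟩ h)
      have h8 := h7 x y w (by rw [hA, mem_filter]; exact ⟨mem_univ _, le_rfl⟩)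
      rw [hA, mem_filter] at h8
      linarith [h8.2]
    have hdl : d ∈ l := by
      by_contra hcon
      have h2 := hp d
      unfold cnt at h2
      rw [List.count_eq_zero_of_not_mem hcon] at h2
      have h3 : (0 : ℚ) ≤ l.count d.symm := Nat.cast_nonneg _
      rw [hA, mem_filter] at hd1 hd2
      push_cast at h2
      have h9 : ¬ p d.snd ≤ p x := fun h => hd2 ⟨mem_univ _, h⟩
      linarith [hd1.2]
    rcases hC.cut A h1 ⟨d, hd1, hd2, Or.inl (hU d hdl).1⟩ with h6 | h6 <;> omega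
  rcases lt_trichotomy (p x) (p y) with h | h | h
  · exact absurd h (main x y hx hy)
  · exact h
  · exact absurd h (main y x hy hx)

/-- The potential of two gaps in one face. -/
structure Pot (G : SimpleGraph V) (U : V → Prop) (f : ℕ → V) (D : List Gp) (g h : Gp)
    (p : V → ℚ) : Prop where
  out : ∀ u v, G.Adj u v → (¬ U u ∨ ¬ U v) → p u = p v
  gap : ∀ e ∈ D, p (f e.b.2) = p (f e.a.2) + (dl g h e : ℚ)
  three : g.s.length + h.s.length ≤ 3 → ∀ x y, ¬ U x → ¬ U y → p x = p y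

/-- **Two gaps in one face have a potential.** -/
theorem exists_Pot (h : Lab R U f N) (hC : Cut3 R U) (hc : gpw N r D = true) {g g' : Gp}
    (hg : g ∈ D) (hg' : g' ∈ D) {x y : G.Dart} (hx : Dt f g.a x) (hy : Dt f g'.a y)
    (hF : R.face x.symm = R.face y.symm) : ∃ p, Pot G U f D g g' p := by
  have o1 : GpOk R U f N r g := gpOk hc hg
  have o2 : GpOk R U f N r g' := gpOk hc hg'
  have hr : nbr N r = true := by
    unfold gpw at hc
    simp only [Bool.and_eq_true] at hc
    exact hc.1.1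
  have hrd := dk_dt (d0 := x) (nbr_adj h.rot hr)
  have w1 := fwL_ok h.rot (d0 := x) hx.swap hrd o1.fw
  have w2 := fwL_ok h.rot (d0 := x) hy.swap hrd o2.fw
  rw [← hF] at w2
  obtain ⟨p, hp⟩ := exists_pot R hC.plane w1 w2
  have hU := (h.ins_dk (d0 := x) o1.is).append_symm (h.ins_dk (d0 := x) o2.is)
  refine ⟨p, ?_, fun e he => pot_gap h o1 o2 (gpOk hc he) hp, ?_⟩
  · intro u v huv hUv
    have := hp ⟨(u, v), huv⟩
    rw [hU.cnt_zero hUv] at this
    simp only at this
    linarith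
  · intro hlen x y hx hy
    refine const_out3 hC ?_ hU hp hx hy
    rw [List.length_append, List.length_map, List.length_map, List.length_map]
    exact hlen

/-- The values at a chain of gaps. -/
theorem Pot.vals {g g' : Gp} {p : V → ℚ} (hp : Pot G U f D g g' p) {D' : List Gp}
    (hsub : ∀ e ∈ D', e ∈ D) (hz : chn D' = true) :
    ∃ C : ℚ, D'.map (fun e => p (f e.a.2)) = (vl g g' 0 D').map fun x : ℤ => C + (x : ℚ) := by
  refine ⟨(D'.head?.map fun e => p (f e.a.2)).getD 0,
    vl_map D' (fun e he => hp.gap e (hsub e he)) hz 0 _ ?_⟩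
  intro e he
  rw [Option.mem_def] at he
  rw [he]
  simp

/-- **Every value is taken at least four times.** -/
theorem countP_ge (h : Lab R U f N) (hC : Cut3 R U) (hU : Disc G U) (hc : gpw N r D = true)
    {α : Type} [DecidableEq α] (c : V → α) (hcc : ∀ u v, G.Adj u v → ¬ U u → ¬ U v → c u = c v)
    {g : Gp} (hg : g ∈ D) : 4 ≤ D.countP fun e => decide (c (f e.a.2) = c (f g.a.2)) := by
  have o : GpOk R U f N r g := gpOk hc hg
  have hadj := nbr_adj h.rot o.na
  set d0 : G.Dart := ⟨(f g.a.1, f g.a.2), hadj⟩ with hd0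
  have hdt : Dt f g.a d0 := ⟨rfl, rfl⟩
  have hex := h.ex_of o.na o.ia hdt
  have hge := orb_ge hC hU ⟨d0, hex⟩
  classical
  refine hge.trans ?_
  have h1 : (univ.filter fun d : G.Dart => Orb R U ⟨d0, hex⟩ d) ⊆
      ((D.filter fun e => decide (c (f e.a.2) = c (f g.a.2))).map fun e => dk f d0 e.a).toFinset := by
    intro d hd
    simp only [mem_filter, mem_univ, true_and] at hd
    obtain ⟨hd1, hd2⟩ := hd
    obtain ⟨e, he, hed⟩ := ex_gp h hC hc hd1
    rw [List.mem_toFinset, List.mem_map]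
    refine ⟨e, ?_, hed.dk⟩
    rw [List.mem_filter]
    refine ⟨he, ?_⟩
    rw [decide_eq_true_eq, ← hed.2]
    exact (const_same hcc hd2).symm
  refine (card_le_card h1).trans ((List.toFinset_card_le _).trans ?_)
  rw [List.length_map, ← List.countP_eq_length_filter]

theorem count_ge (h : Lab R U f N) (hC : Cut3 R U) (hU : Disc G U) (hc : gpw N r D = true)
    {α : Type} [DecidableEq α] (c : V → α) (hcc : ∀ u v, G.Adj u v → ¬ U u → ¬ U v → c u = c v)
    (z : α) (hz : z ∈ D.map fun e => c (f e.a.2)) :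
    4 ≤ (D.map fun e => c (f e.a.2)).count z := by
  rw [List.mem_map] at hz
  obtain ⟨g, hg, rfl⟩ := hz
  refine (countP_ge h hC hU hc c hcc hg).trans ?_
  rw [List.count, List.countP_map]
  refine le_of_eq (List.countP_congr fun e _ => ?_)
  simp

/-- Every entry occurs at least four times. -/
def many {α : Type} [DecidableEq α] (l : List α) : Bool := l.all fun z => Nat.ble 4 (l.count z)

/-- The pair is possible. -/
def okP (D : List Gp) (g h : Gp) : Bool :=
  Nat.ble 4 (g.s.length + h.s.length) && many (vl g h 0 D)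

theorem many_of {α β : Type} [DecidableEq α] [DecidableEq β] {l : List α} {l' : List β}
    {φ : α → β} (hφ : Function.Injective φ) (h : l' = l.map φ)
    (h4 : ∀ z ∈ l', 4 ≤ l'.count z) : many l = true := by
  unfold many
  rw [List.all_eq_true]
  intro z hz
  rw [Nat.ble_eq]
  have h5 := h4 (φ z) (by rw [h]; exact List.mem_map_of_mem hz)
  rwa [h, List.count_map_of_injective _ _ hφ] at h5

theorem ok_of (h : Lab R U f N) (hC : Cut3 R U) (hU : Disc G U) (hc : gps N r D = true)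
    {g g' : Gp} (hg : g ∈ D) (hg' : g' ∈ D) (hne : g.a ≠ g'.a) {p : V → ℚ}
    (hp : Pot G U f D g g' p) : okP D g g' = true := by
  obtain ⟨C, h3⟩ := hp.vals (fun e he => he) (chn_of hc)
  unfold okP
  rw [Bool.and_eq_true, Nat.ble_eq]
  constructor
  · by_contra hcon
    have o : GpOk R U f N r g := gpOk (gpw_of hc) hg
    have e1 := hp.three (by omega) (f g.b.2) (f g.a.2) (h.not_u (lbs_of_nbr o.nb).2 o.ib)
      (h.not_u (lbs_of_nbr o.na).2 o.ia)
    have e2 := hp.gap g hg
    have h6 : (dl g g' g : ℚ) = 0 := by linarith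
    have h7 : dl g g' g = 0 := by exact_mod_cast h6
    exact gp_two hc hg hg' hne h7
  · refine many_of (φ := fun x : ℤ => C + (x : ℚ)) ?_ h3 fun z hz => ?_
    · intro x y hxy
      have : (x : ℚ) = y := by simpa using hxy
      exact_mod_cast this
    · exact count_ge h hC hU (gpw_of hc) p
        (fun u v huv hu _ => hp.out u v huv (Or.inl hu)) z hz

theorem okk_of (h : Lab R U f N) (hC : Cut3 R U) (hU : Disc G U) (hc : gps N r D = true)
    {g g' k k' : Gp} {p p' : V → ℚ} (hp : Pot G U f D g g' p) (hp' : Pot G U f D k k' p') :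
    many ((vl g g' 0 D).zip (vl k k' 0 D)) = true := by
  obtain ⟨C, h3⟩ := hp.vals (fun e he => he) (chn_of hc)
  obtain ⟨C', h3'⟩ := hp'.vals (fun e he => he) (chn_of hc)
  have e : (D.map fun e => (p (f e.a.2), p' (f e.a.2))) =
      ((vl g g' 0 D).zip (vl k k' 0 D)).map fun x : ℤ × ℤ => (C + (x.1 : ℚ), C' + (x.2 : ℚ)) := by
    have e1 : (D.map fun e => (p (f e.a.2), p' (f e.a.2))) =
        (D.map fun e => p (f e.a.2)).zip (D.map fun e => p' (f e.a.2)) := by
      rw [List.zip_map']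
    rw [e1, h3, h3', List.zip_map]
    rfl
  refine many_of (φ := fun x : ℤ × ℤ => (C + (x.1 : ℚ), C' + (x.2 : ℚ))) ?_ e fun z hz => ?_
  · rintro ⟨x, y⟩ ⟨x', y'⟩ hxy
    simp only [Prod.mk.injEq, add_right_inj, Int.cast_inj] at hxy
    rw [hxy.1, hxy.2]
  · exact count_ge h hC hU (gpw_of hc) (fun v => (p v, p' v)) (fun u v huv hu _ => by
      rw [hp.out u v huv (Or.inl hu), hp'.out u v huv (Or.inl hu)]) z hz

/-- The possible pairs. -/
def prs (D : List Gp) : List (Gp × Gp) :=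
  D.flatMap fun g => (D.filter fun h => g.a != h.a && okP D g h).map fun h => (g, h)

theorem mem_prs {g h : Gp} (hg : g ∈ D) (hh : h ∈ D) (hne : g.a ≠ h.a) (ho : okP D g h = true) :
    (g, h) ∈ prs D := by
  unfold prs
  rw [List.mem_flatMap]
  refine ⟨g, hg, ?_⟩
  rw [List.mem_map]
  refine ⟨h, ?_, rfl⟩
  rw [List.mem_filter, Bool.and_eq_true, bne_iff_ne]
  exact ⟨hh, hne, ho⟩

/-- **The check**: there is at most one pair of gaps in one face. -/
def chkC (D : List Gp) : Bool :=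
  let P := (prs D).map fun c => (c, vl c.1 c.2 0 D)
  P.all fun x => P.all fun y => (x.1.1.a == y.1.1.a && x.1.2.a == y.1.2.a) ||
    (x.1.1.a == y.1.2.a && x.1.2.a == y.1.1.a) || !many (x.2.zip y.2)

/-- No two gaps are in one face. -/
def NoPair (R : Rot G) (f : ℕ → V) (D : List Gp) : Prop :=
  ∀ g ∈ D, ∀ h ∈ D, ∀ x y : G.Dart, Dt f g.a x → Dt f h.a y → g.a ≠ h.a →
    R.face x.symm ≠ R.face y.symm

/-- The two gaps are in one face, and no other two gaps are. -/
structure OnePair (R : Rot G) (U : V → Prop) (f : ℕ → V) (D : List Gp) (g h : Gp) : Prop where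
  mg : g ∈ D
  mh : h ∈ D
  ne : g.a ≠ h.a
  ok : okP D g h = true
  face : ∀ x y : G.Dart, Dt f g.a x → Dt f h.a y → R.face x.symm = R.face y.symm
  uni : ∀ k ∈ D, ∀ k' ∈ D, ∀ x y : G.Dart, Dt f k.a x → Dt f k'.a y →
    R.face x.symm = R.face y.symm → k.a = k'.a ∨ (k.a = g.a ∧ k'.a = h.a) ∨
      (k.a = h.a ∧ k'.a = g.a)
  pot : ∃ p, Pot G U f D g h p

/-- **At most one pair.** -/
theorem no_or_one (h : Lab R U f N) (hC : Cut3 R U) (hU : Disc G U) (hc : gps N r D = true)
    (hk : chkC D = true) : NoPair R f D ∨ ∃ g h, OnePair R U f D g h := by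
  by_cases h1 : NoPair R f D
  · exact Or.inl h1
  · right
    unfold NoPair at h1
    push Not at h1
    obtain ⟨g, hg, g', hg', x, y, hx, hy, hne, hF⟩ := h1
    obtain ⟨p, hp⟩ := exists_Pot h hC (gpw_of hc) hg hg' hx hy hF
    have hok := ok_of h hC hU hc hg hg' hne hp
    refine ⟨g, g', hg, hg', hne, hok, ?_, ?_, p, hp⟩
    · intro x' y' hx' hy'
      rw [hx'.eq hx, hy'.eq hy]
      exact hF
    · intro k hk' k' hk'' x' y' hx' hy' hF'
      by_cases hkk : k.a = k'.a
      · exact Or.inl hkk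
      right
      obtain ⟨p', hp'⟩ := exists_Pot h hC (gpw_of hc) hk' hk'' hx' hy' hF'
      have hok' := ok_of h hC hU hc hk' hk'' hkk hp'
      have h4 := okk_of h hC hU hc hp hp'
      have m1 := mem_prs hg hg' hne hok
      have m2 := mem_prs hk' hk'' hkk hok'
      unfold chkC at hk
      have h5 := List.all_eq_true.1 (List.all_eq_true.1 hk _ (List.mem_map_of_mem m1)) _
        (List.mem_map_of_mem m2)
      simp only at h5
      rw [h4] at h5
      simp only [Bool.not_true, Bool.or_false, Bool.or_eq_true, Bool.and_eq_true,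
        beq_iff_eq] at h5
      rcases h5 with h5 | h5
      · exact Or.inl ⟨h5.1.symm, h5.2.symm⟩
      · exact Or.inr ⟨h5.2.symm, h5.1.symm⟩

theorem OnePair.symm {g h : Gp} (hl : Lab R U f N) (hC : Cut3 R U) (hU : Disc G U)
    (hc : gps N r D = true) (H : OnePair R U f D g h) : OnePair R U f D h g := by
  have o1 : GpOk R U f N r g := gpOk (gpw_of hc) H.mg
  have o2 : GpOk R U f N r h := gpOk (gpw_of hc) H.mh
  have hx : Dt f g.a (⟨(f g.a.1, f g.a.2), nbr_adj hl.rot o1.na⟩ : G.Dart) := ⟨rfl, rfl⟩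
  have hy : Dt f h.a (⟨(f h.a.1, f h.a.2), nbr_adj hl.rot o2.na⟩ : G.Dart) := ⟨rfl, rfl⟩
  obtain ⟨p, hp⟩ := exists_Pot hl hC (gpw_of hc) H.mh H.mg hy hx (H.face _ _ hx hy).symm
  refine ⟨H.mh, H.mg, H.ne.symm, ok_of hl hC hU hc H.mh H.mg H.ne.symm hp, fun x y hx hy => (H.face y x hy hx).symm,
    ?_, p, hp⟩
  intro k hk k' hk' x y hx hy hF
  have := H.uni k hk k' hk' x y hx hy hF
  tauto

/-- The other gaps. -/
theorem OnePair.ring_other {g h e : Gp} (hl : Lab R U f N) (hC : Cut3 R U)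
    (hc : gpw N r D = true) (H : OnePair R U f D g h) (he : e ∈ D) (h1 : e.a ≠ g.a)
    (h2 : e.a ≠ h.a) {a b : {d : G.Dart // Ex U d}} (ha : Dt f e.a a.1) (hb : Dt f e.b b.1) :
    ring R U b = a := by
  have o : GpOk R U f N r e := gpOk hc he
  have hCn : Cn R a.1.symm (e.B.map (dk f a.1)) b.1 := cnL_ok hl.rot ha.swap hb o.cn
  refine Once392.ring_eq hCn ?_
  intro c hca hF
  obtain ⟨e', he', hdt⟩ := ex_gp hl hC hc c.2
  rcases H.uni e he e' he' _ _ ha hdt hF with h3 | h3 | h3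
  · exact hca (Subtype.ext (hdt.eq (h3 ▸ ha)))
  · exact h1 h3.1
  · exact h2 h3.1

theorem NoPair.ring {e : Gp} (hl : Lab R U f N) (hC : Cut3 R U)
    (hc : gpw N r D = true) (H : NoPair R f D) (he : e ∈ D)
    {a b : {d : G.Dart // Ex U d}} (ha : Dt f e.a a.1) (hb : Dt f e.b b.1) :
    ring R U b = a := by
  have o : GpOk R U f N r e := gpOk hc he
  have hCn : Cn R a.1.symm (e.B.map (dk f a.1)) b.1 := cnL_ok hl.rot ha.swap hb o.cn
  refine Once392.ring_eq hCn ?_
  intro c hca hF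
  obtain ⟨e', he', hdt⟩ := ex_gp hl hC hc c.2
  refine H e he e' he' _ _ ha hdt ?_ hF
  intro h3
  exact hca (Subtype.ext (hdt.eq (h3 ▸ ha)))

/-- **The first gap of the pair**: the face comes back at the second one. -/
theorem OnePair.ring_cross {g h : Gp} (hl : Lab R U f N) (hC : Cut3 R U)
    (hc : gps N r D = true) (H : OnePair R U f D g h)
    {a b : {d : G.Dart // Ex U d}} (hb : Dt f g.b b.1) (ha : Dt f h.a a.1) :
    ring R U b = a := by
  have o : GpOk R U f N r g := gpOk (gpw_of hc) H.mg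
  have hx : Dt f g.a (⟨(f g.a.1, f g.a.2), nbr_adj hl.rot o.na⟩ : G.Dart) := ⟨rfl, rfl⟩
  set x : G.Dart := ⟨(f g.a.1, f g.a.2), nbr_adj hl.rot o.na⟩ with hx0
  have hCn : Cn R x.symm (g.B.map (dk f x)) b.1 := cnL_ok hl.rot hx.swap hb o.cn
  have h1 : R.face ((ring R U b).1.symm) = R.face b.1 := by
    show R.face ((R.next^[rn R U b.1] b.1).symm.symm) = _
    rw [SimpleGraph.Dart.symm_symm, face_iter]
  rw [hCn.face] at h1
  obtain ⟨e', he', hdt⟩ := ex_gp hl hC (gpw_of hc) (ring R U b).2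
  rcases H.uni g H.mg e' he' x _ hx hdt h1.symm with h3 | h3 | h3
  · -- the potential excludes the same gap
    exfalso
    obtain ⟨p, hp⟩ := H.pot
    have h4 := hp.gap g H.mg
    have h5 := const_ring1 (R := R) (U := U) (c := p)
      (fun u v huv hu _ => hp.out u v huv (Or.inl hu)) b
    rw [hdt.2, hb.2, ← h3, h4] at h5
    have h6 : (dl g h g : ℚ) = 0 := by linarith
    have h7 : dl g h g = 0 := by exact_mod_cast h6
    exact gp_two hc H.mg H.mh H.ne h7
  · exact Subtype.ext (hdt.eq (h3.2 ▸ ha))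
  · exact absurd h3.1 H.ne

/-! ## Short outer faces -/

/-- One step of the ring along a short face, in labels. -/
theorem ow_step {K : ℕ} {a b : {d : G.Dart // Ex U d}} {qa qb : ℕ × ℕ} (h : ring R U b = a)
    (ha : Dt f qa a.1) (hb : Dt f qb b.1) (hK : sz R b.1 ≤ K) :
    OW G U K (f qb.2) (f qa.2) := by
  have h5 := step_short R b hK
  rw [h, ha.2, hb.2] at h5
  exact h5

/-- The gap is short. -/
def shB (N : List (ℕ × ℕ × ℕ × ℕ)) (sh : List (ℕ × ℕ)) (g : Gp) : Bool :=
  sh.any fun c => sF N g.a.swap c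

/-- The pairs of terminals joined by short faces if the gaps `g` and `h` are in one face. -/
def gsC (N : List (ℕ × ℕ × ℕ × ℕ)) (D : List Gp) (sh : List (ℕ × ℕ)) (c : Gp × Gp) :
    List (ℕ × ℕ) :=
  ((D.filter fun e => e.a != c.1.a && e.a != c.2.a && shB N sh e).map fun e => (e.a.2, e.b.2)) ++
    if shB N sh c.1 || shB N sh c.2 then [(c.1.b.2, c.2.a.2), (c.2.b.2, c.1.a.2)] else []

/-- The values of a potential at the terminals. -/
structure SepC (G : SimpleGraph V) (U : V → Prop) (f : ℕ → V) (D : List Gp) (c : Gp × Gp) :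
    Prop where
  pot : ∃ p : V → ℚ, (∀ u v, G.Adj u v → (¬ U u ∨ ¬ U v) → p u = p v) ∧
    ∃ C : ℚ, D.map (fun e => p (f e.a.2)) = (vl c.1 c.2 0 D).map fun x : ℤ => C + (x : ℚ)

/-- The values at the two labels are different. -/
def sepB (D : List Gp) (c : Gp × Gp) (a b : ℕ) : Bool :=
  (D.zip (vl c.1 c.2 0 D)).any fun x => x.1.a.2 == a &&
    (D.zip (vl c.1 c.2 0 D)).any fun y => y.1.a.2 == b && x.2 != y.2

/-- **Terminals of different orbits.** -/
theorem SepC.ne {c : Gp × Gp} (H : SepC G U f D c) {a b : ℕ} (h : sepB D c a b = true) :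
    ∃ p : V → ℚ, (∀ u v, G.Adj u v → (¬ U u ∨ ¬ U v) → p u = p v) ∧ p (f a) ≠ p (f b) := by
  obtain ⟨p, hp, C, hC⟩ := H.pot
  refine ⟨p, hp, ?_⟩
  have key : ∀ (l : List Gp) (w : List ℤ), l.map (fun e => p (f e.a.2)) =
      w.map (fun x : ℤ => C + (x : ℚ)) → ∀ x ∈ l.zip w, p (f x.1.a.2) = C + (x.2 : ℚ) := by
    intro l
    induction l with
    | nil => exact fun w _ x hx => by simp at hx
    | cons e l ih =>
      intro w hw x hx
      cases w with
      | nil => simp at hx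
      | cons z w =>
        rw [List.map_cons, List.map_cons, List.cons.injEq] at hw
        rw [List.zip_cons_cons, List.mem_cons] at hx
        rcases hx with rfl | hx
        · exact hw.1
        · exact ih w hw.2 x hx
  unfold sepB at h
  rw [List.any_eq_true] at h
  obtain ⟨x, hx, h1⟩ := h
  rw [Bool.and_eq_true, beq_iff_eq, List.any_eq_true] at h1
  obtain ⟨rfl, y, hy, h2⟩ := h1
  rw [Bool.and_eq_true, beq_iff_eq, bne_iff_ne] at h2
  obtain ⟨rfl, h2⟩ := h2
  rw [key D _ hC x hx, key D _ hC y hy]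
  intro h3
  apply h2
  have : (x.2 : ℚ) = y.2 := by linarith
  exact_mod_cast this

/-- Such terminals are different. -/
theorem SepC.ne_eq {c : Gp × Gp} (H : SepC G U f D c) {a b : ℕ} (h : sepB D c a b = true) :
    f a ≠ f b := by
  obtain ⟨p, -, hp⟩ := H.ne h
  exact fun h1 => hp (by rw [h1])

/-- They are not adjacent. -/
theorem SepC.not_adj {c : Gp × Gp} (H : SepC G U f D c) {a b : ℕ} (h : sepB D c a b = true)
    (ha : ¬ U (f a)) : ¬ G.Adj (f a) (f b) := by
  obtain ⟨p, h1, hp⟩ := H.ne h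
  exact fun h2 => hp (h1 _ _ h2 (Or.inl ha))

/-- They have no common neighbour outside. -/
theorem SepC.not_two {c : Gp × Gp} (H : SepC G U f D c) {a b : ℕ} (h : sepB D c a b = true)
    (ha : ¬ U (f a)) (hb : ¬ U (f b)) {v : V} : ¬ (G.Adj (f a) v ∧ G.Adj (f b) v) := by
  obtain ⟨p, h1, hp⟩ := H.ne h
  rintro ⟨h2, h3⟩
  exact hp ((h1 _ _ h2 (Or.inl ha)).trans (h1 _ _ h3 (Or.inl hb)).symm)

/-- The faces of the gaps which meet a short face are short. -/
theorem gap_short {K : ℕ} (hl : Lab R U f N) {sh : List (ℕ × ℕ)}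
    (hsh : ∀ c ∈ sh, ∃ d : G.Dart, Dt f c d ∧ sz R d ≤ K) {e : Gp}
    (hs : shB N sh e = true) {x : G.Dart} (hx : Dt f e.a x) : sz R x.symm ≤ K := by
  unfold shB at hs
  rw [List.any_eq_true] at hs
  obtain ⟨c, hcs, hF⟩ := hs
  obtain ⟨d, hd1, hd2⟩ := hsh c hcs
  have := sF_ok hl.rot hF hx.swap hd1
  unfold sz
  rw [← this]
  exact hd2

theorem gap_sz (hl : Lab R U f N) (hc : gpw N r D = true) {e : Gp} (he : e ∈ D) {x y : G.Dart}
    (hx : Dt f e.a x) (hy : Dt f e.b y) : sz R y = sz R x.symm := by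
  have o : GpOk R U f N r e := gpOk hc he
  have hCn : Cn R x.symm (e.B.map (dk f x)) y := cnL_ok hl.rot hx.swap hy o.cn
  unfold sz
  rw [hCn.face]

/-- **No two gaps in one face**: the pairs joined by short outer faces. -/
theorem gaps_noPair {K : ℕ} {q : Place V} (hC : Cut3 R (Int q.R q.f))
    (hl : Lab R (Int q.R q.f) q.f N) (hreal : ∀ j ∈ lbs N, Real q.R q.nl q.miss j)
    (hw : gpw N r D = true) (H : NoPair R q.f D) {sh : List (ℕ × ℕ)}
    (hsh : ∀ c ∈ sh, ∃ d : G.Dart, Dt q.f c d ∧ sz R d ≤ K) : Gaps G q K (gsOf N D sh) := by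
  intro x hx
  unfold gsOf at hx
  rw [List.mem_map] at hx
  obtain ⟨e, he, rfl⟩ := hx
  rw [List.mem_filter] at he
  obtain ⟨heD, hs⟩ := he
  have o : GpOk R (Int q.R q.f) q.f N r e := gpOk hw heD
  have ha : Dt q.f e.a (⟨(q.f e.a.1, q.f e.a.2), nbr_adj hl.rot o.na⟩ : G.Dart) := ⟨rfl, rfl⟩
  have hb : Dt q.f e.b (⟨(q.f e.b.1, q.f e.b.2), nbr_adj hl.rot o.nb⟩ : G.Dart) := ⟨rfl, rfl⟩
  have h1 := H.ring hl hC hw heD (a := ⟨_, hl.ex_of o.na o.ia ha⟩)
    (b := ⟨_, hl.ex_of o.nb o.ib hb⟩) ha hb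
  have h2 := ow_step h1 ha hb (K := K) (by
    show sz R (⟨(q.f e.b.1, q.f e.b.2), _⟩ : G.Dart) ≤ K
    rw [gap_sz hl hw heD ha hb]
    exact gap_short hl hsh hs ha)
  exact ⟨hreal _ (lbs_of_nbr o.na).2, hreal _ (lbs_of_nbr o.nb).2, h2.symm⟩

/-- **Two gaps in one face**: the pairs joined by short outer faces. -/
theorem gaps_onePair {K : ℕ} {q : Place V} (hC : Cut3 R (Int q.R q.f))
    (hU : Disc G (Int q.R q.f))
    (hl : Lab R (Int q.R q.f) q.f N) (hreal : ∀ j ∈ lbs N, Real q.R q.nl q.miss j)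
    (hc : gps N r D = true) {g g' : Gp} (H : OnePair R (Int q.R q.f) q.f D g g')
    {sh : List (ℕ × ℕ)} (hsh : ∀ c ∈ sh, ∃ d : G.Dart, Dt q.f c d ∧ sz R d ≤ K) :
    Gaps G q K (gsC N D sh (g, g')) := by
  have hw := gpw_of hc
  have Hs := H.symm hl hC hU hc
  have o : GpOk R (Int q.R q.f) q.f N r g := gpOk hw H.mg
  have o' : GpOk R (Int q.R q.f) q.f N r g' := gpOk hw H.mh
  have ga : Dt q.f g.a (⟨(q.f g.a.1, q.f g.a.2), nbr_adj hl.rot o.na⟩ : G.Dart) := ⟨rfl, rfl⟩
  have gb : Dt q.f g.b (⟨(q.f g.b.1, q.f g.b.2), nbr_adj hl.rot o.nb⟩ : G.Dart) := ⟨rfl, rfl⟩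
  have ga' : Dt q.f g'.a (⟨(q.f g'.a.1, q.f g'.a.2), nbr_adj hl.rot o'.na⟩ : G.Dart) :=
    ⟨rfl, rfl⟩
  have gb' : Dt q.f g'.b (⟨(q.f g'.b.1, q.f g'.b.2), nbr_adj hl.rot o'.nb⟩ : G.Dart) :=
    ⟨rfl, rfl⟩
  have hface := H.face _ _ ga ga'
  have hszb := gap_sz hl hw H.mg ga gb
  have hszb' := gap_sz hl hw H.mh ga' gb'
  intro x hx
  unfold gsC at hx
  rw [List.mem_append] at hx
  rcases hx with hx | hx
  · rw [List.mem_map] at hx
    obtain ⟨e, he, rfl⟩ := hx
    rw [List.mem_filter] at he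
    obtain ⟨heD, hs⟩ := he
    simp only [Bool.and_eq_true, bne_iff_ne] at hs
    obtain ⟨⟨n1, n2⟩, hs⟩ := hs
    have oe : GpOk R (Int q.R q.f) q.f N r e := gpOk hw heD
    have ha : Dt q.f e.a (⟨(q.f e.a.1, q.f e.a.2), nbr_adj hl.rot oe.na⟩ : G.Dart) :=
      ⟨rfl, rfl⟩
    have hb : Dt q.f e.b (⟨(q.f e.b.1, q.f e.b.2), nbr_adj hl.rot oe.nb⟩ : G.Dart) :=
      ⟨rfl, rfl⟩
    have h1 := H.ring_other hl hC hw heD n1 n2 (a := ⟨_, hl.ex_of oe.na oe.ia ha⟩)
      (b := ⟨_, hl.ex_of oe.nb oe.ib hb⟩) ha hb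
    have h2 := ow_step h1 ha hb (K := K) (by
      show sz R (⟨(q.f e.b.1, q.f e.b.2), _⟩ : G.Dart) ≤ K
      rw [gap_sz hl hw heD ha hb]
      exact gap_short hl hsh hs ha)
    exact ⟨hreal _ (lbs_of_nbr oe.na).2, hreal _ (lbs_of_nbr oe.nb).2, h2.symm⟩
  · have hsz : sz R (⟨(q.f g.b.1, q.f g.b.2), nbr_adj hl.rot o.nb⟩ : G.Dart) =
        sz R (⟨(q.f g'.b.1, q.f g'.b.2), nbr_adj hl.rot o'.nb⟩ : G.Dart) := by
      rw [hszb, hszb']
      unfold sz
      rw [hface]
    by_cases hs : (shB N sh g || shB N sh g') = true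
    · have hK : sz R (⟨(q.f g.b.1, q.f g.b.2), nbr_adj hl.rot o.nb⟩ : G.Dart) ≤ K := by
        rw [Bool.or_eq_true] at hs
        rcases hs with hs | hs
        · rw [hszb]
          exact gap_short hl hsh hs ga
        · rw [hsz, hszb']
          exact gap_short hl hsh hs ga'
      rw [if_pos hs] at hx
      have h1 := H.ring_cross hl hC hc (b := ⟨_, hl.ex_of o.nb o.ib gb⟩)
        (a := ⟨_, hl.ex_of o'.na o'.ia ga'⟩) gb ga'
      have h2 := Hs.ring_cross hl hC hc (b := ⟨_, hl.ex_of o'.nb o'.ib gb'⟩)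
        (a := ⟨_, hl.ex_of o.na o.ia ga⟩) gb' ga
      have w1 := ow_step h1 ga' gb (K := K) hK
      have w2 := ow_step h2 ga gb' (K := K) (by
        show sz R (⟨(q.f g'.b.1, q.f g'.b.2), _⟩ : G.Dart) ≤ K
        rw [← hsz]
        exact hK)
      simp only [List.mem_cons, List.not_mem_nil, or_false] at hx
      rcases hx with rfl | rfl
      · exact ⟨hreal _ (lbs_of_nbr o.nb).2, hreal _ (lbs_of_nbr o'.na).2, w1⟩
      · exact ⟨hreal _ (lbs_of_nbr o'.nb).2, hreal _ (lbs_of_nbr o.na).2, w2⟩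
    · rw [if_neg hs] at hx
      simp at hx

/-- **The pairs joined by short outer faces.** -/
theorem gapsC_lab {K : ℕ} {q : Place V} (hC : Cut3 R (Int q.R q.f)) (hU : Disc G (Int q.R q.f))
    (hl : Lab R (Int q.R q.f) q.f N) (hreal : ∀ j ∈ lbs N, Real q.R q.nl q.miss j)
    (hc : gps N r D = true) (hk : chkC D = true) {sh : List (ℕ × ℕ)}
    (hsh : ∀ c ∈ sh, ∃ d : G.Dart, Dt q.f c d ∧ sz R d ≤ K) :
    (NoPair R q.f D ∧ Gaps G q K (gsOf N D sh)) ∨
      ∃ c ∈ prs D, OnePair R (Int q.R q.f) q.f D c.1 c.2 ∧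
        SepC G (Int q.R q.f) q.f D c ∧ Gaps G q K (gsC N D sh c) := by
  rcases no_or_one hl hC hU hc hk with H | ⟨g, g', H⟩
  · exact Or.inl ⟨H, gaps_noPair hC hl hreal (gpw_of hc) H hsh⟩
  · refine Or.inr ⟨(g, g'), mem_prs H.mg H.mh H.ne H.ok, H, ?_,
      gaps_onePair hC hU hl hreal hc H hsh⟩
    obtain ⟨p, hp⟩ := H.pot
    exact ⟨p, hp.out, hp.vals (fun e he => he) (chn_of hc)⟩

/-! ## Places -/

/-- No label outside is joined to three interior labels. -/
def outB (R : Red) (co : List (ℕ × ℕ)) : Bool :=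
  (stubs R).all fun a => (stubs R).all fun b => (stubs R).all fun c =>
    !(decide (Same co a.2 b.2) && decide (Same co a.2 c.2) && decide (Same co b.2 c.2) &&
      decide (a.1 ≠ b.1) && decide (a.1 ≠ c.1) && decide (b.1 ≠ c.1))

/-- **The interior of a place.** -/
theorem disc_of {q : Place V} (hC : Cut3 R (Int q.R q.f)) (hg : Good q G) (hm : q.miss = [])
    (h1 : connB q.R = true) (h2 : 2 ≤ q.R.m) (h3 : outB q.R q.co = true) :
    Disc G (Int q.R q.f) := by
  classical
  refine ⟨conn_of hg hm h1, ?_, ?_⟩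
  · have := card_int_ge hg
    obtain ⟨u, hu, v, hv, huv⟩ := Finset.one_lt_card.1 (lt_of_lt_of_le (by omega) this)
    exact ⟨u, v, huv, (mem_filter.1 hu).2, (mem_filter.1 hv).2⟩
  · intro v hv
    by_contra hcon
    push Not at hcon
    unfold outB at h3
    simp only [List.all_eq_true, Bool.not_eq_true', Bool.and_eq_false_iff,
      decide_eq_false_iff_not] at h3
    obtain ⟨x, y, z, n1, n2, n3, hn⟩ := three_nb hC.cub v
    have a1 := (hn x).2 (Or.inl rfl)
    have a2 := (hn y).2 (Or.inr (Or.inl rfl))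
    have a3 := (hn z).2 (Or.inr (Or.inr rfl))
    obtain ⟨b1, j1, s1, e1, f1, r1, r1'⟩ := stub_of hg (hcon x a1) hv a1.symm
    obtain ⟨b2, j2, s2, e2, f2, r2, r2'⟩ := stub_of hg (hcon y a2) hv a2.symm
    obtain ⟨b3, j3, s3, e3, f3, r3, r3'⟩ := stub_of hg (hcon z a3) hv a3.symm
    have c1 : Same q.co j1 j2 := hg.ok.inj _ _ r1' r2' (f1.trans f2.symm)
    have c2 : Same q.co j1 j3 := hg.ok.inj _ _ r1' r3' (f1.trans f3.symm)
    have c3 : Same q.co j2 j3 := hg.ok.inj _ _ r2' r3' (f2.trans f3.symm)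
    have d1 : b1 ≠ b2 := fun hh => n1 (by rw [← e1, ← e2, hh])
    have d2 : b1 ≠ b3 := fun hh => n2 (by rw [← e1, ← e3, hh])
    have d3 : b2 ≠ b3 := fun hh => n3 (by rw [← e2, ← e3, hh])
    have := h3 _ s1 _ s2 _ s3
    tauto

/-- The check for a place in a cyclically 4-edge-connected graph. -/
def placeC (R : Red) (nl co : List (ℕ × ℕ)) (N : List (ℕ × ℕ × ℕ × ℕ)) (r : ℕ × ℕ)
    (D : List Gp) : Bool :=
  connB R && Nat.ble 2 R.m && outB R co && labB R nl N && gps N r D && chkC D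

/-- **Short outer faces, two orbits allowed.** -/
theorem gapsC_of {K : ℕ} {q : Place V} (hC : Cut3 R (Int q.R q.f)) (hg : Good q G)
    (hm : q.miss = [])
    (hN : RotOk R q.f N) (h : placeC q.R q.nl q.co N r D = true) {sh : List (ℕ × ℕ)}
    (hsh : ∀ c ∈ sh, ∃ d : G.Dart, Dt q.f c d ∧ sz R d ≤ K) :
    (NoPair R q.f D ∧ Gaps G q K (gsOf N D sh)) ∨
      ∃ c ∈ prs D, OnePair R (Int q.R q.f) q.f D c.1 c.2 ∧
        SepC G (Int q.R q.f) q.f D c ∧ Gaps G q K (gsC N D sh c) := by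
  unfold placeC at h
  simp only [Bool.and_eq_true, Nat.ble_eq] at h
  obtain ⟨⟨⟨⟨⟨h1, h2⟩, h3⟩, h4⟩, h5⟩, h6⟩ := h
  obtain ⟨hl, hreal⟩ := lab_of hg hm hN h4
  exact gapsC_lab hC (disc_of hC hg hm h1 h2 h3) hl hreal h5 h6 hsh

/-- Every possible case gives a gain. -/
def goodC (R : Red) (nl : List (ℕ × ℕ)) (ps : List (ℕ × List ℕ × ℕ)) (co : List (ℕ × ℕ))
    (N : List (ℕ × ℕ × ℕ × ℕ)) (D : List Gp) (sh : List (ℕ × ℕ)) : Bool :=
  goodB R nl ps co (gsOf N D sh) && (prs D).all fun c => goodB R nl ps co (gsC N D sh c)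

/-- **A place with a gain in every orbit.** -/
theorem gainC_of {K : ℕ} {q : Place V} (hC : Cut3 R (Int q.R q.f)) (hg : Good q G)
    (hm : q.miss = [])
    (hN : RotOk R q.f N) (h : placeC q.R q.nl q.co N r D = true) {sh : List (ℕ × ℕ)}
    (hsh : ∀ c ∈ sh, ∃ d : G.Dart, Dt q.f c d ∧ sz R d ≤ K)
    (h' : goodC q.R q.nl q.ps q.co N D sh = true) : Uni91.GainP G q (10 * (K + 1)) := by
  unfold goodC at h'
  rw [Bool.and_eq_true, List.all_eq_true] at h'
  rcases gapsC_of hC hg hm hN h hsh with ⟨-, h1⟩ | ⟨c, hc, -, -, h1⟩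
  · exact gainP_of hg hm h1 h'.1
  · exact gainP_of hg hm h1 (h'.2 c hc)

end Pool.Agent.RingTwo
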