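import Mathlib
import Pool.Agent.Work.MP_392c8e_co_uni.ClsT
import Pool.Agent.Work.MP_392c8e_co_uni.RingTwo

/-!
# The class of stage C in the form used by the ring
-/

namespace Pool.Agent.U2Geo

open Finset Pool.Agent.Sub392 Pool.T1Side Pool.Agent.T392 Pool.Agent.T1FF

variable {V : Type} [Fintype V] [DecidableEq V] {G : SimpleGraph V} [DecidableRel G.Adj]
  {R : Rot G}

/-- Trivial cuts with at most three edges. -/
theorem C4.cut3 (h : C4 R) {U : V → Prop} : Pool.Agent.RingTwo.Cut3 R U :=
  ⟨h.cub, h.plane, fun A h1 _ => h.cut A h1⟩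

end Pool.Agent.U2Geo
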