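import Mathlib
import Pool.Agent.Work.MP_392c8e_co_uni.GeoBase

/-!
# Cyclically 5-edge-connected cubic plane graphs: the usual definition
-/

namespace Pool.Agent.U2Geo

open Finset Pool.Agent.Sub392 Pool.T1Side Pool.Agent.T392 Pool.Agent.T1FF

set_option linter.unusedSectionVars false

variable {V : Type} [Fintype V] [DecidableEq V] {G : SimpleGraph V} [DecidableRel G.Adj]

/-- Cyclically 5-edge-connected: every edge cut whose two sides both contain a cycle has at least
five edges. -/
def CycFive (G : SimpleGraph V) [DecidableRel G.Adj] : Prop :=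
  ∀ A : Finset V, ¬ (G.induce (A : Set V)).IsAcyclic → ¬ (G.induce (A : Set V)ᶜ).IsAcyclic →
    5 ≤ #(G.interedges A Aᶜ)

theorem card_interedges (A : Finset V) : #(G.interedges A Aᶜ) = out G A := by
  classical
  refine Finset.card_bij (fun e he => (⟨e, ?_⟩ : G.Dart)) ?_ ?_ ?_
  · exact (Rel.mem_interedges_iff.1 he).2.2
  · intro e he
    have h := Rel.mem_interedges_iff.1 he
    simp only [mem_filter, mem_univ, true_and]
    exact ⟨h.1, mem_compl.1 h.2.1⟩
  · intro e _ e' _ h
    exact congrArg (fun d : G.Dart => d.toProd) h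
  · intro d hd
    simp only [mem_filter, mem_univ, true_and] at hd
    exact ⟨d.toProd, Rel.mem_interedges_iff.2 ⟨hd.1, mem_compl.2 hd.2, d.adj⟩, rfl⟩

/-- A side of a small cut with at least three vertices contains a cycle. -/
theorem not_acyclic (hc : ∀ v, G.degree v = 3) (A : Finset V) (h1 : out G A ≤ 4) (h2 : 3 ≤ #A) :
    ¬ (G.induce (A : Set V)).IsAcyclic := by
  classical
  intro h
  obtain ⟨a, ha⟩ := card_pos.1 (by omega : 0 < #A)
  have hne : Nonempty (A : Set V) := ⟨⟨a, ha⟩⟩
  obtain ⟨T, hT1, -, hT⟩ := (SimpleGraph.connected_top (V := (A : Set V))).exists_isTree_le_of_le_of_isAcyclic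
    (H := G.induce (A : Set V)) le_top h
  have h3 := hT.card_edgeFinset
  have h4 : #(G.induce (A : Set V)).edgeFinset ≤ #T.edgeFinset :=
    card_le_card (SimpleGraph.edgeFinset_mono hT1)
  have h5 := (G.induce (A : Set V)).dart_card_eq_twice_card_edges
  have h6 : #{d : G.Dart | d.fst ∈ A ∧ d.snd ∈ A} ≤ Fintype.card (G.induce (A : Set V)).Dart := by
    rw [← Fintype.card_subtype]
    refine Fintype.card_le_of_injective
      (fun d : {d : G.Dart // d.fst ∈ A ∧ d.snd ∈ A} =>
        (⟨(⟨d.1.fst, d.2.1⟩, ⟨d.1.snd, d.2.2⟩), d.1.adj⟩ : (G.induce (A : Set V)).Dart)) ?_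
    intro d d' hd
    have e1 : d.1.fst = d'.1.fst :=
      congrArg (fun x : (G.induce (A : Set V)).Dart => (x.fst : V)) hd
    have e2 : d.1.snd = d'.1.snd :=
      congrArg (fun x : (G.induce (A : Set V)).Dart => (x.snd : V)) hd
    exact Subtype.ext (SimpleGraph.Dart.ext _ _ (Prod.ext e1 e2))
  have h7 : Fintype.card (A : Set V) = #A := by simp
  have h8 := out_add hc A
  omega

/-- A small cut has at most two vertices on one side. -/
theorem cut_of_cycFive (hc : ∀ v, G.degree v = 3) (h : CycFive G) (A : Finset V)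
    (hA : out G A ≤ 4) : #A ≤ 2 ∨ #Aᶜ ≤ 2 := by
  by_contra hcon
  push Not at hcon
  have h1 := not_acyclic hc A hA hcon.1
  have h2 := not_acyclic hc Aᶜ (by rw [out_compl]; exact hA) hcon.2
  rw [coe_compl] at h2
  have h3 := h A h1 h2
  rw [card_interedges] at h3
  omega

/-- The number of edges. -/
theorem edges (hc : ∀ v, G.degree v = 3) : 2 * #G.edgeFinset = 3 * Fintype.card V := by
  rw [← SimpleGraph.sum_degrees_eq_twice_card_edges, sum_congr rfl fun v _ => hc v, sum_const,
    card_univ, smul_eq_mul, mul_comm]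

/-- Long faces are few. -/
theorem faces_le (R : Rot G) {k : ℕ} (h : ∀ d, k ≤ R.size (R.face d)) :
    k * Fintype.card R.Face ≤ Fintype.card G.Dart := by
  classical
  have h1 : Fintype.card G.Dart = ∑ f : R.Face, R.size f := by
    rw [← card_univ, card_eq_sum_card_fiberwise (f := R.face) (t := univ)
      (fun d _ => mem_coe.2 (mem_univ _))]
    rfl
  rw [h1, mul_comm, ← smul_eq_mul, ← card_univ]
  refine card_nsmul_le_sum _ _ _ fun f _ => ?_
  obtain ⟨d, rfl⟩ := Quotient.mk_surjective f
  exact h d

/-- The geometric facts, without a bound for the number of vertices. -/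
theorem geo_aux {R : Rot G} (hp : R.Plane) (hc : ∀ v, G.degree v = 3)
    (hcut : ∀ A : Finset V, out G A ≤ 4 → #A ≤ 2 ∨ #Aᶜ ≤ 2) (htri : G.CliqueFree 3) : Geo R where
  plane := hp
  tri := htri
  deg3 := fun v => (hc v).le
  deg2 := fun v => by rw [hc v]; norm_num
  br := by
    classical
    refine face_ne_of_nobridge R hp fun S u v hu hv huv => ?_
    by_contra hcon
    push Not at hcon
    have h1 : out G (univ.filter fun x => S x) ≤ 1 := by
      unfold out
      rw [card_le_one]
      intro d hd d' hd'
      simp only [mem_filter, mem_univ, true_and] at hd hd'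
      have key : ∀ d : G.Dart, S d.fst ∧ ¬ S d.snd → d = ⟨(u, v), huv⟩ := by
        intro d hd
        have h4 := hcon d.fst d.snd hd.1 hd.2 d.adj
        rcases Sym2.eq_iff.1 h4 with ⟨h5, h6⟩ | ⟨h5, h6⟩
        · exact SimpleGraph.Dart.ext _ _ (Prod.ext h5 h6)
        · exact absurd (h5 ▸ hd.1) hv
      rw [key d hd, key d' hd']
    have e1 : 1 ≤ #(univ.filter fun x => S x) := by
      rw [Nat.one_le_iff_ne_zero, card_ne_zero]
      exact ⟨u, by simpa using hu⟩
    have e2 : 1 ≤ #(univ.filter fun x => S x)ᶜ := by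
      rw [Nat.one_le_iff_ne_zero, card_ne_zero]
      exact ⟨v, by simpa using hv⟩
    rcases hcut (univ.filter fun x => S x) (by omega) with h2 | h2
    · have := three_le_out hc _ e1 h2
      omega
    · have := three_le_out hc _ e2 h2
      rw [out_compl] at this
      omega
  cut := fun A hA => hcut A (le_trans hA (by norm_num))
  no22 := fun u _ _ hu => by rw [hc u] at hu; omega

/-- **The usual definition gives the working definition**; only `K₄` is an exception. -/
theorem c5_of_cycFive {R : Rot G} (hp : R.Plane) (hc : ∀ v, G.degree v = 3) (h : CycFive G)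
    (h4 : Fintype.card V ≠ 4) : C5 R := by
  classical
  have hcut := cut_of_cycFive hc h
  have hE := edges hc
  have hn : 4 ≤ Fintype.card V := by
    obtain ⟨v⟩ := hp.1.nonempty
    have := G.degree_lt_card_verts v
    rw [hc v] at this
    omega
  refine ⟨hp, hc, hcut, ?_⟩
  by_contra hbig
  have h6 : Fintype.card V = 6 := by omega
  have htri : G.CliqueFree 3 := by
    intro s hs
    rw [SimpleGraph.is3Clique_iff] at hs
    obtain ⟨a, b, c, hab, hac, hbc, rfl⟩ := hs
    have h1 : #({a, b, c} : Finset V) = 3 := by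
      rw [card_insert_of_notMem, card_pair hbc.ne]
      simp [hab.ne, hac.ne]
    have h2 := out_le hc {a, b, c} (by
      intro v hv
      simp only [mem_insert, mem_singleton] at hv
      rcases hv with rfl | rfl | rfl
      · exact ⟨b, c, hbc.ne, hab, hac, by simp, by simp⟩
      · exact ⟨a, c, hac.ne, hab.symm, hbc, by simp, by simp⟩
      · exact ⟨a, b, hab.ne, hac.symm, hbc.symm, by simp, by simp⟩)
    have h4 := card_compl ({a, b, c} : Finset V)
    rcases hcut {a, b, c} (by omega) with h5 | h5 <;> omega
  have g := geo_aux hp hc hcut htri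
  have h1 := faces_le R (k := 4) fun d => g.four_le_sz d
  rw [G.dart_card_eq_twice_card_edges] at h1
  have h2 := hp.2
  omega

/-- There are at least twenty vertices. -/
theorem C5.twenty_le {R : Rot G} (h : C5 R) : 20 ≤ Fintype.card V := by
  have h1 := faces_le R (k := 5) fun d => h.five_le d
  rw [G.dart_card_eq_twice_card_edges] at h1
  have h2 := h.plane.2
  have h3 := edges h.cub
  omega

/-- A cubic graph without triangles does not have four vertices. -/
theorem card_ne_four (hc : ∀ v, G.degree v = 3) (ht : G.CliqueFree 3) [Nonempty V] :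
    Fintype.card V ≠ 4 := by
  classical
  intro h4
  have hadj : ∀ u v, u ≠ v → G.Adj u v := by
    intro u v huv
    have h1 : G.neighborFinset u = univ.erase u := by
      refine eq_of_subset_of_card_le ?_ ?_
      · intro x hx
        rw [mem_erase]
        exact ⟨(SimpleGraph.ne_of_adj _ ((G.mem_neighborFinset u x).1 hx)).symm, mem_univ _⟩
      · rw [card_erase_of_mem (mem_univ _), card_univ, h4, G.card_neighborFinset_eq_degree, hc u]
    have h2 : v ∈ G.neighborFinset u := by
      rw [h1, mem_erase]
      exact ⟨huv.symm, mem_univ _⟩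
    exact (G.mem_neighborFinset u v).1 h2
  obtain ⟨a, b, c, hab, hac, hbc⟩ : ∃ a b c : V, a ≠ b ∧ a ≠ c ∧ b ≠ c := by
    have : 2 < Fintype.card V := by omega
    exact Fintype.two_lt_card_iff.1 this
  refine ht {a, b, c} ?_
  rw [SimpleGraph.is3Clique_iff]
  exact ⟨a, b, c, hadj a b hab, hadj a c hac, hadj b c hbc, rfl⟩

end Pool.Agent.U2Geo
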