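import Mathlib
import Pool.Agent.Work.MP_392c8e_co_draw.Draw
import Pool.Agent.Work.MP_392c8e_co_t1.PlRot
import Pool.Agent.Work.MP_392c8e_co_uni.Final

/-!
# Cyclically 5-edge-connected cubic graphs drawn in the plane
-/

namespace Pool.Agent.U2Geo

open Finset Pool.Agent.Sub392 Pool.T1Side Pool.Agent.T392 Pool.Agent.T1FF Pool.Agent.Red

set_option linter.unusedSectionVars false

variable {V : Type} [Fintype V] [DecidableEq V] {G : SimpleGraph V} [DecidableRel G.Adj]

/-- A cyclically 5-edge-connected cubic graph is connected. -/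
theorem connected_of_cycFive [Nonempty V] (hc : ∀ v, G.degree v = 3) (h : CycFive G) :
    G.Connected := by
  classical
  have hcut := cut_of_cycFive hc h
  refine ⟨fun u v => ?_⟩
  by_contra huv
  set A : Finset V := univ.filter fun x => G.Reachable u x with hA
  have h0 : out G A = 0 := by
    unfold out
    rw [card_eq_zero, filter_eq_empty_iff]
    rintro d - ⟨h1, h2⟩
    rw [hA, mem_filter] at h1 h2
    exact h2 ⟨mem_univ _, h1.2.trans d.adj.reachable⟩
  have e1 : 1 ≤ #A := by
    rw [Nat.one_le_iff_ne_zero, card_ne_zero]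
    exact ⟨u, by rw [hA, mem_filter]; exact ⟨mem_univ _, SimpleGraph.Reachable.refl u⟩⟩
  have e2 : 1 ≤ #Aᶜ := by
    rw [Nat.one_le_iff_ne_zero, card_ne_zero]
    exact ⟨v, by rw [mem_compl, hA, mem_filter]; exact fun h => huv h.2⟩
  rcases hcut A (by omega) with h2 | h2
  · have := three_le_out hc _ e1 h2
    omega
  · have := three_le_out hc _ e2 h2
    rw [out_compl] at this
    omega

/-- Every edge of a cut has a companion. -/
theorem companion (hc : ∀ v, G.degree v = 3) (h : CycFive G) (S : V → Prop) (u v : V) (hu : S u)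
    (hv : ¬ S v) (huv : G.Adj u v) :
    ∃ u' v', S u' ∧ ¬ S v' ∧ G.Adj u' v' ∧ s(u', v') ≠ s(u, v) := by
  classical
  have hcut := cut_of_cycFive hc h
  by_contra hcon
  push Not at hcon
  have h1 : out G (univ.filter fun x => S x) ≤ 1 := by
    unfold out
    rw [card_le_one]
    intro d hd d' hd'
    simp only [mem_filter, mem_univ, true_and] at hd hd'
    have key : ∀ d : G.Dart, S d.fst ∧ ¬ S d.snd → d = ⟨(u, v), huv⟩ := by
      intro d hd
      have h4 := hcon d.fst d.snd hd.1 hd.2 d.adj
      rcases Sym2.eq_iff.1 h4 with ⟨h5, h6⟩ | ⟨h5, h6⟩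
      · exact SimpleGraph.Dart.ext _ _ (Prod.ext h5 h6)
      · exact absurd (h5 ▸ hd.1) hv
    rw [key d hd, key d' hd']
  have e1 : 1 ≤ #(univ.filter fun x => S x) := by
    rw [Nat.one_le_iff_ne_zero, card_ne_zero]
    exact ⟨u, by simpa using hu⟩
  have e2 : 1 ≤ #(univ.filter fun x => S x)ᶜ := by
    rw [Nat.one_le_iff_ne_zero, card_ne_zero]
    exact ⟨v, by simpa using hv⟩
  rcases hcut (univ.filter fun x => S x) (by omega) with h2 | h2
  · have := three_le_out hc _ e1 h2
    omega
  · have := three_le_out hc _ e2 h2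
    rw [out_compl] at this
    omega

/-- **Drawings**: a cyclically 5-edge-connected cubic graph other than `K₄` which is drawn in the
plane without crossings satisfies the working definition, for some rotation. -/
theorem c5_of_drawing [Nonempty V] (hc : ∀ v, G.degree v = 3) (h : CycFive G)
    (h4 : Fintype.card V ≠ 4)
    (hd : ∃ (p : V → ℝ × ℝ) (γ : V → V → unitInterval → ℝ × ℝ),
        Function.Injective p ∧
        (∀ u v, G.Adj u v →
          Continuous (γ u v) ∧ Function.Injective (γ u v) ∧
          γ u v 0 = p u ∧ γ u v 1 = p v ∧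
          ∀ (t : unitInterval) (w : V), γ u v t = p w → w = u ∨ w = v) ∧
        (∀ u v x y, G.Adj u v → G.Adj x y → s(u, v) ≠ s(x, y) →
          ∀ (a b : unitInterval), γ u v a = γ x y b →
            (γ u v a = p u ∨ γ u v a = p v) ∧ (γ u v a = p x ∨ γ u v a = p y))) :
    ∃ R : Rot G, C5 R := by
  classical
  have hne : ∃ u v, G.Adj u v := by
    obtain ⟨v⟩ := (inferInstance : Nonempty V)
    have h1 : 0 < #(G.neighborFinset v) := by
      rw [G.card_neighborFinset_eq_degree, hc v]
      norm_num
    obtain ⟨w, hw⟩ := card_pos.1 h1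
    exact ⟨v, w, (G.mem_neighborFinset v w).1 hw⟩
  obtain ⟨R, hR⟩ := exists_rot_of_pl (Pool.Agent.Draw.pl_of_drawing hd)
    (connected_of_cycFive hc h) hne (fun v => (hc v).le) (companion hc h)
  exact ⟨R, c5_of_cycFive hR hc h h4⟩

end Pool.Agent.U2Geo
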