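import Mathlib
import Pool.Agent.Work.MP_392c8e_co_uni.Final
import Pool.Agent.Work.MP_392c8e_co_uni.FinalDraw
import Pool.Agent.Work.MP_392c8e_co_uni.ClsT

/-!
# Cyclically 4-edge-connected cubic plane graphs: the usual definition
-/

namespace Pool.Agent.U2Geo

open Finset Pool.Agent.Sub392 Pool.T1Side Pool.Agent.T392 Pool.Agent.T1FF Pool.Agent.Red

set_option linter.unusedSectionVars false

variable {V : Type} [Fintype V] [DecidableEq V] {G : SimpleGraph V} [DecidableRel G.Adj]

/-- Cyclically 4-edge-connected: every edge cut whose two sides both contain a cycle has at least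
four edges. -/
def CycFour (G : SimpleGraph V) [DecidableRel G.Adj] : Prop :=
  ∀ A : Finset V, ¬ (G.induce (A : Set V)).IsAcyclic → ¬ (G.induce (A : Set V)ᶜ).IsAcyclic →
    4 ≤ #(G.interedges A Aᶜ)

theorem CycFive.cycFour (h : CycFive G) : CycFour G := fun A h1 h2 => by
  have := h A h1 h2
  omega

/-- A side of a cut with at most three edges and at least two vertices contains a cycle. -/
theorem not_acyclic' (hc : ∀ v, G.degree v = 3) (A : Finset V) (h1 : out G A ≤ 3) (h2 : 2 ≤ #A) :
    ¬ (G.induce (A : Set V)).IsAcyclic := by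
  classical
  intro h
  obtain ⟨a, ha⟩ := card_pos.1 (by omega : 0 < #A)
  have hne : Nonempty (A : Set V) := ⟨⟨a, ha⟩⟩
  obtain ⟨T, hT1, -, hT⟩ := (SimpleGraph.connected_top (V := (A : Set V))).exists_isTree_le_of_le_of_isAcyclic
    (H := G.induce (A : Set V)) le_top h
  have h3 := hT.card_edgeFinset
  have h4 : #(G.induce (A : Set V)).edgeFinset ≤ #T.edgeFinset :=
    card_le_card (SimpleGraph.edgeFinset_mono hT1)
  have h5 := (G.induce (A : Set V)).dart_card_eq_twice_card_edges
  have h6 : #{d : G.Dart | d.fst ∈ A ∧ d.snd ∈ A} ≤ Fintype.card (G.induce (A : Set V)).Dart := by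
    rw [← Fintype.card_subtype]
    refine Fintype.card_le_of_injective
      (fun d : {d : G.Dart // d.fst ∈ A ∧ d.snd ∈ A} =>
        (⟨(⟨d.1.fst, d.2.1⟩, ⟨d.1.snd, d.2.2⟩), d.1.adj⟩ : (G.induce (A : Set V)).Dart)) ?_
    intro d d' hd
    have e1 : d.1.fst = d'.1.fst :=
      congrArg (fun x : (G.induce (A : Set V)).Dart => (x.fst : V)) hd
    have e2 : d.1.snd = d'.1.snd :=
      congrArg (fun x : (G.induce (A : Set V)).Dart => (x.snd : V)) hd
    exact Subtype.ext (SimpleGraph.Dart.ext _ _ (Prod.ext e1 e2))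
  have h7 : Fintype.card (A : Set V) = #A := by simp
  have h8 := out_add hc A
  omega

/-- A cut with at most three edges has at most one vertex on one side. -/
theorem cut_of_cycFour (hc : ∀ v, G.degree v = 3) (h : CycFour G) (A : Finset V)
    (hA : out G A ≤ 3) : #A ≤ 1 ∨ #Aᶜ ≤ 1 := by
  by_contra hcon
  push Not at hcon
  have h1 := not_acyclic' hc A hA hcon.1
  have h2 := not_acyclic' hc Aᶜ (by rw [out_compl]; exact hA) hcon.2
  rw [coe_compl] at h2
  have h3 := h A h1 h2
  rw [card_interedges] at h3
  omega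

/-- A set with at least one vertex and at most one leaving edge, and at least one vertex outside,
does not exist. -/
theorem two_le_out_four (hc : ∀ v, G.degree v = 3) (h : CycFour G) (A : Finset V)
    (e1 : 1 ≤ #A) (e2 : 1 ≤ #Aᶜ) : 2 ≤ out G A := by
  by_contra hcon
  rcases cut_of_cycFour hc h A (by omega) with h2 | h2
  · have := three_le_out hc _ e1 (by omega)
    omega
  · have := three_le_out hc _ e2 (by omega)
    rw [out_compl] at this
    omega

/-- A cut has two edges. -/
theorem companion_four (hc : ∀ v, G.degree v = 3) (h : CycFour G) (S : V → Prop) (u v : V)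
    (hu : S u) (hv : ¬ S v) (huv : G.Adj u v) :
    ∃ u' v', S u' ∧ ¬ S v' ∧ G.Adj u' v' ∧ s(u', v') ≠ s(u, v) := by
  classical
  by_contra hcon
  push Not at hcon
  have h1 : out G (univ.filter fun x => S x) ≤ 1 := by
    unfold out
    rw [card_le_one]
    intro d hd d' hd'
    simp only [mem_filter, mem_univ, true_and] at hd hd'
    have key : ∀ d : G.Dart, S d.fst ∧ ¬ S d.snd → d = ⟨(u, v), huv⟩ := by
      intro d hd
      have h4 := hcon d.fst d.snd hd.1 hd.2 d.adj
      rcases Sym2.eq_iff.1 h4 with ⟨h5, h6⟩ | ⟨h5, h6⟩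
      · exact SimpleGraph.Dart.ext _ _ (Prod.ext h5 h6)
      · exact absurd (h5 ▸ hd.1) hv
    rw [key d hd, key d' hd']
  have e1 : 1 ≤ #(univ.filter fun x => S x) := by
    rw [Nat.one_le_iff_ne_zero, card_ne_zero]
    exact ⟨u, by simpa using hu⟩
  have e2 : 1 ≤ #(univ.filter fun x => S x)ᶜ := by
    rw [Nat.one_le_iff_ne_zero, card_ne_zero]
    exact ⟨v, by simpa using hv⟩
  have := two_le_out_four hc h _ e1 e2
  omega

/-- A cyclically 4-edge-connected cubic graph is connected. -/
theorem connected_of_cycFour [Nonempty V] (hc : ∀ v, G.degree v = 3) (h : CycFour G) :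
    G.Connected := by
  classical
  refine ⟨fun u v => ?_⟩
  by_contra huv
  set A : Finset V := univ.filter fun x => G.Reachable u x with hA
  have h0 : out G A = 0 := by
    unfold out
    rw [card_eq_zero, filter_eq_empty_iff]
    rintro d - ⟨h1, h2⟩
    rw [hA, mem_filter] at h1 h2
    exact h2 ⟨mem_univ _, h1.2.trans d.adj.reachable⟩
  have e1 : 1 ≤ #A := by
    rw [Nat.one_le_iff_ne_zero, card_ne_zero]
    exact ⟨u, by rw [hA, mem_filter]; exact ⟨mem_univ _, SimpleGraph.Reachable.refl u⟩⟩
  have e2 : 1 ≤ #Aᶜ := by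
    rw [Nat.one_le_iff_ne_zero, card_ne_zero]
    exact ⟨v, by rw [mem_compl, hA, mem_filter]; exact fun h => huv h.2⟩
  have := two_le_out_four hc h A e1 e2
  omega

/-- No triangles, except in `K₄`. -/
theorem tri_of_cycFour (hc : ∀ v, G.degree v = 3) (h : CycFour G) (h4 : 4 < Fintype.card V) :
    G.CliqueFree 3 := by
  classical
  intro s hs
  rw [SimpleGraph.is3Clique_iff] at hs
  obtain ⟨a, b, c, hab, hac, hbc, rfl⟩ := hs
  have h1 : #({a, b, c} : Finset V) = 3 := by
    rw [card_insert_of_notMem, card_pair hbc.ne]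
    simp [hab.ne, hac.ne]
  have h2 := out_le hc {a, b, c} (by
    intro v hv
    simp only [mem_insert, mem_singleton] at hv
    rcases hv with rfl | rfl | rfl
    · exact ⟨b, c, hbc.ne, hab, hac, by simp, by simp⟩
    · exact ⟨a, c, hac.ne, hab.symm, hbc, by simp, by simp⟩
    · exact ⟨a, b, hab.ne, hac.symm, hbc.symm, by simp, by simp⟩)
  have h5 := card_compl ({a, b, c} : Finset V)
  rcases cut_of_cycFour hc h {a, b, c} (by omega) with h6 | h6 <;> omega

/-- **The usual definition gives the working definition**; only `K₄` is an exception. -/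
theorem c4_of_cycFour {R : Rot G} (hp : R.Plane) (hc : ∀ v, G.degree v = 3) (h : CycFour G)
    (h4 : Fintype.card V ≠ 4) : C4 R := by
  classical
  have hE := edges hc
  have hn : 4 ≤ Fintype.card V := by
    obtain ⟨v⟩ := hp.1.nonempty
    have := G.degree_lt_card_verts v
    rw [hc v] at this
    omega
  have htri := tri_of_cycFour hc h (by omega)
  refine ⟨hp, hc, cut_of_cycFour hc h, ?_⟩
  by_contra hbig
  have g : Geo R := {
    plane := hp
    tri := htri
    deg3 := fun v => (hc v).le
    deg2 := fun v => by rw [hc v]; norm_num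
    br := face_ne_of_nobridge R hp (companion_four hc h)
    cut := fun A hA => by
      rcases cut_of_cycFour hc h A hA with h1 | h1
      · exact Or.inl (by omega)
      · exact Or.inr (by omega)
    no22 := fun u _ _ hu => by rw [hc u] at hu; omega }
  have h1 := faces_le R (k := 4) fun d => g.four_le_sz d
  rw [G.dart_card_eq_twice_card_edges] at h1
  have h2 := hp.2
  omega

/-- **Drawings**: a cyclically 4-edge-connected cubic graph other than `K₄` which is drawn in the
plane without crossings satisfies the working definition, for some rotation. -/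
theorem c4_of_drawing [Nonempty V] (hc : ∀ v, G.degree v = 3) (h : CycFour G)
    (h4 : Fintype.card V ≠ 4)
    (hd : ∃ (p : V → ℝ × ℝ) (γ : V → V → unitInterval → ℝ × ℝ),
        Function.Injective p ∧
        (∀ u v, G.Adj u v →
          Continuous (γ u v) ∧ Function.Injective (γ u v) ∧
          γ u v 0 = p u ∧ γ u v 1 = p v ∧
          ∀ (t : unitInterval) (w : V), γ u v t = p w → w = u ∨ w = v) ∧
        (∀ u v x y, G.Adj u v → G.Adj x y → s(u, v) ≠ s(x, y) →
          ∀ (a b : unitInterval), γ u v a = γ x y b →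
            (γ u v a = p u ∨ γ u v a = p v) ∧ (γ u v a = p x ∨ γ u v a = p y))) :
    ∃ R : Rot G, C4 R := by
  classical
  have hne : ∃ u v, G.Adj u v := by
    obtain ⟨v⟩ := (inferInstance : Nonempty V)
    have h1 : 0 < #(G.neighborFinset v) := by
      rw [G.card_neighborFinset_eq_degree, hc v]
      norm_num
    obtain ⟨w, hw⟩ := card_pos.1 h1
    exact ⟨v, w, (G.mem_neighborFinset v w).1 hw⟩
  obtain ⟨R, hR⟩ := exists_rot_of_pl (Pool.Agent.Draw.pl_of_drawing hd)
    (connected_of_cycFour hc h) hne (fun v => (hc v).le) (companion_four hc h)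
  exact ⟨R, c4_of_cycFour hR hc h h4⟩

end Pool.Agent.U2Geo
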