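import Mathlib
import Pool.Agent.Work.MP_392c8e_co_red.Cuts
import Pool.Agent.Work.MP_392c8e_co_uni.SideStar

/-!
# Smallest sides of cuts with three edges

`Cut3 G`: every cut has at least three edges.  `Side3 G A`: the cut of `A` has exactly three
edges and both sides have at least two vertices.  Such a cut has distinct ends on both sides, both
sides are connected, and for a smallest side `A` every cut with at most three edges inside `A` is
trivial.
-/

namespace Pool.Agent.CutN

open Pool.Agent.Red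

set_option linter.unusedSectionVars false

variable {V : Type} [Fintype V] [DecidableEq V] {G : SimpleGraph V}

/-- Every cut has at least three edges. -/
def Cut3 (G : SimpleGraph V) : Prop :=
  ∀ A : Set V, A.Nonempty → A ≠ Set.univ → 3 ≤ (leave G A).ncard

/-- A cut with exactly three edges and at least two vertices on both sides. -/
structure Side3 (G : SimpleGraph V) (A : Set V) : Prop where
  three : (leave G A).ncard = 3
  inn : 2 ≤ A.ncard
  out : 2 ≤ Aᶜ.ncard

theorem Side3.compl {A : Set V} (h : Side3 G A) : Side3 G Aᶜ where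
  three := by rw [leave_compl_ncard]; exact h.three
  inn := h.out
  out := by rw [compl_compl]; exact h.inn

/-- A side which is smallest (with respect to inclusion). -/
def MinSide (G : SimpleGraph V) (A : Set V) : Prop :=
  Side3 G A ∧ ∀ B, B ⊆ A → Side3 G B → B = A

/-- If there is a nontrivial cut with three edges, there is a smallest side; it can be taken inside
a given side. -/
theorem Side3.exists_minSide {A : Set V} (h : Side3 G A) : ∃ B, B ⊆ A ∧ MinSide G B := by
  classical
  have key : ∃ m : ℕ, ∃ B : Set V, B ⊆ A ∧ Side3 G B ∧ B.ncard = m := ⟨_, A, subset_rfl, h, rfl⟩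
  obtain ⟨B, hBA, hB, hm⟩ := Nat.find_spec key
  refine ⟨B, hBA, hB, fun C hCB hC => ?_⟩
  have h1 := Nat.find_min' key ⟨C, hCB.trans hBA, hC, rfl⟩
  rw [← hm] at h1
  exact Set.eq_of_subset_of_ncard_le hCB h1 (Set.toFinite _)

/-- The two vertices are distinct ends: no vertex has two edges of a nontrivial cut with three
edges. -/
theorem Side3.inj (hd : ∀ v, (G.neighborSet v).ncard ≤ 3) (hG : Cut3 G) {A : Set V}
    (h : Side3 G A) {a b b' : V} (ha : a ∈ A) (hb : b ∉ A) (hb' : b' ∉ A) (hab : G.Adj a b)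
    (hab' : G.Adj a b') : b = b' := by
  by_contra hne
  have h1 := leave_erase A ha hb hb' hab hab' hne (hd a)
  have h2 : 3 ≤ (leave G (A \ {a})).ncard := by
    refine hG _ ?_ ?_
    · have h3 := Set.ncard_sdiff_singleton_add_one ha (Set.toFinite _)
      have h4 := h.inn
      rw [Set.nonempty_iff_ne_empty]
      intro h5
      rw [h5, Set.ncard_empty] at h3
      omega
    · intro h5
      have : a ∈ A \ {a} := by rw [h5]; exact Set.mem_univ a
      exact this.2 rfl
  have h3 := h.three
  omega

/-- **A nontrivial cut with three edges has distinct ends on both sides.** -/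
theorem Side3.exists_cutK (hd : ∀ v, (G.neighborSet v).ncard ≤ 3) (hG : Cut3 G) {A : Set V}
    (h : Side3 G A) : ∃ a b : Fin 3 → V, CutK G (· ∈ A) a b := by
  classical
  have h3 : Fintype.card (leave G A) = 3 := by
    rw [← Nat.card_eq_fintype_card]
    exact h.three
  obtain e : Fin 3 ≃ leave G A := (Fintype.equivFinOfCardEq h3).symm
  have he : ∀ i, (e i).1.1 ∈ A ∧ (e i).1.2 ∉ A ∧ G.Adj (e i).1.1 (e i).1.2 := fun i => (e i).2
  refine ⟨fun i => (e i).1.1, fun i => (e i).1.2, fun i => (he i).1, fun i => (he i).2.1,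
    fun i => (he i).2.2, ?_, ?_, ?_⟩
  · intro i j hij
    have hij' : (e i).1.1 = (e j).1.1 := hij
    have h4 : (e i).1.2 = (e j).1.2 := h.inj hd hG (he i).1 (he i).2.1 (he j).2.1 (he i).2.2
      (by rw [hij']; exact (he j).2.2)
    exact e.injective (Subtype.ext (Prod.ext hij' h4))
  · intro i j hij
    have hij' : (e i).1.2 = (e j).1.2 := hij
    have h4 : (e i).1.1 = (e j).1.1 := h.compl.inj hd hG (a := (e i).1.2) (he i).2.1
      (fun h5 => h5 (he i).1) (fun h5 => h5 (he j).1) (he i).2.2.symm
      (by rw [hij']; exact (he j).2.2.symm)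
    exact e.injective (Subtype.ext (Prod.ext h4 hij'))
  · intro u v hu hv huv
    have h4 : (u, v) ∈ leave G A := ⟨hu, hv, huv⟩
    refine ⟨e.symm ⟨(u, v), h4⟩, ?_, ?_⟩
    · show u = (e (e.symm ⟨(u, v), h4⟩)).1.1
      rw [e.apply_symm_apply]
    · show v = (e (e.symm ⟨(u, v), h4⟩)).1.2
      rw [e.apply_symm_apply]

/-- The number of edges of a cut in the form `CutK`. -/
theorem CutK.ncard_leave {k : ℕ} {X : V → Prop} {a b : Fin k → V} (hc : CutK G X a b) :
    (leave G {v | X v}).ncard = k := by
  have h1 : leave G {v | X v} = Set.range fun i => (a i, b i) := by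
    ext ⟨u, v⟩
    constructor
    · rintro ⟨h1, h2, h3⟩
      obtain ⟨i, h4, h5⟩ := hc.cut u v h1 h2 h3
      exact ⟨i, by rw [h4, h5]⟩
    · rintro ⟨i, hi⟩
      obtain ⟨rfl, rfl⟩ := Prod.mk.inj hi
      exact ⟨hc.hX i, hc.hY i, hc.adj i⟩
  have hinj : Function.Injective fun i => (a i, b i) := fun i j hij =>
    hc.ia (congrArg Prod.fst hij)
  rw [h1, ← Set.image_univ, Set.ncard_image_of_injective _ hinj, Set.ncard_univ,
    Nat.card_eq_fintype_card, Fintype.card_fin]

/-- **The other side of a cut with at most five edges is connected.** -/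
theorem Cut3.conn (hG : Cut3 G) {k : ℕ} (hk : k ≤ 5) (hk0 : 0 < k) {X : V → Prop}
    {a b : Fin k → V} (hc : CutK G X a b) : ConnF G X := by
  classical
  intro φ hφ x y hx hy
  by_contra hne
  have key : ∀ B : Set V, B ⊆ {w | ¬ X w} → (∀ u v, u ∈ B → ¬ X v → G.Adj u v → v ∈ B) →
      leave G B = (fun i => (b i, a i)) '' {i | b i ∈ B} := by
    intro B hB hB2
    ext ⟨u, v⟩
    constructor
    · rintro ⟨h1, h2, h3⟩
      have h4 : X v := by
        by_contra h5
        exact h2 (hB2 u v h1 h5 h3)
      obtain ⟨i, h5, h6⟩ := hc.cut v u h4 (hB h1) h3.symm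
      have h1' : u ∈ B := h1
      refine ⟨i, ?_, ?_⟩
      · show b i ∈ B
        rw [← h6]
        exact h1'
      · show (b i, a i) = (u, v)
        rw [h5, h6]
    · rintro ⟨i, h1, h2⟩
      obtain ⟨rfl, rfl⟩ := Prod.mk.inj h2
      exact ⟨h1, fun h5 => hB h5 (hc.hX i), (hc.adj i).symm⟩
  have hinj : Function.Injective fun i => (b i, a i) := fun i j hij =>
    hc.ib (congrArg Prod.fst hij)
  set B : Set V := {w | ¬ X w ∧ φ w = φ x} with hB
  set B' : Set V := {w | ¬ X w ∧ φ w ≠ φ x} with hB'
  have k1 := key B (fun w hw => hw.1) (fun u v hu hv huv => ⟨hv, by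
    rw [← hφ u v huv hu.1 hv]; exact hu.2⟩)
  have k2 := key B' (fun w hw => hw.1) (fun u v hu hv huv => ⟨hv, by
    rw [← hφ u v huv hu.1 hv]; exact hu.2⟩)
  have n1 : 3 ≤ (leave G B).ncard := hG _ ⟨x, hx, rfl⟩ fun h5 => by
    have : a ⟨0, hk0⟩ ∈ B := by rw [h5]; exact Set.mem_univ _
    exact this.1 (hc.hX _)
  have n2 : 3 ≤ (leave G B').ncard := hG _ ⟨y, hy, fun h5 => hne h5.symm⟩ fun h5 => by
    have : a ⟨0, hk0⟩ ∈ B' := by rw [h5]; exact Set.mem_univ _
    exact this.1 (hc.hX _)
  rw [k1, Set.ncard_image_of_injective _ hinj] at n1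
  rw [k2, Set.ncard_image_of_injective _ hinj] at n2
  have h6 : Disjoint {i : Fin k | b i ∈ B} {i | b i ∈ B'} := by
    rw [Set.disjoint_left]
    intro i h1 h2
    exact h2.2 h1.2
  have h7 := Set.ncard_union_eq h6 (Set.toFinite _) (Set.toFinite _)
  have h8 := Set.ncard_le_ncard (Set.subset_univ ({i : Fin k | b i ∈ B} ∪ {i | b i ∈ B'}))
    (Set.toFinite _)
  rw [Set.ncard_univ, Nat.card_eq_fintype_card, Fintype.card_fin] at h8
  omega

/-- A cut with at most three edges inside a smallest side is trivial. -/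
theorem MinSide.trivial (hG : Cut3 G) {A : Set V} (h : MinSide G A) {B : Set V} (hB : B ⊆ A)
    (h3 : (leave G B).ncard ≤ 3) : B.ncard ≤ 1 ∨ B = A := by
  by_cases h1 : B.ncard ≤ 1
  · exact Or.inl h1
  right
  have hout : 2 ≤ Bᶜ.ncard := h.1.out.trans
    (Set.ncard_le_ncard (Set.compl_subset_compl.2 hB) (Set.toFinite _))
  have h4 : 3 ≤ (leave G B).ncard := by
    refine hG B ?_ ?_
    · rw [Set.nonempty_iff_ne_empty]
      intro h5
      rw [h5, Set.ncard_empty] at h1
      omega
    · intro h5
      rw [h5, Set.compl_univ, Set.ncard_empty] at hout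
      omega
  exact h.2 B hB ⟨by omega, by omega, hout⟩

end Pool.Agent.CutN
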