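import Mathlib
import Pool.Agent.Work.MP_392c8e_co_uni.Side4

/-!
# Small cuts of the contraction at an inclusion-minimal side of a 3-cut
-/

namespace Pool.Agent.CutN

open Pool.Agent.Red

set_option linter.unusedSectionVars false

variable {V W : Type} [Fintype V] [DecidableEq V] [Fintype W] {G : SimpleGraph V}
  {H : SimpleGraph W}

/-- Let `f` contract the complement of the smallest side `A` to `z` and keep the cuts.  A set
without `z` with at most three leaving edges is trivial. -/
theorem MinSide.torso_aux (hG : Cut3 G) {A : Set V} (h : MinSide G A) (f : V → W) {z : W}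
    (hz : ∀ v, f v = z ↔ v ∉ A) (hinj : ∀ u v, u ∈ A → v ∈ A → f u = f v → u = v)
    (hs : Function.Surjective f)
    (hl : ∀ B : Set W, (leave H B).ncard = (leave G (f ⁻¹' B)).ncard)
    (B : Set W) (hzB : z ∉ B) (hB : (leave H B).ncard ≤ 3) : B.ncard ≤ 1 ∨ Bᶜ.ncard ≤ 1 := by
  have hsub : f ⁻¹' B ⊆ A := by
    intro v hv
    by_contra hvA
    have : f v = z := (hz v).2 hvA
    exact hzB (this ▸ hv)
  have himg : f '' (f ⁻¹' B) = B := Set.image_preimage_eq B hs
  have hcard : (f ⁻¹' B).ncard = B.ncard := by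
    rw [← Set.InjOn.ncard_image (f := f) (s := f ⁻¹' B), himg]
    intro u hu v hv huv
    exact hinj u v (hsub hu) (hsub hv) huv
  rcases h.trivial hG hsub (by rw [← hl B]; exact hB) with h4 | h4
  · left
    omega
  · right
    have h5 : Bᶜ ⊆ {z} := by
      intro w hw
      obtain ⟨v, rfl⟩ := hs w
      have : v ∉ A := by
        rw [← h4]
        exact hw
      exact (hz v).2 this
    have h6 : Bᶜ.ncard ≤ ({z} : Set W).ncard := Set.ncard_le_ncard h5 (Set.toFinite _)
    rwa [Set.ncard_singleton] at h6

/-- **Every cut with at most three edges of the contraction at a smallest side is trivial.** -/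
theorem MinSide.torso (hG : Cut3 G) {A : Set V} (h : MinSide G A) (f : V → W) {z : W}
    (hz : ∀ v, f v = z ↔ v ∉ A) (hinj : ∀ u v, u ∈ A → v ∈ A → f u = f v → u = v)
    (hs : Function.Surjective f)
    (hl : ∀ B : Set W, (leave H B).ncard = (leave G (f ⁻¹' B)).ncard)
    (B : Set W) (hB : (leave H B).ncard ≤ 3) : B.ncard ≤ 1 ∨ Bᶜ.ncard ≤ 1 := by
  classical
  by_cases hzB : z ∈ B
  · have h := h.torso_aux hG f hz hinj hs hl Bᶜ (fun h => h hzB)
      (by rw [leave_compl_ncard]; exact hB)
    rw [compl_compl] at h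
    exact h.symm
  · exact h.torso_aux hG f hz hinj hs hl B hzB hB

end Pool.Agent.CutN
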