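import Mathlib
import Pool.Agent.Work.MP_392c8e_co_uni.FinalC
import Pool.Agent.Work.MP_392c8e_co_uni.TorsoC

/-!
# Cubic planar graphs with trivial small cuts satisfy the working definition of stage C
-/

namespace Pool.Agent.U2Geo

open Finset Pool.Agent.Sub392 Pool.T1Side Pool.Agent.T392 Pool.Agent.T1FF Pool.Agent.Red

set_option linter.unusedSectionVars false

variable {V : Type} [Fintype V] [DecidableEq V] {G : SimpleGraph V} [DecidableRel G.Adj]

/-- The two ways to count the leaving edges. -/
theorem leave_eq_out (A : Finset V) : (leave G (A : Set V)).ncard = out G A := by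
  classical
  have h1 : leave G (A : Set V) =
      ((fun d : G.Dart => d.toProd) '' ((univ.filter fun d : G.Dart =>
        d.fst ∈ A ∧ d.snd ∉ A : Finset G.Dart) : Set G.Dart)) := by
    ext p
    constructor
    · rintro ⟨h1, h2, h3⟩
      exact ⟨⟨p, h3⟩, by simpa using ⟨h1, h2⟩, rfl⟩
    · rintro ⟨d, hd, rfl⟩
      have hd' : d.fst ∈ A ∧ d.snd ∉ A := by simpa using hd
      exact ⟨hd'.1, hd'.2, d.adj⟩
  rw [h1, Set.InjOn.ncard_image, Set.ncard_coe_finset]
  · rfl
  · intro d _ d' _ h
    exact SimpleGraph.Dart.ext _ _ h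

/-- A graph whose small cuts are trivial is cyclically 4-edge-connected. -/
theorem cycFour_of_cuts (hcut : ∀ B : Set V, (leave G B).ncard ≤ 3 → B.ncard ≤ 1 ∨ Bᶜ.ncard ≤ 1) :
    CycFour G := by
  classical
  intro A h1 h2
  by_contra h3
  rw [card_interedges, not_le] at h3
  have key : ∀ B : Set V, B.ncard ≤ 1 → (G.induce B).IsAcyclic := by
    intro B hB
    have hs : Subsingleton B := by
      rw [Set.subsingleton_coe]
      exact Set.ncard_le_one_iff_subsingleton.1 hB
    intro v p hp
    have h4 := hp.three_le_length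
    match p, hp with
    | .cons h _, _ => exact absurd (Subsingleton.elim _ _) h.ne
  rcases hcut (A : Set V) (by rw [leave_eq_out]; omega) with h4 | h4
  · exact h1 (key _ h4)
  · exact h2 (key _ h4)

/-- **Cubic planar graphs in which every cut with at most three edges is trivial**, other than
`K₄`, satisfy the working definition for some rotation. -/
theorem exists_c4_of_pl [Nonempty V] (hpl : Pl G) (hc : ∀ v, G.degree v = 3)
    (hcut : ∀ B : Set V, (leave G B).ncard ≤ 3 → B.ncard ≤ 1 ∨ Bᶜ.ncard ≤ 1)
    (h4 : Fintype.card V ≠ 4) : ∃ R : Rot G, C4 R := by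
  classical
  have h := cycFour_of_cuts hcut
  have hne : ∃ u v, G.Adj u v := by
    obtain ⟨v⟩ := (inferInstance : Nonempty V)
    have h1 : 0 < #(G.neighborFinset v) := by
      rw [G.card_neighborFinset_eq_degree, hc v]
      norm_num
    obtain ⟨w, hw⟩ := card_pos.1 h1
    exact ⟨v, w, (G.mem_neighborFinset v w).1 hw⟩
  obtain ⟨R, hR⟩ := exists_rot_of_pl hpl (connected_of_cycFour hc h) hne (fun v => (hc v).le)
    (companion_four hc h)
  exact ⟨R, c4_of_cycFour hR hc h h4⟩

end Pool.Agent.U2Geo
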