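import Mathlib
import Pool.Agent.Work.MP_392c8e_co_uni.GeoNo5
import Pool.Agent.Work.MP_392c8e_co_t1.Inst.C3

/-!
# Certificates for the side conditions: C3
-/

namespace Pool.Agent.U2Geo

open Pool.T1Side Pool.Agent.T1Red

/-- Certificate. -/
def C3a_steps : List StepL := [
  .ne 0 1 (.base (.tri 7 0 11)),
  .ne 0 9 (.base (.tri 0 8 7)),
  .ne 0 12 (.base (.tri 0 8 7)),
  .ne 0 15 (.base (.tri 7 0 11)),
  .ne 1 2 (.base (.tri 11 1 15)),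
  .ne 1 8 (.base (.tri 7 1 11)),
  .ne 1 12 (.base (.tri 11 1 15)),
  .ne 2 7 (.base (.tri 11 2 15)),
  .ne 2 8 (.base (.tri 2 12 15)),
  .ne 2 16 (.base (.tri 2 12 15)),
  .ne 3 8 (.base (.tri 3 12 16)),
  .ne 3 9 (.base (.tri 3 16 13)),
  .ne 3 15 (.base (.tri 3 12 16)),
  .ne 3 17 (.base (.tri 13 3 16)),
  .ne 4 5 (.base (.tri 4 17 14)),
  .ne 4 9 (.base (.tri 4 13 17)),
  .ne 4 10 (.base (.tri 14 4 17)),
  .ne 4 16 (.base (.tri 13 4 17)),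
  .ne 5 6 (.base (.tri 10 5 14)),
  .ne 5 9 (.base (.tri 10 5 14)),
  .ne 5 13 (.base (.tri 14 5 17)),
  .ne 6 8 (.base (.tri 9 6 10)),
  .ne 6 13 (.base (.tri 6 9 10)),
  .ne 6 17 (.base (.tri 10 6 14)),
  .ne 7 10 (.base (.tri 7 8 9)),
  .ne 7 13 (.base (.tri 8 7 9)),
  .ne 7 16 (.base (.tri 8 7 12)),
  .ne 8 14 (.base (.tri 9 8 10)),
  .ne 8 17 (.base (.tri 9 8 13)),
  .ne 9 11 (.base (.tri 7 8 9)),
  .ne 9 15 (.base (.tri 8 12 9)),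
  .ne 10 12 (.base (.tri 9 8 10)),
  .ne 10 16 (.base (.tri 9 10 13)),
  .ne 11 16 (.base (.tri 11 12 15)),
  .ne 12 17 (.base (.tri 13 12 16)),
  .ne 13 15 (.base (.tri 13 12 16)),
  .ne 14 16 (.base (.tri 14 13 17)),
  .ne 0 2 (.four 0 15 11 7),
  .ne 0 10 (.four 0 9 8 7),
  .ne 0 13 (.four 0 9 8 7),
  .ne 0 16 (.four 0 12 8 7),
  .ne 1 9 (.four 1 8 7 11),
  .ne 1 16 (.four 1 11 15 12),
  .ne 2 3 (.four 2 16 12 15),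
  .ne 2 9 (.four 2 8 12 15),
  .ne 2 13 (.four 2 16 12 15),
  .ne 3 4 (.four 3 16 13 17),
  .ne 3 7 (.four 3 16 12 8),
  .ne 3 10 (.four 3 16 13 9),
  .ne 3 11 (.four 3 16 12 15),
  .ne 3 14 (.four 3 16 13 17),
  .ne 4 6 (.four 4 17 14 10),
  .ne 4 8 (.four 4 9 13 17),
  .ne 4 12 (.four 4 17 13 16),
  .ne 5 8 (.four 5 9 10 14),
  .ne 5 16 (.four 5 13 17 14),
  .ne 6 7 (.four 6 8 9 10),
  .ne 6 12 (.four 6 8 9 10),
  .ne 6 16 (.four 6 10 9 13),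
  .ne 7 14 (.four 7 8 9 10),
  .ne 7 17 (.four 7 8 9 13),
  .ne 10 11 (.four 10 7 8 9),
  .ne 10 15 (.four 10 9 8 12),
  .ne 11 13 (.four 11 7 8 9),
  .ne 12 14 (.four 12 8 9 10),
  .ne 15 17 (.four 15 12 16 13),
  .ne 0 3 (.base (.corner 0 16 12 [8, 7] [15, 11, 7])),
  .ne 0 6 (.five 9 8 7 0 10),
  .ne 0 14 (.five 9 8 7 0 10),
  .ne 0 17 (.five 9 8 7 0 13),
  .ne 1 3 (.five 15 11 1 16 12),
  .ne 1 10 (.five 9 8 7 11 1),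
  .ne 1 13 (.five 15 11 1 16 12),
  .ne 2 10 (.base (.corner 2 9 8 [12, 15] [7, 11, 15])),
  .ne 2 17 (.base (.corner 13 16 12 [15, 2] [8, 9])),
  .ne 3 5 (.base (.corner 3 16 13 [17, 14] [9, 10, 14])),
  .ne 3 6 (.base (.corner 3 16 13 [9, 10] [17, 14, 10])),
  .ne 4 7 (.base (.corner 4 8 9 [13, 17] [10, 14, 17])),
  .ne 4 15 (.base (.corner 4 17 13 [16, 12] [9, 8, 12])),
  .ne 5 7 (.base (.corner 5 8 9 [10, 14] [13, 17, 14])),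
  .ne 5 12 (.base (.corner 5 16 13 [17, 14] [9, 8])),
  .ne 6 11 (.five 9 8 7 6 10),
  .ne 6 15 (.base (.corner 6 10 9 [8, 12] [8, 7, 11])),
  .ne 11 14 (.five 7 8 9 10 11),
  .ne 11 17 (.five 7 8 9 13 11),
  .ne 14 15 (.base (.corner 14 10 9 [8, 12] [8, 7, 11])),
  .ne 0 4 (.base (.corner 0 17 13 [9, 8, 7] [16, 12, 8, 7])),
  .ne 0 5 (.base (.corner 7 8 9 [10, 14, 0] [13, 17, 14, 0])),
  .ne 1 6 (.base (.corner 1 10 9 [8, 7, 11] [8, 12, 15, 11])),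
  .ne 1 14 (.base (.corner 1 17 13 [9, 10] [16, 12, 15, 11])),
  .ne 1 17 (.base (.corner 1 13 9 [10, 14] [8, 12, 15, 11])),
  .ne 2 4 (.base (.corner 2 17 13 [16, 12, 15] [9, 8, 12, 15])),
  .ne 2 6 (.base (.corner 2 10 9 [8, 12, 15] [8, 7, 11, 15])),
  .ne 2 14 (.base (.corner 2 17 13 [9, 10] [16, 12, 15])),
  .ne 4 11 (.base (.corner 4 7 8 [12, 15] [9, 10, 14, 17])),
  .ne 5 11 (.base (.corner 5 15 12 [8, 7] [16, 13, 17, 14])),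
  .ne 5 15 (.base (.corner 5 11 7 [8, 12] [8, 9, 10, 14])),
  .ne 1 4 (.base (.corner 1 17 13 [16, 12, 15, 11] [9, 8, 7, 11])),
  .ne 1 5 (.base (.corner 14 10 9 [8, 7, 11, 1] [13, 17])),
  .ne 2 5 (.base (.corner 14 17 13 [16, 12, 15, 2] [9, 10])),
  .cn 0 3 18 (.base (.corner 16 12 8 [7, 0, 18, 3] [9, 13])),
  .cn 1 2 18 (.five 1 11 15 2 18),
  .cn 4 6 18 (.base (.corner 18 4 17 [14, 10, 6] [13, 9, 10, 6]))]

theorem C3a_fin : finL C3 [] [] [(0, 3), (1, 2), (4, 6)]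
    [] [(7, 8, 9), (1, 11, 15)] C3a_steps = true := by
  decide +kernel

/-- Certificate. -/
def C3b_steps : List StepL := [
  .ne 0 1 (.base (.tri 7 0 11)),
  .ne 0 9 (.base (.tri 0 8 7)),
  .ne 0 12 (.base (.tri 0 8 7)),
  .ne 0 15 (.base (.tri 7 0 11)),
  .ne 1 2 (.base (.tri 11 1 15)),
  .ne 1 8 (.base (.tri 7 1 11)),
  .ne 1 12 (.base (.tri 11 1 15)),
  .ne 2 7 (.base (.tri 11 2 15)),
  .ne 2 8 (.base (.tri 2 12 15)),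
  .ne 2 16 (.base (.tri 2 12 15)),
  .ne 3 8 (.base (.tri 3 12 16)),
  .ne 3 9 (.base (.tri 3 16 13)),
  .ne 3 15 (.base (.tri 3 12 16)),
  .ne 3 17 (.base (.tri 13 3 16)),
  .ne 4 5 (.base (.tri 4 17 14)),
  .ne 4 9 (.base (.tri 4 13 17)),
  .ne 4 10 (.base (.tri 14 4 17)),
  .ne 4 16 (.base (.tri 13 4 17)),
  .ne 5 6 (.base (.tri 10 5 14)),
  .ne 5 9 (.base (.tri 10 5 14)),
  .ne 5 13 (.base (.tri 14 5 17)),
  .ne 6 8 (.base (.tri 9 6 10)),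
  .ne 6 13 (.base (.tri 6 9 10)),
  .ne 6 17 (.base (.tri 10 6 14)),
  .ne 7 10 (.base (.tri 7 8 9)),
  .ne 7 13 (.base (.tri 8 7 9)),
  .ne 7 16 (.base (.tri 8 7 12)),
  .ne 8 14 (.base (.tri 9 8 10)),
  .ne 8 17 (.base (.tri 9 8 13)),
  .ne 9 11 (.base (.tri 7 8 9)),
  .ne 9 15 (.base (.tri 8 12 9)),
  .ne 10 12 (.base (.tri 9 8 10)),
  .ne 10 16 (.base (.tri 9 10 13)),
  .ne 11 16 (.base (.tri 11 12 15)),
  .ne 12 17 (.base (.tri 13 12 16)),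
  .ne 13 15 (.base (.tri 13 12 16)),
  .ne 14 16 (.base (.tri 14 13 17)),
  .ne 0 2 (.four 0 15 11 7),
  .ne 0 10 (.four 0 9 8 7),
  .ne 0 13 (.four 0 9 8 7),
  .ne 0 16 (.four 0 12 8 7),
  .ne 1 9 (.four 1 8 7 11),
  .ne 1 16 (.four 1 11 15 12),
  .ne 2 3 (.four 2 16 12 15),
  .ne 2 9 (.four 2 8 12 15),
  .ne 2 13 (.four 2 16 12 15),
  .ne 3 4 (.four 3 16 13 17),
  .ne 3 7 (.four 3 16 12 8),
  .ne 3 10 (.four 3 16 13 9),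
  .ne 3 11 (.four 3 16 12 15),
  .ne 3 14 (.four 3 16 13 17),
  .ne 4 6 (.four 4 17 14 10),
  .ne 4 8 (.four 4 9 13 17),
  .ne 4 12 (.four 4 17 13 16),
  .ne 5 8 (.four 5 9 10 14),
  .ne 5 16 (.four 5 13 17 14),
  .ne 6 7 (.four 6 8 9 10),
  .ne 6 12 (.four 6 8 9 10),
  .ne 6 16 (.four 6 10 9 13),
  .ne 7 14 (.four 7 8 9 10),
  .ne 7 17 (.four 7 8 9 13),
  .ne 10 11 (.four 10 7 8 9),
  .ne 10 15 (.four 10 9 8 12),
  .ne 11 13 (.four 11 7 8 9),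
  .ne 12 14 (.four 12 8 9 10),
  .ne 15 17 (.four 15 12 16 13),
  .ne 0 3 (.base (.corner 0 16 12 [8, 7] [15, 11, 7])),
  .ne 0 14 (.base (.corner 0 17 13 [9, 10] [16, 12, 8, 7])),
  .ne 0 17 (.base (.corner 0 13 9 [8, 7] [10, 14])),
  .ne 1 3 (.five 15 11 1 16 12),
  .ne 1 10 (.base (.corner 1 9 8 [7, 11] [12, 15, 11])),
  .ne 1 13 (.five 15 11 1 16 12),
  .ne 2 10 (.base (.corner 2 9 8 [12, 15] [7, 11, 15])),
  .ne 2 17 (.base (.corner 13 16 12 [15, 2] [8, 9])),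
  .ne 3 5 (.five 16 13 17 14 3),
  .ne 3 6 (.base (.corner 3 16 13 [9, 10] [17, 14, 10])),
  .ne 4 7 (.base (.corner 4 8 9 [13, 17] [10, 14, 17])),
  .ne 4 15 (.five 17 13 16 12 4),
  .ne 5 7 (.base (.corner 5 8 9 [10, 14] [13, 17, 14])),
  .ne 5 12 (.five 16 13 17 14 5),
  .ne 6 11 (.base (.corner 6 10 9 [8, 7] [8, 12, 15])),
  .ne 6 15 (.base (.corner 6 10 9 [8, 12] [8, 7, 11])),
  .ne 11 14 (.base (.corner 11 7 8 [9, 10] [9, 13, 17])),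
  .ne 11 17 (.base (.corner 11 7 8 [9, 13] [9, 10, 14])),
  .ne 14 15 (.five 16 13 17 14 12),
  .ne 0 4 (.base (.corner 0 17 13 [9, 8, 7] [16, 12, 8, 7])),
  .ne 0 5 (.base (.corner 7 8 9 [10, 14, 0] [13, 17, 14, 0])),
  .ne 1 6 (.base (.corner 1 10 9 [8, 7, 11] [8, 12, 15, 11])),
  .ne 1 14 (.base (.corner 1 17 13 [9, 10] [16, 12, 15, 11])),
  .ne 1 17 (.base (.corner 1 13 9 [10, 14] [8, 12, 15, 11])),
  .ne 2 4 (.base (.corner 2 17 13 [16, 12, 15] [9, 8, 12, 15])),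
  .ne 2 6 (.base (.corner 2 10 9 [8, 12, 15] [8, 7, 11, 15])),
  .ne 2 14 (.base (.corner 2 17 13 [9, 10] [16, 12, 15])),
  .ne 4 11 (.base (.corner 4 7 8 [12, 15] [9, 10, 14, 17])),
  .ne 5 11 (.base (.corner 5 15 12 [8, 7] [16, 13, 17, 14])),
  .ne 5 15 (.base (.corner 5 11 7 [8, 12] [8, 9, 10, 14])),
  .ne 1 4 (.base (.corner 1 17 13 [16, 12, 15, 11] [9, 8, 7, 11])),
  .ne 1 5 (.base (.corner 14 10 9 [8, 7, 11, 1] [13, 17])),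
  .ne 2 5 (.base (.corner 14 17 13 [16, 12, 15, 2] [9, 10])),
  .cn 0 3 18 (.base (.corner 16 12 8 [7, 0, 18, 3] [9, 13])),
  .cn 1 2 18 (.five 1 11 15 2 18),
  .cn 4 6 18 (.base (.corner 18 4 17 [14, 10, 6] [13, 9, 10, 6])),
  .na 3 4 (.five 16 13 17 4 3)]

theorem C3b_fin : finL C3 [] [(0, 6)] [(0, 3), (1, 2), (4, 6)]
    [(3, 4)] [(16, 13, 17), (1, 11, 15)] C3b_steps = true := by
  decide +kernel

end Pool.Agent.U2Geo
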