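import Mathlib
import Pool.Agent.Work.MP_392c8e_co_uni.GeoNo5
import Pool.Agent.Work.MP_392c8e_co_uni.Fam

/-!
# Good places from patches
-/

namespace Pool.Agent.U2Geo

open Pool.Agent.T1Red Pool.Agent.Uni392

set_option linter.unusedSectionVars false

/-- The place of a patch (no missing labels). -/
def plc {V : Type} (R : Red) (nl : List (ℕ × ℕ)) (ps : List (ℕ × List ℕ × ℕ))
    (co com bad : List (ℕ × ℕ)) (f : ℕ → V) : Place V :=
  ⟨R, nl, ps, [], co, com, bad, f⟩

/-- The two combinatorial conditions on the paths. -/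
structure PsOk (R : Red) (nl : List (ℕ × ℕ)) (ps : List (ℕ × List ℕ × ℕ))
    (co : List (ℕ × ℕ)) : Prop where
  back : ∀ q ∈ ps, ∃ e ∈ R.nw, (q.1 = rho nl e.1 ∧ q.2.2 = rho nl e.2) ∨
    (q.1 = rho nl e.2 ∧ q.2.2 = rho nl e.1)
  dup : ps.Pairwise fun q q' => ¬ ((Same co q.1 q'.1 ∧ Same co q.2.2 q'.2.2) ∨
    (Same co q.1 q'.2.2 ∧ Same co q.2.2 q'.1))

variable {V : Type} {G : SimpleGraph V}

/-- **Good places from patches.** -/
theorem good_of {R : Red} {nl : List (ℕ × ℕ)} {ps : List (ℕ × List ℕ × ℕ)}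
    {co com bad : List (ℕ × ℕ)} {f : ℕ → V} (hE : R.Ext co) (hD : Data R nl ps [] co com bad)
    (hO : PsOk R nl ps co) (hP : Patch G R nl co com bad f) :
    Uni91.Good (plc R nl ps co com bad f) G where
  ok := {
    ext := hE
    data := hD
    inj := hP.inj
    nbr := fun i h1 h2 w hw => by
      obtain ⟨j, hj, hwj⟩ := hP.nbr i h1 h2 w hw
      exact ⟨j, hj, List.not_mem_nil, hwj⟩ }
  adj := fun e he _ _ => hP.adj e he
  hC := hP.hC
  hT := hP.hT
  back := fun q hq => by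
    obtain ⟨e, he, h⟩ := hO.back q hq
    exact ⟨e, he, List.not_mem_nil, List.not_mem_nil, h⟩
  dup := hO.dup

end Pool.Agent.U2Geo
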