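import Mathlib
import Pool.Agent.Work.MP_392c8e_co_uni.GeoGood
import Pool.Agent.Work.MP_392c8e_co_uni.Occ
import Pool.Agent.Work.MP_392c8e_co_t1.Maps2
import Pool.Agent.Work.MP_392c8e_co_t1.Inst.F55

/-!
# Two adjacent faces of length five: the patch F55 in the class C5
-/

namespace Pool.Agent.U2Geo

open Pool.T1Side Pool.Agent.T1Red Pool.Agent.T1FF Pool.Agent.Sub392 Pool.Agent.T392
open Pool.Agent.Disch392

set_option linter.unusedSectionVars false

/-- Certificate. -/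
def F55u_steps : List StepL := [
  .ne 0 1 (.base (.tri 0 9 8)),
  .ne 0 7 (.base (.tri 6 0 8)),
  .ne 0 10 (.base (.tri 8 0 9)),
  .ne 0 13 (.base (.tri 0 6 8)),
  .ne 1 2 (.base (.tri 1 9 10)),
  .ne 1 6 (.base (.tri 1 9 8)),
  .ne 1 7 (.base (.tri 1 9 10)),
  .ne 2 6 (.base (.tri 2 10 7)),
  .ne 2 8 (.base (.tri 2 9 10)),
  .ne 2 11 (.base (.tri 2 10 7)),
  .ne 3 4 (.base (.tri 3 12 11)),
  .ne 3 6 (.base (.tri 7 3 11)),
  .ne 3 10 (.base (.tri 7 3 11)),
  .ne 3 13 (.base (.tri 3 12 11)),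
  .ne 4 5 (.base (.tri 12 4 13)),
  .ne 4 6 (.base (.tri 12 4 13)),
  .ne 4 7 (.base (.tri 11 4 12)),
  .ne 5 7 (.base (.tri 6 5 13)),
  .ne 5 8 (.base (.tri 5 13 6)),
  .ne 5 11 (.base (.tri 5 12 13)),
  .ne 8 11 (.base (.tri 6 8 7)),
  .ne 8 12 (.base (.tri 8 6 13)),
  .ne 9 11 (.base (.tri 7 9 10)),
  .ne 9 13 (.base (.tri 6 9 8)),
  .ne 10 12 (.base (.tri 7 10 11)),
  .ne 10 13 (.base (.tri 6 10 7)),
  .ne 0 2 (.four 0 8 9 10),
  .ne 0 5 (.four 0 8 6 13),
  .ne 0 11 (.four 0 8 6 7),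
  .ne 0 12 (.four 0 8 6 13),
  .ne 1 11 (.four 1 9 10 7),
  .ne 1 13 (.four 1 9 8 6),
  .ne 2 3 (.four 2 10 7 11),
  .ne 2 12 (.four 2 10 7 11),
  .ne 2 13 (.four 2 10 7 6),
  .ne 3 5 (.four 3 11 12 13),
  .ne 3 8 (.four 3 11 7 6),
  .ne 3 9 (.four 3 10 7 11),
  .ne 4 8 (.four 4 12 13 6),
  .ne 4 10 (.four 4 12 11 7),
  .ne 5 9 (.four 5 8 6 13),
  .ne 5 10 (.four 5 13 6 7),
  .ne 9 12 (.four 9 8 6 13),
  .ne 0 3 (.base (.corner 0 8 6 [7, 11] [13, 12, 11])),
  .ne 0 4 (.base (.corner 0 8 6 [13, 12] [7, 11, 12])),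
  .ne 1 3 (.five 1 9 10 7 11),
  .ne 1 5 (.base (.corner 9 8 6 [13, 1] [7, 10])),
  .ne 1 12 (.five 1 9 10 7 11),
  .ne 2 4 (.base (.corner 2 10 7 [11, 12] [6, 13, 12])),
  .ne 2 5 (.base (.corner 2 10 7 [6, 13] [11, 12, 13])),
  .ne 4 9 (.five 13 12 4 8 6),
  .ne 1 4 (.base (.corner 1 9 8 [6, 13, 12] [6, 7, 11, 12])),
  .cn 0 3 14 (.base (.corner 11 7 6 [8, 0, 14, 3] [13, 12])),
  .cn 1 2 14 (.five 1 9 10 2 14),
  .cn 4 5 14 (.five 4 12 13 5 14)]

theorem F55u_fin : finL F55 [] [] [(0, 3), (1, 2), (4, 5)]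
    [] [(1, 9, 10), (4, 12, 13)] F55u_steps = true := by
  decide +kernel

/-- The paths of F55. -/
def F55u_ps : List (ℕ × List ℕ × ℕ) :=
  [(0, [8, 6, 7, 11], 3), (1, [9, 10], 2), (4, [12, 13], 5)]

/-- The pairs of terminals without common neighbours outside. -/
def F55u_com : List (ℕ × ℕ) := [(0, 3), (1, 2), (4, 5)]

theorem F55u_ext : F55.Ext [] := Red.ext_of_check check_F55 (by decide)

theorem F55u_data : Data F55 [] F55u_ps [] [] F55u_com [] := by
  constructor <;> decide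

theorem F55u_psOk : PsOk F55 [] F55u_ps [] := by
  constructor <;> decide

variable {V : Type} [Fintype V] [DecidableEq V] {G : SimpleGraph V} [DecidableRel G.Adj]
  {R : Rot G}

/-- **The patch F55.** The faces of `d` and of `ac d 0` have length five; the faces across the
edges `3` of the two faces (they lose two vertices) have not length five. -/
theorem C5.patch_F55 (h : C5 R) (h13 : 13 ≤ Fintype.card V) {d : G.Dart} (g : sz R d = 5)
    (g' : sz R (ac R d 0) = 5) (k : sz R (ac R d 3) ≠ 5)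
    (k' : sz R (ac R (ac R d 0) 3) ≠ 5) :
    Patch G F55 [] [] F55u_com [] (fA R d) := by
  refine patch_of (h.cls h13) (tabA (h.good g) (h.good g')) (by decide)
    (F := [(1, 9, 10), (4, 12, 13)]) (ts := F55u_steps) ?_ F55u_fin
  intro e he x y
  simp only [List.mem_cons, List.not_mem_nil, or_false] at he
  rcases he with rfl | rfl
  · exact fun h1 => h.no5a d 3 k y x (nb5_reverse h1)
  · exact fun h1 => h.no5a (ac R d 0) 3 k' y x (nb5_reverse h1)

/-- The place F55. -/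
theorem C5.good_F55 (h : C5 R) (h13 : 13 ≤ Fintype.card V) {d : G.Dart} (g : sz R d = 5)
    (g' : sz R (ac R d 0) = 5) (k : sz R (ac R d 3) ≠ 5)
    (k' : sz R (ac R (ac R d 0) 3) ≠ 5) :
    Uni91.Good (plc F55 [] F55u_ps [] F55u_com [] (fA R d)) G :=
  good_of F55u_ext F55u_data F55u_psOk (h.patch_F55 h13 g g' k k')

theorem ac_ad (R : Rot G) (d : G.Dart) (i : ℕ) : ac R d i = ad R d i := by
  unfold ac ad
  rw [Equiv.Perm.iterate_eq_pow]

/-- The place of the line `l2`: the face across the edge `2` of the first face (here of length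
six) loses two vertices, the joint `1 2` of the place.  It is the place F55 of the mirror image. -/
theorem C5.good_l2 (h : C5 R) (h13 : 13 ≤ Fintype.card V) {d : G.Dart} (hn : NoC R d)
    (h5 : sz R d = 5) (h0 : nb R d 0 = 5) (h2 : nb R d 2 = 6) :
    Uni91.Good (plc F55 [] F55u_ps [] F55u_com [] (fA (mir R) d.symm)) G := by
  have h' := mir_C5 h
  have e0 : sz (mir R) (ac (mir R) d.symm 0) = 5 := by
    rw [ac_ad, sz_ad, nb_mir R h5 (by norm_num), Nat.sub_zero]
    have := nb_per R h5 0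
    rw [zero_add] at this
    rw [this, h0]
  have e3 : sz (mir R) (ac (mir R) d.symm 3) ≠ 5 := by
    rw [ac_ad, sz_ad, nb_mir R h5 (by norm_num)]
    show nb R d 2 ≠ 5
    rw [h2]
    norm_num
  refine h'.good_F55 h13 (by rw [sz_mir_symm, h5]) e0 e3 ?_
  have hs : sz R (ad R d 0) = 5 := h0
  have e1 : ac (mir R) d.symm 0 = (ad R d 0).symm := by
    rw [ac_ad]
    rfl
  rw [e1, ac_ad, sz_ad, nb_mir R hs (by norm_num)]
  show nb R (ad R d 0) 2 ≠ 5
  intro hcon
  refine hn (R.next (ad R d 0)) ((((Near.refl R 0 d).symm').next).mono (by norm_num)) ⟨?_, ?_, ?_⟩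
  · rw [sz_next, hs]
  · have := nb_iter R (ad R d 0) 1 1
    rw [Function.iterate_one] at this
    rw [this, hcon]
  · have := nb_iter R (ad R d 0) 1 4
    rw [Function.iterate_one] at this
    rw [this]
    have := nb_per R hs 0
    rw [zero_add] at this
    show nb R (ad R d 0) 5 = 5
    rw [this, nb_ad_zero, h5]

/-- The label `6` of the place is the first end of the dart, the label `7` its second end. -/
theorem fA_mir_six (R : Rot G) (d : G.Dart) : fA (mir R) d.symm 6 = d.fst := by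
  show X (mir R) d.symm 1 = d.fst
  rw [← snd_pow (mir R) d.symm 0]
  rfl

theorem fA_mir_seven (R : Rot G) (d : G.Dart) : fA (mir R) d.symm 7 = d.snd := rfl

end Pool.Agent.U2Geo
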