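import Mathlib
import Pool.Agent.Work.MP_392c8e_co_uni.GeoGood
import Pool.Agent.Work.MP_392c8e_co_uni.Occ
import Pool.Agent.Work.MP_392c8e_co_t1.Maps2
import Pool.Agent.Work.MP_392c8e_co_t1.Inst.F55

/-!
# A face of length five surrounded by faces of length five: the patch in the class C5
-/

namespace Pool.Agent.U2Geo

open Pool.T1Side Pool.Agent.T1Red Pool.Agent.T1FF Pool.Agent.Sub392 Pool.Agent.T392
open Pool.Agent.Disch392

set_option linter.unusedSectionVars false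

/-- Certificate. -/
def Flowu_steps : List StepL := [
  .ne 0 5 (.base (.tri 0 10 15)),
  .ne 0 6 (.base (.tri 11 0 15)),
  .ne 0 16 (.base (.tri 11 0 15)),
  .ne 0 19 (.base (.tri 0 10 15)),
  .ne 1 6 (.base (.tri 1 16 11)),
  .ne 1 7 (.base (.tri 1 12 16)),
  .ne 1 15 (.base (.tri 1 16 11)),
  .ne 1 17 (.base (.tri 1 12 16)),
  .ne 2 7 (.base (.tri 2 12 17)),
  .ne 2 8 (.base (.tri 13 2 17)),
  .ne 2 16 (.base (.tri 12 2 17)),
  .ne 2 18 (.base (.tri 13 2 17)),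
  .ne 3 8 (.base (.tri 13 3 18)),
  .ne 3 9 (.base (.tri 3 14 18)),
  .ne 3 17 (.base (.tri 13 3 18)),
  .ne 3 19 (.base (.tri 14 3 18)),
  .ne 4 5 (.base (.tri 10 4 19)),
  .ne 4 9 (.base (.tri 4 14 19)),
  .ne 4 15 (.base (.tri 4 19 10)),
  .ne 4 18 (.base (.tri 14 4 19)),
  .ne 5 12 (.base (.tri 6 5 7)),
  .ne 5 13 (.base (.tri 8 5 9)),
  .ne 5 16 (.base (.tri 6 5 11)),
  .ne 5 18 (.base (.tri 9 5 14)),
  .ne 6 13 (.base (.tri 7 6 8)),
  .ne 6 14 (.base (.tri 5 6 9)),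
  .ne 6 17 (.base (.tri 7 6 12)),
  .ne 6 19 (.base (.tri 5 6 10)),
  .ne 7 10 (.base (.tri 6 5 7)),
  .ne 7 14 (.base (.tri 7 8 9)),
  .ne 7 15 (.base (.tri 7 6 11)),
  .ne 7 18 (.base (.tri 8 7 13)),
  .ne 8 10 (.base (.tri 5 8 9)),
  .ne 8 11 (.base (.tri 6 8 7)),
  .ne 8 16 (.base (.tri 7 8 12)),
  .ne 8 19 (.base (.tri 9 8 14)),
  .ne 9 11 (.base (.tri 6 5 9)),
  .ne 9 12 (.base (.tri 7 8 9)),
  .ne 9 15 (.base (.tri 9 5 10)),
  .ne 9 17 (.base (.tri 9 8 13)),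
  .ne 10 16 (.base (.tri 11 10 15)),
  .ne 10 18 (.base (.tri 14 10 19)),
  .ne 11 17 (.base (.tri 11 12 16)),
  .ne 11 19 (.base (.tri 11 10 15)),
  .ne 12 15 (.base (.tri 11 12 16)),
  .ne 12 18 (.base (.tri 13 12 17)),
  .ne 13 16 (.base (.tri 13 12 17)),
  .ne 13 19 (.base (.tri 13 14 18)),
  .ne 14 15 (.base (.tri 10 14 19)),
  .ne 14 17 (.base (.tri 13 14 18)),
  .ne 0 1 (.four 0 16 11 15),
  .ne 0 4 (.four 0 19 10 15),
  .ne 0 7 (.four 0 6 11 15),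
  .ne 0 9 (.four 0 5 10 15),
  .ne 0 12 (.four 0 16 11 15),
  .ne 0 14 (.four 0 19 10 15),
  .ne 1 2 (.four 1 16 12 17),
  .ne 1 5 (.four 1 16 11 6),
  .ne 1 8 (.four 1 16 12 7),
  .ne 1 10 (.four 1 16 11 15),
  .ne 1 13 (.four 1 17 12 16),
  .ne 2 3 (.four 2 17 13 18),
  .ne 2 6 (.four 2 17 12 7),
  .ne 2 9 (.four 2 8 13 17),
  .ne 2 11 (.four 2 16 12 17),
  .ne 2 14 (.four 2 17 13 18),
  .ne 3 4 (.four 3 18 14 19),
  .ne 3 5 (.four 3 9 14 18),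
  .ne 3 7 (.four 3 8 13 18),
  .ne 3 10 (.four 3 18 14 19),
  .ne 3 12 (.four 3 17 13 18),
  .ne 4 6 (.four 4 19 10 5),
  .ne 4 8 (.four 4 9 14 19),
  .ne 4 11 (.four 4 19 10 15),
  .ne 4 13 (.four 4 18 14 19),
  .ne 5 17 (.four 5 6 7 12),
  .ne 6 18 (.four 6 5 9 14),
  .ne 7 19 (.four 7 6 5 10),
  .ne 8 15 (.four 8 7 6 11),
  .ne 9 16 (.four 9 5 6 11),
  .ne 10 12 (.four 10 5 6 7),
  .ne 10 13 (.four 10 5 9 8),
  .ne 11 13 (.four 11 6 7 8),
  .ne 11 14 (.four 11 6 5 9),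
  .ne 12 14 (.four 12 7 8 9),
  .ne 15 17 (.four 15 11 16 12),
  .ne 15 18 (.four 15 10 19 14),
  .ne 16 18 (.four 16 12 17 13),
  .ne 16 19 (.four 16 10 15 11),
  .ne 17 19 (.four 17 13 18 14),
  .ne 0 8 (.base (.corner 0 9 5 [10, 15] [6, 11, 15])),
  .ne 0 17 (.base (.corner 12 16 11 [15, 0] [6, 7])),
  .ne 0 18 (.base (.corner 9 14 0 [13, 8] [15, 10, 5])),
  .ne 1 9 (.base (.corner 1 8 13 [18, 14] [17, 12, 16])),
  .ne 1 18 (.base (.corner 1 16 12 [17, 13] [7, 8, 13])),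
  .ne 1 19 (.base (.corner 1 16 11 [15, 10] [6, 5, 10])),
  .ne 2 5 (.base (.corner 2 17 12 [7, 6] [16, 11, 6])),
  .ne 2 15 (.base (.corner 2 17 12 [16, 11] [7, 6, 11])),
  .ne 2 19 (.base (.corner 2 17 13 [18, 14] [8, 9, 14])),
  .ne 3 6 (.base (.corner 3 18 13 [8, 7] [8, 9, 5])),
  .ne 3 15 (.base (.corner 5 10 3 [11, 6] [18, 13, 8, 9])),
  .ne 3 16 (.base (.corner 3 18 13 [17, 12] [8, 7, 12])),
  .ne 4 7 (.base (.corner 4 8 9 [5, 6] [5, 10, 19])),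
  .ne 4 16 (.base (.corner 4 19 10 [15, 11] [5, 6, 11])),
  .ne 4 17 (.base (.corner 4 19 14 [18, 13] [9, 8, 13])),
  .ne 10 17 (.base (.corner 10 5 9 [8, 13] [8, 7, 12])),
  .ne 11 18 (.base (.corner 11 6 5 [9, 14] [9, 8, 13])),
  .ne 12 19 (.base (.corner 12 7 8 [9, 14] [9, 5, 10])),
  .ne 13 15 (.base (.corner 13 8 9 [5, 10] [5, 6, 11])),
  .ne 14 16 (.base (.corner 14 9 8 [13, 18] [13, 17, 12])),
  .ne 0 2 (.base (.corner 0 17 12 [16, 11, 15] [7, 6, 11, 15])),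
  .ne 0 3 (.base (.corner 0 18 14 [19, 10, 15] [9, 5, 10, 15])),
  .ne 0 13 (.base (.corner 0 8 9 [14, 18] [5, 10, 15])),
  .ne 1 3 (.base (.corner 1 16 12 [17, 13, 18] [7, 8, 13, 18])),
  .ne 1 4 (.base (.corner 1 16 11 [15, 10, 19] [6, 5, 10, 19])),
  .ne 1 14 (.base (.corner 1 9 8 [13, 18] [13, 17, 12, 16])),
  .ne 2 4 (.base (.corner 2 17 13 [18, 14, 19] [8, 9, 14, 19])),
  .ne 2 10 (.base (.corner 2 19 14 [9, 5] [9, 8, 13, 17])),
  .ne 3 11 (.base (.corner 3 16 12 [7, 6] [17, 13, 18])),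
  .ne 4 12 (.base (.corner 4 16 11 [6, 7] [6, 5, 10, 19]))]

theorem Flowu_fin : finL Flower [] [] []
    [] [] Flowu_steps = true := by
  decide +kernel

theorem Flowu_ext : Flower.Ext [] := Red.ext_of_check check_Flower (by decide)

theorem Flowu_data : Data Flower [] [] [] [] [] [] := by
  constructor <;> decide

theorem Flowu_psOk : PsOk Flower [] [] [] := by
  constructor <;> decide

variable {V : Type} [Fintype V] [DecidableEq V] {G : SimpleGraph V} [DecidableRel G.Adj]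
  {R : Rot G}

/-- **The patch of the flower.** -/
theorem C5.patch_Flower (h : C5 R) (h13 : 13 ≤ Fintype.card V) {d : G.Dart} (g : sz R d = 5)
    (g' : ∀ i < 5, sz R (ac R d i) = 5) : Patch G Flower [] [] [] [] (ffl R d) :=
  patch_of (h.cls h13) (tabfl (h.good g) fun n hn => h.good (g' n hn)) (by decide)
    (F := []) (ts := Flowu_steps) (fun e he => absurd he (by simp)) Flowu_fin

/-- The place of the line `flower`. -/
theorem C5.good_Flower (h : C5 R) (h13 : 13 ≤ Fintype.card V) {d : G.Dart} (g : sz R d = 5)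
    (g' : ∀ i < 5, nb R d i = 5) :
    Uni91.Good (plc Flower [] [] [] [] [] (ffl R d)) G :=
  good_of Flowu_ext Flowu_data Flowu_psOk (h.patch_Flower h13 g fun i hi => by
    have := g' i hi
    unfold nb at this
    unfold ac
    rwa [← Equiv.Perm.iterate_eq_pow])

/-- The label `5` of the place is the first end of the dart. -/
theorem ffl_five (R : Rot G) (d : G.Dart) : ffl R d 5 = d.fst := rfl

end Pool.Agent.U2Geo
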