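import Mathlib
import Pool.Agent.Work.MP_392c8e_co_uni.GeoEight

/-!
# Closed walks of length nine in cyclically 5-edge-connected cubic plane graphs

A closed walk of length nine through a corner of a shorter one has a chord, or three of its
vertices at distance three have a common neighbour.
-/

namespace Pool.Agent.U2Geo

open Finset Pool.Agent.Sub392 Pool.T1Side Pool.Agent.T392 Pool.Agent.T1FF Pool.Agent.OddFlow

set_option linter.unusedSectionVars false

variable {V : Type} [Fintype V] [DecidableEq V] {G : SimpleGraph V} [DecidableRel G.Adj]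

variable {R : Rot G}

/-- **The left side of a cycle**: if at most four edges leave the cycle to the left, then it is a
face, or it has a chord, or its left side has one or two vertices off the cycle. -/
theorem C5.leftA {l : ℕ} [NeZero l] (hh : C5 R)
    (w : ZMod l → V) (ha : ∀ i, G.Adj (w i) (w (i + 1)))
    (hb : ∀ i, w i ≠ w (i + 2)) (hinj : Function.Injective w) (hl4 : 4 ≤ l)
    (hN : #{i : ZMod l | R.next (ed w ha i) ≠ ed w ha (i + 1)} ≤ 4) :
    (∀ i, R.next (ed w ha i) = ed w ha (i + 1)) ∨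
    (∃ i j, G.Adj (w i) (w j) ∧ j ≠ i + 1 ∧ i ≠ j + 1) ∨
    ∃ A : Finset V, A.Nonempty ∧ #A ≤ 2 ∧ (∀ x ∈ A, ∀ i, x ≠ w i) ∧
      ∀ x ∈ A, ∀ y, G.Adj x y → y ∈ A ∨ ∃ i, y = w i := by
  classical
  set e := ed w ha with he
  have efst : ∀ i, (e i).fst = w i := fun i => rfl
  have esnd : ∀ i, (e i).snd = w (i + 1) := fun i => rfl
  have einj : ∀ i j, e i = e j → i = j := fun i j h => hinj (by
    have := congrArg (fun d : G.Dart => d.fst) h
    exact this)
  have ens : ∀ i j, e i ≠ (e j).symm := by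
    intro i j h
    have h1 : (e i).fst = (e j).symm.fst := by rw [h]
    have h2 : (e i).snd = (e j).symm.snd := by rw [h]
    have h3 : w i = w (j + 1) := h1
    have h4 : w (i + 1) = w j := h2
    have h5 := hinj h3
    subst h5
    exact hb j (by rw [← h4]; congr 1; ring)
  have essy : ∀ i, (e i).symm.symm = e i := fun i => SimpleGraph.Dart.symm_symm _
  -- the flow along the cycle
  set y : G.Dart → ℚ := fun d => ∑ i, ((if d = e i then 1 else 0) - (if d = (e i).symm then 1 else 0))
    with hy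
  have hsymm : ∀ d d' : G.Dart, d.symm = d' ↔ d = d'.symm := by
    intro d d'
    constructor
    · rintro rfl; simp
    · rintro rfl; simp
  obtain ⟨a, hya⟩ := exact_dual R hh.plane (k := ℚ) y (by
    intro d
    rw [hy]
    simp only
    rw [← Finset.sum_neg_distrib]
    refine sum_congr rfl fun i _ => ?_
    simp only [hsymm, essy]
    ring) (by
    intro v
    rw [hy]
    simp only
    rw [sum_comm]
    simp only [sum_sub_distrib]
    rw [sub_eq_zero]
    have h1 : ∀ i, ∑ d : G.Dart with d.fst = v, (if d = e i then (1 : ℚ) else 0) =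
        if w i = v then 1 else 0 := by
      intro i
      rw [Finset.sum_ite_eq']
      simp only [mem_filter, mem_univ, true_and, efst]
    have h2 : ∀ i, ∑ d : G.Dart with d.fst = v, (if d = (e i).symm then (1 : ℚ) else 0) =
        if w (i + 1) = v then 1 else 0 := by
      intro i
      rw [Finset.sum_ite_eq']
      simp only [mem_filter, mem_univ, true_and]
      rfl
    simp only [h1, h2]
    exact (Equiv.sum_comp (Equiv.addRight (1 : ZMod l))
      (fun i => if w i = v then (1 : ℚ) else 0)).symm)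
  have hye : ∀ i, y (e i) = 1 := by
    intro i
    rw [hy]
    simp only
    rw [sum_sub_distrib]
    have h1 : ∀ j, (if e i = (e j).symm then (1 : ℚ) else 0) = 0 := fun j => if_neg (ens i j)
    have h2 : ∀ j, (if e i = e j then (1 : ℚ) else 0) = if i = j then 1 else 0 := by
      intro j
      by_cases hij : i = j
      · rw [if_pos hij, hij, if_pos rfl]
      · rw [if_neg hij, if_neg fun h => hij (einj i j h)]
    simp only [h1, h2, sum_const_zero, sub_zero, sum_ite_eq, mem_univ, if_true]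
  have hy0 : ∀ d : G.Dart, (∀ i, d ≠ e i) → (∀ i, d ≠ (e i).symm) → y d = 0 := by
    intro d h1 h2
    rw [hy]
    simp only
    refine sum_eq_zero fun i _ => ?_
    rw [if_neg (h1 i), if_neg (h2 i), sub_self]
  -- a dart at a vertex of the cycle
  have atv : ∀ i (x : G.Dart), x.fst = w (i + 1) → x ≠ (e i).symm → x ≠ e (i + 1) →
      (∀ j, x ≠ e j) ∧ (∀ j, x ≠ (e j).symm) := by
    intro i x hx h1 h2
    constructor
    · rintro j rfl
      have := hinj (show w j = w (i + 1) from hx)
      subst this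
      exact h2 rfl
    · rintro j rfl
      have := hinj (show w (j + 1) = w (i + 1) from hx)
      have h3 : j = i := add_right_cancel this
      subst h3
      exact h1 rfl
  have aoff : ∀ x : G.Dart, (∀ j, x ≠ e j) → (∀ j, x ≠ (e j).symm) →
      a (R.face x.symm) = a (R.face x) := by
    intro x h1 h2
    have h3 := hya x
    rw [hy0 x h1 h2] at h3
    linarith
  have hPQ : ∀ i, (e i).symm ≠ e (i + 1) := fun i h => ens (i + 1) i h.symm
  -- the third dart
  have thr : ∀ i, R.next (e i) ≠ e (i + 1) →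
      (∀ j, R.next (e i) ≠ e j) ∧ (∀ j, R.next (e i) ≠ (e j).symm) ∧
        R.rot (R.next (e i)) = e (i + 1) := by
    intro i hi
    have hf : (R.next (e i)).fst = w (i + 1) := R.fst_next _
    have hn : R.next (e i) ≠ (e i).symm := hh.geo.next_ne_symm _
    obtain ⟨h1, h2⟩ := atv i _ hf hn hi
    refine ⟨h1, h2, ?_⟩
    set x := R.rot.symm (e (i + 1)) with hx
    have hrx : R.rot x = e (i + 1) := by rw [hx, Equiv.apply_symm_apply]
    have hxf : x.fst = w (i + 1) := by
      have := R.fst_rot x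
      rw [hrx] at this
      exact this.symm
    have hx1 : x ≠ e (i + 1) := by
      intro h
      rw [h] at hrx
      exact hh.geo.rot_ne _ hrx
    have hx2 : x ≠ (e i).symm := by
      intro h
      rw [h] at hrx
      exact hi hrx
    have h3 : x = R.next (e i) := third_unique hh.geo.deg3 (hPQ i) rfl hxf hf hx2 hx1 hn hi
    rw [← h3, hrx]
  have aconst : ∀ i, a (R.face (e i)) = a (R.face (e (i + 1))) := by
    intro i
    by_cases hi : R.next (e i) = e (i + 1)
    · rw [← hi, R.face_next]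
    · obtain ⟨h1, h2, h3⟩ := thr i hi
      rw [← h3, R.face_rot, aoff _ h1 h2, R.face_next]
  set α := a (R.face (e 0)) with hα
  have hL : ∀ i, a (R.face (e i)) = α :=
    zind _ rfl fun i hi => by rw [← aconst i]; exact hi
  have hR : ∀ i, a (R.face (e i).symm) = α - 1 := by
    intro i
    have := hya (e i)
    rw [hye, hL] at this
    linarith
  -- the darts on the left
  set DL : Finset G.Dart := univ.filter fun d => a (R.face d) = α with hDL
  have mDL : ∀ d, d ∈ DL ↔ a (R.face d) = α := fun d => by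
    rw [hDL, mem_filter]
    exact and_iff_right (mem_univ _)
  have offC : ∀ x : G.Dart, (∀ i, x.fst ≠ w i) → (∀ j, x ≠ e j) ∧ (∀ j, x ≠ (e j).symm) :=
    fun x hx => ⟨fun j h => hx j (by rw [h, efst]), fun j h => hx (j + 1) (by rw [h]; rfl)⟩
  set A : Finset V := univ.filter fun x => (∀ i, x ≠ w i) ∧ ∃ d : G.Dart, d.fst = x ∧ d ∈ DL with hA
  have mA : ∀ x, x ∈ A ↔ (∀ i, x ≠ w i) ∧ ∃ d : G.Dart, d.fst = x ∧ d ∈ DL := fun x => by
    rw [hA, mem_filter]
    exact and_iff_right (mem_univ _)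
  -- all darts at a vertex of `A` are on the left
  have hAall : ∀ d : G.Dart, d.fst ∈ A → d ∈ DL := by
    intro d hd
    rw [mA] at hd
    obtain ⟨h1, d', h2, h3⟩ := hd
    have h4 := R.cyc d' d h2
    have h5 := sameCycle_inv (f := R.rot)
      (h := fun x : G.Dart => if (∀ i, x.fst ≠ w i) then a (R.face x) else 0) (by
        intro x
        simp only [R.fst_rot]
        by_cases hx : ∀ i, x.fst ≠ w i
        · rw [if_pos hx, if_pos hx, R.face_rot]
          obtain ⟨h6, h7⟩ := offC x hx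
          exact aoff x h6 h7
        · rw [if_neg hx, if_neg hx]) h4
    simp only [h2] at h5
    rw [if_pos h1, if_pos h1] at h5
    rw [mDL, ← h5]
    exact (mDL d').1 h3
  -- the inner darts at the cycle
  set I : Finset G.Dart := DL.filter fun d => (∃ i, d.fst = w i) ∧ ∀ i, d ≠ e i with hI
  have mI : ∀ d, d ∈ I ↔ d ∈ DL ∧ (∃ i, d.fst = w i) ∧ ∀ i, d ≠ e i := fun d => by
    rw [hI, mem_filter]
  have Ins : ∀ d ∈ I, ∀ i, d ≠ (e i).symm := by
    intro d hd i h
    rw [mI, mDL] at hd
    have h1 := hd.1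
    rw [h, hR] at h1
    linarith
  have Isy : ∀ d ∈ I, d.symm ∈ DL := by
    intro d hd
    have h1 := Ins d hd
    rw [mI] at hd
    rw [mDL, aoff d hd.2.2 h1]
    exact (mDL d).1 hd.1
  have Isn : ∀ d ∈ I, d.snd ∉ A → d.symm ∈ I := by
    intro d hd hA'
    have h0 := Isy d hd
    have h1 := Ins d hd
    rw [mI] at hd ⊢
    refine ⟨h0, ?_, fun i h => ?_⟩
    · by_contra hcon
      push Not at hcon
      exact hA' ((mA _).2 ⟨hcon, d.symm, rfl, h0⟩)
    · exact h1 i ((hsymm _ _).1 h)
  have hIN : I ⊆ (univ.filter fun i : ZMod l => R.next (e i) ≠ e (i + 1)).image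
      fun i => R.next (e i) := by
    intro d hd
    have hs := Ins d hd
    rw [mI] at hd
    obtain ⟨hdL, ⟨j, hj⟩, hne⟩ := hd
    have hj' : d.fst = w ((j - 1) + 1) := by rw [hj]; congr 1; ring
    set i := j - 1 with hi
    have hn : R.next (e i) ≠ (e i).symm := hh.geo.next_ne_symm _
    have hc : R.next (e i) ≠ e (i + 1) := by
      intro h
      -- then the third dart is on the right
      set x := R.rot.symm d with hx
      have hrx : R.rot x = d := by rw [hx, Equiv.apply_symm_apply]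
      have hxf : x.fst = w (i + 1) := by
        have := R.fst_rot x
        rw [hrx] at this
        rw [← this]; exact hj'
      have hx1 : x ≠ (e i).symm := by
        intro h2
        rw [h2] at hrx
        exact hne (i + 1) (hrx.symm.trans h)
      have hx2 : x ≠ d := by
        intro h2
        rw [h2] at hrx
        exact hh.geo.rot_ne _ hrx
      have hx3 : x = e (i + 1) := by
        by_contra hx3
        exact hx2 (third_unique hh.geo.deg3 (hPQ i) rfl hxf hj' hx1 hx3 (hs i) (hne (i + 1)))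
      have h2 : R.face d = R.face (e (i + 1)).symm := by
        rw [← hrx, hx3, R.face_rot]
      have h3 := (mDL d).1 hdL
      rw [h2, hR] at h3
      linarith
    rw [mem_image]
    refine ⟨i, by simpa using hc, ?_⟩
    exact (third_unique hh.geo.deg3 (hPQ i) rfl (R.fst_next _) hj' hn hc (hs i) (hne (i + 1)))
  have hI3 : #I ≤ 4 := ((card_le_card hIN).trans card_image_le).trans hN
  -- the two kinds of inner darts
  set IA := I.filter fun d => d.snd ∈ A with hIA
  set IC := I.filter fun d => d.snd ∉ A with hIC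
  have hsplit : #IA + #IC = #I := by
    rw [hIA, hIC]
    exact card_filter_add_card_filter_not (s := I) (fun d => d.snd ∈ A)
  have hAC : ∀ d : G.Dart, d.fst ∈ A → ∀ i, d.fst ≠ w i := fun d hd i h =>
    ((mA _).1 hd).1 i h
  have hout : #{d : G.Dart | d.fst ∈ A ∧ d.snd ∉ A} = #IA := by
    refine Finset.card_bij (fun d _ => d.symm) ?_ ?_ ?_
    · intro d hd
      simp only [mem_filter, mem_univ, true_and] at hd
      rw [hIA, mem_filter, mI]
      have h1 : d ∈ DL := hAall d hd.1
      obtain ⟨h2, h3⟩ := offC d (hAC d hd.1)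
      have h4 : d.symm ∈ DL := by
        rw [mDL, aoff d h2 h3]
        exact (mDL d).1 h1
      refine ⟨⟨h4, ?_, fun i h => h3 i ((hsymm _ _).1 h)⟩, hd.1⟩
      by_contra hcon
      push Not at hcon
      exact hd.2 ((mA _).2 ⟨hcon, d.symm, rfl, h4⟩)
    · intro d _ d' _ h
      have := congrArg SimpleGraph.Dart.symm h
      simpa using this
    · intro d hd
      rw [hIA, mem_filter] at hd
      refine ⟨d.symm, ?_, by simp⟩
      simp only [mem_filter, mem_univ, true_and]
      refine ⟨hd.2, fun h => ?_⟩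
      have h1 := ((mI d).1 hd.1).2.1
      obtain ⟨i, hi⟩ := h1
      exact ((mA _).1 h).1 i hi

  by_cases hA0 : A = ∅
  · -- nothing inside
    by_cases hfac : ∀ i, R.next (e i) = e (i + 1)
    · exact Or.inl hfac
    right; left
    push Not at hfac
    obtain ⟨i, hi⟩ := hfac
    obtain ⟨h3, h4, -⟩ := thr i hi
    have h5 : R.next (e i) ∈ I := by
      rw [mI, mDL, R.face_next]
      exact ⟨hL i, ⟨i + 1, R.fst_next _⟩, h3⟩
    have h6 := Isn _ h5 (by rw [hA0]; exact notMem_empty _)
    obtain ⟨j, hj⟩ := ((mI _).1 h6).2.1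
    have h7 : (R.next (e i)).fst = w (i + 1) := R.fst_next _
    have h8 : (R.next (e i)).snd = w j := hj
    refine ⟨i + 1, j, ?_, ?_, ?_⟩
    · rw [← h7, ← h8]
      exact (R.next (e i)).adj
    · rintro rfl
      exact h3 (i + 1) (SimpleGraph.Dart.ext _ _ (Prod.ext h7 h8))
    · intro h9
      have h10 : i = j := add_right_cancel h9
      subst h10
      exact h4 i (SimpleGraph.Dart.ext _ _ (Prod.ext h7 h8))
  · have hoA : out G A ≤ 4 := by
      rw [out, hout]
      exact (Nat.le_add_right _ _).trans (hsplit.le.trans hI3)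
    have hA2 : #A ≤ 2 := by
      rcases hh.cut A hoA with h1 | h1
      · exact h1
      · exfalso
        have h2 : univ.image w ⊆ Aᶜ := by
          intro x hx
          rw [mem_image] at hx
          obtain ⟨i, -, rfl⟩ := hx
          rw [mem_compl]
          exact fun h3 => ((mA _).1 h3).1 i rfl
        have h3 := card_le_card h2
        rw [card_image_of_injective _ hinj, card_univ, ZMod.card] at h3
        omega
    refine Or.inr (Or.inr ⟨A, nonempty_iff_ne_empty.2 hA0, hA2, fun x hx => ((mA x).1 hx).1, ?_⟩)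
    intro x hx y hxy
    by_contra hcon
    push Not at hcon
    set d : G.Dart := ⟨(x, y), hxy⟩ with hd
    have h1 : d ∈ DL := hAall d hx
    obtain ⟨h2, h3⟩ := offC d (hAC d hx)
    have h4 : d.symm ∈ DL := by
      rw [mDL, aoff d h2 h3]
      exact (mDL d).1 h1
    exact hcon.1 ((mA _).2 ⟨hcon.2, d.symm, rfl, h4⟩)

/-- Closed walks of length nine have no repeated vertices. -/
theorem C5.dist9 (h : C5 R) (w : ZMod 9 → V) (ha : ∀ i, G.Adj (w i) (w (i + 1)))
    (hb : ∀ i, w i ≠ w (i + 2)) : Function.Injective w ∧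
      (∀ i, ¬ G.Adj (w i) (w (i + 2))) ∧ (∀ i, ¬ G.Adj (w i) (w (i + 3))) := by
  have h1 : ∀ i, w i ≠ w (i + 1) := fun i => (ha i).ne
  have a2 : ∀ i, G.Adj (w (i + 1)) (w (i + 2)) := by
    intro i
    have := ha (i + 1)
    rwa [add_assoc, show (1 + 1 : ZMod 9) = 2 by decide] at this
  have a3 : ∀ i, G.Adj (w (i + 2)) (w (i + 3)) := by
    intro i
    have := ha (i + 2)
    rwa [add_assoc, show (2 + 1 : ZMod 9) = 3 by decide] at this
  have a4 : ∀ i, G.Adj (w (i + 3)) (w (i + 4)) := by
    intro i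
    have := ha (i + 3)
    rwa [add_assoc, show (3 + 1 : ZMod 9) = 4 by decide] at this
  have b1 : ∀ i, w (i + 1) ≠ w (i + 3) := by
    intro i
    have := hb (i + 1)
    rwa [add_assoc, show (1 + 2 : ZMod 9) = 3 by decide] at this
  have h3 : ∀ i, w i ≠ w (i + 3) := by
    intro i hi
    have := a3 i
    rw [← hi] at this
    exact no_tri h.tri (ha i) (a2 i) this.symm
  have h4 : ∀ i, w i ≠ w (i + 4) := by
    intro i hi
    have := a4 i
    rw [← hi] at this
    exact h.no_four (ha i) (a2 i) (a3 i) this (hb i) (b1 i)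
  refine ⟨?_, fun i hi => no_tri h.tri (ha i) (a2 i) hi, fun i hi =>
    h.no_four (ha i) (a2 i) (a3 i) hi.symm (hb i) (b1 i)⟩
  intro i j hij
  by_contra hne
  obtain ⟨k, rfl⟩ : ∃ k, j = i + k := ⟨j - i, by ring⟩
  have key : ∀ k : ZMod 9, k = 0 ∨ k = 1 ∨ k = 2 ∨ k = 3 ∨ k = 4 ∨ k = -4 ∨ k = -3 ∨ k = -2 ∨
    k = -1 := by decide
  rcases key k with rfl | rfl | rfl | rfl | rfl | rfl | rfl | rfl | rfl
  · exact hne (by ring)
  · exact h1 _ hij
  · exact hb _ hij
  · exact h3 _ hij
  · exact h4 _ hij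
  · refine h4 (i + -4) ?_
    rw [← hij]; congr 1; ring
  · refine h3 (i + -3) ?_
    rw [← hij]; congr 1; ring
  · refine hb (i + -2) ?_
    rw [← hij]; congr 1; ring
  · refine h1 (i + -1) ?_
    rw [← hij]; congr 1; ring

/-- A chord of a closed walk of length nine joins vertices at distance four. -/
theorem C5.chord9 (h : C5 R) (w : ZMod 9 → V) (ha : ∀ i, G.Adj (w i) (w (i + 1)))
    (hb : ∀ i, w i ≠ w (i + 2)) {i j : ZMod 9} (hij : G.Adj (w i) (w j)) (h1 : j ≠ i + 1)
    (h2 : i ≠ j + 1) : ∃ i, G.Adj (w i) (w (i + 4)) := by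
  obtain ⟨-, t2, t3⟩ := h.dist9 w ha hb
  obtain ⟨k, rfl⟩ : ∃ k, j = i + k := ⟨j - i, by ring⟩
  have key : ∀ k : ZMod 9, k = 0 ∨ k = 1 ∨ k = 2 ∨ k = 3 ∨ k = 4 ∨ k = -4 ∨ k = -3 ∨ k = -2 ∨
    k = -1 := by decide
  rcases key k with rfl | rfl | rfl | rfl | rfl | rfl | rfl | rfl | rfl
  · rw [add_zero] at hij
    exact absurd rfl hij.ne
  · exact absurd rfl h1
  · exact absurd hij (t2 i)
  · exact absurd hij (t3 i)
  · exact ⟨i, hij⟩
  · refine ⟨i + -4, ?_⟩
    have := hij.symm
    rwa [show i + -4 + 4 = i by ring]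
  · exfalso
    refine t3 (i + -3) ?_
    have := hij.symm
    rwa [show i + -3 + 3 = i by ring]
  · exfalso
    refine t2 (i + -2) ?_
    have := hij.symm
    rwa [show i + -2 + 2 = i by ring]
  · exfalso
    exact h2 (by ring)

set_option synthInstance.maxSize 200000 in
set_option synthInstance.maxHeartbeats 400000 in
theorem zmod9_pair : ∀ p q r : ZMod 9, p ≠ 0 → r - q ≠ 0 →
    (p ≠ 1 ∧ p ≠ -1 ∧ p ≠ 2 ∧ p ≠ -2) →
    (r - q ≠ 1 ∧ r - q ≠ -1 ∧ r - q ≠ 2 ∧ r - q ≠ -2) →
    (q ≠ 0 ∧ q ≠ 1 ∧ q ≠ -1) → (r ≠ 0 ∧ r ≠ 1 ∧ r ≠ -1) →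
    (q - p ≠ 0 ∧ q - p ≠ 1 ∧ q - p ≠ -1) → (r - p ≠ 0 ∧ r - p ≠ 1 ∧ r - p ≠ -1) →
    ((q = 2 ∨ q = 3 ∨ q = -2 ∨ q = -3) ∧ (r = 2 ∨ r = 3 ∨ r = -2 ∨ r = -3)) ∨
    ((q - p = 2 ∨ q - p = 3 ∨ q - p = -2 ∨ q - p = -3) ∧
      (r - p = 2 ∨ r - p = 3 ∨ r - p = -2 ∨ r - p = -3)) := by
  decide +kernel

theorem zmod9_star : ∀ p q : ZMod 9, p ≠ 0 → q ≠ 0 → q - p ≠ 0 →
    (p ≠ 1 ∧ p ≠ -1 ∧ p ≠ 2 ∧ p ≠ -2) → (q ≠ 1 ∧ q ≠ -1 ∧ q ≠ 2 ∧ q ≠ -2) →
    (q - p ≠ 1 ∧ q - p ≠ -1 ∧ q - p ≠ 2 ∧ q - p ≠ -2) →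
    (p = 3 ∧ q = 6) ∨ (p = 6 ∧ q = 3) := by
  decide +kernel

/-- A short closed walk through an edge off the cycle. -/
theorem C5.arc9 (h : C5 R) (w : ZMod 9 → V) (ha : ∀ i, G.Adj (w i) (w (i + 1)))
    (hb : ∀ i, w i ≠ w (i + 2)) {x y : V} (hx : ∀ i, x ≠ w i) (hy : ∀ i, y ≠ w i)
    (hxy : G.Adj x y) {p c : ZMod 9} (hp : G.Adj x (w p)) (hc : G.Adj y (w c))
    (hpc : c - p = 2 ∨ c - p = 3 ∨ c - p = -2 ∨ c - p = -3) :
    ∃ l : List V, l.length ≤ 3 ∧ NB G (w p :: x :: y :: w c :: l) := by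
  have hinj := (h.dist9 w ha hb).1
  have hadj : ∀ {i j : ZMod 9}, j = i + 1 → G.Adj (w i) (w j) := by
    rintro i j rfl
    exact ha i
  have hne : ∀ {i j : ZMod 9}, i ≠ j → w i ≠ w j := fun hij hw => hij (hinj hw)
  rcases hpc with h1 | h1 | h1 | h1
  · obtain rfl : c = p + 2 := by rw [← h1]; ring
    refine ⟨[w (p + 1)], by simp, hp.symm, (hy p).symm, hxy, hx _, hc, hy _,
      (hadj (by ring)).symm, hne ?_, (hadj rfl).symm, (hx _).symm, trivial⟩
    intro h2
    have h3 : p + 2 = p + 0 := by rw [add_zero]; exact h2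
    exact absurd (add_left_cancel h3) (by decide)
  · obtain rfl : c = p + 3 := by rw [← h1]; ring
    refine ⟨[w (p + 2), w (p + 1)], by simp, hp.symm, (hy p).symm, hxy, hx _, hc, hy _,
      (hadj (by ring)).symm, hne ?_, (hadj (by ring)).symm, hne ?_, (hadj rfl).symm,
      (hx _).symm, trivial⟩
    · intro h2
      exact absurd (add_left_cancel h2) (by decide)
    · intro h2
      have h3 : p + 2 = p + 0 := by rw [add_zero]; exact h2
      exact absurd (add_left_cancel h3) (by decide)
  · obtain rfl : c = p + -2 := by rw [← h1]; ring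
    refine ⟨[w (p + -1)], by simp, hp.symm, (hy p).symm, hxy, hx _, hc, hy _,
      hadj (by ring), hne ?_, hadj (by ring), (hx _).symm, trivial⟩
    intro h2
    have h3 : p + -2 = p + 0 := by rw [add_zero]; exact h2
    exact absurd (add_left_cancel h3) (by decide)
  · obtain rfl : c = p + -3 := by rw [← h1]; ring
    refine ⟨[w (p + -2), w (p + -1)], by simp, hp.symm, (hy p).symm, hxy, hx _, hc, hy _,
      hadj (by ring), hne ?_, hadj (by ring), hne ?_, hadj (by ring),
      (hx _).symm, trivial⟩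
    · intro h2
      exact absurd (add_left_cancel h2) (by decide)
    · intro h2
      have h3 : p + -2 = p + 0 := by rw [add_zero]; exact h2
      exact absurd (add_left_cancel h3) (by decide)

/-- One or two vertices on one side of a closed walk of length nine: three vertices of the walk
at distance three have a common neighbour. -/
theorem C5.star9 (h : C5 R) (w : ZMod 9 → V) (ha : ∀ i, G.Adj (w i) (w (i + 1)))
    (hb : ∀ i, w i ≠ w (i + 2)) {A : Finset V} (hA : A.Nonempty) (hA2 : #A ≤ 2)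
    (hoff : ∀ x ∈ A, ∀ i, x ≠ w i) (hnb : ∀ x ∈ A, ∀ y, G.Adj x y → y ∈ A ∨ ∃ i, y = w i) :
    ∃ x, (∀ i, x ≠ w i) ∧ ∃ i, G.Adj x (w i) ∧ G.Adj x (w (i + 3)) ∧ G.Adj x (w (i + 6)) := by
  classical
  obtain ⟨hinj, -, -⟩ := h.dist9 w ha hb
  -- two neighbours on the cycle
  have two : ∀ x ∈ A, ∀ i j, G.Adj x (w i) → G.Adj x (w j) → i ≠ j →
      j - i ≠ 1 ∧ j - i ≠ -1 ∧ j - i ≠ 2 ∧ j - i ≠ -2 := by
    intro x hx i j hi hj _
    refine ⟨?_, ?_, ?_, ?_⟩
    · intro h1
      obtain rfl : j = i + 1 := by rw [← h1]; ring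
      exact no_tri h.tri hi (ha i) hj
    · intro h1
      obtain rfl : i = j + 1 := by rw [← sub_eq_iff_eq_add', ← neg_sub, h1, neg_neg]
      exact no_tri h.tri hj (ha j) hi
    · intro h1
      obtain rfl : j = i + 2 := by rw [← h1]; ring
      have a2 := ha (i + 1)
      rw [add_assoc, show (1 + 1 : ZMod 9) = 2 by decide] at a2
      exact h.no_four hi (ha i) a2 hj.symm (hoff x hx _) (hb i)
    · intro h1
      obtain rfl : i = j + 2 := by rw [← sub_eq_iff_eq_add', ← neg_sub, h1, neg_neg]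
      have a2 := ha (j + 1)
      rw [add_assoc, show (1 + 1 : ZMod 9) = 2 by decide] at a2
      exact h.no_four hj (ha j) a2 hi.symm (hoff x hx _) (hb j)
  -- neighbours of two adjacent vertices
  have cross : ∀ x ∈ A, ∀ y ∈ A, G.Adj x y → ∀ i j, G.Adj x (w i) → G.Adj y (w j) →
      j - i ≠ 0 ∧ j - i ≠ 1 ∧ j - i ≠ -1 := by
    intro x hx y hy hxy i j hi hj
    refine ⟨?_, ?_, ?_⟩
    · intro h1
      obtain rfl : j = i := sub_eq_zero.1 h1
      exact no_tri h.tri hxy hj hi
    · intro h1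
      obtain rfl : j = i + 1 := by rw [← h1]; ring
      exact h.no_four hxy hj (ha i).symm hi.symm (hoff x hx _) (hoff y hy _)
    · intro h1
      obtain rfl : i = j + 1 := by rw [← sub_eq_iff_eq_add', ← neg_sub, h1, neg_neg]
      exact h.no_four hxy hj (ha j) hi.symm (hoff x hx _) (hoff y hy _)
  have nbs : ∀ x, ∃ a b c, a ≠ b ∧ a ≠ c ∧ b ≠ c ∧ G.Adj x a ∧ G.Adj x b ∧ G.Adj x c := by
    intro x
    have h1 : #(G.neighborFinset x) = 3 := by rw [G.card_neighborFinset_eq_degree]; exact h.cub x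
    obtain ⟨a, b, c, h2, h3, h4, h5⟩ := card_eq_three.1 h1
    refine ⟨a, b, c, h2, h3, h4, ?_, ?_, ?_⟩
    · rw [← G.mem_neighborFinset, h5]; simp
    · rw [← G.mem_neighborFinset, h5]; simp
    · rw [← G.mem_neighborFinset, h5]; simp
  obtain ⟨x, hx⟩ := hA
  by_cases hin : ∃ y ∈ A, G.Adj x y
  · exfalso
    obtain ⟨y, hy, hxy⟩ := hin
    have hxy' : x ≠ y := hxy.ne
    have hAeq : ∀ z ∈ A, z = x ∨ z = y := by
      intro z hz
      by_contra hcon
      push Not at hcon
      have h1 : #({x, y, z} : Finset V) = 3 := by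
        rw [card_insert_of_notMem, card_pair hcon.2.symm]
        simp [hxy', hcon.1.symm]
      have h2 : ({x, y, z} : Finset V) ⊆ A := by
        intro u hu
        simp only [mem_insert, mem_singleton] at hu
        rcases hu with rfl | rfl | rfl
        · exact hx
        · exact hy
        · exact hz
      have := card_le_card h2
      omega
    -- two neighbours on the cycle of each
    have pair : ∀ u ∈ A, ∀ v ∈ A, G.Adj u v → (∀ z ∈ A, z = u ∨ z = v) →
        ∃ i j, i ≠ j ∧ G.Adj u (w i) ∧ G.Adj u (w j) := by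
      intro u hu v hv huv huv'
      obtain ⟨a, b, c, n1, n2, n3, m1, m2, m3⟩ := nbs u
      have key : ∀ z, G.Adj u z → z = v ∨ ∃ i, z = w i := by
        intro z hz
        rcases hnb u hu z hz with h1 | h1
        · rcases huv' z h1 with h2 | h2
          · exact absurd h2 hz.ne'
          · exact Or.inl h2
        · exact Or.inr h1
      rcases key a m1 with h1 | ⟨i, rfl⟩
      · rcases key b m2 with h2 | ⟨j, rfl⟩
        · exact absurd (h1.trans h2.symm) n1
        · rcases key c m3 with h3 | ⟨k, rfl⟩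
          · exact absurd (h1.trans h3.symm) n2
          · exact ⟨j, k, fun h => n3 (by rw [h]), m2, m3⟩
      · rcases key b m2 with h2 | ⟨j, rfl⟩
        · rcases key c m3 with h3 | ⟨k, rfl⟩
          · exact absurd (h2.trans h3.symm) n3
          · exact ⟨i, k, fun h => n2 (by rw [h]), m1, m3⟩
        · exact ⟨i, j, fun h => n1 (by rw [h]), m1, m2⟩
    obtain ⟨a, b, hab, xa, xb⟩ := pair x hx y hy hxy hAeq
    obtain ⟨c, d, hcd, yc, yd⟩ := pair y hy x hx hxy.symm (fun z hz => (hAeq z hz).symm)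
    have t1 := two x hx a b xa xb hab
    have t2 := two y hy c d yc yd hcd
    have c1 := cross x hx y hy hxy a c xa yc
    have c2 := cross x hx y hy hxy a d xa yd
    have c3 := cross x hx y hy hxy b c xb yc
    have c4 := cross x hx y hy hxy b d xb yd
    have e1 : d - a - (c - a) = d - c := by ring
    have e2 : c - a - (b - a) = c - b := by ring
    have e3 : d - a - (b - a) = d - b := by ring
    have h1 := zmod9_pair (b - a) (c - a) (d - a) (sub_ne_zero.2 hab.symm)
      (by rw [e1]; exact sub_ne_zero.2 hcd.symm) t1 (by rw [e1]; exact t2) c1 c2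
      (by rw [e2]; exact c3) (by rw [e3]; exact c4)
    rw [e2, e3] at h1
    -- two short closed walks through the same corner
    have fin : ∀ p, G.Adj x (w p) → (c - p = 2 ∨ c - p = 3 ∨ c - p = -2 ∨ c - p = -3) →
        (d - p = 2 ∨ d - p = 3 ∨ d - p = -2 ∨ d - p = -3) → False := by
      intro p hp h2 h3
      obtain ⟨l, k1, k2⟩ := h.arc9 w ha hb (hoff x hx) (hoff y hy) hxy hp yc h2
      obtain ⟨l', k3, k4⟩ := h.arc9 w ha hb (hoff x hx) (hoff y hy) hxy hp yd h3
      have h4 := h.rules.corner _ _ _ _ _ k2 k4 (by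
        simp only [AA, List.length_cons, Bool.and_eq_true, Nat.ble_eq]
        omega)
      rw [List.cons.injEq] at h4
      exact hcd (hinj h4.1)
    rcases h1 with ⟨h2, h3⟩ | ⟨h2, h3⟩
    · exact fin a xa h2 h3
    · exact fin b xb h2 h3
  · push Not at hin
    refine ⟨x, hoff x hx, ?_⟩
    obtain ⟨a, b, c, n1, n2, n3, m1, m2, m3⟩ := nbs x
    have key : ∀ z, G.Adj x z → ∃ i, z = w i := by
      intro z hz
      rcases hnb x hx z hz with h1 | h1
      · exact absurd hz (hin z h1)
      · exact h1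
    obtain ⟨i, rfl⟩ := key a m1
    obtain ⟨j, rfl⟩ := key b m2
    obtain ⟨k, rfl⟩ := key c m3
    have hij : i ≠ j := fun h => n1 (by rw [h])
    have hik : i ≠ k := fun h => n2 (by rw [h])
    have hjk : j ≠ k := fun h => n3 (by rw [h])
    have t1 := two x hx i j m1 m2 hij
    have t2 := two x hx i k m1 m3 hik
    have t3 := two x hx j k m2 m3 hjk
    have e1 : k - i - (j - i) = k - j := by ring
    rcases zmod9_star (j - i) (k - i) (sub_ne_zero.2 hij.symm) (sub_ne_zero.2 hik.symm)
      (by rw [e1]; exact sub_ne_zero.2 hjk.symm) t1 t2 (by rw [e1]; exact t3) with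
      ⟨h1, h2⟩ | ⟨h1, h2⟩
    · obtain rfl : j = i + 3 := by rw [← h1]; ring
      obtain rfl : k = i + 6 := by rw [← h2]; ring
      exact ⟨i, m1, m2, m3⟩
    · obtain rfl : j = i + 6 := by rw [← h1]; ring
      obtain rfl : k = i + 3 := by rw [← h2]; ring
      exact ⟨i, m1, m3, m2⟩

/-- **The two sides of a closed walk of length nine.** -/
theorem C5.sides9 (h : C5 R) (w : ZMod 9 → V)
    (ha : ∀ i, G.Adj (w i) (w (i + 1))) (hb : ∀ i, w i ≠ w (i + 2)) :
    (∀ i, R.next (ed w ha i) = ed w ha (i + 1)) ∨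
      (∀ i, R.rot (ed w ha (i + 1)) = (ed w ha i).symm) ∨ (∃ i, G.Adj (w i) (w (i + 4))) ∨
      ∃ x, (∀ i, x ≠ w i) ∧ ∃ i, G.Adj x (w i) ∧ G.Adj x (w (i + 3)) ∧ G.Adj x (w (i + 6)) := by
  classical
  have g := h.geo
  have hinj := (h.dist9 w ha hb).1
  -- the reversed walk
  set w' : ZMod 9 → V := fun i => w (-i) with hw'
  have ha' : ∀ i, G.Adj (w' i) (w' (i + 1)) := by
    intro i
    have h1 := ha (-(i + 1))
    rw [show -(i + 1) + 1 = -i by ring] at h1
    exact h1.symm
  have hb' : ∀ i, w' i ≠ w' (i + 2) := by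
    intro i h
    have h1 := hb (-(i + 2))
    rw [show -(i + 2) + 2 = -i by ring] at h1
    exact h1 h.symm
  have hinj' : Function.Injective w' := fun i j h => neg_injective (hinj h)
  have hed : ∀ i, ed w' ha' (-(i + 2)) = (ed w ha (i + 1)).symm := by
    intro i
    refine SimpleGraph.Dart.ext _ _ (Prod.ext ?_ ?_)
    · show w (- -(i + 2)) = w (i + 1 + 1)
      congr 1
      ring
    · show w (-(-(i + 2) + 1)) = w (i + 1)
      congr 1
      ring
  have hed2 : ∀ i, ed w' ha' (-(i + 2) + 1) = (ed w ha i).symm := by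
    intro i
    refine SimpleGraph.Dart.ext _ _ (Prod.ext ?_ ?_)
    · show w (-(-(i + 2) + 1)) = w (i + 1)
      congr 1
      ring
    · show w (-(-(i + 2) + 1 + 1)) = w i
      congr 1
      ring
  have hPQ : ∀ i, (ed w ha i).symm ≠ ed w ha (i + 1) := by
    intro i h
    have h1 : (ed w ha i).symm.snd = (ed w ha (i + 1)).snd := by rw [h]
    have h2 : w i = w (i + 1 + 1) := h1
    exact hb i (by rw [h2]; congr 1; ring)
  have hcount : #{i : ZMod 9 | R.next (ed w ha i) ≠ ed w ha (i + 1)} +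
      #{i : ZMod 9 | R.next (ed w' ha' i) ≠ ed w' ha' (i + 1)} ≤ 9 := by
    have h1 : #{i : ZMod 9 | R.next (ed w' ha' i) ≠ ed w' ha' (i + 1)} =
        #{i : ZMod 9 | R.rot (ed w ha (i + 1)) ≠ (ed w ha i).symm} := by
      symm
      refine Finset.card_bij (fun i _ => -(i + 2)) ?_ ?_ ?_
      · intro i hi
        simp only [mem_filter, mem_univ, true_and] at hi ⊢
        rw [hed, hed2, next_eq, SimpleGraph.Dart.symm_symm]
        exact hi
      · intro i _ j _ h
        have := neg_injective h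
        exact add_right_cancel this
      · intro j hj
        refine ⟨-j - 2, ?_, by ring⟩
        simp only [mem_filter, mem_univ, true_and] at hj ⊢
        have e1 := hed (-j - 2)
        have e2 := hed2 (-j - 2)
        rw [show -(-j - 2 + 2) = j by ring] at e1 e2
        rw [e1, e2, next_eq, SimpleGraph.Dart.symm_symm] at hj
        exact hj
    rw [h1, ← card_union_of_disjoint]
    · refine (card_le_univ _).trans ?_
      rw [ZMod.card]
    · rw [disjoint_filter]
      intro i _ h2 h3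
      have h4 : R.next (ed w ha i) = R.rot (ed w ha (i + 1)) := by
        refine third_unique g.deg3 (hPQ i) rfl (R.fst_next _) (R.fst_rot _)
          (g.next_ne_symm _) h2 h3 (g.rot_ne _)
      rw [next_eq] at h4
      exact hPQ i (R.rot.injective h4)
  rcases (by omega : #{i : ZMod 9 | R.next (ed w ha i) ≠ ed w ha (i + 1)} ≤ 4 ∨
    #{i : ZMod 9 | R.next (ed w' ha' i) ≠ ed w' ha' (i + 1)} ≤ 4) with h1 | h1
  · rcases h.leftA w ha hb hinj (by norm_num) h1 with h2 | ⟨i, j, h2, h3, h4⟩ | ⟨A, k1, k2, k3, k4⟩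
    · exact Or.inl h2
    · exact Or.inr (Or.inr (Or.inl (h.chord9 w ha hb h2 h3 h4)))
    · exact Or.inr (Or.inr (Or.inr (h.star9 w ha hb k1 k2 k3 k4)))
  · rcases h.leftA w' ha' hb' hinj' (by norm_num) h1 with h2 | ⟨i, j, h2, h3, h4⟩ |
      ⟨A, k1, k2, k3, k4⟩
    · right; left
      intro i
      have h3 := h2 (-(i + 2))
      rw [hed, hed2, next_eq, SimpleGraph.Dart.symm_symm] at h3
      exact h3
    · right; right; left
      obtain ⟨k, hk⟩ := h.chord9 w' ha' hb' h2 h3 h4
      refine ⟨-(k + 4), ?_⟩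
      rw [show -(k + 4) + 4 = -k by ring]
      exact hk.symm
    · right; right; right
      obtain ⟨x, hx, i, m1, m2, m3⟩ := h.star9 w' ha' hb' k1 k2 k3 k4
      refine ⟨x, fun i => ?_, -(i + 6), m3, ?_, ?_⟩
      · have h9 : x ≠ w (- -i) := hx (-i)
        rwa [neg_neg] at h9
      · rw [show -(i + 6) + 3 = -(i + 3) by ring]
        exact m2
      · rw [show -(i + 6) + 6 = -i by ring]
        exact m1

/-- **A closed walk of length nine through a corner of a shorter one** has a chord, or three of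
its vertices have a common neighbour off the walk. -/
theorem C5.corner9 (h : C5 R) {m : ℕ} [NeZero m] (hm : m ≤ 7)
    (w : ZMod 9 → V) (w' : ZMod m → V)
    (ha : ∀ i, G.Adj (w i) (w (i + 1))) (hb : ∀ i, w i ≠ w (i + 2))
    (ha' : ∀ i, G.Adj (w' i) (w' (i + 1))) (hb' : ∀ i, w' i ≠ w' (i + 2))
    (h0 : w 0 = w' 0) (h1 : w 1 = w' 1) (h2 : w 2 = w' 2) :
    (∃ i, G.Adj (w i) (w (i + 4))) ∨
      ∃ x, (∀ i, x ≠ w i) ∧ ∃ i, G.Adj x (w i) ∧ G.Adj x (w (i + 3)) ∧ G.Adj x (w (i + 6)) := by
  have g := h.geo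
  have hbm : ¬ Bad R m := fun hB => h.not_bad (hB.mono hm)
  have fin : ∀ d : G.Dart, R.next^[9] d = d → sz R d = m → False := by
    intro d h3 h4
    have h5 := sz_le R (by norm_num) h3
    have h6 := h.five_le d
    rw [h4] at h5 h6
    interval_cases m <;> omega
  rcases h.sides9 w ha hb with h3 | h3 | h3
  · exfalso
    set d := ed w ha 0 with hd
    have key : ∀ i : ℕ, R.next^[i] d = ed w ha i := by
      intro i
      induction i with
      | zero => simp [hd]
      | succ n ih => rw [Function.iterate_succ_apply', ih, h3]; congr 1; push_cast; rfl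
    have e1 : d.snd = w 1 := by
      show w (0 + 1) = w 1
      rw [zero_add]
    have e2 : (R.next d).snd = w 2 := by
      rw [hd, h3, zero_add]
      show w (1 + 1) = w 2
      rw [one_add_one_eq_two]
    obtain ⟨e3, -⟩ := g.corner hm hbm w' ha' hb' d h0 (e1.trans h1) (e2.trans h2)
      (h.cub _)
    refine fin d ?_ e3
    rw [key]
    congr 1
  · exfalso
    set d := (ed w ha 1).symm with hd
    have key : ∀ i : ℕ, R.next^[i] d = (ed w ha (1 - i)).symm := by
      intro i
      induction i with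
      | zero => simp [hd]
      | succ n ih =>
        rw [Function.iterate_succ_apply', ih, next_eq, SimpleGraph.Dart.symm_symm]
        have := h3 (1 - n - 1)
        rw [sub_add_cancel] at this
        rw [this]
        congr 2
        push_cast
        ring
    have e0 : d.fst = w 2 := by
      show w (1 + 1) = w 2
      rw [one_add_one_eq_two]
    have e1 : d.snd = w 1 := rfl
    have e2 : (R.next d).snd = w 0 := by
      have := key 1
      rw [Function.iterate_one, Nat.cast_one, sub_self] at this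
      rw [this]
      rfl
    obtain ⟨e3, -⟩ := g.corner' hm hbm w' ha' hb' d (e0.trans h2) (e1.trans h1) (e2.trans h0)
      (h.cub _)
    refine fin d ?_ e3
    rw [key]
    rw [hd]
    congr 1
  · exact h3

/-- **A closed walk of length nine through a corner of a shorter one**, lists. -/
theorem C5.walk9 (h : C5 R) {a v b : V} {l l' : List V}
    (h1 : NB G (a :: v :: b :: l)) (h2 : NB G (a :: v :: b :: l')) (hl : l.length = 6)
    (hl' : l'.length ≤ 4) :
    (∃ i < 9, G.Adj ((a :: v :: b :: l).getD i a) ((a :: v :: b :: l).getD ((i + 4) % 9) a)) ∨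
    ∃ z, z ∉ a :: v :: b :: l ∧ ∃ i < 3, G.Adj z ((a :: v :: b :: l).getD i a) ∧
      G.Adj z ((a :: v :: b :: l).getD (i + 3) a) ∧ G.Adj z ((a :: v :: b :: l).getD (i + 6) a) := by
  obtain ⟨c0, c1, c2, c3, c4, c5, rfl⟩ : ∃ c0 c1 c2 c3 c4 c5, l = [c0, c1, c2, c3, c4, c5] := by
    match l, hl with
    | [c0, c1, c2, c3, c4, c5], _ => exact ⟨_, _, _, _, _, _, rfl⟩
  set L' := a :: v :: b :: l' with hL'
  have e2 : L'.length = l'.length + 3 := rfl
  have : NeZero L'.length := ⟨by rw [e2]; omega⟩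
  obtain ⟨ha, hb⟩ := cw_spec (L := [a, v, b, c0, c1, c2, c3, c4, c5]) (by norm_num) h1 a
  obtain ⟨ha', hb'⟩ := cw_spec (L := L') (by omega) h2 a
  have g0' : cw L' a 0 = a := by
    have := cw_nat (L := L') a (i := 0) (by omega)
    rw [Nat.cast_zero] at this
    exact this
  have g1' : cw L' a 1 = v := by
    have := cw_nat (L := L') a (i := 1) (by omega)
    rw [Nat.cast_one] at this
    exact this
  have g2' : cw L' a 2 = b := by
    have := cw_nat (L := L') a (i := 2) (by omega)
    rw [Nat.cast_ofNat] at this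
    exact this
  have hv : ∀ (i : ZMod 9) (k : ℕ), (i + (k : ZMod 9)).val = (i.val + k) % 9 := by
    intro i k
    rw [ZMod.val_add, ZMod.val_natCast, Nat.add_mod_mod]
  have hw : ∀ i : ZMod 9, cw [a, v, b, c0, c1, c2, c3, c4, c5] a i =
      [a, v, b, c0, c1, c2, c3, c4, c5].getD i.val a := fun i => rfl
  rcases h.corner9 (m := L'.length) (by omega)
    (cw [a, v, b, c0, c1, c2, c3, c4, c5] a) (cw L' a) ha hb ha' hb'
    (by rw [g0']; rfl) (by rw [g1']; rfl) (by rw [g2']; rfl) with ⟨i, hi⟩ | ⟨z, hz, i, k1, k2, k3⟩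
  · left
    refine ⟨i.val, ZMod.val_lt i, ?_⟩
    have h4 : (i + 4).val = (i.val + 4) % 9 := hv i 4
    rw [hw, hw, h4] at hi
    exact hi
  · right
    refine ⟨z, ?_, i.val % 3, Nat.mod_lt _ (by norm_num), ?_⟩
    · intro hmem
      obtain ⟨k, hk, hk'⟩ := List.mem_iff_getElem.1 hmem
      refine hz (k : ZMod 9) ?_
      have hk9 : k < 9 := hk
      rw [hw, ZMod.val_natCast, Nat.mod_eq_of_lt hk9, List.getD_eq_getElem _ _ hk]
      exact hk'.symm
    · have h3 : (i + 3).val = (i.val + 3) % 9 := hv i 3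
      have h6 : (i + 6).val = (i.val + 6) % 9 := hv i 6
      rw [hw] at k1
      rw [hw, h3] at k2
      rw [hw, h6] at k3
      have hi9 : i.val < 9 := ZMod.val_lt i
      generalize i.val = n at k1 k2 k3 hi9
      interval_cases n
      · exact ⟨k1, k2, k3⟩
      · exact ⟨k1, k2, k3⟩
      · exact ⟨k1, k2, k3⟩
      · exact ⟨k3, k1, k2⟩
      · exact ⟨k3, k1, k2⟩
      · exact ⟨k3, k1, k2⟩
      · exact ⟨k2, k3, k1⟩
      · exact ⟨k2, k3, k1⟩
      · exact ⟨k2, k3, k1⟩

end Pool.Agent.U2Geo
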