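import Pool.Agent.Work.MP_392c8e_co_uni.SideOld
import Pool.Agent.Work.MP_392c8e_co_uni.GeoNine

/-!
# Side conditions of patches: closed walks of length nine

One more certificate: a closed walk of length nine through a corner of a shorter one has a chord
between the positions `i` and `i + 4`, or three vertices `w i`, `w (i + 3)`, `w (i + 6)` with a
common neighbour.
-/

namespace Pool.Agent.U2Geo

open Pool.T1Side Pool.Agent.T1Red Pool.Agent.T1FF Pool.Agent.Sub392

set_option linter.unusedSectionVars false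

/-- The facts about short closed walks, length nine included. -/
structure ClsN {V : Type} (G : SimpleGraph V) : Prop where
  cls : Cls G
  w9 : ∀ (a v b : V) (l l' : List V), NB G (a :: v :: b :: l) → NB G (a :: v :: b :: l') →
    l.length = 6 → l'.length ≤ 4 →
    (∃ i < 9, G.Adj ((a :: v :: b :: l).getD i a) ((a :: v :: b :: l).getD ((i + 4) % 9) a)) ∨
    ∃ i < 3, ∃ z, G.Adj ((a :: v :: b :: l).getD i a) z ∧
      G.Adj ((a :: v :: b :: l).getD (i + 3) a) z ∧ G.Adj ((a :: v :: b :: l).getD (i + 6) a) z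

theorem C5.clsN {V : Type} [Fintype V] [DecidableEq V] {G : SimpleGraph V} [DecidableRel G.Adj]
    {R : Rot G} (h : C5 R) (h13 : 13 ≤ Fintype.card V) : ClsN G :=
  ⟨h.cls h13, fun _ _ _ _ _ h1 h2 h3 h4 => by
    rcases h.walk9 h1 h2 h3 h4 with h5 | ⟨z, -, i, hi, h5, h6, h7⟩
    · exact Or.inl h5
    · exact Or.inr ⟨i, hi, z, h5.symm, h6.symm, h7.symm⟩⟩

variable {V : Type} {G : SimpleGraph V}

/-- The steps. -/
inductive StepN
  /-- the old steps -/
  | old (t : StepL)
  /-- the labels `i` and `j` are different because of a closed walk of length nine -/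
  | nine (i j a v b : ℕ) (l l' : List ℕ)
  /-- the labels `i` and `j` are not adjacent because of a closed walk of length nine -/
  | nineNa (i j a v b : ℕ) (l l' : List ℕ)

/-- No neighbour of `p` is a neighbour of `q`. -/
def nbNe (ed : List (ℕ × ℕ)) (I : List ℕ) (rp : ℕ → ℕ) (s : St) (p q : ℕ) : Bool :=
  I.contains p && I.contains q &&
    (nbs ed p).all fun x => (nbs ed q).all fun y => has s.ne (rp x) (rp y)

/-- The check of a closed walk of length nine. -/
def refN (ed : List (ℕ × ℕ)) (I : List ℕ) (rp : ℕ → ℕ) (s : St) (a v b : ℕ)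
    (l l' : List ℕ) : Bool :=
  s.nbB (a :: v :: b :: l) && s.nbB (a :: v :: b :: l') &&
    Nat.beq l.length 6 && Nat.ble l'.length 4 &&
    ((List.range 9).all fun i => has s.na ((a :: v :: b :: l).getD i a)
      ((a :: v :: b :: l).getD ((i + 4) % 9) a)) &&
    (List.range 3).all fun i =>
      nbNe ed I rp s ((a :: v :: b :: l).getD i a) ((a :: v :: b :: l).getD (i + 3) a) ||
      nbNe ed I rp s ((a :: v :: b :: l).getD i a) ((a :: v :: b :: l).getD (i + 6) a) ||
      nbNe ed I rp s ((a :: v :: b :: l).getD (i + 3) a) ((a :: v :: b :: l).getD (i + 6) a)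

theorem nbNe_sound {ed : List (ℕ × ℕ)} {I : List ℕ} {rp : ℕ → ℕ} {f : ℕ → V} {s : St}
    (h : s.Ok G I f) (hn : ∀ i ∈ I, ∀ w, G.Adj (f i) w → ∃ j ∈ nbs ed i, w = f j)
    (hrp : ∀ x, f (rp x) = f x) {p q : ℕ} (hpq : nbNe ed I rp s p q = true) {z : V}
    (h1 : G.Adj (f p) z) (h2 : G.Adj (f q) z) : False := by
  simp only [nbNe, Bool.and_eq_true, List.all_eq_true, List.contains_iff_mem] at hpq
  obtain ⟨⟨hp, hq⟩, hall⟩ := hpq
  obtain ⟨x, hx, rfl⟩ := hn p hp z h1
  obtain ⟨y, hy, hxy⟩ := hn q hq _ h2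
  have h3 := h.ne (hall x hx y hy)
  rw [hrp, hrp] at h3
  exact h3 hxy

theorem refN_sound (hG : ClsN G) {ed : List (ℕ × ℕ)} {I : List ℕ} {rp : ℕ → ℕ} {f : ℕ → V}
    {s : St} (h : s.Ok G I f) (hn : ∀ i ∈ I, ∀ w, G.Adj (f i) w → ∃ j ∈ nbs ed i, w = f j)
    (hrp : ∀ x, f (rp x) = f x) {a v b : ℕ} {l l' : List ℕ}
    (hc : refN ed I rp s a v b l l' = true) : False := by
  simp only [refN, Bool.and_eq_true, List.all_eq_true] at hc
  obtain ⟨⟨⟨⟨⟨h1, h2⟩, h3⟩, h4⟩, h5⟩, h6⟩ := hc
  have e3 : l.length = 6 := Nat.eq_of_beq_eq_true h3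
  have e4 : l'.length ≤ 4 := by simpa using h4
  have key : ∀ k, (f a :: f v :: f b :: l.map f).getD k (f a) =
      f ((a :: v :: b :: l).getD k a) := by
    intro k
    have : f a :: f v :: f b :: l.map f = (a :: v :: b :: l).map f := rfl
    rw [this, List.getD_map]
  rcases hG.w9 (f a) (f v) (f b) (l.map f) (l'.map f) (h.nbB h1) (h.nbB h2)
    (by rw [List.length_map]; exact e3) (by rw [List.length_map]; exact e4) with
    ⟨i, hi, h7⟩ | ⟨i, hi, z, h7, h8, h9⟩
  · rw [key, key] at h7
    exact h.na (h5 i (List.mem_range.2 hi)) h7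
  · rw [key] at h7 h8 h9
    have h10 := h6 i (List.mem_range.2 hi)
    rw [Bool.or_eq_true, Bool.or_eq_true] at h10
    rcases h10 with (h10 | h10) | h10
    · exact nbNe_sound h hn hrp h10 h7 h8
    · exact nbNe_sound h hn hrp h10 h7 h9
    · exact nbNe_sound h hn hrp h10 h8 h9

/-- One step. -/
def stepN (ed : List (ℕ × ℕ)) (F : List (ℕ × ℕ × ℕ)) (I : List ℕ) (s : St) :
    StepN → Option St
  | .old t => stepL F I s t
  | .nine i j a v b l l' =>
    cond (refN ed I (rep i j) (s.ident i j) a v b l l')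
      (some ⟨s.adj, (i, j) :: s.ne, s.na, s.cn⟩) none
  | .nineNa i j a v b l l' =>
    cond (refN ed I id (s.join i j) a v b l l')
      (some ⟨s.adj, s.ne, (i, j) :: s.na, s.cn⟩) none

theorem stepN_sound (hG : ClsN G) {ed : List (ℕ × ℕ)} {F : List (ℕ × ℕ × ℕ)} {I : List ℕ}
    {f : ℕ → V} {s s' : St} (hF : No5 G F f) (h : s.Ok G I f)
    (hn : ∀ i ∈ I, ∀ w, G.Adj (f i) w → ∃ j ∈ nbs ed i, w = f j) {t : StepN}
    (hs : stepN ed F I s t = some s') : s'.Ok G I f := by
  cases t with
  | old t => exact stepL_sound hG.cls hF h hs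
  | nine i j a v b l l' =>
    unfold stepN at hs
    cases hc : refN ed I (rep i j) (s.ident i j) a v b l l'
    · simp [hc] at hs
    · simp only [hc, cond_true, Option.some.injEq] at hs
      subst hs
      refine ⟨h.1, fun e he => ?_, h.2.2.1, h.2.2.2⟩
      rcases List.mem_cons.1 he with rfl | he
      · exact fun hij => refN_sound hG (h.ident hij) hn (rep_spec hij) hc
      · exact h.2.1 _ he
  | nineNa i j a v b l l' =>
    unfold stepN at hs
    cases hc : refN ed I id (s.join i j) a v b l l'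
    · simp [hc] at hs
    · simp only [hc, cond_true, Option.some.injEq] at hs
      subst hs
      refine ⟨h.1, h.2.1, fun e he => ?_, h.2.2.2⟩
      rcases List.mem_cons.1 he with rfl | he
      · exact fun hij => refN_sound hG (h.join hij) hn (fun _ => rfl) hc
      · exact h.2.2.1 _ he

/-- All steps. -/
def runN (ed : List (ℕ × ℕ)) (F : List (ℕ × ℕ × ℕ)) (I : List ℕ) :
    List StepN → St → Option St
  | [], s => some s
  | t :: ts, s => match stepN ed F I s t with
    | none => none
    | some s' => runN ed F I ts s'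

theorem runN_sound (hG : ClsN G) {ed : List (ℕ × ℕ)} {F : List (ℕ × ℕ × ℕ)} {I : List ℕ}
    {f : ℕ → V} (hF : No5 G F f)
    (hn : ∀ i ∈ I, ∀ w, G.Adj (f i) w → ∃ j ∈ nbs ed i, w = f j) :
    ∀ (ts : List StepN) (s s' : St), s.Ok G I f → runN ed F I ts s = some s' → s'.Ok G I f
  | [], s, s', h, hs => by
    have : s = s' := by simpa [runN] using hs
    exact this ▸ h
  | t :: ts, s, s', h, hs => by
    unfold runN at hs
    split at hs
    · exact absurd hs (by simp)
    · rename_i s1 h1
      exact runN_sound hG hF hn ts s1 s' (stepN_sound hG hF h hn h1) hs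

/-- The whole check. -/
def finN (R : Red) (nl co com bad : List (ℕ × ℕ)) (F : List (ℕ × ℕ × ℕ)) (ts : List StepN) :
    Bool :=
  match runN R.ed F (inner R) ts (St.start R.ed (inner R)) with
  | none => false
  | some s' => ((pairs (olds R nl)).all fun e => has s'.ne e.1 e.2 || has co e.1 e.2) &&
      (com.all fun e => has s'.cn e.1 e.2) && (bad.all fun e => has s'.na e.1 e.2)

/-- **Patches from tables and certificates.** -/
theorem patch_ofN (hG : ClsN G) {R : Red} {nl co com bad : List (ℕ × ℕ)}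
    {F : List (ℕ × ℕ × ℕ)} {ts : List StepN} {f : ℕ → V} {N : List (ℕ × ℕ × ℕ × ℕ)}
    (ht : TabOk G f N) (hc : chk R.ed (inner R) N = true) (hF : No5 G F f)
    (hf : finN R nl co com bad F ts = true) : Patch G R nl co com bad f := by
  obtain ⟨h1, h2⟩ := copy_of_tab ht hc
  unfold finN at hf
  split at hf
  · exact absurd hf (by simp)
  · rename_i s' hs
    rw [Bool.and_eq_true, Bool.and_eq_true, List.all_eq_true, List.all_eq_true,
      List.all_eq_true] at hf
    have h' := runN_sound hG hF h2 ts _ s' h1.start hs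
    obtain ⟨⟨k1, k2⟩, k3⟩ := hf
    have key : ∀ i j, Real R nl [] i → Real R nl [] j → i < j → f i = f j → Same co i j := by
      intro i j hi hj hij hfij
      have h3 := k1 (i, j) (mem_pairs (List.Pairwise.filter _ List.pairwise_lt_range)
        (mem_olds hi) (mem_olds hj) hij)
      rw [Bool.or_eq_true] at h3
      rcases h3 with h3 | h3
      · exact absurd hfij (h'.ne h3)
      · rcases has_spec h3 with h4 | h4
        · exact Or.inr (Or.inl h4)
        · exact Or.inr (Or.inr h4)
    refine ⟨?_, h1.adj, ?_, ?_, fun e he => h'.na (k3 e he)⟩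
    · intro i j hi hj hij
      rcases lt_trichotomy i j with h3 | h3 | h3
      · exact key i j hi hj h3 hij
      · exact Or.inl h3
      · exact (key j i hj hi h3 hij.symm).symm
    · intro i hi hi' w hw
      obtain ⟨j, hj, hwj⟩ := h2 i (mem_inner.2 ⟨hi, hi'⟩) w hw
      exact ⟨j, nbs_mem hj, hwj⟩
    · intro p hp w hw ⟨h3, h4⟩
      refine h'.cn (k2 p hp) w (fun k hk h5 => hw ?_) h3 h4.symm
      obtain ⟨h6, h7⟩ := mem_inner.1 hk
      exact ⟨k, h6, h7, h5.symm⟩

end Pool.Agent.U2Geo
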