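import Pool.Agent.Work.MP_392c8e_co_uni.SideM
import Pool.Agent.Work.MP_392c8e_co_uni.SideN

/-!
# Fast check of the side conditions, closed walks of length nine included
-/

namespace Pool.Agent.U2Geo

open Pool.T1Side Pool.Agent.T1Red Pool.Agent.T1FF Pool.Agent.Sub392

set_option linter.unusedSectionVars false

variable {V : Type} {G : SimpleGraph V}

/-- No neighbour of `p` is a neighbour of `q`. -/
def Tst.nbNe (ed : List (ℕ × ℕ)) (t n : ℕ) (rp : ℕ → ℕ) (T : Tst) (p q : ℕ) : Bool :=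
  Nat.ble t p && Nat.blt p n && Nat.ble t q && Nat.blt q n &&
    (nbs ed p).all fun x => (nbs ed q).all fun y => T.ne (rp x) (rp y)

/-- The check of a closed walk of length nine. -/
def Tst.refN (ed : List (ℕ × ℕ)) (t n : ℕ) (rp : ℕ → ℕ) (T : Tst) (a v b : ℕ)
    (l l' : List ℕ) : Bool :=
  T.nb (a :: v :: b :: l) && T.nb (a :: v :: b :: l') &&
    Nat.beq l.length 6 && Nat.ble l'.length 4 &&
    ((List.range 9).all fun i => T.na ((a :: v :: b :: l).getD i a)
      ((a :: v :: b :: l).getD ((i + 4) % 9) a)) &&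
    (List.range 3).all fun i =>
      T.nbNe ed t n rp ((a :: v :: b :: l).getD i a) ((a :: v :: b :: l).getD (i + 3) a) ||
      T.nbNe ed t n rp ((a :: v :: b :: l).getD i a) ((a :: v :: b :: l).getD (i + 6) a) ||
      T.nbNe ed t n rp ((a :: v :: b :: l).getD (i + 3) a) ((a :: v :: b :: l).getD (i + 6) a)

theorem Tst.nbNe_sound {ed : List (ℕ × ℕ)} {t n : ℕ} {rp : ℕ → ℕ} {f : ℕ → V} {T : Tst}
    (h : T.Ok G f)
    (hn : ∀ i, t ≤ i → i < n → ∀ w, G.Adj (f i) w → ∃ j ∈ nbs ed i, w = f j)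
    (hrp : ∀ x, f (rp x) = f x) {p q : ℕ} (hpq : T.nbNe ed t n rp p q = true) {z : V}
    (h1 : G.Adj (f p) z) (h2 : G.Adj (f q) z) : False := by
  simp only [Tst.nbNe, Bool.and_eq_true, List.all_eq_true, Nat.ble_eq, Nat.blt_eq] at hpq
  obtain ⟨⟨⟨⟨k1, k2⟩, k3⟩, k4⟩, hall⟩ := hpq
  obtain ⟨x, hx, rfl⟩ := hn p k1 k2 z h1
  obtain ⟨y, hy, hxy⟩ := hn q k3 k4 _ h2
  have h3 := h.ne _ _ (hall x hx y hy)
  rw [hrp, hrp] at h3
  exact h3 hxy

theorem Tst.refN_sound (hG : ClsN G) {ed : List (ℕ × ℕ)} {t n : ℕ} {rp : ℕ → ℕ} {f : ℕ → V}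
    {T : Tst} (h : T.Ok G f)
    (hn : ∀ i, t ≤ i → i < n → ∀ w, G.Adj (f i) w → ∃ j ∈ nbs ed i, w = f j)
    (hrp : ∀ x, f (rp x) = f x) {a v b : ℕ} {l l' : List ℕ}
    (hc : T.refN ed t n rp a v b l l' = true) : False := by
  simp only [Tst.refN, Bool.and_eq_true, List.all_eq_true] at hc
  obtain ⟨⟨⟨⟨⟨h1, h2⟩, h3⟩, h4⟩, h5⟩, h6⟩ := hc
  have e3 : l.length = 6 := Nat.eq_of_beq_eq_true h3
  have e4 : l'.length ≤ 4 := by simpa using h4
  have key : ∀ k, (f a :: f v :: f b :: l.map f).getD k (f a) =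
      f ((a :: v :: b :: l).getD k a) := by
    intro k
    have : f a :: f v :: f b :: l.map f = (a :: v :: b :: l).map f := rfl
    rw [this, List.getD_map]
  rcases hG.w9 (f a) (f v) (f b) (l.map f) (l'.map f) (h.nb h1) (h.nb h2)
    (by rw [List.length_map]; exact e3) (by rw [List.length_map]; exact e4) with
    ⟨i, hi, h7⟩ | ⟨i, hi, z, h7, h8, h9⟩
  · rw [key, key] at h7
    exact h.na _ _ (h5 i (List.mem_range.2 hi)) h7
  · rw [key] at h7 h8 h9
    have h10 := h6 i (List.mem_range.2 hi)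
    rw [Bool.or_eq_true, Bool.or_eq_true] at h10
    rcases h10 with (h10 | h10) | h10
    · exact Tst.nbNe_sound h hn hrp h10 h7 h8
    · exact Tst.nbNe_sound h hn hrp h10 h7 h9
    · exact Tst.nbNe_sound h hn hrp h10 h8 h9

/-- One step. -/
def stepMN (ed : List (ℕ × ℕ)) (F : List (ℕ × ℕ × ℕ)) (t n : ℕ) (s : MSt) :
    StepN → Option MSt
  | .old x => stepM F t n s x
  | .nine i j a v b l l' =>
    cond (Nat.blt j 32 && (s.tst.ident i j).refN ed t n (rep i j) a v b l l')
      (some ⟨s.adj, ins s.ne i j, s.na, s.cn⟩) none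
  | .nineNa i j a v b l l' =>
    cond (Nat.blt j 32 && (s.tst.join i j).refN ed t n id a v b l l')
      (some ⟨s.adj, s.ne, ins s.na i j, s.cn⟩) none

theorem stepMN_sound (hG : ClsN G) {ed : List (ℕ × ℕ)} {F : List (ℕ × ℕ × ℕ)} {t n : ℕ}
    {f : ℕ → V} {s s' : MSt} (hF : No5 G F f) (h : s.Ok G t n f)
    (hn : ∀ i, t ≤ i → i < n → ∀ w, G.Adj (f i) w → ∃ j ∈ nbs ed i, w = f j) {x : StepN}
    (hs : stepMN ed F t n s x = some s') : s'.Ok G t n f := by
  cases x with
  | old x => exact stepM_sound hG.cls hF h hs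
  | nine i j a v b l l' =>
    unfold stepMN at hs
    cases hc : (Nat.blt j 32 && (s.tst.ident i j).refN ed t n (rep i j) a v b l l')
    · simp [hc] at hs
    · simp only [hc, cond_true, Option.some.injEq] at hs
      subst hs
      rw [Bool.and_eq_true, Nat.blt_eq] at hc
      exact ⟨h.adj, h.ne.ins hc.1 fun hij => Tst.refN_sound hG (h.tst.ident hij) hn
        (rep_spec hij) hc.2, h.na, h.cn⟩
  | nineNa i j a v b l l' =>
    unfold stepMN at hs
    cases hc : (Nat.blt j 32 && (s.tst.join i j).refN ed t n id a v b l l')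
    · simp [hc] at hs
    · simp only [hc, cond_true, Option.some.injEq] at hs
      subst hs
      rw [Bool.and_eq_true, Nat.blt_eq] at hc
      exact ⟨h.adj, h.ne, h.na.ins hc.1 fun hij => Tst.refN_sound hG (h.tst.join hij) hn
        (fun _ => rfl) hc.2, h.cn⟩

/-- All steps. -/
def runMN (ed : List (ℕ × ℕ)) (F : List (ℕ × ℕ × ℕ)) (t n : ℕ) :
    List StepN → MSt → Option MSt
  | [], s => some s
  | x :: xs, s => match stepMN ed F t n s x with
    | none => none
    | some s' => runMN ed F t n xs s'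

theorem runMN_sound (hG : ClsN G) {ed : List (ℕ × ℕ)} {F : List (ℕ × ℕ × ℕ)} {t n : ℕ}
    {f : ℕ → V} (hF : No5 G F f)
    (hn : ∀ i, t ≤ i → i < n → ∀ w, G.Adj (f i) w → ∃ j ∈ nbs ed i, w = f j) :
    ∀ (ts : List StepN) (s s' : MSt), s.Ok G t n f → runMN ed F t n ts s = some s' →
      s'.Ok G t n f
  | [], s, s', h, hs => by
    have : s = s' := by simpa [runMN] using hs
    exact this ▸ h
  | x :: xs, s, s', h, hs => by
    unfold runMN at hs
    split at hs
    · exact absurd hs (by simp)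
    · rename_i s1 h1
      exact runMN_sound hG hF hn xs s1 s' (stepMN_sound hG hF h hn h1) hs

/-- The whole check. -/
def finMN (R : Red) (nl co com bad : List (ℕ × ℕ)) (F : List (ℕ × ℕ × ℕ)) (ts : List StepN) :
    Bool :=
  (R.ed.all fun e => Nat.blt e.2 32) &&
  ((St.start R.ed (inner R)).ne.all fun e => Nat.blt e.2 32) &&
  match runMN R.ed F R.t (R.t + R.m) ts (startM R) with
  | none => false
  | some s' => ((pairs (olds R nl)).all fun e => bit2 s'.ne e.1 e.2 || has co e.1 e.2) &&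
      (com.all fun e => has s'.cn e.1 e.2) && (bad.all fun e => bit2 s'.na e.1 e.2)

/-- **Patches from tables and certificates**, fast check. -/
theorem patch_ofMN (hG : ClsN G) {R : Red} {nl co com bad : List (ℕ × ℕ)}
    {F : List (ℕ × ℕ × ℕ)} {ts : List StepN} {f : ℕ → V} {N : List (ℕ × ℕ × ℕ × ℕ)}
    (ht : TabOk G f N) (hc : chk R.ed (inner R) N = true) (hF : No5 G F f)
    (hf : finMN R nl co com bad F ts = true) : Patch G R nl co com bad f := by
  obtain ⟨h1, h2⟩ := copy_of_tab ht hc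
  unfold finMN at hf
  rw [Bool.and_eq_true, Bool.and_eq_true] at hf
  obtain ⟨⟨hb1, hb2⟩, hf⟩ := hf
  have h0 : (startM R).Ok G R.t (R.t + R.m) f :=
    ⟨MOk.mk _ _ (MOk.zero _) h1.start.1 hb1, MOk.mk _ _ (MOk.zero _) h1.start.2.1 hb2,
      MOk.zero _, fun e he => by simp [startM] at he⟩
  split at hf
  · exact absurd hf (by simp)
  · rename_i s' hs
    rw [Bool.and_eq_true, Bool.and_eq_true, List.all_eq_true, List.all_eq_true,
      List.all_eq_true] at hf
    have h' := runMN_sound hG hF (fun i hi hi' => h2 i (mem_inner.2 ⟨hi, hi'⟩)) ts _ s' h0 hs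
    obtain ⟨⟨k1, k2⟩, k3⟩ := hf
    have key : ∀ i j, Real R nl [] i → Real R nl [] j → i < j → f i = f j → Same co i j := by
      intro i j hi hj hij hfij
      have h3 := k1 (i, j) (mem_pairs (List.Pairwise.filter _ List.pairwise_lt_range)
        (mem_olds hi) (mem_olds hj) hij)
      rw [Bool.or_eq_true] at h3
      rcases h3 with h3 | h3
      · exact absurd hfij (h'.tst.ne _ _ h3)
      · rcases has_spec h3 with h4 | h4
        · exact Or.inr (Or.inl h4)
        · exact Or.inr (Or.inr h4)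
    refine ⟨?_, h1.adj, ?_, ?_, fun e he => h'.tst.na _ _ (k3 e he)⟩
    · intro i j hi hj hij
      rcases lt_trichotomy i j with h3 | h3 | h3
      · exact key i j hi hj h3 hij
      · exact Or.inl h3
      · exact (key j i hj hi h3 hij.symm).symm
    · intro i hi hi' w hw
      obtain ⟨j, hj, hwj⟩ := h2 i (mem_inner.2 ⟨hi, hi'⟩) w hw
      exact ⟨j, nbs_mem hj, hwj⟩
    · intro p hp w hw ⟨h3, h4⟩
      have h5 := k2 p hp
      have h6 : ∀ k, R.t ≤ k → k < R.t + R.m → w ≠ f k := fun k hk hk' h7 =>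
        hw ⟨k, hk, hk', h7.symm⟩
      rcases has_spec h5 with h8 | h8
      · exact h'.cn _ h8 w h6 h3 h4.symm
      · exact h'.cn _ h8 w h6 h4.symm h3

end Pool.Agent.U2Geo
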