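import Pool.Agent.Work.MP_392c8e_co_uni.RedG2R
import Pool.Agent.Work.MP_392c8e_co_uni.SideMN

/-!
# The certificate of the patch G2''

All labels are different except possibly the terminals 3 and 8 (at distance ten).
-/

namespace Pool.Agent.U2Geo

open Pool.T1Side Pool.Agent.T1Red

/-- The steps. -/
def stepsG2R : List StepN :=
  [.old (.ne 0 14 (.base (.tri 0 24 15))), .old (.ne 0 16 (.base (.tri 0 24 15))),
  .old (.ne 0 22 (.base (.tri 0 24 23))), .old (.ne 0 27 (.base (.tri 0 24 23))),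
  .old (.ne 1 11 (.base (.tri 1 16 10))), .old (.ne 1 14 (.base (.tri 1 16 15))),
  .old (.ne 1 17 (.base (.tri 1 16 10))), .old (.ne 1 24 (.base (.tri 1 16 15))),
  .old (.ne 2 3 (.base (.tri 2 17 18))), .old (.ne 2 11 (.base (.tri 2 17 10))),
  .old (.ne 2 16 (.base (.tri 2 17 10))), .old (.ne 2 19 (.base (.tri 2 17 18))),
  .old (.ne 3 10 (.base (.tri 3 17 18))), .old (.ne 3 11 (.base (.tri 3 18 19))),
  .old (.ne 3 20 (.base (.tri 3 18 19))), .old (.ne 4 5 (.base (.tri 4 20 21))),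
  .old (.ne 4 11 (.base (.tri 4 19 20))), .old (.ne 4 12 (.base (.tri 4 20 21))),
  .old (.ne 4 18 (.base (.tri 4 19 20))), .old (.ne 5 11 (.base (.tri 5 12 21))),
  .old (.ne 5 13 (.base (.tri 5 12 21))), .old (.ne 5 19 (.base (.tri 5 20 21))),
  .old (.ne 6 11 (.base (.tri 6 12 13))), .old (.ne 6 15 (.base (.tri 6 13 14))),
  .old (.ne 6 21 (.base (.tri 6 12 13))), .old (.ne 6 22 (.base (.tri 6 13 14))),
  .old (.ne 7 8 (.base (.tri 7 25 26))), .old (.ne 7 14 (.base (.tri 7 25 22))),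
  .old (.ne 7 23 (.base (.tri 7 25 22))), .old (.ne 7 27 (.base (.tri 7 25 26))),
  .old (.ne 8 9 (.base (.tri 8 26 27))), .old (.ne 8 22 (.base (.tri 8 25 26))),
  .old (.ne 8 23 (.base (.tri 8 26 27))), .old (.ne 9 22 (.base (.tri 9 27 23))),
  .old (.ne 9 24 (.base (.tri 9 27 23))), .old (.ne 9 25 (.base (.tri 9 26 27))),
  .old (.ne 10 13 (.base (.tri 10 11 12))), .old (.ne 10 14 (.base (.tri 10 15 16))),
  .old (.ne 10 20 (.base (.tri 10 11 19))), .old (.ne 10 21 (.base (.tri 10 11 12))),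
  .old (.ne 10 24 (.base (.tri 10 15 16))), .old (.ne 11 14 (.base (.tri 11 12 13))),
  .old (.ne 11 15 (.base (.tri 11 10 16))), .old (.ne 12 15 (.base (.tri 12 13 14))),
  .old (.ne 12 16 (.base (.tri 12 10 11))), .old (.ne 12 17 (.base (.tri 12 10 11))),
  .old (.ne 12 18 (.base (.tri 12 11 19))), .old (.ne 12 22 (.base (.tri 12 13 14))),
  .old (.ne 13 16 (.base (.tri 13 14 15))), .old (.ne 13 19 (.base (.tri 13 11 12))),
  .old (.ne 13 20 (.base (.tri 13 12 21))), .old (.ne 13 23 (.base (.tri 13 14 22))),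
  .old (.ne 13 24 (.base (.tri 13 14 15))), .old (.ne 13 25 (.base (.tri 13 14 22))),
  .old (.ne 14 21 (.base (.tri 14 12 13))), .old (.ne 14 26 (.base (.tri 14 22 25))),
  .old (.ne 14 27 (.base (.tri 14 22 23))), .old (.ne 15 17 (.base (.tri 15 10 16))),
  .old (.ne 15 25 (.base (.tri 15 14 22))), .old (.ne 15 27 (.base (.tri 15 23 24))),
  .old (.ne 16 18 (.base (.tri 16 10 17))), .old (.ne 16 19 (.base (.tri 16 10 11))),
  .old (.ne 16 22 (.base (.tri 16 14 15))), .old (.ne 16 23 (.base (.tri 16 15 24))),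
  .old (.ne 17 20 (.base (.tri 17 18 19))), .old (.ne 18 21 (.base (.tri 18 19 20))),
  .old (.ne 24 25 (.base (.tri 24 22 23))), .old (.ne 24 26 (.base (.tri 24 23 27))),
  .old (.ne 0 1 (.four 16 15 24 0)), .old (.ne 0 9 (.four 24 23 27 0)),
  .old (.ne 0 10 (.four 0 16 15 24)), .old (.ne 0 13 (.four 0 14 15 24)),
  .old (.ne 0 25 (.four 0 22 23 24)), .old (.ne 0 26 (.four 24 23 27 0)),
  .old (.ne 1 2 (.four 16 10 17 1)), .old (.ne 1 12 (.four 1 11 10 16)),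
  .old (.ne 1 13 (.four 1 14 15 16)), .old (.ne 1 18 (.four 16 10 17 1)),
  .old (.ne 1 19 (.four 1 11 10 16)), .old (.ne 1 22 (.four 1 14 15 16)),
  .old (.ne 1 23 (.four 16 15 24 1)), .old (.ne 2 12 (.four 2 11 10 17)),
  .old (.ne 2 15 (.four 2 16 10 17)), .old (.ne 2 20 (.four 17 18 19 2)),
  .old (.ne 3 4 (.four 18 19 20 3)), .old (.ne 3 12 (.four 3 11 19 18)),
  .old (.ne 3 16 (.four 3 10 17 18)), .old (.ne 3 21 (.four 18 19 20 3)),
  .old (.ne 4 10 (.four 4 11 19 20)), .old (.ne 4 13 (.four 4 12 21 20)),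
  .old (.ne 4 17 (.four 4 18 19 20)), .old (.ne 5 6 (.four 13 12 21 5)),
  .old (.ne 5 10 (.four 5 11 12 21)), .old (.ne 5 14 (.four 5 13 12 21)),
  .old (.ne 5 18 (.four 5 19 20 21)), .old (.ne 6 10 (.four 6 11 12 13)),
  .old (.ne 6 16 (.four 13 14 15 6)), .old (.ne 6 19 (.four 6 11 12 13)),
  .old (.ne 6 20 (.four 13 12 21 6)), .old (.ne 6 23 (.four 13 14 22 6)),
  .old (.ne 6 24 (.four 13 14 15 6)), .old (.ne 6 25 (.four 13 14 22 6)),
  .old (.ne 7 9 (.four 25 26 27 7)), .old (.ne 7 13 (.four 7 14 22 25)),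
  .old (.ne 7 15 (.four 7 14 22 25)), .old (.ne 7 24 (.four 7 23 22 25)),
  .old (.ne 8 14 (.four 8 22 25 26)), .old (.ne 8 24 (.four 8 23 27 26)),
  .old (.ne 9 14 (.four 9 22 23 27)), .old (.ne 9 15 (.four 9 24 23 27)),
  .old (.ne 10 22 (.four 10 14 15 16)), .old (.ne 10 23 (.four 10 16 15 24)),
  .old (.ne 11 22 (.four 11 12 13 14)), .old (.ne 11 24 (.four 11 10 16 15)),
  .old (.ne 12 23 (.four 12 13 14 22)), .old (.ne 12 24 (.four 12 13 14 15)),
  .old (.ne 12 25 (.four 12 13 14 22)), .old (.ne 13 17 (.four 13 10 11 12)),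
  .old (.ne 13 18 (.four 13 12 11 19)), .old (.ne 13 26 (.four 13 14 22 25)),
  .old (.ne 13 27 (.four 13 14 22 23)), .old (.ne 14 17 (.four 14 10 16 15)),
  .old (.ne 14 19 (.four 14 11 12 13)), .old (.ne 14 20 (.four 14 13 12 21)),
  .old (.ne 15 18 (.four 15 16 10 17)), .old (.ne 15 19 (.four 15 11 10 16)),
  .old (.ne 15 21 (.four 15 12 13 14)), .old (.ne 15 26 (.four 15 14 22 25)),
  .old (.ne 16 20 (.four 16 10 11 19)), .old (.ne 16 21 (.four 16 10 11 12)),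
  .old (.ne 16 25 (.four 16 15 14 22)), .old (.ne 16 27 (.four 16 15 24 23)),
  .old (.ne 17 21 (.four 17 10 11 12)), .old (.ne 17 24 (.four 17 10 16 15)),
  .old (.ne 21 22 (.four 21 12 13 14)),
  .old (.ne 0 6 (.base (.corner 13 14 15 [24, 0] [16, 10, 11, 12]))),
  .old (.ne 0 7 (.base (.corner 24 23 22 [25, 0] [14, 15]))),
  .old (.ne 0 8 (.base (.corner 23 27 26 [0, 24] [25, 22]))),
  .old (.ne 0 11 (.base (.corner 0 10 16 [15, 24] [15, 14, 13, 12]))),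
  .old (.ne 0 12 (.base (.corner 0 13 14 [15, 24] [15, 16, 10, 11]))),
  .old (.ne 0 17 (.base (.corner 10 16 15 [24, 0] [14, 13, 12, 11]))),
  .old (.ne 1 3 (.base (.corner 10 17 18 [1, 16] [19, 11]))),
  .old (.ne 1 6 (.base (.corner 13 14 15 [16, 1] [16, 10, 11, 12]))),
  .old (.ne 1 20 (.base (.corner 16 10 11 [19, 1] [12, 13, 14, 15]))),
  .old (.ne 1 21 (.base (.corner 1 12 11 [10, 16] [19, 20]))),
  .old (.ne 1 25 (.base (.corner 16 15 14 [22, 1] [13, 12, 11, 10]))),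
  .old (.ne 1 27 (.base (.corner 15 24 23 [1, 16] [22, 14]))),
  .old (.ne 2 4 (.base (.corner 17 18 19 [20, 2] [11, 10]))),
  .old (.ne 2 13 (.base (.corner 2 12 11 [10, 17] [10, 16, 15, 14]))),
  .old (.ne 2 14 (.base (.corner 2 15 16 [10, 17] [10, 11, 12, 13]))),
  .old (.ne 2 21 (.base (.corner 2 12 11 [10, 17] [19, 20]))),
  .old (.ne 2 24 (.base (.corner 15 16 10 [17, 2] [11, 12, 13, 14]))),
  .old (.ne 3 5 (.base (.corner 19 20 21 [3, 18] [12, 11]))),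
  .old (.ne 3 13 (.base (.corner 3 12 11 [19, 18] [10, 16, 15, 14]))),
  .old (.ne 3 15 (.base (.corner 3 16 10 [17, 18] [11, 12, 13, 14]))),
  .old (.ne 4 6 (.base (.corner 12 21 20 [4, 13] [19, 11]))),
  .old (.ne 4 14 (.base (.corner 4 13 12 [21, 20] [11, 10, 16, 15]))),
  .old (.ne 4 16 (.base (.corner 4 10 11 [19, 20] [12, 13, 14, 15]))),
  .old (.ne 5 15 (.base (.corner 5 14 13 [12, 21] [12, 11, 10, 16]))),
  .old (.ne 5 16 (.base (.corner 5 10 11 [12, 21] [12, 13, 14, 15]))),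
  .old (.ne 5 17 (.base (.corner 5 10 11 [12, 21] [19, 18]))),
  .old (.ne 5 22 (.base (.corner 14 13 12 [21, 5] [11, 10, 16, 15]))),
  .old (.ne 6 7 (.five 13 14 22 25 6)),
  .old (.ne 6 17 (.base (.corner 6 10 11 [12, 13] [19, 18]))),
  .old (.ne 6 18 (.base (.corner 13 12 11 [19, 6] [10, 16, 15, 14]))),
  .old (.ne 6 26 (.base (.corner 22 25 6 [13, 14] [27, 23]))),
  .old (.ne 6 27 (.base (.corner 14 22 23 [6, 13] [24, 15]))),
  .old (.ne 7 12 (.base (.corner 7 13 14 [22, 25] [15, 16, 10, 11]))),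
  .old (.ne 7 16 (.base (.corner 7 15 14 [22, 25] [13, 12, 11, 10]))),
  .old (.ne 8 13 (.base (.corner 22 25 26 [8, 14] [27, 23]))),
  .old (.ne 8 15 (.base (.corner 8 14 22 [25, 26] [23, 24]))),
  .old (.ne 9 13 (.base (.corner 14 22 23 [27, 9] [24, 15]))),
  .old (.ne 9 16 (.base (.corner 15 24 23 [27, 9] [22, 14]))),
  .old (.ne 10 25 (.base (.corner 10 16 15 [14, 22] [14, 13, 12, 11]))),
  .old (.ne 10 27 (.base (.corner 10 16 15 [24, 23] [14, 13, 12, 11]))),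
  .old (.ne 11 23 (.base (.corner 11 10 16 [15, 24] [15, 14, 13, 12]))),
  .old (.ne 11 25 (.base (.corner 11 12 13 [14, 22] [14, 15, 16, 10]))),
  .old (.ne 12 26 (.base (.corner 12 13 14 [22, 25] [15, 16, 10, 11]))),
  .old (.ne 12 27 (.base (.corner 12 13 14 [22, 23] [15, 16, 10, 11]))),
  .old (.ne 14 18 (.base (.corner 14 13 12 [11, 19] [11, 10, 16, 15]))),
  .old (.ne 15 20 (.base (.corner 15 14 13 [12, 21] [12, 11, 10, 16]))),
  .old (.ne 16 26 (.base (.corner 16 15 14 [22, 25] [13, 12, 11, 10]))),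
  .old (.ne 17 22 (.base (.corner 10 16 15 [14, 17] [14, 13, 12, 11]))),
  .old (.ne 17 23 (.base (.corner 10 16 15 [24, 17] [14, 13, 12, 11]))),
  .old (.ne 18 24 (.base (.corner 15 16 10 [17, 18] [11, 12, 13, 14]))),
  .old (.ne 19 22 (.base (.corner 19 11 12 [13, 14] [21, 20]))),
  .old (.ne 19 24 (.base (.corner 19 11 10 [16, 15] [17, 18]))),
  .old (.ne 20 22 (.base (.corner 14 13 12 [21, 20] [11, 10, 16, 15]))),
  .old (.ne 21 23 (.base (.corner 12 13 14 [22, 21] [15, 16, 10, 11]))),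
  .old (.ne 21 24 (.base (.corner 12 13 14 [15, 21] [15, 16, 10, 11]))),
  .old (.ne 21 25 (.base (.corner 12 13 14 [22, 21] [15, 16, 10, 11]))),
  .old (.ne 0 2 (.base (.corner 10 16 15 [24, 0, 17] [14, 13, 12, 11]))),
  .old (.ne 0 18 (.base (.corner 0 17 10 [16, 15, 24] [11, 19]))),
  .old (.ne 0 19 (.base (.corner 0 11 10 [16, 15, 24] [17, 18]))),
  .old (.ne 0 21 (.base (.corner 12 13 14 [15, 24, 0] [15, 16, 10, 11]))),
  .old (.ne 1 4 (.base (.corner 16 10 11 [19, 20, 1] [12, 13, 14, 15]))),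
  .old (.ne 1 5 (.base (.corner 16 10 11 [12, 21, 1] [12, 13, 14, 15]))),
  .old (.ne 1 7 (.base (.corner 16 15 14 [22, 25, 1] [13, 12, 11, 10]))),
  .old (.ne 1 9 (.base (.corner 15 24 23 [27, 1, 16] [22, 14]))),
  .old (.ne 1 26 (.base (.corner 16 15 14 [22, 25, 1] [13, 12, 11, 10]))),
  .old (.ne 2 5 (.base (.corner 17 10 11 [12, 21, 2] [19, 18]))),
  .old (.ne 2 6 (.base (.corner 13 12 11 [10, 17, 2] [10, 16, 15, 14]))),
  .old (.ne 2 22 (.base (.corner 2 14 15 [16, 10, 17] [24, 23]))),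
  .old (.ne 2 23 (.base (.corner 10 16 15 [24, 2, 17] [14, 13, 12, 11]))),
  .old (.ne 3 6 (.base (.corner 13 12 11 [19, 18, 3] [10, 16, 15, 14]))),
  .old (.ne 3 14 (.base (.corner 3 13 12 [11, 19, 18] [11, 10, 16, 15]))),
  .old (.ne 3 24 (.base (.corner 15 16 10 [17, 18, 3] [11, 12, 13, 14]))),
  .old (.ne 4 15 (.base (.corner 4 14 13 [12, 21, 20] [12, 11, 10, 16]))),
  .old (.ne 4 22 (.base (.corner 14 13 12 [21, 20, 4] [11, 10, 16, 15]))),
  .old (.ne 5 23 (.base (.corner 12 13 14 [22, 5, 21] [15, 16, 10, 11]))),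
  .old (.ne 5 24 (.base (.corner 5 15 14 [13, 12, 21] [22, 23]))),
  .old (.ne 5 25 (.base (.corner 12 13 14 [22, 5, 21] [15, 16, 10, 11]))),
  .old (.ne 6 8 (.base (.corner 22 25 26 [6, 13, 14] [27, 23]))),
  .old (.ne 6 9 (.base (.corner 14 22 23 [27, 6, 13] [24, 15]))),
  .old (.ne 7 10 (.base (.corner 7 16 15 [14, 22, 25] [14, 13, 12, 11]))),
  .old (.ne 7 11 (.base (.corner 7 12 13 [14, 22, 25] [14, 15, 16, 10]))),
  .old (.ne 7 21 (.base (.corner 12 13 14 [22, 25, 7] [15, 16, 10, 11]))),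
  .old (.ne 8 12 (.base (.corner 8 13 14 [22, 25, 26] [15, 16, 10, 11]))),
  .old (.ne 8 16 (.base (.corner 8 15 14 [22, 25, 26] [13, 12, 11, 10]))),
  .old (.ne 9 10 (.base (.corner 9 16 15 [24, 23, 27] [14, 13, 12, 11]))),
  .old (.ne 9 12 (.base (.corner 9 13 14 [22, 23, 27] [15, 16, 10, 11]))),
  .old (.ne 10 26 (.base (.corner 10 16 15 [14, 22, 25] [14, 13, 12, 11]))),
  .old (.ne 11 26 (.base (.corner 11 12 13 [14, 22, 25] [14, 15, 16, 10]))),
  .old (.ne 11 27 (.base (.corner 11 10 16 [15, 24, 23] [15, 14, 13, 12]))),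
  .old (.ne 17 25 (.base (.corner 10 16 15 [14, 22, 17] [14, 13, 12, 11]))),
  .old (.ne 17 27 (.base (.corner 10 16 15 [24, 23, 17] [14, 13, 12, 11]))),
  .old (.ne 18 22 (.base (.corner 14 13 12 [11, 19, 18] [11, 10, 16, 15]))),
  .old (.ne 18 23 (.base (.corner 18 17 10 [16, 15, 24] [11, 19]))),
  .old (.ne 19 23 (.base (.corner 19 11 10 [16, 15, 24] [17, 18]))),
  .old (.ne 19 25 (.base (.corner 19 11 12 [13, 14, 22] [21, 20]))),
  .old (.ne 20 23 (.base (.corner 20 21 12 [13, 14, 22] [11, 19]))),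
  .old (.ne 20 24 (.base (.corner 20 15 14 [13, 12, 21] [22, 23]))),
  .old (.ne 20 25 (.base (.corner 20 21 12 [13, 14, 22] [11, 19]))),
  .old (.ne 21 26 (.base (.corner 12 13 14 [22, 25, 21] [15, 16, 10, 11]))),
  .old (.ne 21 27 (.base (.corner 12 13 14 [22, 23, 21] [15, 16, 10, 11]))),
  .old (.ne 0 3 (.base (.corner 18 17 10 [16, 15, 24, 0] [11, 19]))),
  .old (.ne 0 5 (.base (.corner 12 13 14 [15, 24, 0, 21] [15, 16, 10, 11]))),
  .old (.ne 0 20 (.base (.corner 0 19 11 [10, 16, 15, 24] [12, 21]))),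
  .old (.ne 1 8 (.base (.corner 16 15 14 [22, 25, 26, 1] [13, 12, 11, 10]))),
  .old (.ne 2 25 (.base (.corner 10 16 15 [14, 22, 2, 17] [14, 13, 12, 11]))),
  .old (.ne 2 27 (.base (.corner 10 16 15 [24, 23, 2, 17] [14, 13, 12, 11]))),
  .old (.ne 3 22 (.base (.corner 14 13 12 [11, 19, 18, 3] [11, 10, 16, 15]))),
  .old (.ne 3 23 (.base (.corner 18 17 10 [16, 15, 24, 3] [11, 19]))),
  .old (.ne 4 23 (.base (.corner 20 21 12 [13, 14, 22, 4] [11, 19]))),
  .old (.ne 4 24 (.base (.corner 4 15 14 [13, 12, 21, 20] [22, 23]))),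
  .old (.ne 4 25 (.base (.corner 20 21 12 [13, 14, 22, 4] [11, 19]))),
  .old (.ne 5 7 (.base (.corner 12 13 14 [22, 25, 5, 21] [15, 16, 10, 11]))),
  .old (.ne 5 26 (.base (.corner 12 13 14 [22, 25, 5, 21] [15, 16, 10, 11]))),
  .old (.ne 5 27 (.base (.corner 12 13 14 [22, 23, 5, 21] [15, 16, 10, 11]))),
  .old (.ne 7 17 (.base (.corner 10 16 15 [14, 22, 25, 7] [14, 13, 12, 11]))),
  .old (.ne 7 19 (.base (.corner 7 11 12 [13, 14, 22, 25] [21, 20]))),
  .old (.ne 7 20 (.base (.corner 7 21 12 [13, 14, 22, 25] [11, 19]))),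
  .old (.ne 8 10 (.base (.corner 8 16 15 [14, 22, 25, 26] [14, 13, 12, 11]))),
  .old (.ne 8 11 (.base (.corner 8 12 13 [14, 22, 25, 26] [14, 15, 16, 10]))),
  .old (.ne 8 21 (.base (.corner 12 13 14 [22, 25, 26, 8] [15, 16, 10, 11]))),
  .old (.ne 9 11 (.base (.corner 9 10 16 [15, 24, 23, 27] [15, 14, 13, 12]))),
  .old (.ne 9 17 (.base (.corner 10 16 15 [24, 23, 27, 9] [14, 13, 12, 11]))),
  .old (.ne 9 21 (.base (.corner 12 13 14 [22, 23, 27, 9] [15, 16, 10, 11]))),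
  .old (.ne 17 26 (.base (.corner 10 16 15 [14, 22, 25, 17] [14, 13, 12, 11]))),
  .old (.ne 18 25 (.base (.corner 18 17 10 [16, 15, 14, 22] [11, 19]))),
  .old (.ne 18 27 (.base (.corner 18 17 10 [16, 15, 24, 23] [11, 19]))),
  .old (.ne 19 26 (.base (.corner 19 11 12 [13, 14, 22, 25] [21, 20]))),
  .old (.ne 19 27 (.base (.corner 19 11 10 [16, 15, 24, 23] [17, 18]))),
  .old (.ne 20 26 (.base (.corner 20 21 12 [13, 14, 22, 25] [11, 19]))),
  .old (.ne 20 27 (.base (.corner 20 21 12 [13, 14, 22, 23] [11, 19]))),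
  .old (.na 0 13 (.base (.corner 13 14 15 [24, 0] [16, 10, 11, 12]))),
  .old (.na 24 12 (.base (.corner 12 13 14 [15, 24] [15, 16, 10, 11]))),
  .old (.na 15 21 (.base (.corner 15 14 13 [12, 21] [12, 11, 10, 16]))),
  .old (.na 14 20 (.base (.corner 14 13 12 [21, 20] [11, 10, 16, 15]))),
  .old (.ne 0 4 (.long 24 15 14 [13, 12, 21, 20, 0] [22, 23])),
  .old (.na 2 15 (.base (.corner 15 16 10 [17, 2] [11, 12, 13, 14]))),
  .old (.na 17 14 (.base (.corner 10 16 15 [14, 17] [14, 13, 12, 11]))),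
  .old (.na 10 22 (.base (.corner 10 16 15 [14, 22] [14, 13, 12, 11]))),
  .old (.na 16 25 (.base (.corner 16 15 14 [22, 25] [13, 12, 11, 10]))),
  .old (.ne 2 7 (.long 10 16 15 [14, 22, 25, 2, 17] [14, 13, 12, 11])),
  .old (.na 17 24 (.base (.corner 10 16 15 [24, 17] [14, 13, 12, 11]))),
  .old (.na 10 23 (.base (.corner 10 16 15 [24, 23] [14, 13, 12, 11]))),
  .old (.na 16 27 (.base (.corner 15 24 23 [27, 16] [22, 14]))),
  .old (.ne 2 9 (.long 10 16 15 [24, 23, 27, 2, 17] [14, 13, 12, 11])),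
  .old (.ne 2 26 (.long 10 16 15 [14, 22, 25, 2, 17] [14, 13, 12, 11])),
  .old (.na 3 16 (.base (.corner 10 17 18 [3, 16] [19, 11]))),
  .old (.na 18 15 (.base (.corner 15 16 10 [17, 18] [11, 12, 13, 14]))),
  .old (.ne 3 25 (.long 18 17 10 [16, 15, 14, 22, 3] [11, 19])),
  .old (.ne 3 27 (.long 18 17 10 [16, 15, 24, 23, 3] [11, 19])),
  .old (.na 4 13 (.base (.corner 12 21 20 [4, 13] [19, 11]))),
  .old (.na 21 22 (.base (.corner 12 13 14 [22, 21] [15, 16, 10, 11]))),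
  .old (.na 12 25 (.base (.corner 12 13 14 [22, 25] [15, 16, 10, 11]))),
  .old (.ne 4 7 (.long 20 21 12 [13, 14, 22, 25, 4] [11, 19])),
  .old (.ne 4 26 (.long 20 21 12 [13, 14, 22, 25, 4] [11, 19])),
  .old (.na 12 23 (.base (.corner 12 13 14 [22, 23] [15, 16, 10, 11]))),
  .old (.ne 4 27 (.long 20 21 12 [13, 14, 22, 23, 4] [11, 19])),
  .old (.na 5 14 (.base (.corner 14 13 12 [21, 5] [11, 10, 16, 15]))),
  .old (.na 13 26 (.base (.corner 22 25 26 [13, 14] [27, 23]))),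
  .old (.ne 5 8 (.long 12 13 14 [22, 25, 26, 5, 21] [15, 16, 10, 11])),
  .old (.na 13 27 (.base (.corner 14 22 23 [27, 13] [24, 15]))),
  .old (.ne 5 9 (.long 12 13 14 [22, 23, 27, 5, 21] [15, 16, 10, 11])),
  .old (.na 7 13 (.five 13 14 22 25 7)),
  .old (.na 22 11 (.base (.corner 11 12 13 [14, 22] [14, 15, 16, 10]))),
  .old (.na 14 19 (.base (.corner 14 13 12 [11, 19] [11, 10, 16, 15]))),
  .old (.ne 7 18 (.long 14 13 12 [11, 19, 7, 25, 22] [11, 10, 16, 15])),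
  .old (.na 8 14 (.base (.corner 22 25 26 [8, 14] [27, 23]))),
  .old (.na 26 15 (.base (.corner 15 14 22 [25, 26] [23, 24]))),
  .old (.ne 8 17 (.long 26 25 22 [14, 15, 16, 10, 8] [23, 27])),
  .old (.ne 8 19 (.long 26 25 22 [14, 13, 12, 11, 8] [23, 27])),
  .old (.ne 8 20 (.long 26 25 22 [14, 13, 12, 21, 8] [23, 27])),
  .old (.na 9 15 (.base (.corner 15 24 23 [27, 9] [22, 14]))),
  .old (.ne 9 18 (.long 23 24 15 [16, 10, 17, 9, 27] [14, 22])),
  .old (.na 9 14 (.base (.corner 14 22 23 [27, 9] [24, 15]))),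
  .old (.ne 9 19 (.long 27 23 22 [14, 13, 12, 11, 9] [25, 26])),
  .old (.ne 9 20 (.long 27 23 22 [14, 13, 12, 21, 9] [25, 26])),
  .old (.ne 18 26 (.long 18 17 10 [16, 15, 14, 22, 25] [11, 19])),
  .old (.na 14 2 (.base (.corner 10 16 15 [14, 2, 17] [14, 13, 12, 11]))),
  .old (.na 22 17 (.base (.corner 22 14 15 [16, 10, 17] [24, 23]))),
  .old (.na 25 10 (.base (.corner 10 16 15 [14, 22, 25] [14, 13, 12, 11]))),
  .old (.na 26 16 (.base (.corner 16 15 14 [22, 25, 26] [13, 12, 11, 10]))),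
  .nine 2 8 10 16 15 [14, 22, 25, 26, 2, 17] [14, 13, 12, 11],
  .old (.na 15 3 (.base (.corner 18 17 10 [16, 15, 3] [11, 19]))),
  .old (.na 14 18 (.base (.corner 14 13 12 [11, 19, 18] [11, 10, 16, 15]))),
  .nine 3 7 18 17 10 [16, 15, 14, 22, 25, 3] [11, 19],
  .old (.na 24 18 (.base (.corner 15 16 10 [17, 18, 24] [11, 12, 13, 14]))),
  .old (.na 23 17 (.base (.corner 10 16 15 [24, 23, 17] [14, 13, 12, 11]))),
  .old (.na 27 10 (.base (.corner 10 16 15 [24, 23, 27] [14, 13, 12, 11]))),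
  .nine 3 9 18 17 10 [16, 15, 24, 23, 27, 3] [11, 19],
  .nine 3 26 18 17 10 [16, 15, 14, 22, 25, 3] [11, 19],
  .old (.na 14 4 (.base (.corner 20 21 12 [13, 14, 4] [11, 19]))),
  .old (.na 22 20 (.base (.corner 14 13 12 [21, 20, 22] [11, 10, 16, 15]))),
  .old (.na 25 21 (.base (.corner 12 13 14 [22, 25, 21] [15, 16, 10, 11]))),
  .old (.na 26 12 (.base (.corner 12 13 14 [22, 25, 26] [15, 16, 10, 11]))),
  .nine 4 8 20 21 12 [13, 14, 22, 25, 26, 4] [11, 19],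
  .old (.na 23 21 (.base (.corner 12 13 14 [22, 23, 21] [15, 16, 10, 11]))),
  .old (.na 27 12 (.base (.corner 12 13 14 [22, 23, 27] [15, 16, 10, 11]))),
  .nine 4 9 20 21 12 [13, 14, 22, 23, 27, 4] [11, 19],
  .old (.na 13 8 (.base (.corner 26 25 22 [14, 13, 8] [23, 27]))),
  .old (.na 11 25 (.base (.corner 11 12 13 [14, 22, 25] [14, 15, 16, 10]))),
  .old (.na 19 22 (.base (.corner 19 11 12 [13, 14, 22] [21, 20]))),
  .nine 8 18 26 25 22 [14, 13, 12, 11, 19, 8] [23, 27],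
  .old (.cn 0 6 28 (.base (.corner 24 15 14 [13, 6, 28, 0] [22, 23]))),
  .old (.cn 2 3 28 (.five 2 17 18 3 28)), .old (.cn 4 5 28 (.five 4 20 21 5 28)),
  .old (.cn 7 8 28 (.five 7 25 26 8 28)),
  .old (.na 15 7 (.base (.corner 22 14 15 [7, 25] [24, 23]))),
  .old (.na 7 16 (.base (.corner 16 15 14 [22, 25, 7] [13, 12, 11, 10]))),
  .nineNa 2 7 10 16 15 [14, 22, 25, 7, 2, 17] [14, 13, 12, 11]]

theorem finG2R : finMN G2R [] [(3, 8)] comG2R [(2, 7)]
    [(18, 17, 2), (21, 20, 4), (22, 14, 13), (26, 25, 7)] stepsG2R = true := by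
  decide +kernel

end Pool.Agent.U2Geo

namespace Pool.Agent.T1Red

set_option synthInstance.maxSize 200000

theorem data_G2R' : Data G2R [] psG2R [] [(3, 8)] comG2R [(2, 7)] := by
  constructor <;> decide

end Pool.Agent.T1Red
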