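import Mathlib
import Pool.Agent.Work.MP_392c8e_co_uni.SideM
import Pool.Agent.Work.MP_392c8e_co_uni.ClsT
import Pool.Agent.Work.MP_392c8e_co_uni.OnceLab

/-!
# Side conditions of patches: the checker with turns

The rules are those of `ClsT`: cyclically 4-edge-connected cubic plane graphs, closed walks which
meet the set `S` (far from the faces of length four).  The table of the patch gives the turns.
-/

namespace Pool.Agent.U2Geo

open Pool.T1Side Pool.Agent.T1Red Pool.Agent.T1FF Pool.Agent.Sub392 Pool.Agent.T392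
open Pool.Agent.Once392 (RotOk NbR)

set_option linter.unusedSectionVars false

/-- The tests, with the left turns and the neighbours of the interior labels. -/
structure TsT where
  t : Tst
  lf : ℕ → ℕ → ℕ → Bool
  tr : ℕ → ℕ → ℕ → ℕ → Bool

/-- The left turns of a table with the rows `(p, a, b, c)`: in the rotation `b` is followed by `a`,
`a` by `c` and `c` by `b`. -/
def lfN (N : List (ℕ × ℕ × ℕ × ℕ)) (a v b : ℕ) : Bool :=
  N.any fun e => Nat.beq e.1 v && ((Nat.beq a e.2.2.1 && Nat.beq b e.2.1) ||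
    (Nat.beq a e.2.1 && Nat.beq b e.2.2.2) || (Nat.beq a e.2.2.2 && Nat.beq b e.2.2.1))

/-- All neighbours of `v` are among `x`, `y`, `z`. -/
def trN (N : List (ℕ × ℕ × ℕ × ℕ)) (v x y z : ℕ) : Bool :=
  N.any fun e => Nat.beq e.1 v && (Nat.beq e.2.1 x || Nat.beq e.2.1 y || Nat.beq e.2.1 z) &&
    (Nat.beq e.2.2.1 x || Nat.beq e.2.2.1 y || Nat.beq e.2.2.1 z) &&
    (Nat.beq e.2.2.2 x || Nat.beq e.2.2.2 y || Nat.beq e.2.2.2 z)

/-- The same after the identification of the labels `i`, `j`. -/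
def idt4 (i j : ℕ) (t : ℕ → ℕ → ℕ → ℕ → Bool) (v x y z : ℕ) : Bool :=
  t v x y z || (Nat.beq v i && t j x y z) || (Nat.beq x i && t v j y z) ||
    (Nat.beq y i && t v x j z) || (Nat.beq z i && t v x y j)

/-- The left turns after the identification of the labels `i`, `j`. -/
def idt3 (i j : ℕ) (t : ℕ → ℕ → ℕ → Bool) (a v b : ℕ) : Bool :=
  t a v b || (Nat.beq v i && t a j b) || (Nat.beq a i && t j v b) || (Nat.beq b i && t a v j)

/-- A left turn of the corner. -/
def TsT.lt (T : TsT) (t : ℕ × ℕ × ℕ) : Bool := T.lf t.1 t.2.1 t.2.2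

/-- A right turn of the corner. -/
def TsT.rt (T : TsT) (t : ℕ × ℕ × ℕ) : Bool := T.lf t.2.2 t.2.1 t.1

/-- The labels `i` and `j` are identified. -/
def TsT.ident (T : TsT) (i j : ℕ) : TsT := ⟨T.t.ident i j, idt3 i j T.lf, idt4 i j T.tr⟩

/-- The labels `i` and `j` are adjacent. -/
def TsT.join (T : TsT) (i j : ℕ) : TsT := ⟨T.t.join i j, T.lf, T.tr⟩

/-- The labels `i` and `j` are different. -/
def TsT.addNe (T : TsT) (i j : ℕ) : TsT :=
  ⟨⟨T.t.adj, fun a b => T.t.ne a b || isP i j a b, T.t.na⟩, T.lf, T.tr⟩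

/-- The labels `i` and `j` are not adjacent. -/
def TsT.addNa (T : TsT) (i j : ℕ) : TsT :=
  ⟨⟨T.t.adj, T.t.ne, fun a b => T.t.na a b || isP i j a b⟩, T.lf, T.tr⟩

/-- Consecutive labels are adjacent. -/
def Tst.ch (T : Tst) : List ℕ → Bool
  | a :: b :: l => T.adj a b && T.ch (b :: l)
  | _ => true

/-- All labels are different. -/
def Tst.nd (T : Tst) : List ℕ → Bool
  | [] => true
  | a :: l => (l.all fun b => T.ne a b) && T.nd l

/-- The position `q` is the position of a right turn which is not at the end of a chord. -/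
def TsT.q8 (T : TsT) (L : List ℕ) (q q' : ℕ) : Bool :=
  match (tps L)[q]?, (tps L)[(q + 4) % 8]?, (tps L)[q']? with
  | some t, some u, some u' => T.rt t && (T.t.na t.2.1 u.2.1 || T.lt u ||
      (T.rt u' && !(Nat.beq q' q) && !(Nat.beq q' ((q + 4) % 8))))
  | _, _, _ => false

/-- The corners `i` and `j` of the cycle turn to different sides. -/
def TsT.x2 (T : TsT) (L : List ℕ) (i j : ℕ) (p : List ℕ) : Bool :=
  match (tps L)[i]?, (tps L)[j]? with
  | some t, some u => T.lt t && T.rt u && T.t.ch (t.2.1 :: p ++ [u.2.1])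
  | _, _ => false

/-- Certificates of contradictions. -/
inductive CertT
  /-- the old certificates -/
  | base (c : Cert)
  /-- a closed walk of length four -/
  | four (a b c d : ℕ)
  /-- a closed walk of length five through the corner of a face which has not length five -/
  | five (a v b x y : ℕ)
  /-- a closed walk of length at most seven with a left and a right turn -/
  | seven (L : List ℕ)
  /-- a closed walk of length eight with five left turns and a right turn at `q` -/
  | eight (L : List ℕ) (q q' : ℕ)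
  /-- a path off a cycle from the right to the left side -/
  | cross (L : List ℕ) (i j : ℕ) (p : List ℕ)
  /-- `w` is a neighbour of `v`, hence equal to `z` -/
  | eq (v w x y z : ℕ) (c : CertT)
  /-- `v` has a fourth neighbour `w` -/
  | full (v w x y z : ℕ)
  /-- the labels are different by `c`, go on with `c'` -/
  | cut (i j : ℕ) (c c' : CertT)
  /-- the labels are not adjacent by `c`, go on with `c'` -/
  | cutA (i j : ℕ) (c c' : CertT)

/-- The check of a contradiction; the labels below `n` are in the set. -/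
def TsT.ref (F : List (ℕ × ℕ × ℕ)) (n : ℕ) (T : TsT) : CertT → Bool
  | .base (.corner a v b l l') => T.t.nb (a :: v :: b :: l) && T.t.nb (a :: v :: b :: l') &&
      AA l.length l'.length && T.t.dif l l' && Nat.blt a n
  | .base (.edge _ _ _ _) => false
  | .base (.tri a b c) => T.t.adj a b && T.t.adj b c && T.t.adj a c
  | .base (.self a) => T.t.ne a a || T.t.adj a a
  | .base (.nadj a b) => T.t.adj a b && T.t.na a b
  | .four a b c d => T.t.nb [a, b, c, d] && Nat.blt a n
  | .five a v b x y => T.t.nb [a, v, b, x, y] && hasF F a v b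
  | .seven L => T.t.nb L && Nat.ble 3 L.length && Nat.ble L.length 7 &&
      (L.any fun x => Nat.blt x n) && (tps L).any T.lt && (tps L).any T.rt
  | .eight L q q' => T.t.nb L && Nat.beq L.length 8 && (L.any fun x => Nat.blt x n) &&
      Nat.ble 5 ((List.range 8).filter fun i => ((tps L)[i]?).any T.lt).length && T.q8 L q q'
  | .cross L i j p => T.t.nb L && Nat.ble 3 L.length && T.t.nd L && !p.isEmpty &&
      (p.all fun x => L.all fun y => T.t.ne x y) && T.x2 L i j p
  | .eq v w x y z c => T.tr v x y z && T.t.adj v w && T.t.ne w x && T.t.ne w y &&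
      TsT.ref F n ((T.ident w z).ident z w) c
  | .full v w x y z => T.tr v x y z && T.t.adj v w && T.t.ne w x && T.t.ne w y && T.t.ne w z
  | .cut i j c c' => TsT.ref F n (T.ident i j) c && TsT.ref F n (T.addNe i j) c'
  | .cutA i j c c' => TsT.ref F n (T.join i j) c && TsT.ref F n (T.addNa i j) c'

section

variable {V : Type} [Fintype V] [DecidableEq V] {G : SimpleGraph V} [DecidableRel G.Adj]
  {R : Rot G} {S : V → Prop}

/-- The tests are sound. -/
structure TsT.Ok (R : Rot G) (f : ℕ → V) (T : TsT) : Prop where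
  t : T.t.Ok G f
  lf : ∀ a v b, T.lf a v b = true → Lt R (f a, f v, f b)
  tr : ∀ v x y z, T.tr v x y z = true → ∀ w, G.Adj (f v) w → w = f x ∨ w = f y ∨ w = f z

theorem trN_ok {f : ℕ → V} {N : List (ℕ × ℕ × ℕ × ℕ)} (hN : TabOk G f N) (v x y z : ℕ)
    (h : trN N v x y z = true) (w : V) (hw : G.Adj (f v) w) : w = f x ∨ w = f y ∨ w = f z := by
  unfold trN at h
  rw [List.any_eq_true] at h
  obtain ⟨e, he, h1⟩ := h
  simp only [Bool.and_eq_true] at h1
  obtain ⟨⟨⟨h1, h2⟩, h3⟩, h4⟩ := h1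
  have key : ∀ a : ℕ, (Nat.beq a x || Nat.beq a y || Nat.beq a z) = true → ∀ u, u = f a →
      u = f x ∨ u = f y ∨ u = f z := by
    intro a ha u hu
    simp only [Bool.or_eq_true] at ha
    rcases ha with (h | h) | h
    · exact Or.inl (Nat.eq_of_beq_eq_true h ▸ hu)
    · exact Or.inr (Or.inl (Nat.eq_of_beq_eq_true h ▸ hu))
    · exact Or.inr (Or.inr (Nat.eq_of_beq_eq_true h ▸ hu))
  have hw' : G.Adj (f e.1) w := by rw [Nat.eq_of_beq_eq_true h1]; exact hw
  rcases (hN e he).all w hw' with h | h | h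
  · exact key _ h2 w h
  · exact key _ h3 w h
  · exact key _ h4 w h

theorem TsT.Ok.lt {f : ℕ → V} {T : TsT} (h : T.Ok R f) {t : ℕ × ℕ × ℕ} (ht : T.lt t = true) :
    Lt R (f t.1, f t.2.1, f t.2.2) := h.lf _ _ _ ht

theorem TsT.Ok.rt {f : ℕ → V} {T : TsT} (h : T.Ok R f) {t : ℕ × ℕ × ℕ} (ht : T.rt t = true) :
    Lt R (rv (f t.1, f t.2.1, f t.2.2)) := h.lf _ _ _ ht

theorem lfN_ok {f : ℕ → V} {N : List (ℕ × ℕ × ℕ × ℕ)} (hN : RotOk R f N) (a v b : ℕ)
    (h : lfN N a v b = true) : Lt R (f a, f v, f b) := by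
  unfold lfN at h
  rw [List.any_eq_true] at h
  obtain ⟨e, he, h1⟩ := h
  simp only [Bool.and_eq_true, Bool.or_eq_true] at h1
  obtain ⟨h2, h3⟩ := h1
  obtain ⟨x, x1, x2, x3, x4, x5⟩ := hN e he
  have e1 := Nat.eq_of_beq_eq_true h2
  have f1 : (R.rot x).fst = x.fst := R.fst_rot x
  have f2 : (R.rot (R.rot x)).fst = x.fst := (R.fst_rot _).trans f1
  have key : ∀ y : G.Dart, (R.next y.symm) = R.rot y := fun y => by
    show R.rot y.symm.symm = R.rot y
    rw [SimpleGraph.Dart.symm_symm]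
  rcases h3 with (⟨h4, h5⟩ | ⟨h4, h5⟩) | ⟨h4, h5⟩
  · refine ⟨x.symm, ?_, ?_, ?_⟩
    · show x.snd = f a
      rw [x2, Nat.eq_of_beq_eq_true h4]
    · show x.fst = f v
      rw [x1, e1]
    · rw [key]
      show (R.rot x).snd = f b
      rw [x3, Nat.eq_of_beq_eq_true h5]
  · refine ⟨(R.rot x).symm, ?_, ?_, ?_⟩
    · show (R.rot x).snd = f a
      rw [x3, Nat.eq_of_beq_eq_true h4]
    · show (R.rot x).fst = f v
      rw [f1, x1, e1]
    · rw [key]
      show (R.rot (R.rot x)).snd = f b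
      rw [x4, Nat.eq_of_beq_eq_true h5]
  · refine ⟨(R.rot (R.rot x)).symm, ?_, ?_, ?_⟩
    · show (R.rot (R.rot x)).snd = f a
      rw [x4, Nat.eq_of_beq_eq_true h4]
    · show (R.rot (R.rot x)).fst = f v
      rw [f2, x1, e1]
    · rw [key, x5]
      show x.snd = f b
      rw [x2, Nat.eq_of_beq_eq_true h5]

theorem Tst.Ok.ch {f : ℕ → V} {T : Tst} (h : T.Ok G f) :
    ∀ l : List ℕ, T.ch l = true → List.IsChain G.Adj (l.map f)
  | [], _ => List.IsChain.nil
  | [_], _ => List.IsChain.singleton _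
  | a :: b :: l, hl => by
    unfold Tst.ch at hl
    rw [Bool.and_eq_true] at hl
    exact List.IsChain.cons_cons (h.adj _ _ hl.1) (Tst.Ok.ch h (b :: l) hl.2)

theorem Tst.Ok.nd {f : ℕ → V} {T : Tst} (h : T.Ok G f) :
    ∀ l : List ℕ, T.nd l = true → (l.map f).Nodup
  | [], _ => List.nodup_nil
  | a :: l, hl => by
    unfold Tst.nd at hl
    rw [Bool.and_eq_true, List.all_eq_true] at hl
    rw [List.map_cons, List.nodup_cons]
    refine ⟨fun hm => ?_, Tst.Ok.nd h l hl.2⟩
    obtain ⟨b, hb, hab⟩ := List.mem_map.1 hm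
    exact h.ne _ _ (hl.1 b hb) hab.symm

theorem tps_get {f : ℕ → V} {L : List ℕ} {i : ℕ} {t : ℕ × ℕ × ℕ} (h : (tps L)[i]? = some t) :
    (tps (L.map f))[i]? = some (f t.1, f t.2.1, f t.2.2) := by
  rw [tps_map, List.getElem?_map, h]
  rfl

theorem tp3_ne : ∀ {L : List V}, Tr G L → ∀ {t : V × V × V}, t ∈ tp3 L → t.1 ≠ t.2.2
  | [], _, _, ht => by simp [tp3] at ht
  | [_], _, _, ht => by simp [tp3] at ht
  | [_, _], _, _, ht => by simp [tp3] at ht
  | a :: b :: c :: l, h, t, ht => by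
    have h' : G.Adj a b ∧ a ≠ c ∧ Tr G (b :: c :: l) := h
    rcases List.mem_cons.1 (show t ∈ (a, b, c) :: tp3 (b :: c :: l) from ht) with rfl | h2
    · exact h'.2.1
    · exact tp3_ne h'.2.2 h2

theorem tps_ne {L : List V} (h : NB G L) {t : V × V × V} (ht : t ∈ tps L) : t.1 ≠ t.2.2 :=
  tp3_ne h ht

theorem Lt.adj {t : V × V × V} (h : Lt R t) : G.Adj t.1 t.2.1 ∧ G.Adj t.2.1 t.2.2 := by
  obtain ⟨d, h1, h2, h3⟩ := h
  constructor
  · rw [← h1, ← h2]; exact d.adj
  · have := (R.next d).adj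
    rw [R.fst_next, h2, h3] at this
    exact this

/-- No corner of a closed walk turns to both sides. -/
theorem not_both (hG : ClsT R S) {L : List V} (h : NB G L) {t : V × V × V} (ht : t ∈ tps L)
    (h1 : Lt R t) (h2 : Lt R (rv t)) : False :=
  (hG.lr t h1.adj.1 h1.adj.2 (tps_ne h ht)).1 h2 h1

theorem TsT.Ok.ident {f : ℕ → V} {T : TsT} (h : T.Ok R f) {i j : ℕ} (hij : f i = f j) :
    (T.ident i j).Ok R f := by
  refine ⟨h.t.ident hij, fun a v b hab => ?_, fun v x y z hab w hw => ?_⟩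
  · unfold TsT.ident idt3 at hab
    simp only [Bool.or_eq_true, Bool.and_eq_true] at hab
    rcases hab with ((h1 | ⟨h1, h2⟩) | ⟨h1, h2⟩) | ⟨h1, h2⟩
    · exact h.lf a v b h1
    · rw [Nat.eq_of_beq_eq_true h1, hij]
      exact h.lf a j b h2
    · rw [Nat.eq_of_beq_eq_true h1, hij]
      exact h.lf j v b h2
    · rw [Nat.eq_of_beq_eq_true h1, hij]
      exact h.lf a v j h2
  · unfold TsT.ident idt4 at hab
    simp only [Bool.or_eq_true, Bool.and_eq_true] at hab
    rcases hab with (((h1 | ⟨h1, h2⟩) | ⟨h1, h2⟩) | ⟨h1, h2⟩) | ⟨h1, h2⟩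
    · exact h.tr v x y z h1 w hw
    · rw [Nat.eq_of_beq_eq_true h1, hij] at hw
      exact h.tr j x y z h2 w hw
    · rw [Nat.eq_of_beq_eq_true h1, hij]
      exact h.tr v j y z h2 w hw
    · rw [Nat.eq_of_beq_eq_true h1, hij]
      exact h.tr v x j z h2 w hw
    · rw [Nat.eq_of_beq_eq_true h1, hij]
      exact h.tr v x y j h2 w hw

theorem TsT.Ok.join {f : ℕ → V} {T : TsT} (h : T.Ok R f) {i j : ℕ} (hij : G.Adj (f i) (f j)) :
    (T.join i j).Ok R f := ⟨h.t.join hij, h.lf, h.tr⟩

theorem TsT.Ok.addNe {f : ℕ → V} {T : TsT} (h : T.Ok R f) {i j : ℕ} (hij : f i ≠ f j) :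
    (T.addNe i j).Ok R f := by
  refine ⟨⟨h.t.adj, fun a b hab => ?_, h.t.na⟩, h.lf, h.tr⟩
  simp only [TsT.addNe, Bool.or_eq_true] at hab
  rcases hab with h1 | h1
  · exact h.t.ne a b h1
  · rcases isP_spec h1 with ⟨rfl, rfl⟩ | ⟨rfl, rfl⟩
    · exact hij
    · exact hij.symm

theorem TsT.Ok.addNa {f : ℕ → V} {T : TsT} (h : T.Ok R f) {i j : ℕ}
    (hij : ¬ G.Adj (f i) (f j)) : (T.addNa i j).Ok R f := by
  refine ⟨⟨h.t.adj, h.t.ne, fun a b hab => ?_⟩, h.lf, h.tr⟩
  simp only [TsT.addNa, Bool.or_eq_true] at hab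
  rcases hab with h1 | h1
  · exact h.t.na a b h1
  · rcases isP_spec h1 with ⟨rfl, rfl⟩ | ⟨rfl, rfl⟩
    · exact hij
    · exact fun h2 => hij h2.symm

/-- **Certificates are contradictions.** -/
theorem TsT.Ok.ref (hG : ClsT R S) {F : List (ℕ × ℕ × ℕ)} {n : ℕ} {f : ℕ → V}
    (hF : No5 G F f) (hS : ∀ k, k < n → S (f k)) {c : CertT} :
    ∀ {T : TsT}, T.Ok R f → T.ref F n c = true → False := by
  induction c with
  | eq v w x y z c ih =>
    intro T h hc
    simp only [TsT.ref, Bool.and_eq_true] at hc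
    obtain ⟨⟨⟨⟨h1, h2⟩, h3⟩, h4⟩, h5⟩ := hc
    have h6 : f w = f z := by
      rcases h.tr v x y z h1 (f w) (h.t.adj _ _ h2) with h7 | h7 | h7
      · exact absurd h7 (h.t.ne _ _ h3)
      · exact absurd h7 (h.t.ne _ _ h4)
      · exact h7
    exact ih ((h.ident h6).ident h6.symm) h5
  | cut i j c c' ih ih' =>
    intro T h hc
    simp only [TsT.ref, Bool.and_eq_true] at hc
    exact ih' (h.addNe fun h1 => ih (h.ident h1) hc.1) hc.2
  | cutA i j c c' ih ih' =>
    intro T h hc
    simp only [TsT.ref, Bool.and_eq_true] at hc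
    exact ih' (h.addNa fun h1 => ih (h.join h1) hc.1) hc.2
  | full v w x y z =>
    intro T h hc
    simp only [TsT.ref, Bool.and_eq_true] at hc
    obtain ⟨⟨⟨⟨h1, h2⟩, h3⟩, h4⟩, h5⟩ := hc
    rcases h.tr v x y z h1 (f w) (h.t.adj _ _ h2) with h7 | h7 | h7
    · exact absurd h7 (h.t.ne _ _ h3)
    · exact absurd h7 (h.t.ne _ _ h4)
    · exact absurd h7 (h.t.ne _ _ h5)
  | base c =>
    intro T h hc
    cases c with
    | corner a v b l l' =>
      simp only [TsT.ref, AA, Bool.and_eq_true, Nat.ble_eq, Nat.blt_eq] at hc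
      obtain ⟨⟨⟨⟨h1, h2⟩, h3, h3'⟩, h4⟩, h5⟩ := hc
      refine h.t.dif l l' h4 (hG.corner (f a) (f v) (f b) (l.map f) (l'.map f) (hS a h5)
        (h.t.nb h1) (h.t.nb h2) ?_ ?_)
      · rw [List.length_map]; exact h3
      · rw [List.length_map]; exact h3'
    | edge a v l l' => simp [TsT.ref] at hc
    | tri a b c =>
      simp only [TsT.ref, Bool.and_eq_true] at hc
      exact no_tri hG.tri (h.t.adj _ _ hc.1.1) (h.t.adj _ _ hc.1.2) (h.t.adj _ _ hc.2)
    | self a =>
      simp only [TsT.ref, Bool.or_eq_true] at hc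
      rcases hc with hc | hc
      · exact h.t.ne _ _ hc rfl
      · exact (h.t.adj _ _ hc).ne rfl
    | nadj a b =>
      simp only [TsT.ref, Bool.and_eq_true] at hc
      exact h.t.na _ _ hc.2 (h.t.adj _ _ hc.1)
  | four a b c d =>
    intro T h hc
    simp only [TsT.ref, Bool.and_eq_true, Nat.blt_eq] at hc
    exact hG.four (f a) (f b) (f c) (f d) (hS a hc.2) (h.t.nb hc.1)
  | five a v b x y =>
    intro T h hc
    simp only [TsT.ref, Bool.and_eq_true] at hc
    obtain ⟨h1, h2⟩ := hc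
    have h3 := h.t.nb h1
    unfold hasF at h2
    rw [List.any_eq_true] at h2
    obtain ⟨e, he, h4⟩ := h2
    simp only [Bool.or_eq_true, Bool.and_eq_true, beq_iff_eq] at h4
    rcases h4 with ⟨⟨h5, h6⟩, h7⟩ | ⟨⟨h5, h6⟩, h7⟩
    · refine hF e he (f x) (f y) ?_
      rw [h5, h6, h7]
      exact h3
    · refine hF e he (f y) (f x) ?_
      rw [h5, h6, h7]
      exact nb5_reverse h3
  | seven L =>
    intro T h hc
    simp only [TsT.ref, Bool.and_eq_true, Nat.ble_eq, List.any_eq_true, Nat.blt_eq] at hc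
    obtain ⟨⟨⟨⟨⟨h1, h2⟩, h3⟩, x, hx, hxn⟩, t, ht, htl⟩, u, hu, hur⟩ := hc
    have ht' : (f t.1, f t.2.1, f t.2.2) ∈ tps (L.map f) := by
      rw [tps_map]; exact List.mem_map.2 ⟨t, ht, rfl⟩
    have hu' : (f u.1, f u.2.1, f u.2.2) ∈ tps (L.map f) := by
      rw [tps_map]; exact List.mem_map.2 ⟨u, hu, rfl⟩
    rcases hG.seven (L.map f) ⟨f x, List.mem_map.2 ⟨x, hx, rfl⟩, hS x hxn⟩ (h.t.nb h1)
      (by rw [List.length_map]; exact h2) (by rw [List.length_map]; exact h3) with h4 | h4
    · exact not_both hG (h.t.nb h1) hu' (h4 _ hu') (h.rt hur)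
    · exact not_both hG (h.t.nb h1) ht' (h.lt htl) (h4 _ ht')
  | eight L q q' =>
    intro T h hc
    simp only [TsT.ref, Bool.and_eq_true, List.any_eq_true, Nat.blt_eq, Nat.ble_eq] at hc
    obtain ⟨⟨⟨⟨h1, h2⟩, x, hx, hxn⟩, h3⟩, h4⟩ := hc
    have hlen : (L.map f).length = 8 := by
      rw [List.length_map]; exact Nat.eq_of_beq_eq_true h2
    set P := (List.range 8).filter fun i => ((tps L)[i]?).any T.lt with hP
    have hPn : P.Nodup := List.Nodup.filter _ List.nodup_range
    have hPl : ∀ i ∈ P, ∃ t : V × V × V, (tps (L.map f))[i]? = some t ∧ Lt R t := by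
      intro i hi
      rw [hP, List.mem_filter] at hi
      obtain ⟨-, htl⟩ := hi
      cases ht : (tps L)[i]? with
      | none => rw [ht] at htl; exact absurd htl (by simp)
      | some t =>
        rw [ht] at htl
        exact ⟨_, tps_get ht, h.lt htl⟩
    unfold TsT.q8 at h4
    split at h4
    · rename_i t u u' e1 e2 e3
      simp only [Bool.and_eq_true, Bool.or_eq_true, Bool.not_eq_true'] at h4
      obtain ⟨h5, h6⟩ := h4
      refine hG.eight (L.map f) ⟨f x, List.mem_map.2 ⟨x, hx, rfl⟩, hS x hxn⟩ (h.t.nb h1)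
        hlen P hPn h3 hPl q _ (tps_get e1) (h.rt h5) ?_
      rcases h6 with (h6 | h6) | ⟨⟨h6, h7⟩, h8⟩
      · exact Or.inl ⟨_, tps_get e2, h.t.na _ _ h6⟩
      · refine Or.inr (Or.inl ?_)
        rw [hP, List.mem_filter]
        refine ⟨List.mem_range.2 (Nat.mod_lt _ (by norm_num)), ?_⟩
        rw [e2]
        exact h6
      · refine Or.inr (Or.inr ⟨q', _, tps_get e3, h.rt h6, ?_, ?_⟩)
        · rintro rfl
          rw [Nat.beq_refl] at h7
          exact absurd h7 (by simp)
        · intro h9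
          rw [h9, Nat.beq_refl] at h8
          exact absurd h8 (by simp)
    · exact absurd h4 (by simp)
  | cross L i j p =>
    intro T h hc
    simp only [TsT.ref, Bool.and_eq_true, Nat.ble_eq, List.all_eq_true] at hc
    obtain ⟨⟨⟨⟨⟨h1, h2⟩, h3⟩, h4⟩, h5⟩, h6⟩ := hc
    unfold TsT.x2 at h6
    split at h6
    · rename_i t u e1 e2
      simp only [Bool.and_eq_true] at h6
      obtain ⟨⟨h7, h8⟩, h9⟩ := h6
      have hp : p.map f ≠ [] := by
        intro h10
        rw [List.map_eq_nil_iff] at h10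
        rw [h10] at h4
        simp at h4
      refine hG.cross (L.map f) (h.t.nb h1) (by rw [List.length_map]; exact h2) (h.t.nd _ h3)
        i _ (tps_get e1) (h.lt h7) j _ (tps_get e2) (h.rt h8) (p.map f) ?_ ?_
        (fun h10 => absurd h10 hp)
      · have := h.t.ch _ h9
        simpa using this
      · intro x hx hxL
        obtain ⟨a, ha, rfl⟩ := List.mem_map.1 hx
        obtain ⟨b, hb, hab⟩ := List.mem_map.1 hxL
        exact h.t.ne _ _ (h5 a ha b hb) hab.symm
    · exact absurd h6 (by simp)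

/-! ### Identification, new edges, new labels -/

/-- Both labels of every pair of the list are identified. -/
def TsT.ties (T : TsT) (l : List (ℕ × ℕ)) : TsT :=
  l.foldl (fun T e => (T.ident e.1 e.2).ident e.2 e.1) T

theorem TsT.Ok.ties {f : ℕ → V} : ∀ (l : List (ℕ × ℕ)) {T : TsT}, T.Ok R f →
    (∀ e ∈ l, f e.1 = f e.2) → (T.ties l).Ok R f
  | [], _, h, _ => h
  | e :: l, T, h, hl => TsT.Ok.ties l (T := (T.ident e.1 e.2).ident e.2 e.1)
      ((h.ident (hl e List.mem_cons_self)).ident (hl e List.mem_cons_self).symm)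
      fun e' he' => hl e' (List.mem_cons_of_mem _ he')

/-- A new label `n` adjacent to `i` and `j`, different from the labels `t, …, n - 1`. -/
def TsT.common (T : TsT) (t n i j : ℕ) : TsT :=
  ⟨T.t.common t n i j, fun a v b => Nat.blt a n && Nat.blt v n && Nat.blt b n && T.lf a v b,
    fun v x y z => Nat.blt v n && Nat.blt x n && Nat.blt y n && Nat.blt z n && T.tr v x y z⟩

theorem TsT.Ok.common {f : ℕ → V} {T : TsT} (h : T.Ok R f) {t n i j : ℕ} (hi : i < n) (hj : j < n)
    {w : V} (hw : ∀ k, t ≤ k → k < n → w ≠ f k) (hiw : G.Adj (f i) w) (hjw : G.Adj (f j) w) :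
    (T.common t n i j).Ok R (fun x => if x = n then w else f x) := by
  refine ⟨h.t.common hi hj hw hiw hjw, fun a v b hab => ?_, fun v x y z hab u hu => ?_⟩
  · unfold TsT.common at hab
    simp only [Bool.and_eq_true, Nat.blt_eq] at hab
    obtain ⟨⟨⟨h1, h2⟩, h3⟩, h4⟩ := hab
    show Lt R (if a = n then w else f a, if v = n then w else f v, if b = n then w else f b)
    rw [if_neg (by omega), if_neg (by omega), if_neg (by omega)]
    exact h.lf a v b h4
  · unfold TsT.common at hab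
    simp only [Bool.and_eq_true, Nat.blt_eq] at hab
    obtain ⟨⟨⟨⟨h1, h2⟩, h3⟩, h4⟩, h5⟩ := hab
    have hu' : G.Adj (if v = n then w else f v) u := hu
    rw [if_neg (by omega)] at hu'
    show u = (if x = n then w else f x) ∨ u = (if y = n then w else f y) ∨
      u = (if z = n then w else f z)
    rw [if_neg (by omega), if_neg (by omega), if_neg (by omega)]
    exact h.tr v x y z h5 u hu'

/-! ### Steps -/

/-- The steps. -/
inductive StepT
  /-- the labels are different -/
  | ne (i j : ℕ) (c : CertT)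
  /-- the labels are not adjacent -/
  | na (i j : ℕ) (c : CertT)
  /-- the labels have no common neighbour outside -/
  | cn (i j : ℕ) (c : CertT)

/-- The tests of the state. -/
def MSt.tsT (s : MSt) (N : List (ℕ × ℕ × ℕ × ℕ)) (ti : List (ℕ × ℕ)) : TsT :=
  (TsT.mk s.tst (lfN N) (trN N)).ties ti

/-- One step. -/
def stepT (N : List (ℕ × ℕ × ℕ × ℕ)) (ti : List (ℕ × ℕ)) (F : List (ℕ × ℕ × ℕ)) (t n : ℕ)
    (s : MSt) : StepT → Option MSt
  | .ne i j c => cond (Nat.blt j 32 && ((s.tsT N ti).ident i j).ref F n c)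
      (some ⟨s.adj, ins s.ne i j, s.na, s.cn⟩) none
  | .na i j c => cond (Nat.blt j 32 && ((s.tsT N ti).join i j).ref F n c)
      (some ⟨s.adj, s.ne, ins s.na i j, s.cn⟩) none
  | .cn i j c => cond (Nat.blt i n && Nat.blt j n && belowF n F && below n ti &&
      (((s.tsT N ti).common t n i j).ties ti).ref F n c)
      (some ⟨s.adj, s.ne, s.na, (i, j) :: s.cn⟩) none

theorem MSt.Ok.tsT {N : List (ℕ × ℕ × ℕ × ℕ)} {ti : List (ℕ × ℕ)} {t n : ℕ} {f : ℕ → V}
    {s : MSt} (h : s.Ok G t n f) (hN : RotOk R f N) (hN' : TabOk G f N)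
    (hti : ∀ e ∈ ti, f e.1 = f e.2) : (s.tsT N ti).Ok R f :=
  TsT.Ok.ties ti ⟨h.tst, lfN_ok hN, trN_ok hN'⟩ hti

theorem stepT_sound (hG : ClsT R S) {N : List (ℕ × ℕ × ℕ × ℕ)} {ti : List (ℕ × ℕ)}
    {F : List (ℕ × ℕ × ℕ)} {t n : ℕ} {f : ℕ → V} {s s' : MSt} (hF : No5 G F f)
    (hN : RotOk R f N) (hN' : TabOk G f N) (hti : ∀ e ∈ ti, f e.1 = f e.2)
    (hS : ∀ k, k < n → S (f k)) (h : s.Ok G t n f) {x : StepT} (hs : stepT N ti F t n s x = some s') : s'.Ok G t n f := by
  have hT := h.tsT hN hN' hti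
  cases x with
  | ne i j c =>
    unfold stepT at hs
    cases hc : (Nat.blt j 32 && ((s.tsT N ti).ident i j).ref F n c)
    · simp [hc] at hs
    · simp only [hc, cond_true, Option.some.injEq] at hs
      subst hs
      rw [Bool.and_eq_true, Nat.blt_eq] at hc
      exact ⟨h.adj, h.ne.ins hc.1 fun hij => (TsT.Ok.ref hG hF hS (hT.ident hij) hc.2), h.na, h.cn⟩
  | na i j c =>
    unfold stepT at hs
    cases hc : (Nat.blt j 32 && ((s.tsT N ti).join i j).ref F n c)
    · simp [hc] at hs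
    · simp only [hc, cond_true, Option.some.injEq] at hs
      subst hs
      rw [Bool.and_eq_true, Nat.blt_eq] at hc
      exact ⟨h.adj, h.ne, h.na.ins hc.1 fun hij => (TsT.Ok.ref hG hF hS (hT.join hij) hc.2), h.cn⟩
  | cn i j c =>
    unfold stepT at hs
    cases hc : (Nat.blt i n && Nat.blt j n && belowF n F && below n ti &&
        (((s.tsT N ti).common t n i j).ties ti).ref F n c)
    · simp [hc] at hs
    · simp only [hc, cond_true, Option.some.injEq] at hs
      subst hs
      simp only [Bool.and_eq_true, Nat.blt_eq] at hc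
      obtain ⟨⟨⟨⟨h5, h6⟩, h7⟩, h7'⟩, h8⟩ := hc
      refine ⟨h.adj, h.ne, h.na, fun e he => ?_⟩
      rcases List.mem_cons.1 he with rfl | he
      · intro w hw hiw hjw
        refine TsT.Ok.ref hG (F := F) (n := n) (f := fun x => if x = n then w else f x) ?_ ?_
          (TsT.Ok.ties ti (hT.common h5 h6 hw hiw hjw) ?_) h8
        · intro e he x y
          unfold belowF at h7
          rw [List.all_eq_true] at h7
          have h9 := h7 e he
          simp only [Bool.and_eq_true, Nat.blt_eq] at h9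
          obtain ⟨⟨k1, k2⟩, k3⟩ := h9
          show ¬ NB G [if e.1 = n then w else f e.1, if e.2.1 = n then w else f e.2.1,
            if e.2.2 = n then w else f e.2.2, x, y]
          rw [if_neg (by omega), if_neg (by omega), if_neg (by omega)]
          exact hF e he x y
        · intro k hk
          show S (if k = n then w else f k)
          rw [if_neg (by omega)]
          exact hS k hk
        · intro e he
          have h9 := below_spec h7' he
          show (if e.1 = n then w else f e.1) = (if e.2 = n then w else f e.2)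
          rw [if_neg (by omega), if_neg (by omega)]
          exact hti e he
      · exact h.cn _ he

/-- All steps. -/
def runT (N : List (ℕ × ℕ × ℕ × ℕ)) (ti : List (ℕ × ℕ)) (F : List (ℕ × ℕ × ℕ)) (t n : ℕ) :
    List StepT → MSt → Option MSt
  | [], s => some s
  | x :: xs, s => match stepT N ti F t n s x with
    | none => none
    | some s' => runT N ti F t n xs s'

theorem runT_sound (hG : ClsT R S) {N : List (ℕ × ℕ × ℕ × ℕ)} {ti : List (ℕ × ℕ)}
    {F : List (ℕ × ℕ × ℕ)} {t n : ℕ} {f : ℕ → V} (hF : No5 G F f)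
    (hN : RotOk R f N) (hN' : TabOk G f N) (hti : ∀ e ∈ ti, f e.1 = f e.2)
    (hS : ∀ k, k < n → S (f k)) : ∀ (ts : List StepT) (s s' : MSt), s.Ok G t n f → runT N ti F t n ts s = some s' →
      s'.Ok G t n f
  | [], s, s', h, hs => by
    have : s = s' := by simpa [runT] using hs
    exact this ▸ h
  | x :: xs, s, s', h, hs => by
    unfold runT at hs
    split at hs
    · exact absurd hs (by simp)
    · rename_i s1 h1
      exact runT_sound hG hF hN hN' hti hS xs s1 s' (stepT_sound hG hF hN hN' hti hS h h1) hs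

/-- The initial state; `xj` are pairs of adjacent labels, `xn` pairs of different labels, `xa`
pairs of labels which are not adjacent. -/
def startT (R : Red) (xj xn xa : List (ℕ × ℕ)) : MSt :=
  ⟨mk xj (mk R.ed 0), mk xj (mk xn (mk (St.start R.ed (inner R)).ne 0)), mk xa 0, []⟩

/-- All labels of the lists are small. -/
def okT (R : Red) (xj xn xa : List (ℕ × ℕ)) : Bool :=
  (R.ed.all fun e => Nat.blt e.2 32) &&
  ((St.start R.ed (inner R)).ne.all fun e => Nat.blt e.2 32) && (xj.all fun e => Nat.blt e.2 32) &&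
  (xn.all fun e => Nat.blt e.2 32) && (xa.all fun e => Nat.blt e.2 32)

theorem startT_ok {A : Red} {xj xn xa : List (ℕ × ℕ)} {f : ℕ → V}
    (h1 : Copy G A.ed (inner A) f) (hxj : ∀ e ∈ xj, G.Adj (f e.1) (f e.2))
    (hxn : ∀ e ∈ xn, f e.1 ≠ f e.2) (hxa : ∀ e ∈ xa, ¬ G.Adj (f e.1) (f e.2))
    (hf : okT A xj xn xa = true) : (startT A xj xn xa).Ok G A.t (A.t + A.m) f := by
  unfold okT at hf
  simp only [Bool.and_eq_true] at hf
  obtain ⟨⟨⟨⟨hb1, hb2⟩, hb3⟩, hb4⟩, hb5⟩ := hf
  exact ⟨MOk.mk _ _ (MOk.mk _ _ (MOk.zero _) h1.start.1 hb1) hxj hb3,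
    MOk.mk _ _ (MOk.mk _ _ (MOk.mk _ _ (MOk.zero _) h1.start.2.1 hb2) hxn hb4)
      (fun e he => (hxj e he).ne) hb3,
    MOk.mk _ _ (MOk.zero _) hxa hb5, fun e he => by simp [startT] at he⟩

/-- The whole check. -/
def finT (R : Red) (nl co com bad ti xj xn xa : List (ℕ × ℕ)) (N : List (ℕ × ℕ × ℕ × ℕ))
    (F : List (ℕ × ℕ × ℕ)) (ts : List StepT) : Bool :=
  okT R xj xn xa && match runT N ti F R.t (R.t + R.m) ts (startT R xj xn xa) with
  | none => false
  | some s' => ((pairs (olds R nl)).all fun e => (s'.tsT N ti).t.ne e.1 e.2 || has co e.1 e.2) &&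
      (com.all fun e => has s'.cn e.1 e.2) && (bad.all fun e => (s'.tsT N ti).t.na e.1 e.2)

/-- **Patches from tables and certificates with turns.** -/
theorem patch_ofT (hG : ClsT R S) {A : Red} {nl co com bad ti xj xn xa : List (ℕ × ℕ)}
    {F : List (ℕ × ℕ × ℕ)} {ts : List StepT} {f : ℕ → V} {N : List (ℕ × ℕ × ℕ × ℕ)}
    (ht : TabOk G f N) (hN : RotOk R f N) (hc : chk A.ed (inner A) N = true)
    (hS : ∀ k, k < A.t + A.m → S (f k)) (hF : No5 G F f)
    (hti : ∀ e ∈ ti, f e.1 = f e.2) (hxj : ∀ e ∈ xj, G.Adj (f e.1) (f e.2))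
    (hxn : ∀ e ∈ xn, f e.1 ≠ f e.2) (hxa : ∀ e ∈ xa, ¬ G.Adj (f e.1) (f e.2))
    (hf : finT A nl co com bad ti xj xn xa N F ts = true) : Patch G A nl co com bad f := by
  obtain ⟨h1, h2⟩ := copy_of_tab ht hc
  unfold finT at hf
  rw [Bool.and_eq_true] at hf
  obtain ⟨hb, hf⟩ := hf
  have h0 := startT_ok h1 hxj hxn hxa hb
  split at hf
  · exact absurd hf (by simp)
  · rename_i s' hs
    rw [Bool.and_eq_true, Bool.and_eq_true, List.all_eq_true, List.all_eq_true,
      List.all_eq_true] at hf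
    have h' := runT_sound hG hF hN ht hti hS ts _ s' h0 hs
    have hT := h'.tsT hN ht hti
    obtain ⟨⟨k1, k2⟩, k3⟩ := hf
    have key : ∀ i j, Real A nl [] i → Real A nl [] j → i < j → f i = f j → Same co i j := by
      intro i j hi hj hij hfij
      have h3 := k1 (i, j) (mem_pairs (List.Pairwise.filter _ List.pairwise_lt_range)
        (mem_olds hi) (mem_olds hj) hij)
      rw [Bool.or_eq_true] at h3
      rcases h3 with h3 | h3
      · exact absurd hfij (hT.t.ne _ _ h3)
      · rcases has_spec h3 with h4 | h4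
        · exact Or.inr (Or.inl h4)
        · exact Or.inr (Or.inr h4)
    refine ⟨?_, h1.adj, ?_, ?_, fun e he => hT.t.na _ _ (k3 e he)⟩
    · intro i j hi hj hij
      rcases lt_trichotomy i j with h3 | h3 | h3
      · exact key i j hi hj h3 hij
      · exact Or.inl h3
      · exact (key j i hj hi h3 hij.symm).symm
    · intro i hi hi' w hw
      obtain ⟨j, hj, hwj⟩ := h2 i (mem_inner.2 ⟨hi, hi'⟩) w hw
      exact ⟨j, nbs_mem hj, hwj⟩
    · intro p hp w hw ⟨h3, h4⟩
      have h5 := k2 p hp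
      have h6 : ∀ k, A.t ≤ k → k < A.t + A.m → w ≠ f k := fun k hk hk' h7 =>
        hw ⟨k, hk, hk', h7.symm⟩
      rcases has_spec h5 with h8 | h8
      · exact h'.cn _ h8 w h6 h3 h4.symm
      · exact h'.cn _ h8 w h6 h4.symm h3

/-- The check of a contradiction from the hypotheses. -/
def absT (R : Red) (ti xj xn xa : List (ℕ × ℕ)) (N : List (ℕ × ℕ × ℕ × ℕ))
    (F : List (ℕ × ℕ × ℕ)) (ts : List StepT) (c : CertT) : Bool :=
  okT R xj xn xa && match runT N ti F R.t (R.t + R.m) ts (startT R xj xn xa) with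
  | none => false
  | some s' => (s'.tsT N ti).ref F (R.t + R.m) c

/-- **The hypotheses are contradictory.** -/
theorem false_ofT (hG : ClsT R S) {A : Red} {ti xj xn xa : List (ℕ × ℕ)}
    {F : List (ℕ × ℕ × ℕ)} {ts : List StepT} {c : CertT} {f : ℕ → V}
    {N : List (ℕ × ℕ × ℕ × ℕ)} (ht : TabOk G f N) (hN : RotOk R f N)
    (hc : chk A.ed (inner A) N = true) (hS : ∀ k, k < A.t + A.m → S (f k)) (hF : No5 G F f)
    (hti : ∀ e ∈ ti, f e.1 = f e.2) (hxj : ∀ e ∈ xj, G.Adj (f e.1) (f e.2))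
    (hxn : ∀ e ∈ xn, f e.1 ≠ f e.2) (hxa : ∀ e ∈ xa, ¬ G.Adj (f e.1) (f e.2))
    (hf : absT A ti xj xn xa N F ts c = true) : False := by
  obtain ⟨h1, -⟩ := copy_of_tab ht hc
  unfold absT at hf
  rw [Bool.and_eq_true] at hf
  obtain ⟨hb, hf⟩ := hf
  have h0 := startT_ok h1 hxj hxn hxa hb
  split at hf
  · exact absurd hf (by simp)
  · rename_i s' hs
    have h' := runT_sound hG hF hN ht hti hS ts _ s' h0 hs
    exact TsT.Ok.ref hG hF hS (h'.tsT hN ht hti) hf

end

end Pool.Agent.U2Geo
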