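import Mathlib
import Pool.Agent.Work.MP_392c8e_co_uni.SideT

/-!
# Certificate for the place G2 in cyclically 4-edge-connected graphs

The steps for the checker of `SideT`; four pairs of terminals are left.
-/

namespace Pool.Agent.U2Geo

/-- The steps. -/
def tsG2T : List StepT :=
  [.ne 0 10 (.base (.tri 0 9 15)), .ne 0 13 (.base (.tri 0 14 15)), .ne 0 16 (.base (.tri 0 9
  15)), .ne 0 23 (.base (.tri 0 14 15)), .ne 1 2 (.base (.tri 1 16 17)), .ne 1 10 (.base (.tri 1 9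
  16)), .ne 1 15 (.base (.tri 1 9 16)), .ne 1 18 (.base (.tri 1 16 17)), .ne 2 9 (.base (.tri 2 16
  17)), .ne 2 10 (.base (.tri 2 17 18)), .ne 2 19 (.base (.tri 2 17 18)), .ne 3 4 (.base (.tri 3
  19 20)), .ne 3 10 (.base (.tri 3 18 19)), .ne 3 11 (.base (.tri 3 19 20)), .ne 3 17 (.base (.tri
  3 18 19)), .ne 4 10 (.base (.tri 4 11 20)), .ne 4 12 (.base (.tri 4 11 20)), .ne 4 18 (.base
  (.tri 4 19 20)), .ne 5 10 (.base (.tri 5 11 12)), .ne 5 14 (.base (.tri 5 12 13)), .ne 5 20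
  (.base (.tri 5 11 12)), .ne 5 21 (.base (.tri 5 12 13)), .ne 6 7 (.base (.tri 6 21 22)), .ne 6
  12 (.base (.tri 6 13 21)), .ne 6 14 (.base (.tri 6 13 21)), .ne 6 23 (.base (.tri 6 21 22)), .ne
  7 8 (.base (.tri 7 22 23)), .ne 7 13 (.base (.tri 7 21 22)), .ne 7 14 (.base (.tri 7 22 23)),
  .ne 8 13 (.base (.tri 8 14 23)), .ne 8 15 (.base (.tri 8 14 23)), .ne 8 21 (.base (.tri 8 22
  23)), .ne 9 12 (.base (.tri 9 10 11)), .ne 9 13 (.base (.tri 9 14 15)), .ne 9 19 (.base (.tri 9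
  10 18)), .ne 9 20 (.base (.tri 9 10 11)), .ne 9 23 (.base (.tri 9 14 15)), .ne 10 13 (.base
  (.tri 10 11 12)), .ne 10 14 (.base (.tri 9 10 15)), .ne 11 14 (.base (.tri 11 12 13)), .ne 11 15
  (.base (.tri 9 10 11)), .ne 11 16 (.base (.tri 9 10 11)), .ne 11 17 (.base (.tri 10 11 18)), .ne
  11 21 (.base (.tri 11 12 13)), .ne 12 15 (.base (.tri 12 13 14)), .ne 12 18 (.base (.tri 10 11
  12)), .ne 12 19 (.base (.tri 11 12 20)), .ne 12 22 (.base (.tri 12 13 21)), .ne 12 23 (.base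
  (.tri 12 13 14)), .ne 13 20 (.base (.tri 11 12 13)), .ne 14 16 (.base (.tri 9 14 15)), .ne 15 17
  (.base (.tri 9 15 16)), .ne 15 18 (.base (.tri 9 10 15)), .ne 15 21 (.base (.tri 13 14 15)), .ne
  15 22 (.base (.tri 14 15 23)), .ne 16 19 (.base (.tri 16 17 18)), .ne 17 20 (.base (.tri 17 18
  19)), .ne 0 1 (.four 0 15 9 16), .ne 0 8 (.four 0 15 14 23), .ne 0 11 (.four 0 10 9 15), .ne 0
  12 (.four 0 13 14 15), .ne 0 17 (.four 0 15 9 16), .ne 0 18 (.four 0 10 9 15), .ne 0 21 (.four 0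
  13 14 15), .ne 0 22 (.four 0 15 14 23), .ne 1 11 (.four 1 10 9 16), .ne 1 14 (.four 1 15 9 16),
  .ne 1 19 (.four 1 16 17 18), .ne 2 3 (.four 2 17 18 19), .ne 2 11 (.four 2 10 18 17), .ne 2 15
  (.four 2 9 16 17), .ne 2 20 (.four 2 17 18 19), .ne 3 9 (.four 3 10 18 19), .ne 3 12 (.four 3 11
  20 19), .ne 3 16 (.four 3 17 18 19), .ne 4 5 (.four 4 12 11 20), .ne 4 9 (.four 4 10 11 20), .ne
  4 13 (.four 4 12 11 20), .ne 4 17 (.four 4 18 19 20), .ne 5 6 (.four 5 12 13 21), .ne 5 9 (.four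
  5 10 11 12), .ne 5 15 (.four 5 12 13 14), .ne 5 18 (.four 5 10 11 12), .ne 5 19 (.four 5 12 11
  20), .ne 5 22 (.four 5 12 13 21), .ne 5 23 (.four 5 12 13 14), .ne 6 8 (.four 6 21 22 23), .ne 6
  11 (.four 6 12 13 21), .ne 6 15 (.four 6 14 13 21), .ne 7 12 (.four 7 13 21 22), .ne 7 15 (.four
  7 14 23 22), .ne 8 9 (.four 8 15 14 23), .ne 8 12 (.four 8 13 14 23), .ne 9 21 (.four 9 13 14
  15), .ne 9 22 (.four 9 15 14 23), .ne 10 21 (.four 10 11 12 13), .ne 10 23 (.four 9 10 14 15),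
  .ne 11 22 (.four 11 12 13 21), .ne 11 23 (.four 11 12 13 14), .ne 12 16 (.four 9 10 11 12), .ne
  12 17 (.four 10 11 12 18), .ne 13 16 (.four 9 13 14 15), .ne 13 18 (.four 10 11 12 13), .ne 13
  19 (.four 11 12 13 20), .ne 14 17 (.four 9 15 14 16), .ne 14 18 (.four 9 10 14 15), .ne 14 20
  (.four 11 12 13 14), .ne 15 19 (.four 9 10 18 15), .ne 15 20 (.four 9 10 11 15), .ne 16 20
  (.four 9 10 11 16), .ne 16 23 (.four 9 15 14 16), .ne 20 21 (.four 11 12 13 20), .ne 0 2 (.five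
  16 9 15 0 17), .ne 0 5 (.seven [0, 12, 11, 10, 9, 15]), .ne 0 6 (.seven [0, 15, 14, 13, 21]),
  .ne 0 7 (.seven [0, 15, 14, 13, 21, 22]), .ne 0 19 (.seven [0, 15, 9, 16, 17, 18]), .ne 0 20
  (.seven [0, 15, 9, 16, 17, 18, 19]), .ne 1 3 (.five 17 16 1 19 18), .ne 1 12 (.seven [1, 11, 10,
  9, 16]), .ne 1 13 (.five 16 9 15 14 1), .ne 1 20 (.five 17 16 1 19 18), .ne 1 23 (.five 16 9 15
  14 1), .ne 2 4 (.seven [2, 17, 16, 9, 10, 11, 20]), .ne 2 12 (.seven [2, 11, 10, 9, 16, 17]),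
  .ne 2 14 (.five 16 9 15 2 17), .ne 3 5 (.five 12 11 20 19 3), .ne 3 13 (.five 12 11 20 19 3),
  .ne 3 15 (.seven [3, 9, 16, 17, 18, 19]), .ne 4 14 (.five 12 11 20 4 13), .ne 4 15 (.seven [4,
  9, 16, 17, 18, 19, 20]), .ne 4 16 (.seven [4, 9, 10, 18, 19, 20]), .ne 4 21 (.five 12 11 20 4
  13), .ne 5 7 (.seven [5, 12, 13, 21, 22]), .ne 5 8 (.seven [5, 12, 13, 21, 22, 23]), .ne 5 16
  (.seven [5, 9, 10, 11, 12]), .ne 5 17 (.seven [5, 12, 11, 10, 9, 16]), .ne 6 9 (.seven [6, 10,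
  11, 12, 13, 21]), .ne 6 10 (.seven [6, 9, 15, 14, 23, 22, 21]), .ne 6 20 (.seven [6, 11, 12, 13,
  21]), .ne 7 9 (.seven [7, 15, 14, 13, 21, 22]), .ne 7 11 (.seven [7, 12, 13, 21, 22]), .ne 8 10
  (.seven [8, 9, 15, 14, 23]), .ne 8 11 (.seven [8, 10, 9, 15, 14, 23]), .ne 8 16 (.seven [8, 9,
  15, 14, 23]), .ne 10 22 (.seven [9, 10, 21, 13, 14, 15]), .ne 13 17 (.five 16 9 15 14 13), .ne
  14 19 (.five 12 11 20 14 13), .ne 16 21 (.five 16 9 15 14 13), .ne 16 22 (.five 16 9 15 14 23),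
  .ne 17 23 (.five 16 9 15 14 17), .ne 18 21 (.seven [9, 15, 14, 13, 18, 17, 16]), .ne 18 23
  (.seven [9, 15, 14, 18, 17, 16]), .ne 19 21 (.five 12 11 20 19 13), .ne 20 22 (.five 12 11 20 21
  13), .ne 20 23 (.five 12 11 20 14 13), .ne 0 3 (.seven [0, 15, 9, 16, 17, 18, 19]), .ne 0 4
  (.seven [0, 15, 9, 10, 18, 19, 20]), .ne 1 4 (.seven [1, 16, 9, 10, 18, 19, 20]), .ne 1 5
  (.seven [1, 12, 11, 10, 9, 16]), .ne 1 8 (.seven [1, 16, 9, 15, 14, 23]), .ne 1 21 (.seven [1,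
  13, 12, 11, 10, 9, 16]), .ne 1 22 (.seven [1, 16, 9, 15, 14, 23]), .ne 2 5 (.seven [2, 12, 11,
  10, 9, 16, 17]), .ne 2 13 (.seven [2, 12, 11, 10, 9, 16, 17]), .ne 2 23 (.seven [2, 14, 15, 9,
  16, 17]), .ne 3 14 (.seven [3, 15, 9, 16, 17, 18, 19]), .ne 3 21 (.seven [3, 13, 12, 11, 10, 18,
  19]), .ne 4 6 (.seven [4, 20, 11, 12, 13, 21]), .ne 4 22 (.seven [4, 20, 11, 12, 13, 21]), .ne 4
  23 (.seven [4, 14, 15, 9, 10, 11, 20]), .ne 6 16 (.seven [6, 9, 10, 11, 12, 13, 21]), .ne 6 18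
  (.seven [6, 10, 9, 15, 14, 13, 21]), .ne 6 19 (.seven [6, 18, 10, 11, 12, 13, 21]), .ne 7 10
  (.seven [7, 9, 15, 14, 23, 22]), .ne 7 16 (.seven [7, 9, 15, 14, 23, 22]), .ne 7 20 (.seven [7,
  11, 12, 13, 21, 22]), .ne 8 17 (.seven [8, 16, 9, 15, 14, 23]), .ne 8 18 (.seven [8, 17, 16, 9,
  15, 14, 23]), .ne 8 20 (.seven [8, 11, 10, 9, 15, 14, 23]), .ne 17 21 (.seven [9, 10, 11, 12,
  13, 17, 16]), .ne 17 22 (.seven [9, 15, 14, 13, 21, 17, 16]), .ne 18 22 (.seven [9, 15, 14, 23,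
  18, 17, 16]), .ne 19 22 (.seven [9, 10, 18, 19, 23, 14, 15]), .ne 19 23 (.seven [9, 15, 14, 19,
  18, 17, 16]), .ne 1 6 (.seven [1, 16, 9, 15, 14, 13, 21]), .ne 1 7 (.seven [1, 16, 9, 15, 14,
  23, 22]), .ne 2 8 (.seven [2, 17, 16, 9, 15, 14, 23]), .ne 2 21 (.seven [2, 13, 14, 15, 9, 16,
  17]), .ne 2 22 (.seven [2, 17, 16, 9, 15, 14, 23]), .ne 3 6 (.seven [3, 19, 20, 11, 12, 13,
  21]), .ne 3 22 (.seven [3, 19, 20, 11, 12, 13, 21]), .ne 3 23 (.seven [3, 14, 15, 9, 10, 18,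
  19]), .ne 4 7 (.seven [4, 20, 11, 12, 13, 21, 22]), .ne 4 8 (.seven [4, 20, 11, 12, 13, 14,
  23]), .ne 6 17 (.seven [6, 16, 9, 15, 14, 13, 21]), .ne 7 17 (.seven [7, 16, 9, 15, 14, 23,
  22]), .ne 7 18 (.seven [7, 10, 9, 15, 14, 23, 22]), .ne 7 19 (.seven [7, 20, 11, 12, 13, 21,
  22]), .ne 8 19 (.seven [8, 18, 10, 9, 15, 14, 23]), .cn 1 2 (.five 17 16 1 24 2), .cn 3 4 (.five
  20 19 3 24 4), .cn 6 7 (.five 22 21 6 24 7), .cn 5 8 (.seven [5, 12, 13, 14, 23, 8, 24])]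

end Pool.Agent.U2Geo
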