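import Pool.Agent.Work.MP_392c8e_co_t1.Inst.Split
import Pool.Agent.Work.MP_392c8e_co_t1.Apply

/-!
# Reducers with gain: a 7-face with 5-faces at the places 0, 1, 4 and a further 5-face

The further 5-face lies across the first outer edge of the 5-face at the place 4.
-/

namespace Pool.Agent.T1Red

set_option synthInstance.maxSize 200000

/-- A 7-face with 5-faces at the places 0, 1, 4 and a 5-face next to the last one; the terminals
1 and 9 are free. -/
def G2R : Red where
  t := 10
  m := 18
  ed :=
    [(10, 11), (10, 16), (10, 17), (11, 12), (11, 19), (12, 13), (12, 21), (13, 14), (14, 15),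
    (14, 22), (15, 16), (15, 24), (17, 18), (18, 19), (19, 20), (20, 21), (22, 23), (22, 25),
    (23, 24), (23, 27), (25, 26), (26, 27), (24, 0), (16, 1), (17, 2), (18, 3), (20, 4), (21, 5),
    (13, 6), (25, 7), (26, 8), (27, 9)]
  nw := [(0, 6), (2, 3), (4, 5), (7, 8)]
  ne := [512, 512, 0, 0, 0, 256, 256, 0, 608, 259]

/-- The pairs of terminals which are joined. -/
def comG2R : List (ℕ × ℕ) := [(0, 6), (2, 3), (4, 5), (7, 8)]

/-- The paths of the new edges. -/
def psG2R : List (ℕ × List ℕ × ℕ) :=
  [(0, [24, 15, 14, 13], 6), (2, [17, 18], 3), (4, [20, 21], 5), (7, [25, 26], 8)]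

theorem data_G2R : Data G2R [] psG2R [] [(3, 8)] comG2R [(2, 7)] := by
  constructor <;> decide

end Pool.Agent.T1Red
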