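import Pool.Agent.Work.MP_392c8e_co_uni.Tab7

/-!
# Labelled copies: a face of length seven with three neighbours of length five

`G1` has the faces of length five across the edges 0, 1, 3 and `G1m` is its mirror image (faces
across 3, 2, 0); `G3` has the faces of length five across the edges 0, 2, 4.
-/

namespace Pool.Agent.T1FF

open Pool.Agent.Sub392 Pool.T1Side

variable {V : Type} [Fintype V] [DecidableEq V] {G : SimpleGraph V} [DecidableRel G.Adj]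
variable {R : Rot G} {d : G.Dart}

/-- The labels of the patch G1: terminals 0, …, 8, interior 9, …, 23. -/
def fG1 (R : Rot G) (d : G.Dart) (n : ℕ) : V :=
  [Y R d 5, Y R d 6, Y R (ac R d 0) 2, Y R (ac R d 0) 3, Y R (ac R d 1) 3, Y R (ac R d 1) 4, Y
  R (ac R d 3) 2, Y R (ac R d 3) 3, Y R (ac R d 3) 4, X R d 0, X R d 1, X R d 2, X R d 3, X R d
  4, X R d 5, X R d 6, Y R d 0, X R (ac R d 0) 3, Y R d 1, X R (ac R d 1) 3, Y R d 2, Y R d 3,
  X R (ac R d 3) 3, Y R d 4].getD n (X R d 0)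

/-- The table. -/
def tG1 : List (ℕ × ℕ × ℕ × ℕ) :=
  [(9, 10, 15, 16), (10, 11, 9, 18), (11, 12, 10, 20), (12, 13, 11, 21), (13, 14, 12, 23), (14,
  15, 13, 0), (15, 9, 14, 1), (16, 17, 9, 2), (17, 18, 16, 3), (18, 10, 17, 19), (19, 20, 18,
  4), (20, 11, 19, 5), (21, 22, 12, 6), (22, 23, 21, 7), (23, 13, 22, 8)]

theorem tabG1 (h : Good R d 7) (g0 : Good R (ac R d 0) 5) (g1 : Good R (ac R d 1) 5) (g3 :
    Good R (ac R d 3) 5) :
    TabOk G (fG1 R d) tG1 := by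
  obtain ⟨a0, a1, a2, a3, a4, a5, a6⟩ := h.stars7
  obtain ⟨f0_2, f0_3, f0_4⟩ := h.outer5 0 g0
  obtain ⟨f1_2, f1_3, f1_4⟩ := h.outer5 1 g1
  obtain ⟨f3_2, f3_3, f3_4⟩ := h.outer5 3 g3
  rw [h.ac_Ylast 0 g0 (by norm_num)] at f0_4
  intro e he
  simp only [tG1, List.mem_cons, List.not_mem_nil, or_false] at he
  rcases he with rfl | rfl | rfl | rfl | rfl | rfl | rfl | rfl | rfl | rfl | rfl | rfl | rfl
    | rfl | rfl
  · exact a0
  · exact a1
  · exact a2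
  · exact a3
  · exact a4
  · exact a5
  · exact a6
  · exact f0_2
  · exact f0_3
  · exact f0_4
  · exact f1_3
  · exact f1_4
  · exact f3_2
  · exact f3_3
  · exact f3_4

/-- The labels of the mirror image of the patch G1. -/
def fG1m (R : Rot G) (d : G.Dart) (n : ℕ) : V :=
  [Y R d 6, Y R d 5, Y R (ac R d 3) 4, Y R (ac R d 3) 3, Y R (ac R d 2) 3, Y R (ac R d 2) 2, Y
  R (ac R d 0) 4, Y R (ac R d 0) 3, Y R (ac R d 0) 2, X R d 4, X R d 3, X R d 2, X R d 1, X R d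
  0, X R d 6, X R d 5, Y R d 4, X R (ac R d 3) 3, Y R d 3, X R (ac R d 2) 3, Y R d 2, Y R d 1,
  X R (ac R d 0) 3, Y R d 0].getD n (X R d 0)

/-- The table. -/
def tG1m : List (ℕ × ℕ × ℕ × ℕ) :=
  [(9, 15, 10, 16), (10, 9, 11, 18), (11, 10, 12, 20), (12, 11, 13, 21), (13, 12, 14, 23), (14,
  13, 15, 0), (15, 14, 9, 1), (16, 9, 17, 2), (17, 16, 18, 3), (18, 10, 19, 17), (19, 18, 20,
  4), (20, 19, 11, 5), (21, 12, 22, 6), (22, 21, 23, 7), (23, 22, 13, 8)]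

theorem tabG1m (h : Good R d 7) (g0 : Good R (ac R d 0) 5) (g2 : Good R (ac R d 2) 5) (g3 :
    Good R (ac R d 3) 5) :
    TabOk G (fG1m R d) tG1m := by
  obtain ⟨a0, a1, a2, a3, a4, a5, a6⟩ := h.stars7
  obtain ⟨f0_2, f0_3, f0_4⟩ := h.outer5 0 g0
  obtain ⟨f2_2, f2_3, f2_4⟩ := h.outer5 2 g2
  obtain ⟨f3_2, f3_3, f3_4⟩ := h.outer5 3 g3
  rw [h.ac_Ylast 2 g2 (by norm_num)] at f2_4
  intro e he
  simp only [tG1m, List.mem_cons, List.not_mem_nil, or_false] at he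
  rcases he with rfl | rfl | rfl | rfl | rfl | rfl | rfl | rfl | rfl | rfl | rfl | rfl | rfl
    | rfl | rfl
  · exact a4
  · exact a3
  · exact a2
  · exact a1
  · exact a0
  · exact a6
  · exact a5
  · exact f3_4
  · exact f3_3
  · exact f2_4
  · exact f2_3
  · exact f2_2
  · exact f0_4
  · exact f0_3
  · exact f0_2

/-- The labels of the patch G3: terminals 0, …, 9, new vertex 10, interior 11, …, 26. -/
def fG3 (R : Rot G) (d : G.Dart) (n : ℕ) : V :=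
  [Y R d 6, Y R (ac R d 0) 2, Y R (ac R d 0) 3, Y R (ac R d 0) 4, Y R (ac R d 2) 2, Y R (ac R d
  2) 3, Y R (ac R d 2) 4, Y R (ac R d 4) 2, Y R (ac R d 4) 3, Y R (ac R d 4) 4, X R d 0, X R d
  0, X R d 1, X R d 2, X R d 3, X R d 4, X R d 5, X R d 6, Y R d 0, X R (ac R d 0) 3, Y R d 1,
  Y R d 2, X R (ac R d 2) 3, Y R d 3, Y R d 4, X R (ac R d 4) 3, Y R d 5].getD n (X R d 0)

/-- The table. -/
def tG3 : List (ℕ × ℕ × ℕ × ℕ) :=
  [(11, 12, 17, 18), (12, 13, 11, 20), (13, 14, 12, 21), (14, 15, 13, 23), (15, 16, 14, 24),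
  (16, 17, 15, 26), (17, 11, 16, 0), (18, 19, 11, 1), (19, 20, 18, 2), (20, 12, 19, 3), (21,
  22, 13, 4), (22, 23, 21, 5), (23, 14, 22, 6), (24, 25, 15, 7), (25, 26, 24, 8), (26, 16, 25,
  9)]

theorem tabG3 (h : Good R d 7) (g0 : Good R (ac R d 0) 5) (g2 : Good R (ac R d 2) 5) (g4 :
    Good R (ac R d 4) 5) :
    TabOk G (fG3 R d) tG3 := by
  obtain ⟨a0, a1, a2, a3, a4, a5, a6⟩ := h.stars7
  obtain ⟨f0_2, f0_3, f0_4⟩ := h.outer5 0 g0
  obtain ⟨f2_2, f2_3, f2_4⟩ := h.outer5 2 g2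
  obtain ⟨f4_2, f4_3, f4_4⟩ := h.outer5 4 g4
  intro e he
  simp only [tG3, List.mem_cons, List.not_mem_nil, or_false] at he
  rcases he with rfl | rfl | rfl | rfl | rfl | rfl | rfl | rfl | rfl | rfl | rfl | rfl | rfl
    | rfl | rfl | rfl
  · exact a0
  · exact a1
  · exact a2
  · exact a3
  · exact a4
  · exact a5
  · exact a6
  · exact f0_2
  · exact f0_3
  · exact f0_4
  · exact f2_2
  · exact f2_3
  · exact f2_4
  · exact f4_2
  · exact f4_3
  · exact f4_4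

end Pool.Agent.T1FF
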