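import Pool.Agent.Work.MP_392c8e_co_uni.Tab7

/-!
# Labelled copies: a 7-face with 5-faces at the places 0, 1, 4 and a further 5-face

The further face lies across the edge 2 of the face at the place 4.
-/

namespace Pool.Agent.T1FF

open Pool.Agent.Sub392 Pool.T1Side

variable {V : Type} [Fintype V] [DecidableEq V] {G : SimpleGraph V} [DecidableRel G.Adj]
variable {R : Rot G} {d : G.Dart}

/-- The labels: terminals 0, …, 9, interior 10, …, 27. -/
def fG2R (R : Rot G) (d : G.Dart) (n : ℕ) : V :=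
  [Y R (ac R d 4) 4, Y R d 6, Y R (ac R d 0) 2, Y R (ac R d 0) 3, Y R (ac R d 1) 3,
    Y R (ac R d 1) 4, Y R d 3, Y R (ac R (ac R d 4) 2) 2, Y R (ac R (ac R d 4) 2) 3,
    Y R (ac R (ac R d 4) 2) 4,
    X R d 0, X R d 1, X R d 2, X R d 3, X R d 4, X R d 5, X R d 6,
    Y R d 0, X R (ac R d 0) 3, Y R d 1, X R (ac R d 1) 3, Y R d 2,
    Y R d 4, X R (ac R d 4) 3, Y R d 5,
    Y R (ac R d 4) 2, X R (ac R (ac R d 4) 2) 3, Y R (ac R d 4) 3].getD n (X R d 0)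

/-- The table. -/
def tG2R : List (ℕ × ℕ × ℕ × ℕ) :=
  [(10, 11, 16, 17), (11, 12, 10, 19), (12, 13, 11, 21), (13, 14, 12, 6), (14, 15, 13, 22),
    (15, 16, 14, 24), (16, 10, 15, 1), (17, 18, 10, 2), (18, 19, 17, 3), (19, 11, 18, 20),
    (20, 21, 19, 4), (21, 12, 20, 5), (22, 23, 14, 25), (23, 24, 22, 27), (24, 15, 23, 0),
    (25, 26, 22, 7), (26, 27, 25, 8), (27, 23, 26, 9)]

theorem tabG2R (h : Good R d 7) (g0 : Good R (ac R d 0) 5) (g1 : Good R (ac R d 1) 5) (g4 :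
    Good R (ac R d 4) 5) (gr : Good R (ac R (ac R d 4) 2) 5) :
    TabOk G (fG2R R d) tG2R := by
  obtain ⟨a0, a1, a2, a3, a4, a5, a6⟩ := h.stars7
  obtain ⟨f0_2, f0_3, f0_4⟩ := h.outer5 0 g0
  obtain ⟨f1_2, f1_3, f1_4⟩ := h.outer5 1 g1
  obtain ⟨f4_2, f4_3, f4_4⟩ := h.outer5 4 g4
  obtain ⟨r_2, r_3, r_4⟩ := g4.outer5 2 gr
  rw [h.ac_Ylast 0 g0 (by norm_num)] at f0_4
  rw [ac_X2] at r_2
  intro e he
  simp only [tG2R, List.mem_cons, List.not_mem_nil, or_false] at he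
  rcases he with rfl | rfl | rfl | rfl | rfl | rfl | rfl | rfl | rfl | rfl | rfl | rfl | rfl
    | rfl | rfl | rfl | rfl | rfl
  · exact a0
  · exact a1
  · exact a2
  · exact a3
  · exact a4
  · exact a5
  · exact a6
  · exact f0_2
  · exact f0_3
  · exact f0_4
  · exact f1_3
  · exact f1_4
  · exact f4_2
  · exact f4_3
  · exact f4_4
  · exact r_2
  · exact r_3
  · exact r_4

end Pool.Agent.T1FF
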