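import Mathlib
import Pool.Agent.Work.MP_392c8e_co_t1.Maps2
import Pool.Agent.Work.MP_392c8e_co_uni.TabG
import Pool.Agent.Work.MP_392c8e_co_uni.TabP
import Pool.Agent.Work.MP_392c8e_co_uni.TabG2R
import Pool.Agent.Work.MP_392c8e_co_uni.OnceLab

/-!
# The tables of the patches are in the order of the rotation
-/

namespace Pool.Agent.T1FF

open Finset Pool.Agent.Sub392 Pool.T1Side Pool.Agent.T392
open Pool.Agent.Once392 (NbR RotOk)

set_option linter.unusedSectionVars false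

variable {V : Type} [Fintype V] [DecidableEq V] {G : SimpleGraph V} [DecidableRel G.Adj]
variable {R : Rot G} {d : G.Dart} {L : ℕ}

/-- The neighbours of a vertex of a face: next, previous, third vertex. -/
theorem Good.rnb3 (h : Good R d L) (hL : 0 < L) (n : ℕ) :
    NbR R (X R d n) (X R d (n + 1)) (X R d (n + (L - 1))) (Y R d n) := by
  have h3 : R.rot (R.rot (R.rot ((R.next ^ n) d))) = (R.next ^ n) d := rot3 R (h.cub n)
  refine ⟨R.rot (R.rot ((R.next ^ n) d)), ?_, h.snd_rot2 hL n, ?_, ?_, ?_⟩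
  · rw [R.fst_rot, R.fst_rot]
    rfl
  · rw [h3]
    exact snd_pow R d n
  · rw [h3]
    rfl
  · rw [h3]

theorem Good.rstars5 (h : Good R d 5) :
    NbR R (X R d 0) (X R d 1) (X R d 4) (Y R d 0) ∧
    NbR R (X R d 1) (X R d 2) (X R d 0) (Y R d 1) ∧
    NbR R (X R d 2) (X R d 3) (X R d 1) (Y R d 2) ∧
    NbR R (X R d 3) (X R d 4) (X R d 2) (Y R d 3) ∧
    NbR R (X R d 4) (X R d 0) (X R d 3) (Y R d 4) := by
  have h5 : X R d 5 = X R d 0 := h.X_mod 5
  have h6 : X R d 6 = X R d 1 := h.X_mod 6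
  have h7 : X R d 7 = X R d 2 := h.X_mod 7
  have h8 : X R d 8 = X R d 3 := h.X_mod 8
  have n0 := h.rnb3 (by norm_num) 0
  have n1 := h.rnb3 (by norm_num) 1
  have n2 := h.rnb3 (by norm_num) 2
  have n3 := h.rnb3 (by norm_num) 3
  have n4 := h.rnb3 (by norm_num) 4
  norm_num only at n0 n1 n2 n3 n4
  rw [h5] at n1 n4
  rw [h6] at n2
  rw [h7] at n3
  rw [h8] at n4
  exact ⟨n0, n1, n2, n3, n4⟩

theorem Good.rstars7 (h : Good R d 7) :
    NbR R (X R d 0) (X R d 1) (X R d 6) (Y R d 0) ∧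
    NbR R (X R d 1) (X R d 2) (X R d 0) (Y R d 1) ∧
    NbR R (X R d 2) (X R d 3) (X R d 1) (Y R d 2) ∧
    NbR R (X R d 3) (X R d 4) (X R d 2) (Y R d 3) ∧
    NbR R (X R d 4) (X R d 5) (X R d 3) (Y R d 4) ∧
    NbR R (X R d 5) (X R d 6) (X R d 4) (Y R d 5) ∧
    NbR R (X R d 6) (X R d 0) (X R d 5) (Y R d 6) := by
  have key : ∀ n, NbR R (X R d n) (X R d (n + 1)) (X R d (n + 6)) (Y R d n) := fun n =>
    h.rnb3 (by norm_num) n
  have e : ∀ n, X R d (n + 7) = X R d n := by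
    intro n
    unfold X
    rw [h.pow_add]
  have n0 := key 0
  have n1 := key 1
  have n2 := key 2
  have n3 := key 3
  have n4 := key 4
  have n5 := key 5
  have n6 := key 6
  have e0 := e 0
  have e1 := e 1
  have e2 := e 2
  have e3 := e 3
  have e4 := e 4
  have e5 := e 5
  norm_num only at n0 n1 n2 n3 n4 n5 n6 e0 e1 e2 e3 e4 e5
  rw [e0] at n1 n6
  rw [e1] at n2
  rw [e2] at n3
  rw [e3] at n4
  rw [e4] at n5
  rw [e5] at n6
  exact ⟨n0, n1, n2, n3, n4, n5, n6⟩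

theorem Good.router5 (h : Good R d L) (n : ℕ) (g : Good R (ac R d n) 5) :
    NbR R (Y R d n) (X R (ac R d n) 3) (X R d n) (Y R (ac R d n) 2) ∧
    NbR R (X R (ac R d n) 3) (Y R d (n + 1)) (Y R d n) (Y R (ac R d n) 3) ∧
    NbR R (Y R d (n + 1)) (X R d (n + 1)) (X R (ac R d n) 3) (Y R (ac R d n) 4) := by
  obtain ⟨-, -, b2, b3, b4⟩ := g.rstars5
  have e0 : X R (ac R d n) 0 = X R d (n + 1) := ac_X0 R d n
  have e1 : X R (ac R d n) 1 = X R d n := ac_X1 R d n
  have e2 : X R (ac R d n) 2 = Y R d n := ac_X2 R d n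
  have e4 : X R (ac R d n) 4 = Y R d (n + 1) := h.ac_last n g (by norm_num)
  rw [e1, e2] at b2
  rw [e2, e4] at b3
  rw [e0, e4] at b4
  exact ⟨b2, b3, b4⟩

theorem rotfl (h : Good R d 5) (g : ∀ n, n < 5 → Good R (ac R d n) 5) :
    RotOk R (ffl R d) tfl := by
  obtain ⟨a0, a1, a2, a3, a4⟩ := h.rstars5
  have x5 : X R d 5 = X R d 0 := h.X_mod 5
  have y5 : Y R d 5 = Y R d 0 := h.Y_mod 5
  have p5 : ac R d 5 = ac R d 0 := ac_per h 0
  -- the vertices of the outer faces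
  have hw : ∀ n, n < 5 → NbR R (Y R d n) (X R (ac R d n) 3) (X R d n) (Y R (ac R d n) 2) := by
    intro n hn
    have := (g n hn).rstars5.2.2.1
    rw [ac_X2, ac_X1] at this
    exact this
  have hm : ∀ n, n < 5 → NbR R (X R (ac R d n) 3) (Y R d (n + 1)) (Y R d n)
      (Y R (ac R d n) 3) := by
    intro n hn
    have := (g n hn).rstars5.2.2.2.1
    have e4 : X R (ac R d n) 4 = Y R d (n + 1) := h.ac_last n (g n hn) (by norm_num)
    rw [ac_X2, e4] at this
    exact this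
  have hy : ∀ n, n < 5 → Y R (ac R d (n + 1)) 2 = X R (ac R d n) 3 := fun n hn =>
    h.ac_Y2 n (g n hn) (by norm_num)
  have w0 := hw 0 (by norm_num)
  have w1 := hw 1 (by norm_num)
  have w2 := hw 2 (by norm_num)
  have w3 := hw 3 (by norm_num)
  have w4 := hw 4 (by norm_num)
  have m0 := hm 0 (by norm_num)
  have m1 := hm 1 (by norm_num)
  have m2 := hm 2 (by norm_num)
  have m3 := hm 3 (by norm_num)
  have m4 := hm 4 (by norm_num)
  have y0 := hy 0 (by norm_num)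
  have y1 := hy 1 (by norm_num)
  have y2 := hy 2 (by norm_num)
  have y3 := hy 3 (by norm_num)
  have y4 := hy 4 (by norm_num)
  norm_num only at m0 m1 m2 m3 m4 y0 y1 y2 y3 y4
  rw [p5] at y4
  rw [y4] at w0
  rw [y0] at w1
  rw [y1] at w2
  rw [y2] at w3
  rw [y3] at w4
  rw [y5] at m4
  intro e he
  simp only [tfl, List.mem_cons, List.not_mem_nil, or_false] at he
  rcases he with rfl | rfl | rfl | rfl | rfl | rfl | rfl | rfl | rfl | rfl | rfl | rfl | rfl |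
    rfl | rfl
  · exact a0
  · exact a1
  · exact a2
  · exact a3
  · exact a4
  · exact w0
  · exact w1
  · exact w2
  · exact w3
  · exact w4
  · exact m0
  · exact m1
  · exact m2
  · exact m3
  · exact m4

theorem rotA (h : Good R d 5) (h' : Good R (ac R d 0) 5) : RotOk R (fA R d) tA1 := by
  obtain ⟨a0, a1, a2, a3, a4⟩ := h.rstars5
  obtain ⟨b0, b1, b2, b3, b4⟩ := h'.rstars5
  have e0 : X R (ac R d 0) 0 = X R d 1 := ac_X0 R d 0
  have e1 : X R (ac R d 0) 1 = X R d 0 := ac_X1 R d 0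
  have e2 : X R (ac R d 0) 2 = Y R d 0 := ac_X2 R d 0
  have e4 : X R (ac R d 0) 4 = Y R d 1 := h.ac_last 0 h' (by norm_num)
  rw [← e2] at a0
  rw [← e4] at a1
  rw [e1] at b2
  rw [e0] at b4
  intro e he
  simp only [tA1, List.mem_cons, List.not_mem_nil, or_false] at he
  rcases he with rfl | rfl | rfl | rfl | rfl | rfl | rfl | rfl
  · exact a1
  · exact a0
  · exact a2
  · exact a3
  · exact a4
  · exact b2
  · exact b3
  · exact b4

theorem rotA' (h : Good R d 5) (h' : Good R (ac R d 0) 5) : RotOk R (fA' R d) tA2 := by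
  obtain ⟨a0, a1, a2, a3, a4⟩ := h.rstars5
  obtain ⟨b0, b1, b2, b3, b4⟩ := h'.rstars5
  have e0 : X R (ac R d 0) 0 = X R d 1 := ac_X0 R d 0
  have e1 : X R (ac R d 0) 1 = X R d 0 := ac_X1 R d 0
  have e2 : X R (ac R d 0) 2 = Y R d 0 := ac_X2 R d 0
  have e4 : X R (ac R d 0) 4 = Y R d 1 := h.ac_last 0 h' (by norm_num)
  rw [← e2] at a0
  rw [← e4] at a1
  rw [e1] at b2
  rw [e0] at b4
  intro e he
  simp only [tA2, List.mem_cons, List.not_mem_nil, or_false] at he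
  rcases he with rfl | rfl | rfl | rfl | rfl | rfl | rfl | rfl
  · exact a0
  · exact a1
  · exact a4
  · exact a3
  · exact a2
  · exact b4
  · exact b3
  · exact b2

theorem rotB (h : Good R d 5) (h' : Good R (ac R d 0) 5)
    (h'' : Good R (ac R (ac R d 0) 3) 5) : RotOk R (fB R d) tC := by
  obtain ⟨a0, a1, a2, a3, a4⟩ := h.rstars5
  obtain ⟨b0, b1, b2, b3, b4⟩ := h'.rstars5
  obtain ⟨c0, c1, c2, c3, c4⟩ := h''.rstars5
  have e0 : X R (ac R d 0) 0 = X R d 1 := ac_X0 R d 0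
  have e1 : X R (ac R d 0) 1 = X R d 0 := ac_X1 R d 0
  have e2 : X R (ac R d 0) 2 = Y R d 0 := ac_X2 R d 0
  have e4 : X R (ac R d 0) 4 = Y R d 1 := h.ac_last 0 h' (by norm_num)
  have g0 : X R (ac R (ac R d 0) 3) 0 = X R (ac R d 0) 4 := ac_X0 R (ac R d 0) 3
  have g1 : X R (ac R (ac R d 0) 3) 1 = X R (ac R d 0) 3 := ac_X1 R (ac R d 0) 3
  have g2 : X R (ac R (ac R d 0) 3) 2 = Y R (ac R d 0) 3 := ac_X2 R (ac R d 0) 3
  have g4 : X R (ac R (ac R d 0) 3) 4 = Y R (ac R d 0) 4 := h'.ac_last 3 h'' (by norm_num)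
  rw [← e2] at a0
  rw [← e4] at a1
  rw [e1] at b2
  rw [← g2] at b3
  rw [e0, ← g4] at b4
  rw [g1] at c2
  rw [g0] at c4
  intro e he
  simp only [tC, List.mem_cons, List.not_mem_nil, or_false] at he
  rcases he with rfl | rfl | rfl | rfl | rfl | rfl | rfl | rfl | rfl | rfl | rfl
  · exact a2
  · exact a1
  · exact b4
  · exact c4
  · exact a3
  · exact a0
  · exact b3
  · exact c3
  · exact a4
  · exact b2
  · exact c2

theorem rotB' (h : Good R d 5) (h' : Good R (ac R d 0) 5)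
    (h'' : Good R (ac R d 2) 5) : RotOk R (fB' R d) tC' := by
  obtain ⟨a0, a1, a2, a3, a4⟩ := h.rstars5
  obtain ⟨b0, b1, b2, b3, b4⟩ := h'.rstars5
  obtain ⟨c0, c1, c2, c3, c4⟩ := h''.rstars5
  have e0 : X R (ac R d 0) 0 = X R d 1 := ac_X0 R d 0
  have e1 : X R (ac R d 0) 1 = X R d 0 := ac_X1 R d 0
  have e2 : X R (ac R d 0) 2 = Y R d 0 := ac_X2 R d 0
  have e4 : X R (ac R d 0) 4 = Y R d 1 := h.ac_last 0 h' (by norm_num)
  have g0 : X R (ac R d 2) 0 = X R d 3 := ac_X0 R d 2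
  have g1 : X R (ac R d 2) 1 = X R d 2 := ac_X1 R d 2
  have g2 : X R (ac R d 2) 2 = Y R d 2 := ac_X2 R d 2
  have g4 : X R (ac R d 2) 4 = Y R d 3 := h.ac_last 2 h'' (by norm_num)
  rw [← e2] at a0
  rw [← e4] at a1
  rw [← g2] at a2
  rw [← g4] at a3
  rw [e1] at b2
  rw [e0] at b4
  rw [g1] at c2
  rw [g0] at c4
  intro e he
  simp only [tC', List.mem_cons, List.not_mem_nil, or_false] at he
  rcases he with rfl | rfl | rfl | rfl | rfl | rfl | rfl | rfl | rfl | rfl | rfl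
  · exact b4
  · exact a1
  · exact a2
  · exact c2
  · exact b3
  · exact a0
  · exact a3
  · exact c3
  · exact b2
  · exact a4
  · exact c4

theorem rotG1 (h : Good R d 7) (g0 : Good R (ac R d 0) 5) (g1 : Good R (ac R d 1) 5) (g3 :
    Good R (ac R d 3) 5) :
    RotOk R (fG1 R d) tG1 := by
  obtain ⟨a0, a1, a2, a3, a4, a5, a6⟩ := h.rstars7
  obtain ⟨f0_2, f0_3, f0_4⟩ := h.router5 0 g0
  obtain ⟨f1_2, f1_3, f1_4⟩ := h.router5 1 g1
  obtain ⟨f3_2, f3_3, f3_4⟩ := h.router5 3 g3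
  rw [h.ac_Ylast 0 g0 (by norm_num)] at f0_4
  intro e he
  simp only [tG1, List.mem_cons, List.not_mem_nil, or_false] at he
  rcases he with rfl | rfl | rfl | rfl | rfl | rfl | rfl | rfl | rfl | rfl | rfl | rfl | rfl
    | rfl | rfl
  · exact a0
  · exact a1
  · exact a2
  · exact a3
  · exact a4
  · exact a5
  · exact a6
  · exact f0_2
  · exact f0_3
  · exact f0_4
  · exact f1_3
  · exact f1_4
  · exact f3_2
  · exact f3_3
  · exact f3_4

theorem rotG3 (h : Good R d 7) (g0 : Good R (ac R d 0) 5) (g2 : Good R (ac R d 2) 5) (g4 :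
    Good R (ac R d 4) 5) :
    RotOk R (fG3 R d) tG3 := by
  obtain ⟨a0, a1, a2, a3, a4, a5, a6⟩ := h.rstars7
  obtain ⟨f0_2, f0_3, f0_4⟩ := h.router5 0 g0
  obtain ⟨f2_2, f2_3, f2_4⟩ := h.router5 2 g2
  obtain ⟨f4_2, f4_3, f4_4⟩ := h.router5 4 g4
  intro e he
  simp only [tG3, List.mem_cons, List.not_mem_nil, or_false] at he
  rcases he with rfl | rfl | rfl | rfl | rfl | rfl | rfl | rfl | rfl | rfl | rfl | rfl | rfl
    | rfl | rfl | rfl
  · exact a0
  · exact a1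
  · exact a2
  · exact a3
  · exact a4
  · exact a5
  · exact a6
  · exact f0_2
  · exact f0_3
  · exact f0_4
  · exact f2_2
  · exact f2_3
  · exact f2_4
  · exact f4_2
  · exact f4_3
  · exact f4_4

theorem rotG2 (h : Good R d 7) (g0 : Good R (ac R d 0) 5) (g1 : Good R (ac R d 1) 5) (g4 :
    Good R (ac R d 4) 5) :
    RotOk R (fG2 R d) tG2 := by
  obtain ⟨a0, a1, a2, a3, a4, a5, a6⟩ := h.rstars7
  obtain ⟨f0_2, f0_3, f0_4⟩ := h.router5 0 g0
  obtain ⟨f1_2, f1_3, f1_4⟩ := h.router5 1 g1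
  obtain ⟨f4_2, f4_3, f4_4⟩ := h.router5 4 g4
  rw [h.ac_Ylast 0 g0 (by norm_num)] at f0_4
  intro e he
  simp only [tG2, List.mem_cons, List.not_mem_nil, or_false] at he
  rcases he with rfl | rfl | rfl | rfl | rfl | rfl | rfl | rfl | rfl | rfl | rfl | rfl | rfl
    | rfl | rfl
  · exact a0
  · exact a1
  · exact a2
  · exact a3
  · exact a4
  · exact a5
  · exact a6
  · exact f0_2
  · exact f0_3
  · exact f0_4
  · exact f1_3
  · exact f1_4
  · exact f4_2
  · exact f4_3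
  · exact f4_4

theorem rotG2m (h : Good R d 7) (g0 : Good R (ac R d 0) 5) (g3 : Good R (ac R d 3) 5) (g4 :
    Good R (ac R d 4) 5) :
    RotOk R (fG2m R d) tG2m := by
  obtain ⟨a0, a1, a2, a3, a4, a5, a6⟩ := h.rstars7
  obtain ⟨f0_2, f0_3, f0_4⟩ := h.router5 0 g0
  obtain ⟨f3_2, f3_3, f3_4⟩ := h.router5 3 g3
  obtain ⟨f4_2, f4_3, f4_4⟩ := h.router5 4 g4
  rw [h.ac_Ylast 3 g3 (by norm_num)] at f3_4
  intro e he
  simp only [tG2m, List.mem_cons, List.not_mem_nil, or_false] at he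
  rcases he with rfl | rfl | rfl | rfl | rfl | rfl | rfl | rfl | rfl | rfl | rfl | rfl | rfl
    | rfl | rfl
  · exact a5
  · exact a4
  · exact a3
  · exact a2
  · exact a1
  · exact a0
  · exact a6
  · exact f4_4
  · exact f4_3
  · exact f3_4
  · exact f3_3
  · exact f3_2
  · exact f0_4
  · exact f0_3
  · exact f0_2

theorem rotP1 (h : Good R d 7) (g0 : Good R (ac R d 0) 5) (g1 : Good R (ac R d 1) 5) (g3 :
    Good R (ac R d 3) 5) (g4 : Good R (ac R d 4) 5) :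
    RotOk R (fP1 R d) tP1 := by
  obtain ⟨a0, a1, a2, a3, a4, a5, a6⟩ := h.rstars7
  obtain ⟨f0_2, f0_3, f0_4⟩ := h.router5 0 g0
  obtain ⟨f1_2, f1_3, f1_4⟩ := h.router5 1 g1
  obtain ⟨f3_2, f3_3, f3_4⟩ := h.router5 3 g3
  obtain ⟨f4_2, f4_3, f4_4⟩ := h.router5 4 g4
  rw [h.ac_Ylast 0 g0 (by norm_num)] at f0_4
  rw [h.ac_Ylast 3 g3 (by norm_num)] at f3_4
  intro e he
  simp only [tP1, List.mem_cons, List.not_mem_nil, or_false] at he
  rcases he with rfl | rfl | rfl | rfl | rfl | rfl | rfl | rfl | rfl | rfl | rfl | rfl | rfl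
    | rfl | rfl | rfl | rfl
  · exact a0
  · exact a1
  · exact a2
  · exact a3
  · exact a4
  · exact a5
  · exact a6
  · exact f0_2
  · exact f0_3
  · exact f0_4
  · exact f1_3
  · exact f1_4
  · exact f3_2
  · exact f3_3
  · exact f3_4
  · exact f4_3
  · exact f4_4

theorem rotP2 (h : Good R d 7) (g0 : Good R (ac R d 0) 5) (g1 : Good R (ac R d 1) 5) (g3 :
    Good R (ac R d 3) 5) (g5 : Good R (ac R d 5) 5) :
    RotOk R (fP2 R d) tP2 := by
  obtain ⟨a0, a1, a2, a3, a4, a5, a6⟩ := h.rstars7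
  obtain ⟨f0_2, f0_3, f0_4⟩ := h.router5 0 g0
  obtain ⟨f1_2, f1_3, f1_4⟩ := h.router5 1 g1
  obtain ⟨f3_2, f3_3, f3_4⟩ := h.router5 3 g3
  obtain ⟨f5_2, f5_3, f5_4⟩ := h.router5 5 g5
  rw [h.ac_Ylast 0 g0 (by norm_num)] at f0_4
  intro e he
  simp only [tP2, List.mem_cons, List.not_mem_nil, or_false] at he
  rcases he with rfl | rfl | rfl | rfl | rfl | rfl | rfl | rfl | rfl | rfl | rfl | rfl | rfl
    | rfl | rfl | rfl | rfl | rfl
  · exact a0
  · exact a1
  · exact a2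
  · exact a3
  · exact a4
  · exact a5
  · exact a6
  · exact f0_2
  · exact f0_3
  · exact f0_4
  · exact f1_3
  · exact f1_4
  · exact f3_2
  · exact f3_3
  · exact f3_4
  · exact f5_2
  · exact f5_3
  · exact f5_4

theorem rotG2R (h : Good R d 7) (g0 : Good R (ac R d 0) 5) (g1 : Good R (ac R d 1) 5) (g4 :
    Good R (ac R d 4) 5) (gr : Good R (ac R (ac R d 4) 2) 5) :
    RotOk R (fG2R R d) tG2R := by
  obtain ⟨a0, a1, a2, a3, a4, a5, a6⟩ := h.rstars7
  obtain ⟨f0_2, f0_3, f0_4⟩ := h.router5 0 g0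
  obtain ⟨f1_2, f1_3, f1_4⟩ := h.router5 1 g1
  obtain ⟨f4_2, f4_3, f4_4⟩ := h.router5 4 g4
  obtain ⟨r_2, r_3, r_4⟩ := g4.router5 2 gr
  rw [h.ac_Ylast 0 g0 (by norm_num)] at f0_4
  rw [ac_X2] at r_2
  intro e he
  simp only [tG2R, List.mem_cons, List.not_mem_nil, or_false] at he
  rcases he with rfl | rfl | rfl | rfl | rfl | rfl | rfl | rfl | rfl | rfl | rfl | rfl | rfl
    | rfl | rfl | rfl | rfl | rfl
  · exact a0
  · exact a1
  · exact a2
  · exact a3
  · exact a4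
  · exact a5
  · exact a6
  · exact f0_2
  · exact f0_3
  · exact f0_4
  · exact f1_3
  · exact f1_4
  · exact f4_2
  · exact f4_3
  · exact f4_4
  · exact r_2
  · exact r_3
  · exact r_4

end Pool.Agent.T1FF
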