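import Mathlib
import Pool.Agent.Work.MP_392c8e_co_uni.GeoCross

/-!
# The two sides of a cycle as a function on the vertices off the cycle
-/

namespace Pool.Agent.U2Geo

open Finset Pool.Agent.Sub392 Pool.T1Side Pool.Agent.T392 Pool.Agent.T1FF Pool.Agent.OddFlow

set_option linter.unusedSectionVars false

variable {V : Type} [Fintype V] [DecidableEq V] {G : SimpleGraph V} [DecidableRel G.Adj]

/-- **The two sides of a cycle.**  `c` is constant along the edges off the cycle, `0` at the
neighbours of the left turns and `1` at the neighbours of the right turns. -/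
theorem side_zmod {l : ℕ} [NeZero l] {R : Rot G} (hP : R.Plane) (hc : ∀ v, G.degree v = 3)
    (w : ZMod l → V) (ha : ∀ i, G.Adj (w i) (w (i + 1))) (hb : ∀ i, w i ≠ w (i + 2))
    (hinj : Function.Injective w) :
    ∃ c : V → ℚ, (∀ x y, G.Adj x y → (∀ k, x ≠ w k) → (∀ k, y ≠ w k) → c x = c y) ∧
      (∀ i y, R.next (ed w ha i) = ed w ha (i + 1) → G.Adj (w (i + 1)) y → (∀ k, y ≠ w k) →
        c y = 0) ∧
      ∀ i y, R.rot (ed w ha (i + 1)) = (ed w ha i).symm → G.Adj (w (i + 1)) y →
        (∀ k, y ≠ w k) → c y = 1 := by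
  classical
  obtain ⟨a, α, hoff, hL, hR⟩ := cyc_pot hP hc w ha hb hinj
  have exd : ∀ v : V, ∃ d : G.Dart, d.fst = v := by
    intro v
    have h1 : 0 < G.degree v := by rw [hc]; omega
    rw [← G.dart_fst_fiber_card_eq_degree v, card_pos] at h1
    obtain ⟨d, hd⟩ := h1
    exact ⟨d, by simpa using hd⟩
  choose dv hdv using exd
  have key : ∀ v, (∀ k, v ≠ w k) → ∀ d : G.Dart, d.fst = v →
      a (R.face d) = a (R.face (dv v)) := by
    intro v hv d hd
    exact pot_vertex hoff (d := dv v) (d' := d) (by rw [hd, hdv]) (by rw [hdv]; exact hv)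
  refine ⟨fun v => a (R.face (dv v)) - (α - 1), ?_, ?_, ?_⟩
  · intro x y hxy hx hy
    set d : G.Dart := ⟨(x, y), hxy⟩ with hd
    have h1 := key x hx d rfl
    have h2 := key y hy d.symm rfl
    have h3 := hoff d (off_fst hx)
    simp only
    rw [← h1, ← h2, h3]
  · intro i y hi hy hyw
    set d : G.Dart := ⟨(w (i + 1), y), hy⟩ with hd
    have h2 := key y hyw d.symm rfl
    have h3 := hoff d (off_snd hyw)
    have h4 := third_left hc hb hR hi (x := d) rfl (off_snd hyw)
    simp only
    rw [← h2, h3, h4]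
    ring
  · intro i y hi hy hyw
    set d : G.Dart := ⟨(w (i + 1), y), hy⟩ with hd
    have h2 := key y hyw d.symm rfl
    have h3 := hoff d (off_snd hyw)
    have h4 := third_right hc hb hoff hL hi (x := d) rfl (off_snd hyw)
    simp only
    rw [← h2, h3, h4]
    ring

/-- **The two sides of a cycle, list form.** -/
theorem side_of {R : Rot G} (hP : R.Plane) (hc : ∀ v, G.degree v = 3) {L : List V}
    (hNB : NB G L) (h3 : 3 ≤ L.length) (hnd : L.Nodup) :
    ∃ c : V → ℚ, (∀ x y, G.Adj x y → x ∉ L → y ∉ L → c x = c y) ∧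
      (∀ (i : ℕ) (t : V × V × V) (y : V), (tps L)[i]? = some t → Lt R t → G.Adj t.2.1 y →
        y ∉ L → c y = 0) ∧
      ∀ (i : ℕ) (t : V × V × V) (y : V), (tps L)[i]? = some t → Lt R (rv t) → G.Adj t.2.1 y →
        y ∉ L → c y = 1 := by
  classical
  have : NeZero L.length := ⟨by omega⟩
  have hx0 : 0 < L.length := by omega
  set x0 : V := L[0] with hx0'
  obtain ⟨ha, hb⟩ := cw_spec (by omega) hNB x0
  obtain ⟨c, k1, k2, k3⟩ := side_zmod hP hc (cw L x0) ha hb (cw_injZ x0 hnd)
  have hmem : ∀ x, x ∉ L → ∀ k, x ≠ cw L x0 k := fun x hx k h => hx (h ▸ cw_memZ x0 k)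
  refine ⟨c, fun x y hxy hx hy => k1 x y hxy (hmem x hx) (hmem y hy), ?_, ?_⟩
  · intro i t y ht hlt hy hyL
    obtain ⟨-, rfl⟩ := tps_getZ x0 (by omega) ht
    refine k2 (i : ZMod L.length) y ?_ hy (hmem y hyL)
    obtain ⟨d, j1, j2, j3⟩ := hlt
    have hd : d = ed (cw L x0) ha (i : ZMod L.length) :=
      SimpleGraph.Dart.ext _ _ (Prod.ext j1 j2)
    rw [hd] at j3
    refine SimpleGraph.Dart.ext _ _ (Prod.ext (R.fst_next _) ?_)
    have j4 : (R.next (ed (cw L x0) ha (i : ZMod L.length))).snd =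
        cw L x0 ((i : ZMod L.length) + 2) := j3
    show (R.next (ed (cw L x0) ha (i : ZMod L.length))).snd =
      cw L x0 ((i : ZMod L.length) + 1 + 1)
    rw [j4]; congr 1; ring
  · intro i t y ht hlt hy hyL
    obtain ⟨-, rfl⟩ := tps_getZ x0 (by omega) ht
    refine k3 (i : ZMod L.length) y ?_ hy (hmem y hyL)
    obtain ⟨d, j1, j2, j3⟩ := hlt
    have e : (i : ZMod L.length) + 2 = (i : ZMod L.length) + 1 + 1 := by ring
    have j1' : d.fst = cw L x0 ((i : ZMod L.length) + 1 + 1) := by rw [← e]; exact j1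
    have hd : d = (ed (cw L x0) ha ((i : ZMod L.length) + 1)).symm :=
      SimpleGraph.Dart.ext _ _ (Prod.ext j1' j2)
    rw [hd, next_eq, SimpleGraph.Dart.symm_symm] at j3
    exact SimpleGraph.Dart.ext _ _ (Prod.ext (R.fst_rot _) j3)

/-- **No path between the two sides**: two vertices off the cycle which are joined by a walk off
the cycle have the same value. -/
theorem side_walk {L : List V} {c : V → ℚ}
    (h : ∀ x y, G.Adj x y → x ∉ L → y ∉ L → c x = c y) :
    ∀ {x y : V} (p : G.Walk x y), (∀ z ∈ p.support, z ∉ L) → c x = c y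
  | _, _, .nil, _ => rfl
  | x, _, .cons (v := v) hxv p, hp => by
    have h1 : x ∉ L := hp x (by simp)
    have h2 : ∀ z ∈ p.support, z ∉ L := fun z hz => hp z (by simp [hz])
    have h3 : v ∉ L := h2 v (by simp)
    exact (h x v hxv h1 h3).trans (side_walk h p h2)

end Pool.Agent.U2Geo
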