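import Mathlib
import Pool.Agent.Work.MP_392c8e_co_uni.SideT
import Pool.Agent.Work.MP_392c8e_co_uni.ThreeCut

/-!
# The checker with turns: facts, and cycles with three edges to one side
-/

set_option autoImplicit false

namespace Pool.Agent.U2Geo

open Pool.T1Side Pool.Agent.T1Red Pool.Agent.T1FF Pool.Agent.Sub392 Pool.Agent.T392
open Pool.Agent.Once392 (RotOk NbR)

set_option linter.unusedSectionVars false

/-- At most three corners of the cycle `L` do not turn left, the corners `i` and `j` turn right and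
have the third neighbours `x ≠ y` off the cycle. -/
def TsT.three (T : TsT) (L P : List ℕ) (i j x y : ℕ) : Bool :=
  T.t.nb L && Nat.ble 3 L.length && T.t.nd L && Nat.ble P.length 3 &&
    ((List.range (L.length)).all fun k => P.elem k || ((tps L)[k]?).any T.lt) &&
    (((tps L)[i]?).any fun t => T.rt t && T.t.adj t.2.1 x) &&
    (((tps L)[j]?).any fun t => T.rt t && T.t.adj t.2.1 y) &&
    (L.all fun z => T.t.ne x z && T.t.ne y z) && T.t.ne x y

section

variable {V : Type} [Fintype V] [DecidableEq V] {G : SimpleGraph V} [DecidableRel G.Adj]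
  {R : Rot G} {S : V → Prop}

theorem TsT.Ok.three (hC : C4 R) {f : ℕ → V} {T : TsT} (h : T.Ok R f) {L P : List ℕ}
    {i j x y : ℕ} (hc : T.three L P i j x y = true) : False := by
  unfold TsT.three at hc
  simp only [Bool.and_eq_true, Nat.ble_eq, List.all_eq_true, Option.any_eq_true] at hc
  obtain ⟨⟨⟨⟨⟨⟨⟨⟨h1, h2⟩, h3⟩, h4⟩, h5⟩, t, ht, ht1, ht2⟩, u, hu, hu1, hu2⟩, h8⟩, h9⟩ := hc
  have hlen : (L.map f).length = L.length := List.length_map f
  have hoff : ∀ z, (∀ w ∈ L, T.t.ne z w = true) → f z ∉ L.map f := by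
    intro z hz hm
    obtain ⟨w, hw, hwz⟩ := List.mem_map.1 hm
    exact h.t.ne _ _ (hz w hw) hwz.symm
  refine h.t.ne _ _ h9 (three_side hC (L := L.map f) (P := P) (h.t.nb h1) (by rw [hlen]; exact h2)
    (h.t.nd L h3) h4 ?_ (tps_get ht) (h.rt ht1) (tps_get hu) (h.rt hu1) (h.t.adj _ _ ht2)
    (hoff x fun w hw => (h8 w hw).1) (h.t.adj _ _ hu2) (hoff y fun w hw => (h8 w hw).2))
  intro k s hs hk
  have hk1 : k < L.length := by
    by_contra hcon
    have hl : (tps (L.map f)).length ≤ L.length := by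
      have : ∀ M : List V, (tp3 M).length = M.length - 2 := by
        intro M
        induction M with
        | nil => rfl
        | cons a M ih =>
          cases M with
          | nil => rfl
          | cons b M =>
            cases M with
            | nil => rfl
            | cons c M =>
              have e : tp3 (a :: b :: c :: M) = (a, b, c) :: tp3 (b :: c :: M) := rfl
              rw [e, List.length_cons, ih]
              simp
      unfold tps
      rw [this, List.length_append, List.length_take, hlen]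
      omega
    have := List.getElem?_eq_none (l := tps (L.map f)) (i := k) (by omega)
    rw [this] at hs
    exact absurd hs (by simp)
  have h6 := h5 k (List.mem_range.2 hk1)
  rw [Bool.or_eq_true, Option.any_eq_true] at h6
  rcases h6 with h6 | ⟨s', hs', h6⟩
  · exact absurd (by simpa using h6) hk
  · have h7 := tps_get (f := f) hs'
    rw [h7] at hs
    have h8 := Option.some.inj hs
    rw [← h8]
    exact h.lt h6

/-- The check of a cycle with three edges to one side. -/
def absT3 (A : Red) (ti xj xn xa : List (ℕ × ℕ)) (N : List (ℕ × ℕ × ℕ × ℕ))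
    (F : List (ℕ × ℕ × ℕ)) (ts : List StepT) (L P : List ℕ) (i j x y : ℕ) : Bool :=
  okT A xj xn xa && match runT N ti F A.t (A.t + A.m) ts (startT A xj xn xa) with
  | none => false
  | some s' => (s'.tsT N ti).three L P i j x y

/-- **A contradiction from a cycle with three edges to one side.** -/
theorem false_ofT3 (hC : C4 R) (hG : ClsT R S) {A : Red} {ti xj xn xa : List (ℕ × ℕ)}
    {F : List (ℕ × ℕ × ℕ)} {ts : List StepT} {f : ℕ → V} {N : List (ℕ × ℕ × ℕ × ℕ)}
    {L P : List ℕ} {i j x y : ℕ} (ht : TabOk G f N) (hN : RotOk R f N)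
    (hc : chk A.ed (inner A) N = true) (hS : ∀ k, k < A.t + A.m → S (f k)) (hF : No5 G F f)
    (hti : ∀ e ∈ ti, f e.1 = f e.2) (hxj : ∀ e ∈ xj, G.Adj (f e.1) (f e.2))
    (hxn : ∀ e ∈ xn, f e.1 ≠ f e.2) (hxa : ∀ e ∈ xa, ¬ G.Adj (f e.1) (f e.2))
    (hf : absT3 A ti xj xn xa N F ts L P i j x y = true) : False := by
  obtain ⟨h1, -⟩ := copy_of_tab ht hc
  unfold absT3 at hf
  rw [Bool.and_eq_true] at hf
  obtain ⟨hb, hf⟩ := hf
  have h0 := startT_ok h1 hxj hxn hxa hb
  split at hf
  · exact absurd hf (by simp)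
  · rename_i s' hs
    have h' := runT_sound hG hF hN ht hti hS ts _ s' h0 hs
    exact (h'.tsT hN ht hti).three hC hf

/-- The check of a list of pairs of different labels. -/
def neT (A : Red) (ti xj xn xa : List (ℕ × ℕ)) (N : List (ℕ × ℕ × ℕ × ℕ))
    (F : List (ℕ × ℕ × ℕ)) (ts : List StepT) (L : List (ℕ × ℕ)) : Bool :=
  okT A xj xn xa && match runT N ti F A.t (A.t + A.m) ts (startT A xj xn xa) with
  | none => false
  | some s' => L.all fun e => (s'.tsT N ti).t.ne e.1 e.2

/-- **Different labels.** -/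
theorem ne_ofT (hG : ClsT R S) {A : Red} {ti xj xn xa : List (ℕ × ℕ)}
    {F : List (ℕ × ℕ × ℕ)} {ts : List StepT} {f : ℕ → V} {N : List (ℕ × ℕ × ℕ × ℕ)}
    {L : List (ℕ × ℕ)} (ht : TabOk G f N) (hN : RotOk R f N)
    (hc : chk A.ed (inner A) N = true) (hS : ∀ k, k < A.t + A.m → S (f k)) (hF : No5 G F f)
    (hti : ∀ e ∈ ti, f e.1 = f e.2) (hxj : ∀ e ∈ xj, G.Adj (f e.1) (f e.2))
    (hxn : ∀ e ∈ xn, f e.1 ≠ f e.2) (hxa : ∀ e ∈ xa, ¬ G.Adj (f e.1) (f e.2))
    (hf : neT A ti xj xn xa N F ts L = true) : ∀ e ∈ L, f e.1 ≠ f e.2 := by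
  obtain ⟨h1, -⟩ := copy_of_tab ht hc
  unfold neT at hf
  rw [Bool.and_eq_true] at hf
  obtain ⟨hb, hf⟩ := hf
  have h0 := startT_ok h1 hxj hxn hxa hb
  split at hf
  · exact absurd hf (by simp)
  · rename_i s' hs
    rw [List.all_eq_true] at hf
    have h' := runT_sound hG hF hN ht hti hS ts _ s' h0 hs
    exact fun e he => (h'.tsT hN ht hti).t.ne _ _ (hf e he)

end

end Pool.Agent.U2Geo
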