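import Mathlib
import Pool.Agent.Work.MP_392c8e_co_uni.SideThree
import Pool.Agent.Work.MP_392c8e_co_uni.RotG2X
import Pool.Agent.Work.MP_392c8e_co_uni.RedG2R

/-!
# Certificates of the patch G2'' in cyclically 4-edge-connected graphs

The three neighbours of the 7-face and the two outer neighbours of the last one have length five, and
the common outer face of the first two has length five.
-/

set_option autoImplicit false

namespace Pool.Agent.U2Geo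

open Pool.T1Side Pool.Agent.T1Red Pool.Agent.T1FF

/-- The corners of outer faces which have not length five. -/
def cnG2X : List (ℕ × ℕ × ℕ) :=
  [(18, 17, 2), (21, 20, 4), (26, 25, 7), (13, 12, 21), (17, 10, 16), (22, 14, 13), (9, 27, 26), (16, 15, 24)]

/-- The further edges. -/
def xjG2X : List (ℕ × ℕ) := [(0, 9), (3, 4), (3, 28), (4, 29), (0, 30), (9, 31)]

/-- The further pairs of different labels. -/
def xnG2X : List (ℕ × ℕ) := [(28, 4), (28, 18), (29, 20), (29, 3), (30, 24), (30, 9), (31, 27), (31, 0)]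

/-- The common steps. -/
def tsG2X : List StepT :=
  [.ne 0 27 (.base (.tri 0 23 24)), .ne 3 20 (.base (.tri 3 18 19)), .ne 4 18 (.base (.tri 4 19
  20)), .ne 9 24 (.base (.tri 9 23 27)), .ne 0 14 (.base (.tri 0 15 24)), .ne 0 16 (.base (.tri 0
  15 24)), .ne 0 22 (.base (.tri 0 23 24)), .ne 0 26 (.base (.tri 0 9 27)), .ne 1 11 (.base (.tri
  1 10 16)), .ne 1 14 (.base (.tri 1 15 16)), .ne 1 17 (.base (.tri 1 10 16)), .ne 1 24 (.base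
  (.tri 1 15 16)), .ne 2 3 (.base (.tri 2 17 18)), .ne 2 11 (.base (.tri 2 10 17)), .ne 2 16
  (.base (.tri 2 10 17)), .ne 2 19 (.base (.tri 2 17 18)), .ne 3 10 (.base (.tri 3 17 18)), .ne 3
  11 (.base (.tri 3 18 19)), .ne 3 21 (.base (.tri 3 4 20)), .ne 4 5 (.base (.tri 4 20 21)), .ne 4
  11 (.base (.tri 4 19 20)), .ne 4 12 (.base (.tri 4 20 21)), .ne 4 17 (.base (.tri 4 3 18)), .ne
  5 11 (.base (.tri 5 12 21)), .ne 5 13 (.base (.tri 5 12 21)), .ne 5 19 (.base (.tri 5 20 21)),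
  .ne 6 11 (.base (.tri 6 12 13)), .ne 6 15 (.base (.tri 6 13 14)), .ne 6 21 (.base (.tri 6 12
  13)), .ne 6 22 (.base (.tri 6 13 14)), .ne 7 8 (.base (.tri 7 25 26)), .ne 7 14 (.base (.tri 7
  22 25)), .ne 7 23 (.base (.tri 7 22 25)), .ne 7 27 (.base (.tri 7 25 26)), .ne 8 9 (.base (.tri
  8 26 27)), .ne 8 22 (.base (.tri 8 25 26)), .ne 8 23 (.base (.tri 8 26 27)), .ne 9 15 (.base
  (.tri 9 0 24)), .ne 9 22 (.base (.tri 9 23 27)), .ne 9 25 (.base (.tri 9 26 27)), .ne 10 13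
  (.base (.tri 10 11 12)), .ne 10 14 (.base (.tri 10 15 16)), .ne 10 20 (.base (.tri 10 11 19)),
  .ne 10 21 (.base (.tri 10 11 12)), .ne 10 24 (.base (.tri 10 15 16)), .ne 11 14 (.base (.tri 11
  12 13)), .ne 11 15 (.base (.tri 11 10 16)), .ne 12 15 (.base (.tri 12 13 14)), .ne 12 16 (.base
  (.tri 12 10 11)), .ne 12 17 (.base (.tri 12 10 11)), .ne 12 18 (.base (.tri 12 11 19)), .ne 12
  22 (.base (.tri 12 13 14)), .ne 13 16 (.base (.tri 13 14 15)), .ne 13 19 (.base (.tri 13 11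
  12)), .ne 13 20 (.base (.tri 13 12 21)), .ne 13 23 (.base (.tri 13 14 22)), .ne 13 24 (.base
  (.tri 13 14 15)), .ne 13 25 (.base (.tri 13 14 22)), .ne 14 21 (.base (.tri 14 12 13)), .ne 14
  26 (.base (.tri 14 22 25)), .ne 14 27 (.base (.tri 14 22 23)), .ne 15 17 (.base (.tri 15 10
  16)), .ne 15 25 (.base (.tri 15 14 22)), .ne 15 27 (.base (.tri 15 23 24)), .ne 16 18 (.base
  (.tri 16 10 17)), .ne 16 19 (.base (.tri 16 10 11)), .ne 16 22 (.base (.tri 16 14 15)), .ne 16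
  23 (.base (.tri 16 15 24)), .ne 17 20 (.base (.tri 17 18 19)), .ne 18 21 (.base (.tri 18 19
  20)), .ne 24 25 (.base (.tri 24 22 23)), .ne 24 26 (.base (.tri 24 23 27)), .ne 0 1 (.four 0 16
  15 24), .ne 0 8 (.four 0 9 27 26), .ne 0 10 (.four 0 16 15 24), .ne 0 13 (.four 0 14 15 24), .ne
  0 25 (.four 0 9 27 26), .ne 1 2 (.four 1 16 10 17), .ne 1 12 (.four 1 11 10 16), .ne 1 13 (.four
  1 14 15 16), .ne 1 18 (.four 1 16 10 17), .ne 1 19 (.four 1 11 10 16), .ne 1 22 (.four 1 14 15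
  16), .ne 1 23 (.four 1 16 15 24), .ne 2 4 (.four 2 3 18 17), .ne 2 12 (.four 2 11 10 17), .ne 2
  15 (.four 2 16 10 17), .ne 2 20 (.four 2 17 18 19), .ne 3 5 (.four 3 4 20 21), .ne 3 12 (.four 3
  4 20 21), .ne 3 16 (.four 3 10 17 18), .ne 4 10 (.four 4 3 18 17), .ne 4 13 (.four 4 12 21 20),
  .ne 5 6 (.four 5 13 12 21), .ne 5 10 (.four 5 11 12 21), .ne 5 14 (.four 5 13 12 21), .ne 5 18
  (.four 5 19 20 21), .ne 6 10 (.four 6 11 12 13), .ne 6 16 (.four 6 13 14 15), .ne 6 19 (.four 6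
  11 12 13), .ne 6 20 (.four 6 13 12 21), .ne 6 23 (.four 6 13 14 22), .ne 6 24 (.four 6 13 14
  15), .ne 6 25 (.four 6 13 14 22), .ne 7 9 (.four 7 25 26 27), .ne 7 13 (.four 7 14 22 25), .ne 7
  15 (.four 7 14 22 25), .ne 7 24 (.four 7 23 22 25), .ne 8 14 (.four 8 22 25 26), .ne 8 24 (.four
  8 23 27 26), .ne 9 14 (.four 9 0 24 15), .ne 9 16 (.four 9 0 24 15), .ne 10 22 (.four 10 14 15
  16), .ne 10 23 (.four 10 16 15 24), .ne 11 22 (.four 11 12 13 14), .ne 11 24 (.four 11 10 16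
  15), .ne 12 23 (.four 12 13 14 22), .ne 12 24 (.four 12 13 14 15), .ne 12 25 (.four 12 13 14
  22), .ne 13 17 (.four 13 10 11 12), .ne 13 18 (.four 13 12 11 19), .ne 13 26 (.four 13 14 22
  25), .ne 13 27 (.four 13 14 22 23), .ne 14 17 (.four 14 10 16 15), .ne 14 19 (.four 14 11 12
  13), .ne 14 20 (.four 14 13 12 21), .ne 15 18 (.four 15 16 10 17), .ne 15 19 (.four 15 11 10
  16), .ne 15 21 (.four 15 12 13 14), .ne 15 26 (.four 15 14 22 25), .ne 16 20 (.four 16 10 11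
  19), .ne 16 21 (.four 16 10 11 12), .ne 16 25 (.four 16 15 14 22), .ne 16 27 (.four 16 15 24
  23), .ne 17 21 (.four 17 10 11 12), .ne 17 24 (.four 17 10 16 15), .ne 21 22 (.four 21 12 13
  14), .ne 0 6 (.seven [0, 13, 14, 15, 24]), .ne 0 7 (.five 9 27 26 25 0), .ne 0 11 (.five 16 15
  24 0 10), .ne 0 12 (.seven [0, 13, 14, 15, 24]), .ne 0 17 (.five 16 15 24 0 10), .ne 1 3 (.five
  16 10 17 18 1), .ne 1 6 (.seven [1, 13, 14, 15, 16]), .ne 1 9 (.five 24 15 16 1 0), .ne 1 20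
  (.seven [1, 16, 10, 11, 19]), .ne 1 21 (.seven [1, 12, 11, 10, 16]), .ne 1 25 (.seven [1, 16,
  15, 14, 22]), .ne 1 27 (.five 16 15 24 23 1), .ne 2 13 (.seven [2, 12, 11, 10, 17]), .ne 2 14
  (.five 16 10 17 2 15), .ne 2 21 (.five 2 17 18 19 20), .ne 2 24 (.five 16 10 17 2 15), .ne 3 13
  (.five 4 20 21 12 3), .ne 3 15 (.five 16 10 17 18 3), .ne 4 6 (.five 13 12 21 20 4), .ne 4 14
  (.five 13 12 21 20 4), .ne 4 16 (.seven [4, 3, 18, 17, 10]), .ne 5 15 (.five 13 12 21 5 14), .ne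
  5 16 (.seven [5, 10, 11, 12, 21]), .ne 5 17 (.seven [5, 10, 11, 12, 21]), .ne 5 22 (.five 13 12
  21 5 14), .ne 6 7 (.five 13 14 22 25 6), .ne 6 17 (.seven [6, 10, 11, 12, 13]), .ne 6 18 (.seven
  [6, 13, 12, 11, 19]), .ne 6 26 (.five 13 14 22 25 6), .ne 6 27 (.five 13 14 22 23 6), .ne 7 12
  (.five 13 14 22 25 7), .ne 7 16 (.seven [7, 15, 14, 22, 25]), .ne 8 13 (.seven [8, 14, 22, 25,
  26]), .ne 8 15 (.seven [8, 14, 22, 25, 26]), .ne 9 10 (.five 24 15 16 9 0), .ne 9 13 (.seven [9,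
  0, 24, 15, 14]), .ne 10 25 (.seven [10, 16, 15, 14, 22]), .ne 10 27 (.five 16 15 24 23 10), .ne
  11 23 (.five 16 15 24 11 10), .ne 11 25 (.five 13 14 22 11 12), .ne 12 26 (.five 13 14 22 25
  12), .ne 12 27 (.five 13 14 22 23 12), .ne 14 18 (.five 16 10 17 14 15), .ne 15 20 (.five 13 12
  21 15 14), .ne 16 26 (.five 16 15 24 23 27), .ne 17 22 (.five 17 10 16 15 14), .ne 17 23 (.five
  17 10 16 15 24), .ne 18 24 (.five 16 10 17 18 15), .ne 19 22 (.seven [19, 11, 12, 13, 14]), .ne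
  19 24 (.seven [19, 11, 10, 16, 15]), .ne 20 22 (.five 13 12 21 20 14), .ne 21 23 (.five 21 12 13
  14 22), .ne 21 24 (.five 21 12 13 14 15), .ne 21 25 (.five 21 12 13 14 22), .ne 0 2 (.seven [0,
  17, 10, 16, 15, 24]), .ne 0 18 (.seven [0, 17, 10, 16, 15, 24]), .ne 0 19 (.seven [0, 11, 10,
  16, 15, 24]), .ne 0 21 (.seven [0, 12, 13, 14, 15, 24]), .ne 1 4 (.seven [1, 3, 18, 17, 10,
  16]), .ne 1 5 (.seven [1, 16, 10, 11, 12, 21]), .ne 1 7 (.seven [1, 16, 15, 14, 22, 25]), .ne 1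
  26 (.seven [1, 16, 15, 14, 22, 25]), .ne 2 5 (.seven [2, 17, 10, 11, 12, 21]), .ne 2 6 (.seven
  [2, 13, 12, 11, 10, 17]), .ne 2 22 (.seven [2, 14, 15, 16, 10, 17]), .ne 2 23 (.seven [2, 17,
  10, 16, 15, 24]), .ne 3 6 (.seven [3, 4, 20, 21, 12, 13]), .ne 3 14 (.seven [3, 4, 20, 21, 12,
  13]), .ne 3 24 (.seven [3, 15, 16, 10, 17, 18]), .ne 4 15 (.seven [4, 3, 18, 17, 10, 16]), .ne 4
  22 (.seven [4, 14, 13, 12, 21, 20]), .ne 5 23 (.seven [5, 21, 12, 13, 14, 22]), .ne 5 24 (.seven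
  [5, 15, 14, 13, 12, 21]), .ne 5 25 (.seven [5, 21, 12, 13, 14, 22]), .ne 6 8 (.seven [6, 13, 14,
  22, 25, 26]), .ne 6 9 (.seven [6, 0, 24, 15, 14, 13]), .ne 7 10 (.seven [7, 16, 15, 14, 22,
  25]), .ne 7 11 (.seven [7, 12, 13, 14, 22, 25]), .ne 7 21 (.seven [7, 12, 13, 14, 22, 25]), .ne
  8 12 (.seven [8, 13, 14, 22, 25, 26]), .ne 8 16 (.seven [8, 15, 14, 22, 25, 26]), .ne 9 11
  (.seven [9, 0, 24, 15, 16, 10]), .ne 9 12 (.seven [9, 0, 24, 15, 14, 13]), .ne 9 17 (.seven [9,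
  0, 24, 15, 16, 10]), .ne 10 26 (.seven [10, 16, 15, 14, 22, 25]), .ne 11 26 (.seven [11, 12, 13,
  14, 22, 25]), .ne 11 27 (.seven [11, 10, 16, 15, 24, 23]), .ne 17 25 (.seven [17, 10, 16, 15,
  14, 22]), .ne 17 27 (.seven [17, 10, 16, 15, 24, 23]), .ne 18 22 (.seven [18, 14, 13, 12, 11,
  19]), .ne 18 23 (.seven [18, 17, 10, 16, 15, 24]), .ne 19 23 (.seven [19, 11, 10, 16, 15, 24]),
  .ne 19 25 (.seven [19, 11, 12, 13, 14, 22]), .ne 20 23 (.seven [20, 21, 12, 13, 14, 22]), .ne 20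
  24 (.seven [20, 15, 14, 13, 12, 21]), .ne 20 25 (.seven [20, 21, 12, 13, 14, 22]), .ne 21 26
  (.seven [21, 12, 13, 14, 22, 25]), .ne 21 27 (.seven [21, 12, 13, 14, 22, 23]), .ne 0 3 (.seven
  [0, 18, 17, 10, 16, 15, 24]), .ne 0 5 (.seven [0, 21, 12, 13, 14, 15, 24]), .ne 0 20 (.seven [0,
  19, 11, 10, 16, 15, 24]), .ne 1 8 (.seven [1, 16, 15, 14, 22, 25, 26]), .ne 2 9 (.seven [2, 0,
  24, 15, 16, 10, 17]), .ne 2 25 (.seven [2, 17, 10, 16, 15, 14, 22]), .ne 2 27 (.seven [2, 17,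
  10, 16, 15, 24, 23]), .ne 3 22 (.seven [3, 4, 20, 21, 12, 13, 14]), .ne 3 23 (.seven [3, 18, 17,
  10, 16, 15, 24]), .ne 4 23 (.seven [4, 20, 21, 12, 13, 14, 22]), .ne 4 24 (.seven [4, 3, 18, 17,
  10, 16, 15]), .ne 4 25 (.seven [4, 20, 21, 12, 13, 14, 22]), .ne 5 7 (.seven [5, 21, 12, 13, 14,
  22, 25]), .ne 5 26 (.seven [5, 21, 12, 13, 14, 22, 25]), .ne 5 27 (.seven [5, 21, 12, 13, 14,
  22, 23]), .ne 7 17 (.seven [7, 10, 16, 15, 14, 22, 25]), .ne 7 19 (.seven [7, 11, 12, 13, 14,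
  22, 25]), .ne 7 20 (.seven [7, 21, 12, 13, 14, 22, 25]), .ne 8 10 (.seven [8, 16, 15, 14, 22,
  25, 26]), .ne 8 11 (.seven [8, 12, 13, 14, 22, 25, 26]), .ne 8 21 (.seven [8, 12, 13, 14, 22,
  25, 26]), .ne 9 18 (.seven [9, 0, 24, 15, 16, 10, 17]), .ne 9 19 (.seven [9, 0, 24, 15, 16, 10,
  11]), .ne 9 21 (.seven [9, 0, 24, 15, 14, 13, 12]), .ne 17 26 (.seven [17, 10, 16, 15, 14, 22,
  25]), .ne 18 25 (.seven [18, 17, 10, 16, 15, 14, 22]), .ne 18 27 (.seven [18, 17, 10, 16, 15,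
  24, 23]), .ne 19 26 (.seven [19, 11, 12, 13, 14, 22, 25]), .ne 19 27 (.seven [19, 11, 10, 16,
  15, 24, 23]), .ne 20 26 (.seven [20, 21, 12, 13, 14, 22, 25]), .ne 20 27 (.seven [20, 21, 12,
  13, 14, 22, 23]), .ne 0 4 (.eq 0 24 20 3 29 (.eight [0, 3, 18, 17, 10, 16, 15, 24] 0 2)), .ne 2
  26 (.eq 2 17 27 25 8 (.eight [2, 8, 10, 16, 15, 24, 23, 27] 2 4)), .ne 3 9 (.eq 3 0 4 18 28 (.eq
  3 27 18 0 4 (.full 4 20 23 26 3))), .ne 3 25 (.eq 3 22 4 18 28 (.eight [22, 14, 13, 12, 21, 20,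
  4, 3] 1 3)), .na 23 3 (.eq 23 3 24 22 27 (.eq 3 18 23 9 26 (.full 18 25 19 17 3))), .ne 3 27
  (.eight [3, 9, 0, 24, 23, 22, 25, 26] 3 3), .ne 4 7 (.eight [25, 22, 14, 13, 12, 21, 20, 4] 2
  4), .ne 4 26 (.eq 4 3 27 25 8 (.full 4 20 27 25 3)), .na 23 4 (.eq 23 4 24 22 27 (.eq 4 3 23 9
  26 (.eq 3 18 4 25 8 (.eq 3 28 4 8 25 (.eq 4 20 23 3 9 (.full 9 0 21 19 4)))))), .ne 4 27 (.eight
  [4, 9, 0, 24, 23, 22, 25, 26] 3 3), .ne 5 8 (.eight [26, 25, 22, 14, 13, 12, 21, 5] 0 0), .ne 5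
  9 (.eq 5 21 0 27 31 (.eight [27, 23, 22, 14, 13, 12, 21, 5] 1 1)), .ne 7 18 (.eight [25, 22, 14,
  15, 16, 10, 17, 7] 1 1), .ne 8 17 (.eq 8 26 10 2 18 (.full 18 25 19 8 3)), .na 11 8 (.eq 11 8 12
  10 19 (.eq 8 26 11 20 18 (.full 18 25 8 17 3))), .ne 8 19 (.eight [20, 21, 12, 11, 10, 17, 18,
  8] 2 2), .ne 8 20 (.full 8 26 21 19 4), .na 19 9 (.eq 19 9 11 18 20 (.full 9 0 21 19 4)), .ne 9
  20 (.eight [21, 12, 11, 19, 18, 3, 4, 9] 2 2), .na 19 26 (.eq 19 26 11 20 18 (.eq 26 8 19 17 3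
  (.full 26 25 19 17 3))), .ne 18 26 (.eight [18, 3, 4, 20, 19, 11, 10, 17] 3 3), .ne 3 26 (.eq 3
  4 27 25 8 (.full 3 18 27 25 4)), .ne 4 9 (.eq 4 0 20 3 29 (.full 4 27 20 3 0)), .ne 8 18 (.full
  8 26 19 17 3)]

/-- Certificate. -/
def tsG2X27 : List StepT :=
  [.ne 3 8 (.seven [3, 18, 17, 2, 25, 26]), .cn 0 6 (.seven [28, 0, 24, 15, 14, 13, 6]), .cn 2 3
  (.five 2 17 18 3 28), .cn 4 5 (.five 4 20 21 5 28), .cn 7 8 (.five 7 25 26 8 28), .na 3 8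
  (.seven [3, 8, 26, 25, 2, 17, 18])]

/-- Certificate. -/
def tsG2X38 : List StepT :=
  [.ne 2 7 (.seven [2, 17, 18, 3, 26, 25]), .cn 0 6 (.seven [28, 0, 24, 15, 14, 13, 6]), .cn 2 3
  (.five 2 17 18 3 28), .cn 4 5 (.five 4 20 21 5 28), .cn 7 8 (.five 26 25 7 28 8), .na 2 7
  (.seven [2, 7, 25, 26, 3, 18, 17])]

/-- Certificate. -/
def tsG2X28 : List StepT :=
  [.cn 0 6 (.seven [28, 0, 24, 15, 14, 13, 6]), .cn 2 3 (.five 2 17 18 3 28), .cn 4 5 (.five 4 20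
  21 5 28), .cn 7 8 (.five 26 25 7 28 8)]

/-- Certificate. -/
def tsG2X00 : List StepT :=
  [.cn 0 6 (.seven [28, 0, 24, 15, 14, 13, 6]), .cn 2 3 (.five 2 17 18 3 28), .cn 4 5 (.five 4 20
  21 5 28), .cn 7 8 (.five 7 25 26 8 28)]

theorem finG2X27 : finT G2R [] [(2, 7)] comG2R [(3, 8)]
    [(2, 7)] xjG2X ([(3, 7), (4, 8)] ++ xnG2X) [] tG2X cnG2X (tsG2X ++ tsG2X27) = true := by
  decide +kernel

theorem finG2X38 : finT G2R [] [(3, 8)] comG2R [(2, 7)]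
    [(3, 8)] xjG2X ([(3, 7), (4, 8)] ++ xnG2X) [] tG2X cnG2X (tsG2X ++ tsG2X38) = true := by
  decide +kernel

theorem finG2X28 : finT G2R [] [(2, 8)] comG2R [(3, 7)]
    [(2, 8)] xjG2X ([(3, 7), (4, 8)] ++ xnG2X) [(3, 7)] tG2X cnG2X (tsG2X ++ tsG2X28) = true := by
  decide +kernel

theorem finG2X00 : finT G2R [] [] comG2R []
    [] xjG2X ([(2, 7), (2, 8), (3, 7), (4, 8), (3, 8)] ++ xnG2X) [] tG2X cnG2X (tsG2X ++ tsG2X00) = true := by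
  decide +kernel

theorem absG2Xe : absT G2R [(2, 8), (5, 31)] xjG2X xnG2X [] tG2X cnG2X tsG2X
    (.cross [0, 9, 5, 21, 12, 13, 14, 15, 24] 0 6 [27, 26, 2, 17, 10, 16]) = true := by
  decide +kernel

theorem absG2X37 : absT3 G2R [(3, 7), (25, 28)] xjG2X xnG2X [] tG2X cnG2X tsG2X
    [3, 25, 22, 14, 13, 12, 21, 20, 4] [3, 5, 7] 3 5 6 5 = true := by
  decide +kernel

theorem absG2X48 : absT3 G2R [(4, 8), (26, 29)] xjG2X xnG2X [] tG2X cnG2X tsG2X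
    [4, 26, 25, 22, 14, 13, 12, 21, 20] [1, 4, 6] 4 6 6 5 = true := by
  decide +kernel

theorem neG2X : neT G2R [] xjG2X xnG2X [] tG2X cnG2X tsG2X
    [(25, 4), (25, 18), (26, 20), (26, 3)] = true := by
  decide +kernel

theorem chkG2X : chk G2R.ed (inner G2R) tG2X = true := by decide +kernel

end Pool.Agent.U2Geo
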