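import Mathlib
import Pool.Agent.Work.MP_392c8e_co_uni.GeoGood
import Pool.Agent.Work.MP_392c8e_co_uni.Inst.Z4Def

/-!
# Certificates for the side conditions: Z4
-/

namespace Pool.Agent.U2Geo

open Pool.T1Side Pool.Agent.T1Red

/-- The pairs of terminals which are joined. -/
def comZ4 : List (ℕ × ℕ) := [(0, 4), (1, 3), (5, 7)]

/-- The certificate if the faces F and O1 have not length five. -/
def stZ4a : List StepL :=
  [.ne 0 8 (.base (.tri 0 15 9)), .ne 0 10 (.base (.tri 0 9 15)), .ne 0 13 (.base (.tri 14 0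
  15)), .ne 0 21 (.base (.tri 14 0 15)), .ne 1 2 (.base (.tri 1 17 16)), .ne 1 9 (.base (.tri 10
  1 16)), .ne 1 11 (.base (.tri 10 1 16)), .ne 1 18 (.base (.tri 16 1 17)), .ne 2 3 (.base (.tri
  2 17 18)), .ne 2 10 (.base (.tri 2 17 16)), .ne 2 11 (.base (.tri 2 17 18)), .ne 3 10 (.base
  (.tri 11 3 18)), .ne 3 12 (.base (.tri 11 3 18)), .ne 3 16 (.base (.tri 17 3 18)), .ne 4 9
  (.base (.tri 8 4 12)), .ne 4 10 (.base (.tri 11 4 12)), .ne 4 13 (.base (.tri 8 4 12)), .ne 4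
  18 (.base (.tri 11 4 12)), .ne 5 6 (.base (.tri 19 5 20)), .ne 5 8 (.base (.tri 13 5 19)), .ne
  5 14 (.base (.tri 13 5 19)), .ne 5 21 (.base (.tri 19 5 20)), .ne 6 7 (.base (.tri 20 6 21)),
  .ne 6 13 (.base (.tri 6 19 20)), .ne 6 14 (.base (.tri 20 6 21)), .ne 7 13 (.base (.tri 14 7
  21)), .ne 7 15 (.base (.tri 7 14 21)), .ne 7 19 (.base (.tri 20 7 21)), .ne 8 16 (.base (.tri 9
  8 10)), .ne 8 18 (.base (.tri 8 12 11)), .ne 8 20 (.base (.tri 13 8 19)), .ne 8 21 (.base (.tri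
  13 8 14)), .ne 9 17 (.base (.tri 10 9 16)), .ne 9 18 (.base (.tri 10 9 11)), .ne 9 19 (.base
  (.tri 9 8 13)), .ne 9 21 (.base (.tri 14 9 15)), .ne 10 13 (.base (.tri 9 8 10)), .ne 10 14
  (.base (.tri 10 9 15)), .ne 11 13 (.base (.tri 8 12 11)), .ne 11 15 (.base (.tri 10 9 11)), .ne
  12 14 (.base (.tri 8 12 13)), .ne 12 15 (.base (.tri 8 12 9)), .ne 12 16 (.base (.tri 10 12
  11)), .ne 12 17 (.base (.tri 11 12 18)), .ne 12 19 (.base (.tri 8 12 13)), .ne 15 16 (.base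
  (.tri 10 9 15)), .ne 15 19 (.base (.tri 14 13 15)), .ne 15 20 (.base (.tri 14 15 21)), .ne 0 7
  (.four 0 21 14 15), .ne 0 11 (.four 0 10 9 15), .ne 0 12 (.four 0 8 9 15), .ne 0 16 (.four 0 10
  9 15), .ne 0 19 (.four 0 13 14 15), .ne 0 20 (.four 0 21 14 15), .ne 1 3 (.four 1 16 17 18),
  .ne 1 8 (.four 1 16 10 9), .ne 1 12 (.four 1 16 10 11), .ne 1 15 (.four 1 9 10 16), .ne 2 9
  (.four 2 17 16 10), .ne 2 12 (.four 2 17 18 11), .ne 3 4 (.four 3 18 11 12), .ne 3 8 (.four 3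
  18 11 12), .ne 3 9 (.four 3 10 11 18), .ne 4 14 (.four 4 13 8 12), .ne 4 15 (.four 4 9 8 12),
  .ne 4 16 (.four 4 10 11 12), .ne 4 17 (.four 4 18 11 12), .ne 4 19 (.four 4 13 8 12), .ne 5 7
  (.four 5 19 20 21), .ne 5 9 (.four 5 8 13 19), .ne 5 12 (.four 5 8 13 19), .ne 5 15 (.four 5 19
  13 14), .ne 6 8 (.four 6 13 19 20), .ne 6 15 (.four 6 20 21 14), .ne 7 8 (.four 7 21 14 13),
  .ne 7 9 (.four 7 21 14 15), .ne 8 17 (.four 8 9 10 16), .ne 9 20 (.four 9 8 13 19), .ne 10 19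
  (.four 10 9 8 13), .ne 10 21 (.four 10 9 15 14), .ne 11 14 (.four 11 10 9 15), .ne 11 19 (.four
  11 12 8 13), .ne 12 20 (.four 12 8 13 19), .ne 12 21 (.four 12 8 13 14), .ne 13 16 (.four 13 8
  9 10), .ne 13 18 (.four 13 8 12 11), .ne 14 16 (.four 14 10 9 15), .ne 15 17 (.four 15 9 10
  16), .ne 15 18 (.four 15 9 10 11), .ne 0 1 (.five 10 9 15 0 16), .ne 0 4 (.base (.corner 0 12 8
  [9, 15] [13, 14, 15])), .ne 0 5 (.base (.corner 0 19 13 [14, 15] [8, 9, 15])), .ne 0 6 (.base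
  (.corner 20 21 14 [15, 0] [13, 19])), .ne 0 17 (.five 10 9 15 0 16), .ne 0 18 (.five 10 9 15 0
  11), .ne 1 4 (.base (.corner 1 16 10 [11, 12] [9, 8, 12])), .ne 1 13 (.base (.corner 1 8 9 [10,
  16] [15, 14])), .ne 1 14 (.five 10 9 15 1 16), .ne 2 4 (.base (.corner 17 18 11 [12, 2] [10,
  16])), .ne 2 8 (.base (.corner 2 17 16 [10, 9] [10, 11, 12])), .ne 2 15 (.base (.corner 17 16
  10 [9, 2] [11, 18])), .ne 3 13 (.base (.corner 3 8 9 [15, 14] [10, 16, 17, 18])), .ne 3 15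
  (.base (.corner 3 9 8 [13, 14] [12, 11, 18])), .ne 4 5 (.five 13 8 12 4 19), .ne 4 20 (.five 13
  8 12 4 19), .ne 4 21 (.five 12 8 13 14 4), .ne 5 10 (.base (.corner 5 9 8 [12, 11] [13, 19])),
  .ne 5 11 (.five 13 8 12 5 19), .ne 6 9 (.base (.corner 6 8 13 [19, 20] [14, 21, 20])), .ne 6 12
  (.base (.corner 6 8 9 [10, 11] [15, 14, 21, 20])), .ne 7 10 (.base (.corner 7 9 8 [12, 11] [13,
  19, 20, 21])), .ne 7 12 (.base (.corner 7 8 9 [10, 11] [15, 14, 21])), .ne 10 20 (.five 10 9 15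
  14 21), .ne 11 20 (.five 12 8 13 19 11), .ne 11 21 (.five 10 9 15 14 11), .ne 13 17 (.five 13 8
  12 11 18), .ne 14 17 (.five 15 9 10 16 14), .ne 14 18 (.five 10 9 15 14 11), .ne 16 19 (.base
  (.corner 16 10 9 [8, 13] [15, 14, 21, 20])), .ne 16 21 (.five 10 9 15 14 16), .ne 18 19 (.five
  12 8 13 18 11), .ne 0 2 (.base (.corner 15 9 10 [16, 17, 0] [11, 18, 17, 0])), .ne 0 3 (.base
  (.corner 0 18 11 [10, 9, 15] [12, 8, 9, 15])), .ne 1 19 (.base (.corner 1 13 14 [21, 20] [15,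
  9, 10, 16])), .ne 1 21 (.base (.corner 13 14 1 [20, 19] [16, 10, 9, 8])), .ne 2 13 (.base
  (.corner 2 8 9 [15, 14] [10, 16, 17])), .ne 2 14 (.base (.corner 2 13 8 [9, 15] [9, 10, 16,
  17])), .ne 3 14 (.base (.corner 3 13 8 [9, 15] [9, 10, 11, 18])), .ne 3 19 (.base (.corner 3 18
  11 [12, 8, 13] [10, 9, 8, 13])), .ne 4 6 (.base (.corner 4 12 8 [13, 19, 20] [13, 14, 21,
  20])), .ne 4 7 (.base (.corner 4 12 8 [13, 14, 21] [9, 15, 14, 21])), .ne 5 16 (.base (.corner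
  5 10 11 [18, 17] [12, 8, 13, 19])), .ne 5 18 (.base (.corner 5 11 10 [16, 17] [9, 8, 13, 19])),
  .ne 6 10 (.base (.corner 6 9 8 [12, 11] [13, 19, 20])), .ne 6 11 (.base (.corner 6 10 9 [8, 12]
  [8, 13, 19, 20])), .ne 7 11 (.base (.corner 7 10 9 [8, 12] [8, 13, 14, 21])), .ne 7 16 (.base
  (.corner 7 10 9 [15, 14, 21] [8, 13, 14, 21])), .ne 16 20 (.base (.corner 16 10 11 [18, 17]
  [12, 8, 13, 19])), .ne 17 19 (.base (.corner 17 13 14 [21, 20] [15, 9, 10, 16])), .ne 17 21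
  (.base (.corner 17 14 13 [19, 20] [8, 9, 10, 16])), .ne 18 20 (.base (.corner 18 11 10 [16, 17]
  [9, 8, 13, 19])), .ne 18 21 (.base (.corner 18 11 10 [16, 17] [9, 8, 13, 14])), .ne 1 5 (.base
  (.corner 13 8 9 [10, 16, 1, 19] [15, 14])), .ne 1 7 (.base (.corner 14 15 9 [10, 16, 1, 21] [8,
  13])), .ne 1 20 (.base (.corner 1 19 13 [14, 21] [8, 9, 10, 16])), .ne 2 19 (.base (.corner 13
  8 9 [10, 16, 17, 2] [15, 14])), .ne 2 21 (.base (.corner 14 15 9 [10, 16, 17, 2] [8, 13])), .ne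
  3 5 (.base (.corner 11 12 8 [13, 19, 3, 18] [9, 10])), .ne 3 20 (.base (.corner 3 19 13 [14,
  21] [8, 12, 11, 18])), .ne 3 21 (.base (.corner 13 14 3 [20, 19] [18, 11, 12, 8])), .ne 5 17
  (.base (.corner 5 16 10 [11, 18] [9, 8, 13, 19])), .ne 6 16 (.base (.corner 6 10 9 [8, 13, 19,
  20] [15, 14, 21, 20])), .ne 6 18 (.base (.corner 20 19 13 [8, 12, 11, 6] [14, 21])), .ne 7 17
  (.base (.corner 7 16 10 [11, 18] [9, 15, 14, 21])), .ne 7 18 (.base (.corner 7 11 10 [16, 17]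
  [9, 15, 14, 21])), .ne 17 20 (.base (.corner 17 16 10 [11, 18] [9, 8, 13, 19])), .na 10 19
  (.base (.corner 10 9 8 [12, 11] [13, 19])), .na 9 20 (.base (.corner 9 8 13 [19, 20] [14, 21,
  20])), .na 8 1 (.base (.corner 8 1 16 [10, 9] [10, 11, 12])), .na 13 16 (.base (.corner 13 16
  10 [9, 8] [9, 15, 14])), .ne 1 6 (.long 10 9 8 [13, 19, 20, 1, 16] [12, 11]), .na 17 8 (.base
  (.corner 17 8 12 [11, 18] [11, 10, 16])), .na 9 2 (.base (.corner 9 8 12 [11, 10] [11, 18, 17,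
  2])), .ne 2 5 (.long 17 16 10 [9, 8, 13, 19, 2] [11, 18]), .na 17 15 (.five 10 9 15 17 16), .na
  16 14 (.five 10 9 15 14 16), .na 10 21 (.five 10 9 15 14 21), .ne 2 7 (.long 17 16 10 [9, 15,
  14, 21, 2] [11, 18]), .ne 2 20 (.long 17 16 10 [9, 8, 13, 19, 2] [11, 18]), .na 11 19 (.five 13
  8 12 11 19), .na 12 20 (.five 12 8 13 19 20), .na 8 3 (.base (.corner 8 9 10 [11, 12] [16, 17,
  18, 3])), .na 13 18 (.five 13 8 12 11 18), .ne 3 6 (.long 11 12 8 [13, 19, 20, 3, 18] [9, 10]),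
  .na 18 15 (.five 10 9 15 18 11), .na 11 14 (.five 10 9 15 14 11), .na 9 3 (.base (.corner 9 8
  12 [11, 10] [11, 18, 3])), .ne 3 7 (.long 18 11 10 [9, 15, 14, 21, 3] [16, 17]), .ne 6 17
  (.long 6 16 10 [9, 8, 13, 19, 20] [11, 18]), .cn 0 4 22 (.base (.corner 12 8 9 [15, 0, 22, 4]
  [10, 11])), .cn 1 3 22 (.base (.corner 22 1 16 [17, 18, 3] [10, 11, 18, 3])), .cn 5 7 22 (.base
  (.corner 22 5 19 [20, 21, 7] [13, 14, 21, 7]))]

theorem fin_Z4a : finL Z4 [] [(2, 6)] comZ4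
    [] [(10, 9, 15), (13, 8, 12)] stZ4a = true := by
  decide +kernel

/-- The certificate if the faces F and L have not length five. -/
def stZ4b : List StepL :=
  [.ne 0 8 (.base (.tri 0 15 9)), .ne 0 10 (.base (.tri 0 9 15)), .ne 0 13 (.base (.tri 14 0
  15)), .ne 0 21 (.base (.tri 14 0 15)), .ne 1 2 (.base (.tri 1 17 16)), .ne 1 9 (.base (.tri 10
  1 16)), .ne 1 11 (.base (.tri 10 1 16)), .ne 1 18 (.base (.tri 16 1 17)), .ne 2 3 (.base (.tri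
  2 17 18)), .ne 2 10 (.base (.tri 2 17 16)), .ne 2 11 (.base (.tri 2 17 18)), .ne 3 10 (.base
  (.tri 11 3 18)), .ne 3 12 (.base (.tri 11 3 18)), .ne 3 16 (.base (.tri 17 3 18)), .ne 4 9
  (.base (.tri 8 4 12)), .ne 4 10 (.base (.tri 11 4 12)), .ne 4 13 (.base (.tri 8 4 12)), .ne 4
  18 (.base (.tri 11 4 12)), .ne 5 6 (.base (.tri 19 5 20)), .ne 5 8 (.base (.tri 13 5 19)), .ne
  5 14 (.base (.tri 13 5 19)), .ne 5 21 (.base (.tri 19 5 20)), .ne 6 7 (.base (.tri 20 6 21)),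
  .ne 6 13 (.base (.tri 6 19 20)), .ne 6 14 (.base (.tri 20 6 21)), .ne 7 13 (.base (.tri 14 7
  21)), .ne 7 15 (.base (.tri 7 14 21)), .ne 7 19 (.base (.tri 20 7 21)), .ne 8 16 (.base (.tri 9
  8 10)), .ne 8 18 (.base (.tri 8 12 11)), .ne 8 20 (.base (.tri 13 8 19)), .ne 8 21 (.base (.tri
  13 8 14)), .ne 9 17 (.base (.tri 10 9 16)), .ne 9 18 (.base (.tri 10 9 11)), .ne 9 19 (.base
  (.tri 9 8 13)), .ne 9 21 (.base (.tri 14 9 15)), .ne 10 13 (.base (.tri 9 8 10)), .ne 10 14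
  (.base (.tri 10 9 15)), .ne 11 13 (.base (.tri 8 12 11)), .ne 11 15 (.base (.tri 10 9 11)), .ne
  12 14 (.base (.tri 8 12 13)), .ne 12 15 (.base (.tri 8 12 9)), .ne 12 16 (.base (.tri 10 12
  11)), .ne 12 17 (.base (.tri 11 12 18)), .ne 12 19 (.base (.tri 8 12 13)), .ne 15 16 (.base
  (.tri 10 9 15)), .ne 15 19 (.base (.tri 14 13 15)), .ne 15 20 (.base (.tri 14 15 21)), .ne 0 7
  (.four 0 21 14 15), .ne 0 11 (.four 0 10 9 15), .ne 0 12 (.four 0 8 9 15), .ne 0 16 (.four 0 10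
  9 15), .ne 0 19 (.four 0 13 14 15), .ne 0 20 (.four 0 21 14 15), .ne 1 3 (.four 1 16 17 18),
  .ne 1 8 (.four 1 16 10 9), .ne 1 12 (.four 1 16 10 11), .ne 1 15 (.four 1 9 10 16), .ne 2 9
  (.four 2 17 16 10), .ne 2 12 (.four 2 17 18 11), .ne 3 4 (.four 3 18 11 12), .ne 3 8 (.four 3
  18 11 12), .ne 3 9 (.four 3 10 11 18), .ne 4 14 (.four 4 13 8 12), .ne 4 15 (.four 4 9 8 12),
  .ne 4 16 (.four 4 10 11 12), .ne 4 17 (.four 4 18 11 12), .ne 4 19 (.four 4 13 8 12), .ne 5 7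
  (.four 5 19 20 21), .ne 5 9 (.four 5 8 13 19), .ne 5 12 (.four 5 8 13 19), .ne 5 15 (.four 5 19
  13 14), .ne 6 8 (.four 6 13 19 20), .ne 6 15 (.four 6 20 21 14), .ne 7 8 (.four 7 21 14 13),
  .ne 7 9 (.four 7 21 14 15), .ne 8 17 (.four 8 9 10 16), .ne 9 20 (.four 9 8 13 19), .ne 10 19
  (.four 10 9 8 13), .ne 10 21 (.four 10 9 15 14), .ne 11 14 (.four 11 10 9 15), .ne 11 19 (.four
  11 12 8 13), .ne 12 20 (.four 12 8 13 19), .ne 12 21 (.four 12 8 13 14), .ne 13 16 (.four 13 8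
  9 10), .ne 13 18 (.four 13 8 12 11), .ne 14 16 (.four 14 10 9 15), .ne 15 17 (.four 15 9 10
  16), .ne 15 18 (.four 15 9 10 11), .ne 0 1 (.five 10 9 15 0 16), .ne 0 4 (.base (.corner 0 12 8
  [9, 15] [13, 14, 15])), .ne 0 5 (.base (.corner 0 19 13 [14, 15] [8, 9, 15])), .ne 0 6 (.five
  21 14 15 0 20), .ne 0 17 (.five 10 9 15 0 16), .ne 0 18 (.five 10 9 15 0 11), .ne 1 4 (.base
  (.corner 1 16 10 [11, 12] [9, 8, 12])), .ne 1 13 (.base (.corner 1 8 9 [10, 16] [15, 14])), .ne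
  1 14 (.five 10 9 15 1 16), .ne 2 4 (.base (.corner 17 18 11 [12, 2] [10, 16])), .ne 2 8 (.base
  (.corner 2 17 16 [10, 9] [10, 11, 12])), .ne 2 15 (.base (.corner 17 16 10 [9, 2] [11, 18])),
  .ne 3 13 (.base (.corner 3 8 9 [15, 14] [10, 16, 17, 18])), .ne 3 15 (.base (.corner 3 9 8 [13,
  14] [12, 11, 18])), .ne 4 20 (.base (.corner 4 19 13 [8, 12] [14, 21])), .ne 4 21 (.base
  (.corner 4 12 8 [13, 14] [9, 15, 14])), .ne 5 10 (.base (.corner 5 9 8 [12, 11] [13, 19])), .ne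
  5 11 (.base (.corner 5 10 9 [8, 12] [8, 13, 19])), .ne 6 9 (.five 21 14 15 6 20), .ne 6 12
  (.base (.corner 6 8 9 [10, 11] [15, 14, 21, 20])), .ne 7 10 (.five 15 14 21 7 9), .ne 7 12
  (.base (.corner 7 8 9 [10, 11] [15, 14, 21])), .ne 10 20 (.five 10 9 15 14 21), .ne 11 20
  (.base (.corner 11 10 9 [8, 12] [8, 13, 19])), .ne 11 21 (.five 10 9 15 14 11), .ne 13 17
  (.base (.corner 13 8 9 [10, 16] [10, 11, 18])), .ne 14 17 (.five 15 9 10 16 14), .ne 14 18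
  (.five 10 9 15 14 11), .ne 16 19 (.base (.corner 16 10 9 [8, 13] [15, 14, 21, 20])), .ne 16 21
  (.five 10 9 15 14 16), .ne 18 19 (.base (.corner 18 11 10 [16, 17] [9, 8, 13])), .ne 0 2 (.base
  (.corner 15 9 10 [16, 17, 0] [11, 18, 17, 0])), .ne 0 3 (.base (.corner 0 18 11 [10, 9, 15]
  [12, 8, 9, 15])), .ne 1 19 (.base (.corner 1 13 14 [21, 20] [15, 9, 10, 16])), .ne 1 21 (.base
  (.corner 13 14 1 [20, 19] [16, 10, 9, 8])), .ne 2 13 (.base (.corner 2 8 9 [15, 14] [10, 16,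
  17])), .ne 2 14 (.base (.corner 2 13 8 [9, 15] [9, 10, 16, 17])), .ne 3 14 (.base (.corner 3 13
  8 [9, 15] [9, 10, 11, 18])), .ne 3 19 (.base (.corner 3 18 11 [12, 8, 13] [10, 9, 8, 13])), .ne
  4 6 (.base (.corner 4 12 8 [13, 19, 20] [13, 14, 21, 20])), .ne 4 7 (.base (.corner 4 12 8 [13,
  14, 21] [9, 15, 14, 21])), .ne 5 16 (.base (.corner 5 10 11 [18, 17] [12, 8, 13, 19])), .ne 5
  18 (.base (.corner 5 11 10 [16, 17] [9, 8, 13, 19])), .ne 6 10 (.base (.corner 6 9 8 [12, 11]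
  [13, 19, 20])), .ne 6 11 (.base (.corner 6 10 9 [8, 12] [8, 13, 19, 20])), .ne 7 11 (.base
  (.corner 7 10 9 [8, 12] [8, 13, 14, 21])), .ne 7 16 (.base (.corner 7 10 9 [15, 14, 21] [8, 13,
  14, 21])), .ne 16 20 (.base (.corner 16 10 11 [18, 17] [12, 8, 13, 19])), .ne 17 19 (.base
  (.corner 17 13 14 [21, 20] [15, 9, 10, 16])), .ne 17 21 (.base (.corner 17 14 13 [19, 20] [8,
  9, 10, 16])), .ne 18 20 (.base (.corner 18 11 10 [16, 17] [9, 8, 13, 19])), .ne 18 21 (.base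
  (.corner 18 11 10 [16, 17] [9, 8, 13, 14])), .ne 1 5 (.base (.corner 13 8 9 [10, 16, 1, 19]
  [15, 14])), .ne 1 7 (.base (.corner 14 15 9 [10, 16, 1, 21] [8, 13])), .ne 1 20 (.base (.corner
  1 19 13 [14, 21] [8, 9, 10, 16])), .ne 2 19 (.base (.corner 13 8 9 [10, 16, 17, 2] [15, 14])),
  .ne 2 21 (.base (.corner 14 15 9 [10, 16, 17, 2] [8, 13])), .ne 3 5 (.base (.corner 11 12 8
  [13, 19, 3, 18] [9, 10])), .ne 3 20 (.base (.corner 3 19 13 [14, 21] [8, 12, 11, 18])), .ne 3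
  21 (.base (.corner 13 14 3 [20, 19] [18, 11, 12, 8])), .ne 5 17 (.base (.corner 5 16 10 [11,
  18] [9, 8, 13, 19])), .ne 6 16 (.base (.corner 6 10 9 [8, 13, 19, 20] [15, 14, 21, 20])), .ne 6
  18 (.base (.corner 20 19 13 [8, 12, 11, 6] [14, 21])), .ne 7 17 (.base (.corner 7 16 10 [11,
  18] [9, 15, 14, 21])), .ne 7 18 (.base (.corner 7 11 10 [16, 17] [9, 15, 14, 21])), .ne 17 20
  (.base (.corner 17 16 10 [11, 18] [9, 8, 13, 19])), .na 10 19 (.base (.corner 10 9 8 [12, 11]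
  [13, 19])), .na 9 20 (.five 21 14 15 9 20), .na 8 1 (.base (.corner 8 1 16 [10, 9] [10, 11,
  12])), .na 13 16 (.base (.corner 13 16 10 [9, 8] [9, 15, 14])), .ne 1 6 (.long 10 9 8 [13, 19,
  20, 1, 16] [12, 11]), .na 17 8 (.base (.corner 17 8 12 [11, 18] [11, 10, 16])), .na 9 2 (.base
  (.corner 9 8 12 [11, 10] [11, 18, 17, 2])), .ne 2 5 (.long 17 16 10 [9, 8, 13, 19, 2] [11,
  18]), .na 17 15 (.five 10 9 15 17 16), .na 16 14 (.five 10 9 15 14 16), .na 10 21 (.five 10 9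
  15 14 21), .ne 2 7 (.long 17 16 10 [9, 15, 14, 21, 2] [11, 18]), .ne 2 20 (.long 17 16 10 [9,
  8, 13, 19, 2] [11, 18]), .na 11 19 (.base (.corner 11 10 9 [8, 12] [8, 13, 19])), .na 12 20
  (.base (.corner 12 8 9 [10, 11] [15, 14, 21, 20])), .na 8 3 (.base (.corner 8 9 10 [11, 12]
  [16, 17, 18, 3])), .na 13 18 (.base (.corner 13 8 9 [15, 14] [10, 16, 17, 18])), .ne 3 6 (.long
  11 12 8 [13, 19, 20, 3, 18] [9, 10]), .na 18 15 (.five 10 9 15 18 11), .na 11 14 (.five 10 9 15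
  14 11), .na 9 3 (.base (.corner 9 8 12 [11, 10] [11, 18, 3])), .ne 3 7 (.long 18 11 10 [9, 15,
  14, 21, 3] [16, 17]), .ne 6 17 (.long 6 16 10 [9, 8, 13, 19, 20] [11, 18]), .cn 0 4 22 (.base
  (.corner 12 8 9 [15, 0, 22, 4] [10, 11])), .cn 1 3 22 (.base (.corner 22 1 16 [17, 18, 3] [10,
  11, 18, 3])), .cn 5 7 22 (.base (.corner 22 5 19 [20, 21, 7] [13, 14, 21, 7])), .na 0 7 (.five
  15 14 21 7 0)]

theorem fin_Z4b : finL Z4 [] [(2, 6), (4, 5)] comZ4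
    [(0, 7)] [(10, 9, 15), (15, 14, 21)] stZ4b = true := by
  decide +kernel

/-- The certificate if the faces O2 and O1 have not length five. -/
def stZ4c : List StepL :=
  [.ne 0 8 (.base (.tri 0 15 9)), .ne 0 10 (.base (.tri 0 9 15)), .ne 0 13 (.base (.tri 14 0
  15)), .ne 0 21 (.base (.tri 14 0 15)), .ne 1 2 (.base (.tri 1 17 16)), .ne 1 9 (.base (.tri 10
  1 16)), .ne 1 11 (.base (.tri 10 1 16)), .ne 1 18 (.base (.tri 16 1 17)), .ne 2 3 (.base (.tri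
  2 17 18)), .ne 2 10 (.base (.tri 2 17 16)), .ne 2 11 (.base (.tri 2 17 18)), .ne 3 10 (.base
  (.tri 11 3 18)), .ne 3 12 (.base (.tri 11 3 18)), .ne 3 16 (.base (.tri 17 3 18)), .ne 4 9
  (.base (.tri 8 4 12)), .ne 4 10 (.base (.tri 11 4 12)), .ne 4 13 (.base (.tri 8 4 12)), .ne 4
  18 (.base (.tri 11 4 12)), .ne 5 6 (.base (.tri 19 5 20)), .ne 5 8 (.base (.tri 13 5 19)), .ne
  5 14 (.base (.tri 13 5 19)), .ne 5 21 (.base (.tri 19 5 20)), .ne 6 7 (.base (.tri 20 6 21)),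
  .ne 6 13 (.base (.tri 6 19 20)), .ne 6 14 (.base (.tri 20 6 21)), .ne 7 13 (.base (.tri 14 7
  21)), .ne 7 15 (.base (.tri 7 14 21)), .ne 7 19 (.base (.tri 20 7 21)), .ne 8 16 (.base (.tri 9
  8 10)), .ne 8 18 (.base (.tri 8 12 11)), .ne 8 20 (.base (.tri 13 8 19)), .ne 8 21 (.base (.tri
  13 8 14)), .ne 9 17 (.base (.tri 10 9 16)), .ne 9 18 (.base (.tri 10 9 11)), .ne 9 19 (.base
  (.tri 9 8 13)), .ne 9 21 (.base (.tri 14 9 15)), .ne 10 13 (.base (.tri 9 8 10)), .ne 10 14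
  (.base (.tri 10 9 15)), .ne 11 13 (.base (.tri 8 12 11)), .ne 11 15 (.base (.tri 10 9 11)), .ne
  12 14 (.base (.tri 8 12 13)), .ne 12 15 (.base (.tri 8 12 9)), .ne 12 16 (.base (.tri 10 12
  11)), .ne 12 17 (.base (.tri 11 12 18)), .ne 12 19 (.base (.tri 8 12 13)), .ne 15 16 (.base
  (.tri 10 9 15)), .ne 15 19 (.base (.tri 14 13 15)), .ne 15 20 (.base (.tri 14 15 21)), .ne 0 7
  (.four 0 21 14 15), .ne 0 11 (.four 0 10 9 15), .ne 0 12 (.four 0 8 9 15), .ne 0 16 (.four 0 10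
  9 15), .ne 0 19 (.four 0 13 14 15), .ne 0 20 (.four 0 21 14 15), .ne 1 3 (.four 1 16 17 18),
  .ne 1 8 (.four 1 16 10 9), .ne 1 12 (.four 1 16 10 11), .ne 1 15 (.four 1 9 10 16), .ne 2 9
  (.four 2 17 16 10), .ne 2 12 (.four 2 17 18 11), .ne 3 4 (.four 3 18 11 12), .ne 3 8 (.four 3
  18 11 12), .ne 3 9 (.four 3 10 11 18), .ne 4 14 (.four 4 13 8 12), .ne 4 15 (.four 4 9 8 12),
  .ne 4 16 (.four 4 10 11 12), .ne 4 17 (.four 4 18 11 12), .ne 4 19 (.four 4 13 8 12), .ne 5 7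
  (.four 5 19 20 21), .ne 5 9 (.four 5 8 13 19), .ne 5 12 (.four 5 8 13 19), .ne 5 15 (.four 5 19
  13 14), .ne 6 8 (.four 6 13 19 20), .ne 6 15 (.four 6 20 21 14), .ne 7 8 (.four 7 21 14 13),
  .ne 7 9 (.four 7 21 14 15), .ne 8 17 (.four 8 9 10 16), .ne 9 20 (.four 9 8 13 19), .ne 10 19
  (.four 10 9 8 13), .ne 10 21 (.four 10 9 15 14), .ne 11 14 (.four 11 10 9 15), .ne 11 19 (.four
  11 12 8 13), .ne 12 20 (.four 12 8 13 19), .ne 12 21 (.four 12 8 13 14), .ne 13 16 (.four 13 8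
  9 10), .ne 13 18 (.four 13 8 12 11), .ne 14 16 (.four 14 10 9 15), .ne 15 17 (.four 15 9 10
  16), .ne 15 18 (.four 15 9 10 11), .ne 0 4 (.base (.corner 0 12 8 [9, 15] [13, 14, 15])), .ne 0
  5 (.base (.corner 0 19 13 [14, 15] [8, 9, 15])), .ne 0 6 (.base (.corner 20 21 14 [15, 0] [13,
  19])), .ne 0 17 (.base (.corner 0 16 10 [9, 15] [11, 18])), .ne 0 18 (.base (.corner 0 17 16
  [10, 11] [10, 9, 15])), .ne 1 4 (.base (.corner 1 16 10 [11, 12] [9, 8, 12])), .ne 1 13 (.base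
  (.corner 1 8 9 [10, 16] [15, 14])), .ne 1 14 (.base (.corner 1 16 10 [9, 15] [9, 8, 13])), .ne
  2 4 (.five 18 11 12 2 17), .ne 2 8 (.five 18 11 12 2 17), .ne 2 15 (.base (.corner 17 16 10 [9,
  2] [11, 18])), .ne 3 13 (.five 12 11 18 3 8), .ne 3 15 (.base (.corner 3 9 8 [13, 14] [12, 11,
  18])), .ne 4 5 (.five 13 8 12 4 19), .ne 4 20 (.five 13 8 12 4 19), .ne 4 21 (.five 12 8 13 14
  4), .ne 5 10 (.base (.corner 5 9 8 [12, 11] [13, 19])), .ne 5 11 (.five 13 8 12 5 19), .ne 6 9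
  (.base (.corner 6 8 13 [19, 20] [14, 21, 20])), .ne 6 12 (.base (.corner 6 8 9 [10, 11] [15,
  14, 21, 20])), .ne 7 10 (.base (.corner 7 9 8 [12, 11] [13, 19, 20, 21])), .ne 7 12 (.base
  (.corner 7 8 9 [10, 11] [15, 14, 21])), .ne 10 20 (.base (.corner 10 9 8 [12, 11] [13, 19])),
  .ne 11 20 (.five 12 8 13 19 11), .ne 11 21 (.five 12 8 13 14 11), .ne 13 17 (.five 13 8 12 11
  18), .ne 14 17 (.base (.corner 14 13 8 [9, 15] [9, 10, 16])), .ne 14 18 (.five 12 8 13 14 11),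
  .ne 16 19 (.base (.corner 16 10 9 [8, 13] [15, 14, 21, 20])), .ne 16 21 (.base (.corner 16 10 9
  [15, 14] [8, 13, 19, 20])), .ne 18 19 (.five 18 11 12 8 13), .ne 0 2 (.base (.corner 15 9 10
  [16, 17, 0] [11, 18, 17, 0])), .ne 0 3 (.base (.corner 0 18 11 [10, 9, 15] [12, 8, 9, 15])),
  .ne 1 19 (.base (.corner 1 13 14 [21, 20] [15, 9, 10, 16])), .ne 1 21 (.base (.corner 13 14 1
  [20, 19] [16, 10, 9, 8])), .ne 2 13 (.base (.corner 2 8 9 [15, 14] [10, 16, 17])), .ne 2 14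
  (.base (.corner 2 13 8 [9, 15] [9, 10, 16, 17])), .ne 3 14 (.base (.corner 3 13 8 [9, 15] [9,
  10, 11, 18])), .ne 3 19 (.base (.corner 3 18 11 [12, 8, 13] [10, 9, 8, 13])), .ne 4 6 (.base
  (.corner 4 12 8 [13, 19, 20] [13, 14, 21, 20])), .ne 4 7 (.base (.corner 4 12 8 [13, 14, 21]
  [9, 15, 14, 21])), .ne 5 16 (.base (.corner 5 10 11 [18, 17] [12, 8, 13, 19])), .ne 5 18 (.base
  (.corner 5 11 10 [16, 17] [9, 8, 13, 19])), .ne 6 10 (.base (.corner 6 9 8 [12, 11] [13, 19,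
  20])), .ne 6 11 (.base (.corner 6 10 9 [8, 12] [8, 13, 19, 20])), .ne 7 11 (.base (.corner 7 10
  9 [8, 12] [8, 13, 14, 21])), .ne 7 16 (.base (.corner 7 10 9 [15, 14, 21] [8, 13, 14, 21])),
  .ne 16 20 (.base (.corner 16 10 11 [18, 17] [12, 8, 13, 19])), .ne 17 19 (.base (.corner 17 13
  14 [21, 20] [15, 9, 10, 16])), .ne 17 21 (.base (.corner 17 14 13 [19, 20] [8, 9, 10, 16])),
  .ne 18 20 (.base (.corner 18 11 10 [16, 17] [9, 8, 13, 19])), .ne 18 21 (.base (.corner 18 11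
  10 [16, 17] [9, 8, 13, 14])), .ne 1 5 (.base (.corner 13 8 9 [10, 16, 1, 19] [15, 14])), .ne 1
  7 (.base (.corner 14 15 9 [10, 16, 1, 21] [8, 13])), .ne 1 20 (.base (.corner 1 19 13 [14, 21]
  [8, 9, 10, 16])), .ne 2 19 (.base (.corner 13 8 9 [10, 16, 17, 2] [15, 14])), .ne 2 21 (.base
  (.corner 14 15 9 [10, 16, 17, 2] [8, 13])), .ne 3 5 (.base (.corner 11 12 8 [13, 19, 3, 18] [9,
  10])), .ne 3 20 (.base (.corner 3 19 13 [14, 21] [8, 12, 11, 18])), .ne 3 21 (.base (.corner 13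
  14 3 [20, 19] [18, 11, 12, 8])), .ne 5 17 (.base (.corner 5 16 10 [11, 18] [9, 8, 13, 19])),
  .ne 6 16 (.base (.corner 6 10 9 [8, 13, 19, 20] [15, 14, 21, 20])), .ne 6 18 (.base (.corner 20
  19 13 [8, 12, 11, 6] [14, 21])), .ne 7 17 (.base (.corner 7 16 10 [11, 18] [9, 15, 14, 21])),
  .ne 7 18 (.base (.corner 7 11 10 [16, 17] [9, 15, 14, 21])), .ne 17 20 (.base (.corner 17 16 10
  [11, 18] [9, 8, 13, 19])), .na 10 19 (.base (.corner 10 9 8 [12, 11] [13, 19])), .na 9 20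
  (.base (.corner 9 8 13 [19, 20] [14, 21, 20])), .na 8 1 (.base (.corner 8 1 16 [10, 9] [10, 11,
  12])), .na 13 16 (.base (.corner 13 16 10 [9, 8] [9, 15, 14])), .ne 1 6 (.long 10 9 8 [13, 19,
  20, 1, 16] [12, 11]), .na 17 8 (.five 12 11 18 17 8), .na 9 2 (.base (.corner 9 8 12 [11, 10]
  [11, 18, 17, 2])), .ne 2 5 (.long 17 16 10 [9, 8, 13, 19, 2] [11, 18]), .na 17 15 (.base
  (.corner 17 16 10 [9, 15] [11, 18])), .na 16 14 (.base (.corner 16 10 9 [15, 14] [8, 13, 14])),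
  .na 10 21 (.base (.corner 10 9 8 [12, 11] [13, 19, 20, 21])), .ne 2 7 (.long 17 16 10 [9, 15,
  14, 21, 2] [11, 18]), .ne 2 20 (.long 17 16 10 [9, 8, 13, 19, 2] [11, 18]), .na 11 19 (.five 13
  8 12 11 19), .na 12 20 (.five 12 8 13 19 20), .na 8 3 (.five 18 11 12 8 3), .na 13 18 (.five 13
  8 12 11 18), .ne 3 6 (.long 11 12 8 [13, 19, 20, 3, 18] [9, 10]), .na 18 15 (.base (.corner 18
  17 16 [10, 11] [10, 9, 15])), .na 11 14 (.five 12 8 13 14 11), .na 9 3 (.base (.corner 9 8 12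
  [11, 10] [11, 18, 3])), .ne 3 7 (.long 18 11 10 [9, 15, 14, 21, 3] [16, 17]), .ne 6 17 (.long 6
  16 10 [9, 8, 13, 19, 20] [11, 18]), .cn 0 4 22 (.base (.corner 12 8 9 [15, 0, 22, 4] [10,
  11])), .cn 1 3 22 (.base (.corner 22 1 16 [17, 18, 3] [10, 11, 18, 3])), .cn 5 7 22 (.base
  (.corner 22 5 19 [20, 21, 7] [13, 14, 21, 7])), .na 3 4 (.five 18 11 12 4 3)]

theorem fin_Z4c : finL Z4 [] [(2, 6), (0, 1)] comZ4
    [(3, 4)] [(12, 11, 18), (13, 8, 12)] stZ4c = true := by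
  decide +kernel

/-- The certificate if the faces O2 and L have not length five. -/
def stZ4d : List StepL :=
  [.ne 0 8 (.base (.tri 0 15 9)), .ne 0 10 (.base (.tri 0 9 15)), .ne 0 13 (.base (.tri 14 0
  15)), .ne 0 21 (.base (.tri 14 0 15)), .ne 1 2 (.base (.tri 1 17 16)), .ne 1 9 (.base (.tri 10
  1 16)), .ne 1 11 (.base (.tri 10 1 16)), .ne 1 18 (.base (.tri 16 1 17)), .ne 2 3 (.base (.tri
  2 17 18)), .ne 2 10 (.base (.tri 2 17 16)), .ne 2 11 (.base (.tri 2 17 18)), .ne 3 10 (.base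
  (.tri 11 3 18)), .ne 3 12 (.base (.tri 11 3 18)), .ne 3 16 (.base (.tri 17 3 18)), .ne 4 9
  (.base (.tri 8 4 12)), .ne 4 10 (.base (.tri 11 4 12)), .ne 4 13 (.base (.tri 8 4 12)), .ne 4
  18 (.base (.tri 11 4 12)), .ne 5 6 (.base (.tri 19 5 20)), .ne 5 8 (.base (.tri 13 5 19)), .ne
  5 14 (.base (.tri 13 5 19)), .ne 5 21 (.base (.tri 19 5 20)), .ne 6 7 (.base (.tri 20 6 21)),
  .ne 6 13 (.base (.tri 6 19 20)), .ne 6 14 (.base (.tri 20 6 21)), .ne 7 13 (.base (.tri 14 7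
  21)), .ne 7 15 (.base (.tri 7 14 21)), .ne 7 19 (.base (.tri 20 7 21)), .ne 8 16 (.base (.tri 9
  8 10)), .ne 8 18 (.base (.tri 8 12 11)), .ne 8 20 (.base (.tri 13 8 19)), .ne 8 21 (.base (.tri
  13 8 14)), .ne 9 17 (.base (.tri 10 9 16)), .ne 9 18 (.base (.tri 10 9 11)), .ne 9 19 (.base
  (.tri 9 8 13)), .ne 9 21 (.base (.tri 14 9 15)), .ne 10 13 (.base (.tri 9 8 10)), .ne 10 14
  (.base (.tri 10 9 15)), .ne 11 13 (.base (.tri 8 12 11)), .ne 11 15 (.base (.tri 10 9 11)), .ne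
  12 14 (.base (.tri 8 12 13)), .ne 12 15 (.base (.tri 8 12 9)), .ne 12 16 (.base (.tri 10 12
  11)), .ne 12 17 (.base (.tri 11 12 18)), .ne 12 19 (.base (.tri 8 12 13)), .ne 15 16 (.base
  (.tri 10 9 15)), .ne 15 19 (.base (.tri 14 13 15)), .ne 15 20 (.base (.tri 14 15 21)), .ne 0 7
  (.four 0 21 14 15), .ne 0 11 (.four 0 10 9 15), .ne 0 12 (.four 0 8 9 15), .ne 0 16 (.four 0 10
  9 15), .ne 0 19 (.four 0 13 14 15), .ne 0 20 (.four 0 21 14 15), .ne 1 3 (.four 1 16 17 18),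
  .ne 1 8 (.four 1 16 10 9), .ne 1 12 (.four 1 16 10 11), .ne 1 15 (.four 1 9 10 16), .ne 2 9
  (.four 2 17 16 10), .ne 2 12 (.four 2 17 18 11), .ne 3 4 (.four 3 18 11 12), .ne 3 8 (.four 3
  18 11 12), .ne 3 9 (.four 3 10 11 18), .ne 4 14 (.four 4 13 8 12), .ne 4 15 (.four 4 9 8 12),
  .ne 4 16 (.four 4 10 11 12), .ne 4 17 (.four 4 18 11 12), .ne 4 19 (.four 4 13 8 12), .ne 5 7
  (.four 5 19 20 21), .ne 5 9 (.four 5 8 13 19), .ne 5 12 (.four 5 8 13 19), .ne 5 15 (.four 5 19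
  13 14), .ne 6 8 (.four 6 13 19 20), .ne 6 15 (.four 6 20 21 14), .ne 7 8 (.four 7 21 14 13),
  .ne 7 9 (.four 7 21 14 15), .ne 8 17 (.four 8 9 10 16), .ne 9 20 (.four 9 8 13 19), .ne 10 19
  (.four 10 9 8 13), .ne 10 21 (.four 10 9 15 14), .ne 11 14 (.four 11 10 9 15), .ne 11 19 (.four
  11 12 8 13), .ne 12 20 (.four 12 8 13 19), .ne 12 21 (.four 12 8 13 14), .ne 13 16 (.four 13 8
  9 10), .ne 13 18 (.four 13 8 12 11), .ne 14 16 (.four 14 10 9 15), .ne 15 17 (.four 15 9 10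
  16), .ne 15 18 (.four 15 9 10 11), .ne 0 4 (.base (.corner 0 12 8 [9, 15] [13, 14, 15])), .ne 0
  5 (.base (.corner 0 19 13 [14, 15] [8, 9, 15])), .ne 0 6 (.five 21 14 15 0 20), .ne 0 17 (.base
  (.corner 0 16 10 [9, 15] [11, 18])), .ne 0 18 (.base (.corner 0 17 16 [10, 11] [10, 9, 15])),
  .ne 1 4 (.base (.corner 1 16 10 [11, 12] [9, 8, 12])), .ne 1 13 (.base (.corner 1 8 9 [10, 16]
  [15, 14])), .ne 1 14 (.base (.corner 1 16 10 [9, 15] [9, 8, 13])), .ne 2 4 (.five 18 11 12 2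
  17), .ne 2 8 (.five 18 11 12 2 17), .ne 2 15 (.base (.corner 17 16 10 [9, 2] [11, 18])), .ne 3
  13 (.five 12 11 18 3 8), .ne 3 15 (.base (.corner 3 9 8 [13, 14] [12, 11, 18])), .ne 4 20
  (.base (.corner 4 19 13 [8, 12] [14, 21])), .ne 4 21 (.base (.corner 4 12 8 [13, 14] [9, 15,
  14])), .ne 5 10 (.base (.corner 5 9 8 [12, 11] [13, 19])), .ne 5 11 (.base (.corner 5 10 9 [8,
  12] [8, 13, 19])), .ne 6 9 (.five 21 14 15 6 20), .ne 6 12 (.base (.corner 6 8 9 [10, 11] [15,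
  14, 21, 20])), .ne 7 10 (.five 15 14 21 7 9), .ne 7 12 (.base (.corner 7 8 9 [10, 11] [15, 14,
  21])), .ne 10 20 (.five 15 14 21 10 9), .ne 11 20 (.base (.corner 11 10 9 [8, 12] [8, 13,
  19])), .ne 11 21 (.base (.corner 11 10 9 [8, 12] [8, 13, 19, 20])), .ne 13 17 (.five 12 11 18
  13 8), .ne 14 17 (.base (.corner 14 13 8 [9, 15] [9, 10, 16])), .ne 14 18 (.base (.corner 14 11
  10 [16, 17] [9, 8, 13])), .ne 16 19 (.base (.corner 16 10 9 [8, 13] [15, 14, 21, 20])), .ne 16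
  21 (.base (.corner 16 10 9 [15, 14] [8, 13, 19, 20])), .ne 18 19 (.five 18 11 12 8 13), .ne 0 2
  (.base (.corner 15 9 10 [16, 17, 0] [11, 18, 17, 0])), .ne 0 3 (.base (.corner 0 18 11 [10, 9,
  15] [12, 8, 9, 15])), .ne 1 19 (.base (.corner 1 13 14 [21, 20] [15, 9, 10, 16])), .ne 1 21
  (.base (.corner 13 14 1 [20, 19] [16, 10, 9, 8])), .ne 2 13 (.base (.corner 2 8 9 [15, 14] [10,
  16, 17])), .ne 2 14 (.base (.corner 2 13 8 [9, 15] [9, 10, 16, 17])), .ne 3 14 (.base (.corner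
  3 13 8 [9, 15] [9, 10, 11, 18])), .ne 3 19 (.base (.corner 3 18 11 [12, 8, 13] [10, 9, 8,
  13])), .ne 4 6 (.base (.corner 4 12 8 [13, 19, 20] [13, 14, 21, 20])), .ne 4 7 (.base (.corner
  4 12 8 [13, 14, 21] [9, 15, 14, 21])), .ne 5 16 (.base (.corner 5 10 11 [18, 17] [12, 8, 13,
  19])), .ne 5 18 (.base (.corner 5 11 10 [16, 17] [9, 8, 13, 19])), .ne 6 10 (.base (.corner 6 9
  8 [12, 11] [13, 19, 20])), .ne 6 11 (.base (.corner 6 10 9 [8, 12] [8, 13, 19, 20])), .ne 7 11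
  (.base (.corner 7 10 9 [8, 12] [8, 13, 14, 21])), .ne 7 16 (.base (.corner 7 10 9 [15, 14, 21]
  [8, 13, 14, 21])), .ne 16 20 (.base (.corner 16 10 11 [18, 17] [12, 8, 13, 19])), .ne 17 19
  (.base (.corner 17 13 14 [21, 20] [15, 9, 10, 16])), .ne 17 21 (.base (.corner 17 14 13 [19,
  20] [8, 9, 10, 16])), .ne 18 20 (.base (.corner 18 11 10 [16, 17] [9, 8, 13, 19])), .ne 18 21
  (.base (.corner 18 11 10 [16, 17] [9, 8, 13, 14])), .ne 1 5 (.base (.corner 13 8 9 [10, 16, 1,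
  19] [15, 14])), .ne 1 7 (.base (.corner 14 15 9 [10, 16, 1, 21] [8, 13])), .ne 1 20 (.base
  (.corner 1 19 13 [14, 21] [8, 9, 10, 16])), .ne 2 19 (.base (.corner 13 8 9 [10, 16, 17, 2]
  [15, 14])), .ne 2 21 (.base (.corner 14 15 9 [10, 16, 17, 2] [8, 13])), .ne 3 5 (.base (.corner
  11 12 8 [13, 19, 3, 18] [9, 10])), .ne 3 20 (.base (.corner 3 19 13 [14, 21] [8, 12, 11, 18])),
  .ne 3 21 (.base (.corner 13 14 3 [20, 19] [18, 11, 12, 8])), .ne 5 17 (.base (.corner 5 16 10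
  [11, 18] [9, 8, 13, 19])), .ne 6 16 (.base (.corner 6 10 9 [8, 13, 19, 20] [15, 14, 21, 20])),
  .ne 6 18 (.base (.corner 20 19 13 [8, 12, 11, 6] [14, 21])), .ne 7 17 (.base (.corner 7 16 10
  [11, 18] [9, 15, 14, 21])), .ne 7 18 (.base (.corner 7 11 10 [16, 17] [9, 15, 14, 21])), .ne 17
  20 (.base (.corner 17 16 10 [11, 18] [9, 8, 13, 19])), .na 10 19 (.base (.corner 10 9 8 [12,
  11] [13, 19])), .na 9 20 (.five 21 14 15 9 20), .na 8 1 (.base (.corner 8 1 16 [10, 9] [10, 11,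
  12])), .na 13 16 (.base (.corner 13 16 10 [9, 8] [9, 15, 14])), .ne 1 6 (.long 10 9 8 [13, 19,
  20, 1, 16] [12, 11]), .na 17 8 (.five 12 11 18 17 8), .na 9 2 (.base (.corner 9 8 12 [11, 10]
  [11, 18, 17, 2])), .ne 2 5 (.long 17 16 10 [9, 8, 13, 19, 2] [11, 18]), .na 17 15 (.base
  (.corner 17 16 10 [9, 15] [11, 18])), .na 16 14 (.base (.corner 16 10 9 [15, 14] [8, 13, 14])),
  .na 10 21 (.five 15 14 21 10 9), .ne 2 7 (.long 17 16 10 [9, 15, 14, 21, 2] [11, 18]), .ne 2 20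
  (.long 17 16 10 [9, 8, 13, 19, 2] [11, 18]), .na 11 19 (.base (.corner 11 10 9 [8, 12] [8, 13,
  19])), .na 12 20 (.base (.corner 12 8 9 [10, 11] [15, 14, 21, 20])), .na 8 3 (.five 18 11 12 8
  3), .na 13 18 (.five 12 11 18 13 8), .ne 3 6 (.long 11 12 8 [13, 19, 20, 3, 18] [9, 10]), .na
  18 15 (.base (.corner 18 17 16 [10, 11] [10, 9, 15])), .na 11 14 (.base (.corner 11 10 9 [8,
  12] [8, 13, 14])), .na 9 3 (.base (.corner 9 8 12 [11, 10] [11, 18, 3])), .ne 3 7 (.long 18 11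
  10 [9, 15, 14, 21, 3] [16, 17]), .ne 6 17 (.long 6 16 10 [9, 8, 13, 19, 20] [11, 18]), .cn 0 4
  22 (.base (.corner 12 8 9 [15, 0, 22, 4] [10, 11])), .cn 1 3 22 (.base (.corner 22 1 16 [17,
  18, 3] [10, 11, 18, 3])), .cn 5 7 22 (.base (.corner 22 5 19 [20, 21, 7] [13, 14, 21, 7])), .na
  3 4 (.five 18 11 12 4 3), .na 0 7 (.five 15 14 21 7 0)]

theorem fin_Z4d : finL Z4 [] [(2, 6), (0, 1), (4, 5)] comZ4
    [(3, 4), (0, 7)] [(12, 11, 18), (15, 14, 21)] stZ4d = true := by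
  decide +kernel

end Pool.Agent.U2Geo
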