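import Pool.Agent.Work.MP_392c8e_co_uni.LiftSeq

/-!
# Lifting colourings: clusters with a bounded number of heights

The same as `round`, `lift`, `lift_local` and `lift_seq`, but the clusters may be arbitrarily
large; only the number of different heights in every cluster is bounded.
-/

namespace Pool.Agent.Uni392

open Finset
open Pool.Agent.T1Red (Str Strict)

/-- **Rounding.**  A strict colouring with integral heights outside clusters which are not
adjacent to each other and have at most `s` different heights each gives a strict colouring of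
bounded height. -/
theorem round_lev {V I : Type*} [Fintype V] {G : SimpleGraph V} (cl : V → Option I) (s M : ℕ)
    (hadj : ∀ u v, G.Adj u v → ∀ i j, cl u = some i → cl v = some j → i = j)
    {c : V → ZMod 3} {τ : V → ℝ} (h : Strict G c τ)
    (hs : ∀ i, (τ '' {v | cl v = some i}).ncard ≤ s) (h0 : V → ℕ)
    (hout : ∀ v, cl v = none → τ v = h0 v) (hM : ∀ v, h0 v < M) :
    StrictN G ((s + 1) * (M + 1)) := by
  classical
  let P : V → Finset ℝ := fun v =>
    (univ.filter fun u => cl u = cl v ∧ fl M (τ u) = fl M (τ v) ∧ τ u ≤ τ v).image τ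
  have hmem : ∀ v (t : ℝ), t ∈ P v ↔
      ∃ u, (cl u = cl v ∧ fl M (τ u) = fl M (τ v) ∧ τ u ≤ τ v) ∧ τ u = t := by
    intro v t
    simp [P]
  have hP : ∀ v, cl v ≠ none → 1 ≤ (P v).card ∧ (P v).card ≤ s := by
    intro v hv
    refine ⟨Finset.card_pos.2 ⟨τ v, (hmem v _).2 ⟨v, ⟨rfl, rfl, le_rfl⟩, rfl⟩⟩, ?_⟩
    obtain ⟨i, hi⟩ := Option.ne_none_iff_exists'.1 hv
    refine le_trans ?_ (hs i)
    rw [← Set.ncard_coe_finset]
    refine Set.ncard_le_ncard ?_ (Set.toFinite _)
    intro t ht
    obtain ⟨u, hu, rfl⟩ := (hmem v t).1 ht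
    exact ⟨u, hu.1.trans hi, rfl⟩
  let H : V → ℕ := fun v =>
    if cl v = none then (s + 1) * (h0 v + 1) else (s + 1) * fl M (τ v) + (P v).card
  -- the main comparison
  have key : ∀ u v, G.Adj u v → τ u < τ v → H u < H v := by
    intro u v huv hlt
    by_cases hu : cl u = none
    · by_cases hv : cl v = none
      · have h1 : (h0 u : ℝ) < h0 v := by
          rw [← hout u hu, ← hout v hv]
          exact hlt
        have h2 : h0 u < h0 v := by exact_mod_cast h1
        show (if cl u = none then _ else _) < (if cl v = none then _ else _)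
        rw [if_pos hu, if_pos hv]
        exact Nat.mul_lt_mul_of_pos_left (by omega) (Nat.succ_pos s)
      · obtain ⟨h3, h4⟩ := hP v hv
        have h5 : h0 u < fl M (τ v) := by
          apply lt_fl_of_lt _ (hM u)
          rw [← hout u hu]
          exact hlt
        show (if cl u = none then _ else _) < (if cl v = none then _ else _)
        rw [if_pos hu, if_neg hv]
        have h6 : (s + 1) * (h0 u + 1) ≤ (s + 1) * fl M (τ v) := Nat.mul_le_mul_left _ h5
        omega
    · obtain ⟨h3, h4⟩ := hP u hu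
      by_cases hv : cl v = none
      · have h5 : fl M (τ u) ≤ h0 v := by
          apply fl_le_of_lt
          rw [← hout v hv]
          exact hlt
        show (if cl u = none then _ else _) < (if cl v = none then _ else _)
        rw [if_neg hu, if_pos hv, mul_add]
        have h6 : (s + 1) * fl M (τ u) ≤ (s + 1) * h0 v := Nat.mul_le_mul_left _ h5
        omega
      · obtain ⟨h3', h4'⟩ := hP v hv
        obtain ⟨i, hi⟩ := Option.ne_none_iff_exists'.1 hu
        obtain ⟨j, hj⟩ := Option.ne_none_iff_exists'.1 hv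
        have hij := hadj u v huv i j hi hj
        subst hij
        show (if cl u = none then _ else _) < (if cl v = none then _ else _)
        rw [if_neg hu, if_neg hv]
        rcases (fl_mono (M := M) hlt.le).lt_or_eq with h5 | h5
        · have h6 : (s + 1) * (fl M (τ u) + 1) ≤ (s + 1) * fl M (τ v) :=
            Nat.mul_le_mul_left _ h5
          rw [mul_add] at h6
          omega
        · have h6 : (P u).card < (P v).card := by
            refine Finset.card_lt_card ⟨fun t ht => ?_, fun hsub => ?_⟩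
            · obtain ⟨x, hx, hxt⟩ := (hmem u t).1 ht
              exact (hmem v t).2 ⟨x, ⟨hx.1.trans (hi.trans hj.symm), hx.2.1.trans h5,
                hx.2.2.trans hlt.le⟩, hxt⟩
            · have hv' : τ v ∈ P u := hsub ((hmem v _).2 ⟨v, ⟨rfl, rfl, le_rfl⟩, rfl⟩)
              obtain ⟨x, hx, hxt⟩ := (hmem u _).1 hv'
              rw [← hxt] at hlt
              exact absurd hx.2.2 (not_le.2 hlt)
          rw [h5]
          omega
  refine ⟨c, H, fun v => ?_, fun u v huv => ?_⟩
  · by_cases hv : cl v = none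
    · show (if cl v = none then _ else _) < _
      rw [if_pos hv]
      exact Nat.mul_lt_mul_of_pos_left (by have := hM v; omega) (Nat.succ_pos s)
    · obtain ⟨h3, h4⟩ := hP v hv
      show (if cl v = none then _ else _) < _
      rw [if_neg hv, mul_add]
      have h6 : (s + 1) * fl M (τ v) ≤ (s + 1) * M := Nat.mul_le_mul_left _ (fl_le _)
      omega
  · rcases h u v huv with ⟨h1, h2⟩ | ⟨h1, h2⟩
    · exact Or.inl ⟨h1, key u v huv h2⟩
    · exact Or.inr ⟨h1, key v u huv.symm h2⟩

/-- **The lift.**  Every cluster of the extension has at most `s` different heights. -/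
theorem lift_lev {V I : Type*} [Fintype V] {G G' : SimpleGraph V} (cl : V → Option I)
    (Lab : I → Set V) (s R n : ℕ)
    (hadj : ∀ u v, G.Adj u v → ∀ i j, cl u = some i → cl v = some j → i = j)
    (ρ : V → ℕ) (hρ : ∀ v, ρ v < R) (hinj : ∀ i, Set.InjOn ρ (Lab i))
    (hext : ∀ (c : V → ZMod 3) (τ : V → ℝ), Strict G' c τ → (∀ i, Set.InjOn τ (Lab i)) →
      ∃ (c' : V → ZMod 3) (τ' : V → ℝ), Strict G c' τ' ∧ (∀ v, cl v = none → τ' v = τ v) ∧
        ∀ i, (τ' '' {v | cl v = some i}).ncard ≤ s)
    (h : StrictN G' n) : StrictN G ((s + 1) * (R * n + 1)) := by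
  obtain ⟨c, τ, h1, h2, h3⟩ := h.spread ρ hρ
  obtain ⟨c', τ', h4, h5, h6⟩ := hext c (fun v => (τ v : ℝ)) (fun u v huv => by
    rcases h2 u v huv with ⟨h6, h7⟩ | ⟨h6, h7⟩
    · exact Or.inl ⟨h6, Nat.cast_lt.2 h7⟩
    · exact Or.inr ⟨h6, Nat.cast_lt.2 h7⟩) (fun i u hu v hv huv =>
      hinj i hu hv (h3 u v (Nat.cast_injective huv)))
  exact round_lev cl s (R * n) hadj h4 h6 τ h5 h1

/-- The lift with local extensions: every cluster is treated separately. -/
theorem lift_local_lev {V I : Type*} [Fintype V] {G G' : SimpleGraph V} (cl : V → Option I)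
    (Lab : I → Set V) (s R n : ℕ)
    (hadj : ∀ u v, G.Adj u v → ∀ i j, cl u = some i → cl v = some j → i = j)
    (hout : ∀ u v, G.Adj u v → cl u = none → cl v = none → G'.Adj u v)
    (ρ : V → ℕ) (hρ : ∀ v, ρ v < R) (hinj : ∀ i, Set.InjOn ρ (Lab i))
    (hext : ∀ (i : I) (c : V → ZMod 3) (τ : V → ℝ), Strict G' c τ → Set.InjOn τ (Lab i) →
      ∃ (c' : V → ZMod 3) (τ' : V → ℝ), (∀ v, cl v = none → c' v = c v ∧ τ' v = τ v) ∧
        (τ' '' {v | cl v = some i}).ncard ≤ s ∧
        ∀ u v, G.Adj u v → cl u = some i → Str c' τ' u v)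
    (h : StrictN G' n) : StrictN G ((s + 1) * (R * n + 1)) := by
  refine lift_lev cl Lab s R n hadj ρ hρ hinj (fun c τ hst hin => ?_) h
  choose c1 τ1 h1 hs h2 using fun i => hext i c τ hst (hin i)
  refine ⟨fun v => (cl v).elim (c v) fun i => c1 i v, fun v => (cl v).elim (τ v) fun i => τ1 i v,
    ?_, fun v hv => by
      show (cl v).elim (τ v) _ = τ v
      rw [hv]
      rfl, fun i => ?_⟩
  · have hin : ∀ u v, G.Adj u v → cl u ≠ none → Str (fun v => (cl v).elim (c v) fun i => c1 i v)
        (fun v => (cl v).elim (τ v) fun i => τ1 i v) u v := by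
      intro u v huv hu
      obtain ⟨i, hi⟩ := Option.ne_none_iff_exists'.1 hu
      refine (h2 i u v huv hi).of_eq ?_ ?_ ?_ ?_
      · show (cl u).elim (c u) _ = _
        rw [hi]
        rfl
      · show (cl u).elim (τ u) _ = _
        rw [hi]
        rfl
      · show (cl v).elim (c v) _ = _
        cases hv : cl v with
        | none => exact (h1 i v hv).1.symm
        | some j =>
          have := hadj u v huv i j hi hv
          subst this
          rfl
      · show (cl v).elim (τ v) _ = _
        cases hv : cl v with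
        | none => exact (h1 i v hv).2.symm
        | some j =>
          have := hadj u v huv i j hi hv
          subst this
          rfl
    intro u v huv
    by_cases hu : cl u = none
    · by_cases hv : cl v = none
      · refine (hst u v (hout u v huv hu hv)).of_eq ?_ ?_ ?_ ?_
        · show (cl u).elim (c u) _ = _
          rw [hu]
          rfl
        · show (cl u).elim (τ u) _ = _
          rw [hu]
          rfl
        · show (cl v).elim (c v) _ = _
          rw [hv]
          rfl
        · show (cl v).elim (τ v) _ = _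
          rw [hv]
          rfl
      · exact (hin v u huv.symm hv).symm
    · exact hin u v huv hu
  · refine le_trans (le_of_eq ?_) (hs i)
    congr 1
    refine Set.image_congr fun v hv => ?_
    have hv' : cl v = some i := hv
    show (cl v).elim (τ v) _ = _
    rw [hv']
    rfl

/-- The steps of a sequence of replacements, with the number of heights. -/
theorem ext_seq_lev {V : Type*} [Finite V] (Gs : ℕ → SimpleGraph V) (In Lab : ℕ → Set V)
    (k s : ℕ) (hdisj : ∀ i j, i < k → j < k → i ≠ j → Disjoint (In i) (In j))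
    (hlab : ∀ i j, i < k → j < k → i ≠ j → Disjoint (Lab j) (In i))
    (hstep : ∀ j, j < k → ∀ (c : V → ZMod 3) (τ : V → ℝ), Strict (Gs (j + 1)) c τ →
      Set.InjOn τ (Lab j) → ∃ (c' : V → ZMod 3) (τ' : V → ℝ), Strict (Gs j) c' τ' ∧
        (∀ v, v ∉ In j → c' v = c v ∧ τ' v = τ v) ∧ (τ' '' In j).ncard ≤ s)
    (c : V → ZMod 3) (τ : V → ℝ) (hst : Strict (Gs k) c τ)
    (hin : ∀ j, j < k → Set.InjOn τ (Lab j)) :
    ∃ (c' : V → ZMod 3) (τ' : V → ℝ), Strict (Gs 0) c' τ' ∧
      (∀ v, (∀ j, j < k → v ∉ In j) → c' v = c v ∧ τ' v = τ v) ∧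
      ∀ j, j < k → (τ' '' In j).ncard ≤ s := by
  have key : ∀ m, m ≤ k → ∃ (c' : V → ZMod 3) (τ' : V → ℝ), Strict (Gs (k - m)) c' τ' ∧
      (∀ v, (∀ j, k - m ≤ j → j < k → v ∉ In j) → c' v = c v ∧ τ' v = τ v) ∧
      ∀ j, k - m ≤ j → j < k → (τ' '' In j).ncard ≤ s := by
    intro m
    induction m with
    | zero => exact fun _ => ⟨c, τ, hst, fun _ _ => ⟨rfl, rfl⟩, fun j hj hjk => by omega⟩
    | succ m ih =>
      intro hm
      obtain ⟨c1, τ1, h1, h2, h2'⟩ := ih (by omega)
      have h3 : k - m = (k - (m + 1)) + 1 := by omega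
      rw [h3] at h1
      obtain ⟨c2, τ2, h4, h5, h5'⟩ := hstep (k - (m + 1)) (by omega) c1 τ1 h1 (by
        have h6 : ∀ v ∈ Lab (k - (m + 1)), τ1 v = τ v := by
          intro v hv
          refine (h2 v fun j hj hjk hvj => ?_).2
          exact Set.disjoint_left.1 (hlab j (k - (m + 1)) hjk (by omega) (by omega)) hv hvj
        intro u hu v hv huv
        rw [h6 u hu, h6 v hv] at huv
        exact hin _ (by omega) hu hv huv)
      refine ⟨c2, τ2, h4, fun v hv => ?_, fun j hj hjk => ?_⟩
      · obtain ⟨h7, h8⟩ := h5 v (hv _ le_rfl (by omega))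
        obtain ⟨h9, h10⟩ := h2 v fun j hj hjk => hv j (by omega) hjk
        exact ⟨h7.trans h9, h8.trans h10⟩
      · rcases Nat.eq_or_lt_of_le hj with h6 | h6
        · rw [← h6]
          exact h5'
        · refine le_trans (le_of_eq ?_) (h2' j (by omega) hjk)
          congr 1
          refine Set.image_congr fun v hv => ?_
          exact (h5 v fun h7 => Set.disjoint_left.1
            (hdisj j (k - (m + 1)) hjk (by omega) (by omega)) hv h7).2
  obtain ⟨c', τ', h1, h2, h3⟩ := key k le_rfl
  rw [Nat.sub_self] at h1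
  exact ⟨c', τ', h1, fun v hv => h2 v fun j _ hjk => hv j hjk,
    fun j hj => h3 j (by omega) hj⟩

/-- **The lift for a sequence of replacements**, with a bounded number of heights in every
interior. -/
theorem lift_seq_lev {V : Type*} [Fintype V] (Gs : ℕ → SimpleGraph V) (In Lab : ℕ → Set V)
    (k s R n : ℕ)
    (hdisj : ∀ i j, i < k → j < k → i ≠ j → Disjoint (In i) (In j))
    (hadj : ∀ u v, (Gs 0).Adj u v → ∀ i j, i < k → j < k → u ∈ In i → v ∈ In j → i = j)
    (hlab : ∀ i j, i < k → j < k → i ≠ j → Disjoint (Lab j) (In i))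
    (hR : ∀ v, {u | u ≠ v ∧ ∃ i, i < k ∧ u ∈ Lab i ∧ v ∈ Lab i}.ncard < R)
    (hstep : ∀ j, j < k → ∀ (c : V → ZMod 3) (τ : V → ℝ), Strict (Gs (j + 1)) c τ →
      Set.InjOn τ (Lab j) → ∃ (c' : V → ZMod 3) (τ' : V → ℝ), Strict (Gs j) c' τ' ∧
        (∀ v, v ∉ In j → c' v = c v ∧ τ' v = τ v) ∧ (τ' '' In j).ncard ≤ s)
    (h : StrictN (Gs k) n) : StrictN (Gs 0) ((s + 1) * (R * n + 1)) := by
  classical
  -- the clusters
  let cl : V → Option (Fin k) := fun v =>
    if hv : ∃ j : Fin k, v ∈ In j then some hv.choose else none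
  have hcl : ∀ v (i : Fin k), cl v = some i ↔ v ∈ In i := by
    intro v i
    constructor
    · intro h1
      by_cases hv : ∃ j : Fin k, v ∈ In j
      · have h2 : cl v = some hv.choose := dif_pos hv
        rw [h2] at h1
        rw [← Option.some.inj h1]
        exact hv.choose_spec
      · have h2 : cl v = none := dif_neg hv
        rw [h2] at h1
        exact absurd h1 (by simp)
    · intro h1
      have hv : ∃ j : Fin k, v ∈ In j := ⟨i, h1⟩
      have h2 : cl v = some hv.choose := dif_pos hv
      rw [h2]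
      by_contra hne
      have h3 : (hv.choose : ℕ) ≠ (i : ℕ) := fun h4 => hne (congrArg some (Fin.ext h4))
      exact Set.disjoint_left.1 (hdisj _ _ hv.choose.2 i.2 h3) hv.choose_spec h1
  have hcl0 : ∀ v, cl v = none → ∀ j, j < k → v ∉ In j := by
    intro v hv j hj hvj
    have := (hcl v ⟨j, hj⟩).2 hvj
    rw [hv] at this
    exact absurd this (by simp)
  obtain ⟨ρ, hρ, hinj⟩ := exists_rho (fun i : Fin k => Lab i) R (by
    intro v
    refine lt_of_le_of_lt (Set.ncard_le_ncard ?_ (Set.toFinite _)) (hR v)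
    rintro u ⟨hu, i, h1, h2⟩
    exact ⟨hu, i, i.2, h1, h2⟩)
  refine lift_lev (G := Gs 0) (G' := Gs k) cl (fun i : Fin k => Lab i) s R n ?_ ρ hρ hinj ?_ h
  · intro u v huv i j hi hj
    exact Fin.ext (hadj u v huv i j i.2 j.2 ((hcl u i).1 hi) ((hcl v j).1 hj))
  · intro c τ hst hin
    obtain ⟨c', τ', h1, h2, h3⟩ := ext_seq_lev Gs In Lab k s hdisj hlab hstep c τ hst
      fun j hj => hin ⟨j, hj⟩
    refine ⟨c', τ', h1, fun v hv => (h2 v (hcl0 v hv)).2, fun i => ?_⟩
    have : {v | cl v = some i} = In i := by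
      ext v
      exact hcl v i
    rw [this]
    exact h3 i i.2

end Pool.Agent.Uni392
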