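import Mathlib
import Pool.Agent.Work.MP_392c8e_co_uni.LiftLev
import Pool.Agent.Work.MP_392c8e_co_uni.ColN

/-!
# The lift with one isometry for every component

Many clusters, each of which separates the graph, are filled at the same time.  The cluster
`i` only has to accept the colours of its outer neighbours after a rotation and a reflection of
everything in the set `B i`.  The clusters are squeezed between two consecutive heights.  Their
size is arbitrary, only the number of their heights is bounded.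
-/

namespace Pool.Agent.LiftIso

open Finset
open Pool.Agent.T1Red (Str Strict)
open Pool.Agent.Red (side)
open Pool.Agent.CutN (Jn IsCol)
open Pool.Agent.Uni392 (StrictN round_lev)

set_option linter.unusedSectionVars false

/-- The colour of the position `y`, seen from the gap between `g` and `g + 1`. -/
def cls (n g y : ℤ) : ZMod 3 := (((y - g - 1) / n : ℤ) : ZMod 3)

theorem cls_add (n g y t : ℤ) : cls n (g + t) (y + t) = cls n g y := by
  unfold cls
  congr 2
  ring

theorem cls_neg {n : ℤ} (hn : 0 < n) (g y : ℤ) : cls n (-g - 1) (-y) = - cls n g y - 1 := by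
  unfold cls
  have h : (-y - (-g - 1) - 1) / n = -((y - g - 1) / n) - 1 := by
    have e1 := Int.emod_add_mul_ediv (y - g - 1) n
    have e2 := Int.emod_nonneg (y - g - 1) hn.ne'
    have e3 := Int.emod_lt_of_pos (y - g - 1) hn
    set q := (y - g - 1) / n with hq
    set r := (y - g - 1) % n with hr
    have : -y - (-g - 1) - 1 = (n - 1 - r) + n * (-q - 1) := by linarith
    rw [this, Int.add_mul_ediv_left _ _ hn.ne', Int.ediv_eq_zero_of_lt (by linarith) (by linarith)]
    ring
  rw [h]
  push_cast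
  ring

variable {V : Type*} {G : SimpleGraph V}

/-- The set `K` can be coloured, with at most `s` heights, in a gap of the positions `x` of its
outer neighbours. -/
def Sq (G : SimpleGraph V) (K : V → Prop) (s : ℕ) (n : ℤ) (x : V → ℤ) : Prop :=
  ∃ (g : ℤ) (c : V → ZMod 3) (τ : V → ℝ), Strict (side G K) c τ ∧ (τ '' {v | K v}).ncard ≤ s ∧
    ∀ a b, K a → ¬ K b → G.Adj a b → c a + 1 = cls n g (x b)

theorem Sq.congr {K : V → Prop} {s : ℕ} {n : ℤ} {x y : V → ℤ} (h : Sq G K s n x)
    (hxy : ∀ a b, K a → ¬ K b → G.Adj a b → y b = x b) : Sq G K s n y := by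
  obtain ⟨g, c, τ, h1, h0, h2⟩ := h
  exact ⟨g, c, τ, h1, h0, fun a b ha hb hab => by rw [h2 a b ha hb hab, hxy a b ha hb hab]⟩

theorem Sq.add {K : V → Prop} {s : ℕ} {n : ℤ} {x : V → ℤ} (h : Sq G K s n x) (t : ℤ) :
    Sq G K s n fun v => x v + t := by
  obtain ⟨g, c, τ, h1, h0, h2⟩ := h
  exact ⟨g + t, c, τ, h1, h0, fun a b ha hb hab => by
    show _ = cls n (g + t) (x b + t)
    rw [cls_add, h2 a b ha hb hab]⟩

theorem Sq.neg [Finite V] {K : V → Prop} {s : ℕ} {n : ℤ} (hn : 0 < n) {x : V → ℤ} (h : Sq G K s n x) :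
    Sq G K s n fun v => - x v := by
  obtain ⟨g, c, τ, h1, h0, h2⟩ := h
  refine ⟨-g - 1, fun v => - c v, fun v => - τ v, fun u v huv => ?_, ?_, fun a b ha hb hab => ?_⟩
  · rcases h1 u v huv with ⟨h3, h4⟩ | ⟨h3, h4⟩
    · exact Or.inr ⟨by show - c u = - c v + 1; rw [h3]; ring, neg_lt_neg h4⟩
    · exact Or.inl ⟨by show - c v = - c u + 1; rw [h3]; ring, neg_lt_neg h4⟩
  · have h5 : (fun v => - τ v) '' {v | K v} = (fun r : ℝ => - r) '' (τ '' {v | K v}) := by
      rw [Set.image_image]
    rw [h5]
    exact (Set.ncard_image_le (Set.toFinite _)).trans h0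
  · show - c a + 1 = cls n (-g - 1) (- x b)
    rw [cls_neg hn, ← h2 a b ha hb hab]
    have : ∀ z : ZMod 3, - z + 1 = -(z + 1) - 1 := by decide
    exact this _

/-- An isometry on the set `B`. -/
def iso (B : V → Prop) [DecidablePred B] (e t : ℤ) (x : V → ℤ) : V → ℤ := fun v =>
  if B v then e * x v + t else x v

theorem Sq.iso [Finite V] {K B : V → Prop} [DecidablePred B] {s : ℕ} {n : ℤ} (hn : 0 < n) {x : V → ℤ}
    (h : Sq G K s n x) {e t : ℤ} (he : e = 1 ∨ e = -1)
    (hB : (∀ a b, K a → ¬ K b → G.Adj a b → B b) ∨ (∀ a b, K a → ¬ K b → G.Adj a b → ¬ B b)) :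
    Sq G K s n (iso B e t x) := by
  rcases hB with hB | hB
  · rcases he with rfl | rfl
    · refine (h.add t).congr fun a b ha hb hab => ?_
      unfold Pool.Agent.LiftIso.iso
      rw [if_pos (hB a b ha hb hab)]
      ring
    · refine ((h.neg hn).add t).congr fun a b ha hb hab => ?_
      unfold Pool.Agent.LiftIso.iso
      rw [if_pos (hB a b ha hb hab)]
      ring
  · refine h.congr fun a b ha hb hab => ?_
    unfold Pool.Agent.LiftIso.iso
    rw [if_neg (hB a b ha hb hab)]

/-- A colouring at level `n`, as a strict colouring. -/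
theorem jn_str {n : ℤ} (hn : 0 < n) {x y : ℤ} (h : Jn n (y - x)) :
    (((y / n : ℤ) : ZMod 3) = ((x / n : ℤ) : ZMod 3) + 1 ∧ x % n < y % n) ∨
    (((x / n : ℤ) : ZMod 3) = ((y / n : ℤ) : ZMod 3) + 1 ∧ y % n < x % n) := by
  obtain ⟨k, h1, h2⟩ := h
  have e1 := Int.emod_add_mul_ediv x n
  have e2 := Int.emod_nonneg x hn.ne'
  have e3 := Int.emod_lt_of_pos x hn
  have f1 := Int.emod_add_mul_ediv y n
  have f2 := Int.emod_nonneg y hn.ne'
  have f3 := Int.emod_lt_of_pos y hn
  set p := x / n
  set q := y / n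
  set r := x % n
  set s := y % n
  have g1 : n * (q - p + 3 * k) = (y - x + 3 * n * k) - (s - r) := by linear_combination (-1 : ℤ) * e1 + f1
  have g2 : 0 < q - p + 3 * k := by
    by_contra h5
    have : n * (q - p + 3 * k) ≤ 0 := mul_nonpos_of_nonneg_of_nonpos hn.le (not_lt.1 h5)
    linarith
  have g3 : q - p + 3 * k < 3 := by
    by_contra h5
    have : n * 3 ≤ n * (q - p + 3 * k) := mul_le_mul_of_nonneg_left (not_lt.1 h5) hn.le
    linarith
  have h3 : q - p + 3 * k = 1 ∨ q - p + 3 * k = 2 := by omega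
  have z3 : ((3 : ℤ) : ZMod 3) = 0 := by decide
  rcases h3 with h3 | h3
  · left
    refine ⟨?_, ?_⟩
    · have : q = p + 1 - 3 * k := by linarith
      rw [this]
      push_cast
      have : (3 : ZMod 3) = 0 := by decide
      rw [this]
      ring
    · rw [h3] at g1
      linarith
  · right
    refine ⟨?_, ?_⟩
    · have : p = q + 1 - 3 * (1 - k) := by linarith
      rw [this]
      push_cast
      have : (3 : ZMod 3) = 0 := by decide
      rw [this]
      ring
    · rw [h3] at g1
      linarith

/-- Squeezing the heights into the interval between `0` and `1`. -/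
theorem squeeze01 [Finite V] {H : SimpleGraph V} {c : V → ZMod 3} {τ : V → ℝ}
    (h : Strict H c τ) (K : V → Prop) : ∃ τ' : V → ℝ, Strict H c τ' ∧
      (τ' '' {v | K v}).ncard ≤ (τ '' {v | K v}).ncard ∧ ∀ v, 0 < τ' v ∧ τ' v < 1 := by
  have : Fintype V := Fintype.ofFinite V
  set B : ℝ := ∑ v, |τ v| + 1 with hB
  have hB0 : 0 < B := by
    have : 0 ≤ ∑ v, |τ v| := sum_nonneg fun v _ => abs_nonneg _
    linarith
  have hB' : ∀ v, -B < τ v ∧ τ v < B := fun v => by
    have h1 : |τ v| ≤ ∑ v, |τ v| := single_le_sum (fun v _ => abs_nonneg (τ v)) (mem_univ v)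
    exact abs_lt.1 (by linarith)
  have hd : ∀ v, 0 < (τ v + B) / (2 * B) ∧ (τ v + B) / (2 * B) < 1 := fun v => by
    have := hB' v
    exact ⟨div_pos (by linarith) (by linarith), by rw [div_lt_one (by linarith)]; linarith⟩
  have hm : ∀ u v, τ u < τ v → (τ u + B) / (2 * B) < (τ v + B) / (2 * B) := fun u v huv =>
    div_lt_div_of_pos_right (by linarith) (by linarith)
  refine ⟨fun v => (τ v + B) / (2 * B), fun u v huv => ?_, ?_, hd⟩
  · rcases h u v huv with ⟨h1, h2⟩ | ⟨h1, h2⟩
    · exact Or.inl ⟨h1, hm _ _ h2⟩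
    · exact Or.inr ⟨h1, hm _ _ h2⟩
  · have h5 : (fun v => (τ v + B) / (2 * B)) '' {v | K v} =
        (fun r : ℝ => (r + B) / (2 * B)) '' (τ '' {v | K v}) := by
      rw [Set.image_image]
    rw [h5]
    exact Set.ncard_image_le (Set.toFinite _)

/-- The colour of a cluster vertex and of an outer neighbour fit. -/
theorem fit {n g y : ℤ} (hn : 0 < n) {a : ZMod 3} {t : ℝ} (ht : 0 < t ∧ t < 1)
    (h : a + 1 = cls n g y) :
    ((((y / n : ℤ) : ZMod 3) = (a + ((g / n : ℤ) : ZMod 3)) + 1 ∧
      ((g % n : ℤ) : ℝ) + t < ((y % n : ℤ) : ℝ)) ∨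
    ((a + ((g / n : ℤ) : ZMod 3)) = ((y / n : ℤ) : ZMod 3) + 1 ∧
      ((y % n : ℤ) : ℝ) < ((g % n : ℤ) : ℝ) + t)) := by
  have e1 := Int.emod_add_mul_ediv g n
  have e2 := Int.emod_nonneg g hn.ne'
  have e3 := Int.emod_lt_of_pos g hn
  have f1 := Int.emod_add_mul_ediv y n
  have f2 := Int.emod_nonneg y hn.ne'
  have f3 := Int.emod_lt_of_pos y hn
  unfold cls at h
  set p := g / n with hp
  set q := y / n with hq
  set r := g % n with hr
  set s := y % n with hs
  rcases lt_or_ge r s with h1 | h1
  · left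
    have h2 : (y - g - 1) / n = q - p := by
      have : y - g - 1 = (s - r - 1) + n * (q - p) := by linear_combination e1 * 1 - f1
      rw [this, Int.add_mul_ediv_left _ _ hn.ne', Int.ediv_eq_zero_of_lt (by omega) (by omega)]
      ring
    rw [h2] at h
    push_cast at h
    refine ⟨?_, ?_⟩
    · have : ∀ a p q : ZMod 3, a + 1 = q - p → q = a + p + 1 := by decide
      exact this _ _ _ h
    · have : ((r + 1 : ℤ) : ℝ) ≤ (s : ℝ) := by exact_mod_cast h1
      push_cast at this
      linarith
  · right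
    have h2 : (y - g - 1) / n = q - p - 1 := by
      have : y - g - 1 = (s - r - 1 + n) + n * (q - p - 1) := by linear_combination e1 * 1 - f1
      rw [this, Int.add_mul_ediv_left _ _ hn.ne', Int.ediv_eq_zero_of_lt (by omega) (by omega)]
      ring
    rw [h2] at h
    push_cast at h
    refine ⟨?_, ?_⟩
    · have : ∀ a p q : ZMod 3, a + 1 = q - p - 1 → a + p = q + 1 := by decide
      exact this _ _ _ h
    · have : (s : ℝ) ≤ (r : ℝ) := by exact_mod_cast h1
      linarith

/-- **All clusters are filled.** -/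
theorem fill {I : Type*} [Fintype V] (cl : V → Option I) (s n : ℕ) (hn : 0 < n)
    (hadj : ∀ u v, G.Adj u v → ∀ i j, cl u = some i → cl v = some j → i = j)
    {x : V → ℤ} (hx : IsCol n (side G fun v => cl v = none) x)
    (hsq : ∀ i, Sq G (fun v => cl v = some i) s n x) : StrictN G ((s + 1) * (n + 1)) := by
  classical
  have hn' : (0 : ℤ) < n := by exact_mod_cast hn
  have hsq' : ∀ i, ∃ (g : ℤ) (c : V → ZMod 3) (τ : V → ℝ),
      Strict (side G fun v => cl v = some i) c τ ∧
      (∀ a b, cl a = some i → ¬ cl b = some i → G.Adj a b → c a + 1 = cls n g (x b)) ∧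
      (∀ v, 0 < τ v ∧ τ v < 1) ∧ (τ '' {v | cl v = some i}).ncard ≤ s := by
    intro i
    obtain ⟨g, c, τ, h1, h0, h2⟩ := hsq i
    obtain ⟨τ', h3, h5, h4⟩ := squeeze01 h1 (fun v => cl v = some i)
    exact ⟨g, c, τ', h3, h2, h4, h5.trans h0⟩
  choose g c τ h1 h2 h3 hlev using hsq'
  set C : V → ZMod 3 := fun v => (cl v).elim ((x v / n : ℤ) : ZMod 3)
    fun i => c i v + ((g i / n : ℤ) : ZMod 3) with hC
  set T : V → ℝ := fun v => (cl v).elim ((x v % n : ℤ) : ℝ)
    fun i => ((g i % n : ℤ) : ℝ) + τ i v with hT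
  have c0 : ∀ v, cl v = none → C v = ((x v / n : ℤ) : ZMod 3) ∧ T v = ((x v % n : ℤ) : ℝ) := by
    intro v hv
    simp only [hC, hT, hv, Option.elim_none, and_self]
  have c1 : ∀ v i, cl v = some i → C v = c i v + ((g i / n : ℤ) : ZMod 3) ∧
      T v = ((g i % n : ℤ) : ℝ) + τ i v := by
    intro v i hv
    simp only [hC, hT, hv, Option.elim_some, and_self]
  have cross : ∀ a b i, cl a = some i → cl b = none → G.Adj a b → Str C T a b := by
    intro a b i ha hb hab
    have hb' : ¬ cl b = some i := by rw [hb]; exact fun h => by cases h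
    have h4 := fit hn' (h3 i a) (h2 i a b ha hb' hab)
    unfold Str
    rw [(c1 a i ha).1, (c1 a i ha).2, (c0 b hb).1, (c0 b hb).2]
    exact h4
  refine round_lev cl s n hadj (c := C) (τ := T) (fun u v huv => ?_) (fun i => ?_)
    (fun v => (x v % n).toNat) (fun v hv => ?_) (fun v => ?_)
  · cases hu : cl u with
    | none =>
      cases hv : cl v with
      | none =>
        have h4 := jn_str hn' (hx u v ⟨huv, hu, hv⟩)
        unfold Str
        rw [(c0 u hu).1, (c0 u hu).2, (c0 v hv).1, (c0 v hv).2]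
        rcases h4 with ⟨h5, h6⟩ | ⟨h5, h6⟩
        · exact Or.inl ⟨h5, by exact_mod_cast h6⟩
        · exact Or.inr ⟨h5, by exact_mod_cast h6⟩
      | some i =>
        rcases cross v u i hv hu huv.symm with h4 | h4
        · exact Or.inr h4
        · exact Or.inl h4
    | some i =>
      cases hv : cl v with
      | none => exact cross u v i hu hv huv
      | some j =>
        have hij := hadj u v huv i j hu hv
        subst hij
        unfold Str
        rw [(c1 u i hu).1, (c1 u i hu).2, (c1 v i hv).1, (c1 v i hv).2]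
        rcases h1 i u v ⟨huv, hu, hv⟩ with ⟨h5, h6⟩ | ⟨h5, h6⟩
        · exact Or.inl ⟨by rw [h5]; ring, by linarith⟩
        · exact Or.inr ⟨by rw [h5]; ring, by linarith⟩
  · have h4 : T '' {v | cl v = some i} =
        (fun r : ℝ => ((g i % n : ℤ) : ℝ) + r) '' (τ i '' {v | cl v = some i}) := by
      rw [Set.image_image]
      refine Set.image_congr fun v hv => ?_
      exact (c1 v i hv).2
    rw [h4]
    exact (Set.ncard_image_le (Set.toFinite _)).trans (hlev i)
  · rw [(c0 v hv).2]
    have h4 : ((x v % n).toNat : ℤ) = x v % n := Int.toNat_of_nonneg (Int.emod_nonneg _ hn'.ne')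
    exact_mod_cast h4.symm
  · have h4 := Int.emod_lt_of_pos (x v) hn'
    have h5 := Int.emod_nonneg (x v) hn'.ne'
    omega

theorem isCol_iso {n : ℤ} {H : SimpleGraph V} {x : V → ℤ} (h : IsCol n H x) {B : V → Prop}
    [DecidablePred B] (hB : ∀ u v, H.Adj u v → (B u ↔ B v)) {e t : ℤ} (he : e = 1 ∨ e = -1) :
    IsCol n H (iso B e t x) := by
  intro u v huv
  unfold Pool.Agent.LiftIso.iso
  by_cases hu : B u
  · rw [if_pos hu, if_pos ((hB u v huv).1 hu)]
    rcases he with rfl | rfl
    · have e1 : 1 * x v + t - (1 * x u + t) = x v - x u := by ring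
      rw [e1]
      exact h u v huv
    · have e1 : -1 * x v + t - (-1 * x u + t) = -(x v - x u) := by ring
      rw [e1]
      exact (h u v huv).neg
  · rw [if_neg hu, if_neg fun h5 => hu ((hB u v huv).2 h5)]
    exact h u v huv

/-- The positions of the outer neighbours of `K` on either side of `B` are different. -/
def Dist (G : SimpleGraph V) (K B : V → Prop) (n : ℤ) (x : V → ℤ) : Prop :=
  ∀ a b a' b', K a → ¬ K b → G.Adj a b → K a' → ¬ K b' → G.Adj a' b' → b ≠ b' → (B b ↔ B b') →
    ¬ n ∣ x b - x b'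

theorem Dist.iso {K B B' : V → Prop} [DecidablePred B'] {n : ℤ} {x : V → ℤ}
    (h : Dist G K B n x) {e t : ℤ} (he : e = 1 ∨ e = -1)
    (hB : (∀ a b, K a → ¬ K b → G.Adj a b → B' b) ∨ (∀ a b, K a → ¬ K b → G.Adj a b → ¬ B' b) ∨
      ∀ v, B' v ↔ B v) :
    Dist G K B n (iso B' e t x) := by
  intro a b a' b' h1 h2 h3 h4 h5 h6 h7 h8 h9
  have key : (B' b ↔ B' b') := by
    rcases hB with hB | hB | hB
    · exact ⟨fun _ => hB _ _ h4 h5 h6, fun _ => hB _ _ h1 h2 h3⟩
    · exact ⟨fun h => absurd h (hB _ _ h1 h2 h3), fun h => absurd h (hB _ _ h4 h5 h6)⟩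
    · rw [hB, hB]
      exact h8
  refine h a b a' b' h1 h2 h3 h4 h5 h6 h7 h8 ?_
  unfold Pool.Agent.LiftIso.iso at h9
  by_cases hb : B' b
  · rw [if_pos hb, if_pos (key.1 hb)] at h9
    rcases he with rfl | rfl
    · have e1 : 1 * x b + t - (1 * x b' + t) = x b - x b' := by ring
      rwa [e1] at h9
    · have e1 : -1 * x b + t - (-1 * x b' + t) = -(x b - x b') := by ring
      rw [e1] at h9
      exact (dvd_neg.1 h9)
  · rwa [if_neg hb, if_neg fun h => hb (key.2 h)] at h9

/-- The set `K` with the component set `B` is universal at level `n`: for all colourings of the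
rest with different positions of the outer neighbours, an isometry on `B` makes the set `K`
colourable in a gap, with at most `s` heights. -/
def Uni (G : SimpleGraph V) (K B : V → Prop) (s : ℕ) (n : ℤ) : Prop :=
  ∀ x : V → ℤ, Dist G K B n x → ∃ (y : V → ℤ) (e t : ℤ), (e = 1 ∨ e = -1) ∧
    (∀ v, (B v → y v = e * x v + t) ∧ (¬ B v → y v = x v)) ∧ Sq G K s n y

/-- **The lift with isometries.** -/
theorem lift_iso {I : Type*} [Fintype V] [Finite I] (cl : V → Option I) (B : I → V → Prop)
    (s R n : ℕ)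
    (hadj : ∀ u v, G.Adj u v → ∀ i j, cl u = some i → cl v = some j → i = j)
    (hB : ∀ i u v, G.Adj u v → cl u ≠ some i → cl v ≠ some i → (B i u ↔ B i v))
    (hBj : ∀ i j, i ≠ j → (∀ v, cl v = some j → B i v) ∨ (∀ v, cl v = some j → ¬ B i v))
    (hu : ∀ i, Uni G (fun v => cl v = some i) (B i) s (R * n : ℕ))
    (ρ : V → ℕ) (hρ : ∀ v, ρ v < R)
    (hinj : ∀ i a b a' b', cl a = some i → cl b ≠ some i → G.Adj a b → cl a' = some i →
      cl b' ≠ some i → G.Adj a' b' → b ≠ b' → ρ b ≠ ρ b')
    (h : StrictN (side G fun v => cl v = none) n) :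
    StrictN G ((s + 1) * (R * n + 1)) := by
  classical
  have : Fintype I := Fintype.ofFinite I
  obtain ⟨c0, τ0, h1, h2, h3⟩ := h.spread ρ hρ
  rcases Nat.eq_zero_or_pos (R * n) with h0 | hRn
  · -- no vertices
    have hV : ∀ v : V, False := fun v => by
      have := h1 v
      omega
    exact ⟨fun _ => 0, fun _ => 0, fun v => (hV v).elim, fun v => (hV v).elim⟩
  have hRn' : (0 : ℤ) < (R * n : ℕ) := by exact_mod_cast hRn
  set m : ℤ := ((R * n : ℕ) : ℤ) with hm
  -- the first positions
  set x0 : V → ℤ := fun v => m * ((c0 v).val : ℤ) + τ0 v with hx0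
  have hcol0 : IsCol m (side G fun v => cl v = none) x0 := by
    have key : ∀ u v, c0 v = c0 u + 1 → τ0 u < τ0 v → Jn m (x0 v - x0 u) := by
      intro u v h4 h5
      have h6 := h1 v
      have h6' : (τ0 v : ℤ) < m := by rw [hm]; exact_mod_cast h6
      have h5' : (τ0 u : ℤ) + 1 ≤ τ0 v := by exact_mod_cast h5
      have h7 : (0 : ℤ) ≤ τ0 u := Int.natCast_nonneg _
      have hv : ∀ a : ZMod 3, ((a + 1).val : ℤ) = a.val + 1 ∨ ((a + 1).val : ℤ) = a.val + 1 - 3 := by
        decide
      rcases hv (c0 u) with h8 | h8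
      · refine ⟨0, ?_, ?_⟩
        · simp only [hx0]
          rw [h4, h8]
          linarith
        · simp only [hx0]
          rw [h4, h8]
          linarith
      · refine ⟨1, ?_, ?_⟩
        · simp only [hx0]
          rw [h4, h8]
          linarith
        · simp only [hx0]
          rw [h4, h8]
          linarith
    intro u v huv
    rcases h2 u v huv with ⟨h4, h5⟩ | ⟨h4, h5⟩
    · exact key u v h4 h5
    · have := (key v u h4 h5).neg
      rwa [neg_sub] at this
  have hD0 : ∀ i, Dist G (fun v => cl v = some i) (B i) m x0 := by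
    intro i a b a' b' ha hb hab ha' hb' hab' hne _ hdvd
    have h4 : τ0 b ≠ τ0 b' := fun h5 => hinj i a b a' b' ha hb hab ha' hb' hab' hne (h3 _ _ h5)
    have h5 : m ∣ (τ0 b : ℤ) - τ0 b' := by
      have : (τ0 b : ℤ) - τ0 b' = (x0 b - x0 b') - m * (((c0 b).val : ℤ) - (c0 b').val) := by
        simp only [hx0]
        ring
      rw [this]
      exact dvd_sub hdvd (Dvd.intro _ rfl)
    have h6 : (τ0 b : ℤ) < m := by rw [hm]; exact_mod_cast h1 b
    have h7 : (τ0 b' : ℤ) < m := by rw [hm]; exact_mod_cast h1 b'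
    have h8 : (0 : ℤ) ≤ τ0 b := Int.natCast_nonneg _
    have h9 : (0 : ℤ) ≤ τ0 b' := Int.natCast_nonneg _
    have h10 : (τ0 b : ℤ) - τ0 b' = 0 := by
      refine Int.eq_zero_of_abs_lt_dvd h5 ?_
      rw [abs_lt]
      constructor <;> linarith
    exact h4 (by exact_mod_cast sub_eq_zero.1 h10)
  -- outer neighbours of a cluster are not in clusters
  have hnone : ∀ i a b, cl a = some i → cl b ≠ some i → G.Adj a b → cl b = none := by
    intro i a b ha hb hab
    cases hb' : cl b with
    | none => rfl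
    | some j =>
      have := hadj a b hab i j ha hb'
      subst this
      exact absurd hb' hb
  have hside : ∀ i j, i ≠ j →
      (∀ a b, cl a = some i → ¬ cl b = some i → G.Adj a b → B j b) ∨
      (∀ a b, cl a = some i → ¬ cl b = some i → G.Adj a b → ¬ B j b) := by
    intro i j hij
    have key : ∀ a b, cl a = some i → ¬ cl b = some i → G.Adj a b → (B j a ↔ B j b) := by
      intro a b ha hb hab
      refine hB j a b hab ?_ ?_
      · rw [ha]
        exact fun h => hij (Option.some.inj h)
      · rw [hnone i a b ha hb hab]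
        exact fun h => by cases h
    rcases hBj j i hij.symm with h4 | h4
    · exact Or.inl fun a b ha hb hab => (key a b ha hb hab).1 (h4 a ha)
    · exact Or.inr fun a b ha hb hab h5 => h4 a ha ((key a b ha hb hab).2 h5)
  -- one cluster after the other
  have main : ∀ S : Finset I, ∃ x : V → ℤ, IsCol m (side G fun v => cl v = none) x ∧
      (∀ i, Dist G (fun v => cl v = some i) (B i) m x) ∧
      ∀ i ∈ S, Sq G (fun v => cl v = some i) s m x := by
    intro S
    induction S using Finset.induction_on with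
    | empty => exact ⟨x0, hcol0, hD0, fun i hi => absurd hi (notMem_empty i)⟩
    | insert j S hj ih =>
      obtain ⟨x, g1, g2, g3⟩ := ih
      obtain ⟨y, e, t, he, hy, hsq⟩ := hu j x (g2 j)
      have hy' : y = iso (B j) e t x := by
        funext v
        unfold Pool.Agent.LiftIso.iso
        by_cases hv : B j v
        · rw [if_pos hv, (hy v).1 hv]
        · rw [if_neg hv, (hy v).2 hv]
      refine ⟨y, ?_, fun i => ?_, fun i hi => ?_⟩
      · rw [hy']
        refine isCol_iso g1 (fun u v huv => ?_) he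
        refine hB j u v huv.1 ?_ ?_
        · rw [huv.2.1]
          exact fun h => by cases h
        · rw [huv.2.2]
          exact fun h => by cases h
      · rw [hy']
        by_cases hij : i = j
        · subst hij
          exact (g2 i).iso he (Or.inr (Or.inr fun v => Iff.rfl))
        · rcases hside i j hij with h4 | h4
          · exact (g2 i).iso he (Or.inl h4)
          · exact (g2 i).iso he (Or.inr (Or.inl h4))
      · rw [mem_insert] at hi
        by_cases hij : i = j
        · subst hij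
          exact hsq
        · rw [hy']
          exact (g3 i (hi.resolve_left hij)).iso hRn' he (hside i j hij)
  obtain ⟨x, g1, -, g3⟩ := main univ
  exact fill cl s (R * n) hRn hadj g1 fun i => g3 i (mem_univ i)

end Pool.Agent.LiftIso
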