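import Mathlib
import Pool.Agent.Work.MP_392c8e_co_uni.LiftIso

/-!
# Universal clusters from linear colourings

A cluster between two outer sides is universal if, for all positions of the outer neighbours, it
has a strict colouring which fits to one gap of the left side and, up to a reflection and a
translation of the colours, to one gap of the right side.
-/

namespace Pool.Agent.LiftIso

open Finset
open Pool.Agent.T1Red (Str Strict)
open Pool.Agent.Red (side)

variable {V : Type*} {G : SimpleGraph V}

theorem cls_mul {n : ℤ} (hn : 0 < n) (g y k : ℤ) :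
    cls n g (y + n * k) = cls n g y + (k : ZMod 3) := by
  unfold cls
  have : (y + n * k - g - 1) / n = (y - g - 1) / n + k := by
    have e : y + n * k - g - 1 = (y - g - 1) + n * k := by ring
    rw [e, Int.add_mul_ediv_left _ _ hn.ne']
  rw [this]
  push_cast
  ring

/-- **Universal clusters.** -/
theorem uni_of_lin {K B : V → Prop} {s : ℕ} {n : ℤ} (hn : 0 < n)
    (h : ∀ x : V → ℤ, Dist G K B n x → ∃ (gA gB : ℤ) (e : ℤ) (u : ZMod 3) (c : V → ZMod 3)
      (τ : V → ℝ), (e = 1 ∨ e = -1) ∧ Strict (side G K) c τ ∧ (τ '' {v | K v}).ncard ≤ s ∧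
      (∀ a b, K a → ¬ K b → G.Adj a b → ¬ B b → c a + 1 = cls n gA (x b)) ∧
      (∀ a b, K a → ¬ K b → G.Adj a b → B b → c a + 1 = (e : ZMod 3) * cls n gB (x b) + u)) :
    Uni G K B s n := by
  classical
  intro x hx
  obtain ⟨gA, gB, e, u, c, τ, he, h1, h2, h3, h4⟩ := h x hx
  -- the isometry moves the gap `gB` to the gap `gA`
  obtain ⟨t, ht⟩ : ∃ t : ℤ, ∀ y : ℤ, cls n gA (e * y + t) = (e : ZMod 3) * cls n gB y + u := by
    rcases he with rfl | rfl
    · refine ⟨gA - gB + n * (u.val : ℤ), fun y => ?_⟩
      have e1 : 1 * y + (gA - gB + n * (u.val : ℤ)) = (y + (gA - gB)) + n * (u.val : ℤ) := by ring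
      have e2 : gA = gB + (gA - gB) := by ring
      rw [e1, cls_mul hn]
      conv_lhs => rw [e2]
      have e3 : cls n (gB + (gA - gB)) (y + (gB + (gA - gB) - gB)) = cls n gB y := by
        have := cls_add n gB y (gA - gB)
        have e4 : gB + (gA - gB) - gB = gA - gB := by ring
        rw [e4]
        exact this
      rw [e3]
      have e5 : (((u.val : ℕ) : ℤ) : ZMod 3) = u := by
        push_cast
        exact ZMod.natCast_zmod_val u
      rw [e5]
      push_cast
      ring
    · refine ⟨gA + gB + 1 + n * ((u + 1).val : ℤ), fun y => ?_⟩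
      have e1 : -1 * y + (gA + gB + 1 + n * ((u + 1).val : ℤ)) =
          (-y + (gA + gB + 1)) + n * ((u + 1).val : ℤ) := by ring
      rw [e1, cls_mul hn]
      have e3 : cls n gA (-y + (gA + gB + 1)) = - cls n gB y - 1 := by
        have h5 := cls_add n (-gB - 1) (-y) (gA + gB + 1)
        have e4 : -gB - 1 + (gA + gB + 1) = gA := by ring
        rw [e4] at h5
        rw [h5, cls_neg hn]
      rw [e3]
      have e5 : ((((u + 1).val : ℕ) : ℤ) : ZMod 3) = u + 1 := by
        push_cast
        exact ZMod.natCast_zmod_val (u + 1)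
      rw [e5]
      push_cast
      ring
  refine ⟨iso B e t x, e, t, he, fun v => ⟨fun hv => ?_, fun hv => ?_⟩, gA, c, τ, h1, h2,
    fun a b ha hb hab => ?_⟩
  · unfold Pool.Agent.LiftIso.iso
    rw [if_pos hv]
  · unfold Pool.Agent.LiftIso.iso
    rw [if_neg hv]
  · unfold Pool.Agent.LiftIso.iso
    by_cases hv : B b
    · rw [if_pos hv, ht, h4 a b ha hb hab hv]
    · rw [if_neg hv, h3 a b ha hb hab hv]

/-- Three positions which are different modulo `n` have a gap in which exactly two of the three
colours are equal: from a gap below the position `y l` to the gap above it. -/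
theorem cls_step {n : ℤ} (hn : 0 < n) (g y : ℤ) (hy : ¬ n ∣ y - (g + 1)) :
    cls n (g + 1) y = cls n g y := by
  unfold cls
  congr 1
  have e1 := Int.emod_add_mul_ediv (y - g - 1) n
  have e2 := Int.emod_nonneg (y - g - 1) hn.ne'
  have e3 := Int.emod_lt_of_pos (y - g - 1) hn
  have e4 : (y - g - 1) % n ≠ 0 := fun h5 => hy (by
    have := Int.dvd_of_emod_eq_zero h5
    have e : y - (g + 1) = y - g - 1 := by ring
    rwa [e])
  set q := (y - g - 1) / n
  set r := (y - g - 1) % n
  have e5 : y - (g + 1) - 1 = (r - 1) + n * q := by linarith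
  rw [e5, Int.add_mul_ediv_left _ _ hn.ne', Int.ediv_eq_zero_of_lt (by omega) (by omega)]
  ring

theorem cls_step' {n : ℤ} (hn : 0 < n) (g y : ℤ) (hy : n ∣ y - (g + 1)) :
    cls n (g + 1) y = cls n g y - 1 := by
  obtain ⟨k, hk⟩ := hy
  unfold cls
  have e1 : y - (g + 1) - 1 = (n - 1) + n * (k - 1) := by linarith
  have e2 : y - g - 1 = 0 + n * k := by linarith
  rw [e1, e2, Int.add_mul_ediv_left _ _ hn.ne', Int.add_mul_ediv_left _ _ hn.ne',
    Int.ediv_eq_zero_of_lt (by omega) (by omega)]
  push_cast
  simp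

/-- The sum of the three colours decreases by one when the gap passes one of the positions. -/
theorem exists_gap {n : ℤ} (hn : 0 < n) (y : Fin 3 → ℤ) (hy : ∀ i j, i ≠ j → ¬ n ∣ y i - y j)
    (r : ZMod 3) : ∃ g : ℤ, cls n g (y 0) + cls n g (y 1) + cls n g (y 2) = r := by
  -- below the position `y i`, at `g = y i - 1`, and above it, at `g = y i`
  have step : ∀ g : ℤ, ∀ i : Fin 3, n ∣ y i - (g + 1) →
      cls n (g + 1) (y 0) + cls n (g + 1) (y 1) + cls n (g + 1) (y 2) =
        cls n g (y 0) + cls n g (y 1) + cls n g (y 2) - 1 := by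
    intro g i hi
    have hj : ∀ j, j ≠ i → ¬ n ∣ y j - (g + 1) := by
      intro j hj h5
      refine hy j i hj ?_
      have : y j - y i = (y j - (g + 1)) - (y i - (g + 1)) := by ring
      rw [this]
      exact dvd_sub h5 hi
    fin_cases i
    · rw [cls_step' hn g (y 0) hi, cls_step hn g (y 1) (hj 1 (by decide)),
        cls_step hn g (y 2) (hj 2 (by decide))]
      ring
    · rw [cls_step' hn g (y 1) hi, cls_step hn g (y 0) (hj 0 (by decide)),
        cls_step hn g (y 2) (hj 2 (by decide))]
      ring
    · rw [cls_step' hn g (y 2) hi, cls_step hn g (y 0) (hj 0 (by decide)),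
        cls_step hn g (y 1) (hj 1 (by decide))]
      ring
  have stay : ∀ g : ℤ, (∀ i, ¬ n ∣ y i - (g + 1)) →
      cls n (g + 1) (y 0) + cls n (g + 1) (y 1) + cls n (g + 1) (y 2) =
        cls n g (y 0) + cls n g (y 1) + cls n g (y 2) := by
    intro g hi
    rw [cls_step hn g (y 0) (hi 0), cls_step hn g (y 1) (hi 1), cls_step hn g (y 2) (hi 2)]
  set S : ℤ → ZMod 3 := fun g => cls n g (y 0) + cls n g (y 1) + cls n g (y 2) with hS
  have one : ∀ g, S (g + 1) = S g ∨ S (g + 1) = S g - 1 := by
    intro g
    by_cases h5 : ∃ i, n ∣ y i - (g + 1)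
    · obtain ⟨i, hi⟩ := h5
      exact Or.inr (step g i hi)
    · exact Or.inl (stay g fun i hi => h5 ⟨i, hi⟩)
  -- the value `S - 1` occurs as well
  have hstep : S (y 0) = S (y 0 - 1) - 1 := by
    have := step (y 0 - 1) 0 ⟨0, by ring⟩
    have e : y 0 - 1 + 1 = y 0 := by ring
    rw [e] at this
    exact this
  -- after `n` steps the sum has decreased by three, which is zero; three different passages
  by_contra hcon
  push Not at hcon
  have hr1 : ∀ g, S g = r + 1 ∨ S g = r + 2 := by
    intro g
    have h5 : S g ≠ r := hcon g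
    have : ∀ a b : ZMod 3, a ≠ b → a = b + 1 ∨ a = b + 2 := by decide
    exact this _ _ h5
  -- the value is monotone, hence eventually constant, but passages occur again and again
  have hmono : ∀ g, S g = r + 1 → S (g + 1) = r + 1 := by
    intro g hg
    rcases one g with h5 | h5
    · rw [h5, hg]
    · exfalso
      refine hcon (g + 1) ?_
      show S (g + 1) = r
      rw [h5, hg]
      ring
  have hfrom : ∀ g, S g = r + 1 → ∀ k : ℕ, S (g + k) = r + 1 := by
    intro g hg k
    induction k with
    | zero => simpa using hg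
    | succ k ih =>
      have := hmono _ ih
      have e : g + ((k : ℕ) : ℤ) + 1 = g + ((k + 1 : ℕ) : ℤ) := by push_cast; ring
      rw [e] at this
      exact this
  have h1 : S (y 0) = r + 1 := by
    rcases hr1 (y 0) with h5 | h5
    · exact h5
    · exfalso
      refine hcon (y 0 - 1) ?_
      show S (y 0 - 1) = r
      have h6 : S (y 0 - 1) = S (y 0) + 1 := by rw [hstep]; ring
      rw [h6, h5]
      have : ∀ a : ZMod 3, a + 2 + 1 = a := by decide
      exact this r
  -- the next passage of the same position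
  have h2 := step (y 0 + n - 1) 0 ⟨-1, by ring⟩
  have e1 : y 0 + n - 1 + 1 = y 0 + n := by ring
  rw [e1] at h2
  have h3 := hfrom _ h1 (n - 1).toNat
  have h4 := hfrom _ h1 n.toNat
  rw [Int.toNat_of_nonneg (by omega)] at h3
  rw [Int.toNat_of_nonneg hn.le] at h4
  have e2 : y 0 + (n - 1) = y 0 + n - 1 := by ring
  rw [e2] at h3
  have h5 : S (y 0 + n) = S (y 0 + n - 1) - 1 := h2
  rw [h3, h4] at h5
  have : ∀ a : ZMod 3, a + 1 ≠ a + 1 - 1 := by decide
  exact this _ h5

end Pool.Agent.LiftIso
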