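import Mathlib
import Pool.Agent.Work.MP_392c8e_co_uni.UniLin

/-!
# Universal clusters between three and three outer neighbours

Three positions with different residues have three kinds of gaps; the colours seen from them are
`w`, `w - e l` and `w - e l - e l'`, if `l`, `l'` are the lowest and the middle position.
-/

namespace Pool.Agent.LiftIso

open Finset
open Pool.Agent.T1Red (Str Strict)
open Pool.Agent.Red (side)

/-- The unit vector. -/
def ev (l : Fin 3) : Fin 3 → ZMod 3 := fun i => if i = l then 1 else 0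

/-- The three colour vectors of a state: `w` is seen from below, `l` is the lowest and `l'` the
middle position. -/
def Corner (w : Fin 3 → ZMod 3) (l l' : Fin 3) (v : Fin 3 → ZMod 3) : Prop :=
  v = w ∨ v = w - ev l ∨ v = w - ev l - ev l'

instance (w : Fin 3 → ZMod 3) (l l' : Fin 3) (v : Fin 3 → ZMod 3) : Decidable (Corner w l l' v) := by
  unfold Corner
  infer_instance

theorem cls_of {n : ℤ} (hn : 0 < n) {g : ℤ} (h1 : -1 ≤ g) (h2 : g < n) (y : ℤ) :
    cls n g y = ((y / n : ℤ) : ZMod 3) - if y % n ≤ g then 1 else 0 := by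
  unfold cls
  have e1 := Int.emod_add_mul_ediv y n
  have e2 := Int.emod_nonneg y hn.ne'
  have e3 := Int.emod_lt_of_pos y hn
  set q := y / n
  set r := y % n
  by_cases h : r ≤ g
  · rw [if_pos h]
    have : y - g - 1 = (r - g - 1 + n) + n * (q - 1) := by linarith
    rw [this, Int.add_mul_ediv_left _ _ hn.ne', Int.ediv_eq_zero_of_lt (by omega) (by omega)]
    push_cast
    ring
  · rw [if_neg h]
    have : y - g - 1 = (r - g - 1) + n * q := by linarith
    rw [this, Int.add_mul_ediv_left _ _ hn.ne', Int.ediv_eq_zero_of_lt (by omega) (by omega)]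
    push_cast
    ring

/-- The lowest and the middle one of three different integers. -/
theorem exists_sort (r : Fin 3 → ℤ) (h : Function.Injective r) :
    ∃ l l' l'' : Fin 3, l ≠ l' ∧ l ≠ l'' ∧ l' ≠ l'' ∧ r l < r l' ∧ r l' < r l'' := by
  have h01 : r 0 ≠ r 1 := fun h5 => absurd (h h5) (by decide)
  have h02 : r 0 ≠ r 2 := fun h5 => absurd (h h5) (by decide)
  have h12 : r 1 ≠ r 2 := fun h5 => absurd (h h5) (by decide)
  rcases lt_or_gt_of_ne h01 with a | a <;> rcases lt_or_gt_of_ne h02 with b | b <;>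
    rcases lt_or_gt_of_ne h12 with c | c
  · exact ⟨0, 1, 2, by decide, by decide, by decide, a, c⟩
  · exact ⟨0, 2, 1, by decide, by decide, by decide, b, c⟩
  · exact absurd (a.trans c) (not_lt.2 b.le)
  · exact ⟨2, 0, 1, by decide, by decide, by decide, b, a⟩
  · exact ⟨1, 0, 2, by decide, by decide, by decide, a, b⟩
  · exact absurd (b.trans c) (not_lt.2 a.le)
  · exact ⟨1, 2, 0, by decide, by decide, by decide, c, b⟩
  · exact ⟨2, 1, 0, by decide, by decide, by decide, c, a⟩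

/-- **The corners of a state**: every corner is seen from some gap. -/
theorem exists_corners {n : ℤ} (hn : 0 < n) (y : Fin 3 → ℤ)
    (hy : ∀ i j, i ≠ j → ¬ n ∣ y i - y j) :
    ∃ (w : Fin 3 → ZMod 3) (l l' : Fin 3), l ≠ l' ∧
      ∀ v, Corner w l l' v → ∃ g : ℤ, ∀ i, cls n g (y i) = v i := by
  have hinj : Function.Injective fun i => y i % n := by
    intro i j hij
    by_contra hne
    exact hy i j hne (Int.ModEq.dvd (show y j % n = y i % n from Eq.symm hij))
  obtain ⟨l, l', l'', h1, h2, h3, h4, h5⟩ := exists_sort _ hinj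
  have hall : ∀ i, i = l ∨ i = l' ∨ i = l'' := by
    revert h1 h2 h3
    clear h4 h5
    revert l l' l''
    decide
  have b : ∀ i, 0 ≤ y i % n ∧ y i % n < n := fun i =>
    ⟨Int.emod_nonneg _ hn.ne', Int.emod_lt_of_pos _ hn⟩
  have hl := b l
  have hl' := b l'
  have hl'' := b l''
  refine ⟨fun i => ((y i / n : ℤ) : ZMod 3), l, l', h1, fun v hv => ?_⟩
  rcases hv with rfl | rfl | rfl
  · refine ⟨-1, fun i => ?_⟩
    have hi := b i
    rw [cls_of hn le_rfl (by omega), if_neg (by omega)]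
    ring
  · refine ⟨y l % n, fun i => ?_⟩
    rw [cls_of hn (by omega) (by omega)]
    show _ = ((y i / n : ℤ) : ZMod 3) - ev l i
    unfold ev
    congr 1
    rcases hall i with rfl | rfl | rfl
    · rw [if_pos le_rfl, if_pos rfl]
    · rw [if_neg (by omega), if_neg h1.symm]
    · rw [if_neg (by omega), if_neg h2.symm]
  · refine ⟨y l' % n, fun i => ?_⟩
    rw [cls_of hn (by omega) (by omega)]
    show _ = ((y i / n : ℤ) : ZMod 3) - ev l i - ev l' i
    unfold ev
    rw [sub_sub]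
    congr 1
    rcases hall i with rfl | rfl | rfl
    · rw [if_pos (by omega), if_pos rfl, if_neg h1]
      ring
    · rw [if_pos le_rfl, if_neg h1.symm, if_pos rfl]
      ring
    · rw [if_neg (by omega), if_neg h2.symm, if_neg h3.symm]
      ring

variable {V : Type*} {G : SimpleGraph V}

/-- **Universal clusters from their linear colourings.**  The cluster `K` has three edges to the
outside `¬ B` (ends `a i`, `b i`) and three edges to `B` (ends `a' i`, `b' i`). -/
theorem uni_of_alcoves {K B : V → Prop} {s : ℕ} {n : ℤ} (hn : 0 < n)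
    {a b a' b' : Fin 3 → V} (hKa : ∀ i, K (a i)) (hb : ∀ i, ¬ K (b i)) (hab : ∀ i, G.Adj (a i) (b i))
    (hBb : ∀ i, ¬ B (b i)) (hbi : Function.Injective b)
    (hKa' : ∀ i, K (a' i)) (hb' : ∀ i, ¬ K (b' i)) (hab' : ∀ i, G.Adj (a' i) (b' i))
    (hBb' : ∀ i, B (b' i)) (hbi' : Function.Injective b')
    (hL : ∀ x y, K x → ¬ K y → G.Adj x y → ¬ B y → ∃ i, x = a i ∧ y = b i)
    (hR : ∀ x y, K x → ¬ K y → G.Adj x y → B y → ∃ i, x = a' i ∧ y = b' i)
    (h : ∀ (w : Fin 3 → ZMod 3) (l l' : Fin 3) (w' : Fin 3 → ZMod 3) (m m' : Fin 3), l ≠ l' →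
      m ≠ m' → ∃ (v v' : Fin 3 → ZMod 3) (e : ℤ) (u : ZMod 3) (c : V → ZMod 3) (τ : V → ℝ),
        Corner w l l' v ∧ Corner w' m m' v' ∧ (e = 1 ∨ e = -1) ∧ Strict (side G K) c τ ∧
        (τ '' {v | K v}).ncard ≤ s ∧ (∀ i, c (a i) + 1 = v i) ∧
        ∀ i, c (a' i) + 1 = (e : ZMod 3) * v' i + u) :
    Uni G K B s n := by
  refine uni_of_lin hn fun x hx => ?_
  have hy : ∀ i j, i ≠ j → ¬ n ∣ x (b i) - x (b j) := fun i j hij =>
    hx (a i) (b i) (a j) (b j) (hKa i) (hb i) (hab i) (hKa j) (hb j) (hab j)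
      (fun h5 => hij (hbi h5)) ⟨fun h5 => absurd h5 (hBb i), fun h5 => absurd h5 (hBb j)⟩
  have hy' : ∀ i j, i ≠ j → ¬ n ∣ x (b' i) - x (b' j) := fun i j hij =>
    hx (a' i) (b' i) (a' j) (b' j) (hKa' i) (hb' i) (hab' i) (hKa' j) (hb' j) (hab' j)
      (fun h5 => hij (hbi' h5)) ⟨fun _ => hBb' j, fun _ => hBb' i⟩
  obtain ⟨w, l, l', h1, h2⟩ := exists_corners hn (fun i => x (b i)) hy
  obtain ⟨w', m, m', h3, h4⟩ := exists_corners hn (fun i => x (b' i)) hy'
  obtain ⟨v, v', e, u, c, τ, g1, g2, g3, g4, g5, g6, g7⟩ := h w l l' w' m m' h1 h3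
  obtain ⟨gA, hA⟩ := h2 v g1
  obtain ⟨gB, hB⟩ := h4 v' g2
  refine ⟨gA, gB, e, u, c, τ, g3, g4, g5, fun p q hp hq hpq hBq => ?_,
    fun p q hp hq hpq hBq => ?_⟩
  · obtain ⟨i, rfl, rfl⟩ := hL p q hp hq hpq hBq
    rw [g6 i, hA i]
  · obtain ⟨i, rfl, rfl⟩ := hR p q hp hq hpq hBq
    rw [g7 i, hB i]

end Pool.Agent.LiftIso
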