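import Mathlib
import Pool.Agent.Work.MP_392c8e_co_uni.UniAlc

/-!
# Universal words of letters

A letter is a rung (`some k`: the rung which does not use the strand `k`) or a ring (`none`).
A word is a list of letters from the outside to the inside.  The vertices are numbered letter by
letter: the rung `k` is `[vertex on the strand k + 1, vertex on the strand k + 2]`, the ring is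
`[s 0, s 1, s 2, u 0, u 1, u 2]` with `s i` adjacent to `u j` for `i ≠ j`; the strand `i` enters
at `s i` and leaves at `u i`.
-/

namespace Pool.Agent.WordU

open Finset
open Pool.Agent.T1Red (Str Strict)
open Pool.Agent.Red (side)
open Pool.Agent.LiftIso

/-- Letters. -/
abbrev Lt := Option (Fin 3)

/-- The number of vertices of a letter. -/
def sz : Lt → ℕ
  | some _ => 2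
  | none => 6

/-- The edges inside a letter. -/
def inner : Lt → List (ℕ × ℕ)
  | some _ => [(0, 1)]
  | none => [(0, 4), (0, 5), (1, 3), (1, 5), (2, 3), (2, 4)]

/-- The vertex of the letter where the strand enters. -/
def inn : Lt → Fin 3 → Option ℕ
  | some k, i => if i = k + 1 then some 0 else if i = k + 2 then some 1 else none
  | none, i => some i.val

/-- The vertex of the letter where the strand leaves. -/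
def out : Lt → Fin 3 → Option ℕ
  | some k, i => if i = k + 1 then some 0 else if i = k + 2 then some 1 else none
  | none, i => some (i.val + 3)

/-- The number of vertices of a word. -/
def wN : List Lt → ℕ
  | [] => 0
  | l :: w => sz l + wN w

/-- The edge on the strand `i` between the current end and a new letter. -/
def link (cur : Fin 3 → Option ℕ) (n : ℕ) (l : Lt) (i : Fin 3) : List (ℕ × ℕ) :=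
  match cur i, inn l i with
  | some x, some y => [(x, n + y)]
  | _, _ => []

/-- The new ends of the strands. -/
def nxt (cur : Fin 3 → Option ℕ) (n : ℕ) (l : Lt) (i : Fin 3) : Option ℕ :=
  match out l i with
  | some y => some (n + y)
  | none => cur i

/-- The edges of a word whose first vertex has the number `n`, behind the ends `cur`. -/
def edg : List Lt → ℕ → (Fin 3 → Option ℕ) → List (ℕ × ℕ)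
  | [], _, _ => []
  | l :: w, n, cur => (inner l).map (fun e => (n + e.1, n + e.2)) ++
      (link cur n l 0 ++ (link cur n l 1 ++ link cur n l 2)) ++ edg w (n + sz l) (nxt cur n l)

/-- The edges of a word. -/
def wE (w : List Lt) : List (ℕ × ℕ) := edg w 0 fun _ => none

/-- The first vertex on the strand `i`. -/
def wA : List Lt → ℕ → Fin 3 → ℕ
  | [], _, _ => 0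
  | l :: w, n, i =>
    match inn l i with
    | some y => n + y
    | none => wA w (n + sz l) i

/-- The last vertex on the strand `i`. -/
def wB : List Lt → ℕ → ℕ → Fin 3 → ℕ
  | [], _, d, _ => d
  | l :: w, n, d, i =>
    match out l i with
    | some y => wB w (n + sz l) (n + y) i
    | none => wB w (n + sz l) d i

/-- A word with nine linear colourings. -/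
structure Cert where
  /-- the word -/
  w : List Lt
  /-- the set of three outer classes -/
  L : Fin 4
  /-- the set of three inner classes -/
  R : Fin 4
  /-- the colours -/
  c : List (List ℕ)
  /-- the heights -/
  t : List (List ℕ)

/-- Four sets of three classes. -/
def cov : Fin 4 → Fin 3 → ℕ × ℕ
  | 0, 0 => (1, 1)
  | 0, 1 => (1, 0)
  | 0, 2 => (0, 1)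
  | 1, 0 => (1, 2)
  | 1, 1 => (1, 1)
  | 1, 2 => (1, 0)
  | 2, 0 => (1, 2)
  | 2, 1 => (1, 0)
  | 2, 2 => (0, 1)
  | 3, 0 => (1, 2)
  | 3, 1 => (0, 1)
  | 3, 2 => (1, 1)

/-- The colouring is strict on the edges. -/
def okE (E : List (ℕ × ℕ)) (c t : List ℕ) : Bool :=
  E.all fun e => (c.getD e.2 0 == (c.getD e.1 0 + 1) % 3 && decide (t.getD e.1 0 < t.getD e.2 0)) ||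
    (c.getD e.1 0 == (c.getD e.2 0 + 1) % 3 && decide (t.getD e.2 0 < t.getD e.1 0))

/-- The class of the three vertices `a i` is `P`, up to the sign. -/
def okP (a : Fin 3 → ℕ) (c : List ℕ) (P : ℕ × ℕ) : Bool :=
  ((c.getD (a 1) 0 == (c.getD (a 0) 0 + P.1) % 3) && (c.getD (a 2) 0 == (c.getD (a 0) 0 + P.2) % 3)) ||
  ((c.getD (a 0) 0 == (c.getD (a 1) 0 + P.1) % 3) && (c.getD (a 0) 0 == (c.getD (a 2) 0 + P.2) % 3))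

/-- The check of a certificate. -/
def Cert.ok (C : Cert) : Bool :=
  (List.finRange 3).all fun i => (List.finRange 3).all fun j =>
    okE (wE C.w) (C.c.getD (3 * i.val + j.val) []) (C.t.getD (3 * i.val + j.val) []) &&
    (okP (wA C.w 0) (C.c.getD (3 * i.val + j.val) []) (cov C.L i) &&
    okP (wB C.w 0 0) (C.c.getD (3 * i.val + j.val) []) (cov C.R j))

/-- The catalogue. -/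
def cat : List Cert := [
  ⟨[none, none], 0, 0,
    [[0, 1, 1, 0, 2, 2, 1, 1, 1, 0, 2, 2], [0, 1, 1, 0, 2, 2, 1, 0, 1, 2, 0, 2], [0, 1, 1, 0, 2, 2, 1, 1, 0, 2, 2, 0], [0, 1, 0, 2, 1, 2, 0, 0, 0, 1, 2, 2], [0, 1, 0, 2, 1, 2, 0, 0, 0, 1, 2, 1], [0, 1, 0, 2, 1, 2, 0, 0, 0, 1, 1, 2], [0, 0, 1, 2, 2, 1, 0, 0, 0, 1, 2, 2], [0, 0, 1, 2, 2, 1, 0, 0, 0, 1, 2, 1], [0, 0, 1, 2, 2, 1, 0, 0, 0, 1, 1, 2]],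
    [[3, 1, 1, 0, 2, 2, 1, 1, 1, 0, 2, 2], [3, 1, 1, 0, 2, 2, 1, 3, 1, 2, 0, 2], [3, 1, 1, 0, 2, 2, 1, 1, 3, 2, 2, 0], [2, 0, 2, 1, 3, 1, 2, 1, 2, 3, 0, 0], [2, 0, 2, 1, 3, 1, 2, 0, 2, 3, 0, 3], [2, 0, 2, 1, 3, 1, 2, 1, 2, 3, 3, 0], [2, 2, 0, 1, 1, 3, 2, 2, 1, 3, 0, 0], [2, 2, 0, 1, 1, 3, 2, 2, 1, 3, 0, 3], [2, 2, 0, 1, 1, 3, 2, 2, 0, 3, 3, 0]]⟩,
  ⟨[none, some 0, none], 0, 0,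
    [[0, 1, 1, 0, 2, 2, 0, 1, 1, 2, 2, 1, 0, 0], [0, 1, 1, 2, 2, 2, 1, 0, 1, 2, 1, 0, 2, 0], [0, 1, 1, 2, 2, 2, 0, 1, 1, 1, 2, 0, 0, 2], [0, 1, 0, 2, 1, 2, 2, 0, 1, 1, 1, 0, 2, 2], [0, 1, 0, 2, 1, 2, 0, 1, 0, 1, 0, 2, 1, 2], [0, 1, 0, 2, 1, 2, 0, 1, 1, 1, 0, 2, 2, 0], [0, 0, 1, 2, 2, 1, 0, 2, 1, 1, 1, 0, 2, 2], [0, 0, 1, 2, 2, 1, 0, 2, 1, 1, 1, 0, 2, 0], [0, 0, 1, 2, 2, 1, 1, 0, 0, 0, 1, 2, 2, 1]],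
    [[6, 1, 1, 0, 2, 5, 3, 4, 7, 1, 5, 0, 6, 2], [5, 0, 0, 7, 4, 1, 3, 2, 6, 4, 6, 5, 7, 5], [5, 0, 0, 7, 1, 4, 2, 3, 6, 6, 4, 5, 5, 7], [2, 0, 2, 1, 3, 1, 4, 5, 0, 1, 6, 0, 7, 2], [6, 0, 2, 1, 7, 5, 0, 4, 3, 1, 3, 2, 4, 2], [6, 0, 3, 2, 7, 5, 0, 4, 1, 1, 3, 2, 2, 0], [2, 2, 0, 1, 1, 3, 5, 4, 0, 6, 1, 0, 2, 7], [2, 3, 0, 2, 1, 4, 6, 5, 1, 7, 1, 0, 2, 0], [6, 2, 0, 1, 5, 7, 4, 0, 3, 3, 1, 2, 2, 4]]⟩,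
  ⟨[none, some 1, none], 0, 0,
    [[0, 1, 1, 0, 2, 2, 0, 1, 0, 1, 1, 0, 2, 2], [0, 1, 1, 0, 2, 2, 1, 2, 0, 0, 0, 2, 1, 2], [0, 1, 1, 0, 2, 2, 0, 1, 0, 0, 1, 2, 2, 1], [0, 1, 0, 2, 2, 2, 1, 0, 2, 0, 0, 2, 1, 1], [0, 1, 0, 2, 1, 2, 0, 1, 2, 0, 2, 1, 0, 1], [0, 1, 0, 2, 2, 2, 0, 1, 0, 0, 2, 1, 1, 2], [0, 0, 1, 2, 2, 1, 0, 1, 0, 1, 1, 0, 2, 2], [0, 0, 1, 2, 2, 1, 2, 0, 1, 1, 1, 2, 0, 2], [0, 0, 1, 2, 2, 1, 0, 1, 0, 0, 1, 2, 2, 1]],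
    [[3, 1, 1, 0, 2, 2, 3, 7, 6, 1, 4, 0, 5, 2], [7, 5, 5, 4, 6, 6, 2, 3, 4, 7, 1, 0, 5, 0], [3, 1, 1, 0, 2, 2, 3, 7, 6, 6, 4, 5, 5, 7], [7, 0, 2, 1, 0, 6, 5, 4, 3, 1, 1, 0, 2, 2], [2, 0, 6, 5, 7, 1, 3, 4, 5, 0, 2, 1, 6, 1], [2, 0, 7, 6, 0, 1, 4, 5, 1, 1, 3, 2, 2, 0], [3, 6, 0, 5, 2, 7, 0, 4, 3, 1, 1, 0, 2, 2], [2, 2, 0, 1, 1, 3, 4, 5, 6, 0, 1, 2, 0, 7], [2, 6, 0, 5, 1, 7, 0, 4, 3, 3, 1, 2, 2, 4]]⟩,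
  ⟨[none, some 2, none], 0, 0,
    [[0, 1, 1, 0, 2, 2, 1, 0, 0, 1, 1, 0, 2, 2], [0, 1, 1, 0, 2, 2, 1, 0, 0, 1, 0, 2, 1, 2], [0, 1, 1, 0, 2, 2, 2, 1, 0, 0, 0, 2, 2, 1], [0, 1, 0, 2, 1, 2, 0, 2, 1, 1, 1, 2, 0, 0], [0, 1, 0, 2, 1, 2, 1, 0, 0, 1, 0, 2, 1, 2], [0, 1, 0, 2, 1, 2, 0, 2, 1, 1, 1, 2, 2, 0], [0, 0, 1, 2, 2, 2, 0, 1, 2, 0, 0, 2, 1, 1], [0, 0, 1, 2, 2, 2, 1, 0, 0, 2, 0, 1, 2, 1], [0, 0, 1, 2, 2, 1, 0, 1, 2, 2, 0, 1, 1, 0]],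
    [[3, 1, 1, 0, 2, 2, 7, 3, 6, 4, 1, 0, 2, 5], [3, 1, 1, 0, 2, 2, 7, 3, 6, 4, 6, 5, 7, 5], [7, 5, 5, 4, 6, 6, 3, 2, 4, 1, 7, 0, 0, 5], [3, 0, 2, 1, 4, 2, 6, 5, 7, 1, 1, 2, 0, 0], [2, 0, 6, 5, 7, 1, 4, 0, 3, 1, 3, 2, 4, 2], [2, 0, 2, 1, 3, 1, 5, 4, 6, 1, 0, 2, 7, 0], [7, 2, 0, 1, 6, 0, 4, 5, 3, 1, 1, 0, 2, 2], [2, 7, 0, 6, 1, 0, 5, 4, 1, 3, 1, 2, 0, 2], [6, 2, 0, 1, 5, 7, 3, 4, 2, 5, 0, 1, 1, 6]]⟩,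
  ⟨[none, some 0, some 1], 0, 3,
    [[0, 1, 1, 2, 2, 2, 0, 1, 2, 1], [0, 1, 1, 2, 2, 2, 0, 1, 2, 0], [0, 1, 1, 2, 2, 2, 0, 1, 0, 1], [0, 1, 0, 2, 1, 2, 0, 1, 2, 1], [0, 1, 0, 2, 1, 2, 0, 1, 2, 0], [0, 1, 0, 2, 1, 2, 0, 1, 0, 1], [0, 0, 1, 2, 2, 2, 1, 0, 2, 0], [0, 0, 1, 2, 2, 1, 0, 2, 1, 0], [0, 0, 1, 2, 2, 1, 1, 0, 1, 0]],
    [[5, 0, 0, 1, 1, 4, 2, 3, 4, 0], [5, 0, 0, 1, 1, 4, 2, 3, 4, 5], [5, 0, 0, 2, 1, 4, 2, 3, 0, 1], [3, 0, 2, 1, 4, 2, 0, 1, 2, 0], [3, 0, 2, 1, 4, 2, 0, 1, 2, 3], [3, 0, 3, 2, 4, 2, 0, 1, 0, 1], [4, 2, 0, 1, 3, 0, 2, 1, 0, 2], [2, 2, 0, 1, 1, 3, 5, 4, 3, 2], [3, 2, 0, 1, 2, 4, 1, 0, 3, 2]]⟩,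
  ⟨[none, some 0, some 2], 0, 1,
    [[0, 1, 1, 2, 2, 2, 0, 1, 0, 2], [0, 1, 1, 2, 2, 2, 0, 1, 0, 1], [0, 1, 1, 2, 2, 2, 0, 1, 1, 2], [0, 1, 0, 2, 2, 2, 0, 1, 0, 2], [0, 1, 0, 2, 1, 2, 0, 1, 0, 1], [0, 1, 0, 2, 1, 2, 2, 0, 0, 1], [0, 0, 1, 2, 2, 1, 1, 0, 1, 2], [0, 0, 1, 2, 2, 1, 1, 0, 1, 0], [0, 0, 1, 2, 2, 1, 1, 0, 0, 2]],
    [[5, 0, 0, 1, 1, 4, 2, 3, 2, 0], [5, 0, 0, 1, 1, 4, 2, 3, 2, 3], [5, 0, 0, 1, 1, 4, 2, 3, 0, 1], [4, 0, 2, 1, 0, 3, 1, 2, 2, 0], [3, 0, 2, 1, 4, 2, 0, 1, 2, 3], [2, 0, 2, 1, 3, 1, 4, 5, 2, 3], [3, 2, 0, 1, 2, 4, 1, 0, 0, 2], [3, 3, 0, 2, 2, 4, 1, 0, 1, 0], [3, 2, 0, 1, 2, 4, 1, 0, 3, 2]]⟩,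
  ⟨[none, some 1, some 0], 0, 2,
    [[0, 1, 1, 0, 2, 2, 0, 1, 0, 2], [0, 1, 1, 0, 2, 2, 0, 1, 0, 1], [0, 1, 1, 0, 2, 2, 0, 1, 1, 2], [0, 1, 0, 2, 2, 2, 0, 1, 0, 2], [0, 1, 0, 2, 2, 2, 0, 1, 0, 1], [0, 1, 0, 2, 2, 2, 0, 1, 1, 2], [0, 0, 1, 2, 2, 2, 0, 1, 0, 2], [0, 0, 1, 2, 2, 1, 0, 1, 0, 1], [0, 0, 1, 2, 2, 1, 2, 0, 0, 1]],
    [[3, 1, 1, 0, 2, 2, 3, 4, 3, 0], [3, 1, 1, 0, 2, 2, 3, 4, 3, 4], [3, 1, 1, 0, 2, 2, 3, 4, 0, 1], [2, 0, 5, 4, 0, 1, 2, 3, 1, 0], [2, 0, 5, 4, 0, 1, 2, 3, 1, 3], [2, 0, 5, 4, 1, 1, 2, 3, 0, 1], [2, 4, 0, 3, 1, 0, 1, 2, 2, 0], [2, 3, 0, 2, 1, 4, 0, 1, 2, 3], [2, 2, 0, 1, 1, 3, 4, 5, 2, 3]]⟩,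
  ⟨[none, some 1, some 2], 0, 1,
    [[0, 1, 1, 2, 2, 2, 0, 1, 2, 1], [0, 1, 1, 0, 2, 2, 1, 2, 0, 1], [0, 1, 1, 0, 2, 2, 0, 1, 0, 1], [0, 1, 0, 2, 2, 2, 0, 1, 2, 1], [0, 1, 0, 2, 2, 2, 0, 1, 2, 0], [0, 1, 0, 2, 2, 2, 0, 1, 0, 1], [0, 0, 1, 2, 2, 1, 0, 1, 2, 1], [0, 0, 1, 2, 2, 1, 0, 1, 2, 0], [0, 0, 1, 2, 2, 1, 0, 1, 0, 1]],
    [[2, 0, 0, 4, 1, 1, 2, 3, 4, 0], [5, 3, 3, 2, 4, 4, 0, 1, 2, 3], [3, 1, 1, 0, 2, 2, 3, 4, 0, 1], [2, 0, 5, 4, 1, 1, 2, 3, 4, 0], [2, 0, 5, 4, 0, 1, 2, 3, 4, 5], [3, 0, 5, 4, 2, 1, 2, 3, 0, 1], [2, 3, 0, 2, 1, 4, 0, 1, 2, 0], [2, 3, 0, 2, 1, 4, 0, 1, 2, 3], [3, 3, 0, 2, 2, 4, 0, 1, 0, 1]]⟩,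
  ⟨[none, some 2, some 0], 0, 2,
    [[0, 1, 1, 0, 2, 2, 1, 0, 2, 0], [0, 1, 1, 0, 2, 2, 1, 0, 2, 1], [0, 1, 1, 0, 2, 2, 1, 0, 1, 0], [0, 1, 0, 2, 2, 2, 1, 0, 2, 0], [0, 1, 0, 2, 1, 2, 0, 2, 1, 0], [0, 1, 0, 2, 1, 2, 1, 0, 1, 0], [0, 0, 1, 2, 2, 2, 0, 1, 2, 1], [0, 0, 1, 2, 2, 2, 0, 1, 2, 0], [0, 0, 1, 2, 2, 2, 0, 1, 0, 1]],
    [[3, 1, 1, 0, 2, 2, 4, 3, 0, 3], [3, 1, 1, 0, 2, 2, 4, 3, 1, 0], [3, 1, 1, 0, 2, 2, 4, 3, 4, 3], [2, 0, 4, 3, 0, 1, 2, 1, 0, 2], [2, 0, 2, 1, 3, 1, 5, 4, 3, 2], [2, 0, 3, 2, 4, 1, 1, 0, 3, 2], [5, 2, 0, 1, 4, 1, 2, 3, 4, 0], [5, 2, 0, 1, 4, 0, 2, 3, 4, 5], [5, 3, 0, 1, 4, 2, 2, 3, 0, 1]]⟩,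
  ⟨[none, some 2, some 1], 0, 3,
    [[0, 1, 1, 2, 2, 2, 1, 0, 1, 2], [0, 1, 1, 0, 2, 2, 1, 0, 1, 0], [0, 1, 1, 0, 2, 2, 2, 1, 1, 0], [0, 1, 0, 2, 1, 2, 1, 0, 1, 2], [0, 1, 0, 2, 1, 2, 1, 0, 1, 0], [0, 1, 0, 2, 1, 2, 1, 0, 0, 2], [0, 0, 1, 2, 2, 2, 0, 1, 0, 2], [0, 0, 1, 2, 2, 2, 0, 1, 0, 1], [0, 0, 1, 2, 2, 2, 0, 1, 1, 2]],
    [[2, 0, 0, 4, 1, 1, 3, 2, 0, 4], [3, 1, 1, 0, 2, 2, 4, 3, 1, 0], [5, 3, 3, 2, 4, 4, 1, 0, 3, 2], [2, 0, 3, 2, 4, 1, 1, 0, 0, 2], [3, 0, 3, 2, 4, 2, 1, 0, 1, 0], [2, 0, 3, 2, 4, 1, 1, 0, 3, 2], [5, 2, 0, 1, 4, 0, 2, 3, 1, 0], [5, 2, 0, 1, 4, 0, 2, 3, 1, 3], [5, 2, 0, 1, 4, 1, 2, 3, 0, 1]]⟩,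
  ⟨[some 0, some 1, some 0, some 1, some 0], 2, 2,
    [[0, 1, 0, 2, 1, 2, 0, 1, 0, 2], [0, 1, 0, 2, 1, 2, 0, 1, 0, 1], [0, 1, 0, 2, 2, 1, 2, 0, 0, 1], [0, 1, 0, 1, 1, 2, 0, 2, 0, 1], [0, 1, 0, 1, 1, 2, 0, 2, 0, 2], [0, 1, 0, 1, 1, 2, 1, 0, 0, 2], [0, 1, 2, 0, 2, 1, 0, 2, 0, 1], [0, 1, 2, 0, 1, 0, 1, 2, 0, 2], [0, 1, 2, 0, 1, 0, 1, 2, 2, 0]],
    [[0, 8, 7, 6, 2, 3, 4, 5, 1, 0], [0, 7, 6, 5, 1, 2, 3, 4, 0, 4], [4, 5, 1, 0, 3, 2, 6, 7, 4, 5], [0, 4, 3, 4, 1, 2, 6, 5, 0, 7], [0, 5, 4, 5, 2, 3, 7, 6, 1, 0], [0, 7, 6, 7, 4, 5, 1, 0, 3, 2], [4, 5, 6, 7, 3, 2, 1, 0, 4, 5], [0, 1, 2, 6, 7, 3, 4, 5, 6, 5], [0, 1, 2, 9, 4, 3, 7, 8, 5, 6]]⟩,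
  ⟨[some 0, some 1, some 0, some 1, some 2], 2, 1,
    [[0, 1, 0, 2, 1, 2, 1, 0, 2, 0], [0, 1, 0, 2, 2, 1, 0, 1, 2, 0], [0, 1, 0, 2, 1, 2, 1, 0, 1, 0], [0, 1, 0, 1, 2, 1, 2, 0, 1, 0], [0, 1, 0, 1, 1, 2, 0, 2, 1, 0], [0, 1, 0, 1, 1, 2, 1, 0, 1, 0], [0, 1, 2, 0, 1, 0, 1, 2, 0, 2], [0, 1, 2, 0, 2, 1, 0, 1, 2, 0], [0, 1, 2, 0, 1, 0, 1, 2, 1, 0]],
    [[0, 5, 4, 0, 2, 3, 2, 1, 0, 1], [6, 7, 3, 2, 5, 4, 0, 1, 2, 6], [0, 5, 4, 0, 1, 3, 2, 1, 2, 0], [3, 4, 0, 4, 2, 1, 2, 3, 4, 3], [0, 4, 3, 4, 1, 2, 6, 5, 1, 0], [0, 4, 3, 4, 1, 2, 1, 0, 1, 0], [0, 1, 2, 6, 4, 3, 4, 5, 6, 5], [3, 4, 5, 6, 2, 1, 0, 7, 8, 9], [0, 1, 2, 6, 4, 3, 4, 5, 1, 0]]⟩,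
  ⟨[some 0, some 1, some 0, some 2, some 0], 2, 2,
    [[0, 1, 0, 2, 1, 2, 1, 0, 2, 0], [0, 1, 0, 2, 1, 2, 0, 2, 1, 0], [0, 1, 0, 2, 1, 2, 1, 0, 1, 0], [0, 1, 0, 1, 2, 1, 2, 0, 1, 0], [0, 1, 2, 1, 2, 1, 2, 0, 1, 2], [0, 1, 0, 1, 2, 1, 2, 0, 2, 0], [0, 1, 2, 0, 1, 0, 1, 2, 0, 2], [0, 1, 2, 0, 2, 0, 2, 0, 1, 2], [0, 1, 2, 0, 1, 0, 1, 0, 1, 2]],
    [[0, 5, 4, 3, 2, 3, 2, 1, 0, 4], [0, 4, 3, 0, 1, 2, 6, 5, 4, 3], [0, 4, 3, 2, 1, 2, 1, 0, 4, 3], [3, 4, 0, 1, 2, 1, 2, 3, 4, 0], [2, 3, 4, 0, 1, 0, 1, 2, 3, 4], [4, 5, 0, 1, 3, 2, 2, 4, 0, 1], [0, 1, 2, 3, 4, 3, 4, 5, 6, 0], [1, 2, 3, 4, 0, 4, 0, 1, 2, 3], [0, 1, 2, 3, 4, 3, 4, 0, 1, 2]]⟩,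
  ⟨[some 0, some 1, some 0, some 2, some 1], 2, 3,
    [[0, 1, 0, 2, 1, 2, 0, 2, 0, 1], [0, 1, 0, 2, 1, 2, 0, 2, 0, 2], [0, 1, 0, 2, 1, 2, 1, 0, 0, 2], [0, 1, 0, 1, 1, 2, 0, 2, 0, 1], [0, 1, 0, 1, 1, 2, 0, 2, 0, 2], [0, 1, 0, 1, 2, 1, 2, 0, 0, 1], [0, 1, 2, 0, 1, 0, 2, 0, 2, 1], [0, 1, 2, 0, 1, 0, 1, 0, 1, 0], [0, 1, 2, 0, 1, 0, 1, 2, 2, 0]],
    [[0, 4, 3, 0, 1, 2, 3, 2, 3, 4], [0, 4, 3, 0, 1, 2, 3, 2, 3, 0], [0, 4, 3, 2, 1, 2, 1, 0, 3, 2], [0, 4, 3, 4, 1, 2, 3, 2, 3, 4], [0, 4, 3, 4, 1, 2, 3, 2, 3, 0], [3, 4, 0, 1, 2, 1, 2, 3, 0, 1], [0, 1, 2, 3, 4, 3, 1, 2, 1, 0], [0, 1, 2, 3, 4, 3, 4, 0, 4, 0], [0, 1, 2, 3, 4, 3, 4, 5, 0, 1]]⟩,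
  ⟨[some 0, some 1, some 2, some 0, some 1], 2, 3,
    [[0, 1, 0, 2, 0, 1, 0, 1, 2, 1], [0, 1, 0, 2, 0, 1, 2, 1, 0, 2], [0, 1, 0, 2, 0, 1, 0, 1, 0, 1], [0, 1, 0, 1, 0, 1, 0, 1, 2, 1], [0, 1, 0, 1, 0, 1, 2, 1, 0, 2], [0, 1, 0, 1, 0, 1, 0, 1, 0, 1], [0, 1, 2, 0, 2, 1, 0, 1, 2, 1], [0, 1, 2, 0, 2, 1, 0, 1, 2, 0], [0, 1, 2, 0, 2, 1, 0, 1, 0, 1]],
    [[0, 2, 1, 0, 1, 2, 0, 2, 3, 2], [0, 2, 1, 0, 1, 2, 3, 2, 1, 0], [0, 2, 1, 0, 1, 2, 0, 2, 0, 2], [0, 1, 0, 1, 0, 1, 0, 1, 2, 1], [0, 1, 0, 2, 1, 2, 3, 2, 1, 0], [0, 1, 0, 1, 0, 1, 0, 1, 0, 1], [0, 1, 2, 3, 2, 1, 0, 1, 2, 0], [0, 1, 2, 3, 2, 1, 0, 1, 2, 3], [0, 1, 2, 3, 2, 1, 0, 1, 0, 1]]⟩,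
  ⟨[some 0, some 1, some 2, some 0, some 2], 2, 1,
    [[0, 1, 0, 2, 0, 1, 2, 1, 2, 0], [0, 1, 0, 2, 0, 1, 0, 1, 2, 1], [0, 1, 0, 2, 0, 2, 0, 2, 2, 1], [0, 1, 0, 1, 0, 1, 2, 1, 2, 0], [0, 1, 0, 1, 0, 1, 0, 1, 2, 1], [0, 1, 0, 1, 0, 1, 0, 1, 1, 2], [0, 1, 2, 0, 2, 1, 0, 1, 0, 2], [0, 1, 2, 0, 2, 1, 0, 1, 0, 1], [0, 1, 2, 0, 2, 1, 0, 1, 1, 2]],
    [[0, 2, 1, 0, 1, 2, 3, 2, 0, 4], [0, 2, 1, 0, 3, 4, 0, 2, 2, 1], [1, 2, 1, 0, 4, 0, 1, 0, 3, 2], [0, 1, 0, 2, 1, 2, 3, 1, 0, 4], [0, 1, 0, 4, 3, 4, 0, 1, 2, 1], [0, 1, 0, 1, 0, 4, 3, 4, 1, 2], [0, 1, 3, 4, 3, 2, 1, 2, 4, 0], [0, 1, 2, 3, 2, 1, 0, 1, 3, 4], [0, 1, 4, 5, 4, 3, 2, 3, 0, 1]]⟩,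
  ⟨[some 0, some 1, some 2, some 1, some 2], 2, 1,
    [[0, 1, 0, 2, 1, 2, 1, 0, 2, 0], [0, 1, 0, 2, 1, 2, 1, 0, 2, 1], [0, 1, 0, 2, 0, 2, 1, 2, 1, 0], [0, 1, 0, 1, 2, 1, 1, 0, 2, 0], [0, 1, 0, 1, 2, 1, 2, 0, 1, 2], [0, 1, 0, 1, 0, 1, 1, 2, 1, 0], [0, 1, 2, 0, 2, 1, 1, 0, 2, 0], [0, 1, 2, 0, 2, 1, 0, 1, 2, 0], [0, 1, 2, 0, 2, 1, 0, 1, 0, 2]],
    [[4, 5, 4, 3, 2, 3, 5, 1, 0, 4], [5, 6, 5, 4, 3, 4, 6, 2, 1, 0], [1, 2, 1, 0, 4, 0, 2, 3, 2, 1], [0, 1, 0, 1, 3, 2, 5, 4, 0, 1], [0, 2, 1, 2, 3, 1, 0, 4, 5, 6], [0, 1, 0, 4, 3, 4, 1, 2, 1, 0], [0, 1, 6, 7, 3, 2, 5, 4, 0, 1], [0, 1, 2, 9, 8, 7, 3, 4, 5, 6], [0, 1, 2, 6, 5, 1, 3, 4, 3, 2]]⟩,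
  ⟨[some 0, some 2, some 0, some 1, some 0], 2, 2,
    [[0, 1, 2, 1, 2, 0, 1, 0, 1, 2], [0, 1, 2, 1, 2, 0, 1, 0, 1, 0], [0, 1, 2, 1, 2, 0, 1, 0, 0, 2], [0, 1, 1, 2, 0, 2, 1, 2, 1, 0], [0, 1, 1, 2, 1, 0, 1, 0, 2, 0], [0, 1, 1, 2, 1, 2, 1, 2, 2, 0], [0, 1, 0, 1, 0, 2, 1, 2, 1, 0], [0, 1, 0, 1, 0, 2, 1, 2, 1, 2], [0, 1, 0, 2, 0, 2, 1, 2, 2, 0]],
    [[0, 4, 2, 1, 2, 3, 4, 3, 0, 5], [0, 4, 2, 1, 2, 3, 4, 3, 1, 0], [0, 4, 2, 1, 2, 3, 4, 3, 6, 5], [2, 3, 0, 1, 5, 4, 1, 2, 6, 0], [3, 4, 1, 2, 1, 0, 4, 0, 2, 3], [2, 3, 0, 1, 0, 4, 3, 4, 1, 2], [0, 1, 3, 4, 3, 2, 1, 2, 4, 0], [0, 1, 2, 4, 3, 2, 0, 1, 4, 5], [1, 2, 4, 0, 4, 3, 2, 3, 0, 1]]⟩,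
  ⟨[some 0, some 2, some 0, some 1, some 2], 2, 1,
    [[0, 1, 2, 1, 2, 0, 1, 0, 2, 0], [0, 1, 2, 1, 2, 0, 1, 0, 2, 1], [0, 1, 2, 1, 2, 0, 1, 0, 1, 0], [0, 1, 1, 2, 1, 0, 1, 2, 0, 2], [0, 1, 1, 2, 1, 0, 2, 0, 1, 2], [0, 1, 1, 2, 1, 0, 1, 0, 1, 0], [0, 1, 0, 1, 0, 2, 0, 2, 1, 2], [0, 1, 0, 1, 0, 2, 1, 2, 0, 1], [0, 1, 0, 1, 0, 2, 0, 1, 0, 1]],
    [[0, 4, 2, 1, 2, 3, 4, 3, 0, 3], [0, 4, 2, 1, 2, 3, 4, 3, 1, 0], [0, 4, 2, 1, 2, 3, 4, 3, 4, 3], [3, 4, 0, 2, 1, 0, 1, 2, 3, 2], [4, 5, 2, 3, 2, 1, 0, 1, 2, 3], [3, 4, 1, 2, 1, 0, 1, 0, 1, 0], [0, 1, 2, 4, 3, 2, 3, 1, 0, 1], [0, 1, 2, 4, 3, 2, 0, 1, 2, 4], [0, 1, 0, 4, 3, 2, 3, 4, 0, 4]]⟩,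
  ⟨[some 0, some 2, some 0, some 2, some 0], 2, 2,
    [[0, 1, 2, 1, 0, 2, 0, 1, 2, 1], [0, 1, 2, 1, 0, 2, 1, 2, 0, 1], [0, 1, 2, 1, 0, 2, 0, 1, 0, 1], [0, 1, 1, 2, 0, 2, 2, 1, 0, 1], [0, 1, 1, 2, 0, 2, 0, 1, 2, 0], [0, 1, 1, 2, 0, 2, 0, 1, 0, 1], [0, 1, 0, 1, 0, 2, 2, 1, 0, 1], [0, 1, 0, 1, 0, 2, 1, 2, 0, 1], [0, 1, 0, 1, 0, 2, 1, 2, 1, 0]],
    [[0, 1, 5, 4, 3, 2, 6, 7, 8, 0], [0, 1, 7, 6, 5, 4, 0, 1, 2, 3], [0, 1, 5, 4, 3, 2, 6, 7, 0, 1], [2, 3, 0, 1, 5, 4, 7, 6, 0, 1], [3, 4, 1, 2, 6, 5, 0, 7, 8, 9], [3, 4, 1, 2, 6, 5, 0, 7, 0, 1], [0, 1, 6, 7, 3, 2, 5, 4, 0, 1], [0, 1, 0, 7, 6, 5, 1, 2, 3, 4], [0, 1, 0, 7, 6, 2, 1, 5, 4, 3]]⟩,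
  ⟨[some 0, some 2, some 0, some 2, some 1], 2, 3,
    [[0, 1, 2, 1, 0, 2, 1, 2, 1, 0], [0, 1, 2, 1, 0, 2, 1, 2, 0, 2], [0, 1, 2, 1, 0, 2, 0, 1, 1, 2], [0, 1, 1, 2, 1, 0, 2, 0, 2, 1], [0, 1, 1, 2, 1, 0, 2, 0, 1, 0], [0, 1, 1, 2, 0, 2, 0, 1, 1, 2], [0, 1, 0, 1, 0, 2, 1, 2, 1, 0], [0, 1, 0, 1, 0, 2, 1, 2, 0, 2], [0, 1, 0, 1, 2, 0, 2, 1, 1, 0]],
    [[0, 1, 5, 4, 3, 2, 1, 2, 1, 0], [0, 1, 5, 4, 3, 2, 0, 1, 3, 1], [0, 1, 5, 4, 3, 2, 6, 7, 0, 1], [5, 6, 0, 4, 3, 2, 1, 2, 1, 0], [5, 6, 0, 4, 3, 0, 1, 2, 3, 2], [5, 6, 3, 4, 8, 7, 2, 9, 0, 1], [0, 1, 0, 4, 3, 2, 1, 2, 1, 0], [0, 1, 0, 4, 3, 2, 1, 2, 3, 2], [0, 6, 2, 3, 4, 5, 1, 0, 6, 2]]⟩,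
  ⟨[some 0, some 2, some 1, some 0, some 1], 2, 3,
    [[0, 1, 2, 1, 0, 1, 0, 2, 1, 2], [0, 1, 2, 1, 2, 0, 2, 1, 0, 2], [0, 1, 2, 1, 0, 1, 0, 1, 0, 2], [0, 1, 1, 2, 0, 2, 0, 1, 2, 1], [0, 1, 1, 2, 0, 2, 0, 1, 2, 0], [0, 1, 1, 2, 0, 2, 0, 1, 0, 1], [0, 1, 0, 1, 0, 1, 0, 2, 1, 2], [0, 1, 0, 1, 0, 1, 0, 1, 2, 0], [0, 1, 0, 1, 0, 1, 0, 1, 0, 2]],
    [[0, 3, 4, 3, 2, 3, 2, 1, 0, 4], [0, 1, 2, 1, 3, 4, 3, 2, 1, 0], [0, 1, 2, 1, 0, 1, 0, 4, 3, 2], [2, 3, 0, 1, 2, 1, 2, 3, 4, 0], [2, 3, 0, 1, 2, 1, 2, 3, 4, 5], [2, 4, 0, 1, 3, 2, 2, 4, 0, 1], [0, 3, 0, 3, 2, 3, 2, 1, 0, 4], [0, 1, 0, 1, 0, 4, 0, 1, 2, 3], [0, 1, 0, 1, 0, 1, 0, 4, 3, 2]]⟩,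
  ⟨[some 0, some 2, some 1, some 0, some 2], 2, 1,
    [[0, 1, 2, 1, 0, 1, 0, 1, 0, 2], [0, 1, 2, 1, 0, 1, 0, 1, 0, 1], [0, 1, 2, 1, 0, 1, 0, 2, 2, 1], [0, 1, 1, 2, 0, 2, 0, 1, 0, 2], [0, 1, 1, 2, 0, 2, 0, 1, 0, 1], [0, 1, 1, 2, 0, 2, 0, 1, 1, 2], [0, 1, 0, 1, 0, 1, 0, 1, 0, 2], [0, 1, 0, 1, 0, 1, 0, 1, 0, 1], [0, 1, 0, 1, 0, 1, 0, 2, 2, 1]],
    [[0, 1, 3, 2, 0, 2, 1, 2, 1, 0], [0, 1, 2, 1, 0, 1, 0, 1, 0, 1], [0, 2, 3, 2, 1, 2, 1, 0, 3, 2], [2, 3, 0, 1, 2, 1, 2, 3, 2, 0], [2, 3, 0, 1, 2, 1, 2, 3, 2, 3], [2, 3, 0, 1, 2, 1, 2, 3, 0, 1], [0, 1, 0, 2, 0, 2, 1, 2, 1, 0], [0, 1, 0, 1, 0, 1, 0, 1, 0, 1], [0, 2, 0, 2, 1, 2, 1, 0, 3, 2]]⟩,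
  ⟨[some 0, some 2, some 1, some 2, some 1], 2, 3,
    [[0, 1, 2, 1, 2, 0, 1, 0, 1, 2], [0, 1, 2, 1, 2, 0, 1, 0, 1, 0], [0, 1, 2, 1, 2, 0, 1, 0, 0, 2], [0, 1, 1, 2, 0, 2, 1, 0, 1, 2], [0, 1, 1, 2, 0, 2, 0, 1, 2, 1], [0, 1, 1, 2, 0, 2, 0, 1, 1, 2], [0, 1, 0, 1, 0, 2, 1, 0, 1, 2], [0, 1, 0, 1, 0, 1, 0, 2, 1, 2], [0, 1, 0, 1, 0, 2, 1, 2, 2, 0]],
    [[0, 1, 2, 1, 2, 3, 4, 0, 0, 5], [0, 1, 2, 1, 2, 3, 4, 0, 1, 0], [0, 1, 2, 1, 2, 3, 4, 0, 6, 5], [2, 6, 0, 1, 5, 4, 3, 2, 6, 7], [5, 6, 0, 4, 5, 1, 2, 3, 4, 3], [8, 9, 0, 7, 2, 1, 5, 6, 3, 4], [0, 4, 3, 4, 3, 2, 1, 0, 4, 5], [0, 1, 0, 1, 0, 4, 3, 2, 1, 2], [0, 5, 4, 5, 4, 3, 2, 6, 0, 1]]⟩,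
  ⟨[some 1, some 0, some 1, some 0, some 1], 3, 3,
    [[0, 1, 2, 1, 0, 2, 0, 1, 2, 1], [0, 1, 2, 1, 0, 2, 1, 2, 0, 1], [0, 1, 2, 1, 0, 2, 0, 1, 0, 1], [0, 1, 1, 2, 0, 2, 2, 1, 0, 1], [0, 1, 1, 2, 0, 2, 0, 1, 2, 0], [0, 1, 1, 2, 0, 2, 0, 1, 0, 1], [0, 1, 0, 1, 0, 2, 2, 1, 0, 1], [0, 1, 0, 1, 0, 2, 1, 2, 0, 1], [0, 1, 0, 1, 0, 2, 1, 2, 1, 0]],
    [[0, 1, 5, 4, 3, 2, 6, 7, 8, 0], [0, 1, 7, 6, 5, 4, 0, 1, 2, 3], [0, 1, 5, 4, 3, 2, 6, 7, 0, 1], [2, 3, 0, 1, 5, 4, 7, 6, 0, 1], [3, 4, 1, 2, 6, 5, 0, 7, 8, 9], [3, 4, 1, 2, 6, 5, 0, 7, 0, 1], [0, 1, 6, 7, 3, 2, 5, 4, 0, 1], [0, 1, 0, 7, 6, 5, 1, 2, 3, 4], [0, 1, 0, 7, 6, 2, 1, 5, 4, 3]]⟩,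
  ⟨[some 1, some 0, some 1, some 0, some 2], 3, 1,
    [[0, 1, 2, 1, 0, 2, 1, 2, 1, 0], [0, 1, 2, 1, 0, 2, 1, 2, 0, 2], [0, 1, 2, 1, 0, 2, 0, 1, 1, 2], [0, 1, 1, 2, 1, 0, 2, 0, 2, 1], [0, 1, 1, 2, 1, 0, 2, 0, 1, 0], [0, 1, 1, 2, 0, 2, 0, 1, 1, 2], [0, 1, 0, 1, 0, 2, 1, 2, 1, 0], [0, 1, 0, 1, 0, 2, 1, 2, 0, 2], [0, 1, 0, 1, 2, 0, 2, 1, 1, 0]],
    [[0, 1, 5, 4, 3, 2, 1, 2, 1, 0], [0, 1, 5, 4, 3, 2, 0, 1, 3, 1], [0, 1, 5, 4, 3, 2, 6, 7, 0, 1], [5, 6, 0, 4, 3, 2, 1, 2, 1, 0], [5, 6, 0, 4, 3, 0, 1, 2, 3, 2], [5, 6, 3, 4, 8, 7, 2, 9, 0, 1], [0, 1, 0, 4, 3, 2, 1, 2, 1, 0], [0, 1, 0, 4, 3, 2, 1, 2, 3, 2], [0, 6, 2, 3, 4, 5, 1, 0, 6, 2]]⟩,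
  ⟨[some 1, some 0, some 1, some 2, some 0], 3, 2,
    [[0, 1, 2, 1, 2, 0, 1, 0, 2, 0], [0, 1, 2, 1, 2, 0, 1, 0, 2, 1], [0, 1, 2, 1, 2, 0, 1, 0, 1, 0], [0, 1, 1, 2, 1, 0, 1, 2, 0, 2], [0, 1, 1, 2, 1, 0, 2, 0, 1, 2], [0, 1, 1, 2, 1, 0, 1, 0, 1, 0], [0, 1, 0, 1, 0, 2, 0, 2, 1, 2], [0, 1, 0, 1, 0, 2, 1, 2, 0, 1], [0, 1, 0, 1, 0, 2, 0, 1, 0, 1]],
    [[0, 4, 2, 1, 2, 3, 4, 3, 0, 3], [0, 4, 2, 1, 2, 3, 4, 3, 1, 0], [0, 4, 2, 1, 2, 3, 4, 3, 4, 3], [3, 4, 0, 2, 1, 0, 1, 2, 3, 2], [4, 5, 2, 3, 2, 1, 0, 1, 2, 3], [3, 4, 1, 2, 1, 0, 1, 0, 1, 0], [0, 1, 2, 4, 3, 2, 3, 1, 0, 1], [0, 1, 2, 4, 3, 2, 0, 1, 2, 4], [0, 1, 0, 4, 3, 2, 3, 4, 0, 4]]⟩,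
  ⟨[some 1, some 0, some 1, some 2, some 1], 3, 3,
    [[0, 1, 2, 1, 2, 0, 1, 0, 1, 2], [0, 1, 2, 1, 2, 0, 1, 0, 1, 0], [0, 1, 2, 1, 2, 0, 1, 0, 0, 2], [0, 1, 1, 2, 0, 2, 1, 2, 1, 0], [0, 1, 1, 2, 1, 0, 1, 0, 2, 0], [0, 1, 1, 2, 1, 2, 1, 2, 2, 0], [0, 1, 0, 1, 0, 2, 1, 2, 1, 0], [0, 1, 0, 1, 0, 2, 1, 2, 1, 2], [0, 1, 0, 2, 0, 2, 1, 2, 2, 0]],
    [[0, 4, 2, 1, 2, 3, 4, 3, 0, 5], [0, 4, 2, 1, 2, 3, 4, 3, 1, 0], [0, 4, 2, 1, 2, 3, 4, 3, 6, 5], [2, 3, 0, 1, 5, 4, 1, 2, 6, 0], [3, 4, 1, 2, 1, 0, 4, 0, 2, 3], [2, 3, 0, 1, 0, 4, 3, 4, 1, 2], [0, 1, 3, 4, 3, 2, 1, 2, 4, 0], [0, 1, 2, 4, 3, 2, 0, 1, 4, 5], [1, 2, 4, 0, 4, 3, 2, 3, 0, 1]]⟩,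
  ⟨[some 1, some 0, some 2, some 0, some 2], 3, 1,
    [[0, 1, 2, 1, 2, 0, 1, 0, 1, 2], [0, 1, 2, 1, 2, 0, 1, 0, 1, 0], [0, 1, 2, 1, 2, 0, 1, 0, 0, 2], [0, 1, 1, 2, 0, 2, 1, 0, 1, 2], [0, 1, 1, 2, 0, 2, 0, 1, 2, 1], [0, 1, 1, 2, 0, 2, 0, 1, 1, 2], [0, 1, 0, 1, 0, 2, 1, 0, 1, 2], [0, 1, 0, 1, 0, 1, 0, 2, 1, 2], [0, 1, 0, 1, 0, 2, 1, 2, 2, 0]],
    [[0, 1, 2, 1, 2, 3, 4, 0, 0, 5], [0, 1, 2, 1, 2, 3, 4, 0, 1, 0], [0, 1, 2, 1, 2, 3, 4, 0, 6, 5], [2, 6, 0, 1, 5, 4, 3, 2, 6, 7], [5, 6, 0, 4, 5, 1, 2, 3, 4, 3], [8, 9, 0, 7, 2, 1, 5, 6, 3, 4], [0, 4, 3, 4, 3, 2, 1, 0, 4, 5], [0, 1, 0, 1, 0, 4, 3, 2, 1, 2], [0, 5, 4, 5, 4, 3, 2, 6, 0, 1]]⟩,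
  ⟨[some 1, some 0, some 2, some 1, some 0], 3, 2,
    [[0, 1, 2, 1, 0, 1, 0, 1, 0, 2], [0, 1, 2, 1, 0, 1, 0, 1, 0, 1], [0, 1, 2, 1, 0, 1, 0, 2, 2, 1], [0, 1, 1, 2, 0, 2, 0, 1, 0, 2], [0, 1, 1, 2, 0, 2, 0, 1, 0, 1], [0, 1, 1, 2, 0, 2, 0, 1, 1, 2], [0, 1, 0, 1, 0, 1, 0, 1, 0, 2], [0, 1, 0, 1, 0, 1, 0, 1, 0, 1], [0, 1, 0, 1, 0, 1, 0, 2, 2, 1]],
    [[0, 1, 3, 2, 0, 2, 1, 2, 1, 0], [0, 1, 2, 1, 0, 1, 0, 1, 0, 1], [0, 2, 3, 2, 1, 2, 1, 0, 3, 2], [2, 3, 0, 1, 2, 1, 2, 3, 2, 0], [2, 3, 0, 1, 2, 1, 2, 3, 2, 3], [2, 3, 0, 1, 2, 1, 2, 3, 0, 1], [0, 1, 0, 2, 0, 2, 1, 2, 1, 0], [0, 1, 0, 1, 0, 1, 0, 1, 0, 1], [0, 2, 0, 2, 1, 2, 1, 0, 3, 2]]⟩,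
  ⟨[some 1, some 0, some 2, some 1, some 2], 3, 1,
    [[0, 1, 2, 1, 0, 1, 0, 2, 1, 2], [0, 1, 2, 1, 2, 0, 2, 1, 0, 2], [0, 1, 2, 1, 0, 1, 0, 1, 0, 2], [0, 1, 1, 2, 0, 2, 0, 1, 2, 1], [0, 1, 1, 2, 0, 2, 0, 1, 2, 0], [0, 1, 1, 2, 0, 2, 0, 1, 0, 1], [0, 1, 0, 1, 0, 1, 0, 2, 1, 2], [0, 1, 0, 1, 0, 1, 0, 1, 2, 0], [0, 1, 0, 1, 0, 1, 0, 1, 0, 2]],
    [[0, 3, 4, 3, 2, 3, 2, 1, 0, 4], [0, 1, 2, 1, 3, 4, 3, 2, 1, 0], [0, 1, 2, 1, 0, 1, 0, 4, 3, 2], [2, 3, 0, 1, 2, 1, 2, 3, 4, 0], [2, 3, 0, 1, 2, 1, 2, 3, 4, 5], [2, 4, 0, 1, 3, 2, 2, 4, 0, 1], [0, 3, 0, 3, 2, 3, 2, 1, 0, 4], [0, 1, 0, 1, 0, 4, 0, 1, 2, 3], [0, 1, 0, 1, 0, 1, 0, 4, 3, 2]]⟩,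
  ⟨[some 1, some 2, some 0, some 1, some 0], 3, 2,
    [[0, 1, 0, 2, 0, 1, 2, 1, 2, 0], [0, 1, 0, 2, 0, 1, 0, 1, 2, 1], [0, 1, 0, 2, 0, 2, 0, 2, 2, 1], [0, 1, 0, 1, 0, 1, 2, 1, 2, 0], [0, 1, 0, 1, 0, 1, 0, 1, 2, 1], [0, 1, 0, 1, 0, 1, 0, 1, 1, 2], [0, 1, 2, 0, 2, 1, 0, 1, 0, 2], [0, 1, 2, 0, 2, 1, 0, 1, 0, 1], [0, 1, 2, 0, 2, 1, 0, 1, 1, 2]],
    [[0, 2, 1, 0, 1, 2, 3, 2, 0, 4], [0, 2, 1, 0, 3, 4, 0, 2, 2, 1], [1, 2, 1, 0, 4, 0, 1, 0, 3, 2], [0, 1, 0, 2, 1, 2, 3, 1, 0, 4], [0, 1, 0, 4, 3, 4, 0, 1, 2, 1], [0, 1, 0, 1, 0, 4, 3, 4, 1, 2], [0, 1, 3, 4, 3, 2, 1, 2, 4, 0], [0, 1, 2, 3, 2, 1, 0, 1, 3, 4], [0, 1, 4, 5, 4, 3, 2, 3, 0, 1]]⟩,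
  ⟨[some 1, some 2, some 0, some 1, some 2], 3, 1,
    [[0, 1, 0, 2, 0, 1, 0, 1, 2, 1], [0, 1, 0, 2, 0, 1, 2, 1, 0, 2], [0, 1, 0, 2, 0, 1, 0, 1, 0, 1], [0, 1, 0, 1, 0, 1, 0, 1, 2, 1], [0, 1, 0, 1, 0, 1, 2, 1, 0, 2], [0, 1, 0, 1, 0, 1, 0, 1, 0, 1], [0, 1, 2, 0, 2, 1, 0, 1, 2, 1], [0, 1, 2, 0, 2, 1, 0, 1, 2, 0], [0, 1, 2, 0, 2, 1, 0, 1, 0, 1]],
    [[0, 2, 1, 0, 1, 2, 0, 2, 3, 2], [0, 2, 1, 0, 1, 2, 3, 2, 1, 0], [0, 2, 1, 0, 1, 2, 0, 2, 0, 2], [0, 1, 0, 1, 0, 1, 0, 1, 2, 1], [0, 1, 0, 2, 1, 2, 3, 2, 1, 0], [0, 1, 0, 1, 0, 1, 0, 1, 0, 1], [0, 1, 2, 3, 2, 1, 0, 1, 2, 0], [0, 1, 2, 3, 2, 1, 0, 1, 2, 3], [0, 1, 2, 3, 2, 1, 0, 1, 0, 1]]⟩,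
  ⟨[some 1, some 2, some 0, some 2, some 0], 3, 2,
    [[0, 1, 0, 2, 1, 2, 1, 0, 2, 0], [0, 1, 0, 2, 1, 2, 1, 0, 2, 1], [0, 1, 0, 2, 0, 2, 1, 2, 1, 0], [0, 1, 0, 1, 2, 1, 1, 0, 2, 0], [0, 1, 0, 1, 2, 1, 2, 0, 1, 2], [0, 1, 0, 1, 0, 1, 1, 2, 1, 0], [0, 1, 2, 0, 2, 1, 1, 0, 2, 0], [0, 1, 2, 0, 2, 1, 0, 1, 2, 0], [0, 1, 2, 0, 2, 1, 0, 1, 0, 2]],
    [[4, 5, 4, 3, 2, 3, 5, 1, 0, 4], [5, 6, 5, 4, 3, 4, 6, 2, 1, 0], [1, 2, 1, 0, 4, 0, 2, 3, 2, 1], [0, 1, 0, 1, 3, 2, 5, 4, 0, 1], [0, 2, 1, 2, 3, 1, 0, 4, 5, 6], [0, 1, 0, 4, 3, 4, 1, 2, 1, 0], [0, 1, 6, 7, 3, 2, 5, 4, 0, 1], [0, 1, 2, 9, 8, 7, 3, 4, 5, 6], [0, 1, 2, 6, 5, 1, 3, 4, 3, 2]]⟩,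
  ⟨[some 1, some 2, some 1, some 0, some 1], 3, 3,
    [[0, 1, 0, 2, 1, 2, 1, 0, 2, 0], [0, 1, 0, 2, 1, 2, 0, 2, 1, 0], [0, 1, 0, 2, 1, 2, 1, 0, 1, 0], [0, 1, 0, 1, 2, 1, 2, 0, 1, 0], [0, 1, 2, 1, 2, 1, 2, 0, 1, 2], [0, 1, 0, 1, 2, 1, 2, 0, 2, 0], [0, 1, 2, 0, 1, 0, 1, 2, 0, 2], [0, 1, 2, 0, 2, 0, 2, 0, 1, 2], [0, 1, 2, 0, 1, 0, 1, 0, 1, 2]],
    [[0, 5, 4, 3, 2, 3, 2, 1, 0, 4], [0, 4, 3, 0, 1, 2, 6, 5, 4, 3], [0, 4, 3, 2, 1, 2, 1, 0, 4, 3], [3, 4, 0, 1, 2, 1, 2, 3, 4, 0], [2, 3, 4, 0, 1, 0, 1, 2, 3, 4], [4, 5, 0, 1, 3, 2, 2, 4, 0, 1], [0, 1, 2, 3, 4, 3, 4, 5, 6, 0], [1, 2, 3, 4, 0, 4, 0, 1, 2, 3], [0, 1, 2, 3, 4, 3, 4, 0, 1, 2]]⟩,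
  ⟨[some 1, some 2, some 1, some 0, some 2], 3, 1,
    [[0, 1, 0, 2, 1, 2, 0, 2, 0, 1], [0, 1, 0, 2, 1, 2, 0, 2, 0, 2], [0, 1, 0, 2, 1, 2, 1, 0, 0, 2], [0, 1, 0, 1, 1, 2, 0, 2, 0, 1], [0, 1, 0, 1, 1, 2, 0, 2, 0, 2], [0, 1, 0, 1, 2, 1, 2, 0, 0, 1], [0, 1, 2, 0, 1, 0, 2, 0, 2, 1], [0, 1, 2, 0, 1, 0, 1, 0, 1, 0], [0, 1, 2, 0, 1, 0, 1, 2, 2, 0]],
    [[0, 4, 3, 0, 1, 2, 3, 2, 3, 4], [0, 4, 3, 0, 1, 2, 3, 2, 3, 0], [0, 4, 3, 2, 1, 2, 1, 0, 3, 2], [0, 4, 3, 4, 1, 2, 3, 2, 3, 4], [0, 4, 3, 4, 1, 2, 3, 2, 3, 0], [3, 4, 0, 1, 2, 1, 2, 3, 0, 1], [0, 1, 2, 3, 4, 3, 1, 2, 1, 0], [0, 1, 2, 3, 4, 3, 4, 0, 4, 0], [0, 1, 2, 3, 4, 3, 4, 5, 0, 1]]⟩,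
  ⟨[some 1, some 2, some 1, some 2, some 0], 3, 2,
    [[0, 1, 0, 2, 1, 2, 1, 0, 2, 0], [0, 1, 0, 2, 2, 1, 0, 1, 2, 0], [0, 1, 0, 2, 1, 2, 1, 0, 1, 0], [0, 1, 0, 1, 2, 1, 2, 0, 1, 0], [0, 1, 0, 1, 1, 2, 0, 2, 1, 0], [0, 1, 0, 1, 1, 2, 1, 0, 1, 0], [0, 1, 2, 0, 1, 0, 1, 2, 0, 2], [0, 1, 2, 0, 2, 1, 0, 1, 2, 0], [0, 1, 2, 0, 1, 0, 1, 2, 1, 0]],
    [[0, 5, 4, 0, 2, 3, 2, 1, 0, 1], [6, 7, 3, 2, 5, 4, 0, 1, 2, 6], [0, 5, 4, 0, 1, 3, 2, 1, 2, 0], [3, 4, 0, 4, 2, 1, 2, 3, 4, 3], [0, 4, 3, 4, 1, 2, 6, 5, 1, 0], [0, 4, 3, 4, 1, 2, 1, 0, 1, 0], [0, 1, 2, 6, 4, 3, 4, 5, 6, 5], [3, 4, 5, 6, 2, 1, 0, 7, 8, 9], [0, 1, 2, 6, 4, 3, 4, 5, 1, 0]]⟩,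
  ⟨[some 1, some 2, some 1, some 2, some 1], 3, 3,
    [[0, 1, 0, 2, 1, 2, 0, 1, 0, 2], [0, 1, 0, 2, 1, 2, 0, 1, 0, 1], [0, 1, 0, 2, 2, 1, 2, 0, 0, 1], [0, 1, 0, 1, 1, 2, 0, 2, 0, 1], [0, 1, 0, 1, 1, 2, 0, 2, 0, 2], [0, 1, 0, 1, 1, 2, 1, 0, 0, 2], [0, 1, 2, 0, 2, 1, 0, 2, 0, 1], [0, 1, 2, 0, 1, 0, 1, 2, 0, 2], [0, 1, 2, 0, 1, 0, 1, 2, 2, 0]],
    [[0, 8, 7, 6, 2, 3, 4, 5, 1, 0], [0, 7, 6, 5, 1, 2, 3, 4, 0, 4], [4, 5, 1, 0, 3, 2, 6, 7, 4, 5], [0, 4, 3, 4, 1, 2, 6, 5, 0, 7], [0, 5, 4, 5, 2, 3, 7, 6, 1, 0], [0, 7, 6, 7, 4, 5, 1, 0, 3, 2], [4, 5, 6, 7, 3, 2, 1, 0, 4, 5], [0, 1, 2, 6, 7, 3, 4, 5, 6, 5], [0, 1, 2, 9, 4, 3, 7, 8, 5, 6]]⟩,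
  ⟨[some 2, some 0, some 1, some 0, some 1], 1, 3,
    [[0, 1, 0, 2, 1, 2, 1, 0, 2, 0], [0, 1, 0, 2, 1, 2, 1, 0, 2, 1], [0, 1, 0, 2, 0, 2, 1, 2, 1, 0], [0, 1, 0, 1, 2, 1, 1, 0, 2, 0], [0, 1, 0, 1, 2, 1, 2, 0, 1, 2], [0, 1, 0, 1, 0, 1, 1, 2, 1, 0], [0, 1, 2, 0, 2, 1, 1, 0, 2, 0], [0, 1, 2, 0, 2, 1, 0, 1, 2, 0], [0, 1, 2, 0, 2, 1, 0, 1, 0, 2]],
    [[4, 5, 4, 3, 2, 3, 5, 1, 0, 4], [5, 6, 5, 4, 3, 4, 6, 2, 1, 0], [1, 2, 1, 0, 4, 0, 2, 3, 2, 1], [0, 1, 0, 1, 3, 2, 5, 4, 0, 1], [0, 2, 1, 2, 3, 1, 0, 4, 5, 6], [0, 1, 0, 4, 3, 4, 1, 2, 1, 0], [0, 1, 6, 7, 3, 2, 5, 4, 0, 1], [0, 1, 2, 9, 8, 7, 3, 4, 5, 6], [0, 1, 2, 6, 5, 1, 3, 4, 3, 2]]⟩,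
  ⟨[some 2, some 0, some 1, some 2, some 0], 1, 2,
    [[0, 1, 0, 2, 0, 1, 0, 1, 2, 1], [0, 1, 0, 2, 0, 1, 2, 1, 0, 2], [0, 1, 0, 2, 0, 1, 0, 1, 0, 1], [0, 1, 0, 1, 0, 1, 0, 1, 2, 1], [0, 1, 0, 1, 0, 1, 2, 1, 0, 2], [0, 1, 0, 1, 0, 1, 0, 1, 0, 1], [0, 1, 2, 0, 2, 1, 0, 1, 2, 1], [0, 1, 2, 0, 2, 1, 0, 1, 2, 0], [0, 1, 2, 0, 2, 1, 0, 1, 0, 1]],
    [[0, 2, 1, 0, 1, 2, 0, 2, 3, 2], [0, 2, 1, 0, 1, 2, 3, 2, 1, 0], [0, 2, 1, 0, 1, 2, 0, 2, 0, 2], [0, 1, 0, 1, 0, 1, 0, 1, 2, 1], [0, 1, 0, 2, 1, 2, 3, 2, 1, 0], [0, 1, 0, 1, 0, 1, 0, 1, 0, 1], [0, 1, 2, 3, 2, 1, 0, 1, 2, 0], [0, 1, 2, 3, 2, 1, 0, 1, 2, 3], [0, 1, 2, 3, 2, 1, 0, 1, 0, 1]]⟩,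
  ⟨[some 2, some 0, some 1, some 2, some 1], 1, 3,
    [[0, 1, 0, 2, 0, 1, 2, 1, 2, 0], [0, 1, 0, 2, 0, 1, 0, 1, 2, 1], [0, 1, 0, 2, 0, 2, 0, 2, 2, 1], [0, 1, 0, 1, 0, 1, 2, 1, 2, 0], [0, 1, 0, 1, 0, 1, 0, 1, 2, 1], [0, 1, 0, 1, 0, 1, 0, 1, 1, 2], [0, 1, 2, 0, 2, 1, 0, 1, 0, 2], [0, 1, 2, 0, 2, 1, 0, 1, 0, 1], [0, 1, 2, 0, 2, 1, 0, 1, 1, 2]],
    [[0, 2, 1, 0, 1, 2, 3, 2, 0, 4], [0, 2, 1, 0, 3, 4, 0, 2, 2, 1], [1, 2, 1, 0, 4, 0, 1, 0, 3, 2], [0, 1, 0, 2, 1, 2, 3, 1, 0, 4], [0, 1, 0, 4, 3, 4, 0, 1, 2, 1], [0, 1, 0, 1, 0, 4, 3, 4, 1, 2], [0, 1, 3, 4, 3, 2, 1, 2, 4, 0], [0, 1, 2, 3, 2, 1, 0, 1, 3, 4], [0, 1, 4, 5, 4, 3, 2, 3, 0, 1]]⟩,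
  ⟨[some 2, some 0, some 2, some 0, some 1], 1, 3,
    [[0, 1, 0, 2, 1, 2, 1, 0, 2, 0], [0, 1, 0, 2, 2, 1, 0, 1, 2, 0], [0, 1, 0, 2, 1, 2, 1, 0, 1, 0], [0, 1, 0, 1, 2, 1, 2, 0, 1, 0], [0, 1, 0, 1, 1, 2, 0, 2, 1, 0], [0, 1, 0, 1, 1, 2, 1, 0, 1, 0], [0, 1, 2, 0, 1, 0, 1, 2, 0, 2], [0, 1, 2, 0, 2, 1, 0, 1, 2, 0], [0, 1, 2, 0, 1, 0, 1, 2, 1, 0]],
    [[0, 5, 4, 0, 2, 3, 2, 1, 0, 1], [6, 7, 3, 2, 5, 4, 0, 1, 2, 6], [0, 5, 4, 0, 1, 3, 2, 1, 2, 0], [3, 4, 0, 4, 2, 1, 2, 3, 4, 3], [0, 4, 3, 4, 1, 2, 6, 5, 1, 0], [0, 4, 3, 4, 1, 2, 1, 0, 1, 0], [0, 1, 2, 6, 4, 3, 4, 5, 6, 5], [3, 4, 5, 6, 2, 1, 0, 7, 8, 9], [0, 1, 2, 6, 4, 3, 4, 5, 1, 0]]⟩,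
  ⟨[some 2, some 0, some 2, some 0, some 2], 1, 1,
    [[0, 1, 0, 2, 1, 2, 0, 1, 0, 2], [0, 1, 0, 2, 1, 2, 0, 1, 0, 1], [0, 1, 0, 2, 2, 1, 2, 0, 0, 1], [0, 1, 0, 1, 1, 2, 0, 2, 0, 1], [0, 1, 0, 1, 1, 2, 0, 2, 0, 2], [0, 1, 0, 1, 1, 2, 1, 0, 0, 2], [0, 1, 2, 0, 2, 1, 0, 2, 0, 1], [0, 1, 2, 0, 1, 0, 1, 2, 0, 2], [0, 1, 2, 0, 1, 0, 1, 2, 2, 0]],
    [[0, 8, 7, 6, 2, 3, 4, 5, 1, 0], [0, 7, 6, 5, 1, 2, 3, 4, 0, 4], [4, 5, 1, 0, 3, 2, 6, 7, 4, 5], [0, 4, 3, 4, 1, 2, 6, 5, 0, 7], [0, 5, 4, 5, 2, 3, 7, 6, 1, 0], [0, 7, 6, 7, 4, 5, 1, 0, 3, 2], [4, 5, 6, 7, 3, 2, 1, 0, 4, 5], [0, 1, 2, 6, 7, 3, 4, 5, 6, 5], [0, 1, 2, 9, 4, 3, 7, 8, 5, 6]]⟩,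
  ⟨[some 2, some 0, some 2, some 1, some 0], 1, 2,
    [[0, 1, 0, 2, 1, 2, 0, 2, 0, 1], [0, 1, 0, 2, 1, 2, 0, 2, 0, 2], [0, 1, 0, 2, 1, 2, 1, 0, 0, 2], [0, 1, 0, 1, 1, 2, 0, 2, 0, 1], [0, 1, 0, 1, 1, 2, 0, 2, 0, 2], [0, 1, 0, 1, 2, 1, 2, 0, 0, 1], [0, 1, 2, 0, 1, 0, 2, 0, 2, 1], [0, 1, 2, 0, 1, 0, 1, 0, 1, 0], [0, 1, 2, 0, 1, 0, 1, 2, 2, 0]],
    [[0, 4, 3, 0, 1, 2, 3, 2, 3, 4], [0, 4, 3, 0, 1, 2, 3, 2, 3, 0], [0, 4, 3, 2, 1, 2, 1, 0, 3, 2], [0, 4, 3, 4, 1, 2, 3, 2, 3, 4], [0, 4, 3, 4, 1, 2, 3, 2, 3, 0], [3, 4, 0, 1, 2, 1, 2, 3, 0, 1], [0, 1, 2, 3, 4, 3, 1, 2, 1, 0], [0, 1, 2, 3, 4, 3, 4, 0, 4, 0], [0, 1, 2, 3, 4, 3, 4, 5, 0, 1]]⟩,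
  ⟨[some 2, some 0, some 2, some 1, some 2], 1, 1,
    [[0, 1, 0, 2, 1, 2, 1, 0, 2, 0], [0, 1, 0, 2, 1, 2, 0, 2, 1, 0], [0, 1, 0, 2, 1, 2, 1, 0, 1, 0], [0, 1, 0, 1, 2, 1, 2, 0, 1, 0], [0, 1, 2, 1, 2, 1, 2, 0, 1, 2], [0, 1, 0, 1, 2, 1, 2, 0, 2, 0], [0, 1, 2, 0, 1, 0, 1, 2, 0, 2], [0, 1, 2, 0, 2, 0, 2, 0, 1, 2], [0, 1, 2, 0, 1, 0, 1, 0, 1, 2]],
    [[0, 5, 4, 3, 2, 3, 2, 1, 0, 4], [0, 4, 3, 0, 1, 2, 6, 5, 4, 3], [0, 4, 3, 2, 1, 2, 1, 0, 4, 3], [3, 4, 0, 1, 2, 1, 2, 3, 4, 0], [2, 3, 4, 0, 1, 0, 1, 2, 3, 4], [4, 5, 0, 1, 3, 2, 2, 4, 0, 1], [0, 1, 2, 3, 4, 3, 4, 5, 6, 0], [1, 2, 3, 4, 0, 4, 0, 1, 2, 3], [0, 1, 2, 3, 4, 3, 4, 0, 1, 2]]⟩,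
  ⟨[some 2, some 1, some 0, some 1, some 0], 1, 2,
    [[0, 1, 2, 1, 2, 0, 1, 0, 1, 2], [0, 1, 2, 1, 2, 0, 1, 0, 1, 0], [0, 1, 2, 1, 2, 0, 1, 0, 0, 2], [0, 1, 1, 2, 0, 2, 1, 0, 1, 2], [0, 1, 1, 2, 0, 2, 0, 1, 2, 1], [0, 1, 1, 2, 0, 2, 0, 1, 1, 2], [0, 1, 0, 1, 0, 2, 1, 0, 1, 2], [0, 1, 0, 1, 0, 1, 0, 2, 1, 2], [0, 1, 0, 1, 0, 2, 1, 2, 2, 0]],
    [[0, 1, 2, 1, 2, 3, 4, 0, 0, 5], [0, 1, 2, 1, 2, 3, 4, 0, 1, 0], [0, 1, 2, 1, 2, 3, 4, 0, 6, 5], [2, 6, 0, 1, 5, 4, 3, 2, 6, 7], [5, 6, 0, 4, 5, 1, 2, 3, 4, 3], [8, 9, 0, 7, 2, 1, 5, 6, 3, 4], [0, 4, 3, 4, 3, 2, 1, 0, 4, 5], [0, 1, 0, 1, 0, 4, 3, 2, 1, 2], [0, 5, 4, 5, 4, 3, 2, 6, 0, 1]]⟩,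
  ⟨[some 2, some 1, some 0, some 2, some 0], 1, 2,
    [[0, 1, 2, 1, 0, 1, 0, 2, 1, 2], [0, 1, 2, 1, 2, 0, 2, 1, 0, 2], [0, 1, 2, 1, 0, 1, 0, 1, 0, 2], [0, 1, 1, 2, 0, 2, 0, 1, 2, 1], [0, 1, 1, 2, 0, 2, 0, 1, 2, 0], [0, 1, 1, 2, 0, 2, 0, 1, 0, 1], [0, 1, 0, 1, 0, 1, 0, 2, 1, 2], [0, 1, 0, 1, 0, 1, 0, 1, 2, 0], [0, 1, 0, 1, 0, 1, 0, 1, 0, 2]],
    [[0, 3, 4, 3, 2, 3, 2, 1, 0, 4], [0, 1, 2, 1, 3, 4, 3, 2, 1, 0], [0, 1, 2, 1, 0, 1, 0, 4, 3, 2], [2, 3, 0, 1, 2, 1, 2, 3, 4, 0], [2, 3, 0, 1, 2, 1, 2, 3, 4, 5], [2, 4, 0, 1, 3, 2, 2, 4, 0, 1], [0, 3, 0, 3, 2, 3, 2, 1, 0, 4], [0, 1, 0, 1, 0, 4, 0, 1, 2, 3], [0, 1, 0, 1, 0, 1, 0, 4, 3, 2]]⟩,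
  ⟨[some 2, some 1, some 0, some 2, some 1], 1, 3,
    [[0, 1, 2, 1, 0, 1, 0, 1, 0, 2], [0, 1, 2, 1, 0, 1, 0, 1, 0, 1], [0, 1, 2, 1, 0, 1, 0, 2, 2, 1], [0, 1, 1, 2, 0, 2, 0, 1, 0, 2], [0, 1, 1, 2, 0, 2, 0, 1, 0, 1], [0, 1, 1, 2, 0, 2, 0, 1, 1, 2], [0, 1, 0, 1, 0, 1, 0, 1, 0, 2], [0, 1, 0, 1, 0, 1, 0, 1, 0, 1], [0, 1, 0, 1, 0, 1, 0, 2, 2, 1]],
    [[0, 1, 3, 2, 0, 2, 1, 2, 1, 0], [0, 1, 2, 1, 0, 1, 0, 1, 0, 1], [0, 2, 3, 2, 1, 2, 1, 0, 3, 2], [2, 3, 0, 1, 2, 1, 2, 3, 2, 0], [2, 3, 0, 1, 2, 1, 2, 3, 2, 3], [2, 3, 0, 1, 2, 1, 2, 3, 0, 1], [0, 1, 0, 2, 0, 2, 1, 2, 1, 0], [0, 1, 0, 1, 0, 1, 0, 1, 0, 1], [0, 2, 0, 2, 1, 2, 1, 0, 3, 2]]⟩,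
  ⟨[some 2, some 1, some 2, some 0, some 1], 1, 3,
    [[0, 1, 2, 1, 2, 0, 1, 0, 2, 0], [0, 1, 2, 1, 2, 0, 1, 0, 2, 1], [0, 1, 2, 1, 2, 0, 1, 0, 1, 0], [0, 1, 1, 2, 1, 0, 1, 2, 0, 2], [0, 1, 1, 2, 1, 0, 2, 0, 1, 2], [0, 1, 1, 2, 1, 0, 1, 0, 1, 0], [0, 1, 0, 1, 0, 2, 0, 2, 1, 2], [0, 1, 0, 1, 0, 2, 1, 2, 0, 1], [0, 1, 0, 1, 0, 2, 0, 1, 0, 1]],
    [[0, 4, 2, 1, 2, 3, 4, 3, 0, 3], [0, 4, 2, 1, 2, 3, 4, 3, 1, 0], [0, 4, 2, 1, 2, 3, 4, 3, 4, 3], [3, 4, 0, 2, 1, 0, 1, 2, 3, 2], [4, 5, 2, 3, 2, 1, 0, 1, 2, 3], [3, 4, 1, 2, 1, 0, 1, 0, 1, 0], [0, 1, 2, 4, 3, 2, 3, 1, 0, 1], [0, 1, 2, 4, 3, 2, 0, 1, 2, 4], [0, 1, 0, 4, 3, 2, 3, 4, 0, 4]]⟩,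
  ⟨[some 2, some 1, some 2, some 0, some 2], 1, 1,
    [[0, 1, 2, 1, 2, 0, 1, 0, 1, 2], [0, 1, 2, 1, 2, 0, 1, 0, 1, 0], [0, 1, 2, 1, 2, 0, 1, 0, 0, 2], [0, 1, 1, 2, 0, 2, 1, 2, 1, 0], [0, 1, 1, 2, 1, 0, 1, 0, 2, 0], [0, 1, 1, 2, 1, 2, 1, 2, 2, 0], [0, 1, 0, 1, 0, 2, 1, 2, 1, 0], [0, 1, 0, 1, 0, 2, 1, 2, 1, 2], [0, 1, 0, 2, 0, 2, 1, 2, 2, 0]],
    [[0, 4, 2, 1, 2, 3, 4, 3, 0, 5], [0, 4, 2, 1, 2, 3, 4, 3, 1, 0], [0, 4, 2, 1, 2, 3, 4, 3, 6, 5], [2, 3, 0, 1, 5, 4, 1, 2, 6, 0], [3, 4, 1, 2, 1, 0, 4, 0, 2, 3], [2, 3, 0, 1, 0, 4, 3, 4, 1, 2], [0, 1, 3, 4, 3, 2, 1, 2, 4, 0], [0, 1, 2, 4, 3, 2, 0, 1, 4, 5], [1, 2, 4, 0, 4, 3, 2, 3, 0, 1]]⟩,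
  ⟨[some 2, some 1, some 2, some 1, some 0], 1, 2,
    [[0, 1, 2, 1, 0, 2, 1, 2, 1, 0], [0, 1, 2, 1, 0, 2, 1, 2, 0, 2], [0, 1, 2, 1, 0, 2, 0, 1, 1, 2], [0, 1, 1, 2, 1, 0, 2, 0, 2, 1], [0, 1, 1, 2, 1, 0, 2, 0, 1, 0], [0, 1, 1, 2, 0, 2, 0, 1, 1, 2], [0, 1, 0, 1, 0, 2, 1, 2, 1, 0], [0, 1, 0, 1, 0, 2, 1, 2, 0, 2], [0, 1, 0, 1, 2, 0, 2, 1, 1, 0]],
    [[0, 1, 5, 4, 3, 2, 1, 2, 1, 0], [0, 1, 5, 4, 3, 2, 0, 1, 3, 1], [0, 1, 5, 4, 3, 2, 6, 7, 0, 1], [5, 6, 0, 4, 3, 2, 1, 2, 1, 0], [5, 6, 0, 4, 3, 0, 1, 2, 3, 2], [5, 6, 3, 4, 8, 7, 2, 9, 0, 1], [0, 1, 0, 4, 3, 2, 1, 2, 1, 0], [0, 1, 0, 4, 3, 2, 1, 2, 3, 2], [0, 6, 2, 3, 4, 5, 1, 0, 6, 2]]⟩,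
  ⟨[some 2, some 1, some 2, some 1, some 2], 1, 1,
    [[0, 1, 2, 1, 0, 2, 0, 1, 2, 1], [0, 1, 2, 1, 0, 2, 1, 2, 0, 1], [0, 1, 2, 1, 0, 2, 0, 1, 0, 1], [0, 1, 1, 2, 0, 2, 2, 1, 0, 1], [0, 1, 1, 2, 0, 2, 0, 1, 2, 0], [0, 1, 1, 2, 0, 2, 0, 1, 0, 1], [0, 1, 0, 1, 0, 2, 2, 1, 0, 1], [0, 1, 0, 1, 0, 2, 1, 2, 0, 1], [0, 1, 0, 1, 0, 2, 1, 2, 1, 0]],
    [[0, 1, 5, 4, 3, 2, 6, 7, 8, 0], [0, 1, 7, 6, 5, 4, 0, 1, 2, 3], [0, 1, 5, 4, 3, 2, 6, 7, 0, 1], [2, 3, 0, 1, 5, 4, 7, 6, 0, 1], [3, 4, 1, 2, 6, 5, 0, 7, 8, 9], [3, 4, 1, 2, 6, 5, 0, 7, 0, 1], [0, 1, 6, 7, 3, 2, 5, 4, 0, 1], [0, 1, 0, 7, 6, 5, 1, 2, 3, 4], [0, 1, 0, 7, 6, 2, 1, 5, 4, 3]]⟩]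

set_option maxRecDepth 100000 in
theorem cat_ok : cat.all Cert.ok = true := by decide +kernel

set_option maxRecDepth 100000 in
theorem cat_rng : ∀ C ∈ cat, wN C.w ≤ 14 ∧ (∀ i, wA C.w 0 i < wN C.w) ∧
    ∀ i, wB C.w 0 0 i < wN C.w := by decide +kernel


theorem okE_sound {E : List (ℕ × ℕ)} {c t : List ℕ} (h : okE E c t = true) {e : ℕ × ℕ} (he : e ∈ E) :
    (((c.getD e.2 0 : ℕ) : ZMod 3) = ((c.getD e.1 0 : ℕ) : ZMod 3) + 1 ∧ t.getD e.1 0 < t.getD e.2 0) ∨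
    (((c.getD e.1 0 : ℕ) : ZMod 3) = ((c.getD e.2 0 : ℕ) : ZMod 3) + 1 ∧ t.getD e.2 0 < t.getD e.1 0) := by
  have h1 := List.all_eq_true.1 h e he
  have key : ∀ x y : ℕ, x = (y + 1) % 3 → ((x : ℕ) : ZMod 3) = ((y : ℕ) : ZMod 3) + 1 := by
    rintro x y rfl
    rw [ZMod.natCast_mod]
    push_cast
    ring
  rw [Bool.or_eq_true, Bool.and_eq_true, Bool.and_eq_true, decide_eq_true_eq, decide_eq_true_eq,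
    beq_iff_eq, beq_iff_eq] at h1
  rcases h1 with ⟨h2, h3⟩ | ⟨h2, h3⟩
  · exact Or.inl ⟨key _ _ h2, h3⟩
  · exact Or.inr ⟨key _ _ h2, h3⟩

theorem okP_sound {a : Fin 3 → ℕ} {c : List ℕ} {P : ℕ × ℕ} (h : okP a c P = true) :
    ∃ ε : ℤ, (ε = 1 ∨ ε = -1) ∧
      ((c.getD (a 1) 0 : ℕ) : ZMod 3) - ((c.getD (a 0) 0 : ℕ) : ZMod 3) = (ε : ZMod 3) * (P.1 : ZMod 3) ∧
      ((c.getD (a 2) 0 : ℕ) : ZMod 3) - ((c.getD (a 0) 0 : ℕ) : ZMod 3) = (ε : ZMod 3) * (P.2 : ZMod 3) := by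
  have key : ∀ x y z : ℕ, x = (y + z) % 3 → ((x : ℕ) : ZMod 3) = ((y : ℕ) : ZMod 3) + (z : ZMod 3) := by
    rintro x y z rfl
    rw [ZMod.natCast_mod]
    push_cast
    ring
  unfold okP at h
  rw [Bool.or_eq_true, Bool.and_eq_true, Bool.and_eq_true, beq_iff_eq, beq_iff_eq, beq_iff_eq,
    beq_iff_eq] at h
  rcases h with ⟨h1, h2⟩ | ⟨h1, h2⟩
  · refine ⟨1, Or.inl rfl, ?_, ?_⟩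
    · rw [key _ _ _ h1]; push_cast; ring
    · rw [key _ _ _ h2]; push_cast; ring
  · refine ⟨-1, Or.inr rfl, ?_, ?_⟩
    · rw [key _ _ _ h1]; push_cast; ring
    · rw [key _ _ _ h2]; push_cast; ring

/-- The sign. -/
def sg : Bool → ℤ
  | true => 1
  | false => -1

theorem cover_aux : ∀ (S : Fin 4) (x y z : ZMod 3) (l l' : Fin 3), l ≠ l' →
    ∃ (i : Fin 3) (s : Bool) (k : Fin 3),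
      ((![![x, y, z], ![x, y, z] - ev l, ![x, y, z] - ev l - ev l'] : Fin 3 → Fin 3 → ZMod 3) k 1 -
        (![![x, y, z], ![x, y, z] - ev l, ![x, y, z] - ev l - ev l'] : Fin 3 → Fin 3 → ZMod 3) k 0 =
        ((sg s : ℤ) : ZMod 3) * (((cov S i).1 : ℕ) : ZMod 3)) ∧
      ((![![x, y, z], ![x, y, z] - ev l, ![x, y, z] - ev l - ev l'] : Fin 3 → Fin 3 → ZMod 3) k 2 -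
        (![![x, y, z], ![x, y, z] - ev l, ![x, y, z] - ev l - ev l'] : Fin 3 → Fin 3 → ZMod 3) k 0 =
        ((sg s : ℤ) : ZMod 3) * (((cov S i).2 : ℕ) : ZMod 3)) := by
  decide +kernel

theorem cover (S : Fin 4) (w : Fin 3 → ZMod 3) (l l' : Fin 3) (hl : l ≠ l') :
    ∃ (i : Fin 3) (v : Fin 3 → ZMod 3) (ε : ℤ), Corner w l l' v ∧ (ε = 1 ∨ ε = -1) ∧
      v 1 - v 0 = (ε : ZMod 3) * (((cov S i).1 : ℕ) : ZMod 3) ∧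
      v 2 - v 0 = (ε : ZMod 3) * (((cov S i).2 : ℕ) : ZMod 3) := by
  obtain ⟨i, s, k, h1, h2⟩ := cover_aux S (w 0) (w 1) (w 2) l l' hl
  have hw : (![w 0, w 1, w 2] : Fin 3 → ZMod 3) = w := by
    funext j
    fin_cases j <;> rfl
  rw [hw] at h1 h2
  have hs : sg s = 1 ∨ sg s = -1 := by cases s <;> simp [sg]
  refine ⟨i, _, sg s, ?_, hs, h1, h2⟩
  fin_cases k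
  · exact Or.inl rfl
  · exact Or.inr (Or.inl rfl)
  · exact Or.inr (Or.inr rfl)

/-- What a certificate gives. -/
theorem Cert.spec {C : Cert} (hC : C.ok = true) (w : Fin 3 → ZMod 3) (l l' : Fin 3)
    (w' : Fin 3 → ZMod 3) (m m' : Fin 3) (hl : l ≠ l') (hm : m ≠ m') :
    ∃ (v v' : Fin 3 → ZMod 3) (e : ℤ) (u : ZMod 3) (c : ℕ → ZMod 3) (τ : ℕ → ℝ),
      Corner w l l' v ∧ Corner w' m m' v' ∧ (e = 1 ∨ e = -1) ∧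
      (∀ p ∈ wE C.w, Str c τ p.1 p.2) ∧
      (∀ i, c (wA C.w 0 i) + 1 = v i) ∧ (∀ i, c (wB C.w 0 0 i) + 1 = (e : ZMod 3) * v' i + u) := by
  obtain ⟨i, v, ε, hv, hε, v1, v2⟩ := cover C.L w l l' hl
  obtain ⟨j, v', ε', hv', hε', v1', v2'⟩ := cover C.R w' m m' hm
  have h1 := List.all_eq_true.1 hC i (List.mem_finRange i)
  have h2 := List.all_eq_true.1 h1 j (List.mem_finRange j)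
  rw [Bool.and_eq_true, Bool.and_eq_true] at h2
  obtain ⟨h3, h4, h5⟩ := h2
  set cc := C.c.getD (3 * i.val + j.val) []
  set tt := C.t.getD (3 * i.val + j.val) []
  obtain ⟨δ, hδ, d1, d2⟩ := okP_sound h4
  obtain ⟨δ', hδ', d1', d2'⟩ := okP_sound h5
  have sq : ∀ {x : ℤ}, (x = 1 ∨ x = -1) → ((x : ℤ) : ZMod 3) * (x : ZMod 3) = 1 := by
    intro x hx
    rcases hx with rfl | rfl <;> push_cast <;> ring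
  -- the sign of the piece
  have hs : ε * δ = 1 ∨ ε * δ = -1 := by
    rcases hε with rfl | rfl <;> rcases hδ with rfl | rfl <;> simp
  have hs' : ε * δ * (ε' * δ') = 1 ∨ ε * δ * (ε' * δ') = -1 := by
    rcases hε with rfl | rfl <;> rcases hδ with rfl | rfl <;> rcases hε' with rfl | rfl <;>
      rcases hδ' with rfl | rfl <;> simp
  set D : ℕ → ZMod 3 := fun x => ((cc.getD x 0 : ℕ) : ZMod 3) with hD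
  set s : ZMod 3 := ((ε * δ : ℤ) : ZMod 3) with hsd
  refine ⟨v, v', ε * δ * (ε' * δ'),
    v 0 - s * D (wA C.w 0 0) + s * D (wB C.w 0 0 0) - ((ε * δ * (ε' * δ') : ℤ) : ZMod 3) * v' 0,
    fun x => s * D x + (v 0 - 1 - s * D (wA C.w 0 0)),
    fun x => ((ε * δ : ℤ) : ℝ) * ((tt.getD x 0 : ℕ) : ℝ), hv, hv', hs', fun p hp => ?_, ?_, ?_⟩
  · have h6 := okE_sound h3 hp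
    have hs1 : s = 1 ∧ ((ε * δ : ℤ) : ℝ) = 1 ∨ s = -1 ∧ ((ε * δ : ℤ) : ℝ) = -1 := by
      rcases hs with h | h
      · left; rw [hsd, h]; constructor <;> push_cast <;> rfl
      · right; rw [hsd, h]; constructor <;> push_cast <;> rfl
    unfold Str
    rcases hs1 with ⟨e1, e2⟩ | ⟨e1, e2⟩
    · rw [e1, e2]
      rcases h6 with ⟨g1, g2⟩ | ⟨g1, g2⟩
      · left
        refine ⟨?_, ?_⟩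
        · show 1 * D p.2 + _ = 1 * D p.1 + _ + 1
          rw [show D p.2 = D p.1 + 1 from g1]; ring
        · have : ((tt.getD _ 0 : ℕ) : ℝ) < ((tt.getD _ 0 : ℕ) : ℝ) := Nat.cast_lt.2 g2
          show 1 * _ < 1 * _
          rw [one_mul, one_mul]; exact this
      · right
        refine ⟨?_, ?_⟩
        · show 1 * D p.1 + _ = 1 * D p.2 + _ + 1
          rw [show D p.1 = D p.2 + 1 from g1]; ring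
        · have : ((tt.getD _ 0 : ℕ) : ℝ) < ((tt.getD _ 0 : ℕ) : ℝ) := Nat.cast_lt.2 g2
          show 1 * _ < 1 * _
          rw [one_mul, one_mul]; exact this
    · rw [e1, e2]
      rcases h6 with ⟨g1, g2⟩ | ⟨g1, g2⟩
      · right
        refine ⟨?_, ?_⟩
        · show -1 * D p.1 + _ = -1 * D p.2 + _ + 1
          rw [show D p.2 = D p.1 + 1 from g1]; ring
        · have : ((tt.getD p.1 0 : ℕ) : ℝ) < ((tt.getD p.2 0 : ℕ) : ℝ) := by exact_mod_cast g2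
          linarith
      · left
        refine ⟨?_, ?_⟩
        · show -1 * D p.2 + _ = -1 * D p.1 + _ + 1
          rw [show D p.1 = D p.2 + 1 from g1]; ring
        · have : ((tt.getD p.2 0 : ℕ) : ℝ) < ((tt.getD p.1 0 : ℕ) : ℝ) := by exact_mod_cast g2
          linarith
  · have hk1 : s * (D (wA C.w 0 1) - D (wA C.w 0 0)) = v 1 - v 0 := by
      show s * (((cc.getD _ 0 : ℕ) : ZMod 3) - ((cc.getD _ 0 : ℕ) : ZMod 3)) = _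
      rw [d1, v1, hsd]
      push_cast
      have := sq hδ
      linear_combination (ε : ZMod 3) * (((cov C.L i).1 : ℕ) : ZMod 3) * this
    have hk2 : s * (D (wA C.w 0 2) - D (wA C.w 0 0)) = v 2 - v 0 := by
      show s * (((cc.getD _ 0 : ℕ) : ZMod 3) - ((cc.getD _ 0 : ℕ) : ZMod 3)) = _
      rw [d2, v2, hsd]
      push_cast
      have := sq hδ
      linear_combination (ε : ZMod 3) * (((cov C.L i).2 : ℕ) : ZMod 3) * this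
    intro k
    fin_cases k
    · show s * D (wA C.w 0 0) + (v 0 - 1 - s * D (wA C.w 0 0)) + 1 = v 0
      ring
    · show s * D (wA C.w 0 1) + (v 0 - 1 - s * D (wA C.w 0 0)) + 1 = v 1
      linear_combination hk1
    · show s * D (wA C.w 0 2) + (v 0 - 1 - s * D (wA C.w 0 0)) + 1 = v 2
      linear_combination hk2
  · have hk1 : s * (D (wB C.w 0 0 1) - D (wB C.w 0 0 0)) =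
        ((ε * δ * (ε' * δ') : ℤ) : ZMod 3) * (v' 1 - v' 0) := by
      show s * (((cc.getD _ 0 : ℕ) : ZMod 3) - ((cc.getD _ 0 : ℕ) : ZMod 3)) = _
      rw [d1', v1', hsd]
      push_cast
      have := sq hε'
      linear_combination (-(ε : ZMod 3) * δ * δ' * (((cov C.R j).1 : ℕ) : ZMod 3)) * this
    have hk2 : s * (D (wB C.w 0 0 2) - D (wB C.w 0 0 0)) =
        ((ε * δ * (ε' * δ') : ℤ) : ZMod 3) * (v' 2 - v' 0) := by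
      show s * (((cc.getD _ 0 : ℕ) : ZMod 3) - ((cc.getD _ 0 : ℕ) : ZMod 3)) = _
      rw [d2', v2', hsd]
      push_cast
      have := sq hε'
      linear_combination (-(ε : ZMod 3) * δ * δ' * (((cov C.R j).2 : ℕ) : ZMod 3)) * this
    intro k
    fin_cases k
    · show s * D (wB C.w 0 0 0) + (v 0 - 1 - s * D (wA C.w 0 0)) + 1 =
        ((ε * δ * (ε' * δ') : ℤ) : ZMod 3) * v' 0 + (v 0 - s * D (wA C.w 0 0) +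
          s * D (wB C.w 0 0 0) - ((ε * δ * (ε' * δ') : ℤ) : ZMod 3) * v' 0)
      ring
    · show s * D (wB C.w 0 0 1) + (v 0 - 1 - s * D (wA C.w 0 0)) + 1 =
        ((ε * δ * (ε' * δ') : ℤ) : ZMod 3) * v' 1 + (v 0 - s * D (wA C.w 0 0) +
          s * D (wB C.w 0 0 0) - ((ε * δ * (ε' * δ') : ℤ) : ZMod 3) * v' 0)
      linear_combination hk1
    · show s * D (wB C.w 0 0 2) + (v 0 - 1 - s * D (wA C.w 0 0)) + 1 =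
        ((ε * δ * (ε' * δ') : ℤ) : ZMod 3) * v' 2 + (v 0 - s * D (wA C.w 0 0) +
          s * D (wB C.w 0 0 0) - ((ε * δ * (ε' * δ') : ℤ) : ZMod 3) * v' 0)
      linear_combination hk2

/-- The words of the catalogue. -/
def catW : List (List Lt) := cat.map Cert.w

variable {V : Type*} {G : SimpleGraph V}

/-- **The pieces of the catalogue are universal.**  `f` numbers the vertices of the piece. -/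
theorem uni_of_word {w : List Lt} (hw : w ∈ catW) {K B : V → Prop} {n : ℤ} (hn : 0 < n)
    (f : ℕ → V) (hf : ∀ i j, i < wN w → j < wN w → f i = f j → i = j)
    (hK : ∀ v, K v ↔ ∃ i, i < wN w ∧ f i = v)
    (hE : ∀ i j, i < wN w → j < wN w → G.Adj (f i) (f j) → (i, j) ∈ wE w ∨ (j, i) ∈ wE w)
    {b b' : Fin 3 → V} (hb : ∀ i, ¬ K (b i)) (hBb : ∀ i, ¬ B (b i))
    (hab : ∀ i, G.Adj (f (wA w 0 i)) (b i)) (hbi : Function.Injective b)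
    (hb' : ∀ i, ¬ K (b' i)) (hBb' : ∀ i, B (b' i))
    (hab' : ∀ i, G.Adj (f (wB w 0 0 i)) (b' i)) (hbi' : Function.Injective b')
    (hL : ∀ i y, i < wN w → ¬ K y → G.Adj (f i) y → ¬ B y → ∃ k, i = wA w 0 k ∧ y = b k)
    (hR : ∀ i y, i < wN w → ¬ K y → G.Adj (f i) y → B y → ∃ k, i = wB w 0 0 k ∧ y = b' k) :
    Uni G K B 14 n := by
  classical
  obtain ⟨C, hC, rfl⟩ := List.mem_map.1 hw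
  have hok : C.ok = true := List.all_eq_true.1 cat_ok C hC
  have hr := cat_rng C hC
  have h14 : wN C.w ≤ 14 := hr.1
  have hA : ∀ i, wA C.w 0 i < wN C.w := hr.2.1
  have hB : ∀ i, wB C.w 0 0 i < wN C.w := hr.2.2
  refine uni_of_alcoves (a := fun i => f (wA C.w 0 i)) (b := b) (a' := fun i => f (wB C.w 0 0 i))
    (b' := b') hn (fun i => (hK _).2 ⟨_, hA i, rfl⟩) hb hab hBb hbi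
    (fun i => (hK _).2 ⟨_, hB i, rfl⟩) hb' hab' hBb' hbi' ?_ ?_ ?_
  · intro x y hx hy hxy hBy
    obtain ⟨i, hi, rfl⟩ := (hK x).1 hx
    obtain ⟨k, rfl, rfl⟩ := hL i y hi hy hxy hBy
    exact ⟨k, rfl, rfl⟩
  · intro x y hx hy hxy hBy
    obtain ⟨i, hi, rfl⟩ := (hK x).1 hx
    obtain ⟨k, rfl, rfl⟩ := hR i y hi hy hxy hBy
    exact ⟨k, rfl, rfl⟩
  · intro w0 l l' w' m m' hl hm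
    obtain ⟨v, v', e, u, c, τ, h1, h2, h3, h4, h5, h6⟩ := C.spec hok w0 l l' w' m m' hl hm
    set g : V → ℕ := fun v => if h : ∃ i, i < wN C.w ∧ f i = v then h.choose else 0 with hg
    have hgf : ∀ i, i < wN C.w → g (f i) = i := by
      intro i hi
      have h7 : ∃ j, j < wN C.w ∧ f j = f i := ⟨i, hi, rfl⟩
      have h8 : g (f i) = h7.choose := dif_pos h7
      rw [h8]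
      exact hf _ _ h7.choose_spec.1 hi h7.choose_spec.2
    refine ⟨v, v', e, u, fun x => c (g x), fun x => τ (g x), h1, h2, h3, ?_, ?_, ?_, ?_⟩
    · rintro x y ⟨hxy, hx, hy⟩
      obtain ⟨i, hi, rfl⟩ := (hK x).1 hx
      obtain ⟨j, hj, rfl⟩ := (hK y).1 hy
      show (c (g (f j)) = c (g (f i)) + 1 ∧ τ (g (f i)) < τ (g (f j))) ∨
        (c (g (f i)) = c (g (f j)) + 1 ∧ τ (g (f j)) < τ (g (f i)))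
      rw [hgf i hi, hgf j hj]
      rcases hE i j hi hj hxy with h7 | h7
      · exact h4 _ h7
      · have h8 := h4 _ h7
        unfold Str at h8
        exact h8.symm
    · have h7 : (fun x => τ (g x)) '' {v | K v} ⊆ ((Finset.range (wN C.w)).image τ : Finset ℝ) := by
        rintro r ⟨x, hx, rfl⟩
        obtain ⟨i, hi, rfl⟩ := (hK x).1 hx
        show τ (g (f i)) ∈ _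
        rw [hgf i hi]
        exact_mod_cast Finset.mem_image_of_mem τ (Finset.mem_range.2 hi)
      refine (Set.ncard_le_ncard h7 (Finset.finite_toSet _)).trans ?_
      rw [Set.ncard_coe_finset]
      exact Finset.card_image_le.trans (by rw [Finset.card_range]; exact h14)
    · intro i
      show c (g (f (wA C.w 0 i))) + 1 = _
      rw [hgf _ (hA i)]
      exact h5 i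
    · intro i
      show c (g (f (wB C.w 0 0 i))) + 1 = _
      rw [hgf _ (hB i)]
      exact h6 i

end Pool.Agent.WordU
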