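import Mathlib
import Pool.Agent.Work.MP_392c8e_co_uni.WordU

/-!
# A chain of letters is a universal piece

A side of a cut with three edges is peeled letter by letter.  If the word of the letters is in
the catalogue, then the removed part is a universal cluster.
-/

namespace Pool.Agent.WordU

open Pool.Agent.LiftIso

variable {V : Type*}

/-- The set `B` has exactly three leaving edges `s i - b i`. -/
structure End3 (G : SimpleGraph V) (B : V → Prop) (s b : Fin 3 → V) : Prop where
  inB : ∀ i, B (s i)
  outB : ∀ i, ¬ B (b i)
  adj : ∀ i, G.Adj (s i) (b i)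
  inj : Function.Injective s
  leave : ∀ u v, B u → ¬ B v → G.Adj u v → ∃ i, u = s i ∧ v = b i

/-- One letter `l`, with the vertices `g 0, .., g (sz l - 1)`, is peeled off. -/
structure LetStep (G : SimpleGraph V) (l : Lt) (g : ℕ → V) (B : V → Prop) (s b : Fin 3 → V)
    (B1 : V → Prop) (s1 b1 : Fin 3 → V) : Prop where
  ginj : ∀ i j, i < sz l → j < sz l → g i = g j → i = j
  mem : ∀ v, B v ↔ (∃ i, i < sz l ∧ g i = v) ∨ B1 v
  nB1 : ∀ i, i < sz l → ¬ B1 (g i)
  ginn : ∀ k y, inn l k = some y → g y = s k
  gout : ∀ k y, out l k = some y → b1 k = g y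
  gmis : ∀ k, inn l k = none → s1 k = s k ∧ b1 k = b k
  gedge : ∀ i j, i < sz l → j < sz l → G.Adj (g i) (g j) → (i, j) ∈ inner l ∨ (j, i) ∈ inner l

/-- A chain of letters from the side `(B, s, b)` to the side `(B', s', b')`. -/
inductive Chain (G : SimpleGraph V) (B' : V → Prop) (s' b' : Fin 3 → V) :
    List Lt → (V → Prop) → (Fin 3 → V) → (Fin 3 → V) → Prop
  | nil : End3 G B' s' b' → Chain G B' s' b' [] B' s' b'
  | cons (l : Lt) (w : List Lt) (g : ℕ → V) (B : V → Prop) (s b : Fin 3 → V) (B1 : V → Prop)
      (s1 b1 : Fin 3 → V) : End3 G B s b → LetStep G l g B s b B1 s1 b1 →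
      Chain G B' s' b' w B1 s1 b1 → Chain G B' s' b' (l :: w) B s b

theorem Chain.end3 {G : SimpleGraph V} {B' : V → Prop} {s' b' : Fin 3 → V} {w : List Lt}
    {B : V → Prop} {s b : Fin 3 → V} (h : Chain G B' s' b' w B s b) : End3 G B s b := by
  cases h with
  | nil h => exact h
  | cons l w g B s b B1 s1 b1 h => exact h

theorem Chain.end3' {G : SimpleGraph V} {B' : V → Prop} {s' b' : Fin 3 → V} {w : List Lt}
    {B : V → Prop} {s b : Fin 3 → V} (h : Chain G B' s' b' w B s b) : End3 G B' s' b' := by
  induction h with
  | nil h => exact h
  | cons l w g B s b B1 s1 b1 h h2 h3 ih => exact ih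

/-- The strand is used by the word. -/
def hits (w : List Lt) (k : Fin 3) : Bool := w.any fun l => (inn l k).isSome

theorem hits_cons (l : Lt) (w : List Lt) (k : Fin 3) :
    hits (l :: w) k = ((inn l k).isSome || hits w k) := rfl

theorem inn_out (l : Lt) (k : Fin 3) : (inn l k).isSome = (out l k).isSome := by
  rcases l with _ | l
  · rfl
  · unfold inn out
    rfl

theorem inn_none {l : Lt} {k : Fin 3} (h : inn l k = none) : out l k = none := by
  have := inn_out l k
  rw [h] at this
  cases h1 : out l k with
  | none => rfl
  | some y => rw [h1] at this; exact absurd this (by simp)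

theorem inn_lt : ∀ (l : Lt) (k : Fin 3) (y : ℕ), inn l k = some y → y < sz l := by
  intro l k y h
  rcases l with _ | l
  · unfold inn at h
    injection h with h
    subst h
    exact lt_of_lt_of_le k.isLt (by decide)
  · unfold inn at h
    dsimp only at h
    split_ifs at h
    · injection h with h
      subst h
      show 0 < 2
      decide
    · injection h with h
      subst h
      show 1 < 2
      decide

theorem out_lt : ∀ (l : Lt) (k : Fin 3) (y : ℕ), out l k = some y → y < sz l := by
  intro l k y h
  rcases l with _ | l
  · unfold out at h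
    injection h with h
    subst h
    have := k.isLt
    show k.val + 3 < 6
    omega
  · unfold out at h
    dsimp only at h
    split_ifs at h
    · injection h with h
      subst h
      show 0 < 2
      decide
    · injection h with h
      subst h
      show 1 < 2
      decide

theorem wA_shift (w : List Lt) : ∀ (n m : ℕ) (k : Fin 3), hits w k = true →
    wA w (n + m) k = n + wA w m k := by
  induction w with
  | nil => intro n m k h; exact absurd h (by simp [hits])
  | cons l w ih =>
    intro n m k h
    unfold wA
    rw [hits_cons] at h
    cases h1 : inn l k with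
    | none =>
      rw [h1] at h
      dsimp only
      rw [add_assoc]
      exact ih n (m + sz l) k h
    | some y =>
      dsimp only
      rw [add_assoc]

theorem wA_lt (w : List Lt) : ∀ (k : Fin 3), hits w k = true → wA w 0 k < wN w := by
  induction w with
  | nil => intro k h; exact absurd h (by simp [hits])
  | cons l w ih =>
    intro k h
    unfold wA wN
    rw [hits_cons] at h
    cases h1 : inn l k with
    | none =>
      rw [h1] at h
      dsimp only
      have h2 : wA w (0 + sz l) k = sz l + wA w 0 k := by
        rw [Nat.add_comm 0]
        exact wA_shift w (sz l) 0 k h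
      rw [h2]
      have := ih k h
      omega
    | some y =>
      dsimp only
      have := inn_lt l k y h1
      omega

theorem wB_miss (w : List Lt) : ∀ (n d : ℕ) (k : Fin 3), hits w k = false → wB w n d k = d := by
  induction w with
  | nil => intro n d k h; rfl
  | cons l w ih =>
    intro n d k h
    unfold wB
    rw [hits_cons, Bool.or_eq_false_iff] at h
    have h1 : out l k = none := inn_none (by
      have := h.1
      cases h3 : inn l k with
      | none => rfl
      | some y => rw [h3] at this; exact absurd this (by simp))
    rw [h1]
    exact ih _ _ k h.2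

theorem wB_shift (w : List Lt) : ∀ (n m d d' : ℕ) (k : Fin 3), hits w k = true →
    wB w (n + m) d k = n + wB w m d' k := by
  induction w with
  | nil => intro n m d d' k h; exact absurd h (by simp [hits])
  | cons l w ih =>
    intro n m d d' k h
    unfold wB
    rw [hits_cons] at h
    cases hw : hits w k with
    | true =>
      cases h1 : out l k with
      | none =>
        dsimp only
        rw [add_assoc]
        exact ih n (m + sz l) _ _ k hw
      | some y =>
        dsimp only
        rw [add_assoc]
        exact ih n (m + sz l) _ _ k hw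
    | false =>
      rw [hw, Bool.or_false, inn_out] at h
      obtain ⟨y, hy⟩ := Option.isSome_iff_exists.1 h
      rw [hy]
      dsimp only
      rw [wB_miss w _ _ k hw, wB_miss w _ _ k hw, add_assoc]

theorem wB_lt (w : List Lt) : ∀ (k : Fin 3), hits w k = true → wB w 0 0 k < wN w := by
  induction w with
  | nil => intro k h; exact absurd h (by simp [hits])
  | cons l w ih =>
    intro k h
    unfold wB wN
    rw [hits_cons] at h
    cases hw : hits w k with
    | true =>
      have h2 : ∀ d, wB w (0 + sz l) d k = sz l + wB w 0 0 k := fun d => by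
        rw [Nat.add_comm 0]
        exact wB_shift w (sz l) 0 d 0 k hw
      have := ih k hw
      cases h1 : out l k with
      | none =>
        dsimp only
        rw [h2]
        omega
      | some y =>
        dsimp only
        rw [h2]
        omega
    | false =>
      rw [hw, Bool.or_false, inn_out] at h
      obtain ⟨y, hy⟩ := Option.isSome_iff_exists.1 h
      rw [hy]
      dsimp only
      rw [wB_miss w _ _ k hw]
      have := out_lt l k y hy
      omega

/-- Shifting the numbers. -/
theorem edg_shift (w : List Lt) : ∀ (n m : ℕ) (cur : Fin 3 → Option ℕ) (p : ℕ × ℕ), p ∈ edg w m cur →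
    (n + p.1, n + p.2) ∈ edg w (n + m) (fun k => (cur k).map (n + ·)) := by
  induction w with
  | nil => intro n m cur p h; exact absurd h (by simp [edg])
  | cons l w ih =>
    intro n m cur p h
    unfold edg at h ⊢
    rw [List.mem_append] at h ⊢
    have hlink : ∀ i, p ∈ link cur m l i →
        (n + p.1, n + p.2) ∈ link (fun k => (cur k).map (n + ·)) (n + m) l i := by
      intro i hi
      unfold link at hi ⊢
      cases h1 : cur i with
      | none => rw [h1] at hi; exact absurd hi (by simp)
      | some x =>
        cases h2 : inn l i with
        | none => rw [h1, h2] at hi; exact absurd hi (by simp)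
        | some y =>
          rw [h1, h2] at hi
          simp only [List.mem_singleton] at hi
          subst hi
          dsimp only
          rw [h1]
          show (n + x, n + (m + y)) ∈ [(n + x, n + m + y)]
          rw [add_assoc]
          exact List.mem_singleton.2 rfl
    rcases h with h | h
    · left
      rw [List.mem_append] at h ⊢
      rcases h with h | h
      · left
        obtain ⟨e, he, rfl⟩ := List.mem_map.1 h
        refine List.mem_map.2 ⟨e, he, ?_⟩
        simp only [Prod.mk.injEq]
        constructor <;> ring
      · right
        rw [List.mem_append, List.mem_append] at h ⊢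
        rcases h with h | h | h
        · exact Or.inl (hlink _ h)
        · exact Or.inr (Or.inl (hlink _ h))
        · exact Or.inr (Or.inr (hlink _ h))
    · right
      have h3 := ih n (m + sz l) (nxt cur m l) p h
      have h4 : (fun k => (nxt cur m l k).map (n + ·)) =
          nxt (fun k => (cur k).map (n + ·)) (n + m) l := by
        funext k
        unfold nxt
        cases h1 : out l k with
        | none => rfl
        | some y =>
          simp only [Option.map_some, Option.some.injEq]
          ring
      rw [h4, ← add_assoc] at h3
      exact h3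

/-- More current ends give more edges. -/
theorem edg_mono (w : List Lt) : ∀ (n : ℕ) (cur cur' : Fin 3 → Option ℕ)
    (_ : ∀ k x, cur k = some x → cur' k = some x) (p : ℕ × ℕ), p ∈ edg w n cur →
    p ∈ edg w n cur' := by
  induction w with
  | nil => intro n cur cur' _ p h; exact absurd h (by simp [edg])
  | cons l w ih =>
    intro n cur cur' hc p h
    unfold edg at h ⊢
    rw [List.mem_append] at h ⊢
    have hlink : ∀ i, p ∈ link cur n l i → p ∈ link cur' n l i := by
      intro i hi
      unfold link at hi ⊢
      cases h1 : cur i with
      | none => rw [h1] at hi; exact absurd hi (by simp)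
      | some x =>
        rw [h1] at hi
        rw [hc i x h1]
        exact hi
    rcases h with h | h
    · left
      rw [List.mem_append] at h ⊢
      rcases h with h | h
      · exact Or.inl h
      · right
        rw [List.mem_append, List.mem_append] at h ⊢
        rcases h with h | h | h
        · exact Or.inl (hlink _ h)
        · exact Or.inr (Or.inl (hlink _ h))
        · exact Or.inr (Or.inr (hlink _ h))
    · right
      refine ih _ _ _ (fun k x hk => ?_) p h
      unfold nxt at hk ⊢
      cases h1 : out l k with
      | none => rw [h1] at hk; exact hc k x hk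
      | some y => rw [h1] at hk; exact hk

/-- The edge from a current end to the word. -/
theorem edg_link (w : List Lt) : ∀ (n : ℕ) (cur : Fin 3 → Option ℕ) (k : Fin 3) (x : ℕ),
    cur k = some x → hits w k = true → (x, wA w n k) ∈ edg w n cur := by
  induction w with
  | nil => intro n cur k x _ h; exact absurd h (by simp [hits])
  | cons l w ih =>
    intro n cur k x hx h
    unfold edg wA
    rw [hits_cons] at h
    rw [List.mem_append]
    cases h1 : inn l k with
    | none =>
      right
      rw [h1] at h
      dsimp only
      refine ih _ _ k x ?_ h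
      unfold nxt
      rw [inn_none h1]
      exact hx
    | some y =>
      left
      rw [List.mem_append]
      right
      have h2 : (x, n + y) ∈ link cur n l k := by
        unfold link
        rw [hx, h1]
        exact List.mem_singleton.2 rfl
      dsimp only
      rw [List.mem_append, List.mem_append]
      have h3 : k = 0 ∨ k = 1 ∨ k = 2 := by
        fin_cases k
        · exact Or.inl rfl
        · exact Or.inr (Or.inl rfl)
        · exact Or.inr (Or.inr rfl)
      rcases h3 with rfl | rfl | rfl
      · exact Or.inl h2
      · exact Or.inr (Or.inl h2)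
      · exact Or.inr (Or.inr h2)

/-- A numbering of the vertices of the piece. -/
structure Num (G : SimpleGraph V) (w : List Lt) (B : V → Prop) (s b : Fin 3 → V)
    (B' : V → Prop) (s' b' : Fin 3 → V) (f : ℕ → V) : Prop where
  inj : ∀ i j, i < wN w → j < wN w → f i = f j → i = j
  rng : ∀ v, (B v ∧ ¬ B' v) ↔ ∃ i, i < wN w ∧ f i = v
  edge : ∀ i j, i < wN w → j < wN w → G.Adj (f i) (f j) → (i, j) ∈ wE w ∨ (j, i) ∈ wE w
  hit : ∀ k, hits w k = true → f (wA w 0 k) = s k ∧ f (wB w 0 0 k) = b' k
  mis : ∀ k, hits w k = false → s' k = s k ∧ b' k = b k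
  sub : ∀ v, B' v → B v

theorem exists_num {G : SimpleGraph V} {w : List Lt} {B : V → Prop} {s b : Fin 3 → V}
    {B' : V → Prop} {s' b' : Fin 3 → V} (h : Chain G B' s' b' w B s b) :
    ∃ f, Num G w B s b B' s' b' f := by
  induction h with
  | nil h =>
    refine ⟨fun _ => s' 0, fun i j hi => absurd hi (by unfold wN; omega), fun v => ⟨fun h1 => absurd h1.1 h1.2,
      fun ⟨i, hi, _⟩ => absurd hi (by unfold wN; omega)⟩, fun i j hi => absurd hi (by unfold wN; omega),
      fun k hk => absurd hk (by simp [hits]), fun k _ => ⟨rfl, rfl⟩, fun v hv => hv⟩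
  | cons l w g B s b B1 s1 b1 h1 h2 h3 ih =>
    obtain ⟨f1, hf⟩ := ih
    have hE1 := h3.end3
    set n := sz l with hn
    set f : ℕ → V := fun i => if i < n then g i else f1 (i - n) with hfd
    have fa : ∀ i, i < n → f i = g i := fun i hi => if_pos hi
    have fb : ∀ i, f (n + i) = f1 i := fun i => by
      show (if n + i < n then g (n + i) else f1 (n + i - n)) = f1 i
      rw [if_neg (by omega), Nat.add_sub_cancel_left]
    have hwN : wN (l :: w) = n + wN w := rfl
    have split : ∀ i, i < wN (l :: w) → i < n ∨ ∃ j, j < wN w ∧ i = n + j := by
      intro i hi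
      by_cases h4 : i < n
      · exact Or.inl h4
      · exact Or.inr ⟨i - n, by omega, by omega⟩
    have hgB : ∀ i, i < n → B (g i) := fun i hi => (h2.mem _).2 (Or.inl ⟨i, hi, rfl⟩)
    have hf1B : ∀ i, i < wN w → B1 (f1 i) ∧ ¬ B' (f1 i) := fun i hi => (hf.rng _).2 ⟨i, hi, rfl⟩
    -- the mixed edges
    have mixed : ∀ i j, i < n → j < wN w → G.Adj (g i) (f1 j) →
        (i, n + j) ∈ wE (l :: w) := by
      intro i j hi hj hij
      obtain ⟨k, h5, h6⟩ := hE1.leave (f1 j) (g i) (hf1B j hj).1 (h2.nB1 i hi) hij.symm
      have hk : hits w k = true := by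
        by_contra h7
        rw [Bool.not_eq_true] at h7
        have h8 := (hf.mis k h7).1
        refine (hf1B j hj).2 ?_
        rw [h5, ← h8]
        exact h3.end3'.inB k
      have h9 : j = wA w 0 k := by
        refine hf.inj _ _ hj (wA_lt w k hk) ?_
        rw [(hf.hit k hk).1, h5]
      cases h10 : out l k with
      | none =>
        exfalso
        have h11 : inn l k = none := by
          have := inn_out l k
          rw [h10] at this
          cases h12 : inn l k with
          | none => rfl
          | some y => rw [h12] at this; exact absurd this (by simp)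
        refine h1.outB k ?_
        rw [← (h2.gmis k h11).2, ← h6]
        exact hgB i hi
      | some y =>
        have h11 : i = y := by
          refine h2.ginj _ _ hi (out_lt l k y h10) ?_
          rw [h6, h2.gout k y h10]
        subst h11
        show (i, n + j) ∈ edg (l :: w) 0 fun _ => none
        unfold edg
        rw [List.mem_append]
        right
        have h12 := edg_link w (0 + sz l) (nxt (fun _ => none) 0 l) k (0 + i)
          (by unfold nxt; rw [h10]) hk
        rw [zero_add, zero_add] at h12
        rw [h9, zero_add]
        have h13 : wA w (sz l) k = n + wA w 0 k := by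
          have := wA_shift w (sz l) 0 k hk
          rwa [add_zero] at this
        rw [h13] at h12
        exact h12
    refine ⟨f, ⟨?_, ?_, ?_, ?_, ?_, ?_⟩⟩
    · intro i j hi hj hij
      rcases split i hi with h4 | ⟨i', h4, rfl⟩ <;> rcases split j hj with h5 | ⟨j', h5, rfl⟩
      · rw [fa i h4, fa j h5] at hij
        exact h2.ginj i j h4 h5 hij
      · rw [fa i h4, fb j'] at hij
        exact absurd (hij ▸ (hf1B j' h5).1) (h2.nB1 i h4)
      · rw [fb i', fa j h5] at hij
        exact absurd (hij ▸ (hf1B i' h4).1) (h2.nB1 j h5)
      · rw [fb i', fb j'] at hij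
        rw [hf.inj i' j' h4 h5 hij]
    · intro v
      constructor
      · rintro ⟨hv, hv'⟩
        rcases (h2.mem v).1 hv with ⟨i, hi, rfl⟩ | h4
        · exact ⟨i, by omega, fa i hi⟩
        · obtain ⟨i, hi, rfl⟩ := (hf.rng v).1 ⟨h4, hv'⟩
          exact ⟨n + i, by omega, fb i⟩
      · rintro ⟨i, hi, rfl⟩
        rcases split i hi with h4 | ⟨i', h4, rfl⟩
        · rw [fa i h4]
          exact ⟨hgB i h4, fun h5 => h2.nB1 i h4 (hf.sub _ h5)⟩
        · rw [fb i']
          exact ⟨(h2.mem _).2 (Or.inr (hf1B i' h4).1), (hf1B i' h4).2⟩
    · intro i j hi hj hij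
      rcases split i hi with h4 | ⟨i', h4, rfl⟩ <;> rcases split j hj with h5 | ⟨j', h5, rfl⟩
      · rw [fa i h4, fa j h5] at hij
        have hin : ∀ p, p ∈ inner l → p ∈ wE (l :: w) := by
          intro p hp
          show p ∈ edg (l :: w) 0 fun _ => none
          unfold edg
          rw [List.mem_append, List.mem_append]
          left
          left
          refine List.mem_map.2 ⟨p, hp, ?_⟩
          rw [zero_add, zero_add]
        rcases h2.gedge i j h4 h5 hij with h6 | h6
        · exact Or.inl (hin _ h6)
        · exact Or.inr (hin _ h6)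
      · rw [fa i h4, fb j'] at hij
        exact Or.inl (mixed i j' h4 h5 hij)
      · rw [fb i', fa j h5] at hij
        exact Or.inr (mixed j i' h5 h4 hij.symm)
      · rw [fb i', fb j'] at hij
        have hin : ∀ p : ℕ × ℕ, p ∈ wE w → (n + p.1, n + p.2) ∈ wE (l :: w) := by
          intro p hp
          show _ ∈ edg (l :: w) 0 fun _ => none
          unfold edg
          rw [List.mem_append]
          right
          have h6 := edg_shift w n 0 (fun _ => none) p hp
          rw [add_zero] at h6
          rw [zero_add]
          refine edg_mono w _ _ _ (fun k x hk => ?_) _ h6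
          exact absurd hk (by simp)
        rcases hf.edge i' j' h4 h5 hij with h6 | h6
        · exact Or.inl (hin _ h6)
        · exact Or.inr (hin _ h6)
    · intro k hk
      rw [hits_cons] at hk
      constructor
      · unfold wA
        cases h4 : inn l k with
        | none =>
          rw [h4] at hk
          dsimp only
          have h5 : wA w (0 + sz l) k = n + wA w 0 k := by
            rw [Nat.add_comm 0]
            exact wA_shift w (sz l) 0 k hk
          rw [h5, fb, (hf.hit k hk).1, (h2.gmis k h4).1]
        | some y =>
          dsimp only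
          rw [zero_add, fa y (inn_lt l k y h4), h2.ginn k y h4]
      · unfold wB
        cases hw : hits w k with
        | true =>
          have h5 : ∀ d, wB w (0 + sz l) d k = n + wB w 0 0 k := fun d => by
            rw [Nat.add_comm 0]
            exact wB_shift w (sz l) 0 d 0 k hw
          cases h4 : out l k with
          | none =>
            dsimp only
            rw [h5, fb, (hf.hit k hw).2]
          | some y =>
            dsimp only
            rw [h5, fb, (hf.hit k hw).2]
        | false =>
          rw [hw, Bool.or_false, inn_out] at hk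
          obtain ⟨y, hy⟩ := Option.isSome_iff_exists.1 hk
          rw [hy]
          dsimp only
          rw [wB_miss w _ _ k hw, zero_add, fa y (out_lt l k y hy), (hf.mis k hw).2, h2.gout k y hy]
    · intro k hk
      rw [hits_cons, Bool.or_eq_false_iff] at hk
      have h4 : inn l k = none := by
        cases h5 : inn l k with
        | none => rfl
        | some y => rw [h5] at hk; exact absurd hk.1 (by simp)
      obtain ⟨h6, h7⟩ := hf.mis k hk.2
      obtain ⟨h8, h9⟩ := h2.gmis k h4
      exact ⟨h6.trans h8, h7.trans h9⟩
    · intro v hv
      exact (h2.mem v).2 (Or.inr (hf.sub v hv))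

theorem hits_cat : ∀ w ∈ catW, ∀ k, hits w k = true := by decide +kernel

/-- **A chain whose word is in the catalogue is a universal piece.** -/
theorem uni_of_chain {G : SimpleGraph V} {w : List Lt} {B : V → Prop} {s b : Fin 3 → V}
    {B' : V → Prop} {s' b' : Fin 3 → V} (h : Chain G B' s' b' w B s b) (hw : w ∈ catW)
    (hb : Function.Injective b) {n : ℤ} (hn : 0 < n) :
    Uni G (fun v => B v ∧ ¬ B' v) B' 14 n := by
  obtain ⟨f, hf⟩ := exists_num h
  have hh := hits_cat w hw
  have e := h.end3
  have e' := h.end3'
  have hfi : ∀ i, i < wN w → B (f i) ∧ ¬ B' (f i) := fun i hi => (hf.rng _).2 ⟨i, hi, rfl⟩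
  refine uni_of_word (b := b) (b' := s') hw hn f hf.inj hf.rng hf.edge (fun i hi => e.outB i hi.1)
    (fun i hi => e.outB i (hf.sub _ hi)) (fun i => ?_) hb (fun i hi => hi.2 (e'.inB i)) e'.inB
    (fun i => ?_) e'.inj (fun i y hi hy hiy hy' => ?_) (fun i y hi hy hiy hy' => ?_)
  · rw [(hf.hit i (hh i)).1]
    exact e.adj i
  · rw [(hf.hit i (hh i)).2]
    exact (e'.adj i).symm
  · have h1 : ¬ B y := fun h2 => hy ⟨h2, hy'⟩
    obtain ⟨k, h2, h3⟩ := e.leave _ _ (hfi i hi).1 h1 hiy
    refine ⟨k, hf.inj _ _ hi (wA_lt w k (hh k)) ?_, h3⟩
    rw [(hf.hit k (hh k)).1, h2]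
  · obtain ⟨k, h2, h3⟩ := e'.leave _ _ hy' (hfi i hi).2 hiy.symm
    refine ⟨k, hf.inj _ _ hi (wB_lt w k (hh k)) ?_, h2⟩
    rw [(hf.hit k (hh k)).2, h3]

end Pool.Agent.WordU
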