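import Mathlib

/-!
# Farkas lemma over the reals (Bartl) and a packing form
-/

namespace Pool.Agent.Uni3

open Finset

/-- Farkas lemma (Bartl). -/
theorem farkas_aux {W : Type*} [AddCommGroup W] [Module ℝ W] {n : ℕ} (A : Fin n → W →ₗ[ℝ] ℝ)
    (b : W →ₗ[ℝ] ℝ) (h : ¬ ∃ x, (∀ i, A i x ≤ 0) ∧ 0 < b x) :
    ∃ c : Fin n → ℝ, (∀ i, 0 ≤ c i) ∧ b = ∑ i, c i • A i := by
  induction n generalizing b with
  | zero =>
    refine ⟨fun i => i.elim0, fun i => i.elim0, ?_⟩
    ext x
    simp only [Finset.univ_eq_empty, Finset.sum_empty, LinearMap.zero_apply]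
    have h1 : b x ≤ 0 := by
      by_contra hc
      exact h ⟨x, fun i => i.elim0, not_le.1 hc⟩
    have h2 : b (-x) ≤ 0 := by
      by_contra hc
      exact h ⟨-x, fun i => i.elim0, not_le.1 hc⟩
    rw [map_neg] at h2
    linarith
  | succ n ih =>
    by_cases h0 : ∃ x, (∀ i : Fin n, A i.castSucc x ≤ 0) ∧ 0 < b x
    · obtain ⟨x0, hx0, hb0⟩ := h0
      have hl : 0 < A (Fin.last n) x0 := by
        by_contra hc
        refine h ⟨x0, fun i => ?_, hb0⟩
        refine Fin.lastCases (not_lt.1 hc) (fun j => hx0 j) i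
      set a := A (Fin.last n) x0 with ha
      set y : W := a⁻¹ • x0 with hy
      have hy1 : A (Fin.last n) y = 1 := by
        rw [hy, map_smul, smul_eq_mul, ← ha, inv_mul_cancel₀ hl.ne']
      have hyA : ∀ i : Fin n, A i.castSucc y ≤ 0 := by
        intro i
        rw [hy, map_smul, smul_eq_mul]
        exact mul_nonpos_of_nonneg_of_nonpos (inv_nonneg.2 hl.le) (hx0 i)
      have hyb : 0 < b y := by
        rw [hy, map_smul, smul_eq_mul]
        exact mul_pos (inv_pos.2 hl) hb0
      obtain ⟨c, hc0, hc⟩ := ih (fun i => A i.castSucc - (A i.castSucc y) • A (Fin.last n))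
        (b - (b y) • A (Fin.last n)) (by
          rintro ⟨x, hx, hbx⟩
          refine h ⟨x - (A (Fin.last n) x) • y, fun i => ?_, ?_⟩
          · refine Fin.lastCases ?_ (fun j => ?_) i
            · rw [map_sub, map_smul, hy1, smul_eq_mul, mul_one, sub_self]
            · have h1 := hx j
              simp only [LinearMap.sub_apply, LinearMap.smul_apply, smul_eq_mul] at h1
              rw [map_sub, map_smul, smul_eq_mul]
              linarith [mul_comm (A (Fin.last n) x) (A j.castSucc y)]
          · simp only [LinearMap.sub_apply, LinearMap.smul_apply, smul_eq_mul] at hbx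
            rw [map_sub, map_smul, smul_eq_mul]
            linarith [mul_comm (A (Fin.last n) x) (b y)])
      refine ⟨Fin.snoc c (b y - ∑ i, c i * A i.castSucc y), fun i => ?_, ?_⟩
      · refine Fin.lastCases ?_ (fun j => ?_) i
        · rw [Fin.snoc_last]
          have : ∑ i, c i * A i.castSucc y ≤ 0 :=
            Finset.sum_nonpos fun i _ => mul_nonpos_of_nonneg_of_nonpos (hc0 i) (hyA i)
          linarith
        · rw [Fin.snoc_castSucc]
          exact hc0 j
      · ext x
        have h1 := LinearMap.congr_fun hc x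
        simp only [LinearMap.sub_apply, LinearMap.smul_apply, smul_eq_mul, LinearMap.sum_apply,
          mul_sub, Finset.sum_sub_distrib] at h1
        simp only [Fin.sum_univ_castSucc, Fin.snoc_castSucc, Fin.snoc_last, LinearMap.add_apply]
        simp only [LinearMap.sum_apply, LinearMap.smul_apply, smul_eq_mul]
        have h2 : ∑ i, c i * (A i.castSucc y * A (Fin.last n) x) =
            (∑ i, c i * A i.castSucc y) * A (Fin.last n) x := by
          rw [Finset.sum_mul]
          exact Finset.sum_congr rfl fun i _ => by ring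
        rw [h2] at h1
        linarith
    · obtain ⟨c, hc0, hc⟩ := ih (fun i => A i.castSucc) b h0
      refine ⟨Fin.snoc c 0, fun i => ?_, ?_⟩
      · refine Fin.lastCases ?_ (fun j => ?_) i
        · rw [Fin.snoc_last]
        · rw [Fin.snoc_castSucc]
          exact hc0 j
      · rw [hc, Fin.sum_univ_castSucc]
        simp only [Fin.snoc_castSucc, Fin.snoc_last, zero_smul, add_zero]

theorem farkas {W : Type*} [AddCommGroup W] [Module ℝ W] {ι : Type*} [Fintype ι]
    (A : ι → W →ₗ[ℝ] ℝ) (b : W →ₗ[ℝ] ℝ) (h : ¬ ∃ x, (∀ i, A i x ≤ 0) ∧ 0 < b x) :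
    ∃ c : ι → ℝ, (∀ i, 0 ≤ c i) ∧ b = ∑ i, c i • A i := by
  classical
  obtain ⟨c, hc, hb⟩ := farkas_aux (fun i => A ((Fintype.equivFin ι).symm i)) b (by
    rintro ⟨x, hx, hb⟩
    exact h ⟨x, fun i => by simpa using hx (Fintype.equivFin ι i), hb⟩)
  refine ⟨fun i => c (Fintype.equivFin ι i), fun i => hc _, ?_⟩
  rw [hb, ← Equiv.sum_comp (Fintype.equivFin ι)]
  simp

section packing

variable {U I : Type*} [Fintype U] [DecidableEq U] [Fintype I]

/-- the number of classes minus one -/
noncomputable def ncl (κ : U → U) : ℝ := ((univ.image κ).card : ℝ) - 1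

/-- **Weights on the pairs with prescribed upper bounds and prescribed partition sums.** -/
theorem exists_pairs (sep : I → U → U → Prop) (o : I → ℝ)
    (hmain : ∀ (μ : I → ℝ) (l : (U → U) → ℝ), (∀ i, 0 ≤ μ i) → (∀ κ, 0 ≤ l κ) →
      (∀ f g, (∑ κ, l κ * if κ f = κ g then 0 else 1) ≤
        ∑ i, μ i * (open Classical in if sep i f g then 1 else 0)) →
      ∑ κ, l κ * ncl κ ≤ ∑ i, μ i * o i) :
    ∃ x : U × U → ℝ, (∀ e, 0 ≤ x e) ∧
      (∀ κ : U → U, ncl κ ≤ ∑ e : U × U, if κ e.1 = κ e.2 then 0 else x e) ∧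
      ∀ i, (∑ e : U × U, (open Classical in if sep i e.1 e.2 then x e else 0)) ≤ o i := by
  classical
  by_contra hcon
  let W := (U × U → ℝ) × ℝ
  let X : U × U → W →ₗ[ℝ] ℝ := fun e =>
    (LinearMap.proj e).comp (LinearMap.fst ℝ (U × U → ℝ) ℝ)
  let T : W →ₗ[ℝ] ℝ := LinearMap.snd ℝ (U × U → ℝ) ℝ
  let A : (U × U) ⊕ ((U → U) ⊕ I) → W →ₗ[ℝ] ℝ := fun j =>
    match j with
    | Sum.inl e => - X e
    | Sum.inr (Sum.inl κ) => ncl κ • T - ∑ e : U × U, (if κ e.1 = κ e.2 then (0 : ℝ) else 1) • X e
    | Sum.inr (Sum.inr i) => (∑ e : U × U, (if sep i e.1 e.2 then (1 : ℝ) else 0) • X e) - o i • T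
  have hX : ∀ e (w : W), X e w = w.1 e := fun e w => rfl
  have hT : ∀ w : W, T w = w.2 := fun w => rfl
  obtain ⟨c, hc, hb⟩ := farkas A T (by
    rintro ⟨⟨x, τ⟩, hx, hτ⟩
    rw [hT] at hτ
    simp only at hτ
    apply hcon
    refine ⟨fun e => x e / τ, fun e => ?_, fun κ => ?_, fun i => ?_⟩
    · have h1 := hx (Sum.inl e)
      simp only [A, LinearMap.neg_apply, hX] at h1
      exact div_nonneg (by linarith) hτ.le
    · have h1 := hx (Sum.inr (Sum.inl κ))
      simp only [A, LinearMap.sub_apply, LinearMap.smul_apply, LinearMap.sum_apply, hX, hT,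
        smul_eq_mul] at h1
      have h2 : (∑ e : U × U, if κ e.1 = κ e.2 then 0 else x e / τ) =
          (∑ e : U × U, (if κ e.1 = κ e.2 then (0 : ℝ) else 1) * x e) / τ := by
        rw [Finset.sum_div]
        refine Finset.sum_congr rfl fun e _ => ?_
        split_ifs <;> simp
      rw [h2, le_div_iff₀ hτ]
      linarith
    · have h1 := hx (Sum.inr (Sum.inr i))
      simp only [A, LinearMap.sub_apply, LinearMap.smul_apply, LinearMap.sum_apply, hX, hT,
        smul_eq_mul] at h1
      have h2 : (∑ e : U × U, if sep i e.1 e.2 then x e / τ else 0) =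
          (∑ e : U × U, (if sep i e.1 e.2 then (1 : ℝ) else 0) * x e) / τ := by
        rw [Finset.sum_div]
        refine Finset.sum_congr rfl fun e _ => ?_
        split_ifs <;> simp
      rw [h2, div_le_iff₀ hτ]
      linarith)
  have hev : ∀ w : W, w.2 = ∑ j, c j * A j w := by
    intro w
    have := LinearMap.congr_fun hb w
    rw [LinearMap.sum_apply] at this
    rw [← hT, this]
    refine Finset.sum_congr rfl fun j _ => ?_
    rw [LinearMap.smul_apply, smul_eq_mul]
  have h1 := hev ((0 : U × U → ℝ), (1 : ℝ))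
  simp only [Fintype.sum_sum_type, A, LinearMap.neg_apply, LinearMap.sub_apply,
    LinearMap.smul_apply, LinearMap.sum_apply, hX, hT, smul_eq_mul, Pi.zero_apply, mul_zero,
    mul_one, neg_zero, Finset.sum_const_zero, sub_zero, zero_sub, mul_neg, Finset.sum_neg_distrib,
    zero_add] at h1
  have h2 := hmain (fun i => c (Sum.inr (Sum.inr i))) (fun κ => c (Sum.inr (Sum.inl κ)))
    (fun i => hc _) (fun κ => hc _) (by
      intro f g
      have h3 := hev ((Pi.single (f, g) (1 : ℝ) : U × U → ℝ), (0 : ℝ))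
      simp only [Fintype.sum_sum_type, A, LinearMap.neg_apply, LinearMap.sub_apply,
        LinearMap.smul_apply, LinearMap.sum_apply, hX, hT, smul_eq_mul, mul_zero, sub_zero,
        zero_sub] at h3
      have e1 : ∀ F : U × U → ℝ, ∑ e, F e * (Pi.single (f, g) (1 : ℝ) : U × U → ℝ) e =
          F (f, g) := by
        intro F
        rw [Finset.sum_eq_single (f, g)]
        · simp
        · intro b _ hb
          rw [Pi.single_eq_of_ne hb, mul_zero]
        · intro h; exact absurd (mem_univ _) h
      have e2 : ∑ x : U × U, c (Sum.inl x) * -(Pi.single (f, g) (1 : ℝ) : U × U → ℝ) x =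
          - c (Sum.inl (f, g)) := by
        rw [← e1 (fun e => c (Sum.inl e)), ← Finset.sum_neg_distrib]
        refine Finset.sum_congr rfl fun e _ => by ring
      rw [e2] at h3
      simp only [e1] at h3
      have h4 := hc (Sum.inl (f, g))
      have e3 : ∑ x, c (Sum.inr (Sum.inl x)) * -(if x f = x g then (0 : ℝ) else 1) =
          - ∑ x, c (Sum.inr (Sum.inl x)) * (if x f = x g then (0 : ℝ) else 1) := by
        rw [← Finset.sum_neg_distrib]
        refine Finset.sum_congr rfl fun e _ => by ring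
      rw [e3] at h3
      linarith)
  have h5 : (1 : ℝ) = (∑ κ, c (Sum.inr (Sum.inl κ)) * ncl κ) -
      ∑ i, c (Sum.inr (Sum.inr i)) * o i := by
    linarith
  linarith

end packing

end Pool.Agent.Uni3
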