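import Mathlib
import Pool.Agent.Work.MP_392c8e_co_uni.FarkasR

/-!
# The packing form with demands
-/

namespace Pool.Agent.Uni3

open Finset

variable {U D I : Type*} [Fintype U] [DecidableEq U] [Fintype D] [DecidableEq D] [Fintype I]

/-- **Weights on the pairs of terminals and routes of the demands, with prescribed upper bounds
for the cuts.** -/
theorem exists_pairs_dem (sep : I → U → U → Prop) (sepD : I → D → U → Prop) (o : D → ℝ)
    (c : I → ℝ)
    (hmain : ∀ (μ : I → ℝ) (l : (U → U) → ℝ) (ν : D → ℝ), (∀ i, 0 ≤ μ i) → (∀ κ, 0 ≤ l κ) →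
      (∀ z, 0 ≤ ν z) →
      (∀ f g, (∑ κ, l κ * if κ f = κ g then 0 else 1) ≤
        ∑ i, μ i * (open Classical in if sep i f g then 1 else 0)) →
      (∀ z k, ν z ≤ ∑ i, μ i * (open Classical in if sepD i z k then 1 else 0)) →
      ∑ κ, l κ * ncl κ + ∑ z, ν z * o z ≤ ∑ i, μ i * c i) :
    ∃ (x : U × U → ℝ) (g : D × U → ℝ), (∀ e, 0 ≤ x e) ∧ (∀ q, 0 ≤ g q) ∧
      (∀ κ : U → U, ncl κ ≤ ∑ e : U × U, if κ e.1 = κ e.2 then 0 else x e) ∧
      (∀ z, o z ≤ ∑ k, g (z, k)) ∧
      ∀ i, (∑ e : U × U, (open Classical in if sep i e.1 e.2 then x e else 0)) +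
        (∑ q : D × U, (open Classical in if sepD i q.1 q.2 then g q else 0)) ≤ c i := by
  classical
  by_contra hcon
  let W := ((U × U → ℝ) × (D × U → ℝ)) × ℝ
  let X : U × U → W →ₗ[ℝ] ℝ := fun e =>
    ((LinearMap.proj e).comp (LinearMap.fst ℝ (U × U → ℝ) (D × U → ℝ))).comp
      (LinearMap.fst ℝ ((U × U → ℝ) × (D × U → ℝ)) ℝ)
  let Y : D × U → W →ₗ[ℝ] ℝ := fun q =>
    ((LinearMap.proj q).comp (LinearMap.snd ℝ (U × U → ℝ) (D × U → ℝ))).comp
      (LinearMap.fst ℝ ((U × U → ℝ) × (D × U → ℝ)) ℝ)
  let T : W →ₗ[ℝ] ℝ := LinearMap.snd ℝ ((U × U → ℝ) × (D × U → ℝ)) ℝ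
  let A : ((U × U) ⊕ (D × U)) ⊕ (((U → U) ⊕ D) ⊕ I) → W →ₗ[ℝ] ℝ := fun j =>
    match j with
    | Sum.inl (Sum.inl e) => - X e
    | Sum.inl (Sum.inr q) => - Y q
    | Sum.inr (Sum.inl (Sum.inl κ)) =>
        ncl κ • T - ∑ e : U × U, (if κ e.1 = κ e.2 then (0 : ℝ) else 1) • X e
    | Sum.inr (Sum.inl (Sum.inr z)) => o z • T - ∑ k : U, Y (z, k)
    | Sum.inr (Sum.inr i) => (∑ e : U × U, (if sep i e.1 e.2 then (1 : ℝ) else 0) • X e) +
        (∑ q : D × U, (if sepD i q.1 q.2 then (1 : ℝ) else 0) • Y q) - c i • T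
  have hX : ∀ e (w : W), X e w = w.1.1 e := fun e w => rfl
  have hY : ∀ q (w : W), Y q w = w.1.2 q := fun q w => rfl
  have hT : ∀ w : W, T w = w.2 := fun w => rfl
  obtain ⟨m, hm, hb⟩ := farkas A T (by
    rintro ⟨⟨⟨x, g⟩, τ⟩, hx, hτ⟩
    rw [hT] at hτ
    simp only at hτ
    apply hcon
    refine ⟨fun e => x e / τ, fun q => g q / τ, fun e => ?_, fun q => ?_, fun κ => ?_,
      fun z => ?_, fun i => ?_⟩
    · have h1 := hx (Sum.inl (Sum.inl e))
      simp only [A, LinearMap.neg_apply, hX] at h1
      exact div_nonneg (by linarith) hτ.le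
    · have h1 := hx (Sum.inl (Sum.inr q))
      simp only [A, LinearMap.neg_apply, hY] at h1
      exact div_nonneg (by linarith) hτ.le
    · have h1 := hx (Sum.inr (Sum.inl (Sum.inl κ)))
      simp only [A, LinearMap.sub_apply, LinearMap.smul_apply, LinearMap.sum_apply, hX, hT,
        smul_eq_mul] at h1
      have h2 : (∑ e : U × U, if κ e.1 = κ e.2 then 0 else x e / τ) =
          (∑ e : U × U, (if κ e.1 = κ e.2 then (0 : ℝ) else 1) * x e) / τ := by
        rw [Finset.sum_div]
        refine Finset.sum_congr rfl fun e _ => ?_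
        split_ifs <;> simp
      rw [h2, le_div_iff₀ hτ]
      linarith
    · have h1 := hx (Sum.inr (Sum.inl (Sum.inr z)))
      simp only [A, LinearMap.sub_apply, LinearMap.smul_apply, LinearMap.sum_apply, hY, hT,
        smul_eq_mul] at h1
      rw [← Finset.sum_div, le_div_iff₀ hτ]
      linarith
    · have h1 := hx (Sum.inr (Sum.inr i))
      simp only [A, LinearMap.sub_apply, LinearMap.add_apply, LinearMap.smul_apply,
        LinearMap.sum_apply, hX, hY, hT, smul_eq_mul] at h1
      have h2 : (∑ e : U × U, if sep i e.1 e.2 then x e / τ else 0) =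
          (∑ e : U × U, (if sep i e.1 e.2 then (1 : ℝ) else 0) * x e) / τ := by
        rw [Finset.sum_div]
        refine Finset.sum_congr rfl fun e _ => ?_
        split_ifs <;> simp
      have h3 : (∑ q : D × U, if sepD i q.1 q.2 then g q / τ else 0) =
          (∑ q : D × U, (if sepD i q.1 q.2 then (1 : ℝ) else 0) * g q) / τ := by
        rw [Finset.sum_div]
        refine Finset.sum_congr rfl fun e _ => ?_
        split_ifs <;> simp
      rw [h2, h3, ← add_div, div_le_iff₀ hτ]
      linarith)
  have hev : ∀ w : W, w.2 = ∑ j, m j * A j w := by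
    intro w
    have := LinearMap.congr_fun hb w
    rw [LinearMap.sum_apply] at this
    rw [← hT, this]
    refine Finset.sum_congr rfl fun j _ => ?_
    rw [LinearMap.smul_apply, smul_eq_mul]
  have h1 := hev (((0 : U × U → ℝ), (0 : D × U → ℝ)), (1 : ℝ))
  simp only [Fintype.sum_sum_type, A, LinearMap.neg_apply, LinearMap.sub_apply,
    LinearMap.add_apply,
    LinearMap.smul_apply, LinearMap.sum_apply, hX, hY, hT, smul_eq_mul, Pi.zero_apply, mul_zero,
    mul_one, neg_zero, Finset.sum_const_zero, sub_zero, zero_sub, mul_neg, Finset.sum_neg_distrib,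
    zero_add, add_zero] at h1
  have h2 := hmain (fun i => m (Sum.inr (Sum.inr i))) (fun κ => m (Sum.inr (Sum.inl (Sum.inl κ))))
    (fun z => m (Sum.inr (Sum.inl (Sum.inr z)))) (fun i => hm _) (fun κ => hm _) (fun z => hm _)
    (by
      intro f g
      have h3 := hev (((Pi.single (f, g) (1 : ℝ) : U × U → ℝ), (0 : D × U → ℝ)), (0 : ℝ))
      simp only [Fintype.sum_sum_type, A, LinearMap.neg_apply, LinearMap.sub_apply,
        LinearMap.add_apply, LinearMap.smul_apply, LinearMap.sum_apply, hX, hY, hT, smul_eq_mul,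
        mul_zero, sub_zero, Pi.zero_apply, neg_zero, Finset.sum_const_zero, add_zero,
        zero_sub] at h3
      have e1 : ∀ F : U × U → ℝ, ∑ e, F e * (Pi.single (f, g) (1 : ℝ) : U × U → ℝ) e =
          F (f, g) := by
        intro F
        rw [Finset.sum_eq_single (f, g)]
        · simp
        · intro b _ hb
          rw [Pi.single_eq_of_ne hb, mul_zero]
        · intro h; exact absurd (mem_univ _) h
      have e2 : ∑ x : U × U, m (Sum.inl (Sum.inl x)) *
          -(Pi.single (f, g) (1 : ℝ) : U × U → ℝ) x = - m (Sum.inl (Sum.inl (f, g))) := by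
        rw [← e1 (fun e => m (Sum.inl (Sum.inl e))), ← Finset.sum_neg_distrib]
        refine Finset.sum_congr rfl fun e _ => by ring
      rw [e2] at h3
      simp only [e1] at h3
      have h4 := hm (Sum.inl (Sum.inl (f, g)))
      have e3 : ∑ x, m (Sum.inr (Sum.inl (Sum.inl x))) * -(if x f = x g then (0 : ℝ) else 1) =
          - ∑ x, m (Sum.inr (Sum.inl (Sum.inl x))) * (if x f = x g then (0 : ℝ) else 1) := by
        rw [← Finset.sum_neg_distrib]
        refine Finset.sum_congr rfl fun e _ => by ring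
      rw [e3] at h3
      linarith)
    (by
      intro z k
      have h3 := hev (((0 : U × U → ℝ), (Pi.single (z, k) (1 : ℝ) : D × U → ℝ)), (0 : ℝ))
      simp only [Fintype.sum_sum_type, A, LinearMap.neg_apply, LinearMap.sub_apply,
        LinearMap.add_apply, LinearMap.smul_apply, LinearMap.sum_apply, hX, hY, hT, smul_eq_mul,
        mul_zero, sub_zero, Pi.zero_apply, neg_zero, Finset.sum_const_zero, zero_add,
        zero_sub] at h3
      have e1 : ∀ F : D × U → ℝ, ∑ e, F e * (Pi.single (z, k) (1 : ℝ) : D × U → ℝ) e =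
          F (z, k) := by
        intro F
        rw [Finset.sum_eq_single (z, k)]
        · simp
        · intro b _ hb
          rw [Pi.single_eq_of_ne hb, mul_zero]
        · intro h; exact absurd (mem_univ _) h
      have e2 : ∑ x : D × U, m (Sum.inl (Sum.inr x)) *
          -(Pi.single (z, k) (1 : ℝ) : D × U → ℝ) x = - m (Sum.inl (Sum.inr (z, k))) := by
        rw [← e1 (fun e => m (Sum.inl (Sum.inr e))), ← Finset.sum_neg_distrib]
        refine Finset.sum_congr rfl fun e _ => by ring
      have e3 : ∑ z' : D, m (Sum.inr (Sum.inl (Sum.inr z'))) *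
          -(∑ k', (Pi.single (z, k) (1 : ℝ) : D × U → ℝ) (z', k')) =
          - m (Sum.inr (Sum.inl (Sum.inr z))) := by
        rw [Finset.sum_eq_single z]
        · have e4 : ∑ k', (Pi.single (z, k) (1 : ℝ) : D × U → ℝ) (z, k') = 1 := by
            rw [Finset.sum_eq_single k]
            · simp
            · intro b _ hb
              rw [Pi.single_eq_of_ne]
              intro h
              exact hb (congrArg Prod.snd h)
            · intro h; exact absurd (mem_univ _) h
          rw [e4]
          ring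
        · intro b _ hb
          have e4 : ∑ k', (Pi.single (z, k) (1 : ℝ) : D × U → ℝ) (b, k') = 0 := by
            refine Finset.sum_eq_zero fun k' _ => ?_
            rw [Pi.single_eq_of_ne]
            intro h
            exact hb (congrArg Prod.fst h)
          rw [e4]
          ring
        · intro h; exact absurd (mem_univ _) h
      rw [e2, e3] at h3
      simp only [e1] at h3
      have h4 := hm (Sum.inl (Sum.inr (z, k)))
      linarith)
  linarith

end Pool.Agent.Uni3
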