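import Mathlib
import Pool.Agent.Work.MP_392c8e_co_odd.TreeChg

/-!
# Real offsets from weights in the dominant of the spanning tree polytope
-/

namespace Pool.Agent.Uni3

open Finset Pool.Agent.Circ Pool.Agent.OddFlow

set_option linter.unusedSectionVars false

variable {V E : Type*} [Fintype V] [DecidableEq V] [Fintype E] [DecidableEq E]

/-- Real offsets from the partition condition for a multigraph. -/
theorem exists_off_part (s t : E → V) (θ : ℝ) (hθ0 : 0 ≤ θ)
    (hθ : ∀ p : V → ℕ, ((univ.image p).card : ℝ) - 1 ≤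
      θ * ((univ.filter (fun e => p (s e) ≠ p (t e))).card : ℝ))
    (b : V → ℝ) (hb : ∃ m : ℤ, ∑ v, b v = 2 * m) :
    ∃ n : V → ℤ, (∑ v, (b v + 2 * n v) = 0) ∧
      ∀ Z : Finset V, |∑ v ∈ Z, (b v + 2 * n v)| ≤ θ * (cut s t Z).card := by
  classical
  have hD : ∑ v, dv s t (fun _ => (1 : ℝ)) v = 0 := by
    have h1 := sum_mul_dv s t (fun _ => (1 : ℝ)) (fun _ => 1)
    simpa using h1
  obtain ⟨f, hf, hfb⟩ := offset s t θ hθ0 hθ
    (fun v => ((dv s t (fun _ => (1 : ℝ)) v + b v : ℝ) : AddCircle (2 : ℝ))) (by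
      have h1 : ∀ F : V → ℝ, ∑ v, ((F v : ℝ) : AddCircle (2 : ℝ)) =
          ((∑ v, F v : ℝ) : AddCircle (2 : ℝ)) := fun F =>
        (map_sum (QuotientAddGroup.mk' (AddSubgroup.zmultiples (2 : ℝ))) F univ).symm
      rw [h1, sum_add_distrib, hD, zero_add]
      obtain ⟨m, hm⟩ := hb
      refine (AddCircle.coe_eq_zero_iff (2 : ℝ)).2 ⟨m, ?_⟩
      rw [zsmul_eq_mul, hm]
      ring)
  choose y hy hfy using fun e => Charge.exists_lift (f e) θ (hfb e)
  have h1 : ∀ v, ∃ m : ℤ, dv s t y v = b v + 2 * m := by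
    intro v
    have h2 : ((dv s t (fun e => 1 + y e) v : ℝ) : AddCircle (2 : ℝ)) =
        ((dv s t (fun _ => (1 : ℝ)) v + b v : ℝ) : AddCircle (2 : ℝ)) := by
      rw [← Charge.dvT_coe, ← hf v]
      congr 1
      funext e
      exact (hfy e).symm
    have h3 : dv s t (fun e => 1 + y e) v = dv s t (fun _ => (1 : ℝ)) v + dv s t y v :=
      dv_add s t (fun _ => (1 : ℝ)) y v
    rw [h3] at h2
    have h4 : ((dv s t y v - b v : ℝ) : AddCircle (2 : ℝ)) = 0 := by
      rw [AddCircle.coe_add, AddCircle.coe_add, add_right_inj] at h2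
      rw [AddCircle.coe_sub, h2, sub_self]
    obtain ⟨m, hm⟩ := (AddCircle.coe_eq_zero_iff (2 : ℝ)).1 h4
    refine ⟨m, ?_⟩
    rw [zsmul_eq_mul] at hm
    linarith
  choose m hm using h1
  have hsum : ∑ v, dv s t y v = 0 := by
    have h1 := sum_mul_dv s t y (fun _ => 1)
    simpa using h1
  refine ⟨m, ?_, fun Z => ?_⟩
  · rw [← hsum]
    exact sum_congr rfl fun v _ => (hm v).symm
  · have h2 : ∑ v ∈ Z, (b v + 2 * m v) = ∑ v ∈ Z, dv s t y v :=
      sum_congr rfl fun v _ => (hm v).symm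
    rw [h2]
    exact Charge.dv_bound s t y θ hy Z

/-- **Real offsets from weights in the dominant of the spanning tree polytope.** -/
theorem exists_off_tree (s t : E → V) (x : E → ℝ) (h0 : ∀ e, 0 ≤ x e)
    (hx : ∀ p : V → ℕ, ((univ.image p).card : ℝ) - 1 ≤
      ∑ e ∈ univ.filter (fun e => p (s e) ≠ p (t e)), x e)
    (b : V → ℝ) (hb : ∃ m : ℤ, ∑ v, b v = 2 * m) :
    ∃ w : V → ℤ, (∑ v, (b v + 2 * w v) = 0) ∧
      ∀ Z : Finset V, |∑ v ∈ Z, (b v + 2 * w v)| ≤ ∑ e ∈ cut s t Z, x e := by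
  classical
  set m := Fintype.card E with hm
  -- approximate solutions
  have happ : ∀ M : ℕ, 0 < M → ∃ w : V → ℤ, (∑ v, (b v + 2 * w v) = 0) ∧
      ∀ Z : Finset V, |∑ v ∈ Z, (b v + 2 * w v)| ≤ ∑ e ∈ cut s t Z, x e + m / M := by
    intro M hM
    have hM0 : (0 : ℝ) < M := by exact_mod_cast hM
    set h : E → ℕ := fun e => ⌈(M : ℝ) * x e⌉₊ with hh
    have hle : ∀ e, (M : ℝ) * x e ≤ h e := fun e => Nat.le_ceil _
    have hge : ∀ e, (h e : ℝ) ≤ M * x e + 1 := fun e =>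
      (Nat.ceil_lt_add_one (mul_nonneg hM0.le (h0 e))).le
    obtain ⟨w, hw2, hw3⟩ := exists_off_part
      (fun a : Σ e, Fin (h e) => s a.1) (fun a : Σ e, Fin (h e) => t a.1) (1 / (M : ℝ))
      (by positivity) (by
        intro p
        refine (hx p).trans ?_
        have h1 : (univ.filter fun a : Σ e, Fin (h e) => p (s a.1) ≠ p (t a.1)).card =
            ∑ e ∈ univ.filter (fun e => p (s e) ≠ p (t e)), h e := by
          have h2 : (univ.filter fun a : Σ e, Fin (h e) => p (s a.1) ≠ p (t a.1)) =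
              (univ.filter (fun e => p (s e) ≠ p (t e))).sigma fun _ => univ := by
            ext a
            simp [mem_sigma]
          rw [h2, card_sigma]
          simp
        rw [h1, Nat.cast_sum, mul_sum]
        refine sum_le_sum fun e _ => ?_
        rw [one_div, ← div_eq_inv_mul, le_div_iff₀ hM0, mul_comm]
        exact hle e) b hb
    refine ⟨w, hw2, fun Z => (hw3 Z).trans ?_⟩
    rw [Wt.card_cut_sigma s t h Z, Nat.cast_sum, mul_sum]
    calc ∑ e ∈ cut s t Z, 1 / (M : ℝ) * (h e : ℝ) ≤ ∑ e ∈ cut s t Z, (x e + 1 / M) := by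
          refine sum_le_sum fun e _ => ?_
          rw [one_div, ← div_eq_inv_mul, div_le_iff₀ hM0, add_mul]
          have h3 : (M : ℝ)⁻¹ * M = 1 := inv_mul_cancel₀ hM0.ne'
          have h4 := hge e
          linarith
      _ = ∑ e ∈ cut s t Z, x e + (cut s t Z).card / M := by
          rw [sum_add_distrib, sum_const, nsmul_eq_mul]
          ring
      _ ≤ _ := by
          have h3 : ((cut s t Z).card : ℝ) ≤ m := by exact_mod_cast card_le_univ _
          gcongr
  by_contra hcon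
  push Not at hcon
  -- a bound for the charges
  obtain ⟨B, hB⟩ := exists_nat_gt (∑ e, x e + m + ∑ v, |b v|)
  set Om : Finset (V → ℤ) := (Fintype.piFinset fun _ : V => Finset.Icc (-(B : ℤ)) B).filter
    fun w => (∑ v, (b v + 2 * w v) = 0) with hOm
  have hgap : ∀ w ∈ Om, ∃ Z : Finset V,
      ∑ e ∈ cut s t Z, x e < |∑ v ∈ Z, (b v + 2 * w v)| := by
    intro w hw
    rw [hOm, mem_filter] at hw
    exact hcon w hw.2
  choose! Zw hZw using hgap
  have happ1 : ∀ M : ℕ, 0 < M → ∃ w ∈ Om, ∀ Z : Finset V,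
      |∑ v ∈ Z, (b v + 2 * w v)| ≤ ∑ e ∈ cut s t Z, x e + m / M := by
    intro M hM
    obtain ⟨w, h2, h3⟩ := happ M hM
    refine ⟨w, ?_, h3⟩
    rw [hOm, mem_filter, Fintype.mem_piFinset]
    refine ⟨fun v => ?_, h2⟩
    rw [Finset.mem_Icc]
    have h4 := h3 {v}
    rw [sum_singleton] at h4
    have h5 : ∑ e ∈ cut s t {v}, x e ≤ ∑ e, x e :=
      sum_le_sum_of_subset_of_nonneg (subset_univ _) fun e _ _ => h0 e
    have h6 : (m : ℝ) / M ≤ m := by
      have hM1 : (1 : ℝ) ≤ M := by exact_mod_cast hM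
      exact div_le_self (Nat.cast_nonneg _) hM1
    have h9 : |b v| ≤ ∑ v, |b v| :=
      single_le_sum (f := fun v => |b v|) (fun v _ => abs_nonneg _) (mem_univ v)
    have h7 : |((w v : ℤ) : ℝ)| ≤ (B : ℝ) := by
      have h10 : |2 * ((w v : ℤ) : ℝ)| ≤ |b v + 2 * w v| + |b v| := by
        have := abs_sub (b v + 2 * (w v : ℝ)) (b v)
        rwa [add_sub_cancel_left] at this
      rw [abs_mul, abs_two] at h10
      have h11 := abs_nonneg ((w v : ℤ) : ℝ)
      linarith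
    have h8 : |w v| ≤ (B : ℤ) := by exact_mod_cast h7
    exact abs_le.1 h8
  have hne : Om.Nonempty := by
    obtain ⟨w, hw, _⟩ := happ1 1 one_pos
    exact ⟨w, hw⟩
  obtain ⟨w0, hw0, hmin⟩ := Om.exists_min_image
    (fun w => |∑ v ∈ Zw w, (b v + 2 * w v)| - ∑ e ∈ cut s t (Zw w), x e) hne
  set ε := |∑ v ∈ Zw w0, (b v + 2 * w0 v)| - ∑ e ∈ cut s t (Zw w0), x e with hε
  have hε0 : 0 < ε := by
    have := hZw w0 hw0
    linarith
  obtain ⟨M, hM⟩ := exists_nat_gt ((m : ℝ) / ε)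
  have hM1 : (m : ℝ) / ((M + 1 : ℕ) : ℝ) < ε := by
    rw [div_lt_iff₀ hε0] at hM
    rw [div_lt_iff₀ (by positivity)]
    push_cast
    nlinarith
  obtain ⟨w, hw, hw3⟩ := happ1 (M + 1) (Nat.succ_pos _)
  have h1 := hmin w hw
  have h2 := hw3 (Zw w)
  linarith

end Pool.Agent.Uni3
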