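import Mathlib
import Pool.Agent.Work.MP_392c8e_co_uni.FarkasR

/-!
# Growing moats

For a pseudometric `δ` and a set `K` of terminals the weight of a shortest spanning tree of `K` is
at most the total `om`-weighted length of the edges, if every family of disjoint sets which
meet and cover `K` has large boundary.
-/

namespace Pool.Agent.Uni3

open Finset MeasureTheory

set_option linter.unusedSectionVars false

variable {V : Type*} [Fintype V] [DecidableEq V]

/-- Terminals at distance less than `r`. -/
def near (K : Finset V) (δ : V → V → ℝ) (r : ℝ) (f g : V) : Prop := f ∈ K ∧ g ∈ K ∧ δ f g < r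

/-- The components of the terminals at scale `r`. -/
def compS (K : Finset V) (δ : V → V → ℝ) (r : ℝ) : Setoid V := Relation.EqvGen.setoid (near K δ r)

/-- The representative of a component. -/
noncomputable def rep (K : Finset V) (δ : V → V → ℝ) (r : ℝ) (v : V) : V :=
  (Quotient.mk (compS K δ r) v).out

variable {K : Finset V} {δ : V → V → ℝ} {r : ℝ}

theorem rep_rel (v : V) : Relation.EqvGen (near K δ r) (rep K δ r v) v :=
  Quotient.exact (Quotient.out_eq (Quotient.mk (compS K δ r) v))

theorem rep_eq {u v : V} (h : Relation.EqvGen (near K δ r) u v) : rep K δ r u = rep K δ r v := by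
  unfold rep
  rw [show Quotient.mk (compS K δ r) u = Quotient.mk (compS K δ r) v from Quotient.sound h]

theorem rep_rep (v : V) : rep K δ r (rep K δ r v) = rep K δ r v := rep_eq (rep_rel v)

theorem rel_of_rep {u v : V} (h : rep K δ r u = rep K δ r v) :
    Relation.EqvGen (near K δ r) u v := by
  refine Relation.EqvGen.trans _ _ _ (Relation.EqvGen.symm _ _ (rep_rel u)) ?_
  rw [h]
  exact rep_rel v

/-- A set closed under `near` is closed under components. -/
theorem mem_iff_of_rel {S : Finset V} (h : ∀ f g, near K δ r f g → (f ∈ S ↔ g ∈ S)) {u v : V}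
    (huv : Relation.EqvGen (near K δ r) u v) : u ∈ S ↔ v ∈ S := by
  induction huv with
  | rel x y hxy => exact h x y hxy
  | refl x => exact Iff.rfl
  | symm x y _ ih => exact ih.symm
  | trans x y z _ _ ih1 ih2 => exact ih1.trans ih2

theorem rep_mem {v : V} (hv : v ∈ K) : rep K δ r v ∈ K :=
  (mem_iff_of_rel (S := K) (fun _ _ h => ⟨fun _ => h.2.1, fun _ => h.1⟩) (rep_rel v)).2 hv

/-- **Prim's algorithm.** -/
theorem prim {J : Type*} [Fintype J] {C : Type*} [DecidableEq C] (lam : J → ℝ) (kap : J → V → C)
    (hl : ∀ j, 0 ≤ lam j) (h0 : ∀ u v, 0 ≤ δ u v) (hs : ∀ u v, δ u v = δ v u)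
    (hlk : ∀ f ∈ K, ∀ g ∈ K, (∑ j, lam j * if kap j f = kap j g then 0 else 1) ≤ δ f g)
    {k0 : V} (hk0 : k0 ∈ K) (n : ℕ) (hn : 1 ≤ n) (hnK : n ≤ K.card) :
    ∃ A ⊆ K, A.card = n ∧ k0 ∈ A ∧ ∃ d : V → ℝ, (∀ v, 0 ≤ d v) ∧
      (∑ j, lam j * (((A.image (kap j)).card : ℝ) - 1) ≤ ∑ v ∈ A.erase k0, d v) ∧
      ∀ r : ℝ, ((A.erase k0).filter (fun v => r ≤ d v)).card + 1 ≤
        (A.image (rep K δ r)).card := by
  induction n with
  | zero => omega
  | succ n ih =>
    rcases Nat.eq_zero_or_pos n with rfl | hn0
    · refine ⟨{k0}, by simpa using hk0, by simp, by simp, fun _ => 0, fun _ => le_rfl, ?_, ?_⟩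
      · simp
      · intro r
        simp
    obtain ⟨A, hAK, hAc, hkA, d, hd0, h1, h2⟩ := ih hn0 (by omega)
    have hne : (K \ A).Nonempty := by
      rw [Finset.sdiff_nonempty]
      intro h
      have := Finset.card_le_card h
      omega
    obtain ⟨⟨k, a⟩, hka, hmin⟩ := Finset.exists_min_image ((K \ A) ×ˢ A)
      (fun q => δ q.1 q.2) (hne.product ⟨k0, hkA⟩)
    rw [mem_product] at hka
    obtain ⟨hk, ha⟩ := hka
    rw [mem_sdiff] at hk
    simp only at hk ha hmin
    have hmin' : ∀ k' ∈ K, k' ∉ A → ∀ a' ∈ A, δ k a ≤ δ k' a' := by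
      intro k' h3 h4 a' h5
      exact hmin (k', a') (mem_product.2 ⟨mem_sdiff.2 ⟨h3, h4⟩, h5⟩)
    have hkk0 : k ≠ k0 := fun h => hk.2 (h ▸ hkA)
    have her : (insert k A).erase k0 = insert k (A.erase k0) := by
      rw [Finset.erase_insert_of_ne hkk0]
    have hkne : k ∉ A.erase k0 := fun h => hk.2 (mem_of_mem_erase h)
    refine ⟨insert k A, insert_subset hk.1 hAK, by rw [card_insert_of_notMem hk.2, hAc],
      mem_insert_of_mem hkA, Function.update d k (δ k a), fun v => ?_, ?_, fun r => ?_⟩
    · by_cases h : v = k
      · subst h; rw [Function.update_self]; exact h0 _ _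
      · rw [Function.update_of_ne h]; exact hd0 v
    · rw [her, sum_insert hkne, Function.update_self]
      have e1 : ∑ v ∈ A.erase k0, Function.update d k (δ k a) v = ∑ v ∈ A.erase k0, d v :=
        sum_congr rfl fun v hv => by
          rw [Function.update_of_ne]
          rintro rfl
          exact hkne hv
      rw [e1]
      have h3 : ∀ j, (((insert k A).image (kap j)).card : ℝ) ≤
          ((A.image (kap j)).card : ℝ) + if kap j k = kap j a then 0 else 1 := by
        intro j
        rw [image_insert]
        by_cases h : kap j k = kap j a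
        · rw [if_pos h, insert_eq_of_mem (h ▸ mem_image_of_mem _ ha), add_zero]
        · rw [if_neg h]
          exact_mod_cast card_insert_le _ _
      have h4 := hlk k hk.1 a (hAK ha)
      calc ∑ j, lam j * ((((insert k A).image (kap j)).card : ℝ) - 1)
          ≤ ∑ j, (lam j * (((A.image (kap j)).card : ℝ) - 1) +
              lam j * if kap j k = kap j a then 0 else 1) := by
            refine sum_le_sum fun j _ => ?_
            rw [← mul_add]
            refine mul_le_mul_of_nonneg_left ?_ (hl j)
            linarith [h3 j]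
        _ = _ := sum_add_distrib
        _ ≤ _ := by linarith
    · rw [her, image_insert, filter_insert]
      have hfe : (A.erase k0).filter (fun v => r ≤ Function.update d k (δ k a) v) =
          (A.erase k0).filter (fun v => r ≤ d v) := by
        refine filter_congr fun v hv => ?_
        rw [Function.update_of_ne]
        rintro rfl
        exact hkne hv
      rw [hfe, Function.update_self]
      split_ifs with hr
      · have h3 : rep K δ r k ∉ A.image (rep K δ r) := by
          intro h4
          obtain ⟨a', ha', h5⟩ := mem_image.1 h4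
          have h6 := (mem_iff_of_rel (S := A) (by
            rintro f g ⟨hf, hg, hfg⟩
            constructor
            · intro hfA
              by_contra hgA
              have := hmin' g hg hgA f hfA
              rw [hs g f] at this
              linarith
            · intro hgA
              by_contra hfA
              have := hmin' f hf hfA g hgA
              linarith) (rel_of_rep h5)).1 ha'
          exact hk.2 h6
        rw [card_insert_of_notMem h3, card_insert_of_notMem (fun h => hkne (mem_filter.1 h).1)]
        have := h2 r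
        omega
      · refine (h2 r).trans (card_le_card (subset_insert _ _))

/-- The label of a vertex at scale `r`: the component of the terminals whose moat contains it. -/
noncomputable def lab (K : Finset V) (δ : V → V → ℝ) (r : ℝ) (v : V) : Option V := by
  classical
  exact if h : ∃ f ∈ K, 2 * δ v f < r then some (rep K δ r h.choose) else none

/-- The number of covered classes whose boundary contains an edge between `u` and `v`. -/
noncomputable def cc (p : V → Option V) (u v : V) : ℝ :=
  if p u = p v then 0 else (if p u = none then 0 else 1) + (if p v = none then 0 else 1)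

/-- pseudometrics -/
structure IsPM (δ : V → V → ℝ) : Prop where
  nonneg : ∀ u v, 0 ≤ δ u v
  symm : ∀ u v, δ u v = δ v u
  self : ∀ v, δ v v = 0
  tri : ∀ u v w, δ u w ≤ δ u v + δ v w

theorem lab_eq (hp : IsPM δ) {v f : V} (hf : f ∈ K) (h : 2 * δ v f < r) :
    lab K δ r v = some (rep K δ r f) := by
  classical
  have hex : ∃ f ∈ K, 2 * δ v f < r := ⟨f, hf, h⟩
  have h1 := hex.choose_spec
  unfold lab
  rw [dif_pos hex]
  congr 1
  apply rep_eq
  apply Relation.EqvGen.rel
  refine ⟨h1.1, hf, ?_⟩
  have h2 := hp.tri hex.choose v f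
  rw [hp.symm hex.choose v] at h2
  linarith [h1.2]

theorem lab_none {v : V} (h : ∀ f ∈ K, r ≤ 2 * δ v f) : lab K δ r v = none := by
  classical
  unfold lab
  rw [dif_neg]
  rintro ⟨f, hf, h1⟩
  linarith [h f hf]

theorem lab_self (hp : IsPM δ) (hr : 0 < r) {v : V} (hv : v ∈ K) :
    lab K δ r v = some (rep K δ r v) :=
  lab_eq hp hv (by rw [hp.self]; linarith)

theorem lab_some {v c : V} (h : lab K δ r v = some c) :
    ∃ f ∈ K, 2 * δ v f < r ∧ c = rep K δ r f := by
  classical
  unfold lab at h
  split_ifs at h with hex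
  exact ⟨hex.choose, hex.choose_spec.1, hex.choose_spec.2, (Option.some.inj h).symm⟩

/-- The pointwise bound for one edge. -/
theorem cc_le (hp : IsPM δ) {u v fu fv : V} (hu : fu ∈ K) (hv : fv ∈ K)
    (hu' : ∀ g ∈ K, δ u fu ≤ δ u g) (hv' : ∀ g ∈ K, δ v fv ≤ δ v g) :
    cc (lab K δ r) u v ≤
      (Set.Ioc (2 * min (δ u fu) (δ v fv)) (2 * max (δ u fu) (δ v fv))).indicator
        (fun _ => (1 : ℝ)) r +
      (Set.Ioc (2 * max (δ u fu) (δ v fv)) (δ u fu + δ v fv + δ u v)).indicator
        (fun _ => (2 : ℝ)) r := by
  have n1 : (0 : ℝ) ≤ (Set.Ioc (2 * min (δ u fu) (δ v fv)) (2 * max (δ u fu) (δ v fv))).indicator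
        (fun _ => (1 : ℝ)) r := Set.indicator_nonneg (fun _ _ => by norm_num) r
  have n2 : (0 : ℝ) ≤ (Set.Ioc (2 * max (δ u fu) (δ v fv)) (δ u fu + δ v fv + δ u v)).indicator
        (fun _ => (2 : ℝ)) r := Set.indicator_nonneg (fun _ _ => by norm_num) r
  set a := δ u fu with ha
  set b := δ v fv with hb
  have lu : (r ≤ 2 * a → lab K δ r u = none) := fun h => lab_none fun f hf => by
    linarith [hu' f hf]
  have lv : (r ≤ 2 * b → lab K δ r v = none) := fun h => lab_none fun f hf => by
    linarith [hv' f hf]
  have su : (2 * a < r → lab K δ r u = some (rep K δ r fu)) := fun h => lab_eq hp hu h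
  have sv : (2 * b < r → lab K δ r v = some (rep K δ r fv)) := fun h => lab_eq hp hv h
  rcases le_or_gt r (2 * a) with h1 | h1
  · rcases le_or_gt r (2 * b) with h2 | h2
    · have e : cc (lab K δ r) u v = 0 := by
        unfold cc
        rw [lu h1, lv h2, if_pos rfl]
      rw [e]; linarith
    · have e : cc (lab K δ r) u v = 1 := by
        unfold cc
        rw [lu h1, sv h2]
        simp
      have i1 : r ∈ Set.Ioc (2 * min a b) (2 * max a b) := by
        refine ⟨lt_of_le_of_lt ?_ h2, h1.trans ?_⟩
        · linarith [min_le_right a b]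
        · linarith [le_max_left a b]
      rw [e, Set.indicator_of_mem i1]
      linarith
  · rcases le_or_gt r (2 * b) with h2 | h2
    · have e : cc (lab K δ r) u v = 1 := by
        unfold cc
        rw [su h1, lv h2]
        simp
      have i1 : r ∈ Set.Ioc (2 * min a b) (2 * max a b) := by
        refine ⟨lt_of_le_of_lt ?_ h1, h2.trans ?_⟩
        · linarith [min_le_left a b]
        · linarith [le_max_right a b]
      rw [e, Set.indicator_of_mem i1]
      linarith
    · rcases le_or_gt r (a + b + δ u v) with h3 | h3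
      · have e : cc (lab K δ r) u v ≤ 2 := by
          unfold cc
          split_ifs <;> norm_num
        have i2 : r ∈ Set.Ioc (2 * max a b) (a + b + δ u v) := by
          refine ⟨?_, h3⟩
          rcases max_choice a b with h | h <;> rw [h] <;> assumption
        rw [Set.indicator_of_mem i2]
        linarith
      · have e : cc (lab K δ r) u v = 0 := by
          unfold cc
          rw [su h1, sv h2, if_pos]
          congr 1
          apply rep_eq
          apply Relation.EqvGen.rel
          refine ⟨hu, hv, ?_⟩
          have t1 := hp.tri fu u fv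
          have t2 := hp.tri u v fv
          rw [hp.symm fu u] at t1
          linarith
        rw [e]; linarith

theorem integrable_Ioc (a b c : ℝ) : Integrable ((Set.Ioc a b).indicator (fun _ => c)) := by
  rw [integrable_indicator_iff measurableSet_Ioc]
  exact integrableOn_const (by simp)

theorem integral_Ioc_const {a b : ℝ} (h : a ≤ b) (c : ℝ) :
    ∫ x, (Set.Ioc a b).indicator (fun _ => c) x = (b - a) * c := by
  rw [integral_indicator_const c measurableSet_Ioc, Real.volume_real_Ioc_of_le h, smul_eq_mul]

variable {E : Type*} [Fintype E]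

/-- **Moats.** -/
theorem moats (s t : E → V) (om : E → ℝ) (hom : ∀ e, 0 ≤ om e) (hK : K.Nonempty)
    (hp : IsPM δ)
    (H : ∀ p : V → Option V, (∀ v ∈ K, p v ≠ none) →
      (∀ v c, p v = some c → c ∈ K ∧ p c = some c) →
      2 * (((K.image p).card : ℝ) - 1) ≤ ∑ e, om e * cc p (s e) (t e))
    {J : Type*} [Fintype J] {C : Type*} [DecidableEq C] (lam : J → ℝ) (kap : J → V → C)
    (hl : ∀ j, 0 ≤ lam j)
    (hlk : ∀ f ∈ K, ∀ g ∈ K, (∑ j, lam j * if kap j f = kap j g then 0 else 1) ≤ δ f g) :
    ∑ j, lam j * (((K.image (kap j)).card : ℝ) - 1) ≤ ∑ e, om e * δ (s e) (t e) := by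
  classical
  obtain ⟨k0, hk0⟩ := hK
  obtain ⟨A, hAK, hAc, -, d, hd0, h1, h2⟩ := prim (K := K) (δ := δ) lam kap hl hp.nonneg hp.symm
    hlk hk0 K.card (card_pos.2 ⟨k0, hk0⟩) le_rfl
  have hA : A = K := eq_of_subset_of_card_le hAK (by rw [hAc])
  subst hA
  refine h1.trans ?_
  choose f hfK hfmin using fun u : V => exists_min_image A (fun g => δ u g) ⟨k0, hk0⟩
  -- pointwise
  let F : ℝ → ℝ := fun r => ∑ v ∈ A.erase k0, (Set.Ioc 0 (d v)).indicator (fun _ => (2 : ℝ)) r
  let G : ℝ → ℝ := fun r => ∑ e, om e *
    ((Set.Ioc (2 * min (δ (s e) (f (s e))) (δ (t e) (f (t e))))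
      (2 * max (δ (s e) (f (s e))) (δ (t e) (f (t e))))).indicator (fun _ => (1 : ℝ)) r +
    (Set.Ioc (2 * max (δ (s e) (f (s e))) (δ (t e) (f (t e))))
      (δ (s e) (f (s e)) + δ (t e) (f (t e)) + δ (s e) (t e))).indicator (fun _ => (2 : ℝ)) r)
  have hFG : ∀ r, F r ≤ G r := by
    intro r
    rcases le_or_gt r 0 with hr | hr
    · have e1 : F r = 0 := by
        refine sum_eq_zero fun v _ => Set.indicator_of_notMem ?_ _
        rintro ⟨h, -⟩
        linarith
      rw [e1]
      refine sum_nonneg fun e _ => mul_nonneg (hom e) (add_nonneg ?_ ?_)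
      · exact Set.indicator_nonneg (fun _ _ => by norm_num) r
      · exact Set.indicator_nonneg (fun _ _ => by norm_num) r
    · have e1 : F r = 2 * (((A.erase k0).filter (fun v => r ≤ d v)).card : ℝ) := by
        have e2 : F r = ∑ v ∈ A.erase k0, if r ≤ d v then (2 : ℝ) else 0 := by
          refine sum_congr rfl fun v _ => ?_
          rw [Set.indicator_apply]
          simp [hr]
        rw [e2, ← sum_filter, sum_const, nsmul_eq_mul, mul_comm]
      have e3 : (A.image (lab A δ r)).card = (A.image (rep A δ r)).card := by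
        have e4 : A.image (lab A δ r) = (A.image (rep A δ r)).image some := by
          rw [image_image]
          refine image_congr fun v hv => ?_
          exact lab_self hp hr hv
        rw [e4, card_image_of_injective _ (Option.some_injective V)]
      have h3 := H (lab A δ r) (fun v hv => by rw [lab_self hp hr hv]; simp) (by
        intro v c hc
        obtain ⟨g, hg, hg2, rfl⟩ := lab_some hc
        refine ⟨rep_mem hg, ?_⟩
        rw [lab_self hp hr (rep_mem hg), rep_rep])
      rw [e3] at h3
      have h4 := h2 r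
      have h5 : (((A.erase k0).filter (fun v => r ≤ d v)).card : ℝ) + 1 ≤
          ((A.image (rep A δ r)).card : ℝ) := by exact_mod_cast h4
      rw [e1]
      have h6 : ∑ e, om e * cc (lab A δ r) (s e) (t e) ≤ G r :=
        sum_le_sum fun e _ => mul_le_mul_of_nonneg_left
          (cc_le hp (hfK _) (hfK _) (hfmin _) (hfmin _)) (hom e)
      linarith
  have iF : Integrable F := integrable_finsetSum _ fun v _ => integrable_Ioc _ _ _
  have iG : Integrable G := integrable_finsetSum _ fun e _ =>
    ((integrable_Ioc _ _ _).add (integrable_Ioc _ _ _)).const_mul _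
  have h7 := integral_mono iF iG hFG
  have e5 : ∫ r, F r = 2 * ∑ v ∈ A.erase k0, d v := by
    rw [integral_finsetSum _ fun v _ => integrable_Ioc _ _ _, mul_sum]
    refine sum_congr rfl fun v _ => ?_
    rw [integral_Ioc_const (hd0 v)]
    ring
  have e6 : ∫ r, G r = 2 * ∑ e, om e * δ (s e) (t e) := by
    have hi : ∀ e ∈ (univ : Finset E), Integrable (fun r : ℝ => om e *
        ((Set.Ioc (2 * min (δ (s e) (f (s e))) (δ (t e) (f (t e))))
          (2 * max (δ (s e) (f (s e))) (δ (t e) (f (t e))))).indicator (fun _ => (1 : ℝ)) r +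
        (Set.Ioc (2 * max (δ (s e) (f (s e))) (δ (t e) (f (t e))))
          (δ (s e) (f (s e)) + δ (t e) (f (t e)) + δ (s e) (t e))).indicator
            (fun _ => (2 : ℝ)) r)) := fun e _ =>
      ((integrable_Ioc _ _ _).add (integrable_Ioc _ _ _)).const_mul _
    rw [integral_finsetSum _ hi, mul_sum]
    refine sum_congr rfl fun e _ => ?_
    rw [integral_const_mul, integral_add (integrable_Ioc _ _ _) (integrable_Ioc _ _ _),
      integral_Ioc_const, integral_Ioc_const]
    · have hm := min_add_max (δ (s e) (f (s e))) (δ (t e) (f (t e)))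
      have : (2 * max (δ (s e) (f (s e))) (δ (t e) (f (t e))) -
          2 * min (δ (s e) (f (s e))) (δ (t e) (f (t e)))) * 1 +
          (δ (s e) (f (s e)) + δ (t e) (f (t e)) + δ (s e) (t e) -
            2 * max (δ (s e) (f (s e))) (δ (t e) (f (t e)))) * 2 = 2 * δ (s e) (t e) := by
        linarith
      rw [this]
      ring
    · have q1 : δ (s e) (f (s e)) ≤ δ (s e) (t e) + δ (t e) (f (t e)) :=
        (hfmin (s e) _ (hfK (t e))).trans (hp.tri _ _ _)
      have q2 : δ (t e) (f (t e)) ≤ δ (s e) (t e) + δ (s e) (f (s e)) := by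
        have := (hfmin (t e) _ (hfK (s e))).trans (hp.tri (t e) (s e) _)
        rwa [hp.symm (t e) (s e)] at this
      rcases max_choice (δ (s e) (f (s e))) (δ (t e) (f (t e))) with h | h <;> rw [h] <;> linarith
    · have := min_le_max (a := δ (s e) (f (s e))) (b := δ (t e) (f (t e)))
      linarith
  rw [e5, e6] at h7
  linarith

end Pool.Agent.Uni3
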