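import Mathlib
import Pool.Agent.Work.MP_392c8e_co_uni.Moats
import Pool.Agent.Work.MP_392c8e_co_odd.TreeChg

/-!
# The energy theorem with Steiner vertices

Integral charges on a set `K` of terminals with prescribed parities, bounded by the weights of all
cuts, from the condition that every family of `m` disjoint sets which meet and cover `K` has total
boundary weight at least `2 (m - 1)`.
-/

namespace Pool.Agent.Uni3

open Finset Pool.Agent.Circ Pool.Agent.OddFlow

set_option linter.unusedSectionVars false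

variable {V E : Type*} [Fintype V] [DecidableEq V] [Fintype E] [DecidableEq E]

/-- The Steiner condition. -/
def SteinerCond (s t : E → V) (om : E → ℝ) (K : Finset V) : Prop :=
  ∀ p : V → Option V, (∀ v ∈ K, p v ≠ none) →
    (∀ v c, p v = some c → c ∈ K ∧ p c = some c) →
    2 * (((K.image p).card : ℝ) - 1) ≤ ∑ e, om e * cc p (s e) (t e)

/-- cut pseudometric -/
noncomputable def dl (μ : Finset V → ℝ) (u v : V) : ℝ :=
  ∑ Z, μ Z * if (u ∈ Z ↔ v ∈ Z) then 0 else 1

theorem isPM_dl {μ : Finset V → ℝ} (h0 : ∀ Z, 0 ≤ μ Z) : IsPM (dl μ) where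
  nonneg u v := sum_nonneg fun Z _ => mul_nonneg (h0 Z) (by split_ifs <;> norm_num)
  symm u v := by
    unfold dl
    refine sum_congr rfl fun Z _ => ?_
    simp only [iff_comm]
  self v := by
    unfold dl
    simp
  tri u v w := by
    unfold dl
    rw [← sum_add_distrib]
    refine sum_le_sum fun Z _ => ?_
    rw [← mul_add]
    refine mul_le_mul_of_nonneg_left ?_ (h0 Z)
    by_cases h1 : u ∈ Z <;> by_cases h2 : v ∈ Z <;> by_cases h3 : w ∈ Z <;> simp [h1, h2, h3]

/-- Weights on the pairs of terminals in the dominant of the spanning tree polytope. -/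
theorem exists_steiner_pairs (s t : E → V) (om : E → ℝ) (hom : ∀ e, 0 ≤ om e) (K : Finset V)
    (hK : K.Nonempty) (H : SteinerCond s t om K) :
    ∃ x : {v // v ∈ K} × {v // v ∈ K} → ℝ, (∀ e, 0 ≤ x e) ∧
      (∀ κ : {v // v ∈ K} → {v // v ∈ K}, ncl κ ≤
        ∑ e : {v // v ∈ K} × {v // v ∈ K}, if κ e.1 = κ e.2 then 0 else x e) ∧
      ∀ Z : Finset V, (∑ e : {v // v ∈ K} × {v // v ∈ K},
        if ¬ ((e.1 : V) ∈ Z ↔ (e.2 : V) ∈ Z) then x e else 0) ≤ ∑ e ∈ cut s t Z, om e := by
  classical
  obtain ⟨x, hx0, hx1, hx2⟩ := exists_pairs (U := {v // v ∈ K}) (I := Finset V)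
    (fun Z f g => ¬ ((f : V) ∈ Z ↔ (g : V) ∈ Z)) (fun Z => ∑ e ∈ cut s t Z, om e) (by
      intro μ l hμ hl hlk
      have hm := moats s t om hom hK (isPM_dl hμ) H (J := {v // v ∈ K} → {v // v ∈ K})
        (C := Option {v // v ∈ K}) l (fun κ v => if h : v ∈ K then some (κ ⟨v, h⟩) else none) hl
        (by
          intro f hf g hg
          have h1 := hlk ⟨f, hf⟩ ⟨g, hg⟩
          refine le_trans (le_of_eq ?_) (h1.trans (le_of_eq ?_))
          · refine sum_congr rfl fun κ _ => ?_
            simp only [hf, hg, dif_pos, Option.some.injEq]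
          · unfold dl
            refine sum_congr rfl fun Z _ => ?_
            by_cases h2 : (f ∈ Z ↔ g ∈ Z)
            · simp only [h2, not_true_eq_false, if_false, if_true]
            · simp only [h2, not_false_eq_true, if_false, if_true])
      refine le_trans (le_of_eq ?_) (hm.trans (le_of_eq ?_))
      · refine sum_congr rfl fun κ _ => ?_
        unfold ncl
        have e1 : K.image (fun v => if h : v ∈ K then some (κ ⟨v, h⟩) else none) =
            (univ.image κ).image some := by
          ext y
          simp only [mem_image, mem_univ, true_and, exists_exists_eq_and]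
          constructor
          · rintro ⟨v, hv, rfl⟩
            exact ⟨⟨v, hv⟩, by rw [dif_pos hv]⟩
          · rintro ⟨⟨v, hv⟩, rfl⟩
            exact ⟨v, hv, by rw [dif_pos hv]⟩
        rw [e1, card_image_of_injective _ (Option.some_injective _)]
      · unfold dl
        simp only [mul_sum]
        rw [sum_comm]
        refine sum_congr rfl fun Z _ => ?_
        unfold cut
        rw [sum_filter]
        refine sum_congr rfl fun e _ => ?_
        by_cases h2 : (s e ∈ Z ↔ t e ∈ Z)
        · simp [h2]
        · simp only [h2, not_false_eq_true, if_true, if_false]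
          ring)
  refine ⟨x, hx0, hx1, fun Z => ?_⟩
  refine le_trans (le_of_eq (sum_congr rfl fun e _ => ?_)) (hx2 Z)
  by_cases h : ((e.1 : V) ∈ Z ↔ (e.2 : V) ∈ Z)
  · simp only [h, not_true_eq_false, if_false]
  · simp only [h, not_false_eq_true, if_true]

/-- **The energy theorem with Steiner vertices.** -/
theorem exists_chg_steiner (s t : E → V) (om : E → ℝ) (hom : ∀ e, 0 ≤ om e) (K : Finset V)
    (H : SteinerCond s t om K) (b : V → ℤ) (hb : Even (∑ v ∈ K, b v)) :
    ∃ w : V → ℤ, (∀ v, v ∉ K → w v = 0) ∧ (∀ v ∈ K, (2 : ℤ) ∣ w v - b v) ∧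
      (∑ v, w v = 0) ∧
      ∀ Z : Finset V, |((∑ v ∈ Z, w v : ℤ) : ℝ)| ≤ ∑ e ∈ cut s t Z, om e := by
  classical
  rcases K.eq_empty_or_nonempty with hK | hK
  · refine ⟨0, fun v _ => rfl, fun v hv => ?_, by simp, fun Z => ?_⟩
    · rw [hK] at hv
      exact absurd hv (notMem_empty v)
    · simp only [Pi.zero_apply, sum_const_zero, Int.cast_zero, abs_zero]
      exact sum_nonneg fun e _ => hom e
  obtain ⟨x, hx0, hx1, hx2⟩ := exists_steiner_pairs s t om hom K hK H
  have : Nonempty {v // v ∈ K} := ⟨⟨hK.choose, hK.choose_spec⟩⟩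
  obtain ⟨w, hw1, hw2, hw3⟩ := exists_chg_tree (V := {v // v ∈ K})
    (E := {v // v ∈ K} × {v // v ∈ K}) (fun e => e.1) (fun e => e.2) x hx0 (by
      intro p
      set κ : {v // v ∈ K} → {v // v ∈ K} := fun u => Function.invFun p (p u) with hκ
      have h1 : ∀ u, p (κ u) = p u := fun u => Function.invFun_eq ⟨u, rfl⟩
      have h2 : ∀ u u', κ u = κ u' ↔ p u = p u' := by
        intro u u'
        constructor
        · intro h
          rw [← h1 u, ← h1 u', h]
        · intro h
          simp only [hκ, h]
      have h3 : (univ.image p).card ≤ (univ.image κ).card := by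
        have e : univ.image p = (univ.image κ).image p := by
          rw [image_image]
          refine image_congr fun u _ => (h1 u).symm
        rw [e]
        exact card_image_le
      have h4 := hx1 κ
      unfold ncl at h4
      have h5 : ((univ.image p).card : ℝ) ≤ ((univ.image κ).card : ℝ) := by exact_mod_cast h3
      have h6 : (∑ e : {v // v ∈ K} × {v // v ∈ K}, if κ e.1 = κ e.2 then 0 else x e) =
          ∑ e ∈ univ.filter (fun e : {v // v ∈ K} × {v // v ∈ K} => p e.1 ≠ p e.2), x e := by
        rw [sum_filter]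
        refine sum_congr rfl fun e _ => ?_
        by_cases h : p e.1 = p e.2
        · rw [if_pos ((h2 _ _).2 h), if_neg (not_not.2 h)]
        · rw [if_neg (fun h' => h ((h2 _ _).1 h')), if_pos h]
      rw [h6] at h4
      linarith) (fun u => b u) (by
      have : ∑ u : {v // v ∈ K}, b u = ∑ v ∈ K, b v := Finset.sum_coe_sort K b
      rwa [this])
  have hsum : ∀ Z : Finset V, (∑ v ∈ Z, if h : v ∈ K then w ⟨v, h⟩ else 0) =
      ∑ u ∈ univ.filter (fun u : {v // v ∈ K} => (u : V) ∈ Z), w u := by
    intro Z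
    have e1 : (∑ v ∈ Z, if h : v ∈ K then w ⟨v, h⟩ else 0) =
        ∑ v ∈ K, if v ∈ Z then (if h : v ∈ K then w ⟨v, h⟩ else 0) else 0 := by
      rw [← sum_filter, ← sum_filter_add_sum_filter_not Z (fun v => v ∈ K)]
      have e2 : (∑ v ∈ Z.filter (fun v => ¬ v ∈ K), if h : v ∈ K then w ⟨v, h⟩ else 0) = 0 :=
        sum_eq_zero fun v hv => dif_neg (mem_filter.1 hv).2
      rw [e2, add_zero]
      refine sum_congr ?_ fun _ _ => rfl
      ext v
      simp only [mem_filter, and_comm]
    rw [e1, ← Finset.sum_coe_sort K, sum_filter]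
    refine sum_congr rfl fun u _ => ?_
    by_cases h : (u : V) ∈ Z
    · rw [if_pos h, if_pos h, dif_pos u.2]
    · rw [if_neg h, if_neg h]
  refine ⟨fun v => if h : v ∈ K then w ⟨v, h⟩ else 0, fun v hv => dif_neg hv, ?_, ?_, ?_⟩
  · intro v hv
    simp only [hv, dif_pos]
    exact hw1 ⟨v, hv⟩
  · rw [hsum univ]
    simp only [mem_univ, filter_true]
    exact hw2
  · intro Z
    rw [hsum Z]
    refine (hw3 _).trans ?_
    refine le_trans (le_of_eq ?_) (hx2 Z)
    unfold cut
    rw [sum_filter]
    refine sum_congr rfl fun e _ => ?_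
    simp only [mem_filter, mem_univ, true_and]

end Pool.Agent.Uni3
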