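import Mathlib
import Pool.Agent.Work.MP_392c8e_co_uni.FarkasD
import Pool.Agent.Work.MP_392c8e_co_uni.Steiner
import Pool.Agent.Work.MP_392c8e_co_uni.OffTree

/-!
# The energy theorem with Steiner vertices and outer demands
-/

namespace Pool.Agent.Uni3

open Finset MeasureTheory Pool.Agent.Circ Pool.Agent.OddFlow

set_option linter.unusedSectionVars false

variable {V E : Type*} [Fintype V] [DecidableEq V] [Fintype E] [DecidableEq E]

/-- The Steiner condition with outer demands. -/
def SteinerDem (s t : E → V) (om : E → ℝ) (K : Finset V) (o : V → ℝ) : Prop :=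
  ∀ p : V → Option V, (∀ v ∈ K, p v ≠ none) →
    (∀ v c, p v = some c → c ∈ K ∧ p c = some c) →
    2 * (((K.image p).card : ℝ) - 1) + (∑ v, if p v = none then o v else 0) ≤
      ∑ e, om e * cc p (s e) (t e)

variable {K : Finset V} {δ : V → V → ℝ}

/-- **Moats with demands.** -/
theorem moats_dem (s t : E → V) (om : E → ℝ) (hom : ∀ e, 0 ≤ om e) (hK : K.Nonempty)
    (hp : IsPM δ) (o : V → ℝ) (ho : ∀ v, 0 ≤ o v) (H : SteinerDem s t om K o)
    {J : Type*} [Fintype J] {C : Type*} [DecidableEq C] (lam : J → ℝ) (kap : J → V → C)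
    (hl : ∀ j, 0 ≤ lam j)
    (hlk : ∀ f ∈ K, ∀ g ∈ K, (∑ j, lam j * if kap j f = kap j g then 0 else 1) ≤ δ f g)
    (ν : V → ℝ) (hν0 : ∀ v, 0 ≤ ν v) (hν : ∀ z, ∀ k ∈ K, ν z ≤ δ z k) :
    ∑ j, lam j * (((K.image (kap j)).card : ℝ) - 1) + ∑ z, ν z * o z ≤
      ∑ e, om e * δ (s e) (t e) := by
  classical
  obtain ⟨k0, hk0⟩ := hK
  obtain ⟨A, hAK, hAc, -, d, hd0, h1, h2⟩ := prim (K := K) (δ := δ) lam kap hl hp.nonneg hp.symm
    hlk hk0 K.card (card_pos.2 ⟨k0, hk0⟩) le_rfl
  have hA : A = K := eq_of_subset_of_card_le hAK (by rw [hAc])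
  subst hA
  refine (add_le_add_left h1 _).trans ?_
  choose f hfK hfmin using fun u : V => exists_min_image A (fun g => δ u g) ⟨k0, hk0⟩
  -- pointwise
  let F1 : ℝ → ℝ := fun r => ∑ v ∈ A.erase k0, (Set.Ioc 0 (d v)).indicator (fun _ => (2 : ℝ)) r
  let F2 : ℝ → ℝ := fun r => ∑ z, (Set.Ioc 0 (2 * ν z)).indicator (fun _ => o z) r
  let G : ℝ → ℝ := fun r => ∑ e, om e *
    ((Set.Ioc (2 * min (δ (s e) (f (s e))) (δ (t e) (f (t e))))
      (2 * max (δ (s e) (f (s e))) (δ (t e) (f (t e))))).indicator (fun _ => (1 : ℝ)) r +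
    (Set.Ioc (2 * max (δ (s e) (f (s e))) (δ (t e) (f (t e))))
      (δ (s e) (f (s e)) + δ (t e) (f (t e)) + δ (s e) (t e))).indicator (fun _ => (2 : ℝ)) r)
  have hFG : ∀ r, F1 r + F2 r ≤ G r := by
    intro r
    rcases le_or_gt r 0 with hr | hr
    · have e1 : F1 r = 0 := by
        refine sum_eq_zero fun v _ => Set.indicator_of_notMem ?_ _
        rintro ⟨h, -⟩
        linarith
      have e2 : F2 r = 0 := by
        refine sum_eq_zero fun v _ => Set.indicator_of_notMem ?_ _
        rintro ⟨h, -⟩
        linarith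
      rw [e1, e2, add_zero]
      refine sum_nonneg fun e _ => mul_nonneg (hom e) (add_nonneg ?_ ?_)
      · exact Set.indicator_nonneg (fun _ _ => by norm_num) r
      · exact Set.indicator_nonneg (fun _ _ => by norm_num) r
    · have e1 : F1 r = 2 * (((A.erase k0).filter (fun v => r ≤ d v)).card : ℝ) := by
        have e2 : F1 r = ∑ v ∈ A.erase k0, if r ≤ d v then (2 : ℝ) else 0 := by
          refine sum_congr rfl fun v _ => ?_
          rw [Set.indicator_apply]
          simp [hr]
        rw [e2, ← sum_filter, sum_const, nsmul_eq_mul, mul_comm]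
      have e2 : F2 r ≤ ∑ v, if lab A δ r v = none then o v else 0 := by
        refine sum_le_sum fun z _ => ?_
        rw [Set.indicator_apply]
        split_ifs with h3 h4 h4
        · exact le_rfl
        · exfalso
          apply h4
          refine lab_none fun g hg => ?_
          have := hν z g hg
          linarith [h3.2]
        · exact ho z
        · exact le_rfl
      have e3 : (A.image (lab A δ r)).card = (A.image (rep A δ r)).card := by
        have e4 : A.image (lab A δ r) = (A.image (rep A δ r)).image some := by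
          rw [image_image]
          refine image_congr fun v hv => ?_
          exact lab_self hp hr hv
        rw [e4, card_image_of_injective _ (Option.some_injective V)]
      have h3 := H (lab A δ r) (fun v hv => by rw [lab_self hp hr hv]; simp) (by
        intro v c hc
        obtain ⟨g, hg, hg2, rfl⟩ := lab_some hc
        refine ⟨rep_mem hg, ?_⟩
        rw [lab_self hp hr (rep_mem hg), rep_rep])
      rw [e3] at h3
      have h4 := h2 r
      have h5 : (((A.erase k0).filter (fun v => r ≤ d v)).card : ℝ) + 1 ≤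
          ((A.image (rep A δ r)).card : ℝ) := by exact_mod_cast h4
      rw [e1]
      have h6 : ∑ e, om e * cc (lab A δ r) (s e) (t e) ≤ G r :=
        sum_le_sum fun e _ => mul_le_mul_of_nonneg_left
          (cc_le hp (hfK _) (hfK _) (hfmin _) (hfmin _)) (hom e)
      linarith
  have iF1 : Integrable F1 := integrable_finsetSum _ fun v _ => integrable_Ioc _ _ _
  have iF2 : Integrable F2 := integrable_finsetSum _ fun v _ => integrable_Ioc _ _ _
  have iG : Integrable G := integrable_finsetSum _ fun e _ =>
    ((integrable_Ioc _ _ _).add (integrable_Ioc _ _ _)).const_mul _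
  have h7 := integral_mono (iF1.add iF2) iG hFG
  have e5 : ∫ r, F1 r = 2 * ∑ v ∈ A.erase k0, d v := by
    rw [integral_finsetSum _ fun v _ => integrable_Ioc _ _ _, mul_sum]
    refine sum_congr rfl fun v _ => ?_
    rw [integral_Ioc_const (hd0 v)]
    ring
  have e5' : ∫ r, F2 r = 2 * ∑ z, ν z * o z := by
    rw [integral_finsetSum _ fun v _ => integrable_Ioc _ _ _, mul_sum]
    refine sum_congr rfl fun v _ => ?_
    rw [integral_Ioc_const (by have := hν0 v; linarith)]
    ring
  have e6 : ∫ r, G r = 2 * ∑ e, om e * δ (s e) (t e) := by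
    have hi : ∀ e ∈ (univ : Finset E), Integrable (fun r : ℝ => om e *
        ((Set.Ioc (2 * min (δ (s e) (f (s e))) (δ (t e) (f (t e))))
          (2 * max (δ (s e) (f (s e))) (δ (t e) (f (t e))))).indicator (fun _ => (1 : ℝ)) r +
        (Set.Ioc (2 * max (δ (s e) (f (s e))) (δ (t e) (f (t e))))
          (δ (s e) (f (s e)) + δ (t e) (f (t e)) + δ (s e) (t e))).indicator
            (fun _ => (2 : ℝ)) r)) := fun e _ =>
      ((integrable_Ioc _ _ _).add (integrable_Ioc _ _ _)).const_mul _
    rw [integral_finsetSum _ hi, mul_sum]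
    refine sum_congr rfl fun e _ => ?_
    rw [integral_const_mul, integral_add (integrable_Ioc _ _ _) (integrable_Ioc _ _ _),
      integral_Ioc_const, integral_Ioc_const]
    · have hm := min_add_max (δ (s e) (f (s e))) (δ (t e) (f (t e)))
      have : (2 * max (δ (s e) (f (s e))) (δ (t e) (f (t e))) -
          2 * min (δ (s e) (f (s e))) (δ (t e) (f (t e)))) * 1 +
          (δ (s e) (f (s e)) + δ (t e) (f (t e)) + δ (s e) (t e) -
            2 * max (δ (s e) (f (s e))) (δ (t e) (f (t e)))) * 2 = 2 * δ (s e) (t e) := by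
        linarith
      rw [this]
      ring
    · have q1 : δ (s e) (f (s e)) ≤ δ (s e) (t e) + δ (t e) (f (t e)) :=
        (hfmin (s e) _ (hfK (t e))).trans (hp.tri _ _ _)
      have q2 : δ (t e) (f (t e)) ≤ δ (s e) (t e) + δ (s e) (f (s e)) := by
        have := (hfmin (t e) _ (hfK (s e))).trans (hp.tri (t e) (s e) _)
        rwa [hp.symm (t e) (s e)] at this
      rcases max_choice (δ (s e) (f (s e))) (δ (t e) (f (t e))) with h | h <;> rw [h] <;> linarith
    · have := min_le_max (a := δ (s e) (f (s e))) (b := δ (t e) (f (t e)))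
      linarith
  have e7 : ∫ r, (F1 + F2) r = (∫ r, F1 r) + ∫ r, F2 r := integral_add iF1 iF2
  rw [e7, e5, e5', e6] at h7
  linarith

/-- Weights on the pairs of terminals and routes of the demands. -/
theorem exists_steiner_dem (s t : E → V) (om : E → ℝ) (hom : ∀ e, 0 ≤ om e) (K : Finset V)
    (hK : K.Nonempty) (o : V → ℝ) (ho : ∀ v, 0 ≤ o v) (H : SteinerDem s t om K o) :
    ∃ (x : {v // v ∈ K} × {v // v ∈ K} → ℝ) (g : {v // v ∉ K} × {v // v ∈ K} → ℝ),
      (∀ e, 0 ≤ x e) ∧ (∀ q, 0 ≤ g q) ∧
      (∀ κ : {v // v ∈ K} → {v // v ∈ K}, ncl κ ≤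
        ∑ e : {v // v ∈ K} × {v // v ∈ K}, if κ e.1 = κ e.2 then 0 else x e) ∧
      (∀ z : {v // v ∉ K}, o z ≤ ∑ k, g (z, k)) ∧
      ∀ Z : Finset V, (∑ e : {v // v ∈ K} × {v // v ∈ K},
          if ¬ ((e.1 : V) ∈ Z ↔ (e.2 : V) ∈ Z) then x e else 0) +
        (∑ q : {v // v ∉ K} × {v // v ∈ K},
          if ¬ ((q.1 : V) ∈ Z ↔ (q.2 : V) ∈ Z) then g q else 0) ≤ ∑ e ∈ cut s t Z, om e := by
  classical
  obtain ⟨x, g, hx0, hg0, hx1, hg1, hx2⟩ := exists_pairs_dem (U := {v // v ∈ K})
    (D := {v // v ∉ K}) (I := Finset V)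
    (fun Z f g => ¬ ((f : V) ∈ Z ↔ (g : V) ∈ Z)) (fun Z f g => ¬ ((f : V) ∈ Z ↔ (g : V) ∈ Z))
    (fun z => o z) (fun Z => ∑ e ∈ cut s t Z, om e) (by
      intro μ l ν hμ hl hν hlk hνk
      have hm := moats_dem s t om hom hK (isPM_dl hμ) o ho H (J := {v // v ∈ K} → {v // v ∈ K})
        (C := Option {v // v ∈ K}) l (fun κ v => if h : v ∈ K then some (κ ⟨v, h⟩) else none) hl
        (by
          intro f hf g hg
          have h1 := hlk ⟨f, hf⟩ ⟨g, hg⟩
          refine le_trans (le_of_eq ?_) (h1.trans (le_of_eq ?_))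
          · refine sum_congr rfl fun κ _ => ?_
            simp only [hf, hg, dif_pos, Option.some.injEq]
          · unfold dl
            refine sum_congr rfl fun Z _ => ?_
            by_cases h2 : (f ∈ Z ↔ g ∈ Z)
            · simp only [h2, not_true_eq_false, if_false, if_true]
            · simp only [h2, not_false_eq_true, if_false, if_true])
        (fun v => if h : v ∉ K then ν ⟨v, h⟩ else 0) (by
          intro v
          by_cases hv : v ∉ K
          · rw [dif_pos hv]
            exact hν _
          · rw [dif_neg hv]) (by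
          intro z k hk
          by_cases hz : z ∉ K
          · simp only [hz, not_false_eq_true, dif_pos]
            refine (hνk ⟨z, hz⟩ ⟨k, hk⟩).trans (le_of_eq ?_)
            unfold dl
            refine sum_congr rfl fun Z _ => ?_
            by_cases h2 : (z ∈ Z ↔ k ∈ Z)
            · simp only [h2, not_true_eq_false, if_false, if_true]
            · simp only [h2, not_false_eq_true, if_false, if_true]
          · rw [dif_neg hz]
            exact (isPM_dl hμ).nonneg _ _)
      refine le_trans (le_of_eq ?_) (hm.trans (le_of_eq ?_))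
      · congr 1
        · refine sum_congr rfl fun κ _ => ?_
          unfold ncl
          have e1 : K.image (fun v => if h : v ∈ K then some (κ ⟨v, h⟩) else none) =
              (univ.image κ).image some := by
            ext y
            simp only [mem_image, mem_univ, true_and, exists_exists_eq_and]
            constructor
            · rintro ⟨v, hv, rfl⟩
              exact ⟨⟨v, hv⟩, by rw [dif_pos hv]⟩
            · rintro ⟨⟨v, hv⟩, rfl⟩
              exact ⟨v, hv, by rw [dif_pos hv]⟩
          rw [e1, card_image_of_injective _ (Option.some_injective _)]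
        · have e3 : ∑ v ∈ univ.filter (fun v => v ∉ K),
              (if h : v ∉ K then ν ⟨v, h⟩ else 0) * o v =
              ∑ v, (if h : v ∉ K then ν ⟨v, h⟩ else 0) * o v := by
            rw [sum_filter]
            refine sum_congr rfl fun v _ => ?_
            by_cases hv : v ∉ K
            · rw [if_pos hv]
            · rw [if_neg hv, dif_neg hv, zero_mul]
          rw [← e3, Finset.sum_subtype (univ.filter (fun v => v ∉ K)) (p := fun v => v ∉ K)
            (by simp)]
          refine sum_congr rfl fun z _ => ?_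
          rw [dif_pos z.2]
      · unfold dl
        simp only [mul_sum]
        rw [sum_comm]
        refine sum_congr rfl fun Z _ => ?_
        unfold cut
        rw [sum_filter]
        refine sum_congr rfl fun e _ => ?_
        by_cases h2 : (s e ∈ Z ↔ t e ∈ Z)
        · simp [h2]
        · simp only [h2, not_false_eq_true, if_true, if_false]
          ring)
  refine ⟨x, g, hx0, hg0, hx1, hg1, fun Z => ?_⟩
  refine le_trans (le_of_eq ?_) (hx2 Z)
  congr 1
  · refine sum_congr rfl fun e _ => ?_
    by_cases h : ((e.1 : V) ∈ Z ↔ (e.2 : V) ∈ Z)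
    · simp only [h, not_true_eq_false, if_false]
    · simp only [h, not_false_eq_true, if_true]
  · refine sum_congr rfl fun e _ => ?_
    by_cases h : ((e.1 : V) ∈ Z ↔ (e.2 : V) ∈ Z)
    · simp only [h, not_true_eq_false, if_false]
    · simp only [h, not_false_eq_true, if_true]

end Pool.Agent.Uni3
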