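import Mathlib
import Pool.Agent.Work.MP_392c8e_co_uni.SteinerD

/-!
# Integral charges with outer demands
-/

namespace Pool.Agent.Uni3

open Finset Pool.Agent.Circ Pool.Agent.OddFlow

set_option linter.unusedSectionVars false

variable {V E : Type*} [Fintype V] [DecidableEq V] [Fintype E] [DecidableEq E]

theorem sum_split (K : Finset V) (F : V → ℝ) :
    ∑ v, F v = (∑ u : {v // v ∈ K}, F u) + ∑ z : {v // v ∉ K}, F z := by
  have h := (Fintype.sum_subtype_add_sum_subtype (fun v : V => v ∈ K) F).symm
  rw [h]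
  refine congrArg₂ (fun x y : ℝ => x + y)
    (Finset.sum_congr (Finset.ext fun x => ?_) fun _ _ => rfl)
    (Finset.sum_congr (Finset.ext fun x => ?_) fun _ _ => rfl)
  · simp only [Finset.mem_univ]
  · simp only [Finset.mem_univ]

/-- **Integral charges with outer demands.**  `a v` is the amount which leaves the part at `v`.
Under the Steiner condition with demands there are integers `w`, zero off the terminals and with
prescribed parities, such that `w - a` is bounded by the weights of all cuts. -/
theorem exists_chg_dem (s t : E → V) (om : E → ℝ) (hom : ∀ e, 0 ≤ om e) (K : Finset V)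
    (hK : K.Nonempty) (o : V → ℝ) (ho : ∀ v, 0 ≤ o v) (H : SteinerDem s t om K o)
    (a : V → ℝ) (ha : ∀ z, z ∉ K → |a z| ≤ o z) (W : ℤ) (hW : ∑ v, a v = W)
    (b : V → ℤ) (hb : Even (W - ∑ v ∈ K, b v)) :
    ∃ w : V → ℤ, (∀ v, v ∉ K → w v = 0) ∧ (∀ v ∈ K, (2 : ℤ) ∣ w v - b v) ∧
      (∑ v, w v = W) ∧
      ∀ Z : Finset V, |∑ v ∈ Z, ((w v : ℝ) - a v)| ≤ ∑ e ∈ cut s t Z, om e := by
  classical
  obtain ⟨x, g, hx0, hg0, hx1, hg1, hx2⟩ := exists_steiner_dem s t om hom K hK o ho H
  have : Nonempty {v // v ∈ K} := ⟨⟨hK.choose, hK.choose_spec⟩⟩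
  set Gz : {v // v ∉ K} → ℝ := fun z => ∑ k, g (z, k) with hGz
  set ρ : {v // v ∉ K} → {v // v ∈ K} → ℝ := fun z k => if Gz z = 0 then 0 else g (z, k) / Gz z
    with hρ
  have hG0 : ∀ z, 0 ≤ Gz z := fun z => sum_nonneg fun k _ => hg0 _
  have P1 : ∀ z : {v // v ∉ K}, a z = ∑ k, a z * ρ z k := by
    intro z
    rw [← mul_sum]
    by_cases h : Gz z = 0
    · have h1 : a z = 0 := by
        have h2 := ha z z.2
        have h3 := hg1 z
        have h4 : |a z| ≤ 0 := by
          have : ∑ k, g (z, k) = 0 := h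
          linarith
        exact abs_eq_zero.1 (le_antisymm h4 (abs_nonneg _))
      rw [h1, zero_mul]
    · have h1 : ∑ k, ρ z k = 1 := by
        simp only [hρ, if_neg h]
        rw [← Finset.sum_div]
        exact div_self h
      rw [h1, mul_one]
  have P2 : ∀ (z : {v // v ∉ K}) (k : {v // v ∈ K}), |a z * ρ z k| ≤ g (z, k) := by
    intro z k
    by_cases h : Gz z = 0
    · simp only [hρ, if_pos h, mul_zero, abs_zero]
      exact hg0 _
    · have h1 : 0 < Gz z := lt_of_le_of_ne (hG0 z) (Ne.symm h)
      simp only [hρ, if_neg h]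
      rw [abs_mul, abs_div, abs_of_nonneg (hg0 _), abs_of_pos h1]
      have h2 : |a z| ≤ Gz z := (ha z z.2).trans (hg1 z)
      calc |a z| * (g (z, k) / Gz z) ≤ Gz z * (g (z, k) / Gz z) :=
            mul_le_mul_of_nonneg_right h2 (div_nonneg (hg0 _) h1.le)
        _ = g (z, k) := by field_simp
  set h : {v // v ∈ K} → ℝ := fun k => a k + ∑ z : {v // v ∉ K}, a z * ρ z k with hh
  have hsum : ∑ k, h k = W := by
    simp only [hh]
    rw [sum_add_distrib, sum_comm, ← hW, sum_split K a]
    congr 1
    exact sum_congr rfl fun z _ => (P1 z).symm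
  obtain ⟨n, hn1, hn2⟩ := exists_off_tree (V := {v // v ∈ K})
    (E := {v // v ∈ K} × {v // v ∈ K}) (fun e => e.1) (fun e => e.2) x hx0 (by
      intro p
      set κ : {v // v ∈ K} → {v // v ∈ K} := fun u => Function.invFun p (p u) with hκ
      have h1 : ∀ u, p (κ u) = p u := fun u => Function.invFun_eq ⟨u, rfl⟩
      have h2 : ∀ u u', κ u = κ u' ↔ p u = p u' := by
        intro u u'
        constructor
        · intro h
          rw [← h1 u, ← h1 u', h]
        · intro h
          simp only [hκ, h]
      have h3 : (univ.image p).card ≤ (univ.image κ).card := by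
        have e : univ.image p = (univ.image κ).image p := by
          rw [image_image]
          refine image_congr fun u _ => (h1 u).symm
        rw [e]
        exact card_image_le
      have h4 := hx1 κ
      unfold ncl at h4
      have h5 : ((univ.image p).card : ℝ) ≤ ((univ.image κ).card : ℝ) := by exact_mod_cast h3
      have h6 : (∑ e : {v // v ∈ K} × {v // v ∈ K}, if κ e.1 = κ e.2 then 0 else x e) =
          ∑ e ∈ univ.filter (fun e : {v // v ∈ K} × {v // v ∈ K} => p e.1 ≠ p e.2), x e := by
        rw [sum_filter]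
        refine sum_congr rfl fun e _ => ?_
        by_cases h : p e.1 = p e.2
        · rw [if_pos ((h2 _ _).2 h), if_neg (not_not.2 h)]
        · rw [if_neg (fun h' => h ((h2 _ _).1 h')), if_pos h]
      rw [h6] at h4
      linarith) (fun u => (b u : ℝ) - h u) (by
      obtain ⟨m, hm⟩ := hb
      refine ⟨-m, ?_⟩
      rw [sum_sub_distrib, hsum]
      have h1 : ∑ u : {v // v ∈ K}, (b u : ℝ) = ((∑ v ∈ K, b v : ℤ) : ℝ) := by
        push_cast
        exact Finset.sum_coe_sort K fun v => (b v : ℝ)
      have h2 : ((∑ v ∈ K, b v : ℤ) : ℝ) = W - (m + m) := by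
        have h3 : ∑ v ∈ K, b v = W - (m + m) := by omega
        rw [h3]
        push_cast
        ring
      rw [h1, h2]
      push_cast
      ring)
  set w : V → ℤ := fun v => if hv : v ∈ K then b v + 2 * n ⟨v, hv⟩ else 0 with hw
  have hwK : ∀ u : {v // v ∈ K}, w u = b u + 2 * n u := by
    intro u
    simp only [hw]
    rw [dif_pos u.2]
  have hwD : ∀ z : {v // v ∉ K}, w z = 0 := by
    intro z
    simp only [hw]
    rw [dif_neg z.2]
  refine ⟨w, fun v hv => hwD ⟨v, hv⟩, fun v hv => ?_, ?_, fun Z => ?_⟩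
  · have := hwK ⟨v, hv⟩
    simp only at this
    rw [this]
    exact ⟨n ⟨v, hv⟩, by ring⟩
  · have h1 : (∑ v, (w v : ℝ)) = W := by
      rw [sum_split K (fun v => (w v : ℝ))]
      have h2 : ∑ z : {v // v ∉ K}, ((w z : ℤ) : ℝ) = 0 :=
        sum_eq_zero fun z _ => by rw [hwD z, Int.cast_zero]
      rw [h2, add_zero, ← hsum]
      have h3 : ∑ u : {v // v ∈ K}, ((w u : ℤ) : ℝ) - ∑ k, h k = 0 := by
        rw [← sum_sub_distrib, ← hn1]
        refine sum_congr rfl fun u _ => ?_
        rw [hwK u]
        push_cast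
        ring
      linarith
    exact_mod_cast h1
  · -- the cut bound
    have e1 : ∑ v ∈ Z, ((w v : ℝ) - a v) =
        (∑ u ∈ univ.filter (fun u : {v // v ∈ K} => (u : V) ∈ Z),
          (((b u : ℝ) - h u) + 2 * n u)) +
        ∑ q : {v // v ∉ K} × {v // v ∈ K}, a q.1 * ρ q.1 q.2 *
          ((if (q.2 : V) ∈ Z then 1 else 0) - (if (q.1 : V) ∈ Z then 1 else 0)) := by
      have e2 : ∑ v ∈ Z, ((w v : ℝ) - a v) = ∑ v, if v ∈ Z then ((w v : ℝ) - a v) else 0 := by
        rw [← sum_filter]
        refine sum_congr ?_ fun _ _ => rfl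
        ext v; simp
      rw [e2, sum_split K, sum_filter, Fintype.sum_prod_type]
      have e3 : ∀ u : {v // v ∈ K}, (if (u : V) ∈ Z then ((w u : ℝ) - a u) else 0) =
          (if (u : V) ∈ Z then (((b u : ℝ) - h u) + 2 * n u) else 0) +
          ∑ z : {v // v ∉ K}, a z * ρ z u * (if (u : V) ∈ Z then 1 else 0) := by
        intro u
        by_cases hu : (u : V) ∈ Z
        · rw [if_pos hu, if_pos hu, hwK u]
          simp only [hu, if_true, mul_one, hh]
          push_cast
          ring
        · rw [if_neg hu, if_neg hu]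
          simp only [hu, if_false, mul_zero, sum_const_zero, add_zero]
      have e4 : ∀ z : {v // v ∉ K}, (if (z : V) ∈ Z then ((w z : ℝ) - a z) else 0) =
          - ∑ k : {v // v ∈ K}, a z * ρ z k * (if (z : V) ∈ Z then 1 else 0) := by
        intro z
        by_cases hz : (z : V) ∈ Z
        · rw [if_pos hz, hwD z, ← sum_mul, ← P1 z]
          simp [hz]
        · rw [if_neg hz]
          simp [hz]
      rw [sum_congr rfl fun u _ => e3 u, sum_congr rfl fun z _ => e4 z, sum_add_distrib,
        add_assoc]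
      congr 1
      rw [sum_comm, ← sum_add_distrib]
      refine sum_congr rfl fun z _ => ?_
      rw [← sub_eq_add_neg, ← sum_sub_distrib]
      refine sum_congr rfl fun k _ => ?_
      ring
    rw [e1]
    have e5 : |∑ q : {v // v ∉ K} × {v // v ∈ K}, a q.1 * ρ q.1 q.2 *
          ((if (q.2 : V) ∈ Z then 1 else 0) - (if (q.1 : V) ∈ Z then 1 else 0))| ≤
        ∑ q : {v // v ∉ K} × {v // v ∈ K},
          if ¬ ((q.1 : V) ∈ Z ↔ (q.2 : V) ∈ Z) then g q else 0 := by
      refine (abs_sum_le_sum_abs _ _).trans (sum_le_sum fun q _ => ?_)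
      rw [abs_mul]
      have h1 := P2 q.1 q.2
      by_cases h2 : (q.1 : V) ∈ Z <;> by_cases h3 : (q.2 : V) ∈ Z <;>
        simp only [h2, h3, if_true, if_false, iff_true, iff_false, not_true_eq_false,
          not_false_eq_true, iff_self, sub_self, abs_zero, mul_zero, le_refl, sub_zero, zero_sub,
          abs_neg, abs_one, mul_one] <;> exact h1
    refine (abs_add_le _ _).trans (le_trans (add_le_add (hn2 _) e5) (le_trans (le_of_eq ?_)
      (hx2 Z)))
    · congr 1
      unfold cut
      rw [sum_filter]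
      refine sum_congr rfl fun e _ => ?_
      simp only [mem_filter, mem_univ, true_and]

end Pool.Agent.Uni3
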