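import Pool.Agent.Work.MP_392c8e_co_red.Pl

/-!
# Operations on algebraic duals: reversed edges, isolated vertices, a chord of a face
-/

namespace Pool.Agent.Chord392

open Finset
open Pool.Agent.Red (inc Full Orth ind)

set_option linter.unusedSectionVars false

variable {V E F : Type*} [Fintype V] [DecidableEq V] [Fintype E] [DecidableEq E] [Fintype F]
  [DecidableEq F]

/-- Edges may be reversed. -/
theorem dual_flip {s t : E → V} {l r : E → F} (ho : Orth s t l r) (hf : Full s t l r)
    (σ : E → Prop) [DecidablePred σ] :
    Orth (fun e => if σ e then t e else s e) (fun e => if σ e then s e else t e)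
        (fun e => if σ e then r e else l e) (fun e => if σ e then l e else r e) ∧
      Full (fun e => if σ e then t e else s e) (fun e => if σ e then s e else t e)
        (fun e => if σ e then r e else l e) (fun e => if σ e then l e else r e) := by
  have h1 : ∀ v e, inc (fun e => if σ e then t e else s e) (fun e => if σ e then s e else t e) v e =
      (if σ e then -1 else 1) * inc s t v e := by
    intro v e
    unfold inc
    by_cases h : σ e <;> simp [h]
  have h2 : ∀ x e, inc (fun e => if σ e then l e else r e) (fun e => if σ e then r e else l e) x e =
      (if σ e then -1 else 1) * inc r l x e := by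
    intro x e
    unfold inc
    by_cases h : σ e <;> simp [h]
  constructor
  · intro v x
    simp only [h1, h2]
    rw [← ho v x]
    refine sum_congr rfl fun e _ => ?_
    by_cases h : σ e <;> simp [h]
  · intro g hg
    obtain ⟨φ, hφ⟩ := hf (fun e => (if σ e then -1 else 1) * g e) (fun v => by
      rw [← hg v]
      refine sum_congr rfl fun e _ => ?_
      rw [h1]
      ring)
    refine ⟨φ, fun e => ?_⟩
    have h3 := hφ e
    by_cases h : σ e
    · rw [if_pos h] at h3
      simp only [if_pos h]
      linarith
    · rw [if_neg h] at h3
      simp only [if_neg h]
      linarith

/-- Isolated vertices may be added. -/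
theorem dual_emb {W : Type*} [Fintype W] [DecidableEq W] {s t : E → V} {l r : E → F}
    (ho : Orth s t l r) (hf : Full s t l r) (j : V → W) (hj : Function.Injective j) :
    Orth (fun e => j (s e)) (fun e => j (t e)) l r ∧
      Full (fun e => j (s e)) (fun e => j (t e)) l r := by
  have h1 : ∀ v e, inc (fun e => j (s e)) (fun e => j (t e)) (j v) e = inc s t v e := by
    intro v e
    unfold inc
    simp only [hj.eq_iff]
  have h2 : ∀ w, (∀ v, j v ≠ w) → ∀ e, inc (fun e => j (s e)) (fun e => j (t e)) w e = 0 := by
    intro w hw e
    unfold inc
    rw [if_neg (hw _), if_neg (hw _), sub_zero]
  constructor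
  · intro w x
    by_cases hw : ∃ v, j v = w
    · obtain ⟨v, rfl⟩ := hw
      simp only [h1]
      exact ho v x
    · push Not at hw
      simp only [h2 w hw, zero_mul, sum_const_zero]
  · intro g hg
    exact hf g fun v => by
      rw [← hg (j v)]
      exact sum_congr rfl fun e _ => by rw [h1]

/-- A new edge from `a` to `b` inside the face `f`. The sides `P` (left) and `Q` (right) go to the
new face; their boundary goes from `b` to `a`. -/
theorem dual_add {s t : E → V} {l r : E → F} (ho : Orth s t l r) (hf : Full s t l r) (f : F)
    (P Q : E → Prop) [DecidablePred P] [DecidablePred Q] (hP : ∀ e, P e → l e = f)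
    (hQ : ∀ e, Q e → r e = f) (a b : V)
    (hab : ∀ v, ∑ e, inc s t v e * ((if P e then 1 else 0) - (if Q e then 1 else 0)) =
      ind a v - ind b v) :
    Orth (fun e : Option E => e.elim a s) (fun e => e.elim b t)
        (fun e => e.elim none fun e => if P e then none else some (l e))
        (fun e => e.elim (some f) fun e => if Q e then none else some (r e)) ∧
      Full (fun e : Option E => e.elim a s) (fun e => e.elim b t)
        (fun e => e.elim none fun e => if P e then none else some (l e))
        (fun e => e.elim (some f) fun e => if Q e then none else some (r e)) := by
  set s' := fun e : Option E => e.elim a s with hs'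
  set t' := fun e : Option E => e.elim b t with ht'
  set l' : Option E → Option F := fun e => e.elim none fun e => if P e then none else some (l e)
    with hl'
  set r' : Option E → Option F := fun e => e.elim (some f) fun e => if Q e then none else some (r e)
    with hr'
  have e0 : ∀ v, inc s' t' v none = ind b v - ind a v := fun v => rfl
  have e1 : ∀ v e, inc s' t' v (some e) = inc s t v e := fun v e => rfl
  constructor
  · intro v x
    rw [Fintype.sum_option, e0]
    simp only [e1]
    cases x with
    | none =>
      have h1 : inc r' l' none none = 1 := by
        show (if (none : Option F) = none then (1 : ℚ) else 0) -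
          (if (some f : Option F) = none then 1 else 0) = 1
        simp
      have h2 : ∀ e, inc r' l' none (some e) = (if P e then 1 else 0) - (if Q e then 1 else 0) := by
        intro e
        show (if (if P e then none else some (l e)) = (none : Option F) then (1 : ℚ) else 0) -
          (if (if Q e then none else some (r e)) = (none : Option F) then 1 else 0) = _
        by_cases h3 : P e <;> by_cases h4 : Q e <;> simp [h3, h4]
      simp only [h1, h2]
      rw [hab]
      ring
    | some y =>
      have h1 : inc r' l' (some y) none = -(if f = y then 1 else 0) := by
        show (if (none : Option F) = some y then (1 : ℚ) else 0) -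
          (if (some f : Option F) = some y then 1 else 0) = _
        simp
      have h2 : ∀ e, inc r' l' (some y) (some e) = inc r l y e -
          (if f = y then ((if P e then 1 else 0) - (if Q e then 1 else 0)) else 0) := by
        intro e
        show (if (if P e then none else some (l e)) = (some y : Option F) then (1 : ℚ) else 0) -
          (if (if Q e then none else some (r e)) = (some y : Option F) then 1 else 0) = _
        unfold inc
        by_cases h3 : P e
        · have h3' := hP e h3
          by_cases h4 : Q e
          · have h4' := hQ e h4
            simp [h3, h4, h3', h4']
          · by_cases h5 : f = y <;> simp [h3, h4, h3', h5]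
        · by_cases h4 : Q e
          · have h4' := hQ e h4
            by_cases h5 : f = y <;> simp [h3, h4, h4', h5]
          · by_cases h5 : f = y <;> simp [h3, h4, h5]
      have h6 : ∀ e, inc s t v e * inc r' l' (some y) (some e) = inc s t v e * inc r l y e -
          (if f = y then 1 else 0) *
            (inc s t v e * ((if P e then 1 else 0) - (if Q e then 1 else 0))) := by
        intro e
        rw [h2]
        by_cases h5 : f = y
        · rw [if_pos h5, if_pos h5]
          ring
        · rw [if_neg h5, if_neg h5]
          ring
      simp only [h6]
      rw [sum_sub_distrib, ho v y, ← mul_sum, hab, h1]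
      ring
  · intro g hg
    have hg' : ∀ v, ∑ e, inc s t v e * g (some e) = (ind a v - ind b v) * g none := by
      intro v
      have h1 := hg v
      rw [Fintype.sum_option, e0] at h1
      simp only [e1] at h1
      linarith
    obtain ⟨φ, hφ⟩ := hf (fun e => g (some e) -
        g none * ((if P e then 1 else 0) - (if Q e then 1 else 0))) (fun v => by
      have h1 : ∀ e, inc s t v e * (g (some e) -
          g none * ((if P e then 1 else 0) - (if Q e then 1 else 0))) =
          inc s t v e * g (some e) -
            g none * (inc s t v e * ((if P e then 1 else 0) - (if Q e then 1 else 0))) := by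
        intro e
        ring
      simp only [h1]
      rw [sum_sub_distrib, ← mul_sum, hab, hg' v]
      ring)
    refine ⟨fun x => x.elim (φ f + g none) φ, fun e => ?_⟩
    cases e with
    | none =>
      show g none = φ f + g none - φ f
      ring
    | some e =>
      have h1 := hφ e
      show g (some e) = (if P e then (none : Option F) else some (l e)).elim (φ f + g none) φ -
        (if Q e then (none : Option F) else some (r e)).elim (φ f + g none) φ
      by_cases h3 : P e <;> by_cases h4 : Q e
      · rw [if_pos h3, if_pos h4]
        rw [if_pos h3, if_pos h4, hP e h3, hQ e h4] at h1
        simp only [Option.elim_none]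
        linarith
      · rw [if_pos h3, if_neg h4]
        rw [if_pos h3, if_neg h4, hP e h3] at h1
        simp only [Option.elim_none, Option.elim_some]
        linarith
      · rw [if_neg h3, if_pos h4]
        rw [if_neg h3, if_pos h4, hQ e h4] at h1
        simp only [Option.elim_none, Option.elim_some]
        linarith
      · rw [if_neg h3, if_neg h4]
        rw [if_neg h3, if_neg h4] at h1
        simp only [Option.elim_some]
        linarith

end Pool.Agent.Chord392
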