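import Pool.Agent.Work.MP_392c8e_co_uni.ChordDef
import Pool.Agent.Work.MP_392c8e_co_uni.ChordDual

/-!
# A chord between two subdivided edges of a face: the dual
-/

namespace Pool.Agent.Chord392

open Finset Pool.Agent.Sub392 Pool.Agent.T392 Pool.Agent.Uni392
open Pool.Agent.Red (inc Full Orth ind IsOf Pl dual_subdiv)

set_option linter.unusedSectionVars false

variable {V : Type} [Fintype V] [DecidableEq V] {G : SimpleGraph V} [DecidableRel G.Adj]

theorem fst_iter' (R : Rot G) (d : G.Dart) (k : ℕ) :
    (R.next^[k + 1] d).fst = (R.next^[k] d).snd := by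
  rw [Function.iterate_succ_apply', R.fst_next]

theorem face_iter' (R : Rot G) (d : G.Dart) (k : ℕ) : R.face (R.next^[k] d) = R.face d := by
  induction k with
  | zero => rfl
  | succ k ih => rw [Function.iterate_succ_apply', R.face_next, ih]

theorem iter_inj' (R : Rot G) {d : G.Dart} {i j : ℕ} (hi : i < sz R d) (hj : j < sz R d)
    (h : R.next^[i] d = R.next^[j] d) : i = j := by
  rw [sz_eq] at hi hj
  exact Function.iterate_injOn_Iio_minimalPeriod (Set.mem_Iio.2 hi) (Set.mem_Iio.2 hj) h

theorem dart_ne_symm (d : G.Dart) : d ≠ d.symm := fun h =>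
  d.adj.ne (congrArg (fun x : G.Dart => x.fst) h)

/-- The chord between the edges of the darts `d` and `next^k d` of one face. -/
theorem pl_chord (R : Rot G) (hP : R.Plane) (d : G.Dart) (k : ℕ) (hk : 1 ≤ k) (hks : k < sz R d)
    (hf : R.face d ≠ R.face d.symm) (hf' : R.face d ≠ R.face (R.next^[k] d).symm) :
    Pl (chordG G d.fst d.snd (R.next^[k] d).fst (R.next^[k] d).snd) := by
  classical
  set d' := R.next^[k] d with hd'
  have hdd' : R.face d' = R.face d := face_iter' R d k
  have hne1 : d ≠ d' := fun h => by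
    have h2 : R.next^[0] d = R.next^[k] d := h
    have := iter_inj' R (by omega) hks h2
    omega
  have hne2 : d ≠ d'.symm := fun h => hf' (congrArg R.face h)
  have hne3 : d' ≠ d.symm := fun h => hne2 (by rw [h, SimpleGraph.Dart.symm_symm])
  set σ : Up G → Prop := fun e => e.1 = d.symm ∨ e.1 = d'.symm with hσ
  set D : Up G → G.Dart := fun e => if σ e then e.1.symm else e.1 with hD
  have hDor : ∀ e, D e = e.1 ∨ D e = e.1.symm := by
    intro e
    show (if σ e then e.1.symm else e.1) = _ ∨ (if σ e then e.1.symm else e.1) = _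
    split_ifs
    · exact Or.inr rfl
    · exact Or.inl rfl
  have hupinj : ∀ e e' : Up G, e.1 = e'.1 ∨ e.1 = e'.1.symm → e = e' := by
    rintro e e' (h1 | h1)
    · exact Subtype.ext h1
    · exfalso
      have h2 := e.2
      have h3 := e'.2
      have h4 : e.1.fst = e'.1.snd := by rw [h1]; rfl
      have h5 : e.1.snd = e'.1.fst := by rw [h1]; rfl
      rw [h4, h5] at h2
      omega
  have hDinj : ∀ e e' : Up G, D e = D e' ∨ D e = (D e').symm → e = e' := by
    intro e e' h
    apply hupinj
    rcases hDor e with h1 | h1 <;> rcases hDor e' with h2 | h2 <;> rw [h1, h2] at h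
    · exact h
    · rw [SimpleGraph.Dart.symm_symm] at h
      exact h.symm
    · rcases h with h | h
      · right
        rw [← h, SimpleGraph.Dart.symm_symm]
      · left
        have := congrArg SimpleGraph.Dart.symm h
        simpa using this
    · rcases h with h | h
      · left
        have := congrArg SimpleGraph.Dart.symm h
        simpa using this
      · rw [SimpleGraph.Dart.symm_symm] at h
        right
        rw [← h, SimpleGraph.Dart.symm_symm]
  have hDsurj : ∀ δ : G.Dart, ∃ e, D e = δ ∨ (D e).symm = δ := by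
    intro δ
    rcases up_or δ with h | h
    · refine ⟨⟨δ, h⟩, ?_⟩
      rcases hDor ⟨δ, h⟩ with h1 | h1
      · exact Or.inl h1
      · exact Or.inr (by rw [h1, SimpleGraph.Dart.symm_symm])
    · refine ⟨⟨δ.symm, h⟩, ?_⟩
      rcases hDor ⟨δ.symm, h⟩ with h1 | h1
      · exact Or.inr (by rw [h1, SimpleGraph.Dart.symm_symm])
      · exact Or.inl (by rw [h1, SimpleGraph.Dart.symm_symm])
  have hev : ∃ e, D e = d := by
    rcases up_or d with h | h
    · refine ⟨⟨d, h⟩, ?_⟩
      show (if σ ⟨d, h⟩ then d.symm else d) = d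
      rw [if_neg]
      rintro (h1 | h1)
      · exact dart_ne_symm d h1
      · exact hne2 h1
    · refine ⟨⟨d.symm, h⟩, ?_⟩
      show (if σ ⟨d.symm, h⟩ then d.symm.symm else d.symm) = d
      rw [if_pos (Or.inl rfl), SimpleGraph.Dart.symm_symm]
  have hep : ∃ e, D e = d' := by
    rcases up_or d' with h | h
    · refine ⟨⟨d', h⟩, ?_⟩
      show (if σ ⟨d', h⟩ then d'.symm else d') = d'
      rw [if_neg]
      rintro (h1 | h1)
      · exact hne3 h1
      · exact dart_ne_symm d' h1
    · refine ⟨⟨d'.symm, h⟩, ?_⟩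
      show (if σ ⟨d'.symm, h⟩ then d'.symm.symm else d'.symm) = d'
      rw [if_pos (Or.inr rfl), SimpleGraph.Dart.symm_symm]
  obtain ⟨ev, hev⟩ := hev
  obtain ⟨ep, hep⟩ := hep
  have hvp : ep ≠ ev := fun h => hne1 (by rw [← hev, ← hep, h])
  -- the dual of `G` with these orientations
  obtain ⟨ho0, hf0⟩ := dual_flip (orth_up R) (full_up R hP ⟨d⟩) σ
  have c1 : (fun e : Up G => if σ e then e.1.snd else e.1.fst) = fun e => (D e).fst := by
    funext e
    show _ = (if σ e then e.1.symm else e.1).fst
    split_ifs <;> rfl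
  have c2 : (fun e : Up G => if σ e then e.1.fst else e.1.snd) = fun e => (D e).snd := by
    funext e
    show _ = (if σ e then e.1.symm else e.1).snd
    split_ifs <;> rfl
  have c3 : (fun e : Up G => if σ e then R.face e.1.symm else R.face e.1) =
      fun e => R.face (D e) := by
    funext e
    show _ = R.face (if σ e then e.1.symm else e.1)
    split_ifs <;> rfl
  have c4 : (fun e : Up G => if σ e then R.face e.1 else R.face e.1.symm) =
      fun e => R.face (D e).symm := by
    funext e
    show _ = R.face (if σ e then e.1.symm else e.1).symm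
    split_ifs
    · rw [SimpleGraph.Dart.symm_symm]
    · rfl
  rw [c1, c2, c3, c4] at ho0 hf0
  obtain ⟨ho1, hf1⟩ := dual_emb ho0 hf0 (Sum.inl : V → V ⊕ Fin 2) Sum.inl_injective
  obtain ⟨ho2, hf2⟩ := dual_subdiv ho1 hf1 ev (Sum.inr 0) fun e => ⟨Sum.inl_ne_inr, Sum.inl_ne_inr⟩
  obtain ⟨ho3, hf3⟩ := dual_subdiv ho2 hf2 (some ep) (Sum.inr 1) (by
    intro e
    cases e with
    | none =>
      refine ⟨?_, Sum.inl_ne_inr⟩
      show (Sum.inr 0 : V ⊕ Fin 2) ≠ Sum.inr 1
      simp
    | some e =>
      refine ⟨Sum.inl_ne_inr, ?_⟩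
      show (if e = ev then (Sum.inr 0 : V ⊕ Fin 2) else Sum.inl (D e).snd) ≠ Sum.inr 1
      split_ifs
      · simp
      · exact Sum.inl_ne_inr)
  -- the darts of the face between `d` and `d'`
  set A : G.Dart → Prop := fun δ => ∃ i, 1 ≤ i ∧ i < k ∧ R.next^[i] d = δ with hA
  have hAf : ∀ δ, A δ → R.face δ = R.face d := by
    rintro _ ⟨i, -, -, rfl⟩
    exact face_iter' R d i
  have hAd : ¬ A d := by
    rintro ⟨i, h1, h2, h3⟩
    have h4 : R.next^[i] d = R.next^[0] d := h3
    have := iter_inj' R (by omega) (by omega) h4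
    omega
  have hAd' : ¬ A d' := by
    rintro ⟨i, h1, h2, h3⟩
    have := iter_inj' R (by omega) hks h3
    omega
  have hAs : ¬ A d.symm := fun h => hf (hAf _ h).symm
  have hAs' : ¬ A d'.symm := fun h => hf' (hAf _ h).symm
  obtain ⟨P, P0, P1, P2⟩ : ∃ P : Option (Option (Up G)) → Prop, ¬ P none ∧ P (some none) ∧
      ∀ e, P (some (some e)) ↔ A (D e) ∨ e = ep :=
    ⟨fun e => match e with
      | none => False
      | some none => True
      | some (some e) => A (D e) ∨ e = ep, fun h => h, trivial, fun _ => Iff.rfl⟩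
  obtain ⟨Q, Q0, Q1, Q2⟩ : ∃ Q : Option (Option (Up G)) → Prop, ¬ Q none ∧ ¬ Q (some none) ∧
      ∀ e, Q (some (some e)) ↔ A (D e).symm :=
    ⟨fun e => match e with
      | none => False
      | some none => False
      | some (some e) => A (D e).symm, fun h => h, fun h => h, fun _ => Iff.rfl⟩
  set s1 : Option (Up G) → V ⊕ Fin 2 := fun e => e.elim (Sum.inr 0) fun e => Sum.inl (D e).fst
    with hs1
  set t1 : Option (Up G) → V ⊕ Fin 2 := fun e => e.elim (Sum.inl (D ev).snd) fun e =>
    if e = ev then Sum.inr 0 else Sum.inl (D e).snd with ht1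
  set s2 : Option (Option (Up G)) → V ⊕ Fin 2 := fun e => e.elim (Sum.inr 1) s1 with hs2
  set t2 : Option (Option (Up G)) → V ⊕ Fin 2 := fun e => e.elim (t1 (some ep)) fun e =>
    if e = some ep then Sum.inr 1 else t1 e with ht2
  have hab : ∀ w, ∑ e, inc s2 t2 w e *
      ((if P e then (1 : ℚ) else 0) - (if Q e then 1 else 0)) =
      ind (Sum.inr 1) w - ind (Sum.inr 0) w := by
    intro w
    rw [Fintype.sum_option, Fintype.sum_option]
    have q0 : inc s2 t2 w none * ((if P none then (1 : ℚ) else 0) - (if Q none then 1 else 0)) =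
        0 := by
      rw [if_neg P0, if_neg Q0, sub_self, mul_zero]
    have q1 : inc s2 t2 w (some none) *
        ((if P (some none) then (1 : ℚ) else 0) - (if Q (some none) then 1 else 0)) =
        ind (Sum.inl d.snd) w - ind (Sum.inr 0) w := by
      rw [if_pos P1, if_neg Q1, sub_zero, mul_one]
      show ind (if (none : Option (Up G)) = some ep then (Sum.inr 1 : V ⊕ Fin 2)
        else Sum.inl (D ev).snd) w - ind (Sum.inr 0) w = _
      rw [if_neg (by simp), hev]
    have q2 : ∀ e : Up G, inc s2 t2 w (some (some e)) *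
        ((if P (some (some e)) then (1 : ℚ) else 0) - (if Q (some (some e)) then 1 else 0)) =
        (ind (Sum.inl (D e).snd) w - ind (Sum.inl (D e).fst) w) *
          ((if A (D e) then 1 else 0) - (if A (D e).symm then 1 else 0)) +
        if e = ep then ind (Sum.inr 1) w - ind (Sum.inl d'.fst) w else 0 := by
      intro e
      have u1 : inc s2 t2 w (some (some e)) = ind (if (some e : Option (Up G)) = some ep then
          (Sum.inr 1 : V ⊕ Fin 2) else if e = ev then Sum.inr 0 else Sum.inl (D e).snd) w -
          ind (Sum.inl (D e).fst) w := rfl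
      rw [u1]
      simp only [P2, Q2]
      by_cases h1 : e = ep
      · subst h1
        rw [if_pos rfl, if_pos (Or.inr rfl), if_pos rfl, hep, if_neg hAs', if_neg hAd']
        ring
      · rw [if_neg (fun h => h1 (Option.some_injective _ h)), if_neg h1, add_zero]
        by_cases h2 : e = ev
        · subst h2
          rw [if_pos rfl, hev, if_neg (not_or.2 ⟨hAd, h1⟩), if_neg hAs, if_neg hAd]
          ring
        · rw [if_neg h2]
          by_cases h3 : A (D e)
          · rw [if_pos (Or.inl h3), if_pos h3]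
          · rw [if_neg (not_or.2 ⟨h3, h1⟩), if_neg h3]
    rw [q0, q1, sum_congr rfl fun e _ => q2 e, sum_add_distrib, sum_ite_eq', if_pos (mem_univ _)]
    -- the sum over the darts of the arc
    have q3 : ∑ e : Up G, (ind (Sum.inl (D e).snd) w - ind (Sum.inl (D e).fst) w) *
        ((if A (D e) then (1 : ℚ) else 0) - (if A (D e).symm then 1 else 0)) =
        ∑ δ : G.Dart, if A δ then ind (Sum.inl δ.snd : V ⊕ Fin 2) w - ind (Sum.inl δ.fst) w
          else 0 := by
      rw [sum_dart]
      refine sum_congr rfl fun e _ => ?_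
      rcases hDor e with h | h <;> rw [h]
      · show _ = (if A e.1 then _ else 0) + (if A e.1.symm then
          ind (Sum.inl e.1.fst : V ⊕ Fin 2) w - ind (Sum.inl e.1.snd) w else 0)
        split_ifs <;> ring
      · rw [SimpleGraph.Dart.symm_symm]
        show (ind (Sum.inl e.1.fst) w - ind (Sum.inl e.1.snd) w) * _ =
          (if A e.1 then _ else 0) + (if A e.1.symm then
          ind (Sum.inl e.1.fst : V ⊕ Fin 2) w - ind (Sum.inl e.1.snd) w else 0)
        split_ifs <;> ring
    have q4 : (∑ δ : G.Dart, if A δ then ind (Sum.inl δ.snd : V ⊕ Fin 2) w - ind (Sum.inl δ.fst) w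
        else 0) = ∑ i ∈ Ico 1 k, (ind (Sum.inl (R.next^[i] d).snd : V ⊕ Fin 2) w -
          ind (Sum.inl (R.next^[i] d).fst) w) := by
      rw [← sum_filter]
      have u1 : univ.filter A = (Ico 1 k).image fun i => R.next^[i] d := by
        ext δ
        simp only [mem_filter, mem_univ, true_and, mem_image, mem_Ico, hA]
        constructor
        · rintro ⟨i, h1, h2, h3⟩
          exact ⟨i, ⟨h1, h2⟩, h3⟩
        · rintro ⟨i, ⟨h1, h2⟩, h3⟩
          exact ⟨i, h1, h2, h3⟩
      rw [u1, sum_image]
      intro i hi j hj hij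
      simp only [coe_Ico, Set.mem_Ico] at hi hj
      exact iter_inj' R (by omega) (by omega) hij
    have q5 : ∑ i ∈ Ico 1 k, (ind (Sum.inl (R.next^[i] d).snd : V ⊕ Fin 2) w -
        ind (Sum.inl (R.next^[i] d).fst) w) =
        ind (Sum.inl d'.fst) w - ind (Sum.inl d.snd) w := by
      have u1 : ∀ i ∈ Ico 1 k, ind (Sum.inl (R.next^[i] d).snd : V ⊕ Fin 2) w -
          ind (Sum.inl (R.next^[i] d).fst) w =
          ind (Sum.inl (R.next^[i + 1] d).fst : V ⊕ Fin 2) w -
            ind (Sum.inl (R.next^[i] d).fst) w := fun i _ => by rw [fst_iter']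
      rw [sum_congr rfl u1, sum_Ico_sub (fun i => ind (Sum.inl (R.next^[i] d).fst : V ⊕ Fin 2) w) hk]
      have u2 : (R.next^[1] d).fst = d.snd := R.fst_next d
      rw [u2]
    rw [q3, q4, q5]
    ring
  obtain ⟨ho4, hf4⟩ := dual_add ho3 hf3 (R.face d) P Q (by
    intro e he
    rcases e with _ | _ | e
    · exact absurd he P0
    · show R.face (D ev) = R.face d
      rw [hev]
    · rcases (P2 e).1 he with he | he
      · exact hAf _ he
      · subst he
        show R.face (D e) = R.face d
        rw [hep, hdd']) (by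
    intro e he
    rcases e with _ | _ | e
    · exact absurd he Q0
    · exact absurd he Q1
    · exact hAf _ ((Q2 e).1 he)) (Sum.inr 1) (Sum.inr 0) hab
  have hval : ∀ e : Up G, s(((some (some (some e)) : Option (Option (Option (Up G)))).elim
      (Sum.inr 1) s2 : V ⊕ Fin 2),
      (some (some (some e)) : Option (Option (Option (Up G)))).elim (Sum.inr 0) t2) =
      s(Sum.inl (D e).fst, if e = ep then Sum.inr 1 else if e = ev then Sum.inr 0 else
        Sum.inl (D e).snd) := by
    intro e
    show s((Sum.inl (D e).fst : V ⊕ Fin 2), (if (some e : Option (Up G)) = some ep then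
      (Sum.inr 1 : V ⊕ Fin 2) else if e = ev then Sum.inr 0 else Sum.inl (D e).snd)) = _
    by_cases h : e = ep
    · rw [if_pos (by rw [h]), if_pos h]
    · rw [if_neg (fun h1 => h (Option.some_injective _ h1)), if_neg h]
  refine ⟨Option (Option (Option (Up G))), Option R.Face, inferInstance, inferInstance,
    inferInstance, inferInstance, _, _, _, _, ⟨?_, ?_, ?_⟩, ho4, hf4⟩
  · rintro (_ | _ | _ | e)
    · exact chordG_xm
    · show (chordG G d.fst d.snd d'.fst d'.snd).Adj (Sum.inr 1)
        (if ep = ev then Sum.inr 0 else Sum.inl (D ep).snd)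
      rw [if_neg hvp, hep]
      exact chordG_xl.2 (Or.inr rfl)
    · show (chordG G d.fst d.snd d'.fst d'.snd).Adj (Sum.inr 0)
        (if (none : Option (Up G)) = some ep then (Sum.inr 1 : V ⊕ Fin 2)
        else Sum.inl (D ev).snd)
      rw [if_neg (by simp), hev]
      exact chordG_ml.2 (Or.inr rfl)
    · show (chordG G d.fst d.snd d'.fst d'.snd).Adj (Sum.inl (D e).fst)
        (if (some e : Option (Up G)) = some ep then (Sum.inr 1 : V ⊕ Fin 2) else
          if e = ev then Sum.inr 0 else Sum.inl (D e).snd)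
      by_cases h1 : e = ep
      · rw [if_pos (by rw [h1]), h1, hep]
        exact chordG_lx.2 (Or.inl rfl)
      · rw [if_neg (fun h => h1 (Option.some_injective _ h))]
        by_cases h2 : e = ev
        · rw [if_pos h2, h2, hev]
          exact chordG_lm.2 (Or.inl rfl)
        · rw [if_neg h2]
          refine chordG_ll.2 ⟨(D e).adj, fun h => h2 ?_, fun h => h1 ?_⟩
          · refine hDinj e ev ?_
            rw [hev]
            exact (SimpleGraph.dart_edge_eq_iff (D e) d).1 h
          · refine hDinj e ep ?_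
            rw [hep]
            exact (SimpleGraph.dart_edge_eq_iff (D e) d').1 h
  · have hx1 : ∃ e : Option (Option (Option (Up G))), s((e.elim (Sum.inr 1) s2 : V ⊕ Fin 2),
        e.elim (Sum.inr 0) t2) = s(Sum.inr 1, Sum.inr 0) := ⟨none, rfl⟩
    have hx2 : ∃ e : Option (Option (Option (Up G))), s((e.elim (Sum.inr 1) s2 : V ⊕ Fin 2),
        e.elim (Sum.inr 0) t2) = s(Sum.inr 1, Sum.inl d'.snd) := by
      refine ⟨some none, ?_⟩
      show s((Sum.inr 1 : V ⊕ Fin 2), (if ep = ev then Sum.inr 0 else Sum.inl (D ep).snd)) = _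
      rw [if_neg hvp, hep]
    have hx3 : ∃ e : Option (Option (Option (Up G))), s((e.elim (Sum.inr 1) s2 : V ⊕ Fin 2),
        e.elim (Sum.inr 0) t2) = s(Sum.inr 0, Sum.inl d.snd) := by
      refine ⟨some (some none), ?_⟩
      show s((Sum.inr 0 : V ⊕ Fin 2), (if (none : Option (Up G)) = some ep then
        (Sum.inr 1 : V ⊕ Fin 2) else Sum.inl (D ev).snd)) = _
      rw [if_neg (by simp), hev]
    have hx4 : ∃ e : Option (Option (Option (Up G))), s((e.elim (Sum.inr 1) s2 : V ⊕ Fin 2),
        e.elim (Sum.inr 0) t2) = s(Sum.inl d.fst, Sum.inr 0) := by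
      refine ⟨some (some (some ev)), ?_⟩
      rw [hval, if_neg hvp.symm, if_pos rfl, hev]
    have hx5 : ∃ e : Option (Option (Option (Up G))), s((e.elim (Sum.inr 1) s2 : V ⊕ Fin 2),
        e.elim (Sum.inr 0) t2) = s(Sum.inl d'.fst, Sum.inr 1) := by
      refine ⟨some (some (some ep)), ?_⟩
      rw [hval, if_pos rfl, hep]
    rintro (a | i) (b | j) h
    · obtain ⟨h1, h2, h3⟩ := chordG_ll.1 h
      obtain ⟨e, he⟩ := hDsurj ⟨(a, b), h1⟩
      have he' : s((D e).fst, (D e).snd) = s(a, b) := by
        rcases he with he | he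
        · rw [he]
        · have := congrArg SimpleGraph.Dart.symm he
          rw [SimpleGraph.Dart.symm_symm] at this
          rw [this]
          exact Sym2.eq_swap
      have h4 : e ≠ ev := by
        rintro rfl
        rw [hev] at he'
        exact h2 he'.symm
      have h5 : e ≠ ep := by
        rintro rfl
        rw [hep] at he'
        exact h3 he'.symm
      refine ⟨some (some (some e)), ?_⟩
      rw [hval, if_neg h5, if_neg h4]
      rcases Sym2.eq_iff.1 he' with ⟨h6, h7⟩ | ⟨h6, h7⟩
      · rw [h6, h7]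
      · rw [h6, h7]
        exact Sym2.eq_swap
    · fin_cases j
      · rcases chordG_lm.1 h with rfl | rfl
        · exact hx4
        · obtain ⟨e, he⟩ := hx3
          exact ⟨e, he.trans Sym2.eq_swap⟩
      · rcases chordG_lx.1 h with rfl | rfl
        · exact hx5
        · obtain ⟨e, he⟩ := hx2
          exact ⟨e, he.trans Sym2.eq_swap⟩
    · fin_cases i
      · rcases chordG_ml.1 h with rfl | rfl
        · obtain ⟨e, he⟩ := hx4
          exact ⟨e, he.trans Sym2.eq_swap⟩
        · exact hx3
      · rcases chordG_xl.1 h with rfl | rfl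
        · obtain ⟨e, he⟩ := hx5
          exact ⟨e, he.trans Sym2.eq_swap⟩
        · exact hx2
    · have hij : i ≠ j := h
      fin_cases i <;> fin_cases j
      · exact absurd rfl hij
      · obtain ⟨e, he⟩ := hx1
        exact ⟨e, he.trans Sym2.eq_swap⟩
      · exact hx1
      · exact absurd rfl hij
  · have v0 : s(((none : Option (Option (Option (Up G)))).elim (Sum.inr 1) s2 : V ⊕ Fin 2),
        (none : Option (Option (Option (Up G)))).elim (Sum.inr 0) t2) =
        s(Sum.inr 1, Sum.inr 0) := rfl
    have v1 : s(((some none : Option (Option (Option (Up G)))).elim (Sum.inr 1) s2 : V ⊕ Fin 2),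
        (some none : Option (Option (Option (Up G)))).elim (Sum.inr 0) t2) =
        s(Sum.inr 1, Sum.inl d'.snd) := by
      show s((Sum.inr 1 : V ⊕ Fin 2), (if ep = ev then Sum.inr 0 else Sum.inl (D ep).snd)) = _
      rw [if_neg hvp, hep]
    have v2 : s(((some (some none) : Option (Option (Option (Up G)))).elim (Sum.inr 1) s2 :
        V ⊕ Fin 2), (some (some none) : Option (Option (Option (Up G)))).elim (Sum.inr 0) t2) =
        s(Sum.inr 0, Sum.inl d.snd) := by
      show s((Sum.inr 0 : V ⊕ Fin 2), (if (none : Option (Up G)) = some ep then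
        (Sum.inr 1 : V ⊕ Fin 2) else Sum.inl (D ev).snd)) = _
      rw [if_neg (by simp), hev]
    have v3 : ∀ e : Up G, (e = ep ∧ s(((some (some (some e)) :
        Option (Option (Option (Up G)))).elim (Sum.inr 1) s2 : V ⊕ Fin 2),
        (some (some (some e)) : Option (Option (Option (Up G)))).elim (Sum.inr 0) t2) =
        s(Sum.inl d'.fst, Sum.inr 1)) ∨ (e = ev ∧ s(((some (some (some e)) :
        Option (Option (Option (Up G)))).elim (Sum.inr 1) s2 : V ⊕ Fin 2),
        (some (some (some e)) : Option (Option (Option (Up G)))).elim (Sum.inr 0) t2) =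
        s(Sum.inl d.fst, Sum.inr 0)) ∨ s(((some (some (some e)) :
        Option (Option (Option (Up G)))).elim (Sum.inr 1) s2 : V ⊕ Fin 2),
        (some (some (some e)) : Option (Option (Option (Up G)))).elim (Sum.inr 0) t2) =
        s(Sum.inl (D e).fst, Sum.inl (D e).snd) := by
      intro e
      rw [hval]
      by_cases h1 : e = ep
      · left
        refine ⟨h1, ?_⟩
        rw [if_pos h1, h1, hep]
      · by_cases h2 : e = ev
        · right; left
          refine ⟨h2, ?_⟩
          rw [if_neg h1, if_pos h2, h2, hev]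
        · right; right
          rw [if_neg h1, if_neg h2]
    have hab1 : d.snd ≠ d.fst := d.adj.ne'
    have hab2 : d'.snd ≠ d'.fst := d'.adj.ne'
    rintro (_ | _ | _ | e) (_ | _ | _ | e') h
    · rfl
    · exact absurd (v0.symm.trans (h.trans v1)) (by simp)
    · exact absurd (v0.symm.trans (h.trans v2)) (by simp)
    · rcases v3 e' with ⟨-, h2⟩ | ⟨-, h2⟩ | h2
      · exact absurd (v0.symm.trans (h.trans h2)) (by simp [hab1, hab2])
      · exact absurd (v0.symm.trans (h.trans h2)) (by simp [hab1, hab2])
      · exact absurd (v0.symm.trans (h.trans h2)) (by simp)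
    · exact absurd (v1.symm.trans (h.trans v0)) (by simp)
    · rfl
    · exact absurd (v1.symm.trans (h.trans v2)) (by simp)
    · rcases v3 e' with ⟨-, h2⟩ | ⟨-, h2⟩ | h2
      · exact absurd (v1.symm.trans (h.trans h2)) (by simp [hab1, hab2])
      · exact absurd (v1.symm.trans (h.trans h2)) (by simp [hab1, hab2])
      · exact absurd (v1.symm.trans (h.trans h2)) (by simp)
    · exact absurd (v2.symm.trans (h.trans v0)) (by simp)
    · exact absurd (v2.symm.trans (h.trans v1)) (by simp)
    · rfl
    · rcases v3 e' with ⟨-, h2⟩ | ⟨-, h2⟩ | h2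
      · exact absurd (v2.symm.trans (h.trans h2)) (by simp [hab1, hab2])
      · exact absurd (v2.symm.trans (h.trans h2)) (by simp [hab1, hab2])
      · exact absurd (v2.symm.trans (h.trans h2)) (by simp)
    · rcases v3 e with ⟨-, h2⟩ | ⟨-, h2⟩ | h2
      · exact absurd (h2.symm.trans (h.trans v0)) (by simp [hab1.symm, hab2.symm])
      · exact absurd (h2.symm.trans (h.trans v0)) (by simp [hab1.symm, hab2.symm])
      · exact absurd (h2.symm.trans (h.trans v0)) (by simp)
    · rcases v3 e with ⟨-, h2⟩ | ⟨-, h2⟩ | h2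
      · exact absurd (h2.symm.trans (h.trans v1)) (by simp [hab1.symm, hab2.symm])
      · exact absurd (h2.symm.trans (h.trans v1)) (by simp [hab1.symm, hab2.symm])
      · exact absurd (h2.symm.trans (h.trans v1)) (by simp)
    · rcases v3 e with ⟨-, h2⟩ | ⟨-, h2⟩ | h2
      · exact absurd (h2.symm.trans (h.trans v2)) (by simp [hab1.symm, hab2.symm])
      · exact absurd (h2.symm.trans (h.trans v2)) (by simp [hab1.symm, hab2.symm])
      · exact absurd (h2.symm.trans (h.trans v2)) (by simp)
    · have hee : e = e' := by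
        rcases v3 e with ⟨h1, h2⟩ | ⟨h1, h2⟩ | h2 <;> rcases v3 e' with ⟨h3, h4⟩ | ⟨h3, h4⟩ | h4
        · rw [h1, h3]
        · exact absurd (h2.symm.trans (h.trans h4)) (by simp)
        · exact absurd (h2.symm.trans (h.trans h4)) (by simp)
        · exact absurd (h2.symm.trans (h.trans h4)) (by simp)
        · rw [h1, h3]
        · exact absurd (h2.symm.trans (h.trans h4)) (by simp)
        · exact absurd (h2.symm.trans (h.trans h4)) (by simp)
        · exact absurd (h2.symm.trans (h.trans h4)) (by simp)
        · have h5 : s((Sum.inl (D e).fst : V ⊕ Fin 2), Sum.inl (D e).snd) =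
              s(Sum.inl (D e').fst, Sum.inl (D e').snd) := h2.symm.trans (h.trans h4)
          refine hDinj e e' ((SimpleGraph.dart_edge_eq_iff (D e) (D e')).1 ?_)
          show s((D e).fst, (D e).snd) = s((D e').fst, (D e').snd)
          rcases Sym2.eq_iff.1 h5 with ⟨h6, h7⟩ | ⟨h6, h7⟩
          · rw [Sum.inl_injective h6, Sum.inl_injective h7]
          · rw [Sum.inl_injective h6, Sum.inl_injective h7]
            exact Sym2.eq_swap
      rw [hee]

end Pool.Agent.Chord392
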