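import Mathlib
import Pool.Agent.Work.MP_392c8e_co_uni.ChordPl
import Pool.Agent.Work.MP_392c8e_co_uni.FinalC
import Pool.Agent.Work.MP_392c8e_co_uni.GeoC4
import Pool.Agent.Work.MP_392c8e_co_uni.GeoEight
import Pool.Agent.Work.MP_392c8e_co_t1.PlRot
import Pool.Agent.Work.MP_392c8e_co_t1.Surgery

/-!
# A chord between two subdivided edges: degrees, cuts, and the working definition
-/

set_option autoImplicit false

namespace Pool.Agent.Chord392

open Finset Pool.Agent.Sub392 Pool.Agent.T392 Pool.Agent.Uni392 Pool.Agent.U2Geo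
open Pool.Agent.Red (Pl)

set_option linter.unusedSectionVars false

variable {V : Type} [Fintype V] [DecidableEq V] {G : SimpleGraph V} [DecidableRel G.Adj]
  {v s p q : V}

/-- Two edges without a common end. -/
structure Two (G : SimpleGraph V) (v s p q : V) : Prop where
  vs : G.Adj v s
  pq : G.Adj p q
  vp : v ≠ p
  vq : v ≠ q
  sp : s ≠ p
  sq : s ≠ q

theorem Two.ne (h : Two G v s p q) : s(v, s) ≠ s(p, q) := by
  intro h1
  rcases Sym2.eq_iff.1 h1 with ⟨h2, -⟩ | ⟨h2, -⟩
  · exact h.vp h2
  · exact h.vq h2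

/-- The neighbour of `a` in the new graph which replaces the neighbour `b`. -/
def nbC (v s p q a b : V) : V ⊕ Fin 2 :=
  if s(a, b) = s(v, s) then .inr 0 else if s(a, b) = s(p, q) then .inr 1 else .inl b

theorem nbC_inj {a b b' : V} (h : nbC v s p q a b = nbC v s p q a b') : b = b' := by
  unfold nbC at h
  split_ifs at h with h1 h2 h3 h4 h5 h6 <;> try simp at h
  · exact Sym2.congr_right.1 (h1.trans h2.symm)
  · exact Sym2.congr_right.1 (‹s(a, b) = s(p, q)›.trans ‹s(a, b') = s(p, q)›.symm)
  · exact h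

theorem mem_nbC (h : Two G v s p q) {a : V} {w : V ⊕ Fin 2} :
    (chordG G v s p q).Adj (.inl a) w ↔ ∃ b, G.Adj a b ∧ nbC v s p q a b = w := by
  constructor
  · intro hw
    rcases w with b | i
    · obtain ⟨h1, h2, h3⟩ := chordG_ll.1 hw
      exact ⟨b, h1, by unfold nbC; rw [if_neg h2, if_neg h3]⟩
    · fin_cases i
      · rcases chordG_lm.1 hw with h1 | h1
        · exact ⟨s, h1 ▸ h.vs, by unfold nbC; rw [h1, if_pos rfl]; rfl⟩
        · exact ⟨v, h1 ▸ h.vs.symm, by unfold nbC; rw [h1, if_pos Sym2.eq_swap]; rfl⟩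
      · rcases chordG_lx.1 hw with h1 | h1
        · refine ⟨q, h1 ▸ h.pq, ?_⟩
          unfold nbC
          rw [h1, if_neg (Ne.symm h.ne), if_pos rfl]
          rfl
        · refine ⟨p, h1 ▸ h.pq.symm, ?_⟩
          unfold nbC
          rw [h1, if_neg (by rw [Sym2.eq_swap]; exact Ne.symm h.ne), if_pos Sym2.eq_swap]
          rfl
  · rintro ⟨b, hb, rfl⟩
    unfold nbC
    split_ifs with h1 h2
    · rw [chordG_lm]
      rcases Sym2.eq_iff.1 h1 with ⟨h3, -⟩ | ⟨h3, -⟩
      · exact Or.inl h3
      · exact Or.inr h3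
    · rw [chordG_lx]
      rcases Sym2.eq_iff.1 h2 with ⟨h3, -⟩ | ⟨h3, -⟩
      · exact Or.inl h3
      · exact Or.inr h3
    · exact chordG_ll.2 ⟨hb, h1, h2⟩

/-- **The new graph is cubic.** -/
theorem chordG_cub [DecidableRel (chordG G v s p q).Adj] (h : Two G v s p q)
    (hc : ∀ v, G.degree v = 3) : ∀ w, (chordG G v s p q).degree w = 3 := by
  classical
  rintro (a | i)
  · rw [← hc a, ← SimpleGraph.card_neighborFinset_eq_degree,
      ← SimpleGraph.card_neighborFinset_eq_degree]
    have : (chordG G v s p q).neighborFinset (.inl a) =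
        (G.neighborFinset a).image (nbC v s p q a) := by
      ext w
      rw [SimpleGraph.mem_neighborFinset, mem_nbC h, mem_image]
      simp
    rw [this, card_image_of_injective _ fun b b' hb => nbC_inj hb]
  · rw [← SimpleGraph.card_neighborFinset_eq_degree]
    fin_cases i
    · have : (chordG G v s p q).neighborFinset (.inr 0) = {.inl v, .inl s, .inr 1} := by
        ext w
        rw [SimpleGraph.mem_neighborFinset]
        rcases w with b | j
        · rw [chordG_ml]
          simp
        · fin_cases j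
          · simp
          · have := chordG_mx (G := G) (v := v) (s := s) (p := p) (q := q)
            simpa using this
      show #((chordG G v s p q).neighborFinset (.inr 0)) = 3
      rw [this, card_insert_of_notMem, card_pair (by simp)]
      simp [h.vs.ne]
    · have : (chordG G v s p q).neighborFinset (.inr 1) = {.inl p, .inl q, .inr 0} := by
        ext w
        rw [SimpleGraph.mem_neighborFinset]
        rcases w with b | j
        · rw [chordG_xl]
          simp
        · fin_cases j
          · have := chordG_xm (G := G) (v := v) (s := s) (p := p) (q := q)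
            simpa using this
          · simp
      show #((chordG G v s p q).neighborFinset (.inr 1)) = 3
      rw [this, card_insert_of_notMem, card_pair (by simp)]
      simp [h.pq.ne]

/-- **The new graph has no triangles.** -/
theorem chordG_tri (h : Two G v s p q) (ht : G.CliqueFree 3) :
    (chordG G v s p q).CliqueFree 3 := by
  classical
  have key : ∀ x y z, (chordG G v s p q).Adj x y → (chordG G v s p q).Adj x z →
      (chordG G v s p q).Adj y z → False := by
    -- no triangle at `m`
    have hm : ∀ y z, (chordG G v s p q).Adj (.inr 0) y → (chordG G v s p q).Adj (.inr 0) z →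
        (chordG G v s p q).Adj y z → False := by
      intro y z hy hz hyz
      rcases y with b | j <;> rcases z with c | k
      · rw [chordG_ml] at hy hz
        obtain ⟨h1, h2, -⟩ := chordG_ll.1 hyz
        rcases hy with rfl | rfl <;> rcases hz with rfl | rfl
        · exact h1.ne rfl
        · exact h2 rfl
        · exact h2 Sym2.eq_swap
        · exact h1.ne rfl
      · fin_cases k
        · exact hz.ne rfl
        · rw [chordG_ml] at hy
          have h1 := chordG_lx.1 hyz
          rcases hy with rfl | rfl <;> rcases h1 with h1 | h1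
          · exact h.vp h1
          · exact h.vq h1
          · exact h.sp h1
          · exact h.sq h1
      · fin_cases j
        · exact hy.ne rfl
        · rw [chordG_ml] at hz
          have h1 := chordG_xl.1 hyz
          rcases hz with rfl | rfl <;> rcases h1 with h1 | h1
          · exact h.vp h1
          · exact h.vq h1
          · exact h.sp h1
          · exact h.sq h1
      · fin_cases j <;> fin_cases k
        · exact hy.ne rfl
        · exact hy.ne rfl
        · exact hz.ne rfl
        · exact hyz.ne rfl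
    have hx : ∀ y z, (chordG G v s p q).Adj (.inr 1) y → (chordG G v s p q).Adj (.inr 1) z →
        (chordG G v s p q).Adj y z → False := by
      intro y z hy hz hyz
      rcases y with b | j <;> rcases z with c | k
      · rw [chordG_xl] at hy hz
        obtain ⟨h1, -, h2⟩ := chordG_ll.1 hyz
        rcases hy with rfl | rfl <;> rcases hz with rfl | rfl
        · exact h1.ne rfl
        · exact h2 rfl
        · exact h2 Sym2.eq_swap
        · exact h1.ne rfl
      · fin_cases k
        · exact hm _ _ hz.symm hyz.symm hy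
        · exact hz.ne rfl
      · fin_cases j
        · exact hm _ _ hy.symm hyz hz
        · exact hy.ne rfl
      · fin_cases j <;> fin_cases k
        · exact hyz.ne rfl
        · exact hz.ne rfl
        · exact hy.ne rfl
        · exact hz.ne rfl
    intro x y z hxy hxz hyz
    rcases x with a | i
    · rcases y with b | j
      · rcases z with c | k
        · exact ht {a, b, c} (SimpleGraph.is3Clique_iff.2 ⟨a, b, c, (chordG_ll.1 hxy).1,
            (chordG_ll.1 hxz).1, (chordG_ll.1 hyz).1, rfl⟩)
        · fin_cases k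
          · exact hm _ _ hxz.symm hyz.symm hxy
          · exact hx _ _ hxz.symm hyz.symm hxy
      · fin_cases j
        · exact hm _ _ hxy.symm hyz hxz
        · exact hx _ _ hxy.symm hyz hxz
    · fin_cases i
      · exact hm _ _ hxy hxz hyz
      · exact hx _ _ hxy hxz hyz
  intro t ht'
  obtain ⟨a, b, c, hab, hac, hbc, rfl⟩ := SimpleGraph.is3Clique_iff.1 ht'
  exact key a b c hab hac hbc

/-! ### Cuts -/

/-- The edge of the cut in the new graph. -/
def cutC (A : Finset (V ⊕ Fin 2)) (v s p q : V) (e : V × V) : (V ⊕ Fin 2) × (V ⊕ Fin 2) :=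
  if s(e.1, e.2) = s(v, s) then
    (if (Sum.inr 0 : V ⊕ Fin 2) ∈ A then (.inr 0, .inl e.2) else (.inl e.1, .inr 0))
  else if s(e.1, e.2) = s(p, q) then
    (if (Sum.inr 1 : V ⊕ Fin 2) ∈ A then (.inr 1, .inl e.2) else (.inl e.1, .inr 1))
  else (.inl e.1, .inl e.2)

/-- The old vertices of a set. -/
def oldC (A : Finset (V ⊕ Fin 2)) : Finset V := univ.filter fun a => Sum.inl a ∈ A

theorem mem_oldC {A : Finset (V ⊕ Fin 2)} {a : V} : a ∈ oldC A ↔ Sum.inl a ∈ A := by
  simp [oldC]

theorem oldC_compl (A : Finset (V ⊕ Fin 2)) : oldC Aᶜ = (oldC A)ᶜ := by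
  ext a
  simp [oldC]

theorem card_oldC (A : Finset (V ⊕ Fin 2)) : #A ≤ #(oldC A) + 2 := by
  classical
  have h1 : A ⊆ (oldC A).image Sum.inl ∪ {.inr 0, .inr 1} := by
    intro x hx
    rcases x with a | i
    · exact mem_union_left _ (mem_image.2 ⟨a, mem_oldC.2 hx, rfl⟩)
    · refine mem_union_right _ ?_
      fin_cases i <;> simp
  refine (card_le_card h1).trans ((card_union_le _ _).trans ?_)
  have h2 : #((oldC A).image (Sum.inl : V → V ⊕ Fin 2)) ≤ #(oldC A) := card_image_le
  have h3 : #({.inr 0, .inr 1} : Finset (V ⊕ Fin 2)) ≤ 2 := card_le_two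
  omega

theorem out_oldC [DecidableRel (chordG G v s p q).Adj] (h : Two G v s p q)
    (A : Finset (V ⊕ Fin 2)) : out G (oldC A) ≤ out (chordG G v s p q) A := by
  classical
  rw [← card_interedges, ← card_interedges]
  refine card_le_card_of_injOn (cutC A v s p q) ?_ ?_
  · rintro ⟨a, b⟩ he
    rw [Finset.mem_coe, SimpleGraph.mem_interedges_iff] at he
    obtain ⟨h1, h2, h3⟩ := he
    rw [mem_oldC] at h1
    rw [mem_compl, mem_oldC] at h2
    rw [Finset.mem_coe, SimpleGraph.mem_interedges_iff]
    unfold cutC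
    split_ifs with k1 k2 k3 k4
    · refine ⟨k2, mem_compl.2 h2, chordG_ml.2 ?_⟩
      rcases Sym2.eq_iff.1 k1 with ⟨-, h5⟩ | ⟨-, h5⟩
      · exact Or.inr h5
      · exact Or.inl h5
    · refine ⟨h1, mem_compl.2 k2, chordG_lm.2 ?_⟩
      rcases Sym2.eq_iff.1 k1 with ⟨h5, -⟩ | ⟨h5, -⟩
      · exact Or.inl h5
      · exact Or.inr h5
    · refine ⟨k4, mem_compl.2 h2, chordG_xl.2 ?_⟩
      rcases Sym2.eq_iff.1 k3 with ⟨-, h5⟩ | ⟨-, h5⟩
      · exact Or.inr h5
      · exact Or.inl h5
    · refine ⟨h1, mem_compl.2 k4, chordG_lx.2 ?_⟩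
      rcases Sym2.eq_iff.1 k3 with ⟨h5, -⟩ | ⟨h5, -⟩
      · exact Or.inl h5
      · exact Or.inr h5
    · exact ⟨h1, mem_compl.2 h2, chordG_ll.2 ⟨h3, k1, k3⟩⟩
  · rintro ⟨a, b⟩ - ⟨a', b'⟩ - he
    unfold cutC at he
    dsimp only at he
    have fin : ∀ {x y : V}, s(a, b) = s(x, y) → s(a', b') = s(x, y) → a = a' ∨ b = b' →
        (a, b) = (a', b') := by
      intro x y h1 h2 h3
      rw [← h2] at h1
      rcases Sym2.eq_iff.1 h1 with ⟨h4, h5⟩ | ⟨h4, h5⟩
      · rw [h4, h5]
      · rcases h3 with h3 | h3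
        · exact Prod.ext h3 (h5.trans (h3.symm.trans h4))
        · exact Prod.ext (h4.trans (h3.symm.trans h5)) h3
    split_ifs at he with k1 k2 k3 k4 k5 k6 k7 k8 k9 <;> simp at he
    all_goals first
      | exact fin ‹_› ‹_› (Or.inl he)
      | exact fin ‹_› ‹_› (Or.inr he)
      | (obtain ⟨e1, e2⟩ := he; rw [e1, e2])

/-- Three vertices of a cubic graph without triangles have at least five leaving edges. -/
theorem five_le_out {W : Type} [Fintype W] [DecidableEq W] {H : SimpleGraph W}
    [DecidableRel H.Adj] (hc : ∀ v, H.degree v = 3) (ht : H.CliqueFree 3) (A : Finset W)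
    (h1 : #A = 3) : 5 ≤ out H A := by
  classical
  have h3 := out_add hc A
  have hnc : ∃ x ∈ A, ∃ y ∈ A, x ≠ y ∧ ¬ H.Adj x y := by
    by_contra hcon
    push Not at hcon
    refine ht A ⟨fun x hx y hy hxy => hcon x hx y hy hxy, h1⟩
  obtain ⟨x, hx, y, hy, hxy, hn⟩ := hnc
  have h5 : #{d : H.Dart | d.fst ∈ A ∧ d.snd ∈ A} ≤ #((A.offDiag.erase (x, y)).erase (y, x)) := by
    refine card_le_card_of_injOn (fun d : H.Dart => (d.fst, d.snd)) ?_ ?_
    · intro d hd
      simp only [coe_filter, mem_univ, true_and, Set.mem_setOf_eq] at hd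
      simp only [Finset.coe_erase, Set.mem_diff, Finset.mem_coe, mem_offDiag,
        Set.mem_singleton_iff, Prod.mk.injEq, not_and]
      refine ⟨⟨⟨hd.1, hd.2, d.adj.ne⟩, fun e1 e2 => hn ?_⟩, fun e1 e2 => hn ?_⟩
      · rw [← e1, ← e2]
        exact d.adj
      · rw [← e1, ← e2]
        exact d.adj.symm
    · intro d _ d' _ hd
      exact SimpleGraph.Dart.ext _ _ hd
  have h6 : #((A.offDiag.erase (x, y)).erase (y, x)) = 4 := by
    rw [card_erase_of_mem, card_erase_of_mem, offDiag_card, h1]
    · exact mem_offDiag.2 ⟨hx, hy, hxy⟩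
    · refine mem_erase.2 ⟨?_, mem_offDiag.2 ⟨hy, hx, hxy.symm⟩⟩
      intro h7
      exact hxy.symm (Prod.mk.inj h7).1
  omega

/-- **Cuts of the new graph with at most three edges are trivial.** -/
theorem chordG_cut [DecidableRel (chordG G v s p q).Adj] (h : Two G v s p q)
    (hc : ∀ v, G.degree v = 3) (ht : G.CliqueFree 3)
    (hcut : ∀ A : Finset V, out G A ≤ 3 → #A ≤ 1 ∨ #Aᶜ ≤ 1) (A : Finset (V ⊕ Fin 2))
    (hA : out (chordG G v s p q) A ≤ 3) : #A ≤ 1 ∨ #Aᶜ ≤ 1 := by
  have hc' := chordG_cub h hc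
  have ht' := chordG_tri h ht
  have key : ∀ B : Finset (V ⊕ Fin 2), out (chordG G v s p q) B ≤ 3 → #(oldC B) ≤ 1 →
      #B ≤ 1 := by
    intro B hB h1
    have h2 := card_oldC B
    by_contra hcon
    rcases (by omega : #B = 2 ∨ #B = 3) with h3 | h3
    · have := four_le_out hc' B h3
      omega
    · have := five_le_out hc' ht' B h3
      omega
  rcases hcut _ ((out_oldC h A).trans hA) with h1 | h1
  · exact Or.inl (key A hA h1)
  · refine Or.inr (key Aᶜ (by rw [out_compl]; exact hA) ?_)
    rw [oldC_compl]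
    exact h1

/-! ### The working definition -/

/-- The converse of `cut_of_cycFour`. -/
theorem cycFour_of_cut {W : Type} [Fintype W] [DecidableEq W] {H : SimpleGraph W}
    [DecidableRel H.Adj] (hcut : ∀ A : Finset W, out H A ≤ 3 → #A ≤ 1 ∨ #Aᶜ ≤ 1) :
    CycFour H := by
  classical
  have key : ∀ A : Finset W, #A ≤ 1 → (H.induce (A : Set W)).IsAcyclic := by
    intro A hA v c hc
    have hsub : ∀ x y : (A : Set W), x = y := fun x y =>
      Subtype.ext (card_le_one.1 hA _ x.2 _ y.2)
    cases c with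
    | nil => exact hc.ne_nil rfl
    | cons h _ => exact h.ne (hsub _ _)
  intro A h1 h2
  by_contra hcon
  rw [card_interedges] at hcon
  rcases hcut A (by omega) with h3 | h3
  · exact h1 (key A h3)
  · refine h2 ?_
    have := key Aᶜ h3
    rwa [coe_compl] at this

/-- **The chord of a face.** -/
theorem exists_chord {R : Rot G} (hR : C4 R) (d : G.Dart) :
    Two G d.fst d.snd (R.next^[2] d).fst (R.next^[2] d).snd ∧
    ∀ [DecidableRel (chordG G d.fst d.snd (R.next^[2] d).fst (R.next^[2] d).snd).Adj],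
      ∃ R' : Rot (chordG G d.fst d.snd (R.next^[2] d).fst (R.next^[2] d).snd), C4 R' := by
  classical
  have g := hR.geo
  have e0 : R.next^[2] d = R.next (R.next d) := rfl
  have n1 := g.next_ne_symm d
  have n2 := g.next_ne_symm (R.next d)
  have a1 : (R.next d).fst = d.snd := R.fst_next d
  have a2 : (R.next (R.next d)).fst = (R.next d).snd := R.fst_next _
  have two : Two G d.fst d.snd (R.next^[2] d).fst (R.next^[2] d).snd := by
    rw [e0, a2]
    refine ⟨d.adj, a2 ▸ (R.next (R.next d)).adj, ?_, ?_, ?_, ?_⟩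
    · intro h1
      exact n1 (SimpleGraph.Dart.ext _ _ (Prod.ext a1 h1.symm))
    · intro h1
      have b1 : G.Adj d.snd (R.next d).snd := a1 ▸ (R.next d).adj
      have b2 : G.Adj (R.next d).snd d.fst := by
        rw [h1, ← a2]
        exact (R.next (R.next d)).adj
      exact hR.tri {d.fst, d.snd, (R.next d).snd} (SimpleGraph.is3Clique_iff.2
        ⟨_, _, _, d.adj, b2.symm, b1, rfl⟩)
    · rw [← a1]
      exact (R.next d).adj.ne
    · intro h1
      exact n2 (SimpleGraph.Dart.ext _ _ (Prod.ext a2 (a1.trans h1).symm))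
  refine ⟨two, ?_⟩
  intro _
  have hpl := pl_chord R hR.plane d 2 (by norm_num) (lt_of_lt_of_le (by norm_num) (g.four_le_sz d))
    (g.br d) (by rw [← face_iter' R d 2]; exact g.br _)
  have hc' := chordG_cub two hR.cub
  have hcut := chordG_cut two hR.cub hR.tri hR.cut
  have h4 := cycFour_of_cut hcut
  haveI : Nonempty (V ⊕ Fin 2) := ⟨.inr 0⟩
  obtain ⟨R', hR'⟩ := exists_rot_of_pl hpl (connected_of_cycFour hc' h4)
    ⟨_, _, chordG_mx⟩ (fun w => (hc' w).le) (companion_four hc' h4)
  refine ⟨R', hR', hc', hcut, ?_⟩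
  have := hR.big
  rw [Fintype.card_sum, Fintype.card_fin]
  omega

/-! ### The colourings -/

/-- The graph `G` with the edge `v s` subdivided by `inr 0`; `inr 1` is isolated. -/
def subG (G : SimpleGraph V) (v s : V) : SimpleGraph (V ⊕ Fin 2) where
  Adj a b := match a, b with
    | .inl a, .inl b => G.Adj a b ∧ s(a, b) ≠ s(v, s)
    | .inl a, .inr i => i = 0 ∧ (a = v ∨ a = s)
    | .inr i, .inl a => i = 0 ∧ (a = v ∨ a = s)
    | .inr _, .inr _ => False
  symm := ⟨fun a b h => by
    rcases a with a | i <;> rcases b with b | j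
    · refine ⟨h.1.symm, ?_⟩
      rw [Sym2.eq_swap]
      exact h.2
    · exact h
    · exact h
    · exact h⟩
  loopless := ⟨fun a h => by
    rcases a with a | i
    · exact h.1.ne rfl
    · exact h⟩

/-- **The surgery at `x`**: the vertex `x = inr 1` is made isolated and the edge `p q` comes back. -/
theorem subG_le (h : Two G v s p q) :
    subG G v s ≤ Pool.Agent.T1Red.newG (chordG G v s p q) (fun w => w = .inr 1)
      [(.inl p, .inl q)] := by
  intro a b hab
  rcases a with a | i <;> rcases b with b | j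
  · obtain ⟨h1, h2⟩ := hab
    by_cases h3 : s(a, b) = s(p, q)
    · refine Or.inr ⟨fun h4 => h1.ne (Sum.inl.inj h4), ?_⟩
      rcases Sym2.eq_iff.1 h3 with ⟨rfl, rfl⟩ | ⟨rfl, rfl⟩ <;> simp
    · exact Or.inl ⟨chordG_ll.2 ⟨h1, h2, h3⟩, by simp, by simp⟩
  · obtain ⟨rfl, h1⟩ := hab
    exact Or.inl ⟨chordG_lm.2 h1, by simp, by simp⟩
  · obtain ⟨rfl, h1⟩ := hab
    exact Or.inl ⟨chordG_ml.2 h1, by simp, by simp⟩
  · exact absurd hab (fun h => h)

theorem newG_le (h : Two G v s p q) :
    Pool.Agent.T1Red.newG (chordG G v s p q) (fun w => w = .inr 1) [(.inl p, .inl q)] ≤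
      subG G v s := by
  rintro a b (⟨h1, h2, h3⟩ | ⟨h1, h2⟩)
  · rcases a with a | i <;> rcases b with b | j
    · exact ⟨(chordG_ll.1 h1).1, (chordG_ll.1 h1).2.1⟩
    · fin_cases j
      · exact ⟨rfl, chordG_lm.1 h1⟩
      · exact absurd rfl h3
    · fin_cases i
      · exact ⟨rfl, chordG_ml.1 h1⟩
      · exact absurd rfl h2
    · fin_cases i <;> fin_cases j
      · exact absurd rfl h1.ne
      · exact absurd rfl h3
      · exact absurd rfl h2
      · exact absurd rfl h1.ne
  · simp only [List.mem_singleton, Prod.mk.injEq] at h2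
    rcases h2 with ⟨rfl, rfl⟩ | ⟨rfl, rfl⟩
    · exact ⟨h.pq, Ne.symm h.ne⟩
    · exact ⟨h.pq.symm, by rw [Sym2.eq_swap]; exact Ne.symm h.ne⟩

/-- **`newG` of the chord graph is the graph with one subdivided edge.** -/
theorem newG_chord (h : Two G v s p q) :
    Pool.Agent.T1Red.newG (chordG G v s p q) (fun w => w = .inr 1) [(.inl p, .inl q)] =
      subG G v s := le_antisymm (newG_le h) (subG_le h)

/-- The ends `p`, `q` are not adjacent in the new graph. -/
theorem chordG_not_pq : ¬ (chordG G v s p q).Adj (.inl p) (.inl q) := fun h =>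
  (chordG_ll.1 h).2.2 rfl

/-- The only common neighbour of `p` and `q` in the new graph is `x`. -/
theorem chordG_common (h : Two G v s p q) (ht : G.CliqueFree 3) {w : V ⊕ Fin 2}
    (h1 : (chordG G v s p q).Adj (.inl p) w) (h2 : (chordG G v s p q).Adj (.inl q) w) :
    w = .inr 1 := by
  rcases w with a | i
  · exact absurd (SimpleGraph.is3Clique_iff.2 ⟨p, q, a, h.pq, (chordG_ll.1 h1).1,
      (chordG_ll.1 h2).1, rfl⟩) (ht _)
  · fin_cases i
    · rcases chordG_lm.1 h1 with h3 | h3
      · exact absurd h3.symm h.vp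
      · exact absurd h3.symm h.sp
    · rfl

/-- The graph with one subdivided edge has no triangles. -/
theorem subG_tri (ht : G.CliqueFree 3) : (subG G v s).CliqueFree 3 := by
  classical
  have hm : ∀ i y z, (subG G v s).Adj (.inr i) y → (subG G v s).Adj (.inr i) z →
      (subG G v s).Adj y z → False := by
    rintro i (b | j) (c | k) hy hz hyz
    · obtain ⟨h1, h2⟩ := hyz
      rcases hy.2 with rfl | rfl <;> rcases hz.2 with rfl | rfl
      · exact h1.ne rfl
      · exact h2 rfl
      · exact h2 Sym2.eq_swap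
      · exact h1.ne rfl
    · exact hz
    · exact hy
    · exact hy
  intro t ht'
  obtain ⟨a, b, c, hab, hac, hbc, rfl⟩ := SimpleGraph.is3Clique_iff.1 ht'
  rcases a with a | i
  · rcases b with b | j
    · rcases c with c | k
      · exact ht {a, b, c} (SimpleGraph.is3Clique_iff.2 ⟨a, b, c, hab.1, hac.1, hbc.1, rfl⟩)
      · exact hm k _ _ hac.symm hbc.symm hab
    · exact hm j _ _ hab.symm hbc hac
  · exact hm i _ _ hab hac hbc

end Pool.Agent.Chord392
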