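import Pool.Agent.Work.MP_392c8e_co_uni.GBRot

/-!
# A chord between two subdivided edges: the graph
-/

namespace Pool.Agent.Chord392

/-- The graph `G` with the edges `v s` and `p q` subdivided by `m = inr 0` and `x = inr 1`, and with
the new edge `m x`. -/
def chordG {V : Type} (G : SimpleGraph V) (v s p q : V) : SimpleGraph (V ⊕ Fin 2) where
  Adj a b := match a, b with
    | .inl a, .inl b => G.Adj a b ∧ s(a, b) ≠ s(v, s) ∧ s(a, b) ≠ s(p, q)
    | .inl a, .inr i => (i = 0 ∧ (a = v ∨ a = s)) ∨ (i = 1 ∧ (a = p ∨ a = q))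
    | .inr i, .inl a => (i = 0 ∧ (a = v ∨ a = s)) ∨ (i = 1 ∧ (a = p ∨ a = q))
    | .inr i, .inr j => i ≠ j
  symm := ⟨fun a b h => by
    rcases a with a | i <;> rcases b with b | j
    · refine ⟨h.1.symm, ?_, ?_⟩
      · rw [Sym2.eq_swap]
        exact h.2.1
      · rw [Sym2.eq_swap]
        exact h.2.2
    · exact h
    · exact h
    · exact Ne.symm h⟩
  loopless := ⟨fun a h => by
    rcases a with a | i
    · exact h.1.ne rfl
    · exact h rfl⟩

section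

variable {V : Type} {G : SimpleGraph V} {v s p q : V}

theorem chordG_ll {a b : V} : (chordG G v s p q).Adj (.inl a) (.inl b) ↔
    G.Adj a b ∧ s(a, b) ≠ s(v, s) ∧ s(a, b) ≠ s(p, q) := Iff.rfl

theorem chordG_lm {a : V} : (chordG G v s p q).Adj (.inl a) (.inr 0) ↔ a = v ∨ a = s := by
  show ((0 : Fin 2) = 0 ∧ _) ∨ ((0 : Fin 2) = 1 ∧ _) ↔ _
  simp

theorem chordG_ml {a : V} : (chordG G v s p q).Adj (.inr 0) (.inl a) ↔ a = v ∨ a = s := by
  show ((0 : Fin 2) = 0 ∧ _) ∨ ((0 : Fin 2) = 1 ∧ _) ↔ _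
  simp

theorem chordG_lx {a : V} : (chordG G v s p q).Adj (.inl a) (.inr 1) ↔ a = p ∨ a = q := by
  show ((1 : Fin 2) = 0 ∧ _) ∨ ((1 : Fin 2) = 1 ∧ _) ↔ _
  simp

theorem chordG_xl {a : V} : (chordG G v s p q).Adj (.inr 1) (.inl a) ↔ a = p ∨ a = q := by
  show ((1 : Fin 2) = 0 ∧ _) ∨ ((1 : Fin 2) = 1 ∧ _) ↔ _
  simp

theorem chordG_mx : (chordG G v s p q).Adj (.inr 0) (.inr 1) := by
  show (0 : Fin 2) ≠ 1
  decide

theorem chordG_xm : (chordG G v s p q).Adj (.inr 1) (.inr 0) := by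
  show (1 : Fin 2) ≠ 0
  decide

end

end Pool.Agent.Chord392
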