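import Mathlib
import Pool.Agent.Work.MP_392c8e_co_uni.ColN
import Pool.Agent.Work.MP_392c8e_co_uni.Lift

/-!
# Colourings at level `n` and strict colourings with heights less than `n`
-/

namespace Pool.Agent.CutN

open Pool.Agent.Uni392 (StrictN)
open Pool.Agent.T1Red (Str)

variable {V : Type*} {G : SimpleGraph V}

/-- Colours in `ℤ / 3` and heights less than `n` give integers. -/
theorem colN_of_strictN {n : ℕ} (h : StrictN G n) : ColN (n : ℤ) G := by
  obtain ⟨c, τ, hτ, h⟩ := h
  have key : ∀ a b : ZMod 3, b = a + 1 → (a.val = 0 ∧ b.val = 1) ∨ (a.val = 1 ∧ b.val = 2) ∨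
      (a.val = 2 ∧ b.val = 0) := by decide
  have main : ∀ u v, c v = c u + 1 → τ u < τ v →
      Jn (n : ℤ) (((n * (c v).val + τ v : ℕ) : ℤ) - ((n * (c u).val + τ u : ℕ) : ℤ)) := by
    intro u v h1 h2
    have h4 := hτ u
    have h5 := hτ v
    rcases key _ _ h1 with ⟨h6, h7⟩ | ⟨h6, h7⟩ | ⟨h6, h7⟩
    · rw [h6, h7]
      refine ⟨0, ?_, ?_⟩ <;> push_cast <;> omega
    · rw [h6, h7]
      refine ⟨0, ?_, ?_⟩ <;> push_cast <;> omega
    · rw [h6, h7]
      refine ⟨1, ?_, ?_⟩ <;> push_cast <;> omega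
  refine ⟨fun v => ((n * (c v).val + τ v : ℕ) : ℤ), fun u v huv => ?_⟩
  rcases h u v huv with ⟨h1, h2⟩ | ⟨h1, h2⟩
  · exact main u v h1 h2
  · have := (main v u h1 h2).neg
    rwa [neg_sub] at this

/-- Integers give colours and heights. -/
theorem strictN_of_colN {n : ℕ} (hn : 0 < n) (h : ColN (n : ℤ) G) : StrictN G n := by
  obtain ⟨c, h⟩ := h
  have hn' : (0 : ℤ) < n := by exact_mod_cast hn
  refine ⟨fun v => ((c v / n : ℤ) : ZMod 3), fun v => (c v % n).toNat, fun v => ?_,
    fun u v huv => ?_⟩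
  · have h1 := Int.emod_nonneg (c v) hn'.ne'
    have h2 := Int.emod_lt_of_pos (c v) hn'
    show (c v % n).toNat < n
    omega
  · obtain ⟨k, h1, h2⟩ := h u v huv
    have e1 := Int.emod_add_mul_ediv (c u) n
    have e2 := Int.emod_add_mul_ediv (c v) n
    have f1 := Int.emod_nonneg (c u) hn'.ne'
    have f2 := Int.emod_lt_of_pos (c u) hn'
    have f3 := Int.emod_nonneg (c v) hn'.ne'
    have f4 := Int.emod_lt_of_pos (c v) hn'
    have hcast : ∀ (a b : ℤ) (m : ℤ), b = a + 1 - 3 * m →
        ((b : ℤ) : ZMod 3) = (a : ZMod 3) + 1 := by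
      intro a b m hab
      rw [hab]
      push_cast
      have h3 : (3 : ZMod 3) = 0 := by decide
      rw [h3]
      ring
    show Str (fun v => ((c v / n : ℤ) : ZMod 3)) (fun v => (c v % n).toNat) u v
    unfold Str
    simp only
    generalize c u / n = a at *
    generalize c v / n = b at *
    generalize c u % n = r at *
    generalize c v % n = s at *
    have h3 : n + 1 ≤ (s - r) + n * (b - a + 3 * k) := by
      rw [← e1, ← e2] at h1
      linarith
    have h4 : (s - r) + n * (b - a + 3 * k) ≤ 2 * n - 1 := by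
      rw [← e1, ← e2] at h2
      linarith
    have h5 : b - a + 3 * k = 1 ∨ b - a + 3 * k = 2 := by
      have h6 : 0 < b - a + 3 * k := by
        by_contra h7
        have h8 : (n : ℤ) * (b - a + 3 * k) ≤ 0 :=
          mul_nonpos_of_nonneg_of_nonpos hn'.le (by omega)
        linarith
      have h7 : b - a + 3 * k < 3 := by
        by_contra h8
        have h9 : (n : ℤ) * 3 ≤ n * (b - a + 3 * k) :=
          mul_le_mul_of_nonneg_left (by omega) hn'.le
        linarith
      omega
    rcases h5 with h5 | h5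
    · left
      rw [h5] at h3 h4
      exact ⟨hcast a b k (by omega), by omega⟩
    · right
      rw [h5] at h3 h4
      exact ⟨hcast b a (1 - k) (by omega), by omega⟩

theorem colN_iff {n : ℕ} (hn : 0 < n) : ColN (n : ℤ) G ↔ StrictN G n :=
  ⟨strictN_of_colN hn, colN_of_strictN⟩

end Pool.Agent.CutN
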