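import Pool.Agent.Work.MP_392c8e_co_uni.Parts
import Pool.Agent.Work.MP_392c8e_co_uni.Inv
import Pool.Agent.Work.MP_392c8e_co_t1.Apply

/-!
# Linear growth

The number of labelled classes at a component of the graph of crossing edges is at most a constant
times the number of its vertices with two crossing edges which are not inner vertices of a path
of the virtual surgery, plus the number of the patterns that lie completely in the component.
-/

set_option autoImplicit false
set_option linter.unusedSectionVars false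

namespace Pool.Agent.Uni392

open Finset Pool.Agent.Sub392 Pool.Agent.T392 Pool.Agent.Disch392
open Pool.Agent.Uni3 (Cr IsComp crT crTwo crV crD Adm qr)
open Pool.Agent.Uni91 (VD OnP Cs ends full cs_iff_get cs_cons)
open Pool.Agent.T1Red (newG Deg3)

/-- A deleted edge. -/
def Del {V : Type} (G : SimpleGraph V) (I : V → Prop) (P : List (V × List V × V)) (u v : V) :
    Prop := G.Adj u v ∧ (I u ∨ I v) ∧ ∀ p ∈ P, ¬ OnP p u v

/-- An inner vertex of a path. -/
def Inn {V : Type} (P : List (V × List V × V)) (v : V) : Prop := ∃ p ∈ P, v ∈ p.2.1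

theorem Del.symm {V : Type} {G : SimpleGraph V} {I : V → Prop} {P : List (V × List V × V)}
    {u v : V} (h : Del G I P u v) : Del G I P v u :=
  ⟨h.1.symm, h.2.1.symm, fun p hp h' => h.2.2 p hp h'.symm⟩

section lists

variable {A : Type*}

theorem chain_of_cs {r : A → A → Prop} : ∀ {L : List A}, (∀ u v, Cs L u v → r u v) →
    List.IsChain r L := by
  intro L
  induction L with
  | nil => exact fun _ => List.IsChain.nil
  | cons a L ih =>
    intro h
    cases L with
    | nil => exact List.IsChain.singleton _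
    | cons b L =>
      rw [List.isChain_cons_cons]
      exact ⟨h a b (cs_cons.2 (Or.inl ⟨rfl, L, rfl⟩)),
        ih fun u v huv => h u v (cs_cons.2 (Or.inr huv))⟩

theorem chain_cs {r : A → A → Prop} {L : List A} (h : List.IsChain r L) {u v : A}
    (hc : Cs L u v) : r u v := by
  obtain ⟨l₁, l₂, rfl⟩ := hc
  have h2 := (List.isChain_append.1 h).2.1
  rw [List.isChain_cons_cons] at h2
  exact h2.1

theorem cs_append_right {L₁ L : List A} {u v : A} (h : Cs L u v) : Cs (L₁ ++ L) u v := by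
  obtain ⟨l₁, l₂, rfl⟩ := h
  exact ⟨L₁ ++ l₁, l₂, by simp⟩

theorem cs_reverse {L : List A} {u v : A} (h : Cs L.reverse u v) : Cs L v u := by
  obtain ⟨l₁, l₂, h⟩ := h
  refine ⟨l₂.reverse, l₁.reverse, ?_⟩
  have h1 := congrArg List.reverse h
  rw [List.reverse_reverse] at h1
  rw [h1]
  simp

theorem cs_unique_right {L : List A} (hn : L.Nodup) {x u v : A} (h : Cs L x u) (h' : Cs L x v) :
    u = v := by
  obtain ⟨i, hi, h1, h2⟩ := cs_iff_get.1 h
  obtain ⟨j, hj, h3, h4⟩ := cs_iff_get.1 h'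
  have hij : i = j := (List.Nodup.getElem_inj_iff hn).1 (h1.trans h3.symm)
  subst hij
  exact h2.symm.trans h4

theorem cs_unique_left {L : List A} (hn : L.Nodup) {x u v : A} (h : Cs L u x) (h' : Cs L v x) :
    u = v := by
  obtain ⟨i, hi, h1, h2⟩ := cs_iff_get.1 h
  obtain ⟨j, hj, h3, h4⟩ := cs_iff_get.1 h'
  have hij : i + 1 = j + 1 := (List.Nodup.getElem_inj_iff hn).1 (h2.trans h4.symm)
  have hij' : i = j := by omega
  subst hij'
  exact h1.symm.trans h3

theorem cs_append_last {M : List A} {z u w : A} (h : Cs (M ++ [z]) u w) : u ∈ M := by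
  obtain ⟨l₁, l₂, h⟩ := h
  have h1 := congrArg List.dropLast h
  rw [List.dropLast_concat, List.dropLast_append_of_ne_nil (by simp)] at h1
  rw [h1]
  simp

/-- A consecutive pair off the inner part. -/
theorem cs_ends {M : List A} {a z u w : A} (h : Cs (a :: (M ++ [z])) u w) (hu : u ∉ M)
    (hw : w ∉ M) : M = [] ∧ u = a ∧ w = z := by
  rcases cs_cons.1 h with ⟨h1, l, h2⟩ | h1
  · cases M with
    | nil =>
      rw [List.nil_append, List.cons.injEq] at h2
      exact ⟨rfl, h1, h2.1.symm⟩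
    | cons m M =>
      rw [List.cons_append, List.cons.injEq] at h2
      exact absurd (h2.1 ▸ List.mem_cons_self) hw
  · exact absurd (cs_append_last h1) hu

end lists

section

variable {V : Type} [Fintype V] [DecidableEq V] {G : SimpleGraph V} [DecidableRel G.Adj]
  {R : Rot G} {I : V → Prop} {P : List (V × List V × V)}

/-- The third edge at an inner vertex of a path. -/
theorem inner_third (hcub : ∀ v, G.degree v = 3) (hd : VD G I P) {x : V} (hx : Inn P x) :
    ∃ e0 : G.Dart, e0.fst = x ∧ Del G I P e0.fst e0.snd := by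
  classical
  obtain ⟨p, hp, hxp⟩ := hx
  by_contra hcon
  push Not at hcon
  have h1 : ∀ w, G.Adj x w → OnP p x w := by
    intro w hw
    by_contra h2
    refine hcon ⟨(x, w), hw⟩ rfl ⟨hw, Or.inl (hd.int p hp x hxp), fun q hq h3 => ?_⟩
    have h4 : x ∈ full q := by
      rcases h3 with h3 | h3
      · exact h3.mem.1
      · exact h3.mem.2
    have h5 := hd.uniq_inner hp hq hxp h4
    subst h5
    exact h2 h3
  have hn := (hd.chain p hp).2
  have h2 : G.neighborFinset x ⊆ (G.neighborFinset x).filter (fun w => Cs (full p) x w) ∪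
      (G.neighborFinset x).filter (fun w => Cs (full p) w x) := by
    intro w hw
    have h3 : G.Adj x w := (G.mem_neighborFinset x w).1 hw
    rcases h1 w h3 with h4 | h4
    · exact Finset.mem_union_left _ (Finset.mem_filter.2 ⟨hw, h4⟩)
    · exact Finset.mem_union_right _ (Finset.mem_filter.2 ⟨hw, h4⟩)
  have h3 := (Finset.card_le_card h2).trans (Finset.card_union_le _ _)
  have h4 : ((G.neighborFinset x).filter (fun w => Cs (full p) x w)).card ≤ 1 :=
    Finset.card_le_one.2 fun u hu v hv =>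
      cs_unique_right hn (Finset.mem_filter.1 hu).2 (Finset.mem_filter.1 hv).2
  have h5 : ((G.neighborFinset x).filter (fun w => Cs (full p) w x)).card ≤ 1 :=
    Finset.card_le_one.2 fun u hu v hv =>
      cs_unique_left hn (Finset.mem_filter.1 hu).2 (Finset.mem_filter.1 hv).2
  rw [G.card_neighborFinset_eq_degree, hcub] at h3
  omega

/-- The relation of the paths. -/
def EP (P : List (V × List V × V)) (u v : V) : Prop := ∃ p ∈ P, OnP p u v

/-- The ends of a path are not inner vertices. -/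
theorem end_not_inn (hd : VD G I P) {p : V × List V × V} (hp : p ∈ P) {x : V}
    (hx : x = p.1 ∨ x = p.2.2) : ¬ Inn P x := by
  rintro ⟨q, hq, hxq⟩
  have h1 : x ∈ full p := by
    unfold Uni91.full
    rcases hx with rfl | rfl <;> simp
  have h2 := hd.uniq_inner hq hp hxq h1
  subst h2
  have hn := (hd.chain _ hp).2
  unfold Uni91.full at hn
  rw [List.nodup_cons, List.nodup_append] at hn
  rcases hx with rfl | rfl
  · exact hn.1 (List.mem_append_left _ hxq)
  · exact hn.2.2.2 _ hxq _ (by simp) rfl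

/-- The walk to the end of a path. -/
theorem to_end (hcub : ∀ v, G.degree v = 3) (hd : VD G I P) {T : Type} {κ : R.Face → T}
    (hdel : ∀ d : G.Dart, Del G I P d.fst d.snd → κ (R.face d) = κ (R.face d.symm))
    {C : Set V} (hC : ∀ d : G.Dart, Cr R κ d → (d.fst ∈ C ↔ d.snd ∈ C))
    {M : List V} {a z : V} (hcs : ∀ u v, Cs (a :: (M ++ [z])) u v → G.Adj u v ∧ EP P u v)
    (hnd : (a :: (M ++ [z])).Nodup) (hin : ∀ x ∈ M, Inn P x) :
    ∃ (b : V) (hab : G.Adj a b) (y : V) (hyz : G.Adj y z), EP P a b ∧ (∃ l, M ++ [z] = b :: l) ∧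
      κ (R.face ⟨(y, z), hyz⟩) = κ (R.face ⟨(a, b), hab⟩) ∧
      κ (R.face ⟨(z, y), hyz.symm⟩) = κ (R.face ⟨(b, a), hab.symm⟩) ∧
      (Cr R κ ⟨(a, b), hab⟩ → (a ∈ C ↔ z ∈ C)) := by
  refine path_end hcub (EP P) (fun u v h => ?_) C hC M a z (chain_of_cs hcs) hnd fun x hx => ?_
  · obtain ⟨p, hp, h1⟩ := h
    exact ⟨p, hp, h1.symm⟩
  · obtain ⟨e0, h1, h2⟩ := inner_third hcub hd (hin x hx)
    refine ⟨e0, h1, hdel e0 h2, ?_⟩
    rintro ⟨p, hp, h3⟩
    exact h2.2.2 p hp h3

theorem cs_full (hd : VD G I P) {p : V × List V × V} (hp : p ∈ P) {u v : V}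
    (h : Cs (full p) u v) : G.Adj u v ∧ EP P u v :=
  ⟨chain_cs (hd.chain p hp).1 h, p, hp, Or.inl h⟩

theorem cs_full' (hd : VD G I P) {p : V × List V × V} (hp : p ∈ P) {u v : V}
    (h : Cs (full p) v u) : G.Adj u v ∧ EP P u v :=
  ⟨(chain_cs (hd.chain p hp).1 h).symm, p, hp, Or.inr h⟩

/-- **The neighbours in the new graph** of a vertex with three crossing edges. -/
theorem nbr_newG (hcub : ∀ v, G.degree v = 3) (hd : VD G I P) {T : Type} {κ : R.Face → T}
    (hdel : ∀ d : G.Dart, Del G I P d.fst d.snd → κ (R.face d) = κ (R.face d.symm))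
    {C : Set V} (hC : ∀ d : G.Dart, Cr R κ d → (d.fst ∈ C ↔ d.snd ∈ C)) {u w : V} (hu : u ∈ C)
    (hall : ∀ d : G.Dart, d.fst = u → Cr R κ d) (h : (newG G I (ends P)).Adj u w) :
    w ∈ C ∧ ¬ Inn P w := by
  rcases h with ⟨h1, h2, h3⟩ | ⟨hne, h1 | h1⟩
  · refine ⟨(hC ⟨(u, w), h1⟩ (hall _ rfl)).1 hu, ?_⟩
    rintro ⟨p, hp, hw⟩
    exact h3 (hd.int p hp w hw)
  · unfold ends at h1
    rw [List.mem_map] at h1
    obtain ⟨p, hp, h2⟩ := h1
    rw [Prod.mk.injEq] at h2
    obtain ⟨rfl, rfl⟩ := h2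
    refine ⟨?_, end_not_inn hd hp (Or.inr rfl)⟩
    obtain ⟨b, hab, y, hyz, h3, h4, h5, h6, h7⟩ := to_end (M := p.2.1) (a := p.1)
      (z := p.2.2) hcub hd hdel hC (fun u v huv => cs_full hd hp huv) (hd.chain p hp).2
      fun x hx => ⟨p, hp, hx⟩
    exact (h7 (hall _ rfl)).1 hu
  · unfold ends at h1
    rw [List.mem_map] at h1
    obtain ⟨p, hp, h2⟩ := h1
    rw [Prod.mk.injEq] at h2
    obtain ⟨rfl, rfl⟩ := h2
    refine ⟨?_, end_not_inn hd hp (Or.inl rfl)⟩
    have hrev : p.2.2 :: (p.2.1.reverse ++ [p.1]) = (full p).reverse := by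
      unfold Uni91.full
      simp
    obtain ⟨b, hab, y, hyz, h3, h4, h5, h6, h7⟩ := to_end (M := p.2.1.reverse)
      (a := p.2.2) (z := p.1) hcub hd hdel hC (fun u v huv => by
        rw [hrev] at huv
        exact cs_full' hd hp (cs_reverse huv)) (by
        rw [hrev, List.nodup_reverse]
        exact (hd.chain p hp).2)
      fun x hx => ⟨p, hp, List.mem_reverse.1 hx⟩
    exact (h7 (hall _ rfl)).1 hu

/-- **Edges of the old graph which stay.** -/
theorem link {u w : V} (huw : G.Adj u w) (hf : ¬ Del G I P u w)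
    (hu : ¬ Inn P u) (hw : ¬ Inn P w) : (newG G I (ends P)).Adj u w := by
  by_cases hI : I u ∨ I w
  · have h1 : ∃ p ∈ P, OnP p u w := by
      by_contra hcon
      push Not at hcon
      exact hf ⟨huw, hI, hcon⟩
    obtain ⟨p, hp, h2⟩ := h1
    refine Or.inr ⟨huw.ne, ?_⟩
    unfold ends
    rw [List.mem_map, List.mem_map]
    rcases h2 with h2 | h2
    · obtain ⟨-, h3, h4⟩ := cs_ends h2 (fun h => hu ⟨p, hp, h⟩) (fun h => hw ⟨p, hp, h⟩)
      exact Or.inl ⟨p, hp, by rw [h3, h4]⟩
    · obtain ⟨-, h3, h4⟩ := cs_ends h2 (fun h => hw ⟨p, hp, h⟩) (fun h => hu ⟨p, hp, h⟩)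
      exact Or.inr ⟨p, hp, by rw [h3, h4]⟩
  · push Not at hI
    exact Or.inl ⟨huw, hI.1, hI.2⟩

end

end Pool.Agent.Uni392
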