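import Mathlib
import Pool.Agent.Work.MP_392c8e_co_uni.Growth
import Pool.Agent.Work.MP_392c8e_co_uni.Fam

/-!
# One edge deleted, one end suppressed

`x` has the neighbours `p`, `q`, `y`: the vertex `x` is isolated and `p`, `q` are joined.
-/

set_option autoImplicit false
set_option linter.unusedSectionVars false

namespace Pool.Agent.Spot

open Finset Pool.Agent.Sub392
open Pool.Agent.Uni392 (Del Inn StrictN)
open Pool.Agent.Uni91 (VD OnP Cs ends full)
open Pool.Agent.T1Red (newG Deg3 pl_newG)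
open Pool.Agent.T392
open Pool.Agent.Red (Pl)


variable {V : Type} {G : SimpleGraph V}

/-- The situation. -/
structure At (G : SimpleGraph V) (x p q y : V) : Prop where
  hp : G.Adj x p
  hq : G.Adj x q
  hy : G.Adj x y
  hpq : p ≠ q
  hpy : p ≠ y
  hqy : q ≠ y
  only : ∀ z, G.Adj p z → G.Adj q z → z = x

/-- The isolated vertex. -/
def I0 (x : V) : V → Prop := fun v => v = x

/-- The path. -/
def P0 (x p q : V) : List (V × List V × V) := [(p, [x], q)]

theorem onP_one {x p q u v : V} : OnP (p, [x], q) u v ↔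
    (u = p ∧ v = x) ∨ (u = x ∧ v = q) ∨ (v = p ∧ u = x) ∨ (v = x ∧ u = q) := by
  have h1 : ∀ u v : V, Cs (full (p, [x], q)) u v ↔ (u = p ∧ v = x) ∨ (u = x ∧ v = q) := by
    intro u v
    show Cs [p, x, q] u v ↔ _
    rw [Uni91.cs_cons, Uni91.cs_cons]
    have h2 : ¬ Cs [q] u v := by
      rintro ⟨l₁, l₂, h⟩
      have := congrArg List.length h
      simp at this; omega
    simp only [h2, or_false, List.cons.injEq]
    constructor
    · rintro (⟨rfl, l, h3, h4⟩ | ⟨rfl, l, h3, h4⟩)
      · exact Or.inl ⟨rfl, h3.symm⟩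
      · exact Or.inr ⟨rfl, h3.symm⟩
    · rintro (⟨rfl, rfl⟩ | ⟨rfl, rfl⟩)
      · exact Or.inl ⟨rfl, [q], rfl, rfl⟩
      · exact Or.inr ⟨rfl, [], rfl, rfl⟩
  unfold OnP
  rw [h1, h1]
  tauto

variable {x p q y : V}

/-- **The data of the surgery.** -/
theorem vd (h : At G x p q y) : VD G (I0 x) (P0 x p q) where
  chain := by
    intro r hr
    rw [P0, List.mem_singleton] at hr
    subst hr
    refine ⟨?_, ?_⟩
    · show List.IsChain G.Adj [p, x, q]
      rw [List.isChain_cons_cons, List.isChain_cons_cons]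
      exact ⟨h.hp.symm, h.hq, List.IsChain.singleton _⟩
    · show [p, x, q].Nodup
      have h1 := h.hp.ne
      have h2 := h.hq.ne
      have h3 := h.hpq
      simp only [List.nodup_cons, List.mem_cons, List.not_mem_nil, or_false, not_or,
        not_false_eq_true, List.nodup_nil, and_true]
      exact ⟨⟨h1.symm, h3⟩, h2⟩
  disj := List.pairwise_singleton _ _
  int := by
    intro r hr z hz
    rw [P0, List.mem_singleton] at hr
    subst hr
    rw [List.mem_singleton] at hz
    exact hz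
  edge := by
    intro r hr u v huv
    rw [P0, List.mem_singleton] at hr
    subst hr
    rw [onP_one] at huv
    unfold I0
    tauto
  edisj := List.pairwise_singleton _ _

theorem mem_ends {u v : V} : (u, v) ∈ ends (P0 x p q) ↔ u = p ∧ v = q := by
  unfold ends P0
  rw [List.map_cons, List.map_nil, List.mem_singleton, Prod.mk.injEq]

theorem adj_iff {u v : V} (h : At G x p q y) : (newG G (I0 x) (ends (P0 x p q))).Adj u v ↔
    (G.Adj u v ∧ u ≠ x ∧ v ≠ x) ∨ (u = p ∧ v = q) ∨ (v = p ∧ u = q) := by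
  constructor
  · rintro (h1 | ⟨h1, h2 | h2⟩)
    · exact Or.inl h1
    · exact Or.inr (Or.inl (mem_ends.1 h2))
    · exact Or.inr (Or.inr (mem_ends.1 h2))
  · rintro (h1 | ⟨rfl, rfl⟩ | ⟨rfl, rfl⟩)
    · exact Or.inl h1
    · exact Or.inr ⟨h.hpq, Or.inl (mem_ends.2 ⟨rfl, rfl⟩)⟩
    · exact Or.inr ⟨h.hpq.symm, Or.inr (mem_ends.2 ⟨rfl, rfl⟩)⟩

theorem pl [Fintype V] [DecidableEq V] (h : At G x p q y) (hpl : Pl G) : Pl (newG G (I0 x) (ends (P0 x p q))) := by
  have hd := vd h
  refine pl_newG hpl _ _ (P0 x p q) hd.chain hd.disj hd.int fun e he => ?_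
  unfold ends at he
  obtain ⟨q', hq', h1⟩ := List.mem_map.1 he
  exact ⟨q', hq', Or.inl ⟨by rw [← h1], by rw [← h1]⟩⟩

/-- The isolated vertex is isolated. -/
theorem not_adj (h : At G x p q y) {z : V} :
    ¬ (newG G (I0 x) (ends (P0 x p q))).Adj x z := by
  rw [adj_iff h]
  rintro (⟨-, h1, -⟩ | ⟨h1, -⟩ | ⟨-, h1⟩)
  · exact h1 rfl
  · exact h.hp.ne h1
  · exact h.hq.ne h1

theorem cliqueFree (h : At G x p q y) (ht : G.CliqueFree 3) :
    (newG G (I0 x) (ends (P0 x p q))).CliqueFree 3 := by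
  classical
  set H := newG G (I0 x) (ends (P0 x p q)) with hH
  -- a triangle with the edge `p q`
  have key : ∀ z, H.Adj p z → H.Adj q z → False := by
    intro z h1 h2
    have hzx : z ≠ x := fun h3 => not_adj h (h3 ▸ h1.symm)
    have h3 : G.Adj p z := by
      rcases (adj_iff h).1 h1 with h3 | ⟨-, h3⟩ | ⟨h3, h4⟩
      · exact h3.1
      · exact absurd (h3 ▸ h2) (H.loopless.irrefl _)
      · exact absurd h4 h.hpq
    have h4 : G.Adj q z := by
      rcases (adj_iff h).1 h2 with h4 | ⟨h4, -⟩ | ⟨h4, -⟩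
      · exact h4.1
      · exact absurd h4 h.hpq.symm
      · exact absurd (h4 ▸ h1) (H.loopless.irrefl _)
    exact hzx (h.only z h3 h4)
  intro s hs
  rw [SimpleGraph.is3Clique_iff] at hs
  obtain ⟨a, b, c, hab, hac, hbc, rfl⟩ := hs
  have cases3 : ∀ u v w, H.Adj u v → H.Adj u w → H.Adj v w → G.Adj u v := by
    intro u v w h1 h2 h3
    rcases (adj_iff h).1 h1 with h4 | ⟨rfl, rfl⟩ | ⟨rfl, rfl⟩
    · exact h4.1
    · exact (key w h2 h3).elim
    · exact (key w h3 h2).elim
  refine ht {a, b, c} ?_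
  rw [SimpleGraph.is3Clique_iff]
  exact ⟨a, b, c, cases3 a b c hab hac hbc, cases3 a c b hac hab hbc.symm,
    cases3 b c a hbc hab.symm hac.symm, rfl⟩

theorem deg3 (h : At G x p q y) (hd : Deg3 G) : Deg3 (newG G (I0 x) (ends (P0 x p q))) := by
  classical
  intro v A hA
  by_cases hv : v = p ∨ v = q
  · -- the neighbour at the other end takes the place of `x`
    set o : V := if v = p then q else p with ho
    have h1 : ∀ w ∈ A, (G.Adj v w ∧ w ≠ x) ∨ w = o := by
      intro w hw
      rcases (adj_iff h).1 (hA w hw) with h2 | ⟨h2, h3⟩ | ⟨h2, h3⟩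
      · exact Or.inl ⟨h2.1, h2.2.2⟩
      · exact Or.inr (by rw [ho, if_pos h2, h3])
      · right
        rw [ho, if_neg (fun h4 => h.hpq (h4.symm.trans h3)), h2]
    have hvx : G.Adj v x := by
      rcases hv with rfl | rfl
      · exact h.hp.symm
      · exact h.hq.symm
    have h2 : #(insert x (A.erase o)) ≤ 3 := by
      refine hd v _ fun w hw => ?_
      rcases mem_insert.1 hw with rfl | hw
      · exact hvx
      · obtain ⟨h3, h4⟩ := mem_erase.1 hw
        rcases h1 w h4 with h5 | h5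
        · exact h5.1
        · exact absurd h5 h3
    have h3 : x ∉ A.erase o := by
      intro h4
      have h5 := hA x (mem_of_mem_erase h4)
      exact not_adj h h5.symm
    rw [card_insert_of_notMem h3] at h2
    have h4 := pred_card_le_card_erase (s := A) (a := o)
    omega
  · push Not at hv
    refine hd v A fun w hw => ?_
    rcases (adj_iff h).1 (hA w hw) with h2 | ⟨h2, -⟩ | ⟨-, h2⟩
    · exact h2.1
    · exact absurd h2 hv.1
    · exact absurd h2 hv.2

/-- The third edge of `x` is deleted. -/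
theorem del (h : At G x p q y) : Del G (I0 x) (P0 x p q) x y := by
  refine ⟨h.hy, Or.inl rfl, fun r hr h1 => ?_⟩
  rw [P0, List.mem_singleton] at hr
  subst hr
  rw [onP_one] at h1
  rcases h1 with ⟨h1, -⟩ | ⟨-, h1⟩ | ⟨h1, -⟩ | ⟨h1, -⟩
  · exact h.hp.ne h1
  · exact h.hqy h1.symm
  · exact h.hpy h1.symm
  · exact h.hy.ne h1.symm

end Pool.Agent.Spot
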