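import Mathlib
import Pool.Agent.Work.MP_392c8e_co_uni.ColN

/-!
# Colourings of a graph with one subdivided edge, without changing the vertices
-/

namespace Pool.Agent.CutN

/-- The graph `M` with the edge `v s` subdivided by one vertex has a colouring at level `n`;
`m` is the colour of the new vertex. -/
def SubCol {W : Type*} (n : ℤ) (M : SimpleGraph W) (v s : W) : Prop :=
  ∃ (c : W → ℤ) (m : ℤ), (∀ x y, M.Adj x y → s(x, y) ≠ s(v, s) → Jn n (c y - c x)) ∧
    Jn n (m - c v) ∧ Jn n (c s - m)

end Pool.Agent.CutN
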