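import Mathlib
import Pool.Agent.Work.MP_392c8e_co_uni.SubCol
import Pool.Agent.Work.MP_392c8e_co_uni.LeafN
import Pool.Agent.Work.MP_392c8e_co_uni.ColBridge
import Pool.Agent.Work.MP_392c8e_co_uni.ChordDef
import Pool.Agent.Work.MP_392c8e_co_uni.SpotA

/-!
# Closures

`SubCol n M v s`: the graph `M` with the edge `v s` subdivided has a colouring at level `n`.
`XCol n M z p q`: the graph `M` without `z` and with the new edge `p q` has one.  The first comes
from the chord graph with one end of the chord suppressed.  Both give vectors of colours which a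
side of a cut accepts, when the other side is contracted to `z`.
-/

set_option autoImplicit false
set_option linter.unusedSectionVars false

namespace Pool.Agent.CutN

open Pool.Agent.Red (side side_le)
open Pool.Agent.Chord392
open Pool.Agent.Spot (I0 P0 At)
open Pool.Agent.T1Red (newG)
open Pool.Agent.Uni91 (ends)
open Pool.Agent.Uni392 (StrictN)

variable {V W : Type} {G : SimpleGraph V} {M : SimpleGraph W} {n : ℤ}

/-- `M` without `z` and with the new edge `p q` has a colouring at level `n`. -/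
def XCol (n : ℤ) (M : SimpleGraph W) (z p q : W) : Prop :=
  ∃ c : W → ℤ, (∀ x y, M.Adj x y → x ≠ z → y ≠ z → Jn n (c y - c x)) ∧ Jn n (c q - c p)

/-- **The chord hides the subdivided edge.** -/
theorem subCol_of_chord {v s p q : W} (hpq : p ≠ q)
    (h : ColN n (newG (chordG M v s p q) (I0 (.inr 1)) (ends (P0 (.inr 1) (.inl p) (.inl q))))) :
    SubCol n M v s := by
  obtain ⟨c, hc⟩ := h
  have hnew : Jn n (c (.inl q) - c (.inl p)) := hc _ _ (Or.inr ⟨fun h => hpq (by
    injection h), Or.inl (by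
      unfold ends P0
      rw [List.map_cons, List.map_nil, List.mem_singleton])⟩)
  have hl : ∀ x : W, ¬ I0 (Sum.inr (1 : Fin 2)) (Sum.inl x) := fun x h => Sum.inl_ne_inr h
  have hm : ¬ I0 (Sum.inr (1 : Fin 2)) (Sum.inr (0 : Fin 2) : W ⊕ Fin 2) := fun h =>
    absurd (Sum.inr_injective h) (by decide)
  refine ⟨fun x => c (.inl x), c (.inr 0), fun x y hxy hne => ?_, ?_, ?_⟩
  · by_cases h1 : s(x, y) = s(p, q)
    · rcases Sym2.eq_iff.1 h1 with ⟨rfl, rfl⟩ | ⟨rfl, rfl⟩
      · exact hnew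
      · have := hnew.neg
        rwa [neg_sub] at this
    · exact hc _ _ (Or.inl ⟨⟨hxy, hne, h1⟩, hl x, hl y⟩)
  · exact hc _ _ (Or.inl ⟨chordG_lm.2 (Or.inl rfl), hl v, hm⟩)
  · exact hc _ _ (Or.inl ⟨chordG_ml.2 (Or.inr rfl), hm, hl s⟩)

/-- The situation of `Spot` in the chord graph. -/
theorem at_chord (ht : M.CliqueFree 3) {v s p q : W} (hpq : M.Adj p q) (hpv : p ≠ v)
    (hps : p ≠ s) :
    At (chordG M v s p q) (.inr 1) (.inl p) (.inl q) (.inr 0) where
  hp := chordG_xl.2 (Or.inl rfl)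
  hq := chordG_xl.2 (Or.inr rfl)
  hy := chordG_xm
  hpq := fun h => hpq.ne (by injection h)
  hpy := Sum.inl_ne_inr
  hqy := Sum.inl_ne_inr
  only := by
    classical
    rintro (w | i) h1 h2
    · exfalso
      refine ht {p, q, w} ?_
      rw [SimpleGraph.is3Clique_iff]
      exact ⟨p, q, w, hpq, h1.1, h2.1, rfl⟩
    · rcases h1 with ⟨-, h1 | h1⟩ | ⟨rfl, -⟩
      · exact absurd h1 hpv
      · exact absurd h1 hps
      · rfl

/-- The closure `X` from `Spot`. -/
theorem xCol_of_spot {z p q : W} (hpq : p ≠ q)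
    (h : ColN n (newG M (I0 z) (ends (P0 z p q)))) : XCol n M z p q := by
  obtain ⟨c, hc⟩ := h
  refine ⟨c, fun x y hxy hx hy => hc _ _ (Or.inl ⟨hxy, hx, hy⟩), hc _ _ (Or.inr ⟨hpq, Or.inl ?_⟩)⟩
  unfold ends P0
  rw [List.map_cons, List.map_nil, List.mem_singleton]

/-! ### The vectors of colours of a side -/

/-- The values at the ends of an edge have different colours, wherever the circle is cut. -/
theorem colour_ne (hn : 0 < n) {x u : ℤ} (h : Jn n (x - u)) (p : ℤ) :
    (((x - p) / n : ℤ) : ZMod 3) ≠ (((u - p) / n : ℤ) : ZMod 3) := by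
  have h1 : IsCol n (⊤ : SimpleGraph Bool) fun b => if b then x else u := by
    intro a b hab
    cases a <;> cases b
    · exact absurd rfl hab.ne
    · exact h
    · show Jn n (u - x)
      have := h.neg
      rwa [neg_sub] at this
    · exact absurd rfl hab.ne
  exact (h1.strZ hn p).ne (u := true) (v := false) (by simp)

section

variable {X : V → Prop} {a : Fin 3 → V} {y : Fin 3 → ZMod 3}

/-- **Claw**, with values. -/
theorem acc_clawV (hn : 0 < n) {q : V → ℤ} (h : IsCol n (side G X) q) {z : ℤ}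
    (hz : ∀ i, Jn n (q (a i) - z)) (x : ZMod 3) : Acc n G X a fun _ => x := by
  refine ((acc_of_isCol hn h le_rfl z (a := a)).addc (x - 1)).congr fun i => ?_
  rw [colour_one hn (hz i)]
  ring

/-- **Claw with a subdivided edge**, with values. -/
theorem acc_VV (hn : 0 < n) {q : V → ℤ} (h : IsCol n (side G X) q) {z u : ℤ}
    {i j k : Fin 3} (hij : i ≠ j) (hik : i ≠ k) (hjk : j ≠ k)
    (hj : Jn n (q (a j) - z)) (hk : Jn n (q (a k) - z)) (hu : Jn n (u - z))
    (hi : Jn n (q (a i) - u)) (h1 : y i ≠ y j) (h2 : y j = y k) : Acc n G X a y := by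
  have hall := fin3_all hij hik hjk
  have hR := acc_of_isCol hn h le_rfl z (a := a)
  have ej := colour_one hn hj
  have ek := colour_one hn hk
  have eu := colour_one hn hu
  have ei := colour_ne hn hi z
  rw [eu] at ei
  have e1 : ∀ p x r : ZMod 3, 1 ≠ p → x ≠ r →
      (x = p + (r - 1) ∧ r = 1 + (r - 1)) ∨ (x = - p + (r + 1) ∧ r = - 1 + (r + 1)) := by decide
  rcases e1 _ (y i) (y j) ei.symm h1 with ⟨e2, e3⟩ | ⟨e2, e3⟩
  · refine (hR.addc (y j - 1)).congr fun l => ?_
    rcases hall l with rfl | rfl | rfl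
    · exact e2
    · rw [ej]
      exact e3
    · rw [ek, ← h2]
      exact e3
  · refine (hR.refl.addc (y j + 1)).congr fun l => ?_
    rcases hall l with rfl | rfl | rfl
    · exact e2
    · rw [ej]
      exact e3
    · rw [ek, ← h2]
      exact e3

/-- The side `X` sits in `M`, with the ends joined to `z`. -/
structure InM (G : SimpleGraph V) (X : V → Prop) (a : Fin 3 → V) (M : SimpleGraph W) (e : V → W)
    (z : W) : Prop where
  hom : ∀ u v, X u → X v → G.Adj u v → M.Adj (e u) (e v)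
  nz : ∀ u, X u → e u ≠ z
  hX : ∀ i, X (a i)
  adj : ∀ i, M.Adj z (e (a i))
  inj : ∀ i j, i ≠ j → e (a i) ≠ e (a j)

variable {e : V → W} {z : W}

/-- **The closures give all vectors with two equal entries.** -/
theorem acc_two_of (hn : 0 < n) (hM : InM G X a M e z) (h0 : ColN n M)
    (h1 : ∀ i, SubCol n M z (e (a i))) (y : Fin 3 → ZMod 3) (hy : ∃ i j, i ≠ j ∧ y i = y j) :
    Acc n G X a y := by
  rcases vec_cases y with h | ⟨i, j, k, hij, hik, hjk, g1, g2⟩ | h
  · obtain ⟨c, hc⟩ := h0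
    refine (acc_clawV hn (q := fun v => c (e v)) (z := c z) (fun u v huv => ?_)
      (fun i => hc _ _ (hM.adj i)) (y 0)).congr h
    exact hc _ _ (hM.hom u v huv.2.1 huv.2.2 huv.1)
  · obtain ⟨c, m, c1, c2, c3⟩ := h1 i
    have key : ∀ l, l ≠ i → Jn n (c (e (a l)) - c z) := fun l hl => c1 _ _ (hM.adj l) fun h5 => by
      rcases Sym2.eq_iff.1 h5 with ⟨-, h6⟩ | ⟨h6, -⟩
      · exact hM.inj _ _ hl h6
      · exact (hM.adj i).ne h6
    refine acc_VV hn (q := fun v => c (e v)) (z := c z) (u := m) (fun u v huv => ?_) hij hik hjk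
      (key j hij.symm) (key k hik.symm) c2 c3 g1 g2
    refine c1 _ _ (hM.hom u v huv.2.1 huv.2.2 huv.1) fun h5 => ?_
    rcases Sym2.eq_iff.1 h5 with ⟨h6, -⟩ | ⟨-, h6⟩
    · exact hM.nz u huv.2.1 h6
    · exact hM.nz v huv.2.2 h6
  · obtain ⟨i, j, hij, e⟩ := hy
    exact absurd e (h i j hij)

/-- **The closures give all vectors.** -/
theorem acc_all_of (hn : 0 < n) (hM : InM G X a M e z) (ia : Function.Injective a) (h0 : ColN n M)
    (h1 : ∀ i, SubCol n M z (e (a i))) {i j : Fin 3} (hij : i ≠ j)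
    (h2 : XCol n M z (e (a i)) (e (a j))) (hne : e (a i) ≠ e (a j)) (y : Fin 3 → ZMod 3) :
    Acc (2 * n) G X a y := by
  by_cases hy : ∃ i j, i ≠ j ∧ y i = y j
  · exact (acc_two_of hn hM h0 h1 y hy).mono (by linarith)
  push Not at hy
  obtain ⟨k, hik, hjk⟩ : ∃ k : Fin 3, i ≠ k ∧ j ≠ k := by
    clear h2 hne
    revert hij
    revert i j
    decide
  obtain ⟨c, c1, c2⟩ := h2
  have haij : a i ≠ a j := fun h => hne (congrArg e h)
  -- the side with the new edge
  let H : SimpleGraph V := {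
    Adj := fun u v => (side G X).Adj u v ∨ (u = a i ∧ v = a j) ∨ (u = a j ∧ v = a i)
    symm := ⟨fun u v h => by
      rcases h with h | ⟨h1, h2⟩ | ⟨h1, h2⟩
      · exact Or.inl h.symm
      · exact Or.inr (Or.inr ⟨h2, h1⟩)
      · exact Or.inr (Or.inl ⟨h2, h1⟩)⟩
    loopless := ⟨fun u h => by
      rcases h with h | ⟨h1, h2⟩ | ⟨h1, h2⟩
      · exact h.ne rfl
      · exact haij (h1.symm.trans h2)
      · exact haij (h2.symm.trans h1)⟩ }
  have hc : IsCol n H fun v => c (e v) := by
    rintro u v (h | ⟨rfl, rfl⟩ | ⟨rfl, rfl⟩)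
    · exact c1 _ _ (hM.hom u v h.2.1 h.2.2 h.1) (hM.nz u h.2.1) (hM.nz v h.2.2)
    · exact c2
    · have := c2.neg
      rwa [neg_sub] at this
  exact acc_X hn hc (fun u v h => Or.inl h) hij hik hjk ia (Or.inr (Or.inl ⟨rfl, rfl⟩))
    (hy i j hij) (hy i k hik) (hy j k hjk)

end

end Pool.Agent.CutN
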