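import Mathlib
import Pool.Agent.Work.MP_392c8e_co_uni.Side4
import Pool.Agent.Work.MP_392c8e_co_uni.ColN

/-!
# The contraction of one side of a cut with three edges, as a graph of its own
-/

namespace Pool.Agent.CutN

open Pool.Agent.Red

set_option linter.unusedSectionVars false

variable {V : Type} [Fintype V] [DecidableEq V] {G : SimpleGraph V} {X : V → Prop}
  {a b : Fin 3 → V} {z : V}

/-- The edges between two sets. -/
def between {W : Type*} (G : SimpleGraph W) (P Q : Set W) : Set (W × W) :=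
  {p | p.1 ∈ P ∧ p.2 ∈ Q ∧ G.Adj p.1 p.2}

theorem leave_eq (A : Set V) : leave G A = between G A Aᶜ := rfl

/-- There is no partition into four nonempty parts with exactly one edge between any two. -/
def NoK4 {W : Type*} (G : SimpleGraph W) : Prop :=
  ¬ ∃ f : W → Fin 4, Function.Surjective f ∧ ∀ i j, i ≠ j →
    (between G (f ⁻¹' {i}) (f ⁻¹' {j})).ncard = 1

/-- Every set of vertices which is neither empty nor everything has at least three leaving
edges. -/
def Cut3C {W : Type*} (G : SimpleGraph W) : Prop :=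
  ∀ A : Set W, A.Nonempty → A ≠ Set.univ → 3 ≤ (between G A Aᶜ).ncard

theorem cut3C_iff : Cut3C G ↔ Cut3 G := Iff.rfl

/-- All degrees are three. -/
def Cubic {W : Type*} (G : SimpleGraph W) : Prop := ∀ v, (G.neighborSet v).ncard = 3

/-- The side `X` with the other side contracted to the vertex `z`. -/
def con (hc : CutK G X a b) (hz : ¬ X z) : SimpleGraph {v // X v ∨ v = z} :=
  (starK G X a z hc.hX hz).comap Subtype.val

/-- The projection. -/
noncomputable def proj (X : V → Prop) (z x : V) : {v // X v ∨ v = z} :=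
  open Classical in if h : X x then ⟨x, Or.inl h⟩ else ⟨z, Or.inr rfl⟩

theorem proj_in {x : V} (h : X x) : proj X z x = ⟨x, Or.inl h⟩ := by
  unfold proj
  rw [dif_pos h]

theorem proj_out {x : V} (h : ¬ X x) : proj X z x = ⟨z, Or.inr rfl⟩ := by
  unfold proj
  rw [dif_neg h]

theorem proj_val (hz : ¬ X z) (v : {v // X v ∨ v = z}) : proj X z v.1 = v := by
  rcases v with ⟨v, h | h⟩
  · exact proj_in h
  · subst h
    exact proj_out hz

theorem proj_surj (hz : ¬ X z) : Function.Surjective (proj X z) := fun v => ⟨v.1, proj_val hz v⟩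

/-- **The edges of the contraction.** -/
theorem between_con (hc : CutK G X a b) (hz : ¬ X z) (P Q : Set {v // X v ∨ v = z})
    (hPQ : Disjoint P Q) :
    (between (con hc hz) P Q).ncard = (between G (proj X z ⁻¹' P) (proj X z ⁻¹' Q)).ncard := by
  symm
  refine Set.ncard_congr (fun p _ => (proj X z p.1, proj X z p.2)) ?_ ?_ ?_
  · rintro ⟨u, v⟩ ⟨h1, h2, h3⟩
    refine ⟨h1, h2, ?_⟩
    by_cases hu : X u
    · by_cases hv : X v
      · rw [proj_in hu, proj_in hv]
        exact Or.inl ⟨h3, hu, hv⟩
      · obtain ⟨i, rfl, rfl⟩ := hc.cut u v hu hv h3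
        rw [proj_in hu, proj_out hv]
        exact Or.inr ⟨i, Or.inl ⟨rfl, rfl⟩⟩
    · by_cases hv : X v
      · obtain ⟨i, rfl, rfl⟩ := hc.cut v u hv hu h3.symm
        rw [proj_in hv, proj_out hu]
        exact Or.inr ⟨i, Or.inr ⟨rfl, rfl⟩⟩
      · exfalso
        have h1' : proj X z u ∈ P := h1
        have h2' : proj X z v ∈ Q := h2
        rw [proj_out hu] at h1'
        rw [proj_out hv] at h2'
        exact Set.disjoint_left.1 hPQ h1' h2'
  · rintro ⟨u, v⟩ ⟨u', v'⟩ ⟨h1, h2, h3⟩ ⟨h1', h2', h3'⟩ he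
    have e1 : proj X z u = proj X z u' := congrArg Prod.fst he
    have e2 : proj X z v = proj X z v' := congrArg Prod.snd he
    have key : ∀ {x y : V}, X x → proj X z x = proj X z y → x = y := by
      intro x y hx h
      by_cases hy : X y
      · rw [proj_in hx, proj_in hy] at h
        exact congrArg Subtype.val h
      · rw [proj_in hx, proj_out hy] at h
        exact absurd (show x = z from congrArg Subtype.val h) fun h5 => hz (h5 ▸ hx)
    have kout : ∀ {x y : V}, ¬ X x → proj X z x = proj X z y → ¬ X y := by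
      intro x y hx h hy
      exact hx ((key hy h.symm) ▸ hy)
    by_cases hu : X u
    · have hu' := key hu e1
      subst hu'
      by_cases hv : X v
      · have hv' := key hv e2
        subst hv'
        rfl
      · have hv' := kout hv e2
        obtain ⟨i, h5, h6⟩ := hc.cut u v hu hv h3
        obtain ⟨j, h7, h8⟩ := hc.cut u v' hu hv' h3'
        have hij : i = j := hc.ia (h5.symm.trans h7)
        rw [h6, h8, hij]
    · by_cases hv : X v
      · have hv' := key hv e2
        subst hv'
        have hu' := kout hu e1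
        obtain ⟨i, h5, h6⟩ := hc.cut v u hv hu h3.symm
        obtain ⟨j, h7, h8⟩ := hc.cut v u' hv hu' h3'.symm
        have hij : i = j := hc.ia (h5.symm.trans h7)
        rw [h6, h8, hij]
      · exfalso
        have h1'' : proj X z u ∈ P := h1
        have h2'' : proj X z v ∈ Q := h2
        rw [proj_out hu] at h1''
        rw [proj_out hv] at h2''
        exact Set.disjoint_left.1 hPQ h1'' h2''
  · rintro ⟨u, v⟩ ⟨h1, h2, h3⟩
    rcases h3 with ⟨h4, h5, h6⟩ | ⟨i, ⟨h4, h5⟩ | ⟨h4, h5⟩⟩
    · refine ⟨(u.1, v.1), ⟨?_, ?_, h4⟩, ?_⟩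
      · show proj X z u.1 ∈ P
        rw [proj_val hz]
        exact h1
      · show proj X z v.1 ∈ Q
        rw [proj_val hz]
        exact h2
      · show (proj X z u.1, proj X z v.1) = (u, v)
        rw [proj_val hz, proj_val hz]
    · have e1 : proj X z (a i) = u := by
        rw [← h4, proj_val hz]
      have e2 : proj X z (b i) = v := by
        rw [proj_out (hc.hY i)]
        exact Subtype.ext h5.symm
      refine ⟨(a i, b i), ⟨?_, ?_, hc.adj i⟩, ?_⟩
      · show proj X z (a i) ∈ P
        rw [e1]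
        exact h1
      · show proj X z (b i) ∈ Q
        rw [e2]
        exact h2
      · show (proj X z (a i), proj X z (b i)) = (u, v)
        rw [e1, e2]
    · have e1 : proj X z (a i) = v := by
        rw [← h5, proj_val hz]
      have e2 : proj X z (b i) = u := by
        rw [proj_out (hc.hY i)]
        exact Subtype.ext h4.symm
      refine ⟨(b i, a i), ⟨?_, ?_, (hc.adj i).symm⟩, ?_⟩
      · show proj X z (b i) ∈ P
        rw [e2]
        exact h1
      · show proj X z (a i) ∈ Q
        rw [e1]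
        exact h2
      · show (proj X z (b i), proj X z (a i)) = (u, v)
        rw [e1, e2]

/-- The edges leaving a set of the contraction. -/
theorem leave_con (hc : CutK G X a b) (hz : ¬ X z) (B : Set {v // X v ∨ v = z}) :
    (between (con hc hz) B Bᶜ).ncard = (leave G (proj X z ⁻¹' B)).ncard := by
  rw [between_con hc hz B Bᶜ disjoint_compl_right]
  rfl

/-- Every cut with at least three edges. -/
theorem cut3C_con (hc : CutK G X a b) (hz : ¬ X z) (h : Cut3C G) : Cut3C (con hc hz) := by
  intro B h1 h2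
  rw [leave_con]
  refine h _ ?_ fun h3 => h2 ?_
  · obtain ⟨v, hv⟩ := h1
    exact ⟨v.1, by rw [Set.mem_preimage, proj_val hz]; exact hv⟩
  · refine Set.eq_univ_of_forall fun v => ?_
    have h4 : v.1 ∈ proj X z ⁻¹' B := by
      rw [h3]
      exact Set.mem_univ _
    rw [Set.mem_preimage, proj_val hz] at h4
    exact h4

/-- No partition of type `K4`. -/
theorem noK4_con (hc : CutK G X a b) (hz : ¬ X z) (h : NoK4 G) : NoK4 (con hc hz) := by
  rintro ⟨f, h1, h2⟩
  refine h ⟨f ∘ proj X z, h1.comp (proj_surj hz), fun i j hij => ?_⟩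
  rw [← h2 i j hij, between_con hc hz]
  · rfl
  · rw [Set.disjoint_left]
    intro v hv hv'
    exact hij ((show f v = i from hv).symm.trans hv')

theorem between_singleton {W : Type*} [Finite W] (G : SimpleGraph W) (v : W) :
    (between G {v} {v}ᶜ).ncard = (G.neighborSet v).ncard := by
  symm
  refine Set.ncard_congr (fun w _ => (v, w)) ?_ ?_ ?_
  · intro w hw
    have hw' : G.Adj v w := hw
    exact ⟨rfl, fun h => hw'.ne (show w = v from h).symm, hw'⟩
  · intro w w' _ _ h
    exact congrArg Prod.snd h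
  · rintro ⟨u, w⟩ ⟨h1, h2, h3⟩
    have h1' : u = v := h1
    subst h1'
    exact ⟨w, h3, rfl⟩

/-- The contraction is cubic. -/
theorem cubic_con (hc : CutK G X a b) (hz : ¬ X z) (h : Cubic G) : Cubic (con hc hz) := by
  intro v
  rw [← between_singleton, leave_con]
  rcases v with ⟨v, hv | hv⟩
  · have h1 : proj X z ⁻¹' {⟨v, Or.inl hv⟩} = {v} := by
      ext x
      constructor
      · intro hx
        have hx' : proj X z x = ⟨v, Or.inl hv⟩ := hx
        by_cases h2 : X x
        · rw [proj_in h2] at hx'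
          exact congrArg Subtype.val hx'
        · rw [proj_out h2] at hx'
          exact absurd (show z = v from congrArg Subtype.val hx') fun h5 => hz (h5 ▸ hv)
      · intro hx
        have hx' : x = v := hx
        subst hx'
        exact proj_in hv
    rw [h1, leave_singleton]
    exact h v
  · subst hv
    have h1 : proj X v ⁻¹' {⟨v, Or.inr rfl⟩} = {x | X x}ᶜ := by
      ext x
      constructor
      · intro hx hx2
        have hx' : proj X v x = ⟨v, Or.inr rfl⟩ := hx
        have hx3 : X x := hx2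
        rw [proj_in hx3] at hx'
        exact hz ((show x = v from congrArg Subtype.val hx') ▸ hx3)
      · intro hx
        exact proj_out hx
    rw [h1, leave_compl_ncard, hc.ncard_leave]

/-- Without a partition of type `K4` there is no triangle. -/
theorem NoK4.cliqueFree {W : Type*} [Finite W] {G : SimpleGraph W} (h : NoK4 G) (hc : Cubic G) :
    G.CliqueFree 3 := by
  classical
  intro s hs
  rw [SimpleGraph.is3Clique_iff] at hs
  obtain ⟨x, y, w, hxy, hxw, hyw, -⟩ := hs
  -- the third neighbours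
  have third : ∀ {x y w : W}, G.Adj x y → G.Adj x w → y ≠ w →
      ∃ x', x' ≠ y ∧ x' ≠ w ∧ G.Adj x x' ∧ ∀ u, G.Adj x u → u = y ∨ u = w ∨ u = x' := by
    intro x y w h1 h2 h3
    obtain ⟨p, q, r, hpq, hpr, hqr, h4⟩ := Set.ncard_eq_three.1 (hc x)
    have h5 : ∀ u, G.Adj x u ↔ u = p ∨ u = q ∨ u = r := by
      intro u
      have : u ∈ G.neighborSet x ↔ u ∈ ({p, q, r} : Set W) := by rw [h4]
      exact this
    have h1' := (h5 y).1 h1
    have h2' := (h5 w).1 h2
    rcases h1' with rfl | rfl | rfl <;> rcases h2' with rfl | rfl | rfl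
    · exact absurd rfl h3
    · exact ⟨r, hpr.symm, hqr.symm, (h5 r).2 (Or.inr (Or.inr rfl)), fun u hu => (h5 u).1 hu⟩
    · exact ⟨q, hpq.symm, hqr, (h5 q).2 (Or.inr (Or.inl rfl)), fun u hu => by
        have := (h5 u).1 hu
        tauto⟩
    · exact ⟨r, hqr.symm, hpr.symm, (h5 r).2 (Or.inr (Or.inr rfl)), fun u hu => by
        have := (h5 u).1 hu
        tauto⟩
    · exact absurd rfl h3
    · exact ⟨p, hpq, hpr, (h5 p).2 (Or.inl rfl), fun u hu => by
        have := (h5 u).1 hu
        tauto⟩
    · exact ⟨q, hqr, hpq.symm, (h5 q).2 (Or.inr (Or.inl rfl)), fun u hu => by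
        have := (h5 u).1 hu
        tauto⟩
    · exact ⟨p, hpr, hpq, (h5 p).2 (Or.inl rfl), fun u hu => by
        have := (h5 u).1 hu
        tauto⟩
    · exact absurd rfl h3
  obtain ⟨x', hx1, hx2, hx3, hx4⟩ := third hxy hxw hyw.ne
  obtain ⟨y', hy1, hy2, hy3, hy4⟩ := third hxy.symm hyw hxw.ne
  obtain ⟨w', hw1, hw2, hw3, hw4⟩ := third hxw.symm hyw.symm hxy.ne
  set f : W → Fin 4 := fun v => if v = x then 0 else if v = y then 1 else if v = w then 2 else 3
    with hf
  have fx : f x = 0 := by simp [hf]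
  have fy : f y = 1 := by simp [hf, hxy.ne']
  have fw : f w = 2 := by simp [hf, hxw.ne', hyw.ne']
  have f3 : ∀ v, f v = 3 ↔ v ≠ x ∧ v ≠ y ∧ v ≠ w := by
    intro v
    simp only [hf]
    by_cases h1 : v = x
    · simp [h1]
    · by_cases h2 : v = y
      · subst h2
        simp [h1]
      · by_cases h3 : v = w
        · subst h3
          simp [h1, h2]
        · simp [h1, h2, h3]
  have f0 : ∀ v, f v = 0 ↔ v = x := by
    intro v
    simp only [hf]
    by_cases h1 : v = x
    · simp [h1]
    · by_cases h2 : v = y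
      · subst h2
        simp [h1]
      · by_cases h3 : v = w
        · subst h3
          simp [h1, h2]
        · simp [h1, h2, h3]
  have f1 : ∀ v, f v = 1 ↔ v = y := by
    intro v
    simp only [hf]
    by_cases h1 : v = x
    · simp [h1, hxy.ne]
    · by_cases h2 : v = y
      · subst h2
        simp [h1]
      · by_cases h3 : v = w
        · subst h3
          simp [h1, h2]
        · simp [h1, h2, h3]
  have f2 : ∀ v, f v = 2 ↔ v = w := by
    intro v
    simp only [hf]
    by_cases h1 : v = x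
    · simp [h1, hxw.ne]
    · by_cases h2 : v = y
      · subst h2
        simp [h1, hyw.ne]
      · by_cases h3 : v = w
        · subst h3
          simp [h1, h2]
        · simp [h1, h2, h3]
  -- one edge between two parts
  have one : ∀ (i j : Fin 4) (p q : W), f p = i → f q = j → G.Adj p q →
      (∀ u v, f u = i → f v = j → G.Adj u v → u = p ∧ v = q) →
      (between G (f ⁻¹' {i}) (f ⁻¹' {j})).ncard = 1 := by
    intro i j p q h1 h2 h3 h4
    rw [Set.ncard_eq_one]
    refine ⟨(p, q), ?_⟩
    ext ⟨u, v⟩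
    constructor
    · rintro ⟨h5, h6, h7⟩
      obtain ⟨h8, h9⟩ := h4 u v h5 h6 h7
      rw [h8, h9]
      rfl
    · intro h5
      have h6 : u = p := congrArg Prod.fst h5
      have h7 : v = q := congrArg Prod.snd h5
      subst h6 h7
      exact ⟨h1, h2, h3⟩
  have symm1 : ∀ (i j : Fin 4), (between G (f ⁻¹' {i}) (f ⁻¹' {j})).ncard = 1 →
      (between G (f ⁻¹' {j}) (f ⁻¹' {i})).ncard = 1 := by
    intro i j h1
    rw [← h1]
    refine Set.ncard_congr (fun p _ => (p.2, p.1)) ?_ ?_ ?_
    · rintro ⟨u, v⟩ ⟨h2, h3, h4⟩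
      exact ⟨h3, h2, h4.symm⟩
    · rintro ⟨u, v⟩ ⟨u', v'⟩ _ _ h2
      have e1 : v = v' := congrArg Prod.fst h2
      have e2 : u = u' := congrArg Prod.snd h2
      rw [e1, e2]
    · rintro ⟨u, v⟩ ⟨h2, h3, h4⟩
      exact ⟨(v, u), ⟨h3, h2, h4.symm⟩, rfl⟩
  have q01 := one 0 1 x y fx fy hxy fun u v hu hv _ => ⟨(f0 u).1 hu, (f1 v).1 hv⟩
  have q02 := one 0 2 x w fx fw hxw fun u v hu hv _ => ⟨(f0 u).1 hu, (f2 v).1 hv⟩
  have q12 := one 1 2 y w fy fw hyw fun u v hu hv _ => ⟨(f1 u).1 hu, (f2 v).1 hv⟩
  have q03 := one 0 3 x x' fx ((f3 x').2 ⟨hx3.ne', hx1, hx2⟩) hx3 fun u v hu hv huv => by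
    have e1 := (f0 u).1 hu
    subst e1
    obtain ⟨h5, h6, h7⟩ := (f3 v).1 hv
    rcases hx4 v huv with h8 | h8 | h8
    · exact absurd h8 h6
    · exact absurd h8 h7
    · exact ⟨rfl, h8⟩
  have q13 := one 1 3 y y' fy ((f3 y').2 ⟨hy1, hy3.ne', hy2⟩) hy3 fun u v hu hv huv => by
    have e1 := (f1 u).1 hu
    subst e1
    obtain ⟨h5, h6, h7⟩ := (f3 v).1 hv
    rcases hy4 v huv with h8 | h8 | h8
    · exact absurd h8 h5
    · exact absurd h8 h7
    · exact ⟨rfl, h8⟩
  have q23 := one 2 3 w w' fw ((f3 w').2 ⟨hw1, hw2, hw3.ne'⟩) hw3 fun u v hu hv huv => by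
    have e1 := (f2 u).1 hu
    subst e1
    obtain ⟨h5, h6, h7⟩ := (f3 v).1 hv
    rcases hw4 v huv with h8 | h8 | h8
    · exact absurd h8 h5
    · exact absurd h8 h6
    · exact ⟨rfl, h8⟩
  refine h ⟨f, ?_, ?_⟩
  · intro i
    fin_cases i
    · exact ⟨x, fx⟩
    · exact ⟨y, fy⟩
    · exact ⟨w, fw⟩
    · exact ⟨x', (f3 x').2 ⟨hx3.ne', hx1, hx2⟩⟩
  · intro i j hij
    fin_cases i <;> fin_cases j
    · exact absurd rfl hij
    · exact q01
    · exact q02
    · exact q03
    · exact symm1 _ _ q01
    · exact absurd rfl hij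
    · exact q12
    · exact q13
    · exact symm1 _ _ q02
    · exact symm1 _ _ q12
    · exact absurd rfl hij
    · exact q23
    · exact symm1 _ _ q03
    · exact symm1 _ _ q13
    · exact symm1 _ _ q23
    · exact absurd rfl hij

/-- **Minimal sides.**  If `X` is minimal among the sides of nontrivial cuts with three edges, all
cuts of the contraction with at most three edges are trivial. -/
theorem cuts_con (hc : CutK G X a b) (hz : ¬ X z) (h : Cut3C G)
    (hmin : ∀ A : Set V, (leave G A).ncard = 3 → 2 ≤ A.ncard → 2 ≤ Aᶜ.ncard →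
      A ⊆ {v | X v} → A = {v | X v}) (B : Set {v // X v ∨ v = z})
    (hB : (between (con hc hz) B Bᶜ).ncard ≤ 3) : B.ncard ≤ 1 ∨ Bᶜ.ncard ≤ 1 := by
  -- the case that `z` is outside
  have key : ∀ B : Set {v // X v ∨ v = z}, (leave G (proj X z ⁻¹' B)).ncard ≤ 3 →
      (⟨z, Or.inr rfl⟩ : {v // X v ∨ v = z}) ∉ B → 2 ≤ B.ncard → 2 ≤ Bᶜ.ncard → False := by
    intro B h1 h2 h3 h4
    set A := proj X z ⁻¹' B with hA
    have hAX : ∀ x ∈ A, X x := by
      intro x hx
      by_contra h5
      have hx' : proj X z x ∈ B := hx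
      rw [proj_out h5] at hx'
      exact h2 hx'
    have hAB : A = Subtype.val '' B := by
      ext x
      constructor
      · intro hx
        have hx' : proj X z x ∈ B := hx
        refine ⟨proj X z x, hx', ?_⟩
        rw [proj_in (hAX x hx)]
      · rintro ⟨v, hv, rfl⟩
        show proj X z v.1 ∈ B
        rw [proj_val hz]
        exact hv
    have hcard : A.ncard = B.ncard := by
      rw [hAB, Set.ncard_image_of_injective _ Subtype.val_injective]
    have h5 : 3 ≤ (leave G A).ncard := by
      refine h A ?_ ?_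
      · rw [← Set.ncard_pos]
        omega
      · intro h6
        exact hz (hAX z (by rw [h6]; exact Set.mem_univ z))
    have h6 : 2 ≤ Aᶜ.ncard := by
      have h7 : Subtype.val '' Bᶜ ⊆ Aᶜ := by
        rintro _ ⟨v, hv, rfl⟩ hx
        have hx' : proj X z v.1 ∈ B := hx
        rw [proj_val hz] at hx'
        exact hv hx'
      have h8 := Set.ncard_le_ncard h7 (Set.toFinite _)
      rw [Set.ncard_image_of_injective _ Subtype.val_injective] at h8
      omega
    have h7 := hmin A (by omega) (by omega) h6 hAX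
    have h8 : Bᶜ ⊆ {⟨z, Or.inr rfl⟩} := by
      rintro ⟨v, hv | hv⟩ hvB
      · exfalso
        apply hvB
        have h9 : v ∈ A := by
          rw [h7]
          exact hv
        have h10 : proj X z v ∈ B := h9
        rw [proj_in hv] at h10
        exact h10
      · exact Subtype.ext hv
    have h9 := Set.ncard_le_ncard h8 (Set.toFinite _)
    rw [Set.ncard_singleton] at h9
    omega
  rw [leave_con] at hB
  by_contra hcon
  push Not at hcon
  by_cases hzB : (⟨z, Or.inr rfl⟩ : {v // X v ∨ v = z}) ∈ B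
  · refine key Bᶜ ?_ (fun h1 => h1 hzB) (by omega) ?_
    · rw [Set.preimage_compl, leave_compl_ncard]
      exact hB
    · rw [compl_compl]
      omega
  · exact key B hB hzB (by omega) (by omega)

/-- The number of vertices. -/
theorem card_con (hz : ¬ X z) :
    (Set.univ : Set {v // X v ∨ v = z}).ncard = {v | X v}.ncard + 1 := by
  have h1 : Subtype.val '' (Set.univ : Set {v // X v ∨ v = z}) = insert z {v | X v} := by
    ext x
    constructor
    · rintro ⟨⟨v, hv | hv⟩, -, rfl⟩
      · exact Or.inr hv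
      · exact Or.inl hv
    · rintro (hx | hx)
      · exact ⟨⟨x, Or.inr hx⟩, Set.mem_univ _, rfl⟩
      · exact ⟨⟨x, Or.inl hx⟩, Set.mem_univ _, rfl⟩
  have hz' : z ∉ {v | X v} := hz
  rw [← Set.ncard_image_of_injective _ Subtype.val_injective, h1,
    Set.ncard_insert_of_notMem hz' (Set.toFinite _)]

/-- Planarity. -/
theorem pl_con [DecidablePred X] (hc : CutK G X a b) (hz : ¬ X z) (hpl : Pl G)
    (hcon : ConnF G X) : Pl (con hc hz) := by
  refine (pl_starK hpl hc hcon z hz).restrict (fun v => X v ∨ v = z) ?_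
  rintro u v (⟨-, h, -⟩ | ⟨i, ⟨h, -⟩ | ⟨h, -⟩⟩)
  · exact Or.inl h
  · exact Or.inl (h ▸ hc.hX i)
  · exact Or.inr h

/-- Colourings of the contraction are colourings of the star graph. -/
theorem isCol_starK {n : ℤ} (hc : CutK G X a b) (hz : ¬ X z) {c : {v // X v ∨ v = z} → ℤ}
    (h : IsCol n (con hc hz) c) : ∃ c' : V → ℤ, IsCol n (starK G X a z hc.hX hz) c' ∧
      ∀ v : {v // X v ∨ v = z}, c' v.1 = c v := by
  classical
  refine ⟨fun x => if hx : X x ∨ x = z then c ⟨x, hx⟩ else 0, fun u v huv => ?_, fun v => ?_⟩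
  · have hin : ∀ {x y : V}, (starK G X a z hc.hX hz).Adj x y → X x ∨ x = z := by
      rintro x y (⟨-, h, -⟩ | ⟨i, ⟨h, -⟩ | ⟨h, -⟩⟩)
      · exact Or.inl h
      · exact Or.inl (h ▸ hc.hX i)
      · exact Or.inr h
    have hu := hin huv
    have hv := hin huv.symm
    simp only [dif_pos hu, dif_pos hv]
    exact h ⟨u, hu⟩ ⟨v, hv⟩ huv
  · exact dif_pos v.2

end Pool.Agent.CutN
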