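import Mathlib
import Pool.Agent.Work.MP_392c8e_co_uni.FinalC
import Pool.Agent.Work.MP_392c8e_co_uni.Side4

/-!
# Planar cubic graphs in which all cuts with at most three edges are trivial have a rotation of
the class `C4`
-/

namespace Pool.Agent.U2Geo

open Finset Pool.Agent.Sub392 Pool.T1Side Pool.Agent.T392 Pool.Agent.T1FF Pool.Agent.Red

set_option linter.unusedSectionVars false

variable {V : Type} [Fintype V] [DecidableEq V] {G : SimpleGraph V}

theorem leave_ncard_eq_out [DecidableRel G.Adj] (A : Finset V) :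
    (leave G (A : Set V)).ncard = out G A := by
  classical
  unfold out
  rw [← Set.ncard_coe_finset]
  symm
  refine Set.ncard_congr (fun (d : G.Dart) _ => (d.fst, d.snd)) ?_ ?_ ?_
  · intro d hd
    rw [mem_coe, mem_filter] at hd
    exact ⟨mem_coe.2 hd.2.1, fun h => hd.2.2 (mem_coe.1 h), d.adj⟩
  · intro d d' _ _ h
    exact SimpleGraph.Dart.ext _ _ h
  · rintro ⟨u, v⟩ ⟨h1, h2, h3⟩
    refine ⟨⟨(u, v), h3⟩, ?_, rfl⟩
    rw [mem_coe, mem_filter]
    exact ⟨mem_univ _, mem_coe.1 h1, fun h => h2 (mem_coe.2 h)⟩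

theorem degree_of_ncard [DecidableRel G.Adj] (hc : ∀ v, (G.neighborSet v).ncard = 3) (v : V) :
    G.degree v = 3 := by
  have h1 := hc v
  rw [Set.ncard_eq_toFinset_card'] at h1
  rw [← SimpleGraph.card_neighborFinset_eq_degree]
  refine Eq.trans ?_ h1
  congr 1

theorem ncard_of_degree [DecidableRel G.Adj] (hc : ∀ v, G.degree v = 3) (v : V) :
    (G.neighborSet v).ncard = 3 := by
  have h1 := hc v
  rw [Set.ncard_eq_toFinset_card']
  rw [← SimpleGraph.card_neighborFinset_eq_degree] at h1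
  refine Eq.trans ?_ h1
  congr 1

theorem isAcyclic_of_le_one (A : Set V) (h : A.ncard ≤ 1) : (G.induce A).IsAcyclic := by
  intro v p hp
  have h1 := hp.three_le_length
  cases p with
  | nil => simp at h1
  | cons hadj q =>
    rename_i w
    have h2 : (v : V) = w := (Set.ncard_le_one (Set.toFinite _)).1 h _ v.2 _ w.2
    exact hadj.ne (Subtype.ext h2)

theorem cycFour_of_cut [DecidableRel G.Adj]
    (hcut : ∀ A : Set V, (leave G A).ncard ≤ 3 → A.ncard ≤ 1 ∨ Aᶜ.ncard ≤ 1) : CycFour G := by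
  intro A h1 h2
  by_contra hlt
  rw [card_interedges, ← leave_ncard_eq_out] at hlt
  rcases hcut (A : Set V) (by omega) with h3 | h3
  · exact h1 (isAcyclic_of_le_one _ h3)
  · exact h2 (isAcyclic_of_le_one _ h3)

/-- **Existence of a rotation of the class `C4`.** -/
theorem exists_c4 [DecidableRel G.Adj] [Nonempty V] (hpl : Pl G)
    (hc : ∀ v, (G.neighborSet v).ncard = 3)
    (hcut : ∀ A : Set V, (leave G A).ncard ≤ 3 → A.ncard ≤ 1 ∨ Aᶜ.ncard ≤ 1)
    (h4 : Fintype.card V ≠ 4) : ∃ R : Rot G, C4 R := by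
  classical
  have hd := degree_of_ncard hc
  have h := cycFour_of_cut hcut
  have hne : ∃ u v, G.Adj u v := by
    obtain ⟨v⟩ := (inferInstance : Nonempty V)
    have h1 : 0 < #(G.neighborFinset v) := by
      rw [G.card_neighborFinset_eq_degree, hd v]
      norm_num
    obtain ⟨w, hw⟩ := card_pos.1 h1
    exact ⟨v, w, (G.mem_neighborFinset v w).1 hw⟩
  obtain ⟨R, hR⟩ := exists_rot_of_pl hpl
    (connected_of_cycFour hd h) hne (fun v => (hd v).le) (companion_four hd h)
  exact ⟨R, c4_of_cycFour hR hd h h4⟩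

end Pool.Agent.U2Geo
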