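import Mathlib
import Pool.Agent.Work.MP_392c8e_co_uni.SubCol
import Pool.Agent.Work.MP_392c8e_co_uni.Con3
import Pool.Agent.Work.MP_392c8e_co_uni.LeafN
import Pool.Agent.Work.MP_392c8e_co_uni.ColBridge
import Pool.Agent.Work.MP_392c8e_co_uni.ExC4

/-!
# From cyclically 4-edge-connected graphs to 3-edge-connected graphs

If all graphs of the class `C4` and all graphs which arise from them by subdividing one edge have
colourings at one level, then all planar cubic graphs whose cuts have at least three edges and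
which have no `K₄` torso have colourings at one level.
-/

namespace Pool.Agent.CutN

open Pool.Agent.Red Pool.Agent.Sub392 Pool.Agent.U2Geo
open Pool.Agent.Uni392 (StrictN)

set_option linter.unusedSectionVars false

theorem ColN.level {V : Type} {G : SimpleGraph V} {n N : ℕ} (hn : 0 < n) (hnN : n ≤ N)
    (h : ColN (n : ℤ) G) : ColN (N : ℤ) G :=
  colN_of_strictN ((strictN_of_colN hn h).mono le_rfl hnN)

section

variable {V : Type} [Fintype V] [DecidableEq V] {G : SimpleGraph V} {X : V → Prop}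
  {a b : Fin 3 → V} {z : V} {n : ℤ}

/-- The vectors with two equal entries, from colourings of the contraction. -/
theorem acc_of_con (hn : 0 < n) (hc : CutK G X a b) (hz : ¬ X z) {u : V} (hu : ¬ X u)
    (huz : u ≠ z) (h0 : ColN n (con hc hz))
    (h1 : ∀ i, SubCol n (con hc hz) ⟨z, Or.inr rfl⟩ ⟨a i, Or.inl (hc.hX i)⟩)
    (y : Fin 3 → ZMod 3) (hy : ∃ i j, i ≠ j ∧ y i = y j) : Acc n G X a y := by
  classical
  refine acc_two hn ?_ ?_ y hy
  · obtain ⟨c, hcc⟩ := h0
    obtain ⟨c', h2, -⟩ := isCol_starK hc hz hcc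
    exact ⟨starK G X a z hc.hX hz, c', z, h2, fun x y h => Or.inl ⟨h.1, h.2.1, h.2.2⟩,
      fun i => Or.inr ⟨i, Or.inr ⟨rfl, rfl⟩⟩⟩
  · intro i j k hij hik hjk
    obtain ⟨c, m, g1, g2, g3⟩ := h1 i
    let q : V → ℤ := fun x => if x = u then m else
      if hx : X x ∨ x = z then c ⟨x, hx⟩ else 0
    have qu : q u = m := if_pos rfl
    have qX : ∀ x (hx : X x), q x = c ⟨x, Or.inl hx⟩ := by
      intro x hx
      have h3 : x ≠ u := fun h => hu (h ▸ hx)
      show (if x = u then m else if hx : X x ∨ x = z then c ⟨x, hx⟩ else 0) = _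
      rw [if_neg h3, dif_pos (Or.inl hx)]
    have qz : q z = c ⟨z, Or.inr rfl⟩ := by
      show (if z = u then m else if hx : X z ∨ z = z then c ⟨z, hx⟩ else 0) = _
      rw [if_neg (Ne.symm huz), dif_pos (Or.inr rfl)]
    let H : SimpleGraph V := {
      Adj := fun x y => x ≠ y ∧ Jn n (q y - q x)
      symm := ⟨fun x y h => ⟨h.1.symm, by
        have := h.2.neg
        rwa [neg_sub] at this⟩⟩
      loopless := ⟨fun x h => h.1 rfl⟩ }
    have hzX : ∀ x, X x → z ≠ x := fun x hx h => hz (h ▸ hx)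
    refine ⟨H, q, z, u, fun x y h => h.2, ?_, ⟨hzX _ (hc.hX j), ?_⟩, ⟨hzX _ (hc.hX k), ?_⟩,
      ⟨Ne.symm huz, ?_⟩, ⟨fun h => hu (h ▸ hc.hX i), ?_⟩⟩
    · intro x y hxy
      refine ⟨hxy.1.ne, ?_⟩
      rw [qX x hxy.2.1, qX y hxy.2.2]
      refine g1 _ _ (Or.inl ⟨hxy.1, hxy.2.1, hxy.2.2⟩) fun h => ?_
      rcases Sym2.eq_iff.1 h with ⟨h1, -⟩ | ⟨-, h1⟩
      · exact hzX x hxy.2.1 (congrArg Subtype.val h1).symm
      · exact hzX y hxy.2.2 (congrArg Subtype.val h1).symm
    · rw [qX _ (hc.hX j), qz]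
      refine g1 _ _ (Or.inr ⟨j, Or.inr ⟨rfl, rfl⟩⟩) fun h => ?_
      rcases Sym2.eq_iff.1 h with ⟨-, h1⟩ | ⟨h1, -⟩
      · exact hij (hc.ia (congrArg Subtype.val h1)).symm
      · exact hzX _ (hc.hX i) (congrArg Subtype.val h1)
    · rw [qX _ (hc.hX k), qz]
      refine g1 _ _ (Or.inr ⟨k, Or.inr ⟨rfl, rfl⟩⟩) fun h => ?_
      rcases Sym2.eq_iff.1 h with ⟨-, h1⟩ | ⟨h1, -⟩
      · exact hik (hc.ia (congrArg Subtype.val h1)).symm
      · exact hzX _ (hc.hX i) (congrArg Subtype.val h1)
    · rw [qu, qz]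
      exact g2
    · rw [qu, qX _ (hc.hX i)]
      exact g3

end

/-- The hypothesis: all graphs of the class `C4` and all graphs which arise from them by
subdividing one edge have colourings at level `n`. -/
def Clos (n : ℕ) : Prop :=
  ∀ (W : Type) [Fintype W] [DecidableEq W] (M : SimpleGraph W) [DecidableRel M.Adj] (R : Rot M),
    C4 R → ColN (n : ℤ) M ∧ ∀ v s, M.Adj v s → SubCol (n : ℤ) M v s

/-- **The induction.** -/
theorem d0_induction {n N : ℕ} (hn : 0 < n) (hN : 3 * n < N) (H : Clos n) :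
    ∀ (m : ℕ) (V : Type) [Fintype V] [DecidableEq V] (G : SimpleGraph V), Fintype.card V = m →
      Pl G → Cubic G → Cut3 G → NoK4 G → ColN (N : ℤ) G := by
  intro m
  induction m using Nat.strong_induction_on with
  | _ m ih =>
    intro V _ _ G hm hpl hcub hcut hK
    classical
    rcases isEmpty_or_nonempty V with hV | hV
    · exact ⟨fun _ => 0, fun u => (hV.false u).elim⟩
    by_cases hex : ∃ A, Side3 G A
    · obtain ⟨A0, hA0⟩ := hex
      obtain ⟨A, -, hA⟩ := hA0.exists_minSide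
      obtain ⟨a, b, hc⟩ := hA.1.exists_cutK (fun v => (hcub v).le) hcut
      set X : V → Prop := fun v => v ∈ A with hX
      have hcon : ConnF G X := hcut.conn (by norm_num) (by norm_num) hc
      have hcon' : ConnF G fun v => ¬ X v := hcut.conn (by norm_num) (by norm_num) hc.compl
      have hz : ¬ X (b 0) := hc.hY 0
      have hz' : ¬ ¬ X (a 0) := not_not.2 (hc.hX 0)
      -- the torso
      have p1 : Pl (con hc hz) := pl_con hc hz hpl hcon
      have p2 : Cubic (con hc hz) := cubic_con hc hz hcub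
      have p3 : NoK4 (con hc hz) := noK4_con hc hz hK
      have p4 := cuts_con hc hz hcut (fun B h1 h2 h3 h4 => hA.2 B h4 ⟨h1, h2, h3⟩)
      have hne : Nonempty {v // X v ∨ v = b 0} := ⟨⟨b 0, Or.inr rfl⟩⟩
      have p5 : Fintype.card {v // X v ∨ v = b 0} ≠ 4 :=
        card_ne_four (degree_of_ncard p2) (p3.cliqueFree p2)
      obtain ⟨R, hR⟩ := exists_c4 p1 p2 p4 p5
      obtain ⟨q1, q2⟩ := H _ _ R hR
      have hacc : ∀ y : Fin 3 → ZMod 3, (∃ i j, i ≠ j ∧ y i = y j) → Acc (n : ℤ) G X a y :=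
        acc_of_con (by exact_mod_cast hn) hc hz (hc.hY 1) (fun h => by
          have := hc.ib h
          revert this
          decide) q1 fun i => q2 _ _ (Or.inr ⟨i, Or.inr ⟨rfl, rfl⟩⟩)
      -- the rest
      have r1 : Pl (con hc.compl hz') := pl_con hc.compl hz' hpl hcon'
      have r2 : Cubic (con hc.compl hz') := cubic_con hc.compl hz' hcub
      have r3 : NoK4 (con hc.compl hz') := noK4_con hc.compl hz' hK
      have r4 : Cut3 (con hc.compl hz') := cut3C_con hc.compl hz' hcut
      have r5 : Fintype.card {v // ¬ X v ∨ v = a 0} < m := by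
        have h1 := card_con (X := fun v => ¬ X v) hz'
        rw [Set.ncard_univ, Nat.card_eq_fintype_card] at h1
        have h2 : {v | ¬ X v} = Aᶜ := rfl
        have h3 := Set.ncard_add_ncard_compl A
        rw [Nat.card_eq_fintype_card] at h3
        have h4 := hA.1.inn
        rw [h2] at h1
        omega
      obtain ⟨c, hcc⟩ := ih _ r5 _ _ rfl r1 r2 r4 r3
      obtain ⟨c', k1, -⟩ := isCol_starK hc.compl hz' hcc
      obtain ⟨c'', k2, -⟩ := leafN_claw (s := (n : ℤ)) (N := (N : ℤ)) (by positivity)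
        (by exact_mod_cast hN) hc.cut hacc (c2 := c')
        (k1.mono fun x y h => Or.inl ⟨h.1, h.2.1, h.2.2⟩)
        (z := c' (a 0)) fun i => k1 _ _ (Or.inr ⟨i, Or.inr ⟨rfl, rfl⟩⟩)
      exact ⟨c'', k2⟩
    · push Not at hex
      have hcut' : ∀ A : Set V, (leave G A).ncard ≤ 3 → A.ncard ≤ 1 ∨ Aᶜ.ncard ≤ 1 := by
        intro A hA
        by_contra hcon
        push Not at hcon
        refine hex A ⟨le_antisymm hA (hcut A ?_ ?_), hcon.1, hcon.2⟩
        · exact Set.nonempty_of_ncard_ne_zero (by omega)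
        · rintro rfl
          rw [Set.compl_univ, Set.ncard_empty] at hcon
          omega
      obtain ⟨R, hR⟩ := exists_c4 hpl hcub hcut'
        (card_ne_four (degree_of_ncard hcub) (hK.cliqueFree hcub))
      exact (H V G R hR).1.level hn (by omega)

end Pool.Agent.CutN
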