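import Pool.Agent.Work.MP_392c8e_co_uni.GrowthB
import Pool.Agent.Work.MP_392c8e_co_uni.Near

/-!
# Linear growth with the local conditions
-/

set_option autoImplicit false
set_option linter.unusedSectionVars false

namespace Pool.Agent.Uni392

open Finset Pool.Agent.Sub392 Pool.Agent.T392 Pool.Agent.Disch392
open Pool.Agent.Uni3 (Cr IsComp crT crTwo qr)
open Pool.Agent.Uni91 (VD ends)
open Pool.Agent.T1Red (newG Deg3)

variable {V : Type} [Fintype V] [DecidableEq V] {G : SimpleGraph V} [DecidableRel G.Adj]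
  {R : Rot G} {I : V → Prop} {P : List (V × List V × V)}

open Classical in
/-- **Linear growth**, where the bad corners are those near a dart at which one of the local
conditions fails. -/
theorem growth_loc (hP : R.Plane) (hcub : ∀ v, G.degree v = 3) (hd : VD G I P)
    (hdeg : Deg3 (newG G I (ends P))) {K : Finset R.Face} {p : R.Face → Option R.Face}
    (hdel : ∀ d : G.Dart, Del G I P d.fst d.snd → qr p (R.face d) = qr p (R.face d.symm))
    (hcon : ∀ f, f ∉ K → p f ≠ none → ∃ d, R.face d = f ∧ qr p (R.face d) = qr p (R.face d.symm))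
    {D : ℕ} {ι : Type} [Fintype ι] (S : ι → Finset V) (N0 : ℕ) (hS0 : ∀ i, (S i).card ≤ N0)
    (hS : ∀ i, ∀ v ∈ S i, ∀ w ∈ S i, ∃ n, n ≤ D ∧ Steps (nbN G I P) n v w)
    (hnear : ∀ v, (∀ w, ¬ Del G I P v w) → ¬ Inn P v →
      (∃ d : G.Dart, d.fst = v ∧ (Inn P d.snd ∨ (R.face d ∈ K ∧ sz R d = 6))) →
        NearG G I P D v ∨ ∃ i, v ∈ S i)
    (hbad : ∀ d e : G.Dart, Near R 9 d e → ¬ LocOK R e → (∀ w, ¬ Del G I P d.fst w) →
      ¬ Inn P d.fst → NearG G I P D d.fst ∨ ∃ i, d.fst ∈ S i)
    {C : Finset V} (hC : IsComp R (qr p) C) :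
    ((crT R (qr p) C).filter fun c => p c = some c).card ≤
      (93003 * 4 ^ (D + 6) * (N0 + 1) + 72003) *
        (((crTwo R (qr p) C).filter fun v => ¬ Inn P v).card +
          (univ.filter fun i => S i ⊆ Us R (qr p) C).card) := by
  refine growth (Gd := fun d => ¬ ∃ e, Near R 9 d e ∧ ¬ LocOK R e) hP hcub hd hdeg hdel hcon S N0
    hS0 hS hnear ?_ (fun d h => ?_) hC
  · intro U
    refine (disch_loc R hcub U).trans (le_of_eq ?_)
    refine congrArg (fun n : ℕ => _ + 7 * (n : ℝ) + _) (congrArg Finset.card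
      (Finset.ext fun d => ?_))
    simp only [mem_filter, mem_univ, true_and, not_not]
  · obtain ⟨e, h1, h2⟩ := not_not.1 h
    exact hbad d e h1 h2

end Pool.Agent.Uni392
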