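import Mathlib
import Pool.Agent.Work.MP_392c8e_co_uni.Moats
import Pool.Agent.Work.MP_974d84_co_circ.Lattice

/-!
# Real flows from cut conditions
-/

namespace Pool.Agent.Uni3

open Finset MeasureTheory Pool.Agent.Circ

set_option linter.unusedSectionVars false

variable {V E : Type*} [Fintype V] [DecidableEq V] [Fintype E] [DecidableEq E]

/-- Coarea inequality. -/
theorem coarea (s t : E → V) (om : E → ℝ) (hom : ∀ e, 0 ≤ om e) (w : V → ℝ)
    (hw : ∑ v, w v = 0) (H : ∀ Z : Finset V, ∑ v ∈ Z, w v ≤ ∑ e ∈ cut s t Z, om e)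
    (π : V → ℝ) : ∑ v, w v * π v ≤ ∑ e, om e * |π (s e) - π (t e)| := by
  classical
  set M : ℝ := 1 + ∑ v, |π v| with hM
  have hMπ : ∀ v, -M ≤ π v := by
    intro v
    have h1 : |π v| ≤ ∑ v, |π v| := single_le_sum (f := fun v => |π v|)
      (fun v _ => abs_nonneg (π v)) (mem_univ v)
    have h2 := neg_abs_le (π v)
    linarith
  let F : ℝ → ℝ := fun r => ∑ v, (Set.Ioc (-M) (π v)).indicator (fun _ => w v) r
  let G : ℝ → ℝ := fun r => ∑ e, (Set.Ioc (min (π (s e)) (π (t e)))
    (max (π (s e)) (π (t e)))).indicator (fun _ => om e) r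
  have hFG : ∀ r, F r ≤ G r := by
    intro r
    rcases le_or_gt r (-M) with hr | hr
    · have e1 : F r = 0 := by
        refine sum_eq_zero fun v _ => Set.indicator_of_notMem ?_ _
        rintro ⟨h, -⟩
        linarith
      rw [e1]
      exact sum_nonneg fun e _ => Set.indicator_nonneg (fun _ _ => hom e) r
    · have e1 : F r = ∑ v ∈ univ.filter (fun v => r ≤ π v), w v := by
        rw [sum_filter]
        refine sum_congr rfl fun v _ => ?_
        rw [Set.indicator_apply]
        simp [hr]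
      have e2 : G r = ∑ e ∈ cut s t (univ.filter (fun v => r ≤ π v)), om e := by
        unfold cut
        rw [sum_filter]
        refine sum_congr rfl fun e _ => ?_
        rw [Set.indicator_apply]
        simp only [mem_filter, mem_univ, true_and, Set.mem_Ioc, min_lt_iff, le_max_iff]
        by_cases h1 : r ≤ π (s e) <;> by_cases h2 : r ≤ π (t e) <;>
          simp [h1, h2, not_lt.2, not_le.1]
      rw [e1, e2]
      exact H _
  have hF : ∫ r, F r = ∑ v, w v * π v := by
    have e1 : ∫ r, F r = ∑ v, ∫ r, (Set.Ioc (-M) (π v)).indicator (fun _ => w v) r :=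
      integral_finsetSum _ fun v _ => integrable_Ioc _ _ _
    rw [e1]
    have e2 : ∀ v, ∫ r, (Set.Ioc (-M) (π v)).indicator (fun _ => w v) r =
        w v * π v + M * w v := by
      intro v
      rw [integral_Ioc_const (hMπ v)]
      ring
    rw [sum_congr rfl fun v _ => e2 v, sum_add_distrib, ← mul_sum, hw]
    ring
  have hG : ∫ r, G r = ∑ e, om e * |π (s e) - π (t e)| := by
    have e1 : ∫ r, G r = ∑ e, ∫ r, (Set.Ioc (min (π (s e)) (π (t e)))
        (max (π (s e)) (π (t e)))).indicator (fun _ => om e) r :=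
      integral_finsetSum _ fun v _ => integrable_Ioc _ _ _
    rw [e1]
    refine sum_congr rfl fun e _ => ?_
    rw [integral_Ioc_const min_le_max, max_sub_min_eq_abs', mul_comm]
  rw [← hF, ← hG]
  refine integral_mono ?_ ?_ hFG
  · exact integrable_finsetSum _ fun v _ => integrable_Ioc _ _ _
  · exact integrable_finsetSum _ fun v _ => integrable_Ioc _ _ _

/-- **Real flows** (Gale, Hoffman). -/
theorem exists_flow (s t : E → V) (om : E → ℝ) (hom : ∀ e, 0 ≤ om e) (w : V → ℝ)
    (hw : ∑ v, w v = 0) (H : ∀ Z : Finset V, ∑ v ∈ Z, w v ≤ ∑ e ∈ cut s t Z, om e) :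
    ∃ y : E → ℝ, (∀ e, |y e| ≤ om e) ∧ ∀ v, dv s t y v = w v := by
  classical
  -- functionals on `(V → ℝ) × (E → ℝ)`
  let P : V → ((V → ℝ) × (E → ℝ)) →ₗ[ℝ] ℝ := fun v =>
    (LinearMap.proj v).comp (LinearMap.fst ℝ (V → ℝ) (E → ℝ))
  let Z : E → ((V → ℝ) × (E → ℝ)) →ₗ[ℝ] ℝ := fun e =>
    (LinearMap.proj e).comp (LinearMap.snd ℝ (V → ℝ) (E → ℝ))
  let A : E ⊕ E → ((V → ℝ) × (E → ℝ)) →ₗ[ℝ] ℝ := fun i => match i with
    | Sum.inl e => P (s e) - P (t e) - Z e
    | Sum.inr e => P (t e) - P (s e) - Z e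
  let b : ((V → ℝ) × (E → ℝ)) →ₗ[ℝ] ℝ := ∑ v, w v • P v - ∑ e, om e • Z e
  have hb : ∀ x, b x = ∑ v, w v * x.1 v - ∑ e, om e * x.2 e := by
    intro x
    simp [b, P, Z]
  obtain ⟨c, hc0, hc⟩ := farkas A b (by
    rintro ⟨x, hx, hbx⟩
    rw [hb] at hbx
    have h1 := coarea s t om hom w hw H x.1
    have h2 : ∑ e, om e * |x.1 (s e) - x.1 (t e)| ≤ ∑ e, om e * x.2 e := by
      refine sum_le_sum fun e _ => mul_le_mul_of_nonneg_left ?_ (hom e)
      have h3 := hx (Sum.inl e)
      have h4 := hx (Sum.inr e)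
      simp only [A, P, Z, LinearMap.sub_apply, LinearMap.comp_apply, LinearMap.fst_apply,
        LinearMap.snd_apply, LinearMap.proj_apply] at h3 h4
      rw [abs_le]
      constructor <;> linarith
    linarith)
  have hA : ∀ x : (V → ℝ) × (E → ℝ), b x =
      ∑ e, c (Sum.inl e) * (x.1 (s e) - x.1 (t e) - x.2 e) +
      ∑ e, c (Sum.inr e) * (x.1 (t e) - x.1 (s e) - x.2 e) := by
    intro x
    rw [hc]
    simp [A, P, Z, Fintype.sum_sum_type]
  refine ⟨fun e => c (Sum.inl e) - c (Sum.inr e), fun e => ?_, fun v => ?_⟩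
  · have h1 := hA (0, Pi.single e 1)
    rw [hb] at h1
    simp only [Pi.zero_apply, mul_zero, sum_const_zero, zero_sub, sub_self, Pi.single_apply,
      mul_ite, mul_one, mul_neg, sum_neg_distrib, sum_ite_eq', mem_univ, if_true] at h1
    have h2 := hc0 (Sum.inl e)
    have h3 := hc0 (Sum.inr e)
    rw [abs_le]
    constructor <;> linarith
  · have h1 := hA (Pi.single v 1, 0)
    rw [hb] at h1
    simp only [Pi.zero_apply, mul_zero, sum_const_zero, sub_zero, Pi.single_apply,
      mul_ite, mul_one, sum_ite_eq', mem_univ, if_true] at h1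
    unfold dv
    rw [h1, ← sum_add_distrib]
    refine sum_congr rfl fun e _ => ?_
    by_cases h2 : s e = v <;> by_cases h3 : t e = v <;> simp [h2, h3] <;> ring

end Pool.Agent.Uni3
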