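import Mathlib
import Pool.Agent.Work.MP_392c8e_co_uni.ChgDem
import Pool.Agent.Work.MP_392c8e_co_uni.RealFlow

/-!
# The Steiner tower theorem

Integral charges on the parts of a family of minimal value lift to integral charges of the whole
multigraph.
-/

namespace Pool.Agent.Uni3

open Finset Pool.Agent.Circ

set_option linter.unusedSectionVars false

variable {V E : Type*} [Fintype V] [DecidableEq V] [Fintype E] [DecidableEq E]

/-- Families of disjoint parts (labelled by one of their terminals) which cover the terminals. -/
def Adm (K : Finset V) (p : V → Option V) : Prop :=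
  (∀ v ∈ K, p v ≠ none) ∧ ∀ v c, p v = some c → c ∈ K ∧ p c = some c

/-- The value of a family: the weights of the boundaries minus `2` for each part, plus `2`. -/
noncomputable def phi (s t : E → V) (om : E → ℝ) (K : Finset V) (p : V → Option V) : ℝ :=
  ∑ e, om e * cc p (s e) (t e) - 2 * (((K.image p).card : ℝ) - 1)

/-- Unions of parts and uncovered vertices. -/
def IsUn (p : V → Option V) (A : Finset V) : Prop :=
  ∀ u v, p u = p v → p u ≠ none → (u ∈ A ↔ v ∈ A)

theorem exists_min (s t : E → V) (om : E → ℝ) (K : Finset V) (hK : K.Nonempty) :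
    ∃ p, Adm K p ∧ ∀ q, Adm K q → phi s t om K p ≤ phi s t om K q := by
  classical
  obtain ⟨k, hk⟩ := hK
  obtain ⟨p, hp, hmin⟩ := exists_min_image (univ.filter (fun p : V → Option V => Adm K p))
    (phi s t om K) ⟨fun _ => some k, by
      rw [mem_filter]
      refine ⟨mem_univ _, fun v _ => by simp, fun v c h => ?_⟩
      have : k = c := by simpa using h
      subst this
      exact ⟨hk, rfl⟩⟩
  exact ⟨p, (mem_filter.1 hp).2, fun q hq => hmin q (mem_filter.2 ⟨mem_univ _, hq⟩)⟩

/-- The demands of the part `c`. -/
noncomputable def oc (s t : E → V) (om : E → ℝ) (p : V → Option V) (c v : V) : ℝ :=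
  if p v = some c then ∑ e, ((if s e = v ∧ p (t e) ≠ some c then om e else 0) +
    (if t e = v ∧ p (s e) ≠ some c then om e else 0)) else 0

/-- The inner weights of the part `c`. -/
noncomputable def omc (s t : E → V) (om : E → ℝ) (p : V → Option V) (c : V) (e : E) : ℝ :=
  if p (s e) = some c ∧ p (t e) = some c then om e else 0

/-- **(m1)**: the inner condition of a part of a minimal family. -/
theorem steinerDem_of_min (s t : E → V) (om : E → ℝ) (K : Finset V)
    (p : V → Option V) (hp : Adm K p)
    (hmin : ∀ q, Adm K q → phi s t om K p ≤ phi s t om K q) (c : V) (hc : p c = some c) :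
    SteinerDem s t (omc s t om p c) (K.filter (fun v => p v = some c)) (oc s t om p c) := by
  classical
  intro r hr1 hr2
  have hcK : c ∈ K := (hp.2 c c hc).1
  set Kc := K.filter (fun v => p v = some c) with hKc
  set p' : V → Option V := fun v => if p v = some c then r v else p v with hp'
  have hadm : Adm K p' := by
    constructor
    · intro v hv
      simp only [hp']
      by_cases h : p v = some c
      · rw [if_pos h]
        exact hr1 v (mem_filter.2 ⟨hv, h⟩)
      · rw [if_neg h]
        exact hp.1 v hv
    · intro v d hd
      simp only [hp'] at hd ⊢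
      by_cases h : p v = some c
      · rw [if_pos h] at hd
        obtain ⟨h1, h2⟩ := hr2 v d hd
        have h3 := mem_filter.1 h1
        rw [if_pos h3.2]
        exact ⟨h3.1, h2⟩
      · rw [if_neg h] at hd
        obtain ⟨h1, h2⟩ := hp.2 v d hd
        have h3 : p d ≠ some c := by
          rw [h2, ← hd]
          exact h
        rw [if_neg h3]
        exact ⟨h1, h2⟩
  have hmin' := hmin p' hadm
  -- the number of parts
  have hcard : (K.image p').card + 1 = (K.image p).card + (Kc.image r).card := by
    have e1 : K.image p' = Kc.image r ∪ (K.filter (fun v => ¬ p v = some c)).image p := by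
      ext x
      simp only [mem_image, mem_union, mem_filter, hKc]
      constructor
      · rintro ⟨v, hv, rfl⟩
        by_cases h : p v = some c
        · exact Or.inl ⟨v, ⟨hv, h⟩, by simp [hp', h]⟩
        · exact Or.inr ⟨v, ⟨hv, h⟩, by simp [hp', h]⟩
      · rintro (⟨v, ⟨hv, h⟩, rfl⟩ | ⟨v, ⟨hv, h⟩, rfl⟩)
        · exact ⟨v, hv, by simp [hp', h]⟩
        · exact ⟨v, hv, by simp [hp', h]⟩
    have e2 : K.image p = insert (some c) ((K.filter (fun v => ¬ p v = some c)).image p) := by
      ext x
      simp only [mem_image, mem_insert, mem_filter]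
      constructor
      · rintro ⟨v, hv, rfl⟩
        by_cases h : p v = some c
        · exact Or.inl h
        · exact Or.inr ⟨v, ⟨hv, h⟩, rfl⟩
      · rintro (rfl | ⟨v, ⟨hv, h⟩, rfl⟩)
        · exact ⟨c, hcK, hc⟩
        · exact ⟨v, hv, rfl⟩
    have d1 : Disjoint (Kc.image r) ((K.filter (fun v => ¬ p v = some c)).image p) := by
      rw [disjoint_left]
      intro x hx hx'
      obtain ⟨v, hv, rfl⟩ := mem_image.1 hx
      obtain ⟨u, hu, hu'⟩ := mem_image.1 hx'
      obtain ⟨d, hd⟩ := Option.ne_none_iff_exists'.1 (hr1 v hv)
      have h1 := (mem_filter.1 (hr2 v d hd).1).2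
      have h2 : p u = some d := by rw [hu', hd]
      have h3 := (hp.2 u d h2).2
      rw [h3] at h1
      exact (mem_filter.1 hu).2 (h2.trans h1)
    have d2 : (some c) ∉ (K.filter (fun v => ¬ p v = some c)).image p := by
      intro h
      obtain ⟨v, hv, hv'⟩ := mem_image.1 h
      exact (mem_filter.1 hv).2 hv'
    rw [e1, e2, card_union_of_disjoint d1, card_insert_of_notMem d2]
    omega
  -- the weights
  have key : ∀ e, cc p' (s e) (t e) = cc p (s e) (t e) +
      (if p (s e) = some c ∧ p (t e) = some c then cc r (s e) (t e) else 0) -
      (if p (s e) = some c ∧ p (t e) ≠ some c ∧ r (s e) = none then 1 else 0) -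
      (if p (t e) = some c ∧ p (s e) ≠ some c ∧ r (t e) = none then 1 else 0) := by
    intro e
    have hne : ∀ u v, p u ≠ some c → p v = some c → r v ≠ none → p u ≠ r v := by
      intro u v hu hv hrv h
      obtain ⟨d, hd⟩ := Option.ne_none_iff_exists'.1 hrv
      have h1 := (mem_filter.1 (hr2 v d hd).1).2
      have h2 : p u = some d := by rw [h, hd]
      have h3 := (hp.2 u d h2).2
      rw [h3] at h1
      exact hu (h2.trans h1)
    by_cases h1 : p (s e) = some c <;> by_cases h2 : p (t e) = some c
    · have a1 : p' (s e) = r (s e) := by simp [hp', h1]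
      have a2 : p' (t e) = r (t e) := by simp [hp', h2]
      unfold cc
      rw [a1, a2]
      simp [h1, h2]
    · have a1 : p' (s e) = r (s e) := by simp [hp', h1]
      have a2 : p' (t e) = p (t e) := by simp [hp', h2]
      unfold cc
      rw [a1, a2]
      by_cases h3 : r (s e) = none
      · by_cases h4 : p (t e) = none
        · simp [h1, h3, h4]
        · have h5 : ¬ (none = p (t e)) := fun h => h4 h.symm
          have h6 : ¬ (some c = p (t e)) := fun h => h2 h.symm
          simp [h1, h2, h3, h4, h5, h6]
      · have h5 : r (s e) ≠ p (t e) := fun h => hne (t e) (s e) h2 h1 h3 h.symm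
        have h6 : ¬ (some c = p (t e)) := fun h => h2 h.symm
        simp [h1, h2, h3, h5, h6]
    · have a1 : p' (s e) = p (s e) := by simp [hp', h1]
      have a2 : p' (t e) = r (t e) := by simp [hp', h2]
      unfold cc
      rw [a1, a2]
      by_cases h3 : r (t e) = none
      · by_cases h4 : p (s e) = none
        · simp [h2, h3, h4]
        · simp [h1, h2, h3, h4]
      · have h5 : p (s e) ≠ r (t e) := hne (s e) (t e) h1 h2 h3
        simp [h1, h2, h3, h5]
    · have a1 : p' (s e) = p (s e) := by simp [hp', h1]
      have a2 : p' (t e) = p (t e) := by simp [hp', h2]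
      unfold cc
      rw [a1, a2]
      simp [h1, h2]
  have hsum : ∑ e, om e * cc p' (s e) (t e) = ∑ e, om e * cc p (s e) (t e) +
      ∑ e, omc s t om p c e * cc r (s e) (t e) -
      ∑ v, (if r v = none then oc s t om p c v else 0) := by
    have e1 : ∑ v, (if r v = none then oc s t om p c v else 0) =
        ∑ e, (om e * (if p (s e) = some c ∧ p (t e) ≠ some c ∧ r (s e) = none then 1 else 0) +
          om e * (if p (t e) = some c ∧ p (s e) ≠ some c ∧ r (t e) = none then 1 else 0)) := by
      have e2 : ∀ v, (if r v = none then oc s t om p c v else 0) =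
          ∑ e, ((if s e = v then om e *
              (if p (s e) = some c ∧ p (t e) ≠ some c ∧ r (s e) = none then 1 else 0) else 0) +
            (if t e = v then om e *
              (if p (t e) = some c ∧ p (s e) ≠ some c ∧ r (t e) = none then 1 else 0) else 0)) := by
        intro v
        unfold oc
        by_cases h1 : r v = none
        · rw [if_pos h1]
          by_cases h2 : p v = some c
          · rw [if_pos h2]
            refine sum_congr rfl fun e _ => ?_
            congr 1
            · by_cases h3 : s e = v
              · subst h3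
                simp [h1, h2]
              · simp [h3]
            · by_cases h3 : t e = v
              · subst h3
                simp [h1, h2]
              · simp [h3]
          · rw [if_neg h2]
            symm
            refine sum_eq_zero fun e _ => ?_
            by_cases h3 : s e = v <;> by_cases h4 : t e = v <;> simp [h3, h4, h2]
        · rw [if_neg h1]
          symm
          refine sum_eq_zero fun e _ => ?_
          by_cases h3 : s e = v <;> by_cases h4 : t e = v <;> simp [h3, h4, h1]
      rw [sum_congr rfl fun v _ => e2 v, sum_comm]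
      refine sum_congr rfl fun e _ => ?_
      rw [sum_add_distrib, sum_ite_eq, sum_ite_eq]
      simp
    rw [e1, ← sum_add_distrib, ← sum_sub_distrib]
    refine sum_congr rfl fun e _ => ?_
    rw [key e]
    unfold omc
    split_ifs <;> ring
  unfold phi at hmin'
  have hcard' : ((K.image p').card : ℝ) + 1 = (K.image p).card + (Kc.image r).card := by
    exact_mod_cast hcard
  rw [hsum] at hmin'
  linarith

end Pool.Agent.Uni3
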