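import Mathlib
import Pool.Agent.Work.MP_392c8e_co_uni.Tower

/-!
# The Steiner tower theorem, assembly
-/

namespace Pool.Agent.Uni3

open Finset Pool.Agent.Circ

set_option linter.unusedSectionVars false

variable {V E : Type*} [Fintype V] [DecidableEq V] [Fintype E] [DecidableEq E]

/-- The representative of a vertex after all parts have been contracted. -/
def qr (p : V → Option V) (v : V) : V := (p v).getD v

theorem qr_eq_iff {p : V → Option V} {c : V} (hc : p c = some c)
    (v : V) : qr p v = c ↔ p v = some c := by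
  unfold qr
  cases h : p v with
  | none =>
    simp only [Option.getD_none]
    constructor
    · rintro rfl
      rw [hc] at h
      cases h
    · intro h'
      cases h'
  | some d => simp

theorem sum_dv_qr (s t : E → V) (f : E → ℝ) (q : V → V) (c : V) :
    ∑ v, (if q v = c then dv s t f v else 0) = dv (fun e => q (s e)) (fun e => q (t e)) f c := by
  unfold dv
  have e1 : ∀ v, (if q v = c then ∑ e, ((if s e = v then f e else 0) -
      (if t e = v then f e else 0)) else 0) =
      ∑ e, ((if s e = v then (if q v = c then f e else 0) else 0) -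
      (if t e = v then (if q v = c then f e else 0) else 0)) := by
    intro v
    by_cases h : q v = c
    · simp [h]
    · simp [h]
  rw [sum_congr rfl fun v _ => e1 v, sum_comm]
  refine sum_congr rfl fun e _ => ?_
  rw [sum_sub_distrib, sum_ite_eq, sum_ite_eq]
  simp

theorem abs_sum_dv_le (s t : E → V) (f : E → ℝ) (Z : Finset V) :
    |∑ v ∈ Z, dv s t f v| ≤ ∑ e ∈ cut s t Z, |f e| := by
  have e1 : ∑ v ∈ Z, dv s t f v =
      ∑ e, ((if s e ∈ Z then f e else 0) - (if t e ∈ Z then f e else 0)) := by
    unfold dv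
    rw [sum_comm]
    refine sum_congr rfl fun e _ => ?_
    rw [sum_sub_distrib, sum_ite_eq, sum_ite_eq]
  rw [e1]
  refine (abs_sum_le_sum_abs _ _).trans ?_
  unfold cut
  rw [sum_filter]
  refine sum_le_sum fun e _ => ?_
  by_cases h1 : s e ∈ Z <;> by_cases h2 : t e ∈ Z <;> simp [h1, h2]

/-- **The Steiner tower theorem**, with capacities `lam` on the edges which are not inside a part;
only the demands of the uncovered vertices inside the parts have to be compared with `om`. -/
theorem tower_lam (s t : E → V) (om : E → ℝ) (hom : ∀ e, 0 ≤ om e) (K : Finset V)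
    (p : V → Option V) (hp : Adm K p)
    (hmin : ∀ q, Adm K q → phi s t om K p ≤ phi s t om K q)
    (lam : E → ℝ) (hlam : ∀ e, 0 ≤ lam e)
    (hle : ∀ c z, z ∉ K → p z = some c → oc s t lam p c z ≤ oc s t om p c z)
    (b : V → ℤ) (W : V → ℤ)
    (hW0 : ∀ c, p c ≠ some c → W c = 0) (hWs : ∑ c, W c = 0)
    (hpar : ∀ c, p c = some c → Even (W c - ∑ v ∈ K.filter (fun v => p v = some c), b v))
    (H : ∀ A, IsUn p A → ∑ c ∈ A, (W c : ℝ) ≤ ∑ e ∈ cut s t A, lam e) :
    ∃ w : V → ℤ, (∀ v, v ∉ K → w v = 0) ∧ (∀ v ∈ K, (2 : ℤ) ∣ w v - b v) ∧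
      (∑ v, w v = 0) ∧
      (∀ c, p c = some c → ∑ v ∈ univ.filter (fun v => p v = some c), w v = W c) ∧
      ∀ Z : Finset V, |∑ v ∈ Z, (w v : ℝ)| ≤
        ∑ e ∈ cut s t Z, if p (s e) = p (t e) ∧ p (s e) ≠ none then om e else lam e := by
  classical
  -- the flow after the contraction
  obtain ⟨y0, hy0, hy0d⟩ := exists_flow (fun e => qr p (s e)) (fun e => qr p (t e)) lam hlam
    (fun v => (W v : ℝ)) (by exact_mod_cast hWs) (by
      intro Z
      set A : Finset V := univ.filter (fun v => qr p v ∈ Z) with hA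
      have hun : IsUn p A := by
        intro u v huv hne
        obtain ⟨d, hd⟩ := Option.ne_none_iff_exists'.1 hne
        have h1 : qr p u = d := by simp [qr, hd]
        have h2 : qr p v = d := by simp [qr, ← huv, hd]
        simp [hA, h1, h2]
      have h3 : ∑ v ∈ Z, (W v : ℝ) = ∑ c ∈ A, (W c : ℝ) := by
        rw [← sum_filter_add_sum_filter_not Z (fun v => p v = some v),
          ← sum_filter_add_sum_filter_not A (fun v => p v = some v)]
        have e1 : ∑ v ∈ Z.filter (fun v => ¬ p v = some v), (W v : ℝ) = 0 :=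
          sum_eq_zero fun v hv => by rw [hW0 v (mem_filter.1 hv).2, Int.cast_zero]
        have e2 : ∑ v ∈ A.filter (fun v => ¬ p v = some v), (W v : ℝ) = 0 :=
          sum_eq_zero fun v hv => by rw [hW0 v (mem_filter.1 hv).2, Int.cast_zero]
        rw [e1, e2]
        congr 1
        refine sum_congr ?_ fun _ _ => rfl
        ext v
        simp only [mem_filter, hA, mem_univ, true_and]
        constructor
        · rintro ⟨h, h'⟩
          exact ⟨by rw [(qr_eq_iff h' v).2 h']; exact h, h'⟩
        · rintro ⟨h, h'⟩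
          exact ⟨by rw [(qr_eq_iff h' v).2 h'] at h; exact h, h'⟩
      rw [h3]
      refine (H A hun).trans (le_of_eq (sum_congr ?_ fun _ _ => rfl))
      ext e
      simp [cut, hA])
  -- outer edges
  set y : E → ℝ := fun e => if p (s e) = p (t e) ∧ p (s e) ≠ none then 0 else y0 e with hy
  have hyd : ∀ v, dv (fun e => qr p (s e)) (fun e => qr p (t e)) y v = W v := by
    intro v
    rw [← hy0d v]
    unfold dv
    refine sum_congr rfl fun e _ => ?_
    by_cases h : p (s e) = p (t e) ∧ p (s e) ≠ none
    · obtain ⟨d, hd⟩ := Option.ne_none_iff_exists'.1 h.2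
      have h1 : qr p (s e) = d := by simp [qr, hd]
      have h2 : qr p (t e) = d := by simp [qr, ← h.1, hd]
      simp only [h1, h2, sub_self]
    · simp only [hy, if_neg h]
  have hyle : ∀ e, |y e| ≤ if p (s e) = p (t e) ∧ p (s e) ≠ none then 0 else lam e := by
    intro e
    simp only [hy]
    split_ifs
    · simp
    · exact hy0 e
  set a : V → ℝ := fun v => dv s t y v with ha
  have ha_none : ∀ v, p v = none → a v = 0 := by
    intro v hv
    have h1 := sum_dv_qr s t y (qr p) v
    rw [hyd v, hW0 v (by rw [hv]; simp), Int.cast_zero] at h1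
    rw [← h1]
    symm
    rw [sum_eq_single v]
    · have : qr p v = v := by simp [qr, hv]
      rw [if_pos this]
    · intro u _ hu
      rw [if_neg]
      intro h
      unfold qr at h
      cases h' : p u with
      | none => rw [h'] at h; exact hu h
      | some d =>
        rw [h'] at h
        simp only [Option.getD_some] at h
        subst h
        rw [(hp.2 u d h').2] at hv
        cases hv
    · intro h
      exact absurd (mem_univ v) h
  have ha_sum : ∀ c, p c = some c → ∑ v, (if p v = some c then a v else 0) = W c := by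
    intro c hc
    rw [← hyd c, ← sum_dv_qr]
    refine sum_congr rfl fun v _ => ?_
    by_cases h : p v = some c
    · rw [if_pos h, if_pos ((qr_eq_iff hc v).2 h)]
    · rw [if_neg h, if_neg fun h' => h ((qr_eq_iff hc v).1 h')]
  -- inside the parts
  have step : ∀ c, ∃ w : V → ℤ, p c = some c →
      (∀ v, ¬ (v ∈ K ∧ p v = some c) → w v = 0) ∧
      (∀ v, v ∈ K → p v = some c → (2 : ℤ) ∣ w v - b v) ∧ (∑ v, w v = W c) ∧
      ∀ Z : Finset V, |∑ v ∈ Z, ((w v : ℝ) - if p v = some c then a v else 0)| ≤
        ∑ e ∈ cut s t Z, omc s t om p c e := by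
    intro c
    by_cases hc : p c = some c
    swap
    · exact ⟨0, fun h => absurd h hc⟩
    obtain ⟨w, h1, h2, h3, h4⟩ := exists_chg_dem s t (omc s t om p c) (by
      intro e
      unfold omc
      split_ifs
      · exact hom e
      · exact le_rfl) (K.filter (fun v => p v = some c)) ⟨c, mem_filter.2 ⟨(hp.2 c c hc).1, hc⟩⟩
      (oc s t om p c) (by
      intro v
      unfold oc
      split_ifs
      · refine sum_nonneg fun e _ => add_nonneg ?_ ?_ <;> split_ifs <;>
          first | exact hom e | exact le_rfl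
      · exact le_rfl) (steinerDem_of_min s t om K p hp hmin c hc)
      (fun v => if p v = some c then a v else 0) (by
      intro z hzK
      by_cases hz : p z = some c
      · refine le_trans ?_ (hle c z (fun h => hzK (mem_filter.2 ⟨h, hz⟩)) hz)
        unfold oc
        simp only [hz, if_true]
        simp only [ha, dv]
        refine (abs_sum_le_sum_abs _ _).trans (sum_le_sum fun e _ => ?_)
        have h5 := hyle e
        by_cases h6 : s e = z <;> by_cases h7 : t e = z
        · subst h6
          have e1 : y e = 0 := by simp [hy, h7, hz]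
          simp [h7, hz]
        · subst h6
          by_cases h8 : p (t e) = some c
          · have e1 : y e = 0 := by simp [hy, h8, hz]
            simp [h7, h8, e1]
          · have h9 : ¬ (some c = p (t e)) := fun h => h8 h.symm
            simp only [hz, h9, false_and, if_false] at h5
            simpa [h7, h8] using h5
        · subst h7
          by_cases h8 : p (s e) = some c
          · have e1 : y e = 0 := by simp [hy, h8, hz]
            simp [h6, h8, e1]
          · simp only [hz, h8, false_and, if_false] at h5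
            simpa [h6, h8] using h5
        · simp [h6, h7]
      · unfold oc
        simp [hz]) (W c) (ha_sum c hc) b (hpar c hc)
    refine ⟨w, fun _ => ⟨fun v hv => h1 v fun h => hv (mem_filter.1 h),
      fun v hv hv' => h2 v (mem_filter.2 ⟨hv, hv'⟩), h3, h4⟩⟩
  choose wc hwc using step
  set w : V → ℤ := fun v => match p v with
    | none => 0
    | some c => wc c v with hw
  have hwn : ∀ v, p v = none → w v = 0 := fun v h => by simp only [hw, h]
  have hws : ∀ v c, p v = some c → w v = wc c v := fun v c h => by simp only [hw, h]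
  set L : Finset V := univ.filter (fun c => p c = some c) with hL
  have hwL : ∀ v, w v = ∑ c ∈ L, wc c v := by
    intro v
    cases h : p v with
    | none =>
      rw [hwn v h]
      symm
      refine sum_eq_zero fun c hc => ((hwc c (mem_filter.1 hc).2).1 v ?_)
      rintro ⟨-, h'⟩
      rw [h] at h'
      cases h'
    | some d =>
      have hd := (hp.2 v d h).2
      rw [hws v d h, sum_eq_single d]
      · intro c hc hcd
        refine ((hwc c (mem_filter.1 hc).2).1 v ?_)
        rintro ⟨-, h'⟩
        rw [h] at h'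
        exact hcd (Option.some_injective _ h').symm
      · intro h'
        exact absurd (mem_filter.2 ⟨mem_univ d, hd⟩) h'
  have haL : ∀ v, a v = ∑ c ∈ L, (if p v = some c then a v else 0) := by
    intro v
    cases h : p v with
    | none =>
      rw [ha_none v h]
      symm
      exact sum_eq_zero fun c _ => by simp
    | some d =>
      have hd := (hp.2 v d h).2
      rw [sum_eq_single d]
      · simp
      · intro c hc hcd
        rw [if_neg fun h' => hcd (Option.some_injective _ h').symm]
      · intro h'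
        exact absurd (mem_filter.2 ⟨mem_univ d, hd⟩) h'
  refine ⟨w, ?_, ?_, ?_, ?_, ?_⟩
  · intro v hv
    rw [hwL v]
    exact sum_eq_zero fun c hc => (hwc c (mem_filter.1 hc).2).1 v fun h => hv h.1
  · intro v hv
    obtain ⟨d, hd⟩ := Option.ne_none_iff_exists'.1 (hp.1 v hv)
    rw [hws v d hd]
    exact (hwc d (hp.2 v d hd).2).2.1 v hv hd
  · have e1 : ∑ v, w v = ∑ c ∈ L, ∑ v, wc c v := by
      rw [sum_congr rfl fun v _ => hwL v, sum_comm]
    rw [e1, sum_congr rfl fun c hc => (hwc c (mem_filter.1 hc).2).2.2.1, ← hWs]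
    refine sum_subset (subset_univ _) fun c _ hc => hW0 c fun h => hc ?_
    exact mem_filter.2 ⟨mem_univ _, h⟩
  · intro c hc
    rw [← (hwc c hc).2.2.1, sum_congr rfl fun v hv => hws v c (mem_filter.1 hv).2]
    exact sum_subset (subset_univ _) fun v _ hv => (hwc c hc).1 v fun h =>
      hv (mem_filter.2 ⟨mem_univ _, h.2⟩)
  · intro Z
    have e1 : ∑ v ∈ Z, (w v : ℝ) = ∑ v ∈ Z, a v +
        ∑ c ∈ L, ∑ v ∈ Z, ((wc c v : ℝ) - if p v = some c then a v else 0) := by
      rw [sum_comm, ← sum_add_distrib]
      refine sum_congr rfl fun v _ => ?_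
      rw [sum_sub_distrib, ← haL v, hwL v]
      push_cast
      ring
    rw [e1]
    refine (abs_add_le _ _).trans ?_
    have e2 : |∑ c ∈ L, ∑ v ∈ Z, ((wc c v : ℝ) - if p v = some c then a v else 0)| ≤
        ∑ c ∈ L, ∑ e ∈ cut s t Z, omc s t om p c e :=
      (abs_sum_le_sum_abs _ _).trans (sum_le_sum fun c hc =>
        (hwc c (mem_filter.1 hc).2).2.2.2 Z)
    have e3 : |∑ v ∈ Z, a v| ≤
        ∑ e ∈ cut s t Z, if p (s e) = p (t e) ∧ p (s e) ≠ none then 0 else lam e :=
      (abs_sum_dv_le s t y Z).trans (sum_le_sum fun e _ => hyle e)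
    refine (add_le_add e3 e2).trans (le_of_eq ?_)
    rw [sum_comm, ← sum_add_distrib]
    refine sum_congr rfl fun e _ => ?_
    by_cases h : p (s e) = p (t e) ∧ p (s e) ≠ none
    · obtain ⟨d, hd⟩ := Option.ne_none_iff_exists'.1 h.2
      rw [if_pos h, if_pos h, zero_add, sum_eq_single d]
      · simp [omc, hd, ← h.1]
      · intro c _ hcd
        unfold omc
        rw [if_neg]
        rintro ⟨h1, -⟩
        rw [hd] at h1
        exact hcd (Option.some_injective _ h1).symm
      · intro h'
        exact absurd (mem_filter.2 ⟨mem_univ d, (hp.2 _ d hd).2⟩) h'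
    · rw [if_neg h, if_neg h]
      have e4 : ∑ c ∈ L, omc s t om p c e = 0 := by
        refine sum_eq_zero fun c _ => ?_
        unfold omc
        rw [if_neg]
        rintro ⟨h1, h2⟩
        exact h ⟨h1.trans h2.symm, by rw [h1]; simp⟩
      rw [e4, add_zero]

/-- **The Steiner tower theorem.** -/
theorem tower (s t : E → V) (om : E → ℝ) (hom : ∀ e, 0 ≤ om e) (K : Finset V)
    (p : V → Option V) (hp : Adm K p)
    (hmin : ∀ q, Adm K q → phi s t om K p ≤ phi s t om K q) (b : V → ℤ) (W : V → ℤ)
    (hW0 : ∀ c, p c ≠ some c → W c = 0) (hWs : ∑ c, W c = 0)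
    (hpar : ∀ c, p c = some c → Even (W c - ∑ v ∈ K.filter (fun v => p v = some c), b v))
    (H : ∀ A, IsUn p A → ∑ c ∈ A, (W c : ℝ) ≤ ∑ e ∈ cut s t A, om e) :
    ∃ w : V → ℤ, (∀ v, v ∉ K → w v = 0) ∧ (∀ v ∈ K, (2 : ℤ) ∣ w v - b v) ∧
      (∑ v, w v = 0) ∧
      ∀ Z : Finset V, |∑ v ∈ Z, (w v : ℝ)| ≤ ∑ e ∈ cut s t Z, om e := by
  obtain ⟨w, h1, h2, h3, -, h5⟩ := tower_lam s t om hom K p hp hmin om hom
    (fun _ _ _ _ => le_rfl) b W hW0 hWs hpar H
  refine ⟨w, h1, h2, h3, fun Z => (h5 Z).trans (le_of_eq (sum_congr rfl fun e _ => ?_))⟩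
  split_ifs <;> rfl

theorem sum_label {K : Finset V} {p : V → Option V} (hp : Adm K p) (w0 : V → ℤ)
    (h0 : ∀ v, v ∉ K → w0 v = 0) {A : Finset V} (hA : IsUn p A) :
    ∑ c ∈ A, (if p c = some c then ∑ v ∈ univ.filter (fun v => p v = some c), w0 v else 0) =
      ∑ v ∈ A, w0 v := by
  have e1 : ∀ c ∈ A, (if p c = some c then ∑ v ∈ univ.filter (fun v => p v = some c), w0 v
      else 0) = ∑ v ∈ A, if p v = some c then w0 v else 0 := by
    intro c hcA
    by_cases hc : p c = some c
    · rw [if_pos hc, sum_filter]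
      symm
      refine sum_subset (subset_univ _) fun v _ hv => ?_
      rw [if_neg]
      intro h
      exact hv ((hA v c (h.trans hc.symm) (by rw [h]; simp)).2 hcA)
    · rw [if_neg hc]
      symm
      refine sum_eq_zero fun v _ => ?_
      rw [if_neg]
      intro h
      exact hc (hp.2 v c h).2
  rw [sum_congr rfl e1, sum_comm]
  refine sum_congr rfl fun v hv => ?_
  cases h : p v with
  | none =>
    rw [h0 v fun h' => hp.1 v h' h]
    simp
  | some d =>
    rw [sum_eq_single d]
    · simp
    · intro c _ hcd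
      rw [if_neg]
      intro h'
      exact hcd (Option.some_injective _ h').symm
    · intro h'
      exact absurd ((hA v d (h.trans (hp.2 v d h).2.symm) (by rw [h]; simp)).1 hv) h'

/-- The tower theorem for charges of the vertices which are bounded on the unions of parts. -/
theorem tower_lam_w (s t : E → V) (om : E → ℝ) (hom : ∀ e, 0 ≤ om e) (K : Finset V)
    (p : V → Option V) (hp : Adm K p)
    (hmin : ∀ q, Adm K q → phi s t om K p ≤ phi s t om K q)
    (lam : E → ℝ) (hlam : ∀ e, 0 ≤ lam e)
    (hle : ∀ c z, z ∉ K → p z = some c → oc s t lam p c z ≤ oc s t om p c z)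
    (b : V → ℤ) (w0 : V → ℤ) (h0 : ∀ v, v ∉ K → w0 v = 0) (hs : ∑ v, w0 v = 0)
    (hpar : ∀ v ∈ K, (2 : ℤ) ∣ w0 v - b v)
    (H : ∀ A, IsUn p A → ∑ v ∈ A, (w0 v : ℝ) ≤ ∑ e ∈ cut s t A, lam e) :
    ∃ w : V → ℤ, (∀ v, v ∉ K → w v = 0) ∧ (∀ v ∈ K, (2 : ℤ) ∣ w v - b v) ∧
      (∑ v, w v = 0) ∧ (∀ A, IsUn p A → ∑ v ∈ A, w v = ∑ v ∈ A, w0 v) ∧
      ∀ Z : Finset V, |∑ v ∈ Z, (w v : ℝ)| ≤
        ∑ e ∈ cut s t Z, if p (s e) = p (t e) ∧ p (s e) ≠ none then om e else lam e := by
  classical
  set W : V → ℤ := fun c => if p c = some c then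
    ∑ v ∈ univ.filter (fun v => p v = some c), w0 v else 0 with hW
  obtain ⟨w, h1, h2, h3, h4, h5⟩ := tower_lam s t om hom K p hp hmin lam hlam hle b W
    (fun c hc => by simp only [hW, if_neg hc]) (by
      have h := sum_label hp w0 h0 (A := univ) (fun u v _ _ => by simp)
      rw [← hs, ← h]) (fun c hc => by
      simp only [hW, if_pos hc]
      have e1 : ∑ v ∈ univ.filter (fun v => p v = some c), w0 v =
          ∑ v ∈ K.filter (fun v => p v = some c), w0 v := by
        symm
        refine sum_subset (filter_subset_filter _ (subset_univ _)) fun v hv hv' => h0 v ?_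
        intro h
        exact hv' (mem_filter.2 ⟨h, (mem_filter.1 hv).2⟩)
      rw [e1, ← sum_sub_distrib]
      exact (even_iff_two_dvd).2 (dvd_sum fun v hv => hpar v (mem_filter.1 hv).1)) (fun A hA => by
      have h := sum_label hp w0 h0 hA
      have h' : ∑ c ∈ A, (W c : ℝ) = ∑ v ∈ A, (w0 v : ℝ) := by exact_mod_cast h
      rw [h']
      exact H A hA)
  refine ⟨w, h1, h2, h3, fun A hA => ?_, h5⟩
  rw [← sum_label hp w h1 hA, ← sum_label hp w0 h0 hA]
  refine sum_congr rfl fun c _ => ?_
  by_cases hc : p c = some c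
  · rw [if_pos hc, if_pos hc, h4 c hc]
    simp only [hW, if_pos hc]
  · rw [if_neg hc, if_neg hc]

end Pool.Agent.Uni3
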