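import Mathlib
import Pool.Agent.Work.MP_392c8e_co.Exact
import Pool.Agent.Work.MP_392c8e_co_uni.TowerST

/-!
# Counting crossing edges

The faces of a cubic rotation are classified.  The number of crossing edges of a component of the
graph of crossing edges is at least three times the number of its classes, up to a constant, plus
the number of vertices with two crossing edges.
-/

namespace Pool.Agent.Uni3

open Finset Pool.Agent.Sub392 Pool.Agent.Circ Module

set_option linter.unusedSectionVars false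

/-- Two orthogonal coboundary spaces. -/
theorem dim_le {T C X : Type*} [Fintype T] [Fintype C] [Fintype X]
    (A : (T → ℚ) →ₗ[ℚ] (X → ℚ)) (B : (C → ℚ) →ₗ[ℚ] (X → ℚ))
    (hA : ∀ φ, A φ = 0 → ∀ a b, φ a = φ b) (hB : ∀ f, B f = 0 → ∀ a b, f a = f b)
    (hAB : ∀ φ f, ∑ x, A φ x * B f x = 0) :
    Fintype.card T + Fintype.card C ≤ Fintype.card X + 2 := by
  classical
  have hker : ∀ {U : Type _} [Fintype U] (L : (U → ℚ) →ₗ[ℚ] (X → ℚ)),
      (∀ φ, L φ = 0 → ∀ a b, φ a = φ b) → finrank ℚ (LinearMap.ker L) ≤ 1 := by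
    intro U _ L hL
    have h1 : LinearMap.ker L ≤ Submodule.span ℚ {fun _ : U => (1 : ℚ)} := by
      intro φ hφ
      rw [LinearMap.mem_ker] at hφ
      rw [Submodule.mem_span_singleton]
      rcases isEmpty_or_nonempty U with hU | ⟨⟨u0⟩⟩
      · exact ⟨0, by ext u; exact (hU.false u).elim⟩
      · refine ⟨φ u0, ?_⟩
        ext u
        simp [hL φ hφ u u0]
    refine (Submodule.finrank_mono h1).trans ?_
    refine (finrank_span_le_card _).trans ?_
    simp
  have h1 := LinearMap.finrank_range_add_finrank_ker A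
  have h2 := LinearMap.finrank_range_add_finrank_ker B
  rw [Module.finrank_fintype_fun_eq_card] at h1 h2
  have h3 := hker A hA
  have h4 : finrank ℚ (LinearMap.ker B) ≤ 1 := by
    have h1 : LinearMap.ker B ≤ Submodule.span ℚ {fun _ : C => (1 : ℚ)} := by
      intro φ hφ
      rw [LinearMap.mem_ker] at hφ
      rw [Submodule.mem_span_singleton]
      rcases isEmpty_or_nonempty C with hU | ⟨⟨u0⟩⟩
      · exact ⟨0, by ext u; exact (hU.false u).elim⟩
      · refine ⟨φ u0, ?_⟩
        ext u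
        simp [hB φ hφ u u0]
    refine (Submodule.finrank_mono h1).trans ?_
    refine (finrank_span_le_card _).trans ?_
    simp
  have hdis : Disjoint (LinearMap.range A) (LinearMap.range B) := by
    rw [Submodule.disjoint_def]
    rintro g ⟨φ, rfl⟩ ⟨f, hf⟩
    have h5 := hAB φ f
    rw [hf] at h5
    have h6 : ∀ x ∈ univ, A φ x * A φ x = 0 :=
      (sum_eq_zero_iff_of_nonneg fun x _ => mul_self_nonneg (A φ x)).1 h5
    ext x
    exact mul_self_eq_zero.1 (h6 x (mem_univ x))
  have h5 := Submodule.finrank_add_finrank_le_of_disjoint hdis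
  rw [Module.finrank_fintype_fun_eq_card] at h5
  omega

variable {V : Type} [Fintype V] [DecidableEq V] {G : SimpleGraph V} [DecidableRel G.Adj]
  {T : Type} [DecidableEq T]

/-- Crossing darts for a classification of the faces. -/
def Cr (R : Rot G) (κ : R.Face → T) (d : G.Dart) : Prop := κ (R.face d) ≠ κ (R.face d.symm)

instance (R : Rot G) (κ : R.Face → T) : DecidablePred (Cr R κ) := fun _ => instDecidableNot

theorem Cr.symm {R : Rot G} {κ : R.Face → T} {d : G.Dart} (h : Cr R κ d) : Cr R κ d.symm := by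
  unfold Cr at h ⊢
  rw [SimpleGraph.Dart.symm_symm]
  exact h.symm

theorem Cr.of_symm {R : Rot G} {κ : R.Face → T} {d : G.Dart} (h : Cr R κ d.symm) : Cr R κ d := by
  have := h.symm
  rwa [SimpleGraph.Dart.symm_symm] at this

/-- `C` is the vertex set of a component of the graph of crossing edges. -/
structure IsComp (R : Rot G) (κ : R.Face → T) (C : Finset V) : Prop where
  closed : ∀ d, Cr R κ d → d.fst ∈ C → d.snd ∈ C
  conn : ∀ f : V → ℚ, (∀ d : G.Dart, Cr R κ d → d.fst ∈ C → f d.fst = f d.snd) →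
    ∀ u ∈ C, ∀ v ∈ C, f u = f v
  touch : ∀ v ∈ C, ∃ d : G.Dart, d.fst = v ∧ Cr R κ d

theorem IsComp.closed' {R : Rot G} {κ : R.Face → T} {C : Finset V} (h : IsComp R κ C)
    {d : G.Dart} (hd : Cr R κ d) : d.fst ∈ C ↔ d.snd ∈ C :=
  ⟨h.closed d hd, fun h' => by
    have := h.closed d.symm hd.symm h'
    exact this⟩

/-- The crossing darts of the component. -/
def crD (R : Rot G) (κ : R.Face → T) (C : Finset V) : Finset G.Dart :=
  univ.filter (fun d => Cr R κ d ∧ d.fst ∈ C)

/-- The classes at the component. -/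
def crT (R : Rot G) (κ : R.Face → T) (C : Finset V) : Finset T :=
  (crD R κ C).image (fun d => κ (R.face d))

/-- The crossing darts at a vertex. -/
def crV (R : Rot G) (κ : R.Face → T) (v : V) : Finset G.Dart :=
  univ.filter (fun d => d.fst = v ∧ Cr R κ d)

theorem face_rot (R : Rot G) (d : G.Dart) : R.face (R.rot d) = R.face d.symm := by
  rw [R.rot_eq, R.face_next]

/-- A function of the faces which agrees along the darts at a vertex is constant there. -/
theorem const_at (R : Rot G) {A : Type*} (F : R.Face → A) (v : V)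
    (h : ∀ d : G.Dart, d.fst = v → F (R.face d) = F (R.face d.symm)) {d d' : G.Dart}
    (hd : d.fst = v) (hd' : d'.fst = v) : F (R.face d) = F (R.face d') := by
  have hz : ∀ (n : ℕ) (a : G.Dart), a.fst = v →
      ((R.rot ^ n) a).fst = v ∧ F (R.face ((R.rot ^ n) a)) = F (R.face a) := by
    intro n
    induction n with
    | zero => intro a ha; exact ⟨ha, rfl⟩
    | succ n ih =>
      intro a ha
      rw [pow_succ, Equiv.Perm.mul_apply]
      have h1 : (R.rot a).fst = v := (R.fst_rot a).trans ha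
      obtain ⟨h2, h3⟩ := ih (R.rot a) h1
      refine ⟨h2, h3.trans ?_⟩
      rw [face_rot, ← h a ha]
  obtain ⟨i, hi⟩ := R.cyc d d' (hd.trans hd'.symm)
  cases i with
  | ofNat n =>
    rw [Int.ofNat_eq_natCast, zpow_natCast] at hi
    rw [← hi, (hz n d hd).2]
  | negSucc n =>
    rw [zpow_negSucc] at hi
    have h1 : d = (R.rot ^ (n + 1)) d' := by
      rw [← hi]
      simp
    rw [h1, (hz (n + 1) d' hd').2]

theorem crV_card_ne_one (R : Rot G) (κ : R.Face → T) (v : V) : (crV R κ v).card ≠ 1 := by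
  intro h
  obtain ⟨d0, hd0⟩ := card_eq_one.1 h
  have h0 := mem_singleton_self d0
  rw [← hd0] at h0
  obtain ⟨-, h1, h2⟩ := mem_filter.1 h0
  let ψ : T → ℚ := fun c => if c = κ (R.face d0) then 1 else 0
  have h3 : ∑ d : G.Dart, (if d.fst = v then ψ (κ (R.face d)) else 0) =
      ∑ d : G.Dart, (if d.fst = v then ψ (κ (R.face d.symm)) else 0) := by
    rw [← Equiv.sum_comp R.rot]
    refine sum_congr rfl fun d _ => ?_
    rw [face_rot, R.fst_rot]
  have h4 : ∑ d : G.Dart, ((if d.fst = v then ψ (κ (R.face d)) else 0) -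
      (if d.fst = v then ψ (κ (R.face d.symm)) else 0)) = 0 := by
    rw [sum_sub_distrib, h3, sub_self]
  rw [sum_eq_single d0] at h4
  · rw [if_pos h1, if_pos h1] at h4
    have h5 : ψ (κ (R.face d0)) = 1 := if_pos rfl
    have h6 : ψ (κ (R.face d0.symm)) = 0 := if_neg fun h' => h2 h'.symm
    rw [h5, h6] at h4
    norm_num at h4
  · intro d _ hd
    by_cases h5 : d.fst = v
    · rw [if_pos h5, if_pos h5]
      have h6 : κ (R.face d) = κ (R.face d.symm) := by
        by_contra hcon
        have h7 : d ∈ crV R κ v := mem_filter.2 ⟨mem_univ d, h5, hcon⟩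
        rw [hd0, mem_singleton] at h7
        exact hd h7
      rw [h6, sub_self]
    · rw [if_neg h5, if_neg h5, sub_self]
  · intro h'
    exact absurd (mem_univ d0) h'

/-- **The rank inequality** for a component. -/
theorem rank_comp (R : Rot G) (κ : R.Face → T) (C : Finset V) (h : IsComp R κ C) :
    2 * (crT R κ C).card + 2 * C.card ≤ (crD R κ C).card + 4 := by
  classical
  let X := {e : Up G // Cr R κ e.1 ∧ e.1.fst ∈ C}
  let T' := {c // c ∈ crT R κ C}
  let C' := {v // v ∈ C}
  have m1 : ∀ d : G.Dart, Cr R κ d → d.fst ∈ C → κ (R.face d) ∈ crT R κ C := fun d h1 h2 =>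
    mem_image.2 ⟨d, mem_filter.2 ⟨mem_univ d, h1, h2⟩, rfl⟩
  have m2 : ∀ d : G.Dart, Cr R κ d → d.fst ∈ C → κ (R.face d.symm) ∈ crT R κ C :=
    fun d h1 h2 => m1 d.symm h1.symm (h.closed d h1 h2)
  let A : (T' → ℚ) →ₗ[ℚ] (X → ℚ) :=
    { toFun := fun φ e => φ ⟨κ (R.face e.1.1), m1 _ e.2.1 e.2.2⟩ -
        φ ⟨κ (R.face e.1.1.symm), m2 _ e.2.1 e.2.2⟩
      map_add' := fun φ ψ => by ext e; simp only [Pi.add_apply]; ring
      map_smul' := fun a φ => by ext e; simp only [Pi.smul_apply, smul_eq_mul, RingHom.id_apply]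
                                 ring }
  let B : (C' → ℚ) →ₗ[ℚ] (X → ℚ) :=
    { toFun := fun f e => f ⟨e.1.1.snd, h.closed _ e.2.1 e.2.2⟩ - f ⟨e.1.1.fst, e.2.2⟩
      map_add' := fun φ ψ => by ext e; simp only [Pi.add_apply]; ring
      map_smul' := fun a φ => by ext e; simp only [Pi.smul_apply, smul_eq_mul, RingHom.id_apply]
                                 ring }
  let ex : (T' → ℚ) → T → ℚ := fun φ c => if hc : c ∈ crT R κ C then φ ⟨c, hc⟩ else 0
  let ey : (C' → ℚ) → V → ℚ := fun f v => if hv : v ∈ C then f ⟨v, hv⟩ else 0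
  have exA : ∀ φ (e : X), A φ e = ex φ (κ (R.face e.1.1)) - ex φ (κ (R.face e.1.1.symm)) := by
    intro φ e
    have e1 : ex φ (κ (R.face e.1.1)) = φ ⟨κ (R.face e.1.1), m1 _ e.2.1 e.2.2⟩ :=
      dif_pos (m1 _ e.2.1 e.2.2)
    have e2 : ex φ (κ (R.face e.1.1.symm)) = φ ⟨κ (R.face e.1.1.symm), m2 _ e.2.1 e.2.2⟩ :=
      dif_pos (m2 _ e.2.1 e.2.2)
    rw [e1, e2]
    rfl
  have eyB : ∀ f (e : X), B f e = ey f e.1.1.snd - ey f e.1.1.fst := by
    intro f e
    have e1 : ey f e.1.1.snd = f ⟨e.1.1.snd, h.closed _ e.2.1 e.2.2⟩ :=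
      dif_pos (h.closed _ e.2.1 e.2.2)
    have e2 : ey f e.1.1.fst = f ⟨e.1.1.fst, e.2.2⟩ := dif_pos e.2.2
    rw [e1, e2]
    rfl
  -- differences vanish on all crossing darts
  have hA0 : ∀ φ, A φ = 0 → ∀ d : G.Dart, d.fst ∈ C →
      ex φ (κ (R.face d)) = ex φ (κ (R.face d.symm)) := by
    intro φ hφ d hd
    by_cases hcr : Cr R κ d
    · rcases up_or d with hu | hu
      · have h1 := exA φ ⟨⟨d, hu⟩, hcr, hd⟩
        rw [hφ, Pi.zero_apply] at h1
        exact (sub_eq_zero.1 h1.symm)
      · have h1 := exA φ ⟨⟨d.symm, hu⟩, hcr.symm, h.closed d hcr hd⟩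
        rw [hφ, Pi.zero_apply] at h1
        have h2 := sub_eq_zero.1 h1.symm
        simp only [SimpleGraph.Dart.symm_symm] at h2
        exact h2.symm
    · have : κ (R.face d) = κ (R.face d.symm) := not_not.1 hcr
      rw [this]
  have hA : ∀ φ, A φ = 0 → ∀ a b, φ a = φ b := by
    intro φ hφ
    let f : V → ℚ := fun v => if hv : ∃ d : G.Dart, d.fst = v then
      ex φ (κ (R.face hv.choose)) else 0
    have hf : ∀ d : G.Dart, d.fst ∈ C → f d.fst = ex φ (κ (R.face d)) := by
      intro d hd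
      have hv : ∃ d' : G.Dart, d'.fst = d.fst := ⟨d, rfl⟩
      have e1 : f d.fst = ex φ (κ (R.face hv.choose)) := dif_pos hv
      rw [e1]
      exact const_at R (fun g => ex φ (κ g)) d.fst
        (fun a ha => hA0 φ hφ a (by rw [ha]; exact hd)) hv.choose_spec rfl
    have hcst := h.conn f (fun d hd hdC => by
      rw [hf d hdC, hA0 φ hφ d hdC]
      exact (hf d.symm (h.closed d hd hdC)).symm)
    rintro ⟨a, ha⟩ ⟨b, hb⟩
    obtain ⟨d, hd, rfl⟩ := mem_image.1 ha
    obtain ⟨d', hd', rfl⟩ := mem_image.1 hb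
    have g1 := (mem_filter.1 hd).2
    have g2 := (mem_filter.1 hd').2
    have e1 : ex φ (κ (R.face d)) = φ ⟨κ (R.face d), ha⟩ := dif_pos ha
    have e2 : ex φ (κ (R.face d')) = φ ⟨κ (R.face d'), hb⟩ := dif_pos hb
    rw [← e1, ← e2, ← hf d g1.2, ← hf d' g2.2]
    exact hcst _ g1.2 _ g2.2
  have hB : ∀ f, B f = 0 → ∀ a b, f a = f b := by
    intro f hf
    have hcst := h.conn (ey f) (fun d hd hdC => by
      rcases up_or d with hu | hu
      · have h1 := eyB f ⟨⟨d, hu⟩, hd, hdC⟩
        rw [hf, Pi.zero_apply] at h1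
        exact (sub_eq_zero.1 h1.symm).symm
      · have h1 := eyB f ⟨⟨d.symm, hu⟩, hd.symm, h.closed d hd hdC⟩
        rw [hf, Pi.zero_apply] at h1
        exact (sub_eq_zero.1 h1.symm))
    rintro ⟨a, ha⟩ ⟨b, hb⟩
    have e1 : ey f a = f ⟨a, ha⟩ := dif_pos ha
    have e2 : ey f b = f ⟨b, hb⟩ := dif_pos hb
    rw [← e1, ← e2]
    exact hcst a ha b hb
  have hAB : ∀ φ f, ∑ x, A φ x * B f x = 0 := by
    intro φ f
    have e1 : ∑ x : X, A φ x * B f x = ∑ e : Up G,
        (ex φ (κ (R.face e.1)) - ex φ (κ (R.face e.1.symm))) *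
          (ey f e.1.snd - ey f e.1.fst) := by
      rw [sum_congr rfl fun x _ => by rw [exA φ x, eyB f x]]
      have e2 := Finset.sum_subtype_of_mem (s := univ.filter
        (fun e : Up G => Cr R κ e.1 ∧ e.1.fst ∈ C)) (p := fun e : Up G => Cr R κ e.1 ∧ e.1.fst ∈ C)
        (fun e : Up G => (ex φ (κ (R.face e.1)) - ex φ (κ (R.face e.1.symm))) *
          (ey f e.1.snd - ey f e.1.fst)) (fun x hx => (mem_filter.1 hx).2)
      have e3 : (univ.filter (fun e : Up G => Cr R κ e.1 ∧ e.1.fst ∈ C)).subtype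
          (fun e : Up G => Cr R κ e.1 ∧ e.1.fst ∈ C) = univ := by
        ext x
        simp [x.2.1, x.2.2]
      rw [e3] at e2
      rw [e2]
      refine sum_subset (subset_univ _) fun e _ he => ?_
      have he' : ¬ (Cr R κ e.1 ∧ e.1.fst ∈ C) := fun h' => he (mem_filter.2 ⟨mem_univ e, h'⟩)
      by_cases hcr : Cr R κ e.1
      · have h1 : e.1.fst ∉ C := fun h' => he' ⟨hcr, h'⟩
        have h2 : e.1.snd ∉ C := fun h' => h1 ((h.closed' hcr).2 h')
        have h3 : ey f e.1.snd = 0 := dif_neg h2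
        have h4 : ey f e.1.fst = 0 := dif_neg h1
        rw [h3, h4, sub_self, mul_zero]
      · have : κ (R.face e.1) = κ (R.face e.1.symm) := not_not.1 hcr
        rw [this, sub_self, zero_mul]
    have e4 : ∑ d : G.Dart, (ex φ (κ (R.face d)) - ex φ (κ (R.face d.symm))) *
          (ey f d.snd - ey f d.fst) = 2 * ∑ x : X, A φ x * B f x := by
      rw [e1, sum_dart, mul_sum]
      refine sum_congr rfl fun e _ => ?_
      rw [SimpleGraph.Dart.symm_symm]
      have : e.1.symm.snd = e.1.fst := rfl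
      have : e.1.symm.fst = e.1.snd := rfl
      simp only [*]
      ring
    have e5 : ∑ d : G.Dart, ex φ (κ (R.face d.symm)) * (ey f d.snd - ey f d.fst) =
        - ∑ d : G.Dart, ex φ (κ (R.face d)) * (ey f d.snd - ey f d.fst) := by
      rw [← sum_neg_distrib, ← Equiv.sum_comp (flip G)]
      refine sum_congr rfl fun d _ => ?_
      have e6 : (flip G d).symm = d := SimpleGraph.Dart.symm_symm d
      have e7 : (flip G d).snd = d.fst := rfl
      have e8 : (flip G d).fst = d.snd := rfl
      rw [e6, e7, e8]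
      ring
    have e6 : ∑ d : G.Dart, ex φ (κ (R.face d)) * (ey f d.snd - ey f d.fst) = 0 := by
      have e7 : ∑ d : G.Dart, ex φ (κ (R.face d)) * ey f d.snd =
          ∑ d : G.Dart, ex φ (κ (R.face d)) * ey f d.fst := by
        rw [← Equiv.sum_comp R.next (fun d : G.Dart => ex φ (κ (R.face d)) * ey f d.fst)]
        refine sum_congr rfl fun d _ => ?_
        rw [R.face_next, R.fst_next]
      rw [sum_congr rfl fun d _ => mul_sub _ _ _, sum_sub_distrib, e7, sub_self]
    have e7 : ∑ d : G.Dart, (ex φ (κ (R.face d)) - ex φ (κ (R.face d.symm))) *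
          (ey f d.snd - ey f d.fst) = 0 := by
      rw [sum_congr rfl fun d _ => sub_mul _ _ _, sum_sub_distrib, e5, e6]
      ring
    rw [e7] at e4
    linarith
  have h1 := dim_le A B hA hB hAB
  have h2 : (crD R κ C).card = 2 * Fintype.card X := by
    have e1 : (crD R κ C).card = ∑ d : G.Dart, if Cr R κ d ∧ d.fst ∈ C then 1 else 0 := by
      unfold crD
      rw [card_filter]
    rw [e1, sum_dart]
    have e2 : Fintype.card X = ∑ e : Up G, if Cr R κ e.1 ∧ e.1.fst ∈ C then 1 else 0 := by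
      rw [Fintype.card_subtype, card_filter]
    rw [e2, mul_sum]
    refine sum_congr rfl fun e _ => ?_
    have e3 : (Cr R κ e.1.symm ∧ e.1.symm.fst ∈ C) ↔ (Cr R κ e.1 ∧ e.1.fst ∈ C) := by
      constructor
      · rintro ⟨g1, g2⟩
        exact ⟨g1.of_symm, (h.closed' g1.of_symm).2 g2⟩
      · rintro ⟨g1, g2⟩
        exact ⟨g1.symm, (h.closed' g1).1 g2⟩
    by_cases g : Cr R κ e.1 ∧ e.1.fst ∈ C
    · rw [if_pos g, if_pos (e3.2 g), mul_one]
    · rw [if_neg g, if_neg fun g' => g (e3.1 g'), mul_zero, add_zero]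
  have h3 : Fintype.card T' = (crT R κ C).card := Fintype.card_coe _
  have h4 : Fintype.card C' = C.card := Fintype.card_coe _
  omega

/-- The vertices of the component with exactly two crossing darts. -/
def crTwo (R : Rot G) (κ : R.Face → T) (C : Finset V) : Finset V :=
  C.filter (fun v => (crV R κ v).card = 2)

/-- **The count.** -/
theorem count_comp (R : Rot G) (hcub : ∀ v, G.degree v = 3) (κ : R.Face → T) (C : Finset V)
    (h : IsComp R κ C) :
    6 * (crT R κ C).card + 2 * (crTwo R κ C).card ≤ (crD R κ C).card + 12 := by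
  classical
  have h1 := rank_comp R κ C h
  have h2 : (crD R κ C).card = ∑ v ∈ C, (crV R κ v).card := by
    have e1 : (crD R κ C).card = ∑ v ∈ C, ((crD R κ C).filter (fun d => d.fst = v)).card :=
      card_eq_sum_card_fiberwise fun d hd => by
        exact (mem_filter.1 hd).2.2
    rw [e1]
    refine sum_congr rfl fun v hv => ?_
    congr 1
    ext d
    simp only [crD, crV, mem_filter, mem_univ, true_and]
    constructor
    · rintro ⟨⟨g1, -⟩, g2⟩
      exact ⟨g2, g1⟩
    · rintro ⟨g1, g2⟩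
      exact ⟨⟨g2, by rw [g1]; exact hv⟩, g1⟩
  have h3 : ∀ v ∈ C, (crV R κ v).card + (if (crV R κ v).card = 2 then 1 else 0) = 3 := by
    intro v hv
    have g1 : (crV R κ v).card ≤ 3 := by
      rw [← hcub v, ← G.dart_fst_fiber_card_eq_degree v]
      refine card_le_card fun d hd => ?_
      exact mem_filter.2 ⟨mem_univ d, (mem_filter.1 hd).2.1⟩
    have g2 := crV_card_ne_one R κ v
    have g3 : 0 < (crV R κ v).card := by
      obtain ⟨d, hd, hd'⟩ := h.touch v hv
      exact card_pos.2 ⟨d, mem_filter.2 ⟨mem_univ d, hd, hd'⟩⟩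
    split_ifs with g4 <;> omega
  have h4 : (crTwo R κ C).card = ∑ v ∈ C, if (crV R κ v).card = 2 then 1 else 0 := by
    unfold crTwo
    rw [card_filter]
  have h5 : (crD R κ C).card + (crTwo R κ C).card = 3 * C.card := by
    rw [h2, h4, ← sum_add_distrib, sum_congr rfl h3, sum_const, smul_eq_mul, mul_comm]
  omega

end Pool.Agent.Uni3
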