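import Mathlib
import Pool.Agent.Work.MP_392c8e_co_uni.Count

/-!
# Counting crossing edges for a labelling of the faces
-/

namespace Pool.Agent.Uni3

open Finset Pool.Agent.Sub392 Pool.Agent.Circ Module

set_option linter.unusedSectionVars false

variable {V : Type} [Fintype V] [DecidableEq V] {G : SimpleGraph V} [DecidableRel G.Adj]

/-- The covered classes at the component. -/
noncomputable def covT (R : Rot G) (p : R.Face → Option R.Face) (C : Finset V) : Finset R.Face :=
  (crT R (qr p) C).filter (fun c => p c ≠ none)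

/-- The uncovered faces at the component. -/
noncomputable def uncT (R : Rot G) (p : R.Face → Option R.Face) (C : Finset V) : Finset R.Face :=
  (crT R (qr p) C).filter (fun c => p c = none)

/-- The crossing darts of the component whose face is covered. -/
noncomputable def covD (R : Rot G) (p : R.Face → Option R.Face) (C : Finset V) : Finset G.Dart :=
  (crD R (qr p) C).filter (fun d => p (R.face d) ≠ none)

theorem qr_none {F : Type*} {p : F → Option F} {z : F} (h : p z = none) : qr p z = z := by
  unfold qr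
  rw [h]
  rfl

theorem qr_some {F : Type*} {p : F → Option F} {z c : F} (h : p z = some c) : qr p z = c := by
  unfold qr
  rw [h]
  rfl

theorem qr_unc {F : Type*} {K : Finset F} {p : F → Option F} (hp : Adm K p) {z : F}
    (h : p (qr p z) = none) : p z = none ∧ qr p z = z := by
  cases h' : p z with
  | none => exact ⟨rfl, qr_none h'⟩
  | some c =>
    rw [qr_some h', (hp.2 z c h').2] at h
    cases h

theorem next_pow (R : Rot G) {d d' : G.Dart} (h : R.face d = R.face d') :
    ∃ n : ℕ, (R.next ^ n) d = d' := by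
  have h1 : R.next.SameCycle d d' := Quotient.exact h
  obtain ⟨n, -, hn⟩ := h1.exists_pow_eq'
  exact ⟨n, hn⟩

/-- All darts of an uncovered face at the component are crossing darts of the component. -/
theorem mem_crD_of_unc (R : Rot G) {K : Finset R.Face} {p : R.Face → Option R.Face}
    (hp : Adm K p) (hnb : ∀ d, p (R.face d) = none → R.face d.symm ≠ R.face d) (C : Finset V)
    (h : IsComp R (qr p) C) {z : R.Face} (hz : z ∈ uncT R p C) {d : G.Dart} (hd : R.face d = z) :
    d ∈ crD R (qr p) C := by
  obtain ⟨hz1, hz2⟩ := mem_filter.1 hz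
  obtain ⟨d0, hd0, hd0'⟩ := mem_image.1 hz1
  have hz3 : p (qr p (R.face d0)) = none := by
    have : qr p (R.face d0) = z := hd0'
    rw [this]
    exact hz2
  obtain ⟨h1, h2⟩ := qr_unc hp hz3
  have h3 : R.face d0 = z := by rw [← h2]; exact hd0'
  have hcr : ∀ d, R.face d = z → Cr R (qr p) d := by
    intro d hd
    unfold Cr
    rw [hd, qr_none hz2]
    intro h4
    have h5 : p (qr p (R.face d.symm)) = none := by rw [← h4]; exact hz2
    obtain ⟨h6, h7⟩ := qr_unc hp h5
    have h8 : R.face d.symm = R.face d := by rw [hd, ← h7, ← h4]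
    exact hnb d (by rw [hd]; exact hz2) h8
  obtain ⟨n, hn⟩ := next_pow R (h3.trans hd.symm)
  have key : ∀ n : ℕ, R.face ((R.next ^ n) d0) = z ∧ ((R.next ^ n) d0).fst ∈ C := by
    intro n
    induction n with
    | zero => exact ⟨h3, (mem_filter.1 hd0).2.2⟩
    | succ n ih =>
      rw [pow_succ', Equiv.Perm.mul_apply]
      refine ⟨by rw [R.face_next]; exact ih.1, ?_⟩
      rw [R.fst_next]
      exact h.closed _ (hcr _ ih.1) ih.2
  rw [← hn]
  exact mem_filter.2 ⟨mem_univ _, hcr _ (key n).1, (key n).2⟩

theorem card_crT (R : Rot G) (p : R.Face → Option R.Face) (C : Finset V) :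
    (crT R (qr p) C).card = (covT R p C).card + (uncT R p C).card := by
  unfold covT uncT
  rw [add_comm]
  exact (card_filter_add_card_filter_not _).symm

theorem card_covD (R : Rot G) {K : Finset R.Face} {p : R.Face → Option R.Face}
    (hp : Adm K p) (hnb : ∀ d, p (R.face d) = none → R.face d.symm ≠ R.face d) (C : Finset V)
    (h : IsComp R (qr p) C) :
    (covD R p C).card + ∑ z ∈ uncT R p C, R.size z = (crD R (qr p) C).card := by
  classical
  have h1 : (crD R (qr p) C).card = (covD R p C).card +
      ((crD R (qr p) C).filter (fun d => ¬ p (R.face d) ≠ none)).card :=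
    (card_filter_add_card_filter_not _).symm
  rw [h1]
  congr 1
  have h2 : ((crD R (qr p) C).filter (fun d => ¬ p (R.face d) ≠ none)).card =
      ∑ z ∈ uncT R p C, (((crD R (qr p) C).filter (fun d => ¬ p (R.face d) ≠ none)).filter
        (fun d => R.face d = z)).card :=
    card_eq_sum_card_fiberwise fun d hd => by
      obtain ⟨g1, g2⟩ := mem_filter.1 hd
      rw [not_not] at g2
      refine mem_filter.2 ⟨mem_image.2 ⟨d, g1, qr_none g2⟩, g2⟩
  rw [h2]
  refine sum_congr rfl fun z hz => ?_
  unfold Rot.size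
  congr 1
  ext d
  simp only [mem_filter, mem_univ, true_and]
  constructor
  · intro g
    exact ⟨⟨mem_crD_of_unc R hp hnb C h hz g, by
      rw [g, not_not]
      exact (mem_filter.1 hz).2⟩, g⟩
  · rintro ⟨-, g⟩
    exact g

/-- **The count for a labelling.** -/
theorem count_cov (R : Rot G) (hcub : ∀ v, G.degree v = 3) {K : Finset R.Face}
    {p : R.Face → Option R.Face} (hp : Adm K p)
    (hnb : ∀ d, p (R.face d) = none → R.face d.symm ≠ R.face d) (C : Finset V)
    (h : IsComp R (qr p) C) :
    6 * (((covT R p C).card : ℝ) - 1) + 2 * (crTwo R (qr p) C).card - 6 +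
      ∑ z ∈ uncT R p C, (6 - (R.size z : ℝ)) ≤ (covD R p C).card := by
  have h1 := count_comp R hcub (qr p) C h
  have h2 := card_crT R p C
  have h3 := card_covD R hp hnb C h
  have h1' : (6 : ℝ) * (crT R (qr p) C).card + 2 * (crTwo R (qr p) C).card ≤
      (crD R (qr p) C).card + 12 := by exact_mod_cast h1
  have h2' : ((crT R (qr p) C).card : ℝ) = (covT R p C).card + (uncT R p C).card := by
    exact_mod_cast h2
  have h3' : ((covD R p C).card : ℝ) + ∑ z ∈ uncT R p C, (R.size z : ℝ) =
      (crD R (qr p) C).card := by exact_mod_cast h3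
  rw [sum_sub_distrib, sum_const, nsmul_eq_mul]
  linarith

/-- The value of `cc` on a crossing edge. -/
theorem cc_of_cr (R : Rot G) {p : R.Face → Option R.Face}
    {d : G.Dart} (hd : Cr R (qr p) d) : cc p (R.face d) (R.face d.symm) =
      (if p (R.face d) ≠ none then 1 else 0) + (if p (R.face d.symm) ≠ none then 1 else 0) := by
  unfold cc
  by_cases h : p (R.face d) = p (R.face d.symm)
  · rw [if_pos h]
    have h1 : p (R.face d) = none := by
      by_contra hne
      obtain ⟨c, hc⟩ := Option.ne_none_iff_exists'.1 hne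
      refine hd ?_
      rw [qr_some hc, qr_some (h ▸ hc)]
    have h2 : p (R.face d.symm) = none := by rw [← h]; exact h1
    simp [h1, h2]
  · rw [if_neg h]
    by_cases h1 : p (R.face d) = none <;> by_cases h2 : p (R.face d.symm) = none <;> simp [h1, h2]

/-- `cc` is zero on the other edges. -/
theorem cc_of_not_cr (R : Rot G) {p : R.Face → Option R.Face}
    (hnb : ∀ d, p (R.face d) = none → R.face d.symm ≠ R.face d) {K : Finset R.Face}
    (hp : Adm K p) {d : G.Dart} (hd : ¬ Cr R (qr p) d) :
    p (R.face d) = p (R.face d.symm) ∧ p (R.face d) ≠ none := by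
  have h : qr p (R.face d) = qr p (R.face d.symm) := not_not.1 hd
  cases h1 : p (R.face d) with
  | none =>
    exfalso
    have h2 : qr p (R.face d.symm) = R.face d := by rw [← h, qr_none h1]
    have h3 : p (qr p (R.face d.symm)) = none := by rw [h2]; exact h1
    obtain ⟨h4, h5⟩ := qr_unc hp h3
    exact hnb d h1 (by rw [← h5, h2])
  | some c =>
    cases h2 : p (R.face d.symm) with
    | none =>
      exfalso
      rw [qr_some h1, qr_none h2] at h
      have h3 := (hp.2 _ c h1).2
      rw [h, h2] at h3
      cases h3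
    | some c' =>
      rw [qr_some h1, qr_some h2] at h
      rw [h]
      exact ⟨rfl, by simp⟩

/-- The crossing darts of the component as a sum over the edges. -/
theorem sum_cc_eq (R : Rot G) {p : R.Face → Option R.Face}
    (C : Finset V) (h : IsComp R (qr p) C) :
    ∑ e : Up G, (if Cr R (qr p) e.1 ∧ e.1.fst ∈ C then
      cc p (R.face e.1) (R.face e.1.symm) else 0) = (covD R p C).card := by
  classical
  have e1 : ((covD R p C).card : ℝ) = ∑ d : G.Dart, if Cr R (qr p) d ∧ d.fst ∈ C then
      (if p (R.face d) ≠ none then (1 : ℝ) else 0) else 0 := by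
    unfold covD crD
    rw [filter_filter, card_filter]
    push_cast
    refine sum_congr rfl fun d _ => ?_
    by_cases g1 : Cr R (qr p) d ∧ d.fst ∈ C <;> by_cases g2 : p (R.face d) = none <;>
      simp [g1, g2]
  rw [e1, sum_dart]
  refine sum_congr rfl fun e _ => ?_
  have e3 : (Cr R (qr p) e.1.symm ∧ e.1.symm.fst ∈ C) ↔ (Cr R (qr p) e.1 ∧ e.1.fst ∈ C) := by
    constructor
    · rintro ⟨g1, g2⟩
      exact ⟨g1.of_symm, (h.closed' g1.of_symm).2 g2⟩
    · rintro ⟨g1, g2⟩
      exact ⟨g1.symm, (h.closed' g1).1 g2⟩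
  by_cases g : Cr R (qr p) e.1 ∧ e.1.fst ∈ C
  · rw [if_pos g, if_pos g, if_pos (e3.2 g), cc_of_cr R g.1]
  · rw [if_neg g, if_neg g, if_neg fun g' => g (e3.1 g'), add_zero]

theorem cc_le_two {F : Type*} [DecidableEq F] (p : F → Option F) (u v : F) :
    cc p u v ≤ 2 := by
  unfold cc
  split_ifs <;> norm_num

theorem cc_nonneg {F : Type*} [DecidableEq F] (p : F → Option F) (u v : F) :
    0 ≤ cc p u v := by
  unfold cc
  split_ifs <;> norm_num

/-- **The weighted count for a component.** -/
theorem count_weight (R : Rot G) (hcub : ∀ v, G.degree v = 3) {K : Finset R.Face}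
    {p : R.Face → Option R.Face} (hp : Adm K p)
    (hnb : ∀ d, p (R.face d) = none → R.face d.symm ≠ R.face d) (C : Finset V)
    (h : IsComp R (qr p) C) (θ : ℝ) (hθ : 0 ≤ θ) (om : Up G → ℝ) (nQ : ℝ)
    (hdef : ∑ e : Up G, (if Cr R (qr p) e.1 ∧ e.1.fst ∈ C then max (θ - om e) 0 else 0) ≤
      θ * nQ) :
    θ * (6 * (((covT R p C).card : ℝ) - 1) + 2 * ((crTwo R (qr p) C).card - nQ) - 6 +
      ∑ z ∈ uncT R p C, (6 - (R.size z : ℝ))) ≤
      ∑ e : Up G, (if Cr R (qr p) e.1 ∧ e.1.fst ∈ C then
        om e * cc p (R.face e.1) (R.face e.1.symm) else 0) := by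
  have h1 := count_cov R hcub hp hnb C h
  have h2 := sum_cc_eq R C h
  have h3 : θ * ∑ e : Up G, (if Cr R (qr p) e.1 ∧ e.1.fst ∈ C then
      cc p (R.face e.1) (R.face e.1.symm) else 0) -
      2 * ∑ e : Up G, (if Cr R (qr p) e.1 ∧ e.1.fst ∈ C then max (θ - om e) 0 else 0) ≤
      ∑ e : Up G, (if Cr R (qr p) e.1 ∧ e.1.fst ∈ C then
        om e * cc p (R.face e.1) (R.face e.1.symm) else 0) := by
    rw [mul_sum, mul_sum, ← sum_sub_distrib]
    refine sum_le_sum fun e _ => ?_
    by_cases g : Cr R (qr p) e.1 ∧ e.1.fst ∈ C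
    · rw [if_pos g, if_pos g, if_pos g]
      have g1 := cc_le_two p (R.face e.1) (R.face e.1.symm)
      have g2 := cc_nonneg p (R.face e.1) (R.face e.1.symm)
      have g3 : θ - om e ≤ max (θ - om e) 0 := le_max_left _ _
      have g4 : 0 ≤ max (θ - om e) 0 := le_max_right _ _
      nlinarith
    · rw [if_neg g, if_neg g, if_neg g]
      simp
  have h4 := mul_le_mul_of_nonneg_left h1 hθ
  rw [h2] at h3
  nlinarith

end Pool.Agent.Uni3
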