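import Mathlib
import Pool.Agent.Work.MP_392c8e_co_uni.Steiner
import Pool.Agent.Work.MP_392c8e_co_uni.Tower

/-!
# Switching at isolated vertices of degree five

`F` is a set of pairwise non-adjacent vertices of degree 5 with small charges.  A bound for the
sets `A` such that at most three of the five edges at each `f ∈ F` leave `A` implies a slightly
weaker bound for all sets.  Second part: the weights which move weight to a vertex of degree 5
with two consecutive Steiner neighbours.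
-/

namespace Pool.Agent.Uni3

open Finset Pool.Agent.Circ Pool.Agent.OddFlow
open scoped symmDiff

set_option linter.unusedSectionVars false

variable {V E : Type*} [Fintype V] [DecidableEq V] [Fintype E] [DecidableEq E]

theorem mem_cut' {s t : E → V} {A : Finset V} {e : E} :
    e ∈ cut s t A ↔ ¬ (s e ∈ A ↔ t e ∈ A) := by
  unfold cut
  rw [mem_filter]
  by_cases h1 : s e ∈ A <;> by_cases h2 : t e ∈ A <;> simp [h1, h2]

/-- The vertices of `F` with at least four of their edges in the cut. -/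
noncomputable def flips (s t : E → V) (F A : Finset V) : Finset V := by
  classical
  exact F.filter fun f => 4 ≤ (cut s t A ∩ cut s t {f}).card

theorem mem_flips {s t : E → V} {F A : Finset V} {f : V} :
    f ∈ flips s t F A ↔ f ∈ F ∧ 4 ≤ (cut s t A ∩ cut s t {f}).card := by
  unfold flips
  rw [mem_filter]

theorem cut_flip {s t : E → V} {F A R : Finset V}
    (hind : ∀ e, s e ≠ t e → ¬ (s e ∈ F ∧ t e ∈ F)) (hR : R ⊆ F) (e : E) :
    e ∈ cut s t (A ∆ R) ↔ ¬ (e ∈ cut s t A ↔ ∃ f ∈ R, e ∈ cut s t {f}) := by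
  have h0 : (∃ f ∈ R, e ∈ cut s t {f}) ↔ s e ≠ t e ∧ (s e ∈ R ∨ t e ∈ R) := by
    constructor
    · rintro ⟨f, hf, hef⟩
      rw [mem_cut'] at hef
      simp only [mem_singleton] at hef
      refine ⟨fun h => hef (by rw [h]), ?_⟩
      by_contra hc
      push Not at hc
      apply hef
      constructor
      · intro h
        exact absurd (h ▸ hf) hc.1
      · intro h
        exact absurd (h ▸ hf) hc.2
    · rintro ⟨hne, h | h⟩
      · refine ⟨s e, h, ?_⟩
        rw [mem_cut']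
        simp only [mem_singleton]
        intro hc
        exact hne (hc.1 trivial).symm
      · refine ⟨t e, h, ?_⟩
        rw [mem_cut']
        simp only [mem_singleton]
        intro hc
        exact hne (hc.2 trivial)
  rw [h0, mem_cut', mem_cut', mem_symmDiff, mem_symmDiff]
  by_cases hne : s e = t e
  · simp [hne]
  · have h1 : ¬ (s e ∈ R ∧ t e ∈ R) := fun h => hind e hne ⟨hR h.1, hR h.2⟩
    by_cases a1 : s e ∈ A <;> by_cases a2 : t e ∈ A <;> by_cases a3 : s e ∈ R <;>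
      by_cases a4 : t e ∈ R <;> simp_all

/-- The stars of two different vertices of `F` are disjoint. -/
theorem star_disj {s t : E → V} {F : Finset V}
    (hind : ∀ e, s e ≠ t e → ¬ (s e ∈ F ∧ t e ∈ F)) {f g : V} (hf : f ∈ F) (hg : g ∈ F)
    {e : E} (he : e ∈ cut s t {f}) (he' : e ∈ cut s t {g}) : f = g := by
  rw [mem_cut'] at he he'
  simp only [mem_singleton] at he he'
  by_contra hne
  by_cases h1 : s e = f
  · by_cases h2 : t e = g
    · refine hind e ?_ ⟨h1 ▸ hf, h2 ▸ hg⟩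
      rw [h1, h2]
      exact hne
    · by_cases h3 : s e = g
      · exact hne (h1.symm.trans h3)
      · exact he' (by simp [h2, h3])
  · by_cases h2 : t e = f
    · by_cases h3 : s e = g
      · refine hind e ?_ ⟨h3 ▸ hg, h2 ▸ hf⟩
        rw [h2, h3]
        exact fun h => hne h.symm
      · by_cases h4 : t e = g
        · exact hne (h2.symm.trans h4)
        · exact he' (by simp [h3, h4])
    · exact he (by simp [h1, h2])

/-- **Switching lemma.**  `om` is the weight of the edges, `θ` at all edges of the vertices of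
`F`.  The edges at `F` get an additional `(1 - 3 θ) / 4`. -/
theorem switch_bound (s t : E → V) (om : E → ℝ) (F : Finset V) (w : V → ℤ) (θ : ℝ)
    (hθ0 : 0 ≤ θ) (hθ : θ ≤ 1 / 3) (hind : ∀ e, s e ≠ t e → ¬ (s e ∈ F ∧ t e ∈ F))
    (h5 : ∀ f ∈ F, (cut s t {f}).card = 5) (hom : ∀ f ∈ F, ∀ e ∈ cut s t {f}, om e = θ)
    (hw : ∀ f ∈ F, |w f| ≤ 1)
    (h : ∀ A : Finset V, (∀ f ∈ F, (cut s t A ∩ cut s t {f}).card ≤ 3) →
      |((∑ v ∈ A, w v : ℤ) : ℝ)| ≤ ∑ e ∈ cut s t A, om e) (A : Finset V) :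
    |((∑ v ∈ A, w v : ℤ) : ℝ)| ≤ ∑ e ∈ cut s t A, om e +
      (1 - 3 * θ) / 4 * ∑ f ∈ F, ((cut s t A ∩ cut s t {f}).card : ℝ) := by
  classical
  set R := flips s t F A with hRdef
  have hRF : R ⊆ F := fun f hf => (mem_flips.1 hf).1
  have hstar : ∀ f ∈ F, ∀ e ∈ cut s t {f}, ∀ g ∈ R, e ∈ cut s t {g} → f = g :=
    fun f hf e he g hg he' => star_disj hind hf (hRF hg) he he'
  -- the new cut at the vertices of `F`
  have hin : ∀ f ∈ R, cut s t (A ∆ R) ∩ cut s t {f} = cut s t {f} \ cut s t A := by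
    intro f hf
    ext e
    rw [mem_inter, mem_sdiff, cut_flip hind hRF]
    constructor
    · rintro ⟨h1, h2⟩
      refine ⟨h2, fun h3 => h1 ⟨fun _ => ⟨f, hf, h2⟩, fun _ => h3⟩⟩
    · rintro ⟨h1, h2⟩
      exact ⟨fun h3 => h2 (h3.2 ⟨f, hf, h1⟩), h1⟩
  have hout : ∀ f ∈ F, f ∉ R → cut s t (A ∆ R) ∩ cut s t {f} = cut s t A ∩ cut s t {f} := by
    intro f hf hfR
    ext e
    rw [mem_inter, mem_inter, cut_flip hind hRF]
    have h3 : e ∈ cut s t {f} → ¬ ∃ g ∈ R, e ∈ cut s t {g} := by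
      rintro h1 ⟨g, hg, h2⟩
      exact hfR (hstar f hf e h1 g hg h2 ▸ hg)
    constructor
    · rintro ⟨h1, h2⟩
      refine ⟨?_, h2⟩
      by_contra h4
      exact h1 ⟨fun h5 => absurd h5 h4, fun h5 => absurd h5 (h3 h2)⟩
    · rintro ⟨h1, h2⟩
      exact ⟨fun h4 => h3 h2 (h4.1 h1), h2⟩
  have hcard : ∀ f ∈ R, (cut s t {f} \ cut s t A).card + (cut s t A ∩ cut s t {f}).card = 5 := by
    intro f hf
    rw [inter_comm, card_sdiff_add_card_inter, h5 f (hRF hf)]
  have h4 : ∀ f ∈ R, 4 ≤ (cut s t A ∩ cut s t {f}).card := fun f hf => (mem_flips.1 hf).2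
  have hA' := h (A ∆ R) (by
    intro f hf
    by_cases hfR : f ∈ R
    · rw [hin f hfR]
      have := hcard f hfR
      have := h4 f hfR
      omega
    · rw [hout f hf hfR]
      by_contra hc
      exact hfR (mem_flips.2 ⟨hf, by omega⟩))
  -- disjointness
  have hdisj : ∀ B : Finset E, ∑ e ∈ (R.biUnion fun f => B ∩ cut s t {f}), om e =
      θ * ∑ f ∈ R, ((B ∩ cut s t {f}).card : ℝ) := by
    intro B
    rw [sum_biUnion, mul_sum]
    · refine sum_congr rfl fun f hf => ?_
      rw [sum_congr rfl fun e he => hom f (hRF hf) e (mem_inter.1 he).2, sum_const, nsmul_eq_mul,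
        mul_comm]
    · intro f hf g hg hne
      rw [Function.onFun, disjoint_left]
      intro e he he'
      exact hne (star_disj hind (hRF hf) (hRF hg) (mem_inter.1 he).2 (mem_inter.1 he').2)
  have hsub : ∀ B : Finset E, (R.biUnion fun f => B ∩ cut s t {f}) ⊆ B := by
    intro B e he
    rw [mem_biUnion] at he
    obtain ⟨f, _, h2⟩ := he
    exact (mem_inter.1 h2).1
  have hcut : ∑ e ∈ cut s t (A ∆ R), om e + θ * ∑ f ∈ R, ((cut s t A ∩ cut s t {f}).card : ℝ) =
      ∑ e ∈ cut s t A, om e +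
        θ * ∑ f ∈ R, ((cut s t {f} \ cut s t A).card : ℝ) := by
    have e1 := sum_sdiff (f := om) (hsub (cut s t (A ∆ R)))
    have e2 := sum_sdiff (f := om) (hsub (cut s t A))
    have e3 : cut s t (A ∆ R) \ (R.biUnion fun f => cut s t (A ∆ R) ∩ cut s t {f}) =
        cut s t A \ (R.biUnion fun f => cut s t A ∩ cut s t {f}) := by
      ext e
      simp only [mem_sdiff, mem_biUnion, mem_inter, not_exists, not_and]
      constructor
      · rintro ⟨h1, h2⟩
        have h3 : ¬ ∃ f ∈ R, e ∈ cut s t {f} := by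
          rintro ⟨f, hf, h3⟩
          exact h2 f hf h1 h3
        rw [cut_flip hind hRF] at h1
        refine ⟨?_, fun f hf _ h5 => h3 ⟨f, hf, h5⟩⟩
        by_contra h5
        exact h1 ⟨fun h6 => absurd h6 h5, fun h6 => absurd h6 h3⟩
      · rintro ⟨h1, h2⟩
        have h3 : ¬ ∃ f ∈ R, e ∈ cut s t {f} := by
          rintro ⟨f, hf, h3⟩
          exact h2 f hf h1 h3
        refine ⟨?_, fun f hf _ h5 => h3 ⟨f, hf, h5⟩⟩
        rw [cut_flip hind hRF]
        exact fun h4 => h3 (h4.1 h1)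
    have e4 : ∑ f ∈ R, ((cut s t (A ∆ R) ∩ cut s t {f}).card : ℝ) =
        ∑ f ∈ R, ((cut s t {f} \ cut s t A).card : ℝ) :=
      sum_congr rfl fun f hf => by rw [hin f hf]
    rw [← e1, ← e2, e3, hdisj, hdisj, e4]
    ring
  -- charges
  have hsum : |(∑ v ∈ A, w v : ℤ)| ≤ |(∑ v ∈ A ∆ R, w v : ℤ)| + R.card := by
    have e1 : (∑ v ∈ A, w v : ℤ) - (∑ v ∈ A ∆ R, w v : ℤ) =
        ∑ v ∈ R, (if v ∈ A then w v else - w v) := by
      have e2 : (∑ v ∈ A, w v : ℤ) = ∑ v, if v ∈ A then w v else 0 := by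
        rw [sum_ite_mem, univ_inter]
      have e3 : (∑ v ∈ A ∆ R, w v : ℤ) = ∑ v, if v ∈ A ∆ R then w v else 0 := by
        rw [sum_ite_mem, univ_inter]
      have e4 : (∑ v ∈ R, (if v ∈ A then w v else - w v)) =
          ∑ v, if v ∈ R then (if v ∈ A then w v else - w v) else 0 := by
        rw [sum_ite_mem, univ_inter]
      rw [e2, e3, e4, ← sum_sub_distrib]
      refine sum_congr rfl fun v _ => ?_
      by_cases h1 : v ∈ A <;> by_cases h2 : v ∈ R <;> simp [mem_symmDiff, h1, h2]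
    have e5 : |∑ v ∈ R, (if v ∈ A then w v else - w v)| ≤ R.card := by
      refine (abs_sum_le_sum_abs _ _).trans ?_
      have : (R.card : ℤ) = ∑ v ∈ R, 1 := by simp
      rw [this]
      refine sum_le_sum fun v hv => ?_
      split_ifs
      · exact hw v (hRF hv)
      · rw [abs_neg]
        exact hw v (hRF hv)
    have e6 : (∑ v ∈ A, w v : ℤ) = (∑ v ∈ A ∆ R, w v : ℤ) +
        ∑ v ∈ R, (if v ∈ A then w v else - w v) := by rw [← e1]; ring
    rw [e6]
    exact (abs_add_le _ _).trans (by linarith)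
  have hsum' : |((∑ v ∈ A, w v : ℤ) : ℝ)| ≤ |((∑ v ∈ A ∆ R, w v : ℤ) : ℝ)| + R.card := by
    exact_mod_cast hsum
  have c1 : ∑ f ∈ R, ((cut s t {f} \ cut s t A).card : ℝ) =
      5 * R.card - ∑ f ∈ R, ((cut s t A ∩ cut s t {f}).card : ℝ) := by
    have : (5 * R.card : ℝ) = ∑ f ∈ R, 5 := by rw [sum_const, nsmul_eq_mul, mul_comm]
    rw [this, ← sum_sub_distrib]
    refine sum_congr rfl fun f hf => ?_
    have := hcard f hf
    have h7 : ((cut s t {f} \ cut s t A).card : ℝ) + ((cut s t A ∩ cut s t {f}).card : ℝ) = 5 := by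
      exact_mod_cast this
    linarith
  have c2 : 4 * (R.card : ℝ) ≤ ∑ f ∈ R, ((cut s t A ∩ cut s t {f}).card : ℝ) := by
    have : (4 * R.card : ℝ) = ∑ f ∈ R, 4 := by rw [sum_const, nsmul_eq_mul, mul_comm]
    rw [this]
    exact sum_le_sum fun f hf => by exact_mod_cast h4 f hf
  have c3 : ∑ f ∈ R, ((cut s t A ∩ cut s t {f}).card : ℝ) ≤
      ∑ f ∈ F, ((cut s t A ∩ cut s t {f}).card : ℝ) :=
    sum_le_sum_of_subset_of_nonneg hRF fun _ _ _ => by positivity
  rw [c1] at hcut
  have c5 := mul_nonneg (by linarith : (0 : ℝ) ≤ (1 + 5 * θ) / 4) (sub_nonneg.2 c2)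
  have c6 := mul_le_mul_of_nonneg_left c3 (by linarith : (0 : ℝ) ≤ (1 - 3 * θ) / 4)
  nlinarith

/-- the edge `e` joins `x` and `y` -/
def Jn (s t : E → V) (e : E) (x y : V) : Prop := (s e = x ∧ t e = y) ∨ (s e = y ∧ t e = x)

theorem Jn.mem_cut {s t : E → V} {e : E} {x y : V} (h : Jn s t e x y) (A : Finset V) :
    e ∈ cut s t A ↔ ¬ (x ∈ A ↔ y ∈ A) := by
  rw [mem_cut']
  rcases h with ⟨rfl, rfl⟩ | ⟨rfl, rfl⟩
  · exact Iff.rfl
  · exact not_congr iff_comm

/-- Vertices `f ∈ F` of degree 5: `h1, h2, a, b, c` are the neighbours in cyclic order, `e1, e2,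
ea, eb, ec` the edges to them, `l12, l2a, lc1` join `h1 h2`, `h2 a`, `c h1`. -/
structure Pents (s t : E → V) (F : Finset V) where
  (h1 h2 a b c : V → V)
  (e1 e2 ea eb ec l12 l2a lc1 : V → E)
  ind : ∀ e, s e ≠ t e → ¬ (s e ∈ F ∧ t e ∈ F)
  star : ∀ f ∈ F, cut s t {f} = {e1 f, e2 f, ea f, eb f, ec f}
  five : ∀ f ∈ F, (cut s t {f}).card = 5
  j1 : ∀ f ∈ F, Jn s t (e1 f) f (h1 f)
  j2 : ∀ f ∈ F, Jn s t (e2 f) f (h2 f)
  ja : ∀ f ∈ F, Jn s t (ea f) f (a f)
  jb : ∀ f ∈ F, Jn s t (eb f) f (b f)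
  jc : ∀ f ∈ F, Jn s t (ec f) f (c f)
  j12 : ∀ f ∈ F, Jn s t (l12 f) (h1 f) (h2 f)
  j2a : ∀ f ∈ F, Jn s t (l2a f) (h2 f) (a f)
  jc1 : ∀ f ∈ F, Jn s t (lc1 f) (c f) (h1 f)
  link_le : ∀ e, (F.filter fun f => e = l12 f).card + (F.filter fun f => e = l2a f).card +
    (F.filter fun f => e = lc1 f).card ≤ 2

/-- Restriction to a subset. -/
def Pents.mono {s t : E → V} {F F' : Finset V} (P : Pents s t F) (h : F' ⊆ F) :
    Pents s t F' where
  h1 := P.h1
  h2 := P.h2
  a := P.a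
  b := P.b
  c := P.c
  e1 := P.e1
  e2 := P.e2
  ea := P.ea
  eb := P.eb
  ec := P.ec
  l12 := P.l12
  l2a := P.l2a
  lc1 := P.lc1
  ind e he hc := P.ind e he ⟨h hc.1, h hc.2⟩
  star f hf := P.star f (h hf)
  five f hf := P.five f (h hf)
  j1 f hf := P.j1 f (h hf)
  j2 f hf := P.j2 f (h hf)
  ja f hf := P.ja f (h hf)
  jb f hf := P.jb f (h hf)
  jc f hf := P.jc f (h hf)
  j12 f hf := P.j12 f (h hf)
  j2a f hf := P.j2a f (h hf)
  jc1 f hf := P.jc1 f (h hf)
  link_le e := (add_le_add (add_le_add (card_le_card (filter_subset_filter _ h))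
    (card_le_card (filter_subset_filter _ h))) (card_le_card (filter_subset_filter _ h))).trans
      (P.link_le e)

/-- indicator -/
noncomputable def one (p : Prop) : ℝ := by
  classical
  exact if p then 1 else 0

theorem one_nonneg (p : Prop) : 0 ≤ one p := by
  unfold one
  split_ifs <;> norm_num

theorem one_pos {p : Prop} (h : p) : one p = 1 := by
  unfold one
  rw [if_pos h]

theorem one_neg {p : Prop} (h : ¬ p) : one p = 0 := by
  unfold one
  rw [if_neg h]

theorem one_mem_cut {s t : E → V} {e : E} {x y : V} (h : Jn s t e x y) (A : Finset V) :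
    one (e ∈ cut s t A) = one (¬ (x ∈ A ↔ y ∈ A)) := by
  rw [h.mem_cut A]

theorem sum_one {ι : Type*} (S : Finset ι) (q : ι → Prop) [DecidablePred q] :
    ∑ i ∈ S, one (q i) = ((S.filter q).card : ℝ) := by
  rw [card_filter]
  push_cast
  refine sum_congr rfl fun i _ => ?_
  by_cases h : q i
  · rw [one_pos h, if_pos h]
  · rw [one_neg h, if_neg h]

variable {s t : E → V} {F : Finset V}

/-- the value of a function of the edges at the five changed edges of `f` -/
noncomputable def Pents.loc (P : Pents s t F) (g : E → ℝ) (f : V) : ℝ :=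
  g (P.ea f) + g (P.ec f) - g (P.l12 f) - g (P.l2a f) - g (P.lc1 f)

/-- the weights: `om` is changed by `u` at the five edges of `Pents.loc` -/
noncomputable def Pents.om (P : Pents s t F) (om : E → ℝ) (u : ℝ) (e : E) : ℝ :=
  om e + u * ∑ f ∈ F, P.loc (fun e' => one (e = e')) f

theorem Pents.sum_om (P : Pents s t F) (om : E → ℝ) (u : ℝ) (g : E → ℝ) :
    ∑ e, P.om om u e * g e = ∑ e, om e * g e + u * ∑ f ∈ F, P.loc g f := by
  have h1 : ∀ e' : E, ∑ e, one (e = e') * g e = g e' := by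
    intro e'
    rw [sum_eq_single e']
    · rw [one_pos rfl, one_mul]
    · intro b _ hb
      rw [one_neg hb, zero_mul]
    · intro h
      exact absurd (mem_univ _) h
  have h2 : ∀ f, ∑ e, P.loc (fun e' => one (e = e')) f * g e = P.loc g f := by
    intro f
    unfold Pents.loc
    simp only [sub_mul, add_mul, sum_sub_distrib, sum_add_distrib, h1]
  unfold Pents.om
  simp only [add_mul, sum_add_distrib, mul_assoc, ← mul_sum]
  congr 2
  simp only [sum_mul]
  rw [sum_comm]
  exact sum_congr rfl fun f _ => h2 f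

theorem Pents.sum_om_cut (P : Pents s t F) (om : E → ℝ) (u : ℝ) (A : Finset V) :
    ∑ e ∈ cut s t A, P.om om u e = ∑ e ∈ cut s t A, om e +
      u * ∑ f ∈ F, P.loc (fun e => one (e ∈ cut s t A)) f := by
  have h1 := P.sum_om om u (fun e => one (e ∈ cut s t A))
  have h2 : ∀ g : E → ℝ, ∑ e, g e * one (e ∈ cut s t A) = ∑ e ∈ cut s t A, g e := by
    intro g
    unfold one
    simp only [mul_ite, mul_one, mul_zero]
    rw [sum_ite_mem, univ_inter]
  rw [← h2, h1, h2]

theorem Pents.om_nonneg (P : Pents s t F) {om : E → ℝ} {u : ℝ} (hu : 0 ≤ u)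
    (hom : ∀ e, 0 ≤ om e)
    (hom' : ∀ f ∈ F, 2 * u ≤ om (P.l12 f) ∧ 2 * u ≤ om (P.l2a f) ∧ 2 * u ≤ om (P.lc1 f)) (e : E) :
    0 ≤ P.om om u e := by
  by_cases hex : ∃ f ∈ F, e = P.l12 f ∨ e = P.l2a f ∨ e = P.lc1 f
  swap
  · push Not at hex
    unfold Pents.om
    have h1 : 0 ≤ ∑ f ∈ F, P.loc (fun e' => one (e = e')) f := by
      refine sum_nonneg fun f hf => ?_
      obtain ⟨h2, h3, h4⟩ := hex f hf
      unfold Pents.loc
      simp only [one_neg h2, one_neg h3, one_neg h4, sub_zero]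
      exact add_nonneg (one_nonneg _) (one_nonneg _)
    have := mul_nonneg hu h1
    linarith [hom e]
  have hθ : 2 * u ≤ om e := by
    obtain ⟨f, hf, h | h | h⟩ := hex
    · rw [h]
      exact (hom' f hf).1
    · rw [h]
      exact (hom' f hf).2.1
    · rw [h]
      exact (hom' f hf).2.2
  have h1 : (F.filter fun f => e = P.l12 f).card + (F.filter fun f => e = P.l2a f).card +
    (F.filter fun f => e = P.lc1 f).card ≤ 2 := P.link_le e
  have h2 : ∀ g : V → E, ∑ f ∈ F, one (e = g f) = ((F.filter fun f => e = g f).card : ℝ) := by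
    intro g
    exact sum_one F _
  have h3 : ∑ f ∈ F, P.loc (fun e' => one (e = e')) f =
      ∑ f ∈ F, one (e = P.ea f) + ∑ f ∈ F, one (e = P.ec f) - ((F.filter fun f => e = P.l12 f).card
        + (F.filter fun f => e = P.l2a f).card + (F.filter fun f => e = P.lc1 f).card : ℝ) := by
    rw [← h2, ← h2, ← h2]
    unfold Pents.loc
    rw [sum_sub_distrib, sum_sub_distrib, sum_sub_distrib, sum_add_distrib]
    ring
  have h4 : (0 : ℝ) ≤ ∑ f ∈ F, one (e = P.ea f) := sum_nonneg fun _ _ => one_nonneg _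
  have h5 : (0 : ℝ) ≤ ∑ f ∈ F, one (e = P.ec f) := sum_nonneg fun _ _ => one_nonneg _
  have h6 : ((F.filter fun f => e = P.l12 f).card
        + (F.filter fun f => e = P.l2a f).card + (F.filter fun f => e = P.lc1 f).card : ℝ) ≤ 2 := by
    exact_mod_cast h1
  have h7 : -2 ≤ ∑ f ∈ F, P.loc (fun e' => one (e = e')) f := by
    rw [h3]
    linarith
  unfold Pents.om
  nlinarith [mul_le_mul_of_nonneg_left h7 hu]

/-- No excess at `f` if one of four edges of `f` is not in the cut. -/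
theorem Pents.loc_cut_le (P : Pents s t F) {f : V} (hf : f ∈ F) {A : Finset V}
    (h : (cut s t A ∩ cut s t {f}).card ≤ 3) :
    P.loc (fun e => one (e ∈ cut s t A)) f ≤ 0 := by
  have hd : ¬ (P.e1 f ∈ cut s t A ∧ P.e2 f ∈ cut s t A ∧ P.ea f ∈ cut s t A ∧
      P.ec f ∈ cut s t A) := by
    rintro ⟨h1, h2, h3, h4⟩
    have h5 : cut s t {f} ⊆ insert (P.eb f) (cut s t A ∩ cut s t {f}) := by
      intro e he
      have he' := he
      rw [P.star f hf] at he'
      simp only [mem_insert, mem_singleton] at he'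
      rw [mem_insert, mem_inter]
      rcases he' with rfl | rfl | rfl | rfl | rfl
      · exact Or.inr ⟨h1, he⟩
      · exact Or.inr ⟨h2, he⟩
      · exact Or.inr ⟨h3, he⟩
      · exact Or.inl rfl
      · exact Or.inr ⟨h4, he⟩
    have h6 := (card_le_card h5).trans (card_insert_le _ _)
    rw [P.five f hf] at h6
    omega
  rw [(P.j1 f hf).mem_cut A, (P.j2 f hf).mem_cut A, (P.ja f hf).mem_cut A,
    (P.jc f hf).mem_cut A] at hd
  unfold Pents.loc
  simp only [one_mem_cut (P.ja f hf), one_mem_cut (P.jc f hf), one_mem_cut (P.j12 f hf),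
    one_mem_cut (P.j2a f hf), one_mem_cut (P.jc1 f hf)]
  by_cases x0 : f ∈ A <;> by_cases x1 : P.h1 f ∈ A <;> by_cases x2 : P.h2 f ∈ A <;>
    by_cases x3 : P.a f ∈ A <;> by_cases x4 : P.c f ∈ A <;>
    simp [x0, x1, x2, x3, x4, one] at hd ⊢

theorem Pents.om_star_le (P : Pents s t F) {om : E → ℝ} {θ u : ℝ} (hu : 0 ≤ u) {f : V}
    (hf : f ∈ F) (hom : ∀ e ∈ cut s t {f}, om e = θ) :
    ∑ e ∈ cut s t {f}, P.om om u e ≤ 5 * θ + 2 * u := by
  rw [P.sum_om_cut, sum_congr rfl hom, sum_const, P.five f hf, nsmul_eq_mul]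
  have h1 : ∑ g ∈ F, P.loc (fun e => one (e ∈ cut s t {f})) g ≤ ∑ g ∈ F, if g = f then 2 else 0 := by
    refine sum_le_sum fun g hg => ?_
    by_cases hgf : g = f
    · rw [if_pos hgf]
      unfold Pents.loc
      have := one_nonneg (P.l12 g ∈ cut s t {f})
      have := one_nonneg (P.l2a g ∈ cut s t {f})
      have := one_nonneg (P.lc1 g ∈ cut s t {f})
      have : ∀ p : Prop, one p ≤ 1 := by
        intro p
        unfold one
        split_ifs <;> norm_num
      have := this (P.ea g ∈ cut s t {f})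
      have h8 : one (P.ec g ∈ cut s t {f}) ≤ 1 := by
        unfold one
        split_ifs <;> norm_num
      linarith
    · rw [if_neg hgf]
      refine P.loc_cut_le hg ?_
      have : cut s t {f} ∩ cut s t {g} = ∅ := by
        rw [← disjoint_iff_inter_eq_empty, disjoint_left]
        intro e he he'
        exact hgf (star_disj P.ind hg hf he' he)
      rw [this]
      simp
  rw [sum_ite_eq', if_pos hf] at h1
  have := mul_le_mul_of_nonneg_left h1 hu
  push_cast
  linarith

/-- **The energy theorem with Steiner vertices and weights at isolated vertices of degree 5.** -/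
theorem exists_chg_switch (P : Pents s t F) {om : E → ℝ} {θ u : ℝ} (hu : 0 ≤ u) (hθ0 : 0 ≤ θ)
    (hθ : 5 * θ + 2 * u < 3) (hθ' : θ ≤ 1 / 3) (hom0 : ∀ e, 0 ≤ om e)
    (hom : ∀ f ∈ F, ∀ e ∈ cut s t {f}, om e = θ)
    (hom' : ∀ f ∈ F, 2 * u ≤ om (P.l12 f) ∧ 2 * u ≤ om (P.l2a f) ∧ 2 * u ≤ om (P.lc1 f))
    {K : Finset V} (hFK : F ⊆ K) (H : SteinerCond s t (P.om om u) K) (b : V → ℤ)
    (hb : Even (∑ v ∈ K, b v)) (hbF : ∀ f ∈ F, Odd (b f)) :
    ∃ w : V → ℤ, (∀ v, v ∉ K → w v = 0) ∧ (∀ v ∈ K, (2 : ℤ) ∣ w v - b v) ∧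
      (∑ v, w v = 0) ∧ (∀ f ∈ F, |w f| = 1) ∧
      ∀ Z : Finset V, |((∑ v ∈ Z, w v : ℤ) : ℝ)| ≤ ∑ e ∈ cut s t Z, om e +
        (1 - 3 * θ) / 4 * ∑ f ∈ F, ((cut s t Z ∩ cut s t {f}).card : ℝ) := by
  obtain ⟨w, h1, h2, h3, h4⟩ :=
    exists_chg_steiner s t (P.om om u) (P.om_nonneg hu hom0 hom') K H b hb
  have hw : ∀ f ∈ F, |w f| = 1 := by
    intro f hf
    have h5 := h4 {f}
    rw [sum_singleton] at h5
    have h6 : |(w f : ℝ)| < 3 := by
      have := P.om_star_le hu hf (hom f hf)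
      linarith
    have h7 : |w f| < 3 := by exact_mod_cast h6
    have h8 : Odd (w f) := by
      obtain ⟨k, hk⟩ := h2 f (hFK hf)
      obtain ⟨l, hl⟩ := hbF f hf
      exact ⟨k + l, by linarith⟩
    obtain ⟨k, hk⟩ := h8
    rw [abs_lt] at h7
    rcases abs_cases (w f) with ⟨h9, _⟩ | ⟨h9, _⟩ <;> rw [h9] <;> omega
  refine ⟨w, h1, h2, h3, hw, ?_⟩
  refine switch_bound s t om F w θ hθ0 hθ' P.ind P.five hom (fun f hf => (hw f hf).le) ?_
  intro A hA
  refine (h4 A).trans ?_
  rw [P.sum_om_cut]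
  have h5 : ∑ f ∈ F, P.loc (fun e => one (e ∈ cut s t A)) f ≤ 0 :=
    sum_nonpos fun f hf => P.loc_cut_le hf (hA f hf)
  have := mul_nonpos_of_nonneg_of_nonpos hu h5
  linarith

/-- The stars of the vertices of `F` are disjoint, so the additional weight is at most
`(1 - 3 θ) / 4` times the size of the cut. -/
theorem sum_star_le {s t : E → V} {F : Finset V}
    (hind : ∀ e, s e ≠ t e → ¬ (s e ∈ F ∧ t e ∈ F)) (A : Finset V) :
    ∑ f ∈ F, ((cut s t A ∩ cut s t {f}).card : ℝ) ≤ (cut s t A).card := by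
  have h1 : ∑ f ∈ F, (cut s t A ∩ cut s t {f}).card =
      (F.biUnion fun f => cut s t A ∩ cut s t {f}).card := by
    rw [card_biUnion]
    intro f hf g hg hne
    rw [Function.onFun, disjoint_left]
    intro e he he'
    exact hne (star_disj hind hf hg (mem_inter.1 he).2 (mem_inter.1 he').2)
  have h2 : (F.biUnion fun f => cut s t A ∩ cut s t {f}).card ≤ (cut s t A).card := by
    refine card_le_card fun e he => ?_
    rw [mem_biUnion] at he
    obtain ⟨f, _, h2⟩ := he
    exact (mem_inter.1 h2).1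
  rw [← h1] at h2
  exact_mod_cast h2

theorem cc_jn {s t : E → V} {e : E} {x y : V} (h : Jn s t e x y) (p : V → Option V) :
    cc p (s e) (t e) = cc p x y := by
  rcases h with ⟨rfl, rfl⟩ | ⟨rfl, rfl⟩
  · rfl
  · unfold cc
    by_cases h1 : p (s e) = p (t e)
    · simp [h1]
    · have h2 : ¬ p (t e) = p (s e) := fun h => h1 h.symm
      simp only [h1, h2, if_false]
      exact add_comm _ _

/-- The gain at `f` when `h1, h2` are uncovered and `a`, `c` are not in the class of `f`. -/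
theorem Pents.loc_cc_gain (P : Pents s t F) {f : V} (hf : f ∈ F) {p : V → Option V}
    (h1 : p (P.h1 f) = none) (h2 : p (P.h2 f) = none) (h3 : p f ≠ none)
    (h6 : p f ≠ p (P.a f)) (h7 : p f ≠ p (P.c f)) :
    P.loc (fun e => cc p (s e) (t e)) f = 2 := by
  unfold Pents.loc
  simp only [cc_jn (P.ja f hf), cc_jn (P.jc f hf), cc_jn (P.j12 f hf), cc_jn (P.j2a f hf),
    cc_jn (P.jc1 f hf)]
  unfold cc
  rw [h1, h2]
  by_cases h4 : p (P.a f) = none <;> by_cases h5 : p (P.c f) = none <;>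
    simp_all [eq_comm] <;> norm_num

theorem cc_mem {p : V → Option V} {x y : V} : 0 ≤ cc p x y ∧ cc p x y ≤ 2 := by
  unfold cc
  split_ifs <;> norm_num

theorem Pents.loc_cc_ge (P : Pents s t F) {f : V} {p : V → Option V} :
    -6 ≤ P.loc (fun e => cc p (s e) (t e)) f := by
  unfold Pents.loc
  have h1 := cc_mem (p := p) (x := s (P.ea f)) (y := t (P.ea f))
  have h2 := cc_mem (p := p) (x := s (P.ec f)) (y := t (P.ec f))
  have h3 := cc_mem (p := p) (x := s (P.l12 f)) (y := t (P.l12 f))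
  have h4 := cc_mem (p := p) (x := s (P.l2a f)) (y := t (P.l2a f))
  have h5 := cc_mem (p := p) (x := s (P.lc1 f)) (y := t (P.lc1 f))
  linarith [h1.1, h2.1, h3.2, h4.2, h5.2]

/-- Dropping places. -/
theorem Pents.mono_om (P : Pents s t F) {F' : Finset V} (h : F' ⊆ F) (om : E → ℝ) (u : ℝ)
    (e : E) : P.om om u e = (P.mono h).om om u e +
      u * ∑ f ∈ F \ F', P.loc (fun e' => one (e = e')) f := by
  unfold Pents.om
  rw [← sum_sdiff h]
  change _ = om e + u * ∑ f ∈ F', P.loc (fun e' => one (e = e')) f + _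
  ring

theorem Pents.sum_mono_om (P : Pents s t F) {F' : Finset V} (h : F' ⊆ F) (om : E → ℝ) (u : ℝ)
    (g : E → ℝ) : ∑ e, P.om om u e * g e = ∑ e, (P.mono h).om om u e * g e +
      u * ∑ f ∈ F \ F', P.loc g f := by
  rw [P.sum_om, (P.mono h).sum_om, ← sum_sdiff h]
  change _ = ∑ e, om e * g e + u * ∑ f ∈ F', P.loc g f + _
  ring

/-- `loc` of a family is at most 2 except if `h1, h2, a, c` are in one class and `f` in a
different one. -/
theorem Pents.loc_cc_le (P : Pents s t F) {f : V} (hf : f ∈ F) {p : V → Option V}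
    (h : ¬ (p f ≠ none ∧ p (P.a f) ≠ none ∧ p f ≠ p (P.a f) ∧ p (P.h1 f) = p (P.a f) ∧
      p (P.h2 f) = p (P.a f) ∧ p (P.c f) = p (P.a f))) :
    P.loc (fun e => cc p (s e) (t e)) f ≤ 2 := by
  unfold Pents.loc
  simp only [cc_jn (P.ja f hf), cc_jn (P.jc f hf), cc_jn (P.j12 f hf), cc_jn (P.j2a f hf),
    cc_jn (P.jc1 f hf)]
  unfold cc
  by_cases y0 : p f = none <;> by_cases y1 : p (P.h1 f) = none <;>
  by_cases y2 : p (P.h2 f) = none <;> by_cases y3 : p (P.a f) = none <;>
  by_cases y4 : p (P.c f) = none <;>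
  by_cases z1 : p f = p (P.a f) <;> by_cases z2 : p f = p (P.c f) <;>
  by_cases z3 : p (P.h1 f) = p (P.h2 f) <;> by_cases z4 : p (P.h2 f) = p (P.a f) <;>
  by_cases z5 : p (P.c f) = p (P.h1 f) <;>
  simp_all <;> norm_num

/-- the class of `f` is merged with the class of `g` -/
noncomputable def mrg (p : V → Option V) (f g : V) (v : V) : Option V := by
  classical
  exact if p v = p f then p g else p v

theorem adm_mrg {K : Finset V} {p : V → Option V} (hp : Adm K p) {f g : V} (hg : p g ≠ none) :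
    Adm K (mrg p f g) := by
  classical
  constructor
  · intro v hv
    unfold mrg
    split_ifs
    · exact hg
    · exact hp.1 v hv
  · intro v c hvc
    unfold mrg at hvc ⊢
    split_ifs at hvc with h1
    · obtain ⟨h2, h3⟩ := hp.2 g c hvc
      refine ⟨h2, ?_⟩
      split_ifs
      · exact hvc
      · exact h3
    · obtain ⟨h2, h3⟩ := hp.2 v c hvc
      refine ⟨h2, ?_⟩
      rw [if_neg]
      · exact h3
      · intro h4
        exact h1 (by rw [hvc, ← h3, h4])

theorem image_mrg {K : Finset V} {p : V → Option V} (hp : Adm K p) {f g : V} (hf : p f ≠ none)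
    (hg : p g ≠ none) (hfg : p f ≠ p g) :
    ((K.image (mrg p f g)).card : ℝ) = (K.image p).card - 1 := by
  classical
  have h1 : K.image (mrg p f g) = (K.image p).erase (p f) := by
    ext y
    rw [mem_image, mem_erase, mem_image]
    constructor
    · rintro ⟨v, hv, rfl⟩
      unfold mrg
      split_ifs with h2
      · obtain ⟨c, hc⟩ := Option.ne_none_iff_exists'.1 hg
        obtain ⟨h3, h4⟩ := hp.2 g c hc
        exact ⟨fun h => hfg h.symm, c, h3, by rw [h4, hc]⟩
      · exact ⟨h2, v, hv, rfl⟩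
    · rintro ⟨h2, v, hv, rfl⟩
      refine ⟨v, hv, ?_⟩
      unfold mrg
      rw [if_neg h2]
  have h5 : p f ∈ K.image p := by
    obtain ⟨c, hc⟩ := Option.ne_none_iff_exists'.1 hf
    obtain ⟨h3, h4⟩ := hp.2 f c hc
    exact mem_image.2 ⟨c, h3, by rw [h4, hc]⟩
  rw [h1, card_erase_of_mem h5, Nat.cast_sub (card_pos.2 ⟨_, h5⟩)]
  simp

theorem cc_mrg_le {p : V → Option V} {f g : V} (hf : p f ≠ none) (hg : p g ≠ none) (x y : V) :
    cc (mrg p f g) x y ≤ cc p x y := by
  classical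
  unfold cc mrg
  by_cases h1 : p x = p f <;> by_cases h2 : p y = p f <;> by_cases h3 : p x = p y <;>
    by_cases h4 : p x = none <;> by_cases h5 : p y = none <;>
    by_cases h6 : p g = p y <;> by_cases h7 : p x = p g <;> simp_all

/-- In a minimiser no class contains `h1, h2, a, c` but not `f`. -/
theorem Pents.no_exc (P : Pents s t F) {om : E → ℝ} (hom0 : ∀ e, 0 ≤ om e) {θ : ℝ}
    (hθ : 1 / 4 < θ) {K : Finset V} {q : V → Option V} (hq : Adm K q)
    (hmin : ∀ q', Adm K q' → phi s t om K q ≤ phi s t om K q') {f : V} (hf : f ∈ F)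
    (hom : ∀ e ∈ cut s t {f}, om e = θ) :
    ¬ (q f ≠ none ∧ q (P.a f) ≠ none ∧ q f ≠ q (P.a f) ∧ q (P.h1 f) = q (P.a f) ∧
      q (P.h2 f) = q (P.a f) ∧ q (P.c f) = q (P.a f)) := by
  classical
  rintro ⟨h1, h2, h3, h4, h5, h6⟩
  have h7 := hmin _ (adm_mrg hq (f := f) h2)
  unfold phi at h7
  rw [image_mrg hq h1 h2 h3] at h7
  -- the four spokes
  set S : Finset E := {P.e1 f, P.e2 f, P.ea f, P.ec f} with hS
  have hSc : 4 ≤ S.card := by
    have h8 : cut s t {f} ⊆ insert (P.eb f) S := by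
      rw [P.star f hf]
      intro e he
      simp only [hS, mem_insert, mem_singleton] at he ⊢
      tauto
    have h9 := (card_le_card h8).trans (card_insert_le _ _)
    rw [P.five f hf] at h9
    omega
  have hSsub : S ⊆ cut s t {f} := by
    rw [P.star f hf]
    intro e he
    simp only [hS, mem_insert, mem_singleton] at he ⊢
    tauto
  have hval : ∀ x, q x = q (P.a f) → ∀ e, Jn s t e f x →
      cc q (s e) (t e) = 2 ∧ cc (mrg q f (P.a f)) (s e) (t e) = 0 := by
    intro x hx e he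
    rw [cc_jn he, cc_jn he]
    unfold cc mrg
    have h3' : ¬ q (P.a f) = q f := fun h => h3 h.symm
    simp only [hx, h3, h3', h1, h2, if_false, if_true]
    norm_num
  have h8 : ∀ e ∈ S, om e * cc (mrg q f (P.a f)) (s e) (t e) + 2 * θ = om e * cc q (s e) (t e) := by
    intro e he
    have h9 : om e = θ := hom e (hSsub he)
    have h10 : cc q (s e) (t e) = 2 ∧ cc (mrg q f (P.a f)) (s e) (t e) = 0 := by
      simp only [hS, mem_insert, mem_singleton] at he
      rcases he with rfl | rfl | rfl | rfl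
      · exact hval _ h4 _ (P.j1 f hf)
      · exact hval _ h5 _ (P.j2 f hf)
      · exact hval _ rfl _ (P.ja f hf)
      · exact hval _ h6 _ (P.jc f hf)
    rw [h10.1, h10.2, h9]
    ring
  have h11 : ∑ e, om e * cc (mrg q f (P.a f)) (s e) (t e) + S.card * (2 * θ) ≤
      ∑ e, om e * cc q (s e) (t e) := by
    rw [← sum_sdiff (subset_univ S), ← sum_sdiff (subset_univ S)
      (f := fun e => om e * cc q (s e) (t e)), ← sum_congr rfl h8, sum_add_distrib, sum_const,
      nsmul_eq_mul]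
    have : ∑ e ∈ univ \ S, om e * cc (mrg q f (P.a f)) (s e) (t e) ≤
        ∑ e ∈ univ \ S, om e * cc q (s e) (t e) :=
      sum_le_sum fun e _ => mul_le_mul_of_nonneg_left (cc_mrg_le h1 h2 _ _) (hom0 e)
    linarith
  have h12 : (4 : ℝ) ≤ S.card := by exact_mod_cast hSc
  nlinarith

/-- **The drop rule.**  If `p` minimises `phi` for the weights of `P`, then it minimises `phi` also
for the weights without the places of `D`, if every place of `D` has the full gain in `p`. -/
theorem Pents.drop (P : Pents s t F) {om : E → ℝ} {θ u : ℝ} (hu : 0 ≤ u) (hθ : 1 / 4 < θ)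
    (hom0 : ∀ e, 0 ≤ om e) (hom : ∀ f ∈ F, ∀ e ∈ cut s t {f}, om e = θ)
    (hom' : ∀ f ∈ F, 2 * u ≤ om (P.l12 f) ∧ 2 * u ≤ om (P.l2a f) ∧ 2 * u ≤ om (P.lc1 f))
    {K : Finset V} (hFK : F ⊆ K) {p : V → Option V} (hp : Adm K p)
    (hmin : ∀ q, Adm K q → phi s t (P.om om u) K p ≤ phi s t (P.om om u) K q)
    {F' : Finset V} (hF' : F' ⊆ F)
    (hD : ∀ f ∈ F, f ∉ F' → p (P.h1 f) = none ∧ p (P.h2 f) = none ∧ p f ≠ p (P.a f) ∧
      p f ≠ p (P.c f)) :
    ∀ q, Adm K q → phi s t ((P.mono hF').om om u) K p ≤ phi s t ((P.mono hF').om om u) K q := by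
  classical
  have hphi : ∀ q, phi s t (P.om om u) K q = phi s t ((P.mono hF').om om u) K q +
      u * ∑ f ∈ F \ F', P.loc (fun e => cc q (s e) (t e)) f := by
    intro q
    unfold phi
    rw [P.sum_mono_om hF' om u]
    ring
  obtain ⟨q0, hq0, hq0m⟩ := exists_min_image (univ.filter fun q => Adm K q)
    (fun q => phi s t ((P.mono hF').om om u) K q) ⟨p, mem_filter.2 ⟨mem_univ _, hp⟩⟩
  have hq0' : Adm K q0 := (mem_filter.1 hq0).2
  have hq0m' : ∀ q, Adm K q → phi s t ((P.mono hF').om om u) K q0 ≤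
      phi s t ((P.mono hF').om om u) K q := fun q hq => hq0m q (mem_filter.2 ⟨mem_univ _, hq⟩)
  intro q hq
  refine le_trans ?_ (hq0m' q hq)
  have hsp : ∀ f ∈ F \ F', ∀ e ∈ cut s t {f}, (P.mono hF').om om u e = θ := by
    intro f hf e he
    obtain ⟨hfF, hfF'⟩ := mem_sdiff.1 hf
    have h1 : ∀ g ∈ F', P.loc (fun e' => one (e = e')) g = 0 := by
      intro g hg
      have hgF := hF' hg
      have hne : f ≠ g := fun h => hfF' (h ▸ hg)
      -- an edge at `f` has one end in `F`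
      have h2 : ∀ e', e' ∈ cut s t {g} → e ≠ e' := by
        rintro e' he' rfl
        exact hne (star_disj P.ind hfF hgF he he')
      -- neighbours of `g` are not in `F`
      have h3 : ∀ x e', Jn s t e' g x → g ≠ x → x ∉ F := by
        intro x e' hj hgx hx
        rcases hj with ⟨rfl, rfl⟩ | ⟨rfl, rfl⟩
        · exact P.ind e' hgx ⟨hgF, hx⟩
        · exact P.ind e' (Ne.symm hgx) ⟨hx, hgF⟩
      have h4 : ∀ x e', Jn s t e' g x → e' ∈ cut s t {g} → g ≠ x := by
        rintro x e' hj hc rfl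
        rw [hj.mem_cut] at hc
        simp at hc
      have hs : ∀ e' ∈ ({P.e1 g, P.e2 g, P.ea g, P.eb g, P.ec g} : Finset E),
          e' ∈ cut s t {g} := by
        intro e' he'
        rw [P.star g hgF]
        exact he'
      have n1 : P.h1 g ∉ F := h3 _ _ (P.j1 g hgF) (h4 _ _ (P.j1 g hgF) (hs _ (by simp)))
      have n2 : P.h2 g ∉ F := h3 _ _ (P.j2 g hgF) (h4 _ _ (P.j2 g hgF) (hs _ (by simp)))
      have na : P.a g ∉ F := h3 _ _ (P.ja g hgF) (h4 _ _ (P.ja g hgF) (hs _ (by simp)))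
      have nc : P.c g ∉ F := h3 _ _ (P.jc g hgF) (h4 _ _ (P.jc g hgF) (hs _ (by simp)))
      have h5 : ∀ x y e', Jn s t e' x y → x ∉ F → y ∉ F → e ≠ e' := by
        rintro x y e' hj hx hy rfl
        rw [hj.mem_cut] at he
        have hx' : x ≠ f := fun h => hx (h ▸ hfF)
        have hy' : y ≠ f := fun h => hy (h ▸ hfF)
        simp [hx', hy'] at he
      unfold Pents.loc
      beta_reduce
      rw [one_neg (h2 _ (hs _ (by simp))), one_neg (h2 _ (hs _ (by simp))),
        one_neg (h5 _ _ _ (P.j12 g hgF) n1 n2), one_neg (h5 _ _ _ (P.j2a g hgF) n2 na),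
        one_neg (h5 _ _ _ (P.jc1 g hgF) nc n1)]
      norm_num
    unfold Pents.om
    have h6 : ∑ g ∈ F', (P.mono hF').loc (fun e' => one (e = e')) g = 0 :=
      sum_eq_zero fun g hg => h1 g hg
    rw [h6, mul_zero, add_zero]
    exact hom f hfF e he
  have hom'' : ∀ e, 0 ≤ (P.mono hF').om om u e :=
    (P.mono hF').om_nonneg hu hom0 fun f hf => hom' f (hF' hf)
  have hle : ∀ f ∈ F \ F', P.loc (fun e => cc q0 (s e) (t e)) f ≤ 2 := by
    intro f hf
    refine P.loc_cc_le (mem_sdiff.1 hf).1 ?_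
    exact P.no_exc hom'' hθ hq0' hq0m' (mem_sdiff.1 hf).1 (hsp f hf)
  have heq : ∀ f ∈ F \ F', P.loc (fun e => cc p (s e) (t e)) f = 2 := by
    intro f hf
    obtain ⟨hfF, hfF'⟩ := mem_sdiff.1 hf
    obtain ⟨h1, h2, h3, h4⟩ := hD f hfF hfF'
    exact P.loc_cc_gain hfF h1 h2 (hp.1 f (hFK hfF)) h3 h4
  have h1 := hmin q0 hq0'
  rw [hphi, hphi] at h1
  have h2 : ∑ f ∈ F \ F', P.loc (fun e => cc q0 (s e) (t e)) f ≤
      ∑ f ∈ F \ F', P.loc (fun e => cc p (s e) (t e)) f :=
    sum_le_sum fun f hf => by rw [heq f hf]; exact hle f hf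
  have h3 := mul_le_mul_of_nonneg_left h2 hu
  linarith

/-- The Steiner condition for the weights `P.om`. -/
theorem Pents.steinerCond (P : Pents s t F) (om : E → ℝ) (u : ℝ) (K : Finset V)
    (h : ∀ p : V → Option V, (∀ v ∈ K, p v ≠ none) →
      (∀ v c, p v = some c → c ∈ K ∧ p c = some c) →
      2 * (((K.image p).card : ℝ) - 1) ≤ ∑ e, om e * cc p (s e) (t e) +
        u * ∑ f ∈ F, P.loc (fun e => cc p (s e) (t e)) f) :
    SteinerCond s t (P.om om u) K := by
  intro p hp1 hp2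
  rw [P.sum_om]
  exact h p hp1 hp2

end Pool.Agent.Uni3
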