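import Mathlib
import Pool.Agent.Work.MP_392c8e_co_uni.Switch7
import Pool.Agent.Work.MP_392c8e_co_t1.FaceBase

/-!
# Isolated faces of length five with two consecutive hexagons

The places of `Switch7` in a cubic graph given by a rotation.
-/

namespace Pool.Agent.Uni3

open Finset Pool.Agent.Circ Pool.Agent.OddFlow Pool.Agent.Sub392 Pool.Agent.T392

set_option linter.unusedSectionVars false

variable {V : Type} [Fintype V] [DecidableEq V] {G : SimpleGraph V} [DecidableRel G.Adj]

/-- The edge of a dart. -/
noncomputable def eu (d : G.Dart) : Up G := by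
  classical
  exact if h : (Fintype.equivFin V d.fst : ℕ) < Fintype.equivFin V d.snd then ⟨d, h⟩
    else ⟨d.symm, (up_or d).resolve_left h⟩

theorem eu_or (d : G.Dart) : (eu d).1 = d ∨ (eu d).1 = d.symm := by
  unfold eu
  split_ifs
  · exact Or.inl rfl
  · exact Or.inr rfl

theorem eu_up (e : Up G) : eu e.1 = e := by
  unfold eu
  rw [dif_pos e.2]
  rfl

theorem eu_symm (d : G.Dart) : eu d.symm = eu d := by
  have h1 : ∀ x y : Up G, x.1 = y.1.symm → False := by
    intro x y h
    have h2 := x.2
    have h3 := y.2
    rw [h] at h2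
    have h4 : (Fintype.equivFin V y.1.snd : ℕ) < Fintype.equivFin V y.1.fst := h2
    omega
  rcases eu_or d with h | h <;> rcases eu_or d.symm with h' | h'
  · exact absurd (h1 (eu d.symm) (eu d) (by rw [h', h])) id
  · rw [SimpleGraph.Dart.symm_symm] at h'
    exact Subtype.ext (h'.trans h.symm)
  · exact Subtype.ext (h'.trans h.symm)
  · rw [SimpleGraph.Dart.symm_symm] at h'
    exact absurd (h1 (eu d) (eu d.symm) (by rw [h', h])) id

theorem eu_eq_iff {d d' : G.Dart} : eu d = eu d' ↔ d' = d ∨ d' = d.symm := by
  constructor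
  · intro h
    rcases eu_or d with h1 | h1 <;> rcases eu_or d' with h2 | h2
    · left
      rw [← h1, ← h2, h]
    · right
      rw [← h, h1] at h2
      rw [h2, SimpleGraph.Dart.symm_symm]
    · right
      rw [← h, h1] at h2
      exact h2.symm
    · left
      rw [← h, h1] at h2
      have := congrArg SimpleGraph.Dart.symm h2
      rw [SimpleGraph.Dart.symm_symm, SimpleGraph.Dart.symm_symm] at this
      exact this.symm
  · rintro (rfl | rfl)
    · rfl
    · rw [eu_symm]

variable (R : Rot G)

/-- source and target of an edge in the dual multigraph -/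
noncomputable def fs (e : Up G) : R.Face := R.face e.1

/-- source and target of an edge in the dual multigraph -/
noncomputable def ft (e : Up G) : R.Face := R.face e.1.symm

theorem jn_eu (d : G.Dart) : Jn (fs R) (ft R) (eu d) (R.face d) (R.face d.symm) := by
  unfold Jn fs ft
  rcases eu_or d with h | h
  · left
    rw [h]
    exact ⟨rfl, rfl⟩
  · right
    rw [h, SimpleGraph.Dart.symm_symm]
    exact ⟨rfl, rfl⟩

/-- The third dart at the end of `d`. -/
def third (d : G.Dart) : G.Dart := R.rot (R.next d)

variable {R}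

theorem jn_third {d : G.Dart} (h : G.degree d.snd = 3) :
    Jn (fs R) (ft R) (eu (third R d)) (R.face d.symm) (R.face (R.next d).symm) := by
  have h1 := jn_eu R (third R d)
  have h2 : R.face (third R d) = R.face (R.next d).symm := R.face_rot _
  have h3 : R.face (third R d).symm = R.face d.symm := by
    rw [← R.face_next (third R d).symm]
    congr 1
    show R.rot ((third R d).symm).symm = d.symm
    rw [SimpleGraph.Dart.symm_symm]
    unfold third
    have h4 : R.rot (R.rot (R.rot d.symm)) = d.symm := rot_three R (d := d.symm) h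
    exact h4
  rw [h2, h3] at h1
  rcases h1 with h1 | h1
  · exact Or.inr h1
  · exact Or.inl h1

theorem third_inj {d d' : G.Dart} (h : third R d = third R d') : d = d' :=
  R.next.injective (R.rot.injective h)

/-- A face of length five, not adjacent to faces of length five, with two consecutive
hexagons: across `d` and across the next dart. -/
structure L7 (R : Rot G) (d : G.Dart) : Prop where
  five : sz R d = 5
  hex1 : sz R d.symm = 6
  hex2 : sz R (R.next d).symm = 6
  iso : ∀ x, R.face x = R.face d → sz R x.symm ≠ 5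

theorem L7.iter {d : G.Dart} (h : L7 R d) {x : G.Dart} (hx : R.face x = R.face d) :
    ∃ i < 5, x = R.next^[i] d := by
  have h1 := (face_eq_iff R d x).1 hx
  obtain ⟨i, hi⟩ := h1.exists_nat_pow_eq
  have h2 : Function.minimalPeriod R.next d = 5 := by rw [← sz_eq, h.five]
  refine ⟨i % 5, Nat.mod_lt _ (by norm_num), ?_⟩
  rw [← h2, Function.iterate_mod_minimalPeriod_eq, ← hi, Equiv.Perm.coe_pow]

theorem face_iter (R : Rot G) (d : G.Dart) (i : ℕ) : R.face (R.next^[i] d) = R.face d := by
  induction i with
  | zero => rfl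
  | succ i ih => rw [Function.iterate_succ_apply', R.face_next, ih]

theorem L7.inj {d : G.Dart} (h : L7 R d) {i j : ℕ} (hi : i < 5) (hj : j < 5)
    (hij : R.next^[i] d = R.next^[j] d) : i = j := by
  have h2 : Function.minimalPeriod R.next d = 5 := by rw [← sz_eq, h.five]
  exact Function.iterate_injOn_Iio_minimalPeriod (by rw [h2]; exact hi) (by rw [h2]; exact hj) hij

theorem L7.ne_symm {d : G.Dart} (h : L7 R d) {x : G.Dart} (hx : R.face x = R.face d) :
    R.face x.symm ≠ R.face d := by
  intro hc
  refine h.iso x hx ?_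
  unfold sz
  rw [hc]
  exact h.five

section

variable {F : Finset R.Face} {δ : R.Face → G.Dart}

theorem mem_star {f : R.Face} (hδ : R.face (δ f) = f) (hL : L7 R (δ f)) (e : Up G) :
    e ∈ cut (fs R) (ft R) {f} ↔ ∃ i < 5, e = eu (R.next^[i] (δ f)) := by
  rw [mem_cut']
  simp only [mem_singleton]
  unfold fs ft
  constructor
  · intro h
    have h1 : R.face e.1 = f ∨ R.face e.1.symm = f := by
      by_contra hc
      push Not at hc
      exact h ⟨fun h2 => absurd h2 hc.1, fun h2 => absurd h2 hc.2⟩
    rcases h1 with h1 | h1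
    · obtain ⟨i, hi, hi'⟩ := hL.iter (h1.trans hδ.symm)
      exact ⟨i, hi, by rw [← hi', eu_up]⟩
    · obtain ⟨i, hi, hi'⟩ := hL.iter (h1.trans hδ.symm)
      exact ⟨i, hi, by rw [← hi', eu_symm, eu_up]⟩
  · rintro ⟨i, hi, rfl⟩ hc
    have h1 : R.face (R.next^[i] (δ f)) = f := (face_iter R _ i).trans hδ
    have h2 : R.face (R.next^[i] (δ f)).symm ≠ f := by
      have := hL.ne_symm (face_iter R (δ f) i)
      rwa [hδ] at this
    rcases eu_or (R.next^[i] (δ f)) with h3 | h3
    · rw [h3] at hc
      exact h2 (hc.1 h1)
    · rw [h3, SimpleGraph.Dart.symm_symm] at hc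
      exact h2 (hc.2 h1)

theorem eu_iter_inj {f : R.Face} (hL : L7 R (δ f)) {i j : ℕ} (hi : i < 5)
    (hj : j < 5) (h : eu (R.next^[i] (δ f)) = eu (R.next^[j] (δ f))) : i = j := by
  rcases eu_eq_iff.1 h with h1 | h1
  · exact (hL.inj hj hi h1).symm
  · have h2 := hL.ne_symm (face_iter R (δ f) i)
    rw [← h1] at h2
    exact absurd (face_iter R (δ f) j) h2

theorem card_three_le {A : Type*} [DecidableEq A] {S1 S2 S3 T : Finset A}
    (h12 : Disjoint S1 S2) (h13 : Disjoint S1 S3) (h23 : Disjoint S2 S3) (h1 : S1 ⊆ T)
    (h2 : S2 ⊆ T) (h3 : S3 ⊆ T) : S1.card + S2.card + S3.card ≤ T.card := by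
  rw [← card_union_of_disjoint h12, ← card_union_of_disjoint (disjoint_union_left.2 ⟨h13, h23⟩)]
  exact card_le_card (union_subset (union_subset h1 h2) h3)

/-- **The places of a plane cubic graph.** -/
noncomputable def pentsOf (F : Finset R.Face) (δ : R.Face → G.Dart)
    (hcub : ∀ v, G.degree v = 3) (hδ : ∀ f ∈ F, R.face (δ f) = f) (hL : ∀ f ∈ F, L7 R (δ f)) :
    Pents (fs R) (ft R) F where
  h1 f := R.face (δ f).symm
  h2 f := R.face (R.next (δ f)).symm
  a f := R.face (R.next^[2] (δ f)).symm
  b f := R.face (R.next^[3] (δ f)).symm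
  c f := R.face (R.next^[4] (δ f)).symm
  e1 f := eu (δ f)
  e2 f := eu (R.next (δ f))
  ea f := eu (R.next^[2] (δ f))
  eb f := eu (R.next^[3] (δ f))
  ec f := eu (R.next^[4] (δ f))
  l12 f := eu (third R (δ f))
  l2a f := eu (third R (R.next (δ f)))
  lc1 f := eu (third R (R.next^[4] (δ f)))
  ind := by
    rintro e _ ⟨h1, h2⟩
    have h3 : R.face e.1 = R.face (δ (fs R e)) := (hδ _ h1).symm
    have h4 := (hL _ h1).iso e.1 h3
    apply h4
    have h5 := (hL _ h2).five
    unfold sz at h5 ⊢
    rw [hδ _ h2] at h5
    exact h5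
  star := by
    intro f hf
    ext e
    rw [mem_star (hδ f hf) (hL f hf)]
    simp only [mem_insert, mem_singleton]
    constructor
    · rintro ⟨i, hi, rfl⟩
      interval_cases i
      · exact Or.inl rfl
      · exact Or.inr (Or.inl rfl)
      · exact Or.inr (Or.inr (Or.inl rfl))
      · exact Or.inr (Or.inr (Or.inr (Or.inl rfl)))
      · exact Or.inr (Or.inr (Or.inr (Or.inr rfl)))
    · rintro (rfl | rfl | rfl | rfl | rfl)
      · exact ⟨0, by norm_num, rfl⟩
      · exact ⟨1, by norm_num, rfl⟩
      · exact ⟨2, by norm_num, rfl⟩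
      · exact ⟨3, by norm_num, rfl⟩
      · exact ⟨4, by norm_num, rfl⟩
  five := by
    intro f hf
    have h1 : cut (fs R) (ft R) {f} = (range 5).image fun i => eu (R.next^[i] (δ f)) := by
      ext e
      rw [mem_star (hδ f hf) (hL f hf), mem_image]
      constructor
      · rintro ⟨i, hi, rfl⟩
        exact ⟨i, mem_range.2 hi, rfl⟩
      · rintro ⟨i, hi, rfl⟩
        exact ⟨i, mem_range.1 hi, rfl⟩
    rw [h1, card_image_of_injOn, card_range]
    intro i hi j hj hij
    exact eu_iter_inj (hL f hf) (mem_range.1 (mem_coe.1 hi)) (mem_range.1 (mem_coe.1 hj)) hij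
  j1 := by
    intro f hf
    have := jn_eu R (δ f)
    rwa [hδ f hf] at this
  j2 := by
    intro f hf
    have := jn_eu R (R.next (δ f))
    rwa [R.face_next, hδ f hf] at this
  ja := by
    intro f hf
    have := jn_eu R (R.next^[2] (δ f))
    rwa [face_iter, hδ f hf] at this
  jb := by
    intro f hf
    have := jn_eu R (R.next^[3] (δ f))
    rwa [face_iter, hδ f hf] at this
  jc := by
    intro f hf
    have := jn_eu R (R.next^[4] (δ f))
    rwa [face_iter, hδ f hf] at this
  j12 f _ := jn_third (hcub _)
  j2a f _ := jn_third (hcub _)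
  jc1 := by
    intro f hf
    have h1 := jn_third (R := R) (d := R.next^[4] (δ f)) (hcub _)
    have h2 : R.next (R.next^[4] (δ f)) = δ f := by
      have h3 := next_sz R (δ f)
      rw [(hL f hf).five] at h3
      rw [← Function.iterate_succ_apply' R.next 4 (δ f)]
      exact h3
    rw [h2] at h1
    exact h1
  link_le := by
    intro e
    classical
    set T : Finset G.Dart := {R.next.symm (R.rot.symm e.1), R.next.symm (R.rot.symm e.1.symm)}
      with hT
    have key : ∀ i : ℕ, (F.filter fun f => e = eu (third R (R.next^[i] (δ f)))).card =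
        ((F.filter fun f => e = eu (third R (R.next^[i] (δ f)))).image
          fun f => R.next^[i] (δ f)).card := by
      intro i
      rw [card_image_of_injOn]
      intro f hf g hg hfg
      have h1 := congrArg R.face hfg
      beta_reduce at h1
      rwa [face_iter, face_iter, hδ f (mem_filter.1 (mem_coe.1 hf)).1,
        hδ g (mem_filter.1 (mem_coe.1 hg)).1] at h1
    have hsub : ∀ i : ℕ, ((F.filter fun f => e = eu (third R (R.next^[i] (δ f)))).image
          fun f => R.next^[i] (δ f)) ⊆ T := by
      intro i x hx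
      obtain ⟨f, hf, rfl⟩ := mem_image.1 hx
      have h1 : e = eu (third R (R.next^[i] (δ f))) := (mem_filter.1 hf).2
      have h2 : ∀ y : G.Dart, R.next.symm (R.rot.symm (third R y)) = y := by
        intro y
        unfold third
        rw [Equiv.symm_apply_apply, Equiv.symm_apply_apply]
      have h3 : third R (R.next^[i] (δ f)) = e.1 ∨ third R (R.next^[i] (δ f)) = e.1.symm := by
        rcases eu_or (third R (R.next^[i] (δ f))) with h4 | h4
        · left
          rw [h1]
          exact h4.symm
        · right
          rw [h1, h4, SimpleGraph.Dart.symm_symm]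
      rw [hT, mem_insert, mem_singleton]
      rcases h3 with h3 | h3
      · left
        rw [← h3, h2]
      · right
        rw [← h3, h2]
    have hdis : ∀ i j : ℕ, i < 5 → j < 5 → i ≠ j →
        Disjoint ((F.filter fun f => e = eu (third R (R.next^[i] (δ f)))).image
          fun f => R.next^[i] (δ f)) ((F.filter fun f => e = eu (third R (R.next^[j] (δ f)))).image
          fun f => R.next^[j] (δ f)) := by
      intro i j hi hj hij
      rw [disjoint_left]
      intro x hx hx'
      obtain ⟨f, hf, rfl⟩ := mem_image.1 hx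
      obtain ⟨g, hg, hfg⟩ := mem_image.1 hx'
      have hf' := (mem_filter.1 hf).1
      have hg' := (mem_filter.1 hg).1
      have h1 := congrArg R.face hfg
      rw [face_iter, face_iter, hδ f hf', hδ g hg'] at h1
      subst h1
      exact hij ((hL _ hf').inj hj hi hfg).symm
    have h0 := key 0
    have h1 := key 1
    have h4 := key 4
    have hT2 : T.card ≤ 2 := card_le_two
    refine le_trans (le_of_eq ?_) ((card_three_le (hdis 0 1 (by norm_num) (by norm_num)
      (by norm_num)) (hdis 0 4 (by norm_num) (by norm_num) (by norm_num))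
      (hdis 1 4 (by norm_num) (by norm_num) (by norm_num)) (hsub 0) (hsub 1) (hsub 4)).trans hT2)
    rw [← h0, ← h1, ← h4]
    rfl

end

end Pool.Agent.Uni3
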