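import Mathlib
import Pool.Agent.Work.MP_392c8e_co_uni.L7Rot
import Pool.Agent.Work.MP_392c8e_co_uni.CountP

/-!
# The places with two consecutive hexagons and the components of the crossing edges
-/

namespace Pool.Agent.Uni3

open Finset Pool.Agent.Circ Pool.Agent.OddFlow Pool.Agent.Sub392 Pool.Agent.T392

set_option linter.unusedSectionVars false

section multi

variable {V E : Type*} [Fintype V] [DecidableEq V] [Fintype E] [DecidableEq E]

/-- In a minimiser a covered Steiner vertex has an edge inside its part. -/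
theorem exists_same (s t : E → V) (om : E → ℝ) {K : Finset V}
    {p : V → Option V} (hp : Adm K p)
    (hmin : ∀ q, Adm K q → phi s t om K p ≤ phi s t om K q) {z : V} (hz : z ∉ K)
    (hpz : p z ≠ none) (hpos : 0 < ∑ e ∈ cut s t {z}, om e) :
    ∃ e ∈ cut s t {z}, p (s e) = p (t e) := by
  classical
  by_contra hcon
  push Not at hcon
  set q : V → Option V := fun v => if v = z then none else p v with hq
  have hqA : Adm K q := by
    refine ⟨fun v hv => ?_, fun v c hvc => ?_⟩
    · have h1 : v ≠ z := fun h => hz (h ▸ hv)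
      simp only [hq, h1, if_false]
      exact hp.1 v hv
    · have h1 : v ≠ z := by
        rintro rfl
        simp [hq] at hvc
      simp only [hq, h1, if_false] at hvc
      obtain ⟨h2, h3⟩ := hp.2 v c hvc
      refine ⟨h2, ?_⟩
      have h4 : c ≠ z := fun h => hz (h ▸ h2)
      simp only [hq, h4, if_false]
      exact h3
  have himg : K.image q = K.image p := by
    refine image_congr fun v hv => ?_
    have h1 : v ≠ z := fun h => hz (h ▸ hv)
    simp [hq, h1]
  have h1 := hmin q hqA
  unfold phi at h1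
  rw [himg] at h1
  have h2 : ∑ e, om e * cc q (s e) (t e) + ∑ e ∈ cut s t {z}, om e =
      ∑ e, om e * cc p (s e) (t e) := by
    have h3 : ∑ e ∈ cut s t {z}, om e = ∑ e, if e ∈ cut s t {z} then om e else 0 := by
      rw [sum_ite_mem, univ_inter]
    rw [h3, ← sum_add_distrib]
    refine sum_congr rfl fun e _ => ?_
    by_cases he : e ∈ cut s t {z}
    · rw [if_pos he]
      have h4 := hcon e he
      have h5 := mem_cut'.1 he
      simp only [mem_singleton] at h5
      have h6 : cc p (s e) (t e) = cc q (s e) (t e) + 1 := by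
        unfold cc
        by_cases a1 : s e = z
        · have a2 : t e ≠ z := fun h => h5 ⟨fun _ => h, fun _ => a1⟩
          have a3 : p (s e) ≠ none := by rw [a1]; exact hpz
          have b1 : q (s e) = none := by simp [hq, a1]
          have b2 : q (t e) = p (t e) := by simp [hq, a2]
          rw [b1, b2, if_neg h4, if_neg a3]
          by_cases a4 : p (t e) = none
          · simp [a4]
          · have a5 : ¬ (none = p (t e)) := fun h => a4 h.symm
            simp [a4, a5]
        · have a2 : t e = z := by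
            by_contra h
            exact h5 ⟨fun h' => absurd h' a1, fun h' => absurd h' h⟩
          have a3 : p (t e) ≠ none := by rw [a2]; exact hpz
          have b1 : q (t e) = none := by simp [hq, a2]
          have b2 : q (s e) = p (s e) := by simp [hq, a1]
          rw [b1, b2, if_neg h4, if_neg a3]
          by_cases a4 : p (s e) = none
          · simp [a4]
          · rw [if_neg a4]
            simp [a4]
      rw [h6]
      ring
    · rw [if_neg he, add_zero]
      congr 1
      have h5 : (s e = z ↔ t e = z) := by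
        by_contra h
        exact he (mem_cut'.2 (by simpa using h))
      unfold cc
      by_cases a1 : s e = z
      · have a2 := h5.1 a1
        simp [hq, a1, a2]
      · have a2 : t e ≠ z := fun h => a1 (h5.2 h)
        simp only [hq, a1, a2, if_false]
  linarith

end multi

variable {V : Type} [Fintype V] [DecidableEq V] {G : SimpleGraph V} [DecidableRel G.Adj]
  {R : Rot G}

theorem crV_subset {T : Type} [DecidableEq T] (κ : R.Face → T) (v : V) :
    crV R κ v ⊆ univ.filter fun d : G.Dart => d.fst = v := by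
  intro d hd
  unfold crV at hd
  rw [mem_filter] at hd ⊢
  exact ⟨hd.1, hd.2.1⟩

theorem card_darts (hcub : ∀ v, G.degree v = 3) (v : V) :
    (univ.filter fun d : G.Dart => d.fst = v).card = 3 := by
  rw [← hcub v]
  exact G.dart_fst_fiber_card_eq_degree v

theorem all_cross {T : Type} [DecidableEq T] (hcub : ∀ v, G.degree v = 3) {κ : R.Face → T}
    {v : V} (h : (crV R κ v).card = 3) {d : G.Dart} (hd : d.fst = v) : Cr R κ d := by
  have h1 : crV R κ v = univ.filter fun d : G.Dart => d.fst = v :=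
    eq_of_subset_of_card_le (crV_subset κ v) (by rw [h, card_darts hcub])
  have h2 : d ∈ crV R κ v := by
    rw [h1, mem_filter]
    exact ⟨mem_univ _, hd⟩
  unfold crV at h2
  exact (mem_filter.1 h2).2.2

/-- the three faces of a place -/
def PF (R : Rot G) (δ : G.Dart) (g : R.Face) : Prop :=
  g = R.face δ ∨ g = R.face δ.symm ∨ g = R.face (R.next δ).symm

/-- The vertices of a place: on the face of length five and on its two consecutive hexagons. -/
noncomputable def plV (R : Rot G) (δ : G.Dart) : Finset V := by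
  classical
  exact univ.filter fun v => ∃ d : G.Dart, d.fst = v ∧ PF R δ (R.face d)

theorem mem_plV {δ : G.Dart} {v : V} :
    v ∈ plV R δ ↔ ∃ d : G.Dart, d.fst = v ∧ PF R δ (R.face d) := by
  classical
  unfold plV
  rw [mem_filter]
  exact and_iff_right (mem_univ _)

/-- **Own or mixed.**  A place which meets the component has a vertex with exactly two crossing
darts in the component, or all its vertices are in the component and have three crossing darts. -/
theorem own_or_mixed {T : Type} [DecidableEq T] (hcub : ∀ v, G.degree v = 3) {κ : R.Face → T}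
    {C : Finset V} (hC : IsComp R κ C) {δ : G.Dart} (hmeet : ∃ v ∈ plV R δ, v ∈ C) :
    (∃ v ∈ plV R δ, v ∈ crTwo R κ C) ∨ ∀ v ∈ plV R δ, v ∈ C ∧ (crV R κ v).card = 3 := by
  classical
  by_cases hex : ∃ v ∈ plV R δ, v ∈ crTwo R κ C
  · exact Or.inl hex
  right
  push Not at hex
  have h3 : ∀ v ∈ plV R δ, v ∈ C → (crV R κ v).card = 3 := by
    intro v hv hvC
    have h4 : (crV R κ v).card ≤ 3 := by
      rw [← card_darts hcub v]
      exact card_le_card (crV_subset κ v)
    have h5 : (crV R κ v).card ≠ 0 := by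
      obtain ⟨d, hd, hcr⟩ := hC.touch v hvC
      have : d ∈ crV R κ v := mem_filter.2 ⟨mem_univ _, hd, hcr⟩
      exact (card_pos.2 ⟨d, this⟩).ne'
    have h6 := crV_card_ne_one R κ v
    have h7 : (crV R κ v).card ≠ 2 := fun h => hex v hv (mem_filter.2 ⟨hvC, h⟩)
    omega
  have hstep : ∀ d : G.Dart, PF R δ (R.face d) → d.fst ∈ C → (R.next d).fst ∈ C := by
    intro d hd hdC
    rw [R.fst_next]
    exact hC.closed d (all_cross hcub (h3 _ (mem_plV.2 ⟨d, rfl, hd⟩) hdC) rfl) hdC
  have hface : ∀ d d' : G.Dart, PF R δ (R.face d) → R.face d = R.face d' → d.fst ∈ C →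
      d'.fst ∈ C := by
    intro d d' hd hdd hdC
    obtain ⟨n, hn⟩ := next_pow R hdd
    have key : ∀ n : ℕ, R.face ((R.next ^ n) d) = R.face d ∧ ((R.next ^ n) d).fst ∈ C := by
      intro n
      induction n with
      | zero => exact ⟨rfl, hdC⟩
      | succ n ih =>
        rw [pow_succ', Equiv.Perm.mul_apply]
        refine ⟨by rw [R.face_next]; exact ih.1, hstep _ (by rw [ih.1]; exact hd) ih.2⟩
    rw [← hn]
    exact (key n).2
  -- the vertex `δ.snd` is on all three faces
  have hc : ∀ d : G.Dart, PF R δ (R.face d) → d.fst ∈ C → δ.snd ∈ C := by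
    intro d hd hdC
    rcases hd with h | h | h
    · have := hface d (R.next δ) (Or.inl h) (by rw [h, R.face_next]) hdC
      rwa [R.fst_next] at this
    · exact hface d δ.symm (Or.inr (Or.inl h)) h hdC
    · have h8 := hface d (R.next δ).symm (Or.inr (Or.inr h)) h hdC
      have h9 := hstep (R.next δ).symm (Or.inr (Or.inr rfl)) h8
      rw [R.fst_next] at h9
      have h10 : (R.next δ).symm.snd = (R.next δ).fst := rfl
      rw [h10, R.fst_next] at h9
      exact h9
  have hcin : δ.snd ∈ C := by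
    obtain ⟨v, hv, hvC⟩ := hmeet
    obtain ⟨d, hd, hdF⟩ := mem_plV.1 hv
    exact hc d hdF (by rw [hd]; exact hvC)
  have hall : ∀ d : G.Dart, PF R δ (R.face d) → d.fst ∈ C := by
    intro d hd
    rcases hd with h | h | h
    · refine hface (R.next δ) d (Or.inl (R.face_next δ)) (by rw [R.face_next, h]) ?_
      rw [R.fst_next]
      exact hcin
    · exact hface δ.symm d (Or.inr (Or.inl rfl)) h.symm hcin
    · have h11 : R.face (R.next (R.next δ).symm) = R.face (R.next δ).symm := R.face_next _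
      -- the dart of the second hexagon which starts at `δ.snd`
      have h12 : (R.next (R.next δ).symm).fst = δ.snd := by
        rw [R.fst_next]
        have h10 : (R.next δ).symm.snd = (R.next δ).fst := rfl
        rw [h10, R.fst_next]
      refine hface (R.next (R.next δ).symm) d (Or.inr (Or.inr h11)) (by rw [h11, h]) ?_
      rw [h12]
      exact hcin
  intro v hv
  obtain ⟨d, hd, hdF⟩ := mem_plV.1 hv
  have : v ∈ C := by
    rw [← hd]
    exact hall d hdF
  exact ⟨this, h3 v hv this⟩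

section places

variable {F : Finset R.Face} {δ : R.Face → G.Dart}

theorem card_at_le (hδ : ∀ f ∈ F, R.face (δ f) = f) (hL : ∀ f ∈ F, L7 R (δ f))
    (hcub : ∀ v, G.degree v = 3) (v : V) :
    (F.filter fun f => v ∈ plV R (δ f)).card ≤ 21 := by
  classical
  have h1 : (F.filter fun f => v ∈ plV R (δ f)) ⊆
      (univ.filter fun d : G.Dart => d.fst = v).biUnion fun d =>
        insert (R.face d) ((range 6).image fun j => R.face (R.next^[j] d).symm) := by
    intro f hf
    obtain ⟨hfF, hv⟩ := mem_filter.1 hf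
    obtain ⟨d, hd, hdF⟩ := mem_plV.1 hv
    rw [mem_biUnion]
    refine ⟨d, mem_filter.2 ⟨mem_univ _, hd⟩, ?_⟩
    have hsame : ∀ x : G.Dart, R.face d = R.face x → sz R x = 6 → R.face x.symm = f →
        f ∈ insert (R.face d) ((range 6).image fun j => R.face (R.next^[j] d).symm) := by
      intro x hdx hx6 hxf
      obtain ⟨i, hi⟩ := ((face_eq_iff R d x).1 hdx.symm).exists_nat_pow_eq
      have h2 : Function.minimalPeriod R.next d = 6 := by
        rw [← sz_eq, sz, hdx]
        exact hx6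
      rw [mem_insert, mem_image]
      right
      refine ⟨i % 6, mem_range.2 (Nat.mod_lt _ (by norm_num)), ?_⟩
      rw [← h2, Function.iterate_mod_minimalPeriod_eq, ← Equiv.Perm.coe_pow, hi, hxf]
    rcases hdF with h | h | h
    · rw [mem_insert]
      left
      rw [h, hδ f hfF]
    · exact hsame _ h (hL f hfF).hex1 (by rw [SimpleGraph.Dart.symm_symm, hδ f hfF])
    · exact hsame _ h (hL f hfF).hex2 (by rw [SimpleGraph.Dart.symm_symm, R.face_next, hδ f hfF])
  refine (card_le_card h1).trans (card_biUnion_le.trans ?_)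
  have h3 : ∀ d : G.Dart, (insert (R.face d)
      ((range 6).image fun j => R.face (R.next^[j] d).symm)).card ≤ 7 := by
    intro d
    refine (card_insert_le _ _).trans ?_
    have := card_image_le (s := range 6) (f := fun j => R.face (R.next^[j] d).symm)
    rw [card_range] at this
    omega
  refine (sum_le_sum fun d _ => h3 d).trans ?_
  rw [sum_const, card_darts hcub, smul_eq_mul]

/-- The own places of a component. -/
noncomputable def ownF {T : Type} [DecidableEq T] (R : Rot G) (κ : R.Face → T) (C : Finset V)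
    (F : Finset R.Face) (δ : R.Face → G.Dart) : Finset R.Face := by
  classical
  exact F.filter fun f => ∀ v ∈ plV R (δ f), v ∈ C ∧ (crV R κ v).card = 3

/-- The mixed places of a component. -/
noncomputable def mixF {T : Type} [DecidableEq T] (R : Rot G) (κ : R.Face → T) (C : Finset V)
    (F : Finset R.Face) (δ : R.Face → G.Dart) : Finset R.Face := by
  classical
  exact F.filter fun f => (∃ v ∈ plV R (δ f), v ∈ C) ∧
    ¬ ∀ v ∈ plV R (δ f), v ∈ C ∧ (crV R κ v).card = 3

theorem mem_ownF {T : Type} [DecidableEq T] {κ : R.Face → T} {C : Finset V} {f : R.Face} :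
    f ∈ ownF R κ C F δ ↔ f ∈ F ∧ ∀ v ∈ plV R (δ f), v ∈ C ∧ (crV R κ v).card = 3 := by
  classical
  unfold ownF
  rw [mem_filter]

theorem mem_mixF {T : Type} [DecidableEq T] {κ : R.Face → T} {C : Finset V} {f : R.Face} :
    f ∈ mixF R κ C F δ ↔ f ∈ F ∧ (∃ v ∈ plV R (δ f), v ∈ C) ∧
      ¬ ∀ v ∈ plV R (δ f), v ∈ C ∧ (crV R κ v).card = 3 := by
  classical
  unfold mixF
  rw [mem_filter]

/-- **The number of mixed places.** -/
theorem card_mixF_le {T : Type} [DecidableEq T] (hδ : ∀ f ∈ F, R.face (δ f) = f)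
    (hL : ∀ f ∈ F, L7 R (δ f)) (hcub : ∀ v, G.degree v = 3) {κ : R.Face → T} {C : Finset V}
    (hC : IsComp R κ C) (X : Finset V) (hX : ∀ f ∈ F, ∀ v ∈ plV R (δ f), v ∈ X) :
    (mixF R κ C F δ).card ≤ 21 * ((crTwo R κ C) ∩ X).card := by
  classical
  have h1 : mixF R κ C F δ ⊆ ((crTwo R κ C) ∩ X).biUnion fun v =>
      F.filter fun f => v ∈ plV R (δ f) := by
    intro f hf
    obtain ⟨hfF, hmeet, hno⟩ := mem_mixF.1 hf
    rcases own_or_mixed hcub hC hmeet with ⟨v, hv, hv2⟩ | h
    · rw [mem_biUnion]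
      exact ⟨v, mem_inter.2 ⟨hv2, hX f hfF v hv⟩, mem_filter.2 ⟨hfF, hv⟩⟩
    · exact absurd h hno
  refine (card_le_card h1).trans (card_biUnion_le.trans ?_)
  refine (sum_le_sum fun v _ => card_at_le hδ hL hcub v).trans ?_
  rw [sum_const, smul_eq_mul, mul_comm]

theorem fst_mem_plV (δ : G.Dart) (i : ℕ) : (R.next^[i] δ).fst ∈ plV R δ :=
  mem_plV.2 ⟨_, rfl, Or.inl (face_iter R δ i)⟩

/-- The edges of an own place are crossing edges of the component. -/
theorem own_cross {T : Type} [DecidableEq T] (hcub : ∀ v, G.degree v = 3) {κ : R.Face → T}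
    {C : Finset V} {d : G.Dart} {x : G.Dart}
    (h : ∀ v ∈ plV R d, v ∈ C ∧ (crV R κ v).card = 3) (hx : x.fst ∈ plV R d) :
    Cr R κ x ∧ x.fst ∈ C :=
  ⟨all_cross hcub (h _ hx).2 rfl, (h _ hx).1⟩

theorem eu_cross {T : Type} [DecidableEq T] {κ : R.Face → T} {C : Finset V}
    (hC : IsComp R κ C) (x : G.Dart) :
    (Cr R κ (eu x).1 ∧ (eu x).1.fst ∈ C) ↔ (Cr R κ x ∧ x.fst ∈ C) := by
  rcases eu_or x with h | h
  · rw [h]
  · rw [h]
    constructor
    · rintro ⟨h1, h2⟩
      exact ⟨h1.of_symm, (hC.closed' h1.of_symm).2 h2⟩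
    · rintro ⟨h1, h2⟩
      exact ⟨h1.symm, (hC.closed' h1).1 h2⟩

theorem not_cr_of_eq {p : R.Face → Option R.Face} {x : G.Dart}
    (h : p (R.face x) = p (R.face x.symm)) (h0 : p (R.face x) ≠ none) : ¬ Cr R (qr p) x := by
  intro hx
  obtain ⟨c, hc⟩ := Option.ne_none_iff_exists'.1 h0
  exact hx (by rw [qr_some hc, qr_some (h ▸ hc)])

/-- In a minimiser the two hexagons of an own place are uncovered. -/
theorem own_none (hcub : ∀ v, G.degree v = 3) {om : Up G → ℝ} (hpos : ∀ e, 0 < om e)
    {K : Finset R.Face} {p : R.Face → Option R.Face} (hp : Adm K p)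
    (hmin : ∀ q, Adm K q → phi (fs R) (ft R) om K p ≤ phi (fs R) (ft R) om K q)
    {d : G.Dart} (h : ∀ v ∈ plV R d, (crV R (qr p) v).card = 3)
    {z : R.Face} (hz : z ∉ K) (hzd : PF R d z) : p z = none := by
  by_contra hne
  have hdart : ∀ x : G.Dart, R.face x = z → Cr R (qr p) x := fun x hx =>
    all_cross hcub (h _ (mem_plV.2 ⟨x, rfl, by rw [hx]; exact hzd⟩)) rfl
  have hc : ∀ e ∈ cut (fs R) (ft R) {z}, ¬ (p (fs R e) = p (ft R e)) := by
    intro e he heq
    rw [mem_cut'] at he
    simp only [mem_singleton] at he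
    unfold fs ft at he heq
    by_cases h1 : R.face e.1 = z
    · exact not_cr_of_eq heq (by rw [h1]; exact hne) (hdart _ h1)
    · have h2 : R.face e.1.symm = z := by
        by_contra h3
        exact he ⟨fun h' => absurd h' h1, fun h' => absurd h' h3⟩
      refine not_cr_of_eq (x := e.1.symm) ?_ (by rw [h2]; exact hne) (hdart _ h2)
      rw [SimpleGraph.Dart.symm_symm]
      exact heq.symm
  have hex : (cut (fs R) (ft R) {z}).Nonempty := by
    have h4 : ∃ x : G.Dart, R.face x = z := by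
      rcases hzd with h' | h' | h'
      · exact ⟨_, h'.symm⟩
      · exact ⟨_, h'.symm⟩
      · exact ⟨_, h'.symm⟩
    obtain ⟨x, hx⟩ := h4
    have h5 : R.face x.symm ≠ z := by
      intro h6
      have h7 := hdart x hx
      unfold Cr at h7
      rw [hx, h6] at h7
      exact h7 rfl
    refine ⟨eu x, ?_⟩
    rw [(jn_eu R x).mem_cut]
    simp only [mem_singleton, hx, h5]
    simp
  obtain ⟨e, he, he'⟩ := exists_same (fs R) (ft R) om hp hmin hz hne
    (sum_pos (fun e _ => hpos e) hex)
  exact hc e he he'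

theorem loc_of_not_meet (hcub : ∀ v, G.degree v = 3) (hδ : ∀ f ∈ F, R.face (δ f) = f)
    (hL : ∀ f ∈ F, L7 R (δ f)) {g : Up G → ℝ} {C : Finset V}
    (hg : ∀ x : G.Dart, x.fst ∉ C → g (eu x) = 0) {f : R.Face}
    (h : ∀ v ∈ plV R (δ f), v ∉ C) : (pentsOf F δ hcub hδ hL).loc g f = 0 := by
  have h1 : ∀ i, g (eu (R.next^[i] (δ f))) = 0 := fun i => hg _ (h _ (fst_mem_plV _ i))
  have h2 : ∀ i, g (eu (third R (R.next^[i] (δ f)))) = 0 := by
    intro i
    refine hg _ (h _ ?_)
    have h3 : (third R (R.next^[i] (δ f))).fst = (R.next^[i + 1] (δ f)).fst := by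
      unfold third
      rw [R.fst_rot, Function.iterate_succ_apply']
    rw [h3]
    exact fst_mem_plV _ _
  show g (eu (R.next^[2] (δ f))) + g (eu (R.next^[4] (δ f))) -
    g (eu (third R (R.next^[0] (δ f)))) - g (eu (third R (R.next^[1] (δ f)))) -
      g (eu (third R (R.next^[4] (δ f)))) = 0
  rw [h1, h1, h2, h2, h2]
  norm_num

/-- **The count with the places.** -/
theorem count_L7 (hcub : ∀ v, G.degree v = 3) (hδ : ∀ f ∈ F, R.face (δ f) = f)
    (hL : ∀ f ∈ F, L7 R (δ f)) {om : Up G → ℝ} {u : ℝ} (hu : 0 ≤ u)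
    (hpos : ∀ e, 0 < (pentsOf F δ hcub hδ hL).om om u e)
    {K : Finset R.Face} (hFK : F ⊆ K) (hKh : ∀ f ∈ F, R.face (δ f).symm ∉ K ∧
      R.face (R.next (δ f)).symm ∉ K) {p : R.Face → Option R.Face} (hp : Adm K p)
    (hmin : ∀ q, Adm K q → phi (fs R) (ft R) ((pentsOf F δ hcub hδ hL).om om u) K p ≤
      phi (fs R) (ft R) ((pentsOf F δ hcub hδ hL).om om u) K q)
    {C : Finset V} (hC : IsComp R (qr p) C) :
    (∑ e : Up G, (if Cr R (qr p) e.1 ∧ e.1.fst ∈ C then
      om e * cc p (R.face e.1) (R.face e.1.symm) else 0)) +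
      2 * u * (ownF R (qr p) C F δ).card - 6 * u * (mixF R (qr p) C F δ).card ≤
    ∑ e : Up G, (if Cr R (qr p) e.1 ∧ e.1.fst ∈ C then
      (pentsOf F δ hcub hδ hL).om om u e * cc p (R.face e.1) (R.face e.1.symm) else 0) := by
  classical
  set P := pentsOf F δ hcub hδ hL with hP
  set g : Up G → ℝ := fun e => if Cr R (qr p) e.1 ∧ e.1.fst ∈ C then
    cc p (R.face e.1) (R.face e.1.symm) else 0 with hgdef
  have e1 : ∀ w : Up G → ℝ, ∑ e : Up G, (if Cr R (qr p) e.1 ∧ e.1.fst ∈ C then
      w e * cc p (R.face e.1) (R.face e.1.symm) else 0) = ∑ e, w e * g e := by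
    intro w
    refine sum_congr rfl fun e _ => ?_
    simp only [hgdef]
    split_ifs
    · rfl
    · rw [mul_zero]
  rw [e1, e1, P.sum_om om u g]
  have hg0 : ∀ e, 0 ≤ g e ∧ g e ≤ 2 := by
    intro e
    simp only [hgdef]
    split_ifs
    · exact ⟨cc_nonneg _ _ _, cc_le_two _ _ _⟩
    · norm_num
  have hgout : ∀ x : G.Dart, x.fst ∉ C → g (eu x) = 0 := by
    intro x hx
    simp only [hgdef]
    rw [if_neg]
    rw [eu_cross hC]
    exact fun h => hx h.2
  have hgin : ∀ x : G.Dart, Cr R (qr p) x → x.fst ∈ C →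
      g (eu x) = cc p (fs R (eu x)) (ft R (eu x)) := by
    intro x h1 h2
    simp only [hgdef]
    rw [if_pos ((eu_cross hC x).2 ⟨h1, h2⟩)]
    rfl
  have hown : ∀ f ∈ ownF R (qr p) C F δ, P.loc g f = 2 := by
    intro f hf
    obtain ⟨hfF, hall⟩ := mem_ownF.1 hf
    have n1 : p (R.face (δ f).symm) = none :=
      own_none hcub hpos hp hmin (fun v hv => (hall v hv).2) (hKh f hfF).1 (Or.inr (Or.inl rfl))
    have n2 : p (R.face (R.next (δ f)).symm) = none :=
      own_none hcub hpos hp hmin (fun v hv => (hall v hv).2) (hKh f hfF).2 (Or.inr (Or.inr rfl))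
    have n0 : p f ≠ none := hp.1 f (hFK hfF)
    have hcr : ∀ i, Cr R (qr p) (R.next^[i] (δ f)) ∧ (R.next^[i] (δ f)).fst ∈ C := fun i =>
      own_cross hcub hall (fst_mem_plV _ i)
    have hth : ∀ i, Cr R (qr p) (third R (R.next^[i] (δ f))) ∧
        (third R (R.next^[i] (δ f))).fst ∈ C := by
      intro i
      refine own_cross hcub hall ?_
      have h3 : (third R (R.next^[i] (δ f))).fst = (R.next^[i + 1] (δ f)).fst := by
        unfold third
        rw [R.fst_rot, Function.iterate_succ_apply']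
      rw [h3]
      exact fst_mem_plV _ _
    have hne : ∀ i, p f ≠ p (R.face (R.next^[i] (δ f)).symm) := by
      intro i heq
      refine not_cr_of_eq (x := R.next^[i] (δ f)) ?_ ?_ (hcr i).1
      · rw [face_iter, hδ f hfF]
        exact heq
      · rw [face_iter, hδ f hfF]
        exact n0
    have h2 := P.loc_cc_gain hfF (p := p) n1 n2 n0 (hne 2) (hne 4)
    rw [← h2]
    show g (eu (R.next^[2] (δ f))) + g (eu (R.next^[4] (δ f))) -
      g (eu (third R (R.next^[0] (δ f)))) - g (eu (third R (R.next^[1] (δ f)))) -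
        g (eu (third R (R.next^[4] (δ f)))) = _
    rw [hgin _ (hcr 2).1 (hcr 2).2, hgin _ (hcr 4).1 (hcr 4).2, hgin _ (hth 0).1 (hth 0).2,
      hgin _ (hth 1).1 (hth 1).2, hgin _ (hth 4).1 (hth 4).2]
    rfl
  have hmix : ∀ f ∈ mixF R (qr p) C F δ, -6 ≤ P.loc g f := by
    intro f _
    unfold Pents.loc
    linarith [(hg0 (P.ea f)).1, (hg0 (P.ec f)).1, (hg0 (P.l12 f)).2, (hg0 (P.l2a f)).2,
      (hg0 (P.lc1 f)).2]
  have hrest : ∀ f ∈ F, f ∉ ownF R (qr p) C F δ → f ∉ mixF R (qr p) C F δ → P.loc g f = 0 := by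
    intro f hf h1 h2
    refine loc_of_not_meet hcub hδ hL hgout ?_
    intro v hv hvC
    refine h2 (mem_mixF.2 ⟨hf, ⟨v, hv, hvC⟩, fun h3 => h1 (mem_ownF.2 ⟨hf, h3⟩)⟩)
  have hsum : ∑ f ∈ F, ((if f ∈ ownF R (qr p) C F δ then (2 : ℝ) else 0) -
      (if f ∈ mixF R (qr p) C F δ then (6 : ℝ) else 0)) ≤ ∑ f ∈ F, P.loc g f := by
    refine sum_le_sum fun f hf => ?_
    by_cases h1 : f ∈ ownF R (qr p) C F δ
    · have h2 : f ∉ mixF R (qr p) C F δ := fun h => (mem_mixF.1 h).2.2 (mem_ownF.1 h1).2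
      rw [if_pos h1, if_neg h2, hown f h1]
      norm_num
    · by_cases h2 : f ∈ mixF R (qr p) C F δ
      · rw [if_neg h1, if_pos h2]
        linarith [hmix f h2]
      · rw [if_neg h1, if_neg h2, hrest f hf h1 h2]
        norm_num
  have hc1 : ∑ f ∈ F, (if f ∈ ownF R (qr p) C F δ then (2 : ℝ) else 0) =
      2 * (ownF R (qr p) C F δ).card := by
    rw [sum_ite_mem, inter_eq_right.2 (fun f hf => (mem_ownF.1 hf).1), sum_const, nsmul_eq_mul]
    ring
  have hc2 : ∑ f ∈ F, (if f ∈ mixF R (qr p) C F δ then (6 : ℝ) else 0) =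
      6 * (mixF R (qr p) C F δ).card := by
    rw [sum_ite_mem, inter_eq_right.2 (fun f hf => (mem_mixF.1 hf).1), sum_const, nsmul_eq_mul]
    ring
  rw [sum_sub_distrib, hc1, hc2] at hsum
  have := mul_le_mul_of_nonneg_left hsum hu
  linarith

/-- The own places. -/
noncomputable def ownA {T : Type} [DecidableEq T] (R : Rot G) (κ : R.Face → T)
    (F : Finset R.Face) (δ : R.Face → G.Dart) : Finset R.Face := by
  classical
  exact F.filter fun f => ∀ v ∈ plV R (δ f), (crV R κ v).card = 3

theorem mem_ownA {T : Type} [DecidableEq T] {κ : R.Face → T} {f : R.Face} :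
    f ∈ ownA R κ F δ ↔ f ∈ F ∧ ∀ v ∈ plV R (δ f), (crV R κ v).card = 3 := by
  classical
  unfold ownA
  rw [mem_filter]

theorem ownF_subset {T : Type} [DecidableEq T] {κ : R.Face → T} {C : Finset V} :
    ownF R κ C F δ ⊆ ownA R κ F δ := fun _ hf =>
  mem_ownA.2 ⟨(mem_ownF.1 hf).1, fun v hv => ((mem_ownF.1 hf).2 v hv).2⟩

/-- A place which is not own and meets the component is mixed. -/
theorem mem_mixF_of {T : Type} [DecidableEq T] {κ : R.Face → T} {C : Finset V} {f : R.Face}
    (hf : f ∈ F) (h : f ∉ ownA R κ F δ) (hmeet : ∃ v ∈ plV R (δ f), v ∈ C) :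
    f ∈ mixF R κ C F δ :=
  mem_mixF.2 ⟨hf, hmeet, fun h1 => h (mem_ownA.2 ⟨hf, fun v hv => (h1 v hv).2⟩)⟩

/-- An own place which meets the component is own in the component. -/
theorem mem_ownF_of {T : Type} [DecidableEq T] (hcub : ∀ v, G.degree v = 3) {κ : R.Face → T}
    {C : Finset V} (hC : IsComp R κ C) {f : R.Face}
    (h : f ∈ ownA R κ F δ) (hmeet : ∃ v ∈ plV R (δ f), v ∈ C) :
    f ∈ ownF R κ C F δ := by
  obtain ⟨hfF, h3⟩ := mem_ownA.1 h
  rcases own_or_mixed hcub hC hmeet with ⟨v, hv, hv2⟩ | h4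
  · have h5 : (crV R κ v).card = 2 := (mem_filter.1 hv2).2
    rw [h3 v hv] at h5
    norm_num at h5
  · exact mem_ownF.2 ⟨hfF, h4⟩

/-- The hypothesis of the drop rule for the own places. -/
theorem own_drop (hcub : ∀ v, G.degree v = 3) (hδ : ∀ f ∈ F, R.face (δ f) = f)
    (hL : ∀ f ∈ F, L7 R (δ f)) {w : Up G → ℝ} (hpos : ∀ e, 0 < w e)
    {K : Finset R.Face} (hFK : F ⊆ K) (hKh : ∀ f ∈ F, R.face (δ f).symm ∉ K ∧
      R.face (R.next (δ f)).symm ∉ K) {p : R.Face → Option R.Face} (hp : Adm K p)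
    (hmin : ∀ q, Adm K q → phi (fs R) (ft R) w K p ≤ phi (fs R) (ft R) w K q) :
    ∀ f ∈ F, f ∉ F \ ownA R (qr p) F δ →
      p ((pentsOf F δ hcub hδ hL).h1 f) = none ∧ p ((pentsOf F δ hcub hδ hL).h2 f) = none ∧
      p f ≠ p ((pentsOf F δ hcub hδ hL).a f) ∧ p f ≠ p ((pentsOf F δ hcub hδ hL).c f) := by
  classical
  intro f hf hf'
  have hown : f ∈ ownA R (qr p) F δ := by
    by_contra h
    exact hf' (mem_sdiff.2 ⟨hf, h⟩)
  obtain ⟨-, h3⟩ := mem_ownA.1 hown
  have n0 : p f ≠ none := hp.1 f (hFK hf)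
  have hne : ∀ i, p f ≠ p (R.face (R.next^[i] (δ f)).symm) := by
    intro i heq
    refine not_cr_of_eq (x := R.next^[i] (δ f)) ?_ ?_
      (all_cross hcub (h3 _ (fst_mem_plV _ i)) rfl)
    · rw [face_iter, hδ f hf]
      exact heq
    · rw [face_iter, hδ f hf]
      exact n0
  exact ⟨own_none hcub hpos hp hmin h3 (hKh f hf).1 (Or.inr (Or.inl rfl)),
    own_none hcub hpos hp hmin h3 (hKh f hf).2 (Or.inr (Or.inr rfl)), hne 2, hne 4⟩

/-- **The loss at the mixed places of a component.** -/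
theorem level_loss (hcub : ∀ v, G.degree v = 3) (hδ : ∀ f ∈ F, R.face (δ f) = f)
    (hL : ∀ f ∈ F, L7 R (δ f)) {om : Up G → ℝ} {u : ℝ} (hu : 0 ≤ u) {T : Type} [DecidableEq T]
    {κ : R.Face → T} {C : Finset V} (hC : IsComp R κ C) {F' : Finset R.Face} (hF' : F' ⊆ F)
    (hown : ∀ f ∈ F', f ∉ ownA R κ F δ) {S : Finset (Up G)}
    (hS : ∀ e ∈ S, Cr R κ e.1 ∧ e.1.fst ∈ C) :
    ∑ e ∈ S, om e - 3 * u * (mixF R κ C F δ).card ≤
      ∑ e ∈ S, ((pentsOf F δ hcub hδ hL).mono hF').om om u e := by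
  classical
  set P := pentsOf F δ hcub hδ hL with hP
  have e1 : ∀ w : Up G → ℝ, ∑ e ∈ S, w e = ∑ e, w e * one (e ∈ S) := by
    intro w
    unfold one
    simp only [mul_ite, mul_one, mul_zero]
    rw [sum_ite_mem, univ_inter]
  have e2 := (P.mono hF').sum_om om u (fun e => one (e ∈ S))
  have e3 : ∀ f, (P.mono hF').loc (fun e => one (e ∈ S)) f = P.loc (fun e => one (e ∈ S)) f :=
    fun f => rfl
  simp only [e3] at e2
  rw [e1 om, e1 ((P.mono hF').om om u), e2]
  have hgout : ∀ x : G.Dart, x.fst ∉ C → one (eu x ∈ S) = 0 := by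
    intro x hx
    refine one_neg fun h => hx ?_
    exact ((eu_cross hC x).1 (hS _ h)).2
  have h1 : ∀ q : Prop, one q ≤ 1 := by
    intro q
    by_cases hq : q
    · rw [one_pos hq]
    · rw [one_neg hq]
      norm_num
  have hsum : ∑ f ∈ F', (-(if f ∈ mixF R κ C F δ then (3 : ℝ) else 0)) ≤
      ∑ f ∈ F', P.loc (fun e => one (e ∈ S)) f := by
    refine sum_le_sum fun f hf => ?_
    by_cases h2 : f ∈ mixF R κ C F δ
    · rw [if_pos h2]
      unfold Pents.loc
      linarith [one_nonneg (P.ea f ∈ S), one_nonneg (P.ec f ∈ S), h1 (P.l12 f ∈ S),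
        h1 (P.l2a f ∈ S), h1 (P.lc1 f ∈ S)]
    · rw [if_neg h2, neg_zero]
      refine le_of_eq (Eq.symm ?_)
      refine loc_of_not_meet hcub hδ hL hgout ?_
      intro v hv hvC
      exact h2 (mem_mixF_of (hF' hf) (hown f hf) ⟨v, hv, hvC⟩)
  have hc : ∑ f ∈ F', (if f ∈ mixF R κ C F δ then (3 : ℝ) else 0) ≤
      3 * (mixF R κ C F δ).card := by
    rw [sum_ite_mem, sum_const, nsmul_eq_mul]
    have h3 : ((F' ∩ mixF R κ C F δ).card : ℝ) ≤ (mixF R κ C F δ).card := by
      exact_mod_cast card_le_card inter_subset_right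
    linarith
  rw [sum_neg_distrib] at hsum
  have h4 : -(3 * ((mixF R κ C F δ).card : ℝ)) ≤ ∑ f ∈ F', P.loc (fun e => one (e ∈ S)) f := by
    linarith
  have := mul_le_mul_of_nonneg_left h4 hu
  linarith

end places

end Pool.Agent.Uni3
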