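import Mathlib
import Pool.Agent.Work.MP_392c8e_co_uni.Fam
import Pool.Agent.Work.MP_392c8e_co_t1.Master

/-!
# The two ends of the construction

From the strict colouring of the new graph to charges of the faces of the old graph, and from
bounded charges of the faces back to a colouring of the old graph.
-/

namespace Pool.Agent.Uni91

open Finset Pool.Agent.Sub392 Pool.Agent.Circ
open Pool.Agent.T1Red
open Pool.Agent.Red (Pl)
open Pool.Agent.Uni392 (StrictN Place)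

set_option linter.unusedSectionVars false

variable {V : Type} [Fintype V] [DecidableEq V] {G : SimpleGraph V} [DecidableRel G.Adj]

/-- The dual multigraph: left and right faces of an edge. -/
def lf (R : Rot G) (e : Up G) : R.Face := R.face e.1

/-- The dual multigraph: left and right faces of an edge. -/
def rf (R : Rot G) (e : Up G) : R.Face := R.face e.1.symm

/-- Potentials from charges with real weights, up to a small error. -/
theorem exists_pot_eps (R : Rot G) (hP : R.Plane) (w : R.Face → ℤ) (b : Up G → ℤ)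
    (om : Up G → ℝ) (h0 : ∀ e, 0 ≤ om e) {η : ℝ} (hη : 0 < η)
    (hpar : ∀ f, (2 : ℤ) ∣ w f - MP974d84.D (lf R) (rf R) b f)
    (h : ∀ Z : Finset R.Face, |((∑ f ∈ Z, w f : ℤ) : ℝ)| ≤ ∑ e ∈ cut (lf R) (rf R) Z, om e) :
    ∃ (y : V → ℝ) (p : Up G → ℤ), (∀ e, (2 : ℤ) ∣ p e - b e) ∧
      ∀ e : Up G, |y e.1.snd - y e.1.fst - p e| ≤ om e + η := by
  obtain ⟨N, hN⟩ := exists_nat_gt (1 / η)
  have hN0 : (0 : ℝ) < N := lt_trans (by positivity) hN
  have hN1 : 0 < N := by exact_mod_cast hN0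
  have hceil : ∀ e, om e ≤ (⌈(N : ℝ) * om e⌉₊ : ℝ) / N := by
    intro e
    rw [le_div_iff₀ hN0, mul_comm]
    exact Nat.le_ceil _
  obtain ⟨y, p, hp, hb⟩ := exists_pot_real R hP w b hN1 (fun e => ⌈(N : ℝ) * om e⌉₊) hpar
    (fun Z => (h Z).trans (sum_le_sum fun e _ => hceil e))
  refine ⟨y, p, hp, fun e => (hb e).trans ?_⟩
  rw [div_le_iff₀ hN0]
  have h1 := (Nat.ceil_lt_add_one (mul_nonneg hN0.le (h0 e))).le
  have h2 : 1 ≤ η * N := by
    rw [div_lt_iff₀ hη] at hN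
    linarith
  nlinarith

/-- **The end of the pipe.**  Charges of the faces with the parities of the new graph which are
bounded by the weights give bounded heights on the new graph. -/
theorem VD.strictN_of_charges {I : V → Prop} {P : List (V × List V × V)} (hd : VD G I P)
    (R : Rot G) (hP : R.Plane) {k : ℕ} (hk : ∀ p ∈ P, p.2.1.length ≤ k) {θ M : ℝ} (hθ0 : 0 ≤ θ)
    (hM : 0 ≤ M) {H : ℕ} (hH : 2 / 3 < (1 / 3 - θ) * (H + 1))
    (w : R.Face → ℤ)
    (hpar : ∀ f, (2 : ℤ) ∣ w f -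
      MP974d84.D (lf R) (rf R) (fun e => parV I P e.1.fst e.1.snd) f)
    (h : ∀ Z : Finset R.Face, |((∑ f ∈ Z, w f : ℤ) : ℝ)| ≤
      ∑ e ∈ cut (lf R) (rf R) Z, omV I P θ M e.1.fst e.1.snd) :
    StrictN (newG G I (ends P)) (H + 1) := by
  -- the small error
  have hH1 : (0 : ℝ) < (H : ℝ) + 1 := by positivity
  have hk1 : (0 : ℝ) < (k : ℝ) + 1 := by positivity
  set δ : ℝ := ((1 / 3 - θ) - 2 / 3 / (H + 1)) / (k + 1) with hδ
  have hδ0 : 0 < δ := by
    rw [hδ]
    refine div_pos ?_ hk1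
    rw [sub_pos, div_lt_iff₀ hH1]
    exact hH
  have e1 : ((k : ℝ) + 1) * δ = (1 / 3 - θ) - 2 / 3 / (H + 1) := by
    rw [hδ]
    field_simp
  obtain ⟨y, p, hp, hb⟩ := exists_pot_eps R hP w _ _
    (fun e => omV_nonneg (I := I) (P := P) hθ0 hM e.1.fst e.1.snd) hδ0 hpar h
  refine hd.strictN (y := y) (θ := θ) (M := M) hδ0.le ?_ hk ?_ H ?_
  · intro u v huv
    rcases up_or (⟨(u, v), huv⟩ : G.Dart) with h1 | h1
    · exact ⟨p ⟨⟨(u, v), huv⟩, h1⟩, hp _, hb ⟨⟨(u, v), huv⟩, h1⟩⟩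
    · have h2 := hb ⟨(⟨(u, v), huv⟩ : G.Dart).symm, h1⟩
      have h3 := hp ⟨(⟨(u, v), huv⟩ : G.Dart).symm, h1⟩
      have h3' : (2 : ℤ) ∣ p ⟨(⟨(u, v), huv⟩ : G.Dart).symm, h1⟩ - parV I P v u := h3
      have h2' : |y u - y v - p ⟨(⟨(u, v), huv⟩ : G.Dart).symm, h1⟩| ≤
          omV I P θ M v u + δ := h2
      refine ⟨-p ⟨(⟨(u, v), huv⟩ : G.Dart).symm, h1⟩, ?_, ?_⟩
      · rw [parV_symm]
        obtain ⟨q, hq⟩ := h3'
        exact ⟨-q - parV I P v u, by linarith⟩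
      · rw [hd.omV_symm, ← abs_neg]
        refine le_trans (le_of_eq ?_) h2'
        congr 1
        push_cast
        ring
  · rw [e1]
    have : 0 < 2 / 3 / ((H : ℝ) + 1) := by positivity
    linarith
  · rw [e1]
    have e2 : 1 / 3 - (θ + (1 / 3 - θ - 2 / 3 / ((H : ℝ) + 1))) = 2 / 3 / (H + 1) := by ring
    rw [e2, div_mul_cancel₀ _ hH1.ne']

/-- **The end of the pipe for a family of places.** -/
theorem Fam.hasPQ_of_charges {ι : Type} [Fintype ι] [DecidableEq ι] {p : ι → Place V}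
    (hp : Fam p G) (R : Rot G) (hP : R.Plane) {k s t : ℕ}
    (hk : ∀ q ∈ FP p, q.2.1.length ≤ k) (hs : ∀ i, (p i).R.m ≤ s) (ht : ∀ i, (p i).R.t ≤ t)
    {θ M : ℝ} (hθ0 : 0 ≤ θ) (hM : 0 ≤ M) {H : ℕ}
    (hH : 2 / 3 < (1 / 3 - θ) * (H + 1)) (w : R.Face → ℤ)
    (hpar : ∀ f, (2 : ℤ) ∣ w f -
      MP974d84.D (lf R) (rf R) (fun e => parV (FI p) (FP p) e.1.fst e.1.snd) f)
    (h : ∀ Z : Finset R.Face, |((∑ f ∈ Z, w f : ℤ) : ℝ)| ≤
      ∑ e ∈ cut (lf R) (rf R) Z, omV (FI p) (FP p) θ M e.1.fst e.1.snd) :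
    HasPQ G (3 * ((s + 1) * ((t + 1) * (H + 1) + 1))) ((s + 1) * ((t + 1) * (H + 1) + 1) + 1) :=
  (hp.lift hs ht (hp.vd.strictN_of_charges R hP hk hθ0 hM hH w hpar h)).hasPQ

/-- The number of inner vertices of the paths. -/
theorem Fam.length_le {ι : Type} [Fintype ι] {p : ι → Place V} (hp : Fam p G) {s : ℕ}
    (hs : ∀ i, (p i).R.m ≤ s) : ∀ q ∈ FP p, q.2.1.length ≤ s := by
  intro q hq
  obtain ⟨i, hi⟩ := mem_FP.1 hq
  unfold Place.pth at hi
  obtain ⟨q', hq', rfl⟩ := List.mem_map.1 hi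
  have hd := (hp.good i).ok.data
  rw [List.length_map]
  refine le_trans ?_ (hs i)
  have hn : q'.2.1.Nodup := by
    have h1 := hd.nodup q' hq'
    rw [List.pairwise_cons, List.pairwise_append] at h1
    exact h1.2.1.imp fun h2 h3 => h2 (Or.inl h3)
  have hsub : q'.2.1.toFinset ⊆ (Finset.range (p i).R.m).image fun j => (p i).R.t + j := by
    intro x hx
    rw [List.mem_toFinset] at hx
    have h1 := hd.inner q' hq' x hx
    have h2 := (hd.rng q' hq' x (by simp [hx])).1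
    rw [Finset.mem_image]
    exact ⟨x - (p i).R.t, Finset.mem_range.2 (by omega), by omega⟩
  have h1 := Finset.card_le_card hsub
  rw [List.toFinset_card_of_nodup hn] at h1
  refine h1.trans (Finset.card_image_le.trans ?_)
  rw [Finset.card_range]

/-- **The beginning of the pipe.**  The strict colouring of the new graph gives a potential on the
old graph. -/
theorem Fam.exists_strict_pot {ι : Type} [Fintype ι] {p : ι → Place V} (F : Facts)
    (hp : Fam p G) (hPl : Pl G) (hdeg : Deg3 G) (hfree : G.CliqueFree 3) {M : ℝ} (hM : 18 < M) :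
    ∃ (y : V → ℝ) (q : Up G → ℤ),
      (∀ e : Up G, (2 : ℤ) ∣ q e - parV (FI p) (FP p) e.1.fst e.1.snd) ∧
      ∀ e : Up G, |y e.1.snd - y e.1.fst - q e| <
        omV (FI p) (FP p) 1 M e.1.fst e.1.snd / 3 :=
  hp.vd.exists_pot_lt (F.strict (hp.pl hPl) (hp.cliqueFree hfree)
    (deg3_iff.1 (hp.deg hdeg))) hM

end Pool.Agent.Uni91
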