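import Mathlib
import Pool.Agent.Work.MP_392c8e_co_uni.TowerST
import Pool.Agent.Work.MP_392c8e_co_uni.Switch7

/-!
# From bounds on the unions of parts to bounds for all sets

A family of minimal value for the weights with places of degree 5, charges which are bounded on the
unions of its parts: charges which are bounded on all sets.
-/

namespace Pool.Agent.Uni3

open Finset Pool.Agent.Circ

set_option linter.unusedSectionVars false

variable {V E : Type*} [Fintype V] [DecidableEq V] [Fintype E] [DecidableEq E]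
  {s t : E → V} {F : Finset V}

/-- The switching step for given charges. -/
theorem Pents.switch (P : Pents s t F) {om : E → ℝ} {θ u : ℝ} (hu : 0 ≤ u) (hθ0 : 0 ≤ θ)
    (hθ : 5 * θ + 2 * u < 3) (hθ' : θ ≤ 1 / 3)
    (hom : ∀ f ∈ F, ∀ e ∈ cut s t {f}, om e = θ) (w : V → ℤ) (hwF : ∀ f ∈ F, Odd (w f))
    (h4 : ∀ Z : Finset V, |((∑ v ∈ Z, w v : ℤ) : ℝ)| ≤ ∑ e ∈ cut s t Z, P.om om u e)
    (Z : Finset V) : |((∑ v ∈ Z, w v : ℤ) : ℝ)| ≤ ∑ e ∈ cut s t Z, om e +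
        (1 - 3 * θ) / 4 * ∑ f ∈ F, ((cut s t Z ∩ cut s t {f}).card : ℝ) := by
  have hw : ∀ f ∈ F, |w f| = 1 := by
    intro f hf
    have h5 := h4 {f}
    rw [sum_singleton] at h5
    have h6 : |(w f : ℝ)| < 3 := by
      have := P.om_star_le hu hf (hom f hf)
      linarith
    have h7 : |w f| < 3 := by exact_mod_cast h6
    obtain ⟨k, hk⟩ := hwF f hf
    rw [abs_lt] at h7
    rcases abs_cases (w f) with ⟨h9, _⟩ | ⟨h9, _⟩ <;> rw [h9] <;> omega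
  refine switch_bound s t om F w θ hθ0 hθ' P.ind P.five hom (fun f hf => (hw f hf).le) ?_ Z
  intro A hA
  refine (h4 A).trans ?_
  rw [P.sum_om_cut]
  have h5 : ∑ f ∈ F, P.loc (fun e => one (e ∈ cut s t A)) f ≤ 0 :=
    sum_nonpos fun f hf => P.loc_cut_le hf (hA f hf)
  have := mul_nonpos_of_nonneg_of_nonpos hu h5
  linarith

/-- **From the unions of the parts to all sets.** -/
theorem exists_chg_level (P : Pents s t F) {om : E → ℝ} {θ u : ℝ} (hu : 0 ≤ u)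
    (hθ : 5 * θ + 2 * u < 3) (hθ4 : 1 / 4 < θ) (hθ' : θ ≤ 1 / 3) (hom0 : ∀ e, 0 ≤ om e)
    (hom : ∀ f ∈ F, ∀ e ∈ cut s t {f}, om e = θ)
    (hom' : ∀ f ∈ F, 2 * u ≤ om (P.l12 f) ∧ 2 * u ≤ om (P.l2a f) ∧ 2 * u ≤ om (P.lc1 f))
    {K : Finset V} (hFK : F ⊆ K) {p : V → Option V} (hp : Adm K p)
    (hmin : ∀ q, Adm K q → phi s t (P.om om u) K p ≤ phi s t (P.om om u) K q)
    {F' : Finset V} (hF' : F' ⊆ F)
    (hD : ∀ f ∈ F, f ∉ F' → p (P.h1 f) = none ∧ p (P.h2 f) = none ∧ p f ≠ p (P.a f) ∧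
      p f ≠ p (P.c f))
    (b : V → ℤ) (hbF : ∀ f ∈ F, Odd (b f)) (w0 : V → ℤ) (h0 : ∀ v, v ∉ K → w0 v = 0)
    (hs : ∑ v, w0 v = 0) (hpar : ∀ v ∈ K, (2 : ℤ) ∣ w0 v - b v)
    (H : ∀ A, IsUn p A → ∑ v ∈ A, (w0 v : ℝ) ≤ ∑ e ∈ cut s t A, (P.mono hF').om om u e) :
    ∃ w : V → ℤ, (∀ v, v ∉ K → w v = 0) ∧ (∀ v ∈ K, (2 : ℤ) ∣ w v - b v) ∧
      ∀ Z : Finset V, |((∑ v ∈ Z, w v : ℤ) : ℝ)| ≤ ∑ e ∈ cut s t Z, om e +
        (1 - 3 * θ) / 4 * ∑ f ∈ F', ((cut s t Z ∩ cut s t {f}).card : ℝ) := by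
  have hom'' : ∀ e, 0 ≤ (P.mono hF').om om u e :=
    (P.mono hF').om_nonneg hu hom0 fun f hf => hom' f (hF' hf)
  have hmin' := P.drop hu hθ4 hom0 hom hom' hFK hp hmin hF' hD
  obtain ⟨w, h1, h2, -, -, h5⟩ := tower_lam_w s t ((P.mono hF').om om u) hom'' K p hp hmin'
    ((P.mono hF').om om u) hom'' (fun _ _ _ _ => le_rfl) b w0 h0 hs hpar H
  refine ⟨w, h1, h2, ?_⟩
  refine (P.mono hF').switch hu (by linarith) hθ hθ' (fun f hf => hom f (hF' hf)) w ?_ ?_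
  · intro f hf
    obtain ⟨k, hk⟩ := h2 f (hFK (hF' hf))
    obtain ⟨l, hl⟩ := hbF f (hF' hf)
    exact ⟨k + l, by linarith⟩
  · intro Z
    push_cast
    refine (h5 Z).trans (le_of_eq (sum_congr rfl fun e _ => ?_))
    split_ifs <;> rfl

end Pool.Agent.Uni3
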