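import Mathlib
import Pool.Agent.Work.MP_392c8e_co_uni.Mid
import Pool.Agent.Work.MP_392c8e_co_uni.Ends

/-!
# The middle of the construction for a virtual surgery

A family of parts of minimal value and a strict colouring of the new graph whose charges are
bounded on the unions of parts give a strict colouring with a bounded number of levels.
-/

namespace Pool.Agent.Uni91

open Finset Pool.Agent.Sub392 Pool.Agent.Circ
open Pool.Agent.T1Red (newG Str)
open Pool.Agent.Uni392 (StrictN Place)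
open Pool.Agent.Uni3 (Adm phi IsUn Pents exists_chg_level star_disj)

set_option linter.unusedSectionVars false

/-- The weights are monotone. -/
theorem omV_le {V : Type} {I : V → Prop} {Q : List (V × List V × V)} {θ θ' M M' : ℝ}
    (h1 : θ ≤ θ') (h2 : M ≤ M') (u v : V) : omV I Q θ M u v ≤ omV I Q θ' M' u v := by
  classical
  unfold omV
  split_ifs
  · exact div_le_div_of_nonneg_right h1 (by positivity)
  · exact h2
  · exact h1

/-- The divergence modulo two. -/
theorem D_mod {W E : Type*} [Fintype W] [DecidableEq W] [Fintype E] [DecidableEq E]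
    (s t : E → W) (b : E → ℤ) (f : W) :
    (2 : ℤ) ∣ MP974d84.D s t b f - ∑ e ∈ cut s t {f}, b e := by
  unfold MP974d84.D cut
  rw [sum_filter, ← sum_sub_distrib]
  refine dvd_sum fun e _ => ?_
  by_cases h1 : s e = f <;> by_cases h2 : t e = f <;> simp [h1, h2]
  · exact ⟨-b e, by ring⟩

/-- Lower bound for the weights. -/
theorem VD.le_omV {V : Type} {G : SimpleGraph V} {I : V → Prop} {Q : List (V × List V × V)}
    (hd : VD G I Q) {k : ℕ} (hk : ∀ p ∈ Q, p.2.1.length ≤ k) {θ M c : ℝ} (hθ : 0 ≤ θ)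
    (h1 : c ≤ θ / (k + 1)) (h2 : c ≤ M) (u v : V) : c ≤ omV I Q θ M u v := by
  classical
  have hk0 : (0 : ℝ) < (k : ℝ) + 1 := by positivity
  have h3 : θ / (k + 1) ≤ θ := by
    rw [div_le_iff₀ hk0]
    have : (0 : ℝ) ≤ k := Nat.cast_nonneg k
    nlinarith
  by_cases h : ∃ p ∈ Q, OnP p u v
  · obtain ⟨p, hp, h⟩ := h
    rw [hd.omV_path hp h]
    refine h1.trans (div_le_div_of_nonneg_left hθ (by positivity) ?_)
    have : (p.2.1.length : ℝ) ≤ k := by exact_mod_cast hk p hp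
    linarith
  · unfold omV
    rw [dif_neg h]
    split_ifs
    · exact h2
    · linarith

variable {V : Type} [Fintype V] [DecidableEq V] {G : SimpleGraph V} [DecidableRel G.Adj]
  {I : V → Prop} {Q : List (V × List V × V)}

/-- The weights of the edges. -/
noncomputable def wV (I : V → Prop) (Q : List (V × List V × V)) (θ M : ℝ) (e : Up G) : ℝ :=
  omV I Q θ M e.1.fst e.1.snd

/-- The parities of the faces. -/
noncomputable def bV (R : Rot G) (I : V → Prop) (Q : List (V × List V × V)) (f : R.Face) : ℤ :=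
  MP974d84.D (lf R) (rf R) (fun e => parV I Q e.1.fst e.1.snd) f

/-- The charge of a face with even parity and weight at most `6` is zero. -/
theorem D_eq_zero (R : Rot G) {y : V → ℝ} {q : Up G → ℤ} {M0 : ℝ}
    (hq : ∀ e : Up G, (2 : ℤ) ∣ q e - parV I Q e.1.fst e.1.snd)
    (hy : ∀ e : Up G, |y e.1.snd - y e.1.fst - q e| < wV I Q 1 M0 e / 3) {f : R.Face}
    (hK : (2 : ℤ) ∣ bV R I Q f) (hK6 : ∑ e ∈ cut (lf R) (rf R) {f}, wV I Q 1 M0 e ≤ 6) :
    MP974d84.D (lf R) (rf R) q f = 0 := by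
  classical
  have hpar : (2 : ℤ) ∣ MP974d84.D (lf R) (rf R) q f - bV R I Q f :=
    charges_parity (lf R) (rf R) hq f
  have h1 : |((MP974d84.D (lf R) (rf R) q f : ℤ) : ℝ)| < 2 := by
    by_cases hc : (cut (lf R) (rf R) {f}) = ∅
    · have h2 := charges_of_pot R (fun e => (hy e).le) {f}
      rw [sum_singleton] at h2
      have h3 : ∑ e ∈ cut (fun e : Up G => R.face e.1) (fun e : Up G => R.face e.1.symm) {f},
          wV I Q 1 M0 e / 3 = 0 := by
        have : cut (fun e : Up G => R.face e.1) (fun e : Up G => R.face e.1.symm) {f} = ∅ := hc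
        rw [this, sum_empty]
      rw [h3] at h2
      exact lt_of_le_of_lt h2 (by norm_num)
    · obtain ⟨δ, hδ, hδ'⟩ : ∃ δ > (0 : ℝ), ∀ e : Up G,
          |y e.1.snd - y e.1.fst - q e| ≤ wV I Q 1 M0 e / 3 - δ := by
        obtain ⟨e0, he0⟩ := Finset.nonempty_iff_ne_empty.2 hc
        obtain ⟨e1, -, he1⟩ := exists_min_image (univ : Finset (Up G))
          (fun e => wV I Q 1 M0 e / 3 - |y e.1.snd - y e.1.fst - q e|) ⟨e0, mem_univ _⟩
        refine ⟨_, sub_pos.2 (hy e1), fun e => ?_⟩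
        have := he1 e (mem_univ _)
        linarith
      have h2 := charges_of_pot R hδ' {f}
      rw [sum_singleton, sum_sub_distrib, sum_const, nsmul_eq_mul, ← sum_div] at h2
      have h3 : 0 < ((cut (lf R) (rf R) {f}).card : ℝ) := by
        exact_mod_cast Finset.card_pos.2 (Finset.nonempty_iff_ne_empty.2 hc)
      have h5 : 0 < ((cut (lf R) (rf R) {f}).card : ℝ) * δ := mul_pos h3 hδ
      have h6 : |((MP974d84.D (lf R) (rf R) q f : ℤ) : ℝ)| ≤
        (∑ e ∈ cut (lf R) (rf R) {f}, wV I Q 1 M0 e) / 3 -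
          ((cut (lf R) (rf R) {f}).card : ℝ) * δ := h2
      linarith
  have h2 : |MP974d84.D (lf R) (rf R) q f| < 2 := by exact_mod_cast h1
  have h3 : (2 : ℤ) ∣ MP974d84.D (lf R) (rf R) q f := by
    have := dvd_add hpar hK
    rwa [sub_add_cancel] at this
  rw [abs_lt] at h2
  omega

/-- The final estimate. -/
theorem VD.sum_switch_le (hd : VD G I Q) (R : Rot G) {F : Finset R.Face}
    (hind : ∀ e : Up G, lf R e ≠ rf R e → ¬ (lf R e ∈ F ∧ rf R e ∈ F)) {θ M : ℝ}
    (hθ : θ ≤ 1 / 3)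
    (hkept : ∀ f ∈ F, ∀ e ∈ cut (lf R) (rf R) {f}, ¬ I e.1.fst ∧ ¬ I e.1.snd)
    (Z : Finset R.Face) :
    ∑ e ∈ cut (lf R) (rf R) Z, wV I Q θ M e + (1 - 3 * θ) / 4 *
      ∑ f ∈ F, ((cut (lf R) (rf R) Z ∩ cut (lf R) (rf R) {f}).card : ℝ) ≤
      ∑ e ∈ cut (lf R) (rf R) Z, wV I Q ((1 + θ) / 4) M e := by
  classical
  have h1 : ∑ f ∈ F, ((cut (lf R) (rf R) Z ∩ cut (lf R) (rf R) {f}).card : ℝ) =
      ∑ e ∈ cut (lf R) (rf R) Z, ∑ f ∈ F, if e ∈ cut (lf R) (rf R) {f} then (1 : ℝ) else 0 := by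
    rw [sum_comm]
    refine sum_congr rfl fun f _ => ?_
    rw [← sum_filter, sum_const, nsmul_eq_mul, mul_one, filter_mem_eq_inter]
  rw [h1, mul_sum, ← sum_add_distrib]
  refine sum_le_sum fun e _ => ?_
  by_cases hex : ∃ f ∈ F, e ∈ cut (lf R) (rf R) {f}
  · obtain ⟨f, hf, hef⟩ := hex
    have h2 : ∑ g ∈ F, (if e ∈ cut (lf R) (rf R) {g} then (1 : ℝ) else 0) = 1 := by
      rw [sum_eq_single f]
      · rw [if_pos hef]
      · intro g hg hgf
        rw [if_neg]
        intro h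
        exact hgf (star_disj hind hg hf h hef)
      · intro h
        exact absurd hf h
    obtain ⟨h3, h4⟩ := hkept f hf e hef
    unfold wV
    rw [h2, omV_kept hd h3 h4, omV_kept hd h3 h4]
    linarith
  · push Not at hex
    have h2 : ∑ g ∈ F, (if e ∈ cut (lf R) (rf R) {g} then (1 : ℝ) else 0) = 0 :=
      sum_eq_zero fun g hg => if_neg (hex g hg)
    rw [h2, mul_zero, add_zero]
    unfold wV
    exact omV_le (by linarith) le_rfl _ _

/-- **The middle of the construction.**  `p` is a family of parts of minimal value for the weights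
with places `F`, `F'` contains the places which do not have the full gain; the charges `D q` of a
strict colouring of the new graph are bounded on the unions of parts. -/
theorem VD.strictN_of_level (hd : VD G I Q) (R : Rot G) (hP : R.Plane) {F : Finset R.Face}
    (P : Pents (lf R) (rf R) F) {θ u M M0 : ℝ} (hu : 0 ≤ u) (hθu : 5 * θ + 2 * u < 3)
    (hθ4 : 1 / 4 < θ) (hθ' : θ ≤ 1 / 3) {k : ℕ} (hk : ∀ p ∈ Q, p.2.1.length ≤ k)
    (hku : 2 * u ≤ θ / (k + 1)) (hMu : 2 * u ≤ M) {H : ℕ}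
    (hH : 2 / 3 < (1 / 3 - (1 + θ) / 4) * (H + 1))
    (hkept : ∀ f ∈ F, ∀ e ∈ cut (lf R) (rf R) {f}, ¬ I e.1.fst ∧ ¬ I e.1.snd)
    {K : Finset R.Face} (hFK : F ⊆ K) (hK : ∀ f, f ∉ K → (2 : ℤ) ∣ bV R I Q f)
    (hK6 : ∀ f, f ∉ K → ∑ e ∈ cut (lf R) (rf R) {f}, wV I Q 1 M0 e ≤ 6)
    {p : R.Face → Option R.Face} (hp : Adm K p)
    (hmin : ∀ q, Adm K q → phi (lf R) (rf R) (P.om (wV I Q θ M) u) K p ≤
      phi (lf R) (rf R) (P.om (wV I Q θ M) u) K q)
    {F' : Finset R.Face} (hF' : F' ⊆ F)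
    (hD : ∀ f ∈ F, f ∉ F' → p (P.h1 f) = none ∧ p (P.h2 f) = none ∧ p f ≠ p (P.a f) ∧
      p f ≠ p (P.c f))
    {y : V → ℝ} {q : Up G → ℤ} (hq : ∀ e : Up G, (2 : ℤ) ∣ q e - parV I Q e.1.fst e.1.snd)
    (hy : ∀ e : Up G, |y e.1.snd - y e.1.fst - q e| < wV I Q 1 M0 e / 3)
    (hlev : ∀ A, IsUn p A → ∑ f ∈ A, ((MP974d84.D (lf R) (rf R) q f : ℤ) : ℝ) ≤
      ∑ e ∈ cut (lf R) (rf R) A, (P.mono hF').om (wV I Q θ M) u e) :
    StrictN (newG G I (ends Q)) (H + 1) := by
  classical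
  have hθ0 : 0 ≤ θ := by linarith
  have hM : 0 ≤ M := by linarith
  have hlow : ∀ e : Up G, 2 * u ≤ wV I Q θ M e := fun e => hd.le_omV hk hθ0 hku hMu _ _
  -- the parities of the charges
  have hpar : ∀ f, (2 : ℤ) ∣ MP974d84.D (lf R) (rf R) q f - bV R I Q f := fun f =>
    charges_parity (lf R) (rf R) hq f
  -- the charges outside `K`
  have h0 : ∀ f, f ∉ K → MP974d84.D (lf R) (rf R) q f = 0 := fun f hf =>
    D_eq_zero R hq hy (hK f hf) (hK6 f hf)
  have hs : ∑ f, MP974d84.D (lf R) (rf R) q f = 0 := by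
    rw [MP974d84.D_cut]
    exact sum_eq_zero fun e _ => by simp [MP974d84.ov]
  -- the faces of `F` are odd
  have hodd : ∀ f ∈ F, Odd (bV R I Q f) := by
    intro f hf
    obtain ⟨l, hl⟩ := D_mod (lf R) (rf R) (fun e => parV I Q e.1.fst e.1.snd) f
    have h1 : ∑ e ∈ cut (lf R) (rf R) {f}, parV I Q e.1.fst e.1.snd = 5 := by
      rw [sum_congr rfl fun e he => parV_kept hd (hkept f hf e he).1 (hkept f hf e he).2,
        sum_const, P.five f hf]
      norm_num
    rw [h1] at hl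
    exact ⟨l + 2, by unfold bV; linarith⟩
  obtain ⟨w, h1, h2, h3⟩ := exists_chg_level P hu hθu hθ4 hθ'
    (fun e => le_trans (by linarith) (hlow e)) (fun f hf e he => by
      unfold wV
      exact omV_kept hd (hkept f hf e he).1 (hkept f hf e he).2 θ M)
    (fun f _ => ⟨hlow _, hlow _, hlow _⟩) hFK hp hmin hF' hD (bV R I Q) hodd
    (fun f => MP974d84.D (lf R) (rf R) q f) h0 hs (fun f _ => hpar f) hlev
  refine hd.strictN_of_charges R hP hk (θ := (1 + θ) / 4) (M := M) (by linarith) hM hH w ?_ ?_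
  · intro f
    by_cases hf : f ∈ K
    · exact h2 f hf
    · rw [h1 f hf]
      have := hK f hf
      unfold bV at this
      simpa using this
  · intro Z
    exact (h3 Z).trans (hd.sum_switch_le R (fun e he hc => P.ind e he ⟨hF' hc.1, hF' hc.2⟩) hθ'
      (fun f hf => hkept f (hF' hf)) Z)

end Pool.Agent.Uni91
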