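import Mathlib
import Pool.Agent.Work.MP_392c8e_co_uni.Mid
import Pool.Agent.Work.MP_392c8e_co_uni.CountP

/-!
# Two simple properties of a family of minimal value
-/

namespace Pool.Agent.Uni13

open Finset Pool.Agent.Circ Pool.Agent.Uni3

set_option linter.unusedSectionVars false

variable {V E : Type*} [Fintype V] [DecidableEq V] [Fintype E] [DecidableEq E]

/-- An edge of weight more than `1` does not join two different parts. -/
theorem min_merge (s t : E → V) (om : E → ℝ) (hom : ∀ e, 0 ≤ om e) (K : Finset V)
    {p : V → Option V} (hp : Adm K p) (hmin : ∀ q, Adm K q → phi s t om K p ≤ phi s t om K q)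
    {e : E} (he : 1 < om e) (hs : p (s e) ≠ none) (ht : p (t e) ≠ none) : p (s e) = p (t e) := by
  classical
  by_contra hne
  have h1 := hmin _ (adm_mrg hp (f := s e) ht)
  unfold phi at h1
  rw [image_mrg hp hs ht hne] at h1
  have h2 : om e * cc (mrg p (s e) (t e)) (s e) (t e) + 2 * om e = om e * cc p (s e) (t e) := by
    have h3 : ¬ p (t e) = p (s e) := fun h => hne h.symm
    unfold cc mrg
    simp only [hne, h3, hs, ht, if_false, if_true]
    ring
  have h3 : ∑ e', om e' * cc (mrg p (s e) (t e)) (s e') (t e') + 2 * om e ≤
      ∑ e', om e' * cc p (s e') (t e') := by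
    rw [← add_sum_erase univ _ (mem_univ e), ← add_sum_erase univ (fun e' => om e' *
      cc p (s e') (t e')) (mem_univ e), ← h2]
    have : ∑ e' ∈ univ.erase e, om e' * cc (mrg p (s e) (t e)) (s e') (t e') ≤
        ∑ e' ∈ univ.erase e, om e' * cc p (s e') (t e') :=
      sum_le_sum fun e' _ => mul_le_mul_of_nonneg_left (cc_mrg_le hs ht _ _) (hom e')
    linarith
  linarith

/-- A covered vertex outside `K` has an edge to its own part. -/
theorem min_uncover (s t : E → V) (om : E → ℝ) (hom : ∀ e, 0 ≤ om e) (K : Finset V)
    {p : V → Option V} (hp : Adm K p) (hmin : ∀ q, Adm K q → phi s t om K p ≤ phi s t om K q)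
    {z : V} (hz : z ∉ K) (hpz : p z ≠ none) {e0 : E} (he0 : s e0 = z ∨ t e0 = z)
    (hpos : 0 < om e0) : ∃ e, (s e = z ∨ t e = z) ∧ p (s e) = p (t e) := by
  classical
  by_contra hc
  push Not at hc
  set q : V → Option V := fun v => if v = z then none else p v with hq
  have hadm : Adm K q := by
    constructor
    · intro v hv
      have : v ≠ z := fun h => hz (h ▸ hv)
      simp only [hq, if_neg this]
      exact hp.1 v hv
    · intro v c hvc
      simp only [hq] at hvc ⊢
      split_ifs at hvc with h1
      obtain ⟨h2, h3⟩ := hp.2 v c hvc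
      have : c ≠ z := fun h => hz (h ▸ h2)
      exact ⟨h2, by rw [if_neg this]; exact h3⟩
  have himg : K.image q = K.image p := by
    refine image_congr fun v hv => ?_
    have : v ≠ z := fun h => hz (h ▸ hv)
    simp only [hq, if_neg this]
  have h1 := hmin q hadm
  unfold phi at h1
  rw [himg] at h1
  have hle : ∀ e, cc q (s e) (t e) + (if s e = z ∨ t e = z then 1 else 0) ≤
      cc p (s e) (t e) := by
    intro e
    by_cases h2 : s e = z ∨ t e = z
    · have h3 := hc e h2
      rw [if_pos h2]
      have hst : s e ≠ t e := fun h => h3 (by rw [h])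
      unfold cc
      rcases h2 with h2 | h2
      · have h4 : t e ≠ z := fun h => hst (h2.trans h.symm)
        simp only [hq, h2, h4, if_true, if_false]
        rw [h2] at h3
        by_cases h5 : p (t e) = none
        · simp [h5, hpz]
        · have h6 : ¬ none = p (t e) := fun h => h5 h.symm
          simp [h5, h6, hpz, h3]
      · have h4 : s e ≠ z := fun h => hst (h.trans h2.symm)
        simp only [hq, h2, h4, if_true, if_false]
        rw [h2] at h3
        by_cases h5 : p (s e) = none
        · have h6 : ¬ none = p z := fun h => hpz h.symm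
          simp [h5, h6, hpz]
        · simp [h5, hpz, h3]
    · rw [if_neg h2, add_zero]
      push Not at h2
      unfold cc
      simp only [hq, if_neg h2.1, if_neg h2.2]
      exact le_rfl
  have h2 : ∑ e, om e * cc q (s e) (t e) + om e0 ≤ ∑ e, om e * cc p (s e) (t e) := by
    rw [← add_sum_erase univ _ (mem_univ e0), ← add_sum_erase univ (fun e' => om e' *
      cc p (s e') (t e')) (mem_univ e0)]
    have h3 : ∑ e' ∈ univ.erase e0, om e' * cc q (s e') (t e') ≤
        ∑ e' ∈ univ.erase e0, om e' * cc p (s e') (t e') := by
      refine sum_le_sum fun e' _ => mul_le_mul_of_nonneg_left ?_ (hom e')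
      have := hle e'
      have h4 : (0 : ℝ) ≤ if s e' = z ∨ t e' = z then 1 else 0 := by
        split_ifs <;> norm_num
      linarith
    have h4 := hle e0
    rw [if_pos he0] at h4
    have h5 := mul_le_mul_of_nonneg_left h4 hpos.le
    linarith
  linarith

end Pool.Agent.Uni13
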