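import Mathlib
import Pool.Agent.Work.MP_392c8e_co_uni.Ends
import Pool.Agent.Work.MP_392c8e_co_uni.CountP

/-!
# The count for a virtual surgery

The vertices of a component of the crossing edges with exactly two crossing edges count, except the
inner vertices of the paths, which count only if one side of the path is uncovered.
-/

namespace Pool.Agent.Uni91

open Finset Pool.Agent.Sub392 Pool.Agent.Circ Pool.Agent.Uni3
open Pool.Agent.T1Red (newG)

set_option linter.unusedSectionVars false

section rot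

variable {V : Type} [Fintype V] [DecidableEq V] {G : SimpleGraph V} [DecidableRel G.Adj]

/-- The rotation at a vertex with three darts. -/
theorem rot_cases (R : Rot G) {d₁ d₂ d₃ : G.Dart} (h12 : d₁ ≠ d₂) (h13 : d₁ ≠ d₃) (h23 : d₂ ≠ d₃)
    (e2 : d₂.fst = d₁.fst) (e3 : d₃.fst = d₁.fst)
    (h : ∀ d : G.Dart, d.fst = d₁.fst → d = d₁ ∨ d = d₂ ∨ d = d₃) :
    (R.rot d₁ = d₂ ∧ R.rot d₂ = d₃ ∧ R.rot d₃ = d₁) ∨
      (R.rot d₁ = d₃ ∧ R.rot d₃ = d₂ ∧ R.rot d₂ = d₁) := by
  have f1 : R.rot d₁ ≠ d₁ := fun h0 =>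
    h12 ((R.cyc d₁ d₂ e2.symm).eq_of_left h0)
  have f2 : R.rot d₂ ≠ d₂ := fun h0 =>
    h12 ((R.cyc d₂ d₁ e2).eq_of_left h0).symm
  have f3 : R.rot d₃ ≠ d₃ := fun h0 =>
    h13 ((R.cyc d₃ d₁ e3).eq_of_left h0).symm
  have g1 := h (R.rot d₁) (R.fst_rot d₁)
  have g2 := h (R.rot d₂) ((R.fst_rot d₂).trans e2)
  have g3 := h (R.rot d₃) ((R.fst_rot d₃).trans e3)
  have i12 : R.rot d₁ ≠ R.rot d₂ := fun h0 => h12 (R.rot.injective h0)
  have i13 : R.rot d₁ ≠ R.rot d₃ := fun h0 => h13 (R.rot.injective h0)
  have i23 : R.rot d₂ ≠ R.rot d₃ := fun h0 => h23 (R.rot.injective h0)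
  rcases g1 with g1 | g1 | g1
  · exact absurd g1 f1
  · left
    rcases g2 with g2 | g2 | g2
    · exfalso
      rcases g3 with g3 | g3 | g3
      · exact i23 (g2.trans g3.symm)
      · exact i13 (g1.trans g3.symm)
      · exact f3 g3
    · exact absurd g2 f2
    · rcases g3 with g3 | g3 | g3
      · exact ⟨g1, g2, g3⟩
      · exact absurd (g1.trans g3.symm) i13
      · exact absurd g3 f3
  · right
    rcases g3 with g3 | g3 | g3
    · exfalso
      rcases g2 with g2 | g2 | g2
      · exact i23 (g2.trans g3.symm)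
      · exact f2 g2
      · exact i12 (g1.trans g2.symm)
    · rcases g2 with g2 | g2 | g2
      · exact ⟨g1, g3, g2⟩
      · exact absurd g2 f2
      · exact absurd (g1.trans g2.symm) i12
    · exact absurd g3 f3

/-- If the third edge does not cross, then the labels of the sides of the two other edges are the
same, and they are the labels of all corners. -/
theorem labels_at {T : Type*} (R : Rot G) (κ : R.Face → T) {d₁ d₂ d₃ : G.Dart} (h12 : d₁ ≠ d₂)
    (h13 : d₁ ≠ d₃) (h23 : d₂ ≠ d₃) (e2 : d₂.fst = d₁.fst) (e3 : d₃.fst = d₁.fst)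
    (h : ∀ d : G.Dart, d.fst = d₁.fst → d = d₁ ∨ d = d₂ ∨ d = d₃)
    (hn : κ (R.face d₃) = κ (R.face d₃.symm)) :
    ((κ (R.face d₁) = κ (R.face d₂.symm) ∧ κ (R.face d₁.symm) = κ (R.face d₂))) ∧
      (∀ d : G.Dart, d.fst = d₁.fst → κ (R.face d) = κ (R.face d₁) ∨
        κ (R.face d) = κ (R.face d₁.symm)) := by
  have k1 : κ (R.face d₁.symm) = κ (R.face (R.rot d₁)) := by rw [face_rot]
  have k2 : κ (R.face d₂.symm) = κ (R.face (R.rot d₂)) := by rw [face_rot]
  have k3 : κ (R.face d₃.symm) = κ (R.face (R.rot d₃)) := by rw [face_rot]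
  rcases rot_cases R h12 h13 h23 e2 e3 h with ⟨r1, r2, r3⟩ | ⟨r1, r3, r2⟩
  · rw [r1] at k1
    rw [r2] at k2
    rw [r3] at k3
    refine ⟨⟨?_, k1⟩, fun d hd => ?_⟩
    · rw [k2, hn, k3]
    · rcases h d hd with rfl | rfl | rfl
      · exact Or.inl rfl
      · exact Or.inr k1.symm
      · exact Or.inl (hn.trans k3)
  · rw [r1] at k1
    rw [r2] at k2
    rw [r3] at k3
    refine ⟨⟨k2.symm, ?_⟩, fun d hd => ?_⟩
    · rw [k1, hn, k3]
    · rcases h d hd with rfl | rfl | rfl
      · exact Or.inl rfl
      · exact Or.inr (by rw [k1, hn, k3])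
      · exact Or.inr k1.symm

end rot

section path

variable {V : Type} [Fintype V] [DecidableEq V] {G : SimpleGraph V} [DecidableRel G.Adj]
  {I : V → Prop} {P : List (V × List V × V)}

/-- The inner vertices of the paths. -/
def Inn (P : List (V × List V × V)) (x : V) : Prop := ∃ q ∈ P, x ∈ q.2.1

/-- The deleted darts. -/
def IsDel (I : V → Prop) (P : List (V × List V × V)) (u v : V) : Prop :=
  (I u ∨ I v) ∧ ∀ q ∈ P, ¬ OnP q u v

theorem VD.adj_of_cs (hd : VD G I P) {q : V × List V × V} (hq : q ∈ P) {u v : V}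
    (h : Cs (full q) u v) : G.Adj u v := by
  obtain ⟨l₁, l₂, h1⟩ := h
  have h2 := (hd.chain q hq).1
  rw [h1] at h2
  have h3 := (List.isChain_append.1 h2).2.1
  rw [List.isChain_cons_cons] at h3
  exact h3.1

theorem full_length (q : V × List V × V) : (full q).length = q.2.1.length + 2 := by
  unfold full
  simp

theorem getElem_mem_inner {q : V × List V × V} {i : ℕ} (h : i + 2 < (full q).length)
    (h' : i + 1 < (full q).length) : (full q)[i + 1] ∈ q.2.1 := by
  have h1 := full_length q
  rw [full_get_succ q i h' (by simp; omega), List.getElem_append_left (by omega)]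
  exact List.getElem_mem _

/-- The darts at an inner vertex of a path. -/
theorem VD.inner_darts (hd : VD G I P) (hcub : ∀ v, G.degree v = 3) {q : V × List V × V}
    (hq : q ∈ P) {i : ℕ} (h2 : i + 2 < (full q).length) (d₁ d₂ : G.Dart)
    (a1 : d₁.fst = (full q)[i + 1]) (b1 : d₁.snd = (full q)[i]) (a2 : d₂.fst = (full q)[i + 1])
    (b2 : d₂.snd = (full q)[i + 2]) : d₁ ≠ d₂ ∧ ∃ d₃ : G.Dart, d₁ ≠ d₃ ∧ d₂ ≠ d₃ ∧
      d₃.fst = d₁.fst ∧ IsDel I P d₃.fst d₃.snd ∧
      ∀ d : G.Dart, d.fst = d₁.fst → d = d₁ ∨ d = d₂ ∨ d = d₃ := by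
  classical
  obtain ⟨hc, hn⟩ := hd.chain q hq
  have hne : d₁ ≠ d₂ := by
    intro h
    rw [h, b2] at b1
    have := (List.Nodup.getElem_inj_iff hn).1 b1
    omega
  have e12 : d₂.fst = d₁.fst := a2.trans a1.symm
  have hN : (G.neighborFinset d₁.fst).card = 3 := by
    rw [G.card_neighborFinset_eq_degree]
    exact hcub _
  have m1 : d₁.snd ∈ G.neighborFinset d₁.fst := by
    rw [SimpleGraph.mem_neighborFinset]
    exact d₁.adj
  have m2 : d₂.snd ∈ G.neighborFinset d₁.fst := by
    rw [SimpleGraph.mem_neighborFinset, ← e12]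
    exact d₂.adj
  have hs : d₁.snd ≠ d₂.snd := by
    rw [b1, b2]
    intro h
    have := (List.Nodup.getElem_inj_iff hn).1 h
    omega
  obtain ⟨z, hz⟩ : ∃ z, z ∈ ((G.neighborFinset d₁.fst).erase d₁.snd).erase d₂.snd := by
    apply Finset.card_pos.1
    rw [card_erase_of_mem (mem_erase.2 ⟨hs.symm, m2⟩), card_erase_of_mem m1, hN]
    norm_num
  rw [mem_erase, mem_erase, SimpleGraph.mem_neighborFinset] at hz
  obtain ⟨z1, z2, z3⟩ := hz
  refine ⟨hne, ⟨(d₁.fst, z), z3⟩, ?_, ?_, rfl, ?_, ?_⟩
  · intro h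
    apply z2
    rw [h]
  · intro h
    apply z1
    rw [h]
  · refine ⟨Or.inl ?_, ?_⟩
    · show I d₁.fst
      rw [a1]
      exact hd.int q hq _ (getElem_mem_inner h2 (by omega))
    · intro q' hq' hon
      change OnP q' d₁.fst z at hon
      have hx : d₁.fst ∈ full q' := by
        rcases hon with h | h
        · exact h.mem.1
        · exact h.mem.2
      have hxq : d₁.fst ∈ q.2.1 := by
        rw [a1]
        exact getElem_mem_inner h2 (by omega)
      have := hd.uniq_inner hq hq' hxq hx
      subst this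
      rcases hon with h | h
      · obtain ⟨j, hj, r1, r2⟩ := cs_iff_get.1 h
        rw [a1] at r1
        have r3 := (List.Nodup.getElem_inj_iff hn).1 r1
        subst r3
        exact z1 (by rw [b2, ← r2])
      · obtain ⟨j, hj, r1, r2⟩ := cs_iff_get.1 h
        rw [a1] at r2
        have r3 := (List.Nodup.getElem_inj_iff hn).1 r2
        have r4 : j = i := by omega
        subst r4
        exact z2 (by rw [b1, ← r1])
  · intro d hd'
    have hcov : ({d₁.snd, d₂.snd, z} : Finset V) = G.neighborFinset d₁.fst := by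
      refine eq_of_subset_of_card_le ?_ ?_
      · intro v hv
        simp only [mem_insert, mem_singleton] at hv
        rcases hv with rfl | rfl | rfl
        · exact m1
        · exact m2
        · rw [SimpleGraph.mem_neighborFinset]
          exact z3
      · rw [hN, card_insert_of_notMem (by simp [hs, Ne.symm z2]),
          card_insert_of_notMem (by simpa using Ne.symm z1), card_singleton]
    have hm : d.snd ∈ G.neighborFinset d₁.fst := by
      rw [SimpleGraph.mem_neighborFinset, ← hd']
      exact d.adj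
    rw [← hcov] at hm
    simp only [mem_insert, mem_singleton] at hm
    rcases hm with h | h | h
    · left
      exact SimpleGraph.Dart.ext _ _ (Prod.ext hd' h)
    · right; left
      exact SimpleGraph.Dart.ext _ _ (Prod.ext (hd'.trans e12.symm) h)
    · right; right
      exact SimpleGraph.Dart.ext _ _ (Prod.ext hd' h)

/-- The edge of a path at a position. -/
def VD.dart (hd : VD G I P) {q : V × List V × V} (hq : q ∈ P) (i : ℕ)
    (h : i + 1 < (full q).length) : G.Dart :=
  ⟨((full q)[i], (full q)[i + 1]), hd.adj_of_cs hq (cs_iff_get.2 ⟨i, h, rfl, rfl⟩)⟩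

/-- **The labels along a path are constant.** -/
theorem VD.path_labels (hd : VD G I P) (hcub : ∀ v, G.degree v = 3) {T : Type*} (R : Rot G)
    (κ : R.Face → T) (hDel : ∀ d : G.Dart, IsDel I P d.fst d.snd →
      κ (R.face d) = κ (R.face d.symm)) {q : V × List V × V} (hq : q ∈ P) (i : ℕ)
    (h : i + 1 < (full q).length) (h0 : 0 + 1 < (full q).length) :
    κ (R.face (hd.dart hq i h)) = κ (R.face (hd.dart hq 0 h0)) ∧
      κ (R.face (hd.dart hq i h).symm) = κ (R.face (hd.dart hq 0 h0).symm) := by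
  induction i with
  | zero => exact ⟨rfl, rfl⟩
  | succ i ih =>
    obtain ⟨ih1, ih2⟩ := ih (by omega)
    obtain ⟨n1, d₃, n2, n3, n4, n5, n6⟩ := hd.inner_darts hcub hq h
      (hd.dart hq i (by omega)).symm (hd.dart hq (i + 1) h) rfl rfl rfl rfl
    obtain ⟨⟨l1, l2⟩, -⟩ := labels_at R κ n1 n2 n3 rfl n4 n6 (hDel d₃ n5)
    rw [SimpleGraph.Dart.symm_symm] at l2
    exact ⟨l2.symm.trans ih1, l1.symm.trans ih2⟩

/-- The number of edges on a path. -/
theorem card_onP_le (q : V × List V × V) (S : Finset (Up G))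
    (h : ∀ e ∈ S, OnP q e.1.fst e.1.snd) : S.card ≤ q.2.1.length + 1 := by
  classical
  let f : ℕ → Sym2 V := fun i =>
    if hi : i + 1 < (full q).length then s((full q)[i], (full q)[i + 1]) else s(q.1, q.1)
  have h1 : S.image (fun e : Up G => e.1.edge) ⊆ (range (q.2.1.length + 1)).image f := by
    intro x hx
    obtain ⟨e, he, rfl⟩ := mem_image.1 hx
    have h2 := full_length q
    rcases h e he with h3 | h3
    · obtain ⟨i, hi, r1, r2⟩ := cs_iff_get.1 h3
      refine mem_image.2 ⟨i, mem_range.2 (by omega), ?_⟩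
      show (if hi : i + 1 < (full q).length then _ else _) = _
      rw [dif_pos hi, r1, r2]
      rfl
    · obtain ⟨i, hi, r1, r2⟩ := cs_iff_get.1 h3
      refine mem_image.2 ⟨i, mem_range.2 (by omega), ?_⟩
      show (if hi : i + 1 < (full q).length then _ else _) = _
      rw [dif_pos hi, r1, r2, Sym2.eq_swap]
      rfl
  have h2 : (S.image (fun e : Up G => e.1.edge)).card = S.card := by
    refine card_image_of_injective _ fun a b hab => ?_
    have hab' : a.1.edge = b.1.edge := hab
    rw [SimpleGraph.dart_edge_eq_iff] at hab'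
    rcases hab' with h3 | h3
    · exact Subtype.ext h3
    · exfalso
      have ha := a.2
      have hb := b.2
      rw [h3] at ha
      exact lt_asymm ha hb
  rw [← h2]
  refine (card_le_card h1).trans (card_image_le.trans ?_)
  rw [card_range]

end path

section count

variable {V : Type} [Fintype V] [DecidableEq V] {G : SimpleGraph V} [DecidableRel G.Adj]
  {I : V → Prop} {P : List (V × List V × V)}

open Classical in
/-- The inner vertices of the paths at the component, with two crossing edges. -/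
noncomputable def QC (R : Rot G) (P : List (V × List V × V)) (p : R.Face → Option R.Face)
    (C : Finset V) : Finset V := (crTwo R (qr p) C).filter fun x => Inn P x

open Classical in
/-- The vertices of the component with two crossing edges which are not inner vertices of paths. -/
noncomputable def N2 (R : Rot G) (P : List (V × List V × V)) (p : R.Face → Option R.Face)
    (C : Finset V) : Finset V := (crTwo R (qr p) C).filter fun x => ¬ Inn P x

open Classical in
/-- The inner vertices of the paths at the component with an uncovered corner. -/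
noncomputable def ZC (R : Rot G) (P : List (V × List V × V)) (p : R.Face → Option R.Face)
    (C : Finset V) : Finset V :=
  (QC R P p C).filter fun x => ∃ d : G.Dart, d.fst = x ∧ p (R.face d) = none

/-- The label decides whether a face is covered. -/
theorem cov_qr {F : Type*} {K : Finset F} {p : F → Option F} (hp : Adm K p) (f : F) :
    p (qr p f) = none ↔ p f = none := by
  constructor
  · intro h
    exact (qr_unc hp h).1
  · intro h
    rw [qr_none h]
    exact h

open Classical in
/-- The weight of the edges of one path. -/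
theorem VD.path_sum (hd : VD G I P) (hcub : ∀ v, G.degree v = 3) (R : Rot G)
    {K : Finset R.Face} {p : R.Face → Option R.Face} (hp : Adm K p)
    (hDel : ∀ d : G.Dart, IsDel I P d.fst d.snd → ¬ Cr R (qr p) d) (C : Finset V)
    (h : IsComp R (qr p) C) {θ M : ℝ} (hθ : 0 ≤ θ) {q : V × List V × V} (hq : q ∈ P) :
    ∑ e ∈ univ.filter (fun e : Up G => OnP q e.1.fst e.1.snd ∧ Cr R (qr p) e.1 ∧ e.1.fst ∈ C),
      (θ - omV I P θ M e.1.fst e.1.snd) * cc p (R.face e.1) (R.face e.1.symm) ≤
      θ * ∑ x ∈ q.2.1.toFinset, (if x ∈ QC R P p C then (2 : ℝ) -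
        (if x ∈ ZC R P p C then 1 else 0) else 0) := by
  classical
  obtain ⟨hc, hn⟩ := hd.chain q hq
  have hlen := full_length q
  have hnn : ∀ x, (0 : ℝ) ≤ (if x ∈ QC R P p C then (2 : ℝ) -
      (if x ∈ ZC R P p C then 1 else 0) else 0) := by
    intro x
    split_ifs <;> norm_num
  rcases (univ.filter (fun e : Up G => OnP q e.1.fst e.1.snd ∧ Cr R (qr p) e.1 ∧
      e.1.fst ∈ C)).eq_empty_or_nonempty with h0 | ⟨e₀, he₀⟩
  · rw [h0, sum_empty]
    exact mul_nonneg hθ (sum_nonneg fun x _ => hnn x)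
  -- the labels of the path
  have hDel' : ∀ d : G.Dart, IsDel I P d.fst d.snd → qr p (R.face d) = qr p (R.face d.symm) := by
    intro d hd'
    by_contra hcon
    exact hDel d hd' hcon
  have h01 : 0 + 1 < (full q).length := by omega
  set a := qr p (R.face (hd.dart hq 0 h01)) with ha
  set b := qr p (R.face (hd.dart hq 0 h01).symm) with hb
  have hlab : ∀ i (hi : i + 1 < (full q).length), qr p (R.face (hd.dart hq i hi)) = a ∧
      qr p (R.face (hd.dart hq i hi).symm) = b := fun i hi =>
    hd.path_labels hcub R (qr p) hDel' hq i hi h01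
  -- every dart on the path is one of these
  have hdart : ∀ d : G.Dart, OnP q d.fst d.snd → ∃ i, ∃ hi : i + 1 < (full q).length,
      d = hd.dart hq i hi ∨ d = (hd.dart hq i hi).symm := by
    intro d hon
    rcases hon with h3 | h3
    · obtain ⟨i, hi, r1, r2⟩ := cs_iff_get.1 h3
      exact ⟨i, hi, Or.inl (SimpleGraph.Dart.ext _ _ (Prod.ext r1.symm r2.symm))⟩
    · obtain ⟨i, hi, r1, r2⟩ := cs_iff_get.1 h3
      exact ⟨i, hi, Or.inr (SimpleGraph.Dart.ext _ _ (Prod.ext r2.symm r1.symm))⟩
  have hab : a ≠ b := by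
    obtain ⟨-, hon, hcr, -⟩ := mem_filter.1 he₀
    obtain ⟨i, hi, h1 | h1⟩ := hdart _ hon
    · have h2 := hlab i hi
      rw [← h1] at h2
      intro h3
      exact hcr (h2.1.trans (h3.trans h2.2.symm))
    · have h2 := hlab i hi
      intro h3
      apply hcr
      rw [h1, SimpleGraph.Dart.symm_symm]
      exact h2.2.trans (h3.symm.trans h2.1.symm)
  have hcr : ∀ i (hi : i + 1 < (full q).length), Cr R (qr p) (hd.dart hq i hi) := by
    intro i hi h3
    have h2 := hlab i hi
    exact hab (h2.1.symm.trans (h3.trans h2.2))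
  -- all vertices of the path are in the component
  have hCstep : ∀ i (hi : i + 1 < (full q).length), (full q)[i] ∈ C ↔ (full q)[i + 1] ∈ C := by
    intro i hi
    exact h.closed' (hcr i hi)
  have hC0 : ∀ i (hi : i < (full q).length), (full q)[i] ∈ C ↔ (full q)[0] ∈ C := by
    intro i
    induction i with
    | zero => exact fun _ => Iff.rfl
    | succ i ih =>
      intro hi
      exact (hCstep i hi).symm.trans (ih (by omega))
  have hCall : ∀ i (hi : i < (full q).length), (full q)[i] ∈ C := by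
    obtain ⟨-, hon, -, hC⟩ := mem_filter.1 he₀
    have h0 : (full q)[0] ∈ C := by
      obtain ⟨i, hi, h1 | h1⟩ := hdart _ hon
      · rw [h1] at hC
        exact (hC0 i (by omega)).1 hC
      · rw [h1] at hC
        exact (hC0 (i + 1) hi).1 hC
    exact fun i hi => (hC0 i hi).2 h0
  -- the value of `cc`
  set cv : ℝ := (if p a ≠ none then 1 else 0) + (if p b ≠ none then 1 else 0) with hcv
  have hcv0 : 0 ≤ cv := by
    rw [hcv]
    split_ifs <;> norm_num
  have hcc : ∀ e : Up G, OnP q e.1.fst e.1.snd → Cr R (qr p) e.1 →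
      cc p (R.face e.1) (R.face e.1.symm) = cv := by
    intro e hon hcr'
    rw [cc_of_cr R hcr']
    have k1 : ∀ f, (p f ≠ none) = (p (qr p f) ≠ none) := fun f =>
      propext (not_congr (cov_qr hp f)).symm
    simp only [k1 (R.face e.1), k1 (R.face e.1.symm)]
    obtain ⟨i, hi, h1 | h1⟩ := hdart _ hon
    · rw [h1, (hlab i hi).1, (hlab i hi).2]
    · rw [h1, SimpleGraph.Dart.symm_symm, (hlab i hi).1, (hlab i hi).2, hcv, add_comm]
  -- the left side
  set k : ℝ := (q.2.1.length : ℝ) with hk
  have hk0 : 0 ≤ k := Nat.cast_nonneg _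
  have hleft : ∑ e ∈ univ.filter (fun e : Up G => OnP q e.1.fst e.1.snd ∧ Cr R (qr p) e.1 ∧
      e.1.fst ∈ C), (θ - omV I P θ M e.1.fst e.1.snd) * cc p (R.face e.1) (R.face e.1.symm) ≤
      θ * (k * cv) := by
    have e1 : ∀ e ∈ univ.filter (fun e : Up G => OnP q e.1.fst e.1.snd ∧ Cr R (qr p) e.1 ∧
        e.1.fst ∈ C), (θ - omV I P θ M e.1.fst e.1.snd) *
        cc p (R.face e.1) (R.face e.1.symm) = θ * (k / (k + 1)) * cv := by
      intro e he
      obtain ⟨-, hon, hcr', -⟩ := mem_filter.1 he
      rw [hcc e hon hcr', hd.omV_path hq hon]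
      have : k + 1 ≠ 0 := by positivity
      rw [← hk]
      field_simp
      ring
    rw [sum_congr rfl e1, sum_const, nsmul_eq_mul]
    have h2 : ((univ.filter (fun e : Up G => OnP q e.1.fst e.1.snd ∧ Cr R (qr p) e.1 ∧
        e.1.fst ∈ C)).card : ℝ) ≤ k + 1 := by
      have := card_onP_le q (univ.filter (fun e : Up G => OnP q e.1.fst e.1.snd ∧
        Cr R (qr p) e.1 ∧ e.1.fst ∈ C)) (fun e he => (mem_filter.1 he).2.1)
      rw [hk]
      exact_mod_cast this
    have h3 : 0 ≤ θ * (k / (k + 1)) * cv := by positivity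
    refine (mul_le_mul_of_nonneg_right h2 h3).trans (le_of_eq ?_)
    have : k + 1 ≠ 0 := by positivity
    field_simp
  refine hleft.trans (mul_le_mul_of_nonneg_left ?_ hθ)
  -- the right side
  have hnd : q.2.1.Nodup := by
    unfold full at hn
    rw [List.nodup_cons, List.nodup_append] at hn
    exact hn.2.1
  have hcard : (q.2.1.toFinset.card : ℝ) = k := by
    rw [List.toFinset_card_of_nodup hnd]
  have hterm : ∀ x ∈ q.2.1.toFinset, cv ≤ (if x ∈ QC R P p C then (2 : ℝ) -
      (if x ∈ ZC R P p C then 1 else 0) else 0) := by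
    intro x hx
    rw [List.mem_toFinset] at hx
    obtain ⟨j, hj, rfl⟩ := List.getElem_of_mem hx
    have hj2 : j + 2 < (full q).length := by omega
    have hxe : (full q)[j + 1] = q.2.1[j] := by
      rw [full_get_succ q j (by omega) (by simp; omega), List.getElem_append_left (by omega)]
    rw [← hxe]
    obtain ⟨n1, d₃, n2, n3, n4, n5, n6⟩ := hd.inner_darts hcub hq hj2
      (hd.dart hq j (by omega)).symm (hd.dart hq (j + 1) hj2) rfl rfl rfl rfl
    have hcrV : crV R (qr p) (full q)[j + 1] =
        {(hd.dart hq j (by omega)).symm, hd.dart hq (j + 1) hj2} := by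
      ext d
      unfold crV
      rw [mem_filter, mem_insert, mem_singleton]
      constructor
      · rintro ⟨-, h1, h2⟩
        rcases n6 d h1 with h3 | h3 | h3
        · exact Or.inl h3
        · exact Or.inr h3
        · rw [h3] at h2
          exact absurd h2 (hDel d₃ n5)
      · rintro (rfl | rfl)
        · exact ⟨mem_univ _, rfl, (hcr j (by omega)).symm⟩
        · exact ⟨mem_univ _, rfl, hcr (j + 1) hj2⟩
    have hQ : (full q)[j + 1] ∈ QC R P p C := by
      unfold QC crTwo
      rw [mem_filter, mem_filter]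
      refine ⟨⟨hCall _ _, ?_⟩, q, hq, getElem_mem_inner hj2 (by omega)⟩
      rw [hcrV, card_insert_of_notMem (by simpa using n1), card_singleton]
    rw [if_pos hQ]
    have hcv2 : cv ≤ 2 := by
      rw [hcv]
      split_ifs <;> norm_num
    by_cases hZ : (full q)[j + 1] ∈ ZC R P p C
    · rw [if_pos hZ]
      unfold ZC at hZ
      obtain ⟨-, d, hd1, hd2⟩ := mem_filter.1 hZ
      have h7 := (labels_at R (qr p) n1 n2 n3 rfl n4 n6 (hDel' d₃ n5)).2 d hd1
      have h8 : p a = none ∨ p b = none := by
        rcases h7 with h7 | h7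
        · right
          rw [← (hlab j (by omega)).2, ← h7, (cov_qr hp _)]
          exact hd2
        · left
          rw [SimpleGraph.Dart.symm_symm] at h7
          rw [← (hlab j (by omega)).1, ← h7, (cov_qr hp _)]
          exact hd2
      rw [hcv]
      rcases h8 with h8 | h8
      · rw [if_neg (not_not.2 h8)]
        split_ifs <;> norm_num
      · rw [if_neg (not_not.2 h8)]
        split_ifs <;> norm_num
    · rw [if_neg hZ]
      linarith
  calc k * cv = ∑ x ∈ q.2.1.toFinset, cv := by rw [sum_const, nsmul_eq_mul, hcard]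
    _ ≤ _ := sum_le_sum hterm

open Classical in
/-- The total defect of the weights. -/
theorem VD.defect_sum (hd : VD G I P) (hcub : ∀ v, G.degree v = 3) (R : Rot G)
    {K : Finset R.Face} {p : R.Face → Option R.Face} (hp : Adm K p)
    (hDel : ∀ d : G.Dart, IsDel I P d.fst d.snd → ¬ Cr R (qr p) d) (C : Finset V)
    (h : IsComp R (qr p) C) {θ M : ℝ} (hθ : 0 ≤ θ) :
    ∑ e : Up G, (if Cr R (qr p) e.1 ∧ e.1.fst ∈ C then
      (θ - omV I P θ M e.1.fst e.1.snd) * cc p (R.face e.1) (R.face e.1.symm) else 0) ≤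
      θ * (2 * (QC R P p C).card - (ZC R P p C).card) := by
  classical
  set g : Up G → ℝ := fun e => (θ - omV I P θ M e.1.fst e.1.snd) *
    cc p (R.face e.1) (R.face e.1.symm) with hg
  -- every summand belongs to a path or vanishes
  have hterm : ∀ e : Up G, (if Cr R (qr p) e.1 ∧ e.1.fst ∈ C then g e else 0) ≤
      ∑ q ∈ P.toFinset, (if OnP q e.1.fst e.1.snd ∧ Cr R (qr p) e.1 ∧ e.1.fst ∈ C then g e
        else 0) := by
    intro e
    by_cases hc : Cr R (qr p) e.1 ∧ e.1.fst ∈ C
    · rw [if_pos hc]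
      by_cases hon : ∃ q ∈ P, OnP q e.1.fst e.1.snd
      · obtain ⟨q, hq, hon⟩ := hon
        rw [sum_eq_single q]
        · rw [if_pos ⟨hon, hc⟩]
        · intro q' hq' hne
          rw [if_neg]
          rintro ⟨hon', -⟩
          exact hne (hd.unique (List.mem_toFinset.1 hq') hq hon' hon)
        · intro hq'
          exact absurd (List.mem_toFinset.2 hq) hq'
      · have h0 : (∑ q ∈ P.toFinset, (if OnP q e.1.fst e.1.snd ∧ Cr R (qr p) e.1 ∧ e.1.fst ∈ C
            then g e else 0)) = 0 := by
          refine sum_eq_zero fun q hq => ?_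
          rw [if_neg]
          rintro ⟨hon', -⟩
          exact hon ⟨q, List.mem_toFinset.1 hq, hon'⟩
        rw [h0]
        have hk : ¬ I e.1.fst ∧ ¬ I e.1.snd := by
          by_contra hcon
          have h1 : I e.1.fst ∨ I e.1.snd := by tauto
          exact hDel e.1 ⟨h1, fun q hq h2 => hon ⟨q, hq, h2⟩⟩ hc.1
        rw [hg]
        simp only
        rw [omV_kept hd hk.1 hk.2, sub_self, zero_mul]
    · rw [if_neg hc]
      refine le_of_eq (Eq.symm (sum_eq_zero fun q _ => ?_))
      rw [if_neg]
      rintro ⟨-, h1⟩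
      exact hc h1
  have hnn : ∀ x, (0 : ℝ) ≤ (if x ∈ QC R P p C then (2 : ℝ) -
      (if x ∈ ZC R P p C then 1 else 0) else 0) := by
    intro x
    split_ifs <;> norm_num
  calc ∑ e : Up G, (if Cr R (qr p) e.1 ∧ e.1.fst ∈ C then g e else 0)
      ≤ ∑ e : Up G, ∑ q ∈ P.toFinset, (if OnP q e.1.fst e.1.snd ∧ Cr R (qr p) e.1 ∧
        e.1.fst ∈ C then g e else 0) := sum_le_sum fun e _ => hterm e
    _ = ∑ q ∈ P.toFinset, ∑ e ∈ univ.filter (fun e : Up G => OnP q e.1.fst e.1.snd ∧
        Cr R (qr p) e.1 ∧ e.1.fst ∈ C), g e := by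
        rw [sum_comm]
        refine sum_congr rfl fun q _ => ?_
        rw [sum_filter]
    _ ≤ ∑ q ∈ P.toFinset, θ * ∑ x ∈ q.2.1.toFinset, (if x ∈ QC R P p C then (2 : ℝ) -
        (if x ∈ ZC R P p C then 1 else 0) else 0) := sum_le_sum fun q hq =>
        hd.path_sum hcub R hp hDel C h hθ (List.mem_toFinset.1 hq)
    _ = θ * ∑ q ∈ P.toFinset, ∑ x ∈ q.2.1.toFinset, (if x ∈ QC R P p C then (2 : ℝ) -
        (if x ∈ ZC R P p C then 1 else 0) else 0) := by rw [mul_sum]
    _ = θ * ∑ x ∈ P.toFinset.biUnion (fun q => q.2.1.toFinset), (if x ∈ QC R P p C then (2 : ℝ) -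
        (if x ∈ ZC R P p C then 1 else 0) else 0) := by
        rw [sum_biUnion]
        intro q hq q' hq' hne
        refine Finset.disjoint_left.2 fun x hx hx' => ?_
        rw [List.mem_toFinset] at hx hx'
        exact hne (hd.uniq_inner (List.mem_toFinset.1 hq) (List.mem_toFinset.1 hq') hx
          (full_inner hx'))
    _ ≤ θ * ∑ x : V, (if x ∈ QC R P p C then (2 : ℝ) -
        (if x ∈ ZC R P p C then 1 else 0) else 0) := by
        refine mul_le_mul_of_nonneg_left ?_ hθ
        exact sum_le_sum_of_subset_of_nonneg (subset_univ _) fun x _ _ => hnn x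
    _ = θ * (2 * (QC R P p C).card - (ZC R P p C).card) := by
        congr 1
        rw [← sum_filter, filter_mem_eq_inter, univ_inter, sum_sub_distrib, sum_const,
          nsmul_eq_mul, ← sum_filter, filter_mem_eq_inter]
        have : QC R P p C ∩ ZC R P p C = ZC R P p C :=
          inter_eq_right.2 (by unfold ZC; exact filter_subset _ _)
        rw [this, sum_const, nsmul_eq_mul]
        ring

/-- **The count for a virtual surgery.** -/
theorem VD.count (hd : VD G I P) (hcub : ∀ v, G.degree v = 3) (R : Rot G)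
    {K : Finset R.Face} {p : R.Face → Option R.Face} (hp : Adm K p)
    (hnb : ∀ d, p (R.face d) = none → R.face d.symm ≠ R.face d)
    (hDel : ∀ d : G.Dart, IsDel I P d.fst d.snd → ¬ Cr R (qr p) d) (C : Finset V)
    (h : IsComp R (qr p) C) {θ M : ℝ} (hθ : 0 ≤ θ) :
    θ * (6 * (((covT R p C).card : ℝ) - 1) + 2 * (N2 R P p C).card + (ZC R P p C).card - 6 +
      ∑ z ∈ uncT R p C, (6 - (R.size z : ℝ))) ≤
      ∑ e ∈ univ.filter (fun e : Up G => Cr R (qr p) e.1 ∧ e.1.fst ∈ C),
        omV I P θ M e.1.fst e.1.snd * cc p (R.face e.1) (R.face e.1.symm) := by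
  classical
  have h1 := count_cov R hcub hp hnb C h
  have h2 := sum_cc_eq R C h
  have h3 := hd.defect_sum hcub R hp hDel C h (M := M) hθ
  have h4 : ((crTwo R (qr p) C).card : ℝ) = (QC R P p C).card + (N2 R P p C).card := by
    unfold QC N2
    rw [← Nat.cast_add, ← card_filter_add_card_filter_not (s := crTwo R (qr p) C)
      (fun x => Inn P x)]
  have h5 : ∑ e ∈ univ.filter (fun e : Up G => Cr R (qr p) e.1 ∧ e.1.fst ∈ C),
      omV I P θ M e.1.fst e.1.snd * cc p (R.face e.1) (R.face e.1.symm) =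
      θ * ∑ e : Up G, (if Cr R (qr p) e.1 ∧ e.1.fst ∈ C then
        cc p (R.face e.1) (R.face e.1.symm) else 0) -
      ∑ e : Up G, (if Cr R (qr p) e.1 ∧ e.1.fst ∈ C then
        (θ - omV I P θ M e.1.fst e.1.snd) * cc p (R.face e.1) (R.face e.1.symm) else 0) := by
    rw [sum_filter, mul_sum, ← sum_sub_distrib]
    refine sum_congr rfl fun e _ => ?_
    by_cases hc : Cr R (qr p) e.1 ∧ e.1.fst ∈ C
    · rw [if_pos hc, if_pos hc, if_pos hc]
      ring
    · rw [if_neg hc, if_neg hc, if_neg hc]
      ring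
  rw [h5, h2]
  have h6 := mul_le_mul_of_nonneg_left h1 hθ
  rw [h4] at h6
  nlinarith

end count

end Pool.Agent.Uni91
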