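import Mathlib
import Pool.Agent.Work.MP_392c8e_co_uni.MidV
import Pool.Agent.Work.MP_392c8e_co_uni.MinP
import Pool.Agent.Work.MP_392c8e_co_uni.L7Comp
import Pool.Agent.Work.MP_392c8e_co_uni.VDCount
import Pool.Agent.Work.MP_392c8e_co_uni.GrowthLoc

/-!
# The combination: weights, faces outside `K`, places
-/

namespace Pool.Agent.Uni13

open Finset Pool.Agent.Sub392 Pool.Agent.Circ Pool.Agent.T392 Pool.Agent.Uni3
open Pool.Agent.T1Red (newG Deg3)
open Pool.Agent.Uni91 (VD OnP Cs ends full omV parV parV_symm wV bV IsDel omV_le)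
open Pool.Agent.Uni392 (nbN mem_nbN Steps NearG Us mem_Us)

set_option linter.unusedSectionVars false

/-! ## The weights of the edges which are not deleted -/

section

variable {V : Type} {G : SimpleGraph V} {I : V → Prop} {Q : List (V × List V × V)}

theorem isDel_symm {u v : V} : IsDel I Q u v ↔ IsDel I Q v u :=
  ⟨fun h => ⟨h.1.symm, fun q hq h' => h.2 q hq h'.symm⟩,
    fun h => ⟨h.1.symm, fun q hq h' => h.2 q hq h'.symm⟩⟩

theorem omV_mul {u v : V} (h : ¬ IsDel I Q u v) (θ M M' : ℝ) :
    omV I Q θ M u v = θ * omV I Q 1 M' u v := by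
  classical
  unfold IsDel at h
  unfold omV
  by_cases h1 : ∃ p ∈ Q, OnP p u v
  · rw [dif_pos h1, dif_pos h1]
    ring
  · rw [dif_neg h1, dif_neg h1]
    have h2 : ¬ (I u ∨ I v) := fun h2 => h ⟨h2, fun q hq h' => h1 ⟨q, hq, h'⟩⟩
    rw [if_neg h2, if_neg h2, mul_one]

theorem omV_one_le {u v : V} (h : ¬ IsDel I Q u v) (M : ℝ) : omV I Q 1 M u v ≤ 1 := by
  classical
  unfold IsDel at h
  unfold omV
  by_cases h1 : ∃ p ∈ Q, OnP p u v
  · rw [dif_pos h1, div_le_one (by positivity)]
    have : (0 : ℝ) ≤ (h1.choose.2.1.length : ℝ) := Nat.cast_nonneg _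
    linarith
  · rw [dif_neg h1]
    have h2 : ¬ (I u ∨ I v) := fun h2 => h ⟨h2, fun q hq h' => h1 ⟨q, hq, h'⟩⟩
    rw [if_neg h2]

theorem omV_one_ge {k : ℕ} (hk : ∀ p ∈ Q, p.2.1.length ≤ k) {u v : V} (h : ¬ IsDel I Q u v)
    (M : ℝ) : 1 / ((k : ℝ) + 1) ≤ omV I Q 1 M u v := by
  classical
  unfold IsDel at h
  unfold omV
  have hk1 : (1 : ℝ) / ((k : ℝ) + 1) ≤ 1 := by
    rw [div_le_one (by positivity)]
    have : (0 : ℝ) ≤ (k : ℝ) := Nat.cast_nonneg _
    linarith
  by_cases h1 : ∃ p ∈ Q, OnP p u v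
  · rw [dif_pos h1]
    refine div_le_div_of_nonneg_left (by norm_num) (by positivity) ?_
    have : (h1.choose.2.1.length : ℝ) ≤ k := by exact_mod_cast hk _ h1.choose_spec.1
    linarith
  · rw [dif_neg h1]
    have h2 : ¬ (I u ∨ I v) := fun h2 => h ⟨h2, fun q hq h' => h1 ⟨q, hq, h'⟩⟩
    rw [if_neg h2]
    exact hk1

end

variable {V : Type} [Fintype V] [DecidableEq V] {G : SimpleGraph V} [DecidableRel G.Adj]
  {R : Rot G} {I : V → Prop} {Q : List (V × List V × V)} {K : Finset R.Face}

/-! ## Faces outside `K` -/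

theorem cut_card_le (R : Rot G) (f : R.Face) : (cut (Uni91.lf R) (Uni91.rf R) {f}).card ≤ R.size f := by
  classical
  unfold Rot.size
  refine card_le_card_of_injOn (fun e : Up G => if R.face e.1 = f then e.1 else e.1.symm) ?_ ?_
  · intro e he
    have he' : e ∈ cut (Uni91.lf R) (Uni91.rf R) {f} := he
    rw [mem_cut'] at he'
    simp only [mem_singleton] at he'
    simp only [coe_filter, mem_univ, true_and, Set.mem_ofPred_eq]
    split_ifs with h1
    · exact h1
    · by_contra h2
      exact he' ⟨fun h => absurd h h1, fun h => absurd h h2⟩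
  · intro e _ e' _ h
    have h1 : ∀ x : Up G, eu (if R.face x.1 = f then x.1 else x.1.symm) = x := by
      intro x
      split_ifs
      · exact eu_up x
      · rw [eu_symm]
        exact eu_up x
    rw [← h1 e, ← h1 e']
    exact congrArg eu h

theorem sum_six (hK6 : ∀ d, R.face d ∉ K → sz R d = 6)
    (hKdel : ∀ d, R.face d ∉ K → ¬ IsDel I Q d.fst d.snd) {f : R.Face} (hf : f ∉ K) (M : ℝ) :
    ∑ e ∈ cut (Uni91.lf R) (Uni91.rf R) {f}, wV I Q 1 M e ≤ 6 := by
  classical
  have h1 : ∀ e ∈ cut (Uni91.lf R) (Uni91.rf R) {f}, wV I Q 1 M e ≤ 1 := by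
    intro e he
    rw [mem_cut'] at he
    simp only [mem_singleton] at he
    unfold wV
    refine omV_one_le ?_ M
    by_cases h1 : R.face e.1 = f
    · exact hKdel e.1 (by rw [h1]; exact hf)
    · have h2 : R.face e.1.symm = f := by
        by_contra h2
        exact he ⟨fun h => absurd h h1, fun h => absurd h h2⟩
      have := hKdel e.1.symm (by rw [h2]; exact hf)
      rwa [isDel_symm]
  refine (sum_le_sum h1).trans ?_
  rw [sum_const, nsmul_eq_mul, mul_one]
  obtain ⟨d, rfl⟩ : ∃ d, R.face d = f := ⟨f.out, Quotient.out_eq f⟩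
  have h2 := cut_card_le R (R.face d)
  have h3 := hK6 d hf
  unfold sz at h3
  rw [h3] at h2
  exact_mod_cast h2

/-- The parity of a face as a sum over its darts. -/
theorem two_dvd_bV (R : Rot G) (f : R.Face)
    (h : (2 : ℤ) ∣ ∑ d ∈ univ.filter (fun d : G.Dart => R.face d = f), parV I Q d.fst d.snd) :
    (2 : ℤ) ∣ bV R I Q f := by
  classical
  have h1 : ∑ d ∈ univ.filter (fun d : G.Dart => R.face d = f), parV I Q d.fst d.snd =
      ∑ e : Up G, ((if R.face e.1 = f then parV I Q e.1.fst e.1.snd else 0) +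
        (if R.face e.1.symm = f then parV I Q e.1.fst e.1.snd else 0)) := by
    rw [sum_filter, sum_dart (fun d : G.Dart => if R.face d = f then parV I Q d.fst d.snd else 0)]
    refine sum_congr rfl fun e _ => ?_
    congr 1
    have e1 : (e.1.symm).fst = e.1.snd := rfl
    have e2 : (e.1.symm).snd = e.1.fst := rfl
    rw [e1, e2, parV_symm]
  rw [h1] at h
  have h2 : (2 : ℤ) ∣ ∑ e : Up G, ((if R.face e.1 = f then parV I Q e.1.fst e.1.snd else 0) +
        (if R.face e.1.symm = f then parV I Q e.1.fst e.1.snd else 0)) - bV R I Q f := by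
    unfold bV MP974d84.D Uni91.lf Uni91.rf
    rw [← sum_sub_distrib]
    refine dvd_sum fun e _ => ?_
    by_cases h3 : R.face e.1 = f <;> by_cases h4 : R.face e.1.symm = f <;> simp [h3, h4]
    · exact ⟨parV I Q e.1.fst e.1.snd, by ring⟩
    · exact ⟨parV I Q e.1.fst e.1.snd, by ring⟩
  have h3 := dvd_sub h h2
  simpa using h3

/-! ## Places -/

theorem card_plV {d : G.Dart} (hL : L7 R d) :
    (plV R d).card ≤ 17 := by
  classical
  have h1 : plV R d ⊆ ((univ.filter fun x : G.Dart => R.face x = R.face d).image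
      fun x => x.fst) ∪ (((univ.filter fun x : G.Dart => R.face x = R.face d.symm).image
      fun x => x.fst) ∪ ((univ.filter fun x : G.Dart => R.face x = R.face (R.next d).symm).image
      fun x => x.fst)) := by
    intro v hv
    obtain ⟨x, rfl, hx⟩ := mem_plV.1 hv
    rw [mem_union, mem_union]
    rcases hx with hx | hx | hx
    · exact Or.inl (mem_image.2 ⟨x, mem_filter.2 ⟨mem_univ _, hx⟩, rfl⟩)
    · exact Or.inr (Or.inl (mem_image.2 ⟨x, mem_filter.2 ⟨mem_univ _, hx⟩, rfl⟩))
    · exact Or.inr (Or.inr (mem_image.2 ⟨x, mem_filter.2 ⟨mem_univ _, hx⟩, rfl⟩))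
  have h2 : ∀ y : G.Dart, ((univ.filter fun x : G.Dart => R.face x = R.face y).image
      fun x => x.fst).card ≤ sz R y := fun y => card_image_le
  have h3 := h2 d
  have h4 := h2 d.symm
  have h5 := h2 (R.next d).symm
  rw [hL.five] at h3
  rw [hL.hex1] at h4
  rw [hL.hex2] at h5
  exact (card_le_card h1).trans ((card_union_le _ _).trans
    (by have := card_union_le ((univ.filter fun x : G.Dart => R.face x = R.face d.symm).image
      fun x => x.fst) ((univ.filter fun x : G.Dart => R.face x = R.face (R.next d).symm).image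
      fun x => x.fst); omega))

/-- Steps along a face, if its vertices are not touched. -/
theorem steps_face {g : R.Face} (hI : ∀ x : G.Dart, R.face x = g → ¬ I x.fst)
    {x : G.Dart} (hx : R.face x = g) (i : ℕ) :
    Steps (nbN G I Q) i x.fst (R.next^[i] x).fst := by
  classical
  have key : ∀ i : ℕ, ∀ x : G.Dart, R.face x = g →
      Steps (nbN G I Q) i x.fst (R.next^[i] x).fst := by
    intro i
    induction i with
    | zero =>
      intro x _
      exact Steps.refl _
    | succ i ih =>
      intro x hx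
      rw [Function.iterate_succ_apply]
      refine Steps.cons ?_ (ih (R.next x) (by rw [R.face_next]; exact hx))
      rw [mem_nbN]
      refine Or.inl ⟨?_, hI x hx, ?_⟩
      · rw [R.fst_next]
        exact x.adj
      · exact hI (R.next x) (by rw [R.face_next]; exact hx)
  exact key i x hx

end Pool.Agent.Uni13
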