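import Mathlib

/-!
# Constants for the uniform bound

Real arithmetic for a component of the crossing edges of a family of minimal value: `m` parts, `ν`
vertices (or created faces) with a gain, `a` places with the full gain.
-/

namespace Pool.Agent.Uni13

/-- **The component estimate.**  `hmin` is the minimality, `hcount` the count, `hgrow` the growth. -/
theorem comp_bound {u e C B S : ℝ} {m ν a : ℕ} (hu : 0 < u) (hB : B * u ≤ 1 / 20)
    (hC : 0 < C) (he : 0 < e) (heC : 60 * e * C ≤ u) (he2 : e ≤ 1 / 100) (hu2 : u ≤ 1 / 10)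
    (hmin : S ≤ 2 * ((m : ℝ) - 1))
    (hcount : (1 / 3 - e) * (6 * ((m : ℝ) - 1) + 2 * ν - 6) + 2 * u * a - B * u * ν ≤ S)
    (hgrow : (m : ℝ) ≤ C * (ν + a)) :
    ν ≤ 3 ∧ (a : ℝ) ≤ 2 / u ∧ (m : ℝ) ≤ C * (3 + 2 / u) := by
  have hν : (0 : ℝ) ≤ ν := Nat.cast_nonneg ν
  have ha : (0 : ℝ) ≤ a := Nat.cast_nonneg a
  have h1 : 6 * e * (m : ℝ) ≤ 6 * e * (C * (ν + a)) :=
    mul_le_mul_of_nonneg_left hgrow (by positivity)
  have h2 : 6 * e * (C * (ν + a)) ≤ u / 10 * (ν + a) := by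
    have : 6 * e * C ≤ u / 10 := by linarith
    calc 6 * e * (C * (ν + a)) = (6 * e * C) * (ν + a) := by ring
      _ ≤ u / 10 * (ν + a) := mul_le_mul_of_nonneg_right this (by positivity)
  have h3 : B * u * ν ≤ 1 / 20 * ν := mul_le_mul_of_nonneg_right hB hν
  have h4 : e * (ν : ℝ) ≤ 1 / 100 * ν := mul_le_mul_of_nonneg_right he2 hν
  have h5 : u * (ν : ℝ) ≤ 1 / 10 * ν := mul_le_mul_of_nonneg_right hu2 hν
  have h6 : u * (a : ℝ) ≥ 0 := mul_nonneg hu.le ha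
  have key : (2 / 3 - 1 / 50 - 1 / 20 - 1 / 100) * (ν : ℝ) + (2 - 1 / 10) * (u * a) ≤ 2 := by
    nlinarith
  have hν3 : ν ≤ 3 := by
    by_contra hc
    push Not at hc
    have : (4 : ℝ) ≤ ν := by exact_mod_cast hc
    nlinarith
  have ha2 : (a : ℝ) ≤ 2 / u := by
    rw [le_div_iff₀ hu]
    nlinarith
  refine ⟨hν3, ha2, hgrow.trans (mul_le_mul_of_nonneg_left ?_ hC.le)⟩
  have : (ν : ℝ) ≤ 3 := by exact_mod_cast hν3
  linarith

/-- The component estimate with an additive constant in the growth. -/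
theorem comp_bound1 {u e C B S : ℝ} {m ν a : ℕ} (hu : 0 < u) (hB : B * u ≤ 1 / 20)
    (hC : 0 < C) (he : 0 < e) (heC : 60 * e * C ≤ u) (he2 : e ≤ 1 / 100) (hu2 : u ≤ 1 / 10)
    (hmin : S ≤ 2 * ((m : ℝ) - 1))
    (hcount : (1 / 3 - e) * (6 * ((m : ℝ) - 1) + 2 * ν - 6) + 2 * u * a - B * u * ν ≤ S)
    (hgrow : (m : ℝ) ≤ C * (ν + a + 1)) :
    ν ≤ 3 ∧ (a : ℝ) ≤ 2 / u ∧ (m : ℝ) ≤ C * (4 + 2 / u) := by
  have hν : (0 : ℝ) ≤ ν := Nat.cast_nonneg ν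
  have ha : (0 : ℝ) ≤ a := Nat.cast_nonneg a
  have h1 : 6 * e * (m : ℝ) ≤ 6 * e * (C * (ν + a + 1)) :=
    mul_le_mul_of_nonneg_left hgrow (by positivity)
  have h2 : 6 * e * (C * (ν + a + 1)) ≤ u / 10 * (ν + a + 1) := by
    have : 6 * e * C ≤ u / 10 := by linarith
    calc 6 * e * (C * (ν + a + 1)) = (6 * e * C) * (ν + a + 1) := by ring
      _ ≤ u / 10 * (ν + a + 1) := mul_le_mul_of_nonneg_right this (by positivity)
  have h3 : B * u * ν ≤ 1 / 20 * ν := mul_le_mul_of_nonneg_right hB hν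
  have h4 : e * (ν : ℝ) ≤ 1 / 100 * ν := mul_le_mul_of_nonneg_right he2 hν
  have h5 : u * (ν : ℝ) ≤ 1 / 10 * ν := mul_le_mul_of_nonneg_right hu2 hν
  have h6 : u * (a : ℝ) ≥ 0 := mul_nonneg hu.le ha
  have key : (2 / 3 - 1 / 50 - 1 / 20 - 1 / 100) * (ν : ℝ) + (2 - 1 / 10) * (u * a) ≤
      2 + 1 / 100 := by
    nlinarith
  have hν3 : ν ≤ 3 := by
    by_contra hc
    push Not at hc
    have : (4 : ℝ) ≤ ν := by exact_mod_cast hc
    nlinarith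
  have ha2 : (a : ℝ) ≤ 2 / u := by
    rw [le_div_iff₀ hu]
    nlinarith
  refine ⟨hν3, ha2, hgrow.trans (mul_le_mul_of_nonneg_left ?_ hC.le)⟩
  have : (ν : ℝ) ≤ 3 := by exact_mod_cast hν3
  linarith

/-- **The charge of a component against its cut**, with a loss of at most `1 / 6`. -/
theorem cut_bound {e W d l : ℝ} {n : ℤ} (he : 0 ≤ e) (he3 : e ≤ 1 / 3)
    (hW : e * (3 * W + 2) ≤ 1 / 4) (hn : |(n : ℝ)| ≤ W) (hd : 3 * |(n : ℝ)| + 2 ≤ d)
    (hl : l ≤ 1 / 6) : |(n : ℝ)| + l ≤ (1 / 3 - e) * d := by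
  have h1 : (1 / 3 - e) * (3 * |(n : ℝ)| + 2) ≤ (1 / 3 - e) * d :=
    mul_le_mul_of_nonneg_left hd (by linarith)
  have h2 : e * (3 * |(n : ℝ)| + 2) ≤ e * (3 * W + 2) :=
    mul_le_mul_of_nonneg_left (by linarith) he
  nlinarith

/-- A strict inequality and equal parities give a gap of two. -/
theorem gap_two {n d : ℤ} (h : 3 * |n| < d) (hpar : (2 : ℤ) ∣ n - d) : 3 * |n| + 2 ≤ d := by
  rcases abs_cases n with ⟨h1, _⟩ | ⟨h1, _⟩ <;> rw [h1] at h ⊢ <;> omega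

end Pool.Agent.Uni13
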