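import Mathlib
import Pool.Agent.Work.MP_392c8e_co_uni.CountP
import Pool.Agent.Work.MP_392c8e_co_uni.VData

/-!
# The count for the weights of a virtual surgery
-/

namespace Pool.Agent.Uni3

open Finset Pool.Agent.Sub392 Pool.Agent.Circ Pool.Agent.Uni91

set_option linter.unusedSectionVars false

section lists

variable {A : Type*}

/-- Consecutive triples. -/
def Trip (L : List A) (u x v : A) : Prop := ∃ l₁ l₂, L = l₁ ++ u :: x :: v :: l₂

theorem Trip.fst {L : List A} {u x v : A} (h : Trip L u x v) : Cs L u x := by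
  obtain ⟨l₁, l₂, rfl⟩ := h
  exact ⟨l₁, v :: l₂, rfl⟩

theorem Trip.snd {L : List A} {u x v : A} (h : Trip L u x v) : Cs L x v := by
  obtain ⟨l₁, l₂, rfl⟩ := h
  exact ⟨l₁ ++ [u], l₂, by simp⟩

theorem Trip.cons {L : List A} {u x v : A} (a : A) (h : Trip L u x v) : Trip (a :: L) u x v := by
  obtain ⟨l₁, l₂, rfl⟩ := h
  exact ⟨a :: l₁, l₂, rfl⟩

theorem not_cs_nil {u v : A} : ¬ Cs ([] : List A) u v := by
  rintro ⟨l₁, l₂, h⟩
  simp at h

theorem not_cs_one {a u v : A} : ¬ Cs [a] u v := by
  intro h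
  rcases cs_cons.1 h with ⟨-, l, hl⟩ | h
  · cases hl
  · exact not_cs_nil h

theorem trip_of_mem {a b x : A} {l : List A} (hx : x ∈ l) :
    ∃ u v, Trip (a :: (l ++ [b])) u x v := by
  obtain ⟨s, t, rfl⟩ := List.append_of_mem hx
  obtain ⟨s', u, hs'⟩ : ∃ s' u, a :: s = s' ++ [u] :=
    ⟨(a :: s).dropLast, (a :: s).getLast (List.cons_ne_nil _ _),
      (List.dropLast_append_getLast _).symm⟩
  obtain ⟨v, t', ht'⟩ : ∃ v t', t ++ [b] = v :: t' := by
    cases t with
    | nil => exact ⟨b, [], rfl⟩
    | cons c t => exact ⟨c, t ++ [b], rfl⟩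
  refine ⟨u, v, s', t', ?_⟩
  have e1 : a :: (s ++ x :: t ++ [b]) = (a :: s) ++ x :: (t ++ [b]) := by simp
  rw [e1, hs', ht']
  simp

theorem cs_succ_unique {L : List A} (hn : L.Nodup) {x y z : A} (h1 : Cs L x y) (h2 : Cs L x z) :
    y = z := by
  induction L with
  | nil => exact absurd h1 not_cs_nil
  | cons a L ih =>
    rw [List.nodup_cons] at hn
    rcases cs_cons.1 h1 with ⟨rfl, l, hl⟩ | h1'
    · rcases cs_cons.1 h2 with ⟨-, l', hl'⟩ | h2'
      · rw [hl, List.cons.injEq] at hl'
        exact hl'.1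
      · exact absurd h2'.mem.1 hn.1
    · rcases cs_cons.1 h2 with ⟨rfl, -⟩ | h2'
      · exact absurd h1'.mem.1 hn.1
      · exact ih hn.2 h1' h2'

theorem cs_tail {a u x : A} {L : List A} (h : Cs (a :: L) u x) : x ∈ L := by
  rcases cs_cons.1 h with ⟨-, l, rfl⟩ | h
  · simp
  · exact h.mem.2

theorem cs_pred_unique {L : List A} (hn : L.Nodup) {x y z : A} (h1 : Cs L y x) (h2 : Cs L z x) :
    y = z := by
  induction L with
  | nil => exact absurd h1 not_cs_nil
  | cons a L ih =>
    rw [List.nodup_cons] at hn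
    rcases cs_cons.1 h1 with ⟨rfl, l, hl⟩ | h1'
    · rcases cs_cons.1 h2 with ⟨rfl, -⟩ | h2'
      · rfl
      · exfalso
        subst hl
        exact (List.nodup_cons.1 hn.2).1 (cs_tail h2')
    · rcases cs_cons.1 h2 with ⟨rfl, l, hl⟩ | h2'
      · exfalso
        subst hl
        exact (List.nodup_cons.1 hn.2).1 (cs_tail h1')
      · exact ih hn.2 h1' h2'

theorem cs_init {b x v : A} {L : List A} (h : Cs (L ++ [b]) x v) : x ∈ L := by
  induction L with
  | nil => exact absurd h not_cs_one
  | cons a L ih =>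
    rw [List.cons_append] at h
    rcases cs_cons.1 h with ⟨rfl, -⟩ | h
    · simp
    · exact List.mem_cons_of_mem _ (ih h)

/-- A relation which passes through triples is the same for all consecutive pairs. -/
theorem cs_all {Q : A → A → Prop} : ∀ (L : List A) (a b : A),
    (∀ u x v, Trip (a :: b :: L) u x v → (Q u x ↔ Q x v)) →
    ∀ u v, Cs (a :: b :: L) u v → (Q u v ↔ Q a b) := by
  intro L
  induction L with
  | nil =>
    intro a b _ u v h
    rcases cs_cons.1 h with ⟨rfl, l, hl⟩ | h
    · rw [List.cons.injEq] at hl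
      rw [← hl.1]
    · exact absurd h not_cs_one
  | cons c L ih =>
    intro a b hT u v h
    rcases cs_cons.1 h with ⟨rfl, l, hl⟩ | h
    · rw [List.cons.injEq] at hl
      rw [← hl.1]
    · rw [ih b c (fun u x v h' => hT u x v (h'.cons a)) u v h]
      exact (hT a b c ⟨[], L, rfl⟩).symm

theorem card_cs_le [Fintype A] [DecidableEq A] (L : List A) (a : A)
    [DecidablePred fun q : A × A => Cs (a :: L) q.1 q.2] :
    (univ.filter (fun q : A × A => Cs (a :: L) q.1 q.2)).card ≤ L.length := by
  classical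
  induction L generalizing a with
  | nil =>
    rw [List.length_nil, Nat.le_zero, card_eq_zero, filter_eq_empty_iff]
    intro q _ h
    exact not_cs_one h
  | cons b L ih =>
    have h1 : univ.filter (fun q : A × A => Cs (a :: b :: L) q.1 q.2) ⊆
        insert (a, b) (univ.filter (fun q : A × A => Cs (b :: L) q.1 q.2)) := by
      intro q hq
      rw [mem_filter] at hq
      rw [mem_insert, mem_filter]
      rcases cs_cons.1 hq.2 with ⟨h, l, hl⟩ | h
      · left
        rw [List.cons.injEq] at hl
        exact Prod.ext h hl.1.symm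
      · exact Or.inr ⟨mem_univ q, h⟩
    refine (card_le_card h1).trans ((card_insert_le _ _).trans ?_)
    rw [List.length_cons]
    exact Nat.add_le_add_right (ih b) 1

end lists

variable {V : Type} [Fintype V] [DecidableEq V] {G : SimpleGraph V} [DecidableRel G.Adj]
  {T : Type} [DecidableEq T] {I : V → Prop} {P : List (V × List V × V)}

/-- The suppressed vertices. -/
def Sup (P : List (V × List V × V)) (x : V) : Prop := ∃ p ∈ P, x ∈ p.2.1

/-- Deleted darts. -/
def DelD (I : V → Prop) (P : List (V × List V × V)) (d : G.Dart) : Prop :=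
  (I d.fst ∨ I d.snd) ∧ ∀ p ∈ P, ¬ OnP p d.fst d.snd

theorem eq_of_mem_full (hd : VD G I P) {p q : V × List V × V} (hp : p ∈ P) (hq : q ∈ P) {x : V}
    (h1 : x ∈ p.2.1) (h2 : x ∈ full q) : p = q :=
  pw_unique (fun _ _ h => ⟨h.2, h.1⟩) hd.disj hp hq fun h => h.1 x h1 h2

/-- A crossing edge of the component. -/
def CC (R : Rot G) (κ : R.Face → T) (C : Finset V) (u v : V) : Prop :=
  u ∈ C ∧ ∃ h : G.Adj u v, Cr R κ ⟨(u, v), h⟩

theorem CC.symm {R : Rot G} {κ : R.Face → T} {C : Finset V} (hC : IsComp R κ C) {u v : V}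
    (h : CC R κ C u v) : CC R κ C v u := by
  obtain ⟨h1, h2, h3⟩ := h
  exact ⟨hC.closed _ h3 h1, h2.symm, h3.symm⟩

/-- At a suppressed vertex both or none of the path edges are crossing. -/
theorem step_cc (hd : VD G I P) (R : Rot G) (κ : R.Face → T) (C : Finset V)
    (hdel : ∀ d : G.Dart, Cr R κ d → ¬ DelD I P d) {p : V × List V × V} (hp : p ∈ P)
    {x u v : V} (hx : x ∈ p.2.1) (hxy : ∀ y, OnP p x y → y = u ∨ y = v)
    (h : CC R κ C x u) : CC R κ C x v ∧ (crV R κ x).card = 2 := by
  classical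
  obtain ⟨h1, h2, h3⟩ := h
  have hsub : ∀ d ∈ crV R κ x, d.snd = u ∨ d.snd = v := by
    intro d hdm
    obtain ⟨-, g1, g2⟩ := mem_filter.1 hdm
    have g3 := hdel d g2
    unfold DelD at g3
    push Not at g3
    obtain ⟨q, hq, g4⟩ := g3 (Or.inl (by rw [g1]; exact hd.int p hp x hx))
    have g5 : x ∈ full q := by
      rw [g1] at g4
      rcases g4 with g4 | g4
      · exact g4.mem.1
      · exact g4.mem.2
    have g6 := eq_of_mem_full hd hp hq hx g5
    subst g6
    rw [g1] at g4
    exact hxy _ g4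
  have hmem : (⟨(x, u), h2⟩ : G.Dart) ∈ crV R κ x := mem_filter.2 ⟨mem_univ _, rfl, h3⟩
  have hne := crV_card_ne_one R κ x
  have hpos := card_pos.2 ⟨_, hmem⟩
  have h4 : 1 < (crV R κ x).card := by omega
  obtain ⟨d, hd1, hd2⟩ := exists_mem_ne h4 (⟨(x, u), h2⟩ : G.Dart)
  obtain ⟨-, g1, g2⟩ := mem_filter.1 hd1
  have h5 : d.snd = v := by
    rcases hsub d hd1 with h6 | h6
    · exact absurd (SimpleGraph.Dart.ext _ _ (Prod.ext g1 h6)) hd2
    · exact h6
  have hd' : d = ⟨(x, v), by rw [← g1, ← h5]; exact d.adj⟩ :=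
    SimpleGraph.Dart.ext _ _ (Prod.ext g1 h5)
  refine ⟨⟨h1, by rw [← g1, ← h5]; exact d.adj, by rw [← hd']; exact g2⟩, ?_⟩
  refine le_antisymm ?_ h4
  have h6 : crV R κ x ⊆ {⟨(x, u), h2⟩, d} := by
    intro a ha
    obtain ⟨-, b1, b2⟩ := mem_filter.1 ha
    rw [mem_insert, mem_singleton]
    rcases hsub a ha with h6 | h6
    · left
      exact SimpleGraph.Dart.ext _ _ (Prod.ext b1 h6)
    · right
      exact SimpleGraph.Dart.ext _ _ (Prod.ext (b1.trans g1.symm) (h6.trans h5.symm))
  exact (card_le_card h6).trans card_le_two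

theorem trip_nbr {p : V × List V × V} (hn : (full p).Nodup) {u x v : V}
    (h : Trip (full p) u x v) {y : V} (hy : OnP p x y) : y = u ∨ y = v := by
  rcases hy with hy | hy
  · exact Or.inr (cs_succ_unique hn hy h.snd)
  · exact Or.inl (cs_pred_unique hn hy h.fst)

/-- If one edge of a path is a crossing edge of the component, then all inner vertices have
exactly two crossing darts. -/
theorem path_all (hd : VD G I P) (R : Rot G) (κ : R.Face → T) (C : Finset V)
    (hC : IsComp R κ C) (hdel : ∀ d : G.Dart, Cr R κ d → ¬ DelD I P d)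
    {p : V × List V × V} (hp : p ∈ P) {u v : V} (h : OnP p u v) (hcc : CC R κ C u v) :
    ∀ x ∈ p.2.1, x ∈ crTwo R κ C := by
  obtain ⟨hc, hn⟩ := hd.chain p hp
  have hT : ∀ u x v, Trip (full p) u x v → (CC R κ C u x ↔ CC R κ C x v) ∧
      (CC R κ C u x → x ∈ crTwo R κ C) := by
    intro u x v ht
    have hx : x ∈ p.2.1 := by
      have h1 : x ∈ p.2.1 ++ [p.2.2] := cs_tail ht.fst
      have h2 : x ∈ p.1 :: p.2.1 := cs_init (b := p.2.2) (by
        have : full p = (p.1 :: p.2.1) ++ [p.2.2] := rfl
        rw [← this]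
        exact ht.snd)
      rcases List.mem_cons.1 h2 with h3 | h3
      · exfalso
        have h4 : p.1 ∉ p.2.1 ++ [p.2.2] := by
          unfold full at hn
          exact (List.nodup_cons.1 hn).1
        rw [h3] at h1
        exact h4 h1
      · exact h3
    have h5 : ∀ y, OnP p x y → y = u ∨ y = v := fun y hy => trip_nbr hn ht hy
    refine ⟨⟨fun h => ?_, fun h => ?_⟩, fun h => ?_⟩
    · exact (step_cc hd R κ C hdel hp hx h5 (h.symm hC)).1
    · exact (step_cc hd R κ C hdel hp hx (fun y hy => (h5 y hy).symm) h).1.symm hC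
    · exact mem_filter.2 ⟨(h.symm hC).1, (step_cc hd R κ C hdel hp hx h5 (h.symm hC)).2⟩
  obtain ⟨z, l, hl⟩ : ∃ z l, p.2.1 ++ [p.2.2] = z :: l := by
    cases h1 : p.2.1 with
    | nil => exact ⟨p.2.2, [], rfl⟩
    | cons z l => exact ⟨z, l ++ [p.2.2], rfl⟩
  have hfull : full p = p.1 :: z :: l := by
    unfold full
    rw [hl]
  have hall : ∀ u v, Cs (full p) u v → (CC R κ C u v ↔ CC R κ C p.1 z) := by
    rw [hfull]
    refine cs_all l p.1 z fun u x v ht => ?_
    exact (hT u x v (by rw [hfull]; exact ht)).1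
  have h1 : CC R κ C p.1 z := by
    rcases h with h | h
    · exact (hall u v h).1 hcc
    · exact (hall v u h).1 (hcc.symm hC)
  intro x hx
  obtain ⟨u', v', ht⟩ := trip_of_mem (a := p.1) (b := p.2.2) hx
  exact (hT u' x v' ht).2 ((hall u' x ht.fst).2 h1)

/-- **The defect of the weights of a virtual surgery.** -/
theorem defect_le (hd : VD G I P) (R : Rot G) (κ : R.Face → T) (C : Finset V)
    (hC : IsComp R κ C) (hdel : ∀ d : G.Dart, Cr R κ d → ¬ DelD I P d)
    (θ M : ℝ) (hθ : 0 ≤ θ) [DecidablePred (Sup P)] :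
    ∑ e : Up G, (if Cr R κ e.1 ∧ e.1.fst ∈ C then
      max (θ - omV I P θ M e.1.fst e.1.snd) 0 else 0) ≤
      θ * ((crTwo R κ C).filter (fun x => Sup P x)).card := by
  classical
  set k : V × List V × V → ℝ := fun p => (p.2.1.length : ℝ) with hk
  have hk0 : ∀ p, 0 ≤ k p := fun p => Nat.cast_nonneg _
  have h1 : ∑ e : Up G, (if Cr R κ e.1 ∧ e.1.fst ∈ C then
      max (θ - omV I P θ M e.1.fst e.1.snd) 0 else 0) ≤
      ∑ e : Up G, ∑ p ∈ P.toFinset, if (Cr R κ e.1 ∧ e.1.fst ∈ C) ∧ OnP p e.1.fst e.1.snd then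
        θ * k p / (k p + 1) else 0 := by
    refine sum_le_sum fun e _ => ?_
    have hnn : 0 ≤ ∑ p ∈ P.toFinset, if (Cr R κ e.1 ∧ e.1.fst ∈ C) ∧ OnP p e.1.fst e.1.snd then
        θ * k p / (k p + 1) else 0 := by
      refine sum_nonneg fun p _ => ?_
      split_ifs
      · exact div_nonneg (mul_nonneg hθ (hk0 p)) (by linarith [hk0 p])
      · exact le_rfl
    by_cases g : Cr R κ e.1 ∧ e.1.fst ∈ C
    · rw [if_pos g]
      by_cases hex : ∃ p ∈ P, OnP p e.1.fst e.1.snd
      · obtain ⟨p, hp, hon⟩ := hex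
        rw [hd.omV_path hp hon]
        have h2 : θ - θ / ((p.2.1.length : ℝ) + 1) = θ * k p / (k p + 1) := by
          have : (0 : ℝ) < (p.2.1.length : ℝ) + 1 := by positivity
          simp only [hk]
          field_simp
          ring
        rw [h2, max_eq_left (div_nonneg (mul_nonneg hθ (hk0 p)) (by linarith [hk0 p]))]
        have h3 := single_le_sum (f := fun p => if (Cr R κ e.1 ∧ e.1.fst ∈ C) ∧
            OnP p e.1.fst e.1.snd then θ * k p / (k p + 1) else 0) (s := P.toFinset)
          (fun q _ => by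
            show (0 : ℝ) ≤ if _ then _ else _
            split_ifs
            · exact div_nonneg (mul_nonneg hθ (hk0 q)) (by linarith [hk0 q])
            · exact le_rfl) (List.mem_toFinset.2 hp)
        refine le_trans (le_of_eq ?_) h3
        rw [if_pos ⟨g, hon⟩]
      · have h2 : omV I P θ M e.1.fst e.1.snd = θ := by
          have h3 := hdel e.1 g.1
          unfold DelD at h3
          push Not at h3
          have h4 : ¬ (I e.1.fst ∨ I e.1.snd) := by
            intro h4
            exact hex (h3 h4)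
          push Not at h4
          exact omV_kept hd h4.1 h4.2 θ M
        rw [h2, sub_self, max_self]
        exact hnn
    · rw [if_neg g]
      exact hnn
  refine h1.trans ?_
  rw [sum_comm]
  have h2 : ∀ p ∈ P.toFinset, ∑ e : Up G, (if (Cr R κ e.1 ∧ e.1.fst ∈ C) ∧
      OnP p e.1.fst e.1.snd then θ * k p / (k p + 1) else 0) ≤
      θ * ((crTwo R κ C).filter (fun x => x ∈ p.2.1)).card := by
    intro p hp
    have hp' := List.mem_toFinset.1 hp
    by_cases hex : ∃ e : Up G, (Cr R κ e.1 ∧ e.1.fst ∈ C) ∧ OnP p e.1.fst e.1.snd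
    · obtain ⟨e, ⟨g1, g2⟩, g3⟩ := hex
      have h3 := path_all hd R κ C hC hdel hp' g3 ⟨g2, e.1.adj, g1⟩
      have hnd : p.2.1.Nodup := by
        have := (hd.chain p hp').2
        unfold full at this
        exact (List.nodup_append.1 (List.nodup_cons.1 this).2).1
      have h4 : ((crTwo R κ C).filter (fun x => x ∈ p.2.1)).card = p.2.1.length := by
        rw [← List.toFinset_card_of_nodup hnd]
        congr 1
        ext x
        simp only [mem_filter, List.mem_toFinset]
        exact ⟨fun h => h.2, fun h => ⟨h3 x h, h⟩⟩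
      rw [h4, ← sum_filter, sum_const, nsmul_eq_mul]
      have h5 : ((univ.filter (fun e : Up G => (Cr R κ e.1 ∧ e.1.fst ∈ C) ∧
          OnP p e.1.fst e.1.snd)).card : ℝ) ≤ k p + 1 := by
        have h6 : (univ.filter (fun e : Up G => (Cr R κ e.1 ∧ e.1.fst ∈ C) ∧
            OnP p e.1.fst e.1.snd)).card ≤
            (univ.filter (fun q : V × V => Cs (full p) q.1 q.2)).card := by
          refine card_le_card_of_injOn (fun e => if Cs (full p) e.1.fst e.1.snd then
            (e.1.fst, e.1.snd) else (e.1.snd, e.1.fst)) ?_ ?_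
          · intro e he
            have he' := (mem_filter.1 he).2.2
            refine mem_coe.2 (mem_filter.2 ⟨mem_univ _, ?_⟩)
            beta_reduce
            split_ifs with g
            · exact g
            · rcases he' with he' | he'
              · exact absurd he' g
              · exact he'
          · intro e _ e' _ hee
            have key : ∀ e e' : Up G, e.1.fst = e'.1.snd → e.1.snd = e'.1.fst → False := by
              intro e e' g1 g2
              have g3 := e.2
              have g4 := e'.2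
              rw [g1, g2] at g3
              omega
            simp only at hee
            split_ifs at hee with g1 g2 g2
            · rw [Prod.mk.injEq] at hee
              exact Subtype.ext (SimpleGraph.Dart.ext _ _ (Prod.ext hee.1 hee.2))
            · rw [Prod.mk.injEq] at hee
              exact (key e e' hee.1 hee.2).elim
            · rw [Prod.mk.injEq] at hee
              exact (key e e' hee.2 hee.1).elim
            · rw [Prod.mk.injEq] at hee
              exact Subtype.ext (SimpleGraph.Dart.ext _ _ (Prod.ext hee.2 hee.1))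
        have h7 := card_cs_le (p.2.1 ++ [p.2.2]) p.1
        rw [List.length_append, List.length_singleton] at h7
        have h8 : (univ.filter (fun e : Up G => (Cr R κ e.1 ∧ e.1.fst ∈ C) ∧
            OnP p e.1.fst e.1.snd)).card ≤ p.2.1.length + 1 := h6.trans h7
        simp only [hk]
        exact_mod_cast h8
      have h9 : (0 : ℝ) < k p + 1 := by linarith [hk0 p]
      have h10 : 0 ≤ θ * k p / (k p + 1) := div_nonneg (mul_nonneg hθ (hk0 p)) h9.le
      calc _ ≤ (k p + 1) * (θ * k p / (k p + 1)) := mul_le_mul_of_nonneg_right h5 h10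
        _ = θ * k p := by field_simp
    · push Not at hex
      have h3 : ∑ e : Up G, (if (Cr R κ e.1 ∧ e.1.fst ∈ C) ∧
          OnP p e.1.fst e.1.snd then θ * k p / (k p + 1) else 0) = 0 := by
        refine sum_eq_zero fun e _ => if_neg ?_
        rintro ⟨g1, g2⟩
        exact hex e g1 g2
      rw [h3]
      exact mul_nonneg hθ (Nat.cast_nonneg _)
  refine (sum_le_sum h2).trans ?_
  rw [← mul_sum]
  refine mul_le_mul_of_nonneg_left ?_ hθ
  have h3 : ∑ p ∈ P.toFinset, ((crTwo R κ C).filter (fun x => x ∈ p.2.1)).card ≤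
      ((crTwo R κ C).filter (fun x => Sup P x)).card := by
    rw [← card_biUnion]
    · refine card_le_card fun x hx => ?_
      rw [mem_biUnion] at hx
      obtain ⟨p, hp, hx⟩ := hx
      rw [mem_filter] at hx ⊢
      exact ⟨hx.1, p, List.mem_toFinset.1 hp, hx.2⟩
    · intro p hp q hq hpq
      rw [Function.onFun, disjoint_left]
      intro x h3 h4
      rw [mem_filter] at h3 h4
      refine hpq (eq_of_mem_full hd (List.mem_toFinset.1 hp) (List.mem_toFinset.1 hq) h3.2 ?_)
      unfold full
      exact List.mem_cons_of_mem _ (List.mem_append_left _ h4.2)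
  exact_mod_cast h3

/-- **The count for a virtual surgery.** -/
theorem count_VD (hd : VD G I P) (R : Rot G) (hcub : ∀ v, G.degree v = 3) {K : Finset R.Face}
    {p : R.Face → Option R.Face} (hp : Adm K p)
    (hnb : ∀ d, p (R.face d) = none → R.face d.symm ≠ R.face d) (C : Finset V)
    (hC : IsComp R (qr p) C) (hdel : ∀ d : G.Dart, Cr R (qr p) d → ¬ DelD I P d)
    (θ M : ℝ) (hθ : 0 ≤ θ) [DecidablePred (Sup P)] :
    θ * (6 * (((covT R p C).card : ℝ) - 1) +
      2 * ((crTwo R (qr p) C).filter (fun x => ¬ Sup P x)).card - 6 +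
      ∑ z ∈ uncT R p C, (6 - (R.size z : ℝ))) ≤
      ∑ e : Up G, (if Cr R (qr p) e.1 ∧ e.1.fst ∈ C then
        omV I P θ M e.1.fst e.1.snd * cc p (R.face e.1) (R.face e.1.symm) else 0) := by
  have h1 := count_weight R hcub hp hnb C hC θ hθ (fun e => omV I P θ M e.1.fst e.1.snd)
    ((crTwo R (qr p) C).filter (fun x => Sup P x)).card
    (defect_le hd R (qr p) C hC hdel θ M hθ)
  have h2 : ((crTwo R (qr p) C).card : ℝ) - ((crTwo R (qr p) C).filter (fun x => Sup P x)).card =
      ((crTwo R (qr p) C).filter (fun x => ¬ Sup P x)).card := by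
    have h3 := card_filter_add_card_filter_not (s := crTwo R (qr p) C) (fun x => Sup P x)
    have h4 : (((crTwo R (qr p) C).filter (fun x => Sup P x)).card : ℝ) +
        ((crTwo R (qr p) C).filter (fun x => ¬ Sup P x)).card = (crTwo R (qr p) C).card := by
      exact_mod_cast h3
    linarith
  rw [h2] at h1
  exact h1

end Pool.Agent.Uni3
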