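import Mathlib
import Pool.Agent.Work.MP_392c8e_co_uni.Tower

/-!
# Dropping a component of the crossing edges

A family of disjoint sets which meet and cover a set `K` of terminals is given by labels
`p : F → Option F`.  If the family minimises the energy (total boundary weight minus twice the
number of sets), then every union `Hi` of edges that is closed at the uncovered points has energy at
most zero: merge everything that touches `Hi`.
-/

namespace Pool.Agent.Uni97

open Finset Pool.Agent.Uni3

set_option linter.unusedSectionVars false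

variable {F E : Type*} [Fintype F] [DecidableEq F] [Fintype E] [DecidableEq E]

theorem cc_nonneg (p : F → Option F) (u v : F) : 0 ≤ cc p u v := by
  unfold cc
  split_ifs <;> norm_num

theorem cc_symm (p : F → Option F) (u v : F) : cc p u v = cc p v u := by
  unfold cc
  by_cases h : p u = p v
  · rw [if_pos h, if_pos h.symm]
  · rw [if_neg h, if_neg (Ne.symm h), add_comm]

theorem cc_some_some {p : F → Option F} {u v c d : F} (hu : p u = some c) (hv : p v = some d)
    (h : c ≠ d) : cc p u v = 2 := by
  unfold cc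
  rw [hu, hv, if_neg (by simpa using h), if_neg (by simp), if_neg (by simp)]
  norm_num

theorem cc_some_none {p : F → Option F} {u v c : F} (hu : p u = some c) (hv : p v = none) :
    cc p u v = 1 := by
  unfold cc
  rw [hu, hv, if_neg (by simp), if_neg (by simp), if_pos rfl]
  norm_num

/-- **Dropping.** -/
theorem drop_bound (s t : E → F) (om : E → ℝ) (hom : ∀ e, 0 ≤ om e) (K : Finset F)
    (p : F → Option F) (hp : Adm K p) (hmin : ∀ q, Adm K q → phi s t om K p ≤ phi s t om K q)
    (Hi : Finset E)
    (hz : ∀ e ∈ Hi, ∀ e' ∉ Hi, ∀ z, p z = none → (s e = z ∨ t e = z) → (s e' = z ∨ t e' = z) →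
      False)
    (M : Finset F) (hM : ∀ c, c ∈ M ↔ ∃ e ∈ Hi, p (s e) = some c ∨ p (t e) = some c)
    (hne : M.Nonempty) :
    ∑ e ∈ Hi, om e * cc p (s e) (t e) ≤ 2 * ((M.card : ℝ) - 1) := by
  classical
  obtain ⟨c₀, hc₀⟩ := hne
  have hself : ∀ c ∈ M, c ∈ K ∧ p c = some c := by
    intro c hc
    obtain ⟨e, -, h | h⟩ := (hM c).1 hc
    · exact hp.2 _ _ h
    · exact hp.2 _ _ h
  let tch : F → Prop := fun v => (p v = none ∧ ∃ e ∈ Hi, s e = v ∨ t e = v) ∨
    ∃ c ∈ M, p v = some c
  let q : F → Option F := fun v => if tch v then some c₀ else p v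
  have hq1 : ∀ v, tch v → q v = some c₀ := fun v hv => if_pos hv
  have hq2 : ∀ v, ¬ tch v → q v = p v := fun v hv => if_neg hv
  have hts : ∀ e ∈ Hi, tch (s e) := by
    intro e he
    rcases h : p (s e) with _ | c
    · exact Or.inl ⟨h, e, he, Or.inl rfl⟩
    · exact Or.inr ⟨c, (hM c).2 ⟨e, he, Or.inl h⟩, h⟩
  have htt : ∀ e ∈ Hi, tch (t e) := by
    intro e he
    rcases h : p (t e) with _ | c
    · exact Or.inl ⟨h, e, he, Or.inr rfl⟩
    · exact Or.inr ⟨c, (hM c).2 ⟨e, he, Or.inr h⟩, h⟩
  have hnt : ∀ v c, p v = some c → ¬ tch v → c ∉ M := fun v c hv hn hc => hn (Or.inr ⟨c, hc, hv⟩)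
  have hqok : Adm K q := by
    refine ⟨fun v hv => ?_, fun v c hvc => ?_⟩
    · by_cases h : tch v
      · rw [hq1 v h]
        simp
      · rw [hq2 v h]
        exact hp.1 v hv
    · by_cases h : tch v
      · rw [hq1 v h] at hvc
        obtain rfl : c₀ = c := by simpa using hvc
        refine ⟨(hself _ hc₀).1, hq1 _ (Or.inr ⟨_, hc₀, (hself _ hc₀).2⟩)⟩
      · rw [hq2 v h] at hvc
        have h1 := hp.2 v c hvc
        have h2 : c ∉ M := hnt v c hvc h
        refine ⟨h1.1, ?_⟩
        rw [hq2 c ?_]
        · exact h1.2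
        · rintro (⟨h3, -⟩ | ⟨c', hc', h3⟩)
          · rw [h1.2] at h3
            simp at h3
          · rw [h1.2] at h3
            obtain rfl : c = c' := by simpa using h3
            exact h2 hc'
  -- the number of labels
  have hcard : (K.image p).card + 1 ≤ (K.image q).card + M.card := by
    have h1 : M.image some ⊆ K.image p := by
      intro x hx
      obtain ⟨c, hc, rfl⟩ := mem_image.1 hx
      exact mem_image.2 ⟨c, (hself c hc).1, (hself c hc).2⟩
    have h2 : insert (some c₀) ((K.image p) \ (M.image some)) ⊆ K.image q := by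
      intro x hx
      rw [mem_insert, mem_sdiff] at hx
      rcases hx with rfl | ⟨hx, hx2⟩
      · exact mem_image.2 ⟨c₀, (hself _ hc₀).1, hq1 _ (Or.inr ⟨_, hc₀, (hself _ hc₀).2⟩)⟩
      · obtain ⟨v, hv, rfl⟩ := mem_image.1 hx
        refine mem_image.2 ⟨v, hv, hq2 v ?_⟩
        rintro (⟨h3, -⟩ | ⟨c', hc', h3⟩)
        · exact hp.1 v hv h3
        · exact hx2 (mem_image.2 ⟨c', hc', h3.symm⟩)
    have h3 := card_le_card h2
    rw [card_insert_of_notMem (by
      rw [mem_sdiff]
      rintro ⟨-, h⟩
      exact h (mem_image_of_mem _ hc₀)), card_sdiff_of_subset h1,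
      card_image_of_injective _ (Option.some_injective F)] at h3
    have h4 := card_le_card h1
    rw [card_image_of_injective _ (Option.some_injective F)] at h4
    omega
  -- the weights
  have hcc : ∀ e ∉ Hi, cc q (s e) (t e) ≤ cc p (s e) (t e) := by
    have key : ∀ u v, tch u → ¬ tch v → p u ≠ none → cc q u v = cc p u v := by
      intro u v hu hv hun
      obtain ⟨c, hc⟩ := Option.ne_none_iff_exists'.1 hun
      have hcM : c ∈ M := by
        rcases hu with ⟨h, -⟩ | ⟨c', hc', h⟩
        · exact absurd h hun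
        · rw [hc] at h
          obtain rfl : c = c' := by simpa using h
          exact hc'
      rcases hpv : p v with _ | d
      · rw [cc_some_none hc hpv, cc_some_none (hq1 u hu) (by rw [hq2 v hv, hpv])]
      · have hd : d ∉ M := hnt v d hpv hv
        rw [cc_some_some hc hpv (fun h => hd (h ▸ hcM)),
          cc_some_some (c := c₀) (d := d) (hq1 u hu) (by rw [hq2 v hv, hpv])
            (fun h => hd (h ▸ hc₀))]
    intro e he
    by_cases h1 : tch (s e) <;> by_cases h2 : tch (t e)
    · refine le_trans (le_of_eq ?_) (cc_nonneg _ _ _)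
      unfold cc
      rw [hq1 _ h1, hq1 _ h2, if_pos rfl]
    · refine le_of_eq (key _ _ h1 h2 fun h3 => ?_)
      rcases h1 with ⟨-, e', he', h4⟩ | ⟨c', -, h4⟩
      · exact hz e' he' e he (s e) h3 h4 (Or.inl rfl)
      · rw [h3] at h4
        simp at h4
    · rw [cc_symm q, cc_symm p]
      refine le_of_eq (key _ _ h2 h1 fun h3 => ?_)
      rcases h2 with ⟨-, e', he', h4⟩ | ⟨c', -, h4⟩
      · exact hz e' he' e he (t e) h3 h4 (Or.inr rfl)
      · rw [h3] at h4
        simp at h4
    · refine le_of_eq ?_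
      unfold cc
      rw [hq2 _ h1, hq2 _ h2]
  have hw : ∑ e, om e * cc q (s e) (t e) + ∑ e ∈ Hi, om e * cc p (s e) (t e) ≤
      ∑ e, om e * cc p (s e) (t e) := by
    rw [← sum_add_sum_compl Hi (fun e => om e * cc q (s e) (t e)),
      ← sum_add_sum_compl Hi (fun e => om e * cc p (s e) (t e))]
    have h0 : ∑ e ∈ Hi, om e * cc q (s e) (t e) = 0 := by
      refine sum_eq_zero fun e he => ?_
      unfold cc
      rw [hq1 _ (hts e he), hq1 _ (htt e he), if_pos rfl, mul_zero]
    have h1 : ∑ e ∈ Hiᶜ, om e * cc q (s e) (t e) ≤ ∑ e ∈ Hiᶜ, om e * cc p (s e) (t e) :=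
      sum_le_sum fun e he => mul_le_mul_of_nonneg_left (hcc e (mem_compl.1 he)) (hom e)
    linarith
  have h1 := hmin q hqok
  unfold phi at h1
  have h2 : ((K.image p).card : ℝ) + 1 ≤ (K.image q).card + M.card := by exact_mod_cast hcard
  linarith

end Pool.Agent.Uni97
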