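import Mathlib
import Pool.Agent.Work.MP_392c8e_co_uni.Drop
import Pool.Agent.Work.MP_392c8e_co_uni.Inv
import Pool.Agent.Work.MP_392c8e_co_uni.CountP

/-!
# The level of the charges of a potential on the unions of classes

Charges which come from a potential `y` with integers `P` near its differences split over the
components of the graph of crossing edges.  On a component which has few covered classes the
charges are bounded, and the strict bound improves to a bound with a constant gain.
-/

namespace Pool.Agent.Uni97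

open Finset Pool.Agent.Sub392 Pool.Agent.Circ Pool.Agent.Uni3

set_option linter.unusedSectionVars false

variable {V : Type} [Fintype V] [DecidableEq V] {G : SimpleGraph V} [DecidableRel G.Adj]

theorem mem_ct {F E : Type*} [Fintype F] [DecidableEq F] [Fintype E] [DecidableEq E]
    {s t : E → F} {A : Finset F} {e : E} : e ∈ cut s t A ↔ ¬ (s e ∈ A ↔ t e ∈ A) := by
  unfold cut
  rw [mem_filter]
  by_cases h1 : s e ∈ A <;> by_cases h2 : t e ∈ A <;> simp [h1, h2]

/-! ## Components -/

/-- The component of the graph of crossing edges at a vertex. -/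
noncomputable def comp {T : Type} [DecidableEq T] (R : Rot G) (κ : R.Face → T) (v : V) :
    Finset V := by
  classical
  exact univ.filter fun u =>
    Relation.ReflTransGen (fun a b => ∃ d : G.Dart, Cr R κ d ∧ d.fst = a ∧ d.snd = b) v u

theorem mem_comp {T : Type} [DecidableEq T] {R : Rot G} {κ : R.Face → T} {v u : V} :
    u ∈ comp R κ v ↔
      Relation.ReflTransGen (fun a b => ∃ d : G.Dart, Cr R κ d ∧ d.fst = a ∧ d.snd = b) v u := by
  classical
  unfold comp
  rw [mem_filter]
  simp

theorem self_mem_comp {T : Type} [DecidableEq T] {R : Rot G} {κ : R.Face → T} {v : V} :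
    v ∈ comp R κ v := mem_comp.2 Relation.ReflTransGen.refl

theorem rel_symm {T : Type} [DecidableEq T] {R : Rot G} {κ : R.Face → T} {v u : V}
    (h : Relation.ReflTransGen (fun a b => ∃ d : G.Dart, Cr R κ d ∧ d.fst = a ∧ d.snd = b) v u) :
    Relation.ReflTransGen (fun a b => ∃ d : G.Dart, Cr R κ d ∧ d.fst = a ∧ d.snd = b) u v := by
  induction h with
  | refl => exact Relation.ReflTransGen.refl
  | tail _ h1 ih =>
    obtain ⟨d, h2, h3, h4⟩ := h1
    exact Relation.ReflTransGen.head ⟨d.symm, h2.symm, h4, h3⟩ ih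

theorem comp_eq {T : Type} [DecidableEq T] {R : Rot G} {κ : R.Face → T} {v u : V}
    (h : u ∈ comp R κ v) : comp R κ u = comp R κ v := by
  ext x
  rw [mem_comp, mem_comp]
  rw [mem_comp] at h
  exact ⟨fun h1 => h.trans h1, fun h1 => (rel_symm h).trans h1⟩

theorem isComp_comp {T : Type} [DecidableEq T] (R : Rot G) (κ : R.Face → T) {v : V}
    (hv : ∃ d : G.Dart, d.fst = v ∧ Cr R κ d) : IsComp R κ (comp R κ v) where
  closed d hd h := mem_comp.2 ((mem_comp.1 h).tail ⟨d, hd, rfl, rfl⟩)
  conn f hf := by
    have key : ∀ u, u ∈ comp R κ v → f v = f u := by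
      intro u hu
      have h := mem_comp.1 hu
      clear hu
      induction h with
      | refl => rfl
      | tail h0 h1 ih =>
        obtain ⟨d, h2, h3, h4⟩ := h1
        rw [ih, ← h3, ← h4]
        exact hf d h2 (by rw [h3]; exact mem_comp.2 h0)
    intro a ha b hb
    rw [← key a ha, ← key b hb]
  touch u hu := by
    have h := mem_comp.1 hu
    rcases Relation.ReflTransGen.cases_tail h with h1 | ⟨w, -, d, h2, h3, h4⟩
    · rw [h1]
      exact hv
    · exact ⟨d.symm, h4, h2.symm⟩

/-! ## The part of the charges on a component -/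

/-- The crossing edges of a component. -/
noncomputable def crE (R : Rot G) (p : R.Face → Option R.Face) (C : Finset V) : Finset (Up G) :=
  univ.filter (fun e => Cr R (qr p) e.1 ∧ e.1.fst ∈ C)

theorem mem_crE {R : Rot G} {p : R.Face → Option R.Face} {C : Finset V} {e : Up G} :
    e ∈ crE R p C ↔ Cr R (qr p) e.1 ∧ e.1.fst ∈ C := by
  unfold crE
  rw [mem_filter]
  simp

/-- The integers on the component. -/
noncomputable def PC (R : Rot G) (p : R.Face → Option R.Face) (P : Up G → ℤ) (C : Finset V)
    (e : Up G) : ℤ := if e ∈ crE R p C then P e else 0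

/-- The charges on the component. -/
noncomputable def WC (R : Rot G) (p : R.Face → Option R.Face) (P : Up G → ℤ) (C : Finset V)
    (f : R.Face) : ℤ :=
  MP974d84.D (fun e : Up G => R.face e.1) (fun e : Up G => R.face e.1.symm) (PC R p P C) f

section

variable (R : Rot G) {K : Finset R.Face} {p : R.Face → Option R.Face} (hp : Adm K p)
  (hnb : ∀ d, p (R.face d) = none → R.face d.symm ≠ R.face d)

include hp hnb

theorem cr_of_cut {A : Finset R.Face} (hA : IsUn p A) {e : Up G}
    (he : e ∈ cut (fun e : Up G => R.face e.1) (fun e : Up G => R.face e.1.symm) A) :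
    Cr R (qr p) e.1 := by
  by_contra h
  obtain ⟨h1, h2⟩ := cc_of_not_cr R hnb hp h
  exact (mem_ct.1 he) (hA _ _ h1 h2)

/-- The bound for the charges of a component. -/
theorem abs_WC_le (y : V → ℝ) (P : Up G → ℤ) {C : Finset V} (hC : IsComp R (qr p) C)
    {A : Finset R.Face} (hA : IsUn p A) :
    |((∑ f ∈ A, WC R p P C f : ℤ) : ℝ)| ≤
      ∑ e ∈ cut (fun e : Up G => R.face e.1) (fun e : Up G => R.face e.1.symm) A,
        if e ∈ crE R p C then |y e.1.snd - y e.1.fst - P e| else 0 := by
  classical
  set s : Up G → R.Face := fun e => R.face e.1 with hs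
  set t : Up G → R.Face := fun e => R.face e.1.symm with ht
  set z : V → ℝ := fun v => if v ∈ C then y v else 0 with hz
  have h1 : ∀ f, ((WC R p P C f : ℤ) : ℝ) =
      MP974d84.D s t (fun e => (PC R p P C e : ℝ) - (z e.1.snd - z e.1.fst)) f := by
    intro f
    have h2 := Uni91.dv_pot R z f
    have h3 : dv s t (fun e : Up G => z e.1.snd - z e.1.fst) f =
        MP974d84.D s t (fun e : Up G => z e.1.snd - z e.1.fst) f := rfl
    rw [← hs, ← ht, h3] at h2
    have h4 : (fun e : Up G => (PC R p P C e : ℝ)) =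
        fun e => ((PC R p P C e : ℝ) - (z e.1.snd - z e.1.fst)) + (z e.1.snd - z e.1.fst) := by
      funext e
      ring
    have h5 : ((WC R p P C f : ℤ) : ℝ) =
        MP974d84.D s t (fun e : Up G => (PC R p P C e : ℝ)) f := by
      unfold WC MP974d84.D
      push_cast
      rfl
    rw [h5, h4, MP974d84.D_add, h2, add_zero]
  rw [Int.cast_sum, sum_congr rfl fun f _ => h1 f, MP974d84.D_cut]
  refine (abs_sum_le_sum_abs _ _).trans ?_
  have h6 : ∀ e : Up G, e ∉ cut s t A → MP974d84.ov s t
      (fun e => (PC R p P C e : ℝ) - (z e.1.snd - z e.1.fst)) A e = 0 := by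
    intro e he
    rw [mem_ct, not_not] at he
    unfold MP974d84.ov
    by_cases h3 : s e ∈ A
    · rw [if_pos h3, if_pos (he.1 h3), sub_self]
    · rw [if_neg h3, if_neg (fun h4 => h3 (he.2 h4)), sub_self]
  rw [← sum_subset (subset_univ (cut s t A)) fun e _ he => by rw [h6 e he, abs_zero]]
  refine sum_le_sum fun e he => ?_
  have hcr := cr_of_cut R hp hnb hA he
  have h7 : |MP974d84.ov s t (fun e => (PC R p P C e : ℝ) - (z e.1.snd - z e.1.fst)) A e| =
      |(PC R p P C e : ℝ) - (z e.1.snd - z e.1.fst)| := by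
    rw [mem_ct] at he
    unfold MP974d84.ov
    by_cases h3 : s e ∈ A <;> by_cases h4 : t e ∈ A
    · exact absurd (iff_of_true h3 h4) he
    · rw [if_pos h3, if_neg h4, sub_zero]
    · rw [if_neg h3, if_pos h4, zero_sub, abs_neg]
    · exact absurd (iff_of_false h3 h4) he
  rw [h7]
  by_cases h8 : e ∈ crE R p C
  · have h9 : e.1.fst ∈ C := (mem_crE.1 h8).2
    have h10 : e.1.snd ∈ C := hC.closed _ hcr h9
    rw [if_pos h8]
    unfold PC
    rw [if_pos h8]
    simp only [hz, if_pos h9, if_pos h10]
    rw [abs_sub_comm]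
  · have h9 : e.1.fst ∉ C := fun h9 => h8 (mem_crE.2 ⟨hcr, h9⟩)
    have h10 : e.1.snd ∉ C := fun h10 => h9 ((hC.closed' hcr).2 h10)
    rw [if_neg h8]
    unfold PC
    rw [if_neg h8]
    simp only [hz, if_neg h9, if_neg h10]
    simp

/-- No charge at the uncovered faces. -/
theorem WC_unc (P : Up G → ℤ) {C : Finset V} (hC : IsComp R (qr p) C)
    (hP : ∀ z, p z = none →
      MP974d84.D (fun e : Up G => R.face e.1) (fun e : Up G => R.face e.1.symm) P z = 0)
    {z : R.Face} (hz : p z = none) : WC R p P C z = 0 := by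
  classical
  have hmem : ∀ d : G.Dart, (∃ e ∈ crE R p C, d = e.1 ∨ d = e.1.symm) → d ∈ crD R (qr p) C := by
    rintro d ⟨e, he, rfl | rfl⟩
    · exact mem_filter.2 ⟨mem_univ _, mem_crE.1 he⟩
    · exact mem_filter.2 ⟨mem_univ _, (mem_crE.1 he).1.symm,
        (hC.closed' (mem_crE.1 he).1).1 (mem_crE.1 he).2⟩
  by_cases h : z ∈ uncT R p C
  · rw [← hP z hz]
    unfold WC MP974d84.D
    refine sum_congr rfl fun e _ => ?_
    have key : R.face e.1 = z ∨ R.face e.1.symm = z → e ∈ crE R p C := by
      rintro (h1 | h1)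
      · have h2 := mem_crD_of_unc R hp hnb C hC h h1
        exact mem_crE.2 (mem_filter.1 h2).2
      · have h2 := (mem_filter.1 (mem_crD_of_unc R hp hnb C hC h h1)).2
        exact mem_crE.2 ⟨h2.1.of_symm, (hC.closed' h2.1.of_symm).2 h2.2⟩
    by_cases h1 : R.face e.1 = z
    · have h3 : PC R p P C e = P e := by
        unfold PC
        rw [if_pos (key (Or.inl h1))]
      rw [h3]
    · by_cases h2 : R.face e.1.symm = z
      · have h3 : PC R p P C e = P e := by
          unfold PC
          rw [if_pos (key (Or.inr h2))]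
        rw [h3]
      · rw [if_neg h1, if_neg h2, if_neg h1, if_neg h2]
  · have key : ∀ e : Up G, R.face e.1 = z ∨ R.face e.1.symm = z → e ∉ crE R p C := by
      intro e h1 h2
      apply h
      rcases h1 with h1 | h1
      · refine mem_filter.2 ⟨mem_image.2 ⟨e.1, hmem _ ⟨e, h2, Or.inl rfl⟩, ?_⟩, hz⟩
        rw [h1]
        exact qr_none hz
      · refine mem_filter.2 ⟨mem_image.2 ⟨e.1.symm, hmem _ ⟨e, h2, Or.inr rfl⟩, ?_⟩, hz⟩
        rw [h1]
        exact qr_none hz
    unfold WC MP974d84.D
    refine sum_eq_zero fun e _ => ?_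
    by_cases h1 : R.face e.1 = z
    · have h3 : PC R p P C e = 0 := by
        unfold PC
        rw [if_neg (key e (Or.inl h1))]
      rw [h3]
      simp
    · by_cases h2 : R.face e.1.symm = z
      · have h3 : PC R p P C e = 0 := by
          unfold PC
          rw [if_neg (key e (Or.inr h2))]
        rw [h3]
        simp
      · rw [if_neg h1, if_neg h2, sub_zero]

omit hnb in
/-- A sum over a union of classes, for a function which vanishes at the uncovered faces. -/
theorem sum_classes (w : R.Face → ℤ) (hw : ∀ z, p z = none → w z = 0) {A : Finset R.Face}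
    (hA : IsUn p A) :
    ∑ f ∈ A, w f = ∑ c ∈ univ.filter (fun c => p c = some c),
      if c ∈ A then ∑ f ∈ univ.filter (fun f => p f = some c), w f else 0 := by
  classical
  have h1 : ∑ f ∈ A, w f = ∑ f ∈ A.filter (fun f => p f ≠ none), w f := by
    symm
    refine sum_subset (filter_subset _ _) fun f hf hf' => hw f ?_
    by_contra h
    exact hf' (mem_filter.2 ⟨hf, h⟩)
  rw [h1, ← sum_fiberwise_of_maps_to (s := A.filter (fun f => p f ≠ none))
    (t := univ.filter (fun c => p c = some c)) (g := qr p) (fun f hf => by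
      obtain ⟨c, hc⟩ := Option.ne_none_iff_exists'.1 (mem_filter.1 hf).2
      rw [mem_filter, qr_some hc]
      exact ⟨mem_univ _, (hp.2 _ _ hc).2⟩)]
  refine sum_congr rfl fun c hc => ?_
  have hcc : p c = some c := (mem_filter.1 hc).2
  by_cases h : c ∈ A
  · rw [if_pos h]
    refine sum_congr ?_ fun _ _ => rfl
    ext f
    simp only [mem_filter, mem_univ, true_and]
    constructor
    · rintro ⟨⟨-, h3⟩, h4⟩
      obtain ⟨c', hc'⟩ := Option.ne_none_iff_exists'.1 h3
      rw [qr_some hc'] at h4
      rw [hc', h4]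
    · intro h2
      exact ⟨⟨(hA f c (h2.trans hcc.symm) (by rw [h2]; simp)).2 h, by rw [h2]; simp⟩, qr_some h2⟩
  · rw [if_neg h]
    refine sum_eq_zero fun f hf => ?_
    exfalso
    obtain ⟨h2, h3⟩ := mem_filter.1 hf
    obtain ⟨h4, h5⟩ := mem_filter.1 h2
    obtain ⟨c', hc'⟩ := Option.ne_none_iff_exists'.1 h5
    rw [qr_some hc'] at h3
    rw [h3] at hc'
    exact h ((hA f c (hc'.trans hcc.symm) h5).1 h4)

omit hnb in
theorem isUn_class (c : R.Face) : IsUn p (univ.filter (fun f => p f = some c)) := by
  intro u v h _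
  rw [mem_filter, mem_filter, h]
  simp

/-- The number of classes with a crossing edge in their boundary. -/
theorem sum_cut_class {e : Up G} (he : Cr R (qr p) e.1) :
    (∑ c ∈ univ.filter (fun c => p c = some c),
      if e ∈ cut (fun e : Up G => R.face e.1) (fun e : Up G => R.face e.1.symm)
        (univ.filter (fun f => p f = some c)) then (1 : ℝ) else 0) =
      cc p (R.face e.1) (R.face e.1.symm) := by
  classical
  rw [cc_of_cr R he]
  have hne : ∀ c, ¬ (p (R.face e.1) = some c ∧ p (R.face e.1.symm) = some c) := by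
    rintro c ⟨h1, h2⟩
    exact he (by rw [qr_some h1, qr_some h2])
  have h1 : ∀ c, (if e ∈ cut (fun e : Up G => R.face e.1) (fun e : Up G => R.face e.1.symm)
        (univ.filter (fun f => p f = some c)) then (1 : ℝ) else 0) =
      (if p (R.face e.1) = some c then 1 else 0) +
        (if p (R.face e.1.symm) = some c then 1 else 0) := by
    intro c
    have h2 := hne c
    have h2' : e ∈ cut (fun e : Up G => R.face e.1) (fun e : Up G => R.face e.1.symm)
        (univ.filter (fun f => p f = some c)) ↔
        ¬ (p (R.face e.1) = some c ↔ p (R.face e.1.symm) = some c) := by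
      rw [mem_ct, mem_filter, mem_filter]
      simp
    by_cases h3 : p (R.face e.1) = some c <;> by_cases h4 : p (R.face e.1.symm) = some c
    · exact absurd ⟨h3, h4⟩ h2
    · rw [if_pos (h2'.2 fun h => h4 (h.1 h3)), if_pos h3, if_neg h4, add_zero]
    · rw [if_pos (h2'.2 fun h => h3 (h.2 h4)), if_neg h3, if_pos h4, zero_add]
    · rw [if_neg (fun h => h2'.1 h (iff_of_false h3 h4)), if_neg h3, if_neg h4, add_zero]
  have h5 : ∀ f, (∑ c ∈ univ.filter (fun c => p c = some c),
      if p f = some c then (1 : ℝ) else 0) = if p f ≠ none then 1 else 0 := by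
    intro f
    cases h6 : p f with
    | none => simp
    | some c =>
      rw [sum_eq_single_of_mem c (mem_filter.2 ⟨mem_univ _, (hp.2 _ _ h6).2⟩) (by
        intro b _ hb
        rw [if_neg]
        intro h7
        exact hb (Option.some_injective _ h7).symm)]
      simp
  rw [sum_congr rfl fun c _ => h1 c, sum_add_distrib, h5, h5]

/-- Both darts of a crossing edge of the component are crossing darts of the component. -/
theorem mem_crD_of_crE {C : Finset V} (hC : IsComp R (qr p) C) {e : Up G}
    (he : e ∈ crE R p C) : e.1 ∈ crD R (qr p) C ∧ e.1.symm ∈ crD R (qr p) C :=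
  ⟨mem_filter.2 ⟨mem_univ _, mem_crE.1 he⟩, mem_filter.2 ⟨mem_univ _, (mem_crE.1 he).1.symm,
    (hC.closed' (mem_crE.1 he).1).1 (mem_crE.1 he).2⟩⟩

theorem mem_crE_of_crD {C : Finset V} (hC : IsComp R (qr p) C) {e : Up G}
    (he : e.1 ∈ crD R (qr p) C ∨ e.1.symm ∈ crD R (qr p) C) : e ∈ crE R p C := by
  rcases he with he | he
  · exact mem_crE.2 (mem_filter.1 he).2
  · have h := (mem_filter.1 he).2
    exact mem_crE.2 ⟨h.1.of_symm, (hC.closed' h.1.of_symm).2 h.2⟩

theorem mem_covT {C : Finset V} (hC : IsComp R (qr p) C) (c : R.Face) :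
    c ∈ covT R p C ↔ ∃ e ∈ crE R p C, p (R.face e.1) = some c ∨ p (R.face e.1.symm) = some c := by
  unfold covT crT
  rw [mem_filter, mem_image]
  constructor
  · rintro ⟨⟨d, hd, hdc⟩, hc⟩
    have hdc' : qr p (R.face d) = c := hdc
    have h1 : p (R.face d) = some c := by
      cases h2 : p (R.face d) with
      | none =>
        rw [qr_none h2] at hdc'
        rw [← hdc', h2] at hc
        exact absurd rfl hc
      | some c' =>
        rw [qr_some h2] at hdc'
        rw [hdc']
    rcases up_or d with h | h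
    · exact ⟨⟨d, h⟩, mem_crE.2 (mem_filter.1 hd).2, Or.inl h1⟩
    · refine ⟨⟨d.symm, h⟩, mem_crE_of_crD R hp hnb hC (Or.inr ?_), Or.inr ?_⟩
      · simpa using hd
      · simpa using h1
  · rintro ⟨e, he, h | h⟩
    · exact ⟨⟨e.1, (mem_crD_of_crE R hp hnb hC he).1, qr_some h⟩, by rw [(hp.2 _ _ h).2]; simp⟩
    · exact ⟨⟨e.1.symm, (mem_crD_of_crE R hp hnb hC he).2, qr_some h⟩, by
        rw [(hp.2 _ _ h).2]
        simp⟩

/-- **(E1)** The weight of a component of the crossing edges of a minimal family. -/
theorem comp_bound (om : Up G → ℝ) (hom : ∀ e, 0 ≤ om e)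
    (hmin : ∀ q, Adm K q →
      phi (fun e : Up G => R.face e.1) (fun e : Up G => R.face e.1.symm) om K p ≤
      phi (fun e : Up G => R.face e.1) (fun e : Up G => R.face e.1.symm) om K q)
    {C : Finset V} (hC : IsComp R (qr p) C) (hne : (covT R p C).Nonempty) :
    (∑ e ∈ crE R p C, om e * cc p (R.face e.1) (R.face e.1.symm)) ≤
      2 * (((covT R p C).card : ℝ) - 1) := by
  refine drop_bound (fun e : Up G => R.face e.1) (fun e : Up G => R.face e.1.symm) om hom K p hp
    hmin (crE R p C) ?_ (covT R p C) (mem_covT R hp hnb hC) hne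
  intro e he e' he' z hz h1 h2
  have hzC : z ∈ uncT R p C := by
    unfold uncT crT
    rw [mem_filter, mem_image]
    rcases h1 with h1 | h1
    · exact ⟨⟨e.1, (mem_crD_of_crE R hp hnb hC he).1, by
        have : R.face e.1 = z := h1
        rw [this, qr_none hz]⟩, hz⟩
    · exact ⟨⟨e.1.symm, (mem_crD_of_crE R hp hnb hC he).2, by
        have : R.face e.1.symm = z := h1
        rw [this, qr_none hz]⟩, hz⟩
  apply he'
  rcases h2 with h2 | h2
  · exact mem_crE_of_crD R hp hnb hC (Or.inl (mem_crD_of_unc R hp hnb C hC hzC h2))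
  · exact mem_crE_of_crD R hp hnb hC (Or.inr (mem_crD_of_unc R hp hnb C hC hzC h2))

/-- (E1) as a sum over all edges. -/
theorem comp_bound' (om : Up G → ℝ) (hom : ∀ e, 0 ≤ om e)
    (hmin : ∀ q, Adm K q →
      phi (fun e : Up G => R.face e.1) (fun e : Up G => R.face e.1.symm) om K p ≤
      phi (fun e : Up G => R.face e.1) (fun e : Up G => R.face e.1.symm) om K q)
    {C : Finset V} (hC : IsComp R (qr p) C) (hne : (covT R p C).Nonempty) :
    (∑ e : Up G, if Cr R (qr p) e.1 ∧ e.1.fst ∈ C then
      om e * cc p (R.face e.1) (R.face e.1.symm) else 0) ≤ 2 * (((covT R p C).card : ℝ) - 1) := by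
  classical
  refine le_trans (le_of_eq ?_) (comp_bound R hp hnb om hom hmin hC hne)
  unfold crE
  rw [sum_filter]

/-- The charges on a component are at most a third of the covered length. -/
theorem abs_WC_le_cov (y : V → ℝ) (P : Up G → ℤ) (lam : Up G → ℝ) (hlam : ∀ e, 0 ≤ lam e)
    {C : Finset V} (hC : IsComp R (qr p) C)
    (hy : ∀ e : Up G, Cr R (qr p) e.1 → |y e.1.snd - y e.1.fst - P e| ≤ lam e / 3)
    (hP : ∀ z, p z = none →
      MP974d84.D (fun e : Up G => R.face e.1) (fun e : Up G => R.face e.1.symm) P z = 0)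
    {A : Finset R.Face} (hA : IsUn p A) :
    |((∑ f ∈ A, WC R p P C f : ℤ) : ℝ)| ≤
      (∑ e ∈ crE R p C, lam e * cc p (R.face e.1) (R.face e.1.symm)) / 3 := by
  classical
  set s : Up G → R.Face := fun e => R.face e.1 with hs
  set t : Up G → R.Face := fun e => R.face e.1.symm with ht
  rw [sum_classes R hp (WC R p P C) (fun z hz => WC_unc R hp hnb P hC hP hz) hA, Int.cast_sum]
  refine (abs_sum_le_sum_abs _ _).trans ?_
  have h1 : ∀ c ∈ univ.filter (fun c => p c = some c),
      |(((if c ∈ A then ∑ f ∈ univ.filter (fun f => p f = some c), WC R p P C f else 0 : ℤ)) :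
        ℝ)| ≤ ∑ e ∈ crE R p C, lam e / 3 *
          (if e ∈ cut s t (univ.filter (fun f => p f = some c)) then (1 : ℝ) else 0) := by
    intro c _
    by_cases hc : c ∈ A
    · rw [if_pos hc]
      refine (abs_WC_le R hp hnb y P hC (isUn_class R hp c)).trans ?_
      rw [← sum_filter, ← hs, ← ht]
      have e1 : (∑ e ∈ crE R p C, lam e / 3 *
          (if e ∈ cut s t (univ.filter (fun f => p f = some c)) then (1 : ℝ) else 0)) =
          ∑ e ∈ (crE R p C).filter (fun e => e ∈ cut s t (univ.filter (fun f => p f = some c))),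
            lam e / 3 := by
        rw [sum_filter]
        refine sum_congr rfl fun e _ => ?_
        by_cases h : e ∈ cut s t (univ.filter (fun f => p f = some c))
        · rw [if_pos h, if_pos h, mul_one]
        · rw [if_neg h, if_neg h, mul_zero]
      rw [e1]
      have e2 : (cut s t (univ.filter (fun f => p f = some c))).filter
          (fun e => e ∈ crE R p C) = (crE R p C).filter
          (fun e => e ∈ cut s t (univ.filter (fun f => p f = some c))) := by
        ext e
        rw [mem_filter, mem_filter, and_comm]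
      rw [e2]
      exact sum_le_sum fun e he => hy e (mem_crE.1 (mem_filter.1 he).1).1
    · rw [if_neg hc, Int.cast_zero, abs_zero]
      refine sum_nonneg fun e _ => mul_nonneg (div_nonneg (hlam e) (by norm_num)) ?_
      split_ifs <;> norm_num
  refine (sum_le_sum h1).trans ?_
  rw [sum_comm, sum_div]
  refine sum_le_sum fun e he => ?_
  rw [← mul_sum, sum_cut_class R hp hnb (mem_crE.1 he).1]
  exact le_of_eq (by ring)

end

end Pool.Agent.Uni97
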