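import Mathlib
import Pool.Agent.Work.MP_392c8e_co_uni.Level

/-!
# The level of the charges of a potential on the unions of classes, II

The charges are the sum of their parts on the components; the bound for every component gives the
bound for all unions of classes.
-/

namespace Pool.Agent.Uni97

open Finset Pool.Agent.Sub392 Pool.Agent.Circ Pool.Agent.Uni3

set_option linter.unusedSectionVars false

variable {V : Type} [Fintype V] [DecidableEq V] {G : SimpleGraph V} [DecidableRel G.Adj]

/-- Only the edges of the cut matter. -/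
theorem sum_D_cut {F E : Type*} [Fintype F] [DecidableEq F] [Fintype E] [DecidableEq E]
    (s t : E → F) (f : E → ℤ) (A : Finset F) :
    ∑ a ∈ A, MP974d84.D s t f a = ∑ e ∈ cut s t A, MP974d84.ov s t f A e := by
  rw [MP974d84.D_cut]
  symm
  refine sum_subset (subset_univ _) fun e _ he => ?_
  rw [mem_ct, not_not] at he
  unfold MP974d84.ov
  by_cases h3 : s e ∈ A
  · rw [if_pos h3, if_pos (he.1 h3), sub_self]
  · rw [if_neg h3, if_neg (fun h4 => h3 (he.2 h4)), sub_self]

theorem ov_two {F E : Type*} [Fintype F] [DecidableEq F] [Fintype E] [DecidableEq E]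
    {s t : E → F} {f b : E → ℤ} {A : Finset F} {e : E} (he : e ∈ cut s t A)
    (h : (2 : ℤ) ∣ f e - b e) : (2 : ℤ) ∣ MP974d84.ov s t f A e - b e := by
  rw [mem_ct] at he
  unfold MP974d84.ov
  by_cases h3 : s e ∈ A <;> by_cases h4 : t e ∈ A
  · exact absurd (iff_of_true h3 h4) he
  · rw [if_pos h3, if_neg h4, sub_zero]
    exact h
  · rw [if_neg h3, if_pos h4]
    omega
  · exact absurd (iff_of_false h3 h4) he

section

variable (R : Rot G) {K : Finset R.Face} {p : R.Face → Option R.Face} (hp : Adm K p)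
  (hnb : ∀ d, p (R.face d) = none → R.face d.symm ≠ R.face d)

/-- The edges of the cut on the component. -/
noncomputable def cutC (R : Rot G) (p : R.Face → Option R.Face) (A : Finset R.Face)
    (C : Finset V) : Finset (Up G) := by
  classical
  exact (cut (fun e : Up G => R.face e.1) (fun e : Up G => R.face e.1.symm) A).filter
    (fun e => e ∈ crE R p C)

theorem mem_cutC {R : Rot G} {p : R.Face → Option R.Face} {A : Finset R.Face} {C : Finset V}
    {e : Up G} : e ∈ cutC R p A C ↔
      e ∈ cut (fun e : Up G => R.face e.1) (fun e : Up G => R.face e.1.symm) A ∧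
        e ∈ crE R p C := by
  unfold cutC
  rw [mem_filter]

/-- Parity of the charges on a component. -/
theorem two_dvd_WC (P b : Up G → ℤ) (hb : ∀ e, (2 : ℤ) ∣ P e - b e) (C : Finset V)
    (A : Finset R.Face) :
    (2 : ℤ) ∣ ∑ f ∈ A, WC R p P C f - ∑ e ∈ cutC R p A C, b e := by
  classical
  unfold WC
  rw [sum_D_cut]
  have e1 : ∑ e ∈ cutC R p A C, b e =
      ∑ e ∈ cut (fun e : Up G => R.face e.1) (fun e : Up G => R.face e.1.symm) A,
        if e ∈ crE R p C then b e else 0 := by
    unfold cutC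
    rw [sum_filter]
  rw [e1, ← sum_sub_distrib]
  refine dvd_sum fun e he => ?_
  refine ov_two (b := fun e => if e ∈ crE R p C then b e else 0) he ?_
  unfold PC
  by_cases h : e ∈ crE R p C
  · simp only [if_pos h]
    exact hb e
  · simp only [if_neg h, sub_self]
    exact dvd_zero _

include hp hnb

/-- **The level theorem.** -/
theorem level (y : V → ℝ) (P b : Up G → ℤ) (hb : ∀ e, (2 : ℤ) ∣ P e - b e)
    (lam lamH : Up G → ℝ) (hlam : ∀ e, 0 ≤ lam e)
    (hy : ∀ e : Up G, Cr R (qr p) e.1 → |y e.1.snd - y e.1.fst - P e| < lam e / 3)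
    (hP : ∀ z, p z = none →
      MP974d84.D (fun e : Up G => R.face e.1) (fun e : Up G => R.face e.1.symm) P z = 0)
    (hcomp : ∀ A, IsUn p A → ∀ C, IsComp R (qr p) C → (cutC R p A C).Nonempty → ∀ n : ℤ,
      3 * |(n : ℝ)| < ∑ e ∈ cutC R p A C, lam e →
      (2 : ℤ) ∣ n - ∑ e ∈ cutC R p A C, b e →
      |(n : ℝ)| ≤ (∑ e ∈ crE R p C, lam e * cc p (R.face e.1) (R.face e.1.symm)) / 3 →
      |(n : ℝ)| ≤ ∑ e ∈ cutC R p A C, lamH e)
    {A : Finset R.Face} (hA : IsUn p A) :
    |((∑ f ∈ A, MP974d84.D (fun e : Up G => R.face e.1) (fun e : Up G => R.face e.1.symm) P f :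
      ℤ) : ℝ)| ≤
      ∑ e ∈ cut (fun e : Up G => R.face e.1) (fun e : Up G => R.face e.1.symm) A, lamH e := by
  classical
  set s : Up G → R.Face := fun e => R.face e.1 with hs
  set t : Up G → R.Face := fun e => R.face e.1.symm with ht
  set Cs : Finset (Finset V) := univ.image (comp R (qr p)) with hCs
  have hcr : ∀ e ∈ cut s t A, Cr R (qr p) e.1 := fun e he => cr_of_cut R hp hnb hA he
  have huniq : ∀ e ∈ cut s t A, ∀ C ∈ Cs, (e ∈ crE R p C ↔ C = comp R (qr p) e.1.fst) := by
    intro e he C hC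
    obtain ⟨v, -, rfl⟩ := mem_image.1 hC
    rw [mem_crE]
    constructor
    · rintro ⟨-, h⟩
      exact (comp_eq h).symm
    · intro h
      rw [h]
      exact ⟨hcr e he, self_mem_comp⟩
  have hone : ∀ {X : Type} [AddCommMonoid X] (g : Up G → X), ∀ e ∈ cut s t A,
      ∑ C ∈ Cs, (if e ∈ crE R p C then g e else 0) = g e := by
    intro X _ g e he
    rw [sum_eq_single_of_mem (comp R (qr p) e.1.fst) (mem_image.2 ⟨_, mem_univ _, rfl⟩) (by
      intro C hC hne
      rw [if_neg fun h => hne ((huniq e he C hC).1 h)]),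
      if_pos ((huniq e he _ (mem_image.2 ⟨_, mem_univ _, rfl⟩)).2 rfl)]
  -- the sum over the components
  have hsum : ∑ f ∈ A, MP974d84.D s t P f = ∑ C ∈ Cs, ∑ f ∈ A, WC R p P C f := by
    have h1 : ∀ C, ∑ f ∈ A, WC R p P C f =
        ∑ e ∈ cut s t A, if e ∈ crE R p C then MP974d84.ov s t P A e else 0 := by
      intro C
      unfold WC
      rw [sum_D_cut]
      refine sum_congr rfl fun e _ => ?_
      unfold MP974d84.ov PC
      by_cases h : e ∈ crE R p C
      · rw [if_pos h, if_pos h]
      · rw [if_neg h, if_neg h]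
        simp
    rw [sum_D_cut, sum_congr rfl fun C _ => h1 C, sum_comm]
    exact sum_congr rfl fun e he => (hone (MP974d84.ov s t P A) e he).symm
  have hbd : ∀ C ∈ Cs, |((∑ f ∈ A, WC R p P C f : ℤ) : ℝ)| ≤
      ∑ e ∈ cut s t A, if e ∈ crE R p C then lamH e else 0 := by
    intro C hC
    have e1 : ∀ g : Up G → ℝ, (∑ e ∈ cut s t A, if e ∈ crE R p C then g e else 0) =
        ∑ e ∈ cutC R p A C, g e := by
      intro g
      unfold cutC
      rw [sum_filter]
    rw [e1]
    rcases (cutC R p A C).eq_empty_or_nonempty with h0 | h0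
    · rw [h0, sum_empty]
      have h1 : ∑ f ∈ A, WC R p P C f = 0 := by
        unfold WC
        rw [sum_D_cut]
        refine sum_eq_zero fun e he => ?_
        have h2 : e ∉ crE R p C := by
          intro h2
          have : e ∈ cutC R p A C := mem_cutC.2 ⟨he, h2⟩
          rw [h0] at this
          exact notMem_empty _ this
        unfold MP974d84.ov PC
        rw [if_neg h2]
        simp
      rw [h1]
      simp
    · obtain ⟨e0, he0⟩ := h0
      have h2 := (mem_cutC.1 he0).2
      have hIC : IsComp R (qr p) C := by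
        have h3 := (huniq e0 (mem_cutC.1 he0).1 C hC).1 h2
        rw [h3]
        exact isComp_comp R (qr p) ⟨e0.1, rfl, (mem_crE.1 h2).1⟩
      refine hcomp A hA C hIC ⟨e0, he0⟩ _ ?_ (two_dvd_WC R P b hb C A) ?_
      · have h4 := abs_WC_le R hp hnb y P hIC hA
        rw [← hs, ← ht, e1 (fun e => |y e.1.snd - y e.1.fst - P e|)] at h4
        have h5 : ∑ e ∈ cutC R p A C, |y e.1.snd - y e.1.fst - P e| <
            ∑ e ∈ cutC R p A C, lam e / 3 :=
          sum_lt_sum_of_nonempty ⟨e0, he0⟩ fun e he => hy e (mem_crE.1 (mem_cutC.1 he).2).1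
        rw [← sum_div] at h5
        linarith
      · exact abs_WC_le_cov R hp hnb y P lam hlam hIC (fun e he => (hy e he).le) hP hA
  rw [hsum, Int.cast_sum]
  refine (abs_sum_le_sum_abs _ _).trans ((sum_le_sum hbd).trans ?_)
  rw [sum_comm]
  exact le_of_eq (sum_congr rfl fun e he => hone lamH e he)

end

end Pool.Agent.Uni97
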