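import Mathlib
import Pool.Agent.Work.MP_392c8e_co_uni.LevelB
import Pool.Agent.Work.MP_392c8e_co_uni.CountVD
import Pool.Agent.Work.MP_392c8e_co_uni.Consts

/-!
# The virtual length of a cut is an integer

A union of classes cuts all the edges of a path of a virtual surgery or none of them, so the
weights with `θ = 1` and the parities have the same sum over the cut edges of a component.
-/

namespace Pool.Agent.Uni97

open Finset Pool.Agent.Sub392 Pool.Agent.Circ Pool.Agent.Uni3 Pool.Agent.Uni91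

set_option linter.unusedSectionVars false

theorem card_cs_eq {A : Type*} [Fintype A] [DecidableEq A] (L : List A) (a : A)
    (hn : (a :: L).Nodup) [DecidablePred fun q : A × A => Cs (a :: L) q.1 q.2] :
    (univ.filter (fun q : A × A => Cs (a :: L) q.1 q.2)).card = L.length := by
  classical
  induction L generalizing a with
  | nil =>
    rw [List.length_nil, card_eq_zero, filter_eq_empty_iff]
    intro q _ h
    exact not_cs_one h
  | cons b L ih =>
    have h1 : univ.filter (fun q : A × A => Cs (a :: b :: L) q.1 q.2) =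
        insert (a, b) (univ.filter (fun q : A × A => Cs (b :: L) q.1 q.2)) := by
      ext q
      rw [mem_insert, mem_filter, mem_filter]
      constructor
      · rintro ⟨-, h⟩
        rcases cs_cons.1 h with ⟨h, l, hl⟩ | h
        · left
          rw [List.cons.injEq] at hl
          exact Prod.ext h hl.1.symm
        · exact Or.inr ⟨mem_univ q, h⟩
      · rintro (rfl | ⟨-, h⟩)
        · exact ⟨mem_univ _, cs_cons.2 (Or.inl ⟨rfl, L, rfl⟩)⟩
        · exact ⟨mem_univ _, cs_cons.2 (Or.inr h)⟩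
    rw [h1, card_insert_of_notMem, ih b (List.nodup_cons.1 hn).2, List.length_cons]
    rw [mem_filter]
    rintro ⟨-, h⟩
    exact (List.nodup_cons.1 hn).1 h.mem.1

variable {V : Type} [Fintype V] [DecidableEq V] {G : SimpleGraph V} [DecidableRel G.Adj]
  {I : V → Prop} {P : List (V × List V × V)}

theorem cs_not_both {A : Type*} {L : List A} (hn : L.Nodup) {u v : A} (h1 : Cs L u v)
    (h2 : Cs L v u) : False := by
  induction L with
  | nil => exact not_cs_nil h1
  | cons a L ih =>
    rcases cs_cons.1 h1 with ⟨rfl, l, hl⟩ | h1'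
    · rcases cs_cons.1 h2 with ⟨rfl, l', hl'⟩ | h2'
      · rw [List.nodup_cons, hl'] at hn
        exact hn.1 (by simp)
      · exact (List.nodup_cons.1 hn).1 h2'.mem.2
    · rcases cs_cons.1 h2 with ⟨rfl, l', hl'⟩ | h2'
      · exact (List.nodup_cons.1 hn).1 h1'.mem.2
      · exact ih (List.nodup_cons.1 hn).2 h1' h2'

/-- The number of edges of a path. -/
theorem card_onP (hd : VD G I P) {q : V × List V × V} (hq : q ∈ P)
    [DecidablePred fun e : Up G => OnP q e.1.fst e.1.snd] :
    (univ.filter (fun e : Up G => OnP q e.1.fst e.1.snd)).card = q.2.1.length + 1 := by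
  classical
  obtain ⟨hc, hn⟩ := hd.chain q hq
  have h1 : ((univ.filter (fun e : Up G => OnP q e.1.fst e.1.snd)).card) =
      ∑ d : G.Dart, if Cs (full q) d.fst d.snd then 1 else 0 := by
    rw [sum_dart, card_filter]
    refine sum_congr rfl fun e _ => ?_
    have e1 : (e.1.symm).snd = e.1.fst := rfl
    have e2 : (e.1.symm).fst = e.1.snd := rfl
    rw [e1, e2]
    unfold OnP
    by_cases h3 : Cs (full q) e.1.fst e.1.snd
    · rw [if_pos (Or.inl h3), if_pos h3, if_neg fun h4 => cs_not_both hn h3 h4]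
    · by_cases h4 : Cs (full q) e.1.snd e.1.fst
      · rw [if_pos (Or.inr h4), if_neg h3, if_pos h4]
      · rw [if_neg, if_neg h3, if_neg h4]
        tauto
  have h2 : (∑ d : G.Dart, if Cs (full q) d.fst d.snd then 1 else 0) =
      (univ.filter (fun x : V × V => Cs (full q) x.1 x.2)).card := by
    rw [← card_filter]
    refine card_bij (fun d _ => (d.fst, d.snd)) ?_ ?_ ?_
    · intro d hd'
      exact mem_filter.2 ⟨mem_univ _, (mem_filter.1 hd').2⟩
    · intro d _ d' _ h
      exact SimpleGraph.Dart.ext _ _ h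
    · intro x hx
      have hx' := (mem_filter.1 hx).2
      have hadj : G.Adj x.1 x.2 := by
        obtain ⟨l₁, l₂, hl⟩ := hx'
        have hc' : List.IsChain G.Adj (l₁ ++ x.1 :: x.2 :: l₂) := by
          rw [← hl]
          exact hc
        exact (List.isChain_cons_cons.1 (List.isChain_append.1 hc').2.1).1
      exact ⟨⟨x, hadj⟩, mem_filter.2 ⟨mem_univ _, hx'⟩, rfl⟩
  rw [h1, h2]
  unfold full
  rw [card_cs_eq _ _ hn]
  simp

/-- The first edge of a path. -/
theorem card_isFst (hd : VD G I P) {q : V × List V × V} (hq : q ∈ P)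
    [DecidablePred fun e : Up G => IsFst q e.1.fst e.1.snd] :
    (univ.filter (fun e : Up G => IsFst q e.1.fst e.1.snd)).card = 1 := by
  classical
  obtain ⟨hc, hn⟩ := hd.chain q hq
  obtain ⟨z, l, hl⟩ : ∃ z l, q.2.1 ++ [q.2.2] = z :: l := by
    cases h1 : q.2.1 with
    | nil => exact ⟨q.2.2, [], rfl⟩
    | cons z l => exact ⟨z, l ++ [q.2.2], rfl⟩
  have hadj : G.Adj q.1 z := by
    unfold full at hc
    rw [hl] at hc
    exact (List.isChain_cons_cons.1 hc).1
  have hz : ∀ v, (∃ l, q.2.1 ++ [q.2.2] = v :: l) ↔ v = z := by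
    intro v
    rw [hl]
    constructor
    · rintro ⟨l', h⟩
      exact (List.cons.inj h).1.symm
    · rintro rfl
      exact ⟨l, rfl⟩
  rw [card_eq_one]
  rcases up_or ⟨(q.1, z), hadj⟩ with h | h
  · refine ⟨⟨⟨(q.1, z), hadj⟩, h⟩, ?_⟩
    ext e
    rw [mem_filter, mem_singleton]
    unfold IsFst
    rw [hz, hz]
    constructor
    · rintro ⟨-, ⟨h1, h2⟩ | ⟨h1, h2⟩⟩
      · exact Subtype.ext (SimpleGraph.Dart.ext _ _ (Prod.ext h1 h2))
      · exfalso
        have h3 := e.2
        rw [h1, h2] at h3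
        have h4 : (Fintype.equivFin V q.1 : ℕ) < Fintype.equivFin V z := h
        omega
    · rintro rfl
      exact ⟨mem_univ _, Or.inl ⟨rfl, rfl⟩⟩
  · refine ⟨⟨(⟨(q.1, z), hadj⟩ : G.Dart).symm, h⟩, ?_⟩
    ext e
    rw [mem_filter, mem_singleton]
    unfold IsFst
    rw [hz, hz]
    constructor
    · rintro ⟨-, ⟨h1, h2⟩ | ⟨h1, h2⟩⟩
      · exfalso
        have h3 := e.2
        rw [h1, h2] at h3
        have h4 : (Fintype.equivFin V z : ℕ) < Fintype.equivFin V q.1 := h
        omega
      · exact Subtype.ext (SimpleGraph.Dart.ext _ _ (Prod.ext h2 h1))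
    · rintro rfl
      exact ⟨mem_univ _, Or.inr ⟨rfl, rfl⟩⟩

/-- **The virtual length of a cut.** -/
theorem len_eq (hd : VD G I P) (R : Rot G) {K : Finset R.Face} {p : R.Face → Option R.Face}
    (hp : Adm K p) (hnb : ∀ d, p (R.face d) = none → R.face d.symm ≠ R.face d) {C : Finset V}
    (hC : IsComp R (qr p) C) (hdel : ∀ d : G.Dart, Cr R (qr p) d → ¬ DelD I P d)
    {A : Finset R.Face} (hA : IsUn p A) (M : ℝ) :
    ∑ e ∈ cutC R p A C, omV I P 1 M e.1.fst e.1.snd =
      ((∑ e ∈ cutC R p A C, parV I P e.1.fst e.1.snd : ℤ) : ℝ) := by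
  classical
  set κ : R.Face → Bool := fun f => decide (f ∈ A) with hκ
  have hκcr : ∀ d : G.Dart, Cr R κ d ↔ ¬ (R.face d ∈ A ↔ R.face d.symm ∈ A) := by
    intro d
    unfold Cr
    simp only [hκ, ne_eq, decide_eq_decide]
  have hcr : ∀ d : G.Dart, Cr R κ d → Cr R (qr p) d := by
    intro d h
    by_contra h'
    obtain ⟨h1, h2⟩ := cc_of_not_cr R hnb hp h'
    exact (hκcr d).1 h (hA _ _ h1 h2)
  have hmem : ∀ e : Up G, e ∈ cutC R p A C ↔ CC R κ C e.1.fst e.1.snd := by
    intro e
    rw [mem_cutC, mem_ct, mem_crE]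
    constructor
    · rintro ⟨h1, h2, h3⟩
      exact ⟨h3, e.1.adj, (hκcr _).2 h1⟩
    · rintro ⟨h1, h2, h3⟩
      have h4 : Cr R κ e.1 := h3
      exact ⟨(hκcr _).1 h4, hcr _ h4, h1⟩
  have hsymm : ∀ {u v}, CC R κ C u v → CC R κ C v u := by
    rintro u v ⟨h1, h2, h3⟩
    exact ⟨hC.closed _ (hcr _ h3) h1, h2.symm, h3.symm⟩
  have hdel' : ∀ d : G.Dart, Cr R κ d → ¬ DelD I P d := fun d h => hdel d (hcr d h)
  -- all or none
  have hall : ∀ q ∈ P, (∀ e : Up G, OnP q e.1.fst e.1.snd → e ∈ cutC R p A C) ∨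
      ∀ e : Up G, OnP q e.1.fst e.1.snd → e ∉ cutC R p A C := by
    intro q hq
    obtain ⟨hc, hn⟩ := hd.chain q hq
    have hT : ∀ u x v, Trip (full q) u x v → (CC R κ C u x ↔ CC R κ C x v) := by
      intro u x v ht
      have hx : x ∈ q.2.1 := by
        have h1 : x ∈ q.2.1 ++ [q.2.2] := cs_tail ht.fst
        have h2 : x ∈ q.1 :: q.2.1 := cs_init (b := q.2.2) (by
          have : full q = (q.1 :: q.2.1) ++ [q.2.2] := rfl
          rw [← this]
          exact ht.snd)
        rcases List.mem_cons.1 h2 with h3 | h3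
        · exfalso
          have h4 : q.1 ∉ q.2.1 ++ [q.2.2] := by
            unfold full at hn
            exact (List.nodup_cons.1 hn).1
          rw [h3] at h1
          exact h4 h1
        · exact h3
      have h5 : ∀ y, OnP q x y → y = u ∨ y = v := fun y hy => trip_nbr hn ht hy
      exact ⟨fun h => (step_cc hd R κ C hdel' hq hx h5 (hsymm h)).1,
        fun h => hsymm (step_cc hd R κ C hdel' hq hx (fun y hy => (h5 y hy).symm) h).1⟩
    obtain ⟨z, l, hl⟩ : ∃ z l, q.2.1 ++ [q.2.2] = z :: l := by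
      cases h1 : q.2.1 with
      | nil => exact ⟨q.2.2, [], rfl⟩
      | cons z l => exact ⟨z, l ++ [q.2.2], rfl⟩
    have hfull : full q = q.1 :: z :: l := by
      unfold full
      rw [hl]
    have hcs : ∀ u v, Cs (full q) u v → (CC R κ C u v ↔ CC R κ C q.1 z) := by
      rw [hfull]
      refine cs_all l q.1 z fun u x v ht => ?_
      exact hT u x v (by rw [hfull]; exact ht)
    have hon : ∀ u v, OnP q u v → (CC R κ C u v ↔ CC R κ C q.1 z) := by
      rintro u v (h | h)
      · exact hcs u v h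
      · exact ⟨fun h' => (hcs v u h).1 (hsymm h'), fun h' => hsymm ((hcs v u h).2 h')⟩
    by_cases h1 : CC R κ C q.1 z
    · exact Or.inl fun e he => (hmem e).2 ((hon _ _ he).2 h1)
    · exact Or.inr fun e he h => h1 ((hon _ _ he).1 ((hmem e).1 h))
  -- the sums
  rw [Int.cast_sum, ← sub_eq_zero, ← sum_sub_distrib]
  have h1 : ∀ e ∈ cutC R p A C, omV I P 1 M e.1.fst e.1.snd -
      ((parV I P e.1.fst e.1.snd : ℤ) : ℝ) = ∑ q ∈ P.toFinset,
      if OnP q e.1.fst e.1.snd then (1 : ℝ) / (q.2.1.length + 1) -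
        (if IsFst q e.1.fst e.1.snd then 1 else 0) else 0 := by
    intro e he
    by_cases hex : ∃ q ∈ P, OnP q e.1.fst e.1.snd
    · obtain ⟨q, hq, hon⟩ := hex
      rw [sum_eq_single_of_mem q (List.mem_toFinset.2 hq) (by
        intro q' hq' hne
        rw [if_neg]
        intro h
        exact hne (hd.unique (List.mem_toFinset.1 hq') hq h hon)), if_pos hon,
        hd.omV_path hq hon]
      congr 1
      unfold parV
      rw [if_pos ⟨q, hq, hon⟩]
      by_cases hf : IsFst q e.1.fst e.1.snd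
      · rw [if_pos ⟨q, hq, hf⟩, if_pos hf]
        simp
      · rw [if_neg, if_neg hf]
        · simp
        · rintro ⟨q', hq', hf'⟩
          have := hd.unique hq' hq (isFst_onP hf') hon
          rw [this] at hf'
          exact hf hf'
    · have h2 : ¬ (I e.1.fst ∨ I e.1.snd) := by
        intro h2
        refine hdel e.1 (mem_crE.1 (mem_cutC.1 he).2).1 ⟨h2, fun q hq hon => hex ⟨q, hq, hon⟩⟩
      push Not at h2
      rw [omV_kept hd h2.1 h2.2, parV_kept hd h2.1 h2.2, sum_eq_zero]
      · simp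
      · intro q hq
        rw [if_neg]
        intro hon
        exact hex ⟨q, List.mem_toFinset.1 hq, hon⟩
  rw [sum_congr rfl h1, sum_comm]
  refine sum_eq_zero fun q hq => ?_
  have hq' := List.mem_toFinset.1 hq
  rw [← sum_filter]
  rcases hall q hq' with h2 | h2
  · have e1 : (cutC R p A C).filter (fun e => OnP q e.1.fst e.1.snd) =
        univ.filter (fun e : Up G => OnP q e.1.fst e.1.snd) := by
      ext e
      simp only [mem_filter, mem_univ, true_and]
      exact ⟨fun h => h.2, fun h => ⟨h2 e h, h⟩⟩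
    rw [e1, sum_sub_distrib, sum_const, card_onP hd hq', nsmul_eq_mul]
    have e2 : (∑ e ∈ univ.filter (fun e : Up G => OnP q e.1.fst e.1.snd),
        if IsFst q e.1.fst e.1.snd then (1 : ℝ) else 0) = 1 := by
      rw [← sum_filter, filter_filter, sum_const, nsmul_eq_mul, mul_one]
      have e3 : (univ.filter fun e : Up G => OnP q e.1.fst e.1.snd ∧ IsFst q e.1.fst e.1.snd) =
          univ.filter (fun e : Up G => IsFst q e.1.fst e.1.snd) := by
        ext e
        simp only [mem_filter, mem_univ, true_and]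
        exact ⟨fun h => h.2, fun h => ⟨isFst_onP h, h⟩⟩
      rw [e3, card_isFst hd hq']
      simp
    rw [e2]
    have : (0 : ℝ) < (q.2.1.length : ℝ) + 1 := by positivity
    push_cast
    field_simp
    ring
  · rw [filter_false_of_mem fun e he h => h2 e h he, sum_empty]

/-- **The level theorem for a virtual surgery.** -/
theorem level_VD (hd : VD G I P) (R : Rot G) {K : Finset R.Face} {p : R.Face → Option R.Face}
    (hp : Adm K p) (hnb : ∀ d, p (R.face d) = none → R.face d.symm ≠ R.face d)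
    (hdel : ∀ d : G.Dart, Cr R (qr p) d → ¬ DelD I P d)
    (y : V → ℝ) (q : Up G → ℤ) (hq : ∀ e : Up G, (2 : ℤ) ∣ q e - parV I P e.1.fst e.1.snd)
    {M : ℝ} (hM : 0 ≤ M)
    (hy : ∀ e : Up G, Cr R (qr p) e.1 →
      |y e.1.snd - y e.1.fst - q e| < omV I P 1 M e.1.fst e.1.snd / 3)
    (hP : ∀ z, p z = none →
      MP974d84.D (fun e : Up G => R.face e.1) (fun e : Up G => R.face e.1.symm) q z = 0)
    (lamH : Up G → ℝ) {e W : ℝ} (he : 0 ≤ e) (he3 : e ≤ 1 / 3) (heW : e * (3 * W + 2) ≤ 1 / 4)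
    (hW : ∀ C, IsComp R (qr p) C → ∑ x ∈ crE R p C, omV I P 1 M x.1.fst x.1.snd *
      cc p (R.face x.1) (R.face x.1.symm) ≤ 3 * W)
    (hloss : ∀ A, IsUn p A → ∀ C, IsComp R (qr p) C → (cutC R p A C).Nonempty →
      (1 / 3 - e) * ∑ x ∈ cutC R p A C, omV I P 1 M x.1.fst x.1.snd ≤
        ∑ x ∈ cutC R p A C, lamH x + 1 / 6)
    {A : Finset R.Face} (hA : IsUn p A) :
    |((∑ f ∈ A, MP974d84.D (fun e : Up G => R.face e.1) (fun e : Up G => R.face e.1.symm) q f :
      ℤ) : ℝ)| ≤
      ∑ e ∈ cut (fun e : Up G => R.face e.1) (fun e : Up G => R.face e.1.symm) A, lamH e := by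
  refine level R hp hnb y q (fun x => parV I P x.1.fst x.1.snd) hq
    (fun x => omV I P 1 M x.1.fst x.1.snd) lamH
    (fun x => omV_nonneg zero_le_one hM _ _) hy hP (fun A hA C hC hne n h1 h2 h3 => ?_) hA
  have h4 := len_eq hd R hp hnb hC hdel hA M
  have h5 := hloss A hA C hC hne
  have h6 := hW C hC
  rw [h4] at h1 h5
  have h7 : 3 * |n| < ∑ x ∈ cutC R p A C, parV I P x.1.fst x.1.snd := by exact_mod_cast h1
  have h8 := Uni13.gap_two h7 h2
  have h9 : 3 * |(n : ℝ)| + 2 ≤ ((∑ x ∈ cutC R p A C, parV I P x.1.fst x.1.snd : ℤ) : ℝ) := by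
    exact_mod_cast h8
  have h10 := Uni13.cut_bound (e := e) (W := W) (l := 1 / 6) he he3 heW (n := n)
    (h3.trans (by linarith)) h9 le_rfl
  linarith

end Pool.Agent.Uni97
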