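import Mathlib
import Pool.Agent.Work.MP_392c8e_co_uni.GrowthLoc
import Pool.Agent.Work.MP_392c8e_co_uni.L7Comp
import Pool.Agent.Work.MP_392c8e_co_uni.MidV

/-!
# The input of the middle of the construction

A virtual surgery together with its patterns: isolated faces of length five with two consecutive
hexagons away from the surgery, and hexagons which the surgery turns into faces of length four.
-/

set_option autoImplicit false
set_option linter.unusedSectionVars false

namespace Pool.Agent.Uni392

open Finset Pool.Agent.Sub392 Pool.Agent.T392 Pool.Agent.Disch392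
open Pool.Agent.Uni3 (Cr IsComp crT crTwo qr L7 plV fs ft eu eu_or eu_up eu_symm)
open Pool.Agent.Uni91 (VD ends lf rf wV bV omV parV OnP IsFst full Cs)
open Pool.Agent.T1Red (newG Deg3)

variable {V : Type} [Fintype V] [DecidableEq V] {G : SimpleGraph V} [DecidableRel G.Adj]

/-- A hexagon outside the interiors. -/
def Hex0 (R : Rot G) (I : V → Prop) (f : R.Face) : Prop :=
  ∃ d, R.face d = f ∧ sz R d = 6 ∧ ∀ x, R.face x = f → ¬ I x.fst

/-- The faces which may be covered: all faces but the hexagons outside the interiors and the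
hexagons `z j`, which become faces of length four. -/
noncomputable def KF (R : Rot G) (I : V → Prop) {J : Type} (z : J → G.Dart) : Finset R.Face := by
  classical
  exact univ.filter fun f => ¬ (Hex0 R I f ∨ ∃ j, R.face (z j) = f)

/-- **The patterns of a virtual surgery** with interior `I` and paths `P`. -/
structure MidG (R : Rot G) (I : V → Prop) (P : List (V × List V × V)) where
  /-- the faces of length five of the patterns -/
  F : Finset R.Face
  /-- their darts: the two hexagons are across `δ f` and the next dart -/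
  δ : R.Face → G.Dart
  hδ : ∀ f ∈ F, R.face (δ f) = f
  hL : ∀ f ∈ F, L7 R (δ f)
  hFI : ∀ f ∈ F, ∀ v ∈ plV R (δ f), ¬ I v
  /-- the places which create a face of length four -/
  J : Type
  /-- there are finitely many -/
  fJ : Fintype J
  /-- the first dart of the path on the hexagon -/
  z : J → G.Dart
  hz : ∀ j, sz R (z j) = 6
  hzP : ∀ j, ((z j).fst, [(R.next (z j)).fst, (R.next^[2] (z j)).fst],
      (R.next^[3] (z j)).fst) ∈ P ∨
    ((R.next^[3] (z j)).fst, [(R.next^[2] (z j)).fst, (R.next (z j)).fst], (z j).fst) ∈ P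
  hzI : ∀ j, ∀ i, i = 0 ∨ i = 3 ∨ i = 4 ∨ i = 5 → ¬ I (R.next^[i] (z j)).fst
  hzinj : ∀ i j, (R.next (z i)).fst = (R.next (z j)).fst → i = j
  /-- the sets of the patterns -/
  S : {f // f ∈ F} ⊕ J → Finset V
  hSF : ∀ f : {f // f ∈ F}, plV R (δ f.1) ⊆ S (Sum.inl f)
  hSJ : ∀ j : J, ∀ i, i = 0 ∨ i = 3 ∨ i = 4 ∨ i = 5 → (R.next^[i] (z j)).fst ∈ S (Sum.inr j)

open Classical in
/-- **Linear growth of the components** of the crossing edges. -/
def MidG.Grow {R : Rot G} {I : V → Prop} {P : List (V × List V × V)} (X : MidG R I P)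
    (Cg : ℕ) : Prop :=
  letI := X.fJ
  ∀ p : R.Face → Option R.Face,
    (∀ d : G.Dart, Del G I P d.fst d.snd → qr p (R.face d) = qr p (R.face d.symm)) →
    (∀ f, f ∉ KF R I X.z → p f ≠ none →
      ∃ d, R.face d = f ∧ qr p (R.face d) = qr p (R.face d.symm)) →
    ∀ C : Finset V, IsComp R (qr p) C →
      ((crT R (qr p) C).filter fun c => p c = some c).card ≤
        Cg * (((crTwo R (qr p) C).filter fun v => ¬ Inn P v).card +
          (univ.filter fun i => X.S i ⊆ Us R (qr p) C).card + 1)

/-- **The input of the middle of the construction** for the surgery with interior `I` and paths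
`P`; `D` and `N0` are constants. -/
structure MidIn (R : Rot G) (I : V → Prop) (P : List (V × List V × V)) (D N0 : ℕ) extends
    MidG R I P where
  hS0 : ∀ i, (S i).card ≤ N0
  hS : ∀ i, ∀ v ∈ S i, ∀ w ∈ S i, ∃ n, n ≤ D ∧ Steps (nbN G I P) n v w
  hnear : ∀ v, (∀ w, ¬ Del G I P v w) → ¬ Inn P v →
    (∃ d : G.Dart, d.fst = v ∧ (Inn P d.snd ∨ (R.face d ∈ KF R I z ∧ sz R d = 6))) →
      NearG G I P D v ∨ ∃ i, v ∈ S i
  hbad : ∀ d e : G.Dart, Near R 9 d e → ¬ LocOK R e → (∀ w, ¬ Del G I P d.fst w) →
    ¬ Inn P d.fst → NearG G I P D d.fst ∨ ∃ i, d.fst ∈ S i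

/-- **Linear growth** from the local conditions. -/
theorem MidIn.grow {R : Rot G} {I : V → Prop} {P : List (V × List V × V)} {D N0 : ℕ}
    (X : MidIn R I P D N0) (hP : R.Plane) (hcub : ∀ v, G.degree v = 3) (hd : VD G I P)
    (hdeg : Deg3 (newG G I (ends P))) :
    X.toMidG.Grow (93003 * 4 ^ (D + 6) * (N0 + 1) + 72003) := by
  let _ := X.fJ
  exact fun p hdel hcon C hC =>
    (growth_loc hP hcub hd hdeg hdel hcon X.S N0 X.hS0 X.hS X.hnear X.hbad hC).trans
      (Nat.mul_le_mul_left _ (Nat.le_succ _))

end Pool.Agent.Uni392
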