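import Mathlib
import Pool.Agent.Work.MP_392c8e_co_uni.MidIn
import Pool.Agent.Work.MP_392c8e_co_uni.MinP
import Pool.Agent.Work.MP_392c8e_co_uni.CombA
import Pool.Agent.Work.MP_392c8e_co_uni.HComp

/-!
# The combination: deleted edges and created hexagons
-/

namespace Pool.Agent.Uni13

open Finset Pool.Agent.Sub392 Pool.Agent.Circ Pool.Agent.T392 Pool.Agent.Uni3
open Pool.Agent.T1Red (newG Deg3)
open Pool.Agent.Uni91 (VD OnP Cs ends full omV parV parV_symm wV bV IsDel omV_le ZC QC N2)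
open Pool.Agent.Uni392 (nbN mem_nbN Steps NearG Us mem_Us Del Inn MidG KF inner_third dart_cases)

set_option linter.unusedSectionVars false

variable {V : Type} [Fintype V] [DecidableEq V] {G : SimpleGraph V} [DecidableRel G.Adj]
  {R : Rot G} {I : V → Prop} {Q : List (V × List V × V)} {K : Finset R.Face}

/-- The weights of the places lower the weight of an edge by at most `2 u`. -/
theorem le_om {E W : Type*} [Fintype W] [DecidableEq W] [Fintype E] [DecidableEq E]
    {s t : E → W} {F : Finset W} (P : Pents s t F) (om : E → ℝ) {u : ℝ} (hu : 0 ≤ u) (e : E) :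
    om e - 2 * u ≤ P.om om u e := by
  have h1 : (F.filter fun f => e = P.l12 f).card + (F.filter fun f => e = P.l2a f).card +
    (F.filter fun f => e = P.lc1 f).card ≤ 2 := P.link_le e
  have h2 : ∀ g : W → E, ∑ f ∈ F, one (e = g f) = ((F.filter fun f => e = g f).card : ℝ) := by
    intro g
    exact sum_one F _
  have h3 : ∑ f ∈ F, P.loc (fun e' => one (e = e')) f =
      ∑ f ∈ F, one (e = P.ea f) + ∑ f ∈ F, one (e = P.ec f) - ((F.filter fun f => e = P.l12 f).card
        + (F.filter fun f => e = P.l2a f).card + (F.filter fun f => e = P.lc1 f).card : ℝ) := by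
    rw [← h2, ← h2, ← h2]
    unfold Pents.loc
    rw [sum_sub_distrib, sum_sub_distrib, sum_sub_distrib, sum_add_distrib]
    ring
  have h4 : (0 : ℝ) ≤ ∑ f ∈ F, one (e = P.ea f) := sum_nonneg fun _ _ => one_nonneg _
  have h5 : (0 : ℝ) ≤ ∑ f ∈ F, one (e = P.ec f) := sum_nonneg fun _ _ => one_nonneg _
  have h6 : ((F.filter fun f => e = P.l12 f).card
        + (F.filter fun f => e = P.l2a f).card + (F.filter fun f => e = P.lc1 f).card : ℝ) ≤ 2 := by
    exact_mod_cast h1
  have h7 : -2 ≤ ∑ f ∈ F, P.loc (fun e' => one (e = e')) f := by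
    rw [h3]
    linarith
  unfold Pents.om
  nlinarith [mul_le_mul_of_nonneg_left h7 hu]

theorem eu_ends (p : R.Face → Option R.Face) (d : G.Dart) :
    (p (fs R (eu d)) = p (R.face d) ∧ p (ft R (eu d)) = p (R.face d.symm)) ∨
      (p (fs R (eu d)) = p (R.face d.symm) ∧ p (ft R (eu d)) = p (R.face d)) := by
  unfold Uni3.fs Uni3.ft
  rcases eu_or d with h | h
  · left
    rw [h]
    exact ⟨rfl, rfl⟩
  · right
    rw [h]
    exact ⟨rfl, by rw [SimpleGraph.Dart.symm_symm]⟩

/-- Deleted edges do not cross. -/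
theorem del_not_cr {om : Up G → ℝ} (hpos : ∀ e, 0 ≤ om e) {p : R.Face → Option R.Face}
    (hp : Adm K p) (hmin : ∀ q, Adm K q → phi (fs R) (ft R) om K p ≤ phi (fs R) (ft R) om K q)
    (hom : ∀ d : G.Dart, IsDel I Q d.fst d.snd → 1 < om (eu d))
    (hKd : ∀ d : G.Dart, IsDel I Q d.fst d.snd → R.face d ∈ K) (d : G.Dart)
    (h : IsDel I Q d.fst d.snd) : p (R.face d) = p (R.face d.symm) ∧ p (R.face d) ≠ none := by
  have h1 := hp.1 _ (hKd d h)
  have h2 := hp.1 _ (hKd d.symm (isDel_symm.1 h))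
  refine ⟨?_, h1⟩
  rcases eu_ends p d with ⟨h3, h4⟩ | ⟨h3, h4⟩
  · have := min_merge (fs R) (ft R) om hpos K hp hmin (hom d h) (by rw [h3]; exact h1)
      (by rw [h4]; exact h2)
    rw [h3, h4] at this
    exact this
  · have := min_merge (fs R) (ft R) om hpos K hp hmin (hom d h) (by rw [h3]; exact h2)
      (by rw [h4]; exact h1)
    rw [h3, h4] at this
    exact this.symm

theorem qr_congr {F : Type*} {p : F → Option F} {x y : F} (h : p x = p y) (h0 : p x ≠ none) :
    qr p x = qr p y := by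
  obtain ⟨c, hc⟩ := Option.ne_none_iff_exists'.1 h0
  rw [qr_some hc, qr_some (h ▸ hc)]

/-- A covered face outside `K` has an edge which does not cross. -/
theorem exists_same_dart {om : Up G → ℝ} (hpos : ∀ e, 0 < om e) {p : R.Face → Option R.Face}
    (hp : Adm K p) (hmin : ∀ q, Adm K q → phi (fs R) (ft R) om K p ≤ phi (fs R) (ft R) om K q)
    {f : R.Face} (hf : f ∉ K) (hpf : p f ≠ none) :
    ∃ d, R.face d = f ∧ p (R.face d) = p (R.face d.symm) := by
  obtain ⟨d, rfl⟩ : ∃ d, R.face d = f := ⟨f.out, Quotient.out_eq f⟩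
  obtain ⟨e, he, he'⟩ := min_uncover (fs R) (ft R) om (fun e => (hpos e).le) K hp hmin hf hpf
    (e0 := eu d) (by
      unfold Uni3.fs Uni3.ft
      rcases eu_or d with h | h
      · exact Or.inl (by rw [h])
      · exact Or.inr (by rw [h, SimpleGraph.Dart.symm_symm])) (hpos _)
  unfold Uni3.fs Uni3.ft at he he'
  rcases he with he | he
  · exact ⟨e.1, he, he'⟩
  · exact ⟨e.1.symm, he, by rw [SimpleGraph.Dart.symm_symm]; exact he'.symm⟩

/-- At an inner vertex of a path there is at most one uncovered corner. -/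
theorem unc_unique (hcub : ∀ v, G.degree v = 3) (hd : VD G I Q) {p : R.Face → Option R.Face}
    (hdel : ∀ d : G.Dart, IsDel I Q d.fst d.snd → p (R.face d) = p (R.face d.symm) ∧
      p (R.face d) ≠ none) {d d' : G.Dart} (hx : Inn Q d.fst) (hdd : d'.fst = d.fst)
    (h1 : p (R.face d) = none) (h2 : p (R.face d') = none) : d = d' := by
  obtain ⟨t, ht, ht'⟩ := inner_third hcub hd hx
  obtain ⟨h3, h4⟩ := hdel t ht'.2
  have h5 : p (R.face (R.rot t)) ≠ none := by
    rw [R.face_rot, ← h3]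
    exact h4
  have key : ∀ y : G.Dart, y.fst = t.fst → p (R.face y) = none → y = R.rot (R.rot t) := by
    intro y hy hy'
    rcases dart_cases R (hcub _) hy with rfl | rfl | rfl
    · exact absurd hy' h4
    · exact absurd hy' h5
    · rfl
  rw [key d ht.symm h1, key d' (hdd.trans ht.symm) h2]

/-- At an inner vertex of a path with a crossing dart exactly the deleted edge does not cross. -/
theorem inn_cr (hcub : ∀ v, G.degree v = 3) (hd : VD G I Q) {p : R.Face → Option R.Face}
    (hdel : ∀ d : G.Dart, IsDel I Q d.fst d.snd → ¬ Cr R (qr p) d) {d : G.Dart}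
    (hx : Inn Q d.fst) (hc : Cr R (qr p) d) : (crV R (qr p) d.fst).card = 2 ∧
      ∀ d' : G.Dart, d'.fst = d.fst → ¬ IsDel I Q d'.fst d'.snd → Cr R (qr p) d' := by
  classical
  obtain ⟨t, ht, ht'⟩ := inner_third hcub hd hx
  have h1 : ¬ Cr R (qr p) t := hdel t ht'.2
  have h2 : crV R (qr p) d.fst ⊆ (univ.filter fun x : G.Dart => x.fst = d.fst).erase t := by
    intro x hx
    obtain ⟨-, h3, h4⟩ := mem_filter.1 hx
    refine mem_erase.2 ⟨?_, mem_filter.2 ⟨mem_univ _, h3⟩⟩
    rintro rfl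
    exact h1 h4
  have h3 : (univ.filter fun x : G.Dart => x.fst = d.fst).card = 3 := by
    rw [← hcub d.fst]
    exact G.dart_fst_fiber_card_eq_degree d.fst
  have h4 : ((univ.filter fun x : G.Dart => x.fst = d.fst).erase t).card = 2 := by
    rw [card_erase_of_mem (show t ∈ univ.filter (fun x : G.Dart => x.fst = d.fst) from
      mem_filter.2 ⟨mem_univ _, ht⟩), h3]
  have h5 : 0 < (crV R (qr p) d.fst).card :=
    card_pos.2 ⟨d, mem_filter.2 ⟨mem_univ _, rfl, hc⟩⟩
  have h6 := crV_card_ne_one R (qr p) d.fst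
  have h7 := card_le_card h2
  have h8 : (crV R (qr p) d.fst).card = 2 := by omega
  refine ⟨h8, fun d' hd' hn => ?_⟩
  have h9 := eq_of_subset_of_card_le h2 (by omega)
  have h10 : d' ∈ crV R (qr p) d.fst := by
    rw [h9]
    refine mem_erase.2 ⟨?_, mem_filter.2 ⟨mem_univ _, hd'⟩⟩
    rintro rfl
    exact hn ht'.2
  exact (mem_filter.1 h10).2.2

/-- **The created hexagons of a component.** -/
theorem two_mul_card_le (X : MidG R I Q) (hcub : ∀ v, G.degree v = 3)
    (hd : VD G I Q) {om : Up G → ℝ} (hpos : ∀ e, 0 < om e) {p : R.Face → Option R.Face}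
    (hp : Adm (KF R I X.z) p)
    (hmin : ∀ q, Adm (KF R I X.z) q → phi (fs R) (ft R) om (KF R I X.z) p ≤
      phi (fs R) (ft R) om (KF R I X.z) q)
    (hdel : ∀ d : G.Dart, IsDel I Q d.fst d.snd → p (R.face d) = p (R.face d.symm) ∧
      p (R.face d) ≠ none) {C : Finset V} (hC : IsComp R (qr p) C) (J' : Finset X.J)
    (hJ : ∀ j ∈ J', X.S (Sum.inr j) ⊆ Us R (qr p) C) :
    2 * J'.card ≤ (ZC R Q p C).card := by
  classical
  have hcr : ∀ j ∈ J', ∀ i, i = 0 ∨ i = 3 ∨ i = 4 ∨ i = 5 →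
      (R.next^[i] (X.z j)).fst ∈ C ∧ ∀ d : G.Dart, d.fst = (R.next^[i] (X.z j)).fst →
        Cr R (qr p) d := fun j hj i hi => mem_Us.1 (hJ j hj (X.hSJ j i hi))
  have hdel' : ∀ d : G.Dart, IsDel I Q d.fst d.snd → ¬ Cr R (qr p) d := fun d h h' =>
    h' (qr_congr (hdel d h).1 (hdel d h).2)
  have hinn : ∀ j, Inn Q (R.next^[1] (X.z j)).fst ∧ Inn Q (R.next^[2] (X.z j)).fst := by
    intro j
    rcases X.hzP j with h | h
    · exact ⟨⟨_, h, by simp⟩, ⟨_, h, by simp⟩⟩
    · exact ⟨⟨_, h, by simp⟩, ⟨_, h, by simp⟩⟩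
  have hsnd : ∀ (d : G.Dart) (i : ℕ), (R.next^[i] d).snd = (R.next^[i + 1] d).fst := by
    intro d i
    rw [Function.iterate_succ_apply', R.fst_next]
  -- crossing
  have c0 : ∀ j ∈ J', Cr R (qr p) (X.z j) := fun j hj => (hcr j hj 0 (Or.inl rfl)).2 _ rfl
  have c2 : ∀ j ∈ J', Cr R (qr p) (R.next^[2] (X.z j)) := by
    intro j hj
    exact Cr.of_symm ((hcr j hj 3 (by omega)).2 _ (hsnd (X.z j) 2))
  have hz0 : ∀ j, (X.z j).symm.fst = (R.next^[1] (X.z j)).fst := fun j => hsnd (X.z j) 0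
  have c1 : ∀ j ∈ J', Cr R (qr p) (R.next^[1] (X.z j)) := by
    intro j hj
    refine (inn_cr hcub hd hdel' (d := (X.z j).symm) (by rw [hz0]; exact (hinn j).1)
      (c0 j hj).symm).2 _ (hz0 j).symm ?_
    rintro ⟨-, h⟩
    rw [hsnd] at h
    rcases X.hzP j with h' | h'
    · exact h _ h' (Or.inl ⟨[(X.z j).fst], [(R.next^[3] (X.z j)).fst], rfl⟩)
    · exact h _ h' (Or.inr ⟨[(R.next^[3] (X.z j)).fst], [(X.z j).fst], rfl⟩)
  have call : ∀ j ∈ J', ∀ d, R.face d = R.face (X.z j) → Cr R (qr p) d := by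
    intro j hj d hdz
    obtain ⟨i, hi⟩ := ((face_eq_iff R (X.z j) d).1 hdz).exists_nat_pow_eq
    have h6 : d = R.next^[i % 6] (X.z j) := by
      have h5 : Function.minimalPeriod R.next (X.z j) = 6 := by rw [← sz_eq, X.hz]
      rw [← h5, Function.iterate_mod_minimalPeriod_eq, ← hi, Equiv.Perm.coe_pow]
    have h7 : i % 6 < 6 := Nat.mod_lt _ (by norm_num)
    rw [h6]
    generalize i % 6 = m at h7
    interval_cases m
    · exact c0 j hj
    · exact c1 j hj
    · exact c2 j hj
    · exact (hcr j hj 3 (by omega)).2 _ rfl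
    · exact (hcr j hj 4 (by omega)).2 _ rfl
    · exact (hcr j hj 5 (by omega)).2 _ rfl
  have hunc : ∀ j ∈ J', p (R.face (X.z j)) = none := by
    intro j hj
    by_contra hne
    have hnK : R.face (X.z j) ∉ KF R I X.z := by
      unfold KF
      rw [mem_filter]
      rintro ⟨-, h⟩
      exact h (Or.inr ⟨j, rfl⟩)
    obtain ⟨d, h1, h2⟩ := exists_same_dart hpos hp hmin hnK hne
    exact call j hj d h1 (qr_congr h2 (by rw [h1]; exact hne))
  have hface : ∀ (d : G.Dart) (i : ℕ), R.face (R.next^[i] d) = R.face d := face_iter R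
  -- membership
  have hC1 : ∀ j ∈ J', (R.next^[1] (X.z j)).fst ∈ C := by
    intro j hj
    rw [← hz0]
    exact hC.closed _ (c0 j hj) (hcr j hj 0 (Or.inl rfl)).1
  have hC2 : ∀ j ∈ J', (R.next^[2] (X.z j)).fst ∈ C := by
    intro j hj
    rw [← hsnd (X.z j) 1]
    exact hC.closed _ (c1 j hj) (hC1 j hj)
  have hZ : ∀ j ∈ J', ∀ i, i = 1 ∨ i = 2 → (R.next^[i] (X.z j)).fst ∈ ZC R Q p C := by
    intro j hj i hi
    have h1 : Inn Q (R.next^[i] (X.z j)).fst ∧ (R.next^[i] (X.z j)).fst ∈ C ∧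
        Cr R (qr p) (R.next^[i] (X.z j)) := by
      rcases hi with rfl | rfl
      · exact ⟨(hinn j).1, hC1 j hj, c1 j hj⟩
      · exact ⟨(hinn j).2, hC2 j hj, c2 j hj⟩
    obtain ⟨h2, h3, h4⟩ := h1
    unfold ZC QC
    rw [mem_filter, mem_filter]
    refine ⟨⟨?_, h2⟩, R.next^[i] (X.z j), rfl, ?_⟩
    · unfold crTwo
      rw [mem_filter]
      exact ⟨h3, (inn_cr hcub hd hdel' h2 h4).1⟩
    · rw [hface]
      exact hunc j hj
  -- the darts at the inner vertices
  set T : Finset G.Dart := J'.image (fun j => R.next^[1] (X.z j)) ∪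
    J'.image (fun j => R.next^[2] (X.z j)) with hT
  have hinj1 : Function.Injective fun j => R.next^[1] (X.z j) := by
    intro i j hij
    exact X.hzinj i j (congrArg (fun d : G.Dart => d.fst) hij)
  have hinj2 : Function.Injective fun j => R.next^[2] (X.z j) := by
    intro i j hij
    have h1 : R.next (R.next^[1] (X.z i)) = R.next (R.next^[1] (X.z j)) := hij
    exact hinj1 (R.next.injective h1)
  have hcard : T.card = 2 * J'.card := by
    rw [hT, card_union_of_disjoint, card_image_of_injective _ hinj1,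
      card_image_of_injective _ hinj2]
    · ring
    · rw [disjoint_left]
      intro d h1 h2
      obtain ⟨i, -, rfl⟩ := mem_image.1 h1
      obtain ⟨j, -, h3⟩ := mem_image.1 h2
      have h4 : R.next (R.next (X.z j)) = R.next (X.z i) := h3
      have h5 : R.next (X.z j) = X.z i := R.next.injective h4
      have h6 := X.hzI i 0 (Or.inl rfl)
      apply h6
      show I (X.z i).fst
      rw [← h5]
      obtain ⟨q, hq, hq'⟩ := (hinn j).1
      exact hd.int q hq _ hq'
  rw [← hcard]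
  refine card_le_card_of_injOn (fun d => d.fst) ?_ ?_
  · intro d hd'
    rw [mem_coe, hT, mem_union] at hd'
    rcases hd' with h | h
    · obtain ⟨j, hj, rfl⟩ := mem_image.1 h
      exact hZ j hj 1 (Or.inl rfl)
    · obtain ⟨j, hj, rfl⟩ := mem_image.1 h
      exact hZ j hj 2 (Or.inr rfl)
  · have hprop : ∀ d ∈ T, Inn Q d.fst ∧ p (R.face d) = none := by
      intro d hd'
      rw [hT, mem_union] at hd'
      rcases hd' with h | h
      · obtain ⟨j, hj, rfl⟩ := mem_image.1 h
        exact ⟨(hinn j).1, by rw [hface]; exact hunc j hj⟩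
      · obtain ⟨j, hj, rfl⟩ := mem_image.1 h
        exact ⟨(hinn j).2, by rw [hface]; exact hunc j hj⟩
    intro d hd1 d' hd2 h
    obtain ⟨h1, h2⟩ := hprop d hd1
    obtain ⟨-, h3⟩ := hprop d' hd2
    exact unc_unique hcub hd hdel h1 h.symm h2 h3

end Pool.Agent.Uni13
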