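import Mathlib
import Pool.Agent.Work.MP_392c8e_co_uni.CombB
import Pool.Agent.Work.MP_392c8e_co_uni.Consts

/-!
# The combination

A virtual surgery with its patterns: if the new graph has a strict colouring, then it has one with
a number of levels which depends only on the constants of the patterns.
-/

namespace Pool.Agent.Uni13

open Finset Pool.Agent.Sub392 Pool.Agent.Circ Pool.Agent.T392 Pool.Agent.Uni3 Pool.Agent.Uni97
open Pool.Agent.T1Red (newG Deg3 HasStrict)
open Pool.Agent.Uni91 (VD OnP ends omV parV wV bV IsDel omV_del ZC QC N2 D_eq_zero)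
open Pool.Agent.Uni392 (StrictN Steps NearG Us mem_Us Del Inn MidG KF)

set_option linter.unusedSectionVars false

variable {V : Type} [Fintype V] [DecidableEq V] {G : SimpleGraph V} [DecidableRel G.Adj]
  {R : Rot G} {I : V → Prop} {Q : List (V × List V × V)}

/-- The covered classes are those which contain their label. -/
theorem covT_eq {K : Finset R.Face} {p : R.Face → Option R.Face} (hp : Adm K p) (C : Finset V) :
    covT R p C = (crT R (qr p) C).filter fun c => p c = some c := by
  classical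
  unfold covT
  refine filter_congr fun c hc => ?_
  unfold crT at hc
  obtain ⟨d, -, hd⟩ := mem_image.1 hc
  have hd' : qr p (R.face d) = c := hd
  constructor
  · intro h
    cases h' : p (R.face d) with
    | none =>
      rw [qr_none h'] at hd'
      rw [hd'] at h'
      exact absurd h' h
    | some c' =>
      rw [qr_some h'] at hd'
      subst hd'
      exact (hp.2 _ _ h').2
  · intro h
    rw [h]
    simp

theorem crV_card_three (hcub : ∀ v, G.degree v = 3) {T : Type} [DecidableEq T]
    {κ : R.Face → T} {v : V} (h : ∀ d : G.Dart, d.fst = v → Cr R κ d) :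
    (crV R κ v).card = 3 := by
  classical
  have h1 : crV R κ v = univ.filter fun d : G.Dart => d.fst = v := by
    unfold crV
    refine filter_congr fun d _ => ?_
    exact ⟨fun h' => h'.1, fun h' => ⟨h', h d h'⟩⟩
  rw [h1, ← hcub v]
  exact G.dart_fst_fiber_card_eq_degree v

/-- The number of patterns inside a component. -/
theorem card_pat_le (X : MidG R I Q) [Fintype X.J]
    (hcub : ∀ v, G.degree v = 3) {T : Type} [DecidableEq T] (κ : R.Face → T) (C : Finset V)
    [DecidablePred fun i : {f // f ∈ X.F} ⊕ X.J => X.S i ⊆ Us R κ C]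
    [DecidablePred fun j : X.J => X.S (Sum.inr j) ⊆ Us R κ C] :
    (univ.filter fun i => X.S i ⊆ Us R κ C).card ≤ (ownF R κ C X.F X.δ).card +
      (univ.filter fun j : X.J => X.S (Sum.inr j) ⊆ Us R κ C).card := by
  classical
  rw [card_filter, Fintype.sum_sum_type, ← card_filter]
  refine add_le_add ?_ (le_of_eq (by
    rw [card_filter]
    refine sum_congr rfl fun j _ => ?_
    by_cases h : X.S (Sum.inr j) ⊆ Us R κ C
    · rw [if_pos h, if_pos h]
    · rw [if_neg h, if_neg h]))
  refine card_le_card_of_injOn (fun f => f.1) ?_ fun a _ b _ h => Subtype.ext h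
  intro f hf
  have hf' : X.S (Sum.inl f) ⊆ Us R κ C := (mem_filter.1 hf).2
  refine mem_ownF.2 ⟨f.2, fun v hv => ?_⟩
  have h1 := mem_Us.1 (hf' (X.hSF f hv))
  exact ⟨h1.1, crV_card_three hcub h1.2⟩

open Classical in
/-- Linear growth of the components of the crossing edges, with an additive constant. -/
def Grow1 (X : MidG R I Q) (Cg : ℕ) : Prop :=
  letI := X.fJ
  ∀ p : R.Face → Option R.Face,
    (∀ d : G.Dart, Del G I Q d.fst d.snd → qr p (R.face d) = qr p (R.face d.symm)) →
    (∀ f, f ∉ KF R I X.z → p f ≠ none →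
      ∃ d, R.face d = f ∧ qr p (R.face d) = qr p (R.face d.symm)) →
    ∀ C : Finset V, IsComp R (qr p) C →
      ((crT R (qr p) C).filter fun c => p c = some c).card ≤
        Cg * (((crTwo R (qr p) C).filter fun v => ¬ Inn Q v).card +
          (univ.filter fun i => X.S i ⊆ Us R (qr p) C).card + 1)

theorem grow1_of_grow {X : MidG R I Q} {Cg : ℕ} (h : X.Grow Cg) : Grow1 X Cg := by
  intro p h1 h2 C hC
  exact h p h1 h2 C hC

open Classical in
/-- **The estimate for a component**, `m` covered classes. -/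
theorem component (X : MidG R I Q)
    (hcub : ∀ v, G.degree v = 3) (hd : VD G I Q)
    (hb : ∀ d, R.face d ≠ R.face d.symm)
    (hFK : X.F ⊆ KF R I X.z)
    (hKh : ∀ f ∈ X.F, R.face (X.δ f).symm ∉ KF R I X.z ∧
      R.face (R.next (X.δ f)).symm ∉ KF R I X.z)
    (hKs : ∀ d, R.face d ∉ KF R I X.z → sz R d = 6)
    {e θ u : ℝ} (hθ : θ = 1 / 3 - e) (hu : u = 1 / 5000) (he : 0 < e)
    {Cg : ℕ} (hCg : 1 ≤ Cg) (hg : Grow1 X Cg)
    (heC : 1000000 * (e * (Cg : ℝ)) = 1)
    (hpos : ∀ x, 0 < (pentsOf X.F X.δ hcub X.hδ X.hL).om (wV I Q θ 2) u x)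
    {p : R.Face → Option R.Face} (hp : Adm (KF R I X.z) p)
    (hmin : ∀ q, Adm (KF R I X.z) q →
      phi (fs R) (ft R) ((pentsOf X.F X.δ hcub X.hδ X.hL).om (wV I Q θ 2) u) (KF R I X.z) p ≤
      phi (fs R) (ft R) ((pentsOf X.F X.δ hcub X.hδ X.hL).om (wV I Q θ 2) u) (KF R I X.z) q)
    (hdel : ∀ d : G.Dart, IsDel I Q d.fst d.snd → p (R.face d) = p (R.face d.symm) ∧
      p (R.face d) ≠ none) {C : Finset V} (hC : IsComp R (qr p) C) :
    (mixF R (qr p) C X.F X.δ).card ≤ 126 ∧
    ∑ x ∈ crE R p C, (pentsOf X.F X.δ hcub X.hδ X.hL).om (wV I Q θ 2) u x *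
      cc p (R.face x.1) (R.face x.1.symm) ≤ 20008 * (Cg : ℝ) := by
  let _ := X.fJ
  -- growth
  have hgr := hg p (fun d h => qr_congr (hdel d h.2).1 (hdel d h.2).2)
    (fun f hf hpf => by
      obtain ⟨d, h1, h2⟩ := exists_same_dart hpos hp hmin hf hpf
      exact ⟨d, h1, qr_congr h2 (by rw [h1]; exact hpf)⟩) C hC
  rw [← covT_eq hp] at hgr
  have hCg1 : (1 : ℝ) ≤ Cg := by exact_mod_cast hCg
  have he1 : e ≤ 1 / 1000000 := by nlinarith
  have hu0 : 0 ≤ u := by rw [hu]; norm_num
  have hθ0 : 0 ≤ θ := by rw [hθ]; linarith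
  have hnb : ∀ d, p (R.face d) = none → R.face d.symm ≠ R.face d := fun d _ h => hb d h.symm
  have hdel' : ∀ d : G.Dart, IsDel I Q d.fst d.snd → ¬ Cr R (qr p) d := fun d h h' =>
    h' (qr_congr (hdel d h).1 (hdel d h).2)
  -- mixed places
  have hmix : (mixF R (qr p) C X.F X.δ).card ≤ 21 * (N2 R Q p C).card := by
    have h1 := card_mixF_le X.hδ X.hL hcub hC (univ.filter fun v => ¬ Inn Q v) (by
      intro f hf v hv
      refine mem_filter.2 ⟨mem_univ _, ?_⟩
      rintro ⟨q, hq, hvq⟩
      exact X.hFI f hf v hv (hd.int q hq v hvq))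
    refine h1.trans (Nat.mul_le_mul_left _ (card_le_card ?_))
    intro v hv
    obtain ⟨h2, h3⟩ := mem_inter.1 hv
    unfold N2
    exact mem_filter.2 ⟨h2, (mem_filter.1 h3).2⟩
  -- the count
  have hcount := hd.count hcub R hp hnb hdel' C hC (M := 2) hθ0
  have hunc : ∑ z ∈ uncT R p C, (6 - (R.size z : ℝ)) = 0 := by
    refine sum_eq_zero fun z hz => ?_
    have h1 : p z = none := (mem_filter.1 hz).2
    obtain ⟨d, rfl⟩ : ∃ d, R.face d = z := ⟨z.out, Quotient.out_eq z⟩
    have h2 := hKs d fun h => hp.1 _ h h1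
    unfold sz at h2
    rw [h2]
    norm_num
  rw [hunc, add_zero, sum_filter] at hcount
  have hL7 := count_L7 hcub X.hδ X.hL hu0 hpos hFK hKh hp hmin hC
  have hw : (∑ x : Up G, (if Cr R (qr p) x.1 ∧ x.1.fst ∈ C then
      wV I Q θ 2 x * cc p (R.face x.1) (R.face x.1.symm) else 0)) =
      ∑ x : Up G, (if Cr R (qr p) x.1 ∧ x.1.fst ∈ C then
        omV I Q θ 2 x.1.fst x.1.snd * cc p (R.face x.1) (R.face x.1.symm) else 0) := rfl
  rw [hw] at hL7
  have hS : (∑ x ∈ crE R p C, (pentsOf X.F X.δ hcub X.hδ X.hL).om (wV I Q θ 2) u x *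
      cc p (R.face x.1) (R.face x.1.symm)) = ∑ x : Up G, (if Cr R (qr p) x.1 ∧ x.1.fst ∈ C then
      (pentsOf X.F X.δ hcub X.hδ X.hL).om (wV I Q θ 2) u x *
        cc p (R.face x.1) (R.face x.1.symm) else 0) := by
    unfold crE
    rw [sum_filter]
  rw [hS]
  set S : ℝ := ∑ x : Up G, (if Cr R (qr p) x.1 ∧ x.1.fst ∈ C then
      (pentsOf X.F X.δ hcub X.hδ X.hL).om (wV I Q θ 2) u x *
        cc p (R.face x.1) (R.face x.1.symm) else 0) with hSdef
  -- created hexagons
  set J' : Finset X.J := univ.filter fun j => X.S (Sum.inr j) ⊆ Us R (qr p) C with hJ'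
  have hZ := two_mul_card_le X hcub hd hpos hp hmin hdel hC J' (fun j hj => (mem_filter.1 hj).2)
  have hZ' : 2 * (J'.card : ℝ) ≤ (ZC R Q p C).card := by exact_mod_cast hZ
  have hmix' : ((mixF R (qr p) C X.F X.δ).card : ℝ) ≤ 21 * (N2 R Q p C).card := by
    exact_mod_cast hmix
  have hown0 : (0 : ℝ) ≤ (ownF R (qr p) C X.F X.δ).card := Nat.cast_nonneg _
  have hN0 : (0 : ℝ) ≤ (N2 R Q p C).card := Nat.cast_nonneg _
  have hJ0 : (0 : ℝ) ≤ J'.card := Nat.cast_nonneg _
  have hkey : θ * (6 * (((covT R p C).card : ℝ) - 1) + 2 * ((N2 R Q p C).card + J'.card) - 6) +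
      2 * u * (ownF R (qr p) C X.F X.δ).card - 126 * u * (N2 R Q p C).card ≤ S := by
    have h1 : θ * (2 * (J'.card : ℝ)) ≤ θ * (ZC R Q p C).card :=
      mul_le_mul_of_nonneg_left hZ' hθ0
    have h2 : u * ((mixF R (qr p) C X.F X.δ).card : ℝ) ≤ u * (21 * (N2 R Q p C).card) :=
      mul_le_mul_of_nonneg_left hmix' hu0
    nlinarith
  by_cases hne : (covT R p C).Nonempty
  · have hE1 := comp_bound' R hp hnb _ (fun x => (hpos x).le) hmin hC hne
    have hE1' : S ≤ 2 * (((covT R p C).card : ℝ) - 1) := hE1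
    have hpat : (univ.filter fun i => X.S i ⊆ Us R (qr p) C).card ≤
        (ownF R (qr p) C X.F X.δ).card + J'.card := by
      have := card_pat_le X hcub (qr p) C
      convert this
    have hg' : ((covT R p C).card : ℝ) ≤ Cg * (((N2 R Q p C).card + J'.card : ℕ) +
        (ownF R (qr p) C X.F X.δ).card + 1) := by
      have h1 : (covT R p C).card ≤ Cg * ((N2 R Q p C).card + J'.card +
          (ownF R (qr p) C X.F X.δ).card + 1) := by
        refine hgr.trans (Nat.mul_le_mul_left _ ?_)
        have h2 : ((crTwo R (qr p) C).filter fun v => ¬ Inn Q v).card = (N2 R Q p C).card := rfl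
        rw [h2]
        omega
      exact_mod_cast h1
    have hc2 : (1 / 3 - e) * (6 * (((covT R p C).card : ℝ) - 1) +
        2 * (((N2 R Q p C).card + J'.card : ℕ) : ℝ) - 6) +
        2 * u * (ownF R (qr p) C X.F X.δ).card -
        126 * u * (((N2 R Q p C).card + J'.card : ℕ) : ℝ) ≤ S := by
      have h1 : 0 ≤ 126 * u * (J'.card : ℝ) := by positivity
      push_cast
      rw [← hθ]
      linarith
    obtain ⟨r1, -, r3⟩ := comp_bound1 (u := u) (e := e) (C := (Cg : ℝ)) (B := 126) (S := S)
      (m := (covT R p C).card) (ν := (N2 R Q p C).card + J'.card)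
      (a := (ownF R (qr p) C X.F X.δ).card) (by rw [hu]; norm_num) (by rw [hu]; norm_num)
      (by linarith) he (by
        rw [hu]
        nlinarith) (by linarith) (by rw [hu]; norm_num) hE1' hc2 hg'
    have r1' : (N2 R Q p C).card ≤ 3 := by omega
    refine ⟨by omega, ?_⟩
    have h2u : 2 / u = 10000 := by rw [hu]; norm_num
    rw [h2u] at r3
    linarith
  · -- all faces at the component are uncovered
    have h0 : covT R p C = ∅ := Finset.not_nonempty_iff_eq_empty.1 hne
    have hS0 : S = 0 := by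
      rw [← hS]
      refine sum_eq_zero fun x hx => ?_
      have hcc : cc p (R.face x.1) (R.face x.1.symm) = 0 := by
        have hnone : ∀ d : G.Dart, d ∈ crD R (qr p) C → p (R.face d) = none := by
          intro d hdd
          by_contra h1
          obtain ⟨c, hc⟩ := Option.ne_none_iff_exists'.1 h1
          have h2 : c ∈ covT R p C := by
            unfold covT crT
            refine mem_filter.2 ⟨mem_image.2 ⟨d, hdd, qr_some hc⟩, ?_⟩
            rw [(hp.2 _ _ hc).2]
            simp
          rw [h0] at h2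
          exact absurd h2 (notMem_empty _)
        obtain ⟨h1, h2⟩ := mem_crD_of_crE R hp hnb hC hx
        unfold cc
        rw [hnone _ h1, hnone _ h2, if_pos rfl]
      rw [hcc, mul_zero]
    rw [h0, card_empty, hS0] at hkey
    have h2 : (N2 R Q p C).card ≤ 6 := by
      by_contra hc
      have h7 : (7 : ℝ) ≤ (N2 R Q p C).card := by exact_mod_cast (by omega : 7 ≤ _)
      have h3 : (1 : ℝ) / 4 ≤ θ := by rw [hθ]; linarith
      have h4 : 0 ≤ θ * (J'.card : ℝ) := mul_nonneg hθ0 hJ0
      have h5 : (1 : ℝ) / 4 * ((N2 R Q p C).card - 7) ≤ θ * ((N2 R Q p C).card - 7) :=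
        mul_le_mul_of_nonneg_right h3 (by linarith)
      rw [hu] at hkey
      push_cast at hkey
      nlinarith
    refine ⟨by omega, ?_⟩
    rw [hS0]
    positivity

end Pool.Agent.Uni13
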