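import Mathlib
import Pool.Agent.Work.MP_392c8e_co_uni.MidIn
import Pool.Agent.Work.MP_392c8e_co_uni.VDCount

/-!
# The faces which need not be covered
-/

set_option autoImplicit false
set_option linter.unusedSectionVars false

namespace Pool.Agent.Uni392

open Finset Pool.Agent.Sub392 Pool.Agent.T392 Pool.Agent.Disch392
open Pool.Agent.Uni3 (Cr IsComp crT crTwo qr L7 plV PF mem_plV fs ft eu eu_or eu_up eu_symm)
open Pool.Agent.Uni91 (VD ends lf rf wV bV omV parV OnP IsFst full Cs)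
open Pool.Agent.T1Red (newG Deg3)
open Pool.Agent.Circ Pool.Agent.OddFlow

variable {V : Type} [Fintype V] [DecidableEq V] {G : SimpleGraph V} [DecidableRel G.Adj]
  {R : Rot G} {I : V → Prop} {P : List (V × List V × V)}

theorem mem_KF {J : Type} {z : J → G.Dart} {f : R.Face} :
    f ∈ KF R I z ↔ ¬ (Hex0 R I f ∨ ∃ j, R.face (z j) = f) := by
  classical
  unfold KF
  simp

theorem not_mem_KF {J : Type} {z : J → G.Dart} {f : R.Face} :
    f ∉ KF R I z ↔ Hex0 R I f ∨ ∃ j, R.face (z j) = f := by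
  rw [mem_KF, not_not]

section six

variable {M : Type*} [AddCommMonoid M]

/-- The darts of a hexagon. -/
theorem filter_six {d0 : G.Dart} (h : sz R d0 = 6) :
    (univ.filter fun d : G.Dart => R.face d = R.face d0) =
      (range 6).image fun i => R.next^[i] d0 := by
  ext d
  rw [mem_filter, mem_image]
  constructor
  · rintro ⟨-, hd⟩
    obtain ⟨i, hi⟩ := ((face_eq_iff R d0 d).1 hd).exists_nat_pow_eq
    have h2 : Function.minimalPeriod R.next d0 = 6 := by rw [← sz_eq, h]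
    refine ⟨i % 6, mem_range.2 (Nat.mod_lt _ (by norm_num)), ?_⟩
    rw [← h2, Function.iterate_mod_minimalPeriod_eq, ← Equiv.Perm.coe_pow, hi]
  · rintro ⟨i, -, rfl⟩
    exact ⟨mem_univ _, Uni3.face_iter R d0 i⟩

/-- Sums over the darts of a hexagon. -/
theorem sum_six {d0 : G.Dart} (h : sz R d0 = 6) (g : G.Dart → M) :
    ∑ d ∈ univ.filter (fun d : G.Dart => R.face d = R.face d0), g d =
      g d0 + g (R.next d0) + g (R.next^[2] d0) + g (R.next^[3] d0) + g (R.next^[4] d0) +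
        g (R.next^[5] d0) := by
  have h2 : Function.minimalPeriod R.next d0 = 6 := by rw [← sz_eq, h]
  rw [filter_six h, sum_image]
  · simp only [sum_range_succ, sum_range_zero, zero_add]
    rfl
  · intro i hi j hj hij
    exact Function.iterate_injOn_Iio_minimalPeriod (by rw [h2]; exact mem_range.1 hi)
      (by rw [h2]; exact mem_range.1 hj) hij

end six

/-- The values on three consecutive edges of a path. -/
theorem path_vals (hd : VD G I P) {a b c e : V} (h : (a, [b, c], e) ∈ P) (θ M : ℝ) :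
    (parV I P a b = 1 ∧ parV I P b c = 0 ∧ parV I P c e = 0) ∧
      (omV I P θ M a b = θ / 3 ∧ omV I P θ M b c = θ / 3 ∧ omV I P θ M c e = θ / 3) := by
  have hn := (hd.chain _ h).2
  simp only [full, List.cons_append, List.nil_append, List.nodup_cons, List.mem_cons,
    List.not_mem_nil, or_false, not_or, List.nodup_nil, and_true, not_false_eq_true] at hn
  obtain ⟨⟨n1, n2, n3⟩, ⟨n4, n5⟩, n6⟩ := hn
  have o1 : OnP (a, [b, c], e) a b := Or.inl ⟨[], [c, e], rfl⟩
  have o2 : OnP (a, [b, c], e) b c := Or.inl ⟨[a], [e], rfl⟩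
  have o3 : OnP (a, [b, c], e) c e := Or.inl ⟨[a, b], [], rfl⟩
  have key : ∀ u v, OnP (a, [b, c], e) u v → omV I P θ M u v = θ / 3 := by
    intro u v huv
    rw [hd.omV_path h huv]
    norm_num
  refine ⟨⟨VD.parV_fst h (Or.inl ⟨rfl, [c, e], rfl⟩), hd.parV_rest h o2 ?_,
    hd.parV_rest h o3 ?_⟩, key _ _ o1, key _ _ o2, key _ _ o3⟩
  · rintro (⟨h1, -⟩ | ⟨h1, -⟩)
    · exact n1 h1.symm
    · exact n2 h1.symm
  · rintro (⟨h1, -⟩ | ⟨h1, -⟩)
    · exact n2 h1.symm
    · exact n3 h1.symm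

theorem snd_iter (R : Rot G) (d : G.Dart) (i : ℕ) :
    (R.next^[i] d).snd = (R.next^[i + 1] d).fst := by
  rw [Function.iterate_succ_apply', R.fst_next]

/-- A dart on a face without interior vertices. -/
theorem snd_face {f : R.Face} (h : ∀ x, R.face x = f → ¬ I x.fst) {d : G.Dart}
    (hd : R.face d = f) : ¬ I d.snd := by
  have := h (R.next d) (by rw [R.face_next, hd])
  rwa [R.fst_next] at this

/-- Sums over the edges of a face. -/
theorem sum_cut_face (hb : ∀ d : G.Dart, R.face d ≠ R.face d.symm) {M : Type*} [AddCommMonoid M]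
    (g : V → V → M) (hg : ∀ u v, g u v = g v u) (f : R.Face) :
    ∑ e ∈ cut (lf R) (rf R) {f}, g e.1.fst e.1.snd =
      ∑ d ∈ univ.filter (fun d : G.Dart => R.face d = f), g d.fst d.snd := by
  symm
  refine sum_bij (fun d _ => eu d) ?_ ?_ ?_ ?_
  · intro d hd
    have h1 := (mem_filter.1 hd).2
    rw [Uni3.mem_cut']
    simp only [mem_singleton]
    unfold Uni91.lf Uni91.rf
    rcases eu_or d with h | h
    · rw [h]
      intro hc
      exact hb d ((h1.trans (hc.1 h1).symm))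
    · rw [h, SimpleGraph.Dart.symm_symm]
      intro hc
      exact hb d (h1.trans (hc.2 h1).symm)
  · intro d hd d' hd' h
    have h1 := (mem_filter.1 hd).2
    have h2 := (mem_filter.1 hd').2
    rcases Uni3.eu_eq_iff.1 h with h3 | h3
    · exact h3.symm
    · rw [h3] at h2
      exact absurd (h1.trans h2.symm) (hb d)
  · intro e he
    rw [Uni3.mem_cut'] at he
    simp only [mem_singleton] at he
    have h1 : R.face e.1 = f ∨ R.face e.1.symm = f := by
      by_contra hc
      push Not at hc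
      exact he ⟨fun h2 => absurd h2 hc.1, fun h2 => absurd h2 hc.2⟩
    rcases h1 with h1 | h1
    · exact ⟨e.1, mem_filter.2 ⟨mem_univ _, h1⟩, eu_up e⟩
    · exact ⟨e.1.symm, mem_filter.2 ⟨mem_univ _, h1⟩, by rw [eu_symm, eu_up]⟩
  · intro d _
    rcases eu_or d with h | h
    · rw [h]
    · rw [h]
      exact hg _ _

/-- There is a face of length different from six. -/
theorem exists_ne_six (hP : R.Plane) (hcub : ∀ v, G.degree v = 3) : ∃ d, sz R d ≠ 6 := by
  by_contra hcon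
  push Not at hcon
  have hne : (univ : Finset V).Nonempty := by
    obtain ⟨v⟩ := hP.1.nonempty
    exact ⟨v, mem_univ _⟩
  have h1 := gauss_bonnet_rot R hP univ hne fun v _ => hcub v
  have h2 : (#(bd (G := G) (univ : Finset V)) : ℝ) = 0 := by
    unfold bd
    simp
  rw [h2, sum_congr rfl (g := fun _ => (0 : ℝ)) (fun d _ => ?_)] at h1
  · simp only [sum_const_zero] at h1
    linarith
  · unfold kap
    rw [hcon d]
    norm_num

namespace MidG

variable (X : MidG R I P)

/-- The faces which may be covered. -/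
noncomputable def K : Finset R.Face := KF R I X.z

theorem face_cases {d : G.Dart} (h : R.face d ∉ X.K) :
    (sz R d = 6 ∧ ∀ x, R.face x = R.face d → ¬ I x.fst) ∨
      ∃ j, ∃ i < 6, d = R.next^[i] (X.z j) := by
  rcases not_mem_KF.1 h with ⟨d', h1, h2, h3⟩ | ⟨j, hj⟩
  · left
    refine ⟨?_, h3⟩
    unfold sz at h2 ⊢
    rw [← h1]
    exact h2
  · right
    have h4 : d ∈ univ.filter fun d : G.Dart => R.face d = R.face (X.z j) := by
      rw [mem_filter]
      exact ⟨mem_univ _, hj.symm⟩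
    rw [filter_six (X.hz j), mem_image] at h4
    obtain ⟨i, hi, hi'⟩ := h4
    exact ⟨j, i, mem_range.1 hi, hi'.symm⟩

/-- The faces outside `K` have length six. -/
theorem hK6 (d : G.Dart) (h : R.face d ∉ X.K) : sz R d = 6 := by
  rcases X.face_cases h with h1 | ⟨j, i, -, rfl⟩
  · exact h1.1
  · rw [sz_iter, X.hz j]

/-- The edges of the path on a created face of length four. -/
theorem onP (j : X.J) : ∃ p ∈ P, OnP p (X.z j).fst (R.next (X.z j)).fst ∧
    OnP p (R.next (X.z j)).fst (R.next^[2] (X.z j)).fst ∧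
    OnP p (R.next^[2] (X.z j)).fst (R.next^[3] (X.z j)).fst := by
  rcases X.hzP j with h | h
  · exact ⟨_, h, Or.inl ⟨[], [_, _], rfl⟩, Or.inl ⟨[_], [_], rfl⟩, Or.inl ⟨[_, _], [], rfl⟩⟩
  · exact ⟨_, h, Or.inr ⟨[_, _], [], rfl⟩, Or.inr ⟨[_], [_], rfl⟩, Or.inr ⟨[], [_, _], rfl⟩⟩

theorem z_six (j : X.J) : (R.next^[5 + 1] (X.z j)).fst = (X.z j).fst := by
  have h : R.next^[6] (X.z j) = X.z j := by rw [← X.hz j]; exact next_sz R _
  rw [h]

/-- The darts of the faces outside `K` are not deleted. -/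
theorem not_del (d : G.Dart) (h : R.face d ∉ X.K) : ¬ Del G I P d.fst d.snd := by
  rintro ⟨-, h1, h2⟩
  rcases X.face_cases h with h3 | ⟨j, i, hi, rfl⟩
  · rcases h1 with h1 | h1
    · exact h3.2 d rfl h1
    · exact snd_face h3.2 rfl h1
  · obtain ⟨p, hp, o1, o2, o3⟩ := X.onP j
    rw [snd_iter] at h1 h2
    have z0 := X.hzI j 0 (Or.inl rfl)
    have z3 := X.hzI j 3 (Or.inr (Or.inl rfl))
    have z4 := X.hzI j 4 (Or.inr (Or.inr (Or.inl rfl)))
    have z5 := X.hzI j 5 (Or.inr (Or.inr (Or.inr rfl)))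
    interval_cases i
    · exact h2 p hp o1
    · exact h2 p hp o2
    · exact h2 p hp o3
    · exact h1.elim z3 z4
    · exact h1.elim z4 z5
    · rw [X.z_six j] at h1
      exact h1.elim z5 z0

theorem not_isDel (d : G.Dart) (h : R.face d ∉ X.K) : ¬ Uni91.IsDel I P d.fst d.snd :=
  fun h1 => X.not_del d h ⟨d.adj, h1.1, h1.2⟩

/-- Deleted darts have both faces in `K`. -/
theorem mem_K_of_del {d : G.Dart} (h : Del G I P d.fst d.snd) :
    R.face d ∈ X.K ∧ R.face d.symm ∈ X.K :=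
  ⟨by by_contra hc; exact X.not_del d hc h, by by_contra hc; exact X.not_del d.symm hc h.symm⟩

/-- The values on a created face of length four. -/
theorem z_vals (hd : VD G I P) (j : X.J) (θ M : ℝ) :
    (parV I P (X.z j).fst (X.z j).snd + parV I P (R.next (X.z j)).fst (R.next (X.z j)).snd +
      parV I P (R.next^[2] (X.z j)).fst (R.next^[2] (X.z j)).snd = 1) ∧
    (omV I P θ M (X.z j).fst (X.z j).snd = θ / 3 ∧
      omV I P θ M (R.next (X.z j)).fst (R.next (X.z j)).snd = θ / 3 ∧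
      omV I P θ M (R.next^[2] (X.z j)).fst (R.next^[2] (X.z j)).snd = θ / 3) ∧
    ∀ i, i = 3 ∨ i = 4 ∨ i = 5 →
      parV I P (R.next^[i] (X.z j)).fst (R.next^[i] (X.z j)).snd = 1 ∧
      omV I P θ M (R.next^[i] (X.z j)).fst (R.next^[i] (X.z j)).snd = θ := by
  have z0 := X.hzI j 0 (Or.inl rfl)
  have z3 := X.hzI j 3 (Or.inr (Or.inl rfl))
  have z4 := X.hzI j 4 (Or.inr (Or.inr (Or.inl rfl)))
  have z5 := X.hzI j 5 (Or.inr (Or.inr (Or.inr rfl)))
  have e0 : (X.z j).snd = (R.next (X.z j)).fst := (R.fst_next _).symm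
  have e1 : (R.next (X.z j)).snd = (R.next^[2] (X.z j)).fst := snd_iter R (X.z j) 1
  have e2 : (R.next^[2] (X.z j)).snd = (R.next^[3] (X.z j)).fst := snd_iter R (X.z j) 2
  refine ⟨?_, ?_, ?_⟩
  · rw [e0, e1, e2]
    rcases X.hzP j with h | h
    · obtain ⟨⟨p1, p2, p3⟩, -⟩ := path_vals hd h θ M
      rw [p1, p2, p3]
      norm_num
    · obtain ⟨⟨p1, p2, p3⟩, -⟩ := path_vals hd h θ M
      rw [Uni91.parV_symm, p3, Uni91.parV_symm I P (R.next (X.z j)).fst, p2,
        Uni91.parV_symm I P (R.next^[2] (X.z j)).fst, p1]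
      norm_num
  · rw [e0, e1, e2]
    rcases X.hzP j with h | h
    · exact (path_vals hd h θ M).2
    · obtain ⟨-, p1, p2, p3⟩ := path_vals hd h θ M
      exact ⟨(hd.omV_symm _ _ _ _).trans p3, (hd.omV_symm _ _ _ _).trans p2,
        (hd.omV_symm _ _ _ _).trans p1⟩
  · rintro i (rfl | rfl | rfl)
    · rw [snd_iter]
      exact ⟨Uni91.parV_kept hd z3 z4, Uni91.omV_kept hd z3 z4 θ M⟩
    · rw [snd_iter]
      exact ⟨Uni91.parV_kept hd z4 z5, Uni91.omV_kept hd z4 z5 θ M⟩
    · rw [snd_iter, X.z_six j]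
      exact ⟨Uni91.parV_kept hd z5 z0, Uni91.omV_kept hd z5 z0 θ M⟩

/-- The length in the new graph of a face outside `K`. -/
theorem sum_par (hd : VD G I P) {f : R.Face} (hf : f ∉ X.K) :
    ∑ d ∈ univ.filter (fun d : G.Dart => R.face d = f), parV I P d.fst d.snd = 6 ∨
      ∑ d ∈ univ.filter (fun d : G.Dart => R.face d = f), parV I P d.fst d.snd = 4 := by
  rcases not_mem_KF.1 hf with ⟨d0, rfl, h2, h3⟩ | ⟨j, rfl⟩
  · left
    rw [sum_congr rfl (g := fun _ => (1 : ℤ)) (fun d hd' => ?_), sum_six h2]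
    · norm_num
    · have h4 := (mem_filter.1 hd').2
      exact Uni91.parV_kept hd (h3 d h4) (snd_face h3 h4)
  · right
    obtain ⟨h1, -, h2⟩ := X.z_vals hd j 0 0
    rw [sum_six (X.hz j), h1, (h2 3 (Or.inl rfl)).1, (h2 4 (Or.inr (Or.inl rfl))).1,
      (h2 5 (Or.inr (Or.inr rfl))).1]
    norm_num

/-- The faces outside `K` are even in the new graph. -/
theorem par_even (hd : VD G I P) {f : R.Face} (hf : f ∉ X.K) :
    (2 : ℤ) ∣ ∑ d ∈ univ.filter (fun d : G.Dart => R.face d = f), parV I P d.fst d.snd := by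
  rcases X.sum_par hd hf with h | h
  · rw [h]; norm_num
  · rw [h]; norm_num

/-- The weight of a face outside `K`. -/
theorem sum_om_le (hd : VD G I P) {f : R.Face} (hf : f ∉ X.K) {θ M : ℝ} (hθ : 0 ≤ θ) :
    ∑ d ∈ univ.filter (fun d : G.Dart => R.face d = f), omV I P θ M d.fst d.snd ≤ 6 * θ := by
  rcases not_mem_KF.1 hf with ⟨d0, rfl, h2, h3⟩ | ⟨j, rfl⟩
  · rw [sum_congr rfl (g := fun _ => θ) (fun d hd' => ?_), sum_six h2]
    · linarith
    · have h4 := (mem_filter.1 hd').2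
      exact Uni91.omV_kept hd (h3 d h4) (snd_face h3 h4) θ M
  · obtain ⟨-, ⟨h1, h1', h1''⟩, h2⟩ := X.z_vals hd j θ M
    rw [sum_six (X.hz j), h1, h1', h1'', (h2 3 (Or.inl rfl)).2, (h2 4 (Or.inr (Or.inl rfl))).2,
      (h2 5 (Or.inr (Or.inr rfl))).2]
    linarith

/-- The faces outside `K` are even in the new graph: the form for charges. -/
theorem two_dvd_bV (hd : VD G I P) (hb : ∀ d : G.Dart, R.face d ≠ R.face d.symm) {f : R.Face}
    (hf : f ∉ X.K) : (2 : ℤ) ∣ bV R I P f := by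
  have h1 := Uni91.D_mod (lf R) (rf R) (fun e => parV I P e.1.fst e.1.snd) f
  rw [sum_cut_face hb (fun u v => parV I P u v) (fun u v => Uni91.parV_symm I P u v) f] at h1
  have h2 := dvd_add h1 (X.par_even hd hf)
  rwa [sub_add_cancel] at h2

/-- The weight of a face outside `K`: the form for cuts. -/
theorem sum_wV_le (hd : VD G I P) (hb : ∀ d : G.Dart, R.face d ≠ R.face d.symm) {f : R.Face}
    (hf : f ∉ X.K) (M0 : ℝ) : ∑ e ∈ cut (lf R) (rf R) {f}, wV I P 1 M0 e ≤ 6 := by
  have h1 := sum_cut_face hb (fun u v => omV I P 1 M0 u v) (fun u v => hd.omV_symm 1 M0 u v) f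
  have h2 := X.sum_om_le hd hf (θ := 1) (M := M0) zero_le_one
  unfold wV
  linarith

/-- Some face has to be covered. -/
theorem hKne (hP : R.Plane) (hcub : ∀ v, G.degree v = 3) : X.K.Nonempty := by
  obtain ⟨d, hd⟩ := exists_ne_six hP hcub
  exact ⟨R.face d, by by_contra hc; exact hd (X.hK6 d hc)⟩

/-- The faces of length five of the patterns are in `K`. -/
theorem hFK : X.F ⊆ X.K := by
  intro f hf
  by_contra hc
  have h1 := X.hδ f hf
  have h2 := X.hK6 (X.δ f) (by rw [h1]; exact hc)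
  rw [(X.hL f hf).five] at h2
  omega

/-- The two hexagons of a pattern are not in `K`. -/
theorem hKh {f : R.Face} (hf : f ∈ X.F) :
    R.face (X.δ f).symm ∉ X.K ∧ R.face (R.next (X.δ f)).symm ∉ X.K := by
  have h1 := X.hL f hf
  refine ⟨not_mem_KF.2 (Or.inl ⟨_, rfl, h1.hex1, fun x hx => ?_⟩),
    not_mem_KF.2 (Or.inl ⟨_, rfl, h1.hex2, fun x hx => ?_⟩)⟩
  · exact X.hFI f hf _ (mem_plV.2 ⟨x, rfl, Or.inr (Or.inl hx)⟩)
  · exact X.hFI f hf _ (mem_plV.2 ⟨x, rfl, Or.inr (Or.inr hx)⟩)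

/-- The edges of a face of length five of a pattern are kept. -/
theorem hkept {f : R.Face} (hf : f ∈ X.F) {e : Up G} (he : e ∈ cut (lf R) (rf R) {f}) :
    ¬ I e.1.fst ∧ ¬ I e.1.snd := by
  have key : ∀ x : G.Dart, R.face x = f → ¬ I x.fst ∧ ¬ I x.snd := by
    intro x hx
    have h0 : ∀ y : G.Dart, R.face y = f → ¬ I y.fst := fun y hy =>
      X.hFI f hf _ (mem_plV.2 ⟨y, rfl, Or.inl (by rw [hy, X.hδ f hf])⟩)
    exact ⟨h0 x hx, snd_face h0 hx⟩
  rw [Uni3.mem_cut'] at he
  simp only [mem_singleton] at he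
  have h1 : R.face e.1 = f ∨ R.face e.1.symm = f := by
    by_contra hc
    push Not at hc
    exact he ⟨fun h2 => absurd h2 hc.1, fun h2 => absurd h2 hc.2⟩
  rcases h1 with h1 | h1
  · exact key _ h1
  · exact (key _ h1).symm

end MidG

end Pool.Agent.Uni392
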