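import Mathlib
import Pool.Agent.Work.MP_392c8e_co_uni.Comb
import Pool.Agent.Work.MP_392c8e_co_uni.MidInB

/-!
# The combination, final form
-/

namespace Pool.Agent.Uni13

open Finset Pool.Agent.Sub392 Pool.Agent.Circ Pool.Agent.T392 Pool.Agent.Uni3 Pool.Agent.Uni97
open Pool.Agent.T1Red (newG Deg3 HasStrict)
open Pool.Agent.Uni91 (VD OnP ends omV parV wV bV IsDel omV_del D_eq_zero)
open Pool.Agent.Uni392 (StrictN MidIn MidG KF)

set_option linter.unusedSectionVars false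

variable {V : Type} [Fintype V] [DecidableEq V] {G : SimpleGraph V} [DecidableRel G.Adj]
  {R : Rot G} {I : V → Prop} {Q : List (V × List V × V)}

theorem isDel_eu {d : G.Dart} : IsDel I Q (eu d).1.fst (eu d).1.snd ↔ IsDel I Q d.fst d.snd := by
  rcases eu_or d with h | h
  · rw [h]
  · rw [h]
    exact isDel_symm

/-- **The combination.**  A strict colouring of the new graph gives a strict colouring with a
number of levels which depends only on the constant of the growth. -/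
theorem combG1 (X : MidG R I Q) {Cg : ℕ} (hCg : 1 ≤ Cg) (hg : Grow1 X Cg) (hP : R.Plane)
    (hcub : ∀ v, G.degree v = 3) (hd : VD G I Q) (hk : ∀ q ∈ Q, q.2.1.length ≤ 299)
    (hb : ∀ d, R.face d ≠ R.face d.symm) (hstr : HasStrict (newG G I (ends Q))) :
    StrictN (newG G I (ends Q)) (3000000 * Cg + 1) := by
  classical
  have hCg1 : (1 : ℝ) ≤ Cg := by exact_mod_cast hCg
  have hCg0 : (0 : ℝ) < Cg := by linarith
  -- the constants
  obtain ⟨e, heC⟩ : ∃ e : ℝ, 1000000 * (e * (Cg : ℝ)) = 1 :=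
    ⟨1 / (1000000 * Cg), by field_simp⟩
  have he0 : 0 < e := by
    by_contra h
    push Not at h
    have := mul_nonpos_of_nonpos_of_nonneg h hCg0.le
    linarith
  have he1 : e ≤ 1 / 1000000 := by nlinarith
  obtain ⟨u, hu⟩ : ∃ u : ℝ, u = 1 / 5000 := ⟨_, rfl⟩
  have hu0 : 0 ≤ u := by rw [hu]; norm_num
  obtain ⟨θ, hθ⟩ : ∃ θ : ℝ, θ = 1 / 3 - e := ⟨_, rfl⟩
  have hθ4 : 1 / 4 < θ := by rw [hθ]; linarith
  have hθ3 : θ ≤ 1 / 3 := by rw [hθ]; linarith
  have hθ0 : 0 ≤ θ := by linarith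
  -- the weights
  set P := pentsOf X.F X.δ hcub X.hδ X.hL with hPdef
  have hlow : ∀ x : Up G, 1 / 1200 ≤ wV I Q θ 2 x := by
    intro x
    unfold wV
    refine hd.le_omV hk hθ0 ?_ (by norm_num) _ _
    push_cast
    linarith
  have hom1 : ∀ x, wV I Q θ 2 x - 2 * u ≤ P.om (wV I Q θ 2) u x := le_om P _ hu0
  have hpos : ∀ x, 0 < P.om (wV I Q θ 2) u x := by
    intro x
    have h1 := hlow x
    have h2 := hom1 x
    rw [hu] at h2
    rw [hu]
    linarith
  have hKd : ∀ d : G.Dart, IsDel I Q d.fst d.snd → R.face d ∈ KF R I X.z := by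
    intro d h
    by_contra hc
    exact X.not_isDel d hc h
  -- the minimal family
  obtain ⟨p, hp, hmin⟩ := exists_min (fs R) (ft R) (P.om (wV I Q θ 2) u) (KF R I X.z)
    (X.hKne hP hcub)
  have hnb : ∀ d, p (R.face d) = none → R.face d.symm ≠ R.face d := fun d _ h => hb d h.symm
  have hdel := del_not_cr (I := I) (Q := Q) (fun x => (hpos x).le) hp hmin (by
    intro d h
    have h1 := hom1 (eu d)
    have h2 : wV I Q θ 2 (eu d) = 2 := by
      obtain ⟨h3, h4⟩ := isDel_eu.2 h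
      unfold wV
      exact omV_del h4 h3 θ 2
    rw [h2, hu] at h1
    rw [hu]
    linarith) hKd
  have hdel' : ∀ d : G.Dart, Cr R (qr p) d → ¬ IsDel I Q d.fst d.snd := fun d h h' =>
    h (qr_congr (hdel d h').1 (hdel d h').2)
  -- the potential
  obtain ⟨y, q, hq, hy⟩ := hd.exists_pot_lt hstr (M := 19) (by norm_num)
  have hD0 : ∀ z, z ∉ KF R I X.z → MP974d84.D (Uni91.lf R) (Uni91.rf R) q z = 0 :=
    fun z hz => D_eq_zero R hq hy (X.two_dvd_bV hd hb hz) (X.sum_wV_le hd hb hz 19)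
  -- the components
  have hcomp : ∀ C, IsComp R (qr p) C → (mixF R (qr p) C X.F X.δ).card ≤ 126 ∧
      ∑ x ∈ crE R p C, P.om (wV I Q θ 2) u x * cc p (R.face x.1) (R.face x.1.symm) ≤
        20008 * (Cg : ℝ) := fun C hC =>
    component X hcub hd hb X.hFK (fun f hf => X.hKh hf) (fun d h => X.hK6 d h)
      hθ hu he0 hCg hg heC hpos hp hmin hdel hC
  -- the weights of the potential against the weights of the family
  have hlam : ∀ x : Up G, Cr R (qr p) x.1 →
      omV I Q 1 19 x.1.fst x.1.snd ≤ 8 * P.om (wV I Q θ 2) u x := by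
    intro x hx
    have h1 := hdel' x.1 hx
    have h2 := omV_one_ge hk h1 19
    have h3 : wV I Q θ 2 x = θ * omV I Q 1 19 x.1.fst x.1.snd := omV_mul h1 θ 2 19
    have h4 := hom1 x
    rw [h3] at h4
    have h5 : 2 * u = 1 / 2500 := by rw [hu]; norm_num
    rw [h5] at h4
    norm_num at h2
    have h6 : 1 / 4 * omV I Q 1 19 x.1.fst x.1.snd ≤ θ * omV I Q 1 19 x.1.fst x.1.snd :=
      mul_le_mul_of_nonneg_right hθ4.le (by linarith)
    linarith
  have hW : ∀ C, IsComp R (qr p) C → ∑ x ∈ crE R p C, omV I Q 1 19 x.1.fst x.1.snd *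
      cc p (R.face x.1) (R.face x.1.symm) ≤ 3 * (60000 * (Cg : ℝ)) := by
    intro C hC
    have h1 := (hcomp C hC).2
    have h2 : ∑ x ∈ crE R p C, omV I Q 1 19 x.1.fst x.1.snd *
        cc p (R.face x.1) (R.face x.1.symm) ≤ 8 * ∑ x ∈ crE R p C,
        P.om (wV I Q θ 2) u x * cc p (R.face x.1) (R.face x.1.symm) := by
      rw [mul_sum]
      refine sum_le_sum fun x hx => ?_
      have h3 := hlam x (mem_crE.1 hx).1
      have h4 : 0 ≤ cc p (R.face x.1) (R.face x.1.symm) := Uni3.cc_nonneg _ _ _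
      calc omV I Q 1 19 x.1.fst x.1.snd * cc p (R.face x.1) (R.face x.1.symm)
          ≤ (8 * P.om (wV I Q θ 2) u x) * cc p (R.face x.1) (R.face x.1.symm) :=
            mul_le_mul_of_nonneg_right h3 h4
        _ = 8 * (P.om (wV I Q θ 2) u x * cc p (R.face x.1) (R.face x.1.symm)) := by ring
    refine h2.trans ?_
    calc 8 * ∑ x ∈ crE R p C, P.om (wV I Q θ 2) u x * cc p (R.face x.1) (R.face x.1.symm)
        ≤ 8 * (20008 * (Cg : ℝ)) := mul_le_mul_of_nonneg_left h1 (by norm_num)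
      _ ≤ 3 * (60000 * (Cg : ℝ)) := by linarith
  set F' := X.F \ ownA R (qr p) X.F X.δ with hF'
  have hF'F : F' ⊆ X.F := sdiff_subset
  have hloss : ∀ A, IsUn p A → ∀ C, IsComp R (qr p) C → (cutC R p A C).Nonempty →
      (1 / 3 - e) * ∑ x ∈ cutC R p A C, omV I Q 1 19 x.1.fst x.1.snd ≤
        ∑ x ∈ cutC R p A C, (P.mono hF'F).om (wV I Q θ 2) u x + 1 / 6 := by
    intro A _ C hC _
    have h1 : ∀ x ∈ cutC R p A C, Cr R (qr p) x.1 ∧ x.1.fst ∈ C := fun x hx =>
      mem_crE.1 (mem_cutC.1 hx).2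
    have h2 := level_loss hcub X.hδ X.hL (om := wV I Q θ 2) hu0 hC hF'F
      (fun f hf => (mem_sdiff.1 hf).2) h1
    have h3 : (1 / 3 - e) * ∑ x ∈ cutC R p A C, omV I Q 1 19 x.1.fst x.1.snd =
        ∑ x ∈ cutC R p A C, wV I Q θ 2 x := by
      rw [mul_sum]
      refine sum_congr rfl fun x hx => ?_
      unfold wV
      rw [← hθ, omV_mul (hdel' x.1 (h1 x hx).1) θ 2 19]
    have h4 : ((mixF R (qr p) C X.F X.δ).card : ℝ) ≤ 126 := by exact_mod_cast (hcomp C hC).1
    rw [h3]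
    have h5 : 3 * u * ((mixF R (qr p) C X.F X.δ).card : ℝ) ≤ 1 / 6 := by
      rw [hu]
      linarith
    linarith
  have hlev : ∀ A, IsUn p A →
      ∑ f ∈ A, ((MP974d84.D (Uni91.lf R) (Uni91.rf R) q f : ℤ) : ℝ) ≤
      ∑ x ∈ cut (Uni91.lf R) (Uni91.rf R) A, (P.mono hF'F).om (wV I Q θ 2) u x := by
    intro A hA
    have h1 := level_VD hd R hp hnb (fun d h h' => hdel' d h h') y q hq (M := 19)
      (by norm_num) (fun x _ => hy x) (fun z hz => hD0 z fun h => hp.1 z h hz)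
      ((P.mono hF'F).om (wV I Q θ 2) u) (e := e) (W := 60000 * Cg) he0.le (by linarith)
      (by nlinarith) hW hloss hA
    rw [Int.cast_sum] at h1
    exact (le_abs_self _).trans h1
  -- the end
  have hH : 2 / 3 < (1 / 3 - (1 + θ) / 4) * (((3000000 * Cg : ℕ) : ℝ) + 1) := by
    rw [hθ]
    push_cast
    nlinarith
  exact hd.strictN_of_level R hP P hu0 (by rw [hu]; linarith) hθ4 hθ3 hk (by
      rw [hu]
      push_cast
      linarith) (by rw [hu]; norm_num) hH (fun f hf e he => X.hkept hf he) X.hFK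
    (fun f hf => X.two_dvd_bV hd hb hf) (fun f hf => X.sum_wV_le hd hb hf 19) hp hmin hF'F
    (own_drop hcub X.hδ X.hL hpos X.hFK (fun f hf => X.hKh hf) hp hmin) hq hy hlev

/-- The combination without the additive constant. -/
theorem combG (X : MidG R I Q) {Cg : ℕ} (hCg : 1 ≤ Cg) (hg : X.Grow Cg) (hP : R.Plane)
    (hcub : ∀ v, G.degree v = 3) (hd : VD G I Q) (hk : ∀ q ∈ Q, q.2.1.length ≤ 299)
    (hb : ∀ d, R.face d ≠ R.face d.symm) (hstr : HasStrict (newG G I (ends Q))) :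
    StrictN (newG G I (ends Q)) (3000000 * Cg + 1) :=
  combG1 X hCg (grow1_of_grow hg) hP hcub hd hk hb hstr

/-- The combination with the local conditions. -/
theorem comb {D N0 : ℕ} (X : MidIn R I Q D N0) (hP : R.Plane) (hcub : ∀ v, G.degree v = 3)
    (hd : VD G I Q) (hdeg : Deg3 (newG G I (ends Q))) (hk : ∀ q ∈ Q, q.2.1.length ≤ 299)
    (hb : ∀ d, R.face d ≠ R.face d.symm) (hstr : HasStrict (newG G I (ends Q))) :
    StrictN (newG G I (ends Q)) (3000000 * (93003 * 4 ^ (D + 6) * (N0 + 1) + 72003) + 1) :=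
  combG X.toMidG (Nat.le_add_left_of_le (by norm_num)) (X.grow hP hcub hd hdeg) hP hcub hd hk hb
    hstr

end Pool.Agent.Uni13
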