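import Mathlib
import Pool.Agent.Work.MP_392c8e_co_uni.MidInB

/-!
# The input of the middle of the construction, with faces of length four

As `MidG`, but the graph may have faces of length four outside the surgery.
-/

set_option autoImplicit false
set_option linter.unusedSectionVars false

namespace Pool.Agent.Uni392

open Finset Pool.Agent.Sub392 Pool.Agent.T392 Pool.Agent.Disch392
open Pool.Agent.Uni3 (Cr IsComp crT crTwo qr L7 plV PF mem_plV fs ft eu eu_or eu_up eu_symm)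
open Pool.Agent.Uni91 (VD ends lf rf wV bV omV parV OnP IsFst full Cs)
open Pool.Agent.T1Red (newG Deg3)
open Pool.Agent.Circ Pool.Agent.OddFlow

variable {V : Type} [Fintype V] [DecidableEq V] {G : SimpleGraph V} [DecidableRel G.Adj]
  {R : Rot G} {I : V → Prop} {P : List (V × List V × V)}

/-- The faces which may be covered: all faces but the hexagons outside the interiors, the
hexagons `z j` and the faces of length four in `Q`. -/
noncomputable def KQ (R : Rot G) (I : V → Prop) {J : Type} (z : J → G.Dart)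
    (Q : Finset R.Face) : Finset R.Face := by
  classical
  exact univ.filter fun f => ¬ (Hex0 R I f ∨ (∃ j, R.face (z j) = f) ∨ f ∈ Q)

theorem not_mem_KQ {J : Type} {z : J → G.Dart} {Q : Finset R.Face} {f : R.Face} :
    f ∉ KQ R I z Q ↔ Hex0 R I f ∨ (∃ j, R.face (z j) = f) ∨ f ∈ Q := by
  classical
  unfold KQ
  simp only [mem_filter, mem_univ, true_and, not_not]

/-- **The patterns of a virtual surgery** with interior `I` and paths `P`; `Q4` is a set of faces
of length four. -/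
structure MidQ (R : Rot G) (I : V → Prop) (P : List (V × List V × V)) where
  /-- the faces of length five of the patterns -/
  F : Finset R.Face
  /-- their darts: the two hexagons are across `δ f` and the next dart -/
  δ : R.Face → G.Dart
  hδ : ∀ f ∈ F, R.face (δ f) = f
  hL : ∀ f ∈ F, L7 R (δ f)
  hFI : ∀ f ∈ F, ∀ v ∈ plV R (δ f), ¬ I v
  /-- the places which create a face of length four -/
  J : Type
  /-- there are finitely many -/
  fJ : Fintype J
  /-- the first dart of the path on the hexagon -/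
  z : J → G.Dart
  hz : ∀ j, sz R (z j) = 6
  hzP : ∀ j, ((z j).fst, [(R.next (z j)).fst, (R.next^[2] (z j)).fst],
      (R.next^[3] (z j)).fst) ∈ P ∨
    ((R.next^[3] (z j)).fst, [(R.next^[2] (z j)).fst, (R.next (z j)).fst], (z j).fst) ∈ P
  hzI : ∀ j, ∀ i, i = 0 ∨ i = 3 ∨ i = 4 ∨ i = 5 → ¬ I (R.next^[i] (z j)).fst
  hzinj : ∀ i j, (R.next (z i)).fst = (R.next (z j)).fst → i = j
  /-- the faces of length four outside the surgery -/
  Q4 : Finset R.Face
  hQ4 : ∀ g ∈ Q4, ∀ d, R.face d = g → sz R d = 4 ∧ ¬ I d.fst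
  /-- the sets of the patterns -/
  S : ({f // f ∈ F} ⊕ J) ⊕ {g // g ∈ Q4} → Finset V
  hSF : ∀ f : {f // f ∈ F}, plV R (δ f.1) ⊆ S (Sum.inl (Sum.inl f))
  hSJ : ∀ j : J, ∀ i, i = 0 ∨ i = 3 ∨ i = 4 ∨ i = 5 →
    (R.next^[i] (z j)).fst ∈ S (Sum.inl (Sum.inr j))
  hSQ : ∀ (g : {g // g ∈ Q4}) d, R.face d = g.1 → d.fst ∈ S (Sum.inr g)

namespace MidQ

variable (X : MidQ R I P)

/-- The faces which may be covered. -/
noncomputable def K : Finset R.Face := KQ R I X.z X.Q4

theorem face_cases {d : G.Dart} (h : R.face d ∉ X.K) :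
    ((sz R d = 6 ∨ R.face d ∈ X.Q4) ∧ ∀ x, R.face x = R.face d → ¬ I x.fst) ∨
      ∃ j, ∃ i < 6, d = R.next^[i] (X.z j) := by
  rcases not_mem_KQ.1 h with ⟨d', h1, h2, h3⟩ | ⟨j, hj⟩ | h1
  · left
    refine ⟨Or.inl ?_, h3⟩
    unfold sz at h2 ⊢
    rw [← h1]
    exact h2
  · right
    have h4 : d ∈ univ.filter fun d : G.Dart => R.face d = R.face (X.z j) := by
      rw [mem_filter]
      exact ⟨mem_univ _, hj.symm⟩
    rw [filter_six (X.hz j), mem_image] at h4
    obtain ⟨i, hi, hi'⟩ := h4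
    exact ⟨j, i, mem_range.1 hi, hi'.symm⟩
  · exact Or.inl ⟨Or.inr h1, fun x hx => (X.hQ4 _ h1 x hx).2⟩

/-- The faces outside `K` have length six or four. -/
theorem hK6 (d : G.Dart) (h : R.face d ∉ X.K) : sz R d = 6 ∨ R.face d ∈ X.Q4 := by
  rcases X.face_cases h with h1 | ⟨j, i, -, rfl⟩
  · exact h1.1
  · left
    rw [sz_iter, X.hz j]

/-- The edges of the path on a created face of length four. -/
theorem onP (j : X.J) : ∃ p ∈ P, OnP p (X.z j).fst (R.next (X.z j)).fst ∧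
    OnP p (R.next (X.z j)).fst (R.next^[2] (X.z j)).fst ∧
    OnP p (R.next^[2] (X.z j)).fst (R.next^[3] (X.z j)).fst := by
  rcases X.hzP j with h | h
  · exact ⟨_, h, Or.inl ⟨[], [_, _], rfl⟩, Or.inl ⟨[_], [_], rfl⟩, Or.inl ⟨[_, _], [], rfl⟩⟩
  · exact ⟨_, h, Or.inr ⟨[_, _], [], rfl⟩, Or.inr ⟨[_], [_], rfl⟩, Or.inr ⟨[], [_, _], rfl⟩⟩

theorem z_six (j : X.J) : (R.next^[5 + 1] (X.z j)).fst = (X.z j).fst := by
  have h : R.next^[6] (X.z j) = X.z j := by rw [← X.hz j]; exact next_sz R _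
  rw [h]

/-- The darts of the faces outside `K` are not deleted. -/
theorem not_del (d : G.Dart) (h : R.face d ∉ X.K) : ¬ Del G I P d.fst d.snd := by
  rintro ⟨-, h1, h2⟩
  rcases X.face_cases h with h3 | ⟨j, i, hi, rfl⟩
  · rcases h1 with h1 | h1
    · exact h3.2 d rfl h1
    · exact snd_face h3.2 rfl h1
  · obtain ⟨p, hp, o1, o2, o3⟩ := X.onP j
    rw [snd_iter] at h1 h2
    have z0 := X.hzI j 0 (Or.inl rfl)
    have z3 := X.hzI j 3 (Or.inr (Or.inl rfl))
    have z4 := X.hzI j 4 (Or.inr (Or.inr (Or.inl rfl)))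
    have z5 := X.hzI j 5 (Or.inr (Or.inr (Or.inr rfl)))
    interval_cases i
    · exact h2 p hp o1
    · exact h2 p hp o2
    · exact h2 p hp o3
    · exact h1.elim z3 z4
    · exact h1.elim z4 z5
    · rw [X.z_six j] at h1
      exact h1.elim z5 z0

theorem not_isDel (d : G.Dart) (h : R.face d ∉ X.K) : ¬ Uni91.IsDel I P d.fst d.snd :=
  fun h1 => X.not_del d h ⟨d.adj, h1.1, h1.2⟩

/-- Deleted darts have both faces in `K`. -/
theorem mem_K_of_del {d : G.Dart} (h : Del G I P d.fst d.snd) :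
    R.face d ∈ X.K ∧ R.face d.symm ∈ X.K :=
  ⟨by by_contra hc; exact X.not_del d hc h, by by_contra hc; exact X.not_del d.symm hc h.symm⟩

/-- The values on a created face of length four. -/
theorem z_vals (hd : VD G I P) (j : X.J) (θ M : ℝ) :
    (parV I P (X.z j).fst (X.z j).snd + parV I P (R.next (X.z j)).fst (R.next (X.z j)).snd +
      parV I P (R.next^[2] (X.z j)).fst (R.next^[2] (X.z j)).snd = 1) ∧
    (omV I P θ M (X.z j).fst (X.z j).snd = θ / 3 ∧
      omV I P θ M (R.next (X.z j)).fst (R.next (X.z j)).snd = θ / 3 ∧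
      omV I P θ M (R.next^[2] (X.z j)).fst (R.next^[2] (X.z j)).snd = θ / 3) ∧
    ∀ i, i = 3 ∨ i = 4 ∨ i = 5 →
      parV I P (R.next^[i] (X.z j)).fst (R.next^[i] (X.z j)).snd = 1 ∧
      omV I P θ M (R.next^[i] (X.z j)).fst (R.next^[i] (X.z j)).snd = θ := by
  have z0 := X.hzI j 0 (Or.inl rfl)
  have z3 := X.hzI j 3 (Or.inr (Or.inl rfl))
  have z4 := X.hzI j 4 (Or.inr (Or.inr (Or.inl rfl)))
  have z5 := X.hzI j 5 (Or.inr (Or.inr (Or.inr rfl)))
  have e0 : (X.z j).snd = (R.next (X.z j)).fst := (R.fst_next _).symm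
  have e1 : (R.next (X.z j)).snd = (R.next^[2] (X.z j)).fst := snd_iter R (X.z j) 1
  have e2 : (R.next^[2] (X.z j)).snd = (R.next^[3] (X.z j)).fst := snd_iter R (X.z j) 2
  refine ⟨?_, ?_, ?_⟩
  · rw [e0, e1, e2]
    rcases X.hzP j with h | h
    · obtain ⟨⟨p1, p2, p3⟩, -⟩ := path_vals hd h θ M
      rw [p1, p2, p3]
      norm_num
    · obtain ⟨⟨p1, p2, p3⟩, -⟩ := path_vals hd h θ M
      rw [Uni91.parV_symm, p3, Uni91.parV_symm I P (R.next (X.z j)).fst, p2,
        Uni91.parV_symm I P (R.next^[2] (X.z j)).fst, p1]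
      norm_num
  · rw [e0, e1, e2]
    rcases X.hzP j with h | h
    · exact (path_vals hd h θ M).2
    · obtain ⟨-, p1, p2, p3⟩ := path_vals hd h θ M
      exact ⟨(hd.omV_symm _ _ _ _).trans p3, (hd.omV_symm _ _ _ _).trans p2,
        (hd.omV_symm _ _ _ _).trans p1⟩
  · rintro i (rfl | rfl | rfl)
    · rw [snd_iter]
      exact ⟨Uni91.parV_kept hd z3 z4, Uni91.omV_kept hd z3 z4 θ M⟩
    · rw [snd_iter]
      exact ⟨Uni91.parV_kept hd z4 z5, Uni91.omV_kept hd z4 z5 θ M⟩
    · rw [snd_iter, X.z_six j]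
      exact ⟨Uni91.parV_kept hd z5 z0, Uni91.omV_kept hd z5 z0 θ M⟩

/-- The faces outside `K`: the hexagons and faces of length four outside the surgery, and the
created faces of length four. -/
theorem face_of {f : R.Face} (hf : f ∉ X.K) :
    (((univ.filter fun d : G.Dart => R.face d = f).card = 6 ∨ (f ∈ X.Q4 ∧
      (univ.filter fun d : G.Dart => R.face d = f).card = 4)) ∧
      ∀ d, R.face d = f → ¬ I d.fst ∧ ¬ I d.snd) ∨ ∃ j, f = R.face (X.z j) := by
  rcases not_mem_KQ.1 hf with ⟨d0, rfl, h2, h3⟩ | ⟨j, rfl⟩ | h1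
  · left
    refine ⟨Or.inl ?_, fun d hd => ⟨h3 d hd, snd_face h3 hd⟩⟩
    unfold sz Rot.size at h2
    exact h2
  · exact Or.inr ⟨j, rfl⟩
  · left
    have h3 : ∀ x, R.face x = f → ¬ I x.fst := fun x hx => (X.hQ4 f h1 x hx).2
    obtain ⟨d0, hd0⟩ := R.face_surj f
    have h4 := (X.hQ4 f h1 d0 hd0).1
    unfold sz Rot.size at h4
    rw [hd0] at h4
    exact ⟨Or.inr ⟨h1, h4⟩, fun d hd => ⟨h3 d hd, snd_face h3 hd⟩⟩

/-- The length in the new graph of a face outside `K`. -/
theorem sum_par (hd : VD G I P) {f : R.Face} (hf : f ∉ X.K) :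
    ∑ d ∈ univ.filter (fun d : G.Dart => R.face d = f), parV I P d.fst d.snd = 6 ∨
      ∑ d ∈ univ.filter (fun d : G.Dart => R.face d = f), parV I P d.fst d.snd = 4 := by
  rcases X.face_of hf with ⟨h1, h2⟩ | ⟨j, rfl⟩
  · rw [sum_congr rfl (g := fun _ => (1 : ℤ)) (fun d hd' => ?_), sum_const]
    · rcases h1 with h1 | ⟨-, h1⟩
      · left
        rw [h1]
        norm_num
      · right
        rw [h1]
        norm_num
    · have h4 := h2 d (mem_filter.1 hd').2
      exact Uni91.parV_kept hd h4.1 h4.2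
  · right
    obtain ⟨h1, -, h2⟩ := X.z_vals hd j 0 0
    rw [sum_six (X.hz j), h1, (h2 3 (Or.inl rfl)).1, (h2 4 (Or.inr (Or.inl rfl))).1,
      (h2 5 (Or.inr (Or.inr rfl))).1]
    norm_num

/-- The faces outside `K` are even in the new graph. -/
theorem par_even (hd : VD G I P) {f : R.Face} (hf : f ∉ X.K) :
    (2 : ℤ) ∣ ∑ d ∈ univ.filter (fun d : G.Dart => R.face d = f), parV I P d.fst d.snd := by
  rcases X.sum_par hd hf with h | h
  · rw [h]; norm_num
  · rw [h]; norm_num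

/-- The weight of a face outside `K`. -/
theorem sum_om_le (hd : VD G I P) {f : R.Face} (hf : f ∉ X.K) {θ M : ℝ} (hθ : 0 ≤ θ) :
    ∑ d ∈ univ.filter (fun d : G.Dart => R.face d = f), omV I P θ M d.fst d.snd ≤ 6 * θ := by
  rcases X.face_of hf with ⟨h1, h2⟩ | ⟨j, rfl⟩
  · rw [sum_congr rfl (g := fun _ => θ) (fun d hd' => ?_), sum_const, nsmul_eq_mul]
    · rcases h1 with h1 | ⟨-, h1⟩
      · rw [h1]
        norm_num
      · rw [h1]
        push_cast
        linarith
    · have h4 := h2 d (mem_filter.1 hd').2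
      exact Uni91.omV_kept hd h4.1 h4.2 θ M
  · obtain ⟨-, ⟨h1, h1', h1''⟩, h2⟩ := X.z_vals hd j θ M
    rw [sum_six (X.hz j), h1, h1', h1'', (h2 3 (Or.inl rfl)).2, (h2 4 (Or.inr (Or.inl rfl))).2,
      (h2 5 (Or.inr (Or.inr rfl))).2]
    linarith

/-- The faces outside `K` are even in the new graph: the form for charges. -/
theorem two_dvd_bV (hd : VD G I P) (hb : ∀ d : G.Dart, R.face d ≠ R.face d.symm) {f : R.Face}
    (hf : f ∉ X.K) : (2 : ℤ) ∣ bV R I P f := by
  have h1 := Uni91.D_mod (lf R) (rf R) (fun e => parV I P e.1.fst e.1.snd) f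
  rw [sum_cut_face hb (fun u v => parV I P u v) (fun u v => Uni91.parV_symm I P u v) f] at h1
  have h2 := dvd_add h1 (X.par_even hd hf)
  rwa [sub_add_cancel] at h2

/-- The weight of a face outside `K`: the form for cuts. -/
theorem sum_wV_le (hd : VD G I P) (hb : ∀ d : G.Dart, R.face d ≠ R.face d.symm) {f : R.Face}
    (hf : f ∉ X.K) (M0 : ℝ) : ∑ e ∈ cut (lf R) (rf R) {f}, wV I P 1 M0 e ≤ 6 := by
  have h1 := sum_cut_face hb (fun u v => omV I P 1 M0 u v) (fun u v => hd.omV_symm 1 M0 u v) f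
  have h2 := X.sum_om_le hd hf (θ := 1) (M := M0) zero_le_one
  unfold wV
  linarith

/-- The faces of length five of the patterns are in `K`. -/
theorem hFK : X.F ⊆ X.K := by
  intro f hf
  by_contra hc
  have h1 := X.hδ f hf
  have h5 := (X.hL f hf).five
  rcases X.hK6 (X.δ f) (by rw [h1]; exact hc) with h2 | h2
  · omega
  · have := (X.hQ4 _ h2 _ rfl).1
    omega

/-- The two hexagons of a pattern are not in `K`. -/
theorem hKh {f : R.Face} (hf : f ∈ X.F) :
    R.face (X.δ f).symm ∉ X.K ∧ R.face (R.next (X.δ f)).symm ∉ X.K := by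
  have h1 := X.hL f hf
  refine ⟨not_mem_KQ.2 (Or.inl ⟨_, rfl, h1.hex1, fun x hx => ?_⟩),
    not_mem_KQ.2 (Or.inl ⟨_, rfl, h1.hex2, fun x hx => ?_⟩)⟩
  · exact X.hFI f hf _ (mem_plV.2 ⟨x, rfl, Or.inr (Or.inl hx)⟩)
  · exact X.hFI f hf _ (mem_plV.2 ⟨x, rfl, Or.inr (Or.inr hx)⟩)

/-- The edges of a face of length five of a pattern are kept. -/
theorem hkept {f : R.Face} (hf : f ∈ X.F) {e : Up G} (he : e ∈ cut (lf R) (rf R) {f}) :
    ¬ I e.1.fst ∧ ¬ I e.1.snd := by
  have key : ∀ x : G.Dart, R.face x = f → ¬ I x.fst ∧ ¬ I x.snd := by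
    intro x hx
    have h0 : ∀ y : G.Dart, R.face y = f → ¬ I y.fst := fun y hy =>
      X.hFI f hf _ (mem_plV.2 ⟨y, rfl, Or.inl (by rw [hy, X.hδ f hf])⟩)
    exact ⟨h0 x hx, snd_face h0 hx⟩
  rw [Uni3.mem_cut'] at he
  simp only [mem_singleton] at he
  have h1 : R.face e.1 = f ∨ R.face e.1.symm = f := by
    by_contra hc
    push Not at hc
    exact he ⟨fun h2 => absurd h2 hc.1, fun h2 => absurd h2 hc.2⟩
  rcases h1 with h1 | h1
  · exact key _ h1
  · exact (key _ h1).symm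

open Classical in
/-- **Linear growth of the components** of the crossing edges. -/
def Grow (X : MidQ R I P) (Cg : ℕ) : Prop :=
  letI := X.fJ
  ∀ p : R.Face → Option R.Face,
    (∀ d : G.Dart, Del G I P d.fst d.snd → qr p (R.face d) = qr p (R.face d.symm)) →
    (∀ f, f ∉ KQ R I X.z X.Q4 → p f ≠ none →
      ∃ d, R.face d = f ∧ qr p (R.face d) = qr p (R.face d.symm)) →
    ∀ C : Finset V, IsComp R (qr p) C →
      ((crT R (qr p) C).filter fun c => p c = some c).card ≤
        Cg * (((crTwo R (qr p) C).filter fun v => ¬ Inn P v).card +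
          (univ.filter fun i => X.S i ⊆ Us R (qr p) C).card + 1)

end MidQ

/-- No faces of length four. -/
def MidG.toQ (X : MidG R I P) : MidQ R I P where
  F := X.F
  δ := X.δ
  hδ := X.hδ
  hL := X.hL
  hFI := X.hFI
  J := X.J
  fJ := X.fJ
  z := X.z
  hz := X.hz
  hzP := X.hzP
  hzI := X.hzI
  hzinj := X.hzinj
  Q4 := ∅
  hQ4 := fun g hg => absurd hg (notMem_empty g)
  S := Sum.elim X.S fun g => absurd g.2 (notMem_empty g.1)
  hSF := X.hSF
  hSJ := X.hSJ
  hSQ := fun g => absurd g.2 (notMem_empty g.1)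

theorem MidG.toQ_K (X : MidG R I P) : KQ R I X.toQ.z X.toQ.Q4 = KF R I X.z := by
  classical
  ext f
  have h1 : f ∉ KQ R I X.toQ.z X.toQ.Q4 ↔ f ∉ KF R I X.z := by
    rw [not_mem_KQ, not_mem_KF]
    constructor
    · rintro (h | h | h)
      · exact Or.inl h
      · exact Or.inr h
      · exact absurd h (notMem_empty f)
    · rintro (h | h)
      · exact Or.inl h
      · exact Or.inr (Or.inl h)
  exact not_iff_not.1 h1

theorem MidG.Grow.toQ {X : MidG R I P} {Cg : ℕ} (h : X.Grow Cg) : X.toQ.Grow Cg := by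
  classical
  let _ : Fintype X.J := X.fJ
  let _ : Fintype X.toQ.J := X.fJ
  intro p hdel hcon C hC
  have hcon' : ∀ f, f ∉ KF R I X.z → p f ≠ none →
      ∃ d, R.face d = f ∧ qr p (R.face d) = qr p (R.face d.symm) := by
    intro f hf
    exact hcon f (by rw [X.toQ_K]; exact hf)
  refine (h p hdel hcon' C hC).trans (Nat.mul_le_mul_left _ ?_)
  refine Nat.add_le_add_right (Nat.add_le_add_left ?_ _) 1
  refine card_le_card_of_injOn (fun i : {f // f ∈ X.F} ⊕ X.J =>
    (Sum.inl i : ({f // f ∈ X.toQ.F} ⊕ X.toQ.J) ⊕ {g // g ∈ X.toQ.Q4})) ?_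
    (fun _ _ _ _ hij => Sum.inl.inj hij)
  intro i hi
  have hi' := (mem_filter.1 (mem_coe.1 hi)).2
  exact mem_coe.2 (mem_filter.2 ⟨mem_univ _, hi'⟩)

end Pool.Agent.Uni392
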