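import Mathlib
import Pool.Agent.Work.MP_392c8e_co_uni.Comb
import Pool.Agent.Work.MP_392c8e_co_uni.MidQ

/-!
# The combination with faces of length four
-/

namespace Pool.Agent.Uni13

open Finset Pool.Agent.Sub392 Pool.Agent.Circ Pool.Agent.T392 Pool.Agent.Uni3 Pool.Agent.Uni97
open Pool.Agent.T1Red (newG Deg3 HasStrict)
open Pool.Agent.Uni91 (VD OnP ends omV parV wV bV IsDel omV_del ZC QC N2 D_eq_zero)
open Pool.Agent.Uni392 (StrictN Steps NearG Us mem_Us Del Inn MidQ KQ not_mem_KQ)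

set_option linter.unusedSectionVars false

variable {V : Type} [Fintype V] [DecidableEq V] {G : SimpleGraph V} [DecidableRel G.Adj]
  {R : Rot G} {I : V → Prop} {Q : List (V × List V × V)}

/-- **The created hexagons of a component.** -/
theorem two_mul_card_leQ (X : MidQ R I Q) (hcub : ∀ v, G.degree v = 3)
    (hd : VD G I Q) {om : Up G → ℝ} (hpos : ∀ e, 0 < om e) {p : R.Face → Option R.Face}
    (hp : Adm (KQ R I X.z X.Q4) p)
    (hmin : ∀ q, Adm (KQ R I X.z X.Q4) q → phi (fs R) (ft R) om (KQ R I X.z X.Q4) p ≤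
      phi (fs R) (ft R) om (KQ R I X.z X.Q4) q)
    (hdel : ∀ d : G.Dart, IsDel I Q d.fst d.snd → p (R.face d) = p (R.face d.symm) ∧
      p (R.face d) ≠ none) {C : Finset V} (hC : IsComp R (qr p) C) (J' : Finset X.J)
    (hJ : ∀ j ∈ J', X.S (Sum.inl (Sum.inr j)) ⊆ Us R (qr p) C) :
    2 * J'.card ≤ (ZC R Q p C).card := by
  classical
  have hcr : ∀ j ∈ J', ∀ i, i = 0 ∨ i = 3 ∨ i = 4 ∨ i = 5 →
      (R.next^[i] (X.z j)).fst ∈ C ∧ ∀ d : G.Dart, d.fst = (R.next^[i] (X.z j)).fst →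
        Cr R (qr p) d := fun j hj i hi => mem_Us.1 (hJ j hj (X.hSJ j i hi))
  have hdel' : ∀ d : G.Dart, IsDel I Q d.fst d.snd → ¬ Cr R (qr p) d := fun d h h' =>
    h' (qr_congr (hdel d h).1 (hdel d h).2)
  have hinn : ∀ j, Inn Q (R.next^[1] (X.z j)).fst ∧ Inn Q (R.next^[2] (X.z j)).fst := by
    intro j
    rcases X.hzP j with h | h
    · exact ⟨⟨_, h, by simp⟩, ⟨_, h, by simp⟩⟩
    · exact ⟨⟨_, h, by simp⟩, ⟨_, h, by simp⟩⟩
  have hsnd : ∀ (d : G.Dart) (i : ℕ), (R.next^[i] d).snd = (R.next^[i + 1] d).fst := by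
    intro d i
    rw [Function.iterate_succ_apply', R.fst_next]
  -- crossing
  have c0 : ∀ j ∈ J', Cr R (qr p) (X.z j) := fun j hj => (hcr j hj 0 (Or.inl rfl)).2 _ rfl
  have c2 : ∀ j ∈ J', Cr R (qr p) (R.next^[2] (X.z j)) := by
    intro j hj
    exact Cr.of_symm ((hcr j hj 3 (by omega)).2 _ (hsnd (X.z j) 2))
  have hz0 : ∀ j, (X.z j).symm.fst = (R.next^[1] (X.z j)).fst := fun j => hsnd (X.z j) 0
  have c1 : ∀ j ∈ J', Cr R (qr p) (R.next^[1] (X.z j)) := by
    intro j hj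
    refine (inn_cr hcub hd hdel' (d := (X.z j).symm) (by rw [hz0]; exact (hinn j).1)
      (c0 j hj).symm).2 _ (hz0 j).symm ?_
    rintro ⟨-, h⟩
    rw [hsnd] at h
    rcases X.hzP j with h' | h'
    · exact h _ h' (Or.inl ⟨[(X.z j).fst], [(R.next^[3] (X.z j)).fst], rfl⟩)
    · exact h _ h' (Or.inr ⟨[(R.next^[3] (X.z j)).fst], [(X.z j).fst], rfl⟩)
  have call : ∀ j ∈ J', ∀ d, R.face d = R.face (X.z j) → Cr R (qr p) d := by
    intro j hj d hdz
    obtain ⟨i, hi⟩ := ((face_eq_iff R (X.z j) d).1 hdz).exists_nat_pow_eq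
    have h6 : d = R.next^[i % 6] (X.z j) := by
      have h5 : Function.minimalPeriod R.next (X.z j) = 6 := by rw [← sz_eq, X.hz]
      rw [← h5, Function.iterate_mod_minimalPeriod_eq, ← hi, Equiv.Perm.coe_pow]
    have h7 : i % 6 < 6 := Nat.mod_lt _ (by norm_num)
    rw [h6]
    generalize i % 6 = m at h7
    interval_cases m
    · exact c0 j hj
    · exact c1 j hj
    · exact c2 j hj
    · exact (hcr j hj 3 (by omega)).2 _ rfl
    · exact (hcr j hj 4 (by omega)).2 _ rfl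
    · exact (hcr j hj 5 (by omega)).2 _ rfl
  have hunc : ∀ j ∈ J', p (R.face (X.z j)) = none := by
    intro j hj
    by_contra hne
    have hnK : R.face (X.z j) ∉ KQ R I X.z X.Q4 := not_mem_KQ.2 (Or.inr (Or.inl ⟨j, rfl⟩))
    obtain ⟨d, h1, h2⟩ := exists_same_dart hpos hp hmin hnK hne
    exact call j hj d h1 (qr_congr h2 (by rw [h1]; exact hne))
  have hface : ∀ (d : G.Dart) (i : ℕ), R.face (R.next^[i] d) = R.face d := face_iter R
  -- membership
  have hC1 : ∀ j ∈ J', (R.next^[1] (X.z j)).fst ∈ C := by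
    intro j hj
    rw [← hz0]
    exact hC.closed _ (c0 j hj) (hcr j hj 0 (Or.inl rfl)).1
  have hC2 : ∀ j ∈ J', (R.next^[2] (X.z j)).fst ∈ C := by
    intro j hj
    rw [← hsnd (X.z j) 1]
    exact hC.closed _ (c1 j hj) (hC1 j hj)
  have hZ : ∀ j ∈ J', ∀ i, i = 1 ∨ i = 2 → (R.next^[i] (X.z j)).fst ∈ ZC R Q p C := by
    intro j hj i hi
    have h1 : Inn Q (R.next^[i] (X.z j)).fst ∧ (R.next^[i] (X.z j)).fst ∈ C ∧
        Cr R (qr p) (R.next^[i] (X.z j)) := by
      rcases hi with rfl | rfl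
      · exact ⟨(hinn j).1, hC1 j hj, c1 j hj⟩
      · exact ⟨(hinn j).2, hC2 j hj, c2 j hj⟩
    obtain ⟨h2, h3, h4⟩ := h1
    unfold ZC QC
    rw [mem_filter, mem_filter]
    refine ⟨⟨?_, h2⟩, R.next^[i] (X.z j), rfl, ?_⟩
    · unfold crTwo
      rw [mem_filter]
      exact ⟨h3, (inn_cr hcub hd hdel' h2 h4).1⟩
    · rw [hface]
      exact hunc j hj
  -- the darts at the inner vertices
  set T : Finset G.Dart := J'.image (fun j => R.next^[1] (X.z j)) ∪
    J'.image (fun j => R.next^[2] (X.z j)) with hT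
  have hinj1 : Function.Injective fun j => R.next^[1] (X.z j) := by
    intro i j hij
    exact X.hzinj i j (congrArg (fun d : G.Dart => d.fst) hij)
  have hinj2 : Function.Injective fun j => R.next^[2] (X.z j) := by
    intro i j hij
    have h1 : R.next (R.next^[1] (X.z i)) = R.next (R.next^[1] (X.z j)) := hij
    exact hinj1 (R.next.injective h1)
  have hcard : T.card = 2 * J'.card := by
    rw [hT, card_union_of_disjoint, card_image_of_injective _ hinj1,
      card_image_of_injective _ hinj2]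
    · ring
    · rw [disjoint_left]
      intro d h1 h2
      obtain ⟨i, -, rfl⟩ := mem_image.1 h1
      obtain ⟨j, -, h3⟩ := mem_image.1 h2
      have h4 : R.next (R.next (X.z j)) = R.next (X.z i) := h3
      have h5 : R.next (X.z j) = X.z i := R.next.injective h4
      have h6 := X.hzI i 0 (Or.inl rfl)
      apply h6
      show I (X.z i).fst
      rw [← h5]
      obtain ⟨q, hq, hq'⟩ := (hinn j).1
      exact hd.int q hq _ hq'
  rw [← hcard]
  refine card_le_card_of_injOn (fun d => d.fst) ?_ ?_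
  · intro d hd'
    rw [mem_coe, hT, mem_union] at hd'
    rcases hd' with h | h
    · obtain ⟨j, hj, rfl⟩ := mem_image.1 h
      exact hZ j hj 1 (Or.inl rfl)
    · obtain ⟨j, hj, rfl⟩ := mem_image.1 h
      exact hZ j hj 2 (Or.inr rfl)
  · have hprop : ∀ d ∈ T, Inn Q d.fst ∧ p (R.face d) = none := by
      intro d hd'
      rw [hT, mem_union] at hd'
      rcases hd' with h | h
      · obtain ⟨j, hj, rfl⟩ := mem_image.1 h
        exact ⟨(hinn j).1, by rw [hface]; exact hunc j hj⟩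
      · obtain ⟨j, hj, rfl⟩ := mem_image.1 h
        exact ⟨(hinn j).2, by rw [hface]; exact hunc j hj⟩
    intro d hd1 d' hd2 h
    obtain ⟨h1, h2⟩ := hprop d hd1
    obtain ⟨-, h3⟩ := hprop d' hd2
    exact unc_unique hcub hd hdel h1 h.symm h2 h3


/-- **The faces of length four of a component** are uncovered. -/
theorem card_four_le (X : MidQ R I Q) {om : Up G → ℝ} (hpos : ∀ e, 0 < om e)
    {p : R.Face → Option R.Face} (hp : Adm (KQ R I X.z X.Q4) p)
    (hmin : ∀ q, Adm (KQ R I X.z X.Q4) q → phi (fs R) (ft R) om (KQ R I X.z X.Q4) p ≤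
      phi (fs R) (ft R) om (KQ R I X.z X.Q4) q) {C : Finset V}
    (Q' : Finset {g // g ∈ X.Q4}) (hQ : ∀ g ∈ Q', X.S (Sum.inr g) ⊆ Us R (qr p) C) :
    2 * (Q'.card : ℝ) ≤ ∑ z ∈ uncT R p C, (6 - (R.size z : ℝ)) := by
  classical
  have hall : ∀ g ∈ Q', ∀ d, R.face d = g.1 → d.fst ∈ C ∧ Cr R (qr p) d := by
    intro g hg d hd
    have h1 := mem_Us.1 (hQ g hg (X.hSQ g d hd))
    exact ⟨h1.1, h1.2 d rfl⟩
  have hunc : ∀ g ∈ Q', p g.1 = none := by
    intro g hg
    by_contra hne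
    obtain ⟨d, h1, h2⟩ := exists_same_dart hpos hp hmin
      (not_mem_KQ.2 (Or.inr (Or.inr g.2))) hne
    exact (hall g hg d h1).2 (qr_congr h2 (by rw [h1]; exact hne))
  have hsub : Q'.image (fun g => g.1) ⊆ uncT R p C := by
    intro f hf
    obtain ⟨g, hg, rfl⟩ := mem_image.1 hf
    obtain ⟨d, hd⟩ := R.face_surj g.1
    have h1 := hall g hg d hd
    unfold uncT crT
    refine mem_filter.2 ⟨mem_image.2 ⟨d, ?_, ?_⟩, hunc g hg⟩
    · unfold crD
      exact mem_filter.2 ⟨mem_univ _, h1.2, h1.1⟩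
    · show qr p (R.face d) = g.1
      rw [hd, qr_none (hunc g hg)]
  have hsz : ∀ z ∈ uncT R p C, 0 ≤ (6 - (R.size z : ℝ)) ∧ (z ∈ X.Q4 → 2 ≤ (6 - (R.size z : ℝ))) := by
    intro z hz
    have h1 : p z = none := (mem_filter.1 hz).2
    obtain ⟨d, rfl⟩ := R.face_surj z
    have h2 := X.hK6 d fun h => hp.1 _ h h1
    unfold sz at h2
    refine ⟨?_, fun h3 => ?_⟩
    · rcases h2 with h2 | h2
      · rw [h2]
        norm_num
      · have h4 := (X.hQ4 _ h2 d rfl).1
        unfold sz at h4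
        rw [h4]
        norm_num
    · have h4 := (X.hQ4 _ h3 d rfl).1
      unfold sz at h4
      rw [h4]
      norm_num
  calc 2 * (Q'.card : ℝ) = ∑ z ∈ Q'.image (fun g => g.1), (2 : ℝ) := by
        rw [sum_const, card_image_of_injective _ Subtype.val_injective, nsmul_eq_mul]
        ring
    _ ≤ ∑ z ∈ Q'.image (fun g => g.1), (6 - (R.size z : ℝ)) := by
        refine sum_le_sum fun z hz => (hsz z (hsub hz)).2 ?_
        obtain ⟨g, -, rfl⟩ := mem_image.1 hz
        exact g.2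
    _ ≤ ∑ z ∈ uncT R p C, (6 - (R.size z : ℝ)) :=
        sum_le_sum_of_subset_of_nonneg hsub fun z hz _ => (hsz z hz).1

/-- The number of patterns inside a component. -/
theorem card_pat_leQ (X : MidQ R I Q) [Fintype X.J]
    (hcub : ∀ v, G.degree v = 3) {T : Type} [DecidableEq T] (κ : R.Face → T) (C : Finset V)
    [DecidablePred fun i : ({f // f ∈ X.F} ⊕ X.J) ⊕ {g // g ∈ X.Q4} => X.S i ⊆ Us R κ C]
    [DecidablePred fun j : X.J => X.S (Sum.inl (Sum.inr j)) ⊆ Us R κ C]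
    [DecidablePred fun g : {g // g ∈ X.Q4} => X.S (Sum.inr g) ⊆ Us R κ C] :
    (univ.filter fun i => X.S i ⊆ Us R κ C).card ≤ (ownF R κ C X.F X.δ).card +
      (univ.filter fun j : X.J => X.S (Sum.inl (Sum.inr j)) ⊆ Us R κ C).card +
      (univ.filter fun g : {g // g ∈ X.Q4} => X.S (Sum.inr g) ⊆ Us R κ C).card := by
  classical
  have h0 : (univ.filter fun f : {f // f ∈ X.F} =>
      X.S (Sum.inl (Sum.inl f)) ⊆ Us R κ C).card ≤ (ownF R κ C X.F X.δ).card := by
    refine card_le_card_of_injOn (fun f => f.1) ?_ fun a _ b _ h => Subtype.ext h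
    intro f hf
    have hf' : X.S (Sum.inl (Sum.inl f)) ⊆ Us R κ C := (mem_filter.1 hf).2
    refine mem_ownF.2 ⟨f.2, fun v hv => ?_⟩
    have h1 := mem_Us.1 (hf' (X.hSF f hv))
    exact ⟨h1.1, crV_card_three hcub h1.2⟩
  have h1 : (univ.filter fun i => X.S i ⊆ Us R κ C).card =
      (univ.filter fun f : {f // f ∈ X.F} => X.S (Sum.inl (Sum.inl f)) ⊆ Us R κ C).card +
      (univ.filter fun j : X.J => X.S (Sum.inl (Sum.inr j)) ⊆ Us R κ C).card +
      (univ.filter fun g : {g // g ∈ X.Q4} => X.S (Sum.inr g) ⊆ Us R κ C).card := by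
    rw [card_filter, Fintype.sum_sum_type, Fintype.sum_sum_type, card_filter, card_filter,
      card_filter]
    refine congrArg₂ _ (congrArg₂ _ ?_ ?_) ?_ <;> refine sum_congr rfl fun x _ => ?_ <;>
      split_ifs <;> rfl
  rw [h1]
  omega

open Classical in
/-- **The estimate for a component**, `m` covered classes. -/
theorem componentQ (X : MidQ R I Q)
    (hcub : ∀ v, G.degree v = 3) (hd : VD G I Q)
    (hb : ∀ d, R.face d ≠ R.face d.symm)
    (hFK : X.F ⊆ KQ R I X.z X.Q4)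
    (hKh : ∀ f ∈ X.F, R.face (X.δ f).symm ∉ KQ R I X.z X.Q4 ∧
      R.face (R.next (X.δ f)).symm ∉ KQ R I X.z X.Q4)
    {e θ u : ℝ} (hθ : θ = 1 / 3 - e) (hu : u = 1 / 5000) (he : 0 < e)
    {Cg : ℕ} (hCg : 1 ≤ Cg) (hg : X.Grow Cg)
    (heC : 1000000 * (e * (Cg : ℝ)) = 1)
    (hpos : ∀ x, 0 < (pentsOf X.F X.δ hcub X.hδ X.hL).om (wV I Q θ 2) u x)
    {p : R.Face → Option R.Face} (hp : Adm (KQ R I X.z X.Q4) p)
    (hmin : ∀ q, Adm (KQ R I X.z X.Q4) q →
      phi (fs R) (ft R) ((pentsOf X.F X.δ hcub X.hδ X.hL).om (wV I Q θ 2) u) (KQ R I X.z X.Q4) p ≤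
      phi (fs R) (ft R) ((pentsOf X.F X.δ hcub X.hδ X.hL).om (wV I Q θ 2) u) (KQ R I X.z X.Q4) q)
    (hdel : ∀ d : G.Dart, IsDel I Q d.fst d.snd → p (R.face d) = p (R.face d.symm) ∧
      p (R.face d) ≠ none) {C : Finset V} (hC : IsComp R (qr p) C) :
    (mixF R (qr p) C X.F X.δ).card ≤ 126 ∧
    ∑ x ∈ crE R p C, (pentsOf X.F X.δ hcub X.hδ X.hL).om (wV I Q θ 2) u x *
      cc p (R.face x.1) (R.face x.1.symm) ≤ 20008 * (Cg : ℝ) := by
  let _ := X.fJ
  -- growth
  have hgr := hg p (fun d h => qr_congr (hdel d h.2).1 (hdel d h.2).2)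
    (fun f hf hpf => by
      obtain ⟨d, h1, h2⟩ := exists_same_dart hpos hp hmin hf hpf
      exact ⟨d, h1, qr_congr h2 (by rw [h1]; exact hpf)⟩) C hC
  rw [← covT_eq hp] at hgr
  have hCg1 : (1 : ℝ) ≤ Cg := by exact_mod_cast hCg
  have he1 : e ≤ 1 / 1000000 := by nlinarith
  have hu0 : 0 ≤ u := by rw [hu]; norm_num
  have hθ0 : 0 ≤ θ := by rw [hθ]; linarith
  have hnb : ∀ d, p (R.face d) = none → R.face d.symm ≠ R.face d := fun d _ h => hb d h.symm
  have hdel' : ∀ d : G.Dart, IsDel I Q d.fst d.snd → ¬ Cr R (qr p) d := fun d h h' =>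
    h' (qr_congr (hdel d h).1 (hdel d h).2)
  -- mixed places
  have hmix : (mixF R (qr p) C X.F X.δ).card ≤ 21 * (N2 R Q p C).card := by
    have h1 := card_mixF_le X.hδ X.hL hcub hC (univ.filter fun v => ¬ Inn Q v) (by
      intro f hf v hv
      refine mem_filter.2 ⟨mem_univ _, ?_⟩
      rintro ⟨q, hq, hvq⟩
      exact X.hFI f hf v hv (hd.int q hq v hvq))
    refine h1.trans (Nat.mul_le_mul_left _ (card_le_card ?_))
    intro v hv
    obtain ⟨h2, h3⟩ := mem_inter.1 hv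
    unfold N2
    exact mem_filter.2 ⟨h2, (mem_filter.1 h3).2⟩
  -- the count
  have hcount := hd.count hcub R hp hnb hdel' C hC (M := 2) hθ0
  set Q' : Finset {g // g ∈ X.Q4} := univ.filter fun g => X.S (Sum.inr g) ⊆ Us R (qr p) C with hQ'
  have hunc : 2 * (Q'.card : ℝ) ≤ ∑ z ∈ uncT R p C, (6 - (R.size z : ℝ)) :=
    card_four_le X hpos hp hmin Q' fun g hg => (mem_filter.1 hg).2
  rw [sum_filter] at hcount
  have hL7 := count_L7 hcub X.hδ X.hL hu0 hpos hFK hKh hp hmin hC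
  have hw : (∑ x : Up G, (if Cr R (qr p) x.1 ∧ x.1.fst ∈ C then
      wV I Q θ 2 x * cc p (R.face x.1) (R.face x.1.symm) else 0)) =
      ∑ x : Up G, (if Cr R (qr p) x.1 ∧ x.1.fst ∈ C then
        omV I Q θ 2 x.1.fst x.1.snd * cc p (R.face x.1) (R.face x.1.symm) else 0) := rfl
  rw [hw] at hL7
  have hS : (∑ x ∈ crE R p C, (pentsOf X.F X.δ hcub X.hδ X.hL).om (wV I Q θ 2) u x *
      cc p (R.face x.1) (R.face x.1.symm)) = ∑ x : Up G, (if Cr R (qr p) x.1 ∧ x.1.fst ∈ C then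
      (pentsOf X.F X.δ hcub X.hδ X.hL).om (wV I Q θ 2) u x *
        cc p (R.face x.1) (R.face x.1.symm) else 0) := by
    unfold crE
    rw [sum_filter]
  rw [hS]
  set S : ℝ := ∑ x : Up G, (if Cr R (qr p) x.1 ∧ x.1.fst ∈ C then
      (pentsOf X.F X.δ hcub X.hδ X.hL).om (wV I Q θ 2) u x *
        cc p (R.face x.1) (R.face x.1.symm) else 0) with hSdef
  -- created hexagons
  set J' : Finset X.J := univ.filter fun j =>
    X.S (Sum.inl (Sum.inr j)) ⊆ Us R (qr p) C with hJ'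
  have hZ := two_mul_card_leQ X hcub hd hpos hp hmin hdel hC J' (fun j hj => (mem_filter.1 hj).2)
  have hZ' : 2 * (J'.card : ℝ) ≤ (ZC R Q p C).card := by exact_mod_cast hZ
  have hmix' : ((mixF R (qr p) C X.F X.δ).card : ℝ) ≤ 21 * (N2 R Q p C).card := by
    exact_mod_cast hmix
  have hown0 : (0 : ℝ) ≤ (ownF R (qr p) C X.F X.δ).card := Nat.cast_nonneg _
  have hN0 : (0 : ℝ) ≤ (N2 R Q p C).card := Nat.cast_nonneg _
  have hJ0 : (0 : ℝ) ≤ J'.card := Nat.cast_nonneg _
  have hQ0 : (0 : ℝ) ≤ Q'.card := Nat.cast_nonneg _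
  have hkey : θ * (6 * (((covT R p C).card : ℝ) - 1) + 2 * ((N2 R Q p C).card + J'.card + Q'.card) - 6) +
      2 * u * (ownF R (qr p) C X.F X.δ).card - 126 * u * (N2 R Q p C).card ≤ S := by
    have h1 : θ * (2 * (J'.card : ℝ)) ≤ θ * (ZC R Q p C).card :=
      mul_le_mul_of_nonneg_left hZ' hθ0
    have h2 : u * ((mixF R (qr p) C X.F X.δ).card : ℝ) ≤ u * (21 * (N2 R Q p C).card) :=
      mul_le_mul_of_nonneg_left hmix' hu0
    have h3 : θ * (2 * (Q'.card : ℝ)) ≤ θ * ∑ z ∈ uncT R p C, (6 - (R.size z : ℝ)) :=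
      mul_le_mul_of_nonneg_left hunc hθ0
    nlinarith
  by_cases hne : (covT R p C).Nonempty
  · have hE1 := comp_bound' R hp hnb _ (fun x => (hpos x).le) hmin hC hne
    have hE1' : S ≤ 2 * (((covT R p C).card : ℝ) - 1) := hE1
    have hpat : (univ.filter fun i => X.S i ⊆ Us R (qr p) C).card ≤
        (ownF R (qr p) C X.F X.δ).card + J'.card + Q'.card := by
      have := card_pat_leQ X hcub (qr p) C
      convert this
    have hg' : ((covT R p C).card : ℝ) ≤ Cg * (((N2 R Q p C).card + J'.card + Q'.card : ℕ) +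
        (ownF R (qr p) C X.F X.δ).card + 1) := by
      have h1 : (covT R p C).card ≤ Cg * ((N2 R Q p C).card + J'.card + Q'.card +
          (ownF R (qr p) C X.F X.δ).card + 1) := by
        refine hgr.trans (Nat.mul_le_mul_left _ ?_)
        have h2 : ((crTwo R (qr p) C).filter fun v => ¬ Inn Q v).card = (N2 R Q p C).card := rfl
        rw [h2]
        omega
      exact_mod_cast h1
    have hc2 : (1 / 3 - e) * (6 * (((covT R p C).card : ℝ) - 1) +
        2 * (((N2 R Q p C).card + J'.card + Q'.card : ℕ) : ℝ) - 6) +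
        2 * u * (ownF R (qr p) C X.F X.δ).card -
        126 * u * (((N2 R Q p C).card + J'.card + Q'.card : ℕ) : ℝ) ≤ S := by
      have h1 : 0 ≤ 126 * u * (J'.card : ℝ) := by positivity
      have h1' : 0 ≤ 126 * u * (Q'.card : ℝ) := by positivity
      push_cast
      rw [← hθ]
      linarith
    obtain ⟨r1, -, r3⟩ := comp_bound1 (u := u) (e := e) (C := (Cg : ℝ)) (B := 126) (S := S)
      (m := (covT R p C).card) (ν := (N2 R Q p C).card + J'.card + Q'.card)
      (a := (ownF R (qr p) C X.F X.δ).card) (by rw [hu]; norm_num) (by rw [hu]; norm_num)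
      (by linarith) he (by
        rw [hu]
        nlinarith) (by linarith) (by rw [hu]; norm_num) hE1' hc2 hg'
    have r1' : (N2 R Q p C).card ≤ 3 := by omega
    refine ⟨by omega, ?_⟩
    have h2u : 2 / u = 10000 := by rw [hu]; norm_num
    rw [h2u] at r3
    linarith
  · -- all faces at the component are uncovered
    have h0 : covT R p C = ∅ := Finset.not_nonempty_iff_eq_empty.1 hne
    have hS0 : S = 0 := by
      rw [← hS]
      refine sum_eq_zero fun x hx => ?_
      have hcc : cc p (R.face x.1) (R.face x.1.symm) = 0 := by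
        have hnone : ∀ d : G.Dart, d ∈ crD R (qr p) C → p (R.face d) = none := by
          intro d hdd
          by_contra h1
          obtain ⟨c, hc⟩ := Option.ne_none_iff_exists'.1 h1
          have h2 : c ∈ covT R p C := by
            unfold covT crT
            refine mem_filter.2 ⟨mem_image.2 ⟨d, hdd, qr_some hc⟩, ?_⟩
            rw [(hp.2 _ _ hc).2]
            simp
          rw [h0] at h2
          exact absurd h2 (notMem_empty _)
        obtain ⟨h1, h2⟩ := mem_crD_of_crE R hp hnb hC hx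
        unfold cc
        rw [hnone _ h1, hnone _ h2, if_pos rfl]
      rw [hcc, mul_zero]
    rw [h0, card_empty, hS0] at hkey
    have h2 : (N2 R Q p C).card ≤ 6 := by
      by_contra hc
      have h7 : (7 : ℝ) ≤ (N2 R Q p C).card := by exact_mod_cast (by omega : 7 ≤ _)
      have h3 : (1 : ℝ) / 4 ≤ θ := by rw [hθ]; linarith
      have h4 : 0 ≤ θ * (J'.card : ℝ) := mul_nonneg hθ0 hJ0
      have h4' : 0 ≤ θ * (Q'.card : ℝ) := mul_nonneg hθ0 hQ0
      have h5 : (1 : ℝ) / 4 * ((N2 R Q p C).card - 7) ≤ θ * ((N2 R Q p C).card - 7) :=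
        mul_le_mul_of_nonneg_right h3 (by linarith)
      rw [hu] at hkey
      push_cast at hkey
      nlinarith
    refine ⟨by omega, ?_⟩
    rw [hS0]
    positivity

end Pool.Agent.Uni13
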