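import Pool.Agent.Work.MP_392c8e_co_uni.FamNearG
import Pool.Agent.Work.MP_392c8e_co_uni.MidQ

/-!
# From a catalogue of places to linear growth, for graphs with faces of length four

The faces of length four outside the interiors of the places are patterns.
-/

set_option autoImplicit false
set_option linter.unusedSectionVars false

namespace Pool.Agent.Uni392

open Finset Pool.Agent.Sub392 Pool.Agent.T392 Pool.Agent.Disch392
open Pool.Agent.Uni3 (L7 plV mem_plV selF selD selD_spec mem_selF_of_pat fst_mem_selD plV_near)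
open Pool.Agent.Uni91 (VD ends FI FP Fam Good GainP JoinP mem_FP)
open Pool.Agent.T1Red (newG Deg3 Int Real)

variable {V : Type} [Fintype V] [DecidableEq V] {G : SimpleGraph V} [DecidableRel G.Adj]

/-- **The input of the middle of the construction**, for the local condition `Gd` at the darts and
with faces of length four. -/
structure MidF (R : Rot G) (I : V → Prop) (P : List (V × List V × V)) (Gd : G.Dart → Prop)
    (D N0 : ℕ) extends MidQ R I P where
  hS0 : ∀ i, (S i).card ≤ N0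
  hS : ∀ i, ∀ v ∈ S i, ∀ w ∈ S i, ∃ n, n ≤ D ∧ Steps (nbN G I P) n v w
  hnear : ∀ v, (∀ w, ¬ Del G I P v w) → ¬ Inn P v →
    (∃ d : G.Dart, d.fst = v ∧ (Inn P d.snd ∨ (R.face d ∈ KQ R I z Q4 ∧ sz R d = 6))) →
      NearG G I P D v ∨ ∃ i, v ∈ S i
  hbad : ∀ d : G.Dart, ¬ Gd d → (∀ w, ¬ Del G I P d.fst w) →
    ¬ Inn P d.fst → NearG G I P D d.fst ∨ ∃ i, d.fst ∈ S i

open Classical in
/-- **Linear growth**, if a discharging inequality for the local condition is known. -/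
theorem MidF.grow {R : Rot G} {I : V → Prop} {P : List (V × List V × V)} {Gd : G.Dart → Prop}
    {D N0 : ℕ} (X : MidF R I P Gd D N0) (A E : ℕ) (hP : R.Plane) (hcub : ∀ v, G.degree v = 3)
    (hd : VD G I P) (hdeg : Deg3 (newG G I (ends P)))
    (hdis : ∀ U : Finset V, ∑ d ∈ univ.filter (fun d : G.Dart => d.fst ∈ U), kap R d ≤
      - (1 / 1000) * (#{d : G.Dart | d.fst ∈ U ∧ sz R d ≠ 6} : ℝ) +
        A * #{d : G.Dart | d.fst ∈ U ∧ ¬ Gd d} + E * #(bd (G := G) U)) :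
    X.toMidQ.Grow ((3000 * (A + E + 9) + 3) * 4 ^ (D + 6) * (N0 + 1) + (3000 * (E + 9) + 3)) := by
  let _ := X.fJ
  exact fun p hdel hcon C hC =>
    (growth_gen A E hP hcub hd hdeg hdel hcon X.S N0 X.hS0 X.hS X.hnear hdis X.hbad hC).trans
      (Nat.mul_le_mul_left _ (Nat.le_succ _))

variable {R : Rot G} {ι : Type} [Fintype ι] {p : ι → Place V}

/-- The faces of length four without interior vertices. -/
noncomputable def untF (R : Rot G) (B : V → Prop) : Finset R.Face := by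
  classical
  exact univ.filter fun g => ∀ d, R.face d = g → sz R d = 4 ∧ ¬ B d.fst

theorem mem_untF {B : V → Prop} {g : R.Face} :
    g ∈ untF R B ↔ ∀ d, R.face d = g → sz R d = 4 ∧ ¬ B d.fst := by
  classical
  unfold untF
  simp

/-- The set of the pattern at a face of length four. -/
noncomputable def SG (R : Rot G) (p : ι → Place V) (ρ : ℕ) (g : R.Face) : Finset V := by
  classical
  exact univ.filter fun v => ¬ FI p v ∧ ∃ d, R.face d = g ∧ ∃ n, n ≤ ρ ∧
    Steps (nbN G (FI p) (FP p)) n v d.fst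

theorem mem_SG {ρ : ℕ} {g : R.Face} {v : V} : v ∈ SG R p ρ g ↔ ¬ FI p v ∧
    ∃ d, R.face d = g ∧ ∃ n, n ≤ ρ ∧ Steps (nbN G (FI p) (FP p)) n v d.fst := by
  classical
  unfold SG
  simp

theorem card_SG (hdeg : Deg3 (newG G (FI p) (ends (FP p)))) {ρ : ℕ} {g : R.Face}
    (hg : g ∈ untF R (FI p)) : (SG R p ρ g).card ≤ 4 ^ ρ * 17 := by
  classical
  have h1 : SG R p ρ g ⊆ ((univ.filter fun d : G.Dart => R.face d = g)).biUnion
      fun d => bal (nbN G (FI p) (FP p)) ρ d.fst := by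
    intro v hv
    obtain ⟨-, d, hd, n, hn, h⟩ := mem_SG.1 hv
    exact Finset.mem_biUnion.2 ⟨d, mem_filter.2 ⟨mem_univ _, hd⟩,
      bal_mono _ _ hn (h.mem_bal nbN_symm)⟩
  refine (Finset.card_le_card h1).trans ?_
  refine (Finset.card_biUnion_le_card_mul _ _ (4 ^ ρ) fun d _ => ?_).trans ?_
  · exact card_bal (m := 3) (fun v => hdeg v _ fun w hw => mem_nbN.1 hw) ρ d.fst
  · rw [mul_comm]
    refine Nat.mul_le_mul_left _ ?_
    obtain ⟨d0, hd0⟩ := R.face_surj g
    have h2 := (mem_untF.1 hg d0 hd0).1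
    unfold sz Rot.size at h2
    rw [hd0] at h2
    omega

theorem adj_iter' (R : Rot G) (d : G.Dart) (i : ℕ) :
    G.Adj (R.next^[i] d).fst (R.next^[i + 1] d).fst := by
  rw [Function.iterate_succ_apply', R.fst_next]
  exact (R.next^[i] d).adj

/-- Walking round a face of length four. -/
theorem steps_four {g : R.Face} (hg : g ∈ untF R (FI p)) {d d' : G.Dart} (hd : R.face d = g)
    (hd' : R.face d' = g) : ∃ n, n ≤ 3 ∧ Steps (nbN G (FI p) (FP p)) n d.fst d'.fst := by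
  have hg' := mem_untF.1 hg
  obtain ⟨i, hi⟩ := ((face_eq_iff R d d').1 (hd'.trans hd.symm)).exists_nat_pow_eq
  have h5 : Function.minimalPeriod R.next d = 4 := by rw [← sz_eq, (hg' d hd).1]
  have h7 : d' = R.next^[i % 4] d := by
    rw [← h5, Function.iterate_mod_minimalPeriod_eq, ← hi, Equiv.Perm.coe_pow]
  have key : ∀ j, Steps (nbN G (FI p) (FP p)) j d.fst (R.next^[j] d).fst := by
    intro j
    induction j with
    | zero => exact Steps.refl _
    | succ j ih =>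
      refine ih.trans (Steps.cons (mem_nbN.2 (Or.inl ⟨?_, ?_, ?_⟩)) (Steps.refl _))
      · exact adj_iter' R d j
      · exact (hg' _ ((Uni3.face_iter R d j).trans hd)).2
      · exact (hg' _ ((Uni3.face_iter R d (j + 1)).trans hd)).2
  have h8 := Nat.mod_lt i (show 4 > 0 by norm_num)
  exact ⟨i % 4, by omega, h7 ▸ key (i % 4)⟩

theorem SG_joined {ρ : ℕ} {g : R.Face} (hg : g ∈ untF R (FI p)) {v w : V} (hv : v ∈ SG R p ρ g)
    (hw : w ∈ SG R p ρ g) : ∃ n, n ≤ ρ + 10 + ρ ∧ Steps (nbN G (FI p) (FP p)) n v w := by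
  obtain ⟨-, t, t1, k, k1, k2⟩ := mem_SG.1 hv
  obtain ⟨-, t', t3, k', k3, k4⟩ := mem_SG.1 hw
  obtain ⟨l, l1, l2⟩ := steps_four hg t1 t3
  exact ⟨k + l + k', by omega, (k2.trans l2).trans (k4.rev nbN_symm)⟩

theorem fst_mem_SG {ρ : ℕ} {g : R.Face} (hg : g ∈ untF R (FI p)) {d : G.Dart}
    (hd : R.face d = g) : d.fst ∈ SG R p ρ g :=
  mem_SG.2 ⟨(mem_untF.1 hg d hd).2, d, hd, 0, Nat.zero_le _, Steps.refl _⟩

/-- **From a maximal family.** -/
theorem midF_of_fam (hp : Fam p G) (hdeg : Deg3 G) (gain : ι → Prop) (Cat : Place V → Prop)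
    {Gd : G.Dart → Prop} {ρ r D1 D2 D N N0 r1 : ℕ}
    (hmax : ∀ q, Cat q → ∃ i, ∃ a ∈ q.Vert, ∃ b ∈ (p i).Vert, ∃ w : G.Walk a b, w.length < D2)
    (hdiam : ∀ q, Cat q → ∀ a ∈ q.Vert, ∀ b ∈ q.Vert, ∃ w : G.Walk a b, w.length ≤ r)
    (hocc : ∀ d : G.Dart, ¬ Gd d →
      (∃ x, Near R ρ d x ∧ ∃ q, Cat q ∧ x.fst ∈ q.Vert) ∨ (∃ e, Near R ρ d e ∧ Pat7 R e) ∨
        ∃ e, Near R ρ d e ∧ sz R e = 4)
    (h1 : ∀ i, gain i → ∀ v, ¬ FI p v → ∀ t ∈ (p i).Vert, ¬ FI p t → ∀ n, n ≤ D1 →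
      Steps (nbN G (FI p) (FP p)) n v t → NearG G (FI p) (FP p) D v)
    (h2 : ∀ i, gain i → ∀ v, Int (p i).R (p i).f v → (∀ u, ¬ Del G (FI p) (FP p) v u) →
      ¬ Inn (FP p) v → NearG G (FI p) (FP p) D v)
    (h3 : ∀ i, ¬ gain i → ∀ v, Int (p i).R (p i).f v →
      Inn (FP p) v ∨ ∃ u, Del G (FI p) (FP p) v u)
    (hring : ∀ i, ¬ gain i → ∀ t ∈ (p i).Vert, ∀ t' ∈ (p i).Vert, ¬ FI p t → ¬ FI p t' →
      ∃ k, k ≤ r1 ∧ Steps (nbN G (FI p) (FP p)) k t t')
    (hN : ∀ i, (p i).R.t + (p i).R.m ≤ N) (z : {i // ¬ gain i} → G.Dart)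
    (hz : ∀ j, ZHex R (p j.1) (z j)) (hD1 : ρ + 6 + r + D2 ≤ D1) (hD : D1 + r1 + D1 ≤ D)
    (hD' : ρ + 10 + ρ ≤ D) (hN0 : 4 ^ D1 * N ≤ N0) (hN1 : 4 ^ ρ * 17 ≤ N0) :
    Nonempty (MidF R (FI p) (FP p) Gd D N0) := by
  classical
  have hdeg' : Deg3 (newG G (FI p) (ends (FP p))) := hp.deg hdeg
  have key : ∀ v, (∀ u, ¬ Del G (FI p) (FP p) v u) → ¬ Inn (FP p) v →
      (∃ b, (∃ i, b ∈ (p i).Vert) ∧ ∃ w : G.Walk v b, w.length ≤ D1) →
      NearG G (FI p) (FP p) D v ∨ ∃ j : {i // ¬ gain i}, v ∈ SJ G p D1 j.1 := by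
    rintro v hfree hinn ⟨b, hb, w, hw⟩
    rcases near_or_SJ hp gain h1 h2 h3 w hb hw hfree hinn with h4 | ⟨i, hi, h4⟩
    · exact Or.inl h4
    · exact Or.inr ⟨⟨i, hi⟩, h4⟩
  refine ⟨{
    F := selF R (FI p)
    δ := selD R (FI p)
    hδ := fun f hf => (selD_spec hf).1
    hL := fun f hf => (selD_spec hf).2.1
    hFI := fun f hf => (selD_spec hf).2.2
    J := {i // ¬ gain i}
    fJ := inferInstance
    z := z
    hz := fun j => (hz j).six
    hzP := fun j => ?_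
    hzI := fun j => (zhex_out hp (hz j)).1
    hzinj := fun i j hij => ?_
    Q4 := untF R (FI p)
    hQ4 := fun g hg d hd => mem_untF.1 hg d hd
    S := Sum.elim (Sum.elim (fun f => SE R p ρ f.1) (fun j => SJ G p D1 j.1))
      (fun g => SG R p ρ g.1)
    hSQ := fun g d hd => fst_mem_SG g.2 hd
    hSF := fun f => plV_sub_SE f.2
    hSJ := fun j i hi => ?_
    hS0 := ?_
    hS := ?_
    hnear := ?_
    hbad := ?_ }⟩
  · rcases (hz j).path with h4 | h4
    · exact Or.inl (mem_FP.2 ⟨j.1, h4⟩)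
    · exact Or.inr (mem_FP.2 ⟨j.1, h4⟩)
  · have h4 := (zhex_out hp (hz i)).2.2.1
    have h5 := (zhex_out hp (hz j)).2.2.1
    rw [hij] at h4
    exact Subtype.ext (hp.eq_of_vert h4 h5)
  · -- the vertices of the hexagon
    obtain ⟨h4, h5, -, h6⟩ := zhex_out hp (hz j)
    have hD1' : 1 ≤ D1 := by omega
    have hout := h4 i hi
    rcases hi with rfl | rfl | rfl | rfl
    · exact mem_SJ.2 ⟨hout, _, h5, h4 0 (Or.inl rfl), 0, Nat.zero_le _, Steps.refl _⟩
    · exact mem_SJ.2 ⟨hout, _, h6, hout, 0, Nat.zero_le _, Steps.refl _⟩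
    · refine mem_SJ.2 ⟨hout, _, h6, h4 3 (Or.inr (Or.inl rfl)), 1, hD1',
        Steps.cons (mem_nbN.2 (Or.inl ⟨?_, hout, h4 3 (Or.inr (Or.inl rfl))⟩)) (Steps.refl _)⟩
      have h7 : (R.next^[4] (z j)).fst = (R.next^[3] (z j)).snd := by
        rw [Function.iterate_succ_apply' R.next 3, R.fst_next]
      rw [h7]
      exact (R.next^[3] (z j)).adj.symm
    · refine mem_SJ.2 ⟨hout, _, h5, h4 0 (Or.inl rfl), 1, hD1',
        Steps.cons (mem_nbN.2 (Or.inl ⟨?_, hout, h4 0 (Or.inl rfl)⟩)) (Steps.refl _)⟩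
      have h7 : (R.next^[6] (z j)).fst = (R.next^[5] (z j)).snd := by
        rw [Function.iterate_succ_apply' R.next 5, R.fst_next]
      have h8 : R.next^[6] (z j) = z j := by
        rw [← (hz j).six]
        exact next_sz R (z j)
      rw [h8] at h7
      show G.Adj (R.next^[5] (z j)).fst (z j).fst
      rw [h7]
      exact (R.next^[5] (z j)).adj
  · rintro ((f | j) | g)
    · exact (card_SE hdeg' f.2).trans hN1
    · exact (card_SJ hdeg' (hN j.1)).trans hN0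
    · exact (card_SG hdeg' g.2).trans hN1
  · rintro ((f | j) | g) v hv w hw
    · obtain ⟨n, hn, h4⟩ := SE_joined f.2 hv hw
      exact ⟨n, by omega, h4⟩
    · obtain ⟨n, hn, h4⟩ := SJ_joined (hring j.1 j.2) hv hw
      exact ⟨n, by omega, h4⟩
    · obtain ⟨n, hn, h4⟩ := SG_joined g.2 hv hw
      exact ⟨n, by omega, h4⟩
  · -- near
    rintro v hfree hinn ⟨d, rfl, hd | ⟨hd, h6⟩⟩
    · rcases key _ hfree hinn ⟨d.fst, near_of_inn hp d.adj hd, SimpleGraph.Walk.nil,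
        Nat.zero_le _⟩ with h4 | ⟨j, h4⟩
      · exact Or.inl h4
      · exact Or.inr ⟨Sum.inl (Sum.inr j), h4⟩
    · have h4 : ∃ x, R.face x = R.face d ∧ FI p x.fst := by
        by_contra hcon
        push Not at hcon
        exact not_mem_KQ.2 (Or.inl ⟨d, rfl, h6, hcon⟩) hd
      obtain ⟨x, hx, i, hi⟩ := h4
      obtain ⟨w, hw⟩ := walk_hex h6 hx
      rcases key _ hfree hinn ⟨x.fst, ⟨i, (hp.good i).int_vert hi⟩, w, by omega⟩ with h4 | ⟨j, h4⟩
      · exact Or.inl h4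
      · exact Or.inr ⟨Sum.inl (Sum.inr j), h4⟩
  · -- bad
    intro d hde hfree hinn
    have fin : (∃ b, (∃ i, b ∈ (p i).Vert) ∧ ∃ w : G.Walk d.fst b, w.length ≤ D1) →
        NearG G (FI p) (FP p) D d.fst ∨
          ∃ i, d.fst ∈ Sum.elim (Sum.elim (fun f : {f // f ∈ selF R (FI p)} => SE R p ρ f.1)
            (fun j : {i // ¬ gain i} => SJ G p D1 j.1))
            (fun g : {g // g ∈ untF R (FI p)} => SG R p ρ g.1) i := by
      intro h4
      rcases key _ hfree hinn h4 with h5 | ⟨j, h5⟩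
      · exact Or.inl h5
      · exact Or.inr ⟨Sum.inl (Sum.inr j), h5⟩
    rcases hocc d hde with ⟨x, hx, q, hq, hxq⟩ | ⟨e, he, hpat⟩ | ⟨e, he, h4e⟩
    · obtain ⟨w2, hw2⟩ := hx.walk
      obtain ⟨i, a, ha, b, hb, w4, hw4⟩ := hmax q hq
      obtain ⟨w3, hw3⟩ := hdiam q hq x.fst hxq a ha
      refine fin ⟨b, ⟨i, hb⟩, (w2.append w3).append w4, ?_⟩
      rw [SimpleGraph.Walk.length_append, SimpleGraph.Walk.length_append]
      omega
    · obtain ⟨w1, hw1⟩ := he.walk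
      by_cases hB : ∀ v ∈ plV R e, ¬ FI p v
      · have hf := mem_selF_of_pat hpat hB
        by_cases hv : FI p d.fst
        · obtain ⟨i, hi⟩ := hv
          exact fin ⟨d.fst, ⟨i, (hp.good i).int_vert hi⟩, SimpleGraph.Walk.nil, Nat.zero_le _⟩
        · rcases walk_cases hp w1 hv with ⟨b, hb, q, hq⟩ | ⟨n, hn, hs⟩
          · exact fin ⟨b, hb, q, by omega⟩
          · right
            exact ⟨Sum.inl (Sum.inl ⟨R.face e, hf⟩), mem_SE.2 ⟨hv, e.fst, fst_mem_selD hf rfl, n,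
              by omega, hs⟩⟩
      · push Not at hB
        obtain ⟨v, hv, i, hi⟩ := hB
        obtain ⟨n, hn, hs⟩ := plV_near (L7.of_pat hpat) hv
        obtain ⟨w2, hw2⟩ := walk_of_steps hs
        refine fin ⟨v, ⟨i, (hp.good i).int_vert hi⟩,
          (w1.concat e.adj).append w2, ?_⟩
        rw [SimpleGraph.Walk.length_append, SimpleGraph.Walk.length_concat]
        omega
    · obtain ⟨w1, hw1⟩ := he.walk
      by_cases hB : ∀ x, R.face x = R.face e → ¬ FI p x.fst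
      · have hg : R.face e ∈ untF R (FI p) := mem_untF.2 fun x hx => ⟨by
          unfold sz at h4e ⊢
          rw [hx]
          exact h4e, hB x hx⟩
        by_cases hv : FI p d.fst
        · obtain ⟨i, hi⟩ := hv
          exact fin ⟨d.fst, ⟨i, (hp.good i).int_vert hi⟩, SimpleGraph.Walk.nil, Nat.zero_le _⟩
        · rcases walk_cases hp w1 hv with ⟨b, hb, q, hq⟩ | ⟨n, hn, hs⟩
          · exact fin ⟨b, hb, q, by omega⟩
          · right
            exact ⟨Sum.inr ⟨R.face e, hg⟩, mem_SG.2 ⟨hv, e, rfl, n, by omega, hs⟩⟩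
      · push Not at hB
        obtain ⟨x, hx, i, hi⟩ := hB
        obtain ⟨j, hj⟩ := ((face_eq_iff R e x).1 hx).exists_nat_pow_eq
        have h5 : Function.minimalPeriod R.next e = 4 := by rw [← sz_eq, h4e]
        have h7 : x = R.next^[j % 4] e := by
          rw [← h5, Function.iterate_mod_minimalPeriod_eq, ← hj, Equiv.Perm.coe_pow]
        have h9 : ∃ w : G.Walk e.fst x.fst, w.length ≤ 0 + j % 4 := by
          rw [h7]
          exact ((Near.refl R 0 e).iter (j % 4)).walk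
        obtain ⟨w2, hw2⟩ := h9
        have h8 := Nat.mod_lt j (show 4 > 0 by norm_num)
        refine fin ⟨x.fst, ⟨i, (hp.good i).int_vert hi⟩, w1.append w2, ?_⟩
        rw [SimpleGraph.Walk.length_append]
        omega

/-- **The family of places and the patterns**, for a general local condition: every dart at which
the condition fails is near a place of the catalogue, near a pattern or near a face of length
four. -/
theorem family_midF {R : Rot G} (hcub : ∀ v, G.degree v = 3) {r : ℕ} (Cat : Place V → Prop)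
    (hcat : ∀ q, Cat q → PlOK R r q) {Gd : G.Dart → Prop} {ρ : ℕ}
    (hocc : ∀ d : G.Dart, ¬ Gd d →
      (∃ x, Near R ρ d x ∧ ∃ q, Cat q ∧ x.fst ∈ q.Vert) ∨ (∃ e, Near R ρ d e ∧ Pat7 R e) ∨
        ∃ e, Near R ρ d e ∧ sz R e = 4) :
    ∃ (k : ℕ) (p : Fin k → Place V), Fam p G ∧ (∀ i, (p i).R.m ≤ 299) ∧
      (∀ i, (p i).R.t ≤ 299) ∧ Nonempty (MidF R (FI p) (FP p) Gd (DE ρ r) (NE ρ r)) := by
  classical
  have hdeg : Deg3 G := by
    intro v A hA
    rw [← hcub v, ← G.card_neighborFinset_eq_degree]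
    exact card_le_card fun w hw => (G.mem_neighborFinset v w).2 (hA w hw)
  obtain ⟨k, p, hp, hpc, hfar, hmax⟩ := exists_fam G Cat (fun q hq => (hcat q hq).good)
    (fun q hq => (hcat q hq).ne) (r + 1) (Nat.le_add_left 1 r)
  refine ⟨k, p, hp, fun i => (hcat _ (hpc i)).hm, fun i => (hcat _ (hpc i)).ht, ?_⟩
  have hfar' : ∀ i, ∀ j, j ≠ i → FarS G (r + 1) (p i).Vert (p j).Vert := fun i j hij =>
    hfar i j (Ne.symm hij)
  have hz : ∀ i : {i // ¬ GainP G (p i) r}, ∃ d, ZHex R (p i.1) d := by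
    rintro ⟨i, hi⟩
    exact ((hcat _ (hpc i)).kind.resolve_left hi).2
  choose z hz using hz
  have hj : ∀ i, ¬ GainP G (p i) r → JoinP G (p i) r := fun i hi =>
    ((hcat _ (hpc i)).kind.resolve_left hi).1
  refine midF_of_fam (ρ := ρ) (D := DE ρ r) (D1 := D1E ρ r) (D2 := r + 1) (N := 598)
    (N0 := NE ρ r) (r := r) (r1 := r) hp hdeg (fun i => GainP G (p i) r) Cat hmax
    (fun q hq => (hcat q hq).diam) hocc ?_ ?_ ?_ ?_ ?_ z hz ?_ ?_ ?_ ?_ ?_
  · intro i hi v _ t ht ht' n hn h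
    obtain ⟨m, hm, z', w', h1, h2⟩ := hp.near_ter hi (hfar' i) ht ht' hn h
    refine ⟨m, ?_, z', w', h1, h2⟩
    unfold DE
    omega
  · intro i hi v hv h1 h2
    refine hp.near_int ?_ hi (hfar' i) hv h1 h2
    unfold DE
    omega
  · intro i hi v hv
    exact hp.join_int (hj i hi) (hfar' i) hv
  · intro i hi t ht t' ht' h1 h2
    exact hp.join_ter (hj i hi) (hfar' i) ht ht' h1 h2
  · intro i
    have h1 := (hcat _ (hpc i)).hm
    have h2 := (hcat _ (hpc i)).ht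
    omega
  · unfold D1E
    omega
  · unfold DE
    omega
  · unfold DE D1E
    omega
  · unfold NE
    exact Nat.le_add_right _ _
  · unfold NE
    exact Nat.le_add_left _ _

open Classical in
/-- **The family of places, the patterns and linear growth**, for a general local condition with a
discharging inequality. -/
theorem family_genQ {R : Rot G} (hP : R.Plane) (hcub : ∀ v, G.degree v = 3) {r : ℕ}
    (Cat : Place V → Prop) (hcat : ∀ q, Cat q → PlOK R r q) {Gd : G.Dart → Prop} {ρ : ℕ}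
    (hocc : ∀ d : G.Dart, ¬ Gd d →
      (∃ x, Near R ρ d x ∧ ∃ q, Cat q ∧ x.fst ∈ q.Vert) ∨ (∃ e, Near R ρ d e ∧ Pat7 R e) ∨
        ∃ e, Near R ρ d e ∧ sz R e = 4)
    {A E : ℕ}
    (hdis : ∀ U : Finset V, ∑ d ∈ univ.filter (fun d : G.Dart => d.fst ∈ U), kap R d ≤
      - (1 / 1000) * (#{d : G.Dart | d.fst ∈ U ∧ sz R d ≠ 6} : ℝ) +
        A * #{d : G.Dart | d.fst ∈ U ∧ ¬ Gd d} + E * #(bd (G := G) U)) :
    ∃ (k : ℕ) (p : Fin k → Place V), Fam p G ∧ (∀ i, (p i).R.m ≤ 299) ∧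
      (∀ i, (p i).R.t ≤ 299) ∧ ∃ X : MidQ R (FI p) (FP p), X.Grow (CE A E ρ r) := by
  have hdeg : Deg3 G := by
    intro v A hA
    rw [← hcub v, ← G.card_neighborFinset_eq_degree]
    exact card_le_card fun w hw => (G.mem_neighborFinset v w).2 (hA w hw)
  obtain ⟨k, p, hp, hm, ht, ⟨X⟩⟩ := family_midF hcub Cat hcat hocc
  exact ⟨k, p, hp, hm, ht, X.toMidQ, X.grow A E hP hcub hp.vd (hp.deg hdeg) hdis⟩

end Pool.Agent.Uni392
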