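import Mathlib
import Pool.Agent.Work.MP_392c8e_co_uni.Near

/-!
# Discharging in plane graphs with long faces: a general rule

A function `t` on the darts: `t d` is sent across the edge `d` by a face of length five; then the
charge is spread inside every face, over the whole face for the lengths five and seven, over three
consecutive darts for the other lengths below `K`, over ten consecutive darts for the lengths from
`K` on.
-/

namespace Pool.Agent.Disch392

open Finset Pool.Agent.Sub392 Pool.Agent.T392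

set_option linter.unusedSectionVars false

variable {V : Type} [Fintype V] [DecidableEq V] {G : SimpleGraph V} [DecidableRel G.Adj]

/-- A rule with long faces. -/
structure RuleB (R : Rot G) (K : ℕ) (t : G.Dart → ℝ) : Prop where
  nonneg : ∀ d, 0 ≤ t d
  le : ∀ d, t d ≤ 201 / 200
  out : ∀ d, sz R d ≠ 5 → t d = 0
  small : ∀ d, sz R d ≤ 4 → t d.symm = 0
  six : ∀ d, sz R d = 6 → t d.symm = 0
  mid : ∀ d, 7 ≤ sz R d → sz R d < K → t d.symm ≤ 73 / 200

/-- The good darts for a rule with long faces. -/
structure GoodB (R : Rot G) (K : ℕ) (t : G.Dart → ℝ) (d : G.Dart) : Prop where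
  five_le : 5 ≤ sz R d
  five : sz R d = 5 → 201 / 200 ≤ ∑ i ∈ range 5, (t (R.next^[i] d) - t (R.next^[i] d).symm)
  seven : sz R d = 7 → ∑ i ∈ range 7, t (R.next^[i] d).symm ≤ 24 / 25
  mid : 8 ≤ sz R d → sz R d < K →
    t d.symm = 0 ∨ t (prev R d).symm = 0 ∨ t (prev R (prev R d)).symm = 0
  long : K ≤ sz R d → ∑ j ∈ range 10, t ((prev R)^[j] d).symm ≤ 193 / 20

open Classical in
/-- The charge carried to the next dart of the face. -/
noncomputable def aB (R : Rot G) (K : ℕ) (t : G.Dart → ℝ) (d : G.Dart) : ℝ :=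
  if sz R d = 5 ∨ sz R d = 7 then
    ∑ j ∈ range (sz R d), (((j : ℝ) + 1) / (sz R d : ℝ)) * xt R t (R.next^[j + 1] d)
  else if 8 ≤ sz R d then
    (if sz R d < K then (2 * t d.symm + t (prev R d).symm) / 3
      else ∑ j ∈ range 9, ((9 - (j : ℝ)) / 10) * t ((prev R)^[j] d).symm)
  else 0

/-- The final charge. -/
noncomputable def mB (R : Rot G) (K : ℕ) (t : G.Dart → ℝ) (d : G.Dart) : ℝ :=
  xt R t d + aB R K t (prev R d) - aB R K t d

theorem sz_prev_iter (R : Rot G) (d : G.Dart) (i : ℕ) : sz R ((prev R)^[i] d) = sz R d := by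
  induction i with
  | zero => rfl
  | succ i ih => rw [Function.iterate_succ_apply', sz_prev, ih]

section

variable {R : Rot G} {K : ℕ} {t : G.Dart → ℝ}

theorem mB_five {d : G.Dart} (h : sz R d = 5) :
    mB R K t d = (∑ i ∈ range 5, xt R t (R.next^[i] d)) / 5 := by
  have h5 : R.next^[5] d = d := by have := next_sz R d; rwa [h] at this
  unfold mB aB
  rw [sz_prev, h]
  simp only [true_or, if_true, iter_prev]
  simp only [sum_range_succ, sum_range_zero, Function.iterate_zero, id_eq, zero_add, h5]
  push_cast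
  ring

theorem mB_seven {d : G.Dart} (h : sz R d = 7) :
    mB R K t d = (∑ i ∈ range 7, xt R t (R.next^[i] d)) / 7 := by
  have h5 : R.next^[7] d = d := by have := next_sz R d; rwa [h] at this
  unfold mB aB
  rw [sz_prev, h]
  simp only [or_true, if_true, iter_prev]
  simp only [sum_range_succ, sum_range_zero, Function.iterate_zero, id_eq, zero_add, h5]
  push_cast
  ring

theorem mB_small {d : G.Dart} (h : sz R d ≤ 4) : mB R K t d = xt R t d := by
  unfold mB aB
  rw [sz_prev]
  rw [if_neg (by omega), if_neg (by omega), if_neg (by omega), if_neg (by omega)]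
  ring

theorem sumB_five {d : G.Dart} (h : sz R d = 5) :
    ∑ i ∈ range 5, xt R t (R.next^[i] d) =
      1 - ∑ i ∈ range 5, (t (R.next^[i] d) - t (R.next^[i] d).symm) := by
  have e : ∀ i ∈ range 5, xt R t (R.next^[i] d) =
      1 / 5 - (t (R.next^[i] d) - t (R.next^[i] d).symm) := by
    intro i _
    unfold xt
    rw [kap_five (by rw [sz_iter, h])]
    ring
  rw [sum_congr rfl e, sum_sub_distrib]
  simp

theorem kap_long {d : G.Dart} (hK : 1000 ≤ K) (h : K ≤ sz R d) : kap R d ≤ - (994 / 1000) := by
  unfold kap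
  have h1 : (1000 : ℝ) ≤ sz R d := by exact_mod_cast hK.trans h
  have h2 : 6 / (sz R d : ℝ) ≤ 6 / 1000 :=
    div_le_div_of_nonneg_left (by norm_num) (by norm_num) h1
  linarith

variable (ht : RuleB R K t)

include ht

theorem sumB_seven {d : G.Dart} (h : sz R d = 7) :
    ∑ i ∈ range 7, xt R t (R.next^[i] d) = -1 + ∑ i ∈ range 7, t (R.next^[i] d).symm := by
  have e : ∀ i ∈ range 7, xt R t (R.next^[i] d) = - (1 / 7) + t (R.next^[i] d).symm := by
    intro i _
    have h1 : sz R (R.next^[i] d) = 7 := by rw [sz_iter, h]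
    unfold xt
    rw [kap_seven h1, ht.out _ (by omega)]
    ring
  rw [sum_congr rfl e, sum_add_distrib]
  simp

theorem xtB_six {d : G.Dart} (h : sz R d = 6) : xt R t d = 0 := by
  unfold xt
  rw [kap_six h, ht.out d (by omega), ht.six d h]
  ring

theorem mB_six {d : G.Dart} (h : sz R d = 6) : mB R K t d = 0 := by
  unfold mB aB
  rw [sz_prev, h, xtB_six ht h]
  norm_num

theorem mB_mid {d : G.Dart} (h : 8 ≤ sz R d) (h' : sz R d < K) : mB R K t d =
    kap R d + (t d.symm + t (prev R d).symm + t (prev R (prev R d)).symm) / 3 := by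
  unfold mB aB xt
  rw [sz_prev, ht.out d (by omega), if_neg (by omega), if_pos h, if_pos h', if_neg (by omega),
    if_pos h, if_pos h']
  ring

theorem mB_long {d : G.Dart} (h : 8 ≤ sz R d) (h' : K ≤ sz R d) : mB R K t d =
    kap R d + (∑ j ∈ range 10, t ((prev R)^[j] d).symm) / 10 := by
  unfold mB aB xt
  rw [sz_prev, ht.out d (by omega), if_neg (by omega), if_pos h, if_neg (by omega),
    if_neg (by omega), if_pos h, if_neg (by omega)]
  simp only [← Function.iterate_succ_apply]
  simp only [sum_range_succ, sum_range_zero, Function.iterate_zero, id_eq, zero_add]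
  push_cast
  ring

/-- The charge at good darts. -/
theorem mB_good (hK : 1000 ≤ K) {d : G.Dart} (h : GoodB R K t d) (h6 : sz R d ≠ 6) :
    mB R K t d ≤ - (1 / 1000) := by
  have h0 := h.five_le
  rcases (by omega : sz R d = 5 ∨ sz R d = 7 ∨ 8 ≤ sz R d) with h1 | h1 | h1
  · rw [mB_five h1, sumB_five h1]
    have h2 := h.five h1
    linarith
  · rw [mB_seven h1, sumB_seven ht h1]
    have h2 := h.seven h1
    linarith
  · rcases Nat.lt_or_ge (sz R d) K with h2 | h2
    · rw [mB_mid ht h1 h2]
      have h3 := kap_eight h1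
      have a1 := ht.mid d (by omega) h2
      have a2 := ht.mid (prev R d) (by rw [sz_prev]; omega) (by rw [sz_prev]; exact h2)
      have a3 := ht.mid (prev R (prev R d)) (by rw [sz_prev, sz_prev]; omega)
        (by rw [sz_prev, sz_prev]; exact h2)
      rcases h.mid h1 h2 with h4 | h4 | h4 <;> rw [h4] <;> linarith
    · rw [mB_long ht h1 h2]
      have h3 := kap_long hK h2
      have h4 := h.long h2
      linarith

/-- The charge at all darts. -/
theorem mB_le (d : G.Dart) : mB R K t d ≤ 6 := by
  have n := ht.nonneg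
  have l := ht.le
  rcases (by omega : sz R d ≤ 4 ∨ sz R d = 5 ∨ sz R d = 6 ∨ sz R d = 7 ∨ 8 ≤ sz R d) with
    h1 | h1 | h1 | h1 | h1
  · rw [mB_small h1]
    unfold xt
    have h2 := kap_le R d
    have h3 := ht.small d h1
    have h4 := n d
    linarith
  · rw [mB_five h1]
    have h2 : ∀ i ∈ range 5, xt R t (R.next^[i] d) ≤ 2 := by
      intro i _
      unfold xt
      rw [kap_five (by rw [sz_iter, h1])]
      have a1 := n (R.next^[i] d)
      have a2 := l (R.next^[i] d).symm
      linarith
    have h3 := sum_le_sum h2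
    simp only [sum_const, card_range, nsmul_eq_mul] at h3
    push_cast at h3
    linarith
  · rw [mB_six ht h1]; norm_num
  · rw [mB_seven h1]
    have h2 : ∀ i ∈ range 7, xt R t (R.next^[i] d) ≤ 2 := by
      intro i _
      unfold xt
      rw [kap_seven (by rw [sz_iter, h1])]
      have a1 := n (R.next^[i] d)
      have a2 := l (R.next^[i] d).symm
      linarith
    have h3 := sum_le_sum h2
    simp only [sum_const, card_range, nsmul_eq_mul] at h3
    push_cast at h3
    linarith
  · have h3 := kap_eight h1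
    rcases Nat.lt_or_ge (sz R d) K with h2 | h2
    · rw [mB_mid ht h1 h2]
      have a1 := l d.symm
      have a2 := l (prev R d).symm
      have a3 := l (prev R (prev R d)).symm
      linarith
    · rw [mB_long ht h1 h2]
      have h4 : ∑ j ∈ range 10, t ((prev R)^[j] d).symm ≤ ∑ j ∈ range 10, (201 / 200 : ℝ) :=
        sum_le_sum fun j _ => l _
      simp only [sum_const, card_range, nsmul_eq_mul] at h4
      push_cast at h4
      linarith

theorem xtB_five_abs {d : G.Dart} (h : sz R d = 5) : |xt R t d| ≤ 3 / 2 := by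
  have h1 := ht.nonneg d
  have h2 := ht.le d
  have h3 := ht.nonneg d.symm
  have h4 := ht.le d.symm
  unfold xt
  rw [kap_five h, abs_le]
  constructor <;> linarith

theorem xtB_seven_abs (hK : 8 ≤ K) {d : G.Dart} (h : sz R d = 7) : |xt R t d| ≤ 1 := by
  have h1 := ht.nonneg d
  have h2 := ht.out d (by omega)
  have h3 := ht.nonneg d.symm
  have h4 := ht.mid d (by omega) (by omega)
  unfold xt
  rw [kap_seven h, h2, abs_le]
  constructor <;> linarith

theorem aB_abs (hK : 8 ≤ K) (d : G.Dart) : |aB R K t d| ≤ 5 := by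
  have key : ∀ (n : ℕ) (M : ℝ), 0 < n → 0 ≤ M → (∀ i, |xt R t (R.next^[i] d)| ≤ M) →
      |∑ j ∈ range n, (((j : ℝ) + 1) / (n : ℝ)) * xt R t (R.next^[j + 1] d)| ≤
        (∑ j ∈ range n, (((j : ℝ) + 1) / (n : ℝ))) * M := by
    intro n M hn hM h
    refine (abs_sum_le_sum_abs _ _).trans ?_
    rw [sum_mul]
    refine sum_le_sum fun j _ => ?_
    have h5 : 0 ≤ ((j : ℝ) + 1) / (n : ℝ) := by positivity
    rw [abs_mul, abs_of_nonneg h5]
    exact mul_le_mul_of_nonneg_left (h _) h5
  unfold aB
  split_ifs with h1 h2 h3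
  · rcases h1 with h1 | h1
    · rw [h1]
      refine (key 5 (3 / 2) (by norm_num) (by norm_num) fun i =>
        xtB_five_abs ht (by rw [sz_iter, h1])).trans ?_
      simp only [sum_range_succ, sum_range_zero]
      norm_num
    · rw [h1]
      refine (key 7 1 (by norm_num) (by norm_num) fun i =>
        xtB_seven_abs ht hK (by rw [sz_iter, h1])).trans ?_
      simp only [sum_range_succ, sum_range_zero]
      norm_num
  · have a1 := ht.nonneg d.symm
    have a2 := ht.le d.symm
    have a3 := ht.nonneg (prev R d).symm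
    have a4 := ht.le (prev R d).symm
    rw [abs_le]
    constructor <;> linarith
  · have h4 : ∀ j ∈ range 9, ((9 - (j : ℝ)) / 10) * t ((prev R)^[j] d).symm ≤
        ((9 - (j : ℝ)) / 10) * (201 / 200) := by
      intro j hj
      rw [mem_range] at hj
      have h5 : (j : ℝ) ≤ 8 := by exact_mod_cast Nat.lt_succ_iff.1 hj
      exact mul_le_mul_of_nonneg_left (ht.le _) (by linarith)
    have h5 : 0 ≤ ∑ j ∈ range 9, ((9 - (j : ℝ)) / 10) * t ((prev R)^[j] d).symm := by
      refine sum_nonneg fun j hj => ?_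
      rw [mem_range] at hj
      have h5 : (j : ℝ) ≤ 8 := by exact_mod_cast Nat.lt_succ_iff.1 hj
      exact mul_nonneg (by linarith) (ht.nonneg _)
    rw [abs_of_nonneg h5]
    refine (sum_le_sum h4).trans ?_
    simp only [sum_range_succ, sum_range_zero]
    push_cast
    norm_num
  · norm_num

open Classical in
/-- **Discharging for a set of vertices and a rule with long faces.** -/
theorem disch_ruleB (hK : 1000 ≤ K) (U : Finset V) :
    ∑ d ∈ univ.filter (fun d : G.Dart => d.fst ∈ U), kap R d ≤
      - (1 / 1000) * #{d : G.Dart | d.fst ∈ U ∧ sz R d ≠ 6} +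
        7 * #{d : G.Dart | d.fst ∈ U ∧ ¬ GoodB R K t d} + 15 * #(bd (G := G) U) := by
  have h1 : ∑ d ∈ univ.filter (fun d : G.Dart => d.fst ∈ U), kap R d =
      ∑ d ∈ univ.filter (fun d : G.Dart => d.fst ∈ U), mB R K t d +
      (∑ d ∈ univ.filter (fun d : G.Dart => d.fst ∈ U), t d -
        ∑ d ∈ univ.filter (fun d : G.Dart => d.snd ∈ U), t d) +
      (∑ d ∈ univ.filter (fun d : G.Dart => d.fst ∈ U), aB R K t d -
        ∑ d ∈ univ.filter (fun d : G.Dart => d.snd ∈ U), aB R K t d) := by
    rw [← sum_symm U t, ← sum_prev R U (aB R K t)]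
    rw [← sum_sub_distrib, ← sum_sub_distrib, ← sum_add_distrib, ← sum_add_distrib]
    refine sum_congr rfl fun d _ => ?_
    unfold mB xt
    ring
  have h2 := sum_fst_snd U t (201 / 200) fun d => by
    rw [abs_of_nonneg (ht.nonneg d)]; exact ht.le d
  have h3 := sum_fst_snd U (aB R K t) 5 (aB_abs ht (by omega))
  have h4 : ∑ d ∈ univ.filter (fun d : G.Dart => d.fst ∈ U), mB R K t d ≤
      ∑ d ∈ univ.filter (fun d : G.Dart => d.fst ∈ U),
        ((if sz R d ≠ 6 then (- (1 / 1000) : ℝ) else 0) + (if ¬ GoodB R K t d then 7 else 0)) := by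
    refine sum_le_sum fun d _ => ?_
    by_cases e1 : GoodB R K t d
    · by_cases e2 : sz R d = 6
      · rw [mB_six ht e2]; simp [e1, e2]
      · have := mB_good ht hK e1 e2
        rw [if_pos e2, if_neg (by simpa using e1)]
        linarith
    · have := mB_le ht d
      rw [if_pos e1]
      split_ifs <;> linarith
  have h5 : ∑ d ∈ univ.filter (fun d : G.Dart => d.fst ∈ U),
        ((if sz R d ≠ 6 then (- (1 / 1000) : ℝ) else 0) + (if ¬ GoodB R K t d then 7 else 0)) =
      - (1 / 1000) * #{d : G.Dart | d.fst ∈ U ∧ sz R d ≠ 6} +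
        7 * #{d : G.Dart | d.fst ∈ U ∧ ¬ GoodB R K t d} := by
    rw [sum_add_distrib, ← sum_filter, ← sum_filter, sum_const, sum_const, nsmul_eq_mul,
      nsmul_eq_mul, filter_filter, filter_filter]
    ring
  have h6 : (0 : ℝ) ≤ #(bd (G := G) U) := by positivity
  rw [h1]
  linarith

end

end Pool.Agent.Disch392
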