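import Mathlib
import Pool.Agent.Work.MP_392c8e_co_uni.LinesB
import Pool.Agent.Work.MP_392c8e_co_uni.DischB

/-!
# The rule with long faces

Senders follow the rule for short faces.  A face of length five with an exceptional dart sends all
it has across it; the relay carries it to a face with three consecutive long neighbours.  A face of
length five with long neighbours sends what it has to them.
-/

namespace Pool.Agent.DischB

open Finset Pool.Agent.Sub392 Pool.Agent.T392 Pool.Agent.Disch392

set_option linter.unusedSectionVars false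

variable {V : Type} [Fintype V] [DecidableEq V] {G : SimpleGraph V} [DecidableRel G.Adj]

/-- The number of long neighbours of a face of length five. -/
noncomputable def lc (R : Rot G) (K : ℕ) (d : G.Dart) : ℕ := #{i ∈ range 5 | K ≤ nb R d i}

/-- Three consecutive long neighbours. -/
def T3 (R : Rot G) (K : ℕ) (d : G.Dart) : Prop :=
  ∃ i < 5, K ≤ nb R d i ∧ K ≤ nb R d (i + 1) ∧ K ≤ nb R d (i + 2)

section rule

open Classical

variable (R : Rot G) (K : ℕ)

/-- What is sent by the senders. -/
noncomputable def tA (d : G.Dart) : ℝ := if Snd R K d then rule R d else 0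

/-- What is sent across the exceptional darts. -/
noncomputable def tS (d : G.Dart) : ℝ := if X1 R K d ∨ X2 R K d then 201 / 200 else 0

/-- The relay. -/
noncomputable def tT (d : G.Dart) : ℝ :=
  (if sz R d = 5 ∧ X1 R K (ad R d 3) then 201 / 200 else 0) +
    (if sz R d = 5 ∧ X2 R K (ad R d 2) then 201 / 200 else 0)

/-- What is sent to the long faces. -/
noncomputable def tW (d : G.Dart) : ℝ :=
  if sz R d = 5 ∧ K ≤ nb R d 0 then (if T3 R K d then 201 / 200 else 201 / 200 / lc R K d) else 0

/-- **The rule.** -/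
noncomputable def tB (d : G.Dart) : ℝ := tA R K d + tS R K d + tT R K d + tW R K d

end rule

section lemmas

variable {R : Rot G} {K : ℕ}

theorem nb_zero (d : G.Dart) : nb R d 0 = sz R d.symm := rfl

theorem nb_symm (d : G.Dart) : nb R d.symm 0 = sz R d := by
  rw [nb_zero, SimpleGraph.Dart.symm_symm]

theorem Bf.lt {d : G.Dart} (h : Bf R K d) (i : ℕ) : nb R d i < K := by
  have := (h.iter i).2 0 (by norm_num)
  rwa [nb_iter] at this

theorem X1.bf {d : G.Dart} (h : X1 R K d) : Bf R K d := h.1

theorem X2.bf {d : G.Dart} (h : X2 R K d) : Bf R K d := h.1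

/-- The neighbour across an exceptional dart has a long neighbour. -/
theorem X1.long (h3 : ∀ v, G.degree v = 3) {d : G.Dart} (h : X1 R K d) :
    K ≤ nb R (ad R d 0) 3 := by
  obtain ⟨-, -, h2, -, -, h5⟩ := h
  rwa [nb_ad_last h3 _ h2] at h5

theorem X2.long (h3 : ∀ v, G.degree v = 3) {d : G.Dart} (h : X2 R K d) :
    K ≤ nb R (ad R d 0) 2 := by
  obtain ⟨-, -, -, h5, -, -⟩ := h
  rwa [nb_ad_one h3 _ 2] at h5

/-- The data of a relay of the first kind across `e`. -/
theorem relay1 (h3 : ∀ v, G.degree v = 3) {e : G.Dart} (hs : sz R e = 5) (h : X1 R K (ad R e 3)) :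
    nb R e 0 = 5 ∧ K ≤ nb R (ad R e 0) 2 ∧ K ≤ nb R (ad R e 0) 3 ∧ K ≤ nb R (ad R e 0) 4 ∧
      K ≤ nb R e 1 ∧ nb R e 4 < K := by
  have e0 : ad R (ad R e 3) 0 = R.next^[3] e := SimpleGraph.Dart.symm_symm _
  have h' := h
  obtain ⟨h1, h2, h4, h5, h6, h7⟩ := h
  rw [e0, nb_iter] at h4
  rw [e0, ad_iter] at h5 h6 h7
  have p1 : nb R e (3 + 2) = nb R e 0 := nb_per R hs 0
  have p2 : ad R e (3 + 2) = ad R e 0 := ad_per R hs 0
  rw [p1] at h4
  rw [p2] at h5 h6 h7
  refine ⟨h4, h5, h6, h7, ?_, ?_⟩
  · rwa [nb_ad_last h3 _ h4] at h7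
  · have h8 := h1.lt 4
    rwa [nb_ad_last h3 _ (h1.1 : nb R e 3 = 5)] at h8

/-- The data of a relay of the second kind across `e`. -/
theorem relay2 (h3 : ∀ v, G.degree v = 3) {e : G.Dart} (hs : sz R e = 5) (h : X2 R K (ad R e 2)) :
    nb R e 0 = 5 ∧ K ≤ nb R (ad R e 0) 1 ∧ K ≤ nb R (ad R e 0) 2 ∧ K ≤ nb R (ad R e 0) 3 ∧
      K ≤ nb R e 4 := by
  have e0 : ad R (ad R e 2) 0 = R.next^[2] e := SimpleGraph.Dart.symm_symm _
  obtain ⟨h1, h2, h4, h5, h6, h7⟩ := h
  rw [e0, nb_iter] at h4
  rw [e0, ad_iter] at h5 h6 h7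
  have p1 : nb R e (2 + 3) = nb R e 0 := nb_per R hs 0
  have p2 : ad R e (2 + 3) = ad R e 0 := ad_per R hs 0
  rw [p1] at h4
  rw [p2] at h5 h6 h7
  refine ⟨h4, h5, h6, h7, ?_⟩
  have h8 := nb_ad_one (R := R) h3 e 4
  rw [show (4 : ℕ) + 1 = 0 + 5 from rfl, ad_per R hs] at h8
  rwa [h8] at h5

theorem tA_nonneg (d : G.Dart) : 0 ≤ tA R K d := by
  unfold tA
  split_ifs
  · exact (rule_rule R).nonneg d
  · exact le_rfl

theorem tA_le (d : G.Dart) : tA R K d ≤ 73 / 200 := by
  unfold tA
  split_ifs
  · exact (rule_rule R).le d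
  · norm_num

theorem tA_zero {d : G.Dart} (h : ¬ (Snd R K d ∧ 7 ≤ nb R d 0)) : tA R K d = 0 := by
  unfold tA
  split_ifs with h1
  · exact (rule_rule R).zero d fun h3 => h ⟨h1, h3.2⟩
  · rfl

theorem tS_nonneg (d : G.Dart) : 0 ≤ tS R K d := by
  unfold tS; split_ifs <;> norm_num

theorem tS_le (d : G.Dart) : tS R K d ≤ 201 / 200 := by
  unfold tS; split_ifs <;> norm_num

theorem tS_zero {d : G.Dart} (h : ¬ (Bf R K d ∧ nb R d 0 = 5)) : tS R K d = 0 := by
  unfold tS
  rw [if_neg]
  rintro (h1 | h1)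
  · exact h ⟨h1.1, h1.2.1⟩
  · exact h ⟨h1.1, h1.2.1⟩

theorem tT_nonneg (d : G.Dart) : 0 ≤ tT R K d := by
  unfold tT; split_ifs <;> norm_num

theorem tT_le (h3 : ∀ v, G.degree v = 3) (d : G.Dart) : tT R K d ≤ 201 / 200 := by
  unfold tT
  by_cases h1 : sz R d = 5 ∧ X1 R K (ad R d 3)
  · have h2 : ¬ (sz R d = 5 ∧ X2 R K (ad R d 2)) := by
      intro h2
      have h4 := (relay1 h3 h1.1 h1.2).2.2.2.2.2
      have h5 := (relay2 h3 h1.1 h2.2).2.2.2.2
      omega
    rw [if_pos h1, if_neg h2]
    norm_num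
  · rw [if_neg h1]
    split_ifs <;> norm_num

/-- The relay starts at a face of length five with a long neighbour and ends at a face of length
five with three consecutive long neighbours. -/
theorem tT_ne (h3 : ∀ v, G.degree v = 3) {d : G.Dart} (h : tT R K d ≠ 0) :
    sz R d = 5 ∧ nb R d 0 = 5 ∧ (∃ i < 5, K ≤ nb R d i) ∧ T3 R K (ad R d 0) := by
  have : (sz R d = 5 ∧ X1 R K (ad R d 3)) ∨ (sz R d = 5 ∧ X2 R K (ad R d 2)) := by
    by_contra hcon
    push Not at hcon
    apply h
    unfold tT
    rw [if_neg fun h1 => hcon.1 h1.1 h1.2, if_neg fun h1 => hcon.2 h1.1 h1.2]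
    norm_num
  rcases this with h1 | h1
  · obtain ⟨a1, a2, a3, a4, a5, -⟩ := relay1 h3 h1.1 h1.2
    exact ⟨h1.1, a1, ⟨1, by norm_num, a5⟩, 2, by norm_num, a2, a3, a4⟩
  · obtain ⟨a1, a2, a3, a4, a5⟩ := relay2 h3 h1.1 h1.2
    exact ⟨h1.1, a1, ⟨4, by norm_num, a5⟩, 1, by norm_num, a2, a3, a4⟩

theorem tW_nonneg (d : G.Dart) : 0 ≤ tW R K d := by
  unfold tW; split_ifs <;> positivity

theorem lc_pos {d : G.Dart} {i : ℕ} (hi : i < 5) (h : K ≤ nb R d i) : 1 ≤ lc R K d := by
  unfold lc
  rw [Nat.one_le_iff_ne_zero, card_ne_zero]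
  exact ⟨i, mem_filter.2 ⟨mem_range.2 hi, h⟩⟩

theorem tW_le (d : G.Dart) : tW R K d ≤ 201 / 200 := by
  unfold tW
  split_ifs with h1 h2
  · exact le_rfl
  · have h3 : (1 : ℝ) ≤ lc R K d := by exact_mod_cast lc_pos (by norm_num) h1.2
    rw [div_le_iff₀ (by linarith)]
    linarith
  · norm_num

theorem tW_zero {d : G.Dart} (h : ¬ (sz R d = 5 ∧ K ≤ nb R d 0)) : tW R K d = 0 := by
  unfold tW
  rw [if_neg h]

theorem tB_ruleB (hK : 8 ≤ K) (h3 : ∀ v, G.degree v = 3) : RuleB R K (tB R K) where
  nonneg := fun d => by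
    unfold tB
    have h1 := tA_nonneg (R := R) (K := K) d
    have h2 := tS_nonneg (R := R) (K := K) d
    have h4 := tT_nonneg (R := R) (K := K) d
    have h5 := tW_nonneg (R := R) (K := K) d
    linarith
  le := fun d => by
    unfold tB
    have h1 := tA_le (R := R) (K := K) d
    have h2 := tS_le (R := R) (K := K) d
    have h4 := tT_le (K := K) h3 d (R := R)
    have h5 := tW_le (R := R) (K := K) d
    by_cases eb : Bf R K d
    · have e1 : tT R K d = 0 := by
        by_contra hc
        obtain ⟨-, -, ⟨i, hi, h6⟩, -⟩ := tT_ne h3 hc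
        have := eb.2 i hi
        omega
      have e2 : tW R K d = 0 := tW_zero fun h6 => by
        have := eb.2 0 (by norm_num)
        omega
      rw [e1, e2]
      by_cases e3 : nb R d 0 = 5
      · rw [tA_zero fun h6 => by omega]
        linarith
      · rw [tS_zero fun h6 => e3 h6.2]
        linarith
    · rw [tA_zero fun h6 => eb h6.1.1, tS_zero fun h6 => eb h6.1]
      by_cases e3 : nb R d 0 = 5
      · rw [tW_zero fun h6 => by omega]
        linarith
      · have e1 : tT R K d = 0 := by
          by_contra hc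
          exact e3 (tT_ne h3 hc).2.1
        rw [e1]
        linarith
  out := fun d hd => by
    unfold tB
    have e1 : tT R K d = 0 := by
      by_contra hc
      exact hd (tT_ne h3 hc).1
    rw [tA_zero fun h => hd h.1.1.1, tS_zero fun h => hd h.1.1, tW_zero fun h => hd h.1, e1]
    norm_num
  small := fun d hd => by
    unfold tB
    have e0 : nb R d.symm 0 = sz R d := nb_symm d
    have e1 : tT R K d.symm = 0 := by
      by_contra hc
      have := (tT_ne h3 hc).2.1
      omega
    rw [tA_zero fun h => by omega, tS_zero fun h => by omega, tW_zero fun h => by omega, e1]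
    norm_num
  six := fun d hd => by
    unfold tB
    have e0 : nb R d.symm 0 = sz R d := nb_symm d
    have e1 : tT R K d.symm = 0 := by
      by_contra hc
      have := (tT_ne h3 hc).2.1
      omega
    rw [tA_zero fun h => by omega, tS_zero fun h => by omega, tW_zero fun h => by omega, e1]
    norm_num
  mid := fun d h1 h2 => by
    unfold tB
    have e0 : nb R d.symm 0 = sz R d := nb_symm d
    have e1 : tT R K d.symm = 0 := by
      by_contra hc
      have := (tT_ne h3 hc).2.1
      omega
    have e2 := tA_le (R := R) (K := K) d.symm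
    rw [tS_zero fun h => by omega, tW_zero fun h => by omega, e1]
    linarith

/-! ### Faces of length five -/

theorem sum5_shift (F : ℕ → ℝ) (h : ∀ i, F (i + 5) = F i) (k : ℕ) :
    ∑ i ∈ range 5, F (i + k) = ∑ i ∈ range 5, F i := by
  induction k with
  | zero => rfl
  | succ k ih =>
    rw [← ih]
    have h0 : F (5 + k) = F (0 + k) := by
      have := h k
      rw [Nat.add_comm] at this
      rw [this, Nat.zero_add]
    simp only [sum_range_succ, sum_range_zero, zero_add]
    have e : ∀ i, F (i + (k + 1)) = F ((i + 1) + k) := fun i => by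
      congr 1
      omega
    have e1 := e 0
    have e2 := e 1
    have e3 := e 2
    have e4 := e 3
    have e5 := e 4
    simp only [zero_add, Nat.reduceAdd] at e1 e2 e3 e4 e5 h0
    rw [e1, e2, e3, e4, e5, h0]
    ring

/-- The relays take away at least what comes across the exceptional darts. -/
theorem relay_bal {d : G.Dart} (hs : sz R d = 5) :
    ∑ i ∈ range 5, tS R K (ad R d i) ≤ ∑ i ∈ range 5, tT R K (R.next^[i] d) := by
  classical
  set A : ℕ → ℝ := fun i => if X1 R K (ad R d i) then 201 / 200 else 0 with hA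
  set B : ℕ → ℝ := fun i => if X2 R K (ad R d i) then 201 / 200 else 0 with hB
  have e1 : ∀ i ∈ range 5, tT R K (R.next^[i] d) = A (i + 3) + B (i + 2) := by
    intro i _
    unfold tT
    rw [sz_iter, ad_iter, ad_iter, hA, hB]
    simp only [hs, true_and]
  have e2 : ∀ i ∈ range 5, tS R K (ad R d i) ≤ A i + B i := by
    intro i _
    unfold tS
    rw [hA, hB]
    simp only
    by_cases h1 : X1 R K (ad R d i) <;> by_cases h2 : X2 R K (ad R d i) <;>
      simp only [h1, h2, if_true, if_false, true_or, or_true, or_self] <;> norm_num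
  refine (sum_le_sum e2).trans (le_of_eq ?_)
  rw [sum_congr rfl e1, sum_add_distrib, sum_add_distrib,
    sum5_shift A (fun i => by rw [hA]; simp only [ad_per R hs]) 3,
    sum5_shift B (fun i => by rw [hB]; simp only [ad_per R hs]) 2]

theorem lc_iter {d : G.Dart} (hs : sz R d = 5) (k : ℕ) :
    (lc R K (R.next^[k] d) : ℝ) = lc R K d := by
  classical
  have e : ∀ x : G.Dart, (lc R K x : ℝ) = ∑ i ∈ range 5, if K ≤ nb R x i then (1 : ℝ) else 0 := by
    intro x
    unfold lc
    rw [card_filter]
    push_cast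
    rfl
  rw [e, e]
  have := sum5_shift (fun i => if K ≤ nb R d i then (1 : ℝ) else 0)
    (fun i => by simp only [nb_per R hs]) k
  rw [← this]
  refine sum_congr rfl fun i _ => ?_
  rw [nb_iter, Nat.add_comm]

theorem T3_iter {d : G.Dart} (hs : sz R d = 5) (k : ℕ) :
    T3 R K (R.next^[k] d) ↔ T3 R K d := by
  have key : ∀ x : G.Dart, sz R x = 5 → (T3 R K (R.next x) ↔ T3 R K x) := by
    intro x hx
    have p : ∀ i, nb R (R.next x) i = nb R x (i + 1) := fun i => by
      have := nb_iter R x 1 i
      rw [Function.iterate_one] at this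
      rw [this, Nat.add_comm]
    constructor
    · rintro ⟨i, hi, h1, h2, h4⟩
      rw [p] at h1 h2 h4
      rcases Nat.lt_or_ge (i + 1) 5 with h | h
      · exact ⟨i + 1, h, h1, h2, h4⟩
      · have : i = 4 := by omega
        subst this
        refine ⟨0, by norm_num, ?_, ?_, ?_⟩
        · rwa [show (4 : ℕ) + 1 = 0 + 5 from rfl, nb_per R hx] at h1
        · rwa [show (4 : ℕ) + 1 + 1 = 1 + 5 from rfl, nb_per R hx] at h2
        · rwa [show (4 : ℕ) + 2 + 1 = 2 + 5 from rfl, nb_per R hx] at h4
    · rintro ⟨i, hi, h1, h2, h4⟩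
      rcases Nat.eq_zero_or_pos i with h | h
      · subst h
        refine ⟨4, by norm_num, ?_, ?_, ?_⟩
        · rwa [p, show (4 : ℕ) + 1 = 0 + 5 from rfl, nb_per R hx]
        · rwa [p, show (4 : ℕ) + 1 + 1 = 1 + 5 from rfl, nb_per R hx]
        · rwa [p, show (4 : ℕ) + 2 + 1 = 2 + 5 from rfl, nb_per R hx]
      · obtain ⟨j, rfl⟩ : ∃ j, i = j + 1 := ⟨i - 1, by omega⟩
        exact ⟨j, by omega, by rw [p]; exact h1, by rw [p]; exact h2, by rw [p]; exact h4⟩
  induction k with
  | zero => rfl
  | succ k ih =>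
    rw [Function.iterate_succ_apply']
    exact (key _ (by rw [sz_iter, hs])).trans ih

theorem three_le_lc {d : G.Dart} (hs : sz R d = 5) (h : T3 R K d) : 3 ≤ lc R K d := by
  obtain ⟨i, hi, h1, h2, h4⟩ := h
  have e5 : nb R d 5 = nb R d 0 := nb_per R hs 0
  have e6 : nb R d 6 = nb R d 1 := nb_per R hs 1
  have key : ∀ a b c : ℕ, a < 5 → b < 5 → c < 5 → a ≠ b → a ≠ c → b ≠ c → K ≤ nb R d a →
      K ≤ nb R d b → K ≤ nb R d c → 3 ≤ lc R K d := by
    intro a b c ha hb hc hab hac hbc k1 k2 k3
    have h5 : #({a, b, c} : Finset ℕ) = 3 := by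
      rw [card_insert_of_notMem, card_pair hbc]
      simp [hab, hac]
    rw [← h5]
    unfold lc
    refine card_le_card fun x hx => ?_
    simp only [mem_insert, mem_singleton] at hx
    rw [mem_filter, mem_range]
    rcases hx with rfl | rfl | rfl
    · exact ⟨ha, k1⟩
    · exact ⟨hb, k2⟩
    · exact ⟨hc, k3⟩
  interval_cases i
  · exact key 0 1 2 (by norm_num) (by norm_num) (by norm_num) (by norm_num) (by norm_num)
      (by norm_num) h1 h2 h4
  · exact key 1 2 3 (by norm_num) (by norm_num) (by norm_num) (by norm_num) (by norm_num)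
      (by norm_num) h1 h2 h4
  · exact key 2 3 4 (by norm_num) (by norm_num) (by norm_num) (by norm_num) (by norm_num)
      (by norm_num) h1 h2 h4
  · exact key 3 4 0 (by norm_num) (by norm_num) (by norm_num) (by norm_num) (by norm_num)
      (by norm_num) h1 h2 (by rw [← e5]; exact h4)
  · exact key 4 0 1 (by norm_num) (by norm_num) (by norm_num) (by norm_num) (by norm_num)
      (by norm_num) h1 (by rw [← e5]; exact h2) (by rw [← e6]; exact h4)

/-- A face of length five with a long neighbour. -/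
theorem five_long (hK : 8 ≤ K) (h3 : ∀ v, G.degree v = 3) {d : G.Dart} (hs : sz R d = 5)
    (hl : ∃ i < 5, K ≤ nb R d i) :
    201 / 200 ≤ ∑ i ∈ range 5, (tB R K (R.next^[i] d) - tB R K (R.next^[i] d).symm) := by
  classical
  have hs' : ∀ i, sz R (R.next^[i] d) = 5 := fun i => by rw [sz_iter, hs]
  obtain ⟨i0, hi0, hl0⟩ := hl
  have hlc := lc_pos hi0 hl0
  have hlc0 : (1 : ℝ) ≤ lc R K d := by exact_mod_cast hlc
  have n0 : ∀ i, nb R (R.next^[i] d) 0 = nb R d i := fun i => by rw [nb_iter, Nat.add_zero]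
  -- what comes in
  have hin : ∀ i ∈ range 5, tB R K (R.next^[i] d).symm =
      tS R K (ad R d i) + tT R K (ad R d i) := by
    intro i _
    have e0 : nb R (ad R d i) 0 = 5 := by rw [nb_ad_zero, hs]
    show tB R K (ad R d i) = _
    unfold tB
    rw [tA_zero fun h => by omega, tW_zero fun h => by omega]
    ring
  -- what goes out
  have hout : ∀ i ∈ range 5, tT R K (R.next^[i] d) + tW R K (R.next^[i] d) ≤
      tB R K (R.next^[i] d) := by
    intro i _
    unfold tB
    have h1 := tA_nonneg (R := R) (K := K) (R.next^[i] d)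
    have h2 := tS_nonneg (R := R) (K := K) (R.next^[i] d)
    linarith
  have hbal := relay_bal (K := K) hs
  rw [sum_sub_distrib, sum_congr rfl hin]
  have h5 := sum_le_sum hout
  rw [sum_add_distrib] at h5 ⊢
  suffices h6 : 201 / 200 + ∑ i ∈ range 5, tT R K (ad R d i) ≤
      ∑ i ∈ range 5, tW R K (R.next^[i] d) by linarith
  by_cases hT : T3 R K d
  · have e1 : ∀ i ∈ range 5, tW R K (R.next^[i] d) =
        if K ≤ nb R d i then 201 / 200 else 0 := by
      intro i _
      unfold tW
      rw [n0, if_pos ((T3_iter hs i).2 hT)]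
      simp only [hs' i, true_and]
    have e2 : ∀ i ∈ range 5, tT R K (ad R d i) ≤
        201 / 200 - (if K ≤ nb R d i then 201 / 200 else 0) := by
      intro i _
      by_cases h6 : K ≤ nb R d i
      · rw [if_pos h6]
        have : tT R K (ad R d i) = 0 := by
          by_contra hc
          have := (tT_ne h3 hc).1
          rw [sz_ad] at this
          omega
        rw [this]
        norm_num
      · rw [if_neg h6]
        have := tT_le (K := K) h3 (ad R d i) (R := R)
        linarith
    have h7 := sum_le_sum e2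
    rw [sum_sub_distrib, sum_ite_card] at h7
    rw [sum_congr rfl e1, sum_ite_card]
    simp only [sum_const, card_range, nsmul_eq_mul] at h7
    have h8 : (3 : ℝ) ≤ #{i ∈ range 5 | K ≤ nb R d i} := by
      exact_mod_cast three_le_lc hs hT
    push_cast at h7
    linarith
  · have e1 : ∀ i ∈ range 5, tW R K (R.next^[i] d) =
        if K ≤ nb R d i then 201 / 200 / (lc R K d : ℝ) else 0 := by
      intro i _
      unfold tW
      rw [n0, if_neg fun h => hT ((T3_iter hs i).1 h), lc_iter hs]
      simp only [hs' i, true_and]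
    have e2 : ∀ i ∈ range 5, tT R K (ad R d i) = 0 := by
      intro i _
      by_contra hc
      have h6 := (tT_ne h3 hc).2.2.2
      have e3 : ad R (ad R d i) 0 = R.next^[i] d := SimpleGraph.Dart.symm_symm _
      rw [e3] at h6
      exact hT ((T3_iter hs i).1 h6)
    rw [sum_congr rfl e1, sum_congr rfl e2, sum_ite_card, sum_const_zero, add_zero]
    have e3 : (#{i ∈ range 5 | K ≤ nb R d i} : ℝ) = lc R K d := rfl
    rw [e3, mul_div_cancel₀ _ (by linarith)]

/-- A face of length five without long neighbours. -/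
theorem five_bf (hK : 8 ≤ K) (h3 : ∀ v, G.degree v = 3) {d : G.Dart} (h : Bf R K d)
    (hL : Snd R K d → ∀ i < 5, Loc5 R (R.next^[i] d)) :
    201 / 200 ≤ ∑ i ∈ range 5, (tB R K (R.next^[i] d) - tB R K (R.next^[i] d).symm) := by
  classical
  have hs' : ∀ i, sz R (R.next^[i] d) = 5 := fun i => by rw [sz_iter, h.1]
  -- nothing comes in
  have hin : ∀ i, tB R K (R.next^[i] d).symm = 0 := by
    intro i
    have e0 : nb R (ad R d i) 0 = 5 := by rw [nb_ad_zero, h.1]
    have e3 : ad R (ad R d i) 0 = R.next^[i] d := SimpleGraph.Dart.symm_symm _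
    show tB R K (ad R d i) = _
    unfold tB
    have e1 : tT R K (ad R d i) = 0 := by
      by_contra hc
      have h6 := (tT_ne h3 hc).2.2.2
      rw [e3] at h6
      obtain ⟨j, -, h7, -⟩ := h6
      have := (h.iter i).lt j
      omega
    have e2 : tS R K (ad R d i) = 0 := by
      unfold tS
      rw [if_neg]
      rintro (h6 | h6)
      · have h7 := h6.long h3
        rw [e3] at h7
        have := (h.iter i).lt 3
        omega
      · have h7 := h6.long h3
        rw [e3] at h7
        have := (h.iter i).lt 2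
        omega
    rw [tA_zero fun h => by omega, tW_zero fun h => by omega, e1, e2]
    norm_num
  have e : ∀ i ∈ range 5, tB R K (R.next^[i] d) - tB R K (R.next^[i] d).symm =
      tB R K (R.next^[i] d) := fun i _ => by rw [hin, sub_zero]
  rw [sum_congr rfl e]
  have hR := tB_ruleB (R := R) hK h3
  by_cases hS : Snd R K d
  · refine (five_of h.1 (hL hS)).trans (sum_le_sum fun i _ => ?_)
    unfold tB tA
    rw [if_pos (hS.iter i)]
    have h2 := tS_nonneg (R := R) (K := K) (R.next^[i] d)
    have h4 := tT_nonneg (R := R) (K := K) (R.next^[i] d)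
    have h5 := tW_nonneg (R := R) (K := K) (R.next^[i] d)
    linarith
  · have : ∃ i < 5, X1 R K (R.next^[i] d) ∨ X2 R K (R.next^[i] d) := by
      by_contra hcon
      push Not at hcon
      exact hS ⟨h, fun i hi => hcon i hi⟩
    obtain ⟨i, hi, h6⟩ := this
    have h7 : 201 / 200 ≤ tB R K (R.next^[i] d) := by
      unfold tB
      have h1 := tA_nonneg (R := R) (K := K) (R.next^[i] d)
      have h4 := tT_nonneg (R := R) (K := K) (R.next^[i] d)
      have h5 := tW_nonneg (R := R) (K := K) (R.next^[i] d)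
      have h2 : tS R K (R.next^[i] d) = 201 / 200 := by
        unfold tS
        rw [if_pos h6]
      linarith
    exact h7.trans (single_le_sum (f := fun i => tB R K (R.next^[i] d))
      (fun j _ => hR.nonneg _) (mem_range.2 hi))

end lemmas

end Pool.Agent.DischB
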