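import Mathlib
import Pool.Agent.Work.MP_392c8e_co_uni.DischB2

/-!
# Discharging in cubic plane graphs with long faces

The local conditions `LocB` near a dart imply that it is good for the rule with long faces.
-/

namespace Pool.Agent.DischB

open Finset Pool.Agent.Sub392 Pool.Agent.T392 Pool.Agent.Disch392

set_option linter.unusedSectionVars false

/-! ### The finite check -/

/-- The classes of the senders. -/
def isS (x : Fin 5) : Bool := decide (x = 1) || decide (x = 2) || decide (x = 3)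

/-- The conditions for three consecutive neighbours. -/
def okT (x y z : Fin 5) : Bool :=
  !(isS y && decide (x ≠ 0) && decide (z ≠ 0)) && !(decide (y = 4) && isS x && isS z) &&
  !(decide (y = 1) && (decide (x ≠ 0) || decide (z ≠ 0))) &&
  !(isS y && isS z && (decide (y = 3) != decide (z = 3)))

/-- The conditions for a face of length seven. -/
def ok7 (a b c d e f : Fin 5) : Bool :=
  !(decide (a = 3) && decide (b = 3) && (isS d || isS e || isS f)) &&
  !(isS a && isS b && isS d && isS e) &&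
  !(isS a && decide (b ≠ 0) && isS d && isS f) &&
  !(decide (a ≠ 0) && isS b && isS d && isS f) &&
  !(decide (a = 1) && decide (c = 1) && decide (e = 1))

/-- What is received. -/
def wB (x y z : Fin 5) : ℕ :=
  if y = 1 then 67 else if y = 2 then 52 else if y = 3 then (if x ≠ 0 ∨ z ≠ 0 then 73 else 56)
  else 0

theorem wB_two (x z : Fin 5) : wB x 2 z = 52 := by
  unfold wB
  rw [if_neg (by decide), if_pos rfl]

theorem wB_three {x z : Fin 5} (h : x ≠ 0 ∨ z ≠ 0) : wB x 3 z = 73 := by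
  unfold wB
  rw [if_neg (by decide), if_neg (by decide), if_pos rfl, if_pos h]

theorem wB_three' {x z : Fin 5} (h : ¬ (x ≠ 0 ∨ z ≠ 0)) : wB x 3 z = 56 := by
  unfold wB
  rw [if_neg (by decide), if_neg (by decide), if_pos rfl, if_neg h]

theorem seven_checkB : ∀ a b c : Fin 5, okT a b c = true → ∀ d : Fin 5, okT b c d = true →
    ∀ e : Fin 5, okT c d e = true → ∀ f : Fin 5, okT d e f = true → ∀ g : Fin 5,
    okT e f g = true → okT f g a = true → okT g a b = true →
    (ok7 a b c d e f && ok7 b c d e f g && ok7 c d e f g a && ok7 d e f g a b &&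
      ok7 e f g a b c && ok7 f g a b c d && ok7 g a b c d e) = true →
    wB g a b + wB a b c + wB b c d + wB c d e + wB d e f + wB e f g + wB f g a ≤ 192 := by
  decide +kernel

variable {V : Type} [Fintype V] [DecidableEq V] {G : SimpleGraph V} [DecidableRel G.Adj]

open Classical in
/-- The class of the neighbour across a dart. -/
noncomputable def cB (R : Rot G) (K : ℕ) (e : G.Dart) : Fin 5 :=
  if nb R e 0 = 5 then (if Snd R K (ad R e 0) then
    (if c5 R (ad R e 0) = 0 then 1 else if c5 R (ad R e 0) = 1 then 2 else 3) else 4) else 0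

section

variable {R : Rot G} {K : ℕ}

theorem Snd.five {e : G.Dart} (h : Snd R K (ad R e 0)) : nb R e 0 = 5 := h.1.1

theorem cB_ne {e : G.Dart} : cB R K e ≠ 0 ↔ nb R e 0 = 5 := by
  unfold cB; split_ifs with h1 h2 h3 h4 <;> simp [h1]

theorem cB_isS {e : G.Dart} : isS (cB R K e) = true ↔ Snd R K (ad R e 0) := by
  unfold cB
  split_ifs with h1 h2 h3 h4
  · simp [h2, isS]
  · simp [h2, isS]
  · simp [h2, isS]
  · simp [h2, isS]
  · simp only [isS]
    constructor
    · intro h; simp at h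
    · intro h; exact absurd h.five h1

theorem cB_one {e : G.Dart} : cB R K e = 1 ↔ Snd R K (ad R e 0) ∧ c5 R (ad R e 0) = 0 := by
  unfold cB
  split_ifs with h1 h2 h3 h4
  · simp [h2, h3]
  · simp [h2, h3]
  · simp [h2, h3]
  · simp [h2]
  · constructor
    · intro h; simp at h
    · intro h; exact absurd h.1.five h1

theorem cB_three {e : G.Dart} : cB R K e = 3 ↔ Snd R K (ad R e 0) ∧ 2 ≤ c5 R (ad R e 0) := by
  unfold cB
  split_ifs with h1 h2 h3 h4
  · simp [h3]
  · simp [h4]
  · simp only [true_iff]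
    exact ⟨h2, by omega⟩
  · simp [h2]
  · constructor
    · intro h; simp at h
    · intro h; exact absurd h.1.five h1

theorem cB_four {e : G.Dart} : cB R K e = 4 ↔ nb R e 0 = 5 ∧ ¬ Snd R K (ad R e 0) := by
  unfold cB
  split_ifs with h1 h2 h3 h4
  · simp [h2]
  · simp [h2]
  · simp [h2]
  · simp [h1, h2]
  · simp [h1]

/-- What a face of length at least seven receives from a sender. -/
theorem tA_symm {d : G.Dart} (h : 7 ≤ sz R d) (h1 : G.degree d.fst = 3)
    (h2 : G.degree d.snd = 3) :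
    tA R K (ad R d 0) = (wB (cB R K (prev R d)) (cB R K d) (cB R K (R.next d)) : ℝ) / 200 := by
  have e1 : sz R (R.next d.symm).symm = sz R (prev R d).symm := sz_next_symm h1
  have e2 : sz R (prev R d.symm).symm = sz R (R.next d).symm := by
    have := sz_prev_symm (R := R) (d := R.next d) (by rw [R.fst_next]; exact h2)
    rwa [prev_next] at this
  have e3 : ad R d 0 = d.symm := rfl
  unfold tA
  by_cases hS : Snd R K (ad R d 0)
  · have hS' := hS.1.1
    rw [e3] at hS'
    rw [if_pos hS, e3]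
    unfold rule
    rw [SimpleGraph.Dart.symm_symm, e1, e2, if_pos ⟨hS', h⟩]
    have k1 : (cB R K (prev R d) ≠ 0) ↔ sz R (prev R d).symm = 5 := cB_ne
    have k2 : (cB R K (R.next d) ≠ 0) ↔ sz R (R.next d).symm = 5 := cB_ne
    by_cases h5 : c5 R d.symm = 0
    · rw [if_pos h5, show cB R K d = 1 from cB_one.2 ⟨hS, h5⟩]
      norm_num [wB]
    · rw [if_neg h5]
      by_cases h7 : c5 R d.symm = 1
      · have h8 : cB R K d = 2 := by
          unfold cB
          rw [if_pos hS.five, if_pos hS, e3, if_neg h5, if_pos h7]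
        rw [if_pos h7, h8, wB_two]
        norm_num
      · have h8 : cB R K d = 3 := cB_three.2 ⟨hS, by rw [e3]; omega⟩
        rw [if_neg h7, h8]
        by_cases h9 : sz R (R.next d).symm = 5 ∨ sz R (prev R d).symm = 5
        · rw [if_pos h9, wB_three (h9.symm.imp k1.2 k2.2)]
          norm_num
        · rw [if_neg h9, wB_three' fun h => h9 (h.symm.imp k2.1 k1.1)]
          norm_num
  · rw [if_neg hS]
    have h8 : cB R K d = 4 ∨ cB R K d = 0 := by
      by_cases h9 : nb R d 0 = 5
      · exact Or.inl (cB_four.2 ⟨h9, hS⟩)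
      · right
        by_contra hc
        exact h9 (cB_ne.1 hc)
    rcases h8 with h8 | h8 <;> rw [h8] <;> norm_num [wB]

/-- The common neighbour of two consecutive neighbours. -/
theorem nb_common (h3 : ∀ v, G.degree v = 3) (d : G.Dart) (i : ℕ) (h : nb R d i = 5) :
    nb R (ad R d i) 3 = nb R (ad R d (i + 1)) 2 := by
  have hs : sz R (ad R d i) = 5 := h
  -- the last dart of the first neighbour is the reverse of the second one of the second neighbour
  have e1 : ad R (ad R d i) 4 = R.next (ad R d (i + 1)) := by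
    have h4 : R.next^[4] (ad R d i) = prev R (ad R d i) := by
      have h5 := next_sz R (ad R d i)
      rw [hs, Function.iterate_succ_apply'] at h5
      rw [← prev_next R (R.next^[4] (ad R d i)), h5]
    unfold ad at h4 ⊢
    rw [h4]
    -- rotation at the vertex
    set y := R.next^[i + 1] d with hy
    have hy' : prev R y = R.next^[i] d := by rw [hy, Function.iterate_succ_apply', prev_next]
    rw [← hy']
    have h6 := rot_rot_symm (R := R) (d := y) (h3 _)
    have h7 : R.next y.symm = R.rot y := by rw [next_eq, SimpleGraph.Dart.symm_symm]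
    have h8 : R.next (R.rot y).symm = (prev R y).symm := by
      rw [next_eq, SimpleGraph.Dart.symm_symm, h6]
    rw [← h8, prev_next, SimpleGraph.Dart.symm_symm, h7]
  have h2 := nb_ad_one (R := R) h3 (ad R d i) 3
  rw [e1] at h2
  rw [← h2]
  have h5 := nb_iter R (ad R d (i + 1)) 1 1
  rw [Function.iterate_one] at h5
  exact h5

/-- The middle of a chain has a long neighbour. -/
theorem not_both {γ : G.Dart} (hL : LocB5 R K (R.next^[4] γ)) (hB : Bf R K γ) :
    ¬ (nb R γ 1 = 5 ∧ nb R γ 4 = 5) := by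
  rintro ⟨h1, h2⟩
  have h5 := hL.two (hB.iter 4) (by rw [nb_iter]; exact h2)
  rw [nb_iter, show (4 : ℕ) + 2 = 1 + 5 from rfl, nb_per R hB.1] at h5
  exact h5 h1

theorem c5_sum (d : G.Dart) : c5 R d = (if nb R d 0 = 5 then 1 else 0) +
    (if nb R d 1 = 5 then 1 else 0) + (if nb R d 2 = 5 then 1 else 0) +
    (if nb R d 3 = 5 then 1 else 0) + (if nb R d 4 = 5 then 1 else 0) := by
  unfold c5
  rw [card_filter]
  simp only [sum_range_succ, sum_range_zero, zero_add]
  rfl

/-- Two consecutive senders have the same class. -/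
theorem same_class (h3 : ∀ v, G.degree v = 3) {e : G.Dart} (h7 : sz R e ≠ 5)
    (hL : ∀ j < 5, LocB5 R K (R.next^[j] (ad R e 0)) ∧ LocB5 R K (R.next^[j] (ad R e 1)))
    (h1 : Snd R K (ad R e 0)) (h2 : Snd R K (ad R e 1)) :
    c5 R (ad R e 0) = c5 R (ad R e 1) := by
  set γ := ad R e 0 with hγ
  set β := ad R e 1 with hβ
  have b1 : sz R γ = 5 := h1.1.1
  have b2 : sz R β = 5 := h2.1.1
  have a0 : nb R γ 0 ≠ 5 := by rw [hγ, nb_ad_zero]; exact h7
  have a4 : nb R γ 4 = 5 := by rw [hγ, nb_ad_last h3 e b1]; exact b2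
  have c0 : nb R β 0 ≠ 5 := by rw [hβ, nb_ad_zero]; exact h7
  have c1 : nb R β 1 = 5 := by rw [hβ, nb_ad_one h3 e 0]; exact b1
  have k : nb R γ 3 = nb R β 2 := nb_common h3 e 0 b1
  have two1 : ∀ i < 5, nb R γ i = 5 → nb R γ (i + 2) ≠ 5 := by
    intro i hi h
    have := (hL i hi).1.two (h1.1.iter i) (by rw [nb_iter]; exact h)
    rwa [nb_iter] at this
  have two2 : ∀ i < 5, nb R β i = 5 → nb R β (i + 2) ≠ 5 := by
    intro i hi h
    have := (hL i hi).2.two (h2.1.iter i) (by rw [nb_iter]; exact h)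
    rwa [nb_iter] at this
  have a1 : nb R γ 1 ≠ 5 := by
    have := two1 4 (by norm_num) a4
    rwa [show (4 : ℕ) + 2 = 1 + 5 from rfl, nb_per R b1] at this
  have a2 : nb R γ 2 ≠ 5 := fun h => two1 2 (by norm_num) h a4
  have c3 : nb R β 3 ≠ 5 := two2 1 (by norm_num) c1
  have c4 : nb R β 4 ≠ 5 := by
    intro h
    have := two2 4 (by norm_num) h
    rw [show (4 : ℕ) + 2 = 1 + 5 from rfl, nb_per R b2] at this
    exact this c1
  rw [c5_sum, c5_sum, if_neg a0, if_neg a1, if_neg a2, if_pos a4, if_neg c0, if_pos c1,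
    if_neg c3, if_neg c4, k]
  ring

/-- The conditions for three consecutive neighbours hold. -/
theorem okT_of (hK : 8 ≤ K) (h3 : ∀ v, G.degree v = 3) {e : G.Dart} (h7 : sz R e = 7)
    (hL : ∀ i < 3, nb R e i = 5 → ∀ j < 5, LocB5 R K (R.next^[j] (ad R e i))) :
    okT (cB R K e) (cB R K (R.next e)) (cB R K (R.next^[2] e)) = true := by
  set γ := ad R e 1 with hγ
  have n1 : cB R K (R.next e) ≠ 0 ↔ nb R e 1 = 5 := by
    rw [cB_ne]
    have := nb_iter R e 1 0
    rw [Function.iterate_one] at this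
    rw [this]
  have n2 : cB R K (R.next^[2] e) ≠ 0 ↔ nb R e 2 = 5 := by rw [cB_ne, nb_iter]
  have n0 : cB R K e ≠ 0 ↔ nb R e 0 = 5 := cB_ne
  have ad1 : ad R (R.next e) 0 = γ := by
    have := ad_iter R e 1 0
    rwa [Function.iterate_one] at this
  have ad2 : ad R (R.next^[2] e) 0 = ad R e 2 := ad_iter R e 2 0
  have s0 : isS (cB R K e) = true ↔ Snd R K (ad R e 0) := cB_isS
  have s1 : isS (cB R K (R.next e)) = true ↔ Snd R K γ := by rw [cB_isS, ad1]
  have s2 : isS (cB R K (R.next^[2] e)) = true ↔ Snd R K (ad R e 2) := by rw [cB_isS, ad2]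
  have o1 : cB R K (R.next e) = 1 ↔ Snd R K γ ∧ c5 R γ = 0 := by rw [cB_one, ad1]
  have t1 : cB R K (R.next e) = 3 ↔ Snd R K γ ∧ 2 ≤ c5 R γ := by rw [cB_three, ad1]
  have t2 : cB R K (R.next^[2] e) = 3 ↔ Snd R K (ad R e 2) ∧ 2 ≤ c5 R (ad R e 2) := by
    rw [cB_three, ad2]
  have f1 : cB R K (R.next e) = 4 ↔ nb R e 1 = 5 ∧ ¬ Snd R K γ := by
    rw [cB_four, ad1]
    have := nb_iter R e 1 0
    rw [Function.iterate_one] at this
    rw [this]
  -- the neighbours of the middle one
  have g0 : nb R γ 0 = 7 := by rw [hγ, nb_ad_zero, h7]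
  have g1 : nb R γ 1 = nb R e 0 := nb_ad_one h3 e 0
  have g4 : nb R e 1 = 5 → nb R γ 4 = nb R e 2 := fun h => nb_ad_last h3 e h
  have key : ∀ h : nb R e 1 = 5, Bf R K γ → ¬ (nb R e 0 = 5 ∧ nb R e 2 = 5) := by
    intro h hB
    have := not_both (hL 1 (by norm_num) h 4 (by norm_num)) hB
    rwa [g1, g4 h] at this
  unfold okT
  simp only [Bool.and_eq_true, Bool.not_eq_true', ← Bool.not_eq_true, Bool.or_eq_true,
    decide_eq_true_eq, n0, n2, s0, s1, s2, o1, f1, bne_iff_ne]
  refine ⟨⟨⟨?_, ?_⟩, ?_⟩, ?_⟩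
  · rintro ⟨⟨a, b⟩, c⟩
    exact key a.1.1 a.1 ⟨b, c⟩
  · rintro ⟨⟨⟨a, b⟩, c⟩, d⟩
    have hs : sz R γ = 5 := a
    by_cases hB : Bf R K γ
    · exact key a hB ⟨c.1.1, d.1.1⟩
    · apply hB
      refine ⟨hs, fun i hi => ?_⟩
      interval_cases i
      · omega
      · rw [g1, c.five]; omega
      · rw [← nb_common h3 e 0 c.five]
        exact c.1.lt 3
      · rw [nb_common h3 e 1 a]
        exact d.1.lt 2
      · have h5 : nb R e 2 = 5 := d.1.1
        rw [g4 a, h5]; omega
  · rintro ⟨⟨a, b⟩, c⟩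
    have hs : sz R γ = 5 := a.1.1
    rw [c5_sum, g1, g4 hs] at b
    rcases c with c | c
    · rw [if_pos c] at b; omega
    · rw [if_pos c] at b; omega
  · rintro ⟨⟨a, b⟩, c⟩
    have h1 : nb R e 1 = 5 := a.1.1
    have h2 : nb R e 2 = 5 := b.1.1
    have e1 : ad R (R.next e) 0 = γ := ad1
    have e2 : ad R (R.next e) 1 = ad R e 2 := by
      have := ad_iter R e 1 1
      rwa [Function.iterate_one] at this
    have := same_class (K := K) h3 (e := R.next e) (by rw [sz_next, h7]; norm_num)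
      (fun j hj => ⟨by rw [e1]; exact hL 1 (by norm_num) h1 j hj,
        by rw [e2]; exact hL 2 (by norm_num) h2 j hj⟩) (by rw [e1]; exact a) (by rw [e2]; exact b)
    rw [e1, e2] at this
    apply c
    rw [decide_eq_decide, t1, t2, this]
    exact ⟨fun h => ⟨b, h.2⟩, fun h => ⟨a, h.2⟩⟩

/-- The conditions for a face of length seven hold. -/
theorem ok7_of {e : G.Dart} (hL : LocB7 R K e) :
    ok7 (cB R K e) (cB R K (R.next e)) (cB R K (R.next^[2] e)) (cB R K (R.next^[3] e))
      (cB R K (R.next^[4] e)) (cB R K (R.next^[5] e)) = true := by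
  have ad1 : ad R (R.next e) 0 = ad R e 1 := by
    have := ad_iter R e 1 0
    rwa [Function.iterate_one] at this
  have nb1 : nb R (R.next e) 0 = nb R e 1 := by
    have := nb_iter R e 1 0
    rwa [Function.iterate_one] at this
  have adk : ∀ k, ad R (R.next^[k] e) 0 = ad R e k := fun k => ad_iter R e k 0
  unfold ok7
  simp only [Bool.and_eq_true, Bool.not_eq_true', ← Bool.not_eq_true, Bool.or_eq_true,
    decide_eq_true_eq, cB_ne, cB_isS, cB_one, cB_three, ad1, nb1, adk]
  refine ⟨⟨⟨⟨?_, ?_⟩, ?_⟩, ?_⟩, ?_⟩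
  · rintro ⟨⟨⟨a, a'⟩, b, b'⟩, (c | c) | c⟩
    · exact hL.t3 a b a' b' c
    · exact hL.t4 a b a' b' c
    · exact hL.t5 a b a' b' c
  · rintro ⟨⟨⟨a, b⟩, c⟩, d⟩
    exact hL.p1 ⟨a, b, c, d⟩
  · rintro ⟨⟨⟨a, b⟩, c⟩, d⟩
    exact hL.p2a ⟨a, b, c, d⟩
  · rintro ⟨⟨⟨a, b⟩, c⟩, d⟩
    exact hL.p2b ⟨a, b, c, d⟩
  · rintro ⟨⟨⟨a, a'⟩, b, b'⟩, c, c'⟩
    exact hL.g3 ⟨a, b, c, a', b', c'⟩

/-- Faces of length seven do not receive too much. -/
theorem seven_B (hK : 8 ≤ K) (h3 : ∀ v, G.degree v = 3) {d : G.Dart} (h : sz R d = 7)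
    (h5 : ∀ i < 9, nb R d i = 5 → ∀ j < 5, LocB5 R K (R.next^[j] (ad R d i)))
    (hL : ∀ i < 7, LocB7 R K (R.next^[i] d)) :
    ∑ i ∈ range 7, tB R K (R.next^[i] d).symm ≤ 24 / 25 := by
  have h7 : R.next^[7] d = d := by have := next_sz R d; rwa [h] at this
  have h6 : ∀ j, R.next^[j + 7] d = R.next^[j] d := fun j => by
    rw [Function.iterate_add_apply, h7]
  have hp : prev R d = R.next^[6] d := by
    have e1 : R.next (R.next^[6] d) = d := by rw [← Function.iterate_succ_apply' R.next, h7]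
    rw [← prev_next R (R.next^[6] d), e1]
  have hpi : ∀ i, prev R (R.next^[i + 1] d) = R.next^[i] d := fun i => by
    rw [Function.iterate_succ_apply', prev_next]
  have hs : ∀ i, sz R (R.next^[i] d) = 7 := fun i => by rw [sz_iter, h]
  have e : ∀ i, tB R K (R.next^[i] d).symm = (wB (cB R K (prev R (R.next^[i] d)))
      (cB R K (R.next^[i] d)) (cB R K (R.next^[i + 1] d)) : ℝ) / 200 := by
    intro i
    have e0 : nb R (R.next^[i] d).symm 0 = 7 := by rw [nb_symm, hs]
    have e1 : tT R K (R.next^[i] d).symm = 0 := by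
      by_contra hc
      have := (tT_ne h3 hc).2.1
      omega
    have e2 : tB R K (R.next^[i] d).symm = tA R K (ad R (R.next^[i] d) 0) := by
      unfold tB
      rw [tS_zero fun h => by omega, tW_zero fun h => by omega, e1]
      have : ad R (R.next^[i] d) 0 = (R.next^[i] d).symm := rfl
      rw [this]
      ring
    rw [e2, tA_symm (by rw [hs]) (h3 _) (h3 _), Function.iterate_succ_apply']
  have hsum : ∑ i ∈ range 7, tB R K (R.next^[i] d).symm =
      ((wB (cB R K (R.next^[6] d)) (cB R K d) (cB R K (R.next d)) +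
        wB (cB R K d) (cB R K (R.next d)) (cB R K (R.next^[2] d)) +
        wB (cB R K (R.next d)) (cB R K (R.next^[2] d)) (cB R K (R.next^[3] d)) +
        wB (cB R K (R.next^[2] d)) (cB R K (R.next^[3] d)) (cB R K (R.next^[4] d)) +
        wB (cB R K (R.next^[3] d)) (cB R K (R.next^[4] d)) (cB R K (R.next^[5] d)) +
        wB (cB R K (R.next^[4] d)) (cB R K (R.next^[5] d)) (cB R K (R.next^[6] d)) +
        wB (cB R K (R.next^[5] d)) (cB R K (R.next^[6] d)) (cB R K d) : ℕ) : ℝ) / 200 := by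
    simp only [sum_range_succ, sum_range_zero]
    rw [e 0, e 1, e 2, e 3, e 4, e 5, e 6, hpi 0, hpi 1, hpi 2, hpi 3, hpi 4, hpi 5]
    simp only [Function.iterate_zero, id_eq, hp, Nat.reduceAdd, h7, Function.iterate_one]
    push_cast
    ring
  have kk : ∀ i j, R.next^[j] (R.next^[i] d) = R.next^[i + j] d := fun i j => by
    rw [← Function.iterate_add_apply, Nat.add_comm]
  have k1 : ∀ i, R.next (R.next^[i] d) = R.next^[i + 1] d := fun i => by
    rw [Function.iterate_succ_apply']
  have hT : ∀ i < 7, okT (cB R K (R.next^[i] d)) (cB R K (R.next^[i + 1] d))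
      (cB R K (R.next^[i + 2] d)) = true := by
    intro i hi
    have := okT_of hK h3 (K := K) (e := R.next^[i] d) (hs i) (by
      intro j hj hn k hk
      rw [nb_iter] at hn
      rw [ad_iter]
      exact h5 (i + j) (by omega) hn k hk)
    rwa [k1, kk] at this
  have h7' : ∀ i < 7, ok7 (cB R K (R.next^[i] d)) (cB R K (R.next^[i + 1] d))
      (cB R K (R.next^[i + 2] d)) (cB R K (R.next^[i + 3] d)) (cB R K (R.next^[i + 4] d))
      (cB R K (R.next^[i + 5] d)) = true := by
    intro i hi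
    have := ok7_of (hL i hi)
    rwa [k1, kk, kk, kk, kk] at this
  have a0 := hT 0 (by norm_num)
  have a1 := hT 1 (by norm_num)
  have a2 := hT 2 (by norm_num)
  have a3 := hT 3 (by norm_num)
  have a4 := hT 4 (by norm_num)
  have a5 := hT 5 (by norm_num)
  have a6 := hT 6 (by norm_num)
  have c0 := h7' 0 (by norm_num)
  have c1 := h7' 1 (by norm_num)
  have c2 := h7' 2 (by norm_num)
  have c3 := h7' 3 (by norm_num)
  have c4 := h7' 4 (by norm_num)
  have c5 := h7' 5 (by norm_num)
  have c6 := h7' 6 (by norm_num)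
  simp only [Nat.reduceAdd, h7, h6 1, h6 2, h6 3, h6 4, Function.iterate_zero, id_eq,
    Function.iterate_one] at a0 a1 a2 a3 a4 a5 a6 c0 c1 c2 c3 c4 c5 c6
  have key := seven_checkB (cB R K d) (cB R K (R.next d)) (cB R K (R.next^[2] d)) a0
    (cB R K (R.next^[3] d)) a1 (cB R K (R.next^[4] d)) a2 (cB R K (R.next^[5] d)) a3
    (cB R K (R.next^[6] d)) a4 a5 a6 (by
      simp only [Bool.and_eq_true]
      exact ⟨⟨⟨⟨⟨⟨c0, c1⟩, c2⟩, c3⟩, c4⟩, c5⟩, c6⟩)
  rw [hsum]
  have key' : ((wB (cB R K (R.next^[6] d)) (cB R K d) (cB R K (R.next d)) +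
        wB (cB R K d) (cB R K (R.next d)) (cB R K (R.next^[2] d)) +
        wB (cB R K (R.next d)) (cB R K (R.next^[2] d)) (cB R K (R.next^[3] d)) +
        wB (cB R K (R.next^[2] d)) (cB R K (R.next^[3] d)) (cB R K (R.next^[4] d)) +
        wB (cB R K (R.next^[3] d)) (cB R K (R.next^[4] d)) (cB R K (R.next^[5] d)) +
        wB (cB R K (R.next^[4] d)) (cB R K (R.next^[5] d)) (cB R K (R.next^[6] d)) +
        wB (cB R K (R.next^[5] d)) (cB R K (R.next^[6] d)) (cB R K d) : ℕ) : ℝ) ≤ 192 := by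
    exact_mod_cast key
  linarith

end

end Pool.Agent.DischB
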