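import Mathlib
import Pool.Agent.Work.MP_392c8e_co_uni.DischB3
import Pool.Agent.Work.MP_392c8e_co_uni.Near

/-!
# Discharging in cubic plane graphs with long faces: the theorem
-/

namespace Pool.Agent.DischB

open Finset Pool.Agent.Sub392 Pool.Agent.T392 Pool.Agent.Disch392

set_option linter.unusedSectionVars false

variable {V : Type} [Fintype V] [DecidableEq V] {G : SimpleGraph V} [DecidableRel G.Adj]
  {R : Rot G} {K : ℕ}

/-- A face of bounded length at least eight receives only from senders. -/
theorem snd_of_ne (h3 : ∀ v, G.degree v = 3) {y : G.Dart} (h8 : 8 ≤ nb R y 0)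
    (hK : nb R y 0 < K) (h : tB R K y ≠ 0) : Snd R K y := by
  by_contra hS
  apply h
  have e1 : tT R K y = 0 := by
    by_contra hc
    have := (tT_ne h3 hc).2.1
    omega
  unfold tB
  rw [tA_zero fun h => hS h.1, tS_zero fun h => by omega, tW_zero fun h => by omega, e1]
  norm_num

/-- A long face receives what the faces with long neighbours send. -/
theorem tW_of_long (hK : 8 ≤ K) (h3 : ∀ v, G.degree v = 3) {y : G.Dart} (h : K ≤ nb R y 0) :
    tB R K y = tW R K y := by
  have e1 : tT R K y = 0 := by
    by_contra hc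
    have := (tT_ne h3 hc).2.1
    omega
  unfold tB
  rw [tA_zero fun h1 => by have := h1.1.1.lt 0; omega, tS_zero fun h => by omega, e1]
  norm_num

/-- A face which sends more than `3/5` to a long face between two faces of length five. -/
theorem one_of {y : G.Dart} (h0 : K ≤ nb R y 0) (h5 : sz R y = 5) (hK : 8 ≤ K)
    (h1 : nb R y 1 = 5) (h4 : nb R y 4 = 5) (h : 3 / 5 < tW R K y) : One R K y := by
  have hT : ¬ T3 R K y := by
    rintro ⟨i, hi, k1, k2, k3⟩
    interval_cases i <;> simp only [Nat.reduceAdd] at k2 k3 <;> omega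
  unfold tW at h
  rw [if_pos ⟨h5, h0⟩, if_neg hT] at h
  have hl : lc R K y ≤ 1 := by
    by_contra hcon
    have h2 : (2 : ℝ) ≤ lc R K y := by exact_mod_cast (by omega : 2 ≤ lc R K y)
    rw [lt_div_iff₀ (by linarith)] at h
    linarith
  refine ⟨h5, h0, fun i hi1 hi2 => ?_⟩
  by_contra hcon
  push Not at hcon
  have h6 : #({0, i} : Finset ℕ) = 2 := card_pair (by omega)
  have h7 : #({0, i} : Finset ℕ) ≤ lc R K y := by
    unfold lc
    refine card_le_card fun x hx => ?_
    simp only [mem_insert, mem_singleton] at hx
    rw [mem_filter, mem_range]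
    rcases hx with rfl | rfl
    · exact ⟨by norm_num, h0⟩
    · exact ⟨hi2, hcon⟩
  omega

/-- Long faces do not receive too much. -/
theorem long_B (hK : 8 ≤ K) (h3 : ∀ v, G.degree v = 3) {d : G.Dart} (h : K ≤ sz R d)
    (hL : ¬ ∀ i < 8, One R K (ad R ((prev R)^[8] d) i)) :
    ∑ j ∈ range 10, tB R K ((prev R)^[j] d).symm ≤ 193 / 20 := by
  have hR := tB_ruleB (R := R) hK h3
  by_cases hall : ∀ j < 10, 3 / 5 < tB R K ((prev R)^[j] d).symm
  · exfalso
    apply hL
    set e := (prev R)^[9] d with he
    have hse : K ≤ sz R e := by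
      have : ∀ j, sz R ((prev R)^[j] d) = sz R d := by
        intro j
        induction j with
        | zero => rfl
        | succ j ih => rw [Function.iterate_succ_apply', sz_prev, ih]
      rw [he, this]
      exact h
    have hne : R.next e = (prev R)^[8] d := by
      rw [he, Function.iterate_succ_apply', next_prev]
    have hit : ∀ i ≤ 9, R.next^[i] e = (prev R)^[9 - i] d := by
      intro i
      induction i with
      | zero => intro _; rfl
      | succ i ih =>
        intro hi
        rw [Function.iterate_succ_apply', ih (by omega)]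
        have : 9 - i = (9 - (i + 1)) + 1 := by omega
        rw [this, Function.iterate_succ_apply', next_prev]
    have hx : ∀ i < 10, 3 / 5 < tB R K (ad R e i) := by
      intro i hi
      show 3 / 5 < tB R K (R.next^[i] e).symm
      rw [hit i (by omega)]
      exact hall _ (by omega)
    have n0 : ∀ i, nb R (ad R e i) 0 = sz R e := fun i => nb_ad_zero R e i
    have h5 : ∀ i < 10, nb R e i = 5 := by
      intro i hi
      by_contra hc
      have := hR.out (ad R e i) hc
      have := hx i hi
      linarith
    intro i hi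
    rw [← hne]
    have e1 : ad R (R.next e) i = ad R e (i + 1) := by
      have := ad_iter R e 1 i
      rw [Function.iterate_one] at this
      rw [this, Nat.add_comm]
    rw [e1]
    refine one_of (by rw [n0]; exact hse) (h5 (i + 1) (by omega)) hK ?_ ?_ ?_
    · rw [nb_ad_one h3 e i]; exact h5 i (by omega)
    · rw [nb_ad_last h3 e (h5 (i + 1) (by omega))]; exact h5 (i + 1 + 1) (by omega)
    · rw [← tW_of_long hK h3 (by rw [n0]; exact hse)]
      exact hx (i + 1) (by omega)
  · push Not at hall
    obtain ⟨j, hj, h6⟩ := hall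
    rw [← add_sum_erase _ _ (mem_range.2 hj)]
    have h7 : ∑ x ∈ (range 10).erase j, tB R K ((prev R)^[x] d).symm ≤
        ∑ x ∈ (range 10).erase j, (201 / 200 : ℝ) := sum_le_sum fun x _ => hR.le _
    rw [sum_const, card_erase_of_mem (mem_range.2 hj), card_range, nsmul_eq_mul] at h7
    push_cast at h7
    linarith

/-- A dart of a cubic graph without configurations near it is good. -/
theorem goodB_of (hK : 8 ≤ K) (h3 : ∀ v, G.degree v = 3) {r : ℕ} (hr : 13 ≤ r) {d : G.Dart}
    (h : ∀ e, Near R r d e → LocB R K e) : GoodB R K (tB R K) d where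
  five_le := (h d (Near.refl R r d)).five_le
  five := fun h1 => by
    by_cases hB : Bf R K d
    · refine five_bf hK h3 hB fun hS i hi => ?_
      have h2 : Near R 4 d (R.next^[i] d) := ((Near.refl R 0 d).iter i).mono (by omega)
      have h4 := (h _ (h2.mono (by omega))).five (by rw [sz_iter, h1])
      refine ⟨(h _ (h2.symm'.mono (by omega))).five_le, fun k => ?_, fun k j hj => ?_, fun k => ?_⟩
      · exact h4.two (hB.iter i) k
      · exact h4.six (hS.iter i) k j hj
      · exact h4.hex (hS.iter i) k
    · refine five_long hK h3 h1 ?_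
      by_contra hcon
      push Not at hcon
      exact hB ⟨h1, hcon⟩
  seven := fun h1 => by
    refine seven_B hK h3 h1 (fun i hi hn j hj => ?_) (fun i hi => ?_)
    · have h2 : Near R 13 d (R.next^[j] (ad R d i)) :=
        ((((Near.refl R 0 d).iter i).symm').iter j).mono (by omega)
      exact (h _ (h2.mono hr)).five (by rw [sz_iter]; exact hn)
    · have h2 : Near R 13 d (R.next^[i] d) := ((Near.refl R 0 d).iter i).mono (by omega)
      exact (h _ (h2.mono hr)).seven (by rw [sz_iter, h1])
  mid := fun h8 hlt => by
    by_contra hcon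
    push Not at hcon
    obtain ⟨k1, k2, k4⟩ := hcon
    set e := prev R (prev R d) with he
    have e1 : (prev R d).symm = ad R e 1 := by
      show _ = (R.next e).symm
      rw [he, next_prev]
    have e2 : d.symm = ad R e 2 := by
      show _ = (R.next (R.next e)).symm
      rw [he, next_prev, next_prev]
    have hse : sz R e = sz R d := by rw [he, sz_prev, sz_prev]
    have n0 : ∀ i, nb R (ad R e i) 0 = sz R d := fun i => by rw [nb_ad_zero, hse]
    rw [e2] at k1
    rw [e1] at k2
    have s0 : Snd R K (ad R e 0) := snd_of_ne h3 (by rw [n0]; exact h8) (by rw [n0]; exact hlt) k4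
    have s1 : Snd R K (ad R e 1) := snd_of_ne h3 (by rw [n0]; exact h8) (by rw [n0]; exact hlt) k2
    have s2 : Snd R K (ad R e 2) := snd_of_ne h3 (by rw [n0]; exact h8) (by rw [n0]; exact hlt) k1
    have h2 : Near R 6 d (R.next^[4] (ad R e 1)) := by
      rw [← e1]
      exact (((Near.refl R 0 d).prev.symm').iter 4).mono (by omega)
    refine not_both ((h _ (h2.mono (by omega))).five (by rw [sz_iter]; exact s1.1.1)) s1.1
      ⟨?_, ?_⟩
    · rw [nb_ad_one h3 e 0]; exact s0.1.1
    · rw [nb_ad_last h3 e (s1.1.1 : nb R e 1 = 5)]; exact s2.1.1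
  long := fun h1 => by
    refine long_B hK h3 h1 ?_
    have h2 : ∀ j, Near R j d ((prev R)^[j] d) := by
      intro j
      induction j with
      | zero => exact Near.refl R 0 d
      | succ j ih => rw [Function.iterate_succ_apply']; exact ih.prev
    have h4 : ∀ j, sz R ((prev R)^[j] d) = sz R d := by
      intro j
      induction j with
      | zero => rfl
      | succ j ih => rw [Function.iterate_succ_apply', sz_prev, ih]
    exact (h _ ((h2 8).mono (by omega))).long (by rw [h4]; exact h1)

open Classical in
/-- **Discharging in cubic plane graphs with long faces.** -/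
theorem disch_locB (hK : 1000 ≤ K) {r : ℕ} (hr : 13 ≤ r) (R : Rot G) (h3 : ∀ v, G.degree v = 3)
    (U : Finset V) :
    ∑ d ∈ univ.filter (fun d : G.Dart => d.fst ∈ U), kap R d ≤
      - (1 / 1000) * #{d : G.Dart | d.fst ∈ U ∧ sz R d ≠ 6} +
        7 * #{d : G.Dart | d.fst ∈ U ∧ ¬ ∀ e, Near R r d e → LocB R K e} +
        15 * #(bd (G := G) U) := by
  refine (disch_ruleB (tB_ruleB (R := R) (by omega) h3) hK U).trans ?_
  have h1 : (#{d : G.Dart | d.fst ∈ U ∧ ¬ GoodB R K (tB R K) d} : ℝ) ≤
      #{d : G.Dart | d.fst ∈ U ∧ ¬ ∀ e, Near R r d e → LocB R K e} := by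
    norm_cast
    refine card_le_card fun d hd => ?_
    simp only [mem_filter, mem_univ, true_and] at hd ⊢
    exact ⟨hd.1, fun hcon => hd.2 (goodB_of (by omega) h3 hr hcon)⟩
  linarith

end Pool.Agent.DischB
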