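import Pool.Agent.Work.MP_392c8e_co_uni.GrowthB

/-!
# Linear growth with general constants

The discharging inequality may have arbitrary constants in front of the bad corners and of the
boundary.
-/

set_option autoImplicit false
set_option linter.unusedSectionVars false

namespace Pool.Agent.Uni392

open Finset Pool.Agent.Sub392 Pool.Agent.T392 Pool.Agent.Disch392
open Pool.Agent.Uni3 (Cr IsComp crT crTwo crV crD qr crV_card_ne_one qr_eq_iff)
open Pool.Agent.Uni91 (VD OnP Cs ends full cs_iff_get cs_cons)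
open Pool.Agent.T1Red (newG Deg3)

section

variable {V : Type} [Fintype V] [DecidableEq V] {G : SimpleGraph V} [DecidableRel G.Adj]
  {R : Rot G} {I : V → Prop} {P : List (V × List V × V)}

open Classical in
/-- **Linear growth**, general constants `A` and `E`.  `C` is a component of the graph of crossing edges for the classes `qr p`.
The deleted edges are not crossing, and a face outside `K` with a label has an edge which is not
crossing.  The sets `S i` are patterns.  A vertex near a path, near a hexagon of `K`, or at a bad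
corner, can reach a deleted edge in at most `D` steps in the new graph, or lies in a pattern.  Then
the number of labels at `C` is at most a constant times the number of vertices of `C` with two
crossing edges, inner vertices of the paths excepted, plus the number of the patterns all of whose
vertices lie in `C` and have three crossing edges. -/
theorem growth_gen (A E : ℕ) (hP : R.Plane) (hcub : ∀ v, G.degree v = 3) (hd : VD G I P)
    (hdeg : Deg3 (newG G I (ends P))) {K : Finset R.Face} {p : R.Face → Option R.Face}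
    (hdel : ∀ d : G.Dart, Del G I P d.fst d.snd → qr p (R.face d) = qr p (R.face d.symm))
    (hcon : ∀ f, f ∉ K → p f ≠ none → ∃ d, R.face d = f ∧ qr p (R.face d) = qr p (R.face d.symm))
    {D : ℕ} {ι : Type} [Fintype ι] (S : ι → Finset V) (N0 : ℕ) (hS0 : ∀ i, (S i).card ≤ N0)
    (hS : ∀ i, ∀ v ∈ S i, ∀ w ∈ S i, ∃ n, n ≤ D ∧ Steps (nbN G I P) n v w)
    (hnear : ∀ v, (∀ w, ¬ Del G I P v w) → ¬ Inn P v →
      (∃ d : G.Dart, d.fst = v ∧ (Inn P d.snd ∨ (R.face d ∈ K ∧ sz R d = 6))) →
        NearG G I P D v ∨ ∃ i, v ∈ S i)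
    {Gd : G.Dart → Prop}
    (hdis : ∀ U : Finset V, ∑ d ∈ univ.filter (fun d : G.Dart => d.fst ∈ U), kap R d ≤
      - (1 / 1000) * (#{d : G.Dart | d.fst ∈ U ∧ sz R d ≠ 6} : ℝ) +
        A * #{d : G.Dart | d.fst ∈ U ∧ ¬ Gd d} + E * #(bd (G := G) U))
    (hbad : ∀ d : G.Dart, ¬ Gd d → (∀ w, ¬ Del G I P d.fst w) → ¬ Inn P d.fst →
      NearG G I P D d.fst ∨ ∃ i, d.fst ∈ S i)
    {C : Finset V} (hC : IsComp R (qr p) C) :
    ((crT R (qr p) C).filter fun c => p c = some c).card ≤
      ((3000 * (A + E + 9) + 3) * 4 ^ (D + 6) * (N0 + 1) + (3000 * (E + 9) + 3)) *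
        (((crTwo R (qr p) C).filter fun v => ¬ Inn P v).card +
          (univ.filter fun i => S i ⊆ Us R (qr p) C).card) := by
  set κ := qr p with hκ
  set U := Us R κ C with hU
  set N := (crTwo R κ C).filter fun v => ¬ Inn P v with hN
  set O := univ.filter fun i => S i ⊆ U with hO
  have hCl : ∀ d : G.Dart, Cr R κ d → (d.fst ∈ (C : Set V) ↔ d.snd ∈ (C : Set V)) := by
    intro d h
    exact hC.closed' h
  -- vertices of U
  have hUC : ∀ v ∈ U, v ∈ C := fun v hv => (mem_Us.1 hv).1
  have hUall : ∀ v ∈ U, ∀ d : G.Dart, d.fst = v → Cr R κ d := fun v hv => (mem_Us.1 hv).2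
  have hfree : ∀ v ∈ U, ∀ w, ¬ Del G I P v w := by
    intro v hv w h
    exact hUall v hv ⟨(v, w), h.1⟩ rfl (hdel ⟨(v, w), h.1⟩ h)
  have hinn : ∀ v ∈ U, ¬ Inn P v := by
    intro v hv h
    obtain ⟨e0, h1, h2⟩ := inner_third hcub hd h
    rw [h1] at h2
    exact hfree v hv _ h2
  have hdU : ∀ z w, Del G I P z w → z ∉ U := fun z w h hz => hfree z hz w h
  have hcase : ∀ v ∈ C, ¬ Inn P v → v ∈ U ∨ v ∈ N := by
    intro v hv hi
    by_cases h : v ∈ U
    · exact Or.inl h
    · exact Or.inr (Finset.mem_filter.2 ⟨mem_two hcub hC hv h, hi⟩)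
  -- neighbours of U in the new graph
  have hnb : ∀ u ∈ U, ∀ w ∈ nbN G I P u, w ∈ U ∨ w ∈ N := by
    intro u hu w hw
    obtain ⟨h1, h2⟩ := nbr_newG hcub hd hdel hCl (hUC u hu) (hUall u hu) (mem_nbN.1 hw)
    exact hcase w h1 h2
  have hsymm : ∀ x y, y ∈ nbN G I P x → x ∈ nbN G I P y := fun x y h =>
    mem_nbN.2 (mem_nbN.1 h).symm
  have hnb3 : ∀ v, (nbN G I P v).card ≤ 3 := fun v =>
    hdeg v _ fun w hw => mem_nbN.1 hw
  -- the vertices near the outside or near a pattern inside
  set X := O.biUnion S with hX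
  have hXcard : X.card ≤ N0 * O.card := by
    rw [mul_comm]
    exact Finset.card_biUnion_le_card_mul _ _ _ fun i _ => hS0 i
  set B := U.filter fun v => ∃ n z, n ≤ D + 6 ∧ (z ∉ U ∨ z ∈ X) ∧ Steps (nbN G I P) n v z
    with hB
  have hBcard : B.card ≤ 4 ^ (D + 6) * (N.card + X.card) := by
    refine exit_card' (m := 3) hnb3 hsymm hnb (D + 6) B fun b hb => ?_
    exact Finset.mem_filter.1 hb
  have hreach : ∀ v, (NearG G I P D v ∨ ∃ i, v ∈ S i) →
      ∃ n z, n ≤ D ∧ (z ∉ U ∨ z ∈ X) ∧ Steps (nbN G I P) n v z := by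
    rintro v (⟨n, hn, z, w, hzw, hst⟩ | ⟨i, hi⟩)
    · exact ⟨n, z, hn, Or.inl (hdU z w hzw), hst⟩
    · by_cases h5 : S i ⊆ U
      · exact ⟨0, v, Nat.zero_le _, Or.inr (Finset.mem_biUnion.2
          ⟨i, Finset.mem_filter.2 ⟨Finset.mem_univ _, h5⟩, hi⟩), Steps.refl _⟩
      · rw [Finset.not_subset] at h5
        obtain ⟨z, hz, hzU⟩ := h5
        obtain ⟨n, hn, hst⟩ := hS i v hi z hz
        exact ⟨n, z, hn, Or.inl hzU, hst⟩
  have hnearB : ∀ v ∈ U, (NearG G I P D v ∨ ∃ i, v ∈ S i) → v ∈ B := by
    intro v hv h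
    obtain ⟨n, z, hn, hz, hst⟩ := hreach v h
    exact Finset.mem_filter.2 ⟨hv, n, z, by omega, hz, hst⟩
  -- the bad corners
  have hbadc : (#{d : G.Dart | d.fst ∈ U ∧ ¬ Gd d}) ≤ 3 * B.card := by
    have h1 : (univ.filter fun d : G.Dart => d.fst ∈ U ∧ ¬ Gd d) ⊆
        (univ.filter fun d : G.Dart => d.fst ∈ B) := by
      intro d hdd
      obtain ⟨-, h2, h3⟩ := Finset.mem_filter.1 hdd
      exact Finset.mem_filter.2 ⟨Finset.mem_univ _,
        hnearB _ h2 (hbad d h3 (hfree _ h2) (hinn _ h2))⟩
    refine (Finset.card_le_card h1).trans ?_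
    rw [card_fst hcub B]
  -- the boundary
  have hbdc : #(bd (G := G) U) ≤ 3 * N.card + 3 * B.card := by
    have h1 : bd (G := G) U ⊆ (univ.filter fun d : G.Dart => d.snd ∈ N) ∪
        (univ.filter fun d : G.Dart => d.fst ∈ B) := by
      intro d hdd
      unfold bd at hdd
      obtain ⟨-, h2, h3⟩ := Finset.mem_filter.1 hdd
      have h4 : d.snd ∈ C := (hC.closed' (hUall _ h2 d rfl)).1 (hUC _ h2)
      rw [Finset.mem_union]
      by_cases h5 : Inn P d.snd
      · exact Or.inr (Finset.mem_filter.2 ⟨Finset.mem_univ _, hnearB _ h2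
          (hnear _ (hfree _ h2) (hinn _ h2) ⟨d, rfl, Or.inl h5⟩)⟩)
      · rcases hcase _ h4 h5 with h6 | h6
        · exact absurd h6 h3
        · exact Or.inl (Finset.mem_filter.2 ⟨Finset.mem_univ _, h6⟩)
    refine (Finset.card_le_card h1).trans ((Finset.card_union_le _ _).trans ?_)
    rw [card_fst hcub B, card_snd hcub N]
  -- the corners outside the hexagons
  set T := univ.filter (fun d : G.Dart => d.fst ∈ U ∧ sz R d ≠ 6) with hT
  have hTc : T.card ≤ 3000 * (A + E + 9) * B.card + 3000 * (E + 9) * N.card := by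
    rcases U.eq_empty_or_nonempty with h0 | h0
    · have : T = ∅ := by
        rw [hT, h0]
        simp
      rw [this]
      exact Nat.zero_le _
    · have h1 := gauss_bonnet_rot R hP U h0 fun v _ => hcub v
      have h2 := hdis U
      have h3 : ((#{d : G.Dart | d.fst ∈ U ∧ ¬ Gd d} : ℕ) : ℝ) ≤
          ((3 * B.card : ℕ) : ℝ) := by exact_mod_cast hbadc
      have h4 : ((#(bd (G := G) U) : ℕ) : ℝ) ≤ ((3 * N.card + 3 * B.card : ℕ) : ℝ) := by
        exact_mod_cast hbdc
      have h5 : (T.card : ℝ) ≤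
          ((3000 * (A + E + 9) * B.card + 3000 * (E + 9) * N.card : ℕ) : ℝ) := by
        push_cast at h3 h4 ⊢
        have h6 : (#{d : G.Dart | d.fst ∈ U ∧ sz R d ≠ 6} : ℝ) = (T.card : ℝ) := by
          rw [hT]
        rw [h6] at h2
        nlinarith
      exact_mod_cast h5
  -- the walk along a hexagon
  have hwalk : ∀ (f : R.Face) (d1 : G.Dart), d1.fst ∉ U → ∀ (j : ℕ) (d : G.Dart), d.fst ∈ U →
      R.next^[j] d = d1 → ∃ n z, n ≤ D + j ∧ (z ∉ U ∨ z ∈ X) ∧ Steps (nbN G I P) n d.fst z := by
    intro f d1 hd1 j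
    induction j with
    | zero =>
      intro d hdU hj
      have : d = d1 := hj
      rw [this] at hdU
      exact absurd hdU hd1
    | succ j ih =>
      intro d hdU' hj
      rw [Function.iterate_succ_apply] at hj
      by_cases h1 : Inn P d.snd
      · obtain ⟨n, z, hn, hz, hst⟩ :=
          hreach _ (hnear _ (hfree _ hdU') (hinn _ hdU') ⟨d, rfl, Or.inl h1⟩)
        exact ⟨n, z, by omega, hz, hst⟩
      · have h2 : d.snd ∈ nbN G I P d.fst :=
          mem_nbN.2 (link d.adj (hfree _ hdU' _) (hinn _ hdU') h1)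
        by_cases h3 : d.snd ∈ U
        · have h4 : (R.next d).fst = d.snd := R.fst_next d
          obtain ⟨n, z, hn, hz, hst⟩ := ih (R.next d) (by rw [h4]; exact h3) hj
          rw [h4] at hst
          exact ⟨n + 1, z, by omega, hz, Steps.cons h2 hst⟩
        · exact ⟨1, d.snd, by omega, Or.inl h3, Steps.cons h2 (Steps.refl _)⟩
  -- every class at the component has a good corner
  set W := T ∪ ((univ.filter fun d : G.Dart => d.fst ∈ N) ∪
    (univ.filter fun d : G.Dart => d.fst ∈ B)) with hW
  have hclaim : ∀ c, p c = some c → ∀ d : G.Dart, d.fst ∈ C → ¬ Inn P d.fst →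
      κ (R.face d) = c → ∃ d' ∈ W, κ (R.face d') = c := by
    intro c hc d hdC hdi hk
    rcases hcase _ hdC hdi with h1 | h1
    · by_cases h2 : sz R d = 6
      · refine ⟨d, ?_, hk⟩
        refine Finset.mem_union_right _ (Finset.mem_union_right _ (Finset.mem_filter.2
          ⟨Finset.mem_univ _, ?_⟩))
        by_cases h3 : R.face d ∈ K
        · exact hnearB _ h1 (hnear _ (hfree _ h1) (hinn _ h1) ⟨d, rfl, Or.inr ⟨h3, h2⟩⟩)
        · have h4 : p (R.face d) = some c := (qr_eq_iff hc _).1 hk
          obtain ⟨d1, h5, h6⟩ := hcon (R.face d) h3 (by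
            rw [h4]
            simp)
          have h7 : d1.fst ∉ U := fun h => hUall _ h d1 rfl h6
          have h8 : R.next.SameCycle d d1 := (face_eq_iff R d d1).1 h5
          obtain ⟨i, -, hi⟩ := h8.exists_pow_eq'
          have h9 : Function.minimalPeriod R.next d = 6 := by
            rw [← sz_eq]
            exact h2
          have h10 : R.next^[i % 6] d = d1 := by
            rw [← h9, Function.iterate_mod_minimalPeriod_eq, ← hi]
            rfl
          obtain ⟨n, z, hn, hz, hst⟩ := hwalk (R.face d) d1 h7 (i % 6) d h1 h10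
          have h11 : i % 6 < 6 := Nat.mod_lt _ (by norm_num)
          exact Finset.mem_filter.2 ⟨h1, n, z, by omega, hz, hst⟩
      · exact ⟨d, Finset.mem_union_left _ (Finset.mem_filter.2 ⟨Finset.mem_univ _, h1, h2⟩), hk⟩
    · exact ⟨d, Finset.mem_union_right _ (Finset.mem_union_left _ (Finset.mem_filter.2
        ⟨Finset.mem_univ _, h1⟩)), hk⟩
  have himage : ((crT R κ C).filter fun c => p c = some c) ⊆ W.image fun d => κ (R.face d) := by
    intro c hc
    obtain ⟨h1, h2⟩ := Finset.mem_filter.1 hc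
    unfold Uni3.crT at h1
    obtain ⟨d, h3, h4⟩ := Finset.mem_image.1 h1
    unfold Uni3.crD at h3
    obtain ⟨-, h5, h6⟩ := Finset.mem_filter.1 h3
    have hgoal : ∃ d' ∈ W, κ (R.face d') = c := by
      by_cases h7 : Inn P d.fst
      · obtain ⟨e0, g1, g2⟩ := inner_third hcub hd h7
        obtain ⟨q, hq, h8⟩ := h7
        obtain ⟨M1, M2, h9⟩ := List.append_of_mem h8
        have hfull : full q = (q.1 :: M1) ++ (d.fst :: (M2 ++ [q.2.2])) := by
          unfold Uni91.full
          rw [h9]
          simp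
        have hk0 := hdel e0 g2
        obtain ⟨b, hab, y, hyz, h10, h11, h12, h13, h14⟩ := to_end (M := M2) (a := d.fst)
          (z := q.2.2) hcub hd hdel hCl (fun u v huv => cs_full hd hq (by
            rw [hfull]
            exact cs_append_right huv)) (by
            have := (hd.chain q hq).2
            rw [hfull] at this
            exact (List.nodup_append.1 this).2.1)
          fun x hx => ⟨q, hq, by rw [h9]; simp [hx]⟩
        have he0 : e0 ≠ (⟨(d.fst, b), hab⟩ : G.Dart) := by
          intro h15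
          obtain ⟨q', hq', h16⟩ := h10
          refine g2.2.2 q' hq' ?_
          rw [h15]
          exact h16
        have he1 : e0 ≠ d := by
          intro h15
          rw [h15] at hk0
          exact h5 hk0
        have hcr : Cr R κ (⟨(d.fst, b), hab⟩ : G.Dart) := by
          by_cases h15 : (⟨(d.fst, b), hab⟩ : G.Dart) = d
          · rw [h15]
            exact h5
          · have h16 := same_step (R := R) (κ := κ) (e := d) (e0 := e0)
              (d := (⟨(d.fst, b), hab⟩ : G.Dart)) (hcub _) g1 rfl h15 he1 he0 hk0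
            intro h17
            apply h5
            exact h16.2.symm.trans (h17.symm.trans h16.1)
        have hz : q.2.2 ∈ C := (h14 hcr).1 h6
        have hzi : ¬ Inn P q.2.2 := end_not_inn hd hq (Or.inr rfl)
        rcases same_corner (R := R) (κ := κ) (e := (⟨(d.fst, b), hab⟩ : G.Dart)) (e0 := e0)
          (d := d) (hcub _) g1 rfl he0 hk0 with h15 | h15
        · have h16 : (R.next ⟨(y, q.2.2), hyz⟩).fst = q.2.2 := R.fst_next _
          refine hclaim c h2 (R.next ⟨(y, q.2.2), hyz⟩) (by rw [h16]; exact hz)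
            (by rw [h16]; exact hzi) ?_
          rw [R.face_next, h12, ← h15]
          exact h4
        · refine hclaim c h2 ⟨(q.2.2, y), hyz.symm⟩ hz hzi ?_
          rw [h13]
          exact h15.symm.trans h4
      · exact hclaim c h2 d h6 h7 h4
    obtain ⟨d', h7, h8⟩ := hgoal
    exact Finset.mem_image.2 ⟨d', h7, h8⟩
  -- the final count
  have h1 := (Finset.card_le_card himage).trans Finset.card_image_le
  have h2 : W.card ≤ T.card + (3 * N.card + 3 * B.card) := by
    refine (Finset.card_union_le _ _).trans (Nat.add_le_add_left ?_ _)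
    refine (Finset.card_union_le _ _).trans ?_
    rw [card_fst hcub N, card_fst hcub B]
  have h3 : W.card ≤ (3000 * (A + E + 9) + 3) * B.card + (3000 * (E + 9) + 3) * N.card := by
    have e1 : (3000 * (A + E + 9) + 3) * B.card = 3000 * (A + E + 9) * B.card + 3 * B.card := by
      ring
    have e2 : (3000 * (E + 9) + 3) * N.card = 3000 * (E + 9) * N.card + 3 * N.card := by ring
    omega
  have h4 : B.card ≤ 4 ^ (D + 6) * (N.card + N0 * O.card) :=
    hBcard.trans (Nat.mul_le_mul_left _ (Nat.add_le_add_left hXcard _))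
  set a := 3000 * (A + E + 9) + 3 with ha
  set b := 3000 * (E + 9) + 3 with hb
  have h5 : a * B.card ≤ a * (4 ^ (D + 6) * (N.card + N0 * O.card)) :=
    Nat.mul_le_mul_left _ h4
  refine h1.trans (h3.trans ?_)
  have h6 : (a * 4 ^ (D + 6) * (N0 + 1) + b) * (N.card + O.card) =
      a * (4 ^ (D + 6) * (N.card + N0 * O.card)) + b * N.card +
      (a * 4 ^ (D + 6) * N0 * N.card + a * 4 ^ (D + 6) * O.card + b * O.card) := by
    ring
  rw [h6]
  omega

end

end Pool.Agent.Uni392
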