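import Pool.Agent.Work.MP_392c8e_co_uni.FamilyA
import Pool.Agent.Work.MP_392c8e_co_uni.GrowthE

/-!
# From a catalogue of places to linear growth, for a general local condition
-/

set_option autoImplicit false
set_option linter.unusedSectionVars false

namespace Pool.Agent.Uni392

open Finset Pool.Agent.Sub392 Pool.Agent.T392 Pool.Agent.Disch392
open Pool.Agent.Uni3 (L7 plV mem_plV selF selD selD_spec mem_selF_of_pat fst_mem_selD plV_near)
open Pool.Agent.Uni91 (VD ends FI FP Fam Good GainP JoinP mem_FP)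
open Pool.Agent.T1Red (newG Deg3 Int Real)

variable {V : Type} [Fintype V] [DecidableEq V] {G : SimpleGraph V} [DecidableRel G.Adj]

/-- **The input of the middle of the construction**, for the local condition `Gd` at the darts. -/
structure MidE (R : Rot G) (I : V → Prop) (P : List (V × List V × V)) (Gd : G.Dart → Prop)
    (D N0 : ℕ) extends MidG R I P where
  hS0 : ∀ i, (S i).card ≤ N0
  hS : ∀ i, ∀ v ∈ S i, ∀ w ∈ S i, ∃ n, n ≤ D ∧ Steps (nbN G I P) n v w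
  hnear : ∀ v, (∀ w, ¬ Del G I P v w) → ¬ Inn P v →
    (∃ d : G.Dart, d.fst = v ∧ (Inn P d.snd ∨ (R.face d ∈ KF R I z ∧ sz R d = 6))) →
      NearG G I P D v ∨ ∃ i, v ∈ S i
  hbad : ∀ d : G.Dart, ¬ Gd d → (∀ w, ¬ Del G I P d.fst w) →
    ¬ Inn P d.fst → NearG G I P D d.fst ∨ ∃ i, d.fst ∈ S i

open Classical in
/-- **Linear growth**, if a discharging inequality for the local condition is known. -/
theorem MidE.grow {R : Rot G} {I : V → Prop} {P : List (V × List V × V)} {Gd : G.Dart → Prop}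
    {D N0 : ℕ} (X : MidE R I P Gd D N0) (A E : ℕ) (hP : R.Plane) (hcub : ∀ v, G.degree v = 3)
    (hd : VD G I P) (hdeg : Deg3 (newG G I (ends P)))
    (hdis : ∀ U : Finset V, ∑ d ∈ univ.filter (fun d : G.Dart => d.fst ∈ U), kap R d ≤
      - (1 / 1000) * (#{d : G.Dart | d.fst ∈ U ∧ sz R d ≠ 6} : ℝ) +
        A * #{d : G.Dart | d.fst ∈ U ∧ ¬ Gd d} + E * #(bd (G := G) U)) :
    X.toMidG.Grow ((3000 * (A + E + 9) + 3) * 4 ^ (D + 6) * (N0 + 1) + (3000 * (E + 9) + 3)) := by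
  let _ := X.fJ
  exact fun p hdel hcon C hC =>
    (growth_gen A E hP hcub hd hdeg hdel hcon X.S N0 X.hS0 X.hS X.hnear hdis X.hbad hC).trans
      (Nat.mul_le_mul_left _ (Nat.le_succ _))

variable {R : Rot G} {ι : Type} [Fintype ι] {p : ι → Place V}

/-- The set of the pattern at a face of length five. -/
noncomputable def SE (R : Rot G) (p : ι → Place V) (ρ : ℕ) (f : R.Face) : Finset V := by
  classical
  exact univ.filter fun v => ¬ FI p v ∧ ∃ t ∈ plV R (selD R (FI p) f), ∃ n, n ≤ ρ ∧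
    Steps (nbN G (FI p) (FP p)) n v t

theorem mem_SE {ρ : ℕ} {f : R.Face} {v : V} : v ∈ SE R p ρ f ↔ ¬ FI p v ∧
    ∃ t ∈ plV R (selD R (FI p) f), ∃ n, n ≤ ρ ∧ Steps (nbN G (FI p) (FP p)) n v t := by
  classical
  unfold SE
  simp

theorem card_SE (hdeg : Deg3 (newG G (FI p) (ends (FP p)))) {ρ : ℕ} {f : R.Face}
    (hf : f ∈ selF R (FI p)) : (SE R p ρ f).card ≤ 4 ^ ρ * 17 := by
  classical
  have h1 : SE R p ρ f ⊆ (plV R (selD R (FI p) f)).biUnion
      fun a => bal (nbN G (FI p) (FP p)) ρ a := by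
    intro v hv
    obtain ⟨-, a, ha, n, hn, h⟩ := mem_SE.1 hv
    exact Finset.mem_biUnion.2 ⟨a, ha, bal_mono _ _ hn (h.mem_bal nbN_symm)⟩
  refine (Finset.card_le_card h1).trans ?_
  refine (Finset.card_biUnion_le_card_mul _ _ (4 ^ ρ) fun a _ => ?_).trans ?_
  · exact card_bal (m := 3) (fun v => hdeg v _ fun w hw => mem_nbN.1 hw) ρ a
  · rw [mul_comm]
    exact Nat.mul_le_mul_left _ (selD_spec hf).2.1.card_plV

theorem SE_joined {ρ : ℕ} {f : R.Face} (hf : f ∈ selF R (FI p)) {v w : V} (hv : v ∈ SE R p ρ f)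
    (hw : w ∈ SE R p ρ f) : ∃ n, n ≤ ρ + 10 + ρ ∧ Steps (nbN G (FI p) (FP p)) n v w := by
  obtain ⟨-, t, t1, k, k1, k2⟩ := mem_SE.1 hv
  obtain ⟨-, t', t3, k', k3, k4⟩ := mem_SE.1 hw
  obtain ⟨-, hL, hB⟩ := selD_spec hf
  obtain ⟨l, l1, l2⟩ := hL.steps (P := FP p) hB t1 t3
  exact ⟨k + l + k', by omega, (k2.trans l2).trans (k4.rev nbN_symm)⟩

theorem plV_sub_SE {ρ : ℕ} {f : R.Face} (hf : f ∈ selF R (FI p)) :
    plV R (selD R (FI p) f) ⊆ SE R p ρ f := fun v hv =>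
  mem_SE.2 ⟨(selD_spec hf).2.2 v hv, v, hv, 0, Nat.zero_le _, Steps.refl _⟩

/-- **From a maximal family.** -/
theorem midE_of_fam (hp : Fam p G) (hdeg : Deg3 G) (gain : ι → Prop) (Cat : Place V → Prop)
    {Gd : G.Dart → Prop} {ρ r D1 D2 D N N0 r1 : ℕ}
    (hmax : ∀ q, Cat q → ∃ i, ∃ a ∈ q.Vert, ∃ b ∈ (p i).Vert, ∃ w : G.Walk a b, w.length < D2)
    (hdiam : ∀ q, Cat q → ∀ a ∈ q.Vert, ∀ b ∈ q.Vert, ∃ w : G.Walk a b, w.length ≤ r)
    (hocc : ∀ d : G.Dart, ¬ Gd d →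
      (∃ x, Near R ρ d x ∧ ∃ q, Cat q ∧ x.fst ∈ q.Vert) ∨ ∃ e, Near R ρ d e ∧ Pat7 R e)
    (h1 : ∀ i, gain i → ∀ v, ¬ FI p v → ∀ t ∈ (p i).Vert, ¬ FI p t → ∀ n, n ≤ D1 →
      Steps (nbN G (FI p) (FP p)) n v t → NearG G (FI p) (FP p) D v)
    (h2 : ∀ i, gain i → ∀ v, Int (p i).R (p i).f v → (∀ u, ¬ Del G (FI p) (FP p) v u) →
      ¬ Inn (FP p) v → NearG G (FI p) (FP p) D v)
    (h3 : ∀ i, ¬ gain i → ∀ v, Int (p i).R (p i).f v →
      Inn (FP p) v ∨ ∃ u, Del G (FI p) (FP p) v u)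
    (hring : ∀ i, ¬ gain i → ∀ t ∈ (p i).Vert, ∀ t' ∈ (p i).Vert, ¬ FI p t → ¬ FI p t' →
      ∃ k, k ≤ r1 ∧ Steps (nbN G (FI p) (FP p)) k t t')
    (hN : ∀ i, (p i).R.t + (p i).R.m ≤ N) (z : {i // ¬ gain i} → G.Dart)
    (hz : ∀ j, ZHex R (p j.1) (z j)) (hD1 : ρ + 6 + r + D2 ≤ D1) (hD : D1 + r1 + D1 ≤ D)
    (hD' : ρ + 10 + ρ ≤ D) (hN0 : 4 ^ D1 * N ≤ N0) (hN1 : 4 ^ ρ * 17 ≤ N0) :
    Nonempty (MidE R (FI p) (FP p) Gd D N0) := by
  classical
  have hdeg' : Deg3 (newG G (FI p) (ends (FP p))) := hp.deg hdeg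
  have key : ∀ v, (∀ u, ¬ Del G (FI p) (FP p) v u) → ¬ Inn (FP p) v →
      (∃ b, (∃ i, b ∈ (p i).Vert) ∧ ∃ w : G.Walk v b, w.length ≤ D1) →
      NearG G (FI p) (FP p) D v ∨ ∃ j : {i // ¬ gain i}, v ∈ SJ G p D1 j.1 := by
    rintro v hfree hinn ⟨b, hb, w, hw⟩
    rcases near_or_SJ hp gain h1 h2 h3 w hb hw hfree hinn with h4 | ⟨i, hi, h4⟩
    · exact Or.inl h4
    · exact Or.inr ⟨⟨i, hi⟩, h4⟩
  refine ⟨{
    F := selF R (FI p)
    δ := selD R (FI p)
    hδ := fun f hf => (selD_spec hf).1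
    hL := fun f hf => (selD_spec hf).2.1
    hFI := fun f hf => (selD_spec hf).2.2
    J := {i // ¬ gain i}
    fJ := inferInstance
    z := z
    hz := fun j => (hz j).six
    hzP := fun j => ?_
    hzI := fun j => (zhex_out hp (hz j)).1
    hzinj := fun i j hij => ?_
    S := Sum.elim (fun f => SE R p ρ f.1) (fun j => SJ G p D1 j.1)
    hSF := fun f => plV_sub_SE f.2
    hSJ := fun j i hi => ?_
    hS0 := ?_
    hS := ?_
    hnear := ?_
    hbad := ?_ }⟩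
  · rcases (hz j).path with h4 | h4
    · exact Or.inl (mem_FP.2 ⟨j.1, h4⟩)
    · exact Or.inr (mem_FP.2 ⟨j.1, h4⟩)
  · have h4 := (zhex_out hp (hz i)).2.2.1
    have h5 := (zhex_out hp (hz j)).2.2.1
    rw [hij] at h4
    exact Subtype.ext (hp.eq_of_vert h4 h5)
  · -- the vertices of the hexagon
    obtain ⟨h4, h5, -, h6⟩ := zhex_out hp (hz j)
    have hD1' : 1 ≤ D1 := by omega
    have hout := h4 i hi
    rcases hi with rfl | rfl | rfl | rfl
    · exact mem_SJ.2 ⟨hout, _, h5, h4 0 (Or.inl rfl), 0, Nat.zero_le _, Steps.refl _⟩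
    · exact mem_SJ.2 ⟨hout, _, h6, hout, 0, Nat.zero_le _, Steps.refl _⟩
    · refine mem_SJ.2 ⟨hout, _, h6, h4 3 (Or.inr (Or.inl rfl)), 1, hD1',
        Steps.cons (mem_nbN.2 (Or.inl ⟨?_, hout, h4 3 (Or.inr (Or.inl rfl))⟩)) (Steps.refl _)⟩
      have h7 : (R.next^[4] (z j)).fst = (R.next^[3] (z j)).snd := by
        rw [Function.iterate_succ_apply' R.next 3, R.fst_next]
      rw [h7]
      exact (R.next^[3] (z j)).adj.symm
    · refine mem_SJ.2 ⟨hout, _, h5, h4 0 (Or.inl rfl), 1, hD1',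
        Steps.cons (mem_nbN.2 (Or.inl ⟨?_, hout, h4 0 (Or.inl rfl)⟩)) (Steps.refl _)⟩
      have h7 : (R.next^[6] (z j)).fst = (R.next^[5] (z j)).snd := by
        rw [Function.iterate_succ_apply' R.next 5, R.fst_next]
      have h8 : R.next^[6] (z j) = z j := by
        rw [← (hz j).six]
        exact next_sz R (z j)
      rw [h8] at h7
      show G.Adj (R.next^[5] (z j)).fst (z j).fst
      rw [h7]
      exact (R.next^[5] (z j)).adj
  · rintro (f | j)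
    · exact (card_SE hdeg' f.2).trans hN1
    · exact (card_SJ hdeg' (hN j.1)).trans hN0
  · rintro (f | j) v hv w hw
    · obtain ⟨n, hn, h4⟩ := SE_joined f.2 hv hw
      exact ⟨n, by omega, h4⟩
    · obtain ⟨n, hn, h4⟩ := SJ_joined (hring j.1 j.2) hv hw
      exact ⟨n, by omega, h4⟩
  · -- near
    rintro v hfree hinn ⟨d, rfl, hd | ⟨hd, h6⟩⟩
    · rcases key _ hfree hinn ⟨d.fst, near_of_inn hp d.adj hd, SimpleGraph.Walk.nil,
        Nat.zero_le _⟩ with h4 | ⟨j, h4⟩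
      · exact Or.inl h4
      · exact Or.inr ⟨Sum.inr j, h4⟩
    · have h4 : ∃ x, R.face x = R.face d ∧ FI p x.fst := by
        unfold KF at hd
        simp only [mem_filter, mem_univ, true_and, not_or] at hd
        by_contra hcon
        push Not at hcon
        exact hd.1 ⟨d, rfl, h6, hcon⟩
      obtain ⟨x, hx, i, hi⟩ := h4
      obtain ⟨w, hw⟩ := walk_hex h6 hx
      rcases key _ hfree hinn ⟨x.fst, ⟨i, (hp.good i).int_vert hi⟩, w, by omega⟩ with h4 | ⟨j, h4⟩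
      · exact Or.inl h4
      · exact Or.inr ⟨Sum.inr j, h4⟩
  · -- bad
    intro d hde hfree hinn
    have fin : (∃ b, (∃ i, b ∈ (p i).Vert) ∧ ∃ w : G.Walk d.fst b, w.length ≤ D1) →
        NearG G (FI p) (FP p) D d.fst ∨
          ∃ i, d.fst ∈ Sum.elim (fun f : {f // f ∈ selF R (FI p)} => SE R p ρ f.1)
            (fun j : {i // ¬ gain i} => SJ G p D1 j.1) i := by
      intro h4
      rcases key _ hfree hinn h4 with h5 | ⟨j, h5⟩
      · exact Or.inl h5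
      · exact Or.inr ⟨Sum.inr j, h5⟩
    rcases hocc d hde with ⟨x, hx, q, hq, hxq⟩ | ⟨e, he, hpat⟩
    · obtain ⟨w2, hw2⟩ := hx.walk
      obtain ⟨i, a, ha, b, hb, w4, hw4⟩ := hmax q hq
      obtain ⟨w3, hw3⟩ := hdiam q hq x.fst hxq a ha
      refine fin ⟨b, ⟨i, hb⟩, (w2.append w3).append w4, ?_⟩
      rw [SimpleGraph.Walk.length_append, SimpleGraph.Walk.length_append]
      omega
    · obtain ⟨w1, hw1⟩ := he.walk
      by_cases hB : ∀ v ∈ plV R e, ¬ FI p v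
      · have hf := mem_selF_of_pat hpat hB
        by_cases hv : FI p d.fst
        · obtain ⟨i, hi⟩ := hv
          exact fin ⟨d.fst, ⟨i, (hp.good i).int_vert hi⟩, SimpleGraph.Walk.nil, Nat.zero_le _⟩
        · rcases walk_cases hp w1 hv with ⟨b, hb, q, hq⟩ | ⟨n, hn, hs⟩
          · exact fin ⟨b, hb, q, by omega⟩
          · right
            exact ⟨Sum.inl ⟨R.face e, hf⟩, mem_SE.2 ⟨hv, e.fst, fst_mem_selD hf rfl, n,
              by omega, hs⟩⟩
      · push Not at hB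
        obtain ⟨v, hv, i, hi⟩ := hB
        obtain ⟨n, hn, hs⟩ := plV_near (L7.of_pat hpat) hv
        obtain ⟨w2, hw2⟩ := walk_of_steps hs
        refine fin ⟨v, ⟨i, (hp.good i).int_vert hi⟩,
          (w1.concat e.adj).append w2, ?_⟩
        rw [SimpleGraph.Walk.length_append, SimpleGraph.Walk.length_concat]
        omega

/-- The constants. -/
def D1E (ρ r : ℕ) : ℕ := ρ + 10 + 2 * r

/-- The constants. -/
def DE (ρ r : ℕ) : ℕ := 2 * D1E ρ r + r

/-- The constants. -/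
def NE (ρ r : ℕ) : ℕ := 4 ^ D1E ρ r * 598 + 4 ^ ρ * 17

/-- The constants. -/
def CE (A E ρ r : ℕ) : ℕ :=
  (3000 * (A + E + 9) + 3) * 4 ^ (DE ρ r + 6) * (NE ρ r + 1) + (3000 * (E + 9) + 3)

/-- **The family of places and the patterns**, for a general local condition: every dart at which
the condition fails is near a place of the catalogue or near a pattern. -/
theorem family_midE {R : Rot G} (hcub : ∀ v, G.degree v = 3) {r : ℕ} (Cat : Place V → Prop)
    (hcat : ∀ q, Cat q → PlOK R r q) {Gd : G.Dart → Prop} {ρ : ℕ}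
    (hocc : ∀ d : G.Dart, ¬ Gd d →
      (∃ x, Near R ρ d x ∧ ∃ q, Cat q ∧ x.fst ∈ q.Vert) ∨ ∃ e, Near R ρ d e ∧ Pat7 R e) :
    ∃ (k : ℕ) (p : Fin k → Place V), Fam p G ∧ (∀ i, (p i).R.m ≤ 299) ∧
      (∀ i, (p i).R.t ≤ 299) ∧ Nonempty (MidE R (FI p) (FP p) Gd (DE ρ r) (NE ρ r)) := by
  classical
  have hdeg : Deg3 G := by
    intro v A hA
    rw [← hcub v, ← G.card_neighborFinset_eq_degree]
    exact card_le_card fun w hw => (G.mem_neighborFinset v w).2 (hA w hw)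
  obtain ⟨k, p, hp, hpc, hfar, hmax⟩ := exists_fam G Cat (fun q hq => (hcat q hq).good)
    (fun q hq => (hcat q hq).ne) (r + 1) (Nat.le_add_left 1 r)
  refine ⟨k, p, hp, fun i => (hcat _ (hpc i)).hm, fun i => (hcat _ (hpc i)).ht, ?_⟩
  have hfar' : ∀ i, ∀ j, j ≠ i → FarS G (r + 1) (p i).Vert (p j).Vert := fun i j hij =>
    hfar i j (Ne.symm hij)
  have hz : ∀ i : {i // ¬ GainP G (p i) r}, ∃ d, ZHex R (p i.1) d := by
    rintro ⟨i, hi⟩
    exact ((hcat _ (hpc i)).kind.resolve_left hi).2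
  choose z hz using hz
  have hj : ∀ i, ¬ GainP G (p i) r → JoinP G (p i) r := fun i hi =>
    ((hcat _ (hpc i)).kind.resolve_left hi).1
  refine midE_of_fam (ρ := ρ) (D := DE ρ r) (D1 := D1E ρ r) (D2 := r + 1) (N := 598)
    (N0 := NE ρ r) (r := r) (r1 := r) hp hdeg (fun i => GainP G (p i) r) Cat hmax
    (fun q hq => (hcat q hq).diam) hocc ?_ ?_ ?_ ?_ ?_ z hz ?_ ?_ ?_ ?_ ?_
  · intro i hi v _ t ht ht' n hn h
    obtain ⟨m, hm, z', w', h1, h2⟩ := hp.near_ter hi (hfar' i) ht ht' hn h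
    refine ⟨m, ?_, z', w', h1, h2⟩
    unfold DE
    omega
  · intro i hi v hv h1 h2
    refine hp.near_int ?_ hi (hfar' i) hv h1 h2
    unfold DE
    omega
  · intro i hi v hv
    exact hp.join_int (hj i hi) (hfar' i) hv
  · intro i hi t ht t' ht' h1 h2
    exact hp.join_ter (hj i hi) (hfar' i) ht ht' h1 h2
  · intro i
    have h1 := (hcat _ (hpc i)).hm
    have h2 := (hcat _ (hpc i)).ht
    omega
  · unfold D1E
    omega
  · unfold DE
    omega
  · unfold DE D1E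
    omega
  · unfold NE
    exact Nat.le_add_right _ _
  · unfold NE
    exact Nat.le_add_left _ _

open Classical in
/-- **The family of places, the patterns and linear growth**, for a general local condition with a
discharging inequality. -/
theorem family_gen {R : Rot G} (hP : R.Plane) (hcub : ∀ v, G.degree v = 3) {r : ℕ}
    (Cat : Place V → Prop) (hcat : ∀ q, Cat q → PlOK R r q) {Gd : G.Dart → Prop} {ρ : ℕ}
    (hocc : ∀ d : G.Dart, ¬ Gd d →
      (∃ x, Near R ρ d x ∧ ∃ q, Cat q ∧ x.fst ∈ q.Vert) ∨ ∃ e, Near R ρ d e ∧ Pat7 R e)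
    {A E : ℕ}
    (hdis : ∀ U : Finset V, ∑ d ∈ univ.filter (fun d : G.Dart => d.fst ∈ U), kap R d ≤
      - (1 / 1000) * (#{d : G.Dart | d.fst ∈ U ∧ sz R d ≠ 6} : ℝ) +
        A * #{d : G.Dart | d.fst ∈ U ∧ ¬ Gd d} + E * #(bd (G := G) U)) :
    ∃ (k : ℕ) (p : Fin k → Place V), Fam p G ∧ (∀ i, (p i).R.m ≤ 299) ∧
      (∀ i, (p i).R.t ≤ 299) ∧ ∃ X : MidG R (FI p) (FP p), X.Grow (CE A E ρ r) := by
  have hdeg : Deg3 G := by
    intro v A hA
    rw [← hcub v, ← G.card_neighborFinset_eq_degree]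
    exact card_le_card fun w hw => (G.mem_neighborFinset v w).2 (hA w hw)
  obtain ⟨k, p, hp, hm, ht, ⟨X⟩⟩ := family_midE hcub Cat hcat hocc
  exact ⟨k, p, hp, hm, ht, X.toMidG, X.grow A E hP hcub hp.vd (hp.deg hdeg) hdis⟩

end Pool.Agent.Uni392
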