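import Mathlib
import Pool.Agent.Work.MP_392c8e_co_uni.FamNearG
import Pool.Agent.Work.MP_392c8e_co_uni.OccB
import Pool.Agent.Work.MP_392c8e_co_uni.DischB4

/-!
# The family of places and the patterns, stage B

No bound for the lengths of the faces: the local condition is the one of stage B, and the places of
the catalogue have a gain or joined kept vertices, with bounded chains.
-/

set_option autoImplicit false
set_option linter.unusedSectionVars false

namespace Pool.Agent.Uni392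

open Finset Pool.Agent.Sub392 Pool.Agent.T392 Pool.Agent.Disch392
open Pool.Agent.Uni91 (Fam FI FP)
open Pool.Agent.DischB (LocB TabB)

variable {V : Type} [Fintype V] [DecidableEq V] {G : SimpleGraph V} [DecidableRel G.Adj]

/-- The vertex belongs to a place of the catalogue. -/
def AtCat (Cat : Place V → Prop) (v : V) : Prop := ∃ q, Cat q ∧ v ∈ q.Vert

/-- There is no configuration of stage B near the dart. -/
def GdB (R : Rot G) (K c : ℕ) (d : G.Dart) : Prop := ∀ e, Near R c d e → LocB R K e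

/-- The darts at which the condition fails are near a place or a pattern. -/
theorem occ_gdB {R : Rot G} (hcub : ∀ v, G.degree v = 3) (h5 : ∀ d, 5 ≤ sz R d) {K c : ℕ}
    (hK : 6 ≤ K) {Cat : Place V → Prop} (hT : TabB R K (AtCat Cat))
    (hT' : TabB (mir R) K (AtCat Cat)) (d : G.Dart) (hd : ¬ GdB R K c d) :
    (∃ x, Near R (c + 60) d x ∧ ∃ q, Cat q ∧ x.fst ∈ q.Vert) ∨
      ∃ e, Near R (c + 60) d e ∧ Pat7 R e := by
  unfold GdB at hd
  push Not at hd
  obtain ⟨e, he, hB⟩ := hd
  rcases hT.occ hT' hcub h5 hK hB with ⟨x, hx, hq⟩ | hpat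
  · exact Or.inl ⟨x, he.trans hx, hq⟩
  · exact Or.inr ⟨e, he.mono (Nat.le_add_right _ _), hpat⟩

open Classical in
/-- **The family of places, the patterns and linear growth, stage B.** -/
theorem family_coreB {R : Rot G} (hP : R.Plane) (hcub : ∀ v, G.degree v = 3)
    (h5 : ∀ d, 5 ≤ sz R d) {K r c : ℕ} (hK : 6 ≤ K) (Cat : Place V → Prop)
    (hcat : ∀ q, Cat q → PlOK R r q) (hT : TabB R K (AtCat Cat))
    (hT' : TabB (mir R) K (AtCat Cat)) {A E : ℕ}
    (hdis : ∀ U : Finset V, ∑ d ∈ univ.filter (fun d : G.Dart => d.fst ∈ U), kap R d ≤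
      - (1 / 1000) * (#{d : G.Dart | d.fst ∈ U ∧ sz R d ≠ 6} : ℝ) +
        A * #{d : G.Dart | d.fst ∈ U ∧ ¬ GdB R K c d} + E * #(bd (G := G) U)) :
    ∃ (k : ℕ) (p : Fin k → Place V), Fam p G ∧ (∀ i, (p i).R.m ≤ 299) ∧
      (∀ i, (p i).R.t ≤ 299) ∧ ∃ X : MidG R (FI p) (FP p), X.Grow (CE A E (c + 60) r) :=
  family_gen hP hcub Cat hcat (occ_gdB hcub h5 hK hT hT') hdis

/-! ### The catalogue of all suitable places -/

theorem tabB_mono {R : Rot G} {K : ℕ} {P Q : V → Prop} (h : ∀ v, P v → Q v)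
    (hT : TabB R K P) : TabB R K Q where
  m2 := fun d a b c e f g => h _ (hT.m2 d a b c e f g)
  m3 := fun d a b c e f g => h _ (hT.m3 d a b c e f g)
  m6 := fun d a b c e f g i => h _ (hT.m6 d a b c e f g i)
  flower := fun d a b => h _ (hT.flower d a b)
  z4 := fun d a b c e f => h _ (hT.z4 d a b c e f)
  r2 := fun d a b c => h _ (hT.r2 d a b c)
  l2 := fun d a b c => h _ (hT.l2 d a b c)
  g1 := fun d a b c e f g => h _ (hT.g1 d a b c e f g)
  p2 := fun d a b c => h _ (hT.p2 d a b c)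
  p1 := fun d a b c e f => h _ (hT.p1 d a b c e f)
  g2 := fun d a b c e => h _ (hT.g2 d a b c e)
  g2r := fun d a b c e => h _ (hT.g2r d a b c e)
  g3 := fun d a b c e f g i => h _ (hT.g3 d a b c e f g i)

theorem PlOK.mir {R : Rot G} {r : ℕ} {q : Place V} (h : PlOK (Disch392.mir R) r q) :
    PlOK R r q where
  good := h.good
  hm := h.hm
  ht := h.ht
  ne := h.ne
  diam := h.diam
  kind := by
    rcases h.kind with h1 | ⟨h1, d, h2⟩
    · exact Or.inl h1
    · exact Or.inr ⟨h1, _, h2.mir⟩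

theorem AtCat.mir {R : Rot G} {r : ℕ} {v : V} (h : AtCat (PlOK (Disch392.mir R) r) v) :
    AtCat (PlOK R r) v := by
  obtain ⟨q, h1, h2⟩ := h
  exact ⟨q, h1.mir, h2⟩

open Classical in
/-- **The family of places, the patterns and linear growth, stage B**, for the catalogue of all
suitable places. -/
theorem family_allB {R : Rot G} (hP : R.Plane) (hcub : ∀ v, G.degree v = 3)
    (h5 : ∀ d, 5 ≤ sz R d) {K r c : ℕ} (hK : 6 ≤ K) (hT : TabB R K (AtCat (PlOK R r)))
    (hT' : TabB (mir R) K (AtCat (PlOK (mir R) r))) {A E : ℕ}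
    (hdis : ∀ U : Finset V, ∑ d ∈ univ.filter (fun d : G.Dart => d.fst ∈ U), kap R d ≤
      - (1 / 1000) * (#{d : G.Dart | d.fst ∈ U ∧ sz R d ≠ 6} : ℝ) +
        A * #{d : G.Dart | d.fst ∈ U ∧ ¬ GdB R K c d} + E * #(bd (G := G) U)) :
    ∃ (k : ℕ) (p : Fin k → Place V), Fam p G ∧ (∀ i, (p i).R.m ≤ 299) ∧
      (∀ i, (p i).R.t ≤ 299) ∧ ∃ X : MidG R (FI p) (FP p), X.Grow (CE A E (c + 60) r) :=
  family_coreB hP hcub h5 hK (PlOK R r) (fun _ h => h) hT (tabB_mono (fun _ h => AtCat.mir h) hT') hdis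

/-- The constant of linear growth. -/
def CB (r : ℕ) : ℕ := CE 7 15 (13 + 60) r

/-- **The family of places, the patterns and linear growth, stage B**: a plane cubic graph with
faces of length at least five, and the table of stage B for the places. -/
theorem family_B {R : Rot G} (hP : R.Plane) (hcub : ∀ v, G.degree v = 3)
    (h5 : ∀ d, 5 ≤ sz R d) {K r : ℕ} (hK : 1000 ≤ K) (hT : TabB R K (AtCat (PlOK R r)))
    (hT' : TabB (mir R) K (AtCat (PlOK (mir R) r))) :
    ∃ (k : ℕ) (p : Fin k → Place V), Fam p G ∧ (∀ i, (p i).R.m ≤ 299) ∧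
      (∀ i, (p i).R.t ≤ 299) ∧ ∃ X : MidG R (FI p) (FP p), X.Grow (CB r) := by
  classical
  refine family_allB (K := K) (r := r) (c := 13) (A := 7) (E := 15) hP hcub h5 (by omega) hT hT'
    fun U => ?_
  refine (DischB.disch_locB hK (le_refl 13) R hcub U).trans (le_of_eq ?_)
  push_cast
  refine congrArg (fun n : ℕ => _ + 7 * (n : ℝ) + _) (congrArg Finset.card
    (Finset.ext fun d => ?_))
  simp only [mem_filter, mem_univ, true_and, GdB]

end Pool.Agent.Uni392
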