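import Mathlib
import Pool.Agent.Work.MP_392c8e_co_uni.L7Comp
import Pool.Agent.Work.MP_392c8e_co_uni.GrowthB
import Pool.Agent.Work.MP_392c8e_co_uni.Occ

/-!
# The places with two consecutive hexagons as patterns

The faces of length five which have a place away from a given set of vertices; size and diameter of
a place.
-/

namespace Pool.Agent.Uni3

open Finset Pool.Agent.Circ Pool.Agent.Sub392 Pool.Agent.T392
open Pool.Agent.Uni392 (Steps nbN mem_nbN)
open Pool.Agent.T1Red (newG)
open Pool.Agent.Uni91 (ends)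

set_option linter.unusedSectionVars false

variable {V : Type} [Fintype V] [DecidableEq V] {G : SimpleGraph V} [DecidableRel G.Adj]
  {R : Rot G}

theorem L7.of_pat {e : G.Dart} (h : Disch392.Pat7 R e) : L7 R e := by
  obtain ⟨h1, h2, h3, h4⟩ := h
  refine ⟨h1, h2, h3, fun x hx => ?_⟩
  obtain ⟨i, hi⟩ := ((face_eq_iff R e x).1 hx).exists_nat_pow_eq
  have h5 : Function.minimalPeriod R.next e = 5 := by rw [← sz_eq, h1]
  have h6 : x = R.next^[i % 5] e := by
    rw [← h5, Function.iterate_mod_minimalPeriod_eq, ← hi, Equiv.Perm.coe_pow]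
  rw [h6]
  exact h4 (i % 5) (Nat.mod_lt _ (by norm_num))

theorem L7.size_le {δ : G.Dart} (h : L7 R δ) {d : G.Dart} (hd : PF R δ (R.face d)) :
    sz R d ≤ 6 := by
  have h0 : ∀ x : G.Dart, R.face d = R.face x → sz R d = sz R x := by
    intro x hx
    unfold sz
    rw [hx]
  rcases hd with hd | hd | hd
  · rw [h0 _ hd, h.five]
    norm_num
  · rw [h0 _ hd, h.hex1]
  · rw [h0 _ hd, h.hex2]

theorem card_face_le (g : R.Face) {n : ℕ} (hg : ∀ d, R.face d = g → sz R d ≤ n) :
    ((univ.filter fun d : G.Dart => R.face d = g).image fun d => d.fst).card ≤ n := by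
  classical
  refine card_image_le.trans ?_
  by_cases hex : ∃ d : G.Dart, R.face d = g
  · obtain ⟨d, hd⟩ := hex
    have h1 := hg d hd
    unfold sz Rot.size at h1
    rw [hd] at h1
    exact h1
  · push Not at hex
    have : (univ.filter fun d : G.Dart => R.face d = g) = ∅ := by
      rw [filter_eq_empty_iff]
      intro d _
      exact hex d
    rw [this]
    simp

theorem L7.card_plV {δ : G.Dart} (h : L7 R δ) : (plV R δ).card ≤ 17 := by
  classical
  have h1 : plV R δ ⊆ ((univ.filter fun d : G.Dart => R.face d = R.face δ).image fun d => d.fst) ∪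
      (((univ.filter fun d : G.Dart => R.face d = R.face δ.symm).image fun d => d.fst) ∪
      ((univ.filter fun d : G.Dart => R.face d = R.face (R.next δ).symm).image fun d => d.fst)) := by
    intro v hv
    obtain ⟨d, hd, hF⟩ := mem_plV.1 hv
    simp only [mem_union, mem_image, mem_filter, mem_univ, true_and]
    rcases hF with hF | hF | hF
    · exact Or.inl ⟨d, hF, hd⟩
    · exact Or.inr (Or.inl ⟨d, hF, hd⟩)
    · exact Or.inr (Or.inr ⟨d, hF, hd⟩)
  have h2 := card_face_le (R := R) (R.face δ) (n := 5) (by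
    intro d hd
    unfold sz
    rw [hd]
    exact h.five.le)
  have h3 := card_face_le (R := R) (R.face δ.symm) (n := 6) (by
    intro d hd
    unfold sz
    rw [hd]
    exact h.hex1.le)
  have h4 := card_face_le (R := R) (R.face (R.next δ).symm) (n := 6) (by
    intro d hd
    unfold sz
    rw [hd]
    exact h.hex2.le)
  have h5 := (card_le_card h1).trans ((card_union_le _ _).trans
    (Nat.add_le_add_left (card_union_le _ _) _))
  omega

/-- Steps along the faces of a place. -/
theorem L7.steps_face {δ : G.Dart} (h : L7 R δ) {I : V → Prop} {P : List (V × List V × V)}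
    (hI : ∀ v ∈ plV R δ, ¬ I v) {d d' : G.Dart} (hd : PF R δ (R.face d))
    (hdd : R.face d = R.face d') :
    ∃ n, n ≤ 5 ∧ Steps (nbN G I P) n d.fst d'.fst := by
  obtain ⟨i, hi⟩ := ((face_eq_iff R d d').1 hdd.symm).exists_nat_pow_eq
  have hsz := h.size_le hd
  have hpos : 0 < Function.minimalPeriod R.next d := by
    rw [← sz_eq]
    unfold sz Rot.size
    exact card_pos.2 ⟨d, by simp⟩
  have h6 : d' = R.next^[i % Function.minimalPeriod R.next d] d := by
    rw [Function.iterate_mod_minimalPeriod_eq, ← hi, Equiv.Perm.coe_pow]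
  have hlt : i % Function.minimalPeriod R.next d < 6 := by
    have := Nat.mod_lt i hpos
    rw [← sz_eq] at this ⊢
    omega
  have key : ∀ n : ℕ, Steps (nbN G I P) n d.fst (R.next^[n] d).fst := by
    intro n
    induction n with
    | zero => exact Steps.refl _
    | succ n ih =>
      refine ih.trans (Steps.cons (y := (R.next^[n + 1] d).fst) ?_ (Steps.refl _))
      rw [mem_nbN, Function.iterate_succ_apply', R.fst_next]
      have h7 : R.face (R.next^[n] d) = R.face d := face_iter R d n
      refine Or.inl ⟨(R.next^[n] d).adj, ?_, ?_⟩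
      · exact hI _ (mem_plV.2 ⟨_, rfl, by rw [h7]; exact hd⟩)
      · have h8 : (R.next^[n] d).snd = (R.next^[n + 1] d).fst := by
          rw [Function.iterate_succ_apply', R.fst_next]
        rw [h8]
        exact hI _ (mem_plV.2 ⟨_, rfl, by rw [face_iter]; exact hd⟩)
  refine ⟨i % Function.minimalPeriod R.next d, by omega, ?_⟩
  have h9 := key (i % Function.minimalPeriod R.next d)
  rwa [← h6] at h9

theorem L7.steps_snd {δ : G.Dart} (h : L7 R δ) {I : V → Prop} {P : List (V × List V × V)}
    (hI : ∀ v ∈ plV R δ, ¬ I v) {v : V} (hv : v ∈ plV R δ) :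
    (∃ n, n ≤ 5 ∧ Steps (nbN G I P) n v δ.snd) ∧ ∃ n, n ≤ 5 ∧ Steps (nbN G I P) n δ.snd v := by
  obtain ⟨d, rfl, hF⟩ := mem_plV.1 hv
  have hc : ∃ x : G.Dart, R.face d = R.face x ∧ x.fst = δ.snd := by
    rcases hF with hF | hF | hF
    · exact ⟨R.next δ, by rw [hF, R.face_next], R.fst_next δ⟩
    · exact ⟨δ.symm, hF, rfl⟩
    · refine ⟨R.next (R.next δ).symm, by rw [hF, R.face_next], ?_⟩
      rw [R.fst_next]
      have h10 : (R.next δ).symm.snd = (R.next δ).fst := rfl
      rw [h10, R.fst_next]
  obtain ⟨x, hx, hxs⟩ := hc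
  have h1 := h.steps_face (P := P) hI hF hx
  have h2 := h.steps_face (P := P) hI (d := x) (d' := d) (by rw [← hx]; exact hF) hx.symm
  rw [hxs] at h1 h2
  exact ⟨h1, h2⟩

/-- **The diameter of a place.** -/
theorem L7.steps {δ : G.Dart} (h : L7 R δ) {I : V → Prop} {P : List (V × List V × V)}
    (hI : ∀ v ∈ plV R δ, ¬ I v) {v w : V} (hv : v ∈ plV R δ) (hw : w ∈ plV R δ) :
    ∃ n, n ≤ 10 ∧ Steps (nbN G I P) n v w := by
  obtain ⟨⟨n, hn, hs⟩, -⟩ := h.steps_snd (P := P) hI hv
  obtain ⟨-, m, hm, ht⟩ := h.steps_snd (P := P) hI hw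
  exact ⟨n + m, by omega, hs.trans ht⟩

/-- The faces of length five with a place away from `B`. -/
noncomputable def selF (R : Rot G) (B : V → Prop) : Finset R.Face := by
  classical
  exact univ.filter fun f => ∃ d : G.Dart, R.face d = f ∧ L7 R d ∧ ∀ v ∈ plV R d, ¬ B v

/-- The dart of the place. -/
noncomputable def selD (R : Rot G) (B : V → Prop) (f : R.Face) : G.Dart := by
  classical
  exact if h : ∃ d : G.Dart, R.face d = f ∧ L7 R d ∧ ∀ v ∈ plV R d, ¬ B v then h.choose
    else Quotient.out f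

theorem mem_selF {B : V → Prop} {f : R.Face} :
    f ∈ selF R B ↔ ∃ d : G.Dart, R.face d = f ∧ L7 R d ∧ ∀ v ∈ plV R d, ¬ B v := by
  classical
  unfold selF
  rw [mem_filter]
  exact and_iff_right (mem_univ _)

theorem selD_spec {B : V → Prop} {f : R.Face} (hf : f ∈ selF R B) :
    R.face (selD R B f) = f ∧ L7 R (selD R B f) ∧ ∀ v ∈ plV R (selD R B f), ¬ B v := by
  classical
  have h := mem_selF.1 hf
  unfold selD
  rw [dif_pos h]
  exact h.choose_spec

/-- A pattern away from `B` belongs to the selected faces. -/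
theorem mem_selF_of_pat {B : V → Prop} {e : G.Dart} (h : Disch392.Pat7 R e)
    (hB : ∀ v ∈ plV R e, ¬ B v) : R.face e ∈ selF R B :=
  mem_selF.2 ⟨e, rfl, L7.of_pat h, hB⟩

/-- All vertices of a selected face are vertices of its place. -/
theorem fst_mem_selD {B : V → Prop} {f : R.Face} (hf : f ∈ selF R B) {d : G.Dart}
    (hd : R.face d = f) : d.fst ∈ plV R (selD R B f) :=
  mem_plV.2 ⟨d, rfl, Or.inl (by rw [hd, (selD_spec hf).1])⟩

/-- The vertices of a place are close to every vertex of the face of length five. -/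
theorem plV_near {e : G.Dart} (h : L7 R e) {v : V} (hv : v ∈ plV R e) :
    ∃ n, n ≤ 5 ∧ Steps (nbN G (fun _ => False) []) n e.snd v := by
  obtain ⟨-, n, hn, ht⟩ := h.steps_snd (I := fun _ => False) (P := []) (fun _ _ h => h) hv
  exact ⟨n, hn, ht⟩

end Pool.Agent.Uni3
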