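import Mathlib
import Pool.Agent.Work.MP_392c8e_co_uni.Mirror
import Pool.Agent.Work.MP_392c8e_co_uni.Fam

/-!
# The hexagon of a place without a vertex of degree two

A place replaces three consecutive edges of a hexagon by one new edge.
-/

set_option autoImplicit false
set_option linter.unusedSectionVars false

namespace Pool.Agent.Uni392

open Finset Pool.Agent.Sub392 Pool.Agent.T392 Pool.Agent.Disch392
open Pool.Agent.T1Red (Int)

variable {V : Type} [Fintype V] [DecidableEq V] {G : SimpleGraph V} [DecidableRel G.Adj]

/-- The face of `d` is a hexagon, three consecutive edges of it are a path of the place, and its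
other vertices are not in the interior of the place. -/
structure ZHex (R : Rot G) (q : Place V) (d : G.Dart) : Prop where
  six : sz R d = 6
  path : (d.fst, [(R.next d).fst, (R.next^[2] d).fst], (R.next^[3] d).fst) ∈ q.pth ∨
    ((R.next^[3] d).fst, [(R.next^[2] d).fst, (R.next d).fst], d.fst) ∈ q.pth
  out : ∀ i, i = 0 ∨ i = 3 ∨ i = 4 ∨ i = 5 → ¬ Int q.R q.f (R.next^[i] d).fst

theorem mir_fst (R : Rot G) (d : G.Dart) (i : ℕ) :
    ((mir R).next^[i] d).fst = (R.next ((prev R)^[i] d.symm)).fst := by
  rw [mir_iter, R.fst_next]
  rfl

theorem prev_eq_of_six {R : Rot G} {d : G.Dart} (h : sz R d = 6) :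
    prev R d = R.next^[5] d ∧ prev R (prev R d) = R.next^[4] d := by
  have h1 : R.next^[6] d = d := by rw [← h]; exact next_sz R d
  have h2 : prev R d = R.next^[5] d := by
    have : R.next (R.next^[5] d) = d := by
      rw [← Function.iterate_succ_apply' R.next 5 d]
      exact h1
    rw [← this, prev_next, this]
  refine ⟨h2, ?_⟩
  rw [h2, Function.iterate_succ_apply', prev_next]

/-- The condition for the mirror image. -/
theorem ZHex.mir {R : Rot G} {q : Place V} {d : G.Dart} (h : ZHex (Disch392.mir R) q d) :
    ZHex R q (prev R (prev R d.symm)) := by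
  have h6 : sz R (prev R (prev R d.symm)) = 6 := by
    rw [sz_prev, sz_prev]
    have := h.six
    rwa [sz_mir] at this
  obtain ⟨g1, g2⟩ := prev_eq_of_six h6
  set d0 := prev R (prev R d.symm) with hd0
  have e3 : ((Disch392.mir R).next^[3] d).fst = d0.fst := by
    rw [mir_fst]
    simp only [Function.iterate_succ, Function.iterate_zero, Function.comp, id]
    rw [next_prev]
  have e2 : ((Disch392.mir R).next^[2] d).fst = (R.next d0).fst := by
    rw [mir_fst]
    simp only [Function.iterate_succ, Function.iterate_zero, Function.comp, id]
    rw [hd0]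
  have e1 : ((Disch392.mir R).next d).fst = (R.next^[2] d0).fst := by
    have := mir_fst R d 1
    simp only [Function.iterate_succ, Function.iterate_zero, Function.comp, id] at this ⊢
    rw [this, hd0, next_prev, next_prev, next_prev]
  have e0 : d.fst = (R.next^[3] d0).fst := by
    have := mir_fst R d 0
    simp only [Function.iterate_succ, Function.iterate_zero, Function.comp, id] at this ⊢
    rw [this, hd0, next_prev, next_prev]
  have e4 : ((Disch392.mir R).next^[4] d).fst = (R.next^[5] d0).fst := by
    rw [mir_fst, ← g1]
    simp only [Function.iterate_succ, Function.iterate_zero, Function.comp, id]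
    rw [next_prev, ← hd0]
  have e5 : ((Disch392.mir R).next^[5] d).fst = (R.next^[4] d0).fst := by
    rw [mir_fst, ← g2]
    simp only [Function.iterate_succ, Function.iterate_zero, Function.comp, id]
    rw [next_prev, ← hd0]
  refine ⟨h6, ?_, ?_⟩
  · have := h.path
    rw [e3, e2, e1, e0] at this
    exact this.symm
  · rintro i (rfl | rfl | rfl | rfl)
    · have := h.out 3 (Or.inr (Or.inl rfl))
      rwa [e3] at this
    · have := h.out 0 (Or.inl rfl)
      rw [← e0]
      exact this
    · have := h.out 5 (Or.inr (Or.inr (Or.inr rfl)))
      rwa [e5] at this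
    · have := h.out 4 (Or.inr (Or.inr (Or.inl rfl)))
      rwa [e4] at this

end Pool.Agent.Uni392
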