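import Pool.Agent.Work.MP_392c8e_co_uni.SjF55
import Pool.Agent.Work.MP_392c8e_co_uni.MidIn
import Pool.Agent.Work.MP_392c8e_co_uni.L7Pat
import Pool.Agent.Work.MP_392c8e_co_uni.ZHex

/-!
# The input of the middle of the construction from a maximal family of places
-/

set_option autoImplicit false
set_option linter.unusedSectionVars false

namespace Pool.Agent.Uni392

open Finset Pool.Agent.Sub392 Pool.Agent.T392 Pool.Agent.Disch392
open Pool.Agent.Uni3 (L7 plV mem_plV selF selD selD_spec mem_selF_of_pat fst_mem_selD plV_near)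
open Pool.Agent.Uni91 (VD ends full FI FP Fam Good mem_FP)
open Pool.Agent.T1Red (newG Deg3 Int Real)

variable {V : Type} [Fintype V] [DecidableEq V] {G : SimpleGraph V} [DecidableRel G.Adj]
  {R : Rot G}

/-- Chains of the graph itself are walks. -/
theorem walk_of_steps {n : ℕ} {x y : V} (h : Steps (nbN G (fun _ => False) []) n x y) :
    ∃ w : G.Walk x y, w.length = n := by
  induction h with
  | refl x => exact ⟨SimpleGraph.Walk.nil, rfl⟩
  | cons hxy _ ih =>
    obtain ⟨w, hw⟩ := ih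
    rcases mem_nbN.1 hxy with ⟨h1, -, -⟩ | ⟨-, h1⟩
    · exact ⟨SimpleGraph.Walk.cons h1 w, by rw [SimpleGraph.Walk.length_cons, hw]⟩
    · simp [ends] at h1

/-- Around a hexagon. -/
theorem walk_hex {d x : G.Dart} (h6 : sz R d = 6) (hx : R.face x = R.face d) :
    ∃ w : G.Walk d.fst x.fst, w.length ≤ 5 := by
  obtain ⟨i, hi⟩ := ((face_eq_iff R d x).1 hx).exists_nat_pow_eq
  have h5 : Function.minimalPeriod R.next d = 6 := by rw [← sz_eq, h6]
  have h7 : x = R.next^[i % 6] d := by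
    rw [← h5, Function.iterate_mod_minimalPeriod_eq, ← hi, Equiv.Perm.coe_pow]
  obtain ⟨w, hw⟩ := ((Near.refl R 0 d).iter (i % 6)).walk
  have h8 := Nat.mod_lt i (show 6 > 0 by norm_num)
  rw [h7]
  exact ⟨w, by omega⟩

variable {ι : Type} [Fintype ι] {p : ι → Place V}

/-- A walk from a vertex outside the interiors is a chain of the new graph or meets a place. -/
theorem walk_cases (hp : Fam p G) {v a : V} (w : G.Walk v a) (hv : ¬ FI p v) :
    (∃ b, (∃ i, b ∈ (p i).Vert) ∧ ∃ q : G.Walk v b, q.length ≤ w.length) ∨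
      ∃ n, n ≤ w.length ∧ Steps (nbN G (FI p) (FP p)) n v a := by
  induction w with
  | nil => exact Or.inr ⟨0, le_rfl, Steps.refl _⟩
  | @cons v u a h w ih =>
    by_cases hu : FI p u
    · left
      obtain ⟨i, hi⟩ := hu
      refine ⟨u, ⟨i, (hp.good i).int_vert hi⟩, SimpleGraph.Walk.cons h SimpleGraph.Walk.nil, ?_⟩
      rw [SimpleGraph.Walk.length_cons, SimpleGraph.Walk.length_cons,
        SimpleGraph.Walk.length_nil]
      omega
    · rcases ih hu with ⟨b, hb, q, hq⟩ | ⟨n, hn, hs⟩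
      · refine Or.inl ⟨b, hb, SimpleGraph.Walk.cons h q, ?_⟩
        rw [SimpleGraph.Walk.length_cons, SimpleGraph.Walk.length_cons]
        omega
      · refine Or.inr ⟨n + 1, ?_, Steps.cons (mem_nbN.2 (Or.inl ⟨h, hv, hu⟩)) hs⟩
        rw [SimpleGraph.Walk.length_cons]
        omega

/-- The set of the pattern at a face of length five. -/
noncomputable def SF (R : Rot G) (p : ι → Place V) (f : R.Face) : Finset V := by
  classical
  exact univ.filter fun v => ¬ FI p v ∧ ∃ t ∈ plV R (selD R (FI p) f), ∃ n, n ≤ 20 ∧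
    Steps (nbN G (FI p) (FP p)) n v t

theorem mem_SF {f : R.Face} {v : V} : v ∈ SF R p f ↔ ¬ FI p v ∧
    ∃ t ∈ plV R (selD R (FI p) f), ∃ n, n ≤ 20 ∧ Steps (nbN G (FI p) (FP p)) n v t := by
  classical
  unfold SF
  simp

theorem card_SF (hdeg : Deg3 (newG G (FI p) (ends (FP p)))) {f : R.Face}
    (hf : f ∈ selF R (FI p)) : (SF R p f).card ≤ 4 ^ 20 * 17 := by
  classical
  have h1 : SF R p f ⊆ (plV R (selD R (FI p) f)).biUnion
      fun a => bal (nbN G (FI p) (FP p)) 20 a := by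
    intro v hv
    obtain ⟨-, a, ha, n, hn, h⟩ := mem_SF.1 hv
    exact Finset.mem_biUnion.2 ⟨a, ha, bal_mono _ _ hn (h.mem_bal nbN_symm)⟩
  refine (Finset.card_le_card h1).trans ?_
  refine (Finset.card_biUnion_le_card_mul _ _ (4 ^ 20) fun a _ => ?_).trans ?_
  · exact card_bal (m := 3) (fun v => hdeg v _ fun w hw => mem_nbN.1 hw) 20 a
  · rw [mul_comm]
    exact Nat.mul_le_mul_left _ (selD_spec hf).2.1.card_plV

theorem SF_joined {f : R.Face} (hf : f ∈ selF R (FI p)) {v w : V} (hv : v ∈ SF R p f)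
    (hw : w ∈ SF R p f) : ∃ n, n ≤ 50 ∧ Steps (nbN G (FI p) (FP p)) n v w := by
  obtain ⟨-, t, t1, k, k1, k2⟩ := mem_SF.1 hv
  obtain ⟨-, t', t3, k', k3, k4⟩ := mem_SF.1 hw
  obtain ⟨-, hL, hB⟩ := selD_spec hf
  obtain ⟨l, l1, l2⟩ := hL.steps (P := FP p) hB t1 t3
  exact ⟨k + l + k', by omega, (k2.trans l2).trans (k4.rev nbN_symm)⟩

theorem plV_sub_SF {f : R.Face} (hf : f ∈ selF R (FI p)) :
    plV R (selD R (FI p) f) ⊆ SF R p f := fun v hv =>
  mem_SF.2 ⟨(selD_spec hf).2.2 v hv, v, hv, 0, Nat.zero_le _, Steps.refl _⟩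

/-- The hexagon of a place: the vertices are not in an interior. -/
theorem zhex_out (hp : Fam p G) {j : ι} {d : G.Dart} (h : ZHex R (p j) d) :
    (∀ i, i = 0 ∨ i = 3 ∨ i = 4 ∨ i = 5 → ¬ FI p (R.next^[i] d).fst) ∧
      d.fst ∈ (p j).Vert ∧ (R.next d).fst ∈ (p j).Vert ∧ (R.next^[3] d).fst ∈ (p j).Vert := by
  have hg := hp.good j
  have hm : ∀ x ∈ [d.fst, (R.next d).fst, (R.next^[2] d).fst, (R.next^[3] d).fst],
      x ∈ (p j).Vert := by
    intro x hx
    rcases h.path with h1 | h1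
    · refine hg.mem_full h1 ?_
      unfold Uni91.full
      simpa using hx
    · refine hg.mem_full h1 ?_
      unfold Uni91.full
      simp only [List.mem_cons, List.not_mem_nil, or_false] at hx
      simp only [List.mem_cons, List.cons_append, List.nil_append, List.not_mem_nil, or_false]
      tauto
  have h0 := hm d.fst (by simp)
  have h3 := hm (R.next^[3] d).fst (by simp)
  refine ⟨?_, h0, hm _ (by simp), h3⟩
  have key : ∀ x y, x ∈ (p j).Vert → (G.Adj y x ∨ y = x) → ¬ Int (p j).R (p j).f y → ¬ FI p y := by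
    rintro x y hx hxy hy ⟨i, hi⟩
    by_cases hij : i = j
    · subst hij
      exact hy hi
    · apply hij
      rcases hxy with h4 | h4
      · exact hp.eq_of_vert ((hp.good i).nbr_vert hi h4) hx
      · subst h4
        exact hp.eq_of_vert ((hp.good i).int_vert hi) hx
  rintro i (rfl | rfl | rfl | rfl)
  · exact key _ _ h0 (Or.inr rfl) (h.out 0 (Or.inl rfl))
  · exact key _ _ h3 (Or.inr rfl) (h.out 3 (Or.inr (Or.inl rfl)))
  · refine key _ _ h3 (Or.inl ?_) (h.out 4 (Or.inr (Or.inr (Or.inl rfl))))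
    have h5 : (R.next^[4] d).fst = (R.next^[3] d).snd := by
      rw [Function.iterate_succ_apply' R.next 3 d, R.fst_next]
    rw [h5]
    exact (R.next^[3] d).adj.symm
  · refine key _ _ h0 (Or.inl ?_) (h.out 5 (Or.inr (Or.inr (Or.inr rfl))))
    have h5 : (R.next^[6] d).fst = (R.next^[5] d).snd := by
      rw [Function.iterate_succ_apply' R.next 5 d, R.fst_next]
    have h6 : R.next^[6] d = d := by
      rw [← h.six]
      exact next_sz R d
    rw [h6] at h5
    rw [h5]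
    exact (R.next^[5] d).adj

/-- **The input of the middle of the construction.** -/
theorem midIn_of_fam (hp : Fam p G) (hdeg : Deg3 G)
    (gain : ι → Prop) (Cat : Place V → Prop) {r D1 D2 D N N0 r1 : ℕ}
    (hmax : ∀ q, Cat q → ∃ i, ∃ a ∈ q.Vert, ∃ b ∈ (p i).Vert, ∃ w : G.Walk a b, w.length < D2)
    (hdiam : ∀ q, Cat q → ∀ a ∈ q.Vert, ∀ b ∈ q.Vert, ∃ w : G.Walk a b, w.length ≤ r)
    (hocc : ∀ e : G.Dart, ¬ LocOK R e →
      (∃ x, Near R 40 e x ∧ ∃ q, Cat q ∧ x.fst ∈ q.Vert) ∨ Pat7 R e)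
    (h1 : ∀ i, gain i → ∀ v, ¬ FI p v → ∀ t ∈ (p i).Vert, ¬ FI p t → ∀ n, n ≤ D1 →
      Steps (nbN G (FI p) (FP p)) n v t → NearG G (FI p) (FP p) D v)
    (h2 : ∀ i, gain i → ∀ v, Int (p i).R (p i).f v → (∀ u, ¬ Del G (FI p) (FP p) v u) →
      ¬ Inn (FP p) v → NearG G (FI p) (FP p) D v)
    (h3 : ∀ i, ¬ gain i → ∀ v, Int (p i).R (p i).f v →
      Inn (FP p) v ∨ ∃ u, Del G (FI p) (FP p) v u)
    (hring : ∀ i, ¬ gain i → ∀ t ∈ (p i).Vert, ∀ t' ∈ (p i).Vert, ¬ FI p t → ¬ FI p t' →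
      ∃ k, k ≤ r1 ∧ Steps (nbN G (FI p) (FP p)) k t t')
    (hN : ∀ i, (p i).R.t + (p i).R.m ≤ N) (z : {i // ¬ gain i} → G.Dart)
    (hz : ∀ j, ZHex R (p j.1) (z j)) (hD1 : 49 + r + D2 ≤ D1) (hD : D1 + r1 + D1 ≤ D)
    (hN0 : 4 ^ D1 * N ≤ N0) (hN1 : 4 ^ 20 * 17 ≤ N0) :
    Nonempty (MidIn R (FI p) (FP p) D N0) := by
  classical
  have hdeg' : Deg3 (newG G (FI p) (ends (FP p))) := hp.deg hdeg
  -- the main case distinction
  have key : ∀ v, (∀ u, ¬ Del G (FI p) (FP p) v u) → ¬ Inn (FP p) v →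
      (∃ b, (∃ i, b ∈ (p i).Vert) ∧ ∃ w : G.Walk v b, w.length ≤ D1) →
      NearG G (FI p) (FP p) D v ∨ ∃ j : {i // ¬ gain i}, v ∈ SJ G p D1 j.1 := by
    rintro v hfree hinn ⟨b, hb, w, hw⟩
    rcases near_or_SJ hp gain h1 h2 h3 w hb hw hfree hinn with h4 | ⟨i, hi, h4⟩
    · exact Or.inl h4
    · exact Or.inr ⟨⟨i, hi⟩, h4⟩
  refine ⟨{
    F := selF R (FI p)
    δ := selD R (FI p)
    hδ := fun f hf => (selD_spec hf).1
    hL := fun f hf => (selD_spec hf).2.1
    hFI := fun f hf => (selD_spec hf).2.2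
    J := {i // ¬ gain i}
    fJ := inferInstance
    z := z
    hz := fun j => (hz j).six
    hzP := fun j => ?_
    hzI := fun j => (zhex_out hp (hz j)).1
    hzinj := fun i j hij => ?_
    S := Sum.elim (fun f => SF R p f.1) (fun j => SJ G p D1 j.1)
    hS0 := ?_
    hS := ?_
    hSF := fun f => plV_sub_SF f.2
    hSJ := fun j i hi => ?_
    hnear := ?_
    hbad := ?_ }⟩
  · rcases (hz j).path with h4 | h4
    · exact Or.inl (mem_FP.2 ⟨j.1, h4⟩)
    · exact Or.inr (mem_FP.2 ⟨j.1, h4⟩)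
  · have h4 := (zhex_out hp (hz i)).2.2.1
    have h5 := (zhex_out hp (hz j)).2.2.1
    rw [hij] at h4
    exact Subtype.ext (hp.eq_of_vert h4 h5)
  · -- the vertices of the hexagon
    obtain ⟨h4, h5, -, h6⟩ := zhex_out hp (hz j)
    have hD1' : 1 ≤ D1 := by omega
    have hout := h4 i hi
    rcases hi with rfl | rfl | rfl | rfl
    · exact mem_SJ.2 ⟨hout, _, h5, h4 0 (Or.inl rfl), 0, Nat.zero_le _, Steps.refl _⟩
    · exact mem_SJ.2 ⟨hout, _, h6, hout, 0, Nat.zero_le _, Steps.refl _⟩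
    · refine mem_SJ.2 ⟨hout, _, h6, h4 3 (Or.inr (Or.inl rfl)), 1, hD1',
        Steps.cons (mem_nbN.2 (Or.inl ⟨?_, hout, h4 3 (Or.inr (Or.inl rfl))⟩)) (Steps.refl _)⟩
      have h7 : (R.next^[4] (z j)).fst = (R.next^[3] (z j)).snd := by
        rw [Function.iterate_succ_apply' R.next 3, R.fst_next]
      rw [h7]
      exact (R.next^[3] (z j)).adj.symm
    · refine mem_SJ.2 ⟨hout, _, h5, h4 0 (Or.inl rfl), 1, hD1',
        Steps.cons (mem_nbN.2 (Or.inl ⟨?_, hout, h4 0 (Or.inl rfl)⟩)) (Steps.refl _)⟩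
      have h7 : (R.next^[6] (z j)).fst = (R.next^[5] (z j)).snd := by
        rw [Function.iterate_succ_apply' R.next 5, R.fst_next]
      have h8 : R.next^[6] (z j) = z j := by
        rw [← (hz j).six]
        exact next_sz R (z j)
      rw [h8] at h7
      show G.Adj (R.next^[5] (z j)).fst (z j).fst
      rw [h7]
      exact (R.next^[5] (z j)).adj
  · rintro (f | j)
    · exact (card_SF hdeg' f.2).trans hN1
    · exact (card_SJ hdeg' (hN j.1)).trans hN0
  · rintro (f | j) v hv w hw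
    · obtain ⟨n, hn, h4⟩ := SF_joined f.2 hv hw
      exact ⟨n, by omega, h4⟩
    · obtain ⟨n, hn, h4⟩ := SJ_joined (hring j.1 j.2) hv hw
      exact ⟨n, by omega, h4⟩
  · -- near
    rintro v hfree hinn ⟨d, rfl, hd | ⟨hd, h6⟩⟩
    · rcases key _ hfree hinn ⟨d.fst, near_of_inn hp d.adj hd, SimpleGraph.Walk.nil,
        Nat.zero_le _⟩ with h4 | ⟨j, h4⟩
      · exact Or.inl h4
      · exact Or.inr ⟨Sum.inr j, h4⟩
    · have h4 : ∃ x, R.face x = R.face d ∧ FI p x.fst := by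
        unfold KF at hd
        simp only [mem_filter, mem_univ, true_and, not_or] at hd
        by_contra hcon
        push Not at hcon
        exact hd.1 ⟨d, rfl, h6, hcon⟩
      obtain ⟨x, hx, i, hi⟩ := h4
      obtain ⟨w, hw⟩ := walk_hex h6 hx
      rcases key _ hfree hinn ⟨x.fst, ⟨i, (hp.good i).int_vert hi⟩, w, by omega⟩ with h4 | ⟨j, h4⟩
      · exact Or.inl h4
      · exact Or.inr ⟨Sum.inr j, h4⟩
  · -- bad
    intro d e hde he hfree hinn
    obtain ⟨w1, hw1⟩ := hde.walk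
    have fin : (∃ b, (∃ i, b ∈ (p i).Vert) ∧ ∃ w : G.Walk d.fst b, w.length ≤ D1) →
        NearG G (FI p) (FP p) D d.fst ∨
          ∃ i, d.fst ∈ Sum.elim (fun f : {f // f ∈ selF R (FI p)} => SF R p f.1)
            (fun j : {i // ¬ gain i} => SJ G p D1 j.1) i := by
      intro h4
      rcases key _ hfree hinn h4 with h5 | ⟨j, h5⟩
      · exact Or.inl h5
      · exact Or.inr ⟨Sum.inr j, h5⟩
    rcases hocc e he with ⟨x, hx, q, hq, hxq⟩ | hpat
    · obtain ⟨w2, hw2⟩ := hx.walk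
      obtain ⟨i, a, ha, b, hb, w4, hw4⟩ := hmax q hq
      obtain ⟨w3, hw3⟩ := hdiam q hq x.fst hxq a ha
      refine fin ⟨b, ⟨i, hb⟩, ((w1.append w2).append w3).append w4, ?_⟩
      rw [SimpleGraph.Walk.length_append, SimpleGraph.Walk.length_append,
        SimpleGraph.Walk.length_append]
      omega
    · by_cases hB : ∀ v ∈ plV R e, ¬ FI p v
      · have hf := mem_selF_of_pat hpat hB
        by_cases hv : FI p d.fst
        · obtain ⟨i, hi⟩ := hv
          exact fin ⟨d.fst, ⟨i, (hp.good i).int_vert hi⟩, SimpleGraph.Walk.nil, Nat.zero_le _⟩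
        · rcases walk_cases hp w1 hv with ⟨b, hb, q, hq⟩ | ⟨n, hn, hs⟩
          · exact fin ⟨b, hb, q, by omega⟩
          · right
            exact ⟨Sum.inl ⟨R.face e, hf⟩, mem_SF.2 ⟨hv, e.fst, fst_mem_selD hf rfl, n,
              by omega, hs⟩⟩
      · push Not at hB
        obtain ⟨v, hv, i, hi⟩ := hB
        obtain ⟨n, hn, hs⟩ := plV_near (L7.of_pat hpat) hv
        obtain ⟨w2, hw2⟩ := walk_of_steps hs
        refine fin ⟨v, ⟨i, (hp.good i).int_vert hi⟩,
          (w1.concat e.adj).append w2, ?_⟩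
        rw [SimpleGraph.Walk.length_append, SimpleGraph.Walk.length_concat]
        omega

end Pool.Agent.Uni392
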