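import Mathlib
import Pool.Agent.Work.MP_392c8e_co_uni.FamNear
import Pool.Agent.Work.MP_392c8e_co_uni.SingleP
import Pool.Agent.Work.MP_392c8e_co_uni.FarFam
import Pool.Agent.Work.MP_392c8e_co_uni.Occ

/-!
# The family of places and the patterns

A maximal family of places at large distance from each other gives the input of the middle of the
construction, if every bad dart is near a place of the catalogue or near a pattern.
-/

set_option autoImplicit false
set_option linter.unusedSectionVars false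

namespace Pool.Agent.Uni392

open Finset Pool.Agent.Sub392 Pool.Agent.T392 Pool.Agent.Disch392
open Pool.Agent.Uni91 (VD ends Fam Good FI FP GainP JoinP)
open Pool.Agent.T1Red (newG Deg3 Int)

variable {V : Type} [Fintype V] [DecidableEq V] {G : SimpleGraph V} [DecidableRel G.Adj]

/-- The places of the catalogue: legal, of bounded size, and either a deleted edge is reached from
all kept vertices in the new graph, or the kept vertices are joined and a face of length four is
created. -/
structure PlOK (R : Rot G) (r : ℕ) (q : Place V) : Prop where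
  good : Good q G
  hm : q.R.m ≤ 299
  ht : q.R.t ≤ 299
  ne : q.Vert.Nonempty
  diam : q.Diam G r
  kind : GainP G q r ∨ JoinP G q r ∧ ∃ d, ZHex R q d

/-- The constants. -/
def DA (r : ℕ) : ℕ := 5 * r + 100

/-- The constants. -/
def NA (r : ℕ) : ℕ := 4 ^ (2 * r + 50) * 598 + 4 ^ 20 * 17

/-- **The family of places and the patterns.** -/
theorem family_core {R : Rot G} (hcub : ∀ v, G.degree v = 3) {r : ℕ} (Cat : Place V → Prop)
    (hcat : ∀ q, Cat q → PlOK R r q)
    (hocc : ∀ e : G.Dart, ¬ LocOK R e →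
      (∃ x, Near R 40 e x ∧ ∃ q, Cat q ∧ x.fst ∈ q.Vert) ∨ Pat7 R e) :
    ∃ (k : ℕ) (p : Fin k → Place V), Fam p G ∧ (∀ i, (p i).R.m ≤ 299) ∧
      (∀ i, (p i).R.t ≤ 299) ∧ Nonempty (MidIn R (FI p) (FP p) (DA r) (NA r)) := by
  classical
  have hdeg : Deg3 G := by
    intro v A hA
    rw [← hcub v, ← G.card_neighborFinset_eq_degree]
    exact card_le_card fun w hw => (G.mem_neighborFinset v w).2 (hA w hw)
  obtain ⟨k, p, hp, hpc, hfar, hmax⟩ := exists_fam G Cat (fun q hq => (hcat q hq).good)
    (fun q hq => (hcat q hq).ne) (r + 1) (Nat.le_add_left 1 r)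
  refine ⟨k, p, hp, fun i => (hcat _ (hpc i)).hm, fun i => (hcat _ (hpc i)).ht, ?_⟩
  have hfar' : ∀ i, ∀ j, j ≠ i → FarS G (r + 1) (p i).Vert (p j).Vert := fun i j hij =>
    hfar i j (Ne.symm hij)
  have hz : ∀ i : {i // ¬ GainP G (p i) r}, ∃ d, ZHex R (p i.1) d := by
    rintro ⟨i, hi⟩
    exact ((hcat _ (hpc i)).kind.resolve_left hi).2
  choose z hz using hz
  have hj : ∀ i, ¬ GainP G (p i) r → JoinP G (p i) r := fun i hi =>
    ((hcat _ (hpc i)).kind.resolve_left hi).1
  refine midIn_of_fam (D := DA r) (D1 := 2 * r + 50) (D2 := r + 1) (N := 598) (N0 := NA r)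
    (r := r) (r1 := r) hp hdeg (fun i => GainP G (p i) r) Cat ?_ ?_ hocc ?_ ?_ ?_ ?_ ?_ z hz ?_ ?_
    ?_ ?_
  · intro q hq
    obtain ⟨i, a, ha, b, hb, w, hw⟩ := hmax q hq
    exact ⟨i, a, ha, b, hb, w, hw⟩
  · exact fun q hq => (hcat q hq).diam
  · intro i hi v _ t ht ht' n hn h
    obtain ⟨m, hm, z', w', h1, h2⟩ := hp.near_ter hi (hfar' i) ht ht' hn h
    refine ⟨m, ?_, z', w', h1, h2⟩
    unfold DA
    omega
  · intro i hi v hv h1 h2
    refine hp.near_int ?_ hi (hfar' i) hv h1 h2
    unfold DA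
    omega
  · intro i hi v hv
    exact hp.join_int (hj i hi) (hfar' i) hv
  · intro i hi t ht t' ht' h1 h2
    exact hp.join_ter (hj i hi) (hfar' i) ht ht' h1 h2
  · intro i
    have h1 := (hcat _ (hpc i)).hm
    have h2 := (hcat _ (hpc i)).ht
    omega
  · omega
  · unfold DA
    omega
  · unfold NA
    exact Nat.le_add_right _ _
  · unfold NA
    exact Nat.le_add_left _ _

end Pool.Agent.Uni392
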