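import Mathlib
import Pool.Agent.Work.MP_392c8e_co_uni.CombC
import Pool.Agent.Work.MP_392c8e_co_uni.Final
import Pool.Agent.Work.MP_392c8e_co_uni.FamilyA
import Pool.Agent.Work.MP_392c8e_co_t1.AllFacts

/-!
# The uniform bound from the middle theorem and the families of places
-/

namespace Pool.Agent.Uni21

open Finset Pool.Agent.Sub392 Pool.Agent.T392 Pool.Agent.U2Geo Pool.Agent.Disch392
open Pool.Agent.Uni392 (StrictN Place MidIn MidG PlOK family_core DA NA)
open Pool.Agent.Uni91 (VD ends Fam FI FP FG)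
open Pool.Agent.T1Red (newG Deg3 deg3_iff HasStrict)

set_option linter.unusedSectionVars false

variable {V : Type} [Fintype V] [DecidableEq V] {G : SimpleGraph V} [DecidableRel G.Adj]

theorem deg3_of_cubic (hcub : ∀ v, G.degree v = 3) : Deg3 G :=
  deg3_iff.2 fun v => by
    rw [Set.ncard_eq_toFinset_card']
    have h1 := hcub v
    rw [← SimpleGraph.card_neighborFinset_eq_degree] at h1
    refine le_trans (le_of_eq ?_) h1.le
    congr 1

/-- **From a family of places to the bound.** -/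
theorem strictN_of_fam (R : Rot G) (hP : R.Plane) (hcub : ∀ v, G.degree v = 3)
    (htri : G.CliqueFree 3) (hb : ∀ d, R.face d ≠ R.face d.symm) {k : ℕ} {p : Fin k → Place V}
    (hp : Fam p G) (hs : ∀ i, (p i).R.m ≤ 299) (ht : ∀ i, (p i).R.t ≤ 299)
    (X : MidG R (FI p) (FP p)) {Cg : ℕ} (hCg : 1 ≤ Cg) (hg : Uni13.Grow1 X Cg) :
    StrictN G (300 * (300 * (3000000 * Cg + 1) + 1)) := by
  have hPl : Red.Pl G := Red.pl_of_rot R hP
  have h1 : Deg3 (FG p G) := hp.deg (deg3_of_cubic hcub)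
  have h2 : HasStrict (FG p G) :=
    T392.facts.strict (hp.pl hPl) (hp.cliqueFree htri) (deg3_iff.1 h1)
  have h3 : StrictN (FG p G) (3000000 * Cg + 1) :=
    Uni13.combG1 X hCg hg hP hcub hp.vd (fun q hq => hp.length_le hs q hq) hb h2
  exact hp.lift hs ht h3

/-- **From the catalogue to the bound.** -/
theorem strictN_of_cat (R : Rot G) (hP : R.Plane) (hcub : ∀ v, G.degree v = 3)
    (htri : G.CliqueFree 3) (hb : ∀ d, R.face d ≠ R.face d.symm) {r : ℕ}
    (Cat : Place V → Prop) (hcat : ∀ q, Cat q → PlOK R r q)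
    (hocc : ∀ e : G.Dart, ¬ LocOK R e →
      (∃ x, Near R 40 e x ∧ ∃ q, Cat q ∧ x.fst ∈ q.Vert) ∨ Pat7 R e) :
    StrictN G (300 * (300 * (3000000 * (93003 * 4 ^ (DA r + 6) * (NA r + 1) + 72003) + 1) + 1)) := by
  obtain ⟨k, p, hp, hs, ht, ⟨X⟩⟩ := family_core hcub Cat hcat hocc
  have h1 : Deg3 (FG p G) := hp.deg (deg3_of_cubic hcub)
  refine strictN_of_fam R hP hcub htri hb hp hs ht X.toMidG ?_
    (Uni13.grow1_of_grow (X.grow hP hcub hp.vd h1))
  generalize 93003 * 4 ^ (DA r + 6) * (NA r + 1) = a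
  omega

end Pool.Agent.Uni21
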