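import Mathlib
import Pool.Agent.Work.MP_392c8e_co_uni.MainOf
import Pool.Agent.Work.MP_392c8e_co_uni.FamilyB
import Pool.Agent.Work.MP_392c8e_co_uni.FamNearQ
import Pool.Agent.Work.MP_392c8e_co_uni.CombQC
import Pool.Agent.Work.MP_392c8e_co_uni.C4Near
import Pool.Agent.Work.MP_392c8e_co_uni.GeoC4

/-!
# The uniform bound for cyclically 4-edge-connected plane cubic graphs from the table of places
-/

set_option autoImplicit false
set_option linter.unusedSectionVars false

namespace Pool.Agent.Uni21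

open Finset Pool.Agent.Sub392 Pool.Agent.T392 Pool.Agent.U2Geo Pool.Agent.Disch392
open Pool.Agent.DischB
open Pool.Agent.Uni392 (StrictN Place MidQ PlOK AtCat family_genQ CE GdB)
open Pool.Agent.Uni91 (VD ends Fam FI FP FG)
open Pool.Agent.T1Red (newG Deg3 deg3_iff HasStrict)

variable {V : Type} [Fintype V] [DecidableEq V] {G : SimpleGraph V} [DecidableRel G.Adj]

/-- **From a family of places to the bound**, with faces of length four. -/
theorem strictN_of_famQ (R : Rot G) (hP : R.Plane) (hcub : ∀ v, G.degree v = 3)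
    (htri : G.CliqueFree 3) (hb : ∀ d, R.face d ≠ R.face d.symm) {k : ℕ} {p : Fin k → Place V}
    (hp : Fam p G) (hs : ∀ i, (p i).R.m ≤ 299) (ht : ∀ i, (p i).R.t ≤ 299)
    (X : MidQ R (FI p) (FP p)) {Cg : ℕ} (hCg : 1 ≤ Cg) (hg : X.Grow Cg) :
    StrictN G (300 * (300 * (3000000 * Cg + 1) + 1)) := by
  have hPl : Red.Pl G := Red.pl_of_rot R hP
  have h1 : Deg3 (FG p G) := hp.deg (deg3_of_cubic hcub)
  have h2 : HasStrict (FG p G) :=
    T392.facts.strict (hp.pl hPl) (hp.cliqueFree htri) (deg3_iff.1 h1)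
  have h3 : StrictN (FG p G) (3000000 * Cg + 1) :=
    Uni13.combQ X hCg hg hP hcub hp.vd (fun q hq => hp.length_le hs q hq) hb h2
  exact hp.lift hs ht h3

/-- The darts at which the condition fails are near a place, a pattern or a face of length four. -/
theorem occ_gdC {R : Rot G} (hcub : ∀ v, G.degree v = 3) (h4 : ∀ d, 4 ≤ sz R d) {K c : ℕ}
    (hK : 6 ≤ K) {Cat : Place V → Prop} (hT : TabC R K (AtCat Cat))
    (hT' : TabC (mir R) K (AtCat Cat)) (d : G.Dart) (hd : ¬ GdB R K c d) :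
    (∃ x, Near R (c + 362) d x ∧ ∃ q, Cat q ∧ x.fst ∈ q.Vert) ∨
      (∃ e, Near R (c + 362) d e ∧ Pat7 R e) ∨ ∃ e, Near R (c + 362) d e ∧ sz R e = 4 := by
  unfold GdB at hd
  push Not at hd
  obtain ⟨e, he, hB⟩ := hd
  rcases hT.occN hT' hcub h4 hK hB with ⟨x, hx, hq⟩ | hpat | ⟨x, hx, h⟩
  · exact Or.inl ⟨x, (he.trans hx).mono (by omega), hq⟩
  · exact Or.inr (Or.inl ⟨e, he.mono (by omega), hpat⟩)
  · exact Or.inr (Or.inr ⟨x, he.trans hx, h⟩)

/-- The constant. -/
def NC (r : ℕ) : ℕ := 300 * (300 * (3000000 * CE 7 15 375 r + 1) + 1)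

/-- **From the table of places to the bound**, stage C. -/
theorem strictN_of_tabC (R : Rot G) (hC : C4 R) {r : ℕ}
    (hT : TabC R 1000 (AtCat (PlOK R r))) (hT' : TabC (mir R) 1000 (AtCat (PlOK R r))) :
    StrictN G (NC r) := by
  classical
  have g := hC.geo
  obtain ⟨k, p, hp, hs, ht, X, hX⟩ := family_genQ (R := R) (A := 7) (E := 15) (ρ := 375)
    (Gd := GdB R 1000 13) hC.plane hC.cub (PlOK R r) (fun _ h => h)
    (occ_gdC hC.cub g.four_le_sz (by norm_num) hT hT') (by
      intro U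
      refine (disch_locB (le_refl 1000) (le_refl 13) R hC.cub U).trans (le_of_eq ?_)
      push_cast
      refine congrArg (fun n : ℕ => _ + 7 * (n : ℝ) + _) (congrArg Finset.card
        (Finset.ext fun d => ?_))
      simp only [mem_filter, mem_univ, true_and, GdB])
  refine strictN_of_famQ R hC.plane hC.cub hC.tri g.br hp hs ht X ?_ hX
  unfold CE
  exact le_trans (by norm_num) (Nat.le_add_left _ _)

end Pool.Agent.Uni21
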