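import Mathlib
import Pool.Agent.Work.MP_392c8e_co_uni.BaseT
import Pool.Agent.Work.MP_392c8e_co_uni.SpotA

/-!
# The spot is a base surgery
-/

set_option autoImplicit false
set_option linter.unusedSectionVars false

namespace Pool.Agent.Spot

open Finset Pool.Agent.Sub392
open Pool.Agent.Uni392
open Pool.Agent.Uni91 (VD OnP Cs ends full)
open Pool.Agent.T1Red (newG Deg3)

variable {V : Type} [Fintype V] [DecidableEq V] {G : SimpleGraph V} [DecidableRel G.Adj]
  {x p q y : V}

theorem nbr (h : At G x p q y) (h3 : G.degree x = 3) {z : V} (hz : G.Adj x z) :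
    z = p ∨ z = q ∨ z = y := by
  by_contra hcon
  push Not at hcon
  have h1 : ({z, p, q, y} : Finset V) ⊆ G.neighborFinset x := by
    intro w hw
    rw [G.mem_neighborFinset]
    simp only [mem_insert, mem_singleton] at hw
    rcases hw with rfl | rfl | rfl | rfl
    · exact hz
    · exact h.hp
    · exact h.hq
    · exact h.hy
  have h2 : #({z, p, q, y} : Finset V) = 4 := by
    rw [card_insert_of_notMem, card_insert_of_notMem, card_insert_of_notMem, card_singleton]
    · simpa using h.hqy
    · simpa using ⟨h.hpq, h.hpy⟩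
    · simpa using hcon
  have h4 := card_le_card h1
  rw [G.card_neighborFinset_eq_degree] at h4
  omega

/-- **The spot is a base surgery.** -/
theorem baseT (h : At G x p q y) (h3 : G.degree x = 3) :
    BaseT G (I0 x) (P0 x p q) 1 {p, q} where
  vd := vd h
  int := by
    intro v hv
    left
    refine ⟨_, List.mem_singleton.2 rfl, ?_⟩
    rw [show v = x from hv]
    exact List.mem_singleton.2 rfl
  ter := by
    rintro v - ⟨w, hw, hwx⟩
    rw [show w = x from hwx] at hw
    rcases nbr h h3 hw.symm with rfl | rfl | rfl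
    · exact Or.inr (by simp)
    · exact Or.inr (by simp)
    · exact Or.inl ⟨0, Nat.zero_le _, v, x, (del h).symm, Steps.refl _⟩
  sub := by
    intro v hv
    rw [mem_insert, mem_singleton] at hv
    rcases hv with rfl | rfl
    · exact ⟨Or.inr ⟨x, h.hp.symm, rfl⟩, fun h1 => h.hp.ne (show v = x from h1).symm⟩
    · exact ⟨Or.inr ⟨x, h.hq.symm, rfl⟩, fun h1 => h.hq.ne (show v = x from h1).symm⟩
  card := (card_insert_le _ _).trans (by rw [card_singleton]; norm_num)
  joined := by
    have h1 : Steps (nbN G (I0 x) (P0 x p q)) 1 p q :=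
      Steps.cons (mem_nbN.2 ((adj_iff h).2 (Or.inr (Or.inl ⟨rfl, rfl⟩)))) (Steps.refl _)
    have h2 : Steps (nbN G (I0 x) (P0 x p q)) 1 q p :=
      Steps.cons (mem_nbN.2 ((adj_iff h).2 (Or.inr (Or.inr ⟨rfl, rfl⟩)))) (Steps.refl _)
    intro t ht t' ht'
    rw [mem_insert, mem_singleton] at ht ht'
    rcases ht with rfl | rfl <;> rcases ht' with rfl | rfl
    · exact ⟨0, Nat.zero_le _, Steps.refl _⟩
    · exact ⟨1, le_rfl, h1⟩
    · exact ⟨1, le_rfl, h2⟩
    · exact ⟨0, Nat.zero_le _, Steps.refl _⟩

end Pool.Agent.Spot
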