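import Mathlib
import Pool.Agent.Work.MP_392c8e_co_uni.StrictBaseT
import Pool.Agent.Work.MP_392c8e_co_uni.SpotT
import Pool.Agent.Work.MP_392c8e_co_uni.MainC

/-!
# The uniform bound after one edge is deleted and one end suppressed, stage C
-/

set_option autoImplicit false
set_option linter.unusedSectionVars false

namespace Pool.Agent.Spot

open Finset Pool.Agent.Sub392 Pool.Agent.T392 Pool.Agent.Disch392 Pool.Agent.U2Geo
open Pool.Agent.DischB
open Pool.Agent.Uni392
open Pool.Agent.Uni91 (VD OnP Cs ends full)
open Pool.Agent.T1Red (newG Deg3)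
open Pool.Agent.Uni21 (occ_gdC)

variable {V : Type} [Fintype V] [DecidableEq V] {G : SimpleGraph V} [DecidableRel G.Adj]
  {x p q y : V}

/-- The constant. -/
def NSp (r : ℕ) : ℕ := NBase 7 15 375 r 1

/-- **From the table of places to the bound after the surgery at one spot**, stage C. -/
theorem strictN_spot (R : Rot G) (hC : C4 R) {r : ℕ}
    (hT : TabC R 1000 (AtCat (PlOK R r))) (hT' : TabC (mir R) 1000 (AtCat (PlOK R r)))
    (h : At G x p q y) : StrictN (newG G (I0 x) (ends (P0 x p q))) (NSp r) := by
  classical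
  have g := hC.geo
  have hd3 : Deg3 G := by
    intro v A hA
    rw [← hC.cub v, ← G.card_neighborFinset_eq_degree]
    exact card_le_card fun w hw => (G.mem_neighborFinset v w).2 (hA w hw)
  refine strictN_baseT (R := R) (T := {p, q}) (Gd := GdB R 1000 13) hC.plane hC.cub g.br
    (baseT h (hC.cub x)) ?_ (pl h (Red.pl_of_rot R hC.plane)) (cliqueFree h hC.tri) (deg3 h hd3)
    (PlOK R r) (fun _ h => h) ?_ (A := 7) (E := 15) ?_
  · intro s hs
    rw [P0, List.mem_singleton] at hs
    subst hs
    norm_num
  · intro d hd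
    rcases occ_gdC hC.cub g.four_le_sz (by norm_num) hT hT' d hd with h1 | h1 | h1
    · exact Or.inl h1
    · exact Or.inr (Or.inl h1)
    · exact Or.inr (Or.inr (Or.inl h1))
  · intro U
    refine (disch_locB (le_refl 1000) (le_refl 13) R hC.cub U).trans (le_of_eq ?_)
    push_cast
    refine congrArg (fun n : ℕ => _ + 7 * (n : ℝ) + _) (congrArg Finset.card
      (Finset.ext fun d => ?_))
    rw [mem_filter, mem_filter]
    simp only [mem_univ, true_and, GdB]

end Pool.Agent.Spot
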