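import Mathlib
import Pool.Agent.Work.MP_392c8e_co_uni.D0
import Pool.Agent.Work.MP_392c8e_co_uni.ClosD0
import Pool.Agent.Work.MP_392c8e_co_uni.ChordCut
import Pool.Agent.Work.MP_392c8e_co_uni.Spot
import Pool.Agent.Work.MP_392c8e_co_uni.MainC

/-!
# The closures of the graphs of the class `C4`, from the tables of places
-/

namespace Pool.Agent.CutN

open Pool.Agent.Red Pool.Agent.Sub392 Pool.Agent.U2Geo Pool.Agent.Disch392 Pool.Agent.DischB
open Pool.Agent.Chord392
open Pool.Agent.Spot (I0 P0 At strictN_spot NSp)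
open Pool.Agent.T1Red (newG)
open Pool.Agent.Uni91 (ends)
open Pool.Agent.Uni392 (StrictN AtCat PlOK)
open Pool.Agent.Uni21 (strictN_of_tabC NC)

set_option linter.unusedSectionVars false

/-- The tables of places of all graphs of the class `C4`. -/
def TabAll (r : ℕ) : Prop :=
  ∀ (V : Type) [Fintype V] [DecidableEq V] (G : SimpleGraph V) [DecidableRel G.Adj] (R : Rot G),
    C4 R → TabC R 1000 (AtCat (PlOK R r)) ∧ TabC (mir R) 1000 (AtCat (PlOK R r))

/-- **The closures.** -/
theorem clos_of_tab {r : ℕ} (H : TabAll r) : Clos (max (NC r) (NSp r)) := by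
  intro W _ _ M _ R hR
  classical
  refine ⟨colN_of_strictN ((strictN_of_tabC R hR (H W M R hR).1 (H W M R hR).2).mono le_rfl
    (le_max_left _ _)), fun v s hvs => ?_⟩
  obtain ⟨h2, h3⟩ := exists_chord hR ⟨(v, s), hvs⟩
  obtain ⟨R', hR'⟩ := h3
  have hat := at_chord hR.tri (v := v) (s := s) h2.pq h2.vp.symm h2.sp.symm
  exact subCol_of_chord h2.pq.ne (colN_of_strictN ((strictN_spot R' hR' (H _ _ R' hR').1
    (H _ _ R' hR').2 hat).mono le_rfl (le_max_right _ _)))

theorem clos_pos {r : ℕ} : 0 < max (NC r) (NSp r) := by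
  refine lt_of_lt_of_le ?_ (le_max_left _ _)
  unfold NC
  positivity

end Pool.Agent.CutN
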