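import Mathlib
import Pool.Agent.Work.MP_392c8e_co_uni.ClosD0
import Pool.Agent.Work.MP_392c8e_co_uni.Con3

/-!
# The vectors of colours of a side from the closures of the contraction
-/

set_option autoImplicit false
set_option linter.unusedSectionVars false

namespace Pool.Agent.CutN

open Pool.Agent.Red (side side_le)

variable {V : Type} [Fintype V] [DecidableEq V] {G : SimpleGraph V} {X : V → Prop}
  {a b : Fin 3 → V} {z : V} {n : ℤ}

/-- The side sits in the contraction. -/
theorem inM_con (hc : CutK G X a b) (hz : ¬ X z) :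
    InM G X a (con hc hz) (proj X z) ⟨z, Or.inr rfl⟩ where
  hom := fun u v hu hv huv => by
    rw [proj_in hu, proj_in hv]
    exact Or.inl ⟨huv, hu, hv⟩
  nz := fun u hu h => by
    rw [proj_in hu] at h
    exact hz ((show u = z from congrArg Subtype.val h) ▸ hu)
  hX := hc.hX
  adj := fun i => by
    rw [proj_in (hc.hX i)]
    exact Or.inr ⟨i, Or.inr ⟨rfl, rfl⟩⟩
  inj := fun i j hij h => by
    rw [proj_in (hc.hX i), proj_in (hc.hX j)] at h
    exact hij (hc.ia (congrArg Subtype.val h))

/-- **The closures of the contraction give all vectors with two equal entries.** -/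
theorem acc_two_con (hn : 0 < n) (hc : CutK G X a b) (hz : ¬ X z) (h0 : ColN n (con hc hz))
    (h1 : ∀ v s, (con hc hz).Adj v s → SubCol n (con hc hz) v s) (y : Fin 3 → ZMod 3)
    (hy : ∃ i j, i ≠ j ∧ y i = y j) : Acc n G X a y :=
  acc_two_of hn (inM_con hc hz) h0 (fun i => h1 _ _ ((inM_con hc hz).adj i)) y hy

/-- **With the closure `X`: all vectors.** -/
theorem acc_all_con (hn : 0 < n) (hc : CutK G X a b) (hz : ¬ X z) (h0 : ColN n (con hc hz))
    (h1 : ∀ v s, (con hc hz).Adj v s → SubCol n (con hc hz) v s) {i j : Fin 3} (hij : i ≠ j)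
    (h2 : XCol n (con hc hz) ⟨z, Or.inr rfl⟩ (proj X z (a i)) (proj X z (a j)))
    (y : Fin 3 → ZMod 3) : Acc (2 * n) G X a y :=
  acc_all_of hn (inM_con hc hz) hc.ia h0 (fun i => h1 _ _ ((inM_con hc hz).adj i)) hij h2
    ((inM_con hc hz).inj i j hij) y

end Pool.Agent.CutN
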