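import Mathlib
import Pool.Agent.Work.MP_392c8e_co_uni.CountP

/-!
# The weighted count with the deficiency of the paths measured by `cc`
-/

namespace Pool.Agent.Uni3

open Finset Pool.Agent.Sub392 Pool.Agent.Circ Module

set_option linter.unusedSectionVars false

variable {V : Type} [Fintype V] [DecidableEq V] {G : SimpleGraph V} [DecidableRel G.Adj]

/-- **The weighted count for a component**, with the deficiency of every edge counted as often as
the edge has covered sides.  So a path with two inner vertices on an uncovered face costs less, and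
an uncovered hexagon with two inner path vertices is a gain. -/
theorem count_weight_q (R : Rot G) (hcub : ∀ v, G.degree v = 3) {K : Finset R.Face}
    {p : R.Face → Option R.Face} (hp : Adm K p)
    (hnb : ∀ d, p (R.face d) = none → R.face d.symm ≠ R.face d) (C : Finset V)
    (h : IsComp R (qr p) C) (θ : ℝ) (hθ : 0 ≤ θ) (om : Up G → ℝ) (q : ℝ)
    (hdef : ∑ e : Up G, (if Cr R (qr p) e.1 ∧ e.1.fst ∈ C then
      (θ - om e) * cc p (R.face e.1) (R.face e.1.symm) else 0) ≤ θ * q) :
    θ * (6 * (((covT R p C).card : ℝ) - 1) + (2 * (crTwo R (qr p) C).card - q) - 6 +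
      ∑ z ∈ uncT R p C, (6 - (R.size z : ℝ))) ≤
      ∑ e : Up G, (if Cr R (qr p) e.1 ∧ e.1.fst ∈ C then
        om e * cc p (R.face e.1) (R.face e.1.symm) else 0) := by
  have h1 := count_cov R hcub hp hnb C h
  have h2 := sum_cc_eq R C h
  have h3 : θ * ∑ e : Up G, (if Cr R (qr p) e.1 ∧ e.1.fst ∈ C then
      cc p (R.face e.1) (R.face e.1.symm) else 0) -
      ∑ e : Up G, (if Cr R (qr p) e.1 ∧ e.1.fst ∈ C then
        (θ - om e) * cc p (R.face e.1) (R.face e.1.symm) else 0) =
      ∑ e : Up G, (if Cr R (qr p) e.1 ∧ e.1.fst ∈ C then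
        om e * cc p (R.face e.1) (R.face e.1.symm) else 0) := by
    rw [mul_sum, ← sum_sub_distrib]
    refine sum_congr rfl fun e _ => ?_
    by_cases g : Cr R (qr p) e.1 ∧ e.1.fst ∈ C
    · rw [if_pos g, if_pos g, if_pos g]
      ring
    · rw [if_neg g, if_neg g, if_neg g]
      simp
  have h4 := mul_le_mul_of_nonneg_left h1 hθ
  rw [h2] at h3
  nlinarith

/-- The same with `max (θ - om e) 0` in place of `θ - om e`. -/
theorem count_weight_max (R : Rot G) (hcub : ∀ v, G.degree v = 3) {K : Finset R.Face}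
    {p : R.Face → Option R.Face} (hp : Adm K p)
    (hnb : ∀ d, p (R.face d) = none → R.face d.symm ≠ R.face d) (C : Finset V)
    (h : IsComp R (qr p) C) (θ : ℝ) (hθ : 0 ≤ θ) (om : Up G → ℝ) (q : ℝ)
    (hdef : ∑ e : Up G, (if Cr R (qr p) e.1 ∧ e.1.fst ∈ C then
      max (θ - om e) 0 * cc p (R.face e.1) (R.face e.1.symm) else 0) ≤ θ * q) :
    θ * (6 * (((covT R p C).card : ℝ) - 1) + (2 * (crTwo R (qr p) C).card - q) - 6 +
      ∑ z ∈ uncT R p C, (6 - (R.size z : ℝ))) ≤
      ∑ e : Up G, (if Cr R (qr p) e.1 ∧ e.1.fst ∈ C then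
        om e * cc p (R.face e.1) (R.face e.1.symm) else 0) := by
  refine count_weight_q R hcub hp hnb C h θ hθ om q (le_trans (sum_le_sum fun e _ => ?_) hdef)
  split_ifs
  · exact mul_le_mul_of_nonneg_right (le_max_left _ _) (cc_nonneg p _ _)
  · exact le_rfl

end Pool.Agent.Uni3
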