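import Mathlib
import Pool.Agent.Work.MP_392c8e_co_uni.SideStar

/-!
# One side of a cut with two edges, together with a path of length three
-/

namespace Pool.Agent.CutN

open Pool.Agent.Red

set_option linter.unusedSectionVars false

variable {V : Type} [Fintype V] [DecidableEq V] {G : SimpleGraph V}

/-- The side `X` together with a path `a 0`, `u`, `z`, `a 1`. -/
def pathK (G : SimpleGraph V) (X : V → Prop) (a : Fin 2 → V) (u z : V) (hX : ∀ i, X (a i))
    (hu : ¬ X u) (hz : ¬ X z) (huz : u ≠ z) : SimpleGraph V where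
  Adj x y := (G.Adj x y ∧ X x ∧ X y) ∨ s(x, y) = s(a 0, u) ∨ s(x, y) = s(u, z) ∨
    s(x, y) = s(z, a 1)
  symm := ⟨fun x y h => by
    rw [Sym2.eq_swap (a := y) (b := x)]
    rcases h with ⟨h1, h2, h3⟩ | h
    · exact Or.inl ⟨h1.symm, h3, h2⟩
    · exact Or.inr h⟩
  loopless := ⟨fun x h => by
    rcases h with ⟨h1, -, -⟩ | h1 | h1 | h1
    · exact h1.ne rfl
    · rcases Sym2.eq_iff.1 h1 with ⟨h2, h3⟩ | ⟨h2, h3⟩
      · exact hu (h3 ▸ h2 ▸ hX 0)
      · exact hu (h2 ▸ h3 ▸ hX 0)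
    · rcases Sym2.eq_iff.1 h1 with ⟨h2, h3⟩ | ⟨h2, h3⟩
      · exact huz (h2.symm.trans h3)
      · exact huz (h3.symm.trans h2)
    · rcases Sym2.eq_iff.1 h1 with ⟨h2, h3⟩ | ⟨h2, h3⟩
      · exact hz (h2 ▸ h3 ▸ hX 1)
      · exact hz (h3 ▸ h2 ▸ hX 1)⟩

variable {X : V → Prop} {a b : Fin 2 → V} {u z : V}

theorem pl_pathK (hpl : Pl G) (hc : CutK G X a b) (hcon : ConnF G X) (hu : ¬ X u) (hz : ¬ X z)
    (huz : u ≠ z) : Pl (pathK G X a u z hc.hX hu hz huz) := by
  have hne : a 0 ≠ a 1 := fun h5 => absurd (hc.ia h5) (by decide)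
  refine (pl_starK hpl hc hcon z hz).subdiv (a := a 0) (b := z) (u := u)
    (Or.inr ⟨0, Or.inl ⟨rfl, rfl⟩⟩) ?_ ?_
  · rintro v (⟨h1, h2, h3⟩ | ⟨i, ⟨h1, h2⟩ | ⟨h1, h2⟩⟩)
    · exact hu h2
    · exact hu (h1 ▸ hc.hX i)
    · exact huz h1
  · intro x y
    constructor
    · rintro (⟨h1, h2, h3⟩ | h1 | h1 | h1)
      · refine Or.inl ⟨Or.inl ⟨h1, h2, h3⟩, fun h5 => ?_⟩
        rcases Sym2.eq_iff.1 h5 with ⟨-, h6⟩ | ⟨h6, -⟩
        · exact hz (h6 ▸ h3)
        · exact hz (h6 ▸ h2)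
      · exact Or.inr (Or.inl h1)
      · exact Or.inr (Or.inr h1)
      · refine Or.inl ⟨?_, fun h5 => ?_⟩
        · rcases Sym2.eq_iff.1 h1 with ⟨h2, h3⟩ | ⟨h2, h3⟩
          · exact Or.inr ⟨1, Or.inr ⟨h2, h3⟩⟩
          · exact Or.inr ⟨1, Or.inl ⟨h2, h3⟩⟩
        · rw [h1] at h5
          rcases Sym2.eq_iff.1 h5 with ⟨h6, -⟩ | ⟨-, h6⟩
          · exact hz (h6 ▸ hc.hX 0)
          · exact hne h6.symm
    · rintro (⟨⟨h1, h2, h3⟩ | ⟨i, hi⟩, h5⟩ | h1 | h1)
      · exact Or.inl ⟨h1, h2, h3⟩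
      · fin_cases i
        · exfalso
          rcases hi with ⟨h1, h2⟩ | ⟨h1, h2⟩
          · exact h5 (by rw [h1, h2]; rfl)
          · exact h5 (by rw [h1, h2]; exact Sym2.eq_swap)
        · rcases hi with ⟨h1, h2⟩ | ⟨h1, h2⟩
          · exact Or.inr (Or.inr (Or.inr (by rw [h1, h2]; exact Sym2.eq_swap)))
          · exact Or.inr (Or.inr (Or.inr (by rw [h1, h2]; rfl)))
      · exact Or.inr (Or.inl h1)
      · exact Or.inr (Or.inr (Or.inl h1))

/-- The neighbours of `u`. -/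
theorem pathK_u (hX : ∀ i, X (a i)) (hu : ¬ X u) (hz : ¬ X z) (huz : u ≠ z) {y : V}
    (h : (pathK G X a u z hX hu hz huz).Adj u y) : y = a 0 ∨ y = z := by
  rcases h with ⟨h1, h2, h3⟩ | h1 | h1 | h1
  · exact absurd h2 hu
  · rcases Sym2.eq_iff.1 h1 with ⟨h2, h3⟩ | ⟨h2, h3⟩
    · exact absurd (h2 ▸ hX 0) hu
    · exact Or.inl h3
  · rcases Sym2.eq_iff.1 h1 with ⟨h2, h3⟩ | ⟨h2, h3⟩
    · exact Or.inr h3
    · exact absurd h2 huz
  · rcases Sym2.eq_iff.1 h1 with ⟨h2, h3⟩ | ⟨h2, h3⟩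
    · exact absurd h2 huz
    · exact absurd (h2 ▸ hX 1) hu

/-- The neighbours of `z`. -/
theorem pathK_z (hX : ∀ i, X (a i)) (hu : ¬ X u) (hz : ¬ X z) (huz : u ≠ z) {y : V}
    (h : (pathK G X a u z hX hu hz huz).Adj z y) : y = u ∨ y = a 1 := by
  rcases h with ⟨h1, h2, h3⟩ | h1 | h1 | h1
  · exact absurd h2 hz
  · rcases Sym2.eq_iff.1 h1 with ⟨h2, h3⟩ | ⟨h2, h3⟩
    · exact absurd (h2 ▸ hX 0) hz
    · exact absurd h2.symm huz
  · rcases Sym2.eq_iff.1 h1 with ⟨h2, h3⟩ | ⟨h2, h3⟩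
    · exact absurd h2.symm huz
    · exact Or.inl h3
  · rcases Sym2.eq_iff.1 h1 with ⟨h2, h3⟩ | ⟨h2, h3⟩
    · exact Or.inr h3
    · exact absurd (h2 ▸ hX 1) hz

theorem pathK_az (hX : ∀ i, X (a i)) (hu : ¬ X u) (hz : ¬ X z) (huz : u ≠ z)
    (hne : a 0 ≠ a 1) : ¬ (pathK G X a u z hX hu hz huz).Adj (a 0) z := by
  intro h
  rcases pathK_z hX hu hz huz h.symm with h1 | h1
  · exact hu (h1 ▸ hX 0)
  · exact hne h1

theorem pathK_ua (hX : ∀ i, X (a i)) (hu : ¬ X u) (hz : ¬ X z) (huz : u ≠ z)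
    (hne : a 0 ≠ a 1) : ¬ (pathK G X a u z hX hu hz huz).Adj u (a 1) := by
  intro h
  rcases pathK_u hX hu hz huz h with h1 | h1
  · exact hne h1.symm
  · exact hz (h1 ▸ hX 1)

/-- Edges which avoid `u` and `z`. -/
theorem pathK_back (hX : ∀ i, X (a i)) (hu : ¬ X u) (hz : ¬ X z) (huz : u ≠ z) {x y : V}
    (h : (pathK G X a u z hX hu hz huz).Adj x y) (h1 : x ≠ u) (h2 : y ≠ u) (h3 : x ≠ z)
    (h4 : y ≠ z) : G.Adj x y := by
  rcases h with ⟨h5, -, -⟩ | h5 | h5 | h5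
  · exact h5
  · rcases Sym2.eq_iff.1 h5 with ⟨-, h6⟩ | ⟨h6, -⟩
    · exact absurd h6 h2
    · exact absurd h6 h1
  · rcases Sym2.eq_iff.1 h5 with ⟨h6, -⟩ | ⟨-, h6⟩
    · exact absurd h6 h1
    · exact absurd h6 h2
  · rcases Sym2.eq_iff.1 h5 with ⟨h6, -⟩ | ⟨-, h6⟩
    · exact absurd h6 h3
    · exact absurd h6 h4

theorem tri_pathK (ht : G.CliqueFree 3) (hX : ∀ i, X (a i)) (hu : ¬ X u) (hz : ¬ X z)
    (huz : u ≠ z) (hne : a 0 ≠ a 1) : (pathK G X a u z hX hu hz huz).CliqueFree 3 := by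
  intro s hs
  rw [SimpleGraph.is3Clique_iff] at hs
  obtain ⟨x, y, w, hxy, hxw, hyw, rfl⟩ := hs
  have key : ∀ x y w, (pathK G X a u z hX hu hz huz).Adj x y →
      (pathK G X a u z hX hu hz huz).Adj x w → (pathK G X a u z hX hu hz huz).Adj y w →
      x ≠ u ∧ x ≠ z := by
    intro x y w hxy hxw hyw
    constructor
    · rintro rfl
      rcases pathK_u hX hu hz huz hxy with h1 | h1 <;>
        rcases pathK_u hX hu hz huz hxw with h2 | h2
      · exact hyw.ne (h1.trans h2.symm)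
      · rw [h1, h2] at hyw
        exact pathK_az hX hu hz huz hne hyw
      · rw [h1, h2] at hyw
        exact pathK_az hX hu hz huz hne hyw.symm
      · exact hyw.ne (h1.trans h2.symm)
    · rintro rfl
      rcases pathK_z hX hu hz huz hxy with h1 | h1 <;>
        rcases pathK_z hX hu hz huz hxw with h2 | h2
      · exact hyw.ne (h1.trans h2.symm)
      · rw [h1, h2] at hyw
        exact pathK_ua hX hu hz huz hne hyw
      · rw [h1, h2] at hyw
        exact pathK_ua hX hu hz huz hne hyw.symm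
      · exact hyw.ne (h1.trans h2.symm)
  have hx := key x y w hxy hxw hyw
  have hy := key y x w hxy.symm hyw hxw
  have hw := key w x y hxw.symm hyw.symm hxy
  exact ht {x, y, w} (SimpleGraph.is3Clique_iff.2 ⟨x, y, w,
    pathK_back hX hu hz huz hxy hx.1 hy.1 hx.2 hy.2,
    pathK_back hX hu hz huz hxw hx.1 hw.1 hx.2 hw.2,
    pathK_back hX hu hz huz hyw hy.1 hw.1 hy.2 hw.2, rfl⟩)

theorem deg_pathK (hd : ∀ v, (G.neighborSet v).ncard ≤ 3) (hc : CutK G X a b) (hu : ¬ X u)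
    (hz : ¬ X z) (huz : u ≠ z) (v : V) :
    ((pathK G X a u z hc.hX hu hz huz).neighborSet v).ncard ≤ 3 := by
  have hne : a 0 ≠ a 1 := fun h5 => absurd (hc.ia h5) (by decide)
  have hpair : ∀ p q : V, ({p, q} : Set V).ncard ≤ 2 := fun p q => by
    have := Set.ncard_insert_le p {q}
    rw [Set.ncard_singleton] at this
    exact this
  by_cases hvu : v = u
  · subst hvu
    have h1 : (pathK G X a v z hc.hX hu hz huz).neighborSet v ⊆ {a 0, z} := fun w hw =>
      pathK_u hc.hX hu hz huz hw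
    exact (Set.ncard_le_ncard h1 (Set.toFinite _)).trans ((hpair _ _).trans (by omega))
  by_cases hvz : v = z
  · subst hvz
    have h1 : (pathK G X a u v hc.hX hu hz huz).neighborSet v ⊆ {u, a 1} := fun w hw =>
      pathK_z hc.hX hu hz huz hw
    exact (Set.ncard_le_ncard h1 (Set.toFinite _)).trans ((hpair _ _).trans (by omega))
  have hin : ∀ w, (pathK G X a u z hc.hX hu hz huz).Adj v w → w ≠ u → w ≠ z →
      G.Adj v w ∧ X w := by
    intro w hw h1 h2
    rcases hw with ⟨h5, -, h6⟩ | h5 | h5 | h5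
    · exact ⟨h5, h6⟩
    · rcases Sym2.eq_iff.1 h5 with ⟨-, h6⟩ | ⟨h6, -⟩
      · exact absurd h6 h1
      · exact absurd h6 hvu
    · rcases Sym2.eq_iff.1 h5 with ⟨h6, -⟩ | ⟨-, h6⟩
      · exact absurd h6 hvu
      · exact absurd h6 h1
    · rcases Sym2.eq_iff.1 h5 with ⟨h6, -⟩ | ⟨-, h6⟩
      · exact absurd h6 hvz
      · exact absurd h6 h2
  -- one new neighbour, one lost neighbour
  have main : ∀ (i : Fin 2) (y : V), v = a i →
      (∀ w, (pathK G X a u z hc.hX hu hz huz).Adj v w → w = u ∨ w = z → w = y) →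
      ((pathK G X a u z hc.hX hu hz huz).neighborSet v).ncard ≤ 3 := by
    intro i y hvi hy
    have h1 : (pathK G X a u z hc.hX hu hz huz).neighborSet v ⊆
        insert y (G.neighborSet v \ {b i}) := by
      intro w hw
      by_cases hw1 : w = u ∨ w = z
      · exact Or.inl (hy w hw hw1)
      · rw [not_or] at hw1
        obtain ⟨h2, h3⟩ := hin w hw hw1.1 hw1.2
        refine Or.inr ⟨h2, fun h4 => ?_⟩
        have : w = b i := h4
        exact hc.hY i (this ▸ h3)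
    have h2 := Set.ncard_le_ncard h1 (Set.toFinite _)
    have h3 := Set.ncard_insert_le y (G.neighborSet v \ {b i})
    have h4 : b i ∈ G.neighborSet v := by rw [hvi]; exact hc.adj i
    have h5 := Set.ncard_sdiff_singleton_add_one h4 (Set.toFinite _)
    have h6 := hd v
    omega
  by_cases h0 : v = a 0
  · refine main 0 u h0 ?_
    rintro w hw (rfl | rfl)
    · rfl
    · rw [h0] at hw
      exact absurd hw (pathK_az hc.hX hu hz huz hne)
  by_cases h1 : v = a 1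
  · refine main 1 z h1 ?_
    rintro w hw (rfl | rfl)
    · rw [h1] at hw
      exact absurd hw.symm (pathK_ua hc.hX hu hz huz hne)
    · rfl
  refine (Set.ncard_le_ncard ?_ (Set.toFinite _)).trans (hd v)
  intro w hw
  have hwu : w ≠ u := by
    rintro rfl
    rcases pathK_u hc.hX hu hz huz hw.symm with h2 | h2
    · exact h0 h2
    · exact hvz h2
  have hwz : w ≠ z := by
    rintro rfl
    rcases pathK_z hc.hX hu hz huz hw.symm with h2 | h2
    · exact hvu h2
    · exact h1 h2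
  exact (hin w hw hwu hwz).1

/-- The number of edges. -/
theorem edges_pathK (hc : CutK G X a b) (hu : ¬ X u) (hz : ¬ X z) (huz : u ≠ z)
    {e f : Sym2 V} (hef : e ≠ f) (he : e ∈ (side G fun v => ¬ X v).edgeSet)
    (hf : f ∈ (side G fun v => ¬ X v).edgeSet) :
    (pathK G X a u z hc.hX hu hz huz).edgeSet.ncard < G.edgeSet.ncard := by
  classical
  have hne : a 0 ≠ a 1 := fun h5 => absurd (hc.ia h5) (by decide)
  -- the edges of the side
  set S : Set (Sym2 V) := (side G X).edgeSet with hS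
  have h1 : (pathK G X a u z hc.hX hu hz huz).edgeSet ⊆
      insert s(a 0, u) (insert s(u, z) (insert s(z, a 1) S)) := by
    intro g hg
    induction g using Sym2.ind with
    | _ x y =>
      rcases hg with h1 | h1 | h1 | h1
      · exact Or.inr (Or.inr (Or.inr h1))
      · exact Or.inl h1
      · exact Or.inr (Or.inl h1)
      · exact Or.inr (Or.inr (Or.inl h1))
  have h2 := Set.ncard_le_ncard h1 (Set.toFinite _)
  have h3 := Set.ncard_insert_le s(a 0, u) (insert s(u, z) (insert s(z, a 1) S))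
  have h4 := Set.ncard_insert_le s(u, z) (insert s(z, a 1) S)
  have h5 := Set.ncard_insert_le s(z, a 1) S
  -- edges with an end outside
  have hSX : ∀ x y, s(x, y) ∈ S → X x ∧ X y := fun x y h => h.2
  have hO : ∀ g ∈ (side G fun v => ¬ X v).edgeSet, g ∈ G.edgeSet ∧ (∀ x y, g = s(x, y) →
      ¬ X x ∧ ¬ X y) := by
    intro g hg
    induction g using Sym2.ind with
    | _ x y =>
      refine ⟨hg.1, fun x' y' h => ?_⟩
      rcases Sym2.eq_iff.1 h with ⟨rfl, rfl⟩ | ⟨rfl, rfl⟩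
      · exact hg.2
      · exact ⟨hg.2.2, hg.2.1⟩
  obtain ⟨e1, e2⟩ := hO e he
  obtain ⟨f1, f2⟩ := hO f hf
  have n1 : s(a 0, b 0) ∉ S := fun h => hc.hY 0 (hSX _ _ h).2
  have n2 : s(a 1, b 1) ∉ insert s(a 0, b 0) S := by
    rintro (h | h)
    · rcases Sym2.eq_iff.1 h with ⟨h6, -⟩ | ⟨h6, -⟩
      · exact hne h6.symm
      · exact hc.hY 0 (h6 ▸ hc.hX 1)
    · exact hc.hY 1 (hSX _ _ h).2
  have n3 : e ∉ insert s(a 1, b 1) (insert s(a 0, b 0) S) := by
    rintro (h | h | h)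
    · exact (e2 _ _ h).1 (hc.hX 1)
    · exact (e2 _ _ h).1 (hc.hX 0)
    · induction e using Sym2.ind with
      | _ x y => exact (e2 x y rfl).1 (hSX _ _ h).1
  have n4 : f ∉ insert e (insert s(a 1, b 1) (insert s(a 0, b 0) S)) := by
    rintro (h | h | h | h)
    · exact hef h.symm
    · exact (f2 _ _ h).1 (hc.hX 1)
    · exact (f2 _ _ h).1 (hc.hX 0)
    · induction f using Sym2.ind with
      | _ x y => exact (f2 x y rfl).1 (hSX _ _ h).1
  have h6 : insert f (insert e (insert s(a 1, b 1) (insert s(a 0, b 0) S))) ⊆ G.edgeSet := by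
    rintro g (rfl | rfl | rfl | rfl | h)
    · exact f1
    · exact e1
    · exact hc.adj 1
    · exact hc.adj 0
    · exact SimpleGraph.edgeSet_mono (side_le G X) h
  have h7 := Set.ncard_le_ncard h6 (Set.toFinite _)
  rw [Set.ncard_insert_of_notMem n4 (Set.toFinite _), Set.ncard_insert_of_notMem n3
    (Set.toFinite _), Set.ncard_insert_of_notMem n2 (Set.toFinite _),
    Set.ncard_insert_of_notMem n1 (Set.toFinite _)] at h7
  omega

end Pool.Agent.CutN
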