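import Mathlib
import Pool.Agent.Work.MP_392c8e_co_uni.ColN
import Pool.Agent.Work.MP_392c8e_co_uni.SidePath

/-!
# Cuts with at most two edges in a smallest graph without colourings at level n
-/

namespace Pool.Agent.CutN

open Pool.Agent.Red

set_option linter.unusedSectionVars false

/-- A graph with the smallest number of edges among the graphs with an algebraic dual, without
triangles, with all degrees at most `3` and without colourings at level `n`. -/
structure MinN {V : Type} [Fintype V] [DecidableEq V] (n : ℤ) (G : SimpleGraph V) : Prop where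
  pl : Pl G
  tri : G.CliqueFree 3
  deg : ∀ v, (G.neighborSet v).ncard ≤ 3
  bad : ¬ ColN n G
  min : ∀ (W : Type) [Fintype W] [DecidableEq W] (H : SimpleGraph W), Pl H → H.CliqueFree 3 →
    (∀ v, (H.neighborSet v).ncard ≤ 3) → H.edgeSet.ncard < G.edgeSet.ncard → ColN n H
  noiso : ∀ v, ∃ w, G.Adj v w

variable {V : Type} [Fintype V] [DecidableEq V] {G : SimpleGraph V} {n : ℤ}

/-- If there is a counterexample, there is a smallest one. -/
theorem exists_minN (h1 : Pl G) (h2 : G.CliqueFree 3) (h3 : ∀ v, (G.neighborSet v).ncard ≤ 3)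
    (h4 : ¬ ColN n G) : ∃ (W : Type) (_ : Fintype W) (_ : DecidableEq W) (H : SimpleGraph W),
      MinN n H := by
  classical
  have key : ∃ m : ℕ, ∃ (W : Type) (_ : Fintype W) (_ : DecidableEq W) (H : SimpleGraph W),
      Pl H ∧ H.CliqueFree 3 ∧ (∀ v, (H.neighborSet v).ncard ≤ 3) ∧ ¬ ColN n H ∧
        H.edgeSet.ncard = m := ⟨_, V, inferInstance, inferInstance, G, h1, h2, h3, h4, rfl⟩
  obtain ⟨W, _, _, H, g1, g2, g3, g4, g5⟩ := Nat.find_spec key
  have gmin : ∀ (W' : Type) [Fintype W'] [DecidableEq W'] (H' : SimpleGraph W'), Pl H' →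
      H'.CliqueFree 3 → (∀ v, (H'.neighborSet v).ncard ≤ 3) →
      H'.edgeSet.ncard < H.edgeSet.ncard → ColN n H' := by
    intro W' _ _ H' a1 a2 a3 a4
    by_contra a5
    have := Nat.find_min' key ⟨W', inferInstance, inferInstance, H', a1, a2, a3, a5, rfl⟩
    omega
  set p : W → Prop := fun v => ∃ w, H.Adj v w with hp
  set H' : SimpleGraph {v // p v} := H.comap Subtype.val with hH'
  have e1 : H'.edgeSet.ncard ≤ H.edgeSet.ncard := by
    refine Set.ncard_le_ncard_of_injOn (Sym2.map Subtype.val) ?_ ?_ (Set.toFinite _)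
    · intro e he
      induction e using Sym2.ind with
      | _ a b => exact he
    · exact (Sym2.map.injective Subtype.val_injective).injOn
  refine ⟨{v // p v}, inferInstance, inferInstance, H', g1.restrict p fun u v huv => ⟨v, huv⟩,
    ?_, ?_, ?_, ?_, ?_⟩
  · exact SimpleGraph.CliqueFree.comap ⟨(SimpleGraph.Embedding.comap
      (Function.Embedding.subtype p) H).toCopy⟩ g2
  · intro v
    refine le_trans (Set.ncard_le_ncard_of_injOn Subtype.val ?_
      Subtype.val_injective.injOn (Set.toFinite _)) (g3 v.1)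
    intro w hw
    exact hw
  · rintro ⟨c, hc⟩
    refine g4 ⟨fun v => if h : p v then c ⟨v, h⟩ else 0, fun u v huv => ?_⟩
    have hu : p u := ⟨v, huv⟩
    have hv : p v := ⟨u, huv.symm⟩
    simp only [dif_pos hu, dif_pos hv]
    exact hc ⟨u, hu⟩ ⟨v, hv⟩ huv
  · intro W' _ _ H'' a1 a2 a3 a4
    exact gmin W' H'' a1 a2 a3 (lt_of_lt_of_le a4 e1)
  · rintro ⟨v, w, hw⟩
    exact ⟨⟨w, v, hw.symm⟩, hw⟩

/-- Proper subgraphs have colourings. -/
theorem MinN.sub (h : MinN n G) {H : SimpleGraph V} (hle : H ≤ G) {u v : V} (huv : G.Adj u v)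
    (hn : ¬ H.Adj u v) : ColN n H := by
  refine h.min V H (h.pl.del hle) (h.tri.anti hle) (fun w => ?_) ?_
  · exact (Set.ncard_le_ncard (fun x hx => hle hx) (Set.toFinite _)).trans (h.deg w)
  · refine Set.ncard_lt_ncard ?_ (Set.toFinite _)
    refine ⟨SimpleGraph.edgeSet_mono hle, fun h5 => hn ?_⟩
    exact h5 (show s(u, v) ∈ G.edgeSet from huv)

/-- A cut with at most one edge is trivial. -/
theorem MinN.cut_le_one (h : MinN n G) (hn : 2 ≤ n) (A : Set V) (hA : (leave G A).ncard ≤ 1) :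
    A = ∅ ∨ A = Set.univ := by
  by_contra hcon
  rw [not_or] at hcon
  obtain ⟨h1, h2⟩ := hcon
  obtain ⟨x, hx⟩ := Set.nonempty_iff_ne_empty.2 h1
  obtain ⟨y, hy⟩ := (Set.ne_univ_iff_exists_notMem A).1 h2
  obtain ⟨x', hx'⟩ := h.noiso x
  obtain ⟨y', hy'⟩ := h.noiso y
  have s1 : ColN n (side G (· ∈ A)) := h.sub (side_le _ _) hy' fun h5 => hy h5.2.1
  have s2 : ColN n (side G fun v => ¬ v ∈ A) := h.sub (side_le _ _) hx' fun h5 => h5.2.1 hx
  obtain ⟨a, b, hab⟩ : ∃ a b, ∀ u v, u ∈ A → v ∉ A → G.Adj u v → u = a ∧ v = b := by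
    by_cases hL : leave G A = ∅
    · refine ⟨x, x, fun u v hu hv huv => ?_⟩
      have : (u, v) ∈ leave G A := ⟨hu, hv, huv⟩
      rw [hL] at this
      exact absurd this (Set.notMem_empty _)
    · obtain ⟨⟨a, b⟩, hab⟩ := Set.nonempty_iff_ne_empty.2 hL
      refine ⟨a, b, fun u v hu hv huv => ?_⟩
      have h3 : (u, v) ∈ leave G A := ⟨hu, hv, huv⟩
      exact Prod.mk.inj ((Set.ncard_le_one (Set.toFinite _)).1 hA _ h3 _ hab)
  exact h.bad (glueN1 hn (· ∈ A) s1 s2 hab)

theorem MinN.ge_two (h : MinN n G) (hn : 2 ≤ n) {A : Set V} (h1 : A.Nonempty)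
    (h2 : A ≠ Set.univ) : 2 ≤ (leave G A).ncard := by
  by_contra h3
  rcases h.cut_le_one hn A (by omega) with h4 | h4
  · exact h1.ne_empty h4
  · exact h2 h4

theorem MinN.two_le (h : MinN n G) (hn : 2 ≤ n) (v : V) : 2 ≤ (G.neighborSet v).ncard := by
  rw [← leave_singleton]
  refine h.ge_two hn ⟨v, rfl⟩ fun h5 => ?_
  obtain ⟨w, hw⟩ := h.noiso v
  have : w ∈ ({v} : Set V) := by rw [h5]; exact Set.mem_univ w
  exact hw.ne (Eq.symm this)

/-- The sides of a cut with at most three edges are connected. -/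
theorem MinN.conn (h : MinN n G) (hn : 2 ≤ n) {k : ℕ} (hk : k ≤ 3) (hk0 : 0 < k) {X : V → Prop}
    {a b : Fin k → V} (hc : CutK G X a b) : ConnF G X := by
  classical
  intro φ hφ x y hx hy
  by_contra hne
  have key : ∀ B : Set V, B ⊆ {w | ¬ X w} → (∀ u v, u ∈ B → ¬ X v → G.Adj u v → v ∈ B) →
      leave G B = (fun i => (b i, a i)) '' {i | b i ∈ B} := by
    intro B hB hB2
    ext ⟨u, v⟩
    constructor
    · rintro ⟨h1, h2, h3⟩
      have h4 : X v := by
        by_contra h5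
        exact h2 (hB2 u v h1 h5 h3)
      obtain ⟨i, h5, h6⟩ := hc.cut v u h4 (hB h1) h3.symm
      have h1' : u ∈ B := h1
      refine ⟨i, ?_, ?_⟩
      · show b i ∈ B
        rw [← h6]
        exact h1'
      · show (b i, a i) = (u, v)
        rw [h5, h6]
    · rintro ⟨i, h1, h2⟩
      obtain ⟨rfl, rfl⟩ := Prod.mk.inj h2
      exact ⟨h1, fun h5 => hB h5 (hc.hX i), (hc.adj i).symm⟩
  have hinj : Function.Injective fun i => (b i, a i) := fun i j hij =>
    hc.ib (congrArg Prod.fst hij)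
  set B : Set V := {w | ¬ X w ∧ φ w = φ x} with hB
  set B' : Set V := {w | ¬ X w ∧ φ w ≠ φ x} with hB'
  have k1 := key B (fun w hw => hw.1) (fun u v hu hv huv => ⟨hv, by
    rw [← hφ u v huv hu.1 hv]; exact hu.2⟩)
  have k2 := key B' (fun w hw => hw.1) (fun u v hu hv huv => ⟨hv, by
    rw [← hφ u v huv hu.1 hv]; exact hu.2⟩)
  have n1 : 2 ≤ (leave G B).ncard := h.ge_two hn ⟨x, hx, rfl⟩ fun h5 => by
    have : a ⟨0, hk0⟩ ∈ B := by rw [h5]; exact Set.mem_univ _
    exact this.1 (hc.hX _)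
  have n2 : 2 ≤ (leave G B').ncard := h.ge_two hn ⟨y, hy, fun h5 => hne h5.symm⟩ fun h5 => by
    have : a ⟨0, hk0⟩ ∈ B' := by rw [h5]; exact Set.mem_univ _
    exact this.1 (hc.hX _)
  rw [k1, Set.ncard_image_of_injective _ hinj] at n1
  rw [k2, Set.ncard_image_of_injective _ hinj] at n2
  have h6 : Disjoint {i : Fin k | b i ∈ B} {i | b i ∈ B'} := by
    rw [Set.disjoint_left]
    intro i h1 h2
    exact h2.2 h1.2
  have h7 := Set.ncard_union_eq h6 (Set.toFinite _) (Set.toFinite _)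
  have h8 := Set.ncard_le_ncard (Set.subset_univ ({i : Fin k | b i ∈ B} ∪ {i | b i ∈ B'}))
    (Set.toFinite _)
  rw [Set.ncard_univ, Nat.card_eq_fintype_card, Fintype.card_fin] at h8
  omega

/-- Every end has a neighbour on its own side. -/
theorem MinN.inner (h : MinN n G) (hn : 2 ≤ n) {k : ℕ} {X : V → Prop} {a b : Fin k → V}
    (hc : CutK G X a b) (i : Fin k) : ∃ w, ¬ X w ∧ G.Adj (b i) w := by
  have h1 := h.two_le hn (b i)
  by_contra hcon
  push Not at hcon
  have h2 : G.neighborSet (b i) ⊆ {a i} := by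
    intro w hw
    have hw' : G.Adj (b i) w := hw
    have hXw : X w := by
      by_contra h5
      exact hcon w h5 hw'
    obtain ⟨j, h3, h4⟩ := hc.cut w (b i) hXw (hc.hY i) hw'.symm
    have := hc.ib h4
    rw [← this] at h3
    exact h3
  have h3 := Set.ncard_le_ncard h2 (Set.toFinite _)
  rw [Set.ncard_singleton] at h3
  omega

variable {X : V → Prop} {a b : Fin 2 → V}

/-- The side with a vertex joined to both ends: the ends are near. -/
theorem MinN.near (h : MinN n G) (hn : 2 ≤ n) (hc : CutK G X a b)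
    (hna : ¬ G.Adj (a 0) (a 1)) : ∃ c, IsCol n (side G X) c ∧ Near n (c (a 1) - c (a 0)) := by
  obtain ⟨w, hw, hbw⟩ := h.inner hn hc 0
  have hz := hc.hY 0
  have hna' : ∀ i j, ¬ G.Adj (a i) (a j) := by
    intro i j
    fin_cases i <;> fin_cases j
    · exact fun h5 => h5.ne rfl
    · exact hna
    · exact fun h5 => hna h5.symm
    · exact fun h5 => h5.ne rfl
  obtain ⟨c, hcol⟩ := h.min V _ (pl_starK h.pl hc (h.conn hn (by decide) (by decide) hc) _ hz)
    (tri_starK h.tri hc.hX _ hz hna') (deg_starK h.deg (by decide) hc _ hz)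
    (edges_starK hc _ hz hz hw hbw)
  refine ⟨c, fun u v huv => hcol u v (Or.inl huv), ?_⟩
  have h1 := hcol (b 0) (a 1) (Or.inr ⟨1, Or.inr ⟨rfl, rfl⟩⟩)
  have h2 := hcol (b 0) (a 0) (Or.inr ⟨0, Or.inr ⟨rfl, rfl⟩⟩)
  have h3 := h1.sub h2
  have e : c (a 1) - c (b 0) - (c (a 0) - c (b 0)) = c (a 1) - c (a 0) := by ring
  rwa [e] at h3

/-- The side with a path of length three: the ends are far. -/
theorem MinN.far (h : MinN n G) (hn : 2 ≤ n) (hc : CutK G X a b)
    {e f : Sym2 V} (hef : e ≠ f) (he : e ∈ (side G fun v => ¬ X v).edgeSet)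
    (hf : f ∈ (side G fun v => ¬ X v).edgeSet) :
    ∃ c, IsCol n (side G X) c ∧ Far n (c (a 1) - c (a 0)) := by
  have hu := hc.hY 0
  have hz := hc.hY 1
  have huz : b 0 ≠ b 1 := fun h5 => absurd (hc.ib h5) (by decide)
  have hne : a 0 ≠ a 1 := fun h5 => absurd (hc.ia h5) (by decide)
  obtain ⟨c, hcol⟩ := h.min V _
    (pl_pathK h.pl hc (h.conn hn (by decide) (by decide) hc) hu hz huz)
    (tri_pathK h.tri hc.hX hu hz huz hne) (deg_pathK h.deg hc hu hz huz)
    (edges_pathK hc hu hz huz hef he hf)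
  refine ⟨c, fun u v huv => hcol u v (Or.inl huv), ?_⟩
  have h1 := hcol (a 0) (b 0) (Or.inr (Or.inl rfl))
  have h2 := hcol (b 0) (b 1) (Or.inr (Or.inr (Or.inl rfl)))
  have h3 := hcol (b 1) (a 1) (Or.inr (Or.inr (Or.inr rfl)))
  have h4 := (h1.add3 h2) h3
  have e' : c (b 0) - c (a 0) + (c (b 1) - c (b 0)) + (c (a 1) - c (b 1)) =
    c (a 1) - c (a 0) := by ring
  rwa [e'] at h4

theorem CutK.cut2 (hc : CutK G X a b) (u v : V) (hu : X u) (hv : ¬ X v) (huv : G.Adj u v) :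
    (u = a 0 ∧ v = b 0) ∨ (u = a 1 ∧ v = b 1) := by
  obtain ⟨i, hi⟩ := hc.cut u v hu hv huv
  fin_cases i
  · exact Or.inl hi
  · exact Or.inr hi

/-- The other side, seen through the complement. -/
theorem side_not_not (G : SimpleGraph V) (X : V → Prop) :
    (side G fun v => ¬ ¬ X v) = side G X := by
  ext u v
  exact ⟨fun h => ⟨h.1, not_not.1 h.2.1, not_not.1 h.2.2⟩,
    fun h => ⟨h.1, not_not.2 h.2.1, not_not.2 h.2.2⟩⟩

/-- Not both pairs of ends are nonadjacent. -/
theorem MinN.not_nonadj (h : MinN n G) (hn : 2 ≤ n) (hc : CutK G X a b)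
    (h1 : ¬ G.Adj (a 0) (a 1)) (h2 : ¬ G.Adj (b 0) (b 1)) : False := by
  obtain ⟨c1, g1, n1⟩ := h.near hn hc h1
  obtain ⟨c2, g2, n2⟩ := h.near hn hc.compl h2
  rcases n1.pair n2 with h3 | h3
  · obtain ⟨c, g, -⟩ := glueN2 hn X g1 g2 hc.cut2 h3
    exact h.bad ⟨c, g⟩
  · obtain ⟨c, g, -⟩ := glueN2 hn X g1 g2.neg hc.cut2 (by
      have e : -c2 (b 1) - -c2 (b 0) - (c1 (a 1) - c1 (a 0)) =
        -(c2 (b 1) - c2 (b 0)) - (c1 (a 1) - c1 (a 0)) := by ring
      rw [e]
      exact h3)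
    exact h.bad ⟨c, g⟩

/-- Not both pairs of ends are adjacent. -/
theorem MinN.not_adj (h : MinN n G) (hn : 2 ≤ n) (hc : CutK G X a b)
    (h1 : G.Adj (a 0) (a 1)) (h2 : G.Adj (b 0) (b 1)) : False := by
  obtain ⟨c1, g1⟩ : ColN n (side G X) := h.sub (side_le _ _) (hc.adj 0) fun h5 => hc.hY 0 h5.2.2
  obtain ⟨c2, g2⟩ : ColN n (side G fun v => ¬ X v) :=
    h.sub (side_le _ _) (hc.adj 0) fun h5 => h5.2.1 (hc.hX 0)
  have n1 := g1 (a 0) (a 1) ⟨h1, hc.hX 0, hc.hX 1⟩
  have n2 := g2 (b 0) (b 1) ⟨h2, hc.hY 0, hc.hY 1⟩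
  obtain ⟨c, g, -⟩ := glueN2 hn X g1 g2 hc.cut2 (n2.sub n1)
  exact h.bad ⟨c, g⟩

/-- A side with adjacent ends has exactly two vertices if the other ends are not adjacent. -/
theorem MinN.rung (h : MinN n G) (hn : 2 ≤ n) (hc : CutK G X a b)
    (h1 : G.Adj (a 0) (a 1)) : ∀ v, X v → v = a 0 ∨ v = a 1 := by
  classical
  have hne : a 0 ≠ a 1 := h1.ne
  -- the rest of the side
  set Y : V → Prop := fun v => X v ∧ v ≠ a 0 ∧ v ≠ a 1 with hY
  set A : Set V := {v | Y v} with hA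
  have hleave : ∀ u v, u ∈ A → v ∉ A → G.Adj u v → v = a 0 ∨ v = a 1 := by
    intro u v hu hv huv
    have hXv : X v := by
      by_contra h5
      obtain ⟨i, h6, -⟩ := hc.cut u v hu.1 h5 huv
      fin_cases i
      · exact hu.2.1 h6
      · exact hu.2.2 h6
    by_contra h5
    rw [not_or] at h5
    exact hv ⟨hXv, h5⟩
  -- every `a i` has at most one neighbour in `A`
  have huniq : ∀ i : Fin 2, ∀ u u', u ∈ A → u' ∈ A → G.Adj u (a i) → G.Adj u' (a i) →
      u = u' := by
    intro i u u' hu hu' h2 h3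
    by_contra hcon
    have hj : ∃ j : Fin 2, j ≠ i ∧ G.Adj (a i) (a j) := by
      fin_cases i
      · exact ⟨1, by decide, h1⟩
      · exact ⟨0, by decide, h1.symm⟩
    obtain ⟨j, hji, hadj⟩ := hj
    have huj : ∀ w ∈ A, w ≠ a j := by
      intro w hw
      fin_cases j
      · exact hw.2.1
      · exact hw.2.2
    have h4 : insert (b i) (insert (a j) (insert u {u'})) ⊆ G.neighborSet (a i) := by
      rintro w (rfl | rfl | rfl | hw)
      · exact hc.adj i
      · exact hadj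
      · exact h2.symm
      · have : w = u' := hw
        rw [this]
        exact h3.symm
    have h5 := Set.ncard_le_ncard h4 (Set.toFinite _)
    rw [Set.ncard_insert_of_notMem, Set.ncard_insert_of_notMem, Set.ncard_insert_of_notMem,
      Set.ncard_singleton] at h5
    · have := h.deg (a i)
      omega
    · exact hcon
    · rintro (h6 | h6)
      · exact huj u hu h6.symm
      · exact huj u' hu' (Eq.symm h6)
    · rintro (h6 | h6 | h6)
      · exact hc.hY i (h6 ▸ hc.hX j)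
      · exact hc.hY i (h6 ▸ hu.1)
      · have : b i = u' := h6
        exact hc.hY i (this ▸ hu'.1)
  intro v hv
  by_contra hcon
  rw [not_or] at hcon
  have hvA : v ∈ A := ⟨hv, hcon⟩
  have hge := h.ge_two hn ⟨v, hvA⟩ (fun h5 => by
    have : a 0 ∈ A := by rw [h5]; exact Set.mem_univ _
    exact this.2.1 rfl)
  -- the two edges
  have hex : ∀ i : Fin 2, ∃ u, u ∈ A ∧ G.Adj u (a i) := by
    by_contra hno
    push Not at hno
    obtain ⟨i, hi⟩ := hno
    have h2 : (leave G A).ncard ≤ 1 := by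
      rw [Set.ncard_le_one (Set.toFinite _)]
      rintro ⟨x, y⟩ ⟨hx, hy, hxy⟩ ⟨x', y'⟩ ⟨hx', hy', hxy'⟩
      have hx2 : x ∈ A := hx
      have hx2' : x' ∈ A := hx'
      have hxy2 : G.Adj x y := hxy
      have hxy2' : G.Adj x' y' := hxy'
      obtain ⟨j, hj⟩ : ∃ j : Fin 2, j ≠ i := by
        fin_cases i
        · exact ⟨1, by decide⟩
        · exact ⟨0, by decide⟩
      have hval : ∀ x y, x ∈ A → y ∉ A → G.Adj x y → y = a j := by
        intro x y hx hy hxy
        rcases hleave x y hx hy hxy with h5 | h5 <;> fin_cases i <;> fin_cases j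
        · exact absurd rfl hj
        · exact absurd (h5 ▸ hxy) (hi x hx)
        · exact h5
        · exact absurd rfl hj
        · exact absurd rfl hj
        · exact h5
        · exact absurd (h5 ▸ hxy) (hi x hx)
        · exact absurd rfl hj
      have e1 := hval x y hx2 hy hxy2
      have e2 := hval x' y' hx2' hy' hxy2'
      rw [e1] at hxy2 ⊢
      rw [e2] at hxy2' ⊢
      rw [huniq j x x' hx2 hx2' hxy2 hxy2']
    omega
  obtain ⟨p0, hp0, q0⟩ := hex 0
  obtain ⟨p1, hp1, q1⟩ := hex 1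
  have hp : p0 ≠ p1 := by
    rintro rfl
    exact h.tri {p0, a 0, a 1} (SimpleGraph.is3Clique_iff.2 ⟨p0, a 0, a 1, q0, q1, h1, rfl⟩)
  have hcY : CutK G Y ![p0, p1] a := by
    refine ⟨?_, ?_, ?_, ?_, hc.ia, ?_⟩
    · intro i
      fin_cases i
      · exact hp0
      · exact hp1
    · intro i
      fin_cases i
      · exact fun h5 => h5.2.1 rfl
      · exact fun h5 => h5.2.2 rfl
    · intro i
      fin_cases i
      · exact q0
      · exact q1
    · intro i j hij
      fin_cases i <;> fin_cases j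
      · rfl
      · exact absurd hij hp
      · exact absurd (Eq.symm hij) hp
      · rfl
    · intro u w hu hw huw
      rcases hleave u w hu hw huw with h5 | h5
      · refine ⟨0, ?_, h5⟩
        rw [h5] at huw
        exact huniq 0 u p0 hu hp0 huw q0
      · refine ⟨1, ?_, h5⟩
        rw [h5] at huw
        exact huniq 1 u p1 hu hp1 huw q1
  -- colourings of the two outer parts
  have e1 : s(a 0, a 1) ∈ (side G fun v => ¬ Y v).edgeSet :=
    ⟨h1, fun h5 => h5.2.1 rfl, fun h5 => h5.2.2 rfl⟩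
  have e2 : s(a 0, b 0) ∈ (side G fun v => ¬ Y v).edgeSet :=
    ⟨hc.adj 0, fun h5 => h5.2.1 rfl, fun h5 => hc.hY 0 h5.1⟩
  have e12 : s(a 0, a 1) ≠ s(a 0, b 0) := by
    intro h5
    rcases Sym2.eq_iff.1 h5 with ⟨-, h6⟩ | ⟨h6, -⟩
    · exact hc.hY 0 (h6 ▸ hc.hX 1)
    · exact hc.hY 0 (h6 ▸ hc.hX 0)
  obtain ⟨c1, g1, f1⟩ := h.far hn hcY e12 e1 e2
  have e3 : s(a 0, a 1) ∈ (side G fun v => ¬ ¬ X v).edgeSet :=
    ⟨h1, not_not.2 (hc.hX 0), not_not.2 (hc.hX 1)⟩
  have e4 : s(p0, a 0) ∈ (side G fun v => ¬ ¬ X v).edgeSet :=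
    ⟨q0, not_not.2 hp0.1, not_not.2 (hc.hX 0)⟩
  have e34 : s(a 0, a 1) ≠ s(p0, a 0) := by
    intro h5
    rcases Sym2.eq_iff.1 h5 with ⟨h6, -⟩ | ⟨-, h6⟩
    · exact hp0.2.1 h6.symm
    · exact hp0.2.2 h6.symm
  obtain ⟨c2, g2, f2⟩ := h.far hn hc.compl e34 e3 e4
  -- the rung
  set r : V → ℤ := fun v => if v = a 1 then n + 1 else 0 with hr
  have r0 : r (a 0) = 0 := if_neg hne
  have r1 : r (a 1) = n + 1 := if_pos rfl
  set G1 : SimpleGraph V := side G fun v => ¬ Y v with hG1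
  have hYX : ∀ v, ¬ X v → ¬ Y v := fun v hv h5 => hv h5.1
  have hr1 : IsCol n (side G1 X) r := by
    rintro u v ⟨⟨h2, h3, h4⟩, h5, h6⟩
    have hu : u = a 0 ∨ u = a 1 := by
      by_contra h7
      rw [not_or] at h7
      exact h3 ⟨h5, h7⟩
    have hv : v = a 0 ∨ v = a 1 := by
      by_contra h7
      rw [not_or] at h7
      exact h4 ⟨h6, h7⟩
    rcases hu with rfl | rfl <;> rcases hv with rfl | rfl
    · exact absurd rfl h2.ne
    · rw [r0, r1, sub_zero]
      exact Jn.of_eq hn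
    · rw [r0, r1, zero_sub]
      exact (Jn.of_eq hn).neg
    · exact absurd rfl h2.ne
  have hcut1 : ∀ u v, X u → ¬ X v → G1.Adj u v → (u = a 0 ∧ v = b 0) ∨ (u = a 1 ∧ v = b 1) :=
    fun u v hu hv huv => hc.cut2 u v hu hv huv.1
  have step1 : ∃ c, IsCol n G1 c ∧ c (a 1) - c (a 0) = n + 1 := by
    have hs : ∀ c, IsCol n (side G fun v => ¬ X v) c → IsCol n (side G1 fun v => ¬ X v) c :=
      fun c hcc => hcc.mono fun u v huv => ⟨huv.1.1, huv.2⟩
    rcases f2.rung with h5 | h5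
    · obtain ⟨c, k1, k2⟩ := glueN2 hn X hr1 (hs _ g2) hcut1 (by
        rw [r0, r1, sub_zero]
        exact h5)
      exact ⟨c, k1, by rw [k2 _ (hc.hX 0), k2 _ (hc.hX 1), r0, r1, sub_zero]⟩
    · obtain ⟨c, k1, k2⟩ := glueN2 hn X hr1 (hs _ g2.neg) hcut1 (by
        rw [r0, r1, sub_zero]
        have e : -c2 (b 1) - -c2 (b 0) - (n + 1) = -(c2 (b 1) - c2 (b 0)) - (n + 1) := by ring
        rw [e]
        exact h5)
      exact ⟨c, k1, by rw [k2 _ (hc.hX 0), k2 _ (hc.hX 1), r0, r1, sub_zero]⟩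
  obtain ⟨c3, g3, d3⟩ := step1
  have hcut2 : ∀ u v, ¬ Y u → ¬ ¬ Y v → G.Adj u v →
      (u = a 0 ∧ v = p0) ∨ (u = a 1 ∧ v = p1) := by
    intro u v hu hv huv
    rcases hcY.cut2 v u (not_not.1 hv) hu huv.symm with ⟨h5, h6⟩ | ⟨h5, h6⟩
    · exact Or.inl ⟨h6, h5⟩
    · exact Or.inr ⟨h6, h5⟩
  have g1' : IsCol n (side G fun v => ¬ ¬ Y v) c1 := by
    rw [side_not_not]
    exact g1
  have f1' : Far n (c1 p1 - c1 p0) := f1
  rcases f1'.rung with h5 | h5
  · obtain ⟨c, k1, -⟩ := glueN2 hn (fun v => ¬ Y v) g3 g1' hcut2 (by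
      rw [d3]
      exact h5)
    exact h.bad ⟨c, k1⟩
  · obtain ⟨c, k1, -⟩ := glueN2 hn (fun v => ¬ Y v) g3 g1'.neg hcut2 (by
      rw [d3]
      have e : -c1 p1 - -c1 p0 - (n + 1) = -(c1 p1 - c1 p0) - (n + 1) := by ring
      rw [e]
      exact h5)
    exact h.bad ⟨c, k1⟩

/-- **Cuts with two edges.** One side is a vertex or an edge between two vertices of degree 2. -/
theorem MinN.cut_two (h : MinN n G) (hn : 2 ≤ n) (A : Set V) (hA : (leave G A).ncard ≤ 2) :
    A.ncard ≤ 2 ∨ Aᶜ.ncard ≤ 2 := by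
  by_cases hle : (leave G A).ncard ≤ 1
  · rcases h.cut_le_one hn A hle with h1 | h1
    · left
      rw [h1, Set.ncard_empty]
      omega
    · right
      rw [h1, Set.compl_univ, Set.ncard_empty]
      omega
  have hA2 : (leave G A).ncard = 2 := by omega
  -- two cut edges at the same vertex
  have key : ∀ (B : Set V) (a b b' : V), (leave G B).ncard = 2 → a ∈ B → b ∉ B → b' ∉ B →
      G.Adj a b → G.Adj a b' → b ≠ b' → B.ncard ≤ 2 := by
    intro B a b b' hB ha hb hb' hab hab' hbb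
    have h1 := leave_erase B ha hb hb' hab hab' hbb (h.deg a)
    rcases h.cut_le_one hn (B \ {a}) (by omega) with h2 | h2
    · have h3 : B ⊆ {a} := by
        intro x hx
        by_contra h4
        have : x ∈ B \ {a} := ⟨hx, h4⟩
        rw [h2] at this
        exact this
      have h4 := Set.ncard_le_ncard h3 (Set.toFinite _)
      rw [Set.ncard_singleton] at h4
      omega
    · exfalso
      have : b ∈ B \ {a} := by rw [h2]; exact Set.mem_univ b
      exact hb this.1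
  obtain ⟨⟨a1, b1⟩, ⟨a2, b2⟩, hne, hL⟩ := Set.ncard_eq_two.1 hA2
  have m1 : (a1, b1) ∈ leave G A := by rw [hL]; exact Or.inl rfl
  have m2 : (a2, b2) ∈ leave G A := by rw [hL]; exact Or.inr rfl
  obtain ⟨ha1, hb1, hadj1⟩ := m1
  obtain ⟨ha2, hb2, hadj2⟩ := m2
  simp only at ha1 hb1 hadj1 ha2 hb2 hadj2
  by_cases ha : a1 = a2
  · subst ha
    exact Or.inl (key A a1 b1 b2 hA2 ha1 hb1 hb2 hadj1 hadj2 fun h5 => hne (by rw [h5]))
  by_cases hb : b1 = b2
  · subst hb
    exact Or.inr (key Aᶜ b1 a1 a2 (by rw [leave_compl_ncard, hA2]) hb1 (not_not.2 ha1)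
      (not_not.2 ha2) hadj1.symm hadj2.symm ha)
  have hc : CutK G (· ∈ A) ![a1, a2] ![b1, b2] := by
    refine ⟨?_, ?_, ?_, ?_, ?_, ?_⟩
    · intro i
      fin_cases i
      · exact ha1
      · exact ha2
    · intro i
      fin_cases i
      · exact hb1
      · exact hb2
    · intro i
      fin_cases i
      · exact hadj1
      · exact hadj2
    · intro i j hij
      fin_cases i <;> fin_cases j
      · rfl
      · exact absurd hij ha
      · exact absurd (Eq.symm hij) ha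
      · rfl
    · intro i j hij
      fin_cases i <;> fin_cases j
      · rfl
      · exact absurd hij hb
      · exact absurd (Eq.symm hij) hb
      · rfl
    · intro u v hu hv huv
      have : (u, v) ∈ leave G A := ⟨hu, hv, huv⟩
      rw [hL] at this
      rcases this with h5 | h5
      · exact ⟨0, Prod.mk.inj h5⟩
      · exact ⟨1, Prod.mk.inj (show (u, v) = (a2, b2) from h5)⟩
  by_cases e1 : G.Adj a1 a2
  · left
    have h1 := h.rung hn hc e1
    have h2 : A ⊆ {a1, a2} := fun v hv => h1 v hv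
    refine (Set.ncard_le_ncard h2 (Set.toFinite _)).trans ?_
    have := Set.ncard_insert_le a1 {a2}
    rwa [Set.ncard_singleton] at this
  by_cases e2 : G.Adj b1 b2
  · right
    have h1 := h.rung hn hc.compl e2
    have h2 : Aᶜ ⊆ {b1, b2} := fun v hv => h1 v hv
    refine (Set.ncard_le_ncard h2 (Set.toFinite _)).trans ?_
    have := Set.ncard_insert_le b1 {b2}
    rwa [Set.ncard_singleton] at this
  exact (h.not_nonadj hn hc e1 e2).elim

end Pool.Agent.CutN
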