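import Pool.Agent.Work.MP_392c8e_co_uni.Inst.P2Ext

/-!
# The extension property of the reducer P2 for the lists of stages B and C
-/

namespace Pool.Agent.T1Red

theorem extP2_nil : (P2 (4, 6) (7, 9)).Ext [] := P2_ext [] (by decide +kernel)

theorem extP2_n : (P2 (4, 6) (7, 9)).Ext [(0, 5), (1, 5), (2, 8), (3, 8)] :=
  P2_ext _ (by decide +kernel)

theorem extP2_l : (P2 (4, 6) (7, 9)).Ext [(0, 5), (1, 5), (2, 8), (3, 8), (1, 6)] :=
  P2_ext _ (by decide +kernel)

theorem extP2_r : (P2 (4, 6) (7, 9)).Ext [(0, 5), (1, 5), (2, 8), (3, 8), (2, 7)] :=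
  P2_ext _ (by decide +kernel)

end Pool.Agent.T1Red
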