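import Pool.Agent.Work.MP_392c8e_co_t1.Apply
import Pool.Agent.Work.MP_392c8e_co_uni.Inst.R2qExt
import Pool.Agent.Work.MP_392c8e_co_uni.Inst.Z4
import Pool.Agent.Work.MP_392c8e_co_uni.Inst.G2
import Pool.Agent.Work.MP_392c8e_co_uni.Inst.P1
import Pool.Agent.Work.MP_392c8e_co_uni.Inst.G1cExt

/-!
# The extension property of the reducers with gain
-/

namespace Pool.Agent.T1Red

theorem extTab_R2 (co : List (ℕ × ℕ)) (h : neOK R2 co = true) : R2.Ext co :=
  R2q_ext co h

theorem extTab_Z4 (co : List (ℕ × ℕ)) (h : neOK Z4 co = true) : Z4.Ext co :=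
  Z4_ext co h

theorem extTab_G2 (co : List (ℕ × ℕ)) (h : neOK G2 co = true) : G2.Ext co :=
  G2_ext co h

theorem extTab_P1 (co : List (ℕ × ℕ)) (h : neOK P1 co = true) : P1.Ext co :=
  P1_ext co h

theorem extTab_G1c (co : List (ℕ × ℕ)) (h : neOK G1c co = true) : G1c.Ext co :=
  G1c_ext co h

theorem extTab_G2_nil : G2.Ext [] := extTab_G2 [] (by decide)

theorem extTab_P1_nil : P1.Ext [] := extTab_P1 [] (by decide)

theorem extTab_G1c_nil : G1c.Ext [] := extTab_G1c [] (by decide)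

theorem extTab_Z4_co : Z4.Ext [(0, 1), (4, 5), (2, 6)] := extTab_Z4 _ (by decide)

end Pool.Agent.T1Red
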