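import Pool.Agent.Work.MP_392c8e_co_t1.Maps

/-!
# Labelled copies of clusters: faces of length seven and their outer faces

`stars7` lists the neighbours of the vertices of a face of length seven, `outer5` the neighbours of
the three outer vertices of a face of length five across an edge of a face.  All entries are in the
order next, previous, third vertex of the face.
-/

namespace Pool.Agent.T1FF

open Pool.Agent.Sub392 Pool.T1Side

variable {V : Type} [Fintype V] [DecidableEq V] {G : SimpleGraph V} [DecidableRel G.Adj]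
variable {R : Rot G} {d : G.Dart} {L : ℕ}

/-- The seven vertices of a face of length seven. -/
theorem Good.stars7 (h : Good R d 7) :
    Nb3 G (X R d 0) (X R d 1) (X R d 6) (Y R d 0) ∧
    Nb3 G (X R d 1) (X R d 2) (X R d 0) (Y R d 1) ∧
    Nb3 G (X R d 2) (X R d 3) (X R d 1) (Y R d 2) ∧
    Nb3 G (X R d 3) (X R d 4) (X R d 2) (Y R d 3) ∧
    Nb3 G (X R d 4) (X R d 5) (X R d 3) (Y R d 4) ∧
    Nb3 G (X R d 5) (X R d 6) (X R d 4) (Y R d 5) ∧
    Nb3 G (X R d 6) (X R d 0) (X R d 5) (Y R d 6) := by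
  have key : ∀ n, Nb3 G (X R d n) (X R d (n + 1)) (X R d (n + 6)) (Y R d n) := fun n =>
    h.nb3 (by norm_num) n
  have e : ∀ n, X R d (n + 7) = X R d n := by
    intro n
    unfold X
    rw [h.pow_add]
  have n0 := key 0
  have n1 := key 1
  have n2 := key 2
  have n3 := key 3
  have n4 := key 4
  have n5 := key 5
  have n6 := key 6
  have e0 := e 0
  have e1 := e 1
  have e2 := e 2
  have e3 := e 3
  have e4 := e 4
  have e5 := e 5
  norm_num only at n0 n1 n2 n3 n4 n5 n6 e0 e1 e2 e3 e4 e5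
  rw [e0] at n1 n6
  rw [e1] at n2
  rw [e2] at n3
  rw [e3] at n4
  rw [e4] at n5
  rw [e5] at n6
  exact ⟨n0, n1, n2, n3, n4, n5, n6⟩

/-- The outer vertices of a face of length five across the edge `n`. -/
theorem Good.outer5 (h : Good R d L) (n : ℕ) (g : Good R (ac R d n) 5) :
    Nb3 G (Y R d n) (X R (ac R d n) 3) (X R d n) (Y R (ac R d n) 2) ∧
    Nb3 G (X R (ac R d n) 3) (Y R d (n + 1)) (Y R d n) (Y R (ac R d n) 3) ∧
    Nb3 G (Y R d (n + 1)) (X R d (n + 1)) (X R (ac R d n) 3) (Y R (ac R d n) 4) := by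
  obtain ⟨-, -, b2, b3, b4⟩ := g.stars5
  have e0 : X R (ac R d n) 0 = X R d (n + 1) := ac_X0 R d n
  have e1 : X R (ac R d n) 1 = X R d n := ac_X1 R d n
  have e2 : X R (ac R d n) 2 = Y R d n := ac_X2 R d n
  have e4 : X R (ac R d n) 4 = Y R d (n + 1) := h.ac_last n g (by norm_num)
  rw [e1, e2] at b2
  rw [e2, e4] at b3
  rw [e0, e4] at b4
  exact ⟨b2, b3, b4⟩

end Pool.Agent.T1FF
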