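import Pool.Agent.Work.MP_392c8e_co_uni.GeoGood
import Pool.Agent.Work.MP_392c8e_co_uni.Tab7
import Pool.Agent.Work.MP_392c8e_co_uni.Inst.R2qExt

/-!
# The place R2

A face of length five with a face of length five across the edge `0` and a face of length six
across the edge `1`.  The new edges join the terminals 0-1, 2-3, 4-7, 5-8, 6-7, 7-8; the labels 7 and
8 are the vertices 17 and 18, and 18 has degree two in the new graph.  The outer faces along the
edges of the pairs 0-1 and 2-3 have not length five.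
-/

namespace Pool.Agent.T1FF

open Pool.Agent.Sub392 Pool.T1Side

variable {V : Type} [Fintype V] [DecidableEq V] {G : SimpleGraph V} [DecidableRel G.Adj]
variable {R : Rot G} {d : G.Dart} {L : ℕ}

/-- The outer vertices of a face of length six across the edge `n`. -/
theorem Good.outer6 (_h : Good R d L) (n : ℕ) (g : Good R (ac R d n) 6)
    (e5 : X R (ac R d n) 5 = Y R d (n + 1)) :
    Nb3 G (Y R d n) (X R (ac R d n) 3) (X R d n) (Y R (ac R d n) 2) ∧
    Nb3 G (X R (ac R d n) 3) (X R (ac R d n) 4) (Y R d n) (Y R (ac R d n) 3) ∧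
    Nb3 G (X R (ac R d n) 4) (Y R d (n + 1)) (X R (ac R d n) 3) (Y R (ac R d n) 4) ∧
    Nb3 G (Y R d (n + 1)) (X R d (n + 1)) (X R (ac R d n) 4) (Y R (ac R d n) 5) := by
  have m6 : X R (ac R d n) 6 = X R (ac R d n) 0 := g.X_mod 6
  have m7 : X R (ac R d n) 7 = X R (ac R d n) 1 := g.X_mod 7
  have m8 : X R (ac R d n) 8 = X R (ac R d n) 2 := g.X_mod 8
  have m9 : X R (ac R d n) 9 = X R (ac R d n) 3 := g.X_mod 9
  have m10 : X R (ac R d n) 10 = X R (ac R d n) 4 := g.X_mod 10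
  have n2 := g.nb3 (by norm_num) 2
  have n3 := g.nb3 (by norm_num) 3
  have n4 := g.nb3 (by norm_num) 4
  have n5 := g.nb3 (by norm_num) 5
  norm_num only at n2 n3 n4 n5
  rw [m7] at n2
  rw [m8] at n3
  rw [m9] at n4
  rw [m6, m10] at n5
  have e0 : X R (ac R d n) 0 = X R d (n + 1) := ac_X0 R d n
  have e1 : X R (ac R d n) 1 = X R d n := ac_X1 R d n
  have e2 : X R (ac R d n) 2 = Y R d n := ac_X2 R d n
  rw [e1, e2] at n2
  rw [e2] at n3
  rw [e5] at n4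
  rw [e0, e5] at n5
  exact ⟨n2, n3, n4, n5⟩

/-- The labels of the patch R2: terminals 0, …, 6, interior 9, …, 19. -/
def fR2 (R : Rot G) (d : G.Dart) (n : ℕ) : V :=
  [Y R d 3, Y R d 4, Y R (ac R d 0) 2, Y R (ac R d 0) 3, Y R (ac R d 1) 3, Y R (ac R d 1) 4,
    Y R (ac R d 1) 5, X R d 0, X R d 0, X R d 0, X R d 1, X R d 2, X R d 3, X R d 4, Y R d 0,
    X R (ac R d 0) 3, Y R d 1, X R (ac R d 1) 3, X R (ac R d 1) 4, Y R d 2].getD n (X R d 0)

/-- The table. -/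
def tR2 : List (ℕ × ℕ × ℕ × ℕ) :=
  [(9, 10, 13, 14), (10, 11, 9, 16), (11, 12, 10, 19), (12, 13, 11, 0), (13, 9, 12, 1),
    (14, 15, 9, 2), (15, 16, 14, 3), (16, 10, 15, 17), (17, 18, 16, 4), (18, 19, 17, 5),
    (19, 11, 18, 6)]

theorem tabR2 (h : Good R d 5) (g0 : Good R (ac R d 0) 5) (g1 : Good R (ac R d 1) 6) :
    TabOk G (fR2 R d) tR2 := by
  obtain ⟨a0, a1, a2, a3, a4⟩ := h.stars5
  obtain ⟨f0_2, f0_3, f0_4⟩ := h.outer5 0 g0
  obtain ⟨f1_2, f1_3, f1_4, f1_5⟩ := h.outer6 1 g1 (h.ac_last 1 g1 (by norm_num))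
  rw [h.ac_Ylast 0 g0 (by norm_num)] at f0_4
  intro e he
  simp only [tR2, List.mem_cons, List.not_mem_nil, or_false] at he
  rcases he with rfl | rfl | rfl | rfl | rfl | rfl | rfl | rfl | rfl | rfl | rfl
  · exact a0
  · exact a1
  · exact a2
  · exact a3
  · exact a4
  · exact f0_2
  · exact f0_3
  · exact f0_4
  · exact f1_3
  · exact f1_4
  · exact f1_5

end Pool.Agent.T1FF

namespace Pool.Agent.U2Geo

open Finset Pool.Agent.Sub392 Pool.T1Side Pool.Agent.T392 Pool.Agent.T1FF Pool.Agent.T1Red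

set_option linter.unusedSectionVars false

/-- Certificate. -/
def tsR2 : List StepL :=
  [.ne 0 1 (.base (.tri 0 12 13)), .ne 0 9 (.base (.tri 0 12 13)), .ne 0 10 (.base (.tri 0 12
  11)), .ne 0 19 (.base (.tri 0 12 11)), .ne 1 10 (.base (.tri 1 13 9)), .ne 1 11 (.base (.tri 1
  12 13)), .ne 1 14 (.base (.tri 1 13 9)), .ne 2 3 (.base (.tri 2 14 15)), .ne 2 10 (.base (.tri
  2 9 14)), .ne 2 13 (.base (.tri 2 9 14)), .ne 2 16 (.base (.tri 2 14 15)), .ne 3 9 (.base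
  (.tri 14 3 15)), .ne 3 10 (.base (.tri 15 3 16)), .ne 3 17 (.base (.tri 15 3 16)), .ne 4 5
  (.base (.tri 17 4 18)), .ne 4 10 (.base (.tri 16 4 17)), .ne 4 15 (.base (.tri 16 4 17)), .ne
  4 19 (.base (.tri 17 4 18)), .ne 5 6 (.base (.tri 18 5 19)), .ne 5 11 (.base (.tri 18 5 19)),
  .ne 5 16 (.base (.tri 17 5 18)), .ne 6 10 (.base (.tri 11 6 19)), .ne 6 12 (.base (.tri 11 6
  19)), .ne 6 17 (.base (.tri 18 6 19)), .ne 9 17 (.base (.tri 10 9 16)), .ne 9 19 (.base (.tri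
  10 9 11)), .ne 10 18 (.base (.tri 11 10 19)), .ne 11 14 (.base (.tri 10 9 11)), .ne 11 15
  (.base (.tri 10 11 16)), .ne 11 17 (.base (.tri 11 18 19)), .ne 12 14 (.base (.tri 9 12 13)),
  .ne 12 16 (.base (.tri 10 12 11)), .ne 12 18 (.base (.tri 11 12 19)), .ne 13 15 (.base (.tri 9
  13 14)), .ne 13 16 (.base (.tri 9 13 10)), .ne 13 19 (.base (.tri 11 12 13)), .ne 14 17 (.base
  (.tri 15 14 16)), .ne 15 18 (.base (.tri 16 15 17)), .ne 16 19 (.base (.tri 16 17 18)), .ne 0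
  6 (.four 0 19 11 12), .ne 0 14 (.four 0 9 13 12), .ne 0 16 (.four 0 10 11 12), .ne 0 18 (.four
  0 19 11 12), .ne 1 2 (.four 1 13 9 14), .ne 1 15 (.four 1 13 9 14), .ne 1 16 (.four 1 10 9
  13), .ne 1 19 (.four 1 11 12 13), .ne 2 11 (.four 2 10 9 14), .ne 2 12 (.four 2 13 9 14), .ne
  2 17 (.four 2 16 15 14), .ne 3 4 (.four 3 17 16 15), .ne 3 11 (.four 3 10 16 15), .ne 3 13
  (.four 3 9 14 15), .ne 3 18 (.four 3 17 16 15), .ne 4 6 (.four 4 17 18 19), .ne 4 9 (.four 4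
  17 16 10), .ne 4 11 (.four 4 17 16 10), .ne 4 14 (.four 4 17 16 15), .ne 5 10 (.four 5 16 17
  18), .ne 5 12 (.four 5 18 19 11), .ne 5 15 (.four 5 16 17 18), .ne 6 9 (.four 6 10 11 19), .ne
  6 13 (.four 6 19 11 12), .ne 6 16 (.four 6 17 18 19), .ne 9 18 (.four 9 10 16 17), .ne 12 15
  (.four 12 11 10 16), .ne 12 17 (.four 12 11 10 16), .ne 13 17 (.four 13 9 10 16), .ne 13 18
  (.four 13 12 11 19), .ne 14 18 (.four 14 15 16 17), .ne 14 19 (.four 14 9 10 11), .ne 15 19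
  (.four 15 11 10 16), .ne 0 2 (.five 0 12 13 9 14), .ne 0 5 (.base (.corner 18 19 11 [12, 0]
  [10, 16, 17])), .ne 0 15 (.five 0 12 13 9 14), .ne 0 17 (.base (.corner 0 16 10 [11, 12] [9,
  13, 12])), .ne 1 3 (.base (.corner 1 13 9 [14, 15] [10, 16, 15])), .ne 1 6 (.base (.corner 1
  19 11 [12, 13] [10, 9, 13])), .ne 1 17 (.base (.corner 1 16 10 [9, 13] [11, 19, 18])), .ne 1
  18 (.base (.corner 1 13 12 [11, 19] [11, 10, 16, 17])), .ne 2 4 (.five 15 14 2 17 16), .ne 2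
  18 (.five 15 14 2 17 16), .ne 2 19 (.base (.corner 2 11 10 [9, 14] [16, 17, 18])), .ne 3 5
  (.base (.corner 18 17 16 [15, 3] [10, 11, 19])), .ne 3 12 (.base (.corner 3 11 10 [16, 15] [9,
  13])), .ne 3 19 (.base (.corner 3 18 17 [16, 15] [16, 10, 11])), .ne 4 12 (.base (.corner 4 17
  16 [10, 11] [10, 9, 13])), .ne 4 13 (.base (.corner 4 9 10 [16, 17] [11, 19, 18, 17])), .ne 5
  9 (.base (.corner 5 10 16 [17, 18] [15, 14])), .ne 5 13 (.base (.corner 5 9 10 [11, 12] [16,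
  17, 18])), .ne 5 14 (.base (.corner 5 9 10 [16, 15] [16, 17, 18])), .ne 6 14 (.base (.corner 6
  9 10 [16, 15] [16, 17, 18, 19])), .ne 6 15 (.base (.corner 19 18 17 [16, 6] [16, 10, 11])),
  .ne 0 3 (.base (.corner 0 12 11 [10, 16, 15] [10, 9, 14, 15])), .ne 0 4 (.base (.corner 0 17
  16 [10, 11, 12] [10, 9, 13, 12])), .ne 1 4 (.base (.corner 1 17 16 [10, 9, 13] [10, 11, 12,
  13])), .ne 1 5 (.base (.corner 1 18 19 [11, 12, 13] [11, 10, 9, 13])), .ne 2 5 (.base (.corner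
  2 18 17 [16, 15, 14] [16, 10, 9, 14])), .ne 2 6 (.base (.corner 2 19 11 [10, 9, 14] [10, 16,
  15, 14])), .ne 3 6 (.base (.corner 3 19 11 [10, 16, 15] [10, 9, 14, 15])), .cn 0 1 20 (.five 0
  12 13 1 20), .cn 2 3 20 (.five 2 14 15 3 20), .na 4 6 (.base (.corner 17 18 19 [6, 4] [11, 10,
  16]))]

/-- The corners of the two outer faces. -/
def cfR2 : List (ℕ × ℕ × ℕ) := [(13, 12, 0), (15, 14, 2)]

/-- The pairs of terminals which are joined. -/
def comR2 : List (ℕ × ℕ) := [(0, 1), (2, 3)]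

/-- The pairs of terminals which are joined to the same new vertex. -/
def badR2 : List (ℕ × ℕ) := [(4, 6)]

/-- The new vertices. -/
def nlR2 : List (ℕ × ℕ) := [(7, 17), (8, 18)]

/-- The paths of the new edges. -/
def psR2 : List (ℕ × List ℕ × ℕ) :=
  [(0, [12, 13], 1), (2, [14, 15], 3), (4, [], 17), (5, [], 18), (6, [19, 11, 10, 16], 17),
    (17, [], 18)]

theorem fin_R2 : finL R2 nlR2 [] comR2 badR2 cfR2 tsR2 = true := by
  decide +kernel

set_option synthInstance.maxSize 200000 in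
theorem data_R2 : Data R2 nlR2 psR2 [] [] comR2 badR2 := by
  constructor <;> decide

theorem ok_R2 : PsOk R2 nlR2 psR2 [] := by
  constructor <;> decide

theorem ext_R2 : R2.Ext [] := R2q_ext _ (by decide +kernel)

variable {V : Type} [Fintype V] [DecidableEq V] {G : SimpleGraph V} [DecidableRel G.Adj]
  {R : Rot G} {d : G.Dart}

/-- **The patch R2.** -/
theorem patch_R2 (hR : C5 R) (h13 : 13 ≤ Fintype.card V) (h : Good R d 5)
    (g0 : Good R (ac R d 0) 5) (g1 : Good R (ac R d 1) 6)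
    (k3 : sz R (ac R d 3) ≠ 5) (k0 : sz R (ac R (ac R d 0) 2) ≠ 5) :
    Patch G R2 nlR2 [] comR2 badR2 (fR2 R d) := by
  refine patch_of (hR.cls h13) (tabR2 h g0 g1) (by decide +kernel) ?_ fin_R2
  intro e he x y
  simp only [cfR2, List.mem_cons, List.not_mem_nil, or_false] at he
  rcases he with rfl | rfl
  · exact hR.no5a d 3 k3 x y
  · have := hR.no5a (ac R d 0) 2 k0 x y
    rwa [ac_X2] at this

/-- **The place R2.** -/
theorem good_R2 (hR : C5 R) (h13 : 13 ≤ Fintype.card V) (h : Good R d 5)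
    (g0 : Good R (ac R d 0) 5) (g1 : Good R (ac R d 1) 6)
    (k3 : sz R (ac R d 3) ≠ 5) (k0 : sz R (ac R (ac R d 0) 2) ≠ 5) :
    Uni91.Good (plc R2 nlR2 psR2 [] comR2 badR2 (fR2 R d)) G :=
  good_of ext_R2 data_R2 ok_R2 (patch_R2 hR h13 h g0 g1 k3 k0)

end Pool.Agent.U2Geo
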