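import Mathlib
import Pool.Agent.Work.MP_392c8e_co_uni.OnceLab
import Pool.Agent.Work.MP_392c8e_co_uni.PatchR2
import Pool.Agent.Work.MP_392c8e_co_uni.TabG
import Pool.Agent.Work.MP_392c8e_co_uni.TabG2R
import Pool.Agent.Work.MP_392c8e_co_uni.TabP
import Pool.Agent.Work.MP_392c8e_co_t1.Maps2

/-!
# The gaps of the patches

The lists of the gaps between consecutive leaving darts of the tables.
-/

namespace Pool.Agent.GapData

open Pool.Agent.Once392 Pool.Agent.T1FF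

/-- The gaps of three faces of length five in a row. -/
def gC : List Gp :=
  [⟨(7, 0), [(7, 8), (8, 9), (9, 10)], (10, 6), [(8, 9)]⟩, ⟨(10, 6), [(10, 14)], (14, 5),
    [(10, 14), (9, 13)]⟩, ⟨(14, 5), [(14, 17)], (17, 4), [(14, 17), (9, 13)]⟩, ⟨(17, 4),
    [(17, 13), (13, 16)], (16, 3), [(13, 16)]⟩, ⟨(16, 3), [(16, 12), (12, 15)], (15, 2),
    [(16, 12)]⟩, ⟨(15, 2), [(15, 11)], (11, 1), [(15, 11), (12, 8)]⟩, ⟨(11, 1), [(11, 7)], (7, 0),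
    [(11, 7), (12, 8)]⟩]

theorem gps_C : gps tC (8, 12) gC = true := by decide +kernel

theorem sp_C : (gC.all fun g => g.s.length ≤ 2) = true := by decide

/-- The gaps of three faces of length five in a row, second orientation. -/
def gCp : List Gp :=
  [⟨(7, 0), [(7, 11)], (11, 1), [(7, 11), (8, 12)]⟩, ⟨(11, 1), [(11, 15)], (15, 2), [(11, 15),
    (8, 12)]⟩, ⟨(15, 2), [(15, 12), (12, 16)], (16, 3), [(12, 16)]⟩, ⟨(16, 3), [(16, 13),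
    (13, 17)], (17, 4), [(16, 13)]⟩, ⟨(17, 4), [(17, 14)], (14, 5), [(17, 14), (13, 9)]⟩,
    ⟨(14, 5), [(14, 10)], (10, 6), [(14, 10), (13, 9)]⟩, ⟨(10, 6), [(10, 9), (9, 8), (8, 7)],
    (7, 0), [(9, 8)]⟩]

theorem gps_Cp : gps tC' (8, 9) gCp = true := by decide +kernel

theorem sp_Cp : (gCp.all fun g => g.s.length ≤ 2) = true := by decide

/-- The gaps of the flower. -/
def gFl : List Gp :=
  [⟨(15, 0), [(15, 10), (10, 19)], (19, 4), [(15, 10), (6, 5)]⟩, ⟨(19, 4), [(19, 14), (14, 18)],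
    (18, 3), [(19, 14), (5, 9)]⟩, ⟨(18, 3), [(18, 13), (13, 17)], (17, 2), [(18, 13), (9, 8)]⟩,
    ⟨(17, 2), [(17, 12), (12, 16)], (16, 1), [(17, 12), (8, 7)]⟩, ⟨(16, 1), [(16, 11), (11, 15)],
    (15, 0), [(16, 11), (7, 6)]⟩]

theorem gps_Fl : gps tfl (5, 6) gFl = true := by decide +kernel

theorem sp_Fl : (gFl.all fun g => g.s.length ≤ 2) = true := by decide

/-- The gaps of two faces of length five. -/
def gA1 : List Gp :=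
  [⟨(8, 0), [(8, 6), (6, 13)], (13, 5), [(8, 6)]⟩, ⟨(13, 5), [(13, 12)], (12, 4), [(13, 12),
    (6, 7)]⟩, ⟨(12, 4), [(12, 11)], (11, 3), [(12, 11), (6, 7)]⟩, ⟨(11, 3), [(11, 7), (7, 10)],
    (10, 2), [(7, 10)]⟩, ⟨(10, 2), [(10, 9)], (9, 1), [(10, 9)]⟩, ⟨(9, 1), [(9, 8)], (8, 0),
    [(9, 8)]⟩]

theorem gps_A1 : gps tA1 (6, 8) gA1 = true := by decide +kernel

theorem sp_A1 : (gA1.all fun g => g.s.length ≤ 2) = true := by decide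

/-- The gaps of R2. -/
def gR2 : List Gp :=
  [⟨(12, 0), [(12, 11), (11, 19)], (19, 6), [(11, 19)]⟩, ⟨(19, 6), [(19, 18)], (18, 5),
    [(19, 18)]⟩, ⟨(18, 5), [(18, 17)], (17, 4), [(18, 17)]⟩, ⟨(17, 4), [(17, 16), (16, 15)],
    (15, 3), [(17, 16)]⟩, ⟨(15, 3), [(15, 14)], (14, 2), [(15, 14), (16, 10)]⟩, ⟨(14, 2),
    [(14, 9), (9, 13)], (13, 1), [(14, 9), (16, 10)]⟩, ⟨(13, 1), [(13, 12)], (12, 0), [(13, 12),
    (10, 11)]⟩]

theorem gps_R2 : gps tR2 (10, 16) gR2 = true := by decide +kernel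

theorem sp_R2 : (gR2.all fun g => g.s.length ≤ 2) = true := by decide

/-- The gaps of G1. -/
def gG1 : List Gp :=
  [⟨(14, 0), [(14, 13), (13, 23)], (23, 8), [(14, 13)]⟩, ⟨(23, 8), [(23, 22)], (22, 7), [(23, 22),
    (13, 12)]⟩, ⟨(22, 7), [(22, 21)], (21, 6), [(22, 21), (13, 12)]⟩, ⟨(21, 6), [(21, 12),
    (12, 11), (11, 20)], (20, 5), [(12, 11)]⟩, ⟨(20, 5), [(20, 19)], (19, 4), [(20, 19),
    (11, 10)]⟩, ⟨(19, 4), [(19, 18), (18, 17)], (17, 3), [(19, 18), (11, 10)]⟩, ⟨(17, 3),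
    [(17, 16)], (16, 2), [(17, 16), (10, 9)]⟩, ⟨(16, 2), [(16, 9), (9, 15)], (15, 1), [(9, 15)]⟩,
    ⟨(15, 1), [(15, 14)], (14, 0), [(15, 14)]⟩]

theorem gps_G1 : gps tG1 (9, 10) gG1 = true := by decide +kernel

theorem sp_G1 : (gG1.all fun g => g.s.length ≤ 2) = true := by decide

/-- The gaps of G2. -/
def gG2 : List Gp :=
  [⟨(12, 5), [(12, 11), (11, 20)], (20, 4), [(12, 11)]⟩, ⟨(20, 4), [(20, 19)], (19, 3), [(20, 19),
    (11, 10)]⟩, ⟨(19, 3), [(19, 18), (18, 17)], (17, 2), [(19, 18), (11, 10)]⟩, ⟨(17, 2),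
    [(17, 16)], (16, 1), [(17, 16), (10, 9)]⟩, ⟨(16, 1), [(16, 9), (9, 15)], (15, 0), [(9, 15)]⟩,
    ⟨(15, 0), [(15, 14), (14, 23)], (23, 8), [(15, 14)]⟩, ⟨(23, 8), [(23, 22)], (22, 7),
    [(23, 22), (14, 13)]⟩, ⟨(22, 7), [(22, 21)], (21, 6), [(22, 21), (14, 13)]⟩, ⟨(21, 6),
    [(21, 13), (13, 12)], (12, 5), [(13, 12)]⟩]

theorem gps_G2 : gps tG2 (9, 10) gG2 = true := by decide +kernel

theorem sp_G2 : (gG2.all fun g => g.s.length ≤ 2) = true := by decide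

/-- The gaps of G2R. -/
def gG2R : List Gp :=
  [⟨(13, 6), [(13, 12), (12, 21)], (21, 5), [(13, 12)]⟩, ⟨(21, 5), [(21, 20)], (20, 4), [(21, 20),
    (12, 11)]⟩, ⟨(20, 4), [(20, 19), (19, 18)], (18, 3), [(20, 19), (12, 11)]⟩, ⟨(18, 3),
    [(18, 17)], (17, 2), [(18, 17), (11, 10)]⟩, ⟨(17, 2), [(17, 10), (10, 16)], (16, 1),
    [(10, 16)]⟩, ⟨(16, 1), [(16, 15), (15, 24)], (24, 0), [(16, 15)]⟩, ⟨(24, 0), [(24, 23),
    (23, 27)], (27, 9), [(24, 23), (15, 14)]⟩, ⟨(27, 9), [(27, 26)], (26, 8), [(27, 26), (23, 22),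
    (15, 14)]⟩, ⟨(26, 8), [(26, 25)], (25, 7), [(26, 25), (23, 22), (15, 14)]⟩, ⟨(25, 7),
    [(25, 22), (22, 14), (14, 13)], (13, 6), [(14, 13)]⟩]

theorem gps_G2R : gps tG2R (10, 11) gG2R = true := by decide +kernel

/-- The gaps of G3. -/
def gG3 : List Gp :=
  [⟨(17, 0), [(17, 16), (16, 26)], (26, 9), [(17, 16)]⟩, ⟨(26, 9), [(26, 25)], (25, 8), [(26, 25),
    (16, 15)]⟩, ⟨(25, 8), [(25, 24)], (24, 7), [(25, 24), (16, 15)]⟩, ⟨(24, 7), [(24, 15),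
    (15, 14), (14, 23)], (23, 6), [(15, 14)]⟩, ⟨(23, 6), [(23, 22)], (22, 5), [(23, 22),
    (14, 13)]⟩, ⟨(22, 5), [(22, 21)], (21, 4), [(22, 21), (14, 13)]⟩, ⟨(21, 4), [(21, 13),
    (13, 12), (12, 20)], (20, 3), [(13, 12)]⟩, ⟨(20, 3), [(20, 19)], (19, 2), [(20, 19),
    (12, 11)]⟩, ⟨(19, 2), [(19, 18)], (18, 1), [(19, 18), (12, 11)]⟩, ⟨(18, 1), [(18, 11),
    (11, 17)], (17, 0), [(11, 17)]⟩]

theorem gps_G3 : gps tG3 (11, 12) gG3 = true := by decide +kernel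

theorem sp_G3 : (gG3.all fun g => g.s.length ≤ 2) = true := by decide

/-- The gaps of P1. -/
def gP1 : List Gp :=
  [⟨(15, 0), [(15, 14), (14, 25)], (25, 8), [(15, 14)]⟩, ⟨(25, 8), [(25, 24)], (24, 7), [(25, 24),
    (14, 13)]⟩, ⟨(24, 7), [(24, 23), (23, 22)], (22, 6), [(24, 23), (14, 13)]⟩, ⟨(22, 6),
    [(22, 21)], (21, 5), [(22, 21), (13, 12)]⟩, ⟨(21, 5), [(21, 12), (12, 11), (11, 20)], (20, 4),
    [(12, 11)]⟩, ⟨(20, 4), [(20, 19)], (19, 3), [(20, 19), (11, 10)]⟩, ⟨(19, 3), [(19, 18),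
    (18, 17)], (17, 2), [(19, 18), (11, 10)]⟩, ⟨(17, 2), [(17, 16)], (16, 1), [(17, 16),
    (10, 9)]⟩, ⟨(16, 1), [(16, 9), (9, 15)], (15, 0), [(9, 15)]⟩]

theorem gps_P1 : gps tP1 (9, 10) gP1 = true := by decide +kernel

theorem sp_P1 : (gP1.all fun g => g.s.length ≤ 2) = true := by decide

/-- The gaps of P2. -/
def gP2 : List Gp :=
  [⟨(17, 0), [(17, 10), (10, 16), (16, 27)], (27, 9), [(10, 16)]⟩, ⟨(27, 9), [(27, 26)], (26, 8),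
    [(27, 26), (16, 15)]⟩, ⟨(26, 8), [(26, 25)], (25, 7), [(26, 25), (16, 15)]⟩, ⟨(25, 7),
    [(25, 15), (15, 14), (14, 24)], (24, 6), [(15, 14)]⟩, ⟨(24, 6), [(24, 23)], (23, 5),
    [(24, 23), (14, 13)]⟩, ⟨(23, 5), [(23, 22)], (22, 4), [(23, 22), (14, 13)]⟩, ⟨(22, 4),
    [(22, 13), (13, 12), (12, 21)], (21, 3), [(13, 12)]⟩, ⟨(21, 3), [(21, 20)], (20, 2),
    [(21, 20), (12, 11)]⟩, ⟨(20, 2), [(20, 19), (19, 18)], (18, 1), [(20, 19), (12, 11)]⟩,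
    ⟨(18, 1), [(18, 17)], (17, 0), [(18, 17), (11, 10)]⟩]

theorem gps_P2 : gps tP2 (10, 11) gP2 = true := by decide +kernel

theorem sp_P2 : (gP2.all fun g => g.s.length ≤ 2) = true := by decide

end Pool.Agent.GapData
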