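import Mathlib
import Pool.Agent.Work.MP_392c8e_co_uni.GeoC4c
import Pool.Agent.Work.MP_392c8e_co_uni.GeoCross

/-!
# Closed walks in cyclically 4-edge-connected cubic plane graphs, far from the faces of length four
-/

namespace Pool.Agent.U2Geo

open Finset Pool.Agent.Sub392 Pool.T1Side Pool.Agent.T392 Pool.Agent.T1FF

set_option linter.unusedSectionVars false

variable {V : Type} [Fintype V] [DecidableEq V] {G : SimpleGraph V} [DecidableRel G.Adj]
  {R : Rot G}

/-- **The facts about closed walks.** -/
theorem C4.clsT (hh : C4 R) : ClsT R (N4 R 8) where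
  cub := hh.cub
  tri := hh.tri
  lr := lr_of R hh.cub
  four := hh.four
  seven := hh.seven
  corner := hh.corner
  five := hh.five
  eight := hh.eight
  cross := cross_of hh.plane hh.cub

end Pool.Agent.U2Geo
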