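import Mathlib
import Pool.Agent.Work.MP_392c8e_co_uni.OnceLab
import Pool.Agent.Work.MP_392c8e_co_uni.BDefs

/-!
# The lengths of the faces around a labelled patch

The face across the `n`-th edge of a face is found in labels; so the lengths of the outer faces
are lengths of neighbours of the faces inside.
-/

namespace Pool.Agent.Once392

open Finset Pool.Agent.Sub392 Pool.Agent.T392 Pool.Agent.Disch392 Pool.Agent.DischB

set_option linter.unusedSectionVars false

variable {V : Type} [Fintype V] [DecidableEq V] {G : SimpleGraph V} [DecidableRel G.Adj]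
  {R : Rot G} {f : ℕ → V} {N : List (ℕ × ℕ × ℕ × ℕ)} {K : ℕ}

/-- The dart across the `n`-th edge, in labels. -/
def adN (N : List (ℕ × ℕ × ℕ × ℕ)) (n : ℕ) (q : ℕ × ℕ) : Option (ℕ × ℕ) :=
  (itN N n q).map Prod.swap

theorem adN_ok (hN : RotOk R f N) {n : ℕ} {q q' : ℕ × ℕ} (h : adN N n q = some q') {d : G.Dart}
    (hd : Dt f q d) : Dt f q' (ad R d n) := by
  unfold adN at h
  obtain ⟨p, hp, rfl⟩ := Option.map_eq_some_iff.1 h
  exact (itN_ok hN hp hd).swap

/-- Several faces. -/
def adL (R : Rot G) : List ℕ → G.Dart → G.Dart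
  | [], d => d
  | n :: l, d => adL R l (ad R d n)

/-- Several faces, in labels. -/
def adLN (N : List (ℕ × ℕ × ℕ × ℕ)) : List ℕ → ℕ × ℕ → Option (ℕ × ℕ)
  | [], q => some q
  | n :: l, q => (adN N n q).bind (adLN N l)

theorem adLN_ok (hN : RotOk R f N) {l : List ℕ} {q q' : ℕ × ℕ} (h : adLN N l q = some q')
    {d : G.Dart} (hd : Dt f q d) : Dt f q' (adL R l d) := by
  induction l generalizing q d with
  | nil =>
    obtain rfl := Option.some.inj h
    exact hd
  | cons n l ih =>
    obtain ⟨p, hp, h1⟩ := Option.bind_eq_some_iff.1 h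
    exact ih h1 (adN_ok hN hp hd)

theorem sF_sz (hN : RotOk R f N) {q q' : ℕ × ℕ} (h : sF N q q' = true) {d d' : G.Dart}
    (hd : Dt f q d) (hd' : Dt f q' d') : sz R d' = sz R d := by
  unfold sz
  rw [sF_ok hN h hd hd']

/-- The dart `t` lies on the face which is reached from `q` by `l`. -/
def posN (N : List (ℕ × ℕ × ℕ × ℕ)) (l : List ℕ) (q t : ℕ × ℕ) : Bool :=
  match adLN N l q with
  | some p => sF N p t
  | none => false

/-- **The length of an outer face.** -/
theorem pos_sz (hN : RotOk R f N) {l : List ℕ} {q t : ℕ × ℕ} (h : posN N l q t = true)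
    {d b : G.Dart} (hd : Dt f q d) (hb : Dt f t b) : sz R b = sz R (adL R l d) := by
  unfold posN at h
  split at h
  · rename_i p hp
    exact sF_sz hN h (adLN_ok hN hp hd) hb
  · exact absurd h (by simp)

/-- Every dart of the second list lies on a face across one of the first five edges of a face of
the first list. -/
def chkSz (N : List (ℕ × ℕ × ℕ × ℕ)) (src tgt : List (ℕ × ℕ)) : Bool :=
  tgt.all fun t => src.any fun s => (List.range 5).any fun n => posN N [n] s t

/-- **Short outer faces.** -/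
theorem short_of (hN : RotOk R f N) {src tgt : List (ℕ × ℕ)}
    (hs : ∀ q ∈ src, ∃ e, Dt f q e ∧ ∀ i < 5, nb R e i < K) (h : chkSz N src tgt = true) :
    ∀ q ∈ tgt, ∀ b, Dt f q b → sz R b < K := by
  intro t ht b hb
  unfold chkSz at h
  rw [List.all_eq_true] at h
  have h1 := h t ht
  rw [List.any_eq_true] at h1
  obtain ⟨s, hsm, h2⟩ := h1
  rw [List.any_eq_true] at h2
  obtain ⟨n, hn, h3⟩ := h2
  obtain ⟨e, he, he5⟩ := hs s hsm
  rw [pos_sz hN h3 he hb]
  exact he5 n (List.mem_range.1 hn)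

/-- Every dart of the second list lies across one of the first five edges of one of the faces which
are reached from `q` by the lists `Ls`. -/
def chkSh (N : List (ℕ × ℕ × ℕ × ℕ)) (q : ℕ × ℕ) (Ls : List (List ℕ)) (sh : List (ℕ × ℕ)) : Bool :=
  sh.all fun c => Ls.any fun l => (List.range 5).any fun n => adLN N (l ++ [n]) q == some c

theorem adL_append (R : Rot G) (l : List ℕ) (n : ℕ) (d : G.Dart) :
    adL R (l ++ [n]) d = ad R (adL R l d) n := by
  induction l generalizing d with
  | nil => rfl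
  | cons m l ih => exact ih _

/-- **Short positions** (the darts are seen from outside). -/
theorem shorts (hN : RotOk R f N) {q : ℕ × ℕ} {d : G.Dart} (hd : Dt f q d) {Ls : List (List ℕ)}
    {sh : List (ℕ × ℕ)} (hs : ∀ l ∈ Ls, ∀ i < 5, nb R (adL R l d) i < K)
    (h : chkSh N q Ls sh = true) : ∀ c ∈ sh, ∃ e, Dt f c e ∧ sz R e ≤ K := by
  intro c hc
  unfold chkSh at h
  rw [List.all_eq_true] at h
  have h1 := h c hc
  rw [List.any_eq_true] at h1
  obtain ⟨l, hl, h2⟩ := h1
  rw [List.any_eq_true] at h2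
  obtain ⟨n, hn, h3⟩ := h2
  rw [beq_iff_eq] at h3
  refine ⟨adL R (l ++ [n]) d, adLN_ok hN h3 hd, ?_⟩
  rw [adL_append]
  exact (hs l hl n (List.mem_range.1 hn)).le

/-- The dart of a face across, in labels. -/
theorem dt_adL (hN : RotOk R f N) {q q' : ℕ × ℕ} {d : G.Dart} (hd : Dt f q d) (l : List ℕ)
    (h : adLN N l q = some q') : Dt f q' (adL R l d) := adLN_ok hN h hd

/-- The darts across the edges of the faces reached by `Ls`, and the darts reached by `Ls'`. -/
def shOf (N : List (ℕ × ℕ × ℕ × ℕ)) (q : ℕ × ℕ) (Ls Ls' : List (List ℕ)) : List (ℕ × ℕ) :=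
  (Ls.flatMap fun l => (List.range 5).filterMap fun n => adLN N (l ++ [n]) q) ++
    Ls'.filterMap fun l => adLN N l q

/-- **All short positions** next to the faces reached by `Ls` (all neighbours are short) and the
positions reached by `Ls'` (short themselves). -/
theorem shOf_ok (hN : RotOk R f N) {q : ℕ × ℕ} {d : G.Dart} (hd : Dt f q d)
    {Ls Ls' : List (List ℕ)} (hs : ∀ l ∈ Ls, ∀ i < 5, nb R (adL R l d) i < K)
    (hs' : ∀ l ∈ Ls', sz R (adL R l d) ≤ K) :
    ∀ c ∈ shOf N q Ls Ls', ∃ e : G.Dart, Dt f c e ∧ sz R e ≤ K := by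
  intro c hc
  unfold shOf at hc
  rw [List.mem_append, List.mem_flatMap, List.mem_filterMap] at hc
  rcases hc with ⟨l, hl, h1⟩ | ⟨l, hl, h1⟩
  · rw [List.mem_filterMap] at h1
    obtain ⟨n, hn, h2⟩ := h1
    refine ⟨adL R (l ++ [n]) d, adLN_ok hN h2 hd, ?_⟩
    rw [adL_append]
    exact (hs l hl n (List.mem_range.1 hn)).le
  · exact ⟨adL R l d, adLN_ok hN h1 hd, hs' l hl⟩

/-- More short positions. -/
theorem shOf_mono {S S' : List (ℕ × ℕ)} (h : (S.all fun c => S'.elem c) = true)
    (hS : ∀ c ∈ S', ∃ e : G.Dart, Dt f c e ∧ sz R e ≤ K) :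
    ∀ c ∈ S, ∃ e : G.Dart, Dt f c e ∧ sz R e ≤ K := by
  intro c hc
  rw [List.all_eq_true] at h
  exact hS c (by simpa using h c hc)

end Pool.Agent.Once392
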