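import Pool.Agent.Work.MP_392c8e_co_t1.Inst.Split
import Pool.Agent.Work.MP_392c8e_co_t1.Apply

/-!
# Reducers with gain: a face of length seven with three neighbours of length five

`G1c`: neighbours of length five across the edges 0, 1, 3 (one free terminal); `G3`: across the
edges 0, 2, 4 (one new vertex, one free terminal).
-/

namespace Pool.Agent.T1Red

set_option synthInstance.maxSize 200000

/-- A face of length seven with neighbours of length five across 0, 1, 3; terminal 7 is free. -/
def G1c : Red where
  t := 9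
  m := 15
  ed :=
    [(9, 10), (9, 15), (9, 16), (10, 11), (10, 18), (11, 12), (11, 20), (12, 13), (12, 21), (13,
    14), (13, 23), (14, 15), (16, 17), (17, 18), (18, 19), (19, 20), (21, 22), (22, 23), (14, 0),
    (15, 1), (16, 2), (17, 3), (19, 4), (20, 5), (21, 6), (22, 7), (23, 8)]
  nw := [(0, 1), (2, 3), (4, 5), (6, 8)]
  ne := [128, 0, 0, 0, 0, 0, 128, 321, 128]

/-- A face of length seven with neighbours of length five across 0, 2, 4; the label 10 is a new
vertex, terminal 4 is free. -/
def G3 : Red where
  t := 11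
  m := 16
  ed :=
    [(11, 12), (11, 17), (11, 18), (12, 13), (12, 20), (13, 14), (13, 21), (14, 15), (14, 23),
    (15, 16), (15, 24), (16, 17), (16, 26), (18, 19), (19, 20), (21, 22), (22, 23), (24, 25),
    (25, 26), (17, 0), (18, 1), (19, 2), (20, 3), (21, 4), (22, 5), (23, 6), (24, 7), (25, 8),
    (26, 9)]
  nw := [(0, 10), (1, 10), (9, 10), (2, 3), (7, 8), (5, 6)]
  ne := [0, 4, 2, 512, 32, 16, 0, 0, 512, 264, 0]

theorem G1c_data : Data G1c []
    [(0, [14, 15], 1), (2, [16, 17], 3), (4, [19, 20], 5), (6, [21, 22, 23], 8)] [] []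
    [(0, 1), (2, 3), (4, 5), (6, 8)] [] := by
  constructor <;> decide

theorem G3_data : Data G3 [(10, 17)]
    [(0, [], 17), (17, [11, 18], 1), (17, [16, 26], 9), (2, [19, 20], 3), (7, [24, 25], 8),
      (5, [22, 23], 6)] [] []
    [(2, 3), (7, 8), (5, 6)] [(0, 1), (0, 9), (1, 9)] := by
  constructor <;> decide

end Pool.Agent.T1Red
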