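import Mathlib
import Pool.Agent.Work.MP_392c8e_co_uni.RingSz
import Pool.Agent.Work.MP_392c8e_co_uni.RotTabs

/-!
# Short outer faces of the patches

In the lines of the table all neighbours of some faces of the patch are short.
-/

namespace Pool.Agent.Once392

open Finset Pool.Agent.Sub392 Pool.Agent.T392 Pool.Agent.Disch392 Pool.Agent.DischB
open Pool.Agent.T1FF (X Y ac snd_pow fA fA' fB fB' ffl fG1 fG2 fG2m fG2R fG3 fP1 fP2 tA1 tA2 tC tC'
  tfl tG1 tG2 tG2m tG2R tG3 tP1 tP2)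

set_option linter.unusedSectionVars false

variable {V : Type} [Fintype V] [DecidableEq V] {G : SimpleGraph V} [DecidableRel G.Adj]
  {R : Rot G} {d : G.Dart} {K : ℕ}

/-- Every position of the list is short. -/
def ShOk (R : Rot G) (K : ℕ) (f : ℕ → V) (S : List (ℕ × ℕ)) : Prop :=
  ∀ c ∈ S, ∃ e : G.Dart, Dt f c e ∧ sz R e ≤ K

/-! ### The labels of the dart -/

theorem dt_X (R : Rot G) (d : G.Dart) (n : ℕ) {f : ℕ → V} {q : ℕ × ℕ} (h1 : f q.1 = X R d n)
    (h2 : f q.2 = X R d (n + 1)) : Dt f q ((R.next ^ n) d) :=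
  ⟨h1.symm, by rw [h2]; exact snd_pow R d n⟩

theorem dt_fG1 : Dt (fG1 R d) (9, 10) d := dt_X R d 0 rfl rfl

theorem dt_fG2 : Dt (fG2 R d) (9, 10) d := dt_X R d 0 rfl rfl

theorem dt_fG2m : Dt (fG2m R d) (14, 13) d := dt_X R d 0 rfl rfl

theorem dt_fG2R : Dt (fG2R R d) (10, 11) d := dt_X R d 0 rfl rfl

theorem dt_fG3 : Dt (fG3 R d) (11, 12) d := dt_X R d 0 rfl rfl

theorem dt_fP1 : Dt (fP1 R d) (9, 10) d := dt_X R d 0 rfl rfl

theorem dt_fP2 : Dt (fP2 R d) (10, 11) d := dt_X R d 0 rfl rfl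

theorem dt_ffl : Dt (ffl R d) (5, 6) d := dt_X R d 0 rfl rfl

theorem dt_fA : Dt (fA R d) (7, 6) d := dt_X R d 0 rfl rfl

theorem dt_fB : Dt (fB R d) (12, 8) d := dt_X R d 0 rfl rfl

theorem dt_fB' : Dt (fB' R d) (12, 8) d := dt_X R d 0 rfl rfl

/-! ### The lines of the table

`Bf R K e`: all five neighbours of the face of `e` are short. -/

section

variable {f : ℕ → V} {N : List (ℕ × ℕ × ℕ × ℕ)} {q : ℕ × ℕ} {Ls Ls' : List (List ℕ)}

/-- Short positions next to faces of length five without long neighbours. -/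
theorem shOk_of (hN : RotOk R f N) (hd : Dt f q d) (hs : ∀ l ∈ Ls, Bf R K (adL R l d))
    (hs' : ∀ l ∈ Ls', sz R (adL R l d) ≤ K) : ShOk R K f (shOf N q Ls Ls') :=
  shOf_ok hN hd (fun l hl => (hs l hl).2) hs'

theorem ShOk.mono {S S' : List (ℕ × ℕ)} (hS : ShOk R K f S')
    (h : (S.all fun c => S'.elem c) = true) : ShOk R K f S := shOf_mono h hS

end

/-- The short positions of G1c. -/
def shG1 : List (ℕ × ℕ) := shOf tG1 (9, 10) [[0], [1], [3]] []

theorem shOk_G1 (hN : RotOk R (fG1 R d) tG1) (h0 : Bf R K (ad R d 0)) (h1 : Bf R K (ad R d 1))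
    (h3 : Bf R K (ad R d 3)) : ShOk R K (fG1 R d) shG1 := by
  refine shOk_of hN dt_fG1 ?_ (by simp)
  intro l hl
  simp only [List.mem_cons, List.not_mem_nil, or_false] at hl
  rcases hl with rfl | rfl | rfl <;> assumption

/-- The short positions of G2. -/
def shG2 : List (ℕ × ℕ) := shOf tG2 (9, 10) [[0], [1], [4]] []

theorem shOk_G2 (hN : RotOk R (fG2 R d) tG2) (h0 : Bf R K (ad R d 0)) (h1 : Bf R K (ad R d 1))
    (h4 : Bf R K (ad R d 4)) : ShOk R K (fG2 R d) shG2 := by
  refine shOk_of hN dt_fG2 ?_ (by simp)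
  intro l hl
  simp only [List.mem_cons, List.not_mem_nil, or_false] at hl
  rcases hl with rfl | rfl | rfl <;> assumption

/-- The short positions of the mirror image of G2. -/
def shG2m : List (ℕ × ℕ) := shOf tG2m (14, 13) [[0], [3], [4]] []

theorem shOk_G2m (hN : RotOk R (fG2m R d) tG2m) (h0 : Bf R K (ad R d 0))
    (h3 : Bf R K (ad R d 3)) (h4 : Bf R K (ad R d 4)) : ShOk R K (fG2m R d) shG2m := by
  refine shOk_of hN dt_fG2m ?_ (by simp)
  intro l hl
  simp only [List.mem_cons, List.not_mem_nil, or_false] at hl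
  rcases hl with rfl | rfl | rfl <;> assumption

/-- The short positions of G2R. -/
def shG2R : List (ℕ × ℕ) := shOf tG2R (10, 11) [[0], [1], [4]] []

theorem shOk_G2R (hN : RotOk R (fG2R R d) tG2R) (h0 : Bf R K (ad R d 0))
    (h1 : Bf R K (ad R d 1)) (h4 : Bf R K (ad R d 4)) : ShOk R K (fG2R R d) shG2R := by
  refine shOk_of hN dt_fG2R ?_ (by simp)
  intro l hl
  simp only [List.mem_cons, List.not_mem_nil, or_false] at hl
  rcases hl with rfl | rfl | rfl <;> assumption

/-- The short positions of G3. -/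
def shG3 : List (ℕ × ℕ) := shOf tG3 (11, 12) [[0], [2], [4]] []

theorem shOk_G3 (hN : RotOk R (fG3 R d) tG3) (h0 : Bf R K (ad R d 0)) (h2 : Bf R K (ad R d 2))
    (h4 : Bf R K (ad R d 4)) : ShOk R K (fG3 R d) shG3 := by
  refine shOk_of hN dt_fG3 ?_ (by simp)
  intro l hl
  simp only [List.mem_cons, List.not_mem_nil, or_false] at hl
  rcases hl with rfl | rfl | rfl <;> assumption

/-- The short positions of P1. -/
def shP1 : List (ℕ × ℕ) := shOf tP1 (9, 10) [[0], [1], [3], [4]] []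

theorem shOk_P1 (hN : RotOk R (fP1 R d) tP1) (h0 : Bf R K (ad R d 0)) (h1 : Bf R K (ad R d 1))
    (h3 : Bf R K (ad R d 3)) (h4 : Bf R K (ad R d 4)) : ShOk R K (fP1 R d) shP1 := by
  refine shOk_of hN dt_fP1 ?_ (by simp)
  intro l hl
  simp only [List.mem_cons, List.not_mem_nil, or_false] at hl
  rcases hl with rfl | rfl | rfl | rfl <;> assumption

/-- The short positions of P2: three of the four faces have no long neighbour. -/
def shP2 (a b c : ℕ) : List (ℕ × ℕ) := shOf tP2 (10, 11) [[a], [b], [c]] []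

theorem shOk_P2 {a b c : ℕ} (hN : RotOk R (fP2 R d) tP2) (ha : Bf R K (ad R d a))
    (hb : Bf R K (ad R d b)) (hc : Bf R K (ad R d c)) : ShOk R K (fP2 R d) (shP2 a b c) := by
  refine shOk_of hN dt_fP2 ?_ (by simp)
  intro l hl
  simp only [List.mem_cons, List.not_mem_nil, or_false] at hl
  rcases hl with rfl | rfl | rfl <;> assumption

/-- The short positions of two adjacent faces of length five: the second one has no long
neighbour, or the first one. -/
def shA (l : List ℕ) (Ls' : List (List ℕ)) : List (ℕ × ℕ) := shOf tA1 (7, 6) [l] Ls'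

theorem shOk_A {l : List ℕ} {Ls' : List (List ℕ)} (hN : RotOk R (fA R d) tA1)
    (h : Bf R K (adL R l d)) (h' : ∀ l ∈ Ls', sz R (adL R l d) ≤ K) :
    ShOk R K (fA R d) (shA l Ls') := by
  refine shOk_of hN dt_fA ?_ h'
  intro l' hl
  rw [List.mem_singleton] at hl
  subst hl
  exact h

end Pool.Agent.Once392
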