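import Mathlib
import Pool.Agent.Work.MP_392c8e_co_uni.NoFive
import Pool.Agent.Work.MP_392c8e_co_uni.LinesB
import Pool.Agent.Work.MP_392c8e_co_uni.RingShB
import Pool.Agent.Work.MP_392c8e_co_uni.RedG
import Pool.Agent.Work.MP_392c8e_co_uni.TabG
import Pool.Agent.Work.MP_392c8e_co_uni.RotTabs

/-!
# The patch G1 in cyclically 4-edge-connected graphs
-/

namespace Pool.Agent.U2Geo

open Finset Pool.Agent.Sub392 Pool.T1Side Pool.Agent.T392 Pool.Agent.T1FF Pool.Agent.T1Red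
open Pool.Agent.Once392 (RotOk Dt adL dt_fG1 dt_fG3 dt_fP1)
open Pool.Agent.DischB (Pair7 HypP1)
open Pool.Agent.Disch392 (nb ad)

set_option linter.unusedSectionVars false

/-- The corners of outer faces which have not length five. -/
def FG1T : List (ℕ × ℕ × ℕ) := [(15, 14, 0), (17, 16, 2), (20, 19, 4), (12, 11, 20)]

/-- Steps. -/
def G1T0_st : List StepT :=
  [.ne 0 1 (.base (.tri 0 14 15)), .ne 0 9 (.base (.tri 0 14 15)),
  .ne 0 12 (.base (.tri 0 13 14)), .ne 0 23 (.base (.tri 0 13 14)),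
  .ne 1 10 (.base (.tri 1 9 15)), .ne 1 13 (.base (.tri 1 14 15)), .ne 1 16 (.base (.tri 1 9 15)),
  .ne 2 3 (.base (.tri 2 16 17)), .ne 2 10 (.base (.tri 2 9 16)), .ne 2 15 (.base (.tri 2 9 16)),
  .ne 2 18 (.base (.tri 2 16 17)), .ne 3 9 (.base (.tri 3 16 17)),
  .ne 3 10 (.base (.tri 3 17 18)), .ne 3 19 (.base (.tri 3 17 18)),
  .ne 4 5 (.base (.tri 4 19 20)), .ne 4 10 (.base (.tri 4 18 19)),
  .ne 4 11 (.base (.tri 4 19 20)), .ne 4 17 (.base (.tri 4 18 19)),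
  .ne 5 10 (.base (.tri 5 11 20)), .ne 5 12 (.base (.tri 5 11 20)),
  .ne 5 18 (.base (.tri 5 19 20)), .ne 6 7 (.base (.tri 6 21 22)),
  .ne 6 11 (.base (.tri 6 12 21)), .ne 6 13 (.base (.tri 6 12 21)),
  .ne 6 23 (.base (.tri 6 21 22)), .ne 7 8 (.base (.tri 7 22 23)),
  .ne 7 12 (.base (.tri 7 21 22)), .ne 7 13 (.base (.tri 7 22 23)),
  .ne 8 12 (.base (.tri 8 13 23)), .ne 8 14 (.base (.tri 8 13 23)),
  .ne 8 21 (.base (.tri 8 22 23)), .ne 9 12 (.base (.tri 9 10 11)),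
  .ne 9 13 (.base (.tri 9 14 15)), .ne 9 19 (.base (.tri 9 10 18)),
  .ne 9 20 (.base (.tri 9 10 11)), .ne 10 13 (.base (.tri 10 11 12)),
  .ne 10 14 (.base (.tri 10 9 15)), .ne 10 21 (.base (.tri 10 11 12)),
  .ne 11 14 (.base (.tri 11 12 13)), .ne 11 15 (.base (.tri 11 9 10)),
  .ne 11 16 (.base (.tri 11 9 10)), .ne 11 17 (.base (.tri 11 10 18)),
  .ne 11 22 (.base (.tri 11 12 21)), .ne 11 23 (.base (.tri 11 12 13)),
  .ne 12 15 (.base (.tri 12 13 14)), .ne 12 18 (.base (.tri 12 10 11)),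
  .ne 12 19 (.base (.tri 12 11 20)), .ne 13 20 (.base (.tri 13 11 12)),
  .ne 14 16 (.base (.tri 14 9 15)), .ne 14 21 (.base (.tri 14 12 13)),
  .ne 14 22 (.base (.tri 14 13 23)), .ne 15 17 (.base (.tri 15 9 16)),
  .ne 15 18 (.base (.tri 15 9 10)), .ne 15 23 (.base (.tri 15 13 14)),
  .ne 16 19 (.base (.tri 16 17 18)), .ne 17 20 (.base (.tri 17 18 19)),
  .ne 20 21 (.base (.tri 20 11 12)), .ne 0 8 (.four 0 14 13 23), .ne 0 10 (.four 0 9 15 14),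
  .ne 0 11 (.four 0 12 13 14), .ne 0 16 (.four 0 9 15 14), .ne 0 21 (.four 0 12 13 14),
  .ne 0 22 (.four 0 14 13 23), .ne 1 2 (.four 1 15 9 16), .ne 1 11 (.four 1 10 9 15),
  .ne 1 12 (.four 1 13 14 15), .ne 1 17 (.four 1 15 9 16), .ne 1 18 (.four 1 10 9 15),
  .ne 1 23 (.four 1 13 14 15), .ne 2 11 (.four 2 10 9 16), .ne 2 14 (.four 2 15 9 16),
  .ne 2 19 (.four 2 16 17 18), .ne 3 4 (.four 3 17 18 19), .ne 3 11 (.four 3 10 18 17),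
  .ne 3 15 (.four 3 9 16 17), .ne 3 20 (.four 3 17 18 19), .ne 4 9 (.four 4 10 18 19),
  .ne 4 12 (.four 4 11 20 19), .ne 4 16 (.four 4 17 18 19), .ne 5 9 (.four 5 10 11 20),
  .ne 5 13 (.four 5 12 11 20), .ne 5 17 (.four 5 18 19 20), .ne 5 21 (.four 5 12 11 20),
  .ne 6 8 (.four 6 21 22 23), .ne 6 10 (.four 6 11 12 21), .ne 6 14 (.four 6 13 12 21),
  .ne 6 20 (.four 6 11 12 21), .ne 7 11 (.four 7 12 21 22), .ne 7 14 (.four 7 13 23 22),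
  .ne 8 11 (.four 8 12 13 23), .ne 8 15 (.four 8 14 13 23), .ne 9 21 (.four 9 10 11 12),
  .ne 9 23 (.four 9 13 14 15), .ne 10 22 (.four 10 11 12 21), .ne 10 23 (.four 10 11 12 13),
  .ne 12 16 (.four 12 9 10 11), .ne 12 17 (.four 12 11 10 18), .ne 13 16 (.four 13 9 15 14),
  .ne 13 18 (.four 13 10 11 12), .ne 13 19 (.four 13 12 11 20), .ne 14 17 (.four 14 15 9 16),
  .ne 14 18 (.four 14 10 9 15), .ne 14 20 (.four 14 11 12 13), .ne 15 19 (.four 15 9 10 18),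
  .ne 15 20 (.four 15 9 10 11), .ne 15 21 (.four 15 12 13 14), .ne 15 22 (.four 15 14 13 23),
  .ne 16 20 (.four 16 9 10 11), .ne 18 21 (.four 18 10 11 12), .ne 19 21 (.four 19 12 11 20),
  .ne 20 22 (.four 20 11 12 21), .ne 20 23 (.four 20 11 12 13), .ne 0 2 (.five 0 14 15 9 16),
  .ne 0 6 (.seven [0, 14, 13, 12, 21]), .ne 0 7 (.seven [0, 14, 13, 23, 22]),
  .ne 0 17 (.five 0 14 15 9 16), .ne 0 18 (.five 15 14 0 10 9),
  .ne 0 20 (.seven [0, 11, 12, 13, 14]), .ne 1 3 (.seven [1, 15, 9, 16, 17]),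
  .ne 1 8 (.seven [1, 15, 14, 13, 23]), .ne 1 19 (.seven [1, 15, 9, 10, 18]),
  .ne 1 20 (.seven [1, 11, 10, 9, 15]), .ne 1 21 (.seven [1, 12, 13, 14, 15]),
  .ne 1 22 (.seven [1, 15, 14, 13, 23]), .ne 2 4 (.five 2 16 17 18 19),
  .ne 2 12 (.seven [2, 11, 10, 9, 16]), .ne 2 13 (.seven [2, 14, 15, 9, 16]),
  .ne 2 20 (.five 2 16 17 18 19), .ne 3 5 (.seven [3, 17, 18, 19, 20]),
  .ne 3 12 (.seven [3, 11, 10, 18, 17]), .ne 3 14 (.seven [3, 15, 9, 16, 17]),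
  .ne 4 13 (.five 12 11 20 19 4), .ne 4 15 (.seven [4, 9, 10, 18, 19]),
  .ne 4 21 (.five 12 11 20 19 4), .ne 5 6 (.five 20 11 12 21 5), .ne 5 14 (.five 12 11 20 5 13),
  .ne 5 15 (.seven [5, 9, 10, 11, 20]), .ne 5 16 (.seven [5, 9, 10, 11, 20]),
  .ne 5 22 (.five 20 11 12 21 5), .ne 5 23 (.five 12 11 20 5 13),
  .ne 6 9 (.seven [6, 10, 11, 12, 21]), .ne 6 15 (.seven [6, 14, 13, 12, 21]),
  .ne 6 18 (.seven [6, 10, 11, 12, 21]), .ne 6 19 (.five 20 11 12 21 6),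
  .ne 7 10 (.seven [7, 11, 12, 21, 22]), .ne 7 15 (.seven [7, 14, 13, 23, 22]),
  .ne 7 20 (.seven [7, 11, 12, 21, 22]), .ne 8 9 (.seven [8, 15, 14, 13, 23]),
  .ne 8 10 (.seven [8, 11, 12, 13, 23]), .ne 8 20 (.seven [8, 11, 12, 13, 23]),
  .ne 9 22 (.seven [9, 10, 11, 12, 21]), .ne 13 17 (.seven [13, 12, 11, 10, 18]),
  .ne 14 19 (.five 12 11 20 14 13), .ne 16 21 (.seven [16, 9, 10, 11, 12]),
  .ne 16 23 (.seven [16, 9, 15, 14, 13]), .ne 17 21 (.seven [17, 12, 11, 10, 18]),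
  .ne 18 22 (.seven [18, 10, 11, 12, 21]), .ne 18 23 (.seven [18, 10, 11, 12, 13]),
  .ne 19 22 (.five 20 11 12 21 19), .ne 19 23 (.five 12 11 20 19 13),
  .ne 0 3 (.seven [0, 14, 15, 9, 16, 17]), .ne 0 5 (.seven [0, 14, 13, 12, 11, 20]),
  .ne 0 19 (.seven [0, 14, 13, 12, 11, 20]), .ne 1 4 (.seven [1, 15, 9, 10, 18, 19]),
  .ne 1 5 (.seven [1, 15, 9, 10, 11, 20]), .ne 1 6 (.seven [1, 15, 14, 13, 12, 21]),
  .ne 1 7 (.seven [1, 15, 14, 13, 23, 22]), .ne 2 5 (.seven [2, 16, 9, 10, 11, 20]),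
  .ne 2 21 (.seven [2, 12, 11, 10, 9, 16]), .ne 2 23 (.seven [2, 13, 14, 15, 9, 16]),
  .ne 3 13 (.seven [3, 12, 11, 10, 18, 17]), .ne 3 21 (.seven [3, 12, 11, 10, 18, 17]),
  .ne 4 6 (.seven [4, 19, 20, 11, 12, 21]), .ne 4 14 (.seven [4, 13, 12, 11, 20, 19]),
  .ne 4 22 (.seven [4, 19, 20, 11, 12, 21]), .ne 4 23 (.seven [4, 13, 12, 11, 20, 19]),
  .ne 5 7 (.seven [5, 20, 11, 12, 21, 22]), .ne 5 8 (.seven [5, 20, 11, 12, 13, 23]),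
  .ne 6 16 (.seven [6, 9, 10, 11, 12, 21]), .ne 6 17 (.seven [6, 18, 10, 11, 12, 21]),
  .ne 7 9 (.seven [7, 10, 11, 12, 21, 22]), .ne 7 18 (.seven [7, 10, 11, 12, 21, 22]),
  .ne 7 19 (.seven [7, 20, 11, 12, 21, 22]), .ne 8 16 (.seven [8, 9, 15, 14, 13, 23]),
  .ne 8 18 (.seven [8, 10, 11, 12, 13, 23]), .ne 8 19 (.seven [8, 20, 11, 12, 13, 23]),
  .ne 16 22 (.seven [16, 9, 10, 11, 12, 21]), .ne 17 22 (.seven [17, 18, 10, 11, 12, 21]),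
  .ne 17 23 (.seven [17, 13, 12, 11, 10, 18]), .ne 0 4 (.seven [0, 14, 13, 12, 11, 20, 19]),
  .ne 2 6 (.seven [2, 16, 9, 10, 11, 12, 21]), .ne 2 8 (.seven [2, 16, 9, 15, 14, 13, 23]),
  .ne 2 22 (.seven [2, 16, 9, 10, 11, 12, 21]), .ne 3 6 (.seven [3, 17, 18, 10, 11, 12, 21]),
  .ne 3 22 (.seven [3, 17, 18, 10, 11, 12, 21]), .ne 3 23 (.seven [3, 13, 12, 11, 10, 18, 17]),
  .ne 4 7 (.seven [4, 19, 20, 11, 12, 21, 22]), .ne 4 8 (.seven [4, 19, 20, 11, 12, 13, 23]),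
  .ne 7 16 (.seven [7, 9, 10, 11, 12, 21, 22]), .ne 7 17 (.seven [7, 18, 10, 11, 12, 21, 22]),
  .ne 8 17 (.seven [8, 16, 9, 15, 14, 13, 23]), .cn 0 1 (.five 0 14 15 1 24),
  .cn 2 3 (.five 2 16 17 3 24), .cn 4 5 (.five 4 19 20 5 24),
  .cn 6 8 (.seven [24, 6, 21, 22, 23, 8])]

theorem G1T0_fin : finT G1c [] [(2, 7), (3, 7)]
    [(0, 1), (2, 3), (4, 5), (6, 8)] [] [] [] [(3, 8)]
    [] tG1 FG1T G1T0_st = true := by
  decide +kernel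

/-- Steps. -/
def G1T1_st : List StepT :=
  [.ne 0 1 (.base (.tri 0 14 15)), .ne 0 9 (.base (.tri 0 14 15)),
  .ne 0 12 (.base (.tri 0 13 14)), .ne 0 23 (.base (.tri 0 13 14)),
  .ne 1 10 (.base (.tri 1 9 15)), .ne 1 13 (.base (.tri 1 14 15)), .ne 1 16 (.base (.tri 1 9 15)),
  .ne 2 3 (.base (.tri 2 16 17)), .ne 2 10 (.base (.tri 2 9 16)), .ne 2 15 (.base (.tri 2 9 16)),
  .ne 2 18 (.base (.tri 2 16 17)), .ne 3 7 (.base (.tri 3 22 23)), .ne 3 9 (.base (.tri 3 16 17)),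
  .ne 3 10 (.base (.tri 3 17 18)), .ne 3 12 (.base (.tri 3 13 23)),
  .ne 3 14 (.base (.tri 3 13 23)), .ne 3 19 (.base (.tri 3 17 18)),
  .ne 3 21 (.base (.tri 3 22 23)), .ne 4 5 (.base (.tri 4 19 20)),
  .ne 4 10 (.base (.tri 4 18 19)), .ne 4 11 (.base (.tri 4 19 20)),
  .ne 4 17 (.base (.tri 4 18 19)), .ne 5 10 (.base (.tri 5 11 20)),
  .ne 5 12 (.base (.tri 5 11 20)), .ne 5 18 (.base (.tri 5 19 20)),
  .ne 6 7 (.base (.tri 6 21 22)), .ne 6 11 (.base (.tri 6 12 21)),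
  .ne 6 13 (.base (.tri 6 12 21)), .ne 6 23 (.base (.tri 6 21 22)),
  .ne 7 12 (.base (.tri 7 21 22)), .ne 7 13 (.base (.tri 7 22 23)),
  .ne 9 12 (.base (.tri 9 10 11)), .ne 9 13 (.base (.tri 9 14 15)),
  .ne 9 19 (.base (.tri 9 10 18)), .ne 9 20 (.base (.tri 9 10 11)),
  .ne 10 13 (.base (.tri 10 11 12)), .ne 10 14 (.base (.tri 10 9 15)),
  .ne 10 21 (.base (.tri 10 11 12)), .ne 11 14 (.base (.tri 11 12 13)),
  .ne 11 15 (.base (.tri 11 9 10)), .ne 11 16 (.base (.tri 11 9 10)),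
  .ne 11 17 (.base (.tri 11 10 18)), .ne 11 22 (.base (.tri 11 12 21)),
  .ne 11 23 (.base (.tri 11 12 13)), .ne 12 15 (.base (.tri 12 13 14)),
  .ne 12 18 (.base (.tri 12 10 11)), .ne 12 19 (.base (.tri 12 11 20)),
  .ne 13 17 (.base (.tri 13 3 23)), .ne 13 20 (.base (.tri 13 11 12)),
  .ne 14 16 (.base (.tri 14 9 15)), .ne 14 21 (.base (.tri 14 12 13)),
  .ne 14 22 (.base (.tri 14 13 23)), .ne 15 17 (.base (.tri 15 9 16)),
  .ne 15 18 (.base (.tri 15 9 10)), .ne 15 23 (.base (.tri 15 13 14)),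
  .ne 16 19 (.base (.tri 16 17 18)), .ne 16 23 (.base (.tri 16 3 17)),
  .ne 17 20 (.base (.tri 17 18 19)), .ne 17 22 (.base (.tri 17 3 23)),
  .ne 18 23 (.base (.tri 18 3 17)), .ne 20 21 (.base (.tri 20 11 12)), .ne 0 3 (.four 0 14 13 23),
  .ne 0 10 (.four 0 9 15 14), .ne 0 11 (.four 0 12 13 14), .ne 0 16 (.four 0 9 15 14),
  .ne 0 21 (.four 0 12 13 14), .ne 0 22 (.four 0 14 13 23), .ne 1 2 (.four 1 15 9 16),
  .ne 1 11 (.four 1 10 9 15), .ne 1 12 (.four 1 13 14 15), .ne 1 17 (.four 1 15 9 16),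
  .ne 1 18 (.four 1 10 9 15), .ne 1 23 (.four 1 13 14 15), .ne 2 11 (.four 2 10 9 16),
  .ne 2 14 (.four 2 15 9 16), .ne 2 19 (.four 2 16 17 18), .ne 2 23 (.four 2 3 17 16),
  .ne 3 4 (.four 3 17 18 19), .ne 3 6 (.four 3 21 22 23), .ne 3 11 (.four 3 10 18 17),
  .ne 3 15 (.four 3 9 16 17), .ne 3 20 (.four 3 17 18 19), .ne 4 9 (.four 4 10 18 19),
  .ne 4 12 (.four 4 11 20 19), .ne 4 16 (.four 4 17 18 19), .ne 5 9 (.four 5 10 11 20),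
  .ne 5 13 (.four 5 12 11 20), .ne 5 17 (.four 5 18 19 20), .ne 5 21 (.four 5 12 11 20),
  .ne 6 10 (.four 6 11 12 21), .ne 6 14 (.four 6 13 12 21), .ne 6 20 (.four 6 11 12 21),
  .ne 7 11 (.four 7 12 21 22), .ne 7 14 (.four 7 13 23 22), .ne 7 17 (.four 7 3 23 22),
  .ne 9 21 (.four 9 10 11 12), .ne 9 23 (.four 9 3 17 16), .ne 10 22 (.four 10 11 12 21),
  .ne 10 23 (.four 10 3 17 18), .ne 12 16 (.four 12 9 10 11), .ne 12 17 (.four 12 3 23 13),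
  .ne 13 16 (.four 13 9 15 14), .ne 13 18 (.four 13 10 11 12), .ne 13 19 (.four 13 12 11 20),
  .ne 14 17 (.four 14 3 23 13), .ne 14 18 (.four 14 10 9 15), .ne 14 20 (.four 14 11 12 13),
  .ne 15 19 (.four 15 9 10 18), .ne 15 20 (.four 15 9 10 11), .ne 15 21 (.four 15 12 13 14),
  .ne 15 22 (.four 15 14 13 23), .ne 16 20 (.four 16 9 10 11),
  .ne 16 22 (.seven [16, 9, 10, 11, 12, 21]), .ne 17 21 (.four 17 3 23 22),
  .ne 18 21 (.four 18 10 11 12), .ne 18 22 (.seven [18, 10, 11, 12, 21]),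
  .ne 19 21 (.four 19 12 11 20), .ne 19 23 (.four 19 3 17 18), .ne 20 22 (.four 20 11 12 21),
  .ne 20 23 (.four 20 11 12 13), .ne 0 2 (.five 0 14 15 9 16),
  .ne 0 6 (.seven [0, 14, 13, 12, 21]), .ne 0 7 (.seven [0, 14, 13, 23, 22]),
  .ne 0 17 (.five 0 14 15 9 16), .ne 0 18 (.five 15 14 0 10 9),
  .ne 0 20 (.seven [0, 11, 12, 13, 14]), .ne 1 3 (.seven [1, 15, 9, 16, 17]),
  .ne 1 19 (.seven [1, 15, 9, 10, 18]), .ne 1 20 (.seven [1, 11, 10, 9, 15]),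
  .ne 1 21 (.seven [1, 12, 13, 14, 15]), .ne 1 22 (.seven [1, 15, 14, 13, 23]),
  .ne 2 4 (.five 2 16 17 18 19), .ne 2 12 (.seven [2, 11, 10, 9, 16]),
  .ne 2 13 (.seven [2, 14, 15, 9, 16]), .ne 2 20 (.five 2 16 17 18 19),
  .ne 2 22 (.seven [2, 16, 9, 15, 14, 13, 23]), .ne 3 5 (.seven [3, 17, 18, 19, 20]),
  .ne 4 13 (.five 12 11 20 19 4), .ne 4 15 (.seven [4, 9, 10, 18, 19]),
  .ne 4 21 (.five 12 11 20 19 4), .ne 4 23 (.seven [4, 13, 12, 11, 20, 19]),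
  .ne 5 6 (.five 20 11 12 21 5), .ne 5 14 (.five 12 11 20 5 13),
  .ne 5 15 (.seven [5, 9, 10, 11, 20]), .ne 5 16 (.seven [5, 9, 10, 11, 20]),
  .ne 5 22 (.five 20 11 12 21 5), .ne 5 23 (.five 12 11 20 5 13),
  .ne 6 9 (.seven [6, 10, 11, 12, 21]), .ne 6 15 (.seven [6, 14, 13, 12, 21]),
  .ne 6 17 (.seven [6, 3, 23, 22, 21]), .ne 6 18 (.seven [6, 10, 11, 12, 21]),
  .ne 6 19 (.five 20 11 12 21 6), .ne 7 10 (.seven [7, 11, 12, 21, 22]),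
  .ne 7 15 (.seven [7, 14, 13, 23, 22]), .ne 7 16 (.eq 7 22 17 2 9 (.full 9 21 10 15 7)),
  .ne 7 18 (.seven [7, 10, 11, 12, 21, 22]), .ne 7 20 (.seven [7, 11, 12, 21, 22]),
  .ne 9 22 (.seven [9, 10, 11, 12, 21]), .ne 14 19 (.five 12 11 20 14 13),
  .ne 16 21 (.seven [16, 9, 10, 11, 12]), .ne 19 22 (.five 20 11 12 21 19),
  .ne 0 5 (.seven [0, 14, 13, 12, 11, 20]), .ne 0 19 (.seven [0, 14, 13, 12, 11, 20]),
  .ne 1 4 (.seven [1, 15, 9, 10, 18, 19]), .ne 1 5 (.seven [1, 15, 9, 10, 11, 20]),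
  .ne 1 6 (.seven [1, 15, 14, 13, 12, 21]), .ne 1 7 (.seven [1, 15, 14, 13, 23, 22]),
  .ne 2 5 (.seven [2, 16, 9, 10, 11, 20]), .ne 2 21 (.seven [2, 12, 11, 10, 9, 16]),
  .ne 4 6 (.seven [4, 19, 20, 11, 12, 21]), .ne 4 14 (.seven [4, 13, 12, 11, 20, 19]),
  .ne 4 22 (.seven [4, 19, 20, 11, 12, 21]), .ne 5 7 (.seven [5, 20, 11, 12, 21, 22]),
  .ne 6 16 (.seven [6, 9, 10, 11, 12, 21]), .ne 7 9 (.seven [7, 10, 11, 12, 21, 22]),
  .ne 7 19 (.seven [7, 20, 11, 12, 21, 22]), .ne 0 4 (.seven [0, 14, 13, 12, 11, 20, 19]),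
  .ne 2 6 (.seven [2, 16, 9, 10, 11, 12, 21]), .ne 4 7 (.seven [4, 19, 20, 11, 12, 21, 22]),
  .ne 17 23 (.seven [17, 13, 12, 11, 10, 18]), .ne 2 7 (.seven [2, 16, 17, 3, 23, 22]),
  .cn 0 1 (.five 0 14 15 1 24), .cn 2 3 (.five 2 16 17 3 24), .cn 4 5 (.five 4 19 20 5 24),
  .cn 6 8 (.seven [24, 3, 23, 22, 21, 6]),
  .na 2 6 (.cross [2, 6, 21, 22, 23, 3, 17, 16] 5 1 [18, 10, 11, 12])]

theorem G1T1_fin : finT G1c [] [(3, 8)]
    [(0, 1), (2, 3), (4, 5), (6, 8)] [(2, 6)] [(3, 8)] [] []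
    [] tG1 FG1T G1T1_st = true := by
  decide +kernel

theorem chkG1T : chk G1c.ed (inner G1c) tG1 = true := by decide +kernel

theorem levG1T : levB tG1 6 9 24 [] = true := by decide +kernel

theorem cornG1T : (FG1T.all fun e => Nat.blt e.1 24 && cornF tG1 (9, 10) [[5], [2], [0, 2], [1, 3]] e) =
    true := by decide +kernel

section

variable {V : Type} [Fintype V] [DecidableEq V] {G : SimpleGraph V} [DecidableRel G.Adj]
  {R : Rot G} {d : G.Dart}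

theorem acEqT (R : Rot G) (d : G.Dart) (i : ℕ) : ac R d i = ad R d i := by
  unfold ac ad
  rw [← Equiv.Perm.iterate_eq_pow]

theorem szAcT (R : Rot G) (d : G.Dart) (i : ℕ) : sz R (ac R d i) = nb R d i := by
  rw [acEqT]
  rfl

/-- More pairs may be the same vertex. -/
theorem Patch.mono_co {A : Red} {nl co co' com bad : List (ℕ × ℕ)} {f : ℕ → V}
    (h : Patch G A nl co com bad f) (hc : ∀ e ∈ co, e ∈ co') : Patch G A nl co' com bad f :=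
  ⟨fun i j hi hj hij => by
    rcases h.inj i j hi hj hij with h1 | h1 | h1
    · exact Or.inl h1
    · exact Or.inr (Or.inl (hc _ h1))
    · exact Or.inr (Or.inr (hc _ h1)), h.adj, h.nbr, h.hC, h.hT⟩

/-- **The patch G1.** The labels 3 and 8 are different, or the labels 2 and 6 are not adjacent. -/
theorem patchG1T (hG : ClsT R (N4 R 8)) (h4 : N4 R 14 d.fst) (hp : Pair7 R d)
    (h3 : nb R d 3 = 5) (h5 : nb R d 5 ≠ 5) :
    Patch G G1c [] [(2, 7), (3, 7)] [(0, 1), (2, 3), (4, 5), (6, 8)] [] (fG1 R d) ∨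
    Patch G G1c [] [(2, 7), (3, 7), (3, 8)] [(0, 1), (2, 3), (4, 5), (6, 8)] [(2, 6)]
      (fG1 R d) := by
  have g : ∀ {e : G.Dart} {L : ℕ}, sz R e = L → Good R e L := fun h => ⟨h, fun _ => hG.cub _⟩
  have hd := g hp.s
  have g0 : Good R (ac R d 0) 5 := g ((szAcT R d 0).trans hp.s0)
  have g1 : Good R (ac R d 1) 5 := g ((szAcT R d 1).trans hp.s1)
  have g3 : Good R (ac R d 3) 5 := g ((szAcT R d 3).trans h3)
  have hT := tabG1 hd g0 g1 g3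
  have hN := rotG1 hd g0 g1 g3
  have hS : ∀ k, k < 24 → N4 R 8 (fG1 R d k) := n4_lab hT (m := 8) (D := 6) (a := 9) h4 (by simp) levG1T
  have hF : No5 G FG1T (fG1 R d) := by
    refine no5_of hG hN dt_fG1 hS ?_ cornG1T
    intro l hl
    simp only [List.mem_cons, List.not_mem_nil, or_false] at hl
    rcases hl with rfl | rfl | rfl | rfl
    · exact h5
    · exact hp.n2
    · exact hp.n02
    · exact hp.n13
  by_cases h38 : fG1 R d 3 = fG1 R d 8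
  · exact Or.inr ((patch_ofT hG hT hN chkG1T hS hF (by simpa using h38) (by simp) (by simp)
      (by simp) G1T1_fin).mono_co (by simp))
  · exact Or.inl (patch_ofT hG hT hN chkG1T hS hF (by simp) (by simp) (by simpa using h38)
      (by simp) G1T0_fin)

end

end Pool.Agent.U2Geo
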