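import Pool.Agent.Work.MP_392c8e_co_uni.SideL
import Pool.Agent.Work.MP_392c8e_co_uni.Fam

/-!
# From patches to places

A copy of a reducer with all side conditions, together with the data of the reducer, is a place.
-/

namespace Pool.Agent.U2Geo

open Pool.Agent.T1Red Pool.Agent.Sub392
open Pool.Agent.Uni392 (Place)

/-- Every path of the reducer belongs to a new edge and different paths have different ends. -/
structure Back (R : Red) (nl : List (ℕ × ℕ)) (ps : List (ℕ × List ℕ × ℕ))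
    (co : List (ℕ × ℕ)) : Prop where
  back : ∀ q ∈ ps, ∃ e ∈ R.nw,
    (q.1 = rho nl e.1 ∧ q.2.2 = rho nl e.2) ∨ (q.1 = rho nl e.2 ∧ q.2.2 = rho nl e.1)
  dup : ps.Pairwise fun q q' => ¬ ((Same co q.1 q'.1 ∧ Same co q.2.2 q'.2.2) ∨
    (Same co q.1 q'.2.2 ∧ Same co q.2.2 q'.1))

variable {V : Type} {G : SimpleGraph V}

/-- The place of a patch. -/
def place (R : Red) (nl : List (ℕ × ℕ)) (ps : List (ℕ × List ℕ × ℕ))
    (co com bad : List (ℕ × ℕ)) (f : ℕ → V) : Place V :=
  ⟨R, nl, ps, [], co, com, bad, f⟩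

/-- **Patches are places.** -/
theorem Patch.good [Fintype V] [DecidableEq V] {R : Red} {nl : List (ℕ × ℕ)}
    {ps : List (ℕ × List ℕ × ℕ)} {co com bad : List (ℕ × ℕ)} {f : ℕ → V}
    (h : Patch G R nl co com bad f) (hext : R.Ext co) (hd : Data R nl ps [] co com bad)
    (hb : Back R nl ps co) : Uni91.Good (place R nl ps co com bad f) G where
  ok := ⟨hext, hd, h.inj, fun i hi hi' w hw => by
    obtain ⟨j, h1, h2⟩ := h.nbr i hi hi' w hw
    exact ⟨j, h1, List.not_mem_nil, h2⟩⟩
  adj := fun e he _ _ => h.adj e he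
  hC := h.hC
  hT := h.hT
  back := fun q hq => by
    obtain ⟨e, he, h1⟩ := hb.back q hq
    exact ⟨e, he, List.not_mem_nil, List.not_mem_nil, h1⟩
  dup := hb.dup

end Pool.Agent.U2Geo
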