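import Mathlib
import Pool.Agent.Work.MP_392c8e_co_uni.Fam

/-!
# Shapes of places
-/

namespace Pool.Agent.U2Geo

open Pool.Agent.T1Red Pool.Agent.Sub392
open Pool.Agent.Uni392 (Place)

/-- The data of a place without the vertices (no missing labels). -/
structure Shape where
  /-- the reducer -/
  R : Red
  /-- the new labels -/
  nl : List (ℕ × ℕ)
  /-- the paths -/
  ps : List (ℕ × List ℕ × ℕ)
  /-- the pairs of labels which may be the same vertex -/
  co : List (ℕ × ℕ)
  /-- the pairs which may not have a common neighbour -/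
  com : List (ℕ × ℕ)
  /-- the pairs which may not be adjacent -/
  bad : List (ℕ × ℕ)

/-- The place of a shape. -/
def Shape.pl {V : Type} (s : Shape) (f : ℕ → V) : Place V :=
  ⟨s.R, s.nl, s.ps, [], s.co, s.com, s.bad, f⟩

/-- There is a good place of the shape with the vertex. -/
def HasPl {V : Type} [Fintype V] [DecidableEq V] (s : Shape) (G : SimpleGraph V) (v : V) : Prop :=
  ∃ f : ℕ → V, Uni91.Good (s.pl f) G ∧ v ∈ (s.pl f).Vert

end Pool.Agent.U2Geo
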