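import Mathlib
import Pool.Agent.Work.MP_392c8e_co_uni.Shape
import Pool.Agent.Work.MP_392c8e_co_uni.FarFam

/-!
# Places have bounded diameter
-/

namespace Pool.Agent.U2Geo

open Pool.Agent.T1Red Pool.Agent.Sub392
open Pool.Agent.Uni392 (Place)

set_option linter.unusedSectionVars false

/-- One step of the search. -/
def grow (ed : List (ℕ × ℕ)) (S : List ℕ) : List ℕ :=
  ed.foldl (fun T e => if e.1 ∈ S ∧ e.2 ∉ T then e.2 :: T else
    if e.2 ∈ S ∧ e.1 ∉ T then e.1 :: T else T) S

/-- The labels which can be reached in `n` steps. -/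
def reach (ed : List (ℕ × ℕ)) (n : ℕ) (r : ℕ) : List ℕ := (grow ed)^[n] [r]

/-- All real labels can be reached in `n` steps. -/
def Shape.con (s : Shape) (n : ℕ) : Prop :=
  ∀ i < s.R.t + s.R.m, (∀ p ∈ s.nl, p.1 ≠ i) → i ∈ reach s.R.ed n s.R.t

instance (s : Shape) (n : ℕ) : Decidable (s.con n) := by
  unfold Shape.con
  infer_instance

theorem grow_mem {ed : List (ℕ × ℕ)} {S : List ℕ} {j : ℕ} (h : j ∈ grow ed S) :
    j ∈ S ∨ ∃ i ∈ S, (i, j) ∈ ed ∨ (j, i) ∈ ed := by
  unfold grow at h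
  have gen : ∀ (L : List (ℕ × ℕ)) (T : List ℕ), (∀ e ∈ L, e ∈ ed) →
      j ∈ L.foldl (fun T e => if e.1 ∈ S ∧ e.2 ∉ T then e.2 :: T else
        if e.2 ∈ S ∧ e.1 ∉ T then e.1 :: T else T) T →
      j ∈ T ∨ ∃ i ∈ S, (i, j) ∈ ed ∨ (j, i) ∈ ed := by
    intro L
    induction L with
    | nil => intro T _ hj; exact Or.inl hj
    | cons e L ih =>
      intro T hL hj
      rw [List.foldl_cons] at hj
      have he : e ∈ ed := hL e List.mem_cons_self
      rcases ih _ (fun x hx => hL x (List.mem_cons_of_mem _ hx)) hj with h1 | h1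
      · split_ifs at h1 with c1 c2
        · rcases List.mem_cons.1 h1 with rfl | h1
          · exact Or.inr ⟨e.1, c1.1, Or.inl he⟩
          · exact Or.inl h1
        · rcases List.mem_cons.1 h1 with rfl | h1
          · exact Or.inr ⟨e.2, c2.1, Or.inr he⟩
          · exact Or.inl h1
        · exact Or.inl h1
      · exact Or.inr h1
  exact gen ed S (fun _ h => h) h

variable {V : Type} [Fintype V] [DecidableEq V] {G : SimpleGraph V}

theorem reach_walk {s : Shape} {f : ℕ → V} (h : Uni91.Good (s.pl f) G) (r : ℕ) (n : ℕ) {j : ℕ}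
    (hj : j ∈ reach s.R.ed n r) : ∃ w : G.Walk (f r) (f j), w.length ≤ n := by
  induction n generalizing j with
  | zero =>
    have : j = r := by simpa [reach] using hj
    subst this
    exact ⟨SimpleGraph.Walk.nil, le_rfl⟩
  | succ n ih =>
    unfold reach at hj
    rw [Function.iterate_succ_apply'] at hj
    rcases grow_mem hj with h1 | ⟨i, hi, h1⟩
    · obtain ⟨w, hw⟩ := ih h1
      exact ⟨w, hw.trans (Nat.le_succ n)⟩
    · obtain ⟨w, hw⟩ := ih hi
      have ha : G.Adj (f i) (f j) := by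
        rcases h1 with h1 | h1
        · exact h.adj _ h1 List.not_mem_nil List.not_mem_nil
        · exact (h.adj _ h1 List.not_mem_nil List.not_mem_nil).symm
      refine ⟨w.concat ha, ?_⟩
      rw [SimpleGraph.Walk.length_concat]
      omega

/-- **The diameter of a place.** -/
theorem Shape.diam {s : Shape} {n : ℕ} (hs : s.con n) {f : ℕ → V}
    (h : Uni91.Good (s.pl f) G) : (s.pl f).Diam G (n + n) := by
  rintro a ⟨i, hi, rfl⟩ b ⟨j, hj, rfl⟩
  have h1 := reach_walk h s.R.t n (hs i hi.1 hi.2.2)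
  have h2 := reach_walk h s.R.t n (hs j hj.1 hj.2.2)
  obtain ⟨w1, h1⟩ := h1
  obtain ⟨w2, h2⟩ := h2
  show ∃ w : G.Walk (f i) (f j), w.length ≤ n + n
  refine ⟨w1.reverse.append w2, ?_⟩
  rw [SimpleGraph.Walk.length_append, SimpleGraph.Walk.length_reverse]
  omega

end Pool.Agent.U2Geo
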