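import Mathlib
import Pool.Agent.Work.MP_392c8e_co_uni.Shape
import Pool.Agent.Work.MP_392c8e_co_uni.RingGain

/-!
# The rings of the places of the catalogue
-/

namespace Pool.Agent.Ring392

open Finset Pool.Agent.Sub392 Pool.Agent.T392 Pool.Agent.Disch392 Pool.Agent.Uni392
  Pool.Agent.U2Geo
open Pool.Agent.Uni91 (Good)
open Pool.Agent.T1Red (Red Int Same Real Old Data rho newG)

set_option linter.unusedSectionVars false

variable {V : Type} [Fintype V] [DecidableEq V] {G : SimpleGraph V} [DecidableRel G.Adj]

theorem RingP.mono {R : Rot G} {q : Place V} {k k' : ℕ} (h : RingP R q k) (hk : k ≤ k') :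
    RingP R q k' := ⟨h.one, h.card.trans hk, h.stub⟩

/-- The ring of a place of a shape with at most nine terminals. -/
theorem ring_of_shape {R : Rot G} (hC : C5 R) {s : Shape} {f : ℕ → V} (hg : Good (s.pl f) G)
    (h : ringB s.R s.co = true) (hbig : s.R.m + 4 < Fintype.card V) :
    RingP R (s.pl f) 9 := by
  refine (ringP_of hC hg rfl h hbig).mono ?_
  unfold ringB at h
  simp only [Bool.and_eq_true, Nat.ble_eq] at h
  exact h.1.1.2

end Pool.Agent.Ring392
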