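import Mathlib
import Pool.Agent.Work.MP_392c8e_co_uni.RingShape
import Pool.Agent.Work.MP_392c8e_co_uni.RingBP

/-!
# The ring of one place in its own new graph

The checks for the ring, the deleted edges and the interior labels give places with gain and places
without gain whose kept vertices are joined.
-/

namespace Pool.Agent.Ring392

open Finset Pool.Agent.Sub392 Pool.Agent.T392 Pool.Agent.Disch392 Pool.Agent.Uni392
  Pool.Agent.U2Geo
open Pool.Agent.Uni91 (Good GainP JoinP VD OnP Cs ends full cs_cons cs_map)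
open Pool.Agent.T1Red (Red Int Same Real Old Data rho newG)
open Pool.Agent.RingB (intZ)

set_option linter.unusedSectionVars false

variable {V : Type} [Fintype V] [DecidableEq V] {G : SimpleGraph V} [DecidableRel G.Adj]
variable {q : Place V}

/-- **Walks around a place in its new graph.** -/
theorem RingP.steps1 {R : Rot G} {k L : ℕ} (hr : RingP R q k) (hL : ∀ d, sz R d ≤ L) {t t' : V}
    (ht : t ∈ q.Vert) (ht' : t' ∈ q.Vert) (h : ¬ Int q.R q.f t) (h' : ¬ Int q.R q.f t') :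
    ∃ n, n ≤ k * L ∧ Steps (nbN G (Int q.R q.f) q.pth) n t t' := by
  obtain ⟨b, hb, hbt⟩ := hr.stub t ht h
  obtain ⟨b', hb', hbt'⟩ := hr.stub t' ht' h'
  have e1 : Ex (Int q.R q.f) (⟨(b, t), hbt⟩ : G.Dart) := ⟨hb, h⟩
  have e2 : Ex (Int q.R q.f) (⟨(b', t'), hbt'⟩ : G.Dart) := ⟨hb', h'⟩
  obtain ⟨w, hw1, hw2⟩ := ring_walk R hL hr.card (hr.one ⟨_, e1⟩ ⟨_, e2⟩)
  exact ⟨w.length, hw1, steps_of_walk (x := t) (y := t') w hw2⟩

/-- A label with a deleted edge. -/
theorem del_of1 (hg : Good q G) (hm : q.miss = []) {a : ℕ}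
    (h : delB q.R q.ps q.co a = true) :
    Real q.R q.nl q.miss a ∧ ∃ w, Del G (Int q.R q.f) q.pth (q.f a) w := by
  unfold delB at h
  rw [List.any_eq_true] at h
  obtain ⟨e, he, h1⟩ := h
  simp only [Bool.and_eq_true, Bool.or_eq_true, beq_iff_eq] at h1
  obtain ⟨h1, h2⟩ := h1
  have hlt := hg.ok.data.ed_lt e he
  have hold := hg.ok.data.ed_new e he
  have hr1 : Real q.R q.nl q.miss e.1 :=
    ⟨hlt.1, by rw [hm]; exact List.not_mem_nil, hold.1⟩
  have hr2 : Real q.R q.nl q.miss e.2 :=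
    ⟨hlt.2.1, by rw [hm]; exact List.not_mem_nil, hold.2⟩
  have hadj := hg.adj e he hr1.2.1 hr2.2.1
  have hI : Int q.R q.f (q.f e.1) ∨ Int q.R q.f (q.f e.2) := by
    rcases hg.ok.data.ed_int e he with h3 | h3
    · exact Or.inl ⟨e.1, h3, hlt.1, rfl⟩
    · exact Or.inr ⟨e.2, h3, hlt.2.1, rfl⟩
  have hoff : ∀ π ∈ q.pth, ¬ OnP π (q.f e.1) (q.f e.2) := by
    intro π hπ hon
    unfold Place.pth at hπ
    obtain ⟨s, hs, rfl⟩ := List.mem_map.1 hπ
    unfold offB at h2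
    simp only [List.all_eq_true, Bool.not_eq_true', Bool.or_eq_false_iff, Bool.and_eq_false_iff,
      decide_eq_false_iff_not] at h2
    have key : ∀ u v, Cs (full (q.f s.1, s.2.1.map q.f, q.f s.2.2)) u v →
        ∃ a b, (a, b) ∈ cons2 (s.1 :: (s.2.1 ++ [s.2.2])) ∧ q.f a = u ∧ q.f b = v ∧
          Real q.R q.nl q.miss a ∧ Real q.R q.nl q.miss b := by
      intro u v h3
      rw [Good.full_map] at h3
      obtain ⟨a, b, h4, rfl, rfl⟩ := cs_map _ h3
      exact ⟨a, b, mem_cons2 h4, rfl, rfl, hg.ok.data.rng s hs a h4.mem.1,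
        hg.ok.data.rng s hs b h4.mem.2⟩
    rcases hon with h3 | h3
    · obtain ⟨a', b', h4, h5, h6, h7, h8⟩ := key _ _ h3
      have := (h2 s hs _ h4).1
      have c1 := hg.ok.inj _ _ h7 hr1 h5
      have c2 := hg.ok.inj _ _ h8 hr2 h6
      tauto
    · obtain ⟨a', b', h4, h5, h6, h7, h8⟩ := key _ _ h3
      have := (h2 s hs _ h4).2
      have c1 := hg.ok.inj _ _ h7 hr2 h5
      have c2 := hg.ok.inj _ _ h8 hr1 h6
      tauto
  have hdel : Del G (Int q.R q.f) q.pth (q.f e.1) (q.f e.2) := ⟨hadj, hI, hoff⟩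
  rcases h1 with rfl | rfl
  · exact ⟨hr1, _, hdel⟩
  · exact ⟨hr2, _, hdel.symm⟩

/-- Labels joined by a path are adjacent in the new graph. -/
theorem join_of1 (hg : Good q G) {a b : ℕ} (h : joinB q.ps a b = true) :
    Real q.R q.nl q.miss a ∧ Real q.R q.nl q.miss b ∧
      q.f b ∈ nbN G (Int q.R q.f) q.pth (q.f a) := by
  unfold joinB at h
  rw [List.any_eq_true] at h
  obtain ⟨s, hs, h1⟩ := h
  simp only [Bool.and_eq_true, Bool.or_eq_true, beq_iff_eq] at h1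
  have r1 := hg.ok.data.rng s hs s.1 List.mem_cons_self
  have r2 := hg.ok.data.rng s hs s.2.2 (by simp)
  have hne : q.f s.1 ≠ q.f s.2.2 := by
    intro h2
    have h3 := hg.ok.inj _ _ r1 r2 h2
    have h4 := List.pairwise_cons.1 (hg.ok.data.nodup s hs)
    exact h4.1 s.2.2 (by simp) h3
  have hmem : (q.f s.1, q.f s.2.2) ∈ ends q.pth := by
    unfold ends Place.pth
    rw [List.map_map, List.mem_map]
    exact ⟨s, hs, rfl⟩
  rcases h1 with ⟨rfl, rfl⟩ | ⟨rfl, rfl⟩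
  · exact ⟨r1, r2, mem_nbN.2 (Or.inr ⟨hne, Or.inl hmem⟩)⟩
  · exact ⟨r2, r1, mem_nbN.2 (Or.inr ⟨hne.symm, Or.inr hmem⟩)⟩

/-- Terminals are not interior. -/
theorem ter_not_int (hg : Good q G) {a : ℕ} (ha : Real q.R q.nl q.miss a) (hat : a < q.R.t) :
    ¬ Int q.R q.f (q.f a) := by
  rintro ⟨b, h1, h2, h3⟩
  have h4 := hg.ok.inj _ _ (hg.ok.data.real_int h1 h2) ha h3
  have h5 := hg.ok.data.same_int h4 h1
  omega

/-- **A place with gain** whose kept vertices are joined. -/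
theorem gainP_of_ter {r : ℕ} (hg : Good q G) (hm : q.miss = [])
    (hr : ∀ t ∈ q.Vert, ∀ t' ∈ q.Vert, ¬ Int q.R q.f t → ¬ Int q.R q.f t' →
      ∃ n, n ≤ r ∧ Steps (nbN G (Int q.R q.f) q.pth) n t t')
    (h : gainB q.R q.ps q.co = true) (h' : intB q.R q.ps q.co = true) :
    GainP G q (r + 2) := by
  have key : ∀ t ∈ q.Vert, ¬ Int q.R q.f t → NearG G (Int q.R q.f) q.pth (r + 1) t := by
    intro t ht ht'
    unfold gainB at h
    rw [List.any_eq_true] at h
    obtain ⟨z, -, h1⟩ := h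
    simp only [Bool.and_eq_true, Bool.or_eq_true, Nat.blt_eq, List.any_eq_true] at h1
    obtain ⟨h1, h2⟩ := h1
    obtain ⟨hz, w, hw⟩ := del_of1 hg hm h1
    rcases h2 with h2 | ⟨a, ha, h2⟩
    · obtain ⟨l, hl1, hl2⟩ := hr t ht _ ⟨z, hz, rfl⟩ ht' (ter_not_int hg hz h2)
      exact ⟨l, by omega, _, w, hw, hl2⟩
    · obtain ⟨h3, -, h4⟩ := join_of1 hg h2
      obtain ⟨l, hl1, hl2⟩ := hr t ht _ ⟨a, h3, rfl⟩ ht'
        (ter_not_int hg h3 (List.mem_range.1 ha))
      exact ⟨l + 1, by omega, _, w, hw, hl2.trans (Steps.cons h4 (Steps.refl _))⟩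
  refine ⟨fun t ht ht' => NearG.mono (key t ht ht') (by omega), ?_⟩
  intro v hv hdel hinn
  obtain ⟨a, ha1, ha2, rfl⟩ := hv
  unfold intB at h'
  rw [List.all_eq_true] at h'
  have h1 := h' (a - q.R.t) (List.mem_range.2 (by omega))
  rw [show q.R.t + (a - q.R.t) = a by omega] at h1
  simp only [Bool.or_eq_true, Bool.and_eq_true, Nat.blt_eq, List.any_eq_true, List.elem_eq_mem,
    decide_eq_true_eq] at h1
  rcases h1 with (⟨s, hs, h1⟩ | h1) | ⟨b, -, h1, h2⟩
  · exfalso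
    refine hinn ⟨(q.f s.1, s.2.1.map q.f, q.f s.2.2), ?_, ?_⟩
    · unfold Place.pth
      exact List.mem_map.2 ⟨s, hs, rfl⟩
    · exact List.mem_map.2 ⟨a, h1, rfl⟩
  · obtain ⟨-, w, hw⟩ := del_of1 hg hm h1
    exact absurd hw (hdel w)
  · obtain ⟨-, h3, h4⟩ := join_of1 hg h1
    rcases h2 with h2 | h2
    · have := NearG.steps (key _ ⟨b, h3, rfl⟩ (ter_not_int hg h3 h2))
        (Steps.cons h4 (Steps.refl _))
      exact NearG.mono this (by omega)
    · obtain ⟨-, w, hw⟩ := del_of1 hg hm h2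
      exact ⟨1, by omega, _, w, hw, Steps.cons h4 (Steps.refl _)⟩

/-- **A place without gain** whose kept vertices are joined. -/
theorem joinP_of_ter {r : ℕ} (hg : Good q G) (hm : q.miss = [])
    (hr : ∀ t ∈ q.Vert, ∀ t' ∈ q.Vert, ¬ Int q.R q.f t → ¬ Int q.R q.f t' →
      ∃ n, n ≤ r ∧ Steps (nbN G (Int q.R q.f) q.pth) n t t')
    (h' : intZ q.R q.ps q.co = true) : JoinP G q r := by
  refine ⟨hr, ?_⟩
  rintro v ⟨a, ha1, ha2, rfl⟩
  unfold intZ at h'
  rw [List.all_eq_true] at h'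
  have h1 := h' (a - q.R.t) (List.mem_range.2 (by omega))
  rw [show q.R.t + (a - q.R.t) = a by omega] at h1
  simp only [Bool.or_eq_true, List.any_eq_true, List.elem_eq_mem, decide_eq_true_eq] at h1
  rcases h1 with ⟨s, hs, h1⟩ | h1
  · left
    refine ⟨(q.f s.1, s.2.1.map q.f, q.f s.2.2), ?_, ?_⟩
    · unfold Place.pth
      exact List.mem_map.2 ⟨s, hs, rfl⟩
    · exact List.mem_map.2 ⟨a, h1, rfl⟩
  · obtain ⟨-, w, hw⟩ := del_of1 hg hm h1
    exact Or.inr ⟨w, hw⟩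

theorem GainP.mono {r r' : ℕ} (h : GainP G q r) (hr : r ≤ r') : GainP G q r' :=
  ⟨fun t ht ht' => NearG.mono (h.ter t ht ht') hr, fun v hv h1 h2 => NearG.mono (h.int v hv h1 h2) hr⟩

theorem JoinP.mono {r r' : ℕ} (h : JoinP G q r) (hr : r ≤ r') : JoinP G q r' :=
  ⟨fun t ht t' ht' h1 h2 => by
    obtain ⟨n, hn, h3⟩ := h.ter t ht t' ht' h1 h2
    exact ⟨n, hn.trans hr, h3⟩, h.int⟩

/-- **A place with gain and a ring.** -/
theorem gainP_of_ring {R : Rot G} {k L : ℕ} (hg : Good q G) (hm : q.miss = []) (hr : RingP R q k)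
    (hL : ∀ d, sz R d ≤ L) (h : gainB q.R q.ps q.co = true) (h' : intB q.R q.ps q.co = true) :
    GainP G q (k * L + 2) :=
  gainP_of_ter hg hm (fun _ ht _ ht' h1 h2 => hr.steps1 hL ht ht' h1 h2) h h'

/-- **A place without gain and with a ring.** -/
theorem joinP_of_ring {R : Rot G} {k L : ℕ} (hg : Good q G) (hm : q.miss = []) (hr : RingP R q k)
    (hL : ∀ d, sz R d ≤ L) (h' : intZ q.R q.ps q.co = true) : JoinP G q (k * L) :=
  joinP_of_ter hg hm (fun _ ht _ ht' h1 h2 => hr.steps1 hL ht ht' h1 h2) h'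

/-- A place of a shape with at most nine terminals and gain. -/
theorem gainP_of_shape {R : Rot G} {L : ℕ} (hC : C5 R) {s : Shape} {f : ℕ → V}
    (hg : Good (s.pl f) G) (h : ringB s.R s.co = true) (hbig : s.R.m + 4 < Fintype.card V)
    (hL : ∀ d, sz R d ≤ L) (h1 : gainB s.R s.ps s.co = true) (h2 : intB s.R s.ps s.co = true) :
    GainP G (s.pl f) (9 * L + 2) :=
  gainP_of_ring hg rfl (ring_of_shape hC hg h hbig) hL h1 h2

/-- A place of a shape with at most nine terminals and without gain. -/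
theorem joinP_of_shape {R : Rot G} {L : ℕ} (hC : C5 R) {s : Shape} {f : ℕ → V}
    (hg : Good (s.pl f) G) (h : ringB s.R s.co = true) (hbig : s.R.m + 4 < Fintype.card V)
    (hL : ∀ d, sz R d ≤ L) (h2 : intZ s.R s.ps s.co = true) : JoinP G (s.pl f) (9 * L) :=
  joinP_of_ring hg rfl (ring_of_shape hC hg h hbig) hL h2

end Pool.Agent.Ring392
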