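import Mathlib
import Pool.Agent.Work.MP_392c8e_co_uni.Diam
import Pool.Agent.Work.MP_392c8e_co_uni.RingSingle
import Pool.Agent.Work.MP_392c8e_co_uni.FamilyA

/-!
# Places of a shape in the catalogue
-/

namespace Pool.Agent.U2Geo

open Finset Pool.Agent.Sub392 Pool.T1Side Pool.Agent.T392 Pool.Agent.T1FF Pool.Agent.T1Red
open Pool.Agent.Disch392 Pool.Agent.Uni392 Pool.Agent.Ring392
open Pool.Agent.Uni91 (GainP JoinP)

set_option linter.unusedSectionVars false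

variable {V : Type} [Fintype V] [DecidableEq V] {G : SimpleGraph V} [DecidableRel G.Adj]
  {R : Rot G}

/-- The shape is small and connected and its label 0 is old. -/
def shOK (s : Shape) : Bool :=
  decide (s.con 10) && decide (s.R.t ≤ 299) && decide (s.R.m ≤ 299) &&
    decide (0 < s.R.t + s.R.m) && decide (∀ p ∈ s.nl, p.1 ≠ 0)

/-- A vertex of a place of the catalogue. -/
def PP (R : Rot G) (r : ℕ) (v : V) : Prop := ∃ q : Place V, PlOK R r q ∧ v ∈ q.Vert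

theorem plW' {s : Shape} (hs : shOK s = true) {f : ℕ → V} (hg : Uni91.Good (s.pl f) G) {r : ℕ}
    (hr : 20 ≤ r) (h : GainP G (s.pl f) r ∨ JoinP G (s.pl f) r ∧ ∃ d, ZHex R (s.pl f) d) :
    PlOK R r (s.pl f) := by
  unfold shOK at hs
  simp only [Bool.and_eq_true, decide_eq_true_eq] at hs
  obtain ⟨⟨⟨⟨h1, h2⟩, h3⟩, h4⟩, h5⟩ := hs
  refine ⟨hg, h3, h2, ⟨f 0, 0, ⟨h4, List.not_mem_nil, h5⟩, rfl⟩, ?_, h⟩
  intro a ha b hb
  obtain ⟨w, hw⟩ := Shape.diam h1 hg a ha b hb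
  exact ⟨w, hw.trans (le_trans (by norm_num) hr)⟩

/-- A good place of a shape with gain. -/
theorem plW {s : Shape} (hs : shOK s = true) {f : ℕ → V} (hg : Uni91.Good (s.pl f) G) {r r' : ℕ}
    (hr : 20 ≤ r) (h : GainP G (s.pl f) r') (hrr : r' ≤ r) : PlOK R r (s.pl f) :=
  plW' hs hg hr (Or.inl (Ring392.GainP.mono h hrr))

/-- A good place of a shape with a hexagon. -/
theorem plWZ {s : Shape} (hs : shOK s = true) {f : ℕ → V} (hg : Uni91.Good (s.pl f) G) {r r' : ℕ}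
    (hr : 20 ≤ r) (h : JoinP G (s.pl f) r') (hrr : r' ≤ r) {d : G.Dart} (hz : ZHex R (s.pl f) d) :
    PlOK R r (s.pl f) :=
  plW' hs hg hr (Or.inr ⟨Ring392.JoinP.mono h hrr, d, hz⟩)

/-- A vertex of a place with gain. -/
theorem ppW {s : Shape} (hs : shOK s = true) {v : V} {r r' : ℕ} (hr : 20 ≤ r) (hrr : r' ≤ r)
    (h : ∃ f : ℕ → V, Uni91.Good (s.pl f) G ∧ GainP G (s.pl f) r' ∧ v ∈ (s.pl f).Vert) :
    PP R r v := by
  obtain ⟨f, h1, h2, h3⟩ := h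
  exact ⟨_, plW hs h1 hr h2 hrr, h3⟩

theorem PlOK.of_mir {q : Place V} {r : ℕ} (h : PlOK (Disch392.mir R) r q) : PlOK R r q := by
  refine ⟨h.good, h.hm, h.ht, h.ne, h.diam, ?_⟩
  rcases h.kind with h1 | ⟨h1, d, hd⟩
  · exact Or.inl h1
  · exact Or.inr ⟨h1, _, hd.mir⟩

theorem PP.of_mir {v : V} {r : ℕ} (h : PP (Disch392.mir R) r v) : PP R r v := by
  obtain ⟨q, h1, hv⟩ := h
  exact ⟨q, PlOK.of_mir h1, hv⟩

end Pool.Agent.U2Geo
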