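import Mathlib
import Pool.Agent.Work.MP_392c8e_co_uni.RingBP

/-!
# Choices of short outer faces

From each of several lists of outer faces one is short.
-/

namespace Pool.Agent.RingB

open Finset Pool.Agent.Sub392 Pool.Agent.T392 Pool.Agent.Disch392 Pool.Agent.Uni392
  Pool.Agent.U2Geo Pool.Agent.Ring392 Pool.Agent.Once392
open Pool.Agent.Uni91 (Good Fam FI FP GainP JoinP)
open Pool.Agent.T1Red (Red Int Same Real Old)

set_option linter.unusedSectionVars false

/-- All ways to choose one element from each list. -/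
def chs : List (List (ℕ × ℕ)) → List (List (ℕ × ℕ))
  | [] => [[]]
  | B :: bs => B.flatMap fun c => (chs bs).map fun l => c :: l

theorem chs_of {S : ℕ × ℕ → Prop} : ∀ {bs : List (List (ℕ × ℕ))}, (∀ B ∈ bs, ∃ c ∈ B, S c) →
    ∃ sh ∈ chs bs, ∀ c ∈ sh, S c := by
  intro bs
  induction bs with
  | nil => exact fun _ => ⟨[], by simp [chs], by simp⟩
  | cons B bs ih =>
    intro h
    obtain ⟨c, hc, hS⟩ := h B List.mem_cons_self
    obtain ⟨sh, h1, h2⟩ := ih fun B hB => h B (List.mem_cons_of_mem _ hB)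
    refine ⟨c :: sh, ?_, ?_⟩
    · unfold chs
      rw [List.mem_flatMap]
      exact ⟨c, hc, List.mem_map.2 ⟨sh, h1, rfl⟩⟩
    · intro x hx
      rw [List.mem_cons] at hx
      rcases hx with rfl | hx
      · exact hS
      · exact h2 x hx

variable {V : Type} [Fintype V] [DecidableEq V] {G : SimpleGraph V} [DecidableRel G.Adj]
  {R : Rot G} {q : Place V} {K : ℕ} {N : List (ℕ × ℕ × ℕ × ℕ)} {r : ℕ × ℕ} {D : List Gp}

/-- **Short outer faces**, the ring equation is given for the gaps in question. -/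
theorem gaps_of_ring (hg : Good q G) (hm : q.miss = []) (hN : RotOk R q.f N)
    (hl : labB q.R q.nl N = true) (hD : ∀ g ∈ D, gp1 N r g = true) {sh : List (ℕ × ℕ)}
    (hring : ∀ g ∈ D, (sh.any fun c => sF N g.a.swap c) = true →
      ∀ a b : {d : G.Dart // Ex (Int q.R q.f) d}, Dt q.f g.a a.1 → Dt q.f g.b b.1 →
        ring R (Int q.R q.f) b = a)
    (hsh : ∀ c ∈ sh, ∃ d : G.Dart, Dt q.f c d ∧ sz R d ≤ K) : Gaps G q K (gsOf N D sh) := by
  obtain ⟨hL, hreal⟩ := lab_of hg hm hN hl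
  intro e he
  unfold gsOf at he
  rw [List.mem_map] at he
  obtain ⟨g, hgD, rfl⟩ := he
  rw [List.mem_filter] at hgD
  obtain ⟨hgD, hF0⟩ := hgD
  have hF1 := hF0
  rw [List.any_eq_true] at hF1
  obtain ⟨c, hcs, hF⟩ := hF1
  have e1 := hD g hgD
  unfold gp1 at e1
  simp only [Bool.and_eq_true, Bool.not_eq_true'] at e1
  obtain ⟨⟨⟨⟨⟨⟨⟨c1, c2⟩, c3⟩, c4⟩, c5⟩, c6⟩, c7⟩, c8⟩ := e1
  obtain ⟨d, hd1, hd2⟩ := hsh c hcs
  have ha := dk_dt (d0 := d) (nbr_adj hN c3)
  have hb := dk_dt (d0 := d) (nbr_adj hN c4)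
  set a : {d : G.Dart // Ex (Int q.R q.f) d} := ⟨dk q.f d g.a, hL.ex_of c3 (by simpa using c5) ha⟩
  set b : {d : G.Dart // Ex (Int q.R q.f) d} := ⟨dk q.f d g.b, hL.ex_of c4 (by simpa using c6) hb⟩
  have h2 : ring R (Int q.R q.f) b = a := hring g hgD hF0 a b ha hb
  have hCn : Cn R a.1.symm (g.B.map (dk q.f d)) b.1 := cnL_ok hN ha.swap hb c1
  have h3 : R.face b.1 = R.face d := by
    rw [hCn.face]
    exact (sF_ok hN hF ha.swap hd1).symm
  have h4 : sz R b.1 ≤ K := by
    unfold sz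
    rw [h3]
    exact hd2
  have h5 := step_short R b h4
  rw [h2] at h5
  refine ⟨hreal _ (lbs_of_nbr c3).2, hreal _ (lbs_of_nbr c4).2, ?_⟩
  have e2 : a.1.snd = q.f g.a.2 := ha.2
  have e3 : b.1.snd = q.f g.b.2 := hb.2
  rw [← e2, ← e3]
  exact h5.symm

/-- **The gain of a place with long outer faces.**  From each list of `bs` one dart (seen from
outside) belongs to a short face, and every choice makes the place good. -/
theorem gain_of (hR : C5 R) (hg : Good q G) (hm : q.miss = []) (hN : RotOk R q.f N)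
    (hl : labB q.R q.nl N = true) (hD : gps N r D = true) (hc : Cond R (Int q.R q.f) D)
    (bs : List (List (ℕ × ℕ)))
    (hbs : ∀ B ∈ bs, ∃ c ∈ B, ∃ d : G.Dart, Dt q.f c d ∧ sz R d ≤ K)
    (h : ((chs bs).all fun sh => goodB q.R q.nl q.ps q.co (gsOf N D sh)) = true) :
    GainP G q (10 * (K + 1)) := by
  obtain ⟨sh, h1, h2⟩ := chs_of hbs
  exact gainP_of hg hm (gaps_of hR hg hm hN hl hD hc h2) (List.all_eq_true.1 h sh h1)

/-- **A place without gain, with long outer faces.** -/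
theorem join_of' (hR : C5 R) (hg : Good q G) (hm : q.miss = []) (hN : RotOk R q.f N)
    (hl : labB q.R q.nl N = true) (hD : gps N r D = true) (hc : Cond R (Int q.R q.f) D)
    (bs : List (List (ℕ × ℕ)))
    (hbs : ∀ B ∈ bs, ∃ c ∈ B, ∃ d : G.Dart, Dt q.f c d ∧ sz R d ≤ K)
    (h : ((chs bs).all fun sh => connT q.R q.nl q.ps (gsOf N D sh)) = true)
    (h' : intZ q.R q.ps q.co = true) : JoinP G q (20 * (K + 1)) := by
  obtain ⟨sh, h1, h2⟩ := chs_of hbs
  exact joinP_of hg hm (gaps_of hR hg hm hN hl hD hc h2) (List.all_eq_true.1 h sh h1) h'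

/-- **The gain**, the ring equation is given for every gap of the list. -/
theorem gain_ring (hg : Good q G) (hm : q.miss = []) (hN : RotOk R q.f N)
    (hl : labB q.R q.nl N = true) (hD : ∀ g ∈ D, gp1 N r g = true)
    (hring : ∀ g ∈ D, ∀ a b : {d : G.Dart // Ex (Int q.R q.f) d}, Dt q.f g.a a.1 →
      Dt q.f g.b b.1 → ring R (Int q.R q.f) b = a)
    (bs : List (List (ℕ × ℕ)))
    (hbs : ∀ B ∈ bs, ∃ c ∈ B, ∃ d : G.Dart, Dt q.f c d ∧ sz R d ≤ K)
    (h : ((chs bs).all fun sh => goodB q.R q.nl q.ps q.co (gsOf N D sh)) = true) :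
    GainP G q (10 * (K + 1)) := by
  obtain ⟨sh, h1, h2⟩ := chs_of hbs
  exact gainP_of hg hm (gaps_of_ring hg hm hN hl hD (fun g hg _ => hring g hg) h2)
    (List.all_eq_true.1 h sh h1)

/-- One orbit for a place with at most nine terminals. -/
theorem cond_of (hR : C5 R) (hg : Good q G) (hm : q.miss = []) (h : ringB q.R q.co = true)
    (hbig : q.R.m + 4 < Fintype.card V) (D : List Gp) : Cond R (Int q.R q.f) D :=
  Or.inr (ringP_of hR hg hm h hbig).one

/-- Short spokes. -/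
theorem cond_sp {U : V → Prop} (h : (D.all fun g => g.s.length ≤ 2) = true) : Cond R U D :=
  Or.inl h

end Pool.Agent.RingB
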