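import Mathlib
import Pool.Agent.Work.MP_392c8e_co_uni.RingTwo
import Pool.Agent.Work.MP_392c8e_co_uni.RingC
import Pool.Agent.Work.MP_392c8e_co_uni.ClsT

/-!
# The gain of a place in a cyclically 4-edge-connected graph

The statements for the instances: with lists of outer faces one of which is short, for a given
gadget or with the choice of the gadget by the pair of gaps in one face.  The names with `L` are for
the local hypothesis that small cuts with an edge at the place are trivial.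
-/

namespace Pool.Agent.RingTwo

open Finset Pool.Agent.Sub392 Pool.Agent.T392 Pool.Agent.Disch392 Pool.Agent.Uni392
  Pool.Agent.U2Geo Pool.Agent.Ring392 Pool.Agent.Once392 Pool.Agent.RingB
open Pool.Agent.Uni91 (Good GainP JoinP)
open Pool.Agent.T1Red (Red Int Same Real Old)

set_option linter.unusedSectionVars false

variable {V : Type} [Fintype V] [DecidableEq V] {G : SimpleGraph V} [DecidableRel G.Adj]
  {R : Rot G} {q : Place V} {K : ℕ} {N : List (ℕ × ℕ × ℕ × ℕ)} {r : ℕ × ℕ} {D : List Gp}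

theorem cut3_of (h : C4 R) {U : V → Prop} : Cut3 R U :=
  ⟨h.cub, h.plane, fun A h1 _ => h.cut A h1⟩

/-- **The gain of a place.**  From each list of `bs` one dart (seen from outside) belongs to a short
face; every choice makes the place good in all cases. -/
theorem gainL (hC : Cut3 R (Int q.R q.f)) (hg : Good q G) (hm : q.miss = [])
    (hN : RotOk R q.f N) (hp : placeC q.R q.nl q.co N r D = true) (bs : List (List (ℕ × ℕ)))
    (hbs : ∀ B ∈ bs, ∃ c ∈ B, ∃ d : G.Dart, Dt q.f c d ∧ sz R d ≤ K)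
    (h : ((chs bs).all fun sh => goodC q.R q.nl q.ps q.co N D sh) = true) :
    GainP G q (10 * (K + 1)) := by
  obtain ⟨sh, h1, h2⟩ := chs_of hbs
  exact gainC_of hC hg hm hN hp h2 (List.all_eq_true.1 h sh h1)

theorem gainC (hR : C4 R) (hg : Good q G) (hm : q.miss = []) (hN : RotOk R q.f N)
    (hp : placeC q.R q.nl q.co N r D = true) (bs : List (List (ℕ × ℕ)))
    (hbs : ∀ B ∈ bs, ∃ c ∈ B, ∃ d : G.Dart, Dt q.f c d ∧ sz R d ≤ K)
    (h : ((chs bs).all fun sh => goodC q.R q.nl q.ps q.co N D sh) = true) :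
    GainP G q (10 * (K + 1)) := gainL (cut3_of hR) hg hm hN hp bs hbs h

/-- In every possible case all kept labels are joined. -/
def connC (R : Red) (nl : List (ℕ × ℕ)) (ps : List (ℕ × List ℕ × ℕ))
    (N : List (ℕ × ℕ × ℕ × ℕ)) (D : List Gp) (sh : List (ℕ × ℕ)) : Bool :=
  connT R nl ps (gsOf N D sh) && (prs D).all fun c => connT R nl ps (gsC N D sh c)

/-- **A place without gain.** -/
theorem joinL (hC : Cut3 R (Int q.R q.f)) (hg : Good q G) (hm : q.miss = [])
    (hN : RotOk R q.f N) (hp : placeC q.R q.nl q.co N r D = true) (bs : List (List (ℕ × ℕ)))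
    (hbs : ∀ B ∈ bs, ∃ c ∈ B, ∃ d : G.Dart, Dt q.f c d ∧ sz R d ≤ K)
    (h : ((chs bs).all fun sh => connC q.R q.nl q.ps N D sh) = true)
    (h' : intZ q.R q.ps q.co = true) : JoinP G q (20 * (K + 1)) := by
  obtain ⟨sh, h1, h2⟩ := chs_of hbs
  have h3 := List.all_eq_true.1 h sh h1
  unfold connC at h3
  rw [Bool.and_eq_true, List.all_eq_true] at h3
  rcases gapsC_of hC hg hm hN hp h2 with ⟨-, h4⟩ | ⟨c, hc, -, -, h4⟩
  · exact joinP_of hg hm h4 h3.1 h'
  · exact joinP_of hg hm h4 (h3.2 c hc) h'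

theorem joinC (hR : C4 R) (hg : Good q G) (hm : q.miss = []) (hN : RotOk R q.f N)
    (hp : placeC q.R q.nl q.co N r D = true) (bs : List (List (ℕ × ℕ)))
    (hbs : ∀ B ∈ bs, ∃ c ∈ B, ∃ d : G.Dart, Dt q.f c d ∧ sz R d ≤ K)
    (h : ((chs bs).all fun sh => connC q.R q.nl q.ps N D sh) = true)
    (h' : intZ q.R q.ps q.co = true) : JoinP G q (20 * (K + 1)) :=
  joinL (cut3_of hR) hg hm hN hp bs hbs h h'

/-! ## The choice of the gadget -/

/-- The conditions on a table which do not depend on the gadget. -/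
def tabC (N : List (ℕ × ℕ × ℕ × ℕ)) (r : ℕ × ℕ) (D : List Gp) : Bool := gps N r D && chkC D

/-- **The cases**: no two gaps in one face, or one pair of the list. -/
theorem cases_ofL (hC : Cut3 R (Int q.R q.f)) (hg : Good q G) (hm : q.miss = [])
    (hN : RotOk R q.f N) (hp : placeC q.R q.nl q.co N r D = true) : NoPair R q.f D ∨
      ∃ c ∈ prs D, OnePair R (Int q.R q.f) q.f D c.1 c.2 ∧ SepC G (Int q.R q.f) q.f D c := by
  rcases gapsC_of (K := 0) hC hg hm hN hp (sh := []) (by simp) with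
    ⟨h1, -⟩ | ⟨c, hc, h1, h2, -⟩
  · exact Or.inl h1
  · exact Or.inr ⟨c, hc, h1, h2⟩

theorem cases_of (hR : C4 R) (hg : Good q G) (hm : q.miss = []) (hN : RotOk R q.f N)
    (hp : placeC q.R q.nl q.co N r D = true) : NoPair R q.f D ∨
      ∃ c ∈ prs D, OnePair R (Int q.R q.f) q.f D c.1 c.2 ∧ SepC G (Int q.R q.f) q.f D c :=
  cases_ofL (cut3_of hR) hg hm hN hp

/-- The gain if no two gaps are in one face. -/
theorem gain_noL (hC : Cut3 R (Int q.R q.f)) (hg : Good q G) (hm : q.miss = [])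
    (hN : RotOk R q.f N) (hp : placeC q.R q.nl q.co N r D = true) (H : NoPair R q.f D)
    (bs : List (List (ℕ × ℕ)))
    (hbs : ∀ B ∈ bs, ∃ c ∈ B, ∃ d : G.Dart, Dt q.f c d ∧ sz R d ≤ K)
    (h : ((chs bs).all fun sh => goodB q.R q.nl q.ps q.co (gsOf N D sh)) = true) :
    GainP G q (10 * (K + 1)) := by
  obtain ⟨sh, h1, h2⟩ := chs_of hbs
  unfold placeC at hp
  simp only [Bool.and_eq_true, Nat.ble_eq] at hp
  obtain ⟨⟨⟨⟨⟨p1, p2⟩, p3⟩, p4⟩, p5⟩, p6⟩ := hp
  obtain ⟨hl, hreal⟩ := lab_of hg hm hN p4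
  exact gainP_of hg hm (gaps_noPair hC hl hreal (gpw_of p5) H h2)
    (List.all_eq_true.1 h sh h1)

theorem gain_no (hR : C4 R) (hg : Good q G) (hm : q.miss = []) (hN : RotOk R q.f N)
    (hp : placeC q.R q.nl q.co N r D = true) (H : NoPair R q.f D) (bs : List (List (ℕ × ℕ)))
    (hbs : ∀ B ∈ bs, ∃ c ∈ B, ∃ d : G.Dart, Dt q.f c d ∧ sz R d ≤ K)
    (h : ((chs bs).all fun sh => goodB q.R q.nl q.ps q.co (gsOf N D sh)) = true) :
    GainP G q (10 * (K + 1)) := gain_noL (cut3_of hR) hg hm hN hp H bs hbs h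

/-- The gain if two given gaps are in one face. -/
theorem gain_pairL (hC : Cut3 R (Int q.R q.f)) (hg : Good q G) (hm : q.miss = [])
    (hN : RotOk R q.f N) (hp : placeC q.R q.nl q.co N r D = true) {c : Gp × Gp}
    (H : OnePair R (Int q.R q.f) q.f D c.1 c.2) (bs : List (List (ℕ × ℕ)))
    (hbs : ∀ B ∈ bs, ∃ c ∈ B, ∃ d : G.Dart, Dt q.f c d ∧ sz R d ≤ K)
    (h : ((chs bs).all fun sh => goodB q.R q.nl q.ps q.co (gsC N D sh c)) = true) :
    GainP G q (10 * (K + 1)) := by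
  obtain ⟨sh, h1, h2⟩ := chs_of hbs
  unfold placeC at hp
  simp only [Bool.and_eq_true, Nat.ble_eq] at hp
  obtain ⟨⟨⟨⟨⟨p1, p2⟩, p3⟩, p4⟩, p5⟩, p6⟩ := hp
  obtain ⟨hl, hreal⟩ := lab_of hg hm hN p4
  exact gainP_of hg hm (gaps_onePair hC (disc_of hC hg hm p1 p2 p3) hl hreal p5 H h2)
    (List.all_eq_true.1 h sh h1)

theorem gain_pair (hR : C4 R) (hg : Good q G) (hm : q.miss = []) (hN : RotOk R q.f N)
    (hp : placeC q.R q.nl q.co N r D = true) {c : Gp × Gp}
    (H : OnePair R (Int q.R q.f) q.f D c.1 c.2) (bs : List (List (ℕ × ℕ)))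
    (hbs : ∀ B ∈ bs, ∃ c ∈ B, ∃ d : G.Dart, Dt q.f c d ∧ sz R d ≤ K)
    (h : ((chs bs).all fun sh => goodB q.R q.nl q.ps q.co (gsC N D sh c)) = true) :
    GainP G q (10 * (K + 1)) := gain_pairL (cut3_of hR) hg hm hN hp H bs hbs h

/-- The cases for a table, without a place: the set `U` of the interior vertices. -/
theorem cases_labL {U : V → Prop} {f : ℕ → V} (hC : Cut3 R U) (h : Lab R U f N) (hU : Disc G U)
    (ht : tabC N r D = true) : NoPair R f D ∨
      ∃ c ∈ prs D, OnePair R U f D c.1 c.2 ∧ SepC G U f D c := by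
  unfold tabC at ht
  rw [Bool.and_eq_true] at ht
  rcases no_or_one h hC hU ht.1 ht.2 with H | ⟨g, g', H⟩
  · exact Or.inl H
  · refine Or.inr ⟨(g, g'), mem_prs H.mg H.mh H.ne H.ok, H, ?_⟩
    obtain ⟨p, hp⟩ := H.pot
    exact ⟨p, hp.out, hp.vals (fun e he => he) (chn_of ht.1)⟩

theorem cases_lab {U : V → Prop} {f : ℕ → V} (hR : C4 R) (h : Lab R U f N) (hU : Disc G U)
    (ht : tabC N r D = true) : NoPair R f D ∨
      ∃ c ∈ prs D, OnePair R U f D c.1 c.2 ∧ SepC G U f D c :=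
  cases_labL (cut3_of hR) h hU ht

end Pool.Agent.RingTwo
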