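import Mathlib
import Pool.Agent.Work.MP_392c8e_co_uni.RingTwo
import Pool.Agent.Work.MP_392c8e_co_uni.RingShB
import Pool.Agent.Work.MP_392c8e_co_uni.GapData
import Pool.Agent.Work.MP_392c8e_co_uni.PlW
import Pool.Agent.Work.MP_392c8e_co_uni.PatchGood
import Pool.Agent.Work.MP_392c8e_co_uni.GeoC4d
import Pool.Agent.Work.MP_392c8e_co_uni.RingTwoB
import Pool.Agent.Work.MP_392c8e_co_uni.PatchG1T

/-!
# The line g1 of stage C, from the patches
-/

namespace Pool.Agent.T1Red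

/-- The extension property with more allowed coincidences is stronger. -/
theorem Red.Ext.mono {R : Red} {co co' : List (ℕ × ℕ)} (h : R.Ext co')
    (hs : ∀ p ∈ co, p ∈ co') : R.Ext co := by
  intro c τ hτ hnw
  refine h c τ (fun i j hi hj hij => ?_) hnw
  rcases hτ i j hi hj hij with h1 | h1 | h1
  · exact Or.inl h1
  · exact Or.inr (Or.inl (hs _ h1))
  · exact Or.inr (Or.inr (hs _ h1))

end Pool.Agent.T1Red

namespace Pool.Agent.U2Geo

open Finset Pool.Agent.Sub392 Pool.T1Side Pool.Agent.T392 Pool.Agent.T1FF Pool.Agent.T1Red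
open Pool.Agent.Disch392 (nb ad)
open Pool.Agent.GapData (gG1)
open Pool.Agent.DischB (Bf Snd Pair7)
open Pool.Agent.Once392 (RotOk ShOk shG1 shOk_G1)
open Pool.Agent.RingTwo (Cut3 placeC goodC gainC_of cut3_of)
open Pool.Agent.Uni91 (GainP)

set_option linter.unusedSectionVars false

variable {V : Type} [Fintype V] [DecidableEq V] {G : SimpleGraph V} [DecidableRel G.Adj]
  {R : Rot G} {K : ℕ}

/-- **A vertex of a good place.** -/
theorem ppC {s : Shape} (hs : shOK s = true) {f : ℕ → V} (hC : Cut3 R (Int s.R f))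
    (hg : Uni91.Good (s.pl f) G) {N : List (ℕ × ℕ × ℕ × ℕ)} (hN : RotOk R f N) {r0 : ℕ × ℕ}
    {D : List Pool.Agent.Once392.Gp} (h : placeC s.R s.nl s.co N r0 D = true) {sh : List (ℕ × ℕ)}
    (hsh : ShOk R K f sh) (h' : goodC s.R s.nl s.ps s.co N D sh = true) {r : ℕ} (hr : 20 ≤ r)
    (hK : 10 * (K + 1) ≤ r) {v : V} (hv : v ∈ (s.pl f).Vert) : PP R r v :=
  ppW hs hr hK ⟨f, hg, gainC_of hC hg rfl hN h hsh h', hv⟩

/-! ### G1 -/

/-- The allowed coincidences of G1. -/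
def coG1 : List (ℕ × ℕ) := [(2, 7), (3, 7)]

/-- All of them. -/
def coG1' : List (ℕ × ℕ) := [(2, 7), (3, 7), (3, 8)]

/-- The paths of G1. -/
def psG1C : List (ℕ × List ℕ × ℕ) :=
  [(0, [14, 15], 1), (2, [16, 17], 3), (4, [19, 20], 5), (6, [21, 22, 23], 8)]

/-- The pairs of the new edges. -/
def comG1 : List (ℕ × ℕ) := [(0, 1), (2, 3), (4, 5), (6, 8)]

/-- The shape of G1, first case. -/
def sG1a : Shape := ⟨G1c, [], psG1C, coG1, comG1, []⟩

/-- The shape of G1, second case. -/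
def sG1b : Shape := ⟨G1c, [], psG1C, coG1', comG1, [(2, 6)]⟩

theorem data_G1a : Data G1c [] psG1C [] coG1 comG1 [] := by
  constructor <;> decide

theorem data_G1b : Data G1c [] psG1C [] coG1' comG1 [(2, 6)] := by
  constructor <;> decide

theorem back_G1a : Back G1c [] psG1C coG1 := by
  constructor <;> decide

theorem back_G1b : Back G1c [] psG1C coG1' := by
  constructor <;> decide

theorem shOK_G1a : shOK sG1a = true := by decide +kernel

theorem shOK_G1b : shOK sG1b = true := by decide +kernel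

theorem placeC_G1a : placeC sG1a.R sG1a.nl sG1a.co tG1 (9, 10) gG1 = true := by decide +kernel

theorem placeC_G1b : placeC sG1b.R sG1b.nl sG1b.co tG1 (9, 10) gG1 = true := by decide +kernel

theorem goodC_G1a : goodC sG1a.R sG1a.nl sG1a.ps sG1a.co tG1 gG1 shG1 = true := by
  decide +kernel

theorem goodC_G1b : goodC sG1b.R sG1b.nl sG1b.ps sG1b.co tG1 gG1 shG1 = true := by
  decide +kernel

/-- Each of the shapes contains the vertex of the dart. -/
theorem mem_G1 (s : Shape) (hR : s.R = G1c) (hnl : s.nl = []) (d : G.Dart) :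
    d.fst ∈ (s.pl (fG1 R d)).Vert := by
  refine ⟨9, ?_, rfl⟩
  show Real s.R s.nl [] 9
  rw [hR, hnl]
  exact ⟨by decide, by decide, by decide⟩

/-- **The line g1 of stage C from the patch.** -/
theorem ppC_g1 (hext : G1c.Ext coG1') {r : ℕ} (hr : 20 ≤ r)
    (hK : 10 * (K + 1) ≤ r) {d : G.Dart} (hC : Cut3 R (Int G1c (fG1 R d))) (h : Pair7 R d) (h3 : nb R d 3 = 5)
    (a0 : Bf R K (ad R d 0)) (a1 : Bf R K (ad R d 1)) (a3 : Bf R K (ad R d 3))
    (hp : Patch G G1c [] coG1 comG1 [] (fG1 R d) ∨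
      Patch G G1c [] coG1' comG1 [(2, 6)] (fG1 R d)) : PP R r d.fst := by
  have g : ∀ {e : G.Dart} {L : ℕ}, sz R e = L → T1FF.Good R e L := fun h => ⟨h, fun _ => hC.1 _⟩
  have hN : RotOk R (fG1 R d) tG1 := rotG1 (g h.s) (g ((szAcT R d 0).trans h.s0))
    (g ((szAcT R d 1).trans h.s1)) (g ((szAcT R d 3).trans h3))
  have hsh : ShOk R K (fG1 R d) shG1 := shOk_G1 hN a0 a1 a3
  rcases hp with hp | hp
  · have hg : Uni91.Good (sG1a.pl (fG1 R d)) G :=
      hp.good (hext.mono (by decide)) data_G1a back_G1a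
    exact ppC (s := sG1a) shOK_G1a hC hg hN placeC_G1a hsh goodC_G1a hr hK
      (mem_G1 sG1a rfl rfl d)
  · have hg : Uni91.Good (sG1b.pl (fG1 R d)) G := hp.good hext data_G1b back_G1b
    exact ppC (s := sG1b) shOK_G1b hC hg hN placeC_G1b hsh goodC_G1b hr hK
      (mem_G1 sG1b rfl rfl d)

/-- **The line g1 of the table of stage C.** -/
theorem lineC_g1 (hext : G1c.Ext [(2, 7), (3, 7), (3, 8)]) (hC : C4 R) {r : ℕ} (hr : 20 ≤ r)
    (hK : 10 * (K + 1) ≤ r) (d : G.Dart) (hN : N4 R 60 d.fst) (h : Pair7 R d)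
    (h3 : nb R d 3 = 5) (h5 : nb R d 5 ≠ 5) (a0 : Snd R K (ad R d 0)) (a1 : Snd R K (ad R d 1))
    (a3 : Snd R K (ad R d 3)) : PP R r d.fst :=
  ppC_g1 hext hr hK (cut3_of hC) h h3 a0.1 a1.1 a3.1
    (patchG1T hC.clsT (hN.mono (by norm_num)) h h3 h5)

end Pool.Agent.U2Geo
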