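import Mathlib
import Pool.Agent.Work.MP_392c8e_co_uni.RingTwo

/-!
# A cheap form of the checks of chains of labels

Sets of labels are numbers (the bit `j` tells whether the label `j` belongs to the set).  The
check `fastB` implies the check `goodB`, and it needs much less memory.
-/

namespace Pool.Agent.FastG

open Pool.Agent.T1Red Pool.Agent.Once392 Pool.Agent.RingB Pool.Agent.RingTwo Pool.Agent.Ring392

/-- The number is evaluated first. -/
def fc (n : ℕ) (k : ℕ → Bool) : Bool := Nat.rec (k 0) (fun m _ => k (m + 1)) n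

theorem fc_eq (n : ℕ) (k : ℕ → Bool) : fc n k = k n := by
  cases n <;> rfl

/-- The bit. -/
def bt (S j : ℕ) : Bool := Nat.beq ((S >>> j) % 2) 1

theorem bt_eq (S j : ℕ) : bt S j = S.testBit j := by
  unfold bt
  rw [Nat.testBit_eq_decide_div_mod_eq, Nat.shiftRight_eq_div_pow]
  rcases Nat.mod_two_eq_zero_or_one (S / 2 ^ j) with h | h <;> rw [h] <;> rfl

/-- The labels joined to the set `S` by the given pairs are added to `T`. -/
def grow (S : ℕ) : List (ℕ × ℕ) → ℕ → ℕ
  | [], T => T
  | e :: l, T => grow S l (bif bt S e.1 then T ||| (1 <<< e.2) else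
      bif bt S e.2 then T ||| (1 <<< e.1) else T)

/-- At most `n` steps from the set `S` reach all labels of the set `Q`. -/
def reach (E : List (ℕ × ℕ)) (Q : ℕ) : ℕ → ℕ → Bool
  | 0, S => Nat.beq (S &&& Q) Q
  | n + 1, S => Nat.beq (S &&& Q) Q || fc (grow S E S) (reach E Q n)

/-- The labels are small. -/
def smallE (n : ℕ) (E : List (ℕ × ℕ)) : Bool := E.all fun e => Nat.blt e.1 n && Nat.blt e.2 n

/-- The data of the cheap check: the joined pairs of labels, the set of the labels with a deleted
edge, the set of the labels which have to be reached. -/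
def preB (R : Red) (nl : List (ℕ × ℕ)) (ps : List (ℕ × List ℕ × ℕ)) (co E : List (ℕ × ℕ))
    (I Q : ℕ) : Bool :=
  smallE (R.t + R.m) E && E.all (fun e => joinB ps e.1 e.2 && joinB ps e.2 e.1) &&
    Nat.blt I (2 ^ (R.t + R.m)) &&
    (List.range (R.t + R.m)).all (fun a => !bt I a || delB R ps co a) &&
    (List.range R.t).all (fun j => !decide (Old nl j) || bt Q j) &&
    (List.range R.m).all (fun i => (ps.any fun q => q.2.1.elem (R.t + i)) || bt Q (R.t + i))

/-- The cheap check. -/
def fastB (n : ℕ) (E : List (ℕ × ℕ)) (I Q : ℕ) (gs : List (ℕ × ℕ)) : Bool :=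
  smallE n gs && reach (E ++ gs) Q 10 I

theorem grow_of {S : ℕ} : ∀ {E : List (ℕ × ℕ)} {T j : ℕ}, (grow S E T).testBit j = true →
    T.testBit j = true ∨ ∃ e ∈ E, (S.testBit e.1 = true ∧ j = e.2) ∨
      (S.testBit e.2 = true ∧ j = e.1) := by
  intro E
  induction E with
  | nil => exact fun h => Or.inl h
  | cons e l ih =>
    intro T j h
    rcases ih h with h1 | ⟨e', h1, h2⟩
    · rw [bt_eq, bt_eq] at h1
      by_cases ha : S.testBit e.1 = true
      · rw [ha, cond_true, Nat.testBit_lor, Bool.or_eq_true] at h1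
        rcases h1 with h1 | h1
        · exact Or.inl h1
        · rw [Nat.one_shiftLeft, Nat.testBit_two_pow, decide_eq_true_eq] at h1
          exact Or.inr ⟨e, List.mem_cons_self, Or.inl ⟨ha, h1.symm⟩⟩
      · rw [Bool.not_eq_true] at ha
        rw [ha, cond_false] at h1
        by_cases hb : S.testBit e.2 = true
        · rw [hb, cond_true, Nat.testBit_lor, Bool.or_eq_true] at h1
          rcases h1 with h1 | h1
          · exact Or.inl h1
          · rw [Nat.one_shiftLeft, Nat.testBit_two_pow, decide_eq_true_eq] at h1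
            exact Or.inr ⟨e, List.mem_cons_self, Or.inr ⟨hb, h1.symm⟩⟩
        · rw [Bool.not_eq_true] at hb
          rw [hb, cond_false] at h1
          exact Or.inl h1
    · exact Or.inr ⟨e', List.mem_cons_of_mem _ h1, h2⟩

variable {R : Red} {nl : List (ℕ × ℕ)} {ps : List (ℕ × List ℕ × ℕ)}
  {co gs E : List (ℕ × ℕ)} {S0 : List ℕ} {I Q : ℕ}

theorem rch_succ {n j : ℕ} (h : j ∈ rch R ps gs S0 n) : j ∈ rch R ps gs S0 (n + 1) := by
  show j ∈ rch R ps gs S0 n ++ _
  exact List.mem_append_left _ h

theorem rch_add {n j : ℕ} (h : j ∈ rch R ps gs S0 n) : ∀ k, j ∈ rch R ps gs S0 (n + k)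
  | 0 => h
  | k + 1 => rch_succ (rch_add h k)

theorem rch_step {n a b : ℕ} (h : b ∈ rch R ps gs S0 n) (ha : a < R.t + R.m)
    (hl : lkB ps gs a b = true) : a ∈ rch R ps gs S0 (n + 1) := by
  by_cases h1 : a ∈ rch R ps gs S0 n
  · exact rch_succ h1
  · show a ∈ rch R ps gs S0 n ++ _
    refine List.mem_append_right _ ?_
    rw [List.mem_filter]
    refine ⟨List.mem_range.2 ha, ?_⟩
    rw [Bool.and_eq_true, List.any_eq_true]
    refine ⟨?_, b, h, hl⟩
    rw [Bool.not_eq_true', List.elem_eq_mem, decide_eq_false_iff_not]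
    exact h1

/-- The pairs are joined. -/
def Lk (R : Red) (ps : List (ℕ × List ℕ × ℕ)) (gs E : List (ℕ × ℕ)) : Prop :=
  ∀ e ∈ E, (e.1 < R.t + R.m ∧ e.2 < R.t + R.m) ∧ lkB ps gs e.1 e.2 = true ∧
    lkB ps gs e.2 e.1 = true

theorem grow_mem (hE : Lk R ps gs E) {n S : ℕ}
    (hS : ∀ j, S.testBit j = true → j ∈ rch R ps gs S0 n) :
    ∀ j, (grow S E S).testBit j = true → j ∈ rch R ps gs S0 (n + 1) := by
  intro j hj
  rcases grow_of hj with h | ⟨e, he, ⟨h1, rfl⟩ | ⟨h1, rfl⟩⟩
  · exact rch_succ (hS j h)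
  · exact rch_step (hS _ h1) (hE e he).1.2 (hE e he).2.2
  · exact rch_step (hS _ h1) (hE e he).1.1 (hE e he).2.1

theorem sub_of {S Q : ℕ} (h : Nat.beq (S &&& Q) Q = true) {j : ℕ} (hj : Q.testBit j = true) :
    S.testBit j = true := by
  have h1 : S &&& Q = Q := Nat.eq_of_beq_eq_true h
  rw [← h1, Nat.testBit_land, Bool.and_eq_true] at hj
  exact hj.1

theorem reach_mem (hE : Lk R ps gs E) : ∀ {k n S : ℕ},
    (∀ j, S.testBit j = true → j ∈ rch R ps gs S0 n) → reach E Q k S = true →
    ∀ j, Q.testBit j = true → j ∈ rch R ps gs S0 (n + k) := by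
  intro k
  induction k with
  | zero =>
    intro n S hS h j hj
    exact hS j (sub_of h hj)
  | succ k ih =>
    intro n S hS h j hj
    unfold reach at h
    rw [Bool.or_eq_true, fc_eq] at h
    rcases h with h | h
    · exact rch_add (hS j (sub_of h hj)) (k + 1)
    · have h1 := ih (grow_mem hE hS) h j hj
      rwa [show n + 1 + k = n + (k + 1) by omega] at h1

/-- **The cheap check implies the check.** -/
theorem goodB_of (hp : preB R nl ps co E I Q = true)
    (h : fastB (R.t + R.m) E I Q gs = true) : goodB R nl ps co gs = true := by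
  unfold preB at hp
  simp only [Bool.and_eq_true] at hp
  obtain ⟨⟨⟨⟨⟨h1, h2⟩, h3⟩, h4⟩, h5⟩, h6⟩ := hp
  unfold fastB at h
  rw [Bool.and_eq_true] at h
  obtain ⟨h7, h8⟩ := h
  unfold smallE at h1 h7
  have hE : Lk R ps gs (E ++ gs) := by
    intro e he
    rw [List.mem_append] at he
    rcases he with he | he
    · have a1 := List.all_eq_true.1 h1 e he
      have a2 := List.all_eq_true.1 h2 e he
      simp only [Bool.and_eq_true, Nat.blt_eq] at a1 a2
      exact ⟨a1, by unfold lkB; rw [a2.1]; rfl, by unfold lkB; rw [a2.2]; rfl⟩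
    · have a1 := List.all_eq_true.1 h7 e he
      simp only [Bool.and_eq_true, Nat.blt_eq] at a1
      refine ⟨a1, ?_, ?_⟩
      · unfold lkB
        rw [Bool.or_eq_true, List.any_eq_true]
        exact Or.inr ⟨e, he, by simp⟩
      · unfold lkB
        rw [Bool.or_eq_true, List.any_eq_true]
        exact Or.inr ⟨e, he, by simp⟩
  have hI : ∀ j, I.testBit j = true → j ∈ rch R ps gs
      ((List.range (R.t + R.m)).filter fun a => delB R ps co a) 0 := by
    intro j hj
    have hjn : j < R.t + R.m := by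
      by_contra hlt
      have h10 : I < 2 ^ (R.t + R.m) := by rwa [Nat.blt_eq] at h3
      have h9 : I < 2 ^ j := lt_of_lt_of_le h10
        (Nat.pow_le_pow_right (by norm_num) (not_lt.1 hlt))
      rw [Nat.testBit_eq_false_of_lt h9] at hj
      exact absurd hj (by simp)
    show j ∈ (List.range (R.t + R.m)).filter fun a => delB R ps co a
    rw [List.mem_filter]
    refine ⟨List.mem_range.2 hjn, ?_⟩
    have h9 := List.all_eq_true.1 h4 j (List.mem_range.2 hjn)
    rw [bt_eq, hj] at h9
    simpa using h9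
  have hQ := reach_mem hE hI h8
  rw [Nat.zero_add] at hQ
  unfold goodB
  rw [Bool.and_eq_true]
  constructor
  · rw [List.all_eq_true]
    intro j hj
    have h9 := List.all_eq_true.1 h5 j hj
    rw [bt_eq, Bool.or_eq_true] at h9
    rw [Bool.or_eq_true]
    rcases h9 with h9 | h9
    · exact Or.inl h9
    · exact Or.inr (by rw [List.elem_eq_mem, decide_eq_true_eq]; exact hQ j h9)
  · rw [List.all_eq_true]
    intro i hi
    have h9 := List.all_eq_true.1 h6 i hi
    rw [bt_eq, Bool.or_eq_true] at h9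
    rw [Bool.or_eq_true]
    rcases h9 with h9 | h9
    · exact Or.inl h9
    · exact Or.inr (by rw [List.elem_eq_mem, decide_eq_true_eq]; exact hQ _ h9)

/-- The cheap check for a place with a gain in every orbit; `P` is the list of the pairs of
gaps. -/
def fastC (n : ℕ) (E : List (ℕ × ℕ)) (I Q : ℕ) (N : List (ℕ × ℕ × ℕ × ℕ)) (D : List Gp)
    (P : List (Gp × Gp)) (sh : List (ℕ × ℕ)) : Bool :=
  fastB n E I Q (gsOf N D sh) && P.all fun c => fastB n E I Q (gsC N D sh c)

/-- The gaps are equal. -/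
def eqG (g h : Gp) : Bool := g.a == h.a && g.B == h.B && g.b == h.b && g.s == h.s

theorem eqG_of {g h : Gp} (he : eqG g h = true) : g = h := by
  unfold eqG at he
  simp only [Bool.and_eq_true, beq_iff_eq] at he
  obtain ⟨⟨⟨h1, h2⟩, h3⟩, h4⟩ := he
  cases g
  cases h
  simp only at h1 h2 h3 h4
  subst h1 h2 h3 h4
  rfl

/-- The gap with the given place in the list. -/
def gd (D : List Gp) (i : ℕ) : Gp := D.getD i ⟨(0, 0), [], (0, 0), []⟩

/-- The pairs of gaps with the given places in the list. -/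
def pk (D : List Gp) (l : List (ℕ × ℕ)) : List (Gp × Gp) := l.map fun x => (gd D x.1, gd D x.2)

/-- All possible pairs of gaps belong to the list. -/
def pairB (D : List Gp) (P : List (Gp × Gp)) : Bool :=
  (prs D).all fun c => P.any fun c' => eqG c.1 c'.1 && eqG c.2 c'.2

/-- **The cheap check implies the check**, with the list of the pairs of gaps. -/
theorem goodC_of (hp : preB R nl ps co E I Q = true) {N : List (ℕ × ℕ × ℕ × ℕ)} {D : List Gp}
    {P : List (Gp × Gp)} (hP : pairB D P = true) {sh : List (ℕ × ℕ)}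
    (h : fastC (R.t + R.m) E I Q N D P sh = true) : goodC R nl ps co N D sh = true := by
  unfold fastC at h
  rw [Bool.and_eq_true, List.all_eq_true] at h
  unfold goodC
  rw [Bool.and_eq_true, List.all_eq_true]
  refine ⟨goodB_of hp h.1, fun c hc => goodB_of hp ?_⟩
  unfold pairB at hP
  have h1 := List.all_eq_true.1 hP c hc
  rw [List.any_eq_true] at h1
  obtain ⟨c', hc', h2⟩ := h1
  rw [Bool.and_eq_true] at h2
  have h3 : c = c' := Prod.ext (eqG_of h2.1) (eqG_of h2.2)
  rw [h3]
  exact h.2 c' hc'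

/-- The first part of the cheap check. -/
theorem goodB_of_fastC (hp : preB R nl ps co E I Q = true) {N : List (ℕ × ℕ × ℕ × ℕ)}
    {D : List Gp} {P : List (Gp × Gp)} {sh : List (ℕ × ℕ)}
    (h : fastC (R.t + R.m) E I Q N D P sh = true) : goodB R nl ps co (gsOf N D sh) = true := by
  unfold fastC at h
  rw [Bool.and_eq_true] at h
  exact goodB_of hp h.1

end Pool.Agent.FastG
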