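import Mathlib
import Pool.Agent.Work.MP_392c8e_co_uni.OnceLab

/-!
# Faces come back at the neighbouring dart: one gap

For one gap of a patch it is enough that every other gap is joined with it by at most four faces.
-/

namespace Pool.Agent.Once392

open Finset Pool.Agent.Sub392 Pool.Agent.T392 Pool.Agent.U2Geo Pool.Agent.Ring392

set_option linter.unusedSectionVars false

variable {V : Type} [Fintype V] [DecidableEq V] {G : SimpleGraph V} [DecidableRel G.Adj]

/-- A gap with walks of faces to several inner faces, given by darts. -/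
structure Gq where
  /-- the first leaving dart -/
  a : ℕ × ℕ
  /-- the boundary darts -/
  B : List (ℕ × ℕ)
  /-- the second leaving dart -/
  b : ℕ × ℕ
  /-- the walks of faces -/
  os : List ((ℕ × ℕ) × List (ℕ × ℕ))

/-- The dart has both ends inside. -/
def inB (N : List (ℕ × ℕ × ℕ × ℕ)) (q : ℕ × ℕ) : Bool :=
  nbr N q && (ins N).contains q.1 && (ins N).contains q.2

/-- Conditions on one gap. -/
def gq1 (N : List (ℕ × ℕ × ℕ × ℕ)) (g : Gq) : Bool :=
  cnL N g.a.swap g.B g.b && nbr N g.a && nbr N g.b && !(ins N).contains g.a.2 &&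
    !(ins N).contains g.b.2 && (g.B.all fun q => inB N q) &&
    g.os.all fun o => nbr N o.1 && fwL N g.a.swap o.2 o.1 && o.2.all fun q => inB N q

/-- The gaps are different and are joined by at most four faces. -/
def gq2 (g h : Gq) : Bool :=
  g.a == h.a || g.os.any fun o => h.os.any fun o' =>
    o.1 == o'.1 && Nat.ble (o.2.length + o'.2.length) 4 &&
      (g.B.map fun q => dif o.2 q - dif o'.2 q).sum != 0

/-- The check of the list. -/
def gqs (N : List (ℕ × ℕ × ℕ × ℕ)) (D : List Gq) : Bool :=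
  (D.all fun g => gq1 N g) &&
    N.all fun e => [e.2.1, e.2.2.1, e.2.2.2].all fun c =>
      (ins N).contains c || D.any fun g => g.a == (e.1, c)

section

variable {R : Rot G} {U : V → Prop} {f : ℕ → V} {N : List (ℕ × ℕ × ℕ × ℕ)} {D : List Gq}

theorem Lab.ex_gq (h : Lab R U f N) (hR : C5 R) (hc : gqs N D = true) {d : G.Dart}
    (hd : Ex U d) : ∃ g ∈ D, Dt f g.a d := by
  obtain ⟨e, he, c, hc1, hc2, hdt⟩ := h.ex_lab hR hd
  unfold gqs at hc
  simp only [Bool.and_eq_true] at hc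
  have h1 := List.all_eq_true.1 hc.2 e he
  have h2 := List.all_eq_true.1 h1 c hc1
  rw [Bool.or_eq_true] at h2
  rcases h2 with h2 | h2
  · exact absurd (by simpa using h2) hc2
  · rw [List.any_eq_true] at h2
    obtain ⟨g, hg, h3⟩ := h2
    rw [beq_iff_eq] at h3
    exact ⟨g, hg, h3 ▸ hdt⟩

/-- **One gap.** -/
theorem Lab.ring_gap (h : Lab R U f N) (hR : C5 R) (hc : gqs N D = true) {g : Gq} (hg : g ∈ D)
    (hgood : (D.all fun k => gq2 g k) = true) {a b : {d : G.Dart // Ex U d}} (ha : Dt f g.a a.1)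
    (hb : Dt f g.b b.1) : ring R U b = a := by
  have hc0 := hc
  unfold gqs at hc
  simp only [Bool.and_eq_true] at hc
  obtain ⟨hall, -⟩ := hc
  have e1 := List.all_eq_true.1 hall g hg
  unfold gq1 at e1
  simp only [Bool.and_eq_true, Bool.not_eq_true'] at e1
  obtain ⟨⟨⟨⟨⟨⟨c1, c3⟩, c4⟩, c5⟩, c6⟩, c7⟩, c8⟩ := e1
  have hCn : Cn R a.1.symm (g.B.map (dk f a.1)) b.1 := cnL_ok h.rot ha.swap hb c1
  refine Once392.ring_eq hCn ?_
  intro c hca
  obtain ⟨g', hg', hdt⟩ := h.ex_gq hR hc0 c.2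
  have e2 := List.all_eq_true.1 hall g' hg'
  unfold gq1 at e2
  simp only [Bool.and_eq_true, Bool.not_eq_true'] at e2
  obtain ⟨⟨⟨⟨⟨⟨d1, d3⟩, d4⟩, d5⟩, d6⟩, d7⟩, d8⟩ := e2
  have hne : g.a ≠ g'.a := by
    intro he
    rw [← he] at hdt
    exact hca (Subtype.ext (hdt.eq ha))
  have h2 := List.all_eq_true.1 hgood g' hg'
  unfold gq2 at h2
  rw [Bool.or_eq_true, beq_iff_eq] at h2
  have h3 := h2.resolve_left hne
  rw [List.any_eq_true] at h3
  obtain ⟨o, ho, h3⟩ := h3
  rw [List.any_eq_true] at h3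
  obtain ⟨o', ho', h3⟩ := h3
  simp only [Bool.and_eq_true, beq_iff_eq, Nat.ble_eq, bne_iff_ne] at h3
  obtain ⟨⟨h4, h5⟩, h6⟩ := h3
  have h7 := List.all_eq_true.1 c8 o ho
  have h8 := List.all_eq_true.1 d8 o' ho'
  simp only [Bool.and_eq_true] at h7 h8
  have hrd := dk_dt (d0 := a.1) (nbr_adj h.rot h7.1.1)
  have hrd' := hrd
  rw [h4] at hrd'
  have hU1 := h.ins_dk (d0 := a.1) h7.2
  have hU2 := h.ins_dk (d0 := a.1) h8.2
  have hs2 := fwL_ok h.rot (d0 := a.1) hdt.swap hrd' h8.1.2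
  rw [← h4] at hs2
  refine face_ne hR hCn (fwL_ok h.rot (d0 := a.1) ha.swap hrd h7.1.2) hs2 hU1 hU2 ?_ ?_
  · left
    rw [List.length_map, List.length_map]
    exact h5
  · rw [List.map_map]
    have h9 : (g.B.map ((fun d => cnt (o.2.map (dk f a.1)) d - cnt (o'.2.map (dk f a.1)) d) ∘
        dk f a.1)) = (g.B.map fun q => dif o.2 q - dif o'.2 q).map fun z : ℤ => (z : ℚ) := by
      rw [List.map_map]
      refine List.map_congr_left fun q hq => ?_
      have hq' := List.all_eq_true.1 c7 q hq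
      show cnt _ (dk f a.1 q) - cnt _ (dk f a.1 q) = ((dif o.2 q - dif o'.2 q : ℤ) : ℚ)
      rw [h.cnt_dk h7.2 hq', h.cnt_dk h8.2 hq']
      push_cast
      rfl
    rw [h9]
    have h10 : ∀ l : List ℤ, (l.map fun z : ℤ => (z : ℚ)).sum = ((l.sum : ℤ) : ℚ) := by
      intro l
      induction l with
      | nil => simp
      | cons z l ih => rw [List.map_cons, List.sum_cons, List.sum_cons, ih]; push_cast; rfl
    rw [h10]
    exact_mod_cast h6

end

end Pool.Agent.Once392
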