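import Mathlib
import Pool.Agent.Work.MP_392c8e_co_uni.OnceJ
import Pool.Agent.Work.MP_392c8e_co_uni.RingB
import Pool.Agent.Work.MP_392c8e_co_uni.RingBP
import Pool.Agent.Work.MP_392c8e_co_uni.TabG
import Pool.Agent.Work.MP_392c8e_co_uni.TabP
import Pool.Agent.Work.MP_392c8e_co_uni.TabG2R

/-!
# Short outer faces at places with ten terminals

The faces at a gap come back at the neighbouring terminal if every other gap is joined with it by
at most four faces.  The lists for the patches G3, P2 and G2R.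
-/

namespace Pool.Agent.RingB

open Finset Pool.Agent.Sub392 Pool.Agent.T392 Pool.Agent.Disch392 Pool.Agent.Uni392
  Pool.Agent.U2Geo Pool.Agent.Ring392 Pool.Agent.Once392
open Pool.Agent.Uni91 (Good Fam FI FP VD OnP Cs ends full mem_FP mem_ends_FP GainP JoinP)
open Pool.Agent.T1Red (Red Int Same Real Old Data rho newG)
open Pool.Agent.T1FF (tG3 tP2 tG2R)

set_option linter.unusedSectionVars false

variable {V : Type} [Fintype V] [DecidableEq V] {G : SimpleGraph V} [DecidableRel G.Adj]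

/-- The pairs of consecutive terminals at the gaps whose face contains one of the given darts and
has no second gap. -/
def gsJ (N : List (ℕ × ℕ × ℕ × ℕ)) (D : List Gq) (sh : List (ℕ × ℕ)) : List (ℕ × ℕ) :=
  (D.filter fun g => (D.all fun k => gq2 g k) && sh.any fun c => sF N g.a.swap c).map fun g =>
    (g.a.2, g.b.2)

/-- **Short outer faces, one gap at a time.** -/
theorem gaps_ofJ {R : Rot G} {q : Place V} {K : ℕ} (hR : C5 R) (hg : Good q G)
    (hm : q.miss = []) {N : List (ℕ × ℕ × ℕ × ℕ)} (hN : RotOk R q.f N)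
    (hl : labB q.R q.nl N = true) {D : List Gq} (hD : gqs N D = true) {sh : List (ℕ × ℕ)}
    (hsh : ∀ c ∈ sh, ∃ d : G.Dart, Dt q.f c d ∧ sz R d ≤ K) : Gaps G q K (gsJ N D sh) := by
  obtain ⟨hL, hreal⟩ := lab_of hg hm hN hl
  intro e he
  unfold gsJ at he
  rw [List.mem_map] at he
  obtain ⟨g, hgD, rfl⟩ := he
  rw [List.mem_filter, Bool.and_eq_true, List.any_eq_true] at hgD
  obtain ⟨hgD, hgood, c, hcs, hF⟩ := hgD
  have hD0 := hD
  unfold gqs at hD
  simp only [Bool.and_eq_true] at hD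
  obtain ⟨hall, -⟩ := hD
  have e1 := List.all_eq_true.1 hall g hgD
  unfold gq1 at e1
  simp only [Bool.and_eq_true, Bool.not_eq_true'] at e1
  obtain ⟨⟨⟨⟨⟨⟨c1, c3⟩, c4⟩, c5⟩, c6⟩, c7⟩, c8⟩ := e1
  obtain ⟨d, hd1, hd2⟩ := hsh c hcs
  have ha := dk_dt (d0 := d) (nbr_adj hN c3)
  have hb := dk_dt (d0 := d) (nbr_adj hN c4)
  set a : {d : G.Dart // Ex (Int q.R q.f) d} := ⟨dk q.f d g.a, hL.ex_of c3 (by simpa using c5) ha⟩
  set b : {d : G.Dart // Ex (Int q.R q.f) d} := ⟨dk q.f d g.b, hL.ex_of c4 (by simpa using c6) hb⟩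
  have h2 : ring R (Int q.R q.f) b = a := hL.ring_gap hR hD0 hgD hgood ha hb
  have hCn : Cn R a.1.symm (g.B.map (dk q.f d)) b.1 := cnL_ok hN ha.swap hb c1
  have h3 : R.face b.1 = R.face d := by
    rw [hCn.face]
    exact (sF_ok hN hF ha.swap hd1).symm
  have h4 : sz R b.1 ≤ K := by
    unfold sz
    rw [h3]
    exact hd2
  have h5 := step_short R b h4
  rw [h2] at h5
  refine ⟨hreal _ (lbs_of_nbr c3).2, hreal _ (lbs_of_nbr c4).2, ?_⟩
  have e2 : a.1.snd = q.f g.a.2 := ha.2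
  have e3 : b.1.snd = q.f g.b.2 := hb.2
  rw [← e2, ← e3]
  exact h5.symm

/-- The pairs of consecutive terminals at all gaps whose face has no second gap. -/
def gsA (N : List (ℕ × ℕ × ℕ × ℕ)) (D : List Gq) : List (ℕ × ℕ) :=
  gsJ N D (D.map fun g => g.a.swap)

/-- **All faces are short.** -/
theorem gaps_ofA {R : Rot G} {q : Place V} {L : ℕ} (hR : C5 R) (hg : Good q G)
    (hm : q.miss = []) {N : List (ℕ × ℕ × ℕ × ℕ)} (hN : RotOk R q.f N)
    (hl : labB q.R q.nl N = true) {D : List Gq} (hD : gqs N D = true)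
    (hL : ∀ d : G.Dart, sz R d ≤ L) : Gaps G q L (gsA N D) := by
  refine gaps_ofJ hR hg hm hN hl hD fun c hc => ?_
  rw [List.mem_map] at hc
  obtain ⟨g, hgD, rfl⟩ := hc
  unfold gqs at hD
  simp only [Bool.and_eq_true] at hD
  have e1 := List.all_eq_true.1 hD.1 g hgD
  unfold gq1 at e1
  simp only [Bool.and_eq_true] at e1
  have hadj := nbr_adj hN e1.1.1.1.1.1.2
  have h : Dt q.f g.a (⟨(q.f g.a.1, q.f g.a.2), hadj⟩ : G.Dart) := ⟨rfl, rfl⟩
  exact ⟨_, h.swap, hL _⟩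

/-- **Places with gain, all faces short.** -/
theorem gain_of_rot {R : Rot G} {q : Place V} {L : ℕ} (hR : C5 R) (hg : Good q G)
    (hm : q.miss = []) {N : List (ℕ × ℕ × ℕ × ℕ)} (hN : RotOk R q.f N)
    (hl : labB q.R q.nl N = true) {D : List Gq} (hD : gqs N D = true)
    (hL : ∀ d : G.Dart, sz R d ≤ L) (h : goodB q.R q.nl q.ps q.co (gsA N D) = true) :
    GainP G q (10 * (L + 1)) :=
  gainP_of hg hm (gaps_ofA hR hg hm hN hl hD hL) h

/-- The gaps of the patch G3. -/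
def qG3 : List Gq :=
  [⟨(17, 0), [(17, 16), (16, 26)], (26, 9), [((11, 12), [(17, 16)]), ((11, 18), [(17, 16), (11,
      12)]), ((13, 21), [(17, 16), (13, 14)]), ((15, 24), [(16, 26)])]⟩,
    ⟨(26, 9), [(26, 25)], (25, 8), [((11, 12), [(26, 25), (16, 15)]), ((11, 18), [(26, 25), (16,
      15), (11, 12)]), ((13, 21), [(26, 25), (16, 15), (13, 14)]), ((15, 24), [(26, 25)])]⟩,
    ⟨(25, 8), [(25, 24)], (24, 7), [((11, 12), [(25, 24), (16, 15)]), ((11, 18), [(25, 24), (16,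
      15), (11, 12)]), ((13, 21), [(25, 24), (16, 15), (13, 14)]), ((15, 24), [(25, 24)])]⟩,
    ⟨(24, 7), [(24, 15), (15, 14), (14, 23)], (23, 6), [((11, 12), [(15, 14)]), ((11, 18), [(15,
      14), (11, 12)]), ((13, 21), [(14, 23)]), ((15, 24), [(24, 15)])]⟩,
    ⟨(23, 6), [(23, 22)], (22, 5), [((11, 12), [(23, 22), (14, 13)]), ((11, 18), [(23, 22), (14,
      13), (11, 12)]), ((13, 21), [(23, 22)]), ((15, 24), [(23, 22), (14, 13), (15, 16)])]⟩,
    ⟨(22, 5), [(22, 21)], (21, 4), [((11, 12), [(22, 21), (14, 13)]), ((11, 18), [(22, 21), (14,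
      13), (11, 12)]), ((13, 21), [(22, 21)]), ((15, 24), [(22, 21), (14, 13), (15, 16)])]⟩,
    ⟨(21, 4), [(21, 13), (13, 12), (12, 20)], (20, 3), [((11, 12), [(13, 12)]), ((11, 18), [(12,
      20)]), ((13, 21), [(21, 13)]), ((15, 24), [(13, 12), (15, 16)])]⟩,
    ⟨(20, 3), [(20, 19)], (19, 2), [((11, 12), [(20, 19), (12, 11)]), ((11, 18), [(20, 19)]),
      ((13, 21), [(20, 19), (12, 11), (13, 14)]), ((15, 24), [(20, 19), (12, 11), (15, 16)])]⟩,
    ⟨(19, 2), [(19, 18)], (18, 1), [((11, 12), [(19, 18), (12, 11)]), ((11, 18), [(19, 18)]),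
      ((13, 21), [(19, 18), (12, 11), (13, 14)]), ((15, 24), [(19, 18), (12, 11), (15, 16)])]⟩,
    ⟨(18, 1), [(18, 11), (11, 17)], (17, 0), [((11, 12), [(11, 17)]), ((11, 18), [(18, 11)]),
      ((13, 21), [(11, 17), (13, 14)]), ((15, 24), [(11, 17), (15, 16)])]⟩]

theorem gqs_G3 : gqs tG3 qG3 = true := by decide +kernel

theorem gsA_G3 : gsA tG3 qG3 =
    [(0, 9), (9, 8), (8, 7), (7, 6), (6, 5), (5, 4), (4, 3), (3, 2), (2, 1), (1, 0)] := by
  decide +kernel

/-- The gaps of the patch P2. -/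
def qP2 : List Gq :=
  [⟨(17, 0), [(17, 10), (10, 16), (16, 27)], (27, 9), [((10, 11), [(10, 16)]), ((10, 17), [(17,
      10)]), ((11, 19), [(17, 10), (19, 11)]), ((13, 22), [(10, 16), (13, 14)]), ((15, 25), [(16,
      27)])]⟩,
    ⟨(27, 9), [(27, 26)], (26, 8), [((10, 11), [(27, 26), (16, 15)]), ((10, 17), [(27, 26), (16,
      15), (10, 11)]), ((11, 19), [(27, 26), (16, 15), (11, 12)]), ((13, 22), [(27, 26), (16,
      15), (13, 14)]), ((15, 25), [(27, 26)])]⟩,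
    ⟨(26, 8), [(26, 25)], (25, 7), [((10, 11), [(26, 25), (16, 15)]), ((10, 17), [(26, 25), (16,
      15), (10, 11)]), ((11, 19), [(26, 25), (16, 15), (11, 12)]), ((13, 22), [(26, 25), (16,
      15), (13, 14)]), ((15, 25), [(26, 25)])]⟩,
    ⟨(25, 7), [(25, 15), (15, 14), (14, 24)], (24, 6), [((10, 11), [(15, 14)]), ((10, 17), [(15,
      14), (10, 11)]), ((11, 19), [(15, 14), (11, 12)]), ((13, 22), [(14, 24)]), ((15, 25), [(25,
      15)])]⟩,
    ⟨(24, 6), [(24, 23)], (23, 5), [((10, 11), [(24, 23), (14, 13)]), ((10, 17), [(24, 23), (14,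
      13), (10, 11)]), ((11, 19), [(24, 23), (14, 13), (11, 12)]), ((13, 22), [(24, 23)]), ((15,
      25), [(24, 23), (14, 13), (15, 16)])]⟩,
    ⟨(23, 5), [(23, 22)], (22, 4), [((10, 11), [(23, 22), (14, 13)]), ((10, 17), [(23, 22), (14,
      13), (10, 11)]), ((11, 19), [(23, 22), (14, 13), (11, 12)]), ((13, 22), [(23, 22)]), ((15,
      25), [(23, 22), (14, 13), (15, 16)])]⟩,
    ⟨(22, 4), [(22, 13), (13, 12), (12, 21)], (21, 3), [((10, 11), [(13, 12)]), ((10, 17), [(13,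
      12), (10, 11)]), ((11, 19), [(12, 21)]), ((13, 22), [(22, 13)]), ((15, 25), [(13, 12), (15,
      16)])]⟩,
    ⟨(21, 3), [(21, 20)], (20, 2), [((10, 11), [(21, 20), (12, 11)]), ((10, 17), [(21, 20), (11,
      19)]), ((11, 19), [(21, 20)]), ((13, 22), [(21, 20), (12, 11), (13, 14)]), ((15, 25), [(21,
      20), (12, 11), (15, 16)])]⟩,
    ⟨(20, 2), [(20, 19), (19, 18)], (18, 1), [((10, 11), [(20, 19), (12, 11)]), ((10, 17), [(19,
      18)]), ((11, 19), [(20, 19)]), ((13, 22), [(20, 19), (12, 11), (13, 14)]), ((15, 25), [(20,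
      19), (12, 11), (15, 16)])]⟩,
    ⟨(18, 1), [(18, 17)], (17, 0), [((10, 11), [(18, 17), (11, 10)]), ((10, 17), [(18, 17)]),
      ((11, 19), [(18, 17), (19, 11)]), ((13, 22), [(18, 17), (11, 10), (13, 14)]), ((15, 25),
      [(18, 17), (11, 10), (15, 16)])]⟩]

theorem gqs_P2 : gqs tP2 qP2 = true := by decide +kernel

theorem gsA_P2 : gsA tP2 qP2 =
    [(0, 9), (9, 8), (8, 7), (7, 6), (6, 5), (5, 4), (4, 3), (3, 2), (2, 1), (1, 0)] := by
  decide +kernel

/-- The gaps of the patch G2R. -/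
def qG2R : List Gq :=
  [⟨(24, 0), [(24, 23), (23, 27)], (27, 9), [((10, 11), [(24, 23), (15, 14)]), ((10, 17), [(24,
      23), (15, 14), (10, 11)]), ((11, 19), [(24, 23), (15, 14), (11, 12)]), ((14, 22), [(24,
      23)]), ((22, 25), [(23, 27)])]⟩,
    ⟨(27, 9), [(27, 26)], (26, 8), [((10, 11), [(27, 26), (23, 22), (15, 14)]), ((14, 22), [(27,
      26), (23, 22)]), ((22, 25), [(27, 26)])]⟩,
    ⟨(26, 8), [(26, 25)], (25, 7), [((10, 11), [(26, 25), (23, 22), (15, 14)]), ((14, 22), [(26,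
      25), (23, 22)]), ((22, 25), [(26, 25)])]⟩,
    ⟨(25, 7), [(25, 22), (22, 14), (14, 13)], (13, 6), [((10, 11), [(14, 13)]), ((10, 17), [(14,
      13), (10, 11)]), ((11, 19), [(14, 13), (11, 12)]), ((14, 22), [(22, 14)]), ((22, 25), [(25,
      22)])]⟩,
    ⟨(13, 6), [(13, 12), (12, 21)], (21, 5), [((10, 11), [(13, 12)]), ((10, 17), [(13, 12), (10,
      11)]), ((11, 19), [(12, 21)]), ((14, 22), [(13, 12), (14, 15)]), ((22, 25), [(13, 12), (14,
      15), (22, 23)])]⟩,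
    ⟨(21, 5), [(21, 20)], (20, 4), [((10, 11), [(21, 20), (12, 11)]), ((10, 17), [(21, 20), (11,
      19)]), ((11, 19), [(21, 20)]), ((14, 22), [(21, 20), (12, 11), (14, 15)])]⟩,
    ⟨(20, 4), [(20, 19), (19, 18)], (18, 3), [((10, 11), [(20, 19), (12, 11)]), ((10, 17), [(19,
      18)]), ((11, 19), [(20, 19)]), ((14, 22), [(20, 19), (12, 11), (14, 15)])]⟩,
    ⟨(18, 3), [(18, 17)], (17, 2), [((10, 11), [(18, 17), (11, 10)]), ((10, 17), [(18, 17)]),
      ((11, 19), [(18, 17), (19, 11)]), ((14, 22), [(18, 17), (11, 10), (14, 15)])]⟩,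
    ⟨(17, 2), [(17, 10), (10, 16)], (16, 1), [((10, 11), [(10, 16)]), ((10, 17), [(17, 10)]),
      ((11, 19), [(17, 10), (19, 11)]), ((14, 22), [(10, 16), (14, 15)]), ((22, 25), [(10, 16),
      (14, 15), (22, 23)])]⟩,
    ⟨(16, 1), [(16, 15), (15, 24)], (24, 0), [((10, 11), [(16, 15)]), ((10, 17), [(16, 15), (10,
      11)]), ((11, 19), [(16, 15), (11, 12)]), ((14, 22), [(15, 24)]), ((22, 25), [(15, 24), (22,
      23)])]⟩]

theorem gqs_G2R : gqs tG2R qG2R = true := by decide +kernel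

theorem gsA_G2R : gsA tG2R qG2R =
    [(0, 9), (7, 6), (6, 5), (2, 1), (1, 0)] := by
  decide +kernel

end Pool.Agent.RingB
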