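import Pool.Agent.Work.MP_392c8e_co_uni.RedG
import Pool.Agent.Work.MP_392c8e_co_uni.TabG
import Pool.Agent.Work.MP_392c8e_co_uni.GeoNo5

/-!
# The patches G3
-/

namespace Pool.Agent.U2Geo

open Pool.T1Side Pool.Agent.T1Red Pool.Agent.T1FF Pool.Agent.Sub392 Pool.Agent.T392

set_option linter.unusedSectionVars false

/-- The steps. -/
def stepsG3 : List StepL :=
  [.ne 0 12 (.base (.tri 0 17 11)), .ne 0 15 (.base (.tri 0 17 16)),
  .ne 0 18 (.base (.tri 0 11 17)), .ne 0 26 (.base (.tri 0 16 17)),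
  .ne 1 2 (.base (.tri 1 18 19)), .ne 1 12 (.base (.tri 1 18 11)),
  .ne 1 17 (.base (.tri 1 18 11)), .ne 1 20 (.base (.tri 1 18 19)),
  .ne 2 3 (.base (.tri 2 19 20)), .ne 2 11 (.base (.tri 2 18 19)),
  .ne 2 12 (.base (.tri 2 19 20)), .ne 3 11 (.base (.tri 3 12 20)),
  .ne 3 13 (.base (.tri 3 12 20)), .ne 3 18 (.base (.tri 3 19 20)),
  .ne 4 5 (.base (.tri 4 21 22)), .ne 4 12 (.base (.tri 4 13 21)),
  .ne 4 14 (.base (.tri 4 21 13)), .ne 4 23 (.base (.tri 4 21 22)),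
  .ne 5 6 (.base (.tri 5 22 23)), .ne 5 13 (.base (.tri 5 21 22)),
  .ne 5 14 (.base (.tri 5 22 23)), .ne 6 13 (.base (.tri 6 14 23)),
  .ne 6 15 (.base (.tri 6 14 23)), .ne 6 21 (.base (.tri 6 22 23)),
  .ne 7 8 (.base (.tri 7 24 25)), .ne 7 14 (.base (.tri 7 24 15)),
  .ne 7 16 (.base (.tri 7 24 15)), .ne 7 26 (.base (.tri 7 24 25)),
  .ne 8 9 (.base (.tri 8 25 26)), .ne 8 15 (.base (.tri 8 24 25)),
  .ne 8 16 (.base (.tri 8 26 25)), .ne 9 15 (.base (.tri 9 16 26)),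
  .ne 9 17 (.base (.tri 9 16 26)), .ne 9 24 (.base (.tri 9 25 26)),
  .ne 11 14 (.base (.tri 11 12 13)), .ne 11 15 (.base (.tri 11 16 17)),
  .ne 11 21 (.base (.tri 11 12 13)), .ne 11 26 (.base (.tri 11 16 17)),
  .ne 12 15 (.base (.tri 12 13 14)), .ne 12 16 (.base (.tri 12 11 17)),
  .ne 12 22 (.base (.tri 12 13 21)), .ne 12 23 (.base (.tri 12 13 14)),
  .ne 13 16 (.base (.tri 13 14 15)), .ne 13 17 (.base (.tri 13 11 12)),
  .ne 13 18 (.base (.tri 13 11 12)), .ne 13 19 (.base (.tri 13 12 20)),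
  .ne 13 24 (.base (.tri 13 14 15)), .ne 14 17 (.base (.tri 14 15 16)),
  .ne 14 20 (.base (.tri 14 12 13)), .ne 14 25 (.base (.tri 14 15 24)),
  .ne 14 26 (.base (.tri 14 15 16)), .ne 15 21 (.base (.tri 15 13 14)),
  .ne 15 22 (.base (.tri 15 14 23)), .ne 16 18 (.base (.tri 16 11 17)),
  .ne 16 23 (.base (.tri 16 14 15)), .ne 17 19 (.base (.tri 17 11 18)),
  .ne 17 20 (.base (.tri 17 11 12)), .ne 17 24 (.base (.tri 17 15 16)),
  .ne 17 25 (.base (.tri 17 16 26)), .ne 20 21 (.base (.tri 20 12 13)),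
  .ne 23 24 (.base (.tri 23 14 15)), .ne 0 1 (.four 17 11 18 0), .ne 0 9 (.four 17 16 26 0),
  .ne 0 13 (.four 0 12 11 17), .ne 0 14 (.four 0 15 16 17), .ne 0 19 (.four 17 11 18 0),
  .ne 0 20 (.four 0 12 11 17), .ne 0 24 (.four 0 15 16 17), .ne 0 25 (.four 17 16 26 0),
  .ne 1 3 (.four 18 19 20 1), .ne 1 13 (.four 1 12 11 18), .ne 1 16 (.four 1 17 11 18),
  .ne 2 13 (.four 2 12 20 19), .ne 2 17 (.four 2 11 18 19), .ne 3 14 (.four 3 13 12 20),
  .ne 3 17 (.four 3 11 12 20), .ne 3 21 (.four 3 13 12 20), .ne 4 6 (.four 21 22 23 4),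
  .ne 4 11 (.four 4 12 13 21), .ne 4 15 (.four 4 14 13 21), .ne 4 20 (.four 4 12 13 21),
  .ne 5 12 (.four 5 13 21 22), .ne 5 15 (.four 5 14 23 22), .ne 6 12 (.four 6 13 14 23),
  .ne 6 16 (.four 6 15 14 23), .ne 6 24 (.four 6 15 14 23), .ne 7 9 (.four 24 25 26 7),
  .ne 7 13 (.four 7 14 15 24), .ne 7 17 (.four 7 16 15 24), .ne 7 23 (.four 7 14 15 24),
  .ne 8 14 (.four 8 15 24 25), .ne 8 17 (.four 8 16 26 25), .ne 9 11 (.four 9 17 16 26),
  .ne 9 14 (.four 9 15 16 26), .ne 11 22 (.four 11 12 13 21), .ne 11 23 (.four 11 12 13 14),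
  .ne 11 24 (.four 11 15 16 17), .ne 11 25 (.four 11 17 16 26), .ne 12 24 (.four 12 13 14 15),
  .ne 12 26 (.four 12 11 17 16), .ne 13 25 (.four 13 14 15 24), .ne 13 26 (.four 13 14 15 16),
  .ne 14 18 (.four 14 11 12 13), .ne 14 19 (.four 14 13 12 20), .ne 15 18 (.four 15 11 17 16),
  .ne 15 20 (.four 15 12 13 14), .ne 16 19 (.four 16 17 11 18), .ne 16 20 (.four 16 12 11 17),
  .ne 16 21 (.four 16 13 14 15), .ne 16 22 (.four 16 15 14 23), .ne 17 21 (.four 17 11 12 13),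
  .ne 17 23 (.four 17 14 15 16), .ne 18 21 (.four 18 11 12 13), .ne 18 26 (.four 18 11 17 16),
  .ne 19 21 (.four 19 13 12 20), .ne 20 22 (.four 20 12 13 21), .ne 20 23 (.four 20 12 13 14),
  .ne 21 24 (.four 21 13 14 15), .ne 22 24 (.four 22 15 14 23), .ne 23 25 (.four 23 14 15 24),
  .ne 23 26 (.four 23 14 15 16), .ne 0 2 (.base (.corner 11 18 19 [0, 17] [20, 12])),
  .ne 0 3 (.base (.corner 17 11 12 [20, 0] [13, 14, 15, 16])),
  .ne 0 7 (.base (.corner 17 16 15 [24, 0] [14, 13, 12, 11])),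
  .ne 0 8 (.base (.corner 16 26 25 [0, 17] [24, 15])),
  .ne 0 21 (.base (.corner 13 12 11 [17, 0] [17, 16, 15, 14])),
  .ne 0 23 (.base (.corner 14 15 16 [17, 0] [17, 11, 12, 13])),
  .ne 1 14 (.base (.corner 1 13 12 [11, 18] [11, 17, 16, 15])),
  .ne 1 15 (.base (.corner 1 16 17 [11, 18] [11, 12, 13, 14])),
  .ne 1 21 (.base (.corner 13 12 11 [18, 1] [17, 16, 15, 14])),
  .ne 1 26 (.base (.corner 16 17 11 [18, 1] [12, 13, 14, 15])),
  .ne 2 14 (.base (.corner 2 13 12 [20, 19] [11, 17, 16, 15])),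
  .ne 2 16 (.base (.corner 2 17 11 [18, 19] [12, 13, 14, 15])),
  .ne 2 21 (.base (.corner 12 20 19 [2, 13] [18, 11])), .ne 3 4 (.five 20 12 13 21 3),
  .ne 3 15 (.base (.corner 3 14 13 [12, 20] [12, 11, 17, 16])),
  .ne 3 16 (.base (.corner 3 17 11 [12, 20] [12, 13, 14, 15])),
  .ne 3 22 (.base (.corner 13 21 3 [20, 12] [23, 14])),
  .ne 3 23 (.base (.corner 3 14 13 [12, 20] [21, 22])),
  .ne 4 16 (.base (.corner 4 15 14 [13, 21] [13, 12, 11, 17])),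
  .ne 4 17 (.base (.corner 4 11 12 [13, 21] [13, 14, 15, 16])),
  .ne 4 18 (.base (.corner 4 11 12 [13, 21] [20, 19])),
  .ne 4 19 (.base (.corner 4 20 12 [13, 21] [11, 18])),
  .ne 4 24 (.base (.corner 15 14 13 [21, 4] [12, 11, 17, 16])),
  .ne 5 11 (.base (.corner 5 12 13 [21, 22] [14, 15, 16, 17])),
  .ne 5 16 (.base (.corner 5 15 14 [23, 22] [13, 12, 11, 17])),
  .ne 5 20 (.base (.corner 13 21 22 [5, 12] [23, 14])),
  .ne 5 24 (.base (.corner 14 23 22 [5, 15] [21, 13])), .ne 6 7 (.five 23 14 15 24 6),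
  .ne 6 11 (.base (.corner 6 12 13 [14, 23] [14, 15, 16, 17])),
  .ne 6 17 (.base (.corner 6 16 15 [14, 23] [14, 13, 12, 11])),
  .ne 6 20 (.base (.corner 12 13 14 [23, 6] [15, 16, 17, 11])),
  .ne 6 25 (.base (.corner 15 24 6 [23, 14] [26, 16])),
  .ne 6 26 (.base (.corner 6 16 15 [14, 23] [24, 25])),
  .ne 7 11 (.base (.corner 7 17 16 [15, 24] [15, 14, 13, 12])),
  .ne 7 12 (.base (.corner 7 13 14 [15, 24] [15, 16, 17, 11])),
  .ne 7 21 (.base (.corner 7 13 14 [15, 24] [23, 22])),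
  .ne 7 22 (.base (.corner 7 23 14 [15, 24] [13, 21])),
  .ne 8 11 (.base (.corner 8 17 16 [26, 25] [15, 14, 13, 12])),
  .ne 8 13 (.base (.corner 8 14 15 [24, 25] [16, 17, 11, 12])),
  .ne 8 23 (.base (.corner 15 24 25 [8, 14] [26, 16])),
  .ne 9 12 (.base (.corner 9 11 17 [16, 26] [16, 15, 14, 13])),
  .ne 9 13 (.base (.corner 9 14 15 [16, 26] [16, 17, 11, 12])),
  .ne 9 18 (.base (.corner 11 17 16 [26, 9] [15, 14, 13, 12])),
  .ne 9 23 (.base (.corner 14 15 16 [26, 9] [17, 11, 12, 13])),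
  .ne 12 25 (.base (.corner 12 11 17 [16, 26] [16, 15, 14, 13])),
  .ne 15 19 (.base (.corner 15 14 13 [12, 20] [12, 11, 17, 16])),
  .ne 17 22 (.base (.corner 17 11 12 [13, 21] [13, 14, 15, 16])),
  .ne 18 22 (.base (.corner 18 11 12 [13, 21] [20, 19])),
  .ne 18 23 (.base (.corner 18 11 12 [13, 14] [20, 19])),
  .ne 18 24 (.base (.corner 11 17 16 [15, 18] [15, 14, 13, 12])),
  .ne 18 25 (.base (.corner 11 17 16 [26, 18] [15, 14, 13, 12])),
  .ne 19 22 (.base (.corner 19 20 12 [13, 21] [11, 18])),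
  .ne 19 23 (.base (.corner 19 14 13 [12, 20] [21, 22])),
  .ne 19 26 (.base (.corner 16 17 11 [18, 19] [12, 13, 14, 15])),
  .ne 20 24 (.base (.corner 12 13 14 [15, 20] [15, 16, 17, 11])),
  .ne 20 26 (.base (.corner 20 12 11 [17, 16] [18, 19])),
  .ne 21 25 (.base (.corner 21 13 14 [15, 24] [23, 22])),
  .ne 21 26 (.base (.corner 21 13 14 [15, 16] [23, 22])),
  .ne 22 25 (.base (.corner 22 23 14 [15, 24] [13, 21])),
  .ne 22 26 (.base (.corner 22 16 15 [14, 23] [24, 25])),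
  .ne 0 4 (.base (.corner 17 11 12 [13, 21, 0] [13, 14, 15, 16])),
  .ne 0 6 (.base (.corner 17 16 15 [14, 23, 0] [14, 13, 12, 11])),
  .ne 0 22 (.base (.corner 17 11 12 [13, 21, 0] [13, 14, 15, 16])),
  .ne 1 4 (.base (.corner 18 11 12 [13, 21, 1] [20, 19])),
  .ne 1 9 (.base (.corner 11 17 16 [26, 1, 18] [15, 14, 13, 12])),
  .ne 1 22 (.base (.corner 18 11 12 [13, 21, 1] [20, 19])),
  .ne 1 23 (.base (.corner 1 14 13 [12, 11, 18] [21, 22])),
  .ne 1 24 (.base (.corner 1 15 16 [17, 11, 18] [26, 25])),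
  .ne 1 25 (.base (.corner 11 17 16 [26, 1, 18] [15, 14, 13, 12])),
  .ne 2 4 (.base (.corner 19 20 12 [13, 21, 2] [11, 18])),
  .ne 2 15 (.base (.corner 2 14 13 [12, 20, 19] [12, 11, 17, 16])),
  .ne 2 22 (.base (.corner 19 20 12 [13, 21, 2] [11, 18])),
  .ne 2 23 (.base (.corner 2 14 13 [12, 20, 19] [21, 22])),
  .ne 2 26 (.base (.corner 16 17 11 [18, 19, 2] [12, 13, 14, 15])),
  .ne 3 5 (.base (.corner 13 21 22 [3, 20, 12] [23, 14])),
  .ne 3 6 (.base (.corner 12 13 14 [23, 3, 20] [15, 16, 17, 11])),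
  .ne 3 24 (.base (.corner 15 14 13 [12, 20, 3] [12, 11, 17, 16])),
  .ne 3 26 (.base (.corner 16 17 11 [12, 20, 3] [12, 13, 14, 15])),
  .ne 4 7 (.base (.corner 21 13 14 [15, 24, 4] [23, 22])),
  .ne 4 25 (.base (.corner 21 13 14 [15, 24, 4] [23, 22])),
  .ne 4 26 (.base (.corner 4 16 15 [14, 13, 21] [24, 25])),
  .ne 5 7 (.base (.corner 22 23 14 [15, 24, 5] [13, 21])),
  .ne 5 17 (.base (.corner 5 11 12 [13, 21, 22] [13, 14, 15, 16])),
  .ne 5 18 (.base (.corner 5 11 12 [13, 21, 22] [20, 19])),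
  .ne 5 19 (.base (.corner 5 20 12 [13, 21, 22] [11, 18])),
  .ne 5 25 (.base (.corner 22 23 14 [15, 24, 5] [13, 21])),
  .ne 5 26 (.base (.corner 5 16 15 [14, 23, 22] [24, 25])),
  .ne 6 8 (.base (.corner 15 24 25 [6, 23, 14] [26, 16])),
  .ne 6 9 (.base (.corner 14 15 16 [26, 6, 23] [17, 11, 12, 13])),
  .ne 6 18 (.base (.corner 6 11 12 [13, 14, 23] [20, 19])),
  .ne 6 19 (.base (.corner 6 20 12 [13, 14, 23] [11, 18])),
  .ne 7 18 (.base (.corner 11 17 16 [15, 24, 7] [15, 14, 13, 12])),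
  .ne 7 20 (.base (.corner 12 13 14 [15, 24, 7] [15, 16, 17, 11])),
  .ne 8 12 (.base (.corner 8 11 17 [16, 26, 25] [16, 15, 14, 13])),
  .ne 8 18 (.base (.corner 11 17 16 [26, 25, 8] [15, 14, 13, 12])),
  .ne 8 21 (.base (.corner 8 13 14 [15, 24, 25] [23, 22])),
  .ne 8 22 (.base (.corner 8 23 14 [15, 24, 25] [13, 21])),
  .ne 9 19 (.base (.corner 9 18 11 [17, 16, 26] [12, 20])),
  .ne 9 20 (.base (.corner 9 12 11 [17, 16, 26] [18, 19])),
  .ne 9 21 (.base (.corner 9 13 14 [15, 16, 26] [23, 22])),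
  .ne 9 22 (.base (.corner 9 23 14 [15, 16, 26] [13, 21])),
  .ne 19 24 (.base (.corner 15 14 13 [12, 20, 19] [12, 11, 17, 16])),
  .ne 19 25 (.base (.corner 19 18 11 [17, 16, 26] [12, 20])),
  .ne 20 25 (.base (.corner 20 12 11 [17, 16, 26] [18, 19])),
  .ne 0 5 (.base (.corner 17 11 12 [13, 21, 22, 0] [13, 14, 15, 16])),
  .ne 1 5 (.base (.corner 18 11 12 [13, 21, 22, 1] [20, 19])),
  .ne 1 6 (.base (.corner 18 11 12 [13, 14, 23, 1] [20, 19])),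
  .ne 1 7 (.base (.corner 11 17 16 [15, 24, 1, 18] [15, 14, 13, 12])),
  .ne 1 8 (.base (.corner 11 17 16 [26, 25, 1, 18] [15, 14, 13, 12])),
  .ne 2 5 (.base (.corner 19 20 12 [13, 21, 22, 2] [11, 18])),
  .ne 2 6 (.base (.corner 19 20 12 [13, 14, 23, 2] [11, 18])),
  .ne 2 9 (.base (.corner 19 18 11 [17, 16, 26, 2] [12, 20])),
  .ne 2 24 (.base (.corner 15 14 13 [12, 20, 19, 2] [12, 11, 17, 16])),
  .ne 2 25 (.base (.corner 19 18 11 [17, 16, 26, 2] [12, 20])),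
  .ne 3 7 (.base (.corner 12 13 14 [15, 24, 3, 20] [15, 16, 17, 11])),
  .ne 3 9 (.base (.corner 20 12 11 [17, 16, 26, 3] [18, 19])),
  .ne 3 25 (.base (.corner 20 12 11 [17, 16, 26, 3] [18, 19])),
  .ne 4 8 (.base (.corner 21 13 14 [15, 24, 25, 4] [23, 22])),
  .ne 4 9 (.base (.corner 21 13 14 [15, 16, 26, 4] [23, 22])),
  .ne 5 8 (.base (.corner 22 23 14 [15, 24, 25, 5] [13, 21])),
  .ne 5 9 (.base (.corner 22 23 14 [15, 16, 26, 5] [13, 21])),
  .ne 7 19 (.base (.corner 7 18 11 [17, 16, 15, 24] [12, 20])),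
  .ne 8 19 (.base (.corner 8 18 11 [17, 16, 26, 25] [12, 20])),
  .ne 8 20 (.base (.corner 8 12 11 [17, 16, 26, 25] [18, 19])),
  .na 2 17 (.base (.corner 11 18 19 [2, 17] [20, 12])),
  .na 19 16 (.base (.corner 16 17 11 [18, 19] [12, 13, 14, 15])),
  .na 18 15 (.base (.corner 11 17 16 [15, 18] [15, 14, 13, 12])),
  .na 11 24 (.base (.corner 11 17 16 [15, 24] [15, 14, 13, 12])),
  .ne 2 7 (.long 19 18 11 [17, 16, 15, 24, 2] [12, 20]),
  .na 18 26 (.base (.corner 11 17 16 [26, 18] [15, 14, 13, 12])),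
  .na 11 25 (.base (.corner 11 17 16 [26, 25] [15, 14, 13, 12])),
  .ne 2 8 (.long 19 18 11 [17, 16, 26, 25, 2] [12, 20]),
  .na 3 17 (.base (.corner 17 11 12 [20, 3] [13, 14, 15, 16])),
  .na 20 16 (.base (.corner 20 12 11 [17, 16] [18, 19])),
  .na 12 26 (.base (.corner 12 11 17 [16, 26] [16, 15, 14, 13])),
  .ne 3 8 (.long 20 12 11 [17, 16, 26, 25, 3] [18, 19]), .cn 2 3 27 (.five 2 19 20 3 27),
  .cn 7 8 27 (.five 7 24 25 8 27), .cn 5 6 27 (.five 5 22 23 6 27), .na 0 1 (.five 11 17 0 1 18),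
  .na 0 9 (.five 26 16 17 0 9), .na 1 9 (.base (.corner 16 17 11 [18, 1, 9, 26] [12, 13, 14, 15]))]

/-- The corners of outer faces which have not length five. -/
def FG3 : List (ℕ × ℕ × ℕ) :=
  [(13, 12, 20), (15, 14, 23), (17, 16, 26), (11, 17, 0), (20, 19, 2), (23, 22, 5), (25, 24, 7)]

theorem finG3 : finL G3 [(10, 17)] [] [(2, 3), (7, 8), (5, 6)] [(0, 1), (0, 9), (1, 9)] FG3
    stepsG3 = true := by
  decide +kernel

theorem chkG3 : chk G3.ed (inner G3) tG3 = true := by decide +kernel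

section

variable {V : Type} [Fintype V] [DecidableEq V] {G : SimpleGraph V} [DecidableRel G.Adj]
  {R : Rot G} {d : G.Dart}

/-- A face of length seven with neighbours of length five across the edges 0, 2, 4; the faces
across the edges 1, 3, 5, 6 and the faces across `x1 y0`, `y2 x3`, `x4 y4` have not length five. -/
structure IsG3 (R : Rot G) (d : G.Dart) : Prop where
  s : sz R d = 7
  s0 : sz R (ac R d 0) = 5
  s2 : sz R (ac R d 2) = 5
  s4 : sz R (ac R d 4) = 5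
  n1 : sz R (ac R d 1) ≠ 5
  n3 : sz R (ac R d 3) ≠ 5
  n5 : sz R (ac R d 5) ≠ 5
  n6 : sz R (ac R d 6) ≠ 5
  n03 : sz R (ac R (ac R d 0) 3) ≠ 5
  n23 : sz R (ac R (ac R d 2) 3) ≠ 5
  n42 : sz R (ac R (ac R d 4) 2) ≠ 5

theorem no5G3 (hh : C5 R) (h : IsG3 R d) : No5 G FG3 (fG3 R d) := by
  have g1 := hh.good h.s
  have g10 := hh.good h.s0
  have g12 := hh.good h.s2
  intro e he x y
  simp only [FG3, List.mem_cons, List.not_mem_nil, or_false] at he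
  rcases he with rfl | rfl | rfl | rfl | rfl | rfl | rfl
  · exact hh.no5a d 1 h.n1 x y
  · exact hh.no5a d 3 h.n3 x y
  · exact hh.no5a d 5 h.n5 x y
  · have := hh.no5a d 6 h.n6 x y
    rw [g1.X_mod (6 + 1)] at this
    exact this
  · have := hh.no5a (ac R d 0) 3 h.n03 x y
    rw [show (3 + 1 : ℕ) = 5 - 1 from rfl, g1.ac_last 0 g10 (by norm_num)] at this
    exact this
  · have := hh.no5a (ac R d 2) 3 h.n23 x y
    rw [show (3 + 1 : ℕ) = 5 - 1 from rfl, g1.ac_last 2 g12 (by norm_num)] at this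
    exact this
  · have := hh.no5a (ac R d 4) 2 h.n42 x y
    rw [ac_X2] at this
    exact this

/-- The patch G3. -/
theorem patchG3 (hh : C5 R) (h13 : 13 ≤ Fintype.card V) (h : IsG3 R d) :
    Patch G G3 [(10, 17)] [] [(2, 3), (7, 8), (5, 6)] [(0, 1), (0, 9), (1, 9)] (fG3 R d) :=
  patch_of (hh.cls h13) (tabG3 (hh.good h.s) (hh.good h.s0) (hh.good h.s2) (hh.good h.s4))
    chkG3 (no5G3 hh h) finG3

end

end Pool.Agent.U2Geo
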