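import Pool.Agent.Work.MP_392c8e_co_uni.GeoG1
import Pool.Agent.Work.MP_392c8e_co_uni.GeoG3
import Pool.Agent.Work.MP_392c8e_co_uni.PatchGood

/-!
# The places G1 and G3
-/

namespace Pool.Agent.U2Geo

open Pool.T1Side Pool.Agent.T1Red Pool.Agent.T1FF Pool.Agent.Sub392 Pool.Agent.T392
open Pool.Agent.Uni392 (Place)

set_option linter.unusedSectionVars false
set_option synthInstance.maxSize 200000

/-- The paths of G1. -/
def psG1c : List (ℕ × List ℕ × ℕ) :=
  [(0, [14, 15], 1), (2, [16, 17], 3), (4, [19, 20], 5), (6, [21, 22, 23], 8)]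

/-- The paths of G3. -/
def psG3 : List (ℕ × List ℕ × ℕ) :=
  [(0, [], 17), (17, [11, 18], 1), (17, [16, 26], 9), (2, [19, 20], 3), (7, [24, 25], 8),
    (5, [22, 23], 6)]

theorem back_G1c : Back G1c [] psG1c [] := by
  constructor <;> decide

theorem back_G3 : Back G3 [(10, 17)] psG3 [] := by
  constructor <;> decide

section

variable {V : Type} [Fintype V] [DecidableEq V] {G : SimpleGraph V} [DecidableRel G.Adj]
  {R : Rot G} {d : G.Dart}

/-- The place G1. -/
def pG1 (f : ℕ → V) : Place V :=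
  place G1c [] psG1c [] [(0, 1), (2, 3), (4, 5), (6, 8)] [] f

/-- The place G3. -/
def pG3 (f : ℕ → V) : Place V :=
  place G3 [(10, 17)] psG3 [] [(2, 3), (7, 8), (5, 6)] [(0, 1), (0, 9), (1, 9)] f

/-- **The place G1.** -/
theorem good_G1 (hext : G1c.Ext []) (hR : C5 R) (h13 : 13 ≤ Fintype.card V) (h : IsG1 R d) :
    Uni91.Good (pG1 (fG1 R d)) G :=
  (patchG1c hR h13 h).good hext G1c_data back_G1c

/-- **The mirror image of the place G1.** -/
theorem good_G1m (hext : G1c.Ext []) (hR : C5 R) (h13 : 13 ≤ Fintype.card V)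
    (h : IsG1m R d) : Uni91.Good (pG1 (fG1m R d)) G :=
  (patchG1cm hR h13 h).good hext G1c_data back_G1c

/-- **The place G3.** -/
theorem good_G3 (hext : G3.Ext []) (hR : C5 R) (h13 : 13 ≤ Fintype.card V) (h : IsG3 R d) :
    Uni91.Good (pG3 (fG3 R d)) G :=
  (patchG3 hR h13 h).good hext G3_data back_G3

end

end Pool.Agent.U2Geo
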