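import Mathlib
import Pool.Agent.Work.MP_392c8e_co_t1.Maps2
import Pool.Agent.Work.MP_392c8e_co_uni.GeoGood
import Pool.Agent.Work.MP_392c8e_co_uni.CertC3
import Pool.Agent.Work.MP_392c8e_co_uni.CertC3M

/-!
# Patches: three faces of length five in a row

`d`, `ac R d 0` and `ac R (ac R d 0) 3` are darts of three faces `P1`, `P2`, `P3` of length five
along the face `F` across `ac R d 1`.  The other faces around: `L` across `ac R d 2`, `O0` across
`ac R d 3`, `O1` across `ac R d 4`, `O2` across `ac R (ac R d 0) 2`, `O3` and `R` across the edges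
2 and 3 of `P3`.
-/

namespace Pool.Agent.U2Geo

open Finset Pool.Agent.Sub392 Pool.T1Side Pool.Agent.T392 Pool.Agent.T1FF Pool.Agent.T1Red

set_option linter.unusedSectionVars false

variable {V : Type} [Fintype V] [DecidableEq V] {G : SimpleGraph V} [DecidableRel G.Adj]
  {R : Rot G}

/-- Three faces of length five in a row. -/
structure Row3 (R : Rot G) (d : G.Dart) : Prop where
  h0 : sz R d = 5
  h1 : sz R (ac R d 0) = 5
  h2 : sz R (ac R (ac R d 0) 3) = 5

section

variable {d : G.Dart}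

theorem Row3.tab (h : Row3 R d) (hR : C5 R) : TabOk G (fB R d) tC :=
  tabB (hR.good h.h0) (hR.good h.h1) (hR.good h.h2)

theorem Row3.e4 (h : Row3 R d) (hR : C5 R) : X R (ac R d 0) 4 = Y R d 1 :=
  (hR.good h.h0).ac_last 0 (hR.good h.h1) (by norm_num)

/-- The face across `8 9`. -/
theorem Row3.nF (h : Row3 R d) (hR : C5 R) (hF : sz R (ac R d 1) ≠ 5) (x y : V) :
    ¬ NB G [fB R d 7, fB R d 8, fB R d 9, x, y] := by
  have h1 := hR.no5a d 1 hF x y
  rw [← h.e4 hR] at h1
  exact h1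

/-- The face across `11 15`. -/
theorem Row3.nO0 (_h : Row3 R d) (hR : C5 R) (hF : sz R (ac R d 3) ≠ 5) (x y : V) :
    ¬ NB G [fB R d 1, fB R d 11, fB R d 15, x, y] := fun h1 =>
  hR.no5a d 3 hF y x (nb5_reverse h1)

/-- The face across `16 13`. -/
theorem Row3.nO2 (_h : Row3 R d) (hR : C5 R) (hF : sz R (ac R (ac R d 0) 2) ≠ 5) (x y : V) :
    ¬ NB G [fB R d 16, fB R d 13, fB R d 17, x, y] := fun h1 => by
  have h2 := hR.no5b (ac R d 0) 2 hF y x
  have g2 : X R (ac R (ac R d 0) 3) 2 = Y R (ac R d 0) 3 := ac_X2 R (ac R d 0) 3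
  rw [← g2] at h2
  exact h2 (nb5_reverse h1)

/-- The face across `17 14`. -/
theorem Row3.nO3 (_h : Row3 R d) (hR : C5 R) (hF : sz R (ac R (ac R (ac R d 0) 3) 2) ≠ 5) (x y : V) :
    ¬ NB G [fB R d 4, fB R d 17, fB R d 14, x, y] := fun h1 =>
  hR.no5a (ac R (ac R d 0) 3) 2 hF y x (nb5_reverse h1)

/-- The face across `14 10`. -/
theorem Row3.nR (_h : Row3 R d) (hR : C5 R) (hF : sz R (ac R (ac R (ac R d 0) 3) 3) ≠ 5) (x y : V) :
    ¬ NB G [fB R d 5, fB R d 14, fB R d 10, x, y] := fun h1 =>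
  hR.no5a (ac R (ac R d 0) 3) 3 hF y x (nb5_reverse h1)

end

/-! ## First gadget -/

/-- The paths of the first gadget. -/
def psM2 : List (ℕ × List ℕ × ℕ) := [(0, [7, 8, 12, 16], 3), (1, [11, 15], 2), (4, [17, 14, 10], 6)]

theorem ext_M2a : C3.Ext [] := Red.ext_of_check check_C3 (by decide)

theorem ext_M2b : C3.Ext [(0, 6)] := Red.ext_of_check check_C3 (by decide)

theorem data_M2a : Data C3 [] psM2 [] [] [(0, 3), (1, 2), (4, 6)] [] := by
  constructor <;> decide

theorem data_M2b : Data C3 [] psM2 [] [(0, 6)] [(0, 3), (1, 2), (4, 6)] [(3, 4)] := by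
  constructor <;> decide

theorem ps_M2a : PsOk C3 [] psM2 [] := by
  constructor <;> decide

theorem ps_M2b : PsOk C3 [] psM2 [(0, 6)] := by
  constructor <;> decide

/-- **The first gadget of three faces of length five in a row.** -/
theorem good_M2 (hR : C5 R) (h13 : 13 ≤ Fintype.card V) {d : G.Dart} (h : Row3 R d)
    (hO0 : sz R (ac R d 3) ≠ 5)
    (hF : ¬ (sz R (ac R d 1) = 5 ∧ sz R (ac R (ac R d 0) 2) = 5)) :
    ∃ co bad, Uni91.Good (plc C3 [] psM2 co [(0, 3), (1, 2), (4, 6)] bad (fB R d)) G := by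
  by_cases h1 : sz R (ac R d 1) = 5
  · have h2 : sz R (ac R (ac R d 0) 2) ≠ 5 := fun h2 => hF ⟨h1, h2⟩
    refine ⟨_, _, good_of ext_M2b data_M2b ps_M2b (patch_of (hR.cls h13) (h.tab hR) (by decide)
      (F := [(16, 13, 17), (1, 11, 15)]) ?_ C3b_fin)⟩
    intro e he x y
    simp only [List.mem_cons, List.not_mem_nil, or_false] at he
    rcases he with rfl | rfl
    · exact h.nO2 hR h2 x y
    · exact h.nO0 hR hO0 x y
  · refine ⟨_, _, good_of ext_M2a data_M2a ps_M2a (patch_of (hR.cls h13) (h.tab hR) (by decide)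
      (F := [(7, 8, 9), (1, 11, 15)]) ?_ C3a_fin)⟩
    intro e he x y
    simp only [List.mem_cons, List.not_mem_nil, or_false] at he
    rcases he with rfl | rfl
    · exact h.nF hR h1 x y
    · exact h.nO0 hR hO0 x y

/-! ## Second gadget -/

/-- The paths of the second gadget. -/
def psM3 : List (ℕ × List ℕ × ℕ) := [(0, [7, 8, 12, 16], 3), (1, [11, 15], 2), (4, [17, 14], 5)]

theorem ext_M3 : C3M3.Ext [(0, 6)] := Red.ext_of_check check_C3M3 (by decide)

theorem data_M3 : Data C3M3 [] psM3 [] [(0, 6)] [(0, 3), (1, 2), (4, 5)] [] := by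
  constructor <;> decide

theorem ps_M3 : PsOk C3M3 [] psM3 [(0, 6)] := by
  constructor <;> decide

/-- **The second gadget of three faces of length five in a row.** -/
theorem good_M3 (hR : C5 R) (h13 : 13 ≤ Fintype.card V) {d : G.Dart} (h : Row3 R d)
    (hO0 : sz R (ac R d 3) ≠ 5) (hO3 : sz R (ac R (ac R (ac R d 0) 3) 2) ≠ 5) :
    Uni91.Good (plc C3M3 [] psM3 [(0, 6)] [(0, 3), (1, 2), (4, 5)] [] (fB R d)) G := by
  refine good_of ext_M3 data_M3 ps_M3 (patch_of (hR.cls h13) (h.tab hR) (by decide)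
      (F := [(1, 11, 15), (4, 17, 14)]) ?_ C3M3_fin)
  intro e he x y
  simp only [List.mem_cons, List.not_mem_nil, or_false] at he
  rcases he with rfl | rfl
  · exact h.nO0 hR hO0 x y
  · exact h.nO3 hR hO3 x y

/-! ## Third gadget -/

/-- The paths of the third gadget. -/
def psM6 : List (ℕ × List ℕ × ℕ) := [(0, [7, 8, 12, 16], 3), (1, [11, 15], 2), (5, [14, 10], 6)]

theorem ext_M6 : C3M6.Ext [(0, 6)] := Red.ext_of_check check_C3M6 (by decide)

theorem data_M6 : Data C3M6 [] psM6 [] [(0, 6)] [(0, 3), (1, 2), (5, 6)] [(3, 5)] := by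
  constructor <;> decide

theorem ps_M6 : PsOk C3M6 [] psM6 [(0, 6)] := by
  constructor <;> decide

/-- **The third gadget of three faces of length five in a row.** -/
theorem good_M6 (hR : C5 R) (h13 : 13 ≤ Fintype.card V) {d : G.Dart} (h : Row3 R d)
    (hO0 : sz R (ac R d 3) ≠ 5) (hRR : sz R (ac R (ac R (ac R d 0) 3) 3) ≠ 5) :
    Uni91.Good (plc C3M6 [] psM6 [(0, 6)] [(0, 3), (1, 2), (5, 6)] [(3, 5)] (fB R d)) G := by
  refine good_of ext_M6 data_M6 ps_M6 (patch_of (hR.cls h13) (h.tab hR) (by decide)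
      (F := [(1, 11, 15), (5, 14, 10)]) ?_ C3M6_fin)
  intro e he x y
  simp only [List.mem_cons, List.not_mem_nil, or_false] at he
  rcases he with rfl | rfl
  · exact h.nO0 hR hO0 x y
  · exact h.nR hR hRR x y

end Pool.Agent.U2Geo
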