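import Mathlib
import Pool.Agent.Work.MP_392c8e_co_uni.PatchC3
import Pool.Agent.Work.MP_392c8e_co_uni.ClusterM2

/-!
# The line of the table for three faces of length five in a row
-/

namespace Pool.Agent.U2Geo

open Finset Pool.Agent.Sub392 Pool.T1Side Pool.Agent.T392 Pool.Agent.T1FF Pool.Agent.T1Red
open Pool.Agent.Disch392

set_option linter.unusedSectionVars false

variable {V : Type} [Fintype V] [DecidableEq V] {G : SimpleGraph V} [DecidableRel G.Adj]
  {R : Rot G}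

theorem ac_eq_ad (R : Rot G) (d : G.Dart) (i : ℕ) : ac R d i = ad R d i := by
  unfold ac ad
  rw [Equiv.Perm.iterate_eq_pow]

theorem sz_ac (R : Rot G) (d : G.Dart) (i : ℕ) : sz R (ac R d i) = nb R d i := by
  rw [ac_eq_ad, sz_ad]

theorem ac_iter (R : Rot G) (d : G.Dart) (i j : ℕ) : ac R (R.next^[i] d) j = ad R d (i + j) := by
  rw [ac_eq_ad, ad_iter]

/-- The label map of C3 for the chain of `d`. -/
def fM2 (R : Rot G) (d : G.Dart) : ℕ → V := fB' R (R.next^[4] d)

section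

variable {d : G.Dart}

theorem chain_data (h : Chain R d) : sz R (R.next^[4] d) = 5 ∧ sz R (ac R (R.next^[4] d) 0) = 5 ∧
    sz R (ac R (R.next^[4] d) 2) = 5 := by
  refine ⟨by rw [sz_iter]; exact h.p2, ?_, ?_⟩
  · rw [ac_iter, sz_ad]; exact h.p1
  · rw [ac_iter, sz_ad, show 4 + 2 = 1 + 5 from rfl, nb_per R h.p2]; exact h.p3

theorem chain_tab (hR : C5 R) (h : Chain R d) : TabOk G (fM2 R d) tC' :=
  tabB' (hR.good (chain_data h).1) (hR.good (chain_data h).2.1) (hR.good (chain_data h).2.2)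

/-- The corner of the face across `8 9`. -/
theorem chain_nF (hR : C5 R) (h : Chain R d) (hF : nb R d 0 ≠ 5) (x y : V) :
    ¬ NB G [fM2 R d 7, fM2 R d 8, fM2 R d 9, x, y] := fun h1 => by
  have h2 : sz R (ac R (R.next^[4] d) 1) ≠ 5 := by
    rw [ac_iter, sz_ad, show 4 + 1 = 0 + 5 from rfl, nb_per R h.p2]; exact hF
  have h3 := hR.no5a (R.next^[4] d) 1 h2 y x
  have e4 : X R (ac R (R.next^[4] d) 0) 4 = Y R (R.next^[4] d) 1 :=
    (hR.good (chain_data h).1).ac_last 0 (hR.good (chain_data h).2.1) (by norm_num)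
  rw [← e4] at h3
  exact h3 (nb5_reverse h1)

/-- The corner of the face across `11 15`. -/
theorem chain_nO0 (hR : C5 R) (_h : Chain R d) (hO : nb R (ad R d 4) 2 ≠ 5) (x y : V) :
    ¬ NB G [fM2 R d 1, fM2 R d 11, fM2 R d 15, x, y] := fun h1 => by
  have h2 : sz R (ac R (ac R (R.next^[4] d) 0) 2) ≠ 5 := by
    rw [sz_ac, ac_iter]; exact hO
  exact hR.no5b (ac R (R.next^[4] d) 0) 2 h2 x y h1

/-- The corner of the face across `16 13`. -/
theorem chain_nO2 (hR : C5 R) (h : Chain R d) (hO : nb R d 2 ≠ 5) (x y : V) :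
    ¬ NB G [fM2 R d 16, fM2 R d 13, fM2 R d 17, x, y] := fun h1 => by
  have h2 : sz R (ac R (R.next^[4] d) 3) ≠ 5 := by
    rw [ac_iter, sz_ad, show 4 + 3 = 2 + 5 from rfl, nb_per R h.p2]; exact hO
  have h3 := hR.no5a (R.next^[4] d) 3 h2 x y
  have g4 : X R (ac R (R.next^[4] d) 2) 4 = Y R (R.next^[4] d) 3 :=
    (hR.good (chain_data h).1).ac_last 2 (hR.good (chain_data h).2.2) (by norm_num)
  rw [← g4] at h3
  exact h3 h1

end

/-- **The line of the table for three faces of length five in a row.** -/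
theorem line_M2 (hR : C5 R) (h13 : 13 ≤ Fintype.card V) {d : G.Dart} (h : Chain R d)
    (hO : nb R (ad R d 4) 2 ≠ 5) (hF : ¬ (nb R d 0 = 5 ∧ nb R d 2 = 5)) :
    Uni91.Good (plc C3 [] psM2 [] [(0, 3), (1, 2), (4, 6)] [] (fM2 R d)) G ∨
    Uni91.Good (plc C3 [] psM2 [(0, 6)] [(0, 3), (1, 2), (4, 6)] [(3, 4)] (fM2 R d)) G := by
  by_cases h1 : nb R d 0 = 5
  · have h2 : nb R d 2 ≠ 5 := fun h2 => hF ⟨h1, h2⟩
    refine Or.inr (good_of ext_M2b data_M2b ps_M2b (patch_of (hR.cls h13) (chain_tab hR h)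
      (by decide) (F := [(16, 13, 17), (1, 11, 15)]) ?_ C3b_fin))
    intro e he x y
    simp only [List.mem_cons, List.not_mem_nil, or_false] at he
    rcases he with rfl | rfl
    · exact chain_nO2 hR h h2 x y
    · exact chain_nO0 hR h hO x y
  · refine Or.inl (good_of ext_M2a data_M2a ps_M2a (patch_of (hR.cls h13) (chain_tab hR h)
      (by decide) (F := [(7, 8, 9), (1, 11, 15)]) ?_ C3a_fin))
    intro e he x y
    simp only [List.mem_cons, List.not_mem_nil, or_false] at he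
    rcases he with rfl | rfl
    · exact chain_nF hR h h1 x y
    · exact chain_nO0 hR h hO x y

/-- The dart starts at a vertex of the place. -/
theorem fM2_mem {d : G.Dart} (h : Chain R d) : fM2 R d 8 = d.fst := by
  show X R (R.next^[4] d) 1 = d.fst
  unfold X
  rw [pow_one, ← Function.iterate_succ_apply' R.next 4 d]
  have := next_sz R d
  rw [h.p2] at this
  rw [this]

theorem vert_M2 (d : G.Dart) (h : Chain R d) (co bad : List (ℕ × ℕ)) :
    d.fst ∈ (plc C3 [] psM2 co [(0, 3), (1, 2), (4, 6)] bad (fM2 R d)).Vert := by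
  refine ⟨8, ⟨?_, List.not_mem_nil, fun p hp => absurd hp List.not_mem_nil⟩, fM2_mem h⟩
  show 8 < 7 + 11
  norm_num

/-- Three faces of length five in a row: a good place at the dart. -/
theorem occ_M2 (hR : C5 R) (h13 : 13 ≤ Fintype.card V) {d : G.Dart} (h : Chain R d)
    (hO : nb R (ad R d 4) 2 ≠ 5) (hF : ¬ (nb R d 0 = 5 ∧ nb R d 2 = 5)) :
    ∃ q : Uni392.Place V, Uni91.Good q G ∧ d.fst ∈ q.Vert ∧
      q.R = C3 ∧ q.nl = [] ∧ q.ps = psM2 ∧ q.miss = [] ∧ (q.co = [] ∨ q.co = [(0, 6)]) := by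
  rcases line_M2 hR h13 h hO hF with h1 | h1
  · exact ⟨_, h1, vert_M2 d h _ _, rfl, rfl, rfl, rfl, Or.inl rfl⟩
  · exact ⟨_, h1, vert_M2 d h _ _, rfl, rfl, rfl, rfl, Or.inr rfl⟩

end Pool.Agent.U2Geo
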