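import Mathlib
import Pool.Agent.Work.MP_392c8e_co_uni.GoodG
import Pool.Agent.Work.MP_392c8e_co_uni.LineM2
import Pool.Agent.Work.MP_392c8e_co_uni.Shape
import Pool.Agent.Work.MP_392c8e_co_uni.NoTwo

/-!
# The lines t3 and g3 of the table
-/

namespace Pool.Agent.U2Geo

open Finset Pool.Agent.Sub392 Pool.T1Side Pool.Agent.T392 Pool.Agent.T1FF Pool.Agent.T1Red
open Pool.Agent.Disch392 (nb ad NoC Near nb_ad_zero nb_ad_one nb_ad_last ad_per c5)

set_option linter.unusedSectionVars false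

variable {V : Type} [Fintype V] [DecidableEq V] {G : SimpleGraph V} [DecidableRel G.Adj]
  {R : Rot G}

/-- The shape G1. -/
def sG1 : Shape := ⟨G1c, [], psG1c, [], [(0, 1), (2, 3), (4, 5), (6, 8)], []⟩

/-- The shape G3. -/
def sG3 : Shape := ⟨G3, [(10, 17)], psG3, [], [(2, 3), (7, 8), (5, 6)], [(0, 1), (0, 9), (1, 9)]⟩

/-- **The line t3.** -/
theorem line_t3 (hext : G1c.Ext []) (hR : C5 R) (h13 : 13 ≤ Fintype.card V) (d : G.Dart)
    (hN : NoC R d) (hs : sz R d = 7) (h0 : nb R d 0 = 5) (h1 : nb R d 1 = 5) (h3 : nb R d 3 = 5)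
    (h5 : nb R d 5 ≠ 5) : HasPl sG1 G d.fst := by
  have n1 : Near R 1 d (ad R d 0) := (Near.refl R 0 d).ad' 0
  have n2 : Near R 2 d (ad R d 1) := (Near.refl R 0 d).ad' 1
  have a4 : nb R (ad R d 0) 4 = 5 := by rw [nb_ad_last hR.cub d h0]; exact h1
  have b1 : nb R (ad R d 1) 1 = 5 := by rw [nb_ad_one hR.cub d 0]; exact h0
  have hG : IsG1 R d := by
    refine ⟨hs, ?_, ?_, ?_, ?_, ?_, ?_, ?_⟩
    · rw [sz_ac]; exact h0
    · rw [sz_ac]; exact h1
    · rw [sz_ac]; exact h3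
    · rw [sz_ac, ← nb_ad_last hR.cub d h1]
      exact hN.three n2 h1 (i := 1) (by norm_num) b1
    · rw [sz_ac]; exact h5
    · rw [sz_ac, ac_eq_ad]
      intro h2
      exact hN.two n1 h0 (i := 2) (by norm_num) h2 a4
    · rw [sz_ac, ac_eq_ad]
      exact hN.two n2 h1 (i := 1) (by norm_num) b1
  refine ⟨fG1 R d, good_G1 hext hR h13 hG, 9, ?_, rfl⟩
  show Real G1c [] [] 9
  exact ⟨by decide, by decide, by decide⟩

/-- No neighbour of length five. -/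
theorem nb_ne_of_c5 {e : G.Dart} (h : c5 R e = 0) : ∀ i < 5, nb R e i ≠ 5 := by
  intro i hi h5
  unfold Disch392.c5 at h
  rw [card_eq_zero, filter_eq_empty_iff] at h
  exact h (mem_range.2 hi) h5

/-- **The line g3.** -/
theorem line_g3 (hext : G3.Ext []) (hR : C5 R) (h13 : 13 ≤ Fintype.card V) (d : G.Dart)
    (hs : sz R d = 7) (h0 : nb R d 0 = 5) (h2 : nb R d 2 = 5) (h4 : nb R d 4 = 5)
    (c0 : c5 R (ad R d 0) = 0) (c2 : c5 R (ad R d 2) = 0) (c4 : c5 R (ad R d 4) = 0) :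
    HasPl sG3 G d.fst := by
  have e0 := nb_ne_of_c5 c0
  have e2 := nb_ne_of_c5 c2
  have e4 := nb_ne_of_c5 c4
  have hG : IsG3 R d := by
    refine ⟨hs, ?_, ?_, ?_, ?_, ?_, ?_, ?_, ?_, ?_, ?_⟩
    · rw [sz_ac]; exact h0
    · rw [sz_ac]; exact h2
    · rw [sz_ac]; exact h4
    · rw [sz_ac, ← nb_ad_last hR.cub d h0]; exact e0 4 (by norm_num)
    · rw [sz_ac, ← nb_ad_last hR.cub d h2]; exact e2 4 (by norm_num)
    · rw [sz_ac, ← nb_ad_last hR.cub d h4]; exact e4 4 (by norm_num)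
    · rw [sz_ac, ← nb_ad_one hR.cub d 6, show 6 + 1 = 0 + 7 from rfl, ad_per R hs]
      exact e0 1 (by norm_num)
    · rw [sz_ac, ac_eq_ad]; exact e0 3 (by norm_num)
    · rw [sz_ac, ac_eq_ad]; exact e2 3 (by norm_num)
    · rw [sz_ac, ac_eq_ad]; exact e4 2 (by norm_num)
  refine ⟨fG3 R d, good_G3 hext hR h13 hG, 11, ?_, rfl⟩
  show Real G3 [(10, 17)] [] 11
  exact ⟨by decide, by decide, by decide⟩

end Pool.Agent.U2Geo
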