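import Mathlib
import Pool.Agent.Work.MP_392c8e_co_uni.LineG
import Pool.Agent.Work.MP_392c8e_co_uni.GapTen
import Pool.Agent.Work.MP_392c8e_co_uni.RingShB
import Pool.Agent.Work.MP_392c8e_co_uni.PlW

/-!
# The line g3 of stage B
-/

namespace Pool.Agent.U2Geo

open Finset Pool.Agent.Sub392 Pool.T1Side Pool.Agent.T392 Pool.Agent.T1FF Pool.Agent.T1Red
open Pool.Agent.Disch392 (nb ad Near nb_ad_zero nb_ad_one nb_ad_last ad_per c5)
open Pool.Agent.DischB (Bf Snd)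
open Pool.Agent.RingB (qG3 gqs_G3 gsJ gaps_ofJ gainP_of labB goodB)
open Pool.Agent.Once392 (shG3 shOk_G3)
open Pool.Agent.Uni91 (GainP)

set_option linter.unusedSectionVars false

theorem labB_G3 : labB sG3.R sG3.nl tG3 = true := by decide +kernel

theorem goodB_G3 : goodB sG3.R sG3.nl sG3.ps sG3.co (gsJ tG3 qG3 shG3) = true := by
  decide +kernel

theorem shOK_G3 : shOK sG3 = true := by decide +kernel

variable {V : Type} [Fintype V] [DecidableEq V] {G : SimpleGraph V} [DecidableRel G.Adj]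
  {R : Rot G} {K : ℕ}

/-- The patch G3 from the lengths. -/
theorem isG3_of (hR : C5 R) {d : G.Dart} (hs : sz R d = 7) (h0 : nb R d 0 = 5)
    (h2 : nb R d 2 = 5) (h4 : nb R d 4 = 5) (c0 : c5 R (ad R d 0) = 0)
    (c2 : c5 R (ad R d 2) = 0) (c4 : c5 R (ad R d 4) = 0) : IsG3 R d := by
  have e0 := nb_ne_of_c5 c0
  have e2 := nb_ne_of_c5 c2
  have e4 := nb_ne_of_c5 c4
  refine ⟨hs, ?_, ?_, ?_, ?_, ?_, ?_, ?_, ?_, ?_, ?_⟩
  · rw [sz_ac]; exact h0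
  · rw [sz_ac]; exact h2
  · rw [sz_ac]; exact h4
  · rw [sz_ac, ← nb_ad_last hR.cub d h0]; exact e0 4 (by norm_num)
  · rw [sz_ac, ← nb_ad_last hR.cub d h2]; exact e2 4 (by norm_num)
  · rw [sz_ac, ← nb_ad_last hR.cub d h4]; exact e4 4 (by norm_num)
  · rw [sz_ac, ← nb_ad_one hR.cub d 6, show 6 + 1 = 0 + 7 from rfl, ad_per R hs]
    exact e0 1 (by norm_num)
  · rw [sz_ac, ac_eq_ad]; exact e0 3 (by norm_num)
  · rw [sz_ac, ac_eq_ad]; exact e2 3 (by norm_num)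
  · rw [sz_ac, ac_eq_ad]; exact e4 2 (by norm_num)

/-- **The line g3 of stage B.** -/
theorem instG3 (hext : G3.Ext []) (hR : C5 R) (h13 : 13 ≤ Fintype.card V) {d : G.Dart}
    (hs : sz R d = 7) (a0 : Snd R K (ad R d 0)) (a2 : Snd R K (ad R d 2))
    (a4 : Snd R K (ad R d 4)) (c0 : c5 R (ad R d 0) = 0) (c2 : c5 R (ad R d 2) = 0)
    (c4 : c5 R (ad R d 4) = 0) :
    ∃ f : ℕ → V, Uni91.Good (sG3.pl f) G ∧ GainP G (sG3.pl f) (10 * (K + 1)) ∧
      d.fst ∈ (sG3.pl f).Vert := by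
  have hG : IsG3 R d := isG3_of hR hs a0.1.1 a2.1.1 a4.1.1 c0 c2 c4
  have hgood : Uni91.Good (sG3.pl (fG3 R d)) G := good_G3 hext hR h13 hG
  have hN : Once392.RotOk R (fG3 R d) tG3 :=
    rotG3 (hR.good hG.s) (hR.good hG.s0) (hR.good hG.s2) (hR.good hG.s4)
  have hsh := shOk_G3 hN a0.1 a2.1 a4.1
  refine ⟨fG3 R d, hgood, gainP_of hgood rfl
    (gaps_ofJ hR hgood rfl hN labB_G3 gqs_G3 hsh) goodB_G3, 11, ?_, rfl⟩
  show Real G3 [(10, 17)] [] 11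
  exact ⟨by decide, by decide, by decide⟩

/-- **The line g3 of the table of stage B.** -/
theorem lineB_g3 (hext : G3.Ext []) (hR : C5 R) (h13 : 13 ≤ Fintype.card V) {r : ℕ}
    (hr : 20 ≤ r) (hK : 10 * (K + 1) ≤ r) (d : G.Dart)
    (hs : sz R d = 7) (a0 : Snd R K (ad R d 0)) (a2 : Snd R K (ad R d 2))
    (a4 : Snd R K (ad R d 4)) (c0 : c5 R (ad R d 0) = 0) (c2 : c5 R (ad R d 2) = 0)
    (c4 : c5 R (ad R d 4) = 0) : PP R r d.fst :=
  ppW shOK_G3 hr hK (instG3 hext hR h13 hs a0 a2 a4 c0 c2 c4)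

end Pool.Agent.U2Geo
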