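import Mathlib
import Pool.Agent.Work.MP_392c8e_co_uni.Diam
import Pool.Agent.Work.MP_392c8e_co_uni.SideT
import Pool.Agent.Work.MP_392c8e_co_uni.C4Base

/-!
# Stage C: all labels of a patch are far from the faces of length four

Also: the certificates of stage A in the form of the checker with turns.
-/

set_option autoImplicit false
set_option linter.unusedSectionVars false

namespace Pool.Agent.U2Geo

open Finset Pool.Agent.Sub392 Pool.T1Side Pool.Agent.T392 Pool.Agent.T1FF Pool.Agent.T1Red
open Pool.Agent.Disch392

variable {V : Type} [Fintype V] [DecidableEq V] {G : SimpleGraph V} [DecidableRel G.Adj]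
  {R : Rot G}

/-- In a cubic graph every face is good. -/
theorem good_cub (h3 : ∀ v, G.degree v = 3) {d : G.Dart} {L : ℕ} (h : sz R d = L) :
    Good R d L := ⟨h, fun _ => h3 _⟩

/-- The label is reached by a short walk. -/
theorem walk_lab {A : Red} {f : ℕ → V} (hadj : ∀ e ∈ A.ed, G.Adj (f e.1) (f e.2)) (r n : ℕ)
    {j : ℕ} (hj : j ∈ reach A.ed n r) : ∃ w : G.Walk (f r) (f j), w.length ≤ n := by
  induction n generalizing j with
  | zero =>
    have : j = r := by simpa [reach] using hj
    subst this
    exact ⟨SimpleGraph.Walk.nil, le_rfl⟩
  | succ n ih =>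
    unfold reach at hj
    rw [Function.iterate_succ_apply'] at hj
    rcases grow_mem hj with h1 | ⟨i, hi, h1⟩
    · obtain ⟨w, hw⟩ := ih h1
      exact ⟨w, hw.trans (Nat.le_succ n)⟩
    · obtain ⟨w, hw⟩ := ih hi
      have ha : G.Adj (f i) (f j) := by
        rcases h1 with h1 | h1
        · exact hadj _ h1
        · exact (hadj _ h1).symm
      refine ⟨w.concat ha, ?_⟩
      rw [SimpleGraph.Walk.length_concat]
      omega

/-- All labels are reached from `r` in `n` steps. -/
def allR (A : Red) (n r : ℕ) : Bool :=
  (List.range (A.t + A.m)).all fun k => (reach A.ed n r).elem k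

/-- **The hypothesis on the labels**: the place is in the set of the vertices far from the faces of
length four. -/
theorem n4_labels {A : Red} {f : ℕ → V} {N : List (ℕ × ℕ × ℕ × ℕ)} (ht : TabOk G f N)
    (hc : chk A.ed (inner A) N = true) {r n : ℕ} (h : allR A n r = true) {v : V} (hv : f r = v)
    {m k : ℕ} (hN : N4 R k v) (hk : m + n ≤ k) : ∀ i, i < A.t + A.m → N4 R m (f i) := by
  intro i hi
  obtain ⟨h1, -⟩ := copy_of_tab ht hc
  unfold allR at h
  rw [List.all_eq_true] at h
  have h2 := h i (List.mem_range.2 hi)
  rw [List.elem_eq_mem, decide_eq_true_eq] at h2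
  obtain ⟨w, hw⟩ := walk_lab h1.adj r n h2
  subst hv
  exact (hN.mono hk).walk w hw

/-- The certificates with turns: a closed walk through a corner starts at a label below `n`. -/
def certT (n : ℕ) : CertL → CertT
  | .base (.corner a v b l l') =>
    if a < n then .base (.corner a v b l l') else .base (.corner b v a l.reverse l'.reverse)
  | .base c => .base c
  | .four a b c d => if a < n then .four a b c d else .four b c d a
  | .five a v b x y => .five a v b x y
  | .long a v b l l' => .base (.corner a v b l l')

/-- The steps with turns from the steps of stage A. -/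
def stepsT (n : ℕ) (l : List StepL) : List StepT := l.map fun s => match s with
  | .ne i j c => .ne i j (certT n c)
  | .na i j c => .na i j (certT n c)
  | .cn i j _ c => .cn i j (certT n c)

end Pool.Agent.U2Geo
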