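import Mathlib
import Pool.Agent.Work.MP_392c8e_co_uni.GoodG
import Pool.Agent.Work.MP_392c8e_co_uni.Shape

/-!
# The annular reducer G3X

`G3` with two terminals which are the same vertex and two adjacent terminals: nineteen interior
vertices, nine terminals; the terminals 3, …, 7 and 8, 0, 1, 2 are on the two sides.
-/

namespace Pool.Agent.T1Red

set_option synthInstance.maxSize 200000

/-- The annular reducer; terminal 8 is free. -/
def G3X : Red where
  t := 9
  m := 19
  ed :=
    [(9, 10), (9, 15), (9, 16), (10, 11), (10, 18), (11, 12), (11, 19), (12, 13), (12, 21), (13,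
    14), (13, 22), (14, 15), (14, 24), (16, 17), (17, 18), (17, 25), (18, 26), (19, 20), (20, 21),
    (22, 23), (22, 27), (23, 24), (23, 25), (26, 27), (15, 0), (16, 1), (25, 2), (26, 3), (19, 4),
    (20, 5), (21, 6), (27, 7), (24, 8)]
  nw := [(0, 6), (1, 3), (2, 7), (4, 5)]
  ne := [0, 0, 0, 128, 0, 64, 32, 8, 0]

/-- The paths of G3X. -/
def psG3X : List (ℕ × List ℕ × ℕ) :=
  [(0, [15, 14, 13, 12, 21], 6), (1, [16, 17, 18, 26], 3), (2, [25, 23, 22, 27], 7),
    (4, [19, 20], 5)]

theorem G3X_data : Data G3X [] psG3X [] [(3, 4), (6, 7)] [(0, 6), (1, 3), (2, 7), (4, 5)]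
    [(1, 5), (0, 2)] := by
  constructor <;> decide

end Pool.Agent.T1Red

namespace Pool.Agent.U2Geo

open Pool.Agent.T1Red

set_option synthInstance.maxSize 200000

theorem back_G3X : Back G3X [] psG3X [(3, 4), (6, 7)] := by
  constructor <;> decide

/-- The shape G3X. -/
def sG3X : Shape :=
  ⟨G3X, [], psG3X, [(3, 4), (6, 7)], [(0, 6), (1, 3), (2, 7), (4, 5)], [(1, 5), (0, 2)]⟩

end Pool.Agent.U2Geo
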