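import Mathlib
import Pool.Agent.Work.MP_392c8e_co_uni.RotTabs
import Pool.Agent.Work.MP_392c8e_co_uni.RedG
import Pool.Agent.Work.MP_392c8e_co_uni.TabG
import Pool.Agent.Work.MP_392c8e_co_uni.SideTX

/-!
# Stage C: the patch G3 with three more vertices

The case of the line `g3` in which the stubs 2 and 8 of G3 end at the same vertex `T` and the ends
`t3`, `t7` of the stubs 3 and 7 are adjacent.  Then `t3 9 8 T 14 13 t7` is a face of length seven,
and the patch G3X has the interior vertices of G3 and `T`, `t3`, `t7`.  Labels of G3X: terminals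
`0, 1, 2` (third neighbour of `T`), `3` (third neighbour of `t3`), `4, 5, 6`, `7` (third neighbour
of `t7`), `8` (stub 9 of G3); interior `9, .., 24` (labels `11, .., 26` of G3), `T = 25`, `t3 = 26`,
`t7 = 27`.
-/

set_option autoImplicit false

namespace Pool.Agent.RotX

open Finset Pool.Agent.Sub392 Pool.T1Side Pool.Agent.T392 Pool.Agent.T1FF Pool.Agent.T1Red
open Pool.Agent.Disch392 Pool.Agent.U2Geo Pool.Agent.Once392

set_option linter.unusedSectionVars false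

/-- The certificate: all labels of G3 are different vertices, except 2 and 8. -/
def stepsX : List StepT := [
  .ne 0 12 (.base (.tri 0 11 17)), .ne 0 15 (.base (.tri 0 16 17)),
  .ne 0 18 (.base (.tri 0 11 17)), .ne 0 26 (.base (.tri 0 16 17)),
  .ne 1 2 (.base (.tri 1 18 19)), .ne 1 12 (.base (.tri 1 11 18)),
  .ne 1 17 (.base (.tri 1 11 18)), .ne 1 20 (.base (.tri 1 18 19)),
  .ne 2 3 (.base (.tri 2 19 20)), .ne 2 7 (.base (.tri 2 24 25)), .ne 2 9 (.base (.tri 2 25 26)),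
  .ne 2 11 (.base (.tri 2 18 19)), .ne 2 12 (.base (.tri 2 19 20)),
  .ne 2 15 (.base (.tri 2 24 25)), .ne 2 16 (.base (.tri 2 25 26)),
  .ne 3 11 (.base (.tri 3 12 20)), .ne 3 13 (.base (.tri 3 12 20)),
  .ne 3 15 (.base (.tri 3 7 24)), .ne 3 18 (.base (.tri 3 19 20)),
  .ne 3 25 (.base (.tri 3 7 24)), .ne 4 5 (.base (.tri 4 21 22)),
  .ne 4 12 (.base (.tri 4 13 21)), .ne 4 14 (.base (.tri 4 13 21)),
  .ne 4 23 (.base (.tri 4 21 22)), .ne 5 6 (.base (.tri 5 22 23)),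
  .ne 5 13 (.base (.tri 5 21 22)), .ne 5 14 (.base (.tri 5 22 23)),
  .ne 6 13 (.base (.tri 6 14 23)), .ne 6 15 (.base (.tri 6 14 23)),
  .ne 6 21 (.base (.tri 6 22 23)), .ne 7 12 (.base (.tri 7 3 20)),
  .ne 7 14 (.base (.tri 7 15 24)), .ne 7 16 (.base (.tri 7 15 24)),
  .ne 7 19 (.base (.tri 7 3 20)), .ne 7 26 (.base (.tri 7 24 25)),
  .ne 9 15 (.base (.tri 9 16 26)), .ne 9 17 (.base (.tri 9 16 26)),
  .ne 9 24 (.base (.tri 9 25 26)), .ne 11 14 (.base (.tri 11 12 13)),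
  .ne 11 15 (.base (.tri 11 16 17)), .ne 11 21 (.base (.tri 11 12 13)),
  .ne 11 26 (.base (.tri 11 16 17)), .ne 12 15 (.base (.tri 12 13 14)),
  .ne 12 16 (.base (.tri 12 11 17)), .ne 12 22 (.base (.tri 12 13 21)),
  .ne 12 23 (.base (.tri 12 13 14)), .ne 13 16 (.base (.tri 13 14 15)),
  .ne 13 17 (.base (.tri 13 11 12)), .ne 13 18 (.base (.tri 13 11 12)),
  .ne 13 19 (.base (.tri 13 12 20)), .ne 13 24 (.base (.tri 13 14 15)),
  .ne 14 17 (.base (.tri 14 15 16)), .ne 14 20 (.base (.tri 14 12 13)),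
  .ne 14 25 (.base (.tri 14 15 24)), .ne 14 26 (.base (.tri 14 15 16)),
  .ne 15 21 (.base (.tri 15 13 14)), .ne 15 22 (.base (.tri 15 14 23)),
  .ne 16 18 (.base (.tri 16 11 17)), .ne 16 23 (.base (.tri 16 14 15)),
  .ne 17 19 (.base (.tri 17 11 18)), .ne 17 20 (.base (.tri 17 11 12)),
  .ne 17 24 (.base (.tri 17 15 16)), .ne 17 25 (.base (.tri 17 16 26)),
  .ne 18 25 (.base (.tri 18 2 19)), .ne 19 24 (.base (.tri 19 2 25)),
  .ne 19 26 (.base (.tri 19 2 25)), .ne 20 21 (.base (.tri 20 12 13)),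
  .ne 20 24 (.base (.tri 20 3 7)), .ne 20 25 (.base (.tri 20 2 19)),
  .ne 23 24 (.base (.tri 23 14 15)), .ne 0 1 (.four 0 17 11 18), .ne 0 9 (.four 0 17 16 26),
  .ne 0 13 (.four 0 12 11 17), .ne 0 14 (.four 0 15 16 17), .ne 0 19 (.four 0 17 11 18),
  .ne 0 20 (.four 0 12 11 17), .ne 0 24 (.four 0 15 16 17), .ne 0 25 (.four 0 17 16 26),
  .ne 1 3 (.four 1 18 19 20), .ne 1 13 (.four 1 12 11 18), .ne 1 16 (.four 1 17 11 18),
  .ne 1 25 (.four 1 2 19 18), .ne 2 13 (.four 2 12 20 19), .ne 2 14 (.four 2 15 24 25),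
  .ne 2 17 (.four 2 11 18 19), .ne 3 14 (.four 3 7 24 15), .ne 3 16 (.four 3 7 24 15),
  .ne 3 17 (.four 3 11 12 20), .ne 3 21 (.four 3 13 12 20), .ne 3 26 (.four 3 7 24 25),
  .ne 4 6 (.four 4 21 22 23), .ne 4 11 (.four 4 12 13 21), .ne 4 15 (.four 4 14 13 21),
  .ne 4 20 (.four 4 12 13 21), .ne 5 12 (.four 5 13 21 22), .ne 5 15 (.four 5 14 23 22),
  .ne 6 12 (.four 6 13 14 23), .ne 6 16 (.four 6 15 14 23), .ne 6 24 (.four 6 15 14 23),
  .ne 7 9 (.four 7 24 25 26), .ne 7 11 (.four 7 3 20 12), .ne 7 13 (.four 7 3 20 12),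
  .ne 7 17 (.four 7 16 15 24), .ne 7 18 (.four 7 3 20 19), .ne 7 23 (.four 7 14 15 24),
  .ne 9 11 (.four 9 17 16 26), .ne 9 14 (.four 9 15 16 26), .ne 9 19 (.four 9 2 25 26),
  .ne 11 22 (.four 11 12 13 21), .ne 11 23 (.four 11 12 13 14), .ne 11 24 (.four 11 15 16 17),
  .ne 11 25 (.four 11 2 19 18), .ne 12 24 (.four 12 13 14 15), .ne 12 25 (.four 12 2 19 20),
  .ne 12 26 (.four 12 11 17 16), .ne 13 25 (.four 13 14 15 24), .ne 13 26 (.four 13 14 15 16),
  .ne 14 18 (.four 14 11 12 13), .ne 14 19 (.four 14 13 12 20), .ne 15 18 (.four 15 11 17 16),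
  .ne 15 19 (.four 15 2 25 24), .ne 15 20 (.four 15 12 13 14), .ne 16 19 (.four 16 2 25 26),
  .ne 16 20 (.four 16 12 11 17), .ne 16 21 (.four 16 13 14 15), .ne 16 22 (.four 16 15 14 23),
  .ne 17 21 (.four 17 11 12 13), .ne 17 23 (.four 17 14 15 16), .ne 18 21 (.four 18 11 12 13),
  .ne 18 24 (.seven [18, 11, 17, 16, 15]), .ne 18 26 (.four 18 11 17 16),
  .ne 19 21 (.four 19 13 12 20), .ne 20 22 (.four 20 12 13 21), .ne 20 23 (.four 20 12 13 14),
  .ne 20 26 (.seven [20, 12, 11, 17, 16]), .ne 21 24 (.four 21 13 14 15),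
  .ne 22 24 (.four 22 15 14 23), .ne 23 25 (.four 23 14 15 24), .ne 23 26 (.four 23 14 15 16),
  .ne 0 2 (.seven [0, 17, 11, 18, 19]), .ne 0 3 (.seven [0, 17, 11, 12, 20]),
  .ne 0 7 (.seven [0, 17, 16, 15, 24]), .ne 0 21 (.seven [0, 13, 12, 11, 17]),
  .ne 0 23 (.seven [0, 14, 15, 16, 17]), .ne 1 7 (.seven [1, 3, 20, 19, 18]),
  .ne 1 14 (.seven [1, 13, 12, 11, 18]), .ne 1 15 (.seven [1, 16, 17, 11, 18]),
  .ne 1 21 (.seven [1, 13, 12, 11, 18]), .ne 1 24 (.seven [1, 15, 16, 17, 11, 18]),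
  .ne 1 26 (.seven [1, 16, 17, 11, 18]), .ne 2 21 (.seven [2, 13, 12, 20, 19]),
  .ne 2 23 (.seven [2, 14, 15, 24, 25]), .ne 3 9 (.seven [3, 7, 24, 25, 26]),
  .ne 3 22 (.seven [3, 20, 12, 13, 21]), .ne 3 23 (.seven [3, 14, 13, 12, 20]),
  .ne 4 16 (.seven [4, 15, 14, 13, 21]), .ne 4 17 (.seven [4, 11, 12, 13, 21]),
  .ne 4 18 (.seven [4, 11, 12, 13, 21]), .ne 4 19 (.seven [4, 20, 12, 13, 21]),
  .ne 4 24 (.seven [4, 15, 14, 13, 21]), .ne 5 11 (.seven [5, 12, 13, 21, 22]),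
  .ne 5 16 (.seven [5, 15, 14, 23, 22]), .ne 5 20 (.seven [5, 12, 13, 21, 22]),
  .ne 5 24 (.seven [5, 15, 14, 23, 22]), .ne 6 11 (.seven [6, 12, 13, 14, 23]),
  .ne 6 17 (.seven [6, 16, 15, 14, 23]), .ne 6 20 (.seven [6, 12, 13, 14, 23]),
  .ne 6 25 (.seven [6, 23, 14, 15, 24]), .ne 6 26 (.seven [6, 16, 15, 14, 23]),
  .ne 7 21 (.seven [7, 13, 14, 15, 24]), .ne 7 22 (.seven [7, 23, 14, 15, 24]),
  .ne 9 12 (.seven [9, 11, 17, 16, 26]), .ne 9 13 (.seven [9, 14, 15, 16, 26]),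
  .ne 9 18 (.seven [9, 11, 17, 16, 26]), .ne 9 20 (.seven [9, 12, 11, 17, 16, 26]),
  .ne 9 23 (.seven [9, 14, 15, 16, 26]), .ne 17 22 (.seven [17, 11, 12, 13, 21]),
  .ne 18 22 (.seven [18, 11, 12, 13, 21]), .ne 18 23 (.seven [18, 11, 12, 13, 14]),
  .ne 19 22 (.seven [19, 20, 12, 13, 21]), .ne 19 23 (.seven [19, 14, 13, 12, 20]),
  .ne 21 25 (.seven [21, 13, 14, 15, 24]), .ne 21 26 (.seven [21, 13, 14, 15, 16]),
  .ne 22 25 (.seven [22, 23, 14, 15, 24]), .ne 22 26 (.seven [22, 16, 15, 14, 23]),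
  .ne 0 4 (.seven [0, 17, 11, 12, 13, 21]), .ne 0 6 (.seven [0, 17, 16, 15, 14, 23]),
  .ne 0 22 (.seven [0, 17, 11, 12, 13, 21]), .ne 1 4 (.seven [1, 18, 11, 12, 13, 21]),
  .ne 1 9 (.seven [1, 18, 11, 17, 16, 26]), .ne 1 22 (.seven [1, 18, 11, 12, 13, 21]),
  .ne 1 23 (.seven [1, 14, 13, 12, 11, 18]), .ne 2 4 (.seven [2, 19, 20, 12, 13, 21]),
  .ne 2 6 (.seven [2, 23, 14, 15, 24, 25]), .ne 2 22 (.seven [2, 19, 20, 12, 13, 21]),
  .ne 3 5 (.seven [3, 20, 12, 13, 21, 22]), .ne 3 6 (.seven [3, 20, 12, 13, 14, 23]),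
  .ne 4 7 (.seven [4, 21, 13, 14, 15, 24]), .ne 4 25 (.seven [4, 21, 13, 14, 15, 24]),
  .ne 4 26 (.seven [4, 16, 15, 14, 13, 21]), .ne 5 7 (.seven [5, 22, 23, 14, 15, 24]),
  .ne 5 17 (.seven [5, 11, 12, 13, 21, 22]), .ne 5 18 (.seven [5, 11, 12, 13, 21, 22]),
  .ne 5 19 (.seven [5, 20, 12, 13, 21, 22]), .ne 5 25 (.seven [5, 22, 23, 14, 15, 24]),
  .ne 5 26 (.seven [5, 16, 15, 14, 23, 22]), .ne 6 9 (.seven [6, 23, 14, 15, 16, 26]),
  .ne 6 18 (.seven [6, 11, 12, 13, 14, 23]), .ne 6 19 (.seven [6, 20, 12, 13, 14, 23]),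
  .ne 9 21 (.seven [9, 13, 14, 15, 16, 26]), .ne 9 22 (.seven [9, 23, 14, 15, 16, 26]),
  .ne 0 5 (.seven [0, 17, 11, 12, 13, 21, 22]), .ne 1 5 (.seven [1, 18, 11, 12, 13, 21, 22]),
  .ne 1 6 (.seven [1, 18, 11, 12, 13, 14, 23]), .ne 2 5 (.seven [2, 19, 20, 12, 13, 21, 22]),
  .ne 4 9 (.seven [4, 21, 13, 14, 15, 16, 26]), .ne 5 9 (.seven [5, 22, 23, 14, 15, 16, 26]),
  .ne 3 24 (.seven [3, 15, 14, 13, 12, 20]), .ne 7 20 (.seven [7, 12, 13, 14, 15, 24]),
  .ne 19 25 (.seven [19, 18, 11, 17, 16, 26]), .ne 3 4 (.seven [3, 7, 24, 15, 14, 13, 21]),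
  .ne 6 7 (.seven [6, 3, 20, 12, 13, 14, 23])]

theorem fin_X : finT G3 [(10, 17)] [(2, 8)] [] [] [(2, 8)] [(3, 7)] [] [] tG3 [] stepsX = true := by
  decide +kernel

theorem chk_G3 : chk G3.ed (inner G3) tG3 = true := by decide

variable {V : Type} [Fintype V] [DecidableEq V] {G : SimpleGraph V} [DecidableRel G.Adj]

/-- The third neighbour of the end of the dart. -/
def th (R : Rot G) (e : G.Dart) : V := (R.rot (R.next e)).snd

/-- The dart along the stub 2 of G3. -/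
def x8 (R : Rot G) (d : G.Dart) : G.Dart := R.rot ((R.next ^ 3) (ac R d 0))

/-- The dart along the stub 3 of G3. -/
def x9 (R : Rot G) (d : G.Dart) : G.Dart := R.rot ((R.next ^ 4) (ac R d 0))

/-- The dart along the stub 7 of G3. -/
def x13 (R : Rot G) (d : G.Dart) : G.Dart := R.rot ((R.next ^ 2) (ac R d 4))

/-- The labels of G3X. -/
def fG3X (R : Rot G) (d : G.Dart) (n : ℕ) : V :=
  [fG3 R d 0, fG3 R d 1, th R (x8 R d), (R.next (x9 R d)).snd, fG3 R d 4, fG3 R d 5, fG3 R d 6,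
    th R (x13 R d), fG3 R d 9, fG3 R d 11, fG3 R d 12, fG3 R d 13, fG3 R d 14, fG3 R d 15,
    fG3 R d 16, fG3 R d 17, fG3 R d 18, fG3 R d 19, fG3 R d 20, fG3 R d 21, fG3 R d 22,
    fG3 R d 23, fG3 R d 24, fG3 R d 25, fG3 R d 26, fG3 R d 2, fG3 R d 3, fG3 R d 7].getD n
    (X R d 0)

/-- The table of G3X. -/
def tG3X : List (ℕ × ℕ × ℕ × ℕ) :=
  [(9, 10, 15, 16), (10, 11, 9, 18), (11, 12, 10, 19), (12, 13, 11, 21), (13, 14, 12, 22),
    (14, 15, 13, 24), (15, 9, 14, 0), (16, 17, 9, 1), (17, 18, 16, 25), (18, 10, 17, 26),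
    (19, 20, 11, 4), (20, 21, 19, 5), (21, 12, 20, 6), (22, 23, 13, 27), (23, 24, 22, 25),
    (24, 14, 23, 8), (25, 23, 17, 2), (26, 18, 27, 3), (27, 26, 22, 7)]

section

variable {R : Rot G}

/-- The row of the end of a dart. -/
theorem nbR_of_dart (h3 : ∀ v, G.degree v = 3) (e : G.Dart) :
    NbR R e.snd (R.next e).snd e.fst (th R e) := by
  have h1 : R.rot e.symm = R.next e := by rw [next_eq]
  refine ⟨e.symm, rfl, rfl, by rw [h1], by rw [h1]; rfl, ?_⟩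
  exact rot_three R (h3 _)

theorem dart_eq {e e' : G.Dart} (h1 : e.fst = e'.fst) (h2 : e.snd = e'.snd) : e = e' :=
  SimpleGraph.Dart.ext _ _ (Prod.ext h1 h2)

/-- The faces of G3. -/
structure IsG3 (R : Rot G) (d : G.Dart) : Prop where
  h : Good R d 7
  g0 : Good R (ac R d 0) 5
  g2 : Good R (ac R d 2) 5
  g4 : Good R (ac R d 4) 5

variable {d : G.Dart}

theorem IsG3.rot (h : IsG3 R d) : RotOk R (fG3 R d) tG3 := rotG3 h.h h.g0 h.g2 h.g4

theorem IsG3.tab (h : IsG3 R d) : TabOk G (fG3 R d) tG3 := tabG3 h.h h.g0 h.g2 h.g4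

/-- All labels of G3 are far from the faces of length four. -/
theorem IsG3.n4 (h : IsG3 R d) {k : ℕ} (hN : N4 R k d.fst) (hk : 18 ≤ k) :
    ∀ i, i < 27 → N4 R 8 (fG3 R d i) := by
  refine n4_tab (n := 27) (b := 11) (k := 10) (al := [10]) h.tab ?_ (by decide +kernel) ?_
  · intro j hj
    rw [List.mem_singleton] at hj
    subst hj
    rfl
  · exact (show N4 R k (fG3 R d 11) from hN).mono (by omega)

/-- All labels of G3 are different vertices, except 2 and 8. -/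
theorem IsG3.inj (h : IsG3 R d) (hT : ClsT R (N4 R 8)) (hn : ∀ i, i < 27 → N4 R 8 (fG3 R d i))
    (h28 : fG3 R d 2 = fG3 R d 8) (h37 : G.Adj (fG3 R d 3) (fG3 R d 7)) :
    Patch G G3 [(10, 17)] [(2, 8)] [] [] (fG3 R d) := by
  refine patch_ofT hT h.tab h.rot chk_G3 hn (F := []) (by intro e he; simp at he) ?_ ?_
    (by simp) (by simp) fin_X
  · intro e he
    rw [List.mem_singleton] at he
    subst he
    exact h28
  · intro e he
    rw [List.mem_singleton] at he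
    subst he
    exact h37

/-- **The face of length seven.** -/
theorem IsG3.seven (h : IsG3 R d) (hT : ClsT R (N4 R 8)) (hn : ∀ i, i < 27 → N4 R 8 (fG3 R d i))
    (h28 : fG3 R d 2 = fG3 R d 8) (h37 : G.Adj (fG3 R d 3) (fG3 R d 7)) :
    Lt R (fG3 R d 19, fG3 R d 2, fG3 R d 25) ∧ Lt R (fG3 R d 24, fG3 R d 7, fG3 R d 3) ∧
      Lt R (fG3 R d 7, fG3 R d 3, fG3 R d 20) := by
  have hP := h.inj hT hn h28 h37
  have hN := h.tab
  have key : ∀ i j, i < 27 → j < 27 → i ≠ 10 → j ≠ 10 → i ≠ j → ¬ (i = 2 ∧ j = 8) →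
      ¬ (i = 8 ∧ j = 2) → fG3 R d i ≠ fG3 R d j := by
    intro i j hi hj hi' hj' hij h1 h2 hf
    have hr : ∀ k, k < 27 → k ≠ 10 → Real G3 [(10, 17)] [] k := fun k hk hk' =>
      ⟨hk, List.not_mem_nil, fun p hp => by
        rw [List.mem_singleton] at hp
        subst hp
        exact fun h => hk' h.symm⟩
    rcases hP.inj i j (hr i hi hi') (hr j hj hj') hf with h3 | h3 | h3
    · exact hij h3
    · simp only [List.mem_singleton, Prod.mk.injEq] at h3
      exact h1 h3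
    · simp only [List.mem_singleton, Prod.mk.injEq] at h3
      exact h2 ⟨h3.2, h3.1⟩
  have r19 := hN (19, 20, 18, 2) (by decide)
  have r20 := hN (20, 12, 19, 3) (by decide)
  have r24 := hN (24, 25, 15, 7) (by decide)
  have r25 := hN (25, 26, 24, 8) (by decide)
  simp only at r19 r20 r24 r25
  have a8 : G.Adj (fG3 R d 2) (fG3 R d 25) := by rw [h28]; exact r25.hc.symm
  have hNB : NB G [fG3 R d 3, fG3 R d 20, fG3 R d 19, fG3 R d 2, fG3 R d 25, fG3 R d 24,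
      fG3 R d 7] :=
    ⟨r20.hc.symm, key 3 19 (by norm_num) (by norm_num) (by norm_num) (by norm_num) (by norm_num)
      (by norm_num) (by norm_num), r20.hb, key 20 2 (by norm_num) (by norm_num) (by norm_num)
      (by norm_num) (by norm_num) (by norm_num) (by norm_num), r19.hc, key 19 25 (by norm_num)
      (by norm_num) (by norm_num) (by norm_num) (by norm_num) (by norm_num) (by norm_num), a8,
      key 2 24 (by norm_num) (by norm_num) (by norm_num) (by norm_num) (by norm_num)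
      (by norm_num) (by norm_num), r25.hb, key 25 7 (by norm_num) (by norm_num) (by norm_num)
      (by norm_num) (by norm_num) (by norm_num) (by norm_num), r24.hc, key 24 3 (by norm_num)
      (by norm_num) (by norm_num) (by norm_num) (by norm_num) (by norm_num) (by norm_num),
      h37.symm, key 7 20 (by norm_num) (by norm_num) (by norm_num) (by norm_num) (by norm_num)
      (by norm_num) (by norm_num), trivial⟩
  have hl : Lt R (fG3 R d 3, fG3 R d 20, fG3 R d 19) := lfN_ok h.rot 3 20 19 (by decide)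
  rcases hT.seven _ ⟨fG3 R d 3, by simp, hn 3 (by norm_num)⟩ hNB (by simp) (by simp) with h1 | h1
  · exact ⟨h1 _ (by simp [tps, tp3]), h1 _ (by simp [tps, tp3]), h1 _ (by simp [tps, tp3])⟩
  · exfalso
    have h2 := h1 (fG3 R d 3, fG3 R d 20, fG3 R d 19) (by simp [tps, tp3])
    exact (hT.lr (fG3 R d 3, fG3 R d 20, fG3 R d 19) r20.hc.symm r20.hb
      (key 3 19 (by norm_num) (by norm_num) (by norm_num) (by norm_num) (by norm_num)
      (by norm_num) (by norm_num))).1 h2 hl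

/-- **The rows of G3X.** -/
theorem rotG3X (h : IsG3 R d) (hT : ClsT R (N4 R 8)) {k : ℕ} (hN4 : N4 R k d.fst) (hk : 18 ≤ k)
    (h28 : fG3 R d 2 = fG3 R d 8) (h37 : G.Adj (fG3 R d 3) (fG3 R d 7)) :
    RotOk R (fG3X R d) tG3X := by
  obtain ⟨l1, l2, l3⟩ := h.seven hT (h.n4 hN4 hk) h28 h37
  have h3 := hT.cub
  have hN := h.rot
  -- the darts along the stubs
  have s8 : (x8 R d).snd = fG3 R d 2 := rfl
  have s9 : (x9 R d).snd = fG3 R d 3 := rfl
  have s13 : (x13 R d).snd = fG3 R d 7 := rfl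
  have t8 : (x8 R d).fst = fG3 R d 19 := R.fst_rot _
  have t9 : (x9 R d).fst = fG3 R d 20 := by
    have e1 : X R (ac R d 0) 4 = Y R d 1 := h.h.ac_last 0 h.g0 (by norm_num)
    exact (R.fst_rot _).trans e1
  have t13 : (x13 R d).fst = fG3 R d 24 := by
    have e1 : X R (ac R d 4) 2 = Y R d 4 := ac_X2 R d 4
    exact (R.fst_rot _).trans e1
  have w1 : NbR R (fG3 R d 2) (fG3 R d 25) (fG3 R d 19) (th R (x8 R d)) := by
    obtain ⟨e, a1, a2, a3⟩ := l1
    obtain rfl : e = x8 R d := dart_eq (a1.trans t8.symm) (a2.trans s8.symm)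
    have h5 := nbR_of_dart (R := R) h3 (x8 R d)
    simp only at a3
    rwa [s8, a3, t8] at h5
  have w2 : NbR R (fG3 R d 7) (fG3 R d 3) (fG3 R d 24) (th R (x13 R d)) := by
    obtain ⟨e, a1, a2, a3⟩ := l2
    obtain rfl : e = x13 R d := dart_eq (a1.trans t13.symm) (a2.trans s13.symm)
    have h5 := nbR_of_dart (R := R) h3 (x13 R d)
    simp only at a3
    rwa [s13, a3, t13] at h5
  have w3 : NbR R (fG3 R d 3) (fG3 R d 20) (fG3 R d 7) (R.next (x9 R d)).snd := by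
    obtain ⟨e, a1, a2, a3⟩ := l3
    have e1 : R.next e = (x9 R d).symm := by
      refine dart_eq ?_ ?_
      · rw [R.fst_next]
        exact a2.trans s9.symm
      · exact a3.trans t9.symm
    have h5 := nbR_of_dart (R := R) h3 e
    simp only at a1 a2 a3
    rw [a2, a3, a1] at h5
    have e2 : th R e = (R.next (x9 R d)).snd := by
      unfold th
      rw [e1, next_eq R (x9 R d)]
    rwa [e2] at h5
  intro e he
  simp only [tG3X, List.mem_cons, List.not_mem_nil, or_false] at he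
  rcases he with rfl | rfl | rfl | rfl | rfl | rfl | rfl | rfl | rfl | rfl | rfl | rfl | rfl
    | rfl | rfl | rfl | rfl | rfl | rfl
  · exact hN (11, 12, 17, 18) (by decide)
  · exact hN (12, 13, 11, 20) (by decide)
  · exact hN (13, 14, 12, 21) (by decide)
  · exact hN (14, 15, 13, 23) (by decide)
  · exact hN (15, 16, 14, 24) (by decide)
  · exact hN (16, 17, 15, 26) (by decide)
  · exact hN (17, 11, 16, 0) (by decide)
  · exact hN (18, 19, 11, 1) (by decide)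
  · exact hN (19, 20, 18, 2) (by decide)
  · exact hN (20, 12, 19, 3) (by decide)
  · exact hN (21, 22, 13, 4) (by decide)
  · exact hN (22, 23, 21, 5) (by decide)
  · exact hN (23, 14, 22, 6) (by decide)
  · exact hN (24, 25, 15, 7) (by decide)
  · have h1 := hN (25, 26, 24, 8) (by decide)
    simp only at h1
    rw [← h28] at h1
    exact h1
  · exact hN (26, 16, 25, 9) (by decide)
  · exact w1
  · exact w3
  · exact w2

/-- **The table of G3X.** -/
theorem tabG3X (h : IsG3 R d) (hT : ClsT R (N4 R 8)) {k : ℕ} (hN4 : N4 R k d.fst) (hk : 18 ≤ k)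
    (h28 : fG3 R d 2 = fG3 R d 8) (h37 : G.Adj (fG3 R d 3) (fG3 R d 7)) :
    TabOk G (fG3X R d) tG3X := fun e he =>
  nb3_of_nbR (hT.cub _) (rotG3X h hT hN4 hk h28 h37 e he)

end

end Pool.Agent.RotX
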