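import Mathlib
import Pool.Agent.Work.MP_392c8e_co_uni.RotX
import Pool.Agent.Work.MP_392c8e_co_uni.RedX
import Pool.Agent.Work.MP_392c8e_co_uni.NoFive
import Pool.Agent.Work.MP_392c8e_co_uni.LabC

/-!
# The patch G3X

All side conditions of the annular reducer G3X in a cyclically 4-edge-connected cubic plane graph,
far from the faces of length four.
-/

set_option autoImplicit false

namespace Pool.Agent.RotX

open Finset Pool.Agent.Sub392 Pool.T1Side Pool.Agent.T392 Pool.Agent.T1FF Pool.Agent.T1Red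
open Pool.Agent.Disch392 Pool.Agent.U2Geo Pool.Agent.Once392

set_option linter.unusedSectionVars false

/-- The steps. -/
def stepsG3X : List StepT :=
  [.ne 0 10 (.base (.tri 0 9 15)), .ne 0 13 (.base (.tri 0 14 15)),
  .ne 0 16 (.base (.tri 0 9 15)), .ne 0 24 (.base (.tri 0 14 15)), .ne 1 10 (.base (.tri 1 9 16)),
  .ne 1 15 (.base (.tri 1 9 16)), .ne 1 18 (.base (.tri 1 16 17)),
  .ne 1 25 (.base (.tri 1 16 17)), .ne 2 16 (.base (.tri 2 17 25)),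
  .ne 2 18 (.base (.tri 2 17 25)), .ne 2 22 (.base (.tri 2 23 25)),
  .ne 2 24 (.base (.tri 2 23 25)), .ne 3 7 (.base (.tri 3 26 27)),
  .ne 3 10 (.base (.tri 3 18 26)), .ne 3 17 (.base (.tri 3 18 26)),
  .ne 3 22 (.base (.tri 3 26 27)), .ne 4 5 (.base (.tri 4 19 20)),
  .ne 4 10 (.base (.tri 4 11 19)), .ne 4 12 (.base (.tri 4 11 19)),
  .ne 4 21 (.base (.tri 4 19 20)), .ne 5 6 (.base (.tri 5 20 21)),
  .ne 5 11 (.base (.tri 5 19 20)), .ne 5 12 (.base (.tri 5 20 21)),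
  .ne 6 11 (.base (.tri 6 12 21)), .ne 6 13 (.base (.tri 6 12 21)),
  .ne 6 19 (.base (.tri 6 20 21)), .ne 7 13 (.base (.tri 7 22 27)),
  .ne 7 18 (.base (.tri 7 26 27)), .ne 7 23 (.base (.tri 7 22 27)),
  .ne 8 13 (.base (.tri 8 14 24)), .ne 8 15 (.base (.tri 8 14 24)),
  .ne 8 22 (.base (.tri 8 23 24)), .ne 8 25 (.base (.tri 8 23 24)),
  .ne 9 12 (.base (.tri 9 10 11)), .ne 9 13 (.base (.tri 9 14 15)),
  .ne 9 19 (.base (.tri 9 10 11)), .ne 9 24 (.base (.tri 9 14 15)),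
  .ne 9 25 (.base (.tri 9 16 17)), .ne 9 26 (.base (.tri 9 10 18)),
  .ne 10 13 (.base (.tri 10 11 12)), .ne 10 14 (.base (.tri 10 9 15)),
  .ne 10 20 (.base (.tri 10 11 19)), .ne 10 21 (.base (.tri 10 11 12)),
  .ne 10 25 (.base (.tri 10 17 18)), .ne 10 27 (.base (.tri 10 18 26)),
  .ne 11 14 (.base (.tri 11 12 13)), .ne 11 15 (.base (.tri 11 9 10)),
  .ne 11 16 (.base (.tri 11 9 10)), .ne 11 17 (.base (.tri 11 10 18)),
  .ne 11 22 (.base (.tri 11 12 13)), .ne 11 26 (.base (.tri 11 10 18)),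
  .ne 12 15 (.base (.tri 12 13 14)), .ne 12 18 (.base (.tri 12 10 11)),
  .ne 12 23 (.base (.tri 12 13 22)), .ne 12 24 (.base (.tri 12 13 14)),
  .ne 12 27 (.base (.tri 12 13 22)), .ne 13 19 (.base (.tri 13 11 12)),
  .ne 13 20 (.base (.tri 13 12 21)), .ne 13 25 (.base (.tri 13 22 23)),
  .ne 13 26 (.base (.tri 13 22 27)), .ne 14 16 (.base (.tri 14 9 15)),
  .ne 14 21 (.base (.tri 14 12 13)), .ne 14 25 (.base (.tri 14 23 24)),
  .ne 14 27 (.base (.tri 14 13 22)), .ne 15 17 (.base (.tri 15 9 16)),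
  .ne 15 18 (.base (.tri 15 9 10)), .ne 15 22 (.base (.tri 15 13 14)),
  .ne 15 23 (.base (.tri 15 14 24)), .ne 16 23 (.base (.tri 16 17 25)),
  .ne 16 26 (.base (.tri 16 17 18)), .ne 17 22 (.base (.tri 17 23 25)),
  .ne 17 24 (.base (.tri 17 23 25)), .ne 17 27 (.base (.tri 17 18 26)),
  .ne 18 19 (.base (.tri 18 10 11)), .ne 18 22 (.base (.tri 18 26 27)),
  .ne 18 23 (.base (.tri 18 17 25)), .ne 21 22 (.base (.tri 21 12 13)),
  .ne 23 26 (.base (.tri 23 22 27)), .ne 24 27 (.base (.tri 24 22 23)),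
  .ne 25 26 (.base (.tri 25 17 18)), .ne 25 27 (.base (.tri 25 22 23)), .ne 0 1 (.four 0 15 9 16),
  .ne 0 8 (.four 0 15 14 24), .ne 0 11 (.four 0 10 9 15), .ne 0 12 (.four 0 13 14 15),
  .ne 0 17 (.four 0 15 9 16), .ne 0 18 (.four 0 10 9 15), .ne 0 22 (.four 0 13 14 15),
  .ne 0 23 (.four 0 15 14 24), .ne 1 2 (.four 1 16 17 25), .ne 1 11 (.four 1 10 9 16),
  .ne 1 14 (.four 1 15 9 16), .ne 1 23 (.four 1 16 17 25), .ne 1 26 (.four 1 16 17 18),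
  .ne 2 8 (.four 2 24 23 25), .ne 2 9 (.four 2 16 17 25), .ne 2 10 (.four 2 18 17 25),
  .ne 2 13 (.four 2 22 23 25), .ne 2 14 (.four 2 24 23 25), .ne 2 26 (.four 2 18 17 25),
  .ne 2 27 (.four 2 22 23 25), .ne 3 9 (.four 3 10 18 26), .ne 3 11 (.four 3 10 18 26),
  .ne 3 13 (.four 3 22 27 26), .ne 3 16 (.four 3 17 18 26), .ne 3 23 (.four 3 22 27 26),
  .ne 3 25 (.four 3 17 18 26), .ne 4 6 (.four 4 19 20 21), .ne 4 9 (.four 4 10 11 19),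
  .ne 4 13 (.four 4 12 11 19), .ne 4 18 (.four 4 10 11 19), .ne 5 10 (.four 5 11 19 20),
  .ne 5 13 (.four 5 12 21 20), .ne 6 10 (.four 6 11 12 21), .ne 6 14 (.four 6 13 12 21),
  .ne 6 22 (.four 6 13 12 21), .ne 7 10 (.four 7 18 26 27), .ne 7 12 (.four 7 13 22 27),
  .ne 7 14 (.four 7 13 22 27), .ne 7 17 (.four 7 18 26 27), .ne 7 24 (.four 7 23 22 27),
  .ne 7 25 (.four 7 23 22 27), .ne 8 9 (.four 8 15 14 24), .ne 8 12 (.four 8 13 14 24),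
  .ne 8 17 (.four 8 24 23 25), .ne 8 27 (.four 8 22 23 24), .ne 9 20 (.four 9 10 11 19),
  .ne 9 21 (.four 9 10 11 12), .ne 9 22 (.four 9 13 14 15), .ne 9 23 (.four 9 15 14 24),
  .ne 9 27 (.four 9 10 18 26), .ne 10 22 (.four 10 11 12 13), .ne 10 23 (.four 10 18 17 25),
  .ne 10 24 (.four 10 9 15 14), .ne 11 23 (.four 11 12 13 22), .ne 11 24 (.four 11 12 13 14),
  .ne 11 25 (.four 11 10 18 17), .ne 11 27 (.four 11 10 18 26), .ne 12 16 (.four 12 9 10 11),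
  .ne 12 17 (.four 12 11 10 18), .ne 12 25 (.four 12 13 22 23), .ne 12 26 (.four 12 11 10 18),
  .ne 13 16 (.four 13 9 15 14), .ne 13 17 (.four 13 22 23 25), .ne 13 18 (.four 13 10 11 12),
  .ne 14 17 (.four 14 15 9 16), .ne 14 18 (.four 14 10 9 15), .ne 14 19 (.four 14 11 12 13),
  .ne 14 20 (.four 14 13 12 21), .ne 14 26 (.four 14 13 22 27), .ne 15 19 (.four 15 9 10 11),
  .ne 15 21 (.four 15 12 13 14), .ne 15 25 (.four 15 9 16 17), .ne 15 26 (.four 15 9 10 18),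
  .ne 15 27 (.four 15 14 13 22), .ne 16 19 (.four 16 9 10 11), .ne 16 22 (.four 16 17 25 23),
  .ne 16 24 (.four 16 9 15 14), .ne 16 27 (.four 16 17 18 26), .ne 17 19 (.four 17 11 10 18),
  .ne 18 20 (.four 18 10 11 19), .ne 18 21 (.four 18 10 11 12), .ne 18 24 (.four 18 17 25 23),
  .ne 19 22 (.four 19 11 12 13), .ne 19 26 (.four 19 11 10 18), .ne 20 22 (.four 20 13 12 21),
  .ne 21 23 (.four 21 12 13 22), .ne 21 24 (.four 21 12 13 14), .ne 21 27 (.four 21 12 13 22),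
  .ne 24 26 (.four 24 23 22 27), .ne 0 19 (.five 9 15 0 11 10),
  .ne 0 21 (.seven [0, 12, 13, 14, 15]), .ne 0 25 (.five 0 15 9 16 17),
  .ne 0 26 (.five 0 15 9 10 18), .ne 0 27 (.seven [0, 15, 14, 13, 22]),
  .ne 1 3 (.five 1 16 17 18 26), .ne 1 12 (.seven [1, 11, 10, 9, 16]),
  .ne 1 13 (.seven [1, 14, 15, 9, 16]), .ne 1 19 (.seven [1, 11, 10, 9, 16]),
  .ne 1 22 (.five 1 16 17 25 23), .ne 1 24 (.five 1 16 17 25 23), .ne 1 27 (.five 1 16 17 18 26),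
  .ne 2 3 (.seven [2, 25, 17, 18, 26]), .ne 2 7 (.seven [2, 25, 23, 22, 27]),
  .ne 2 11 (.seven [2, 10, 18, 17, 25]), .ne 2 12 (.seven [2, 13, 22, 23, 25]),
  .ne 2 15 (.five 24 23 25 2 14), .ne 3 12 (.five 11 10 18 26 3),
  .ne 3 14 (.seven [3, 13, 22, 27, 26]), .ne 3 15 (.seven [3, 9, 10, 18, 26]),
  .ne 3 19 (.five 11 10 18 26 3), .ne 3 24 (.seven [3, 23, 22, 27, 26]),
  .ne 4 14 (.seven [4, 13, 12, 11, 19]), .ne 4 15 (.seven [4, 9, 10, 11, 19]),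
  .ne 4 16 (.seven [4, 9, 10, 11, 19]), .ne 4 17 (.five 18 10 11 19 4),
  .ne 4 22 (.seven [4, 13, 12, 11, 19]), .ne 4 26 (.five 18 10 11 19 4),
  .ne 5 9 (.seven [5, 10, 11, 19, 20]), .ne 5 14 (.five 13 12 21 20 5),
  .ne 5 18 (.seven [5, 10, 11, 19, 20]), .ne 5 22 (.five 13 12 21 20 5),
  .ne 6 9 (.seven [6, 10, 11, 12, 21]), .ne 6 15 (.five 13 12 21 6 14),
  .ne 6 18 (.seven [6, 10, 11, 12, 21]), .ne 6 23 (.five 21 12 13 22 6),
  .ne 6 24 (.five 13 12 21 6 14), .ne 6 27 (.five 21 12 13 22 6),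
  .ne 7 8 (.seven [7, 24, 23, 22, 27]), .ne 7 9 (.seven [7, 10, 18, 26, 27]),
  .ne 7 11 (.seven [7, 10, 18, 26, 27]), .ne 7 15 (.seven [7, 14, 13, 22, 27]),
  .ne 7 16 (.seven [7, 17, 18, 26, 27]), .ne 7 21 (.seven [7, 12, 11, 10, 18, 26, 27]),
  .ne 8 10 (.five 15 14 24 8 9), .ne 8 11 (.seven [8, 12, 13, 14, 24]),
  .ne 8 16 (.five 15 14 24 8 9), .ne 8 18 (.five 25 23 24 8 17),
  .ne 8 21 (.seven [8, 12, 13, 14, 24]), .ne 8 26 (.seven [8, 24, 23, 22, 27]),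
  .ne 15 20 (.five 13 12 21 15 14), .ne 16 20 (.seven [16, 9, 10, 11, 19]),
  .ne 16 21 (.seven [16, 9, 10, 11, 12]), .ne 17 20 (.five 18 10 11 19 17),
  .ne 17 21 (.five 11 10 18 17 12), .ne 19 23 (.seven [19, 11, 12, 13, 22]),
  .ne 19 24 (.seven [19, 11, 12, 13, 14]), .ne 19 25 (.five 11 10 18 17 19),
  .ne 19 27 (.five 11 10 18 26 19), .ne 20 23 (.five 21 12 13 22 20),
  .ne 20 24 (.five 13 12 21 20 14), .ne 20 26 (.five 18 10 11 19 20),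
  .ne 20 27 (.five 21 12 13 22 20), .ne 21 25 (.five 21 12 13 22 23),
  .ne 21 26 (.five 11 10 18 21 12), .ne 0 2 (.seven [0, 15, 9, 16, 17, 25]),
  .ne 0 3 (.seven [0, 15, 9, 10, 18, 26]), .ne 0 4 (.seven [0, 15, 9, 10, 11, 19]),
  .ne 0 6 (.seven [0, 15, 14, 13, 12, 21]), .ne 0 7 (.seven [0, 15, 14, 13, 22, 27]),
  .ne 0 20 (.seven [0, 15, 9, 10, 11, 19]), .ne 1 4 (.seven [1, 16, 9, 10, 11, 19]),
  .ne 1 7 (.seven [1, 16, 17, 18, 26, 27]), .ne 1 8 (.seven [1, 16, 9, 15, 14, 24]),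
  .ne 1 20 (.seven [1, 16, 9, 10, 11, 19]), .ne 1 21 (.seven [1, 12, 11, 10, 9, 16]),
  .ne 2 19 (.seven [2, 11, 10, 18, 17, 25]), .ne 2 21 (.seven [2, 12, 13, 22, 23, 25]),
  .ne 3 8 (.seven [3, 24, 23, 22, 27, 26]), .ne 3 20 (.seven [3, 19, 11, 10, 18, 26]),
  .ne 3 21 (.seven [3, 12, 11, 10, 18, 26]), .ne 4 23 (.seven [4, 19, 11, 12, 13, 22]),
  .ne 4 24 (.seven [4, 14, 13, 12, 11, 19]), .ne 4 25 (.seven [4, 17, 18, 10, 11, 19]),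
  .ne 4 27 (.seven [4, 19, 11, 10, 18, 26]), .ne 5 15 (.seven [5, 9, 10, 11, 19, 20]),
  .ne 5 16 (.seven [5, 9, 10, 11, 19, 20]), .ne 5 17 (.seven [5, 18, 10, 11, 19, 20]),
  .ne 5 23 (.seven [5, 20, 21, 12, 13, 22]), .ne 5 24 (.seven [5, 14, 13, 12, 21, 20]),
  .ne 5 26 (.seven [5, 18, 10, 11, 19, 20]), .ne 5 27 (.seven [5, 20, 21, 12, 13, 22]),
  .ne 6 8 (.seven [6, 21, 12, 13, 14, 24]), .ne 6 16 (.seven [6, 9, 10, 11, 12, 21]),
  .ne 6 17 (.seven [6, 18, 10, 11, 12, 21]), .ne 6 25 (.seven [6, 21, 12, 13, 22, 23]),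
  .ne 6 26 (.seven [6, 18, 10, 11, 12, 21]), .ne 7 19 (.seven [7, 11, 10, 18, 26, 27]),
  .ne 7 20 (.seven [7, 21, 12, 13, 22, 27]), .ne 8 19 (.seven [8, 11, 12, 13, 14, 24]),
  .ne 8 20 (.seven [8, 21, 12, 13, 14, 24]), .ne 20 25 (.seven [20, 17, 18, 10, 11, 19]),
  .ne 0 5 (.seven [0, 15, 9, 10, 11, 19, 20]), .ne 1 5 (.seven [1, 16, 9, 10, 11, 19, 20]),
  .ne 1 6 (.seven [1, 16, 9, 10, 11, 12, 21]), .ne 2 4 (.seven [2, 19, 11, 10, 18, 17, 25]),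
  .ne 2 6 (.seven [2, 21, 12, 13, 22, 23, 25]), .ne 2 20 (.seven [2, 19, 11, 10, 18, 17, 25]),
  .ne 3 5 (.seven [3, 20, 19, 11, 10, 18, 26]), .ne 3 6 (.seven [3, 21, 12, 11, 10, 18, 26]),
  .ne 4 7 (.seven [4, 19, 11, 10, 18, 26, 27]), .ne 4 8 (.seven [4, 19, 11, 12, 13, 14, 24]),
  .ne 5 7 (.seven [5, 20, 21, 12, 13, 22, 27]), .ne 5 8 (.seven [5, 20, 21, 12, 13, 14, 24]),
  .ne 5 25 (.seven [5, 17, 18, 10, 11, 19, 20]),
  .ne 2 5 (.cross [2, 20, 21, 12, 13, 22, 23, 25] 6 2 [17, 18, 10, 11]),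
  .cn 0 6 (.cross [28, 0, 15, 14, 13, 12, 21, 6] 1 2 [9, 16, 17, 25, 23, 24]),
  .cn 1 3 (.seven [28, 1, 16, 17, 18, 26, 3]), .cn 2 7 (.seven [28, 2, 25, 23, 22, 27, 7]),
  .cn 4 5 (.five 4 19 20 5 28),
  .na 1 5 (.cross [1, 5, 20, 19, 11, 10, 9, 16] 3 4 [12, 13, 22, 27, 26, 18]),
  .na 0 2 (.seven [0, 2, 25, 17, 16, 9, 15])]

/-- The corners of outer faces which have not length five. -/
def FX : List (ℕ × ℕ × ℕ) :=
  [(11, 10, 18), (13, 12, 21), (15, 14, 24), (9, 15, 0), (21, 20, 5), (20, 19, 4), (17, 16, 1),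
    (24, 23, 25)]

theorem finG3X : finT G3X [] [(3, 4), (6, 7)] [(0, 6), (1, 3), (2, 7), (4, 5)] [(1, 5), (0, 2)]
    [] [] [] [] tG3X FX stepsG3X = true := by
  decide +kernel

theorem chkG3X : chk G3X.ed (inner G3X) tG3X = true := by decide +kernel

theorem allR_G3X : allR G3X 10 9 = true := by decide +kernel

/-- The outer faces of G3X which are neighbours of the four faces. -/
def LsX : List (List ℕ) := [[1], [3], [5], [6], [2, 3], [2, 2], [0, 2], [4, 3]]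

theorem cornX : (FX.all fun e => Nat.blt e.1 28 && cornF tG3X (9, 10) LsX e) = true := by
  decide +kernel

section

variable {V : Type} [Fintype V] [DecidableEq V] {G : SimpleGraph V} [DecidableRel G.Adj]
  {R : Rot G} {d : G.Dart}

theorem dt_fG3X : Dt (fG3X R d) (9, 10) d := ⟨rfl, (R.fst_next d).symm⟩

/-- **The patch G3X.** -/
theorem patchG3X (hT : ClsT R (N4 R 8)) {k : ℕ} (hN4 : N4 R k d.fst) (hk : 18 ≤ k)
    (h : IsG3 R d) (h28 : fG3 R d 2 = fG3 R d 8) (h37 : G.Adj (fG3 R d 3) (fG3 R d 7))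
    (hs : ∀ l ∈ LsX, sz R (adL R l d) ≠ 5) :
    Patch G G3X [] [(3, 4), (6, 7)] [(0, 6), (1, 3), (2, 7), (4, 5)] [(1, 5), (0, 2)]
      (fG3X R d) := by
  have hR := rotG3X h hT hN4 hk h28 h37
  have hTab := tabG3X h hT hN4 hk h28 h37
  have hn : ∀ i, i < G3X.t + G3X.m → N4 R 8 (fG3X R d i) :=
    n4_labels hTab chkG3X allR_G3X (v := d.fst) rfl hN4 (by omega)
  exact patch_ofT hT hTab hR chkG3X hn (no5_of hT hR dt_fG3X hn hs cornX) (by simp) (by simp)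
    (by simp) (by simp) finG3X

/-- **The place G3X.** -/
theorem goodG3X (hext : G3X.Ext [(3, 4), (6, 7)]) (hT : ClsT R (N4 R 8)) {k : ℕ}
    (hN4 : N4 R k d.fst) (hk : 18 ≤ k) (h : IsG3 R d) (h28 : fG3 R d 2 = fG3 R d 8)
    (h37 : G.Adj (fG3 R d 3) (fG3 R d 7)) (hs : ∀ l ∈ LsX, sz R (adL R l d) ≠ 5) :
    Uni91.Good (sG3X.pl (fG3X R d)) G :=
  (patchG3X hT hN4 hk h h28 h37 hs).good hext G3X_data back_G3X

end

end Pool.Agent.RotX
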