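import Mathlib
import Pool.Agent.Work.MP_392c8e_co_uni.NoFive
import Pool.Agent.Work.MP_392c8e_co_uni.LinesB
import Pool.Agent.Work.MP_392c8e_co_uni.RingShB
import Pool.Agent.Work.MP_392c8e_co_uni.PatchG1T
import Pool.Agent.Work.MP_392c8e_co_uni.RedG
import Pool.Agent.Work.MP_392c8e_co_uni.TabG
import Pool.Agent.Work.MP_392c8e_co_uni.RotTabs
import Pool.Agent.Work.MP_392c8e_co_uni.GeoG3

/-!
# The patch G3 with the gadget c in cyclically 4-edge-connected graphs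
-/

namespace Pool.Agent.U2Geo

open Finset Pool.Agent.Sub392 Pool.T1Side Pool.Agent.T392 Pool.Agent.T1FF Pool.Agent.T1Red
open Pool.Agent.Once392 (RotOk Dt adL dt_fG1 dt_fG3 dt_fP1)
open Pool.Agent.DischB (Pair7 HypP1)
open Pool.Agent.Disch392 (nb ad)

set_option linter.unusedSectionVars false

/-- The corners of outer faces which have not length five. -/
def FG3T : List (ℕ × ℕ × ℕ) :=
  [(13, 12, 20), (15, 14, 23), (17, 16, 26), (11, 17, 0), (20, 19, 2), (23, 22, 5), (25, 24, 7)]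

/-- Steps. -/
def G3T0_st : List StepT :=
  [.ne 0 12 (.base (.tri 0 11 17)), .ne 0 15 (.base (.tri 0 16 17)),
  .ne 0 18 (.base (.tri 0 11 17)), .ne 0 26 (.base (.tri 0 16 17)),
  .ne 1 2 (.base (.tri 1 18 19)), .ne 1 12 (.base (.tri 1 11 18)),
  .ne 1 17 (.base (.tri 1 11 18)), .ne 1 20 (.base (.tri 1 18 19)),
  .ne 2 3 (.base (.tri 2 19 20)), .ne 2 11 (.base (.tri 2 18 19)),
  .ne 2 12 (.base (.tri 2 19 20)), .ne 3 11 (.base (.tri 3 12 20)),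
  .ne 3 13 (.base (.tri 3 12 20)), .ne 3 18 (.base (.tri 3 19 20)),
  .ne 4 5 (.base (.tri 4 21 22)), .ne 4 12 (.base (.tri 4 13 21)),
  .ne 4 14 (.base (.tri 4 13 21)), .ne 4 23 (.base (.tri 4 21 22)),
  .ne 5 6 (.base (.tri 5 22 23)), .ne 5 13 (.base (.tri 5 21 22)),
  .ne 5 14 (.base (.tri 5 22 23)), .ne 6 13 (.base (.tri 6 14 23)),
  .ne 6 15 (.base (.tri 6 14 23)), .ne 6 21 (.base (.tri 6 22 23)),
  .ne 7 8 (.base (.tri 7 24 25)), .ne 7 14 (.base (.tri 7 15 24)),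
  .ne 7 16 (.base (.tri 7 15 24)), .ne 7 26 (.base (.tri 7 24 25)),
  .ne 8 9 (.base (.tri 8 25 26)), .ne 8 15 (.base (.tri 8 24 25)),
  .ne 8 16 (.base (.tri 8 25 26)), .ne 9 15 (.base (.tri 9 16 26)),
  .ne 9 17 (.base (.tri 9 16 26)), .ne 9 24 (.base (.tri 9 25 26)),
  .ne 11 14 (.base (.tri 11 12 13)), .ne 11 15 (.base (.tri 11 16 17)),
  .ne 11 21 (.base (.tri 11 12 13)), .ne 11 26 (.base (.tri 11 16 17)),
  .ne 12 15 (.base (.tri 12 13 14)), .ne 12 16 (.base (.tri 12 11 17)),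
  .ne 12 22 (.base (.tri 12 13 21)), .ne 12 23 (.base (.tri 12 13 14)),
  .ne 13 16 (.base (.tri 13 14 15)), .ne 13 17 (.base (.tri 13 11 12)),
  .ne 13 18 (.base (.tri 13 11 12)), .ne 13 19 (.base (.tri 13 12 20)),
  .ne 13 24 (.base (.tri 13 14 15)), .ne 14 17 (.base (.tri 14 15 16)),
  .ne 14 20 (.base (.tri 14 12 13)), .ne 14 25 (.base (.tri 14 15 24)),
  .ne 14 26 (.base (.tri 14 15 16)), .ne 15 21 (.base (.tri 15 13 14)),
  .ne 15 22 (.base (.tri 15 14 23)), .ne 16 18 (.base (.tri 16 11 17)),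
  .ne 16 23 (.base (.tri 16 14 15)), .ne 17 19 (.base (.tri 17 11 18)),
  .ne 17 20 (.base (.tri 17 11 12)), .ne 17 24 (.base (.tri 17 15 16)),
  .ne 17 25 (.base (.tri 17 16 26)), .ne 20 21 (.base (.tri 20 12 13)),
  .ne 23 24 (.base (.tri 23 14 15)), .ne 0 1 (.four 0 17 11 18), .ne 0 9 (.four 0 17 16 26),
  .ne 0 13 (.four 0 12 11 17), .ne 0 14 (.four 0 15 16 17), .ne 0 19 (.four 0 17 11 18),
  .ne 0 20 (.four 0 12 11 17), .ne 0 24 (.four 0 15 16 17), .ne 0 25 (.four 0 17 16 26),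
  .ne 1 3 (.four 1 18 19 20), .ne 1 13 (.four 1 12 11 18), .ne 1 16 (.four 1 17 11 18),
  .ne 2 13 (.four 2 12 20 19), .ne 2 17 (.four 2 11 18 19), .ne 3 14 (.four 3 13 12 20),
  .ne 3 17 (.four 3 11 12 20), .ne 3 21 (.four 3 13 12 20), .ne 4 6 (.four 4 21 22 23),
  .ne 4 11 (.four 4 12 13 21), .ne 4 15 (.four 4 14 13 21), .ne 4 20 (.four 4 12 13 21),
  .ne 5 12 (.four 5 13 21 22), .ne 5 15 (.four 5 14 23 22), .ne 6 12 (.four 6 13 14 23),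
  .ne 6 16 (.four 6 15 14 23), .ne 6 24 (.four 6 15 14 23), .ne 7 9 (.four 7 24 25 26),
  .ne 7 13 (.four 7 14 15 24), .ne 7 17 (.four 7 16 15 24), .ne 7 23 (.four 7 14 15 24),
  .ne 8 14 (.four 8 15 24 25), .ne 8 17 (.four 8 16 26 25), .ne 9 11 (.four 9 17 16 26),
  .ne 9 14 (.four 9 15 16 26), .ne 11 22 (.four 11 12 13 21), .ne 11 23 (.four 11 12 13 14),
  .ne 11 24 (.four 11 15 16 17), .ne 11 25 (.four 11 17 16 26), .ne 12 24 (.four 12 13 14 15),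
  .ne 12 26 (.four 12 11 17 16), .ne 13 25 (.four 13 14 15 24), .ne 13 26 (.four 13 14 15 16),
  .ne 14 18 (.four 14 11 12 13), .ne 14 19 (.four 14 13 12 20), .ne 15 18 (.four 15 11 17 16),
  .ne 15 20 (.four 15 12 13 14), .ne 16 19 (.four 16 17 11 18), .ne 16 20 (.four 16 12 11 17),
  .ne 16 21 (.four 16 13 14 15), .ne 16 22 (.four 16 15 14 23), .ne 17 21 (.four 17 11 12 13),
  .ne 17 23 (.four 17 14 15 16), .ne 18 21 (.four 18 11 12 13), .ne 18 26 (.four 18 11 17 16),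
  .ne 19 21 (.four 19 13 12 20), .ne 20 22 (.four 20 12 13 21), .ne 20 23 (.four 20 12 13 14),
  .ne 21 24 (.four 21 13 14 15), .ne 22 24 (.four 22 15 14 23), .ne 23 25 (.four 23 14 15 24),
  .ne 23 26 (.four 23 14 15 16), .ne 0 2 (.five 0 17 11 18 19), .ne 0 3 (.five 0 17 11 12 20),
  .ne 0 7 (.seven [0, 17, 16, 15, 24]), .ne 0 8 (.five 17 16 26 25 0),
  .ne 0 21 (.five 11 17 0 13 12), .ne 0 23 (.seven [0, 14, 15, 16, 17]),
  .ne 1 14 (.seven [1, 13, 12, 11, 18]), .ne 1 15 (.seven [1, 16, 17, 11, 18]),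
  .ne 1 21 (.seven [1, 13, 12, 11, 18]), .ne 1 26 (.seven [1, 16, 17, 11, 18]),
  .ne 2 14 (.five 13 12 20 19 2), .ne 2 16 (.seven [2, 17, 11, 18, 19]),
  .ne 2 21 (.five 13 12 20 19 2), .ne 3 4 (.five 20 12 13 21 3), .ne 3 15 (.five 13 12 20 3 14),
  .ne 3 16 (.seven [3, 17, 11, 12, 20]), .ne 3 22 (.five 20 12 13 21 3),
  .ne 3 23 (.five 13 12 20 3 14), .ne 4 16 (.seven [4, 15, 14, 13, 21]),
  .ne 4 17 (.seven [4, 11, 12, 13, 21]), .ne 4 18 (.seven [4, 11, 12, 13, 21]),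
  .ne 4 19 (.five 20 12 13 21 4), .ne 4 24 (.seven [4, 15, 14, 13, 21]),
  .ne 5 11 (.seven [5, 12, 13, 21, 22]), .ne 5 16 (.five 15 14 23 22 5),
  .ne 5 20 (.seven [5, 12, 13, 21, 22]), .ne 5 24 (.five 15 14 23 22 5),
  .ne 6 7 (.five 23 14 15 24 6), .ne 6 11 (.seven [6, 12, 13, 14, 23]),
  .ne 6 17 (.five 15 14 23 6 16), .ne 6 20 (.seven [6, 12, 13, 14, 23]),
  .ne 6 25 (.five 23 14 15 24 6), .ne 6 26 (.five 15 14 23 6 16),
  .ne 7 11 (.seven [7, 17, 16, 15, 24]), .ne 7 12 (.seven [7, 13, 14, 15, 24]),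
  .ne 7 21 (.seven [7, 13, 14, 15, 24]), .ne 7 22 (.five 23 14 15 24 7),
  .ne 8 11 (.five 17 16 26 25 8), .ne 8 13 (.seven [8, 14, 15, 24, 25]),
  .ne 8 23 (.seven [8, 14, 15, 24, 25]), .ne 9 12 (.five 17 16 26 9 11),
  .ne 9 13 (.seven [9, 14, 15, 16, 26]), .ne 9 18 (.five 17 16 26 9 11),
  .ne 9 23 (.seven [9, 14, 15, 16, 26]), .ne 12 25 (.five 17 16 26 12 11),
  .ne 15 19 (.five 13 12 20 15 14), .ne 17 22 (.five 15 14 23 17 16),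
  .ne 18 22 (.seven [18, 11, 12, 13, 21]), .ne 18 23 (.seven [18, 11, 12, 13, 14]),
  .ne 18 24 (.seven [18, 11, 17, 16, 15]), .ne 18 25 (.five 17 16 26 18 11),
  .ne 19 22 (.five 20 12 13 21 19), .ne 19 23 (.five 13 12 20 19 14),
  .ne 19 26 (.seven [19, 16, 17, 11, 18]), .ne 20 24 (.five 20 12 13 14 15),
  .ne 20 26 (.seven [20, 12, 11, 17, 16]), .ne 21 25 (.seven [21, 13, 14, 15, 24]),
  .ne 21 26 (.seven [21, 13, 14, 15, 16]), .ne 22 25 (.five 23 14 15 24 22),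
  .ne 22 26 (.five 15 14 23 22 16), .ne 0 4 (.seven [0, 17, 11, 12, 13, 21]),
  .ne 0 6 (.seven [0, 17, 16, 15, 14, 23]), .ne 0 22 (.seven [0, 17, 11, 12, 13, 21]),
  .ne 1 4 (.seven [1, 18, 11, 12, 13, 21]), .ne 1 9 (.seven [1, 18, 11, 17, 16, 26]),
  .ne 1 22 (.seven [1, 18, 11, 12, 13, 21]), .ne 1 23 (.seven [1, 14, 13, 12, 11, 18]),
  .ne 1 24 (.seven [1, 15, 16, 17, 11, 18]), .ne 1 25 (.seven [1, 18, 11, 17, 16, 26]),
  .ne 2 4 (.seven [2, 19, 20, 12, 13, 21]), .ne 2 15 (.seven [2, 14, 13, 12, 20, 19]),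
  .ne 2 22 (.seven [2, 19, 20, 12, 13, 21]), .ne 2 23 (.seven [2, 14, 13, 12, 20, 19]),
  .ne 2 26 (.seven [2, 16, 17, 11, 18, 19]), .ne 3 5 (.seven [3, 20, 12, 13, 21, 22]),
  .ne 3 6 (.seven [3, 20, 12, 13, 14, 23]), .ne 3 24 (.seven [3, 15, 14, 13, 12, 20]),
  .ne 3 26 (.seven [3, 16, 17, 11, 12, 20]), .ne 4 7 (.seven [4, 21, 13, 14, 15, 24]),
  .ne 4 25 (.seven [4, 21, 13, 14, 15, 24]), .ne 4 26 (.seven [4, 16, 15, 14, 13, 21]),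
  .ne 5 7 (.seven [5, 22, 23, 14, 15, 24]), .ne 5 17 (.seven [5, 11, 12, 13, 21, 22]),
  .ne 5 18 (.seven [5, 11, 12, 13, 21, 22]), .ne 5 19 (.seven [5, 20, 12, 13, 21, 22]),
  .ne 5 25 (.seven [5, 22, 23, 14, 15, 24]), .ne 5 26 (.seven [5, 16, 15, 14, 23, 22]),
  .ne 6 8 (.seven [6, 23, 14, 15, 24, 25]), .ne 6 9 (.seven [6, 23, 14, 15, 16, 26]),
  .ne 6 18 (.seven [6, 11, 12, 13, 14, 23]), .ne 6 19 (.seven [6, 20, 12, 13, 14, 23]),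
  .ne 7 18 (.seven [7, 11, 17, 16, 15, 24]), .ne 7 20 (.seven [7, 12, 13, 14, 15, 24]),
  .ne 8 12 (.seven [8, 11, 17, 16, 26, 25]), .ne 8 18 (.seven [8, 11, 17, 16, 26, 25]),
  .ne 8 21 (.seven [8, 13, 14, 15, 24, 25]), .ne 8 22 (.seven [8, 23, 14, 15, 24, 25]),
  .ne 9 19 (.seven [9, 18, 11, 17, 16, 26]), .ne 9 20 (.seven [9, 12, 11, 17, 16, 26]),
  .ne 9 21 (.seven [9, 13, 14, 15, 16, 26]), .ne 9 22 (.seven [9, 23, 14, 15, 16, 26]),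
  .ne 19 24 (.seven [19, 15, 14, 13, 12, 20]), .ne 19 25 (.seven [19, 18, 11, 17, 16, 26]),
  .ne 20 25 (.seven [20, 12, 11, 17, 16, 26]), .ne 0 5 (.seven [0, 17, 11, 12, 13, 21, 22]),
  .ne 1 5 (.seven [1, 18, 11, 12, 13, 21, 22]), .ne 1 6 (.seven [1, 18, 11, 12, 13, 14, 23]),
  .ne 1 7 (.seven [1, 18, 11, 17, 16, 15, 24]), .ne 1 8 (.seven [1, 18, 11, 17, 16, 26, 25]),
  .ne 2 5 (.seven [2, 19, 20, 12, 13, 21, 22]), .ne 2 6 (.seven [2, 19, 20, 12, 13, 14, 23]),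
  .ne 2 9 (.seven [2, 19, 18, 11, 17, 16, 26]), .ne 2 24 (.seven [2, 15, 14, 13, 12, 20, 19]),
  .ne 2 25 (.seven [2, 19, 18, 11, 17, 16, 26]), .ne 3 7 (.seven [3, 20, 12, 13, 14, 15, 24]),
  .ne 3 9 (.seven [3, 20, 12, 11, 17, 16, 26]), .ne 3 25 (.seven [3, 20, 12, 11, 17, 16, 26]),
  .ne 4 8 (.seven [4, 21, 13, 14, 15, 24, 25]), .ne 4 9 (.seven [4, 21, 13, 14, 15, 16, 26]),
  .ne 5 8 (.seven [5, 22, 23, 14, 15, 24, 25]), .ne 5 9 (.seven [5, 22, 23, 14, 15, 16, 26]),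
  .ne 7 19 (.seven [7, 18, 11, 17, 16, 15, 24]), .ne 8 19 (.seven [8, 18, 11, 17, 16, 26, 25]),
  .ne 8 20 (.seven [8, 12, 11, 17, 16, 26, 25]), .cn 2 3 (.five 2 19 20 3 27),
  .cn 7 8 (.five 7 24 25 8 27), .cn 4 6 (.seven [27, 4, 21, 22, 23, 6]),
  .na 0 1 (.five 11 17 0 1 18), .na 0 9 (.five 26 16 17 0 9),
  .na 1 9 (.seven [1, 9, 26, 16, 17, 11, 18])]

theorem G3T0_fin : finT G3 [(10, 17)] []
    [(2, 3), (7, 8), (4, 6)] [(0, 1), (0, 9), (1, 9)] [] [] [(2, 7), (2, 8), (3, 8)]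
    [] tG3 FG3T G3T0_st = true := by
  decide +kernel

/-- Steps. -/
def G3T27_st : List StepT :=
  [.ne 0 12 (.base (.tri 0 11 17)), .ne 0 15 (.base (.tri 0 16 17)),
  .ne 0 18 (.base (.tri 0 11 17)), .ne 0 26 (.base (.tri 0 16 17)),
  .ne 1 2 (.base (.tri 1 18 19)), .ne 1 12 (.base (.tri 1 11 18)),
  .ne 1 17 (.base (.tri 1 11 18)), .ne 1 20 (.base (.tri 1 18 19)),
  .ne 2 3 (.base (.tri 2 19 20)), .ne 2 8 (.base (.tri 2 24 25)), .ne 2 11 (.base (.tri 2 18 19)),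
  .ne 2 12 (.base (.tri 2 19 20)), .ne 2 14 (.base (.tri 2 15 24)),
  .ne 2 16 (.base (.tri 2 15 24)), .ne 2 26 (.base (.tri 2 24 25)),
  .ne 3 11 (.base (.tri 3 12 20)), .ne 3 13 (.base (.tri 3 12 20)),
  .ne 3 18 (.base (.tri 3 19 20)), .ne 4 5 (.base (.tri 4 21 22)),
  .ne 4 12 (.base (.tri 4 13 21)), .ne 4 14 (.base (.tri 4 13 21)),
  .ne 4 23 (.base (.tri 4 21 22)), .ne 5 6 (.base (.tri 5 22 23)),
  .ne 5 13 (.base (.tri 5 21 22)), .ne 5 14 (.base (.tri 5 22 23)),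
  .ne 6 13 (.base (.tri 6 14 23)), .ne 6 15 (.base (.tri 6 14 23)),
  .ne 6 21 (.base (.tri 6 22 23)), .ne 8 9 (.base (.tri 8 25 26)),
  .ne 8 15 (.base (.tri 8 24 25)), .ne 8 16 (.base (.tri 8 25 26)),
  .ne 9 15 (.base (.tri 9 16 26)), .ne 9 17 (.base (.tri 9 16 26)),
  .ne 9 24 (.base (.tri 9 25 26)), .ne 11 14 (.base (.tri 11 12 13)),
  .ne 11 15 (.base (.tri 11 16 17)), .ne 11 21 (.base (.tri 11 12 13)),
  .ne 11 26 (.base (.tri 11 16 17)), .ne 12 15 (.base (.tri 12 13 14)),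
  .ne 12 16 (.base (.tri 12 11 17)), .ne 12 22 (.base (.tri 12 13 21)),
  .ne 12 23 (.base (.tri 12 13 14)), .ne 13 16 (.base (.tri 13 14 15)),
  .ne 13 17 (.base (.tri 13 11 12)), .ne 13 18 (.base (.tri 13 11 12)),
  .ne 13 19 (.base (.tri 13 12 20)), .ne 13 24 (.base (.tri 13 14 15)),
  .ne 14 17 (.base (.tri 14 15 16)), .ne 14 20 (.base (.tri 14 12 13)),
  .ne 14 25 (.base (.tri 14 15 24)), .ne 14 26 (.base (.tri 14 15 16)),
  .ne 15 19 (.base (.tri 15 2 24)), .ne 15 21 (.base (.tri 15 13 14)),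
  .ne 15 22 (.base (.tri 15 14 23)), .ne 16 18 (.base (.tri 16 11 17)),
  .ne 16 23 (.base (.tri 16 14 15)), .ne 17 19 (.base (.tri 17 11 18)),
  .ne 17 20 (.base (.tri 17 11 12)), .ne 17 24 (.base (.tri 17 15 16)),
  .ne 17 25 (.base (.tri 17 16 26)), .ne 18 24 (.base (.tri 18 2 19)),
  .ne 19 25 (.base (.tri 19 2 24)), .ne 20 21 (.base (.tri 20 12 13)),
  .ne 20 24 (.base (.tri 20 2 19)), .ne 23 24 (.base (.tri 23 14 15)), .ne 0 1 (.four 0 17 11 18),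
  .ne 0 9 (.four 0 17 16 26), .ne 0 13 (.four 0 12 11 17), .ne 0 14 (.four 0 15 16 17),
  .ne 0 19 (.four 0 17 11 18), .ne 0 20 (.four 0 12 11 17), .ne 0 24 (.four 0 15 16 17),
  .ne 0 25 (.four 0 17 16 26), .ne 1 3 (.four 1 18 19 20), .ne 1 13 (.four 1 12 11 18),
  .ne 1 16 (.four 1 17 11 18), .ne 1 24 (.four 1 2 19 18), .ne 2 9 (.four 2 24 25 26),
  .ne 2 13 (.four 2 12 20 19), .ne 2 17 (.four 2 11 18 19), .ne 2 23 (.four 2 14 15 24),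
  .ne 3 14 (.four 3 13 12 20), .ne 3 17 (.four 3 11 12 20), .ne 3 21 (.four 3 13 12 20),
  .ne 3 24 (.four 3 2 19 20), .ne 4 6 (.four 4 21 22 23), .ne 4 11 (.four 4 12 13 21),
  .ne 4 15 (.four 4 14 13 21), .ne 4 20 (.four 4 12 13 21), .ne 5 12 (.four 5 13 21 22),
  .ne 5 15 (.four 5 14 23 22), .ne 6 12 (.four 6 13 14 23), .ne 6 16 (.four 6 15 14 23),
  .ne 6 24 (.four 6 15 14 23), .ne 8 14 (.four 8 15 24 25), .ne 8 17 (.four 8 16 26 25),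
  .ne 8 19 (.four 8 2 24 25), .ne 9 11 (.four 9 17 16 26), .ne 9 14 (.four 9 15 16 26),
  .ne 11 22 (.four 11 12 13 21), .ne 11 23 (.four 11 12 13 14), .ne 11 24 (.four 11 2 19 18),
  .ne 11 25 (.four 11 17 16 26), .ne 12 24 (.four 12 2 19 20), .ne 12 26 (.four 12 11 17 16),
  .ne 13 25 (.four 13 14 15 24), .ne 13 26 (.four 13 14 15 16), .ne 14 18 (.four 14 11 12 13),
  .ne 14 19 (.four 14 2 24 15), .ne 15 18 (.four 15 11 17 16), .ne 15 20 (.four 15 12 13 14),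
  .ne 16 19 (.four 16 2 24 15), .ne 16 20 (.four 16 12 11 17), .ne 16 21 (.four 16 13 14 15),
  .ne 16 22 (.four 16 15 14 23), .ne 17 21 (.four 17 11 12 13), .ne 17 23 (.four 17 14 15 16),
  .ne 18 21 (.four 18 11 12 13), .ne 18 25 (.five 17 16 26 18 11), .ne 18 26 (.four 18 11 17 16),
  .ne 19 21 (.four 19 13 12 20), .ne 19 26 (.four 19 2 24 25), .ne 20 22 (.four 20 12 13 21),
  .ne 20 23 (.four 20 12 13 14), .ne 20 25 (.seven [20, 12, 11, 17, 16, 26]),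
  .ne 21 24 (.four 21 13 14 15), .ne 22 24 (.four 22 15 14 23), .ne 23 25 (.four 23 14 15 24),
  .ne 23 26 (.four 23 14 15 16), .ne 0 2 (.five 0 17 11 18 19), .ne 0 3 (.five 0 17 11 12 20),
  .ne 0 8 (.five 17 16 26 25 0), .ne 0 21 (.five 11 17 0 13 12),
  .ne 0 23 (.seven [0, 14, 15, 16, 17]), .ne 1 14 (.seven [1, 13, 12, 11, 18]),
  .ne 1 15 (.seven [1, 16, 17, 11, 18]), .ne 1 21 (.seven [1, 13, 12, 11, 18]),
  .ne 1 25 (.seven [1, 18, 11, 17, 16, 26]), .ne 1 26 (.seven [1, 16, 17, 11, 18]),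
  .ne 2 6 (.five 23 14 15 24 2), .ne 2 21 (.five 13 12 20 19 2), .ne 2 22 (.five 23 14 15 24 2),
  .ne 3 4 (.five 20 12 13 21 3), .ne 3 15 (.five 13 12 20 3 14),
  .ne 3 16 (.seven [3, 17, 11, 12, 20]), .ne 3 22 (.five 20 12 13 21 3),
  .ne 3 23 (.five 13 12 20 3 14), .ne 3 25 (.seven [3, 20, 12, 13, 14, 15, 24]),
  .ne 4 16 (.seven [4, 15, 14, 13, 21]), .ne 4 17 (.seven [4, 11, 12, 13, 21]),
  .ne 4 18 (.seven [4, 11, 12, 13, 21]), .ne 4 19 (.five 20 12 13 21 4),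
  .ne 4 24 (.seven [4, 15, 14, 13, 21]), .ne 5 11 (.seven [5, 12, 13, 21, 22]),
  .ne 5 16 (.five 15 14 23 22 5), .ne 5 20 (.seven [5, 12, 13, 21, 22]),
  .ne 5 24 (.five 15 14 23 22 5), .ne 6 11 (.seven [6, 12, 13, 14, 23]),
  .ne 6 17 (.five 15 14 23 6 16), .ne 6 20 (.seven [6, 12, 13, 14, 23]),
  .ne 6 25 (.five 23 14 15 24 6), .ne 6 26 (.five 15 14 23 6 16), .ne 8 11 (.five 17 16 26 25 8),
  .ne 8 13 (.seven [8, 14, 15, 24, 25]), .ne 8 18 (.seven [8, 11, 17, 16, 26, 25]),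
  .ne 8 20 (.eq 8 25 19 3 12 (.full 12 24 13 11 8)), .ne 8 23 (.seven [8, 14, 15, 24, 25]),
  .ne 9 12 (.five 17 16 26 9 11), .ne 9 13 (.seven [9, 14, 15, 16, 26]),
  .ne 9 18 (.five 17 16 26 9 11), .ne 9 19 (.five 7 24 25 26 9),
  .ne 9 23 (.seven [9, 14, 15, 16, 26]), .ne 12 25 (.five 17 16 26 12 11),
  .ne 17 22 (.five 15 14 23 17 16), .ne 18 22 (.seven [18, 11, 12, 13, 21]),
  .ne 18 23 (.seven [18, 11, 12, 13, 14]), .ne 19 22 (.five 20 12 13 21 19),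
  .ne 19 23 (.five 13 12 20 19 14), .ne 20 26 (.seven [20, 12, 11, 17, 16]),
  .ne 21 25 (.seven [21, 13, 14, 15, 24]), .ne 21 26 (.seven [21, 13, 14, 15, 16]),
  .ne 22 25 (.five 23 14 15 24 22), .ne 22 26 (.five 15 14 23 22 16),
  .ne 0 4 (.seven [0, 17, 11, 12, 13, 21]), .ne 0 6 (.seven [0, 17, 16, 15, 14, 23]),
  .ne 0 22 (.seven [0, 17, 11, 12, 13, 21]), .ne 1 4 (.seven [1, 18, 11, 12, 13, 21]),
  .ne 1 8 (.seven [1, 18, 11, 17, 16, 26, 25]), .ne 1 9 (.seven [1, 18, 11, 17, 16, 26]),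
  .ne 1 22 (.seven [1, 18, 11, 12, 13, 21]), .ne 1 23 (.seven [1, 14, 13, 12, 11, 18]),
  .ne 2 4 (.seven [2, 19, 20, 12, 13, 21]), .ne 2 5 (.seven [2, 22, 23, 14, 15, 24]),
  .ne 3 5 (.seven [3, 20, 12, 13, 21, 22]), .ne 3 6 (.seven [3, 20, 12, 13, 14, 23]),
  .ne 3 26 (.seven [3, 16, 17, 11, 12, 20]), .ne 4 25 (.seven [4, 21, 13, 14, 15, 24]),
  .ne 4 26 (.seven [4, 16, 15, 14, 13, 21]), .ne 5 17 (.seven [5, 11, 12, 13, 21, 22]),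
  .ne 5 18 (.seven [5, 11, 12, 13, 21, 22]), .ne 5 19 (.seven [5, 20, 12, 13, 21, 22]),
  .ne 5 25 (.seven [5, 22, 23, 14, 15, 24]), .ne 5 26 (.seven [5, 16, 15, 14, 23, 22]),
  .ne 6 8 (.seven [6, 23, 14, 15, 24, 25]), .ne 6 9 (.seven [6, 23, 14, 15, 16, 26]),
  .ne 6 18 (.seven [6, 11, 12, 13, 14, 23]), .ne 6 19 (.seven [6, 20, 12, 13, 14, 23]),
  .ne 8 12 (.seven [8, 11, 17, 16, 26, 25]), .ne 8 21 (.seven [8, 13, 14, 15, 24, 25]),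
  .ne 8 22 (.seven [8, 23, 14, 15, 24, 25]), .ne 9 20 (.seven [9, 12, 11, 17, 16, 26]),
  .ne 9 21 (.seven [9, 13, 14, 15, 16, 26]), .ne 9 22 (.seven [9, 23, 14, 15, 16, 26]),
  .ne 0 5 (.seven [0, 17, 11, 12, 13, 21, 22]), .ne 1 5 (.seven [1, 18, 11, 12, 13, 21, 22]),
  .ne 1 6 (.seven [1, 18, 11, 12, 13, 14, 23]), .ne 3 9 (.seven [3, 20, 12, 11, 17, 16, 26]),
  .ne 4 8 (.seven [4, 21, 13, 14, 15, 24, 25]), .ne 4 9 (.seven [4, 21, 13, 14, 15, 16, 26]),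
  .ne 5 8 (.seven [5, 22, 23, 14, 15, 24, 25]), .ne 5 9 (.seven [5, 22, 23, 14, 15, 16, 26]),
  .ne 19 24 (.seven [19, 15, 14, 13, 12, 20]), .ne 3 8 (.seven [3, 20, 19, 2, 24, 25]),
  .cn 2 3 (.five 2 19 20 3 27), .cn 7 8 (.five 7 24 25 8 27),
  .cn 4 6 (.seven [27, 4, 21, 22, 23, 6]), .na 3 8 (.seven [3, 8, 25, 24, 2, 19, 20]),
  .na 0 1 (.five 11 17 0 1 18), .na 0 9 (.five 26 16 17 0 9),
  .na 1 9 (.seven [1, 9, 26, 16, 17, 11, 18])]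

theorem G3T27_fin : finT G3 [(10, 17)] [(2, 7)]
    [(2, 3), (7, 8), (4, 6)] [(3, 8), (0, 1), (0, 9), (1, 9)] [(2, 7)] [] []
    [] tG3 FG3T G3T27_st = true := by
  decide +kernel

/-- Steps. -/
def G3T28_st : List StepT :=
  [.ne 0 12 (.base (.tri 0 11 17)), .ne 0 15 (.base (.tri 0 16 17)),
  .ne 0 18 (.base (.tri 0 11 17)), .ne 0 26 (.base (.tri 0 16 17)),
  .ne 1 2 (.base (.tri 1 18 19)), .ne 1 12 (.base (.tri 1 11 18)),
  .ne 1 17 (.base (.tri 1 11 18)), .ne 1 20 (.base (.tri 1 18 19)),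
  .ne 2 3 (.base (.tri 2 19 20)), .ne 2 7 (.base (.tri 2 24 25)), .ne 2 9 (.base (.tri 2 25 26)),
  .ne 2 11 (.base (.tri 2 18 19)), .ne 2 12 (.base (.tri 2 19 20)),
  .ne 2 15 (.base (.tri 2 24 25)), .ne 2 16 (.base (.tri 2 25 26)),
  .ne 3 11 (.base (.tri 3 12 20)), .ne 3 13 (.base (.tri 3 12 20)),
  .ne 3 18 (.base (.tri 3 19 20)), .ne 4 5 (.base (.tri 4 21 22)),
  .ne 4 12 (.base (.tri 4 13 21)), .ne 4 14 (.base (.tri 4 13 21)),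
  .ne 4 23 (.base (.tri 4 21 22)), .ne 5 6 (.base (.tri 5 22 23)),
  .ne 5 13 (.base (.tri 5 21 22)), .ne 5 14 (.base (.tri 5 22 23)),
  .ne 6 13 (.base (.tri 6 14 23)), .ne 6 15 (.base (.tri 6 14 23)),
  .ne 6 21 (.base (.tri 6 22 23)), .ne 7 14 (.base (.tri 7 15 24)),
  .ne 7 16 (.base (.tri 7 15 24)), .ne 7 26 (.base (.tri 7 24 25)),
  .ne 9 15 (.base (.tri 9 16 26)), .ne 9 17 (.base (.tri 9 16 26)),
  .ne 9 24 (.base (.tri 9 25 26)), .ne 11 14 (.base (.tri 11 12 13)),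
  .ne 11 15 (.base (.tri 11 16 17)), .ne 11 21 (.base (.tri 11 12 13)),
  .ne 11 26 (.base (.tri 11 16 17)), .ne 12 15 (.base (.tri 12 13 14)),
  .ne 12 16 (.base (.tri 12 11 17)), .ne 12 22 (.base (.tri 12 13 21)),
  .ne 12 23 (.base (.tri 12 13 14)), .ne 13 16 (.base (.tri 13 14 15)),
  .ne 13 17 (.base (.tri 13 11 12)), .ne 13 18 (.base (.tri 13 11 12)),
  .ne 13 19 (.base (.tri 13 12 20)), .ne 13 24 (.base (.tri 13 14 15)),
  .ne 14 17 (.base (.tri 14 15 16)), .ne 14 20 (.base (.tri 14 12 13)),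
  .ne 14 25 (.base (.tri 14 15 24)), .ne 14 26 (.base (.tri 14 15 16)),
  .ne 15 21 (.base (.tri 15 13 14)), .ne 15 22 (.base (.tri 15 14 23)),
  .ne 16 18 (.base (.tri 16 11 17)), .ne 16 23 (.base (.tri 16 14 15)),
  .ne 17 19 (.base (.tri 17 11 18)), .ne 17 20 (.base (.tri 17 11 12)),
  .ne 17 24 (.base (.tri 17 15 16)), .ne 17 25 (.base (.tri 17 16 26)),
  .ne 18 25 (.base (.tri 18 2 19)), .ne 19 24 (.base (.tri 19 2 25)),
  .ne 19 26 (.base (.tri 19 2 25)), .ne 20 21 (.base (.tri 20 12 13)),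
  .ne 20 25 (.base (.tri 20 2 19)), .ne 23 24 (.base (.tri 23 14 15)), .ne 0 1 (.four 0 17 11 18),
  .ne 0 9 (.four 0 17 16 26), .ne 0 13 (.four 0 12 11 17), .ne 0 14 (.four 0 15 16 17),
  .ne 0 19 (.four 0 17 11 18), .ne 0 20 (.four 0 12 11 17), .ne 0 24 (.four 0 15 16 17),
  .ne 0 25 (.four 0 17 16 26), .ne 1 3 (.four 1 18 19 20), .ne 1 13 (.four 1 12 11 18),
  .ne 1 16 (.four 1 17 11 18), .ne 1 25 (.four 1 2 19 18), .ne 2 13 (.four 2 12 20 19),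
  .ne 2 14 (.four 2 15 24 25), .ne 2 17 (.four 2 11 18 19), .ne 3 14 (.four 3 13 12 20),
  .ne 3 17 (.four 3 11 12 20), .ne 3 21 (.four 3 13 12 20), .ne 3 25 (.four 3 2 19 20),
  .ne 4 6 (.four 4 21 22 23), .ne 4 11 (.four 4 12 13 21), .ne 4 15 (.four 4 14 13 21),
  .ne 4 20 (.four 4 12 13 21), .ne 5 12 (.four 5 13 21 22), .ne 5 15 (.four 5 14 23 22),
  .ne 6 12 (.four 6 13 14 23), .ne 6 16 (.four 6 15 14 23), .ne 6 24 (.four 6 15 14 23),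
  .ne 7 9 (.four 7 24 25 26), .ne 7 13 (.four 7 14 15 24), .ne 7 17 (.four 7 16 15 24),
  .ne 7 19 (.four 7 2 25 24), .ne 7 23 (.four 7 14 15 24), .ne 9 11 (.four 9 17 16 26),
  .ne 9 14 (.four 9 15 16 26), .ne 9 19 (.four 9 2 25 26), .ne 11 22 (.four 11 12 13 21),
  .ne 11 23 (.four 11 12 13 14), .ne 11 24 (.four 11 15 16 17), .ne 11 25 (.four 11 2 19 18),
  .ne 12 24 (.four 12 13 14 15), .ne 12 25 (.four 12 2 19 20), .ne 12 26 (.four 12 11 17 16),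
  .ne 13 25 (.four 13 14 15 24), .ne 13 26 (.four 13 14 15 16), .ne 14 18 (.four 14 11 12 13),
  .ne 14 19 (.four 14 13 12 20), .ne 15 18 (.four 15 11 17 16), .ne 15 19 (.four 15 2 25 24),
  .ne 15 20 (.four 15 12 13 14), .ne 16 19 (.four 16 2 25 26), .ne 16 20 (.four 16 12 11 17),
  .ne 16 21 (.four 16 13 14 15), .ne 16 22 (.four 16 15 14 23), .ne 17 21 (.four 17 11 12 13),
  .ne 17 23 (.four 17 14 15 16), .ne 18 21 (.four 18 11 12 13),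
  .ne 18 24 (.seven [18, 11, 17, 16, 15]), .ne 18 26 (.four 18 11 17 16),
  .ne 19 21 (.four 19 13 12 20), .ne 20 22 (.four 20 12 13 21), .ne 20 23 (.four 20 12 13 14),
  .ne 20 24 (.five 20 12 13 14 15), .ne 20 26 (.seven [20, 12, 11, 17, 16]),
  .ne 21 24 (.four 21 13 14 15), .ne 22 24 (.four 22 15 14 23), .ne 23 25 (.four 23 14 15 24),
  .ne 23 26 (.four 23 14 15 16), .ne 0 2 (.five 0 17 11 18 19), .ne 0 3 (.five 0 17 11 12 20),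
  .ne 0 7 (.seven [0, 17, 16, 15, 24]), .ne 0 21 (.five 11 17 0 13 12),
  .ne 0 23 (.seven [0, 14, 15, 16, 17]), .ne 1 14 (.seven [1, 13, 12, 11, 18]),
  .ne 1 15 (.seven [1, 16, 17, 11, 18]), .ne 1 21 (.seven [1, 13, 12, 11, 18]),
  .ne 1 24 (.seven [1, 15, 16, 17, 11, 18]), .ne 1 26 (.seven [1, 16, 17, 11, 18]),
  .ne 2 21 (.five 13 12 20 19 2), .ne 2 23 (.seven [2, 14, 15, 24, 25]),
  .ne 3 4 (.five 20 12 13 21 3), .ne 3 15 (.five 13 12 20 3 14),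
  .ne 3 16 (.seven [3, 17, 11, 12, 20]), .ne 3 22 (.five 20 12 13 21 3),
  .ne 3 23 (.five 13 12 20 3 14), .ne 3 24 (.base (.nadj 3 7)),
  .ne 3 26 (.seven [3, 16, 17, 11, 12, 20]), .ne 4 16 (.seven [4, 15, 14, 13, 21]),
  .ne 4 17 (.seven [4, 11, 12, 13, 21]), .ne 4 18 (.seven [4, 11, 12, 13, 21]),
  .ne 4 19 (.five 20 12 13 21 4), .ne 4 24 (.seven [4, 15, 14, 13, 21]),
  .ne 5 11 (.seven [5, 12, 13, 21, 22]), .ne 5 16 (.five 15 14 23 22 5),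
  .ne 5 20 (.seven [5, 12, 13, 21, 22]), .ne 5 24 (.five 15 14 23 22 5),
  .ne 6 7 (.five 23 14 15 24 6), .ne 6 11 (.seven [6, 12, 13, 14, 23]),
  .ne 6 17 (.five 15 14 23 6 16), .ne 6 20 (.seven [6, 12, 13, 14, 23]),
  .ne 6 25 (.five 23 14 15 24 6), .ne 6 26 (.five 15 14 23 6 16),
  .ne 7 11 (.seven [7, 17, 16, 15, 24]), .ne 7 12 (.seven [7, 13, 14, 15, 24]),
  .ne 7 18 (.seven [7, 11, 17, 16, 15, 24]), .ne 7 20 (.base (.nadj 3 7)),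
  .ne 7 21 (.seven [7, 13, 14, 15, 24]), .ne 7 22 (.five 23 14 15 24 7),
  .ne 9 12 (.five 17 16 26 9 11), .ne 9 13 (.seven [9, 14, 15, 16, 26]),
  .ne 9 18 (.five 17 16 26 9 11), .ne 9 20 (.seven [9, 12, 11, 17, 16, 26]),
  .ne 9 23 (.seven [9, 14, 15, 16, 26]), .ne 17 22 (.five 15 14 23 17 16),
  .ne 18 22 (.seven [18, 11, 12, 13, 21]), .ne 18 23 (.seven [18, 11, 12, 13, 14]),
  .ne 19 22 (.five 20 12 13 21 19), .ne 19 23 (.five 13 12 20 19 14),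
  .ne 21 25 (.seven [21, 13, 14, 15, 24]), .ne 21 26 (.seven [21, 13, 14, 15, 16]),
  .ne 22 25 (.five 23 14 15 24 22), .ne 22 26 (.five 15 14 23 22 16),
  .ne 0 4 (.seven [0, 17, 11, 12, 13, 21]), .ne 0 6 (.seven [0, 17, 16, 15, 14, 23]),
  .ne 0 22 (.seven [0, 17, 11, 12, 13, 21]), .ne 1 4 (.seven [1, 18, 11, 12, 13, 21]),
  .ne 1 7 (.seven [1, 18, 11, 17, 16, 15, 24]), .ne 1 9 (.seven [1, 18, 11, 17, 16, 26]),
  .ne 1 22 (.seven [1, 18, 11, 12, 13, 21]), .ne 1 23 (.seven [1, 14, 13, 12, 11, 18]),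
  .ne 2 4 (.seven [2, 19, 20, 12, 13, 21]), .ne 2 6 (.seven [2, 23, 14, 15, 24, 25]),
  .ne 2 22 (.seven [2, 19, 20, 12, 13, 21]), .ne 3 5 (.seven [3, 20, 12, 13, 21, 22]),
  .ne 3 6 (.seven [3, 20, 12, 13, 14, 23]), .ne 3 7 (.seven [3, 20, 12, 13, 14, 15, 24]),
  .ne 3 9 (.seven [3, 20, 12, 11, 17, 16, 26]), .ne 4 7 (.seven [4, 21, 13, 14, 15, 24]),
  .ne 4 25 (.seven [4, 21, 13, 14, 15, 24]), .ne 4 26 (.seven [4, 16, 15, 14, 13, 21]),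
  .ne 5 7 (.seven [5, 22, 23, 14, 15, 24]), .ne 5 17 (.seven [5, 11, 12, 13, 21, 22]),
  .ne 5 18 (.seven [5, 11, 12, 13, 21, 22]), .ne 5 19 (.seven [5, 20, 12, 13, 21, 22]),
  .ne 5 25 (.seven [5, 22, 23, 14, 15, 24]), .ne 5 26 (.seven [5, 16, 15, 14, 23, 22]),
  .ne 6 9 (.seven [6, 23, 14, 15, 16, 26]), .ne 6 18 (.seven [6, 11, 12, 13, 14, 23]),
  .ne 6 19 (.seven [6, 20, 12, 13, 14, 23]), .ne 9 21 (.seven [9, 13, 14, 15, 16, 26]),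
  .ne 9 22 (.seven [9, 23, 14, 15, 16, 26]), .ne 0 5 (.seven [0, 17, 11, 12, 13, 21, 22]),
  .ne 1 5 (.seven [1, 18, 11, 12, 13, 21, 22]), .ne 1 6 (.seven [1, 18, 11, 12, 13, 14, 23]),
  .ne 2 5 (.seven [2, 19, 20, 12, 13, 21, 22]), .ne 4 9 (.seven [4, 21, 13, 14, 15, 16, 26]),
  .ne 5 9 (.seven [5, 22, 23, 14, 15, 16, 26]), .ne 19 25 (.seven [19, 18, 11, 17, 16, 26]),
  .cn 2 3 (.five 2 19 20 3 27), .cn 7 8 (.five 25 24 7 27 2),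
  .cn 4 6 (.seven [27, 4, 21, 22, 23, 6]), .na 0 1 (.five 11 17 0 1 18),
  .na 0 9 (.five 26 16 17 0 9), .na 1 9 (.seven [1, 9, 26, 16, 17, 11, 18])]

theorem G3T28_fin : finT G3 [(10, 17)] [(2, 8)]
    [(2, 3), (7, 8), (4, 6)] [(3, 7), (0, 1), (0, 9), (1, 9)] [(2, 8)] [] []
    [(3, 7)] tG3 FG3T G3T28_st = true := by
  decide +kernel

/-- Steps. -/
def G3T38_st : List StepT :=
  [.ne 0 12 (.base (.tri 0 11 17)), .ne 0 15 (.base (.tri 0 16 17)),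
  .ne 0 18 (.base (.tri 0 11 17)), .ne 0 26 (.base (.tri 0 16 17)),
  .ne 1 2 (.base (.tri 1 18 19)), .ne 1 12 (.base (.tri 1 11 18)),
  .ne 1 17 (.base (.tri 1 11 18)), .ne 1 20 (.base (.tri 1 18 19)),
  .ne 2 3 (.base (.tri 2 19 20)), .ne 2 11 (.base (.tri 2 18 19)),
  .ne 2 12 (.base (.tri 2 19 20)), .ne 3 7 (.base (.tri 3 24 25)), .ne 3 9 (.base (.tri 3 25 26)),
  .ne 3 11 (.base (.tri 3 12 20)), .ne 3 13 (.base (.tri 3 12 20)),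
  .ne 3 15 (.base (.tri 3 24 25)), .ne 3 16 (.base (.tri 3 25 26)),
  .ne 3 18 (.base (.tri 3 19 20)), .ne 4 5 (.base (.tri 4 21 22)),
  .ne 4 12 (.base (.tri 4 13 21)), .ne 4 14 (.base (.tri 4 13 21)),
  .ne 4 23 (.base (.tri 4 21 22)), .ne 5 6 (.base (.tri 5 22 23)),
  .ne 5 13 (.base (.tri 5 21 22)), .ne 5 14 (.base (.tri 5 22 23)),
  .ne 6 13 (.base (.tri 6 14 23)), .ne 6 15 (.base (.tri 6 14 23)),
  .ne 6 21 (.base (.tri 6 22 23)), .ne 7 14 (.base (.tri 7 15 24)),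
  .ne 7 16 (.base (.tri 7 15 24)), .ne 7 26 (.base (.tri 7 24 25)),
  .ne 9 15 (.base (.tri 9 16 26)), .ne 9 17 (.base (.tri 9 16 26)),
  .ne 9 24 (.base (.tri 9 25 26)), .ne 11 14 (.base (.tri 11 12 13)),
  .ne 11 15 (.base (.tri 11 16 17)), .ne 11 21 (.base (.tri 11 12 13)),
  .ne 11 26 (.base (.tri 11 16 17)), .ne 12 15 (.base (.tri 12 13 14)),
  .ne 12 16 (.base (.tri 12 11 17)), .ne 12 22 (.base (.tri 12 13 21)),
  .ne 12 23 (.base (.tri 12 13 14)), .ne 12 25 (.base (.tri 12 3 20)),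
  .ne 13 16 (.base (.tri 13 14 15)), .ne 13 17 (.base (.tri 13 11 12)),
  .ne 13 18 (.base (.tri 13 11 12)), .ne 13 19 (.base (.tri 13 12 20)),
  .ne 13 24 (.base (.tri 13 14 15)), .ne 14 17 (.base (.tri 14 15 16)),
  .ne 14 20 (.base (.tri 14 12 13)), .ne 14 25 (.base (.tri 14 15 24)),
  .ne 14 26 (.base (.tri 14 15 16)), .ne 15 21 (.base (.tri 15 13 14)),
  .ne 15 22 (.base (.tri 15 14 23)), .ne 16 18 (.base (.tri 16 11 17)),
  .ne 16 23 (.base (.tri 16 14 15)), .ne 17 19 (.base (.tri 17 11 18)),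
  .ne 17 20 (.base (.tri 17 11 12)), .ne 17 24 (.base (.tri 17 15 16)),
  .ne 17 25 (.base (.tri 17 16 26)), .ne 19 25 (.base (.tri 19 3 20)),
  .ne 20 21 (.base (.tri 20 12 13)), .ne 20 24 (.base (.tri 20 3 25)),
  .ne 20 26 (.base (.tri 20 3 25)), .ne 23 24 (.base (.tri 23 14 15)), .ne 0 1 (.four 0 17 11 18),
  .ne 0 9 (.four 0 17 16 26), .ne 0 13 (.four 0 12 11 17), .ne 0 14 (.four 0 15 16 17),
  .ne 0 19 (.four 0 17 11 18), .ne 0 20 (.four 0 12 11 17), .ne 0 24 (.four 0 15 16 17),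
  .ne 0 25 (.four 0 17 16 26), .ne 1 3 (.four 1 18 19 20), .ne 1 13 (.four 1 12 11 18),
  .ne 1 16 (.four 1 17 11 18), .ne 2 13 (.four 2 12 20 19), .ne 2 17 (.four 2 11 18 19),
  .ne 2 25 (.four 2 3 20 19), .ne 3 14 (.four 3 13 12 20), .ne 3 17 (.four 3 11 12 20),
  .ne 3 21 (.four 3 13 12 20), .ne 4 6 (.four 4 21 22 23), .ne 4 11 (.four 4 12 13 21),
  .ne 4 15 (.four 4 14 13 21), .ne 4 20 (.four 4 12 13 21), .ne 5 12 (.four 5 13 21 22),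
  .ne 5 15 (.four 5 14 23 22), .ne 6 12 (.four 6 13 14 23), .ne 6 16 (.four 6 15 14 23),
  .ne 6 24 (.four 6 15 14 23), .ne 7 9 (.four 7 24 25 26), .ne 7 13 (.four 7 14 15 24),
  .ne 7 17 (.four 7 16 15 24), .ne 7 20 (.four 7 3 25 24), .ne 7 23 (.four 7 14 15 24),
  .ne 9 11 (.four 9 17 16 26), .ne 9 14 (.four 9 15 16 26), .ne 9 20 (.four 9 3 25 26),
  .ne 11 22 (.four 11 12 13 21), .ne 11 23 (.four 11 12 13 14), .ne 11 24 (.four 11 15 16 17),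
  .ne 11 25 (.four 11 3 20 12), .ne 12 24 (.four 12 13 14 15), .ne 12 26 (.four 12 11 17 16),
  .ne 13 25 (.four 13 3 20 12), .ne 13 26 (.four 13 14 15 16), .ne 14 18 (.four 14 11 12 13),
  .ne 14 19 (.four 14 13 12 20), .ne 15 18 (.four 15 11 17 16), .ne 15 20 (.four 15 3 25 24),
  .ne 16 19 (.four 16 17 11 18), .ne 16 20 (.four 16 3 25 26), .ne 16 21 (.four 16 13 14 15),
  .ne 16 22 (.four 16 15 14 23), .ne 17 21 (.four 17 11 12 13), .ne 17 23 (.four 17 14 15 16),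
  .ne 18 21 (.four 18 11 12 13), .ne 18 25 (.four 18 3 20 19), .ne 18 26 (.four 18 11 17 16),
  .ne 19 21 (.four 19 13 12 20), .ne 19 24 (.seven [19, 15, 14, 13, 12, 20]),
  .ne 19 26 (.seven [19, 16, 17, 11, 18]), .ne 20 22 (.four 20 12 13 21),
  .ne 20 23 (.four 20 12 13 14), .ne 21 24 (.four 21 13 14 15), .ne 22 24 (.four 22 15 14 23),
  .ne 23 25 (.four 23 14 15 24), .ne 23 26 (.four 23 14 15 16), .ne 0 2 (.five 0 17 11 18 19),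
  .ne 0 3 (.five 0 17 11 12 20), .ne 0 7 (.seven [0, 17, 16, 15, 24]),
  .ne 0 21 (.five 11 17 0 13 12), .ne 0 23 (.seven [0, 14, 15, 16, 17]),
  .ne 1 14 (.seven [1, 13, 12, 11, 18]), .ne 1 15 (.seven [1, 16, 17, 11, 18]),
  .ne 1 21 (.seven [1, 13, 12, 11, 18]), .ne 1 25 (.seven [1, 3, 20, 19, 18]),
  .ne 1 26 (.seven [1, 16, 17, 11, 18]), .ne 2 14 (.five 13 12 20 19 2),
  .ne 2 16 (.seven [2, 17, 11, 18, 19]), .ne 2 21 (.five 13 12 20 19 2),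
  .ne 2 26 (.seven [2, 16, 17, 11, 18, 19]), .ne 3 4 (.five 20 12 13 21 3),
  .ne 3 22 (.five 20 12 13 21 3), .ne 3 23 (.five 13 12 20 3 14),
  .ne 4 16 (.seven [4, 15, 14, 13, 21]), .ne 4 17 (.seven [4, 11, 12, 13, 21]),
  .ne 4 18 (.seven [4, 11, 12, 13, 21]), .ne 4 19 (.five 20 12 13 21 4),
  .ne 4 24 (.seven [4, 15, 14, 13, 21]), .ne 5 11 (.seven [5, 12, 13, 21, 22]),
  .ne 5 16 (.five 15 14 23 22 5), .ne 5 20 (.seven [5, 12, 13, 21, 22]),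
  .ne 5 24 (.five 15 14 23 22 5), .ne 6 7 (.five 23 14 15 24 6),
  .ne 6 11 (.seven [6, 12, 13, 14, 23]), .ne 6 17 (.five 15 14 23 6 16),
  .ne 6 20 (.seven [6, 12, 13, 14, 23]), .ne 6 25 (.five 23 14 15 24 6),
  .ne 6 26 (.five 15 14 23 6 16), .ne 7 11 (.seven [7, 17, 16, 15, 24]),
  .ne 7 12 (.seven [7, 13, 14, 15, 24]), .ne 7 19 (.seven [7, 20, 12, 13, 14, 15, 24]),
  .ne 7 21 (.seven [7, 13, 14, 15, 24]), .ne 7 22 (.five 23 14 15 24 7),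
  .ne 9 12 (.five 17 16 26 9 11), .ne 9 13 (.seven [9, 14, 15, 16, 26]),
  .ne 9 18 (.five 17 16 26 9 11), .ne 9 19 (.seven [9, 18, 11, 17, 16, 26]),
  .ne 9 23 (.seven [9, 14, 15, 16, 26]), .ne 15 19 (.five 13 12 20 15 14),
  .ne 17 22 (.five 15 14 23 17 16), .ne 18 22 (.seven [18, 11, 12, 13, 21]),
  .ne 18 23 (.seven [18, 11, 12, 13, 14]), .ne 18 24 (.seven [18, 11, 17, 16, 15]),
  .ne 19 22 (.five 20 12 13 21 19), .ne 19 23 (.five 13 12 20 19 14),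
  .ne 21 25 (.five 20 12 13 21 3), .ne 21 26 (.seven [21, 13, 14, 15, 16]),
  .ne 22 25 (.five 23 14 15 24 22), .ne 22 26 (.five 15 14 23 22 16),
  .ne 0 4 (.seven [0, 17, 11, 12, 13, 21]), .ne 0 6 (.seven [0, 17, 16, 15, 14, 23]),
  .ne 0 22 (.seven [0, 17, 11, 12, 13, 21]), .ne 1 4 (.seven [1, 18, 11, 12, 13, 21]),
  .ne 1 9 (.seven [1, 18, 11, 17, 16, 26]), .ne 1 22 (.seven [1, 18, 11, 12, 13, 21]),
  .ne 1 23 (.seven [1, 14, 13, 12, 11, 18]), .ne 1 24 (.seven [1, 15, 16, 17, 11, 18]),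
  .ne 2 4 (.seven [2, 19, 20, 12, 13, 21]), .ne 2 9 (.seven [2, 19, 18, 11, 17, 16, 26]),
  .ne 2 15 (.seven [2, 14, 13, 12, 20, 19]), .ne 2 22 (.seven [2, 19, 20, 12, 13, 21]),
  .ne 2 23 (.seven [2, 14, 13, 12, 20, 19]), .ne 3 5 (.seven [3, 20, 12, 13, 21, 22]),
  .ne 3 6 (.seven [3, 20, 12, 13, 14, 23]), .ne 4 7 (.seven [4, 21, 13, 14, 15, 24]),
  .ne 4 25 (.seven [4, 21, 13, 14, 15, 24]), .ne 4 26 (.seven [4, 16, 15, 14, 13, 21]),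
  .ne 5 7 (.seven [5, 22, 23, 14, 15, 24]), .ne 5 17 (.seven [5, 11, 12, 13, 21, 22]),
  .ne 5 18 (.seven [5, 11, 12, 13, 21, 22]), .ne 5 19 (.seven [5, 20, 12, 13, 21, 22]),
  .ne 5 25 (.seven [5, 22, 23, 14, 15, 24]), .ne 5 26 (.seven [5, 16, 15, 14, 23, 22]),
  .ne 6 9 (.seven [6, 23, 14, 15, 16, 26]), .ne 6 18 (.seven [6, 11, 12, 13, 14, 23]),
  .ne 6 19 (.seven [6, 20, 12, 13, 14, 23]), .ne 7 18 (.seven [7, 11, 17, 16, 15, 24]),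
  .ne 9 21 (.seven [9, 13, 14, 15, 16, 26]), .ne 9 22 (.seven [9, 23, 14, 15, 16, 26]),
  .ne 0 5 (.seven [0, 17, 11, 12, 13, 21, 22]), .ne 1 5 (.seven [1, 18, 11, 12, 13, 21, 22]),
  .ne 1 6 (.seven [1, 18, 11, 12, 13, 14, 23]), .ne 1 7 (.seven [1, 18, 11, 17, 16, 15, 24]),
  .ne 2 5 (.seven [2, 19, 20, 12, 13, 21, 22]), .ne 2 6 (.seven [2, 19, 20, 12, 13, 14, 23]),
  .ne 4 9 (.seven [4, 21, 13, 14, 15, 16, 26]), .ne 5 9 (.seven [5, 22, 23, 14, 15, 16, 26]),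
  .ne 20 25 (.seven [20, 12, 11, 17, 16, 26]), .ne 2 24 (.five 2 19 20 3 25),
  .ne 2 7 (.seven [2, 19, 20, 3, 25, 24]), .cn 2 3 (.five 2 19 20 3 27),
  .cn 7 8 (.five 25 24 7 27 3), .cn 4 6 (.seven [27, 4, 21, 22, 23, 6]),
  .na 2 7 (.seven [2, 7, 24, 25, 3, 20, 19]), .na 0 1 (.five 11 17 0 1 18),
  .na 0 9 (.five 26 16 17 0 9), .na 1 9 (.seven [1, 9, 26, 16, 17, 11, 18])]

theorem G3T38_fin : finT G3 [(10, 17)] [(3, 8)]
    [(2, 3), (7, 8), (4, 6)] [(2, 7), (0, 1), (0, 9), (1, 9)] [(3, 8)] [] []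
    [] tG3 FG3T G3T38_st = true := by
  decide +kernel

theorem chkG3T : chk G3.ed (inner G3) tG3 = true := by decide +kernel

theorem levG3T : levB tG3 6 11 27 [10] = true := by decide +kernel

theorem cornG3T : (FG3T.all fun e => Nat.blt e.1 27 &&
    cornF tG3 (11, 12) [[1], [3], [5], [6], [0, 3], [2, 3], [4, 2]] e) = true := by decide +kernel

section

variable {V : Type} [Fintype V] [DecidableEq V] {G : SimpleGraph V} [DecidableRel G.Adj]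
  {R : Rot G} {d : G.Dart}

/-- The new edges of the reducer do not matter. -/
theorem Patch.chg {A A' : Red} {nl co com bad : List (ℕ × ℕ)} {f : ℕ → V}
    (h : Patch G A nl co com bad f) (ht : A'.t = A.t) (hm : A'.m = A.m) (he : A'.ed = A.ed) :
    Patch G A' nl co com bad f := by
  obtain ⟨a1, a2, a3, a4, a5⟩ := h
  refine ⟨?_, ?_, ?_, ?_, a5⟩
  · intro i j hi hj
    refine a1 i j ?_ ?_
    · unfold T1Red.Real at hi ⊢
      rw [ht, hm] at hi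
      exact hi
    · unfold T1Red.Real at hj ⊢
      rw [ht, hm] at hj
      exact hj
  · rw [he]
    exact a2
  · rw [ht, hm, he]
    exact a3
  · intro p hp w hw
    refine a4 p hp w ?_
    unfold T1Red.Int at hw ⊢
    rw [ht, hm] at hw
    exact hw

/-- The hypotheses of the patch G3 in labels. -/
structure G3Hyp (R : Rot G) (d : G.Dart) : Prop where
  hT : TabOk G (fG3 R d) tG3
  hN : RotOk R (fG3 R d) tG3
  hS : ∀ k, k < 27 → N4 R 8 (fG3 R d k)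
  hF : No5 G FG3T (fG3 R d)

theorem g3Hyp (hG : ClsT R (N4 R 8)) (h4 : N4 R 14 d.fst) (hp : IsG3 R d) : G3Hyp R d := by
  have g : ∀ {e : G.Dart} {L : ℕ}, sz R e = L → Good R e L := fun h => ⟨h, fun _ => hG.cub _⟩
  have hd := g hp.s
  have g0 : Good R (ac R d 0) 5 := g hp.s0
  have g2 : Good R (ac R d 2) 5 := g hp.s2
  have g4 : Good R (ac R d 4) 5 := g hp.s4
  have hT := tabG3 hd g0 g2 g4
  have hN := rotG3 hd g0 g2 g4
  have hS : ∀ k, k < 27 → N4 R 8 (fG3 R d k) :=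
    n4_lab hT (m := 8) (D := 6) (a := 11) h4 (by
      intro k hk
      rw [List.mem_singleton] at hk
      subst hk
      exact h4.mono (by norm_num)) levG3T
  refine ⟨hT, hN, hS, ?_⟩
  refine no5_of hG hN dt_fG3 hS ?_ cornG3T
  intro l hl
  simp only [List.mem_cons, List.not_mem_nil, or_false] at hl
  rcases hl with rfl | rfl | rfl | rfl | rfl | rfl | rfl
  · exact (szAcT R d 1) ▸ hp.n1
  · exact (szAcT R d 3) ▸ hp.n3
  · exact (szAcT R d 5) ▸ hp.n5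
  · exact (szAcT R d 6) ▸ hp.n6
  · have := hp.n03
    rwa [acEqT, acEqT] at this
  · have := hp.n23
    rwa [acEqT, acEqT] at this
  · have := hp.n42
    rwa [acEqT, acEqT] at this

/-- **The patch G3**, gadget c. -/
theorem patchG3T (hG : ClsT R (N4 R 8)) (h4 : N4 R 14 d.fst) (hp : IsG3 R d)
    (hx : ¬ (fG3 R d 2 = fG3 R d 8 ∧ G.Adj (fG3 R d 3) (fG3 R d 7))) {A : Red} (ht : A.t = 11)
    (hm : A.m = 16) (he : A.ed = G3.ed) :
    Patch G A [(10, 17)] [] [(2, 3), (7, 8), (4, 6)] [(0, 1), (0, 9), (1, 9)] (fG3 R d) ∨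
    Patch G A [(10, 17)] [(2, 7)] [(2, 3), (7, 8), (4, 6)] [(3, 8), (0, 1), (0, 9), (1, 9)]
      (fG3 R d) ∨
    Patch G A [(10, 17)] [(2, 8)] [(2, 3), (7, 8), (4, 6)] [(3, 7), (0, 1), (0, 9), (1, 9)]
      (fG3 R d) ∨
    Patch G A [(10, 17)] [(3, 8)] [(2, 3), (7, 8), (4, 6)] [(2, 7), (0, 1), (0, 9), (1, 9)]
      (fG3 R d) := by
  obtain ⟨hT, hN, hS, hF⟩ := g3Hyp hG h4 hp
  by_cases h27 : fG3 R d 2 = fG3 R d 7
  · exact Or.inr (Or.inl ((patch_ofT hG hT hN chkG3T hS hF (by simpa using h27) (by simp)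
      (by simp) (by simp) G3T27_fin).chg ht hm he))
  by_cases h28 : fG3 R d 2 = fG3 R d 8
  · have h37 : ¬ G.Adj (fG3 R d 3) (fG3 R d 7) := fun h => hx ⟨h28, h⟩
    exact Or.inr (Or.inr (Or.inl ((patch_ofT hG hT hN chkG3T hS hF (by simpa using h28) (by simp)
      (by simp) (by simpa using h37) G3T28_fin).chg ht hm he)))
  by_cases h38 : fG3 R d 3 = fG3 R d 8
  · exact Or.inr (Or.inr (Or.inr ((patch_ofT hG hT hN chkG3T hS hF (by simpa using h38) (by simp)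
      (by simp) (by simp) G3T38_fin).chg ht hm he)))
  · refine Or.inl ((patch_ofT hG hT hN chkG3T hS hF (by simp) (by simp) ?_ (by simp)
      G3T0_fin).chg ht hm he)
    intro e he
    simp only [List.mem_cons, List.not_mem_nil, or_false] at he
    rcases he with rfl | rfl | rfl
    · exact h27
    · exact h28
    · exact h38

end

end Pool.Agent.U2Geo
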