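import Pool.Agent.Work.MP_392c8e_co_uni.RedG

/-!
# The reducer G3c

A face of length seven with neighbours of length five across the edges 0, 2, 4; one new vertex,
the terminal 5 is free.
-/

namespace Pool.Agent.T1Red

set_option synthInstance.maxSize 200000

/-- A face of length seven with neighbours of length five across 0, 2, 4; the label 10 is a new
vertex, terminal 5 is free. -/
def G3c : Red where
  t := 11
  m := 16
  ed :=
    [(11, 12), (11, 17), (11, 18), (12, 13), (12, 20), (13, 14), (13, 21), (14, 15), (14, 23),
    (15, 16), (15, 24), (16, 17), (16, 26), (18, 19), (19, 20), (21, 22), (22, 23), (24, 25),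
    (25, 26), (17, 0), (18, 1), (19, 2), (20, 3), (21, 4), (22, 5), (23, 6), (24, 7), (25, 8),
    (26, 9)]
  nw := [(0, 10), (1, 10), (9, 10), (2, 3), (7, 8), (4, 6)]
  ne := [0, 4, 2, 0, 32, 80, 32, 0, 512, 256, 0]

end Pool.Agent.T1Red
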