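import Mathlib
import Pool.Agent.Work.MP_392c8e_co_uni.InstG3
import Pool.Agent.Work.MP_392c8e_co_uni.PatchG3T
import Pool.Agent.Work.MP_392c8e_co_uni.RedG3c
import Pool.Agent.Work.MP_392c8e_co_uni.RingTwoB
import Pool.Agent.Work.MP_392c8e_co_uni.GapData
import Pool.Agent.Work.MP_392c8e_co_uni.GeoC4d
import Pool.Agent.Work.MP_392c8e_co_uni.PlW
import Pool.Agent.Work.MP_392c8e_co_uni.FastGood
import Pool.Agent.Work.MP_392c8e_co_uni.InstG3X

/-!
# The line g3 of stage C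

A face of length seven with neighbours of length five across the edges 0, 2, 4 in a cyclically
4-edge-connected cubic plane graph, far from the faces of length four.  The place is G3c, with at
most one pair of terminals which are one vertex; if the terminals 2 and 8 are one vertex and the
terminals 3 and 7 are adjacent, then the place is G3X.
-/

set_option autoImplicit false

namespace Pool.Agent.U2Geo

open Finset Pool.Agent.Sub392 Pool.T1Side Pool.Agent.T392 Pool.Agent.T1FF Pool.Agent.T1Red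
open Pool.Agent.Disch392 (nb ad Near nb_ad_zero nb_ad_one nb_ad_last ad_per c5)
open Pool.Agent.DischB (Bf Snd)
open Pool.Agent.Once392 (shG3 shOk_G3)
open Pool.Agent.GapData (gG3)
open Pool.Agent.RingTwo (Cut3 placeC goodC gainC_of cut3_of)
open Pool.Agent.Uni91 (GainP)

set_option linter.unusedSectionVars false
set_option synthInstance.maxSize 200000

/-- The paths of G3c. -/
def psG3c : List (ℕ × List ℕ × ℕ) :=
  [(0, [], 17), (17, [11, 18], 1), (17, [16, 26], 9), (2, [19, 20], 3), (7, [24, 25], 8),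
    (4, [21, 22, 23], 6)]

/-- The shape G3c with the pairs `co` of terminals which may be one vertex and the pairs `bad` which
are not adjacent. -/
def sG3c (co bad : List (ℕ × ℕ)) : Shape :=
  ⟨G3c, [(10, 17)], psG3c, co, [(2, 3), (7, 8), (4, 6)], bad⟩

/-- The four cases. -/
def coG3c : List (List (ℕ × ℕ) × List (ℕ × ℕ)) :=
  [([], [(0, 1), (0, 9), (1, 9)]), ([(2, 7)], [(3, 8), (0, 1), (0, 9), (1, 9)]),
    ([(2, 8)], [(3, 7), (0, 1), (0, 9), (1, 9)]), ([(3, 8)], [(2, 7), (0, 1), (0, 9), (1, 9)])]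

theorem dataG3c0 : Data G3c [(10, 17)] psG3c [] [] [(2, 3), (7, 8), (4, 6)]
    [(0, 1), (0, 9), (1, 9)] := by
  constructor <;> decide

theorem dataG3c27 : Data G3c [(10, 17)] psG3c [] [(2, 7)] [(2, 3), (7, 8), (4, 6)]
    [(3, 8), (0, 1), (0, 9), (1, 9)] := by
  constructor <;> decide

theorem dataG3c28 : Data G3c [(10, 17)] psG3c [] [(2, 8)] [(2, 3), (7, 8), (4, 6)]
    [(3, 7), (0, 1), (0, 9), (1, 9)] := by
  constructor <;> decide

theorem dataG3c38 : Data G3c [(10, 17)] psG3c [] [(3, 8)] [(2, 3), (7, 8), (4, 6)]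
    [(2, 7), (0, 1), (0, 9), (1, 9)] := by
  constructor <;> decide

theorem backG3c0 : Back G3c [(10, 17)] psG3c [] := by
  constructor <;> decide

theorem backG3c27 : Back G3c [(10, 17)] psG3c [(2, 7)] := by
  constructor <;> decide

theorem backG3c28 : Back G3c [(10, 17)] psG3c [(2, 8)] := by
  constructor <;> decide

theorem backG3c38 : Back G3c [(10, 17)] psG3c [(3, 8)] := by
  constructor <;> decide

theorem placeG3c : (coG3c.all fun c => placeC G3c [(10, 17)] c.1 tG3 (11, 12) gG3) = true := by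
  decide +kernel

/-- The joined labels. -/
def eG3c : List (ℕ × ℕ) := [(0, 17), (17, 1), (17, 9), (2, 3), (7, 8), (4, 6)]

/-- The possible pairs of gaps in one face. -/
def pG3c : List (Pool.Agent.Once392.Gp × Pool.Agent.Once392.Gp) := FastG.pk gG3 [(1, 5), (1, 7),
  (2, 7), (2, 8), (4, 8), (5, 1), (7, 1), (7, 2), (8, 2), (8, 4)]

theorem pairG3c : FastG.pairB gG3 pG3c = true := by decide +kernel

theorem preG3c : (coG3c.all fun c =>
    FastG.preB G3c [(10, 17)] psG3c c.1 eG3c 134084640 193535) = true := by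
  decide +kernel

theorem fastG3c : FastG.fastC 27 eG3c 134084640 193535 tG3 gG3 pG3c shG3 = true := by
  decide +kernel

theorem goodG3c : (coG3c.all fun c => goodC G3c [(10, 17)] psG3c c.1 tG3 gG3 shG3) = true := by
  rw [List.all_eq_true]
  intro c hc
  exact FastG.goodC_of (List.all_eq_true.1 preG3c c hc) pairG3c fastG3c

theorem okG3c : (coG3c.all fun c => shOK (sG3c c.1 c.2)) = true := by decide +kernel

/-- The extensions of the colourings for the four cases. -/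
def ExtG3c : Prop := ∀ c ∈ coG3c, G3c.Ext c.1

variable {V : Type} [Fintype V] [DecidableEq V] {G : SimpleGraph V} [DecidableRel G.Adj]
  {R : Rot G} {K : ℕ}

/-- The patch G3 from the lengths. -/
theorem isG3C_of (h3 : ∀ v, G.degree v = 3) {d : G.Dart} (hs : sz R d = 7) (h0 : nb R d 0 = 5)
    (h2 : nb R d 2 = 5) (h4 : nb R d 4 = 5) (c0 : c5 R (ad R d 0) = 0)
    (c2 : c5 R (ad R d 2) = 0) (c4 : c5 R (ad R d 4) = 0) : IsG3 R d := by
  have e0 := nb_ne_of_c5 c0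
  have e2 := nb_ne_of_c5 c2
  have e4 := nb_ne_of_c5 c4
  refine ⟨hs, ?_, ?_, ?_, ?_, ?_, ?_, ?_, ?_, ?_, ?_⟩
  · rw [sz_ac]; exact h0
  · rw [sz_ac]; exact h2
  · rw [sz_ac]; exact h4
  · rw [sz_ac, ← nb_ad_last h3 d h0]; exact e0 4 (by norm_num)
  · rw [sz_ac, ← nb_ad_last h3 d h2]; exact e2 4 (by norm_num)
  · rw [sz_ac, ← nb_ad_last h3 d h4]; exact e4 4 (by norm_num)
  · rw [sz_ac, ← nb_ad_one h3 d 6, show 6 + 1 = 0 + 7 from rfl, ad_per R hs]
    exact e0 1 (by norm_num)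
  · rw [sz_ac, ac_eq_ad]; exact e0 3 (by norm_num)
  · rw [sz_ac, ac_eq_ad]; exact e2 3 (by norm_num)
  · rw [sz_ac, ac_eq_ad]; exact e4 2 (by norm_num)

/-- **The place G3c.** -/
theorem good_G3c (hx : ExtG3c) (hG : ClsT R (N4 R 8)) {d : G.Dart} (h4 : N4 R 14 d.fst)
    (h : IsG3 R d) (hn : ¬ (fG3 R d 2 = fG3 R d 8 ∧ G.Adj (fG3 R d 3) (fG3 R d 7))) :
    ∃ c ∈ coG3c, Uni91.Good ((sG3c c.1 c.2).pl (fG3 R d)) G := by
  rcases patchG3T hG h4 h hn (A := G3c) rfl rfl rfl with hP | hP | hP | hP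
  · exact ⟨_, List.mem_cons_self,
      hP.good (hx _ List.mem_cons_self) dataG3c0 backG3c0⟩
  · have hm : (([(2, 7)], [(3, 8), (0, 1), (0, 9), (1, 9)]) : List (ℕ × ℕ) × List (ℕ × ℕ)) ∈
        coG3c := by simp [coG3c]
    exact ⟨_, hm, hP.good (hx _ hm) dataG3c27 backG3c27⟩
  · have hm : (([(2, 8)], [(3, 7), (0, 1), (0, 9), (1, 9)]) : List (ℕ × ℕ) × List (ℕ × ℕ)) ∈
        coG3c := by simp [coG3c]
    exact ⟨_, hm, hP.good (hx _ hm) dataG3c28 backG3c28⟩
  · have hm : (([(3, 8)], [(2, 7), (0, 1), (0, 9), (1, 9)]) : List (ℕ × ℕ) × List (ℕ × ℕ)) ∈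
        coG3c := by simp [coG3c]
    exact ⟨_, hm, hP.good (hx _ hm) dataG3c38 backG3c38⟩

/-- **The place G3c of stage C**, with the cut hypothesis at the place. -/
theorem exG3c (hx : ExtG3c) (hG : ClsT R (N4 R 8)) {d : G.Dart}
    (hC : Cut3 R (Int G3c (fG3 R d))) (hN4 : N4 R 14 d.fst) (h : IsG3 R d)
    (a0 : Bf R K (ad R d 0)) (a2 : Bf R K (ad R d 2)) (a4 : Bf R K (ad R d 4))
    (hn : ¬ (fG3 R d 2 = fG3 R d 8 ∧ G.Adj (fG3 R d 3) (fG3 R d 7))) :
    ∃ c ∈ coG3c, Uni91.Good ((sG3c c.1 c.2).pl (fG3 R d)) G ∧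
      GainP G ((sG3c c.1 c.2).pl (fG3 R d)) (10 * (K + 1)) ∧
      d.fst ∈ ((sG3c c.1 c.2).pl (fG3 R d)).Vert := by
  obtain ⟨c, hc, hg⟩ := good_G3c hx hG hN4 h hn
  have hN : Once392.RotOk R (fG3 R d) tG3 :=
    rotG3 ⟨h.s, fun _ => hG.cub _⟩ ⟨h.s0, fun _ => hG.cub _⟩ ⟨h.s2, fun _ => hG.cub _⟩
      ⟨h.s4, fun _ => hG.cub _⟩
  refine ⟨c, hc, hg, ?_, 11, ?_, rfl⟩
  · exact gainC_of (q := (sG3c c.1 c.2).pl (fG3 R d)) hC hg rfl hN
      (List.all_eq_true.1 placeG3c c hc) (shOk_G3 hN a0 a2 a4)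
      (List.all_eq_true.1 goodG3c c hc)
  · show Real G3c [(10, 17)] [] 11
    exact ⟨by decide, by decide, by decide⟩

/-- **The line g3 of stage C.** -/
theorem lineC_g3_of (hx : ExtG3c) (hx' : G3X.Ext [(3, 4), (6, 7)]) (hR : C4 R) {r : ℕ}
    (hr : 20 ≤ r) (hrK : 10 * (K + 1) ≤ r) (d : G.Dart) (hN4 : N4 R 60 d.fst)
    (hs : sz R d = 7) (a0 : Snd R K (ad R d 0)) (a2 : Snd R K (ad R d 2))
    (a4 : Snd R K (ad R d 4)) (c0 : c5 R (ad R d 0) = 0) (c2 : c5 R (ad R d 2) = 0)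
    (c4 : c5 R (ad R d 4) = 0) : PP R r d.fst := by
  by_cases hn : fG3 R d 2 = fG3 R d 8 ∧ G.Adj (fG3 R d 3) (fG3 R d 7)
  · exact RotX.lineC_g3X hx' hR hr hrK d hN4 hs a0 a2 a4 c0 c2 c4 hn.1 hn.2
  · obtain ⟨c, hc, h1, h2, h3⟩ := exG3c hx hR.clsT (cut3_of hR) (hN4.mono (by norm_num))
      (isG3C_of hR.cub hs a0.1.1 a2.1.1 a4.1.1 c0 c2 c4) a0.1 a2.1 a4.1 hn
    exact ppW (List.all_eq_true.1 okG3c c hc) hr hrK ⟨_, h1, h2, h3⟩

end Pool.Agent.U2Geo
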