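import Mathlib
import Pool.Agent.Work.MP_392c8e_co_uni.RingC
import Pool.Agent.Work.MP_392c8e_co_uni.LineM2
import Pool.Agent.Work.MP_392c8e_co_uni.GapData
import Pool.Agent.Work.MP_392c8e_co_uni.RotTabs
import Pool.Agent.Work.MP_392c8e_co_uni.RingSz
import Pool.Agent.Work.MP_392c8e_co_uni.PlW

/-!
# The lines for three faces of length five in a row, with long faces

The three lines `m2`, `m3`, `m6` of the table for chains: a good place with a gain.
-/

namespace Pool.Agent.InstM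

open Finset Pool.Agent.Sub392 Pool.T1Side Pool.Agent.T392 Pool.Agent.T1FF Pool.Agent.T1Red
open Pool.Agent.Disch392 Pool.Agent.U2Geo Pool.Agent.Once392 Pool.Agent.RingB
  Pool.Agent.Ring392 Pool.Agent.GapData
open Pool.Agent.Uni91 (GainP)

set_option linter.unusedSectionVars false

/-- The first shape of the first gadget. -/
def cM2a : Shape := ⟨C3, [], psM2, [], [(0, 3), (1, 2), (4, 6)], []⟩

/-- The second shape of the first gadget. -/
def cM2b : Shape := ⟨C3, [], psM2, [(0, 6)], [(0, 3), (1, 2), (4, 6)], [(3, 4)]⟩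

/-- The shape of the second gadget. -/
def cM3 : Shape := ⟨C3M3, [], psM3, [(0, 6)], [(0, 3), (1, 2), (4, 5)], []⟩

/-- The shape of the third gadget. -/
def cM6 : Shape := ⟨C3M6, [], psM6, [(0, 6)], [(0, 3), (1, 2), (5, 6)], [(3, 5)]⟩

theorem ok_M2a : shOK cM2a = true := by decide +kernel

theorem ok_M2b : shOK cM2b = true := by decide +kernel

theorem ok_M3 : shOK cM3 = true := by decide +kernel

theorem ok_M6 : shOK cM6 = true := by decide +kernel

theorem lab_M2 : labB C3 [] tC' = true := by decide +kernel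

theorem lab_M3 : labB C3M3 [] tC' = true := by decide +kernel

theorem lab_M6 : labB C3M6 [] tC' = true := by decide +kernel

/-- The short faces of the first gadget: one of `L`, `O1`, one of `O3`, `Rr`, one of `O2`, `F`. -/
def bsM2 : List (List (ℕ × ℕ)) := [[(7, 11), (12, 16)], [(17, 14), (14, 10)], [(16, 13), (9, 8)]]

/-- The short faces of the second gadget: `F`, `O2`, `O1`. -/
def bsM3 : List (List (ℕ × ℕ)) := [[(9, 8)], [(16, 13)], [(12, 16)]]

/-- The short faces of the third gadget: `F`, `O2`, `O1`, `O3`. -/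
def bsM6 : List (List (ℕ × ℕ)) := [[(9, 8)], [(16, 13)], [(12, 16)], [(17, 14)]]

theorem good_M2a' : ((chs bsM2).all fun sh => goodB C3 [] psM2 [] (gsOf tC' gCp sh)) = true := by
  decide +kernel

theorem good_M2b' : ((chs bsM2).all fun sh => goodB C3 [] psM2 [(0, 6)] (gsOf tC' gCp sh)) =
    true := by
  decide +kernel

theorem good_M3' : ((chs bsM3).all fun sh => goodB C3M3 [] psM3 [(0, 6)] (gsOf tC' gCp sh)) =
    true := by
  decide +kernel

theorem good_M6' : ((chs bsM6).all fun sh => goodB C3M6 [] psM6 [(0, 6)] (gsOf tC' gCp sh)) =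
    true := by
  decide +kernel

variable {V : Type} [Fintype V] [DecidableEq V] {G : SimpleGraph V} [DecidableRel G.Adj]
  {R : Rot G} {K : ℕ}

section

variable {d : G.Dart}

theorem chain_rot (hR : C5 R) (h : Chain R d) : RotOk R (fM2 R d) tC' :=
  rotB' (hR.good (chain_data h).1) (hR.good (chain_data h).2.1) (hR.good (chain_data h).2.2)

theorem dtX (R : Rot G) (d : G.Dart) (n : ℕ) {f : ℕ → V} {q : ℕ × ℕ} (h1 : f q.1 = X R d n)
    (h2 : f q.2 = X R d (n + 1)) : Dt f q ((R.next ^ n) d) :=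
  ⟨h1.symm, by rw [h2]; exact snd_pow R d n⟩

/-- The dart of the middle face, in labels. -/
theorem chain_dt (h : Chain R d) : Dt (fM2 R d) (8, 9) d := by
  have h2 : R.next (R.next^[4] d) = d := by
    rw [← Function.iterate_succ_apply' R.next 4 d]
    have := next_sz R d
    rw [h.p2] at this
    exact this
  have h3 : Dt (fM2 R d) (8, 9) ((R.next ^ 1) (R.next^[4] d)) :=
    dtX R (R.next^[4] d) 1 rfl rfl
  rw [pow_one, h2] at h3
  exact h3

/-- The corner of the face across `17 14`. -/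
theorem chain_nO3 (hR : C5 R) (h : Chain R d) (hO : nb R (ad R d 1) 3 ≠ 5) (x y : V) :
    ¬ NB G [fM2 R d 4, fM2 R d 17, fM2 R d 14, x, y] := fun h1 => by
  have h2 : sz R (ac R (ac R (R.next^[4] d) 2) 3) ≠ 5 := by
    rw [sz_ac, ac_iter, show 4 + 2 = 1 + 5 from rfl, ad_per R h.p2]; exact hO
  exact hR.no5b (ac R (R.next^[4] d) 2) 3 h2 x y h1

/-- The corner of the face across `14 10`. -/
theorem chain_nR (hR : C5 R) (h : Chain R d) (hO : nb R (ad R d 1) 2 ≠ 5) (x y : V) :
    ¬ NB G [fM2 R d 5, fM2 R d 14, fM2 R d 10, x, y] := fun h1 => by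
  have h2 : sz R (ac R (ac R (R.next^[4] d) 2) 2) ≠ 5 := by
    rw [sz_ac, ac_iter, show 4 + 2 = 1 + 5 from rfl, ad_per R h.p2]; exact hO
  exact hR.no5b (ac R (R.next^[4] d) 2) 2 h2 x y h1

/-- The outer faces of the chain. -/
theorem chain_short (hR : C5 R) (h : Chain R d) {l : List ℕ} {c : ℕ × ℕ}
    (hl : adLN tC' l (8, 9) = some c) (hK : sz R (adL R l d) ≤ K) :
    ∃ e : G.Dart, Dt (fM2 R d) c e ∧ sz R e ≤ K :=
  ⟨_, adLN_ok (chain_rot hR h) hl (chain_dt h), hK⟩

theorem mem_M {s : Shape} (h : Chain R d) (h1 : s.nl = []) (h2 : 8 < s.R.t + s.R.m) :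
    d.fst ∈ (s.pl (fM2 R d)).Vert := by
  refine ⟨8, ⟨h2, List.not_mem_nil, fun p hp => ?_⟩, fM2_mem h⟩
  have hp' : p ∈ s.nl := hp
  rw [h1] at hp'
  exact absurd hp' List.not_mem_nil

end

/-- **The first line for three faces of length five in a row.** -/
theorem lineB_m2 (hR : C5 R) (h13 : 13 ≤ Fintype.card V) {r : ℕ} (hr : 20 ≤ r)
    (hrK : 10 * (K + 1) ≤ r) (d : G.Dart) (h : Chain R d) (hO : nb R (ad R d 4) 2 ≠ 5)
    (hF : ¬ (nb R d 0 = 5 ∧ nb R d 2 = 5))
    (k1 : ¬ (K ≤ nb R (ad R d 4) 3 ∧ K ≤ nb R d 3))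
    (k2 : ¬ (K ≤ nb R (ad R d 1) 3 ∧ K ≤ nb R (ad R d 1) 2))
    (k3 : ¬ (K ≤ nb R d 2 ∧ K ≤ nb R d 0)) : PP R r d.fst := by
  have hbs : ∀ B ∈ bsM2, ∃ c ∈ B, ∃ e : G.Dart, Dt (fM2 R d) c e ∧ sz R e ≤ K := by
    intro B hB
    simp only [bsM2, List.mem_cons, List.not_mem_nil, or_false] at hB
    rcases hB with rfl | rfl | rfl
    · rcases not_and_or.1 k1 with k | k
      · exact ⟨(7, 11), by simp, chain_short hR h (l := [4, 3]) (by decide) (le_of_not_ge k)⟩
      · exact ⟨(12, 16), by simp, chain_short hR h (l := [3]) (by decide) (le_of_not_ge k)⟩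
    · rcases not_and_or.1 k2 with k | k
      · exact ⟨(17, 14), by simp, chain_short hR h (l := [1, 3]) (by decide) (le_of_not_ge k)⟩
      · exact ⟨(14, 10), by simp, chain_short hR h (l := [1, 2]) (by decide) (le_of_not_ge k)⟩
    · rcases not_and_or.1 k3 with k | k
      · exact ⟨(16, 13), by simp, chain_short hR h (l := [2]) (by decide) (le_of_not_ge k)⟩
      · exact ⟨(9, 8), by simp, chain_short hR h (l := [0]) (by decide) (le_of_not_ge k)⟩
  rcases line_M2 hR h13 h hO hF with hg | hg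
  · exact ⟨cM2a.pl (fM2 R d), plW ok_M2a hg hr (gain_of hR hg rfl (chain_rot hR h) lab_M2 gps_Cp
      (cond_sp sp_Cp) bsM2 hbs good_M2a') hrK, mem_M h rfl (by decide)⟩
  · exact ⟨cM2b.pl (fM2 R d), plW ok_M2b hg hr (gain_of hR hg rfl (chain_rot hR h) lab_M2 gps_Cp
      (cond_sp sp_Cp) bsM2 hbs good_M2b') hrK, mem_M h rfl (by decide)⟩

/-- **The second line for three faces of length five in a row.** -/
theorem lineB_m3 (hR : C5 R) (h13 : 13 ≤ Fintype.card V) {r : ℕ} (hr : 20 ≤ r)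
    (hrK : 10 * (K + 1) ≤ r) (d : G.Dart) (h : Chain R d) (hO : nb R (ad R d 4) 2 ≠ 5)
    (hO3 : nb R (ad R d 1) 3 ≠ 5) (k0 : nb R d 0 < K) (k2 : nb R d 2 < K)
    (k3 : nb R d 3 < K) : PP R r d.fst := by
  have hg : Uni91.Good (cM3.pl (fM2 R d)) G := by
    refine good_of ext_M3 data_M3 ps_M3 (patch_of (hR.cls h13) (chain_tab hR h)
      (by decide) (F := [(1, 11, 15), (4, 17, 14)]) ?_ C3M3_fin)
    intro e he x y
    simp only [List.mem_cons, List.not_mem_nil, or_false] at he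
    rcases he with rfl | rfl
    · exact chain_nO0 hR h hO x y
    · exact chain_nO3 hR h hO3 x y
  have hbs : ∀ B ∈ bsM3, ∃ c ∈ B, ∃ e : G.Dart, Dt (fM2 R d) c e ∧ sz R e ≤ K := by
    intro B hB
    simp only [bsM3, List.mem_cons, List.not_mem_nil, or_false] at hB
    rcases hB with rfl | rfl | rfl
    · exact ⟨(9, 8), by simp, chain_short hR h (l := [0]) (by decide) (le_of_lt k0)⟩
    · exact ⟨(16, 13), by simp, chain_short hR h (l := [2]) (by decide) (le_of_lt k2)⟩
    · exact ⟨(12, 16), by simp, chain_short hR h (l := [3]) (by decide) (le_of_lt k3)⟩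
  exact ⟨cM3.pl (fM2 R d), plW ok_M3 hg hr (gain_of hR hg rfl (chain_rot hR h) lab_M3 gps_Cp
    (cond_sp sp_Cp) bsM3 hbs good_M3') hrK, mem_M h rfl (by decide)⟩

/-- **The third line for three faces of length five in a row.** -/
theorem lineB_m6 (hR : C5 R) (h13 : 13 ≤ Fintype.card V) {r : ℕ} (hr : 20 ≤ r)
    (hrK : 10 * (K + 1) ≤ r) (d : G.Dart) (h : Chain R d) (hO : nb R (ad R d 4) 2 ≠ 5)
    (hRr : nb R (ad R d 1) 2 ≠ 5) (k0 : nb R d 0 < K) (k2 : nb R d 2 < K)
    (k3 : nb R d 3 < K) (k4 : nb R (ad R d 1) 3 < K) : PP R r d.fst := by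
  have hg : Uni91.Good (cM6.pl (fM2 R d)) G := by
    refine good_of ext_M6 data_M6 ps_M6 (patch_of (hR.cls h13) (chain_tab hR h)
      (by decide) (F := [(1, 11, 15), (5, 14, 10)]) ?_ C3M6_fin)
    intro e he x y
    simp only [List.mem_cons, List.not_mem_nil, or_false] at he
    rcases he with rfl | rfl
    · exact chain_nO0 hR h hO x y
    · exact chain_nR hR h hRr x y
  have hbs : ∀ B ∈ bsM6, ∃ c ∈ B, ∃ e : G.Dart, Dt (fM2 R d) c e ∧ sz R e ≤ K := by
    intro B hB
    simp only [bsM6, List.mem_cons, List.not_mem_nil, or_false] at hB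
    rcases hB with rfl | rfl | rfl | rfl
    · exact ⟨(9, 8), by simp, chain_short hR h (l := [0]) (by decide) (le_of_lt k0)⟩
    · exact ⟨(16, 13), by simp, chain_short hR h (l := [2]) (by decide) (le_of_lt k2)⟩
    · exact ⟨(12, 16), by simp, chain_short hR h (l := [3]) (by decide) (le_of_lt k3)⟩
    · exact ⟨(17, 14), by simp, chain_short hR h (l := [1, 3]) (by decide) (le_of_lt k4)⟩
  exact ⟨cM6.pl (fM2 R d), plW ok_M6 hg hr (gain_of hR hg rfl (chain_rot hR h) lab_M6 gps_Cp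
    (cond_sp sp_Cp) bsM6 hbs good_M6') hrK, mem_M h rfl (by decide)⟩

end Pool.Agent.InstM
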