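import Mathlib
import Pool.Agent.Work.MP_392c8e_co_uni.InstM
import Pool.Agent.Work.MP_392c8e_co_uni.LabC

/-!
# Stage C: the patches for three faces of length five in a row

The places of the lines `m2`, `m3`, `m6` in cyclically 4-edge-connected cubic plane graphs, far from
the faces of length four.
-/

set_option autoImplicit false

namespace Pool.Agent.InstM

open Finset Pool.Agent.Sub392 Pool.T1Side Pool.Agent.T392 Pool.Agent.T1FF Pool.Agent.T1Red
open Pool.Agent.Disch392 Pool.Agent.U2Geo Pool.Agent.Once392 Pool.Agent.RingB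
  Pool.Agent.Ring392 Pool.Agent.GapData
open Pool.Agent.Uni91 (GainP)

set_option linter.unusedSectionVars false

/-! ### The certificates -/

theorem fin_M2a : finT C3 [] [] [(0, 3), (1, 2), (4, 6)] [] [] [] [] [] tC'
    [(7, 8, 9), (1, 11, 15)] (stepsT 18 C3a_steps) = true := by
  decide +kernel

theorem fin_M2b : finT C3 [] [(0, 6)] [(0, 3), (1, 2), (4, 6)] [(3, 4)] [] [] [] [] tC'
    [(16, 13, 17), (1, 11, 15)] (stepsT 18 C3b_steps) = true := by
  decide +kernel

theorem fin_M3 : finT C3M3 [] [(0, 6)] [(0, 3), (1, 2), (4, 5)] [] [] [] [] [] tC'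
    [(1, 11, 15), (4, 17, 14)] (stepsT 18 C3M3_steps) = true := by
  decide +kernel

theorem fin_M6 : finT C3M6 [] [(0, 6)] [(0, 3), (1, 2), (5, 6)] [(3, 5)] [] [] [] [] tC'
    [(1, 11, 15), (5, 14, 10)] (stepsT 18 C3M6_steps) = true := by
  decide +kernel

theorem chk_C3 : chk C3.ed (inner C3) tC' = true := by decide

theorem chk_C3M3 : chk C3M3.ed (inner C3M3) tC' = true := by decide

theorem chk_C3M6 : chk C3M6.ed (inner C3M6) tC' = true := by decide

theorem allR_C3 : allR C3 10 8 = true := by decide +kernel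

variable {V : Type} [Fintype V] [DecidableEq V] {G : SimpleGraph V} [DecidableRel G.Adj]
  {R : Rot G} {K : ℕ}

section

variable {d : G.Dart}

theorem chainC_tab (h3 : ∀ v, G.degree v = 3) (h : Chain R d) : TabOk G (fM2 R d) tC' :=
  tabB' (good_cub h3 (chain_data h).1) (good_cub h3 (chain_data h).2.1)
    (good_cub h3 (chain_data h).2.2)

theorem chainC_rot (h3 : ∀ v, G.degree v = 3) (h : Chain R d) : RotOk R (fM2 R d) tC' :=
  rotB' (good_cub h3 (chain_data h).1) (good_cub h3 (chain_data h).2.1)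
    (good_cub h3 (chain_data h).2.2)

/-- All labels are far from the faces of length four. -/
theorem chainC_n4 (h3 : ∀ v, G.degree v = 3) (h : Chain R d) {k : ℕ} (hN : N4 R k d.fst)
    (hk : 18 ≤ k) : ∀ i, i < 18 → N4 R 8 (fM2 R d i) :=
  n4_labels (chainC_tab h3 h) chk_C3 allR_C3 (fM2_mem h) hN (by omega)

section

variable (hT : ClsT R (N4 R 8)) (h : Chain R d) (hn : ∀ i, i < 18 → N4 R 8 (fM2 R d i))

include hT hn

/-- The corner of the face across `8 9`. -/
theorem chainC_nF (hF : nb R d 0 ≠ 5) (h : Chain R d) (x y : V) :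
    ¬ NB G [fM2 R d 7, fM2 R d 8, fM2 R d 9, x, y] := fun h1 => by
  have h2 : sz R (ac R (R.next^[4] d) 1) ≠ 5 := by
    rw [ac_iter, sz_ad, show 4 + 1 = 0 + 5 from rfl, nb_per R h.p2]; exact hF
  have h3 := hT.no5a (R.next^[4] d) 1 (hn 9 (by norm_num)) h2 y x
  have e4 : X R (ac R (R.next^[4] d) 0) 4 = Y R (R.next^[4] d) 1 :=
    (good_cub hT.cub (chain_data h).1).ac_last 0 (good_cub hT.cub (chain_data h).2.1)
      (by norm_num)
  rw [← e4] at h3
  exact h3 (nb5_reverse h1)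

/-- The corner of the face across `11 15`. -/
theorem chainC_nO0 (hO : nb R (ad R d 4) 2 ≠ 5) (x y : V) :
    ¬ NB G [fM2 R d 1, fM2 R d 11, fM2 R d 15, x, y] := fun h1 => by
  have h2 : sz R (ac R (ac R (R.next^[4] d) 0) 2) ≠ 5 := by
    rw [sz_ac, ac_iter]; exact hO
  exact hT.no5b (ac R (R.next^[4] d) 0) 2 (hn 1 (by norm_num)) h2 x y h1

/-- The corner of the face across `16 13`. -/
theorem chainC_nO2 (hO : nb R d 2 ≠ 5) (h : Chain R d) (x y : V) :
    ¬ NB G [fM2 R d 16, fM2 R d 13, fM2 R d 17, x, y] := fun h1 => by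
  have h2 : sz R (ac R (R.next^[4] d) 3) ≠ 5 := by
    rw [ac_iter, sz_ad, show 4 + 3 = 2 + 5 from rfl, nb_per R h.p2]; exact hO
  have h3 := hT.no5a (R.next^[4] d) 3 (hn 16 (by norm_num)) h2 x y
  have g4 : X R (ac R (R.next^[4] d) 2) 4 = Y R (R.next^[4] d) 3 :=
    (good_cub hT.cub (chain_data h).1).ac_last 2 (good_cub hT.cub (chain_data h).2.2)
      (by norm_num)
  rw [← g4] at h3
  exact h3 h1

/-- The corner of the face across `17 14`. -/
theorem chainC_nO3 (hO : nb R (ad R d 1) 3 ≠ 5) (h : Chain R d) (x y : V) :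
    ¬ NB G [fM2 R d 4, fM2 R d 17, fM2 R d 14, x, y] := fun h1 => by
  have h2 : sz R (ac R (ac R (R.next^[4] d) 2) 3) ≠ 5 := by
    rw [sz_ac, ac_iter, show 4 + 2 = 1 + 5 from rfl, ad_per R h.p2]; exact hO
  exact hT.no5b (ac R (R.next^[4] d) 2) 3 (hn 4 (by norm_num)) h2 x y h1

/-- The corner of the face across `14 10`. -/
theorem chainC_nR (hO : nb R (ad R d 1) 2 ≠ 5) (h : Chain R d) (x y : V) :
    ¬ NB G [fM2 R d 5, fM2 R d 14, fM2 R d 10, x, y] := fun h1 => by
  have h2 : sz R (ac R (ac R (R.next^[4] d) 2) 2) ≠ 5 := by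
    rw [sz_ac, ac_iter, show 4 + 2 = 1 + 5 from rfl, ad_per R h.p2]; exact hO
  exact hT.no5b (ac R (R.next^[4] d) 2) 2 (hn 5 (by norm_num)) h2 x y h1

end

/-- **The patches of the first line.** -/
theorem goodC_M2 (hT : ClsT R (N4 R 8)) {k : ℕ} (hN : N4 R k d.fst) (hk : 18 ≤ k)
    (h : Chain R d) (hO : nb R (ad R d 4) 2 ≠ 5) (hF : ¬ (nb R d 0 = 5 ∧ nb R d 2 = 5)) :
    Uni91.Good (cM2a.pl (fM2 R d)) G ∨ Uni91.Good (cM2b.pl (fM2 R d)) G := by
  have h3 := hT.cub
  have hn := chainC_n4 h3 h hN hk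
  by_cases h1 : nb R d 0 = 5
  · have h2 : nb R d 2 ≠ 5 := fun h2 => hF ⟨h1, h2⟩
    refine Or.inr (good_of ext_M2b data_M2b ps_M2b (patch_ofT hT (chainC_tab h3 h)
      (chainC_rot h3 h) chk_C3 hn (F := [(16, 13, 17), (1, 11, 15)]) ?_ (by simp) (by simp)
      (by simp) (by simp) fin_M2b))
    intro e he x y
    simp only [List.mem_cons, List.not_mem_nil, or_false] at he
    rcases he with rfl | rfl
    · exact chainC_nO2 hT hn h2 h x y
    · exact chainC_nO0 hT hn hO x y
  · refine Or.inl (good_of ext_M2a data_M2a ps_M2a (patch_ofT hT (chainC_tab h3 h)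
      (chainC_rot h3 h) chk_C3 hn (F := [(7, 8, 9), (1, 11, 15)]) ?_ (by simp) (by simp)
      (by simp) (by simp) fin_M2a))
    intro e he x y
    simp only [List.mem_cons, List.not_mem_nil, or_false] at he
    rcases he with rfl | rfl
    · exact chainC_nF hT hn h1 h x y
    · exact chainC_nO0 hT hn hO x y

/-- **The patch of the second line.** -/
theorem goodC_M3 (hT : ClsT R (N4 R 8)) {k : ℕ} (hN : N4 R k d.fst) (hk : 18 ≤ k)
    (h : Chain R d) (hO : nb R (ad R d 4) 2 ≠ 5) (hO3 : nb R (ad R d 1) 3 ≠ 5) :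
    Uni91.Good (cM3.pl (fM2 R d)) G := by
  have h3 := hT.cub
  have hn := chainC_n4 h3 h hN hk
  refine good_of ext_M3 data_M3 ps_M3 (patch_ofT hT (chainC_tab h3 h)
    (chainC_rot h3 h) chk_C3M3 hn (F := [(1, 11, 15), (4, 17, 14)]) ?_ (by simp) (by simp)
    (by simp) (by simp) fin_M3)
  intro e he x y
  simp only [List.mem_cons, List.not_mem_nil, or_false] at he
  rcases he with rfl | rfl
  · exact chainC_nO0 hT hn hO x y
  · exact chainC_nO3 hT hn hO3 h x y

/-- **The patch of the third line.** -/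
theorem goodC_M6 (hT : ClsT R (N4 R 8)) {k : ℕ} (hN : N4 R k d.fst) (hk : 18 ≤ k)
    (h : Chain R d) (hO : nb R (ad R d 4) 2 ≠ 5) (hRr : nb R (ad R d 1) 2 ≠ 5) :
    Uni91.Good (cM6.pl (fM2 R d)) G := by
  have h3 := hT.cub
  have hn := chainC_n4 h3 h hN hk
  refine good_of ext_M6 data_M6 ps_M6 (patch_ofT hT (chainC_tab h3 h)
    (chainC_rot h3 h) chk_C3M6 hn (F := [(1, 11, 15), (5, 14, 10)]) ?_ (by simp) (by simp)
    (by simp) (by simp) fin_M6)
  intro e he x y
  simp only [List.mem_cons, List.not_mem_nil, or_false] at he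
  rcases he with rfl | rfl
  · exact chainC_nO0 hT hn hO x y
  · exact chainC_nR hT hn hRr h x y

/-- The short outer faces of the chain. -/
theorem chainC_short (h3 : ∀ v, G.degree v = 3) (h : Chain R d) {l : List ℕ} {c : ℕ × ℕ}
    (hl : adLN tC' l (8, 9) = some c) (hK : sz R (adL R l d) ≤ K) :
    ∃ e : G.Dart, Dt (fM2 R d) c e ∧ sz R e ≤ K :=
  ⟨_, adLN_ok (chainC_rot h3 h) hl (chain_dt h), hK⟩

end

end Pool.Agent.InstM
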