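import Mathlib
import Pool.Agent.Work.MP_392c8e_co_uni.CertZ4
import Pool.Agent.Work.MP_392c8e_co_uni.Inst.Z4

/-!
# The place Z4

Four faces of length five in a zigzag: the face of the dart `d`, the faces across its edges `0`
and `2`, and the face across the edge `2` of the first of these.  The new edges join the terminals
0-4, 1-3, 5-7, the terminals 2 and 6 are free.  The face across the edge `1` is F, the face across
the edge `3` is O2, the face across the edge `4` is O1, and L is the face across the edge `3` of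
the face across the edge `0`.  The place exists unless F and O2 have length five, or O1 and L have
length five.
-/

namespace Pool.Agent.U2Geo

open Finset Pool.Agent.Sub392 Pool.T1Side Pool.Agent.T392 Pool.Agent.T1FF Pool.Agent.T1Red
open Pool.Agent.Uni392 (Place)

set_option linter.unusedSectionVars false

/-- The paths of the new edges. -/
def psZ4 : List (ℕ × List ℕ × ℕ) :=
  [(0, [15, 9, 8, 12], 4), (1, [16, 10, 11, 18], 3), (5, [19, 13, 14, 21], 7)]

set_option synthInstance.maxSize 200000 in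
theorem data_Z4a : Data Z4 [] psZ4 [] [(2, 6)] comZ4 [] := by
  constructor <;> decide

set_option synthInstance.maxSize 200000 in
theorem data_Z4b : Data Z4 [] psZ4 [] [(2, 6), (4, 5)] comZ4 [(0, 7)] := by
  constructor <;> decide

set_option synthInstance.maxSize 200000 in
theorem data_Z4c : Data Z4 [] psZ4 [] [(2, 6), (0, 1)] comZ4 [(3, 4)] := by
  constructor <;> decide

set_option synthInstance.maxSize 200000 in
theorem data_Z4d : Data Z4 [] psZ4 [] [(2, 6), (0, 1), (4, 5)] comZ4 [(3, 4), (0, 7)] := by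
  constructor <;> decide

/-- The pairs which may be equal and the pairs which may not be adjacent, in the four cases. -/
def shZ4 : List (List (ℕ × ℕ) × List (ℕ × ℕ)) :=
  [([(2, 6)], []), ([(2, 6), (4, 5)], [(0, 7)]), ([(2, 6), (0, 1)], [(3, 4)]),
    ([(2, 6), (0, 1), (4, 5)], [(3, 4), (0, 7)])]

theorem psOk_Z4a : PsOk Z4 [] psZ4 [(2, 6)] := by
  constructor <;> decide

theorem psOk_Z4b : PsOk Z4 [] psZ4 [(2, 6), (4, 5)] := by
  constructor <;> decide

theorem psOk_Z4c : PsOk Z4 [] psZ4 [(2, 6), (0, 1)] := by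
  constructor <;> decide

theorem psOk_Z4d : PsOk Z4 [] psZ4 [(2, 6), (0, 1), (4, 5)] := by
  constructor <;> decide

theorem ext_Z4a : Z4.Ext [(2, 6)] := Z4_ext _ (by decide +kernel)

theorem ext_Z4b : Z4.Ext [(2, 6), (4, 5)] := Z4_ext _ (by decide +kernel)

theorem ext_Z4c : Z4.Ext [(2, 6), (0, 1)] := Z4_ext _ (by decide +kernel)

theorem ext_Z4d : Z4.Ext [(2, 6), (0, 1), (4, 5)] := Z4_ext _ (by decide +kernel)

variable {V : Type} [Fintype V] [DecidableEq V] {G : SimpleGraph V} [DecidableRel G.Adj]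
  {R : Rot G} {d : G.Dart}

/-- The labels of Z4: terminals `0, …, 7`, interior `8, …, 21`. -/
def fZ4 (R : Rot G) (d : G.Dart) (n : ℕ) : V :=
  [Y R (ac R d 0) 4, Y R (ac R d 2) 2, Y R (ac R d 2) 3, Y R (ac R d 2) 4, Y R d 4,
    Y R (ac R (ac R d 0) 2) 2, Y R (ac R (ac R d 0) 2) 3, Y R (ac R (ac R d 0) 2) 4,
    X R d 0, X R d 1, X R d 2, X R d 3, X R d 4,
    X R (ac R d 0) 2, X R (ac R d 0) 3, X R (ac R d 0) 4,
    X R (ac R d 2) 2, X R (ac R d 2) 3, X R (ac R d 2) 4,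
    X R (ac R (ac R d 0) 2) 2, X R (ac R (ac R d 0) 2) 3,
    X R (ac R (ac R d 0) 2) 4].getD n (X R d 0)

/-- The table of Z4. -/
def tZ4 : List (ℕ × ℕ × ℕ × ℕ) :=
  [(8, 9, 12, 13), (9, 10, 8, 15), (10, 11, 9, 16), (11, 12, 10, 18), (12, 8, 11, 4),
    (13, 14, 8, 19), (14, 15, 13, 21), (15, 9, 14, 0),
    (16, 17, 10, 1), (17, 18, 16, 2), (18, 11, 17, 3),
    (19, 20, 13, 5), (20, 21, 19, 6), (21, 14, 20, 7)]

theorem tabZ4 (h : Good R d 5) (g0 : Good R (ac R d 0) 5) (g2 : Good R (ac R d 2) 5)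
    (gE : Good R (ac R (ac R d 0) 2) 5) : TabOk G (fZ4 R d) tZ4 := by
  obtain ⟨a0, a1, a2, a3, a4⟩ := h.stars5
  obtain ⟨-, -, b2, b3, b4⟩ := g0.stars5
  obtain ⟨-, -, c2, c3, c4⟩ := g2.stars5
  obtain ⟨-, -, q2, q3, q4⟩ := gE.stars5
  have e0 : X R (ac R d 0) 0 = X R d 1 := ac_X0 R d 0
  have e1 : X R (ac R d 0) 1 = X R d 0 := ac_X1 R d 0
  have e2 : X R (ac R d 0) 2 = Y R d 0 := ac_X2 R d 0
  have e4 : X R (ac R d 0) 4 = Y R d 1 := h.ac_last 0 g0 (by norm_num)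
  have k0 : X R (ac R d 2) 0 = X R d 3 := ac_X0 R d 2
  have k1 : X R (ac R d 2) 1 = X R d 2 := ac_X1 R d 2
  have k2 : X R (ac R d 2) 2 = Y R d 2 := ac_X2 R d 2
  have k4 : X R (ac R d 2) 4 = Y R d 3 := h.ac_last 2 g2 (by norm_num)
  have m0 : X R (ac R (ac R d 0) 2) 0 = X R (ac R d 0) 3 := ac_X0 R (ac R d 0) 2
  have m1 : X R (ac R (ac R d 0) 2) 1 = X R (ac R d 0) 2 := ac_X1 R (ac R d 0) 2
  have m2 : X R (ac R (ac R d 0) 2) 2 = Y R (ac R d 0) 2 := ac_X2 R (ac R d 0) 2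
  have m4 : X R (ac R (ac R d 0) 2) 4 = Y R (ac R d 0) 3 := g0.ac_last 2 gE (by norm_num)
  rw [← e2] at a0
  rw [← e4] at a1
  rw [← k2] at a2
  rw [← k4] at a3
  rw [e1, ← m2] at b2
  rw [← m4] at b3
  rw [e0] at b4
  rw [k1] at c2
  rw [k0] at c4
  rw [m1] at q2
  rw [m0] at q4
  intro e he
  simp only [tZ4, List.mem_cons, List.not_mem_nil, or_false] at he
  rcases he with rfl | rfl | rfl | rfl | rfl | rfl | rfl | rfl | rfl | rfl | rfl | rfl | rfl | rfl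
  · exact a0
  · exact a1
  · exact a2
  · exact a3
  · exact a4
  · exact b2
  · exact b3
  · exact b4
  · exact c2
  · exact c3
  · exact c4
  · exact q2
  · exact q3
  · exact q4

theorem chk_Z4 : chk Z4.ed (inner Z4) tZ4 = true := by
  decide +kernel

section corners

variable (hR : C5 R) (h : Good R d 5) (g0 : Good R (ac R d 0) 5) (g2 : Good R (ac R d 2) 5)
  (gE : Good R (ac R (ac R d 0) 2) 5)

include hR h g0 in
/-- The corner of F. -/
theorem cF_Z4 (k : sz R (ac R d 1) ≠ 5) (x y : V) :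
    ¬ NB G [fZ4 R d 10, fZ4 R d 9, fZ4 R d 15, x, y] := by
  have := hR.no5a d 1 k x y
  rwa [show Y R d 1 = X R (ac R d 0) 4 from (h.ac_last 0 g0 (by norm_num)).symm] at this

include hR h in
/-- The corner of O1. -/
theorem cO1_Z4 (k : sz R (ac R d 4) ≠ 5) (x y : V) :
    ¬ NB G [fZ4 R d 13, fZ4 R d 8, fZ4 R d 12, x, y] := by
  have := hR.no5b d 4 k x y
  rwa [show Y R d (4 + 1) = X R (ac R d 0) 2 from (h.Y_mod 5).trans (ac_X2 R d 0).symm,
    show X R d (4 + 1) = X R d 0 from h.X_mod 5] at this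

include hR g0 gE in
/-- The corner of L. -/
theorem cL_Z4 (k : sz R (ac R (ac R d 0) 3) ≠ 5) (x y : V) :
    ¬ NB G [fZ4 R d 15, fZ4 R d 14, fZ4 R d 21, x, y] := by
  have := hR.no5a (ac R d 0) 3 k x y
  rwa [show Y R (ac R d 0) 3 = X R (ac R (ac R d 0) 2) 4 from
    (g0.ac_last 2 gE (by norm_num)).symm] at this

include hR h g2 in
/-- The corner of O2. -/
theorem cO2_Z4 (k : sz R (ac R d 3) ≠ 5) (x y : V) :
    ¬ NB G [fZ4 R d 12, fZ4 R d 11, fZ4 R d 18, x, y] := by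
  have := hR.no5a d 3 k x y
  rwa [show Y R d 3 = X R (ac R d 2) 4 from (h.ac_last 2 g2 (by norm_num)).symm] at this

end corners

variable (hR : C5 R) (h13 : 13 ≤ Fintype.card V) (h : Good R d 5) (g0 : Good R (ac R d 0) 5)
  (g2 : Good R (ac R d 2) 5) (gE : Good R (ac R (ac R d 0) 2) 5)

include hR h13 h g0 g2 gE

/-- **The patch, F and O1 have not length five.** -/
theorem patch_Z4a (kF : sz R (ac R d 1) ≠ 5) (kO1 : sz R (ac R d 4) ≠ 5) :
    Patch G Z4 [] [(2, 6)] comZ4 [] (fZ4 R d) := by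
  refine patch_of (hR.cls h13) (tabZ4 h g0 g2 gE) chk_Z4 ?_ fin_Z4a
  intro e he x y
  simp only [List.mem_cons, List.not_mem_nil, or_false] at he
  rcases he with rfl | rfl
  · exact cF_Z4 hR h g0 kF x y
  · exact cO1_Z4 hR h kO1 x y

/-- **The patch, F and L have not length five.** -/
theorem patch_Z4b (kF : sz R (ac R d 1) ≠ 5) (kL : sz R (ac R (ac R d 0) 3) ≠ 5) :
    Patch G Z4 [] [(2, 6), (4, 5)] comZ4 [(0, 7)] (fZ4 R d) := by
  refine patch_of (hR.cls h13) (tabZ4 h g0 g2 gE) chk_Z4 ?_ fin_Z4b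
  intro e he x y
  simp only [List.mem_cons, List.not_mem_nil, or_false] at he
  rcases he with rfl | rfl
  · exact cF_Z4 hR h g0 kF x y
  · exact cL_Z4 hR g0 gE kL x y

/-- **The patch, O2 and O1 have not length five.** -/
theorem patch_Z4c (kO2 : sz R (ac R d 3) ≠ 5) (kO1 : sz R (ac R d 4) ≠ 5) :
    Patch G Z4 [] [(2, 6), (0, 1)] comZ4 [(3, 4)] (fZ4 R d) := by
  refine patch_of (hR.cls h13) (tabZ4 h g0 g2 gE) chk_Z4 ?_ fin_Z4c
  intro e he x y
  simp only [List.mem_cons, List.not_mem_nil, or_false] at he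
  rcases he with rfl | rfl
  · exact cO2_Z4 hR h g2 kO2 x y
  · exact cO1_Z4 hR h kO1 x y

/-- **The patch, O2 and L have not length five.** -/
theorem patch_Z4d (kO2 : sz R (ac R d 3) ≠ 5) (kL : sz R (ac R (ac R d 0) 3) ≠ 5) :
    Patch G Z4 [] [(2, 6), (0, 1), (4, 5)] comZ4 [(3, 4), (0, 7)] (fZ4 R d) := by
  refine patch_of (hR.cls h13) (tabZ4 h g0 g2 gE) chk_Z4 ?_ fin_Z4d
  intro e he x y
  simp only [List.mem_cons, List.not_mem_nil, or_false] at he
  rcases he with rfl | rfl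
  · exact cO2_Z4 hR h g2 kO2 x y
  · exact cL_Z4 hR g0 gE kL x y

/-- **The place Z4**, F and O1 have not length five. -/
theorem good_Z4a (kF : sz R (ac R d 1) ≠ 5) (kO1 : sz R (ac R d 4) ≠ 5) :
    Uni91.Good (plc Z4 [] psZ4 [(2, 6)] comZ4 [] (fZ4 R d)) G :=
  good_of ext_Z4a data_Z4a psOk_Z4a (patch_Z4a hR h13 h g0 g2 gE kF kO1)

/-- **The place Z4**, F and L have not length five. -/
theorem good_Z4b (kF : sz R (ac R d 1) ≠ 5) (kL : sz R (ac R (ac R d 0) 3) ≠ 5) :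
    Uni91.Good (plc Z4 [] psZ4 [(2, 6), (4, 5)] comZ4 [(0, 7)] (fZ4 R d)) G :=
  good_of ext_Z4b data_Z4b psOk_Z4b (patch_Z4b hR h13 h g0 g2 gE kF kL)

/-- **The place Z4**, O2 and O1 have not length five. -/
theorem good_Z4c (kO2 : sz R (ac R d 3) ≠ 5) (kO1 : sz R (ac R d 4) ≠ 5) :
    Uni91.Good (plc Z4 [] psZ4 [(2, 6), (0, 1)] comZ4 [(3, 4)] (fZ4 R d)) G :=
  good_of ext_Z4c data_Z4c psOk_Z4c (patch_Z4c hR h13 h g0 g2 gE kO2 kO1)

/-- **The place Z4**, O2 and L have not length five. -/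
theorem good_Z4d (kO2 : sz R (ac R d 3) ≠ 5) (kL : sz R (ac R (ac R d 0) 3) ≠ 5) :
    Uni91.Good (plc Z4 [] psZ4 [(2, 6), (0, 1), (4, 5)] comZ4 [(3, 4), (0, 7)] (fZ4 R d)) G :=
  good_of ext_Z4d data_Z4d psOk_Z4d (patch_Z4d hR h13 h g0 g2 gE kO2 kL)

/-- **The place Z4.**  It exists unless F and O2 have length five, or O1 and L have length
five. -/
theorem good_Z4 (k1 : ¬ (sz R (ac R d 1) = 5 ∧ sz R (ac R d 3) = 5))
    (k2 : ¬ (sz R (ac R d 4) = 5 ∧ sz R (ac R (ac R d 0) 3) = 5)) :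
    ∃ s ∈ shZ4, Uni91.Good (plc Z4 [] psZ4 s.1 comZ4 s.2 (fZ4 R d)) G := by
  by_cases c1 : sz R (ac R d 1) = 5
  · have c3 : sz R (ac R d 3) ≠ 5 := fun h3 => k1 ⟨c1, h3⟩
    by_cases c4 : sz R (ac R d 4) = 5
    · have c5 : sz R (ac R (ac R d 0) 3) ≠ 5 := fun h5 => k2 ⟨c4, h5⟩
      exact ⟨([(2, 6), (0, 1), (4, 5)], [(3, 4), (0, 7)]), by simp [shZ4],
        good_Z4d hR h13 h g0 g2 gE c3 c5⟩
    · exact ⟨([(2, 6), (0, 1)], [(3, 4)]), by simp [shZ4], good_Z4c hR h13 h g0 g2 gE c3 c4⟩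
  · by_cases c4 : sz R (ac R d 4) = 5
    · have c5 : sz R (ac R (ac R d 0) 3) ≠ 5 := fun h5 => k2 ⟨c4, h5⟩
      exact ⟨([(2, 6), (4, 5)], [(0, 7)]), by simp [shZ4], good_Z4b hR h13 h g0 g2 gE c1 c5⟩
    · exact ⟨([(2, 6)], []), by simp [shZ4], good_Z4a hR h13 h g0 g2 gE c1 c4⟩

end Pool.Agent.U2Geo
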