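import Mathlib
import Pool.Agent.Work.MP_392c8e_co_uni.PatchZ4
import Pool.Agent.Work.MP_392c8e_co_uni.LineM2
import Pool.Agent.Work.MP_392c8e_co_uni.Shape

/-!
# The line z4 of the table
-/

namespace Pool.Agent.U2Geo

open Finset Pool.Agent.Sub392 Pool.T1Side Pool.Agent.T392 Pool.Agent.T1FF Pool.Agent.T1Red
open Pool.Agent.Disch392

set_option linter.unusedSectionVars false

variable {V : Type} [Fintype V] [DecidableEq V] {G : SimpleGraph V} [DecidableRel G.Adj]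
  {R : Rot G}

/-- The shape Z4, F and O1 have not length five. -/
def sZ4a : Shape := ⟨Z4, [], psZ4, [(2, 6)], comZ4, []⟩

/-- The shape Z4, F and L have not length five. -/
def sZ4b : Shape := ⟨Z4, [], psZ4, [(2, 6), (4, 5)], comZ4, [(0, 7)]⟩

/-- The shape Z4, O2 and O1 have not length five. -/
def sZ4c : Shape := ⟨Z4, [], psZ4, [(2, 6), (0, 1)], comZ4, [(3, 4)]⟩

/-- The shape Z4, O2 and L have not length five. -/
def sZ4d : Shape := ⟨Z4, [], psZ4, [(2, 6), (0, 1), (4, 5)], comZ4, [(3, 4), (0, 7)]⟩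

/-- The first vertex of the dart. -/
theorem fZ4_mem {d : G.Dart} (h : sz R d = 5) : fZ4 R (R.next^[4] d) 9 = d.fst := by
  show X R (R.next^[4] d) 1 = d.fst
  unfold X
  rw [pow_one, ← Function.iterate_succ_apply' R.next 4 d]
  have := next_sz R d
  rw [h] at this
  rw [this]

/-- **The line z4.** -/
theorem line_z4 (hR : C5 R) (h13 : 13 ≤ Fintype.card V) (d : G.Dart) (h : Chain R d)
    (hE : nb R (ad R d 4) 2 = 5) (k1 : ¬ (nb R d 0 = 5 ∧ nb R d 2 = 5))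
    (k2 : ¬ (nb R d 3 = 5 ∧ nb R (ad R d 4) 3 = 5)) :
    ∃ s ∈ [sZ4a, sZ4b, sZ4c, sZ4d], HasPl s G d.fst := by
  obtain ⟨c1, c2, c3⟩ := chain_data h
  have a0 : ac R (R.next^[4] d) 0 = ad R d 4 := ac_iter R d 4 0
  have eE : sz R (ac R (ac R (R.next^[4] d) 0) 2) = 5 := by rw [sz_ac, a0]; exact hE
  have eF : sz R (ac R (R.next^[4] d) 1) = nb R d 0 := by
    rw [ac_iter, sz_ad, show 4 + 1 = 0 + 5 from rfl, nb_per R h.p2]
  have eO2 : sz R (ac R (R.next^[4] d) 3) = nb R d 2 := by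
    rw [ac_iter, sz_ad, show 4 + 3 = 2 + 5 from rfl, nb_per R h.p2]
  have eO1 : sz R (ac R (R.next^[4] d) 4) = nb R d 3 := by
    rw [ac_iter, sz_ad, show 4 + 4 = 3 + 5 from rfl, nb_per R h.p2]
  have eL : sz R (ac R (ac R (R.next^[4] d) 0) 3) = nb R (ad R d 4) 3 := by rw [sz_ac, a0]
  obtain ⟨s, hs, hg⟩ := good_Z4 hR h13 (hR.good c1) (hR.good c2) (hR.good c3) (hR.good eE)
    (by rw [eF, eO2]; exact k1) (by rw [eO1, eL]; exact k2)
  have hv : d.fst ∈ (plc Z4 [] psZ4 s.1 comZ4 s.2 (fZ4 R (R.next^[4] d))).Vert := by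
    refine ⟨9, ⟨?_, List.not_mem_nil, fun p hp => absurd hp List.not_mem_nil⟩, fZ4_mem h.p2⟩
    show 9 < 8 + 14
    norm_num
  simp only [shZ4, List.mem_cons, List.not_mem_nil, or_false] at hs
  rcases hs with rfl | rfl | rfl | rfl
  · exact ⟨sZ4a, by simp, _, hg, hv⟩
  · exact ⟨sZ4b, by simp, _, hg, hv⟩
  · exact ⟨sZ4c, by simp, _, hg, hv⟩
  · exact ⟨sZ4d, by simp, _, hg, hv⟩

end Pool.Agent.U2Geo
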