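import Mathlib
import Pool.Agent.Work.MP_392c8e_co_uni.RotTabs
import Pool.Agent.Work.MP_392c8e_co_uni.PatchR2
import Pool.Agent.Work.MP_392c8e_co_uni.PatchZ4

/-!
# The tables of the patches R2 and Z4 are in the order of the rotation
-/

namespace Pool.Agent.T1FF

open Finset Pool.Agent.Sub392 Pool.T1Side Pool.Agent.T392
open Pool.Agent.Once392 (NbR RotOk)

set_option linter.unusedSectionVars false

variable {V : Type} [Fintype V] [DecidableEq V] {G : SimpleGraph V} [DecidableRel G.Adj]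
variable {R : Rot G} {d : G.Dart} {L : ℕ}

theorem Good.router6 (_h : Good R d L) (n : ℕ) (g : Good R (ac R d n) 6)
    (e5 : X R (ac R d n) 5 = Y R d (n + 1)) :
    NbR R (Y R d n) (X R (ac R d n) 3) (X R d n) (Y R (ac R d n) 2) ∧
    NbR R (X R (ac R d n) 3) (X R (ac R d n) 4) (Y R d n) (Y R (ac R d n) 3) ∧
    NbR R (X R (ac R d n) 4) (Y R d (n + 1)) (X R (ac R d n) 3) (Y R (ac R d n) 4) ∧
    NbR R (Y R d (n + 1)) (X R d (n + 1)) (X R (ac R d n) 4) (Y R (ac R d n) 5) := by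
  have m6 : X R (ac R d n) 6 = X R (ac R d n) 0 := g.X_mod 6
  have m7 : X R (ac R d n) 7 = X R (ac R d n) 1 := g.X_mod 7
  have m8 : X R (ac R d n) 8 = X R (ac R d n) 2 := g.X_mod 8
  have m9 : X R (ac R d n) 9 = X R (ac R d n) 3 := g.X_mod 9
  have m10 : X R (ac R d n) 10 = X R (ac R d n) 4 := g.X_mod 10
  have n2 := g.rnb3 (by norm_num) 2
  have n3 := g.rnb3 (by norm_num) 3
  have n4 := g.rnb3 (by norm_num) 4
  have n5 := g.rnb3 (by norm_num) 5
  norm_num only at n2 n3 n4 n5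
  rw [m7] at n2
  rw [m8] at n3
  rw [m9] at n4
  rw [m6, m10] at n5
  have e0 : X R (ac R d n) 0 = X R d (n + 1) := ac_X0 R d n
  have e1 : X R (ac R d n) 1 = X R d n := ac_X1 R d n
  have e2 : X R (ac R d n) 2 = Y R d n := ac_X2 R d n
  rw [e1, e2] at n2
  rw [e2] at n3
  rw [e5] at n4
  rw [e0, e5] at n5
  exact ⟨n2, n3, n4, n5⟩

theorem rotR2 (h : Good R d 5) (g0 : Good R (ac R d 0) 5) (g1 : Good R (ac R d 1) 6) :
    RotOk R (fR2 R d) tR2 := by
  obtain ⟨a0, a1, a2, a3, a4⟩ := h.rstars5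
  obtain ⟨f0_2, f0_3, f0_4⟩ := h.router5 0 g0
  obtain ⟨f1_2, f1_3, f1_4, f1_5⟩ := h.router6 1 g1 (h.ac_last 1 g1 (by norm_num))
  rw [h.ac_Ylast 0 g0 (by norm_num)] at f0_4
  intro e he
  simp only [tR2, List.mem_cons, List.not_mem_nil, or_false] at he
  rcases he with rfl | rfl | rfl | rfl | rfl | rfl | rfl | rfl | rfl | rfl | rfl
  · exact a0
  · exact a1
  · exact a2
  · exact a3
  · exact a4
  · exact f0_2
  · exact f0_3
  · exact f0_4
  · exact f1_3
  · exact f1_4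
  · exact f1_5

end Pool.Agent.T1FF

namespace Pool.Agent.U2Geo

open Finset Pool.Agent.Sub392 Pool.T1Side Pool.Agent.T392 Pool.Agent.T1FF
open Pool.Agent.Once392 (NbR RotOk)

set_option linter.unusedSectionVars false

variable {V : Type} [Fintype V] [DecidableEq V] {G : SimpleGraph V} [DecidableRel G.Adj]
variable {R : Rot G} {d : G.Dart}

theorem rotZ4 (h : Good R d 5) (g0 : Good R (ac R d 0) 5) (g2 : Good R (ac R d 2) 5)
    (gE : Good R (ac R (ac R d 0) 2) 5) : RotOk R (fZ4 R d) tZ4 := by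
  obtain ⟨a0, a1, a2, a3, a4⟩ := h.rstars5
  obtain ⟨-, -, b2, b3, b4⟩ := g0.rstars5
  obtain ⟨-, -, c2, c3, c4⟩ := g2.rstars5
  obtain ⟨-, -, q2, q3, q4⟩ := gE.rstars5
  have e0 : X R (ac R d 0) 0 = X R d 1 := ac_X0 R d 0
  have e1 : X R (ac R d 0) 1 = X R d 0 := ac_X1 R d 0
  have e2 : X R (ac R d 0) 2 = Y R d 0 := ac_X2 R d 0
  have e4 : X R (ac R d 0) 4 = Y R d 1 := h.ac_last 0 g0 (by norm_num)
  have k0 : X R (ac R d 2) 0 = X R d 3 := ac_X0 R d 2
  have k1 : X R (ac R d 2) 1 = X R d 2 := ac_X1 R d 2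
  have k2 : X R (ac R d 2) 2 = Y R d 2 := ac_X2 R d 2
  have k4 : X R (ac R d 2) 4 = Y R d 3 := h.ac_last 2 g2 (by norm_num)
  have m0 : X R (ac R (ac R d 0) 2) 0 = X R (ac R d 0) 3 := ac_X0 R (ac R d 0) 2
  have m1 : X R (ac R (ac R d 0) 2) 1 = X R (ac R d 0) 2 := ac_X1 R (ac R d 0) 2
  have m2 : X R (ac R (ac R d 0) 2) 2 = Y R (ac R d 0) 2 := ac_X2 R (ac R d 0) 2
  have m4 : X R (ac R (ac R d 0) 2) 4 = Y R (ac R d 0) 3 := g0.ac_last 2 gE (by norm_num)
  rw [← e2] at a0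
  rw [← e4] at a1
  rw [← k2] at a2
  rw [← k4] at a3
  rw [e1, ← m2] at b2
  rw [← m4] at b3
  rw [e0] at b4
  rw [k1] at c2
  rw [k0] at c4
  rw [m1] at q2
  rw [m0] at q4
  intro e he
  simp only [tZ4, List.mem_cons, List.not_mem_nil, or_false] at he
  rcases he with rfl | rfl | rfl | rfl | rfl | rfl | rfl | rfl | rfl | rfl | rfl | rfl | rfl | rfl
  · exact a0
  · exact a1
  · exact a2
  · exact a3
  · exact a4
  · exact b2
  · exact b3
  · exact b4
  · exact c2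
  · exact c3
  · exact c4
  · exact q2
  · exact q3
  · exact q4

end Pool.Agent.U2Geo
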