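import Mathlib
import Pool.Agent.Work.MP_392c8e_co_uni.LineZ4
import Pool.Agent.Work.MP_392c8e_co_uni.ChainB2
import Pool.Agent.Work.MP_392c8e_co_uni.RotTabs2
import Pool.Agent.Work.MP_392c8e_co_uni.RingC
import Pool.Agent.Work.MP_392c8e_co_uni.RingShB
import Pool.Agent.Work.MP_392c8e_co_uni.FastGood

/-!
# The line z4 of stage B

The place Z4 (four faces of length five in a zigzag) has a gain as soon as three of the four pairs
{F, O2}, {R, O3}, {O1, L}, {e1, e2} of outer faces have a short member.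
-/

namespace Pool.Agent.DischB

open Finset Pool.Agent.Sub392 Pool.T1Side Pool.Agent.T392 Pool.Agent.Disch392 Pool.Agent.T1FF
  Pool.Agent.T1Red Pool.Agent.U2Geo Pool.Agent.Once392 Pool.Agent.RingB Pool.Agent.Ring392
open Pool.Agent.Uni392 (Place)
open Pool.Agent.Uni91 (GainP)

set_option linter.unusedSectionVars false

variable {V : Type} [Fintype V] [DecidableEq V] {G : SimpleGraph V} [DecidableRel G.Adj]
  {R : Rot G} {K : ℕ}

/-- The gaps of Z4. -/
def gapsZ4 : List Gp := [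
  ⟨(15, 0), [(15, 14), (14, 21)], (21, 7), [(15, 14), (9, 8)]⟩,
  ⟨(21, 7), [(21, 20)], (20, 6), [(21, 20), (13, 19), (8, 12)]⟩,
  ⟨(20, 6), [(20, 19)], (19, 5), [(20, 19), (13, 19), (8, 12)]⟩,
  ⟨(19, 5), [(19, 13), (13, 8), (8, 12)], (12, 4), [(8, 12)]⟩,
  ⟨(12, 4), [(12, 11), (11, 18)], (18, 3), [(12, 11)]⟩,
  ⟨(18, 3), [(18, 17)], (17, 2), [(18, 17), (11, 10)]⟩,
  ⟨(17, 2), [(17, 16)], (16, 1), [(17, 16), (11, 10)]⟩,
  ⟨(16, 1), [(16, 10), (10, 9), (9, 15)], (15, 0), [(10, 9)]⟩]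

theorem gapsZ4_ok : gps tZ4 (8, 9) gapsZ4 = true := by decide +kernel

theorem labZ4 : labB Z4 [] tZ4 = true := by decide +kernel

theorem ringZ4 : (shZ4.all fun s => ringB Z4 s.1) = true := by decide +kernel

/-- The pairs of outer faces, seen from outside. -/
def prZ4 : List (List (ℕ × ℕ)) :=
  [[(10, 9), (12, 11)], [(17, 16), (18, 17)], [(8, 12), (15, 14)], [(20, 19), (21, 20)]]

/-- Three of the four pairs. -/
def trZ4 : List (List (List (ℕ × ℕ))) :=
  [[[(10, 9), (12, 11)], [(17, 16), (18, 17)], [(8, 12), (15, 14)]],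
    [[(10, 9), (12, 11)], [(17, 16), (18, 17)], [(20, 19), (21, 20)]],
    [[(10, 9), (12, 11)], [(8, 12), (15, 14)], [(20, 19), (21, 20)]],
    [[(17, 16), (18, 17)], [(8, 12), (15, 14)], [(20, 19), (21, 20)]]]

/-- The joined labels. -/
def eZ4 : List (ℕ × ℕ) := [(0, 4), (1, 3), (5, 7)]

/-- The possible pairs of gaps in one face. -/
def pZ4 : List (Gp × Gp) := FastG.pk gapsZ4 [(1, 5), (2, 6), (5, 1), (6, 2)]

theorem preZ4 : (shZ4.all fun s => FastG.preB Z4 [] psZ4 s.1 eZ4 4194116 1179903) = true := by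
  decide +kernel

theorem fastZ4 : (trZ4.all fun bs => (chs bs).all fun sh =>
    FastG.fastC 22 eZ4 4194116 1179903 tZ4 gapsZ4 pZ4 sh) = true := by
  decide +kernel

theorem goodZ4 : (shZ4.all fun s => trZ4.all fun bs => (chs bs).all fun sh =>
    goodB Z4 [] psZ4 s.1 (gsOf tZ4 gapsZ4 sh)) = true := by
  rw [List.all_eq_true]
  intro s hs
  rw [List.all_eq_true]
  intro bs hbs
  rw [List.all_eq_true]
  intro sh hsh
  exact FastG.goodB_of_fastC (R := Z4) (List.all_eq_true.1 preZ4 s hs)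
    (List.all_eq_true.1 (List.all_eq_true.1 fastZ4 bs hbs) sh hsh)

/-- The pair of labels of the dart. -/
theorem dt_fZ4 {d : G.Dart} (h : sz R d = 5) : Dt (fZ4 R (R.next^[4] d)) (9, 10) d := by
  have h1 : Dt (fZ4 R (R.next^[4] d)) (9, 10) ((R.next ^ 1) (R.next^[4] d)) :=
    dt_X R _ 1 rfl rfl
  rw [pow_one, ← Function.iterate_succ_apply' R.next 4 d] at h1
  have h2 := next_sz R d
  rw [h] at h2
  rwa [h2] at h1

/-- From one of two short faces. -/
theorem two_of {f : ℕ → V} {c c' : ℕ × ℕ} {a a' : G.Dart} (h : Dt f c a) (h' : Dt f c' a')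
    (hs : ¬ (K ≤ sz R a ∧ K ≤ sz R a')) :
    ∃ x ∈ [c, c'], ∃ d : G.Dart, Dt f x d ∧ sz R d ≤ K := by
  by_cases h1 : K ≤ sz R a
  · exact ⟨c', by simp, a', h', by
      have : ¬ K ≤ sz R a' := fun h2 => hs ⟨h1, h2⟩
      omega⟩
  · exact ⟨c, by simp, a, h, by omega⟩

/-- Three of the four pairs have a short member. -/
theorem tr_of {S : ℕ × ℕ → Prop} {a b c e : Prop}
    (hA : ¬ a → ∃ x ∈ [((10, 9) : ℕ × ℕ), (12, 11)], S x)
    (hB : ¬ b → ∃ x ∈ [((17, 16) : ℕ × ℕ), (18, 17)], S x)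
    (hC : ¬ c → ∃ x ∈ [((8, 12) : ℕ × ℕ), (15, 14)], S x)
    (hE : ¬ e → ∃ x ∈ [((20, 19) : ℕ × ℕ), (21, 20)], S x)
    (h : One4 a b c e) : ∃ bs ∈ trZ4, ∀ B ∈ bs, ∃ x ∈ B, S x := by
  obtain ⟨h1, h2, h3, h4, h5, h6⟩ := h
  by_cases ha : a
  · have hb : ¬ b := fun x => h1 ⟨ha, x⟩
    have hc : ¬ c := fun x => h2 ⟨ha, x⟩
    have he : ¬ e := fun x => h3 ⟨ha, x⟩
    refine ⟨[[(17, 16), (18, 17)], [(8, 12), (15, 14)], [(20, 19), (21, 20)]], by simp [trZ4], ?_⟩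
    intro B hBm
    simp only [List.mem_cons, List.not_mem_nil, or_false] at hBm
    rcases hBm with rfl | rfl | rfl
    · exact hB hb
    · exact hC hc
    · exact hE he
  · by_cases hb : b
    · have hc : ¬ c := fun x => h4 ⟨hb, x⟩
      have he : ¬ e := fun x => h5 ⟨hb, x⟩
      refine ⟨[[(10, 9), (12, 11)], [(8, 12), (15, 14)], [(20, 19), (21, 20)]], by simp [trZ4], ?_⟩
      intro B hBm
      simp only [List.mem_cons, List.not_mem_nil, or_false] at hBm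
      rcases hBm with rfl | rfl | rfl
      · exact hA ha
      · exact hC hc
      · exact hE he
    · by_cases hc : c
      · have he : ¬ e := fun x => h6 ⟨hc, x⟩
        refine ⟨[[(10, 9), (12, 11)], [(17, 16), (18, 17)], [(20, 19), (21, 20)]],
          by simp [trZ4], ?_⟩
        intro B hBm
        simp only [List.mem_cons, List.not_mem_nil, or_false] at hBm
        rcases hBm with rfl | rfl | rfl
        · exact hA ha
        · exact hB hb
        · exact hE he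
      · refine ⟨[[(10, 9), (12, 11)], [(17, 16), (18, 17)], [(8, 12), (15, 14)]],
          by simp [trZ4], ?_⟩
        intro B hBm
        simp only [List.mem_cons, List.not_mem_nil, or_false] at hBm
        rcases hBm with rfl | rfl | rfl
        · exact hA ha
        · exact hB hb
        · exact hC hc

/-- The table of the rotation. -/
theorem rot_Z4 (hR : C5 R) {d : G.Dart} (h : Chain R d) (hE : nb R (ad R d 4) 2 = 5) :
    RotOk R (fZ4 R (R.next^[4] d)) tZ4 := by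
  obtain ⟨c1, c2, c3⟩ := chain_data h
  have a0 : ac R (R.next^[4] d) 0 = ad R d 4 := ac_iter R d 4 0
  have eE : sz R (ac R (ac R (R.next^[4] d) 0) 2) = 5 := by rw [sz_ac, a0]; exact hE
  exact rotZ4 (hR.good c1) (hR.good c2) (hR.good c3) (hR.good eE)

/-- **The line z4 of stage B.** -/
theorem lineB_z4 (hR : C5 R) (hbig : 18 < Fintype.card V) (d : G.Dart) (h : Chain R d)
    (hE : nb R (ad R d 4) 2 = 5) (k1 : ¬ (nb R d 0 = 5 ∧ nb R d 2 = 5))
    (k2 : ¬ (nb R d 3 = 5 ∧ nb R (ad R d 4) 3 = 5))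
    (hlong : One4 (K ≤ nb R d 0 ∧ K ≤ nb R d 2)
      (K ≤ nb R (ad R d 1) 2 ∧ K ≤ nb R (ad R d 1) 3)
      (K ≤ nb R d 3 ∧ K ≤ nb R (ad R d 4) 3)
      (K ≤ nb R (ad R (ad R d 4) 2) 2 ∧ K ≤ nb R (ad R (ad R d 4) 2) 3)) :
    ∃ s ∈ [sZ4a, sZ4b, sZ4c, sZ4d], ∃ f : ℕ → V, Uni91.Good (s.pl f) G ∧
      GainP G (s.pl f) (10 * (K + 1)) ∧ d.fst ∈ (s.pl f).Vert := by
  obtain ⟨c1, c2, c3⟩ := chain_data h
  have a0 : ac R (R.next^[4] d) 0 = ad R d 4 := ac_iter R d 4 0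
  have eE : sz R (ac R (ac R (R.next^[4] d) 0) 2) = 5 := by rw [sz_ac, a0]; exact hE
  have eF : sz R (ac R (R.next^[4] d) 1) = nb R d 0 := by
    rw [ac_iter, sz_ad, show 4 + 1 = 0 + 5 from rfl, nb_per R h.p2]
  have eO2 : sz R (ac R (R.next^[4] d) 3) = nb R d 2 := by
    rw [ac_iter, sz_ad, show 4 + 3 = 2 + 5 from rfl, nb_per R h.p2]
  have eO1 : sz R (ac R (R.next^[4] d) 4) = nb R d 3 := by
    rw [ac_iter, sz_ad, show 4 + 4 = 3 + 5 from rfl, nb_per R h.p2]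
  have eL : sz R (ac R (ac R (R.next^[4] d) 0) 3) = nb R (ad R d 4) 3 := by rw [sz_ac, a0]
  obtain ⟨s, hs, hg⟩ := good_Z4 hR (by omega) (hR.good c1) (hR.good c2) (hR.good c3) (hR.good eE)
    (by rw [eF, eO2]; exact k1) (by rw [eO1, eL]; exact k2)
  have hv : d.fst ∈ (plc Z4 [] psZ4 s.1 comZ4 s.2 (fZ4 R (R.next^[4] d))).Vert := by
    refine ⟨9, ⟨?_, List.not_mem_nil, fun p hp => absurd hp List.not_mem_nil⟩, fZ4_mem h.p2⟩
    show 9 < 8 + 14
    norm_num
  have hN := rot_Z4 hR h hE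
  have hd := dt_fZ4 h.p2
  have hgain : GainP G (plc Z4 [] psZ4 s.1 comZ4 s.2 (fZ4 R (R.next^[4] d))) (10 * (K + 1)) := by
    have p0 : Dt (fZ4 R (R.next^[4] d)) (10, 9) (ad R d 0) := adN_ok hN (by decide +kernel) hd
    have p1 : Dt (fZ4 R (R.next^[4] d)) (11, 10) (ad R d 1) := adN_ok hN (by decide +kernel) hd
    have p2 : Dt (fZ4 R (R.next^[4] d)) (12, 11) (ad R d 2) := adN_ok hN (by decide +kernel) hd
    have p3 : Dt (fZ4 R (R.next^[4] d)) (8, 12) (ad R d 3) := adN_ok hN (by decide +kernel) hd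
    have p4 : Dt (fZ4 R (R.next^[4] d)) (9, 8) (ad R d 4) := adN_ok hN (by decide +kernel) hd
    have q2 : Dt (fZ4 R (R.next^[4] d)) (17, 16) (ad R (ad R d 1) 2) :=
      adN_ok hN (by decide +kernel) p1
    have q3 : Dt (fZ4 R (R.next^[4] d)) (18, 17) (ad R (ad R d 1) 3) :=
      adN_ok hN (by decide +kernel) p1
    have r3 : Dt (fZ4 R (R.next^[4] d)) (15, 14) (ad R (ad R d 4) 3) :=
      adN_ok hN (by decide +kernel) p4
    have r2 : Dt (fZ4 R (R.next^[4] d)) (14, 13) (ad R (ad R d 4) 2) :=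
      adN_ok hN (by decide +kernel) p4
    have u2 : Dt (fZ4 R (R.next^[4] d)) (20, 19) (ad R (ad R (ad R d 4) 2) 2) :=
      adN_ok hN (by decide +kernel) r2
    have u3 : Dt (fZ4 R (R.next^[4] d)) (21, 20) (ad R (ad R (ad R d 4) 2) 3) :=
      adN_ok hN (by decide +kernel) r2
    obtain ⟨bs, hbs, hS⟩ := tr_of (S := fun x => ∃ e : G.Dart,
      Dt (fZ4 R (R.next^[4] d)) x e ∧ sz R e ≤ K) (two_of p0 p2) (two_of q2 q3) (two_of p3 r3)
      (two_of u2 u3) hlong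
    have h1 := List.all_eq_true.1 (List.all_eq_true.1 goodZ4 s hs) bs hbs
    exact gain_of hR hg rfl hN labZ4 gapsZ4_ok (cond_of hR hg rfl
      (List.all_eq_true.1 ringZ4 s hs) hbig gapsZ4) bs hS h1
  simp only [shZ4, List.mem_cons, List.not_mem_nil, or_false] at hs
  rcases hs with rfl | rfl | rfl | rfl
  · exact ⟨sZ4a, by simp, _, hg, hgain, hv⟩
  · exact ⟨sZ4b, by simp, _, hg, hgain, hv⟩
  · exact ⟨sZ4c, by simp, _, hg, hgain, hv⟩
  · exact ⟨sZ4d, by simp, _, hg, hgain, hv⟩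

end Pool.Agent.DischB
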