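import Mathlib
import Pool.Agent.Work.MP_392c8e_co_uni.InstZ4
import Pool.Agent.Work.MP_392c8e_co_uni.RingTwo
import Pool.Agent.Work.MP_392c8e_co_uni.PlW

/-!
# The kernel checks for the line z4 of stage C
-/

namespace Pool.Agent.DischB

open Pool.Agent.T392 Pool.Agent.T1Red Pool.Agent.U2Geo Pool.Agent.Once392 Pool.Agent.RingB
  Pool.Agent.Ring392 Pool.Agent.RingTwo

set_option linter.unusedSectionVars false

theorem place_Z4a : placeC sZ4a.R sZ4a.nl sZ4a.co tZ4 (8, 9) gapsZ4 = true := by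
  decide +kernel

theorem place_Z4b : placeC sZ4b.R sZ4b.nl sZ4b.co tZ4 (8, 9) gapsZ4 = true := by
  decide +kernel

theorem place_Z4c : placeC sZ4c.R sZ4c.nl sZ4c.co tZ4 (8, 9) gapsZ4 = true := by
  decide +kernel

theorem place_Z4d : placeC sZ4d.R sZ4d.nl sZ4d.co tZ4 (8, 9) gapsZ4 = true := by
  decide +kernel

theorem placeZ4 : ([sZ4a, sZ4b, sZ4c, sZ4d].all fun s =>
    placeC s.R s.nl s.co tZ4 (8, 9) gapsZ4) = true := by
  simp only [List.all_cons, List.all_nil, Bool.and_true, place_Z4a, place_Z4b, place_Z4c,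
    place_Z4d]

theorem pairZ4 : FastG.pairB gapsZ4 pZ4 = true := by
  decide +kernel

theorem preZ4C : ([sZ4a, sZ4b, sZ4c, sZ4d].all fun s =>
    FastG.preB s.R s.nl s.ps s.co eZ4 4194116 1179903) = true := by
  decide +kernel

theorem sizeZ4C : ([sZ4a, sZ4b, sZ4c, sZ4d].all fun s => s.R.t + s.R.m == 22) = true := by
  decide +kernel

theorem goodCZ4 : ([sZ4a, sZ4b, sZ4c, sZ4d].all fun s => trZ4.all fun bs => (chs bs).all fun sh =>
    goodC s.R s.nl s.ps s.co tZ4 gapsZ4 sh) = true := by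
  rw [List.all_eq_true]
  intro s hs
  rw [List.all_eq_true]
  intro bs hbs
  rw [List.all_eq_true]
  intro sh hsh
  refine FastG.goodC_of (List.all_eq_true.1 preZ4C s hs) pairZ4 ?_
  have h1 := List.all_eq_true.1 sizeZ4C s hs
  rw [beq_iff_eq] at h1
  rw [h1]
  exact List.all_eq_true.1 (List.all_eq_true.1 fastZ4 bs hbs) sh hsh

theorem okZ4 : ([sZ4a, sZ4b, sZ4c, sZ4d].all shOK) = true := by decide +kernel

end Pool.Agent.DischB
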