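import Mathlib
import Pool.Agent.Work.MP_392c8e_co_uni.SideTX
import Pool.Agent.Work.MP_392c8e_co_uni.LineZ4
import Pool.Agent.Work.MP_392c8e_co_uni.RotTabs2

/-!
# The place Z4 in stage C

The ties 2 = 20, 6 = 17 and 3 = 7 are impossible in cyclically 4-edge-connected cubic plane
graphs, far from the faces of length four.
-/

namespace Pool.Agent.U2Geo

open Finset Pool.Agent.Sub392 Pool.T1Side Pool.Agent.T392 Pool.Agent.T1FF Pool.Agent.T1Red

set_option linter.unusedSectionVars false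

/-- Certificates without corners. -/
def tsZ4T : List StepT :=
  [.ne 0 8 (.base (.tri 0 15 9)), .ne 0 10 (.base (.tri 0 9 15)), .ne 0 13 (.base (.tri 14 0 15)),
  .ne 0 21 (.base (.tri 14 0 15)), .ne 1 2 (.base (.tri 1 17 16)), .ne 1 9 (.base (.tri 10 1 16)),
  .ne 1 11 (.base (.tri 10 1 16)), .ne 1 18 (.base (.tri 16 1 17)), .ne 2 3 (.base (.tri 2 17
  18)), .ne 2 10 (.base (.tri 2 17 16)), .ne 2 11 (.base (.tri 2 17 18)), .ne 3 10 (.base (.tri 11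
  3 18)), .ne 3 12 (.base (.tri 11 3 18)), .ne 3 16 (.base (.tri 17 3 18)), .ne 4 9 (.base (.tri 8
  4 12)), .ne 4 10 (.base (.tri 11 4 12)), .ne 4 13 (.base (.tri 8 4 12)), .ne 4 18 (.base (.tri
  11 4 12)), .ne 5 6 (.base (.tri 19 5 20)), .ne 5 8 (.base (.tri 13 5 19)), .ne 5 14 (.base (.tri
  13 5 19)), .ne 5 21 (.base (.tri 19 5 20)), .ne 6 7 (.base (.tri 20 6 21)), .ne 6 13 (.base
  (.tri 6 19 20)), .ne 6 14 (.base (.tri 20 6 21)), .ne 7 13 (.base (.tri 14 7 21)), .ne 7 15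
  (.base (.tri 7 14 21)), .ne 7 19 (.base (.tri 20 7 21)), .ne 8 16 (.base (.tri 9 8 10)), .ne 8
  18 (.base (.tri 8 12 11)), .ne 8 20 (.base (.tri 13 8 19)), .ne 8 21 (.base (.tri 13 8 14)), .ne
  9 17 (.base (.tri 10 9 16)), .ne 9 18 (.base (.tri 10 9 11)), .ne 9 19 (.base (.tri 9 8 13)),
  .ne 9 21 (.base (.tri 14 9 15)), .ne 10 13 (.base (.tri 9 8 10)), .ne 10 14 (.base (.tri 10 9
  15)), .ne 11 13 (.base (.tri 8 12 11)), .ne 11 15 (.base (.tri 10 9 11)), .ne 12 14 (.base (.tri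
  8 12 13)), .ne 12 15 (.base (.tri 8 12 9)), .ne 12 16 (.base (.tri 10 12 11)), .ne 12 17 (.base
  (.tri 11 12 18)), .ne 12 19 (.base (.tri 8 12 13)), .ne 15 16 (.base (.tri 10 9 15)), .ne 15 19
  (.base (.tri 14 13 15)), .ne 15 20 (.base (.tri 14 15 21)), .ne 0 7 (.four 0 21 14 15), .ne 0 11
  (.four 0 10 9 15), .ne 0 12 (.four 0 8 9 15), .ne 0 16 (.four 0 10 9 15), .ne 0 19 (.four 0 13
  14 15), .ne 0 20 (.four 0 21 14 15), .ne 1 3 (.four 1 16 17 18), .ne 1 8 (.four 1 16 10 9), .ne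
  1 12 (.four 1 16 10 11), .ne 1 15 (.four 1 9 10 16), .ne 2 9 (.four 2 17 16 10), .ne 2 12 (.four
  2 17 18 11), .ne 3 4 (.four 3 18 11 12), .ne 3 8 (.four 3 18 11 12), .ne 3 9 (.four 3 10 11 18),
  .ne 4 14 (.four 4 13 8 12), .ne 4 15 (.four 4 9 8 12), .ne 4 16 (.four 4 10 11 12), .ne 4 17
  (.four 4 18 11 12), .ne 4 19 (.four 4 13 8 12), .ne 5 7 (.four 5 19 20 21), .ne 5 9 (.four 5 8
  13 19), .ne 5 12 (.four 5 8 13 19), .ne 5 15 (.four 5 19 13 14), .ne 6 8 (.four 6 13 19 20), .ne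
  6 15 (.four 6 20 21 14), .ne 7 8 (.four 7 21 14 13), .ne 7 9 (.four 7 21 14 15), .ne 8 17 (.four
  8 9 10 16), .ne 9 20 (.four 9 8 13 19), .ne 10 19 (.four 10 9 8 13), .ne 10 21 (.four 10 9 15
  14), .ne 11 14 (.four 11 10 9 15), .ne 11 19 (.four 11 12 8 13), .ne 12 20 (.four 12 8 13 19),
  .ne 12 21 (.four 12 8 13 14), .ne 13 16 (.four 13 8 9 10), .ne 13 18 (.four 13 8 12 11), .ne 14
  16 (.four 14 10 9 15), .ne 15 17 (.four 15 9 10 16), .ne 15 18 (.four 15 9 10 11), .ne 0 4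
  (.seven [0, 12, 8, 9, 15]), .ne 0 5 (.seven [0, 19, 13, 14, 15]), .ne 0 6 (.seven [0, 20, 21,
  14, 15]), .ne 0 17 (.seven [0, 16, 10, 9, 15]), .ne 0 18 (.seven [0, 11, 10, 9, 15]), .ne 1 4
  (.seven [1, 16, 10, 11, 12]), .ne 1 13 (.seven [1, 8, 9, 10, 16]), .ne 1 14 (.seven [1, 16, 10,
  9, 15]), .ne 2 4 (.seven [2, 17, 18, 11, 12]), .ne 2 8 (.seven [2, 17, 16, 10, 9]), .ne 2 15
  (.seven [2, 17, 16, 10, 9]), .ne 3 13 (.seven [3, 8, 12, 11, 18]), .ne 3 15 (.seven [3, 9, 10,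
  11, 18]), .ne 4 20 (.seven [4, 19, 13, 8, 12]), .ne 4 21 (.seven [4, 12, 8, 13, 14]), .ne 5 10
  (.seven [5, 9, 8, 13, 19]), .ne 5 11 (.seven [5, 19, 13, 8, 12]), .ne 6 9 (.seven [6, 8, 13, 19,
  20]), .ne 6 12 (.seven [6, 8, 13, 19, 20]), .ne 7 10 (.seven [7, 9, 15, 14, 21]), .ne 7 12
  (.seven [7, 8, 13, 14, 21]), .ne 10 20 (.seven [10, 9, 8, 13, 19]), .ne 11 20 (.seven [11, 12,
  8, 13, 19]), .ne 11 21 (.seven [11, 10, 9, 15, 14]), .ne 13 17 (.seven [13, 8, 9, 10, 16]), .ne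
  14 17 (.seven [14, 15, 9, 10, 16]), .ne 14 18 (.seven [14, 11, 10, 9, 15]), .ne 16 19 (.seven
  [16, 10, 9, 8, 13]), .ne 16 21 (.seven [16, 10, 9, 15, 14]), .ne 18 19 (.seven [18, 11, 12, 8,
  13]), .ne 0 2 (.seven [0, 17, 16, 10, 9, 15]), .ne 0 3 (.seven [0, 18, 11, 10, 9, 15]), .ne 1 19
  (.seven [1, 16, 10, 9, 8, 13]), .ne 1 21 (.seven [1, 16, 10, 9, 15, 14]), .ne 2 13 (.seven [2,
  8, 9, 10, 16, 17]), .ne 2 14 (.seven [2, 17, 16, 10, 9, 15]), .ne 3 14 (.seven [3, 18, 11, 10,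
  9, 15]), .ne 3 19 (.seven [3, 18, 11, 12, 8, 13]), .ne 4 6 (.seven [4, 12, 8, 13, 19, 20]), .ne
  4 7 (.seven [4, 12, 8, 13, 14, 21]), .ne 5 16 (.seven [5, 10, 9, 8, 13, 19]), .ne 5 18 (.seven
  [5, 11, 12, 8, 13, 19]), .ne 6 10 (.seven [6, 9, 8, 13, 19, 20]), .ne 6 11 (.seven [6, 12, 8,
  13, 19, 20]), .ne 7 11 (.seven [7, 10, 9, 15, 14, 21]), .ne 7 16 (.seven [7, 10, 9, 15, 14,
  21]), .ne 16 20 (.seven [16, 10, 9, 8, 13, 19]), .ne 17 19 (.seven [17, 13, 8, 9, 10, 16]), .ne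
  17 21 (.seven [17, 14, 15, 9, 10, 16]), .ne 18 20 (.seven [18, 11, 12, 8, 13, 19]), .ne 18 21
  (.seven [18, 11, 10, 9, 15, 14]), .ne 1 5 (.seven [1, 16, 10, 9, 8, 13, 19]), .ne 1 7 (.seven
  [1, 16, 10, 9, 15, 14, 21]), .ne 1 20 (.seven [1, 16, 10, 9, 8, 13, 19]), .ne 2 19 (.seven [2,
  17, 16, 10, 9, 8, 13]), .ne 2 21 (.seven [2, 17, 16, 10, 9, 15, 14]), .ne 3 5 (.seven [3, 18,
  11, 12, 8, 13, 19]), .ne 3 20 (.seven [3, 18, 11, 12, 8, 13, 19]), .ne 3 21 (.seven [3, 18, 11,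
  10, 9, 15, 14]), .ne 5 17 (.seven [5, 16, 10, 9, 8, 13, 19]), .ne 6 16 (.seven [6, 10, 9, 8, 13,
  19, 20]), .ne 6 18 (.seven [6, 11, 12, 8, 13, 19, 20]), .ne 7 17 (.seven [7, 16, 10, 9, 15, 14,
  21]), .ne 7 18 (.seven [7, 11, 10, 9, 15, 14, 21]), .ne 17 20 (.seven [17, 16, 10, 9, 8, 13,
  19]), .ne 1 6 (.eight [1, 16, 10, 9, 15, 14, 21, 20] 3 5), .ne 2 5 (.eight [19, 13, 8, 12, 11,
  18, 17, 2] 2 4), .ne 2 7 (.eight [2, 17, 16, 10, 9, 15, 14, 21] 1 1), .ne 3 6 (.eight [20, 19,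
  13, 8, 12, 11, 18, 3] 0 0), .ne 2 20 (.eq 2 17 21 19 6 (.eight [2, 19, 13, 8, 12, 11, 18, 6] 0
  0)), .ne 6 17 (.eq 6 20 16 18 2 (.eight [2, 19, 13, 8, 12, 11, 18, 6] 0 0)), .cn 0 4 (.seven
  [22, 0, 15, 9, 8, 12, 4]), .cn 1 3 (.seven [22, 1, 16, 17, 18, 3]), .cn 5 7 (.seven [22, 5, 19,
  20, 21, 7])]

/-- Certificates of the case a. -/
def xsZ4a : List StepT :=
  [.ne 0 1 (.five 10 9 15 0 16), .ne 4 5 (.five 13 8 12 4 19)]

theorem fin_Z4aT : finT Z4 [] [(2, 6)] comZ4 [] [] [] [(3, 7)] [] tZ4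
    [(10, 9, 15), (13, 8, 12)] (tsZ4T ++ xsZ4a) = true := by
  decide +kernel

/-- Certificates of the case b. -/
def xsZ4b : List StepT :=
  [.ne 0 1 (.five 10 9 15 0 16), .na 0 7 (.five 15 14 21 7 0)]

theorem fin_Z4bT : finT Z4 [] [(2, 6), (4, 5)] comZ4 [(0, 7)] [] [] [(3, 7)] [] tZ4
    [(10, 9, 15), (15, 14, 21)] (tsZ4T ++ xsZ4b) = true := by
  decide +kernel

/-- Certificates of the case c. -/
def xsZ4c : List StepT :=
  [.ne 4 5 (.five 13 8 12 4 19), .na 3 4 (.five 18 11 12 4 3)]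

theorem fin_Z4cT : finT Z4 [] [(2, 6), (0, 1)] comZ4 [(3, 4)] [] [] [(3, 7)] [] tZ4
    [(12, 11, 18), (13, 8, 12)] (tsZ4T ++ xsZ4c) = true := by
  decide +kernel

/-- Certificates of the case d. -/
def xsZ4d : List StepT :=
  [.na 3 4 (.five 18 11 12 4 3), .na 0 7 (.five 15 14 21 7 0)]

theorem fin_Z4dT : finT Z4 [] [(2, 6), (0, 1), (4, 5)] comZ4 [(3, 4), (0, 7)] [] [] [(3, 7)] [] tZ4
    [(12, 11, 18), (15, 14, 21)] (tsZ4T ++ xsZ4d) = true := by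
  decide +kernel

theorem abs_Z4 : absT Z4 [(18, 21)] [] [] [] tZ4 [] tsZ4T (.base (.self 18)) = true := by
  decide +kernel

theorem abs_Z4l : absT Z4 [(3, 7)] [] [] [] ((3, 18, 21, 30) :: tZ4) [] tsZ4T
    (.eight [3, 18, 11, 10, 9, 15, 14, 21] 0 2) = true := by
  decide +kernel

theorem abs_Z4r : absT Z4 [(3, 7)] [] [] [] ((3, 21, 18, 30) :: tZ4) [] tsZ4T
    (.eight [21, 14, 13, 8, 12, 11, 18, 3] 1 1) = true := by
  decide +kernel

theorem rch_Z4 : ((List.range 22).all fun j => (rchN tZ4 22 9 8).elem j || [].elem j) = true := by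
  decide +kernel

variable {V : Type} [Fintype V] [DecidableEq V] {G : SimpleGraph V} [DecidableRel G.Adj]
  {R : Rot G} {d : G.Dart} {S : V → Prop}

/-- The labels of Z4 are far from the faces of length four. -/
theorem n4_Z4 (h : Good R d 5) (g0 : Good R (ac R d 0) 5) (g2 : Good R (ac R d 2) 5)
    (gE : Good R (ac R (ac R d 0) 2) 5) {m : ℕ} (hN : N4 R (m + 8) (fZ4 R d 9)) :
    ∀ k, k < 22 → N4 R m (fZ4 R d k) :=
  n4_tab (tabZ4 h g0 g2 gE) (b := 9) (al := []) (fun _ hj => absurd hj List.not_mem_nil)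
    rch_Z4 hN

section corners

variable (hG : ClsT R S) (hS : ∀ k, k < 22 → S (fZ4 R d k)) (h : Good R d 5)
  (g0 : Good R (ac R d 0) 5) (g2 : Good R (ac R d 2) 5) (gE : Good R (ac R (ac R d 0) 2) 5)

include hG hS h g0 in
/-- The corner of F. -/
theorem cF_Z4T (k : sz R (ac R d 1) ≠ 5) (x y : V) :
    ¬ NB G [fZ4 R d 10, fZ4 R d 9, fZ4 R d 15, x, y] := by
  have := hG.no5a d 1 (hS 10 (by norm_num)) k x y
  rwa [show Y R d 1 = X R (ac R d 0) 4 from (h.ac_last 0 g0 (by norm_num)).symm] at this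

include hG hS h in
/-- The corner of O1. -/
theorem cO1_Z4T (k : sz R (ac R d 4) ≠ 5) (x y : V) :
    ¬ NB G [fZ4 R d 13, fZ4 R d 8, fZ4 R d 12, x, y] := by
  have e : Y R d (4 + 1) = X R (ac R d 0) 2 := (h.Y_mod 5).trans (ac_X2 R d 0).symm
  have := hG.no5b d 4 (by rw [e]; exact hS 13 (by norm_num)) k x y
  rwa [e, show X R d (4 + 1) = X R d 0 from h.X_mod 5] at this

include hG hS g0 gE in
/-- The corner of L. -/
theorem cL_Z4T (k : sz R (ac R (ac R d 0) 3) ≠ 5) (x y : V) :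
    ¬ NB G [fZ4 R d 15, fZ4 R d 14, fZ4 R d 21, x, y] := by
  have := hG.no5a (ac R d 0) 3 (hS 15 (by norm_num)) k x y
  rwa [show Y R (ac R d 0) 3 = X R (ac R (ac R d 0) 2) 4 from
    (g0.ac_last 2 gE (by norm_num)).symm] at this

include hG hS h g2 in
/-- The corner of O2. -/
theorem cO2_Z4T (k : sz R (ac R d 3) ≠ 5) (x y : V) :
    ¬ NB G [fZ4 R d 12, fZ4 R d 11, fZ4 R d 18, x, y] := by
  have := hG.no5a d 3 (hS 12 (by norm_num)) k x y
  rwa [show Y R d 3 = X R (ac R d 2) 4 from (h.ac_last 2 g2 (by norm_num)).symm] at this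

end corners

variable (hG : ClsT R S) (hS : ∀ k, k < 22 → S (fZ4 R d k)) (h : Good R d 5)
  (g0 : Good R (ac R d 0) 5) (g2 : Good R (ac R d 2) 5) (gE : Good R (ac R (ac R d 0) 2) 5)

include hG hS h g0 g2 gE

/-- **The terminals 3 and 7 are different.** -/
theorem ne37_Z4 : fZ4 R d 3 ≠ fZ4 R d 7 := by
  intro h37
  have ht := tabZ4 h g0 g2 gE
  have hN := rotZ4 h g0 g2 gE
  have hF : No5 G [] (fZ4 R d) := fun e he => absurd he List.not_mem_nil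
  have hni : ∀ e ∈ ([] : List (ℕ × ℕ)), fZ4 R d e.1 ≠ fZ4 R d e.2 :=
    fun e he => absurd he List.not_mem_nil
  have hna : ∀ e ∈ ([] : List (ℕ × ℕ)), ¬ G.Adj (fZ4 R d e.1) (fZ4 R d e.2) :=
    fun e he => absurd he List.not_mem_nil
  have huv : fZ4 R d 18 ≠ fZ4 R d 21 := by
    intro e
    refine false_ofT hG ht hN chk_Z4 hS hF (ti := [(18, 21)]) (xj := []) ?_
      (fun e he => absurd he List.not_mem_nil) hni hna abs_Z4
    intro e' he
    rw [List.mem_singleton] at he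
    subst he
    exact e
  have hu : G.Adj (fZ4 R d 3) (fZ4 R d 18) :=
    (ht (18, 11, 17, 3) (by simp [tZ4])).hc.symm
  have hv : G.Adj (fZ4 R d 3) (fZ4 R d 21) := by
    rw [h37]
    exact (ht (21, 14, 20, 7) (by simp [tZ4])).hc.symm
  refine false_tie hG ht hN chk_Z4 hS hF (ti := [(3, 7)]) ?_ hni hna hu hv huv (m := 30)
    (by decide) (by decide +kernel) abs_Z4l abs_Z4r
  intro e he
  rw [List.mem_singleton] at he
  subst he
  exact h37

/-- **The patch, F and O1 have not length five.** -/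
theorem patch_Z4aT (kF : sz R (ac R d 1) ≠ 5) (kO1 : sz R (ac R d 4) ≠ 5) :
    Patch G Z4 [] [(2, 6)] comZ4 [] (fZ4 R d) := by
  refine patch_ofT hG (tabZ4 h g0 g2 gE) (rotZ4 h g0 g2 gE) chk_Z4 hS ?_
    (fun e he => absurd he List.not_mem_nil) (fun e he => absurd he List.not_mem_nil)
    ?_ (fun e he => absurd he List.not_mem_nil) fin_Z4aT
  · intro e he x y
    simp only [List.mem_cons, List.not_mem_nil, or_false] at he
    rcases he with rfl | rfl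
    · exact cF_Z4T hG hS h g0 kF x y
    · exact cO1_Z4T hG hS h kO1 x y
  · intro e he
    rw [List.mem_singleton] at he
    subst he
    exact ne37_Z4 hG hS h g0 g2 gE

/-- **The patch, F and L have not length five.** -/
theorem patch_Z4bT (kF : sz R (ac R d 1) ≠ 5) (kL : sz R (ac R (ac R d 0) 3) ≠ 5) :
    Patch G Z4 [] [(2, 6), (4, 5)] comZ4 [(0, 7)] (fZ4 R d) := by
  refine patch_ofT hG (tabZ4 h g0 g2 gE) (rotZ4 h g0 g2 gE) chk_Z4 hS ?_
    (fun e he => absurd he List.not_mem_nil) (fun e he => absurd he List.not_mem_nil)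
    ?_ (fun e he => absurd he List.not_mem_nil) fin_Z4bT
  · intro e he x y
    simp only [List.mem_cons, List.not_mem_nil, or_false] at he
    rcases he with rfl | rfl
    · exact cF_Z4T hG hS h g0 kF x y
    · exact cL_Z4T hG hS g0 gE kL x y
  · intro e he
    rw [List.mem_singleton] at he
    subst he
    exact ne37_Z4 hG hS h g0 g2 gE

/-- **The patch, O2 and O1 have not length five.** -/
theorem patch_Z4cT (kO2 : sz R (ac R d 3) ≠ 5) (kO1 : sz R (ac R d 4) ≠ 5) :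
    Patch G Z4 [] [(2, 6), (0, 1)] comZ4 [(3, 4)] (fZ4 R d) := by
  refine patch_ofT hG (tabZ4 h g0 g2 gE) (rotZ4 h g0 g2 gE) chk_Z4 hS ?_
    (fun e he => absurd he List.not_mem_nil) (fun e he => absurd he List.not_mem_nil)
    ?_ (fun e he => absurd he List.not_mem_nil) fin_Z4cT
  · intro e he x y
    simp only [List.mem_cons, List.not_mem_nil, or_false] at he
    rcases he with rfl | rfl
    · exact cO2_Z4T hG hS h g2 kO2 x y
    · exact cO1_Z4T hG hS h kO1 x y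
  · intro e he
    rw [List.mem_singleton] at he
    subst he
    exact ne37_Z4 hG hS h g0 g2 gE

/-- **The patch, O2 and L have not length five.** -/
theorem patch_Z4dT (kO2 : sz R (ac R d 3) ≠ 5) (kL : sz R (ac R (ac R d 0) 3) ≠ 5) :
    Patch G Z4 [] [(2, 6), (0, 1), (4, 5)] comZ4 [(3, 4), (0, 7)] (fZ4 R d) := by
  refine patch_ofT hG (tabZ4 h g0 g2 gE) (rotZ4 h g0 g2 gE) chk_Z4 hS ?_
    (fun e he => absurd he List.not_mem_nil) (fun e he => absurd he List.not_mem_nil)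
    ?_ (fun e he => absurd he List.not_mem_nil) fin_Z4dT
  · intro e he x y
    simp only [List.mem_cons, List.not_mem_nil, or_false] at he
    rcases he with rfl | rfl
    · exact cO2_Z4T hG hS h g2 kO2 x y
    · exact cL_Z4T hG hS g0 gE kL x y
  · intro e he
    rw [List.mem_singleton] at he
    subst he
    exact ne37_Z4 hG hS h g0 g2 gE

/-- **The place Z4 in stage C.**  It exists unless F and O2 have length five, or O1 and L have
length five. -/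
theorem good_Z4T (k1 : ¬ (sz R (ac R d 1) = 5 ∧ sz R (ac R d 3) = 5))
    (k2 : ¬ (sz R (ac R d 4) = 5 ∧ sz R (ac R (ac R d 0) 3) = 5)) :
    ∃ s ∈ [sZ4a, sZ4b, sZ4c, sZ4d], Uni91.Good (s.pl (fZ4 R d)) G := by
  by_cases c1 : sz R (ac R d 1) = 5
  · have c3 : sz R (ac R d 3) ≠ 5 := fun h3 => k1 ⟨c1, h3⟩
    by_cases c4 : sz R (ac R d 4) = 5
    · have c5 : sz R (ac R (ac R d 0) 3) ≠ 5 := fun h5 => k2 ⟨c4, h5⟩
      exact ⟨sZ4d, by simp,
        good_of ext_Z4d data_Z4d psOk_Z4d (patch_Z4dT hG hS h g0 g2 gE c3 c5)⟩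
    · exact ⟨sZ4c, by simp,
        good_of ext_Z4c data_Z4c psOk_Z4c (patch_Z4cT hG hS h g0 g2 gE c3 c4)⟩
  · by_cases c4 : sz R (ac R d 4) = 5
    · have c5 : sz R (ac R (ac R d 0) 3) ≠ 5 := fun h5 => k2 ⟨c4, h5⟩
      exact ⟨sZ4b, by simp,
        good_of ext_Z4b data_Z4b psOk_Z4b (patch_Z4bT hG hS h g0 g2 gE c1 c5)⟩
    · exact ⟨sZ4a, by simp,
        good_of ext_Z4a data_Z4a psOk_Z4a (patch_Z4aT hG hS h g0 g2 gE c1 c4)⟩

end Pool.Agent.U2Geo
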