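import Mathlib
import Pool.Agent.Work.MP_392c8e_co_uni.InstZ4K
import Pool.Agent.Work.MP_392c8e_co_uni.PatchZ4T
import Pool.Agent.Work.MP_392c8e_co_uni.RingTwoB
import Pool.Agent.Work.MP_392c8e_co_uni.PlW
import Pool.Agent.Work.MP_392c8e_co_uni.LabC
import Pool.Agent.Work.MP_392c8e_co_uni.GeoC4d

/-!
# The line z4 of stage C

The place Z4 (four faces of length five in a zigzag) in cyclically 4-edge-connected cubic plane
graphs, far from the faces of length four.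
-/

namespace Pool.Agent.DischB

open Finset Pool.Agent.Sub392 Pool.T1Side Pool.Agent.T392 Pool.Agent.Disch392 Pool.Agent.T1FF
  Pool.Agent.T1Red Pool.Agent.U2Geo Pool.Agent.Once392 Pool.Agent.RingB Pool.Agent.Ring392
  Pool.Agent.RingTwo
open Pool.Agent.Uni392 (Place)
open Pool.Agent.Uni91 (GainP)

set_option linter.unusedSectionVars false

variable {V : Type} [Fintype V] [DecidableEq V] {G : SimpleGraph V} [DecidableRel G.Adj]
  {R : Rot G} {K : ℕ}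

/-- The vertex of the dart. -/
theorem memZ4 {s : Shape} (hs : s ∈ [sZ4a, sZ4b, sZ4c, sZ4d]) {d : G.Dart} (h : sz R d = 5) :
    d.fst ∈ (s.pl (fZ4 R (R.next^[4] d))).Vert := by
  simp only [List.mem_cons, List.not_mem_nil, or_false] at hs
  rcases hs with rfl | rfl | rfl | rfl
  all_goals
    refine ⟨9, ⟨?_, List.not_mem_nil, fun p hp => absurd hp List.not_mem_nil⟩, fZ4_mem h⟩
    show 9 < 8 + 14
    norm_num

/-- **The ring side of the line z4.** -/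
theorem gainC_z4 (hR : C4 R) (d : G.Dart) (h : Chain R d) (hE : nb R (ad R d 4) 2 = 5)
    (hlong : One4 (K ≤ nb R d 0 ∧ K ≤ nb R d 2)
      (K ≤ nb R (ad R d 1) 2 ∧ K ≤ nb R (ad R d 1) 3)
      (K ≤ nb R d 3 ∧ K ≤ nb R (ad R d 4) 3)
      (K ≤ nb R (ad R (ad R d 4) 2) 2 ∧ K ≤ nb R (ad R (ad R d 4) 2) 3))
    {s : Shape} (hs : s ∈ [sZ4a, sZ4b, sZ4c, sZ4d])
    (hg : Uni91.Good (s.pl (fZ4 R (R.next^[4] d))) G) :
    GainP G (s.pl (fZ4 R (R.next^[4] d))) (10 * (K + 1)) := by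
  have h3 := hR.cub
  obtain ⟨c1, c2, c3⟩ := chain_data h
  have a0 : ac R (R.next^[4] d) 0 = ad R d 4 := ac_iter R d 4 0
  have eE : sz R (ac R (ac R (R.next^[4] d) 0) 2) = 5 := by rw [sz_ac, a0]; exact hE
  have hN : RotOk R (fZ4 R (R.next^[4] d)) tZ4 :=
    rotZ4 (good_cub h3 c1) (good_cub h3 c2) (good_cub h3 c3) (good_cub h3 eE)
  have hd := dt_fZ4 h.p2
  have p0 : Dt (fZ4 R (R.next^[4] d)) (10, 9) (ad R d 0) := adN_ok hN (by decide +kernel) hd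
  have p1 : Dt (fZ4 R (R.next^[4] d)) (11, 10) (ad R d 1) := adN_ok hN (by decide +kernel) hd
  have p2 : Dt (fZ4 R (R.next^[4] d)) (12, 11) (ad R d 2) := adN_ok hN (by decide +kernel) hd
  have p3 : Dt (fZ4 R (R.next^[4] d)) (8, 12) (ad R d 3) := adN_ok hN (by decide +kernel) hd
  have p4 : Dt (fZ4 R (R.next^[4] d)) (9, 8) (ad R d 4) := adN_ok hN (by decide +kernel) hd
  have q2 : Dt (fZ4 R (R.next^[4] d)) (17, 16) (ad R (ad R d 1) 2) :=
    adN_ok hN (by decide +kernel) p1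
  have q3 : Dt (fZ4 R (R.next^[4] d)) (18, 17) (ad R (ad R d 1) 3) :=
    adN_ok hN (by decide +kernel) p1
  have r3 : Dt (fZ4 R (R.next^[4] d)) (15, 14) (ad R (ad R d 4) 3) :=
    adN_ok hN (by decide +kernel) p4
  have r2 : Dt (fZ4 R (R.next^[4] d)) (14, 13) (ad R (ad R d 4) 2) :=
    adN_ok hN (by decide +kernel) p4
  have u2 : Dt (fZ4 R (R.next^[4] d)) (20, 19) (ad R (ad R (ad R d 4) 2) 2) :=
    adN_ok hN (by decide +kernel) r2
  have u3 : Dt (fZ4 R (R.next^[4] d)) (21, 20) (ad R (ad R (ad R d 4) 2) 3) :=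
    adN_ok hN (by decide +kernel) r2
  obtain ⟨bs, hbs, hS⟩ := tr_of (S := fun x => ∃ e : G.Dart,
    Dt (fZ4 R (R.next^[4] d)) x e ∧ sz R e ≤ K) (two_of p0 p2) (two_of q2 q3) (two_of p3 r3)
    (two_of u2 u3) hlong
  have h1 := List.all_eq_true.1 (List.all_eq_true.1 goodCZ4 s hs) bs hbs
  exact gainC (q := s.pl (fZ4 R (R.next^[4] d))) hR hg rfl hN
    (List.all_eq_true.1 placeZ4 s hs) bs hS h1

/-- **The line z4 of stage C.** -/
theorem lineC_z4 (hR : C4 R) {r : ℕ} (hr : 20 ≤ r) (hrK : 10 * (K + 1) ≤ r) (d : G.Dart)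
    (hN : N4 R 60 d.fst) (h : Chain R d) (hE : nb R (ad R d 4) 2 = 5)
    (k1 : ¬ (nb R d 0 = 5 ∧ nb R d 2 = 5)) (k2 : ¬ (nb R d 3 = 5 ∧ nb R (ad R d 4) 3 = 5))
    (hlong : One4 (K ≤ nb R d 0 ∧ K ≤ nb R d 2)
      (K ≤ nb R (ad R d 1) 2 ∧ K ≤ nb R (ad R d 1) 3)
      (K ≤ nb R d 3 ∧ K ≤ nb R (ad R d 4) 3)
      (K ≤ nb R (ad R (ad R d 4) 2) 2 ∧ K ≤ nb R (ad R (ad R d 4) 2) 3)) : PP R r d.fst := by
  have h3 := hR.cub
  obtain ⟨c1, c2, c3⟩ := chain_data h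
  have a0 : ac R (R.next^[4] d) 0 = ad R d 4 := ac_iter R d 4 0
  have eE : sz R (ac R (ac R (R.next^[4] d) 0) 2) = 5 := by rw [sz_ac, a0]; exact hE
  have eF : sz R (ac R (R.next^[4] d) 1) = nb R d 0 := by
    rw [ac_iter, sz_ad, show 4 + 1 = 0 + 5 from rfl, nb_per R h.p2]
  have eO2 : sz R (ac R (R.next^[4] d) 3) = nb R d 2 := by
    rw [ac_iter, sz_ad, show 4 + 3 = 2 + 5 from rfl, nb_per R h.p2]
  have eO1 : sz R (ac R (R.next^[4] d) 4) = nb R d 3 := by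
    rw [ac_iter, sz_ad, show 4 + 4 = 3 + 5 from rfl, nb_per R h.p2]
  have eL : sz R (ac R (ac R (R.next^[4] d) 0) 3) = nb R (ad R d 4) 3 := by rw [sz_ac, a0]
  obtain ⟨s, hs, hg⟩ := good_Z4T hR.clsT
    (n4_Z4 (good_cub h3 c1) (good_cub h3 c2) (good_cub h3 c3) (good_cub h3 eE) (m := 8)
      (by rw [fZ4_mem h.p2]; exact hN.mono (by norm_num)))
    (good_cub h3 c1) (good_cub h3 c2) (good_cub h3 c3) (good_cub h3 eE)
    (by rw [eF, eO2]; exact k1) (by rw [eO1, eL]; exact k2)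
  have hok : ∀ x ∈ [sZ4a, sZ4b, sZ4c, sZ4d], shOK x = true := List.all_eq_true.1 okZ4
  exact ppW (hok s hs) hr hrK ⟨_, hg, gainC_z4 hR d h hE hlong hs hg, memZ4 hs h.p2⟩

end Pool.Agent.DischB
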