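import Mathlib
import Pool.Agent.Work.MP_392c8e_co_uni.CertF55
import Pool.Agent.Work.MP_392c8e_co_uni.ZHex

/-!
# The hexagon of the place of the line `l2`
-/

namespace Pool.Agent.U2Geo

open Pool.T1Side Pool.Agent.T1Red Pool.Agent.T1FF Pool.Agent.Sub392 Pool.Agent.T392
open Pool.Agent.Disch392 Pool.Agent.Uni392

set_option linter.unusedSectionVars false

variable {V : Type} [Fintype V] [DecidableEq V] {G : SimpleGraph V} [DecidableRel G.Adj]
  {R : Rot G}

/-- The face across the edge `3` of the first face of the patch F55, if it has length six. -/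
theorem C5.zhex_F55 (h : C5 R) {d : G.Dart} (g : sz R d = 5) (k : sz R (ac R d 3) = 6)
    (P : Uni91.Good (plc F55 [] F55u_ps [] F55u_com [] (fA R d)) G) :
    ZHex R (plc F55 [] F55u_ps [] F55u_com [] (fA R d)) (R.next^[5] (ac R d 3)) := by
  have hg := h.good g
  have hk := h.good k
  have x0 : X R (ac R d 3) 0 = fA R d 10 := ac_X0 R d 3
  have x1 : X R (ac R d 3) 1 = fA R d 9 := ac_X1 R d 3
  have x2 : X R (ac R d 3) 2 = fA R d 1 := ac_X2 R d 3
  have x5 : X R (ac R d 3) 5 = fA R d 2 := hg.ac_last 3 hk (by norm_num)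
  have x6 : X R (ac R d 3) 6 = X R (ac R d 3) 0 := hk.X_mod 6
  have x7 : X R (ac R d 3) 7 = X R (ac R d 3) 1 := hk.X_mod 7
  have x8 : X R (ac R d 3) 8 = X R (ac R d 3) 2 := hk.X_mod 8
  have x9 : X R (ac R d 3) 9 = X R (ac R d 3) 3 := hk.X_mod 9
  have x10 : X R (ac R d 3) 10 = X R (ac R d 3) 4 := hk.X_mod 10
  have it : ∀ i, (R.next^[i] (R.next^[5] (ac R d 3))).fst = X R (ac R d 3) (i + 5) := by
    intro i
    rw [← Function.iterate_add_apply, Equiv.Perm.iterate_eq_pow]
    rfl
  have same : ∀ {i j : ℕ}, Same [] i j → i = j := by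
    rintro i j (h1 | h1 | h1)
    · exact h1
    · exact absurd h1 List.not_mem_nil
    · exact absurd h1 List.not_mem_nil
  have real : ∀ i, i < 14 → Real F55 [] [] i := fun i hi =>
    ⟨hi, List.not_mem_nil, fun p hp => absurd hp List.not_mem_nil⟩
  have inj : ∀ i j, i < 14 → j < 14 → fA R d i = fA R d j → i = j := fun i j hi hj hij =>
    same (P.ok.inj i j (real i hi) (real j hj) hij)
  have nin : ∀ i, i < 6 → ¬ Int F55 (fA R d) (fA R d i) := by
    rintro i hi ⟨j, hj, hj', hij⟩
    have e1 : F55.t = 6 := rfl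
    have e2 : F55.t + F55.m = 14 := rfl
    have := inj j i (by omega) (by omega) hij
    omega
  -- an interior neighbour of a terminal
  have nbt : ∀ i k w, i < 6 → (∀ j, 6 ≤ j → j < 14 → ∀ l, ((j, l) ∈ F55.ed ∨ (l, j) ∈ F55.ed) →
      l = i → j = k) → G.Adj w (fA R d i) → Int F55 (fA R d) w → w = fA R d k := by
    rintro i k w hi hk' hw ⟨j, hj, hj', rfl⟩
    have e1 : F55.t = 6 := rfl
    have e2 : F55.t + F55.m = 14 := rfl
    have hP : ∀ w, G.Adj (fA R d j) w → ∃ l, ((j, l) ∈ F55.ed ∨ (l, j) ∈ F55.ed) ∧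
        l ∉ ([] : List ℕ) ∧ w = fA R d l := P.ok.nbr j hj hj'
    obtain ⟨l, hl, -, hil⟩ := hP _ hw
    have hl14 : l < 14 := by
      have hall : ∀ e ∈ F55.ed, e.1 < 14 ∧ e.2 < 14 := by decide
      rcases hl with hl | hl
      · exact (hall _ hl).2
      · exact (hall _ hl).1
    have h1 := inj i l (by omega) hl14 hil
    rw [hk' j (by omega) (by omega) l hl h1.symm]
  have t1 := nbt 1 9 (X R (ac R d 3) 3) (by norm_num) (by
    intro j hj hj' l hl h1
    subst h1
    have hall : ∀ j < 14, 6 ≤ j → ((j, 1) ∈ F55.ed ∨ (1, j) ∈ F55.ed) → j = 9 := by decide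
    exact hall j hj' hj hl)
  have t2 := nbt 2 10 (X R (ac R d 3) 4) (by norm_num) (by
    intro j hj hj' l hl h1
    subst h1
    have hall : ∀ j < 14, 6 ≤ j → ((j, 2) ∈ F55.ed ∨ (2, j) ∈ F55.ed) → j = 10 := by decide
    exact hall j hj' hj hl)
  refine ⟨?_, Or.inr ?_, ?_⟩
  · rw [sz_iter]
    exact k
  · have i0 := it 0
    have i1 := it 1
    have i2 := it 2
    have i3 := it 3
    simp only [Function.iterate_zero, id, Function.iterate_one] at i0 i1
    rw [i0, i1, i2, i3]
    norm_num only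
    rw [x5, x6, x7, x8, x0, x1, x2]
    show _ ∈ (F55u_ps.map fun q => (fA R d q.1, q.2.1.map (fA R d), fA R d q.2.2))
    simp [F55u_ps]
  · rintro i hi
    rw [it i]
    show ¬ Int F55 (fA R d) _
    rcases hi with rfl | rfl | rfl | rfl
    · norm_num only
      rw [x5]
      exact nin 2 (by norm_num)
    · norm_num only
      rw [x8, x2]
      exact nin 1 (by norm_num)
    · norm_num only
      rw [x9]
      intro hI
      have h1 := (hk.three (by norm_num) 2).1.1
      norm_num only at h1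
      have h2 := hk.adjX 2
      norm_num only at h2
      rw [x2] at h2
      apply h1
      rw [t1 h2.symm hI, x7, x1]
    · norm_num only
      rw [x10]
      intro hI
      have h1 := (hk.three (by norm_num) 5).1.1
      norm_num only at h1
      have h2 := hk.adjX 4
      norm_num only at h2
      rw [x5] at h2
      apply h1
      rw [x10, t2 h2 hI, x6, x0]

/-- **The hexagon of the place of the line `l2`.** -/
theorem C5.zhex_l2 (h : C5 R) (h13 : 13 ≤ Fintype.card V) {d : G.Dart} (hn : NoC R d)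
    (h5 : sz R d = 5) (h0 : nb R d 0 = 5) (h2 : nb R d 2 = 6) :
    ZHex R (plc F55 [] F55u_ps [] F55u_com [] (fA (mir R) d.symm))
      (prev R (prev R ((mir R).next^[5] (ac (mir R) d.symm 3)).symm)) := by
  have h' := mir_C5 h
  have e0 : sz (mir R) (ac (mir R) d.symm 0) = 5 := by
    rw [ac_ad, sz_ad, nb_mir R h5 (by norm_num), Nat.sub_zero]
    have := nb_per R h5 0
    rw [zero_add] at this
    rw [this, h0]
  have e3 : sz (mir R) (ac (mir R) d.symm 3) = 6 := by
    rw [ac_ad, sz_ad, nb_mir R h5 (by norm_num)]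
    exact h2
  exact (h'.zhex_F55 (by rw [sz_mir_symm, h5]) e3 (h.good_l2 h13 hn h5 h0 h2)).mir

end Pool.Agent.U2Geo
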