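import Mathlib
import Pool.Agent.Work.MP_392c8e_co_uni.L2Hex

/-!
# The place F55 of the mirror image, with local hypotheses
-/

namespace Pool.Agent.U2Geo

open Pool.T1Side Pool.Agent.T1Red Pool.Agent.T1FF Pool.Agent.Sub392 Pool.Agent.T392
open Pool.Agent.Disch392 Pool.Agent.Uni392

set_option linter.unusedSectionVars false

variable {V : Type} [Fintype V] [DecidableEq V] {G : SimpleGraph V} [DecidableRel G.Adj]
  {R : Rot G}

/-- The place F55 of the mirror image: two adjacent faces of length five; the faces across the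
edges `2` of the two faces have not length five. -/
theorem C5.good_l2B (h : C5 R) (h13 : 13 ≤ Fintype.card V) {d : G.Dart} (h5 : sz R d = 5)
    (h0 : nb R d 0 = 5) (h2 : nb R d 2 ≠ 5) (h2' : nb R (ad R d 0) 2 ≠ 5) :
    Uni91.Good (plc F55 [] F55u_ps [] F55u_com [] (fA (mir R) d.symm)) G := by
  have h' := mir_C5 h
  have e0 : sz (mir R) (ac (mir R) d.symm 0) = 5 := by
    rw [ac_ad, sz_ad, nb_mir R h5 (by norm_num), Nat.sub_zero]
    have := nb_per R h5 0
    rw [zero_add] at this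
    rw [this, h0]
  have e3 : sz (mir R) (ac (mir R) d.symm 3) ≠ 5 := by
    rw [ac_ad, sz_ad, nb_mir R h5 (by norm_num)]
    exact h2
  refine h'.good_F55 h13 (by rw [sz_mir_symm, h5]) e0 e3 ?_
  have hs : sz R (ad R d 0) = 5 := h0
  have e1 : ac (mir R) d.symm 0 = (ad R d 0).symm := by
    rw [ac_ad]
    rfl
  rw [e1, ac_ad, sz_ad, nb_mir R hs (by norm_num)]
  exact h2'

/-- The hexagon of this place. -/
theorem C5.zhex_l2B (h : C5 R) (h13 : 13 ≤ Fintype.card V) {d : G.Dart} (h5 : sz R d = 5)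
    (h0 : nb R d 0 = 5) (h2 : nb R d 2 = 6) (h2' : nb R (ad R d 0) 2 ≠ 5) :
    ZHex R (plc F55 [] F55u_ps [] F55u_com [] (fA (mir R) d.symm))
      (prev R (prev R ((mir R).next^[5] (ac (mir R) d.symm 3)).symm)) := by
  have h' := mir_C5 h
  have e3 : sz (mir R) (ac (mir R) d.symm 3) = 6 := by
    rw [ac_ad, sz_ad, nb_mir R h5 (by norm_num)]
    exact h2
  exact (h'.zhex_F55 (by rw [sz_mir_symm, h5]) e3
    (h.good_l2B h13 h5 h0 (by rw [h2]; norm_num) h2')).mir

/-- The place F55: two adjacent faces of length five; the faces across the edges `3` of the two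
faces have not length five. -/
theorem C5.good_F55B (h : C5 R) (h13 : 13 ≤ Fintype.card V) {d : G.Dart} (h5 : sz R d = 5)
    (h0 : nb R d 0 = 5) (h3 : nb R d 3 ≠ 5) (h3' : nb R (ad R d 0) 3 ≠ 5) :
    Uni91.Good (plc F55 [] F55u_ps [] F55u_com [] (fA R d)) G := by
  refine h.good_F55 h13 h5 ?_ ?_ ?_
  · rw [ac_ad, sz_ad]
    exact h0
  · rw [ac_ad, sz_ad]
    exact h3
  · rw [ac_ad, ac_ad, sz_ad]
    exact h3'

/-- The hexagon of this place. -/
theorem C5.zhex_F55B (h : C5 R) (h13 : 13 ≤ Fintype.card V) {d : G.Dart} (h5 : sz R d = 5)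
    (h0 : nb R d 0 = 5) (h3 : nb R d 3 = 6) (h3' : nb R (ad R d 0) 3 ≠ 5) :
    ZHex R (plc F55 [] F55u_ps [] F55u_com [] (fA R d)) (R.next^[5] (ac R d 3)) := by
  refine h.zhex_F55 h5 ?_ (h.good_F55B h13 h5 h0 (by rw [h3]; norm_num) h3')
  rw [ac_ad, sz_ad]
  exact h3

end Pool.Agent.U2Geo
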