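import Mathlib
import Pool.Agent.Work.MP_392c8e_co_uni.L2B
import Pool.Agent.Work.MP_392c8e_co_uni.LinesB
import Pool.Agent.Work.MP_392c8e_co_uni.RingShB
import Pool.Agent.Work.MP_392c8e_co_uni.RingBP
import Pool.Agent.Work.MP_392c8e_co_uni.CertFlower

/-!
# Stage B: the flower and the line `l2`
-/

namespace Pool.Agent.U2Geo

open Pool.T1Side Pool.Agent.T1Red Pool.Agent.T1FF Pool.Agent.Sub392 Pool.Agent.T392
open Pool.Agent.Disch392 Pool.Agent.Uni392 Pool.Agent.DischB Pool.Agent.RingB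
open Pool.Agent.Once392
open Pool.Agent.Uni91 (GainP JoinP)

set_option linter.unusedSectionVars false

variable {V : Type} [Fintype V] [DecidableEq V] {G : SimpleGraph V} [DecidableRel G.Adj]
  {R : Rot G}

/-! ### The flower -/

theorem goodB_Flower : goodB Flower [] [] [] [] = true := by
  decide +kernel

/-- **The flower, stage B.** All outer faces may be long. -/
theorem C5.catB_Flower (h : C5 R) (h13 : 13 ≤ Fintype.card V) {d : G.Dart} (K : ℕ)
    (g : sz R d = 5) (g' : ∀ i < 5, nb R d i = 5) :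
    CatB G K (plc Flower [] [] [] [] [] (ffl R d)) :=
  ⟨h.good_Flower h13 g g', rfl, [], fun _ he => absurd he List.not_mem_nil, goodB_Flower⟩

theorem C5.gainP_Flower (h : C5 R) (h13 : 13 ≤ Fintype.card V) {d : G.Dart} (K : ℕ)
    (g : sz R d = 5) (g' : ∀ i < 5, nb R d i = 5) :
    GainP G (plc Flower [] [] [] [] [] (ffl R d)) (10 * (K + 1)) :=
  (h.catB_Flower h13 K g g').gainP

theorem real_Flower : Real Flower [] [] 5 := ⟨by decide, by decide, by decide⟩

/-- The vertex of the dart belongs to the place. -/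
theorem mem_Flower (d : G.Dart) :
    d.fst ∈ (plc Flower [] [] [] [] [] (ffl R d)).Vert :=
  ⟨5, real_Flower, rfl⟩

/-! ### The line l2 -/

/-- The gaps of F55. -/
def gapA : List Gp := [
  ⟨(8, 0), [(8, 6), (6, 13)], (13, 5), [(8, 6)]⟩,
  ⟨(13, 5), [(13, 12)], (12, 4), [(13, 12), (6, 7)]⟩,
  ⟨(12, 4), [(12, 11)], (11, 3), [(12, 11), (6, 7)]⟩,
  ⟨(11, 3), [(11, 7), (7, 10)], (10, 2), [(7, 10)]⟩,
  ⟨(10, 2), [(10, 9)], (9, 1), [(10, 9)]⟩,
  ⟨(9, 1), [(9, 8)], (8, 0), [(9, 8)]⟩]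

theorem gps_A : gps tA1 (7, 6) gapA = true := by
  decide +kernel

theorem labB_A : labB F55 [] tA1 = true := by
  decide +kernel

theorem intZ_F55 : intZ F55 F55u_ps [] = true := by
  decide +kernel

/-- The two faces across the edges of the second face may be long. -/
theorem connT_F55 : connT F55 [] F55u_ps (gsOf tA1 gapA (shA [] [])) = true := by
  decide +kernel

theorem nb_mir_lt {K : ℕ} {d : G.Dart} (h5 : sz R d = 5) (hb : ∀ i < 5, nb R d i < K) :
    ∀ i < 5, nb (mir R) d.symm i < K := by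
  intro i hi
  rw [nb_mir R h5 (by omega)]
  rcases Nat.eq_zero_or_pos i with rfl | h0
  · have := nb_per R h5 0
    rw [zero_add] at this
    rw [Nat.sub_zero, this]
    exact hb 0 (by norm_num)
  · exact hb (5 - i) (by omega)

/-- **F55, stage B**: one of the two faces has no long neighbour. -/
theorem C5.catC_F55 (h : C5 R) {d : G.Dart} {K : ℕ} (hb : Bf R K d) (h0 : nb R d 0 = 5)
    (hg : Uni91.Good (plc F55 [] F55u_ps [] F55u_com [] (fA R d)) G) :
    CatC G K (plc F55 [] F55u_ps [] F55u_com [] (fA R d)) := by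
  have h0' : sz R (ac R d 0) = 5 := h0
  have hN : RotOk R (fA R d) tA1 := rotA (h.good hb.1) (h.good h0')
  refine ⟨hg, rfl, _, gaps_of h hg rfl hN labB_A gps_A (Or.inl (by decide)) (sh := shA [] []) ?_,
    connT_F55⟩
  exact shOk_A hN hb (by simp)

theorem real_F55 : Real F55 [] [] 6 := ⟨by decide, by decide, by decide⟩

/-- **The line l2, stage B.** -/
theorem C5.catC_l2 (h : C5 R) (h13 : 13 ≤ Fintype.card V) {d : G.Dart} {K : ℕ}
    (hs : Snd R K d) (hp : PairS R d) (h2 : nb R d 2 = 6) :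
    CatC G K (plc F55 [] F55u_ps [] F55u_com [] (fA (mir R) d.symm)) ∧
      ZHex R (plc F55 [] F55u_ps [] F55u_com [] (fA (mir R) d.symm))
        (prev R (prev R ((mir R).next^[5] (ac (mir R) d.symm 3)).symm)) ∧
      d.fst ∈ (plc F55 [] F55u_ps [] F55u_com [] (fA (mir R) d.symm)).Vert := by
  have h5 : sz R d = 5 := hp.s
  have h0 : nb R d 0 = 5 := hp.s0
  have hz := h.zhex_l2B h13 h5 h0 h2 hp.n02
  have hg := h.good_l2B h13 h5 h0 hp.n2 hp.n02
  refine ⟨?_, hz, 6, real_F55, fA_mir_six R d⟩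
  refine (mir_C5 h).catC_F55 ⟨by rw [sz_mir_symm, h5], nb_mir_lt h5 hs.1.2⟩ ?_ hg
  rw [nb_mir R h5 (by norm_num), Nat.sub_zero]
  have := nb_per R h5 0
  rw [zero_add] at this
  rw [this, h0]

/-- The terminals of this place are joined. -/
theorem C5.joinP_l2 (h : C5 R) (h13 : 13 ≤ Fintype.card V) {d : G.Dart} {K : ℕ}
    (hs : Snd R K d) (hp : PairS R d) (h2 : nb R d 2 = 6) :
    JoinP G (plc F55 [] F55u_ps [] F55u_com [] (fA (mir R) d.symm)) (20 * (K + 1)) := by
  obtain ⟨⟨hg, hm, gs, hG, h1⟩, -, -⟩ := h.catC_l2 h13 hs hp h2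
  exact joinP_of hg hm hG h1 intZ_F55

end Pool.Agent.U2Geo
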