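import Mathlib
import Pool.Agent.Work.MP_392c8e_co_uni.F55T
import Pool.Agent.Work.MP_392c8e_co_uni.FlowerT
import Pool.Agent.Work.MP_392c8e_co_uni.LineBL2
import Pool.Agent.Work.MP_392c8e_co_uni.RingTwoB
import Pool.Agent.Work.MP_392c8e_co_uni.GeoC4d
import Pool.Agent.Work.MP_392c8e_co_uni.PlW

/-!
# Stage C: the lines `flower` and `l2`
-/

set_option autoImplicit false

namespace Pool.Agent.U2Geo

open Finset Pool.T1Side Pool.Agent.T1Red Pool.Agent.T1FF Pool.Agent.Sub392 Pool.Agent.T392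
open Pool.Agent.Disch392 Pool.Agent.Uni392 Pool.Agent.DischB Pool.Agent.RingB
open Pool.Agent.Once392 Pool.Agent.Ring392 Pool.Agent.RingTwo
open Pool.Agent.Uni91 (GainP JoinP)

set_option linter.unusedSectionVars false

/-- The shape of the flower. -/
def cFl : Shape := ⟨Flower, [], [], [], [], []⟩

/-- The shape of two faces of length five. -/
def cF55 : Shape := ⟨F55, [], F55u_ps, [], F55u_com, []⟩

theorem ok_cFl : shOK cFl = true := by decide +kernel

theorem ok_cF55 : shOK cF55 = true := by decide +kernel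

/-- The short outer faces. -/
def bsF55 : List (List (ℕ × ℕ)) := [[(9, 8)], [(10, 9)], [(7, 10)], [(8, 6)]]

theorem place_F55 : placeC F55 [] [] tA1 (7, 6) gapA = true := by decide +kernel

theorem conn_F55 : ((chs bsF55).all fun sh => connC F55 [] F55u_ps tA1 gapA sh) = true := by
  decide +kernel

variable {V : Type} [Fintype V] [DecidableEq V] {G : SimpleGraph V} [DecidableRel G.Adj]
  {R : Rot G} {K : ℕ}

/-- **The line flower, stage C.** -/
theorem lineC_flower (hR : C4 R) {r : ℕ} (hr : 20 ≤ r) (hrK : 10 * (K + 1) ≤ r) (d : G.Dart)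
    (hN : N4 R 60 d.fst) (g : sz R d = 5) (g' : ∀ i < 5, nb R d i = 5) : PP R r d.fst := by
  have hg : Uni91.Good (cFl.pl (ffl R d)) G :=
    good_FlowerT hR.clsT (n4_Flower hR.cub g g' (m := 8) (hN.mono (by norm_num))) g g'
  have hG : GainP G (cFl.pl (ffl R d)) (10 * (K + 1)) :=
    gainP_of (K := K) (gs := []) hg rfl (fun _ he => absurd he List.not_mem_nil) goodB_Flower
  exact ⟨_, plW ok_cFl hg hr hG hrK, 5, real_Flower, rfl⟩

/-- **The line l2, stage C.** -/
theorem lineC_l2 (hR : C4 R) {r : ℕ} (hr : 20 ≤ r) (hrK : 20 * (K + 1) ≤ r) (d : G.Dart)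
    (hN : N4 R 60 d.fst) (hs : Snd R K d) (hp : PairS R d) (h2 : nb R d 2 = 6) :
    PP R r d.fst := by
  have h5 : sz R d = 5 := hp.s
  have h0 : nb R d 0 = 5 := hp.s0
  obtain ⟨e1, e2, -, -⟩ := l2_faces h5 h0
  have hS := n4_l2 hR.cub h5 h0 (m := 8) (hN.mono (by norm_num))
  have hg : Uni91.Good (cF55.pl (fA (mir R) d.symm)) G :=
    good_l2BT hR.mir.clsT hS h5 h0 hp.n2 hp.n02
  have hz := zhex_l2BT hR.mir.clsT hS h5 h0 h2 hp.n02
  have hrot : RotOk (mir R) (fA (mir R) d.symm) tA1 :=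
    rotA (good_cub hR.cub e1) (good_cub hR.cub e2)
  have hb : Bf (mir R) K (adL (mir R) [] d.symm) := ⟨e1, nb_mir_lt h5 hs.1.2⟩
  have hsh := shOk_A (l := []) (Ls' := []) hrot hb (by simp)
  have hbs : ∀ B ∈ bsF55, ∃ c ∈ B, ∃ e : G.Dart, Dt (fA (mir R) d.symm) c e ∧
      sz (mir R) e ≤ K := by
    intro B hB
    have hm : ∀ c ∈ [(9, 8), (10, 9), (7, 10), (8, 6)], c ∈ shA [] [] := by decide +kernel
    simp only [bsF55, List.mem_cons, List.not_mem_nil, or_false] at hB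
    rcases hB with rfl | rfl | rfl | rfl
    · exact ⟨(9, 8), by simp, hsh _ (hm _ (by simp))⟩
    · exact ⟨(10, 9), by simp, hsh _ (hm _ (by simp))⟩
    · exact ⟨(7, 10), by simp, hsh _ (hm _ (by simp))⟩
    · exact ⟨(8, 6), by simp, hsh _ (hm _ (by simp))⟩
  have hJ : JoinP G (cF55.pl (fA (mir R) d.symm)) (20 * (K + 1)) :=
    joinC hR.mir hg rfl hrot place_F55 bsF55 hbs conn_F55 intZ_F55
  exact ⟨_, plWZ ok_cF55 hg hr hJ hrK hz, 6, real_F55, fA_mir_six R d⟩

end Pool.Agent.U2Geo
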