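import Mathlib
import Pool.Agent.Work.MP_392c8e_co_uni.PatchR2
import Pool.Agent.Work.MP_392c8e_co_uni.LineM2
import Pool.Agent.Work.MP_392c8e_co_uni.Shape
import Pool.Agent.Work.MP_392c8e_co_uni.NoTwo

/-!
# The line r2 of the table
-/

namespace Pool.Agent.U2Geo

open Finset Pool.Agent.Sub392 Pool.T1Side Pool.Agent.T392 Pool.Agent.T1FF Pool.Agent.T1Red
open Pool.Agent.Disch392 (nb ad NoC Near nb_ad_zero)

set_option linter.unusedSectionVars false

variable {V : Type} [Fintype V] [DecidableEq V] {G : SimpleGraph V} [DecidableRel G.Adj]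
  {R : Rot G}

/-- The shape R2. -/
def sR2 : Shape := ⟨R2, nlR2, psR2, [], comR2, badR2⟩

/-- **The line r2.** -/
theorem line_r2 (hR : C5 R) (h13 : 13 ≤ Fintype.card V) (d : G.Dart) (hN : NoC R d)
    (hs : sz R d = 5) (h0 : nb R d 0 = 5) (h1 : nb R d 1 = 6) : HasPl sR2 G d.fst := by
  have g0 : sz R (ac R d 0) = 5 := by rw [sz_ac]; exact h0
  have g1 : sz R (ac R d 1) = 6 := by rw [sz_ac]; exact h1
  refine ⟨fR2 R d, good_R2 hR h13 (hR.good hs) (hR.good g0) (hR.good g1) ?_ ?_, 9, ?_, rfl⟩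
  · rw [sz_ac]
    exact hN.three (Near.refl R 0 d) hs (i := 0) (by norm_num) h0
  · rw [sz_ac, ac_eq_ad]
    refine hN.two (((Near.refl R 0 d).ad' 0)) h0 (i := 0) (by norm_num) ?_
    rw [nb_ad_zero]
    exact hs
  · show Real R2 nlR2 [] 9
    exact ⟨by decide, by decide, by decide⟩

end Pool.Agent.U2Geo
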