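import Mathlib
import Pool.Agent.Work.MP_392c8e_co_uni.LineR2
import Pool.Agent.Work.MP_392c8e_co_uni.LinesB
import Pool.Agent.Work.MP_392c8e_co_uni.GapData
import Pool.Agent.Work.MP_392c8e_co_uni.RotTabs2
import Pool.Agent.Work.MP_392c8e_co_uni.RingShB
import Pool.Agent.Work.MP_392c8e_co_uni.RingBP

/-!
# The line r2 of stage B

A face of length five without long neighbour, a face of length five across the edge `0` and a face
of length six across the edge `1`; the outer faces which lose two vertices have not length five.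
-/

namespace Pool.Agent.U2Geo

open Finset Pool.Agent.Sub392 Pool.T1Side Pool.Agent.T392 Pool.Agent.T1FF Pool.Agent.T1Red
open Pool.Agent.Disch392 (nb ad nb_ad_zero)
open Pool.Agent.DischB Pool.Agent.Once392 Pool.Agent.RingB Pool.Agent.GapData
open Pool.Agent.Uni91 (Good GainP)
open Pool.Agent.Uni392 (Place)

set_option linter.unusedSectionVars false

variable {V : Type} [Fintype V] [DecidableEq V] {G : SimpleGraph V} [DecidableRel G.Adj]
  {R : Rot G} {K : ℕ} {d : G.Dart}

/-- The short positions of R2. -/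
def shR2 : List (ℕ × ℕ) := shOf tR2 (9, 10) [[]] []

theorem dt_fR2 : Dt (fR2 R d) (9, 10) d := dt_X R d 0 rfl rfl

theorem goodB_R2 : goodB R2 nlR2 psR2 [] (gsOf tR2 gR2 shR2) = true := by decide +kernel

theorem labB_R2 : labB R2 nlR2 tR2 = true := by decide +kernel

/-- **The place R2, all neighbours of the first face short.** -/
theorem catB_R2 (hR : C5 R) (h13 : 13 ≤ Fintype.card V) (hB : Bf R K d) (h0 : nb R d 0 = 5)
    (h1 : nb R d 1 = 6) (h3 : nb R d 3 ≠ 5) (h02 : nb R (ad R d 0) 2 ≠ 5) :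
    CatB G K (sR2.pl (fR2 R d)) := by
  have g := hR.good hB.1
  have g0 : sz R (ac R d 0) = 5 := by rw [sz_ac]; exact h0
  have g1 : sz R (ac R d 1) = 6 := by rw [sz_ac]; exact h1
  have hg : Good (sR2.pl (fR2 R d)) G := by
    refine good_R2 hR h13 g (hR.good g0) (hR.good g1) ?_ ?_
    · rw [sz_ac]
      exact h3
    · rw [sz_ac, ac_eq_ad]
      exact h02
  have hN : RotOk R (fR2 R d) tR2 := rotR2 g (hR.good g0) (hR.good g1)
  refine ⟨hg, rfl, gsOf tR2 gR2 shR2, ?_, goodB_R2⟩
  refine gaps_of hR hg rfl hN labB_R2 gps_R2 (Or.inl sp_R2) ?_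
  refine shOk_of hN dt_fR2 (fun l hl => ?_) (by simp)
  obtain rfl := List.mem_singleton.1 hl
  exact hB

/-- **The line r2 of stage B.** -/
theorem lineB_r2 (hR : C5 R) (h13 : 13 ≤ Fintype.card V) (d : G.Dart) (hS : Snd R K d)
    (hp : PairS R d) (h1 : nb R d 1 = 6) :
    ∃ f : ℕ → V, CatB G K (sR2.pl f) ∧ GainP G (sR2.pl f) (10 * (K + 1)) ∧
      d.fst ∈ (sR2.pl f).Vert := by
  have hc := catB_R2 hR h13 hS.1 hp.s0 h1 hp.n3 hp.n02
  refine ⟨fR2 R d, hc, hc.gainP, 9, ?_, rfl⟩
  show Real R2 nlR2 [] 9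
  exact ⟨by decide, by decide, by decide⟩

end Pool.Agent.U2Geo
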