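import Pool.Agent.Work.MP_392c8e_co_uni.PatchGood
import Pool.Agent.Work.MP_392c8e_co_uni.GeoNo5
import Pool.Agent.Work.MP_392c8e_co_uni.SideN
import Pool.Agent.Work.MP_392c8e_co_uni.CertG2R
import Pool.Agent.Work.MP_392c8e_co_uni.TabG2R
import Pool.Agent.Work.MP_392c8e_co_uni.RedG2R

/-!
# The place G2R

A face of length seven with faces of length five across the edges `0`, `1`, `4` and a face of
length five across the edge `2` of the last one.  The new edges join the terminals 0-6, 2-3, 4-5,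
7-8.
-/

namespace Pool.Agent.U2Geo

open Finset Pool.Agent.Sub392 Pool.T1Side Pool.Agent.T392 Pool.Agent.T1FF Pool.Agent.T1Red
open Pool.Agent.Uni392 (Place)

set_option linter.unusedSectionVars false

/-- The corners of the outer faces. -/
def cfG2R : List (ℕ × ℕ × ℕ) := [(18, 17, 2), (21, 20, 4), (22, 14, 13), (26, 25, 7)]

theorem back_G2R : Back G2R [] psG2R [(3, 8)] := by
  constructor <;> decide

variable {V : Type} [Fintype V] [DecidableEq V] {G : SimpleGraph V} [DecidableRel G.Adj]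
  {R : Rot G} {d : G.Dart}

/-- The corners. -/
theorem no5_G2R (hR : C5 R) (h : Good R d 7)
    (g1 : Good R (ac R d 1) 5)
    (k0 : sz R (ac R (ac R d 0) 2) ≠ 5) (k1 : sz R (ac R (ac R d 1) 3) ≠ 5)
    (k3 : sz R (ac R d 3) ≠ 5) (kr : sz R (ac R (ac R (ac R d 4) 2) 2) ≠ 5) :
    No5 G cfG2R (fG2R R d) := by
  intro e he x y
  simp only [cfG2R, List.mem_cons, List.not_mem_nil, or_false] at he
  rcases he with rfl | rfl | rfl | rfl
  · have := hR.no5a (ac R d 0) 2 k0 x y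
    rwa [ac_X2] at this
  · have := hR.no5a (ac R d 1) 3 k1 x y
    rwa [show X R (ac R d 1) (3 + 1) = Y R d 2 from h.ac_last 1 g1 (by norm_num)] at this
  · exact hR.no5b d 3 k3 x y
  · have := hR.no5a (ac R (ac R d 4) 2) 2 kr x y
    rwa [ac_X2] at this

/-- **The patch G2R.** -/
theorem patch_G2R (hR : C5 R) (h13 : 13 ≤ Fintype.card V) (h : Good R d 7)
    (g0 : Good R (ac R d 0) 5) (g1 : Good R (ac R d 1) 5) (g4 : Good R (ac R d 4) 5)
    (gr : Good R (ac R (ac R d 4) 2) 5)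
    (k0 : sz R (ac R (ac R d 0) 2) ≠ 5) (k1 : sz R (ac R (ac R d 1) 3) ≠ 5)
    (k3 : sz R (ac R d 3) ≠ 5) (kr : sz R (ac R (ac R (ac R d 4) 2) 2) ≠ 5) :
    Patch G G2R [] [(3, 8)] comG2R [(2, 7)] (fG2R R d) :=
  patch_ofMN (hR.clsN h13) (tabG2R h g0 g1 g4 gr) (by decide +kernel)
    (no5_G2R hR h g1 k0 k1 k3 kr) finG2R

/-- The place G2R. -/
def pG2R (f : ℕ → V) : Place V := place G2R [] psG2R [(3, 8)] comG2R [(2, 7)] f

/-- **The place G2R.** -/
theorem good_G2R (hext : G2R.Ext [(3, 8)]) (hR : C5 R) (h13 : 13 ≤ Fintype.card V)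
    (h : Good R d 7)
    (g0 : Good R (ac R d 0) 5) (g1 : Good R (ac R d 1) 5) (g4 : Good R (ac R d 4) 5)
    (gr : Good R (ac R (ac R d 4) 2) 5)
    (k0 : sz R (ac R (ac R d 0) 2) ≠ 5) (k1 : sz R (ac R (ac R d 1) 3) ≠ 5)
    (k3 : sz R (ac R d 3) ≠ 5) (kr : sz R (ac R (ac R (ac R d 4) 2) 2) ≠ 5) :
    Uni91.Good (pG2R (fG2R R d)) G :=
  (patch_G2R hR h13 h g0 g1 g4 gr k0 k1 k3 kr).good hext data_G2R back_G2R

end Pool.Agent.U2Geo
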