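import Pool.Agent.Work.MP_392c8e_co_uni.GeoG2
import Pool.Agent.Work.MP_392c8e_co_uni.GeoG2R
import Pool.Agent.Work.MP_392c8e_co_uni.Occ
import Pool.Agent.Work.MP_392c8e_co_uni.Shape
import Pool.Agent.Work.MP_392c8e_co_uni.LineM2

/-!
# The line of the table for a face of length seven with 5-neighbours at the places 0, 1, 4
-/

namespace Pool.Agent.U2Geo

open Finset Pool.Agent.Sub392 Pool.T1Side Pool.Agent.T392 Pool.Agent.T1FF Pool.Agent.T1Red
open Pool.Agent.Disch392
open Pool.Agent.Uni392 (Place)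

set_option linter.unusedSectionVars false

variable {V : Type} [Fintype V] [DecidableEq V] {G : SimpleGraph V} [DecidableRel G.Adj]
  {R : Rot G} {d : G.Dart}

/-- The neighbours at distance two of a face of length five are not both of length five. -/
theorem not_two {d p : G.Dart} (hn : NoC R d) {k : ℕ} (hp : Near R k d p) {i : ℕ}
    (hk : k + i ≤ 12) (hs : sz R p = 5) (h1 : nb R p (i + 1) = 5) (h2 : nb R p (i + 4) = 5) :
    False := by
  refine hn (R.next^[i] p) ((hp.iter i).mono hk) ⟨by rw [sz_iter]; exact hs, ?_, ?_⟩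
  · rw [nb_iter]; exact h1
  · rw [nb_iter]; exact h2

/-- The same for neighbours across the edges 2 and 4. -/
theorem not_24 {d p : G.Dart} (hn : NoC R d) {k : ℕ} (hp : Near R k d p) (hk : k ≤ 9)
    (hs : sz R p = 5) (h2 : nb R p 2 = 5) (h4 : nb R p 4 = 5) : False :=
  not_two hn hp (i := 3) (by omega) hs h4 (by rw [show 3 + 4 = 2 + 5 from rfl, nb_per R hs]; exact h2)

/-- The same for neighbours across the edges 1 and 3. -/
theorem not_13 {d p : G.Dart} (hn : NoC R d) {k : ℕ} (hp : Near R k d p) (hk : k ≤ 10)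
    (hs : sz R p = 5) (h1 : nb R p 1 = 5) (h3 : nb R p 3 = 5) : False :=
  not_two hn hp (i := 2) (by omega) hs h3 (by rw [show 2 + 4 = 1 + 5 from rfl, nb_per R hs]; exact h1)

/-- The shape of G2. -/
def sG2 : Shape := ⟨G2, [], psG2, [], comG2, []⟩

/-- The shape of G2R. -/
def sG2R : Shape := ⟨G2R, [], psG2R, [(3, 8)], comG2R, [(2, 7)]⟩

/-- **The line of the table for the places 0, 1, 4.** -/
theorem line_t4 (hR : C5 R) (h13 : 13 ≤ Fintype.card V) (hx : G2.Ext []) (hy : G2R.Ext [(3, 8)])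
    (hn : NoC R d) (hs : sz R d = 7) (h0 : nb R d 0 = 5) (h1 : nb R d 1 = 5)
    (h4 : nb R d 4 = 5) :
    HasPl sG2 G d.fst ∨ HasPl sG2R G d.fst := by
  have h3 := hR.cub
  have n0 : Near R 1 d (ad R d 0) := (Near.refl R 0 d).symm'
  have n1 : Near R 2 d (ad R d 1) := ((Near.refl R 0 d).iter 1).symm'
  have n4 : Near R 5 d (ad R d 4) := ((Near.refl R 0 d).iter 4).symm'
  have k0 : nb R (ad R d 0) 2 ≠ 5 := fun h => not_24 hn n0 (by norm_num) h0 h
    (by rw [nb_ad_last h3 d h0]; exact h1)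
  have k1 : nb R (ad R d 1) 3 ≠ 5 := fun h => not_13 hn n1 (by norm_num) h1
    (by rw [nb_ad_one h3 d 0]; exact h0) h
  have g : Good R d 7 := hR.good hs
  have g0 : Good R (ac R d 0) 5 := hR.good (by rw [sz_ac]; exact h0)
  have g1 : Good R (ac R d 1) 5 := hR.good (by rw [sz_ac]; exact h1)
  have g4 : Good R (ac R d 4) 5 := hR.good (by rw [sz_ac]; exact h4)
  by_cases h5 : nb R (ad R d 4) 2 = 5
  · by_cases h6 : nb R (ad R d 4) 3 = 5
    · -- the face at the place 4 belongs to a triple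
      right
      have k3 : nb R d 3 ≠ 5 := fun h => not_13 hn n4 (by norm_num) h4
        (by rw [nb_ad_one h3 d 3]; exact h) h6
      have n5 : Near R 8 d (ad R (ad R d 4) 2) := (n4.iter 2).symm'
      have kr : nb R (ad R (ad R d 4) 2) 2 ≠ 5 := fun h => not_24 hn n5 (by norm_num) h5 h
        (by rw [nb_ad_last h3 (ad R d 4) h5]; exact h6)
      refine ⟨fG2R R d, good_G2R hy hR h13 g g0 g1 g4 (hR.good ?_) ?_ ?_ ?_ ?_, 10,
        ⟨?_, List.not_mem_nil, fun p hp => absurd hp List.not_mem_nil⟩, rfl⟩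
      · rw [sz_ac, ac_eq_ad]; exact h5
      · rw [sz_ac, ac_eq_ad]; exact k0
      · rw [sz_ac, ac_eq_ad]; exact k1
      · rw [sz_ac]; exact k3
      · rw [sz_ac, ac_eq_ad, ac_eq_ad]; exact kr
      · show 10 < 10 + 18
        norm_num
    · -- the mirror image
      left
      set d' := R.next^[4] d with hd'
      have hs' : sz R d' = 7 := by rw [hd', sz_iter]; exact hs
      have e3 : ac R d' 3 = ad R d 0 := by
        rw [hd', ac_iter, show 4 + 3 = 0 + 7 from rfl, ad_per R hs]
      have e4 : ac R d' 4 = ad R d 1 := by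
        rw [hd', ac_iter, show 4 + 4 = 1 + 7 from rfl, ad_per R hs]
      have e0 : ac R d' 0 = ad R d 4 := by rw [hd', ac_iter]
      refine ⟨fG2m R d', good_G2m hx hR h13 (hR.good hs') (hR.good ?_) (hR.good ?_) (hR.good ?_)
        ?_ ?_ ?_, 11, ⟨?_, List.not_mem_nil, fun p hp => absurd hp List.not_mem_nil⟩, ?_⟩
      · rw [e0]; exact h4
      · rw [e3]; exact h0
      · rw [e4]; exact h1
      · rw [sz_ac, e4]; exact k1
      · rw [sz_ac, e3]; exact k0
      · rw [sz_ac, e0]; exact h6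
      · show 11 < 9 + 15
        norm_num
      · show X R d' 3 = d.fst
        unfold X
        rw [← Equiv.Perm.iterate_eq_pow, hd', ← Function.iterate_add_apply]
        have := next_sz R d
        rw [hs] at this
        rw [this]
  · left
    refine ⟨fG2 R d, good_G2 hx hR h13 g g0 g1 g4 ?_ ?_ ?_, 9,
      ⟨?_, List.not_mem_nil, fun p hp => absurd hp List.not_mem_nil⟩, rfl⟩
    · rw [sz_ac, ac_eq_ad]; exact k0
    · rw [sz_ac, ac_eq_ad]; exact k1
    · rw [sz_ac, ac_eq_ad]; exact h5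
    · show 9 < 9 + 15
      norm_num

end Pool.Agent.U2Geo
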