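import Mathlib
import Pool.Agent.Work.MP_392c8e_co_uni.CertG2T
import Pool.Agent.Work.MP_392c8e_co_uni.SideTX
import Pool.Agent.Work.MP_392c8e_co_uni.NoFive
import Pool.Agent.Work.MP_392c8e_co_uni.LabC
import Pool.Agent.Work.MP_392c8e_co_uni.GeoC4d
import Pool.Agent.Work.MP_392c8e_co_uni.LineT4
import Pool.Agent.Work.MP_392c8e_co_uni.RotTabs

/-!
# The place G2 in cyclically 4-edge-connected graphs

A face of length seven with faces of length five at the places 0, 1, 4; the faces at the places 0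
and 1 have a common outer neighbour of length five.  Then no two terminals are the same vertex.
-/

set_option autoImplicit false

namespace Pool.Agent.U2Geo

open Finset Pool.Agent.Sub392 Pool.T1Side Pool.Agent.T392 Pool.Agent.T1FF Pool.Agent.T1Red
open Pool.Agent.Once392 (RotOk NbR Dt nx nx_ok adL adLN adLN_ok)
open Pool.Agent.DischB (HypG2 Pair7)
open Pool.Agent.Disch392 (nb ad)

set_option linter.unusedSectionVars false

/-! ### Ties at a vertex with three known neighbours -/

section

variable {V : Type} [Fintype V] [DecidableEq V] {G : SimpleGraph V} [DecidableRel G.Adj]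
  {R : Rot G} {S : V → Prop}

/-- The two orders of three neighbours. -/
theorem row_three {p u v z : V} (h3 : G.degree p = 3) (hu : G.Adj p u) (hv : G.Adj p v)
    (hz : G.Adj p z) (huv : u ≠ v) (huz : u ≠ z) (hvz : v ≠ z) :
    NbR R p u v z ∨ NbR R p v u z := by
  obtain ⟨w, hw | hw⟩ := exists_row (R := R) h3 hu hv huv
  · left
    rcases (nb3_of_nbR h3 hw).all z hz with h | h | h
    · exact absurd h.symm huz
    · exact absurd h.symm hvz
    · rw [h]; exact hw
  · right
    rcases (nb3_of_nbR h3 hw).all z hz with h | h | h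
    · exact absurd h.symm hvz
    · exact absurd h.symm huz
    · rw [h]; exact hw

/-- **A tie at a vertex with three known neighbours** is impossible if both orders of the
neighbours lead to contradictions. -/
theorem false_tie3 (hG : ClsT R S) {A : Red} {ti xj xn xn' : List (ℕ × ℕ)}
    {F : List (ℕ × ℕ × ℕ)} {ts ts' : List StepT} {c c' : CertT} {f : ℕ → V}
    {N : List (ℕ × ℕ × ℕ × ℕ)} (ht : TabOk G f N) (hN : RotOk R f N)
    (hc : chk A.ed (inner A) N = true) (hS : ∀ k, k < A.t + A.m → S (f k)) (hF : No5 G F f)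
    (hti : ∀ e ∈ ti, f e.1 = f e.2) (hxj : ∀ e ∈ xj, G.Adj (f e.1) (f e.2))
    (hxn : ∀ e ∈ xn, f e.1 ≠ f e.2) (hxn' : ∀ e ∈ xn', f e.1 ≠ f e.2) {p u v z : ℕ}
    (hu : G.Adj (f p) (f u)) (hv : G.Adj (f p) (f v)) (hz : G.Adj (f p) (f z))
    (huv : f u ≠ f v) (huz : f u ≠ f z) (hvz : f v ≠ f z)
    (h1 : absT A ti xj xn [] ((p, u, v, z) :: N) F ts c = true)
    (h2 : absT A ti xj xn' [] ((p, v, u, z) :: N) F ts' c' = true) : False := by
  have hchk : ∀ r : ℕ × ℕ × ℕ × ℕ, chk A.ed (inner A) (r :: N) = true := fun r => by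
    unfold chk at hc ⊢
    rw [Bool.and_eq_true, List.all_eq_true] at hc ⊢
    refine ⟨fun i hi => ?_, hc.2⟩
    rw [List.any_cons, Bool.or_eq_true]
    exact Or.inr (hc.1 i hi)
  rcases row_three (R := R) (hG.cub _) hu hv hz huv huz hvz with hr | hr
  · refine false_ofT hG (N := (p, u, v, z) :: N) (f := f) ?_ ?_ (hchk _) hS hF hti hxj hxn
      (fun e he => absurd he List.not_mem_nil) h1
    · intro e he
      rcases List.mem_cons.1 he with rfl | he
      · exact nb3_of_nbR (hG.cub _) hr
      · exact ht e he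
    · intro e he
      rcases List.mem_cons.1 he with rfl | he
      · exact hr
      · exact hN e he
  · refine false_ofT hG (N := (p, v, u, z) :: N) (f := f) ?_ ?_ (hchk _) hS hF hti hxj hxn'
      (fun e he => absurd he List.not_mem_nil) h2
    · intro e he
      rcases List.mem_cons.1 he with rfl | he
      · exact nb3_of_nbR (hG.cub _) hr
      · exact ht e he
    · intro e he
      rcases List.mem_cons.1 he with rfl | he
      · exact hr
      · exact hN e he

/-- The pairs are different in a patch. -/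
def neP (A : Red) (co l : List (ℕ × ℕ)) : Bool :=
  l.all fun e => Nat.blt e.1 (A.t + A.m) && Nat.blt e.2 (A.t + A.m) &&
    !decide (Same co e.1 e.2)

theorem Patch.ne {A : Red} {co com bad : List (ℕ × ℕ)} {f : ℕ → V}
    (h : Patch G A [] co com bad f) {l : List (ℕ × ℕ)} (hl : neP A co l = true) :
    ∀ e ∈ l, f e.1 ≠ f e.2 := by
  intro e he heq
  unfold neP at hl
  rw [List.all_eq_true] at hl
  have h1 := hl e he
  simp only [Bool.and_eq_true, Nat.blt_eq, Bool.not_eq_true', decide_eq_false_iff_not] at h1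
  exact h1.2 (h.inj _ _ ⟨h1.1.1, List.not_mem_nil, fun p hp => absurd hp List.not_mem_nil⟩
    ⟨h1.1.2, List.not_mem_nil, fun p hp => absurd hp List.not_mem_nil⟩ heq)

end

/-! ### The patch G2 -/

/-- The corners of the outer faces which have not length five. -/
def cfG2T : List (ℕ × ℕ × ℕ) := [(17, 16, 1), (20, 19, 3), (22, 21, 6), (12, 11, 20), (16, 9, 15)]

/-- The pairs of terminals which the first run leaves. -/
def coG2T : List (ℕ × ℕ) := [(2, 6), (2, 7), (3, 7), (3, 8)]

theorem fin_G2T : finT G2 [] coG2T comG2 [] [] [] [] [] tG2 cfG2T tsG2T = true := by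
  decide +kernel

theorem chk_G2 : chk G2.ed (inner G2) tG2 = true := by decide +kernel

theorem cor_G2T : (cfG2T.all fun e => Nat.blt e.1 24 &&
    cornF tG2 (9, 10) [[0, 2], [1, 3], [4, 2], [2], [6]] e) = true := by decide +kernel

theorem allR_G2 : allR G2 10 9 = true := by decide +kernel

/-- The pairs of the pentagon. -/
def xnP : List (ℕ × ℕ) := [(2, 18), (2, 19), (3, 17), (3, 18), (17, 19)]

def xn26 : List (ℕ × ℕ) :=
  [(2, 13), (2, 19), (3, 20), (3, 21), (11, 13), (11, 19), (12, 20), (12, 21)]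

def xn27 : List (ℕ × ℕ) :=
  [(2, 16), (2, 23), (9, 14), (9, 17), (14, 22), (15, 16), (15, 23), (17, 22)]

def xn37 : List (ℕ × ℕ) :=
  [(3, 20), (3, 21), (11, 13), (11, 19), (12, 20), (12, 21), (13, 22), (19, 22)]

def xn38 : List (ℕ × ℕ) :=
  [(2, 16), (2, 23), (3, 14), (3, 17), (9, 14), (9, 17), (15, 16), (15, 23)]

theorem abs26 : absT G2 [(2, 6)] [(2, 3)] xn26 [] ((2, 17, 21, 3) :: tG2) cfG2T []
    (.eight [21, 13, 12, 11, 20, 19, 3, 2] 1 3) = true := by decide +kernel

theorem abs26' : absT G2 [(2, 6)] [(2, 3)] xnP [] ((2, 21, 17, 3) :: tG2) cfG2T []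
    (.seven [2, 3, 19, 18, 17]) = true := by decide +kernel

theorem abs27 : absT G2 [(2, 7)] [(2, 3)] xn27 [] ((2, 17, 22, 3) :: tG2) cfG2T []
    (.eight [2, 17, 16, 9, 15, 14, 23, 22] 1 3) = true := by decide +kernel

theorem abs27' : absT G2 [(2, 7)] [(2, 3)] xnP [] ((2, 22, 17, 3) :: tG2) cfG2T []
    (.seven [2, 3, 19, 18, 17]) = true := by decide +kernel

theorem abs37 : absT G2 [(3, 7)] [(2, 3)] xnP [] ((3, 19, 22, 2) :: tG2) cfG2T []
    (.seven [2, 3, 19, 18, 17]) = true := by decide +kernel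

theorem abs37' : absT G2 [(3, 7)] [(2, 3)] xn37 [] ((3, 22, 19, 2) :: tG2) cfG2T []
    (.eight [22, 21, 13, 12, 11, 20, 19, 3] 0 2) = true := by decide +kernel

theorem abs38 : absT G2 [(3, 8)] [(2, 3)] xnP [] ((3, 19, 23, 2) :: tG2) cfG2T []
    (.seven [2, 3, 19, 18, 17]) = true := by decide +kernel

theorem abs38' : absT G2 [(3, 8)] [(2, 3)] xn38 [] ((3, 23, 19, 2) :: tG2) cfG2T []
    (.eight [17, 16, 9, 15, 14, 23, 3, 2] 0 0) = true := by decide +kernel

/-- The pairs of neighbours of the tied vertices. -/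
def xnT : List (ℕ × ℕ) :=
  [(17, 21), (17, 3), (21, 3), (17, 22), (22, 3), (19, 22), (19, 2), (22, 2), (19, 23), (23, 2)]

variable {V : Type} [Fintype V] [DecidableEq V] {G : SimpleGraph V} [DecidableRel G.Adj]
  {R : Rot G} {d : G.Dart}

/-- The face of length five between the terminals 2 and 3. -/
theorem adj23 {f : ℕ → V} (ht : TabOk G f tG2)
    (hN : RotOk R f tG2) (hd : Dt f (9, 10) d) (o3 : nb R (ad R d 0) 3 = 5) :
    G.Adj (f 2) (f 3) := by
  have hx : Dt f (18, 17) (ad R (ad R d 0) 3) :=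
    adLN_ok hN (l := [0, 3]) (by decide) hd
  set x : G.Dart := ad R (ad R d 0) 3 with hx0
  have h5 : sz R x = 5 := o3
  have h1 : Dt f (17, 2) (R.next x) := nx_ok hN (by decide) hx
  have a1 : G.Adj (f 3) (f 19) := (ht (19, 20, 18, 3) (by decide)).hc.symm
  set v : G.Dart := ⟨(f 3, f 19), a1⟩ with hv
  have hv0 : Dt f (3, 19) v := ⟨rfl, rfl⟩
  have hv1 : Dt f (19, 18) (R.next v) := nx_ok hN (by decide) hv0
  have hv2 : Dt f (18, 17) (R.next (R.next v)) := nx_ok hN (by decide) hv1
  have e1 : R.next (R.next v) = x := hv2.eq hx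
  have e2 : R.next^[5] x = x := by
    have := next_sz R x
    rwa [h5] at this
  have e3 : R.next (R.next x) = R.next.symm (R.next.symm (R.next.symm x)) := by
    rw [Equiv.eq_symm_apply, Equiv.eq_symm_apply, Equiv.eq_symm_apply]
    exact e2
  have e4 : R.next.symm (R.next.symm x) = v := by
    rw [Equiv.symm_apply_eq, Equiv.symm_apply_eq]
    exact e1.symm
  rw [e4] at e3
  have e5 : R.next (R.next (R.next x)) = v := by
    rw [e3, Equiv.apply_symm_apply]
  have e6 : (R.next (R.next x)).snd = f 3 := by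
    rw [← R.fst_next, e5]
  have e7 : (R.next (R.next x)).fst = f 2 := by
    rw [R.fst_next]; exact h1.2
  have := (R.next (R.next x)).adj
  rwa [e6, e7] at this

/-- **The patch G2, stage C.** -/
theorem patchC_G2 {S : V → Prop} (hG : ClsT R S) {f : ℕ → V} (ht : TabOk G f tG2)
    (hN : RotOk R f tG2) (hd : Dt f (9, 10) d) (hS : ∀ k, k < 24 → S (f k)) (h : HypG2 R d)
    (o3 : nb R (ad R d 0) 3 = 5) : Patch G G2 [] [] comG2 [] f := by
  have hF : No5 G cfG2T f := by
    refine no5_of hG hN hd hS (Ls := [[0, 2], [1, 3], [4, 2], [2], [6]]) ?_ cor_G2T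
    intro l hl
    simp only [List.mem_cons, List.not_mem_nil, or_false] at hl
    rcases hl with rfl | rfl | rfl | rfl | rfl
    · exact h.n02
    · exact h.n13
    · exact h.n42
    · exact h.n2
    · exact h.n6
  have hP : Patch G G2 [] coG2T comG2 [] f :=
    patch_ofT hG ht hN chk_G2 hS hF (by simp) (by simp) (by simp) (by simp) fin_G2T
  have h23 : G.Adj (f 2) (f 3) := adj23 ht hN hd o3
  have hxj : ∀ e ∈ [(2, 3)], G.Adj (f e.1) (f e.2) := by
    intro e he
    rw [List.mem_singleton] at he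
    subst he
    exact h23
  have hne := hP.ne (l := xnT) (by decide +kernel)
  have nP := hP.ne (l := xnP) (by decide +kernel)
  have a2 : G.Adj (f 2) (f 17) := (ht (17, 18, 16, 2) (by decide)).hc.symm
  have a3 : G.Adj (f 3) (f 19) := (ht (19, 20, 18, 3) (by decide)).hc.symm
  have a6 : G.Adj (f 6) (f 21) := (ht (21, 22, 13, 6) (by decide)).hc.symm
  have a7 : G.Adj (f 7) (f 22) := (ht (22, 23, 21, 7) (by decide)).hc.symm
  have a8 : G.Adj (f 8) (f 23) := (ht (23, 14, 22, 8) (by decide)).hc.symm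
  have one : ∀ a b : ℕ, f a = f b → ∀ e ∈ [(a, b)], f e.1 = f e.2 := by
    intro a b hab e he
    rw [List.mem_singleton] at he
    subst he
    exact hab
  have t26 : f 2 ≠ f 6 := fun hE => false_tie3 hG ht hN chk_G2 hS hF (one 2 6 hE) hxj
    (hP.ne (l := xn26) (by decide +kernel)) nP (p := 2) (u := 17) (v := 21) (z := 3) a2
    (by rw [hE]; exact a6) h23 (hne (17, 21) (by decide)) (hne (17, 3) (by decide))
    (hne (21, 3) (by decide)) abs26 abs26'
  have t27 : f 2 ≠ f 7 := fun hE => false_tie3 hG ht hN chk_G2 hS hF (one 2 7 hE) hxj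
    (hP.ne (l := xn27) (by decide +kernel)) nP (p := 2) (u := 17) (v := 22) (z := 3) a2
    (by rw [hE]; exact a7) h23 (hne (17, 22) (by decide)) (hne (17, 3) (by decide))
    (hne (22, 3) (by decide)) abs27 abs27'
  have t37 : f 3 ≠ f 7 := fun hE => false_tie3 hG ht hN chk_G2 hS hF (one 3 7 hE) hxj
    nP (hP.ne (l := xn37) (by decide +kernel)) (p := 3) (u := 19) (v := 22) (z := 2) a3
    (by rw [hE]; exact a7) h23.symm (hne (19, 22) (by decide)) (hne (19, 2) (by decide))
    (hne (22, 2) (by decide)) abs37 abs37'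
  have t38 : f 3 ≠ f 8 := fun hE => false_tie3 hG ht hN chk_G2 hS hF (one 3 8 hE) hxj
    nP (hP.ne (l := xn38) (by decide +kernel)) (p := 3) (u := 19) (v := 23) (z := 2) a3
    (by rw [hE]; exact a8) h23.symm (hne (19, 23) (by decide)) (hne (19, 2) (by decide))
    (hne (23, 2) (by decide)) abs38 abs38'
  refine ⟨fun i j hi hj hij => ?_, hP.adj, hP.nbr, hP.hC, hP.hT⟩
  rcases hP.inj i j hi hj hij with h1 | h1 | h1
  · exact Or.inl h1
  · simp only [coG2T, List.mem_cons, Prod.mk.injEq, List.not_mem_nil, or_false] at h1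
    rcases h1 with ⟨rfl, rfl⟩ | ⟨rfl, rfl⟩ | ⟨rfl, rfl⟩ | ⟨rfl, rfl⟩
    · exact absurd hij t26
    · exact absurd hij t27
    · exact absurd hij t37
    · exact absurd hij t38
  · simp only [coG2T, List.mem_cons, Prod.mk.injEq, List.not_mem_nil, or_false] at h1
    rcases h1 with ⟨rfl, rfl⟩ | ⟨rfl, rfl⟩ | ⟨rfl, rfl⟩ | ⟨rfl, rfl⟩
    · exact absurd hij.symm t26
    · exact absurd hij.symm t27
    · exact absurd hij.symm t37
    · exact absurd hij.symm t38

end Pool.Agent.U2Geo
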