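import Mathlib
import Pool.Agent.Work.MP_392c8e_co_uni.RedG2R
import Pool.Agent.Work.MP_392c8e_co_uni.PatchGood
import Pool.Agent.Work.MP_392c8e_co_uni.RingTwo
import Pool.Agent.Work.MP_392c8e_co_uni.GapData
import Pool.Agent.Work.MP_392c8e_co_uni.RingShB
import Pool.Agent.Work.MP_392c8e_co_uni.PlW

/-!
# Stage C: the shapes of the line g2r of the table, the facts about finite data

This file does not depend on the class of the graph.
-/

set_option autoImplicit false

namespace Pool.Agent.U2Geo

open Finset Pool.Agent.Sub392 Pool.T1Side Pool.Agent.T392 Pool.Agent.T1FF Pool.Agent.T1Red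
open Pool.Agent.Once392 (NbR RotOk Dt ShOk shG2R shOf shOk_of adL)
open Pool.Agent.Disch392
open Pool.Agent.RingTwo (placeC goodC)

set_option linter.unusedSectionVars false
set_option synthInstance.maxSize 200000

/-- G2R, the terminals 3 and 8 may be equal. -/
def sG2R38 : Shape := ⟨G2R, [], psG2R, [(3, 8)], comG2R, [(2, 7)]⟩

/-- G2R, no two terminals are equal. -/
def sG2R0 : Shape := ⟨G2R, [], psG2R, [], comG2R, []⟩

/-- G2R, the terminals 2 and 7 may be equal. -/
def sG2R27 : Shape := ⟨G2R, [], psG2R, [(2, 7)], comG2R, [(3, 8)]⟩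

/-- G2R, the terminals 2 and 8 may be equal. -/
def sG2R28 : Shape := ⟨G2R, [], psG2R, [(2, 8)], comG2R, [(3, 7)]⟩

theorem data_G2R0 : Data G2R [] psG2R [] [] comG2R [] := by
  constructor <;> decide

theorem data_G2R27 : Data G2R [] psG2R [] [(2, 7)] comG2R [(3, 8)] := by
  constructor <;> decide

theorem data_G2R28 : Data G2R [] psG2R [] [(2, 8)] comG2R [(3, 7)] := by
  constructor <;> decide

theorem back_G2R0 : Back G2R [] psG2R [] := by
  constructor <;> decide

theorem back_G2R27 : Back G2R [] psG2R [(2, 7)] := by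
  constructor <;> decide

theorem back_G2R28 : Back G2R [] psG2R [(2, 8)] := by
  constructor <;> decide

theorem back_G2R38 : Back G2R [] psG2R [(3, 8)] := by
  constructor <;> decide

theorem placeC_G2R0 : placeC G2R [] [] tG2R (10, 11) Pool.Agent.GapData.gG2R = true := by
  decide +kernel

theorem placeC_G2R27 : placeC G2R [] [(2, 7)] tG2R (10, 11) Pool.Agent.GapData.gG2R = true := by
  decide +kernel

theorem placeC_G2R28 : placeC G2R [] [(2, 8)] tG2R (10, 11) Pool.Agent.GapData.gG2R = true := by
  decide +kernel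

theorem placeC_G2R38 : placeC G2R [] [(3, 8)] tG2R (10, 11) Pool.Agent.GapData.gG2R = true := by
  decide +kernel

theorem goodC_G2R0 : goodC G2R [] psG2R [] tG2R Pool.Agent.GapData.gG2R shG2R = true := by
  decide +kernel

theorem goodC_G2R27 :
    goodC G2R [] psG2R [(2, 7)] tG2R Pool.Agent.GapData.gG2R shG2R = true := by
  decide +kernel

theorem goodC_G2R28 :
    goodC G2R [] psG2R [(2, 8)] tG2R Pool.Agent.GapData.gG2R shG2R = true := by
  decide +kernel

theorem goodC_G2R38 :
    goodC G2R [] psG2R [(3, 8)] tG2R Pool.Agent.GapData.gG2R shG2R = true := by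
  decide +kernel

theorem shOK_G2R0 : shOK sG2R0 = true := by decide +kernel

theorem shOK_G2R27 : shOK sG2R27 = true := by decide +kernel

theorem shOK_G2R28 : shOK sG2R28 = true := by decide +kernel

theorem shOK_G2R38 : shOK sG2R38 = true := by decide +kernel

theorem neOK_G2R : neOK G2R [] && neOK G2R [(2, 7)] && neOK G2R [(2, 8)] && neOK G2R [(3, 8)] =
    true := by decide +kernel

end Pool.Agent.U2Geo
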