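import Mathlib
import Pool.Agent.Work.MP_392c8e_co_uni.GeoG2X
import Pool.Agent.Work.MP_392c8e_co_uni.GeoC4d
import Pool.Agent.Work.MP_392c8e_co_uni.NoFive
import Pool.Agent.Work.MP_392c8e_co_uni.RingTwoB
import Pool.Agent.Work.MP_392c8e_co_uni.ShG2X

/-!
# Stage C: the shapes of the line g2r of the table
-/

set_option autoImplicit false

namespace Pool.Agent.U2Geo

open Finset Pool.Agent.Sub392 Pool.T1Side Pool.Agent.T392 Pool.Agent.T1FF Pool.Agent.T1Red
open Pool.Agent.Once392 (NbR RotOk Dt ShOk shG2R shOf shOk_of adL)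
open Pool.Agent.Disch392
open Pool.Agent.RingTwo (placeC goodC gainC_of cut3_of)

set_option linter.unusedSectionVars false
set_option synthInstance.maxSize 200000

/-- The part of the table at the interior vertices. -/
theorem sub_tG2X : ∀ e ∈ tG2R, e ∈ tG2X := by decide

theorem allR_G2R : allR G2R 10 10 = true := by decide +kernel

/-- The outer faces with corners in the certificates. -/
def LsG2X : List (List ℕ) := [[2], [6], [3], [5], [0, 2], [1, 3], [4, 2, 2], [4, 2, 3]]

theorem corG2X : (cnG2X.all fun e => Nat.blt e.1 28 && cornF tG2X (10, 11) LsG2X e) = true := by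
  decide +kernel

end Pool.Agent.U2Geo
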