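import Mathlib
import Pool.Agent.Work.MP_392c8e_co_uni.ShapesG2X
import Pool.Agent.Work.MP_392c8e_co_uni.OccB

/-!
# Stage C: the line g2r of the table
-/

set_option autoImplicit false

namespace Pool.Agent.U2Geo

open Finset Pool.Agent.Sub392 Pool.T1Side Pool.Agent.T392 Pool.Agent.T1FF Pool.Agent.T1Red
open Pool.Agent.Once392 (NbR RotOk Dt ShOk shG2R shOf shOk_of adL)
open Pool.Agent.DischB (HypG2R Pair7 Snd Bf)
open Pool.Agent.Disch392
open Pool.Agent.RingTwo (placeC goodC gainC_of cut3_of)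
open Pool.Agent.Uni91 (GainP)

set_option linter.unusedSectionVars false

variable {V : Type} [Fintype V] [DecidableEq V] {G : SimpleGraph V} [DecidableRel G.Adj]
  {R : Rot G} {K : ℕ}

theorem ac_eq_x (R : Rot G) (d : G.Dart) (i : ℕ) : ac R d i = ad R d i := by
  unfold ac ad
  rw [Equiv.Perm.iterate_eq_pow]

theorem szac_x (R : Rot G) (d : G.Dart) (i : ℕ) : sz R (ac R d i) = nb R d i := by
  rw [ac_eq_x, sz_ad]

theorem allR_G2R' : allR G2R 12 12 = true := by decide +kernel

theorem rot_sub {f : ℕ → V} (h : RotOk R f tG2X) : RotOk R f tG2R :=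
  fun e he => h e (sub_tG2X e he)

/-- The place of one of the four shapes, or the exceptional case. -/
theorem lineCore (hx : ∀ co, neOK G2R co = true → G2R.Ext co) (hR : C4 R) {r : ℕ} (hr : 20 ≤ r)
    (hrK : 10 * (K + 1) ≤ r) {f : ℕ → V} {d : G.Dart} (hrot : RotOk R f tG2X)
    (hd : Dt f (10, 11) d) {k : ℕ} (hk : k = 10 ∨ k = 12) (hN : N4 R 60 (f k))
    (h : HypG2R R d) (a0 : Snd R K (ad R d 0)) (a1 : Snd R K (ad R d 1))
    (a4 : Snd R K (ad R d 4)) :
    (∀ k, k < 28 → N4 R 8 (f k)) ∧ No5 G cnG2X f ∧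
      (PP R r (f k) ∨ (f 2 = f 8 ∧ G.Adj (f 3) (f 7))) := by
  have ht : TabOk G f tG2X := tab_of_rot hR.cub hrot
  have hS : ∀ k, k < 28 → N4 R 8 (f k) := by
    rcases hk with rfl | rfl
    · exact n4_labels (A := G2R) ht chkG2X allR_G2R rfl hN (by norm_num)
    · exact n4_labels (A := G2R) ht chkG2X allR_G2R' rfl hN (by norm_num)
  have hF : No5 G cnG2X f := by
    refine no5_of hR.clsT hrot hd hS (Ls := LsG2X) ?_ corG2X
    intro l hl
    simp only [LsG2X, List.mem_cons, List.not_mem_nil, or_false] at hl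
    rcases hl with rfl | rfl | rfl | rfl | rfl | rfl | rfl | rfl
    · exact h.n2
    · exact h.n6
    · exact h.n3
    · exact h.n5
    · exact h.n02
    · exact h.n13
    · exact h.n422
    · exact h.n423
  refine ⟨hS, hF, ?_⟩
  have hrot' : RotOk R f tG2R := rot_sub hrot
  have hsh : ShOk R K f shG2R := by
    refine shOk_of hrot' hd ?_ (by simp)
    intro l hl
    simp only [List.mem_cons, List.not_mem_nil, or_false] at hl
    rcases hl with rfl | rfl | rfl
    · exact a0.1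
    · exact a1.1
    · exact a4.1
  have hv : k < G2R.t + G2R.m := by
    rcases hk with rfl | rfl <;> decide
  have hne := neOK_G2R
  rw [Bool.and_eq_true, Bool.and_eq_true, Bool.and_eq_true] at hne
  obtain ⟨⟨⟨x0, x27⟩, x28⟩, x38⟩ := hne
  rcases coreG2X hR hR.clsT hrot hS hF with hP | hP | hP | hP | hP
  · left
    have hg : Uni91.Good (sG2R0.pl f) G := hP.good (hx _ x0) data_G2R0 back_G2R0
    exact ⟨sG2R0.pl f, plW shOK_G2R0 hg hr (gainC_of (cut3_of hR) hg rfl hrot' placeC_G2R0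
      hsh goodC_G2R0) hrK, k, ⟨hv, List.not_mem_nil, fun p hp => absurd hp List.not_mem_nil⟩,
      rfl⟩
  · left
    have hg : Uni91.Good (sG2R27.pl f) G := hP.good (hx _ x27) data_G2R27 back_G2R27
    exact ⟨sG2R27.pl f, plW shOK_G2R27 hg hr (gainC_of (cut3_of hR) hg rfl hrot' placeC_G2R27
      hsh goodC_G2R27) hrK, k, ⟨hv, List.not_mem_nil, fun p hp => absurd hp List.not_mem_nil⟩,
      rfl⟩
  · left
    have hg : Uni91.Good (sG2R38.pl f) G := hP.good (hx _ x38) data_G2R back_G2R38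
    exact ⟨sG2R38.pl f, plW shOK_G2R38 hg hr (gainC_of (cut3_of hR) hg rfl hrot' placeC_G2R38
      hsh goodC_G2R38) hrK, k, ⟨hv, List.not_mem_nil, fun p hp => absurd hp List.not_mem_nil⟩,
      rfl⟩
  · left
    have hg : Uni91.Good (sG2R28.pl f) G := hP.good (hx _ x28) data_G2R28 back_G2R28
    exact ⟨sG2R28.pl f, plW shOK_G2R28 hg hr (gainC_of (cut3_of hR) hg rfl hrot' placeC_G2R28
      hsh goodC_G2R28) hrK, k, ⟨hv, List.not_mem_nil, fun p hp => absurd hp List.not_mem_nil⟩,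
      rfl⟩
  · exact Or.inr hP

open Pool.Agent.DischB in
/-- The mirror image of the hypotheses. -/
theorem hypG2R_mir {d : G.Dart} (h : HypG2R R d) : HypG2R (mir R) (R.next d).symm where
  toPair7 := h.toPair7.mir
  s4 := by rw [nb7_mir h.s (by norm_num)]; exact h.s4
  s42 := by
    have s4 : sz R (ad R d 4) = 5 := h.s4
    rw [ad7_mir h.s (by norm_num), nb5_mir s4 (by norm_num)]; exact h.s43
  s43 := by
    have s4 : sz R (ad R d 4) = 5 := h.s4
    rw [ad7_mir h.s (by norm_num), nb5_mir s4 (by norm_num)]; exact h.s42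
  n3 := by rw [nb7_mir h.s (by norm_num)]; exact h.n5
  n5 := by rw [nb7_mir h.s (by norm_num)]; exact h.n3
  n422 := by
    have s4 : sz R (ad R d 4) = 5 := h.s4
    have s43 : sz R (ad R (ad R d 4) 3) = 5 := h.s43
    rw [ad7_mir h.s (by norm_num), ad_mir R s4 (by norm_num), nb5_mir s43 (by norm_num)]
    exact h.n433
  n423 := by
    have s4 : sz R (ad R d 4) = 5 := h.s4
    have s43 : sz R (ad R (ad R d 4) 3) = 5 := h.s43
    rw [ad7_mir h.s (by norm_num), ad_mir R s4 (by norm_num), nb5_mir s43 (by norm_num)]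
    exact h.n432
  n432 := by
    have s4 : sz R (ad R d 4) = 5 := h.s4
    have s42 : sz R (ad R (ad R d 4) 2) = 5 := h.s42
    rw [ad7_mir h.s (by norm_num), ad_mir R s4 (by norm_num), nb5_mir s42 (by norm_num)]
    exact h.n423
  n433 := by
    have s4 : sz R (ad R d 4) = 5 := h.s4
    have s42 : sz R (ad R (ad R d 4) 2) = 5 := h.s42
    rw [ad7_mir h.s (by norm_num), ad_mir R s4 (by norm_num), nb5_mir s42 (by norm_num)]
    exact h.n422

open Pool.Agent.DischB in
/-- **The line g2r of the table of stage C.** -/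
theorem lineC_g2r (hx : ∀ co, neOK G2R co = true → G2R.Ext co) (hR : C4 R) {r : ℕ}
    (hr : 20 ≤ r) (hrK : 10 * (K + 1) ≤ r) (d : G.Dart) (hN : N4 R 60 d.fst) (h : HypG2R R d)
    (o3 : nb R (ad R d 0) 3 = 5) (a0 : Snd R K (ad R d 0)) (a1 : Snd R K (ad R d 1))
    (a4 : Snd R K (ad R d 4)) : PP R r d.fst := by
  have g : Good R d 7 := good_cub hR.cub h.s
  have g0 : Good R (ac R d 0) 5 := good_cub hR.cub (by rw [szac_x]; exact h.s0)
  have g1 : Good R (ac R d 1) 5 := good_cub hR.cub (by rw [szac_x]; exact h.s1)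
  have g4 : Good R (ac R d 4) 5 := good_cub hR.cub (by rw [szac_x]; exact h.s4)
  have gr : Good R (ac R (ac R d 4) 2) 5 :=
    good_cub hR.cub (by rw [szac_x, ac_eq_x]; exact h.s42)
  have gs : Good R (ac R (ac R d 4) 3) 5 :=
    good_cub hR.cub (by rw [szac_x, ac_eq_x]; exact h.s43)
  have go : Good R (ac R (ac R d 0) 3) 5 :=
    good_cub hR.cub (by rw [szac_x, ac_eq_x]; exact o3)
  have hrot : RotOk R (fG2X R d) tG2X := rotG2X g g0 g1 g4 gr gs go
  have hd : Dt (fG2X R d) (10, 11) d := Pool.Agent.Once392.dt_X R d 0 rfl rfl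
  obtain ⟨hS, hF, hP | ⟨e1, -⟩⟩ := lineCore hx hR hr hrK hrot hd (k := 10) (Or.inl rfl) hN h
    a0 a1 a4
  · exact hP
  -- the mirror image
  set d' : G.Dart := (R.next d).symm with hd'
  have hs := h.s
  have hrot' := RotOk.mirG2X hrot
  have hd2 : Dt (fun n => fG2X R d (piG2X n)) (10, 11) d' := by
    have k1 := snd_pow R d 1
    have k2 : (R.next d).fst = X R d 1 := by
      unfold X
      rw [pow_one]
    rw [pow_one] at k1
    exact ⟨k1, k2⟩
  have hN' : N4 (mir R) 60 ((fun n => fG2X R d (piG2X n)) 12) := N4.mir_iff.2 hN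
  have hh := hypG2R_mir h
  have b0 : Snd (mir R) K (ad (mir R) d' 0) := by rw [hd', ad7_mir0 hs]; exact a1.mir
  have b1 : Snd (mir R) K (ad (mir R) d' 1) := by rw [hd', ad7_mir1 hs]; exact a0.mir
  have b4 : Snd (mir R) K (ad (mir R) d' 4) := by
    rw [hd', ad7_mir hs (by norm_num)]; exact a4.mir
  obtain ⟨-, -, hP | ⟨e2, -⟩⟩ := lineCore (R := mir R) hx hR.mir hr hrK hrot' hd2 (k := 12)
    (Or.inr rfl) hN' hh b0 b1 b4
  · exact PP.of_mir hP
  · exact absurd (not_bothG2X hR hR.clsT hrot hS hF e1 e2) not_false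

end Pool.Agent.U2Geo
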