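import Mathlib
import Pool.Agent.Work.MP_392c8e_co_uni.SideM
import Pool.Agent.Work.MP_392c8e_co_uni.GeoNo5
import Pool.Agent.Work.MP_392c8e_co_uni.TabP
import Pool.Agent.Work.MP_392c8e_co_uni.RedP

/-!
# The patch P1: a face of length seven with neighbours of length five across the edges 0, 1, 3, 4
-/

namespace Pool.Agent.U2Geo

open Finset Pool.Agent.Sub392 Pool.T1Side Pool.Agent.T392 Pool.Agent.T1FF Pool.Agent.T1Red

set_option linter.unusedSectionVars false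

variable {V : Type} [Fintype V] [DecidableEq V] {G : SimpleGraph V} [DecidableRel G.Adj]
  {R : Rot G}

/-- Certificate. -/
def P1_steps : List StepL := [
  .ne 0 10 (.base (.tri 0 9 15)), .ne 0 13 (.base (.tri 0 14 15)),
  .ne 0 16 (.base (.tri 0 9 15)), .ne 0 25 (.base (.tri 0 14 15)),
  .ne 1 2 (.base (.tri 1 17 16)), .ne 1 10 (.base (.tri 9 16 1)), .ne 1 15 (.base (.tri 9 16 1)),
  .ne 1 18 (.base (.tri 1 17 16)), .ne 2 9 (.base (.tri 2 16 17)),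
  .ne 2 10 (.base (.tri 17 18 2)), .ne 2 19 (.base (.tri 17 18 2)),
  .ne 3 4 (.base (.tri 19 20 3)), .ne 3 10 (.base (.tri 3 19 18)),
  .ne 3 11 (.base (.tri 19 20 3)), .ne 3 17 (.base (.tri 3 19 18)),
  .ne 4 10 (.base (.tri 11 20 4)), .ne 4 12 (.base (.tri 11 20 4)),
  .ne 4 18 (.base (.tri 19 20 4)), .ne 5 6 (.base (.tri 5 21 22)),
  .ne 5 11 (.base (.tri 5 21 12)), .ne 5 13 (.base (.tri 5 21 12)),
  .ne 5 23 (.base (.tri 5 21 22)), .ne 6 12 (.base (.tri 6 21 22)),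
  .ne 6 13 (.base (.tri 22 23 6)), .ne 6 24 (.base (.tri 22 23 6)),
  .ne 7 8 (.base (.tri 24 25 7)), .ne 7 13 (.base (.tri 7 23 24)),
  .ne 7 14 (.base (.tri 24 25 7)), .ne 7 22 (.base (.tri 7 23 24)),
  .ne 8 13 (.base (.tri 8 14 25)), .ne 8 15 (.base (.tri 8 14 25)),
  .ne 8 23 (.base (.tri 24 25 8)), .ne 9 12 (.base (.tri 9 10 11)),
  .ne 9 13 (.base (.tri 9 14 15)), .ne 9 19 (.base (.tri 9 10 18)),
  .ne 9 20 (.base (.tri 9 10 11)), .ne 9 25 (.base (.tri 9 14 15)),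
  .ne 10 13 (.base (.tri 10 11 12)), .ne 10 14 (.base (.tri 9 10 15)),
  .ne 10 21 (.base (.tri 10 11 12)), .ne 11 14 (.base (.tri 11 13 12)),
  .ne 11 15 (.base (.tri 9 10 11)), .ne 11 16 (.base (.tri 9 10 11)),
  .ne 11 17 (.base (.tri 10 11 18)), .ne 11 22 (.base (.tri 11 12 21)),
  .ne 11 23 (.base (.tri 11 13 12)), .ne 12 15 (.base (.tri 12 13 14)),
  .ne 12 18 (.base (.tri 10 11 12)), .ne 12 19 (.base (.tri 11 20 12)),
  .ne 12 24 (.base (.tri 12 13 23)), .ne 12 25 (.base (.tri 12 13 14)),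
  .ne 13 20 (.base (.tri 11 13 12)), .ne 14 16 (.base (.tri 9 14 15)),
  .ne 14 21 (.base (.tri 12 13 14)), .ne 14 22 (.base (.tri 13 14 23)),
  .ne 15 17 (.base (.tri 9 16 15)), .ne 15 18 (.base (.tri 9 10 15)),
  .ne 15 23 (.base (.tri 13 14 15)), .ne 15 24 (.base (.tri 14 25 15)),
  .ne 16 19 (.base (.tri 16 18 17)), .ne 17 20 (.base (.tri 17 18 19)),
  .ne 20 21 (.base (.tri 11 20 12)), .ne 21 24 (.base (.tri 21 22 23)),
  .ne 22 25 (.base (.tri 22 23 24)),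
  .ne 0 1 (.base (.corner 10 9 15 [0, 16, 17, 18] [14, 13, 12, 11])),
  .ne 0 8 (.base (.corner 14 13 23 [24, 25] [24, 25, 0, 15])),
  .ne 0 11 (.base (.corner 10 9 15 [0] [14, 13, 12, 0])),
  .ne 0 12 (.base (.corner 10 9 15 [0, 11] [14, 13, 0, 11])),
  .ne 0 17 (.base (.corner 10 9 15 [0, 18] [14, 13, 12, 11])),
  .ne 0 18 (.base (.corner 10 9 15 [0] [14, 13, 12, 11])),
  .ne 0 23 (.base (.corner 10 9 15 [0, 13, 12, 11] [14, 13, 12, 11])),
  .ne 0 24 (.base (.corner 14 13 23 [0, 25] [0, 15])),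
  .ne 1 11 (.base (.corner 16 9 10 [1] [18, 17])),
  .ne 1 14 (.base (.corner 10 9 15 [1, 16, 17, 18] [1, 13, 12, 11])),
  .ne 1 19 (.base (.corner 16 9 10 [18, 17] [18, 1])),
  .ne 2 3 (.base (.corner 16 9 10 [18, 17] [18, 19, 2, 17])),
  .ne 2 11 (.base (.corner 16 9 10 [2, 17] [18, 17])),
  .ne 2 15 (.base (.corner 10 9 2 [17, 18] [14, 13, 12, 11])),
  .ne 2 20 (.base (.corner 16 9 10 [18, 17] [11, 2, 17])),
  .ne 3 9 (.base (.corner 3 10 18 [19] [17, 16])),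
  .ne 3 12 (.base (.corner 18 10 11 [3, 19] [20, 19])),
  .ne 3 16 (.base (.corner 10 9 3 [19, 18] [17, 18])),
  .ne 4 9 (.base (.corner 18 10 4 [16, 17] [20, 19])),
  .ne 4 13 (.base (.corner 18 10 11 [20, 19] [12, 4, 20, 19])),
  .ne 4 17 (.base (.corner 18 10 11 [20, 19] [20, 4])),
  .ne 4 21 (.base (.corner 18 10 11 [20, 19] [12, 4, 20, 19])),
  .ne 5 10 (.base (.corner 11 5 21 [12] [22, 23, 13, 12])),
  .ne 5 14 (.base (.corner 13 5 21 [12] [22, 23])),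
  .ne 5 20 (.base (.corner 11 5 21 [12] [22, 23, 13, 12])),
  .ne 5 24 (.base (.corner 23 5 21 [22] [12, 13])),
  .ne 6 7 (.base (.corner 12 21 22 [23, 13] [6, 24, 23, 13])),
  .ne 6 11 (.base (.corner 12 6 22 [21] [23, 13])),
  .ne 6 14 (.base (.corner 12 21 22 [6, 13] [23, 13])),
  .ne 6 25 (.base (.corner 12 21 22 [23, 13] [6, 14, 13])),
  .ne 7 12 (.base (.corner 22 21 7 [24, 23] [13, 23])),
  .ne 7 15 (.base (.corner 24 7 14 [25] [13, 23])),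
  .ne 7 21 (.base (.corner 13 12 7 [24, 23] [22, 23])),
  .ne 8 9 (.base (.corner 14 13 23 [24, 25] [24, 25, 8, 15])),
  .ne 8 12 (.base (.corner 24 23 13 [8, 25] [14, 25])),
  .ne 8 22 (.base (.corner 25 8 23 [24] [13, 14])),
  .ne 9 21 (.base (.corner 10 9 12 [11] [11, 20, 19, 18])),
  .ne 9 23 (.base (.corner 9 10 11 [12, 13] [12, 13, 14, 15])),
  .ne 9 24 (.base (.corner 14 13 23 [9, 15] [9, 25])),
  .ne 10 22 (.base (.corner 10 9 15 [14, 13, 23] [14, 25, 24, 23])),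
  .ne 10 23 (.base (.corner 10 9 15 [14, 13] [14, 25, 24])),
  .ne 10 25 (.base (.corner 10 9 15 [14] [14, 13, 12, 11])),
  .ne 11 24 (.base (.corner 10 9 15 [14, 25, 11] [14, 13, 12, 11])),
  .ne 11 25 (.base (.corner 10 9 15 [14, 11] [14, 13, 12, 11])),
  .ne 12 16 (.base (.corner 10 9 12 [11] [17, 18])), .ne 12 17 (.five 20 11 12 18 19),
  .ne 13 16 (.base (.corner 10 9 13 [12, 11] [17, 18])), .ne 13 18 (.five 20 11 12 13 19),
  .ne 13 19 (.base (.corner 18 10 11 [20, 13] [12, 13])),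
  .ne 14 17 (.base (.corner 16 9 10 [18, 14] [11, 12, 13, 14])),
  .ne 14 18 (.base (.corner 10 9 15 [14] [14, 13, 12, 11])),
  .ne 14 20 (.base (.corner 10 9 15 [14, 11] [14, 13, 12, 11])),
  .ne 15 19 (.base (.corner 10 9 15 [18] [20, 11])),
  .ne 15 20 (.base (.corner 16 9 15 [19, 18, 17] [11, 10, 18, 17])),
  .ne 15 21 (.base (.corner 10 9 15 [12, 11] [14, 13, 12, 11])),
  .ne 15 22 (.base (.corner 14 15 23 [13] [24, 25])),
  .ne 16 20 (.base (.corner 16 9 10 [11] [18, 17])),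
  .ne 16 25 (.base (.corner 16 9 10 [18, 17] [11, 12, 13, 14])),
  .ne 18 21 (.five 20 11 12 18 19), .ne 19 21 (.base (.corner 18 10 11 [20, 19] [12, 19])),
  .ne 20 22 (.five 20 11 12 13 23), .ne 20 23 (.five 20 11 12 21 22),
  .ne 21 25 (.base (.corner 10 9 15 [14, 21, 12, 11] [14, 13, 12, 11])),
  .ne 0 2 (.base (.corner 10 9 15 [0, 17, 18] [14, 13, 12, 11])),
  .ne 0 7 (.base (.corner 14 13 23 [24, 25] [24, 0, 15])),
  .ne 0 19 (.base (.corner 10 9 15 [0, 18] [0, 20, 11])),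
  .ne 0 20 (.base (.corner 10 9 15 [0, 11] [0, 19, 18])),
  .ne 0 21 (.base (.corner 10 9 15 [0, 12, 11] [14, 13, 12, 11])),
  .ne 0 22 (.base (.corner 10 9 15 [0, 21, 12, 11] [14, 13, 12, 11])),
  .ne 1 3 (.base (.corner 16 9 10 [18, 17] [18, 19, 1])),
  .ne 1 12 (.base (.corner 16 9 10 [18, 17] [11, 1])),
  .ne 1 13 (.base (.corner 16 9 10 [18, 17] [11, 12, 1])),
  .ne 1 20 (.base (.corner 16 9 10 [18, 17] [11, 1])),
  .ne 1 25 (.base (.corner 9 15 14 [1, 16] [13, 12, 11, 10])),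
  .ne 2 4 (.base (.corner 16 9 10 [18, 17] [11, 20, 2, 17])),
  .ne 2 12 (.base (.corner 16 9 10 [18, 17] [11, 2, 17])),
  .ne 2 14 (.base (.corner 10 9 15 [2, 17, 18] [2, 13, 12, 11])), .ne 3 13 (.five 20 11 12 3 19),
  .ne 3 15 (.base (.corner 10 9 3 [19, 18] [19, 20, 11])), .ne 3 21 (.five 20 11 12 3 19),
  .ne 4 5 (.five 20 11 12 21 4), .ne 4 14 (.five 20 11 12 13 4),
  .ne 4 15 (.base (.corner 10 9 4 [20, 11] [20, 19, 18])),
  .ne 4 16 (.base (.corner 10 9 4 [20, 11] [17, 18])), .ne 4 22 (.five 20 11 12 21 4),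
  .ne 4 23 (.five 20 11 12 13 4), .ne 5 7 (.base (.corner 24 5 21 [22, 23] [12, 13, 23])),
  .ne 5 9 (.base (.corner 21 5 15 [14, 13, 12] [14, 13, 23, 22])),
  .ne 5 15 (.base (.corner 10 9 5 [21, 12, 11] [14, 13, 12, 11])),
  .ne 5 18 (.base (.corner 11 10 5 [19, 20] [21, 12])), .ne 5 19 (.five 20 11 12 21 5),
  .ne 5 25 (.base (.corner 24 5 21 [22, 23] [12, 13, 23])),
  .ne 6 8 (.base (.corner 12 21 22 [23, 13] [6, 25, 14, 13])),
  .ne 6 10 (.base (.corner 11 6 22 [21, 12] [23, 13, 12])),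
  .ne 6 15 (.base (.corner 12 21 22 [23, 13] [6, 14, 13])),
  .ne 6 20 (.base (.corner 12 21 22 [6, 11] [23, 13])),
  .ne 7 9 (.base (.corner 14 13 23 [24, 25] [24, 7, 15])),
  .ne 7 11 (.base (.corner 12 21 22 [23, 13] [23, 24, 7])),
  .ne 8 10 (.base (.corner 8 9 15 [14, 25] [14, 13, 12, 11])),
  .ne 8 11 (.base (.corner 10 9 15 [14, 25, 8] [14, 13, 12, 8])),
  .ne 8 16 (.base (.corner 9 15 14 [25, 8] [13, 12, 11, 10])),
  .ne 8 21 (.base (.corner 8 12 13 [14, 25] [23, 22])),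
  .ne 9 22 (.base (.corner 15 9 23 [13, 14] [24, 25, 14])),
  .ne 10 24 (.base (.corner 10 9 15 [14, 25] [14, 13, 23])),
  .ne 13 17 (.base (.corner 16 9 10 [18, 13] [11, 12, 13])), .ne 14 19 (.five 20 11 12 13 14),
  .ne 16 21 (.base (.corner 16 9 10 [18, 17] [11, 12])),
  .ne 16 23 (.base (.corner 16 9 10 [18, 17] [11, 12, 13])),
  .ne 16 24 (.base (.corner 16 9 10 [18, 17] [11, 12, 13, 23])),
  .ne 17 21 (.base (.corner 16 9 10 [18, 17] [11, 12, 17])),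
  .ne 17 25 (.base (.corner 10 9 15 [14, 17, 18] [14, 13, 12, 11])),
  .ne 18 22 (.base (.corner 10 9 15 [14, 13, 12, 11] [14, 13, 23, 18])),
  .ne 18 23 (.base (.corner 10 9 15 [14, 13, 18] [14, 25, 24, 18])),
  .ne 18 25 (.base (.corner 10 9 15 [14, 18] [14, 13, 12, 11])),
  .ne 19 22 (.five 20 11 12 21 19), .ne 19 23 (.five 20 11 12 13 19),
  .ne 20 24 (.five 20 11 12 13 23), .ne 20 25 (.five 20 11 12 13 14),
  .ne 0 3 (.base (.corner 10 9 15 [0, 19, 18] [0, 19, 20, 11])),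
  .ne 0 4 (.base (.corner 10 9 15 [0, 20, 11] [0, 20, 19, 18])),
  .ne 0 5 (.base (.corner 10 9 15 [0, 21, 12, 11] [14, 13, 12, 11])),
  .ne 0 6 (.base (.corner 12 21 22 [23, 13] [0, 15, 14, 13])),
  .ne 1 4 (.base (.corner 16 9 10 [18, 17] [11, 20, 1])),
  .ne 1 8 (.base (.corner 9 15 14 [25, 1, 16] [13, 12, 11, 10])),
  .ne 1 21 (.base (.corner 16 9 10 [18, 17] [11, 12, 1])),
  .ne 1 23 (.base (.corner 16 9 10 [18, 17] [11, 12, 13, 1])),
  .ne 1 24 (.base (.corner 16 9 15 [14, 25, 1] [14, 13, 23, 1])),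
  .ne 2 13 (.base (.corner 16 9 10 [18, 17] [11, 12, 2, 17])),
  .ne 2 21 (.base (.corner 16 9 10 [18, 17] [11, 12, 2, 17])),
  .ne 2 25 (.base (.corner 10 9 15 [14, 2, 17, 18] [14, 13, 12, 11])),
  .ne 3 5 (.base (.corner 18 10 11 [20, 19] [12, 21, 3, 19])),
  .ne 3 14 (.base (.corner 10 9 15 [3, 19, 18] [3, 19, 20, 11])),
  .ne 3 22 (.base (.corner 18 10 11 [20, 19] [12, 21, 3, 19])),
  .ne 3 23 (.base (.corner 18 10 11 [20, 19] [12, 13, 3, 19])),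
  .ne 4 6 (.base (.corner 12 21 22 [23, 13] [4, 20, 11])),
  .ne 4 24 (.base (.corner 12 21 22 [23, 13] [23, 4, 20, 11])),
  .ne 4 25 (.base (.corner 10 9 15 [14, 4, 20, 11] [14, 13, 12, 11])),
  .ne 5 8 (.base (.corner 25 5 21 [12, 13, 14] [22, 23, 24])),
  .ne 5 16 (.base (.corner 10 9 5 [17, 18] [21, 12, 11])),
  .ne 5 17 (.base (.corner 16 9 10 [18, 5] [11, 12, 21, 5])),
  .ne 6 9 (.base (.corner 12 21 22 [23, 13] [6, 10, 11])),
  .ne 6 18 (.base (.corner 11 10 6 [19, 20] [22, 21, 12])),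
  .ne 6 19 (.base (.corner 18 10 11 [20, 6] [12, 21, 22, 6])),
  .ne 7 10 (.base (.corner 15 9 7 [24, 25, 14] [24, 23, 13, 14])),
  .ne 7 16 (.base (.corner 15 9 7 [24, 25, 14] [24, 23, 13, 14])),
  .ne 7 20 (.base (.corner 12 21 22 [23, 13] [23, 24, 7, 11])),
  .ne 8 17 (.base (.corner 10 9 15 [14, 25, 8, 18] [14, 13, 12, 11])),
  .ne 8 18 (.base (.corner 10 9 15 [14, 25, 8] [14, 13, 12, 11])),
  .ne 8 20 (.base (.corner 10 9 15 [14, 25, 8, 11] [14, 13, 12, 11])),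
  .ne 16 22 (.base (.corner 16 9 10 [18, 17] [11, 12, 21])),
  .ne 17 22 (.base (.corner 16 9 10 [18, 17] [11, 12, 21, 17])),
  .ne 17 23 (.base (.corner 16 9 10 [18, 17] [11, 12, 13, 17])),
  .ne 17 24 (.base (.corner 16 9 15 [14, 25, 17] [14, 13, 23, 17])),
  .ne 18 24 (.base (.corner 10 9 15 [14, 25, 18] [14, 13, 12, 11])),
  .ne 19 24 (.base (.corner 10 9 15 [14, 25, 19, 18] [14, 13, 12, 11])),
  .ne 19 25 (.base (.corner 10 9 15 [14, 19, 18] [14, 19, 20, 11])),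
  .ne 1 5 (.base (.corner 16 9 10 [18, 17] [11, 12, 21, 1])),
  .ne 1 7 (.base (.corner 24 25 14 [13, 23] [15, 9, 16, 1])),
  .ne 1 22 (.base (.corner 16 9 10 [18, 17] [11, 12, 21, 1])),
  .ne 2 5 (.base (.corner 18 10 11 [20, 19] [12, 21, 2, 17])),
  .ne 2 8 (.base (.corner 9 16 17 [18, 10] [2, 25, 14, 15])),
  .ne 2 22 (.base (.corner 18 10 11 [20, 19] [12, 21, 2, 17])),
  .ne 2 23 (.base (.corner 18 10 11 [20, 19] [12, 13, 2, 17])),
  .ne 2 24 (.base (.corner 9 16 17 [18, 10] [2, 25, 14, 15])),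
  .ne 3 6 (.base (.corner 12 21 22 [23, 13] [3, 19, 20, 11])),
  .ne 3 24 (.base (.corner 11 20 19 [18, 10] [3, 23, 13, 12])),
  .ne 3 25 (.base (.corner 10 9 15 [14, 3, 19, 18] [14, 13, 12, 11])),
  .ne 4 7 (.base (.corner 11 12 13 [14, 15, 9, 10] [23, 24, 4, 20])),
  .ne 4 8 (.base (.corner 11 12 13 [14, 25, 4, 20] [14, 15, 9, 10])),
  .ne 6 16 (.base (.corner 10 9 6 [17, 18] [22, 21, 12, 11])),
  .ne 6 17 (.base (.corner 18 10 11 [20, 19] [12, 21, 22, 6])),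
  .ne 7 17 (.base (.corner 9 16 7 [18, 10] [24, 25, 14, 15])),
  .ne 7 18 (.base (.corner 10 9 15 [14, 25, 24, 7] [14, 13, 12, 11])),
  .ne 7 19 (.base (.corner 11 20 7 [18, 10] [24, 23, 13, 12])),
  .ne 8 19 (.base (.corner 10 9 15 [14, 25, 8, 18] [14, 13, 12, 11])),
  .na 1 11 (.base (.corner 16 9 10 [18, 17] [11, 1])),
  .na 2 11 (.base (.corner 16 9 10 [18, 17] [11, 2, 17])),
  .na 2 15 (.base (.corner 10 9 15 [2, 17, 18] [14, 13, 12, 11])),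
  .na 3 9 (.base (.corner 10 9 3 [19, 18] [19, 20, 11])), .na 3 12 (.five 20 11 12 3 19),
  .na 9 21 (.base (.corner 21 9 15 [14, 13, 12] [14, 13, 23, 22])),
  .na 9 24 (.base (.corner 24 9 15 [14, 25] [14, 13, 23])),
  .na 10 22 (.base (.corner 10 9 15 [14, 13, 12, 11] [14, 13, 23, 22])),
  .na 10 25 (.base (.corner 10 9 15 [14, 25] [14, 13, 12, 11])),
  .na 11 24 (.base (.corner 10 9 15 [14, 25, 24, 11] [14, 13, 12, 11])),
  .na 12 16 (.base (.corner 16 9 10 [18, 17] [11, 12])),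
  .na 12 17 (.base (.corner 16 9 10 [18, 17] [11, 12, 17])), .na 13 19 (.five 20 11 12 13 19),
  .na 14 17 (.base (.corner 10 9 15 [14, 17, 18] [14, 13, 12, 11])),
  .na 14 18 (.base (.corner 10 9 15 [14, 18] [14, 13, 12, 11])),
  .na 15 19 (.base (.corner 10 9 15 [19, 18] [19, 20, 11])),
  .na 16 25 (.base (.corner 9 15 14 [25, 16] [13, 12, 11, 10])),
  .na 18 21 (.base (.corner 18 10 11 [20, 19] [12, 21])), .na 20 23 (.five 20 11 12 13 23),
  .ne 1 6 (.long 16 9 10 [11, 12, 21, 22, 1] [18, 17]),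
  .ne 2 6 (.long 18 10 11 [12, 21, 22, 2, 17] [20, 19]),
  .ne 2 7 (.long 9 16 17 [2, 24, 25, 14, 15] [18, 10]),
  .ne 3 7 (.long 11 20 19 [3, 24, 23, 13, 12] [18, 10]),
  .ne 3 8 (.long 10 9 15 [14, 25, 3, 19, 18] [14, 13, 12, 11])]

theorem P1_chk : chk P1.ed (inner P1) tP1 = true := by
  decide +kernel

theorem P1_base : finM P1 [] [] [] [] [(12, 11, 20)] P1_steps = true := by
  decide +kernel

theorem P1_com : finC P1 [] [(1, 2), (3, 4), (5, 6), (7, 8)]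
    [(17, 16, 1), (20, 19, 3), (22, 21, 5), (25, 24, 7)]
    [.cn 1 2 26 (.five 1 16 17 2 26), .cn 3 4 26 (.five 3 19 20 4 26),
      .cn 5 6 26 (.five 5 21 22 6 26), .cn 7 8 26 (.five 7 24 25 8 26)] = true := by
  decide +kernel

/-- **The patch P1.** -/
theorem C5.patchP1 (h : C5 R) (h13 : 13 ≤ Fintype.card V) {d : G.Dart} (hd : sz R d = 7)
    (g0 : sz R (ac R d 0) = 5) (g1 : sz R (ac R d 1) = 5) (g3 : sz R (ac R d 3) = 5)
    (g4 : sz R (ac R d 4) = 5) (n2 : sz R (ac R d 2) ≠ 5)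
    (m0 : sz R (ac R (ac R d 0) 2) ≠ 5) (m1 : sz R (ac R (ac R d 1) 3) ≠ 5)
    (m3 : sz R (ac R (ac R d 3) 2) ≠ 5) (m4 : sz R (ac R (ac R d 4) 3) ≠ 5) :
    Patch G P1 [] [] [(1, 2), (3, 4), (5, 6), (7, 8)] [] (fP1 R d) := by
  have hG := h.cls h13
  have h7 := h.good hd
  have e1 : X R (ac R d 1) 4 = Y R d 2 := h7.ac_last 1 (h.good g1) (by norm_num)
  have e4 : X R (ac R d 4) 4 = Y R d 5 := h7.ac_last 4 (h.good g4) (by norm_num)
  have hb : Patch G P1 [] [] [] [] (fP1 R d) := by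
    refine patch_ofM hG (tabP1 h7 (h.good g0) (h.good g1) (h.good g3) (h.good g4)) P1_chk ?_ P1_base
    intro e he x y
    simp only [List.mem_cons, List.not_mem_nil, or_false] at he
    subst he
    exact h.no5a d 2 n2 x y
  refine hb.more hG ?_ P1_com
  intro e he x y
  simp only [List.mem_cons, List.not_mem_nil, or_false] at he
  rcases he with rfl | rfl | rfl | rfl
  · have := h.no5a (ac R d 0) 2 m0 x y
    rwa [ac_X2] at this
  · have := h.no5a (ac R d 1) 3 m1 x y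
    rwa [e1] at this
  · have := h.no5a (ac R d 3) 2 m3 x y
    rwa [ac_X2] at this
  · have := h.no5a (ac R d 4) 3 m4 x y
    rwa [e4] at this

end Pool.Agent.U2Geo
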