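import Mathlib
import Pool.Agent.Work.MP_392c8e_co_uni.BaseP2
import Pool.Agent.Work.MP_392c8e_co_uni.GeoNo5

/-!
# The patch P2: a face of length seven with neighbours of length five across the edges 0, 1, 3, 5
-/

namespace Pool.Agent.U2Geo

open Finset Pool.Agent.Sub392 Pool.T1Side Pool.Agent.T392 Pool.Agent.T1FF Pool.Agent.T1Red

set_option linter.unusedSectionVars false

variable {V : Type} [Fintype V] [DecidableEq V] {G : SimpleGraph V} [DecidableRel G.Adj]
  {R : Rot G}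

theorem P2_com : finC (P2 (4, 6) (7, 9)) [] [(0, 1), (2, 3), (4, 6), (7, 9)]
    [(18, 17, 0), (21, 20, 2)]
    [.cn 0 1 28 (.five 0 17 18 1 28), .cn 2 3 28 (.five 2 20 21 3 28),
      .cn 4 6 28 (.base (.corner 24 6 28 [4, 22, 23] [4, 22, 13, 14])),
      .cn 7 9 28 (.base (.corner 25 26 27 [16, 15] [9, 28, 7]))] = true := by
  decide +kernel

/-- **The patch P2.** -/
theorem C5.patchP2 (h : C5 R) (h13 : 13 ≤ Fintype.card V) {d : G.Dart} (hd : sz R d = 7)
    (g0 : sz R (ac R d 0) = 5) (g1 : sz R (ac R d 1) = 5) (g3 : sz R (ac R d 3) = 5)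
    (g5 : sz R (ac R d 5) = 5) (n2 : sz R (ac R d 2) ≠ 5) (n4 : sz R (ac R d 4) ≠ 5)
    (n6 : sz R (ac R d 6) ≠ 5) (m0 : sz R (ac R (ac R d 0) 2) ≠ 5)
    (m1 : sz R (ac R (ac R d 1) 3) ≠ 5) :
    Patch G (P2 (4, 6) (7, 9)) [] [] [(0, 1), (2, 3), (4, 6), (7, 9)] [] (fP2 R d) := by
  have hG := h.cls h13
  have h7 := h.good hd
  have e1 : X R (ac R d 1) 4 = Y R d 2 := h7.ac_last 1 (h.good g1) (by norm_num)
  have e7 : X R d 7 = X R d 0 := by
    have := h7.pow_add 0
    unfold X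
    rw [← this]
  have hb : Patch G (P2 (4, 5) (7, 8)) [] [] [] [] (fP2 R d) := by
    refine patch_ofM hG (tabP2 h7 (h.good g0) (h.good g1) (h.good g3) (h.good g5)) P2_chk ?_ P2_base
    intro e he u v
    simp only [List.mem_cons, List.not_mem_nil, or_false] at he
    rcases he with rfl | rfl | rfl
    · exact h.no5a d 2 n2 u v
    · exact h.no5a d 4 n4 u v
    · have := h.no5a d 6 n6 u v
      rwa [e7] at this
  have hb' : Patch G (P2 (4, 6) (7, 9)) [] [] [] [] (fP2 R d) :=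
    ⟨hb.inj, hb.adj, hb.nbr, hb.hC, hb.hT⟩
  refine hb'.more hG ?_ P2_com
  intro e he u v
  simp only [List.mem_cons, List.not_mem_nil, or_false] at he
  rcases he with rfl | rfl
  · have := h.no5a (ac R d 0) 2 m0 u v
    rwa [ac_X2] at this
  · have := h.no5a (ac R d 1) 3 m1 u v
    rwa [e1] at this

end Pool.Agent.U2Geo
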