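import Mathlib
import Pool.Agent.Work.MP_392c8e_co_uni.PatchP1
import Pool.Agent.Work.MP_392c8e_co_uni.PatchP2
import Pool.Agent.Work.MP_392c8e_co_uni.GeoGood
import Pool.Agent.Work.MP_392c8e_co_uni.LineM2
import Pool.Agent.Work.MP_392c8e_co_uni.Shape
import Pool.Agent.Work.MP_392c8e_co_uni.NoTwo

/-!
# The lines p1 and p2 of the table
-/

namespace Pool.Agent.U2Geo

open Finset Pool.Agent.Sub392 Pool.T1Side Pool.Agent.T392 Pool.Agent.T1FF Pool.Agent.T1Red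
open Pool.Agent.Disch392 (nb ad NoC Near nb_ad_zero nb_ad_one nb_ad_last ad_per nb_per c5)

set_option linter.unusedSectionVars false

variable {V : Type} [Fintype V] [DecidableEq V] {G : SimpleGraph V} [DecidableRel G.Adj]
  {R : Rot G}

/-- The paths of P1. -/
def psP1 : List (ℕ × List ℕ × ℕ) :=
  [(1, [16, 17], 2), (3, [19, 20], 4), (5, [21, 22], 6), (7, [24, 25], 8)]

/-- The paths of P2. -/
def psP2 : List (ℕ × List ℕ × ℕ) :=
  [(0, [17, 18], 1), (2, [20, 21], 3), (4, [22, 23, 24], 6), (7, [25, 26, 27], 9)]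

theorem P1_ok : PsOk P1 [] psP1 [] := by
  constructor <;> decide

theorem P2_ok : PsOk (P2 (4, 6) (7, 9)) [] psP2 [] := by
  constructor <;> decide

theorem P2s_data : Data (P2 (4, 6) (7, 9)) [] psP2 [] [] [(0, 1), (2, 3), (4, 6), (7, 9)] [] :=
  P2_data (4, 6) (by decide) (7, 9) (by decide)

/-- The shape P1. -/
def sP1 : Shape := ⟨P1, [], psP1, [], [(1, 2), (3, 4), (5, 6), (7, 8)], []⟩

/-- The shape P2. -/
def sP2 : Shape := ⟨P2 (4, 6) (7, 9), [], psP2, [], [(0, 1), (2, 3), (4, 6), (7, 9)], []⟩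

/-- A face of length seven with neighbours of length five across the edges 0, 1, 3, 4. -/
structure IsP1 (R : Rot G) (d : G.Dart) : Prop where
  s : sz R d = 7
  s0 : sz R (ac R d 0) = 5
  s1 : sz R (ac R d 1) = 5
  s3 : sz R (ac R d 3) = 5
  s4 : sz R (ac R d 4) = 5
  n2 : sz R (ac R d 2) ≠ 5
  n02 : sz R (ac R (ac R d 0) 2) ≠ 5
  n13 : sz R (ac R (ac R d 1) 3) ≠ 5
  n32 : sz R (ac R (ac R d 3) 2) ≠ 5
  n43 : sz R (ac R (ac R d 4) 3) ≠ 5

/-- A face of length seven with neighbours of length five across the edges 0, 1, 3, 5. -/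
structure IsP2 (R : Rot G) (d : G.Dart) : Prop where
  s : sz R d = 7
  s0 : sz R (ac R d 0) = 5
  s1 : sz R (ac R d 1) = 5
  s3 : sz R (ac R d 3) = 5
  s5 : sz R (ac R d 5) = 5
  n2 : sz R (ac R d 2) ≠ 5
  n4 : sz R (ac R d 4) ≠ 5
  n6 : sz R (ac R d 6) ≠ 5
  n02 : sz R (ac R (ac R d 0) 2) ≠ 5
  n13 : sz R (ac R (ac R d 1) 3) ≠ 5

/-- **The place P1.** -/
theorem good_P1 (hext : P1.Ext []) (hR : C5 R) (h13 : 13 ≤ Fintype.card V) {d : G.Dart}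
    (h : IsP1 R d) : Uni91.Good (sP1.pl (fP1 R d)) G :=
  good_of hext P1_data P1_ok
    (hR.patchP1 h13 h.s h.s0 h.s1 h.s3 h.s4 h.n2 h.n02 h.n13 h.n32 h.n43)

/-- **The place P2.** -/
theorem good_P2 (hext : (P2 (4, 6) (7, 9)).Ext []) (hR : C5 R) (h13 : 13 ≤ Fintype.card V)
    {d : G.Dart} (h : IsP2 R d) : Uni91.Good (sP2.pl (fP2 R d)) G :=
  good_of hext P2s_data P2_ok
    (hR.patchP2 h13 h.s h.s0 h.s1 h.s3 h.s5 h.n2 h.n4 h.n6 h.n02 h.n13)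

theorem mem_vert_P1 (R : Rot G) (d : G.Dart) : d.fst ∈ (sP1.pl (fP1 R d)).Vert :=
  ⟨9, (⟨by decide, by decide, by decide⟩ : Real P1 [] [] 9), rfl⟩

theorem mem_vert_P2 (R : Rot G) (d : G.Dart) : d.fst ∈ (sP2.pl (fP2 R d)).Vert :=
  ⟨10, (⟨by decide, by decide, by decide⟩ : Real (P2 (4, 6) (7, 9)) [] [] 10), rfl⟩

theorem isP1_of (hR : C5 R) (d : G.Dart) (hN : NoC R d) (hs : sz R d = 7) (h0 : nb R d 0 = 5)
    (h1 : nb R d 1 = 5) (h3 : nb R d 3 = 5) (h4 : nb R d 4 = 5) : IsP1 R d := by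
  have n1 : Near R 1 d (ad R d 0) := (Near.refl R 0 d).ad' 0
  have n2 : Near R 2 d (ad R d 1) := (Near.refl R 0 d).ad' 1
  have n3 : Near R 4 d (ad R d 3) := (Near.refl R 0 d).ad' 3
  have n4 : Near R 5 d (ad R d 4) := (Near.refl R 0 d).ad' 4
  have a4 : nb R (ad R d 0) 4 = 5 := by rw [nb_ad_last hR.cub d h0]; exact h1
  have b1 : nb R (ad R d 1) 1 = 5 := by rw [nb_ad_one hR.cub d 0]; exact h0
  have c4 : nb R (ad R d 3) 4 = 5 := by rw [nb_ad_last hR.cub d h3]; exact h4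
  have e1 : nb R (ad R d 4) 1 = 5 := by rw [nb_ad_one hR.cub d 3]; exact h3
  refine ⟨hs, ?_, ?_, ?_, ?_, ?_, ?_, ?_, ?_, ?_⟩
  · rw [sz_ac]; exact h0
  · rw [sz_ac]; exact h1
  · rw [sz_ac]; exact h3
  · rw [sz_ac]; exact h4
  · rw [sz_ac, ← nb_ad_last hR.cub d h1]
    exact hN.three n2 h1 (i := 1) (by norm_num) b1
  · rw [sz_ac, ac_eq_ad]
    intro h2
    exact hN.two n1 h0 (i := 2) (by norm_num) h2 a4
  · rw [sz_ac, ac_eq_ad]
    exact hN.two n2 h1 (i := 1) (by norm_num) b1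
  · rw [sz_ac, ac_eq_ad]
    intro h2
    exact hN.two n3 h3 (i := 2) (by norm_num) h2 c4
  · rw [sz_ac, ac_eq_ad]
    exact hN.two n4 h4 (i := 1) (by norm_num) e1

theorem isP2_of (hR : C5 R) (d : G.Dart) (hN : NoC R d) (hs : sz R d = 7) (h0 : nb R d 0 = 5)
    (h1 : nb R d 1 = 5) (h3 : nb R d 3 = 5) (h5 : nb R d 5 = 5) : IsP2 R d := by
  have n1 : Near R 1 d (ad R d 0) := (Near.refl R 0 d).ad' 0
  have n2 : Near R 2 d (ad R d 1) := (Near.refl R 0 d).ad' 1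
  have n4 : Near R 5 d (ad R d 4) := (Near.refl R 0 d).ad' 4
  have n6 : Near R 7 d (ad R d 6) := (Near.refl R 0 d).ad' 6
  have a4 : nb R (ad R d 0) 4 = 5 := by rw [nb_ad_last hR.cub d h0]; exact h1
  have b1 : nb R (ad R d 1) 1 = 5 := by rw [nb_ad_one hR.cub d 0]; exact h0
  refine ⟨hs, ?_, ?_, ?_, ?_, ?_, ?_, ?_, ?_, ?_⟩
  · rw [sz_ac]; exact h0
  · rw [sz_ac]; exact h1
  · rw [sz_ac]; exact h3
  · rw [sz_ac]; exact h5
  · rw [sz_ac, ← nb_ad_last hR.cub d h1]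
    exact hN.three n2 h1 (i := 1) (by norm_num) b1
  · rw [sz_ac]
    intro h4
    have k1 : nb R (ad R d 4) 1 = 5 := by rw [nb_ad_one hR.cub d 3]; exact h3
    have k4 : nb R (ad R d 4) 4 = 5 := by rw [nb_ad_last hR.cub d h4]; exact h5
    exact hN.three n4 h4 (i := 1) (by norm_num) k1 k4
  · rw [sz_ac]
    intro h6
    have k1 : nb R (ad R d 6) 1 = 5 := by rw [nb_ad_one hR.cub d 5]; exact h5
    have k4 : nb R (ad R d 6) 4 = 5 := by
      rw [nb_ad_last hR.cub d h6, show 6 + 1 = 0 + 7 from rfl, nb_per R hs]; exact h0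
    exact hN.three n6 h6 (i := 1) (by norm_num) k1 k4
  · rw [sz_ac, ac_eq_ad]
    intro h2
    exact hN.two n1 h0 (i := 2) (by norm_num) h2 a4
  · rw [sz_ac, ac_eq_ad]
    exact hN.two n2 h1 (i := 1) (by norm_num) b1

/-- **The line p1.** -/
theorem line_p1 (hext : P1.Ext []) (hR : C5 R) (h13 : 13 ≤ Fintype.card V) (d : G.Dart)
    (hN : NoC R d) (hs : sz R d = 7) (h0 : nb R d 0 = 5) (h1 : nb R d 1 = 5) (h3 : nb R d 3 = 5)
    (h4 : nb R d 4 = 5) : HasPl sP1 G d.fst :=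
  ⟨fP1 R d, good_P1 hext hR h13 (isP1_of hR d hN hs h0 h1 h3 h4), mem_vert_P1 R d⟩

/-- **The line p2.** -/
theorem line_p2 (hext : (P2 (4, 6) (7, 9)).Ext []) (hR : C5 R) (h13 : 13 ≤ Fintype.card V)
    (d : G.Dart) (hN : NoC R d) (hs : sz R d = 7) (h0 : nb R d 0 = 5) (h1 : nb R d 1 = 5)
    (h3 : nb R d 3 = 5) (h5 : nb R d 5 = 5) : HasPl sP2 G d.fst :=
  ⟨fP2 R d, good_P2 hext hR h13 (isP2_of hR d hN hs h0 h1 h3 h5), mem_vert_P2 R d⟩

end Pool.Agent.U2Geo
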