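import Mathlib
import Pool.Agent.Work.MP_392c8e_co_uni.LineP
import Pool.Agent.Work.MP_392c8e_co_uni.LinesB
import Pool.Agent.Work.MP_392c8e_co_uni.RotTabs
import Pool.Agent.Work.MP_392c8e_co_uni.RingBP
import Pool.Agent.Work.MP_392c8e_co_uni.RingSz

/-!
# The line p2 of stage B

The place P2 (a face of length seven with neighbours of length five across the edges 0, 1, 3, 5) has
a gain as soon as three of the four neighbours have only short neighbours.
-/

namespace Pool.Agent.DischB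

open Finset Pool.Agent.Sub392 Pool.T1Side Pool.Agent.T392 Pool.Agent.Disch392 Pool.Agent.T1FF
  Pool.Agent.T1Red Pool.Agent.U2Geo Pool.Agent.Once392 Pool.Agent.RingB
open Pool.Agent.Uni392 (Place)
open Pool.Agent.Uni91 (GainP)

set_option linter.unusedSectionVars false

variable {V : Type} [Fintype V] [DecidableEq V] {G : SimpleGraph V} [DecidableRel G.Adj]
  {R : Rot G} {K : ℕ}

/-- The gaps of P2. -/
def gP2 : List Gp := [
  ⟨(27, 9), [(27, 26)], (26, 8), [(27, 26), (16, 15)]⟩,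
  ⟨(26, 8), [(26, 25)], (25, 7), [(26, 25), (16, 15)]⟩,
  ⟨(25, 7), [(25, 15), (15, 14), (14, 24)], (24, 6), [(15, 14)]⟩,
  ⟨(24, 6), [(24, 23)], (23, 5), [(24, 23), (14, 13)]⟩,
  ⟨(23, 5), [(23, 22)], (22, 4), [(23, 22), (14, 13)]⟩,
  ⟨(22, 4), [(22, 13), (13, 12), (12, 21)], (21, 3), [(13, 12)]⟩,
  ⟨(21, 3), [(21, 20)], (20, 2), [(21, 20), (12, 11)]⟩,
  ⟨(20, 2), [(20, 19), (19, 18)], (18, 1), [(19, 18), (11, 10)]⟩,
  ⟨(18, 1), [(18, 17)], (17, 0), [(18, 17), (11, 10)]⟩,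
  ⟨(17, 0), [(17, 10), (10, 16), (16, 27)], (27, 9), [(10, 16)]⟩]

theorem gP2_ok : gps tP2 (10, 11) gP2 = true := by decide +kernel

theorem gP2_sp : (gP2.all fun g => g.s.length ≤ 2) = true := by decide +kernel

theorem labP2 : labB (P2 (4, 6) (7, 9)) [] tP2 = true := by decide +kernel

/-- Short positions, if the neighbours 0, 1, 3 have only short neighbours. -/
def shP2a : List (ℕ × ℕ) :=
  [(17, 10), (18, 17), (19, 18), (21, 20), (12, 21), (23, 22), (24, 23), (14, 24)]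

/-- Short positions, if the neighbours 0, 3, 5 have only short neighbours. -/
def shP2b : List (ℕ × ℕ) :=
  [(17, 10), (18, 17), (19, 18), (22, 13), (23, 22), (24, 23), (14, 24), (26, 25), (27, 26)]

/-- Short positions, if the neighbours 1, 3, 5 have only short neighbours. -/
def shP2c : List (ℕ × ℕ) :=
  [(20, 19), (21, 20), (12, 21), (23, 22), (24, 23), (14, 24), (26, 25), (27, 26), (16, 27)]

theorem shP2a_ok : chkSh tP2 (10, 11) [[0], [1], [3]] shP2a = true := by decide +kernel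

theorem shP2b_ok : chkSh tP2 (10, 11) [[0], [3], [5]] shP2b = true := by decide +kernel

theorem shP2c_ok : chkSh tP2 (10, 11) [[1], [3], [5]] shP2c = true := by decide +kernel

theorem goodP2a : goodB (P2 (4, 6) (7, 9)) [] psP2 [] (gsOf tP2 gP2 shP2a) = true := by
  decide +kernel

theorem goodP2b : goodB (P2 (4, 6) (7, 9)) [] psP2 [] (gsOf tP2 gP2 shP2b) = true := by
  decide +kernel

theorem goodP2c : goodB (P2 (4, 6) (7, 9)) [] psP2 [] (gsOf tP2 gP2 shP2c) = true := by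
  decide +kernel

theorem HypP2.isP2 {d : G.Dart} (h : HypP2 R d) : IsP2 R d where
  s := h.s
  s0 := by rw [sz_ac]; exact h.s0
  s1 := by rw [sz_ac]; exact h.s1
  s3 := by rw [sz_ac]; exact h.s3
  s5 := by rw [sz_ac]; exact h.s5
  n2 := by rw [sz_ac]; exact h.n2
  n4 := by rw [sz_ac]; exact h.n4
  n6 := by rw [sz_ac]; exact h.n6
  n02 := by rw [sz_ac, ac_eq_ad]; exact h.n02
  n13 := by rw [sz_ac, ac_eq_ad]; exact h.n13

/-- **The gain of P2.** -/
theorem gain_P2 (hext : (P2 (4, 6) (7, 9)).Ext []) (hR : C5 R) (h13 : 13 ≤ Fintype.card V)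
    {d : G.Dart} (h : HypP2 R d) (h3 : Bf R K (ad R d 3))
    (h' : (Bf R K (ad R d 0) ∧ Bf R K (ad R d 1)) ∨
      (Bf R K (ad R d 5) ∧ (Bf R K (ad R d 0) ∨ Bf R K (ad R d 1)))) :
    Uni91.Good (sP2.pl (fP2 R d)) G ∧ GainP G (sP2.pl (fP2 R d)) (10 * (K + 1)) := by
  have hI := h.isP2
  have hg := good_P2 hext hR h13 hI
  have hN : RotOk R (fP2 R d) tP2 :=
    rotP2 (hR.good h.s) (hR.good hI.s0) (hR.good hI.s1) (hR.good hI.s3) (hR.good hI.s5)
  have hd : Dt (fP2 R d) (10, 11) d := ⟨rfl, (R.fst_next d).symm⟩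
  have key : ∀ (Ls : List (List ℕ)) (sh : List (ℕ × ℕ)),
      (∀ l ∈ Ls, ∀ i < 5, nb R (adL R l d) i < K) → chkSh tP2 (10, 11) Ls sh = true →
      goodB (P2 (4, 6) (7, 9)) [] psP2 [] (gsOf tP2 gP2 sh) = true →
      GainP G (sP2.pl (fP2 R d)) (10 * (K + 1)) := by
    intro Ls sh hs hc hb
    refine gainP_of hg rfl (gaps_of hR hg rfl (q := sP2.pl (fP2 R d)) hN labP2 gP2_ok
      (Or.inl gP2_sp) (shorts hN hd hs hc)) hb
  refine ⟨hg, ?_⟩
  rcases h' with ⟨h0, h1⟩ | ⟨h5, h0 | h1⟩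
  · refine key [[0], [1], [3]] shP2a ?_ shP2a_ok goodP2a
    intro l hl
    simp only [List.mem_cons, List.not_mem_nil, or_false] at hl
    rcases hl with rfl | rfl | rfl
    · exact h0.2
    · exact h1.2
    · exact h3.2
  · refine key [[0], [3], [5]] shP2b ?_ shP2b_ok goodP2b
    intro l hl
    simp only [List.mem_cons, List.not_mem_nil, or_false] at hl
    rcases hl with rfl | rfl | rfl
    · exact h0.2
    · exact h3.2
    · exact h5.2
  · refine key [[1], [3], [5]] shP2c ?_ shP2c_ok goodP2c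
    intro l hl
    simp only [List.mem_cons, List.not_mem_nil, or_false] at hl
    rcases hl with rfl | rfl | rfl
    · exact h1.2
    · exact h3.2
    · exact h5.2

/-- **The line p2 of stage B.** -/
theorem lineB_p2 (hext : (P2 (4, 6) (7, 9)).Ext []) (hR : C5 R) (h13 : 13 ≤ Fintype.card V)
    (d : G.Dart) (h : HypP2 R d) (h3 : Snd R K (ad R d 3))
    (h' : (Snd R K (ad R d 0) ∧ Snd R K (ad R d 1)) ∨
      (Snd R K (ad R d 5) ∧ (Snd R K (ad R d 0) ∨ Snd R K (ad R d 1)))) :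
    ∃ f : ℕ → V, Uni91.Good (sP2.pl f) G ∧ GainP G (sP2.pl f) (10 * (K + 1)) ∧
      d.fst ∈ (sP2.pl f).Vert := by
  obtain ⟨h1, h2⟩ := gain_P2 (K := K) hext hR h13 h h3.1 (by
    rcases h' with ⟨a, b⟩ | ⟨a, b | b⟩
    · exact Or.inl ⟨a.1, b.1⟩
    · exact Or.inr ⟨a.1, Or.inl b.1⟩
    · exact Or.inr ⟨a.1, Or.inr b.1⟩)
  exact ⟨fP2 R d, h1, h2, mem_vert_P2 R d⟩

end Pool.Agent.DischB
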