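import Mathlib
import Pool.Agent.Work.MP_392c8e_co_uni.InstP2
import Pool.Agent.Work.MP_392c8e_co_uni.FastGood

/-!
# The cheap checks for the place P2
-/

namespace Pool.Agent.DischB

open Pool.Agent.T392 Pool.Agent.T1Red Pool.Agent.U2Geo Pool.Agent.Once392 Pool.Agent.RingB
  Pool.Agent.RingTwo Pool.Agent.Disch392 Pool.Agent.T1FF

/-- The joined labels. -/
def eP2 : List (ℕ × ℕ) := [(0, 1), (2, 3), (4, 6), (7, 9)]

/-- The possible pairs of gaps in one face. -/
def pP2 : List (Gp × Gp) := FastG.pk gP2 [(0, 4), (0, 6), (1, 6), (1, 7), (3, 7), (3, 8),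
  (4, 0), (4, 8), (6, 0), (6, 1), (7, 1), (7, 3), (8, 3), (8, 4)]

theorem pairP2 : FastG.pairB gP2 pP2 = true := by decide +kernel

theorem fastP2a : FastG.fastC 28 eP2 268434720 655359 tP2 gP2 pP2 shP2a = true := by
  decide +kernel

theorem fastP2b : FastG.fastC 28 eP2 268434720 655359 tP2 gP2 pP2 shP2b = true := by
  decide +kernel

theorem fastP2c : FastG.fastC 28 eP2 268434720 655359 tP2 gP2 pP2 shP2c = true := by
  decide +kernel

theorem goodC_P2a {co : List (ℕ × ℕ)}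
    (h : FastG.preB (P2 (4, 6) (7, 9)) [] psP2 co eP2 268434720 655359 = true) :
    goodC (P2 (4, 6) (7, 9)) [] psP2 co tP2 gP2 shP2a = true := FastG.goodC_of h pairP2 fastP2a

theorem goodC_P2b {co : List (ℕ × ℕ)}
    (h : FastG.preB (P2 (4, 6) (7, 9)) [] psP2 co eP2 268434720 655359 = true) :
    goodC (P2 (4, 6) (7, 9)) [] psP2 co tP2 gP2 shP2b = true := FastG.goodC_of h pairP2 fastP2b

theorem goodC_P2c {co : List (ℕ × ℕ)}
    (h : FastG.preB (P2 (4, 6) (7, 9)) [] psP2 co eP2 268434720 655359 = true) :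
    goodC (P2 (4, 6) (7, 9)) [] psP2 co tP2 gP2 shP2c = true := FastG.goodC_of h pairP2 fastP2c

end Pool.Agent.DischB
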