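import Mathlib
import Pool.Agent.Work.MP_392c8e_co_uni.InstP2
import Pool.Agent.Work.MP_392c8e_co_uni.RingTwoB
import Pool.Agent.Work.MP_392c8e_co_uni.LabC

/-!
# The ring side of the place P2 in stage C

The place P2 has a gain as soon as three of the four neighbours of length five have only short
neighbours, also if two outer faces are the same.
-/

namespace Pool.Agent.DischB

open Finset Pool.Agent.Sub392 Pool.T1Side Pool.Agent.T392 Pool.Agent.Disch392 Pool.Agent.T1FF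
  Pool.Agent.T1Red Pool.Agent.U2Geo Pool.Agent.Once392 Pool.Agent.RingB Pool.Agent.RingTwo
open Pool.Agent.Uni392 (Place)
open Pool.Agent.Uni91 (GainP)

set_option linter.unusedSectionVars false

variable {V : Type} [Fintype V] [DecidableEq V] {G : SimpleGraph V} [DecidableRel G.Adj]
  {R : Rot G} {K : ℕ}

/-- All checks of the ring side of P2, for a list of coincidences. -/
def okP2 (co : List (ℕ × ℕ)) : Bool :=
  placeC (P2 (4, 6) (7, 9)) [] co tP2 (10, 11) gP2 &&
    goodC (P2 (4, 6) (7, 9)) [] psP2 co tP2 gP2 shP2a &&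
    goodC (P2 (4, 6) (7, 9)) [] psP2 co tP2 gP2 shP2b &&
    goodC (P2 (4, 6) (7, 9)) [] psP2 co tP2 gP2 shP2c

/-- **The gain of P2 in stage C.** -/
theorem gainC_P2 (hR : C4 R) {d : G.Dart} (h : HypP2 R d) (h3 : Bf R K (ad R d 3))
    (h' : (Bf R K (ad R d 0) ∧ Bf R K (ad R d 1)) ∨
      (Bf R K (ad R d 5) ∧ (Bf R K (ad R d 0) ∨ Bf R K (ad R d 1))))
    {co com bad : List (ℕ × ℕ)} (hco : okP2 co = true)
    (hg : Uni91.Good (plc (P2 (4, 6) (7, 9)) [] psP2 co com bad (fP2 R d)) G) :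
    GainP G (plc (P2 (4, 6) (7, 9)) [] psP2 co com bad (fP2 R d)) (10 * (K + 1)) := by
  have hI := h.isP2
  have hN : RotOk R (fP2 R d) tP2 :=
    rotP2 (good_cub hR.cub h.s) (good_cub hR.cub hI.s0) (good_cub hR.cub hI.s1)
      (good_cub hR.cub hI.s3) (good_cub hR.cub hI.s5)
  have hd : Dt (fP2 R d) (10, 11) d := ⟨rfl, (R.fst_next d).symm⟩
  unfold okP2 at hco
  simp only [Bool.and_eq_true] at hco
  obtain ⟨⟨⟨hp, ga⟩, gb⟩, gc⟩ := hco
  have key : ∀ (Ls : List (List ℕ)) (sh : List (ℕ × ℕ)),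
      (∀ l ∈ Ls, ∀ i < 5, nb R (adL R l d) i < K) → chkSh tP2 (10, 11) Ls sh = true →
      goodC (P2 (4, 6) (7, 9)) [] psP2 co tP2 gP2 sh = true →
      GainP G (plc (P2 (4, 6) (7, 9)) [] psP2 co com bad (fP2 R d)) (10 * (K + 1)) := by
    intro Ls sh hs hc hb
    exact gainC_of (cut3_of hR) hg rfl hN hp (shorts hN hd hs hc) hb
  rcases h' with ⟨h0, h1⟩ | ⟨h5, h0 | h1⟩
  · refine key [[0], [1], [3]] shP2a ?_ shP2a_ok ga
    intro l hl
    simp only [List.mem_cons, List.not_mem_nil, or_false] at hl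
    rcases hl with rfl | rfl | rfl
    · exact h0.2
    · exact h1.2
    · exact h3.2
  · refine key [[0], [3], [5]] shP2b ?_ shP2b_ok gb
    intro l hl
    simp only [List.mem_cons, List.not_mem_nil, or_false] at hl
    rcases hl with rfl | rfl | rfl
    · exact h0.2
    · exact h3.2
    · exact h5.2
  · refine key [[1], [3], [5]] shP2c ?_ shP2c_ok gc
    intro l hl
    simp only [List.mem_cons, List.not_mem_nil, or_false] at hl
    rcases hl with rfl | rfl | rfl
    · exact h1.2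
    · exact h3.2
    · exact h5.2

/-- The conditions on short neighbours from the senders. -/
theorem bf_of_snd {d : G.Dart} (h' : (Snd R K (ad R d 0) ∧ Snd R K (ad R d 1)) ∨
      (Snd R K (ad R d 5) ∧ (Snd R K (ad R d 0) ∨ Snd R K (ad R d 1)))) :
    (Bf R K (ad R d 0) ∧ Bf R K (ad R d 1)) ∨
      (Bf R K (ad R d 5) ∧ (Bf R K (ad R d 0) ∨ Bf R K (ad R d 1))) := by
  rcases h' with ⟨a, b⟩ | ⟨a, b | b⟩
  · exact Or.inl ⟨a.1, b.1⟩
  · exact Or.inr ⟨a.1, Or.inl b.1⟩
  · exact Or.inr ⟨a.1, Or.inr b.1⟩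

end Pool.Agent.DischB
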