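import Mathlib
import Pool.Agent.Work.MP_392c8e_co_uni.GainP2C
import Pool.Agent.Work.MP_392c8e_co_uni.PatchP2T
import Pool.Agent.Work.MP_392c8e_co_uni.GeoC4d
import Pool.Agent.Work.MP_392c8e_co_uni.PlW
import Pool.Agent.Work.MP_392c8e_co_uni.FastP2

/-!
# The line p2 of stage C
-/

namespace Pool.Agent.DischB

open Finset Pool.Agent.Sub392 Pool.T1Side Pool.Agent.T392 Pool.Agent.Disch392 Pool.Agent.T1FF
  Pool.Agent.T1Red Pool.Agent.U2Geo Pool.Agent.Once392 Pool.Agent.RingB Pool.Agent.RingTwo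
open Pool.Agent.Uni392 (Place)
open Pool.Agent.Uni91 (GainP)

set_option linter.unusedSectionVars false

theorem placeC_P2n : placeC (P2 (4, 6) (7, 9)) [] coP2n tP2 (10, 11) gP2 = true := by
  decide +kernel

theorem preP2n : FastG.preB (P2 (4, 6) (7, 9)) [] psP2 coP2n eP2 268434720 655359 = true := by
  decide +kernel

theorem placeC_P2l : placeC (P2 (4, 6) (7, 9)) [] coP2l tP2 (10, 11) gP2 = true := by
  decide +kernel

theorem preP2l : FastG.preB (P2 (4, 6) (7, 9)) [] psP2 coP2l eP2 268434720 655359 = true := by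
  decide +kernel

theorem placeC_P2r : placeC (P2 (4, 6) (7, 9)) [] coP2r tP2 (10, 11) gP2 = true := by
  decide +kernel

theorem preP2r : FastG.preB (P2 (4, 6) (7, 9)) [] psP2 coP2r eP2 268434720 655359 = true := by
  decide +kernel

theorem okP2_of {co : List (ℕ × ℕ)}
    (h : placeC (P2 (4, 6) (7, 9)) [] co tP2 (10, 11) gP2 = true)
    (h' : FastG.preB (P2 (4, 6) (7, 9)) [] psP2 co eP2 268434720 655359 = true) :
    okP2 co = true := by
  unfold okP2
  rw [h, goodC_P2a h', goodC_P2b h', goodC_P2c h']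
  rfl

theorem okP2n : okP2 coP2n = true := okP2_of placeC_P2n preP2n

theorem okP2l : okP2 coP2l = true := okP2_of placeC_P2l preP2l

theorem okP2r : okP2 coP2r = true := okP2_of placeC_P2r preP2r

theorem shOK_P2n : shOK sP2n = true := by decide +kernel

theorem shOK_P2l : shOK sP2l = true := by decide +kernel

theorem shOK_P2r : shOK sP2r = true := by decide +kernel

theorem shOK_P2T {s : Shape} (hs : s ∈ [sP2n, sP2l, sP2r]) : shOK s = true := by
  simp only [List.mem_cons, List.not_mem_nil, or_false] at hs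
  rcases hs with rfl | rfl | rfl
  · exact shOK_P2n
  · exact shOK_P2l
  · exact shOK_P2r

variable {V : Type} [Fintype V] [DecidableEq V] {G : SimpleGraph V} [DecidableRel G.Adj]
  {R : Rot G} {K : ℕ}

/-- **The gain of P2 in stage C**, for the three shapes. -/
theorem gainC_P2T (hR : C4 R) {d : G.Dart} (h : HypP2 R d) (h3 : Bf R K (ad R d 3))
    (h' : (Bf R K (ad R d 0) ∧ Bf R K (ad R d 1)) ∨
      (Bf R K (ad R d 5) ∧ (Bf R K (ad R d 0) ∨ Bf R K (ad R d 1))))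
    {s : Shape} (hs : s ∈ [sP2n, sP2l, sP2r]) (hg : Uni91.Good (s.pl (fP2 R d)) G) :
    GainP G (s.pl (fP2 R d)) (10 * (K + 1)) := by
  simp only [List.mem_cons, List.not_mem_nil, or_false] at hs
  rcases hs with rfl | rfl | rfl
  · exact gainC_P2 hR h h3 h' okP2n hg
  · exact gainC_P2 hR h h3 h' okP2l hg
  · exact gainC_P2 hR h h3 h' okP2r hg

/-- **The line p2 of stage C.** -/
theorem lineC_p2 (en : (P2 (4, 6) (7, 9)).Ext coP2n) (el : (P2 (4, 6) (7, 9)).Ext coP2l)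
    (er : (P2 (4, 6) (7, 9)).Ext coP2r) (hR : C4 R) (d : G.Dart) (hN : N4 R 60 d.fst)
    (h : HypP2 R d) (h3 : Snd R K (ad R d 3))
    (h' : (Snd R K (ad R d 0) ∧ Snd R K (ad R d 1)) ∨
      (Snd R K (ad R d 5) ∧ (Snd R K (ad R d 0) ∨ Snd R K (ad R d 1)))) :
    ∃ s ∈ [sP2n, sP2l, sP2r], ∃ f : ℕ → V, Uni91.Good (s.pl f) G ∧
      GainP G (s.pl f) (10 * (K + 1)) ∧ d.fst ∈ (s.pl f).Vert := by
  have hI := h.isP2
  obtain ⟨s, hs, hg⟩ := good_P2T en el er hR.clsT (n4_P2 (m := 8) (good_cub hR.cub h.s)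
    (good_cub hR.cub hI.s0) (good_cub hR.cub hI.s1) (good_cub hR.cub hI.s3)
    (good_cub hR.cub hI.s5) (hN.mono (by norm_num))) hI
  exact ⟨s, hs, fP2 R d, hg, gainC_P2T hR h h3.1 (bf_of_snd h') hs hg, mem_P2T hs R d⟩

/-- **The line p2 of the table of stage C.** -/
theorem lineC_p2' (en : (P2 (4, 6) (7, 9)).Ext coP2n) (el : (P2 (4, 6) (7, 9)).Ext coP2l)
    (er : (P2 (4, 6) (7, 9)).Ext coP2r) (hR : C4 R) {r : ℕ} (hr : 20 ≤ r)
    (hK : 10 * (K + 1) ≤ r) (d : G.Dart) (hN : N4 R 60 d.fst)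
    (h : HypP2 R d) (h3 : Snd R K (ad R d 3))
    (h' : (Snd R K (ad R d 0) ∧ Snd R K (ad R d 1)) ∨
      (Snd R K (ad R d 5) ∧ (Snd R K (ad R d 0) ∨ Snd R K (ad R d 1)))) : PP R r d.fst := by
  obtain ⟨s, hs, f, h1, h2, h4⟩ := lineC_p2 en el er hR d hN h h3 h'
  exact ppW (shOK_P2T hs) hr hK ⟨f, h1, h2, h4⟩

end Pool.Agent.DischB
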