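import Mathlib
import Pool.Agent.Work.MP_392c8e_co_uni.InstMC
import Pool.Agent.Work.MP_392c8e_co_uni.InstZ4C
import Pool.Agent.Work.MP_392c8e_co_uni.LineCR2
import Pool.Agent.Work.MP_392c8e_co_uni.LineC_G2
import Pool.Agent.Work.MP_392c8e_co_uni.LineP2C
import Pool.Agent.Work.MP_392c8e_co_uni.LineCFL2
import Pool.Agent.Work.MP_392c8e_co_uni.InstG1C
import Pool.Agent.Work.MP_392c8e_co_uni.InstG3C
import Pool.Agent.Work.MP_392c8e_co_uni.LineC_G2R
import Pool.Agent.Work.MP_392c8e_co_uni.C4Base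
import Pool.Agent.Work.MP_392c8e_co_uni.FamilyB

/-!
# The table of stage C
-/

namespace Pool.Agent.U2Geo

open Finset Pool.Agent.Sub392 Pool.T1Side Pool.Agent.T392 Pool.Agent.T1FF Pool.Agent.T1Red
open Pool.Agent.Disch392 Pool.Agent.Uni392 Pool.Agent.DischB
open Pool.Agent.Uni91 (GainP JoinP)

set_option linter.unusedSectionVars false

variable {V : Type} [Fintype V] [DecidableEq V] {G : SimpleGraph V} [DecidableRel G.Adj]
  {R : Rot G}

/-- **The table of stage C.** -/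
theorem tabC_of (e1 : G1c.Ext [(2, 7), (3, 7), (3, 8)]) (e2 : G2.Ext []) (e3 : ExtG3c)
    (e3' : G3X.Ext [(3, 4), (6, 7)]) (e4 : ∀ co, neOK G2R co = true → G2R.Ext co)
    (en : (P2 (4, 6) (7, 9)).Ext coP2n) (el : (P2 (4, 6) (7, 9)).Ext coP2l)
    (er : (P2 (4, 6) (7, 9)).Ext coP2r)
    (hR : C4 R) (K : ℕ) {r : ℕ} (hr : 20 ≤ r) (hrK : 20 * (K + 1) ≤ r) :
    TabC R K (AtCat (PlOK R r)) :=
  have hq : 10 * (K + 1) ≤ r := le_trans (Nat.mul_le_mul_right _ (by norm_num)) hrK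
  {
  m2 := fun d n a b c e f g => InstM.lineC_m2 hR hr hq d n a b c e f g
  m3 := fun d n a b c e f g => InstM.lineC_m3 hR hr hq d n a b c e f g
  m6 := fun d n a b c e f g i => InstM.lineC_m6 hR hr hq d n a b c e f g i
  flower := fun d n a b => lineC_flower hR hr hq d n a b
  z4 := fun d n a b c e f => lineC_z4 hR hr hq d n a b c e f
  r2 := fun d n a b c => lineC_r2 hR hr hq d n a b c
  l2 := fun d n a b c => lineC_l2 hR hr hrK d n a b c
  g1 := fun d n a b c e f g => lineC_g1 e1 hR hr hq d n a b c e f g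
  p2 := fun d n a b c => lineC_p2' en el er hR hr hq d n a b c
  p1 := fun d n h a b c _ => lineC_g1 e1 hR hr hq d n h.toPair7 h.s3 h.n5 a b c
  g2 := fun d n a b c e f => lineC_g2 e2 hR hr hq d n a b c e f
  g2r := fun d n a b c e f => lineC_g2r e4 hR hr hq d n a b c e f
  g3 := fun d n a b c e f g i => lineC_g3_of e3 e3' hR hr hq d n a b c e f g i }

/-- The table of stage C is monotone in the predicate. -/
theorem tabC_mono {K : ℕ} {P Q : V → Prop} (h : ∀ v, P v → Q v) (hT : TabC R K P) :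
    TabC R K Q where
  m2 := fun d n a b c e f g => h _ (hT.m2 d n a b c e f g)
  m3 := fun d n a b c e f g => h _ (hT.m3 d n a b c e f g)
  m6 := fun d n a b c e f g i => h _ (hT.m6 d n a b c e f g i)
  flower := fun d n a b => h _ (hT.flower d n a b)
  z4 := fun d n a b c e f => h _ (hT.z4 d n a b c e f)
  r2 := fun d n a b c => h _ (hT.r2 d n a b c)
  l2 := fun d n a b c => h _ (hT.l2 d n a b c)
  g1 := fun d n a b c e f g => h _ (hT.g1 d n a b c e f g)
  p2 := fun d n a b c => h _ (hT.p2 d n a b c)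
  p1 := fun d n a b c e f => h _ (hT.p1 d n a b c e f)
  g2 := fun d n a b c e f => h _ (hT.g2 d n a b c e f)
  g2r := fun d n a b c e f => h _ (hT.g2r d n a b c e f)
  g3 := fun d n a b c e f g i => h _ (hT.g3 d n a b c e f g i)

/-- **The table of stage C for the mirror image.** -/
theorem tabC_mir_of (e1 : G1c.Ext [(2, 7), (3, 7), (3, 8)]) (e2 : G2.Ext []) (e3 : ExtG3c)
    (e3' : G3X.Ext [(3, 4), (6, 7)]) (e4 : ∀ co, neOK G2R co = true → G2R.Ext co)
    (en : (P2 (4, 6) (7, 9)).Ext coP2n) (el : (P2 (4, 6) (7, 9)).Ext coP2l)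
    (er : (P2 (4, 6) (7, 9)).Ext coP2r)
    (hR : C4 R) (K : ℕ) {r : ℕ} (hr : 20 ≤ r) (hrK : 20 * (K + 1) ≤ r) :
    TabC (mir R) K (AtCat (PlOK R r)) :=
  tabC_mono (fun _ h => AtCat.mir h) (tabC_of e1 e2 e3 e3' e4 en el er hR.mir K hr hrK)

end Pool.Agent.U2Geo
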