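import Mathlib
import Pool.Agent.Work.MP_392c8e_co_uni.TabCC
import Pool.Agent.Work.MP_392c8e_co_uni.ExtTab
import Pool.Agent.Work.MP_392c8e_co_uni.ExtP2
import Pool.Agent.Work.MP_392c8e_co_uni.Inst.G3cExt
import Pool.Agent.Work.MP_392c8e_co_uni.Inst.G3XExt
import Pool.Agent.Work.MP_392c8e_co_uni.Inst.G2RExt
import Pool.Agent.Work.MP_392c8e_co_uni.MainC

/-!
# The table of stage C with the extension properties, the uniform bound of stage C
-/

namespace Pool.Agent.U2Geo

open Finset Pool.Agent.Sub392 Pool.T1Side Pool.Agent.T392 Pool.Agent.T1FF Pool.Agent.T1Red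
open Pool.Agent.Disch392 Pool.Agent.Uni392 Pool.Agent.DischB

set_option linter.unusedSectionVars false

variable {V : Type} [Fintype V] [DecidableEq V] {G : SimpleGraph V} [DecidableRel G.Adj]
  {R : Rot G}

theorem extG2R_all (co : List (ℕ × ℕ)) (h : neOK G2R co = true) : G2R.Ext co :=
  G2R_ext co h

theorem extG1c_C : G1c.Ext [(2, 7), (3, 7), (3, 8)] := extTab_G1c _ (by decide +kernel)

theorem extG3c_C : ExtG3c := by
  intro c hc
  refine extTab_G3c c.1 ?_
  have h : (coG3c.all fun c => neOK G3c c.1) = true := by decide +kernel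
  exact List.all_eq_true.1 h c hc

/-- **The table of stage C.** -/
theorem tabCX (hR : C4 R) (K : ℕ) {r : ℕ} (hr : 20 ≤ r) (hrK : 20 * (K + 1) ≤ r) :
    TabC R K (AtCat (PlOK R r)) :=
  tabC_of extG1c_C extTab_G2_nil extG3c_C ext_G3X extG2R_all extP2_n extP2_l extP2_r hR K hr hrK

/-- **The table of stage C for the mirror image.** -/
theorem tabCX_mir (hR : C4 R) (K : ℕ) {r : ℕ} (hr : 20 ≤ r) (hrK : 20 * (K + 1) ≤ r) :
    TabC (mir R) K (AtCat (PlOK R r)) :=
  tabC_mir_of extG1c_C extTab_G2_nil extG3c_C ext_G3X extG2R_all extP2_n extP2_l extP2_r hR K hr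
    hrK

/-- **The uniform bound of stage C**: cyclically 4-edge-connected plane cubic graphs. -/
theorem strictN_C (R : Rot G) (hR : C4 R) : StrictN G (Uni21.NC 20020) :=
  Uni21.strictN_of_tabC R hR (tabCX hR 1000 (by norm_num) (by norm_num))
    (tabCX_mir hR 1000 (by norm_num) (by norm_num))

end Pool.Agent.U2Geo
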