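import Mathlib
import Pool.Agent.Work.MP_392c8e_co_uni.D0

/-!
# The final statement of stage D0, from the hypothesis `Clos n`
-/

namespace Pool.Agent.CutN

open Finset Pool.Agent.Red Pool.Agent.Sub392 Pool.Agent.U2Geo
open Pool.Agent.Uni392 (StrictN)

set_option linter.unusedSectionVars false

section

variable {V : Type} [Fintype V] [DecidableEq V] {G : SimpleGraph V} [DecidableRel G.Adj]

theorem cut3_of_interedges
    (h : ∀ A : Finset V, A.Nonempty → A ≠ univ → 3 ≤ #(G.interedges A Aᶜ)) : Cut3 G := by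
  classical
  intro A h1 h2
  have e : ((A.toFinset : Finset V) : Set V) = A := Set.coe_toFinset A
  have h3 := h A.toFinset (by rw [← coe_nonempty, e]; exact h1) fun h4 => h2 (by
    rw [← e, h4, coe_univ])
  rw [card_interedges, ← leave_ncard_eq_out, e] at h3
  exact h3

theorem ncard_between (A B : Finset V) :
    (between G (A : Set V) (B : Set V)).ncard = #(G.interedges A B) := by
  classical
  rw [← Set.ncard_coe_finset]
  congr 1
  ext ⟨u, v⟩
  rw [mem_coe]
  refine Iff.trans ?_ Rel.mem_interedges_iff.symm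
  exact Iff.rfl

theorem noK4_of_interedges
    (h : ¬ ∃ f : V → Fin 4, Function.Surjective f ∧ ∀ i j, i ≠ j →
      #(G.interedges (univ.filter fun v => f v = i) (univ.filter fun v => f v = j)) = 1) :
    NoK4 G := by
  rintro ⟨f, h1, h2⟩
  refine h ⟨f, h1, fun i j hij => ?_⟩
  rw [← h2 i j hij, ← ncard_between]
  congr 2 <;> · ext v; simp

end

/-- **The final statement of stage D0.** -/
theorem uniformD0 {n0 : ℕ} (hn0 : 0 < n0) (H : Clos n0) :
    ∃ n : ℕ, 0 < n ∧ ∀ (V : Type) [Fintype V] [DecidableEq V] (G : SimpleGraph V)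
      [DecidableRel G.Adj], (∀ v, G.degree v = 3) →
      (∀ A : Finset V, A.Nonempty → A ≠ univ → 3 ≤ #(G.interedges A Aᶜ)) →
      (¬ ∃ f : V → Fin 4, Function.Surjective f ∧ ∀ i j, i ≠ j →
        #(G.interedges (univ.filter fun v => f v = i) (univ.filter fun v => f v = j)) = 1) →
      (∃ (p : V → ℝ × ℝ) (γ : V → V → unitInterval → ℝ × ℝ),
        Function.Injective p ∧
        (∀ u v, G.Adj u v →
          Continuous (γ u v) ∧ Function.Injective (γ u v) ∧
          γ u v 0 = p u ∧ γ u v 1 = p v ∧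
          ∀ (t : unitInterval) (w : V), γ u v t = p w → w = u ∨ w = v) ∧
        (∀ u v x y, G.Adj u v → G.Adj x y → s(u, v) ≠ s(x, y) →
          ∀ (a b : unitInterval), γ u v a = γ x y b →
            (γ u v a = p u ∨ γ u v a = p v) ∧ (γ u v a = p x ∨ γ u v a = p y))) →
      ∃ c : V → ℕ, (∀ v, c v < 3 * n) ∧ ∀ u v, G.Adj u v →
        (n + 1 : ℤ) ≤ |(c u : ℤ) - c v| ∧ |(c u : ℤ) - c v| ≤ 3 * n - (n + 1) := by
  refine ⟨3 * n0 + 1, Nat.succ_pos _, fun V _ _ G _ hc h3 hK hd => ?_⟩
  have h : ColN ((3 * n0 + 1 : ℕ) : ℤ) G :=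
    d0_induction hn0 (Nat.lt_succ_self _) H _ V G rfl (Pool.Agent.Draw.pl_of_drawing hd)
      (ncard_of_degree hc) (cut3_of_interedges h3) (noK4_of_interedges hK)
  obtain ⟨c, h1, h2⟩ := (strictN_of_colN (Nat.succ_pos _) h).hasPQ
  refine ⟨c, h1, fun u v huv => ?_⟩
  have h4 := h2 u v huv
  push_cast at h4
  push_cast
  exact h4

end Pool.Agent.CutN
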