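import Mathlib
import Pool.Agent.Work.MP_392c8e_co_uni.Clos
import Pool.Agent.Work.MP_392c8e_co_uni.UniformD0
import Pool.Agent.Work.MP_392c8e_co_uni.TabCX

/-!
# Stage D0, unconditional
-/

namespace Pool.Agent.CutN

open Finset Pool.Agent.Red Pool.Agent.Sub392 Pool.Agent.U2Geo
open Pool.Agent.Uni392 (StrictN)
open Pool.Agent.Spot (NSp)
open Pool.Agent.Uni21 (NC)

set_option linter.unusedSectionVars false

/-- The tables of places of the class `C4`. -/
theorem tabAll : TabAll 20020 := fun _ _ _ _ _ _ h =>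
  ⟨tabCX h 1000 (by norm_num) (by norm_num), tabCX_mir h 1000 (by norm_num) (by norm_num)⟩

/-- The closures of the graphs of the class `C4` have a uniform level. -/
theorem closX : Clos (max (NC 20020) (NSp 20020)) := clos_of_tab tabAll

/-- **Stage D0**: 3-edge-connected planar cubic graphs without a `K₄` torso. -/
theorem uniformD0X :
    ∃ n : ℕ, 0 < n ∧ ∀ (V : Type) [Fintype V] [DecidableEq V] (G : SimpleGraph V)
      [DecidableRel G.Adj], (∀ v, G.degree v = 3) →
      (∀ A : Finset V, A.Nonempty → A ≠ univ → 3 ≤ #(G.interedges A Aᶜ)) →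
      (¬ ∃ f : V → Fin 4, Function.Surjective f ∧ ∀ i j, i ≠ j →
        #(G.interedges (univ.filter fun v => f v = i) (univ.filter fun v => f v = j)) = 1) →
      (∃ (p : V → ℝ × ℝ) (γ : V → V → unitInterval → ℝ × ℝ),
        Function.Injective p ∧
        (∀ u v, G.Adj u v →
          Continuous (γ u v) ∧ Function.Injective (γ u v) ∧
          γ u v 0 = p u ∧ γ u v 1 = p v ∧
          ∀ (t : unitInterval) (w : V), γ u v t = p w → w = u ∨ w = v) ∧
        (∀ u v x y, G.Adj u v → G.Adj x y → s(u, v) ≠ s(x, y) →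
          ∀ (a b : unitInterval), γ u v a = γ x y b →
            (γ u v a = p u ∨ γ u v a = p v) ∧ (γ u v a = p x ∨ γ u v a = p y))) →
      ∃ c : V → ℕ, (∀ v, c v < 3 * n) ∧ ∀ u v, G.Adj u v →
        (n + 1 : ℤ) ≤ |(c u : ℤ) - c v| ∧ |(c u : ℤ) - c v| ≤ 3 * n - (n + 1) :=
  uniformD0 clos_pos closX

end Pool.Agent.CutN
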