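import Mathlib
import Pool.Agent.Work.MP_392c8e_co_t1.Master
import Pool.Agent.Work.MP_392c8e_co_red.GadgetV
import Pool.Agent.Work.MP_392c8e_co_uni.SidePath

/-!
# A side of a cut with three edges accepts all states of the other side

Let `X` be one side of a cut with three edges of a planar triangle-free subcubic graph.  For all
colours and all different heights of the three ends outside `X`, there is a strict colouring of
the side `X` which fits.  So `X` can be deleted: every strict colouring of the rest with different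
heights of the three ends extends to `X` without any change outside `X`.

The colourings are obtained from the theorem for the graph in which the other side is contracted,
with one of the three edges subdivided.  A rotation makes the centre the lowest vertex, so that all
its neighbours have the same colour.  The whole side is then squeezed between two heights.
-/

namespace Pool.Agent.Full3

open Finset
open Pool.Agent.Red (Pl side side_le starG gadG gadG_in gadG_z gadG_u gadG_out)
open Pool.Agent.CutN (CutK ConnF starK pl_starK deg_starK tri_starK pathK pl_pathK tri_pathK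
  deg_pathK)
open Pool.Agent.T1Red (Str Strict HasStrict)

set_option linter.unusedSectionVars false

variable {V : Type} [Fintype V] [DecidableEq V] {G H : SimpleGraph V}

/-- Translation of the colours. -/
theorem addc {c : V → ZMod 3} {τ : V → ℝ} (h : Strict H c τ) (t : ZMod 3) :
    Strict H (fun v => c v + t) τ := by
  intro u v huv
  rcases h u v huv with ⟨h1, h2⟩ | ⟨h1, h2⟩
  · exact Or.inl ⟨by show c v + t = c u + t + 1; rw [h1]; ring, h2⟩
  · exact Or.inr ⟨by show c u + t = c v + t + 1; rw [h1]; ring, h2⟩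

/-- Reflection. -/
theorem refl {c : V → ZMod 3} {τ : V → ℝ} (h : Strict H c τ) :
    Strict H (fun v => - c v) (fun v => - τ v) := by
  intro u v huv
  rcases h u v huv with ⟨h1, h2⟩ | ⟨h1, h2⟩
  · exact Or.inr ⟨by show - c u = - c v + 1; rw [h1]; ring, neg_lt_neg h2⟩
  · exact Or.inl ⟨by show - c v = - c u + 1; rw [h1]; ring, neg_lt_neg h2⟩

/-- Bound for the heights. -/
theorem bound (τ : V → ℝ) : ∃ B : ℝ, 0 < B ∧ ∀ v, |τ v| < B := by
  refine ⟨∑ v, |τ v| + 1, ?_, fun v => ?_⟩
  · have : 0 ≤ ∑ v, |τ v| := sum_nonneg fun v _ => abs_nonneg _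
    linarith
  · have h1 : |τ v| ≤ ∑ v, |τ v| := single_le_sum (fun v _ => abs_nonneg (τ v)) (mem_univ v)
    linarith

/-- **Rotation**: the vertex `z` can be made the lowest vertex, with colour zero, and then all its
neighbours have colour one. -/
theorem rot_low {c : V → ZMod 3} {τ : V → ℝ} (h : Strict H c τ) (z : V) :
    ∃ (c' : V → ZMod 3) (τ' : V → ℝ), Strict H c' τ' ∧ ∀ v, H.Adj z v → c' v = 1 := by
  classical
  obtain ⟨B, hB0, hB⟩ := bound τ
  have hB' : ∀ v, -B < τ v ∧ τ v < B := fun v => abs_lt.1 (hB v)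
  set c1 : V → ZMod 3 := fun v => if τ v < τ z then c v - 1 else c v with hc1
  set τ1 : V → ℝ := fun v => if τ v < τ z then τ v + 2 * B else τ v with hτ1
  have a1 : ∀ v, τ v < τ z → c1 v = c v - 1 ∧ τ1 v = τ v + 2 * B := fun v hv =>
    ⟨if_pos hv, if_pos hv⟩
  have a2 : ∀ v, ¬ τ v < τ z → c1 v = c v ∧ τ1 v = τ v := fun v hv => ⟨if_neg hv, if_neg hv⟩
  have key : ∀ u v, c v = c u + 1 → τ u < τ v → Str c1 τ1 u v := by
    intro u v h1 h2
    by_cases hu : τ u < τ z
    · by_cases hv : τ v < τ z
      · refine Or.inl ⟨?_, ?_⟩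
        · rw [(a1 u hu).1, (a1 v hv).1, h1]; ring
        · rw [(a1 u hu).2, (a1 v hv).2]; linarith
      · refine Or.inr ⟨?_, ?_⟩
        · rw [(a1 u hu).1, (a2 v hv).1, h1]
          have : ∀ x : ZMod 3, x - 1 = x + 1 + 1 := by decide
          exact this _
        · rw [(a1 u hu).2, (a2 v hv).2]
          have := hB' u
          have := hB' v
          linarith
    · have hv : ¬ τ v < τ z := fun h5 => hu (h2.trans h5)
      refine Or.inl ⟨?_, ?_⟩
      · rw [(a2 u hu).1, (a2 v hv).1, h1]
      · rw [(a2 u hu).2, (a2 v hv).2]; exact h2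
  have hs : Strict H c1 τ1 := by
    intro u v huv
    rcases h u v huv with ⟨h1, h2⟩ | ⟨h1, h2⟩
    · exact key u v h1 h2
    · rcases key v u h1 h2 with h3 | h3
      · exact Or.inr h3
      · exact Or.inl h3
  have hz : ∀ v, τ1 z ≤ τ1 v := by
    intro v
    rw [(a2 z (lt_irrefl _)).2]
    by_cases hv : τ v < τ z
    · rw [(a1 v hv).2]
      have := hB' z
      have := hB' v
      linarith
    · rw [(a2 v hv).2]
      exact not_lt.1 hv
  refine ⟨fun v => c1 v + (- c1 z), τ1, addc hs _, fun v hv => ?_⟩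
  rcases hs z v hv with ⟨h1, -⟩ | ⟨-, h2⟩
  · show c1 v + (- c1 z) = 1
    rw [h1]; ring
  · exact absurd (hz v) (not_le.2 h2)

/-- A colouring of the side `X` can be squeezed between two heights. -/
theorem squeeze {c : V → ZMod 3} {τ : V → ℝ} (h : Strict H c τ) {lo hi : ℝ} (hlh : lo < hi) :
    ∃ τ' : V → ℝ, Strict H c τ' ∧ ∀ v, lo < τ' v ∧ τ' v < hi := by
  obtain ⟨B, hB0, hB⟩ := bound τ
  have hB' : ∀ v, -B < τ v ∧ τ v < B := fun v => abs_lt.1 (hB v)
  set e : ℝ := (hi - lo) / (2 * B) with he
  have he0 : 0 < e := div_pos (by linarith) (by linarith)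
  have he1 : e * (2 * B) = hi - lo := by
    rw [he]
    field_simp
  refine ⟨fun v => lo + e * (τ v + B), fun u v huv => ?_, fun v => ?_⟩
  · rcases h u v huv with ⟨h1, h2⟩ | ⟨h1, h2⟩
    · refine Or.inl ⟨h1, ?_⟩
      show lo + e * (τ u + B) < lo + e * (τ v + B)
      have := mul_lt_mul_of_pos_left h2 he0
      linarith
    · refine Or.inr ⟨h1, ?_⟩
      show lo + e * (τ v + B) < lo + e * (τ u + B)
      have := mul_lt_mul_of_pos_left h2 he0
      linarith
  · have h1 := hB' v
    have h2 : 0 < e * (τ v + B) := mul_pos he0 (by linarith)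
    have h3 : e * (τ v + B) < e * (2 * B) := mul_lt_mul_of_pos_left (by linarith) he0
    exact ⟨by show lo < lo + e * (τ v + B); linarith,
      by show lo + e * (τ v + B) < hi; linarith⟩

/-- The colours `x` and the heights `h` outside fit to a strict colouring of the side `X`. -/
def Fits {k : ℕ} (G : SimpleGraph V) (X : V → Prop) (a : Fin k → V) (x : Fin k → ZMod 3)
    (h : Fin k → ℝ) : Prop :=
  ∃ (c : V → ZMod 3) (τ : V → ℝ), Strict (side G X) c τ ∧
    ∀ i, (x i = c (a i) + 1 ∧ τ (a i) < h i) ∨ (c (a i) = x i + 1 ∧ h i < τ (a i))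

/-- **Insertion**: a colouring of the side with the right colours at the ends fits. -/
theorem fits_of_gap {k : ℕ} {X : V → Prop} {a : Fin k → V} {x : Fin k → ZMod 3} {h : Fin k → ℝ}
    {lo hi : ℝ} (hlh : lo < hi) (hgap : ∀ i, h i ≤ lo ∨ hi ≤ h i)
    (hr : ∃ (c : V → ZMod 3) (τ : V → ℝ), Strict (side G X) c τ ∧
      ∀ i, c (a i) = if h i ≤ lo then x i + 1 else x i - 1) : Fits G X a x h := by
  obtain ⟨c, τ, h1, h2⟩ := hr
  obtain ⟨τ', h3, h4⟩ := squeeze h1 hlh
  refine ⟨c, τ', h3, fun i => ?_⟩
  obtain ⟨h5, h6⟩ := h4 (a i)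
  by_cases hi' : h i ≤ lo
  · refine Or.inr ⟨?_, hi'.trans_lt h5⟩
    rw [h2 i, if_pos hi']
  · refine Or.inl ⟨?_, h6.trans_le ((hgap i).resolve_left hi')⟩
    rw [h2 i, if_neg hi']
    ring

/-- The side realises the vector `x` of colours at its ends. -/
def Real {k : ℕ} (G : SimpleGraph V) (X : V → Prop) (a : Fin k → V) (x : Fin k → ZMod 3) : Prop :=
  ∃ (c : V → ZMod 3) (τ : V → ℝ), Strict (side G X) c τ ∧ ∀ i, c (a i) = x i

theorem Real.addc {k : ℕ} {X : V → Prop} {a : Fin k → V} {x : Fin k → ZMod 3}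
    (h : Real G X a x) (t : ZMod 3) : Real G X a fun i => x i + t := by
  obtain ⟨c, τ, h1, h2⟩ := h
  exact ⟨_, _, Full3.addc h1 t, fun i => by show c (a i) + t = _; rw [h2]⟩

theorem Real.refl {k : ℕ} {X : V → Prop} {a : Fin k → V} {x : Fin k → ZMod 3}
    (h : Real G X a x) : Real G X a fun i => - x i := by
  obtain ⟨c, τ, h1, h2⟩ := h
  exact ⟨_, _, Full3.refl h1, fun i => by show - c (a i) = _; rw [h2]⟩

/-- Vectors with sum not zero have two equal entries and a different third entry. -/
theorem vec3 : ∀ x y z : ZMod 3, x + y + z ≠ 0 →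
    (x ≠ y ∧ y = z) ∨ (y ≠ x ∧ x = z) ∨ (z ≠ x ∧ x = y) := by decide

/-- If all vectors with sum not zero are realised, then everything fits. -/
theorem fits3 {X : V → Prop} {a : Fin 3 → V}
    (hr : ∀ x : Fin 3 → ZMod 3, x 0 + x 1 + x 2 ≠ 0 → Real G X a x)
    (x : Fin 3 → ZMod 3) (h : Fin 3 → ℝ) (hh : Function.Injective h) : Fits G X a x h := by
  have hne : ∀ l : Fin 3, l + 1 ≠ l := by decide
  -- the lowest end
  obtain ⟨l, -, hl⟩ := exists_min_image (univ : Finset (Fin 3)) h ⟨0, mem_univ _⟩
  by_cases h0 : x 0 + x 1 + x 2 = 0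
  · -- between the lowest and the others
    obtain ⟨m, hm, hm'⟩ := exists_min_image ((univ : Finset (Fin 3)).erase l) h
      ⟨l + 1, mem_erase.2 ⟨hne l, mem_univ _⟩⟩
    have hlm : h l < h m := lt_of_le_of_ne (hl m (mem_univ _)) fun h5 =>
      (mem_erase.1 hm).1 (hh h5).symm
    refine fits_of_gap hlm (fun i => ?_) ?_
    · by_cases hi : i = l
      · exact Or.inl (by rw [hi])
      · exact Or.inr (hm' i (mem_erase.2 ⟨hi, mem_univ _⟩))
    · have h1 : ∀ i, (if h i ≤ h l then x i + 1 else x i - 1) =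
          x i - 1 + if i = l then 2 else 0 := by
        intro i
        by_cases hi : i = l
        · subst hi
          rw [if_pos le_rfl, if_pos rfl]
          ring
        · rw [if_neg (not_le.2 (lt_of_le_of_ne (hl i (mem_univ _)) fun h5 => hi (hh h5).symm)),
            if_neg hi]
          ring
      refine hr _ ?_
      rw [h1, h1, h1]
      have e : ∀ p q r : ZMod 3, p + q + r = 0 →
          (p - 1 + 2) + (q - 1 + 0) + (r - 1 + 0) ≠ 0 ∧
          (p - 1 + 0) + (q - 1 + 2) + (r - 1 + 0) ≠ 0 ∧
          (p - 1 + 0) + (q - 1 + 0) + (r - 1 + 2) ≠ 0 := by decide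
      obtain ⟨e1, e2, e3⟩ := e _ _ _ h0
      fin_cases l
      · exact e1
      · exact e2
      · exact e3
  · -- below all
    refine fits_of_gap (lo := h l - 1) (hi := h l) (by linarith)
      (fun i => Or.inr (hl i (mem_univ _))) ?_
    have h1 : ∀ i, (if h i ≤ h l - 1 then x i + 1 else x i - 1) = x i - 1 := by
      intro i
      rw [if_neg]
      have := hl i (mem_univ _)
      intro h5
      linarith
    refine hr _ ?_
    rw [h1, h1, h1]
    have e : ∀ p q r : ZMod 3, p + q + r ≠ 0 → (p - 1) + (q - 1) + (r - 1) ≠ 0 := by decide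
    exact e _ _ _ h0

/-- The subdivided star graph has a strict colouring. -/
theorem strict_gadG (F : T1Red.Facts) (hpl : Pl G) (ht : G.CliqueFree 3)
    (hd : ∀ v, (G.neighborSet v).ncard ≤ 3) {X : V → Prop} {a b : Fin 3 → V}
    (hc : CutK G X a b) (hcon : ConnF G X)
    {z u : V} (hz : ¬ X z) (hu : ¬ X u) (huz : u ≠ z) {i j k : Fin 3} (hij : i ≠ j) (hik : i ≠ k)
    (hjk : j ≠ k) (hna : ¬ G.Adj (a j) (a k)) :
    HasStrict (gadG G X a z u hc.hX hz hu huz i) := by
  classical
  have hall0 : ∀ i j k : Fin 3, i ≠ j → i ≠ k → j ≠ k → ∀ l : Fin 3, l = i ∨ l = j ∨ l = k := by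
    decide
  have hall := hall0 i j k hij hik hjk
  have hall' : ∀ l : Fin 3, l ≠ i → l = j ∨ l = k := fun l hl => (hall l).resolve_left hl
  set H := gadG G X a z u hc.hX hz hu huz i with hH
  have hin : ∀ {x y}, X x → X y → (H.Adj x y ↔ G.Adj x y) := fun hx hy =>
    gadG_in hc.hX hz hu huz i hx hy
  have hadz : ∀ {x}, H.Adj x z ↔ (∃ l, l ≠ i ∧ x = a l) ∨ x = u :=
    gadG_z hc.hX hz hu huz i hc.ia
  have hadu : ∀ {x}, H.Adj x u ↔ x = a i ∨ x = z := gadG_u hc.hX hz hu huz i
  have hout : ∀ {x y}, H.Adj x y → X x ∨ x = z ∨ x = u := fun h5 =>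
    gadG_out hc.hX hz hu huz i h5
  refine F.strict (G := H) ?_ ?_ ?_
  · -- planarity
    refine (pl_starK hpl hc hcon z hz).subdiv (a := a i) (b := z) (u := u)
      (Or.inr ⟨i, Or.inl ⟨rfl, rfl⟩⟩) ?_ (fun x y => Iff.rfl)
    rintro v (⟨-, h5, -⟩ | ⟨l, ⟨h5, -⟩ | ⟨h5, -⟩⟩)
    · exact hu h5
    · exact hu (h5 ▸ hc.hX l)
    · exact huz h5
  · -- no triangles
    intro s hs
    rw [SimpleGraph.is3Clique_iff] at hs
    obtain ⟨x, y, w, hxy, hxw, hyw, -⟩ := hs
    -- no triangle through `u`
    have tu : ∀ {x y : V}, H.Adj x u → H.Adj y u → H.Adj x y → False := by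
      intro x y h1 h2 h3
      rcases hadu.1 h1 with rfl | rfl <;> rcases hadu.1 h2 with rfl | rfl
      · exact h3.ne rfl
      · rcases hadz.1 h3 with ⟨l, h5, h6⟩ | h6
        · exact h5 (hc.ia h6).symm
        · exact hu (h6 ▸ hc.hX i)
      · rcases hadz.1 h3.symm with ⟨l, h5, h6⟩ | h6
        · exact h5 (hc.ia h6).symm
        · exact hu (h6 ▸ hc.hX i)
      · exact h3.ne rfl
    have tz : ∀ {x y : V}, H.Adj x z → H.Adj y z → H.Adj x y → False := by
      intro x y h1 h2 h3
      rcases hadz.1 h1 with ⟨l, h5, rfl⟩ | rfl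
      · rcases hadz.1 h2 with ⟨m, h6, rfl⟩ | rfl
        · have h7 := (hin (hc.hX l) (hc.hX m)).1 h3
          rcases hall' l h5 with rfl | rfl <;> rcases hall' m h6 with rfl | rfl
          · exact h7.ne rfl
          · exact hna h7
          · exact hna h7.symm
          · exact h7.ne rfl
        · exact tu h3 h2.symm h1
      · exact tu h3.symm h1.symm h2
    rcases hout hxy with h1 | rfl | rfl
    · rcases hout hxy.symm with h2 | rfl | rfl
      · rcases hout hyw.symm with h3 | rfl | rfl
        · refine ht {x, y, w} ?_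
          rw [SimpleGraph.is3Clique_iff]
          exact ⟨x, y, w, (hin h1 h2).1 hxy, (hin h1 h3).1 hxw, (hin h2 h3).1 hyw, rfl⟩
        · exact tz hxw hyw hxy
        · exact tu hxw hyw hxy
      · exact tz hxy hyw.symm hxw
      · exact tu hxy hyw.symm hxw
    · exact tz hxy.symm hxw.symm hyw
    · exact tu hxy.symm hxw.symm hyw
  · -- degrees
    intro x
    by_cases hx : X x
    · by_cases hxa : ∃ l, x = a l
      · obtain ⟨l, rfl⟩ := hxa
        have h1 : H.neighborSet (a l) ⊆
            insert (if l = i then u else z) (G.neighborSet (a l) \ {b l}) := by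
          intro y hy
          have hy' : H.Adj (a l) y := hy
          rcases hout hy'.symm with h2 | rfl | rfl
          · refine Or.inr ⟨(hin hx h2).1 hy', fun h3 => ?_⟩
            have h3' : y = b l := h3
            exact hc.hY l (h3' ▸ h2)
          · left
            rcases hadz.1 hy' with ⟨m, h5, h6⟩ | h6
            · rw [if_neg]
              rw [hc.ia h6]
              exact h5
            · exact absurd (h6 ▸ hc.hX l) hu
          · left
            rcases hadu.1 hy' with h6 | h6
            · rw [if_pos (hc.ia h6)]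
            · exact absurd (h6 ▸ hc.hX l) hz
        have h2 := Set.ncard_le_ncard h1 (Set.toFinite _)
        have h3 := Set.ncard_insert_le (if l = i then u else z) (G.neighborSet (a l) \ {b l})
        have h4 : ({b l} : Set V) ⊆ G.neighborSet (a l) := by
          intro y hy
          have hy' : y = b l := hy
          rw [hy']
          exact hc.adj l
        have h5 := Set.ncard_sdiff h4 (Set.toFinite _)
        rw [Set.ncard_singleton] at h5
        have h6 := hd (a l)
        omega
      · refine le_trans (Set.ncard_le_ncard ?_ (Set.toFinite _)) (hd x)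
        intro y hy
        have hy' : H.Adj x y := hy
        rcases hout hy'.symm with h2 | rfl | rfl
        · exact (hin hx h2).1 hy'
        · exfalso
          rcases hadz.1 hy' with ⟨m, -, h6⟩ | h6
          · exact hxa ⟨m, h6⟩
          · exact hu (h6 ▸ hx)
        · exfalso
          rcases hadu.1 hy' with h6 | h6
          · exact hxa ⟨i, h6⟩
          · exact hz (h6 ▸ hx)
    · by_cases hxz : x = z
      · subst hxz
        have h1 : H.neighborSet x ⊆ {a j, a k, u} := by
          intro y hy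
          have hy' : H.Adj x y := hy
          rcases hadz.1 hy'.symm with ⟨m, h5, rfl⟩ | rfl
          · rcases hall' m h5 with rfl | rfl
            · exact Or.inl rfl
            · exact Or.inr (Or.inl rfl)
          · exact Or.inr (Or.inr rfl)
        refine (Set.ncard_le_ncard h1 (Set.toFinite _)).trans ?_
        refine (Set.ncard_insert_le _ _).trans ?_
        have h2 := Set.ncard_insert_le (a k) {u}
        rw [Set.ncard_singleton] at h2
        omega
      · by_cases hxu : x = u
        · subst hxu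
          have h1 : H.neighborSet x ⊆ {a i, z} := by
            intro y hy
            have hy' : H.Adj x y := hy
            rcases hadu.1 hy'.symm with rfl | rfl
            · exact Or.inl rfl
            · exact Or.inr rfl
          refine (Set.ncard_le_ncard h1 (Set.toFinite _)).trans ?_
          have h2 := Set.ncard_insert_le (a i) {z}
          rw [Set.ncard_singleton] at h2
          omega
        · have h1 : H.neighborSet x = ∅ := by
            rw [Set.eq_empty_iff_forall_notMem]
            intro y hy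
            rcases hout (show H.Adj x y from hy) with h2 | h2 | h2
            · exact hx h2
            · exact hxz h2
            · exact hxu h2
          rw [h1, Set.ncard_empty]
          omega

/-- The side realises the vectors with two equal entries and a different one at the place `i`. -/
theorem real3 (F : T1Red.Facts) (hpl : Pl G) (ht : G.CliqueFree 3)
    (hd : ∀ v, (G.neighborSet v).ncard ≤ 3) {X : V → Prop} {a b : Fin 3 → V}
    (hc : CutK G X a b) (hcon : ConnF G X) {i j k : Fin 3} (hij : i ≠ j) (hik : i ≠ k)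
    (hjk : j ≠ k) (hna : ¬ G.Adj (a j) (a k)) (x : Fin 3 → ZMod 3) (h1 : x i ≠ x j)
    (h2 : x j = x k) : Real G X a x := by
  classical
  have hall0 : ∀ i j k : Fin 3, i ≠ j → i ≠ k → j ≠ k → ∀ l : Fin 3, l = i ∨ l = j ∨ l = k := by
    decide
  have hall := hall0 i j k hij hik hjk
  have hz := hc.hY 0
  have hu := hc.hY 1
  have huz : b 1 ≠ b 0 := fun h5 => absurd (hc.ib h5) (by decide)
  obtain ⟨c0, τ0, h0⟩ := strict_gadG F hpl ht hd hc hcon hz hu huz hij hik hjk hna
  obtain ⟨c, τ, h3, h4⟩ := rot_low h0 (b 0)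
  have hin : ∀ {x y}, X x → X y →
      ((gadG G X a (b 0) (b 1) hc.hX hz hu huz i).Adj x y ↔ G.Adj x y) := fun hx hy =>
    gadG_in hc.hX hz hu huz i hx hy
  have hs : Strict (side G X) c τ := fun u v huv => h3 u v ((hin huv.2.1 huv.2.2).2 huv.1)
  have ej : c (a j) = 1 := h4 _ ((gadG_z hc.hX hz hu huz i hc.ia).2 (Or.inl ⟨j, hij.symm, rfl⟩)).symm
  have ek : c (a k) = 1 := h4 _ ((gadG_z hc.hX hz hu huz i hc.ia).2 (Or.inl ⟨k, hik.symm, rfl⟩)).symm
  have eu : c (b 1) = 1 := h4 _ ((gadG_z hc.hX hz hu huz i hc.ia).2 (Or.inr rfl)).symm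
  have ei : c (a i) ≠ 1 := by
    intro h5
    have h6 := h3 _ _ ((gadG_u (G := G) hc.hX hz hu huz i).2 (Or.inl rfl))
    unfold Str at h6
    rw [h5, eu] at h6
    rcases h6 with ⟨h6, -⟩ | ⟨h6, -⟩ <;> exact absurd h6 (by decide)
  -- all vectors of this form arise by a reflection and a translation
  have hR : Real G X a fun l => c (a l) := ⟨c, τ, hs, fun l => rfl⟩
  have e1 : ∀ p q r : ZMod 3, p ≠ 1 → q ≠ r →
      (p + (r - 1) = q ∧ 1 + (r - 1) = r) ∨ (- p + (r + 1) = q ∧ - 1 + (r + 1) = r) := by decide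
  rcases e1 (c (a i)) (x i) (x j) ei h1 with ⟨e2, e3⟩ | ⟨e2, e3⟩
  · have : x = fun l => c (a l) + (x j - 1) := by
      funext l
      rcases hall l with rfl | rfl | rfl
      · exact e2.symm
      · show _ = c (a l) + _
        rw [ej]; exact e3.symm
      · show _ = c (a l) + _
        rw [ek, e3, h2]
    rw [this]
    exact hR.addc _
  · have : x = fun l => - c (a l) + (x j + 1) := by
      funext l
      rcases hall l with rfl | rfl | rfl
      · exact e2.symm
      · show _ = - c (a l) + _
        rw [ej]; exact e3.symm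
      · show _ = - c (a l) + _
        rw [ek, e3, h2]
    rw [this]
    exact hR.refl.addc _

/-- **The side of a cut with three edges fits to everything.** -/
theorem full3 (F : T1Red.Facts) (hpl : Pl G) (ht : G.CliqueFree 3)
    (hd : ∀ v, (G.neighborSet v).ncard ≤ 3) {X : V → Prop} {a b : Fin 3 → V}
    (hc : CutK G X a b) (hcon : ConnF G X) (hna : ∀ i j, ¬ G.Adj (a i) (a j))
    (x : Fin 3 → ZMod 3) (h : Fin 3 → ℝ) (hh : Function.Injective h) : Fits G X a x h := by
  refine fits3 (fun x hx => ?_) x h hh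
  rcases vec3 _ _ _ hx with ⟨h1, h2⟩ | ⟨h1, h2⟩ | ⟨h1, h2⟩
  · exact real3 F hpl ht hd hc hcon (i := 0) (j := 1) (k := 2) (by decide) (by decide) (by decide)
      (hna _ _) x h1 h2
  · exact real3 F hpl ht hd hc hcon (i := 1) (j := 0) (k := 2) (by decide) (by decide) (by decide)
      (hna _ _) x h1 h2
  · exact real3 F hpl ht hd hc hcon (i := 2) (j := 0) (k := 1) (by decide) (by decide) (by decide)
      (hna _ _) x h1 h2

/-- **Extension**: if everything fits to the side `X` of a cut, then a strict colouring of the rest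
with different heights of the outer ends extends, without a change outside `X`. -/
theorem ext_of_fits {k : ℕ} {X : V → Prop} {a b : Fin k → V}
    (ib : Function.Injective b)
    (hcut : ∀ u v, X u → ¬ X v → G.Adj u v → ∃ i, u = a i ∧ v = b i)
    (hf : ∀ (x : Fin k → ZMod 3) (h : Fin k → ℝ), Function.Injective h → Fits G X a x h)
    {c : V → ZMod 3} {τ : V → ℝ} (hs : Strict (side G fun v => ¬ X v) c τ)
    (hτ : Set.InjOn τ {v | ∃ i, b i = v}) :
    ∃ (c' : V → ZMod 3) (τ' : V → ℝ), Strict G c' τ' ∧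
      ∀ v, ¬ X v → c' v = c v ∧ τ' v = τ v := by
  classical
  obtain ⟨c1, τ1, h1, h2⟩ := hf (fun i => c (b i)) (fun i => τ (b i)) fun i j hij =>
    ib (hτ ⟨i, rfl⟩ ⟨j, rfl⟩ hij)
  set c' : V → ZMod 3 := fun v => if X v then c1 v else c v with hc'
  set τ' : V → ℝ := fun v => if X v then τ1 v else τ v with hτ'
  have e1 : ∀ v, X v → c' v = c1 v ∧ τ' v = τ1 v := fun v hv => ⟨if_pos hv, if_pos hv⟩
  have e2 : ∀ v, ¬ X v → c' v = c v ∧ τ' v = τ v := fun v hv => ⟨if_neg hv, if_neg hv⟩
  have cr : ∀ u v, X u → ¬ X v → G.Adj u v → Str c' τ' u v := by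
    intro u v hu hv huv
    obtain ⟨i, rfl, rfl⟩ := hcut u v hu hv huv
    unfold Str
    rw [(e1 _ hu).1, (e1 _ hu).2, (e2 _ hv).1, (e2 _ hv).2]
    exact h2 i
  refine ⟨c', τ', fun u v huv => ?_, e2⟩
  by_cases hu : X u <;> by_cases hv : X v
  · exact (h1 u v ⟨huv, hu, hv⟩).of_eq (e1 u hu).1 (e1 u hu).2 (e1 v hv).1 (e1 v hv).2
  · exact cr u v hu hv huv
  · rcases cr v u hv hu huv.symm with h3 | h3
    · exact Or.inr h3
    · exact Or.inl h3
  · exact (hs u v ⟨huv, hu, hv⟩).of_eq (e2 u hu).1 (e2 u hu).2 (e2 v hv).1 (e2 v hv).2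

end Pool.Agent.Full3
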