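import Mathlib
import Pool.Agent.Work.MP_392c8e_co_uni.UniAlc
import Pool.Agent.Work.MP_392c8e_co_uni.Full3
import Pool.Agent.Work.MP_392c8e_co_uni.LiftSeq

/-!
# Filling leaves and separating pieces in a subcubic graph

The outer neighbours of the clusters are made different with a constant number of colours, as all
degrees are at most three and every cluster has at most six outer neighbours.
-/

namespace Pool.Agent.LiftIso

open Finset
open Pool.Agent.T1Red (Str Strict)
open Pool.Agent.Red (side)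
open Pool.Agent.CutN (Jn IsCol)
open Pool.Agent.Uni392 (StrictN)
open Pool.Agent.Full3 (Fits)

set_option linter.unusedSectionVars false

variable {V : Type*} {G : SimpleGraph V}

/-- The outer neighbours of the cluster `i`. -/
def Out {I : Type*} (G : SimpleGraph V) (cl : V → Option I) (i : I) : Set V :=
  {b | ∃ a, cl a = some i ∧ cl b ≠ some i ∧ G.Adj a b}

theorem conflict_lt {I : Type*} [Fintype V] (cl : V → Option I)
    (hd : ∀ v, (G.neighborSet v).ncard ≤ 3) (hk : ∀ i, (Out G cl i).ncard ≤ 6) (v : V) :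
    {u | u ≠ v ∧ ∃ i, u ∈ Out G cl i ∧ v ∈ Out G cl i}.ncard < 19 := by
  classical
  have h1 : {u | u ≠ v ∧ ∃ i, u ∈ Out G cl i ∧ v ∈ Out G cl i} ⊆
      ((((G.neighborSet v).toFinset : Finset V).biUnion fun a =>
        (cl a).elim ∅ fun i => (Out G cl i).toFinset : Finset V) : Set V) := by
    rintro u ⟨-, i, hu, a, ha, hv, hav⟩
    rw [Finset.mem_coe, Finset.mem_biUnion]
    refine ⟨a, by rw [Set.mem_toFinset]; exact hav.symm, ?_⟩
    rw [ha]
    show u ∈ (Out G cl i).toFinset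
    rw [Set.mem_toFinset]
    exact hu
  have h2 := Set.ncard_le_ncard h1 (Finset.finite_toSet _)
  rw [Set.ncard_coe_finset] at h2
  have h3 := Finset.card_biUnion_le_card_mul ((G.neighborSet v).toFinset : Finset V)
    (fun a => (cl a).elim ∅ fun i => (Out G cl i).toFinset) 6 (by
      intro a _
      cases h : cl a with
      | none => simp
      | some i =>
        show ((Out G cl i).toFinset).card ≤ 6
        rw [← Set.ncard_eq_toFinset_card']
        exact hk i)
  have h4 : ((G.neighborSet v).toFinset : Finset V).card ≤ 3 := by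
    rw [← Set.ncard_eq_toFinset_card']
    exact hd v
  have h5 : ((G.neighborSet v).toFinset : Finset V).card * 6 ≤ 3 * 6 :=
    Nat.mul_le_mul_right _ h4
  omega

/-- **The lift with isometries in a subcubic graph.** -/
theorem lift_iso3 {I : Type*} [Fintype V] [Finite I] (cl : V → Option I) (B : I → V → Prop)
    (s n : ℕ) (hd : ∀ v, (G.neighborSet v).ncard ≤ 3) (hk : ∀ i, (Out G cl i).ncard ≤ 6)
    (hadj : ∀ u v, G.Adj u v → ∀ i j, cl u = some i → cl v = some j → i = j)
    (hB : ∀ i u v, G.Adj u v → cl u ≠ some i → cl v ≠ some i → (B i u ↔ B i v))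
    (hBj : ∀ i j, i ≠ j → (∀ v, cl v = some j → B i v) ∨ (∀ v, cl v = some j → ¬ B i v))
    (hu : ∀ i (m : ℤ), 0 < m → Uni G (fun v => cl v = some i) (B i) s m)
    (h : StrictN (side G fun v => cl v = none) n) :
    StrictN G ((s + 1) * (19 * n + 1)) := by
  obtain ⟨ρ, hρ, hinj⟩ := Pool.Agent.Uni392.exists_rho (fun i => Out G cl i) 19
    (conflict_lt cl hd hk)
  rcases Nat.eq_zero_or_pos n with h0 | h0
  · obtain ⟨c0, τ0, h1, -⟩ := h
    have hV : ∀ v : V, False := fun v => by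
      have := h1 v
      omega
    exact ⟨fun _ => 0, fun _ => 0, fun v => (hV v).elim, fun v => (hV v).elim⟩
  refine lift_iso cl B s 19 n hadj hB hBj (fun i => hu i _ (by positivity)) ρ hρ ?_ h
  intro i a b a' b' ha hb hab ha' hb' hab' hne h5
  exact hne (hinj i ⟨a, ha, hb, hab⟩ ⟨a', ha', hb', hab'⟩ h5)

/-- A side which fits to everything is a leaf which can be filled. -/
theorem local_of_fits {k : ℕ} {X : V → Prop} {a b : Fin k → V}
    (ib : Function.Injective b)
    (hcut : ∀ u v, X u → ¬ X v → G.Adj u v → ∃ i, u = a i ∧ v = b i)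
    (hf : ∀ (x : Fin k → ZMod 3) (h : Fin k → ℝ), Function.Injective h →
      ∃ (c : V → ZMod 3) (τ : V → ℝ), Strict (side G X) c τ ∧
        ∀ i, (x i = c (a i) + 1 ∧ τ (a i) < h i) ∨ (c (a i) = x i + 1 ∧ h i < τ (a i)))
    (c : V → ZMod 3) (τ : V → ℝ) (hτ : Set.InjOn τ {v | ∃ i, b i = v}) :
    ∃ (c' : V → ZMod 3) (τ' : V → ℝ), (∀ v, ¬ X v → c' v = c v ∧ τ' v = τ v) ∧
      ∀ u v, G.Adj u v → X u → Str c' τ' u v := by
  classical
  obtain ⟨c1, τ1, h1, h2⟩ := hf (fun i => c (b i)) (fun i => τ (b i)) fun i j hij =>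
    ib (hτ ⟨i, rfl⟩ ⟨j, rfl⟩ hij)
  set c' : V → ZMod 3 := fun v => if X v then c1 v else c v with hc'
  set τ' : V → ℝ := fun v => if X v then τ1 v else τ v with hτ'
  have e1 : ∀ v, X v → c' v = c1 v ∧ τ' v = τ1 v := fun v hv => ⟨if_pos hv, if_pos hv⟩
  have e2 : ∀ v, ¬ X v → c' v = c v ∧ τ' v = τ v := fun v hv => ⟨if_neg hv, if_neg hv⟩
  refine ⟨c', τ', e2, fun u v huv hu => ?_⟩
  by_cases hv : X v
  · exact (h1 u v ⟨huv, hu, hv⟩).of_eq (e1 u hu).1 (e1 u hu).2 (e1 v hv).1 (e1 v hv).2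
  · obtain ⟨i, rfl, rfl⟩ := hcut u v hu hv huv
    unfold Str
    rw [(e1 _ hu).1, (e1 _ hu).2, (e2 _ hv).1, (e2 _ hv).2]
    exact h2 i

/-- **The lift for leaves in a subcubic graph.**  The leaf `j` has at most `s` vertices, its outer
neighbours are `Out G cl j`, and every outer state with different heights extends. -/
theorem lift_leaf3 {J : Type*} [Fintype V] (cl : V → Option J) (s n : ℕ)
    (hd : ∀ v, (G.neighborSet v).ncard ≤ 3) (hk : ∀ i, (Out G cl i).ncard ≤ 6)
    (hs : ∀ j, {v | cl v = some j}.ncard ≤ s)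
    (hadj : ∀ u v, G.Adj u v → ∀ i j, cl u = some i → cl v = some j → i = j)
    (hext : ∀ (j : J) (c : V → ZMod 3) (τ : V → ℝ), Set.InjOn τ (Out G cl j) →
      ∃ (c' : V → ZMod 3) (τ' : V → ℝ), (∀ v, cl v ≠ some j → c' v = c v ∧ τ' v = τ v) ∧
        ∀ u v, G.Adj u v → cl u = some j → Str c' τ' u v)
    (h : StrictN (side G fun v => cl v = none) n) :
    StrictN G ((s + 1) * (19 * n + 1)) := by
  obtain ⟨ρ, hρ, hinj⟩ := Pool.Agent.Uni392.exists_rho (fun i => Out G cl i) 19
    (conflict_lt cl hd hk)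
  refine Pool.Agent.Uni392.lift_local_lev (G' := side G fun v => cl v = none) cl
    (fun j => Out G cl j) s 19 n hadj
    (fun u v huv hu hv => ⟨huv, hu, hv⟩) ρ hρ hinj (fun j c τ _ hin => ?_) h
  obtain ⟨c', τ', h1, h2⟩ := hext j c τ hin
  refine ⟨c', τ', fun v hv => h1 v (by rw [hv]; exact fun h5 => by cases h5), ?_, h2⟩
  exact (Set.ncard_image_le (Set.toFinite _)).trans (hs j)

/-- **Leaves and pieces together.** -/
theorem fill_D {I J : Type*} [Fintype V] [Finite I] (cl : V → Option I) (B : I → V → Prop)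
    (cl' : V → Option J) (s n : ℕ) (hd : ∀ v, (G.neighborSet v).ncard ≤ 3)
    (hdisj : ∀ v, cl v = none ∨ cl' v = none)
    (hk : ∀ i, (Out G cl i).ncard ≤ 6) (hk' : ∀ j, (Out G cl' j).ncard ≤ 6)
    (hadj : ∀ u v, G.Adj u v → ∀ i j, cl u = some i → cl v = some j → i = j)
    (hadj' : ∀ u v, G.Adj u v → ∀ i j, cl' u = some i → cl' v = some j → i = j)
    (hfar : ∀ u v, G.Adj u v → cl u ≠ none → cl' v = none)
    (hB : ∀ i u v, G.Adj u v → cl u ≠ some i → cl v ≠ some i → (B i u ↔ B i v))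
    (hBj : ∀ i j, i ≠ j → (∀ v, cl v = some j → B i v) ∨ (∀ v, cl v = some j → ¬ B i v))
    (hu : ∀ i (m : ℤ), 0 < m → Uni G (fun v => cl v = some i) (B i) s m)
    (hs' : ∀ j, {v | cl' v = some j}.ncard ≤ s)
    (hext : ∀ (j : J) (c : V → ZMod 3) (τ : V → ℝ), Set.InjOn τ (Out G cl' j) →
      ∃ (c' : V → ZMod 3) (τ' : V → ℝ), (∀ v, cl' v ≠ some j → c' v = c v ∧ τ' v = τ v) ∧
        ∀ u v, G.Adj u v → cl' u = some j → Str c' τ' u v)
    (h : StrictN (side G fun v => cl v = none ∧ cl' v = none) n) :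
    StrictN G ((s + 1) * (19 * ((s + 1) * (19 * n + 1)) + 1)) := by
  classical
  refine lift_leaf3 cl' s _ hd hk' hs' hadj' hext ?_
  set H := side G fun v => cl' v = none with hH
  have hHG : ∀ u v, H.Adj u v → G.Adj u v := fun u v huv => huv.1
  have hout : ∀ i, Out H cl i ⊆ Out G cl i := by
    rintro i b ⟨a, ha, hb, hab⟩
    exact ⟨a, ha, hb, hHG a b hab⟩
  refine lift_iso3 cl B s n (fun v => ?_) (fun i => ?_) (fun u v huv => hadj u v (hHG u v huv))
    (fun i u v huv => hB i u v (hHG u v huv)) hBj (fun i m hm => ?_) ?_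
  · exact (Set.ncard_le_ncard (fun w hw => hHG v w hw) (Set.toFinite _)).trans (hd v)
  · exact (Set.ncard_le_ncard (hout i) (Set.toFinite _)).trans (hk i)
  · -- the clusters are the same in both graphs
    have hadjiff : ∀ a b, cl a = some i → (G.Adj a b ↔ H.Adj a b) := by
      intro a b ha
      refine ⟨fun hab => ⟨hab, ?_, ?_⟩, fun hab => hHG a b hab⟩
      · rcases hdisj a with h5 | h5
        · rw [ha] at h5
          cases h5
        · exact h5
      · exact hfar a b hab (by rw [ha]; exact fun h5 => by cases h5)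
    intro x hx
    obtain ⟨y, e, t, h1, h2, g, c, τ, h3, h4, h5⟩ := hu i m hm x (by
      intro a b a' b' ha hb hab ha' hb' hab' hne hBB
      exact hx a b a' b' ha hb ((hadjiff a b ha).1 hab) ha' hb' ((hadjiff a' b' ha').1 hab')
        hne hBB)
    refine ⟨y, e, t, h1, h2, g, c, τ, fun u v huv => ?_, h4, fun a b ha hb hab => ?_⟩
    · exact h3 u v ⟨(hadjiff u v huv.2.1).2 huv.1, huv.2⟩
    · exact h5 a b ha hb ((hadjiff a b ha).2 hab)
  · refine h.mono (fun u v huv => ?_) le_rfl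
    exact ⟨huv.1.1, ⟨huv.2.1, huv.1.2.1⟩, ⟨huv.2.2, huv.1.2.2⟩⟩

end Pool.Agent.LiftIso
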