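import Pool.Agent.Results.MP_392c8e_co.BelowThree
import Pool.Agent.Work.MP_392c8e_co_arb13.Final

/-!
# Circular colourings from the density of large subgraphs

In a triangle-free subcubic planar graph only the subgraphs with at least `3 d` vertices have to
be sparse.
-/

namespace Pool.Agent.Uni392

open Finset Pool.Agent.T1Red

/-- A `(k, d)`-colouring gives a `(k', d')`-colouring if `k / d ≤ k' / d'`. -/
theorem pq_mono {V : Type*} {G : SimpleGraph V} {k d k' d' : ℕ} (hk : 0 < k) (hk' : 0 < k')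
    (h : HasPQ G k d) (hr : k * d' ≤ k' * d) : HasPQ G k' d' := by
  obtain ⟨c, hc, h⟩ := h
  have main : ∀ a b : ℕ, (d : ℤ) ≤ |(a : ℤ) - b| → |(a : ℤ) - b| ≤ (k : ℤ) - d → b ≤ a →
      (d' : ℤ) ≤ |((k' * a / k : ℕ) : ℤ) - ((k' * b / k : ℕ) : ℤ)| ∧
      |((k' * a / k : ℕ) : ℤ) - ((k' * b / k : ℕ) : ℤ)| ≤ (k' : ℤ) - d' := by
    intro a b h1 h2 hab
    rw [abs_of_nonneg (by omega)] at h1 h2
    have h3 : b + d ≤ a := by omega
    have h4 : a + d ≤ b + k := by omega
    have h5 : k' * b / k + d' ≤ k' * a / k := by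
      rw [← Nat.add_mul_div_left _ _ hk]
      refine Nat.div_le_div_right ?_
      have := Nat.mul_le_mul_left k' h3
      rw [Nat.mul_add] at this
      omega
    have h6 : k' * a / k + d' ≤ k' * b / k + k' := by
      rw [← Nat.add_mul_div_left _ _ hk, ← Nat.add_mul_div_left _ _ hk]
      refine Nat.div_le_div_right ?_
      have := Nat.mul_le_mul_left k' h4
      rw [Nat.mul_add, Nat.mul_add] at this
      have e : k' * k = k * k' := Nat.mul_comm _ _
      omega
    rw [abs_of_nonneg (by omega)]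
    omega
  refine ⟨fun v => k' * c v / k, fun v => ?_, fun u v huv => ?_⟩
  · exact Nat.div_lt_of_lt_mul (by rw [Nat.mul_comm k k']; exact Nat.mul_lt_mul_of_pos_left (hc v) hk')
  · obtain ⟨h1, h2⟩ := h u v huv
    rcases le_total (c v) (c u) with h3 | h3
    · exact main _ _ h1 h2 h3
    · have := main (c v) (c u) (by rw [abs_sub_comm]; exact h1) (by rw [abs_sub_comm]; exact h2) h3
      rw [abs_sub_comm] at this
      exact this

/-- Induced subgraphs of a graph drawn in the plane. -/
theorem Drawable.induce {V : Type} {G : SimpleGraph V} (h : Drawable G) (U : Set V) :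
    Drawable (G.induce U) := by
  obtain ⟨p, γ, h1, h2, h3⟩ := h
  refine ⟨fun v => p v, fun u v => γ u v, fun u v huv => Subtype.ext (h1 huv), ?_, ?_⟩
  · intro u v huv
    obtain ⟨a1, a2, a3, a4, a5⟩ := h2 u v huv
    refine ⟨a1, a2, a3, a4, fun t w hw => ?_⟩
    rcases a5 t w hw with h | h
    · exact Or.inl (Subtype.ext h)
    · exact Or.inr (Subtype.ext h)
  · intro u v x y huv hxy hne a b hab
    refine h3 u v x y huv hxy (fun h => hne ?_) a b hab
    rw [Sym2.eq_iff] at h ⊢
    rcases h with ⟨e1, e2⟩ | ⟨e1, e2⟩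
    · exact Or.inl ⟨Subtype.ext e1, Subtype.ext e2⟩
    · exact Or.inr ⟨Subtype.ext e1, Subtype.ext e2⟩

/-- The number of neighbours inside a set of vertices. -/
theorem ncard_induce_le {V : Type} [Fintype V] {G : SimpleGraph V} {U : Set V} (v : U) :
    ((G.induce U).neighborSet v).ncard ≤ (G.neighborSet v).ncard := by
  refine Set.ncard_le_ncard_of_injOn (fun w : U => (w : V)) ?_ ?_ (Set.toFinite _)
  · intro w hw
    exact hw
  · intro a _ b _ hab
    exact Subtype.ext hab

/-- **Only large sets have to be sparse.** -/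
theorem dense_large {V : Type} [Fintype V] {G : SimpleGraph V} (hfree : G.CliqueFree 3)
    (hdeg : ∀ v, (G.neighborSet v).ncard ≤ 3) (hpl : Drawable G) (d : ℕ) (hd : 1 ≤ d)
    (hU : ∀ U : Set V, 3 * d ≤ U.ncard →
      2 * d * (G.induce U).edgeSet.ncard ≤ (3 * d - 1) * (U.ncard - 1)) :
    HasPQ G (3 * d - 1) d := by
  classical
  refine Pool.Agent.Arb.main G (3 * d - 1) d hd (by omega) fun U h1 => ?_
  have h2 : U.ncard < 3 * d := by
    by_contra hcon
    exact absurd (hU U (not_lt.1 hcon)) (not_le.2 h1)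
  have hne : 0 < U.ncard := by
    rw [Set.ncard_pos]
    by_contra hcon
    rw [Set.not_nonempty_iff_eq_empty] at hcon
    subst hcon
    have : (G.induce (∅ : Set V)).edgeSet = ∅ := by
      ext e
      induction e with
      | _ u v => exact u.2.elim
    rw [this] at h1
    simp at h1
  have hcard : Fintype.card U = U.ncard := by
    rw [← Nat.card_eq_fintype_card]
    rfl
  have h3 : HasPQ (G.induce U) (3 * Fintype.card U) (Fintype.card U + 1) := by
    have := Pool.Agent.T392.facts.drawn (G := G.induce U) (Drawable.induce hpl U)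
      (hfree.comap (SimpleGraph.Embedding.induce U).isContained) fun v => (ncard_induce_le v).trans (hdeg v)
    obtain ⟨c, hc, h⟩ := this
    exact ⟨c, hc, fun u v huv => by
      have := h u v huv
      push_cast
      exact this⟩
  rw [hcard] at h3
  refine pq_mono (by omega) (by omega) h3 ?_
  obtain ⟨m, hm⟩ : ∃ m, 3 * d - 1 = m := ⟨_, rfl⟩
  rw [hm]
  have h4 : 3 * d = m + 1 := by omega
  have h5 : U.ncard ≤ m := by omega
  calc 3 * U.ncard * d = (3 * d) * U.ncard := by ring
    _ = m * U.ncard + U.ncard := by rw [h4]; ring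
    _ ≤ m * U.ncard + m := by omega
    _ = m * (U.ncard + 1) := by ring

/-- `v` is within distance `i` of a vertex of degree at most two. -/
def Near {V : Type} (G : SimpleGraph V) : ℕ → V → Prop
  | 0, v => (G.neighborSet v).ncard ≤ 2
  | i + 1, v => Near G i v ∨ ∃ u, G.Adj v u ∧ Near G i u

theorem Near.mono {V : Type} {G : SimpleGraph V} {i j : ℕ} (hij : i ≤ j) {v : V}
    (h : Near G i v) : Near G j v := by
  induction j, hij using Nat.le_induction with
  | base => exact h
  | succ j _ ih => exact Or.inl ih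

theorem near_of_walk {V : Type} {G : SimpleGraph V} {v x : V} (w : G.Walk v x)
    (hx : (G.neighborSet x).ncard ≤ 2) : Near G w.length v := by
  induction w with
  | nil => exact hx
  | cons h p ih => exact Or.inr ⟨_, h, ih hx⟩

theorem Near.induce {V : Type} [Fintype V] {G : SimpleGraph V}
    (hdeg : ∀ v, (G.neighborSet v).ncard ≤ 3) {U : Set V} :
    ∀ (i : ℕ) (v : U), Near G i v → Near (G.induce U) i v := by
  intro i
  induction i with
  | zero =>
    intro v h
    exact (ncard_induce_le v).trans h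
  | succ i ih =>
    intro v h
    rcases h with h | ⟨u, hu, h⟩
    · exact Or.inl (ih v h)
    · by_cases huU : u ∈ U
      · exact Or.inr ⟨⟨u, huU⟩, hu, ih ⟨u, huU⟩ h⟩
      · refine Near.mono (i := 0) (Nat.zero_le _) ?_
        show ((G.induce U).neighborSet v).ncard ≤ 2
        have h1 : ((G.induce U).neighborSet v).ncard ≤ (G.neighborSet v \ {u}).ncard := by
          refine Set.ncard_le_ncard_of_injOn (fun w : U => (w : V)) ?_ ?_ (Set.toFinite _)
          · intro w hw
            refine ⟨hw, fun h1 => huU ?_⟩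
            rw [Set.mem_singleton_iff] at h1
            rw [← h1]
            exact w.2
          · intro a _ b _ hab
            exact Subtype.ext hab
        have h2 : (G.neighborSet v \ {u}).ncard = (G.neighborSet v).ncard - 1 :=
          Set.ncard_sdiff_singleton_of_mem hu
        have h3 := hdeg v
        omega

section Count

variable {W : Type} [Fintype W] [DecidableEq W] (H : SimpleGraph W)

open scoped Classical in
/-- The vertices within distance `i` of a vertex of degree at most two. -/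
noncomputable def lev (i : ℕ) : Finset W := univ.filter fun v => Near H i v

open scoped Classical in
/-- The neighbours. -/
noncomputable def nb (v : W) : Finset W := univ.filter fun u => H.Adj v u

theorem card_nb (v : W) : (nb H v).card = (H.neighborSet v).ncard := by
  rw [← Set.ncard_coe_finset]
  congr 1
  ext u
  simp [nb]

theorem card_lev_succ (hdeg : ∀ v, (H.neighborSet v).ncard ≤ 3) (i : ℕ) :
    (lev H (i + 1 + 1) \ lev H (i + 1)).card ≤ 2 * (lev H (i + 1) \ lev H i).card := by
  classical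
  rw [Nat.mul_comm]
  have h1 : lev H (i + 1 + 1) \ lev H (i + 1) ⊆
      (lev H (i + 1) \ lev H i).biUnion fun u => nb H u \ lev H (i + 1) := by
    intro v hv
    rw [mem_sdiff] at hv
    obtain ⟨hv1, hv2⟩ := hv
    have h2 : Near H (i + 1 + 1) v := (mem_filter.1 hv1).2
    have h3 : ¬ Near H (i + 1) v := fun h => hv2 (mem_filter.2 ⟨mem_univ _, h⟩)
    rcases h2 with h2 | ⟨u, hu, h2⟩
    · exact absurd h2 h3
    · rw [mem_biUnion]
      refine ⟨u, ?_, ?_⟩
      · rw [mem_sdiff]
        refine ⟨mem_filter.2 ⟨mem_univ _, h2⟩, fun h => h3 ?_⟩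
        exact Or.inr ⟨u, hu, (mem_filter.1 h).2⟩
      · rw [mem_sdiff]
        exact ⟨mem_filter.2 ⟨mem_univ _, hu.symm⟩, hv2⟩
  refine (card_le_card h1).trans ((card_biUnion_le_card_mul _ _ 2 fun u hu => ?_))
  rw [mem_sdiff] at hu
  have h2 : Near H (i + 1) u := (mem_filter.1 hu.1).2
  have h3 : ¬ Near H i u := fun h => hu.2 (mem_filter.2 ⟨mem_univ _, h⟩)
  rcases h2 with h2 | ⟨x, hx, h2⟩
  · exact absurd h2 h3
  · have h4 : nb H u \ lev H (i + 1) ⊆ (nb H u).erase x := by
      intro y hy
      rw [mem_sdiff] at hy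
      rw [mem_erase]
      refine ⟨?_, hy.1⟩
      rintro rfl
      exact hy.2 (mem_filter.2 ⟨mem_univ _, Near.mono (Nat.le_succ i) h2⟩)
    have h5 : ((nb H u).erase x).card = (nb H u).card - 1 :=
      card_erase_of_mem (mem_filter.2 ⟨mem_univ _, hx⟩)
    have h6 := card_le_card h4
    have h7 := hdeg u
    rw [← card_nb] at h7
    omega

theorem card_lev_one : (lev H 1 \ lev H 0).card ≤ 2 * (lev H 0).card := by
  classical
  rw [Nat.mul_comm]
  have h1 : lev H 1 \ lev H 0 ⊆ (lev H 0).biUnion fun u => nb H u := by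
    intro v hv
    rw [mem_sdiff] at hv
    obtain ⟨hv1, hv2⟩ := hv
    have h2 : Near H 1 v := (mem_filter.1 hv1).2
    rcases h2 with h2 | ⟨u, hu, h2⟩
    · exact absurd (mem_filter.2 ⟨mem_univ _, h2⟩) hv2
    · rw [mem_biUnion]
      exact ⟨u, mem_filter.2 ⟨mem_univ _, h2⟩, mem_filter.2 ⟨mem_univ _, hu.symm⟩⟩
  refine (card_le_card h1).trans ((card_biUnion_le_card_mul _ _ 2 fun u hu => ?_))
  rw [card_nb]
  exact (mem_filter.1 hu).2

theorem card_lev (hdeg : ∀ v, (H.neighborSet v).ncard ≤ 3) (i : ℕ) :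
    (lev H (i + 1) \ lev H i).card ≤ 2 ^ (i + 1) * (lev H 0).card ∧
      (lev H i).card ≤ (2 ^ (i + 1) - 1) * (lev H 0).card := by
  classical
  induction i with
  | zero =>
    refine ⟨by simpa using card_lev_one H, by simp⟩
  | succ i ih =>
    obtain ⟨h1, h2⟩ := ih
    refine ⟨?_, ?_⟩
    · refine (card_lev_succ H hdeg i).trans ?_
      calc 2 * (lev H (i + 1) \ lev H i).card ≤ 2 * (2 ^ (i + 1) * (lev H 0).card) :=
            Nat.mul_le_mul_left 2 h1
        _ = 2 ^ (i + 1 + 1) * (lev H 0).card := by ring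
    · have h3 : (lev H (i + 1)).card ≤ (lev H i).card + (lev H (i + 1) \ lev H i).card := by
        refine (card_le_card (t := lev H i ∪ (lev H (i + 1) \ lev H i)) ?_).trans
          (card_union_le _ _)
        intro v hv
        by_cases h : v ∈ lev H i
        · exact mem_union_left _ h
        · exact mem_union_right _ (mem_sdiff.2 ⟨hv, h⟩)
      refine h3.trans ((Nat.add_le_add h2 h1).trans ?_)
      rw [← Nat.add_mul]
      refine Nat.mul_le_mul_right _ ?_
      have : 1 ≤ 2 ^ (i + 1) := Nat.one_le_two_pow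
      have e : 2 ^ (i + 1 + 1) = 2 * 2 ^ (i + 1) := by ring
      omega

/-- The edges of a graph all whose vertices are near vertices of degree at most two. -/
theorem edges_near (hdeg : ∀ v, (H.neighborSet v).ncard ≤ 3) (ρ : ℕ) (hn : ∀ v, Near H ρ v) :
    2 * H.edgeSet.ncard * (2 ^ (ρ + 1) - 1) + Fintype.card W ≤
      3 * Fintype.card W * (2 ^ (ρ + 1) - 1) := by
  classical
  have h1 : ∑ v, (nb H v).card = 2 * H.edgeSet.ncard := by
    have := H.sum_degrees_eq_twice_card_edges
    rw [Set.ncard_eq_toFinset_card', SimpleGraph.edgeFinset] at *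
    rw [← this]
    refine sum_congr rfl fun v _ => ?_
    rw [← SimpleGraph.card_neighborFinset_eq_degree]
    congr 1
    ext u
    simp [nb]
  have h2 : (lev H 0).card + ∑ v, (nb H v).card ≤ 3 * Fintype.card W := by
    have : (lev H 0).card = ∑ v : W, if Near H 0 v then 1 else 0 := by
      rw [lev, card_filter]
    rw [this, ← sum_add_distrib]
    calc ∑ v, ((if Near H 0 v then 1 else 0) + (nb H v).card) ≤ ∑ _v : W, 3 := by
          refine sum_le_sum fun v _ => ?_
          have h3 := hdeg v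
          rw [← card_nb] at h3
          split_ifs with h4
          · have h5 : (H.neighborSet v).ncard ≤ 2 := h4
            rw [← card_nb] at h5
            omega
          · omega
      _ = 3 * Fintype.card W := by
          rw [sum_const, card_univ, smul_eq_mul, Nat.mul_comm]
  have h3 := (card_lev H hdeg ρ).2
  have h4 : lev H ρ = univ := by
    ext v
    simp [lev, hn v]
  rw [h4, card_univ] at h3
  rw [h1] at h2
  obtain ⟨M, hM⟩ : ∃ M, 2 ^ (ρ + 1) - 1 = M := ⟨_, rfl⟩
  rw [hM] at h3 ⊢
  calc 2 * H.edgeSet.ncard * M + Fintype.card W ≤ 2 * H.edgeSet.ncard * M + M * (lev H 0).card :=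
        Nat.add_le_add_left h3 _
    _ = ((lev H 0).card + 2 * H.edgeSet.ncard) * M := by ring
    _ ≤ 3 * Fintype.card W * M := Nat.mul_le_mul_right _ h2

end Count

/-- **Vertices of degree two near every vertex.** -/
theorem near_two {V : Type} [Fintype V] {G : SimpleGraph V} (hfree : G.CliqueFree 3)
    (hdeg : ∀ v, (G.neighborSet v).ncard ≤ 3) (hpl : Drawable G) (ρ : ℕ)
    (hρ : ∀ v, Near G ρ v) : HasPQ G (3 * (2 ^ (ρ + 2) - 2) - 1) (2 ^ (ρ + 2) - 2) := by
  classical
  have h0 : 1 ≤ 2 ^ ρ := Nat.one_le_two_pow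
  have e1 : 2 ^ (ρ + 2) = 4 * 2 ^ ρ := by ring
  have e2 : 2 ^ (ρ + 1) = 2 * 2 ^ ρ := by ring
  refine dense_large hfree hdeg hpl _ (by omega) fun U hU => ?_
  have h1 := edges_near (G.induce U) (fun v => (ncard_induce_le v).trans (hdeg v)) ρ
    fun v => Near.induce hdeg ρ v (hρ v)
  have hcard : Fintype.card U = U.ncard := by
    rw [← Nat.card_eq_fintype_card]
    rfl
  rw [hcard] at h1
  obtain ⟨M, hM⟩ : ∃ M, 2 ^ (ρ + 1) - 1 = M := ⟨_, rfl⟩
  have hM1 : 1 ≤ M := by omega
  have hd : 2 ^ (ρ + 2) - 2 = 2 * M := by omega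
  rw [hM] at h1
  rw [hd] at hU ⊢
  obtain ⟨n, hn⟩ : ∃ n, U.ncard = n := ⟨_, rfl⟩
  obtain ⟨e, he⟩ : ∃ e, (G.induce U).edgeSet.ncard = e := ⟨_, rfl⟩
  rw [hn, he] at h1
  rw [hn] at hU ⊢
  rw [he]
  zify [show 1 ≤ 3 * (2 * M) by omega, show 1 ≤ n by omega] at h1 hU ⊢
  nlinarith
end Pool.Agent.Uni392
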