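import Mathlib
import Pool.Agent.Work.MP_392c8e_co_uni.CutN
import Pool.Agent.Work.MP_392c8e_co_uni.AccN
import Pool.Agent.Work.MP_392c8e_co_t1.Surgery

/-!
# Sides of cuts with three edges, and the base class

`Th3 G A`: the cut of `A` has exactly three edges and both sides have at least two vertices of
degree three.

`EX G r A`: every end of `A` has a vertex of degree two within distance `r`, inside `A`.

`BaseR r G x`: planar, of maximum degree three, all cuts have at least two edges, cuts with two
edges have a side with at most two vertices, and `EX G r A` for every side `A` avoiding `x`.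
`BaseG r G x`: moreover without triangles.

`BaseLevel r n`: all graphs of the base class have a colouring at level `n`, and so have the graphs
obtained by replacing the path `p x q` by an edge, for a root `x`.

`AccHyp n G S`: what the side `S` accepts if its closures have colourings at level `n`.
-/

namespace Pool.Agent.CutN

open Pool.Agent.Red Pool.Agent.T1Red

set_option linter.unusedSectionVars false

/-- At least two vertices of degree three. -/
def Thick {V : Type} (G : SimpleGraph V) (A : Set V) : Prop :=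
  2 ≤ {v | v ∈ A ∧ (G.neighborSet v).ncard = 3}.ncard

/-- A side of a cut with three edges; both sides have two vertices of degree three. -/
structure Th3 {V : Type} (G : SimpleGraph V) (A : Set V) : Prop where
  three : (leave G A).ncard = 3
  inn : Thick G A
  out : Thick G Aᶜ

/-- A good side of a cut with three edges. -/
structure GoodS {V : Type} (G : SimpleGraph V) (A : Set V) : Prop where
  three : (leave G A).ncard = 3
  ends : ∃ a : Fin 3 → V, Function.Injective a ∧ (∀ i, a i ∈ A) ∧
    (∀ i, (G.neighborSet (a i)).ncard = 3) ∧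
    (∀ i, ∃ v, v ∉ A ∧ G.Adj (a i) v) ∧
    (∀ u v, u ∈ A → v ∉ A → G.Adj u v → ∃ i, u = a i) ∧
    (∀ i j, ¬ G.Adj (a i) (a j)) ∧
    ∃ i j, i ≠ j ∧ ∀ w, w ∈ A → ¬ (G.Adj (a i) w ∧ G.Adj (a j) w)
  inn : Thick G A
  out : Thick G Aᶜ

/-- There is a vertex of degree two within distance `r` of `a`, inside `A`. -/
def Deg2In {V : Type} (G : SimpleGraph V) (r : ℕ) (A : Set V) (a : V) : Prop :=
  ∃ m, (G.neighborSet m).ncard = 2 ∧ ∃ p : G.Walk a m, p.length ≤ r ∧ ∀ w ∈ p.support, w ∈ A

/-- Every end of `A` has a vertex of degree two within distance `r`, inside `A`. -/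
def EX {V : Type} (G : SimpleGraph V) (r : ℕ) (A : Set V) : Prop :=
  ∀ a, a ∈ A → (∃ b, b ∉ A ∧ G.Adj a b) → Deg2In G r A a

/-- The base class without the condition on triangles. -/
structure BaseR {V : Type} [Fintype V] [DecidableEq V] (r : ℕ) (G : SimpleGraph V) (x : V) :
    Prop where
  pl : Pl G
  deg : ∀ v, (G.neighborSet v).ncard ≤ 3
  two : ∀ A : Set V, A.Nonempty → A ≠ Set.univ → 2 ≤ (leave G A).ncard
  cut2 : ∀ A : Set V, (leave G A).ncard ≤ 2 → A.ncard ≤ 2 ∨ Aᶜ.ncard ≤ 2
  near : ∀ A : Set V, x ∉ A → Th3 G A → EX G r A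

/-- The base class, with the vertex `x` outside all sides which are considered. -/
structure BaseG {V : Type} [Fintype V] [DecidableEq V] (r : ℕ) (G : SimpleGraph V) (x : V) : Prop
    extends BaseR r G x where
  tri : G.CliqueFree 3

/-- A root: the vertex and its neighbours have degree three. -/
def RootG {V : Type} (G : SimpleGraph V) (x : V) : Prop :=
  (G.neighborSet x).ncard = 3 ∧ ∀ s, G.Adj x s → (G.neighborSet s).ncard = 3

/-- One level for the base class. -/
def BaseLevel (r : ℕ) (n : ℤ) : Prop :=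
  (∀ (W : Type) [Fintype W] [DecidableEq W] (L : SimpleGraph W) (x : W), BaseG r L x →
    ColN n L) ∧
  ∀ (W : Type) [Fintype W] [DecidableEq W] (L : SimpleGraph W) (x p q : W), BaseG r L x →
    RootG L x → L.Adj x p → L.Adj x q → p ≠ q → (∀ w, L.Adj p w → L.Adj q w → w = x) →
    ColN n (newG L (fun v => v = x) [(p, q)])

/-- The edge `x s` subdivided by the new vertex `none`. -/
def subG {W : Type} (L : SimpleGraph W) (x s : W) : SimpleGraph (Option W) where
  Adj u v := (∃ u' v', u = some u' ∧ v = some v' ∧ L.Adj u' v' ∧ s(u', v') ≠ s(x, s)) ∨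
    (u = none ∧ (v = some x ∨ v = some s)) ∨ (v = none ∧ (u = some x ∨ u = some s))
  symm := ⟨fun u v h => by
    rcases h with ⟨u', v', h1, h2, h3, h4⟩ | h | h
    · exact Or.inl ⟨v', u', h2, h1, h3.symm, by rw [Sym2.eq_swap]; exact h4⟩
    · exact Or.inr (Or.inr h)
    · exact Or.inr (Or.inl h)⟩
  loopless := ⟨fun u h => by
    rcases h with ⟨u', v', h1, h2, h3, -⟩ | ⟨h1, h2⟩ | ⟨h1, h2⟩
    · exact h3.ne (Option.some.inj (h1.symm.trans h2))
    · rcases h2 with h2 | h2 <;> simp [h1] at h2
    · rcases h2 with h2 | h2 <;> simp [h1] at h2⟩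

/-- What a side accepts, given the colourings of its closures at level `n`. -/
structure AccHyp {V : Type} (n : ℤ) (G : SimpleGraph V) (S : Set V) (a : Fin 3 → V) : Prop where
  /-- claw states -/
  claw : (∀ i j, ¬ G.Adj (a i) (a j)) → ∀ y : Fin 3 → ZMod 3, (∃ i j, i ≠ j ∧ y i = y j) →
    Acc n G (· ∈ S) a y
  /-- good sides accept all states -/
  good : (∀ i j, ¬ G.Adj (a i) (a j)) → (∀ i, (G.neighborSet (a i)).ncard = 3) →
    (∃ i j, i ≠ j ∧ ∀ w, w ∈ S → ¬ (G.Adj (a i) w ∧ G.Adj (a j) w)) →
    ∀ y : Fin 3 → ZMod 3, Acc (2 * n) G (· ∈ S) a y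
  /-- two adjacent ends -/
  rung : ∀ p q r, p ≠ q → p ≠ r → q ≠ r → G.Adj (a p) (a q) → ¬ G.Adj (a p) (a r) →
    ¬ G.Adj (a q) (a r) → ∀ y : Fin 3 → ZMod 3, y p ≠ y q → Acc (2 * n) G (· ∈ S) a y

end Pool.Agent.CutN
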