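import Mathlib
import Pool.Agent.Work.MP_392c8e_co_uni.CutN
import Pool.Agent.Work.MP_392c8e_co_t1.Surgery

/-!
# Rungs above a side with a rung, in a smallest graph without colourings at level n

Let `X` be a side of a cut with three edges whose ends `a p`, `a q` are adjacent, and suppose that
every colouring of the rest extends to the whole graph as soon as the outer ends `b p`, `b q` have
the difference of adjacent vertices.  Then `b p` and `b q` are not adjacent, and they have a common
neighbour outside `X`: otherwise `X` can be replaced by the edge `b p b q`.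
-/

namespace Pool.Agent.CutN

open Pool.Agent.Red
open Pool.Agent.T1Red (newG pl_newG)

set_option linter.unusedSectionVars false

variable {V : Type} [Fintype V] [DecidableEq V] {G : SimpleGraph V} {n : ℤ}
  {X : V → Prop} {a b : Fin 3 → V} {p q r : Fin 3}

/-- `X` can be inserted if the outer ends `b p` and `b q` look like adjacent vertices. -/
def AccPair (n : ℤ) (G : SimpleGraph V) (X : V → Prop) (x y : V) : Prop :=
  ∀ c : V → ℤ, IsCol n (side G fun v => ¬ X v) c → Jn n (c x - c y) → ColN n G

theorem AccPair.symm {x y : V} (h : AccPair n G X x y) : AccPair n G X y x := by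
  intro c hc hj
  refine h c hc ?_
  have := hj.neg
  rwa [neg_sub] at this

/-- (c) The outer ends of a rung are not adjacent. -/
theorem MinN.no_adj (h : MinN n G) (hc : CutK G X a b) (hacc : AccPair n G X (b p) (b q)) :
    ¬ G.Adj (b p) (b q) := by
  intro hb
  obtain ⟨c, hcol⟩ : ColN n (side G fun v => ¬ X v) :=
    h.sub (side_le _ _) (hc.adj 0) fun h5 => h5.2.1 (hc.hX 0)
  refine h.bad (hacc c hcol ?_)
  exact (hcol (b q) (b p) ⟨hb.symm, hc.hY q, hc.hY p⟩)

/-- (d) The outer ends of a rung have a common neighbour. -/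
theorem MinN.common (h : MinN n G) (hc : CutK G X a b) (hpq : p ≠ q)
    (hapq : G.Adj (a p) (a q)) (hacc : AccPair n G X (b p) (b q)) :
    ∃ w, ¬ X w ∧ G.Adj (b p) w ∧ G.Adj (b q) w := by
  classical
  by_contra hno
  push Not at hno
  have hnb := h.no_adj hc hacc
  have hbne : b p ≠ b q := fun h5 => hpq (hc.ib h5)
  set H : SimpleGraph V := newG G X [(b p, b q)] with hH
  have hadj : ∀ {u v : V}, H.Adj u v ↔
      (G.Adj u v ∧ ¬ X u ∧ ¬ X v) ∨ (u = b p ∧ v = b q) ∨ (u = b q ∧ v = b p) := by
    intro u v
    constructor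
    · rintro (h1 | ⟨-, h1 | h1⟩)
      · exact Or.inl h1
      · have h2 := List.mem_singleton.1 h1
        exact Or.inr (Or.inl (Prod.mk.inj h2))
      · have h2 := List.mem_singleton.1 h1
        exact Or.inr (Or.inr ⟨(Prod.mk.inj h2).2, (Prod.mk.inj h2).1⟩)
    · rintro (h1 | ⟨rfl, rfl⟩ | ⟨rfl, rfl⟩)
      · exact Or.inl h1
      · exact Or.inr ⟨hbne, Or.inl (List.mem_singleton.2 rfl)⟩
      · exact Or.inr ⟨hbne.symm, Or.inr (List.mem_singleton.2 rfl)⟩
  have hcol : ColN n H := by
    refine h.min V H ?_ ?_ ?_ ?_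
    · -- planarity
      refine pl_newG h.pl X [(b p, b q)] [(b p, [a p, a q], b q)] ?_ ?_ ?_ ?_
      · intro P hP
        rw [List.mem_singleton.1 hP]
        refine ⟨?_, ?_⟩
        · simp only [List.cons_append, List.nil_append, List.isChain_cons_cons,
            List.isChain_singleton, and_true]
          exact ⟨(hc.adj p).symm, hapq, hc.adj q⟩
        · have e1 : b p ≠ a p := fun h5 => hc.hY p (h5 ▸ hc.hX p)
          have e2 : b p ≠ a q := fun h5 => hc.hY p (h5 ▸ hc.hX q)
          have e3 : a p ≠ a q := hapq.ne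
          have e4 : a p ≠ b q := fun h5 => hc.hY q (h5 ▸ hc.hX p)
          have e5 : a q ≠ b q := fun h5 => hc.hY q (h5 ▸ hc.hX q)
          simp [e1, e2, e3, e4, e5, hbne]
      · exact List.pairwise_singleton _ _
      · intro P hP x hx
        rw [List.mem_singleton.1 hP] at hx
        have hx' : x = a p ∨ x = a q := by simpa using hx
        rcases hx' with rfl | rfl
        · exact hc.hX p
        · exact hc.hX q
      · intro e he
        rw [List.mem_singleton.1 he]
        exact ⟨_, List.mem_singleton.2 rfl, Or.inl ⟨rfl, rfl⟩⟩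
    · -- no triangles
      intro s hs
      rw [SimpleGraph.is3Clique_iff] at hs
      obtain ⟨x, y, w, hxy, hxw, hyw, -⟩ := hs
      -- a triangle through the new edge gives a common neighbour
      have key : ∀ {z : V}, H.Adj (b p) z → H.Adj (b q) z → False := by
        intro z h1 h2
        rcases hadj.1 h1 with ⟨h3, -, h4⟩ | ⟨-, h3⟩ | ⟨h3, -⟩
        · rcases hadj.1 h2 with ⟨h5, -, -⟩ | ⟨h5, -⟩ | ⟨-, h5⟩
          · exact hno z h4 h3 h5
          · exact hbne h5.symm
          · exact h3.ne h5.symm
        · rw [h3] at h2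
          exact h2.ne rfl
        · exact hbne h3
      have old : ∀ {u v : V}, H.Adj u v → (G.Adj u v ∧ ¬ X u ∧ ¬ X v) ∨
          (u = b p ∧ v = b q) ∨ (u = b q ∧ v = b p) := fun h5 => hadj.1 h5
      rcases old hxy with h1 | ⟨rfl, rfl⟩ | ⟨rfl, rfl⟩
      · rcases old hxw with h2 | ⟨rfl, rfl⟩ | ⟨rfl, rfl⟩
        · rcases old hyw with h3 | ⟨rfl, rfl⟩ | ⟨rfl, rfl⟩
          · refine h.tri {x, y, w} ?_
            rw [SimpleGraph.is3Clique_iff]
            exact ⟨x, y, w, h1.1, h2.1, h3.1, rfl⟩
          · exact key hxy.symm hxw.symm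
          · exact key hxw.symm hxy.symm
        · exact key hxy hyw.symm
        · exact key hyw.symm hxy
      · exact key hxw hyw
      · exact key hyw hxw
    · -- degrees
      intro v
      have hbd : ∀ (s t : Fin 3), s ≠ t →
          ((G.neighborSet (b s) \ {a s}) ∪ {b t}).ncard ≤ 3 := by
        intro s t _
        have h1 : ({a s} : Set V) ⊆ G.neighborSet (b s) := by
          intro y hy
          have hy' : y = a s := hy
          rw [hy']
          exact (hc.adj s).symm
        have h2 := Set.ncard_sdiff h1 (Set.toFinite _)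
        rw [Set.ncard_singleton] at h2
        have h3 := Set.ncard_union_le (G.neighborSet (b s) \ {a s}) {b t}
        rw [Set.ncard_singleton] at h3
        have h4 := h.deg (b s)
        have h5 := Set.ncard_le_ncard h1 (Set.toFinite _)
        rw [Set.ncard_singleton] at h5
        omega
      by_cases hvp : v = b p
      · subst hvp
        refine (Set.ncard_le_ncard ?_ (Set.toFinite _)).trans (hbd p q hpq)
        intro y hy
        rcases hadj.1 (show H.Adj (b p) y from hy) with ⟨h1, -, h2⟩ | ⟨-, h1⟩ | ⟨h1, -⟩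
        · exact Or.inl ⟨h1, fun h3 => h2 (by
            have h3' : y = a p := h3
            rw [h3']; exact hc.hX p)⟩
        · exact Or.inr h1
        · exact absurd h1 hbne
      · by_cases hvq : v = b q
        · subst hvq
          refine (Set.ncard_le_ncard ?_ (Set.toFinite _)).trans (hbd q p hpq.symm)
          intro y hy
          rcases hadj.1 (show H.Adj (b q) y from hy) with ⟨h1, -, h2⟩ | ⟨h1, -⟩ | ⟨-, h1⟩
          · exact Or.inl ⟨h1, fun h3 => h2 (by
              have h3' : y = a q := h3
              rw [h3']; exact hc.hX q)⟩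
          · exact absurd h1.symm hbne
          · exact Or.inr h1
        · refine (Set.ncard_le_ncard ?_ (Set.toFinite _)).trans (h.deg v)
          intro y hy
          rcases hadj.1 (show H.Adj v y from hy) with ⟨h1, -, -⟩ | ⟨h1, -⟩ | ⟨h1, -⟩
          · exact h1
          · exact absurd h1 hvp
          · exact absurd h1 hvq
    · -- number of edges
      have e1 : s(a p, b p) ∈ G.edgeSet := hc.adj p
      have e2 : s(a q, b q) ∈ G.edgeSet := hc.adj q
      have e12 : s(a p, b p) ≠ s(a q, b q) := by
        intro h5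
        rcases Sym2.eq_iff.1 h5 with ⟨h6, -⟩ | ⟨h6, -⟩
        · exact hapq.ne h6
        · exact hc.hY q (h6 ▸ hc.hX p)
      have hsub : H.edgeSet ⊆ (G.edgeSet \ {s(a p, b p), s(a q, b q)}) ∪ {s(b p, b q)} := by
        intro e he
        induction e using Sym2.ind with
        | _ u v =>
          rcases hadj.1 (show H.Adj u v from he) with ⟨h1, h2, h3⟩ | ⟨rfl, rfl⟩ | ⟨rfl, rfl⟩
          · refine Or.inl ⟨h1, ?_⟩
            rintro (h4 | h4)
            · rcases Sym2.eq_iff.1 h4 with ⟨h5, -⟩ | ⟨-, h5⟩
              · exact h2 (h5 ▸ hc.hX p)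
              · exact h3 (h5 ▸ hc.hX p)
            · rcases Sym2.eq_iff.1 h4 with ⟨h5, -⟩ | ⟨-, h5⟩
              · exact h2 (h5 ▸ hc.hX q)
              · exact h3 (h5 ▸ hc.hX q)
          · exact Or.inr rfl
          · exact Or.inr (Sym2.eq_swap)
      have h1 : ({s(a p, b p), s(a q, b q)} : Set (Sym2 V)) ⊆ G.edgeSet := by
        rintro e (rfl | rfl)
        · exact e1
        · exact e2
      have h2 := Set.ncard_sdiff h1 (Set.toFinite _)
      rw [Set.ncard_pair e12] at h2
      have h3 := Set.ncard_le_ncard hsub (Set.toFinite _)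
      have h4 := Set.ncard_union_le (G.edgeSet \ {s(a p, b p), s(a q, b q)}) {s(b p, b q)}
      rw [Set.ncard_singleton] at h4
      have h5 := Set.ncard_le_ncard h1 (Set.toFinite _)
      rw [Set.ncard_pair e12] at h5
      omega
  obtain ⟨c, hc1⟩ := hcol
  refine h.bad (hacc c (fun u v huv => hc1 u v (hadj.2 (Or.inl huv))) ?_)
  exact hc1 (b q) (b p) (hadj.2 (Or.inr (Or.inr ⟨rfl, rfl⟩)))

end Pool.Agent.CutN
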