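import Mathlib
import Pool.Agent.Work.MP_392c8e_co_uni.RungKill
import Pool.Agent.Work.MP_392c8e_co_uni.BadSide

/-!
# The letters above a side with a rung, in a smallest graph without colourings at level n

`s' = rsd s l r1 r2` is the side below the rung `l` of `s`.  If `s'` has the rung `l'` and can be
inserted when its outer ends at this rung look like adjacent vertices, then `l' ≠ l`, and the outer
ends of `s` at `l' + 1`, `l' + 2` are adjacent.  So if the letter above `s` is a rung, then it is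
again `l'`.
-/

set_option autoImplicit false
set_option linter.unusedSectionVars false

namespace Pool.Agent.Bad59

open Pool.Agent.Red Pool.Agent.CutN

variable {V : Type} [Fintype V] [DecidableEq V] {G : SimpleGraph V} {n : ℤ}

theorem fcase2 : ∀ l l' : Fin 3, l' ≠ l → l' + 1 = l ∨ l' + 2 = l := by decide

/-- Two consecutive rungs are at different pairs of strands. -/
theorem letter_ne (h : MinN n G) {s : Sd V} {l l' : Fin 3} {r1 r2 : V}
    (hr : G.Adj (s.a (l + 1)) (s.a (l + 2)))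
    (hc' : CutK G (rsd s l r1 r2).Y (rsd s l r1 r2).a (rsd s l r1 r2).b)
    (hacc : AccPair n G (rsd s l r1 r2).Y ((rsd s l r1 r2).b (l' + 1))
      ((rsd s l r1 r2).b (l' + 2))) : l' ≠ l := by
  rintro rfl
  refine h.no_adj hc' hacc ?_
  rw [rsd_b1, rsd_b2]
  exact hr

/-- Above two consecutive different rungs `l`, `l'` the ends for `l'` are adjacent again. -/
theorem outer_adj (h : MinN n G) {s : Sd V} {l l' : Fin 3} {r1 r2 : V}
    (hc : CutK G s.Y s.a s.b)
    (hr : G.Adj (s.a (l + 1)) (s.a (l + 2)))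
    (hn1 : ∀ w, G.Adj (s.a (l + 1)) w → w = s.b (l + 1) ∨ w = s.a (l + 2) ∨ w = r1)
    (hn2 : ∀ w, G.Adj (s.a (l + 2)) w → w = s.b (l + 2) ∨ w = s.a (l + 1) ∨ w = r2)
    (hc' : CutK G (rsd s l r1 r2).Y (rsd s l r1 r2).a (rsd s l r1 r2).b)
    (hr' : G.Adj ((rsd s l r1 r2).a (l' + 1)) ((rsd s l r1 r2).a (l' + 2)))
    (hacc : AccPair n G (rsd s l r1 r2).Y ((rsd s l r1 r2).b (l' + 1))
      ((rsd s l r1 r2).b (l' + 2))) :
    G.Adj (s.b (l' + 1)) (s.b (l' + 2)) := by
  have hll := letter_ne h hr hc' hacc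
  have q1 : (rsd s l r1 r2).Y r1 := by
    have := hc'.hX (l + 1)
    rwa [rsd_a1] at this
  have q2 : (rsd s l r1 r2).Y r2 := by
    have := hc'.hX (l + 2)
    rwa [rsd_a2] at this
  -- a common neighbour of `b l` and `a m`, `m ≠ l`, is `b m`
  have key : ∀ (m : Fin 3) (w : V), m ≠ l → ¬ (rsd s l r1 r2).Y w → G.Adj (s.b l) w →
      G.Adj (s.a m) w → w = s.b m := by
    intro m w hm hw h1 h2
    rcases fcase l m with e | e | e
    · exact absurd e hm
    · rw [e] at h2 ⊢
      rcases hn1 w h2 with h3 | h3 | h3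
      · exact h3
      · exfalso
        rw [h3] at h1
        have h4 := only hc h1.symm (hc.hY l)
        exact f2 l (hc.ib h4).symm
      · exact absurd q1 (h3 ▸ hw)
    · rw [e] at h2 ⊢
      rcases hn2 w h2 with h3 | h3 | h3
      · exact h3
      · exfalso
        rw [h3] at h1
        have h4 := only hc h1.symm (hc.hY l)
        exact f1 l (hc.ib h4).symm
      · exact absurd q2 (h3 ▸ hw)
  have hbm : ∀ m : Fin 3, m ≠ l → (rsd s l r1 r2).b m = s.a m := by
    intro m hm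
    rcases fcase l m with e | e | e
    · exact absurd e hm
    · rw [e, rsd_b1]
    · rw [e, rsd_b2]
  obtain ⟨w, w1, w2, w3⟩ := h.common hc' (f12 l') hr' hacc
  have hcase := fcase2 l l' hll
  rcases hcase with e | e
  · have hm : l' + 2 ≠ l := fun h5 => f12 l' (e.trans h5.symm)
    rw [e, rsd_b0] at w2
    rw [hbm _ hm] at w3
    have := key _ w hm w1 w2 w3
    rw [e]
    rw [this] at w2
    exact w2
  · have hm : l' + 1 ≠ l := fun h5 => f12 l' (h5.trans e.symm)
    rw [e, rsd_b0] at w3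
    rw [hbm _ hm] at w2
    have := key _ w hm w1 w3 w2
    rw [e]
    rw [this] at w3
    exact w3.symm

/-- The outer ends below the rung `m` are adjacent only at the rung `m`. -/
theorem letter_eq {s0 : Sd V} {m l' : Fin 3} {t1 t2 : V} (hc0 : CutK G s0.Y s0.a s0.b)
    (h : G.Adj ((rsd s0 m t1 t2).b (l' + 1)) ((rsd s0 m t1 t2).b (l' + 2))) : l' = m := by
  by_contra hne
  have hcase := fcase2 m l' hne
  have hbm : ∀ k : Fin 3, k ≠ m → (rsd s0 m t1 t2).b k = s0.a k := by
    intro k hk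
    rcases fcase m k with e | e | e
    · exact absurd e hk
    · rw [e, rsd_b1]
    · rw [e, rsd_b2]
  rcases hcase with e | e
  · have hm : l' + 2 ≠ m := fun h5 => f12 l' (e.trans h5.symm)
    rw [e, rsd_b0, hbm _ hm] at h
    have h4 := only hc0 h.symm (hc0.hY m)
    exact hm (hc0.ib h4).symm
  · have hm : l' + 1 ≠ m := fun h5 => f12 l' (h5.trans e.symm)
    rw [e, rsd_b0, hbm _ hm] at h
    have h4 := only hc0 h (hc0.hY m)
    exact hm (hc0.ib h4).symm

/-- The letter above the letter above a rung is the same rung. -/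
theorem letter_up (h : MinN n G) {s0 : Sd V} {m l l' : Fin 3} {t1 t2 r1 r2 : V}
    (hc0 : CutK G s0.Y s0.a s0.b)
    (hc : CutK G (rsd s0 m t1 t2).Y (rsd s0 m t1 t2).a (rsd s0 m t1 t2).b)
    (hr : G.Adj ((rsd s0 m t1 t2).a (l + 1)) ((rsd s0 m t1 t2).a (l + 2)))
    (hn1 : ∀ w, G.Adj ((rsd s0 m t1 t2).a (l + 1)) w →
      w = (rsd s0 m t1 t2).b (l + 1) ∨ w = (rsd s0 m t1 t2).a (l + 2) ∨ w = r1)
    (hn2 : ∀ w, G.Adj ((rsd s0 m t1 t2).a (l + 2)) w →
      w = (rsd s0 m t1 t2).b (l + 2) ∨ w = (rsd s0 m t1 t2).a (l + 1) ∨ w = r2)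
    (hc' : CutK G (rsd (rsd s0 m t1 t2) l r1 r2).Y (rsd (rsd s0 m t1 t2) l r1 r2).a
      (rsd (rsd s0 m t1 t2) l r1 r2).b)
    (hr' : G.Adj ((rsd (rsd s0 m t1 t2) l r1 r2).a (l' + 1))
      ((rsd (rsd s0 m t1 t2) l r1 r2).a (l' + 2)))
    (hacc : AccPair n G (rsd (rsd s0 m t1 t2) l r1 r2).Y
      ((rsd (rsd s0 m t1 t2) l r1 r2).b (l' + 1))
      ((rsd (rsd s0 m t1 t2) l r1 r2).b (l' + 2))) : l' = m :=
  letter_eq hc0 (outer_adj h hc hr hn1 hn2 hc' hr' hacc)

end Pool.Agent.Bad59
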