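import Mathlib
import Pool.Agent.Work.MP_392c8e_co_uni.RungStep
import Pool.Agent.Work.MP_392c8e_co_uni.LeafK
import Pool.Agent.Work.MP_392c8e_co_uni.GoodS

/-!
# Sides which accept enough, in a smallest graph without colourings at level `N`
-/

namespace Pool.Agent.CutN

open Pool.Agent.Red

set_option linter.unusedSectionVars false

variable {V : Type} [Fintype V] [DecidableEq V] {G : SimpleGraph V} {N s n : ℤ}
  {X : V → Prop} {a b : Fin 3 → V} {p q r : Fin 3}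

/-- A side which accepts all vectors with `y p ≠ y q` can be inserted above adjacent ends. -/
theorem accPair_of_acc (hs0 : 0 ≤ s) (hN4 : 4 * s + 4 ≤ N) (hc : CutK G X a b) (hpq : p ≠ q)
    (hacc : ∀ y : Fin 3 → ZMod 3, y p ≠ y q → Acc s G X a y) : AccPair N G X (b p) (b q) := by
  intro c hc2 hj
  obtain ⟨c', h1, -⟩ := leafN_edge hs0 hN4 hc.cut hpq.symm (fun y hy => hacc y hy.symm) hc2
    (fun m => far_of_jn (by linarith) hj m)
  exact ⟨c', h1⟩

/-- The rest of the graph has a colouring. -/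
theorem MinN.col_rest (h : MinN N G) (hc : CutK G X a b) :
    ∃ c : V → ℤ, IsCol N (side G fun v => ¬ X v) c := by
  obtain ⟨c, hcol⟩ : ColN N (side G fun v => ¬ X v) :=
    h.sub (side_le _ _) (hc.adj 0) fun h5 => h5.2.1 (hc.hX 0)
  exact ⟨c, hcol⟩

/-- No side of a cut with three edges accepts all vectors. -/
theorem MinN.no_full (h : MinN N G) (hs0 : 0 ≤ s) (hs : 3 * s < N) (hc : CutK G X a b)
    (hacc : ∀ y : Fin 3 → ZMod 3, Acc s G X a y) : False := by
  obtain ⟨c, hcol⟩ := h.col_rest hc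
  obtain ⟨c', h1, -⟩ := leafN hs0 hs hc.cut hacc hcol
  exact h.bad ⟨c', h1⟩

/-- No colouring of the rest has the outer ends of a rung far apart. -/
theorem MinN.no_apart (h : MinN N G) (hs0 : 0 ≤ s) (hN4 : 4 * s + 4 ≤ N) (hc : CutK G X a b)
    (hpq : p ≠ q) (hacc : ∀ y : Fin 3 → ZMod 3, y p ≠ y q → Acc s G X a y) {c : V → ℤ}
    (hcol : IsCol N (side G fun v => ¬ X v) c)
    (hD : ∀ m : ℤ, 2 * s + 2 ≤ |c (b q) - c (b p) - 3 * N * m|) : False := by
  obtain ⟨c', h1, -⟩ := leafN_edge hs0 hN4 hc.cut hpq hacc hcol hD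
  exact h.bad ⟨c', h1⟩

section hyp

variable {S : Set V}

/-- The rung clause of `AccHyp`. -/
theorem AccHyp.accPair (hn : 0 ≤ n) (hN : 8 * n + 4 ≤ N) (hc : CutK G (· ∈ S) a b)
    (ha : AccHyp n G S a) (hpq : p ≠ q) (hpr : p ≠ r) (hqr : q ≠ r) (h1 : G.Adj (a p) (a q))
    (h2 : ¬ G.Adj (a p) (a r)) (h3 : ¬ G.Adj (a q) (a r)) : AccPair N G (· ∈ S) (b p) (b q) :=
  accPair_of_acc (s := 2 * n) (by linarith) (by linarith) hc hpq
    fun y hy => ha.rung p q r hpq hpr hqr h1 h2 h3 y hy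

/-- The good clause of `AccHyp`: there are no good sides. -/
theorem AccHyp.not_good (h : MinN N G) (hn : 0 ≤ n) (hN : 6 * n < N) (hc : CutK G (· ∈ S) a b)
    (ha : AccHyp n G S a) (h1 : ∀ i j, ¬ G.Adj (a i) (a j))
    (h2 : ∀ i, (G.neighborSet (a i)).ncard = 3) :
    ∀ i j, i ≠ j → ∃ w, w ∈ S ∧ G.Adj (a i) w ∧ G.Adj (a j) w := by
  by_contra hcon
  push Not at hcon
  obtain ⟨i, j, hij, hw⟩ := hcon
  exact h.no_full (s := 2 * n) (by linarith) (by linarith) hc
    (ha.good h1 h2 ⟨i, j, hij, fun w hw1 hw2 => hw w hw1 hw2.1 hw2.2⟩)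

end hyp

end Pool.Agent.CutN
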