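import Mathlib
import Pool.Agent.Work.MP_392c8e_co_uni.BadSide
import Pool.Agent.Work.MP_392c8e_co_uni.RungStep
import Pool.Agent.Work.MP_392c8e_co_uni.RungAcc
import Pool.Agent.Work.MP_392c8e_co_uni.AltKill
import Pool.Agent.Work.MP_392c8e_co_uni.GoodS

/-!
# The descent from a side of a 3-edge-cut without vertices of degree two near one of its ends

If every such side starts with a rung, then the first five rungs are alternating, and the side
behind four of them can be deleted: this is impossible in a smallest counterexample.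
-/

set_option autoImplicit false
set_option linter.unusedSectionVars false

namespace Pool.Agent.Bad59

open Pool.Agent.Red Pool.Agent.CutN

variable {V : Type} [Fintype V] [DecidableEq V] {G : SimpleGraph V}

/-- Reached by a walk of length at most `n` inside `Y`. -/
def InN (G : SimpleGraph V) (Y : V → Prop) (n : ℕ) (u v : V) : Prop :=
  ∃ p : G.Walk u v, p.length ≤ n ∧ ∀ x ∈ p.support, Y x

namespace InN

variable {Y Y' : V → Prop} {n m : ℕ} {u v w : V}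

theorem refl (h : Y u) : InN G Y 0 u u := ⟨SimpleGraph.Walk.nil, le_rfl, by
  intro x hx
  rw [SimpleGraph.Walk.support_nil, List.mem_singleton] at hx
  rw [hx]
  exact h⟩

theorem mono (h : InN G Y n u v) (hm : n ≤ m) : InN G Y m u v := by
  obtain ⟨p, hp, hs⟩ := h
  exact ⟨p, hp.trans hm, hs⟩

theorem sub (h : InN G Y n u v) (hY : ∀ x, Y x → Y' x) : InN G Y' n u v := by
  obtain ⟨p, hp, hs⟩ := h
  exact ⟨p, hp, fun x hx => hY x (hs x hx)⟩

theorem trans (h : InN G Y n u v) (h' : InN G Y m v w) : InN G Y (n + m) u w := by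
  obtain ⟨p, hp, hs⟩ := h
  obtain ⟨q, hq, ht⟩ := h'
  refine ⟨p.append q, ?_, fun x hx => ?_⟩
  · rw [SimpleGraph.Walk.length_append]
    omega
  · rcases (SimpleGraph.Walk.mem_support_append_iff p q).1 hx with h | h
    · exact hs x h
    · exact ht x h

theorem step (h : InN G Y n u v) (hv : G.Adj v w) (hw : Y w) : InN G Y (n + 1) u w := by
  obtain ⟨p, hp, hs⟩ := h
  have hvY : Y v := hs v p.end_mem_support
  have h1 : InN G Y 1 v w := by
    refine ⟨hv.toWalk, by simp, fun x hx => ?_⟩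
    simp only [SimpleGraph.Walk.support_cons, SimpleGraph.Walk.support_nil, List.mem_cons,
      List.not_mem_nil, or_false] at hx
    rcases hx with rfl | rfl
    · exact hvY
    · exact hw
  exact trans ⟨p, hp, hs⟩ h1

end InN

theorem g11 : ∀ l : Fin 3, l + 1 + 1 = l + 2 := by decide
theorem g12 : ∀ l : Fin 3, l + 1 + 2 = l := by decide
theorem g21 : ∀ l : Fin 3, l + 2 + 1 = l := by decide
theorem g22 : ∀ l : Fin 3, l + 2 + 2 = l + 1 := by decide

theorem leave_cutK {X : V → Prop} {a b : Fin 3 → V} (hc : CutK G X a b) :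
    (leave G {v | X v}).ncard = 3 := by
  have h1 : leave G {v | X v} = Set.range fun i => (a i, b i) := by
    ext ⟨u, v⟩
    constructor
    · rintro ⟨h1, h2, h3⟩
      obtain ⟨i, h4, h5⟩ := hc.cut u v h1 h2 h3
      exact ⟨i, by rw [h4, h5]⟩
    · rintro ⟨i, hi⟩
      obtain ⟨h4, h5⟩ := Prod.mk.inj hi
      rw [← h4, ← h5]
      exact ⟨hc.hX i, hc.hY i, hc.adj i⟩
  have h2 : Function.Injective fun i => (a i, b i) := fun i j h => hc.ia (Prod.mk.inj h).1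
  rw [h1, ← Set.image_univ, Set.ncard_image_of_injective _ h2, Set.ncard_univ]
  simp

theorem thick_mono {A A' : Set V} (h : Thick G A) (hs : A ⊆ A') : Thick G A' :=
  h.trans (Set.ncard_le_ncard (fun _ hv => ⟨hs hv.1, hv.2⟩) (Set.toFinite _))

/-- One rung is removed. -/
structure RStep (G : SimpleGraph V) (s : Sd V) (l : Fin 3) (r1 r2 : V) : Prop where
  rung : G.Adj (s.a (l + 1)) (s.a (l + 2))
  e1 : G.Adj (s.a (l + 1)) r1
  e2 : G.Adj (s.a (l + 2)) r2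
  n1 : ∀ w, G.Adj (s.a (l + 1)) w → w = s.b (l + 1) ∨ w = s.a (l + 2) ∨ w = r1
  n2 : ∀ w, G.Adj (s.a (l + 2)) w → w = s.b (l + 2) ∨ w = s.a (l + 1) ∨ w = r2
  cut : CutK G (rsd s l r1 r2).Y (rsd s l r1 r2).a (rsd s l r1 r2).b

/-- The hypotheses of the descent. -/
structure DescH (N t : ℤ) (G : SimpleGraph V) (r : ℕ) (K : Set V) : Prop where
  min : MinN N G
  out : Thick G Kᶜ
  near : ∀ S, S ⊆ K → S ≠ K → Th3 G S → EX G r S
  step : ∀ s : Sd V, (∀ v, s.Y v → v ∈ K) → CutK G s.Y s.a s.b → Th3 G {v | s.Y v} →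
    (∀ i, dg G (s.a i) = 3) → (∃ i, ∀ v, InN G s.Y 5 (s.a i) v → dg G v = 3) →
    ∃ l r1 r2, RStep G s l r1 r2 ∧ Thick G {v | (rsd s l r1 r2).Y v}
  acc : ∀ s : Sd V, (∀ v, s.Y v → v ∈ K) → CutK G s.Y s.a s.b → Th3 G {v | s.Y v} →
    (∀ i, dg G (s.a i) = 3) → (∃ i, ∀ v, InN G s.Y 5 (s.a i) v → dg G v = 3) →
    ∀ l, G.Adj (s.a (l + 1)) (s.a (l + 2)) →
    ∀ y : Fin 3 → ZMod 3, y (l + 1) ≠ y (l + 2) → Acc t G s.Y s.a y

section

variable {N t : ℤ} {r : ℕ} {K : Set V} {e : V}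

theorem DescH.th3 (H : DescH N t G r K) {s : Sd V} (hs : ∀ v, s.Y v → v ∈ K)
    (hc : CutK G s.Y s.a s.b) (ht : Thick G {v | s.Y v}) : Th3 G {v | s.Y v} :=
  ⟨leave_cutK hc, ht, thick_mono H.out fun _ hv h => hv (hs _ h)⟩

/-- The invariant: the ends are near the vertex `e`. -/
structure Zone (G : SimpleGraph V) (K : Set V) (e : V) (s : Sd V) (D : ℕ) : Prop where
  sub : ∀ v, s.Y v → v ∈ K
  cut : CutK G s.Y s.a s.b
  thick : Th3 G {v | s.Y v}
  near : ∀ i, InN G (· ∈ K) D e (s.a i)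

/-- The ends of the next side. -/
theorem InN.next {s : Sd V} {D : ℕ} (hs : ∀ v, s.Y v → v ∈ K)
    (hn : ∀ i, InN G (· ∈ K) D e (s.a i)) {l : Fin 3} {r1 r2 : V} (h : RStep G s l r1 r2)
    (i : Fin 3) : InN G (· ∈ K) (D + 1) e ((rsd s l r1 r2).a i) := by
  have hB : (rsd s l r1 r2).a i ∈ K := hs _ (h.cut.hX i).1
  rcases fcase l i with h3 | h3 | h3
  · rw [h3, rsd_a0]
    exact (hn l).mono (by omega)
  · rw [h3, rsd_a1] at hB ⊢
    exact (hn (l + 1)).step h.e1 hB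
  · rw [h3, rsd_a2] at hB ⊢
    exact (hn (l + 2)).step h.e2 hB

theorem Zone.next (H : DescH N t G r K) (hpure : ∀ v, InN G (· ∈ K) r e v → dg G v = 3) {D : ℕ}
    {s : Sd V} (hs : Zone G K e s D) (hD : D + 5 ≤ r) :
    ∃ l r1 r2, RStep G s l r1 r2 ∧ Zone G K e (rsd s l r1 r2) (D + 1) := by
  obtain ⟨l, r1, r2, h1, h2⟩ := H.step s hs.sub hs.cut hs.thick
    (fun i => hpure _ ((hs.near i).mono (by omega)))
    ⟨0, fun v hv => hpure v (((hs.near 0).trans (hv.sub hs.sub)).mono hD)⟩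
  exact ⟨l, r1, r2, h1, fun v hv => hs.sub v hv.1, h1.cut,
    H.th3 (fun v hv => hs.sub v hv.1) h1.cut h2, InN.next hs.sub hs.near h1⟩

theorem Zone.full (H : DescH N t G r K) (hpure : ∀ v, InN G (· ∈ K) r e v → dg G v = 3) {D : ℕ}
    {s : Sd V} (hs : Zone G K e s D) (hD : D + 5 ≤ r) {l : Fin 3}
    (h : G.Adj (s.a (l + 1)) (s.a (l + 2))) (y : Fin 3 → ZMod 3) (hy : y (l + 1) ≠ y (l + 2)) :
    Acc t G s.Y s.a y :=
  H.acc s hs.sub hs.cut hs.thick (fun i => hpure _ ((hs.near i).mono (by omega)))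
    ⟨0, fun v hv => hpure v (((hs.near 0).trans (hv.sub hs.sub)).mono hD)⟩ l h y hy

theorem Zone.acc (H : DescH N t G r K) (ht : 0 ≤ t) (hN : 4 * t + 4 ≤ N)
    (hpure : ∀ v, InN G (· ∈ K) r e v → dg G v = 3) {D : ℕ} {s : Sd V} (hs : Zone G K e s D)
    (hD : D + 5 ≤ r) {l : Fin 3} (h : G.Adj (s.a (l + 1)) (s.a (l + 2))) :
    AccPair N G s.Y (s.b (l + 1)) (s.b (l + 2)) :=
  accPair_of_acc ht hN hs.cut (f12 l) (hs.full H hpure hD h)

end

/-- **The descent.** -/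
theorem descent {N t : ℤ} (ht : 0 ≤ t) (hN : 4 * t + 4 ≤ N) {r : ℕ} {K : Set V}
    (H : DescH N t G r K) (hr : 12 ≤ r) {s0 : Sd V}
    (hY : ∀ v, s0.Y v → v ∈ K) (hc0 : CutK G s0.Y s0.a s0.b) (ht0 : Thick G {v | s0.Y v})
    (h30 : ∀ i, dg G (s0.a i) = 3) {i0 : Fin 3}
    (hpure : ∀ v, InN G (· ∈ K) r (s0.a i0) v → dg G v = 3) :
    ∃ (la lb : Fin 3) (x1 x2 y1 y2 z1 z2 w1 w2 : V), lb ≠ la ∧ RStep G s0 la x1 x2 ∧
      RStep G (rsd s0 la x1 x2) lb y1 y2 ∧ RStep G (rsd (rsd s0 la x1 x2) lb y1 y2) la z1 z2 ∧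
      RStep G (rsd (rsd (rsd s0 la x1 x2) lb y1 y2) la z1 z2) lb w1 w2 ∧
      Zone G K (s0.a i0) (rsd (rsd (rsd (rsd s0 la x1 x2) lb y1 y2) la z1 z2) lb w1 w2) 6 ∧
      G.Adj ((rsd (rsd (rsd (rsd s0 la x1 x2) lb y1 y2) la z1 z2) lb w1 w2).a (la + 1))
        ((rsd (rsd (rsd (rsd s0 la x1 x2) lb y1 y2) la z1 z2) lb w1 w2).a (la + 2)) := by
  have hin0 : InN G (· ∈ K) 0 (s0.a i0) (s0.a i0) := InN.refl (hY _ (hc0.hX i0))
  -- the first rung
  obtain ⟨la, x1, x2, hR0, hT1⟩ := H.step s0 hY hc0 (H.th3 hY hc0 ht0) h30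
    ⟨i0, fun v hv => hpure v ((hv.sub hY).mono (by omega))⟩
  set s1 := rsd s0 la x1 x2 with hs1
  have hs1B : ∀ v, s1.Y v → v ∈ K := fun v hv => hY v hv.1
  have hc1 : CutK G s1.Y s1.a s1.b := hR0.cut
  have hT1' := H.th3 hs1B hc1 hT1
  have hi0 : i0 ≠ la := by
    intro hi
    have hne : {v | s1.Y v} ≠ K := by
      intro h
      have h1 : s0.a (la + 1) ∈ {v | s1.Y v} := by
        rw [h]
        exact hY _ (hc0.hX _)
      exact h1.2.1 rfl
    obtain ⟨m, m1, m2⟩ := H.near {v | s1.Y v} hs1B hne hT1' (s1.a la) (hc1.hX la)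
      ⟨s1.b la, hc1.hY la, hc1.adj la⟩
    have e1 : s1.a la = s0.a i0 := by rw [hs1, rsd_a0, hi]
    have m3 : InN G s1.Y r (s1.a la) m := m2
    rw [e1] at m3
    have h4 := hpure m (m3.sub hs1B)
    have h5 : dg G m = 2 := m1
    omega
  have B1 : s0.a (la + 1) ∈ K := hY _ (hc0.hX _)
  have B2 : s0.a (la + 2) ∈ K := hY _ (hc0.hX _)
  have n12 : InN G (· ∈ K) 1 (s0.a i0) (s0.a (la + 1)) ∧
      InN G (· ∈ K) 1 (s0.a i0) (s0.a (la + 2)) := by
    rcases fcase la i0 with h3 | h3 | h3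
    · exact absurd h3 hi0
    · rw [h3] at hin0 ⊢
      exact ⟨hin0.mono (by omega), hin0.step hR0.rung B2⟩
    · rw [h3] at hin0 ⊢
      exact ⟨hin0.step hR0.rung.symm B1, hin0.mono (by omega)⟩
  have hX1 : s1.Y x1 := by
    have := hc1.hX (la + 1)
    rwa [hs1, rsd_a1] at this
  have hX2 : s1.Y x2 := by
    have := hc1.hX (la + 2)
    rwa [hs1, rsd_a2] at this
  have nx1 : InN G (· ∈ K) 2 (s0.a i0) x1 := n12.1.step hR0.e1 (hs1B _ hX1)
  have nx2 : InN G (· ∈ K) 2 (s0.a i0) x2 := n12.2.step hR0.e2 (hs1B _ hX2)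
  have a10 : s1.a la = s0.a la := rsd_a0
  have a11 : s1.a (la + 1) = x1 := rsd_a1
  have a12 : s1.a (la + 2) = x2 := rsd_a2
  -- the second rung
  have h31 : ∀ i, dg G (s1.a i) = 3 := by
    intro i
    rcases fcase la i with h3 | h3 | h3
    · rw [h3, a10]
      exact h30 _
    · rw [h3, a11]
      exact hpure _ (nx1.mono (by omega))
    · rw [h3, a12]
      exact hpure _ (nx2.mono (by omega))
  have hp1 : ∃ i, ∀ v, InN G s1.Y 5 (s1.a i) v → dg G v = 3 := ⟨la + 1, fun v hv => by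
    rw [a11] at hv
    exact hpure v ((nx1.trans (hv.sub hs1B)).mono (by omega))⟩
  obtain ⟨lb, y1, y2, hR1, hT2⟩ := H.step s1 hs1B hc1 hT1' h31 hp1
  have hne1 : lb ≠ la := letter_ne H.min hR0.rung hR0.cut
    (accPair_of_acc ht hN hc1 (f12 lb) (H.acc s1 hs1B hc1 hT1' h31 hp1 lb hR1.rung))
  have z1 : Zone G K (s0.a i0) s1 3 := by
    refine ⟨hs1B, hc1, hT1', fun i => ?_⟩
    rcases fcase la i with h3 | h3 | h3
    · rw [h3]
      rcases fcase la lb with h4 | h4 | h4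
      · exact absurd h4 hne1
      · have e1 : lb + 1 = la + 2 := by rw [h4]; exact g11 la
        have e2 : lb + 2 = la := by rw [h4]; exact g12 la
        have hr := hR1.rung
        rw [e1, e2, a12] at hr
        exact nx2.step hr (hs1B _ (hc1.hX _))
      · have e1 : lb + 1 = la := by rw [h4]; exact g21 la
        have e2 : lb + 2 = la + 1 := by rw [h4]; exact g22 la
        have hr := hR1.rung
        rw [e1, e2, a11] at hr
        exact nx1.step hr.symm (hs1B _ (hc1.hX _))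
    · rw [h3, a11]
      exact nx1.mono (by omega)
    · rw [h3, a12]
      exact nx2.mono (by omega)
  set s2 := rsd s1 lb y1 y2 with hs2
  have z2 : Zone G K (s0.a i0) s2 4 :=
    ⟨fun v hv => hs1B v hv.1, hR1.cut, H.th3 (fun v hv => hs1B v hv.1) hR1.cut hT2,
      InN.next hs1B z1.near hR1⟩
  -- the other rungs
  obtain ⟨l2, u1, u2, hR2, z3⟩ := z2.next H hpure (by omega)
  set s3 := rsd s2 l2 u1 u2 with hs3
  obtain ⟨l3, v1, v2, hR3, z4⟩ := z3.next H hpure (by omega)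
  set s4 := rsd s3 l3 v1 v2 with hs4
  obtain ⟨l4, t1, t2, hR4, z5⟩ := z4.next H hpure (by omega)
  -- the letters
  have E2 : l2 = la := letter_up H.min hc0 hc1 hR1.rung hR1.n1 hR1.n2 hR1.cut hR2.rung
    (z2.acc H ht hN hpure (by omega) hR2.rung)
  have E3 : l3 = lb := letter_up H.min hc1 z2.cut hR2.rung hR2.n1 hR2.n2 hR2.cut hR3.rung
    (z3.acc H ht hN hpure (by omega) hR3.rung)
  have E4 : l4 = l2 := letter_up H.min z2.cut z3.cut hR3.rung hR3.n1 hR3.n2 hR3.cut hR4.rung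
    (z4.acc H ht hN hpure (by omega) hR4.rung)
  have hr4 := hR4.rung
  rw [E4, E2] at hr4
  subst E2
  subst E3
  exact ⟨l2, l3, x1, x2, y1, y2, u1, u2, v1, v2, hne1, hR0, hR1, hR2, hR3, z4, hr4⟩

/-- **A smallest counterexample has no side with a far end.** -/
theorem desc_kill {N t : ℤ} (ht : 0 ≤ t) (hN : 128 * t + 328 ≤ N) {r : ℕ} {K : Set V}
    (H : DescH N t G r K) (hr : 12 ≤ r) {s0 : Sd V} (hY : ∀ v, s0.Y v → v ∈ K)
    (hc0 : CutK G s0.Y s0.a s0.b) (ht0 : Thick G {v | s0.Y v}) (h30 : ∀ i, dg G (s0.a i) = 3)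
    {i0 : Fin 3} (hpure : ∀ v, InN G (· ∈ K) r (s0.a i0) v → dg G v = 3) : False := by
  obtain ⟨la, lb, x1, x2, y1, y2, z1, z2, w1, w2, hne, hR0, hR1, hR2, hR3, hz, hr4⟩ :=
    descent ht (by linarith) H hr hY hc0 ht0 h30 hpure
  obtain ⟨q, hq⟩ := H.min.col_rest hz.cut
  obtain ⟨c, hc, -⟩ := alt_kill_l ht hN hne.symm (RSt.of_rsd hR0.rung hR0.n1 hR0.n2)
    (RSt.of_rsd hR1.rung hR1.n1 hR1.n2) (RSt.of_rsd hR2.rung hR2.n1 hR2.n2)
    (RSt.of_rsd hR3.rung hR3.n1 hR3.n2) hc0 hR0.cut hR1.cut hR2.cut hR3.cut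
    (hz.full H hpure (by omega) hr4) hq
  exact H.min.bad ⟨c, hc⟩

end Pool.Agent.Bad59
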