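import Mathlib

/-!
# Discharging: the summation over classes of darts
-/

namespace Pool.Agent.Disch392

open Finset

section classes

variable {D C : Type*} [Fintype D] [DecidableEq C]

/-- The length of a class. -/
def len (φ : D → C) (c : C) : ℕ := #{d | φ d = c}

/-- **The summation over the classes.**  The darts `D`, their classes `φ` and the reversal `sym`;
the amount `t d` is sent across the dart `d` of a class of length five to a class of length at
least seven. -/
theorem class_sum (φ : D → C) (sym : Equiv.Perm D) (t : D → ℝ) (clean : D → Prop)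
    (pat free : C → Prop) [DecidablePred clean] [DecidablePred pat] [DecidablePred free] (n2 : ℕ)
    (ht0 : ∀ d, 0 ≤ t d) (ht1 : ∀ d, t d ≤ 73 / 200)
    (ht2 : ∀ d, t (sym d) ≠ 0 → 7 ≤ len φ (φ d))
    (hE : -(2 * n2 : ℝ) ≤ ∑ c ∈ univ.image φ, (6 - len φ c : ℝ))
    (h5le : ∀ c ∈ univ.image φ, (∀ d, φ d = c → clean d) → 5 ≤ len φ c)
    (h6 : ∀ c ∈ univ.image φ, (∀ d, φ d = c → clean d) → len φ c = 6 → free c)
    (h5 : ∀ c ∈ univ.image φ, (∀ d, φ d = c → clean d) → len φ c = 5 → ¬ pat c →
      201 / 200 ≤ ∑ d ∈ univ.filter (fun d => φ d = c), t d)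
    (h7 : ∀ c ∈ univ.image φ, (∀ d, φ d = c → clean d) → len φ c = 7 →
      ∑ d ∈ univ.filter (fun d => φ d = c), t (sym d) ≤ 24 / 25)
    (h8 : ∀ c ∈ univ.image φ, (∀ d, φ d = c → clean d) → len φ c = 8 →
      #{d | φ d = c ∧ t (sym d) ≠ 0} ≤ 5)
    (h9 : ∀ c ∈ univ.image φ, (∀ d, φ d = c → clean d) → len φ c = 9 →
      #{d | φ d = c ∧ t (sym d) ≠ 0} ≤ 8) :
    ∑ c ∈ (univ.image φ).filter (fun c => ¬ free c), len φ c ≤
      1000 * (7 * #{d | ¬ clean d} + 2 * #((univ.image φ).filter pat) + 2 * n2) := by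
  classical
  set T := univ.image φ with hT
  -- the charge of a class
  have hmap : ∀ d ∈ (univ : Finset D), φ d ∈ T := fun d _ => mem_image_of_mem φ (mem_univ d)
  have hs1 : ∑ c ∈ T, ∑ d ∈ univ.filter (fun d => φ d = c), t d = ∑ d, t d :=
    sum_fiberwise_of_maps_to hmap t
  have hs2 : ∑ c ∈ T, ∑ d ∈ univ.filter (fun d => φ d = c), t (sym d) = ∑ d, t d := by
    rw [sum_fiberwise_of_maps_to hmap fun d => t (sym d)]
    exact Equiv.sum_comp sym t
  have hs3 : ∑ c ∈ T, #{d | φ d = c ∧ ¬ clean d} = #{d | ¬ clean d} := by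
    have := card_eq_sum_card_fiberwise (s := univ.filter fun d => ¬ clean d) (t := T) (f := φ)
      fun d _ => hmap d (mem_univ d)
    rw [this]
    refine sum_congr rfl fun c _ => ?_
    rw [filter_filter]
    congr 1
    ext d
    simp [and_comm]
  have hrec : ∀ c, ∑ d ∈ univ.filter (fun d => φ d = c), t (sym d) ≤
      #{d | φ d = c ∧ t (sym d) ≠ 0} * (73 / 200) := by
    intro c
    have e : ∑ d ∈ univ.filter (fun d => φ d = c), t (sym d) =
        ∑ d ∈ univ.filter (fun d => φ d = c ∧ t (sym d) ≠ 0), t (sym d) := by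
      rw [← filter_filter, sum_filter_ne_zero]
    rw [e]
    have := sum_le_card_nsmul (univ.filter (fun d => φ d = c ∧ t (sym d) ≠ 0))
      (fun d => t (sym d)) (73 / 200) fun d _ => ht1 _
    rwa [nsmul_eq_mul] at this
  have hrec' : ∀ c, ∑ d ∈ univ.filter (fun d => φ d = c), t (sym d) ≤
      len φ c * (73 / 200) := by
    intro c
    have := sum_le_card_nsmul (univ.filter (fun d => φ d = c))
      (fun d => t (sym d)) (73 / 200) fun d _ => ht1 _
    rwa [nsmul_eq_mul] at this
  have hnn : ∀ c, 0 ≤ ∑ d ∈ univ.filter (fun d => φ d = c), t d := fun c =>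
    sum_nonneg fun d _ => ht0 d
  have hz : ∀ c, len φ c < 7 → ∑ d ∈ univ.filter (fun d => φ d = c), t (sym d) = 0 := by
    intro c hc
    refine sum_eq_zero fun d hd => ?_
    by_contra hne
    have := ht2 d hne
    rw [(mem_filter.1 hd).2] at this
    omega
  have key : ∀ c ∈ T, (6 - len φ c : ℝ) - ∑ d ∈ univ.filter (fun d => φ d = c), t d +
      ∑ d ∈ univ.filter (fun d => φ d = c), t (sym d) ≤
      - (1 / 1000) * (if ¬ free c then (len φ c : ℝ) else 0) +
        7 * (#{d | φ d = c ∧ ¬ clean d} : ℝ) + 2 * (if pat c then 1 else 0) := by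
    intro c hc
    have e1 := hnn c
    have e2 := hrec' c
    have e3 := hrec c
    have hp : (0 : ℝ) ≤ 2 * (if pat c then 1 else 0) := by split_ifs <;> norm_num
    by_cases hcl : ∀ d, φ d = c → clean d
    · have e4 : #{d | φ d = c ∧ ¬ clean d} = 0 := by
        rw [card_eq_zero, filter_eq_empty_iff]
        rintro d - ⟨h1, h2⟩
        exact h2 (hcl d h1)
      rw [e4]
      have e5 := h5le c hc hcl
      rcases (by omega : len φ c = 5 ∨ len φ c = 6 ∨ len φ c = 7 ∨ len φ c = 8 ∨ len φ c = 9 ∨
        10 ≤ len φ c) with h | h | h | h | h | h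
      · rw [hz c (by omega)]
        by_cases h1 : pat c
        · rw [if_pos h1, h]
          split_ifs <;> push_cast <;> linarith
        · have := h5 c hc hcl h h1
          rw [if_neg h1, h]
          split_ifs <;> push_cast <;> linarith
      · rw [hz c (by omega), if_neg (not_not.2 (h6 c hc hcl h)), h]
        push_cast
        linarith
      · have := h7 c hc hcl h
        rw [h]
        split_ifs <;> push_cast <;> linarith
      · have h10 : (#{d | φ d = c ∧ t (sym d) ≠ 0} : ℝ) ≤ 5 := by exact_mod_cast h8 c hc hcl h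
        rw [h]
        split_ifs <;> push_cast <;> linarith
      · have h10 : (#{d | φ d = c ∧ t (sym d) ≠ 0} : ℝ) ≤ 8 := by exact_mod_cast h9 c hc hcl h
        rw [h]
        split_ifs <;> push_cast <;> linarith
      · have h10 : (10 : ℝ) ≤ len φ c := by exact_mod_cast h
        have h11 : -(1 / 1000) * (len φ c : ℝ) ≤
            -(1 / 1000) * (if ¬ free c then (len φ c : ℝ) else 0) := by
          split_ifs
          · linarith
          · exact le_rfl
        push_cast
        linarith
    · push Not at hcl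
      obtain ⟨d, hd1, hd2⟩ := hcl
      have e4 : (1 : ℝ) ≤ #{d | φ d = c ∧ ¬ clean d} := by
        have : 0 < #{d | φ d = c ∧ ¬ clean d} :=
          card_pos.2 ⟨d, mem_filter.2 ⟨mem_univ d, hd1, hd2⟩⟩
        exact_mod_cast this
      have h10 : (0 : ℝ) ≤ len φ c := by positivity
      have h11 : -(1 / 1000) * (len φ c : ℝ) ≤
          -(1 / 1000) * (if ¬ free c then (len φ c : ℝ) else 0) := by
        split_ifs
        · linarith
        · exact le_rfl
      linarith
  have hsum := sum_le_sum key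
  rw [sum_add_distrib, sum_sub_distrib, hs1, hs2, sum_add_distrib, sum_add_distrib, ← mul_sum,
    ← mul_sum, ← mul_sum, ← sum_filter, ← sum_filter, sum_const, nsmul_eq_mul, mul_one] at hsum
  have hs4 : ∑ c ∈ T, (#{d | φ d = c ∧ ¬ clean d} : ℝ) = (#{d | ¬ clean d} : ℝ) := by
    exact_mod_cast hs3
  rw [hs4] at hsum
  have hfin : (∑ c ∈ T.filter (fun c => ¬ free c), (len φ c : ℝ)) ≤
      1000 * (7 * (#{d | ¬ clean d} : ℝ) + 2 * #(T.filter pat) + 2 * n2) := by
    linarith
  exact_mod_cast hfin

end classes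

end Pool.Agent.Disch392
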