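import Mathlib
import Pool.Agent.Work.MP_392c8e_co_uni.Disch

/-!
# Discharging with an antisymmetric exchange and windows

The faces exchange the amount `y d` across the edge `d`; inside a face of length at most seven the
charge is spread evenly, inside a longer face it is averaged over three consecutive darts.
-/

namespace Pool.Agent.Disch392

open Finset Pool.Agent.Sub392 Pool.Agent.T392

set_option linter.unusedSectionVars false

variable {V : Type} [Fintype V] [DecidableEq V] {G : SimpleGraph V} [DecidableRel G.Adj]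

/-- An exchange: what the face of `d` gives to the face of `d.symm`. -/
structure Flow (y : G.Dart → ℝ) : Prop where
  anti : ∀ d, y d.symm = - y d
  bd : ∀ d, |y d| ≤ 2

/-- The length of the window. -/
def win (n : ℕ) : ℕ := if n ≤ 7 then n else 3

theorem win_le (n : ℕ) : win n ≤ 7 := by
  unfold win
  split_ifs <;> omega

theorem win_pos {n : ℕ} (h : 1 ≤ n) : 1 ≤ win n := by
  unfold win
  split_ifs <;> omega

/-- The charge after the exchange. -/
noncomputable def xf (R : Rot G) (y : G.Dart → ℝ) (d : G.Dart) : ℝ := kap R d - y d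

/-- The charge carried to the next dart of the face. -/
noncomputable def af (R : Rot G) (y : G.Dart → ℝ) (d : G.Dart) : ℝ :=
  (∑ j ∈ range (win (sz R d)), ((win (sz R d) : ℝ) - 1 - j) * xf R y ((prev R)^[j] d)) /
    win (sz R d)

/-- The final charge. -/
noncomputable def mf (R : Rot G) (y : G.Dart → ℝ) (d : G.Dart) : ℝ :=
  xf R y d + af R y (prev R d) - af R y d

theorem telesc (W : ℕ) (X : ℕ → ℝ) :
    ∑ j ∈ range W, ((W : ℝ) - 1 - j) * X (j + 1) =
      ∑ j ∈ range W, ((W : ℝ) - j) * X j - W * X 0 := by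
  have h1 := sum_range_succ' (fun i => ((W : ℝ) - i) * X i) W
  have h2 := sum_range_succ (fun i => ((W : ℝ) - i) * X i) W
  rw [h2] at h1
  simp only [sub_self, zero_mul, add_zero, Nat.cast_zero, sub_zero] at h1
  rw [h1, add_sub_cancel_right]
  refine sum_congr rfl fun j _ => ?_
  push_cast
  ring

/-- The final charge is the mean over the window. -/
theorem mf_eq (R : Rot G) (y : G.Dart → ℝ) (d : G.Dart) :
    mf R y d = (∑ j ∈ range (win (sz R d)), xf R y ((prev R)^[j] d)) / win (sz R d) := by
  have hW : (0 : ℝ) < win (sz R d) := by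
    have := win_pos (sz_pos R d)
    exact_mod_cast this
  unfold mf af
  rw [sz_prev]
  set W := win (sz R d) with hWd
  have h1 : ∀ j, xf R y ((prev R)^[j] (prev R d)) = xf R y ((prev R)^[j + 1] d) := by
    intro j
    rw [Function.iterate_succ_apply]
  simp only [h1]
  have h2 := telesc W (fun j => xf R y ((prev R)^[j] d))
  simp only [Function.iterate_zero, id_eq] at h2
  rw [h2]
  have h3 : ∑ j ∈ range W, ((W : ℝ) - j) * xf R y ((prev R)^[j] d) -
      ∑ j ∈ range W, ((W : ℝ) - 1 - j) * xf R y ((prev R)^[j] d) =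
      ∑ j ∈ range W, xf R y ((prev R)^[j] d) := by
    rw [← sum_sub_distrib]
    refine sum_congr rfl fun j _ => ?_
    ring
  rw [← h3]
  field_simp
  ring

/-- The good darts. -/
def GoodF (R : Rot G) (y : G.Dart → ℝ) (c : ℝ) (d : G.Dart) : Prop :=
  ∑ j ∈ range (win (sz R d)), xf R y ((prev R)^[j] d) ≤
    if sz R d = 6 then 0 else - (c * win (sz R d))

section

variable {R : Rot G} {y : G.Dart → ℝ} (hy : Flow y)

include hy

theorem xf_abs (d : G.Dart) : |xf R y d| ≤ 7 := by
  have h1 := (abs_le.1 (hy.bd d))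
  have h2 := kap_le R d
  have h3 := kap_ge R d
  unfold xf
  rw [abs_le]
  constructor <;> linarith

theorem af_abs (d : G.Dart) : |af R y d| ≤ 49 := by
  unfold af
  set W := win (sz R d) with hWd
  have hW : (0 : ℝ) < W := by
    have := win_pos (sz_pos R d)
    exact_mod_cast this
  have hW7 : (W : ℝ) ≤ 7 := by
    have := win_le (sz R d)
    exact_mod_cast this
  rw [abs_div, abs_of_pos hW, div_le_iff₀ hW]
  have h1 : ∀ j ∈ range W, |((W : ℝ) - 1 - j) * xf R y ((prev R)^[j] d)| ≤ 7 * W := by
    intro j hj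
    rw [mem_range] at hj
    have hj' : (j : ℝ) + 1 ≤ W := by exact_mod_cast hj
    have hj0 : (0 : ℝ) ≤ j := Nat.cast_nonneg j
    rw [abs_mul, abs_of_nonneg (by linarith : (0 : ℝ) ≤ (W : ℝ) - 1 - j)]
    have := xf_abs hy (R := R) ((prev R)^[j] d)
    nlinarith [abs_nonneg (xf R y ((prev R)^[j] d))]
  refine (abs_sum_le_sum_abs _ _).trans ((sum_le_sum h1).trans ?_)
  rw [sum_const, card_range, nsmul_eq_mul]
  nlinarith

theorem mf_le (d : G.Dart) : mf R y d ≤ 7 := by
  rw [mf_eq]
  set W := win (sz R d) with hWd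
  have hW : (0 : ℝ) < W := by
    have := win_pos (sz_pos R d)
    exact_mod_cast this
  rw [div_le_iff₀ hW]
  refine (sum_le_sum fun j _ => (le_abs_self _).trans (xf_abs hy (R := R) _)).trans ?_
  rw [sum_const, card_range, nsmul_eq_mul]
  linarith

omit hy in
theorem mf_good {c : ℝ} {d : G.Dart} (h : GoodF R y c d) :
    mf R y d ≤ if sz R d = 6 then 0 else - c := by
  rw [mf_eq]
  have hW : (0 : ℝ) < win (sz R d) := by
    have := win_pos (sz_pos R d)
    exact_mod_cast this
  unfold GoodF at h
  rw [div_le_iff₀ hW]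
  split_ifs at h ⊢ with h6
  · linarith
  · linarith

open Classical in
/-- **Discharging with an exchange.** -/
theorem disch_flow {c : ℝ} (hc : c ≤ 1) (U : Finset V) :
    ∑ d ∈ univ.filter (fun d : G.Dart => d.fst ∈ U), kap R d ≤
      - c * #{d : G.Dart | d.fst ∈ U ∧ sz R d ≠ 6} +
        8 * #{d : G.Dart | d.fst ∈ U ∧ ¬ GoodF R y c d} + 102 * #(bd (G := G) U) := by
  have e0 : ∑ d ∈ univ.filter (fun d : G.Dart => d.fst ∈ U), y d = - (1 / 2) *
      (∑ d ∈ univ.filter (fun d : G.Dart => d.snd ∈ U), y d -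
        ∑ d ∈ univ.filter (fun d : G.Dart => d.fst ∈ U), y d) := by
    have h1 := sum_symm U y
    rw [sum_congr rfl fun d _ => hy.anti d, sum_neg_distrib] at h1
    rw [← h1]
    ring
  have h1 : ∑ d ∈ univ.filter (fun d : G.Dart => d.fst ∈ U), kap R d =
      ∑ d ∈ univ.filter (fun d : G.Dart => d.fst ∈ U), mf R y d +
      (1 / 2) * (∑ d ∈ univ.filter (fun d : G.Dart => d.fst ∈ U), y d -
        ∑ d ∈ univ.filter (fun d : G.Dart => d.snd ∈ U), y d) +
      (∑ d ∈ univ.filter (fun d : G.Dart => d.fst ∈ U), af R y d -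
        ∑ d ∈ univ.filter (fun d : G.Dart => d.snd ∈ U), af R y d) := by
    rw [← sum_prev R U (af R y)]
    have h2 : ∑ d ∈ univ.filter (fun d : G.Dart => d.fst ∈ U), kap R d =
        ∑ d ∈ univ.filter (fun d : G.Dart => d.fst ∈ U), mf R y d +
        ∑ d ∈ univ.filter (fun d : G.Dart => d.fst ∈ U), y d +
        (∑ d ∈ univ.filter (fun d : G.Dart => d.fst ∈ U), af R y d -
        ∑ d ∈ univ.filter (fun d : G.Dart => d.fst ∈ U), af R y (prev R d)) := by
      rw [← sum_sub_distrib, ← sum_add_distrib, ← sum_add_distrib]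
      refine sum_congr rfl fun d _ => ?_
      unfold mf xf
      ring
    rw [h2]
    linarith
  have h2 := sum_fst_snd U y 2 hy.bd
  have h3 := sum_fst_snd U (af R y) 49 (af_abs hy)
  have h4 : ∑ d ∈ univ.filter (fun d : G.Dart => d.fst ∈ U), mf R y d ≤
      ∑ d ∈ univ.filter (fun d : G.Dart => d.fst ∈ U),
        ((if sz R d ≠ 6 then - c else 0) + (if ¬ GoodF R y c d then 8 else 0)) := by
    refine sum_le_sum fun d _ => ?_
    by_cases e1 : GoodF R y c d
    · have := mf_good e1
      by_cases e2 : sz R d = 6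
      · rw [if_pos e2] at this
        rw [if_neg (fun h => h e2), if_neg (fun h => h e1)]
        linarith
      · rw [if_neg e2] at this
        rw [if_pos e2, if_neg (fun h => h e1)]
        linarith
    · have := mf_le hy (R := R) d
      rw [if_pos e1]
      split_ifs <;> linarith
  have h5 : ∑ d ∈ univ.filter (fun d : G.Dart => d.fst ∈ U),
        ((if sz R d ≠ 6 then - c else 0) + (if ¬ GoodF R y c d then 8 else 0)) =
      - c * #{d : G.Dart | d.fst ∈ U ∧ sz R d ≠ 6} +
        8 * #{d : G.Dart | d.fst ∈ U ∧ ¬ GoodF R y c d} := by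
    rw [sum_add_distrib, ← sum_filter, ← sum_filter, sum_const, sum_const, nsmul_eq_mul,
      nsmul_eq_mul, filter_filter, filter_filter]
    ring
  have h6 : (0 : ℝ) ≤ #(bd (G := G) U) := Nat.cast_nonneg _
  rw [h1]
  linarith

end

end Pool.Agent.Disch392
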