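import Mathlib
import Pool.Agent.Work.MP_392c8e_co_uni.GoodS

/-!
# Vertices of degree two near the ends of a side: elementary facts
-/

namespace Pool.Agent.CutN

open Pool.Agent.Red

set_option linter.unusedSectionVars false

variable {V : Type} {G : SimpleGraph V} {r r' k : ℕ} {A A' : Set V} {a b : V}

theorem Deg2In.mono (h : Deg2In G r A a) (hr : r ≤ r') (hA : A ⊆ A') : Deg2In G r' A' a := by
  obtain ⟨m, h1, p, h2, h3⟩ := h
  exact ⟨m, h1, p, h2.trans hr, fun w hw => hA (h3 w hw)⟩

theorem Deg2In.self (ha : a ∈ A) (h : (G.neighborSet a).ncard = 2) : Deg2In G r A a :=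
  ⟨a, h, SimpleGraph.Walk.nil, Nat.zero_le _, fun w hw => by
    rw [SimpleGraph.Walk.support_nil, List.mem_singleton] at hw
    exact hw ▸ ha⟩

/-- One step. -/
theorem Deg2In.cons (ha : a ∈ A) (hab : G.Adj a b) (h : Deg2In G r A b) :
    Deg2In G (r + 1) A a := by
  obtain ⟨m, h1, p, h2, h3⟩ := h
  refine ⟨m, h1, SimpleGraph.Walk.cons hab p, ?_, ?_⟩
  · rw [SimpleGraph.Walk.length_cons]
    omega
  · intro w hw
    rw [SimpleGraph.Walk.support_cons, List.mem_cons] at hw
    rcases hw with rfl | hw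
    · exact ha
    · exact h3 w hw

/-- Several steps. -/
theorem Deg2In.append (q : G.Walk a b) (hq : q.length ≤ k) (hs : ∀ w ∈ q.support, w ∈ A)
    (h : Deg2In G r A b) : Deg2In G (k + r) A a := by
  obtain ⟨m, h1, p, h2, h3⟩ := h
  refine ⟨m, h1, q.append p, ?_, ?_⟩
  · rw [SimpleGraph.Walk.length_append]
    omega
  · intro w hw
    rcases (SimpleGraph.Walk.mem_support_append_iff _ _).1 hw with hw | hw
    · exact hs w hw
    · exact h3 w hw

theorem Deg2In.mem (h : Deg2In G r A a) : a ∈ A := by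
  obtain ⟨m, h1, p, h2, h3⟩ := h
  exact h3 a (SimpleGraph.Walk.start_mem_support _)

theorem EX.mono (h : EX G r A) (hr : r ≤ r') : EX G r' A :=
  fun a ha hb => (h a ha hb).mono hr subset_rfl

/-- The ends of a side. -/
theorem EX_iff {n : ℕ} {X : V → Prop} {a b : Fin n → V} (hc : CutK G X a b) :
    EX G r {v | X v} ↔ ∀ i, Deg2In G r {v | X v} (a i) := by
  constructor
  · intro h i
    exact h (a i) (hc.hX i) ⟨b i, hc.hY i, hc.adj i⟩
  · rintro h u hu ⟨v, hv, huv⟩
    obtain ⟨i, rfl, -⟩ := hc.cut u v hu hv huv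
    exact h i

/-- A side which is not exceptional has an end without vertices of degree two nearby. -/
theorem exists_far {n : ℕ} {X : V → Prop} {a b : Fin n → V} (hc : CutK G X a b)
    (h : ¬ EX G r {v | X v}) : ∃ i, ¬ Deg2In G r {v | X v} (a i) := by
  by_contra hcon
  push Not at hcon
  exact h ((EX_iff hc).2 hcon)

/-- An end of a smaller exceptional side. -/
theorem EX.sub (h : EX G r A') (hA : A' ⊆ A) (ha : a ∈ A') (hb : b ∉ A') (hab : G.Adj a b) :
    Deg2In G r A a :=
  (h a ha ⟨b, hb, hab⟩).mono le_rfl hA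

/-- If all vertices at distance at most `k` from `a` inside `A` have degree other than two, then
all the vertices reached from `a` by `j` steps are still far from vertices of degree two. -/
theorem not_deg2In_of_walk (h : ¬ Deg2In G (k + r) A a) (q : G.Walk a b) (hq : q.length ≤ k)
    (hs : ∀ w ∈ q.support, w ∈ A) : ¬ Deg2In G r A b :=
  fun h1 => h (h1.append q hq hs)

theorem not_deg2In_of_adj (h : ¬ Deg2In G (r + 1) A a) (ha : a ∈ A) (hab : G.Adj a b) :
    ¬ Deg2In G r A b :=
  fun h1 => h (h1.cons ha hab)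

end Pool.Agent.CutN
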