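import Mathlib

/-!
# Leaving a set of vertices

In a graph of degree at most `m`, a set `U` whose outer neighbours lie in `N` contains few vertices
from which one can leave `U` in few steps.
-/

set_option autoImplicit false

namespace Pool.Agent.Uni392

open Finset

variable {V : Type*} [DecidableEq V]

/-- The ball of radius `n`. -/
def bal (nb : V → Finset V) : ℕ → V → Finset V
  | 0, x => {x}
  | n + 1, x => bal nb n x ∪ (bal nb n x).biUnion nb

theorem mem_bal_self (nb : V → Finset V) (n : ℕ) (x : V) : x ∈ bal nb n x := by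
  induction n with
  | zero => simp [bal]
  | succ n ih => exact Finset.mem_union_left _ ih

theorem bal_mono (nb : V → Finset V) (x : V) {n m : ℕ} (h : n ≤ m) : bal nb n x ⊆ bal nb m x := by
  induction h with
  | refl => exact subset_rfl
  | step _ ih => exact ih.trans Finset.subset_union_left

theorem mem_bal_succ {nb : V → Finset V} {n : ℕ} {x y w : V} (h : y ∈ bal nb n x)
    (hw : w ∈ nb y) : w ∈ bal nb (n + 1) x :=
  Finset.mem_union_right _ (Finset.mem_biUnion.2 ⟨y, h, hw⟩)

theorem card_bal {nb : V → Finset V} {m : ℕ} (hm : ∀ v, (nb v).card ≤ m) (n : ℕ) (x : V) :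
    (bal nb n x).card ≤ (m + 1) ^ n := by
  induction n with
  | zero => simp [bal]
  | succ n ih =>
    calc (bal nb n x ∪ (bal nb n x).biUnion nb).card
        ≤ (bal nb n x).card + ((bal nb n x).biUnion nb).card := Finset.card_union_le _ _
      _ ≤ (bal nb n x).card + (bal nb n x).card * m :=
          Nat.add_le_add_left (Finset.card_biUnion_le_card_mul _ _ _ fun v _ => hm v) _
      _ = (bal nb n x).card * (m + 1) := by ring
      _ ≤ (m + 1) ^ n * (m + 1) := Nat.mul_le_mul_right _ ih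
      _ = (m + 1) ^ (n + 1) := by ring

/-- A chain of steps, each in the relation `nb`. -/
inductive Steps (nb : V → Finset V) : ℕ → V → V → Prop
  | refl (x : V) : Steps nb 0 x x
  | cons {n : ℕ} {x y z : V} : y ∈ nb x → Steps nb n y z → Steps nb (n + 1) x z

omit [DecidableEq V] in
theorem Steps.trans {nb : V → Finset V} {n m : ℕ} {x y z : V} (h : Steps nb n x y)
    (h' : Steps nb m y z) : Steps nb (n + m) x z := by
  induction h with
  | refl x => rwa [Nat.zero_add]
  | cons hxy _ ih =>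
    rw [Nat.add_right_comm]
    exact Steps.cons hxy (ih h')

/-- The first exit: from `b ∈ U` to `z ∉ U` one meets the set `N`. -/
theorem Steps.exit {nb : V → Finset V} (hsymm : ∀ x y, y ∈ nb x → x ∈ nb y) {U N : Finset V}
    (hN : ∀ u ∈ U, ∀ w ∈ nb u, w ∈ U ∨ w ∈ N) {n : ℕ} {b z : V} (h : Steps nb n b z)
    (hb : b ∈ U) (hz : z ∉ U) : ∃ w ∈ N, b ∈ bal nb n w := by
  induction h with
  | refl x => exact absurd hb hz
  | @cons n x y z hxy hyz ih =>
    rcases hN x hb y hxy with h1 | h1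
    · obtain ⟨w, hw, h2⟩ := ih h1 hz
      exact ⟨w, hw, mem_bal_succ h2 (hsymm _ _ hxy)⟩
    · refine ⟨y, h1, bal_mono nb y (Nat.le_add_left 1 n) ?_⟩
      exact mem_bal_succ (mem_bal_self nb 0 y) (hsymm _ _ hxy)

/-- **Few vertices are near the outside.** -/
theorem exit_card {nb : V → Finset V} {m : ℕ} (hm : ∀ v, (nb v).card ≤ m)
    (hsymm : ∀ x y, y ∈ nb x → x ∈ nb y) {U N : Finset V}
    (hN : ∀ u ∈ U, ∀ w ∈ nb u, w ∈ U ∨ w ∈ N) (D : ℕ) (B : Finset V)
    (hB : ∀ b ∈ B, b ∈ U ∧ ∃ n z, n ≤ D ∧ z ∉ U ∧ Steps nb n b z) :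
    B.card ≤ (m + 1) ^ D * N.card := by
  have h1 : B ⊆ N.biUnion fun w => bal nb D w := by
    intro b hb
    obtain ⟨h2, n, z, h3, h4, h5⟩ := hB b hb
    obtain ⟨w, hw, h6⟩ := h5.exit hsymm hN h2 h4
    exact Finset.mem_biUnion.2 ⟨w, hw, bal_mono nb w h3 h6⟩
  refine (Finset.card_le_card h1).trans ?_
  refine (Finset.card_biUnion_le_card_mul _ _ ((m + 1) ^ D) fun w _ => card_bal hm D w).trans ?_
  rw [mul_comm]

/-- A chain of steps stays in the ball around its end. -/
theorem Steps.mem_bal {nb : V → Finset V} (hsymm : ∀ x y, y ∈ nb x → x ∈ nb y) {n : ℕ} {b z : V}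
    (h : Steps nb n b z) : b ∈ bal nb n z := by
  induction h with
  | refl x => exact mem_bal_self nb 0 x
  | cons hxy _ ih => exact mem_bal_succ ih (hsymm _ _ hxy)

/-- **Few vertices are near the outside or near a given set.** -/
theorem exit_card' {nb : V → Finset V} {m : ℕ} (hm : ∀ v, (nb v).card ≤ m)
    (hsymm : ∀ x y, y ∈ nb x → x ∈ nb y) {U N X : Finset V}
    (hN : ∀ u ∈ U, ∀ w ∈ nb u, w ∈ U ∨ w ∈ N) (D : ℕ) (B : Finset V)
    (hB : ∀ b ∈ B, b ∈ U ∧ ∃ n z, n ≤ D ∧ (z ∉ U ∨ z ∈ X) ∧ Steps nb n b z) :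
    B.card ≤ (m + 1) ^ D * (N.card + X.card) := by
  have h1 : B ⊆ (N ∪ X).biUnion fun w => bal nb D w := by
    intro b hb
    obtain ⟨h2, n, z, h3, h4, h5⟩ := hB b hb
    rcases h4 with h4 | h4
    · obtain ⟨w, hw, h6⟩ := h5.exit hsymm hN h2 h4
      exact Finset.mem_biUnion.2 ⟨w, Finset.mem_union_left _ hw, bal_mono nb w h3 h6⟩
    · exact Finset.mem_biUnion.2 ⟨z, Finset.mem_union_right _ h4,
        bal_mono nb z h3 (h5.mem_bal hsymm)⟩
  refine (Finset.card_le_card h1).trans ?_
  refine (Finset.card_biUnion_le_card_mul _ _ ((m + 1) ^ D) fun w _ => card_bal hm D w).trans ?_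
  rw [mul_comm]
  exact Nat.mul_le_mul_left _ (Finset.card_union_le _ _)

end Pool.Agent.Uni392
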