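import Mathlib
import Pool.Agent.Work.MP_392c8e_co_uni.GeoBase

/-!
# A cycle of length four with connected complement is a face
-/

set_option autoImplicit false
set_option linter.unusedSectionVars false

namespace Pool.Agent.Uni392

open Finset Pool.Agent.Sub392 Pool.T1Side Pool.Agent.T392 Pool.Agent.T1FF Pool.Agent.OddFlow

variable {V : Type} [Fintype V] [DecidableEq V] {G : SimpleGraph V} [DecidableRel G.Adj]
  {R : Rot G}

/-- **The potential of a cycle**: it changes by one across the edges of the cycle and nowhere
else. -/
theorem cycle_pot {l : ℕ} [NeZero l] (hP : R.Plane) (w : ZMod l → V)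
    (ha : ∀ i, G.Adj (w i) (w (i + 1))) (hb : ∀ i, w i ≠ w (i + 2))
    (hinj : Function.Injective w) : ∃ a : R.Face → ℚ,
      (∀ i, a (R.face (ed w ha i)) - a (R.face (ed w ha i).symm) = 1) ∧
      ∀ x : G.Dart, (∀ j, x ≠ ed w ha j) → (∀ j, x ≠ (ed w ha j).symm) →
        a (R.face x.symm) = a (R.face x) := by
  classical
  set e := ed w ha with he
  have efst : ∀ i, (e i).fst = w i := fun i => rfl
  have esnd : ∀ i, (e i).snd = w (i + 1) := fun i => rfl
  have einj : ∀ i j, e i = e j → i = j := fun i j h => hinj (by
    have := congrArg (fun d : G.Dart => d.fst) h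
    exact this)
  have ens : ∀ i j, e i ≠ (e j).symm := by
    intro i j h
    have h1 : (e i).fst = (e j).symm.fst := by rw [h]
    have h2 : (e i).snd = (e j).symm.snd := by rw [h]
    have h3 : w i = w (j + 1) := h1
    have h4 : w (i + 1) = w j := h2
    have h5 := hinj h3
    subst h5
    exact hb j (by rw [← h4]; congr 1; ring)
  have essy : ∀ i, (e i).symm.symm = e i := fun i => SimpleGraph.Dart.symm_symm _
  set y : G.Dart → ℚ := fun d => ∑ i, ((if d = e i then 1 else 0) -
    (if d = (e i).symm then 1 else 0)) with hy
  have hsymm : ∀ d d' : G.Dart, d.symm = d' ↔ d = d'.symm := by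
    intro d d'
    constructor
    · rintro rfl; simp
    · rintro rfl; simp
  obtain ⟨a, hya⟩ := exact_dual R hP (k := ℚ) y (by
    intro d
    rw [hy]
    simp only
    rw [← Finset.sum_neg_distrib]
    refine sum_congr rfl fun i _ => ?_
    simp only [hsymm, essy]
    ring) (by
    intro v
    rw [hy]
    simp only
    rw [sum_comm]
    simp only [sum_sub_distrib]
    rw [sub_eq_zero]
    have h1 : ∀ i, ∑ d : G.Dart with d.fst = v, (if d = e i then (1 : ℚ) else 0) =
        if w i = v then 1 else 0 := by
      intro i
      rw [Finset.sum_ite_eq']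
      simp only [mem_filter, mem_univ, true_and, efst]
    have h2 : ∀ i, ∑ d : G.Dart with d.fst = v, (if d = (e i).symm then (1 : ℚ) else 0) =
        if w (i + 1) = v then 1 else 0 := by
      intro i
      rw [Finset.sum_ite_eq']
      simp only [mem_filter, mem_univ, true_and]
      rfl
    simp only [h1, h2]
    exact (Equiv.sum_comp (Equiv.addRight (1 : ZMod l))
      (fun i => if w i = v then (1 : ℚ) else 0)).symm)
  refine ⟨a, fun i => ?_, fun x h1 h2 => ?_⟩
  · have h3 := hya (e i)
    have h4 : y (e i) = 1 := by
      rw [hy]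
      simp only
      rw [sum_sub_distrib]
      have h1 : ∀ j, (if e i = (e j).symm then (1 : ℚ) else 0) = 0 := fun j => if_neg (ens i j)
      have h2 : ∀ j, (if e i = e j then (1 : ℚ) else 0) = if i = j then 1 else 0 := by
        intro j
        by_cases hij : i = j
        · rw [if_pos hij, hij, if_pos rfl]
        · rw [if_neg hij, if_neg fun h => hij (einj i j h)]
      simp only [h1, h2, sum_const_zero, sub_zero, sum_ite_eq, mem_univ, if_true]
    linarith
  · have h3 := hya x
    have h4 : y x = 0 := by
      rw [hy]
      simp only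
      refine sum_eq_zero fun i _ => ?_
      rw [if_neg (h1 i), if_neg (h2 i), sub_self]
    rw [h4] at h3
    linarith

/-- A closed walk of length four along a face. -/
theorem sz_four {w : ZMod 4 → V} {ha : ∀ i, G.Adj (w i) (w (i + 1))}
    (hinj : Function.Injective w) (h : ∀ i, R.next (ed w ha i) = ed w ha (i + 1)) :
    sz R (ed w ha 0) = 4 := by
  have h1 : ∀ k : ℕ, R.next^[k] (ed w ha 0) = ed w ha (k : ZMod 4) := by
    intro k
    induction k with
    | zero => simp
    | succ k ih =>
      rw [Function.iterate_succ_apply', ih, h]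
      push_cast
      rfl
  have h4 : R.next^[4] (ed w ha 0) = ed w ha 0 := by
    rw [h1 4]
    rfl
  have hper : Function.IsPeriodicPt R.next 4 (ed w ha 0) := h4
  have hdvd := hper.minimalPeriod_dvd
  rw [sz_eq]
  have hne : ∀ k : ℕ, 0 < k → k < 4 → Function.minimalPeriod R.next (ed w ha 0) ≠ k := by
    intro k hk0 hk4 hk
    have h5 : R.next^[k] (ed w ha 0) = ed w ha 0 := by
      rw [← hk]
      exact Function.isPeriodicPt_minimalPeriod _ _
    rw [h1 k] at h5
    have h6 : w (k : ZMod 4) = w 0 := congrArg (fun d : G.Dart => d.fst) h5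
    have h7 := hinj h6
    have h8 : (k : ZMod 4) = ((0 : ℕ) : ZMod 4) := by simpa using h7
    rw [ZMod.natCast_eq_natCast_iff'] at h8
    omega
  have hle : Function.minimalPeriod R.next (ed w ha 0) ≤ 4 := Nat.le_of_dvd (by norm_num) hdvd
  have hpos : 0 < Function.minimalPeriod R.next (ed w ha 0) :=
    hper.minimalPeriod_pos (by norm_num)
  have h5 := hne 1
  have h6 := hne 2
  have h7 := hne 3
  omega

/-- **A cycle of length four with connected complement is a face.** -/
theorem face_four (hP : R.Plane) (h3 : ∀ v, G.degree v = 3) (htri : G.CliqueFree 3)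
    (w : ZMod 4 → V) (ha : ∀ i, G.Adj (w i) (w (i + 1))) (hinj : Function.Injective w)
    (hcon : ∀ S : V → Prop, (∀ u v, G.Adj u v → (∀ i, u ≠ w i) → (∀ i, v ≠ w i) → S u → S v) →
      ∀ u v, (∀ i, u ≠ w i) → (∀ i, v ≠ w i) → S u → S v) :
    ∃ d : G.Dart, sz R d = 4 ∧ ∃ i, d.fst = w i := by
  classical
  have hb : ∀ i, w i ≠ w (i + 2) := by
    intro i h
    have h1 : ∀ i : ZMod 4, i ≠ i + 2 := by decide
    exact h1 i (hinj h)
  obtain ⟨a, ha1, ha2⟩ := cycle_pot hP w ha hb hinj
  set e := ed w ha with he
  have hdeg3 : ∀ v, G.degree v ≤ 3 := fun v => (h3 v).le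
  have efst : ∀ i, (e i).fst = w i := fun i => rfl
  have ens : ∀ i j, e i ≠ (e j).symm := by
    intro i j h
    have h3 : w i = w (j + 1) := by
      have h1 : (e i).fst = (e j).symm.fst := by rw [h]
      exact h1
    have h4 : w (i + 1) = w j := by
      have h2 : (e i).snd = (e j).symm.snd := by rw [h]
      exact h2
    have h5 := hinj h3
    subst h5
    exact hb j (by rw [← h4]; congr 1; ring)
  have hPQ : ∀ i, (e i).symm ≠ e (i + 1) := fun i h => ens (i + 1) i h.symm
  have hrot : ∀ d : G.Dart, R.rot d ≠ d := fun d => T392.rot_ne R (by rw [h3]; norm_num)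
  have hnext : ∀ d : G.Dart, R.next d ≠ d.symm := fun d =>
    T392.next_ne_symm R (by rw [h3]; norm_num)
  -- a dart at a vertex of the cycle
  have atv : ∀ i (x : G.Dart), x.fst = w (i + 1) → x ≠ (e i).symm → x ≠ e (i + 1) →
      (∀ j, x ≠ e j) ∧ (∀ j, x ≠ (e j).symm) := by
    intro i x hx h1 h2
    constructor
    · rintro j rfl
      have := hinj (show w j = w (i + 1) from hx)
      subst this
      exact h2 rfl
    · rintro j rfl
      have := hinj (show w (j + 1) = w (i + 1) from hx)
      have h3 : j = i := add_right_cancel this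
      subst h3
      exact h1 rfl
  -- the third neighbour is not on the cycle
  have third_out : ∀ i (x : G.Dart), x.fst = w (i + 1) → x ≠ (e i).symm → x ≠ e (i + 1) →
      ∀ j, x.snd ≠ w j := by
    intro i x hx h1 h2 j hj
    have hadj : G.Adj (w (i + 1)) (w j) := by
      have := x.adj
      rwa [hx, hj] at this
    have hc : ∀ i j : ZMod 4, j = i ∨ j = i + 1 ∨ j = i + 1 + 1 ∨ j = i - 1 := by decide
    rcases hc i j with rfl | rfl | rfl | rfl
    · exact h1 (SimpleGraph.Dart.ext _ _ (Prod.ext hx hj))
    · exact hadj.ne rfl
    · exact h2 (SimpleGraph.Dart.ext _ _ (Prod.ext hx hj))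
    · have h4 : G.Adj (w (i - 1)) (w i) := by
        have := ha (i - 1)
        rwa [sub_add_cancel] at this
      exact htri {w (i + 1), w (i - 1), w i} (SimpleGraph.is3Clique_triple_iff.2
        ⟨hadj, (ha i).symm, h4⟩)
  -- the value at a vertex off the cycle
  have offC : ∀ x : G.Dart, (∀ i, x.fst ≠ w i) → (∀ j, x ≠ e j) ∧ (∀ j, x ≠ (e j).symm) :=
    fun x hx => ⟨fun j h => hx j (by rw [h, efst]), fun j h => hx (j + 1) (by rw [h]; rfl)⟩
  have hval : ∀ d d' : G.Dart, d.fst = d'.fst → (∀ i, d.fst ≠ w i) →
      a (R.face d) = a (R.face d') := by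
    intro d d' h2 h1
    have h4 := R.cyc d d' h2
    have h5 := sameCycle_inv (f := R.rot)
      (h := fun x : G.Dart => if (∀ i, x.fst ≠ w i) then a (R.face x) else 0) (by
        intro x
        simp only [R.fst_rot]
        by_cases hx : ∀ i, x.fst ≠ w i
        · rw [if_pos hx, if_pos hx, R.face_rot]
          obtain ⟨h6, h7⟩ := offC x hx
          exact ha2 x h6 h7
        · rw [if_neg hx, if_neg hx]) h4
    rw [if_pos h1, if_pos (fun i => h2 ▸ h1 i)] at h5
    exact h5
  -- the third darts: either all on the left or all on the right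
  have thrL : ∀ i, R.next (e i) ≠ e (i + 1) →
      R.rot (R.next (e i)) = e (i + 1) ∧ R.rot (e (i + 1)) = (e i).symm := by
    intro i hi
    have hf : (R.next (e i)).fst = w (i + 1) := R.fst_next _
    have hn : R.next (e i) ≠ (e i).symm := hnext _
    have key : R.rot (R.next (e i)) = e (i + 1) := by
      set x := R.rot.symm (e (i + 1)) with hx
      have hrx : R.rot x = e (i + 1) := by rw [hx, Equiv.apply_symm_apply]
      have hxf : x.fst = w (i + 1) := by
        have := R.fst_rot x
        rw [hrx] at this
        exact this.symm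
      have hx1 : x ≠ e (i + 1) := by
        intro h
        rw [h] at hrx
        exact hrot _ hrx
      have hx2 : x ≠ (e i).symm := by
        intro h
        rw [h] at hrx
        exact hi hrx
      have h3 : x = R.next (e i) := third_unique hdeg3 (hPQ i) rfl hxf hf hx2 hx1 hn hi
      rw [← h3, hrx]
    refine ⟨key, ?_⟩
    -- the rotation at a vertex of degree three
    by_contra hcon2
    set z := R.rot (e (i + 1)) with hz
    have hzf : z.fst = w (i + 1) := R.fst_rot _
    have hz1 : z ≠ e (i + 1) := hrot _
    have hz3 : z = R.next (e i) :=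
      third_unique hdeg3 (hPQ i) rfl hzf hf hcon2 hz1 hn hi
    -- then the rotation has a cycle of length two at this vertex
    have h4 := R.cyc (e (i + 1)) (e i).symm (show w (i + 1) = w (i + 1) from rfl)
    have h5 := sameCycle_inv (f := R.rot)
      (h := fun x : G.Dart => x = e (i + 1) ∨ x = R.next (e i)) (by
        intro x
        apply propext
        constructor
        · rintro (h | h)
          · right
            have : R.rot x = R.rot (R.next (e i)) := by rw [h, key]
            exact R.rot.injective this
          · left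
            have : R.rot x = R.rot (e (i + 1)) := by rw [h, ← hz3]
            exact R.rot.injective this
        · rintro (h | h)
          · rw [h]
            exact Or.inr hz3
          · rw [h]
            exact Or.inl key) h4
    have h6 : (e i).symm = e (i + 1) ∨ (e i).symm = R.next (e i) := by
      exact (eq_iff_iff.mp h5).mp (Or.inl rfl)
    rcases h6 with h6 | h6
    · exact hPQ i h6
    · exact hn h6.symm
  by_cases hall : ∀ i, R.next (e i) = e (i + 1)
  · exact ⟨e 0, sz_four hinj hall, 0, rfl⟩
  · push Not at hall
    obtain ⟨i0, hi0⟩ := hall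
    -- all are on the left
    have haconst : ∀ i, a (R.face (e i)) = a (R.face (e (i + 1))) := by
      intro i
      by_cases hi : R.next (e i) = e (i + 1)
      · rw [← hi, R.face_next]
      · obtain ⟨h1, h2⟩ := atv i _ (R.fst_next _) (hnext _) hi
        rw [← (thrL i hi).1, R.face_rot, ha2 _ h1 h2, R.face_next]
    have hLc : ∀ i, a (R.face (e i)) = a (R.face (e 0)) := by
      have h1 := haconst 0
      have h2 := haconst 1
      have h3 := haconst 2
      intro i
      have hc : ∀ i : ZMod 4, i = 0 ∨ i = 0 + 1 ∨ i = 1 + 1 ∨ i = 2 + 1 := by decide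
      rcases hc i with rfl | rfl | rfl | rfl
      · rfl
      · exact h1.symm
      · have e1 : (0 : ZMod 4) + 1 = 1 := by decide
        rw [← h2, h1, e1]
      · have e1 : (0 : ZMod 4) + 1 = 1 := by decide
        have e2 : (1 : ZMod 4) + 1 = 2 := by decide
        rw [← h3, ← e2, ← h2, ← e1, ← h1]
    set α := a (R.face (e 0)) with hα
    have hleft : ∀ i, R.next (e i) ≠ e (i + 1) := by
      intro i hi
      -- the third dart at this vertex is on the right
      have hx0 := R.fst_rot (e (i + 1))
      set x := R.rot (e (i + 1)) with hx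
      have hxf : x.fst = w (i + 1) := hx0
      have hx1 : x ≠ e (i + 1) := hrot _
      have hx2 : x ≠ (e i).symm := by
        intro h
        -- the rotation has a cycle of length two
        have h4 : ∃ t : G.Dart, t.fst = w (i + 1) ∧ t ≠ e (i + 1) ∧ t ≠ (e i).symm := by
          by_contra hcon3
          push Not at hcon3
          have h7 : (univ.filter fun t : G.Dart => t.fst = w (i + 1)) ⊆
              {e (i + 1), (e i).symm} := by
            intro t ht
            rw [mem_filter] at ht
            rw [mem_insert, mem_singleton]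
            by_contra h8
            push Not at h8
            exact h8.2 (hcon3 t ht.2 h8.1)
          have h8 := card_le_card h7
          have h9 : #(univ.filter fun t : G.Dart => t.fst = w (i + 1)) = 3 := by
            rw [← h3 (w (i + 1))]
            exact G.dart_fst_fiber_card_eq_degree _
          have h10 : #({e (i + 1), (e i).symm} : Finset G.Dart) ≤ 2 := card_le_two
          omega
        obtain ⟨t, ht1, ht2, ht3⟩ := h4
        have hi' : R.rot (e i).symm = e (i + 1) := hi
        have h5 := sameCycle_inv (f := R.rot)
          (h := fun y : G.Dart => y = e (i + 1) ∨ y = (e i).symm) (by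
            intro y
            apply propext
            constructor
            · rintro (h' | h')
              · right
                have : R.rot y = R.rot (e i).symm := by rw [h', hi']
                exact R.rot.injective this
              · left
                have : R.rot y = R.rot (e (i + 1)) := by rw [h', ← hx, h]
                exact R.rot.injective this
            · rintro (h' | h')
              · rw [h', ← hx]
                exact Or.inr h
              · rw [h']
                exact Or.inl hi') (R.cyc (e (i + 1)) t ht1.symm)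
        have h6 : t = e (i + 1) ∨ t = (e i).symm := by
          exact (eq_iff_iff.mp h5).mp (Or.inl rfl)
        rcases h6 with h6 | h6
        · exact ht2 h6
        · exact ht3 h6
      obtain ⟨g1, g2⟩ := atv i x hxf hx2 hx1
      have hxa : a (R.face x) = α - 1 := by
        rw [hx, R.face_rot]
        have := ha1 (i + 1)
        rw [hLc] at this
        linarith
      have hya : a (R.face (R.next (e i0))) = α := by rw [R.face_next, hLc]
      obtain ⟨g3, g4⟩ := atv i0 _ (R.fst_next _) (hnext _) hi0
      have o1 := third_out i x hxf hx2 hx1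
      have o2 := third_out i0 _ (R.fst_next _) (hnext _) hi0
      have h1 := hcon (fun v => ∃ d : G.Dart, d.fst = v ∧ a (R.face d) = α) (by
        rintro u v huv hu hv ⟨d, hd, hda⟩
        have k1 := hval d ⟨(u, v), huv⟩ hd (fun j => hd ▸ hu j)
        refine ⟨(⟨(u, v), huv⟩ : G.Dart).symm, rfl, ?_⟩
        obtain ⟨k2, k3⟩ := offC (⟨(u, v), huv⟩ : G.Dart) hu
        rw [ha2 _ k2 k3, ← k1, hda]) (R.next (e i0)).snd x.snd o2 o1
        ⟨(R.next (e i0)).symm, rfl, by rw [ha2 _ g3 g4, hya]⟩
      obtain ⟨d, hd, hda⟩ := h1
      have k1 := hval d x.symm hd (fun j => hd ▸ o1 j)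
      rw [ha2 _ g1 g2, hxa] at k1
      linarith
    -- the right side is a face
    have hr : ∀ i, R.next (e (i + 1)).symm = (e i).symm := by
      intro i
      have h1 := (thrL i (hleft i)).2
      have h2 : R.next (e (i + 1)).symm = R.rot (e (i + 1)).symm.symm := rfl
      rw [h2, SimpleGraph.Dart.symm_symm, h1]
    -- the reverse walk
    let w' : ZMod 4 → V := fun i => w (- i)
    have ha' : ∀ i, G.Adj (w' i) (w' (i + 1)) := by
      intro i
      have h1 := ha (-(i + 1))
      have h2 : -(i + 1) + 1 = -i := by ring
      rw [h2] at h1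
      exact h1.symm
    have hinj' : Function.Injective w' := fun i j h => neg_injective (hinj h)
    have hed : ∀ i, ed w' ha' i = (e (-(i + 1))).symm := by
      intro i
      refine SimpleGraph.Dart.ext _ _ (Prod.ext ?_ ?_)
      · show w (-i) = w (-(i + 1) + 1)
        congr 1
        ring
      · rfl
    refine ⟨ed w' ha' 0, sz_four hinj' ?_, 0, ?_⟩
    · intro i
      rw [hed, hed]
      have h1 := hr (-(i + 1 + 1))
      have h2 : -(i + 1 + 1) + 1 = -(i + 1) := by ring
      rw [h2] at h1
      exact h1
    · show w (-0) = w 0
      rw [neg_zero]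

end Pool.Agent.Uni392
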