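import Pool.Agent.Work.MP_392c8e_co_uni.FamNearQ
import Pool.Agent.Work.MP_392c8e_co_uni.BaseS
import Pool.Agent.Work.MP_392c8e_co_uni.Ends

/-!
# A base surgery and a maximal family of places: patterns and linear growth
-/

set_option autoImplicit false
set_option linter.unusedSectionVars false

namespace Pool.Agent.Uni392

open Finset Pool.Agent.Sub392 Pool.Agent.T392 Pool.Agent.Disch392
open Pool.Agent.Uni3 (L7 plV mem_plV selF selD selD_spec mem_selF_of_pat fst_mem_selD plV_near)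
open Pool.Agent.Uni91 (VD ends full FI FP Fam Good GainP JoinP mem_FP)
open Pool.Agent.T1Red (newG Deg3 Int Real)

variable {V : Type} [Fintype V] [DecidableEq V] {G : SimpleGraph V} [DecidableRel G.Adj]
  {R : Rot G} {I0 : V → Prop} {P0 : List (V × List V × V)} {D0 : ℕ}
  {ι : Type} [Fintype ι] {p : ι → Place V}

/-- A walk from a vertex outside the interiors is a chain of the new graph or meets a place or the
base surgery. -/
theorem walk_casesB (hp : Fam p G) {v a : V} (w : G.Walk v a) (hv : ¬ BI I0 p v) :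
    (∃ b, ((∃ i, b ∈ (p i).Vert) ∨ b ∈ BV G I0) ∧ ∃ q : G.Walk v b, q.length ≤ w.length) ∨
      ∃ n, n ≤ w.length ∧ Steps (nbN G (BI I0 p) (BP P0 p)) n v a := by
  induction w with
  | nil => exact Or.inr ⟨0, le_rfl, Steps.refl _⟩
  | @cons v u a h w ih =>
    by_cases hu : BI I0 p u
    · left
      refine ⟨u, ?_, SimpleGraph.Walk.cons h SimpleGraph.Walk.nil, ?_⟩
      · rcases hu with hu | ⟨i, hi⟩
        · exact Or.inr (Or.inl hu)
        · exact Or.inl ⟨i, (hp.good i).int_vert hi⟩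
      rw [SimpleGraph.Walk.length_cons, SimpleGraph.Walk.length_cons,
        SimpleGraph.Walk.length_nil]
      omega
    · rcases ih hu with ⟨b, hb, q, hq⟩ | ⟨n, hn, hs⟩
      · refine Or.inl ⟨b, hb, SimpleGraph.Walk.cons h q, ?_⟩
        rw [SimpleGraph.Walk.length_cons, SimpleGraph.Walk.length_cons]
        omega
      · refine Or.inr ⟨n + 1, ?_, Steps.cons (mem_nbN.2 (Or.inl ⟨h, hv, hu⟩)) hs⟩
        rw [SimpleGraph.Walk.length_cons]
        omega

/-- The vertices of a face. -/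
def VF (R : Rot G) (g : R.Face) : Set V := {v | ∃ d, R.face d = g ∧ d.fst = v}

theorem ncard_VF {I : V → Prop} {g : R.Face} (hg : g ∈ untF R I) : (VF R g).ncard ≤ 17 := by
  classical
  have h1 : VF R g = (((univ.filter fun d : G.Dart => R.face d = g).image
      fun d => d.fst : Finset V) : Set V) := by
    ext v
    simp [VF]
  rw [h1, Set.ncard_coe_finset]
  refine Finset.card_image_le.trans ?_
  obtain ⟨d0, hd0⟩ := R.face_surj g
  have h2 := (mem_untF.1 hg d0 hd0).1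
  unfold sz Rot.size at h2
  rw [hd0] at h2
  omega

/-- Walking round a face of length four. -/
theorem steps_fourB {I : V → Prop} {P : List (V × List V × V)} {g : R.Face}
    (hg : g ∈ untF R I) {d d' : G.Dart} (hd : R.face d = g)
    (hd' : R.face d' = g) : ∃ n, n ≤ 10 ∧ Steps (nbN G I P) n d.fst d'.fst := by
  have hg' := mem_untF.1 hg
  obtain ⟨i, hi⟩ := ((face_eq_iff R d d').1 (hd'.trans hd.symm)).exists_nat_pow_eq
  have h5 : Function.minimalPeriod R.next d = 4 := by rw [← sz_eq, (hg' d hd).1]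
  have h7 : d' = R.next^[i % 4] d := by
    rw [← h5, Function.iterate_mod_minimalPeriod_eq, ← hi, Equiv.Perm.coe_pow]
  have key : ∀ j, Steps (nbN G I P) j d.fst (R.next^[j] d).fst := by
    intro j
    induction j with
    | zero => exact Steps.refl _
    | succ j ih =>
      refine ih.trans (Steps.cons (mem_nbN.2 (Or.inl ⟨?_, ?_, ?_⟩)) (Steps.refl _))
      · exact adj_iter' R d j
      · exact (hg' _ ((Uni3.face_iter R d j).trans hd)).2
      · exact (hg' _ ((Uni3.face_iter R d (j + 1)).trans hd)).2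
  have h8 := Nat.mod_lt i (show 4 > 0 by norm_num)
  exact ⟨i % 4, by omega, h7 ▸ key (i % 4)⟩

/-- **From a maximal family.** -/
theorem midF_of_base (h0 : BaseS G I0 P0 D0) (hp : Fam p G)
    (hdeg' : Deg3 (newG G (BI I0 p) (ends (BP P0 p)))) (gain : ι → Prop) (Cat : Place V → Prop)
    {Gd : G.Dart → Prop} {ρ r D1 D2 D N N0 : ℕ}
    (hmax : ∀ q, Cat q → ∃ a ∈ q.Vert, ∃ b, ((∃ i, b ∈ (p i).Vert) ∨ b ∈ BV G I0) ∧
      ∃ w : G.Walk a b, w.length < D2)
    (hdiam : ∀ q, Cat q → ∀ a ∈ q.Vert, ∀ b ∈ q.Vert, ∃ w : G.Walk a b, w.length ≤ r)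
    (hocc : ∀ d : G.Dart, ¬ Gd d →
      (∃ x, Near R ρ d x ∧ ∃ q, Cat q ∧ x.fst ∈ q.Vert) ∨ (∃ e, Near R ρ d e ∧ Pat7 R e) ∨
        (∃ e, Near R ρ d e ∧ sz R e = 4) ∨ ∃ e, Near R ρ d e ∧ e.fst ∈ BV G I0)
    (hgp : ∀ i, gain i → GainP G (p i) r) (hjp : ∀ i, ¬ gain i → JoinP G (p i) r)
    (hfar : ∀ i, ∀ j, j ≠ i → FarS G (r + 1) (p i).Vert (p j).Vert)
    (hfar0 : ∀ i, FarS G (r + D0 + 2) (p i).Vert (BV G I0))
    (hN : ∀ i, (p i).R.t + (p i).R.m ≤ N) (z : {i // ¬ gain i} → G.Dart)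
    (hz : ∀ j, ZHex R (p j.1) (z j)) (hD1 : ρ + 6 + r + D2 ≤ D1) (hD : D1 + r + D0 + D1 ≤ D)
    (_hD' : ρ + 10 + ρ ≤ D) (hN0 : 4 ^ D1 * N ≤ N0) (hN1 : 4 ^ ρ * 17 ≤ N0) :
    Nonempty (MidF R (BI I0 p) (BP P0 p) Gd D N0) := by
  classical
  have hf0 : ∀ i, FarS G (r + D0 + 1) (p i).Vert (BV G I0) := fun i => (hfar0 i).mono (by omega)
  have key : ∀ v, (∀ u, ¬ Del G (BI I0 p) (BP P0 p) v u) → ¬ Inn (BP P0 p) v →
      (∃ b, ((∃ i, b ∈ (p i).Vert) ∨ b ∈ BV G I0) ∧ ∃ w : G.Walk v b, w.length ≤ D1) →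
      NearG G (BI I0 p) (BP P0 p) D v ∨ ∃ j : {i // ¬ gain i},
        v ∈ SB G (BI I0 p) (BP P0 p) (p j.1).Vert D1 := by
    rintro v hfree hinn ⟨b, hb, w, hw⟩
    rcases near_or_SB h0 hp gain hgp hjp hfar hf0 w hb hw hfree hinn with
      ⟨m, hm, h4⟩ | ⟨i, hi, h4⟩
    · exact Or.inl ⟨m, by omega, h4⟩
    · exact Or.inr ⟨⟨i, hi⟩, h4⟩
  -- vertices at distance at most one from a place
  have hout0 : ∀ i, ∀ x ∈ (p i).Vert, ∀ y, (G.Adj y x ∨ y = x) → ¬ I0 y := by
    rintro i x hx y (h | rfl) hy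
    · exact not_BV_of_far (hfar0 i) hx (SimpleGraph.Walk.cons h.symm SimpleGraph.Walk.nil)
        (by simp) (Or.inl hy)
    · exact not_BV_of_far (hfar0 i) hx SimpleGraph.Walk.nil (by simp) (Or.inl hy)
  have hzout : ∀ j : {i // ¬ gain i}, ∀ i, i = 0 ∨ i = 3 ∨ i = 4 ∨ i = 5 →
      ¬ BI I0 p (R.next^[i] (z j)).fst := by
    intro j i hi hcon
    obtain ⟨g1, g2, -, g4⟩ := zhex_out hp (hz j)
    rcases hcon with hcon | hcon
    · rcases hi with rfl | rfl | rfl | rfl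
      · exact hout0 j.1 _ g2 _ (Or.inr rfl) hcon
      · exact hout0 j.1 _ g4 _ (Or.inr rfl) hcon
      · refine hout0 j.1 _ g4 _ (Or.inl ?_) hcon
        have h5 : (R.next^[4] (z j)).fst = (R.next^[3] (z j)).snd := by
          rw [Function.iterate_succ_apply' R.next 3, R.fst_next]
        rw [h5]
        exact (R.next^[3] (z j)).adj.symm
      · refine hout0 j.1 _ g2 _ (Or.inl ?_) hcon
        have h5 : (R.next^[6] (z j)).fst = (R.next^[5] (z j)).snd := by
          rw [Function.iterate_succ_apply' R.next 5, R.fst_next]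
        have h6 : R.next^[6] (z j) = z j := by
          rw [← (hz j).six]
          exact next_sz R (z j)
        rw [h6] at h5
        rw [h5]
        exact (R.next^[5] (z j)).adj
    · exact g1 i hi hcon
  refine ⟨{
    F := selF R (BI I0 p)
    δ := selD R (BI I0 p)
    hδ := fun f hf => (selD_spec hf).1
    hL := fun f hf => (selD_spec hf).2.1
    hFI := fun f hf => (selD_spec hf).2.2
    J := {i // ¬ gain i}
    fJ := inferInstance
    z := z
    hz := fun j => (hz j).six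
    hzP := fun j => ?_
    hzI := fun j => hzout j
    hzinj := fun i j hij => ?_
    Q4 := untF R (BI I0 p)
    hQ4 := fun g hg d hd => mem_untF.1 hg d hd
    S := Sum.elim (Sum.elim
      (fun f => SB G (BI I0 p) (BP P0 p) (plV R (selD R (BI I0 p) f.1) : Set V) ρ)
      (fun j => SB G (BI I0 p) (BP P0 p) (p j.1).Vert D1))
      (fun g => SB G (BI I0 p) (BP P0 p) (VF R g.1) ρ)
    hSQ := fun g d hd => mem_SB.2 ⟨(mem_untF.1 g.2 d hd).2, d.fst, ⟨d, hd, rfl⟩,
      (mem_untF.1 g.2 d hd).2, 0, Nat.zero_le _, Steps.refl _⟩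
    hSF := fun f v hv => mem_SB.2 ⟨(selD_spec f.2).2.2 v hv, v, hv, (selD_spec f.2).2.2 v hv, 0,
      Nat.zero_le _, Steps.refl _⟩
    hSJ := fun j i hi => ?_
    hS0 := ?_
    hS := ?_
    hnear := ?_
    hbad := ?_ }⟩
  · rcases (hz j).path with h4 | h4
    · exact Or.inl (List.mem_append_right _ (mem_FP.2 ⟨j.1, h4⟩))
    · exact Or.inr (List.mem_append_right _ (mem_FP.2 ⟨j.1, h4⟩))
  · have h4 := (zhex_out hp (hz i)).2.2.1
    have h5 := (zhex_out hp (hz j)).2.2.1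
    rw [hij] at h4
    exact Subtype.ext (hp.eq_of_vert h4 h5)
  · -- the vertices of the hexagon
    obtain ⟨-, h5, -, h6⟩ := zhex_out hp (hz j)
    have h4 := hzout j
    have hD1' : 1 ≤ D1 := by omega
    have hout := h4 i hi
    rcases hi with rfl | rfl | rfl | rfl
    · exact mem_SB.2 ⟨hout, _, h5, h4 0 (Or.inl rfl), 0, Nat.zero_le _, Steps.refl _⟩
    · exact mem_SB.2 ⟨hout, _, h6, hout, 0, Nat.zero_le _, Steps.refl _⟩
    · refine mem_SB.2 ⟨hout, _, h6, h4 3 (Or.inr (Or.inl rfl)), 1, hD1',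
        Steps.cons (mem_nbN.2 (Or.inl ⟨?_, hout, h4 3 (Or.inr (Or.inl rfl))⟩)) (Steps.refl _)⟩
      have h7 : (R.next^[4] (z j)).fst = (R.next^[3] (z j)).snd := by
        rw [Function.iterate_succ_apply' R.next 3, R.fst_next]
      rw [h7]
      exact (R.next^[3] (z j)).adj.symm
    · refine mem_SB.2 ⟨hout, _, h5, h4 0 (Or.inl rfl), 1, hD1',
        Steps.cons (mem_nbN.2 (Or.inl ⟨?_, hout, h4 0 (Or.inl rfl)⟩)) (Steps.refl _)⟩
      have h7 : (R.next^[6] (z j)).fst = (R.next^[5] (z j)).snd := by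
        rw [Function.iterate_succ_apply' R.next 5, R.fst_next]
      have h8 : R.next^[6] (z j) = z j := by
        rw [← (hz j).six]
        exact next_sz R (z j)
      rw [h8] at h7
      show G.Adj (R.next^[5] (z j)).fst (z j).fst
      rw [h7]
      exact (R.next^[5] (z j)).adj
  · rintro ((f | j) | g)
    · refine (card_SB (N := 17) hdeg' ?_).trans hN1
      rw [Set.ncard_coe_finset]
      exact (selD_spec f.2).2.1.card_plV
    · exact (card_SB hdeg' ((ncard_vert_le (p j.1)).trans (hN j.1))).trans hN0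
    · exact (card_SB hdeg' (ncard_VF g.2)).trans hN1
  · rintro ((f | j) | g) v hv w hw
    · obtain ⟨n, hn, h4⟩ := SB_joined (r := 10) (fun t ht t' ht' _ _ =>
        (selD_spec f.2).2.1.steps (P := BP P0 p) (selD_spec f.2).2.2 ht ht') hv hw
      exact ⟨n, by omega, h4⟩
    · obtain ⟨n, hn, h4⟩ := SB_joined (r := r) (fun t ht t' ht' h1 h2 => by
        obtain ⟨k, hk, hs⟩ := (hjp j.1 j.2).ter t ht t' ht' (fun h3 => h1 (Or.inr ⟨j.1, h3⟩))
          fun h3 => h2 (Or.inr ⟨j.1, h3⟩)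
        exact ⟨k, hk, (steps_place (P0 := P0) hp (hfar j.1) ((hfar0 j.1).mono (by omega)) hs
          ⟨t, ht, SimpleGraph.Walk.nil, by simpa using hk⟩).1⟩) hv hw
      exact ⟨n, by omega, h4⟩
    · obtain ⟨n, hn, h4⟩ := SB_joined (r := 10) (by
        rintro t ⟨d, hd, rfl⟩ t' ⟨d', hd', rfl⟩ _ _
        exact steps_fourB g.2 hd hd') hv hw
      exact ⟨n, by omega, h4⟩
  · -- near
    rintro v hfree hinn ⟨d, rfl, hd | ⟨hd, h6⟩⟩
    · have h4 : (∃ i, d.fst ∈ (p i).Vert) ∨ d.fst ∈ BV G I0 := by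
        obtain ⟨q, hq, hx⟩ := hd
        rcases List.mem_append.1 hq with hq | hq
        · exact Or.inr (Or.inr ⟨d.snd, d.adj, h0.vd.int q hq _ hx⟩)
        · exact Or.inl (near_of_inn hp d.adj ⟨q, hq, hx⟩)
      rcases key _ hfree hinn ⟨d.fst, h4, SimpleGraph.Walk.nil, Nat.zero_le _⟩ with h4 | ⟨j, h4⟩
      · exact Or.inl h4
      · exact Or.inr ⟨Sum.inl (Sum.inr j), h4⟩
    · have h4 : ∃ x, R.face x = R.face d ∧ BI I0 p x.fst := by
        by_contra hcon
        push Not at hcon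
        exact not_mem_KQ.2 (Or.inl ⟨d, rfl, h6, hcon⟩) hd
      obtain ⟨x, hx, hi⟩ := h4
      have h5 : (∃ i, x.fst ∈ (p i).Vert) ∨ x.fst ∈ BV G I0 := by
        rcases hi with hi | ⟨i, hi⟩
        · exact Or.inr (Or.inl hi)
        · exact Or.inl ⟨i, (hp.good i).int_vert hi⟩
      obtain ⟨w, hw⟩ := walk_hex h6 hx
      rcases key _ hfree hinn ⟨x.fst, h5, w, by omega⟩ with h4 | ⟨j, h4⟩
      · exact Or.inl h4
      · exact Or.inr ⟨Sum.inl (Sum.inr j), h4⟩
  · -- bad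
    intro d hde hfree hinn
    have hBI : ∀ x, BI I0 p x → (∃ i, x ∈ (p i).Vert) ∨ x ∈ BV G I0 := by
      rintro x (hx | ⟨i, hi⟩)
      · exact Or.inr (Or.inl hx)
      · exact Or.inl ⟨i, (hp.good i).int_vert hi⟩
    have fin : (∃ b, ((∃ i, b ∈ (p i).Vert) ∨ b ∈ BV G I0) ∧
        ∃ w : G.Walk d.fst b, w.length ≤ D1) →
        NearG G (BI I0 p) (BP P0 p) D d.fst ∨
          ∃ i, d.fst ∈ Sum.elim (Sum.elim
            (fun f : {f // f ∈ selF R (BI I0 p)} => SB G (BI I0 p) (BP P0 p)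
              (plV R (selD R (BI I0 p) f.1) : Set V) ρ)
            (fun j : {i // ¬ gain i} => SB G (BI I0 p) (BP P0 p) (p j.1).Vert D1))
            (fun g : {g // g ∈ untF R (BI I0 p)} => SB G (BI I0 p) (BP P0 p) (VF R g.1) ρ) i := by
      intro h4
      rcases key _ hfree hinn h4 with h5 | ⟨j, h5⟩
      · exact Or.inl h5
      · exact Or.inr ⟨Sum.inl (Sum.inr j), h5⟩
    rcases hocc d hde with ⟨x, hx, q, hq, hxq⟩ | ⟨e, he, hpat⟩ | ⟨e, he, h4e⟩ | ⟨e, he, hbe⟩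
    · obtain ⟨w2, hw2⟩ := hx.walk
      obtain ⟨a, ha, b, hb, w4, hw4⟩ := hmax q hq
      obtain ⟨w3, hw3⟩ := hdiam q hq x.fst hxq a ha
      refine fin ⟨b, hb, (w2.append w3).append w4, ?_⟩
      rw [SimpleGraph.Walk.length_append, SimpleGraph.Walk.length_append]
      omega
    · obtain ⟨w1, hw1⟩ := he.walk
      by_cases hB : ∀ v ∈ plV R e, ¬ BI I0 p v
      · have hf := mem_selF_of_pat hpat hB
        by_cases hv : BI I0 p d.fst
        · exact fin ⟨d.fst, hBI _ hv, SimpleGraph.Walk.nil, Nat.zero_le _⟩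
        · rcases walk_casesB (P0 := P0) hp w1 hv with ⟨b, hb, q, hq⟩ | ⟨n, hn, hs⟩
          · exact fin ⟨b, hb, q, by omega⟩
          · right
            exact ⟨Sum.inl (Sum.inl ⟨R.face e, hf⟩), mem_SB.2 ⟨hv, e.fst, fst_mem_selD hf rfl,
              (selD_spec hf).2.2 _ (fst_mem_selD hf rfl), n, by omega, hs⟩⟩
      · push Not at hB
        obtain ⟨v, hv, hi⟩ := hB
        obtain ⟨n, hn, hs⟩ := plV_near (L7.of_pat hpat) hv
        obtain ⟨w2, hw2⟩ := walk_of_steps hs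
        refine fin ⟨v, hBI _ hi, (w1.concat e.adj).append w2, ?_⟩
        rw [SimpleGraph.Walk.length_append, SimpleGraph.Walk.length_concat]
        omega
    · obtain ⟨w1, hw1⟩ := he.walk
      by_cases hB : ∀ x, R.face x = R.face e → ¬ BI I0 p x.fst
      · have hg : R.face e ∈ untF R (BI I0 p) := mem_untF.2 fun x hx => ⟨by
          unfold sz at h4e ⊢
          rw [hx]
          exact h4e, hB x hx⟩
        by_cases hv : BI I0 p d.fst
        · exact fin ⟨d.fst, hBI _ hv, SimpleGraph.Walk.nil, Nat.zero_le _⟩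
        · rcases walk_casesB (P0 := P0) hp w1 hv with ⟨b, hb, q, hq⟩ | ⟨n, hn, hs⟩
          · exact fin ⟨b, hb, q, by omega⟩
          · right
            exact ⟨Sum.inr ⟨R.face e, hg⟩, mem_SB.2 ⟨hv, e.fst, ⟨e, rfl, rfl⟩, hB e rfl, n,
              by omega, hs⟩⟩
      · push Not at hB
        obtain ⟨x, hx, hi⟩ := hB
        obtain ⟨j, hj⟩ := ((face_eq_iff R e x).1 hx).exists_nat_pow_eq
        have h5 : Function.minimalPeriod R.next e = 4 := by rw [← sz_eq, h4e]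
        have h7 : x = R.next^[j % 4] e := by
          rw [← h5, Function.iterate_mod_minimalPeriod_eq, ← hj, Equiv.Perm.coe_pow]
        have h9 : ∃ w : G.Walk e.fst x.fst, w.length ≤ 0 + j % 4 := by
          rw [h7]
          exact ((Near.refl R 0 e).iter (j % 4)).walk
        obtain ⟨w2, hw2⟩ := h9
        have h8 := Nat.mod_lt j (show 4 > 0 by norm_num)
        refine fin ⟨x.fst, hBI _ hi, w1.append w2, ?_⟩
        rw [SimpleGraph.Walk.length_append]
        omega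
    · obtain ⟨w1, hw1⟩ := he.walk
      exact fin ⟨e.fst, Or.inr hbe, w1, by omega⟩

/-- The constants. -/
def D1Bs (ρ r D0 : ℕ) : ℕ := ρ + 2 * r + D0 + 10

/-- The constants. -/
def DBs (ρ r D0 : ℕ) : ℕ := 2 * D1Bs ρ r D0 + r + D0

/-- The constants. -/
def NBs (ρ r D0 : ℕ) : ℕ := 4 ^ D1Bs ρ r D0 * 598 + 4 ^ ρ * 17

/-- The constants. -/
def CBs (A E ρ r D0 : ℕ) : ℕ :=
  (3000 * (A + E + 9) + 3) * 4 ^ (DBs ρ r D0 + 6) * (NBs ρ r D0 + 1) + (3000 * (E + 9) + 3)

open Classical in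
/-- **The family of places, the patterns and linear growth** in the presence of a base surgery. -/
theorem family_base (hP : R.Plane) (hcub : ∀ v, G.degree v = 3) (h0 : BaseS G I0 P0 D0)
    (hdeg0 : Deg3 (newG G I0 (ends P0))) {r : ℕ}
    (Cat : Place V → Prop) (hcat : ∀ q, Cat q → PlOK R r q) {Gd : G.Dart → Prop} {ρ : ℕ}
    (hocc : ∀ d : G.Dart, ¬ Gd d →
      (∃ x, Near R ρ d x ∧ ∃ q, Cat q ∧ x.fst ∈ q.Vert) ∨ (∃ e, Near R ρ d e ∧ Pat7 R e) ∨
        (∃ e, Near R ρ d e ∧ sz R e = 4) ∨ ∃ e, Near R ρ d e ∧ e.fst ∈ BV G I0)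
    {A E : ℕ}
    (hdis : ∀ U : Finset V, ∑ d ∈ univ.filter (fun d : G.Dart => d.fst ∈ U), kap R d ≤
      - (1 / 1000) * (#{d : G.Dart | d.fst ∈ U ∧ sz R d ≠ 6} : ℝ) +
        A * #{d : G.Dart | d.fst ∈ U ∧ ¬ Gd d} + E * #(bd (G := G) U)) :
    ∃ (k : ℕ) (p : Fin k → Place V), Fam (fun i => (p i).trim) (newG G I0 (ends P0)) ∧
      (∀ i, (p i).R.m ≤ 299) ∧ (∀ i, (p i).R.t ≤ 299) ∧
      newG (newG G I0 (ends P0)) (FI p) (ends (FP p)) = newG G (BI I0 p) (ends (BP P0 p)) ∧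
      VD G (BI I0 p) (BP P0 p) ∧ (∀ q ∈ FP p, q.2.1.length ≤ 299) ∧
      ∃ X : MidQ R (BI I0 p) (BP P0 p), X.Grow (CBs A E ρ r D0) := by
  classical
  obtain ⟨k, p, hp, hpc, hfar, hmax⟩ := exists_fam G
    (fun q => Cat q ∧ FarS G (r + D0 + 2) q.Vert (BV G I0)) (fun q hq => (hcat q hq.1).good)
    (fun q hq => (hcat q hq.1).ne) (r + 1) (Nat.le_add_left 1 r)
  have hc : ∀ i, PlOK R r (p i) := fun i => hcat _ (hpc i).1
  have hfar' : ∀ i, ∀ j, j ≠ i → FarS G (r + 1) (p i).Vert (p j).Vert := fun i j hij =>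
    hfar i j (Ne.symm hij)
  have hfar0 : ∀ i, FarS G (r + D0 + 2) (p i).Vert (BV G I0) := fun i => (hpc i).2
  have hfar1 : ∀ i, FarS G 1 (p i).Vert (BV G I0) := fun i => (hfar0 i).mono (by omega)
  have hfamB := base_fam h0.vd hp hfar1
  have hnew := base_newG h0.vd hp hfar1
  have hvd := base_vd h0.vd hp hfar1
  have hdeg' : Deg3 (newG G (BI I0 p) (ends (BP P0 p))) := by
    rw [← hnew]
    exact hfamB.deg hdeg0
  have hz : ∀ i : {i // ¬ GainP G (p i) r}, ∃ d, ZHex R (p i.1) d := by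
    rintro ⟨i, hi⟩
    exact ((hc i).kind.resolve_left hi).2
  choose z hz using hz
  have hj : ∀ i, ¬ GainP G (p i) r → JoinP G (p i) r := fun i hi =>
    ((hc i).kind.resolve_left hi).1
  obtain ⟨X⟩ : Nonempty (MidF R (BI I0 p) (BP P0 p) Gd (DBs ρ r D0) (NBs ρ r D0)) := by
    refine midF_of_base (ρ := ρ) (D := DBs ρ r D0) (D1 := D1Bs ρ r D0) (D2 := r + D0 + 2)
      (N := 598) (N0 := NBs ρ r D0) (r := r) h0 hp hdeg' (fun i => GainP G (p i) r) Cat ?_
      (fun q hq => (hcat q hq).diam) hocc (fun i hi => hi) hj hfar' hfar0 ?_ z hz ?_ ?_ ?_ ?_ ?_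
    · intro q hq
      by_cases hqf : FarS G (r + D0 + 2) q.Vert (BV G I0)
      · obtain ⟨i, a, ha, b, hb, w, hw⟩ := hmax q ⟨hq, hqf⟩
        exact ⟨a, ha, b, Or.inl ⟨i, hb⟩, w, by omega⟩
      · obtain ⟨a, ha, b, hb, w, hw⟩ := not_farS hqf
        exact ⟨a, ha, b, Or.inr hb, w, hw⟩
    · intro i
      have h1 := (hc i).hm
      have h2 := (hc i).ht
      omega
    · unfold D1Bs
      omega
    · unfold DBs
      omega
    · unfold DBs D1Bs
      omega
    · unfold NBs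
      exact Nat.le_add_right _ _
    · unfold NBs
      exact Nat.le_add_left _ _
  refine ⟨k, p, hfamB, fun i => (hc i).hm, fun i => (hc i).ht, hnew, hvd, ?_, X.toMidQ,
    X.grow A E hP hcub hvd hdeg' hdis⟩
  exact fun q hq => hp.length_le (fun i => (hc i).hm) q hq

end Pool.Agent.Uni392
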