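import Mathlib
import Pool.Agent.Work.MP_392c8e_co_uni.DFill
import Pool.Agent.Work.MP_392c8e_co_t1.Surgery

/-!
# A maximal family of pairwise far pieces and leaves

Pieces (clusters which separate the graph and are universal) and leaves (bounded clusters which
accept every outer state) are deleted, as many as possible, pairwise far and far from a given set
`F0`.  Every piece and every leaf is then near the deleted set or near `F0`, and the deleted set
can be filled again, also after a surgery inside `F0`.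
-/

namespace Pool.Agent.LiftIso

open Finset
open Pool.Agent.T1Red (Str Strict newG)
open Pool.Agent.Red (side)
open Pool.Agent.Uni392 (StrictN)

set_option linter.unusedSectionVars false

variable {V : Type} {G G' : SimpleGraph V}

/-- The outer neighbours of a set. -/
def OutK (G : SimpleGraph V) (K : V → Prop) : Set V := {b | ∃ a, K a ∧ ¬ K b ∧ G.Adj a b}

/-- A universal connected piece between two parts of the graph. -/
structure PieceC (G : SimpleGraph V) (s : ℕ) (K : V → Prop) : Prop where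
  ne : ∃ v, K v
  out6 : (OutK G K).ncard ≤ 6
  conn : ∀ u v, K u → K v → Relation.ReflTransGen (fun x y => G.Adj x y ∧ K x ∧ K y) u v
  uni : ∃ B : V → Prop, (∀ u v, G.Adj u v → ¬ K u → ¬ K v → (B u ↔ B v)) ∧
    ∀ m : ℤ, 0 < m → Uni G K B s m

/-- A bounded leaf which accepts every outer state with different heights. -/
structure LeafC (G : SimpleGraph V) (s : ℕ) (K : V → Prop) : Prop where
  ne : ∃ v, K v
  out6 : (OutK G K).ncard ≤ 6
  card : {v | K v}.ncard ≤ s
  ext : ∀ (c : V → ZMod 3) (τ : V → ℝ), Set.InjOn τ (OutK G K) →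
    ∃ (c' : V → ZMod 3) (τ' : V → ℝ), (∀ v, ¬ K v → c' v = c v ∧ τ' v = τ v) ∧
      ∀ u v, G.Adj u v → K u → Str c' τ' u v

/-- The two graphs have the same edges at the vertices of `K`. -/
def SameAt (G G' : SimpleGraph V) (K : V → Prop) : Prop := ∀ a b, K a → (G'.Adj a b ↔ G.Adj a b)

theorem SameAt.outK {K : V → Prop} (h : SameAt G G' K) : OutK G' K = OutK G K := by
  ext b
  constructor
  · rintro ⟨a, h1, h2, h3⟩
    exact ⟨a, h1, h2, (h a b h1).1 h3⟩
  · rintro ⟨a, h1, h2, h3⟩
    exact ⟨a, h1, h2, (h a b h1).2 h3⟩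

theorem SameAt.side {K : V → Prop} (h : SameAt G G' K) : side G' K = side G K := by
  ext u v
  constructor
  · rintro ⟨h1, h2, h3⟩
    exact ⟨(h u v h2).1 h1, h2, h3⟩
  · rintro ⟨h1, h2, h3⟩
    exact ⟨(h u v h2).2 h1, h2, h3⟩

theorem SameAt.uni {K B : V → Prop} {s : ℕ} {m : ℤ} (h : SameAt G G' K) (hu : Uni G K B s m) :
    Uni G' K B s m := by
  intro x hx
  obtain ⟨y, e, t, h1, h2, g, c, τ, h3, h4, h5⟩ := hu x fun a b a' b' ha hb hab ha' hb' hab' hne hB =>
    hx a b a' b' ha hb ((h a b ha).2 hab) ha' hb' ((h a' b' ha').2 hab') hne hB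
  refine ⟨y, e, t, h1, h2, g, c, τ, ?_, h4, fun a b ha hb hab => h5 a b ha hb ((h a b ha).1 hab)⟩
  rw [h.side]
  exact h3

/-- A cluster stays on one side. -/
theorem side_of_conn {r : V → V → Prop} {B : V → Prop} (hB : ∀ u v, r u v → (B u ↔ B v)) {u v : V}
    (h : Relation.ReflTransGen r u v) : B u ↔ B v := by
  induction h with
  | refl => exact Iff.rfl
  | @tail b c _ h2 ih => exact ih.trans (hB b c h2)

/-- Two sets at distance at least `ρ`. -/
def FarF (G : SimpleGraph V) (ρ : ℕ) (A B : Set V) : Prop :=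
  ∀ a ∈ A, ∀ b ∈ B, ∀ w : G.Walk a b, ρ ≤ w.length

theorem FarF.symm {ρ : ℕ} {A B : Set V} (h : FarF G ρ A B) : FarF G ρ B A := by
  intro b hb a ha w
  have := h a ha b hb w.reverse
  rwa [SimpleGraph.Walk.length_reverse] at this

theorem FarF.ne {ρ : ℕ} (hρ : 1 ≤ ρ) {A B : Set V} (h : FarF G ρ A B) {v : V} (h1 : v ∈ A)
    (h2 : v ∈ B) : False := by
  have := h v h1 v h2 SimpleGraph.Walk.nil
  rw [SimpleGraph.Walk.length_nil] at this
  omega

theorem FarF.nadj {ρ : ℕ} (hρ : 2 ≤ ρ) {A B : Set V} (h : FarF G ρ A B) {u v : V} (h1 : u ∈ A)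
    (h2 : v ∈ B) (h3 : G.Adj u v) : False := by
  have := h u h1 v h2 (SimpleGraph.Walk.cons h3 SimpleGraph.Walk.nil)
  rw [SimpleGraph.Walk.length_cons, SimpleGraph.Walk.length_nil] at this
  omega

/-- The union of the members. -/
def DD (F : Finset (Finset V)) (v : V) : Prop := ∃ K ∈ F, v ∈ K

/-- A maximal family of far pieces and leaves. -/
structure FamD (G : SimpleGraph V) (s ρ : ℕ) (F0 : Set V) (F : Finset (Finset V)) : Prop where
  mem : ∀ K ∈ F, PieceC G s (fun v => v ∈ K) ∨ LeafC G s fun v => v ∈ K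
  far0 : ∀ K ∈ F, FarF G ρ (K : Set V) F0
  far : ∀ K ∈ F, ∀ L ∈ F, K ≠ L → FarF G ρ (K : Set V) (L : Set V)
  max : ∀ K : V → Prop, (PieceC G s K ∨ LeafC G s K) →
    ∃ a, K a ∧ ∃ b, (DD F b ∨ b ∈ F0) ∧ ∃ w : G.Walk a b, w.length < ρ

variable [Fintype V] [DecidableEq V] {s ρ : ℕ} {F0 : Set V} {F : Finset (Finset V)}

/-- **A maximal family of far pieces and leaves.** -/
theorem exists_famD (hρ : 1 ≤ ρ) (s : ℕ) (F0 : Set V) : ∃ F, FamD G s ρ F0 F := by
  classical
  -- the families
  set Ok : Finset (Finset V) → Prop := fun F =>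
    (∀ K ∈ F, (PieceC G s (fun v => v ∈ K) ∨ LeafC G s fun v => v ∈ K) ∧
      FarF G ρ (K : Set V) F0) ∧
    ∀ K ∈ F, ∀ L ∈ F, K ≠ L → FarF G ρ (K : Set V) (L : Set V) with hOk
  obtain ⟨F, hF, hmax⟩ : ∃ F, Ok F ∧ ∀ F', Ok F' → F'.card ≤ F.card := by
    have h1 : (univ.filter Ok : Finset (Finset (Finset V))).Nonempty :=
      ⟨∅, mem_filter.2 ⟨mem_univ _, by
        constructor
        · intro K hK
          exact absurd hK (Finset.notMem_empty K)
        · intro K hK
          exact absurd hK (Finset.notMem_empty K)⟩⟩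
    obtain ⟨F, hF, hF'⟩ := exists_max_image _ Finset.card h1
    exact ⟨F, (mem_filter.1 hF).2, fun F' h => hF' F' (mem_filter.2 ⟨mem_univ _, h⟩)⟩
  refine ⟨F, ⟨fun K hK => (hF.1 K hK).1, fun K hK => (hF.1 K hK).2, hF.2, fun K hK => ?_⟩⟩
  by_contra hcon
  push Not at hcon
  set K' : Finset V := univ.filter K with hK'
  have memK : ∀ v, v ∈ K' ↔ K v := fun v => by rw [hK', mem_filter]; simp
  have eK : (fun v => v ∈ K') = K := funext fun v => propext (memK v)
  have hne : ∃ v, K v := hK.elim (fun h => h.ne) fun h => h.ne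
  obtain ⟨v0, hv0⟩ := hne
  have hnot : K' ∉ F := by
    intro h5
    have := hcon v0 hv0 v0 (Or.inl ⟨K', h5, (memK v0).2 hv0⟩) SimpleGraph.Walk.nil
    rw [SimpleGraph.Walk.length_nil] at this
    omega
  have hok : Ok (insert K' F) := by
    refine ⟨fun L hL => ?_, fun L hL M hM hne => ?_⟩
    · rcases mem_insert.1 hL with rfl | hL
      · rw [eK]
        exact ⟨hK, fun a ha b hb w => hcon a ((memK a).1 ha) b (Or.inr hb) w⟩
      · exact hF.1 L hL
    · rcases mem_insert.1 hL with rfl | hL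
      · rcases mem_insert.1 hM with rfl | hM
        · exact absurd rfl hne
        · exact fun a ha b hb w => hcon a ((memK a).1 ha) b (Or.inl ⟨M, hM, hb⟩) w
      · rcases mem_insert.1 hM with rfl | hM
        · exact FarF.symm fun a ha b hb w =>
            hcon a ((memK a).1 ha) b (Or.inl ⟨L, hL, hb⟩) w
        · exact hF.2 L hL M hM hne
  have h1 := hmax _ hok
  rw [card_insert_of_notMem hnot] at h1
  omega

/-- The level after filling. -/
def FD (s n : ℕ) : ℕ := (s + 1) * (19 * ((s + 1) * (19 * n + 1)) + 1)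

theorem le_FD (s n : ℕ) : n ≤ FD s n := by
  unfold FD
  nlinarith [Nat.zero_le s, Nat.zero_le n, Nat.zero_le (s * n), Nat.zero_le (s * (s * n))]

/-- **Filling the family**, in a graph `G'` which is the old one at the members and whose other
edges do not connect two sides of a member. -/
theorem FamD.fill_of (h : FamD G s ρ F0 F) (hρ : 2 ≤ ρ)
    (hd : ∀ v, (G'.neighborSet v).ncard ≤ 3) (hs : SameAt G G' (DD F))
    (hc : ∀ u v, G'.Adj u v → ¬ DD F u → ¬ DD F v →
      Relation.ReflTransGen (fun a b => G.Adj a b ∧ ¬ DD F a ∧ ¬ DD F b) u v) {n : ℕ}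
    (hn : StrictN (side G' fun v => ¬ DD F v) n) : StrictN G' (FD s n) := by
  classical
  have hdisj : ∀ K ∈ F, ∀ L ∈ F, ∀ v, v ∈ K → v ∈ L → K = L := by
    intro K hK L hL v hvK hvL
    by_contra hne
    exact (h.far K hK L hL hne).ne (by omega) hvK hvL
  have hnadj : ∀ K ∈ F, ∀ L ∈ F, ∀ u v, u ∈ K → v ∈ L → G.Adj u v → K = L := by
    intro K hK L hL u v hu hv huv
    by_contra hne
    exact (h.far K hK L hL hne).nadj hρ hu hv huv
  have same : ∀ K ∈ F, SameAt G G' fun v => v ∈ K := fun K hK a b ha => hs a b ⟨K, hK, ha⟩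
  set I := {K : Finset V // K ∈ F ∧ PieceC G s fun v => v ∈ K} with hI
  set J := {K : Finset V // K ∈ F ∧ ¬ PieceC G s fun v => v ∈ K} with hJ
  set cl : V → Option I := fun v => if h : ∃ i : I, v ∈ i.1 then some h.choose else none with hcl
  set cl' : V → Option J := fun v => if h : ∃ i : J, v ∈ i.1 then some h.choose else none with hcl'
  have cl_iff : ∀ (v : V) (i : I), cl v = some i ↔ v ∈ i.1 := by
    intro v i
    constructor
    · intro h
      by_cases h1 : ∃ i : I, v ∈ i.1
      · have h2 : cl v = some h1.choose := dif_pos h1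
        rw [h2] at h
        have h3 := Option.some.inj h
        rw [← h3]
        exact h1.choose_spec
      · have h2 : cl v = none := dif_neg h1
        rw [h2] at h
        cases h
    · intro h
      have h1 : ∃ i : I, v ∈ i.1 := ⟨i, h⟩
      have h2 : cl v = some h1.choose := dif_pos h1
      rw [h2]
      congr 1
      exact Subtype.ext (hdisj _ h1.choose.2.1 _ i.2.1 v h1.choose_spec h)
  have cl'_iff : ∀ (v : V) (i : J), cl' v = some i ↔ v ∈ i.1 := by
    intro v i
    constructor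
    · intro h
      by_cases h1 : ∃ i : J, v ∈ i.1
      · have h2 : cl' v = some h1.choose := dif_pos h1
        rw [h2] at h
        have h3 := Option.some.inj h
        rw [← h3]
        exact h1.choose_spec
      · have h2 : cl' v = none := dif_neg h1
        rw [h2] at h
        cases h
    · intro h
      have h1 : ∃ i : J, v ∈ i.1 := ⟨i, h⟩
      have h2 : cl' v = some h1.choose := dif_pos h1
      rw [h2]
      congr 1
      exact Subtype.ext (hdisj _ h1.choose.2.1 _ i.2.1 v h1.choose_spec h)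
  have cl_none : ∀ v, cl v = none ↔ ∀ i : I, v ∉ i.1 := by
    intro v
    constructor
    · intro h i hi
      rw [(cl_iff v i).2 hi] at h
      cases h
    · intro h
      exact dif_neg fun ⟨i, hi⟩ => h i hi
  have cl'_none : ∀ v, cl' v = none ↔ ∀ i : J, v ∉ i.1 := by
    intro v
    constructor
    · intro h i hi
      rw [(cl'_iff v i).2 hi] at h
      cases h
    · intro h
      exact dif_neg fun ⟨i, hi⟩ => h i hi
  have out_eq : ∀ i : I, Out G' cl i = OutK G fun v => v ∈ i.1 := by
    intro i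
    rw [← (same i.1 i.2.1).outK]
    ext b
    simp only [Out, OutK, Set.mem_ofPred_eq, Ne, cl_iff]
  have out_eq' : ∀ i : J, Out G' cl' i = OutK G fun v => v ∈ i.1 := by
    intro i
    rw [← (same i.1 i.2.1).outK]
    ext b
    simp only [Out, OutK, Set.mem_ofPred_eq, Ne, cl'_iff]
  have leafJ : ∀ i : J, LeafC G s fun v => v ∈ i.1 := fun i => (h.mem i.1 i.2.1).resolve_left i.2.2
  have hDiff : ∀ v, ¬ DD F v ↔ (cl v = none ∧ cl' v = none) := by
    intro v
    rw [cl_none, cl'_none]
    constructor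
    · intro h
      exact ⟨fun i hi => h ⟨i.1, i.2.1, hi⟩, fun i hi => h ⟨i.1, i.2.1, hi⟩⟩
    · rintro ⟨h1, h2⟩ ⟨K, hK, hv⟩
      by_cases hp : PieceC G s fun v => v ∈ K
      · exact h1 ⟨K, hK, hp⟩ hv
      · exact h2 ⟨K, hK, hp⟩ hv
  -- the inner sides
  have hBex : ∀ i : I, ∃ B : V → Prop, (∀ u v, G.Adj u v → u ∉ i.1 → v ∉ i.1 → (B u ↔ B v)) ∧
      ∀ m : ℤ, 0 < m → Uni G (fun v => v ∈ i.1) B s m := fun i => i.2.2.uni
  choose B hB1 hB2 using hBex
  have hB3 : ∀ i u v, G'.Adj u v → u ∉ i.1 → v ∉ i.1 → (B i u ↔ B i v) := by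
    intro i u v huv hu hv
    by_cases h5 : DD F u
    · exact hB1 i u v ((hs u v h5).1 huv) hu hv
    · by_cases h6 : DD F v
      · exact (hB1 i v u ((hs v u h6).1 huv.symm) hv hu).symm
      · exact side_of_conn (fun a b hab => hB1 i a b hab.1 (fun h7 => hab.2.1 ⟨i.1, i.2.1, h7⟩)
          fun h7 => hab.2.2 ⟨i.1, i.2.1, h7⟩) (hc u v huv h5 h6)
  have hclK : ∀ i : I, (fun v => cl v = some i) = fun v => v ∈ i.1 := fun i =>
    funext fun v => propext (cl_iff v i)
  have g2 : ∀ K ∈ F, ∀ L ∈ F, ∀ u v, u ∈ K → v ∈ L → G'.Adj u v → K = L :=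
    fun K hK L hL u v hu hv huv => hnadj K hK L hL u v hu hv ((same K hK u v hu).1 huv)
  refine fill_D cl B cl' s n hd ?_ ?_ ?_ ?_ ?_ ?_ ?_ ?_ ?_ ?_ ?_ ?_
  · intro v
    by_contra h5
    push Not at h5
    obtain ⟨h6, h7⟩ := h5
    obtain ⟨i, hi⟩ := Option.ne_none_iff_exists'.1 h6
    obtain ⟨j, hj⟩ := Option.ne_none_iff_exists'.1 h7
    have := hdisj _ i.2.1 _ j.2.1 v ((cl_iff v i).1 hi) ((cl'_iff v j).1 hj)
    have h8 := i.2.2
    rw [this] at h8
    exact j.2.2 h8
  · intro i
    rw [out_eq]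
    exact i.2.2.out6
  · intro j
    rw [out_eq']
    exact (leafJ j).out6
  · intro u v huv i j hi hj
    exact Subtype.ext (g2 _ i.2.1 _ j.2.1 u v ((cl_iff u i).1 hi) ((cl_iff v j).1 hj) huv)
  · intro u v huv i j hi hj
    exact Subtype.ext (g2 _ i.2.1 _ j.2.1 u v ((cl'_iff u i).1 hi) ((cl'_iff v j).1 hj) huv)
  · intro u v huv hu
    obtain ⟨i, hi⟩ := Option.ne_none_iff_exists'.1 hu
    rw [cl'_none]
    intro j hj
    have := g2 _ i.2.1 _ j.2.1 u v ((cl_iff u i).1 hi) hj huv
    have h8 := i.2.2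
    rw [this] at h8
    exact j.2.2 h8
  · intro i u v huv hu hv
    exact hB3 i u v huv (fun h => hu ((cl_iff u i).2 h)) fun h => hv ((cl_iff v i).2 h)
  · intro i j hij
    obtain ⟨v0, hv0⟩ := j.2.2.ne
    have hdis : ∀ v, v ∈ j.1 → v ∉ i.1 := fun v hv hv' =>
      hij (Subtype.ext (hdisj _ i.2.1 _ j.2.1 v hv' hv))
    have key : ∀ v, v ∈ j.1 → (B i v0 ↔ B i v) := fun v hv =>
      side_of_conn (fun a b hab => hB1 i a b hab.1 (hdis a hab.2.1) (hdis b hab.2.2))
        (j.2.2.conn v0 v hv0 hv)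
    by_cases h5 : B i v0
    · exact Or.inl fun v hv => (key v ((cl_iff v j).1 hv)).1 h5
    · exact Or.inr fun v hv h6 => h5 ((key v ((cl_iff v j).1 hv)).2 h6)
  · intro i m hm
    rw [hclK i]
    exact (same i.1 i.2.1).uni (hB2 i m hm)
  · intro j
    have : {v | cl' v = some j} = {v | v ∈ j.1} := Set.ext fun v => cl'_iff v j
    rw [this]
    exact (leafJ j).card
  · intro j c τ hτ
    rw [out_eq'] at hτ
    obtain ⟨c', τ', h1, h2⟩ := (leafJ j).ext c τ hτ
    refine ⟨c', τ', fun v hv => h1 v fun h5 => hv ((cl'_iff v j).2 h5), fun u v huv hu => ?_⟩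
    have hu' := (cl'_iff u j).1 hu
    exact h2 u v ((same j.1 j.2.1 u v hu').1 huv) hu'
  · have : (fun v => ¬ DD F v) = fun v => cl v = none ∧ cl' v = none :=
      funext fun v => propext (hDiff v)
    rw [← this]
    exact hn

/-- **Filling the family.** -/
theorem FamD.fill (h : FamD G s ρ F0 F) (hρ : 2 ≤ ρ) (hd : ∀ v, (G.neighborSet v).ncard ≤ 3)
    {n : ℕ} (hn : StrictN (newG G (DD F) []) n) : StrictN G (FD s n) := by
  refine h.fill_of (G' := G) hρ hd (fun a b _ => Iff.rfl)
    (fun u v huv hu hv => Relation.ReflTransGen.single ⟨huv, hu, hv⟩) (hn.mono ?_ le_rfl)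
  rintro u v ⟨h1, h2, h3⟩
  exact Or.inl ⟨h1, h2, h3⟩

/-- **Filling the family after a surgery at a vertex.** -/
theorem FamD.fill_spot (h : FamD G s ρ F0 F) (hρ : 2 ≤ ρ) (hd : ∀ v, (G.neighborSet v).ncard ≤ 3)
    {x p q : V} (hx : x ∈ F0) (hp : p ∈ F0) (hq : q ∈ F0) (hxp : G.Adj x p) (hxq : G.Adj x q)
    (hpq : p ≠ q) {n : ℕ} (hn : StrictN (newG G (fun v => v = x ∨ DD F v) [(p, q)]) n) :
    StrictN (newG G (fun v => v = x) [(p, q)]) (FD s n) := by
  classical
  have hout : ∀ y ∈ F0, ¬ DD F y := fun y hy ⟨K, hK, hyK⟩ => (h.far0 K hK).ne (by omega) hyK hy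
  have hnad : ∀ y ∈ F0, ∀ a, DD F a → ¬ G.Adj a y := fun y hy a ⟨K, hK, hyK⟩ h5 =>
    (h.far0 K hK).nadj hρ hyK hy h5
  refine h.fill_of (G' := newG G (fun v => v = x) [(p, q)]) hρ ?_ ?_ ?_ (hn.mono ?_ le_rfl)
  · -- the degrees
    intro v
    by_cases h1 : v = p
    · subst h1
      have h2 : (newG G (fun v => v = x) [(v, q)]).neighborSet v ⊆
          insert q (G.neighborSet v \ {x}) := by
        intro y hy
        rcases (show (newG G (fun v => v = x) [(v, q)]).Adj v y from hy) with ⟨h3, h4, h5⟩ | ⟨h3, h4⟩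
        · exact Or.inr ⟨h3, h5⟩
        · rcases h4 with h4 | h4
          · rw [List.mem_singleton, Prod.mk.injEq] at h4
            exact Or.inl h4.2
          · rw [List.mem_singleton, Prod.mk.injEq] at h4
            exact absurd h4.1.symm h3
      have h3 := Set.ncard_le_ncard h2 (Set.toFinite _)
      have h4 := Set.ncard_insert_le q (G.neighborSet v \ {x})
      have h5 := Set.ncard_sdiff_singleton_add_one (s := G.neighborSet v) hxp.symm (Set.toFinite _)
      have h6 := hd v
      omega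
    · by_cases h1' : v = q
      · subst h1'
        have h2 : (newG G (fun v => v = x) [(p, v)]).neighborSet v ⊆
            insert p (G.neighborSet v \ {x}) := by
          intro y hy
          rcases (show (newG G (fun v => v = x) [(p, v)]).Adj v y from hy) with
            ⟨h3, h4, h5⟩ | ⟨h3, h4⟩
          · exact Or.inr ⟨h3, h5⟩
          · rcases h4 with h4 | h4
            · rw [List.mem_singleton, Prod.mk.injEq] at h4
              exact absurd h4.1 h1
            · rw [List.mem_singleton, Prod.mk.injEq] at h4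
              exact Or.inl h4.1
        have h3 := Set.ncard_le_ncard h2 (Set.toFinite _)
        have h4 := Set.ncard_insert_le p (G.neighborSet v \ {x})
        have h5 := Set.ncard_sdiff_singleton_add_one (s := G.neighborSet v) hxq.symm (Set.toFinite _)
        have h6 := hd v
        omega
      · have h2 : (newG G (fun v => v = x) [(p, q)]).neighborSet v ⊆ G.neighborSet v := by
          intro y hy
          rcases (show (newG G (fun v => v = x) [(p, q)]).Adj v y from hy) with
            ⟨h3, h4, h5⟩ | ⟨h3, h4⟩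
          · exact h3
          · rcases h4 with h4 | h4
            · rw [List.mem_singleton, Prod.mk.injEq] at h4
              exact absurd h4.1 h1
            · rw [List.mem_singleton, Prod.mk.injEq] at h4
              exact absurd h4.2 h1'
        exact (Set.ncard_le_ncard h2 (Set.toFinite _)).trans (hd v)
  · intro a b ha
    constructor
    · rintro (⟨h3, -, -⟩ | ⟨-, h4⟩)
      · exact h3
      · rcases h4 with h4 | h4
        · rw [List.mem_singleton, Prod.mk.injEq] at h4
          exact absurd ha (h4.1 ▸ hout p hp)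
        · rw [List.mem_singleton, Prod.mk.injEq] at h4
          exact absurd ha (h4.2 ▸ hout q hq)
    · intro h3
      refine Or.inl ⟨h3, fun h4 => hout x hx (h4 ▸ ha), fun h4 => hnad x hx a ha (h4 ▸ h3)⟩
  · intro u v huv hu hv
    have step : Relation.ReflTransGen (fun a b => G.Adj a b ∧ ¬ DD F a ∧ ¬ DD F b) p q :=
      (Relation.ReflTransGen.single ⟨hxp.symm, hout p hp, hout x hx⟩).tail
        ⟨hxq, hout x hx, hout q hq⟩
    have step' : Relation.ReflTransGen (fun a b => G.Adj a b ∧ ¬ DD F a ∧ ¬ DD F b) q p :=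
      (Relation.ReflTransGen.single ⟨hxq.symm, hout q hq, hout x hx⟩).tail
        ⟨hxp, hout x hx, hout p hp⟩
    rcases huv with ⟨h3, -, -⟩ | ⟨-, h4⟩
    · exact Relation.ReflTransGen.single ⟨h3, hu, hv⟩
    · rcases h4 with h4 | h4
      · rw [List.mem_singleton, Prod.mk.injEq] at h4
        rw [h4.1, h4.2]
        exact step
      · rw [List.mem_singleton, Prod.mk.injEq] at h4
        rw [h4.1, h4.2]
        exact step'
  · rintro u v ⟨h1, h2, h3⟩
    rcases h1 with ⟨h4, h5, h6⟩ | ⟨h4, h5⟩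
    · exact Or.inl ⟨h4, fun h => h.elim h5 h2, fun h => h.elim h6 h3⟩
    · exact Or.inr ⟨h4, h5⟩

end Pool.Agent.LiftIso
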