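import Mathlib
import Pool.Agent.Work.MP_392c8e_co_uni.ZHex
import Pool.Agent.Work.MP_392c8e_co_uni.SjF55
import Pool.Agent.Work.MP_392c8e_co_uni.FarFam

/-!
# The created faces of length four of a family of places
-/

set_option autoImplicit false
set_option linter.unusedSectionVars false

namespace Pool.Agent.Uni392

open Finset Pool.Agent.Sub392 Pool.Agent.T392 Pool.Agent.Disch392
open Pool.Agent.Uni91 (VD ends Fam Good FI FP mem_FP full)
open Pool.Agent.T1Red (newG Deg3 Int)

variable {V : Type} [Fintype V] [DecidableEq V] {G : SimpleGraph V} [DecidableRel G.Adj]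
  {R : Rot G} {ι : Type} [Fintype ι] {p : ι → Place V}

theorem adj_iter (R : Rot G) (d : G.Dart) (i : ℕ) :
    G.Adj (R.next^[i] d).fst (R.next^[i + 1] d).fst := by
  rw [Function.iterate_succ_apply', R.fst_next]
  exact (R.next^[i] d).adj

theorem iter_six_fst {q : Place V} {d : G.Dart} (h : ZHex R q d) : R.next^[6] d = d := by
  rw [← h.six]
  exact next_sz R d

/-- The vertices of the path. -/
theorem ZHex.vert {q : Place V} {d : G.Dart} (h : ZHex R q d) (hq : Good q G) :
    ∀ i, i ≤ 3 → (R.next^[i] d).fst ∈ q.Vert := by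
  intro i hi
  rcases h.path with h1 | h1
  · refine hq.mem_full h1 ?_
    interval_cases i <;> simp [full]
  · refine hq.mem_full h1 ?_
    interval_cases i <;> simp [full]

/-- A vertex of a place is not in another place at distance at least three. -/
theorem not_int_of_near {D2 : ℕ} (hfar : ∀ i j, i ≠ j → FarS G D2 (p i).Vert (p j).Vert)
    (hD2 : 2 ≤ D2) (hp : Fam p G) {j : ι} {v t : V} (ht : t ∈ (p j).Vert) (h : v = t ∨ G.Adj t v)
    (hv : ¬ Int (p j).R (p j).f v) : ¬ FI p v := by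
  rintro ⟨i, hi⟩
  by_cases hij : j = i
  · subst hij
    exact hv hi
  · have h1 := (hp.good i).int_vert hi
    rcases h with rfl | h
    · have := hfar j i hij _ ht _ h1 SimpleGraph.Walk.nil
      simp at this
      omega
    · have := hfar j i hij _ ht _ h1 h.toWalk
      rw [SimpleGraph.Walk.length_cons, SimpleGraph.Walk.length_nil] at this
      omega

section

variable {D2 : ℕ} (hfar : ∀ i j, i ≠ j → FarS G D2 (p i).Vert (p j).Vert) (hD2 : 2 ≤ D2)
  (hp : Fam p G) {j : ι} {d : G.Dart} (h : ZHex R (p j) d)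
include hp h

theorem ZHex.mem_FP : (d.fst, [(R.next d).fst, (R.next^[2] d).fst], (R.next^[3] d).fst) ∈ FP p ∨
    ((R.next^[3] d).fst, [(R.next^[2] d).fst, (R.next d).fst], d.fst) ∈ FP p := by
  rcases h.path with h1 | h1
  · exact Or.inl (Uni91.mem_FP.2 ⟨j, h1⟩)
  · exact Or.inr (Uni91.mem_FP.2 ⟨j, h1⟩)

include hfar hD2

/-- The other vertices of the hexagon are kept. -/
theorem ZHex.not_FI : ∀ i, i = 0 ∨ i = 3 ∨ i = 4 ∨ i = 5 → ¬ FI p (R.next^[i] d).fst := by
  intro i hi
  have hv := h.vert (hp.good j)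
  have ho := h.out i hi
  rcases hi with rfl | rfl | rfl | rfl
  · exact not_int_of_near hfar hD2 hp (hv 0 (by norm_num)) (Or.inl rfl) ho
  · exact not_int_of_near hfar hD2 hp (hv 3 le_rfl) (Or.inl rfl) ho
  · exact not_int_of_near hfar hD2 hp (hv 3 le_rfl) (Or.inr (adj_iter R d 3)) ho
  · refine not_int_of_near hfar hD2 hp (hv 0 (by norm_num)) (Or.inr ?_) ho
    have := adj_iter R d 5
    rw [iter_six_fst h] at this
    exact this.symm

/-- They belong to the set of the place. -/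
theorem ZHex.mem_SJ {D1 : ℕ} (hD1 : 1 ≤ D1) :
    ∀ i, i = 0 ∨ i = 3 ∨ i = 4 ∨ i = 5 → (R.next^[i] d).fst ∈ SJ G p D1 j := by
  intro i hi
  have hv := h.vert (hp.good j)
  have hn := h.not_FI hfar hD2 hp
  refine Uni392.mem_SJ.2 ⟨hn i hi, ?_⟩
  have key : ∀ k l : V, ¬ FI p k → ¬ FI p l → G.Adj k l → l ∈ (p j).Vert →
      ∃ t ∈ (p j).Vert, ¬ FI p t ∧ ∃ n, n ≤ D1 ∧ Steps (nbN G (FI p) (FP p)) n k t := by
    intro k l hk hl hkl hlv
    exact ⟨l, hlv, hl, 1, hD1, Steps.cons (mem_nbN.2 (Or.inl ⟨hkl, hk, hl⟩)) (Steps.refl _)⟩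
  rcases hi with rfl | rfl | rfl | rfl
  · exact ⟨_, hv 0 (by norm_num), hn 0 (Or.inl rfl), 0, Nat.zero_le _, Steps.refl _⟩
  · exact ⟨_, hv 3 le_rfl, hn 3 (Or.inr (Or.inl rfl)), 0, Nat.zero_le _, Steps.refl _⟩
  · exact key _ _ (hn 4 (Or.inr (Or.inr (Or.inl rfl)))) (hn 3 (Or.inr (Or.inl rfl)))
      (adj_iter R d 3).symm (hv 3 le_rfl)
  · refine key _ _ (hn 5 (Or.inr (Or.inr (Or.inr rfl)))) (hn 0 (Or.inl rfl)) ?_
      (hv 0 (by norm_num))
    have := adj_iter R d 5
    rwa [iter_six_fst h] at this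

end

/-- Different places have different created faces. -/
theorem ZHex.inj (hp : Fam p G) {i j : ι} {d e : G.Dart} (h : ZHex R (p i) d)
    (h' : ZHex R (p j) e) (he : (R.next d).fst = (R.next e).fst) : i = j :=
  hp.eq_of_vert (h.vert (hp.good i) 1 (by norm_num))
    (show (R.next d).fst ∈ (p j).Vert by rw [he]; exact h'.vert (hp.good j) 1 (by norm_num))

end Pool.Agent.Uni392
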