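import Mathlib
import Pool.Agent.Work.MP_392c8e_co_draw.Draw
import Pool.Agent.Work.MP_392c8e_co_uni.ColBridge

/-!
# The whole class: from colourings at one level to the statement with drawings
-/

namespace Pool.Agent.CutN

open Pool.Agent.Red
open Pool.Agent.Uni392 (StrictN)

/-- The remainders of a colouring at level `n`. -/
theorem jn_abs {n x y : ℤ} (hn : 0 < n) (h : Jn n (y - x)) :
    n + 1 ≤ |x % (3 * n) - y % (3 * n)| ∧ |x % (3 * n) - y % (3 * n)| ≤ 3 * n - (n + 1) := by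
  obtain ⟨k, h1, h2⟩ := h
  have e1 := Int.emod_add_mul_ediv x (3 * n)
  have e2 := Int.emod_nonneg x (show (3 * n) ≠ 0 by omega)
  have e3 := Int.emod_lt_of_pos x (show 0 < 3 * n by omega)
  have f1 := Int.emod_add_mul_ediv y (3 * n)
  have f2 := Int.emod_nonneg y (show (3 * n) ≠ 0 by omega)
  have f3 := Int.emod_lt_of_pos y (show 0 < 3 * n by omega)
  set r := x % (3 * n)
  set s := y % (3 * n)
  set t := y / (3 * n) - x / (3 * n) + k with ht
  have key : s - r + 3 * n * t = y - x + 3 * n * k := by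
    rw [ht]
    linear_combination e1 * (-1) + f1
  rw [← key] at h1 h2
  have ht1 : t ≤ 1 := by
    by_contra hcon
    have : 3 * n * 2 ≤ 3 * n * t := mul_le_mul_of_nonneg_left (by omega) (by omega)
    omega
  have ht2 : 0 ≤ t := by
    by_contra hcon
    have : 3 * n * t ≤ 3 * n * (-1) := mul_le_mul_of_nonneg_left (by omega) (by omega)
    omega
  rcases (by omega : t = 0 ∨ t = 1) with h0 | h0
  · rw [h0, mul_zero, add_zero] at h1 h2
    rw [abs_sub_comm]
    rw [abs_of_nonneg (by omega)]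
    constructor <;> omega
  · rw [h0, mul_one] at h1 h2
    rw [abs_of_nonneg (by omega)]
    constructor <;> omega

/-- A colouring at level `n` in the form of the problem. -/
theorem exists_nat_of_colN {n : ℕ} (hn : 0 < n) {V : Type*} {G : SimpleGraph V}
    (h : ColN (n : ℤ) G) :
    ∃ c : V → ℕ, (∀ v, c v < 3 * n) ∧ ∀ u v, G.Adj u v →
      (n + 1 : ℤ) ≤ |(c u : ℤ) - c v| ∧ |(c u : ℤ) - c v| ≤ 3 * n - (n + 1) := by
  have hn' : (0 : ℤ) < n := by exact_mod_cast hn
  obtain ⟨c, hc⟩ := h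
  have e2 : ∀ v, 0 ≤ c v % (3 * n) := fun v => Int.emod_nonneg _ (by omega)
  have e3 : ∀ v, c v % (3 * n) < 3 * n := fun v => Int.emod_lt_of_pos _ (by omega)
  have e4 : ∀ v, (((c v % (3 * n)).toNat : ℕ) : ℤ) = c v % (3 * n) := fun v =>
    Int.toNat_of_nonneg (e2 v)
  refine ⟨fun v => (c v % (3 * n)).toNat, fun v => ?_, fun u v huv => ?_⟩
  · have h1 := e3 v
    have h2 := e4 v
    zify
    rw [h2]
    exact h1
  · rw [e4, e4]
    exact jn_abs hn' (hc u v huv)

/-- **The whole class**: if all planar triangle-free graphs of maximum degree three have a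
colouring at level `n`, then the same holds for the graphs which are drawn in the plane. -/
theorem whole_of_colN {n : ℕ} (hn : 0 < n)
    (H : ∀ (V : Type) [Fintype V] [DecidableEq V] (G : SimpleGraph V), Pl G → G.CliqueFree 3 →
      (∀ v, (G.neighborSet v).ncard ≤ 3) → ColN (n : ℤ) G) :
    ∃ n : ℕ, 0 < n ∧ ∀ (V : Type) [Fintype V] (G : SimpleGraph V), G.CliqueFree 3 →
      (∀ v, (G.neighborSet v).ncard ≤ 3) →
      (∃ (p : V → ℝ × ℝ) (γ : V → V → unitInterval → ℝ × ℝ),
        Function.Injective p ∧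
        (∀ u v, G.Adj u v →
          Continuous (γ u v) ∧ Function.Injective (γ u v) ∧
          γ u v 0 = p u ∧ γ u v 1 = p v ∧
          ∀ (t : unitInterval) (w : V), γ u v t = p w → w = u ∨ w = v) ∧
        (∀ u v x y, G.Adj u v → G.Adj x y → s(u, v) ≠ s(x, y) →
          ∀ (a b : unitInterval), γ u v a = γ x y b →
            (γ u v a = p u ∨ γ u v a = p v) ∧ (γ u v a = p x ∨ γ u v a = p y))) →
      ∃ c : V → ℕ, (∀ v, c v < 3 * n) ∧ ∀ u v, G.Adj u v →
        (n + 1 : ℤ) ≤ |(c u : ℤ) - c v| ∧ |(c u : ℤ) - c v| ≤ 3 * n - (n + 1) := by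
  refine ⟨n, hn, fun V _ G htri hdeg hd => ?_⟩
  classical
  exact exists_nat_of_colN hn (H V G (Pool.Agent.Draw.pl_of_drawing hd) htri hdeg)

/-- The same with strict colourings. -/
theorem whole_of_strictN {n : ℕ} (hn : 0 < n)
    (H : ∀ (V : Type) [Fintype V] [DecidableEq V] (G : SimpleGraph V), Pl G → G.CliqueFree 3 →
      (∀ v, (G.neighborSet v).ncard ≤ 3) → StrictN G n) :
    ∃ n : ℕ, 0 < n ∧ ∀ (V : Type) [Fintype V] (G : SimpleGraph V), G.CliqueFree 3 →
      (∀ v, (G.neighborSet v).ncard ≤ 3) →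
      (∃ (p : V → ℝ × ℝ) (γ : V → V → unitInterval → ℝ × ℝ),
        Function.Injective p ∧
        (∀ u v, G.Adj u v →
          Continuous (γ u v) ∧ Function.Injective (γ u v) ∧
          γ u v 0 = p u ∧ γ u v 1 = p v ∧
          ∀ (t : unitInterval) (w : V), γ u v t = p w → w = u ∨ w = v) ∧
        (∀ u v x y, G.Adj u v → G.Adj x y → s(u, v) ≠ s(x, y) →
          ∀ (a b : unitInterval), γ u v a = γ x y b →
            (γ u v a = p u ∨ γ u v a = p v) ∧ (γ u v a = p x ∨ γ u v a = p y))) →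
      ∃ c : V → ℕ, (∀ v, c v < 3 * n) ∧ ∀ u v, G.Adj u v →
        (n + 1 : ℤ) ≤ |(c u : ℤ) - c v| ∧ |(c u : ℤ) - c v| ≤ 3 * n - (n + 1) :=
  whole_of_colN hn fun V _ _ G h1 h2 h3 => colN_of_strictN (H V G h1 h2 h3)

end Pool.Agent.CutN
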