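import Mathlib
import Pool.Agent.Work.MP_392c8e_co_uni.FinalW
import Pool.Agent.Work.MP_392c8e_co_uni.Inv
import Pool.Agent.Work.MP_392c8e_co_t1.Final
import Pool.Agent.Work.MP_392c8e_co_t1.AllFacts

/-!
# The whole class: the statement which contains the bound with the number of vertices
-/

namespace Pool.Agent.CutN

open Pool.Agent.Red
open Pool.Agent.Uni392 (StrictN)

/-- A strict colouring gives colourings at all higher levels. -/
theorem exists_nat_of_strictN {n m : ℕ} (hn : 0 < n) (hnm : n ≤ m) {V : Type} {G : SimpleGraph V}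
    (h : StrictN G n) :
    ∃ c : V → ℕ, (∀ v, c v < 3 * m) ∧ ∀ u v, G.Adj u v →
      (m + 1 : ℤ) ≤ |(c u : ℤ) - c v| ∧ |(c u : ℤ) - c v| ≤ 3 * m - (m + 1) :=
  exists_nat_of_colN (hn.trans_le hnm) (colN_of_strictN (h.mono le_rfl hnm))

/-- **The whole class**, with all levels from the minimum of the universal level and the number of
vertices on. -/
theorem whole_min_of_colN {n : ℕ} (hn : 0 < n)
    (H : ∀ (V : Type) [Fintype V] [DecidableEq V] (G : SimpleGraph V), Pl G → G.CliqueFree 3 →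
      (∀ v, (G.neighborSet v).ncard ≤ 3) → ColN (n : ℤ) G) (V : Type) [Fintype V]
    (G : SimpleGraph V) (hfree : G.CliqueFree 3) (hdeg : ∀ v, (G.neighborSet v).ncard ≤ 3)
    (hplanar : ∃ (p : V → ℝ × ℝ) (γ : V → V → unitInterval → ℝ × ℝ),
      Function.Injective p ∧
      (∀ u v, G.Adj u v →
        Continuous (γ u v) ∧ Function.Injective (γ u v) ∧
        γ u v 0 = p u ∧ γ u v 1 = p v ∧
        ∀ (t : unitInterval) (w : V), γ u v t = p w → w = u ∨ w = v) ∧
      (∀ u v x y, G.Adj u v → G.Adj x y → s(u, v) ≠ s(x, y) →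
        ∀ (a b : unitInterval), γ u v a = γ x y b →
          (γ u v a = p u ∨ γ u v a = p v) ∧ (γ u v a = p x ∨ γ u v a = p y)))
    (m : ℕ) (hm : min n (Fintype.card V) ≤ m) :
    ∃ c : V → ℕ, (∀ v, c v < 3 * m) ∧ ∀ u v, G.Adj u v →
      (m + 1 : ℤ) ≤ |(c u : ℤ) - c v| ∧ |(c u : ℤ) - c v| ≤ 3 * m - (m + 1) := by
  classical
  rcases min_le_iff.1 hm with h1 | h1
  · exact exists_nat_of_strictN hn h1
      (strictN_of_colN hn (H V G (Pool.Agent.Draw.pl_of_drawing hplanar) hfree hdeg))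
  · rcases Nat.eq_zero_or_pos (Fintype.card V) with h0 | h0
    · have h2 : IsEmpty V := Fintype.card_eq_zero_iff.1 h0
      exact ⟨fun _ => 0, fun v => (h2.false v).elim, fun u => (h2.false u).elim⟩
    · exact exists_nat_of_strictN h0 h1 (Pool.Agent.Uni91.strictN_of_hasStrict
        (Pool.Agent.T392.facts.strict_drawn hplanar hfree hdeg))

end Pool.Agent.CutN
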