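import Mathlib
import Pool.Agent.Work.MP_392c8e_co_uni.GapTen
import Pool.Agent.Work.MP_392c8e_co_uni.RotTabs
import Pool.Agent.Work.MP_392c8e_co_uni.LineG
import Pool.Agent.Work.MP_392c8e_co_uni.LineP
import Pool.Agent.Work.MP_392c8e_co_uni.RedG2R

/-!
# Places with ten terminals and gain

The places G3, P2 and G2R if all faces are short.
-/

namespace Pool.Agent.RingB

open Finset Pool.Agent.Sub392 Pool.Agent.T392 Pool.Agent.Disch392 Pool.Agent.Uni392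
  Pool.Agent.U2Geo Pool.Agent.Ring392 Pool.Agent.Once392
open Pool.Agent.Uni91 (GainP)
open Pool.Agent.T1FF (tG3 tP2 tG2R fG3 fP2 fG2R ac rotG3 rotP2 rotG2R)

set_option linter.unusedSectionVars false

variable {V : Type} [Fintype V] [DecidableEq V] {G : SimpleGraph V} [DecidableRel G.Adj]
  {R : Rot G} {d : G.Dart} {L : ℕ}

theorem lab_G3 : labB T1Red.G3 [(10, 17)] tG3 = true := by decide +kernel

theorem good_G3A : goodB T1Red.G3 [(10, 17)] psG3 [] (gsA tG3 qG3) = true := by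
  rw [gsA_G3]
  decide +kernel

theorem lab_P2 : labB (T1Red.P2 (4, 6) (7, 9)) [] tP2 = true := by decide +kernel

theorem good_P2A : goodB (T1Red.P2 (4, 6) (7, 9)) [] psP2 [] (gsA tP2 qP2) = true := by
  rw [gsA_P2]
  decide +kernel

theorem lab_G2R : labB T1Red.G2R [] tG2R = true := by decide +kernel

theorem good_G2RA : goodB T1Red.G2R [] T1Red.psG2R [(3, 8)] (gsA tG2R qG2R) = true := by
  rw [gsA_G2R]
  decide +kernel

/-- **The place G3 has gain.** -/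
theorem gainP_G3 (hR : C5 R) (hg : Uni91.Good (sG3.pl (fG3 R d)) G) (h : T1FF.Good R d 7)
    (g0 : T1FF.Good R (ac R d 0) 5) (g2 : T1FF.Good R (ac R d 2) 5)
    (g4 : T1FF.Good R (ac R d 4) 5) (hL : ∀ d : G.Dart, sz R d ≤ L) :
    GainP G (sG3.pl (fG3 R d)) (10 * (L + 1)) :=
  gain_of_rot (N := tG3) (D := qG3) hR hg rfl (rotG3 h g0 g2 g4) lab_G3 gqs_G3 hL good_G3A

/-- **The place P2 has gain.** -/
theorem gainP_P2 (hR : C5 R) (hg : Uni91.Good (sP2.pl (fP2 R d)) G) (h : T1FF.Good R d 7)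
    (g0 : T1FF.Good R (ac R d 0) 5) (g1 : T1FF.Good R (ac R d 1) 5)
    (g3 : T1FF.Good R (ac R d 3) 5) (g5 : T1FF.Good R (ac R d 5) 5)
    (hL : ∀ d : G.Dart, sz R d ≤ L) : GainP G (sP2.pl (fP2 R d)) (10 * (L + 1)) :=
  gain_of_rot (N := tP2) (D := qP2) hR hg rfl (rotP2 h g0 g1 g3 g5) lab_P2 gqs_P2 hL good_P2A

/-- **The place G2R has gain.** -/
theorem gainP_G2R {com bad : List (ℕ × ℕ)} (hR : C5 R)
    (hg : Uni91.Good (⟨T1Red.G2R, [], T1Red.psG2R, [], [(3, 8)], com, bad, fG2R R d⟩ : Place V) G)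
    (h : T1FF.Good R d 7)
    (g0 : T1FF.Good R (ac R d 0) 5) (g1 : T1FF.Good R (ac R d 1) 5)
    (g4 : T1FF.Good R (ac R d 4) 5) (gr : T1FF.Good R (ac R (ac R d 4) 2) 5)
    (hL : ∀ d : G.Dart, sz R d ≤ L) :
    GainP G (⟨T1Red.G2R, [], T1Red.psG2R, [], [(3, 8)], com, bad, fG2R R d⟩ : Place V)
      (10 * (L + 1)) :=
  gain_of_rot (N := tG2R) (D := qG2R) hR hg rfl (rotG2R h g0 g1 g4 gr) lab_G2R gqs_G2R hL
    good_G2RA

end Pool.Agent.RingB
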