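import Pool.Agent.Work.MP_392c8e_co_red.Inc

/-!
# A discrete inequality of Gauss and Bonnet

A multigraph `s t : E → V` with algebraic dual `l r : E → F` and a nonempty set `U` of vertices.
The faces all of whose edges lie inside `U` are at least as many as the number of edges inside `U`
minus the number of vertices of `U` minus the number of edges leaving `U`, plus two.
-/

set_option autoImplicit false
set_option linter.unusedSectionVars false

namespace Pool.Agent.Uni392

open Finset Module Matrix
open Pool.Agent.Red (inc Full Orth Conn transpose_mulVec)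

/-- The rank of an incidence matrix. -/
theorem rank_inc_le {V E : Type*} [Fintype V] [DecidableEq V] [Fintype E] [DecidableEq E]
    [Nonempty V] (s t : E → V) : (inc s t).rank + 1 ≤ Fintype.card V := by
  classical
  rw [← Matrix.rank_transpose]
  have h1 := LinearMap.finrank_range_add_finrank_ker ((inc s t)ᵀ.mulVecLin)
  rw [Module.finrank_fintype_fun_eq_card] at h1
  have h2 : (fun _ : V => (1 : ℚ)) ∈ LinearMap.ker ((inc s t)ᵀ.mulVecLin) := by
    rw [LinearMap.mem_ker]
    ext e
    rw [mulVecLin_apply, transpose_mulVec]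
    simp
  have h3 : 0 < finrank ℚ (LinearMap.ker ((inc s t)ᵀ.mulVecLin)) := by
    rw [Module.finrank_pos_iff]
    refine ⟨⟨⟨_, h2⟩, 0, fun h4 => ?_⟩⟩
    obtain ⟨v0⟩ := ‹Nonempty V›
    have h5 := congrFun (congrArg Subtype.val h4) v0
    simp at h5
  have h4 : finrank ℚ (LinearMap.range (inc s t)ᵀ.mulVecLin) = (inc s t)ᵀ.rank := rfl
  omega

variable {V E F : Type*} [Fintype V] [DecidableEq V] [Fintype E] [DecidableEq E] [Fintype F]
  [DecidableEq F]

/-- The faces which are joined by edges not inside `U`. -/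
def glue (s t : E → V) (l r : E → F) (U : Finset V) : Setoid F :=
  Relation.EqvGen.setoid fun x y => ∃ e, ¬ (s e ∈ U ∧ t e ∈ U) ∧ l e = x ∧ r e = y

omit [Fintype V] [Fintype E] [DecidableEq E] [Fintype F] [DecidableEq F] in
theorem glue_edge {s t : E → V} {l r : E → F} {U : Finset V} {e : E}
    (h : ¬ (s e ∈ U ∧ t e ∈ U)) : glue s t l r U (l e) (r e) :=
  Relation.EqvGen.rel _ _ ⟨e, h, rfl, rfl⟩

/-- **The rank argument.** -/
theorem card_glue {s t : E → V} {l r : E → F} (hf : Full s t l r) (U : Finset V)
    (hU : U.Nonempty) (hF : Nonempty F) :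
    (univ.filter fun e => s e ∈ U ∧ t e ∈ U).card + 2 ≤
      U.card + Nat.card (Quotient (glue s t l r U)) := by
  classical
  let s' : {e // s e ∈ U ∧ t e ∈ U} → {v // v ∈ U} := fun e => ⟨s e.1, e.2.1⟩
  let t' : {e // s e ∈ U ∧ t e ∈ U} → {v // v ∈ U} := fun e => ⟨t e.1, e.2.2⟩
  have hne : Nonempty {v // v ∈ U} := ⟨⟨hU.choose, hU.choose_spec⟩⟩
  have h1 := rank_inc_le s' t'
  have h2 := LinearMap.finrank_range_add_finrank_ker ((inc s' t').mulVecLin)
  rw [Module.finrank_fintype_fun_eq_card] at h2
  have h3 : finrank ℚ (LinearMap.range (inc s' t').mulVecLin) = (inc s' t').rank := rfl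
  let inst : Fintype (Quotient (glue s t l r U)) := Fintype.ofFinite _
  have hne' : Nonempty (Quotient (glue s t l r U)) := hF.map fun x => ⟦x⟧
  let l' : E → Quotient (glue s t l r U) := fun e => ⟦l e⟧
  let r' : E → Quotient (glue s t l r U) := fun e => ⟦r e⟧
  have h4 := rank_inc_le r' l'
  rw [← Matrix.rank_transpose] at h4
  let X : ({e // s e ∈ U ∧ t e ∈ U} → ℚ) →ₗ[ℚ] (E → ℚ) :=
    Function.ExtendByZero.linearMap ℚ Subtype.val
  have hX1 : ∀ g (e : E) (he : s e ∈ U ∧ t e ∈ U), X g e = g ⟨e, he⟩ := by
    intro g e he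
    show Function.extend Subtype.val g 0 e = _
    exact Subtype.val_injective.extend_apply g 0 (⟨e, he⟩ : {e // s e ∈ U ∧ t e ∈ U})
  have hX2 : ∀ g (e : E), ¬ (s e ∈ U ∧ t e ∈ U) → X g e = 0 := by
    intro g e he
    show Function.extend Subtype.val g 0 e = _
    rw [Function.extend_apply']
    · rfl
    · rintro ⟨a, rfl⟩
      exact he a.2
  have hXinj : Function.Injective X := by
    intro g g' hgg
    ext ⟨e, he⟩
    rw [← hX1 g e he, ← hX1 g' e he, hgg]
  have h5 : (LinearMap.ker (inc s' t').mulVecLin).map X ≤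
      LinearMap.range (inc r' l')ᵀ.mulVecLin := by
    rintro _ ⟨g, hg, rfl⟩
    have hg' : (inc s' t') *ᵥ g = 0 := by
      have := LinearMap.mem_ker.1 hg
      rwa [mulVecLin_apply] at this
    obtain ⟨φ, hφ⟩ := hf (X g) (by
      intro v
      by_cases hv : v ∈ U
      · have h6 := congrFun hg' ⟨v, hv⟩
        rw [Pi.zero_apply] at h6
        have h7 : ∑ e, inc s t v e * X g e =
            ∑ e ∈ univ.filter (fun e => s e ∈ U ∧ t e ∈ U), inc s t v e * X g e := by
          symm
          apply Finset.sum_filter_of_ne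
          intro e _ he
          by_contra hcon
          apply he
          rw [hX2 g e hcon, mul_zero]
        rw [h7, ← h6]
        show _ = ∑ e, inc s' t' ⟨v, hv⟩ e * g e
        rw [Finset.sum_subtype (p := fun e => s e ∈ U ∧ t e ∈ U) _ (by simp)]
        refine Finset.sum_congr rfl fun e _ => ?_
        rw [hX1 g e.1 e.2]
        congr 1
        show (if t e.1 = v then (1 : ℚ) else 0) - (if s e.1 = v then 1 else 0) =
          (if t' e = ⟨v, hv⟩ then (1 : ℚ) else 0) - (if s' e = ⟨v, hv⟩ then 1 else 0)
        have i1 : t e.1 = v ↔ t' e = ⟨v, hv⟩ :=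
          ⟨fun h => Subtype.ext h, fun h => congrArg Subtype.val h⟩
        have i2 : s e.1 = v ↔ s' e = ⟨v, hv⟩ :=
          ⟨fun h => Subtype.ext h, fun h => congrArg Subtype.val h⟩
        rw [if_congr i1 rfl rfl, if_congr i2 rfl rfl]
      · refine Finset.sum_eq_zero fun e _ => ?_
        by_cases he : s e ∈ U ∧ t e ∈ U
        · have h6 : inc s t v e = 0 := by
            show (if t e = v then (1 : ℚ) else 0) - (if s e = v then 1 else 0) = 0
            rw [if_neg (fun h : t e = v => hv (h ▸ he.2)),
              if_neg (fun h : s e = v => hv (h ▸ he.1)), sub_zero]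
          rw [h6, zero_mul]
        · rw [hX2 g e he, mul_zero])
    have hconst : ∀ x y, glue s t l r U x y → φ x = φ y := by
      intro x y hxy
      have hxy' : Relation.EqvGen
        (fun x y => ∃ e, ¬ (s e ∈ U ∧ t e ∈ U) ∧ l e = x ∧ r e = y) x y := hxy
      induction hxy' with
      | rel x y h =>
        obtain ⟨e, he, rfl, rfl⟩ := h
        have h6 := hφ e
        rw [hX2 g e he] at h6
        linarith
      | refl x => rfl
      | symm x y h ih => exact (ih h).symm
      | trans x y z h1 h2 ih1 ih2 => exact (ih1 h1).trans (ih2 h2)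
    refine ⟨Quotient.lift φ hconst, ?_⟩
    ext e
    rw [mulVecLin_apply, transpose_mulVec, hφ]
    rfl
  have h6 := Submodule.finrank_mono h5
  have h7 : finrank ℚ ((LinearMap.ker (inc s' t').mulVecLin).map X) =
      finrank ℚ (LinearMap.ker (inc s' t').mulVecLin) :=
    (LinearEquiv.finrank_eq (Submodule.equivMapOfInjective X hXinj _)).symm
  have h8 : finrank ℚ (LinearMap.range (inc r' l')ᵀ.mulVecLin) = (inc r' l')ᵀ.rank := rfl
  have h9 : Fintype.card {e // s e ∈ U ∧ t e ∈ U} =
      (univ.filter fun e => s e ∈ U ∧ t e ∈ U).card := Fintype.card_subtype _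
  have h10 : Fintype.card {v // v ∈ U} = U.card := Fintype.card_coe U
  rw [Nat.card_eq_fintype_card]
  omega

/-- The faces all of whose edges are inside `U`. -/
def Inside (s t : E → V) (l r : E → F) (U : Finset V) (f : F) : Prop :=
  ∀ e, (l e = f ∨ r e = f) → s e ∈ U ∧ t e ∈ U

/-- The edges at a vertex are joined by the faces around it. -/
def Around (s t : E → V) (l r : E → F) : Prop :=
  ∀ (x : V) (Q : Setoid F), (∀ e, (s e = x ∨ t e = x) → Q (l e) (r e)) →
    ∀ e e', (s e = x ∨ t e = x) → (s e' = x ∨ t e' = x) → Q (l e) (l e')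

omit [Fintype V] [Fintype E] [DecidableEq E] [Fintype F] [DecidableEq F] in
/-- Every edge not inside `U` is joined to an edge leaving `U`. -/
theorem exists_leave {s t : E → V} {l r : E → F} (hc : Conn s t) (ha : Around s t l r)
    (U : Finset V) (hU : U.Nonempty) (e : E) (he : ¬ (s e ∈ U ∧ t e ∈ U)) :
    ∃ e', ¬ (s e' ∈ U ↔ t e' ∈ U) ∧ glue s t l r U (l e) (l e') := by
  classical
  by_contra hcon
  push Not at hcon
  have hcon' : ∀ e', ¬ (s e' ∈ U ↔ t e' ∈ U) → ¬ glue s t l r U (l e) (l e') := by
    intro e' h1 h2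
    exact hcon e' (by tauto) h2
  have hat : ∀ x, x ∉ U → ∀ e e', (s e = x ∨ t e = x) → (s e' = x ∨ t e' = x) →
      glue s t l r U (l e) (l e') := by
    intro x hx
    refine ha x (glue s t l r U) fun e he => glue_edge ?_
    rintro ⟨h1, h2⟩
    rcases he with rfl | rfl
    · exact hx h1
    · exact hx h2
  let P : V → Prop := fun x => x ∉ U ∧ ∃ e', (s e' = x ∨ t e' = x) ∧ glue s t l r U (l e) (l e')
  have hP : ∀ x, x ∉ U → ∀ e', (s e' = x ∨ t e' = x) →
      (P x ↔ glue s t l r U (l e) (l e')) := by
    intro x hx e' he'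
    constructor
    · rintro ⟨-, e2, h1, h2⟩
      exact (glue s t l r U).trans h2 (hat x hx e2 e' h1 he')
    · intro h
      exact ⟨hx, e', he', h⟩
  have hPU : ∀ x, x ∈ U → ¬ P x := fun x hx h => h.1 hx
  have hconst := hc (fun x => if P x then 1 else 0) (by
    intro e'
    have key : P (s e') ↔ P (t e') := by
      by_cases h1 : s e' ∈ U
      · by_cases h2 : t e' ∈ U
        · exact iff_of_false (hPU _ h1) (hPU _ h2)
        · refine iff_of_false (hPU _ h1) ?_
          rw [hP _ h2 e' (Or.inr rfl)]
          exact hcon' e' (by tauto)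
      · by_cases h2 : t e' ∈ U
        · refine iff_of_false ?_ (hPU _ h2)
          rw [hP _ h1 e' (Or.inl rfl)]
          exact hcon' e' (by tauto)
        · rw [hP _ h1 e' (Or.inl rfl), hP _ h2 e' (Or.inr rfl)]
    exact if_congr key rfl rfl)
  obtain ⟨u, hu⟩ := hU
  have hex : ∃ x, P x := by
    by_cases h1 : s e ∈ U
    · have h2 : t e ∉ U := fun h2 => he ⟨h1, h2⟩
      exact ⟨t e, h2, e, Or.inr rfl, (glue s t l r U).refl _⟩
    · exact ⟨s e, h1, e, Or.inl rfl, (glue s t l r U).refl _⟩
  obtain ⟨x, hx⟩ := hex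
  have h1 := hconst x u
  simp only [if_pos hx, if_neg (hPU u hu)] at h1
  exact one_ne_zero h1

/-- The number of classes of faces. -/
theorem card_glue_le {s t : E → V} {l r : E → F} (hc : Conn s t) (ha : Around s t l r)
    (U : Finset V) (hU : U.Nonempty) [DecidablePred (Inside s t l r U)] :
    Nat.card (Quotient (glue s t l r U)) ≤ (univ.filter fun f => Inside s t l r U f).card +
      (univ.filter fun e => ¬ (s e ∈ U ↔ t e ∈ U)).card := by
  classical
  have h1 : Nat.card ({f // f ∈ univ.filter fun f => Inside s t l r U f} ⊕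
      {e // e ∈ univ.filter fun e => ¬ (s e ∈ U ↔ t e ∈ U)}) =
      (univ.filter fun f => Inside s t l r U f).card +
      (univ.filter fun e => ¬ (s e ∈ U ↔ t e ∈ U)).card := by
    rw [Nat.card_sum, Nat.card_eq_fintype_card, Nat.card_eq_fintype_card, Fintype.card_coe,
      Fintype.card_coe]
  rw [← h1]
  refine Nat.card_le_card_of_surjective (Sum.elim
    (fun f => (⟦f.1⟧ : Quotient (glue s t l r U)))
    (fun e => (⟦l e.1⟧ : Quotient (glue s t l r U)))) ?_
  intro y
  induction y using Quotient.inductionOn with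
  | _ f =>
    by_cases hf : Inside s t l r U f
    · exact ⟨Sum.inl ⟨f, by simpa using hf⟩, rfl⟩
    · have hf' : ∃ e, (l e = f ∨ r e = f) ∧ ¬ (s e ∈ U ∧ t e ∈ U) := by
        unfold Inside at hf
        push Not at hf
        obtain ⟨e, h2, h3⟩ := hf
        exact ⟨e, h2, fun h4 => h3 h4.1 h4.2⟩
      obtain ⟨e, h2, h3⟩ := hf'
      obtain ⟨e', h4, h5⟩ := exists_leave hc ha U hU e h3
      refine ⟨Sum.inr ⟨e', by simpa using h4⟩, ?_⟩
      apply Quotient.sound
      show glue s t l r U (l e') f
      refine (glue s t l r U).trans ((glue s t l r U).symm h5) ?_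
      rcases h2 with rfl | rfl
      · exact (glue s t l r U).refl _
      · exact glue_edge h3

/-- **Gauss and Bonnet, the number of inner faces.** -/
theorem inside_ge {s t : E → V} {l r : E → F} (hf : Full s t l r) (hc : Conn s t)
    (ha : Around s t l r) (hF : Nonempty F) (U : Finset V) (hU : U.Nonempty)
    [DecidablePred (Inside s t l r U)] :
    (univ.filter fun e => s e ∈ U ∧ t e ∈ U).card + 2 ≤
      U.card + (univ.filter fun f => Inside s t l r U f).card +
      (univ.filter fun e => ¬ (s e ∈ U ↔ t e ∈ U)).card := by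
  have h1 := card_glue hf U hU hF
  have h2 := card_glue_le hc ha U hU
  omega

omit [Fintype V] [DecidableEq E] in
/-- The sum of the degrees in a set of vertices. -/
theorem degree_sum (s t : E → V) (U : Finset V) :
    ∑ v ∈ U, ((univ.filter fun e => s e = v).card + (univ.filter fun e => t e = v).card) =
      2 * (univ.filter fun e => s e ∈ U ∧ t e ∈ U).card +
      (univ.filter fun e => ¬ (s e ∈ U ↔ t e ∈ U)).card := by
  classical
  have h1 : ∀ a : E → V, ∑ v ∈ U, (univ.filter fun e => a e = v).card =
      (univ.filter fun e => a e ∈ U).card := by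
    intro a
    rw [Finset.card_eq_sum_card_fiberwise (f := a) (t := U) (by
      intro e he
      simpa using he)]
    refine Finset.sum_congr rfl fun v hv => ?_
    congr 1
    ext e
    simp only [Finset.mem_filter, Finset.mem_univ, true_and]
    constructor
    · rintro rfl
      exact ⟨hv, rfl⟩
    · exact fun h => h.2
  rw [Finset.sum_add_distrib, h1, h1]
  have h2 : ∀ P : E → Prop, ∀ [DecidablePred P], (univ.filter P).card = ∑ e, if P e then 1 else 0 :=
    fun P _ => Finset.card_filter _ _
  rw [h2, h2, h2, h2, Finset.mul_sum, ← Finset.sum_add_distrib, ← Finset.sum_add_distrib]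
  refine Finset.sum_congr rfl fun e _ => ?_
  by_cases h3 : s e ∈ U <;> by_cases h4 : t e ∈ U <;> simp [h3, h4]

/-- The length of a face. -/
def len (l r : E → F) (f : F) : ℕ :=
  (univ.filter fun e => l e = f).card + (univ.filter fun e => r e = f).card

/-- **The inequality of Gauss and Bonnet** for a nonempty set of vertices of degree three. -/
theorem gauss_bonnet {s t : E → V} {l r : E → F} (hf : Full s t l r) (hc : Conn s t)
    (ha : Around s t l r) (hlr : ∀ f, ∃ e, l e = f ∨ r e = f) (hE : Nonempty E)
    (U : Finset V) (hU : U.Nonempty)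
    (hdeg : ∀ v ∈ U, (univ.filter fun e => s e = v).card + (univ.filter fun e => t e = v).card = 3) :
    (U.card : ℚ) / 2 + 2 - 3 / 2 * ((univ.filter fun e => ¬ (s e ∈ U ↔ t e ∈ U)).card : ℚ) ≤
      ∑ e, ((if s e ∈ U then 1 / (len l r (l e) : ℚ) else 0) +
        (if t e ∈ U then 1 / (len l r (r e) : ℚ) else 0)) := by
  classical
  have hF : Nonempty F := hE.map l
  have h1 := inside_ge hf hc ha hF U hU
  have h2 := degree_sum s t U
  rw [Finset.sum_congr rfl hdeg, Finset.sum_const, smul_eq_mul] at h2
  have h3 : ((univ.filter fun f => Inside s t l r U f).card : ℚ) ≤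
      ∑ e, ((if s e ∈ U then 1 / (len l r (l e) : ℚ) else 0) +
        (if t e ∈ U then 1 / (len l r (r e) : ℚ) else 0)) := by
    -- distribute over the faces
    have h4 : ∀ (a : E → V) (b : E → F), ∑ e, (if a e ∈ U then 1 / (len l r (b e) : ℚ) else 0) =
        ∑ f, ∑ e ∈ univ.filter (fun e => b e = f), (if a e ∈ U then 1 / (len l r f : ℚ) else 0) := by
      intro a b
      rw [← Finset.sum_fiberwise_of_maps_to (s := univ) (t := univ) (g := b)
        (fun _ _ => Finset.mem_univ _)]
      refine Finset.sum_congr rfl fun f _ => Finset.sum_congr rfl fun e he => ?_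
      rw [(Finset.mem_filter.1 he).2]
    rw [Finset.sum_add_distrib, h4 s l, h4 t r, ← Finset.sum_add_distrib]
    have h5 : ((univ.filter fun f => Inside s t l r U f).card : ℚ) =
        ∑ f ∈ univ.filter (fun f => Inside s t l r U f), (1 : ℚ) := by
      rw [Finset.sum_const, nsmul_eq_mul, mul_one]
    rw [h5]
    refine le_trans (Finset.sum_le_sum (g := fun f =>
      ∑ e ∈ univ.filter (fun e => l e = f), (if s e ∈ U then 1 / (len l r f : ℚ) else 0) +
      ∑ e ∈ univ.filter (fun e => r e = f), (if t e ∈ U then 1 / (len l r f : ℚ) else 0))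
      fun f hf => ?_) (Finset.sum_le_sum_of_subset_of_nonneg (Finset.subset_univ _)
        fun f _ _ => ?_)
    · have hin : Inside s t l r U f := (Finset.mem_filter.1 hf).2
      have h6 : ∑ e ∈ univ.filter (fun e => l e = f),
          (if s e ∈ U then 1 / (len l r f : ℚ) else 0) =
          ((univ.filter fun e => l e = f).card : ℚ) * (1 / (len l r f : ℚ)) := by
        rw [Finset.sum_congr rfl (g := fun _ => 1 / (len l r f : ℚ)) (fun e he => by
          rw [if_pos (hin e (Or.inl (Finset.mem_filter.1 he).2)).1]), Finset.sum_const,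
          nsmul_eq_mul]
      have h7 : ∑ e ∈ univ.filter (fun e => r e = f),
          (if t e ∈ U then 1 / (len l r f : ℚ) else 0) =
          ((univ.filter fun e => r e = f).card : ℚ) * (1 / (len l r f : ℚ)) := by
        rw [Finset.sum_congr rfl (g := fun _ => 1 / (len l r f : ℚ)) (fun e he => by
          rw [if_pos (hin e (Or.inr (Finset.mem_filter.1 he).2)).2]), Finset.sum_const,
          nsmul_eq_mul]
      rw [h6, h7, ← add_mul]
      have h8 : (((univ.filter fun e => l e = f).card : ℚ) +
          ((univ.filter fun e => r e = f).card : ℚ)) = (len l r f : ℚ) := by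
        unfold len
        push_cast
        rfl
      rw [h8]
      have h9 : 0 < len l r f := by
        obtain ⟨e, he⟩ := hlr f
        unfold len
        rcases he with he | he
        · have : 0 < (univ.filter fun e => l e = f).card :=
            Finset.card_pos.2 ⟨e, by simpa using he⟩
          omega
        · have : 0 < (univ.filter fun e => r e = f).card :=
            Finset.card_pos.2 ⟨e, by simpa using he⟩
          omega
      have h10 : (len l r f : ℚ) ≠ 0 := by
        exact_mod_cast h9.ne'
      rw [mul_one_div, div_self h10]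
    · refine add_nonneg ?_ ?_ <;>
      · refine Finset.sum_nonneg fun e _ => ?_
        split_ifs
        · positivity
        · exact le_rfl
  have h11 : ((univ.filter fun e => s e ∈ U ∧ t e ∈ U).card : ℚ) + 2 ≤
      (U.card : ℚ) + ((univ.filter fun f => Inside s t l r U f).card : ℚ) +
      ((univ.filter fun e => ¬ (s e ∈ U ↔ t e ∈ U)).card : ℚ) := by
    exact_mod_cast h1
  have h12 : (U.card : ℚ) * 3 = 2 * ((univ.filter fun e => s e ∈ U ∧ t e ∈ U).card : ℚ) +
      ((univ.filter fun e => ¬ (s e ∈ U ↔ t e ∈ U)).card : ℚ) := by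
    exact_mod_cast h2
  linarith

end Pool.Agent.Uni392
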