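import Pool.Agent.Work.MP_392c8e_co_uni.RedG
import Pool.Agent.Work.MP_392c8e_co_uni.TabG
import Pool.Agent.Work.MP_392c8e_co_uni.GeoNo5

/-!
# The patches G1
-/

namespace Pool.Agent.U2Geo

open Pool.T1Side Pool.Agent.T1Red Pool.Agent.T1FF Pool.Agent.Sub392 Pool.Agent.T392

set_option linter.unusedSectionVars false

/-- The common steps. -/
def stepsG1 : List StepL :=
  [.ne 0 1 (.base (.tri 0 14 15)), .ne 0 9 (.base (.tri 0 14 15)),
  .ne 0 12 (.base (.tri 0 13 14)), .ne 0 23 (.base (.tri 0 13 14)),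
  .ne 1 10 (.base (.tri 1 9 15)), .ne 1 13 (.base (.tri 1 14 15)), .ne 1 16 (.base (.tri 1 9 15)),
  .ne 2 3 (.base (.tri 2 16 17)), .ne 2 10 (.base (.tri 2 16 9)), .ne 2 15 (.base (.tri 2 16 9)),
  .ne 2 18 (.base (.tri 2 16 17)), .ne 3 9 (.base (.tri 3 16 17)),
  .ne 3 10 (.base (.tri 3 17 18)), .ne 3 19 (.base (.tri 3 17 18)),
  .ne 4 5 (.base (.tri 4 19 20)), .ne 4 10 (.base (.tri 4 19 18)),
  .ne 4 11 (.base (.tri 4 19 20)), .ne 4 17 (.base (.tri 4 19 18)),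
  .ne 5 10 (.base (.tri 5 11 20)), .ne 5 12 (.base (.tri 5 11 20)),
  .ne 5 18 (.base (.tri 5 19 20)), .ne 6 7 (.base (.tri 6 21 22)),
  .ne 6 11 (.base (.tri 6 12 21)), .ne 6 13 (.base (.tri 6 12 21)),
  .ne 6 23 (.base (.tri 6 21 22)), .ne 7 8 (.base (.tri 7 22 23)),
  .ne 7 12 (.base (.tri 7 21 22)), .ne 7 13 (.base (.tri 7 22 23)),
  .ne 8 12 (.base (.tri 8 13 23)), .ne 8 14 (.base (.tri 8 23 13)),
  .ne 8 21 (.base (.tri 8 22 23)), .ne 9 12 (.base (.tri 9 10 11)),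
  .ne 9 13 (.base (.tri 9 14 15)), .ne 9 19 (.base (.tri 9 10 18)),
  .ne 9 20 (.base (.tri 9 10 11)), .ne 10 13 (.base (.tri 10 11 12)),
  .ne 10 14 (.base (.tri 10 9 15)), .ne 10 21 (.base (.tri 10 11 12)),
  .ne 11 14 (.base (.tri 11 12 13)), .ne 11 15 (.base (.tri 11 9 10)),
  .ne 11 16 (.base (.tri 11 9 10)), .ne 11 17 (.base (.tri 11 10 18)),
  .ne 11 22 (.base (.tri 11 12 21)), .ne 11 23 (.base (.tri 11 12 13)),
  .ne 12 15 (.base (.tri 12 13 14)), .ne 12 18 (.base (.tri 12 10 11)),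
  .ne 12 19 (.base (.tri 12 11 20)), .ne 13 20 (.base (.tri 13 11 12)),
  .ne 14 16 (.base (.tri 14 9 15)), .ne 14 21 (.base (.tri 14 12 13)),
  .ne 14 22 (.base (.tri 14 13 23)), .ne 15 17 (.base (.tri 15 9 16)),
  .ne 15 18 (.base (.tri 15 9 10)), .ne 15 23 (.base (.tri 15 13 14)),
  .ne 16 19 (.base (.tri 16 17 18)), .ne 17 20 (.base (.tri 17 18 19)),
  .ne 20 21 (.base (.tri 20 11 12)), .ne 0 8 (.four 14 13 23 0), .ne 0 10 (.four 0 9 15 14),
  .ne 0 11 (.four 0 12 13 14), .ne 0 16 (.four 0 9 15 14), .ne 0 21 (.four 0 12 13 14),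
  .ne 0 22 (.four 14 13 23 0), .ne 1 2 (.four 15 9 16 1), .ne 1 11 (.four 1 10 9 15),
  .ne 1 12 (.four 1 13 14 15), .ne 1 17 (.four 15 9 16 1), .ne 1 18 (.four 1 10 9 15),
  .ne 1 23 (.four 1 13 14 15), .ne 2 11 (.four 2 10 9 16), .ne 2 14 (.four 2 15 9 16),
  .ne 2 19 (.four 16 17 18 2), .ne 3 4 (.four 17 18 19 3), .ne 3 11 (.four 3 10 18 17),
  .ne 3 15 (.four 3 9 16 17), .ne 3 20 (.four 17 18 19 3), .ne 4 9 (.four 4 10 18 19),
  .ne 4 12 (.four 4 11 20 19), .ne 4 16 (.four 4 17 18 19), .ne 5 9 (.four 5 10 11 20),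
  .ne 5 13 (.four 5 12 11 20), .ne 5 17 (.four 5 18 19 20), .ne 5 21 (.four 5 12 11 20),
  .ne 6 8 (.four 21 22 23 6), .ne 6 10 (.four 6 11 12 21), .ne 6 14 (.four 6 13 12 21),
  .ne 6 20 (.four 6 11 12 21), .ne 7 11 (.four 7 12 21 22), .ne 7 14 (.four 7 13 23 22),
  .ne 8 11 (.four 8 12 13 23), .ne 8 15 (.four 8 14 13 23), .ne 9 21 (.four 9 10 11 12),
  .ne 9 23 (.four 9 13 14 15), .ne 10 22 (.four 10 11 12 21), .ne 10 23 (.four 10 11 12 13),
  .ne 12 16 (.four 12 9 10 11), .ne 12 17 (.four 12 11 10 18), .ne 13 16 (.four 13 9 15 14),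
  .ne 13 18 (.four 13 10 11 12), .ne 13 19 (.four 13 12 11 20), .ne 14 17 (.four 14 15 9 16),
  .ne 14 18 (.four 14 10 9 15), .ne 14 20 (.four 14 11 12 13), .ne 15 19 (.four 15 9 10 18),
  .ne 15 20 (.four 15 9 10 11), .ne 15 21 (.four 15 12 13 14), .ne 15 22 (.four 15 14 13 23),
  .ne 16 20 (.four 16 9 10 11), .ne 18 21 (.four 18 10 11 12), .ne 19 21 (.four 19 12 11 20),
  .ne 20 22 (.four 20 11 12 21), .ne 20 23 (.four 20 11 12 13),
  .ne 0 2 (.base (.corner 14 15 9 [16, 0] [10, 11, 12, 13])),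
  .ne 0 6 (.base (.corner 14 13 12 [21, 0] [11, 10, 9, 15])),
  .ne 0 7 (.base (.corner 13 23 22 [0, 14] [21, 12])),
  .ne 0 17 (.base (.corner 14 15 9 [16, 0] [10, 11, 12, 13])),
  .ne 0 18 (.base (.corner 0 10 9 [15, 14] [16, 17])),
  .ne 0 20 (.base (.corner 11 12 13 [14, 0] [14, 15, 9, 10])),
  .ne 1 3 (.base (.corner 9 16 17 [1, 15] [18, 10])),
  .ne 1 8 (.base (.corner 15 14 13 [23, 1] [12, 11, 10, 9])),
  .ne 1 19 (.base (.corner 15 9 10 [18, 1] [11, 12, 13, 14])),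
  .ne 1 20 (.base (.corner 1 11 10 [9, 15] [18, 19])),
  .ne 1 21 (.base (.corner 1 12 13 [14, 15] [23, 22])),
  .ne 1 22 (.base (.corner 15 14 13 [23, 1] [12, 11, 10, 9])),
  .ne 2 4 (.base (.corner 16 17 18 [19, 2] [10, 9])),
  .ne 2 12 (.base (.corner 2 11 10 [9, 16] [9, 15, 14, 13])),
  .ne 2 13 (.base (.corner 2 14 15 [9, 16] [9, 10, 11, 12])),
  .ne 2 20 (.base (.corner 2 11 10 [9, 16] [18, 19])),
  .ne 3 5 (.base (.corner 18 19 20 [3, 17] [11, 10])),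
  .ne 3 12 (.base (.corner 3 11 10 [18, 17] [9, 15, 14, 13])),
  .ne 3 14 (.base (.corner 3 15 9 [16, 17] [10, 11, 12, 13])),
  .ne 4 13 (.base (.corner 4 12 11 [20, 19] [10, 9, 15, 14])),
  .ne 4 15 (.base (.corner 4 9 10 [18, 19] [11, 12, 13, 14])),
  .ne 4 21 (.base (.corner 11 20 19 [4, 12] [18, 10])), .ne 5 6 (.five 20 11 12 21 5),
  .ne 5 14 (.base (.corner 5 13 12 [11, 20] [11, 10, 9, 15])),
  .ne 5 15 (.base (.corner 5 9 10 [11, 20] [11, 12, 13, 14])),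
  .ne 5 16 (.base (.corner 5 9 10 [11, 20] [18, 17])),
  .ne 5 22 (.base (.corner 12 21 5 [20, 11] [23, 13])),
  .ne 5 23 (.base (.corner 5 13 12 [11, 20] [21, 22])),
  .ne 6 9 (.base (.corner 6 10 11 [12, 21] [12, 13, 14, 15])),
  .ne 6 15 (.base (.corner 6 14 13 [12, 21] [12, 11, 10, 9])),
  .ne 6 18 (.base (.corner 6 10 11 [12, 21] [20, 19])),
  .ne 6 19 (.base (.corner 6 20 11 [12, 21] [10, 18])),
  .ne 7 10 (.base (.corner 7 11 12 [21, 22] [13, 14, 15, 9])),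
  .ne 7 15 (.base (.corner 7 14 13 [23, 22] [12, 11, 10, 9])),
  .ne 7 20 (.base (.corner 12 21 22 [7, 11] [23, 13])),
  .ne 8 9 (.base (.corner 8 15 14 [13, 23] [13, 12, 11, 10])),
  .ne 8 10 (.base (.corner 8 11 12 [13, 23] [13, 14, 15, 9])),
  .ne 8 20 (.base (.corner 11 12 13 [23, 8] [14, 15, 9, 10])),
  .ne 9 22 (.base (.corner 9 10 11 [12, 21] [12, 13, 14, 15])),
  .ne 13 17 (.base (.corner 13 12 11 [10, 18] [10, 9, 15, 14])),
  .ne 14 19 (.base (.corner 14 13 12 [11, 20] [11, 10, 9, 15])),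
  .ne 16 21 (.base (.corner 16 9 10 [11, 12] [18, 17])),
  .ne 16 23 (.base (.corner 9 15 14 [13, 16] [13, 12, 11, 10])),
  .ne 17 21 (.base (.corner 12 11 10 [18, 17] [9, 15, 14, 13])),
  .ne 18 22 (.base (.corner 18 10 11 [12, 21] [20, 19])),
  .ne 18 23 (.base (.corner 18 10 11 [12, 13] [20, 19])),
  .ne 19 22 (.base (.corner 19 20 11 [12, 21] [10, 18])),
  .ne 19 23 (.base (.corner 19 13 12 [11, 20] [21, 22])),
  .ne 0 3 (.base (.corner 14 15 9 [16, 17, 0] [10, 11, 12, 13])),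
  .ne 0 5 (.base (.corner 14 13 12 [11, 20, 0] [11, 10, 9, 15])),
  .ne 0 19 (.base (.corner 14 13 12 [11, 20, 0] [11, 10, 9, 15])),
  .ne 1 4 (.base (.corner 15 9 10 [18, 19, 1] [11, 12, 13, 14])),
  .ne 1 5 (.base (.corner 15 9 10 [11, 20, 1] [11, 12, 13, 14])),
  .ne 1 6 (.base (.corner 15 14 13 [12, 21, 1] [12, 11, 10, 9])),
  .ne 1 7 (.base (.corner 15 14 13 [23, 22, 1] [12, 11, 10, 9])),
  .ne 2 5 (.base (.corner 16 9 10 [11, 20, 2] [18, 17])),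
  .ne 2 21 (.base (.corner 12 11 10 [9, 16, 2] [9, 15, 14, 13])),
  .ne 2 23 (.base (.corner 13 14 15 [9, 16, 2] [9, 10, 11, 12])),
  .ne 3 13 (.base (.corner 3 12 11 [10, 18, 17] [10, 9, 15, 14])),
  .ne 3 21 (.base (.corner 12 11 10 [18, 17, 3] [9, 15, 14, 13])),
  .ne 4 6 (.base (.corner 19 20 11 [12, 21, 4] [10, 18])),
  .ne 4 14 (.base (.corner 4 13 12 [11, 20, 19] [11, 10, 9, 15])),
  .ne 4 22 (.base (.corner 19 20 11 [12, 21, 4] [10, 18])),
  .ne 4 23 (.base (.corner 4 13 12 [11, 20, 19] [21, 22])),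
  .ne 5 7 (.base (.corner 12 21 22 [5, 20, 11] [23, 13])),
  .ne 5 8 (.base (.corner 11 12 13 [23, 5, 20] [14, 15, 9, 10])),
  .ne 6 16 (.base (.corner 6 9 10 [11, 12, 21] [18, 17])),
  .ne 6 17 (.base (.corner 6 18 10 [11, 12, 21] [9, 16])),
  .ne 7 9 (.base (.corner 7 10 11 [12, 21, 22] [12, 13, 14, 15])),
  .ne 7 18 (.base (.corner 7 10 11 [12, 21, 22] [20, 19])),
  .ne 7 19 (.base (.corner 7 20 11 [12, 21, 22] [10, 18])),
  .ne 8 16 (.base (.corner 9 15 14 [13, 23, 8] [13, 12, 11, 10])),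
  .ne 8 18 (.base (.corner 8 10 11 [12, 13, 23] [20, 19])),
  .ne 8 19 (.base (.corner 8 20 11 [12, 13, 23] [10, 18])),
  .ne 16 22 (.base (.corner 16 9 10 [11, 12, 21] [18, 17])),
  .ne 17 22 (.base (.corner 17 18 10 [11, 12, 21] [9, 16])),
  .ne 17 23 (.base (.corner 17 13 12 [11, 10, 18] [21, 22])),
  .ne 0 4 (.base (.corner 14 13 12 [11, 20, 19, 0] [11, 10, 9, 15])),
  .ne 2 6 (.base (.corner 16 9 10 [11, 12, 21, 2] [18, 17])),
  .ne 2 8 (.base (.corner 9 15 14 [13, 23, 2, 16] [13, 12, 11, 10])),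
  .ne 2 22 (.base (.corner 16 9 10 [11, 12, 21, 2] [18, 17])),
  .ne 3 6 (.base (.corner 17 18 10 [11, 12, 21, 3] [9, 16])),
  .ne 3 22 (.base (.corner 17 18 10 [11, 12, 21, 3] [9, 16])),
  .ne 3 23 (.base (.corner 3 13 12 [11, 10, 18, 17] [21, 22])),
  .ne 4 7 (.base (.corner 19 20 11 [12, 21, 22, 4] [10, 18])),
  .ne 4 8 (.base (.corner 19 20 11 [12, 13, 23, 4] [10, 18])),
  .ne 7 16 (.base (.corner 7 9 10 [11, 12, 21, 22] [18, 17])),
  .ne 7 17 (.base (.corner 7 18 10 [11, 12, 21, 22] [9, 16])),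
  .ne 8 17 (.base (.corner 8 16 9 [15, 14, 13, 23] [10, 18])),
  .na 2 11 (.base (.corner 11 10 9 [16, 2] [15, 14, 13, 12])),
  .na 16 12 (.base (.corner 16 9 10 [11, 12] [18, 17])),
  .na 9 21 (.base (.corner 9 10 11 [12, 21] [12, 13, 14, 15])),
  .na 10 22 (.base (.corner 10 11 12 [21, 22] [13, 14, 15, 9])),
  .ne 2 7 (.long 16 9 10 [11, 12, 21, 22, 2] [18, 17]),
  .na 3 11 (.base (.corner 11 10 18 [17, 3] [19, 20])),
  .na 17 12 (.base (.corner 12 11 10 [18, 17] [9, 15, 14, 13])),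
  .na 18 21 (.base (.corner 18 10 11 [12, 21] [20, 19])),
  .ne 3 7 (.long 17 18 10 [11, 12, 21, 22, 3] [9, 16]),
  .na 3 15 (.base (.corner 9 16 17 [3, 15] [18, 10])),
  .na 17 14 (.base (.corner 14 15 9 [16, 17] [10, 11, 12, 13])),
  .na 16 13 (.base (.corner 9 15 14 [13, 16] [13, 12, 11, 10])),
  .na 9 23 (.base (.corner 9 15 14 [13, 23] [13, 12, 11, 10])),
  .ne 3 8 (.long 17 16 9 [15, 14, 13, 23, 3] [10, 18])]

/-- The corners of outer faces which have not length five. -/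
def FG1 : List (ℕ × ℕ × ℕ) := [(15, 14, 0), (17, 16, 2), (20, 19, 4), (12, 11, 20)]

theorem finG1c : finL G1c [] [] [(0, 1), (2, 3), (4, 5), (6, 8)] [] FG1
    (stepsG1 ++
      [.cn 0 1 24 (.five 0 14 15 1 24), .cn 2 3 24 (.five 2 16 17 3 24),
      .cn 4 5 24 (.five 4 19 20 5 24), .cn 6 8 24 (.base (.corner 21 22 23 [8, 24, 6] [13, 12]))]) = true := by
  decide +kernel

theorem chkG1c : chk G1c.ed (inner G1c) tG1 = true := by decide +kernel

theorem chkG1cm : chk G1c.ed (inner G1c) tG1m = true := by decide +kernel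

section

variable {V : Type} [Fintype V] [DecidableEq V] {G : SimpleGraph V} [DecidableRel G.Adj]
  {R : Rot G} {d : G.Dart}

/-- A face of length seven with neighbours of length five across the edges 0, 1, 3; the faces across
the edges 2 and 5 and the outer faces at the first two neighbours have not length five. -/
structure IsG1 (R : Rot G) (d : G.Dart) : Prop where
  s : sz R d = 7
  s0 : sz R (ac R d 0) = 5
  s1 : sz R (ac R d 1) = 5
  s3 : sz R (ac R d 3) = 5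
  n2 : sz R (ac R d 2) ≠ 5
  n5 : sz R (ac R d 5) ≠ 5
  n02 : sz R (ac R (ac R d 0) 2) ≠ 5
  n13 : sz R (ac R (ac R d 1) 3) ≠ 5

/-- The mirror image. -/
structure IsG1m (R : Rot G) (d : G.Dart) : Prop where
  s : sz R d = 7
  s3 : sz R (ac R d 3) = 5
  s2 : sz R (ac R d 2) = 5
  s0 : sz R (ac R d 0) = 5
  n1 : sz R (ac R d 1) ≠ 5
  n5 : sz R (ac R d 5) ≠ 5
  n33 : sz R (ac R (ac R d 3) 3) ≠ 5
  n22 : sz R (ac R (ac R d 2) 2) ≠ 5

theorem no5G1 (hh : C5 R) (h : IsG1 R d) : No5 G FG1 (fG1 R d) := by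
  have g1 := hh.good h.s
  have g11 := hh.good h.s1
  have g10 := hh.good h.s0
  intro e he x y
  simp only [FG1, List.mem_cons, List.not_mem_nil, or_false] at he
  rcases he with rfl | rfl | rfl | rfl
  · exact hh.no5a d 5 h.n5 x y
  · have := hh.no5a (ac R d 0) 2 h.n02 x y
    rw [ac_X2] at this
    exact this
  · have := hh.no5a (ac R d 1) 3 h.n13 x y
    rw [show (3 + 1 : ℕ) = 5 - 1 from rfl, g1.ac_last 1 g11 (by norm_num)] at this
    exact this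
  · exact hh.no5a d 2 h.n2 x y

theorem no5G1m (hh : C5 R) (h : IsG1m R d) : No5 G FG1 (fG1m R d) := by
  have g1 := hh.good h.s
  have g13 := hh.good h.s3
  intro e he x y
  simp only [FG1, List.mem_cons, List.not_mem_nil, or_false] at he
  rcases he with rfl | rfl | rfl | rfl
  · exact fun h1 => hh.no5b d 5 h.n5 y x (nb5_reverse h1)
  · intro h1
    have := hh.no5b (ac R d 3) 3 h.n33 y x
    rw [show (3 + 1 : ℕ) = 5 - 1 from rfl, g1.ac_last 3 g13 (by norm_num)] at this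
    exact this (nb5_reverse h1)
  · intro h1
    have := hh.no5b (ac R d 2) 2 h.n22 y x
    rw [ac_X2] at this
    exact this (nb5_reverse h1)
  · exact fun h1 => hh.no5b d 1 h.n1 y x (nb5_reverse h1)

/-- The patch G1 with the free terminal 7. -/
theorem patchG1c (hh : C5 R) (h13 : 13 ≤ Fintype.card V) (h : IsG1 R d) :
    Patch G G1c [] [] [(0, 1), (2, 3), (4, 5), (6, 8)] [] (fG1 R d) :=
  patch_of (hh.cls h13) (tabG1 (hh.good h.s) (hh.good h.s0) (hh.good h.s1)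
    (hh.good h.s3)) chkG1c (no5G1 hh h) finG1c

/-- The mirror image of the patch G1 with the free terminal 7. -/
theorem patchG1cm (hh : C5 R) (h13 : 13 ≤ Fintype.card V) (h : IsG1m R d) :
    Patch G G1c [] [] [(0, 1), (2, 3), (4, 5), (6, 8)] [] (fG1m R d) :=
  patch_of (hh.cls h13) (tabG1m (hh.good h.s) (hh.good h.s0) (hh.good h.s2)
    (hh.good h.s3)) chkG1cm (no5G1m hh h) finG1c

end

end Pool.Agent.U2Geo
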