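import Pool.Agent.Work.MP_392c8e_co_uni.PatchGood
import Pool.Agent.Work.MP_392c8e_co_uni.GeoNo5
import Pool.Agent.Work.MP_392c8e_co_uni.TabP
import Pool.Agent.Work.MP_392c8e_co_uni.Inst.G2Def

/-!
# The place G2

A face of length seven with faces of length five across the edges `0`, `1`, `4`.  The new edges
join the terminals 1-2, 3-4, 6-7, 5-8, the terminal 0 is free.  The three outer faces along the
edges of the pairs 1-2, 3-4, 6-7 have not length five.  The mirror image is the second matching.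
-/

namespace Pool.Agent.U2Geo

open Finset Pool.Agent.Sub392 Pool.T1Side Pool.Agent.T392 Pool.Agent.T1FF Pool.Agent.T1Red
open Pool.Agent.Uni392 (Place)

set_option linter.unusedSectionVars false

/-- Certificate. -/
def tsG2 : List StepL :=
  [.ne 0 10 (.base (.tri 0 9 15)), .ne 0 13 (.base (.tri 0 14 15)), .ne 0 16 (.base (.tri 0 9
  15)), .ne 0 23 (.base (.tri 0 14 15)), .ne 1 2 (.base (.tri 1 16 17)), .ne 1 10 (.base (.tri 1 9
  16)), .ne 1 15 (.base (.tri 1 9 16)), .ne 1 18 (.base (.tri 1 16 17)), .ne 2 9 (.base (.tri 2 16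
  17)), .ne 2 10 (.base (.tri 2 17 18)), .ne 2 19 (.base (.tri 2 17 18)), .ne 3 4 (.base (.tri 3
  19 20)), .ne 3 10 (.base (.tri 3 18 19)), .ne 3 11 (.base (.tri 3 19 20)), .ne 3 17 (.base (.tri
  3 18 19)), .ne 4 10 (.base (.tri 4 11 20)), .ne 4 12 (.base (.tri 4 11 20)), .ne 4 18 (.base
  (.tri 4 19 20)), .ne 5 10 (.base (.tri 5 11 12)), .ne 5 14 (.base (.tri 5 12 13)), .ne 5 20
  (.base (.tri 5 11 12)), .ne 5 21 (.base (.tri 5 12 13)), .ne 6 7 (.base (.tri 6 21 22)), .ne 6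
  12 (.base (.tri 6 13 21)), .ne 6 14 (.base (.tri 6 13 21)), .ne 6 23 (.base (.tri 6 21 22)), .ne
  7 8 (.base (.tri 7 22 23)), .ne 7 13 (.base (.tri 7 21 22)), .ne 7 14 (.base (.tri 7 22 23)),
  .ne 8 13 (.base (.tri 8 14 23)), .ne 8 15 (.base (.tri 8 14 23)), .ne 8 21 (.base (.tri 8 22
  23)), .ne 9 12 (.base (.tri 9 10 11)), .ne 9 13 (.base (.tri 9 14 15)), .ne 9 19 (.base (.tri 9
  10 18)), .ne 9 20 (.base (.tri 9 10 11)), .ne 9 23 (.base (.tri 9 14 15)), .ne 10 13 (.base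
  (.tri 10 11 12)), .ne 10 14 (.base (.tri 9 10 15)), .ne 11 14 (.base (.tri 11 12 13)), .ne 11 15
  (.base (.tri 9 10 11)), .ne 11 16 (.base (.tri 9 10 11)), .ne 11 17 (.base (.tri 10 11 18)), .ne
  11 21 (.base (.tri 11 12 13)), .ne 12 15 (.base (.tri 12 13 14)), .ne 12 18 (.base (.tri 10 11
  12)), .ne 12 19 (.base (.tri 11 12 20)), .ne 12 22 (.base (.tri 12 13 21)), .ne 12 23 (.base
  (.tri 12 13 14)), .ne 13 20 (.base (.tri 11 12 13)), .ne 14 16 (.base (.tri 9 14 15)), .ne 15 17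
  (.base (.tri 9 15 16)), .ne 15 18 (.base (.tri 9 10 15)), .ne 15 21 (.base (.tri 13 14 15)), .ne
  15 22 (.base (.tri 14 15 23)), .ne 16 19 (.base (.tri 16 17 18)), .ne 17 20 (.base (.tri 17 18
  19)), .ne 0 1 (.base (.corner 10 9 15 [0, 16, 17, 18] [14, 13, 12, 11])), .ne 0 8 (.base
  (.corner 0 15 14 [23] [13, 21, 22, 23])), .ne 0 11 (.base (.corner 10 9 15 [0] [14, 13, 12,
  0])), .ne 0 12 (.base (.corner 10 9 15 [0, 11] [14, 13, 0, 11])), .ne 0 17 (.base (.corner 9 10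
  18 [0, 16] [0, 15])), .ne 0 18 (.base (.corner 0 10 9 [16, 17] [15])), .ne 0 21 (.base (.corner
  0 15 14 [23, 22] [13])), .ne 0 22 (.base (.corner 0 15 14 [23] [13, 21])), .ne 1 11 (.five 17 16
  1 10 18), .ne 1 14 (.base (.corner 10 9 15 [1, 16, 17, 18] [1, 13, 12, 11])), .ne 1 19 (.base
  (.corner 10 9 16 [17, 18] [1, 18])), .ne 2 3 (.base (.corner 10 9 16 [17, 18] [17, 2, 19, 18])),
  .ne 2 11 (.base (.corner 10 9 16 [17, 18] [17, 2])), .ne 2 15 (.base (.corner 9 10 18 [17, 16]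
  [17, 2])), .ne 2 20 (.base (.corner 11 10 18 [17, 2] [19, 2])), .ne 3 9 (.five 20 19 3 10 11),
  .ne 3 12 (.base (.corner 11 10 18 [19, 3] [19, 20])), .ne 3 16 (.base (.corner 3 9 10 [18, 17]
  [18, 19])), .ne 4 5 (.base (.corner 11 10 18 [19, 20] [19, 20, 4, 12])), .ne 4 9 (.base (.corner
  10 4 20 [19, 18] [11])), .ne 4 13 (.base (.corner 11 10 18 [19, 20] [19, 20, 4, 12])), .ne 4 17
  (.base (.corner 11 10 18 [19, 20] [4, 20])), .ne 5 6 (.base (.corner 5 12 13 [21] [14, 23, 22,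
  21])), .ne 5 9 (.base (.corner 10 5 12 [11] [11, 20, 19, 18])), .ne 5 15 (.base (.corner 5 9 10
  [11, 12] [11, 12, 13, 14])), .ne 5 18 (.base (.corner 5 10 11 [12] [20, 19])), .ne 5 19 (.base
  (.corner 11 10 18 [5, 20] [5, 12])), .ne 5 22 (.base (.corner 5 12 13 [21] [14, 23])), .ne 5 23
  (.base (.corner 5 12 13 [21, 22] [14])), .ne 6 8 (.base (.corner 14 13 21 [22, 23] [6, 23])),
  .ne 6 11 (.base (.corner 12 6 21 [13] [22, 23, 14, 13])), .ne 6 15 (.five 22 21 6 14 23), .ne 7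
  12 (.base (.corner 13 7 22 [21] [23, 14])), .ne 7 15 (.base (.corner 14 7 22 [21, 13] [23])),
  .ne 8 9 (.base (.corner 15 8 23 [14] [22, 21, 13, 14])), .ne 8 12 (.base (.corner 13 8 23 [14]
  [22, 21])), .ne 9 21 (.base (.corner 9 15 14 [23, 22] [13])), .ne 9 22 (.base (.corner 9 15 14
  [23] [13, 21])), .ne 10 21 (.base (.corner 10 13 14 [23, 22] [15, 9])), .ne 10 23 (.base
  (.corner 10 14 13 [12, 11] [21, 22])), .ne 11 22 (.base (.corner 11 12 13 [21] [14, 23])), .ne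
  11 23 (.base (.corner 11 12 13 [21, 22] [14])), .ne 12 16 (.base (.corner 10 9 12 [11] [17,
  18])), .ne 12 17 (.base (.corner 10 9 16 [12, 11] [12, 18])), .ne 13 16 (.base (.corner 10 9 13
  [12, 11] [17, 18])), .ne 13 18 (.base (.corner 9 10 13 [14, 15] [17, 16])), .ne 13 19 (.base
  (.corner 11 10 18 [13, 12] [13, 20])), .ne 14 17 (.base (.corner 9 10 18 [14, 15] [14, 16])),
  .ne 14 18 (.base (.corner 9 10 14 [15] [17, 16])), .ne 14 20 (.base (.corner 10 11 14 [15, 9]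
  [19, 18])), .ne 15 19 (.base (.corner 10 9 15 [18] [20, 11])), .ne 15 20 (.base (.corner 10 9 15
  [11] [19, 18])), .ne 16 20 (.base (.corner 10 9 16 [11] [17, 18])), .ne 16 23 (.base (.corner 10
  9 16 [14, 13, 12, 11] [17, 18])), .ne 20 21 (.base (.corner 10 9 15 [14, 13, 12, 11] [14, 13,
  20, 11])), .ne 0 2 (.base (.corner 9 16 17 [0, 15] [18, 10])), .ne 0 5 (.base (.corner 12 0 15
  [9, 10, 11] [14, 13])), .ne 0 6 (.base (.corner 14 13 21 [0, 15] [22, 23])), .ne 0 7 (.base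
  (.corner 14 23 22 [0, 15] [21, 13])), .ne 0 19 (.base (.corner 9 10 18 [0, 15] [17, 16])), .ne 0
  20 (.base (.corner 0 11 10 [9, 15] [18, 19])), .ne 1 3 (.five 17 16 1 19 18), .ne 1 12 (.base
  (.corner 10 9 16 [17, 18] [1, 11])), .ne 1 13 (.base (.corner 10 9 16 [17, 18] [1, 12, 11])),
  .ne 1 20 (.five 17 16 1 19 18), .ne 1 23 (.base (.corner 9 15 14 [1, 16] [13, 12, 11, 10])), .ne
  2 4 (.base (.corner 18 19 20 [2, 17] [11, 10])), .ne 2 12 (.base (.corner 11 10 18 [17, 2] [19,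
  20])), .ne 2 14 (.base (.corner 9 16 17 [18, 10] [2, 15])), .ne 3 5 (.five 20 19 3 12 11), .ne 3
  13 (.five 20 19 3 12 11), .ne 3 15 (.base (.corner 9 10 18 [17, 16] [19, 3])), .ne 4 14 (.base
  (.corner 10 11 20 [19, 18] [4, 15, 9])), .ne 4 15 (.base (.corner 10 11 20 [19, 18] [4, 9])),
  .ne 4 16 (.base (.corner 4 9 10 [18, 17] [11, 20])), .ne 4 21 (.base (.corner 11 12 13 [4, 20]
  [14, 15, 9, 10])), .ne 5 7 (.base (.corner 13 21 22 [5, 12] [23, 14])), .ne 5 8 (.base (.corner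
  13 14 23 [5, 12] [22, 21])), .ne 5 16 (.base (.corner 5 9 10 [18, 17] [11, 12])), .ne 5 17
  (.base (.corner 11 10 18 [19, 20] [5, 12])), .ne 6 9 (.base (.corner 14 13 21 [22, 23] [6,
  15])), .ne 6 10 (.base (.corner 14 13 21 [22, 23] [6, 9, 15])), .ne 6 20 (.base (.corner 11 12
  13 [21, 6] [14, 15, 9, 10])), .ne 7 9 (.base (.corner 14 23 22 [7, 15] [21, 13])), .ne 7 11
  (.base (.corner 13 21 22 [7, 12] [23, 14])), .ne 8 10 (.base (.corner 13 14 23 [8, 11, 12] [22,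
  21])), .ne 8 11 (.base (.corner 13 14 23 [8, 12] [22, 21])), .ne 8 16 (.base (.corner 9 15 14
  [23, 8] [13, 12, 11, 10])), .ne 10 22 (.base (.corner 10 21 13 [12, 11] [14, 23])), .ne 13 17
  (.base (.corner 11 10 18 [19, 20] [13, 12])), .ne 14 19 (.base (.corner 9 10 18 [17, 16] [14,
  15])), .ne 16 21 (.base (.corner 14 13 16 [9, 15] [22, 23])), .ne 16 22 (.base (.corner 14 23 16
  [9, 15] [21, 13])), .ne 17 23 (.base (.corner 9 16 17 [14, 15] [18, 10])), .ne 18 21 (.base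
  (.corner 11 10 18 [13, 12] [19, 20])), .ne 18 23 (.base (.corner 9 10 18 [14, 15] [17, 16])),
  .ne 19 21 (.base (.corner 11 20 19 [13, 12] [18, 10])), .ne 20 22 (.base (.corner 13 21 20 [11,
  12] [23, 14])), .ne 20 23 (.base (.corner 13 14 20 [11, 12] [22, 21])), .ne 0 3 (.base (.corner
  9 10 18 [17, 16] [19, 0, 15])), .ne 0 4 (.base (.corner 10 11 20 [19, 18] [0, 15, 9])), .ne 1 4
  (.base (.corner 10 9 16 [17, 18] [1, 20, 11])), .ne 1 5 (.base (.corner 10 9 16 [17, 18] [1, 12,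
  11])), .ne 1 8 (.base (.corner 9 15 14 [23, 1, 16] [13, 12, 11, 10])), .ne 1 21 (.base (.corner
  1 13 14 [23, 22] [15, 9, 16])), .ne 1 22 (.base (.corner 1 23 14 [13, 21] [15, 9, 16])), .ne 2 5
  (.base (.corner 11 10 18 [17, 2, 12] [19, 20])), .ne 2 13 (.base (.corner 11 10 18 [17, 2, 12]
  [19, 20])), .ne 2 23 (.base (.corner 9 16 17 [18, 10] [2, 14, 15])), .ne 3 14 (.base (.corner 9
  10 18 [17, 16] [19, 3, 15])), .ne 3 21 (.base (.corner 11 20 19 [18, 10] [3, 13, 12])), .ne 4 6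
  (.base (.corner 11 12 13 [21, 4, 20] [14, 15, 9, 10])), .ne 4 22 (.base (.corner 4 21 13 [12,
  11, 20] [14, 23])), .ne 4 23 (.base (.corner 4 14 13 [12, 11, 20] [21, 22])), .ne 6 16 (.base
  (.corner 14 13 21 [22, 23] [6, 9, 15])), .ne 6 18 (.base (.corner 6 10 11 [12, 13, 21] [20,
  19])), .ne 6 19 (.base (.corner 6 20 11 [10, 18] [12, 13, 21])), .ne 7 10 (.base (.corner 13 21
  22 [7, 11, 12] [23, 14])), .ne 7 16 (.base (.corner 14 23 22 [7, 9, 15] [21, 13])), .ne 7 20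
  (.base (.corner 13 21 22 [7, 11, 12] [23, 14])), .ne 8 17 (.base (.corner 8 16 9 [10, 18] [15,
  14, 23])), .ne 8 18 (.base (.corner 8 10 9 [16, 17] [15, 14, 23])), .ne 8 20 (.base (.corner 13
  14 23 [8, 11, 12] [22, 21])), .ne 17 21 (.base (.corner 11 10 18 [17, 13, 12] [19, 20])), .ne 17
  22 (.base (.corner 9 16 17 [18, 10] [23, 14, 15])), .ne 18 22 (.base (.corner 9 10 18 [17, 16]
  [23, 14, 15])), .ne 19 22 (.base (.corner 11 20 19 [18, 10] [21, 13, 12])), .ne 19 23 (.base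
  (.corner 9 10 18 [17, 16] [19, 14, 15])), .ne 1 6 (.base (.corner 9 15 14 [13, 12, 11, 10] [13,
  21, 1, 16])), .ne 1 7 (.base (.corner 9 15 14 [23, 22, 1, 16] [13, 12, 11, 10])), .ne 2 8 (.base
  (.corner 9 15 14 [23, 2, 17, 16] [13, 12, 11, 10])), .ne 2 21 (.base (.corner 11 10 18 [17, 2,
  13, 12] [19, 20])), .ne 2 22 (.base (.corner 9 15 14 [23, 2, 17, 16] [13, 12, 11, 10])), .ne 3 6
  (.base (.corner 11 12 13 [21, 3, 19, 20] [14, 15, 9, 10])), .ne 3 22 (.base (.corner 11 12 13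
  [21, 3, 19, 20] [14, 15, 9, 10])), .ne 3 23 (.base (.corner 10 9 15 [14, 3, 19, 18] [14, 13, 12,
  11])), .ne 4 7 (.base (.corner 11 12 13 [21, 22, 4, 20] [14, 15, 9, 10])), .ne 4 8 (.base
  (.corner 11 12 13 [14, 23, 4, 20] [14, 15, 9, 10])), .ne 6 17 (.base (.corner 11 10 18 [19, 20]
  [6, 21, 13, 12])), .ne 7 17 (.base (.corner 9 15 14 [23, 22, 7, 16] [13, 12, 11, 10])), .ne 7 18
  (.base (.corner 10 9 15 [14, 23, 22, 7] [14, 13, 12, 11])), .ne 7 19 (.base (.corner 11 12 13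
  [21, 22, 7, 20] [14, 15, 9, 10])), .ne 8 19 (.base (.corner 10 9 15 [14, 23, 8, 18] [14, 13, 12,
  11])), .na 2 11 (.base (.corner 11 10 18 [17, 2] [19, 20])), .na 2 15 (.base (.corner 9 16 17
  [18, 10] [2, 15])), .na 3 9 (.base (.corner 9 10 18 [17, 16] [19, 3])), .na 3 12 (.five 20 19 3
  12 11), .na 6 11 (.base (.corner 11 12 13 [21, 6] [14, 15, 9, 10])), .na 7 12 (.base (.corner 13
  21 22 [7, 12] [23, 14])), .na 7 15 (.base (.corner 14 23 22 [7, 15] [21, 13])), .na 8 9 (.base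
  (.corner 9 15 14 [23, 8] [13, 12, 11, 10])), .na 9 22 (.base (.corner 14 23 22 [9, 15] [21,
  13])), .na 10 21 (.base (.corner 10 21 13 [12, 11] [14, 15, 9])), .na 10 23 (.base (.corner 10
  23 14 [13, 12, 11] [15, 9])), .na 11 22 (.base (.corner 13 21 22 [11, 12] [23, 14])), .na 12 17
  (.base (.corner 11 10 18 [17, 12] [19, 20])), .na 13 18 (.base (.corner 11 10 18 [19, 20] [13,
  12])), .na 13 19 (.base (.corner 11 20 19 [18, 10] [13, 12])), .na 14 17 (.base (.corner 9 16 17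
  [18, 10] [14, 15])), .na 14 18 (.base (.corner 9 10 18 [17, 16] [14, 15])), .na 15 19 (.base
  (.corner 9 10 18 [17, 16] [19, 15])), .na 16 23 (.base (.corner 9 15 14 [23, 16] [13, 12, 11,
  10])), .na 20 21 (.base (.corner 11 12 13 [21, 20] [14, 15, 9, 10])), .ne 2 6 (.long 18 10 11
  [12, 13, 21, 2, 17] [20, 19]), .ne 2 7 (.long 9 15 14 [23, 22, 2, 17, 16] [13, 12, 11, 10]), .ne
  3 7 (.long 11 12 13 [21, 22, 3, 19, 20] [14, 15, 9, 10]), .ne 3 8 (.long 10 9 15 [14, 23, 3, 19,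
  18] [14, 13, 12, 11]), .cn 1 2 24 (.five 17 16 1 24 2), .cn 3 4 24 (.five 20 19 3 24 4), .cn 6 7
  24 (.five 22 21 6 24 7), .cn 5 8 24 (.base (.corner 12 13 14 [23, 8, 24, 5] [15, 9, 10, 11]))]

/-- The corners of the three outer faces. -/
def cfG2 : List (ℕ × ℕ × ℕ) := [(17, 16, 1), (20, 19, 3), (22, 21, 6)]

/-- The pairs of terminals which are joined. -/
def comG2 : List (ℕ × ℕ) := [(1, 2), (3, 4), (6, 7), (5, 8)]

/-- The paths of the new edges. -/
def psG2 : List (ℕ × List ℕ × ℕ) :=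
  [(1, [16, 17], 2), (3, [19, 20], 4), (6, [21, 22], 7), (5, [12, 13, 14, 23], 8)]

theorem fin_G2 : finL G2 [] [] comG2 [] cfG2 tsG2 = true := by
  decide +kernel

set_option synthInstance.maxSize 200000 in
theorem data_G2 : Data G2 [] psG2 [] [] comG2 [] := by
  constructor <;> decide

theorem back_G2 : Back G2 [] psG2 [] := by
  constructor <;> decide

variable {V : Type} [Fintype V] [DecidableEq V] {G : SimpleGraph V} [DecidableRel G.Adj]
  {R : Rot G} {d : G.Dart}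

/-- **The patch G2.** -/
theorem patch_G2 (hR : C5 R) (h13 : 13 ≤ Fintype.card V) (h : Good R d 7)
    (g0 : Good R (ac R d 0) 5) (g1 : Good R (ac R d 1) 5) (g4 : Good R (ac R d 4) 5)
    (k0 : sz R (ac R (ac R d 0) 2) ≠ 5) (k1 : sz R (ac R (ac R d 1) 3) ≠ 5)
    (k4 : sz R (ac R (ac R d 4) 2) ≠ 5) : Patch G G2 [] [] comG2 [] (fG2 R d) := by
  refine patch_of (hR.cls h13) (tabG2 h g0 g1 g4) (by decide +kernel) ?_ fin_G2
  intro e he x y
  simp only [cfG2, List.mem_cons, List.not_mem_nil, or_false] at he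
  rcases he with rfl | rfl | rfl
  · have := hR.no5a (ac R d 0) 2 k0 x y
    rwa [ac_X2] at this
  · have := hR.no5a (ac R d 1) 3 k1 x y
    rwa [show X R (ac R d 1) (3 + 1) = Y R d 2 from h.ac_last 1 g1 (by norm_num)] at this
  · have := hR.no5a (ac R d 4) 2 k4 x y
    rwa [ac_X2] at this

/-- **The mirror image of the patch G2.** -/
theorem patch_G2m (hR : C5 R) (h13 : 13 ≤ Fintype.card V) (h : Good R d 7)
    (g0 : Good R (ac R d 0) 5) (g3 : Good R (ac R d 3) 5) (g4 : Good R (ac R d 4) 5)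
    (k4 : sz R (ac R (ac R d 4) 3) ≠ 5) (k3 : sz R (ac R (ac R d 3) 2) ≠ 5)
    (k0 : sz R (ac R (ac R d 0) 3) ≠ 5) : Patch G G2 [] [] comG2 [] (fG2m R d) := by
  refine patch_of (hR.cls h13) (tabG2m h g0 g3 g4) (by decide +kernel) ?_ fin_G2
  intro e he x y
  simp only [cfG2, List.mem_cons, List.not_mem_nil, or_false] at he
  rcases he with rfl | rfl | rfl
  · intro hn
    refine hR.no5b (ac R d 4) 3 k4 y x ?_
    rw [show X R (ac R d 4) (3 + 1) = Y R d 5 from h.ac_last 4 g4 (by norm_num)]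
    exact nb5_reverse hn
  · intro hn
    refine hR.no5b (ac R d 3) 2 k3 y x ?_
    rw [show X R (ac R d 3) 2 = Y R d 3 from ac_X2 R d 3]
    exact nb5_reverse hn
  · intro hn
    refine hR.no5b (ac R d 0) 3 k0 y x ?_
    rw [show X R (ac R d 0) (3 + 1) = Y R d 1 from h.ac_last 0 g0 (by norm_num)]
    exact nb5_reverse hn

/-- The place G2. -/
def pG2 (f : ℕ → V) : Place V := place G2 [] psG2 [] comG2 [] f

/-- **The place G2.** -/
theorem good_G2 (hext : G2.Ext []) (hR : C5 R) (h13 : 13 ≤ Fintype.card V) (h : Good R d 7)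
    (g0 : Good R (ac R d 0) 5) (g1 : Good R (ac R d 1) 5) (g4 : Good R (ac R d 4) 5)
    (k0 : sz R (ac R (ac R d 0) 2) ≠ 5) (k1 : sz R (ac R (ac R d 1) 3) ≠ 5)
    (k4 : sz R (ac R (ac R d 4) 2) ≠ 5) : Uni91.Good (pG2 (fG2 R d)) G :=
  (patch_G2 hR h13 h g0 g1 g4 k0 k1 k4).good hext data_G2 back_G2

/-- **The mirror image of the place G2.** -/
theorem good_G2m (hext : G2.Ext []) (hR : C5 R) (h13 : 13 ≤ Fintype.card V) (h : Good R d 7)
    (g0 : Good R (ac R d 0) 5) (g3 : Good R (ac R d 3) 5) (g4 : Good R (ac R d 4) 5)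
    (k4 : sz R (ac R (ac R d 4) 3) ≠ 5) (k3 : sz R (ac R (ac R d 3) 2) ≠ 5)
    (k0 : sz R (ac R (ac R d 0) 3) ≠ 5) : Uni91.Good (pG2 (fG2m R d)) G :=
  (patch_G2m hR h13 h g0 g3 g4 k4 k3 k0).good hext data_G2 back_G2

end Pool.Agent.U2Geo
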