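import Pool.Agent.Work.MP_392c8e_co_uni.PatchGood
import Pool.Agent.Work.MP_392c8e_co_uni.GeoNo5
import Pool.Agent.Work.MP_392c8e_co_uni.Inst.Rho

/-!
# The rhombus

A face of length five with faces of length five across the edges `0`, `1`, `2`.  The new edges
join the terminals 1-2 and 4-5, the terminals 0 and 3 are free.  The two outer faces along the
edges of the pairs have not length five.
-/

namespace Pool.Agent.U2Geo

open Finset Pool.Agent.Sub392 Pool.T1Side Pool.Agent.T392 Pool.Agent.T1FF Pool.Agent.T1Red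
open Pool.Agent.Uni392 (Place)

set_option linter.unusedSectionVars false

/-- Certificate. -/
def tsRho : List StepL :=
  [.ne 0 7 (.base (.tri 0 6 10)), .ne 0 8 (.base (.tri 0 9 10)), .ne 0 11 (.base (.tri 0 6 10)),
  .ne 0 17 (.base (.tri 0 9 10)), .ne 1 2 (.base (.tri 1 11 12)), .ne 1 7 (.base (.tri 1 6 11)),
  .ne 1 10 (.base (.tri 1 6 11)), .ne 1 13 (.base (.tri 1 11 12)), .ne 2 6 (.base (.tri 2 11 12)),
  .ne 2 7 (.base (.tri 2 12 13)), .ne 2 14 (.base (.tri 2 12 13)), .ne 3 7 (.base (.tri 3 13 14)),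
  .ne 3 8 (.base (.tri 3 14 15)), .ne 3 12 (.base (.tri 3 13 14)), .ne 3 16 (.base (.tri 3 14
  15)), .ne 4 5 (.base (.tri 4 16 17)), .ne 4 8 (.base (.tri 4 15 16)), .ne 4 9 (.base (.tri 4 16
  17)), .ne 4 14 (.base (.tri 4 15 16)), .ne 5 8 (.base (.tri 5 9 17)), .ne 5 10 (.base (.tri 5 9
  17)), .ne 5 15 (.base (.tri 5 16 17)), .ne 6 14 (.base (.tri 6 7 13)), .ne 6 15 (.base (.tri 6 7
  8)), .ne 6 17 (.base (.tri 6 9 10)), .ne 7 16 (.base (.tri 7 8 15)), .ne 7 17 (.base (.tri 7 8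
  9)), .ne 8 11 (.base (.tri 6 7 8)), .ne 8 12 (.base (.tri 7 8 13)), .ne 9 11 (.base (.tri 6 9
  10)), .ne 9 13 (.base (.tri 7 8 9)), .ne 9 14 (.base (.tri 8 9 15)), .ne 10 12 (.base (.tri 6 10
  11)), .ne 10 13 (.base (.tri 6 7 10)), .ne 10 15 (.base (.tri 8 9 10)), .ne 10 16 (.base (.tri 9
  10 17)), .ne 11 14 (.base (.tri 11 12 13)), .ne 12 15 (.base (.tri 12 13 14)), .ne 13 16 (.base
  (.tri 13 14 15)), .ne 14 17 (.base (.tri 14 15 16)), .ne 0 1 (.base (.corner 7 6 10 [0, 11, 12,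
  13] [9, 8])), .ne 0 5 (.base (.corner 7 6 10 [0, 17, 9, 8] [9, 8])), .ne 0 12 (.base (.corner 7
  6 10 [0, 13] [9, 8])), .ne 0 13 (.base (.corner 7 6 10 [0] [9, 8])), .ne 0 15 (.base (.corner 7
  6 10 [0, 8] [9, 8])), .ne 0 16 (.base (.corner 0 10 9 [8, 15] [17])), .ne 1 8 (.five 12 11 1 7
  13), .ne 1 9 (.base (.corner 7 6 11 [1, 8] [12, 13])), .ne 1 14 (.base (.corner 7 6 11 [1, 13]
  [12, 13])), .ne 2 3 (.base (.corner 7 6 11 [12, 2, 14, 13] [12, 13])), .ne 2 8 (.base (.corner 7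
  6 11 [12, 2] [12, 13])), .ne 2 10 (.base (.corner 2 6 7 [8, 9] [13, 12])), .ne 2 15 (.base
  (.corner 8 7 13 [12, 2] [14, 2])), .ne 3 4 (.base (.corner 8 7 13 [14, 3, 16, 15] [14, 15])),
  .ne 3 6 (.base (.corner 7 3 14 [13] [15, 8])), .ne 3 9 (.base (.corner 8 7 13 [14, 3] [14,
  15])), .ne 3 11 (.base (.corner 3 6 7 [13, 12] [13, 14])), .ne 3 17 (.base (.corner 9 8 15 [16,
  3] [14, 3])), .ne 4 7 (.five 17 16 4 8 9), .ne 4 10 (.base (.corner 9 4 16 [17] [15, 8])), .ne 4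
  13 (.base (.corner 4 7 8 [15, 16] [15, 14])), .ne 5 6 (.base (.corner 5 7 8 [9, 17] [9, 10])),
  .ne 5 7 (.base (.corner 5 6 10 [9, 8] [9, 17])), .ne 5 14 (.base (.corner 9 8 15 [16, 17] [5,
  17])), .ne 6 16 (.base (.corner 7 6 15 [8] [14, 13])), .ne 9 12 (.base (.corner 7 6 10 [9, 8]
  [9, 13])), .ne 10 14 (.base (.corner 7 6 10 [9, 8] [13])), .ne 11 15 (.base (.corner 7 6 11 [8]
  [12, 13])), .ne 11 17 (.base (.corner 7 6 11 [9, 8] [12, 13])), .ne 12 16 (.base (.corner 8 7 13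
  [12, 15] [14, 15])), .ne 13 17 (.base (.corner 7 6 10 [9, 8] [9, 13])), .ne 0 2 (.base (.corner
  6 11 12 [0, 10] [13, 7])), .ne 0 4 (.base (.corner 9 17 16 [0, 10] [15, 8])), .ne 0 14 (.base
  (.corner 7 6 10 [0, 13] [9, 8])), .ne 1 3 (.five 12 11 1 14 13), .ne 1 15 (.five 12 11 1 14 13),
  .ne 1 17 (.base (.corner 6 10 9 [8, 7] [1, 11])), .ne 2 9 (.base (.corner 8 7 13 [12, 2] [14,
  15])), .ne 2 16 (.base (.corner 13 14 15 [8, 7] [2, 12])), .ne 3 5 (.base (.corner 15 16 17 [9,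
  8] [3, 14])), .ne 3 10 (.base (.corner 3 6 7 [8, 9] [13, 14])), .ne 4 6 (.five 17 16 4 10 9),
  .ne 4 12 (.base (.corner 13 14 15 [8, 7] [16, 4])), .ne 5 11 (.base (.corner 6 10 9 [8, 7] [17,
  5])), .ne 5 13 (.base (.corner 5 7 8 [9, 17] [15, 14])), .ne 11 16 (.base (.corner 7 6 11 [12,
  13] [15, 8])), .ne 12 17 (.base (.corner 8 7 13 [12, 9] [14, 15])), .ne 0 3 (.base (.corner 7 6
  10 [0, 14, 13] [9, 8])), .ne 1 5 (.base (.corner 6 10 9 [8, 7] [17, 1, 11])), .ne 1 16 (.base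
  (.corner 7 6 11 [1, 15, 8] [12, 13])), .ne 2 4 (.base (.corner 13 14 15 [8, 7] [16, 2, 12])),
  .ne 2 17 (.base (.corner 8 7 13 [12, 2, 9] [14, 15])), .ne 4 11 (.base (.corner 4 6 7 [8, 15,
  16] [13, 12])), .ne 5 12 (.base (.corner 8 7 13 [5, 17, 9] [14, 15])), .ne 1 4 (.base (.corner 7
  6 11 [1, 16, 15, 8] [12, 13])), .ne 2 5 (.base (.corner 8 7 13 [12, 2, 17, 9] [14, 15])), .cn 1
  2 18 (.five 12 11 1 18 2), .cn 4 5 18 (.five 17 16 4 18 5)]

/-- The corners of the two outer faces. -/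
def cfRho : List (ℕ × ℕ × ℕ) := [(12, 11, 1), (17, 16, 4)]

/-- The pairs of terminals which are joined. -/
def comRho : List (ℕ × ℕ) := [(1, 2), (4, 5)]

/-- The paths of the new edges. -/
def psRho : List (ℕ × List ℕ × ℕ) := [(1, [11, 12], 2), (4, [16, 17], 5)]

theorem fin_Rho : finL Rho [] [] comRho [] cfRho tsRho = true := by
  decide +kernel

set_option synthInstance.maxSize 200000 in
theorem data_Rho : Data Rho [] psRho [] [] comRho [] := by
  constructor <;> decide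

theorem back_Rho : Back Rho [] psRho [] := by
  constructor <;> decide

theorem ext_Rho : Rho.Ext [] := Red.ext_of_check check_Rho (by decide +kernel)

variable {V : Type} [Fintype V] [DecidableEq V] {G : SimpleGraph V} [DecidableRel G.Adj]
  {R : Rot G} {d : G.Dart}

/-! ## A face of length five with three consecutive neighbours of length five -/

/-- The labels of RHO: terminals `0, …, 5`, interior `6, …, 17`. -/
def fRho (R : Rot G) (d : G.Dart) (n : ℕ) : V :=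
  [Y R d 4, Y R (ac R d 0) 2, Y R (ac R d 0) 3, Y R (ac R d 1) 3, Y R (ac R d 2) 3,
    Y R (ac R d 2) 4,
    X R d 0, X R d 1, X R d 2, X R d 3, X R d 4,
    X R (ac R d 0) 2, X R (ac R d 0) 3, X R (ac R d 1) 2, X R (ac R d 1) 3,
    X R (ac R d 2) 2, X R (ac R d 2) 3, X R (ac R d 2) 4].getD n (X R d 0)

/-- The table of RHO. -/
def tRho : List (ℕ × ℕ × ℕ × ℕ) :=
  [(6, 7, 10, 11), (7, 8, 6, 13), (8, 9, 7, 15), (9, 10, 8, 17), (10, 6, 9, 0),
    (11, 12, 6, 1), (12, 13, 11, 2), (13, 14, 7, 12), (14, 15, 13, 3), (15, 16, 8, 14),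
    (16, 17, 15, 4), (17, 9, 16, 5)]

theorem tabRho (h : Good R d 5) (h0 : Good R (ac R d 0) 5) (h1 : Good R (ac R d 1) 5)
    (h2 : Good R (ac R d 2) 5) : TabOk G (fRho R d) tRho := by
  obtain ⟨a0, a1, a2, a3, a4⟩ := h.stars5
  obtain ⟨-, -, b2, b3, -⟩ := h0.stars5
  obtain ⟨-, -, c2, c3, -⟩ := h1.stars5
  obtain ⟨-, -, q2, q3, q4⟩ := h2.stars5
  have e1 : X R (ac R d 0) 1 = X R d 0 := ac_X1 R d 0
  have e2 : X R (ac R d 0) 2 = Y R d 0 := ac_X2 R d 0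
  have e4 : X R (ac R d 0) 4 = Y R d 1 := h.ac_last 0 h0 (by norm_num)
  have g1 : X R (ac R d 1) 1 = X R d 1 := ac_X1 R d 1
  have g2 : X R (ac R d 1) 2 = Y R d 1 := ac_X2 R d 1
  have g4 : X R (ac R d 1) 4 = Y R d 2 := h.ac_last 1 h1 (by norm_num)
  have gy : Y R (ac R d 1) 2 = X R (ac R d 0) 3 := h.ac_Y2 0 h0 (by norm_num)
  have k0 : X R (ac R d 2) 0 = X R d 3 := ac_X0 R d 2
  have k1 : X R (ac R d 2) 1 = X R d 2 := ac_X1 R d 2
  have k2 : X R (ac R d 2) 2 = Y R d 2 := ac_X2 R d 2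
  have k4 : X R (ac R d 2) 4 = Y R d 3 := h.ac_last 2 h2 (by norm_num)
  have ky : Y R (ac R d 2) 2 = X R (ac R d 1) 3 := h.ac_Y2 1 h1 (by norm_num)
  rw [← e2] at a0
  rw [← g2] at a1
  rw [← k2] at a2
  rw [← k4] at a3
  rw [e1] at b2
  rw [e4, ← g2] at b3
  rw [g1, gy] at c2
  rw [g4, ← k2] at c3
  rw [k1, ky] at q2
  rw [k0] at q4
  intro e he
  simp only [tRho, List.mem_cons, List.not_mem_nil, or_false] at he
  rcases he with rfl | rfl | rfl | rfl | rfl | rfl | rfl | rfl | rfl | rfl | rfl | rfl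
  · exact a0
  · exact a1
  · exact a2
  · exact a3
  · exact a4
  · exact b2
  · exact b3
  · exact c2
  · exact c3
  · exact q2
  · exact q3
  · exact q4

/-- **The patch.** -/
theorem patch_Rho (hR : C5 R) (h13 : 13 ≤ Fintype.card V) (h : Good R d 5)
    (g0 : Good R (ac R d 0) 5) (g1 : Good R (ac R d 1) 5) (g2 : Good R (ac R d 2) 5)
    (k0 : sz R (ac R (ac R d 0) 2) ≠ 5) (k2 : sz R (ac R (ac R d 2) 3) ≠ 5) :
    Patch G Rho [] [] comRho [] (fRho R d) := by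
  refine patch_of (hR.cls h13) (tabRho h g0 g1 g2) (by decide +kernel) ?_ fin_Rho
  intro e he x y
  simp only [cfRho, List.mem_cons, List.not_mem_nil, or_false] at he
  rcases he with rfl | rfl
  · exact hR.no5a (ac R d 0) 2 k0 x y
  · exact hR.no5a (ac R d 2) 3 k2 x y

/-- The place of the rhombus. -/
def pRho (f : ℕ → V) : Place V := place Rho [] psRho [] comRho [] f

/-- **The rhombus is a place.** -/
theorem good_Rho (hR : C5 R) (h13 : 13 ≤ Fintype.card V) (h : Good R d 5)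
    (g0 : Good R (ac R d 0) 5) (g1 : Good R (ac R d 1) 5) (g2 : Good R (ac R d 2) 5)
    (k0 : sz R (ac R (ac R d 0) 2) ≠ 5) (k2 : sz R (ac R (ac R d 2) 3) ≠ 5) :
    Uni91.Good (pRho (fRho R d)) G :=
  (patch_Rho hR h13 h g0 g1 g2 k0 k2).good ext_Rho data_Rho back_Rho

end Pool.Agent.U2Geo
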