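import Mathlib
import Pool.Agent.Work.MP_392c8e_co_uni.ColN
import Pool.Agent.Work.MP_392c8e_co_uni.SideStar

/-!
# Gluing colourings at level n over three edges

Three integers in an arc of length `n - 2` modulo `3 n` have a middle one.  Colourings of the two
sides of a cut with three edges whose triples of ends lie in such arcs and have the same middle
index can be glued, after a reflection and a translation of one of them.
-/

namespace Pool.Agent.CutN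

open Pool.Agent.Red (side side_le)

/-- The integers `x 0`, `x 1`, `x 2` lie in an arc of length `n - 2` modulo `3 n`, and `x m` is
weakly between the two others. -/
def Mid3 (n : ℤ) (x : Fin 3 → ℤ) (m : Fin 3) : Prop :=
  ∃ k : Fin 3 → ℤ,
    ((x (m + 1) + 3 * n * k (m + 1) ≤ x m + 3 * n * k m ∧
      x m + 3 * n * k m ≤ x (m + 2) + 3 * n * k (m + 2) ∧
      x (m + 2) + 3 * n * k (m + 2) - (x (m + 1) + 3 * n * k (m + 1)) ≤ n - 2) ∨
    (x (m + 2) + 3 * n * k (m + 2) ≤ x m + 3 * n * k m ∧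
      x m + 3 * n * k m ≤ x (m + 1) + 3 * n * k (m + 1) ∧
      x (m + 1) + 3 * n * k (m + 1) - (x (m + 2) + 3 * n * k (m + 2)) ≤ n - 2))

variable {n : ℤ}

theorem Mid3.neg {x : Fin 3 → ℤ} {m : Fin 3} (h : Mid3 n x m) : Mid3 n (fun i => -x i) m := by
  obtain ⟨k, h⟩ := h
  refine ⟨fun i => -k i, ?_⟩
  rcases h with ⟨h1, h2, h3⟩ | ⟨h1, h2, h3⟩
  · exact Or.inr ⟨by linarith, by linarith, by linarith⟩
  · exact Or.inl ⟨by linarith, by linarith, by linarith⟩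

theorem Mid3.add {x : Fin 3 → ℤ} {m : Fin 3} (h : Mid3 n x m) (t : ℤ) :
    Mid3 n (fun i => x i + t) m := by
  obtain ⟨k, h⟩ := h
  refine ⟨k, ?_⟩
  rcases h with ⟨h1, h2, h3⟩ | ⟨h1, h2, h3⟩
  · exact Or.inl ⟨by linarith, by linarith, by linarith⟩
  · exact Or.inr ⟨by linarith, by linarith, by linarith⟩

/-- The form with an arc: `x i + 3 n k i` in `[s, s + n - 2]` for all `i`, and `x m` in the
middle. -/
theorem Mid3.of_arc {x : Fin 3 → ℤ} {m : Fin 3} {s : ℤ} {k : Fin 3 → ℤ}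
    (h : ∀ i, s ≤ x i + 3 * n * k i ∧ x i + 3 * n * k i ≤ s + (n - 2))
    (hm : (x (m + 1) + 3 * n * k (m + 1) ≤ x m + 3 * n * k m ∧
      x m + 3 * n * k m ≤ x (m + 2) + 3 * n * k (m + 2)) ∨
      (x (m + 2) + 3 * n * k (m + 2) ≤ x m + 3 * n * k m ∧
      x m + 3 * n * k m ≤ x (m + 1) + 3 * n * k (m + 1))) : Mid3 n x m := by
  have a1 := h (m + 1)
  have a2 := h (m + 2)
  rcases hm with ⟨h1, h2⟩ | ⟨h1, h2⟩
  · exact ⟨k, Or.inl ⟨h1, h2, by linarith [a1.1, a2.2]⟩⟩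
  · exact ⟨k, Or.inr ⟨h1, h2, by linarith [a2.1, a1.2]⟩⟩

/-- Three integers in an arc of length `n - 2` have a middle one. -/
theorem exists_mid3_arc {x : Fin 3 → ℤ} {s : ℤ} {k : Fin 3 → ℤ}
    (h : ∀ i, s ≤ x i + 3 * n * k i ∧ x i + 3 * n * k i ≤ s + (n - 2)) : ∃ m, Mid3 n x m := by
  have e1 : ((0 : Fin 3) + 1) = 1 := rfl
  have e2 : ((0 : Fin 3) + 2) = 2 := rfl
  have e3 : ((1 : Fin 3) + 1) = 2 := rfl
  have e4 : ((1 : Fin 3) + 2) = 0 := rfl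
  have e5 : ((2 : Fin 3) + 1) = 0 := rfl
  have e6 : ((2 : Fin 3) + 2) = 1 := rfl
  rcases le_total (x 0 + 3 * n * k 0) (x 1 + 3 * n * k 1) with h1 | h1 <;>
  rcases le_total (x 1 + 3 * n * k 1) (x 2 + 3 * n * k 2) with h2 | h2 <;>
  rcases le_total (x 0 + 3 * n * k 0) (x 2 + 3 * n * k 2) with h3 | h3
  · exact ⟨1, Mid3.of_arc h (Or.inr (by rw [e3, e4]; exact ⟨h1, h2⟩))⟩
  · exact ⟨1, Mid3.of_arc h (Or.inr (by rw [e3, e4]; exact ⟨h1, h2⟩))⟩
  · exact ⟨2, Mid3.of_arc h (Or.inl (by rw [e5, e6]; exact ⟨h3, h2⟩))⟩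
  · exact ⟨0, Mid3.of_arc h (Or.inr (by rw [e1, e2]; exact ⟨h3, h1⟩))⟩
  · exact ⟨0, Mid3.of_arc h (Or.inl (by rw [e1, e2]; exact ⟨h1, h3⟩))⟩
  · exact ⟨2, Mid3.of_arc h (Or.inr (by rw [e5, e6]; exact ⟨h2, h3⟩))⟩
  · exact ⟨1, Mid3.of_arc h (Or.inl (by rw [e3, e4]; exact ⟨h2, h1⟩))⟩
  · exact ⟨1, Mid3.of_arc h (Or.inl (by rw [e3, e4]; exact ⟨h2, h1⟩))⟩

/-- Three neighbours of one vertex have a middle one. -/
theorem exists_mid3 {x : Fin 3 → ℤ} {z : ℤ} (h : ∀ i, Jn n (x i - z)) : ∃ m, Mid3 n x m := by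
  choose k hk using h
  exact exists_mid3_arc (s := z + n + 1) (k := k) fun i =>
    ⟨by linarith [(hk i).1], by linarith [(hk i).2]⟩

/-- The arithmetic of the gluing, with the same order on both sides: first `x p`, then `x m`,
then `x q`. -/
theorem mid3_order {a b c a' b' c' : ℤ} (h1 : a ≤ b) (h2 : b ≤ c) (h3 : c - a ≤ n - 2)
    (h1' : a' ≤ b') (h2' : b' ≤ c') (h3' : c' - a' ≤ n - 2) :
    ∃ t : ℤ, (n + 1 ≤ a' - a + t ∧ a' - a + t ≤ 2 * n - 1) ∧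
      (n + 1 ≤ b' - b + t ∧ b' - b + t ≤ 2 * n - 1) ∧
      (n + 1 ≤ c' - c + t ∧ c' - c + t ≤ 2 * n - 1) := by
  refine ⟨n + 1 - min (a' - a) (min (b' - b) (c' - c)), ?_⟩
  rcases min_cases (b' - b) (c' - c) with ⟨g1, g2⟩ | ⟨g1, g2⟩ <;> rw [g1]
  · rcases min_cases (a' - a) (b' - b) with ⟨g3, g4⟩ | ⟨g3, g4⟩ <;> rw [g3] <;>
      exact ⟨⟨by linarith, by linarith⟩, ⟨by linarith, by linarith⟩, by linarith, by linarith⟩
  · rcases min_cases (a' - a) (c' - c) with ⟨g3, g4⟩ | ⟨g3, g4⟩ <;> rw [g3] <;>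
      exact ⟨⟨by linarith, by linarith⟩, ⟨by linarith, by linarith⟩, by linarith, by linarith⟩

/-- Every index is `m`, `m + 1` or `m + 2`. -/
theorem fin3_cases (m i : Fin 3) : i = m ∨ i = m + 1 ∨ i = m + 2 := by
  revert m i
  decide

/-- **The arithmetic of the gluing.** -/
theorem Mid3.glue {x y : Fin 3 → ℤ} {m : Fin 3} (hx : Mid3 n x m) (hy : Mid3 n y m) :
    (∃ t, ∀ i, Jn n (y i + t - x i)) ∨ ∃ t, ∀ i, Jn n (-y i + t - x i) := by
  have fin : ∀ {f : Fin 3 → ℤ}, Jn n (f m) → Jn n (f (m + 1)) → Jn n (f (m + 2)) →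
      ∀ i, Jn n (f i) := by
    intro f h0 h1 h2 i
    rcases fin3_cases m i with h | h | h <;> rw [h]
    · exact h0
    · exact h1
    · exact h2
  obtain ⟨k, hx⟩ := hx
  obtain ⟨l, hy⟩ := hy
  rcases hx with ⟨h1, h2, h3⟩ | ⟨h1, h2, h3⟩ <;> rcases hy with ⟨g1, g2, g3⟩ | ⟨g1, g2, g3⟩
  · obtain ⟨t, ⟨a1, a2⟩, ⟨b1, b2⟩, c1, c2⟩ := mid3_order h1 h2 h3 g1 g2 g3
    refine Or.inl ⟨t, fin (f := fun i => y i + t - x i) ⟨l m - k m, ?_, ?_⟩
      ⟨l (m + 1) - k (m + 1), ?_, ?_⟩ ⟨l (m + 2) - k (m + 2), ?_, ?_⟩⟩ <;> linarith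
  · obtain ⟨t, ⟨a1, a2⟩, ⟨b1, b2⟩, c1, c2⟩ := mid3_order h1 h2 h3
      (a' := -(y (m + 1) + 3 * n * l (m + 1))) (b' := -(y m + 3 * n * l m))
      (c' := -(y (m + 2) + 3 * n * l (m + 2))) (by linarith) (by linarith) (by linarith)
    refine Or.inr ⟨t, fin (f := fun i => -y i + t - x i) ⟨-l m - k m, ?_, ?_⟩
      ⟨-l (m + 1) - k (m + 1), ?_, ?_⟩ ⟨-l (m + 2) - k (m + 2), ?_, ?_⟩⟩ <;> linarith
  · obtain ⟨t, ⟨a1, a2⟩, ⟨b1, b2⟩, c1, c2⟩ := mid3_order h1 h2 h3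
      (a' := -(y (m + 2) + 3 * n * l (m + 2))) (b' := -(y m + 3 * n * l m))
      (c' := -(y (m + 1) + 3 * n * l (m + 1))) (by linarith) (by linarith) (by linarith)
    refine Or.inr ⟨t, fin (f := fun i => -y i + t - x i) ⟨-l m - k m, ?_, ?_⟩
      ⟨-l (m + 1) - k (m + 1), ?_, ?_⟩ ⟨-l (m + 2) - k (m + 2), ?_, ?_⟩⟩ <;> linarith
  · obtain ⟨t, ⟨a1, a2⟩, ⟨b1, b2⟩, c1, c2⟩ := mid3_order h1 h2 h3 g1 g2 g3
    refine Or.inl ⟨t, fin (f := fun i => y i + t - x i) ⟨l m - k m, ?_, ?_⟩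
      ⟨l (m + 1) - k (m + 1), ?_, ?_⟩ ⟨l (m + 2) - k (m + 2), ?_, ?_⟩⟩ <;> linarith

variable {V : Type*} {G : SimpleGraph V}

/-- **Gluing over three edges**, with the same middle. -/
theorem glueN3 (X : V → Prop) {a b : Fin 3 → V} {c1 c2 : V → ℤ} {m : Fin 3}
    (h1 : IsCol n (side G X) c1) (h2 : IsCol n (side G fun v => ¬ X v) c2)
    (hcut : ∀ u v, X u → ¬ X v → G.Adj u v → ∃ i, u = a i ∧ v = b i)
    (m1 : Mid3 n (fun i => c1 (a i)) m) (m2 : Mid3 n (fun i => c2 (b i)) m) :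
    ∃ c, IsCol n G c ∧ ∀ v, X v → c v = c1 v := by
  rcases m1.glue m2 with ⟨t, ht⟩ | ⟨t, ht⟩
  · obtain ⟨c, g1, g2, -⟩ := glue_col X h1 (h2.add t) (by
      intro u v hu hv huv
      obtain ⟨i, rfl, rfl⟩ := hcut u v hu hv huv
      exact ht i)
    exact ⟨c, g1, g2⟩
  · obtain ⟨c, g1, g2, -⟩ := glue_col X h1 (h2.neg.add t) (by
      intro u v hu hv huv
      obtain ⟨i, rfl, rfl⟩ := hcut u v hu hv huv
      exact ht i)
    exact ⟨c, g1, g2⟩

section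

variable {V : Type} [Fintype V] [DecidableEq V] {G : SimpleGraph V} {k : ℕ}

/-- A colouring of the side with the star: the side is coloured. -/
theorem isCol_side_of_starK {X : V → Prop} {a : Fin k → V} {z : V} {hX : ∀ i, X (a i)}
    {hz : ¬ X z} {c : V → ℤ} (h : IsCol n (starK G X a z hX hz) c) : IsCol n (side G X) c :=
  fun u v huv => h u v (Or.inl huv)

/-- A colouring of the side with the star: the ends lie in an arc. -/
theorem jn_of_starK {X : V → Prop} {a : Fin k → V} {z : V} {hX : ∀ i, X (a i)}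
    {hz : ¬ X z} {c : V → ℤ} (h : IsCol n (starK G X a z hX hz) c) (i : Fin k) :
    Jn n (c (a i) - c z) :=
  h z (a i) (Or.inr ⟨i, Or.inr ⟨rfl, rfl⟩⟩)

/-- A colouring of the side with the star has a middle end. -/
theorem exists_mid3_starK {X : V → Prop} {a : Fin 3 → V} {z : V} {hX : ∀ i, X (a i)}
    {hz : ¬ X z} {c : V → ℤ} (h : IsCol n (starK G X a z hX hz) c) :
    ∃ m, Mid3 n (fun i => c (a i)) m :=
  exists_mid3 (z := c z) fun i => jn_of_starK h i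

/-- The middles which occur for colourings of the side `X` with a claw. -/
def Middles (n : ℤ) (G : SimpleGraph V) (X : V → Prop) (a : Fin 3 → V) : Set (Fin 3) :=
  {m | ∃ c, IsCol n (side G X) c ∧ Mid3 n (fun i => c (a i)) m}

/-- **If the same middle occurs on both sides, the graph has a colouring.** -/
theorem colN_of_middles {X : V → Prop} {a b : Fin 3 → V} (hc : CutK G X a b) {m : Fin 3}
    (h1 : m ∈ Middles n G X a) (h2 : m ∈ Middles n G (fun v => ¬ X v) b) : ColN n G := by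
  obtain ⟨c1, g1, m1⟩ := h1
  obtain ⟨c2, g2, m2⟩ := h2
  obtain ⟨c, hc', -⟩ := glueN3 X g1 g2 hc.cut m1 m2
  exact ⟨c, hc'⟩

end

end Pool.Agent.CutN
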