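import Mathlib
import Pool.Agent.Work.MP_392c8e_co_uni.FamNearQ

/-!
# Linear growth with one exceptional set of vertices

The exceptional set is one more pattern; it is absorbed by the constant term of the growth.
-/

set_option autoImplicit false
set_option linter.unusedSectionVars false

namespace Pool.Agent.Uni392

open Finset Pool.Agent.Sub392 Pool.Agent.T392 Pool.Agent.Disch392
open Pool.Agent.Uni3 (Cr IsComp crT crTwo crV crD Adm qr)
open Pool.Agent.Uni91 (VD OnP Cs ends full)
open Pool.Agent.T1Red (newG Deg3)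

variable {V : Type} [Fintype V] [DecidableEq V] {G : SimpleGraph V} [DecidableRel G.Adj]

/-- **The input of the middle of the construction**, with one exceptional set `B`. -/
structure MidX (R : Rot G) (I : V → Prop) (P : List (V × List V × V)) (Gd : G.Dart → Prop)
    (D N0 : ℕ) extends MidQ R I P where
  /-- the exceptional vertices -/
  B : Finset V
  hB0 : B.card ≤ N0
  hB : ∀ v ∈ B, ∀ w ∈ B, ∃ n, n ≤ D ∧ Steps (nbN G I P) n v w
  hS0 : ∀ i, (S i).card ≤ N0
  hS : ∀ i, ∀ v ∈ S i, ∀ w ∈ S i, ∃ n, n ≤ D ∧ Steps (nbN G I P) n v w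
  hnear : ∀ v, (∀ w, ¬ Del G I P v w) → ¬ Inn P v →
    (∃ d : G.Dart, d.fst = v ∧ (Inn P d.snd ∨ (R.face d ∈ KQ R I z Q4 ∧ sz R d = 6))) →
      NearG G I P D v ∨ (∃ i, v ∈ S i) ∨ v ∈ B
  hbad : ∀ d : G.Dart, ¬ Gd d → (∀ w, ¬ Del G I P d.fst w) →
    ¬ Inn P d.fst → NearG G I P D d.fst ∨ (∃ i, d.fst ∈ S i) ∨ d.fst ∈ B

open Classical in
/-- **Linear growth**, if a discharging inequality for the local condition is known. -/
theorem MidX.grow {R : Rot G} {I : V → Prop} {P : List (V × List V × V)} {Gd : G.Dart → Prop}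
    {D N0 : ℕ} (X : MidX R I P Gd D N0) (A E : ℕ) (hP : R.Plane) (hcub : ∀ v, G.degree v = 3)
    (hd : VD G I P) (hdeg : Deg3 (newG G I (ends P)))
    (hdis : ∀ U : Finset V, ∑ d ∈ univ.filter (fun d : G.Dart => d.fst ∈ U), kap R d ≤
      - (1 / 1000) * (#{d : G.Dart | d.fst ∈ U ∧ sz R d ≠ 6} : ℝ) +
        A * #{d : G.Dart | d.fst ∈ U ∧ ¬ Gd d} + E * #(bd (G := G) U)) :
    X.toMidQ.Grow ((3000 * (A + E + 9) + 3) * 4 ^ (D + 6) * (N0 + 1) + (3000 * (E + 9) + 3)) := by
  let _ := X.fJ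
  intro p hdel hcon C hC
  let S' : Option (({f // f ∈ X.F} ⊕ X.J) ⊕ {g // g ∈ X.Q4}) → Finset V := fun o =>
    o.elim X.B X.S
  have h := growth_gen A E hP hcub hd hdeg hdel hcon S' N0
    (fun o => by
      cases o with
      | none => exact X.hB0
      | some i => exact X.hS0 i)
    (fun o => by
      cases o with
      | none => exact X.hB
      | some i => exact X.hS i)
    (fun v h1 h2 h3 => by
      rcases X.hnear v h1 h2 h3 with h4 | ⟨i, h4⟩ | h4
      · exact Or.inl h4
      · exact Or.inr ⟨some i, h4⟩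
      · exact Or.inr ⟨none, h4⟩) hdis
    (fun d h1 h2 h3 => by
      rcases X.hbad d h1 h2 h3 with h4 | ⟨i, h4⟩ | h4
      · exact Or.inl h4
      · exact Or.inr ⟨some i, h4⟩
      · exact Or.inr ⟨none, h4⟩) hC
  refine h.trans (Nat.mul_le_mul_left _ ?_)
  rw [add_assoc]
  refine Nat.add_le_add_left ?_ _
  have h1 : (univ.filter fun o => S' o ⊆ Us R (qr p) C) ⊆
      insert none ((univ.filter fun i => X.S i ⊆ Us R (qr p) C).map Function.Embedding.some) := by
    intro o ho
    rw [mem_filter] at ho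
    cases o with
    | none => exact mem_insert_self _ _
    | some i =>
      refine mem_insert_of_mem (mem_map.2 ⟨i, mem_filter.2 ⟨mem_univ _, ho.2⟩, rfl⟩)
  refine (card_le_card h1).trans ((card_insert_le _ _).trans ?_)
  rw [card_map]

end Pool.Agent.Uni392
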