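import Mathlib
import Pool.Agent.Work.MP_392c8e_co_t1.PlRot
import Pool.Agent.Work.MP_392c8e_co_t1.FaceBase
import Pool.Agent.Work.MP_392c8e_co_t1.Windings
import Pool.Agent.Work.MP_392c8e_co_red.Cuts
import Pool.Agent.Work.MP_392c8e_co_uni.SideStar

/-!
# No vertex is adjacent to all three ends of a side

The complete bipartite graph on three and three vertices has no algebraic dual: it would be a
plane cubic graph with five faces of length at least four.  So in a planar graph without cuts with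
at most one edge no vertex of a side of a cut with three edges is adjacent to all three ends, if
the ends have degree three.
-/

namespace Pool.Agent.CutN

open Finset
open Pool.Agent.Red Pool.Agent.Sub392 Pool.Agent.T392

set_option linter.unusedSectionVars false

/-- The complete bipartite graph on three and three vertices. -/
def K33 : SimpleGraph (Fin 6) where
  Adj i j := (i.val < 3 ∧ 3 ≤ j.val) ∨ (j.val < 3 ∧ 3 ≤ i.val)
  symm := ⟨fun i j h => by
    rcases h with h | h
    · exact Or.inr h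
    · exact Or.inl h⟩
  loopless := ⟨fun i h => by rcases h with h | h <;> omega⟩

instance : DecidableRel K33.Adj := fun i j => by
  unfold K33
  infer_instance

theorem K33_connected : K33.Connected := by
  have h03 : K33.Adj 0 3 := by decide
  have h3 : ∀ j : Fin 6, K33.Reachable 0 j := by
    intro j
    by_cases hj : 3 ≤ j.val
    · exact SimpleGraph.Adj.reachable (Or.inl ⟨by decide, hj⟩)
    · exact h03.reachable.trans (SimpleGraph.Adj.reachable (Or.inr ⟨by omega, by decide⟩))
  haveI : Nonempty (Fin 6) := ⟨0⟩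
  exact SimpleGraph.Connected.mk fun i j => (h3 i).symm.trans (h3 j)

theorem K33_tri : ∀ a b c : Fin 6, ¬ (K33.Adj a b ∧ K33.Adj b c ∧ K33.Adj a c) := by
  decide

theorem K33_degree : ∀ v, K33.degree v = 3 := by
  decide

theorem K33_edges : #K33.edgeFinset = 9 := by
  have h := K33.sum_degrees_eq_twice_card_edges
  simp only [K33_degree] at h
  simp at h
  omega

/-- Cuts have at least two edges. -/
theorem K33_cut (S : Fin 6 → Prop) (u v : Fin 6) (hu : S u) (hv : ¬ S v) (huv : K33.Adj u v) :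
    ∃ u' v', S u' ∧ ¬ S v' ∧ K33.Adj u' v' ∧ s(u', v') ≠ s(u, v) := by
  classical
  by_contra hcon
  push Not at hcon
  -- another neighbour of `u` and another neighbour of `v`, adjacent to each other
  have key : ∀ u v : Fin 6, K33.Adj u v → ∃ w x, K33.Adj u w ∧ K33.Adj w x ∧ K33.Adj x v ∧
      w ≠ v ∧ x ≠ u ∧ u ≠ v := by
    decide
  obtain ⟨w, x, h1, h2, h3, h4, h5, h6⟩ := key u v huv
  -- along the path `u, w, x, v` the set is left once
  by_cases hw : S w
  · by_cases hx : S x
    · have h7 := hcon x v hx hv h3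
      rcases Sym2.eq_iff.1 h7 with ⟨h8, -⟩ | ⟨h8, -⟩
      · exact h5 h8
      · exact h3.ne h8
    · have h7 := hcon w x hw hx h2
      rcases Sym2.eq_iff.1 h7 with ⟨h8, -⟩ | ⟨h8, -⟩
      · exact h1.ne h8.symm
      · exact h4 h8
  · have h7 := hcon u w hu hw h1
    rcases Sym2.eq_iff.1 h7 with ⟨-, h8⟩ | ⟨h8, -⟩
    · exact h4 h8
    · exact h6 h8

/-- Faces of a graph without triangles and of minimum degree two have length at least four. -/
theorem four_le_sz_of {V : Type} [Fintype V] [DecidableEq V] {G : SimpleGraph V}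
    [DecidableRel G.Adj] (R : Rot G) (h2 : ∀ v, 2 ≤ G.degree v)
    (ht : ∀ a b c : V, ¬ (G.Adj a b ∧ G.Adj b c ∧ G.Adj a c)) (d : G.Dart) : 4 ≤ sz R d := by
  have h0 := next_sz R d
  have hpos : 0 < sz R d := by
    rw [sz_eq, Function.minimalPeriod_pos_iff_mem_periodicPts]
    refine ⟨orderOf R.next, orderOf_pos R.next, ?_⟩
    show R.next^[orderOf R.next] d = d
    rw [← Equiv.Perm.coe_pow, pow_orderOf_eq_one]
    rfl
  by_contra hcon
  have h1 : sz R d = 1 ∨ sz R d = 2 ∨ sz R d = 3 := by omega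
  rcases h1 with h1 | h1 | h1
  · rw [h1] at h0
    have h2 := R.fst_next d
    have h3 : R.next d = d := h0
    rw [h3] at h2
    exact d.adj.ne h2
  · rw [h1] at h0
    have h0' : R.next (R.next d) = d := h0
    have h3 := R.fst_next d
    have h4 := R.fst_next (R.next d)
    rw [h0'] at h4
    exact T392.next_ne_symm R (h2 _) (SimpleGraph.Dart.ext _ _ (Prod.ext h3 h4.symm))
  · rw [h1] at h0
    have h0' : R.next (R.next (R.next d)) = d := h0
    have h2 := R.fst_next d
    have h3 := R.fst_next (R.next d)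
    have h4 := R.fst_next (R.next (R.next d))
    rw [h0'] at h4
    refine ht d.fst d.snd (R.next d).snd ⟨d.adj, ?_, ?_⟩
    · have h5 := (R.next d).adj
      rwa [h2] at h5
    · have h5 := (R.next (R.next d)).adj
      rw [h3, ← h4] at h5
      exact h5.symm

/-- **The graph `K33` is not planar.** -/
theorem not_pl_K33 : ¬ Pl K33 := by
  classical
  intro h
  obtain ⟨R, hP⟩ := exists_rot_of_pl h K33_connected ⟨0, 3, by decide⟩
    (fun v => (K33_degree v).le) K33_cut
  have h1 := T1Red.sum_size R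
  have h2 := hP.2
  rw [K33_edges] at h1 h2
  rw [Fintype.card_fin] at h2
  have h3 : ∀ f : R.Face, 4 ≤ R.size f := by
    intro f
    obtain ⟨d, rfl⟩ := Quotient.exists_rep f
    exact four_le_sz_of R (fun v => by rw [K33_degree]; omega) K33_tri d
  have h4 : ∑ _f : R.Face, 4 ≤ ∑ f : R.Face, R.size f := sum_le_sum fun f _ => h3 f
  rw [sum_const, card_univ, smul_eq_mul] at h4
  omega

variable {V : Type} [Fintype V] [DecidableEq V] {G : SimpleGraph V}

/-- Sides with at most three leaving edges, which end in different vertices, are connected. -/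
theorem conn_gen (two : ∀ A : Set V, A.Nonempty → A ≠ Set.univ → 2 ≤ (leave G A).ncard)
    {P : V → Prop} {k : ℕ} (hk : k ≤ 3) {t s : Fin k → V}
    (hcut : ∀ u v, P u → ¬ P v → G.Adj u v → ∃ i, u = t i ∧ v = s i) (hout : ∃ v, ¬ P v)
    (φ : V → ℚ) (hφ : ∀ u v, G.Adj u v → P u → P v → φ u = φ v) :
    ∀ u v, P u → P v → φ u = φ v := by
  classical
  intro x y hx hy
  by_contra hne
  obtain ⟨v0, hv0⟩ := hout
  have key : ∀ B : Set V, B ⊆ {w | P w} → (∀ u v, u ∈ B → P v → G.Adj u v → v ∈ B) →
      (leave G B).ncard ≤ {i : Fin k | t i ∈ B}.ncard := by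
    intro B hB hB2
    have h1 : leave G B ⊆ (fun i => (t i, s i)) '' {i : Fin k | t i ∈ B} := by
      rintro ⟨u, v⟩ ⟨h1, h2, h3⟩
      have h1' : u ∈ B := h1
      have h4 : ¬ P v := fun h5 => h2 (hB2 u v h1 h5 h3)
      obtain ⟨i, h5, h6⟩ := hcut u v (hB h1') h4 h3
      refine ⟨i, ?_, ?_⟩
      · show t i ∈ B
        rw [← h5]
        exact h1'
      · show (t i, s i) = (u, v)
        rw [h5, h6]
    exact (Set.ncard_le_ncard h1 (Set.toFinite _)).trans (Set.ncard_image_le (Set.toFinite _))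
  set B : Set V := {w | P w ∧ φ w = φ x} with hB
  set B' : Set V := {w | P w ∧ φ w ≠ φ x} with hB'
  have k1 := key B (fun w hw => hw.1) (fun u v hu hv huv => ⟨hv, by
    rw [← hφ u v huv hu.1 hv]; exact hu.2⟩)
  have k2 := key B' (fun w hw => hw.1) (fun u v hu hv huv => ⟨hv, by
    rw [← hφ u v huv hu.1 hv]; exact hu.2⟩)
  have n1 : 2 ≤ (leave G B).ncard := two B ⟨x, hx, rfl⟩ fun h5 => by
    have : v0 ∈ B := by rw [h5]; exact Set.mem_univ _
    exact hv0 this.1
  have n2 : 2 ≤ (leave G B').ncard := two B' ⟨y, hy, fun h5 => hne h5.symm⟩ fun h5 => by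
    have : v0 ∈ B' := by rw [h5]; exact Set.mem_univ _
    exact hv0 this.1
  have h6 : Disjoint {i : Fin k | t i ∈ B} {i | t i ∈ B'} := by
    rw [Set.disjoint_left]
    intro i h1 h2
    exact h2.2 h1.2
  have h7 := Set.ncard_union_eq h6 (Set.toFinite _) (Set.toFinite _)
  have h8 := Set.ncard_le_ncard (Set.subset_univ ({i : Fin k | t i ∈ B} ∪ {i | t i ∈ B'}))
    (Set.toFinite _)
  rw [Set.ncard_univ, Nat.card_eq_fintype_card, Fintype.card_fin] at h8
  omega

/-- **No hub.**  No vertex of a side of a cut with three edges is adjacent to all three ends, if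
the ends have degree three. -/
theorem no_hub (hpl : Pl G) (ht : G.CliqueFree 3) (hd : ∀ v, (G.neighborSet v).ncard ≤ 3)
    (two : ∀ A : Set V, A.Nonempty → A ≠ Set.univ → 2 ≤ (leave G A).ncard) {X : V → Prop}
    {a b : Fin 3 → V} (hc : CutK G X a b) (h3 : ∀ i, (G.neighborSet (a i)).ncard = 3) {u : V}
    (hu : X u) (hadj : ∀ i, G.Adj u (a i)) : False := by
  classical
  have hub : ∀ i, u ≠ b i := fun i h => hc.hY i (h ▸ hu)
  have hua : ∀ i, u ≠ a i := fun i => (hadj i).ne
  -- the neighbours of the hub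
  have hnu : ∀ v, G.Adj u v → ∃ i, v = a i := by
    have h1 : Set.range a ⊆ G.neighborSet u := by
      rintro _ ⟨i, rfl⟩
      exact hadj i
    have h2 : (Set.range a).ncard = 3 := by
      rw [← Set.image_univ, Set.ncard_image_of_injective _ hc.ia, Set.ncard_univ,
        Nat.card_eq_fintype_card, Fintype.card_fin]
    have h4 := Set.eq_of_subset_of_ncard_le h1 (by rw [h2]; exact hd u) (Set.toFinite _)
    intro v hv
    have h5 : v ∈ Set.range a := by
      rw [h4]
      exact hv
    obtain ⟨i, hi⟩ := h5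
    exact ⟨i, hi.symm⟩
  -- the third neighbours
  have hex : ∀ i, ∃ t, t ≠ b i ∧ t ≠ u ∧ G.Adj (a i) t ∧
      ∀ v, G.Adj (a i) v → v = b i ∨ v = u ∨ v = t := by
    intro i
    obtain ⟨x, y, z, hxy, hxz, hyz, h4⟩ := Set.ncard_eq_three.1 (h3 i)
    have h5 : ∀ v, G.Adj (a i) v ↔ v = x ∨ v = y ∨ v = z := by
      intro v
      have : v ∈ G.neighborSet (a i) ↔ v ∈ ({x, y, z} : Set V) := by rw [h4]
      exact this
    have e1 := (h5 (b i)).1 (hc.adj i)
    have e2 := (h5 u).1 (hadj i).symm
    have e3 := hub i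
    rcases e1 with e1 | e1 | e1 <;> rcases e2 with e2 | e2 | e2
    · exact absurd (e2.trans e1.symm) e3
    · exact ⟨z, by rw [e1]; exact hxz.symm, by rw [e2]; exact hyz.symm, (h5 z).2 (by tauto),
        fun v hv => by have := (h5 v).1 hv; rw [e1, e2]; tauto⟩
    · exact ⟨y, by rw [e1]; exact hxy.symm, by rw [e2]; exact hyz, (h5 y).2 (by tauto),
        fun v hv => by have := (h5 v).1 hv; rw [e1, e2]; tauto⟩
    · exact ⟨z, by rw [e1]; exact hyz.symm, by rw [e2]; exact hxz.symm, (h5 z).2 (by tauto),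
        fun v hv => by have := (h5 v).1 hv; rw [e1, e2]; tauto⟩
    · exact absurd (e2.trans e1.symm) e3
    · exact ⟨x, by rw [e1]; exact hxy, by rw [e2]; exact hxz, (h5 x).2 (by tauto),
        fun v hv => by have := (h5 v).1 hv; rw [e1, e2]; tauto⟩
    · exact ⟨y, by rw [e1]; exact hyz, by rw [e2]; exact hxy.symm, (h5 y).2 (by tauto),
        fun v hv => by have := (h5 v).1 hv; rw [e1, e2]; tauto⟩
    · exact ⟨x, by rw [e1]; exact hxz, by rw [e2]; exact hxy, (h5 x).2 (by tauto),
        fun v hv => by have := (h5 v).1 hv; rw [e1, e2]; tauto⟩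
    · exact absurd (e2.trans e1.symm) e3
  choose t ht1 ht2 ht3 ht4 using hex
  have htX : ∀ i, X (t i) := by
    intro i
    by_contra h
    obtain ⟨j, h5, h6⟩ := hc.cut (a i) (t i) (hc.hX i) h (ht3 i)
    exact ht1 i (by rw [h6, hc.ia h5])
  have hta : ∀ i j, t i ≠ a j := by
    intro i j h
    have h5 : G.Adj (a i) (a j) := h ▸ ht3 i
    exact ht {u, a i, a j} (SimpleGraph.is3Clique_iff.2 ⟨u, a i, a j, hadj i, hadj j, h5, rfl⟩)
  set Y : V → Prop := fun v => X v ∧ v ≠ u ∧ ∀ j, v ≠ a j with hY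
  have htY : ∀ i, Y (t i) := fun i => ⟨htX i, ht2 i, hta i⟩
  -- the neighbour of `a i` in the class `c`
  set nb : Fin 3 → Fin 6 → V := fun i c => if c = 3 then u else if c = 4 then t i else b i with hnb
  set π : V → Fin 6 := fun v => if v = a 0 then 0 else if v = a 1 then 1 else if v = a 2 then 2
    else if v = u then 3 else if X v then 4 else 5 with hπ
  have n01 : a 1 ≠ a 0 := fun h => absurd (hc.ia h) (by decide)
  have n02 : a 2 ≠ a 0 := fun h => absurd (hc.ia h) (by decide)
  have n12 : a 2 ≠ a 1 := fun h => absurd (hc.ia h) (by decide)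
  have pa0 : π (a 0) = 0 := if_pos rfl
  have pa1 : π (a 1) = 1 := by
    show (if a 1 = a 0 then _ else _) = _
    rw [if_neg n01, if_pos rfl]
  have pa2 : π (a 2) = 2 := by
    show (if a 2 = a 0 then _ else _) = _
    rw [if_neg n02, if_neg n12, if_pos rfl]
  have pu : π u = 3 := by
    show (if u = a 0 then _ else _) = _
    rw [if_neg (hua 0), if_neg (hua 1), if_neg (hua 2), if_pos rfl]
  have pY : ∀ v, Y v → π v = 4 := by
    intro v hv
    show (if v = a 0 then _ else _) = _
    rw [if_neg (hv.2.2 0), if_neg (hv.2.2 1), if_neg (hv.2.2 2), if_neg hv.2.1, if_pos hv.1]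
  have po : ∀ v, ¬ X v → π v = 5 := by
    intro v hv
    have h5 : ∀ i, v ≠ a i := fun i h => hv (h ▸ hc.hX i)
    have h6 : v ≠ u := fun h => hv (by rw [h]; exact hu)
    show (if v = a 0 then _ else _) = _
    rw [if_neg (h5 0), if_neg (h5 1), if_neg (h5 2), if_neg h6, if_neg hv]
  have pa : ∀ i, (π (a i)).val = i.val := by
    intro i
    fin_cases i
    · show (π (a 0)).val = 0
      rw [pa0]
      rfl
    · show (π (a 1)).val = 1
      rw [pa1]
      rfl
    · show (π (a 2)).val = 2
      rw [pa2]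
      rfl
  have cases : ∀ v, (∃ i, v = a i) ∨ v = u ∨ Y v ∨ ¬ X v := by
    intro v
    by_cases h1 : ∃ i, v = a i
    · exact Or.inl h1
    · by_cases h2 : v = u
      · exact Or.inr (Or.inl h2)
      · by_cases h4 : X v
        · exact Or.inr (Or.inr (Or.inl ⟨h4, h2, fun j h => h1 ⟨j, h⟩⟩))
        · exact Or.inr (Or.inr (Or.inr h4))
  -- the edges between different classes
  have edge1 : ∀ i y, G.Adj (a i) y → y = nb i (π y) ∧ 3 ≤ (π y).val := by
    intro i y hy
    rcases ht4 i y hy with rfl | rfl | rfl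
    · rw [po _ (hc.hY i)]
      exact ⟨rfl, by decide⟩
    · rw [pu]
      exact ⟨rfl, by decide⟩
    · rw [pY _ (htY i)]
      exact ⟨rfl, by decide⟩
  have edge : ∀ x y, G.Adj x y → π x ≠ π y → (∃ i, x = a i) ∨ ∃ i, y = a i := by
    intro x y hxy hne
    by_contra hcon
    rw [not_or] at hcon
    obtain ⟨hx, hy⟩ := hcon
    rcases (cases x).resolve_left hx with rfl | hx2 | hx2
    · exact hy (hnu y hxy)
    · rcases (cases y).resolve_left hy with rfl | hy2 | hy2
      · exact hx (hnu x hxy.symm)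
      · exact hne ((pY x hx2).trans (pY y hy2).symm)
      · obtain ⟨i, h5, -⟩ := hc.cut x y hx2.1 hy2 hxy
        exact hx ⟨i, h5⟩
    · rcases (cases y).resolve_left hy with rfl | hy2 | hy2
      · exact hx (hnu x hxy.symm)
      · obtain ⟨i, h5, -⟩ := hc.cut y x hy2.1 hx2 hxy.symm
        exact hy ⟨i, h5⟩
      · exact hne ((po x hx2).trans (po y hy2).symm)
  have ofpi : ∀ v i, π v = π (a i) → v = a i := by
    intro v i h
    have hval : (π v).val < 3 := by
      rw [h, pa]
      exact i.isLt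
    rcases cases v with ⟨j, rfl⟩ | rfl | h5 | h5
    · have h6 : j.val = i.val := by rw [← pa, ← pa, h]
      rw [Fin.ext h6]
    · rw [pu] at hval
      exact absurd hval (by decide)
    · rw [pY v h5] at hval
      exact absurd hval (by decide)
    · rw [po v h5] at hval
      exact absurd hval (by decide)
  refine not_pl_K33 (hpl.contract π ?_ ?_ ?_ ?_)
  · intro x y hxy hne
    rcases edge x y hxy hne with ⟨i, rfl⟩ | ⟨i, rfl⟩
    · exact Or.inl ⟨by rw [pa]; exact i.isLt, (edge1 i y hxy).2⟩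
    · exact Or.inr ⟨by rw [pa]; exact i.isLt, (edge1 i x hxy.symm).2⟩
  · have main : ∀ x y : Fin 6, x.val < 3 → 3 ≤ y.val →
        ∃ p q, G.Adj p q ∧ π p = x ∧ π q = y := by
      intro x y hx hy
      have h5 : π (a ⟨x.val, hx⟩) = x := Fin.ext (pa ⟨x.val, hx⟩)
      have h6 : y = 3 ∨ y = 4 ∨ y = 5 := by
        revert hy
        revert y
        decide
      rcases h6 with rfl | rfl | rfl
      · exact ⟨_, u, (hadj _).symm, h5, pu⟩
      · exact ⟨_, t ⟨x.val, hx⟩, ht3 _, h5, pY _ (htY _)⟩
      · exact ⟨_, b ⟨x.val, hx⟩, hc.adj _, h5, po _ (hc.hY _)⟩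
    rintro x y (⟨h5, h6⟩ | ⟨h5, h6⟩)
    · exact main x y h5 h6
    · obtain ⟨p, q, h7, h8, h9⟩ := main y x h5 h6
      exact ⟨q, p, h7.symm, h9, h8⟩
  · intro x y x' y' h5 h6 h7 h8 hne
    rcases edge x y h5 hne with ⟨i, rfl⟩ | ⟨i, rfl⟩
    · have e1 := ofpi x' i h7.symm
      subst e1
      refine ⟨rfl, ?_⟩
      rw [(edge1 i y h5).1, h8]
      exact (edge1 i y' h6).1.symm
    · have e1 := ofpi y' i h8.symm
      subst e1
      refine ⟨?_, rfl⟩
      rw [(edge1 i x h5.symm).1, h7]
      exact (edge1 i x' h6.symm).1.symm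
  · intro φ hφ x y hxy
    have c1 := conn_gen two (P := Y) (k := 3) le_rfl (t := t) (s := a) (by
      intro p q hp hq hpq
      rcases cases q with ⟨i, rfl⟩ | rfl | h5 | h5
      · rcases ht4 i p hpq.symm with h6 | h6 | h6
        · exact absurd hp.1 (h6 ▸ hc.hY i)
        · exact absurd h6 hp.2.1
        · exact ⟨i, h6, rfl⟩
      · obtain ⟨i, h6⟩ := hnu p hpq.symm
        exact absurd h6 (hp.2.2 i)
      · exact absurd h5 hq
      · obtain ⟨i, h6, -⟩ := hc.cut p q hp.1 h5 hpq
        exact absurd h6 (hp.2.2 i)) ⟨u, fun h => h.2.1 rfl⟩ φ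
      (fun p q hpq hp hq => hφ p q hpq ((pY p hp).trans (pY q hq).symm))
    have c2 := conn_gen two (P := fun v => ¬ X v) (k := 3) le_rfl (t := b) (s := a) (by
      intro p q hp hq hpq
      obtain ⟨i, h5, h6⟩ := hc.cut q p (not_not.1 hq) hp hpq.symm
      exact ⟨i, h6, h5⟩) ⟨u, fun h => h hu⟩ φ
      (fun p q hpq hp hq => hφ p q hpq ((po p hp).trans (po q hq).symm))
    rcases cases x with ⟨i, rfl⟩ | rfl | h5 | h5
    · rw [ofpi y i hxy.symm]
    · rcases cases y with ⟨i, rfl⟩ | rfl | h6 | h6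
      · rw [ofpi x i hxy]
      · rfl
      · rw [pu, pY y h6] at hxy
        exact absurd hxy (by decide)
      · rw [pu, po y h6] at hxy
        exact absurd hxy (by decide)
    · rcases cases y with ⟨i, rfl⟩ | rfl | h6 | h6
      · rw [ofpi x i hxy]
      · rw [pu, pY x h5] at hxy
        exact absurd hxy (by decide)
      · exact c1 x y h5 h6
      · rw [pY x h5, po y h6] at hxy
        exact absurd hxy (by decide)
    · rcases cases y with ⟨i, rfl⟩ | rfl | h6 | h6
      · rw [ofpi x i hxy]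
      · rw [pu, po x h5] at hxy
        exact absurd hxy (by decide)
      · rw [po x h5, pY y h6] at hxy
        exact absurd hxy (by decide)
      · exact c2 x y h5 h6

end Pool.Agent.CutN
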