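import Mathlib
import Pool.Agent.Work.MP_392c8e_co_uni.RingKill
import Pool.Agent.Work.MP_392c8e_co_uni.ExSide
import Pool.Agent.Work.MP_392c8e_co_uni.Hub
import Pool.Agent.Work.MP_392c8e_co_uni.BadSide

/-!
# The letter ring

In a smallest graph without colourings at level `N`, let `S` be a side of a cut with three edges
whose ends have degree three, are pairwise not adjacent and pairwise have a common neighbour in
`S`.  Then every end of `S` has a vertex of degree two within distance five, inside `S`.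
-/

namespace Pool.Agent.CutN

open Pool.Agent.Red (leave mem_leave side side_le)
open Pool.Agent.Bad59 (dg third second)

set_option linter.unusedSectionVars false

variable {V : Type} [Fintype V] [DecidableEq V] {G : SimpleGraph V} {N n : ℤ}

/-- **Small sets with at most two leaving edges.** -/
theorem MinN.deg_two (h : MinN N G) (hN : 2 ≤ N) {Z : Set V} (hZ : (leave G Z).ncard ≤ 2)
    (hc : 3 ≤ Zᶜ.ncard) {v : V} (hv : v ∈ Z) : (G.neighborSet v).ncard = 2 := by
  classical
  have h2 : Z.ncard ≤ 2 := by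
    rcases h.cut_two hN Z hZ with h3 | h3
    · exact h3
    · omega
  by_contra hne
  have h3 : (G.neighborSet v).ncard = 3 := by
    have := h.two_le hN v
    have := h.deg v
    omega
  -- the leaving edges at `v`
  have hsub : (fun w => (v, w)) '' (G.neighborSet v \ Z) ⊆ leave G Z := by
    rintro _ ⟨w, ⟨hw, hwZ⟩, rfl⟩
    exact ⟨hv, hwZ, hw⟩
  have hinj : Function.Injective fun w : V => (v, w) := fun a b e => (Prod.mk.inj e).2
  have hcard : ((fun w => (v, w)) '' (G.neighborSet v \ Z)).ncard =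
      (G.neighborSet v \ Z).ncard := Set.ncard_image_of_injective _ hinj
  by_cases hex : ∃ v', v' ∈ Z ∧ G.Adj v v'
  · obtain ⟨v', hv', hadj⟩ := hex
    have hZe : Z = {v, v'} := by
      refine (Set.eq_of_subset_of_ncard_le ?_ ?_ (Set.toFinite _)).symm
      · rintro x (rfl | rfl)
        · exact hv
        · exact hv'
      · rw [Set.ncard_pair hadj.ne]
        exact h2
    obtain ⟨w', hw', hne'⟩ : ∃ w', G.Adj v' w' ∧ w' ≠ v := by
      have h4 := h.two_le hN v'
      obtain ⟨w', hw', hne'⟩ := Set.exists_ne_of_one_lt_ncard (s := G.neighborSet v') (by omega) v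
      exact ⟨w', hw', hne'⟩
    have hw'Z : w' ∉ Z := by
      rw [hZe]
      rintro (h5 | h5)
      · exact hne' h5
      · exact hw'.ne h5.symm
    have h6 : 2 ≤ (G.neighborSet v \ Z).ncard := by
      have h7 : G.neighborSet v ⊆ (G.neighborSet v \ Z) ∪ {v'} := by
        intro x hx
        by_cases hxZ : x ∈ Z
        · right
          rw [hZe] at hxZ
          rcases hxZ with rfl | h8
          · exact absurd hx (G.irrefl)
          · exact h8
        · exact Or.inl ⟨hx, hxZ⟩
      have h8 := Set.ncard_le_ncard h7 (Set.toFinite _)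
      have h9 := Set.ncard_union_le (G.neighborSet v \ Z) {v'}
      rw [Set.ncard_singleton] at h9
      omega
    have h10 : insert (v', w') ((fun w => (v, w)) '' (G.neighborSet v \ Z)) ⊆ leave G Z := by
      rintro x (rfl | hx)
      · exact ⟨hv', hw'Z, hw'⟩
      · exact hsub hx
    have h11 : (v', w') ∉ (fun w => (v, w)) '' (G.neighborSet v \ Z) := by
      rintro ⟨w, -, h12⟩
      exact hadj.ne (Prod.mk.inj h12).1
    have h12 := Set.ncard_le_ncard h10 (Set.toFinite _)
    rw [Set.ncard_insert_of_notMem h11 (Set.toFinite _), hcard] at h12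
    omega
  · push Not at hex
    have h4 : G.neighborSet v \ Z = G.neighborSet v := by
      ext x
      exact ⟨fun hx => hx.1, fun hx => ⟨hx, fun hxZ => hex x hxZ hx⟩⟩
    have h5 := Set.ncard_le_ncard hsub (Set.toFinite _)
    rw [hcard, h4] at h5
    omega

/-- The ring of a side: the vertices and their neighbours. -/
structure RingData (G : SimpleGraph V) (S : Set V) (a b u : Fin 3 → V) : Prop where
  hu : ∀ i, u i ∈ S
  inj : Function.Injective u
  adj : ∀ i j, i ≠ j → G.Adj (a i) (u j)
  nadj : ∀ i, ¬ G.Adj (a i) (u i)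
  ne : ∀ i j, u i ≠ a j
  nuu : ∀ i j, ¬ G.Adj (u i) (u j)
  nba : ∀ i v, G.Adj (a i) v → v = b i ∨ ∃ j, j ≠ i ∧ v = u j

theorem fin3_two : ∀ i : Fin 3, ∃ j k : Fin 3, j ≠ i ∧ k ≠ i ∧ j ≠ k := by decide

theorem fin3_third : ∀ i j : Fin 3, i ≠ j → ∃ k : Fin 3, k ≠ i ∧ k ≠ j := by decide

theorem fin3_cov : ∀ i j k m : Fin 3, i ≠ j → k ≠ i → k ≠ j → m = i ∨ m = j ∨ m = k := by decide

/-- The ring. -/
theorem exists_ringData (h : MinN N G) (hN : 2 ≤ N) {S : Set V} {a b : Fin 3 → V}
    (hc : CutK G (· ∈ S) a b) (h3 : ∀ i, (G.neighborSet (a i)).ncard = 3)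
    (hna : ∀ i j, ¬ G.Adj (a i) (a j))
    (hcom : ∀ i j, i ≠ j → ∃ w, w ∈ S ∧ G.Adj (a i) w ∧ G.Adj (a j) w) :
    ∃ u : Fin 3 → V, RingData G S a b u := by
  have tri := h.tri
  have htri : ∀ x y z, G.Adj x y → G.Adj y z → G.Adj x z → False := fun x y z h1 h2 h3' =>
    tri {x, y, z} (SimpleGraph.is3Clique_iff.2 ⟨x, y, z, h1, h3', h2, rfl⟩)
  have hw : ∀ i : Fin 3, ∃ w, w ∈ S ∧ ∀ j, j ≠ i → G.Adj (a j) w := by
    intro i
    obtain ⟨j, k, hj, hk, hjk⟩ := fin3_two i
    obtain ⟨w, h1, h2, h3'⟩ := hcom j k hjk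
    refine ⟨w, h1, fun m hm => ?_⟩
    rcases fin3_cov j k i m hjk hj.symm hk.symm with rfl | rfl | rfl
    · exact h2
    · exact h3'
    · exact absurd rfl hm
  choose u hu hadj using hw
  have hnadj : ∀ i, ¬ G.Adj (a i) (u i) := by
    intro i hi
    refine no_hub h.pl h.tri h.deg (fun A h1 h2 => h.ge_two hN h1 h2) hc h3 (hu i) fun j => ?_
    by_cases hj : j = i
    · rw [hj]; exact hi.symm
    · exact (hadj i j hj).symm
  have hinj : Function.Injective u := by
    intro i j hij
    by_contra hne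
    exact hnadj i (by rw [hij]; exact hadj j i hne)
  have hne : ∀ i j, u i ≠ a j := by
    intro i j e
    obtain ⟨k, m, hk, hm, hkm⟩ := fin3_two i
    have h1 := hadj i k hk
    rw [e] at h1
    exact hna k j h1
  refine ⟨u, hu, hinj, fun i j hij => hadj j i hij, hnadj, hne, ?_, ?_⟩
  · intro i j hij
    by_cases e : i = j
    · exact hij.ne (by rw [e])
    · obtain ⟨k, hk1, hk2⟩ := fin3_third i j e
      exact htri _ _ _ (hadj i k hk1) hij (hadj j k hk2)
  · intro i v hv
    obtain ⟨j, k, hj, hk, hjk⟩ := fin3_two i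
    have hb : ∀ j, b i ≠ u j := fun j e => hc.hY i (by rw [e]; exact hu j)
    obtain ⟨z, h1, h2, h4, h5⟩ := third (G := G) (v := a i) (h3 i) (hadj j i hj.symm)
      (hadj k i hk.symm) (fun e => hjk (hinj e))
    have hz : z = b i := by
      rcases h5 _ (hc.adj i) with h6 | h6 | h6
      · exact absurd h6 (hb j)
      · exact absurd h6 (hb k)
      · exact h6.symm
    rcases h5 v hv with h6 | h6 | h6
    · exact Or.inr ⟨j, hj, h6⟩
    · exact Or.inr ⟨k, hk, h6⟩
    · exact Or.inl (h6.trans hz)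

/-- A vertex of degree two near one vertex of the ring is near all ends. -/
theorem RingData.ex {S : Set V} {a b u : Fin 3 → V} (hd : RingData G S a b u)
    (hc : CutK G (· ∈ S) a b) {k : ℕ} {i : Fin 3} (h : Deg2In G k S (u i)) :
    EX G (k + 3) S := by
  intro x hx ⟨y, hy, hxy⟩
  obtain ⟨j, rfl, -⟩ := hc.cut x y hx hy hxy
  by_cases hij : j = i
  · subst hij
    obtain ⟨m, l, hm, hl, hml⟩ := fin3_two j
    have h1 := h.cons (hc.hX m) (hd.adj m j hm)
    have h2 := h1.cons (hd.hu l) (hd.adj m l hml).symm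
    exact h2.cons (hc.hX j) (hd.adj j l hl.symm)
  · exact (h.cons (hc.hX j) (hd.adj j i hij)).mono (by omega) subset_rfl

/-- **The letter ring.** -/
theorem hub_kill (h : MinN N G) (hn : 0 < n) (hN : 1000 * n + 1000 ≤ N) {S : Set V}
    {a b : Fin 3 → V} (hc : CutK G (· ∈ S) a b)
    (h3 : ∀ i, (G.neighborSet (a i)).ncard = 3) (hna : ∀ i j, ¬ G.Adj (a i) (a j))
    (hcom : ∀ i j, i ≠ j → ∃ w, w ∈ S ∧ G.Adj (a i) w ∧ G.Adj (a j) w)
    (hacc : ∀ T : Set V, T ⊆ S → Th3 G T → ∀ a b : Fin 3 → V, CutK G (· ∈ T) a b →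
      (∀ i, (G.neighborSet (a i)).ncard = 3) → AccHyp n G T a) : EX G 5 S := by
  classical
  have hN2 : 2 ≤ N := by linarith
  have htri : ∀ x y z, G.Adj x y → G.Adj y z → G.Adj x z → False := fun x y z h1 h2 h3' =>
    h.tri {x, y, z} (SimpleGraph.is3Clique_iff.2 ⟨x, y, z, h1, h3', h2, rfl⟩)
  obtain ⟨u, hd⟩ := exists_ringData h hN2 hc h3 hna hcom
  -- a ring vertex of degree two
  by_cases hcub : ∀ i, (G.neighborSet (u i)).ncard = 3
  swap
  · push Not at hcub
    obtain ⟨i, hi⟩ := hcub
    have h2 : (G.neighborSet (u i)).ncard = 2 := by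
      have := h.two_le hN2 (u i)
      have := h.deg (u i)
      omega
    exact (hd.ex hc (Deg2In.self (r := 0) (hd.hu i) h2)).mono (by omega)
  -- the third neighbours
  have hr : ∀ i, ∃ r, G.Adj (u i) r ∧ r ∈ S ∧ (∀ j, r ≠ a j) ∧ (∀ j, r ≠ u j) ∧
      ∀ w, G.Adj (u i) w → w = r ∨ ∃ j, j ≠ i ∧ w = a j := by
    intro i
    obtain ⟨j, k, hj, hk, hjk⟩ := fin3_two i
    obtain ⟨r, h1, h2, h4, h5⟩ := third (G := G) (v := u i) (hcub i) (hd.adj j i hj).symm
      (hd.adj k i hk).symm (fun e => hjk (hc.ia e))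
    have hra : ∀ m, r ≠ a m := by
      intro m e
      rcases fin3_cov j k i m hjk hj.symm hk.symm with rfl | rfl | rfl
      · exact h1 e
      · exact h2 e
      · exact hd.nadj m (e ▸ h4).symm
    refine ⟨r, h4, ?_, hra, fun m e => hd.nuu i m (e ▸ h4), fun w hw => ?_⟩
    · by_contra hrS
      obtain ⟨m, hm, -⟩ := hc.cut (u i) r (hd.hu i) hrS h4
      exact hd.ne i m hm
    · rcases h5 w hw with h6 | h6 | h6
      · exact Or.inr ⟨j, hj, h6⟩
      · exact Or.inr ⟨k, hk, h6⟩
      · exact Or.inl h6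
  choose r r1 r2 r3 r4 r5 using hr
  -- a third neighbour of degree two
  by_cases hrc : ∀ i, (G.neighborSet (r i)).ncard = 3
  swap
  · push Not at hrc
    obtain ⟨i, hi⟩ := hrc
    have h2 : (G.neighborSet (r i)).ncard = 2 := by
      have := h.two_le hN2 (r i)
      have := h.deg (r i)
      omega
    exact (hd.ex hc ((Deg2In.self (r := 0) (r2 i) h2).cons (hd.hu i) (r1 i))).mono (by omega)
  -- the inner side
  set Y : Set V := {v | v ∈ S ∧ (∀ i, v ≠ a i) ∧ ∀ i, v ≠ u i} with hY
  have hrY : ∀ i, r i ∈ Y := fun i => ⟨r2 i, r3 i, r4 i⟩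
  have hYS : Y ⊆ S := fun v hv => hv.1
  have haY : ∀ i, a i ∉ Y := fun i hi => hi.2.1 i rfl
  have huY : ∀ i, u i ∉ Y := fun i hi => hi.2.2 i rfl
  have hcutY : ∀ x y, x ∈ Y → y ∉ Y → G.Adj x y → ∃ i, x = r i ∧ y = u i := by
    intro x y hx hy hxy
    by_cases hyS : y ∈ S
    · have h1 : (∃ i, y = a i) ∨ ∃ i, y = u i := by
        by_contra hcon
        rw [not_or] at hcon
        exact hy ⟨hyS, fun i e => hcon.1 ⟨i, e⟩, fun i e => hcon.2 ⟨i, e⟩⟩
      rcases h1 with ⟨i, rfl⟩ | ⟨i, rfl⟩
      · exfalso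
        rcases hd.nba i x hxy.symm with h2 | ⟨j, -, h2⟩
        · exact hc.hY i (h2 ▸ hx.1)
        · exact hx.2.2 j h2
      · rcases r5 i x hxy.symm with h2 | ⟨j, -, h2⟩
        · exact ⟨i, h2, rfl⟩
        · exact absurd h2 (hx.2.1 j)
    · exfalso
      obtain ⟨i, h1, -⟩ := hc.cut x y hx.1 hyS hxy
      exact hx.2.1 i h1
  have hring : ∀ X : V → Prop, (∀ v, X v → v ∈ Y) → (∀ i, X (r i)) →
      RingOver G X u a b := by
    intro X hX hXr
    refine ⟨hd.inj, hc.ia, fun i j e => hd.ne j i e.symm, fun i j e => hc.hY i (e ▸ hd.hu j),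
      fun i j e => hc.hY i (e ▸ hc.hX j), fun i hi => huY i (hX _ hi), fun i hi => haY i (hX _ hi),
      fun i hi => hc.hY i (hYS (hX _ hi)), fun i => (hc.adj i).symm,
      fun i j hij => hd.adj j i hij.symm, hd.nba, fun i v hv hiv => ?_⟩
    rcases r5 i v hiv with h6 | h6
    · exact absurd (h6 ▸ hXr i) hv
    · exact h6
  -- sets inside `Y`
  have hbig : ∀ Z : Set V, Z ⊆ Y → 3 ≤ Zᶜ.ncard := by
    intro Z hZ
    have h1 : Set.range a ⊆ Zᶜ := by
      rintro _ ⟨i, rfl⟩ hi
      exact haY i (hZ hi)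
    have h2 : (Set.range a).ncard = 3 := by
      rw [← Set.image_univ, Set.ncard_image_of_injective _ hc.ia, Set.ncard_univ, Nat.card_eq_fintype_card,
        Fintype.card_fin]
    have h4 := Set.ncard_le_ncard h1 (Set.toFinite _)
    omega
  -- two equal third neighbours
  by_cases hinj : Function.Injective r
  swap
  · exfalso
    unfold Function.Injective at hinj
    push Not at hinj
    obtain ⟨i, j, hij, hne⟩ := hinj
    obtain ⟨k, hk1, hk2⟩ := fin3_third i j hne
    have hcov := fin3_cov i j k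
    set Z : Set V := {v | v ∈ Y ∧ v ≠ r i} with hZ
    obtain ⟨x, hx1, hx2, hx3, hx4⟩ := third (G := G) (v := r i) (hrc i) (r1 i).symm
      (show G.Adj (r i) (u j) by rw [hij]; exact (r1 j).symm) (fun e => hne (hd.inj e))
    have hZl : ∀ p q, p ∈ Z → q ∉ Z → G.Adj p q → (p = r k ∧ q = u k) ∨ (p = x ∧ q = r i) := by
      intro p q hp hq hpq
      by_cases hqY : q ∈ Y
      · right
        have hqr : q = r i := by
          by_contra hcon
          exact hq ⟨hqY, hcon⟩
        refine ⟨?_, hqr⟩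
        rw [hqr] at hpq
        rcases hx4 p hpq.symm with h6 | h6 | h6
        · exact absurd (h6 ▸ hp.1) (huY i)
        · exact absurd (h6 ▸ hp.1) (huY j)
        · exact h6
      · left
        obtain ⟨m, h6, h7⟩ := hcutY p q hp.1 hqY hpq
        rcases hcov m hne hk1 hk2 with rfl | rfl | rfl
        · exact absurd h6 hp.2
        · exact absurd (h6.trans hij.symm) hp.2
        · exact ⟨h6, h7⟩
    by_cases hk : r k = r i
    · -- the centre
      have hZ0 : Z = ∅ := by
        rcases h.cut_le_one hN2 Z (by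
          have h6 : leave G Z ⊆ {(x, r i)} := by
            rintro ⟨p, q⟩ ⟨h7, h8, h9⟩
            rcases hZl p q h7 h8 h9 with ⟨h10, -⟩ | ⟨h10, h11⟩
            · exact absurd (h10.trans hk) h7.2
            · rw [h10, h11]; rfl
          exact (Set.ncard_le_ncard h6 (Set.toFinite _)).trans (by rw [Set.ncard_singleton]))
          with h6 | h6
        · exact h6
        · exfalso
          have : a 0 ∈ Z := by rw [h6]; exact Set.mem_univ _
          exact haY 0 this.1
      have hzr : ∀ m, r m = r i := by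
        intro m
        rcases hcov m hne hk1 hk2 with rfl | rfl | rfl
        · rfl
        · exact hij.symm
        · exact hk
      have hro := hring (fun v => v = r i) (fun v hv => by rw [hv]; exact hrY i) hzr
      obtain ⟨c2, g2⟩ : ColN N (side G fun v => ¬ v = r i) :=
        h.sub (side_le _ _) (r1 i) fun h5 => h5.2.2 rfl
      obtain ⟨c, g3, -⟩ := ring_centre_kill (by linarith) (fun v hv => by
        by_cases hvY : v ∈ Y
        · exfalso
          by_cases hvr : v = r i
          · exact hv.ne hvr.symm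
          · have : v ∈ Z := ⟨hvY, hvr⟩
            rw [hZ0] at this
            exact this
        · obtain ⟨m, -, h7⟩ := hcutY _ v (hrY i) hvY hv
          exact ⟨m, h7⟩) hro g2
      exact h.bad ⟨c, g3⟩
    · -- a set with two leaving edges
      have hZ2 : (leave G Z).ncard ≤ 2 := by
        have h6 : leave G Z ⊆ {(r k, u k), (x, r i)} := by
          rintro ⟨p, q⟩ ⟨h7, h8, h9⟩
          rcases hZl p q h7 h8 h9 with ⟨h10, h11⟩ | ⟨h10, h11⟩
          · rw [h10, h11]; exact Or.inl rfl
          · rw [h10, h11]; exact Or.inr rfl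
        refine (Set.ncard_le_ncard h6 (Set.toFinite _)).trans ?_
        exact (Set.ncard_insert_le _ _).trans (by rw [Set.ncard_singleton])
      have h6 := h.deg_two hN2 hZ2 (hbig Z fun v hv => hv.1) (v := r k) ⟨hrY k, hk⟩
      have h7 := hrc k
      omega
  -- the inner side is a thick side
  have hcY : CutK G (· ∈ Y) r u := ⟨hrY, huY, fun i => (r1 i).symm, hinj, hd.inj, hcutY⟩
  have hTh : Th3 G Y := by
    refine ⟨?_, ?_, ?_⟩
    · have h6 : leave G Y = Set.range fun i => (r i, u i) := by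
        ext ⟨p, q⟩
        constructor
        · rintro ⟨h7, h8, h9⟩
          obtain ⟨i, h10, h11⟩ := hcutY p q h7 h8 h9
          exact ⟨i, by rw [h10, h11]⟩
        · rintro ⟨i, h7⟩
          obtain ⟨h8, h9⟩ := Prod.mk.inj h7
          rw [← h8, ← h9]
          exact ⟨hrY i, huY i, (r1 i).symm⟩
      rw [h6, ← Set.image_univ, Set.ncard_image_of_injective _
        (fun i j e => hinj (Prod.mk.inj e).1), Set.ncard_univ, Nat.card_eq_fintype_card, Fintype.card_fin]
    · have h6 : ({r 0, r 1} : Set V) ⊆ {v | v ∈ Y ∧ (G.neighborSet v).ncard = 3} := by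
        rintro x (rfl | rfl)
        · exact ⟨hrY 0, hrc 0⟩
        · exact ⟨hrY 1, hrc 1⟩
      have h7 := Set.ncard_le_ncard h6 (Set.toFinite _)
      rwa [Set.ncard_pair (fun e => absurd (hinj e) (by decide))] at h7
    · have h6 : ({a 0, a 1} : Set V) ⊆ {v | v ∈ Yᶜ ∧ (G.neighborSet v).ncard = 3} := by
        rintro x (rfl | rfl)
        · exact ⟨haY 0, h3 0⟩
        · exact ⟨haY 1, h3 1⟩
      have h7 := Set.ncard_le_ncard h6 (Set.toFinite _)
      rwa [Set.ncard_pair (fun e => absurd (hc.ia e) (by decide))] at h7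
  have hA := hacc Y hYS hTh r u hcY hrc
  have hro := hring (· ∈ Y) (fun v hv => hv) hrY
  obtain ⟨c2, g2⟩ : ColN N (side G fun v => ¬ v ∈ Y) :=
    h.sub (side_le _ _) (r1 0) fun h5 => h5.2.2 (hrY 0)
  by_cases hrr : ∀ i j, ¬ G.Adj (r i) (r j)
  · exfalso
    obtain ⟨c, g3, -⟩ := ring_kill_two (s := n) hn.le (by linarith) hcutY hro (hA.claw hrr) g2
    exact h.bad ⟨c, g3⟩
  · push Not at hrr
    obtain ⟨p, q, hpq⟩ := hrr
    have hpq' : p ≠ q := fun e => hpq.ne (by rw [e])
    obtain ⟨t, ht1, ht2⟩ := fin3_third p q hpq'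
    have hcov := fin3_cov p q t
    -- a third adjacent pair gives a vertex of degree two
    have key : ∀ p q t : Fin 3, p ≠ q → t ≠ p → t ≠ q → (∀ m, m = p ∨ m = q ∨ m = t) →
        G.Adj (r p) (r q) → G.Adj (r q) (r t) → EX G 5 S := by
      intro p q t hpq' htp htq hcov hpq hqt
      have hpt : ¬ G.Adj (r p) (r t) := fun e => htri _ _ _ hpq hqt e
      obtain ⟨x, hx1, hx2, hx3, hx4⟩ := third (G := G) (v := r p) (hrc p) (r1 p).symm hpq
        (fun e => huY p (e ▸ hrY q))
      obtain ⟨y, hy1, hy2, hy3, hy4⟩ := third (G := G) (v := r t) (hrc t) (r1 t).symm hqt.symm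
        (fun e => huY t (e ▸ hrY q))
      have hxY : x ∈ Y := by
        by_contra hxY
        obtain ⟨m, h6, h7⟩ := hcutY _ x (hrY p) hxY hx3
        rw [h7, ← hinj h6] at hx1
        exact hx1 rfl
      have hq : ∀ w, G.Adj (r q) w → w = u q ∨ w = r p ∨ w = r t := by
        obtain ⟨z, hz1, hz2, hz3, hz4⟩ := third (G := G) (v := r q) (hrc q) (r1 q).symm hpq.symm
          (fun e => huY q (e ▸ hrY p))
        intro w hw
        have h6 : r t = z := by
          rcases hz4 _ hqt with h7 | h7 | h7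
          · exact absurd (h7 ▸ hrY t) (huY q)
          · exact absurd (hinj h7) htp
          · exact h7
        rcases hz4 w hw with h7 | h7 | h7
        · exact Or.inl h7
        · exact Or.inr (Or.inl h7)
        · exact Or.inr (Or.inr (h7.trans h6.symm))
      set Z : Set V := {v | v ∈ Y ∧ ∀ m, v ≠ r m} with hZ
      have hxZ : x ∈ Z := by
        refine ⟨hxY, fun m e => ?_⟩
        rcases hcov m with rfl | rfl | rfl
        · exact hx3.ne e.symm
        · exact hx2 e
        · exact hpt (e ▸ hx3)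
      have hZ2 : (leave G Z).ncard ≤ 2 := by
        have h6 : leave G Z ⊆ {(x, r p), (y, r t)} := by
          rintro ⟨v, w⟩ ⟨h7, h8, h9⟩
          have h10 : w ∈ Y := by
            by_contra h11
            obtain ⟨m, h12, -⟩ := hcutY v w h7.1 h11 h9
            exact h7.2 m h12
          have h11 : ∃ m, w = r m := by
            by_contra hcon
            push Not at hcon
            exact h8 ⟨h10, hcon⟩
          obtain ⟨m, h12⟩ := h11
          rw [h12] at h9 ⊢
          rcases hcov m with rfl | rfl | rfl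
          · left
            rcases hx4 v h9.symm with h13 | h13 | h13
            · exact absurd (h13 ▸ h7.1) (huY _)
            · exact absurd h13 (h7.2 _)
            · rw [h13]
          · exfalso
            rcases hq v h9.symm with h13 | h13 | h13
            · exact absurd (h13 ▸ h7.1) (huY _)
            · exact h7.2 _ h13
            · exact h7.2 _ h13
          · right
            rcases hy4 v h9.symm with h13 | h13 | h13
            · exact absurd (h13 ▸ h7.1) (huY _)
            · exact absurd h13 (h7.2 _)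
            · rw [h13]; rfl
        refine (Set.ncard_le_ncard h6 (Set.toFinite _)).trans ?_
        exact (Set.ncard_insert_le _ _).trans (by rw [Set.ncard_singleton])
      have h6 := h.deg_two hN2 hZ2 (hbig Z fun v hv => hv.1) hxZ
      exact (hd.ex hc (((Deg2In.self (r := 0) (hYS hxY) h6).cons (r2 p) hx3).cons (hd.hu p) (r1 p))).mono
        (by omega)
    by_cases h1 : G.Adj (r q) (r t)
    · exact key p q t hpq' ht1 ht2 (fun m => hcov m hpq' ht1 ht2) hpq h1
    · by_cases h2 : G.Adj (r p) (r t)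
      · exact key q p t hpq'.symm ht2 ht1
          (fun m => by rcases hcov m hpq' ht1 ht2 with h | h | h <;> tauto) hpq.symm h2
      · exfalso
        obtain ⟨c, g3, -⟩ := ring_kill_rung (s := 2 * n) (by linarith) (by linarith) hcutY hro hpq'
          (hA.rung p q t hpq' ht1.symm ht2.symm hpq h2 h1) g2
        exact h.bad ⟨c, g3⟩

end Pool.Agent.CutN
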