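import Mathlib
import Pool.Agent.Work.MP_392c8e_co_uni.LineBL2
import Pool.Agent.Work.MP_392c8e_co_uni.FamilyB
import Pool.Agent.Work.MP_392c8e_co_uni.RingSingle
import Pool.Agent.Work.MP_392c8e_co_uni.Diam

/-!
# Stage B: the fields `flower` and `l2` of the table
-/

namespace Pool.Agent.U2Geo

open Pool.T1Side Pool.Agent.T1Red Pool.Agent.T1FF Pool.Agent.Sub392 Pool.Agent.T392
open Pool.Agent.Disch392 Pool.Agent.Uni392 Pool.Agent.DischB Pool.Agent.RingB
open Pool.Agent.Once392 Pool.Agent.Ring392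
open Pool.Agent.Uni91 (GainP JoinP)

set_option linter.unusedSectionVars false

variable {V : Type} [Fintype V] [DecidableEq V] {G : SimpleGraph V} [DecidableRel G.Adj]
  {R : Rot G}

/-- The shape of the flower. -/
def shpFl : Shape := ⟨Flower, [], [], [], [], []⟩

/-- The shape of two faces of length five. -/
def shpF55 : Shape := ⟨F55, [], F55u_ps, [], F55u_com, []⟩

theorem con_shpFl : shpFl.con 10 := by decide +kernel

theorem con_shpF55 : shpF55.con 10 := by decide +kernel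

theorem C5.plOK_Flower (h : C5 R) (h13 : 13 ≤ Fintype.card V) {d : G.Dart} (K : ℕ)
    (g : sz R d = 5) (g' : ∀ i < 5, nb R d i = 5) :
    PlOK R (20 * (K + 1)) (plc Flower [] [] [] [] [] (ffl R d)) where
  good := h.good_Flower h13 g g'
  hm := by show 15 ≤ 299; norm_num
  ht := by show 5 ≤ 299; norm_num
  ne := ⟨_, mem_Flower d⟩
  diam := by
    have h1 := Shape.diam con_shpFl (f := ffl R d) (h.good_Flower h13 g g')
    intro a ha b hb
    obtain ⟨w, hw⟩ := h1 a ha b hb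
    exact ⟨w, by omega⟩
  kind := Or.inl (Pool.Agent.Ring392.GainP.mono (h.gainP_Flower h13 K g g') (by omega))

/-- **The field `flower`.** -/
theorem C5.inst_flower (h : C5 R) (h13 : 13 ≤ Fintype.card V) (K : ℕ) (d : G.Dart)
    (g : sz R d = 5) (g' : ∀ i < 5, nb R d i = 5) : AtCat (PlOK R (20 * (K + 1))) d.fst :=
  ⟨_, h.plOK_Flower h13 K g g', mem_Flower d⟩

theorem C5.plOK_l2 (h : C5 R) (h13 : 13 ≤ Fintype.card V) {d : G.Dart} {K : ℕ}
    (hs : Snd R K d) (hp : PairS R d) (h2 : nb R d 2 = 6) :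
    PlOK R (20 * (K + 1)) (plc F55 [] F55u_ps [] F55u_com [] (fA (mir R) d.symm)) where
  good := h.good_l2B h13 hp.s hp.s0 hp.n2 hp.n02
  hm := by show 8 ≤ 299; norm_num
  ht := by show 6 ≤ 299; norm_num
  ne := ⟨_, (h.catC_l2 h13 hs hp h2).2.2⟩
  diam := by
    have h1 := Shape.diam con_shpF55 (f := fA (mir R) d.symm)
      (h.good_l2B h13 hp.s hp.s0 hp.n2 hp.n02)
    intro a ha b hb
    obtain ⟨w, hw⟩ := h1 a ha b hb
    exact ⟨w, by omega⟩
  kind := Or.inr ⟨h.joinP_l2 h13 hs hp h2, _, (h.catC_l2 h13 hs hp h2).2.1⟩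

/-- **The field `l2`.** -/
theorem C5.inst_l2 (h : C5 R) (h13 : 13 ≤ Fintype.card V) (K : ℕ) (d : G.Dart)
    (hs : Snd R K d) (hp : PairS R d) (h2 : nb R d 2 = 6) :
    AtCat (PlOK R (20 * (K + 1))) d.fst :=
  ⟨_, h.plOK_l2 h13 hs hp h2, (h.catC_l2 h13 hs hp h2).2.2⟩

end Pool.Agent.U2Geo
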