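import Mathlib
import Pool.Agent.Work.MP_392c8e_co_uni.LineG
import Pool.Agent.Work.MP_392c8e_co_uni.LinesB
import Pool.Agent.Work.MP_392c8e_co_uni.RotTabs
import Pool.Agent.Work.MP_392c8e_co_uni.GapData
import Pool.Agent.Work.MP_392c8e_co_uni.RingBP
import Pool.Agent.Work.MP_392c8e_co_uni.RingSz

/-!
# The line g1 of stage B

The place G1 (a face of length seven with neighbours of length five across the edges 0, 1, 3) has a
gain if the three neighbours have only short neighbours.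
-/

namespace Pool.Agent.DischB

open Finset Pool.Agent.Sub392 Pool.T1Side Pool.Agent.T392 Pool.Agent.Disch392 Pool.Agent.T1FF
  Pool.Agent.T1Red Pool.Agent.U2Geo Pool.Agent.Once392 Pool.Agent.RingB
open Pool.Agent.Uni392 (Place)
open Pool.Agent.Uni91 (GainP)
open Pool.Agent.GapData (gG1 gps_G1 sp_G1)

set_option linter.unusedSectionVars false

variable {V : Type} [Fintype V] [DecidableEq V] {G : SimpleGraph V} [DecidableRel G.Adj]
  {R : Rot G} {K : ℕ}

theorem labG1 : labB G1c [] tG1 = true := by decide +kernel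

/-- Short positions. -/
def shG1 : List (ℕ × ℕ) :=
  [(16, 9), (17, 16), (18, 17), (20, 19), (11, 20), (22, 21), (23, 22), (13, 23)]

theorem shG1_ok : chkSh tG1 (9, 10) [[0], [1], [3]] shG1 = true := by decide +kernel

theorem goodG1 : goodB G1c [] psG1c [] (gsOf tG1 gG1 shG1) = true := by decide +kernel

/-- **The gain of G1.** -/
theorem gain_G1 (hext : G1c.Ext []) (hR : C5 R) (h13 : 13 ≤ Fintype.card V) {d : G.Dart}
    (h : IsG1 R d) (h0 : Bf R K (ad R d 0)) (h1 : Bf R K (ad R d 1)) (h3 : Bf R K (ad R d 3)) :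
    Uni91.Good (sG1.pl (fG1 R d)) G ∧ GainP G (sG1.pl (fG1 R d)) (10 * (K + 1)) := by
  have hg : Uni91.Good (sG1.pl (fG1 R d)) G := good_G1 hext hR h13 h
  have hN : RotOk R (fG1 R d) tG1 :=
    rotG1 (hR.good h.s) (hR.good h.s0) (hR.good h.s1) (hR.good h.s3)
  have hd : Dt (fG1 R d) (9, 10) d := ⟨rfl, (R.fst_next d).symm⟩
  refine ⟨hg, gainP_of hg rfl (gaps_of hR hg rfl (q := sG1.pl (fG1 R d)) hN labG1 gps_G1
    (Or.inl sp_G1) (shorts hN hd ?_ shG1_ok)) goodG1⟩
  intro l hl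
  simp only [List.mem_cons, List.not_mem_nil, or_false] at hl
  rcases hl with rfl | rfl | rfl
  · exact h0.2
  · exact h1.2
  · exact h3.2

/-- **The line g1 of stage B.** -/
theorem lineB_g1 (hext : G1c.Ext []) (hR : C5 R) (h13 : 13 ≤ Fintype.card V)
    (d : G.Dart) (h : Pair7 R d) (s3 : nb R d 3 = 5) (n5 : nb R d 5 ≠ 5)
    (h0 : Snd R K (ad R d 0)) (h1 : Snd R K (ad R d 1)) (h3 : Snd R K (ad R d 3)) :
    ∃ f : ℕ → V, Uni91.Good (sG1.pl f) G ∧ GainP G (sG1.pl f) (10 * (K + 1)) ∧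
      d.fst ∈ (sG1.pl f).Vert := by
  have hG : IsG1 R d := by
    refine ⟨h.s, ?_, ?_, ?_, ?_, ?_, ?_, ?_⟩
    · rw [sz_ac]; exact h.s0
    · rw [sz_ac]; exact h.s1
    · rw [sz_ac]; exact s3
    · rw [sz_ac]; exact h.n2
    · rw [sz_ac]; exact n5
    · rw [sz_ac, ac_eq_ad]; exact h.n02
    · rw [sz_ac, ac_eq_ad]; exact h.n13
  obtain ⟨a, b⟩ := gain_G1 (K := K) hext hR h13 hG h0.1 h1.1 h3.1
  refine ⟨fG1 R d, a, b, 9, ?_, rfl⟩
  show Real G1c [] [] 9
  exact ⟨by decide, by decide, by decide⟩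

end Pool.Agent.DischB
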