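import Mathlib
import Pool.Agent.Work.MP_392c8e_co_uni.GeoG2
import Pool.Agent.Work.MP_392c8e_co_uni.GeoG2R
import Pool.Agent.Work.MP_392c8e_co_uni.LinesB
import Pool.Agent.Work.MP_392c8e_co_uni.RingShB
import Pool.Agent.Work.MP_392c8e_co_uni.GapTen
import Pool.Agent.Work.MP_392c8e_co_uni.GapData
import Pool.Agent.Work.MP_392c8e_co_uni.Shape

/-!
# The lines g2 and g2r of the table of stage B

The contacts 0, 1, 4 of a face of length seven are senders: the places G2 and G2R have a gain, with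
chains of bounded length.
-/

namespace Pool.Agent.InstG2

open Finset Pool.Agent.Sub392 Pool.Agent.T392 Pool.Agent.T1Red Pool.Agent.Disch392
  Pool.Agent.U2Geo Pool.Agent.Once392 Pool.Agent.RingB Pool.Agent.GapData Pool.Agent.DischB
open Pool.Agent.T1FF (ac X Y fG2 tG2 fG2R tG2R rotG2 rotG2R)
open Pool.Agent.Uni91 (GainP)

set_option linter.unusedSectionVars false

variable {V : Type} [Fintype V] [DecidableEq V] {G : SimpleGraph V} [DecidableRel G.Adj]
  {R : Rot G} {d : G.Dart} {K : ℕ}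

theorem acAd (R : Rot G) (d : G.Dart) (i : ℕ) : ac R d i = ad R d i := by
  unfold T1FF.ac ad
  rw [Equiv.Perm.iterate_eq_pow]

theorem szb (R : Rot G) (d : G.Dart) (i : ℕ) : sz R (ac R d i) = nb R d i := by
  rw [acAd]
  rfl

theorem szbb (R : Rot G) (d : G.Dart) (i j : ℕ) :
    sz R (ac R (ac R d i) j) = nb R (ad R d i) j := by
  rw [szb, acAd]

theorem szbbb (R : Rot G) (d : G.Dart) (i j k : ℕ) :
    sz R (ac R (ac R (ac R d i) j) k) = nb R (ad R (ad R d i) j) k := by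
  rw [szb, acAd, acAd]

/-- The shape G2. -/
def shapeG2 : Shape := ⟨G2, [], psG2, [], comG2, []⟩

/-- The shape G2R. -/
def shapeG2R : Shape := ⟨G2R, [], psG2R, [(3, 8)], comG2R, [(2, 7)]⟩

/-- The table of G2 is the table of the place. -/
theorem lab_G2 : labB G2 [] tG2 = true := by decide +kernel

/-- The table of G2R is the table of the place. -/
theorem lab_G2R : labB G2R [] tG2R = true := by decide +kernel

/-- With the short positions next to the contacts 0, 1, 4 the place is good. -/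
theorem goodB_G2 : goodB G2 [] psG2 [] (gsOf tG2 gG2 shG2) = true := by decide +kernel

/-- With the short positions next to the contacts 0, 1, 4 the place is good. -/
theorem goodB_G2R : goodB G2R [] psG2R [(3, 8)] (gsJ tG2R qG2R shG2R) = true := by
  decide +kernel

/-- The place G2 has a gain. -/
theorem gain_G2 (hext : G2.Ext []) (hR : C5 R) (h13 : 13 ≤ Fintype.card V) (h : HypG2 R d)
    (a0 : Bf R K (ad R d 0)) (a1 : Bf R K (ad R d 1)) (a4 : Bf R K (ad R d 4)) :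
    Uni91.Good (shapeG2.pl (fG2 R d)) G ∧ GainP G (shapeG2.pl (fG2 R d)) (10 * (K + 1)) ∧
      d.fst ∈ (shapeG2.pl (fG2 R d)).Vert := by
  have hs := hR.good h.s
  have g0 : T1FF.Good R (ac R d 0) 5 := hR.good (by rw [szb]; exact h.s0)
  have g1 : T1FF.Good R (ac R d 1) 5 := hR.good (by rw [szb]; exact h.s1)
  have g4 : T1FF.Good R (ac R d 4) 5 := hR.good (by rw [szb]; exact h.s4)
  have hg : Uni91.Good (shapeG2.pl (fG2 R d)) G := good_G2 hext hR h13 hs g0 g1 g4
    (by rw [szbb]; exact h.n02) (by rw [szbb]; exact h.n13) (by rw [szbb]; exact h.n42)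
  have hN : RotOk R (fG2 R d) tG2 := rotG2 hs g0 g1 g4
  refine ⟨hg, ?_, ⟨9, ⟨?_, List.not_mem_nil, fun p hp => absurd hp List.not_mem_nil⟩, rfl⟩⟩
  · exact gainP_of hg rfl (gaps_of (sh := shG2) hR hg rfl hN lab_G2 gps_G2 (Or.inl sp_G2)
      (shOk_G2 hN a0 a1 a4)) goodB_G2
  · show 9 < 9 + 15
    norm_num

/-- The place G2R has a gain. -/
theorem gain_G2R (hext : G2R.Ext [(3, 8)]) (hR : C5 R) (h13 : 13 ≤ Fintype.card V)
    (h : HypG2R R d) (a0 : Bf R K (ad R d 0)) (a1 : Bf R K (ad R d 1))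
    (a4 : Bf R K (ad R d 4)) :
    Uni91.Good (shapeG2R.pl (fG2R R d)) G ∧ GainP G (shapeG2R.pl (fG2R R d)) (10 * (K + 1)) ∧
      d.fst ∈ (shapeG2R.pl (fG2R R d)).Vert := by
  have hs := hR.good h.s
  have g0 : T1FF.Good R (ac R d 0) 5 := hR.good (by rw [szb]; exact h.s0)
  have g1 : T1FF.Good R (ac R d 1) 5 := hR.good (by rw [szb]; exact h.s1)
  have g4 : T1FF.Good R (ac R d 4) 5 := hR.good (by rw [szb]; exact h.s4)
  have gr : T1FF.Good R (ac R (ac R d 4) 2) 5 := hR.good (by rw [szbb]; exact h.s42)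
  have hg : Uni91.Good (shapeG2R.pl (fG2R R d)) G := good_G2R hext hR h13 hs g0 g1 g4 gr
    (by rw [szbb]; exact h.n02) (by rw [szbb]; exact h.n13) (by rw [szb]; exact h.n3)
    (by rw [szbbb]; exact h.n422)
  have hN : RotOk R (fG2R R d) tG2R := rotG2R hs g0 g1 g4 gr
  refine ⟨hg, ?_, ⟨10, ⟨?_, List.not_mem_nil, fun p hp => absurd hp List.not_mem_nil⟩, rfl⟩⟩
  · exact gainP_of hg rfl (gaps_ofJ (sh := shG2R) hR hg rfl hN lab_G2R gqs_G2R
      (shOk_G2R hN a0 a1 a4)) goodB_G2R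
  · show 10 < 10 + 18
    norm_num

/-- **The line g2.** -/
theorem lineB_g2 (hext : G2.Ext []) (hR : C5 R) (h13 : 13 ≤ Fintype.card V) (d : G.Dart)
    (h : HypG2 R d) (a0 : Snd R K (ad R d 0)) (a1 : Snd R K (ad R d 1))
    (a4 : Snd R K (ad R d 4)) : ∃ f : ℕ → V, Uni91.Good (shapeG2.pl f) G ∧
      GainP G (shapeG2.pl f) (10 * (K + 1)) ∧ d.fst ∈ (shapeG2.pl f).Vert :=
  ⟨fG2 R d, gain_G2 hext hR h13 h a0.1 a1.1 a4.1⟩

/-- **The line g2r.** -/
theorem lineB_g2r (hext : G2R.Ext [(3, 8)]) (hR : C5 R) (h13 : 13 ≤ Fintype.card V)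
    (d : G.Dart) (h : HypG2R R d) (a0 : Snd R K (ad R d 0)) (a1 : Snd R K (ad R d 1))
    (a4 : Snd R K (ad R d 4)) : ∃ f : ℕ → V, Uni91.Good (shapeG2R.pl f) G ∧
      GainP G (shapeG2R.pl f) (10 * (K + 1)) ∧ d.fst ∈ (shapeG2R.pl f).Vert :=
  ⟨fG2R R d, gain_G2R hext hR h13 h a0.1 a1.1 a4.1⟩

end Pool.Agent.InstG2
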