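import Mathlib
import Pool.Agent.Work.MP_392c8e_co_uni.RingKill
import Pool.Agent.Work.MP_392c8e_co_uni.LeafK

/-!
# A claw above a side

The outer ends `b i` of a side have a common neighbour `z`.  A colouring can be changed on `z` and
the `b i` such that the `b i` are pairwise at distance at least `κ` on the circle of length `3 N`.
-/

namespace Pool.Agent.CutN

open Pool.Agent.Red (side side_le)

variable {N κ s : ℤ}

/-- At distance at least `κ` on the circle of length `3 N`. -/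
def Circ (N κ x : ℤ) : Prop := ∃ k : ℤ, κ ≤ x + 3 * N * k ∧ x + 3 * N * k ≤ 3 * N - κ

theorem Circ.neg {x : ℤ} (h : Circ N κ x) : Circ N κ (-x) := by
  obtain ⟨k, h1, h2⟩ := h
  exact ⟨1 - k, by linarith, by linarith⟩

theorem Circ.mono {x κ' : ℤ} (h : Circ N κ x) (hk : κ' ≤ κ) : Circ N κ' x := by
  obtain ⟨k, h1, h2⟩ := h
  exact ⟨k, by linarith, by linarith⟩

/-- All lifts have absolute value at least `κ`. -/
theorem Circ.abs (hN : 0 < N) {x : ℤ} (h : Circ N κ x) (m : ℤ) : κ ≤ |x + 3 * N * m| := by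
  obtain ⟨k, h1, h2⟩ := h
  rcases le_or_gt k m with hm | hm
  · have h3 : 0 ≤ N * (m - k) := mul_nonneg hN.le (by omega)
    refine le_trans ?_ (le_abs_self _)
    linarith
  · have h3 : N * (m - k) ≤ N * (-1) := mul_le_mul_of_nonneg_left (by omega) hN.le
    refine le_trans ?_ (neg_le_abs _)
    linarith

/-- Three points on the circle of length `3 N`, in cyclic order and with the longest arc last. -/
theorem arrange (hN : 0 < N) (p : Fin 3 → ℤ) :
    ∃ (a b c : Fin 3) (q1 q2 q3 : ℤ), a ≠ b ∧ a ≠ c ∧ b ≠ c ∧ (∀ i, i = a ∨ i = b ∨ i = c) ∧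
      (∃ k : ℤ, q1 = p a + 3 * N * k) ∧ (∃ k : ℤ, q2 = p b + 3 * N * k) ∧
      (∃ k : ℤ, q3 = p c + 3 * N * k) ∧ q1 ≤ q2 ∧ q2 ≤ q3 ∧ q2 - q1 ≤ 3 * N - (q3 - q1) ∧
      q3 - q2 ≤ 3 * N - (q3 - q1) := by
  have hN0 : 0 < 3 * N := by linarith
  set r : Fin 3 → ℤ := fun i => p i % (3 * N) with hr
  have r0 : ∀ i, 0 ≤ r i ∧ r i < 3 * N := fun i =>
    ⟨Int.emod_nonneg _ hN0.ne', Int.emod_lt_of_pos _ hN0⟩
  have rp : ∀ i, ∃ k : ℤ, r i = p i + 3 * N * k := fun i => by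
    refine ⟨-(p i / (3 * N)), ?_⟩
    have := Int.emod_add_mul_ediv (p i) (3 * N)
    show p i % (3 * N) = _
    linarith
  have rp' : ∀ i, ∃ k : ℤ, r i + 3 * N = p i + 3 * N * k := fun i => by
    obtain ⟨k, hk⟩ := rp i
    exact ⟨k + 1, by linarith⟩
  have main : ∀ a b c : Fin 3, a ≠ b → a ≠ c → b ≠ c → (∀ i, i = a ∨ i = b ∨ i = c) →
      r a ≤ r b → r b ≤ r c →
      ∃ (a b c : Fin 3) (q1 q2 q3 : ℤ), a ≠ b ∧ a ≠ c ∧ b ≠ c ∧ (∀ i, i = a ∨ i = b ∨ i = c) ∧
      (∃ k : ℤ, q1 = p a + 3 * N * k) ∧ (∃ k : ℤ, q2 = p b + 3 * N * k) ∧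
      (∃ k : ℤ, q3 = p c + 3 * N * k) ∧ q1 ≤ q2 ∧ q2 ≤ q3 ∧ q2 - q1 ≤ 3 * N - (q3 - q1) ∧
      q3 - q2 ≤ 3 * N - (q3 - q1) := by
    intro a b c hab hac hbc hall g1 g2
    have a0 := r0 a
    have b0 := r0 b
    have c0 := r0 c
    by_cases w1 : r b - r a ≤ 3 * N - (r c - r a) ∧ r c - r b ≤ 3 * N - (r c - r a)
    · exact ⟨a, b, c, _, _, _, hab, hac, hbc, hall, rp a, rp b, rp c, g1, g2, w1.1, w1.2⟩
    · by_cases w2 : r c - r b ≤ r b - r a
      · have w3 : 3 * N - (r c - r a) ≤ r b - r a := by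
          rcases not_and_or.1 w1 with h | h
          · linarith [not_le.1 h]
          · linarith [not_le.1 h]
        exact ⟨b, c, a, _, _, _, hbc, hab.symm, hac.symm,
          (fun i => by rcases hall i with h | h | h <;> tauto), rp b, rp c, rp' a, g2,
          by linarith, by linarith, by linarith⟩
      · have w2' := not_le.1 w2
        have w3 : 3 * N - (r c - r a) ≤ r c - r b := by
          rcases not_and_or.1 w1 with h | h
          · linarith [not_le.1 h]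
          · linarith [not_le.1 h]
        exact ⟨c, a, b, _, _, _, hac.symm, hbc.symm, hab,
          (fun i => by rcases hall i with h | h | h <;> tauto), rp c, rp' a, rp' b,
          by linarith, by linarith, by linarith, by linarith⟩
  rcases le_total (r 0) (r 1) with g1 | g1 <;> rcases le_total (r 1) (r 2) with g2 | g2 <;>
    rcases le_total (r 0) (r 2) with g3 | g3
  · exact main 0 1 2 (by decide) (by decide) (by decide) (by decide) g1 g2
  · exact main 0 1 2 (by decide) (by decide) (by decide) (by decide) g1 g2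
  · exact main 0 2 1 (by decide) (by decide) (by decide) (by decide) g3 g2
  · exact main 2 0 1 (by decide) (by decide) (by decide) (by decide) g3 g1
  · exact main 1 0 2 (by decide) (by decide) (by decide) (by decide) g1 g3
  · exact main 1 2 0 (by decide) (by decide) (by decide) (by decide) g2 g3
  · exact main 2 1 0 (by decide) (by decide) (by decide) (by decide) g2 g1
  · exact main 2 1 0 (by decide) (by decide) (by decide) (by decide) g2 g1

/-- The colouring of the claw when the longest arc is known. -/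
theorem k13_core (hk : 0 ≤ κ) (hN : 4 * κ + 12 ≤ N) {q1 q2 q3 : ℤ} (h12 : q1 ≤ q2) (h23 : q2 ≤ q3)
    (hD : q3 - q1 ≤ 2 * N - 4) (hl1 : q2 - q1 ≤ 3 * N - (q3 - q1))
    (hl2 : q3 - q2 ≤ 3 * N - (q3 - q1)) :
    ∃ z s1 s2 s3 : ℤ,
      ((N + 1 ≤ s1 - q1 ∧ s1 - q1 ≤ 2 * N - 1) ∧ (N + 1 ≤ s2 - q2 ∧ s2 - q2 ≤ 2 * N - 1) ∧
        (N + 1 ≤ s3 - q3 ∧ s3 - q3 ≤ 2 * N - 1)) ∧
      ((N + 1 ≤ s1 - z ∧ s1 - z ≤ 2 * N - 1) ∧ (N + 1 ≤ s2 - z ∧ s2 - z ≤ 2 * N - 1) ∧
        (N + 1 ≤ s3 - z ∧ s3 - z ≤ 2 * N - 1)) ∧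
      (κ ≤ s2 - s1 ∧ κ ≤ s3 - s2 ∧ s3 - s1 ≤ N - 2) := by
  obtain ⟨z, hz1, hz2, hz3, hz4, hz5, hz6⟩ : ∃ z : ℤ, q1 ≤ z ∧ z ≤ q3 ∧ q3 - N + 2 ≤ z ∧
      z ≤ q1 + N - 2 ∧ z - q2 ≤ N - 2 - κ ∧ q2 - z ≤ N - 2 - κ := by
    refine ⟨max (q3 - N + 2) (min q2 (q1 + N - 2)), ?_⟩
    omega
  by_cases hq : q2 ≤ z
  · exact ⟨z, z + N + 1, z + N + 1 + κ, z + 2 * N - 1, by omega⟩
  · exact ⟨z, z + N + 1, z + 2 * N - 1 - κ, z + 2 * N - 1, by omega⟩

/-- **The neighbours of one vertex can be moved apart.** -/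
theorem k13_apart (hk : 0 ≤ κ) (hN : 4 * κ + 12 ≤ N) {p s : Fin 3 → ℤ} {z : ℤ}
    (h1 : ∀ i, Jn N (s i - p i)) (h2 : ∀ i, Jn N (s i - z)) :
    ∃ (s' : Fin 3 → ℤ) (z' : ℤ), (∀ i, Jn N (s' i - p i)) ∧ (∀ i, Jn N (s' i - z')) ∧
      ∀ i j, i ≠ j → Circ N κ (s' i - s' j) := by
  have hN6 : 6 < N := by linarith
  have hs : ∀ i j, Near N (s i - s j) := by
    intro i j
    have := (h2 i).sub (h2 j)
    have e : s i - z - (s j - z) = s i - s j := by ring
    rwa [e] at this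
  obtain ⟨a, b, c, q1, q2, q3, hab, hac, hbc, hall, ⟨ka, hka⟩, ⟨kb, hkb⟩, ⟨kc, hkc⟩, h12, h23, hl1,
    hl2⟩ := arrange (by linarith : 0 < N) p
  have ja : Jn N (s a - q1) := by
    obtain ⟨m, u, v⟩ := h1 a
    exact ⟨m + ka, by linarith, by linarith⟩
  have jb : Jn N (s b - q2) := by
    obtain ⟨m, u, v⟩ := h1 b
    exact ⟨m + kb, by linarith, by linarith⟩
  have jc : Jn N (s c - q3) := by
    obtain ⟨m, u, v⟩ := h1 c
    exact ⟨m + kc, by linarith, by linarith⟩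
  have hD : q3 - q1 ≤ 2 * N - 4 := by
    by_contra hD
    have hD' : 2 * N - 3 ≤ q3 - q1 := by linarith [not_le.1 hD]
    exact ring_no hN6 ja jb jc (hs b a) (hs c b) (hs a c)
      (by linarith) (by linarith) (by linarith)
  obtain ⟨z', s1, s2, s3, ⟨e1, e2, e3⟩, ⟨f1, f2, f3⟩, ⟨d1, d2, d3⟩⟩ :=
    k13_core hk hN h12 h23 hD hl1 hl2
  have jn : ∀ {x : ℤ}, N + 1 ≤ x ∧ x ≤ 2 * N - 1 → Jn N x := by
    rintro x ⟨u, v⟩
    exact ⟨0, by linarith, by linarith⟩
  have ea : ∀ (x y z : ℤ), (fun i : Fin 3 => if i = a then x else if i = b then y else z) a = x :=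
    fun x y z => if_pos rfl
  have eb : ∀ (x y z : ℤ), (fun i : Fin 3 => if i = a then x else if i = b then y else z) b = y :=
    fun x y z => by
      show (if b = a then x else if b = b then y else z) = y
      rw [if_neg hab.symm, if_pos rfl]
  have ec : ∀ (x y z : ℤ), (fun i : Fin 3 => if i = a then x else if i = b then y else z) c = z :=
    fun x y z => by
      show (if c = a then x else if c = b then y else z) = z
      rw [if_neg hac.symm, if_neg hbc.symm]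
  refine ⟨fun i => if i = a then s1 else if i = b then s2 else s3, z', fun i => ?_, fun i => ?_,
    fun i j hij => ?_⟩
  · have back : ∀ {x y z k : ℤ}, Jn N (x - y) → y = z + 3 * N * k → Jn N (x - z) := by
      rintro x y z k ⟨m, u, v⟩ rfl
      exact ⟨m - k, by linarith, by linarith⟩
    rcases hall i with rfl | rfl | rfl
    · rw [ea]; exact back (jn e1) hka
    · rw [eb]; exact back (jn e2) hkb
    · rw [ec]; exact back (jn e3) hkc
  · rcases hall i with rfl | rfl | rfl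
    · rw [ea]; exact jn f1
    · rw [eb]; exact jn f2
    · rw [ec]; exact jn f3
  · have cn : ∀ {x y : ℤ}, κ ≤ x - y → x - y ≤ N - 2 → Circ N κ (x - y) := by
      intro x y u v
      exact ⟨0, by linarith, by linarith⟩
    have ng : ∀ {x y : ℤ}, Circ N κ (x - y) → Circ N κ (y - x) := by
      intro x y h
      have := h.neg
      rwa [neg_sub] at this
    have g1 : Circ N κ (s2 - s1) := cn d1 (by linarith)
    have g2 : Circ N κ (s3 - s2) := cn d2 (by linarith)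
    have g3 : Circ N κ (s3 - s1) := cn (by linarith) d3
    rcases hall i with rfl | rfl | rfl <;> rcases hall j with rfl | rfl | rfl
    · exact absurd rfl hij
    · rw [ea, eb]; exact ng g1
    · rw [ea, ec]; exact ng g3
    · rw [eb, ea]; exact g1
    · exact absurd rfl hij
    · rw [eb, ec]; exact ng g2
    · rw [ec, ea]; exact g3
    · rw [ec, eb]; exact g2
    · exact absurd rfl hij

/-- A claw above the set `Y`: the outer ends `b i` of `Y` have the common neighbour `z`. -/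
structure ClawOver {V : Type*} (G : SimpleGraph V) (Y : V → Prop) (b : Fin 3 → V) (z : V)
    (pv : Fin 3 → V) : Prop where
  injb : Function.Injective b
  zb : ∀ i, z ≠ b i
  pb : ∀ i j, pv i ≠ b j
  pz : ∀ i, pv i ≠ z
  yb : ∀ i, ¬ Y (b i)
  yz : ¬ Y z
  yp : ∀ i, ¬ Y (pv i)
  adjp : ∀ i, G.Adj (pv i) (b i)
  adjz : ∀ i, G.Adj z (b i)
  nbz : ∀ v, G.Adj z v → ∃ i, v = b i
  nbb : ∀ i v, ¬ Y v → G.Adj (b i) v → v = z ∨ v = pv i

section

variable {V : Type*} {G : SimpleGraph V} {Y : V → Prop} {b pv : Fin 3 → V} {z : V}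

/-- **Behind a claw: the outer ends moved apart.** -/
theorem ClawOver.apart (hk : 0 ≤ κ) (hN : 4 * κ + 12 ≤ N) (h : ClawOver G Y b z pv) {c2 : V → ℤ}
    (h2 : IsCol N (side G fun v => ¬ Y v) c2) :
    ∃ c3 : V → ℤ, IsCol N (side G fun v => ¬ Y v) c3 ∧
      (∀ i j, i ≠ j → Circ N κ (c3 (b i) - c3 (b j))) ∧ (∀ i, Jn N (c3 (b i) - c3 z)) ∧
      ∀ v, (∀ i, v ≠ b i) → v ≠ z → c3 v = c2 v := by
  classical
  obtain ⟨s', z', g1, g2, g3⟩ := k13_apart (p := fun i => c2 (pv i)) (s := fun i => c2 (b i))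
    (z := c2 z) hk hN (fun i => h2 _ _ ⟨h.adjp i, h.yp i, h.yb i⟩)
    (fun i => h2 _ _ ⟨h.adjz i, h.yz, h.yb i⟩)
  set c3 : V → ℤ := Function.update (Function.extend b s' c2) z z' with hc3
  have ez : c3 z = z' := Function.update_self _ _ _
  have eb : ∀ i, c3 (b i) = s' i := fun i => by
    rw [hc3, Function.update_of_ne (h.zb i).symm, h.injb.extend_apply]
  have eo : ∀ v, (∀ i, v ≠ b i) → v ≠ z → c3 v = c2 v := fun v hb hz => by
    rw [hc3, Function.update_of_ne hz,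
      Function.extend_apply' _ _ _ (by rintro ⟨j, hj⟩; exact hb j hj.symm)]
  have neg : ∀ {x y : ℤ}, Jn N (x - y) → Jn N (y - x) := by
    intro x y h
    have := h.neg
    rwa [neg_sub] at this
  refine ⟨c3, ?_, fun i j hij => by rw [eb, eb]; exact g3 i j hij,
    fun i => by rw [eb, ez]; exact g2 i, eo⟩
  refine h2.recolour (R := fun v => (∃ i, v = b i) ∨ v = z) (fun v hv => ?_) ?_
  · exact eo v (fun i e => hv (Or.inl ⟨i, e⟩)) (fun e => hv (Or.inr e))
  · rintro u v (⟨i, rfl⟩ | rfl) ⟨huv, h3, h4⟩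
    · rcases h.nbb i v h4 huv with rfl | rfl
      · rw [eb, ez]
        exact neg (g2 i)
      · rw [eb, eo _ (fun j => h.pb i j) (h.pz i)]
        exact neg (g1 i)
    · obtain ⟨i, rfl⟩ := h.nbz v huv
      rw [eb, ez]
      exact g2 i

/-- **A side which accepts the vectors with two equal entries can be deleted below a claw.** -/
theorem claw_kill_two (hs0 : 0 ≤ s) (hs : 3 * s < N) {a : Fin 3 → V}
    (hcut : ∀ u v, Y u → ¬ Y v → G.Adj u v → ∃ i, u = a i ∧ v = b i)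
    (hadj : ∀ i, G.Adj z (b i)) (hz : ¬ Y z) (hb : ∀ i, ¬ Y (b i))
    (hacc : ∀ y : Fin 3 → ZMod 3, (∃ i j, i ≠ j ∧ y i = y j) → Acc s G Y a y) {c2 : V → ℤ}
    (h2 : IsCol N (side G fun v => ¬ Y v) c2) :
    ∃ c, IsCol N G c ∧ ∀ v, ¬ Y v → c v = c2 v :=
  leafN_claw hs0 hs hcut hacc h2 (z := c2 z) fun i => h2 _ _ ⟨hadj i, hz, hb i⟩

/-- **A side with a rung can be deleted below a claw.** -/
theorem claw_kill_rung (hs0 : 0 ≤ s) (hN : 8 * s + 20 ≤ N) {a : Fin 3 → V}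
    (hcut : ∀ u v, Y u → ¬ Y v → G.Adj u v → ∃ i, u = a i ∧ v = b i)
    (h : ClawOver G Y b z pv) {i j : Fin 3} (hij : i ≠ j)
    (hacc : ∀ y : Fin 3 → ZMod 3, y i ≠ y j → Acc s G Y a y) {c2 : V → ℤ}
    (h2 : IsCol N (side G fun v => ¬ Y v) c2) :
    ∃ c, IsCol N G c ∧ ∀ v, ¬ Y v → (∀ i, v ≠ b i) → v ≠ z → c v = c2 v := by
  obtain ⟨c3, k1, k2, -, k4⟩ := h.apart (κ := 2 * s + 2) (by linarith) (by linarith) h2
  obtain ⟨c, e1, e2⟩ := leafN_K hs0 (by linarith) hcut hij hacc k1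
    ((k2 i j hij).abs (by linarith))
  exact ⟨c, e1, fun v hv hb hz => by rw [e2 v hv, k4 v hb hz]⟩

end

end Pool.Agent.CutN
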