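import Mathlib
import Pool.Agent.Work.MP_392c8e_co_uni.GoodS
import Pool.Agent.Work.MP_392c8e_co_uni.Con3
import Pool.Agent.Work.MP_392c8e_co_uni.LeafN
import Pool.Agent.Work.MP_392c8e_co_uni.LeafK
import Pool.Agent.Work.MP_392c8e_co_uni.ColBridge

/-!
# Sides of cuts with three edges in a smallest counterexample

The closures of a side `S` of a smallest counterexample `G` are in the base class if all smaller
sides inside `S` have a vertex of degree two near every end.
-/

namespace Pool.Agent.CutN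

open Pool.Agent.Red Pool.Agent.T1Red

set_option linter.unusedSectionVars false

variable {V : Type} [Fintype V] [DecidableEq V] {G : SimpleGraph V} {n N : ℤ} {S : Set V}
  {r : ℕ}

/-- A set with at most two vertices and a vertex of degree three has at least three leaving
edges. -/
theorem three_le_leave (h2 : ∀ v, 2 ≤ (G.neighborSet v).ncard) {P : Set V} (hP : P.ncard ≤ 2)
    {y : V} (hy : y ∈ P) (h3 : (G.neighborSet y).ncard = 3) : 3 ≤ (leave G P).ncard := by
  classical
  by_cases hone : ∃ w ∈ P, w ≠ y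
  · obtain ⟨w, hw, hwy⟩ := hone
    have hPe : ({y, w} : Set V) = P := by
      refine Set.eq_of_subset_of_ncard_le ?_ ?_ (Set.toFinite _)
      · rintro x (hx | hx)
        · exact hx ▸ hy
        · have hx' : x = w := hx
          exact hx' ▸ hw
      · rw [Set.ncard_pair hwy.symm]
        exact hP
    set T : Set V := G.neighborSet y \ {w} with hT
    have hT2 : 2 ≤ T.ncard := by
      have h4 : G.neighborSet y ⊆ insert w T := by
        intro x hx
        by_cases hxw : x = w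
        · exact Or.inl hxw
        · exact Or.inr ⟨hx, hxw⟩
      have h5 := Set.ncard_le_ncard h4 (Set.toFinite _)
      have h6 := Set.ncard_insert_le w T
      omega
    obtain ⟨v, hv, hvy⟩ : ∃ v, v ∈ G.neighborSet w ∧ v ≠ y := by
      by_contra hcon
      push Not at hcon
      have h4 : G.neighborSet w ⊆ {y} := fun v hv => hcon v hv
      have h5 := Set.ncard_le_ncard h4 (Set.toFinite _)
      rw [Set.ncard_singleton] at h5
      have := h2 w
      omega
    have hv' : G.Adj w v := hv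
    have hsub : insert (w, v) (Prod.mk y '' T) ⊆ leave G P := by
      rintro p (hp | ⟨x, ⟨hx, hxw⟩, rfl⟩)
      · subst hp
        refine ⟨hw, fun h5 => ?_, hv'⟩
        rw [← hPe] at h5
        rcases h5 with h5 | h5
        · exact hvy h5
        · have h6 : v = w := h5
          exact hv'.ne h6.symm
      · have hx' : G.Adj y x := hx
        refine ⟨hy, fun h5 => ?_, hx'⟩
        rw [← hPe] at h5
        rcases h5 with h5 | h5
        · exact hx'.ne (show x = y from h5).symm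
        · exact hxw h5
    have h5 := Set.ncard_le_ncard hsub (Set.toFinite _)
    have h6 : (w, v) ∉ Prod.mk y '' T := by
      rintro ⟨x, -, hx⟩
      exact hwy (congrArg Prod.fst hx).symm
    rw [Set.ncard_insert_of_notMem h6 (Set.toFinite _),
      Set.ncard_image_of_injective _ (Prod.mk_right_injective y)] at h5
    omega
  · push Not at hone
    have hPe : P = {y} := by
      ext x
      constructor
      · exact fun hx => hone x hx
      · intro hx
        have hx' : x = y := hx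
        exact hx' ▸ hy
    rw [hPe, leave_singleton, h3]

theorem Thick.mono {P Q : Set V} (h : Thick G P) (hPQ : P ⊆ Q) : Thick G Q :=
  le_trans h (Set.ncard_le_ncard (fun _ hv => ⟨hPQ hv.1, hv.2⟩) (Set.toFinite _))

theorem Thick.exists_ne {P : Set V} (h : Thick G P) (b : V) :
    ∃ y, y ∈ P ∧ y ≠ b ∧ (G.neighborSet y).ncard = 3 := by
  by_contra hcon
  push Not at hcon
  have h1 : {v | v ∈ P ∧ (G.neighborSet v).ncard = 3} ⊆ {b} := by
    intro v hv
    by_contra h5
    exact hcon v hv.1 h5 hv.2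
  have h2 := Set.ncard_le_ncard h1 (Set.toFinite _)
  rw [Set.ncard_singleton] at h2
  have h3 : 2 ≤ _ := h
  omega

theorem Th3.compl {A : Set V} (h : Th3 G A) : Th3 G Aᶜ where
  three := by rw [leave_compl_ncard]; exact h.three
  inn := h.out
  out := by rw [compl_compl]; exact h.inn

/-- A vertex of `A` with two neighbours outside. -/
theorem Th3.inj (hd : ∀ v, (G.neighborSet v).ncard ≤ 3)
    (htwo : ∀ v, 2 ≤ (G.neighborSet v).ncard)
    (hcut2 : ∀ A : Set V, (leave G A).ncard ≤ 2 → A.ncard ≤ 2 ∨ Aᶜ.ncard ≤ 2) {A : Set V}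
    (h : Th3 G A) {a b b' : V} (ha : a ∈ A) (hb : b ∉ A) (hb' : b' ∉ A) (hab : G.Adj a b)
    (hab' : G.Adj a b') : b = b' := by
  classical
  by_contra hne
  have h1 := leave_erase A ha hb hb' hab hab' hne (hd a)
  rw [h.three] at h1
  obtain ⟨y, hy, hya, hy3⟩ := h.inn.exists_ne a
  rcases hcut2 _ (show (leave G (A \ {a})).ncard ≤ 2 by omega) with h2 | h2
  · have := three_le_leave htwo h2 (show y ∈ A \ {a} from ⟨hy, hya⟩) hy3
    omega
  · have h3 : insert a {v | v ∈ Aᶜ ∧ (G.neighborSet v).ncard = 3} ⊆ (A \ {a})ᶜ := by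
      rintro v (hv | hv) h5
      · exact h5.2 hv
      · exact hv.1 h5.1
    have h4 := Set.ncard_le_ncard h3 (Set.toFinite _)
    rw [Set.ncard_insert_of_notMem (fun h5 => h5.1 ha) (Set.toFinite _)] at h4
    have h5 : 2 ≤ _ := h.out
    omega

/-- **The ends of a side are distinct.** -/
theorem Th3.exists_cutK' (hd : ∀ v, (G.neighborSet v).ncard ≤ 3)
    (htwo : ∀ v, 2 ≤ (G.neighborSet v).ncard)
    (hcut2 : ∀ A : Set V, (leave G A).ncard ≤ 2 → A.ncard ≤ 2 ∨ Aᶜ.ncard ≤ 2) (h : Th3 G S) :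
    ∃ a b : Fin 3 → V, CutK G (· ∈ S) a b := by
  classical
  have h3 : Fintype.card (leave G S) = 3 := by
    rw [← Nat.card_eq_fintype_card]
    exact h.three
  obtain e : Fin 3 ≃ leave G S := (Fintype.equivFinOfCardEq h3).symm
  have he : ∀ i, (e i).1.1 ∈ S ∧ (e i).1.2 ∉ S ∧ G.Adj (e i).1.1 (e i).1.2 := fun i => (e i).2
  refine ⟨fun i => (e i).1.1, fun i => (e i).1.2, fun i => (he i).1, fun i => (he i).2.1,
    fun i => (he i).2.2, ?_, ?_, ?_⟩
  · intro i j hij
    have hij' : (e i).1.1 = (e j).1.1 := hij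
    have h4 : (e i).1.2 = (e j).1.2 := h.inj hd htwo hcut2 (he i).1 (he i).2.1 (he j).2.1
      (he i).2.2 (by rw [hij']; exact (he j).2.2)
    exact e.injective (Subtype.ext (Prod.ext hij' h4))
  · intro i j hij
    have hij' : (e i).1.2 = (e j).1.2 := hij
    have h4 : (e i).1.1 = (e j).1.1 := h.compl.inj hd htwo hcut2 (a := (e i).1.2) (he i).2.1
      (fun h5 => h5 (he i).1) (fun h5 => h5 (he j).1) (he i).2.2.symm
      (by rw [hij']; exact (he j).2.2.symm)
    exact e.injective (Subtype.ext (Prod.ext h4 hij'))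
  · intro u v hu hv huv
    have h4 : (u, v) ∈ leave G S := ⟨hu, hv, huv⟩
    refine ⟨e.symm ⟨(u, v), h4⟩, ?_, ?_⟩
    · show u = (e (e.symm ⟨(u, v), h4⟩)).1.1
      rw [e.apply_symm_apply]
    · show v = (e (e.symm ⟨(u, v), h4⟩)).1.2
      rw [e.apply_symm_apply]

theorem MinN.exists_cutK (h : MinN N G) (hN : 2 ≤ N) (hS : Th3 G S) :
    ∃ a b : Fin 3 → V, CutK G (· ∈ S) a b :=
  hS.exists_cutK' h.deg (h.two_le hN) (h.cut_two hN)

section con

variable {X : V → Prop} {a b : Fin 3 → V} {z : V}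

theorem con_adj_in (hc : CutK G X a b) (hz : ¬ X z) {u v : V} (hu : X u) (hv : X v) :
    (con hc hz).Adj ⟨u, Or.inl hu⟩ ⟨v, Or.inl hv⟩ ↔ G.Adj u v := by
  constructor
  · rintro (⟨h1, -, -⟩ | ⟨i, ⟨-, h1⟩ | ⟨h1, -⟩⟩)
    · exact h1
    · exact absurd ((show v = z from h1) ▸ hv) hz
    · exact absurd ((show u = z from h1) ▸ hu) hz
  · exact fun h => Or.inl ⟨h, hu, hv⟩

theorem con_adj_out (hc : CutK G X a b) (hz : ¬ X z) {u : V} (hu : X u) :
    (con hc hz).Adj ⟨u, Or.inl hu⟩ ⟨z, Or.inr rfl⟩ ↔ ∃ i, u = a i := by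
  constructor
  · rintro (⟨-, -, h1⟩ | ⟨i, ⟨h1, -⟩ | ⟨h1, -⟩⟩)
    · exact absurd h1 hz
    · exact ⟨i, h1⟩
    · exact absurd ((show u = z from h1) ▸ hu) hz
  · rintro ⟨i, hi⟩
    exact Or.inr ⟨i, Or.inl ⟨hi, rfl⟩⟩

theorem deg_con_in (hc : CutK G X a b) (hz : ¬ X z) {v : V} (hv : X v) :
    ((con hc hz).neighborSet ⟨v, Or.inl hv⟩).ncard = (G.neighborSet v).ncard := by
  rw [← between_singleton, leave_con]
  have h1 : proj X z ⁻¹' {⟨v, Or.inl hv⟩} = {v} := by
    ext x
    constructor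
    · intro hx
      have hx' : proj X z x = ⟨v, Or.inl hv⟩ := hx
      by_cases h2 : X x
      · rw [proj_in h2] at hx'
        exact congrArg Subtype.val hx'
      · rw [proj_out h2] at hx'
        exact absurd (show z = v from congrArg Subtype.val hx') fun h5 => hz (h5 ▸ hv)
    · intro hx
      have hx' : x = v := hx
      subst hx'
      exact proj_in hv
  rw [h1, leave_singleton]

theorem deg_con_out (hc : CutK G X a b) (hz : ¬ X z) :
    ((con hc hz).neighborSet ⟨z, Or.inr rfl⟩).ncard = 3 := by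
  rw [← between_singleton, leave_con]
  have h1 : proj X z ⁻¹' {⟨z, Or.inr rfl⟩} = {x | X x}ᶜ := by
    ext x
    constructor
    · intro hx hx2
      have hx' : proj X z x = ⟨z, Or.inr rfl⟩ := hx
      have hx3 : X x := hx2
      rw [proj_in hx3] at hx'
      exact hz ((show x = z from congrArg Subtype.val hx') ▸ hx3)
    · intro hx
      exact proj_out hx
  rw [h1, leave_compl_ncard, hc.ncard_leave]

theorem leave_con' (hc : CutK G X a b) (hz : ¬ X z) (B : Set {v // X v ∨ v = z}) :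
    (leave (con hc hz) B).ncard = (leave G (proj X z ⁻¹' B)).ncard :=
  leave_con hc hz B

/-- The preimage of a set avoiding the contracted vertex. -/
theorem preimage_proj {B : Set {v // X v ∨ v = z}}
    (hB : (⟨z, Or.inr rfl⟩ : {v // X v ∨ v = z}) ∉ B) : proj X z ⁻¹' B = Subtype.val '' B := by
  ext x
  constructor
  · intro hx
    have hx' : proj X z x ∈ B := hx
    by_cases h2 : X x
    · rw [proj_in h2] at hx'
      exact ⟨_, hx', rfl⟩
    · rw [proj_out h2] at hx'
      exact absurd hx' hB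
  · rintro ⟨⟨v, hv | hv⟩, h1, rfl⟩
    · show proj X z v ∈ B
      rw [proj_in hv]
      exact h1
    · exact absurd (by
        have h2 : (⟨v, Or.inr hv⟩ : {v // X v ∨ v = z}) = ⟨z, Or.inr rfl⟩ := Subtype.ext hv
        rw [← h2]
        exact h1) hB

/-- Walks inside a set avoiding the contracted vertex. -/
theorem con_walk (hc : CutK G X a b) (hz : ¬ X z) {B : Set {v // X v ∨ v = z}}
    (hB : (⟨z, Or.inr rfl⟩ : {v // X v ∨ v = z}) ∉ B) {u v : V} (p : G.Walk u v) :
    (∀ w ∈ p.support, w ∈ Subtype.val '' B) → ∀ (hu : X u ∨ u = z) (hv : X v ∨ v = z),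
      ∃ q : (con hc hz).Walk ⟨u, hu⟩ ⟨v, hv⟩, q.length = p.length ∧ ∀ w ∈ q.support, w ∈ B := by
  have hBX : ∀ w ∈ B, X w.1 := by
    rintro ⟨w, hw | hw⟩ hwB
    · exact hw
    · exfalso
      apply hB
      have h2 : (⟨w, Or.inr hw⟩ : {v // X v ∨ v = z}) = ⟨z, Or.inr rfl⟩ := Subtype.ext hw
      rw [← h2]
      exact hwB
  induction p with
  | nil =>
    intro hp hu hv
    refine ⟨SimpleGraph.Walk.nil, rfl, ?_⟩
    intro w hw
    rw [SimpleGraph.Walk.support_nil, List.mem_singleton] at hw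
    subst hw
    obtain ⟨w', h1, h2⟩ := hp _ (SimpleGraph.Walk.start_mem_support _)
    have h3 : w' = ⟨_, hu⟩ := Subtype.ext h2
    rw [← h3]
    exact h1
  | @cons u w v h p ih =>
    intro hp hu hv
    have hpw : ∀ x ∈ p.support, x ∈ Subtype.val '' B := fun x hx => hp x (by
      rw [SimpleGraph.Walk.support_cons]
      exact List.mem_cons_of_mem _ hx)
    obtain ⟨w', hw1, hw2⟩ := hpw _ (SimpleGraph.Walk.start_mem_support _)
    obtain ⟨u', hu1, hu2⟩ := hp u (SimpleGraph.Walk.start_mem_support _)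
    have hXw : X w := hw2 ▸ hBX _ hw1
    have hXu : X u := hu2 ▸ hBX _ hu1
    obtain ⟨q, h1, h2⟩ := ih hpw (Or.inl hXw) hv
    refine ⟨SimpleGraph.Walk.cons ((con_adj_in hc hz hXu hXw).2 h) q, ?_, ?_⟩
    · rw [SimpleGraph.Walk.length_cons, SimpleGraph.Walk.length_cons, h1]
    · intro x hx
      rw [SimpleGraph.Walk.support_cons, List.mem_cons] at hx
      rcases hx with hx | hx
      · subst hx
        have h3 : u' = ⟨u, hu⟩ := Subtype.ext hu2
        rw [← h3]
        exact hu1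
      · exact h2 x hx

end con

/-- A side of the contraction, avoiding the contracted vertex, is a side of the graph. -/
theorem Th3.of_con {a b : Fin 3 → V} {z : V} (hc : CutK G (· ∈ S) a b) (hz : z ∉ S)
    (hSout : Thick G Sᶜ) {B : Set {v // v ∈ S ∨ v = z}}
    (hzB : (⟨z, Or.inr rfl⟩ : {v // v ∈ S ∨ v = z}) ∉ B) (h : Th3 (con hc hz) B) :
    Subtype.val '' B ⊆ S ∧ Th3 G (Subtype.val '' B) ∧ Subtype.val '' B ≠ S := by
  classical
  have hBS : ∀ v ∈ B, v.1 ∈ S := by
    rintro ⟨v, hv | hv⟩ hvB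
    · exact hv
    · exfalso
      apply hzB
      have h2 : (⟨v, Or.inr hv⟩ : {v // v ∈ S ∨ v = z}) = ⟨z, Or.inr rfl⟩ := Subtype.ext hv
      rw [← h2]
      exact hvB
  have hsub : Subtype.val '' B ⊆ S := by
    rintro _ ⟨v, hv, rfl⟩
    exact hBS v hv
  have hdeg : ∀ (v : {v // v ∈ S ∨ v = z}), v.1 ∈ S →
      ((con hc hz).neighborSet v).ncard = (G.neighborSet v.1).ncard := by
    rintro ⟨v, hv0⟩ hv
    exact deg_con_in hc hz hv
  refine ⟨hsub, ⟨?_, ?_, ?_⟩, ?_⟩
  · rw [← preimage_proj hzB, ← leave_con' hc hz]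
    exact h.three
  · have h1 : Subtype.val '' {v | v ∈ B ∧ ((con hc hz).neighborSet v).ncard = 3} ⊆
        {v | v ∈ Subtype.val '' B ∧ (G.neighborSet v).ncard = 3} := by
      rintro _ ⟨v, ⟨hv, h3⟩, rfl⟩
      refine ⟨⟨v, hv, rfl⟩, ?_⟩
      rw [← hdeg v (hBS v hv)]
      exact h3
    have h2 := Set.ncard_le_ncard h1 (Set.toFinite _)
    rw [Set.ncard_image_of_injective _ Subtype.val_injective] at h2
    exact le_trans h.inn h2
  · exact hSout.mono (Set.compl_subset_compl.2 hsub)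
  · intro h5
    obtain ⟨y, hy, hyz, -⟩ := h.out.exists_ne ⟨z, Or.inr rfl⟩
    rcases y with ⟨y, hy0 | hy0⟩
    · apply hy
      have h6 : y ∈ Subtype.val '' B := by
        rw [h5]
        exact hy0
      obtain ⟨w, hw, hwy⟩ := h6
      have h7 : w = ⟨y, Or.inl hy0⟩ := Subtype.ext hwy
      rw [← h7]
      exact hw
    · exact hyz (Subtype.ext hy0)

/-- Vertices of degree two near the ends, in the contraction. -/
theorem EX.con {a b : Fin 3 → V} {z : V} (hc : CutK G (· ∈ S) a b) (hz : z ∉ S)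
    {B : Set {v // v ∈ S ∨ v = z}}
    (hzB : (⟨z, Or.inr rfl⟩ : {v // v ∈ S ∨ v = z}) ∉ B) (h : EX G r (Subtype.val '' B)) :
    EX (con hc hz) r B := by
  have hBS : ∀ v ∈ B, v.1 ∈ S := by
    rintro ⟨v, hv | hv⟩ hvB
    · exact hv
    · exfalso
      apply hzB
      have h2 : (⟨v, Or.inr hv⟩ : {v // v ∈ S ∨ v = z}) = ⟨z, Or.inr rfl⟩ := Subtype.ext hv
      rw [← h2]
      exact hvB
  have hsub : Subtype.val '' B ⊆ S := by
    rintro _ ⟨v, hv, rfl⟩
    exact hBS v hv
  rintro u huB ⟨w, hwB, huw⟩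
  have huS := hBS u huB
  obtain ⟨m, hm2, p, hp, hps⟩ : Deg2In G r (Subtype.val '' B) u.1 := by
    refine h u.1 ⟨u, huB, rfl⟩ ?_
    rcases w with ⟨w, hw | hw⟩
    · refine ⟨w, ?_, (con_adj_in hc hz huS hw).1 huw⟩
      rintro ⟨w', h1, h2⟩
      have h3 : w' = ⟨w, Or.inl hw⟩ := Subtype.ext h2
      exact hwB (h3 ▸ h1)
    · subst hw
      obtain ⟨k, hk⟩ := (con_adj_out hc hz huS).1 huw
      refine ⟨b k, fun h5 => hc.hY k (hsub h5), ?_⟩
      rw [hk]
      exact hc.adj k
  obtain ⟨m', hm1, hm3⟩ := hps m (SimpleGraph.Walk.end_mem_support _)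
  have hmS : m ∈ S := hm3 ▸ hBS _ hm1
  obtain ⟨q, hq, hqs⟩ := con_walk hc hz hzB p hps u.2 (Or.inl hmS)
  refine ⟨⟨m, Or.inl hmS⟩, ?_, q, by rw [hq]; exact hp, hqs⟩
  rw [deg_con_in hc hz hmS]
  exact hm2

/-- **The contraction of a side of a smallest counterexample.** -/
theorem MinN.baseR_con [DecidablePred (· ∈ S)] (h : MinN N G) (hN : 2 ≤ N)
    {a b : Fin 3 → V} {z : V} (hc : CutK G (· ∈ S) a b) (hz : z ∉ S) (hSout : Thick G Sᶜ)
    (hnear : ∀ B, B ⊆ S → B ≠ S → Th3 G B → EX G r B) :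
    BaseR r (con hc hz) ⟨z, Or.inr rfl⟩ where
  pl := pl_con hc hz h.pl (h.conn hN le_rfl (by norm_num) hc)
  deg := by
    rintro ⟨v, hv | hv⟩
    · rw [deg_con_in hc hz hv]
      exact h.deg v
    · subst hv
      rw [deg_con_out hc hz]
  two := by
    intro B h1 h2
    rw [leave_con']
    refine h.ge_two hN ?_ ?_
    · obtain ⟨v, hv⟩ := h1
      obtain ⟨x, rfl⟩ := proj_surj (X := (· ∈ S)) hz v
      exact ⟨x, hv⟩
    · intro h5
      apply h2
      ext v
      obtain ⟨x, rfl⟩ := proj_surj (X := (· ∈ S)) hz v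
      constructor
      · exact fun _ => Set.mem_univ _
      · intro _
        have h6 : x ∈ proj (· ∈ S) z ⁻¹' B := by
          rw [h5]
          exact Set.mem_univ x
        exact h6
  cut2 := by
    intro B h1
    rw [leave_con'] at h1
    have hle : ∀ C : Set {v // v ∈ S ∨ v = z}, C.ncard ≤ (proj (· ∈ S) z ⁻¹' C).ncard := by
      intro C
      rw [← Set.ncard_image_of_injective C Subtype.val_injective]
      refine Set.ncard_le_ncard ?_ (Set.toFinite _)
      rintro _ ⟨v, hv, rfl⟩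
      show proj (· ∈ S) z v.1 ∈ C
      rw [proj_val hz]
      exact hv
    rcases h.cut_two hN _ h1 with h2 | h2
    · exact Or.inl ((hle B).trans h2)
    · refine Or.inr ((hle Bᶜ).trans ?_)
      rw [Set.preimage_compl]
      exact h2
  near := by
    intro B hB hth
    obtain ⟨h1, h2, h3⟩ := hth.of_con hc hz hSout hB
    exact (hnear _ h1 h3 h2).con hc hz hB

/-- Triangles of the contraction. -/
theorem con_triangle {a b : Fin 3 → V} {z : V} (hc : CutK G (· ∈ S) a b) (hz : z ∉ S)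
    (htri : G.CliqueFree 3) {x y w : {v // v ∈ S ∨ v = z}} (hxy : (con hc hz).Adj x y)
    (hxw : (con hc hz).Adj x w) (hyw : (con hc hz).Adj y w) :
    ∃ i j, G.Adj (a i) (a j) ∧ ∀ v : {v // v ∈ S ∨ v = z},
      v.1 = z ∨ v.1 = a i ∨ v.1 = a j → v = x ∨ v = y ∨ v = w := by
  classical
  have key : ∀ x y w : {v // v ∈ S ∨ v = z}, (con hc hz).Adj x y → (con hc hz).Adj x w →
      (con hc hz).Adj y w → x.1 ∉ S → ∃ i j, G.Adj (a i) (a j) ∧
        ∀ v : {v // v ∈ S ∨ v = z}, v.1 = z ∨ v.1 = a i ∨ v.1 = a j → v = x ∨ v = y ∨ v = w := by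
    rintro x ⟨y, hy⟩ ⟨w, hw⟩ h1 h2 h3 h4
    have hxz : x = ⟨z, Or.inr rfl⟩ := Subtype.ext (x.2.resolve_left h4)
    subst hxz
    have hyA : y ∈ S := by
      rcases hy with hy | hy
      · exact hy
      · exact absurd (Subtype.ext hy.symm) h1.ne
    have hwA : w ∈ S := by
      rcases hw with hw | hw
      · exact hw
      · exact absurd (Subtype.ext hw.symm) h2.ne
    obtain ⟨i, hi⟩ := (con_adj_out hc hz hyA).1 h1.symm
    obtain ⟨j, hj⟩ := (con_adj_out hc hz hwA).1 h2.symm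
    have h5 := (con_adj_in hc hz hyA hwA).1 h3
    subst hi hj
    exact ⟨i, j, h5, fun v hv => hv.imp (fun h => Subtype.ext h)
      (fun h => h.imp (fun h => Subtype.ext h) fun h => Subtype.ext h)⟩
  by_cases hx : x.1 ∈ S
  · by_cases hy : y.1 ∈ S
    · by_cases hw : w.1 ∈ S
      · have h1 := (con_adj_in hc hz hx hy).1 hxy
        have h2 := (con_adj_in hc hz hx hw).1 hxw
        have h3 := (con_adj_in hc hz hy hw).1 hyw
        exact absurd (SimpleGraph.is3Clique_triple_iff.2 ⟨h1, h2, h3⟩) (htri {x.1, y.1, w.1})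
      · obtain ⟨i, j, h1, h2⟩ := key w x y hxw.symm hyw.symm hxy hw
        refine ⟨i, j, h1, fun v hv => ?_⟩
        rcases h2 v hv with h3 | h3 | h3
        · exact Or.inr (Or.inr h3)
        · exact Or.inl h3
        · exact Or.inr (Or.inl h3)
    · obtain ⟨i, j, h1, h2⟩ := key y x w hxy.symm hyw hxw hy
      refine ⟨i, j, h1, fun v hv => ?_⟩
      rcases h2 v hv with h3 | h3 | h3
      · exact Or.inr (Or.inl h3)
      · exact Or.inl h3
      · exact Or.inr (Or.inr h3)
  · exact key x y w hxy hxw hyw hx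

theorem cliqueFree_con {a b : Fin 3 → V} {z : V} (hc : CutK G (· ∈ S) a b) (hz : z ∉ S)
    (htri : G.CliqueFree 3) (hnadj : ∀ i j, ¬ G.Adj (a i) (a j)) :
    (con hc hz).CliqueFree 3 := by
  classical
  intro s hs
  rw [SimpleGraph.is3Clique_iff] at hs
  obtain ⟨x, y, w, hxy, hxw, hyw, -⟩ := hs
  obtain ⟨i, j, h1, -⟩ := con_triangle hc hz htri hxy hxw hyw
  exact hnadj i j h1

theorem rootG_con {a b : Fin 3 → V} {z : V} (hc : CutK G (· ∈ S) a b) (hz : z ∉ S)
    (hdeg : ∀ i, (G.neighborSet (a i)).ncard = 3) : RootG (con hc hz) ⟨z, Or.inr rfl⟩ := by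
  refine ⟨deg_con_out hc hz, ?_⟩
  rintro ⟨s, hs | hs⟩ hadj
  · obtain ⟨i, hi⟩ := (con_adj_out hc hz hs).1 hadj.symm
    rw [deg_con_in hc hz hs, hi]
    exact hdeg i
  · subst hs
    exact absurd rfl hadj.ne

end Pool.Agent.CutN
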