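import Mathlib
import Pool.Agent.Work.MP_392c8e_co_uni.HubKill
import Pool.Agent.Work.MP_392c8e_co_uni.Desc
import Pool.Agent.Work.MP_392c8e_co_uni.RungAcc
import Pool.Agent.Work.MP_392c8e_co_uni.MinG

/-!
# One step of the descent

In a smallest graph without colourings at level `N`, let `s` be a thick side with ends of degree
three and without a vertex of degree two near one of its ends.  Then `s` starts with a rung, and
the side behind the rung is thick.
-/

namespace Pool.Agent.CutN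

open Pool.Agent.Red (leave mem_leave side side_le)
open Pool.Agent.Bad59

set_option linter.unusedSectionVars false

variable {V : Type} [Fintype V] [DecidableEq V] {G : SimpleGraph V} {N n : ℤ}

theorem MinN.notri (h : MinN N G) (x y z : V) (h1 : G.Adj x y) (h2 : G.Adj y z)
    (h3 : G.Adj x z) : False :=
  h.tri {x, y, z} (SimpleGraph.is3Clique_iff.2 ⟨x, y, z, h1, h3, h2, rfl⟩)

/-- **Two adjacent pairs of ends.** -/
theorem MinN.two_pairs (h : MinN N G) (hN : 2 ≤ N) {S : Set V} {a b : Fin 3 → V}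
    (hc : CutK G (· ∈ S) a b) (h3 : ∀ i, (G.neighborSet (a i)).ncard = 3) {p q t : Fin 3}
    (hpq : p ≠ q) (htp : t ≠ p) (htq : t ≠ q) (e1 : G.Adj (a p) (a q)) (e2 : G.Adj (a q) (a t))
    (i : Fin 3) : Deg2In G 3 S (a i) := by
  classical
  have hcov := fun m => fin3_cov p q t m hpq htp htq
  have hpt : ¬ G.Adj (a p) (a t) := fun e => h.notri _ _ _ e1 e2 e
  have hab : ∀ i j, b i ≠ a j := fun i j e => hc.hY i (e ▸ hc.hX j)
  have hout : ∀ i v, v ∉ S → G.Adj (a i) v → v = b i := by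
    intro i v hv hiv
    obtain ⟨j, h6, h7⟩ := hc.cut (a i) v (hc.hX i) hv hiv
    rw [h7, hc.ia h6]
  obtain ⟨x, hx1, hx2, hx3, hx4⟩ := third (G := G) (v := a p) (h3 p) (hc.adj p) e1 (hab _ _)
  obtain ⟨y, hy1, hy2, hy3, hy4⟩ := third (G := G) (v := a t) (h3 t) (hc.adj t) e2.symm (hab _ _)
  have hxS : x ∈ S := by
    by_contra hxS
    exact hx1 (hout p x hxS hx3)
  have hq : ∀ w, G.Adj (a q) w → w = b q ∨ w = a p ∨ w = a t := by
    obtain ⟨z, hz1, hz2, hz3, hz4⟩ := third (G := G) (v := a q) (h3 q) (hc.adj q) e1.symm (hab _ _)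
    intro w hw
    have h6 : a t = z := by
      rcases hz4 _ e2 with h7 | h7 | h7
      · exact absurd h7.symm (hab _ _)
      · exact absurd (hc.ia h7) htp
      · exact h7
    rcases hz4 w hw with h7 | h7 | h7
    · exact Or.inl h7
    · exact Or.inr (Or.inl h7)
    · exact Or.inr (Or.inr (h7.trans h6.symm))
  set Z : Set V := {v | v ∈ S ∧ ∀ m, v ≠ a m} with hZ
  have hxZ : x ∈ Z := by
    refine ⟨hxS, fun m e => ?_⟩
    rcases hcov m with rfl | rfl | rfl
    · exact hx3.ne e.symm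
    · exact hx2 e
    · exact hpt (e ▸ hx3)
  have hZ2 : (leave G Z).ncard ≤ 2 := by
    have h6 : leave G Z ⊆ {(x, a p), (y, a t)} := by
      rintro ⟨v, w⟩ ⟨h7, h8, h9⟩
      have h10 : w ∈ S := by
        by_contra h11
        obtain ⟨m, h12, -⟩ := hc.cut v w h7.1 h11 h9
        exact h7.2 m h12
      have h11 : ∃ m, w = a m := by
        by_contra hcon
        push Not at hcon
        exact h8 ⟨h10, hcon⟩
      obtain ⟨m, h12⟩ := h11
      rw [h12] at h9 ⊢
      rcases hcov m with rfl | rfl | rfl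
      · left
        rcases hx4 v h9.symm with h13 | h13 | h13
        · exact absurd (h13 ▸ h7.1) (hc.hY _)
        · exact absurd h13 (h7.2 _)
        · rw [h13]
      · exfalso
        rcases hq v h9.symm with h13 | h13 | h13
        · exact absurd (h13 ▸ h7.1) (hc.hY _)
        · exact h7.2 _ h13
        · exact h7.2 _ h13
      · right
        rcases hy4 v h9.symm with h13 | h13 | h13
        · exact absurd (h13 ▸ h7.1) (hc.hY _)
        · exact absurd h13 (h7.2 _)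
        · rw [h13]; rfl
    refine (Set.ncard_le_ncard h6 (Set.toFinite _)).trans ?_
    exact (Set.ncard_insert_le _ _).trans (by rw [Set.ncard_singleton])
  have hbig : 3 ≤ Zᶜ.ncard := by
    have h1 : Set.range a ⊆ Zᶜ := by
      rintro _ ⟨i, rfl⟩ hi
      exact hi.2 i rfl
    have h2 : (Set.range a).ncard = 3 := by
      rw [← Set.image_univ, Set.ncard_image_of_injective _ hc.ia, Set.ncard_univ,
        Nat.card_eq_fintype_card, Fintype.card_fin]
    have h4 := Set.ncard_le_ncard h1 (Set.toFinite _)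
    omega
  have h6 := h.deg_two hN hZ2 hbig hxZ
  have dp : Deg2In G 1 S (a p) := (Deg2In.self (r := 0) hxS h6).cons (hc.hX p) hx3
  have dq : Deg2In G 2 S (a q) := dp.cons (hc.hX q) e1.symm
  rcases hcov i with rfl | rfl | rfl
  · exact dp.mono (by omega) subset_rfl
  · exact dq.mono (by omega) subset_rfl
  · exact dq.cons (hc.hX _) e2.symm

/-- The cut behind a rung. -/
theorem rsd_cutK (htri : ∀ x y z, G.Adj x y → G.Adj y z → G.Adj x z → False) {s : Sd V}
    (hc : CutK G s.Y s.a s.b) {l : Fin 3} (hr : G.Adj (s.a (l + 1)) (s.a (l + 2))) {r1 r2 : V}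
    (x1 : r1 ≠ s.b (l + 1)) (x2 : r1 ≠ s.a (l + 2)) (x3 : G.Adj (s.a (l + 1)) r1)
    (x4 : ∀ w, G.Adj (s.a (l + 1)) w → w = s.b (l + 1) ∨ w = s.a (l + 2) ∨ w = r1)
    (y1 : r2 ≠ s.b (l + 2)) (y2 : r2 ≠ s.a (l + 1)) (y3 : G.Adj (s.a (l + 2)) r2)
    (y4 : ∀ w, G.Adj (s.a (l + 2)) w → w = s.b (l + 2) ∨ w = s.a (l + 1) ∨ w = r2)
    (hends : r1 ≠ s.a l ∧ r2 ≠ s.a l) :
    CutK G (rsd s l r1 r2).Y (rsd s l r1 r2).a (rsd s l r1 r2).b := by
  have hne : r1 ≠ r2 := by
    rintro rfl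
    exact htri _ _ _ hr y3 x3
  have z1 : s.Y r1 := in_of_end hc x3 x1
  have z2 : s.Y r2 := in_of_end hc y3 y1
  have w1 : r1 ≠ s.a (l + 1) := x3.ne'
  have w2 : r2 ≠ s.a (l + 2) := y3.ne'
  have l1 : s.a l ≠ s.a (l + 1) := fun h => f1 l (hc.ia h).symm
  have l2 : s.a l ≠ s.a (l + 2) := fun h => f2 l (hc.ia h).symm
  -- the leaving edges
  have hcut : ∀ u v, (rsd s l r1 r2).Y u → ¬ (rsd s l r1 r2).Y v → G.Adj u v →
      (u = r1 ∧ v = s.a (l + 1)) ∨ (u = r2 ∧ v = s.a (l + 2)) ∨ (u = s.a l ∧ v = s.b l) := by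
    rintro u v ⟨u1, u2, u3⟩ hv huv
    by_cases hY : s.Y v
    · have : v = s.a (l + 1) ∨ v = s.a (l + 2) := by
        by_contra hcon
        push Not at hcon
        exact hv ⟨hY, hcon⟩
      rcases this with rfl | rfl
      · rcases x4 u huv.symm with h | h | h
        · exact absurd u1 (h ▸ hc.hY _)
        · exact absurd h u3
        · exact Or.inl ⟨h, rfl⟩
      · rcases y4 u huv.symm with h | h | h
        · exact absurd u1 (h ▸ hc.hY _)
        · exact absurd h u2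
        · exact Or.inr (Or.inl ⟨h, rfl⟩)
    · obtain ⟨j, e1, e2⟩ := hc.cut u v u1 hY huv
      rcases fcase l j with rfl | rfl | rfl
      · exact Or.inr (Or.inr ⟨e1, e2⟩)
      · exact absurd e1 u2
      · exact absurd e1 u3
  refine ⟨fun i => ?_, fun i => ?_, fun i => ?_, fun i j hij => ?_, fun i j hij => ?_,
    fun u v hu hv huv => ?_⟩
  · rcases fcase l i with rfl | rfl | rfl
    · rw [rsd_a0]
      exact ⟨hc.hX _, l1, l2⟩
    · rw [rsd_a1]
      exact ⟨z1, w1, x2⟩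
    · rw [rsd_a2]
      exact ⟨z2, y2, w2⟩
  · rcases fcase l i with rfl | rfl | rfl
    · rw [rsd_b0]
      exact fun h => hc.hY _ h.1
    · rw [rsd_b1]
      exact fun h => h.2.1 rfl
    · rw [rsd_b2]
      exact fun h => h.2.2 rfl
  · rcases fcase l i with rfl | rfl | rfl
    · rw [rsd_a0, rsd_b0]
      exact hc.adj _
    · rw [rsd_a1, rsd_b1]
      exact x3.symm
    · rw [rsd_a2, rsd_b2]
      exact y3.symm
  · rcases fcase l i with h | h | h <;> rcases fcase l j with h' | h' | h' <;>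
      rw [h, h'] at hij ⊢ <;> simp only [rsd_a0, rsd_a1, rsd_a2] at hij <;> first
      | exact absurd hij.symm hends.1
      | exact absurd hij.symm hends.2
      | exact absurd hij hends.1
      | exact absurd hij hends.2
      | exact absurd hij hne
      | exact absurd hij.symm hne
  · rcases fcase l i with h | h | h <;> rcases fcase l j with h' | h' | h' <;>
      rw [h, h'] at hij ⊢ <;> simp only [rsd_b0, rsd_b1, rsd_b2] at hij <;> first
      | exact absurd hij (a_ne_b hc _ _)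
      | exact absurd hij.symm (a_ne_b hc _ _)
      | exact absurd (hc.ia hij) (f12 l)
      | exact absurd (hc.ia hij) (f12 l).symm
  · rcases hcut u v hu hv huv with ⟨h, h'⟩ | ⟨h, h'⟩ | ⟨h, h'⟩
    · exact ⟨l + 1, by rw [rsd_a1, h], by rw [rsd_b1, h']⟩
    · exact ⟨l + 2, by rw [rsd_a2, h], by rw [rsd_b2, h']⟩
    · exact ⟨l, by rw [rsd_a0, h], by rw [rsd_b0, h']⟩

/-- A pure end has no vertex of degree two near it. -/
theorem not_deg2In_of_pure {s : Sd V} {i : Fin 3}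
    (hp : ∀ v, InN G s.Y 5 (s.a i) v → dg G v = 3) : ¬ Deg2In G 5 {v | s.Y v} (s.a i) := by
  rintro ⟨m, h2, p, h3, h4⟩
  have h5 : dg G m = 3 := hp m ⟨p, h3, h4⟩
  have h6 : dg G m = 2 := h2
  omega

/-- **One step of the descent.** -/
theorem MinN.step (h : MinN N G) (hn : 0 < n) (hN : 1000 * n + 1000 ≤ N) {K : Set V}
    (hacc : ∀ S : Set V, S ⊆ K → Th3 G S → ∀ a b : Fin 3 → V, CutK G (· ∈ S) a b →
      (∀ i, (G.neighborSet (a i)).ncard = 3) → AccHyp n G S a) (s : Sd V)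
    (hs : ∀ v, s.Y v → v ∈ K) (hc : CutK G s.Y s.a s.b) (ht : Th3 G {v | s.Y v})
    (h3 : ∀ i, dg G (s.a i) = 3)
    (hpure : ∃ i, ∀ v, InN G s.Y 5 (s.a i) v → dg G v = 3) :
    ∃ l r1 r2, RStep G s l r1 r2 ∧ Thick G {v | (rsd s l r1 r2).Y v} := by
  classical
  have hN2 : 2 ≤ N := by linarith
  obtain ⟨i, hi⟩ := hpure
  have hfar := not_deg2In_of_pure hi
  have hc' : CutK G (· ∈ {v | s.Y v}) s.a s.b := hc
  have hA : AccHyp n G {v | s.Y v} s.a := hacc _ (fun v hv => hs v hv) ht _ _ hc' h3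
  by_cases hadj : ∃ p q, G.Adj (s.a p) (s.a q)
  swap
  · exfalso
    push Not at hadj
    have hcom := AccHyp.not_good h hn.le (by linarith) hc' hA hadj h3
    exact hfar (hub_kill h hn hN hc' h3 hadj hcom
      (fun T hT hTh a b hcT h3T => hacc T (hT.trans fun v hv => hs v hv) hTh a b hcT h3T)
      (s.a i) (hc.hX i) ⟨s.b i, hc.hY i, hc.adj i⟩)
  obtain ⟨l, hr⟩ : ∃ l : Fin 3, G.Adj (s.a (l + 1)) (s.a (l + 2)) := by
    obtain ⟨p, q, hpq⟩ := hadj
    obtain ⟨l, ⟨h1, h2⟩ | ⟨h1, h2⟩⟩ := fpair p q (fun e => hpq.ne (by rw [e]))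
    · exact ⟨l, by rw [← h1, ← h2]; exact hpq⟩
    · exact ⟨l, by rw [← h1, ← h2]; exact hpq.symm⟩
  have hab : ∀ i j, s.b i ≠ s.a j := fun i j => (a_ne_b hc j i).symm
  have nl1 : ¬ G.Adj (s.a (l + 1)) (s.a l) := fun e =>
    hfar ((h.two_pairs hN2 hc' h3 (p := l + 2) (q := l + 1) (t := l) (f12 l).symm (f2 l).symm
      (f1 l).symm hr.symm e i).mono (by omega) subset_rfl)
  have nl2 : ¬ G.Adj (s.a (l + 2)) (s.a l) := fun e =>
    hfar ((h.two_pairs hN2 hc' h3 (p := l + 1) (q := l + 2) (t := l) (f12 l) (f1 l).symm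
      (f2 l).symm hr e i).mono (by omega) subset_rfl)
  obtain ⟨r1, x1, x2, x3, x4⟩ := third (h3 (l + 1)) (hc.adj (l + 1)) hr (hab _ _)
  obtain ⟨r2, y1, y2, y3, y4⟩ := third (h3 (l + 2)) (hc.adj (l + 2)) hr.symm (hab _ _)
  have hr1 : r1 ≠ s.a l := fun e => nl1 (e ▸ x3)
  have hr2 : r2 ≠ s.a l := fun e => nl2 (e ▸ y3)
  have hcr := rsd_cutK h.notri hc hr x1 x2 x3 x4 y1 y2 y3 y4 ⟨hr1, hr2⟩
  refine ⟨l, r1, r2, ⟨hr, x3, y3, x4, y4, hcr⟩, ?_⟩
  -- the side behind the rung is thick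
  by_contra hthin
  have honly : ∀ v, (rsd s l r1 r2).Y v → v ≠ s.a l → (G.neighborSet v).ncard = 2 := by
    intro v hv hva
    by_contra h5
    have h6 : (G.neighborSet v).ncard = 3 := by
      have := h.two_le hN2 v
      have := h.deg v
      omega
    apply hthin
    have h7 : ({v, s.a l} : Set V) ⊆
        {w | w ∈ {v | (rsd s l r1 r2).Y v} ∧ (G.neighborSet w).ncard = 3} := by
      rintro w (rfl | rfl)
      · exact ⟨hv, h6⟩
      · have := hcr.hX l
        rw [rsd_a0] at this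
        exact ⟨this, h3 l⟩
    have h8 := Set.ncard_le_ncard h7 (Set.toFinite _)
    rw [Set.ncard_pair hva] at h8
    exact h8
  have hr1Y : (rsd s l r1 r2).Y r1 := by
    have := hcr.hX (l + 1)
    rwa [rsd_a1] at this
  have hr2Y : (rsd s l r1 r2).Y r2 := by
    have := hcr.hX (l + 2)
    rwa [rsd_a2] at this
  have d1 : Deg2In G 1 {v | s.Y v} (s.a (l + 1)) :=
    (Deg2In.self (r := 0) hr1Y.1 (honly r1 hr1Y hr1)).cons (hc.hX _) x3
  have d2 : Deg2In G 1 {v | s.Y v} (s.a (l + 2)) :=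
    (Deg2In.self (r := 0) hr2Y.1 (honly r2 hr2Y hr2)).cons (hc.hX _) y3
  have d0 : Deg2In G 1 {v | s.Y v} (s.a l) := by
    obtain ⟨w, hw, hne⟩ : ∃ w, G.Adj (s.a l) w ∧ w ≠ s.b l := by
      have h4 : (G.neighborSet (s.a l)).ncard = 3 := h3 l
      obtain ⟨w, hw, hne⟩ := Set.exists_ne_of_one_lt_ncard (s := G.neighborSet (s.a l)) (by omega)
        (s.b l)
      exact ⟨w, hw, hne⟩
    have hwY : s.Y w := in_of_end hc hw hne
    have hw' : (rsd s l r1 r2).Y w := ⟨hwY, fun e => nl1 (e ▸ hw).symm, fun e => nl2 (e ▸ hw).symm⟩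
    exact (Deg2In.self (r := 0) hwY (honly w hw' hw.ne')).cons (hc.hX _) hw
  apply hfar
  rcases fcase l i with h5 | h5 | h5
  · rw [h5]; exact d0.mono (by omega) subset_rfl
  · rw [h5]; exact d1.mono (by omega) subset_rfl
  · rw [h5]; exact d2.mono (by omega) subset_rfl

/-- **A side with a pure end accepts all vectors with different entries at its rung.** -/
theorem MinN.accRung (h : MinN N G) (hN : 2 ≤ N) {K : Set V}
    (hacc : ∀ S : Set V, S ⊆ K → Th3 G S → ∀ a b : Fin 3 → V, CutK G (· ∈ S) a b →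
      (∀ i, (G.neighborSet (a i)).ncard = 3) → AccHyp n G S a) (s : Sd V)
    (hs : ∀ v, s.Y v → v ∈ K) (hc : CutK G s.Y s.a s.b) (ht : Th3 G {v | s.Y v})
    (h3 : ∀ i, dg G (s.a i) = 3)
    (hpure : ∃ i, ∀ v, InN G s.Y 5 (s.a i) v → dg G v = 3) (l : Fin 3)
    (hr : G.Adj (s.a (l + 1)) (s.a (l + 2))) (y : Fin 3 → ZMod 3) (hy : y (l + 1) ≠ y (l + 2)) :
    Acc (2 * n) G s.Y s.a y := by
  obtain ⟨i, hi⟩ := hpure
  have hfar := not_deg2In_of_pure hi
  have hc' : CutK G (· ∈ {v | s.Y v}) s.a s.b := hc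
  have hA : AccHyp n G {v | s.Y v} s.a := hacc _ (fun v hv => hs v hv) ht _ _ hc' h3
  have nl1 : ¬ G.Adj (s.a (l + 1)) (s.a l) := fun e =>
    hfar ((h.two_pairs hN hc' h3 (p := l + 2) (q := l + 1) (t := l) (f12 l).symm (f2 l).symm
      (f1 l).symm hr.symm e i).mono (by omega) subset_rfl)
  have nl2 : ¬ G.Adj (s.a (l + 2)) (s.a l) := fun e =>
    hfar ((h.two_pairs hN hc' h3 (p := l + 1) (q := l + 2) (t := l) (f12 l) (f1 l).symm
      (f2 l).symm hr e i).mono (by omega) subset_rfl)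
  exact hA.rung (l + 1) (l + 2) l (f12 l) (f1 l) (f2 l) hr nl1 nl2 y hy

end Pool.Agent.CutN
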