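import Mathlib
import Pool.Agent.Work.MP_392c8e_co_uni.MinG
import Pool.Agent.Work.MP_392c8e_co_uni.ExSide
import Pool.Agent.Work.MP_392c8e_co_uni.Side4

/-!
# Smallest sides which are not near: the ends have degree three

If `B` is the side of a cut with three edges with two vertices of degree three on both sides, if
not every end of `B` has a vertex of degree two within distance `r` inside `B`, and if all smaller
sides of this kind have this property, then the three ends of `B` have degree three (`norm_of`): an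
end of degree two could be moved to the other side.
-/

namespace Pool.Agent.CutN

open Pool.Agent.Red

set_option linter.unusedSectionVars false

variable {V : Type} [Fintype V] [DecidableEq V] {G : SimpleGraph V} {r : ℕ} {B : Set V}

/-- A cut with two edges, of a set of vertices with a vertex of degree three which leaves two
vertices outside, is impossible. -/
theorem no_cut_two (htwo : ∀ v, 2 ≤ (G.neighborSet v).ncard)
    (hcut2 : ∀ A : Set V, (leave G A).ncard ≤ 2 → A.ncard ≤ 2 ∨ Aᶜ.ncard ≤ 2) {A : Set V}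
    (hA : Thick G A) (hA' : 3 ≤ Aᶜ.ncard) : 3 ≤ (leave G A).ncard := by
  by_contra hne
  have h2 : (leave G A).ncard ≤ 2 := by omega
  rcases hcut2 _ h2 with h5 | h5
  · have h6 : ∃ w, w ∈ A ∧ (G.neighborSet w).ncard = 3 := by
      by_contra hcon
      push Not at hcon
      have h7 : {v | v ∈ A ∧ (G.neighborSet v).ncard = 3} = ∅ := by
        ext v
        simp only [Set.mem_setOf_eq, Set.mem_empty_iff_false, iff_false]
        exact fun h8 => hcon v h8.1 h8.2
      have h8 : 2 ≤ {v | v ∈ A ∧ (G.neighborSet v).ncard = 3}.ncard := hA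
      rw [h7, Set.ncard_empty] at h8
      omega
    obtain ⟨w, hw, hw3⟩ := h6
    have := three_le_leave htwo h5 hw hw3
    omega
  · omega

theorem Thick.two_le {A : Set V} (h : Thick G A) : 2 ≤ A.ncard :=
  le_trans h (Set.ncard_le_ncard (fun _ hv => hv.1) (Set.toFinite _))

/-- An end of degree two can be moved to the other side. -/
theorem Th3.erase (htwo : ∀ v, 2 ≤ (G.neighborSet v).ncard)
    (hcut2 : ∀ A : Set V, (leave G A).ncard ≤ 2 → A.ncard ≤ 2 ∨ Aᶜ.ncard ≤ 2)
    (hB : Th3 G B) {a b : Fin 3 → V} (hc : CutK G (· ∈ B) a b) {i : Fin 3}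
    (h2 : (G.neighborSet (a i)).ncard = 2) : Th3 G (B \ {a i}) := by
  have h3 : (leave G B).ncard = 3 := hB.three
  have tB : Thick G (B \ {a i}) := by
    refine le_trans hB.inn (Set.ncard_le_ncard ?_ (Set.toFinite _))
    rintro v ⟨h4, h5⟩
    refine ⟨⟨h4, fun h6 => ?_⟩, h5⟩
    rw [Set.mem_singleton_iff.1 h6] at h5
    omega
  have tB' : Thick G (B \ {a i})ᶜ := hB.out.mono fun v hv h6 => hv h6.1
  refine ⟨?_, tB, tB'⟩
  -- the second neighbour
  obtain ⟨x, y, hxy, hN⟩ := Set.ncard_eq_two.1 h2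
  obtain ⟨u', hu'⟩ : ∃ u', ∀ w, G.Adj (a i) w → w ∈ B → w = u' := by
    have h4 : b i ∈ G.neighborSet (a i) := hc.adj i
    rw [hN] at h4
    rcases h4 with h4 | h4
    · refine ⟨y, fun w hw hwB => ?_⟩
      have h5 : w ∈ G.neighborSet (a i) := hw
      rw [hN] at h5
      rcases h5 with h5 | h5
      · exact absurd hwB (by rw [h5, ← h4]; exact hc.hY i)
      · exact h5
    · refine ⟨x, fun w hw hwB => ?_⟩
      have h5 : w ∈ G.neighborSet (a i) := hw
      rw [hN] at h5
      rcases h5 with h5 | h5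
      · exact h5
      · exact absurd hwB (by rw [Set.mem_singleton_iff.1 h5, ← Set.mem_singleton_iff.1 h4]
                             exact hc.hY i)
  have hle : (leave G (B \ {a i})).ncard ≤ 3 := by
    have h4 : leave G (B \ {a i}) ⊆ (leave G B \ {(a i, b i)}) ∪ {(u', a i)} := by
      rintro ⟨u, v⟩ ⟨⟨hu, hu2⟩, hv, huv⟩
      have hv' : v ∉ B \ {a i} := hv
      by_cases hvB : v ∈ B
      · right
        have h5 : v = a i := by
          by_contra h6
          exact hv' ⟨hvB, h6⟩
        subst h5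
        have h6 : u = u' := hu' u huv.symm hu
        rw [h6]
        rfl
      · left
        refine ⟨⟨hu, hvB, huv⟩, fun h5 => hu2 ?_⟩
        exact (Prod.mk.inj (Set.mem_singleton_iff.1 h5)).1
    have h5 := Set.ncard_le_ncard h4 (Set.toFinite _)
    have h6 := Set.ncard_union_le (leave G B \ {(a i, b i)}) {(u', a i)}
    rw [Set.ncard_singleton] at h6
    have h7 : (a i, b i) ∈ leave G B := ⟨hc.hX i, hc.hY i, hc.adj i⟩
    have h8 := Set.ncard_sdiff_singleton_add_one h7 (Set.toFinite _)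
    omega
  have hge : 3 ≤ (leave G (B \ {a i})).ncard := by
    refine no_cut_two htwo hcut2 tB ?_
    have h6 : insert (a i) Bᶜ ⊆ (B \ {a i})ᶜ := by
      intro x hx hx2
      rcases hx with rfl | hx
      · exact hx2.2 rfl
      · exact hx hx2.1
    have h7 := Set.ncard_le_ncard h6 (Set.toFinite _)
    have h9 : a i ∉ Bᶜ := fun h9 => h9 (hc.hX i)
    rw [Set.ncard_insert_of_notMem h9 (Set.toFinite _)] at h7
    have h8 := hB.out.two_le
    omega
  omega

/-- **The ends of a smallest side which is not near have degree three.** -/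
theorem norm_of (hd : ∀ v, (G.neighborSet v).ncard ≤ 3)
    (htwo : ∀ v, 2 ≤ (G.neighborSet v).ncard)
    (hcut2 : ∀ A : Set V, (leave G A).ncard ≤ 2 → A.ncard ≤ 2 ∨ Aᶜ.ncard ≤ 2)
    (hB : Th3 G B) (hv : ¬ EX G r B)
    (hmin : ∀ A : Set V, A ⊆ B → A ≠ B → Th3 G A → EX G r A)
    {a b : Fin 3 → V} (hc : CutK G (· ∈ B) a b) (i : Fin 3) :
    (G.neighborSet (a i)).ncard = 3 := by
  by_contra hne
  have h2 : (G.neighborSet (a i)).ncard = 2 := by
    have h3 := hd (a i)
    have h4 := htwo (a i)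
    omega
  have h5 : B \ {a i} ≠ B := by
    intro h6
    have h7 : a i ∈ B \ {a i} := by rw [h6]; exact hc.hX i
    exact h7.2 rfl
  have h6 := hmin _ Set.sdiff_subset h5 (hB.erase htwo hcut2 hc h2)
  apply hv
  intro x hx hx'
  by_cases hxi : x = a i
  · subst hxi
    exact Deg2In.self (hc.hX i) h2
  · obtain ⟨v, hvB, hxv⟩ := hx'
    exact (h6 x ⟨hx, hxi⟩ ⟨v, fun h7 => hvB h7.1, hxv⟩).mono le_rfl Set.sdiff_subset

/-- A smallest side which is not near exists. -/
theorem exists_min_side (hB : Th3 G B) (hv : ¬ EX G r B) :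
    ∃ A : Set V, A ⊆ B ∧ Th3 G A ∧ ¬ EX G r A ∧
      ∀ C : Set V, C ⊆ A → C ≠ A → Th3 G C → EX G r C := by
  classical
  have key : ∃ m : ℕ, ∃ A : Set V, A ⊆ B ∧ Th3 G A ∧ ¬ EX G r A ∧ A.ncard = m :=
    ⟨_, B, subset_rfl, hB, hv, rfl⟩
  obtain ⟨A, h1, h2, h6, hm⟩ := Nat.find_spec key
  refine ⟨A, h1, h2, h6, fun C hCA hne hC => ?_⟩
  by_contra hC4
  have h7 := Nat.find_min' key ⟨C, hCA.trans h1, hC, hC4, rfl⟩
  rw [← hm] at h7
  exact hne (Set.eq_of_subset_of_ncard_le hCA h7 (Set.toFinite _))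

/-- **A side which is not good** has two adjacent ends, or all pairs of ends have a common
neighbour inside. -/
theorem not_good (hB : Th3 G B) {a b : Fin 3 → V}
    (hc : CutK G (· ∈ B) a b) (hd : ∀ i, (G.neighborSet (a i)).ncard = 3)
    (hng : ¬ GoodS G B) : (∃ i j, i ≠ j ∧ G.Adj (a i) (a j)) ∨
      ∀ i j, i ≠ j → ∃ w, w ∈ B ∧ G.Adj (a i) w ∧ G.Adj (a j) w := by
  by_contra hcon
  push Not at hcon
  obtain ⟨h1, i, j, hij, h2⟩ := hcon
  refine hng ⟨hB.three, ⟨a, hc.ia, hc.hX, hd, fun k => ⟨b k, hc.hY k, hc.adj k⟩,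
    fun u v hu hv huv => ?_, fun k l hkl => ?_, i, j, hij, fun w hw hw2 => h2 w hw hw2.1 hw2.2⟩,
    hB.inn, hB.out⟩
  · obtain ⟨k, hk, -⟩ := hc.cut u v hu hv huv
    exact ⟨k, hk⟩
  · exact h1 k l (fun h3 => hkl.ne (by rw [h3])) hkl

end Pool.Agent.CutN
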