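import Mathlib
import Pool.Agent.Work.MP_392c8e_co_uni.KillStep
import Pool.Agent.Work.MP_392c8e_co_uni.NormB

/-!
# No side without vertices of degree two near one of its ends

In a smallest graph without colourings at level `N`, suppose that all closures of the thick sides
inside `K` have colourings at level `n`, and `1000 n + 1000 ≤ N`.  Then `K` is not a smallest thick
side with an end without vertices of degree two near it.
-/

namespace Pool.Agent.CutN

open Pool.Agent.Red (leave mem_leave side side_le)
open Pool.Agent.Bad59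

set_option linter.unusedSectionVars false

variable {V : Type} [Fintype V] [DecidableEq V] {G : SimpleGraph V} {N n : ℤ}

/-- **The kill theorem.** -/
theorem kill {r : ℕ} (h : MinN N G) (hn : 0 < n) (hN : 1000 * n + 1000 ≤ N) (hr : 40 ≤ r)
    {K : Set V} (hK : Th3 G K) (hx : ¬ EX G r K)
    (hmin : ∀ S : Set V, S ⊆ K → S ≠ K → Th3 G S → EX G r S)
    (hacc : ∀ S : Set V, S ⊆ K → Th3 G S → ∀ a b : Fin 3 → V, CutK G (· ∈ S) a b →
      (∀ i, (G.neighborSet (a i)).ncard = 3) → AccHyp n G S a) : False := by
  classical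
  have hN2 : 2 ≤ N := by linarith
  obtain ⟨a, b, hc⟩ := h.exists_cutK hN2 hK
  have hcub : ∀ i, (G.neighborSet (a i)).ncard = 3 :=
    norm_of h.deg (h.two_le hN2) (h.cut_two hN2) hK hx hmin hc
  have hx' : ¬ EX G r {v | v ∈ K} := hx
  obtain ⟨i0, hi0⟩ := exists_far hc hx'
  have hD : DescH N (2 * n) G r K :=
    { min := h
      out := hK.out
      near := hmin
      step := fun s hs hc ht h3 hp => h.step hn hN hacc s hs hc ht h3 hp
      acc := fun s hs hc ht h3 hp l hr y hy => h.accRung hN2 hacc s hs hc ht h3 hp l hr y hy }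
  refine desc_kill (s0 := ⟨(· ∈ K), a, b⟩) (i0 := i0) (by linarith) (by linarith) hD (by omega)
    (fun v hv => hv) hc hK.inn hcub ?_
  rintro v ⟨p, hp1, hp2⟩
  by_contra hv
  have h2 : (G.neighborSet v).ncard = 2 := by
    have h3 : (G.neighborSet v).ncard ≠ 3 := hv
    have := h.two_le hN2 v
    have := h.deg v
    omega
  exact hi0 ⟨v, h2, p, hp1, hp2⟩

end Pool.Agent.CutN
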