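import Mathlib
import Pool.Agent.Work.MP_392c8e_co_uni.GeoBase

/-!
# The edge cuts with three edges are laminar

In a graph in which every cut has at least three edges two cuts with three edges do not cross.
-/

set_option autoImplicit false
set_option linter.unusedSectionVars false

namespace Pool.Agent.Lam392

open Finset Pool.Agent.U2Geo

variable {V : Type} [Fintype V] [DecidableEq V] {G : SimpleGraph V} [DecidableRel G.Adj]

/-- The number of darts from `A` to `B`. -/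
def ed (G : SimpleGraph V) [DecidableRel G.Adj] (A B : Finset V) : ℕ :=
  #{d : G.Dart | d.fst ∈ A ∧ d.snd ∈ B}

theorem ed_comm (A B : Finset V) : ed G A B = ed G B A := by
  classical
  refine Finset.card_bij (fun d _ => d.symm) ?_ ?_ ?_
  · intro d hd
    simp only [mem_filter, mem_univ, true_and] at hd ⊢
    exact ⟨hd.2, hd.1⟩
  · intro d _ d' _ h
    have := congrArg SimpleGraph.Dart.symm h
    simpa using this
  · intro d hd
    refine ⟨d.symm, ?_, by simp⟩
    simp only [mem_filter, mem_univ, true_and] at hd ⊢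
    exact ⟨hd.2, hd.1⟩

theorem ed_union_right {A B C : Finset V} (h : Disjoint B C) :
    ed G A (B ∪ C) = ed G A B + ed G A C := by
  classical
  unfold ed
  rw [← card_union_of_disjoint]
  · congr 1
    ext d
    simp only [mem_union, mem_filter, mem_univ, true_and]
    tauto
  · rw [disjoint_filter]
    rintro d _ ⟨_, h1⟩ ⟨_, h2⟩
    exact Finset.disjoint_left.1 h h1 h2

theorem ed_union_left {A B C : Finset V} (h : Disjoint A B) :
    ed G (A ∪ B) C = ed G A C + ed G B C := by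
  rw [ed_comm, ed_union_right h, ed_comm, ed_comm (G := G) B]

theorem out_eq (A : Finset V) : out G A = ed G A Aᶜ := by
  unfold out ed
  congr 1
  ext d
  simp

/-- **Two cuts with three edges do not cross.** -/
theorem no_cross (h3 : ∀ A : Finset V, A.Nonempty → Aᶜ.Nonempty → 3 ≤ out G A) {A B : Finset V}
    (hA : out G A = 3) (hB : out G B = 3) (h1 : (A ∩ B).Nonempty) (h2 : (A \ B).Nonempty)
    (h4 : (B \ A).Nonempty) (h5 : (A ∪ B)ᶜ.Nonempty) : False := by
  classical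
  set X := A ∩ B with hX
  set Y := A \ B with hY
  set Z := B \ A with hZ
  set W := (A ∪ B)ᶜ with hW
  have dXY : Disjoint X Y := by
    rw [Finset.disjoint_left]
    intro v hv hv'
    exact (mem_sdiff.1 hv').2 (mem_inter.1 hv).2
  have dXZ : Disjoint X Z := by
    rw [Finset.disjoint_left]
    intro v hv hv'
    exact (mem_sdiff.1 hv').2 (mem_inter.1 hv).1
  have dXW : Disjoint X W := by
    rw [Finset.disjoint_left]
    intro v hv hv'
    exact (mem_compl.1 hv') (mem_union_left _ (mem_inter.1 hv).1)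
  have dYZ : Disjoint Y Z := by
    rw [Finset.disjoint_left]
    intro v hv hv'
    exact (mem_sdiff.1 hv').2 (mem_sdiff.1 hv).1
  have dYW : Disjoint Y W := by
    rw [Finset.disjoint_left]
    intro v hv hv'
    exact (mem_compl.1 hv') (mem_union_left _ (mem_sdiff.1 hv).1)
  have dZW : Disjoint Z W := by
    rw [Finset.disjoint_left]
    intro v hv hv'
    exact (mem_compl.1 hv') (mem_union_right _ (mem_sdiff.1 hv).1)
  have eA : A = X ∪ Y := by
    ext v
    simp only [hX, hY, mem_union, mem_inter, mem_sdiff]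
    tauto
  have eB : B = X ∪ Z := by
    ext v
    simp only [hX, hZ, mem_union, mem_inter, mem_sdiff]
    tauto
  have eAc : Aᶜ = Z ∪ W := by
    ext v
    simp only [hZ, hW, mem_union, mem_sdiff, mem_compl]
    tauto
  have eBc : Bᶜ = Y ∪ W := by
    ext v
    simp only [hY, hW, mem_union, mem_sdiff, mem_compl]
    tauto
  have eXc : Xᶜ = Y ∪ (Z ∪ W) := by
    ext v
    simp only [hX, hY, hZ, hW, mem_union, mem_inter, mem_sdiff, mem_compl]
    tauto
  have eYc : Yᶜ = X ∪ (Z ∪ W) := by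
    ext v
    simp only [hX, hY, hZ, hW, mem_union, mem_inter, mem_sdiff, mem_compl]
    tauto
  have eZc : Zᶜ = X ∪ (Y ∪ W) := by
    ext v
    simp only [hX, hY, hZ, hW, mem_union, mem_inter, mem_sdiff, mem_compl]
    tauto
  have eWc : Wᶜ = X ∪ (Y ∪ Z) := by
    ext v
    simp only [hX, hY, hZ, hW, mem_union, mem_inter, mem_sdiff, mem_compl]
    tauto
  have ne : ∀ {P Q S T : Finset V}, Pᶜ = Q ∪ (S ∪ T) → Q.Nonempty → Pᶜ.Nonempty := by
    intro P Q S T h hQ
    rw [h]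
    exact hQ.mono subset_union_left
  have b1 := h3 X h1 (ne eXc h2)
  have b2 := h3 Y h2 (ne eYc h1)
  have b3 := h3 Z h4 (ne eZc h1)
  have b4 := h3 W h5 (ne eWc h1)
  have dYZW : Disjoint Y (Z ∪ W) := disjoint_union_right.2 ⟨dYZ, dYW⟩
  have dXZW : Disjoint X (Z ∪ W) := disjoint_union_right.2 ⟨dXZ, dXW⟩
  have dXYW : Disjoint X (Y ∪ W) := disjoint_union_right.2 ⟨dXY, dXW⟩
  have dXYZ : Disjoint X (Y ∪ Z) := disjoint_union_right.2 ⟨dXY, dXZ⟩
  rw [out_eq, eXc, ed_union_right dYZW, ed_union_right dZW] at b1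
  rw [out_eq, eYc, ed_union_right dXZW, ed_union_right dZW] at b2
  rw [out_eq, eZc, ed_union_right dXYW, ed_union_right dYW] at b3
  rw [out_eq, eWc, ed_union_right dXYZ, ed_union_right dYZ] at b4
  rw [out_eq, eAc] at hA
  rw [out_eq, eBc] at hB
  have hA' : ed G (X ∪ Y) (Z ∪ W) = 3 := by rw [← eA]; exact hA
  have hB' : ed G (X ∪ Z) (Y ∪ W) = 3 := by rw [← eB]; exact hB
  rw [ed_union_right dZW, ed_union_left dXY, ed_union_left dXY] at hA'
  rw [ed_union_right dYW, ed_union_left dXZ, ed_union_left dXZ] at hB'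
  have c1 := ed_comm (G := G) Y X
  have c2 := ed_comm (G := G) Z X
  have c3 := ed_comm (G := G) W X
  have c4 := ed_comm (G := G) Z Y
  have c5 := ed_comm (G := G) W Y
  have c6 := ed_comm (G := G) W Z
  omega

/-- **The cuts with three edges are laminar.** -/
theorem laminar (h3 : ∀ A : Finset V, A.Nonempty → Aᶜ.Nonempty → 3 ≤ out G A) {r : V}
    {A B : Finset V} (hrA : r ∉ A) (hrB : r ∉ B) (hA : out G A = 3) (hB : out G B = 3) :
    Disjoint A B ∨ A ⊆ B ∨ B ⊆ A := by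
  classical
  by_contra hcon
  push Not at hcon
  obtain ⟨h1, h2, h4⟩ := hcon
  refine no_cross h3 hA hB ?_ ?_ ?_ ⟨r, ?_⟩
  · rw [Finset.disjoint_iff_inter_eq_empty] at h1
    exact Finset.nonempty_iff_ne_empty.2 h1
  · obtain ⟨v, hv, hv'⟩ := Finset.not_subset.1 h2
    exact ⟨v, mem_sdiff.2 ⟨hv, hv'⟩⟩
  · obtain ⟨v, hv, hv'⟩ := Finset.not_subset.1 h4
    exact ⟨v, mem_sdiff.2 ⟨hv, hv'⟩⟩
  · rw [mem_compl, mem_union]
    exact fun h => h.elim hrA hrB

/-- The own part of a member of a family of sets. -/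
def own (𝓕 : Finset (Finset V)) (A : Finset V) : Finset V :=
  A \ (𝓕.filter fun B => B ⊂ A).biUnion id

theorem mem_own {𝓕 : Finset (Finset V)} {A : Finset V} {v : V} :
    v ∈ own 𝓕 A ↔ v ∈ A ∧ ∀ B ∈ 𝓕, B ⊂ A → v ∉ B := by
  unfold own
  simp only [mem_sdiff, mem_biUnion, mem_filter, id, not_exists, not_and, and_imp]

/-- The own parts are disjoint. -/
theorem own_disjoint {𝓕 : Finset (Finset V)}
    (h : ∀ A ∈ 𝓕, ∀ B ∈ 𝓕, Disjoint A B ∨ A ⊆ B ∨ B ⊆ A) {A B : Finset V} (hA : A ∈ 𝓕)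
    (hB : B ∈ 𝓕) (hne : A ≠ B) : Disjoint (own 𝓕 A) (own 𝓕 B) := by
  rw [Finset.disjoint_left]
  intro v hv hv'
  obtain ⟨h1, h2⟩ := mem_own.1 hv
  obtain ⟨h3, h4⟩ := mem_own.1 hv'
  rcases h A hA B hB with h5 | h5 | h5
  · exact Finset.disjoint_left.1 h5 h1 h3
  · exact h4 A hA (Finset.ssubset_iff_subset_ne.2 ⟨h5, hne⟩) h1
  · exact h2 B hB (Finset.ssubset_iff_subset_ne.2 ⟨h5, hne.symm⟩) h3

/-- Every vertex of a member of the family is in the own part of exactly one member. -/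
theorem exists_own {𝓕 : Finset (Finset V)} {A : Finset V} (hA : A ∈ 𝓕) {v : V} (hv : v ∈ A) :
    ∃ B ∈ 𝓕, B ⊆ A ∧ v ∈ own 𝓕 B := by
  classical
  obtain ⟨B, hB, hmin⟩ := exists_min_image (𝓕.filter fun B => v ∈ B ∧ B ⊆ A)
    (fun B => #B) ⟨A, mem_filter.2 ⟨hA, hv, subset_rfl⟩⟩
  obtain ⟨hB1, hB2, hB3⟩ := mem_filter.1 hB
  refine ⟨B, hB1, hB3, mem_own.2 ⟨hB2, fun C hC hCB hvC => ?_⟩⟩
  have h1 := hmin C (mem_filter.2 ⟨hC, hvC, hCB.1.trans hB3⟩)
  have h2 := card_lt_card hCB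
  omega

/-- **Averaging.**  If the own parts of the members of a laminar family have weight at least `L`
each, then the number of members is at most the total weight divided by `L`. -/
theorem averaging {𝓕 : Finset (Finset V)}
    (h : ∀ A ∈ 𝓕, ∀ B ∈ 𝓕, Disjoint A B ∨ A ⊆ B ∨ B ⊆ A) (w : V → ℕ) {L : ℕ}
    (hw : ∀ A ∈ 𝓕, L ≤ ∑ v ∈ own 𝓕 A, w v) : L * #𝓕 ≤ ∑ v, w v := by
  classical
  calc L * #𝓕 = ∑ A ∈ 𝓕, L := by rw [sum_const, smul_eq_mul, mul_comm]
    _ ≤ ∑ A ∈ 𝓕, ∑ v ∈ own 𝓕 A, w v := sum_le_sum hw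
    _ = ∑ v ∈ 𝓕.biUnion (own 𝓕), w v := by
        rw [sum_biUnion]
        intro A hA B hB hne
        exact own_disjoint h hA hB hne
    _ ≤ ∑ v, w v := sum_le_sum_of_subset (subset_univ _)

end Pool.Agent.Lam392
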