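import Mathlib
import Pool.Agent.Work.MP_392c8e_co_red.GadgetV
import Pool.Agent.Work.MP_392c8e_co_uni.SideStar

/-!
# Leaf places

A cut with three edges `a i`, `b i`.  The side `X` is kept, the other side, the leaf, has a strict
colouring.  Strict colourings of `X` extend to the leaf, without any change on `X`, up to one
exceptional class of the values at the three ends `a i`; and this class is rejected by a gadget
with two vertices, one of them of degree two.
-/

namespace Pool.Agent.Leaf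

open Finset
open Pool.Agent.Red

set_option linter.unusedSectionVars false

/-- Strictly monotone functions with bounds at finitely many points. -/
theorem exists_phi {ι : Type*} [Fintype ι] (U D : ι → Prop) (t x : ι → ℝ)
    (h : ∀ i j, U i → D j → x i ≤ x j → t i < t j) :
    ∃ φ : ℝ → ℝ, StrictMono φ ∧ (∀ i, U i → t i < φ (x i)) ∧ ∀ j, D j → φ (x j) < t j := by
  classical
  -- a small positive number
  obtain ⟨δ, hδ0, hδ1, hδ⟩ : ∃ δ : ℝ, 0 < δ ∧ δ ≤ 1 ∧ ∀ i j, t i < t j → δ ≤ t j - t i := by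
    set S : Finset ℝ := insert 1 ((univ.filter fun p : ι × ι => t p.1 < t p.2).image
      fun p => t p.2 - t p.1) with hS
    have hne : S.Nonempty := ⟨1, mem_insert_self _ _⟩
    refine ⟨S.min' hne, ?_, S.min'_le _ (mem_insert_self _ _), fun i j hij => S.min'_le _ ?_⟩
    · have h1 : S.min' hne ∈ insert (1 : ℝ) ((univ.filter fun p : ι × ι => t p.1 < t p.2).image
          fun p => t p.2 - t p.1) := S.min'_mem hne
      rw [mem_insert, mem_image] at h1
      rcases h1 with h1 | ⟨p, hp, h1⟩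
      · rw [h1]
        exact one_pos
      · rw [← h1]
        exact sub_pos.2 (mem_filter.1 hp).2
    · rw [hS, mem_insert, mem_image]
      exact Or.inr ⟨(i, j), mem_filter.2 ⟨mem_univ _, hij⟩, rfl⟩
  -- a lower bound
  set B : ℝ := - ∑ i, |t i| - 1 with hB
  have hBt : ∀ j, B + 1 ≤ t j := by
    intro j
    have h1 : |t j| ≤ ∑ i, |t i| := single_le_sum (f := fun i => |t i|)
      (fun i _ => abs_nonneg _) (mem_univ j)
    have h2 := neg_abs_le (t j)
    rw [hB]
    linarith
  set Sy : ℝ → Finset ℝ := fun y => insert B ((univ.filter fun i => U i ∧ x i ≤ y).image t)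
    with hSy
  have hne : ∀ y, (Sy y).Nonempty := fun y => ⟨B, mem_insert_self _ _⟩
  set L : ℝ → ℝ := fun y => (Sy y).max' (hne y) with hL
  have hLmono : Monotone L := by
    intro y z hyz
    have hsub : Sy y ⊆ Sy z := by
      intro r hr
      have hr' : r ∈ insert B ((univ.filter fun i => U i ∧ x i ≤ y).image t) := hr
      show r ∈ insert B ((univ.filter fun i => U i ∧ x i ≤ z).image t)
      simp only [mem_insert, mem_image, mem_filter, mem_univ, true_and] at hr' ⊢
      rcases hr' with hr' | ⟨i, ⟨h1, h2⟩, h3⟩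
      · exact Or.inl hr'
      · exact Or.inr ⟨i, ⟨h1, h2.trans hyz⟩, h3⟩
    exact Finset.max'_subset (hne y) hsub
  have hL1 : ∀ i, U i → t i ≤ L (x i) := by
    intro i hi
    have h1 : t i ∈ Sy (x i) :=
      mem_insert_of_mem (mem_image.2 ⟨i, mem_filter.2 ⟨mem_univ _, hi, le_rfl⟩, rfl⟩)
    exact Finset.le_max' _ _ h1
  have hL2 : ∀ y, L y = B ∨ ∃ i, U i ∧ x i ≤ y ∧ L y = t i := by
    intro y
    have h1 : L y ∈ insert B ((univ.filter fun i => U i ∧ x i ≤ y).image t) :=
      (Sy y).max'_mem (hne y)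
    simp only [mem_insert, mem_image, mem_filter, mem_univ, true_and] at h1
    rcases h1 with h1 | ⟨i, ⟨h3, h4⟩, h5⟩
    · exact Or.inl h1
    · exact Or.inr ⟨i, h3, h4, h5.symm⟩
  have hs1 : ∀ y : ℝ, 0 < Real.arctan y / 4 + 1 / 2 := by
    intro y
    have h1 := Real.neg_pi_div_two_lt_arctan y
    have h2 := Real.pi_le_four
    linarith
  have hs2 : ∀ y : ℝ, Real.arctan y / 4 + 1 / 2 < 1 := by
    intro y
    have h1 := Real.arctan_lt_pi_div_two y
    have h2 := Real.pi_le_four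
    linarith
  refine ⟨fun y => L y + δ * (Real.arctan y / 4 + 1 / 2), ?_, ?_, ?_⟩
  · intro y z hyz
    have h1 := hLmono hyz.le
    have h2 := Real.arctan_strictMono hyz
    have h3 : δ * (Real.arctan y / 4 + 1 / 2) < δ * (Real.arctan z / 4 + 1 / 2) :=
      mul_lt_mul_of_pos_left (by linarith) hδ0
    show L y + _ < L z + _
    linarith
  · intro i hi
    have h1 := hL1 i hi
    have h2 := mul_pos hδ0 (hs1 (x i))
    show t i < L (x i) + _
    linarith
  · intro j hj
    have h2 : δ * (Real.arctan (x j) / 4 + 1 / 2) < δ * 1 :=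
      mul_lt_mul_of_pos_left (hs2 (x j)) hδ0
    show L (x j) + _ < t j
    rcases hL2 (x j) with h3 | ⟨i, h3, h4, h5⟩
    · have h6 := hBt j
      rw [h3]
      linarith
    · have h6 := hδ i j (h i j h3 hj h4)
      rw [h5]
      linarith

variable {V : Type} [Fintype V] [DecidableEq V] {G : SimpleGraph V}

/-- **Exact extension.**  The values on `X` are not changed. -/
theorem ext_of_ok {X : V → Prop} {a b : Fin 3 → V} (hc : Cut3 G X a b) {c : V → ZMod 3}
    {τ : V → ℝ} {C : V → ZMod 3} {T : V → ℝ} (hK : Strict (side G fun v => ¬ X v) C T)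
    (hne : ∀ i, C (b i) ≠ c (a i))
    (hcyc : ∀ i j, C (b i) = c (a i) + 1 → c (a j) = C (b j) + 1 → T (b i) ≤ T (b j) →
      τ (a i) < τ (a j)) :
    ∃ c' τ', (∀ v, X v → c' v = c v ∧ τ' v = τ v) ∧
      ∀ u v, G.Adj u v → ¬ X u → Up1 c' τ' u v := by
  classical
  obtain ⟨φ, h1, h2, h3⟩ := exists_phi (fun i => C (b i) = c (a i) + 1)
    (fun j => c (a j) = C (b j) + 1) (fun i => τ (a i)) (fun i => T (b i)) hcyc
  have hcases : ∀ x y : ZMod 3, x ≠ y → x = y + 1 ∨ y = x + 1 := by decide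
  refine ⟨fun v => if X v then c v else C v, fun v => if X v then τ v else φ (T v),
    fun v hv => ⟨if_pos hv, if_pos hv⟩, fun u v huv hu => ?_⟩
  unfold Up1
  by_cases hv : X v
  · obtain ⟨i, rfl, rfl⟩ := hc.cut v u hv hu huv.symm
    simp only [if_pos hv, if_neg hu]
    rcases hcases _ _ (hne i) with h4 | h4
    · exact Or.inr ⟨h4, h2 i h4⟩
    · exact Or.inl ⟨h4, h3 i h4⟩
  · simp only [if_neg hv, if_neg hu]
    rcases hK u v ⟨huv, hu, hv⟩ with ⟨h4, h5⟩ | ⟨h4, h5⟩
    · exact Or.inl ⟨h4, h1 h5⟩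
    · exact Or.inr ⟨h4, h1 h5⟩

/-- The class of the values at three vertices; the Booleans tell the order of the heights. -/
def cls (e01 e02 e12 : Bool) (p0 p1 p2 : ZMod 3) : ZMod 3 × ZMod 3 :=
  match e01, e02, e12 with
  | true, true, true => (p1 - p0, p2 - p0)
  | false, false, true => (p1 - p0 - 1, p2 - p0 - 1)
  | true, false, false => (p1 - p0, p2 - p0 - 1)
  | false, false, false => (p0 - p1, p0 - p2)
  | true, true, false => (p0 - p1 - 1, p0 - p2 - 1)
  | false, true, true => (p0 - p1, p0 - p2 - 1)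
  | true, false, true => (1, 0)
  | false, true, false => (1, 0)

/-- The class of a colouring at three vertices. -/
noncomputable def Cls (c : V → ZMod 3) (τ : V → ℝ) (a : Fin 3 → V) : ZMod 3 × ZMod 3 :=
  cls (decide (τ (a 0) < τ (a 1))) (decide (τ (a 0) < τ (a 2))) (decide (τ (a 1) < τ (a 2)))
    (c (a 0)) (c (a 1)) (c (a 2))

/-- No conflict at the three edges. -/
def okc (e01 e02 e12 f01 f02 f12 : Bool) (p0 p1 p2 r0 r1 r2 : ZMod 3) : Bool :=
  (r0 != p0) && (r1 != p1) && (r2 != p2) &&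
  (!(r0 == p0 + 1 && p1 == r1 + 1 && f01) || e01) &&
  (!(r1 == p1 + 1 && p0 == r0 + 1 && !f01) || !e01) &&
  (!(r0 == p0 + 1 && p2 == r2 + 1 && f02) || e02) &&
  (!(r2 == p2 + 1 && p0 == r0 + 1 && !f02) || !e02) &&
  (!(r1 == p1 + 1 && p2 == r2 + 1 && f12) || e12) &&
  (!(r2 == p2 + 1 && p1 == r1 + 1 && !f12) || !e12)

/-- Some image of the colours `q` with increasing heights has no conflict. -/
def anyOk (e01 e02 e12 : Bool) (p0 p1 p2 q0 q1 q2 x : ZMod 3) : Bool :=
  okc e01 e02 e12 true true true p0 p1 p2 (q0 + x) (q1 + x) (q2 + x) ||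
  okc e01 e02 e12 true false false p0 p1 p2 (q0 + x) (q1 + x) (q2 + 1 + x) ||
  okc e01 e02 e12 false false true p0 p1 p2 (q0 + x) (q1 + 1 + x) (q2 + 1 + x) ||
  okc e01 e02 e12 false false false p0 p1 p2 (-q0 + x) (-q1 + x) (-q2 + x) ||
  okc e01 e02 e12 true true false p0 p1 p2 (-q0 + 1 + x) (-q1 + x) (-q2 + x) ||
  okc e01 e02 e12 false true true p0 p1 p2 (-q0 + 1 + x) (-q1 + 1 + x) (-q2 + x)

/-- The finite check. -/
theorem fin_check : ∀ (e01 e02 e12 : Bool) (p0 p1 p2 q0 q1 q2 : ZMod 3),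
    (e01 = true ∧ e02 = false ∧ e12 = true) ∨ (e01 = false ∧ e02 = true ∧ e12 = false) ∨
    Exc (cls e01 e02 e12 p0 p1 p2).1 (cls e01 e02 e12 p0 p1 p2).2 (q1 - q0) (q2 - q0) ∨
    ∃ x, anyOk e01 e02 e12 p0 p1 p2 q0 q1 q2 x = true := by
  decide +kernel

theorem ext_of_okc {X : V → Prop} {a b : Fin 3 → V} (hc : Cut3 G X a b) {c : V → ZMod 3}
    {τ : V → ℝ} (hτ : ∀ i j, τ (a i) = τ (a j) → i = j) {C : V → ZMod 3} {T : V → ℝ}
    (hK : Strict (side G fun v => ¬ X v) C T) {f01 f02 f12 : Bool}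
    (g01 : if f01 then T (b 0) < T (b 1) else T (b 1) < T (b 0))
    (g02 : if f02 then T (b 0) < T (b 2) else T (b 2) < T (b 0))
    (g12 : if f12 then T (b 1) < T (b 2) else T (b 2) < T (b 1))
    {r0 r1 r2 : ZMod 3} (e0 : C (b 0) = r0) (e1 : C (b 1) = r1) (e2 : C (b 2) = r2)
    (hok : okc (decide (τ (a 0) < τ (a 1))) (decide (τ (a 0) < τ (a 2)))
      (decide (τ (a 1) < τ (a 2))) f01 f02 f12 (c (a 0)) (c (a 1)) (c (a 2)) r0 r1 r2 = true) :
    ∃ c' τ', (∀ v, X v → c' v = c v ∧ τ' v = τ v) ∧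
      ∀ u v, G.Adj u v → ¬ X u → Up1 c' τ' u v := by
  have hne : ∀ i j, i ≠ j → τ (a i) ≠ τ (a j) := fun i j hij h => hij (hτ i j h)
  simp only [okc, Bool.and_eq_true, Bool.or_eq_true, Bool.not_eq_true', Bool.and_eq_false_iff,
    bne_iff_ne, beq_eq_false_iff_ne, decide_eq_true_eq, decide_eq_false_iff_not, not_lt,
    Bool.not_eq_false'] at hok
  obtain ⟨⟨⟨⟨⟨⟨⟨⟨n0, n1⟩, n2⟩, q01⟩, q10⟩, q02⟩, q20⟩, q12⟩, q21⟩ := hok
  subst e0 e1 e2
  have hself : ∀ p q : ZMod 3, p = q + 1 → q = p + 1 → False := by decide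
  refine ext_of_ok hc hK ?_ ?_
  · intro i
    fin_cases i
    · exact n0
    · exact n1
    · exact n2
  · have low : ∀ {f : Bool} {x y s t : ℝ} {A B : Prop}, (if f then x < y else y < x) →
        x ≤ y → A → B → (((¬ A ∨ ¬ B) ∨ f = false) ∨ s < t) → s < t := by
      intro f x y s t A B h1 h2 hA hB h3
      rcases h3 with ((h3 | h3) | h3) | h3
      · exact absurd hA h3
      · exact absurd hB h3
      · rw [h3] at h1
        exact absurd h1 (not_lt.2 h2)
      · exact h3
    have up : ∀ {f : Bool} {x y s t : ℝ} {A B : Prop}, (if f then x < y else y < x) →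
        y ≤ x → t ≠ s → A → B → (((¬ A ∨ ¬ B) ∨ f = true) ∨ t ≤ s) → t < s := by
      intro f x y s t A B h1 h2 hts hA hB h3
      rcases h3 with ((h3 | h3) | h3) | h3
      · exact absurd hA h3
      · exact absurd hB h3
      · rw [h3] at h1
        exact absurd h1 (not_lt.2 h2)
      · exact lt_of_le_of_ne h3 hts
    intro i j h1 h2 h3
    fin_cases i <;> fin_cases j
    · exact (hself _ _ h1 h2).elim
    · exact low g01 h3 h1 h2 q01
    · exact low g02 h3 h1 h2 q02
    · exact up g01 h3 (hne 1 0 (by decide)) h1 h2 q10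
    · exact (hself _ _ h1 h2).elim
    · exact low g12 h3 h1 h2 q12
    · exact up g02 h3 (hne 2 0 (by decide)) h1 h2 q20
    · exact up g12 h3 (hne 2 1 (by decide)) h1 h2 q21
    · exact (hself _ _ h1 h2).elim

/-- **The core.**  A leaf with increasing heights at the ends accepts all values at the kept side,
except for one class. -/
theorem leaf_core {X : V → Prop} {a b : Fin 3 → V} (hc : Cut3 G X a b) {c : V → ZMod 3}
    {τ : V → ℝ} (hτ : ∀ i j, τ (a i) = τ (a j) → i = j) {C : V → ZMod 3} {T : V → ℝ}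
    (hK : Strict (side G fun v => ¬ X v) C T) (l1 : T (b 0) < T (b 1)) (l2 : T (b 1) < T (b 2))
    (hE : ¬ Exc (Cls c τ a).1 (Cls c τ a).2 (C (b 1) - C (b 0)) (C (b 2) - C (b 0))) :
    ∃ c' τ', (∀ v, X v → c' v = c v ∧ τ' v = τ v) ∧
      ∀ u v, G.Adj u v → ¬ X u → Up1 c' τ' u v := by
  have hne : ∀ i j, i ≠ j → τ (a i) ≠ τ (a j) := fun i j hij h => hij (hτ i j h)
  rcases fin_check (decide (τ (a 0) < τ (a 1))) (decide (τ (a 0) < τ (a 2)))
      (decide (τ (a 1) < τ (a 2))) (c (a 0)) (c (a 1)) (c (a 2)) (C (b 0)) (C (b 1)) (C (b 2))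
    with h | h | h | ⟨x, h⟩
  · simp only [decide_eq_true_eq, decide_eq_false_iff_not, not_lt] at h
    obtain ⟨h1, h2, h3⟩ := h
    linarith
  · simp only [decide_eq_true_eq, decide_eq_false_iff_not, not_lt] at h
    obtain ⟨h1, h2, h3⟩ := h
    linarith
  · exact absurd h hE
  · unfold anyOk at h
    simp only [Bool.or_eq_true] at h
    -- the images of the colouring of the leaf
    obtain ⟨C1, T1, k1, m1, m2, m3, m4, m5⟩ := hK.rot3 (x := b 0) (y := b 1) (z := b 2) l1 l2
    obtain ⟨C2, T2, k2, n1, n2, n3, n4, n5⟩ := k1.rot3 (x := b 2) (y := b 0) (z := b 1) m1 m2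
    obtain ⟨C4, T4, k4, o1, o2, o3, o4, o5⟩ := hK.neg.rot3 (x := b 2) (y := b 1) (z := b 0)
      (neg_lt_neg l2) (neg_lt_neg l1)
    obtain ⟨C5, T5, k5, r1, r2, r3, r4, r5⟩ := k4.rot3 (x := b 0) (y := b 2) (z := b 1) o1 o2
    rcases h with ((((h | h) | h) | h) | h) | h
    · exact ext_of_okc hc hτ (hK.addc x) (f01 := true) (f02 := true) (f12 := true)
        l1 (l1.trans l2) l2 rfl rfl rfl h
    · refine ext_of_okc hc hτ (k1.addc x) (f01 := true) (f02 := false) (f12 := false)
        m2 m1 (m1.trans m2) ?_ ?_ ?_ h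
      · show C1 (b 0) + x = _
        rw [m3]
      · show C1 (b 1) + x = _
        rw [m4]
      · show C1 (b 2) + x = _
        rw [m5]
    · refine ext_of_okc hc hτ (k2.addc x) (f01 := false) (f02 := false) (f12 := true)
        (n1.trans n2) n2 n1 ?_ ?_ ?_ h
      · show C2 (b 0) + x = _
        rw [n4, m3]
      · show C2 (b 1) + x = _
        rw [n5, m4]
      · show C2 (b 2) + x = _
        rw [n3, m5]
    · exact ext_of_okc hc hτ (hK.neg.addc x) (f01 := false) (f02 := false) (f12 := false)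
        (neg_lt_neg l1) (neg_lt_neg (l1.trans l2)) (neg_lt_neg l2) rfl rfl rfl h
    · refine ext_of_okc hc hτ (k4.addc x) (f01 := true) (f02 := true) (f12 := false)
        (o1.trans o2) o1 o2 ?_ ?_ ?_ h
      · show C4 (b 0) + x = _
        rw [o5]
      · show C4 (b 1) + x = _
        rw [o4]
      · show C4 (b 2) + x = _
        rw [o3]
    · refine ext_of_okc hc hτ (k5.addc x) (f01 := false) (f02 := true) (f12 := true)
        r1 r2 (r1.trans r2) ?_ ?_ ?_ h
      · show C5 (b 0) + x = _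
        rw [r3, o5]
      · show C5 (b 1) + x = _
        rw [r5, o4]
      · show C5 (b 2) + x = _
        rw [r4, o3]

end Pool.Agent.Leaf
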