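import Mathlib
import Pool.Agent.Work.MP_392c8e_co_uni.Leaf

/-!
# Leaf places: the gadgets

The gadget `V i` consists of a vertex `z` joined to the two ends `a j`, `a k` and a vertex `u` of
degree two joined to `z` and `a i`.  Each of the six exceptional classes is rejected by a gadget.
-/

namespace Pool.Agent.Leaf

open Finset
open Pool.Agent.Red
open Pool.Agent.CutN (ConnF CutK pl_starK)

set_option linter.unusedSectionVars false

/-- The colours of an edge; `o` tells that the first end is the lower one. -/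
def upc (o : Bool) (x y : ZMod 3) : Bool := if o then y == x + 1 else x == y + 1

/-- The conditions of the gadget. -/
def gcond (ejk eji eki : Bool) (pj pk pi z u : ZMod 3) (o1 o2 o3 o4 : Bool) : Bool :=
  upc o1 pj z && upc o2 pk z && upc o3 z u && upc o4 u pi &&
  (!(o1 && !o2) || ejk) && (!(!o1 && o2) || !ejk) &&
  (!(o1 && o3 && o4) || eji) && (!(!o1 && !o3 && !o4) || !eji) &&
  (!(o2 && o3 && o4) || eki) && (!(!o2 && !o3 && !o4) || !eki)

/-- The order is impossible. -/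
def bado (e01 e02 e12 : Bool) : Bool := (e01 && !e02 && e12) || (!e01 && e02 && !e12)

theorem rej0 : ∀ (e01 e02 e12 : Bool) (p0 p1 p2 z u : ZMod 3) (o1 o2 o3 o4 : Bool),
    (bado e01 e02 e12 || !gcond e12 (!e01) (!e02) p1 p2 p0 z u o1 o2 o3 o4 ||
      (cls e01 e02 e12 p0 p1 p2 != (0, 2) && cls e01 e02 e12 p0 p1 p2 != (0, 1) &&
        cls e01 e02 e12 p0 p1 p2 != (1, 2))) = true := by
  decide +kernel

theorem rej1 : ∀ (e01 e02 e12 : Bool) (p0 p1 p2 z u : ZMod 3) (o1 o2 o3 o4 : Bool),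
    (bado e01 e02 e12 || !gcond e02 e01 (!e12) p0 p2 p1 z u o1 o2 o3 o4 ||
      (cls e01 e02 e12 p0 p1 p2 != (0, 0) && cls e01 e02 e12 p0 p1 p2 != (0, 1) &&
        cls e01 e02 e12 p0 p1 p2 != (1, 1))) = true := by
  decide +kernel

theorem rej2 : ∀ (e01 e02 e12 : Bool) (p0 p1 p2 z u : ZMod 3) (o1 o2 o3 o4 : Bool),
    (bado e01 e02 e12 || !gcond e01 e02 e12 p0 p1 p2 z u o1 o2 o3 o4 ||
      (cls e01 e02 e12 p0 p1 p2 != (2, 2) && cls e01 e02 e12 p0 p1 p2 != (1, 2) &&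
        cls e01 e02 e12 p0 p1 p2 != (1, 1))) = true := by
  decide +kernel

theorem rejA : ∀ (e01 e02 e12 : Bool) (p0 p1 p2 : ZMod 3),
    (bado e01 e02 e12 ||
      ((!upc e01 p0 p1 || cls e01 e02 e12 p0 p1 p2 != (2, 2)) &&
       (!upc e02 p0 p2 || cls e01 e02 e12 p0 p1 p2 != (0, 0)) &&
       (!upc e12 p1 p2 || cls e01 e02 e12 p0 p1 p2 != (0, 2)))) = true := by
  decide +kernel

/-- The leaf classes and the gadgets. -/
theorem exc_cases : ∀ r r' : ZMod 3,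
    (∀ x : ZMod 3 × ZMod 3, ¬ Exc x.1 x.2 r r') ∨
    (∀ x : ZMod 3 × ZMod 3, Exc x.1 x.2 r r' → x = (0, 0)) ∨
    (∀ x : ZMod 3 × ZMod 3, Exc x.1 x.2 r r' → x = (2, 2)) ∨
    (∀ x : ZMod 3 × ZMod 3, Exc x.1 x.2 r r' → x = (0, 2)) ∨
    (∀ x : ZMod 3 × ZMod 3, Exc x.1 x.2 r r' → x = (1, 2)) ∨
    (∀ x : ZMod 3 × ZMod 3, Exc x.1 x.2 r r' → x = (1, 1)) ∨
    (∀ x : ZMod 3 × ZMod 3, Exc x.1 x.2 r r' → x = (0, 1)) := by
  decide

variable {V : Type} [Fintype V] [DecidableEq V] {G : SimpleGraph V}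

theorem exists_o {c : V → ZMod 3} {τ : V → ℝ} {x y : V} (h : Up1 c τ x y) :
    ∃ o : Bool, upc o (c x) (c y) = true ∧ (o = true → τ x < τ y) ∧ (o = false → τ y < τ x) := by
  rcases h with ⟨h1, h2⟩ | ⟨h1, h2⟩
  · exact ⟨true, by simp [upc, h1], fun _ => h2, fun h3 => absurd h3 (by decide)⟩
  · exact ⟨false, by simp [upc, h1], fun h3 => absurd h3 (by decide), fun _ => h2⟩

theorem gcond_of {c : V → ZMod 3} {τ : V → ℝ} {q r p z u : V} (h1 : Up1 c τ q z)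
    (h2 : Up1 c τ r z) (h3 : Up1 c τ z u) (h4 : Up1 c τ u p) :
    ∃ o1 o2 o3 o4, gcond (decide (τ q < τ r)) (decide (τ q < τ p)) (decide (τ r < τ p))
      (c q) (c r) (c p) (c z) (c u) o1 o2 o3 o4 = true := by
  obtain ⟨o1, a1, b1, d1⟩ := exists_o h1
  obtain ⟨o2, a2, b2, d2⟩ := exists_o h2
  obtain ⟨o3, a3, b3, d3⟩ := exists_o h3
  obtain ⟨o4, a4, b4, d4⟩ := exists_o h4
  refine ⟨o1, o2, o3, o4, ?_⟩
  unfold gcond
  rw [a1, a2, a3, a4]
  have w1 : ∀ {x y : ℝ}, x < y → decide (x < y) = true := fun h => decide_eq_true h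
  have w2 : ∀ {x y : ℝ}, y < x → decide (x < y) = false := fun h => decide_eq_false h.not_gt
  have k1 : (!(o1 && !o2) || decide (τ q < τ r)) = true := by
    cases o1 <;> cases o2 <;> try rfl
    exact w1 ((b1 rfl).trans (d2 rfl))
  have k2 : (!(!o1 && o2) || !decide (τ q < τ r)) = true := by
    cases o1 <;> cases o2 <;> try rfl
    rw [w2 ((b2 rfl).trans (d1 rfl))]
    rfl
  have k3 : (!(o1 && o3 && o4) || decide (τ q < τ p)) = true := by
    cases o1 <;> cases o3 <;> cases o4 <;> try rfl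
    exact w1 (((b1 rfl).trans (b3 rfl)).trans (b4 rfl))
  have k4 : (!(!o1 && !o3 && !o4) || !decide (τ q < τ p)) = true := by
    cases o1 <;> cases o3 <;> cases o4 <;> try rfl
    rw [w2 (((d4 rfl).trans (d3 rfl)).trans (d1 rfl))]
    rfl
  have k5 : (!(o2 && o3 && o4) || decide (τ r < τ p)) = true := by
    cases o2 <;> cases o3 <;> cases o4 <;> try rfl
    exact w1 (((b2 rfl).trans (b3 rfl)).trans (b4 rfl))
  have k6 : (!(!o2 && !o3 && !o4) || !decide (τ r < τ p)) = true := by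
    cases o2 <;> cases o3 <;> cases o4 <;> try rfl
    rw [w2 (((d4 rfl).trans (d3 rfl)).trans (d2 rfl))]
    rfl
  rw [k1, k2, k3, k4, k5, k6]
  rfl

theorem flip {x y : ℝ} (h : x ≠ y) : decide (y < x) = !decide (x < y) := by
  rcases lt_or_gt_of_ne h with h1 | h1
  · rw [decide_eq_true h1, decide_eq_false h1.not_gt]
    rfl
  · rw [decide_eq_true h1, decide_eq_false h1.not_gt]
    rfl

theorem not_bado {x y z : ℝ} : bado (decide (x < y)) (decide (x < z)) (decide (y < z)) = false := by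
  by_contra h
  rw [Bool.not_eq_false] at h
  unfold bado at h
  simp only [Bool.or_eq_true, Bool.and_eq_true, Bool.not_eq_true', decide_eq_true_eq,
    decide_eq_false_iff_not, not_lt] at h
  rcases h with ⟨⟨h1, h2⟩, h3⟩ | ⟨⟨h1, h2⟩, h3⟩ <;> linarith

/-- What is rejected by the gadget `V 0`. -/
theorem rejV0 {c : V → ZMod 3} {τ : V → ℝ} {a : Fin 3 → V} {z u : V}
    (hτ : ∀ i j, τ (a i) = τ (a j) → i = j) (h1 : Up1 c τ (a 1) z) (h2 : Up1 c τ (a 2) z)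
    (h3 : Up1 c τ z u) (h4 : Up1 c τ u (a 0)) :
    Cls c τ a ≠ (0, 2) ∧ Cls c τ a ≠ (0, 1) ∧ Cls c τ a ≠ (1, 2) := by
  obtain ⟨o1, o2, o3, o4, h⟩ := gcond_of h1 h2 h3 h4
  have hne : ∀ i j, i ≠ j → τ (a i) ≠ τ (a j) := fun i j hij h => hij (hτ i j h)
  have h5 := rej0 (decide (τ (a 0) < τ (a 1))) (decide (τ (a 0) < τ (a 2)))
    (decide (τ (a 1) < τ (a 2))) (c (a 0)) (c (a 1)) (c (a 2)) (c z) (c u) o1 o2 o3 o4
  rw [← flip (hne 0 1 (by decide)), ← flip (hne 0 2 (by decide)), h, not_bado] at h5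
  simp only [Bool.false_or, Bool.not_true, Bool.and_eq_true, bne_iff_ne] at h5
  exact ⟨h5.1.1, h5.1.2, h5.2⟩

/-- What is rejected by the gadget `V 1`. -/
theorem rejV1 {c : V → ZMod 3} {τ : V → ℝ} {a : Fin 3 → V} {z u : V}
    (hτ : ∀ i j, τ (a i) = τ (a j) → i = j) (h1 : Up1 c τ (a 0) z) (h2 : Up1 c τ (a 2) z)
    (h3 : Up1 c τ z u) (h4 : Up1 c τ u (a 1)) :
    Cls c τ a ≠ (0, 0) ∧ Cls c τ a ≠ (0, 1) ∧ Cls c τ a ≠ (1, 1) := by
  obtain ⟨o1, o2, o3, o4, h⟩ := gcond_of h1 h2 h3 h4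
  have hne : ∀ i j, i ≠ j → τ (a i) ≠ τ (a j) := fun i j hij h => hij (hτ i j h)
  have h5 := rej1 (decide (τ (a 0) < τ (a 1))) (decide (τ (a 0) < τ (a 2)))
    (decide (τ (a 1) < τ (a 2))) (c (a 0)) (c (a 1)) (c (a 2)) (c z) (c u) o1 o2 o3 o4
  rw [← flip (hne 1 2 (by decide)), h, not_bado] at h5
  simp only [Bool.false_or, Bool.not_true, Bool.and_eq_true, bne_iff_ne] at h5
  exact ⟨h5.1.1, h5.1.2, h5.2⟩

/-- What is rejected by the gadget `V 2`. -/
theorem rejV2 {c : V → ZMod 3} {τ : V → ℝ} {a : Fin 3 → V} {z u : V}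
    (h1 : Up1 c τ (a 0) z) (h2 : Up1 c τ (a 1) z)
    (h3 : Up1 c τ z u) (h4 : Up1 c τ u (a 2)) :
    Cls c τ a ≠ (2, 2) ∧ Cls c τ a ≠ (1, 2) ∧ Cls c τ a ≠ (1, 1) := by
  obtain ⟨o1, o2, o3, o4, h⟩ := gcond_of h1 h2 h3 h4
  have h5 := rej2 (decide (τ (a 0) < τ (a 1))) (decide (τ (a 0) < τ (a 2)))
    (decide (τ (a 1) < τ (a 2))) (c (a 0)) (c (a 1)) (c (a 2)) (c z) (c u) o1 o2 o3 o4
  rw [h, not_bado] at h5
  simp only [Bool.false_or, Bool.not_true, Bool.and_eq_true, bne_iff_ne] at h5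
  exact ⟨h5.1.1, h5.1.2, h5.2⟩

theorem upc_of {c : V → ZMod 3} {τ : V → ℝ} {x y : V} (h : Up1 c τ x y) :
    upc (decide (τ x < τ y)) (c x) (c y) = true := by
  rcases h with ⟨h1, h2⟩ | ⟨h1, h2⟩
  · rw [decide_eq_true h2]
    simp [upc, h1]
  · rw [decide_eq_false h2.not_gt]
    simp [upc, h1]

/-- Adjacent ends exclude a class. -/
theorem rejAdj {c : V → ZMod 3} {τ : V → ℝ} {a : Fin 3 → V} :
    (Up1 c τ (a 0) (a 1) → Cls c τ a ≠ (2, 2)) ∧ (Up1 c τ (a 0) (a 2) → Cls c τ a ≠ (0, 0)) ∧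
      (Up1 c τ (a 1) (a 2) → Cls c τ a ≠ (0, 2)) := by
  have h5 := rejA (decide (τ (a 0) < τ (a 1))) (decide (τ (a 0) < τ (a 2)))
    (decide (τ (a 1) < τ (a 2))) (c (a 0)) (c (a 1)) (c (a 2))
  rw [not_bado] at h5
  simp only [Bool.false_or, Bool.and_eq_true, Bool.or_eq_true, Bool.not_eq_true',
    bne_iff_ne] at h5
  obtain ⟨⟨h6, h7⟩, h8⟩ := h5
  refine ⟨fun h => ?_, fun h => ?_, fun h => ?_⟩
  · rcases h6 with h6 | h6
    · rw [upc_of h] at h6
      exact absurd h6 (by decide)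
    · exact h6
  · rcases h7 with h6 | h6
    · rw [upc_of h] at h6
      exact absurd h6 (by decide)
    · exact h6
  · rcases h8 with h6 | h6
    · rw [upc_of h] at h6
      exact absurd h6 (by decide)
    · exact h6

/-- The values of `c`, `τ` on the kept side extend to the leaf. -/
def Good (G : SimpleGraph V) (X : V → Prop) (c : V → ZMod 3) (τ : V → ℝ) : Prop :=
  ∃ c' τ', (∀ v, X v → c' v = c v ∧ τ' v = τ v) ∧ ∀ u v, G.Adj u v → ¬ X u → Up1 c' τ' u v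

/-- **Leaf places.**  Either all values extend, or the values allowed by a legal gadget do. -/
theorem leaf_place {X : V → Prop} {a b : Fin 3 → V} (hc : Cut3 G X a b)
    (hK : StrictCol (side G fun v => ¬ X v))
    (hpath : ∀ i j k, i ≠ j → i ≠ k → j ≠ k → ¬ (G.Adj (a i) (a j) ∧ G.Adj (a i) (a k))) :
    (∀ c τ, (∀ i j, τ (a i) = τ (a j) → i = j) →
      (∀ i j, G.Adj (a i) (a j) → Up1 c τ (a i) (a j)) → Good G X c τ) ∨
    ∃ i j k : Fin 3, i ≠ j ∧ i ≠ k ∧ j ≠ k ∧ ¬ G.Adj (a j) (a k) ∧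
      ∀ c τ z u, (∀ i j, τ (a i) = τ (a j) → i = j) →
        Up1 c τ (a j) z → Up1 c τ (a k) z → Up1 c τ z u → Up1 c τ u (a i) → Good G X c τ := by
  obtain ⟨C, T, hC, l1, l2⟩ := normal3 hK
    (x := b 0) (y := b 1) (z := b 2) (fun h5 => absurd (hc.ib h5) (by decide))
    (fun h5 => absurd (hc.ib h5) (by decide)) (fun h5 => absurd (hc.ib h5) (by decide))
  have core : ∀ c τ, (∀ i j, τ (a i) = τ (a j) → i = j) →
      ¬ Exc (Cls c τ a).1 (Cls c τ a).2 (C (b 1) - C (b 0)) (C (b 2) - C (b 0)) →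
      Good G X c τ := fun c τ hτ hE => leaf_core hc hτ hC l1 l2 hE
  rcases exc_cases (C (b 1) - C (b 0)) (C (b 2) - C (b 0)) with h | h | h | h | h | h | h
  · exact Or.inl fun c τ hτ _ => core c τ hτ (h _)
  · -- the class `(0, 0)`
    by_cases hadj : G.Adj (a 0) (a 2)
    · exact Or.inl fun c τ hτ ha => core c τ hτ fun hE => rejAdj.2.1 (ha 0 2 hadj) (h _ hE)
    · refine Or.inr ⟨1, 0, 2, by decide, by decide, by decide, hadj, ?_⟩
      intro c τ z u hτ h1 h2 h3 h4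
      exact core c τ hτ fun hE => (rejV1 hτ h1 h2 h3 h4).1 (h _ hE)
  · -- the class `(2, 2)`
    by_cases hadj : G.Adj (a 0) (a 1)
    · exact Or.inl fun c τ hτ ha => core c τ hτ fun hE => rejAdj.1 (ha 0 1 hadj) (h _ hE)
    · refine Or.inr ⟨2, 0, 1, by decide, by decide, by decide, hadj, ?_⟩
      intro c τ z u hτ h1 h2 h3 h4
      exact core c τ hτ fun hE => (rejV2 h1 h2 h3 h4).1 (h _ hE)
  · -- the class `(0, 2)`
    by_cases hadj : G.Adj (a 1) (a 2)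
    · exact Or.inl fun c τ hτ ha => core c τ hτ fun hE => rejAdj.2.2 (ha 1 2 hadj) (h _ hE)
    · refine Or.inr ⟨0, 1, 2, by decide, by decide, by decide, hadj, ?_⟩
      intro c τ z u hτ h1 h2 h3 h4
      exact core c τ hτ fun hE => (rejV0 hτ h1 h2 h3 h4).1 (h _ hE)
  · -- the class `(1, 2)`
    by_cases hadj : G.Adj (a 1) (a 2)
    · have hadj' : ¬ G.Adj (a 0) (a 1) := fun h6 =>
        hpath 1 0 2 (by decide) (by decide) (by decide) ⟨h6.symm, hadj⟩
      refine Or.inr ⟨2, 0, 1, by decide, by decide, by decide, hadj', ?_⟩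
      intro c τ z u hτ h1 h2 h3 h4
      exact core c τ hτ fun hE => (rejV2 h1 h2 h3 h4).2.1 (h _ hE)
    · refine Or.inr ⟨0, 1, 2, by decide, by decide, by decide, hadj, ?_⟩
      intro c τ z u hτ h1 h2 h3 h4
      exact core c τ hτ fun hE => (rejV0 hτ h1 h2 h3 h4).2.2 (h _ hE)
  · -- the class `(1, 1)`
    by_cases hadj : G.Adj (a 0) (a 2)
    · have hadj' : ¬ G.Adj (a 0) (a 1) := fun h6 =>
        hpath 0 1 2 (by decide) (by decide) (by decide) ⟨h6, hadj⟩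
      refine Or.inr ⟨2, 0, 1, by decide, by decide, by decide, hadj', ?_⟩
      intro c τ z u hτ h1 h2 h3 h4
      exact core c τ hτ fun hE => (rejV2 h1 h2 h3 h4).2.2 (h _ hE)
    · refine Or.inr ⟨1, 0, 2, by decide, by decide, by decide, hadj, ?_⟩
      intro c τ z u hτ h1 h2 h3 h4
      exact core c τ hτ fun hE => (rejV1 hτ h1 h2 h3 h4).2.2 (h _ hE)
  · -- the class `(0, 1)`
    by_cases hadj : G.Adj (a 1) (a 2)
    · have hadj' : ¬ G.Adj (a 0) (a 2) := fun h6 =>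
        hpath 2 0 1 (by decide) (by decide) (by decide) ⟨h6.symm, hadj.symm⟩
      refine Or.inr ⟨1, 0, 2, by decide, by decide, by decide, hadj', ?_⟩
      intro c τ z u hτ h1 h2 h3 h4
      exact core c τ hτ fun hE => (rejV1 hτ h1 h2 h3 h4).2.1 (h _ hE)
    · refine Or.inr ⟨0, 1, 2, by decide, by decide, by decide, hadj, ?_⟩
      intro c τ z u hτ h1 h2 h3 h4
      exact core c τ hτ fun hE => (rejV0 hτ h1 h2 h3 h4).2.1 (h _ hE)

end Pool.Agent.Leaf
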