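import Mathlib
import Pool.Agent.Work.MP_392c8e_co_uni.LeafGad

/-!
# Leaf places: the graph after the replacement

The leaf is replaced by nothing (`side G X`) or by a gadget with the two vertices `b 0` (of degree
three) and `b 1` (of degree two).  The graph remains planar, triangle-free and subcubic, and
strict colourings extend without any change on the kept side.
-/

namespace Pool.Agent.Leaf

open Finset
open Pool.Agent.Red
open Pool.Agent.CutN (ConnF CutK pl_starK starK)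

set_option linter.unusedSectionVars false

variable {V : Type} [Fintype V] [DecidableEq V] {G : SimpleGraph V} {X : V → Prop}
  {a b : Fin 3 → V}

theorem ne10 (hc : Cut3 G X a b) : b 1 ≠ b 0 := fun h => absurd (hc.ib h) (by decide)

/-- The graph with the leaf replaced by the gadget `V i`. -/
def gad (hc : Cut3 G X a b) (i : Fin 3) : SimpleGraph V :=
  gadG G X a (b 0) (b 1) hc.hX (hc.hY 0) (hc.hY 1) (ne10 hc) i

theorem gad_in (hc : Cut3 G X a b) (i : Fin 3) {x y : V} (hx : X x) (hy : X y) :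
    (gad hc i).Adj x y ↔ G.Adj x y := gadG_in hc.hX (hc.hY 0) (hc.hY 1) (ne10 hc) i hx hy

theorem gad_z (hc : Cut3 G X a b) (i : Fin 3) {x : V} :
    (gad hc i).Adj x (b 0) ↔ (∃ l, l ≠ i ∧ x = a l) ∨ x = b 1 :=
  gadG_z hc.hX (hc.hY 0) (hc.hY 1) (ne10 hc) i hc.ia

theorem gad_u (hc : Cut3 G X a b) (i : Fin 3) {x : V} :
    (gad hc i).Adj x (b 1) ↔ x = a i ∨ x = b 0 :=
  gadG_u hc.hX (hc.hY 0) (hc.hY 1) (ne10 hc) i

theorem gad_out (hc : Cut3 G X a b) (i : Fin 3) {x y : V} (h : (gad hc i).Adj x y) :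
    X x ∨ x = b 0 ∨ x = b 1 := gadG_out hc.hX (hc.hY 0) (hc.hY 1) (ne10 hc) i h

/-- Planarity. -/
theorem pl_gad (hc : Cut3 G X a b) (hpl : Pl G) (hcon : ConnF G X) (i : Fin 3) :
    Pl (gad hc i) := by
  have h1 : Pl (starG G X a (b 0) hc.hX (hc.hY 0)) :=
    pl_starK hpl ⟨hc.hX, hc.hY, hc.adj, hc.ia, hc.ib, hc.cut⟩ hcon (b 0) (hc.hY 0)
  refine h1.subdiv (a := a i) (b := b 0) (u := b 1) (Or.inr ⟨i, Or.inl ⟨rfl, rfl⟩⟩)
    ?_ (fun x y => Iff.rfl)
  rintro v (⟨-, h5, -⟩ | ⟨l, ⟨h5, -⟩ | ⟨h5, -⟩⟩)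
  · exact hc.hY 1 h5
  · exact hc.hY 1 (h5 ▸ hc.hX l)
  · exact ne10 hc h5

/-- No triangles. -/
theorem tri_gad (hc : Cut3 G X a b) (ht : G.CliqueFree 3) {i j k : Fin 3} (hij : i ≠ j)
    (hik : i ≠ k) (hjk : j ≠ k) (hna : ¬ G.Adj (a j) (a k)) : (gad hc i).CliqueFree 3 := by
  have hall0 : ∀ i j k : Fin 3, i ≠ j → i ≠ k → j ≠ k → ∀ l : Fin 3, l ≠ i → l = j ∨ l = k := by
    decide
  have hall' := hall0 i j k hij hik hjk
  intro s hs
  rw [SimpleGraph.is3Clique_iff] at hs
  obtain ⟨x, y, w, hxy, hxw, hyw, -⟩ := hs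
  have tu : ∀ {x y : V}, (gad hc i).Adj x (b 1) → (gad hc i).Adj y (b 1) →
      (gad hc i).Adj x y → False := by
    intro x y h1 h2 h3
    rcases (gad_u hc i).1 h1 with rfl | rfl <;> rcases (gad_u hc i).1 h2 with rfl | rfl
    · exact h3.ne rfl
    · rcases (gad_z hc i).1 h3 with ⟨l, h5, h6⟩ | h6
      · exact h5 (hc.ia h6).symm
      · exact hc.hY 1 (h6 ▸ hc.hX i)
    · rcases (gad_z hc i).1 h3.symm with ⟨l, h5, h6⟩ | h6
      · exact h5 (hc.ia h6).symm
      · exact hc.hY 1 (h6 ▸ hc.hX i)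
    · exact h3.ne rfl
  have tz : ∀ {x y : V}, (gad hc i).Adj x (b 0) → (gad hc i).Adj y (b 0) →
      (gad hc i).Adj x y → False := by
    intro x y h1 h2 h3
    rcases (gad_z hc i).1 h1 with ⟨l, h5, rfl⟩ | rfl
    · rcases (gad_z hc i).1 h2 with ⟨m, h6, rfl⟩ | rfl
      · have h7 := (gad_in hc i (hc.hX l) (hc.hX m)).1 h3
        rcases hall' l h5 with rfl | rfl <;> rcases hall' m h6 with rfl | rfl
        · exact h7.ne rfl
        · exact hna h7
        · exact hna h7.symm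
        · exact h7.ne rfl
      · exact tu h3 h2.symm h1
    · exact tu h3.symm h1.symm h2
  rcases gad_out hc i hxy with h1 | rfl | rfl
  · rcases gad_out hc i hxy.symm with h2 | rfl | rfl
    · rcases gad_out hc i hyw.symm with h3 | rfl | rfl
      · refine ht {x, y, w} ?_
        rw [SimpleGraph.is3Clique_iff]
        exact ⟨x, y, w, (gad_in hc i h1 h2).1 hxy, (gad_in hc i h1 h3).1 hxw,
          (gad_in hc i h2 h3).1 hyw, rfl⟩
      · exact tz hxw hyw hxy
      · exact tu hxw hyw hxy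
    · exact tz hxy hyw.symm hxw
    · exact tu hxy hyw.symm hxw
  · exact tz hxy.symm hxw.symm hyw
  · exact tu hxy.symm hxw.symm hyw

/-- The new vertex of degree two. -/
theorem deg_gad_u (hc : Cut3 G X a b) (i : Fin 3) :
    ((gad hc i).neighborSet (b 1)).ncard = 2 := by
  have h1 : (gad hc i).neighborSet (b 1) = {a i, b 0} := by
    ext y
    exact ⟨fun hy => (gad_u hc i).1 (show (gad hc i).Adj (b 1) y from hy).symm,
      fun hy => ((gad_u hc i).2 hy).symm⟩
  have h2 : a i ≠ b 0 := fun h => hc.hY 0 (h ▸ hc.hX i)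
  rw [h1, Set.ncard_pair h2]

/-- The new vertex of degree three. -/
theorem deg_gad_z (hc : Cut3 G X a b) (i : Fin 3) :
    ((gad hc i).neighborSet (b 0)).ncard = 3 := by
  obtain ⟨j, k, hij, hik, hjk, hall⟩ : ∃ j k : Fin 3, i ≠ j ∧ i ≠ k ∧ j ≠ k ∧
      ∀ l : Fin 3, l ≠ i ↔ (l = j ∨ l = k) := by
    revert i
    decide
  have h1 : (gad hc i).neighborSet (b 0) = {a j, a k, b 1} := by
    ext y
    constructor
    · intro hy
      rcases (gad_z hc i).1 (show (gad hc i).Adj (b 0) y from hy).symm with ⟨l, h5, rfl⟩ | rfl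
      · rcases (hall l).1 h5 with rfl | rfl
        · exact Or.inl rfl
        · exact Or.inr (Or.inl rfl)
      · exact Or.inr (Or.inr rfl)
    · rintro (rfl | rfl | rfl)
      · exact ((gad_z hc i).2 (Or.inl ⟨j, hij.symm, rfl⟩)).symm
      · exact ((gad_z hc i).2 (Or.inl ⟨k, hik.symm, rfl⟩)).symm
      · exact ((gad_z hc i).2 (Or.inr rfl)).symm
  have h2 : a k ≠ b 1 := fun h => hc.hY 1 (h ▸ hc.hX k)
  rw [h1, Set.ncard_insert_of_notMem, Set.ncard_pair h2]
  rintro (h | h)
  · exact hjk (hc.ia h)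
  · exact hc.hY 1 ((show a j = b 1 from h) ▸ hc.hX j)

/-- The degrees on the kept side do not change. -/
theorem deg_gad_in (hc : Cut3 G X a b) (i : Fin 3) {x : V} (hx : X x) :
    ((gad hc i).neighborSet x).ncard = (G.neighborSet x).ncard := by
  by_cases hxa : ∃ l, x = a l
  · obtain ⟨l, rfl⟩ := hxa
    have h1 : (gad hc i).neighborSet (a l) =
        insert (if l = i then b 1 else b 0) (G.neighborSet (a l) \ {b l}) := by
      ext y
      constructor
      · intro hy
        have hy' : (gad hc i).Adj (a l) y := hy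
        rcases gad_out hc i hy'.symm with h2 | rfl | rfl
        · refine Or.inr ⟨(gad_in hc i hx h2).1 hy', fun h3 => ?_⟩
          have h3' : y = b l := h3
          exact hc.hY l (h3' ▸ h2)
        · left
          rcases (gad_z hc i).1 hy' with ⟨m, h5, h6⟩ | h6
          · rw [if_neg]
            rw [hc.ia h6]
            exact h5
          · exact absurd (h6 ▸ hc.hX l) (hc.hY 1)
        · left
          rcases (gad_u hc i).1 hy' with h6 | h6
          · rw [if_pos (hc.ia h6)]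
          · exact absurd (h6 ▸ hc.hX l) (hc.hY 0)
      · rintro (h2 | ⟨h2, h3⟩)
        · rw [h2]
          show (gad hc i).Adj (a l) _
          split_ifs with h4
          · exact (gad_u hc i).2 (Or.inl (by rw [h4]))
          · exact (gad_z hc i).2 (Or.inl ⟨l, h4, rfl⟩)
        · have hy : X y := by
            by_contra h4
            obtain ⟨m, h5, h6⟩ := hc.cut _ _ hx h4 h2
            exact h3 (show y = b l by rw [h6, hc.ia h5])
          exact (gad_in hc i hx hy).2 h2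
    have h4 : ({b l} : Set V) ⊆ G.neighborSet (a l) := by
      intro y hy
      have hy' : y = b l := hy
      rw [hy']
      exact hc.adj l
    have h5 := Set.ncard_sdiff h4 (Set.toFinite _)
    have h6 := Set.ncard_le_ncard h4 (Set.toFinite _)
    rw [Set.ncard_singleton] at h5 h6
    rw [h1, Set.ncard_insert_of_notMem, h5]
    · omega
    · rintro ⟨h7, h8⟩
      have hw : ¬ X (if l = i then b 1 else b 0) := by
        split_ifs
        · exact hc.hY 1
        · exact hc.hY 0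
      obtain ⟨m, h9, h10⟩ := hc.cut _ _ hx hw h7
      exact h8 (show _ = b l by rw [h10, hc.ia h9])
  · have h1 : (gad hc i).neighborSet x = G.neighborSet x := by
      ext y
      constructor
      · intro hy
        have hy' : (gad hc i).Adj x y := hy
        rcases gad_out hc i hy'.symm with h2 | rfl | rfl
        · exact (gad_in hc i hx h2).1 hy'
        · exfalso
          rcases (gad_z hc i).1 hy' with ⟨m, -, h6⟩ | h6
          · exact hxa ⟨m, h6⟩
          · exact hc.hY 1 (h6 ▸ hx)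
        · exfalso
          rcases (gad_u hc i).1 hy' with h6 | h6
          · exact hxa ⟨i, h6⟩
          · exact hc.hY 0 (h6 ▸ hx)
      · intro hy
        have hy' : G.Adj x y := hy
        have h2 : X y := by
          by_contra h4
          obtain ⟨m, h5, h6⟩ := hc.cut _ _ hx h4 hy'
          exact hxa ⟨m, h5⟩
        exact (gad_in hc i hx h2).2 hy'
    rw [h1]

/-- The other vertices are isolated. -/
theorem deg_gad_out (hc : Cut3 G X a b) (i : Fin 3) {x : V} (hx : ¬ X x) (h0 : x ≠ b 0)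
    (h1 : x ≠ b 1) : ((gad hc i).neighborSet x).ncard = 0 := by
  have h2 : (gad hc i).neighborSet x = ∅ := by
    rw [Set.eq_empty_iff_forall_notMem]
    intro y hy
    rcases gad_out hc i (show (gad hc i).Adj x y from hy) with h3 | h3 | h3
    · exact hx h3
    · exact h0 h3
    · exact h1 h3
  rw [h2, Set.ncard_empty]

theorem deg_gad (hc : Cut3 G X a b) (hd : ∀ v, (G.neighborSet v).ncard ≤ 3) (i : Fin 3) (x : V) :
    ((gad hc i).neighborSet x).ncard ≤ 3 := by
  by_cases hx : X x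
  · rw [deg_gad_in hc i hx]
    exact hd x
  · by_cases h0 : x = b 0
    · rw [h0, deg_gad_z]
    · by_cases h1 : x = b 1
      · rw [h1, deg_gad_u]
        omega
      · rw [deg_gad_out hc i hx h0 h1]
        omega

/-- The degrees of the ends in the kept side alone. -/
theorem deg_side_end (hc : Cut3 G X a b) (l : Fin 3) :
    ((side G X).neighborSet (a l)).ncard + 1 = (G.neighborSet (a l)).ncard := by
  have h1 : (side G X).neighborSet (a l) = G.neighborSet (a l) \ {b l} := by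
    ext y
    constructor
    · intro hy
      have hy' : (side G X).Adj (a l) y := hy
      refine ⟨hy'.1, fun h3 => ?_⟩
      have h3' : y = b l := h3
      exact hc.hY l (h3' ▸ hy'.2.2)
    · rintro ⟨h2, h3⟩
      have hy : X y := by
        by_contra h4
        obtain ⟨m, h5, h6⟩ := hc.cut _ _ (hc.hX l) h4 h2
        exact h3 (show y = b l by rw [h6, hc.ia h5])
      exact ⟨h2, hc.hX l, hy⟩
  have h4 : ({b l} : Set V) ⊆ G.neighborSet (a l) := by
    intro y hy
    have hy' : y = b l := hy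
    rw [hy']
    exact hc.adj l
  have h5 := Set.ncard_sdiff h4 (Set.toFinite _)
  have h6 := Set.ncard_le_ncard h4 (Set.toFinite _)
  rw [Set.ncard_singleton] at h5 h6
  rw [h1, h5]
  omega

/-- The degrees of the other vertices in the kept side alone. -/
theorem deg_side_in (hc : Cut3 G X a b) {x : V} (hx : X x) (hxa : ∀ l, x ≠ a l) :
    (side G X).neighborSet x = G.neighborSet x := by
  ext y
  constructor
  · intro hy
    exact (show (side G X).Adj x y from hy).1
  · intro hy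
    have hy' : G.Adj x y := hy
    have h2 : X y := by
      by_contra h4
      obtain ⟨m, h5, h6⟩ := hc.cut _ _ hx h4 hy'
      exact hxa m h5
    exact ⟨hy', hx, h2⟩

/-- **The replacement of a leaf.**  Strict colourings of the new graph extend to `G`, without any
change on the kept side. -/
theorem leaf_step (hc : Cut3 G X a b) (hK : StrictCol (side G fun v => ¬ X v))
    (hpath : ∀ i j k, i ≠ j → i ≠ k → j ≠ k → ¬ (G.Adj (a i) (a j) ∧ G.Adj (a i) (a k))) :
    (∀ c τ, Strict (side G X) c τ → (∀ i j, τ (a i) = τ (a j) → i = j) →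
      ∃ c' τ', Strict G c' τ' ∧ ∀ v, X v → c' v = c v ∧ τ' v = τ v) ∨
    ∃ i j k : Fin 3, i ≠ j ∧ i ≠ k ∧ j ≠ k ∧ ¬ G.Adj (a j) (a k) ∧
      ∀ c τ, Strict (gad hc i) c τ → (∀ i j, τ (a i) = τ (a j) → i = j) →
        ∃ c' τ', Strict G c' τ' ∧ ∀ v, X v → c' v = c v ∧ τ' v = τ v := by
  have main : ∀ {c : V → ZMod 3} {τ : V → ℝ},
      (∀ u v, X u → X v → G.Adj u v → Up1 c τ u v) → Good G X c τ →
      ∃ c' τ', Strict G c' τ' ∧ ∀ v, X v → c' v = c v ∧ τ' v = τ v := by
    rintro c τ hs ⟨c', τ', h1, h2⟩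
    refine ⟨c', τ', fun u v huv => ?_, h1⟩
    by_cases hu : X u
    · by_cases hv : X v
      · have h3 := hs u v hu hv huv
        unfold Up1 at h3
        rw [← (h1 u hu).1, ← (h1 u hu).2, ← (h1 v hv).1, ← (h1 v hv).2] at h3
        exact h3
      · exact (h2 v u huv.symm hv).symm
    · exact h2 u v huv hu
  rcases leaf_place hc hK hpath with h | ⟨i, j, k, hij, hik, hjk, hna, h⟩
  · exact Or.inl fun c τ hs hτ => main (fun u v hu hv huv => hs u v ⟨huv, hu, hv⟩)
      (h c τ hτ fun i j hij => hs _ _ ⟨hij, hc.hX i, hc.hX j⟩)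
  · refine Or.inr ⟨i, j, k, hij, hik, hjk, hna, fun c τ hs hτ => ?_⟩
    refine main (fun u v hu hv huv => hs u v ((gad_in hc i hu hv).2 huv))
      (h c τ (b 0) (b 1) hτ ?_ ?_ ?_ ?_)
    · exact hs _ _ ((gad_z hc i).2 (Or.inl ⟨j, hij.symm, rfl⟩))
    · exact hs _ _ ((gad_z hc i).2 (Or.inl ⟨k, hik.symm, rfl⟩))
    · exact hs _ _ ((gad_u hc i).2 (Or.inr rfl))
    · exact (hs _ _ ((gad_u hc i).2 (Or.inl rfl))).symm

/-- Colourings of the leaf in normal form whose class is different from a given one. -/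
theorem alt_class (hc : Cut3 G X a b)
    (hT : ∀ i j k : Fin 3, i ≠ j → i ≠ k → j ≠ k → ¬ G.Adj (b j) (b k) →
      StrictCol (gad hc.compl i))
    (hpath : ∀ i j k, i ≠ j → i ≠ k → j ≠ k → ¬ (G.Adj (b i) (b j) ∧ G.Adj (b i) (b k)))
    {C : V → ZMod 3} {T : V → ℝ} (hC : Strict (side G fun v => ¬ X v) C T)
    (l1 : T (b 0) < T (b 1)) (l2 : T (b 1) < T (b 2)) {x : ZMod 3 × ZMod 3}
    (hE : Exc x.1 x.2 (C (b 1) - C (b 0)) (C (b 2) - C (b 0))) :
    ∃ C' T', Strict (side G fun v => ¬ X v) C' T' ∧ T' (b 0) < T' (b 1) ∧ T' (b 1) < T' (b 2) ∧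
      ¬ Exc x.1 x.2 (C' (b 1) - C' (b 0)) (C' (b 2) - C' (b 0)) := by
  -- the class of a colouring in normal form
  have hcls : ∀ (C' : V → ZMod 3) (T' : V → ℝ), T' (b 0) < T' (b 1) → T' (b 1) < T' (b 2) →
      Cls C' T' b = (C' (b 1) - C' (b 0), C' (b 2) - C' (b 0)) := by
    intro C' T' h1 h2
    unfold Cls
    rw [decide_eq_true h1, decide_eq_true h2, decide_eq_true (h1.trans h2)]
    rfl
  have hmatch : ∀ s s' r r' t t' : ZMod 3, Exc s s' r r' → Exc s s' t t' → t = r ∧ t' = r' := by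
    decide
  -- a colouring of the closure by a gadget
  have step : ∀ i j k : Fin 3, i ≠ j → i ≠ k → j ≠ k → ¬ G.Adj (b j) (b k) →
      ∃ C' T', Strict (side G fun v => ¬ X v) C' T' ∧ T' (b 0) < T' (b 1) ∧
        T' (b 1) < T' (b 2) ∧ ∃ z u, Up1 C' T' (b j) z ∧ Up1 C' T' (b k) z ∧ Up1 C' T' z u ∧
          Up1 C' T' u (b i) := by
    intro i j k hij hik hjk hna
    obtain ⟨C', T', g, m1, m2⟩ := normal3 (hT i j k hij hik hjk hna)
      (x := b 0) (y := b 1) (z := b 2) (fun h5 => absurd (hc.ib h5) (by decide))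
      (fun h5 => absurd (hc.ib h5) (by decide)) (fun h5 => absurd (hc.ib h5) (by decide))
    refine ⟨C', T', fun u v huv => g u v ((gad_in hc.compl i huv.2.1 huv.2.2).2 huv.1), m1, m2,
      a 0, a 1, ?_, ?_, ?_, ?_⟩
    · exact g _ _ ((gad_z hc.compl i).2 (Or.inl ⟨j, hij.symm, rfl⟩))
    · exact g _ _ ((gad_z hc.compl i).2 (Or.inl ⟨k, hik.symm, rfl⟩))
    · exact g _ _ ((gad_u hc.compl i).2 (Or.inr rfl))
    · exact (g _ _ ((gad_u hc.compl i).2 (Or.inl rfl))).symm
  have fin3 : ∀ {T' : V → ℝ}, T' (b 0) < T' (b 1) → T' (b 1) < T' (b 2) →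
      ∀ i j, T' (b i) = T' (b j) → i = j := by
    intro T' h1 h2 i j hij
    fin_cases i <;> fin_cases j
    · rfl
    · exact absurd hij h1.ne
    · exact absurd hij (h1.trans h2).ne
    · exact absurd hij h1.ne'
    · rfl
    · exact absurd hij h2.ne
    · exact absurd hij (h1.trans h2).ne'
    · exact absurd hij h2.ne'
    · rfl
  have use0 : ¬ G.Adj (b 1) (b 2) → (Cls C T b = (0, 2) ∨ Cls C T b = (0, 1) ∨
      Cls C T b = (1, 2)) → ∃ C' T', Strict (side G fun v => ¬ X v) C' T' ∧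
      T' (b 0) < T' (b 1) ∧ T' (b 1) < T' (b 2) ∧
      ¬ Exc x.1 x.2 (C' (b 1) - C' (b 0)) (C' (b 2) - C' (b 0)) := by
    intro hna h
    obtain ⟨C', T', g, m1, m2, z, u, h1, h2, h3, h4⟩ :=
      step 0 1 2 (by decide) (by decide) (by decide) hna
    refine ⟨C', T', g, m1, m2, fun hE' => ?_⟩
    obtain ⟨e1, e2⟩ := hmatch _ _ _ _ _ _ hE hE'
    have h5 := rejV0 (fin3 m1 m2) h1 h2 h3 h4
    rw [hcls C' T' m1 m2, e1, e2, ← hcls C T l1 l2] at h5
    rcases h with h | h | h
    · exact h5.1 h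
    · exact h5.2.1 h
    · exact h5.2.2 h
  have use1 : ¬ G.Adj (b 0) (b 2) → (Cls C T b = (0, 0) ∨ Cls C T b = (0, 1) ∨
      Cls C T b = (1, 1)) → ∃ C' T', Strict (side G fun v => ¬ X v) C' T' ∧
      T' (b 0) < T' (b 1) ∧ T' (b 1) < T' (b 2) ∧
      ¬ Exc x.1 x.2 (C' (b 1) - C' (b 0)) (C' (b 2) - C' (b 0)) := by
    intro hna h
    obtain ⟨C', T', g, m1, m2, z, u, h1, h2, h3, h4⟩ :=
      step 1 0 2 (by decide) (by decide) (by decide) hna
    refine ⟨C', T', g, m1, m2, fun hE' => ?_⟩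
    obtain ⟨e1, e2⟩ := hmatch _ _ _ _ _ _ hE hE'
    have h5 := rejV1 (fin3 m1 m2) h1 h2 h3 h4
    rw [hcls C' T' m1 m2, e1, e2, ← hcls C T l1 l2] at h5
    rcases h with h | h | h
    · exact h5.1 h
    · exact h5.2.1 h
    · exact h5.2.2 h
  have use2 : ¬ G.Adj (b 0) (b 1) → (Cls C T b = (2, 2) ∨ Cls C T b = (1, 2) ∨
      Cls C T b = (1, 1)) → ∃ C' T', Strict (side G fun v => ¬ X v) C' T' ∧
      T' (b 0) < T' (b 1) ∧ T' (b 1) < T' (b 2) ∧
      ¬ Exc x.1 x.2 (C' (b 1) - C' (b 0)) (C' (b 2) - C' (b 0)) := by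
    intro hna h
    obtain ⟨C', T', g, m1, m2, z, u, h1, h2, h3, h4⟩ :=
      step 2 0 1 (by decide) (by decide) (by decide) hna
    refine ⟨C', T', g, m1, m2, fun hE' => ?_⟩
    obtain ⟨e1, e2⟩ := hmatch _ _ _ _ _ _ hE hE'
    have h5 := rejV2 h1 h2 h3 h4
    rw [hcls C' T' m1 m2, e1, e2, ← hcls C T l1 l2] at h5
    rcases h with h | h | h
    · exact h5.1 h
    · exact h5.2.1 h
    · exact h5.2.2 h
  have hself : ∀ i j, G.Adj (b i) (b j) → Up1 C T (b i) (b j) :=
    fun i j hij => hC _ _ ⟨hij, hc.hY i, hc.hY j⟩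
  have hA := rejAdj (c := C) (τ := T) (a := b)
  have hC' := hcls C T l1 l2
  have hlist : ∀ s s' r r' : ZMod 3, Exc s s' r r' → ((r, r') : ZMod 3 × ZMod 3) = (0, 0) ∨
      ((r, r') : ZMod 3 × ZMod 3) = (2, 2) ∨ ((r, r') : ZMod 3 × ZMod 3) = (0, 2) ∨
      ((r, r') : ZMod 3 × ZMod 3) = (1, 2) ∨ ((r, r') : ZMod 3 × ZMod 3) = (1, 1) ∨
      ((r, r') : ZMod 3 × ZMod 3) = (0, 1) := by
    decide
  have hl := hlist _ _ _ _ hE
  rw [← hC'] at hl
  rcases hl with h | h | h | h | h | h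
  · exact use1 (fun h6 => hA.2.1 (hself 0 2 h6) h) (Or.inl h)
  · exact use2 (fun h6 => hA.1 (hself 0 1 h6) h) (Or.inl h)
  · exact use0 (fun h6 => hA.2.2 (hself 1 2 h6) h) (Or.inl h)
  · by_cases hadj : G.Adj (b 1) (b 2)
    · exact use2 (fun h6 => hpath 1 0 2 (by decide) (by decide) (by decide) ⟨h6.symm, hadj⟩)
        (Or.inr (Or.inl h))
    · exact use0 hadj (Or.inr (Or.inr h))
  · by_cases hadj : G.Adj (b 0) (b 2)
    · exact use2 (fun h6 => hpath 0 1 2 (by decide) (by decide) (by decide) ⟨h6, hadj⟩)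
        (Or.inr (Or.inr h))
    · exact use1 hadj (Or.inr (Or.inr h))
  · by_cases hadj : G.Adj (b 1) (b 2)
    · exact use1 (fun h6 => hpath 2 0 1 (by decide) (by decide) (by decide) ⟨h6.symm, hadj.symm⟩)
        (Or.inr (Or.inl h))
    · exact use0 hadj (Or.inr (Or.inl h))

/-- **Leaves are universal.**  If no end of the leaf is adjacent to both other ends, then ALL
values on the kept side with different heights at the ends extend to the leaf. -/
theorem leaf_full (hc : Cut3 G X a b) (hK : StrictCol (side G fun v => ¬ X v))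
    (hT : ∀ i j k : Fin 3, i ≠ j → i ≠ k → j ≠ k → ¬ G.Adj (b j) (b k) →
      StrictCol (gad hc.compl i))
    (hpath : ∀ i j k, i ≠ j → i ≠ k → j ≠ k → ¬ (G.Adj (b i) (b j) ∧ G.Adj (b i) (b k)))
    {c : V → ZMod 3} {τ : V → ℝ} (hτ : ∀ i j, τ (a i) = τ (a j) → i = j) : Good G X c τ := by
  obtain ⟨C, T, hC, l1, l2⟩ := normal3 hK
    (x := b 0) (y := b 1) (z := b 2) (fun h5 => absurd (hc.ib h5) (by decide))
    (fun h5 => absurd (hc.ib h5) (by decide)) (fun h5 => absurd (hc.ib h5) (by decide))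
  by_cases hE : Exc (Cls c τ a).1 (Cls c τ a).2 (C (b 1) - C (b 0)) (C (b 2) - C (b 0))
  · obtain ⟨C', T', hC', m1, m2, hE'⟩ := alt_class hc hT hpath hC l1 l2 hE
    exact leaf_core hc hτ hC' m1 m2 hE'
  · exact leaf_core hc hτ hC l1 l2 hE

end Pool.Agent.Leaf
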