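import Mathlib
import Pool.Agent.Work.MP_392c8e_co_uni.InstG3C
import Pool.Agent.Work.MP_392c8e_co_uni.Inst.G3cExt
import Pool.Agent.Work.MP_392c8e_co_uni.Inst.G3XExt

/-!
# The line g3 of stage C, with the tables
-/

set_option autoImplicit false

namespace Pool.Agent.U2Geo

open Pool.Agent.Sub392 Pool.Agent.T392 Pool.Agent.T1Red
open Pool.Agent.Disch392 (ad c5)
open Pool.Agent.DischB (Snd)

theorem extG3c : ExtG3c := by
  intro c hc
  unfold coG3c at hc
  simp only [List.mem_cons, List.not_mem_nil, or_false] at hc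
  rcases hc with rfl | rfl | rfl | rfl
  · exact extTab_G3c [] (by decide)
  · exact extTab_G3c [(2, 7)] (by decide)
  · exact extTab_G3c [(2, 8)] (by decide)
  · exact extTab_G3c [(3, 8)] (by decide)

variable {V : Type} [Fintype V] [DecidableEq V] {G : SimpleGraph V} [DecidableRel G.Adj]
  {R : Rot G} {K : ℕ}

/-- **The line g3 of stage C.** -/
theorem lineC_g3 (hR : C4 R) {r : ℕ} (hr : 20 ≤ r) (hrK : 10 * (K + 1) ≤ r) (d : G.Dart)
    (hN4 : N4 R 60 d.fst) (hs : sz R d = 7) (a0 : Snd R K (ad R d 0)) (a2 : Snd R K (ad R d 2))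
    (a4 : Snd R K (ad R d 4)) (c0 : c5 R (ad R d 0) = 0) (c2 : c5 R (ad R d 2) = 0)
    (c4 : c5 R (ad R d 4) = 0) : PP R r d.fst :=
  lineC_g3_of extG3c ext_G3X hR hr hrK d hN4 hs a0 a2 a4 c0 c2 c4

end Pool.Agent.U2Geo
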