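import Mathlib
import Pool.Agent.Work.MP_392c8e_co_uni.LineP
import Pool.Agent.Work.MP_392c8e_co_uni.GapData
import Pool.Agent.Work.MP_392c8e_co_uni.RotTabs
import Pool.Agent.Work.MP_392c8e_co_uni.RingSz
import Pool.Agent.Work.MP_392c8e_co_uni.RingBP
import Pool.Agent.Work.MP_392c8e_co_uni.BDefs
import Pool.Agent.Work.MP_392c8e_co_uni.LinesB
import Pool.Agent.Work.MP_392c8e_co_uni.LineM2
import Pool.Agent.Work.MP_392c8e_co_uni.ExtTab

/-!
# The place P1 with short outer faces has a gain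
-/

namespace Pool.Agent.U2Geo

open Finset Pool.Agent.Sub392 Pool.T1Side Pool.Agent.T392 Pool.Agent.T1FF Pool.Agent.T1Red
  Pool.Agent.Once392 Pool.Agent.RingB Pool.Agent.GapData
open Pool.Agent.Disch392 (nb ad NoC Near nb_ad_zero nb_ad_one nb_ad_last ad_per nb_per c5)
open Pool.Agent.Uni91 (GainP)
open Pool.Agent.DischB (Bf Snd HypP1)

set_option linter.unusedSectionVars false

variable {V : Type} [Fintype V] [DecidableEq V] {G : SimpleGraph V} [DecidableRel G.Adj]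
  {R : Rot G} {K : ℕ}

/-- The positions of P1. -/
def shP1 : List (ℕ × ℕ) :=
  [(16, 9), (17, 16), (18, 17), (20, 19), (11, 20), (22, 21), (23, 22), (25, 24), (14, 25)]

theorem good_shP1 : goodB P1 [] psP1 [] (gsOf tP1 gP1 shP1) = true := by
  decide +kernel

theorem chk_shP1 : chkSh tP1 (9, 10) [[0], [1], [3], [4]] shP1 = true := by
  decide +kernel

theorem lab_P1 : labB P1 [] tP1 = true := by
  decide +kernel

/-- **The place P1 has a gain.** -/
theorem gainP_P1 (hext : P1.Ext []) (hR : C5 R) (h13 : 13 ≤ Fintype.card V) {d : G.Dart}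
    (h : IsP1 R d) (b0 : Bf R K (ad R d 0)) (b1 : Bf R K (ad R d 1)) (b3 : Bf R K (ad R d 3))
    (b4 : Bf R K (ad R d 4)) : GainP G (sP1.pl (fP1 R d)) (10 * (K + 1)) := by
  have hg := good_P1 hext hR h13 h
  have hN : RotOk R (fP1 R d) tP1 :=
    rotP1 (hR.good h.s) (hR.good h.s0) (hR.good h.s1) (hR.good h.s3) (hR.good h.s4)
  have hdt : Dt (fP1 R d) (9, 10) d := by
    refine ⟨rfl, ?_⟩
    exact (snd_pow R d 0)
  have hsh := shorts hN hdt (Ls := [[0], [1], [3], [4]]) (sh := shP1) (K := K) (by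
    intro l hl i hi
    simp only [List.mem_cons, List.not_mem_nil, or_false] at hl
    rcases hl with rfl | rfl | rfl | rfl
    · exact b0.2 i hi
    · exact b1.2 i hi
    · exact b3.2 i hi
    · exact b4.2 i hi) chk_shP1
  exact gainP_of hg rfl (gaps_of hR hg rfl hN lab_P1 gps_P1 (Or.inl sp_P1) hsh) good_shP1

/-- The conditions at the place P1. -/
theorem isP1_hyp {d : G.Dart} (h : HypP1 R d) : IsP1 R d := by
  refine ⟨h.s, ?_, ?_, ?_, ?_, ?_, ?_, ?_, ?_, ?_⟩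
  · rw [sz_ac]; exact h.s0
  · rw [sz_ac]; exact h.s1
  · rw [sz_ac]; exact h.s3
  · rw [sz_ac]; exact h.s4
  · rw [sz_ac]; exact h.n2
  · rw [sz_ac, ac_eq_ad]; exact h.n02
  · rw [sz_ac, ac_eq_ad]; exact h.n13
  · rw [sz_ac, ac_eq_ad]; exact h.n32
  · rw [sz_ac, ac_eq_ad]; exact h.n43

/-- **The line p1 of stage B.** -/
theorem lineB_p1 (hR : C5 R) (h13 : 13 ≤ Fintype.card V) (d : G.Dart) (h : HypP1 R d)
    (a0 : Snd R K (ad R d 0)) (a1 : Snd R K (ad R d 1)) (a3 : Snd R K (ad R d 3))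
    (a4 : Snd R K (ad R d 4)) : ∃ f, Uni91.Good (sP1.pl f) G ∧
      GainP G (sP1.pl f) (10 * (K + 1)) ∧ d.fst ∈ (sP1.pl f).Vert :=
  ⟨fP1 R d, good_P1 extTab_P1_nil hR h13 (isP1_hyp h),
    gainP_P1 extTab_P1_nil hR h13 (isP1_hyp h) a0.1 a1.1 a3.1 a4.1, mem_vert_P1 R d⟩

end Pool.Agent.U2Geo
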