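import Mathlib
import Pool.Agent.Work.MP_392c8e_co_t1.AllFacts
import Pool.Agent.Work.MP_392c8e_co_arb13.Final

/-!
# A linear lower bound for `3 |U| - 2 e (U)` gives a uniform circular colouring

If a planar triangle-free subcubic graph satisfies `a |U| ≤ 3 |U| - 2 e(G[U])` for all vertex sets
`U`, then it has a `(3 (N + 1), N + 2)`-colouring, where `N` depends only on `a > 0`: the
violators of the density condition are bounded, and the theorem on strict colourings applies to
them.
-/

namespace Pool.Agent.Uni392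

open Finset Pool.Agent.Red Pool.Agent.T1Red

set_option linter.unusedSectionVars false

/-- Induced subgraphs keep the algebraic dual. -/
theorem Pl.induce {V : Type} [Fintype V] [DecidableEq V] {G : SimpleGraph V} (h : Pl G)
    (U : Set V) [DecidablePred (· ∈ U)] : Pl (G.induce U) := by
  classical
  set H : SimpleGraph V :=
    { Adj := fun u v => G.Adj u v ∧ u ∈ U ∧ v ∈ U
      symm := ⟨fun _ _ h => ⟨h.1.symm, h.2.2, h.2.1⟩⟩
      loopless := ⟨fun _ h => G.loopless.irrefl _ h.1⟩ } with hH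
  have hle : H ≤ G := fun u v huv => huv.1
  have h1 : Pl H := h.del hle
  have h2 := h1.restrict (fun v => v ∈ U) (fun u v huv => huv.2.1)
  have h3 : H.comap (Subtype.val : {v // v ∈ U} → V) = G.induce U := by
    ext u v
    simp only [SimpleGraph.comap_adj, hH, SimpleGraph.induce]
    exact ⟨fun h => h.1, fun h => ⟨h, u.2, v.2⟩⟩
  rw [← h3]
  exact h2

/-- The density function `3 |U| - 2 e(G[U])`. -/
noncomputable def fdef {V : Type*} (G : SimpleGraph V) (U : Set V) : ℤ :=
  3 * (U.ncard : ℤ) - 2 * ((G.induce U).edgeSet.ncard : ℤ)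

/-- Bounded colourability of the small induced subgraphs and the linear bound suffice; no
planarity. -/
theorem colour_of_linear (m N : ℕ) (hN : 6 * m ≤ N) (hm : 1 ≤ m) {V : Type*} [Fintype V]
    (G : SimpleGraph V)
    (hsmall : ∀ U : Set V, U.ncard ≤ 6 * m → HasPQ (G.induce U) (3 * (N + 1)) (N + 2))
    (hlin : ∀ U : Set V, (U.ncard : ℤ) ≤ m * fdef G U) : HasPQ G (3 * (N + 1)) (N + 2) := by
  refine Pool.Agent.Arb.main G (3 * (N + 1)) (N + 2) (by omega) (by omega) fun U hU => ?_
  refine hsmall U ?_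
  by_contra hcon
  push Not at hcon
  have h1 := hlin U
  unfold fdef at h1
  set n := U.ncard with hn
  set e := (G.induce U).edgeSet.ncard with he
  have h2 : 3 * (N + 1) * (n - 1) < 2 * (N + 2) * e := hU
  obtain ⟨k, hk⟩ : ∃ k, n = k + 1 := ⟨n - 1, by omega⟩
  rw [hk] at h1 h2 hcon
  simp only [Nat.add_sub_cancel] at h2
  have h1' : ((k : ℤ) + 1) ≤ m * (3 * ((k : ℤ) + 1) - 2 * (e : ℤ)) := by
    push_cast at h1
    exact h1
  have h2' : 3 * ((N : ℤ) + 1) * k < 2 * ((N : ℤ) + 2) * e := by exact_mod_cast h2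
  have h3' : 6 * (m : ℤ) < (k : ℤ) + 1 := by exact_mod_cast hcon
  have hN' : 6 * (m : ℤ) ≤ N := by exact_mod_cast hN
  have hm' : 1 ≤ (m : ℤ) := by exact_mod_cast hm
  have h4 : (m : ℤ) * (3 * ((N : ℤ) + 1) * k) + m ≤ m * (2 * ((N : ℤ) + 2) * e) := by
    nlinarith
  have h5 : ((N : ℤ) + 2) * ((k : ℤ) + 1) ≤
      ((N : ℤ) + 2) * (m * (3 * ((k : ℤ) + 1) - 2 * (e : ℤ))) :=
    mul_le_mul_of_nonneg_left h1' (by positivity)
  have h6 : ((N : ℤ) + 2) * ((k : ℤ) + 1) < 3 * m * (k : ℤ) + 3 * m * ((N : ℤ) + 2) := by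
    nlinarith
  have h7 : 6 * (m : ℤ) * ((N : ℤ) + 2) ≤ ((k : ℤ)) * ((N : ℤ) + 2) :=
    mul_le_mul_of_nonneg_right (by linarith) (by positivity)
  have h8 : 6 * (m : ℤ) * k ≤ (N : ℤ) * k := mul_le_mul_of_nonneg_right hN' (by positivity)
  nlinarith

/-- A strict colouring with heights `0, ..., M - 1` gives a `(3 M, M + 1)`-colouring. -/
theorem hasPQ_of_heights {V : Type*} {G : SimpleGraph V} (c : V → ZMod 3) (r : V → ℕ) (M : ℕ)
    (hr : ∀ v, r v < M)
    (h : ∀ u v, G.Adj u v → (c v = c u + 1 ∧ r u < r v) ∨ (c u = c v + 1 ∧ r v < r u)) :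
    HasPQ G (3 * M) (M + 1) := by
  have hc : ∀ v, (c v).val < 3 := fun v => ZMod.val_lt _
  have key : ∀ a b : ZMod 3, b = a + 1 → (a.val = 0 ∧ b.val = 1) ∨ (a.val = 1 ∧ b.val = 2) ∨
      (a.val = 2 ∧ b.val = 0) := by decide
  have main : ∀ u v, c v = c u + 1 → r u < r v →
      ((M + 1 : ℕ) : ℤ) ≤ |((M * (c u).val + r u : ℕ) : ℤ) - ((M * (c v).val + r v : ℕ) : ℤ)| ∧
      |((M * (c u).val + r u : ℕ) : ℤ) - ((M * (c v).val + r v : ℕ) : ℤ)| ≤
        ((3 * M : ℕ) : ℤ) - ((M + 1 : ℕ) : ℤ) := by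
    intro u v h1 h3
    have h4 := hr u
    have h5 := hr v
    rcases key _ _ h1 with ⟨h6, h7⟩ | ⟨h6, h7⟩ | ⟨h6, h7⟩
    · rw [h6, h7]
      push_cast
      rw [abs_of_nonpos (by omega)]
      constructor <;> omega
    · rw [h6, h7]
      push_cast
      rw [abs_of_nonpos (by omega)]
      constructor <;> omega
    · rw [h6, h7]
      push_cast
      rw [abs_of_nonneg (by omega)]
      constructor <;> omega
  refine ⟨fun v => M * (c v).val + r v, fun v => ?_, fun u v huv => ?_⟩
  · have h4 := hr v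
    have h5 := hc v
    have : M * (c v).val ≤ M * 2 := Nat.mul_le_mul_left _ (by omega)
    show M * (c v).val + r v < 3 * M
    omega
  · rcases h u v huv with ⟨h1, h2⟩ | ⟨h1, h2⟩
    · exact main u v h1 h2
    · have := main v u h1 h2
      rw [abs_sub_comm] at this
      exact this

/-- A strict colouring of a graph with at most `M` vertices gives a `(3 M, M + 1)`-colouring. -/
theorem hasPQ_of_strict {V : Type*} [Fintype V] {G : SimpleGraph V} (h : HasStrict G) (M : ℕ)
    (hM : Fintype.card V ≤ M) : HasPQ G (3 * M) (M + 1) := by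
  classical
  obtain ⟨c, τ, h⟩ := h
  let r : V → ℕ := fun v => (univ.filter fun u => τ u < τ v).card
  have hr : ∀ v, r v < M := by
    intro v
    refine lt_of_lt_of_le ?_ hM
    rw [← card_univ]
    refine card_lt_card ((filter_ssubset).2 ⟨v, mem_univ v, lt_irrefl _⟩)
  have hmono : ∀ u v, τ u < τ v → r u < r v := by
    intro u v huv
    refine card_lt_card ⟨fun x hx => ?_, fun hsub => ?_⟩
    · rw [mem_filter] at hx ⊢
      exact ⟨hx.1, hx.2.trans huv⟩
    · have : u ∈ univ.filter fun x => τ x < τ u := hsub (by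
        rw [mem_filter]
        exact ⟨mem_univ u, huv⟩)
      rw [mem_filter] at this
      exact lt_irrefl _ this.2
  refine hasPQ_of_heights c r M hr fun u v huv => ?_
  rcases h u v huv with ⟨h1, h2⟩ | ⟨h1, h2⟩
  · exact Or.inl ⟨h1, hmono u v h2⟩
  · exact Or.inr ⟨h1, hmono v u h2⟩

/-- **The linear lemma suffices.**  A planar triangle-free subcubic graph in which every set `U` of
vertices satisfies `|U| ≤ m (3 |U| - 2 e(G[U]))` has a `(3 (6 m + 1), 6 m + 2)`-colouring. -/
theorem uniform_of_linear (m : ℕ) (hm : 1 ≤ m) {V : Type} [Fintype V] [DecidableEq V]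
    {G : SimpleGraph V} (hPl : Pl G) (hfree : G.CliqueFree 3)
    (hdeg : ∀ v, (G.neighborSet v).ncard ≤ 3)
    (hlin : ∀ U : Set V, (U.ncard : ℤ) ≤ m * fdef G U) :
    HasPQ G (3 * (6 * m + 1)) (6 * m + 2) := by
  classical
  refine colour_of_linear m (6 * m) le_rfl hm G (fun U hU => ?_) hlin
  have h1 : HasStrict (G.induce U) := by
    refine Pool.Agent.T392.facts.strict (Pl.induce hPl U) ?_ ?_
    · exact hfree.comap (SimpleGraph.Embedding.induce U).isContained
    · intro v
      refine le_trans ?_ (hdeg v.1)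
      refine Set.ncard_le_ncard_of_injOn Subtype.val (fun w hw => hw)
        (fun a _ b _ hab => Subtype.ext hab) (Set.toFinite _)
  refine hasPQ_of_strict h1 (6 * m + 1) ?_
  have h2 : Fintype.card U = U.ncard := by
    rw [← Nat.card_eq_fintype_card]
    rfl
  omega

end Pool.Agent.Uni392
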