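import Mathlib
import Pool.Agent.Work.MP_392c8e_co_uni.GeoC4d
import Pool.Agent.Work.MP_392c8e_co_uni.C4Base

/-!
# Cubic plane graphs with a local condition for the cuts

`NN R n v`: there is no face of length four and no cut with at most three edges and at least two
vertices on both sides within distance `n` of `v`.
-/

namespace Pool.Agent.U2Geo

open Finset Pool.Agent.Sub392 Pool.T1Side Pool.Agent.T392 Pool.Agent.T1FF Pool.Agent.OddFlow
open Pool.Agent.Disch392 (Near mir_plane mir_same)

set_option linter.unusedSectionVars false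

variable {V : Type} [Fintype V] [DecidableEq V] {G : SimpleGraph V} [DecidableRel G.Adj]
  {R : Rot G}

/-- Every cut with at most three edges and an edge at `y` is trivial. -/
def CutAt (G : SimpleGraph V) [DecidableRel G.Adj] (y : V) : Prop :=
  ∀ A : Finset V, out G A ≤ 3 → (∃ d : G.Dart, d.fst ∈ A ∧ d.snd ∉ A ∧ d.snd = y) →
    #A ≤ 1 ∨ #Aᶜ ≤ 1

/-- Every cut with at most three edges and an edge within distance `n` of `v` is trivial. -/
def N3 (G : SimpleGraph V) [DecidableRel G.Adj] (n : ℕ) (v : V) : Prop :=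
  ∀ A : Finset V, out G A ≤ 3 →
    (∃ d : G.Dart, d.fst ∈ A ∧ d.snd ∉ A ∧ ∃ p : G.Walk v d.snd, p.length ≤ n) →
    #A ≤ 1 ∨ #Aᶜ ≤ 1

theorem N3.mono {n m : ℕ} {v : V} (h : N3 G n v) (hmn : m ≤ n) : N3 G m v :=
  fun A hA ⟨d, h1, h2, p, hp⟩ => h A hA ⟨d, h1, h2, p, hp.trans hmn⟩

theorem N3.walk {n m : ℕ} {v w : V} (h : N3 G (n + m) v) (p : G.Walk v w)
    (hp : p.length ≤ m) : N3 G n w :=
  fun A hA ⟨d, h1, h2, q, hq⟩ => h A hA ⟨d, h1, h2, p.append q, by
    rw [SimpleGraph.Walk.length_append]; omega⟩

theorem N3.adj {n : ℕ} {v w : V} (h : N3 G (n + 1) v) (hvw : G.Adj v w) : N3 G n w :=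
  h.walk (SimpleGraph.Walk.cons hvw SimpleGraph.Walk.nil) (by simp)

theorem N3.at {n : ℕ} {v w : V} (h : N3 G n v) (p : G.Walk v w) (hp : p.length ≤ n) :
    CutAt G w :=
  fun A hA ⟨d, h1, h2, h3⟩ => h A hA ⟨d, h1, h2, p.copy rfl h3.symm, by
    rw [SimpleGraph.Walk.length_copy]; exact hp⟩

/-- The same for an edge with an end at `y` inside the set. -/
theorem CutAt.symm {y : V} (h : CutAt G y) (A : Finset V) (hA : out G A ≤ 3)
    (hd : ∃ d : G.Dart, d.fst ∈ A ∧ d.snd ∉ A ∧ d.fst = y) : #A ≤ 1 ∨ #Aᶜ ≤ 1 := by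
  obtain ⟨d, h1, h2, h3⟩ := hd
  have h4 := h Aᶜ (by rw [out_compl]; exact hA) ⟨d.symm, mem_compl.2 h2, fun hc => by
    rw [mem_compl] at hc
    exact hc h1, h3⟩
  rw [compl_compl] at h4
  exact h4.symm

/-- No face of length four and no nontrivial cut with at most three edges is near. -/
def NN (R : Rot G) (n : ℕ) (v : V) : Prop := N4 R n v ∧ N3 G n v

theorem NN.mono {n m : ℕ} {v : V} (h : NN R n v) (hmn : m ≤ n) : NN R m v :=
  ⟨h.1.mono hmn, h.2.mono hmn⟩

theorem NN.adj {n : ℕ} {v w : V} (h : NN R (n + 1) v) (hvw : G.Adj v w) : NN R n w :=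
  ⟨h.1.adj hvw, h.2.adj hvw⟩

theorem NN.walk {n m : ℕ} {v w : V} (h : NN R (n + m) v) (p : G.Walk v w)
    (hp : p.length ≤ m) : NN R n w := ⟨h.1.walk p hp, h.2.walk p hp⟩

theorem NN.to_mir {n : ℕ} {v : V} (h : NN R n v) : NN (Disch392.mir R) n v := ⟨h.1.to_mir, h.2⟩

theorem NN.mir_iff {n : ℕ} {v : V} : NN (Disch392.mir R) n v ↔ NN R n v :=
  ⟨fun h => ⟨N4.mir_iff.1 h.1, h.2⟩, NN.to_mir⟩

/-- The condition at a near dart. -/
theorem _root_.Pool.Agent.Disch392.Near.nn {k n : ℕ} {d e : G.Dart} (h : Near R k d e)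
    (hN : NN R (n + k) d.fst) : NN R n e.fst := by
  obtain ⟨p, hp⟩ := h.walk
  exact hN.walk p hp

/-- Plane cubic bridgeless graphs without triangles. -/
structure CB (R : Rot G) : Prop where
  plane : R.Plane
  cub : ∀ v, G.degree v = 3
  tri : G.CliqueFree 3
  br : ∀ d : G.Dart, R.face d ≠ R.face d.symm
  big : 7 ≤ Fintype.card V

theorem CB.mir (h : CB R) : CB (Disch392.mir R) :=
  ⟨mir_plane h.plane, h.cub, h.tri, fun d hd => h.br d (by
    rw [face_eq_iff, mir_same] at hd
    rw [SimpleGraph.Dart.symm_symm] at hd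
    rw [face_eq_iff]
    exact hd.symm), h.big⟩

theorem C4.cb (h : C4 R) : CB R := ⟨h.plane, h.cub, h.tri, h.geo.br, h.big⟩

theorem C4.n3 (h : C4 R) (n : ℕ) (v : V) : N3 G n v := fun A hA _ => h.cut A hA

theorem C4.nn (h : C4 R) {n : ℕ} {v : V} (hN : N4 R n v) : NN R n v := ⟨hN, h.n3 n v⟩

/-- The facts which do not need a condition for the cuts. -/
structure GB (R : Rot G) : Prop where
  tri : G.CliqueFree 3
  deg3 : ∀ v, G.degree v ≤ 3
  deg2 : ∀ v, 2 ≤ G.degree v
  br : ∀ d : G.Dart, R.face d ≠ R.face d.symm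

theorem CB.gb (h : CB R) : GB R :=
  ⟨h.tri, fun v => (h.cub v).le, fun v => by rw [h.cub v]; norm_num, h.br⟩

theorem GB.rot_ne (g : GB R) (d : G.Dart) : R.rot d ≠ d := T392.rot_ne R (g.deg2 _)

theorem GB.next_ne_symm (g : GB R) (d : G.Dart) : R.next d ≠ d.symm :=
  T392.next_ne_symm R (g.deg2 _)

/-- Faces have length at least four. -/
theorem GB.four_le_sz (g : GB R) (d : G.Dart) : 4 ≤ sz R d := by
  have h0 := next_sz R d
  have hpos : 0 < sz R d := by
    rw [sz_eq, Function.minimalPeriod_pos_iff_mem_periodicPts]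
    refine ⟨orderOf R.next, orderOf_pos R.next, ?_⟩
    show R.next^[orderOf R.next] d = d
    rw [← Equiv.Perm.coe_pow, pow_orderOf_eq_one]
    rfl
  by_contra hcon
  have h1 : sz R d = 1 ∨ sz R d = 2 ∨ sz R d = 3 := by omega
  rcases h1 with h1 | h1 | h1
  · rw [h1] at h0
    have h2 := R.fst_next d
    have h3 : R.next d = d := h0
    rw [h3] at h2
    exact d.adj.ne h2
  · rw [h1] at h0
    have h0' : R.next (R.next d) = d := h0
    have h2 := R.fst_next d
    have h3 := R.fst_next (R.next d)
    rw [h0'] at h3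
    exact g.next_ne_symm d (SimpleGraph.Dart.ext _ _ (Prod.ext h2 h3.symm))
  · rw [h1] at h0
    have h0' : R.next (R.next (R.next d)) = d := h0
    have h2 := R.fst_next d
    have h3 := R.fst_next (R.next d)
    have h4 := R.fst_next (R.next (R.next d))
    rw [h0'] at h4
    refine g.tri {d.fst, d.snd, (R.next d).snd} (SimpleGraph.is3Clique_triple_iff.2
      ⟨d.adj, ?_, ?_⟩)
    · have h5 := (R.next (R.next d)).adj
      rw [h3, ← h4] at h5
      exact h5.symm
    · have h5 := (R.next d).adj
      rwa [h2] at h5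

theorem CB.five_le (h : CB R) {n : ℕ} {d : G.Dart} (hN : NN R n d.fst) : 5 ≤ sz R d := by
  have h1 := h.gb.four_le_sz d
  have h2 := hN.1 d ⟨SimpleGraph.Walk.nil, Nat.zero_le n⟩
  omega

/-- Every dart of a face gives good data. -/
theorem CB.good (h : CB R) {d : G.Dart} {L : ℕ} (hd : sz R d = L) : Good R d L :=
  ⟨hd, fun _ => h.cub _⟩

/-- A set in a connected graph has a leaving edge. -/
theorem exists_leaving (hc : G.Connected) {A : Finset V} {x y : V} (hx : x ∈ A) (hy : y ∉ A) :
    ∃ d : G.Dart, d.fst ∈ A ∧ d.snd ∉ A := by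
  obtain ⟨w⟩ := hc.preconnected x y
  induction w with
  | nil => exact absurd hx hy
  | @cons a b c hab w ih =>
    by_cases hb : b ∈ A
    · exact ih hb hy
    · exact ⟨⟨(a, b), hab⟩, hx, hb⟩

/-- **The left side of a cycle of length at most eight with at most three edges leaving to the
left**: it is a face, or a face of length four is near, or the length is eight and there is a chord
between opposite vertices. -/
theorem CB.leftT {l : ℕ} [NeZero l] (hh : CB R) (hl : l ≤ 8) (w : ZMod l → V)
    (ha : ∀ i, G.Adj (w i) (w (i + 1))) (hb : ∀ i, w i ≠ w (i + 2)) (hinj : Function.Injective w)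
    (hl4 : 4 ≤ l) (hc : ∀ i, CutAt G (w i))
    (hN : #{i : ZMod l | R.next (ed w ha i) ≠ ed w ha (i + 1)} ≤ 3) :
    (∀ i, R.next (ed w ha i) = ed w ha (i + 1)) ∨
    (∃ t : G.Dart, sz R t = 4 ∧ ((∃ i, t.fst = w i) ∨ ∃ i, G.Adj (w i) t.fst)) ∨
    (l = 8 ∧ ∃ j, G.Adj (w j) (w (j + 4)) ∧
      ∀ k, R.next (ed w ha k) ≠ ed w ha (k + 1) ↔ k + 1 = j ∨ k + 1 = j + 4) := by
  have g := hh.gb
  classical
  set e := ed w ha with he
  have efst : ∀ i, (e i).fst = w i := fun i => rfl
  have esnd : ∀ i, (e i).snd = w (i + 1) := fun i => rfl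
  have einj : ∀ i j, e i = e j → i = j := fun i j h => hinj (by
    have := congrArg (fun d : G.Dart => d.fst) h
    exact this)
  have ens : ∀ i j, e i ≠ (e j).symm := by
    intro i j h
    have h1 : (e i).fst = (e j).symm.fst := by rw [h]
    have h2 : (e i).snd = (e j).symm.snd := by rw [h]
    have h3 : w i = w (j + 1) := h1
    have h4 : w (i + 1) = w j := h2
    have h5 := hinj h3
    subst h5
    exact hb j (by rw [← h4]; congr 1; ring)
  have essy : ∀ i, (e i).symm.symm = e i := fun i => SimpleGraph.Dart.symm_symm _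
  -- the flow along the cycle
  set y : G.Dart → ℚ := fun d => ∑ i, ((if d = e i then 1 else 0) - (if d = (e i).symm then 1 else 0))
    with hy
  have hsymm : ∀ d d' : G.Dart, d.symm = d' ↔ d = d'.symm := by
    intro d d'
    constructor
    · rintro rfl; simp
    · rintro rfl; simp
  obtain ⟨a, hya⟩ := exact_dual R hh.plane (k := ℚ) y (by
    intro d
    rw [hy]
    simp only
    rw [← Finset.sum_neg_distrib]
    refine sum_congr rfl fun i _ => ?_
    simp only [hsymm, essy]
    ring) (by
    intro v
    rw [hy]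
    simp only
    rw [sum_comm]
    simp only [sum_sub_distrib]
    rw [sub_eq_zero]
    have h1 : ∀ i, ∑ d : G.Dart with d.fst = v, (if d = e i then (1 : ℚ) else 0) =
        if w i = v then 1 else 0 := by
      intro i
      rw [Finset.sum_ite_eq']
      simp only [mem_filter, mem_univ, true_and, efst]
    have h2 : ∀ i, ∑ d : G.Dart with d.fst = v, (if d = (e i).symm then (1 : ℚ) else 0) =
        if w (i + 1) = v then 1 else 0 := by
      intro i
      rw [Finset.sum_ite_eq']
      simp only [mem_filter, mem_univ, true_and]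
      rfl
    simp only [h1, h2]
    exact (Equiv.sum_comp (Equiv.addRight (1 : ZMod l))
      (fun i => if w i = v then (1 : ℚ) else 0)).symm)
  have hye : ∀ i, y (e i) = 1 := by
    intro i
    rw [hy]
    simp only
    rw [sum_sub_distrib]
    have h1 : ∀ j, (if e i = (e j).symm then (1 : ℚ) else 0) = 0 := fun j => if_neg (ens i j)
    have h2 : ∀ j, (if e i = e j then (1 : ℚ) else 0) = if i = j then 1 else 0 := by
      intro j
      by_cases hij : i = j
      · rw [if_pos hij, hij, if_pos rfl]
      · rw [if_neg hij, if_neg fun h => hij (einj i j h)]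
    simp only [h1, h2, sum_const_zero, sub_zero, sum_ite_eq, mem_univ, if_true]
  have hy0 : ∀ d : G.Dart, (∀ i, d ≠ e i) → (∀ i, d ≠ (e i).symm) → y d = 0 := by
    intro d h1 h2
    rw [hy]
    simp only
    refine sum_eq_zero fun i _ => ?_
    rw [if_neg (h1 i), if_neg (h2 i), sub_self]
  -- a dart at a vertex of the cycle
  have atv : ∀ i (x : G.Dart), x.fst = w (i + 1) → x ≠ (e i).symm → x ≠ e (i + 1) →
      (∀ j, x ≠ e j) ∧ (∀ j, x ≠ (e j).symm) := by
    intro i x hx h1 h2
    constructor
    · rintro j rfl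
      have := hinj (show w j = w (i + 1) from hx)
      subst this
      exact h2 rfl
    · rintro j rfl
      have := hinj (show w (j + 1) = w (i + 1) from hx)
      have h3 : j = i := add_right_cancel this
      subst h3
      exact h1 rfl
  have aoff : ∀ x : G.Dart, (∀ j, x ≠ e j) → (∀ j, x ≠ (e j).symm) →
      a (R.face x.symm) = a (R.face x) := by
    intro x h1 h2
    have h3 := hya x
    rw [hy0 x h1 h2] at h3
    linarith
  have hPQ : ∀ i, (e i).symm ≠ e (i + 1) := fun i h => ens (i + 1) i h.symm
  -- the third dart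
  have thr : ∀ i, R.next (e i) ≠ e (i + 1) →
      (∀ j, R.next (e i) ≠ e j) ∧ (∀ j, R.next (e i) ≠ (e j).symm) ∧
        R.rot (R.next (e i)) = e (i + 1) := by
    intro i hi
    have hf : (R.next (e i)).fst = w (i + 1) := R.fst_next _
    have hn : R.next (e i) ≠ (e i).symm := g.next_ne_symm _
    obtain ⟨h1, h2⟩ := atv i _ hf hn hi
    refine ⟨h1, h2, ?_⟩
    set x := R.rot.symm (e (i + 1)) with hx
    have hrx : R.rot x = e (i + 1) := by rw [hx, Equiv.apply_symm_apply]
    have hxf : x.fst = w (i + 1) := by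
      have := R.fst_rot x
      rw [hrx] at this
      exact this.symm
    have hx1 : x ≠ e (i + 1) := by
      intro h
      rw [h] at hrx
      exact g.rot_ne _ hrx
    have hx2 : x ≠ (e i).symm := by
      intro h
      rw [h] at hrx
      exact hi hrx
    have h3 : x = R.next (e i) := third_unique g.deg3 (hPQ i) rfl hxf hf hx2 hx1 hn hi
    rw [← h3, hrx]
  have aconst : ∀ i, a (R.face (e i)) = a (R.face (e (i + 1))) := by
    intro i
    by_cases hi : R.next (e i) = e (i + 1)
    · rw [← hi, R.face_next]
    · obtain ⟨h1, h2, h3⟩ := thr i hi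
      rw [← h3, R.face_rot, aoff _ h1 h2, R.face_next]
  set α := a (R.face (e 0)) with hα
  have hL : ∀ i, a (R.face (e i)) = α :=
    zind _ rfl fun i hi => by rw [← aconst i]; exact hi
  have hR : ∀ i, a (R.face (e i).symm) = α - 1 := by
    intro i
    have := hya (e i)
    rw [hye, hL] at this
    linarith
  -- the darts on the left
  set DL : Finset G.Dart := univ.filter fun d => a (R.face d) = α with hDL
  have mDL : ∀ d, d ∈ DL ↔ a (R.face d) = α := fun d => by
    rw [hDL, mem_filter]
    exact and_iff_right (mem_univ _)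
  have offC : ∀ x : G.Dart, (∀ i, x.fst ≠ w i) → (∀ j, x ≠ e j) ∧ (∀ j, x ≠ (e j).symm) :=
    fun x hx => ⟨fun j h => hx j (by rw [h, efst]), fun j h => hx (j + 1) (by rw [h]; rfl)⟩
  set A : Finset V := univ.filter fun x => (∀ i, x ≠ w i) ∧ ∃ d : G.Dart, d.fst = x ∧ d ∈ DL with hA
  have mA : ∀ x, x ∈ A ↔ (∀ i, x ≠ w i) ∧ ∃ d : G.Dart, d.fst = x ∧ d ∈ DL := fun x => by
    rw [hA, mem_filter]
    exact and_iff_right (mem_univ _)
  -- all darts at a vertex of `A` are on the left
  have hAall : ∀ d : G.Dart, d.fst ∈ A → d ∈ DL := by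
    intro d hd
    rw [mA] at hd
    obtain ⟨h1, d', h2, h3⟩ := hd
    have h4 := R.cyc d' d h2
    have h5 := sameCycle_inv (f := R.rot)
      (h := fun x : G.Dart => if (∀ i, x.fst ≠ w i) then a (R.face x) else 0) (by
        intro x
        simp only [R.fst_rot]
        by_cases hx : ∀ i, x.fst ≠ w i
        · rw [if_pos hx, if_pos hx, R.face_rot]
          obtain ⟨h6, h7⟩ := offC x hx
          exact aoff x h6 h7
        · rw [if_neg hx, if_neg hx]) h4
    simp only [h2] at h5
    rw [if_pos h1, if_pos h1] at h5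
    rw [mDL, ← h5]
    exact (mDL d').1 h3
  -- the inner darts at the cycle
  set I : Finset G.Dart := DL.filter fun d => (∃ i, d.fst = w i) ∧ ∀ i, d ≠ e i with hI
  have mI : ∀ d, d ∈ I ↔ d ∈ DL ∧ (∃ i, d.fst = w i) ∧ ∀ i, d ≠ e i := fun d => by
    rw [hI, mem_filter]
  have Ins : ∀ d ∈ I, ∀ i, d ≠ (e i).symm := by
    intro d hd i h
    rw [mI, mDL] at hd
    have h1 := hd.1
    rw [h, hR] at h1
    linarith
  have Isy : ∀ d ∈ I, d.symm ∈ DL := by
    intro d hd
    have h1 := Ins d hd
    rw [mI] at hd
    rw [mDL, aoff d hd.2.2 h1]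
    exact (mDL d).1 hd.1
  have Isn : ∀ d ∈ I, d.snd ∉ A → d.symm ∈ I := by
    intro d hd hA'
    have h0 := Isy d hd
    have h1 := Ins d hd
    rw [mI] at hd ⊢
    refine ⟨h0, ?_, fun i h => ?_⟩
    · by_contra hcon
      push Not at hcon
      exact hA' ((mA _).2 ⟨hcon, d.symm, rfl, h0⟩)
    · exact h1 i ((hsymm _ _).1 h)
  have hIN : I ⊆ (univ.filter fun i : ZMod l => R.next (e i) ≠ e (i + 1)).image
      fun i => R.next (e i) := by
    intro d hd
    have hs := Ins d hd
    rw [mI] at hd
    obtain ⟨hdL, ⟨j, hj⟩, hne⟩ := hd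
    have hj' : d.fst = w ((j - 1) + 1) := by rw [hj]; congr 1; ring
    set i := j - 1 with hi
    have hn : R.next (e i) ≠ (e i).symm := g.next_ne_symm _
    have hc : R.next (e i) ≠ e (i + 1) := by
      intro h
      -- then the third dart is on the right
      set x := R.rot.symm d with hx
      have hrx : R.rot x = d := by rw [hx, Equiv.apply_symm_apply]
      have hxf : x.fst = w (i + 1) := by
        have := R.fst_rot x
        rw [hrx] at this
        rw [← this]; exact hj'
      have hx1 : x ≠ (e i).symm := by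
        intro h2
        rw [h2] at hrx
        exact hne (i + 1) (hrx.symm.trans h)
      have hx2 : x ≠ d := by
        intro h2
        rw [h2] at hrx
        exact g.rot_ne _ hrx
      have hx3 : x = e (i + 1) := by
        by_contra hx3
        exact hx2 (third_unique g.deg3 (hPQ i) rfl hxf hj' hx1 hx3 (hs i) (hne (i + 1)))
      have h2 : R.face d = R.face (e (i + 1)).symm := by
        rw [← hrx, hx3, R.face_rot]
      have h3 := (mDL d).1 hdL
      rw [h2, hR] at h3
      linarith
    rw [mem_image]
    refine ⟨i, by simpa using hc, ?_⟩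
    exact (third_unique g.deg3 (hPQ i) rfl (R.fst_next _) hj' hn hc (hs i) (hne (i + 1)))
  have hI3 : #I ≤ 3 := ((card_le_card hIN).trans card_image_le).trans hN
  -- the two kinds of inner darts
  set IA := I.filter fun d => d.snd ∈ A with hIA
  set IC := I.filter fun d => d.snd ∉ A with hIC
  have hsplit : #IA + #IC = #I := by
    rw [hIA, hIC]
    exact card_filter_add_card_filter_not (s := I) (fun d => d.snd ∈ A)
  have hAC : ∀ d : G.Dart, d.fst ∈ A → ∀ i, d.fst ≠ w i := fun d hd i h =>
    ((mA _).1 hd).1 i h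
  have hout : #{d : G.Dart | d.fst ∈ A ∧ d.snd ∉ A} = #IA := by
    refine Finset.card_bij (fun d _ => d.symm) ?_ ?_ ?_
    · intro d hd
      simp only [mem_filter, mem_univ, true_and] at hd
      rw [hIA, mem_filter, mI]
      have h1 : d ∈ DL := hAall d hd.1
      obtain ⟨h2, h3⟩ := offC d (hAC d hd.1)
      have h4 : d.symm ∈ DL := by
        rw [mDL, aoff d h2 h3]
        exact (mDL d).1 h1
      refine ⟨⟨h4, ?_, fun i h => h3 i ((hsymm _ _).1 h)⟩, hd.1⟩
      by_contra hcon
      push Not at hcon
      exact hd.2 ((mA _).2 ⟨hcon, d.symm, rfl, h4⟩)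
    · intro d _ d' _ h
      have := congrArg SimpleGraph.Dart.symm h
      simpa using this
    · intro d hd
      rw [hIA, mem_filter] at hd
      refine ⟨d.symm, ?_, by simp⟩
      simp only [mem_filter, mem_univ, true_and]
      refine ⟨hd.2, fun h => ?_⟩
      have h1 := ((mI d).1 hd.1).2.1
      obtain ⟨i, hi⟩ := h1
      exact ((mA _).1 h).1 i hi
  have hIC2 : IC = ∅ ∨ #IC = 2 := by
    rcases IC.eq_empty_or_nonempty with h | ⟨t, ht⟩
    · exact Or.inl h
    right
    have hcl : ∀ d ∈ IC, d.symm ∈ IC := by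
      intro d hd
      rw [hIC, mem_filter] at hd ⊢
      refine ⟨Isn d hd.1 hd.2, fun h => ?_⟩
      obtain ⟨i, hi⟩ := ((mI d).1 hd.1).2.1
      exact ((mA _).1 h).1 i hi
    have hts : t.symm ≠ t := SimpleGraph.Dart.symm_ne t
    have h1 : ({t, t.symm} : Finset G.Dart) ⊆ IC := by
      intro x hx
      simp only [mem_insert, mem_singleton] at hx
      rcases hx with rfl | rfl
      · exact ht
      · exact hcl _ ht
    by_cases h2 : IC ⊆ {t, t.symm}
    · rw [Subset.antisymm h2 h1, card_pair hts.symm]
    · exfalso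
      rw [not_subset] at h2
      obtain ⟨x, hx, hxn⟩ := h2
      simp only [mem_insert, mem_singleton, not_or] at hxn
      have hxs : x.symm ≠ x := SimpleGraph.Dart.symm_ne x
      have h3 : ({t, t.symm, x, x.symm} : Finset G.Dart) ⊆ IC := by
        intro z hz
        simp only [mem_insert, mem_singleton] at hz
        rcases hz with rfl | rfl | rfl | rfl
        · exact ht
        · exact hcl _ ht
        · exact hx
        · exact hcl _ hx
      have h4 : #({t, t.symm, x, x.symm} : Finset G.Dart) = 4 := by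
        rw [card_insert_of_notMem, card_insert_of_notMem, card_insert_of_notMem, card_singleton]
        · simpa using hxs.symm
        · simp only [mem_insert, mem_singleton, not_or]
          refine ⟨fun h => hxn.2 h.symm, fun h => hxn.1 ?_⟩
          have := congrArg SimpleGraph.Dart.symm h
          simpa using this.symm
        · simp only [mem_insert, mem_singleton, not_or]
          refine ⟨hts.symm, fun h => hxn.1 h.symm, fun h => hxn.2 ?_⟩
          rw [h]; simp
      have h5 := card_le_card h3
      omega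
  -- the number of darts on the left
  have hDLc : #DL ≤ l + #I + ∑ x ∈ A, G.degree x := by
    have h1 : DL ⊆ (univ.image e ∪ I) ∪ A.biUnion fun x => univ.filter fun d : G.Dart =>
        d.fst = x := by
      intro d hd
      simp only [mem_union, mem_image, mem_univ, true_and, mem_biUnion, mem_filter]
      by_cases hc : ∃ i, d.fst = w i
      · left
        by_cases hd' : ∃ i, e i = d
        · exact Or.inl hd'
        · right
          rw [mI]
          exact ⟨hd, hc, fun i h => hd' ⟨i, h.symm⟩⟩
      · right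
        push Not at hc
        exact ⟨d.fst, (mA _).2 ⟨hc, d, rfl, hd⟩, rfl⟩
    refine (card_le_card h1).trans ((card_union_le _ _).trans (add_le_add
      ((card_union_le _ _).trans (add_le_add (card_image_le.trans ?_) le_rfl))
      (card_biUnion_le.trans (sum_le_sum fun x _ => ?_))))
    · rw [card_univ, ZMod.card]
    · exact (G.dart_fst_fiber_card_eq_degree x).le
  -- faces on the left
  have hsub : ∀ d ∈ DL, (univ.filter fun x : G.Dart => R.face x = R.face d) ⊆ DL := by
    intro d hd x hx
    simp only [mem_filter, mem_univ, true_and] at hx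
    rw [mDL, hx]
    exact (mDL d).1 hd
  have two : ∀ d d' : G.Dart, d ∈ DL → d' ∈ DL → R.face d ≠ R.face d' →
      sz R d + sz R d' ≤ #DL := by
    intro d d' h1 h2 h3
    unfold sz Rot.size
    rw [← card_union_of_disjoint]
    · exact card_le_card (union_subset (hsub d h1) (hsub d' h2))
    · rw [disjoint_filter]
      intro x _ h4 h5
      exact h3 (h4.symm.trans h5)
  have three : ∀ d d' d'' : G.Dart, d ∈ DL → d' ∈ DL → d'' ∈ DL → R.face d ≠ R.face d' →
      R.face d ≠ R.face d'' → R.face d' ≠ R.face d'' →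
      sz R d + sz R d' + sz R d'' ≤ #DL := by
    intro d d' d'' h1 h2 h3 h4 h5 h6
    unfold sz Rot.size
    rw [← card_union_of_disjoint, ← card_union_of_disjoint]
    · exact card_le_card (union_subset (union_subset (hsub d h1) (hsub d' h2)) (hsub d'' h3))
    · rw [disjoint_union_left, disjoint_filter, disjoint_filter]
      exact ⟨fun x _ h7 h8 => h5 (h7.symm.trans h8), fun x _ h7 h8 => h6 (h7.symm.trans h8)⟩
    · rw [disjoint_filter]
      intro x _ h7 h8
      exact h4 (h7.symm.trans h8)
  have rotne : ∀ d : G.Dart, R.face (R.rot d) ≠ R.face d := fun d => by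
    rw [R.face_rot]
    exact (g.br d).symm
  have hA1 : #A ≤ 1 := by
    rcases A.eq_empty_or_nonempty with hA0 | ⟨x0, hx0⟩
    · rw [hA0, card_empty]
      exact Nat.zero_le 1
    obtain ⟨d0, hd0, hd0'⟩ := exists_leaving hh.plane.1 hx0
      (show w 0 ∉ A from fun h => ((mA _).1 h).1 0 rfl)
    have hd1 : ∃ i, d0.snd = w i := by
      by_contra hcon
      push Not at hcon
      obtain ⟨h2, h3⟩ := offC d0 (hAC d0 hd0)
      have h4 : d0.symm ∈ DL := by
        rw [mDL, aoff d0 h2 h3]
        exact (mDL d0).1 (hAall d0 hd0)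
      exact hd0' ((mA _).2 ⟨hcon, d0.symm, rfl, h4⟩)
    obtain ⟨i1, hi1⟩ := hd1
    rcases hc i1 A (by rw [out, hout]; exact (Nat.le_add_right _ _).trans (hsplit.le.trans hI3))
      ⟨d0, hd0, hd0', hi1⟩ with h | h
    · exact h
    · exfalso
      have h1 : univ.image w ⊆ Aᶜ := by
        intro x hx
        rw [mem_image] at hx
        obtain ⟨i, -, rfl⟩ := hx
        rw [mem_compl, mA]
        exact fun h2 => h2.1 i rfl
      have h2 := card_le_card h1
      rw [card_image_of_injective _ hinj, card_univ, ZMod.card] at h2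
      omega
  have degA : ∀ x ∈ A, ∀ d : G.Dart, d.fst = x → d ∈ DL := fun x hx d hd =>
    hAall d (by rw [hd]; exact hx)
  have exd : ∀ x : V, ∃ d : G.Dart, d.fst = x := by
    intro x
    have h1 : 0 < G.degree x := by have := g.deg2 x; omega
    rw [← G.dart_fst_fiber_card_eq_degree x, card_pos] at h1
    obtain ⟨d, hd⟩ := h1
    exact ⟨d, by simpa using hd⟩
  have threeAt : ∀ x ∈ A, ∀ d : G.Dart, d.fst = x → G.degree x = 3 →
      sz R d + sz R (R.rot d) + sz R (R.rot (R.rot d)) ≤ #DL := by
    intro x hx d hd h3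
    have hd3 : G.degree d.fst = 3 := by rw [hd]; exact h3
    refine three _ _ _ (degA x hx d hd) (degA x hx _ (by rw [R.fst_rot, hd]))
      (degA x hx _ (by rw [R.fst_rot, R.fst_rot, hd])) (rotne d).symm ?_ (rotne _).symm
    have h4 := rotne (R.rot (R.rot d))
    rw [rot_three R hd3] at h4
    exact h4
  have inI : ∀ k, R.next (e k) ≠ e (k + 1) → R.next (e k) ∈ I := by
    intro k hk
    obtain ⟨h3, -, -⟩ := thr k hk
    rw [mI, mDL, R.face_next]
    exact ⟨hL k, ⟨k + 1, R.fst_next _⟩, h3⟩
  rcases (by omega : #A = 0 ∨ #A = 1) with h0 | h1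
  · -- nothing inside
    rw [card_eq_zero] at h0
    have hIA0 : #IA = 0 := by
      rw [← hout, h0, card_eq_zero, filter_eq_empty_iff]
      intro d _ h
      exact notMem_empty _ h.1
    rcases hIC2 with hc | hc
    · left
      intro i
      by_contra hi
      have h5 := inI i hi
      rw [hIA0, hc, card_empty] at hsplit
      have h6 : I = ∅ := by
        rw [← card_eq_zero]
        omega
      rw [h6] at h5
      exact notMem_empty _ h5
    · right
      obtain ⟨t, ht⟩ := card_pos.1 (by omega : 0 < #IC)
      rw [hIC, mem_filter] at ht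
      have htI := ht.1
      have htI' : t.symm ∈ I := Isn t ht.1 ht.2
      have hI2 : #I = 2 := by omega
      have hts : t.symm ≠ t := SimpleGraph.Dart.symm_ne t
      have hIeq : ∀ x ∈ I, x = t ∨ x = t.symm := by
        intro x hx
        by_contra hcon
        push Not at hcon
        have h3 : ({t, t.symm, x} : Finset G.Dart) ⊆ I := by
          intro z hz
          simp only [mem_insert, mem_singleton] at hz
          rcases hz with rfl | rfl | rfl
          · exact htI
          · exact htI'
          · exact hx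
        have h4 : #({t, t.symm, x} : Finset G.Dart) = 3 := by
          rw [card_insert_of_notMem, card_pair hcon.2.symm]
          simp only [mem_insert, mem_singleton, not_or]
          exact ⟨hts.symm, hcon.1.symm⟩
        have h5 := card_le_card h3
        omega
      obtain ⟨i0, hi0⟩ := ((mI t).1 htI).2.1
      obtain ⟨j0, hj0⟩ := ((mI _).1 htI').2.1
      have hj0' : t.snd = w j0 := hj0
      have hsum : sz R t + sz R t.symm ≤ l + 2 := by
        refine (two t t.symm ((mI t).1 htI).1 (Isy t htI) (g.br t)).trans ?_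
        rw [h0, sum_empty] at hDLc
        omega
      have f1 := g.four_le_sz t
      have f2 := g.four_le_sz t.symm
      by_cases c1 : sz R t = 4
      · exact Or.inl ⟨t, c1, Or.inl ⟨i0, hi0⟩⟩
      by_cases c2 : sz R t.symm = 4
      · exact Or.inl ⟨t.symm, c2, Or.inl ⟨j0, hj0⟩⟩
      right
      have hl8 : l = 8 := by omega
      have ht5 : sz R t = 5 := by omega
      refine ⟨hl8, j0, ?_⟩
      have hback : ∀ x ∈ I, ∃ k, R.next (e k) ≠ e (k + 1) ∧ R.next (e k) = x := by
        intro x hx
        have := hIN hx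
        rw [mem_image] at this
        obtain ⟨k, hk, hk'⟩ := this
        exact ⟨k, by simpa using hk, hk'⟩
      have hnt : ∀ k, R.next (e k) ≠ e (k + 1) ↔ k + 1 = j0 ∨ k + 1 = i0 := by
        intro k
        constructor
        · intro hk
          have hf : (R.next (e k)).fst = w (k + 1) := R.fst_next _
          rcases hIeq _ (inI k hk) with h3 | h3
          · right
            rw [h3, hi0] at hf
            exact (hinj hf).symm
          · left
            rw [h3, hj0] at hf
            exact (hinj hf).symm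
        · have key : ∀ x ∈ I, ∀ m, x.fst = w m → k + 1 = m → R.next (e k) ≠ e (k + 1) := by
            intro x hx m hm hkm
            obtain ⟨k', h3, h4⟩ := hback x hx
            have hf : (R.next (e k')).fst = w (k' + 1) := R.fst_next _
            rw [h4, hm] at hf
            have h5 : k' = k := by
              have h6 := hinj hf
              rw [← hkm] at h6
              exact (add_right_cancel h6).symm
            rw [← h5]
            exact h3
          rintro (h3 | h3)
          · exact key _ htI' j0 hj0 h3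
          · exact key _ htI i0 hi0 h3
      have hnext : R.next t = e j0 := by
        obtain ⟨k', h3, h4⟩ := hback _ htI'
        obtain ⟨-, -, h5⟩ := thr k' h3
        have hf : (R.next (e k')).fst = w (k' + 1) := R.fst_next _
        rw [h4] at h5 hf
        rw [hj0] at hf
        rw [next_eq, h5, ← hinj hf]
      have per : ∀ m : ℕ, 0 < m → m < 5 → R.next^[m] t ≠ t := by
        intro m hm hm5 h3
        have := sz_le R hm h3
        rw [ht5] at this
        have := Nat.le_of_dvd hm this
        omega
      have step : ∀ m : ℕ, m < 3 → R.next^[m + 1] t = e (j0 + m) →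
          R.next^[m + 2] t = e (j0 + (m + 1 : ℕ)) := by
        intro m hm h3
        have h4 : R.next^[m + 2] t = R.next (e (j0 + m)) := by
          rw [Function.iterate_succ_apply' R.next (m + 1) t, h3]
        by_cases h5 : R.next (e (j0 + m)) = e (j0 + m + 1)
        · rw [h4, h5]
          congr 1
          push_cast
          ring
        · exfalso
          rcases hIeq _ (inI _ h5) with h6 | h6
          · exact per (m + 2) (by omega) (by omega) (h4.trans h6)
          · have h7 : R.face (R.next^[m + 2] t) = R.face t := by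
              rw [face_eq_iff]
              exact ⟨(m + 2 : ℕ), by rw [zpow_natCast, Equiv.Perm.coe_pow]⟩
            rw [h4, h6] at h7
            exact g.br t h7.symm
      have s1 : R.next^[1] t = e (j0 + (0 : ℕ)) := by
        rw [Nat.cast_zero, add_zero]
        exact hnext
      have s2 := step 0 (by norm_num) s1
      have s3 := step 1 (by norm_num) s2
      have s4 := step 2 (by norm_num) s3
      have s5 : R.next^[5] t = t := by rw [← ht5]; exact next_sz R t
      have s6 : R.next (e (j0 + (3 : ℕ))) = t := by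
        have : R.next^[5] t = R.next (R.next^[4] t) := Function.iterate_succ_apply' R.next 4 t
        rw [s4] at this
        rw [← this]
        exact s5
      have s7 : i0 = j0 + 4 := by
        have hf : (R.next (e (j0 + (3 : ℕ)))).fst = w (j0 + (3 : ℕ) + 1) := R.fst_next _
        rw [s6, hi0] at hf
        rw [hinj hf]
        push_cast
        ring
      refine ⟨?_, ?_⟩
      · rw [← s7, ← hi0, ← hj0']
        exact t.adj.symm
      · intro k
        rw [← s7]
        exact hnt k
  · -- one vertex inside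
    right; left
    obtain ⟨x, hx⟩ := card_eq_one.1 h1
    have hxA : x ∈ A := by rw [hx]; exact mem_singleton_self x
    have hdeg : #IA = 3 := by
      rw [← hout, ← hh.cub x, ← G.dart_fst_fiber_card_eq_degree x]
      congr 1
      ext d
      simp only [mem_filter, mem_univ, true_and, hx, mem_singleton]
      constructor
      · exact fun h => h.1
      · exact fun h => ⟨h, fun h2 => d.adj.ne (h.trans h2.symm)⟩
    have hadj : ∃ i, G.Adj (w i) x := by
      obtain ⟨d, hd⟩ := card_pos.1 (by omega : 0 < #IA)
      rw [hIA, mem_filter] at hd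
      obtain ⟨i, hi⟩ := ((mI d).1 hd.1).2.1
      refine ⟨i, ?_⟩
      have h3 : d.snd = x := by
        have := hd.2
        rw [hx, mem_singleton] at this
        exact this
      rw [← hi, ← h3]
      exact d.adj
    obtain ⟨i, hi⟩ := hadj
    obtain ⟨d, hd⟩ := exd x
    have h3 := threeAt x hxA d hd (hh.cub x)
    have h4 : #DL ≤ l + 6 := by
      refine hDLc.trans ?_
      rw [hx, sum_singleton, hh.cub x]
      omega
    have f1 := g.four_le_sz d
    have f2 := g.four_le_sz (R.rot d)
    have f3 := g.four_le_sz (R.rot (R.rot d))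
    have d1 : (R.rot d).fst = x := by rw [R.fst_rot, hd]
    have d2 : (R.rot (R.rot d)).fst = x := by rw [R.fst_rot, d1]
    rcases (by omega : sz R d = 4 ∨ sz R (R.rot d) = 4 ∨ sz R (R.rot (R.rot d)) = 4) with
      h5 | h5 | h5
    · exact ⟨d, h5, Or.inr ⟨i, by rw [hd]; exact hi⟩⟩
    · exact ⟨_, h5, Or.inr ⟨i, by rw [d1]; exact hi⟩⟩
    · exact ⟨_, h5, Or.inr ⟨i, by rw [d2]; exact hi⟩⟩

end Pool.Agent.U2Geo
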