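import Mathlib
import Pool.Agent.Work.MP_392c8e_co_uni.LocC

/-!
# Closed walks of length at most eight in plane cubic graphs, local conditions
-/

namespace Pool.Agent.U2Geo

open Finset Pool.Agent.Sub392 Pool.T1Side Pool.Agent.T392 Pool.Agent.T1FF Pool.Agent.OddFlow

set_option linter.unusedSectionVars false

variable {V : Type} [Fintype V] [DecidableEq V] {G : SimpleGraph V} [DecidableRel G.Adj]
  {R : Rot G}

/-- No face of length four is at the vertex or at a neighbour, and the cuts at the vertex with at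
most three edges are trivial. -/
def FL (R : Rot G) (y : V) : Prop := FV R y ∧ CutAt G y

theorem NN.far {l : ℕ} [NeZero l] (hl : l ≤ 8) (w : ZMod l → V)
    (ha : ∀ i, G.Adj (w i) (w (i + 1))) {i0 : ZMod l} (h : NN R 8 (w i0)) (i : ZMod l) :
    FL R (w i) := by
  refine ⟨N4.far hl w ha h.1 i, ?_⟩
  obtain ⟨p, hp⟩ := walk_fwd w ha i0 (i - i0).val
  have h1 : i0 + ((i - i0).val : ℕ) = i := by
    rw [ZMod.natCast_zmod_val]; ring
  have h2 : (i - i0).val < l := ZMod.val_lt _
  refine h.2.at (p.copy rfl (by rw [h1])) ?_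
  rw [SimpleGraph.Walk.length_copy]
  omega

section cyc

variable {l : ℕ} [NeZero l]

/-- Turning right is the opposite of turning left. -/
theorem CB.turn_iff (hh : CB R) (w : ZMod l → V) (ha : ∀ i, G.Adj (w i) (w (i + 1)))
    (hb : ∀ i, w i ≠ w (i + 2)) (i : ZMod l) :
    R.rot (ed w ha (i + 1)) = (ed w ha i).symm ↔ R.next (ed w ha i) ≠ ed w ha (i + 1) := by
  have g := hh.gb
  have hPQ := pq_ne w ha hb i
  constructor
  · intro h h1
    rw [← h1, next_eq] at h
    have h4 : G.degree (ed w ha i).symm.fst ∣ 2 := by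
      rw [deg_eq R]
      exact Function.IsPeriodicPt.minimalPeriod_dvd (n := 2) h
    rw [hh.cub] at h4
    omega
  · intro h
    by_contra h1
    have h2 : R.rot (ed w ha i).symm = R.rot (ed w ha (i + 1)) :=
      third_unique g.deg3 hPQ rfl (R.fst_rot _) (R.fst_rot _) (g.rot_ne _) h h1 (g.rot_ne _)
    exact hPQ (R.rot.injective h2)

/-- **The two sides of a cycle of length at most eight.** -/
theorem CB.sidesT (hh : CB R) (hl : l ≤ 8) (w : ZMod l → V)
    (ha : ∀ i, G.Adj (w i) (w (i + 1))) (hb : ∀ i, w i ≠ w (i + 2)) (hinj : Function.Injective w)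
    (hl4 : 4 ≤ l) (h4 : ∀ i, FL R (w i)) :
    (∀ i, R.next (ed w ha i) = ed w ha (i + 1)) ∨
    (∀ i, R.next (ed w ha i) ≠ ed w ha (i + 1)) ∨
    (l = 8 ∧ (#{i : ZMod l | R.next (ed w ha i) = ed w ha (i + 1)} = 4 ∨
      ∃ j, G.Adj (w j) (w (j + 4)) ∧
        ((∀ k, R.next (ed w ha k) ≠ ed w ha (k + 1) ↔ k + 1 = j ∨ k + 1 = j + 4) ∨
          ∀ k, R.next (ed w ha k) = ed w ha (k + 1) ↔ k + 1 = j ∨ k + 1 = j + 4))) := by
  classical
  have g := hh.gb
  -- the reversed walk
  set w' : ZMod l → V := fun i => w (-i) with hw'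
  have ha' : ∀ i, G.Adj (w' i) (w' (i + 1)) := by
    intro i
    have h1 := ha (-(i + 1))
    rw [show -(i + 1) + 1 = -i by ring] at h1
    exact h1.symm
  have hb' : ∀ i, w' i ≠ w' (i + 2) := by
    intro i h
    have h1 := hb (-(i + 2))
    rw [show -(i + 2) + 2 = -i by ring] at h1
    exact h1 h.symm
  have hinj' : Function.Injective w' := fun i j h => neg_injective (hinj h)
  have hed : ∀ i, ed w' ha' (-(i + 2)) = (ed w ha (i + 1)).symm := by
    intro i
    refine SimpleGraph.Dart.ext _ _ (Prod.ext ?_ ?_)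
    · show w (- -(i + 2)) = w (i + 1 + 1)
      congr 1
      ring
    · show w (-(-(i + 2) + 1)) = w (i + 1)
      congr 1
      ring
  have hed2 : ∀ i, ed w' ha' (-(i + 2) + 1) = (ed w ha i).symm := by
    intro i
    refine SimpleGraph.Dart.ext _ _ (Prod.ext ?_ ?_)
    · show w (-(-(i + 2) + 1)) = w (i + 1)
      congr 1
      ring
    · show w (-(-(i + 2) + 1 + 1)) = w i
      congr 1
      ring
  have rev : ∀ i, R.next (ed w' ha' (-(i + 2))) = ed w' ha' (-(i + 2) + 1) ↔
      R.next (ed w ha i) ≠ ed w ha (i + 1) := by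
    intro i
    rw [hed, hed2, next_eq, SimpleGraph.Dart.symm_symm]
    exact hh.turn_iff w ha hb i
  have hcount : #{i : ZMod l | R.next (ed w' ha' i) ≠ ed w' ha' (i + 1)} =
      #{i : ZMod l | R.next (ed w ha i) = ed w ha (i + 1)} := by
    symm
    refine Finset.card_bij (fun i _ => -(i + 2)) ?_ ?_ ?_
    · intro i hi
      simp only [mem_filter, mem_univ, true_and] at hi ⊢
      intro h
      exact (rev i).1 h hi
    · intro i _ j _ h
      have := neg_injective h
      exact add_right_cancel this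
    · intro j hj
      refine ⟨-j - 2, ?_, by ring⟩
      simp only [mem_filter, mem_univ, true_and] at hj ⊢
      by_contra hcon
      have h1 := (rev (-j - 2)).2 hcon
      rw [show -(-j - 2 + 2) = j by ring] at h1
      exact hj h1
  have hsum := card_filter_add_card_filter_not (s := (univ : Finset (ZMod l)))
    (fun i => R.next (ed w ha i) = ed w ha (i + 1))
  rw [card_univ, ZMod.card] at hsum
  have e4 : #{i : ZMod l | ¬ R.next (ed w ha i) = ed w ha (i + 1)} =
    #{i : ZMod l | R.next (ed w ha i) ≠ ed w ha (i + 1)} := rfl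
  rcases (by omega : #{i : ZMod l | R.next (ed w ha i) ≠ ed w ha (i + 1)} ≤ 3 ∨
    #{i : ZMod l | R.next (ed w' ha' i) ≠ ed w' ha' (i + 1)} ≤ 3 ∨
    (l = 8 ∧ #{i : ZMod l | R.next (ed w ha i) = ed w ha (i + 1)} = 4)) with h | h | h
  · rcases hh.leftT hl w ha hb hinj hl4 (fun i => (h4 i).2) h with h1 | ⟨t, h1, ⟨i, h2⟩ | ⟨i, h2⟩⟩ | ⟨h1, j, h2, h3⟩
    · exact Or.inl h1
    · exact absurd h2 ((h4 i).1 t h1).1
    · exact absurd h2 ((h4 i).1 t h1).2
    · exact Or.inr (Or.inr ⟨h1, Or.inr ⟨j, h2, Or.inl h3⟩⟩)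
  · rcases hh.leftT hl w' ha' hb' hinj' hl4 (fun i => (h4 (-i)).2) h with h1 | ⟨t, h1, ⟨i, h2⟩ | ⟨i, h2⟩⟩ |
      ⟨h1, j, h2, h3⟩
    · right; left
      intro i
      exact (rev i).1 (h1 _)
    · exact absurd h2 ((h4 (-i)).1 t h1).1
    · exact absurd h2 ((h4 (-i)).1 t h1).2
    · refine Or.inr (Or.inr ⟨h1, Or.inr ⟨-(j + 4), ?_, Or.inr fun k => ?_⟩⟩)
      · rw [show -(j + 4) + 4 = -j by ring]
        exact h2.symm
      · have h5 := h3 (-(k + 2))
        have h6 := rev k
        constructor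
        · intro h7
          rcases h5.1 (fun h8 => (h6.1 h8) h7) with h8 | h8
          · right
            have h9 : k + 1 = -(-(k + 2) + 1) := by ring
            rw [h9, h8]; ring
          · left
            have h9 : k + 1 = -(-(k + 2) + 1) := by ring
            rw [h9, h8]
        · intro h7
          by_contra h8
          refine (h5.2 ?_) (h6.2 h8)
          rcases h7 with h7 | h7
          · right
            have h9 : -(k + 2) + 1 = -(k + 1) := by ring
            rw [h9, h7]; ring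
          · left
            have h9 : -(k + 2) + 1 = -(k + 1) := by ring
            rw [h9, h7]; ring
  · exact Or.inr (Or.inr ⟨h.1, Or.inl h.2⟩)

/-- The face of a walk all whose turns are to the right. -/
theorem CB.face_of_right (hh : CB R) (w : ZMod l → V) (ha : ∀ i, G.Adj (w i) (w (i + 1)))
    (hb : ∀ i, w i ≠ w (i + 2))
    (h : ∀ i, R.next (ed w ha i) ≠ ed w ha (i + 1)) (i : ZMod l) (n : ℕ) :
    R.next^[n] (ed w ha i).symm = (ed w ha (i - n)).symm := by
  induction n with
  | zero => simp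
  | succ n ih =>
    rw [Function.iterate_succ_apply', ih, next_eq, SimpleGraph.Dart.symm_symm]
    have h1 := (hh.turn_iff w ha hb (i - n - 1)).2 (h _)
    rw [sub_add_cancel] at h1
    rw [h1]
    congr 2
    push_cast
    ring

theorem CB.sz_of_left (hh : CB R) (hl : l ≤ 7) (w : ZMod l → V) (ha : ∀ i, G.Adj (w i) (w (i + 1)))
    (h : ∀ i, R.next (ed w ha i) = ed w ha (i + 1)) (i : ZMod l) : sz R (ed w ha i) = l := by
  have h1 := face_of_left w ha h i l
  rw [ZMod.natCast_self, add_zero] at h1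
  have h2 := sz_le R (Nat.pos_of_ne_zero (NeZero.ne l)) h1
  have h3 := hh.gb.four_le_sz (ed w ha i)
  obtain ⟨k, hk⟩ := h2
  have hl0 := NeZero.ne l
  rcases (by omega : k = 0 ∨ k = 1 ∨ 2 ≤ k) with h | h | h
  · subst h; omega
  · subst h; omega
  · exfalso
    nlinarith

theorem CB.sz_of_right (hh : CB R) (hl : l ≤ 7) (w : ZMod l → V) (ha : ∀ i, G.Adj (w i) (w (i + 1)))
    (hb : ∀ i, w i ≠ w (i + 2))
    (h : ∀ i, R.next (ed w ha i) ≠ ed w ha (i + 1)) (i : ZMod l) :
    sz R (ed w ha i).symm = l := by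
  have h1 := hh.face_of_right w ha hb h i l
  rw [ZMod.natCast_self, sub_zero] at h1
  have h2 := sz_le R (Nat.pos_of_ne_zero (NeZero.ne l)) h1
  have h3 := hh.gb.four_le_sz (ed w ha i).symm
  obtain ⟨k, hk⟩ := h2
  have hl0 := NeZero.ne l
  rcases (by omega : k = 0 ∨ k = 1 ∨ 2 ≤ k) with h | h | h
  · subst h; omega
  · subst h; omega
  · exfalso
    nlinarith

/-- No closed walk of length four. -/
theorem CB.no4Z (hh : CB R) (w : ZMod 4 → V) (ha : ∀ i, G.Adj (w i) (w (i + 1)))
    (hb : ∀ i, w i ≠ w (i + 2)) (h4 : ∀ i, FL R (w i)) : False := by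
  have hinj := inj_of_short hh.tri (by norm_num) w ha hb
  rcases hh.sidesT (by norm_num) w ha hb hinj le_rfl h4 with h | h | h
  · exact ((h4 0).1 _ (hh.sz_of_left (by norm_num) w ha h 0)).1 rfl
  · exact ((h4 _).1 _ (hh.sz_of_right (by norm_num) w ha hb h 0)).1 rfl
  · exact absurd h.1 (by norm_num)

end cyc

/-- Closed walks of length eight have no repeated vertices. -/
theorem CB.inj8 (hh : CB R) (w : ZMod 8 → V) (ha : ∀ i, G.Adj (w i) (w (i + 1)))
    (hb : ∀ i, w i ≠ w (i + 2)) (hf : ∀ i, FL R (w i)) : Function.Injective w := by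
  have h1 : ∀ i, w i ≠ w (i + 1) := fun i => (ha i).ne
  have h3 : ∀ i, w i ≠ w (i + 3) := by
    intro i hi
    have a1 := ha i
    have a2 := ha (i + 1)
    have a3 := ha (i + 2)
    rw [add_assoc, show (1 + 1 : ZMod 8) = 2 by decide] at a2
    rw [add_assoc, show (2 + 1 : ZMod 8) = 3 by decide, ← hi] at a3
    exact no_tri hh.tri a1 a2 a3.symm
  have h4 : ∀ i, w i ≠ w (i + 4) := by
    intro i hi
    have a1 := ha i
    have a2 := ha (i + 1)
    have a3 := ha (i + 2)
    have a4 := ha (i + 3)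
    have b1 := hb i
    have b2 := hb (i + 1)
    rw [add_assoc, show (1 + 1 : ZMod 8) = 2 by decide] at a2
    rw [add_assoc, show (2 + 1 : ZMod 8) = 3 by decide] at a3
    rw [add_assoc, show (3 + 1 : ZMod 8) = 4 by decide, ← hi] at a4
    rw [add_assoc, show (1 + 2 : ZMod 8) = 3 by decide] at b2
    let u : ZMod 4 → V := ![w i, w (i + 1), w (i + 2), w (i + 3)]
    have hb4 : ∀ k : ZMod 4, u k ≠ u (k + 2) := by
      intro k
      fin_cases k
      · exact b1
      · exact b2
      · exact b1.symm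
      · exact b2.symm
    have ha4 : ∀ k : ZMod 4, G.Adj (u k) (u (k + 1)) := by
      intro k
      fin_cases k
      · exact a1
      · exact a2
      · exact a3
      · exact a4
    refine hh.no4Z u ha4 hb4 ?_
    intro k
    fin_cases k
    · exact hf _
    · exact hf _
    · exact hf _
    · exact hf _
  intro i j hij
  by_contra hne
  obtain ⟨k, rfl⟩ : ∃ k, j = i + k := ⟨j - i, by ring⟩
  have key : ∀ k : ZMod 8, k = 0 ∨ k = 1 ∨ k = 2 ∨ k = 3 ∨ k = 4 ∨ k = -3 ∨ k = -2 ∨ k = -1 := by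
    decide
  rcases key k with rfl | rfl | rfl | rfl | rfl | rfl | rfl | rfl
  · exact hne (by ring)
  · exact h1 _ hij
  · exact hb _ hij
  · exact h3 _ hij
  · exact h4 _ hij
  · refine h3 (i + -3) ?_
    rw [← hij]; congr 1; ring
  · refine hb (i + -2) ?_
    rw [← hij]; congr 1; ring
  · refine h1 (i + -1) ?_
    rw [← hij]; congr 1; ring

end Pool.Agent.U2Geo
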