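import Mathlib
import Pool.Agent.Work.MP_392c8e_co_uni.MainOf
import Pool.Agent.Work.MP_392c8e_co_uni.FamilyB
import Pool.Agent.Work.MP_392c8e_co_uni.DischB4

/-!
# The uniform bound for cyclically 5-edge-connected plane cubic graphs from the table of places
-/

namespace Pool.Agent.Uni21

open Finset Pool.Agent.Sub392 Pool.Agent.T392 Pool.Agent.U2Geo Pool.Agent.Disch392
open Pool.Agent.DischB
open Pool.Agent.Uni392 (StrictN Place MidG PlOK AtCat family_coreB CE GdB)

set_option linter.unusedSectionVars false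

variable {V : Type} [Fintype V] [DecidableEq V] {G : SimpleGraph V} [DecidableRel G.Adj]

/-- The tables are monotone. -/
theorem tabB_mono {R : Rot G} {K : ℕ} {P Q : V → Prop} (h : ∀ v, P v → Q v) (hT : TabB R K P) :
    TabB R K Q where
  m2 := fun d a b c e f g => h _ (hT.m2 d a b c e f g)
  m3 := fun d a b c e f g => h _ (hT.m3 d a b c e f g)
  m6 := fun d a b c e f g i => h _ (hT.m6 d a b c e f g i)
  flower := fun d a b => h _ (hT.flower d a b)
  z4 := fun d a b c e f => h _ (hT.z4 d a b c e f)
  r2 := fun d a b c => h _ (hT.r2 d a b c)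
  l2 := fun d a b c => h _ (hT.l2 d a b c)
  g1 := fun d a b c e f g => h _ (hT.g1 d a b c e f g)
  p2 := fun d a b c => h _ (hT.p2 d a b c)
  p1 := fun d a b c e f => h _ (hT.p1 d a b c e f)
  g2 := fun d a b c e => h _ (hT.g2 d a b c e)
  g2r := fun d a b c e => h _ (hT.g2r d a b c e)
  g3 := fun d a b c e f g i => h _ (hT.g3 d a b c e f g i)

/-- The constant. -/
def NB (r : ℕ) : ℕ := 300 * (300 * (3000000 * CE 7 15 73 r + 1) + 1)

/-- **From the table of places to the bound.** -/
theorem strictN_of_tabB (R : Rot G) (hP : R.Plane) (hcub : ∀ v, G.degree v = 3)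
    (htri : G.CliqueFree 3) (hb : ∀ d, R.face d ≠ R.face d.symm) (h5 : ∀ d, 5 ≤ sz R d) {r : ℕ}
    (hT : TabB R 1000 (AtCat (PlOK R r))) (hT' : TabB (mir R) 1000 (AtCat (PlOK R r))) :
    StrictN G (NB r) := by
  obtain ⟨k, p, hp, hs, ht, X, hX⟩ := family_coreB (A := 7) (E := 15) (c := 13) hP hcub h5
    (by norm_num : 6 ≤ 1000) (PlOK R r) (fun _ h => h) hT hT' (by
      intro U
      refine (disch_locB (le_refl 1000) (le_refl 13) R hcub U).trans (le_of_eq ?_)
      push_cast
      congr 3
      congr 1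
      refine congrArg (fun s : Finset G.Dart => s.card) ?_
      ext d
      simp only [mem_filter, mem_univ, true_and]
      exact Iff.rfl)
  refine strictN_of_fam R hP hcub htri hb hp hs ht X ?_ hX
  unfold CE
  exact le_trans (by norm_num) (Nat.le_add_left _ _)

end Pool.Agent.Uni21
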