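import Mathlib
import Pool.Agent.Work.MP_392c8e_co_uni.GlueN3
import Pool.Agent.Work.MP_392c8e_co_uni.CutN

/-!
# Three-edge cuts in a smallest graph without colourings at level n: the middles

For a cut with three edges with distinct ends, pairwise not adjacent on both sides, the sets of
middles which occur on the two sides are nonempty and disjoint.  A side on which every middle
occurs is impossible.
-/

namespace Pool.Agent.CutN

open Pool.Agent.Red

set_option linter.unusedSectionVars false

variable {V : Type} [Fintype V] [DecidableEq V] {G : SimpleGraph V} {n : ℤ}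
  {X : V → Prop} {a b : Fin 3 → V}

/-- A cut with three edges and pairwise nonadjacent ends on the side `X`: the graph with the other
side contracted to one vertex has a colouring at level `n`. -/
theorem MinN.star_col (h : MinN n G) (hn : 2 ≤ n) (hc : CutK G X a b)
    (hna : ∀ i j, ¬ G.Adj (a i) (a j)) {z : V} (hz : ¬ X z) :
    ∃ c, IsCol n (starK G X a z hc.hX hz) c := by
  obtain ⟨w, hw, hbw⟩ := h.inner hn hc 0
  exact h.min V _ (pl_starK h.pl hc (h.conn hn (by decide) (by decide) hc) _ hz)
    (tri_starK h.tri hc.hX _ hz hna) (deg_starK h.deg (by decide) hc _ hz)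
    (edges_starK hc _ hz (hc.hY 0) hw hbw)

/-- Some middle occurs. -/
theorem MinN.middles_nonempty (h : MinN n G) (hn : 2 ≤ n) (hc : CutK G X a b)
    (hna : ∀ i j, ¬ G.Adj (a i) (a j)) : (Middles n G X a).Nonempty := by
  obtain ⟨c, hcol⟩ := h.star_col hn hc hna (hc.hY 0)
  obtain ⟨m, hm⟩ := exists_mid3_starK hcol
  exact ⟨m, c, isCol_side_of_starK hcol, hm⟩

/-- No middle occurs on both sides. -/
theorem MinN.middles_disjoint (h : MinN n G) (hc : CutK G X a b) :
    Disjoint (Middles n G X a) (Middles n G (fun v => ¬ X v) b) := by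
  rw [Set.disjoint_left]
  intro m h1 h2
  exact h.bad (colN_of_middles hc h1 h2)

/-- If the ends are pairwise nonadjacent on the other side, some middle does not occur. -/
theorem MinN.middles_ne_univ (h : MinN n G) (hn : 2 ≤ n) (hc : CutK G X a b)
    (hnb : ∀ i j, ¬ G.Adj (b i) (b j)) : Middles n G X a ≠ Set.univ := by
  intro h5
  obtain ⟨m, hm⟩ := h.middles_nonempty hn hc.compl hnb
  exact (Set.disjoint_left.1 (h.middles_disjoint hc)) (by rw [h5]; exact Set.mem_univ m) hm

/-- The middles of the two sides have together at most three elements. -/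
theorem MinN.ncard_middles (h : MinN n G) (hc : CutK G X a b) :
    (Middles n G X a).ncard + (Middles n G (fun v => ¬ X v) b).ncard ≤ 3 := by
  rw [← Set.ncard_union_eq (h.middles_disjoint hc) (Set.toFinite _) (Set.toFinite _)]
  have h8 := Set.ncard_le_ncard (Set.subset_univ (Middles n G X a ∪
    Middles n G (fun v => ¬ X v) b)) (Set.toFinite _)
  rwa [Set.ncard_univ, Nat.card_eq_fintype_card, Fintype.card_fin] at h8

/-- Every middle occurs at the vertex `z` with the neighbours `a i`. -/
def Rooted {W : Type*} (n : ℤ) (H : SimpleGraph W) (a : Fin 3 → W) : Prop :=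
  ∀ m, ∃ c, IsCol n H c ∧ Mid3 n (fun i => c (a i)) m

/-- **A cut with three edges is impossible if the contraction of one side is rooted** at the
contracted vertex. -/
theorem MinN.no_cut3_of_rooted (h : MinN n G) (hn : 2 ≤ n) (hc : CutK G X a b)
    (hnb : ∀ i j, ¬ G.Adj (b i) (b j)) {z : V} (hz : ¬ X z)
    (hr : Rooted n (starK G X a z hc.hX hz) a) : False := by
  refine h.middles_ne_univ hn hc hnb (Set.eq_univ_of_forall fun m => ?_)
  obtain ⟨c, hcol, hm⟩ := hr m
  exact ⟨c, isCol_side_of_starK hcol, hm⟩

/-- **Almost rooted is enough if the other side has two middles.** -/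
theorem MinN.no_cut3_of_two (h : MinN n G) (hc : CutK G X a b)
    (h1 : 2 ≤ (Middles n G X a).ncard) (h2 : 2 ≤ (Middles n G (fun v => ¬ X v) b).ncard) :
    False := by
  have := h.ncard_middles hc
  omega

end Pool.Agent.CutN
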