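import Mathlib
import Pool.Agent.Work.MP_392c8e_co_uni.GoodS

/-!
# One subdivided edge at a root of a graph of the base class

`subG L x s` is the graph `L` with the edge `x s` subdivided by the vertex `none`.  If `L` is in
the base class with the vertex `x` and `x` is cubic, then `subG L x s` is in the base class with
the vertex `some x`, if `s` is cubic or all neighbours of `s` are.
-/

namespace Pool.Agent.CutN

open Pool.Agent.Red Pool.Agent.T1Red Finset

set_option linter.unusedSectionVars false

variable {W : Type} [Fintype W] [DecidableEq W] {L : SimpleGraph W} {x s : W}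

theorem subG_some_some {u v : W} :
    (subG L x s).Adj (some u) (some v) ↔ L.Adj u v ∧ s(u, v) ≠ s(x, s) := by
  constructor
  · rintro (⟨u', v', h1, h2, h3, h4⟩ | ⟨h1, _⟩ | ⟨h1, _⟩)
    · cases h1
      cases h2
      exact ⟨h3, h4⟩
    · cases h1
    · cases h1
  · rintro ⟨h1, h2⟩
    exact Or.inl ⟨u, v, rfl, rfl, h1, h2⟩

theorem subG_none_some {v : W} : (subG L x s).Adj none (some v) ↔ v = x ∨ v = s := by
  constructor
  · rintro (⟨u', v', h1, _⟩ | ⟨_, h1⟩ | ⟨h1, _⟩)
    · cases h1
    · rcases h1 with h1 | h1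
      · exact Or.inl (Option.some.inj h1)
      · exact Or.inr (Option.some.inj h1)
    · cases h1
  · rintro (rfl | rfl)
    · exact Or.inr (Or.inl ⟨rfl, Or.inl rfl⟩)
    · exact Or.inr (Or.inl ⟨rfl, Or.inr rfl⟩)

theorem subG_some_none {v : W} : (subG L x s).Adj (some v) none ↔ v = x ∨ v = s := by
  rw [SimpleGraph.adj_comm]
  exact subG_none_some

theorem subG_none_none : ¬ (subG L x s).Adj none none := fun h => h.ne rfl

/-- The degree of the new vertex. -/
theorem deg_none (hs : L.Adj x s) : ((subG L x s).neighborSet none).ncard = 2 := by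
  have h1 : (subG L x s).neighborSet none = {some x, some s} := by
    ext (_ | v)
    · simp only [SimpleGraph.mem_neighborSet]
      constructor
      · exact fun h => absurd h subG_none_none
      · rintro (h | h)
        · exact absurd h (by simp)
        · exact absurd h (by simp)
    · simp only [SimpleGraph.mem_neighborSet, subG_none_some, Set.mem_insert_iff,
        Set.mem_singleton_iff, Option.some.injEq]
  rw [h1, Set.ncard_pair]
  simpa using hs.ne

/-- The degrees of the old vertices. -/
theorem deg_some (hs : L.Adj x s) (w : W) :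
    ((subG L x s).neighborSet (some w)).ncard = (L.neighborSet w).ncard := by
  classical
  let f : W → Option W := fun v => if s(w, v) = s(x, s) then none else some v
  have h1 : (subG L x s).neighborSet (some w) = f '' L.neighborSet w := by
    ext (_ | v)
    · simp only [SimpleGraph.mem_neighborSet, subG_some_none, Set.mem_image]
      constructor
      · rintro (rfl | rfl)
        · exact ⟨s, hs, by simp [f]⟩
        · exact ⟨x, hs.symm, by simp [f]⟩
      · rintro ⟨v, hv, h2⟩
        by_cases h3 : s(w, v) = s(x, s)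
        · rcases Sym2.eq_iff.1 h3 with ⟨h4, _⟩ | ⟨h4, _⟩
          · exact Or.inl h4
          · exact Or.inr h4
        · simp only [f, if_neg h3] at h2
          cases h2
    · simp only [SimpleGraph.mem_neighborSet, subG_some_some, Set.mem_image]
      constructor
      · rintro ⟨h2, h3⟩
        exact ⟨v, h2, by simp only [f, if_neg h3]⟩
      · rintro ⟨v', hv, h2⟩
        by_cases h3 : s(w, v') = s(x, s)
        · simp only [f, if_pos h3] at h2
          cases h2
        · simp only [f, if_neg h3, Option.some.injEq] at h2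
          subst h2
          exact ⟨hv, h3⟩
  rw [h1]
  refine Set.InjOn.ncard_image ?_
  intro a ha b hb hab
  by_cases h3 : s(w, a) = s(x, s)
  · by_cases h4 : s(w, b) = s(x, s)
    · have h5 : s(w, a) = s(w, b) := h3.trans h4.symm
      rcases Sym2.eq_iff.1 h5 with ⟨_, h6⟩ | ⟨h6, h7⟩
      · exact h6
      · exact h7.trans h6
    · simp only [f, if_pos h3, if_neg h4] at hab
      cases hab
  · by_cases h4 : s(w, b) = s(x, s)
    · simp only [f, if_neg h3, if_pos h4] at hab
      cases hab
    · simpa only [f, if_neg h3, if_neg h4, Option.some.injEq] using hab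

/-- The old part of a cut has at most as many edges. -/
theorem leave_old_le (L : SimpleGraph W) (x s : W) (B : Set (Option W)) :
    (leave L {w | some w ∈ B}).ncard ≤ (leave (subG L x s) B).ncard := by
  classical
  by_cases hB : none ∈ B
  · let f : W × W → Option W × Option W := fun p =>
      if s(p.1, p.2) = s(x, s) then (none, some p.2) else (some p.1, some p.2)
    refine Set.ncard_le_ncard_of_injOn f ?_ ?_ (Set.toFinite _)
    · rintro ⟨u, v⟩ ⟨h1, h2, h3⟩
      by_cases h4 : s(u, v) = s(x, s)
      · simp only [f, if_pos h4]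
        refine ⟨hB, h2, subG_none_some.2 ?_⟩
        rcases Sym2.eq_iff.1 h4 with ⟨_, h5⟩ | ⟨_, h5⟩
        · exact Or.inr h5
        · exact Or.inl h5
      · simp only [f, if_neg h4]
        exact ⟨h1, h2, subG_some_some.2 ⟨h3, h4⟩⟩
    · rintro ⟨u, v⟩ ⟨h1, h2, h3⟩ ⟨u', v'⟩ ⟨h1', h2', h3'⟩ h5
      by_cases h4 : s(u, v) = s(x, s)
      · by_cases h4' : s(u', v') = s(x, s)
        · simp only [f, if_pos h4, if_pos h4', Prod.mk.injEq, Option.some.injEq, true_and] at h5
          subst h5
          have h6 : s(u, v) = s(u', v) := h4.trans h4'.symm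
          rcases Sym2.eq_iff.1 h6 with ⟨rfl, _⟩ | ⟨rfl, h7⟩
          · rfl
          · exact absurd h3 (L.loopless.irrefl _)
        · simp only [f, if_pos h4, if_neg h4', Prod.mk.injEq] at h5
          exact absurd h5.1 (by simp)
      · by_cases h4' : s(u', v') = s(x, s)
        · simp only [f, if_neg h4, if_pos h4', Prod.mk.injEq] at h5
          exact absurd h5.1 (by simp)
        · simpa only [f, if_neg h4, if_neg h4', Prod.mk.injEq, Option.some.injEq] using h5
  · let f : W × W → Option W × Option W := fun p =>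
      if s(p.1, p.2) = s(x, s) then (some p.1, none) else (some p.1, some p.2)
    refine Set.ncard_le_ncard_of_injOn f ?_ ?_ (Set.toFinite _)
    · rintro ⟨u, v⟩ ⟨h1, h2, h3⟩
      by_cases h4 : s(u, v) = s(x, s)
      · simp only [f, if_pos h4]
        refine ⟨h1, hB, subG_some_none.2 ?_⟩
        rcases Sym2.eq_iff.1 h4 with ⟨h5, _⟩ | ⟨h5, _⟩
        · exact Or.inl h5
        · exact Or.inr h5
      · simp only [f, if_neg h4]
        exact ⟨h1, h2, subG_some_some.2 ⟨h3, h4⟩⟩
    · rintro ⟨u, v⟩ ⟨h1, h2, h3⟩ ⟨u', v'⟩ ⟨h1', h2', h3'⟩ h5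
      by_cases h4 : s(u, v) = s(x, s)
      · by_cases h4' : s(u', v') = s(x, s)
        · simp only [f, if_pos h4, if_pos h4', Prod.mk.injEq, Option.some.injEq, and_true] at h5
          subst h5
          have h6 : s(u, v) = s(u, v') := h4.trans h4'.symm
          rcases Sym2.eq_iff.1 h6 with ⟨_, rfl⟩ | ⟨h6, rfl⟩
          · rfl
          · exact absurd h3 (L.loopless.irrefl _)
        · simp only [f, if_pos h4, if_neg h4', Prod.mk.injEq] at h5
          exact absurd h5.2 (by simp)
      · by_cases h4' : s(u', v') = s(x, s)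
        · simp only [f, if_neg h4, if_pos h4', Prod.mk.injEq] at h5
          exact absurd h5.2 (by simp)
        · simpa only [f, if_neg h4, if_neg h4', Prod.mk.injEq, Option.some.injEq] using h5

/-- The new vertex is the only vertex of a side or of its complement. -/
theorem leave_none (hs : L.Adj x s) : (leave (subG L x s) {none}).ncard = 2 := by
  rw [leave_singleton, deg_none hs]

/-- A new vertex in a side without `x` and `s` gives two more edges. -/
theorem leave_old_lt (hs : L.Adj x s) (B : Set (Option W)) (hB : none ∈ B) (hx : some x ∉ B)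
    (hs' : some s ∉ B) :
    (leave L {w | some w ∈ B}).ncard + 2 ≤ (leave (subG L x s) B).ncard := by
  classical
  let f : W × W → Option W × Option W := fun p => (some p.1, some p.2)
  have hf : Function.Injective f := by
    rintro ⟨u, v⟩ ⟨u', v'⟩ h
    simpa only [f, Prod.mk.injEq, Option.some.injEq] using h
  have h1 : (f '' leave L {w | some w ∈ B}) ∪ {(none, some x), (none, some s)} ⊆
      leave (subG L x s) B := by
    rintro ⟨p, q⟩ (⟨⟨u, v⟩, ⟨h1, h2, h3⟩, h4⟩ | h4)
    · obtain ⟨rfl, rfl⟩ := Prod.mk.inj h4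
      refine ⟨h1, h2, subG_some_some.2 ⟨h3, fun h5 => ?_⟩⟩
      rcases Sym2.eq_iff.1 h5 with ⟨h6, _⟩ | ⟨h6, _⟩
      · have h6' : u = x := h6
        subst h6'
        exact hx h1
      · have h6' : u = s := h6
        subst h6'
        exact hs' h1
    · rcases h4 with h4 | h4
      · obtain ⟨rfl, rfl⟩ := Prod.mk.inj h4
        exact ⟨hB, hx, subG_none_some.2 (Or.inl rfl)⟩
      · obtain ⟨rfl, rfl⟩ := Prod.mk.inj h4
        exact ⟨hB, hs', subG_none_some.2 (Or.inr rfl)⟩
  have h2 : Disjoint (f '' leave L {w | some w ∈ B})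
      ({(none, some x), (none, some s)} : Set (Option W × Option W)) := by
    rw [Set.disjoint_left]
    rintro ⟨p, q⟩ ⟨⟨u, v⟩, _, h4⟩ h5
    obtain ⟨rfl, rfl⟩ := Prod.mk.inj h4
    rcases h5 with h5 | h5
    · exact absurd (Prod.mk.inj h5).1 (by simp)
    · exact absurd (Prod.mk.inj h5).1 (by simp)
  have h3 := Set.ncard_le_ncard h1 (Set.toFinite _)
  rw [Set.ncard_union_eq h2 (Set.toFinite _) (Set.toFinite _),
    Set.ncard_image_of_injective _ hf, Set.ncard_pair] at h3
  · exact h3
  · intro h4
    have := (Prod.mk.inj h4).2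
    simp only [Option.some.injEq] at this
    exact hs.ne this

/-- Planarity. -/
theorem pl_subG (h : Pl L) (hs : L.Adj x s) : Pl (subG L x s) := by
  classical
  let L' : SimpleGraph (Option W) :=
    { Adj := fun u v => ∃ a b, u = some a ∧ v = some b ∧ L.Adj a b
      symm := ⟨by
        rintro u v ⟨a, b, rfl, rfl, h⟩
        exact ⟨b, a, rfl, rfl, h.symm⟩⟩
      loopless := ⟨by
        rintro u ⟨a, b, rfl, h1, h2⟩
        cases h1
        exact L.loopless.irrefl _ h2⟩ }
  have h' : Pl L' := by
    obtain ⟨E, F, _, _, _, _, p, q, l, r, ⟨g1, g2, g3⟩, ho, hf⟩ := h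
    have hinc : ∀ (v : W) (e : E),
        inc (fun e => (some (p e) : Option W)) (fun e => some (q e)) (some v) e = inc p q v e := by
      intro v e
      unfold inc
      simp only [Option.some.injEq]
    have hinc' : ∀ e : E,
        inc (fun e => (some (p e) : Option W)) (fun e => some (q e)) none e = 0 := by
      intro e
      unfold inc
      simp
    refine ⟨E, F, inferInstance, inferInstance, inferInstance, inferInstance,
      fun e => some (p e), fun e => some (q e), l, r,
      ⟨fun e => ⟨_, _, rfl, rfl, g1 e⟩, ?_, ?_⟩, ?_, ?_⟩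
    · rintro u v ⟨a, b, rfl, rfl, hab⟩
      obtain ⟨e, he⟩ := g2 a b hab
      refine ⟨e, ?_⟩
      rcases Sym2.eq_iff.1 he with ⟨h5, h6⟩ | ⟨h5, h6⟩
      · exact Sym2.eq_iff.2 (Or.inl ⟨congrArg some h5, congrArg some h6⟩)
      · exact Sym2.eq_iff.2 (Or.inr ⟨congrArg some h5, congrArg some h6⟩)
    · intro e e' hee
      refine g3 ?_
      rcases Sym2.eq_iff.1 hee with ⟨h5, h6⟩ | ⟨h5, h6⟩
      · exact Sym2.eq_iff.2 (Or.inl ⟨Option.some.inj h5, Option.some.inj h6⟩)
      · exact Sym2.eq_iff.2 (Or.inr ⟨Option.some.inj h5, Option.some.inj h6⟩)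
    · rintro (_ | v) y
      · simp only [hinc', zero_mul, sum_const_zero]
      · simp only [hinc]
        exact ho v y
    · intro g hg
      refine hf g fun v => ?_
      have := hg (some v)
      simp only [hinc] at this
      exact this
  refine h'.subdiv (a := some x) (b := some s) (u := none) ⟨x, s, rfl, rfl, hs⟩ ?_ ?_
  · rintro v ⟨a, b, h1, _, _⟩
    cases h1
  · rintro (_ | u) (_ | v)
    · constructor
      · exact fun h => absurd h subG_none_none
      · rintro (⟨⟨a, b, h1, _, _⟩, _⟩ | h1 | h1)
        · cases h1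
        · rcases Sym2.eq_iff.1 h1 with ⟨h2, _⟩ | ⟨_, h2⟩ <;> cases h2
        · rcases Sym2.eq_iff.1 h1 with ⟨_, h2⟩ | ⟨h2, _⟩ <;> cases h2
    · rw [subG_none_some]
      constructor
      · rintro (rfl | rfl)
        · exact Or.inr (Or.inl Sym2.eq_swap)
        · exact Or.inr (Or.inr rfl)
      · rintro (⟨⟨a, b, h1, _, _⟩, _⟩ | h1 | h1)
        · cases h1
        · rcases Sym2.eq_iff.1 h1 with ⟨h2, _⟩ | ⟨_, h2⟩
          · cases h2
          · exact Or.inl (Option.some.inj h2)
        · rcases Sym2.eq_iff.1 h1 with ⟨_, h2⟩ | ⟨h2, _⟩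
          · exact Or.inr (Option.some.inj h2)
          · cases h2
    · rw [subG_some_none]
      constructor
      · rintro (rfl | rfl)
        · exact Or.inr (Or.inl rfl)
        · exact Or.inr (Or.inr Sym2.eq_swap)
      · rintro (⟨⟨a, b, _, h1, _⟩, _⟩ | h1 | h1)
        · cases h1
        · rcases Sym2.eq_iff.1 h1 with ⟨h2, _⟩ | ⟨h3, h2⟩
          · exact Or.inl (Option.some.inj h2)
          · cases h3
        · rcases Sym2.eq_iff.1 h1 with ⟨h2, _⟩ | ⟨h2, _⟩
          · cases h2
          · exact Or.inr (Option.some.inj h2)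
    · rw [subG_some_some]
      constructor
      · rintro ⟨h1, h2⟩
        refine Or.inl ⟨⟨u, v, rfl, rfl, h1⟩, fun h3 => h2 ?_⟩
        rcases Sym2.eq_iff.1 h3 with ⟨h5, h6⟩ | ⟨h5, h6⟩
        · exact Sym2.eq_iff.2 (Or.inl ⟨Option.some.inj h5, Option.some.inj h6⟩)
        · exact Sym2.eq_iff.2 (Or.inr ⟨Option.some.inj h5, Option.some.inj h6⟩)
      · rintro (⟨⟨a, b, h1, h2, h3⟩, h4⟩ | h1 | h1)
        · cases h1
          cases h2
          refine ⟨h3, fun h5 => h4 ?_⟩
          rcases Sym2.eq_iff.1 h5 with ⟨h5, h6⟩ | ⟨h5, h6⟩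
          · exact Sym2.eq_iff.2 (Or.inl ⟨congrArg some h5, congrArg some h6⟩)
          · exact Sym2.eq_iff.2 (Or.inr ⟨congrArg some h5, congrArg some h6⟩)
        · rcases Sym2.eq_iff.1 h1 with ⟨_, h2⟩ | ⟨h2, _⟩ <;> cases h2
        · rcases Sym2.eq_iff.1 h1 with ⟨h2, _⟩ | ⟨_, h2⟩ <;> cases h2

/-- No triangles. -/
theorem tri_subG (h : L.CliqueFree 3) (x s : W) : (subG L x s).CliqueFree 3 := by
  have hL : ∀ a b c, L.Adj a b → L.Adj a c → L.Adj b c → False := fun a b c h1 h2 h3 =>
    h {a, b, c} (SimpleGraph.is3Clique_triple_iff.2 ⟨h1, h2, h3⟩)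
  have hm : ∀ y z, (subG L x s).Adj none y → (subG L x s).Adj none z →
      (subG L x s).Adj y z → False := by
    rintro (_ | y) (_ | z) h1 h2 h3
    · exact subG_none_none h1
    · exact subG_none_none h1
    · exact subG_none_none h2
    · rw [subG_none_some] at h1 h2
      obtain ⟨h5, h4⟩ := subG_some_some.1 h3
      rcases h1 with rfl | rfl <;> rcases h2 with rfl | rfl
      · exact L.loopless.irrefl _ h5
      · exact h4 rfl
      · exact h4 Sym2.eq_swap
      · exact L.loopless.irrefl _ h5
  intro t ht
  obtain ⟨a, b, c, hab, hac, hbc, rfl⟩ := SimpleGraph.is3Clique_iff.1 ht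
  rcases a with _ | a
  · exact hm _ _ hab hac hbc
  rcases b with _ | b
  · exact hm _ _ hab.symm hbc hac
  rcases c with _ | c
  · exact hm _ _ hac.symm hbc.symm hab
  exact hL a b c (subG_some_some.1 hab).1 (subG_some_some.1 hac).1 (subG_some_some.1 hbc).1

/-- No triangles, if all triangles of `L` use the edge `x s`. -/
theorem cliqueFree_subG (hs : L.Adj x s)
    (h : ∀ a b c, L.Adj a b → L.Adj b c → L.Adj a c →
      (a = x ∨ b = x ∨ c = x) ∧ (a = s ∨ b = s ∨ c = s)) : (subG L x s).CliqueFree 3 := by
  have hxs : x ≠ s := hs.ne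
  have hL : ∀ a b c, L.Adj a b → L.Adj a c → L.Adj b c → s(a, b) ≠ s(x, s) → s(a, c) ≠ s(x, s) →
      s(b, c) ≠ s(x, s) → False := by
    intro a b c h1 h2 h3 h4 h5 h6
    obtain ⟨h7, h8⟩ := h a b c h1 h3 h2
    rcases h7 with rfl | rfl | rfl <;> rcases h8 with rfl | rfl | rfl
    · exact hxs rfl
    · exact h4 rfl
    · exact h5 rfl
    · exact h4 Sym2.eq_swap
    · exact hxs rfl
    · exact h6 rfl
    · exact h5 Sym2.eq_swap
    · exact h6 Sym2.eq_swap
    · exact hxs rfl
  have hm : ∀ y z, (subG L x s).Adj none y → (subG L x s).Adj none z →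
      (subG L x s).Adj y z → False := by
    rintro (_ | y) (_ | z) h1 h2 h3
    · exact subG_none_none h1
    · exact subG_none_none h1
    · exact subG_none_none h2
    · rw [subG_none_some] at h1 h2
      obtain ⟨h5, h4⟩ := subG_some_some.1 h3
      rcases h1 with rfl | rfl <;> rcases h2 with rfl | rfl
      · exact L.loopless.irrefl _ h5
      · exact h4 rfl
      · exact h4 Sym2.eq_swap
      · exact L.loopless.irrefl _ h5
  intro t ht
  obtain ⟨a, b, c, hab, hac, hbc, rfl⟩ := SimpleGraph.is3Clique_iff.1 ht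
  rcases a with _ | a
  · exact hm _ _ hab hac hbc
  rcases b with _ | b
  · exact hm _ _ hab.symm hbc hac
  rcases c with _ | c
  · exact hm _ _ hac.symm hbc.symm hab
  obtain ⟨h1, h4⟩ := subG_some_some.1 hab
  obtain ⟨h2, h5⟩ := subG_some_some.1 hac
  obtain ⟨h3, h6⟩ := subG_some_some.1 hbc
  exact hL a b c h1 h2 h3 h4 h5 h6

/-- The edges which leave a pair of vertices. -/
theorem leave_pair (L : SimpleGraph W) {a b : W} (hab : a ≠ b) :
    (L.neighborSet a).ncard + (L.neighborSet b).ncard ≤ (leave L {a, b}).ncard + 2 := by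
  classical
  rw [← leave_singleton (G := L) a, ← leave_singleton (G := L) b]
  have h1 : leave L {a} ∪ leave L {b} ⊆ leave L {a, b} ∪ {(a, b), (b, a)} := by
    rintro ⟨u, v⟩ (⟨h1, h2, h3⟩ | ⟨h1, h2, h3⟩)
    · have h1' : u = a := h1
      subst h1'
      by_cases h4 : v = b
      · subst h4
        exact Or.inr (Or.inl rfl)
      · exact Or.inl ⟨Or.inl rfl, fun h5 => h5.elim h2 h4, h3⟩
    · have h1' : u = b := h1
      subst h1'
      by_cases h4 : v = a
      · subst h4
        exact Or.inr (Or.inr rfl)
      · exact Or.inl ⟨Or.inr rfl, fun h5 => h5.elim h4 h2, h3⟩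
  have h2 : Disjoint (leave L {a}) (leave L {b}) := by
    rw [Set.disjoint_left]
    rintro ⟨u, v⟩ ⟨h1, _, _⟩ ⟨h2, _, _⟩
    have h1' : u = a := h1
    have h2' : u = b := h2
    exact hab (h1'.symm.trans h2')
  have h3 := Set.ncard_le_ncard h1 (Set.toFinite _)
  rw [Set.ncard_union_eq h2 (Set.toFinite _) (Set.toFinite _)] at h3
  have h4 := Set.ncard_union_le (leave L {a, b}) {(a, b), (b, a)}
  have h5 : ({(a, b), (b, a)} : Set (W × W)).ncard ≤ 2 := Set.ncard_insert_le _ _ |>.trans (by
    rw [Set.ncard_singleton])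
  omega

/-- The edges which leave a pair of vertices which are not adjacent. -/
theorem leave_pair' (L : SimpleGraph W) {a b : W} (hab : a ≠ b) (hn : ¬ L.Adj a b) :
    (L.neighborSet a).ncard + (L.neighborSet b).ncard ≤ (leave L {a, b}).ncard := by
  classical
  rw [← leave_singleton (G := L) a, ← leave_singleton (G := L) b]
  have h1 : leave L {a} ∪ leave L {b} ⊆ leave L {a, b} := by
    rintro ⟨u, v⟩ (⟨h1, h2, h3⟩ | ⟨h1, h2, h3⟩)
    · have h1' : u = a := h1
      subst h1'
      refine ⟨Or.inl rfl, fun h5 => h5.elim h2 fun h6 => ?_, h3⟩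
      have h6' : v = b := h6
      subst h6'
      exact hn h3
    · have h1' : u = b := h1
      subst h1'
      refine ⟨Or.inr rfl, fun h5 => h5.elim (fun h6 => ?_) h2, h3⟩
      subst h6
      exact hn h3.symm
  have h2 : Disjoint (leave L {a}) (leave L {b}) := by
    rw [Set.disjoint_left]
    rintro ⟨u, v⟩ ⟨h1, _, _⟩ ⟨h2, _, _⟩
    have h1' : u = a := h1
    have h2' : u = b := h2
    exact hab (h1'.symm.trans h2')
  have h3 := Set.ncard_le_ncard h1 (Set.toFinite _)
  rw [Set.ncard_union_eq h2 (Set.toFinite _) (Set.toFinite _)] at h3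
  exact h3

/-- All degrees are at least two. -/
theorem BaseR.two_le {r : ℕ} (h : BaseR r L x) (hr : (L.neighborSet x).ncard = 3) (v : W) :
    2 ≤ (L.neighborSet v).ncard := by
  rw [← leave_singleton]
  refine h.two _ ⟨v, rfl⟩ fun h5 => ?_
  obtain ⟨w, hw⟩ : (L.neighborSet x).Nonempty :=
    (Set.ncard_pos (Set.toFinite _)).1 (by omega)
  have h7 : w ∈ ({v} : Set W) := by rw [h5]; exact Set.mem_univ w
  have h8 : x ∈ ({v} : Set W) := by rw [h5]; exact Set.mem_univ x
  have h7' : w = v := h7
  have h8' : x = v := h8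
  subst h7'
  subst h8'
  exact L.loopless.irrefl _ hw

/-- A side with two vertices and at most two leaving edges consists of two adjacent vertices of
degree two. -/
theorem BaseR.small_deg {r : ℕ} (h : BaseR r L x) (hr : (L.neighborSet x).ncard = 3) {A : Set W}
    (hA : A.ncard = 2) (h2 : (leave L A).ncard ≤ 2) :
    ∀ v ∈ A, (L.neighborSet v).ncard = 2 ∧ ∃ w, L.Adj v w ∧ (L.neighborSet w).ncard = 2 := by
  obtain ⟨a, b, hab, rfl⟩ := Set.ncard_eq_two.1 hA
  have h3 := leave_pair L hab
  have h4 := h.two_le hr a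
  have h5 := h.two_le hr b
  have h6 : L.Adj a b := by
    by_contra h7
    have := leave_pair' L hab h7
    omega
  rintro v (rfl | h7)
  · exact ⟨by omega, b, h6, by omega⟩
  · have h7' : v = b := h7
    subst h7'
    exact ⟨by omega, a, h6.symm, by omega⟩

/-- A small cut of the graph with a subdivided edge has a small side. -/
theorem BaseR.cut2_aux {r : ℕ} (h : BaseR r L x) (hr : (L.neighborSet x).ncard = 3)
    (hs : L.Adj x s)
    (hd : ∀ w, L.Adj s w → (L.neighborSet s).ncard = 3 ∨ (L.neighborSet w).ncard = 3)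
    (B : Set (Option W)) (h1 : (leave (subG L x s) B).ncard ≤ 2)
    (h2 : {w | some w ∈ B}.ncard ≤ 2) : B.ncard ≤ 2 := by
  classical
  have h3 := leave_old_le L x s B
  by_cases hB : none ∈ B
  · have h4 : B = insert none (some '' {w | some w ∈ B}) := by
      ext (_ | w)
      · exact ⟨fun _ => Or.inl rfl, fun _ => hB⟩
      · constructor
        · exact fun h => Or.inr ⟨w, h, rfl⟩
        · rintro (h | ⟨w', h, h5⟩)
          · cases h
          · cases h5
            exact h
    have h5 : B.ncard ≤ {w | some w ∈ B}.ncard + 1 := by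
      conv_lhs => rw [h4]
      refine (Set.ncard_insert_le _ _).trans ?_
      rw [Set.ncard_image_of_injective _ (Option.some_injective _)]
    by_contra h6
    have h7 : {w | some w ∈ B}.ncard = 2 := by omega
    have h8 := h.small_deg hr h7 (h3.trans h1)
    have h9 : some x ∉ B := fun h9 => by
      have := (h8 x h9).1
      omega
    have h10 : some s ∉ B := fun h10 => by
      obtain ⟨h11, w, h12, h13⟩ := h8 s h10
      rcases hd w h12 with h14 | h14 <;> omega
    have h11 := leave_old_lt hs B hB h9 h10
    have h12 : 2 ≤ (leave L {w | some w ∈ B}).ncard := by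
      refine h.two _ ?_ ?_
      · refine (Set.ncard_pos (Set.toFinite _)).1 ?_
        omega
      · intro h13
        have : x ∈ {w | some w ∈ B} := by rw [h13]; exact Set.mem_univ x
        exact h9 this
    omega
  · have h4 : B = some '' {w | some w ∈ B} := by
      ext (_ | w)
      · constructor
        · exact fun h => absurd h hB
        · rintro ⟨w, _, h⟩
          cases h
      · constructor
        · exact fun h => ⟨w, h, rfl⟩
        · rintro ⟨w', h, h5⟩
          cases h5
          exact h
    rw [h4, Set.ncard_image_of_injective _ (Option.some_injective _)]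
    exact h2

/-- Walks which avoid `x` survive. -/
theorem walk_subG {u v : W} (p : L.Walk u v) (A : Set W) (hx : x ∉ A)
    (hp : ∀ w ∈ p.support, w ∈ A) :
    ∃ q : (subG L x s).Walk (some u) (some v), q.length = p.length ∧
      ∀ w ∈ q.support, ∃ w' ∈ A, w = some w' := by
  induction p with
  | nil =>
    refine ⟨SimpleGraph.Walk.nil, rfl, ?_⟩
    intro w hw
    rw [SimpleGraph.Walk.support_nil, List.mem_singleton] at hw
    exact ⟨_, hp _ (SimpleGraph.Walk.start_mem_support _), hw⟩
  | @cons u u' v h p ih =>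
    have h1 : ∀ w ∈ p.support, w ∈ A := fun w hw => hp w (by
      rw [SimpleGraph.Walk.support_cons]
      exact List.mem_cons_of_mem _ hw)
    obtain ⟨q, h2, h3⟩ := ih h1
    have h4 : u ∈ A := hp u (SimpleGraph.Walk.start_mem_support _)
    have h5 : u' ∈ A := h1 u' (SimpleGraph.Walk.start_mem_support _)
    have h6 : (subG L x s).Adj (some u) (some u') := by
      refine subG_some_some.2 ⟨h, fun h7 => ?_⟩
      rcases Sym2.eq_iff.1 h7 with ⟨rfl, _⟩ | ⟨_, rfl⟩
      · exact hx h4
      · exact hx h5
    refine ⟨SimpleGraph.Walk.cons h6 q, ?_, ?_⟩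
    · rw [SimpleGraph.Walk.length_cons, SimpleGraph.Walk.length_cons, h2]
    · intro w hw
      rw [SimpleGraph.Walk.support_cons, List.mem_cons] at hw
      rcases hw with rfl | hw
      · exact ⟨u, h4, rfl⟩
      · exact h3 w hw

/-- The number of old edges of a cut with three edges which has `x` outside. -/
theorem leave_old_three (htwo : ∀ A : Set W, A.Nonempty → A ≠ Set.univ → 2 ≤ (leave L A).ncard)
    (hs : L.Adj x s) {B : Set (Option W)} (hx : some x ∉ B) (h3 : (leave (subG L x s) B).ncard = 3)
    (hne : {w | some w ∈ B}.Nonempty) :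
    (none ∈ B → some s ∈ B) ∧ (leave L {w | some w ∈ B}).ncard = 3 := by
  have h4 : none ∈ B → some s ∈ B := by
    intro h5
    by_contra h6
    have h7 := leave_old_lt hs B h5 hx h6
    have h8 := htwo {w | some w ∈ B} hne (fun h9 => by
      have : x ∈ {w | some w ∈ B} := by rw [h9]; exact Set.mem_univ x
      exact hx this)
    omega
  refine ⟨h4, le_antisymm ?_ ?_⟩
  · rw [← h3]
    exact leave_old_le L x s B
  · rw [← h3]
    refine Set.ncard_le_ncard_of_injOn
      (fun p : Option W × Option W => (p.1.getD s, p.2.getD x)) ?_ ?_ (Set.toFinite _)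
    · rintro ⟨_ | u, _ | v⟩ ⟨h1, h2, h5⟩
      · exact absurd h5 subG_none_none
      · rcases subG_none_some.1 h5 with rfl | rfl
        · exact ⟨h4 h1, hx, hs.symm⟩
        · exact absurd (h4 h1) h2
      · rcases subG_some_none.1 h5 with rfl | rfl
        · exact absurd h1 hx
        · exact ⟨h1, hx, hs.symm⟩
      · exact ⟨h1, h2, (subG_some_some.1 h5).1⟩
    · have key : ∀ p ∈ leave (subG L x s) B,
          (p = (none, some x) ∧ none ∈ B) ∨ (p = (some s, none) ∧ none ∉ B) ∨
          ∃ u v, p = (some u, some v) ∧ s(u, v) ≠ s(x, s) := by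
        rintro ⟨_ | u, _ | v⟩ ⟨h1, h2, h5⟩
        · exact absurd h5 subG_none_none
        · rcases subG_none_some.1 h5 with rfl | rfl
          · exact Or.inl ⟨rfl, h1⟩
          · exact absurd (h4 h1) h2
        · rcases subG_some_none.1 h5 with rfl | rfl
          · exact absurd h1 hx
          · exact Or.inr (Or.inl ⟨rfl, h2⟩)
        · exact Or.inr (Or.inr ⟨u, v, rfl, (subG_some_some.1 h5).2⟩)
      intro p hp q hq hpq
      rcases key p hp with ⟨rfl, h5⟩ | ⟨rfl, h5⟩ | ⟨u, v, rfl, h5⟩ <;>
        rcases key q hq with ⟨rfl, h6⟩ | ⟨rfl, h6⟩ | ⟨u', v', rfl, h6⟩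
      · rfl
      · exact absurd h5 h6
      · obtain ⟨h7, h8⟩ := Prod.mk.inj hpq
        have h7' : s = u' := h7
        have h8' : x = v' := h8
        subst h7'
        subst h8'
        exact absurd Sym2.eq_swap h6
      · exact absurd h6 h5
      · rfl
      · obtain ⟨h7, h8⟩ := Prod.mk.inj hpq
        have h7' : s = u' := h7
        have h8' : x = v' := h8
        subst h7'
        subst h8'
        exact absurd Sym2.eq_swap h6
      · obtain ⟨h7, h8⟩ := Prod.mk.inj hpq
        have h7' : u = s := h7
        have h8' : v = x := h8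
        subst h7'
        subst h8'
        exact absurd Sym2.eq_swap h5
      · obtain ⟨h7, h8⟩ := Prod.mk.inj hpq
        have h7' : u = s := h7
        have h8' : v = x := h8
        subst h7'
        subst h8'
        exact absurd Sym2.eq_swap h5
      · obtain ⟨h7, h8⟩ := Prod.mk.inj hpq
        have h7' : u = u' := h7
        have h8' : v = v' := h8
        subst h7'
        subst h8'
        rfl

/-- The old part of a thick side is thick. -/
theorem thick_old (hs : L.Adj x s) {B : Set (Option W)} (h : Thick (subG L x s) B) :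
    Thick L {w | some w ∈ B} := by
  unfold Thick at h ⊢
  have h5 : {v | v ∈ B ∧ ((subG L x s).neighborSet v).ncard = 3} =
      some '' {v | v ∈ {w | some w ∈ B} ∧ (L.neighborSet v).ncard = 3} := by
    ext (_ | v)
    · constructor
      · rintro ⟨_, h6⟩
        rw [deg_none hs] at h6
        omega
      · rintro ⟨w, _, h⟩
        cases h
    · constructor
      · rintro ⟨h6, h7⟩
        rw [deg_some hs] at h7
        exact ⟨v, ⟨h6, h7⟩, rfl⟩
      · rintro ⟨w, ⟨h6, h7⟩, h8⟩
        cases h8
        exact ⟨h6, by rw [deg_some hs]; exact h7⟩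
  rw [h5, Set.ncard_image_of_injective _ (Option.some_injective _)] at h
  exact h

/-- Every end of a thick side with three leaving edges is near a vertex of degree two inside. -/
theorem BaseR.near_subG {r : ℕ} (h : BaseR r L x) (hs : L.Adj x s) (B : Set (Option W))
    (hx : some x ∉ B) (hB : Th3 (subG L x s) B) : EX (subG L x s) r B := by
  have hin' := thick_old hs hB.inn
  have hout' : Thick L {w | some w ∈ B}ᶜ := thick_old hs hB.out
  have hne : {w | some w ∈ B}.Nonempty := by
    unfold Thick at hin'
    obtain ⟨w, hw⟩ := (Set.ncard_pos (Set.toFinite _)).1 (lt_of_lt_of_le Nat.two_pos hin')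
    exact ⟨w, hw.1⟩
  obtain ⟨h4, h5⟩ := leave_old_three h.two hs hx hB.three hne
  rintro (_ | e) he hv
  · refine ⟨none, deg_none hs, SimpleGraph.Walk.nil, Nat.zero_le _, ?_⟩
    intro w hw
    rw [SimpleGraph.Walk.support_nil, List.mem_singleton] at hw
    rw [hw]
    exact he
  · have hv' : ∃ v, v ∉ {w | some w ∈ B} ∧ L.Adj e v := by
      obtain ⟨_ | v, h6, h7⟩ := hv
      · rcases subG_some_none.1 h7 with rfl | rfl
        · exact absurd he hx
        · exact ⟨x, hx, hs.symm⟩
      · exact ⟨v, h6, (subG_some_some.1 h7).1⟩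
    obtain ⟨m, hm2, p, hp, hp2⟩ := h.near {w | some w ∈ B} hx ⟨h5, hin', hout'⟩ e he hv'
    obtain ⟨q, hq, hq2⟩ := walk_subG (x := x) (s := s) p {w | some w ∈ B} hx hp2
    refine ⟨some m, by rw [deg_some hs]; exact hm2, q, by rw [hq]; exact hp, ?_⟩
    intro w hw
    obtain ⟨w', hw', rfl⟩ := hq2 w hw
    exact hw'

/-- The graph with a subdivided edge at the cubic vertex `x` is in the base class; `s` and its
neighbours are not both of degree two. -/
theorem baseR_subG {r : ℕ} (h : BaseR r L x) (hr : (L.neighborSet x).ncard = 3) (hs : L.Adj x s)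
    (hd : ∀ w, L.Adj s w → (L.neighborSet s).ncard = 3 ∨ (L.neighborSet w).ncard = 3) :
    BaseR r (subG L x s) (some x) where
  pl := pl_subG h.pl hs
  deg := by
    rintro (_ | w)
    · rw [deg_none hs]
      omega
    · rw [deg_some hs]
      exact h.deg w
  two := by
    intro B hB1 hB2
    by_cases h1 : {w | some w ∈ B} = ∅
    · have h2 : B = {none} := by
        obtain ⟨b, hb⟩ := hB1
        have h3 : ∀ w : W, some w ∉ B := fun w hw => by
          have : w ∈ {w | some w ∈ B} := hw
          rw [h1] at this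
          exact this
        ext (_ | w)
        · refine ⟨fun _ => rfl, fun _ => ?_⟩
          rcases b with _ | b
          · exact hb
          · exact absurd hb (h3 b)
        · exact ⟨fun h => absurd h (h3 w), fun h => by cases h⟩
      rw [h2, leave_none hs]
    · by_cases h2 : {w | some w ∈ B} = Set.univ
      · have h3 : Bᶜ = {none} := by
          obtain ⟨b, hb⟩ := (Set.ne_univ_iff_exists_notMem B).1 hB2
          have h4 : ∀ w : W, some w ∈ B := fun w => by
            have : w ∈ {w | some w ∈ B} := by rw [h2]; exact Set.mem_univ w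
            exact this
          ext (_ | w)
          · refine ⟨fun _ => rfl, fun _ => ?_⟩
            rcases b with _ | b
            · exact hb
            · exact absurd (h4 b) hb
          · exact ⟨fun h => absurd (h4 w) h, fun h => by cases h⟩
        rw [← leave_compl_ncard, h3, leave_none hs]
      · exact (h.two _ (Set.nonempty_iff_ne_empty.2 h1) h2).trans (leave_old_le L x s B)
  cut2 := by
    intro B h1
    have h2 := leave_old_le L x s B
    rcases h.cut2 {w | some w ∈ B} (h2.trans h1) with h3 | h3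
    · exact Or.inl (h.cut2_aux hr hs hd B h1 h3)
    · refine Or.inr (h.cut2_aux hr hs hd Bᶜ ?_ h3)
      rw [leave_compl_ncard]
      exact h1
  near := fun B hx hB => h.near_subG hs B hx hB

/-- The graph with a subdivided edge at a root is in the base class. -/
theorem baseG_subG {r : ℕ} (h : BaseG r L x) (hr : RootG L x) (hs : L.Adj x s) :
    BaseG r (subG L x s) (some x) where
  toBaseR := baseR_subG h.toBaseR hr.1 hs fun _ _ => Or.inl (hr.2 s hs)
  tri := tri_subG h.tri x s

end Pool.Agent.CutN
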