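import Mathlib
import Pool.Agent.Work.MP_392c8e_co_uni.MinG
import Pool.Agent.Work.MP_392c8e_co_uni.SubV

/-!
# What the sides of a smallest counterexample accept

If all sides properly inside the side `S` have a vertex of degree two near every end, then the
closures of `S` are in the base class, so one level `n` for the base class gives `AccHyp n G S a`.
-/

namespace Pool.Agent.CutN

open Pool.Agent.Red Pool.Agent.T1Red

set_option linter.unusedSectionVars false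

variable {V : Type} [Fintype V] [DecidableEq V] {G : SimpleGraph V} {n N : ℤ} {S : Set V}
  {r : ℕ} {a b : Fin 3 → V} {z : V}

/-- Colourings of the contraction. -/
theorem claw_form (hc : CutK G (· ∈ S) a b) (hz : z ∉ S) (h : ColN n (con hc hz)) :
    ∃ (H : SimpleGraph V) (q : V → ℤ) (z : V), IsCol n H q ∧ side G (· ∈ S) ≤ H ∧
      ∀ i, H.Adj z (a i) := by
  obtain ⟨c, h⟩ := h
  refine ⟨(con hc hz).comap (proj (· ∈ S) z), fun v => c (proj (· ∈ S) z v), z,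
    fun u v huv => h _ _ huv, ?_, ?_⟩
  · rintro u v ⟨h1, h2, h3⟩
    show (con hc hz).Adj (proj (· ∈ S) z u) (proj (· ∈ S) z v)
    rw [proj_in (X := (· ∈ S)) h2, proj_in (X := (· ∈ S)) h3]
    exact (con_adj_in hc hz h2 h3).2 h1
  · intro i
    show (con hc hz).Adj (proj (· ∈ S) z z) (proj (· ∈ S) z (a i))
    rw [proj_out (X := (· ∈ S)) hz, proj_in (X := (· ∈ S)) (hc.hX i)]
    exact ((con_adj_out hc hz (hc.hX i)).2 ⟨i, rfl⟩).symm

/-- Colourings of the contraction with a subdivided edge. -/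
theorem V_form {i j k : Fin 3} (hij : i ≠ j) (hik : i ≠ k) (hc : CutK G (· ∈ S) a b)
    (hz : z ∉ S) {u : V} (hu : u ∉ S) (huz : u ≠ z)
    (h : ColN n (subG (con hc hz) ⟨z, Or.inr rfl⟩ ⟨a i, Or.inl (hc.hX i)⟩)) :
    ∃ (H : SimpleGraph V) (q : V → ℤ) (z u : V), IsCol n H q ∧ side G (· ∈ S) ≤ H ∧
      H.Adj z (a j) ∧ H.Adj z (a k) ∧ H.Adj z u ∧ H.Adj u (a i) := by
  classical
  obtain ⟨c, h⟩ := h
  set f : V → Option {v // v ∈ S ∨ v = z} := fun v =>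
    if hv : v ∈ S ∨ v = z then some ⟨v, hv⟩ else none with hf
  have fS : ∀ {v : V} (hv : v ∈ S), f v = some ⟨v, Or.inl hv⟩ := fun {v} hv =>
    dif_pos (Or.inl hv)
  have fz : f z = some ⟨z, Or.inr rfl⟩ := dif_pos (Or.inr rfl)
  have fu : f u = none := by
    refine dif_neg ?_
    rintro (h5 | h5)
    · exact hu h5
    · exact huz h5
  have hza : ∀ {v : V}, v ∈ S → v ≠ z := fun hv h5 => hz (h5 ▸ hv)
  have hz2 : ∀ l : Fin 3, i ≠ l → (subG (con hc hz) ⟨z, Or.inr rfl⟩ ⟨a i, Or.inl (hc.hX i)⟩).Adj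
      (f z) (f (a l)) := by
    intro l hil
    rw [fz, fS (hc.hX l)]
    refine subG_some_some.2 ⟨((con_adj_out hc hz (hc.hX l)).2 ⟨l, rfl⟩).symm, fun h5 => ?_⟩
    rcases Sym2.eq_iff.1 h5 with ⟨-, h6⟩ | ⟨h6, -⟩
    · exact hil (hc.ia (congrArg Subtype.val h6)).symm
    · exact hza (hc.hX i) (congrArg Subtype.val h6).symm
  refine ⟨(subG (con hc hz) ⟨z, Or.inr rfl⟩ ⟨a i, Or.inl (hc.hX i)⟩).comap f,
    fun v => c (f v), z, u, fun u v huv => h _ _ huv, ?_, hz2 j hij, hz2 k hik, ?_, ?_⟩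
  · rintro u v ⟨h1, h2, h3⟩
    show (subG (con hc hz) ⟨z, Or.inr rfl⟩ ⟨a i, Or.inl (hc.hX i)⟩).Adj (f u) (f v)
    rw [fS h2, fS h3]
    refine subG_some_some.2 ⟨(con_adj_in hc hz h2 h3).2 h1, fun h5 => ?_⟩
    rcases Sym2.eq_iff.1 h5 with ⟨h6, -⟩ | ⟨-, h6⟩
    · exact hza h2 (congrArg Subtype.val h6)
    · exact hza h3 (congrArg Subtype.val h6)
  · show (subG (con hc hz) ⟨z, Or.inr rfl⟩ ⟨a i, Or.inl (hc.hX i)⟩).Adj (f z) (f u)
    rw [fz, fu]
    exact subG_some_none.2 (Or.inl rfl)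
  · show (subG (con hc hz) ⟨z, Or.inr rfl⟩ ⟨a i, Or.inl (hc.hX i)⟩).Adj (f u) (f (a i))
    rw [fu, fS (hc.hX i)]
    exact subG_none_some.2 (Or.inr rfl)

/-- Colourings of the contraction with an edge in place of a path. -/
theorem X_form {i j : Fin 3} (hij : i ≠ j) (hc : CutK G (· ∈ S) a b) (hz : z ∉ S)
    (h : ColN n (newG (con hc hz) (fun v => v = ⟨z, Or.inr rfl⟩)
      [(⟨a i, Or.inl (hc.hX i)⟩, ⟨a j, Or.inl (hc.hX j)⟩)])) :
    ∃ (H : SimpleGraph V) (q : V → ℤ) (i j : Fin 3), IsCol n H q ∧ side G (· ∈ S) ≤ H ∧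
      H.Adj (a i) (a j) := by
  obtain ⟨c, h⟩ := h
  have hza : ∀ {v : V}, v ∈ S → v ≠ z := fun hv h5 => hz (h5 ▸ hv)
  refine ⟨(newG (con hc hz) (fun v => v = ⟨z, Or.inr rfl⟩)
      [(⟨a i, Or.inl (hc.hX i)⟩, ⟨a j, Or.inl (hc.hX j)⟩)]).comap (proj (· ∈ S) z),
    fun v => c (proj (· ∈ S) z v), i, j, fun u v huv => h _ _ huv, ?_, ?_⟩
  · rintro u v ⟨h1, h2, h3⟩
    show (newG (con hc hz) (fun v => v = ⟨z, Or.inr rfl⟩)
      [(⟨a i, Or.inl (hc.hX i)⟩, ⟨a j, Or.inl (hc.hX j)⟩)]).Adj (proj (· ∈ S) z u)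
        (proj (· ∈ S) z v)
    rw [proj_in (X := (· ∈ S)) h2, proj_in (X := (· ∈ S)) h3]
    exact Or.inl ⟨(con_adj_in hc hz h2 h3).2 h1, fun h5 => hza h2 (congrArg Subtype.val h5),
      fun h5 => hza h3 (congrArg Subtype.val h5)⟩
  · show (newG (con hc hz) (fun v => v = ⟨z, Or.inr rfl⟩)
      [(⟨a i, Or.inl (hc.hX i)⟩, ⟨a j, Or.inl (hc.hX j)⟩)]).Adj (proj (· ∈ S) z (a i))
        (proj (· ∈ S) z (a j))
    rw [proj_in (X := (· ∈ S)) (hc.hX i), proj_in (X := (· ∈ S)) (hc.hX j)]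
    refine Or.inr ⟨fun h5 => hij (hc.ia (congrArg Subtype.val h5)), Or.inl ?_⟩
    exact List.mem_singleton.2 rfl

/-- **What the sides accept.** -/
theorem MinN.accHyp (h : MinN N G) (hN : 2 ≤ N) (hn : 0 < n) (hb : BaseLevel r n)
    (hS : Th3 G S) (hnear : ∀ B, B ⊆ S → B ≠ S → Th3 G B → EX G r B)
    (hc : CutK G (· ∈ S) a b) (hcub : ∀ i, (G.neighborSet (a i)).ncard = 3) :
    AccHyp n G S a := by
  classical
  have hz : b 0 ∉ S := hc.hY 0
  have hu : b 1 ∉ S := hc.hY 1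
  have huz : b 1 ≠ b 0 := fun h5 => absurd (hc.ib h5) (by decide)
  have hR : BaseR r (con hc hz) ⟨b 0, Or.inr rfl⟩ := h.baseR_con hN hc hz hS.out hnear
  have hroot : RootG (con hc hz) ⟨b 0, Or.inr rfl⟩ := rootG_con hc hz hcub
  have hadj : ∀ i, (con hc hz).Adj ⟨b 0, Or.inr rfl⟩ ⟨a i, Or.inl (hc.hX i)⟩ := fun i =>
    ((con_adj_out hc hz (hc.hX i)).2 ⟨i, rfl⟩).symm
  have hG : (∀ i j, ¬ G.Adj (a i) (a j)) → BaseG r (con hc hz) ⟨b 0, Or.inr rfl⟩ := fun h1 =>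
    { toBaseR := hR, tri := cliqueFree_con hc hz h.tri h1 }
  have hclaw : (∀ i j, ¬ G.Adj (a i) (a j)) → ∃ (H : SimpleGraph V) (q : V → ℤ) (z : V),
      IsCol n H q ∧ side G (· ∈ S) ≤ H ∧ ∀ i, H.Adj z (a i) := fun h1 =>
    claw_form hc hz (hb.1 _ _ _ (hG h1))
  have hV : (∀ i j, ¬ G.Adj (a i) (a j)) → ∀ i j k : Fin 3, i ≠ j → i ≠ k → j ≠ k →
      ∃ (H : SimpleGraph V) (q : V → ℤ) (z u : V), IsCol n H q ∧ side G (· ∈ S) ≤ H ∧
        H.Adj z (a j) ∧ H.Adj z (a k) ∧ H.Adj z u ∧ H.Adj u (a i) :=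
    fun h1 i j k hij hik _ => V_form hij hik hc hz hu huz
      (hb.1 _ _ _ (baseG_subG (hG h1) hroot (hadj i)))
  refine ⟨fun h1 y hy => ?_, fun h1 h2 h3 y => ?_, fun p q t hpq hpt hqt h1 h2 h3 y hy => ?_⟩
  · exact acc_two hn (hclaw h1) (hV h1) y hy
  · refine acc_all hn hc.ia (hclaw h1) (hV h1) ?_ y
    obtain ⟨i, j, hij, h4⟩ := h3
    refine X_form hij hc hz (hb.2 _ _ _ _ _ (hG h1) hroot (hadj i) (hadj j)
      (fun h5 => hij (hc.ia (congrArg Subtype.val h5))) ?_)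
    rintro ⟨w, hw | hw⟩ h5 h6
    · exact absurd ⟨(con_adj_in hc hz (hc.hX i) hw).1 h5, (con_adj_in hc hz (hc.hX j) hw).1 h6⟩
        (h4 w hw)
    · exact Subtype.ext hw
  · -- two adjacent ends
    have hpair : ∀ i j, G.Adj (a i) (a j) → (i = p ∧ j = q) ∨ (i = q ∧ j = p) := by
      intro i j hij
      have hne : i ≠ j := fun h5 => hij.ne (by rw [h5])
      have hall := fin3_all hpq hpt hqt
      rcases hall i with rfl | rfl | rfl <;> rcases hall j with rfl | rfl | rfl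
      · exact absurd rfl hne
      · exact Or.inl ⟨rfl, rfl⟩
      · exact absurd hij h2
      · exact Or.inr ⟨rfl, rfl⟩
      · exact absurd rfl hne
      · exact absurd hij h3
      · exact absurd hij.symm h2
      · exact absurd hij.symm h3
      · exact absurd rfl hne
    have hsub : ∀ i, (i = p ∨ i = q) → ColN n (subG (con hc hz) ⟨b 0, Or.inr rfl⟩
        ⟨a i, Or.inl (hc.hX i)⟩) := by
      intro i hi
      have hR2 : BaseR r (subG (con hc hz) ⟨b 0, Or.inr rfl⟩ ⟨a i, Or.inl (hc.hX i)⟩)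
          (some ⟨b 0, Or.inr rfl⟩) :=
        baseR_subG hR hroot.1 (hadj i) (fun _ _ => Or.inl (hroot.2 _ (hadj i)))
      refine hb.1 _ _ (some ⟨b 0, Or.inr rfl⟩) ⟨hR2, cliqueFree_subG (hadj i) ?_⟩
      intro u v w huv hvw huw
      obtain ⟨i', j', h4, h5⟩ := con_triangle hc hz h.tri huv huw hvw
      have h6 := h5 ⟨b 0, Or.inr rfl⟩ (Or.inl rfl)
      have h7 : (⟨a i, Or.inl (hc.hX i)⟩ : {v // v ∈ S ∨ v = b 0}) = u ∨
          ⟨a i, Or.inl (hc.hX i)⟩ = v ∨ ⟨a i, Or.inl (hc.hX i)⟩ = w := by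
        refine h5 _ (Or.inr ?_)
        rcases hpair i' j' h4 with ⟨rfl, rfl⟩ | ⟨rfl, rfl⟩ <;> rcases hi with rfl | rfl
        · exact Or.inl rfl
        · exact Or.inr rfl
        · exact Or.inr rfl
        · exact Or.inl rfl
      exact ⟨h6.imp Eq.symm (Or.imp Eq.symm Eq.symm), h7.imp Eq.symm (Or.imp Eq.symm Eq.symm)⟩
    exact acc_rung hn hc.ia hpq hpt hqt h1 hc.hX
      (V_form hpq hpt hc hz hu huz (hsub p (Or.inl rfl)))
      (V_form hpq.symm hqt hc hz hu huz (hsub q (Or.inr rfl))) y hy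

end Pool.Agent.CutN
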