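import Mathlib
import Pool.Agent.Work.MP_392c8e_co_uni.MinG2

/-!
# One level for all planar graphs of maximum degree three without triangles

`KillAt r n N`: in a smallest counterexample at level `N` there is no minimal side with an end far
from all vertices of degree two.  Together with one level `n` for the base class this gives
colourings at level `N` for all graphs of the class.
-/

namespace Pool.Agent.CutN

open Pool.Agent.Red Pool.Agent.T1Red
open Pool.Agent.Uni392 (StrictN)

set_option linter.unusedSectionVars false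

/-- No minimal violator in a smallest counterexample. -/
def KillAt (r : ℕ) (n N : ℤ) : Prop :=
  ∀ (V : Type) [Fintype V] [DecidableEq V] (G : SimpleGraph V) (K : Set V), MinN N G →
    Th3 G K → ¬ EX G r K → (∀ S, S ⊆ K → S ≠ K → Th3 G S → EX G r S) →
    (∀ S, S ⊆ K → Th3 G S → ∀ a b : Fin 3 → V, CutK G (· ∈ S) a b →
      (∀ i, (G.neighborSet (a i)).ncard = 3) → AccHyp n G S a) → False

theorem ColN.level {V : Type} {G : SimpleGraph V} {n N : ℤ} (hn : 0 < n) (hnN : n ≤ N)
    (h : ColN n G) : ColN N G := by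
  lift n to ℕ using hn.le
  lift N to ℕ using (hn.le.trans hnN)
  have h1 : StrictN G n := (colN_iff (by exact_mod_cast hn)).1 h
  exact (colN_iff (by exact_mod_cast hn.trans_le hnN)).2 (h1.mono le_rfl (by exact_mod_cast hnN))

/-- **One level for the whole class.** -/
theorem uni_of_kill {r : ℕ} {n N : ℤ} (hn : 0 < n) (hnN : n ≤ N) (hN : 2 ≤ N)
    (hb : BaseLevel r n) (hk : KillAt r n N) {V : Type} [Fintype V] [DecidableEq V]
    {G : SimpleGraph V} (h1 : Pl G) (h2 : G.CliqueFree 3)
    (h3 : ∀ v, (G.neighborSet v).ncard ≤ 3) : ColN N G := by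
  classical
  by_contra hcon
  obtain ⟨W, _, _, H, hH⟩ := exists_minN h1 h2 h3 hcon
  have hne : Nonempty W := by
    by_contra hemp
    rw [not_nonempty_iff] at hemp
    exact hH.bad ⟨fun _ => 0, fun u => (hemp.false u).elim⟩
  obtain ⟨x⟩ := hne
  have hall : ∀ K : Set W, Th3 H K → EX H r K := by
    by_contra hex
    push Not at hex
    have key : ∃ m : ℕ, ∃ K : Set W, Th3 H K ∧ ¬ EX H r K ∧ K.ncard = m := by
      obtain ⟨K, hK, hx⟩ := hex
      exact ⟨_, K, hK, hx, rfl⟩
    obtain ⟨K, hK, hx, hm⟩ := Nat.find_spec key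
    have hmin : ∀ S, S ⊆ K → S ≠ K → Th3 H S → EX H r S := by
      intro S hSK hne hS
      by_contra hxS
      have h4 := Nat.find_min' key ⟨S, hS, hxS, rfl⟩
      rw [← hm] at h4
      exact hne (Set.eq_of_subset_of_ncard_le hSK h4 (Set.toFinite _))
    refine hk W H K hH hK hx hmin fun S hSK hS a b hc hcub => ?_
    refine hH.accHyp hN hn hb hS (fun B hB hBS hBt => ?_) hc hcub
    exact hmin B (hB.trans hSK) (fun h5 => hBS (Set.Subset.antisymm hB (h5 ▸ hSK))) hBt
  have hbase : BaseG r H x :=
    ⟨⟨hH.pl, hH.deg, fun A h4 h5 => hH.ge_two hN h4 h5, hH.cut_two hN, fun A _ hA => hall A hA⟩,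
      hH.tri⟩
  exact hH.bad ((hb.1 W H x hbase).level hn hnN)

end Pool.Agent.CutN
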