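import Mathlib
import Pool.Agent.Work.MP_392c8e_co_red.PlG

/-!
# Insertion of cube poles into a multigraph with an algebraic dual

At the source of every edge `ε m` a pole is inserted: the cube without an edge, one end of the
missing edge is the source itself, and the edge `ε m` starts at the other end.
-/

namespace Pool.Agent.Poles

open Finset Pool.Agent.Red

set_option linter.unusedSectionVars false

/-- Sources of the edges of a pole; `none` is the old vertex. -/
def bs : Fin 11 → Option (Fin 7) :=
  ![none, none, some 0, some 2, some 1, some 3, some 0, some 4, some 2, some 5, some 4]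

/-- Targets of the edges of a pole. -/
def bt : Fin 11 → Option (Fin 7) :=
  ![some 0, some 1, some 2, some 6, some 3, some 6, some 4, some 1, some 5, some 3, some 5]

/-- Left faces; `4` and `5` are the old faces. -/
def bl : Fin 11 → Fin 6 := ![4, 0, 4, 4, 2, 3, 1, 2, 3, 3, 1]

/-- Right faces. -/
def br : Fin 11 → Fin 6 := ![0, 5, 1, 3, 5, 5, 0, 0, 1, 2, 2]

section

variable {V E F M : Type} [Fintype V] [DecidableEq V] [Fintype E] [DecidableEq E] [Fintype F]
  [DecidableEq F] [Fintype M] [DecidableEq M]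

/-- The vertices of a pole. -/
def vt (v : V) (m : M) : Option (Fin 7) → V ⊕ (M × Fin 7)
  | none => Sum.inl v
  | some j => Sum.inr (m, j)

/-- The faces at a pole. -/
def fc (x y : F) (m : M) : Fin 6 → F ⊕ (M × Fin 4) :=
  ![Sum.inr (m, 0), Sum.inr (m, 1), Sum.inr (m, 2), Sum.inr (m, 3), Sum.inl x, Sum.inl y]

open Classical in
/-- The sources. -/
noncomputable def ps (s : E → V) (ε : M → E) : E ⊕ (M × Fin 11) → V ⊕ (M × Fin 7)
  | Sum.inl e => if h : ∃ m, ε m = e then Sum.inr (h.choose, 6) else Sum.inl (s e)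
  | Sum.inr a => vt (s (ε a.1)) a.1 (bs a.2)

/-- The targets. -/
def pt (s t : E → V) (ε : M → E) : E ⊕ (M × Fin 11) → V ⊕ (M × Fin 7)
  | Sum.inl e => Sum.inl (t e)
  | Sum.inr a => vt (s (ε a.1)) a.1 (bt a.2)

/-- The faces. -/
def pf (k : Fin 11 → Fin 6) (f : E → F) (l r : E → F) (ε : M → E) :
    E ⊕ (M × Fin 11) → F ⊕ (M × Fin 4)
  | Sum.inl e => Sum.inl (f e)
  | Sum.inr a => fc (l (ε a.1)) (r (ε a.1)) a.1 (k a.2)

variable {s t : E → V} {l r : E → F} {ε : M → E}

theorem ps_inl (hε : Function.Injective ε) (e : E) (m : M) (h : ε m = e) :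
    ps s ε (Sum.inl e) = Sum.inr (m, 6) := by
  have h1 : ∃ m, ε m = e := ⟨m, h⟩
  have h2 : h1.choose = m := hε (h1.choose_spec.trans h.symm)
  show (if h : ∃ m, ε m = e then (Sum.inr (h.choose, 6) : V ⊕ (M × Fin 7)) else
    Sum.inl (s e)) = _
  rw [dif_pos h1, h2]

theorem ps_inl' (e : E) (h : ¬ ∃ m, ε m = e) : ps s ε (Sum.inl e) = Sum.inl (s e) := dif_neg h

/-- A potential of the dual is a circulation. -/
theorem pot (ho : Orth s t l r) (ψ : F → ℚ) (v : V) :
    ∑ e, inc s t v e * (ψ (l e) - ψ (r e)) = 0 := by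
  have h1 : ∀ e, inc s t v e * (ψ (l e) - ψ (r e)) =
      ∑ x, ψ x * (inc s t v e * inc r l x e) := by
    intro e
    rw [← sum_inc r l ψ e, mul_sum]
    exact sum_congr rfl fun x _ => by ring
  simp only [h1]
  rw [sum_comm]
  refine sum_eq_zero fun x _ => ?_
  rw [← mul_sum, ho v x, mul_zero]

theorem sum_image' (hε : Function.Injective ε) (f : E → ℚ) [DecidablePred fun e => ∃ m, ε m = e] :
    ∑ e, (if ∃ m, ε m = e then f e else 0) = ∑ m, f (ε m) := by
  classical
  rw [← sum_filter]
  have : (univ.filter fun e => ∃ m, ε m = e) = univ.image ε := by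
    ext e
    simp
  rw [this, sum_image fun a _ b _ h => hε h]

/-- The net flow into an old vertex. -/
theorem sum_old (hε : Function.Injective ε) (v : V) (g : E ⊕ (M × Fin 11) → ℚ) :
    ∑ e, inc (ps s ε) (pt s t ε) (Sum.inl v) e * g e =
      ∑ e, inc s t v e * g (Sum.inl e) + ∑ m, (if s (ε m) = v then g (Sum.inl (ε m)) -
        g (Sum.inr (m, 0)) - g (Sum.inr (m, 1)) else 0) := by
  classical
  rw [Fintype.sum_sum_type, Fintype.sum_prod_type]
  have h1 : ∀ e, inc (ps s ε) (pt s t ε) (Sum.inl v) (Sum.inl e) * g (Sum.inl e) =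
      inc s t v e * g (Sum.inl e) +
        (if ∃ m, ε m = e then (if s e = v then g (Sum.inl e) else 0) else 0) := by
    intro e
    have ht : (if pt s t ε (Sum.inl e) = Sum.inl v then (1 : ℚ) else 0) =
        if t e = v then 1 else 0 := by
      simp only [pt, Sum.inl.injEq]
    by_cases h : ∃ m, ε m = e
    · obtain ⟨m, hm⟩ := h
      have h2 := ps_inl (s := s) hε e m hm
      rw [if_pos ⟨m, hm⟩]
      have h5 : (if (Sum.inr (m, (6 : Fin 7)) : V ⊕ (M × Fin 7)) = Sum.inl v then (1 : ℚ)
          else 0) = 0 := if_neg (by simp)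
      unfold inc
      rw [ht, h2, h5]
      by_cases h3 : s e = v
      · rw [if_pos h3, if_pos h3]; ring
      · rw [if_neg h3, if_neg h3]; ring
    · have h2 := ps_inl' (s := s) e h
      rw [if_neg h]
      unfold inc
      rw [ht, h2]
      simp only [Sum.inl.injEq]
      ring
  simp only [h1]
  rw [sum_add_distrib, sum_image' hε (fun e => if s e = v then g (Sum.inl e) else 0), add_assoc,
    ← sum_add_distrib]
  congr 1
  refine sum_congr rfl fun m _ => ?_
  have h2 : ∀ i, inc (ps s ε) (pt s t ε) (Sum.inl v) (Sum.inr (m, i)) * g (Sum.inr (m, i)) =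
      if s (ε m) = v then (if i = 0 ∨ i = 1 then - g (Sum.inr (m, i)) else 0) else 0 := by
    intro i
    unfold inc
    fin_cases i <;> by_cases h : s (ε m) = v <;> simp [ps, pt, vt, bs, bt, h]
  simp only [h2]
  by_cases h : s (ε m) = v
  · simp only [if_pos h]
    rw [show (∑ i : Fin 11, if i = 0 ∨ i = 1 then - g (Sum.inr (m, i)) else 0) =
      - g (Sum.inr (m, 0)) - g (Sum.inr (m, 1)) by
        simp [Fin.sum_univ_succ]; ring]
    ring
  · simp only [if_neg h]
    simp

/-- The net flow into a new vertex. -/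
theorem sum_new (hε : Function.Injective ε) (m : M) (j : Fin 7) (g : E ⊕ (M × Fin 11) → ℚ) :
    ∑ e, inc (ps s ε) (pt s t ε) (Sum.inr (m, j)) e * g e =
      (∑ i, ((if bt i = some j then 1 else 0) - (if bs i = some j then 1 else 0)) *
        g (Sum.inr (m, i))) - if j = 6 then g (Sum.inl (ε m)) else 0 := by
  classical
  rw [Fintype.sum_sum_type, Fintype.sum_prod_type]
  have h1 : ∀ e, inc (ps s ε) (pt s t ε) (Sum.inr (m, j)) (Sum.inl e) * g (Sum.inl e) =
      if e = ε m then (- if j = 6 then g (Sum.inl (ε m)) else 0) else 0 := by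
    intro e
    have ht : (if pt s t ε (Sum.inl e) = Sum.inr (m, j) then (1 : ℚ) else 0) = 0 := by
      simp [pt]
    by_cases h : ∃ m, ε m = e
    · obtain ⟨m', hm⟩ := h
      have h2 := ps_inl (s := s) hε e m' hm
      unfold inc
      rw [ht, h2]
      subst hm
      by_cases h3 : m' = m
      · subst h3
        by_cases h4 : j = 6
        · subst h4
          simp
        · simp [h4, Ne.symm h4]
      · have h4 : ε m' ≠ ε m := fun h => h3 (hε h)
        rw [if_neg h4]
        simp [h3]
    · have h2 := ps_inl' (s := s) e h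
      have h3 : e ≠ ε m := fun h4 => h ⟨m, h4.symm⟩
      unfold inc
      rw [ht, h2, if_neg h3]
      simp
  have h2 : ∀ m' i, inc (ps s ε) (pt s t ε) (Sum.inr (m, j)) (Sum.inr (m', i)) *
      g (Sum.inr (m', i)) = if m' = m then
        ((if bt i = some j then 1 else 0) - (if bs i = some j then 1 else 0)) *
          g (Sum.inr (m, i)) else 0 := by
    intro m' i
    have e1 : ∀ o : Option (Fin 7), (if vt (s (ε m')) m' o = Sum.inr (m, j) then (1 : ℚ) else 0) =
        if m' = m then (if o = some j then 1 else 0) else 0 := by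
      intro o
      cases o with
      | none => simp [vt]
      | some o =>
        simp only [vt, Sum.inr.injEq, Prod.mk.injEq, Option.some.injEq]
        by_cases h : m' = m <;> simp [h]
    unfold inc
    show ((if vt (s (ε m')) m' (bt i) = Sum.inr (m, j) then (1 : ℚ) else 0) -
      (if vt (s (ε m')) m' (bs i) = Sum.inr (m, j) then (1 : ℚ) else 0)) * _ = _
    rw [e1, e1]
    by_cases h : m' = m
    · subst h
      simp
    · simp [h]
  simp only [h1, h2]
  rw [sum_ite_eq' univ (ε m), if_pos (mem_univ _)]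
  have h3 : ∑ x : M, ∑ x_1 : Fin 11, (if x = m then
        ((if bt x_1 = some j then (1 : ℚ) else 0) - (if bs x_1 = some j then 1 else 0)) *
          g (Sum.inr (m, x_1)) else 0) =
      ∑ i, ((if bt i = some j then 1 else 0) - (if bs i = some j then 1 else 0)) *
        g (Sum.inr (m, i)) := by
    rw [sum_eq_single m]
    · simp
    · intro b _ hb
      simp [hb]
    · intro h
      exact absurd (mem_univ m) h
  rw [h3]
  ring

/-- **The dual of the multigraph with poles.** -/
theorem dual_poles (ho : Orth s t l r) (hf : Full s t l r) (hε : Function.Injective ε) :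
    Orth (ps s ε) (pt s t ε) (pf bl l l r ε) (pf br r l r ε) ∧
      Full (ps s ε) (pt s t ε) (pf bl l l r ε) (pf br r l r ε) := by
  classical
  constructor
  · intro w x
    have h0 : ∀ φ : F ⊕ (M × Fin 4) → ℚ, ∀ w, ∑ e, inc (ps s ε) (pt s t ε) w e *
        (φ (pf bl l l r ε e) - φ (pf br r l r ε e)) = 0 := by
      intro φ w
      rcases w with v | ⟨m, j⟩
      · rw [sum_old hε v fun e : E ⊕ (M × Fin 11) => φ (pf bl l l r ε e) - φ (pf br r l r ε e)]
        have h1 := pot ho (fun x => φ (Sum.inl x)) v
        have h2 : ∀ m, (φ (pf bl l l r ε (Sum.inl (ε m))) - φ (pf br r l r ε (Sum.inl (ε m)))) -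
            (φ (pf bl l l r ε (Sum.inr (m, 0))) - φ (pf br r l r ε (Sum.inr (m, 0)))) -
            (φ (pf bl l l r ε (Sum.inr (m, 1))) - φ (pf br r l r ε (Sum.inr (m, 1)))) = 0 := by
          intro m
          simp [pf, fc, bl, br]
        simp only [h2, ite_self, sum_const_zero, add_zero]
        exact h1
      · rw [sum_new hε m j fun e : E ⊕ (M × Fin 11) =>
          φ (pf bl l l r ε e) - φ (pf br r l r ε e)]
        fin_cases j <;> simp [Fin.sum_univ_succ, bs, bt, pf, fc, bl, br] <;> ring
    exact h0 (fun y => if y = x then (1 : ℚ) else 0) w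
  · intro g hg
    have k : ∀ m (j : Fin 7), (∑ i, ((if bt i = some j then 1 else 0) -
        (if bs i = some j then 1 else 0)) * g (Sum.inr (m, i))) -
          (if j = 6 then g (Sum.inl (ε m)) else 0) = 0 := fun m j => by
      rw [← sum_new (s := s) (t := t) hε m j g]
      exact hg _
    have k0 : ∀ m, g (Sum.inr (m, 0)) = g (Sum.inr (m, 2)) + g (Sum.inr (m, 6)) := fun m => by
      have := k m 0
      simp [Fin.sum_univ_succ, bs, bt] at this
      linarith
    have k1 : ∀ m, g (Sum.inr (m, 4)) = g (Sum.inr (m, 1)) + g (Sum.inr (m, 7)) := fun m => by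
      have := k m 1
      simp [Fin.sum_univ_succ, bs, bt] at this
      linarith
    have k2 : ∀ m, g (Sum.inr (m, 2)) = g (Sum.inr (m, 3)) + g (Sum.inr (m, 8)) := fun m => by
      have := k m 2
      simp [Fin.sum_univ_succ, bs, bt] at this
      linarith
    have k3 : ∀ m, g (Sum.inr (m, 5)) = g (Sum.inr (m, 4)) + g (Sum.inr (m, 9)) := fun m => by
      have := k m 3
      simp [Fin.sum_univ_succ, bs, bt] at this
      linarith
    have k4 : ∀ m, g (Sum.inr (m, 6)) = g (Sum.inr (m, 7)) + g (Sum.inr (m, 10)) := fun m => by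
      have := k m 4
      simp [Fin.sum_univ_succ, bs, bt] at this
      linarith
    have k5 : ∀ m, g (Sum.inr (m, 9)) = g (Sum.inr (m, 8)) + g (Sum.inr (m, 10)) := fun m => by
      have := k m 5
      simp [Fin.sum_univ_succ, bs, bt] at this
      linarith
    have k6 : ∀ m, g (Sum.inl (ε m)) = g (Sum.inr (m, 3)) + g (Sum.inr (m, 5)) := fun m => by
      have := k m 6
      simp [Fin.sum_univ_succ, bs, bt] at this
      linarith
    have h1 : ∀ v, ∑ e, inc s t v e * g (Sum.inl e) = 0 := by
      intro v
      have h2 := hg (Sum.inl v)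
      rw [sum_old hε v g] at h2
      have h3 : ∀ m, g (Sum.inl (ε m)) - g (Sum.inr (m, 0)) - g (Sum.inr (m, 1)) = 0 := by
        intro m
        have := k0 m
        have := k1 m
        have := k2 m
        have := k3 m
        have := k4 m
        have := k5 m
        have := k6 m
        linarith
      simp only [h3, ite_self, sum_const_zero, add_zero] at h2
      exact h2
    obtain ⟨φ, hφ⟩ := hf _ h1
    refine ⟨fun x => match x with
      | Sum.inl x => φ x
      | Sum.inr (m, j) => ![φ (l (ε m)) - g (Sum.inr (m, 0)), φ (l (ε m)) - g (Sum.inr (m, 2)),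
          φ (r (ε m)) + g (Sum.inr (m, 4)), φ (l (ε m)) - g (Sum.inr (m, 3))] j, ?_⟩
    rintro (e | ⟨m, i⟩)
    · exact hφ e
    · have a := hφ (ε m)
      have := k0 m
      have := k1 m
      have := k2 m
      have := k3 m
      have := k4 m
      have := k5 m
      have := k6 m
      fin_cases i <;> simp [pf, fc, bl, br] <;> linarith

end

end Pool.Agent.Poles
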