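import Mathlib
import Pool.Agent.Work.MP_392c8e_co_uni.PoleDual
import Pool.Agent.Work.MP_392c8e_co_t1.PlRot
import Pool.Agent.Work.MP_392c8e_co_uni.Growth

/-!
# Cube poles at the vertices of degree two

`poleG G σ β` is the graph `G` in which the edge from `σ m` to `β m` is replaced, for every `m`, by
a cube without an edge: one end of the missing edge is `σ m`, the other end is joined to `β m`.
-/

namespace Pool.Agent.Poles

open Finset Pool.Agent.Red

set_option linter.unusedSectionVars false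

/-- Adjacency in a pole. -/
def blk (a b : Option (Fin 7)) : Prop := ∃ i, (bs i = a ∧ bt i = b) ∨ (bs i = b ∧ bt i = a)

instance : DecidableRel blk := fun a b => by unfold blk; infer_instance

theorem blk_symm {a b : Option (Fin 7)} (h : blk a b) : blk b a := by
  obtain ⟨i, h | h⟩ := h
  · exact ⟨i, Or.inr h⟩
  · exact ⟨i, Or.inl h⟩

section

variable {V M : Type} [Fintype V] [DecidableEq V] [Fintype M] [DecidableEq M]

/-- Adjacency in the graph with poles. -/
def PAdj (G : SimpleGraph V) (σ β : M → V) : V ⊕ (M × Fin 7) → V ⊕ (M × Fin 7) → Prop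
  | Sum.inl u, Sum.inl v => G.Adj u v ∧ ∀ m, s(u, v) ≠ s(σ m, β m)
  | Sum.inl u, Sum.inr a => (u = σ a.1 ∧ blk none (some a.2)) ∨ (u = β a.1 ∧ a.2 = 6)
  | Sum.inr a, Sum.inl u => (u = σ a.1 ∧ blk none (some a.2)) ∨ (u = β a.1 ∧ a.2 = 6)
  | Sum.inr a, Sum.inr b => a.1 = b.1 ∧ blk (some a.2) (some b.2)

/-- The graph with poles. -/
def poleG (G : SimpleGraph V) (σ β : M → V) : SimpleGraph (V ⊕ (M × Fin 7)) where
  Adj := PAdj G σ β
  symm := ⟨by
    rintro (u | a) (v | b) h
    · exact ⟨h.1.symm, fun m => by rw [Sym2.eq_swap]; exact h.2 m⟩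
    · exact h
    · exact h
    · exact ⟨h.1.symm, blk_symm h.2⟩⟩
  loopless := ⟨by
    rintro (u | a) h
    · exact G.loopless.irrefl u h.1
    · have h1 : ∀ j : Fin 7, ¬ blk (some j) (some j) := by decide
      exact h1 _ h.2⟩

/-- The hypotheses. -/
structure PD (G : SimpleGraph V) (σ β : M → V) : Prop where
  adj : ∀ m, G.Adj (σ m) (β m)
  inj : Function.Injective σ
  nb : ∀ m m', β m ≠ σ m'

variable {G : SimpleGraph V} {σ β : M → V}

theorem PD.edge_inj (h : PD G σ β) {m m' : M} (he : s(σ m, β m) = s(σ m', β m')) : m = m' := by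
  rcases Sym2.eq_iff.1 he with ⟨h1, -⟩ | ⟨h1, -⟩
  · exact h.inj h1
  · exact absurd h1.symm (h.nb m' m)

theorem adj_ll {u v : V} : (poleG G σ β).Adj (Sum.inl u) (Sum.inl v) ↔
    G.Adj u v ∧ ∀ m, s(u, v) ≠ s(σ m, β m) := Iff.rfl

theorem adj_lr {u : V} {m : M} {j : Fin 7} : (poleG G σ β).Adj (Sum.inl u) (Sum.inr (m, j)) ↔
    (u = σ m ∧ blk none (some j)) ∨ (u = β m ∧ j = 6) := Iff.rfl

theorem adj_rl {u : V} {m : M} {j : Fin 7} : (poleG G σ β).Adj (Sum.inr (m, j)) (Sum.inl u) ↔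
    (u = σ m ∧ blk none (some j)) ∨ (u = β m ∧ j = 6) := Iff.rfl

theorem adj_rr {m m' : M} {i j : Fin 7} :
    (poleG G σ β).Adj (Sum.inr (m, i)) (Sum.inr (m', j)) ↔ m = m' ∧ blk (some i) (some j) := Iff.rfl

/-- The edges of a pole. -/
theorem adj_vt (m : M) {a b : Option (Fin 7)} (h : blk a b) :
    (poleG G σ β).Adj (vt (σ m) m a) (vt (σ m) m b) := by
  have h0 : ¬ blk none none := by decide
  rcases a with _ | a <;> rcases b with _ | b
  · exact absurd h h0
  · exact Or.inl ⟨rfl, h⟩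
  · exact Or.inl ⟨rfl, blk_symm h⟩
  · exact ⟨rfl, h⟩

theorem blk_i (i : Fin 11) : blk (bs i) (bt i) := ⟨i, Or.inl ⟨rfl, rfl⟩⟩

theorem vt_inj {v : V} {m m' : M} {a b : Option (Fin 7)} {v' : V}
    (h : (vt v m a : V ⊕ (M × Fin 7)) = vt v' m' b) : a = b ∧ (a ≠ none → m = m') := by
  rcases a with _ | a <;> rcases b with _ | b <;> simp [vt] at h ⊢
  exact ⟨h.2, h.1⟩

/-- The edges of the poles are different. -/
theorem pole_edge_inj {m m' : M} {i i' : Fin 11}
    (h : s((vt (σ m) m (bs i) : V ⊕ (M × Fin 7)), vt (σ m) m (bt i)) =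
      s(vt (σ m') m' (bs i'), vt (σ m') m' (bt i'))) : m = m' ∧ i = i' := by
  have h1 : ∀ i i' : Fin 11, (bs i = bs i' ∧ bt i = bt i') ∨ (bs i = bt i' ∧ bt i = bs i') →
      i = i' := by decide
  have h2 : ∀ i : Fin 11, bt i ≠ none := by decide
  rcases Sym2.eq_iff.1 h with ⟨h3, h4⟩ | ⟨h3, h4⟩
  · have h5 := vt_inj h3
    have h6 := vt_inj h4
    exact ⟨h6.2 (h2 i), h1 i i' (Or.inl ⟨h5.1, h6.1⟩)⟩
  · have h5 := vt_inj h3
    have h6 := vt_inj h4
    exact ⟨h6.2 (h2 i), h1 i i' (Or.inr ⟨h5.1, h6.1⟩)⟩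

/-! ### The dual -/

theorem orth_flip {E F : Type} [Fintype E] [DecidableEq E] [Fintype F] [DecidableEq F]
    {s t : E → V} {l r : E → F} (p : E → Prop) [DecidablePred p] (ho : Orth s t l r) :
    Orth (fun e => if p e then t e else s e) (fun e => if p e then s e else t e)
      (fun e => if p e then r e else l e) (fun e => if p e then l e else r e) := by
  intro v x
  rw [← ho v x]
  refine sum_congr rfl fun e _ => ?_
  unfold inc
  by_cases h : p e
  · simp only [if_pos h]; ring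
  · simp only [if_neg h]

theorem full_flip {E F : Type} [Fintype E] [DecidableEq E] [Fintype F] [DecidableEq F]
    {s t : E → V} {l r : E → F} (p : E → Prop) [DecidablePred p] (hf : Full s t l r) :
    Full (fun e => if p e then t e else s e) (fun e => if p e then s e else t e)
      (fun e => if p e then r e else l e) (fun e => if p e then l e else r e) := by
  intro g hg
  obtain ⟨φ, hφ⟩ := hf (fun e => if p e then - g e else g e) (by
    intro v
    rw [← hg v]
    refine sum_congr rfl fun e _ => ?_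
    unfold inc
    by_cases h : p e
    · simp only [if_pos h]; ring
    · simp only [if_neg h])
  refine ⟨φ, fun e => ?_⟩
  have := hφ e
  by_cases h : p e
  · simp only [if_pos h] at this ⊢
    linarith
  · simp only [if_neg h] at this ⊢
    exact this

/-- **The graph with poles has an algebraic dual.** -/
theorem pl_poleG (hpl : Pl G) (h : PD G σ β) : Pl (poleG G σ β) := by
  classical
  obtain ⟨E, F, _, _, _, _, s, t, l, r, ⟨g1, g2, g3⟩, ho, hf⟩ := hpl
  have hc : ∀ m, ∃ e, s(s e, t e) = s(σ m, β m) := fun m => g2 _ _ (h.adj m)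
  choose ε hε using hc
  have hinj : Function.Injective ε := fun m m' hm => h.edge_inj (by rw [← hε m, ← hε m', hm])
  set p : E → Prop := fun e => ∃ m, ε m = e ∧ s e ≠ σ m with hp
  set s1 : E → V := fun e => if p e then t e else s e with hs1
  set t1 : E → V := fun e => if p e then s e else t e with ht1
  set l1 : E → F := fun e => if p e then r e else l e with hl1
  set r1 : E → F := fun e => if p e then l e else r e with hr1
  have ho1 : Orth s1 t1 l1 r1 := orth_flip p ho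
  have hf1 : Full s1 t1 l1 r1 := full_flip p hf
  have hst : ∀ e, s(s1 e, t1 e) = s(s e, t e) := by
    intro e
    by_cases hpe : p e
    · simp only [hs1, ht1, if_pos hpe]
      exact Sym2.eq_swap
    · simp only [hs1, ht1, if_neg hpe]
  have hm1 : ∀ m, s1 (ε m) = σ m ∧ t1 (ε m) = β m := by
    intro m
    have h1 := hε m
    by_cases h2 : s (ε m) = σ m
    · have h3 : ¬ p (ε m) := by
        rintro ⟨m', h4, h5⟩
        rw [hinj h4] at h5
        exact h5 h2
      simp only [hs1, ht1, if_neg h3]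
      rcases Sym2.eq_iff.1 h1 with ⟨h4, h5⟩ | ⟨h4, h5⟩
      · exact ⟨h4, h5⟩
      · exact absurd (h4.symm.trans h2) (h.adj m).ne.symm
    · have h3 : p (ε m) := ⟨m, rfl, h2⟩
      simp only [hs1, ht1, if_pos h3]
      rcases Sym2.eq_iff.1 h1 with ⟨h4, h5⟩ | ⟨h4, h5⟩
      · exact absurd h4 h2
      · exact ⟨h5, h4⟩
  obtain ⟨ho2, hf2⟩ := dual_poles ho1 hf1 hinj
  refine ⟨E ⊕ (M × Fin 11), F ⊕ (M × Fin 4), inferInstance, inferInstance, inferInstance,
    inferInstance, _, _, _, _, ⟨?_, ?_, ?_⟩, ho2, hf2⟩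
  · rintro (e | ⟨m, i⟩)
    · by_cases he : ∃ m, ε m = e
      · obtain ⟨m, rfl⟩ := he
        rw [ps_inl hinj _ m rfl]
        show (poleG G σ β).Adj (Sum.inr (m, 6)) (Sum.inl (t1 (ε m)))
        rw [(hm1 m).2, adj_rl]
        exact Or.inr ⟨rfl, rfl⟩
      · rw [ps_inl' _ he]
        show (poleG G σ β).Adj (Sum.inl (s1 e)) (Sum.inl (t1 e))
        rw [adj_ll]
        constructor
        · rw [← SimpleGraph.mem_edgeSet, hst]
          exact g1 e
        · intro m h1
          rw [hst, ← hε m] at h1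
          exact he ⟨m, (g3 h1).symm⟩
    · show (poleG G σ β).Adj (vt (s1 (ε m)) m (bs i)) (vt (s1 (ε m)) m (bt i))
      rw [(hm1 m).1]
      exact adj_vt m (blk_i i)
  · have hpole : ∀ (m : M) (a b : Option (Fin 7)), blk a b → ∃ e,
        s(ps s1 ε e, pt s1 t1 ε e) = s(vt (σ m) m a, vt (σ m) m b) := by
      rintro m a b ⟨i, ⟨rfl, rfl⟩ | ⟨rfl, rfl⟩⟩
      · refine ⟨Sum.inr (m, i), ?_⟩
        show s(vt (s1 (ε m)) m (bs i), vt (s1 (ε m)) m (bt i)) = _
        rw [(hm1 m).1]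
      · refine ⟨Sum.inr (m, i), ?_⟩
        show s(vt (s1 (ε m)) m (bs i), vt (s1 (ε m)) m (bt i)) = _
        rw [(hm1 m).1]
        exact Sym2.eq_swap
    have hlr : ∀ (u : V) (m : M) (j : Fin 7), (u = σ m ∧ blk none (some j)) ∨ (u = β m ∧ j = 6) →
        ∃ e, s(ps s1 ε e, pt s1 t1 ε e) = s(Sum.inl u, Sum.inr (m, j)) := by
      rintro u m j (⟨rfl, h1⟩ | ⟨rfl, rfl⟩)
      · exact hpole m _ _ h1
      · refine ⟨Sum.inl (ε m), ?_⟩
        rw [ps_inl hinj _ m rfl]
        show s(Sum.inr (m, 6), Sum.inl (t1 (ε m))) = _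
        rw [(hm1 m).2]
        exact Sym2.eq_swap
    rintro (u | ⟨m, i⟩) (v | ⟨m', j⟩) huv
    · obtain ⟨h1, h2⟩ := adj_ll.1 huv
      obtain ⟨e, he⟩ := g2 u v h1
      have he' : ¬ ∃ m, ε m = e := by
        rintro ⟨m, rfl⟩
        exact h2 m (he.symm.trans (hε m))
      refine ⟨Sum.inl e, ?_⟩
      rw [ps_inl' _ he']
      show s(Sum.inl (s1 e), Sum.inl (t1 e)) = _
      have h3 := (hst e).trans he
      rcases Sym2.eq_iff.1 h3 with ⟨h4, h5⟩ | ⟨h4, h5⟩
      · rw [h4, h5]
      · rw [h4, h5]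
        exact Sym2.eq_swap
    · exact hlr u m' j huv
    · obtain ⟨e, he⟩ := hlr v m i huv
      exact ⟨e, he.trans Sym2.eq_swap⟩
    · obtain ⟨h1, h2⟩ := adj_rr.1 huv
      subst h1
      exact hpole m _ _ h2
  · have hbt : ∀ i : Fin 11, bt i ≠ none := by decide
    have hb6 : ∀ i : Fin 11, bs i = none → bt i ≠ some 6 := by decide
    have hvt : ∀ (v : V) (m : M) (a : Option (Fin 7)) (w : V),
        (vt v m a : V ⊕ (M × Fin 7)) = Sum.inl w → a = none := by
      intro v m a w h1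
      rcases a with _ | a
      · rfl
      · simp [vt] at h1
    have hmix : ∀ (e : E) (m : M) (i : Fin 11),
        s(ps s1 ε (Sum.inl e), pt s1 t1 ε (Sum.inl e)) ≠
          s(ps s1 ε (Sum.inr (m, i)), pt s1 t1 ε (Sum.inr (m, i))) := by
      intro e m i h1
      have h1' : s(ps s1 ε (Sum.inl e), (Sum.inl (t1 e) : V ⊕ (M × Fin 7))) =
        s(vt (s1 (ε m)) m (bs i), vt (s1 (ε m)) m (bt i)) := h1
      rcases Sym2.eq_iff.1 h1' with ⟨h2, h3⟩ | ⟨h2, h3⟩
      · exact hbt i (hvt _ _ _ _ h3.symm)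
      · have h4 := hvt _ _ _ _ h3.symm
        by_cases he : ∃ m, ε m = e
        · obtain ⟨m', rfl⟩ := he
          rw [ps_inl hinj _ m' rfl] at h2
          have h5 : (vt (σ m) m' (some 6) : V ⊕ (M × Fin 7)) = vt (s1 (ε m)) m (bt i) := h2
          exact hb6 i h4 (vt_inj h5).1.symm
        · rw [ps_inl' _ he] at h2
          exact hbt i (hvt _ _ _ _ h2.symm)
    rintro (e | ⟨m, i⟩) (e' | ⟨m', i'⟩) hee
    · have h1 : s(ps s1 ε (Sum.inl e), (Sum.inl (t1 e) : V ⊕ (M × Fin 7))) =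
        s(ps s1 ε (Sum.inl e'), (Sum.inl (t1 e') : V ⊕ (M × Fin 7))) := hee
      by_cases he : ∃ m, ε m = e
      · obtain ⟨m, rfl⟩ := he
        rw [ps_inl hinj _ m rfl] at h1
        by_cases he' : ∃ m, ε m = e'
        · obtain ⟨m', rfl⟩ := he'
          rw [ps_inl hinj _ m' rfl] at h1
          rcases Sym2.eq_iff.1 h1 with ⟨h2, -⟩ | ⟨h2, -⟩
          · simp only [Sum.inr.injEq, Prod.mk.injEq, and_true] at h2
            rw [h2]
          · simp at h2
        · rw [ps_inl' _ he'] at h1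
          rcases Sym2.eq_iff.1 h1 with ⟨h2, -⟩ | ⟨h2, -⟩ <;> simp at h2
      · rw [ps_inl' _ he] at h1
        by_cases he' : ∃ m, ε m = e'
        · obtain ⟨m', rfl⟩ := he'
          rw [ps_inl hinj _ m' rfl] at h1
          rcases Sym2.eq_iff.1 h1 with ⟨h2, -⟩ | ⟨-, h2⟩ <;> simp at h2
        · rw [ps_inl' _ he'] at h1
          have h2 : s(s1 e, t1 e) = s(s1 e', t1 e') := by
            rcases Sym2.eq_iff.1 h1 with ⟨h2, h3⟩ | ⟨h2, h3⟩
            · rw [Sum.inl.inj h2, Sum.inl.inj h3]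
            · rw [Sum.inl.inj h2, Sum.inl.inj h3]
              exact Sym2.eq_swap
          rw [hst, hst] at h2
          rw [g3 h2]
    · exact absurd hee (hmix e m' i')
    · exact absurd hee.symm (hmix e' m i)
    · have h1 : s((vt (s1 (ε m)) m (bs i) : V ⊕ (M × Fin 7)), vt (s1 (ε m)) m (bt i)) =
        s(vt (s1 (ε m')) m' (bs i'), vt (s1 (ε m')) m' (bt i')) := hee
      rw [(hm1 m).1, (hm1 m').1] at h1
      obtain ⟨h2, h3⟩ := pole_edge_inj h1
      rw [h2, h3]

end

end Pool.Agent.Poles
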