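import Mathlib
import Pool.Agent.Work.MP_392c8e_co_uni.Poles
import Pool.Agent.Work.MP_392c8e_co_t1.FaceBase

/-!
# The graph with cube poles: degrees, triangles, connectivity, rotation
-/

namespace Pool.Agent.Poles

open Finset Pool.Agent.Red Pool.Agent.Sub392 Pool.Agent.T392

set_option linter.unusedSectionVars false

/-- The two classes of the cube. -/
def cpar : Option (Fin 7) → Bool
  | none => false
  | some j => (![true, true, false, false, false, true, true] : Fin 7 → Bool) j

theorem cpar_ne : ∀ a b, blk a b → cpar a ≠ cpar b := by decide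

theorem no_tri_blk {a b c : Option (Fin 7)} (h1 : blk a b) (h2 : blk b c) (h3 : blk a c) :
    False := by
  have e1 := cpar_ne _ _ h1
  have e2 := cpar_ne _ _ h2
  have e3 := cpar_ne _ _ h3
  revert e1 e2 e3
  generalize cpar a = x
  generalize cpar b = y
  generalize cpar c = z
  revert x y z
  decide

/-- The neighbours in the pole. -/
def nbt : Fin 7 → List (Fin 7) :=
  ![[2, 4], [3, 4], [0, 6, 5], [1, 6, 5], [0, 1, 5], [2, 3, 4], [2, 3]]

theorem blk_nbt : ∀ j i : Fin 7, blk (some j) (some i) ↔ i ∈ nbt j := by decide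

theorem blk_none : ∀ j : Fin 7, blk none (some j) ↔ j = 0 ∨ j = 1 := by decide

/-- A set of vertices of the pole which is not trivial has two different crossing edges. -/
theorem two_cross : ∀ A : Fin 7 → Bool, ∀ a0 : Bool, (∃ j, A j ≠ a0) →
    ∃ i i' : Fin 11, i ≠ i' ∧
      (bs i).elim a0 A ≠ (bt i).elim a0 A ∧ (bs i').elim a0 A ≠ (bt i').elim a0 A := by
  decide +kernel

section

variable {V M : Type} [Fintype V] [DecidableEq V] [Fintype M] [DecidableEq M]
  {G : SimpleGraph V} {σ β : M → V}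

instance [DecidableRel G.Adj] : DecidableRel (poleG G σ β).Adj := fun x y => by
  rcases x with u | a <;> rcases y with v | b
  · exact inferInstanceAs (Decidable (G.Adj u v ∧ ∀ m, s(u, v) ≠ s(σ m, β m)))
  · exact inferInstanceAs (Decidable ((u = σ b.1 ∧ blk none (some b.2)) ∨ (u = β b.1 ∧ b.2 = 6)))
  · exact inferInstanceAs (Decidable ((v = σ a.1 ∧ blk none (some a.2)) ∨ (v = β a.1 ∧ a.2 = 6)))
  · exact inferInstanceAs (Decidable (a.1 = b.1 ∧ blk (some a.2) (some b.2)))

/-! ### Triangles -/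

theorem tri_inr (h : PD G σ β) {m : M} {i : Fin 7} {y z : V ⊕ (M × Fin 7)}
    (h1 : (poleG G σ β).Adj (Sum.inr (m, i)) y) (h2 : (poleG G σ β).Adj (Sum.inr (m, i)) z)
    (h3 : (poleG G σ β).Adj y z) : False := by
  have h06 : ¬ blk none (some 6) := by decide
  have h66 : ¬ blk (some 6) (some 6) := by decide
  have key : ∀ (u : V) (m' : M) (j : Fin 7), (poleG G σ β).Adj (Sum.inr (m, i)) (Sum.inl u) →
      (poleG G σ β).Adj (Sum.inr (m, i)) (Sum.inr (m', j)) →
      (poleG G σ β).Adj (Sum.inl u) (Sum.inr (m', j)) → False := by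
    intro u m' j a b c
    obtain ⟨e, b1⟩ := adj_rr.1 b
    subst e
    rcases adj_rl.1 a with ⟨a1, a2⟩ | ⟨a1, a2⟩ <;> rcases adj_lr.1 c with ⟨c1, c2⟩ | ⟨c1, c2⟩
    · exact no_tri_blk a2 b1 c2
    · exact (h.adj m).ne (a1.symm.trans c1)
    · exact (h.adj m).ne (c1.symm.trans a1)
    · subst a2
      subst c2
      exact h66 b1
  rcases y with u | ⟨m1, j⟩ <;> rcases z with v | ⟨m2, k⟩
  · rcases adj_rl.1 h1 with ⟨rfl, a⟩ | ⟨rfl, rfl⟩ <;> rcases adj_rl.1 h2 with ⟨rfl, b⟩ | ⟨rfl, b⟩
    · exact (poleG G σ β).loopless.irrefl _ h3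
    · subst b
      exact h06 a
    · exact h06 b
    · exact (poleG G σ β).loopless.irrefl _ h3
  · exact key _ _ _ h1 h2 h3
  · exact key _ _ _ h2 h1 h3.symm
  · obtain ⟨rfl, a⟩ := adj_rr.1 h1
    obtain ⟨rfl, b⟩ := adj_rr.1 h2
    obtain ⟨-, c⟩ := adj_rr.1 h3
    exact no_tri_blk a c b

/-- **No triangles.** -/
theorem cliqueFree_poleG (h : PD G σ β) (ht : G.CliqueFree 3) : (poleG G σ β).CliqueFree 3 := by
  classical
  intro s hs
  rw [SimpleGraph.is3Clique_iff] at hs
  obtain ⟨a, b, c, hab, hac, hbc, rfl⟩ := hs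
  rcases a with u | ⟨m, i⟩
  · rcases b with v | ⟨m, i⟩
    · rcases c with w | ⟨m, i⟩
      · refine ht {u, v, w} ?_
        rw [SimpleGraph.is3Clique_iff]
        exact ⟨u, v, w, hab.1, hac.1, hbc.1, rfl⟩
      · exact tri_inr h hac.symm hbc.symm hab
    · exact tri_inr h hab.symm hbc hac
  · exact tri_inr h hab hac hbc

/-! ### Degrees -/

theorem degree_inr [DecidableRel G.Adj] (m : M) (j : Fin 7) :
    (poleG G σ β).degree (Sum.inr (m, j)) = 3 := by
  have h1 : (poleG G σ β).neighborFinset (Sum.inr (m, j)) =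
      ((nbt j).toFinset.image fun i => (Sum.inr (m, i) : V ⊕ (M × Fin 7))) ∪
        ((if j = 0 ∨ j = 1 then {Sum.inl (σ m)} else ∅) ∪ (if j = 6 then {Sum.inl (β m)} else ∅)) := by
    ext x
    rw [SimpleGraph.mem_neighborFinset]
    rcases x with u | ⟨m', i⟩
    · rw [adj_rl, blk_none]
      simp only [mem_union, mem_image, reduceCtorEq, and_false, exists_false, false_or]
      by_cases h0 : j = 0 ∨ j = 1
      · have h6 : j ≠ 6 := by rcases h0 with rfl | rfl <;> decide
        simp [h0, h6]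
      · by_cases h6 : j = 6
        · subst h6
          simp
        · simp [h0, h6]
    · rw [adj_rr, blk_nbt]
      have h2 : ∀ (p : Prop) [Decidable p] (w : V), (Sum.inr (m', i) : V ⊕ (M × Fin 7)) ∉
          (if p then {Sum.inl w} else ∅ : Finset (V ⊕ (M × Fin 7))) := by
        intro p _ w
        split_ifs <;> simp
      simp only [mem_union, h2, or_false, mem_image, List.mem_toFinset, Sum.inr.injEq,
        Prod.mk.injEq]
      constructor
      · rintro ⟨rfl, h3⟩
        exact ⟨i, h3, rfl, rfl⟩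
      · rintro ⟨i', h3, rfl, rfl⟩
        exact ⟨rfl, h3⟩
  rw [← SimpleGraph.card_neighborFinset_eq_degree, h1]
  have hinj : Function.Injective fun i : Fin 7 => (Sum.inr (m, i) : V ⊕ (M × Fin 7)) := by
    intro a b hab
    simpa using hab
  rw [card_union_of_disjoint, card_image_of_injective _ hinj]
  · fin_cases j <;> simp [nbt]
  · rw [disjoint_left]
    rintro x hx hx'
    obtain ⟨i, -, rfl⟩ := mem_image.1 hx
    rw [mem_union] at hx'
    rcases hx' with hx' | hx' <;> split_ifs at hx' <;> simp at hx'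

theorem degree_base [DecidableRel G.Adj] (h : PD G σ β) {m : M} (hm : G.degree (σ m) = 2) :
    (poleG G σ β).degree (Sum.inl (σ m)) = 3 := by
  have h1 : (poleG G σ β).neighborFinset (Sum.inl (σ m)) =
      (((G.neighborFinset (σ m)).erase (β m)).image Sum.inl) ∪
        {Sum.inr (m, 0), Sum.inr (m, 1)} := by
    ext x
    rw [SimpleGraph.mem_neighborFinset]
    rcases x with u | ⟨m', i⟩
    · rw [adj_ll]
      simp only [mem_union, mem_image, mem_erase, SimpleGraph.mem_neighborFinset, Sum.inl.injEq,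
        exists_eq_right, mem_insert, reduceCtorEq, mem_singleton, or_self, or_false]
      constructor
      · rintro ⟨a, b⟩
        refine ⟨?_, a⟩
        rintro rfl
        exact b m rfl
      · rintro ⟨a, b⟩
        refine ⟨b, fun m' h2 => ?_⟩
        rcases Sym2.eq_iff.1 h2 with ⟨h3, h4⟩ | ⟨h3, h4⟩
        · rw [h.inj h3] at a
          exact a h4
        · exact h.nb m' m h3.symm
    · rw [adj_lr, blk_none]
      simp only [mem_union, mem_image, reduceCtorEq, and_false, exists_false, false_or, mem_insert,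
        mem_singleton, Sum.inr.injEq, Prod.mk.injEq]
      constructor
      · rintro (⟨h2, h3⟩ | ⟨h2, -⟩)
        · rw [h.inj h2]
          rcases h3 with h3 | h3 <;> simp [h3]
        · exact absurd h2.symm (h.nb m' m)
      · rintro (⟨rfl, rfl⟩ | ⟨rfl, rfl⟩) <;> simp
  rw [← SimpleGraph.card_neighborFinset_eq_degree, h1, card_union_of_disjoint,
    card_image_of_injective _ Sum.inl_injective, card_erase_of_mem, card_pair,
    SimpleGraph.card_neighborFinset_eq_degree, hm]
  · simp
  · rw [SimpleGraph.mem_neighborFinset]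
    exact h.adj m
  · rw [disjoint_left]
    rintro x hx hx'
    obtain ⟨i, -, rfl⟩ := mem_image.1 hx
    simp at hx'

theorem degree_old [DecidableRel G.Adj] (h : PD G σ β) {v : V} (hv : ∀ m, σ m ≠ v) :
    (poleG G σ β).degree (Sum.inl v) = G.degree v := by
  classical
  have h1 : (poleG G σ β).neighborFinset (Sum.inl v) =
      (((G.neighborFinset v).filter fun w => ¬ ∃ m, σ m = w ∧ β m = v).image Sum.inl) ∪
        ((univ.filter fun m => β m = v).image fun m => Sum.inr (m, 6)) := by
    ext x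
    rw [SimpleGraph.mem_neighborFinset]
    rcases x with u | ⟨m', i⟩
    · rw [adj_ll]
      simp only [mem_union, mem_image, mem_filter, SimpleGraph.mem_neighborFinset, Sum.inl.injEq,
        exists_eq_right, reduceCtorEq, and_false, exists_false, or_false]
      constructor
      · rintro ⟨a, b⟩
        refine ⟨a, ?_⟩
        rintro ⟨m, rfl, rfl⟩
        exact b m Sym2.eq_swap
      · rintro ⟨a, b⟩
        refine ⟨a, fun m h2 => ?_⟩
        rcases Sym2.eq_iff.1 h2 with ⟨h3, h4⟩ | ⟨h3, h4⟩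
        · exact hv m h3.symm
        · exact b ⟨m, h4.symm, h3.symm⟩
    · rw [adj_lr]
      simp only [mem_union, mem_image, reduceCtorEq, and_false, exists_false, false_or, mem_filter,
        mem_univ, true_and, Sum.inr.injEq, Prod.mk.injEq]
      constructor
      · rintro (⟨h2, -⟩ | ⟨h2, h3⟩)
        · exact absurd h2.symm (hv m')
        · exact ⟨m', h2.symm, rfl, h3.symm⟩
      · rintro ⟨m, h2, rfl, h3⟩
        exact Or.inr ⟨h2.symm, h3.symm⟩
  have h2 : ((G.neighborFinset v).filter fun w => ∃ m, σ m = w ∧ β m = v) =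
      (univ.filter fun m => β m = v).image σ := by
    ext w
    simp only [mem_filter, SimpleGraph.mem_neighborFinset, mem_image, mem_univ, true_and]
    constructor
    · rintro ⟨-, m, rfl, h3⟩
      exact ⟨m, h3, rfl⟩
    · rintro ⟨m, h3, rfl⟩
      exact ⟨by rw [← h3]; exact (h.adj m).symm, m, rfl, h3⟩
  have h3 := card_filter_add_card_filter_not (s := G.neighborFinset v)
    (fun w => ∃ m, σ m = w ∧ β m = v)
  rw [h2, card_image_of_injective _ h.inj, SimpleGraph.card_neighborFinset_eq_degree] at h3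
  rw [← SimpleGraph.card_neighborFinset_eq_degree, h1, card_union_of_disjoint,
    card_image_of_injective _ Sum.inl_injective, card_image_of_injective]
  · omega
  · intro a b hab
    simpa using hab
  · rw [disjoint_left]
    rintro x hx hx'
    obtain ⟨i, -, rfl⟩ := mem_image.1 hx
    simp at hx'

/-- **All degrees are three.** -/
theorem degree_poleG [DecidableRel G.Adj] (h : PD G σ β)
    (hd : ∀ v, G.degree v = 3 ∨ ∃ m, σ m = v) (hm : ∀ m, G.degree (σ m) = 2) (x : V ⊕ (M × Fin 7)) :
    (poleG G σ β).degree x = 3 := by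
  rcases x with v | ⟨m, j⟩
  · by_cases hv : ∃ m, σ m = v
    · obtain ⟨m, rfl⟩ := hv
      exact degree_base h (hm m)
    · rw [degree_old h fun m hm => hv ⟨m, hm⟩]
      exact (hd v).resolve_right hv
  · exact degree_inr m j

/-! ### The projection -/

/-- The projection onto the old vertices. -/
def prj (σ : M → V) : V ⊕ (M × Fin 7) → V
  | Sum.inl v => v
  | Sum.inr a => σ a.1

/-- An edge projects to a vertex or to an edge. -/
theorem adj_prj (h : PD G σ β) {x y : V ⊕ (M × Fin 7)} (hxy : (poleG G σ β).Adj x y) :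
    G.Adj (prj σ x) (prj σ y) ∨ prj σ x = prj σ y := by
  rcases x with u | ⟨m, i⟩ <;> rcases y with v | ⟨m', j⟩
  · exact Or.inl hxy.1
  · rcases adj_lr.1 hxy with ⟨h1, -⟩ | ⟨h1, -⟩
    · exact Or.inr h1
    · left
      show G.Adj u (σ m')
      rw [h1]
      exact (h.adj m').symm
  · rcases adj_rl.1 hxy with ⟨h1, -⟩ | ⟨h1, -⟩
    · exact Or.inr h1.symm
    · left
      show G.Adj (σ m) v
      rw [h1]
      exact h.adj m
  · right
    show σ m = σ m'
    rw [(adj_rr.1 hxy).1]

/-- An old edge lifts. -/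
theorem exists_lift {u v : V} (huv : G.Adj u v) :
    ∃ x y, (poleG G σ β).Adj x y ∧ prj σ x = u ∧ prj σ y = v := by
  by_cases h1 : ∃ m, s(u, v) = s(σ m, β m)
  · obtain ⟨m, h1⟩ := h1
    rcases Sym2.eq_iff.1 h1 with ⟨rfl, rfl⟩ | ⟨rfl, rfl⟩
    · exact ⟨Sum.inr (m, 6), Sum.inl (β m), adj_rl.2 (Or.inr ⟨rfl, rfl⟩), rfl, rfl⟩
    · exact ⟨Sum.inl (β m), Sum.inr (m, 6), adj_lr.2 (Or.inr ⟨rfl, rfl⟩), rfl, rfl⟩
  · push Not at h1
    exact ⟨Sum.inl u, Sum.inl v, adj_ll.2 ⟨huv, h1⟩, rfl, rfl⟩

theorem reach_pole (m : M) (j : Fin 7) :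
    (poleG G σ β).Reachable (Sum.inl (σ m)) (Sum.inr (m, j)) := by
  have a : ∀ {a b : Option (Fin 7)}, blk a b → (poleG G σ β).Reachable (vt (σ m) m a)
      (vt (σ m) m b) := fun h => (adj_vt m h).reachable
  have h0 := a (a := none) (b := some 0) (by decide)
  have h1 := a (a := none) (b := some 1) (by decide)
  have h2 := a (a := some 0) (b := some 2) (by decide)
  have h3 := a (a := some 1) (b := some 3) (by decide)
  have h4 := a (a := some 0) (b := some 4) (by decide)
  have h5 := a (a := some 2) (b := some 5) (by decide)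
  have h6 := a (a := some 2) (b := some 6) (by decide)
  fin_cases j
  · exact h0
  · exact h1
  · exact h0.trans h2
  · exact h1.trans h3
  · exact h0.trans h4
  · exact (h0.trans h2).trans h5
  · exact (h0.trans h2).trans h6

theorem reach_fibre {x y : V ⊕ (M × Fin 7)} (h : prj σ x = prj σ y) :
    (poleG G σ β).Reachable x y := by
  have key : ∀ x : V ⊕ (M × Fin 7), (poleG G σ β).Reachable (Sum.inl (prj σ x)) x := by
    rintro (u | ⟨m, j⟩)
    · exact SimpleGraph.Reachable.refl _
    · exact reach_pole m j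
  exact (key x).symm.trans (by rw [h]; exact key y)

/-- **Connectivity.** -/
theorem connected_poleG (h : PD G σ β) (hc : G.Connected) : (poleG G σ β).Connected := by
  have : Nonempty V := hc.nonempty
  refine ⟨fun x y => ?_⟩
  have key : ∀ u v, G.Reachable u v →
      (poleG G σ β).Reachable (Sum.inl u) (Sum.inl v : V ⊕ (M × Fin 7)) := by
    rintro u v ⟨w⟩
    induction w with
    | nil => exact SimpleGraph.Reachable.refl _
    | @cons u v w huv _ ih =>
      obtain ⟨x, y, hxy, hx, hy⟩ := exists_lift (σ := σ) (β := β) huv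
      refine (reach_fibre (y := x) ?_).trans (hxy.reachable.trans
        ((reach_fibre (x := y) (y := Sum.inl v) ?_).trans ih))
      · exact hx.symm
      · exact hy
  exact (reach_fibre (x := x) (y := Sum.inl (prj σ x)) rfl).trans
    ((key _ _ (hc.preconnected _ _)).trans (reach_fibre (x := Sum.inl (prj σ y)) (y := y) rfl))

/-- **Every cut has two edges.** -/
theorem companion_poleG (h : PD G σ β)
    (hb : ∀ (S : V → Prop) (u v : V), S u → ¬ S v → G.Adj u v →
      ∃ u' v', S u' ∧ ¬ S v' ∧ G.Adj u' v' ∧ s(u', v') ≠ s(u, v))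
    (S : V ⊕ (M × Fin 7) → Prop) (x y : V ⊕ (M × Fin 7)) (hx : S x) (hy : ¬ S y)
    (hxy : (poleG G σ β).Adj x y) :
    ∃ x' y', S x' ∧ ¬ S y' ∧ (poleG G σ β).Adj x' y' ∧ s(x', y') ≠ s(x, y) := by
  classical
  by_cases hsp : ∃ (m : M) (j : Fin 7), (S (Sum.inr (m, j)) ↔ ¬ S (Sum.inl (σ m)))
  · obtain ⟨m, j, hj⟩ := hsp
    obtain ⟨i, i', hi, h1, h2⟩ := two_cross (fun j => decide (S (Sum.inr (m, j))))
      (decide (S (Sum.inl (σ m)))) ⟨j, by
        intro h3
        rw [decide_eq_decide] at h3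
        tauto⟩
    have hel : ∀ o : Option (Fin 7), o.elim (decide (S (Sum.inl (σ m))))
        (fun j => decide (S (Sum.inr (m, j)))) = decide (S (vt (σ m) m o)) := by
      intro o
      cases o <;> rfl
    rw [hel, hel] at h1 h2
    have cross : ∀ i : Fin 11, decide (S (vt (σ m) m (bs i))) ≠ decide (S (vt (σ m) m (bt i))) →
        ∃ x' y', S x' ∧ ¬ S y' ∧ (poleG G σ β).Adj x' y' ∧
          s(x', y') = s((vt (σ m) m (bs i) : V ⊕ (M × Fin 7)), vt (σ m) m (bt i)) := by
      intro i h3
      by_cases h4 : S (vt (σ m) m (bs i))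
      · refine ⟨_, _, h4, fun h5 => h3 ?_, adj_vt m (blk_i i), rfl⟩
        rw [decide_eq_decide]
        exact ⟨fun _ => h5, fun _ => h4⟩
      · refine ⟨_, _, ?_, h4, (adj_vt m (blk_i i)).symm, Sym2.eq_swap⟩
        by_contra h5
        exact h3 (by rw [decide_eq_decide]; exact ⟨fun h => absurd h h4, fun h => absurd h h5⟩)
    obtain ⟨x1, y1, a1, a2, a3, a4⟩ := cross i h1
    obtain ⟨x2, y2, b1, b2, b3, b4⟩ := cross i' h2
    by_cases h3 : s(x1, y1) = s(x, y)
    · refine ⟨x2, y2, b1, b2, b3, fun h4 => hi ?_⟩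
      have h5 := h3.trans h4.symm
      rw [a4, b4] at h5
      exact (pole_edge_inj h5).2
    · exact ⟨x1, y1, a1, a2, a3, h3⟩
  · push Not at hsp
    have hS : ∀ x, S x ↔ S (Sum.inl (prj σ x)) := by
      rintro (u | ⟨m, j⟩)
      · exact Iff.rfl
      · have := hsp m j
        show S (Sum.inr (m, j)) ↔ S (Sum.inl (σ m))
        tauto
    have hne : prj σ x ≠ prj σ y := by
      intro h1
      rw [hS, h1, ← hS] at hx
      exact hy hx
    have h1 := (adj_prj h hxy).resolve_right hne
    obtain ⟨u', v', c1, c2, c3, c4⟩ := hb (fun u => S (Sum.inl u)) _ _ ((hS x).1 hx)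
      (fun h2 => hy ((hS y).2 h2)) h1
    obtain ⟨x', y', d1, d2, d3⟩ := exists_lift (σ := σ) (β := β) c3
    refine ⟨x', y', ?_, ?_, d1, fun h2 => c4 ?_⟩
    · rw [hS, d2]
      exact c1
    · rw [hS, d3]
      exact c2
    · have := congrArg (Sym2.map (prj σ)) h2
      rw [Sym2.map_mk, Sym2.map_mk] at this
      simpa [d2, d3] using this

/-- **The graph with poles can be drawn on the sphere**, and the two faces at an edge are
different. -/
theorem exists_rot_poleG [DecidableRel G.Adj] (h : PD G σ β) (hpl : Pl G) (hc : G.Connected)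
    (hne : ∃ u v, G.Adj u v)
    (hd : ∀ v, G.degree v = 3 ∨ ∃ m, σ m = v) (hm : ∀ m, G.degree (σ m) = 2)
    (hb : ∀ (S : V → Prop) (u v : V), S u → ¬ S v → G.Adj u v →
      ∃ u' v', S u' ∧ ¬ S v' ∧ G.Adj u' v' ∧ s(u', v') ≠ s(u, v)) :
    ∃ R : Rot (poleG G σ β), R.Plane ∧ ∀ d : (poleG G σ β).Dart, R.face d ≠ R.face d.symm := by
  obtain ⟨R, hR⟩ := exists_rot_of_pl (pl_poleG hpl h) (connected_poleG h hc) (by
      obtain ⟨u, v, huv⟩ := hne
      obtain ⟨x, y, hxy, -, -⟩ := exists_lift (σ := σ) (β := β) huv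
      exact ⟨x, y, hxy⟩)
    (fun x => (degree_poleG h hd hm x).le) (companion_poleG h hb)
  exact ⟨R, hR, face_ne_of_nobridge R hR (companion_poleG h hb)⟩

end

end Pool.Agent.Poles
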