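import Mathlib
import Pool.Agent.Work.MP_392c8e_co_uni.Poles2
import Pool.Agent.Work.MP_392c8e_co_uni.GrowthB

/-!
# The surgery which gives the graph back

The vertices of the poles are deleted, one path through every pole is kept: the new graph is the
graph with the vertices of degree two.
-/

namespace Pool.Agent.Poles

open Finset Pool.Agent.Red Pool.Agent.Sub392 Pool.Agent.T392 Pool.Agent.Uni392
open Pool.Agent.Uni91 (VD OnP Cs full ends cs_cons)
open Pool.Agent.T1Red (newG Deg3 HasStrict pl_newG deg3_iff)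

set_option linter.unusedSectionVars false

section

variable {V M : Type} [Fintype V] [DecidableEq V] [Fintype M] [DecidableEq M]
  {G : SimpleGraph V} {σ β : M → V}

/-- The new vertices. -/
def I0 (V M : Type) : V ⊕ (M × Fin 7) → Prop := fun x => ∃ m j, x = Sum.inr (m, j)

/-- The path through a pole. -/
def pth (σ β : M → V) (m : M) :
    (V ⊕ (M × Fin 7)) × List (V ⊕ (M × Fin 7)) × (V ⊕ (M × Fin 7)) :=
  (Sum.inl (σ m), [Sum.inr (m, 0), Sum.inr (m, 2), Sum.inr (m, 6)], Sum.inl (β m))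

/-- The paths. -/
noncomputable def P0 (σ β : M → V) :
    List ((V ⊕ (M × Fin 7)) × List (V ⊕ (M × Fin 7)) × (V ⊕ (M × Fin 7))) :=
  (univ : Finset M).toList.map (pth σ β)

theorem mem_P0 {q : (V ⊕ (M × Fin 7)) × List (V ⊕ (M × Fin 7)) × (V ⊕ (M × Fin 7))} :
    q ∈ P0 σ β ↔ ∃ m, pth σ β m = q := by
  unfold P0
  simp

theorem cs_iff {A : Type*} {a b c d e : A} {u v : A} : Cs [a, b, c, d, e] u v ↔
    (u = a ∧ v = b) ∨ (u = b ∧ v = c) ∨ (u = c ∧ v = d) ∨ (u = d ∧ v = e) := by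
  simp only [cs_cons, List.cons.injEq, exists_and_left, exists_eq', and_true]
  have h : ¬ Cs ([] : List A) u v := by
    rintro ⟨l1, l2, h⟩
    simp at h
  simp only [h, or_false]
  simp [eq_comm]

theorem onP_pth {m : M} {x y : V ⊕ (M × Fin 7)} : OnP (pth σ β m) x y ↔
    (x = Sum.inl (σ m) ∧ y = Sum.inr (m, 0)) ∨ (x = Sum.inr (m, 0) ∧ y = Sum.inr (m, 2)) ∨
    (x = Sum.inr (m, 2) ∧ y = Sum.inr (m, 6)) ∨ (x = Sum.inr (m, 6) ∧ y = Sum.inl (β m)) ∨
    (y = Sum.inl (σ m) ∧ x = Sum.inr (m, 0)) ∨ (y = Sum.inr (m, 0) ∧ x = Sum.inr (m, 2)) ∨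
    (y = Sum.inr (m, 2) ∧ x = Sum.inr (m, 6)) ∨ (y = Sum.inr (m, 6) ∧ x = Sum.inl (β m)) := by
  unfold OnP full pth
  simp only [List.cons_append, List.nil_append]
  rw [cs_iff, cs_iff]
  tauto

/-- **The data of the surgery.** -/
theorem vd_poles (h : PD G σ β) : VD (poleG G σ β) (I0 V M) (P0 σ β) where
  chain := by
    intro p hp
    obtain ⟨m, rfl⟩ := mem_P0.1 hp
    have hne : σ m ≠ β m := (h.adj m).ne
    constructor
    · show List.IsChain (poleG G σ β).Adj [Sum.inl (σ m), Sum.inr (m, 0), Sum.inr (m, 2),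
        Sum.inr (m, 6), Sum.inl (β m)]
      simp only [List.isChain_cons_cons, List.isChain_singleton, and_true]
      refine ⟨adj_lr.2 (Or.inl ⟨rfl, by decide⟩), adj_rr.2 ⟨rfl, by decide⟩,
        adj_rr.2 ⟨rfl, by decide⟩, adj_rl.2 (Or.inr ⟨rfl, rfl⟩)⟩
    · show List.Nodup [Sum.inl (σ m), Sum.inr (m, 0), Sum.inr (m, 2), Sum.inr (m, 6),
        Sum.inl (β m)]
      simp [hne]
  disj := by
    unfold P0
    rw [List.pairwise_map]
    refine (Finset.nodup_toList _).imp ?_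
    intro m m' hm
    constructor
    · intro x hx
      simp only [pth, List.mem_cons, List.not_mem_nil, or_false] at hx
      simp only [full, pth, List.cons_append, List.nil_append, List.mem_cons, List.not_mem_nil,
        or_false]
      rcases hx with rfl | rfl | rfl <;> simp [hm]
    · intro x hx
      simp only [pth, List.mem_cons, List.not_mem_nil, or_false] at hx
      simp only [full, pth, List.cons_append, List.nil_append, List.mem_cons, List.not_mem_nil,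
        or_false]
      rcases hx with rfl | rfl | rfl <;> simp [Ne.symm hm]
  int := by
    intro p hp x hx
    obtain ⟨m, rfl⟩ := mem_P0.1 hp
    simp only [pth, List.mem_cons, List.not_mem_nil, or_false] at hx
    rcases hx with rfl | rfl | rfl <;> exact ⟨_, _, rfl⟩
  edge := by
    intro p hp u v huv
    obtain ⟨m, rfl⟩ := mem_P0.1 hp
    rcases onP_pth.1 huv with ⟨h1, h2⟩ | ⟨h1, h2⟩ | ⟨h1, h2⟩ | ⟨h1, h2⟩ | ⟨h1, h2⟩ | ⟨h1, h2⟩ |
      ⟨h1, h2⟩ | ⟨h1, h2⟩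
    · exact Or.inr ⟨_, _, h2⟩
    · exact Or.inr ⟨_, _, h2⟩
    · exact Or.inr ⟨_, _, h2⟩
    · exact Or.inl ⟨_, _, h1⟩
    · exact Or.inl ⟨_, _, h2⟩
    · exact Or.inl ⟨_, _, h2⟩
    · exact Or.inl ⟨_, _, h2⟩
    · exact Or.inr ⟨_, _, h1⟩
  edisj := by
    unfold P0
    rw [List.pairwise_map]
    refine (Finset.nodup_toList _).imp ?_
    intro m m' hm u v h1 h2
    rw [onP_pth] at h1 h2
    rcases h1 with ⟨rfl, rfl⟩ | ⟨rfl, rfl⟩ | ⟨rfl, rfl⟩ | ⟨rfl, rfl⟩ | ⟨rfl, rfl⟩ | ⟨rfl, rfl⟩ |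
      ⟨rfl, rfl⟩ | ⟨rfl, rfl⟩ <;> simp [hm, Ne.symm hm] at h2

/-- The new edges. -/
theorem mem_ends {x y : V ⊕ (M × Fin 7)} : (x, y) ∈ ends (P0 σ β) ↔
    ∃ m, x = Sum.inl (σ m) ∧ y = Sum.inl (β m) := by
  unfold ends
  rw [List.mem_map]
  constructor
  · rintro ⟨q, hq, h1⟩
    obtain ⟨m, rfl⟩ := mem_P0.1 hq
    refine ⟨m, ?_, ?_⟩
    · exact (congrArg Prod.fst h1).symm
    · exact (congrArg Prod.snd h1).symm
  · rintro ⟨m, rfl, rfl⟩
    exact ⟨pth σ β m, mem_P0.2 ⟨m, rfl⟩, rfl⟩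

/-- **The new graph** on the old vertices is the old graph. -/
theorem newG_ll (h : PD G σ β) {u v : V} :
    (newG (poleG G σ β) (I0 V M) (ends (P0 σ β))).Adj (Sum.inl u) (Sum.inl v) ↔ G.Adj u v := by
  have h0 : ∀ u : V, ¬ I0 V M (Sum.inl u) := by
    rintro u ⟨m, j, h1⟩
    simp at h1
  constructor
  · rintro (⟨h1, -, -⟩ | ⟨-, h2 | h2⟩)
    · exact h1.1
    · obtain ⟨m, h3, h4⟩ := mem_ends.1 h2
      rw [Sum.inl.inj h3, Sum.inl.inj h4]
      exact h.adj m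
    · obtain ⟨m, h3, h4⟩ := mem_ends.1 h2
      rw [Sum.inl.inj h3, Sum.inl.inj h4]
      exact (h.adj m).symm
  · intro huv
    by_cases h1 : ∃ m, s(u, v) = s(σ m, β m)
    · obtain ⟨m, h1⟩ := h1
      right
      refine ⟨fun h2 => huv.ne (Sum.inl.inj h2), ?_⟩
      rcases Sym2.eq_iff.1 h1 with ⟨rfl, rfl⟩ | ⟨rfl, rfl⟩
      · exact Or.inl (mem_ends.2 ⟨m, rfl, rfl⟩)
      · exact Or.inr (mem_ends.2 ⟨m, rfl, rfl⟩)
    · push Not at h1
      exact Or.inl ⟨adj_ll.2 ⟨huv, h1⟩, h0 u, h0 v⟩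

/-- The new vertices are isolated in the new graph. -/
theorem newG_r {a : M × Fin 7} {y : V ⊕ (M × Fin 7)} :
    ¬ (newG (poleG G σ β) (I0 V M) (ends (P0 σ β))).Adj (Sum.inr a) y := by
  rintro (⟨-, h2, -⟩ | ⟨-, h2 | h2⟩)
  · exact h2 ⟨a.1, a.2, rfl⟩
  · obtain ⟨m, h3, -⟩ := mem_ends.1 h2
    simp at h3
  · obtain ⟨m, -, h3⟩ := mem_ends.1 h2
    simp at h3

/-- The new graph is the image of the old graph. -/
theorem newG_map (h : PD G σ β) : newG (poleG G σ β) (I0 V M) (ends (P0 σ β)) =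
    G.map (Function.Embedding.inl : V ↪ V ⊕ (M × Fin 7)) := by
  ext x y
  rw [SimpleGraph.map_adj]
  constructor
  · intro hxy
    rcases x with u | a
    · rcases y with v | b
      · exact ⟨u, v, (newG_ll h).1 hxy, rfl, rfl⟩
      · exact absurd hxy.symm newG_r
    · exact absurd hxy newG_r
  · rintro ⟨u, v, huv, rfl, rfl⟩
    exact (newG_ll h).2 huv

theorem pl_base (h : PD G σ β) (hpl : Pl G) :
    Pl (newG (poleG G σ β) (I0 V M) (ends (P0 σ β))) := by
  have hd := vd_poles h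
  refine pl_newG (pl_poleG hpl h) _ _ (P0 σ β) hd.chain hd.disj hd.int fun e he => ?_
  unfold ends at he
  obtain ⟨q, hq, h1⟩ := List.mem_map.1 he
  exact ⟨q, hq, Or.inl ⟨by rw [← h1], by rw [← h1]⟩⟩

theorem cliqueFree_base (h : PD G σ β) (ht : G.CliqueFree 3) :
    (newG (poleG G σ β) (I0 V M) (ends (P0 σ β))).CliqueFree 3 := by
  classical
  intro s hs
  rw [SimpleGraph.is3Clique_iff] at hs
  obtain ⟨a, b, c, hab, hac, hbc, rfl⟩ := hs
  rcases a with u | a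
  · rcases b with v | b
    · rcases c with w | c
      · refine ht {u, v, w} ?_
        rw [SimpleGraph.is3Clique_iff]
        exact ⟨u, v, w, (newG_ll h).1 hab, (newG_ll h).1 hac, (newG_ll h).1 hbc, rfl⟩
      · exact newG_r hac.symm
    · exact newG_r hab.symm
  · exact newG_r hab

theorem deg3_base (h : PD G σ β) (hd : Deg3 G) :
    Deg3 (newG (poleG G σ β) (I0 V M) (ends (P0 σ β))) := by
  classical
  intro x A hA
  rcases x with u | a
  · have h1 : A ⊆ (A.preimage Sum.inl Sum.inl_injective.injOn).image Sum.inl := by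
      intro y hy
      rcases y with v | b
      · exact mem_image.2 ⟨v, by simpa using hy, rfl⟩
      · exact absurd (hA _ hy).symm newG_r
    refine (card_le_card h1).trans (card_image_le.trans (hd u _ fun w hw => ?_))
    exact (newG_ll h).1 (hA _ (by simpa using hw))
  · have h1 : A = ∅ := by
      rw [eq_empty_iff_forall_notMem]
      exact fun y hy => newG_r (hA y hy)
    rw [h1]
    simp

/-- A colouring of the new graph is a colouring of the old graph. -/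
theorem strictN_old (h : PD G σ β) {n : ℕ}
    (hs : StrictN (newG (poleG G σ β) (I0 V M) (ends (P0 σ β))) n) : StrictN G n := by
  obtain ⟨c, τ, h1, h2⟩ := hs
  exact ⟨fun v => c (Sum.inl v), fun v => τ (Sum.inl v), fun v => h1 _,
    fun u v huv => h2 _ _ ((newG_ll h).2 huv)⟩

theorem length_P0 {q : (V ⊕ (M × Fin 7)) × List (V ⊕ (M × Fin 7)) × (V ⊕ (M × Fin 7))}
    (hq : q ∈ P0 σ β) : q.2.1.length = 3 := by
  obtain ⟨m, rfl⟩ := mem_P0.1 hq
  rfl

/-- At every base of a pole an edge is deleted. -/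
theorem del_base (m : M) :
    Del (poleG G σ β) (I0 V M) (P0 σ β) (Sum.inl (σ m)) (Sum.inr (m, 1)) := by
  refine ⟨adj_lr.2 (Or.inl ⟨rfl, by decide⟩), Or.inr ⟨_, _, rfl⟩, ?_⟩
  intro p hp h1
  obtain ⟨m', rfl⟩ := mem_P0.1 hp
  rw [onP_pth] at h1
  simp at h1

theorem del_new (m : M) {i j : Fin 7} (hb : blk (some i) (some j))
    (hij : ¬ ((i = 0 ∧ j = 2) ∨ (i = 2 ∧ j = 0) ∨ (i = 2 ∧ j = 6) ∨ (i = 6 ∧ j = 2))) :
    Del (poleG G σ β) (I0 V M) (P0 σ β) (Sum.inr (m, i)) (Sum.inr (m, j)) := by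
  refine ⟨adj_rr.2 ⟨rfl, hb⟩, Or.inl ⟨_, _, rfl⟩, ?_⟩
  intro p hp h1
  obtain ⟨m', rfl⟩ := mem_P0.1 hp
  rw [onP_pth] at h1
  simp only [Sum.inr.injEq, Prod.mk.injEq, reduceCtorEq, and_false, false_and, false_or,
    or_false] at h1
  tauto

/-- Every new vertex is an inner vertex of a path or has a deleted edge. -/
theorem inn_or_del {x : V ⊕ (M × Fin 7)} (hx : I0 V M x) :
    Inn (P0 σ β) x ∨ ∃ y, Del (poleG G σ β) (I0 V M) (P0 σ β) x y := by
  obtain ⟨m, j, rfl⟩ := hx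
  have h0 : ∀ j : Fin 7, (j = 0 ∨ j = 2 ∨ j = 6) ∨ ∃ i, blk (some j) (some i) ∧
      ¬ ((j = 0 ∧ i = 2) ∨ (j = 2 ∧ i = 0) ∨ (j = 2 ∧ i = 6) ∨ (j = 6 ∧ i = 2)) := by decide
  rcases h0 j with h1 | ⟨i, h1, h2⟩
  · left
    refine ⟨pth σ β m, mem_P0.2 ⟨m, rfl⟩, ?_⟩
    rcases h1 with rfl | rfl | rfl <;> simp [pth]
  · exact Or.inr ⟨_, del_new m h1 h2⟩

end

end Pool.Agent.Poles
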