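import Mathlib
import Pool.Agent.Work.MP_392c8e_co_uni.Poles3
import Pool.Agent.Work.MP_392c8e_co_uni.GeoBase

/-!
# Small cuts of the graph with cube poles are near the poles
-/

namespace Pool.Agent.Poles

open Finset Pool.Agent.Red Pool.Agent.Sub392 Pool.Agent.T392 Pool.Agent.Uni392 Pool.Agent.U2Geo

set_option linter.unusedSectionVars false

section cuts

variable {V : Type} [Fintype V] [DecidableEq V] {G : SimpleGraph V} [DecidableRel G.Adj]

/-- The ordered pairs which leave a set. -/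
def outp (G : SimpleGraph V) [DecidableRel G.Adj] (A : Finset V) : Finset (V × V) :=
  univ.filter fun p => G.Adj p.1 p.2 ∧ p.1 ∈ A ∧ p.2 ∉ A

theorem mem_outp {A : Finset V} {p : V × V} :
    p ∈ outp G A ↔ G.Adj p.1 p.2 ∧ p.1 ∈ A ∧ p.2 ∉ A := by
  unfold outp; simp

theorem card_outp (A : Finset V) : #(outp G A) = out G A := by
  symm
  unfold out
  refine Finset.card_bij (fun d _ => (d.fst, d.snd)) ?_ ?_ ?_
  · intro d hd
    simp only [mem_filter, mem_univ, true_and] at hd
    exact mem_outp.2 ⟨d.adj, hd.1, hd.2⟩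
  · intro d _ d' _ h
    exact SimpleGraph.Dart.ext _ _ h
  · rintro ⟨u, v⟩ hp
    obtain ⟨h1, h2, h3⟩ := mem_outp.1 hp
    exact ⟨⟨(u, v), h1⟩, mem_filter.2 ⟨mem_univ _, h2, h3⟩, rfl⟩

/-- The edges from a vertex to the complement. -/
theorem star_out {S : Finset V} {z : V} (hz : z ∈ S) :
    G.degree z ≤ #((outp G S).filter fun p => p.1 = z) + #((S.erase z).filter fun w => G.Adj z w) := by
  have h1 : G.neighborFinset z =
      ((G.neighborFinset z).filter fun w => w ∉ S) ∪ ((G.neighborFinset z).filter fun w => w ∈ S) := by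
    ext w
    simp only [mem_union, mem_filter]
    tauto
  rw [← G.card_neighborFinset_eq_degree, h1]
  refine (card_union_le _ _).trans (Nat.add_le_add ?_ ?_)
  · refine card_le_card_of_injOn (fun w => (z, w)) ?_ ?_
    · intro w hw
      simp only [coe_filter, Set.mem_ofPred_eq, SimpleGraph.mem_neighborFinset] at hw
      exact mem_coe.2 (mem_filter.2 ⟨mem_outp.2 ⟨hw.1, hz, hw.2⟩, rfl⟩)
    · intro w _ w' _ h
      exact (Prod.ext_iff.1 h).2
  · refine card_le_card ?_
    intro w hw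
    simp only [mem_filter, SimpleGraph.mem_neighborFinset] at hw
    simp only [mem_filter, mem_erase]
    exact ⟨⟨hw.1.ne', hw.2⟩, hw.1⟩

/-- A small set with an inner vertex has three leaving edges. -/
theorem three_out {S : Finset V} {z : V} (hz : z ∈ S) (hS : #S ≤ 2) (hd : G.degree z = 3)
    (hn : ∀ w, G.Adj z w → G.degree w = 3) : 3 ≤ out G S := by
  rw [← card_outp]
  have h1 := star_out (G := G) hz
  have h2 : #(S.erase z) ≤ 1 := by
    rw [card_erase_of_mem hz]; omega
  by_cases h3 : ∃ w ∈ S.erase z, G.Adj z w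
  · obtain ⟨w, hw, hzw⟩ := h3
    have hwS : w ∈ S := mem_of_mem_erase hw
    have h4 := star_out (G := G) hwS
    have h5 : #(S.erase w) ≤ 1 := by
      rw [card_erase_of_mem hwS]; omega
    have h6 : #((outp G S).filter fun p => p.1 = z) + #((outp G S).filter fun p => p.1 = w) ≤
        #(outp G S) := by
      rw [← card_union_of_disjoint]
      · refine card_le_card ?_
        intro p hp
        simp only [mem_union, mem_filter] at hp
        rcases hp with hp | hp <;> exact hp.1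
      · rw [disjoint_filter]
        intro p _ h7 h8
        exact hzw.ne (h7.symm.trans h8)
    have h7 := card_filter_le (S.erase z) fun v => G.Adj z v
    have h8 := card_filter_le (S.erase w) fun v => G.Adj w v
    have h9 := hn w hzw
    omega
  · have h4 : (S.erase z).filter (fun w => G.Adj z w) = ∅ := by
      rw [filter_eq_empty_iff]
      intro w hw h5
      exact h3 ⟨w, hw, h5⟩
    rw [h4, card_empty] at h1
    have h5 := card_filter_le (outp G S) fun p => p.1 = z
    omega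

/-- The inner vertex is the only vertex of a side with one vertex of degree three. -/
theorem only_of_side {S : Finset V} {z : V} (hz : z ∈ S) (hd : G.degree z = 3)
    (hn : ∀ w, G.Adj z w → G.degree w = 3) (ho : out G S ≤ 3)
    (hc1 : ∀ A : Finset V, A.Nonempty → Aᶜ.Nonempty → 2 ≤ out G A)
    (h3 : #(S.filter fun v => G.degree v = 3) ≤ 1) : S = {z} := by
  have h4 : ∀ w ∈ S, w ≠ z → G.degree w ≠ 3 := by
    intro w hw hwz h5
    have h6 : ({w, z} : Finset V) ⊆ S.filter fun v => G.degree v = 3 := by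
      intro v hv
      rw [mem_insert, mem_singleton] at hv
      rcases hv with rfl | rfl
      · exact mem_filter.2 ⟨hw, h5⟩
      · exact mem_filter.2 ⟨hz, hd⟩
    have h7 := card_le_card h6
    rw [card_pair hwz] at h7
    omega
  by_contra h5
  have h6 : (S.erase z).Nonempty := by
    by_contra h7
    rw [not_nonempty_iff_eq_empty] at h7
    refine h5 ?_
    rw [← insert_erase hz, h7]
    rfl
  have h7 := hc1 (S.erase z) h6 ⟨z, by simp⟩
  have h8 := star_out (G := G) hz
  have h9 : (S.erase z).filter (fun w => G.Adj z w) = ∅ := by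
    rw [filter_eq_empty_iff]
    intro w hw h10
    exact h4 w (mem_of_mem_erase hw) (ne_of_mem_erase hw) (hn w h10)
  rw [h9, card_empty] at h8
  have h10 : #((outp G S).filter fun p => p.1 = z) + #(outp G (S.erase z)) ≤ #(outp G S) := by
    rw [← card_union_of_disjoint]
    · refine card_le_card ?_
      intro p hp
      simp only [mem_union, mem_filter, mem_outp] at hp ⊢
      rcases hp with hp | hp
      · exact hp.1
      · refine ⟨hp.1, mem_of_mem_erase hp.2.1, fun h11 => ?_⟩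
        by_cases h12 : p.2 = z
        · refine h4 p.1 (mem_of_mem_erase hp.2.1) (ne_of_mem_erase hp.2.1) (hn _ ?_)
          rw [← h12]
          exact hp.1.symm
        · exact hp.2.2 (mem_erase.2 ⟨h12, h11⟩)
    · rw [disjoint_left]
      intro p h11 h12
      rw [mem_filter] at h11
      rw [mem_outp] at h12
      exact ne_of_mem_erase h12.2.1 h11.2
  rw [card_outp, card_outp] at h10
  omega

end cuts

section

variable {V M : Type} [Fintype V] [DecidableEq V] [Fintype M] [DecidableEq M]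
  {G : SimpleGraph V} [DecidableRel G.Adj] {σ β : M → V}

/-- The vertices at the poles. -/
def BV (σ β : M → V) : V ⊕ (M × Fin 7) → Prop
  | Sum.inl v => (∃ m, v = σ m) ∨ ∃ m, v = β m
  | Sum.inr _ => True

/-- The old vertices of a set. -/
def tr (A : Finset (V ⊕ (M × Fin 7))) : Finset V := univ.filter fun v => Sum.inl v ∈ A

theorem mem_tr {A : Finset (V ⊕ (M × Fin 7))} {v : V} : v ∈ tr A ↔ Sum.inl v ∈ A := by
  unfold tr; simp

/-- A pole which is split has two leaving edges. -/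
theorem two_of_split {A : Finset (V ⊕ (M × Fin 7))} {m : M} {j : Fin 7}
    (h : ¬ (Sum.inr (m, j) ∈ A ↔ Sum.inl (σ m) ∈ A)) :
    ∃ p q : (V ⊕ (M × Fin 7)) × (V ⊕ (M × Fin 7)), p ≠ q ∧ p ∈ outp (poleG G σ β) A ∧
      q ∈ outp (poleG G σ β) A ∧ (∃ i, s(p.1, p.2) = s(vt (σ m) m (bs i), vt (σ m) m (bt i))) ∧
      ∃ i, s(q.1, q.2) = s(vt (σ m) m (bs i), vt (σ m) m (bt i)) := by
  classical
  have e1 : ∀ i : Fin 11, ∀ o : Option (Fin 7),
      o.elim (decide (Sum.inl (σ m) ∈ A)) (fun j => decide (Sum.inr (m, j) ∈ A)) =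
        decide (vt (σ m) m o ∈ A) := by
    intro i o
    rcases o with _ | o <;> rfl
  obtain ⟨i, i', h1, h2, h3⟩ := two_cross (fun j => decide (Sum.inr (m, j) ∈ A))
    (decide (Sum.inl (σ m) ∈ A)) ⟨j, fun h1 => h (by simpa using h1)⟩
  rw [e1 i, e1 i] at h2
  rw [e1 i, e1 i] at h3
  have key : ∀ i : Fin 11, decide (vt (σ m) m (bs i) ∈ A) ≠ decide (vt (σ m) m (bt i) ∈ A) →
      ∃ p : (V ⊕ (M × Fin 7)) × (V ⊕ (M × Fin 7)), p ∈ outp (poleG G σ β) A ∧
        s(p.1, p.2) = s(vt (σ m) m (bs i), vt (σ m) m (bt i)) := by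
    intro i hi
    have h4 : (poleG G σ β).Adj (vt (σ m) m (bs i)) (vt (σ m) m (bt i)) := adj_vt m (blk_i i)
    by_cases h5 : vt (σ m) m (bs i) ∈ A
    · refine ⟨(vt (σ m) m (bs i), vt (σ m) m (bt i)), mem_outp.2 ⟨h4, h5, fun h6 => hi ?_⟩, rfl⟩
      have h7 : vt (σ m) m (bt i) ∈ A := h6
      rw [decide_eq_true h5, decide_eq_true h7]
    · refine ⟨(vt (σ m) m (bt i), vt (σ m) m (bs i)), mem_outp.2 ⟨h4.symm, ?_, h5⟩, Sym2.eq_swap⟩
      by_contra h6
      exact hi (by rw [decide_eq_false h5, decide_eq_false h6])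
  obtain ⟨p, hp, hpi⟩ := key i h2
  obtain ⟨q, hq, hqi⟩ := key i' h3
  refine ⟨p, q, ?_, hp, hq, ⟨i, hpi⟩, ⟨i', hqi⟩⟩
  rintro rfl
  exact h1 (pole_edge_inj (hpi.symm.trans hqi)).2

/-- The edges of a pole project to a point. -/
theorem prj_vt (m : M) (o : Option (Fin 7)) : prj σ (vt (σ m) m o) = σ m := by
  rcases o with _ | o <;> rfl

theorem prj_block {p : (V ⊕ (M × Fin 7)) × (V ⊕ (M × Fin 7))} {m : M} {i : Fin 11}
    (h : s(p.1, p.2) = s(vt (σ m) m (bs i), vt (σ m) m (bt i))) :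
    prj σ p.1 = σ m ∧ prj σ p.2 = σ m := by
  rcases Sym2.eq_iff.1 h with ⟨h1, h2⟩ | ⟨h1, h2⟩ <;> rw [h1, h2] <;>
    exact ⟨prj_vt m _, prj_vt m _⟩

/-- The lift of a leaving edge. -/
theorem exists_up (A : Finset (V ⊕ (M × Fin 7))) {u v : V} (huv : G.Adj u v)
    (hu : ∀ m, u = σ m → ∀ j, (Sum.inr (m, j) ∈ A ↔ Sum.inl (σ m) ∈ A))
    (hv : ∀ m, v = σ m → ∀ j, (Sum.inr (m, j) ∈ A ↔ Sum.inl (σ m) ∈ A))
    (h1 : u ∈ tr A) (h2 : v ∉ tr A) :
    ∃ x y, (poleG G σ β).Adj x y ∧ prj σ x = u ∧ prj σ y = v ∧ x ∈ A ∧ y ∉ A := by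
  obtain ⟨x, y, hxy, hx, hy⟩ := exists_lift (σ := σ) (β := β) huv
  have key : ∀ x : V ⊕ (M × Fin 7), (∀ m, prj σ x = σ m → ∀ j,
      (Sum.inr (m, j) ∈ A ↔ Sum.inl (σ m) ∈ A)) → (x ∈ A ↔ prj σ x ∈ tr A) := by
    rintro (u | ⟨m, j⟩) hm
    · exact mem_tr.symm
    · rw [mem_tr]
      exact hm m rfl j
  refine ⟨x, y, hxy, hx, hy, ?_, ?_⟩
  · rw [key x (by rw [hx]; exact hu), hx]
    exact h1
  · rw [key y (by rw [hy]; exact hv), hy]
    exact h2

/-- **A small cut is near a pole**, if the cut of the old vertices has a thin side. -/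
theorem near_pole_core
    (hd : ∀ v, G.degree v = 3 ∨ ∃ m, σ m = v) (hm : ∀ m, G.degree (σ m) = 2)
    (hc1 : ∀ A : Finset V, A.Nonempty → Aᶜ.Nonempty → 2 ≤ out G A)
    (hc2 : ∀ A : Finset V, out G A ≤ 2 → #A ≤ 2 ∨ #Aᶜ ≤ 2)
    {A : Finset (V ⊕ (M × Fin 7))}
    (hc3 : out G (tr A) ≤ 3 → #((tr A).filter fun v => G.degree v = 3) ≤ 1 ∨
      #((tr A)ᶜ.filter fun v => G.degree v = 3) ≤ 1)
    (hA : out (poleG G σ β) A ≤ 3) (hA1 : 2 ≤ #A)
    (hA2 : 2 ≤ #Aᶜ) {x y : V ⊕ (M × Fin 7)} (hxy : (poleG G σ β).Adj x y) (hx : x ∈ A)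
    (hy : y ∉ A) : ∃ w, BV σ β w ∧ (w = x ∨ w = y ∨ (poleG G σ β).Adj x w ∨
      (poleG G σ β).Adj y w) := by
  classical
  by_contra hcon
  push Not at hcon
  have hxB : ¬ BV σ β x := fun hb => (hcon x hb).1 rfl
  have hyB : ¬ BV σ β y := fun hb => (hcon y hb).2.1 rfl
  rcases x with u | a
  swap
  · exact hxB trivial
  rcases y with v | a
  swap
  · exact hyB trivial
  have hu : (∀ m, u ≠ σ m) ∧ ∀ m, u ≠ β m := by
    refine ⟨fun m hm => hxB (Or.inl ⟨m, hm⟩), fun m hm => hxB (Or.inr ⟨m, hm⟩)⟩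
  have hv : (∀ m, v ≠ σ m) ∧ ∀ m, v ≠ β m := by
    refine ⟨fun m hm => hyB (Or.inl ⟨m, hm⟩), fun m hm => hyB (Or.inr ⟨m, hm⟩)⟩
  have huv : G.Adj u v := (adj_ll.1 hxy).1
  -- the neighbours of the two vertices have degree three
  have hn : ∀ z : V, ((∀ m, z ≠ σ m) ∧ ∀ m, z ≠ β m) → (∀ w, BV σ β w →
      ¬ (poleG G σ β).Adj (Sum.inl z) w) → G.degree z = 3 ∧ ∀ w, G.Adj z w → G.degree w = 3 := by
    intro z hz hzw
    constructor
    · rcases hd z with h1 | ⟨m, h1⟩
      · exact h1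
      · exact absurd h1.symm (hz.1 m)
    · intro w hw
      rcases hd w with h1 | ⟨m, rfl⟩
      · exact h1
      · exfalso
        refine hzw (Sum.inl (σ m)) (Or.inl ⟨m, rfl⟩) (adj_ll.2 ⟨hw, fun m' h2 => ?_⟩)
        rcases Sym2.eq_iff.1 h2 with ⟨h3, -⟩ | ⟨h3, -⟩
        · exact hz.1 m' h3
        · exact hz.2 m' h3
  obtain ⟨hdu, hnu⟩ := hn u hu fun w hw => (hcon w hw).2.2.1
  obtain ⟨hdv, hnv⟩ := hn v hv fun w hw => (hcon w hw).2.2.2
  have hxm : (Sum.inl u, Sum.inl v) ∈ outp (poleG G σ β) A := mem_outp.2 ⟨hxy, hx, hy⟩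
  -- no pole is split
  have hsplit : ∀ m j, (Sum.inr (m, j) ∈ A ↔ Sum.inl (σ m) ∈ A) := by
    intro m0 j0
    by_contra hs
    obtain ⟨p, q, hpq, hp, hq, ⟨ip, hpi⟩, ⟨iq, hqi⟩⟩ := two_of_split (G := G) (β := β) hs
    have hpb := prj_block hpi
    have hqb := prj_block hqi
    have hall : ∀ r ∈ outp (poleG G σ β) A, r = (Sum.inl u, Sum.inl v) ∨ r = p ∨ r = q := by
      intro r hr
      by_contra h1
      push Not at h1
      have h2 : ({(Sum.inl u, Sum.inl v), p, q, r} : Finset _) ⊆ outp (poleG G σ β) A := by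
        intro s hs
        simp only [mem_insert, mem_singleton] at hs
        rcases hs with rfl | rfl | rfl | rfl
        exacts [hxm, hp, hq, hr]
      have h3 := card_le_card h2
      have e1 : (Sum.inl u, Sum.inl v) ≠ p := by
        rintro rfl
        exact hu.1 m0 hpb.1
      have e2 : (Sum.inl u, Sum.inl v) ≠ q := by
        rintro rfl
        exact hu.1 m0 hqb.1
      rw [card_insert_of_notMem, card_insert_of_notMem, card_insert_of_notMem, card_singleton,
        card_outp] at h3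
      · omega
      · simp only [mem_singleton]; exact h1.2.2.symm
      · simp only [mem_insert, mem_singleton, not_or]; exact ⟨hpq, h1.2.1.symm⟩
      · simp only [mem_insert, mem_singleton, not_or]; exact ⟨e1, e2, h1.1.symm⟩
    -- the other poles are not split
    have hoth : ∀ m, m ≠ m0 → ∀ j, (Sum.inr (m, j) ∈ A ↔ Sum.inl (σ m) ∈ A) := by
      intro m hmm j
      by_contra h1
      obtain ⟨p', q', hpq', hp', hq', ⟨ip', hpi'⟩, ⟨iq', hqi'⟩⟩ :=
        two_of_split (G := G) (β := β) h1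
      rcases hall p' hp' with h2 | h2 | h2
      · have := prj_block hpi'
        rw [h2] at this
        exact hu.1 m this.1
      · rw [h2] at hpi'
        exact hmm (pole_edge_inj (hpi'.symm.trans hpi)).1
      · rw [h2] at hpi'
        exact hmm (pole_edge_inj (hpi'.symm.trans hqi)).1
    -- the leaving edges not at the base
    have hlift : ∀ u' v', G.Adj u' v' → u' ≠ σ m0 → v' ≠ σ m0 → u' ∈ tr A → v' ∉ tr A →
        u' = u ∧ v' = v := by
      intro u' v' h1 h2 h3 h4 h5
      obtain ⟨x', y', h6, h7, h8, h9, h10⟩ := exists_up (σ := σ) (β := β) A h1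
        (fun m hm' j => hoth m (fun hmm => h2 (hm'.trans (by rw [hmm]))) j)
        (fun m hm' j => hoth m (fun hmm => h3 (hm'.trans (by rw [hmm]))) j) h4 h5
      rcases hall (x', y') (mem_outp.2 ⟨h6, h9, h10⟩) with h11 | h11 | h11
      · obtain ⟨rfl, rfl⟩ := Prod.ext_iff.1 h11
        exact ⟨h7.symm, h8.symm⟩
      · rw [← h11] at hpb
        exact absurd (h7.symm.trans hpb.1) h2
      · rw [← h11] at hqb
        exact absurd (h7.symm.trans hqb.1) h2
    have huA : u ∈ tr A := mem_tr.2 hx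
    have hvA : v ∉ tr A := fun h1 => hy (mem_tr.1 h1)
    set T1 : Finset V := (tr A).erase (σ m0) with hT1
    set T2 : Finset V := insert (σ m0) (tr A) with hT2
    have ho1 : out G T1 ≤ 1 + #((G.neighborFinset (σ m0)).filter fun w => w ∈ T1) := by
      rw [← card_outp]
      have h1 : outp G T1 ⊆ {(u, v)} ∪
          ((G.neighborFinset (σ m0)).filter fun w => w ∈ T1).image fun w => (w, σ m0) := by
        rintro ⟨u', v'⟩ hp'
        obtain ⟨h1, h2, h3⟩ := mem_outp.1 hp'
        rw [mem_union, mem_singleton, mem_image]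
        by_cases h4 : v' = σ m0
        · right
          refine ⟨u', mem_filter.2 ⟨?_, h2⟩, by rw [h4]⟩
          rw [SimpleGraph.mem_neighborFinset, ← h4]
          exact h1.symm
        · left
          obtain ⟨h5, h6⟩ := hlift u' v' h1 (ne_of_mem_erase h2) h4 (mem_of_mem_erase h2)
            fun h5 => h3 (mem_erase.2 ⟨h4, h5⟩)
          rw [h5, h6]
      refine (card_le_card h1).trans ((card_union_le _ _).trans (Nat.add_le_add ?_ card_image_le))
      rw [card_singleton]
    have ho2 : out G T2 ≤ 1 + #((G.neighborFinset (σ m0)).filter fun w => w ∉ T2) := by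
      rw [← card_outp]
      have h1 : outp G T2 ⊆ {(u, v)} ∪
          ((G.neighborFinset (σ m0)).filter fun w => w ∉ T2).image fun w => (σ m0, w) := by
        rintro ⟨u', v'⟩ hp'
        obtain ⟨h1, h2, h3⟩ := mem_outp.1 hp'
        rw [mem_union, mem_singleton, mem_image]
        by_cases h4 : u' = σ m0
        · right
          refine ⟨v', mem_filter.2 ⟨?_, h3⟩, by rw [h4]⟩
          rw [SimpleGraph.mem_neighborFinset, ← h4]
          exact h1
        · left
          have h3' : v' ≠ σ m0 ∧ v' ∉ tr A := by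
            constructor
            · intro h5; exact h3 (mem_insert.2 (Or.inl h5))
            · intro h5; exact h3 (mem_insert.2 (Or.inr h5))
          obtain ⟨h5, h6⟩ := hlift u' v' h1 h4 h3'.1 ((mem_insert.1 h2).resolve_left h4) h3'.2
          rw [h5, h6]
      refine (card_le_card h1).trans ((card_union_le _ _).trans (Nat.add_le_add ?_ card_image_le))
      rw [card_singleton]
    have hsum : #((G.neighborFinset (σ m0)).filter fun w => w ∈ T1) +
        #((G.neighborFinset (σ m0)).filter fun w => w ∉ T2) ≤ 2 := by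
      rw [← hm m0, ← G.card_neighborFinset_eq_degree, ← card_union_of_disjoint]
      · refine card_le_card ?_
        intro w hw
        rw [mem_union, mem_filter, mem_filter] at hw
        rcases hw with hw | hw <;> exact hw.1
      · rw [disjoint_filter]
        intro w _ h1 h2
        exact h2 (mem_insert_of_mem (mem_of_mem_erase h1))
    -- one of the two sets has two leaving edges
    have hT : ∃ T : Finset V, out G T ≤ 2 ∧ u ∈ T ∧ v ∉ T := by
      by_cases h1 : out G T1 ≤ 2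
      · exact ⟨T1, h1, mem_erase.2 ⟨hu.1 m0, huA⟩, fun h2 => hvA (mem_of_mem_erase h2)⟩
      · refine ⟨T2, by omega, mem_insert_of_mem huA, fun h2 => ?_⟩
        rcases mem_insert.1 h2 with h3 | h3
        · exact hv.1 m0 h3
        · exact hvA h3
    obtain ⟨T, hT0, huT, hvT⟩ := hT
    rcases hc2 T hT0 with h1 | h1
    · have := three_out huT h1 hdu hnu
      omega
    · have := three_out (G := G) (mem_compl.2 hvT) h1 hdv hnv
      rw [out_compl] at this
      omega
  -- the cut of the old graph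
  have hkey : ∀ u' v', G.Adj u' v' → u' ∈ tr A → v' ∉ tr A →
      ∃ x y, (poleG G σ β).Adj x y ∧ prj σ x = u' ∧ prj σ y = v' ∧ x ∈ A ∧ y ∉ A :=
    fun u' v' h1 h2 h3 => exists_up A h1 (fun m _ j => hsplit m j) (fun m _ j => hsplit m j) h2 h3
  have hout : out G (tr A) ≤ 3 := by
    refine le_trans ?_ hA
    rw [← card_outp, ← card_outp]
    have h1 : outp G (tr A) ⊆ (outp (poleG G σ β) A).image fun p => (prj σ p.1, prj σ p.2) := by
      rintro ⟨u', v'⟩ hp'
      obtain ⟨h1, h2, h3⟩ := mem_outp.1 hp'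
      obtain ⟨x', y', h4, h5, h6, h7, h8⟩ := hkey u' v' h1 h2 h3
      exact mem_image.2 ⟨(x', y'), mem_outp.2 ⟨h4, h7, h8⟩, by rw [h5, h6]⟩
    exact (card_le_card h1).trans card_image_le
  have hfin : ∀ (B : Finset (V ⊕ (M × Fin 7))) (z : V), (∀ m j, (Sum.inr (m, j) ∈ B ↔
      Sum.inl (σ m) ∈ B)) → (∀ m, z ≠ σ m) → tr B = {z} → 2 ≤ #B → False := by
    intro B z hB hz h1 h2
    have h3 : B ⊆ {Sum.inl z} := by
      rintro (w | ⟨m, j⟩) hw
      · have h4 : w ∈ tr B := mem_tr.2 hw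
        rw [h1, mem_singleton] at h4
        rw [h4, mem_singleton]
      · exfalso
        have h4 : σ m ∈ tr B := mem_tr.2 ((hB m j).1 hw)
        rw [h1, mem_singleton] at h4
        exact hz m h4.symm
    have h4 := card_le_card h3
    rw [card_singleton] at h4
    omega
  have htc : tr Aᶜ = (tr A)ᶜ := by
    ext w
    rw [mem_tr, mem_compl, mem_compl, mem_tr]
  rcases hc3 hout with h1 | h1
  · exact hfin A u hsplit hu.1 (only_of_side (mem_tr.2 hx) hdu hnu hout hc1 h1) hA1
  · refine hfin Aᶜ v (fun m j => ?_) hv.1 ?_ hA2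
    · rw [mem_compl, mem_compl, not_iff_not]
      exact hsplit m j
    · rw [htc]
      refine only_of_side (mem_compl.2 fun h2 => hy (mem_tr.1 h2)) hdv hnv ?_ hc1 h1
      rw [out_compl]
      exact hout

/-- **A small cut is near a pole.** -/
theorem near_pole_of_cut
    (hd : ∀ v, G.degree v = 3 ∨ ∃ m, σ m = v) (hm : ∀ m, G.degree (σ m) = 2)
    (hc1 : ∀ A : Finset V, A.Nonempty → Aᶜ.Nonempty → 2 ≤ out G A)
    (hc2 : ∀ A : Finset V, out G A ≤ 2 → #A ≤ 2 ∨ #Aᶜ ≤ 2)
    (hc3 : ∀ A : Finset V, out G A ≤ 3 → #(A.filter fun v => G.degree v = 3) ≤ 1 ∨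
      #(Aᶜ.filter fun v => G.degree v = 3) ≤ 1)
    {A : Finset (V ⊕ (M × Fin 7))} (hA : out (poleG G σ β) A ≤ 3) (hA1 : 2 ≤ #A)
    (hA2 : 2 ≤ #Aᶜ) {x y : V ⊕ (M × Fin 7)} (hxy : (poleG G σ β).Adj x y) (hx : x ∈ A)
    (hy : y ∉ A) : ∃ w, BV σ β w ∧ (w = x ∨ w = y ∨ (poleG G σ β).Adj x w ∨
      (poleG G σ β).Adj y w) :=
  near_pole_core hd hm hc1 hc2 (hc3 (tr A)) hA hA1 hA2 hxy hx hy

end

end Pool.Agent.Poles
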