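import Mathlib
import Pool.Agent.Work.MP_392c8e_co_uni.Poles4
import Pool.Agent.Work.MP_392c8e_co_uni.SpotA

/-!
# A surgery of the old graph together with the poles

`D` is the set of the deleted old vertices, `E` the list of the kept old paths. In the graph with
poles the vertices of the poles are deleted in addition; a path through a pole is kept if its two
ends are not deleted. The new graph is the new graph of the old surgery.
-/

namespace Pool.Agent.Poles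

open Finset Pool.Agent.Red Pool.Agent.Sub392 Pool.Agent.T392 Pool.Agent.Uni392
open Pool.Agent.Uni91 (VD OnP Cs full ends cs_cons)
open Pool.Agent.T1Red (newG Deg3 HasStrict pl_newG deg3_iff)

set_option linter.unusedSectionVars false

section

variable {V M : Type} [Fintype V] [DecidableEq V] [Fintype M] [DecidableEq M]
  {G : SimpleGraph V} {σ β : M → V} {D : V → Prop} {E : List (V × List V × V)}

/-- The deleted vertices. -/
def I1 (M : Type) (D : V → Prop) : V ⊕ (M × Fin 7) → Prop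
  | Sum.inl v => D v
  | Sum.inr _ => True

/-- An old path. -/
def lp (M : Type) (q : V × List V × V) :
    (V ⊕ (M × Fin 7)) × List (V ⊕ (M × Fin 7)) × (V ⊕ (M × Fin 7)) :=
  (Sum.inl q.1, q.2.1.map Sum.inl, Sum.inl q.2.2)

open Classical in
/-- The kept poles. -/
noncomputable def kept (σ β : M → V) (D : V → Prop) : Finset M :=
  univ.filter fun m => ¬ D (σ m) ∧ ¬ D (β m)

theorem mem_kept {m : M} : m ∈ kept σ β D ↔ ¬ D (σ m) ∧ ¬ D (β m) := by
  unfold kept; simp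

/-- The paths. -/
noncomputable def P1 (σ β : M → V) (D : V → Prop) (E : List (V × List V × V)) :
    List ((V ⊕ (M × Fin 7)) × List (V ⊕ (M × Fin 7)) × (V ⊕ (M × Fin 7))) :=
  E.map (lp M) ++ (kept σ β D).toList.map (pth σ β)

theorem mem_P1 {q : (V ⊕ (M × Fin 7)) × List (V ⊕ (M × Fin 7)) × (V ⊕ (M × Fin 7))} :
    q ∈ P1 σ β D E ↔ (∃ e ∈ E, lp M e = q) ∨ ∃ m ∈ kept σ β D, pth σ β m = q := by
  unfold P1
  simp

theorem full_lp (q : V × List V × V) : full (lp M q) = (full q).map Sum.inl := by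
  simp [full, lp]

theorem cs_map {A B : Type*} {f : A → B} {L : List A} {x y : B} :
    Cs (L.map f) x y ↔ ∃ u v, Cs L u v ∧ f u = x ∧ f v = y := by
  constructor
  · rintro ⟨l1, l2, h⟩
    obtain ⟨a1, a2, rfl, rfl, h2⟩ := List.map_eq_append_iff.1 h
    obtain ⟨u, b, rfl, rfl, h3⟩ := List.map_eq_cons_iff.1 h2
    obtain ⟨v, c, rfl, rfl, -⟩ := List.map_eq_cons_iff.1 h3
    exact ⟨u, v, ⟨a1, c, rfl⟩, rfl, rfl⟩
  · rintro ⟨u, v, ⟨l1, l2, rfl⟩, rfl, rfl⟩
    exact ⟨l1.map f, l2.map f, by simp⟩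

theorem onP_lp {q : V × List V × V} {x y : V ⊕ (M × Fin 7)} : OnP (lp M q) x y ↔
    ∃ u v, OnP q u v ∧ Sum.inl u = x ∧ Sum.inl v = y := by
  unfold OnP
  rw [full_lp, cs_map, cs_map]
  constructor
  · rintro (⟨u, v, h, h1, h2⟩ | ⟨u, v, h, h1, h2⟩)
    · exact ⟨u, v, Or.inl h, h1, h2⟩
    · exact ⟨v, u, Or.inr h, h2, h1⟩
  · rintro ⟨u, v, h | h, h1, h2⟩
    · exact Or.inl ⟨u, v, h, h1, h2⟩
    · exact Or.inr ⟨v, u, h, h2, h1⟩

theorem isChain_cs {A : Type*} {R : A → A → Prop} {L : List A} :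
    List.IsChain R L ↔ ∀ u v, Cs L u v → R u v := by
  induction L with
  | nil =>
    refine ⟨fun _ u v h => ?_, fun _ => List.IsChain.nil⟩
    obtain ⟨l1, l2, h⟩ := h
    simp at h
  | cons a L ih =>
    rcases L with _ | ⟨b, L⟩
    · refine ⟨fun _ u v h => ?_, fun _ => List.IsChain.singleton _⟩
      obtain ⟨l1, l2, h⟩ := h
      have := congrArg List.length h
      simp at this
      omega
    · rw [List.isChain_cons_cons, ih]
      constructor
      · rintro ⟨h1, h2⟩ u v h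
        rcases cs_cons.1 h with ⟨rfl, l, h3⟩ | h3
        · rw [List.cons.injEq] at h3
          rw [← h3.1]
          exact h1
        · exact h2 u v h3
      · intro h
        exact ⟨h a b ⟨[], L, rfl⟩, fun u v h1 => h u v (cs_cons.2 (Or.inr h1))⟩

/-- **The data of the surgery.** -/
theorem vd1 (h : PD G σ β) (hv : VD G D E)
    (hE : ∀ q ∈ E, ∀ u v, OnP q u v → ∀ m, s(u, v) ≠ s(σ m, β m)) :
    VD (poleG G σ β) (I1 M D) (P1 σ β D E) := by
  have hv0 := vd_poles h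
  have hsub : ∀ m, pth σ β m ∈ P0 σ β := fun m => mem_P0.2 ⟨m, rfl⟩
  have hint : ∀ m, ∀ x ∈ (pth σ β m).2.1, ∃ a, x = Sum.inr a := by
    intro m x hx
    obtain ⟨m', j, h1⟩ := hv0.int _ (hsub m) x hx
    exact ⟨_, h1⟩
  have hintE : ∀ q ∈ E, ∀ x ∈ (lp M q).2.1, ∃ v, x = Sum.inl v ∧ D v := by
    intro q hq x hx
    obtain ⟨v, hv1, rfl⟩ := List.mem_map.1 hx
    exact ⟨v, rfl, hv.int q hq v hv1⟩
  have hfull : ∀ m, ∀ x ∈ full (pth σ β m), (∃ a, x = Sum.inr a) ∨ x = Sum.inl (σ m) ∨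
      x = Sum.inl (β m) := by
    intro m x hx
    rcases List.mem_cons.1 hx with h1 | h1
    · exact Or.inr (Or.inl h1)
    · rcases List.mem_append.1 h1 with h2 | h2
      · exact Or.inl (hint m x h2)
      · exact Or.inr (Or.inr (List.mem_singleton.1 h2))
  have hnd : ((kept σ β D).toList).Nodup := Finset.nodup_toList _
  constructor
  · -- the paths
    intro p hp
    rcases mem_P1.1 hp with ⟨q, hq, rfl⟩ | ⟨m, -, rfl⟩
    · obtain ⟨h1, h2⟩ := hv.chain q hq
      refine ⟨?_, ?_⟩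
      · rw [isChain_cs] at h1 ⊢
        intro x y hxy
        rw [full_lp, cs_map] at hxy
        obtain ⟨u, v, h3, rfl, rfl⟩ := hxy
        exact adj_ll.2 ⟨h1 u v h3, hE q hq u v (Or.inl h3)⟩
      · rw [full_lp]
        exact h2.map Sum.inl_injective
    · exact hv0.chain _ (hsub m)
  · -- disjoint
    unfold P1
    rw [List.pairwise_append]
    refine ⟨?_, ?_, ?_⟩
    · rw [List.pairwise_map]
      refine hv.disj.imp ?_
      rintro p q ⟨h1, h2⟩
      constructor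
      · intro x hx
        obtain ⟨v, hv1, rfl⟩ := List.mem_map.1 hx
        rw [full_lp]
        intro h3
        obtain ⟨w, hw, h4⟩ := List.mem_map.1 h3
        rw [Sum.inl.inj h4] at hw
        exact h1 v hv1 hw
      · intro x hx
        obtain ⟨v, hv1, rfl⟩ := List.mem_map.1 hx
        rw [full_lp]
        intro h3
        obtain ⟨w, hw, h4⟩ := List.mem_map.1 h3
        rw [Sum.inl.inj h4] at hw
        exact h2 v hv1 hw
    · rw [List.pairwise_map]
      have h1 := hv0.disj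
      refine List.Pairwise.imp_of_mem ?_ hnd
      intro m m' _ _ hm
      refine ⟨fun x hx h2 => ?_, fun x hx h2 => ?_⟩
      · simp only [pth, List.mem_cons, List.not_mem_nil, or_false] at hx
        simp only [full, pth, List.cons_append, List.nil_append, List.mem_cons,
          List.not_mem_nil, or_false] at h2
        rcases hx with rfl | rfl | rfl <;> simp [hm] at h2
      · simp only [pth, List.mem_cons, List.not_mem_nil, or_false] at hx
        simp only [full, pth, List.cons_append, List.nil_append, List.mem_cons,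
          List.not_mem_nil, or_false] at h2
        rcases hx with rfl | rfl | rfl <;> simp [Ne.symm hm] at h2
    · intro p hp q hq
      obtain ⟨e, he, rfl⟩ := List.mem_map.1 hp
      obtain ⟨m, hm, rfl⟩ := List.mem_map.1 hq
      have hm' := mem_kept.1 (Finset.mem_toList.1 hm)
      constructor
      · intro x hx h1
        obtain ⟨v, rfl, hDv⟩ := hintE e he x hx
        rcases hfull m _ h1 with ⟨a, h2⟩ | h2 | h2
        · exact absurd h2 (by simp)
        · rw [Sum.inl.inj h2] at hDv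
          exact hm'.1 hDv
        · rw [Sum.inl.inj h2] at hDv
          exact hm'.2 hDv
      · intro x hx h1
        obtain ⟨a, rfl⟩ := hint m x hx
        rw [full_lp] at h1
        obtain ⟨w, -, h4⟩ := List.mem_map.1 h1
        exact absurd h4 (by simp)
  · intro p hp x hx
    rcases mem_P1.1 hp with ⟨q, hq, rfl⟩ | ⟨m, -, rfl⟩
    · obtain ⟨v, rfl, hDv⟩ := hintE q hq x hx
      exact hDv
    · obtain ⟨a, rfl⟩ := hint m x hx
      trivial
  · intro p hp x y hxy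
    rcases mem_P1.1 hp with ⟨q, hq, rfl⟩ | ⟨m, -, rfl⟩
    · obtain ⟨u, v, h1, rfl, rfl⟩ := onP_lp.1 hxy
      exact hv.edge q hq u v h1
    · rcases hv0.edge _ (hsub m) x y hxy with ⟨m', j, rfl⟩ | ⟨m', j, rfl⟩
      · exact Or.inl trivial
      · exact Or.inr trivial
  · -- edges
    unfold P1
    rw [List.pairwise_append]
    refine ⟨?_, ?_, ?_⟩
    · rw [List.pairwise_map]
      refine hv.edisj.imp ?_
      intro p q h1 x y h2 h3
      obtain ⟨u, v, h4, rfl, rfl⟩ := onP_lp.1 h2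
      obtain ⟨u', v', h5, h6, h7⟩ := onP_lp.1 h3
      rw [Sum.inl.inj h6, Sum.inl.inj h7] at h5
      exact h1 u v h4 h5
    · rw [List.pairwise_map]
      refine List.Pairwise.imp_of_mem ?_ hnd
      intro m m' _ _ hm u v h1 h2
      rw [onP_pth] at h1 h2
      rcases h1 with ⟨rfl, rfl⟩ | ⟨rfl, rfl⟩ | ⟨rfl, rfl⟩ | ⟨rfl, rfl⟩ | ⟨rfl, rfl⟩ | ⟨rfl, rfl⟩ |
        ⟨rfl, rfl⟩ | ⟨rfl, rfl⟩ <;> simp [hm, Ne.symm hm] at h2
    · intro p hp q hq x y h1 h2
      obtain ⟨e, he, rfl⟩ := List.mem_map.1 hp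
      obtain ⟨m, hm, rfl⟩ := List.mem_map.1 hq
      obtain ⟨u, v, -, rfl, rfl⟩ := onP_lp.1 h1
      rcases hv0.edge _ (hsub m) _ _ h2 with ⟨m', j, h3⟩ | ⟨m', j, h3⟩ <;> simp at h3

/-- The new edges. -/
theorem mem_ends1 {x y : V ⊕ (M × Fin 7)} : (x, y) ∈ ends (P1 σ β D E) ↔
    (∃ u v, (u, v) ∈ ends E ∧ x = Sum.inl u ∧ y = Sum.inl v) ∨
    ∃ m ∈ kept σ β D, x = Sum.inl (σ m) ∧ y = Sum.inl (β m) := by
  unfold ends
  rw [List.mem_map]
  constructor
  · rintro ⟨q, hq, h1⟩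
    rcases mem_P1.1 hq with ⟨e, he, rfl⟩ | ⟨m, hm, rfl⟩
    · left
      refine ⟨e.1, e.2.2, List.mem_map.2 ⟨e, he, rfl⟩, ?_, ?_⟩
      · exact (congrArg Prod.fst h1).symm
      · exact (congrArg Prod.snd h1).symm
    · right
      refine ⟨m, hm, ?_, ?_⟩
      · exact (congrArg Prod.fst h1).symm
      · exact (congrArg Prod.snd h1).symm
  · rintro (⟨u, v, h1, rfl, rfl⟩ | ⟨m, hm, rfl, rfl⟩)
    · obtain ⟨e, he, h2⟩ := List.mem_map.1 h1
      refine ⟨lp M e, mem_P1.2 (Or.inl ⟨e, he, rfl⟩), ?_⟩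
      have h3 := congrArg Prod.fst h2
      have h4 := congrArg Prod.snd h2
      simp only at h3 h4
      rw [← h3, ← h4]
      rfl
    · exact ⟨pth σ β m, mem_P1.2 (Or.inr ⟨m, hm, rfl⟩), rfl⟩

/-- **The new graph** on the old vertices. -/
theorem newG1_ll (h : PD G σ β) {u v : V} :
    (newG (poleG G σ β) (I1 M D) (ends (P1 σ β D E))).Adj (Sum.inl u) (Sum.inl v) ↔
      (newG G D (ends E)).Adj u v := by
  constructor
  · rintro (⟨h1, h2, h3⟩ | ⟨h1, h2 | h2⟩)
    · exact Or.inl ⟨h1.1, h2, h3⟩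
    · rcases mem_ends1.1 h2 with ⟨u', v', h3, h4, h5⟩ | ⟨m, hm, h3, h4⟩
      · rw [← Sum.inl.inj h4, ← Sum.inl.inj h5] at h3
        exact Or.inr ⟨fun h6 => h1 (by rw [h6]), Or.inl h3⟩
      · rw [Sum.inl.inj h3, Sum.inl.inj h4]
        exact Or.inl ⟨h.adj m, (mem_kept.1 hm).1, (mem_kept.1 hm).2⟩
    · rcases mem_ends1.1 h2 with ⟨u', v', h3, h4, h5⟩ | ⟨m, hm, h3, h4⟩
      · rw [← Sum.inl.inj h4, ← Sum.inl.inj h5] at h3
        exact Or.inr ⟨fun h6 => h1 (by rw [h6]), Or.inr h3⟩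
      · rw [Sum.inl.inj h3, Sum.inl.inj h4]
        exact Or.inl ⟨(h.adj m).symm, (mem_kept.1 hm).2, (mem_kept.1 hm).1⟩
  · rintro (⟨huv, h2, h3⟩ | ⟨h1, h2 | h2⟩)
    · by_cases h1 : ∃ m, s(u, v) = s(σ m, β m)
      · obtain ⟨m, h1⟩ := h1
        right
        refine ⟨fun h4 => huv.ne (Sum.inl.inj h4), ?_⟩
        rcases Sym2.eq_iff.1 h1 with ⟨rfl, rfl⟩ | ⟨rfl, rfl⟩
        · exact Or.inl (mem_ends1.2 (Or.inr ⟨m, mem_kept.2 ⟨h2, h3⟩, rfl, rfl⟩))
        · exact Or.inr (mem_ends1.2 (Or.inr ⟨m, mem_kept.2 ⟨h3, h2⟩, rfl, rfl⟩))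
      · push Not at h1
        exact Or.inl ⟨adj_ll.2 ⟨huv, h1⟩, h2, h3⟩
    · exact Or.inr ⟨fun h4 => h1 (Sum.inl.inj h4), Or.inl (mem_ends1.2 (Or.inl ⟨u, v, h2, rfl, rfl⟩))⟩
    · exact Or.inr ⟨fun h4 => h1 (Sum.inl.inj h4), Or.inr (mem_ends1.2 (Or.inl ⟨v, u, h2, rfl, rfl⟩))⟩

/-- The vertices of the poles are isolated in the new graph. -/
theorem newG1_r {a : M × Fin 7} {y : V ⊕ (M × Fin 7)} :
    ¬ (newG (poleG G σ β) (I1 M D) (ends (P1 σ β D E))).Adj (Sum.inr a) y := by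
  rintro (⟨-, h2, -⟩ | ⟨-, h2 | h2⟩)
  · exact h2 trivial
  · rcases mem_ends1.1 h2 with ⟨u', v', -, h4, -⟩ | ⟨m, -, h4, -⟩ <;> simp at h4
  · rcases mem_ends1.1 h2 with ⟨u', v', -, -, h4⟩ | ⟨m, -, -, h4⟩ <;> simp at h4

/-- The new graph is the image of the new graph of the old surgery. -/
theorem newG1_map (h : PD G σ β) : newG (poleG G σ β) (I1 M D) (ends (P1 σ β D E)) =
    (newG G D (ends E)).map (Function.Embedding.inl : V ↪ V ⊕ (M × Fin 7)) := by
  ext x y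
  rw [SimpleGraph.map_adj]
  constructor
  · intro hxy
    rcases x with u | a
    · rcases y with v | b
      · exact ⟨u, v, (newG1_ll h).1 hxy, rfl, rfl⟩
      · exact absurd hxy.symm newG1_r
    · exact absurd hxy newG1_r
  · rintro ⟨u, v, huv, rfl, rfl⟩
    exact (newG1_ll h).2 huv

theorem pl1 (h : PD G σ β) (hpl : Pl G) (hv : VD G D E)
    (hE : ∀ q ∈ E, ∀ u v, OnP q u v → ∀ m, s(u, v) ≠ s(σ m, β m)) :
    Pl (newG (poleG G σ β) (I1 M D) (ends (P1 σ β D E))) := by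
  have hd := vd1 h hv hE
  refine pl_newG (pl_poleG hpl h) _ _ (P1 σ β D E) hd.chain hd.disj hd.int fun e he => ?_
  unfold ends at he
  obtain ⟨q, hq, h1⟩ := List.mem_map.1 he
  exact ⟨q, hq, Or.inl ⟨by rw [← h1], by rw [← h1]⟩⟩

theorem cliqueFree1 (h : PD G σ β) (ht : (newG G D (ends E)).CliqueFree 3) :
    (newG (poleG G σ β) (I1 M D) (ends (P1 σ β D E))).CliqueFree 3 := by
  classical
  intro s hs
  rw [SimpleGraph.is3Clique_iff] at hs
  obtain ⟨a, b, c, hab, hac, hbc, rfl⟩ := hs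
  rcases a with u | a
  · rcases b with v | b
    · rcases c with w | c
      · refine ht {u, v, w} ?_
        rw [SimpleGraph.is3Clique_iff]
        exact ⟨u, v, w, (newG1_ll h).1 hab, (newG1_ll h).1 hac, (newG1_ll h).1 hbc, rfl⟩
      · exact newG1_r hac.symm
    · exact newG1_r hab.symm
  · exact newG1_r hab

theorem deg3_1 (h : PD G σ β) (hd : Deg3 (newG G D (ends E))) :
    Deg3 (newG (poleG G σ β) (I1 M D) (ends (P1 σ β D E))) := by
  classical
  intro x A hA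
  rcases x with u | a
  · have h1 : A ⊆ (A.preimage Sum.inl Sum.inl_injective.injOn).image Sum.inl := by
      intro y hy
      rcases y with v | b
      · exact mem_image.2 ⟨v, by simpa using hy, rfl⟩
      · exact absurd (hA _ hy).symm newG1_r
    refine (card_le_card h1).trans (card_image_le.trans (hd u _ fun w hw => ?_))
    exact (newG1_ll h).1 (hA _ (by simpa using hw))
  · have h1 : A = ∅ := by
      rw [eq_empty_iff_forall_notMem]
      exact fun y hy => newG1_r (hA y hy)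
    rw [h1]
    simp

/-- A colouring of the new graph is a colouring of the new graph of the old surgery. -/
theorem strictN_old1 (h : PD G σ β) {n : ℕ}
    (hs : StrictN (newG (poleG G σ β) (I1 M D) (ends (P1 σ β D E))) n) :
    StrictN (newG G D (ends E)) n := by
  obtain ⟨c, τ, h1, h2⟩ := hs
  exact ⟨fun v => c (Sum.inl v), fun v => τ (Sum.inl v), fun v => h1 _,
    fun u v huv => h2 _ _ ((newG1_ll h).2 huv)⟩

theorem length_P1 {k : ℕ} (hk : 3 ≤ k) (hE : ∀ q ∈ E, q.2.1.length ≤ k)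
    {q : (V ⊕ (M × Fin 7)) × List (V ⊕ (M × Fin 7)) × (V ⊕ (M × Fin 7))}
    (hq : q ∈ P1 σ β D E) : q.2.1.length ≤ k := by
  rcases mem_P1.1 hq with ⟨e, he, rfl⟩ | ⟨m, -, rfl⟩
  · show (e.2.1.map Sum.inl).length ≤ k
    rw [List.length_map]
    exact hE e he
  · exact hk

/-- A deleted edge of the graph with poles. -/
theorem del1 (hE : ∀ q ∈ E, ∀ u v, OnP q u v → ∀ m, s(u, v) ≠ s(σ m, β m)) {u v : V}
    (hd : Del G D E u v) : ∃ y, Del (poleG G σ β) (I1 M D) (P1 σ β D E) (Sum.inl u) y := by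
  obtain ⟨h1, h2, h3⟩ := hd
  by_cases h4 : ∃ m, s(u, v) = s(σ m, β m)
  · obtain ⟨m, h4⟩ := h4
    have hk : m ∉ kept σ β D := by
      intro h5
      obtain ⟨h6, h7⟩ := mem_kept.1 h5
      rcases Sym2.eq_iff.1 h4 with ⟨rfl, rfl⟩ | ⟨rfl, rfl⟩
      · rcases h2 with h2 | h2
        · exact h6 h2
        · exact h7 h2
      · rcases h2 with h2 | h2
        · exact h7 h2
        · exact h6 h2
    have hno : ∀ (j : Fin 7) (p : _), p ∈ P1 σ β D E → ¬ OnP p (Sum.inl u) (Sum.inr (m, j)) := by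
      intro j p hp h5
      rcases mem_P1.1 hp with ⟨e, he, rfl⟩ | ⟨m', hm', rfl⟩
      · obtain ⟨u', v', -, -, h6⟩ := onP_lp.1 h5
        simp at h6
      · have h6 : m' ≠ m := fun h7 => hk (h7 ▸ hm')
        rw [onP_pth] at h5
        simp only [Sum.inr.injEq, Prod.mk.injEq, reduceCtorEq, and_false, false_and, false_or,
          or_false, Sum.inl.injEq] at h5
        tauto
    rcases Sym2.eq_iff.1 h4 with ⟨rfl, rfl⟩ | ⟨rfl, rfl⟩
    · exact ⟨Sum.inr (m, 0), adj_lr.2 (Or.inl ⟨rfl, by decide⟩), Or.inr trivial,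
        fun p hp => hno 0 p hp⟩
    · exact ⟨Sum.inr (m, 6), adj_lr.2 (Or.inr ⟨rfl, rfl⟩), Or.inr trivial,
        fun p hp => hno 6 p hp⟩
  · push Not at h4
    refine ⟨Sum.inl v, adj_ll.2 ⟨h1, h4⟩, h2, fun p hp h5 => ?_⟩
    rcases mem_P1.1 hp with ⟨e, he, rfl⟩ | ⟨m', hm', rfl⟩
    · obtain ⟨u', v', h6, h7, h8⟩ := onP_lp.1 h5
      rw [Sum.inl.inj h7, Sum.inl.inj h8] at h6
      exact h3 e he h6
    · rw [onP_pth] at h5
      simp at h5

/-- At every base of a pole an edge is deleted. -/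
theorem del_base1 (m : M) :
    Del (poleG G σ β) (I1 M D) (P1 σ β D E) (Sum.inl (σ m)) (Sum.inr (m, 1)) := by
  refine ⟨adj_lr.2 (Or.inl ⟨rfl, by decide⟩), Or.inr trivial, ?_⟩
  intro p hp h1
  rcases mem_P1.1 hp with ⟨e, he, rfl⟩ | ⟨m', hm', rfl⟩
  · obtain ⟨u', v', -, -, h6⟩ := onP_lp.1 h1
    simp at h6
  · rw [onP_pth] at h1
    simp at h1

/-- At every foot of a pole an edge is deleted, or the foot is joined to the base. -/
theorem del_foot1 (h : PD G σ β) (m : M) (hD : ¬ D (β m)) :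
    (∃ y, Del (poleG G σ β) (I1 M D) (P1 σ β D E) (Sum.inl (β m)) y) ∨
      (newG (poleG G σ β) (I1 M D) (ends (P1 σ β D E))).Adj (Sum.inl (β m)) (Sum.inl (σ m)) := by
  by_cases hs : D (σ m)
  · left
    refine ⟨Sum.inr (m, 6), adj_lr.2 (Or.inr ⟨rfl, rfl⟩), Or.inr trivial, ?_⟩
    intro p hp h1
    rcases mem_P1.1 hp with ⟨e, he, rfl⟩ | ⟨m', hm', rfl⟩
    · obtain ⟨u', v', -, -, h6⟩ := onP_lp.1 h1
      simp at h6
    · have h6 : m' ≠ m := fun h7 => (mem_kept.1 hm').1 (h7 ▸ hs)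
      rw [onP_pth] at h1
      simp only [Sum.inr.injEq, Prod.mk.injEq, reduceCtorEq, and_false, false_and, false_or,
        or_false, Sum.inl.injEq] at h1
      tauto
  · right
    exact (newG1_ll h).2 (Or.inl ⟨(h.adj m).symm, hD, hs⟩)

/-- Every deleted vertex is an inner vertex of a path or has a deleted edge. -/
theorem inn_or_del1 (hE : ∀ q ∈ E, ∀ u v, OnP q u v → ∀ m, s(u, v) ≠ s(σ m, β m))
    (hD : ∀ v, D v → Inn E v ∨ ∃ y, Del G D E v y) {x : V ⊕ (M × Fin 7)} (hx : I1 M D x) :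
    Inn (P1 σ β D E) x ∨ ∃ y, Del (poleG G σ β) (I1 M D) (P1 σ β D E) x y := by
  rcases x with v | ⟨m, j⟩
  · rcases hD v hx with ⟨q, hq, h1⟩ | ⟨y, hy⟩
    · exact Or.inl ⟨lp M q, mem_P1.2 (Or.inl ⟨q, hq, rfl⟩), List.mem_map.2 ⟨v, h1, rfl⟩⟩
    · exact Or.inr (del1 hE hy)
  · have h0 : ∀ j : Fin 7, (j = 0 ∨ j = 2 ∨ j = 6) ∨ ∃ i, blk (some j) (some i) ∧
        ¬ ((j = 0 ∧ i = 2) ∨ (j = 2 ∧ i = 0) ∨ (j = 2 ∧ i = 6) ∨ (j = 6 ∧ i = 2)) := by decide
    have h1 : ∀ j : Fin 7, ∃ i, blk (some j) (some i) := by decide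
    have hno : ∀ (i : Fin 7), (¬ ((j = 0 ∧ i = 2) ∨ (j = 2 ∧ i = 0) ∨ (j = 2 ∧ i = 6) ∨
        (j = 6 ∧ i = 2)) ∨ m ∉ kept σ β D) →
        ∀ p ∈ P1 σ β D E, ¬ OnP p (Sum.inr (m, j)) (Sum.inr (m, i)) := by
      intro i hi p hp h5
      rcases mem_P1.1 hp with ⟨e, he, rfl⟩ | ⟨m', hm', rfl⟩
      · obtain ⟨u', v', -, -, h6⟩ := onP_lp.1 h5
        simp at h6
      · rw [onP_pth] at h5
        simp only [Sum.inr.injEq, Prod.mk.injEq, reduceCtorEq, and_false, false_and, false_or,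
          or_false] at h5
        rcases hi with hi | hi
        · tauto
        · have h6 : m ≠ m' := fun h7 => hi (h7 ▸ hm')
          tauto
    by_cases hk : m ∈ kept σ β D
    · rcases h0 j with h2 | ⟨i, h2, h3⟩
      · left
        refine ⟨pth σ β m, mem_P1.2 (Or.inr ⟨m, hk, rfl⟩), ?_⟩
        rcases h2 with rfl | rfl | rfl <;> simp [pth]
      · exact Or.inr ⟨Sum.inr (m, i), adj_rr.2 ⟨rfl, h2⟩, Or.inl trivial, hno i (Or.inl h3)⟩
    · obtain ⟨i, h2⟩ := h1 j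
      exact Or.inr ⟨Sum.inr (m, i), adj_rr.2 ⟨rfl, h2⟩, Or.inl trivial, hno i (Or.inr hk)⟩

end

end Pool.Agent.Poles
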