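import Mathlib
import Pool.Agent.Work.MP_392c8e_co_uni.Poles5
import Pool.Agent.Work.MP_392c8e_co_uni.BaseS
import Pool.Agent.Work.MP_392c8e_co_uni.Near

/-!
# The graph with cube poles: the base surgery and the hypothesis on the small cuts
-/

set_option autoImplicit false
set_option linter.unusedSectionVars false

namespace Pool.Agent.Poles

open Finset Pool.Agent.Red Pool.Agent.Sub392 Pool.Agent.T392 Pool.Agent.Uni392 Pool.Agent.U2Geo
open Pool.Agent.Uni91 (VD OnP Cs full ends cs_cons)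
open Pool.Agent.T1Red (newG Deg3 HasStrict pl_newG deg3_iff)

section walks

variable {V : Type} [Fintype V] [DecidableEq V] {G : SimpleGraph V} [DecidableRel G.Adj]
  {R : Rot G}

/-- The darts at a vertex of a cubic graph are near. -/
theorem near_fst (h3 : ∀ v, G.degree v = 3) {d x : G.Dart} (h : d.fst = x.fst) :
    Disch392.Near R 4 d x := by
  have hr : R.rot (R.rot (R.rot d)) = d := T1FF.rot3 R (h3 _)
  have key : ∀ n : ℕ, (R.rot ^ n) d = d ∨ (R.rot ^ n) d = R.rot d ∨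
      (R.rot ^ n) d = R.rot (R.rot d) := by
    intro n
    induction n with
    | zero => exact Or.inl rfl
    | succ n ih =>
      rw [pow_succ', Equiv.Perm.mul_apply]
      rcases ih with h | h | h
      · rw [h]; exact Or.inr (Or.inl rfl)
      · rw [h]; exact Or.inr (Or.inr rfl)
      · rw [h, hr]; exact Or.inl rfl
  obtain ⟨n, hn⟩ : ∃ n : ℕ, (R.rot ^ n) d = x :=
    Equiv.Perm.SameCycle.exists_nat_pow_eq (R.cyc d x h)
  have h1 : ∀ {k : ℕ} {e : G.Dart}, Disch392.Near R k d e →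
      Disch392.Near R (k + 2) d (R.rot e) := by
    intro k e he
    rw [R.rot_eq]
    exact he.symm'.next
  have h0 := Disch392.Near.refl R 0 d
  rcases key n with h | h | h
  · rw [← hn, h]
    exact h0.mono (by norm_num)
  · rw [← hn, h]
    exact (h1 h0).mono (by norm_num)
  · rw [← hn, h]
    exact h1 (h1 h0)

/-- The darts at the end of a walk are near. -/
theorem near_walk (h3 : ∀ v, G.degree v = 3) {v w : V} (p : G.Walk v w) :
    ∀ {n k : ℕ} {a d x : G.Dart}, p.length ≤ n → d.fst = v → x.fst = w →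
      Disch392.Near R k a d → Disch392.Near R (k + (5 * n + 4)) a x := by
  have key : ∀ (m : ℕ) {b c e : G.Dart} {k : ℕ}, Disch392.Near R k b c →
      Disch392.Near R m c e → Disch392.Near R (k + m) b e := by
    intro m
    induction m with
    | zero =>
      intro b c e k h1 h2
      have h3 : e = c := h2
      rw [h3]
      exact h1
    | succ m ih =>
      intro b c e k h1 h2
      obtain ⟨x, h4, h5⟩ := h2
      exact ⟨x, ih h1 h4, h5⟩
  induction p with
  | nil =>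
    intro n k a d x _ hd hx ha
    exact (key 4 ha (near_fst h3 (hd.trans hx.symm))).mono (by omega)
  | @cons u b c hub q ih =>
    intro n k a d x hp hd hx ha
    rw [SimpleGraph.Walk.length_cons] at hp
    obtain ⟨m, rfl⟩ : ∃ m, n = m + 1 := ⟨n - 1, by omega⟩
    have h1 : Disch392.Near R (k + 4) a ⟨(u, b), hub⟩ := key 4 ha (near_fst h3 hd)
    have h2 : Disch392.Near R (k + 5) a (SimpleGraph.Dart.symm ⟨(u, b), hub⟩) := h1.symm'
    exact (ih (n := m) (by omega) rfl hx h2).mono (by omega)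

end walks

section

variable {V M : Type} [Fintype V] [DecidableEq V] [Fintype M] [DecidableEq M]
  {G : SimpleGraph V} [DecidableRel G.Adj] {σ β : M → V} {D : V → Prop}
  {E : List (V × List V × V)}

/-- The vertices at the poles are near the interior of the surgery. -/
theorem mem_BV_of_pole {w : V ⊕ (M × Fin 7)} (h : BV σ β w) :
    w ∈ Uni392.BV (poleG G σ β) (I1 M D) := by
  rcases w with v | a
  · rcases h with ⟨m, rfl⟩ | ⟨m, rfl⟩
    · exact Or.inr ⟨Sum.inr (m, 0), adj_lr.2 (Or.inl ⟨rfl, by decide⟩), trivial⟩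
    · exact Or.inr ⟨Sum.inr (m, 6), adj_lr.2 (Or.inr ⟨rfl, rfl⟩), trivial⟩
  · exact Or.inl trivial

/-- The vertices at the interior of the surgery. -/
theorem BV_iff {w : V ⊕ (M × Fin 7)} : w ∈ Uni392.BV (poleG G σ β) (I1 M D) ↔
    BV σ β w ∨ ∃ v, w = Sum.inl v ∧ (D v ∨ ∃ u, (∀ m, s(v, u) ≠ s(σ m, β m)) ∧ G.Adj v u ∧ D u) := by
  constructor
  · rintro (h1 | ⟨x, h1, h2⟩)
    · rcases w with v | a
      · exact Or.inr ⟨v, rfl, Or.inl h1⟩
      · exact Or.inl trivial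
    · rcases w with v | a
      · rcases x with u | ⟨m, j⟩
        · exact Or.inr ⟨v, rfl, Or.inr ⟨u, (adj_ll.1 h1).2, (adj_ll.1 h1).1, h2⟩⟩
        · rcases adj_lr.1 h1 with ⟨h3, -⟩ | ⟨h3, -⟩
          · exact Or.inl (Or.inl ⟨m, h3⟩)
          · exact Or.inl (Or.inr ⟨m, h3⟩)
      · exact Or.inl trivial
  · rintro (h1 | ⟨v, rfl, h1 | ⟨u, h1, h2, h3⟩⟩)
    · exact mem_BV_of_pole h1
    · exact Or.inl h1
    · exact Or.inr ⟨Sum.inl u, adj_ll.2 ⟨h2, h1⟩, h3⟩

/-- Steps in the new graph of the old surgery. -/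
theorem steps1 (h : PD G σ β) {n : ℕ} {u v : V} (hs : Steps (nbN G D E) n u v) :
    Steps (nbN (poleG G σ β) (I1 M D) (P1 σ β D E)) n (Sum.inl u) (Sum.inl v) := by
  induction hs with
  | refl v => exact Steps.refl _
  | cons h1 _ ih => exact Steps.cons (mem_nbN.2 ((newG1_ll h).2 (mem_nbN.1 h1))) ih

/-- A near deleted edge of the old surgery. -/
theorem nearG1 (h : PD G σ β)
    (hE : ∀ q ∈ E, ∀ u v, OnP q u v → ∀ m, s(u, v) ≠ s(σ m, β m)) {n : ℕ} {v : V}
    (hn : NearG G D E n v) :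
    NearG (poleG G σ β) (I1 M D) (P1 σ β D E) n (Sum.inl v) := by
  obtain ⟨k, hk, z, w, hd, hs⟩ := hn
  obtain ⟨y, hy⟩ := del1 (σ := σ) (β := β) hE hd
  exact ⟨k, hk, Sum.inl z, y, hy, steps1 h hs⟩

/-- At the vertices at the poles there is a near deleted edge. -/
theorem nearG_pole (h : PD G σ β) {v : V} (hD : ¬ D v) (hv : (∃ m, v = σ m) ∨ ∃ m, v = β m) :
    NearG (poleG G σ β) (I1 M D) (P1 σ β D E) 1 (Sum.inl v) := by
  rcases hv with ⟨m, rfl⟩ | ⟨m, rfl⟩
  · exact ⟨0, by norm_num, _, _, del_base1 m, Steps.refl _⟩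
  · rcases del_foot1 (E := E) h m hD with ⟨y, hy⟩ | h1
    · exact ⟨0, by norm_num, _, _, hy, Steps.refl _⟩
    · exact ⟨1, le_rfl, _, _, del_base1 m, Steps.cons (mem_nbN.2 h1) (Steps.refl _)⟩

theorem NearG.mono' {W : Type} [Fintype W] {H : SimpleGraph W} {I : W → Prop}
    {P : List (W × List W × W)} {a b : ℕ} (hab : a ≤ b) {v : W} (h : NearG H I P a v) :
    NearG H I P b v := by
  obtain ⟨n, hn, r⟩ := h
  exact ⟨n, hn.trans hab, r⟩

/-- **A base surgery of the old graph together with the poles.** -/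
theorem baseS1 (h : PD G σ β) {D0 : ℕ} (hb : BaseS G D E D0)
    (hE : ∀ q ∈ E, ∀ u v, OnP q u v → ∀ m, s(u, v) ≠ s(σ m, β m)) (hD0 : 1 ≤ D0) :
    BaseS (poleG G σ β) (I1 M D) (P1 σ β D E) D0 where
  vd := vd1 h hb.vd hE
  int := fun v hv => inn_or_del1 hE hb.int hv
  ter := by
    rintro v hv ⟨w, hvw, hw⟩
    rcases v with v | a
    · rcases w with u | ⟨m, j⟩
      · exact nearG1 h hE (hb.ter v hv ⟨u, (adj_ll.1 hvw).1, hw⟩)
      · refine NearG.mono' hD0 (nearG_pole h hv ?_)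
        rcases adj_lr.1 hvw with ⟨h3, -⟩ | ⟨h3, -⟩
        · exact Or.inl ⟨m, h3⟩
        · exact Or.inr ⟨m, h3⟩
    · exact absurd trivial hv

/-- **The poles are a base surgery.** -/
theorem baseS_poles (h : PD G σ β) :
    BaseS (poleG G σ β) (I1 M fun _ => False) (P1 σ β (fun _ => False) []) 1 := by
  refine baseS1 h ⟨⟨?_, List.Pairwise.nil, ?_, ?_, List.Pairwise.nil⟩, ?_, ?_⟩ ?_ le_rfl
  · intro p hp; simp at hp
  · intro p hp; simp at hp
  · intro p hp; simp at hp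
  · intro v hv; exact hv.elim
  · rintro v - ⟨w, -, hw⟩; exact hw.elim
  · intro p hp; simp at hp

theorem newG_none : newG G (fun _ => False) (ends ([] : List (V × List V × V))) = G := by
  ext u v
  constructor
  · rintro (⟨h1, -, -⟩ | ⟨-, h1 | h1⟩)
    · exact h1
    · simp [ends] at h1
    · simp [ends] at h1
  · intro h1
    exact Or.inl ⟨h1, fun h => h, fun h => h⟩

/-- The colouring of the graph. -/
theorem strictN_poles (h : PD G σ β) {n : ℕ}
    (hs : StrictN (newG (poleG G σ β) (I1 M fun _ => False) (ends (P1 σ β (fun _ => False) []))) n) :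
    StrictN G n := by
  have h1 := strictN_old1 h hs
  rwa [newG_none] at h1

/-! ### The small cuts -/

/-- A walk of the old graph gives a walk to a pole. -/
theorem walk_lift {u w : V} (p : G.Walk u w) (hw : BV σ β (Sum.inl w : V ⊕ (M × Fin 7))) :
    ∃ b, BV σ β b ∧ ∃ q : (poleG G σ β).Walk (Sum.inl u) b, q.length ≤ p.length := by
  induction p with
  | nil => exact ⟨_, hw, SimpleGraph.Walk.nil, le_rfl⟩
  | @cons a b c hab p ih =>
    obtain ⟨x, hx, q, hq⟩ := ih hw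
    by_cases h1 : ∃ m, s(a, b) = s(σ m, β m)
    · obtain ⟨m, h1⟩ := h1
      refine ⟨Sum.inl a, ?_, SimpleGraph.Walk.nil, Nat.zero_le _⟩
      rcases Sym2.eq_iff.1 h1 with ⟨h2, -⟩ | ⟨h2, -⟩
      · exact Or.inl ⟨m, h2⟩
      · exact Or.inr ⟨m, h2⟩
    · push Not at h1
      refine ⟨x, hx, SimpleGraph.Walk.cons (adj_ll.2 ⟨hab, h1⟩) q, ?_⟩
      rw [SimpleGraph.Walk.length_cons, SimpleGraph.Walk.length_cons]
      omega

/-- **A small cut is near a pole**, or it is a cut of the old graph with two sides which are not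
thin. -/
theorem cut_cases
    (hd : ∀ v, G.degree v = 3 ∨ ∃ m, σ m = v) (hm : ∀ m, G.degree (σ m) = 2)
    (hc1 : ∀ A : Finset V, A.Nonempty → Aᶜ.Nonempty → 2 ≤ out G A)
    (hc2 : ∀ A : Finset V, out G A ≤ 2 → #A ≤ 2 ∨ #Aᶜ ≤ 2)
    {A : Finset (V ⊕ (M × Fin 7))} (hA : out (poleG G σ β) A ≤ 3) (hA1 : 2 ≤ #A)
    (hA2 : 2 ≤ #Aᶜ) {x y : V ⊕ (M × Fin 7)} (hxy : (poleG G σ β).Adj x y) (hx : x ∈ A)
    (hy : y ∉ A) : (∃ w, BV σ β w ∧ (w = x ∨ w = y ∨ (poleG G σ β).Adj x w ∨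
      (poleG G σ β).Adj y w)) ∨ ∃ u v, x = Sum.inl u ∧ y = Sum.inl v ∧ G.Adj u v ∧ u ∈ tr A ∧
      v ∉ tr A ∧ out G (tr A) ≤ 3 ∧ 2 ≤ #((tr A).filter fun v => G.degree v = 3) ∧
      2 ≤ #((tr A)ᶜ.filter fun v => G.degree v = 3) := by
  classical
  by_contra hcon
  rw [not_or] at hcon
  obtain ⟨hc, hcc⟩ := hcon
  have hxB : ¬ BV σ β x := fun hb => hc ⟨x, hb, Or.inl rfl⟩
  have hyB : ¬ BV σ β y := fun hb => hc ⟨y, hb, Or.inr (Or.inl rfl)⟩
  rcases x with u | a
  swap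
  · exact hxB trivial
  rcases y with v | a
  swap
  · exact hyB trivial
  refine hc (near_pole_core hd hm hc1 hc2 (fun h1 => ?_) hA hA1 hA2 hxy hx hy)
  by_contra h2
  push Not at h2
  exact hcc ⟨u, v, rfl, rfl, (adj_ll.1 hxy).1, mem_tr.2 hx, fun h5 => hy (mem_tr.1 h5), h1,
    h2.1, h2.2⟩

/-- **The hypothesis on the small cuts of the graph with poles.** -/
theorem hcut_poles (h : PD G σ β)
    (hd : ∀ v, G.degree v = 3 ∨ ∃ m, σ m = v) (hm : ∀ m, G.degree (σ m) = 2)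
    (hc1 : ∀ A : Finset V, A.Nonempty → Aᶜ.Nonempty → 2 ≤ out G A)
    (hc2 : ∀ A : Finset V, out G A ≤ 2 → #A ≤ 2 ∨ #Aᶜ ≤ 2) {r : ℕ}
    (hc3 : ∀ A : Finset V, out G A ≤ 3 → 2 ≤ #(A.filter fun v => G.degree v = 3) →
      2 ≤ #(Aᶜ.filter fun v => G.degree v = 3) → ∀ u ∈ A, ∀ v ∉ A, G.Adj u v →
      ∃ w, G.degree w = 2 ∧ ∃ p : G.Walk u w, p.length ≤ r)
    (R : Rot (poleG G σ β)) (D : V → Prop)
    (A : Finset (V ⊕ (M × Fin 7))) (hA : out (poleG G σ β) A ≤ 3) (hA1 : 2 ≤ #A)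
    (hA2 : 2 ≤ #Aᶜ) (y : (poleG G σ β).Dart) (h1 : y.fst ∈ A) (h2 : y.snd ∉ A) :
    ∃ x, Disch392.Near R (5 * (r + 2) + 4) y x ∧ x.fst ∈ Uni392.BV (poleG G σ β) (I1 M D) := by
  classical
  have hcub : ∀ x, (poleG G σ β).degree x = 3 := degree_poleG h hd hm
  have key : ∃ w, BV σ β w ∧ ∃ p : (poleG G σ β).Walk y.fst w, p.length ≤ r + 2 := by
    rcases cut_cases hd hm hc1 hc2 hA hA1 hA2 y.adj h1 h2 with
      ⟨w, hw, h3⟩ | ⟨u, v, hu, hv, huv, h3, h4, h5, h6, h7⟩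
    · refine ⟨w, hw, ?_⟩
      rcases h3 with h3 | h3 | h3 | h3
      · rw [h3]
        exact ⟨SimpleGraph.Walk.nil, Nat.zero_le _⟩
      · rw [h3]
        refine ⟨SimpleGraph.Walk.cons y.adj SimpleGraph.Walk.nil, ?_⟩
        rw [SimpleGraph.Walk.length_cons, SimpleGraph.Walk.length_nil]
        omega
      · refine ⟨SimpleGraph.Walk.cons h3 SimpleGraph.Walk.nil, ?_⟩
        rw [SimpleGraph.Walk.length_cons, SimpleGraph.Walk.length_nil]
        omega
      · refine ⟨SimpleGraph.Walk.cons y.adj (SimpleGraph.Walk.cons h3 SimpleGraph.Walk.nil), ?_⟩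
        rw [SimpleGraph.Walk.length_cons, SimpleGraph.Walk.length_cons,
          SimpleGraph.Walk.length_nil]
        omega
    · obtain ⟨w, hw, p, hp⟩ := hc3 _ h5 h6 h7 u h3 v h4 huv
      have hw2 : BV σ β (Sum.inl w : V ⊕ (M × Fin 7)) := by
        rcases hd w with h8 | ⟨m, h8⟩
        · omega
        · exact Or.inl ⟨m, h8.symm⟩
      obtain ⟨b, hb, q, hq⟩ := walk_lift (β := β) p hw2
      rw [hu]
      exact ⟨b, hb, q, by omega⟩
  obtain ⟨w, hw, p, hp⟩ := key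
  obtain ⟨z, hz⟩ : ∃ z, (poleG G σ β).Adj w z := by
    have h3 : 0 < (poleG G σ β).degree w := by rw [hcub]; norm_num
    exact ((poleG G σ β).degree_pos_iff_exists_adj w).1 h3
  refine ⟨⟨(w, z), hz⟩, ?_, mem_BV_of_pole hw⟩
  have h4 := near_walk (R := R) hcub p hp rfl (x := ⟨(w, z), hz⟩) rfl (Disch392.Near.refl R 0 y)
  exact h4.mono (by omega)

end

end Pool.Agent.Poles
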