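import Mathlib
import Pool.Agent.Work.MP_392c8e_co_uni.Poles6
import Pool.Agent.Work.MP_392c8e_co_uni.BaseT

/-!
# The poles together with a base surgery with exceptional vertices
-/

set_option autoImplicit false
set_option linter.unusedSectionVars false

namespace Pool.Agent.Poles

open Finset Pool.Agent.Red Pool.Agent.Sub392 Pool.Agent.T392 Pool.Agent.Uni392 Pool.Agent.U2Geo
open Pool.Agent.Uni91 (VD OnP Cs full ends cs_cons)
open Pool.Agent.T1Red (newG Deg3 HasStrict pl_newG deg3_iff)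

section

variable {V M : Type} [Fintype V] [DecidableEq V] [Fintype M] [DecidableEq M]
  {G : SimpleGraph V} [DecidableRel G.Adj] {σ β : M → V} {D : V → Prop}
  {E : List (V × List V × V)}

/-- **A base surgery of the old graph with exceptional vertices, together with the poles.** -/
theorem baseT1 (h : PD G σ β) {D0 : ℕ} {T : Finset V} (hb : BaseT G D E D0 T)
    (hE : ∀ q ∈ E, ∀ u v, OnP q u v → ∀ m, s(u, v) ≠ s(σ m, β m)) (hD0 : 1 ≤ D0) :
    BaseT (poleG G σ β) (I1 M D) (P1 σ β D E) D0 (T.image Sum.inl) where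
  vd := vd1 h hb.vd hE
  int := fun v hv => inn_or_del1 hE hb.int hv
  ter := by
    rintro v hv ⟨w, hvw, hw⟩
    rcases v with v | a
    · rcases w with u | ⟨m, j⟩
      · rcases hb.ter v hv ⟨u, (adj_ll.1 hvw).1, hw⟩ with h1 | h1
        · exact Or.inl (nearG1 h hE h1)
        · exact Or.inr (mem_image_of_mem _ h1)
      · refine Or.inl (NearG.mono' hD0 (nearG_pole h hv ?_))
        rcases adj_lr.1 hvw with ⟨h3, -⟩ | ⟨h3, -⟩
        · exact Or.inl ⟨m, h3⟩
        · exact Or.inr ⟨m, h3⟩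
    · exact absurd trivial hv
  sub := by
    intro v hv
    obtain ⟨u, hu, rfl⟩ := mem_image.1 hv
    obtain ⟨h1, h2⟩ := hb.sub u hu
    refine ⟨?_, h2⟩
    rcases h1 with h1 | ⟨w, h1, h3⟩
    · exact absurd h1 h2
    · by_cases h4 : ∃ m, s(u, w) = s(σ m, β m)
      · obtain ⟨m, h4⟩ := h4
        refine mem_BV_of_pole ?_
        rcases Sym2.eq_iff.1 h4 with ⟨h5, -⟩ | ⟨h5, -⟩
        · exact Or.inl ⟨m, h5⟩
        · exact Or.inr ⟨m, h5⟩
      · push Not at h4
        exact Or.inr ⟨Sum.inl w, adj_ll.2 ⟨h1, h4⟩, h3⟩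
  card := card_image_le.trans hb.card
  joined := by
    intro v hv w hw
    obtain ⟨u, hu, rfl⟩ := mem_image.1 hv
    obtain ⟨u', hu', rfl⟩ := mem_image.1 hw
    obtain ⟨n, hn, hs⟩ := hb.joined u hu u' hu'
    exact ⟨n, hn, steps1 h hs⟩

/-- The path of a spot away from the poles. -/
theorem spot_avoid {x p q : V} (hx1 : ∀ m, σ m ≠ x) (hx2 : ∀ m, β m ≠ x) :
    ∀ r ∈ Spot.P0 x p q, ∀ u v, OnP r u v → ∀ m, s(u, v) ≠ s(σ m, β m) := by
  intro r hr u v huv m he
  rw [Spot.P0, List.mem_singleton] at hr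
  subst hr
  rw [Spot.onP_one] at huv
  have h1 : u = x ∨ v = x := by tauto
  rcases Sym2.eq_iff.1 he with ⟨h2, h3⟩ | ⟨h2, h3⟩ <;> rcases h1 with h1 | h1
  · exact hx1 m (h2.symm.trans h1)
  · exact hx2 m (h3.symm.trans h1)
  · exact hx2 m (h2.symm.trans h1)
  · exact hx1 m (h3.symm.trans h1)

end

end Pool.Agent.Poles
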