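import Mathlib
import Pool.Agent.Work.MP_392c8e_co_uni.Poles7
import Pool.Agent.Work.MP_392c8e_co_red.Cuts

/-!
# The poles of a planar graph of maximum degree three

The vertices of degree two are the bases of the poles; the foot is a neighbour of degree three.
-/

set_option autoImplicit false
set_option linter.unusedSectionVars false

namespace Pool.Agent.Poles

open Finset Pool.Agent.Red Pool.Agent.Sub392 Pool.Agent.T392 Pool.Agent.Uni392 Pool.Agent.U2Geo
open Pool.Agent.Uni91 (VD OnP Cs full ends cs_cons)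
open Pool.Agent.T1Red (newG Deg3 HasStrict pl_newG deg3_iff)

section

variable {V : Type} [Fintype V] [DecidableEq V] {G : SimpleGraph V} [DecidableRel G.Adj]

theorem leave_outp (A : Finset V) : leave G (A : Set V) = (outp G A : Set (V × V)) := by
  ext p
  rw [mem_coe, mem_outp]
  constructor
  · rintro ⟨h1, h2, h3⟩
    exact ⟨h3, mem_coe.1 h1, fun h4 => h2 (mem_coe.2 h4)⟩
  · rintro ⟨h1, h2, h3⟩
    exact ⟨mem_coe.2 h2, fun h4 => h3 (mem_coe.1 h4), h1⟩

theorem ncard_leave (A : Finset V) : (leave G (A : Set V)).ncard = out G A := by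
  rw [leave_outp, Set.ncard_coe_finset, card_outp]

theorem ncard_nb (v : V) : (G.neighborSet v).ncard = G.degree v := by
  rw [← G.card_neighborFinset_eq_degree, ← Set.ncard_coe_finset, SimpleGraph.coe_neighborFinset]

/-- The hypotheses: a graph of maximum degree three, all cuts have at least two edges, cuts with
two edges have a side with at most two vertices. -/
structure Sub2 (G : SimpleGraph V) : Prop where
  deg : ∀ v, (G.neighborSet v).ncard ≤ 3
  two : ∀ A : Set V, A.Nonempty → A ≠ Set.univ → 2 ≤ (leave G A).ncard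
  cut2 : ∀ A : Set V, (leave G A).ncard ≤ 2 → A.ncard ≤ 2 ∨ Aᶜ.ncard ≤ 2
  big : 6 ≤ Fintype.card V

theorem Sub2.hc1 (h : Sub2 G) (A : Finset V) (h1 : A.Nonempty) (h2 : Aᶜ.Nonempty) :
    2 ≤ out G A := by
  rw [← ncard_leave]
  refine h.two _ (by simpa using h1) ?_
  intro h3
  obtain ⟨x, hx⟩ := h2
  rw [mem_compl] at hx
  apply hx
  rw [← mem_coe, h3]
  trivial

theorem Sub2.hc2 (h : Sub2 G) (A : Finset V) (h1 : out G A ≤ 2) : #A ≤ 2 ∨ #Aᶜ ≤ 2 := by
  rw [← ncard_leave] at h1
  rcases h.cut2 _ h1 with h2 | h2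
  · left
    rwa [Set.ncard_coe_finset] at h2
  · right
    rwa [← coe_compl, Set.ncard_coe_finset] at h2

theorem out_single (v : V) : out G {v} = G.degree v := by
  rw [← card_outp, ← G.card_neighborFinset_eq_degree]
  refine Finset.card_bij (fun p _ => p.2) ?_ ?_ ?_
  · intro p hp
    obtain ⟨h1, h2, -⟩ := mem_outp.1 hp
    rw [mem_singleton] at h2
    rw [SimpleGraph.mem_neighborFinset, ← h2]
    exact h1
  · intro p hp q hq h
    have h1 := (mem_outp.1 hp).2.1
    have h2 := (mem_outp.1 hq).2.1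
    rw [mem_singleton] at h1 h2
    exact Prod.ext (h1.trans h2.symm) h
  · intro w hw
    rw [SimpleGraph.mem_neighborFinset] at hw
    refine ⟨(v, w), mem_outp.2 ⟨hw, mem_singleton_self v, ?_⟩, rfl⟩
    rw [mem_singleton]
    exact hw.ne'

theorem Sub2.deg_cases (h : Sub2 G) (v : V) : G.degree v = 2 ∨ G.degree v = 3 := by
  have h1 : G.degree v ≤ 3 := by
    rw [← ncard_nb]; exact h.deg v
  have h2 : 2 ≤ out G {v} := by
    refine h.hc1 _ ⟨v, mem_singleton_self v⟩ ?_
    rw [← card_pos, card_compl, card_singleton]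
    have := h.big
    omega
  rw [out_single] at h2
  omega

theorem Sub2.exists_foot (h : Sub2 G) {v : V} (hv : G.degree v = 2) : ∃ w, G.Adj v w ∧ G.degree w = 3 := by
  classical
  by_contra hcon
  push Not at hcon
  have hn : ∀ w, G.Adj v w → G.degree w = 2 := by
    intro w hw
    rcases h.deg_cases w with h1 | h1
    · exact h1
    · exact absurd h1 (hcon w hw)
  set A : Finset V := insert v (G.neighborFinset v) with hA
  have hvA : v ∉ G.neighborFinset v := by
    rw [SimpleGraph.mem_neighborFinset]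
    exact G.loopless.irrefl v
  have hcard : #A = 3 := by
    rw [hA, card_insert_of_notMem hvA, G.card_neighborFinset_eq_degree, hv]
  have hout : out G A ≤ 2 := by
    rw [← card_outp, ← hv, ← G.card_neighborFinset_eq_degree]
    refine card_le_card_of_injOn (fun p => p.1) ?_ ?_
    · intro p hp
      obtain ⟨h1, h2, h3⟩ := mem_outp.1 (mem_coe.1 hp)
      rcases mem_insert.1 h2 with h4 | h4
      · exfalso
        apply h3
        rw [hA, mem_insert, SimpleGraph.mem_neighborFinset, ← h4]
        exact Or.inr h1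
      · exact h4
    · intro p hp q hq hpq
      simp only at hpq
      obtain ⟨h1, h2, h3⟩ := mem_outp.1 (mem_coe.1 hp)
      obtain ⟨h4, h5, h6⟩ := mem_outp.1 (mem_coe.1 hq)
      by_contra hne
      have h7 : p.2 ≠ q.2 := fun h8 => hne (Prod.ext hpq h8)
      have h8 : G.Adj v p.1 := by
        rcases mem_insert.1 h2 with h4 | h4
        · exfalso
          apply h3
          rw [hA, mem_insert, SimpleGraph.mem_neighborFinset, ← h4]
          exact Or.inr h1
        · rwa [SimpleGraph.mem_neighborFinset] at h4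
      have h9 := hn _ h8
      have h10 : ({v, p.2, q.2} : Finset V) ⊆ G.neighborFinset p.1 := by
        intro w hw
        rw [SimpleGraph.mem_neighborFinset]
        rw [mem_insert, mem_insert, mem_singleton] at hw
        rcases hw with rfl | rfl | rfl
        · exact h8.symm
        · exact h1
        · rw [hpq]; exact h4
      have h11 := card_le_card h10
      have h12 : v ≠ p.2 := fun h13 => h3 (h13 ▸ mem_insert_self v _)
      have h13 : v ≠ q.2 := fun h14 => h6 (h14 ▸ mem_insert_self v _)
      rw [G.card_neighborFinset_eq_degree, h9, card_insert_of_notMem, card_pair h7] at h11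
      · omega
      · rw [mem_insert, mem_singleton]
        tauto
  rcases h.hc2 A hout with h1 | h1
  · omega
  · rw [card_compl, hcard] at h1
    have := h.big
    omega

/-- The vertices of degree two. -/
abbrev M2 (G : SimpleGraph V) [DecidableRel G.Adj] : Type := {v : V // G.degree v = 2}

/-- The feet. -/
noncomputable def foot (h : Sub2 G) (m : M2 G) : V := (h.exists_foot m.2).choose

theorem foot_adj (h : Sub2 G) (m : M2 G) : G.Adj m.1 (foot h m) := (h.exists_foot m.2).choose_spec.1

theorem foot_deg (h : Sub2 G) (m : M2 G) : G.degree (foot h m) = 3 := (h.exists_foot m.2).choose_spec.2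

/-- **The poles.** -/
theorem Sub2.pd (h : Sub2 G) : PD G (Subtype.val : M2 G → V) (foot h) where
  adj := foot_adj h
  inj := Subtype.val_injective
  nb := by
    intro m m' he
    have h1 := foot_deg h m
    rw [he, m'.2] at h1
    omega

theorem Sub2.hd (h : Sub2 G) (v : V) : G.degree v = 3 ∨ ∃ m : M2 G, (m : V) = v := by
  rcases h.deg_cases v with h1 | h1
  · exact Or.inr ⟨⟨v, h1⟩, rfl⟩
  · exact Or.inl h1

/-- A vertex with its neighbours of degree three is not at a pole. -/
theorem Sub2.root (h : Sub2 G) {x : V} (hx : (G.neighborSet x).ncard = 3)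
    (hn : ∀ s, G.Adj x s → (G.neighborSet s).ncard = 3) :
    (∀ m : M2 G, (m : V) ≠ x) ∧ ∀ m : M2 G, foot h m ≠ x := by
  refine ⟨fun m hm => ?_, fun m hm => ?_⟩
  · rw [ncard_nb, ← hm, m.2] at hx
    omega
  · have h1 := foot_adj h m
    rw [hm] at h1
    have h2 := hn _ h1.symm
    rw [ncard_nb, m.2] at h2
    omega

theorem Sub2.connected (h : Sub2 G) : G.Connected := by
  have hV : 0 < Fintype.card V := by have := h.big; omega
  have : Nonempty V := Fintype.card_pos_iff.1 hV
  refine ⟨fun u v => ?_⟩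
  by_contra huv
  have h1 := h.two {w | G.Reachable u w} ⟨u, SimpleGraph.Reachable.refl u⟩ (by
    intro h2
    apply huv
    have h3 : v ∈ {w | G.Reachable u w} := by rw [h2]; trivial
    exact h3)
  have h2 : leave G {w | G.Reachable u w} = ∅ := by
    rw [Set.eq_empty_iff_forall_notMem]
    rintro p ⟨h3, h4, h5⟩
    exact h4 (SimpleGraph.Reachable.trans h3 h5.reachable)
  rw [h2, Set.ncard_empty] at h1
  omega

theorem Sub2.comp (h : Sub2 G) (S : V → Prop) (u v : V) (hu : S u) (hv : ¬ S v)
    (_ : G.Adj u v) : ∃ u' v', S u' ∧ ¬ S v' ∧ G.Adj u' v' ∧ s(u', v') ≠ s(u, v) := by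
  have h1 := h.two {w | S w} ⟨u, hu⟩ (by
    intro h2
    apply hv
    have h3 : v ∈ {w | S w} := by rw [h2]; trivial
    exact h3)
  have h2 : 1 < (leave G {w | S w}).ncard := h1
  obtain ⟨p, hp, hne⟩ := Set.exists_ne_of_one_lt_ncard h2 (u, v)
  obtain ⟨h3, h4, h5⟩ := hp
  refine ⟨p.1, p.2, h3, h4, h5, fun h6 => ?_⟩
  rcases Sym2.eq_iff.1 h6 with ⟨h7, h8⟩ | ⟨h7, h8⟩
  · exact hne (Prod.ext h7 h8)
  · exact h4 (h8 ▸ hu)

/-- **The rotation of the graph with poles.** -/
theorem Sub2.rot (h : Sub2 G) (hpl : Pl G) :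
    ∃ R : Rot (poleG G (Subtype.val : M2 G → V) (foot h)), R.Plane ∧
      ∀ d : (poleG G (Subtype.val : M2 G → V) (foot h)).Dart, R.face d ≠ R.face d.symm := by
  refine exists_rot_poleG h.pd hpl h.connected ?_ h.hd (fun m => m.2) h.comp
  have hV : 0 < Fintype.card V := by have := h.big; omega
  obtain ⟨v⟩ : Nonempty V := Fintype.card_pos_iff.1 hV
  have h1 : 0 < G.degree v := by
    rcases h.deg_cases v with h1 | h1 <;> omega
  obtain ⟨w, hw⟩ := (G.degree_pos_iff_exists_adj v).1 h1
  exact ⟨v, w, hw⟩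

theorem Sub2.cub (h : Sub2 G) (x) :
    (poleG G (Subtype.val : M2 G → V) (foot h)).degree x = 3 :=
  degree_poleG h.pd h.hd (fun m => m.2) x

/-- The graph with poles is connected, in the form of the working definition. -/
theorem Sub2.conn (h : Sub2 G)
    (A : Finset (V ⊕ (M2 G × Fin 7))) (hA : out (poleG G (Subtype.val : M2 G → V) (foot h)) A = 0) :
    A = ∅ ∨ A = univ := by
  classical
  by_contra hcon
  push Not at hcon
  obtain ⟨h1, h2⟩ := hcon
  obtain ⟨a, ha⟩ := h1
  obtain ⟨b, hb⟩ : ∃ b, b ∉ A := by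
    by_contra h3
    push Not at h3
    exact h2 (eq_univ_iff_forall.2 h3)
  obtain ⟨w⟩ := (connected_poleG h.pd h.connected).preconnected a b
  have key : ∀ {a b : V ⊕ (M2 G × Fin 7)}
      (w : (poleG G (Subtype.val : M2 G → V) (foot h)).Walk a b), a ∈ A → b ∉ A →
      ∃ x y, (poleG G (Subtype.val : M2 G → V) (foot h)).Adj x y ∧ x ∈ A ∧ y ∉ A := by
    intro a b w
    induction w with
    | nil => intro h1 h2; exact absurd h1 h2
    | @cons a c b hac w ih =>
      intro h1 h2
      by_cases h3 : c ∈ A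
      · exact ih h3 h2
      · exact ⟨a, c, hac, h1, h3⟩
  obtain ⟨x, y, h3, h4, h5⟩ := key w ha hb
  rw [← card_outp, card_eq_zero] at hA
  have h6 : (x, y) ∈ outp (poleG G (Subtype.val : M2 G → V) (foot h)) A :=
    mem_outp.2 ⟨h3, h4, h5⟩
  rw [hA] at h6
  exact absurd h6 (notMem_empty _)

theorem Sub2.big7 (_ : Sub2 G) (h7 : 7 ≤ Fintype.card V) :
    7 ≤ Fintype.card (V ⊕ (M2 G × Fin 7)) := by
  rw [Fintype.card_sum]
  omega

end

end Pool.Agent.Poles
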