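import Mathlib
import Pool.Agent.Work.MP_392c8e_co_uni.Poles8
import Pool.Agent.Work.MP_392c8e_co_uni.GoodS

/-!
# Small cuts of graphs of the base class

Every edge of a cut with at most three edges, both sides of which have two vertices of degree
three, is near a vertex of degree two.
-/

set_option autoImplicit false
set_option linter.unusedSectionVars false

namespace Pool.Agent.CutN

open Finset Pool.Agent.Red Pool.Agent.Sub392 Pool.Agent.U2Geo

variable {V : Type} [Fintype V] [DecidableEq V] {G : SimpleGraph V}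

/-- A thick side of a cut with at most two edges has at least three vertices. -/
theorem three_le_of_thick (hd : ∀ v, (G.neighborSet v).ncard ≤ 3)
    (htwo : ∀ A : Set V, A.Nonempty → A ≠ Set.univ → 2 ≤ (leave G A).ncard) {A : Set V}
    (h2 : (leave G A).ncard ≤ 2) (hA : Thick G A) : ¬ A.ncard ≤ 2 := by
  classical
  intro h
  have hsub : {v | v ∈ A ∧ (G.neighborSet v).ncard = 3} ⊆ A := fun v hv => hv.1
  have heq : {v | v ∈ A ∧ (G.neighborSet v).ncard = 3} = A :=
    Set.eq_of_subset_of_ncard_le hsub (h.trans hA) (Set.toFinite _)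
  have hcard : A.ncard = 2 := le_antisymm h (by
    have := hA
    unfold Thick at this
    rwa [heq] at this)
  obtain ⟨a, b, hab, hAe⟩ := Set.ncard_eq_two.1 hcard
  have ha : a ∈ A := by rw [hAe]; exact Or.inl rfl
  have hb : b ∈ A := by rw [hAe]; exact Or.inr rfl
  have ha3 : (G.neighborSet a).ncard = 3 := by
    rw [← heq] at ha
    exact ha.2
  -- two neighbours of `a` outside
  have h3 : 2 ≤ (G.neighborSet a \ {b}).ncard := by
    have := Set.ncard_le_ncard_sdiff_add_ncard (G.neighborSet a) {b} (Set.toFinite _)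
    rw [Set.ncard_singleton] at this
    omega
  obtain ⟨c, hc, d, hd', hcd⟩ := (Set.one_lt_ncard (Set.toFinite _)).1 (by omega :
    1 < (G.neighborSet a \ {b}).ncard)
  have hout : ∀ z, z ∈ G.neighborSet a \ {b} → z ∉ A := by
    rintro z ⟨hz1, hz2⟩ hz3
    rw [hAe] at hz3
    rcases hz3 with hz3 | hz3
    · have : G.Adj a z := hz1
      exact this.ne hz3.symm
    · exact hz2 hz3
  have h4 := leave_erase A ha (hout c hc) (hout d hd') hc.1 hd'.1 hcd (hd a)
  have h5 := htwo (A \ {a}) ⟨b, hb, fun h => hab (show b = a from h).symm⟩ fun h6 => by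
    have : a ∈ A \ {a} := by rw [h6]; exact Set.mem_univ a
    exact this.2 rfl
  omega

/-- **Every edge of a cut with at most three edges between two thick sides is near a vertex of
degree two.** -/
theorem BaseR.near_out {r : ℕ} {x : V} (h : BaseR r G x) {A : Set V} (h3 : (leave G A).ncard ≤ 3)
    (hA : Thick G A) (hA' : Thick G Aᶜ) {u v : V} (hu : u ∈ A) (hv : v ∉ A) (huv : G.Adj u v) :
    ∃ w, (G.neighborSet w).ncard = 2 ∧ ∃ p : G.Walk u w, p.length ≤ r + 1 := by
  have h4 : (leave G A).ncard = 3 := by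
    by_contra hne
    have h5 : (leave G A).ncard ≤ 2 := by omega
    rcases h.cut2 A h5 with h6 | h6
    · exact three_le_of_thick h.deg h.two h5 hA h6
    · exact three_le_of_thick h.deg h.two (by rw [leave_compl_ncard]; exact h5) hA' h6
  by_cases hx : x ∈ A
  · have h5 : Th3 G Aᶜ := ⟨by rw [leave_compl_ncard]; exact h4, hA', by
      rw [compl_compl]; exact hA⟩
    obtain ⟨m, h6, p, h7, -⟩ := h.near Aᶜ (fun h8 => h8 hx) h5 v hv ⟨u, fun h8 => h8 hu, huv.symm⟩
    exact ⟨m, h6, SimpleGraph.Walk.cons huv p, by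
      rw [SimpleGraph.Walk.length_cons]
      omega⟩
  · obtain ⟨m, h6, p, h7, -⟩ := h.near A hx ⟨h4, hA, hA'⟩ u hu ⟨v, hv, huv⟩
    exact ⟨m, h6, p, by omega⟩

/-- The same with finsets of vertices and degrees. -/
theorem BaseR.near_outF [DecidableRel G.Adj] {r : ℕ} {x : V} (h : BaseR r G x) (A : Finset V)
    (h3 : out G A ≤ 3) (hA : 2 ≤ #(A.filter fun v => G.degree v = 3))
    (hA' : 2 ≤ #(Aᶜ.filter fun v => G.degree v = 3)) (u : V) (hu : u ∈ A) (v : V) (hv : v ∉ A)
    (huv : G.Adj u v) : ∃ w, G.degree w = 2 ∧ ∃ p : G.Walk u w, p.length ≤ r + 1 := by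
  have e : ∀ B : Finset V, {v | v ∈ (B : Set V) ∧ (G.neighborSet v).ncard = 3} =
      ((B.filter fun v => G.degree v = 3 : Finset V) : Set V) := by
    intro B
    ext w
    rw [Set.mem_ofPred_eq, Poles.ncard_nb, mem_coe, mem_coe, mem_filter]
  obtain ⟨w, h4, p, h5⟩ := h.near_out (A := (A : Set V)) (by rw [Poles.ncard_leave]; exact h3)
    (by unfold Thick; rw [e, Set.ncard_coe_finset]; exact hA)
    (by unfold Thick; rw [← coe_compl, e, Set.ncard_coe_finset]; exact hA')
    (mem_coe.2 hu) (fun h6 => hv (mem_coe.1 h6)) huv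
  exact ⟨w, by rw [← Poles.ncard_nb]; exact h4, p, h5⟩

end Pool.Agent.CutN
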