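import Mathlib
import Pool.Agent.Work.MP_392c8e_co_uni.Con3

/-!
# The class without a partition of type `K₄`

Cubic graphs in which every cut with at most three edges is trivial belong to the class `NoK4`,
unless they have four vertices; and the condition in words of partitions.
-/

namespace Pool.Agent.CutN

open Pool.Agent.Red

set_option linter.unusedSectionVars false

variable {V : Type} [Fintype V] [DecidableEq V] {G : SimpleGraph V}

/-- The cut of a part is the union of the three sets of edges to the other parts. -/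
theorem leave_fiber_le (f : V → Fin 4) (h : ∀ i j, i ≠ j →
    (between G (f ⁻¹' {i}) (f ⁻¹' {j})).ncard = 1) (i : Fin 4) :
    (leave G (f ⁻¹' {i})).ncard ≤ 3 := by
  classical
  have h1 : leave G (f ⁻¹' {i}) ⊆
      ⋃ j ∈ (Finset.univ.erase i : Finset (Fin 4)), between G (f ⁻¹' {i}) (f ⁻¹' {j}) := by
    rintro ⟨u, v⟩ ⟨h2, h3, h4⟩
    rw [Set.mem_iUnion₂]
    exact ⟨f v, by rw [Finset.mem_erase]; exact ⟨h3, Finset.mem_univ _⟩, h2, rfl, h4⟩
  refine (Set.ncard_le_ncard h1 (Set.toFinite _)).trans ((Finset.set_ncard_biUnion_le _ _).trans ?_)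
  rw [Finset.sum_congr rfl fun j hj => h i j (Finset.ne_of_mem_erase hj).symm]
  simp

/-- **Graphs with trivial small cuts have no partition of type `K₄`**, unless they have four
vertices. -/
theorem noK4_of_cuts (hcut : ∀ B : Set V, (leave G B).ncard ≤ 3 → B.ncard ≤ 1 ∨ Bᶜ.ncard ≤ 1)
    (h4 : Fintype.card V ≠ 4) : NoK4 G := by
  classical
  rintro ⟨f, hs, h⟩
  have hpart : ∀ i, (f ⁻¹' {i}).ncard ≤ 1 := by
    intro i
    rcases hcut _ (leave_fiber_le f h i) with h1 | h1
    · exact h1
    · exfalso
      obtain ⟨j, k, hj, hk, hjk⟩ :=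
        (by decide : ∀ i : Fin 4, ∃ j k : Fin 4, j ≠ i ∧ k ≠ i ∧ j ≠ k) i
      obtain ⟨u, hu⟩ := hs j
      obtain ⟨v, hv⟩ := hs k
      rw [Set.ncard_le_one_iff] at h1
      have h2 : u = v := by
        refine h1 ?_ ?_
        · show ¬ f u = i
          rw [hu]
          exact hj
        · show ¬ f v = i
          rw [hv]
          exact hk
      exact hjk (by rw [← hu, ← hv, h2])
  have hinj : Function.Injective f := by
    intro u v huv
    have h1 := hpart (f u)
    rw [Set.ncard_le_one_iff] at h1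
    exact h1 rfl huv.symm
  apply h4
  rw [Fintype.card_congr (Equiv.ofBijective f ⟨hinj, hs⟩), Fintype.card_fin]

/-- Graphs with trivial small cuts and degree three are 3-edge-connected. -/
theorem cut3C_of_cuts (hc : Cubic G)
    (hcut : ∀ B : Set V, (leave G B).ncard ≤ 3 → B.ncard ≤ 1 ∨ Bᶜ.ncard ≤ 1) : Cut3C G := by
  intro A h1 h2
  show 3 ≤ (leave G A).ncard
  by_contra h3
  have key : ∀ B : Set V, B.Nonempty → B.ncard ≤ 1 → (leave G B).ncard = 3 := by
    intro B hB hB1
    obtain ⟨v, hv⟩ := hB
    have h5 : B = {v} := by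
      refine Set.eq_singleton_iff_unique_mem.2 ⟨hv, fun w hw => ?_⟩
      rw [Set.ncard_le_one_iff] at hB1
      exact hB1 hw hv
    rw [h5, leave_singleton]
    exact hc v
  rcases hcut A (by omega) with h4 | h4
  · have := key A h1 h4
    omega
  · have h5 : Aᶜ.Nonempty := Set.nonempty_compl.2 h2
    have := key Aᶜ h5 h4
    rw [leave_compl_ncard] at this
    omega

/-- **The condition in words**: in every partition into four nonempty parts there are two parts
such that the number of edges between them is not one. -/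
theorem noK4_iff : NoK4 G ↔ ∀ P : Fin 4 → Set V, (∀ i, (P i).Nonempty) →
    (∀ i j, i ≠ j → Disjoint (P i) (P j)) → (⋃ i, P i) = Set.univ →
    ∃ i j, i ≠ j ∧ {p : V × V | p.1 ∈ P i ∧ p.2 ∈ P j ∧ G.Adj p.1 p.2}.ncard ≠ 1 := by
  classical
  constructor
  · intro h P h1 h2 h3
    by_contra h4
    push Not at h4
    have h5 : ∀ v, ∃ i, v ∈ P i := fun v => Set.mem_iUnion.1 (h3 ▸ Set.mem_univ v)
    choose f hf using h5
    have h6 : ∀ i v, v ∈ P i ↔ f v = i := by
      intro i v
      constructor
      · intro hv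
        by_contra h7
        exact Set.disjoint_left.1 (h2 _ _ h7) (hf v) hv
      · intro hv
        rw [← hv]
        exact hf v
    have h7 : ∀ i, f ⁻¹' {i} = P i := fun i => Set.ext fun v => (h6 i v).symm
    refine h ⟨f, fun i => ?_, fun i j hij => ?_⟩
    · obtain ⟨v, hv⟩ := h1 i
      exact ⟨v, (h6 i v).1 hv⟩
    · rw [h7, h7]
      exact h4 i j hij
  · rintro h ⟨f, h1, h2⟩
    obtain ⟨i, j, hij, h3⟩ := h (fun i => f ⁻¹' {i}) (fun i => (h1 i).imp fun v hv => hv)
      (fun i j hij => Set.disjoint_left.2 fun v hv hv' =>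
        hij ((show f v = i from hv).symm.trans hv'))
      (Set.eq_univ_of_forall fun v => Set.mem_iUnion.2 ⟨f v, rfl⟩)
    exact h3 (h2 i j hij)

end Pool.Agent.CutN
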