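import Mathlib
import Pool.Agent.Work.MP_392c8e_co_uni.NoK4Cls
import Pool.Agent.Work.MP_392c8e_co_uni.C4Pl

/-!
# Cyclically 4-edge-connected cubic graphs belong to the class without a partition of type `K₄`
-/

namespace Pool.Agent.U2Geo

open Finset Pool.Agent.Sub392 Pool.T1Side Pool.Agent.T392 Pool.Agent.T1FF Pool.Agent.Red
  Pool.Agent.CutN

set_option linter.unusedSectionVars false

variable {V : Type} [Fintype V] [DecidableEq V] {G : SimpleGraph V} [DecidableRel G.Adj]

/-- The two ways to say that all degrees are three. -/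
theorem cubic_iff : Cubic G ↔ ∀ v, G.degree v = 3 := by
  refine forall_congr' fun v => ?_
  rw [← G.card_neighborFinset_eq_degree, ← Set.ncard_coe_finset, G.coe_neighborFinset]

/-- The two ways to say that small cuts are trivial. -/
theorem cuts_iff : (∀ B : Set V, (leave G B).ncard ≤ 3 → B.ncard ≤ 1 ∨ Bᶜ.ncard ≤ 1) ↔
    ∀ A : Finset V, out G A ≤ 3 → #A ≤ 1 ∨ #Aᶜ ≤ 1 := by
  classical
  have key : ∀ A : Finset V, ((A : Set V)ᶜ).ncard = #Aᶜ := by
    intro A
    rw [← coe_compl, Set.ncard_coe_finset]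
  constructor
  · intro h A hA
    have h1 := h A (by rw [leave_eq_out]; exact hA)
    rwa [Set.ncard_coe_finset, key] at h1
  · intro h B hB
    have h1 := h B.toFinset (by rw [← leave_eq_out, Set.coe_toFinset]; exact hB)
    rwa [← key, Set.coe_toFinset, ← Set.ncard_eq_toFinset_card'] at h1

/-- **The graphs of stage C belong to the class.** -/
theorem C4.mem_class {R : Rot G} (h : C4 R) : Cubic G ∧ Cut3C G ∧ NoK4 G := by
  have hc := cubic_iff.2 h.cub
  have hcut := cuts_iff.2 h.cut
  have := h.big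
  exact ⟨hc, cut3C_of_cuts hc hcut, noK4_of_cuts hcut (by omega)⟩

/-- **Cyclically 4-edge-connected cubic graphs other than `K₄` belong to the class.** -/
theorem class_of_cycFour (hc : ∀ v, G.degree v = 3) (h : CycFour G) (h4 : Fintype.card V ≠ 4) :
    Cubic G ∧ Cut3C G ∧ NoK4 G := by
  have hcut := cuts_iff.2 (cut_of_cycFour hc h)
  exact ⟨cubic_iff.2 hc, cut3C_of_cuts (cubic_iff.2 hc) hcut, noK4_of_cuts hcut h4⟩

end Pool.Agent.U2Geo
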