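import Mathlib
import Pool.Agent.Work.MP_392c8e_co_uni.Desc

/-!
# One step into a side of a cut with three edges

`Bas G`: no triangles, all degrees are two or three, and a set with at most two leaving edges
consists of vertices of degree two.

`step_rung`, `step_ring`: the structure of a side two of whose ends are adjacent, or whose ends
have pairwise common neighbours.
-/

set_option autoImplicit false
set_option linter.unusedSectionVars false

namespace Pool.Agent.Bad59

open Pool.Agent.Red Pool.Agent.CutN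

variable {V : Type} [Fintype V] [DecidableEq V] {G : SimpleGraph V}

/-- The properties of the whole graph. -/
structure Bas (G : SimpleGraph V) : Prop where
  tri : ∀ u v w, G.Adj u v → G.Adj v w → G.Adj u w → False
  deg : ∀ v, dg G v = 2 ∨ dg G v = 3
  /-- a set with at most two leaving edges has only vertices of degree two -/
  two : ∀ Y : V → Prop, (leave G {v | Y v}).ncard ≤ 2 → (∃ v, ¬ Y v ∧ dg G v = 3) →
    ∀ v, Y v → dg G v = 2

/-- A small set with at most two leaving edges. -/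
theorem small_deg (hd : ∀ v, 2 ≤ dg G v) {A : Set V} (hA : A.ncard ≤ 2)
    (hl : (leave G A).ncard ≤ 2) {v : V} (hv : v ∈ A) : dg G v ≤ 2 := by
  by_contra hcon
  have hfin : A.Finite := Set.toFinite A
  have h0 : A.ncard ≠ 0 := fun h => by
    rw [Set.ncard_eq_zero hfin] at h
    rw [h] at hv
    exact hv
  have hcase : A.ncard = 1 ∨ A.ncard = 2 := by omega
  rcases hcase with h1 | h1
  · obtain ⟨x, rfl⟩ := Set.ncard_eq_one.1 h1
    rw [Set.mem_singleton_iff] at hv
    subst hv
    rw [leave_singleton] at hl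
    exact hcon hl
  · have key : ∃ w, v ≠ w ∧ A = {v, w} := by
      obtain ⟨x, y, hxy, rfl⟩ := Set.ncard_eq_two.1 h1
      rcases hv with h | h
      · exact ⟨y, by rw [h]; exact hxy, by rw [h]⟩
      · rw [Set.mem_singleton_iff] at h
        exact ⟨x, by rw [h]; exact hxy.symm, by rw [h, Set.pair_comm]⟩
    obtain ⟨w, hvw, rfl⟩ := key
    have hsub : (Prod.mk v '' (G.neighborSet v \ {w})) ∪ (Prod.mk w '' (G.neighborSet w \ {v})) ⊆
        leave G ({v, w} : Set V) := by
      rintro ⟨x, y⟩ (⟨z, ⟨z1, z2⟩, hz⟩ | ⟨z, ⟨z1, z2⟩, hz⟩)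
      · obtain ⟨rfl, rfl⟩ := Prod.mk.inj hz
        refine ⟨Or.inl rfl, ?_, z1⟩
        rintro (h | h)
        · exact G.ne_of_adj z1 h.symm
        · exact z2 h
      · obtain ⟨rfl, rfl⟩ := Prod.mk.inj hz
        refine ⟨Or.inr rfl, ?_, z1⟩
        rintro (h | h)
        · exact z2 h
        · exact G.ne_of_adj z1 h.symm
    have hdis : Disjoint (Prod.mk v '' (G.neighborSet v \ {w}))
        (Prod.mk w '' (G.neighborSet w \ {v})) := by
      rw [Set.disjoint_left]
      rintro ⟨x, y⟩ ⟨z, -, hz⟩ ⟨z', -, hz'⟩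
      exact hvw ((Prod.mk.inj hz).1.trans (Prod.mk.inj hz').1.symm)
    have hc1 : 2 ≤ (Prod.mk v '' (G.neighborSet v \ {w})).ncard := by
      rw [Set.ncard_image_of_injective _ (Prod.mk_right_injective v)]
      have := Set.le_ncard_sdiff ({w} : Set V) (G.neighborSet v) (Set.toFinite _)
      rw [Set.ncard_singleton] at this
      have h3 : 3 ≤ (G.neighborSet v).ncard := by
        unfold dg at hcon
        omega
      omega
    have hc2 : 1 ≤ (Prod.mk w '' (G.neighborSet w \ {v})).ncard := by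
      rw [Set.ncard_image_of_injective _ (Prod.mk_right_injective w)]
      have := Set.le_ncard_sdiff ({v} : Set V) (G.neighborSet w) (Set.toFinite _)
      rw [Set.ncard_singleton] at this
      have h3 : 2 ≤ (G.neighborSet w).ncard := hd w
      omega
    have := Set.ncard_le_ncard hsub (Set.toFinite _)
    rw [Set.ncard_union_eq hdis (Set.toFinite _) (Set.toFinite _)] at this
    omega

/-- A smallest counterexample. -/
theorem bas_of_minN {N : ℤ} (h : MinN N G) (hN : 2 ≤ N) : Bas G where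
  tri u v w h1 h2 h3 := by
    have := h.tri {u, v, w}
    rw [SimpleGraph.is3Clique_iff] at this
    exact this ⟨u, v, w, h1, h3, h2, rfl⟩
  deg v := by
    have h1 := h.two_le hN v
    have h2 := h.deg v
    unfold dg
    omega
  two Y hl := by
    rintro ⟨x, x1, x2⟩ v hv
    have hd : ∀ v, 2 ≤ dg G v := fun v => h.two_le hN v
    rcases h.cut_two hN {v | Y v} hl with h1 | h1
    · have := small_deg hd h1 hl (v := v) hv
      have := hd v
      omega
    · have := small_deg hd h1 (by rw [leave_compl_ncard]; exact hl) (v := x) x1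
      omega

section near

variable {A B : Set V} {k m : ℕ} {a b : V}

theorem d2_self (ha : a ∈ A) (h : dg G a = 2) : Deg2In G k A a :=
  ⟨a, h, SimpleGraph.Walk.nil, Nat.zero_le _, fun w hw => by
    rw [SimpleGraph.Walk.support_nil, List.mem_singleton] at hw
    rwa [hw]⟩

theorem d2_step (ha : a ∈ A) (hab : G.Adj a b) (h : Deg2In G k A b) : Deg2In G (k + 1) A a := by
  obtain ⟨x, h1, p, h2, h3⟩ := h
  refine ⟨x, h1, SimpleGraph.Walk.cons hab p, ?_, fun w hw => ?_⟩
  · rw [SimpleGraph.Walk.length_cons]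
    omega
  · rw [SimpleGraph.Walk.support_cons, List.mem_cons] at hw
    rcases hw with rfl | hw
    · exact ha
    · exact h3 w hw

theorem d2_mono (h : Deg2In G k A a) (hk : k ≤ m) : Deg2In G m A a := by
  obtain ⟨x, h1, p, h2, h3⟩ := h
  exact ⟨x, h1, p, h2.trans hk, h3⟩

theorem d2_sub (h : Deg2In G k A a) (hA : ∀ v, v ∈ A → v ∈ B) : Deg2In G k B a := by
  obtain ⟨x, h1, p, h2, h3⟩ := h
  exact ⟨x, h1, p, h2, fun w hw => hA w (h3 w hw)⟩

end near

/-- All ends have a vertex of degree two within distance `k`, inside the side. -/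
def AllNear (G : SimpleGraph V) (k : ℕ) (s : Sd V) : Prop :=
  ∀ i, Deg2In G k {v | s.Y v} (s.a i)

theorem AllNear.mono {k m : ℕ} {s : Sd V} (h : AllNear G k s) (hk : k ≤ m) : AllNear G m s :=
  fun i => d2_mono (h i) hk

/-- **Two pairs of adjacent ends.** -/
theorem two_pairs (B : Bas G) {s : Sd V} (hc : CutK G s.Y s.a s.b)
    (ho : ∃ v, ¬ s.Y v ∧ dg G v = 3) {p q r : Fin 3} (hpq : p ≠ q) (hrp : r ≠ p) (hrq : r ≠ q)
    (h1 : G.Adj (s.a p) (s.a q)) (h2 : G.Adj (s.a p) (s.a r)) : AllNear G 3 s := by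
  have key : ∀ q r : Fin 3, p ≠ q → r ≠ p → r ≠ q → G.Adj (s.a p) (s.a q) →
      G.Adj (s.a p) (s.a r) → Deg2In G 1 {v | s.Y v} (s.a q) → AllNear G 3 s := by
    intro q r hpq hrp hrq h1 h2 hq i
    have e1 : Deg2In G 2 {v | s.Y v} (s.a p) := d2_step (hc.hX p) h1 hq
    rcases fall p q r i hpq hrp hrq with h | h | h
    · rw [h]
      exact d2_mono e1 (by omega)
    · rw [h]
      exact d2_mono hq (by omega)
    · rw [h]
      exact d2_step (hc.hX r) h2.symm e1
  rcases B.deg (s.a q) with d1 | d1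
  · exact key q r hpq hrp hrq h1 h2 (d2_self (hc.hX q) d1)
  rcases B.deg (s.a r) with d2 | d2
  · exact key r q hrp.symm hpq.symm hrq.symm h2 h1 (d2_self (hc.hX r) d2)
  obtain ⟨x, x1, x2, x3, x4⟩ := third d1 (hc.adj q) h1.symm (a_ne_b hc _ _).symm
  obtain ⟨y, y1, y2, y3, y4⟩ := third d2 (hc.adj r) h2.symm (a_ne_b hc _ _).symm
  have qr : s.a q ≠ s.a r := fun h => hrq (hc.ia h).symm
  have hp : ∀ w, G.Adj (s.a p) w → w = s.b p ∨ w = s.a q ∨ w = s.a r := by
    intro w hw
    rcases B.deg (s.a p) with d | d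
    · obtain ⟨z, -, -, z3⟩ := second d (hc.adj p)
      have e1 : s.a q = z := (z3 _ h1).resolve_left (a_ne_b hc _ _)
      have e2 : s.a r = z := (z3 _ h2).resolve_left (a_ne_b hc _ _)
      exact absurd (e1.trans e2.symm) qr
    · obtain ⟨z, -, -, -, z4⟩ := third d (hc.adj p) h1 (a_ne_b hc _ _).symm
      have e2 : s.a r = z := by
        rcases z4 _ h2 with h | h | h
        · exact absurd h (a_ne_b hc _ _)
        · exact absurd h.symm qr
        · exact h
      rcases z4 w hw with h | h | h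
      · exact Or.inl h
      · exact Or.inr (Or.inl h)
      · exact Or.inr (Or.inr (h.trans e2.symm))
  have xY : s.Y x := in_of_end hc x3 x1
  have xr : x ≠ s.a r := by
    rintro rfl
    exact B.tri _ _ _ h1 x3 h2
  have hle : (leave G {v | s.Y v ∧ v ≠ s.a p ∧ v ≠ s.a q ∧ v ≠ s.a r}).ncard ≤ 2 := by
    refine leave_le_two (x := x) (y := s.a q) (x' := y) (y' := s.a r) ?_
    rintro u v ⟨u1, u2, u3, u4⟩ hv huv
    by_cases hY : s.Y v
    · by_cases v1 : v = s.a p
      · subst v1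
        rcases hp u huv.symm with h | h | h
        · exact absurd u1 (h ▸ hc.hY _)
        · exact absurd h u3
        · exact absurd h u4
      by_cases v2 : v = s.a q
      · subst v2
        rcases x4 u huv.symm with h | h | h
        · exact absurd u1 (h ▸ hc.hY _)
        · exact absurd h u2
        · exact Or.inl ⟨h, rfl⟩
      by_cases v3 : v = s.a r
      · subst v3
        rcases y4 u huv.symm with h | h | h
        · exact absurd u1 (h ▸ hc.hY _)
        · exact absurd h u2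
        · exact Or.inr ⟨h, rfl⟩
      exact absurd ⟨hY, v1, v2, v3⟩ hv
    · obtain ⟨j, e1, -⟩ := hc.cut u v u1 hY huv
      rcases fall p q r j hpq hrp hrq with h | h | h
      · exact absurd (by rw [e1, h]) u2
      · exact absurd (by rw [e1, h]) u3
      · exact absurd (by rw [e1, h]) u4
  obtain ⟨o, o1, o2⟩ := ho
  have hx2 := B.two _ hle ⟨o, fun h => o1 h.1, o2⟩ x ⟨xY, x2, x3.ne', xr⟩
  exact key q r hpq hrp hrq h1 h2 (d2_step (hc.hX q) x3 (d2_self (k := 0) xY hx2))

/-- **The adjacent ends of a side.** -/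
theorem pair_cases (B : Bas G) {s : Sd V} (hc : CutK G s.Y s.a s.b)
    (ho : ∃ v, ¬ s.Y v ∧ dg G v = 3) : AllNear G 3 s ∨ (∀ i j, ¬ G.Adj (s.a i) (s.a j)) ∨
      ∃ p q r : Fin 3, p ≠ q ∧ p ≠ r ∧ q ≠ r ∧ G.Adj (s.a p) (s.a q) ∧ ¬ G.Adj (s.a p) (s.a r) ∧
        ¬ G.Adj (s.a q) (s.a r) := by
  by_cases hadj : ∃ i j, i ≠ j ∧ G.Adj (s.a i) (s.a j)
  · obtain ⟨p, q, hpq, h⟩ := hadj
    obtain ⟨r, hrp, hrq⟩ := fother p q hpq
    by_cases h1 : G.Adj (s.a p) (s.a r)
    · exact Or.inl (two_pairs B hc ho hpq hrp hrq h h1)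
    by_cases h2 : G.Adj (s.a q) (s.a r)
    · exact Or.inl (two_pairs B hc ho hpq.symm hrq hrp h.symm h2)
    exact Or.inr (Or.inr ⟨p, q, r, hpq, hrp.symm, hrq.symm, h, h1, h2⟩)
  · push Not at hadj
    refine Or.inr (Or.inl fun i j h => ?_)
    by_cases hij : i = j
    · rw [hij] at h
      exact G.loopless.irrefl _ h
    · exact hadj i j hij h

/-- Two vertices of degree three. -/
theorem thick_of {A : Set V} {x y : V} (hxy : x ≠ y) (hx : x ∈ A) (hy : y ∈ A) (dx : dg G x = 3)
    (dy : dg G y = 3) : Thick G A := by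
  have hsub : ({x, y} : Set V) ⊆ {v | v ∈ A ∧ (G.neighborSet v).ncard = 3} := by
    rintro v (rfl | rfl)
    · exact ⟨hx, dx⟩
    · exact ⟨hy, dy⟩
  have := Set.ncard_le_ncard hsub (Set.toFinite _)
  rw [Set.ncard_pair hxy] at this
  exact this

/-- **One step: a rung.** -/
theorem step_rung (B : Bas G) {s : Sd V} (hc : CutK G s.Y s.a s.b)
    (ho : ∃ v, ¬ s.Y v ∧ dg G v = 3) (h3 : ∀ i, dg G (s.a i) = 3) {l : Fin 3}
    (hr : G.Adj (s.a (l + 1)) (s.a (l + 2))) :
    AllNear G 3 s ∨ ∃ r1 r2, RStep G s l r1 r2 ∧ Thick G {v | (rsd s l r1 r2).Y v} ∧ r1 ≠ r2 ∧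
      s.Y r1 ∧ s.Y r2 ∧ r1 ≠ s.a l ∧ r2 ≠ s.a l := by
  obtain ⟨r1, x1, x2, x3, x4⟩ := third (h3 (l + 1)) (hc.adj (l + 1)) hr (a_ne_b hc _ _).symm
  obtain ⟨r2, y1, y2, y3, y4⟩ := third (h3 (l + 2)) (hc.adj (l + 2)) hr.symm (a_ne_b hc _ _).symm
  have hne : r1 ≠ r2 := by
    rintro rfl
    exact B.tri _ _ _ hr y3 x3
  have z1 : s.Y r1 := in_of_end hc x3 x1
  have z2 : s.Y r2 := in_of_end hc y3 y1
  have w1 : r1 ≠ s.a (l + 1) := x3.ne'
  have w2 : r2 ≠ s.a (l + 2) := y3.ne'
  have l1 : s.a l ≠ s.a (l + 1) := fun h => f1 l (hc.ia h).symm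
  have l2 : s.a l ≠ s.a (l + 2) := fun h => f2 l (hc.ia h).symm
  have g1 : l + 1 ≠ l := f1 l
  have g2 : l + 2 ≠ l := f2 l
  have g3 : l + 1 ≠ l + 2 := f12 l
  -- two adjacent pairs
  by_cases k1 : r1 = s.a l
  · exact Or.inl (two_pairs B hc ho g3 g1.symm g2.symm hr (k1 ▸ x3))
  by_cases k2 : r2 = s.a l
  · exact Or.inl (two_pairs B hc ho g3.symm g2.symm g1.symm hr.symm (k2 ▸ y3))
  -- the leaving edges
  have hcut : ∀ u v, (rsd s l r1 r2).Y u → ¬ (rsd s l r1 r2).Y v → G.Adj u v →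
      (u = r1 ∧ v = s.a (l + 1)) ∨ (u = r2 ∧ v = s.a (l + 2)) ∨ (u = s.a l ∧ v = s.b l) := by
    rintro u v ⟨u1, u2, u3⟩ hv huv
    by_cases hY : s.Y v
    · have : v = s.a (l + 1) ∨ v = s.a (l + 2) := by
        by_contra hcon
        push Not at hcon
        exact hv ⟨hY, hcon⟩
      rcases this with rfl | rfl
      · rcases x4 u huv.symm with h | h | h
        · exact absurd u1 (h ▸ hc.hY _)
        · exact absurd h u3
        · exact Or.inl ⟨h, rfl⟩
      · rcases y4 u huv.symm with h | h | h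
        · exact absurd u1 (h ▸ hc.hY _)
        · exact absurd h u2
        · exact Or.inr (Or.inl ⟨h, rfl⟩)
    · obtain ⟨j, e1, e2⟩ := hc.cut u v u1 hY huv
      rcases fcase l j with rfl | rfl | rfl
      · exact Or.inr (Or.inr ⟨e1, e2⟩)
      · exact absurd e1 u2
      · exact absurd e1 u3
  have hcutK : CutK G (rsd s l r1 r2).Y (rsd s l r1 r2).a (rsd s l r1 r2).b := by
    refine ⟨fun i => ?_, fun i => ?_, fun i => ?_, fun i j hij => ?_, fun i j hij => ?_,
      fun u v hu hv huv => ?_⟩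
    · rcases fcase l i with rfl | rfl | rfl
      · rw [rsd_a0]
        exact ⟨hc.hX _, l1, l2⟩
      · rw [rsd_a1]
        exact ⟨z1, w1, x2⟩
      · rw [rsd_a2]
        exact ⟨z2, y2, w2⟩
    · rcases fcase l i with rfl | rfl | rfl
      · rw [rsd_b0]
        exact fun h => hc.hY _ h.1
      · rw [rsd_b1]
        exact fun h => h.2.1 rfl
      · rw [rsd_b2]
        exact fun h => h.2.2 rfl
    · rcases fcase l i with rfl | rfl | rfl
      · rw [rsd_a0, rsd_b0]
        exact hc.adj _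
      · rw [rsd_a1, rsd_b1]
        exact x3.symm
      · rw [rsd_a2, rsd_b2]
        exact y3.symm
    · rcases fcase l i with h | h | h <;> rcases fcase l j with h' | h' | h' <;>
        rw [h, h'] at hij ⊢ <;> simp only [rsd_a0, rsd_a1, rsd_a2] at hij <;> first
        | exact absurd hij.symm k1
        | exact absurd hij.symm k2
        | exact absurd hij k1
        | exact absurd hij k2
        | exact absurd hij hne
        | exact absurd hij.symm hne
    · rcases fcase l i with h | h | h <;> rcases fcase l j with h' | h' | h' <;>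
        rw [h, h'] at hij ⊢ <;> simp only [rsd_b0, rsd_b1, rsd_b2] at hij <;> first
        | exact absurd hij (a_ne_b hc _ _)
        | exact absurd hij.symm (a_ne_b hc _ _)
        | exact absurd (hc.ia hij) (f12 l)
        | exact absurd (hc.ia hij) (f12 l).symm
    · rcases hcut u v hu hv huv with ⟨h, h'⟩ | ⟨h, h'⟩ | ⟨h, h'⟩
      · exact ⟨l + 1, by rw [rsd_a1, h], by rw [rsd_b1, h']⟩
      · exact ⟨l + 2, by rw [rsd_a2, h], by rw [rsd_b2, h']⟩
      · exact ⟨l, by rw [rsd_a0, h], by rw [rsd_b0, h']⟩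
  -- thick or not
  by_cases ht : Thick G {v | (rsd s l r1 r2).Y v}
  · exact Or.inr ⟨r1, r2, ⟨hr, x3, y3, x4, y4, hcutK⟩, ht, hne, z1, z2, k1, k2⟩
  left
  have hY : ∀ v, (rsd s l r1 r2).Y v → v ≠ s.a l → dg G v = 2 := by
    intro v hv hvl
    rcases B.deg v with d | d
    · exact d
    · exact absurd (thick_of (A := {v | (rsd s l r1 r2).Y v}) hvl hv ⟨hc.hX _, l1, l2⟩ d (h3 l)) ht
  have e1 := hY r1 ⟨z1, w1, x2⟩ k1
  have e2 := hY r2 ⟨z2, y2, w2⟩ k2
  obtain ⟨t, t1, t2⟩ : ∃ t, t ≠ s.b l ∧ G.Adj (s.a l) t := by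
    have := h3 l
    unfold dg at this
    obtain ⟨p, q, r, h1, h2, h3, h4⟩ := Set.ncard_eq_three.1 this
    have hp : G.Adj (s.a l) p := by
      have : p ∈ G.neighborSet (s.a l) := by rw [h4]; simp
      exact this
    have hq : G.Adj (s.a l) q := by
      have : q ∈ G.neighborSet (s.a l) := by rw [h4]; simp
      exact this
    by_cases hpb : p = s.b l
    · exact ⟨q, fun h => h1 (hpb.trans h.symm), hq⟩
    · exact ⟨p, hpb, hp⟩
  have t3 : s.Y t := in_of_end hc t2 t1
  have t4 : t ≠ s.a (l + 1) := by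
    rintro rfl
    rcases x4 _ t2.symm with h | h | h
    · exact a_ne_b hc _ _ h
    · exact l2 h
    · exact k1 h.symm
  have t5 : t ≠ s.a (l + 2) := by
    rintro rfl
    rcases y4 _ t2.symm with h | h | h
    · exact a_ne_b hc _ _ h
    · exact l1 h
    · exact k2 h.symm
  have e0 := hY t ⟨t3, t4, t5⟩ t2.ne'
  intro i
  rcases fcase l i with h | h | h
  · rw [h]
    exact d2_mono (d2_step (hc.hX l) t2 (d2_self (k := 0) t3 e0)) (by omega)
  · rw [h]
    exact d2_mono (d2_step (hc.hX _) x3 (d2_self (k := 0) z1 e1)) (by omega)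
  · rw [h]
    exact d2_mono (d2_step (hc.hX _) y3 (d2_self (k := 0) z2 e2)) (by omega)

end Pool.Agent.Bad59
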