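import Mathlib
import Pool.Agent.Work.MP_392c8e_co_uni.GeoC4
import Pool.Agent.Work.MP_392c8e_co_t1.Maps

/-!
# Two neighbours of a vertex without another common neighbour

In a cyclically 4-edge-connected cubic graph every vertex has two neighbours without another common
neighbour, unless the graph is the cube.
-/

set_option autoImplicit false

namespace Pool.Agent.U2Geo

open Finset Pool.Agent.Sub392 Pool.T1Side Pool.Agent.T392 Pool.Agent.T1FF

set_option linter.unusedSectionVars false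

variable {V : Type} [Fintype V] [DecidableEq V] {G : SimpleGraph V} [DecidableRel G.Adj]

/-- Three different neighbours of a vertex of degree three. -/
theorem nb3_mk {p a b c : V} (h : G.degree p = 3) (ha : G.Adj p a) (hb : G.Adj p b)
    (hc : G.Adj p c) (hab : a ≠ b) (hac : a ≠ c) (hbc : b ≠ c) : Nb3 G p a b c := by
  refine ⟨ha, hb, hc, hab, hac, hbc, fun w hw => ?_⟩
  have h1 : #({a, b, c} : Finset V) = 3 := card_eq_three.2 ⟨a, b, c, hab, hac, hbc, rfl⟩
  have h2 : ({a, b, c} : Finset V) ⊆ G.neighborFinset p := by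
    intro z hz
    rw [SimpleGraph.mem_neighborFinset]
    simp only [mem_insert, mem_singleton] at hz
    rcases hz with rfl | rfl | rfl <;> assumption
  have h3 := eq_of_subset_of_card_le h2
    (by rw [h1, SimpleGraph.card_neighborFinset_eq_degree, h])
  have h4 : w ∈ G.neighborFinset p := by rwa [SimpleGraph.mem_neighborFinset]
  rw [← h3] at h4
  simpa only [mem_insert, mem_singleton] using h4

/-- The third neighbour. -/
theorem nb3_third {p a b : V} (h : G.degree p = 3) (ha : G.Adj p a) (hb : G.Adj p b)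
    (hab : a ≠ b) : ∃ c, Nb3 G p a b c := by
  have h1 : ∃ c ∈ G.neighborFinset p, c ∉ ({a, b} : Finset V) := by
    refine exists_mem_notMem_of_card_lt_card ?_
    rw [SimpleGraph.card_neighborFinset_eq_degree, h, card_pair hab]
    norm_num
  obtain ⟨c, hc, hc'⟩ := h1
  rw [SimpleGraph.mem_neighborFinset] at hc
  simp only [mem_insert, mem_singleton, not_or] at hc'
  exact ⟨c, nb3_mk h ha hb hc hab (Ne.symm hc'.1) (Ne.symm hc'.2)⟩

theorem nb_in {A : Finset V} {x a b c w : V} (h : Nb3 G x a b c) (ha : a ∈ A) (hb : b ∈ A)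
    (hc : c ∈ A) (hw : G.Adj x w) : w ∈ A := by
  rcases h.all w hw with rfl | rfl | rfl <;> assumption

/-- The number of leaving edges, if every leaving edge starts in the set `T` and every element of
`T` has two neighbours inside. -/
theorem out_le_card {A T : Finset V} (h1 : ∀ d : G.Dart, d.fst ∈ A → d.snd ∉ A → d.fst ∈ T)
    (h2 : ∀ t ∈ T, ∃ a b c, Nb3 G t a b c ∧ a ∈ A ∧ b ∈ A) : out G A ≤ #T := by
  unfold out
  refine card_le_card_of_injOn (fun d => d.fst) ?_ ?_
  · intro d hd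
    have hd' : d.fst ∈ A ∧ d.snd ∉ A := by simpa using hd
    exact h1 d hd'.1 hd'.2
  · intro d hd e he hde
    have hd' : d.fst ∈ A ∧ d.snd ∉ A := by simpa using hd
    have he' : e.fst ∈ A ∧ e.snd ∉ A := by simpa using he
    have hde' : d.fst = e.fst := hde
    obtain ⟨a, b, c, h, ha, hb⟩ := h2 _ (h1 d hd'.1 hd'.2)
    have k1 : d.snd = c := by
      rcases h.all _ d.adj with h5 | h5 | h5
      · exact absurd (h5 ▸ ha) hd'.2
      · exact absurd (h5 ▸ hb) hd'.2
      · exact h5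
    have k2 : e.snd = c := by
      rcases h.all _ (by rw [hde']; exact e.adj) with h5 | h5 | h5
      · exact absurd (h5 ▸ ha) he'.2
      · exact absurd (h5 ▸ hb) he'.2
      · exact h5
    exact SimpleGraph.Dart.ext _ _ (Prod.ext hde' (k1.trans k2.symm))

/-- The graph is the cube, seen from the vertex `v`. -/
structure CubeAt (G : SimpleGraph V) (v s1 s2 s3 u12 u13 u23 z : V) : Prop where
  nv : Nb3 G v s1 s2 s3
  n1 : Nb3 G s1 v u12 u13
  n2 : Nb3 G s2 v u12 u23
  n3 : Nb3 G s3 v u13 u23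
  n12 : Nb3 G u12 s1 s2 z
  n13 : Nb3 G u13 s1 s3 z
  n23 : Nb3 G u23 s2 s3 z
  nz : Nb3 G z u12 u13 u23
  all : ∀ w, w ∈ ({v, s1, s2, s3, u12, u13, u23, z} : Finset V)
  card : Fintype.card V = 8

/-- Two neighbours of a vertex have another common neighbour. -/
theorem another {v p q : V} (h : ¬ ∀ w, G.Adj p w → G.Adj q w → w = v) :
    ∃ u, u ≠ v ∧ G.Adj p u ∧ G.Adj q u := by
  push Not at h
  obtain ⟨u, h1, h2, h3⟩ := h
  exact ⟨u, h3, h1, h2⟩

/-- No vertex besides `v` is adjacent to all three neighbours of `v`. -/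
theorem no_k23 (hcub : ∀ v, G.degree v = 3)
    (hcut : ∀ A : Finset V, out G A ≤ 3 → #A ≤ 1 ∨ #Aᶜ ≤ 1) (hbig : 7 ≤ Fintype.card V)
    {v s1 s2 s3 u : V} (hv : Nb3 G v s1 s2 s3) (huv : u ≠ v) (h1 : G.Adj s1 u)
    (h2 : G.Adj s2 u) (h3 : G.Adj s3 u) : False := by
  set A : Finset V := {v, u, s1, s2, s3} with hA
  have mA : ∀ w, w ∈ A ↔ w = v ∨ w = u ∨ w = s1 ∨ w = s2 ∨ w = s3 := fun w => by
    rw [hA]; simp only [mem_insert, mem_singleton]
  have q1 : s1 ∈ A := (mA _).2 (Or.inr (Or.inr (Or.inl rfl)))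
  have q2 : s2 ∈ A := (mA _).2 (Or.inr (Or.inr (Or.inr (Or.inl rfl))))
  have q3 : s3 ∈ A := (mA _).2 (Or.inr (Or.inr (Or.inr (Or.inr rfl))))
  have nu : Nb3 G u s1 s2 s3 := nb3_mk (hcub u) h1.symm h2.symm h3.symm hv.ab hv.ac hv.bc
  have hout : out G A ≤ #({s1, s2, s3} : Finset V) := by
    refine out_le_card ?_ ?_
    · intro d hd hd'
      rw [mA] at hd
      simp only [mem_insert, mem_singleton]
      have hadj := d.adj
      rcases hd with h5 | h5 | h5 | h5 | h5
      · rw [h5] at hadj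
        exact absurd (nb_in hv q1 q2 q3 hadj) hd'
      · rw [h5] at hadj
        exact absurd (nb_in nu q1 q2 q3 hadj) hd'
      · exact Or.inl h5
      · exact Or.inr (Or.inl h5)
      · exact Or.inr (Or.inr h5)
    · intro t ht
      simp only [mem_insert, mem_singleton] at ht
      have key : G.Adj t v ∧ G.Adj t u := by
        rcases ht with rfl | rfl | rfl
        · exact ⟨hv.ha.symm, h1⟩
        · exact ⟨hv.hb.symm, h2⟩
        · exact ⟨hv.hc.symm, h3⟩
      obtain ⟨c, hc⟩ := nb3_third (hcub t) key.1 key.2 huv.symm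
      exact ⟨v, u, c, hc, (mA v).2 (Or.inl rfl), (mA u).2 (Or.inr (Or.inl rfl))⟩
  have h5 : #({s1, s2, s3} : Finset V) ≤ 3 := card_le_three
  have h6 : #A ≤ 5 := card_le_five
  rcases hcut A (hout.trans h5) with h7 | h7
  · exact hv.ab (card_le_one.1 h7 s1 q1 s2 q2)
  · have h8 := card_add_card_compl A
    omega

/-- **A legal pair.** -/
theorem legal_pair (hcub : ∀ v, G.degree v = 3)
    (hcut : ∀ A : Finset V, out G A ≤ 3 → #A ≤ 1 ∨ #Aᶜ ≤ 1) (htri : G.CliqueFree 3)
    (hbig : 7 ≤ Fintype.card V) (v : V) :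
    (∃ p q y, Nb3 G v p q y ∧ ¬ G.Adj p q ∧ ∀ w, G.Adj p w → G.Adj q w → w = v) ∨
      ∃ s1 s2 s3 u12 u13 u23 z, CubeAt G v s1 s2 s3 u12 u13 u23 z := by
  have notri : ∀ a b c, G.Adj a b → G.Adj b c → G.Adj a c → False := fun a b c h1 h2 h3 =>
    no_tri htri h1 h2 h3
  obtain ⟨s1, s2, h12⟩ : ∃ s1 s2, G.Adj v s1 ∧ G.Adj v s2 ∧ s1 ≠ s2 := by
    have h1 : 1 < #(G.neighborFinset v) := by
      rw [SimpleGraph.card_neighborFinset_eq_degree, hcub]; norm_num
    obtain ⟨a, ha, b, hb, hab⟩ := one_lt_card.1 h1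
    rw [SimpleGraph.mem_neighborFinset] at ha hb
    exact ⟨a, b, ha, hb, hab⟩
  obtain ⟨s3, hv⟩ := nb3_third (hcub v) h12.1 h12.2.1 h12.2.2
  by_cases k12 : ∀ w, G.Adj s1 w → G.Adj s2 w → w = v
  · exact Or.inl ⟨s1, s2, s3, hv, fun h => notri _ _ _ hv.ha h hv.hb, k12⟩
  by_cases k13 : ∀ w, G.Adj s1 w → G.Adj s3 w → w = v
  · exact Or.inl ⟨s1, s3, s2, hv.s23, fun h => notri _ _ _ hv.ha h hv.hc, k13⟩
  by_cases k23 : ∀ w, G.Adj s2 w → G.Adj s3 w → w = v
  · exact Or.inl ⟨s2, s3, s1, hv.s12.s23, fun h => notri _ _ _ hv.hb h hv.hc, k23⟩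
  right
  obtain ⟨u12, a1, a2, a3⟩ := another k12
  obtain ⟨u13, b1, b2, b3⟩ := another k13
  obtain ⟨u23, c1, c2, c3⟩ := another k23
  have n1 : u12 ≠ u13 := fun h =>
    no_k23 hcub hcut hbig hv a1 a2 a3 (h ▸ b3)
  have n2 : u12 ≠ u23 := fun h =>
    no_k23 hcub hcut hbig hv a1 a2 a3 (h ▸ c3)
  have n3 : u13 ≠ u23 := fun h =>
    no_k23 hcub hcut hbig hv b1 b2 (h ▸ c2) b3
  have m1 : Nb3 G s1 v u12 u13 := nb3_mk (hcub _) hv.ha.symm a2 b2 a1.symm b1.symm n1
  have m2 : Nb3 G s2 v u12 u23 := nb3_mk (hcub _) hv.hb.symm a3 c2 a1.symm c1.symm n2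
  have m3 : Nb3 G s3 v u13 u23 := nb3_mk (hcub _) hv.hc.symm b3 c3 b1.symm c1.symm n3
  -- different vertices
  have d1 : ∀ s u, G.Adj v s → G.Adj s u → ∀ t, G.Adj v t → u ≠ t := by
    intro s u h1 h2 t h3 h4
    exact notri v s t h1 (h4 ▸ h2) h3
  set A : Finset V := {v, s1, s2, s3, u12, u13, u23} with hA
  have mA : ∀ w, w ∈ A ↔ w = v ∨ w = s1 ∨ w = s2 ∨ w = s3 ∨ w = u12 ∨ w = u13 ∨ w = u23 :=
    fun w => by rw [hA]; simp only [mem_insert, mem_singleton]
  have q0 : v ∈ A := (mA _).2 (Or.inl rfl)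
  have q1 : s1 ∈ A := (mA _).2 (Or.inr (Or.inl rfl))
  have q2 : s2 ∈ A := (mA _).2 (Or.inr (Or.inr (Or.inl rfl)))
  have q3 : s3 ∈ A := (mA _).2 (Or.inr (Or.inr (Or.inr (Or.inl rfl))))
  have q4 : u12 ∈ A := (mA _).2 (Or.inr (Or.inr (Or.inr (Or.inr (Or.inl rfl)))))
  have q5 : u13 ∈ A := (mA _).2 (Or.inr (Or.inr (Or.inr (Or.inr (Or.inr (Or.inl rfl))))))
  have q6 : u23 ∈ A := (mA _).2 (Or.inr (Or.inr (Or.inr (Or.inr (Or.inr (Or.inr rfl))))))
  have hcardA : #A = 7 := by
    rw [hA, card_insert_of_notMem, card_insert_of_notMem, card_insert_of_notMem,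
      card_insert_of_notMem, card_insert_of_notMem, card_pair n3]
    · simp only [mem_insert, mem_singleton, not_or]
      exact ⟨n1, n2⟩
    · simp only [mem_insert, mem_singleton, not_or]
      exact ⟨(d1 _ _ hv.ha a2 _ hv.hc).symm, (d1 _ _ hv.ha b2 _ hv.hc).symm,
        (d1 _ _ hv.hb c2 _ hv.hc).symm⟩
    · simp only [mem_insert, mem_singleton, not_or]
      exact ⟨hv.bc, (d1 _ _ hv.ha a2 _ hv.hb).symm, (d1 _ _ hv.ha b2 _ hv.hb).symm,
        (d1 _ _ hv.hb c2 _ hv.hb).symm⟩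
    · simp only [mem_insert, mem_singleton, not_or]
      exact ⟨hv.ab, hv.ac, (d1 _ _ hv.ha a2 _ hv.ha).symm, (d1 _ _ hv.ha b2 _ hv.ha).symm,
        (d1 _ _ hv.hb c2 _ hv.ha).symm⟩
    · simp only [mem_insert, mem_singleton, not_or]
      exact ⟨hv.ha.ne, hv.hb.ne, hv.hc.ne, a1.symm, b1.symm, c1.symm⟩
  have hout : out G A ≤ #({u12, u13, u23} : Finset V) := by
    refine out_le_card ?_ ?_
    · intro d hd hd'
      rw [mA] at hd
      simp only [mem_insert, mem_singleton]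
      have hadj := d.adj
      rcases hd with h5 | h5 | h5 | h5 | h5 | h5 | h5
      · rw [h5] at hadj
        exact absurd (nb_in hv q1 q2 q3 hadj) hd'
      · rw [h5] at hadj
        exact absurd (nb_in m1 q0 q4 q5 hadj) hd'
      · rw [h5] at hadj
        exact absurd (nb_in m2 q0 q4 q6 hadj) hd'
      · rw [h5] at hadj
        exact absurd (nb_in m3 q0 q5 q6 hadj) hd'
      · exact Or.inl h5
      · exact Or.inr (Or.inl h5)
      · exact Or.inr (Or.inr h5)
    · intro t ht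
      simp only [mem_insert, mem_singleton] at ht
      rcases ht with rfl | rfl | rfl
      · obtain ⟨c, hc⟩ := nb3_third (hcub t) a2.symm a3.symm hv.ab
        exact ⟨s1, s2, c, hc, q1, q2⟩
      · obtain ⟨c, hc⟩ := nb3_third (hcub t) b2.symm b3.symm hv.ac
        exact ⟨s1, s3, c, hc, q1, q3⟩
      · obtain ⟨c, hc⟩ := nb3_third (hcub t) c2.symm c3.symm hv.bc
        exact ⟨s2, s3, c, hc, q2, q3⟩
  have h3' : #({u12, u13, u23} : Finset V) ≤ 3 := card_le_three
  have hcompl : #Aᶜ ≤ 1 := by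
    rcases hcut A (hout.trans h3') with h7 | h7
    · omega
    · exact h7
  have hsum := card_add_card_compl A
  have heven : Even (Fintype.card V) := by
    have h1 : ∑ w : V, G.degree w = 2 * #G.edgeFinset := G.sum_degrees_eq_twice_card_edges
    rw [sum_congr rfl fun w _ => hcub w, sum_const, card_univ, smul_eq_mul] at h1
    rcases Nat.even_or_odd (Fintype.card V) with h2 | h2
    · exact h2
    · obtain ⟨k, hk⟩ := h2
      omega
  have hcard : Fintype.card V = 8 := by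
    obtain ⟨k, hk⟩ := heven
    omega
  have hc1 : #Aᶜ = 1 := by omega
  obtain ⟨z, hz⟩ := card_eq_one.1 hc1
  have hall : ∀ w, w ∈ A ∨ w = z := by
    intro w
    by_cases hw : w ∈ A
    · exact Or.inl hw
    · right
      have : w ∈ Aᶜ := mem_compl.2 hw
      rwa [hz, mem_singleton] at this
  have hzA : z ∉ A := by
    have : z ∈ Aᶜ := by rw [hz, mem_singleton]
    exact mem_compl.1 this
  -- the neighbours of z
  have hzn : ∀ w, G.Adj z w → w = u12 ∨ w = u13 ∨ w = u23 := by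
    intro w hw
    rcases hall w with h5 | h5
    · rw [mA] at h5
      rcases h5 with h6 | h6 | h6 | h6 | h6
      · rw [h6] at hw
        exact absurd (nb_in hv q1 q2 q3 hw.symm) hzA
      · rw [h6] at hw
        exact absurd (nb_in m1 q0 q4 q5 hw.symm) hzA
      · rw [h6] at hw
        exact absurd (nb_in m2 q0 q4 q6 hw.symm) hzA
      · rw [h6] at hw
        exact absurd (nb_in m3 q0 q5 q6 hw.symm) hzA
      · exact h6
    · exact absurd (h5 ▸ hw) (G.loopless.irrefl z)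
  have hz3 : G.neighborFinset z = {u12, u13, u23} := by
    refine eq_of_subset_of_card_le ?_ ?_
    · intro w hw
      rw [SimpleGraph.mem_neighborFinset] at hw
      simp only [mem_insert, mem_singleton]
      exact hzn w hw
    · rw [SimpleGraph.card_neighborFinset_eq_degree, hcub]
      exact h3'
  have z1 : G.Adj z u12 := by
    rw [← SimpleGraph.mem_neighborFinset, hz3]; simp
  have z2 : G.Adj z u13 := by
    rw [← SimpleGraph.mem_neighborFinset, hz3]; simp
  have z3 : G.Adj z u23 := by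
    rw [← SimpleGraph.mem_neighborFinset, hz3]; simp
  have zs : ∀ s, s ∈ A → s ≠ z := fun s hs h => hzA (h ▸ hs)
  refine ⟨s1, s2, s3, u12, u13, u23, z, hv, m1, m2, m3, ?_, ?_, ?_, ?_, ?_, hcard⟩
  · exact nb3_mk (hcub _) a2.symm a3.symm z1.symm hv.ab (zs _ q1) (zs _ q2)
  · exact nb3_mk (hcub _) b2.symm b3.symm z2.symm hv.ac (zs _ q1) (zs _ q3)
  · exact nb3_mk (hcub _) c2.symm c3.symm z3.symm hv.bc (zs _ q2) (zs _ q3)
  · exact nb3_mk (hcub _) z1 z2 z3 n1 n2 n3
  · intro w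
    simp only [mem_insert, mem_singleton]
    rcases hall w with h5 | h5
    · rw [mA] at h5
      rcases h5 with h5 | h5 | h5 | h5 | h5 | h5 | h5 <;> simp only [h5, true_or, or_true]
    · simp only [h5, or_true]

/-- The same for the class of stage C. -/
theorem C4.legal_pair {R : Rot G} (h : C4 R) (v : V) :
    (∃ p q y, Nb3 G v p q y ∧ ¬ G.Adj p q ∧ ∀ w, G.Adj p w → G.Adj q w → w = v) ∨
      ∃ s1 s2 s3 u12 u13 u23 z, CubeAt G v s1 s2 s3 u12 u13 u23 z :=
  U2Geo.legal_pair h.cub h.cut h.tri h.big v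

end Pool.Agent.U2Geo
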