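import Pool.Agent.Work.MP_392c8e_co_uni.GBRot
import Pool.Agent.Work.MP_392c8e_co_uni.VData
import Pool.Agent.Work.MP_392c8e_co_uni.Exit
import Pool.Agent.Work.MP_392c8e_co_uni.Count

/-!
# Classes of faces around the vertices of degree three

The faces are classified.  At a vertex of degree three, no, two or three edges are crossing edges.
Along a path all of whose inner vertices have a third edge which is not crossing, the two classes
at the sides do not change.
-/

set_option autoImplicit false
set_option linter.unusedSectionVars false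

namespace Pool.Agent.Uni392

open Finset Pool.Agent.Sub392 Pool.Agent.T392 Pool.Agent.Disch392
open Pool.Agent.Uni3 (Cr)

variable {V : Type} [Fintype V] [DecidableEq V] {G : SimpleGraph V} [DecidableRel G.Adj]

/-- The three darts at a vertex of degree three. -/
theorem dart_cases (R : Rot G) {d d0 : G.Dart} (h3 : G.degree d.fst = 3) (h : d0.fst = d.fst) :
    d0 = d ∨ d0 = R.rot d ∨ d0 = R.rot (R.rot d) := by
  obtain ⟨i, -, hi⟩ := (R.cyc d d0 h.symm).exists_pow_eq'
  have key : ∀ i : ℕ, (R.rot ^ i) d = d ∨ (R.rot ^ i) d = R.rot d ∨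
      (R.rot ^ i) d = R.rot (R.rot d) := by
    intro i
    induction i with
    | zero => exact Or.inl rfl
    | succ i ih =>
      rw [pow_succ', Equiv.Perm.mul_apply]
      rcases ih with ih | ih | ih
      · exact Or.inr (Or.inl (by rw [ih]))
      · exact Or.inr (Or.inr (by rw [ih]))
      · refine Or.inl ?_
        rw [ih]
        exact rot_three R h3
  rw [← hi]
  exact key i

variable {T : Type} {R : Rot G} {κ : R.Face → T}

/-- Past a vertex with a third edge which is not crossing. -/
theorem same_step {e e0 d : G.Dart} (h3 : G.degree e.fst = 3) (h0 : e0.fst = e.fst)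
    (hd : d.fst = e.fst) (hde : d ≠ e) (h0e : e0 ≠ e) (h0d : e0 ≠ d)
    (hc : κ (R.face e0) = κ (R.face e0.symm)) :
    κ (R.face d) = κ (R.face e.symm) ∧ κ (R.face d.symm) = κ (R.face e) := by
  have hr := rot_three R h3
  rcases dart_cases R h3 hd with h1 | h1 | h1
  · exact absurd h1 hde
  · rcases dart_cases R h3 h0 with h2 | h2 | h2
    · exact absurd h2 h0e
    · exact absurd (h2.trans h1.symm) h0d
    · refine ⟨?_, ?_⟩
      · rw [h1, R.face_rot]
      · have e1 : R.face d.symm = R.face e0 := by
          rw [← R.face_rot, h1, h2]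
        have e2 : R.face e0.symm = R.face e := by
          rw [← R.face_rot, h2, hr]
        rw [e1, ← e2]
        exact hc
  · rcases dart_cases R h3 h0 with h2 | h2 | h2
    · exact absurd h2 h0e
    · refine ⟨?_, ?_⟩
      · have e1 : R.face d = R.face e0.symm := by
          rw [← R.face_rot, h2, h1]
        have e2 : R.face e.symm = R.face e0 := by
          rw [← R.face_rot, h2]
        rw [e1, e2]
        exact hc.symm
      · rw [← R.face_rot, h1, hr]
    · exact absurd (h2.trans h1.symm) h0d

/-- The corners at a vertex with an edge which is not crossing. -/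
theorem same_corner {e e0 d : G.Dart} (h3 : G.degree e.fst = 3) (h0 : e0.fst = e.fst)
    (hd : d.fst = e.fst) (h0e : e0 ≠ e) (hc : κ (R.face e0) = κ (R.face e0.symm)) :
    κ (R.face d) = κ (R.face e) ∨ κ (R.face d) = κ (R.face e.symm) := by
  have hr := rot_three R h3
  rcases dart_cases R h3 hd with h1 | h1 | h1
  · rw [h1]
    exact Or.inl rfl
  · rw [h1, R.face_rot]
    exact Or.inr rfl
  · rcases dart_cases R h3 h0 with h2 | h2 | h2
    · exact absurd h2 h0e
    · right
      have e1 : R.face d = R.face e0.symm := by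
        rw [← R.face_rot, h2, h1]
      have e2 : R.face e.symm = R.face e0 := by
        rw [← R.face_rot, h2]
      rw [e1, e2]
      exact hc.symm
    · left
      have e1 : R.face e0.symm = R.face e := by
        rw [← R.face_rot, h2, hr]
      rw [h1, ← h2, ← e1]
      exact hc

/-- **Along a path.** -/
theorem path_end (hcub : ∀ v, G.degree v = 3) (E : V → V → Prop) (hE : ∀ u v, E u v → E v u)
    (C : Set V) (hC : ∀ d : G.Dart, Cr R κ d → (d.fst ∈ C ↔ d.snd ∈ C)) :
    ∀ (M : List V) (a z : V),
    List.IsChain (fun u v => G.Adj u v ∧ E u v) (a :: (M ++ [z])) → (a :: (M ++ [z])).Nodup →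
    (∀ x ∈ M, ∃ e0 : G.Dart, e0.fst = x ∧ κ (R.face e0) = κ (R.face e0.symm) ∧
      ¬ E e0.fst e0.snd) →
    ∃ (b : V) (hab : G.Adj a b) (y : V) (hyz : G.Adj y z), E a b ∧ (∃ l, M ++ [z] = b :: l) ∧
      κ (R.face ⟨(y, z), hyz⟩) = κ (R.face ⟨(a, b), hab⟩) ∧
      κ (R.face ⟨(z, y), hyz.symm⟩) = κ (R.face ⟨(b, a), hab.symm⟩) ∧
      (Cr R κ ⟨(a, b), hab⟩ → (a ∈ C ↔ z ∈ C)) := by
  intro M
  induction M with
  | nil =>
    intro a z hch _ _
    have h1 : G.Adj a z ∧ E a z := by simpa using hch
    exact ⟨z, h1.1, a, h1.1, h1.2, ⟨[], rfl⟩, rfl, rfl, fun h => hC _ h⟩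
  | cons m M ih =>
    intro a z hch hnd hin
    rw [List.cons_append, List.isChain_cons_cons] at hch
    rw [List.cons_append, List.nodup_cons] at hnd
    obtain ⟨b, hmb, y, hyz, h1, ⟨l, hl⟩, h2, h3, h4⟩ := ih m z hch.2 hnd.2
      fun x hx => hin x (List.mem_cons_of_mem _ hx)
    obtain ⟨e0, f1, f2, f3⟩ := hin m List.mem_cons_self
    have hba : b ≠ a := by
      rintro rfl
      apply hnd.1
      rw [hl]
      exact List.mem_cons_of_mem _ List.mem_cons_self
    have key := same_step (R := R) (κ := κ) (e := (⟨(m, a), hch.1.1.symm⟩ : G.Dart)) (e0 := e0)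
      (d := (⟨(m, b), hmb⟩ : G.Dart)) (hcub _) f1 rfl (fun h => hba (by
        have := congrArg (fun d : G.Dart => d.snd) h
        exact this)) (fun h => f3 (by
        rw [h]
        exact hE _ _ hch.1.2)) (fun h => f3 (by
        rw [h]
        exact h1)) f2
    refine ⟨m, hch.1.1, y, hyz, hch.1.2, ⟨M ++ [z], rfl⟩, h2.trans key.1, h3.trans key.2,
      fun h => ?_⟩
    have h5 : Cr R κ ⟨(m, b), hmb⟩ := by
      intro h6
      apply h
      exact (key.1.symm.trans h6).trans key.2
    exact (hC _ h).trans (h4 h5)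

end Pool.Agent.Uni392
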