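import Mathlib
import Pool.Agent.Work.MP_392c8e_co_uni.ColN

/-!
# Twelve rungs: the inner state can be spread

Three strands, a word of rungs; a colouring at level `N` of twelve rungs can be changed inside such
that the heights of the inner state are pairwise far from each other modulo `N`.
-/

namespace Pool.Agent.Word97

open Pool.Agent.CutN (Jn)

/-! ### The abstract game -/

/-- A tight step: the two strands different from `r` have the same class. -/
def TStep (r : Fin 3) (c h c' h' : Fin 3 → ℤ) : Prop :=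
  ∃ L H : Fin 3, L ≠ r ∧ H ≠ r ∧ L ≠ H ∧ (c L - c H) % 3 = 0 ∧ h L < h' L ∧ h' L < h' H ∧
    h' H < h H ∧ c' L = c L + 1 ∧ c' H = c H + 2 ∧ c' r = c r ∧ h' r = h r

/-- A path of tight steps. -/
def TPath : List (Fin 3) → (Fin 3 → ℤ) → (Fin 3 → ℤ) → Prop
  | [], _, _ => True
  | r :: l, c, h => ∃ c' h', TStep r c h c' h' ∧ TPath l c' h'

/-- A path of tight steps which arrives at a letter with two different classes. -/
def GoodA : List (Fin 3) → (Fin 3 → ℤ) → (Fin 3 → ℤ) → Prop
  | [], _, _ => False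
  | r :: l, c, h => (∃ p q : Fin 3, p ≠ r ∧ q ≠ r ∧ p ≠ q ∧ (c p - c q) % 3 ≠ 0) ∨
      ∃ c' h', TStep r c h c' h' ∧ GoodA l c' h'

theorem cover {r L H : Fin 3} (h1 : L ≠ r) (h2 : H ≠ r) (h3 : L ≠ H) (i : Fin 3) :
    i = r ∨ i = L ∨ i = H := by
  revert r L H i
  decide

theorem TStep.tight {r : Fin 3} {c h c' h' : Fin 3 → ℤ} (t : TStep r c h c' h') {p q : Fin 3}
    (hp : p ≠ r) (hq : q ≠ r) (hpq : p ≠ q) : (c p - c q) % 3 = 0 := by
  obtain ⟨L, H, h1, h2, h3, h4, -⟩ := t
  rcases cover h1 h2 h3 p with e | e | e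
  · exact absurd e hp
  · rcases cover h1 h2 h3 q with e' | e' | e'
    · exact absurd e' hq
    · exact absurd (e.trans e'.symm) hpq
    · rw [e, e']; exact h4
  · rcases cover h1 h2 h3 q with e' | e' | e'
    · exact absurd e' hq
    · rw [e, e']; omega
    · exact absurd (e.trans e'.symm) hpq

theorem good_loose {r p q : Fin 3} {l : List (Fin 3)} {c h : Fin 3 → ℤ} (hp : p ≠ r) (hq : q ≠ r)
    (hpq : p ≠ q) (hc : (c p - c q) % 3 ≠ 0) : GoodA (r :: l) c h :=
  Or.inl ⟨p, q, hp, hq, hpq, hc⟩

theorem good_step {r L H : Fin 3} {l : List (Fin 3)} {c h : Fin 3 → ℤ} (hL : L ≠ r) (hH : H ≠ r)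
    (hLH : L ≠ H) (s s' : ℤ) (hc : (c L - c H) % 3 = 0) (h1 : h L < s) (h2 : s < s')
    (h3 : s' < h H)
    (k : ∀ c' h' : Fin 3 → ℤ, c' L = c L + 1 → c' H = c H + 2 → c' r = c r → h' L = s →
      h' H = s' → h' r = h r → GoodA l c' h') : GoodA (r :: l) c h := by
  refine Or.inr ⟨fun i => if i = L then c L + 1 else if i = H then c H + 2 else c i,
    fun i => if i = L then s else if i = H then s' else h i,
    ⟨L, H, hL, hH, hLH, hc, ?_, ?_, ?_, ?_, ?_, ?_, ?_⟩, k _ _ ?_ ?_ ?_ ?_ ?_ ?_⟩ <;>
  simp [hL.symm, hH.symm, hLH.symm, h1, h2, h3]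

theorem TStep.neg {r : Fin 3} {c h c' h' : Fin 3 → ℤ} (t : TStep r c h c' h') :
    ∃ c'', TStep r (fun i => -c i) (fun i => -h i) c'' (fun i => -h' i) ∧
      ∀ i, (c'' i + c' i) % 3 = 0 := by
  obtain ⟨L, H, h1, h2, h3, h4, h5, h6, h7, h8, h9, h10, h11⟩ := t
  refine ⟨fun i => if i = H then -c H + 1 else if i = L then -c L + 2 else -c i,
    ⟨H, L, h2, h1, h3.symm, ?_, ?_, ?_, ?_, ?_, ?_, ?_, ?_⟩, ?_⟩
  · show (-c H - -c L) % 3 = 0
    omega
  · show -h H < -h' H
    omega
  · show -h' H < -h' L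
    omega
  · show -h' L < -h L
    omega
  · simp
  · simp [h3]
  · simp [h1.symm, h2.symm]
  · show -h' r = -h r
    omega
  · intro i
    rcases cover h1 h2 h3 i with e | e | e
    · subst e; simp [h1.symm, h2.symm]; omega
    · subst e; simp [h3]; omega
    · subst e; simp; omega

theorem TStep.congr {r : Fin 3} {c h c' h' d : Fin 3 → ℤ} (t : TStep r c h c' h')
    (hd : ∀ i, (d i - c i) % 3 = 0) :
    ∃ d', TStep r d h d' h' ∧ ∀ i, (d' i - c' i) % 3 = 0 := by
  obtain ⟨L, H, h1, h2, h3, h4, h5, h6, h7, h8, h9, h10, h11⟩ := t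
  have e1 := hd L
  have e2 := hd H
  have e3 := hd r
  refine ⟨fun i => if i = H then d H + 2 else if i = L then d L + 1 else d i,
    ⟨L, H, h1, h2, h3, by omega, h5, h6, h7, ?_, ?_, ?_, h11⟩, ?_⟩
  · simp [h3]
  · simp
  · simp [h1.symm, h2.symm]
  · intro i
    rcases cover h1 h2 h3 i with e | e | e
    · subst e; simp [h1.symm, h2.symm]; omega
    · subst e; simp [h3]; omega
    · subst e; simp; omega

theorem GoodA.congr : ∀ {l : List (Fin 3)} {c h d : Fin 3 → ℤ}, GoodA l c h →
    (∀ i, (d i - c i) % 3 = 0) → GoodA l d h := by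
  intro l
  induction l with
  | nil => intro c h d hg _; exact hg.elim
  | cons r l ih =>
    intro c h d hg hd
    rcases hg with ⟨p, q, h1, h2, h3, h4⟩ | ⟨c', h', ht, hg⟩
    · refine Or.inl ⟨p, q, h1, h2, h3, ?_⟩
      have e1 := hd p
      have e2 := hd q
      omega
    · obtain ⟨d', ht', hd'⟩ := ht.congr hd
      exact Or.inr ⟨d', h', ht', ih hg hd'⟩

theorem GoodA.neg : ∀ {l : List (Fin 3)} {c h : Fin 3 → ℤ}, GoodA l c h →
    GoodA l (fun i => -c i) (fun i => -h i) := by
  intro l
  induction l with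
  | nil => intro c h hg; exact hg.elim
  | cons r l ih =>
    intro c h hg
    rcases hg with ⟨p, q, h1, h2, h3, h4⟩ | ⟨c', h', ht, hg⟩
    · refine Or.inl ⟨p, q, h1, h2, h3, ?_⟩
      show (-c p - -c q) % 3 ≠ 0
      omega
    · obtain ⟨c'', ht', hc'⟩ := ht.neg
      refine Or.inr ⟨c'', _, ht', (ih hg).congr ?_⟩
      intro i
      have := hc' i
      show (c'' i - -c' i) % 3 = 0
      omega

/-- A long path of tight steps needs a large range of heights. -/
theorem range_of_tpath : ∀ (l : List (Fin 3)) (r : Fin 3) (c h : Fin 3 → ℤ), TPath (r :: l) c h →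
    ∃ i j : Fin 3, (l.length : ℤ) + 3 ≤ h i - h j := by
  intro l
  induction l with
  | nil =>
    intro r c h ht
    obtain ⟨c', h', ⟨L, H, h1, h2, h3, h4, h5, h6, h7, -⟩, -⟩ := ht
    exact ⟨H, L, by simp; omega⟩
  | cons s l ih =>
    intro r c h ht
    obtain ⟨c', h', ⟨L, H, h1, h2, h3, h4, h5, h6, h7, h8, h9, h10, h11⟩, ht⟩ := ht
    obtain ⟨i, j, hij⟩ := ih s c' h' ht
    simp only [List.length_cons, Nat.cast_add, Nat.cast_one]
    rcases cover h1 h2 h3 i with e | e | e <;> rcases cover h1 h2 h3 j with e' | e' | e' <;>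
      rw [e, e'] at hij
    · exact ⟨r, r, by omega⟩
    · exact ⟨r, L, by omega⟩
    · exact ⟨r, L, by omega⟩
    · exact ⟨H, r, by omega⟩
    · exact ⟨r, r, by omega⟩
    · exact ⟨r, r, by omega⟩
    · exact ⟨H, r, by omega⟩
    · exact ⟨H, L, by omega⟩
    · exact ⟨r, r, by omega⟩

/-- The strategy, first case. -/
theorem good_plus {r L H : Fin 3} (hL : L ≠ r) (hH : H ≠ r) (hLH : L ≠ H) {c h : Fin 3 → ℤ}
    (h1 : (c L - c H) % 3 = 0) (h2 : (c r - c L - 1) % 3 = 0) (hb : h L + 3 ≤ h H)
    (hr : ∃ i j : Fin 3, 13 ≤ h i - h j) (r3 r4 r5 r6 : Fin 3) (l : List (Fin 3)) :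
    GoodA (r :: H :: r3 :: r4 :: r5 :: r6 :: l) c h := by
  have hcov := cover hL hH hLH
  have hcases : (r3 = r ∧ h r ≤ h H - 5) ∨ (r3 = r ∧ h L + 9 ≤ h r) ∨
      (r3 = H ∧ h L + 4 ≤ h r) ∨ (r3 = H ∧ h r + 10 ≤ h H) ∨
      (r3 = L ∧ h L + 4 ≤ h r) ∨ (r3 = L ∧ h r + 10 ≤ h H) := by
    obtain ⟨i, j, hij⟩ := hr
    rcases hcov r3 with e | e | e
    · by_cases h5 : h r ≤ h H - 5
      · exact Or.inl ⟨e, h5⟩
      · refine Or.inr (Or.inl ⟨e, ?_⟩)
        rcases hcov i with a | a | a <;> rcases hcov j with a' | a' | a' <;>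
          rw [a, a'] at hij <;> omega
    · by_cases h5 : h L + 4 ≤ h r
      · exact Or.inr (Or.inr (Or.inr (Or.inr (Or.inl ⟨e, h5⟩))))
      · refine Or.inr (Or.inr (Or.inr (Or.inr (Or.inr ⟨e, ?_⟩))))
        rcases hcov i with a | a | a <;> rcases hcov j with a' | a' | a' <;>
          rw [a, a'] at hij <;> omega
    · by_cases h5 : h L + 4 ≤ h r
      · exact Or.inr (Or.inr (Or.inl ⟨e, h5⟩))
      · refine Or.inr (Or.inr (Or.inr (Or.inl ⟨e, ?_⟩)))
        rcases hcov i with a | a | a <;> rcases hcov j with a' | a' | a' <;>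
          rw [a, a'] at hij <;> omega
  rcases hcases with ⟨e, h5⟩ | ⟨e, h5⟩ | ⟨e, h5⟩ | ⟨e, h5⟩ | ⟨e, h5⟩ | ⟨e, h5⟩
  · -- third letter `r`, `h r` low
    rw [e]
    refine good_step hL hH hLH (h H - 2) (h H - 1) h1 (by omega) (by omega) (by omega) ?_
    intro c1 g1 a1 a2 a3 b1 b2 b3
    refine good_step (r := H) (L := r) (H := L) hH.symm hLH hL.symm (h r + 1) (h r + 2)
      (by omega) (by omega) (by omega) (by omega) ?_
    intro c2 g2 a4 a5 a6 b4 b5 b6
    exact good_loose (p := L) (q := H) hL hH hLH (by omega)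
  · -- third letter `r`, `h r` high
    rw [e]
    have h4 : r4 = r ∨ r4 = H ∨ (r4 = L ∧ h L + 6 ≤ h H) ∨ (r4 = L ∧ h L + 13 ≤ h r) := by
      obtain ⟨i, j, hij⟩ := hr
      rcases hcov r4 with f | f | f
      · exact Or.inl f
      · by_cases h6 : h L + 6 ≤ h H
        · exact Or.inr (Or.inr (Or.inl ⟨f, h6⟩))
        · refine Or.inr (Or.inr (Or.inr ⟨f, ?_⟩))
          rcases hcov i with a | a | a <;> rcases hcov j with a' | a' | a' <;>
            rw [a, a'] at hij <;> omega
      · exact Or.inr (Or.inl f)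
    rcases h4 with f | f | ⟨f, h6⟩ | ⟨f, h6⟩
    · rw [f]
      refine good_step hL hH hLH (h L + 1) (h L + 2) h1 (by omega) (by omega) (by omega) ?_
      intro c1 g1 a1 a2 a3 b1 b2 b3
      refine good_step (r := H) (L := L) (H := r) hLH hH.symm hL (h r - 2) (h r - 1)
        (by omega) (by omega) (by omega) (by omega) ?_
      intro c2 g2 a4 a5 a6 b4 b5 b6
      refine good_step (r := r) (L := H) (H := L) hH hL hLH.symm (h L + 3) (h L + 4)
        (by omega) (by omega) (by omega) (by omega) ?_
      intro c3 g3 a7 a8 a9 b7 b8 b9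
      exact good_loose (p := L) (q := H) hL hH hLH (by omega)
    · rw [f]
      refine good_step hL hH hLH (h L + 1) (h L + 2) h1 (by omega) (by omega) (by omega) ?_
      intro c1 g1 a1 a2 a3 b1 b2 b3
      refine good_step (r := H) (L := L) (H := r) hLH hH.symm hL (h r - 2) (h r - 1)
        (by omega) (by omega) (by omega) (by omega) ?_
      intro c2 g2 a4 a5 a6 b4 b5 b6
      refine good_step (r := r) (L := H) (H := L) hH hL hLH.symm (h L + 3) (h L + 4)
        (by omega) (by omega) (by omega) (by omega) ?_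
      intro c3 g3 a7 a8 a9 b7 b8 b9
      exact good_loose (p := L) (q := r) hLH hH.symm hL (by omega)
    · rw [f]
      refine good_step hL hH hLH (h L + 1) (h H - 1) h1 (by omega) (by omega) (by omega) ?_
      intro c1 g1 a1 a2 a3 b1 b2 b3
      refine good_step (r := H) (L := L) (H := r) hLH hH.symm hL (h L + 2) (h L + 3)
        (by omega) (by omega) (by omega) (by omega) ?_
      intro c2 g2 a4 a5 a6 b4 b5 b6
      refine good_step (r := r) (L := L) (H := H) hL hH hLH (h L + 3) (h L + 4)
        (by omega) (by omega) (by omega) (by omega) ?_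
      intro c3 g3 a7 a8 a9 b7 b8 b9
      exact good_loose (p := H) (q := r) hLH.symm hL.symm hH (by omega)
    · rw [f]
      have h7 : (r5 = r ∧ r6 = H) ∨ (r5 = r ∧ r6 ≠ H) ∨ r5 ≠ r := by
        by_cases u : r5 = r <;> by_cases v : r6 = H <;> simp [u, v]
      rcases h7 with ⟨g, g'⟩ | ⟨g, g'⟩ | g
      · rw [g, g']
        refine good_step hL hH hLH (h L + 1) (h L + 2) h1 (by omega) (by omega) (by omega) ?_
        intro c1 g1 a1 a2 a3 b1 b2 b3
        refine good_step (r := H) (L := L) (H := r) hLH hH.symm hL (h L + 8) (h L + 9)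
          (by omega) (by omega) (by omega) (by omega) ?_
        intro c2 g2 a4 a5 a6 b4 b5 b6
        refine good_step (r := r) (L := H) (H := L) hH hL hLH.symm (h L + 3) (h L + 7)
          (by omega) (by omega) (by omega) (by omega) ?_
        intro c3 g3 a7 a8 a9 b7 b8 b9
        refine good_step (r := L) (L := H) (H := r) hLH.symm hL.symm hH (h L + 4) (h L + 5)
          (by omega) (by omega) (by omega) (by omega) ?_
        intro c4 g4 a10 a11 a12 b10 b11 b12
        refine good_step (r := r) (L := H) (H := L) hH hL hLH.symm (h L + 5) (h L + 6)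
          (by omega) (by omega) (by omega) (by omega) ?_
        intro c5 g5 a13 a14 a15 b13 b14 b15
        exact good_loose (p := L) (q := r) hLH hH.symm hL (by omega)
      · rw [g]
        refine good_step hL hH hLH (h L + 1) (h L + 2) h1 (by omega) (by omega) (by omega) ?_
        intro c1 g1 a1 a2 a3 b1 b2 b3
        refine good_step (r := H) (L := L) (H := r) hLH hH.symm hL (h L + 5) (h L + 9)
          (by omega) (by omega) (by omega) (by omega) ?_
        intro c2 g2 a4 a5 a6 b4 b5 b6
        refine good_step (r := r) (L := H) (H := L) hH hL hLH.symm (h L + 3) (h L + 4)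
          (by omega) (by omega) (by omega) (by omega) ?_
        intro c3 g3 a7 a8 a9 b7 b8 b9
        refine good_step (r := L) (L := H) (H := r) hLH.symm hL.symm hH (h L + 7) (h L + 8)
          (by omega) (by omega) (by omega) (by omega) ?_
        intro c4 g4 a10 a11 a12 b10 b11 b12
        refine good_step (r := r) (L := L) (H := H) hL hH hLH (h L + 5) (h L + 6)
          (by omega) (by omega) (by omega) (by omega) ?_
        intro c5 g5 a13 a14 a15 b13 b14 b15
        rcases hcov r6 with w | w | w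
        · rw [w]
          exact good_loose (p := L) (q := H) hL hH hLH (by omega)
        · rw [w]
          exact good_loose (p := H) (q := r) hLH.symm hL.symm hH (by omega)
        · exact absurd w g'
      · refine good_step hL hH hLH (h L + 1) (h L + 2) h1 (by omega) (by omega) (by omega) ?_
        intro c1 g1 a1 a2 a3 b1 b2 b3
        refine good_step (r := H) (L := L) (H := r) hLH hH.symm hL (h L + 5) (h L + 9)
          (by omega) (by omega) (by omega) (by omega) ?_
        intro c2 g2 a4 a5 a6 b4 b5 b6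
        refine good_step (r := r) (L := H) (H := L) hH hL hLH.symm (h L + 3) (h L + 4)
          (by omega) (by omega) (by omega) (by omega) ?_
        intro c3 g3 a7 a8 a9 b7 b8 b9
        refine good_step (r := L) (L := H) (H := r) hLH.symm hL.symm hH (h L + 7) (h L + 8)
          (by omega) (by omega) (by omega) (by omega) ?_
        intro c4 g4 a10 a11 a12 b10 b11 b12
        rcases hcov r5 with w | w | w
        · exact absurd w g
        · rw [w]
          exact good_loose (p := H) (q := r) hLH.symm hL.symm hH (by omega)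
        · rw [w]
          exact good_loose (p := L) (q := r) hLH hH.symm hL (by omega)
  · -- third letter `H`, repeated
    rw [e]
    refine good_step hL hH hLH (h L + 1) (h L + 2) h1 (by omega) (by omega) (by omega) ?_
    intro c1 g1 a1 a2 a3 b1 b2 b3
    refine good_step (r := H) (L := L) (H := r) hLH hH.symm hL (h L + 2) (h L + 3)
      (by omega) (by omega) (by omega) (by omega) ?_
    intro c2 g2 a4 a5 a6 b4 b5 b6
    exact good_loose (p := L) (q := r) hLH hH.symm hL (by omega)
  · rw [e]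
    refine good_step hL hH hLH (h H - 2) (h H - 1) h1 (by omega) (by omega) (by omega) ?_
    intro c1 g1 a1 a2 a3 b1 b2 b3
    refine good_step (r := H) (L := r) (H := L) hH.symm hLH hL.symm (h r + 1) (h r + 2)
      (by omega) (by omega) (by omega) (by omega) ?_
    intro c2 g2 a4 a5 a6 b4 b5 b6
    exact good_loose (p := L) (q := r) hLH hH.symm hL (by omega)
  · -- third letter `L`, `h r` high
    rw [e]
    refine good_step hL hH hLH (h L + 1) (h L + 2) h1 (by omega) (by omega) (by omega) ?_
    intro c1 g1 a1 a2 a3 b1 b2 b3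
    refine good_step (r := H) (L := L) (H := r) hLH hH.symm hL (h L + 2) (h L + 3)
      (by omega) (by omega) (by omega) (by omega) ?_
    intro c2 g2 a4 a5 a6 b4 b5 b6
    exact good_loose (p := H) (q := r) hLH.symm hL.symm hH (by omega)
  · -- third letter `L`, `h r` low
    rw [e]
    have h7 : (r4 = H ∧ r5 = r) ∨ (r4 = H ∧ r5 ≠ r) ∨ r4 ≠ H := by
      by_cases u : r4 = H <;> by_cases v : r5 = r <;> simp [u, v]
    rcases h7 with ⟨g, g'⟩ | ⟨g, g'⟩ | g
    · rw [g, g']
      refine good_step hL hH hLH (max (h L + 1) (h r + 6)) (h H - 1) h1 (by omega) (by omega)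
        (by omega) ?_
      intro c1 g1 a1 a2 a3 b1 b2 b3
      refine good_step (r := H) (L := r) (H := L) hH.symm hLH hL.symm (h r + 1) (h r + 5)
        (by omega) (by omega) (by omega) (by omega) ?_
      intro c2 g2 a4 a5 a6 b4 b5 b6
      refine good_step (r := L) (L := r) (H := H) hL.symm hLH.symm hH.symm (h r + 2) (h r + 3)
        (by omega) (by omega) (by omega) (by omega) ?_
      intro c3 g3 a7 a8 a9 b7 b8 b9
      refine good_step (r := H) (L := r) (H := L) hH.symm hLH hL.symm (h r + 3) (h r + 4)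
        (by omega) (by omega) (by omega) (by omega) ?_
      intro c4 g4 a10 a11 a12 b10 b11 b12
      exact good_loose (p := L) (q := H) hL hH hLH (by omega)
    · rw [g]
      refine good_step hL hH hLH (max (h L + 1) (h r + 3)) (h H - 1) h1 (by omega) (by omega)
        (by omega) ?_
      intro c1 g1 a1 a2 a3 b1 b2 b3
      refine good_step (r := H) (L := r) (H := L) hH.symm hLH hL.symm (h r + 1) (h r + 2)
        (by omega) (by omega) (by omega) (by omega) ?_
      intro c2 g2 a4 a5 a6 b4 b5 b6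
      refine good_step (r := L) (L := r) (H := H) hL.symm hLH.symm hH.symm (h r + 5) (h r + 6)
        (by omega) (by omega) (by omega) (by omega) ?_
      intro c3 g3 a7 a8 a9 b7 b8 b9
      refine good_step (r := H) (L := L) (H := r) hLH hH.symm hL (h r + 3) (h r + 4)
        (by omega) (by omega) (by omega) (by omega) ?_
      intro c4 g4 a10 a11 a12 b10 b11 b12
      rcases hcov r5 with w | w | w
      · exact absurd w g'
      · rw [w]
        exact good_loose (p := H) (q := r) hLH.symm hL.symm hH (by omega)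
      · rw [w]
        exact good_loose (p := L) (q := r) hLH hH.symm hL (by omega)
    · refine good_step hL hH hLH (max (h L + 1) (h r + 3)) (h H - 1) h1 (by omega) (by omega)
        (by omega) ?_
      intro c1 g1 a1 a2 a3 b1 b2 b3
      refine good_step (r := H) (L := r) (H := L) hH.symm hLH hL.symm (h r + 1) (h r + 2)
        (by omega) (by omega) (by omega) (by omega) ?_
      intro c2 g2 a4 a5 a6 b4 b5 b6
      refine good_step (r := L) (L := r) (H := H) hL.symm hLH.symm hH.symm (h r + 5) (h r + 6)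
        (by omega) (by omega) (by omega) (by omega) ?_
      intro c3 g3 a7 a8 a9 b7 b8 b9
      rcases hcov r4 with w | w | w
      · rw [w]
        exact good_loose (p := L) (q := H) hL hH hLH (by omega)
      · rw [w]
        exact good_loose (p := H) (q := r) hLH.symm hL.symm hH (by omega)
      · exact absurd w g

/-- The strategy, second case. -/
theorem good_minus {r L H : Fin 3} (hL : L ≠ r) (hH : H ≠ r) (hLH : L ≠ H) {c h : Fin 3 → ℤ}
    (h1 : (c L - c H) % 3 = 0) (h2 : (c r - c L - 2) % 3 = 0) (hb : h L + 3 ≤ h H)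
    (hr : ∃ i j : Fin 3, 13 ≤ h i - h j) (r3 r4 r5 r6 : Fin 3) (l : List (Fin 3)) :
    GoodA (r :: L :: r3 :: r4 :: r5 :: r6 :: l) c h := by
  have hg := good_plus (r := r) (L := H) (H := L) hH hL hLH.symm (c := fun i => -c i)
    (h := fun i => -h i) (by show (-c H - -c L) % 3 = 0; omega)
    (by show (-c r - -c H - 1) % 3 = 0; omega) (by show -h H + 3 ≤ -h L; omega)
    (by obtain ⟨i, j, hij⟩ := hr; exact ⟨j, i, by show 13 ≤ -h j - -h i; omega⟩) r3 r4 r5 r6 l
  have := hg.neg
  simpa using this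

/-- **Lemma K.** -/
theorem good_of_tpath {l : List (Fin 3)} {c h : Fin 3 → ℤ} (ht : TPath l c h)
    (hl : 11 ≤ l.length) : GoodA l c h := by
  match l, hl, ht with
  | r :: r2 :: r3 :: r4 :: r5 :: r6 :: l, hl, ht =>
    have hr : ∃ i j : Fin 3, 13 ≤ h i - h j := by
      obtain ⟨i, j, hij⟩ := range_of_tpath _ _ _ _ ht
      refine ⟨i, j, ?_⟩
      simp only [List.length_cons, Nat.cast_add, Nat.cast_one] at hij hl
      omega
    obtain ⟨c', h', ⟨L, H, hL, hH, hLH, h4, h5, h6, h7, h8, h9, h10, h11⟩, ht⟩ := ht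
    obtain ⟨c2, h2, ht2, -⟩ := ht
    rcases cover hL hH hLH r2 with e | e | e
    · have := ht2.tight (p := L) (q := H) (e ▸ hL) (e ▸ hH) hLH
      omega
    · have := ht2.tight (p := H) (q := r) (e ▸ hLH.symm) (e ▸ hL.symm) hH
      rw [e]
      exact good_minus hL hH hLH h4 (by omega) (by omega) hr r3 r4 r5 r6 l
    · have := ht2.tight (p := L) (q := r) (e ▸ hLH) (e ▸ hH.symm) hL
      rw [e]
      exact good_plus hL hH hLH h4 (by omega) (by omega) hr r3 r4 r5 r6 l

end Pool.Agent.Word97
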