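import Mathlib
import Pool.Agent.Work.MP_392c8e_co_uni.Word97

/-!
# Twelve rungs: the inner state can be spread, arithmetic part
-/

namespace Pool.Agent.Word97

open Pool.Agent.CutN (Jn)

/-- The height of `x` modulo `N` is far from `0`. -/
def HFar (N g x : ℤ) : Prop := ∃ k : ℤ, g ≤ x + N * k ∧ x + N * k ≤ N - g

/-- The heights modulo `N` are pairwise far. -/
def Spread (N g : ℤ) (u : Fin 3 → ℤ) : Prop := ∀ i j : Fin 3, i ≠ j → HFar N g (u i - u j)

/-- `x` is far from `0` modulo `3 N`. -/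
def FarD (N D x : ℤ) : Prop := ∃ k : ℤ, D ≤ x + 3 * N * k ∧ x + 3 * N * k ≤ 3 * N - D

/-- One rung on the strands different from `r`. -/
def Layer (N : ℤ) (r : Fin 3) (u x : Fin 3 → ℤ) : Prop :=
  x r = u r ∧ (∀ i, i ≠ r → Jn N (x i - u i)) ∧
    ∀ i j, i ≠ r → j ≠ r → i ≠ j → Jn N (x i - x j)

/-- A word of rungs, from the outside to the inside. -/
def Path (N : ℤ) : List (Fin 3) → (Fin 3 → ℤ) → (Fin 3 → ℤ) → Prop
  | [], u, x => x = u
  | r :: l, u, x => ∃ y, Layer N r u y ∧ Path N l y x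

/-- The word has a colouring with a spread inner state. -/
def Good (N g : ℤ) (l : List (Fin 3)) (u : Fin 3 → ℤ) : Prop := ∃ x, Path N l u x ∧ Spread N g x

variable {N g : ℤ}

theorem HFar.neg {x : ℤ} (h : HFar N g x) : HFar N g (-x) := by
  obtain ⟨k, h1, h2⟩ := h
  exact ⟨1 - k, by linarith, by linarith⟩

theorem HFar.mono {g' x : ℤ} (h : HFar N g' x) (hg : g ≤ g') : HFar N g x := by
  obtain ⟨k, h1, h2⟩ := h
  exact ⟨k, by linarith, by linarith⟩

theorem Spread.mono {g' : ℤ} {u : Fin 3 → ℤ} (h : Spread N g' u) (hg : g ≤ g') : Spread N g u :=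
  fun i j hij => (h i j hij).mono hg

theorem FarD.mono {D D' x : ℤ} (h : FarD N D' x) (hg : D ≤ D') : FarD N D x := by
  obtain ⟨k, h1, h2⟩ := h
  exact ⟨k, by linarith, by linarith⟩

theorem FarD.neg {D x : ℤ} (h : FarD N D x) : FarD N D (-x) := by
  obtain ⟨k, h1, h2⟩ := h
  exact ⟨1 - k, by linarith, by linarith⟩

theorem exists_rep {M : ℤ} (hM : 0 < M) (x : ℤ) : ∃ k : ℤ, 0 ≤ x + M * k ∧ x + M * k < M := by
  refine ⟨-(x / M), ?_, ?_⟩
  · have := Int.emod_nonneg x hM.ne'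
    have e := Int.emod_add_mul_ediv x M
    nlinarith
  · have := Int.emod_lt_of_pos x hM
    have e := Int.emod_add_mul_ediv x M
    nlinarith

theorem HFar.two (hN : 0 < N) (y d : ℤ) (hd : 2 * g ≤ d) (hd' : d ≤ N - 2 * g) :
    HFar N g y ∨ HFar N g (y + d) := by
  obtain ⟨k, h1, h2⟩ := exists_rep hN y
  by_cases h3 : y + N * k < g
  · exact Or.inr ⟨k, by linarith, by linarith⟩
  by_cases h4 : N - g < y + N * k
  · exact Or.inr ⟨k - 1, by linarith, by linarith⟩
  · exact Or.inl ⟨k, by linarith, by linarith⟩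

theorem HFar.farD {x : ℤ} (hN : 0 < N) (h : HFar N g x) : FarD N g x := by
  obtain ⟨k, h1, h2⟩ := h
  have e : k = 3 * ((k + 2) / 3) - (3 * ((k + 2) / 3) - k) := by ring
  have h3 : 0 ≤ 3 * ((k + 2) / 3) - k := by omega
  have h4 : 3 * ((k + 2) / 3) - k ≤ 2 := by omega
  generalize hb : 3 * ((k + 2) / 3) - k = b at e h3 h4
  generalize (k + 2) / 3 = a at e hb
  have h5 : 0 ≤ N * b := mul_nonneg hN.le h3
  have h6 : N * b ≤ 2 * N := by nlinarith
  have h7 : x + 3 * N * a = (x + N * k) + N * b := by rw [← hb]; ring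
  exact ⟨a, by rw [h7]; linarith, by rw [h7]; linarith⟩

theorem layer_mk {r p q : Fin 3} (hp : p ≠ r) (hq : q ≠ r) (hpq : p ≠ q) {u x : Fin 3 → ℤ}
    (h0 : x r = u r) (h1 : Jn N (x p - u p)) (h2 : Jn N (x q - u q)) (h3 : Jn N (x q - x p)) :
    Layer N r u x := by
  have h4 : Jn N (x p - x q) := by
    have := h3.neg
    rwa [neg_sub] at this
  refine ⟨h0, fun i hi => ?_, fun i j hi hj hij => ?_⟩
  · rcases cover hp hq hpq i with e | e | e
    · exact absurd e hi
    · rw [e]; exact h1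
    · rw [e]; exact h2
  · rcases cover hp hq hpq i with e | e | e
    · exact absurd e hi
    · rcases cover hp hq hpq j with e' | e' | e'
      · exact absurd e' hj
      · exact absurd (e.trans e'.symm) hij
      · rw [e, e']; exact h4
    · rcases cover hp hq hpq j with e' | e' | e'
      · exact absurd e' hj
      · rw [e, e']; exact h3
      · exact absurd (e.trans e'.symm) hij

theorem spread_mk {r p q : Fin 3} (hp : p ≠ r) (hq : q ≠ r) (hpq : p ≠ q) {x : Fin 3 → ℤ}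
    (h1 : HFar N g (x p - x r)) (h2 : HFar N g (x q - x r)) (h3 : HFar N g (x q - x p)) :
    Spread N g x := by
  have h1' : HFar N g (x r - x p) := by
    have := h1.neg
    rwa [neg_sub] at this
  have h2' : HFar N g (x r - x q) := by
    have := h2.neg
    rwa [neg_sub] at this
  have h3' : HFar N g (x p - x q) := by
    have := h3.neg
    rwa [neg_sub] at this
  intro i j hij
  rcases cover hp hq hpq i with e | e | e <;> rcases cover hp hq hpq j with e' | e' | e' <;>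
    first
      | exact absurd (e.trans e'.symm) hij
      | (rw [e, e']; assumption)

/-- The choice of the shift. -/
theorem choose_shift (hg : 0 ≤ g) (hN : 0 < N) (h6 : 6 * g ≤ N) (α A B : ℤ) :
    ∃ s : ℤ, 0 ≤ s ∧ s ≤ 4 * g ∧ HFar N g (α + s + A) ∧ HFar N g (α + s + B) := by
  have a1 := HFar.two hN (α + A) (2 * g) (by linarith) (by linarith) (g := g)
  have a2 := HFar.two hN (α + A) (4 * g) (by linarith) (by linarith) (g := g)
  have a3 := HFar.two hN (α + 2 * g + A) (2 * g) (by linarith) (by linarith) (g := g)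
  have b1 := HFar.two hN (α + B) (2 * g) (by linarith) (by linarith) (g := g)
  have b2 := HFar.two hN (α + B) (4 * g) (by linarith) (by linarith) (g := g)
  have b3 := HFar.two hN (α + 2 * g + B) (2 * g) (by linarith) (by linarith) (g := g)
  have e1 : α + A + 2 * g = α + 2 * g + A := by ring
  have e2 : α + A + 4 * g = α + 4 * g + A := by ring
  have e3 : α + 2 * g + A + 2 * g = α + 4 * g + A := by ring
  have f1 : α + B + 2 * g = α + 2 * g + B := by ring
  have f2 : α + B + 4 * g = α + 4 * g + B := by ring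
  have f3 : α + 2 * g + B + 2 * g = α + 4 * g + B := by ring
  rw [e1] at a1
  rw [e2] at a2
  rw [e3] at a3
  rw [f1] at b1
  rw [f2] at b2
  rw [f3] at b3
  have c0 : (HFar N g (α + A) ∧ HFar N g (α + B)) ∨
      (HFar N g (α + 2 * g + A) ∧ HFar N g (α + 2 * g + B)) ∨
      (HFar N g (α + 4 * g + A) ∧ HFar N g (α + 4 * g + B)) := by tauto
  rcases c0 with ⟨h1, h2⟩ | ⟨h1, h2⟩ | ⟨h1, h2⟩
  · exact ⟨0, by linarith, by linarith, by rwa [add_zero], by rwa [add_zero]⟩
  · exact ⟨2 * g, by linarith, by linarith, h1, h2⟩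
  · exact ⟨4 * g, by linarith, by linarith, h1, h2⟩

/-- **A loose letter.** -/
theorem loose (hg : 0 ≤ g) (h6 : 6 * g + 10 ≤ N) {r p q : Fin 3} (hp : p ≠ r) (hq : q ≠ r)
    (hpq : p ≠ q) {u : Fin 3 → ℤ} (h : FarD N (6 * g + 10) (u q - u p)) :
    ∃ x, Layer N r u x ∧ Spread N g x := by
  have hN : 0 < N := by linarith
  obtain ⟨k, h1, h2⟩ := h
  obtain ⟨δ, hδ⟩ : ∃ δ, δ = u q - u p + 3 * N * k := ⟨_, rfl⟩
  rw [← hδ] at h1 h2
  obtain ⟨v, hv⟩ : ∃ v, v = max (N + g + 1) (min δ (2 * N - g - 1)) := ⟨_, rfl⟩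
  have v1 : N + g + 1 ≤ v := by rw [hv]; exact le_max_left _ _
  have v2 : v ≤ 2 * N - g - 1 := by
    rw [hv]; exact max_le (by linarith) (min_le_right _ _)
  have w1 : v - δ ≤ N - 5 * g - 9 := by
    rw [hv]
    rcases le_total (N + g + 1) (min δ (2 * N - g - 1)) with a | a
    · rw [max_eq_right a]
      have := min_le_left δ (2 * N - g - 1)
      linarith
    · rw [max_eq_left a]
      linarith
  have w2 : -(N - 5 * g - 9) ≤ v - δ := by
    rcases le_total δ (2 * N - g - 1) with a | a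
    · have : δ ≤ v := by
        rw [hv, min_eq_left a]; exact le_max_right _ _
      linarith
    · have : 2 * N - g - 1 ≤ v := by
        rw [hv, min_eq_right a]; exact le_max_right _ _
      linarith
  obtain ⟨α, hα⟩ : ∃ α, α = max (N + 1) (N + 1 - (v - δ)) := ⟨_, rfl⟩
  have t1 : N + 1 ≤ α := by rw [hα]; exact le_max_left _ _
  have t2 : N + 1 ≤ α + (v - δ) := by
    have : N + 1 - (v - δ) ≤ α := by rw [hα]; exact le_max_right _ _
    linarith
  have t3 : α + 4 * g ≤ 2 * N - 1 := by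
    have : α ≤ 2 * N - 1 - 4 * g := by rw [hα]; exact max_le (by linarith) (by linarith)
    linarith
  have t4 : α + 4 * g + (v - δ) ≤ 2 * N - 1 := by
    have : α ≤ 2 * N - 1 - 4 * g - (v - δ) := by
      rw [hα]; exact max_le (by linarith) (by linarith)
    linarith
  obtain ⟨s, s1, s2, s3, s4⟩ := choose_shift hg hN (by linarith) α (u p - u r) (u p + v - u r)
  obtain ⟨x, xr, xp, xq⟩ : ∃ x : Fin 3 → ℤ, x r = u r ∧ x p = u p + (α + s) ∧
      x q = u p + (α + s) + v :=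
    ⟨fun i => if i = p then u p + (α + s) else if i = q then u p + (α + s) + v else u i,
      by simp [hp.symm, hq.symm], by simp, by simp [hpq.symm]⟩
  refine ⟨x, layer_mk hp hq hpq xr ⟨0, ?_, ?_⟩ ⟨-k, ?_, ?_⟩ ⟨0, ?_, ?_⟩,
    spread_mk hp hq hpq ?_ ?_ ⟨-1, ?_, ?_⟩⟩
  · rw [xp]; linarith
  · rw [xp]; linarith
  · rw [xq]; linarith
  · rw [xq]; linarith
  · rw [xq, xp]; linarith
  · rw [xq, xp]; linarith
  · rw [xp, xr]
    have e : u p + (α + s) - u r = α + s + (u p - u r) := by ring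
    rw [e]; exact s3
  · rw [xq, xr]
    have e : u p + (α + s) + v - u r = α + s + (u p + v - u r) := by ring
    rw [e]; exact s4
  · rw [xq, xp]; linarith
  · rw [xq, xp]; linarith

theorem other (r : Fin 3) : ∃ p q : Fin 3, p ≠ r ∧ q ≠ r ∧ p ≠ q := by
  revert r
  decide

/-- The heights needed before `k` letters. -/
def GG (g : ℤ) (k : ℕ) : ℤ := 6 ^ k * (g + 2) - 2

theorem GG_zero (g : ℤ) : GG g 0 = g := by unfold GG; ring

theorem GG_succ (g : ℤ) (k : ℕ) : GG g (k + 1) = 6 * GG g k + 10 := by unfold GG; ring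

theorem GG_mono (hg : 0 ≤ g) {k l : ℕ} (h : k ≤ l) : GG g k ≤ GG g l := by
  unfold GG
  have : (6 : ℤ) ^ k ≤ 6 ^ l := pow_le_pow_right₀ (by norm_num) h
  nlinarith

theorem GG_nonneg (hg : 0 ≤ g) (k : ℕ) : 0 ≤ GG g k := by
  have := GG_mono hg (Nat.zero_le k)
  rw [GG_zero] at this
  linarith

theorem good_of_spread (hg : 0 ≤ g) : ∀ (l : List (Fin 3)) (u : Fin 3 → ℤ),
    GG g l.length ≤ N → 0 < N → Spread N (GG g l.length) u → Good N g l u := by
  intro l
  induction l with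
  | nil =>
    intro u _ _ h
    exact ⟨u, rfl, by simpa [GG_zero] using h⟩
  | cons r l ih =>
    intro u hN hN0 h
    obtain ⟨p, q, hp, hq, hpq⟩ := other r
    simp only [List.length_cons] at hN h
    rw [GG_succ] at hN h
    obtain ⟨x, hx, hs⟩ := loose (GG_nonneg hg l.length) hN hp hq hpq
      ((h q p hpq.symm).farD hN0)
    obtain ⟨y, hy, hs'⟩ := ih x (by have := GG_nonneg hg l.length; linarith) hN0 hs
    exact ⟨y, ⟨x, hx, hy⟩, hs'⟩

theorem good_of_far (hg : 0 ≤ g) {l : List (Fin 3)} {r p q : Fin 3} (hp : p ≠ r) (hq : q ≠ r)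
    (hpq : p ≠ q) {u : Fin 3 → ℤ} (hN : GG g (l.length + 1) ≤ N)
    (h : FarD N (GG g (l.length + 1)) (u q - u p)) : Good N g (r :: l) u := by
  rw [GG_succ] at hN h
  have h0 := GG_nonneg hg l.length
  obtain ⟨x, hx, hs⟩ := loose h0 hN hp hq hpq h
  obtain ⟨y, hy, hs'⟩ := good_of_spread hg l x (by linarith) (by linarith) hs
  exact ⟨y, ⟨x, hx, hy⟩, hs'⟩

/-- The state lies in a cluster: classes `c`, heights `h`. -/
def Cl (N b : ℤ) (c h u : Fin 3 → ℤ) : Prop := ∀ i, ∃ k : ℤ, u i = b + N * c i + h i + 3 * N * k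

/-- A tight step is a layer. -/
theorem Cl.realise {b E : ℤ} {r : Fin 3} {c h c' h' u : Fin 3 → ℤ} (hcl : Cl N b c h u)
    (hE : ∀ i, |h i| ≤ E) (hN : 2 * E < N) (t : TStep r c h c' h') :
    (∀ i, |h' i| ≤ E) ∧ ∃ x, Layer N r u x ∧ Cl N b c' h' x := by
  obtain ⟨L, H, h1, h2, h3, h4, h5, h6, h7, h8, h9, h10, h11⟩ := t
  have eL := abs_le.1 (hE L)
  have eH := abs_le.1 (hE H)
  have er := abs_le.1 (hE r)
  obtain ⟨kL, uL⟩ := hcl L
  obtain ⟨kH, uH⟩ := hcl H
  obtain ⟨kr, ur⟩ := hcl r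
  obtain ⟨m, hm⟩ : ∃ m, c L - c H = 3 * m := ⟨(c L - c H) / 3, by omega⟩
  obtain ⟨x, xr, xL, xH⟩ : ∃ x : Fin 3 → ℤ, x r = u r ∧ x L = u L + N + (h' L - h L) ∧
      x H = u H + 2 * N + (h' H - h H) :=
    ⟨fun i => if i = L then u L + N + (h' L - h L) else
      if i = H then u H + 2 * N + (h' H - h H) else u i,
      by simp [h1.symm, h2.symm], by simp, by simp [h3.symm]⟩
  refine ⟨fun i => ?_, x, layer_mk h1 h2 h3 xr ⟨0, ?_, ?_⟩ ⟨0, ?_, ?_⟩
    ⟨m + kL - kH, ?_, ?_⟩, fun i => ?_⟩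
  · rw [abs_le]
    rcases cover h1 h2 h3 i with e | e | e <;> rw [e] <;> constructor <;> linarith
  · rw [xL]; linarith
  · rw [xL]; linarith
  · rw [xH]; linarith
  · rw [xH]; linarith
  · have e1 : c L = c H + 3 * m := by linarith
    rw [xH, xL, uL, uH, e1]
    have : b + N * c H + h H + 3 * N * kH + 2 * N + (h' H - h H) -
        (b + N * (c H + 3 * m) + h L + 3 * N * kL + N + (h' L - h L)) +
        3 * N * (m + kL - kH) = N + (h' H - h' L) := by ring
    rw [this]; linarith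
  · have e1 : c L = c H + 3 * m := by linarith
    rw [xH, xL, uL, uH, e1]
    have : b + N * c H + h H + 3 * N * kH + 2 * N + (h' H - h H) -
        (b + N * (c H + 3 * m) + h L + 3 * N * kL + N + (h' L - h L)) +
        3 * N * (m + kL - kH) = N + (h' H - h' L) := by ring
    rw [this]; linarith
  · rcases cover h1 h2 h3 i with e | e | e <;> rw [e]
    · exact ⟨kr, by rw [xr, ur, h10, h11]⟩
    · exact ⟨kL, by rw [xL, uL, h8]; ring⟩
    · exact ⟨kH, by rw [xH, uH, h9]; ring⟩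

/-- Two strands with different classes are far. -/
theorem Cl.far (hN0 : 0 ≤ N) {b E D : ℤ} {p q : Fin 3} {c h u : Fin 3 → ℤ} (hcl : Cl N b c h u)
    (hE : ∀ i, |h i| ≤ E) (hN : 2 * E + D ≤ N) (hc : (c p - c q) % 3 ≠ 0) :
    FarD N D (u q - u p) := by
  have ep := abs_le.1 (hE p)
  have eq := abs_le.1 (hE q)
  obtain ⟨kp, up⟩ := hcl p
  obtain ⟨kq, uq⟩ := hcl q
  have e0 : 0 ≤ E := (abs_nonneg _).trans (hE p)
  have hcase : (∃ m, c q = c p + 1 + 3 * m) ∨ ∃ m, c q = c p + 2 + 3 * m := by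
    have : (c p - c q) % 3 = 1 ∨ (c p - c q) % 3 = 2 := by omega
    rcases this with h | h
    · exact Or.inr ⟨(c q - c p - 2) / 3, by omega⟩
    · exact Or.inl ⟨(c q - c p - 1) / 3, by omega⟩
  rcases hcase with ⟨m, hm⟩ | ⟨m, hm⟩
  · refine ⟨kp - kq - m, ?_, ?_⟩ <;>
    · rw [up, uq, hm]
      have : b + N * (c p + 1 + 3 * m) + h q + 3 * N * kq - (b + N * c p + h p + 3 * N * kp) +
        3 * N * (kp - kq - m) = N + h q - h p := by ring
      rw [this]
      linarith
  · refine ⟨kp - kq - m, ?_, ?_⟩ <;>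
    · rw [up, uq, hm]
      have : b + N * (c p + 2 + 3 * m) + h q + 3 * N * kq - (b + N * c p + h p + 3 * N * kp) +
        3 * N * (kp - kq - m) = 2 * N + h q - h p := by ring
      rw [this]
      linarith

/-- A given layer over two equal classes is a tight step. -/
theorem Cl.given_aux {b E : ℤ} {r p q : Fin 3} (hp : p ≠ r) (hq : q ≠ r) (hpq : p ≠ q)
    {c h u x : Fin 3 → ℤ} (hcl : Cl N b c h u) (hE : ∀ i, |h i| ≤ E) (hN : 2 * E < N)
    (hc : (c p - c q) % 3 = 0) (hle : h p ≤ h q) (hl : Layer N r u x) :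
    ∃ c' h', TStep r c h c' h' ∧ Cl N b c' h' x := by
  obtain ⟨l0, l1, l2⟩ := hl
  obtain ⟨kp, up⟩ := hcl p
  obtain ⟨kq, uq⟩ := hcl q
  obtain ⟨kr, ur⟩ := hcl r
  obtain ⟨jp, p1, p2⟩ := l1 p hp
  obtain ⟨jq, q1, q2⟩ := l1 q hq
  obtain ⟨j3, r1, r2⟩ := l2 q p hq hp hpq.symm
  obtain ⟨m, hm⟩ : ∃ m, c q - c p = 3 * m := ⟨(c q - c p) / 3, by omega⟩
  have ep := abs_le.1 (hE p)
  have eq := abs_le.1 (hE q)
  have e0 : 0 ≤ E := (abs_nonneg _).trans (hE p)
  obtain ⟨α, hα⟩ : ∃ α, α = x p - u p + 3 * N * jp := ⟨_, rfl⟩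
  obtain ⟨β, hβ⟩ : ∃ β, β = x q - u q + 3 * N * jq := ⟨_, rfl⟩
  rw [← hα] at p1 p2
  rw [← hβ] at q1 q2
  obtain ⟨T, hT⟩ : ∃ T, T = m + kq - kp - jq + jp + j3 := ⟨_, rfl⟩
  have e1 : x q - x p + 3 * N * j3 = (h q - h p + β - α) + 3 * N * T := by
    have e2 : c q = c p + 3 * m := by linarith
    have e3 : x q = u q + β - 3 * N * jq := by linarith
    have e4 : x p = u p + α - 3 * N * jp := by linarith
    rw [e3, e4, up, uq, e2, hT]
    ring
  rw [e1] at r1 r2
  have hT0 : T = 0 := by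
    rcases lt_trichotomy T 0 with h0 | h0 | h0
    · have : 3 * N * T ≤ 3 * N * (-1) := by
        apply mul_le_mul_of_nonneg_left (by omega) (by linarith)
      exfalso
      linarith
    · exact h0
    · have : 3 * N * 1 ≤ 3 * N * T := by
        apply mul_le_mul_of_nonneg_left (by omega) (by linarith)
      exfalso
      linarith
  rw [hT0] at r1 r2
  obtain ⟨c', cr, cp, cq⟩ : ∃ c' : Fin 3 → ℤ, c' r = c r ∧ c' p = c p + 1 ∧ c' q = c q + 2 :=
    ⟨fun i => if i = p then c p + 1 else if i = q then c q + 2 else c i,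
      by simp [hp.symm, hq.symm], by simp, by simp [hpq.symm]⟩
  obtain ⟨h', hr', hp', hq'⟩ : ∃ h' : Fin 3 → ℤ, h' r = h r ∧ h' p = h p + α - N ∧
      h' q = h q + β - 2 * N :=
    ⟨fun i => if i = p then h p + α - N else if i = q then h q + β - 2 * N else h i,
      by simp [hp.symm, hq.symm], by simp, by simp [hpq.symm]⟩
  refine ⟨c', h', ⟨p, q, hp, hq, hpq, hc, ?_, ?_, ?_, cp, cq, cr, hr'⟩, fun i => ?_⟩
  · rw [hp']; linarith
  · rw [hp', hq']; linarith
  · rw [hq']; linarith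
  · rcases cover hp hq hpq i with e | e | e <;> rw [e]
    · exact ⟨kr, by rw [l0, ur, cr, hr']⟩
    · refine ⟨kp - jp, ?_⟩
      have e4 : x p = u p + α - 3 * N * jp := by linarith
      rw [e4, up, cp, hp']; ring
    · refine ⟨kq - jq, ?_⟩
      have e3 : x q = u q + β - 3 * N * jq := by linarith
      rw [e3, uq, cq, hq']; ring

theorem Cl.given {b E : ℤ} {r p q : Fin 3} (hp : p ≠ r) (hq : q ≠ r) (hpq : p ≠ q)
    {c h u x : Fin 3 → ℤ} (hcl : Cl N b c h u) (hE : ∀ i, |h i| ≤ E) (hN : 2 * E < N)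
    (hc : (c p - c q) % 3 = 0) (hl : Layer N r u x) :
    ∃ c' h', TStep r c h c' h' ∧ Cl N b c' h' x := by
  rcases le_total (h p) (h q) with h0 | h0
  · exact Cl.given_aux hp hq hpq hcl hE hN hc h0 hl
  · exact Cl.given_aux hq hp hpq.symm hcl hE hN (by omega) h0 hl

theorem TStep.abs_le {r : Fin 3} {c h c' h' : Fin 3 → ℤ} {E : ℤ} (t : TStep r c h c' h')
    (hE : ∀ i, |h i| ≤ E) (i : Fin 3) : |h' i| ≤ E := by
  obtain ⟨L, H, h1, h2, h3, h4, h5, h6, h7, h8, h9, h10, h11⟩ := t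
  have eL := _root_.abs_le.1 (hE L)
  have eH := _root_.abs_le.1 (hE H)
  have er := _root_.abs_le.1 (hE r)
  rw [_root_.abs_le]
  rcases cover h1 h2 h3 i with e | e | e <;> rw [e] <;> constructor <;> linarith

/-- A given path in a cluster: good, or a path of tight steps. -/
theorem follow {b E : ℤ} (hN : 2 * E < N) : ∀ (l : List (Fin 3)) (c h u x : Fin 3 → ℤ),
    (∀ i, |h i| ≤ E) → Cl N b c h u → Path N l u x → GoodA l c h ∨ TPath l c h := by
  intro l
  induction l with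
  | nil => intro c h u x _ _ _; exact Or.inr trivial
  | cons r l ih =>
    intro c h u x hE hcl hp
    obtain ⟨y, hy, hp⟩ := hp
    obtain ⟨p, q, h1, h2, h3⟩ := other r
    by_cases hc : (c p - c q) % 3 = 0
    · obtain ⟨c', h', ht, hcl'⟩ := Cl.given h1 h2 h3 hcl hE hN hc hy
      rcases ih c' h' y x (ht.abs_le hE) hcl' hp with h | h
      · exact Or.inl (Or.inr ⟨c', h', ht, h⟩)
      · exact Or.inr ⟨c', h', ht, h⟩
    · exact Or.inl (Or.inl ⟨p, q, h1, h2, h3, hc⟩)

/-- The abstract strategy gives a spread state. -/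
theorem good_of_goodA (hg : 0 ≤ g) {b E : ℤ} : ∀ (l : List (Fin 3)) (c h u : Fin 3 → ℤ),
    2 * E + GG g l.length ≤ N → (∀ i, |h i| ≤ E) → Cl N b c h u → GoodA l c h →
    Good N g l u := by
  intro l
  induction l with
  | nil => intro c h u _ _ _ h; exact h.elim
  | cons r l ih =>
    intro c h u hN hE hcl hgd
    have e0 : 0 ≤ E := (abs_nonneg _).trans (hE 0)
    simp only [List.length_cons] at hN
    have e1 := GG_nonneg hg (l.length + 1)
    rcases hgd with ⟨p, q, h1, h2, h3, h4⟩ | ⟨c', h', ht, hgd⟩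
    · exact good_of_far hg h1 h2 h3 (by linarith) (Cl.far (by linarith) hcl hE hN h4)
    · have e2 : GG g l.length ≤ GG g (l.length + 1) := GG_mono hg (Nat.le_succ _)
      have e3 : 2 * E < N := by
        have : GG g (l.length + 1) = 6 * GG g l.length + 10 := GG_succ g _
        have := GG_nonneg hg l.length
        linarith
      obtain ⟨hE', y, hy, hcl'⟩ := hcl.realise hE e3 ht
      obtain ⟨z, hz, hs⟩ := ih c' h' y (by linarith) hE' hcl' hgd
      exact ⟨z, ⟨y, hy, hz⟩, hs⟩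

theorem near_of_not_far (hN : 0 < N) {D x : ℤ} (h : ¬ FarD N D x) :
    ∃ k : ℤ, |x + 3 * N * k| ≤ D := by
  obtain ⟨k, h1, h2⟩ := exists_rep (by linarith : 0 < 3 * N) x
  by_cases h3 : D ≤ x + 3 * N * k
  · by_cases h4 : x + 3 * N * k ≤ 3 * N - D
    · exact absurd ⟨k, h3, h4⟩ h
    · exact ⟨k - 1, abs_le.2 ⟨by linarith, by linarith⟩⟩
  · exact ⟨k, abs_le.2 ⟨by linarith, by linarith⟩⟩

/-- The first two letters are tight: the state lies in a cluster. -/
theorem cluster_of {D : ℤ} {r p q t : Fin 3} (h1 : p ≠ r) (h2 : q ≠ r) (h3 : p ≠ q)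
    (ht : t = p ∨ t = q) {u y : Fin 3 → ℤ} (hN : 2 * D < N) {k : ℤ}
    (hk : |u q - u p + 3 * N * k| ≤ D) (hy : Layer N r u y) {m : ℤ}
    (hm : |y t - u r + 3 * N * m| ≤ D) :
    ∃ b c h, Cl N b c h u ∧ ∀ i, |h i| ≤ 2 * D := by
  have hD : 0 ≤ D := (abs_nonneg _).trans hk
  obtain ⟨u', ur, up, uq⟩ : ∃ u' : Fin 3 → ℤ, u' r = u p ∧ u' p = u p ∧ u' q = u q :=
    ⟨fun i => if i = r then u p else u i, by simp, by simp [h1], by simp [h2]⟩
  obtain ⟨y', yr, yp, yq⟩ : ∃ y' : Fin 3 → ℤ, y' r = u p ∧ y' p = y p ∧ y' q = y q :=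
    ⟨fun i => if i = r then u p else y i, by simp, by simp [h1], by simp [h2]⟩
  obtain ⟨h0, hr0, hp0, hq0⟩ : ∃ h0 : Fin 3 → ℤ, h0 r = 0 ∧ h0 p = 0 ∧
      h0 q = u q - u p + 3 * N * k :=
    ⟨fun i => if i = q then u q - u p + 3 * N * k else 0, by simp [h2.symm], by simp [h3],
      by simp⟩
  have hcl : Cl N (u p) (fun _ => 0) h0 u' := by
    intro i
    rcases cover h1 h2 h3 i with e | e | e <;> rw [e]
    · exact ⟨0, by rw [ur, hr0]; ring⟩
    · exact ⟨0, by rw [up, hp0]; ring⟩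
    · exact ⟨-k, by rw [uq, hq0]; ring⟩
  have hE : ∀ i, |h0 i| ≤ D := by
    intro i
    rcases cover h1 h2 h3 i with e | e | e <;> rw [e]
    · rw [hr0]; simpa using hD
    · rw [hp0]; simpa using hD
    · rw [hq0]; exact hk
  have hy' : Layer N r u' y' := by
    refine layer_mk h1 h2 h3 (by rw [yr, ur]) ?_ ?_ ?_
    · rw [yp, up]; exact hy.2.1 p h1
    · rw [yq, uq]; exact hy.2.1 q h2
    · rw [yq, yp]; exact hy.2.2 q p h2 h1 h3.symm
  obtain ⟨c', h', hts, hcl'⟩ := Cl.given h1 h2 h3 hcl hE hN (by simp) hy'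
  have hE' := hts.abs_le hE
  have yt : y' t = y t := by
    rcases ht with e | e <;> rw [e]
    · exact yp
    · exact yq
  obtain ⟨j, hj⟩ := hcl' t
  obtain ⟨c, cr, cp, cq⟩ : ∃ c : Fin 3 → ℤ, c r = c' t ∧ c p = 0 ∧ c q = 0 :=
    ⟨fun i => if i = r then c' t else 0, by simp, by simp [h1], by simp [h2]⟩
  obtain ⟨h, hr, hp, hq⟩ : ∃ h : Fin 3 → ℤ, h r = h' t - (y t - u r + 3 * N * m) ∧ h p = h0 p ∧
      h q = h0 q :=
    ⟨fun i => if i = r then h' t - (y t - u r + 3 * N * m) else h0 i, by simp, by simp [h1],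
      by simp [h2]⟩
  refine ⟨u p, c, h, ?_, ?_⟩
  · intro i
    rcases cover h1 h2 h3 i with e | e | e <;> rw [e]
    · refine ⟨j + m, ?_⟩
      rw [cr, hr]
      rw [yt] at hj
      linarith
    · exact ⟨0, by rw [cp, hp, hp0]; ring⟩
    · exact ⟨-k, by rw [cq, hq, hq0]; ring⟩
  · intro i
    have et := abs_le.1 (hE' t)
    have em := abs_le.1 hm
    rcases cover h1 h2 h3 i with e | e | e <;> rw [e]
    · rw [hr, abs_le]
      constructor <;> linarith
    · rw [hp]
      exact (hE p).trans (by linarith)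
    · rw [hq]
      exact (hE q).trans (by linarith)

/-- **Twelve rungs.** Every state which is accepted by a word of twelve rungs is accepted with a
spread inner state. -/
theorem sp1 (hg : 0 ≤ g) {l : List (Fin 3)} (hl : l.length = 12) (hN : 5 * GG g 12 ≤ N)
    {u x : Fin 3 → ℤ} (hp : Path N l u x) : Good N g l u := by
  match l, hl, hp with
  | r :: r2 :: l, hl, hp =>
    have e0 : 0 ≤ GG g 11 := GG_nonneg hg 11
    have e1 : GG g 12 = 6 * GG g 11 + 10 := GG_succ g 11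
    have hl0 : (r2 :: l).length = 11 := by simpa using hl
    have hl1 : l.length = 10 := by simpa using hl
    obtain ⟨p, q, h1, h2, h3⟩ := other r
    by_cases hf : FarD N (GG g 12) (u q - u p)
    · exact good_of_far hg h1 h2 h3 (by rw [hl0]; linarith) (by rw [hl0]; exact hf)
    obtain ⟨k, hk⟩ := near_of_not_far (by linarith) hf
    obtain ⟨y, hy, hp'⟩ := id hp
    have hgood : Good N g (r2 :: l) y → Good N g (r :: r2 :: l) u := by
      rintro ⟨z, hz, hs⟩
      exact ⟨z, ⟨y, hy, hz⟩, hs⟩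
    have hfar : ∀ {a b : Fin 3}, a ≠ r2 → b ≠ r2 → a ≠ b → FarD N (GG g 12) (y b - y a) →
        Good N g (r :: r2 :: l) u := by
      intro a b ha hb hab hf
      apply hgood
      exact good_of_far hg ha hb hab (by rw [hl1]; linarith)
        (by rw [hl1]; exact hf.mono (by linarith))
    have hclu : ∀ {b : ℤ} {c h : Fin 3 → ℤ}, Cl N b c h u → (∀ i, |h i| ≤ 2 * GG g 12) →
        Good N g (r :: r2 :: l) u := by
      intro b c h hcl hE
      have hN' : 2 * (2 * GG g 12) + GG g (r :: r2 :: l).length ≤ N := by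
        rw [hl]; linarith
      rcases follow (by linarith) _ _ _ _ _ hE hcl hp with hgd | ht
      · exact good_of_goodA hg _ _ _ _ hN' hE hcl hgd
      · exact good_of_goodA hg _ _ _ _ hN' hE hcl (good_of_tpath ht (by rw [hl]; norm_num))
    rcases cover h1 h2 h3 r2 with e | e | e
    · refine hfar (a := p) (b := q) (e ▸ h1) (e ▸ h2) h3 ?_
      obtain ⟨j, j1, j2⟩ := hy.2.2 q p h2 h1 h3.symm
      exact ⟨j, by linarith, by linarith⟩
    · by_cases hf2 : FarD N (GG g 12) (y q - y r)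
      · exact hfar (a := r) (b := q) (e ▸ h1.symm) (e ▸ h3.symm) h2.symm hf2
      · obtain ⟨m, hm⟩ := near_of_not_far (by linarith) hf2
        rw [hy.1] at hm
        obtain ⟨b, c, h, hcl, hE⟩ := cluster_of h1 h2 h3 (t := q) (Or.inr rfl) (by linarith) hk hy hm
        exact hclu hcl hE
    · by_cases hf2 : FarD N (GG g 12) (y p - y r)
      · exact hfar (a := r) (b := p) (e ▸ h2.symm) (e ▸ h3) h1.symm hf2
      · obtain ⟨m, hm⟩ := near_of_not_far (by linarith) hf2
        rw [hy.1] at hm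
        obtain ⟨b, c, h, hcl, hE⟩ := cluster_of h1 h2 h3 (t := p) (Or.inl rfl) (by linarith) hk hy hm
        exact hclu hcl hE

end Pool.Agent.Word97
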