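import Mathlib
import Pool.Agent.Work.MP_392c8e_co_uni.Word97b
import Pool.Agent.Work.MP_392c8e_co_uni.SpreadN

/-!
# Twelve rungs in a graph

A chain of rungs around a set `X`; every colouring of the rest of the graph can be changed on the
rungs such that the outer neighbours of `X` get a spread state.
-/

namespace Pool.Agent.Word97

open Pool.Agent.CutN (Jn IsCol)
open Pool.Agent.Red (side side_le)

variable {V : Type*} {G : SimpleGraph V} {N g : ℤ}

/-- One rung: the side `Y` with outer neighbours `b`, the vertices `b' i`, `i ≠ r`, are removed. -/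
structure RS (G : SimpleGraph V) (Y : V → Prop) (b : Fin 3 → V) (r : Fin 3) (Y' : V → Prop)
    (b' : Fin 3 → V) : Prop where
  b0 : b' r = b r
  mem : ∀ i, i ≠ r → Y (b' i)
  out : ∀ i, ¬ Y (b i)
  ne : ∀ i j, i ≠ r → j ≠ r → i ≠ j → b' i ≠ b' j
  yy : ∀ v, Y' v ↔ Y v ∧ ∀ i, i ≠ r → v ≠ b' i
  adjb : ∀ i, i ≠ r → G.Adj (b' i) (b i)
  adjr : ∀ i j, i ≠ r → j ≠ r → i ≠ j → G.Adj (b' i) (b' j)
  nb : ∀ i, i ≠ r → ∀ w, G.Adj (b' i) w → Y' w ∨ w = b i ∨ ∃ j, j ≠ r ∧ j ≠ i ∧ w = b' j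

/-- A chain of rungs. -/
def RC (G : SimpleGraph V) : List (Fin 3) → (V → Prop) → (Fin 3 → V) → (V → Prop) →
    (Fin 3 → V) → Prop
  | [], Y, b, Y', b' => (∀ v, Y' v ↔ Y v) ∧ b' = b
  | r :: l, Y, b, Y', b' => ∃ Y1 b1, RS G Y b r Y1 b1 ∧ RC G l Y1 b1 Y' b'

theorem RC.sub : ∀ {l : List (Fin 3)} {Y : V → Prop} {b : Fin 3 → V} {X : V → Prop}
    {b' : Fin 3 → V}, RC G l Y b X b' → ∀ v, X v → Y v := by
  intro l
  induction l with
  | nil => intro Y b X b' h v hv; exact (h.1 v).1 hv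
  | cons r l ih =>
    intro Y b X b' h v hv
    obtain ⟨Y1, b1, h1, h2⟩ := h
    exact ((h1.yy v).1 (ih h2 v hv)).1

theorem RC.snoc : ∀ {l : List (Fin 3)} {Y : V → Prop} {b : Fin 3 → V} {X : V → Prop}
    {b' : Fin 3 → V} {r : Fin 3} {X' : V → Prop} {b'' : Fin 3 → V}, RC G l Y b X b' →
    RS G X b' r X' b'' → RC G (l ++ [r]) Y b X' b'' := by
  intro l
  induction l with
  | nil =>
    intro Y b X b' r X' b'' h h'
    obtain ⟨h1, rfl⟩ := h
    have : X = Y := by funext v; exact propext (h1 v)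
    subst this
    exact ⟨X', b'', h', fun v => Iff.rfl, rfl⟩
  | cons s l ih =>
    intro Y b X b' r X' b'' h h'
    obtain ⟨Y1, b1, h1, h2⟩ := h
    exact ⟨Y1, b1, h1, ih h2 h'⟩

/-- The colours along a chain form a path. -/
theorem RC.path : ∀ {l : List (Fin 3)} {Y : V → Prop} {b : Fin 3 → V} {X : V → Prop}
    {b' : Fin 3 → V}, RC G l Y b X b' → ∀ {c : V → ℤ}, IsCol N (side G fun v => ¬ X v) c →
    Path N l (fun i => c (b i)) (fun i => c (b' i)) := by
  intro l
  induction l with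
  | nil =>
    intro Y b X b' h c hc
    obtain ⟨h1, rfl⟩ := h
    rfl
  | cons r l ih =>
    intro Y b X b' h c hc
    obtain ⟨Y1, b1, h1, h2⟩ := h
    refine ⟨fun i => c (b1 i), ⟨?_, ?_, ?_⟩, ih h2 hc⟩
    · show c (b1 r) = c (b r)
      rw [h1.b0]
    · intro i hi
      refine hc (b i) (b1 i) ⟨(h1.adjb i hi).symm, ?_, ?_⟩
      · intro hX
        exact h1.out i (((h1.yy _).1 (h2.sub _ hX)).1)
      · intro hX
        exact ((h1.yy _).1 (h2.sub _ hX)).2 i hi rfl
    · intro i j hi hj hij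
      refine hc (b1 j) (b1 i) ⟨h1.adjr j i hj hi hij.symm, ?_, ?_⟩
      · intro hX
        exact ((h1.yy _).1 (h2.sub _ hX)).2 j hj rfl
      · intro hX
        exact ((h1.yy _).1 (h2.sub _ hX)).2 i hi rfl

/-- Every path is realised by a colouring. -/
theorem RC.recolour : ∀ {l : List (Fin 3)} {Y : V → Prop} {b : Fin 3 → V} {X : V → Prop}
    {b' : Fin 3 → V}, RC G l Y b X b' → ∀ {c : V → ℤ} {x : Fin 3 → ℤ},
    IsCol N (side G fun v => ¬ Y v) c → Path N l (fun i => c (b i)) x →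
    ∃ c3, IsCol N (side G fun v => ¬ X v) c3 ∧ (∀ v, ¬ Y v → c3 v = c v) ∧
      ∀ i, c3 (b' i) = x i := by
  classical
  intro l
  induction l with
  | nil =>
    intro Y b X b' h c x hc hp
    obtain ⟨h1, rfl⟩ := h
    refine ⟨c, ?_, fun v _ => rfl, fun i => ?_⟩
    · have : X = Y := by funext v; exact propext (h1 v)
      rw [this]
      exact hc
    · have : x = fun i => c (b' i) := hp
      rw [this]
  | cons r l ih =>
    intro Y b X b' h c x hc hp
    obtain ⟨Y1, b1, h1, h2⟩ := h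
    obtain ⟨y, hy, hp⟩ := hp
    obtain ⟨p, q, hp0, hq0, hpq⟩ := other r
    have hpq' := h1.ne p q hp0 hq0 hpq
    obtain ⟨c1, hc1⟩ : ∃ c1 : V → ℤ, c1 = fun v => if v = b1 p then y p else
      if v = b1 q then y q else c v := ⟨_, rfl⟩
    have e1 : c1 (b1 p) = y p := by rw [hc1]; simp
    have e2 : c1 (b1 q) = y q := by rw [hc1]; simp [hpq'.symm]
    have e3 : ∀ v, ¬ Y v → c1 v = c v := by
      intro v hv
      have n1 : v ≠ b1 p := fun h => hv (h ▸ h1.mem p hp0)
      have n2 : v ≠ b1 q := fun h => hv (h ▸ h1.mem q hq0)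
      rw [hc1]
      simp [n1, n2]
    have e4 : ∀ i, i ≠ r → c1 (b1 i) = y i := by
      intro i hi
      rcases cover hp0 hq0 hpq i with e | e | e
      · exact absurd e hi
      · rw [e]; exact e1
      · rw [e]; exact e2
    have key : ∀ i, i ≠ r → ∀ v, ¬ Y1 v → G.Adj (b1 i) v → Jn N (c1 v - c1 (b1 i)) := by
      intro i hi v hv hadj
      rcases h1.nb i hi v hadj with h | h | ⟨j, hj, hji, h⟩
      · exact absurd h hv
      · rw [h, e3 _ (h1.out i), e4 i hi]
        have := (hy.2.1 i hi).neg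
        rwa [neg_sub] at this
      · rw [h, e4 i hi, e4 j hj]
        exact hy.2.2 j i hj hi hji
    have hcol : IsCol N (side G fun v => ¬ Y1 v) c1 := by
      intro u v huv
      obtain ⟨huv, hu, hv⟩ := huv
      by_cases hYu : Y u
      · have : ∃ i, i ≠ r ∧ u = b1 i := by
          by_contra hcon
          push Not at hcon
          exact hu ((h1.yy u).2 ⟨hYu, hcon⟩)
        obtain ⟨i, hi, rfl⟩ := this
        exact key i hi v hv huv
      · by_cases hYv : Y v
        · have : ∃ i, i ≠ r ∧ v = b1 i := by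
            by_contra hcon
            push Not at hcon
            exact hv ((h1.yy v).2 ⟨hYv, hcon⟩)
          obtain ⟨i, hi, rfl⟩ := this
          have := (key i hi u hu huv.symm).neg
          rwa [neg_sub] at this
        · rw [e3 u hYu, e3 v hYv]
          exact hc u v ⟨huv, hYu, hYv⟩
    have hpath : Path N l (fun i => c1 (b1 i)) x := by
      have : (fun i => c1 (b1 i)) = y := by
        funext i
        by_cases hi : i = r
        · rw [hi, h1.b0, e3 _ (h1.out r), hy.1]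
        · exact e4 i hi
      rw [this]
      exact hp
    obtain ⟨c3, g1, g2, g3⟩ := ih h2 hcol hpath
    refine ⟨c3, g1, fun v hv => ?_, g3⟩
    rw [g2 v (fun h => hv ((h1.yy v).1 h).1), e3 v hv]

theorem Spread.toCutN (hg : 0 < g) {x : Fin 3 → ℤ} (h : Spread N g x) :
    CutN.Spread N (g - 1) x := by
  intro i j hij
  obtain ⟨k, h1, h2⟩ := h i j hij
  have e : (x i - x j) % N = x i - x j + N * k := by
    rw [← Int.add_mul_emod_self_left (x i - x j) N k]
    exact Int.emod_eq_of_lt (by linarith) (by linarith)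
  rw [e]
  linarith

/-- **Twelve rungs in a graph.** -/
theorem peel12 {l : List (Fin 3)} {Y : V → Prop} {b : Fin 3 → V} {X : V → Prop} {b' : Fin 3 → V}
    (h : RC G l Y b X b') (hl : l.length = 12) {s : ℤ} (hs : 0 ≤ s) (hN : 5 * GG (s + 1) 12 ≤ N)
    {c : V → ℤ} (hc : IsCol N (side G fun v => ¬ X v) c) :
    ∃ c3, IsCol N (side G fun v => ¬ X v) c3 ∧ (∀ v, ¬ Y v → c3 v = c v) ∧
      CutN.Spread N s fun i => c3 (b' i) := by
  obtain ⟨x, hx, hsp⟩ := sp1 (by linarith : 0 ≤ s + 1) hl hN (h.path hc)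
  have hle : side G (fun v => ¬ Y v) ≤ side G fun v => ¬ X v :=
    fun u v huv => ⟨huv.1, fun hX => huv.2.1 (h.sub u hX), fun hX => huv.2.2 (h.sub v hX)⟩
  obtain ⟨c3, g1, g2, g3⟩ := h.recolour (hc.mono hle) hx
  refine ⟨c3, g1, g2, ?_⟩
  have e : (fun i => c3 (b' i)) = x := funext g3
  rw [e]
  have := hsp.toCutN (by linarith)
  simpa using this

theorem GG_ge {s : ℤ} (hs : 0 ≤ s) (hN : 5 * GG (s + 1) 12 ≤ N) : s < N := by
  have h1 : GG (s + 1) 0 ≤ GG (s + 1) 12 := GG_mono (by linarith) (by norm_num)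
  rw [GG_zero] at h1
  linarith

/-- The inner side has two adjacent ends. -/
theorem kill12_rung {l : List (Fin 3)} {Y : V → Prop} {b : Fin 3 → V} {X : V → Prop}
    {a b' : Fin 3 → V} (h : RC G l Y b X b') (hl : l.length = 12) {s : ℤ} (hs : 0 ≤ s)
    (hN : 5 * GG (s + 1) 12 ≤ N)
    (hcut : ∀ u v, X u → ¬ X v → G.Adj u v → ∃ i, u = a i ∧ v = b' i) {i j : Fin 3} (hij : i ≠ j)
    (hacc : ∀ y : Fin 3 → ZMod 3, y i ≠ y j → CutN.Acc s G X a y)
    {c : V → ℤ} (hc : IsCol N (side G fun v => ¬ X v) c) : CutN.ColN N G := by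
  obtain ⟨c3, g1, -, g3⟩ := peel12 h hl hs hN hc
  obtain ⟨c4, g4, -⟩ := CutN.leafN_rung hs (GG_ge hs hN) hcut hij hacc g1 g3
  exact ⟨c4, g4⟩

/-- The inner side has no two adjacent ends. -/
theorem kill12_two {l : List (Fin 3)} {Y : V → Prop} {b : Fin 3 → V} {X : V → Prop}
    {a b' : Fin 3 → V} (h : RC G l Y b X b') (hl : l.length = 12) {s : ℤ} (hs : 0 ≤ s)
    (hN : 5 * GG (s + 1) 12 ≤ N)
    (hcut : ∀ u v, X u → ¬ X v → G.Adj u v → ∃ i, u = a i ∧ v = b' i)
    (hacc : ∀ y : Fin 3 → ZMod 3, (∃ i j, i ≠ j ∧ y i = y j) → CutN.Acc s G X a y)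
    {c : V → ℤ} (hc : IsCol N (side G fun v => ¬ X v) c) : CutN.ColN N G := by
  obtain ⟨c3, g1, -, g3⟩ := peel12 h hl hs hN hc
  obtain ⟨c4, g4, -⟩ := CutN.leafN_two hs (GG_ge hs hN) hcut hacc g1 g3
  exact ⟨c4, g4⟩

end Pool.Agent.Word97
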