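import Pool.Agent.Work.MP_392c8e_co_uni.QuickEq

/-!
# The list of the patterns of a reducer, computed quickly

`Red.ptsF` is the list `Red.pts`, where a pattern is extended by the colours which do not occur at
the partners of the new label.
-/

namespace Pool.Agent.T1Red

/-- The partners of the label `s` among the later labels, as differences. -/
def prt (s : Nat) : List (Nat × Nat) → List Nat
  | [] => []
  | (a, b) :: l => cond (Nat.beq a s && Nat.blt s b) (Nat.sub b s :: prt s l)
    (cond (Nat.beq b s && Nat.blt s a) (Nat.sub a s :: prt s l) (prt s l))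

/-- The colour `i` does not occur at the partners. -/
def okQ (i q : Nat) : List Nat → Bool
  | [] => true
  | d :: ds => cond (Nat.beq i (dig q (Nat.pred d))) false (okQ i q ds)

/-- The extensions of a list of patterns. -/
def stg (ds : List Nat) : List Nat → List Nat
  | [] => []
  | q :: l =>
    cond (okQ 0 q ds)
      (Nat.mul 4 q :: cond (okQ 1 q ds)
        (Nat.add (Nat.mul 4 q) 1 :: cond (okQ 2 q ds) (Nat.add (Nat.mul 4 q) 2 :: stg ds l)
          (stg ds l))
        (cond (okQ 2 q ds) (Nat.add (Nat.mul 4 q) 2 :: stg ds l) (stg ds l)))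
      (cond (okQ 1 q ds)
        (Nat.add (Nat.mul 4 q) 1 :: cond (okQ 2 q ds) (Nat.add (Nat.mul 4 q) 2 :: stg ds l)
          (stg ds l))
        (cond (okQ 2 q ds) (Nat.add (Nat.mul 4 q) 2 :: stg ds l) (stg ds l)))

/-- The extensions by the colour `0`. -/
def stg0 (ds : List Nat) : List Nat → List Nat
  | [] => []
  | q :: l => cond (okQ 0 q ds) (Nat.mul 4 q :: stg0 ds l) (stg0 ds l)

/-- The patterns. -/
def patsF (nw : List (Nat × Nat)) : Nat → Nat → List Nat
  | _, 0 => [0]
  | s, n + 1 => stg (prt s nw) (patsF nw (s + 1) n)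

/-- The patterns of a reducer. -/
def Red.ptsF (R : Red) : List Nat := stg0 (prt 0 R.nw) (patsF R.nw 1 (R.t - 1))

theorem okP_eq (s q i : Nat) (hi : i < 4) : ∀ nw : List (Nat × Nat),
    okP nw s (4 * q + i) = okQ i q (prt s nw)
  | [] => rfl
  | (a, b) :: l => by
    have ih := okP_eq s q i hi l
    have key : ∀ d : Nat, 0 < d → Nat.beq (dig (4 * q + i) 0) (dig (4 * q + i) d) =
        Nat.beq i (dig q (Nat.pred d)) := by
      intro d hd
      obtain ⟨e, rfl⟩ : ∃ e, d = e + 1 := ⟨d - 1, by omega⟩
      rw [dig_zero _ _ hi, dig_succ _ _ _ hi]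
      rfl
    have h1 : okP ((a, b) :: l) s (4 * q + i) =
        ((cond (Nat.beq a s && Nat.blt s b)
          (!(Nat.beq (dig (4 * q + i) 0) (dig (4 * q + i) (Nat.sub b s))))
          (cond (Nat.beq b s && Nat.blt s a)
            (!(Nat.beq (dig (4 * q + i) 0) (dig (4 * q + i) (Nat.sub a s)))) true)) &&
          okP l s (4 * q + i)) := rfl
    rw [h1, ih]
    show _ = okQ i q (cond (Nat.beq a s && Nat.blt s b) (Nat.sub b s :: prt s l)
      (cond (Nat.beq b s && Nat.blt s a) (Nat.sub a s :: prt s l) (prt s l)))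
    cases h2 : (Nat.beq a s && Nat.blt s b)
    · cases h3 : (Nat.beq b s && Nat.blt s a)
      · rfl
      · rw [Bool.and_eq_true] at h3
        have h4 : s < a := by
          have := h3.2
          unfold Nat.blt at this
          exact Nat.le_of_ble_eq_true this
        have h5 := key (Nat.sub a s) (by show 0 < a - s; omega)
        show ((!(Nat.beq (dig (4 * q + i) 0) (dig (4 * q + i) (Nat.sub a s)))) &&
          okQ i q (prt s l)) = cond (Nat.beq i (dig q (Nat.pred (Nat.sub a s)))) false
            (okQ i q (prt s l))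
        rw [h5]
        cases Nat.beq i (dig q (Nat.pred (Nat.sub a s))) <;> rfl
    · rw [Bool.and_eq_true] at h2
      have h4 : s < b := by
        have := h2.2
        unfold Nat.blt at this
        exact Nat.le_of_ble_eq_true this
      have h5 := key (Nat.sub b s) (by show 0 < b - s; omega)
      show ((!(Nat.beq (dig (4 * q + i) 0) (dig (4 * q + i) (Nat.sub b s)))) &&
        okQ i q (prt s l)) = cond (Nat.beq i (dig q (Nat.pred (Nat.sub b s)))) false
          (okQ i q (prt s l))
      rw [h5]
      cases Nat.beq i (dig q (Nat.pred (Nat.sub b s))) <;> rfl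

theorem stg_eq (nw : List (Nat × Nat)) (s : Nat) : ∀ l : List Nat,
    (l.flatMap fun q => [4 * q, 4 * q + 1, 4 * q + 2]).filter (okP nw s) = stg (prt s nw) l
  | [] => rfl
  | q :: l => by
    have ih := stg_eq nw s l
    have e0 : okP nw s (4 * q) = okQ 0 q (prt s nw) := okP_eq s q 0 (by norm_num) nw
    have e1 : okP nw s (4 * q + 1) = okQ 1 q (prt s nw) := okP_eq s q 1 (by norm_num) nw
    have e2 : okP nw s (4 * q + 2) = okQ 2 q (prt s nw) := okP_eq s q 2 (by norm_num) nw
    rw [List.flatMap_cons, List.filter_append, ih, List.filter_cons, List.filter_cons,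
      List.filter_cons, List.filter_nil, e0, e1, e2]
    show _ = cond (okQ 0 q (prt s nw))
      (Nat.mul 4 q :: cond (okQ 1 q (prt s nw))
        (Nat.add (Nat.mul 4 q) 1 :: cond (okQ 2 q (prt s nw))
          (Nat.add (Nat.mul 4 q) 2 :: stg (prt s nw) l) (stg (prt s nw) l))
        (cond (okQ 2 q (prt s nw)) (Nat.add (Nat.mul 4 q) 2 :: stg (prt s nw) l)
          (stg (prt s nw) l)))
      (cond (okQ 1 q (prt s nw))
        (Nat.add (Nat.mul 4 q) 1 :: cond (okQ 2 q (prt s nw))
          (Nat.add (Nat.mul 4 q) 2 :: stg (prt s nw) l) (stg (prt s nw) l))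
        (cond (okQ 2 q (prt s nw)) (Nat.add (Nat.mul 4 q) 2 :: stg (prt s nw) l)
          (stg (prt s nw) l)))
    cases okQ 0 q (prt s nw) <;> cases okQ 1 q (prt s nw) <;> cases okQ 2 q (prt s nw) <;> rfl

theorem stg0_eq (nw : List (Nat × Nat)) : ∀ l : List Nat,
    (l.map (4 * ·)).filter (okP nw 0) = stg0 (prt 0 nw) l
  | [] => rfl
  | q :: l => by
    have ih := stg0_eq nw l
    have e0 : okP nw 0 (4 * q) = okQ 0 q (prt 0 nw) := okP_eq 0 q 0 (by norm_num) nw
    rw [List.map_cons, List.filter_cons, ih, e0]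
    show _ = cond (okQ 0 q (prt 0 nw)) (Nat.mul 4 q :: stg0 (prt 0 nw) l) (stg0 (prt 0 nw) l)
    cases okQ 0 q (prt 0 nw) <;> rfl

theorem patsF_eq (nw : List (Nat × Nat)) : ∀ n s : Nat, pats nw s n = patsF nw s n
  | 0, _ => rfl
  | n + 1, s => by
    show ((pats nw (s + 1) n).flatMap fun q => [4 * q, 4 * q + 1, 4 * q + 2]).filter
      (okP nw s) = stg (prt s nw) (patsF nw (s + 1) n)
    rw [stg_eq, patsF_eq nw n (s + 1)]

theorem Red.ptsF_eq (R : Red) : R.pts = R.ptsF := by
  unfold Red.pts Red.ptsF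
  rw [stg0_eq, patsF_eq]

end Pool.Agent.T1Red
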