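import Pool.Agent.Work.MP_392c8e_co_uni.Quick

/-!
# The list of the patterns, by a walk

`ptsW` walks through the patterns with evaluated numbers and compares them with the keys of a
list; `pts_of_walk` is the fast form of `eqL_sound`.
-/

namespace Pool.Agent.T1Red

/-- The offsets of the larger ends of the new edges at `s`. -/
def pwOffs (s : Nat) : List (Nat × Nat) → List Nat
  | [] => []
  | e :: nw => cond (Nat.beq e.1 s && Nat.blt s e.2) (Nat.sub e.2 s :: pwOffs s nw)
      (cond (Nat.beq e.2 s && Nat.blt s e.1) (Nat.sub e.1 s :: pwOffs s nw) (pwOffs s nw))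

/-- The colour of the first label differs from those at the offsets. -/
def pwOk (p : Nat) : List Nat → Bool
  | [] => true
  | d :: l => cond (Nat.beq (dig p 0) (dig p d)) false (pwOk p l)

theorem pwOk_offs (s p : Nat) : ∀ nw : List (Nat × Nat), pwOk p (pwOffs s nw) = okP nw s p
  | [] => rfl
  | e :: nw => by
    have ih := pwOk_offs s p nw
    have h2 : okP (e :: nw) s p = (cond (Nat.beq e.1 s && Nat.blt s e.2)
      (!(Nat.beq (dig p 0) (dig p (Nat.sub e.2 s))))
      (cond (Nat.beq e.2 s && Nat.blt s e.1) (!(Nat.beq (dig p 0) (dig p (Nat.sub e.1 s)))) true)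
      && okP nw s p) := rfl
    rw [h2, ← ih]
    have h3 : pwOffs s (e :: nw) = cond (Nat.beq e.1 s && Nat.blt s e.2)
      (Nat.sub e.2 s :: pwOffs s nw)
      (cond (Nat.beq e.2 s && Nat.blt s e.1) (Nat.sub e.1 s :: pwOffs s nw) (pwOffs s nw)) := rfl
    have h4 : ∀ d : Nat, pwOk p (d :: pwOffs s nw) =
        (!(Nat.beq (dig p 0) (dig p d)) && pwOk p (pwOffs s nw)) := by
      intro d
      show cond (Nat.beq (dig p 0) (dig p d)) false (pwOk p (pwOffs s nw)) = _
      cases Nat.beq (dig p 0) (dig p d) <;> rfl
    rw [h3]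
    cases Nat.beq e.1 s && Nat.blt s e.2
    · cases Nat.beq e.2 s && Nat.blt s e.1
      · rfl
      · exact h4 _
    · exact h4 _

/-- One step of the enumeration. -/
def pwStep (o : List Nat) (l : List Nat) : List Nat :=
  (l.flatMap fun q => [4 * q, 4 * q + 1, 4 * q + 2]).filter fun p => pwOk p o

/-- The enumeration below a prefix; the lists belong to the remaining labels, largest first. -/
def pwEnum : List (List Nat) → Nat → List Nat
  | [], q => [q]
  | o :: os, q => (pwStep o [q]).flatMap (pwEnum os)

/-- The lists of offsets of the labels `s + n - 1, …, s`. -/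
def pwOffL (nw : List (Nat × Nat)) : Nat → Nat → List (List Nat)
  | _, 0 => []
  | s, n + 1 => pwOffL nw (s + 1) n ++ [pwOffs s nw]

theorem pwEnum_append (o : List Nat) : ∀ (os : List (List Nat)) (q : Nat),
    pwEnum (os ++ [o]) q = pwStep o (pwEnum os q)
  | [], q => by
    show (pwStep o [q]).flatMap (pwEnum []) = pwStep o [q]
    show (pwStep o [q]).flatMap (fun q => [q]) = pwStep o [q]
    simp
  | o' :: os, q => by
    show (pwStep o' [q]).flatMap (pwEnum (os ++ [o])) =
      pwStep o ((pwStep o' [q]).flatMap (pwEnum os))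
    have h : ∀ l : List Nat, l.flatMap (pwEnum (os ++ [o])) =
        pwStep o (l.flatMap (pwEnum os)) := by
      intro l
      induction l with
      | nil => rfl
      | cons a l ih =>
        rw [List.flatMap_cons, List.flatMap_cons, ih, pwEnum_append o os a]
        unfold pwStep
        rw [List.flatMap_append, List.filter_append]
    exact h _

theorem pwEnum_offL (nw : List (Nat × Nat)) : ∀ (n s : Nat),
    pwEnum (pwOffL nw s n) 0 = pats nw s n
  | 0, _ => rfl
  | n + 1, s => by
    show pwEnum (pwOffL nw (s + 1) n ++ [pwOffs s nw]) 0 = _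
    rw [pwEnum_append, pwEnum_offL nw n (s + 1)]
    have h : pats nw s (n + 1) = ((pats nw (s + 1) n).flatMap fun q =>
      [4 * q, 4 * q + 1, 4 * q + 2]).filter (okP nw s) := rfl
    rw [h]
    unfold pwStep
    refine List.filter_congr fun p _ => ?_
    exact pwOk_offs s p nw

/-- The walk through all patterns: `oz` is the list of offsets of the first label. -/
def pwWalk : List (List Nat) → List Nat → Nat → List (Nat × List Nat) →
    (List (Nat × List Nat) → Bool) → Bool
  | [], oz, q, C, k => frc (Nat.mul 4 q) fun p => cond (pwOk p oz)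
      (match C with
        | [] => false
        | (b, _) :: C => cond (Nat.beq p b) (k C) false) (k C)
  | o :: os, oz, q, C, k =>
    frc (Nat.mul 4 q) fun a =>
      cond (pwOk a o) (pwWalk os oz a C fun C1 =>
        frc (Nat.add a 1) fun b => cond (pwOk b o) (pwWalk os oz b C1 fun C2 =>
          frc (Nat.add a 2) fun d => cond (pwOk d o) (pwWalk os oz d C2 k) (k C2))
        (frc (Nat.add a 2) fun d => cond (pwOk d o) (pwWalk os oz d C1 k) (k C1)))
      (frc (Nat.add a 1) fun b => cond (pwOk b o) (pwWalk os oz b C fun C2 =>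
          frc (Nat.add a 2) fun d => cond (pwOk d o) (pwWalk os oz d C2 k) (k C2))
        (frc (Nat.add a 2) fun d => cond (pwOk d o) (pwWalk os oz d C k) (k C)))

/-- The enumeration with the first label. -/
def pwEnumZ (os : List (List Nat)) (oz : List Nat) (q : Nat) : List Nat :=
  ((pwEnum os q).map (4 * ·)).filter fun p => pwOk p oz

theorem pwWalk_cons (o : List Nat) (os : List (List Nat)) (oz : List Nat) (q : Nat)
    (C : List (Nat × List Nat)) (k : List (Nat × List Nat) → Bool) : pwWalk (o :: os) oz q C k =
      (fun (st : Nat → List (Nat × List Nat) → (List (Nat × List Nat) → Bool) → Bool) =>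
        st (4 * q) C fun C1 => st (4 * q + 1) C1 fun C2 => st (4 * q + 2) C2 k)
      (fun p C k => cond (pwOk p o) (pwWalk os oz p C k) (k C)) := by
  show frc (Nat.mul 4 q) _ = _
  rw [frc_eq]
  have h4 : Nat.mul 4 q = 4 * q := rfl
  rw [h4]
  simp only [frc_eq]

theorem pwWalk_spec (oz : List Nat) : ∀ (os : List (List Nat)) (q : Nat)
    (C : List (Nat × List Nat)) (k : List (Nat × List Nat) → Bool), pwWalk os oz q C k = true →
    ∃ C1 C2, C = C1 ++ C2 ∧ C1.map Prod.fst = pwEnumZ os oz q ∧ k C2 = true
  | [], q, C, k, h => by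
    unfold pwWalk at h
    rw [frc_eq] at h
    have h4 : Nat.mul 4 q = 4 * q := rfl
    rw [h4] at h
    cases h1 : pwOk (4 * q) oz
    · rw [h1, cond_false] at h
      exact ⟨[], C, rfl, by simp [pwEnumZ, pwEnum, h1], h⟩
    · rw [h1, cond_true] at h
      cases C with
      | nil => exact absurd h (by simp)
      | cons x C =>
        obtain ⟨b, rs⟩ := x
        have h' : cond (Nat.beq (4 * q) b) (k C) false = true := h
        cases h2 : Nat.beq (4 * q) b
        · rw [h2, cond_false] at h'
          exact absurd h' (by simp)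
        · rw [h2, cond_true] at h'
          refine ⟨[(b, rs)], C, rfl, ?_, h'⟩
          rw [← Nat.eq_of_beq_eq_true h2]
          simp [pwEnumZ, pwEnum, h1]
  | o :: os, q, C, k, h => by
    rw [pwWalk_cons] at h
    have hst : ∀ (p : Nat) (C : List (Nat × List Nat)) (k : List (Nat × List Nat) → Bool),
        cond (pwOk p o) (pwWalk os oz p C k) (k C) = true → ∃ C1 C2, C = C1 ++ C2 ∧
          C1.map Prod.fst = (([p].filter fun p => pwOk p o).flatMap (pwEnumZ os oz)) ∧
          k C2 = true := by
      intro p C k h
      cases h1 : pwOk p o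
      · rw [h1, cond_false] at h
        exact ⟨[], C, rfl, by simp [h1], h⟩
      · rw [h1, cond_true] at h
        obtain ⟨C1, C2, h2, h3, h4⟩ := pwWalk_spec oz os p C k h
        exact ⟨C1, C2, h2, by simp [h1, h3], h4⟩
    obtain ⟨A1, B1, hA1, hA1', hB1⟩ := hst _ _ _ h
    obtain ⟨A2, B2, hA2, hA2', hB2⟩ := hst _ _ _ hB1
    obtain ⟨A3, B3, hA3, hA3', hB3⟩ := hst _ _ _ hB2
    refine ⟨A1 ++ (A2 ++ A3), B3, by rw [hA1, hA2, hA3]; simp, ?_, hB3⟩
    rw [List.map_append, List.map_append, hA1', hA2', hA3', ← List.flatMap_append,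
      ← List.flatMap_append, ← List.filter_append, ← List.filter_append]
    show (pwStep o [q]).flatMap (pwEnumZ os oz) = _
    have h7 : ∀ l : List Nat, l.flatMap (pwEnumZ os oz) =
        ((l.flatMap (pwEnum os)).map (4 * ·)).filter fun p => pwOk p oz := by
      intro l
      induction l with
      | nil => rfl
      | cons a l ih =>
        rw [List.flatMap_cons, List.flatMap_cons, ih, List.map_append, List.filter_append]
        rfl
    exact h7 _

/-- The end of the walk. -/
def pwNil : List (Nat × List Nat) → Bool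
  | [] => true
  | _ :: _ => false

/-- **The fast comparison of the patterns with the keys of a list.** -/
theorem pts_of_walk {R : Red} {C : List (Nat × List Nat)} (os : List (List Nat)) (oz : List Nat)
    (hos : pwOffL R.nw 1 (R.t - 1) = os) (hoz : pwOffs 0 R.nw = oz)
    (h : pwWalk os oz 0 C pwNil = true) : Red.pts R = C.map Prod.fst := by
  obtain ⟨C1, C2, h1, h2, h3⟩ := pwWalk_spec oz os 0 C pwNil h
  have h4 : C2 = [] := by
    cases C2 with
    | nil => rfl
    | cons _ _ => exact absurd h3 (by simp [pwNil])
  subst h4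
  rw [List.append_nil] at h1
  subst h1
  rw [h2]
  unfold pwEnumZ Red.pts
  rw [← hos, pwEnum_offL]
  refine List.filter_congr fun p _ => ?_
  rw [← hoz]
  exact (pwOk_offs 0 p R.nw).symm

end Pool.Agent.T1Red
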