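import Mathlib
import Pool.Agent.Work.MP_392c8e_co_t1.Apply
import Pool.Agent.Work.MP_392c8e_co_t1.Inst.Split

/-!
# A quick checker for reducers

The same statement as `Red.ext_of_check`.  For every interior colouring that is used there is one
entry of a table: ranks of the interior vertices, increasing along the arcs, and for every interior
vertex a mask of labels which contains the labels attached to it and the masks of the later
vertices.  For a pattern of the labels the conditions of an entry are read off with masks.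
-/

namespace Pool.Agent.T1Red

/-- A field of width `s`. -/
def fld (s p v : Nat) : Nat := Nat.mod (Nat.shiftRight p (Nat.mul s v)) (Nat.pow 2 s)

/-- An entry of the table: colours `r`, ranks `rk` and masks `rc` of the interior vertices, colours
`q` of the vertices attached to the labels, and the pairs `o` of labels with two auxiliary
masks. -/
structure QE where
  r : Nat
  rk : Nat
  rc : Nat
  q : Nat
  o : List (Nat × Nat × Nat × Nat)

/-- A table. -/
inductive Tr where
  | leaf : QE → Tr
  | node : Nat → Tr → Tr → Tr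

/-- An entry of a table. -/
def Tr.get : Tr → Nat → QE
  | .leaf e, _ => e
  | .node p l r, n => cond (Nat.blt n p) (l.get n) (r.get n)

/-- All entries. -/
def Tr.all (f : QE → Bool) : Tr → Bool
  | .leaf e => f e
  | .node _ l r => l.all f && r.all f

theorem Tr.all_get {f : QE → Bool} : ∀ (T : Tr) (n : Nat), T.all f = true → f (T.get n) = true
  | .leaf _, _, h => h
  | .node p l r, n, h => by
    have h' : (l.all f && r.all f) = true := h
    rw [Bool.and_eq_true] at h'
    show f (cond (Nat.blt n p) (l.get n) (r.get n)) = true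
    cases Nat.blt n p
    · exact Tr.all_get r n h'.2
    · exact Tr.all_get l n h'.1

theorem Tr.all_node {f : QE → Bool} {p : Nat} {l r : Tr} (h1 : l.all f = true)
    (h2 : r.all f = true) : (Tr.node p l r).all f = true := by
  show (l.all f && r.all f) = true
  rw [h1, h2]
  rfl

/-- The edges without a label. -/
def Red.ie (R : Red) : List (Nat × Nat) := R.ed.filter fun e => !(Nat.blt e.2 R.t)

/-- The edges with a label as second end. -/
def Red.te (R : Red) : List (Nat × Nat) := R.ed.filter fun e => Nat.blt e.2 R.t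

/-- The test of an arc between interior vertices. -/
def arcOK (rk rc u w : Nat) : Bool :=
  Nat.blt (fld 5 rk u) (fld 5 rk w) && Nat.beq (Nat.lor (fld 16 rc u) (fld 16 rc w)) (fld 16 rc u)

/-- The test of the edges between interior vertices. -/
def ieOK (t r rk rc : Nat) : List (Nat × Nat) → Bool
  | [] => true
  | (a, b) :: l =>
    cond (Nat.beq (Nat.mod (Nat.add (dig r (Nat.sub a t)) 1) 3) (Nat.mod (dig r (Nat.sub b t)) 3))
      (arcOK rk rc (Nat.sub a t) (Nat.sub b t) && ieOK t r rk rc l)
      (cond (Nat.beq (Nat.mod (Nat.add (dig r (Nat.sub b t)) 1) 3)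
        (Nat.mod (dig r (Nat.sub a t)) 3))
        (arcOK rk rc (Nat.sub b t) (Nat.sub a t) && ieOK t r rk rc l) false)

/-- The mask of the partners of the label `i`. -/
def maskO (i : Nat) : List (Nat × Nat × Nat × Nat) → Nat → Nat
  | [], a => a
  | (_, _, x, y) :: l, a => maskO i l (cond (Nat.beq x i) (Nat.lor a (Nat.shiftLeft 1 y)) a)

/-- The test of the auxiliary masks. -/
def oOK : List (Nat × Nat × Nat × Nat) → Bool
  | [] => true
  | (z, x, i, j) :: l => Nat.beq x (Nat.shiftLeft 1 i) &&
      Nat.beq z (Nat.lor (Nat.shiftLeft 1 i) (Nat.shiftLeft 1 j)) &&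
      (Nat.blt i 16 && Nat.blt j 16) && oOK l

/-- The test of the edges with a label. -/
def teOK (t r rc q : Nat) (o : List (Nat × Nat × Nat × Nat)) : List (Nat × Nat) → Bool
  | [] => true
  | (v, i) :: l =>
    Nat.beq (dig q i) (dig r (Nat.sub v t)) &&
    Nat.beq (Nat.lor (fld 16 rc (Nat.sub v t)) (Nat.shiftLeft 1 i)) (fld 16 rc (Nat.sub v t)) &&
    Nat.beq (Nat.lor (maskO i o (Nat.shiftLeft 1 i)) (fld 16 rc (Nat.sub v t)))
      (maskO i o (Nat.shiftLeft 1 i)) && teOK t r rc q o l

/-- The test of an entry. -/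
def qEntry (t : Nat) (ie te : List (Nat × Nat)) (e : QE) : Bool :=
  ieOK t e.r e.rk e.rc ie && oOK e.o && teOK t e.r e.rc e.q e.o te

/-- The mask of the labels below the attached vertices, if the colouring is proper. -/
def inM (p q : Nat) : List (Nat × Nat) → Nat → Option Nat
  | [], a => some a
  | (_, i) :: l, a =>
    cond (Nat.beq (Nat.mod (Nat.add (dig p i) 1) 3) (Nat.mod (dig q i) 3))
      (inM p q l (Nat.lor a (Nat.shiftLeft 1 i)))
      (cond (Nat.beq (Nat.mod (Nat.add (dig q i) 1) 3) (Nat.mod (dig p i) 3)) (inM p q l a) none)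

/-- The pairs with the first label below and the second above. -/
def filO (M : Nat) : List (Nat × Nat × Nat × Nat) → List (Nat × Nat)
  | [] => []
  | (z, x, e) :: l => cond (Nat.beq (Nat.land M z) x) (e :: filO M l) (filO M l)

/-- The alternatives. -/
def qalts (te : List (Nat × Nat)) (T : Tr) (p : Nat) : List Nat → List (List (Nat × Nat))
  | [] => []
  | n :: l =>
    match inM p (T.get n).q te 0 with
    | none => qalts te T p l
    | some M => filO M (T.get n).o :: qalts te T p l

/-! ### Packed relations: the entry `i j` of a matrix is the bit `16 i + j` of a number -/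

/-- Evaluate the argument first. -/
def frc (n : Nat) (f : Nat → Bool) : Bool :=
  match n with
  | 0 => f 0
  | m + 1 => f (Nat.succ m)

theorem frc_eq (n : Nat) (f : Nat → Bool) : frc n f = f n := by
  cases n <;> rfl

/-- The entry `i j`. -/
def bP (M i j : Nat) : Bool :=
  Nat.beq (Nat.mod (Nat.shiftRight M (Nat.add (Nat.mul 16 i) j)) 2) 1

/-- The row `i`. -/
def rowP (M i : Nat) : Nat := Nat.mod (Nat.shiftRight M (Nat.mul 16 i)) 65536

/-- The bits `16 i`, `i < 16`. -/
def ones : Nat := 1766874025136433896750911497805568136923323180981774075523881651146915841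

/-- The column `a`, spread. -/
def colP (M a : Nat) : Nat := Nat.land (Nat.shiftRight M a) ones

/-- The matrix of `≤` after adding `a ≤ b`. -/
def leP (le a b : Nat) : Nat := Nat.lor le (Nat.mul (colP le a) (rowP le b))

/-- The matrix of `<` after adding `a ≤ b`. -/
def ltP (le lt a b : Nat) : Nat :=
  Nat.lor lt (Nat.lor (Nat.mul (colP le a) (rowP lt b)) (Nat.mul (colP lt a) (rowP le b)))

/-- The matrix of `<` after adding `a < b`. -/
def ltP' (le lt a b : Nat) : Nat := Nat.lor lt (Nat.mul (colP le a) (rowP le b))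

/-- One alternative. -/
def innerP (ne : Nat) : List (Nat × Nat) → Nat → Nat → (Nat → Nat → Bool) → Bool
  | [], _, _, _ => true
  | (i, j) :: cs, le, lt, k =>
    cond (bP lt i j) (innerP ne cs le lt k)
      (cond (bP le j i) (k le lt)
        ((frc (leP le j i) fun le' =>
            frc (cond (bP ne i j) (ltP' le lt j i) (ltP le lt j i)) fun lt' => k le' lt') &&
          (frc (leP le i j) fun le' => frc (ltP' le lt i j) fun lt' => innerP ne cs le' lt' k)))

/-- All alternatives. -/
def goP (ne : Nat) (te : List (Nat × Nat)) (T : Tr) (p : Nat) : List Nat → Nat → Nat → Bool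
  | [], _, _ => false
  | n :: rs, le, lt =>
    match inM p (T.get n).q te 0 with
    | none => goP ne te T p rs le lt
    | some M => innerP ne (filO M (T.get n).o) le lt (goP ne te T p rs)

/-- Add strict facts. -/
def assumeP : List (Nat × Nat) → Nat → Nat → (Nat → Nat → Bool) → Bool
  | [], le, lt, k => k le lt
  | (i, j) :: cs, le, lt, k =>
    cond (bP le j i) true
      (frc (leP le i j) fun le' => frc (ltP' le lt i j) fun lt' => assumeP cs le' lt' k)

/-- The identity matrix. -/
def idP : Nat → Nat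
  | 0 => 0
  | n + 1 => Nat.lor (idP n) (Nat.shiftLeft 1 (Nat.mul 17 n))

/-- The check of one pattern; `hy` is the list of the arcs of the new edges, `ne` the packed
matrix. -/
def qcheckP (R : Red) (ne : Nat) (te : List (Nat × Nat)) (T : Tr) (p : Nat) (rs : List Nat) :
    Bool :=
  match arcsOf (dig p) R.nw with
  | none => true
  | some hyps => frc (idP R.t) fun le => assumeP hyps le 0 (goP ne te T p rs)

/-- The check of a list of patterns. -/
def qcheckL (R : Red) (ne : Nat) (te : List (Nat × Nat)) (T : Tr) :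
    List (Nat × List Nat) → Bool
  | [] => true
  | (p, rs) :: l => qcheckP R ne te T p rs && qcheckL R ne te T l

theorem qcheckL_append {R : Red} {ne : Nat} {te : List (Nat × Nat)} {T : Tr} :
    ∀ {C D : List (Nat × List Nat)}, qcheckL R ne te T C = true → qcheckL R ne te T D = true →
      qcheckL R ne te T (C ++ D) = true
  | [], _, _, h => h
  | (p, rs) :: C, D, h1, h2 => by
    have h3 : (qcheckP R ne te T p rs && qcheckL R ne te T C) = true := h1
    show (qcheckP R ne te T p rs && qcheckL R ne te T (C ++ D)) = true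
    rw [Bool.and_eq_true] at h3 ⊢
    exact ⟨h3.1, qcheckL_append h3.2 h2⟩

/-! ## Soundness -/

theorem shl_one (i : Nat) : Nat.shiftLeft 1 i = 2 ^ i := by
  show 1 <<< i = 2 ^ i
  rw [Nat.one_shiftLeft]

theorem bit_lor (a b i : Nat) : bit (Nat.lor a b) i = (bit a i || bit b i) := by
  rw [bit_eq, bit_eq, bit_eq]
  show (a ||| b).testBit i = _
  rw [Nat.testBit_or]

theorem bit_shl (i j : Nat) : bit (Nat.shiftLeft 1 i) j = decide (i = j) := by
  rw [bit_eq, shl_one, Nat.testBit_two_pow]

/-- Existence of the interior values. -/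
theorem exists_sigma {L : Type*} [LinearOrder L] [DenselyOrdered L] [NoMinOrder L] [NoMaxOrder L]
    [Nonempty L] (B : Finset Nat) (arcs : List (Nat × Nat)) (rk : Nat → Nat) (N : Nat)
    (rc : Nat → Nat → Prop) (lo up : Nat → Finset Nat) (τ : Nat → L) (hN : ∀ v, rk v < N)
    (h1 : ∀ e ∈ arcs, rk e.1 < rk e.2) (h2 : ∀ e ∈ arcs, ∀ j, rc e.2 j → rc e.1 j)
    (hB : ∀ v j, rc v j → j ∈ B) (hup : ∀ v, ∀ j ∈ up v, rc v j)
    (h3 : ∀ v, ∀ i ∈ lo v, ∀ j, rc v j → τ i < τ j) :
    ∃ σ : Nat → L, (∀ e ∈ arcs, σ e.1 < σ e.2) ∧ (∀ v, ∀ i ∈ lo v, τ i < σ v) ∧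
      ∀ v, ∀ j ∈ up v, σ v < τ j := by
  classical
  have key : ∀ n : Nat, ∃ σ : Nat → L, ∀ v, rk v < n →
      (∀ i ∈ lo v, τ i < σ v) ∧ (∀ e ∈ arcs, e.2 = v → σ e.1 < σ v) ∧
      ∀ j, rc v j → σ v < τ j := by
    intro n
    induction n with
    | zero => exact ⟨fun _ => Classical.arbitrary L, fun v hv => absurd hv (Nat.not_lt_zero _)⟩
    | succ n ih =>
      obtain ⟨σ, hσ⟩ := ih
      have hx : ∀ v, ∃ x : L, rk v = n → (∀ i ∈ lo v, τ i < x) ∧
          (∀ e ∈ arcs, e.2 = v → σ e.1 < x) ∧ ∀ j, rc v j → x < τ j := by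
        intro v
        by_cases hv : rk v = n
        · obtain ⟨x, hx1, hx2⟩ := Order.exists_between_finsets
            ((lo v).image τ ∪ ((arcs.filter fun e => e.2 = v).map fun e => σ e.1).toFinset)
            ((B.filter fun j => rc v j).image τ) (by
              intro a ha b hb
              rw [Finset.mem_image] at hb
              obtain ⟨j, hj, rfl⟩ := hb
              rw [Finset.mem_filter] at hj
              rw [Finset.mem_union, Finset.mem_image, List.mem_toFinset, List.mem_map] at ha
              rcases ha with ⟨i, hi, rfl⟩ | ⟨e, he, rfl⟩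
              · exact h3 v i hi j hj.2
              · rw [List.mem_filter] at he
                obtain ⟨he1, he2⟩ := he
                have he2' : e.2 = v := by simpa using he2
                have hlt := h1 e he1
                rw [he2', hv] at hlt
                exact (hσ e.1 hlt).2.2 j (h2 e he1 j (he2' ▸ hj.2)))
          refine ⟨x, fun _ => ⟨fun i hi => hx1 _ ?_, fun e he hev => hx1 _ ?_,
            fun j hj => hx2 _ ?_⟩⟩
          · exact Finset.mem_union_left _ (Finset.mem_image_of_mem _ hi)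
          · refine Finset.mem_union_right _ ?_
            rw [List.mem_toFinset, List.mem_map]
            exact ⟨e, List.mem_filter.2 ⟨he, by simpa using hev⟩, rfl⟩
          · exact Finset.mem_image_of_mem _ (Finset.mem_filter.2 ⟨hB v j hj, hj⟩)
        · exact ⟨Classical.arbitrary L, fun h => absurd h hv⟩
      choose x hx using hx
      refine ⟨fun v => if rk v = n then x v else σ v, fun v hv => ?_⟩
      by_cases hvn : rk v = n
      · obtain ⟨hx1, hx2, hx3⟩ := hx v hvn
        refine ⟨fun i hi => ?_, fun e he hev => ?_, fun j hj => ?_⟩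
        · simp only [hvn, if_true]
          exact hx1 i hi
        · have hlt := h1 e he
          rw [hev, hvn] at hlt
          simp only [hvn, if_true, if_neg hlt.ne]
          exact hx2 e he hev
        · simp only [hvn, if_true]
          exact hx3 j hj
      · have hv' : rk v < n := by omega
        obtain ⟨g1, g2, g3⟩ := hσ v hv'
        refine ⟨fun i hi => ?_, fun e he hev => ?_, fun j hj => ?_⟩
        · simp only [hvn, if_false]
          exact g1 i hi
        · have hlt := h1 e he
          rw [hev] at hlt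
          have hne : rk e.1 ≠ n := by omega
          simp only [hvn, if_false, hne]
          exact g2 e he hev
        · simp only [hvn, if_false]
          exact g3 j hj
  obtain ⟨σ, hσ⟩ := key N
  exact ⟨σ, fun e he => (hσ e.2 (hN _)).2.1 e he rfl, fun v => (hσ v (hN v)).1,
    fun v j hj => (hσ v (hN v)).2.2 j (hup v j hj)⟩

theorem bit_of_lor_beq {a b : Nat} (h : Nat.beq (Nat.lor a b) a = true) {j : Nat}
    (hj : bit b j = true) : bit a j = true := by
  have h1 := Nat.eq_of_beq_eq_true h
  rw [← h1, bit_lor, hj, Bool.or_true]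

theorem arcOK_spec {rk rc u w : Nat} (h : arcOK rk rc u w = true) :
    fld 5 rk u < fld 5 rk w ∧ ∀ j, bit (fld 16 rc w) j = true → bit (fld 16 rc u) j = true := by
  unfold arcOK at h
  rw [Bool.and_eq_true] at h
  exact ⟨by simpa using h.1, fun j hj => bit_of_lor_beq h.2 hj⟩

theorem ieOK_spec {t r rk rc : Nat} : ∀ (l : List (Nat × Nat)), ieOK t r rk rc l = true →
    ∃ arcs : List (Nat × Nat), (∀ x ∈ arcs, fld 5 rk (x.1 - t) < fld 5 rk (x.2 - t) ∧
      ∀ j, bit (fld 16 rc (x.2 - t)) j = true → bit (fld 16 rc (x.1 - t)) j = true) ∧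
      ∀ (L : Type) [LinearOrder L] (σ : Nat → L), (∀ x ∈ arcs, σ x.1 < σ x.2) →
        ∀ e ∈ l, Str (fun v => ((dig r (v - t) : Nat) : ZMod 3)) σ e.1 e.2
  | [], _ => ⟨[], by simp, fun _ _ _ _ e he => by simp at he⟩
  | (a, b) :: l, h => by
    unfold ieOK at h
    cases h1 : Nat.beq (Nat.mod (Nat.add (dig r (Nat.sub a t)) 1) 3)
      (Nat.mod (dig r (Nat.sub b t)) 3)
    · rw [h1, cond_false] at h
      cases h2 : Nat.beq (Nat.mod (Nat.add (dig r (Nat.sub b t)) 1) 3)
        (Nat.mod (dig r (Nat.sub a t)) 3)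
      · rw [h2, cond_false] at h
        exact absurd h (by simp)
      · rw [h2, cond_true, Bool.and_eq_true] at h
        obtain ⟨arcs, g1, g2⟩ := ieOK_spec l h.2
        refine ⟨(b, a) :: arcs, fun x hx => ?_, fun L _ σ hσ e he => ?_⟩
        · rcases List.mem_cons.1 hx with rfl | hx
          · exact arcOK_spec h.1
          · exact g1 x hx
        · rcases List.mem_cons.1 he with rfl | he
          · exact Or.inr ⟨cast_of_mod h2, hσ (b, a) List.mem_cons_self⟩
          · exact g2 L σ (fun x hx => hσ x (List.mem_cons_of_mem _ hx)) e he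
    · rw [h1, cond_true, Bool.and_eq_true] at h
      obtain ⟨arcs, g1, g2⟩ := ieOK_spec l h.2
      refine ⟨(a, b) :: arcs, fun x hx => ?_, fun L _ σ hσ e he => ?_⟩
      · rcases List.mem_cons.1 hx with rfl | hx
        · exact arcOK_spec h.1
        · exact g1 x hx
      · rcases List.mem_cons.1 he with rfl | he
        · exact Or.inl ⟨cast_of_mod h1, hσ (a, b) List.mem_cons_self⟩
        · exact g2 L σ (fun x hx => hσ x (List.mem_cons_of_mem _ hx)) e he

theorem maskO_spec {i : Nat} : ∀ (l : List (Nat × Nat × Nat × Nat)) (a j : Nat),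
    bit (maskO i l a) j = true → bit a j = true ∨ ∃ z x, (z, x, i, j) ∈ l
  | [], _, _, h => Or.inl h
  | (z, x, u, w) :: l, a, j, h => by
    have h' : bit (maskO i l (cond (Nat.beq u i) (Nat.lor a (Nat.shiftLeft 1 w)) a)) j = true := h
    rcases maskO_spec l _ j h' with h1 | ⟨z', x', h1⟩
    · cases h2 : Nat.beq u i
      · rw [h2, cond_false] at h1
        exact Or.inl h1
      · rw [h2, cond_true, bit_lor, bit_shl, Bool.or_eq_true, decide_eq_true_eq] at h1
        rcases h1 with h1 | h1
        · exact Or.inl h1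
        · refine Or.inr ⟨z, x, ?_⟩
          rw [← Nat.eq_of_beq_eq_true h2, ← h1]
          exact List.mem_cons_self
    · exact Or.inr ⟨z', x', List.mem_cons_of_mem _ h1⟩

theorem teOK_spec {t r rc q : Nat} {o : List (Nat × Nat × Nat × Nat)} :
    ∀ (l : List (Nat × Nat)), teOK t r rc q o l = true → ∀ e ∈ l,
      dig q e.2 = dig r (e.1 - t) ∧ bit (fld 16 rc (e.1 - t)) e.2 = true ∧
      ∀ j, bit (fld 16 rc (e.1 - t)) j = true → e.2 = j ∨ ∃ z x, (z, x, e.2, j) ∈ o
  | [], _, e, he => by simp at he
  | (v, i) :: l, h, e, he => by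
    unfold teOK at h
    rw [Bool.and_eq_true, Bool.and_eq_true, Bool.and_eq_true] at h
    obtain ⟨⟨⟨h1, h2⟩, h3⟩, h4⟩ := h
    rcases List.mem_cons.1 he with rfl | he
    · refine ⟨Nat.eq_of_beq_eq_true h1, bit_of_lor_beq h2 (by rw [bit_shl]; simp), fun j hj => ?_⟩
      rcases maskO_spec _ _ _ (bit_of_lor_beq h3 hj) with h5 | h5
      · rw [bit_shl, decide_eq_true_eq] at h5
        exact Or.inl h5
      · exact Or.inr h5
    · exact teOK_spec l h4 e he

/-- The label is below. -/
def InP (p q i : Nat) : Prop :=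
  Nat.beq (Nat.mod (Nat.add (dig p i) 1) 3) (Nat.mod (dig q i) 3) = true

/-- The label is above. -/
def OutP (p q i : Nat) : Prop :=
  Nat.beq (Nat.mod (Nat.add (dig q i) 1) 3) (Nat.mod (dig p i) 3) = true

theorem InP.not_out {p q i : Nat} (h : InP p q i) : ¬ OutP p q i := by
  intro h2
  have key : ∀ a b : ZMod 3, b = a + 1 → a = b + 1 → False := by decide
  exact key _ _ (cast_of_mod h) (cast_of_mod h2)

theorem inM_spec {p q : Nat} : ∀ (l : List (Nat × Nat)) (a M : Nat), inM p q l a = some M →
    (∀ j, bit M j = true ↔ (bit a j = true ∨ ∃ v, (v, j) ∈ l ∧ InP p q j)) ∧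
      ∀ e ∈ l, InP p q e.2 ∨ OutP p q e.2
  | [], a, M, h => by
    have h' : some a = some M := h
    rw [Option.some.injEq] at h'
    subst h'
    exact ⟨fun j => by simp, by simp⟩
  | (v, i) :: l, a, M, h => by
    unfold inM at h
    cases h1 : Nat.beq (Nat.mod (Nat.add (dig p i) 1) 3) (Nat.mod (dig q i) 3)
    · rw [h1, cond_false] at h
      cases h2 : Nat.beq (Nat.mod (Nat.add (dig q i) 1) 3) (Nat.mod (dig p i) 3)
      · rw [h2, cond_false] at h
        exact absurd h (by simp)
      · rw [h2, cond_true] at h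
        obtain ⟨g1, g2⟩ := inM_spec l a M h
        refine ⟨fun j => ?_, fun e he => ?_⟩
        · rw [g1]
          constructor
          · rintro (h3 | ⟨v', h3, h4⟩)
            · exact Or.inl h3
            · exact Or.inr ⟨v', List.mem_cons_of_mem _ h3, h4⟩
          · rintro (h3 | ⟨v', h3, h4⟩)
            · exact Or.inl h3
            · rcases List.mem_cons.1 h3 with h5 | h5
              · rw [Prod.mk.injEq] at h5
                rw [h5.2] at h4
                unfold InP at h4
                rw [h1] at h4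
                exact absurd h4 (by simp)
              · exact Or.inr ⟨v', h5, h4⟩
        · rcases List.mem_cons.1 he with rfl | he
          · exact Or.inr h2
          · exact g2 e he
    · rw [h1, cond_true] at h
      obtain ⟨g1, g2⟩ := inM_spec l _ M h
      refine ⟨fun j => ?_, fun e he => ?_⟩
      · rw [g1, bit_lor, bit_shl, Bool.or_eq_true, decide_eq_true_eq]
        constructor
        · rintro ((h3 | h3) | ⟨v', h3, h4⟩)
          · exact Or.inl h3
          · subst h3
            exact Or.inr ⟨v, List.mem_cons_self, h1⟩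
          · exact Or.inr ⟨v', List.mem_cons_of_mem _ h3, h4⟩
        · rintro (h3 | ⟨v', h3, h4⟩)
          · exact Or.inl (Or.inl h3)
          · rcases List.mem_cons.1 h3 with h5 | h5
            · rw [Prod.mk.injEq] at h5
              exact Or.inl (Or.inr h5.2.symm)
            · exact Or.inr ⟨v', h5, h4⟩
      · rcases List.mem_cons.1 he with rfl | he
        · exact Or.inl h1
        · exact g2 e he

theorem filO_spec {M : Nat} : ∀ (l : List (Nat × Nat × Nat × Nat)), oOK l = true →
    ∀ z x i j, (z, x, i, j) ∈ l → bit M i = true → bit M j = false → (i, j) ∈ filO M l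
  | [], _, _, _, _, _, h, _, _ => by simp at h
  | (z', x', i', j') :: l, h, z, x, i, j, hm, hi, hj => by
    have h' : (Nat.beq x' (Nat.shiftLeft 1 i') &&
      Nat.beq z' (Nat.lor (Nat.shiftLeft 1 i') (Nat.shiftLeft 1 j')) &&
      (Nat.blt i' 16 && Nat.blt j' 16) && oOK l) = true := h
    rw [Bool.and_eq_true, Bool.and_eq_true, Bool.and_eq_true] at h'
    obtain ⟨⟨⟨g1, g2⟩, -⟩, g3⟩ := h'
    have key : (z', x', i', j') = (z, x, i, j) → Nat.beq (Nat.land M z') x' = true := by
      intro he
      rw [Prod.mk.injEq, Prod.mk.injEq, Prod.mk.injEq] at he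
      obtain ⟨-, -, rfl, rfl⟩ := he
      rw [Nat.eq_of_beq_eq_true g1, Nat.eq_of_beq_eq_true g2]
      rw [beq_decide, decide_eq_true_eq]
      rw [bit_eq] at hi hj
      apply Nat.eq_of_testBit_eq
      intro b
      show (M &&& (Nat.shiftLeft 1 i' ||| Nat.shiftLeft 1 j')).testBit b =
        (Nat.shiftLeft 1 i').testBit b
      rw [shl_one, shl_one, Nat.testBit_and, Nat.testBit_or, Nat.testBit_two_pow,
        Nat.testBit_two_pow]
      by_cases hb : i' = b
      · subst hb
        simp [hi]
      · by_cases hb2 : j' = b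
        · subst hb2
          simp [hj, hb]
        · simp [hb, hb2]
    show (i, j) ∈ cond (Nat.beq (Nat.land M z') x') ((i', j') :: filO M l) (filO M l)
    rcases List.mem_cons.1 hm with h1 | h1
    · rw [key h1.symm, cond_true]
      rw [Prod.mk.injEq, Prod.mk.injEq, Prod.mk.injEq] at h1
      obtain ⟨-, -, rfl, rfl⟩ := h1
      exact List.mem_cons_self
    · have h2 := filO_spec l g3 z x i j h1 hi hj
      cases Nat.beq (Nat.land M z') x'
      · exact h2
      · exact List.mem_cons_of_mem _ h2

theorem fld_lt (s p v : Nat) : fld s p v < 2 ^ s := Nat.mod_lt _ (Nat.two_pow_pos s)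

theorem bit_fld {s p v j : Nat} (h : bit (fld s p v) j = true) : j < s := by
  by_contra hcon
  rw [bit_eq, Nat.testBit_eq_false_of_lt ((fld_lt s p v).trans_le
    (Nat.pow_le_pow_right (by norm_num) (by omega)))] at h
  exact absurd h (by simp)

/-- The soundness of an entry. -/
theorem qEntry_spec {R : Red} (hed : ∀ e ∈ R.ed, R.t ≤ e.1) {e : QE}
    (he : qEntry R.t R.ie R.te e = true) {p M : Nat} (hM : inM p e.q R.te 0 = some M)
    (τ : Nat → ℝ) (hτ : ∀ a ∈ filO M e.o, τ a.1 < τ a.2) :
    ∃ τ' : Nat → ℝ, (∀ i, i < R.t → τ' i = τ i) ∧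
      ∀ x ∈ R.ed, Str (fun v => ((colr R.t p e.r v : Nat) : ZMod 3)) τ' x.1 x.2 := by
  classical
  unfold qEntry at he
  rw [Bool.and_eq_true, Bool.and_eq_true] at he
  obtain ⟨⟨h1, h2⟩, h3⟩ := he
  obtain ⟨arcs, a1, a2⟩ := ieOK_spec _ h1
  have b := teOK_spec _ h3
  obtain ⟨m1, m2⟩ := inM_spec _ _ _ hM
  have hOut : ∀ j, (∃ v, (v, j) ∈ R.te ∧ OutP p e.q j) → bit M j = false := by
    rintro j ⟨v, -, hv⟩
    by_contra hcon
    rw [Bool.not_eq_false] at hcon
    rcases (m1 j).1 hcon with h4 | ⟨-, -, h4⟩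
    · rw [bit_eq, Nat.zero_testBit] at h4
      exact absurd h4 (by simp)
    · exact h4.not_out hv
  obtain ⟨σ, s1, s2, s3⟩ := exists_sigma (Finset.range 16) arcs
    (fun v => fld 5 e.rk (v - R.t)) (2 ^ 5)
    (fun v j => bit (fld 16 e.rc (v - R.t)) j = true ∧ ∃ v', (v', j) ∈ R.te ∧ OutP p e.q j)
    (fun v => ((R.te.filter fun x => x.1 = v ∧ InP p e.q x.2).map Prod.snd).toFinset)
    (fun v => ((R.te.filter fun x => x.1 = v ∧ OutP p e.q x.2).map Prod.snd).toFinset) τ
    (fun v => fld_lt _ _ _) (fun x hx => (a1 x hx).1) (fun x hx j hj => ⟨(a1 x hx).2 j hj.1, hj.2⟩)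
    (fun v j hj => Finset.mem_range.2 (bit_fld hj.1))
    (by
      intro v j hj
      rw [List.mem_toFinset, List.mem_map] at hj
      obtain ⟨x, hx, rfl⟩ := hj
      rw [List.mem_filter, decide_eq_true_eq] at hx
      obtain ⟨hx1, rfl, hx2⟩ := hx
      exact ⟨(b x hx1).2.1, x.1, hx1, hx2⟩)
    (by
      intro v i hi j hj
      rw [List.mem_toFinset, List.mem_map] at hi
      obtain ⟨x, hx, rfl⟩ := hi
      rw [List.mem_filter, decide_eq_true_eq] at hx
      obtain ⟨hx1, rfl, hx2⟩ := hx
      obtain ⟨hj1, hj2⟩ := hj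
      rcases (b x hx1).2.2 j hj1 with h4 | ⟨z, y, h4⟩
      · obtain ⟨v', -, h5⟩ := hj2
        rw [← h4] at h5
        exact absurd h5 hx2.not_out
      · exact hτ _ (filO_spec _ h2 z y x.2 j h4 ((m1 x.2).2 (Or.inr ⟨x.1, hx1, hx2⟩))
          (hOut j hj2)))
  refine ⟨fun v => if v < R.t then τ v else σ v, fun i hi => if_pos hi, fun x hx => ?_⟩
  have hx1 := hed x hx
  have c1 : colr R.t p e.r x.1 = dig e.r (x.1 - R.t) := by
    unfold colr
    rw [show Nat.blt x.1 R.t = false by
      rw [Bool.eq_false_iff]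
      intro h
      have : x.1 < R.t := by simpa using h
      omega]
    rfl
  cases hb : Nat.blt x.2 R.t
  · have hx2 : ¬ x.2 < R.t := by
      intro h
      have : Nat.blt x.2 R.t = true := by simpa using h
      rw [hb] at this
      exact absurd this (by simp)
    have c2 : colr R.t p e.r x.2 = dig e.r (x.2 - R.t) := by
      unfold colr
      rw [hb]
      rfl
    have hie : x ∈ R.ie := by
      unfold Red.ie
      rw [List.mem_filter, hb]
      exact ⟨hx, rfl⟩
    have h5 := a2 ℝ σ s1 x hie
    have h6 : ¬ x.1 < R.t := by omega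
    unfold Str at h5 ⊢
    simp only [c1, c2, if_neg hx2, if_neg h6]
    exact h5
  · have hx2 : x.2 < R.t := by simpa using hb
    have c2 : colr R.t p e.r x.2 = dig p x.2 := by
      unfold colr
      rw [hb]
      rfl
    have hte : x ∈ R.te := by
      unfold Red.te
      rw [List.mem_filter, hb]
      exact ⟨hx, rfl⟩
    have h6 : ¬ x.1 < R.t := by omega
    have h7 := (b x hte).1
    unfold Str
    simp only [c1, c2, if_pos hx2, if_neg h6]
    rcases m2 x hte with h8 | h8
    · refine Or.inr ⟨?_, s2 x.1 x.2 ?_⟩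
      · have := cast_of_mod h8
        rw [h7] at this
        exact this
      · rw [List.mem_toFinset, List.mem_map]
        exact ⟨x, List.mem_filter.2 ⟨hte, by rw [decide_eq_true_eq]; exact ⟨rfl, h8⟩⟩, rfl⟩
    · refine Or.inl ⟨?_, s3 x.1 x.2 ?_⟩
      · have := cast_of_mod h8
        rw [h7] at this
        exact this
      · rw [List.mem_toFinset, List.mem_map]
        exact ⟨x, List.mem_filter.2 ⟨hte, by rw [decide_eq_true_eq]; exact ⟨rfl, h8⟩⟩, rfl⟩

theorem bP_eq (M i j : Nat) : bP M i j = M.testBit (16 * i + j) := bit_eq M (16 * i + j)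

theorem ones_bit (n : Nat) (h : ones.testBit n = true) : n % 16 = 0 := by
  by_cases hn : n < 256
  · have key : ∀ n < 256, ones.testBit n = true → n % 16 = 0 := by decide +kernel
    exact key n hn h
  · have h1 : ones < 2 ^ n :=
      lt_of_lt_of_le (by decide +kernel : ones < 2 ^ 256) (Nat.pow_le_pow_right (by norm_num)
        (by omega))
    rw [Nat.testBit_eq_false_of_lt h1] at h
    exact absurd h (by simp)

theorem colP_bit {M a n : Nat} (h : (colP M a).testBit n = true) :
    n % 16 = 0 ∧ M.testBit (a + n) = true := by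
  have h' : ((M >>> a) &&& ones).testBit n = true := h
  rw [Nat.testBit_and, Bool.and_eq_true, Nat.testBit_shiftRight] at h'
  exact ⟨ones_bit n h'.2, h'.1⟩

theorem dig_le {C : Nat} (hC : ∀ n, C.testBit n = true → n % 16 = 0) (i : Nat) :
    C / 2 ^ (16 * i) % 2 ^ 16 ≤ 1 := by
  have h : C / 2 ^ (16 * i) % 2 ^ 16 < 2 ^ 1 := by
    refine Nat.lt_pow_two_of_testBit _ fun k hk => ?_
    rw [Nat.testBit_mod_two_pow]
    by_cases hk2 : k < 16
    · by_contra hcon
      rw [Bool.not_eq_false, Bool.and_eq_true, Nat.testBit_div_two_pow] at hcon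
      have := hC _ hcon.2
      omega
    · simp [hk2]
  omega

theorem mul_dig {r : Nat} (hr : r < 2 ^ 16) : ∀ (i C : Nat),
    (∀ i, C / 2 ^ (16 * i) % 2 ^ 16 ≤ 1) →
    C * r / 2 ^ (16 * i) % 2 ^ 16 = C / 2 ^ (16 * i) % 2 ^ 16 * r := by
  intro i
  induction i with
  | zero =>
    intro C hC
    have h0 := hC 0
    rw [Nat.mul_zero, Nat.pow_zero, Nat.div_one] at h0 ⊢
    rw [Nat.div_one, Nat.mul_mod]
    rcases Nat.le_one_iff_eq_zero_or_eq_one.1 h0 with h | h
    · rw [h]; simp
    · rw [h, Nat.one_mul, Nat.mod_mod, Nat.one_mul, Nat.mod_eq_of_lt hr]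
  | succ i ih =>
    intro C hC
    have h0 := hC 0
    rw [Nat.mul_zero, Nat.pow_zero, Nat.div_one] at h0
    have hC' : ∀ i, C / 2 ^ 16 / 2 ^ (16 * i) % 2 ^ 16 ≤ 1 := by
      intro i
      have := hC (i + 1)
      rwa [show 16 * (i + 1) = 16 + 16 * i by ring, pow_add, ← Nat.div_div_eq_div_mul] at this
    have h1 : C * r / 2 ^ 16 = C / 2 ^ 16 * r := by
      have h2 : C = 2 ^ 16 * (C / 2 ^ 16) + C % 2 ^ 16 := (Nat.div_add_mod _ _).symm
      have h3 : C % 2 ^ 16 * r < 2 ^ 16 := by
        rcases Nat.le_one_iff_eq_zero_or_eq_one.1 h0 with h | h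
        · rw [h, Nat.zero_mul]; positivity
        · rw [h, Nat.one_mul]; exact hr
      conv_lhs => rw [h2]
      rw [Nat.add_mul, Nat.mul_assoc, Nat.mul_add_div (by positivity), Nat.div_eq_of_lt h3,
        Nat.add_zero]
    rw [show 16 * (i + 1) = 16 + 16 * i by ring, pow_add, ← Nat.div_div_eq_div_mul,
      ← Nat.div_div_eq_div_mul, h1]
    exact ih _ hC'

theorem mul_bit {M a r i j : Nat} (hr : r < 2 ^ 16) (hj : j < 16)
    (h : (colP M a * r).testBit (16 * i + j) = true) :
    M.testBit (16 * i + a) = true ∧ r.testBit j = true := by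
  have h0 : ∀ n, (colP M a).testBit n = true → n % 16 = 0 := fun n hn => (colP_bit hn).1
  have hd := dig_le h0
  have h1 := mul_dig hr i _ hd
  have h2 : (colP M a * r / 2 ^ (16 * i) % 2 ^ 16).testBit j = true := by
    rw [Nat.testBit_mod_two_pow, Nat.testBit_div_two_pow, Nat.add_comm j, h]
    simp [hj]
  rw [h1] at h2
  rcases Nat.le_one_iff_eq_zero_or_eq_one.1 (hd i) with h3 | h3
  · rw [h3, Nat.zero_mul, Nat.zero_testBit] at h2
    exact absurd h2 (by simp)
  · rw [h3, Nat.one_mul] at h2
    refine ⟨?_, h2⟩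
    have h4 : (colP M a / 2 ^ (16 * i) % 2 ^ 16).testBit 0 = true := by
      rw [h3]; rfl
    rw [Nat.testBit_mod_two_pow, Nat.testBit_div_two_pow, Bool.and_eq_true, Nat.zero_add] at h4
    have := (colP_bit h4.2).2
    rwa [Nat.add_comm] at this

theorem rowP_lt (M i : Nat) : rowP M i < 2 ^ 16 := Nat.mod_lt _ (by norm_num)

theorem rowP_bit {M i j : Nat} (h : (rowP M i).testBit j = true) :
    M.testBit (16 * i + j) = true := by
  have h' : ((M >>> (16 * i)) % 2 ^ 16).testBit j = true := h
  rw [Nat.testBit_mod_two_pow, Bool.and_eq_true, Nat.testBit_shiftRight] at h'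
  exact h'.2

/-- All facts of the state are true. -/
def OkP {L : Type*} [LE L] [LT L] (le lt : Nat) (τ : Nat → L) : Prop :=
  (∀ i j, j < 16 → bP le i j = true → τ i ≤ τ j) ∧ (∀ i j, j < 16 → bP lt i j = true → τ i < τ j)

theorem bP_lor {A B i j : Nat} (h : bP (Nat.lor A B) i j = true) :
    bP A i j = true ∨ B.testBit (16 * i + j) = true := by
  rw [bP_eq] at h ⊢
  have h' : (A ||| B).testBit (16 * i + j) = true := h
  rwa [Nat.testBit_or, Bool.or_eq_true] at h'

theorem OkP.le_up {L : Type*} [LinearOrder L] {le lt : Nat} {τ : Nat → L} (h : OkP le lt τ)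
    {a b : Nat} (ha : a < 16) (hab : τ a ≤ τ b) {i j : Nat} (hj : j < 16)
    (hij : bP (leP le a b) i j = true) : τ i ≤ τ j := by
  rcases bP_lor hij with h1 | h1
  · exact h.1 i j hj h1
  · obtain ⟨h2, h3⟩ := mul_bit (rowP_lt _ _) hj h1
    exact (h.1 i a ha (by rw [bP_eq]; exact h2)).trans
      (hab.trans (h.1 b j hj (by rw [bP_eq]; exact rowP_bit h3)))

theorem OkP.addLe {L : Type*} [LinearOrder L] {le lt : Nat} {τ : Nat → L} (h : OkP le lt τ)
    {a b : Nat} (ha : a < 16) (hab : τ a ≤ τ b) : OkP (leP le a b) (ltP le lt a b) τ := by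
  refine ⟨fun i j hj hij => h.le_up ha hab hj hij, fun i j hj hij => ?_⟩
  rcases bP_lor hij with h1 | h1
  · exact h.2 i j hj h1
  · have h1' : (colP le a * rowP lt b ||| colP lt a * rowP le b).testBit (16 * i + j) = true := h1
    rw [Nat.testBit_or, Bool.or_eq_true] at h1'
    rcases h1' with h2 | h2
    · obtain ⟨h3, h4⟩ := mul_bit (rowP_lt _ _) hj h2
      exact (h.1 i a ha (by rw [bP_eq]; exact h3)).trans_lt
        (hab.trans_lt (h.2 b j hj (by rw [bP_eq]; exact rowP_bit h4)))
    · obtain ⟨h3, h4⟩ := mul_bit (rowP_lt _ _) hj h2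
      exact (h.2 i a ha (by rw [bP_eq]; exact h3)).trans_le
        (hab.trans (h.1 b j hj (by rw [bP_eq]; exact rowP_bit h4)))

theorem OkP.addLt {L : Type*} [LinearOrder L] {le lt : Nat} {τ : Nat → L} (h : OkP le lt τ)
    {a b : Nat} (ha : a < 16) (hab : τ a < τ b) : OkP (leP le a b) (ltP' le lt a b) τ := by
  refine ⟨fun i j hj hij => h.le_up ha hab.le hj hij, fun i j hj hij => ?_⟩
  rcases bP_lor hij with h1 | h1
  · exact h.2 i j hj h1
  · obtain ⟨h3, h4⟩ := mul_bit (rowP_lt _ _) hj h1
    exact (h.1 i a ha (by rw [bP_eq]; exact h3)).trans_lt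
      (hab.trans_le (h.1 b j hj (by rw [bP_eq]; exact rowP_bit h4)))

theorem idP_bit : ∀ (n i j : Nat), n ≤ 16 → j < 16 → bP (idP n) i j = true → i = j
  | 0, i, j, _, _, h => by
    rw [bP_eq] at h
    rw [show idP 0 = 0 from rfl, Nat.zero_testBit] at h
    exact absurd h (by simp)
  | n + 1, i, j, hn, hj, h => by
    rcases bP_lor (A := idP n) (B := Nat.shiftLeft 1 (Nat.mul 17 n)) h with h1 | h1
    · exact idP_bit n i j (by omega) hj h1
    · rw [shl_one, Nat.testBit_two_pow, decide_eq_true_eq] at h1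
      have h2 : 17 * n = 16 * i + j := h1
      omega

theorem OkP.init {L : Type*} [LinearOrder L] {t : Nat} (ht : t ≤ 16) (τ : Nat → L) :
    OkP (idP t) 0 τ := by
  refine ⟨fun i j hj h => ?_, fun i j hj h => ?_⟩
  · rw [idP_bit t i j ht hj h]
  · rw [bP_eq, Nat.zero_testBit] at h
    exact absurd h (by simp)

/-- The pairs of labels with different values. -/
def DiffP {L : Type*} (ne : Nat) (τ : Nat → L) : Prop :=
  ∀ i j, j < 16 → bP ne i j = true → τ i ≠ τ j

theorem innerP_sound {L : Type*} [LinearOrder L] {ne : Nat} {τ : Nat → L} (hne : DiffP ne τ)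
    {P : Prop} {k : Nat → Nat → Bool} (hk : ∀ le lt, OkP le lt τ → k le lt = true → P) :
    ∀ (cs : List (Nat × Nat)), (∀ e ∈ cs, e.1 < 16 ∧ e.2 < 16) → ∀ (le lt : Nat), OkP le lt τ →
      innerP ne cs le lt k = true → (∀ e ∈ cs, τ e.1 < τ e.2) ∨ P := by
  intro cs
  induction cs with
  | nil => exact fun _ le lt _ _ => Or.inl (by simp)
  | cons e cs ih =>
    obtain ⟨i, j⟩ := e
    intro hlt le lt hO hin
    obtain ⟨hi, hj⟩ := hlt (i, j) List.mem_cons_self
    have hcs : ∀ e ∈ cs, e.1 < 16 ∧ e.2 < 16 := fun e he => hlt e (List.mem_cons_of_mem _ he)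
    have hi' : i < 16 := hi
    have hj' : j < 16 := hj
    unfold innerP at hin
    cases h1 : bP lt i j
    · rw [h1, cond_false] at hin
      cases h2 : bP le j i
      · rw [h2, cond_false, Bool.and_eq_true, frc_eq, frc_eq, frc_eq, frc_eq] at hin
        rcases lt_or_ge (τ i) (τ j) with h3 | h3
        · rcases ih hcs _ _ (hO.addLt hi' h3) hin.2 with h4 | h4
          · refine Or.inl fun e he => ?_
            rcases List.mem_cons.1 he with rfl | he
            · exact h3
            · exact h4 e he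
          · exact Or.inr h4
        · refine Or.inr ?_
          cases h5 : bP ne i j
          · rw [h5, cond_false] at hin
            exact hk _ _ (hO.addLe hj' h3) hin.1
          · rw [h5, cond_true] at hin
            exact hk _ _ (hO.addLt hj' (lt_of_le_of_ne h3 (hne i j hj' h5).symm)) hin.1
      · rw [h2, cond_true] at hin
        exact Or.inr (hk _ _ hO hin)
    · rw [h1, cond_true] at hin
      rcases ih hcs _ _ hO hin with h4 | h4
      · refine Or.inl fun e he => ?_
        rcases List.mem_cons.1 he with rfl | he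
        · exact hO.2 _ _ hj' h1
        · exact h4 e he
      · exact Or.inr h4

theorem filO_lt {M : Nat} : ∀ (l : List (Nat × Nat × Nat × Nat)), oOK l = true →
    ∀ e ∈ filO M l, e.1 < 16 ∧ e.2 < 16
  | [], _, e, he => by simp [filO] at he
  | (z, x, i, j) :: l, h, e, he => by
    have h' : (Nat.beq x (Nat.shiftLeft 1 i) &&
      Nat.beq z (Nat.lor (Nat.shiftLeft 1 i) (Nat.shiftLeft 1 j)) &&
      (Nat.blt i 16 && Nat.blt j 16) && oOK l) = true := h
    rw [Bool.and_eq_true, Bool.and_eq_true, Bool.and_eq_true, Bool.and_eq_true] at h'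
    obtain ⟨⟨-, g1, g2⟩, g3⟩ := h'
    have he' : e ∈ cond (Nat.beq (Nat.land M z) x) ((i, j) :: filO M l) (filO M l) := he
    cases h4 : Nat.beq (Nat.land M z) x
    · rw [h4, cond_false] at he'
      exact filO_lt l g3 e he'
    · rw [h4, cond_true] at he'
      rcases List.mem_cons.1 he' with rfl | he'
      · exact ⟨by simpa using g1, by simpa using g2⟩
      · exact filO_lt l g3 e he'

theorem goP_sound {L : Type*} [LinearOrder L] {ne : Nat} {τ : Nat → L} (hne : DiffP ne τ)
    {te : List (Nat × Nat)} {T : Tr} (hT : T.all (fun e => oOK e.o) = true) {p : Nat} :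
    ∀ (rs : List Nat) (le lt : Nat), OkP le lt τ → goP ne te T p rs le lt = true →
      ∃ alt ∈ qalts te T p rs, ∀ e ∈ alt, τ e.1 < τ e.2 := by
  intro rs
  induction rs with
  | nil => exact fun le lt _ hg => by simp [goP] at hg
  | cons n rs ih =>
    intro le lt hO hg
    unfold goP at hg
    unfold qalts
    cases hM : inM p (T.get n).q te 0 with
    | none =>
      rw [hM] at hg
      exact ih le lt hO hg
    | some M =>
      rw [hM] at hg
      rcases innerP_sound hne (P := ∃ alt ∈ qalts te T p rs, ∀ e ∈ alt, τ e.1 < τ e.2) ih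
        (filO M (T.get n).o) (filO_lt _ (Tr.all_get (f := fun e => oOK e.o) T n hT)) le lt hO hg
        with h1 | ⟨a, ha, h2⟩
      · exact ⟨_, List.mem_cons_self, h1⟩
      · exact ⟨a, List.mem_cons_of_mem _ ha, h2⟩

theorem assumeP_sound {L : Type*} [LinearOrder L] {τ : Nat → L} {P : Prop}
    {k : Nat → Nat → Bool} (hk : ∀ le lt, OkP le lt τ → k le lt = true → P) :
    ∀ (cs : List (Nat × Nat)) (le lt : Nat), OkP le lt τ → (∀ e ∈ cs, τ e.1 < τ e.2) →
      (∀ e ∈ cs, e.1 < 16 ∧ e.2 < 16) → assumeP cs le lt k = true → P := by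
  intro cs
  induction cs with
  | nil => exact fun le lt hO _ _ hin => hk le lt hO hin
  | cons e cs ih =>
    obtain ⟨i, j⟩ := e
    intro le lt hO hcs hlt hin
    have hij : τ i < τ j := hcs (i, j) List.mem_cons_self
    have hi : i < 16 := (hlt (i, j) List.mem_cons_self).1
    unfold assumeP at hin
    cases h2 : bP le j i
    · rw [h2, cond_false, frc_eq, frc_eq] at hin
      exact ih _ _ (hO.addLt hi hij) (fun e he => hcs e (List.mem_cons_of_mem _ he))
        (fun e he => hlt e (List.mem_cons_of_mem _ he)) hin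
    · exact ((hO.1 j i hi h2).not_gt hij).elim

theorem arcsOf_lt {f : Nat → Nat} {n : Nat} : ∀ (l out : List (Nat × Nat)),
    (∀ e ∈ l, e.1 < n ∧ e.2 < n) → arcsOf f l = some out → ∀ e ∈ out, e.1 < n ∧ e.2 < n := by
  intro l
  induction l with
  | nil =>
    intro out _ h
    have h' : some [] = some out := h
    rw [Option.some.injEq] at h'
    subst h'
    simp
  | cons e l ih =>
    obtain ⟨a, b⟩ := e
    intro out hl h
    have hab := hl (a, b) List.mem_cons_self
    have hl' : ∀ e ∈ l, e.1 < n ∧ e.2 < n := fun e he => hl e (List.mem_cons_of_mem _ he)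
    unfold arcsOf at h
    cases h1 : Nat.beq (Nat.mod (Nat.add (f a) 1) 3) (Nat.mod (f b) 3)
    · rw [h1, cond_false] at h
      cases h2 : Nat.beq (Nat.mod (Nat.add (f b) 1) 3) (Nat.mod (f a) 3)
      · rw [h2, cond_false] at h
        exact absurd h (by simp)
      · rw [h2, cond_true, Option.map_eq_some_iff] at h
        obtain ⟨out', h3, rfl⟩ := h
        intro e he
        rcases List.mem_cons.1 he with rfl | he
        · exact ⟨hab.2, hab.1⟩
        · exact ih out' hl' h3 e he
    · rw [h1, cond_true, Option.map_eq_some_iff] at h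
      obtain ⟨out', h3, rfl⟩ := h
      intro e he
      rcases List.mem_cons.1 he with rfl | he
      · exact hab
      · exact ih out' hl' h3 e he

theorem Tr.all_mono {f g : QE → Bool} (hfg : ∀ e, f e = true → g e = true) :
    ∀ (T : Tr), T.all f = true → T.all g = true
  | .leaf e, h => hfg e h
  | .node p l r, h => by
    have h' : (l.all f && r.all f) = true := h
    rw [Bool.and_eq_true] at h'
    exact Tr.all_node (Tr.all_mono hfg l h'.1) (Tr.all_mono hfg r h'.2)

/-- The packed matrix `ne` agrees with the rows. -/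
def neP (rows : List Nat) (ne : Nat) : Bool :=
  Nat.blt ne (Nat.pow 2 256) && (List.range 16).all fun i => Nat.beq (rowP ne i) (row rows i)

theorem qalts_spec {R : Red} (hed : ∀ e ∈ R.ed, R.t ≤ e.1) {T : Tr}
    (hT : T.all (qEntry R.t R.ie R.te) = true) (p : Nat) (τ : Nat → ℝ) :
    ∀ (rs : List Nat) (alt : List (Nat × Nat)), alt ∈ qalts R.te T p rs →
      (∀ e ∈ alt, τ e.1 < τ e.2) → ∃ (r : Nat) (τ' : Nat → ℝ), (∀ i, i < R.t → τ' i = τ i) ∧
        ∀ e ∈ R.ed, Str (fun v => ((colr R.t p r v : Nat) : ZMod 3)) τ' e.1 e.2 := by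
  intro rs
  induction rs with
  | nil => exact fun alt h _ => by simp [qalts] at h
  | cons n rs ih =>
    intro alt h halt
    unfold qalts at h
    split at h
    · exact ih alt h halt
    · rename_i M hM
      rcases List.mem_cons.1 h with rfl | h
      · obtain ⟨τ', h1, h2⟩ := qEntry_spec hed (Tr.all_get T n hT) hM τ halt
        exact ⟨_, τ', h1, h2⟩
      · exact ih alt h halt

theorem qcheckL_spec {R : Red} {ne : Nat} {te : List (Nat × Nat)} {T : Tr} :
    ∀ (C : List (Nat × List Nat)), qcheckL R ne te T C = true → ∀ p ∈ C.map Prod.fst,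
      ∃ rs, qcheckP R ne te T p rs = true
  | [], _, p, hp => by simp at hp
  | (q, rs) :: C, h, p, hp => by
    have h3 : (qcheckP R ne te T q rs && qcheckL R ne te T C) = true := h
    rw [Bool.and_eq_true] at h3
    rw [List.map_cons] at hp
    rcases List.mem_cons.1 hp with rfl | hp
    · exact ⟨rs, h3.1⟩
    · exact qcheckL_spec C h3.2 p hp

/-- The ranges of the ends. -/
def rngOK (R : Red) : Bool :=
  (R.nw.all fun e => Nat.blt e.1 R.t && Nat.blt e.2 R.t) && (Nat.blt 0 R.t && Nat.ble R.t 16) &&
    (R.ed.all fun e => Nat.ble R.t e.1)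

/-- **The extension property from the quick check.** -/
theorem Red.ext_of_quick {R : Red} {ne : Nat} {ie te : List (Nat × Nat)} {T : Tr}
    {C : List (Nat × List Nat)} {co : List (ℕ × ℕ)} (hr : rngOK R = true) (hie : R.ie = ie)
    (hte : R.te = te) (hnp : neP R.ne ne = true) (hT : T.all (qEntry R.t ie te) = true)
    (hC : qcheckL R ne te T C = true) (hp0 : R.pts = C.map Prod.fst)
    (hne : neOK R co = true) : R.Ext co := by
  intro c τ hτ hnw
  have hdiff0 : Diff R.ne τ := by
    intro i j hij
    have hi : i < R.ne.length := by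
      by_contra hcon
      have h1 : row R.ne i = 0 := row_of_le _ _ (by omega)
      rw [h1] at hij
      simp [bit_eq] at hij
    unfold neOK at hne
    rw [List.all_eq_true] at hne
    have h1 := hne i (List.mem_range.2 hi)
    rw [Bool.and_eq_true, Bool.and_eq_true, List.all_eq_true] at h1
    obtain ⟨⟨h2, h3⟩, h4⟩ := h1
    have h2' : i < R.t := by simpa using h2
    have h3' : row R.ne i < 2 ^ R.t := by simpa using h3
    have hj : j < R.t := by
      by_contra hcon
      rw [bit_eq, Nat.testBit_eq_false_of_lt] at hij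
      · simp at hij
      · exact h3'.trans_le (Nat.pow_le_pow_right (by norm_num) (by omega))
    intro h5
    have h6 := hτ i j h2' hj h5
    have h7 := h4 j (List.mem_range.2 hj)
    rw [hij] at h7
    simp [h6] at h7
  unfold rngOK at hr
  rw [Bool.and_eq_true, Bool.and_eq_true, Bool.and_eq_true, List.all_eq_true,
    List.all_eq_true] at hr
  obtain ⟨⟨h2, h3, h3'⟩, h1⟩ := hr
  have ht : 0 < R.t := by simpa using h3
  have ht16 : R.t ≤ 16 := by simpa using h3'
  have hed : ∀ e ∈ R.ed, R.t ≤ e.1 := fun e he => by simpa using h1 e he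
  have hn : ∀ e ∈ R.nw, e.1 < R.t ∧ e.2 < R.t := by
    intro e he
    have h6 := h2 e he
    rw [Bool.and_eq_true] at h6
    exact ⟨by simpa using h6.1, by simpa using h6.2⟩
  have hcn : ∀ e ∈ R.nw, (fun i => c i - c 0) e.1 ≠ (fun i => c i - c 0) e.2 := by
    intro e he h6
    have h7 : c e.1 = c e.2 := sub_left_injective h6
    have key : ∀ a : ZMod 3, a = a + 1 → False := by decide
    rcases hnw e he with ⟨h8, -⟩ | ⟨h8, -⟩
    · exact key (c e.1) (by rw [← h8, h7])
    · exact key (c e.2) (by rw [← h8, h7])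
  have hdiff : DiffP ne τ := by
    intro i j hj hij
    unfold neP at hnp
    rw [Bool.and_eq_true, List.all_eq_true] at hnp
    obtain ⟨hnp0, hnp⟩ := hnp
    have hlt : ne < 2 ^ 256 := by
      have h5 : ne < Nat.pow 2 256 := by simpa using hnp0
      exact h5
    have hi16 : i < 16 := by
      by_contra hcon
      rw [bP_eq, Nat.testBit_eq_false_of_lt (hlt.trans_le
        (Nat.pow_le_pow_right (by norm_num) (by omega)))] at hij
      exact absurd hij (by simp)
    have h6 := Nat.eq_of_beq_eq_true (hnp i (List.mem_range.2 hi16))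
    refine hdiff0 i j ?_
    rw [← h6, bit_eq]
    rw [bP_eq] at hij
    show ((ne >>> (16 * i)) % 2 ^ 16).testBit j = true
    rw [Nat.testBit_mod_two_pow, Nat.testBit_shiftRight, hij]
    simp [hj]
  obtain ⟨q, hq, hqc⟩ := pats_spec (c := fun i => c i - c 0) hn hcn (R.t - 1) 1 (by omega)
  have hp : ∀ i, i < R.t → ((dig (4 * q) i : Nat) : ZMod 3) = c i - c 0 := by
    intro i hi
    cases i with
    | zero =>
      rw [show 4 * q = 4 * q + 0 by rfl, dig_zero _ _ (by omega)]
      simp
    | succ i =>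
      rw [show 4 * q = 4 * q + 0 by rfl, dig_succ _ _ _ (by omega), hqc i (by omega),
        Nat.add_comm 1 i]
  subst hie
  subst hte
  obtain ⟨rs, hrs⟩ := qcheckL_spec C hC (4 * q) (by
    rw [← hp0]
    unfold Red.pts
    rw [List.mem_filter]
    refine ⟨List.mem_map.2 ⟨q, hq, rfl⟩, okP_of (n := R.t) (c := fun i => c i - c 0)
      (fun e he => ?_) hcn (fun i hi => ?_) ht⟩
    · rw [Nat.zero_add]
      exact hn e he
    · rw [Nat.zero_add]
      exact hp i hi)
  have hshift : ∀ (c₁ c₂ : Nat → ZMod 3) (σ : Nat → ℝ) (x : ZMod 3) (a b : Nat),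
      c₁ a = c₂ a + x → c₁ b = c₂ b + x → Str c₂ σ a b → Str c₁ σ a b := by
    intro c₁ c₂ σ x a b ha hb hs
    rcases hs with ⟨h4, h5⟩ | ⟨h4, h5⟩
    · exact Or.inl ⟨by rw [ha, hb, h4]; ring, h5⟩
    · exact Or.inr ⟨by rw [ha, hb, h4]; ring, h5⟩
  obtain ⟨hyps, h4, h5⟩ := arcsOf_complete (dig (4 * q)) τ R.nw (by
    intro e he
    refine hshift _ c τ (-c 0) e.1 e.2 ?_ ?_ (hnw e he)
    · rw [hp _ (hn e he).1]; ring
    · rw [hp _ (hn e he).2]; ring)
  unfold qcheckP at hrs
  rw [h4] at hrs
  have hrs' : assumeP hyps (idP R.t) 0 (goP ne R.te T (4 * q) rs) = true := by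
    rw [← frc_eq (idP R.t) fun le => assumeP hyps le 0 (goP ne R.te T (4 * q) rs)]
    exact hrs
  have hT' : T.all (fun e => oOK e.o) = true := by
    refine Tr.all_mono (fun e he => ?_) T hT
    unfold qEntry at he
    rw [Bool.and_eq_true, Bool.and_eq_true] at he
    exact he.1.2
  obtain ⟨alt, halt, h6⟩ := assumeP_sound (τ := τ)
    (P := ∃ alt ∈ qalts R.te T (4 * q) rs, ∀ e ∈ alt, τ e.1 < τ e.2)
    (goP_sound hdiff hT' rs) hyps (idP R.t) 0 (OkP.init ht16 τ) h5
    (fun e he => by
      have := arcsOf_lt R.nw hyps hn h4 e he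
      exact ⟨by omega, by omega⟩) hrs'
  obtain ⟨r, τ', h7, h8⟩ := qalts_spec hed hT (4 * q) τ rs alt halt h6
  refine ⟨fun v => ((colr R.t (4 * q) r v : Nat) : ZMod 3) + c 0, τ', fun i hi => ⟨?_, h7 i hi⟩,
    fun e he => hshift _ _ _ (c 0) _ _ rfl rfl (h8 e he)⟩
  show ((colr R.t (4 * q) r i : Nat) : ZMod 3) + c 0 = c i
  have h9 : colr R.t (4 * q) r i = dig (4 * q) i := by
    unfold colr
    rw [show Nat.blt i R.t = true by simpa using hi, cond_true]
  rw [h9, hp i hi]
  ring

end Pool.Agent.T1Red
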