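import Pool.Agent.Work.MP_392c8e_co_uni.Quick

/-!
# Comparison of long lists in the kernel
-/

namespace Pool.Agent.T1Red

/-- The lists are equal. -/
def eqL : List Nat → List (Nat × List Nat) → Bool
  | [], [] => true
  | a :: l, (b, _) :: l' => Nat.beq a b && eqL l l'
  | _, _ => false

theorem eqL_sound : ∀ {l : List Nat} {l' : List (Nat × List Nat)}, eqL l l' = true →
    l = l'.map Prod.fst
  | [], [], _ => rfl
  | [], _ :: _, h => by simp [eqL] at h
  | _ :: _, [], h => by simp [eqL] at h
  | a :: l, (b, c) :: l', h => by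
    have h' : (Nat.beq a b && eqL l l') = true := h
    rw [Bool.and_eq_true] at h'
    rw [List.map_cons, ← eqL_sound h'.2, Nat.eq_of_beq_eq_true h'.1]

end Pool.Agent.T1Red
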