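import Mathlib
import Pool.Agent.Work.MP_392c8e_co_uni.RingFam
import Pool.Agent.Work.MP_392c8e_co_uni.Mirror

/-!
# The ring of a place in the mirror image
-/

namespace Pool.Agent.Ring392

open Finset Pool.Agent.Sub392 Pool.Agent.T392 Pool.Agent.Disch392 Pool.Agent.Uni392
  Pool.Agent.U2Geo Pool.Agent.Uni91
open Pool.Agent.T1Red (Int)

set_option linter.unusedSectionVars false

variable {V : Type} [Fintype V] [DecidableEq V] {G : SimpleGraph V} [DecidableRel G.Adj]
  {R : Rot G} {U : V → Prop}

theorem prev_next_iter (R : Rot G) (d : G.Dart) (n i : ℕ) (h : i ≤ n) :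
    (prev R)^[i] (R.next^[n] d) = R.next^[n - i] d := by
  induction i with
  | zero => rfl
  | succ i ih =>
    rw [Function.iterate_succ_apply', ih (by omega)]
    have e : n - i = (n - (i + 1)) + 1 := by omega
    rw [e, Function.iterate_succ_apply']
    exact R.next.symm_apply_apply _

/-- In the mirror image the ring is traversed in the other direction. -/
theorem ring_mir_apply (R : Rot G) (U : V → Prop) (e : {d : G.Dart // Ex U d}) :
    ring (mir R) U (ring R U e) = e := by
  set n := rn R U e.1 with hn
  have hn1 : 1 ≤ n := (rn_spec R e.2).1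
  have h0 : (ring R U e).1.symm = R.next^[n] e.1 := by
    show (R.next^[rn R U e.1] e.1).symm.symm = _
    rw [SimpleGraph.Dart.symm_symm]
  have key : ∀ i, i ≤ n → (mir R).next^[i] (ring R U e).1 = (R.next^[n - i] e.1).symm := by
    intro i hi
    rw [mir_iter, h0, prev_next_iter R e.1 n i hi]
  have hn' : rn (mir R) U (ring R U e).1 = n := by
    refine le_antisymm ?_ ?_
    · refine Nat.sInf_le ⟨hn1, ?_⟩
      rw [key n le_rfl, Nat.sub_self]
      exact e.2.1
    · have h1 := rn_spec (mir R) (ring R U e).2
      by_contra hcon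
      push Not at hcon
      have h2 := h1.2
      rw [key _ hcon.le] at h2
      have h3 : U (R.next^[n - rn (mir R) U (ring R U e).1] e.1).fst := h2
      obtain ⟨j, hj⟩ := Nat.exists_eq_succ_of_ne_zero
        (n := n - rn (mir R) U (ring R U e).1) (by omega)
      rw [hj] at h3
      have h4 : U (R.next^[j + 1] e.1).fst := h3
      rw [fst_iter] at h4
      exact rn_out R e.2 (by omega) h4
  refine Subtype.ext ?_
  show ((mir R).next^[rn (mir R) U (ring R U e).1] (ring R U e).1).symm = e.1
  rw [hn', key n le_rfl, Nat.sub_self, SimpleGraph.Dart.symm_symm]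
  rfl

theorem ring_mir (R : Rot G) (U : V → Prop) : ring (mir R) U = (ring R U)⁻¹ := by
  ext1 e
  have h := ring_mir_apply R U ((ring R U).symm e)
  rw [Equiv.apply_symm_apply] at h
  exact h

theorem same_mir {e e' : {d : G.Dart // Ex U d}} :
    (ring (mir R) U).SameCycle e e' ↔ (ring R U).SameCycle e e' := by
  rw [ring_mir, Equiv.Perm.sameCycle_inv]

/-- **The ring of a place in the mirror image.** -/
theorem RingP.mir {q : Place V} {k : ℕ} (h : RingP (Disch392.mir R) q k) : RingP R q k :=
  ⟨fun e e' => same_mir.1 (h.one e e'), h.card, h.stub⟩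

end Pool.Agent.Ring392
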