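import Mathlib
import Pool.Agent.Work.MP_392c8e_co_uni.Inv
import Pool.Agent.Work.MP_392c8e_co_uni.Lift
import Pool.Agent.Work.MP_392c8e_co_uni.ColBridge
import Pool.Agent.Work.MP_392c8e_co_t1.Final
import Pool.Agent.Work.MP_392c8e_co_t1.AllFacts

/-!
# Graphs with few vertices

A planar triangle-free graph of maximum degree three with at most `N` vertices has a strict
colouring with `N` heights.
-/

namespace Pool.Agent.SmallW

open Pool.Agent.Red (Pl)
open Pool.Agent.T1Red (Deg3 deg3_iff)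
open Pool.Agent.Uni392 (StrictN)

variable {V : Type} [Fintype V] [DecidableEq V] {G : SimpleGraph V} {N : ℕ}

/-- **Graphs with few vertices.** -/
theorem strictN_small (h1 : Pl G) (h2 : G.CliqueFree 3) (h3 : ∀ v, (G.neighborSet v).ncard ≤ 3)
    (hN : Fintype.card V ≤ N) : StrictN G N :=
  (Pool.Agent.Uni91.strictN_of_hasStrict (Pool.Agent.T392.facts.strict h1 h2 h3)).mono le_rfl hN

theorem strictN_small' (h1 : Pl G) (h2 : G.CliqueFree 3) (h3 : Deg3 G)
    (hN : Fintype.card V ≤ N) : StrictN G N :=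
  strictN_small h1 h2 (deg3_iff.1 h3) hN

theorem colN_small (h1 : Pl G) (h2 : G.CliqueFree 3) (h3 : ∀ v, (G.neighborSet v).ncard ≤ 3)
    (hN : Fintype.card V ≤ N) : Pool.Agent.CutN.ColN (N : ℤ) G :=
  Pool.Agent.CutN.colN_of_strictN (strictN_small h1 h2 h3 hN)

end Pool.Agent.SmallW
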