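import Mathlib
import Pool.Agent.Work.MP_392c8e_co_uni.Full3
import Pool.Agent.Work.MP_392c8e_co_uni.LeafN

/-!
# A side accepts all spread states

If every strict colouring of the outside with real heights extends to the side `X`, then every
colouring of the outside at level `N` for which the heights of the three outer ends are far apart,
compared with the number of vertices of `X`, extends to the whole graph.
-/

namespace Pool.Agent.CutN

open Finset
open Pool.Agent.Red (side side_le Pl)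
open Pool.Agent.T1Red (Str Strict)

/-- **Rounding.**  Real heights of few vertices can be made integers, without changing their order
and their order with respect to given integers with large distances. -/
theorem round_heights {V : Type*} (S : Finset V) (τ : V → ℝ) (T : Fin 3 → ℤ) (m N : ℤ)
    (hm : (S.card : ℤ) ≤ m) (h0 : ∀ i, m ≤ T i) (h1 : ∀ i, T i + m < N)
    (h2 : ∀ i j, T i < T j → T i + m < T j) :
    ∃ φ : V → ℤ, (∀ u ∈ S, ∀ v ∈ S, τ u < τ v → φ u < φ v) ∧
      (∀ u ∈ S, ∀ i, τ u < T i → φ u < T i) ∧ (∀ u ∈ S, ∀ i, (T i : ℝ) < τ u → T i < φ u) ∧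
      ∀ u ∈ S, 0 ≤ φ u ∧ φ u < N := by
  classical
  have hm0 : (0 : ℤ) ≤ m := le_trans (by positivity) hm
  have ex : ∀ y : ℝ, ∃ B : ℤ, (B = -1 ∨ ∃ i, (T i : ℝ) ≤ y ∧ B = T i) ∧
      ∀ i, (T i : ℝ) ≤ y → T i ≤ B := by
    intro y
    by_cases hy : ∃ i, (T i : ℝ) ≤ y
    · obtain ⟨i, hi, hmax⟩ := Finset.exists_max_image
        (univ.filter fun i : Fin 3 => (T i : ℝ) ≤ y) T (by
          obtain ⟨i, hi⟩ := hy
          exact ⟨i, mem_filter.2 ⟨mem_univ _, hi⟩⟩)
      exact ⟨T i, Or.inr ⟨i, (mem_filter.1 hi).2, rfl⟩, fun j hj =>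
        hmax j (mem_filter.2 ⟨mem_univ _, hj⟩)⟩
    · exact ⟨-1, Or.inl rfl, fun i hi => absurd ⟨i, hi⟩ hy⟩
  choose B hB1 hB2 using ex
  have hBge : ∀ y, -1 ≤ B y := by
    intro y
    rcases hB1 y with h | ⟨i, -, h⟩
    · rw [h]
    · rw [h]
      linarith [h0 i]
  have hmono : ∀ y z, y ≤ z → B y ≤ B z := by
    intro y z hyz
    rcases hB1 y with h | ⟨i, h, h'⟩
    · rw [h]
      exact hBge z
    · rw [h']
      exact hB2 z i (h.trans hyz)
  set F : V → Finset V := fun u => S.filter fun w => τ w < τ u ∧ B (τ w) = B (τ u) with hF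
  have hFlt : ∀ u ∈ S, ((F u).card : ℤ) < m := by
    intro u hu
    have h3 : (F u).card < S.card := by
      refine Finset.card_lt_card ⟨Finset.filter_subset _ _, fun h4 => ?_⟩
      have h5 := (mem_filter.1 (h4 hu)).2.1
      exact lt_irrefl _ h5
    have h4 : ((F u).card : ℤ) < (S.card : ℤ) := by exact_mod_cast h3
    linarith
  have hF0 : ∀ u, (0 : ℤ) ≤ ((F u).card : ℤ) := fun u => by positivity
  refine ⟨fun u => B (τ u) + 1 + ((F u).card : ℤ), ?_, ?_, ?_, ?_⟩
  · intro u hu v hv huv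
    show B (τ u) + 1 + ((F u).card : ℤ) < B (τ v) + 1 + ((F v).card : ℤ)
    have h3 := hmono _ _ huv.le
    rcases h3.eq_or_lt with h4 | h4
    · have h5 : (F u).card < (F v).card := by
        refine Finset.card_lt_card ⟨fun w hw => ?_, fun h6 => ?_⟩
        · obtain ⟨h6, h7, h8⟩ := mem_filter.1 hw
          exact mem_filter.2 ⟨h6, h7.trans huv, h8.trans h4⟩
        · have h7 := h6 (mem_filter.2 ⟨hu, huv, h4⟩)
          exact lt_irrefl _ (mem_filter.1 h7).2.1
      have h6 : ((F u).card : ℤ) < ((F v).card : ℤ) := by exact_mod_cast h5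
      linarith
    · have h5 := hFlt u hu
      have h6 := hF0 v
      rcases hB1 (τ v) with h7 | ⟨i, h7, h8⟩
      · have := hBge (τ u)
        linarith
      · rcases hB1 (τ u) with h9 | ⟨j, h9, h10⟩
        · have := h0 i
          rw [h9, h8]
          linarith
        · have := h2 j i (by rw [← h10, ← h8]; exact h4)
          rw [h10, h8]
          linarith
  · intro u hu i hi
    show B (τ u) + 1 + ((F u).card : ℤ) < T i
    have h5 := hFlt u hu
    rcases hB1 (τ u) with h9 | ⟨j, h9, h10⟩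
    · have := h0 i
      rw [h9]
      linarith
    · have h11 : (T j : ℝ) < T i := lt_of_le_of_lt h9 hi
      have h12 : T j < T i := by exact_mod_cast h11
      have := h2 j i h12
      rw [h10]
      linarith
  · intro u hu i hi
    show T i < B (τ u) + 1 + ((F u).card : ℤ)
    have := hB2 (τ u) i hi.le
    have := hF0 u
    linarith
  · intro u hu
    have h5 := hFlt u hu
    have h6 := hF0 u
    constructor
    · show 0 ≤ B (τ u) + 1 + ((F u).card : ℤ)
      have := hBge (τ u)
      linarith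
    · show B (τ u) + 1 + ((F u).card : ℤ) < N
      rcases hB1 (τ u) with h9 | ⟨j, h9, h10⟩
      · have := h0 0
        have := h1 0
        rw [h9]
        linarith
      · have := h1 j
        rw [h10]
        linarith

variable {V : Type} [Fintype V] [DecidableEq V] {G : SimpleGraph V} {X : V → Prop}
  {a b : Fin 3 → V} {N : ℤ}

/-- Gluing a colouring of the outside at level `N` and a strict colouring of the side `X` with
integer heights. -/
theorem glue_lift (hN : 0 < N) {k : ℕ} {a b : Fin k → V}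
    (hcut : ∀ u v, X u → ¬ X v → G.Adj u v → ∃ i, u = a i ∧ v = b i) {c2 : V → ℤ}
    (h2 : IsCol N (side G fun v => ¬ X v) c2) {p : ℤ} {c : V → ZMod 3} {t : V → ℤ}
    (g1 : StrZ (side G X) c t) (g2 : ∀ v, X v → 0 ≤ t v ∧ t v < N) (ha : ∀ i, X (a i))
    (g3 : ∀ i, ((((c2 (b i) - p) / N : ℤ) : ZMod 3) = c (a i) + 1 ∧
        t (a i) < (c2 (b i) - p) % N) ∨
      (c (a i) = (((c2 (b i) - p) / N : ℤ) : ZMod 3) + 1 ∧ (c2 (b i) - p) % N < t (a i))) :
    ∃ c', IsCol N G c' ∧ ∀ v, ¬ X v → c' v = c2 v := by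
  have dv : ∀ x : ℤ, x % N + N * (x / N) = x := fun x => Int.emod_add_mul_ediv x N
  have lift : ∀ x : ZMod 3, (((x.val : ℤ) : ℤ) : ZMod 3) = x := by decide
  set c1 : V → ℤ := fun v => p + (N * ((c v).val : ℤ) + t v) with hc1
  have up : ∀ u v, X u → X v → c v = c u + 1 → t u < t v → Jn N (c1 v - c1 u) := by
    intro u v hu hv h3 h4
    have h5 := jn_of_lift (N := N) (x := ((c u).val : ℤ)) (y := ((c v).val : ℤ))
      (by rw [lift, lift, h3]) h4 (g2 u hu).1 (g2 v hv).2
    have e : c1 v - c1 u = (N * ((c v).val : ℤ) + t v) - (N * ((c u).val : ℤ) + t u) := by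
      show p + (N * ((c v).val : ℤ) + t v) - (p + (N * ((c u).val : ℤ) + t u)) = _
      ring
    rw [e]
    exact h5
  have h1 : IsCol N (side G X) c1 := by
    intro u v huv
    rcases g1 u v huv with ⟨h3, h4⟩ | ⟨h3, h4⟩
    · exact up u v huv.2.1 huv.2.2 h3 h4
    · have := (up v u huv.2.2 huv.2.1 h3 h4).neg
      rwa [neg_sub] at this
  obtain ⟨c', k1, -, k3⟩ := glue_col X h1 h2 (by
    intro u v hu hv huv
    obtain ⟨i, rfl, rfl⟩ := hcut u v hu hv huv
    have e : c2 (b i) - c1 (a i) = (N * ((c2 (b i) - p) / N) + (c2 (b i) - p) % N) -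
        (N * ((c (a i)).val : ℤ) + t (a i)) := by
      have := dv (c2 (b i) - p)
      show c2 (b i) - (p + (N * ((c (a i)).val : ℤ) + t (a i))) = _
      linarith
    rw [e]
    rcases g3 i with ⟨h3, h4⟩ | ⟨h3, h4⟩
    · exact jn_of_lift (by rw [lift, h3]) h4 (g2 _ (ha i)).1 (Int.emod_lt_of_pos _ hN)
    · have h5 := jn_of_lift (N := N) (x := (c2 (b i) - p) / N) (y := ((c (a i)).val : ℤ))
        (t := (c2 (b i) - p) % N) (t' := t (a i)) (by rw [lift, h3]) h4
        (Int.emod_nonneg _ hN.ne') (g2 _ (ha i)).2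
      have h6 := h5.neg
      rwa [neg_sub] at h6)
  exact ⟨c', k1, k3⟩

/-- **Spread states.**  If the side `X` fits to all real heights, then it fits to all states at
level `N` with large distances between the heights of the outer ends. -/
theorem spread_of_fits (hN : 0 < N) {m : ℤ} (hm : (({v | X v} : Set V).ncard : ℤ) ≤ m)
    (hcut : ∀ u v, X u → ¬ X v → G.Adj u v → ∃ i, u = a i ∧ v = b i) (ha : ∀ i, X (a i))
    (hf : ∀ (x : Fin 3 → ZMod 3) (h : Fin 3 → ℝ), Function.Injective h → Full3.Fits G X a x h)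
    {c2 : V → ℤ} (h2 : IsCol N (side G fun v => ¬ X v) c2)
    (hsp : ∀ i j, i ≠ j → ∀ k : ℤ, 2 * m + 2 ≤ |c2 (b i) - c2 (b j) + N * k|) :
    ∃ c, IsCol N G c ∧ ∀ v, ¬ X v → c v = c2 v := by
  classical
  have hm0 : (0 : ℤ) ≤ m := le_trans (by positivity) hm
  have dv : ∀ x : ℤ, x % N + N * (x / N) = x := fun x => Int.emod_add_mul_ediv x N
  set p : ℤ := c2 (b 0) - (m + 1) with hp
  set T : Fin 3 → ℤ := fun i => (c2 (b i) - p) % N with hT
  have T0 : ∀ i, 0 ≤ T i ∧ T i < N := fun i =>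
    ⟨Int.emod_nonneg _ hN.ne', Int.emod_lt_of_pos _ hN⟩
  -- the distances
  have dist : ∀ i j, i ≠ j → ∀ k : ℤ, 2 * m + 2 ≤ |T i - T j + N * k| := by
    intro i j hij k
    have h3 := hsp i j hij (k - (c2 (b i) - p) / N + (c2 (b j) - p) / N)
    have h4 := dv (c2 (b i) - p)
    have h5 := dv (c2 (b j) - p)
    have e : c2 (b i) - c2 (b j) + N * (k - (c2 (b i) - p) / N + (c2 (b j) - p) / N) =
        T i - T j + N * k := by
      show _ = (c2 (b i) - p) % N - (c2 (b j) - p) % N + N * k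
      linarith
    rw [e] at h3
    exact h3
  have hNm : 2 * m + 2 ≤ N := by
    by_contra hcon
    -- two heights would be close
    have h3 := dist 0 1 (by decide) 0
    have h4 := T0 0
    have h5 := T0 1
    rw [mul_zero, add_zero] at h3
    rcases abs_cases (T 0 - T 1) with ⟨h6, -⟩ | ⟨h6, -⟩ <;> linarith
  have e0 : T 0 = m + 1 := by
    show (c2 (b 0) - (c2 (b 0) - (m + 1))) % N = m + 1
    have e : c2 (b 0) - (c2 (b 0) - (m + 1)) = m + 1 := by ring
    rw [e, Int.emod_eq_of_lt (by linarith) (by linarith)]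
  have hlow : ∀ i, m + 1 ≤ T i ∧ T i ≤ N - m - 1 := by
    intro i
    by_cases hi : i = 0
    · subst hi
      rw [e0]
      refine ⟨le_rfl, ?_⟩
      have h3 := dist 1 0 (by decide) 0
      have h4 := dist 1 0 (by decide) (-1)
      have h5 := T0 1
      rw [e0] at h3 h4
      rcases abs_cases (T 1 - (m + 1) + N * 0) with ⟨h6, h7⟩ | ⟨h6, h7⟩ <;>
        rcases abs_cases (T 1 - (m + 1) + N * (-1)) with ⟨h8, h9⟩ | ⟨h8, h9⟩ <;> linarith
    · have h3 := dist i 0 hi 0
      have h4 := dist i 0 hi (-1)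
      have h5 := T0 i
      rw [e0] at h3 h4
      rcases abs_cases (T i - (m + 1) + N * 0) with ⟨h6, h7⟩ | ⟨h6, h7⟩ <;>
        rcases abs_cases (T i - (m + 1) + N * (-1)) with ⟨h8, h9⟩ | ⟨h8, h9⟩ <;>
        constructor <;> linarith
  have hT1 : ∀ i j, T i < T j → T i + m < T j := by
    intro i j hij
    have hne : i ≠ j := by
      rintro rfl
      exact lt_irrefl _ hij
    have h3 := dist i j hne 0
    rw [mul_zero, add_zero, abs_of_neg (by linarith)] at h3
    linarith
  have hinj : Function.Injective fun i => (T i : ℝ) := by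
    intro i j hij
    by_contra hne
    have h3 : T i = T j := by
      have h4 : (T i : ℝ) = (T j : ℝ) := hij
      exact_mod_cast h4
    have h4 := dist i j hne 0
    rw [h3, sub_self, mul_zero, add_zero, abs_zero] at h4
    linarith
  obtain ⟨c, τ, g1, g2⟩ := hf (fun i => (((c2 (b i) - p) / N : ℤ) : ZMod 3))
    (fun i => (T i : ℝ)) hinj
  obtain ⟨φ, r1, r2, r3, r4⟩ := round_heights (univ.filter fun v => X v) τ T m N (by
    have e : ({v | X v} : Set V).ncard = (univ.filter fun v => X v).card := by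
      rw [← Set.ncard_coe_finset]
      congr 1
      ext v
      simp
    rw [← e]
    exact hm) (fun i => by linarith [(hlow i).1]) (fun i => by linarith [(hlow i).2]) hT1
  have mem : ∀ {v}, X v → v ∈ univ.filter fun v => X v := fun hv =>
    mem_filter.2 ⟨mem_univ _, hv⟩
  refine glue_lift hN hcut h2 (p := p) (c := c) (t := φ) ?_ (fun v hv => r4 v (mem hv)) ha ?_
  · intro u v huv
    rcases g1 u v huv with ⟨h3, h4⟩ | ⟨h3, h4⟩
    · exact Or.inl ⟨h3, r1 u (mem huv.2.1) v (mem huv.2.2) h4⟩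
    · exact Or.inr ⟨h3, r1 v (mem huv.2.2) u (mem huv.2.1) h4⟩
  · intro i
    rcases g2 i with ⟨h3, h4⟩ | ⟨h3, h4⟩
    · exact Or.inl ⟨h3, r2 _ (mem (ha i)) i h4⟩
    · exact Or.inr ⟨h3, r3 _ (mem (ha i)) i h4⟩

/-- **A side with pairwise nonadjacent ends accepts all spread states.** -/
theorem spread_full3 (F : T1Red.Facts) (hpl : Pl G) (ht : G.CliqueFree 3)
    (hd : ∀ v, (G.neighborSet v).ncard ≤ 3) (hc : CutK G X a b) (hcon : ConnF G X)
    (hna : ∀ i j, ¬ G.Adj (a i) (a j)) (hN : 0 < N) {m : ℤ}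
    (hm : (({v | X v} : Set V).ncard : ℤ) ≤ m) {c2 : V → ℤ}
    (h2 : IsCol N (side G fun v => ¬ X v) c2)
    (hsp : ∀ i j, i ≠ j → ∀ k : ℤ, 2 * m + 2 ≤ |c2 (b i) - c2 (b j) + N * k|) :
    ∃ c, IsCol N G c ∧ ∀ v, ¬ X v → c v = c2 v :=
  spread_of_fits hN hm hc.cut hc.hX (fun x h hh => Full3.full3 F hpl ht hd hc hcon hna x h hh)
    h2 hsp

end Pool.Agent.CutN
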