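import Pool.Agent.Work.MP_392c8e_co_uni.FamBase
import Pool.Agent.Work.MP_392c8e_co_uni.MainOf
import Pool.Agent.Work.MP_392c8e_co_uni.CombQC

/-!
# The uniform bound for the graph after a base surgery

The graph `newG G I0 (ends P0)` after the base surgery gets its bound from a maximal family of
places of `G` far away from the base surgery; the base surgery itself is never lifted.
-/

set_option autoImplicit false
set_option linter.unusedSectionVars false

namespace Pool.Agent.Uni392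

open Finset Pool.Agent.Sub392 Pool.Agent.T392 Pool.Agent.Disch392
open Pool.Agent.Uni91 (VD ends full FI FP Fam FG)
open Pool.Agent.T1Red (newG Deg3 deg3_iff HasStrict)

variable {V : Type} [Fintype V] [DecidableEq V] {G : SimpleGraph V} [DecidableRel G.Adj]
  {R : Rot G} {I0 : V → Prop} {P0 : List (V × List V × V)} {D0 : ℕ}

/-- The constant. -/
def NBase (A E ρ r D0 : ℕ) : ℕ := 300 * (300 * (3000000 * CBs A E ρ r D0 + 1) + 1)

open Classical in
/-- **The uniform bound after a base surgery.** -/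
theorem strictN_base (hP : R.Plane) (hcub : ∀ v, G.degree v = 3)
    (hb : ∀ d, R.face d ≠ R.face d.symm) (h0 : BaseS G I0 P0 D0)
    (hlen : ∀ q ∈ P0, q.2.1.length ≤ 299) (hPl : Red.Pl (newG G I0 (ends P0)))
    (htri : (newG G I0 (ends P0)).CliqueFree 3) (hdeg0 : Deg3 (newG G I0 (ends P0))) {r : ℕ}
    (Cat : Place V → Prop) (hcat : ∀ q, Cat q → PlOK R r q) {Gd : G.Dart → Prop} {ρ : ℕ}
    (hocc : ∀ d : G.Dart, ¬ Gd d →
      (∃ x, Near R ρ d x ∧ ∃ q, Cat q ∧ x.fst ∈ q.Vert) ∨ (∃ e, Near R ρ d e ∧ Pat7 R e) ∨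
        (∃ e, Near R ρ d e ∧ sz R e = 4) ∨ ∃ e, Near R ρ d e ∧ e.fst ∈ BV G I0)
    {A E : ℕ}
    (hdis : ∀ U : Finset V, ∑ d ∈ univ.filter (fun d : G.Dart => d.fst ∈ U), kap R d ≤
      - (1 / 1000) * (#{d : G.Dart | d.fst ∈ U ∧ sz R d ≠ 6} : ℝ) +
        A * #{d : G.Dart | d.fst ∈ U ∧ ¬ Gd d} + E * #(bd (G := G) U)) :
    StrictN (newG G I0 (ends P0)) (NBase A E ρ r D0) := by
  classical
  obtain ⟨k, p, hp, hs, ht, hnew, hvd, hl, X, hX⟩ :=
    family_base hP hcub h0 hdeg0 Cat hcat hocc hdis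
  have h1 : Deg3 (FG (fun i => (p i).trim) (newG G I0 (ends P0))) := hp.deg hdeg0
  have h2 : HasStrict (FG (fun i => (p i).trim) (newG G I0 (ends P0))) :=
    T392.facts.strict (hp.pl hPl) (hp.cliqueFree htri) (deg3_iff.1 h1)
  have h3 : FG (fun i => (p i).trim) (newG G I0 (ends P0)) =
      newG G (BI I0 p) (ends (BP P0 p)) := hnew
  have h4 : StrictN (FG (fun i => (p i).trim) (newG G I0 (ends P0)))
      (3000000 * CBs A E ρ r D0 + 1) := by
    rw [h3] at h2 ⊢
    refine Uni13.combQ X ?_ hX hP hcub hvd ?_ hb h2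
    · unfold CBs
      exact le_trans (by norm_num) (Nat.le_add_left _ _)
    · intro q hq
      rcases List.mem_append.1 hq with hq | hq
      · exact hlen q hq
      · exact hl q hq
  exact hp.lift hs ht h4

end Pool.Agent.Uni392
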