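import Mathlib
import Pool.Agent.Work.MP_392c8e_co_uni.InstFL2
import Pool.Agent.Work.MP_392c8e_co_uni.InstM
import Pool.Agent.Work.MP_392c8e_co_uni.InstZ4
import Pool.Agent.Work.MP_392c8e_co_uni.InstG1
import Pool.Agent.Work.MP_392c8e_co_uni.InstG3
import Pool.Agent.Work.MP_392c8e_co_uni.InstG2
import Pool.Agent.Work.MP_392c8e_co_uni.InstP2
import Pool.Agent.Work.MP_392c8e_co_uni.LineBR2
import Pool.Agent.Work.MP_392c8e_co_uni.PlW
import Pool.Agent.Work.MP_392c8e_co_uni.FamilyB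

/-!
# The table of stage B
-/

namespace Pool.Agent.U2Geo

open Finset Pool.Agent.Sub392 Pool.T1Side Pool.Agent.T392 Pool.Agent.T1FF Pool.Agent.T1Red
open Pool.Agent.Disch392 Pool.Agent.Uni392 Pool.Agent.DischB
open Pool.Agent.Uni91 (GainP JoinP)

set_option linter.unusedSectionVars false

variable {V : Type} [Fintype V] [DecidableEq V] {G : SimpleGraph V} [DecidableRel G.Adj]
  {R : Rot G}

/-- A place with gain of a shape in the catalogue. -/
theorem atW {s : Shape} (hs : shOK s = true) {v : V} {K : ℕ}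
    (h : ∃ f : ℕ → V, Uni91.Good (s.pl f) G ∧ GainP G (s.pl f) (10 * (K + 1)) ∧
      v ∈ (s.pl f).Vert) : AtCat (PlOK R (20 * (K + 1))) v :=
  ppW hs (r' := 10 * (K + 1)) (by omega) (by omega) h

theorem shOK_R2 : shOK sR2 = true := by decide +kernel

theorem shOK_G1 : shOK sG1 = true := by decide +kernel

theorem shOK_P2 : shOK sP2 = true := by decide +kernel

theorem shOK_Z4 : ∀ s ∈ [sZ4a, sZ4b, sZ4c, sZ4d], shOK s = true := by decide +kernel

/-- **The line r2.** -/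
theorem at_r2 (hR : C5 R) (h13 : 13 ≤ Fintype.card V) (K : ℕ) (d : G.Dart) (hS : Snd R K d)
    (hp : PairS R d) (h1 : nb R d 1 = 6) : AtCat (PlOK R (20 * (K + 1))) d.fst := by
  obtain ⟨f, h2, h3, h4⟩ := lineB_r2 hR h13 d hS hp h1
  exact atW shOK_R2 ⟨f, h2.1, h3, h4⟩

/-- **The line z4.** -/
theorem at_z4 (hR : C5 R) (hbig : 18 < Fintype.card V) (K : ℕ) (d : G.Dart) (h : Chain R d)
    (hE : nb R (ad R d 4) 2 = 5) (k1 : ¬ (nb R d 0 = 5 ∧ nb R d 2 = 5))
    (k2 : ¬ (nb R d 3 = 5 ∧ nb R (ad R d 4) 3 = 5))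
    (hlong : One4 (K ≤ nb R d 0 ∧ K ≤ nb R d 2)
      (K ≤ nb R (ad R d 1) 2 ∧ K ≤ nb R (ad R d 1) 3)
      (K ≤ nb R d 3 ∧ K ≤ nb R (ad R d 4) 3)
      (K ≤ nb R (ad R (ad R d 4) 2) 2 ∧ K ≤ nb R (ad R (ad R d 4) 2) 3)) :
    AtCat (PlOK R (20 * (K + 1))) d.fst := by
  obtain ⟨s, hs, h2⟩ := lineB_z4 hR hbig d h hE k1 k2 hlong
  exact atW (shOK_Z4 s hs) h2

theorem okB_G2 : shOK InstG2.shapeG2 = true := by decide +kernel

theorem okB_G2R : shOK InstG2.shapeG2R = true := by decide +kernel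

/-- **The table of stage B.** -/
theorem tabB_of (e1 : G1c.Ext []) (e3 : G3.Ext []) (e2 : (P2 (4, 6) (7, 9)).Ext [])
    (e4 : G2.Ext []) (e5 : G2R.Ext [(3, 8)]) (hR : C5 R) (hbig : 20 ≤ Fintype.card V) (K : ℕ) :
    TabB R K (AtCat (PlOK R (20 * (K + 1)))) where
  m2 := fun d a b c e f g => InstM.lineB_m2 hR (by omega) (by omega) (by omega) d a b c e f g
  m3 := fun d a b c e f g => InstM.lineB_m3 hR (by omega) (by omega) (by omega) d a b c e f g
  m6 := fun d a b c e f g i => InstM.lineB_m6 hR (by omega) (by omega) (by omega) d a b c e f g i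
  flower := fun d a b => hR.inst_flower (by omega) K d a b
  z4 := fun d a b c e f => at_z4 hR (by omega) K d a b c e f
  r2 := fun d a b c => at_r2 hR (by omega) K d a b c
  l2 := fun d a b c => hR.inst_l2 (by omega) K d a b c
  g1 := fun d a b c e f g => atW shOK_G1 (lineB_g1 e1 hR (by omega) d a b c e f g)
  p2 := fun d a b c => atW shOK_P2 (lineB_p2 e2 hR (by omega) d a b c)
  p1 := fun d h a b c _ =>
    atW shOK_G1 (lineB_g1 e1 hR (by omega) d h.toPair7 h.s3 h.n5 a b c)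
  g2 := fun d a b c e => atW okB_G2 (InstG2.lineB_g2 e4 hR (by omega) d a b c e)
  g2r := fun d a b c e => atW okB_G2R (InstG2.lineB_g2r e5 hR (by omega) d a b c e)
  g3 := fun d a b c e f g i => lineB_g3 e3 hR (by omega) (by omega) (by omega) d a b c e f g i

end Pool.Agent.U2Geo
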