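import Mathlib
import Pool.Agent.Work.MP_392c8e_co_uni.MainB
import Pool.Agent.Work.MP_392c8e_co_uni.FinalDraw
import Pool.Agent.Work.MP_392c8e_co_t1.Final
import Pool.Agent.Work.MP_392c8e_co_t1.AllFacts

/-!
# The uniform bound for cyclically 5-edge-connected plane cubic graphs from the table of places:
the last step
-/

namespace Pool.Agent.Uni21

open Finset Pool.Agent.Sub392 Pool.Agent.T392 Pool.Agent.U2Geo Pool.Agent.Disch392
open Pool.Agent.DischB Pool.Agent.T1FF
open Pool.Agent.Uni392 (StrictN Place MidG PlOK AtCat family_coreB CE GdB)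

set_option linter.unusedSectionVars false

/-- Triangle-free subcubic plane graphs with at most `N` vertices. -/
theorem strictN_small {V : Type} [Fintype V] [DecidableEq V] {G : SimpleGraph V}
    [DecidableRel G.Adj] (R : Rot G) (hP : R.Plane) (htri : G.CliqueFree 3)
    (hdeg : ∀ v, G.degree v ≤ 3) {N : ℕ} (hN : Fintype.card V ≤ N) : StrictN G N :=
  (Pool.Agent.Uni91.strictN_of_hasStrict (Pool.Agent.T392.facts.of_plane htri hdeg R hP)).mono le_rfl hN

/-- **The last step of stage B.** -/
theorem uniform_of_tabB {N1 r : ℕ}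
    (hTab : ∀ (V : Type) [Fintype V] [DecidableEq V] (G : SimpleGraph V) [DecidableRel G.Adj]
      (R : Rot G), C5 R → N1 ≤ Fintype.card V → TabB R 1000 (AtCat (PlOK R r)))
    {V : Type} [Fintype V] [DecidableEq V] {G : SimpleGraph V} [DecidableRel G.Adj]
    (R : Rot G) (h : C5 R) : StrictN G (max N1 (NB r)) := by
  rcases Nat.lt_or_ge (Fintype.card V) N1 with h1 | h1
  · exact strictN_small R h.plane h.tri (fun v => (h.cub v).le) (h1.le.trans (le_max_left _ _))
  · refine (strictN_of_tabB R h.plane h.cub h.tri h.geo.br h.five_le (hTab V G R h h1) ?_).mono le_rfl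
      (le_max_right _ _)
    exact Pool.Agent.Uni21.tabB_mono (fun _ h => Pool.Agent.Uni392.AtCat.mir h)
      (hTab V G (mir R) (mir_C5 h) h1)

end Pool.Agent.Uni21
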