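import Mathlib
import Pool.Agent.Work.MP_392c8e_co_uni.TabBB
import Pool.Agent.Work.MP_392c8e_co_uni.ExtTab
import Pool.Agent.Work.MP_392c8e_co_uni.ExtP2
import Pool.Agent.Work.MP_392c8e_co_uni.Inst.G3Ext
import Pool.Agent.Work.MP_392c8e_co_uni.Inst.G2RExt
import Pool.Agent.Work.MP_392c8e_co_uni.UniB

/-!
# The table of stage B with the extension properties, the uniform bound of stage B
-/

namespace Pool.Agent.U2Geo

open Finset Pool.Agent.Sub392 Pool.T1Side Pool.Agent.T392 Pool.Agent.T1FF Pool.Agent.T1Red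
open Pool.Agent.Disch392 Pool.Agent.Uni392 Pool.Agent.DischB

set_option linter.unusedSectionVars false

/-- **The table of stage B.** -/
theorem tabBX {V : Type} [Fintype V] [DecidableEq V] {G : SimpleGraph V} [DecidableRel G.Adj]
    {R : Rot G} (hR : C5 R) (hbig : 20 ≤ Fintype.card V) (K : ℕ) :
    TabB R K (AtCat (PlOK R (20 * (K + 1)))) :=
  tabB_of extTab_G1c_nil (G3_ext [] (by decide)) extP2_nil extTab_G2_nil (G2R_ext _ (by decide +kernel)) hR
    hbig K

/-- **The uniform bound of stage B**: cyclically 5-edge-connected plane cubic graphs. -/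
theorem strictN_B {V : Type} [Fintype V] [DecidableEq V] {G : SimpleGraph V}
    [DecidableRel G.Adj] (R : Rot G) (hR : C5 R) : StrictN G (max 20 (Uni21.NB 20020)) :=
  Uni21.uniform_of_tabB (N1 := 20) (r := 20020) (fun _ _ _ _ _ _ h h20 => tabBX h h20 1000) R hR

end Pool.Agent.U2Geo
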