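import Mathlib
import Pool.Agent.Work.MP_392c8e_co_uni.C4Near
import Pool.Agent.Work.MP_392c8e_co_uni.LocC

/-!
# The local table

The table of stage C for an arbitrary condition `N` at the first vertex of the dart; `N := N4 R 60`
is the table of stage C, `N := NN R 60` is the local table (no face of length four and no nontrivial
cut with at most three edges is near).
-/

set_option autoImplicit false
set_option linter.unusedSectionVars false

namespace Pool.Agent.DischB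

open Finset Pool.Agent.Sub392 Pool.Agent.T392 Pool.Agent.Disch392 Pool.Agent.U2Geo

variable {V : Type} [Fintype V] [DecidableEq V] {G : SimpleGraph V} [DecidableRel G.Adj]
  {R : Rot G} {K : ℕ} {N P : V → Prop}

/-- The lines of the table at vertices with the condition `N`. -/
structure TabN (R : Rot G) (K : ℕ) (N P : V → Prop) : Prop where
  m2 : ∀ d, N d.fst → Chain R d → nb R (ad R d 4) 2 ≠ 5 → ¬ (nb R d 0 = 5 ∧ nb R d 2 = 5) →
    ¬ (K ≤ nb R (ad R d 4) 3 ∧ K ≤ nb R d 3) →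
    ¬ (K ≤ nb R (ad R d 1) 3 ∧ K ≤ nb R (ad R d 1) 2) →
    ¬ (K ≤ nb R d 2 ∧ K ≤ nb R d 0) → P d.fst
  m3 : ∀ d, N d.fst → Chain R d → nb R (ad R d 4) 2 ≠ 5 → nb R (ad R d 1) 3 ≠ 5 →
    nb R d 0 < K → nb R d 2 < K → nb R d 3 < K → P d.fst
  m6 : ∀ d, N d.fst → Chain R d → nb R (ad R d 4) 2 ≠ 5 → nb R (ad R d 1) 2 ≠ 5 →
    nb R d 0 < K → nb R d 2 < K → nb R d 3 < K → nb R (ad R d 1) 3 < K → P d.fst
  flower : ∀ d, N d.fst → sz R d = 5 → (∀ i < 5, nb R d i = 5) → P d.fst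
  z4 : ∀ d, N d.fst → Chain R d → nb R (ad R d 4) 2 = 5 → ¬ (nb R d 0 = 5 ∧ nb R d 2 = 5) →
    ¬ (nb R d 3 = 5 ∧ nb R (ad R d 4) 3 = 5) →
    One4 (K ≤ nb R d 0 ∧ K ≤ nb R d 2) (K ≤ nb R (ad R d 1) 2 ∧ K ≤ nb R (ad R d 1) 3)
      (K ≤ nb R d 3 ∧ K ≤ nb R (ad R d 4) 3)
      (K ≤ nb R (ad R (ad R d 4) 2) 2 ∧ K ≤ nb R (ad R (ad R d 4) 2) 3) → P d.fst
  r2 : ∀ d, N d.fst → Snd R K d → PairS R d → nb R d 1 = 6 → P d.fst
  l2 : ∀ d, N d.fst → Snd R K d → PairS R d → nb R d 2 = 6 → P d.fst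
  g1 : ∀ d, N d.fst → Pair7 R d → nb R d 3 = 5 → nb R d 5 ≠ 5 → Snd R K (ad R d 0) →
    Snd R K (ad R d 1) → Snd R K (ad R d 3) → P d.fst
  p2 : ∀ d, N d.fst → HypP2 R d → Snd R K (ad R d 3) →
    ((Snd R K (ad R d 0) ∧ Snd R K (ad R d 1)) ∨
      (Snd R K (ad R d 5) ∧ (Snd R K (ad R d 0) ∨ Snd R K (ad R d 1)))) → P d.fst
  p1 : ∀ d, N d.fst → HypP1 R d → Snd R K (ad R d 0) → Snd R K (ad R d 1) →
    Snd R K (ad R d 3) → Snd R K (ad R d 4) → P d.fst
  g2 : ∀ d, N d.fst → HypG2 R d → nb R (ad R d 0) 3 = 5 → Snd R K (ad R d 0) →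
    Snd R K (ad R d 1) → Snd R K (ad R d 4) → P d.fst
  g2r : ∀ d, N d.fst → HypG2R R d → nb R (ad R d 0) 3 = 5 → Snd R K (ad R d 0) →
    Snd R K (ad R d 1) → Snd R K (ad R d 4) → P d.fst
  g3 : ∀ d, N d.fst → sz R d = 7 → Snd R K (ad R d 0) → Snd R K (ad R d 2) →
    Snd R K (ad R d 4) → c5 R (ad R d 0) = 0 → c5 R (ad R d 2) = 0 → c5 R (ad R d 4) = 0 → P d.fst

/-- The table with a condition gives the table for the predicate `P v ∨ ¬ N v`. -/
theorem TabN.tabE (h : TabN R K N P) : TabE R K (fun v => P v ∨ ¬ N v) where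
  m2 := fun d a1 a2 a3 a4 a5 a6 => by
    by_cases hN : N d.fst
    · exact Or.inl (h.m2 d hN a1 a2 a3 a4 a5 a6)
    · exact Or.inr hN
  m3 := fun d a1 a2 a3 a4 a5 a6 => by
    by_cases hN : N d.fst
    · exact Or.inl (h.m3 d hN a1 a2 a3 a4 a5 a6)
    · exact Or.inr hN
  m6 := fun d a1 a2 a3 a4 a5 a6 a7 => by
    by_cases hN : N d.fst
    · exact Or.inl (h.m6 d hN a1 a2 a3 a4 a5 a6 a7)
    · exact Or.inr hN
  flower := fun d a1 a2 => by
    by_cases hN : N d.fst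
    · exact Or.inl (h.flower d hN a1 a2)
    · exact Or.inr hN
  z4 := fun d a1 a2 a3 a4 a5 => by
    by_cases hN : N d.fst
    · exact Or.inl (h.z4 d hN a1 a2 a3 a4 a5)
    · exact Or.inr hN
  r2 := fun d a1 a2 a3 => by
    by_cases hN : N d.fst
    · exact Or.inl (h.r2 d hN a1 a2 a3)
    · exact Or.inr hN
  l2 := fun d a1 a2 a3 => by
    by_cases hN : N d.fst
    · exact Or.inl (h.l2 d hN a1 a2 a3)
    · exact Or.inr hN
  g1 := fun d a1 a2 a3 a4 a5 a6 => by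
    by_cases hN : N d.fst
    · exact Or.inl (h.g1 d hN a1 a2 a3 a4 a5 a6)
    · exact Or.inr hN
  p2 := fun d a1 a2 a3 => by
    by_cases hN : N d.fst
    · exact Or.inl (h.p2 d hN a1 a2 a3)
    · exact Or.inr hN
  p1 := fun d a1 a2 a3 a4 a5 => by
    by_cases hN : N d.fst
    · exact Or.inl (h.p1 d hN a1 a2 a3 a4 a5)
    · exact Or.inr hN
  g2 := fun d a1 a2 a3 a4 a5 => by
    by_cases hN : N d.fst
    · exact Or.inl (h.g2 d hN a1 a2 a3 a4 a5)
    · exact Or.inr hN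
  g2r := fun d a1 a2 a3 a4 a5 => by
    by_cases hN : N d.fst
    · exact Or.inl (h.g2r d hN a1 a2 a3 a4 a5)
    · exact Or.inr hN
  g3 := fun d a1 a2 a3 a4 a5 a6 a7 => by
    by_cases hN : N d.fst
    · exact Or.inl (h.g3 d hN a1 a2 a3 a4 a5 a6 a7)
    · exact Or.inr hN


/-- The table of stage C. -/
theorem tabN_n4 : TabN R K (N4 R 60) P ↔ TabC R K P :=
  ⟨fun h => ⟨h.m2, h.m3, h.m6, h.flower, h.z4, h.r2, h.l2, h.g1, h.p2, h.p1, h.g2, h.g2r, h.g3⟩,
    fun h => ⟨h.m2, h.m3, h.m6, h.flower, h.z4, h.r2, h.l2, h.g1, h.p2, h.p1, h.g2, h.g2r, h.g3⟩⟩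

/-- The table is monotone in the predicate and antitone in the condition. -/
theorem TabN.mono {N' P' : V → Prop} (hN : ∀ v, N' v → N v) (h : ∀ v, P v → P' v)
    (hT : TabN R K N P) : TabN R K N' P' where
  m2 := fun d n a b c e f g => h _ (hT.m2 d (hN _ n) a b c e f g)
  m3 := fun d n a b c e f g => h _ (hT.m3 d (hN _ n) a b c e f g)
  m6 := fun d n a b c e f g i => h _ (hT.m6 d (hN _ n) a b c e f g i)
  flower := fun d n a b => h _ (hT.flower d (hN _ n) a b)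
  z4 := fun d n a b c e f => h _ (hT.z4 d (hN _ n) a b c e f)
  r2 := fun d n a b c => h _ (hT.r2 d (hN _ n) a b c)
  l2 := fun d n a b c => h _ (hT.l2 d (hN _ n) a b c)
  g1 := fun d n a b c e f g => h _ (hT.g1 d (hN _ n) a b c e f g)
  p2 := fun d n a b c => h _ (hT.p2 d (hN _ n) a b c)
  p1 := fun d n a b c e f => h _ (hT.p1 d (hN _ n) a b c e f)
  g2 := fun d n a b c e f => h _ (hT.g2 d (hN _ n) a b c e f)
  g2r := fun d n a b c e f => h _ (hT.g2r d (hN _ n) a b c e f)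
  g3 := fun d n a b c e f g i => h _ (hT.g3 d (hN _ n) a b c e f g i)

/-- **The local theorem**: a configuration gives a place, a vertex without the condition, or a
pattern. -/
theorem TabN.occ (hC : TabN R K N P) (hC' : TabN (mir R) K N P) (h3 : ∀ v, G.degree v = 3)
    (h5 : ∀ d : G.Dart, N d.fst → 5 ≤ sz R d) (hK : 6 ≤ K) {e : G.Dart} (h : ¬ LocB R K e) :
    (∃ x, Near R 60 e x ∧ P x.fst) ∨ (∃ x, Near R 60 e x ∧ ¬ N x.fst) ∨ Pat7 R e := by
  by_cases he : N e.fst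
  · rcases hC.tabE.occE hC'.tabE h3 hK (h5 e he) h with ⟨x, hx, hP | hN⟩ | hp
    · exact Or.inl ⟨x, hx, hP⟩
    · exact Or.inr (Or.inl ⟨x, hx, hN⟩)
    · exact Or.inr (Or.inr hp)
  · exact Or.inr (Or.inl ⟨e, Near.refl R 60 e, he⟩)

/-- The local table. -/
def TabL (R : Rot G) (K : ℕ) (P : V → Prop) : Prop := TabN R K (NN R 60) P

/-- The local table for the mirror image, with the condition for the rotation. -/
theorem TabL.to_mir (h : TabL (mir R) K P) : TabN (mir R) K (NN R 60) P :=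
  TabN.mono (fun _ h1 => NN.mir_iff.2 h1) (fun _ h1 => h1) h

/-- The local table gives the table of stage C. -/
theorem TabL.tabC (h : TabL R K P) (hC : C4 R) : TabC R K P :=
  tabN_n4.1 (TabN.mono (fun _ h1 => hC.nn h1) (fun _ h1 => h1) h)

/-- A vertex without the condition: a face of length four or a vertex at a nontrivial cut is
near. -/
theorem not_nn {n : ℕ} {v : V} (h : ¬ NN R n v) :
    (∃ x : G.Dart, sz R x = 4 ∧ ∃ p : G.Walk v x.fst, p.length ≤ n) ∨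
      ∃ y, ¬ CutAt G y ∧ ∃ p : G.Walk v y, p.length ≤ n := by
  by_cases h4 : N4 R n v
  · right
    have h3 : ¬ N3 G n v := fun h3 => h ⟨h4, h3⟩
    unfold N3 at h3
    push Not at h3
    obtain ⟨A, hA, ⟨d, h1, h2, p, hp⟩, h5⟩ := h3
    refine ⟨d.snd, fun hc => ?_, p, hp⟩
    rcases hc A hA ⟨d, h1, h2, rfl⟩ with h6 | h6
    · omega
    · omega
  · left
    unfold N4 at h4
    push Not at h4
    obtain ⟨x, ⟨p, hp⟩, hx⟩ := h4
    exact ⟨x, hx, p, hp⟩

/-- **The local theorem for the local table**: a configuration gives a place, a pattern, a face of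
length four, or a dart at a nontrivial cut with at most three edges. -/
theorem TabL.occ (hC : TabL R K P) (hC' : TabL (mir R) K P) (hB : CB R) (hK : 6 ≤ K)
    {e : G.Dart} (h : ¬ LocB R K e) :
    (∃ x, Near R 60 e x ∧ P x.fst) ∨ Pat7 R e ∨ (∃ x, Near R 362 e x ∧ sz R x = 4) ∨
      ∃ x, Near R 362 e x ∧ ¬ CutAt G x.fst := by
  rcases TabN.occ hC hC'.to_mir hB.cub (fun d hd => hB.five_le hd) hK h with
    h1 | ⟨x, hx, hN⟩ | h1
  · exact Or.inl h1
  · obtain ⟨q, hq⟩ := hx.walk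
    rcases not_nn hN with ⟨y, hy, p, hp⟩ | ⟨y, hy, p, hp⟩
    · refine Or.inr (Or.inr (Or.inl ⟨y, ?_, hy⟩))
      exact (near_of_walk hB.cub (q.append p) (n := 120)
        (by rw [SimpleGraph.Walk.length_append]; omega) rfl rfl).mono (by norm_num)
    · obtain ⟨z, hz⟩ : ∃ z : G.Dart, z.fst = y := by
        have h5 : 0 < G.degree y := by rw [hB.cub]; norm_num
        obtain ⟨w, hw⟩ := (G.degree_pos_iff_exists_adj y).1 h5
        exact ⟨⟨(y, w), hw⟩, rfl⟩
      refine Or.inr (Or.inr (Or.inr ⟨z, ?_, by rw [hz]; exact hy⟩))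
      exact (near_of_walk hB.cub (q.append p) (n := 120)
        (by rw [SimpleGraph.Walk.length_append]; omega) rfl hz).mono (by norm_num)
  · exact Or.inr (Or.inl h1)

end Pool.Agent.DischB
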