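import Mathlib

/-!
# The number of members of a laminar family

A laminar family whose minimal members meet a set `Γ`, and in which long chains without branches
meet `Γ` between their ends, has at most `2 * M * #Γ` members.
-/

set_option autoImplicit false
set_option linter.unusedSectionVars false

namespace Pool.Agent.Trace13

open Finset

variable {V : Type*} [DecidableEq V]

/-- Any two members are disjoint or comparable. -/
def Lam (F : Finset (Finset V)) : Prop :=
  ∀ A ∈ F, ∀ B ∈ F, Disjoint A B ∨ A ⊆ B ∨ B ⊆ A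

/-- A laminar family of nonempty subsets of `Γ` has at most `2 * #Γ` members. -/
theorem lam_card_le : ∀ (Γ : Finset V) (L : Finset (Finset V)), Lam L → (∀ A ∈ L, A.Nonempty) →
    (∀ A ∈ L, A ⊆ Γ) → #L ≤ 2 * #Γ := by
  classical
  intro Γ
  induction Γ using Finset.induction_on with
  | empty =>
    intro L _ hne hsub
    have h1 : L = ∅ := by
      rw [Finset.eq_empty_iff_forall_notMem]
      intro A hA
      obtain ⟨v, hv⟩ := hne A hA
      exact absurd (hsub A hA hv) (notMem_empty v)
    rw [h1]
    simp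
  | insert x Γ hx ih =>
    intro L hlam hne hsub
    set L0 := L.erase {x} with hL0
    set P := L0.filter fun A => x ∈ A ∧ A.erase x ∈ L0 with hP
    have hP1 : #P ≤ 1 := by
      rw [card_le_one]
      have key : ∀ A ∈ P, ∀ B ∈ P, A ⊆ B → A = B := by
        intro A hA B hB hAB
        obtain ⟨hA1, hA2, hA3⟩ := mem_filter.1 hA
        obtain ⟨hB1, hB2, hB3⟩ := mem_filter.1 hB
        obtain ⟨v, hv⟩ := hne _ (mem_of_mem_erase hA3)
        rcases hlam _ (mem_of_mem_erase hA1) _ (mem_of_mem_erase hB3) with h | h | h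
        · exact absurd (mem_erase.2 ⟨(mem_erase.1 hv).1, hAB (mem_of_mem_erase hv)⟩)
            (Finset.disjoint_left.1 h (mem_of_mem_erase hv))
        · exact absurd (h hA2) (notMem_erase x B)
        · refine subset_antisymm hAB fun w hw => ?_
          by_cases hwx : w = x
          · rw [hwx]
            exact hA2
          · exact h (mem_erase.2 ⟨hwx, hw⟩)
      intro A hA B hB
      obtain ⟨hA1, hA2, -⟩ := mem_filter.1 hA
      obtain ⟨hB1, hB2, -⟩ := mem_filter.1 hB
      rcases hlam _ (mem_of_mem_erase hA1) _ (mem_of_mem_erase hB1) with h | h | h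
      · exact absurd hB2 (Finset.disjoint_left.1 h hA2)
      · exact key A hA B hB h
      · exact (key B hB A hA h).symm
    set L' := (L0 \ P).image fun A => A.erase x with hL'
    have hinj : Set.InjOn (fun A : Finset V => A.erase x) (L0 \ P : Finset (Finset V)) := by
      intro A hA B hB hAB
      rw [mem_coe, mem_sdiff] at hA hB
      have hAB' : A.erase x = B.erase x := hAB
      by_cases h1 : x ∈ A <;> by_cases h2 : x ∈ B
      · rw [← insert_erase h1, ← insert_erase h2, hAB']
      · exfalso
        refine hA.2 (mem_filter.2 ⟨hA.1, h1, ?_⟩)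
        rw [hAB', erase_eq_of_notMem h2]
        exact hB.1
      · exfalso
        refine hB.2 (mem_filter.2 ⟨hB.1, h2, ?_⟩)
        rw [← hAB', erase_eq_of_notMem h1]
        exact hA.1
      · rw [erase_eq_of_notMem h1, erase_eq_of_notMem h2] at hAB'
        exact hAB'
    have h1 : #L' = #(L0 \ P) := card_image_of_injOn hinj
    have h2 : #L' ≤ 2 * #Γ := by
      refine ih L' ?_ ?_ ?_
      · intro A hA B hB
        obtain ⟨A', hA', rfl⟩ := mem_image.1 hA
        obtain ⟨B', hB', rfl⟩ := mem_image.1 hB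
        rcases hlam _ (mem_of_mem_erase (mem_sdiff.1 hA').1) _
          (mem_of_mem_erase (mem_sdiff.1 hB').1) with h | h | h
        · exact Or.inl (h.mono (erase_subset _ _) (erase_subset _ _))
        · exact Or.inr (Or.inl (erase_subset_erase _ h))
        · exact Or.inr (Or.inr (erase_subset_erase _ h))
      · intro A hA
        obtain ⟨A', hA', rfl⟩ := mem_image.1 hA
        have h3 := (mem_sdiff.1 hA').1
        obtain ⟨v, hv⟩ := hne _ (mem_of_mem_erase h3)
        by_contra h4
        rw [not_nonempty_iff_eq_empty] at h4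
        have h5 : A' = {x} := by
          refine subset_antisymm ?_ ?_
          · intro w hw
            rw [mem_singleton]
            by_contra hwx
            have : w ∈ A'.erase x := mem_erase.2 ⟨hwx, hw⟩
            rw [h4] at this
            exact absurd this (notMem_empty w)
          · intro w hw
            rw [mem_singleton] at hw
            have h6 : v = x := by
              by_contra hvx
              have : v ∈ A'.erase x := mem_erase.2 ⟨hvx, hv⟩
              rw [h4] at this
              exact absurd this (notMem_empty v)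
            rw [hw, ← h6]
            exact hv
        exact (mem_erase.1 h3).1 h5
      · intro A hA
        obtain ⟨A', hA', rfl⟩ := mem_image.1 hA
        intro w hw
        have h3 := hsub _ (mem_of_mem_erase (mem_sdiff.1 hA').1) (mem_of_mem_erase hw)
        rcases mem_insert.1 h3 with h4 | h4
        · exact absurd h4 (mem_erase.1 hw).1
        · exact h4
    have h3 : #L ≤ #L0 + 1 := by
      have h5 := pred_card_le_card_erase (s := L) (a := {x})
      rw [← hL0] at h5
      omega
    have h4 : #L0 ≤ #(L0 \ P) + #P := by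
      have := card_sdiff_add_card (s := L0) (t := P)
      have h5 : #L0 ≤ #(L0 ∪ P) := card_le_card subset_union_left
      omega
    rw [card_insert_of_notMem hx]
    omega

/-- **The trace lemma.** -/
theorem card_le_trace (F : Finset (Finset V)) (Γ : Finset V) (M : ℕ) (hlam : Lam F)
    (h1 : ∀ A ∈ F, (A ∩ Γ).Nonempty)
    (h2 : ∀ A ∈ F, ∀ B ∈ F, A ⊆ B → M < #(F.filter fun D => A ⊆ D ∧ D ⊆ B) →
      ∃ g ∈ Γ, g ∈ B ∧ g ∉ A) : #F ≤ 2 * M * #Γ := by
  classical
  have h3 : #(F.image fun A => A ∩ Γ) ≤ 2 * #Γ := by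
    refine lam_card_le Γ _ ?_ ?_ ?_
    · intro A hA B hB
      obtain ⟨A', hA', rfl⟩ := mem_image.1 hA
      obtain ⟨B', hB', rfl⟩ := mem_image.1 hB
      rcases hlam A' hA' B' hB' with h | h | h
      · exact Or.inl (h.mono inter_subset_left inter_subset_left)
      · exact Or.inr (Or.inl (inter_subset_inter_right h))
      · exact Or.inr (Or.inr (inter_subset_inter_right h))
    · intro A hA
      obtain ⟨A', hA', rfl⟩ := mem_image.1 hA
      exact h1 A' hA'
    · intro A hA
      obtain ⟨A', hA', rfl⟩ := mem_image.1 hA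
      exact inter_subset_right
  have h4 : ∀ S ∈ F.image (fun A => A ∩ Γ), #(F.filter fun A => A ∩ Γ = S) ≤ M := by
    intro S hS
    obtain ⟨A0, hA0, rfl⟩ := mem_image.1 hS
    set T := F.filter fun A => A ∩ Γ = A0 ∩ Γ with hT
    have hT0 : T.Nonempty := ⟨A0, mem_filter.2 ⟨hA0, rfl⟩⟩
    have hcomp : ∀ A ∈ T, ∀ B ∈ T, A ⊆ B ∨ B ⊆ A := by
      intro A hA B hB
      obtain ⟨hA1, hA2⟩ := mem_filter.1 hA
      obtain ⟨hB1, hB2⟩ := mem_filter.1 hB
      rcases hlam A hA1 B hB1 with h | h
      · exfalso
        obtain ⟨v, hv⟩ := h1 A hA1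
        have h5 : v ∈ B ∩ Γ := by
          rw [hB2, ← hA2]
          exact hv
        exact Finset.disjoint_left.1 h (mem_inter.1 hv).1 (mem_inter.1 h5).1
      · exact h
    obtain ⟨A, hA, hAmin⟩ := exists_min_image T card hT0
    obtain ⟨B, hB, hBmax⟩ := exists_max_image T card hT0
    have hAs : ∀ D ∈ T, A ⊆ D := by
      intro D hD
      rcases hcomp A hA D hD with h | h
      · exact h
      · rw [eq_of_subset_of_card_le h (hAmin D hD)]
    have hBs : ∀ D ∈ T, D ⊆ B := by
      intro D hD
      rcases hcomp D hD B hB with h | h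
      · exact h
      · rw [eq_of_subset_of_card_le h (hBmax D hD)]
    by_contra hcon
    push Not at hcon
    obtain ⟨hA1, hA2⟩ := mem_filter.1 hA
    obtain ⟨hB1, hB2⟩ := mem_filter.1 hB
    obtain ⟨g, hg, hgB, hgA⟩ := h2 A hA1 B hB1 (hBs A hA) (lt_of_lt_of_le hcon
      (card_le_card fun D hD => mem_filter.2 ⟨(mem_filter.1 hD).1, hAs D hD, hBs D hD⟩))
    have h5 : g ∈ A ∩ Γ := by
      rw [hA2, ← hB2]
      exact mem_inter.2 ⟨hgB, hg⟩
    exact hgA (mem_inter.1 h5).1
  have h5 := card_le_mul_card_image F M h4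
  calc #F ≤ M * #(F.image fun A => A ∩ Γ) := h5
    _ ≤ M * (2 * #Γ) := Nat.mul_le_mul_left _ h3
    _ = 2 * M * #Γ := by ring

/-- **The trace lemma with leaves and tubes.**  It is enough to find an element of `Γ` in the
minimal members, and in the difference of the ends of a long chain without branches. -/
theorem card_le_of_leaf_tube (F : Finset (Finset V)) (Γ : Finset V) (M : ℕ) (hlam : Lam F)
    (hleaf : ∀ A ∈ F, (∀ B ∈ F, B ⊆ A → B = A) → ∃ g ∈ Γ, g ∈ A)
    (htube : ∀ A ∈ F, ∀ B ∈ F, A ⊆ B → (∀ D ∈ F, D ⊆ B → D ⊆ A ∨ A ⊆ D) →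
      M < #(F.filter fun D => A ⊆ D ∧ D ⊆ B) → ∃ g ∈ Γ, g ∈ B ∧ g ∉ A) :
    #F ≤ 2 * M * #Γ := by
  classical
  have h1 : ∀ A ∈ F, ∃ g ∈ Γ, g ∈ A := by
    intro A hA
    obtain ⟨B, hB, hBmin⟩ := exists_min_image (F.filter fun B => B ⊆ A) card
      ⟨A, mem_filter.2 ⟨hA, subset_rfl⟩⟩
    obtain ⟨hB1, hB2⟩ := mem_filter.1 hB
    obtain ⟨g, hg, hgB⟩ := hleaf B hB1 fun D hD hDB =>
      eq_of_subset_of_card_le hDB (hBmin D (mem_filter.2 ⟨hD, hDB.trans hB2⟩))
    exact ⟨g, hg, hB2 hgB⟩
  refine card_le_trace F Γ M hlam (fun A hA => ?_) fun A hA B hB hAB hM => ?_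
  · obtain ⟨g, hg, hgA⟩ := h1 A hA
    exact ⟨g, mem_inter.2 ⟨hgA, hg⟩⟩
  · by_contra hcon
    push Not at hcon
    obtain ⟨g, hg, hgB, hgA⟩ := htube A hA B hB hAB (fun D hD hDB => by
      rcases hlam D hD A hA with h | h | h
      · exfalso
        obtain ⟨g, hg, hgD⟩ := h1 D hD
        exact Finset.disjoint_left.1 h hgD (hcon g hg (hDB hgD))
      · exact Or.inl h
      · exact Or.inr h) hM
    exact hgA (hcon g hg hgB)

end Pool.Agent.Trace13
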