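import Mathlib
import Pool.Agent.Work.MP_392c8e_co_uni.Kill
import Pool.Agent.Work.MP_392c8e_co_uni.MinFin

/-!
# One level for the base class gives one level for all planar graphs without triangles of maximum
degree three
-/

namespace Pool.Agent.CutN

open Pool.Agent.Red

theorem killAt {r : ℕ} {n N : ℤ} (hr : 40 ≤ r) (hn : 0 < n) (hN : 1000 * n + 1000 ≤ N) :
    KillAt r n N := fun _ _ _ _ _ h hK hx hmin hacc => kill h hn hN hr hK hx hmin hacc

/-- **One level for the whole class, from one level for the base class.** -/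
theorem uni_of_base {r : ℕ} {n N : ℤ} (hr : 40 ≤ r) (hn : 0 < n) (hN : 1000 * n + 1000 ≤ N)
    (hb : BaseLevel r n) {V : Type} [Fintype V] [DecidableEq V] {G : SimpleGraph V} (h1 : Pl G)
    (h2 : G.CliqueFree 3) (h3 : ∀ v, (G.neighborSet v).ncard ≤ 3) : ColN N G :=
  uni_of_kill hn (by linarith) (by linarith) hb (killAt hr hn hN) h1 h2 h3

end Pool.Agent.CutN
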