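import Mathlib
import Pool.Agent.Work.MP_392c8e_co_uni.MainC
import Pool.Agent.Work.MP_392c8e_co_uni.FinalC
import Pool.Agent.Work.MP_392c8e_co_uni.TabCC

/-!
# The uniform bound for cyclically 4-edge-connected plane cubic graphs from the table of places:
the last step
-/

namespace Pool.Agent.Uni21

open Finset Pool.Agent.Sub392 Pool.Agent.T392 Pool.Agent.U2Geo Pool.Agent.Disch392
open Pool.Agent.DischB Pool.Agent.T1FF
open Pool.Agent.Uni392 (StrictN Place PlOK AtCat)

set_option linter.unusedSectionVars false

/-- **The last step of stage C.** -/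
theorem uniform_of_tabC {r : ℕ}
    (hTab : ∀ (V : Type) [Fintype V] [DecidableEq V] (G : SimpleGraph V) [DecidableRel G.Adj]
      (R : Rot G), C4 R → TabC R 1000 (AtCat (PlOK R r)))
    {V : Type} [Fintype V] [DecidableEq V] {G : SimpleGraph V} [DecidableRel G.Adj]
    (R : Rot G) (h : C4 R) : StrictN G (NC r) :=
  strictN_of_tabC R h (hTab V G R h) (tabC_mono (fun _ h => Pool.Agent.Uni392.AtCat.mir h)
      (hTab V G (mir R) h.mir))

end Pool.Agent.Uni21
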