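import Mathlib
import Pool.Agent.Work.MP_392c8e_co_uni.UniformD0
import Pool.Agent.Work.MP_392c8e_co_uni.Clos

/-!
# The final statement of stage D0 with a given bound
-/

namespace Pool.Agent.CutN

open Finset Pool.Agent.Red Pool.Agent.Sub392 Pool.Agent.U2Geo
open Pool.Agent.Uni392 (StrictN)
open Pool.Agent.Spot (NSp)
open Pool.Agent.Uni21 (NC)

set_option linter.unusedSectionVars false

/-- **The final statement of stage D0**, with a given bound `N`. -/
theorem uniformD0_le {n0 N : ℕ} (hn0 : 0 < n0) (H : Clos n0) (hN : 3 * n0 + 1 ≤ N)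
    (V : Type) [Fintype V] [DecidableEq V] (G : SimpleGraph V) [DecidableRel G.Adj]
    (hc : ∀ v, G.degree v = 3)
    (h3 : ∀ A : Finset V, A.Nonempty → A ≠ univ → 3 ≤ #(G.interedges A Aᶜ))
    (hK : ¬ ∃ f : V → Fin 4, Function.Surjective f ∧ ∀ i j, i ≠ j →
      #(G.interedges (univ.filter fun v => f v = i) (univ.filter fun v => f v = j)) = 1)
    (hd : ∃ (p : V → ℝ × ℝ) (γ : V → V → unitInterval → ℝ × ℝ),
      Function.Injective p ∧
      (∀ u v, G.Adj u v →
        Continuous (γ u v) ∧ Function.Injective (γ u v) ∧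
        γ u v 0 = p u ∧ γ u v 1 = p v ∧
        ∀ (t : unitInterval) (w : V), γ u v t = p w → w = u ∨ w = v) ∧
      (∀ u v x y, G.Adj u v → G.Adj x y → s(u, v) ≠ s(x, y) →
        ∀ (a b : unitInterval), γ u v a = γ x y b →
          (γ u v a = p u ∨ γ u v a = p v) ∧ (γ u v a = p x ∨ γ u v a = p y))) :
    ∃ c : V → ℕ, (∀ v, c v < 3 * N) ∧ ∀ u v, G.Adj u v →
      (N + 1 : ℤ) ≤ |(c u : ℤ) - c v| ∧ |(c u : ℤ) - c v| ≤ 3 * N - (N + 1) := by
  have h : ColN ((3 * n0 + 1 : ℕ) : ℤ) G :=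
    d0_induction hn0 (Nat.lt_succ_self _) H _ V G rfl (Pool.Agent.Draw.pl_of_drawing hd)
      (ncard_of_degree hc) (cut3_of_interedges h3) (noK4_of_interedges hK)
  obtain ⟨c, h1, h2⟩ := ((strictN_of_colN (Nat.succ_pos _) h).mono le_rfl hN).hasPQ
  refine ⟨c, h1, fun u v huv => ?_⟩
  have h4 := h2 u v huv
  push_cast at h4
  exact h4

/-- The constant of stage D0. -/
theorem bound_le : 3 * max (NC 20020) (NSp 20020) + 1 ≤ 10 ^ 100000 := by decide +kernel

end Pool.Agent.CutN
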