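import Mathlib
import Pool.Agent.Work.MP_392c8e_co_uni.Fam

/-!
# A family of places after a base surgery

A base surgery `(I₀, P₀)` of `G` and a family of places whose vertices are away from it: the places
are places of `newG G I₀ (ends P₀)`, the surgery of the family in this graph is the surgery
`(I₀ ∨ FI p, P₀ ++ FP p)` of `G`, and the data of the union are the data of a virtual surgery.
-/

namespace Pool.Agent.Uni91

open Finset Pool.Agent.Sub392 Pool.Agent.Circ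
open Pool.Agent.T1Red
open Pool.Agent.Red (Pl)
open Pool.Agent.Uni392 (StrictN Place)

variable {V : Type}

/-- The vertex is deleted by the surgery or on one of its paths. -/
def OnB (I₀ : V → Prop) (P₀ : List (V × List V × V)) (v : V) : Prop :=
  I₀ v ∨ ∃ q ∈ P₀, v ∈ full q

theorem mem_ends_full {P₀ : List (V × List V × V)} {u v : V} (h : (u, v) ∈ ends P₀) :
    ∃ q ∈ P₀, u ∈ full q ∧ v ∈ full q := by
  unfold ends at h
  obtain ⟨q, hq, h1⟩ := List.mem_map.1 h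
  rw [Prod.mk.injEq] at h1
  obtain ⟨rfl, rfl⟩ := h1
  exact ⟨q, hq, by unfold full; simp, by unfold full; simp⟩

/-- Away from the base surgery the neighbours are the old ones. -/
theorem newG_adj_of_not {G : SimpleGraph V} {I₀ : V → Prop} {P₀ : List (V × List V × V)} {u v : V}
    (hu : ¬ OnB I₀ P₀ u) : (newG G I₀ (ends P₀)).Adj u v ↔ G.Adj u v ∧ ¬ I₀ v := by
  constructor
  · rintro (⟨h1, -, h2⟩ | ⟨-, h1 | h1⟩)
    · exact ⟨h1, h2⟩
    · obtain ⟨q, hq, h2, -⟩ := mem_ends_full h1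
      exact absurd (Or.inr ⟨q, hq, h2⟩) hu
    · obtain ⟨q, hq, -, h2⟩ := mem_ends_full h1
      exact absurd (Or.inr ⟨q, hq, h2⟩) hu
  · rintro ⟨h1, h2⟩
    exact Or.inl ⟨h1, fun h => hu (Or.inl h), h2⟩

/-- **The union of two surgeries.** -/
theorem VD.union {G : SimpleGraph V} {I₀ I : V → Prop} {P₀ P : List (V × List V × V)}
    (h0 : VD G I₀ P₀) (h1 : VD G I P) (hfar : ∀ q₀ ∈ P₀, ∀ q ∈ P, ∀ x ∈ full q₀, x ∉ full q) :
    VD G (fun v => I₀ v ∨ I v) (P₀ ++ P) := by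
  refine ⟨?_, ?_, ?_, ?_, ?_⟩
  · intro q hq
    rcases List.mem_append.1 hq with hq | hq
    · exact h0.chain q hq
    · exact h1.chain q hq
  · refine List.pairwise_append.2 ⟨h0.disj, h1.disj, ?_⟩
    intro q₀ hq₀ q hq
    exact ⟨fun x hx => hfar q₀ hq₀ q hq x (full_inner hx),
      fun x hx h => hfar q₀ hq₀ q hq x h (full_inner hx)⟩
  · intro q hq x hx
    rcases List.mem_append.1 hq with hq | hq
    · exact Or.inl (h0.int q hq x hx)
    · exact Or.inr (h1.int q hq x hx)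
  · intro q hq u v huv
    rcases List.mem_append.1 hq with hq | hq
    · rcases h0.edge q hq u v huv with h | h
      · exact Or.inl (Or.inl h)
      · exact Or.inr (Or.inl h)
    · rcases h1.edge q hq u v huv with h | h
      · exact Or.inl (Or.inr h)
      · exact Or.inr (Or.inr h)
  · refine List.pairwise_append.2 ⟨h0.edisj, h1.edisj, ?_⟩
    intro q₀ hq₀ q hq u v h2 h3
    have m1 : u ∈ full q₀ := by
      rcases h2 with h2 | h2
      · exact h2.mem.1
      · exact h2.mem.2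
    have m2 : u ∈ full q := by
      rcases h3 with h3 | h3
      · exact h3.mem.1
      · exact h3.mem.2
    exact hfar q₀ hq₀ q hq u m1 m2

/-- **One surgery after the other.** -/
theorem newG_union {G : SimpleGraph V} {I₀ I : V → Prop} {P₀ P : List (V × List V × V)}
    (hfar : ∀ q₀ ∈ P₀, ∀ x ∈ full q₀, ¬ I x) :
    newG (newG G I₀ (ends P₀)) I (ends P) = newG G (fun v => I₀ v ∨ I v) (ends (P₀ ++ P)) := by
  ext u v
  have hm : ∀ a b, (a, b) ∈ ends (P₀ ++ P) ↔ (a, b) ∈ ends P₀ ∨ (a, b) ∈ ends P := by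
    intro a b
    unfold ends
    rw [List.map_append, List.mem_append]
  constructor
  · rintro (⟨h1, h2, h3⟩ | ⟨h1, h2⟩)
    · rcases h1 with ⟨h4, h5, h6⟩ | ⟨h4, h5⟩
      · exact Or.inl ⟨h4, fun h => h.elim h5 h2, fun h => h.elim h6 h3⟩
      · refine Or.inr ⟨h4, ?_⟩
        rcases h5 with h5 | h5
        · exact Or.inl ((hm _ _).2 (Or.inl h5))
        · exact Or.inr ((hm _ _).2 (Or.inl h5))
    · refine Or.inr ⟨h1, ?_⟩
      rcases h2 with h2 | h2
      · exact Or.inl ((hm _ _).2 (Or.inr h2))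
      · exact Or.inr ((hm _ _).2 (Or.inr h2))
  · have key : ∀ a b, (a, b) ∈ ends P₀ → ¬ I a ∧ ¬ I b := by
      intro a b h
      obtain ⟨q, hq, h2, h3⟩ := mem_ends_full h
      exact ⟨hfar q hq a h2, hfar q hq b h3⟩
    rintro (⟨h1, h2, h3⟩ | ⟨h1, h2⟩)
    · exact Or.inl ⟨Or.inl ⟨h1, fun h => h2 (Or.inl h), fun h => h3 (Or.inl h)⟩,
        fun h => h2 (Or.inr h), fun h => h3 (Or.inr h)⟩
    · rcases h2 with h2 | h2
      · rcases (hm _ _).1 h2 with h4 | h4
        · exact Or.inl ⟨Or.inr ⟨h1, Or.inl h4⟩, (key _ _ h4).1, (key _ _ h4).2⟩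
        · exact Or.inr ⟨h1, Or.inl h4⟩
      · rcases (hm _ _).1 h2 with h4 | h4
        · exact Or.inl ⟨Or.inr ⟨h1, Or.inr h4⟩, (key _ _ h4).2, (key _ _ h4).1⟩
        · exact Or.inr ⟨h1, Or.inr h4⟩

section

variable [Fintype V] [DecidableEq V] {G : SimpleGraph V} {I₀ : V → Prop}
  {P₀ : List (V × List V × V)}

open Classical in
/-- Only pairs of real labels are kept in the two lists of conditions. -/
noncomputable def cleanP (p : Place V) : Place V where
  R := p.R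
  nl := p.nl
  ps := p.ps
  miss := p.miss
  co := p.co
  com := p.com.filter fun q => decide (Real p.R p.nl p.miss q.1 ∧ Real p.R p.nl p.miss q.2)
  bad := p.bad.filter fun q => decide (Real p.R p.nl p.miss q.1 ∧ Real p.R p.nl p.miss q.2)
  f := p.f

theorem clean_data {p : Place V} (h : Data p.R p.nl p.ps p.miss p.co p.com p.bad) :
    Data p.R p.nl p.ps p.miss p.co (cleanP p).com (cleanP p).bad := by
  have hr : ∀ a b : ℕ, Real p.R p.nl p.miss a → Real p.R p.nl p.miss b →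
      (a, b) ∈ p.com → (a, b) ∈ (cleanP p).com := by
    intro a b ha hb h1
    simp only [cleanP, List.mem_filter, decide_eq_true_eq]
    exact ⟨h1, ha, hb⟩
  have hb' : ∀ a b : ℕ, Real p.R p.nl p.miss a → Real p.R p.nl p.miss b →
      (a, b) ∈ p.bad → (a, b) ∈ (cleanP p).bad := by
    intro a b ha hb h1
    simp only [cleanP, List.mem_filter, decide_eq_true_eq]
    exact ⟨h1, ha, hb⟩
  refine ⟨h.ed_lt, h.ed_int, h.ed_new, h.ed_nodup, h.att, h.new, h.new_inj, h.miss_lt, h.nw_lt,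
    h.nw_deg, h.nw_miss, h.nw_co, h.nw_tri, h.co_ter, h.co_att, h.count, h.path, h.chain, h.nodup,
    h.inner, h.rng, h.disj, ?_, ?_⟩
  · intro e he m1 m2 o1 o2
    have h1 := h.nw_lt e he
    have r1 : Real p.R p.nl p.miss e.1 := ⟨by omega, m1, o1⟩
    have r2 : Real p.R p.nl p.miss e.2 := ⟨by omega, m2, o2⟩
    rcases h.com_mem e he m1 m2 o1 o2 with h2 | h2
    · exact Or.inl (hr _ _ r1 r2 h2)
    · exact Or.inr (hr _ _ r2 r1 h2)
  · intro e₁ he₁ e₂ he₂ hs hne o1 o2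
    have key : ∀ e ∈ nwD p.R p.miss, Old p.nl e.2 → Real p.R p.nl p.miss e.2 := by
      rintro ⟨a, b⟩ he o
      obtain ⟨h1, -, h3⟩ := mem_nwD.1 he
      refine ⟨?_, h3, o⟩
      rcases h1 with h1 | h1
      · have h2 := h.nw_lt _ h1
        simp only at h2 ⊢
        omega
      · have h2 := h.nw_lt _ h1
        simp only at h2 ⊢
        omega
    have r1 := key e₁ he₁ o1
    have r2 := key e₂ he₂ o2
    rcases h.bad_mem e₁ he₁ e₂ he₂ hs hne o1 o2 with h2 | h2
    · exact Or.inl (hb' _ _ r1 r2 h2)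
    · exact Or.inr (hb' _ _ r2 r1 h2)

/-- **A place away from the base surgery is a place of the new graph.** -/
theorem Good.base {p : Place V} (h : Good p G) (hB : ∀ v ∈ p.Vert, ¬ OnB I₀ P₀ v) :
    Good (cleanP p) (newG G I₀ (ends P₀)) := by
  have hv : ∀ e ∈ p.R.ed, e.1 ∉ p.miss → e.2 ∉ p.miss → p.f e.1 ∈ p.Vert ∧ p.f e.2 ∈ p.Vert := by
    intro e he m1 m2
    have h1 := h.ok.data.ed_lt _ he
    have h2 := h.ok.data.ed_new _ he
    exact ⟨⟨_, ⟨h1.1, m1, h2.1⟩, rfl⟩, ⟨_, ⟨h1.2.1, m2, h2.2⟩, rfl⟩⟩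
  refine ⟨⟨h.ok.ext, clean_data h.ok.data, h.ok.inj, ?_⟩, ?_, ?_, ?_, h.back, h.dup⟩
  · intro i hi hi' w hw
    have hiv : p.f i ∈ p.Vert := h.int_vert ⟨i, hi, hi', rfl⟩
    exact h.ok.nbr i hi hi' w ((newG_adj_of_not (hB _ hiv)).1 hw).1
  · intro e he m1 m2
    have h1 := hv e he m1 m2
    exact (newG_adj_of_not (hB _ h1.1)).2 ⟨h.adj e he m1 m2, fun h => hB _ h1.2 (Or.inl h)⟩
  · intro q hq w hw hcon
    simp only [cleanP, List.mem_filter, decide_eq_true_eq] at hq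
    have v1 : p.f q.1 ∈ p.Vert := ⟨_, hq.2.1, rfl⟩
    have v2 : p.f q.2 ∈ p.Vert := ⟨_, hq.2.2, rfl⟩
    exact h.hC q hq.1 w hw ⟨((newG_adj_of_not (hB _ v1)).1 hcon.1).1,
      (((newG_adj_of_not (hB _ v2)).1 hcon.2.symm).1).symm⟩
  · intro q hq hcon
    simp only [cleanP, List.mem_filter, decide_eq_true_eq] at hq
    have v1 : p.f q.1 ∈ p.Vert := ⟨_, hq.2.1, rfl⟩
    exact h.hT q hq.1 ((newG_adj_of_not (hB _ v1)).1 hcon).1

variable {ι : Type} [Fintype ι] {p : ι → Place V}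

/-- **A family away from the base surgery is a family of the new graph.** -/
theorem Fam.base (hp : Fam p G) (hB : ∀ i, ∀ v ∈ (p i).Vert, ¬ OnB I₀ P₀ v) :
    Fam (fun i => cleanP (p i)) (newG G I₀ (ends P₀)) :=
  ⟨fun i => (hp.good i).base (hB i), fun i j hij => hp.far i j hij⟩

theorem Fam.far_base (hp : Fam p G) (hB : ∀ i, ∀ v ∈ (p i).Vert, ¬ OnB I₀ P₀ v) :
    ∀ q₀ ∈ P₀, ∀ q ∈ FP p, ∀ x ∈ full q₀, x ∉ full q := by
  intro q₀ hq₀ q hq x hx hx'
  obtain ⟨i, hq⟩ := mem_FP.1 hq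
  exact hB i x ((hp.good i).mem_full hq hx') (Or.inr ⟨q₀, hq₀, hx⟩)

/-- **The data of the base surgery and the family.** -/
theorem Fam.vd_base (hp : Fam p G) (h0 : VD G I₀ P₀) (hB : ∀ i, ∀ v ∈ (p i).Vert, ¬ OnB I₀ P₀ v) :
    VD G (fun v => I₀ v ∨ FI p v) (P₀ ++ FP p) :=
  h0.union hp.vd (hp.far_base hB)

/-- **The surgery of the family after the base surgery.** -/
theorem Fam.FG_base (hp : Fam p G) (hB : ∀ i, ∀ v ∈ (p i).Vert, ¬ OnB I₀ P₀ v) :
    FG (fun i => cleanP (p i)) (newG G I₀ (ends P₀)) =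
      newG G (fun v => I₀ v ∨ FI p v) (ends (P₀ ++ FP p)) := by
  have h1 : FG (fun i => cleanP (p i)) (newG G I₀ (ends P₀)) =
      newG (newG G I₀ (ends P₀)) (FI p) (ends (FP p)) := rfl
  rw [h1]
  refine newG_union fun q₀ hq₀ x hx hI => ?_
  obtain ⟨i, hi⟩ := hI
  exact hB i x ((hp.good i).int_vert hi) (Or.inr ⟨q₀, hq₀, hx⟩)

/-- **The lift to the graph after the base surgery.** -/
theorem Fam.lift_base [DecidableEq ι] (hp : Fam p G)
    (hB : ∀ i, ∀ v ∈ (p i).Vert, ¬ OnB I₀ P₀ v) {s t n : ℕ} (hs : ∀ i, (p i).R.m ≤ s)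
    (ht : ∀ i, (p i).R.t ≤ t)
    (h : StrictN (newG G (fun v => I₀ v ∨ FI p v) (ends (P₀ ++ FP p))) n) :
    StrictN (newG G I₀ (ends P₀)) ((s + 1) * ((t + 1) * n + 1)) := by
  refine (hp.base hB).lift (fun i => hs i) (fun i => ht i) ?_
  rwa [hp.FG_base hB]

end

end Pool.Agent.Uni91
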