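import Mathlib
import Pool.Agent.Work.MP_392c8e_co_uni.Spot
import Pool.Agent.Work.MP_392c8e_co_uni.ClosD0
import Pool.Agent.Work.MP_392c8e_co_uni.PairC

/-!
# The closure X at a vertex

In a cyclically 4-edge-connected cubic plane graph which is not the cube every vertex `z` has a pair
of neighbours `p`, `q` for which the graph without `z` and with the edge `p q` has a colouring at a
universal level.
-/

set_option autoImplicit false
set_option linter.unusedSectionVars false

namespace Pool.Agent.Spot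

open Finset Pool.Agent.Sub392 Pool.Agent.T392 Pool.Agent.Disch392 Pool.Agent.U2Geo
open Pool.Agent.T1FF (Nb3)
open Pool.Agent.DischB
open Pool.Agent.Uni392
open Pool.Agent.T1Red (newG)
open Pool.Agent.Uni91 (ends)
open Pool.Agent.CutN (ColN XCol colN_of_strictN xCol_of_spot)

variable {V : Type} [Fintype V] [DecidableEq V] {G : SimpleGraph V} [DecidableRel G.Adj]
  {z p q y : V}

theorem at_of_nb3 (h : Nb3 G z p q y) (ho : ∀ w, G.Adj p w → G.Adj q w → w = z) :
    At G z p q y :=
  ⟨h.ha, h.hb, h.hc, h.ab, h.ac, h.bc, ho⟩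

/-- **One pair.** -/
theorem xCol_pair (R : Rot G) (hC : C4 R) {r : ℕ}
    (hT : TabC R 1000 (AtCat (PlOK R r))) (hT' : TabC (mir R) 1000 (AtCat (PlOK R r)))
    (h : At G z p q y) : XCol (NSp r) G z p q :=
  xCol_of_spot h.hpq (colN_of_strictN (strictN_spot R hC hT hT' h))

/-- **The closure X at a vertex**: some pair is legal, or the graph is the cube. -/
theorem xCol_exists (R : Rot G) (hC : C4 R) {r : ℕ}
    (hT : TabC R 1000 (AtCat (PlOK R r))) (hT' : TabC (mir R) 1000 (AtCat (PlOK R r))) (z : V) :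
    (∃ p q y, Nb3 G z p q y ∧ ¬ G.Adj p q ∧ (∀ w, G.Adj p w → G.Adj q w → w = z) ∧
      XCol (NSp r) G z p q) ∨
      ∃ s1 s2 s3 u12 u13 u23 w, CubeAt G z s1 s2 s3 u12 u13 u23 w := by
  rcases hC.legal_pair z with ⟨p, q, y, h1, h2, h3⟩ | h
  · exact Or.inl ⟨p, q, y, h1, h2, h3, xCol_pair R hC hT hT' (at_of_nb3 h1 h3)⟩
  · exact Or.inr h

end Pool.Agent.Spot
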